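import Pool.Agent.P.MP_d0f69c_mp.XS.If0

/-!
Symmetry and invertibility along the process.
-/

set_option autoImplicit false

open Finset Real
open scoped Matrix

namespace Pool.Agent.P.MP_d0f69c_mp.XS

namespace AdmA

variable {ι : Type} [Fintype ι] [DecidableEq ι]

theorem mv (A : Matrix ι ι ℝ) (W u : ι → ℂ) :
    NW.MM A W *ᵥ u = Complex.ofRealHom.mapMatrix A *ᵥ u + W * u := by
  funext a
  rw [NW.MM_mv]
  rfl

theorem fix {J : Finset ι} {A : Matrix ι ι ℝ}
    (h : ∀ x y, x ∉ J ∨ y ∉ J → A x y = if x = y then 1 else 0) {w : ι → ℂ}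
    (hw : ∀ x ∈ J, w x = 0) : Complex.ofRealHom.mapMatrix A *ᵥ w = w := by
  funext x
  have h1 : ∀ y, (A x y : ℂ) * w y = if x = y then w y else 0 := fun y => by
    by_cases hy : y ∈ J
    · simp [hw y hy]
    · rw [h x y (Or.inr hy)]
      split_ifs <;> simp
  change ∑ y, (A x y : ℂ) * w y = w x
  simp [h1]

end AdmA

theorem t_adm : S_ADM := by
  intro d M _ E H' J hE ⟨U, V, Y, hU, hV, hY, hUV, hYs, hH⟩
  have hs : H'ᵀ = H' := by
    have h1 : E.Hᵀ = E.H := by
      ext x y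
      exact hE.symm y x
    rw [hH, Matrix.transpose_mul, Matrix.transpose_mul, Matrix.transpose_transpose,
      Matrix.transpose_add, Matrix.transpose_sub, Matrix.transpose_one, h1, hYs, Matrix.mul_assoc]
  have hsym : ∀ x y, H' x y = H' y x := fun x y => (congrFun (congrFun hs x) y).symm
  refine ⟨hsym, fun W hJ hW => ?_⟩
  rw [isUnit_iff_ne_zero]
  intro h
  obtain ⟨u, hu, h0⟩ := Matrix.exists_mulVec_eq_zero_iff.2 h
  have hle : ∀ x, (W x).im ≤ 0 := fun x => by
    rcases hW x with h | h | h | ⟨k, h⟩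
    · exact h.le
    all_goals simp [h]
  have hsum := NW.form_univ hsym W u
  rw [h0] at hsum
  simp only [Pi.zero_apply, mul_zero, Complex.zero_im, sum_const_zero] at hsum
  have hz := (sum_eq_zero_iff_of_nonpos fun a _ =>
    mul_nonpos_of_nonpos_of_nonneg (hle a) (sq_nonneg ‖u a‖)).1 hsum.symm
  have huJ : ∀ x ∈ J, u x = 0 := fun x hx => by
    have h1 := (mul_eq_zero.1 (hz x (mem_univ x))).resolve_left (hJ x hx).ne
    exact norm_eq_zero.1 (pow_eq_zero_iff two_ne_zero |>.1 h1)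
  have hVt : Complex.ofRealHom.mapMatrix Vᵀ *ᵥ (W * u) = W * u :=
    AdmA.fix (J := J) (fun x y hxy => by
      rw [Matrix.transpose_apply, hV.off y x hxy.symm]
      simp only [eq_comm]) fun x hx => by simp [huJ x hx]
  have h1 : Vᵀ * H' = (E.H + (Y - 1)) * U := by
    rw [hH, ← Matrix.mul_assoc, ← Matrix.mul_assoc, ← Matrix.transpose_mul, hUV,
      Matrix.transpose_one, Matrix.one_mul]
  have h2 := congrArg (fun w => Complex.ofRealHom.mapMatrix Vᵀ *ᵥ w) h0
  simp only [AdmA.mv, Matrix.mulVec_add, Matrix.mulVec_zero] at h2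
  rw [hVt, Matrix.mulVec_mulVec, ← map_mul, h1, map_mul, ← Matrix.mulVec_mulVec,
    AdmA.fix hU.off huJ, map_add, map_sub, map_one, Matrix.add_mulVec, Matrix.sub_mulVec,
    AdmA.fix hY.off huJ, Matrix.one_mulVec, sub_self, add_zero, ← AdmA.mv] at h2
  exact (hE.adm W hW).ne_zero (Matrix.exists_mulVec_eq_zero_iff.1 ⟨u, hu, h2⟩)

end Pool.Agent.P.MP_d0f69c_mp.XS
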