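import Pool.Agent.P.MP_d0f69c_mp.XS.Light

/- Ward identity, contraction bound and block closing for a dissipative matrix with arbitrary
channel vectors. -/

namespace Pool.Agent.P.MP_d0f69c_mp.XS

open Finset Matrix

variable {X C F : Type} [Fintype X] [Fintype C] [Fintype F]

theorem dot_cs (z w : X → ℂ) : ‖star z ⬝ᵥ w‖ ^ 2 ≤ nq z * nq w := by
  refine le_trans ?_ (sum_mul_sq_le_sq_mul_sq univ (fun x => ‖z x‖) fun x => ‖w x‖)
  refine pow_le_pow_left₀ (norm_nonneg _) ((norm_sum_le _ _).trans_eq ?_) 2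
  simp

theorem nq_add (z w : X → ℂ) {s : ℝ} (hs : 0 < s) :
    nq (z + w) ≤ (1 + s) * nq z + (1 + 1 / s) * nq w := by
  rw [nq, nq, nq, mul_sum, mul_sum, ← sum_add_distrib]
  refine sum_le_sum fun x _ => ?_
  have h1 := pow_le_pow_left₀ (norm_nonneg _) (norm_add_le (z x) (w x)) 2
  have h2 : 0 ≤ (s * ‖z x‖ - ‖w x‖) ^ 2 / s := by positivity
  have h3 : (s * ‖z x‖ - ‖w x‖) ^ 2 / s
      = s * ‖z x‖ ^ 2 - 2 * (‖z x‖ * ‖w x‖) + 1 / s * ‖w x‖ ^ 2 := by field_simp; ring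
  rw [Pi.add_apply]
  nlinarith

theorem nq_neg (z : X → ℂ) : nq (-z) = nq z := by simp [nq]

theorem nq_sub (z w : X → ℂ) : nq (z - w) ≤ 2 * nq z + 2 * nq w := by
  have := nq_add z (-w) one_pos
  rw [nq_neg, ← sub_eq_add_neg] at this
  linarith

theorem nq_smul (c : ℂ) (z : X → ℂ) : nq (c • z) = ‖c‖ ^ 2 * nq z := by
  simp [nq, mul_sum, mul_pow]

/-- the imaginary part of the form of `M` is minus `η` times the squared norm of the channel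
amplitudes `R w` -/
def Diss (M : Matrix X X ℂ) (R : Matrix C X ℂ) (η : ℝ) : Prop :=
  ∀ w, (star w ⬝ᵥ (M *ᵥ w)).im = -(η * nq (R *ᵥ w))

variable [DecidableEq X]

theorem Diss.ward {M : Matrix X X ℂ} {R : Matrix C X ℂ} {η : ℝ} (h : Diss M R η)
    (hM : IsUnit M.det) (w : X → ℂ) :
    η * nq (R *ᵥ (M⁻¹ *ᵥ w)) = (star w ⬝ᵥ (M⁻¹ *ᵥ w)).im := by
  have h1 := h (M⁻¹ *ᵥ w)
  rw [mulVec_mulVec, mul_nonsing_inv _ hM, one_mulVec] at h1
  have h2 : star w ⬝ᵥ (M⁻¹ *ᵥ w) = star (star (M⁻¹ *ᵥ w) ⬝ᵥ w) := by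
    rw [← star_dotProduct_star, star_star]
  rw [h2, Complex.star_def, Complex.conj_im, h1, neg_neg]

/-- the channel matrix is a contraction after multiplication by `η` -/
theorem Diss.contr {M : Matrix X X ℂ} {R : Matrix C X ℂ} {η : ℝ} (h : Diss M R η)
    (hM : IsUnit M.det) (hη : 0 < η) (z : C → ℂ) :
    η ^ 2 * nq ((R * M⁻¹ * Rᴴ) *ᵥ z) ≤ nq z := by
  have h1 := h.ward hM (Rᴴ *ᵥ z)
  rw [star_mulVec, conjTranspose_conjTranspose, ← dotProduct_mulVec] at h1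
  simp only [mulVec_mulVec, ← Matrix.mul_assoc] at h1
  set y := (R * M⁻¹ * Rᴴ) *ᵥ z
  have h2 := dot_cs z y
  have h3 : η * nq y ≤ ‖star z ⬝ᵥ y‖ := h1.trans_le ((le_abs_self _).trans (Complex.abs_im_le_norm _))
  have h4 := pow_le_pow_left₀ (mul_nonneg hη.le (nq_nonneg y)) h3 2
  rcases (nq_nonneg y).eq_or_lt with h5 | h5
  · rw [← h5, mul_zero]; exact nq_nonneg z
  · exact le_of_mul_le_mul_right (by nlinarith) h5

/-- channel mass of the response to a source -/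
theorem Diss.mass {M : Matrix X X ℂ} {R : Matrix C X ℂ} {η : ℝ} (h : Diss M R η)
    (hM : IsUnit M.det) (hη : 0 ≤ η) (w : X → ℂ) :
    (η * nq (R *ᵥ (M⁻¹ *ᵥ w))) ^ 2 ≤ nq w * nq (M⁻¹ *ᵥ w) := by
  refine le_trans ?_ (dot_cs w _)
  refine pow_le_pow_left₀ (mul_nonneg hη (nq_nonneg _)) ?_ 2
  rw [h.ward hM]
  exact (le_abs_self _).trans (Complex.abs_im_le_norm _)

/-- resolvent identity -/
theorem inv_add_eq {M D : Matrix X X ℂ} (hM : IsUnit M.det) (hD : IsUnit (M + D).det) :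
    (M + D)⁻¹ = M⁻¹ - M⁻¹ * D * (M + D)⁻¹ := by
  have : M⁻¹ * D * (M + D)⁻¹ = M⁻¹ * ((M + D) * (M + D)⁻¹) - M⁻¹ * M * (M + D)⁻¹ := by
    noncomm_ring
  rw [this, mul_nonsing_inv _ hD, nonsing_inv_mul _ hM]; simp

theorem inv_add_eq' {M D : Matrix X X ℂ} (hM : IsUnit M.det) (hD : IsUnit (M + D).det) :
    (M + D)⁻¹ = M⁻¹ - (M + D)⁻¹ * D * M⁻¹ := by
  have : (M + D)⁻¹ * D * M⁻¹ = (M + D)⁻¹ * (M + D) * M⁻¹ - (M + D)⁻¹ * (M * M⁻¹) := by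
    noncomm_ring
  rw [this, mul_nonsing_inv _ hM, nonsing_inv_mul _ hD]; simp

/-- the scattering matrix of the perturbation `D` -/
noncomputable def Tm (M D : Matrix X X ℂ) : Matrix X X ℂ := D - D * (M + D)⁻¹ * D

theorem inv_mul_Tm {M D : Matrix X X ℂ} (hM : IsUnit M.det) (hD : IsUnit (M + D).det) :
    M⁻¹ * Tm M D = (M + D)⁻¹ * D := by
  conv_rhs => rw [inv_add_eq hM hD]
  rw [Tm]; noncomm_ring

theorem inv_add_Tm {M D : Matrix X X ℂ} (hM : IsUnit M.det) (hD : IsUnit (M + D).det) :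
    (M + D)⁻¹ = M⁻¹ - M⁻¹ * Tm M D * M⁻¹ := by
  rw [inv_mul_Tm hM hD, ← inv_add_eq' hM hD]

theorem Tm_symm {M D : Matrix X X ℂ} (hM : Mᵀ = M) (hD : Dᵀ = D) : (Tm M D)ᵀ = Tm M D := by
  rw [Tm, transpose_sub, transpose_mul, transpose_mul, transpose_nonsing_inv, transpose_add, hM, hD,
    Matrix.mul_assoc]

/-- on channels `A` that are common to both states the change of the channel matrix has norm at
most `2 / η` -/
theorem Diss.diff {C' Y : Type} [Fintype C'] [Fintype Y] {M D : Matrix X X ℂ} {R : Matrix C X ℂ}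
    {R' : Matrix C' X ℂ} {η : ℝ} (h : Diss M R η) (h' : Diss (M + D) R' η) (hM : IsUnit M.det)
    (hD : IsUnit (M + D).det) (hη : 0 < η) {A : Matrix Y X ℂ}
    (hA : ∀ w, nq (A *ᵥ w) ≤ nq (R *ᵥ w)) (hA' : ∀ w, nq (A *ᵥ w) ≤ nq (R' *ᵥ w)) (z : Y → ℂ) :
    η ^ 2 * nq ((A * (M⁻¹ * Tm M D * M⁻¹) * Aᴴ) *ᵥ z) ≤ 4 * nq z := by
  have key : ∀ {E : Type} [Fintype E] {N : Matrix X X ℂ} {S : Matrix E X ℂ}, Diss N S η →
      IsUnit N.det → (∀ w, nq (A *ᵥ w) ≤ nq (S *ᵥ w)) →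
      η ^ 2 * nq ((A * N⁻¹ * Aᴴ) *ᵥ z) ≤ nq z := fun {E} _ {N S} g hN hS => by
    have h1 := g.ward hN (Aᴴ *ᵥ z)
    have h0 := mul_le_mul_of_nonneg_left (hS (N⁻¹ *ᵥ (Aᴴ *ᵥ z))) hη.le
    rw [h1, star_mulVec, conjTranspose_conjTranspose, ← dotProduct_mulVec] at h0
    simp only [mulVec_mulVec, ← Matrix.mul_assoc] at h0
    set y := (A * N⁻¹ * Aᴴ) *ᵥ z
    have h2 := dot_cs z y
    have h3 : η * nq y ≤ ‖star z ⬝ᵥ y‖ :=
      h0.trans ((le_abs_self _).trans (Complex.abs_im_le_norm _))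
    have h4 := pow_le_pow_left₀ (mul_nonneg hη.le (nq_nonneg y)) h3 2
    rcases (nq_nonneg y).eq_or_lt with h5 | h5
    · rw [← h5, mul_zero]; exact nq_nonneg z
    · exact le_of_mul_le_mul_right (by nlinarith) h5
  have e : M⁻¹ * Tm M D * M⁻¹ = M⁻¹ - (M + D)⁻¹ := by rw [inv_add_Tm hM hD]; simp
  rw [e, Matrix.mul_sub, Matrix.sub_mul, sub_mulVec]
  have a1 := key h hM hA
  have a2 := key h' hD hA'
  have a3 := mul_le_mul_of_nonneg_left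
    (nq_sub ((A * M⁻¹ * Aᴴ) *ᵥ z) ((A * (M + D)⁻¹ * Aᴴ) *ᵥ z)) (sq_nonneg η)
  linarith

end Pool.Agent.P.MP_d0f69c_mp.XS
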