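import Pool.Agent.P.MP_d0f69c_mp.XS.CT1
import Pool.Agent.P.MP_d0f69c_mp.XS.Ward

/-!
Decay of the Green function after a diagonal change.
-/

set_option autoImplicit false

open Finset Real

namespace Pool.Agent.P.MP_d0f69c_mp.XS

/-- resolvent identity for a diagonal change on `X` -/
theorem res_id {ι : Type} [Fintype ι] [DecidableEq ι] {H : Matrix ι ι ℝ} {W W' : ι → ℂ}
    (h : IsUnit (NW.MM H W).det) (h' : IsUnit (NW.MM H W').det) {X : Finset ι}
    (hX : ∀ x ∉ X, W' x = W x) (x z : ι) : NW.GG H W' x z =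
      NW.GG H W x z - ∑ y ∈ X, NW.GG H W x y * (W' y - W y) * NW.GG H W' y z := by
  have e : NW.MM H W' = NW.MM H W + Matrix.diagonal (W' - W) := by
    ext a b
    by_cases hab : a = b
    · subst hab; simp [NW.MM]
    · simp [NW.MM, hab]
  have h1 := congrFun (congrFun (inv_add_eq h (e ▸ h')) x) z
  rw [← e, Matrix.sub_apply, Matrix.mul_apply] at h1
  rw [NW.GG, h1, sum_subset (subset_univ X) fun y _ hy => by rw [hX y hy]; simp]
  simp only [Matrix.mul_diagonal, Pi.sub_apply, NW.GG]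

variable {d M : ℕ} [NeZero M]

/-- majorant of the far part -/
noncomputable def fk (B : ℝ) (l D : ℕ) (x y : Tor d M) : ℝ :=
  if D < nm (x - y) then B * exp (-(nm (x - y) : ℝ) / (2 * l)) else 0

omit [NeZero M] in
theorem fk_symm (B : ℝ) (l D : ℕ) (x y : Tor d M) : fk B l D x y = fk B l D y x := by
  rw [fk, fk, nm_comm]

omit [NeZero M] in
theorem fk_nonneg {B : ℝ} (hB : 0 ≤ B) (l D : ℕ) (x y : Tor d M) : 0 ≤ fk B l D x y := by
  unfold fk; split_ifs <;> positivity

theorem Far.row {B τ : ℝ} {l D : ℕ} (h : Far d M B l D τ) (hB : 0 ≤ B) (S : Finset (Tor d M))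
    (x : Tor d M) : ∑ y ∈ S, fk B l D x y ≤ τ := by
  refine (sum_le_sum_of_subset_of_nonneg (subset_univ S) fun y _ _ => fk_nonneg hB _ _ _ _).trans
    (le_trans ?_ h)
  rw [sum_filter, ← (Equiv.subLeft x).sum_comp]
  refine sum_le_sum fun y _ => ?_
  simp only [fk, Equiv.subLeft_apply, sub_sub_cancel]
  split_ifs
  · exact le_mul_of_one_le_right (by positivity) (one_le_pow₀ (le_add_of_nonneg_right (by positivity)))
  · rfl

omit [NeZero M] in
/-- the far part with an exponential weight -/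
theorem Dec.fk {G : Matrix (Tor d M) (Tor d M) ℂ} {O : Finset (Tor d M)} {B B' : ℝ} {l D ρ : ℕ}
    (h : Dec G O B l) (hB : B ≤ B') (hl : 0 < l) (hρ : 2 * l ≤ ρ) {x y : Tor d M}
    (hx : x ∈ O) (hD : D < nm (x - y)) : exp (nm (x - y) / ρ) * ‖G x y‖ ≤ fk B' l D x y := by
  have hl' : (0 : ℝ) < l := by exact_mod_cast hl
  have h1 : (nm (x - y) : ℝ) / ρ ≤ nm (x - y) / (2 * l) :=
    div_le_div_of_nonneg_left (Nat.cast_nonneg _) (by positivity) (by exact_mod_cast hρ)
  rw [XS.fk, if_pos hD]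
  refine (mul_le_mul (exp_le_exp.2 h1) ((h x hx y).trans (mul_le_mul_of_nonneg_right hB
    (exp_pos _).le)) (norm_nonneg _) (exp_pos _).le).trans_eq ?_
  rw [mul_left_comm, ← exp_add]
  congr 2
  field_simp
  ring

variable {E : Env d M} {q : Par}

namespace Par.OK

omit [NeZero M] in
theorem P_le_exp (q : Par) : (q.P : ℝ) ≤ exp q.P := by linarith [add_one_le_exp (q.P : ℝ)]

theorem exp_le_inv (hq : q.OK E) (hE : E.OK) : exp (-(q.P : ℝ)) ≤ 1 / q.P := by
  rw [exp_neg, ← one_div]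
  exact one_div_le_one_div_of_le (hq.Ppos hE) (P_le_exp q)

theorem τ_le_pow (hq : q.OK E) (hE : E.OK) {c : ℕ} (hc : c ≤ 10 ^ 9) :
    q.τ ≤ exp (-(q.P : ℝ)) ^ c := by
  rw [Par.τ, ← exp_nat_mul, exp_le_exp]
  have := hq.pow_lt hE (a := 1) (b := 7) (c := c) (by norm_num) (by exact_mod_cast hc)
  linarith

theorem τ_le (hq : q.OK E) (hE : E.OK) {c : ℕ} (hc : c ≤ 1000) : q.τ ≤ E.η / (q.P : ℝ) ^ c := by
  refine (hq.τ_le_pow hE (c := c + 1) (by omega)).trans ?_
  rw [pow_succ', div_eq_mul_one_div, ← one_div_pow]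
  exact mul_le_mul hq.η1 (pow_le_pow_left₀ (exp_pos _).le (hq.exp_le_inv hE) c) (by positivity)
    hE.η0.le

theorem sum_exp (hq : q.OK E) (hE : E.OK) (hF : S_FAR) {i : ℕ} (hi : i ≤ 3) (z : Tor d M) :
    ∑ x, exp (-(nm (x - z) : ℝ) / (2 * q.li E.η i)) ≤ exp (2 * (q.P : ℝ) ^ 2) := by
  obtain ⟨h1, h2⟩ := hF d M E q hE hq
  rcases (h2 i hi).2 with h | h
  · have e : bl (0 : Tor d M) (100 * q.D E.η 3) = univ := ball_tn_univ (by
      have := hq.l_le_li hE 3
      have := hq.li_le_D hE 3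
      omega) 0
    have h3 : ∑ x : Tor d M, exp (-(nm (x - z) : ℝ) / (2 * q.li E.η i)) ≤ ∑ _x : Tor d M, 1 :=
      sum_le_sum fun x _ => exp_le_one_iff.2
        (div_nonpos_of_nonpos_of_nonneg (neg_nonpos.2 (Nat.cast_nonneg _)) (by positivity))
    rw [sum_const, nsmul_one] at h3
    have h4 : (#(bl (0 : Tor d M) (100 * q.D E.η 3)) : ℝ) ≤ _ := h1
    rw [e] at h4
    exact h3.trans (h4.trans (exp_le_exp.2 (by linarith [sq_nonneg (q.P : ℝ)])))
  · rw [← Equiv.sum_comp (Equiv.addRight z)]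
    refine le_trans (sum_le_sum fun x _ => ?_) h
    simp only [Equiv.coe_addRight, add_sub_cancel_right]
    exact le_mul_of_one_le_right (by positivity)
      (one_le_pow₀ (le_add_of_nonneg_right (by positivity)))

theorem D_div (hq : q.OK E) (hE : E.OK) (i : ℕ) : (q.D E.η i : ℝ) /
    (q.P ^ 59 * ⌈1 / E.η⌉₊ ^ 2 * q.li E.η i : ℕ) ≤ E.η ^ 2 / (q.P : ℝ) ^ 51 := by
  have hP := hq.Ppos hE
  have h0 := hE.η0
  have hl : (0 : ℝ) < q.li E.η i := by exact_mod_cast hq.li_one hE i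
  have h1 : (q.P : ℝ) ^ 59 * (1 / E.η) ^ 2 ≤ (q.P : ℝ) ^ 59 * (⌈1 / E.η⌉₊ : ℝ) ^ 2 :=
    mul_le_mul_of_nonneg_left (pow_le_pow_left₀ (by positivity) (Nat.le_ceil _) 2) (by positivity)
  rw [Par.D]
  push_cast
  rw [mul_div_mul_right _ _ hl.ne']
  refine (div_le_div_of_nonneg_left (by positivity) (by positivity) h1).trans_eq ?_
  field_simp

theorem D_le_li (hq : q.OK E) (hE : E.OK) (i : ℕ) : q.D E.η i ≤ q.li E.η (i + 1) := by
  rw [li_succ, Par.D]
  exact Nat.mul_le_mul_right _ ((Nat.pow_le_pow_right (by have := hq.P9' hE; omega)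
    (by norm_num)).trans (Lg_ge hE))

end Par.OK

theorem exp_eight : exp 8 ≤ 3000 := by
  have h : exp 8 = exp 1 ^ 8 := by rw [← exp_nat_mul]; norm_num
  rw [h]
  exact (pow_le_pow_left₀ (exp_pos _).le exp_one_lt_d9.le 8).trans (by norm_num)

theorem t_ct (hF : S_FAR) : S_CT := by
  intro d M _ E q i H W W' O X hE hq hi hs hu hu' hX hW hΔ hG hD hl x hx z
  have hP := hq.Ppos hE
  have P9 := hq.P9 hE
  have η0 := hE.η0
  have η1 : E.η ≤ 1 := hE.η1.trans (by norm_num)
  have τ0 := Par.OK.τpos q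
  have hfar := ((hF d M E q hE hq).2 i hi.le).1
  set G := NW.GG H W with hGd
  set l := q.li E.η i
  set ρ := q.li E.η (i + 1) with hρd
  set R := q.D E.η i
  have l0 : 0 < l := hq.li_one hE i
  have R0 : 0 < R := hq.D_one hE i
  have Rρ : R ≤ ρ := hq.D_le_li hE i
  have lρ : 2 * l ≤ ρ := by
    rw [hρd, Par.OK.li_succ]
    exact Nat.mul_le_mul_right _ (le_trans (by norm_num) (hq.Lg_ge' hE))
  set s := q.P ^ 59 * ⌈1 / E.η⌉₊ ^ 2 * l with hsd
  have Ps : q.P * s = ρ := by rw [hρd, Par.OK.li_succ, Par.Lg, hsd]; ring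
  have P1 : 1 ≤ q.P := by have := hq.P9' hE; omega
  have Rs : R ≤ s := Nat.mul_le_mul_right _ ((Nat.pow_le_pow_right P1 (by norm_num)).trans
    (Nat.le_mul_of_pos_right _ (pow_pos (Par.OK.g_one hE) _)))
  have ds : d * s ≤ ρ := Ps ▸ Nat.mul_le_mul_right _ (by
    have := hq.Pd' hE
    have := Nat.le_self_pow two_ne_zero d
    omega)
  have ρ0 : (0 : ℝ) < ρ := by exact_mod_cast R0.trans_le Rρ
  have B0 : 0 ≤ q.Bi i := zero_le_one.trans (hq.Bi_one i)
  have hfk : ∀ {a b : Tor d M}, a ∈ O → R < nm (a - b) →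
      exp (nm (a - b) / ρ) * ‖G a b‖ ≤ fk (exp ((q.P : ℝ) ^ 6)) l R a b := fun ha hb =>
    hD.fk (hq.Bi_le hi.le) l0 lρ ha hb
  have f0 := fk_nonneg (d := d) (M := M) (exp_pos ((q.P : ℝ) ^ 6)).le l R
  let kf : Tor d M → Tor d M → ℂ := fun a b => if R < nm (a - b) then G a b * (W' b - W b) else 0
  let kn : Tor d M → Tor d M → ℂ := fun a b => G a b * (W' b - W b) - kf a b
  have ek : kn + kf = fun a b => G a b * (W' b - W b) := by
    funext a b; simp [kn]
  have kb : ∀ a ∈ X, ∀ b ∈ X, exp (nm (a - b) / ρ) * ‖kf a b‖ ≤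
      2 * fk (exp ((q.P : ℝ) ^ 6)) l R a b := fun a ha b hb => by
    simp only [kf]
    split_ifs with h
    · rw [norm_mul, ← mul_assoc, mul_comm 2]
      exact mul_le_mul (hfk (hX ha) h) (hΔ b hb) (norm_nonneg _) (f0 a b)
    · simpa using f0 a b
  have sch : ∀ Y : Tor d M → Tor d M → ℂ,
      (∀ a ∈ X, ∀ b ∈ X, ‖Y a b‖ ≤ exp (nm (a - b) / ρ) * ‖kf a b‖) → OpLe X Y (2 * q.τ) :=
    fun Y hY => OpLe.schur (fun a ha b hb => (hY a ha b hb).trans (kb a ha b hb)) (by positivity)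
      (fun a _ => by rw [← mul_sum]; linarith [hfar.row (exp_pos _).le X a])
      fun b _ => by
        simp only [fk_symm _ _ _ _ b]
        rw [← mul_sum]; linarith [hfar.row (exp_pos _).le X b]
  have hf : OpLe X kf (2 * q.τ) := sch _ fun a _ b _ =>
    le_mul_of_one_le_left (norm_nonneg _) (one_le_exp (by positivity))
  have hw : OpLe X (fun a b => cw ρ z a * kf a b * (cw ρ z b : ℂ)⁻¹) (2 * q.τ) :=
    sch _ fun a _ b _ => by
      rw [norm_mul, norm_mul, norm_inv, Complex.norm_real, Complex.norm_real,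
        Real.norm_of_nonneg (cw_pos _ _ _).le, Real.norm_of_nonneg (cw_pos _ _ _).le,
        mul_inv_le_iff₀ (cw_pos _ _ _), mul_right_comm]
      exact mul_le_mul_of_nonneg_right (cw_le ρ z a b) (norm_nonneg _)
  have τ1 : q.τ ≤ E.η / (q.P : ℝ) ^ 51 := hq.τ_le hE (by norm_num)
  have i1 : 1 ≤ 1 / E.η := one_le_one_div η0 η1
  have τ2 : 2 * q.τ ≤ 1 / E.η := by
    have := hq.τ_le hE (c := 1) (by norm_num)
    rw [pow_one, le_div_iff₀ hP] at this
    nlinarith
  have hn : OpLe X kn (5 / E.η) := (((hG.sub hX).right (by positivity) zero_le_two hΔ).diff hf).mono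
    (by rw [div_mul_eq_mul_div, show (5 : ℝ) / E.η = 2 * 2 / E.η + 1 / E.η by ring]; linarith)
  have hr : ∀ a b, kn a b ≠ 0 → nm (a - b) ≤ R := fun a b h => by
    by_contra h'
    exact h (by simp only [kn, kf, if_pos (not_le.1 h'), sub_self])
  have ri := res_id hu hu' hW
  have core := ct_core (v := fun a => NW.GG H W' a z) (g := fun a => G a z)
    (Λ := 3 * (q.P : ℝ) ^ 40 / E.η) (Γ := (q.P : ℝ) ^ 41 / E.η) z R0 Rs
    (Ps ▸ Nat.le_mul_of_pos_left _ P1) ds (by positivity)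
    (by positivity) (by positivity) (fun a _ => by rw [ek, ri a z, ap]; ring) hn hr hf hw
    (fun p u h => by
      rw [ek]
      refine hl p u fun a ha => h a fun h' => ha (inter_subset_inter subset_rfl (ball_mono p ?_) h')
      have b1 : s ≤ ρ := Ps ▸ Nat.le_mul_of_pos_left _ P1
      have b2 : 2 * ρ ≤ q.D E.η (i + 1) := Nat.mul_le_mul_right _
        (le_trans (by have := hq.P9' hE; omega) (Nat.le_self_pow (by norm_num) _))
      omega)
    (by positivity)
    (by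
      have a1 : exp 2 ≤ 3000 := (exp_le_exp.2 (by norm_num)).trans exp_eight
      have a3 : 54 * exp 8 * exp 2 ≤ (q.P : ℝ) ^ 2 := by
        have := mul_le_mul exp_eight a1 (by positivity) (by norm_num)
        nlinarith
      have a4 := mul_le_mul_of_nonneg_left a3 (by positivity : 0 ≤ (q.P : ℝ) ^ 80 / E.η ^ 2)
      refine le_trans (le_of_eq (by ring)) (a4.trans_eq (by ring)))
    (by
      have a1 := mul_le_mul_of_nonneg_right (hq.D_div hE i) (by positivity : 0 ≤ 3 * (5 / E.η))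
      have a2 : E.η ^ 2 / (q.P : ℝ) ^ 51 * (3 * (5 / E.η)) = 15 * (E.η / (q.P : ℝ) ^ 51) := by
        field_simp; norm_num
      have a3 : 3 * ((R : ℝ) / s) * (5 / E.η) + 2 * q.τ ≤ 17 * (E.η / (q.P : ℝ) ^ 51) := by
        linarith
      have a4 := pow_le_pow_left₀ (by positivity) a3 2
      have a5 := pow_le_pow_left₀ (by positivity)
        (by linarith : 2 * q.τ ≤ 2 * (E.η / (q.P : ℝ) ^ 51)) 2
      refine (mul_le_mul_of_nonneg_left (add_le_add a4 a5) (sq_nonneg _)).trans ?_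
      have a6 := hq.pow_lt hE (a := 82) (b := 102) (c := 293) (by norm_num) (by norm_num)
      have a7 : ((q.P : ℝ) ^ 41 / E.η) ^ 2 * ((17 * (E.η / (q.P : ℝ) ^ 51)) ^ 2 +
          (2 * (E.η / (q.P : ℝ) ^ 51)) ^ 2) = 293 * (q.P : ℝ) ^ 82 / (q.P : ℝ) ^ 102 := by
        field_simp; norm_num
      rw [a7, div_le_one (by positivity)]
      exact a6)
  have g1 : nS X (fun a => cw ρ z a * G a z) ≤ q.Bi i * exp (2 * (q.P : ℝ) ^ 2) := by
    refine (nS_le_sum _ _).trans (le_trans ?_ (mul_le_mul_of_nonneg_left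
      (hq.sum_exp hE hF hi.le z) B0))
    rw [mul_sum]
    refine (sum_le_sum fun a ha => ?_).trans
      (sum_le_sum_of_subset_of_nonneg (subset_univ X) fun _ _ _ => by positivity)
    rcases Nat.eq_zero_or_pos (nm (a - z)) with h | h
    · simpa [cw, h] using hD a (hX ha) z
    · have := hD.fk le_rfl l0 lρ (hX ha) h
      rw [fk, if_pos h] at this
      rwa [norm_mul, Complex.norm_real, Real.norm_of_nonneg (cw_pos _ _ _).le]
  have g2 : nS X (fun y => exp (nm (x - y) / ρ) * G x y) ≤ 7 / E.η := by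
    have e : ∀ y ∈ X, ((exp (nm (x - y) / ρ) : ℝ) : ℂ) * G x y =
        ((fun y => if R < nm (x - y) then 0 else ((exp (nm (x - y) / ρ) : ℝ) : ℂ) * G x y) +
        fun y => if R < nm (x - y) then ((exp (nm (x - y) / ρ) : ℝ) : ℂ) * G x y else 0) y :=
      fun y _ => by simp only [Pi.add_apply]; split_ifs <;> simp
    rw [nS_congr e]
    refine (nS_add _ _ _).trans ?_
    have a1 : nS X (fun y => if R < nm (x - y) then 0 else ((exp (nm (x - y) / ρ) : ℝ) : ℂ) * G x y)
        ≤ 3 * nS X fun y => G y x := nS_le_mul (by norm_num) fun y _ => by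
      split_ifs with h
      · simp
      · rw [norm_mul, Complex.norm_real, Real.norm_of_nonneg (exp_pos _).le, hGd,
          NW.GG_symm hs W x y]
        refine mul_le_mul_of_nonneg_right ((exp_le_exp.2 ?_).trans exp_one_lt_three.le)
          (norm_nonneg _)
        rw [div_le_one ρ0]
        exact_mod_cast (not_lt.1 h).trans Rρ
    have a2 := (nS_mono hX _).trans (hG.col hx)
    have a3 := (nS_le_sum X fun y => if R < nm (x - y) then
        ((exp (nm (x - y) / ρ) : ℝ) : ℂ) * G x y else 0).trans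
      ((sum_le_sum fun y _ => show _ ≤ fk (exp ((q.P : ℝ) ^ 6)) l R x y by
        split_ifs with h
        · rw [norm_mul, Complex.norm_real, Real.norm_of_nonneg (exp_pos _).le]; exact hfk hx h
        · simpa using f0 x y).trans (hfar.row (exp_pos _).le X x))
    rw [show (7 : ℝ) / E.η = 3 * (2 / E.η) + 1 / E.η by ring]
    linarith
  have g3 : cw ρ z x * ‖∑ y ∈ X, G x y * (W' y - W y) * NW.GG H W' y z‖ ≤
      2 * (7 / E.η * ((q.P : ℝ) ^ 41 / E.η * (q.Bi i * exp (2 * (q.P : ℝ) ^ 2)))) := by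
    refine le_trans ?_ (mul_le_mul_of_nonneg_left ((nS_cs' X _ _).trans (mul_le_mul g2 (core.trans
      (mul_le_mul_of_nonneg_left g1 (by positivity))) (nS_nonneg _ _) (by positivity))) zero_le_two)
    refine (mul_le_mul_of_nonneg_left (norm_sum_le _ _) (cw_pos _ _ _).le).trans ?_
    rw [mul_sum, mul_sum]
    refine sum_le_sum fun y hy => ?_
    simp only [norm_mul, Complex.norm_real, Real.norm_of_nonneg (exp_pos _).le,
      Real.norm_of_nonneg (cw_pos _ _ _).le]
    have := mul_le_mul (cw_le ρ z x y) (hΔ y hy) (norm_nonneg _)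
      (mul_pos (exp_pos _) (cw_pos _ _ _)).le
    have := mul_le_mul_of_nonneg_right this
      (mul_nonneg (norm_nonneg (G x y)) (norm_nonneg (NW.GG H W' y z)))
    linarith
  have g4 : cw ρ z x * ‖G x z‖ ≤ q.Bi i := by
    rcases Nat.eq_zero_or_pos (nm (x - z)) with h | h
    · simpa [cw, h] using hD x hx z
    · have := hD.fk le_rfl l0 lρ hx h
      rw [fk, if_pos h] at this
      exact this.trans (mul_le_of_le_one_right B0 (exp_le_one_iff.2
        (div_nonpos_of_nonpos_of_nonneg (neg_nonpos.2 (Nat.cast_nonneg _)) (by positivity))))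
  have g5 : 1 + 14 * (q.P : ℝ) ^ 41 * (1 / E.η) ^ 2 * exp (2 * (q.P : ℝ) ^ 2) ≤
      exp (20 * (q.P : ℝ) ^ 3) := by
    have a0 := Par.OK.P_le_exp q
    have a1 := pow_le_pow_left₀ hP.le a0 41
    have a2 := pow_le_pow_left₀ (by positivity) (hq.inv_η hE) 2
    have a3 : 1 ≤ (q.P : ℝ) ^ 41 * (1 / E.η) ^ 2 * exp (2 * (q.P : ℝ) ^ 2) :=
      one_le_mul_of_one_le_of_one_le (one_le_mul_of_one_le_of_one_le (one_le_pow₀ (hq.Pone hE))
        (one_le_pow₀ i1)) (one_le_exp (by positivity))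
    have a4 : 15 * ((q.P : ℝ) ^ 41 * (1 / E.η) ^ 2 * exp (2 * (q.P : ℝ) ^ 2)) ≤
        exp q.P * (exp q.P ^ 41 * exp q.P ^ 2 * exp (2 * (q.P : ℝ) ^ 2)) := by
      gcongr; linarith
    rw [← exp_nat_mul, ← exp_nat_mul, ← exp_add, ← exp_add, ← exp_add] at a4
    refine le_trans (by linarith) (a4.trans (exp_le_exp.2 ?_))
    have b1 := hq.pow_lt hE (a := 1) (b := 3) (c := 44) (by norm_num) (by norm_num)
    have b2 := hq.pow_lt hE (a := 2) (b := 3) (c := 2) (by norm_num) (by norm_num)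
    have b3 := pow_pos hP 3
    push_cast
    linarith
  rw [neg_div, exp_neg, ← div_eq_mul_inv, le_div_iff₀ (exp_pos _), mul_comm, Par.OK.Bi_succ, ri x z]
  refine (mul_le_mul_of_nonneg_left (norm_sub_le _ _) (exp_pos _).le).trans ?_
  rw [mul_add]
  refine (add_le_add g4 g3).trans (le_trans (le_of_eq ?_) (mul_le_mul_of_nonneg_left g5 B0))
  ring

end Pool.Agent.P.MP_d0f69c_mp.XS
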