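import Pool.Agent.P.MP_d0f69c_mp.XS.IfAsm

/-!
The monitor of the amplitudes.
-/

set_option autoImplicit false

open Finset Real

namespace Pool.Agent.P.MP_d0f69c_mp.XS

theorem t_a1 (h1 : S_M1) (hx : S_EXA) : S_A1 := by
  intro d M _ E q S c Z Sg H x hxO y hy hn
  have hP := H.hq.Ppos H.hE
  have hs0 : 0 < √(μr q S x * q.μ) := sqrt_pos.2 (mul_pos (H.hq.μr_pos S x) H.hq.μpos)
  obtain ⟨l, hl⟩ : ∃ l, l = 3 * (q.P : ℝ) ^ 3 / (√(μr q S x * q.μ) * (q.P : ℝ) ^ 45) := ⟨_, rfl⟩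
  have l0 : 0 < l := by rw [hl]; positivity
  have e0 := exp_pos (-3 * (q.P : ℝ) ^ 3)
  refine HasMon.off {x, y}
    (fun h => 2 * exp (-3 * (q.P : ℝ) ^ 3) * pot l (NW.GG S.H (Wh S.W h) x y - S.G x y))
    (fun h => mul_nonneg (by positivity) (pot_pos _ _).le) (le_of_eq ?_) (fun h a b e => ?_)
    fun h _ _ a => ?_
  · rw [Wh, St.G, sub_self, pot_zero]
    ring
  · have x1 : x ∉ hs h := disjoint_left.1 e (by simp)
    have y1 : y ∉ hs h := disjoint_left.1 e (by simp)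
    have k := h1 _ _ _ (npOf_OK H.hE H.hq) b.1 x (mem_sdiff.2 ⟨hxO, x1⟩) y
      ((mem_union.1 hy).elim (fun z => mem_union_left _ (mem_sdiff.2 ⟨z, y1⟩)) (mem_union_right _))
      hn (S.G x y) l hl
    refine le_trans (le_of_eq ?_) (mul_le_mul_of_nonneg_left k (by positivity))
    rw [mul_sum]
    refine sum_congr ?_ fun v hv => ?_
    · rw [sdiff_insert, sdiff_singleton_eq_erase, erase_right_comm]
      rfl
    · have g := (hx d M E q S c Z Sg (hs h) (Wh S.W h) H a (cl_Wh _ _)).2.2.2.2.2.2 v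
        (mem_of_mem_erase (mem_of_mem_erase hv))
      rw [Wh_cons, Wh_cons, (g true).1, (g false).1]
      change _ = _ * (_ - pot l (NW.GG S.H (Wh S.W h) x y - S.G x y))
      ring
  · refine (pot_inv (b := 3 * (q.P : ℝ) ^ 3) l0 ?_).trans_eq ?_
    · rw [neg_mul, exp_neg, mul_right_comm, ← div_eq_mul_inv, div_lt_one (exp_pos _)] at a
      exact a.le
    · rw [hl]
      field_simp

end Pool.Agent.P.MP_d0f69c_mp.XS
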