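import Pool.Agent.P.MP_d0f69c_mp.XS.IfAsm

/-!
The monitor of the fourth powers along histories.
-/

set_option autoImplicit false

open Finset Real
open scoped Matrix

namespace Pool.Agent.P.MP_d0f69c_mp.XS

namespace FA2A

theorem start_num {P n g k : ℝ} (hP : 10 ^ 9 ≤ P) (hn : 0 < n) (hg : g ≤ n / 32)
    (hk : k ≤ 3 / 5 * n) : g + √(n * (k + n / P ^ 8)) / 100 ≤ n / 25 := by
  have hP1 : (1 : ℝ) ≤ P := le_trans (by norm_num) hP
  have h8 : (1000 : ℝ) ≤ P ^ 8 := le_trans (by linarith) (le_self_pow₀ hP1 (by norm_num))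
  have h1 : n / P ^ 8 ≤ n / 1000 := div_le_div_of_nonneg_left hn.le (by norm_num) h8
  have h2 : √(n * (k + n / P ^ 8)) ≤ 39 / 50 * n := by
    rw [sqrt_le_left (by positivity)]
    nlinarith [mul_le_mul_of_nonneg_left (add_le_add hk h1) hn.le, mul_pos hn hn]
  linarith

variable {d M : ℕ} [NeZero M] {E : Env d M} {q : Par} {S : St (Tor d M)} {c : Tor d M}
  {Z Sg : Finset (Tor d M)}

theorem mr_pos (H : Hyp E q S c Z Sg) (x : Tor d M) : 0 < μr q S x := by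
  unfold μr
  split_ifs
  exacts [H.hq.μpos, H.hq.μJpos]

theorem k_start (H : Hyp E q S c Z Sg) {x : Tor d M} (hx : x ∈ S.O) :
    ∑ y ∈ Z.erase x, ‖S.G x y‖ ^ 4 ≤ 3 / 5 * ((q.P : ℝ) ^ 20 * μr q S x ^ 2) := by
  have hZ : Z ⊆ S.good := fun y hy => (mem_sdiff.1 (mem_inter.1 (H.hZ hy)).1).1
  unfold μr
  split_ifs with h
  · exact (sum_le_sum_of_subset_of_nonneg (erase_subset_erase x hZ) fun _ _ _ => by positivity).trans
      (H.inv.lA x h)
  · exact (sum_le_sum_of_subset_of_nonneg ((erase_subset x Z).trans hZ)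
      fun _ _ _ => by positivity).trans (H.inv.lB rfl x (mem_sdiff.2 ⟨hx, h⟩))

theorem g_start (H : Hyp E q S c Z Sg) {x : Tor d M} (hx : x ∈ S.O) :
    ∑ y ∈ Sg.erase x, ‖S.G x y‖ ^ 4 ≤ (q.P : ℝ) ^ 20 * μr q S x ^ 2 / 32 :=
  (sum_le_sum_of_subset_of_nonneg (erase_subset_erase x fun y hy => (mem_inter.1 (H.hSg hy)).1)
    fun _ _ _ => by positivity).trans (H.sel.l4 x hx)

end FA2A

open FA2A in
theorem t_a2 (h1 : S_M2) (hx : S_EXA) : S_A2 := by
  intro d M _ E q S c Z Sg H x hxO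
  have hP : (0 : ℝ) < q.P := H.hq.Ppos H.hE
  have hm := mr_pos H x
  set n : ℝ := (q.P : ℝ) ^ 20 * μr q S x ^ 2 with hn
  have n0 : 0 < n := by positivity
  set l : ℝ := 300 * (q.P : ℝ) ^ 3 / n with hl
  have l0 : 0 < l := by positivity
  have hln : l * n = 300 * (q.P : ℝ) ^ 3 := div_mul_cancel₀ _ n0.ne'
  refine HasMon.off {x} (fun h => exp (l * q2 q.P n (NW.GG S.H (Wh S.W h)) (Z \ hs h) Sg x) *
    exp (-15 * (q.P : ℝ) ^ 3)) (fun h => by positivity) ?_ (fun h hZ hF hd => ?_)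
    (fun h hZ hd hΦ => ?_)
  · have h2 : q2 q.P n (NW.GG S.H (Wh S.W [])) (Z \ hs []) Sg x ≤ n / 25 := by
      rw [hs_nil, sdiff_empty]
      exact start_num (H.hq.P9 H.hE) n0 (g_start H (mem_inter.1 hxO).1)
        (k_start H (mem_inter.1 hxO).1)
    rw [← exp_add, exp_le_exp]
    have h3 := mul_le_mul_of_nonneg_left h2 l0.le
    have h4 : 0 < (q.P : ℝ) ^ 3 := by positivity
    nlinarith
  · have hxh : x ∉ hs h := disjoint_singleton_left.1 hd
    have key := h1 _ (npOf E q) (mkS E q S c Z Sg (hs h) (Wh S.W h)) (npOf_OK H.hE H.hq) hF.1 x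
      (mem_sdiff.2 ⟨hxO, hxh⟩) n l rfl rfl
    have ex := (hx d M E q S c Z Sg (hs h) (Wh S.W h) H hZ (cl_Wh S.W h)).2.2.2.2.2.2
    rw [sdiff_singleton_eq_erase]
    refine le_trans (le_of_eq ?_) (mul_le_mul_of_nonneg_right key (exp_pos _).le)
    rw [sum_mul]
    refine sum_congr rfl fun v hv => ?_
    have e : ∀ b, q2 q.P n (NW.GG S.H (Wh S.W ((v, b) :: h))) (Z \ hs ((v, b) :: h)) Sg x =
        q2 q.P n ((mkS E q S c Z Sg (hs h) (Wh S.W h)).G' v b) ((Z \ hs h).erase v) Sg x := by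
      intro b
      rw [sdiff_hs_cons, Wh_cons]
      congr 1
      exact funext fun x => funext fun y => (ex v (mem_of_mem_erase hv) b).1 x y
    rw [e true, e false]
    change _ = ((exp (l * q2 q.P n _ ((Z \ hs h).erase v) Sg x) +
      exp (l * q2 q.P n _ ((Z \ hs h).erase v) Sg x)) / 2 -
      exp (l * q2 q.P n (NW.GG S.H (Wh S.W h)) (Z \ hs h) Sg x)) * _
    ring
  · rw [← exp_add, exp_lt_one_iff] at hΦ
    refine le_of_lt (lt_of_mul_lt_mul_left ?_ l0.le)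
    linarith

end Pool.Agent.P.MP_d0f69c_mp.XS
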