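import Pool.Agent.P.MP_d0f69c_mp.XS.IfAsm

/-!
The monitor of the closed mass and of the mismatch along histories.
-/

set_option autoImplicit false
set_option linter.dupNamespace false

open Finset Real
open scoped Matrix

namespace Pool.Agent.P.MP_d0f69c_mp.XS

namespace FA3A

theorem z3_congr {ι : Type} [Fintype ι] [DecidableEq ι] {P μ : ℝ} {G G' : ι → ι → ℂ}
    {a a' : ι → ℝ} {X Kp : Finset ι} {x : ι} {m m' : ℂ} (hG : ∀ y z, G y z = G' y z)
    (ha : ∀ z ∈ Kp, a z = a' z) (hm : m = m') :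
    z3 P μ G a X Kp x m = z3 P μ G' a' X Kp x m' := by
  obtain rfl : G = G' := funext fun y => funext fun z => hG y z
  subst hm
  unfold z3
  congr 1
  exact sum_congr rfl fun z hz => by rw [ha z (mem_of_mem_erase hz)]

theorem z3_start {ι : Type} [Fintype ι] [DecidableEq ι] {P μ : ℝ} {G : ι → ι → ℂ}
    {a : ι → ℝ} {Kp : Finset ι} {x : ι} {m : ℂ} (hP : 1 ≤ P) (hμ : 0 < μ) (hm : ‖m‖ ≤ μ)
    (hk : 1 / P ^ 25 ≤ ∑ z ∈ Kp.erase x, a z * ‖G x z‖ ^ 2) :
    8 * P ^ 28 * z3 P μ G a ∅ Kp x m + 4 * P ^ 3 ≤ -3 * P ^ 3 := by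
  have hP0 : 0 < P := one_pos.trans_le hP
  have hr : 0 < μ * P ^ 14 := by positivity
  have h1 : ‖m‖ ≤ μ * P ^ 14 := hm.trans (le_mul_of_one_le_right hμ.le (one_le_pow₀ hP))
  have h2 : √(‖m‖ ^ 2 + (μ * P ^ 14) ^ 2) / (μ * P ^ 14) ≤ 2 := by
    rw [div_le_iff₀ hr]
    refine sqrt_le_iff.2 ⟨by positivity, ?_⟩
    nlinarith [pow_le_pow_left₀ (norm_nonneg m) h1 2, sq_nonneg (μ * P ^ 14)]
  have h3 : z3 P μ G a ∅ Kp x m ≤ 2 / (16 * P ^ 25) - 1 / P ^ 25 := by
    unfold z3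
    rw [sum_empty, zero_add]
    exact sub_le_sub (div_le_div_of_nonneg_right h2 (by positivity)) hk
  have h4 : 8 * P ^ 28 * (2 / (16 * P ^ 25) - 1 / P ^ 25) = -7 * P ^ 3 := by
    field_simp; ring
  have h5 := mul_le_mul_of_nonneg_left h3 (show 0 ≤ 8 * P ^ 28 by positivity)
  linarith

theorem z3_end {P z : ℝ} (hP : 0 < P) (h : exp (8 * P ^ 28 * z) * exp (4 * P ^ 3) < 1) :
    z ≤ -1 / (2 * P ^ 25) := by
  rw [← exp_add, exp_lt_one_iff] at h
  rw [le_div_iff₀ (by positivity)]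
  have h3 : 0 < P ^ 3 := by positivity
  have e : 8 * P ^ 28 * z + 4 * P ^ 3 = 4 * P ^ 3 * (z * (2 * P ^ 25) + 1) := by ring
  rw [e] at h
  have := (mul_neg_iff.1 h).resolve_right fun c => absurd c.1 (by linarith)
  linarith [this.2]

end FA3A

open FA3A in
theorem t_a3 (h1 : S_M3) (hx : S_EXA) : S_A3 := by
  intro d M _ E q S c Z Sg hy x hxZ
  have hP := hy.hq.Ppos hy.hE
  have hZ : Z ⊆ S.good \ S.sig := fun y a => (mem_inter.1 (hy.hZ a)).1
  have hg : x ∈ S.good := (mem_union.1 hxZ).elim (fun a => (mem_sdiff.1 (hZ a)).1)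
    fun a => hy.sel.sg (mem_inter.1 (hy.hSg a)).1
  have hθ : (q.b1 E.η).θ ≤ 1 / 2 :=
    (hy.hq.θ_add hy.hE (c := 1) (by norm_num)).trans (by norm_num)
  refine HasMon.off {x} (fun h => exp (8 * (q.P : ℝ) ^ 28 *
    z3 q.P q.μ (NW.GG S.H (Wh S.W h)) (aw E.η (Wh S.W h)) (hs h) (S.O \ Z) x
      (NW.GG S.H (Wh S.W h) x x - phi (S.W x))) * exp (4 * (q.P : ℝ) ^ 3))
    (fun h => by positivity) ?_ (fun h a b e => ?_) fun h _ _ a => z3_end hP a
  · rw [← exp_add, exp_le_exp]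
    refine z3_start (hy.hq.Pone hy.hE) hy.hq.μpos (hy.inv.mis x hg) ((hy.sel.keep x hg).trans ?_)
    refine sum_le_sum_of_subset_of_nonneg
      (erase_subset_erase _ (sdiff_subset_sdiff (Subset.refl _) hZ)) fun z hz _ => ?_
    exact mul_nonneg (le_trans (by norm_num)
      (hy.inv.aw_half hθ (mem_sdiff.1 (mem_of_mem_erase hz)).1).1) (by positivity)
  · have hxh : x ∉ hs h := disjoint_singleton_left.1 e
    have key := h1 (Tor d M) (npOf E q) (mkS E q S c Z Sg (hs h) (Wh S.W h))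
      (npOf_OK hy.hE hy.hq) b.1 x
      ((mem_union.1 hxZ).elim (fun a => mem_union_left _ (mem_sdiff.2 ⟨a, hxh⟩))
        fun a => mem_union_right _ a)
    have ex := (hx d M E q S c Z Sg (hs h) (Wh S.W h) hy a (cl_Wh S.W h)).2.2.2.2.2.2
    have st : ∀ v ∈ (Z \ hs h).erase x, ∀ b : Bool,
        z3 q.P q.μ (NW.GG S.H (Wh S.W ((v, b) :: h))) (aw E.η (Wh S.W ((v, b) :: h)))
          (hs ((v, b) :: h)) (S.O \ Z) x (NW.GG S.H (Wh S.W ((v, b) :: h)) x x - phi (S.W x)) =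
        z3 q.P q.μ ((mkS E q S c Z Sg (hs h) (Wh S.W h)).G' v b) (aw E.η (Wh S.W h))
          (insert v (hs h)) (S.O \ Z) x ((mkS E q S c Z Sg (hs h) (Wh S.W h)).m x -
            (mkS E q S c Z Sg (hs h) (Wh S.W h)).t v b *
              ((mkS E q S c Z Sg (hs h) (Wh S.W h)).G x v *
                (mkS E q S c Z Sg (hs h) (Wh S.W h)).G v x)) := fun v hv b => by
      have hv' := mem_of_mem_erase hv
      rw [hs_cons, Wh_cons]
      refine z3_congr (ex v hv' b).1 (fun z hz => ?_) ?_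
      · have : z ≠ v := fun r => (mem_sdiff.1 hz).2 (r ▸ (mem_sdiff.1 hv').1)
        simp only [aw, Function.update_of_ne this]
      · rw [(ex v hv' b).1]
        simp only [Sx.G', mkS]
        ring
    rw [sdiff_singleton_eq_erase]
    refine le_trans (le_of_eq ?_) (mul_le_mul_of_nonneg_right key (exp_pos _).le)
    rw [sum_mul]
    refine sum_congr rfl fun v hv => ?_
    simp only [st v hv]
    simp only [npOf, mkS]
    ring

end Pool.Agent.P.MP_d0f69c_mp.XS
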