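import Pool.Agent.P.MP_d0f69c_mp.XS.Basic

/-!
Operator norm tools: Schur test, restriction, multiplication, commutators.
-/

set_option autoImplicit false

open Finset Real

namespace Pool.Agent.P.MP_d0f69c_mp.XS

variable {ι : Type}

theorem nS_le_iff {S : Finset ι} {u : ι → ℂ} {c : ℝ} (hc : 0 ≤ c) :
    nS S u ≤ c ↔ ∑ x ∈ S, ‖u x‖ ^ 2 ≤ c ^ 2 := by
  rw [← nS_sq, pow_le_pow_iff_left₀ (nS_nonneg _ _) hc two_ne_zero]

theorem nS_le_mul {S : Finset ι} {u w : ι → ℂ} {c : ℝ} (hc : 0 ≤ c)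
    (h : ∀ x ∈ S, ‖u x‖ ≤ c * ‖w x‖) : nS S u ≤ c * nS S w := by
  rw [nS_le_iff (mul_nonneg hc (nS_nonneg _ _)), mul_pow, nS_sq, mul_sum]
  exact sum_le_sum fun x hx => by
    rw [← mul_pow]; exact pow_le_pow_left₀ (norm_nonneg _) (h x hx) 2

theorem nS_le_nS {S : Finset ι} {u w : ι → ℂ} (h : ∀ x ∈ S, ‖u x‖ ≤ ‖w x‖) : nS S u ≤ nS S w := by
  simpa using nS_le_mul (c := 1) zero_le_one (by simpa using h)

theorem le_nS {S : Finset ι} (u : ι → ℂ) {x : ι} (hx : x ∈ S) : ‖u x‖ ≤ nS S u := by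
  simpa [nS] using nS_mono (singleton_subset_iff.2 hx) u

theorem nS_cs (S : Finset ι) (u w : ι → ℂ) : ‖∑ x ∈ S, u x * w x‖ ≤ nS S u * nS S w := by
  refine le_of_sq_le_sq ?_ (mul_nonneg (nS_nonneg _ _) (nS_nonneg _ _))
  rw [mul_pow, nS_sq, nS_sq]
  refine le_trans ?_ (sum_mul_sq_le_sq_mul_sq S (fun x => ‖u x‖) fun x => ‖w x‖)
  exact pow_le_pow_left₀ (norm_nonneg _) ((norm_sum_le _ _).trans_eq (by simp)) 2

theorem nS_cs' (S : Finset ι) (u w : ι → ℂ) : ∑ x ∈ S, ‖u x‖ * ‖w x‖ ≤ nS S u * nS S w := by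
  refine le_of_sq_le_sq ?_ (mul_nonneg (nS_nonneg _ _) (nS_nonneg _ _))
  rw [mul_pow, nS_sq, nS_sq]
  exact sum_mul_sq_le_sq_mul_sq S (fun x => ‖u x‖) fun x => ‖w x‖

theorem nS_le_sum (S : Finset ι) (u : ι → ℂ) : nS S u ≤ ∑ x ∈ S, ‖u x‖ := by
  rw [nS_le_iff (sum_nonneg fun _ _ => norm_nonneg _), sq, sum_mul]
  exact sum_le_sum fun x hx => by
    rw [sq]
    exact mul_le_mul_of_nonneg_left (single_le_sum (f := fun x => ‖u x‖)
      (fun _ _ => norm_nonneg _) hx) (norm_nonneg _)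

theorem nS_ite [DecidableEq ι] {S S' : Finset ι} (u : ι → ℂ) :
    nS S (fun x => if x ∈ S' then u x else 0) = nS (S ∩ S') u := by
  rw [nS, nS, ← filter_mem_eq_inter, sum_filter]
  congr 1
  exact sum_congr rfl fun x _ => by split_ifs <;> simp

theorem ap_ite [DecidableEq ι] {S S' : Finset ι} (h : S' ⊆ S) (A : ι → ι → ℂ) (u : ι → ℂ) :
    ap S A (fun x => if x ∈ S' then u x else 0) = ap S' A u := funext fun x => by
  simp only [ap, mul_ite, mul_zero, sum_ite_mem, inter_eq_right.2 h]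

theorem ap_add' (S : Finset ι) (A : ι → ι → ℂ) (u w : ι → ℂ) :
    ap S A (u + w) = ap S A u + ap S A w := funext fun x => by
  simp [ap, mul_add, sum_add_distrib]

namespace OpLe

variable {S : Finset ι} {Y Y' : ι → ι → ℂ} {r r' : ℝ}

theorem left (h : OpLe S Y r) {a : ι → ℂ} {c : ℝ} (hc : 0 ≤ c) (ha : ∀ x ∈ S, ‖a x‖ ≤ c) :
    OpLe S (fun x y => a x * Y x y) (c * r) := fun u => by
  rw [mul_assoc]
  refine le_trans (nS_le_mul hc fun x hx => ?_) (mul_le_mul_of_nonneg_left (h u) hc)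
  simp only [ap, mul_assoc, ← mul_sum, norm_mul]
  exact mul_le_mul_of_nonneg_right (ha x hx) (norm_nonneg _)

theorem right (h : OpLe S Y r) (hr : 0 ≤ r) {a : ι → ℂ} {c : ℝ} (hc : 0 ≤ c)
    (ha : ∀ x ∈ S, ‖a x‖ ≤ c) : OpLe S (fun x y => Y x y * a y) (r * c) := fun u => by
  have h1 := h fun y => a y * u y
  rw [mul_assoc]
  refine le_trans (le_of_eq ?_) (h1.trans (mul_le_mul_of_nonneg_left (nS_le_mul hc fun x hx => ?_) hr))
  · simp only [nS, ap, mul_assoc]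
  · rw [norm_mul]; exact mul_le_mul_of_nonneg_right (ha x hx) (norm_nonneg _)

theorem diff (h : OpLe S Y r) (h' : OpLe S Y' r') : OpLe S (fun x y => Y x y - Y' x y) (r + r') := by
  have := h.add (h'.left (a := fun _ => -1) zero_le_one (by simp))
  rw [one_mul] at this
  exact this.congr fun x _ y _ => by simp [sub_eq_add_neg]

/-- columns -/
theorem col [DecidableEq ι] (h : OpLe S Y r) {y : ι} (hy : y ∈ S) : nS S (fun x => Y x y) ≤ r := by
  have := h fun x => if x ∈ ({y} : Finset ι) then 1 else 0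
  rw [ap_ite (singleton_subset_iff.2 hy), nS_ite, inter_singleton_of_mem hy] at this
  simpa [nS, ap] using this

/-- Schur test -/
theorem schur {d : ι → ι → ℝ} (hd : ∀ x ∈ S, ∀ y ∈ S, ‖Y x y‖ ≤ d x y) (hr : 0 ≤ r)
    (h1 : ∀ x ∈ S, ∑ y ∈ S, d x y ≤ r) (h2 : ∀ y ∈ S, ∑ x ∈ S, d x y ≤ r) : OpLe S Y r := fun u => by
  have d0 : ∀ x ∈ S, ∀ y ∈ S, 0 ≤ d x y := fun x hx y hy => (norm_nonneg _).trans (hd x hx y hy)
  rw [nS_le_iff (mul_nonneg hr (nS_nonneg _ _)), mul_pow, nS_sq]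
  have a : ∀ x ∈ S, ‖ap S Y u x‖ ^ 2 ≤ r * ∑ y ∈ S, d x y * ‖u y‖ ^ 2 := fun x hx => by
    have b1 : ‖ap S Y u x‖ ≤ ∑ y ∈ S, d x y * ‖u y‖ := (norm_sum_le _ _).trans
      (sum_le_sum fun y hy => by
        rw [norm_mul]; exact mul_le_mul_of_nonneg_right (hd x hx y hy) (norm_nonneg _))
    refine (pow_le_pow_left₀ (norm_nonneg _) b1 2).trans ((sum_sq_le_sum_mul_sum_of_sq_le_mul S
      (d0 x hx) (fun y hy => mul_nonneg (d0 x hx y hy) (sq_nonneg ‖u y‖))
      fun y _ => le_of_eq (by ring)).trans (mul_le_mul_of_nonneg_right (h1 x hx)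
        (sum_nonneg fun y hy => mul_nonneg (d0 x hx y hy) (sq_nonneg _))))
  refine (sum_le_sum a).trans ?_
  rw [← mul_sum, sum_comm, sq r, mul_assoc, mul_sum S (fun x => ‖u x‖ ^ 2) r]
  refine mul_le_mul_of_nonneg_left (sum_le_sum fun y hy => ?_) hr
  rw [← sum_mul]
  exact mul_le_mul_of_nonneg_right (h2 y hy) (sq_nonneg _)

theorem diag [DecidableEq ι] {a : ι → ℂ} (hr : 0 ≤ r) (ha : ∀ x ∈ S, ‖a x‖ ≤ r) :
    OpLe S (fun x y => if x = y then a x else 0) r := fun u =>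
  nS_le_mul hr fun x hx => by
    simp only [ap, ite_mul, zero_mul, sum_ite_eq, hx, if_true, norm_mul]
    exact mul_le_mul_of_nonneg_right (ha x hx) (norm_nonneg _)

/-- commutator with an integer valued function that changes by at most one along the kernel -/
theorem comm_int (h : OpLe S Y r) (hr : 0 ≤ r) (j : ι → ℤ)
    (hj : ∀ x ∈ S, ∀ y ∈ S, Y x y ≠ 0 → |j x - j y| ≤ 1) :
    OpLe S (fun x y => ((j x : ℂ) - j y) * Y x y) r := by
  have n : ∀ k : ℤ, ‖Complex.I ^ k‖ ≤ 1 := fun k => by simp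
  have h1 := (h.right hr (a := fun y => Complex.I ^ (-j y)) zero_le_one fun x _ => n _).left
    (a := fun x => Complex.I ^ j x) zero_le_one fun x _ => n _
  have h2 := (h.right hr (a := fun y => Complex.I ^ j y) zero_le_one fun x _ => n _).left
    (a := fun x => Complex.I ^ (-j x)) zero_le_one fun x _ => n _
  have h3 := (h1.diff h2).left (a := fun _ => -Complex.I / 2) (c := 1 / 2) (by norm_num) (by simp)
  refine (h3.mono (le_of_eq (by ring))).congr fun x hx y hy => ?_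
  by_cases e : Y x y = 0
  · simp [e]
  have e1 : Complex.I ^ j x * (Y x y * Complex.I ^ (-j y)) = Complex.I ^ (j x - j y) * Y x y := by
    rw [sub_eq_add_neg, zpow_add₀ Complex.I_ne_zero]; ring
  have e2 : Complex.I ^ (-j x) * (Y x y * Complex.I ^ j y) = Complex.I ^ (-(j x - j y)) * Y x y := by
    rw [neg_sub, sub_eq_add_neg, zpow_add₀ Complex.I_ne_zero]; ring
  rw [e1, e2, ← Int.cast_sub]
  have := abs_le.1 (hj x hx y hy e)
  generalize j x - j y = t at *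
  obtain rfl | rfl | rfl : t = -1 ∨ t = 0 ∨ t = 1 := by omega
  · simp only [neg_neg, zpow_neg, zpow_one, Complex.inv_I, Int.cast_neg, Int.cast_one]
    linear_combination (-Y x y) * Complex.I_mul_I
  · simp
  · simp only [zpow_neg, zpow_one, Complex.inv_I, Int.cast_one]
    linear_combination Y x y * Complex.I_mul_I

/-- commutator with a slowly varying function -/
theorem comm (h : OpLe S Y r) (hr : 0 ≤ r) (φ : ι → ℝ) {ε : ℝ} (hε : 0 < ε)
    (hφ : ∀ x ∈ S, ∀ y ∈ S, Y x y ≠ 0 → |φ x - φ y| ≤ ε) :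
    OpLe S (fun x y => ((φ x : ℂ) - φ y) * Y x y) (3 * ε * r) := by
  have h1 := (h.comm_int hr (fun x => ⌊φ x / ε⌋) fun x hx y hy e => by
    have a := abs_le.1 (hφ x hx y hy e)
    have b : ∀ s t : ℝ, s - t ≤ ε → ⌊s / ε⌋ ≤ ⌊t / ε⌋ + 1 := fun s t hs => by
      rw [← Int.floor_add_one]
      refine Int.floor_mono ?_
      rw [div_add_one hε.ne']
      exact div_le_div_of_nonneg_right (by linarith) hε.le
    have b1 := b (φ x) (φ y) a.2
    have b2 := b (φ y) (φ x) (by linarith [a.1])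
    rw [abs_le]; constructor <;> omega).left (a := fun _ => (ε : ℂ)) hε.le
      (by simp [abs_of_pos hε])
  have n : ∀ x ∈ S, ‖((ε * Int.fract (φ x / ε) : ℝ) : ℂ)‖ ≤ ε := fun x _ => by
    rw [Complex.norm_real, norm_mul, Real.norm_of_nonneg hε.le,
      Real.norm_of_nonneg (Int.fract_nonneg _)]
    exact mul_le_of_le_one_right hε.le (Int.fract_lt_one _).le
  have h2 := (h1.add (h.left hε.le n)).diff (h.right hr hε.le n)
  refine (h2.mono (le_of_eq (by ring))).congr fun x _ y _ => ?_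
  have e : ∀ z, (φ z : ℂ) = ε * (⌊φ z / ε⌋ : ℤ) + ((ε * Int.fract (φ z / ε) : ℝ) : ℂ) := fun z => by
    have : φ z = ε * (⌊φ z / ε⌋ : ℤ) + ε * Int.fract (φ z / ε) := by
      rw [← mul_add, Int.floor_add_fract, mul_div_cancel₀ _ hε.ne']
    exact_mod_cast congrArg (fun t : ℝ => (t : ℂ)) this
  conv_lhs => rw [e x, e y]
  simp only [Pi.add_apply]
  ring

end OpLe

end Pool.Agent.P.MP_d0f69c_mp.XS
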