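import Pool.Agent.P.MP_d0f69c_mp.XS.IfAsm
import Pool.Agent.P.MP_d0f69c_mp.XS.Op

/-!
The monitor of the norm.
-/

set_option autoImplicit false
set_option linter.dupNamespace false

open Finset Real
open scoped Matrix

namespace Pool.Agent.P.MP_d0f69c_mp.XS

theorem t_a4 (h1 : S_M4) (h2 : S_POTC) (hx : S_EXA) : S_A4 := by
  intro d M _ E q S c Z Sg H
  have hq := npOf_OK H.hE H.hq
  have hP : (10 : ℝ) ^ 9 ≤ q.P := hq.P9
  have P1 : (1 : ℝ) ≤ q.P := le_trans (by norm_num) hP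
  have P0 : (0 : ℝ) < q.P := by linarith
  have η0 : 0 < E.η := H.hE.η0
  have hθ : (q.b1 E.η).θ ≤ 1 / 10 ^ 7 := H.hq.θ_add H.hE (by norm_num)
  have hsym := (H.inv.gok0 H.hE (hθ.trans_lt (by norm_num))).symm
  obtain ⟨Φ, p0, p1, p2, p3⟩ := h2 (Tor d M) Z
  obtain ⟨l, hl⟩ : ∃ l : ℝ, l = 12 * E.η / (q.P : ℝ) ^ 37 := ⟨_, rfl⟩
  have l0 : 0 < l := by rw [hl]; positivity
  have nl : ‖(l : ℂ)‖ = l := by rw [Complex.norm_real, Real.norm_of_nonneg l0.le]
  let X : List (Tor d M × Bool) → Tor d M → Tor d M → ℂ := fun h x y =>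
    l * (NW.GG S.H (Wh S.W h) x y - S.G x y)
  have Xs : ∀ h x y, X h x y = X h y x := fun h x y => by
    simp only [X, St.G, GG_sym hsym _ x y]
  have big : ∀ k : ℕ, k ≠ 0 → (10 : ℝ) ^ 9 ≤ (q.P : ℝ) ^ k := fun k hk =>
    hP.trans (le_self_pow₀ P1 hk)
  have k1 : l * (1 / E.η) ≤ 1 := by
    rw [hl, show 12 * E.η / (q.P : ℝ) ^ 37 * (1 / E.η) = 12 / (q.P : ℝ) ^ 37 by field_simp,
      div_le_one (by positivity)]
    linarith [big 37 (by norm_num)]
  have k2 : l ^ 2 * ((q.P : ℝ) ^ 66 / E.η ^ 2) ≤ 1 := by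
    rw [hl, show (12 * E.η / (q.P : ℝ) ^ 37) ^ 2 * ((q.P : ℝ) ^ 66 / E.η ^ 2) =
      144 / (q.P : ℝ) ^ 8 by field_simp; norm_num, div_le_one (by positivity)]
    linarith [big 8 (by norm_num)]
  refine ⟨fun h => exp (-3 * (q.P : ℝ) ^ 3) * Φ (X h),
    fun h => mul_nonneg (exp_pos _).le (p1 _ (Xs h)), le_of_eq ?_, fun h hZ hF => ?_,
    fun h hZ hΦ => ?_⟩
  · have : X [] = 0 := by
      funext x y
      simp [X, Wh, St.G]
    beta_reduce
    rw [this, p0, mul_comm]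
  · set σ := mkS E q S c Z Sg (hs h) (Wh S.W h) with hσ
    obtain ⟨-, gs, -, -, -, -, hu⟩ := hx d M E q S c Z Sg (hs h) (Wh S.W h) H hZ (cl_Wh _ _)
    have eZ : σ.X ∪ σ.rem = Z := union_sdiff_of_subset hZ
    have hm := h1 _ _ σ hq hF.1
    rw [eZ] at hm
    let Y : Tor d M × Bool → Tor d M → Tor d M → ℂ := fun z x y =>
      -l * (σ.t z.1 z.2 * (σ.G x z.1 * σ.G z.1 y))
    have k := p3 _ (σ.rem ×ˢ (univ : Finset Bool)) (X h) Y (l * (1 / E.η))
      (l ^ 2 * ((q.P : ℝ) ^ 66 / E.η ^ 2)) (Xs h) (fun z _ x y => by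
        have e1 : σ.G x z.1 = σ.G z.1 x := gs _ _
        have e2 : σ.G y z.1 = σ.G z.1 y := gs _ _
        simp only [Y, e1, e2, mul_comm (σ.G z.1 x)]) (by positivity) (by positivity) k2
      (fun u => by
        have e : ∑ z ∈ σ.rem ×ˢ (univ : Finset Bool), ∑ x ∈ Z, ∑ y ∈ Z, u x * Y z x y * u y =
            -l * ∑ z ∈ σ.rem ×ˢ (univ : Finset Bool), ∑ x ∈ Z, ∑ y ∈ Z,
              u x * (σ.t z.1 z.2 * (σ.G x z.1 * σ.G z.1 y)) * u y := by
          simp only [mul_sum, Y]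
          exact sum_congr rfl fun _ _ => sum_congr rfl fun _ _ => sum_congr rfl fun _ _ => by ring
        rw [e, norm_mul, norm_neg, nl, mul_assoc]
        exact mul_le_mul_of_nonneg_left (hm u).1 l0.le) fun u => by
        rw [mul_assoc]
        refine le_trans (le_of_eq ?_) (mul_le_mul_of_nonneg_left (hm u).2 (sq_nonneg l))
        rw [mul_sum]
        refine sum_congr rfl fun z _ => ?_
        rw [mul_sum]
        refine sum_congr rfl fun x _ => ?_
        simp only [Y, mul_assoc (-(l : ℂ))]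
        rw [← mul_sum, norm_mul, norm_neg, nl, mul_pow]
    have k3 : ∑ z ∈ (Z \ hs h) ×ˢ (univ : Finset Bool),
        (exp (-3 * (q.P : ℝ) ^ 3) * Φ (X (z :: h)) - exp (-3 * (q.P : ℝ) ^ 3) * Φ (X h)) =
        exp (-3 * (q.P : ℝ) ^ 3) *
          ∑ z ∈ σ.rem ×ˢ (univ : Finset Bool), (Φ (X h + Y z) - Φ (X h)) := by
      rw [mul_sum]
      refine sum_congr rfl fun z hz => ?_
      have : X (z :: h) = X h + Y z := by
        funext x y
        have e : NW.GG S.H (Wh S.W (z :: h)) x y = σ.G' z.1 z.2 x y :=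
          (hu z.1 (mem_product.1 hz).1 z.2).1 x y
        have e2 : σ.G x y = NW.GG S.H (Wh S.W h) x y := rfl
        simp only [X, Y, Pi.add_apply, e, Sx.G', e2]
        ring
      rw [this, mul_sub]
    rw [sum_coins (Z \ hs h) (fun z => exp (-3 * (q.P : ℝ) ^ 3) * Φ (X (z :: h))), k3,
      mul_div_assoc]
    refine mul_le_mul_of_nonneg_left ?_ (exp_pos _).le
    nlinarith [p1 _ (Xs h)]
  · have a1 : Φ (X h) < exp (3 * (q.P : ℝ) ^ 3) := by
      rw [neg_mul, exp_neg, inv_mul_lt_iff₀ (exp_pos _), mul_one] at hΦ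
      exact hΦ
    have a2 := (p2 _ _ (Xs h) (by positivity) a1).left (a := fun _ => (l : ℂ)⁻¹) (c := l⁻¹)
      (by positivity) fun _ _ => by rw [norm_inv, nl]
    have a3 := (H.inv.opLe H.hE (hθ.trans (by norm_num))).sub
      (H.hZ.trans (inter_subset_left.trans (sdiff_subset.trans S.good_sub)))
    refine ((a2.add a3).congr fun x _ y _ => ?_).mono ?_
    · have : (l : ℂ) ≠ 0 := by exact_mod_cast l0.ne'
      simp only [X, Pi.add_apply]
      field_simp
      ring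
    · rw [hl, show (12 * E.η / (q.P : ℝ) ^ 37)⁻¹ * (2 * (3 * (q.P : ℝ) ^ 3)) =
        (q.P : ℝ) ^ 40 / 2 / E.η by field_simp; norm_num, ← add_div]
      refine div_le_div_of_nonneg_right ?_ η0.le
      linarith [big 40 (by norm_num)]

end Pool.Agent.P.MP_d0f69c_mp.XS
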