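import Pool.Agent.P.MP_d0f69c_mp.XS.IfAsm

/-!
The monitor of the noise of the Dirichlet form.
-/

set_option autoImplicit false
set_option linter.dupNamespace false

open Finset Real
open scoped Matrix

namespace Pool.Agent.P.MP_d0f69c_mp.XS

namespace FA5A

variable {ι : Type}

theorem sb_zero : SB (0 : (ι → ℝ) → (ι → ℝ) → ℝ) :=
  ⟨fun _ _ => rfl, fun _ _ _ _ => by simp⟩

theorem sb_add {X Y : (ι → ℝ) → (ι → ℝ) → ℝ} (hX : SB X) (hY : SB Y) : SB (X + Y) :=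
  ⟨fun u w => by simp only [Pi.add_apply, hX.1 u w, hY.1 u w], fun c u v w => by
    simp only [Pi.add_apply, hX.2 c u v w, hY.2 c u v w]; ring⟩

theorem sb_smul {X : (ι → ℝ) → (ι → ℝ) → ℝ} (l : ℝ) (hX : SB X) : SB (l • X) :=
  ⟨fun u w => by simp only [Pi.smul_apply, hX.1 u w], fun c u v w => by
    simp only [Pi.smul_apply, hX.2 c u v w, smul_eq_mul]; ring⟩

/-- the drift of the potential for one sign -/
theorem drift (N : (ι → ℝ) → (ι → ℝ) → ℝ) (Φ : ((ι → ℝ) → (ι → ℝ) → ℝ) → ℝ)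
    (h0 : ∀ X, SB X → 0 ≤ Φ X)
    (hΦ : ∀ (V : Type) (s : Finset V) (X : (ι → ℝ) → (ι → ℝ) → ℝ)
      (Y : V → (ι → ℝ) → (ι → ℝ) → ℝ) (δ Q : ℝ), SB X → (∀ v ∈ s, SB (Y v)) → 0 ≤ Q → Q ≤ 1 →
      (∀ φ, ∑ v ∈ s, Y v φ φ ≤ δ * N φ φ) →
      (∀ φ, ∃ w : V → ℝ, (∀ v, 0 ≤ w v) ∧ ∑ v ∈ s, w v ≤ Q * N φ φ ∧
        ∀ v ∈ s, ∀ ψ, Y v φ ψ ^ 2 ≤ w v * N ψ ψ) →
      ∑ v ∈ s, (Φ (X + Y v) - Φ X) ≤ (δ + Q) * Φ X)
    {P l : ℝ} (hP : 10 ^ 9 ≤ P) (hl : |l| = 3 * P ^ 7) (R : Finset ι)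
    (X : (ι → ℝ) → (ι → ℝ) → ℝ) (hX : SB X) (Y : ι × Bool → (ι → ℝ) → (ι → ℝ) → ℝ)
    (hY : ∀ z, SB (Y z))
    (h1 : ∀ φ, |∑ z ∈ R ×ˢ (univ : Finset Bool), Y z φ φ| ≤ 1 / P ^ 8 * N φ φ ∧
      ∃ w : ι × Bool → ℝ, (∀ z, 0 ≤ w z) ∧
        ∑ z ∈ R ×ˢ (univ : Finset Bool), w z ≤ 1 / P ^ 15 * N φ φ ∧
        ∀ z ∈ R ×ˢ (univ : Finset Bool), ∀ ψ, Y z φ ψ ^ 2 ≤ w z * N ψ ψ) :
    ∑ v ∈ R, ((Φ (l • (X + Y (v, true))) + Φ (l • (X + Y (v, false)))) / 2 - Φ (l • X)) ≤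
      Φ (l • X) := by
  have hP0 : 0 < P := lt_of_lt_of_le (by norm_num) hP
  have hl2 : l ^ 2 = 9 * P ^ 14 := by rw [← sq_abs, hl]; ring
  have hq : 9 / P ≤ 1 := by rw [div_le_one hP0]; linarith
  have key := hΦ (ι × Bool) (R ×ˢ univ) (l • X) (fun z => l • Y z) (3 / P) (9 / P) (sb_smul l hX)
    (fun z _ => sb_smul l (hY z)) (by positivity) hq (fun φ => ?_) fun φ => ?_
  · rw [sum_coins R (fun z => Φ (l • (X + Y z)))]
    simp only [smul_add]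
    have h2 := h0 _ (sb_smul l hX)
    have h3 : 3 / P + 9 / P ≤ 2 := by
      rw [← add_div, div_le_iff₀ hP0]; linarith
    have h4 := mul_le_mul_of_nonneg_right h3 h2
    linarith
  · simp only [Pi.smul_apply, smul_eq_mul]
    rw [← mul_sum]
    refine (le_abs_self _).trans ?_
    rw [abs_mul, hl]
    refine (mul_le_mul_of_nonneg_left (h1 φ).1 (by positivity)).trans (le_of_eq ?_)
    field_simp
  · obtain ⟨w, w0, w1, w2⟩ := (h1 φ).2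
    refine ⟨fun z => l ^ 2 * w z, fun z => mul_nonneg (sq_nonneg l) (w0 z), ?_, fun z hz ψ => ?_⟩
    · rw [← mul_sum]
      refine (mul_le_mul_of_nonneg_left w1 (sq_nonneg l)).trans (le_of_eq ?_)
      rw [hl2]; field_simp
    · simp only [Pi.smul_apply, smul_eq_mul]
      rw [mul_pow, mul_assoc]
      exact mul_le_mul_of_nonneg_left (w2 z hz ψ) (sq_nonneg l)

theorem Eb_congr [DecidableEq ι] (T : Finset ι) (v : ι) {k k' : ι → ι → ℝ}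
    (h : ∀ x y, x ≠ v → y ≠ v → k x y = k' x y) : Eb (T.erase v) k = Eb (T.erase v) k' := by
  funext f g
  unfold Eb
  congr 1
  refine sum_congr rfl fun x hx => sum_congr rfl fun y hy => ?_
  rw [h x y (mem_erase.1 hx).1 (mem_erase.1 hy).1]

variable {d M : ℕ} [NeZero M]

/-- the accumulated noise as a bilinear form -/
noncomputable def Xh (η : ℝ) (S : St (Tor d M)) (D : ℕ) (Z' : Finset (Tor d M))
    (h : List (Tor d M × Bool)) : (Tor d M → ℝ) → (Tor d M → ℝ) → ℝ :=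
  Sm S.W (fun W _ v b => if v ∈ Z' then Eb ((bl v D).erase v) (dK η S.H W v b) else 0) h

theorem Xh_cons (η : ℝ) (S : St (Tor d M)) (D : ℕ) (Z' : Finset (Tor d M)) (v : Tor d M) (b : Bool)
    (h : List (Tor d M × Bool)) : Xh η S D Z' ((v, b) :: h) = Xh η S D Z' h +
      if v ∈ Z' then Eb ((bl v D).erase v) (dK η S.H (Wh S.W h) v b) else 0 := rfl

theorem Xh_spec (η : ℝ) (S : St (Tor d M)) (D : ℕ) (Z' : Finset (Tor d M))
    (hb : ∀ (T : Finset (Tor d M)) (k : Tor d M → Tor d M → ℝ),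
      SB (Eb T k) ∧ ∀ φ, Eb T k φ φ = En T k φ) (h : List (Tor d M × Bool)) :
    SB (Xh η S D Z' h) ∧ ∀ φ, Xh η S D Z' h φ φ =
      Sm S.W (fun W _ v b => if v ∈ Z' then Y5 η S.H W D v b φ else 0) h := by
  induction h with
  | nil => exact ⟨sb_zero, fun _ => rfl⟩
  | cons z h ih =>
    obtain ⟨v, b⟩ := z
    rw [Xh_cons]
    refine ⟨sb_add ih.1 ?_, fun φ => ?_⟩
    · split_ifs
      exacts [(hb _ _).1, sb_zero]
    · rw [Pi.add_apply, Pi.add_apply, ih.2 φ]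
      change _ = _ + if v ∈ Z' then Y5 η S.H (Wh S.W h) D v b φ else 0
      split_ifs
      · rw [(hb _ _).2]; rfl
      · rfl

end FA5A

open FA5A in
theorem t_a5 (h1 : S_M5) (h2 : S_POT) (h3 : S_NMB) (hx : S_EXA) : S_A5 := by
  intro d M _ E q S c Z Sg Z' B hy
  obtain ⟨⟨N, n1, n2, n3⟩, hb, hd⟩ := h3 d M E hy.hE
  obtain ⟨Φ, p0, p1, p2, p3⟩ := h2 (Tor d M) N B n1 n2
  have hP : (10 : ℝ) ^ 9 ≤ q.P := hy.hq.P9 hy.hE
  have hP0 : (0 : ℝ) < q.P := lt_of_lt_of_le (by norm_num) hP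
  have sp := Xh_spec E.η S (q.D E.η 2) Z' hb
  have e0 := exp_pos (-3 * (q.P : ℝ) ^ 3)
  have dr : ∀ l : ℝ, |l| = 3 * (q.P : ℝ) ^ 7 → ∀ h, hs h ⊆ Z → Fh E q S c Z Sg h →
      ∑ v ∈ Z \ hs h, ((Φ (l • Xh E.η S (q.D E.η 2) Z' ((v, true) :: h)) +
        Φ (l • Xh E.η S (q.D E.η 2) Z' ((v, false) :: h))) / 2 -
          Φ (l • Xh E.η S (q.D E.η 2) Z' h)) ≤ Φ (l • Xh E.η S (q.D E.η 2) Z' h) := by
    intro l hl h hZ hF
    have ex := (hx d M E q S c Z Sg (hs h) (Wh S.W h) hy hZ (cl_Wh _ _)).2.2.2.2.2.2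
    have m5 := h1 (Tor d M) (npOf E q) (mkS E q S c Z Sg (hs h) (Wh S.W h)) (Nm E.p)
      ((Z \ hs h) ∩ Z') (npOf_OK hy.hE hy.hq) hF.1 inter_subset_left (fun φ => by
        have a1 := hF.2.1 φ
        have a2 := NF_nonneg hy.hE.ref.p0 φ
        have a3 : 0 ≤ (∑ x, φ x ^ 2) / (M : ℝ) ^ 2 :=
          div_nonneg (sum_nonneg fun _ _ => sq_nonneg _) (sq_nonneg _)
        refine le_trans (le_of_eq rfl) (a1.trans ?_)
        unfold Nm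
        linarith) hd
    have key := drift N Φ p1 p3 hP hl ((Z \ hs h) ∩ Z') _ (sp h).1
      (fun z => Eb (((mkS E q S c Z Sg (hs h) (Wh S.W h)).B z.1).erase z.1)
        ((mkS E q S c Z Sg (hs h) (Wh S.W h)).dk z.1 z.2)) (fun z => (hb _ _).1) fun φ => by
      simp only [n3]
      exact m5 φ
    refine le_trans (le_of_eq ?_) key
    rw [← sum_subset (inter_subset_left (s₁ := Z \ hs h) (s₂ := Z')) fun v hv hn => ?_]
    · refine sum_congr rfl fun v hv => ?_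
      rw [Xh_cons, Xh_cons, if_pos (mem_inter.1 hv).2, if_pos (mem_inter.1 hv).2,
        Eb_congr _ v (ex v (mem_inter.1 hv).1 true).2.1,
        Eb_congr _ v (ex v (mem_inter.1 hv).1 false).2.1]
      rfl
    · have hn' : v ∉ Z' := fun a => hn (mem_inter.2 ⟨hv, a⟩)
      rw [Xh_cons, Xh_cons, if_neg hn', if_neg hn', add_zero]
      ring
  have l0 : (0 : ℝ) < 3 * (q.P : ℝ) ^ 7 := by positivity
  refine ⟨fun h => exp (-3 * (q.P : ℝ) ^ 3) *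
    (Φ ((3 * (q.P : ℝ) ^ 7) • Xh E.η S (q.D E.η 2) Z' h) +
      Φ ((-(3 * (q.P : ℝ) ^ 7)) • Xh E.η S (q.D E.η 2) Z' h)), fun h => mul_nonneg e0.le
    (add_nonneg (p1 _ (sb_smul _ (sp h).1)) (p1 _ (sb_smul _ (sp h).1))), le_of_eq ?_,
    fun h hZ hF => ?_, fun h _ hlt φ hφ => ?_⟩
  · have z0 : Xh E.η S (q.D E.η 2) Z' [] = 0 := rfl
    simp only [z0, smul_zero, p0]
    ring
  · refine le_trans (le_of_eq ?_) (mul_le_mul_of_nonneg_left (add_le_add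
      (dr _ (abs_of_pos l0) h hZ hF) (dr _ ((abs_neg _).trans (abs_of_pos l0)) h hZ hF)) e0.le)
    rw [← sum_add_distrib, mul_sum]
    exact sum_congr rfl fun _ _ => by ring
  · have a1 := p1 _ (sb_smul (3 * (q.P : ℝ) ^ 7) (sp h).1)
    have a2 := p1 _ (sb_smul (-(3 * (q.P : ℝ) ^ 7)) (sp h).1)
    have a3 : Φ ((3 * (q.P : ℝ) ^ 7) • Xh E.η S (q.D E.η 2) Z' h) +
        Φ ((-(3 * (q.P : ℝ) ^ 7)) • Xh E.η S (q.D E.η 2) Z' h) < exp (3 * (q.P : ℝ) ^ 3) := by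
      have a4 : exp (-3 * (q.P : ℝ) ^ 3) * exp (3 * (q.P : ℝ) ^ 3) = 1 := by
        rw [← exp_add]; simp
      exact lt_of_mul_lt_mul_left (hlt.trans_eq a4.symm) e0.le
    have b1 := p2 _ _ (sb_smul _ (sp h).1) (lt_of_le_of_lt (le_add_of_nonneg_right a2) a3) φ hφ
    have b2 := p2 _ _ (sb_smul _ (sp h).1) (lt_of_le_of_lt (le_add_of_nonneg_left a1) a3) φ hφ
    simp only [Pi.smul_apply, smul_eq_mul, n3, (sp h).2] at b1 b2
    have e : 3 * (q.P : ℝ) ^ 3 * Nm E.p φ = 3 * (q.P : ℝ) ^ 7 * (Nm E.p φ / (q.P : ℝ) ^ 4) := by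
      field_simp
    rw [e] at b1 b2
    rw [abs_le]
    constructor
    · nlinarith
    · exact le_of_mul_le_mul_left b1 l0

end Pool.Agent.P.MP_d0f69c_mp.XS
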