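import Pool.Agent.P.MP_d0f69c_mp.XS.IfAsm

/-!
The monitor of the noise of the retarded-retarded matrix.
-/

set_option autoImplicit false

open Finset Real
open scoped Matrix

namespace Pool.Agent.P.MP_d0f69c_mp.XS

namespace FA6A

section generic

variable {ι : Type} [Fintype ι] [DecidableEq ι]

omit [Fintype ι] in
theorem Am_sym (W : ι → ℂ) {G : Matrix ι ι ℂ} (h : ∀ x y, G x y = G y x) (x y : ι) :
    Am W G x y = Am W G y x := by
  by_cases e : x = y
  · rw [e]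
  · rw [Am, Am, if_neg e, if_neg (Ne.symm e), h x y]

theorem dA_sym {H : Matrix ι ι ℝ} (h : ∀ x y, H x y = H y x) (W : ι → ℂ) (v : ι) (b : Bool)
    (x y : ι) : dA H W v b x y = dA H W v b y x := by
  rw [dA, dA, Am_sym _ (GG_sym h _) x y, Am_sym W (GG_sym h _) x y, Am_sym W (GG_sym h _) x v,
    Am_sym W (GG_sym h _) v y, mul_comm]

omit [Fintype ι] in
theorem Sm_sym (W : ι → ℂ) {f : (ι → ℂ) → Finset ι → ι → Bool → ι → ι → ℂ}
    (hf : ∀ W X v b x y, f W X v b x y = f W X v b y x) (h : List (ι × Bool)) (x y : ι) :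
    Sm W f h x y = Sm W f h y x := by
  induction h with
  | nil => rfl
  | cons z h ih => simp only [Sm, Pi.add_apply, ih, hf _ _ _ _ x y]

omit [Fintype ι] [DecidableEq ι] in
theorem opLe_smul {I : Finset ι} {X : ι → ι → ℂ} {l r : ℝ} (hl : 0 < l)
    (h : OpLe I ((l : ℂ) • X) (l * r)) : OpLe I X r := fun u => by
  have e : ap I ((l : ℂ) • X) u = (l : ℂ) • ap I X u := funext fun x => by
    simp only [ap, Pi.smul_apply, smul_eq_mul, mul_sum, mul_assoc]
  have h1 := h u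
  rw [e, nS_smul, Complex.norm_real, Real.norm_of_nonneg hl.le, mul_assoc] at h1
  exact le_of_mul_le_mul_left h1 hl

end generic

variable {d M : ℕ} [NeZero M]

theorem Y6_sym {H : Matrix (Tor d M) (Tor d M) ℝ} (h : ∀ x y, H x y = H y x) (W : Tor d M → ℂ)
    (T : Finset (Tor d M)) (D : ℕ) (v : Tor d M) (b : Bool) (x y : Tor d M) :
    Y6 H W T D v b x y = Y6 H W T D v b y x := by
  simp only [Y6, and_comm, dA_sym h W v b x y]

end FA6A

open FA6A in
theorem t_a6 (h1 : S_M6) (h2 : S_POTC) (hx : S_EXA) : S_A6 := by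
  intro d M _ E q S c Z Sg Z' I hy
  obtain ⟨Φ, p0, p1, p2, p3⟩ := h2 (Tor d M) I
  have hH := (t_adm d M E S.H S.junk hy.hE hy.inv.phys).1
  have hP := hy.hq.P9 hy.hE
  have P0 : (0 : ℝ) < q.P := hy.hq.Ppos hy.hE
  set f : (Tor d M → ℂ) → Finset (Tor d M) → Tor d M → Bool → Tor d M → Tor d M → ℂ :=
    fun W X v b => if v ∈ Z' then Y6 S.H W ((Z ∪ Sg) \ X) (q.D E.η 2) v b else 0 with hf
  have fs : ∀ W X v b x y, f W X v b x y = f W X v b y x := fun W X v b x y => by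
    simp only [hf]
    split_ifs
    exacts [Y6_sym hH _ _ _ _ _ x y, rfl]
  obtain ⟨l, hl⟩ : ∃ l : ℝ, l = 6 * (q.P : ℝ) ^ 7 := ⟨_, rfl⟩
  have l0 : 0 < l := by rw [hl]; positivity
  have sy : ∀ h x y, ((l : ℂ) • Sm S.W f h) x y = ((l : ℂ) • Sm S.W f h) y x := fun h x y => by
    simp only [Pi.smul_apply, Sm_sym S.W fs h x y]
  have e0 := exp_pos (-3 * (q.P : ℝ) ^ 3)
  refine ⟨fun h => exp (-3 * (q.P : ℝ) ^ 3) * Φ ((l : ℂ) • Sm S.W f h),
    fun h => mul_nonneg e0.le (p1 _ (sy h)), ?_, fun h a b => ?_, fun h _ b => ?_⟩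
  · simp only [Sm, smul_zero, p0]
    exact le_of_eq (mul_comm _ _)
  · have ex := (hx d M E q S c Z Sg (hs h) (Wh S.W h) hy a (cl_Wh _ _)).2.2.2.2.2.2
    have m6 := h1 _ _ _ ((Z \ hs h) ∩ Z') I (npOf_OK hy.hE hy.hq) b.1 inter_subset_left
    have eq : ∀ z ∈ ((Z \ hs h) ∩ Z') ×ˢ (univ : Finset Bool), ∀ x y,
        ((l : ℂ) • f (Wh S.W h) (hs h) z.1 z.2) x y =
          l * (mkS E q S c Z Sg (hs h) (Wh S.W h)).y6 z.1 z.2 x y := fun z hz x y => by
      have hz' := mem_inter.1 (mem_product.1 hz).1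
      simp only [hf, if_pos hz'.2, Pi.smul_apply, smul_eq_mul, (ex z.1 hz'.1 z.2).2.2 x y]
    have key := p3 _ (((Z \ hs h) ∩ Z') ×ˢ (univ : Finset Bool)) ((l : ℂ) • Sm S.W f h)
      (fun z => (l : ℂ) • f (Wh S.W h) (hs h) z.1 z.2) (6 / q.P) (36 / q.P) (sy h)
      (fun z _ x y => by simp only [Pi.smul_apply, fs _ _ _ _ x y]) (by positivity)
      (by positivity) (by rw [div_le_one P0]; linarith) (fun u => by
        have e : ∑ z ∈ ((Z \ hs h) ∩ Z') ×ˢ (univ : Finset Bool), ∑ x ∈ I, ∑ y ∈ I,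
            u x * ((l : ℂ) • f (Wh S.W h) (hs h) z.1 z.2) x y * u y =
            l * ∑ z ∈ ((Z \ hs h) ∩ Z') ×ˢ (univ : Finset Bool), ∑ x ∈ I, ∑ y ∈ I,
              u x * (mkS E q S c Z Sg (hs h) (Wh S.W h)).y6 z.1 z.2 x y * u y := by
          simp only [mul_sum]
          exact sum_congr rfl fun z hz => sum_congr rfl fun x _ => sum_congr rfl fun y _ => by
            rw [eq z hz]; ring
        rw [e, norm_mul, Complex.norm_real, Real.norm_of_nonneg l0.le]
        refine (mul_le_mul_of_nonneg_left (m6 u).1 l0.le).trans (le_of_eq ?_)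
        simp only [npOf, hl]
        field_simp) (fun u => by
        have e : ∑ z ∈ ((Z \ hs h) ∩ Z') ×ˢ (univ : Finset Bool), ∑ x ∈ I,
            ‖∑ y ∈ I, ((l : ℂ) • f (Wh S.W h) (hs h) z.1 z.2) x y * u y‖ ^ 2 =
            l ^ 2 * ∑ z ∈ ((Z \ hs h) ∩ Z') ×ˢ (univ : Finset Bool), ∑ x ∈ I,
              ‖∑ y ∈ I, (mkS E q S c Z Sg (hs h) (Wh S.W h)).y6 z.1 z.2 x y * u y‖ ^ 2 := by
          simp only [mul_sum]
          refine sum_congr rfl fun z hz => sum_congr rfl fun x _ => ?_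
          simp only [eq z hz, mul_assoc]
          rw [← mul_sum, norm_mul, mul_pow, Complex.norm_real, Real.norm_of_nonneg l0.le]
        rw [e]
        refine (mul_le_mul_of_nonneg_left (m6 u).2 (sq_nonneg l)).trans (le_of_eq ?_)
        simp only [npOf, hl]
        field_simp
        ring)
    rw [← sum_subset (inter_subset_left (s₂ := Z')) fun v hv hn => by
      have hn' : v ∉ Z' := fun k => hn (mem_inter.2 ⟨hv, k⟩)
      simp only [Sm, hf, if_neg hn', add_zero]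
      ring,
      sum_coins _ fun z => exp (-3 * (q.P : ℝ) ^ 3) * Φ ((l : ℂ) • Sm S.W f (z :: h))]
    simp only [Sm, smul_add, ← mul_sub, ← mul_sum]
    have n0 := p1 _ (sy h)
    have n1 : 6 / (q.P : ℝ) + 36 / q.P ≤ 2 := by
      rw [← add_div, div_le_iff₀ P0]; linarith
    have n2 := key.trans (mul_le_mul_of_nonneg_right n1 n0)
    have n3 := mul_le_mul_of_nonneg_left n2 e0.le
    linarith
  · have k : Φ ((l : ℂ) • Sm S.W f h) < exp (3 * (q.P : ℝ) ^ 3) := by
      have e : exp (-3 * (q.P : ℝ) ^ 3) * exp (3 * (q.P : ℝ) ^ 3) = 1 := by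
        rw [← exp_add]; simp
      exact lt_of_mul_lt_mul_left (b.trans_eq e.symm) e0.le
    refine opLe_smul l0 ?_
    have e : l * (1 / (q.P : ℝ) ^ 4) = 2 * (3 * (q.P : ℝ) ^ 3) := by
      rw [hl]; field_simp; ring
    rw [e]
    exact p2 _ _ (sy h) (by positivity) k

end Pool.Agent.P.MP_d0f69c_mp.XS
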