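import Pool.Agent.P.MP_d0f69c_mp.XS.IfFlow

/-!
The chain of star-mesh steps along a history.
-/

set_option autoImplicit false

open Finset Real

namespace Pool.Agent.P.MP_d0f69c_mp.XS

namespace FChainA

variable {ι : Type} [Fintype ι] [DecidableEq ι]

omit [Fintype ι] [DecidableEq ι] in
theorem En_act {S : Finset ι} {k : ι → ι → ℝ} {f F : ι → ℝ} (A : ι → Prop)
    (h0 : ∀ x ∈ S, ∀ y ∈ S, A x ∨ A y → k x y = 0) (h1 : ∀ x ∈ S, ¬ A x → f x = F x) :
    En S k f = En S k F := by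
  unfold En
  congr 1
  refine sum_congr rfl fun x hx => sum_congr rfl fun y hy => ?_
  by_cases h : A x ∨ A y
  · rw [h0 x hx y hy h, zero_mul, zero_mul]
  · rw [h1 x hx fun a => h (Or.inl a), h1 y hy fun a => h (Or.inr a)]

omit [Fintype ι] in
theorem mem_hs {z : ι × Bool} {h : List (ι × Bool)} {x : ι} :
    x ∈ hs (z :: h) ↔ x = z.1 ∨ x ∈ hs h := by
  rw [hs, hs, List.map_cons, List.toFinset_cons, mem_insert]

omit [Fintype ι] in
theorem Wh_spec (W : ι → ℂ) (h : List (ι × Bool)) (x : ι) :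
    (x ∉ hs h ∧ Wh W h x = W x) ∨ (Wh W h x).im = 0 := by
  induction h with
  | nil => exact Or.inl ⟨by simp [hs], rfl⟩
  | cons z h ih =>
    by_cases e : x = z.1
    · exact Or.inr (by rw [Wh, e, Function.update_self, sgn_im])
    · rw [Wh, Function.update_of_ne e, mem_hs]
      exact ih.imp_left fun a => ⟨fun b => b.elim e a.1, a.2⟩

omit [Fintype ι] [DecidableEq ι] in
theorem Kk_zero {η : ℝ} {W : ι → ℂ} (G : Matrix ι ι ℂ) {x y : ι}
    (h : (W x).im = 0 ∨ (W y).im = 0) : Kk η W G x y = 0 := by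
  rcases h with h | h <;> simp [Kk, aw, h]

end FChainA

open FChainA in
theorem t_chain : S_CHAIN := by
  intro ι _ _ η H W h hη hH hW hn hd
  clear hn
  induction h with
  | nil =>
    simp only [Wh, Sm, add_zero]
    exact ⟨fun _ => le_rfl, fun f => ⟨f, fun _ _ => rfl, fun F hF =>
      En_act (fun x => (W x).im = 0) (fun _ _ _ _ => Kk_zero _) fun x _ a => (hF x a).symm⟩⟩
  | cons z h ih =>
    obtain ⟨i1, i2⟩ := ih fun z' h' a => hd z' h' (a.trans (List.suffix_cons z h))
    have a0 : ∀ x, 0 ≤ aw η (Wh W h) x := fun x => div_nonneg (neg_nonneg.2 (by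
      rcases Wh_spec W h x with a | a
      exacts [a.2 ▸ hW x, a.le])) hη.le
    obtain ⟨s1, s2⟩ := (t_step ι).1 univ (Kk η (Wh W h) (NW.GG H (Wh W h)))
      (Kk η (Wh W (z :: h)) (NW.GG H (Wh W (z :: h)))) z.1 (mem_univ _)
      (fun x y => by simp only [Kk, GG_sym hH _ x y, mul_comm])
      (fun x y => mul_nonneg (mul_nonneg (a0 x) (a0 y)) (sq_nonneg _))
      (hd z h (List.suffix_refl _))
    have hv : ∀ x ∉ univ.erase z.1, (Wh W (z :: h) x).im = 0 := fun x hx => by
      obtain rfl : x = z.1 := by simpa using hx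
      rw [Wh, Function.update_self, sgn_im]
    have e : ∀ F, En univ (Kk η (Wh W (z :: h)) (NW.GG H (Wh W (z :: h)))) F =
        En (univ.erase z.1) (Kk η (Wh W (z :: h)) (NW.GG H (Wh W (z :: h)))) F :=
      En_supp (subset_univ _) fun x _ y _ a => Kk_zero _ (a.imp (hv x) (hv y))
    simp only [e, Sm, ← add_assoc]
    refine ⟨fun F => (s1 F).trans (add_le_add_left (i1 F) _), fun f => ?_⟩
    obtain ⟨c, hc⟩ := s2 f
    obtain ⟨g, g1, g2⟩ := i2 (Function.update f z.1 c)
    have g3 : ∀ x, x ≠ z.1 → x ∉ hs h → g x = f x := fun x a b => by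
      rw [g1 x b, Function.update_of_ne a]
    refine ⟨g, fun x hx => g3 x (fun a => hx (mem_hs.2 (Or.inl a))) fun a => hx (mem_hs.2 (Or.inr a)),
      fun F hF => ?_⟩
    rw [hc, g2 F hF]
    congr 1
    refine En_act (fun x => (Wh W h x).im = 0) (fun x hx y hy a => ?_) fun x hx a => ?_
    · have b : (Wh W (z :: h) x).im = 0 ∨ (Wh W (z :: h) y).im = 0 := by
        rwa [Wh, Function.update_of_ne (mem_erase.1 hx).1, Function.update_of_ne (mem_erase.1 hy).1]
      rw [Kk_zero _ a, Kk_zero _ b]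
      rcases a with a | a
      · rw [Kk_zero (y := z.1) _ (Or.inl a)]
        simp
      · rw [Kk_zero (x := z.1) _ (Or.inr a)]
        simp
    · obtain ⟨b, b'⟩ := (Wh_spec W h x).resolve_right a
      rw [hF x (b' ▸ a), g3 x (mem_erase.1 hx).1 b]

end Pool.Agent.P.MP_d0f69c_mp.XS
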