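import Mathlib

/- The disc condition for the retarded-retarded operator: stability under lifts (Schur complement
and compression) and under small perturbations. -/

namespace Pool.Agent.P.MP_d0f69c_mp.XS

open Finset

variable {T : Type}

/-- Euclidean norm on `S` -/
noncomputable def nS (S : Finset T) (u : T → ℂ) : ℝ := √(∑ x ∈ S, ‖u x‖ ^ 2)

/-- action of a kernel compressed to `S` -/
noncomputable def ap (S : Finset T) (A : T → T → ℂ) (u : T → ℂ) (x : T) : ℂ := ∑ y ∈ S, A x y * u y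

theorem nS_nonneg (S : Finset T) (u : T → ℂ) : 0 ≤ nS S u := Real.sqrt_nonneg _

theorem nS_sq (S : Finset T) (u : T → ℂ) : nS S u ^ 2 = ∑ x ∈ S, ‖u x‖ ^ 2 :=
  Real.sq_sqrt (sum_nonneg fun _ _ => sq_nonneg _)

theorem nS_eq (S : Finset T) (u : T → ℂ) :
    nS S u = ‖(WithLp.toLp 2 fun x : S => u x : EuclideanSpace ℂ S)‖ := by
  rw [EuclideanSpace.norm_eq, nS, ← sum_coe_sort S]

theorem nS_congr {S : Finset T} {u w : T → ℂ} (h : ∀ x ∈ S, u x = w x) : nS S u = nS S w := by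
  rw [nS, nS, sum_congr rfl fun x hx => by rw [h x hx]]

theorem nS_add (S : Finset T) (u w : T → ℂ) : nS S (u + w) ≤ nS S u + nS S w := by
  simp only [nS_eq]
  exact norm_add_le (WithLp.toLp 2 fun x : S => u x : EuclideanSpace ℂ S)
    (WithLp.toLp 2 fun x : S => w x)

theorem nS_sub (S : Finset T) (u w : T → ℂ) : nS S (u - w) ≤ nS S u + nS S w := by
  simp only [nS_eq]
  exact norm_sub_le (WithLp.toLp 2 fun x : S => u x : EuclideanSpace ℂ S)
    (WithLp.toLp 2 fun x : S => w x)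

theorem nS_smul (S : Finset T) (c : ℂ) (u : T → ℂ) : nS S (c • u) = ‖c‖ * nS S u := by
  simp only [nS_eq]
  exact norm_smul c (WithLp.toLp 2 fun x : S => u x : EuclideanSpace ℂ S)

theorem ap_add (S : Finset T) (A B : T → T → ℂ) (u : T → ℂ) :
    ap S (A + B) u = ap S A u + ap S B u := funext fun x => by
  simp [ap, add_mul, sum_add_distrib]

/-- the Cayley transform of `A` on `S` has norm at most `t` -/
def Disc (S : Finset T) (A : T → T → ℂ) (t : ℝ) : Prop :=
  ∀ u, nS S (u - ap S A u) ≤ t * nS S (u + ap S A u)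

theorem Disc.mono {S : Finset T} {A : T → T → ℂ} {t s : ℝ} (h : Disc S A t) (hs : t ≤ s) :
    Disc S A s := fun u => (h u).trans (mul_le_mul_of_nonneg_right hs (nS_nonneg _ _))

/-- a small operator norm of `1 - A` gives the disc condition -/
theorem disc_of_norm {S : Finset T} {A : T → T → ℂ} {t : ℝ} (h0 : 0 ≤ t) (h1 : t ≤ 1)
    (h : ∀ u, nS S (u - ap S A u) ≤ t * nS S u) : Disc S A t := fun u => by
  have h2 := nS_add S (u + ap S A u) (u - ap S A u)
  have e : u + ap S A u + (u - ap S A u) = (2 : ℂ) • u := by rw [two_smul]; abel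
  rw [e, nS_smul, Complex.norm_two] at h2
  have h3 := mul_le_mul_of_nonneg_right h1 (nS_nonneg S u)
  exact (h u).trans (mul_le_mul_of_nonneg_left (by linarith [h u]) h0)

/-- the disc condition bounds the operator norm of `1 - A` -/
theorem Disc.norm {S : Finset T} {A : T → T → ℂ} {t : ℝ} (h : Disc S A t) (h0 : 0 ≤ t)
    (u : T → ℂ) : (1 - t) * nS S (u - ap S A u) ≤ 2 * t * nS S u := by
  have h2 := nS_sub S ((2 : ℂ) • u) (u - ap S A u)
  have e : (2 : ℂ) • u - (u - ap S A u) = u + ap S A u := by rw [two_smul]; abel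
  rw [e, nS_smul, Complex.norm_two] at h2
  have := mul_le_mul_of_nonneg_left h2 h0
  linarith [h u]

theorem Disc.pert {S : Finset T} {A D : T → T → ℂ} {t δ : ℝ} (h : Disc S A t) (h0 : 0 ≤ t)
    (h1 : t ≤ 1 / 4) (hδ : 0 ≤ δ) (hδ1 : δ ≤ 1 / 4) (hD : ∀ u, nS S (ap S D u) ≤ δ * nS S u) :
    Disc S (A + D) (t + δ) := fun u => by
  rw [ap_add]
  have a1 := nS_sub S (u - ap S A u) (ap S D u)
  have a2 := nS_sub S (u + (ap S A u + ap S D u)) (ap S D u)
  have a3 := nS_add S (u + ap S A u) (u - ap S A u)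
  have e : u + ap S A u + (u - ap S A u) = (2 : ℂ) • u := by rw [two_smul]; abel
  rw [e, nS_smul, Complex.norm_two] at a3
  rw [sub_sub] at a1
  rw [← add_assoc, add_sub_cancel_right, add_assoc] at a2
  have a4 := h u
  have a5 := hD u
  have a6 := nS_nonneg S u
  have a7 := nS_nonneg S (u + (ap S A u + ap S D u))
  have a8 := nS_nonneg S (u + ap S A u)
  generalize nS S (u + (ap S A u + ap S D u)) = p at *
  generalize nS S (u + ap S A u) = q at *
  generalize nS S u = n at *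
  have b1 : q ≤ p + δ * n := by linarith
  have b2 : δ * n ≤ n / 4 := by nlinarith
  have b3 : t * q ≤ q / 4 := by nlinarith
  have b4 : 5 / 4 * n ≤ p := by linarith
  have b5 := mul_le_mul_of_nonneg_left b1 h0
  have b6 := mul_le_mul_of_nonneg_left b4 hδ
  have b7 := mul_le_mul_of_nonneg_right h1 (mul_nonneg hδ a6)
  linarith

/-- lift: on the removed sites either the lifted vector or its image vanishes -/
theorem Disc.lift [DecidableEq T] {S S' : Finset T} {A A' : T → T → ℂ} {t : ℝ} (h : Disc S A t)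
    (h0 : 0 ≤ t) (h1 : t ≤ 1) (hS : S' ⊆ S)
    (hl : ∀ u, ∃ w, (∀ x ∈ S', w x = u x ∧ ap S A w x = ap S' A' u x) ∧
      ∀ x ∈ S, x ∉ S' → w x = 0 ∨ ap S A w x = 0) : Disc S' A' t := fun u => by
  obtain ⟨w, h2, h3⟩ := hl u
  have h4 := pow_le_pow_left₀ (nS_nonneg _ _) (h w) 2
  rw [mul_pow, nS_sq, nS_sq, ← sum_sdiff hS, ← sum_sdiff hS] at h4
  have h5 : ∑ x ∈ S \ S', ‖(w + ap S A w) x‖ ^ 2 = ∑ x ∈ S \ S', ‖(w - ap S A w) x‖ ^ 2 :=
    sum_congr rfl fun x hx => by
      rcases h3 x (mem_sdiff.1 hx).1 (mem_sdiff.1 hx).2 with e | e <;> simp [e]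
  have h6 : 0 ≤ ∑ x ∈ S \ S', ‖(w - ap S A w) x‖ ^ 2 := sum_nonneg fun _ _ => sq_nonneg _
  have h7 := mul_le_mul_of_nonneg_right (pow_le_one₀ h0 h1 (n := 2)) h6
  refine le_of_sq_le_sq ?_ (mul_nonneg h0 (nS_nonneg _ _))
  rw [mul_pow, nS_sq, nS_sq, sum_congr rfl fun x hx => show ‖(u - ap S' A' u) x‖ ^ 2
      = ‖(w - ap S A w) x‖ ^ 2 by rw [Pi.sub_apply, Pi.sub_apply, (h2 x hx).1, (h2 x hx).2],
    sum_congr rfl fun x hx => show ‖(u + ap S' A' u) x‖ ^ 2 = ‖(w + ap S A w) x‖ ^ 2 by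
      rw [Pi.add_apply, Pi.add_apply, (h2 x hx).1, (h2 x hx).2]]
  rw [h5] at h4
  linarith

/-- compression -/
theorem Disc.compress [DecidableEq T] {S S' : Finset T} {A : T → T → ℂ} {t : ℝ} (h : Disc S A t)
    (h0 : 0 ≤ t) (h1 : t ≤ 1) (hS : S' ⊆ S) : Disc S' A t :=
  h.lift h0 h1 hS fun u => ⟨fun x => if x ∈ S' then u x else 0, fun x hx => ⟨if_pos hx, by
    simp only [ap, mul_ite, mul_zero, sum_ite_mem, inter_eq_right.2 hS]⟩,
    fun x _ hx => Or.inl (if_neg hx)⟩

theorem ap_schur [DecidableEq T] {S : Finset T} (A : T → T → ℂ) {v : T} (hv : v ∈ S) (u : T → ℂ)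
    (x : T) : ap S A (Function.update u v (-(∑ y ∈ S.erase v, A v y * u y) / A v v)) x
      = ap (S.erase v) (fun x y => A x y - A x v * A v y / A v v) u x := by
  generalize hc : -(∑ y ∈ S.erase v, A v y * u y) / A v v = c
  have e : ∑ y ∈ S.erase v, A x y * Function.update u v c y = ∑ y ∈ S.erase v, A x y * u y :=
    sum_congr rfl fun y hy => by rw [Function.update_of_ne (mem_erase.1 hy).1]
  rw [ap, ap, ← add_sum_erase _ _ hv, Function.update_self, e, ← hc]
  simp only [sub_mul, sum_sub_distrib, neg_div, mul_neg, sum_div, mul_sum]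
  rw [neg_add_eq_sub]
  congr 1
  exact sum_congr rfl fun y _ => by ring

/-- Schur complement at one site -/
theorem Disc.schur [DecidableEq T] {S : Finset T} {A : T → T → ℂ} {t : ℝ} (h : Disc S A t)
    (h0 : 0 ≤ t) (h1 : t ≤ 1) {v : T} (hv : v ∈ S) (hA : A v v ≠ 0) :
    Disc (S.erase v) (fun x y => A x y - A x v * A v y / A v v) t := by
  refine h.lift h0 h1 (erase_subset _ _) fun u =>
    ⟨Function.update u v (-(∑ y ∈ S.erase v, A v y * u y) / A v v), fun x hx =>
      ⟨Function.update_of_ne (mem_erase.1 hx).1 _ _, ap_schur A hv u x⟩, fun x hx hx' => ?_⟩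
  obtain rfl : x = v := by simpa [hx] using hx'
  refine Or.inr ((ap_schur A hv u x).trans (sum_eq_zero fun y _ => ?_))
  field_simp
  ring

end Pool.Agent.P.MP_d0f69c_mp.XS
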