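import Pool.Agent.P.MP_d0f69c_mp.XS.Form
import Pool.Agent.P.MP_d0f69c_mp.XS.Disc

/-! Comparison of energy forms and of bilinear forms between two states. -/

namespace Pool.Agent.P.MP_d0f69c_mp.XS

open Finset

variable {T : Type}

theorem En_congr {S : Finset T} (K : T → T → ℝ) {f g : T → ℝ} (h : ∀ x ∈ S, f x = g x) :
    En S K f = En S K g := by
  unfold En
  congr 1
  exact sum_congr rfl fun x hx => sum_congr rfl fun y hy => by rw [h x hx, h y hy]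

/-- upper and lower comparison of the new form with the old one, with error functional `E` -/
structure RF (S0 : Finset T) (K0 : T → T → ℝ) (S : Finset T) (K : T → T → ℝ)
    (E : (T → ℝ) → ℝ) : Prop where
  sub : S ⊆ S0
  up : ∀ F, En S K F ≤ En S0 K0 F + E F
  low : ∀ f : T → ℝ, ∃ f' : T → ℝ, (∀ x ∈ S, f' x = f x) ∧
    ∀ F, (∀ x ∈ S0, F x = f' x) → En S0 K0 F ≤ En S K f + E F

theorem RF.refl (S : Finset T) (K : T → T → ℝ) : RF S K S K fun _ => 0 :=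
  ⟨subset_rfl, fun _ => by simp, fun f => ⟨f, fun _ _ => rfl, fun F h => by
    rw [En_congr K h, add_zero]⟩⟩

theorem RF.mono {S0 S : Finset T} {K0 K : T → T → ℝ} {E E' : (T → ℝ) → ℝ} (h : RF S0 K0 S K E)
    (hE : ∀ F, E F ≤ E' F) : RF S0 K0 S K E' :=
  ⟨h.sub, fun F => (h.up F).trans (add_le_add le_rfl (hE F)), fun f => by
    obtain ⟨f', h1, h2⟩ := h.low f
    exact ⟨f', h1, fun F hF => (h2 F hF).trans (add_le_add le_rfl (hE F))⟩⟩

theorem RF.trans {S0 S1 S : Finset T} {K0 K1 K : T → T → ℝ} {E E' : (T → ℝ) → ℝ}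
    (h : RF S0 K0 S1 K1 E) (h' : RF S1 K1 S K E') : RF S0 K0 S K fun F => E F + E' F :=
  ⟨h'.sub.trans h.sub, fun F => by linarith [h.up F, h'.up F], fun f => by
    obtain ⟨f1, a1, a2⟩ := h'.low f
    obtain ⟨f0, b1, b2⟩ := h.low f1
    refine ⟨f0, fun x hx => (b1 x (h'.sub hx)).trans (a1 x hx), fun F hF => ?_⟩
    have e : ∀ x ∈ S1, F x = f1 x := fun x hx => (hF x (h.sub hx)).trans (b1 x hx)
    have c1 := b2 F hF
    have c2 := a2 F e
    rw [En_congr K1 e] at c2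
    linarith⟩

/-- the two sided comparison with the reference form survives -/
theorem RF.ref {S0 S : Finset T} {K0 K : T → T → ℝ} {E N : (T → ℝ) → ℝ} {θ ε : ℝ}
    (h : RF S0 K0 S K E) (hE : ∀ F, E F ≤ ε * N F) (hU : ∀ F, En S0 K0 F ≤ (1 + θ) * N F)
    (hL : ∀ f : T → ℝ, ∃ F, (∀ x ∈ S0, F x = f x) ∧ (1 - θ) * N F ≤ En S0 K0 f) :
    (∀ F, En S K F ≤ (1 + (θ + ε)) * N F) ∧
      ∀ f : T → ℝ, ∃ F, (∀ x ∈ S, F x = f x) ∧ (1 - (θ + ε)) * N F ≤ En S K f := by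
  refine ⟨fun F => by linarith [h.up F, hU F, hE F], fun f => ?_⟩
  obtain ⟨f', a1, a2⟩ := h.low f
  obtain ⟨F, b1, b2⟩ := hL f'
  refine ⟨F, fun x hx => (b1 x (h.sub hx)).trans (a1 x hx), ?_⟩
  have := a2 F b1
  rw [En_congr K0 b1] at this
  linarith [hE F]

/-- a change of the kernel -/
theorem RF.chg {S : Finset T} {K K' : T → T → ℝ} {k : T → ℝ} {E : (T → ℝ) → ℝ}
    (h : ∀ f c, |En S K' f - En S K f| ≤ ∑ x ∈ S, k x * (f x - c) ^ 2)
    (hE : ∀ F : T → ℝ, ∃ c, ∑ x ∈ S, k x * (F x - c) ^ 2 ≤ E F) : RF S K S K' E :=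
  ⟨subset_rfl, fun F => by
    obtain ⟨c, hc⟩ := hE F
    linarith [(abs_le.1 (h F c)).2], fun f => ⟨f, fun _ _ => rfl, fun F hF => by
    obtain ⟨c, hc⟩ := hE F
    rw [← En_congr K' hF]
    linarith [(abs_le.1 (h F c)).1]⟩⟩

theorem exists_min (S : Finset T) {k : T → ℝ} (hk : ∀ x ∈ S, 0 ≤ k x) (f : T → ℝ) :
    ∃ m, ∀ c, ∑ x ∈ S, k x * (f x - m) ^ 2 ≤ ∑ x ∈ S, k x * (f x - c) ^ 2 := by
  have e : ∀ c, ∑ x ∈ S, k x * (f x - c) ^ 2 =
      ∑ x ∈ S, k x * f x ^ 2 - 2 * c * ∑ x ∈ S, k x * f x + c ^ 2 * ∑ x ∈ S, k x := fun c => by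
    simp only [mul_sum, ← sum_sub_distrib, ← sum_add_distrib]
    exact sum_congr rfl fun x _ => by ring
  rcases (sum_nonneg hk).eq_or_lt with h | h
  · have z := (sum_eq_zero_iff_of_nonneg hk).1 h.symm
    exact ⟨0, fun c => by
      rw [sum_eq_zero fun x hx => by rw [z x hx, zero_mul],
        sum_eq_zero fun x hx => by rw [z x hx, zero_mul]]⟩
  · refine ⟨(∑ x ∈ S, k x * f x) / ∑ x ∈ S, k x, fun c => ?_⟩
    rw [e, e]
    set a := ∑ x ∈ S, k x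
    set b := ∑ x ∈ S, k x * f x
    obtain ⟨m, hm⟩ : ∃ m, m = b / a := ⟨_, rfl⟩
    have : b = m * a := by rw [hm, div_mul_cancel₀ _ h.ne']
    rw [← hm, this]
    nlinarith [mul_nonneg h.le (sq_nonneg (c - m))]

variable [DecidableEq T]

theorem En_split {S : Finset T} (D : Finset T) {K : T → T → ℝ} (hs : ∀ x y, K x y = K y x)
    (f : T → ℝ) : En S K f = En (S \ D) K f + En (S ∩ D) K f +
      ∑ x ∈ S \ D, ∑ y ∈ S ∩ D, K x y * (f x - f y) ^ 2 := by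
  have e : ∀ g : T → ℝ, ∑ x ∈ S, g x = ∑ x ∈ S \ D, g x + ∑ x ∈ S ∩ D, g x := fun g => by
    rw [← sdiff_inter_self_left, sum_sdiff inter_subset_left]
  have c : ∑ x ∈ S ∩ D, ∑ y ∈ S \ D, K x y * (f x - f y) ^ 2 =
      ∑ x ∈ S \ D, ∑ y ∈ S ∩ D, K x y * (f x - f y) ^ 2 := by
    rw [sum_comm]
    exact sum_congr rfl fun x _ => sum_congr rfl fun y _ => by rw [hs y x]; ring
  unfold En
  rw [e]
  simp only [e fun y => K _ y * (f _ - f y) ^ 2, sum_add_distrib]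
  rw [c]; ring

/-- deleting the vertices of `D` -/
theorem RF.del {S : Finset T} (D : Finset T) {K : T → T → ℝ} {E : (T → ℝ) → ℝ}
    (hs : ∀ x y, K x y = K y x) (h0 : ∀ x y, 0 ≤ K x y)
    (hE : ∀ F : T → ℝ, ∃ c, ∑ x ∈ S \ D, (∑ y ∈ S ∩ D, K x y) * (F x - c) ^ 2 ≤ E F) :
    RF S K (S \ D) K E := by
  have k0 : ∀ x ∈ S \ D, 0 ≤ ∑ y ∈ S ∩ D, K x y := fun x _ => sum_nonneg fun y _ => h0 x y
  refine ⟨sdiff_subset, fun F => ?_, fun f => ?_⟩
  · obtain ⟨c, hc⟩ := hE F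
    have a1 : 0 ≤ ∑ x ∈ S \ D, (∑ y ∈ S ∩ D, K x y) * (F x - c) ^ 2 :=
      sum_nonneg fun x hx => mul_nonneg (k0 x hx) (sq_nonneg _)
    have a2 : 0 ≤ En (S ∩ D) K F := div_nonneg (sum_nonneg fun x _ => sum_nonneg fun y _ =>
      mul_nonneg (h0 x y) (sq_nonneg _)) zero_le_two
    have a3 : 0 ≤ ∑ x ∈ S \ D, ∑ y ∈ S ∩ D, K x y * (F x - F y) ^ 2 :=
      sum_nonneg fun x _ => sum_nonneg fun y _ => mul_nonneg (h0 x y) (sq_nonneg _)
    rw [En_split (S := S) D hs]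
    linarith
  · obtain ⟨m, hm⟩ := exists_min (S \ D) k0 f
    refine ⟨fun x => if x ∈ D then m else f x, fun x hx => if_neg (mem_sdiff.1 hx).2,
      fun F hF => ?_⟩
    obtain ⟨c, hc⟩ := hE F
    have e1 : ∀ x ∈ S \ D, F x = f x := fun x hx =>
      (hF x (mem_sdiff.1 hx).1).trans (if_neg (mem_sdiff.1 hx).2)
    have e2 : ∀ x ∈ S ∩ D, F x = m := fun x hx =>
      (hF x (mem_inter.1 hx).1).trans (if_pos (mem_inter.1 hx).2)
    have a1 : En (S ∩ D) K F = 0 := by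
      rw [En_congr K e2]; simp [En]
    have a2 : ∑ x ∈ S \ D, ∑ y ∈ S ∩ D, K x y * (F x - F y) ^ 2 =
        ∑ x ∈ S \ D, (∑ y ∈ S ∩ D, K x y) * (f x - m) ^ 2 := sum_congr rfl fun x hx => by
      rw [sum_mul]
      exact sum_congr rfl fun y hy => by rw [e1 x hx, e2 y hy]
    have a3 : ∑ x ∈ S \ D, (∑ y ∈ S ∩ D, K x y) * (F x - c) ^ 2 =
        ∑ x ∈ S \ D, (∑ y ∈ S ∩ D, K x y) * (f x - c) ^ 2 :=
      sum_congr rfl fun x hx => by rw [e1 x hx]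
    rw [En_split (S := S) D hs, a1, a2, En_congr K e1]
    linarith [hm c]

omit [DecidableEq T] in
/-- the crude bound for a change of the kernel -/
theorem En_chg_le {S : Finset T} {K K' d : T → T → ℝ} (hd : ∀ x y, d x y = d y x)
    (h : ∀ x ∈ S, ∀ y ∈ S, |K' x y - K x y| ≤ d x y) (f : T → ℝ) (c : ℝ) :
    |En S K' f - En S K f| ≤ ∑ x ∈ S, (2 * ∑ y ∈ S, d x y) * (f x - c) ^ 2 := by
  unfold En
  rw [← sub_div, abs_div, abs_two, div_le_iff₀ two_pos, ← sum_sub_distrib]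
  have a1 : ∀ x ∈ S, |∑ y ∈ S, K' x y * (f x - f y) ^ 2 - ∑ y ∈ S, K x y * (f x - f y) ^ 2| ≤
      ∑ y ∈ S, (2 * (d x y * (f x - c) ^ 2) + 2 * (d y x * (f y - c) ^ 2)) := fun x hx => by
    rw [← sum_sub_distrib]
    refine (abs_sum_le_sum_abs _ _).trans (sum_le_sum fun y hy => ?_)
    rw [← sub_mul, abs_mul, abs_of_nonneg (sq_nonneg (f x - f y)), hd y x]
    have b1 := h x hx y hy
    have b2 : (f x - f y) ^ 2 ≤ 2 * (f x - c) ^ 2 + 2 * (f y - c) ^ 2 := by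
      nlinarith [sq_nonneg (f x + f y - 2 * c)]
    nlinarith [mul_le_mul b1 b2 (sq_nonneg _) ((abs_nonneg _).trans b1)]
  refine (abs_sum_le_sum_abs _ _).trans ((sum_le_sum a1).trans (le_of_eq ?_))
  simp only [sum_add_distrib]
  rw [sum_comm (f := fun x y => 2 * (d y x * (f y - c) ^ 2)), ← sum_add_distrib, sum_mul]
  exact sum_congr rfl fun x _ => by
    rw [← mul_sum, ← sum_mul]; ring

/-- a bilinear form that is dominated by a diagonal weight -/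
def Bil (S : Finset T) (D : T → T → ℂ) (k : T → ℝ) : Prop :=
  ∀ u w : T → ℂ, ‖∑ x ∈ S, ∑ y ∈ S, w x * D x y * u y‖ ≤ ∑ x ∈ S, k x * (‖u x‖ ^ 2 + ‖w x‖ ^ 2)

omit [DecidableEq T] in
theorem Bil.zero (S : Finset T) : Bil S (fun _ _ => 0) fun _ => 0 := fun u w => by simp

omit [DecidableEq T] in
theorem Bil.congr {S : Finset T} {D D' : T → T → ℂ} {k k' : T → ℝ} (h : Bil S D k)
    (hD : ∀ x ∈ S, ∀ y ∈ S, D' x y = D x y) (hk : ∀ x ∈ S, k x ≤ k' x) : Bil S D' k' :=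
  fun u w => by
  rw [sum_congr rfl fun x hx => sum_congr rfl fun y hy => by rw [hD x hx y hy]]
  exact (h u w).trans (sum_le_sum fun x hx => mul_le_mul_of_nonneg_right (hk x hx) (by positivity))

omit [DecidableEq T] in
theorem Bil.add {S : Finset T} {D D' : T → T → ℂ} {k k' : T → ℝ} (h : Bil S D k)
    (h' : Bil S D' k') : Bil S (fun x y => D x y + D' x y) fun x => k x + k' x := fun u w => by
  simp only [mul_add (w _), add_mul, sum_add_distrib]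
  exact (norm_add_le _ _).trans (add_le_add (h u w) (h' u w))

theorem Bil.sub {S S' : Finset T} {D : T → T → ℂ} {k : T → ℝ} (h : Bil S D k) (hS : S' ⊆ S) :
    Bil S' D k := fun u w => by
  have := h (fun x => if x ∈ S' then u x else 0) fun x => if x ∈ S' then w x else 0
  have e : ∀ {M : Type} [AddCommMonoid M] (g : T → M), ∑ x ∈ S, (if x ∈ S' then g x else 0) =
      ∑ x ∈ S', g x := fun g => by rw [← sum_filter, filter_mem_eq_inter, inter_eq_right.2 hS]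
  have e1 : ∀ x, k x * (‖if x ∈ S' then u x else 0‖ ^ 2 + ‖if x ∈ S' then w x else 0‖ ^ 2) =
      if x ∈ S' then k x * (‖u x‖ ^ 2 + ‖w x‖ ^ 2) else 0 := fun x => by split_ifs <;> simp
  have e2 : ∀ x, ∑ y ∈ S, (if x ∈ S' then w x else 0) * D x y * (if y ∈ S' then u y else 0) =
      if x ∈ S' then ∑ y ∈ S', w x * D x y * u y else 0 := fun x => by
    split_ifs
    · simp only [mul_ite, mul_zero, e]
    · simp
  simpa only [e1, e2, e] using this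

omit [DecidableEq T] in
/-- the test of Schur -/
theorem Bil.schur {S : Finset T} {D : T → T → ℂ} {d : T → T → ℝ} (hd : ∀ x y, d x y = d y x)
    (h : ∀ x ∈ S, ∀ y ∈ S, ‖D x y‖ ≤ d x y) : Bil S D fun x => (∑ y ∈ S, d x y) / 2 :=
  fun u w => by
  have a1 : ∀ x ∈ S, ‖∑ y ∈ S, w x * D x y * u y‖ ≤
      ∑ y ∈ S, (d x y * ‖w x‖ ^ 2 / 2 + d y x * ‖u y‖ ^ 2 / 2) := fun x hx => by
    refine (norm_sum_le _ _).trans (sum_le_sum fun y hy => ?_)
    rw [norm_mul, norm_mul, hd y x]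
    have b1 := h x hx y hy
    have b2 : ‖w x‖ * ‖u y‖ ≤ ‖w x‖ ^ 2 / 2 + ‖u y‖ ^ 2 / 2 := by
      nlinarith [sq_nonneg (‖w x‖ - ‖u y‖)]
    nlinarith [mul_le_mul b1 b2 (by positivity) ((norm_nonneg _).trans b1)]
  refine (norm_sum_le _ _).trans ((sum_le_sum a1).trans (le_of_eq ?_))
  simp only [sum_add_distrib]
  rw [sum_comm (f := fun x y => d y x * ‖u y‖ ^ 2 / 2), ← sum_add_distrib]
  exact sum_congr rfl fun x _ => by
    rw [← sum_div, ← sum_div, ← sum_mul, ← sum_mul]; ring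

omit [DecidableEq T] in
theorem Bil.norm {S : Finset T} {D : T → T → ℂ} {k : T → ℝ} {δ : ℝ} (h : Bil S D k) (hδ : 0 < δ)
    (hk : ∀ x ∈ S, 2 * k x ≤ δ) (u : T → ℂ) : nS S (ap S D u) ≤ δ * nS S u := by
  have h1 := h u fun x => (δ : ℂ)⁻¹ * (starRingEnd ℂ) (ap S D u x)
  have e1 : ∑ x ∈ S, ∑ y ∈ S, (δ : ℂ)⁻¹ * (starRingEnd ℂ) (ap S D u x) * D x y * u y =
      ((δ⁻¹ * ∑ x ∈ S, ‖ap S D u x‖ ^ 2 : ℝ) : ℂ) := by
    push_cast
    rw [mul_sum]
    refine sum_congr rfl fun x _ => ?_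
    simp only [mul_assoc, ← mul_sum]
    rw [← Complex.conj_mul']; rfl
  have e2 : ∑ x ∈ S, k x * (‖u x‖ ^ 2 + ‖(δ : ℂ)⁻¹ * (starRingEnd ℂ) (ap S D u x)‖ ^ 2) ≤
      ∑ x ∈ S, (δ / 2 * ‖u x‖ ^ 2 + δ⁻¹ / 2 * ‖ap S D u x‖ ^ 2) := sum_le_sum fun x hx => by
    rw [norm_mul, Complex.norm_conj, norm_inv, Complex.norm_real, Real.norm_of_nonneg hδ.le]
    refine (mul_le_mul_of_nonneg_right (by linarith [hk x hx] : k x ≤ δ / 2)
      (by positivity)).trans (le_of_eq ?_)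
    field_simp
  rw [e1, Complex.norm_real] at h1
  rw [sum_add_distrib, ← mul_sum, ← mul_sum] at e2
  have h2 := (le_abs_self _).trans (h1.trans e2)
  rw [← nS_sq, ← nS_sq] at h2
  refine abs_le_of_sq_le_sq' ?_ (mul_nonneg hδ.le (nS_nonneg _ _)) |>.2
  have h3 : δ⁻¹ * nS S (ap S D u) ^ 2 ≤ δ * nS S u ^ 2 := by linarith
  rw [inv_mul_le_iff₀ hδ] at h3
  linarith

end Pool.Agent.P.MP_d0f69c_mp.XS
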