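import Pool.Agent.P.MP_d0f69c_mp.XS.Defs
import Pool.Agent.P.MP_d0f69c_mp.XS.Ward
import Pool.Agent.P.MP_d0f69c_mp.XS.HForm

/-! Ward identities and a priori bounds for the Green function of a state. -/

namespace Pool.Agent.P.MP_d0f69c_mp.XS

open Finset Matrix Complex
open scoped ComplexConjugate

variable {ι : Type} [Fintype ι] [DecidableEq ι]

/-- a dissipative invertible system -/
structure GOK (η : ℝ) (H : Matrix ι ι ℝ) (W : ι → ℂ) : Prop where
  η0 : 0 < η
  symm : ∀ x y, H x y = H y x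
  im : ∀ x, (W x).im ≤ 0
  unit : IsUnit (NW.MM H W).det

variable {η : ℝ} {H : Matrix ι ι ℝ} {W : ι → ℂ}

omit [Fintype ι] in
theorem MM_tr (h : ∀ x y, H x y = H y x) (W : ι → ℂ) : (NW.MM H W)ᵀ = NW.MM H W := by
  ext a b
  by_cases e : a = b
  · rw [e]; rfl
  · simp [NW.MM, h a b, e, Ne.symm e]

theorem GG_sym (h : ∀ x y, H x y = H y x) (W : ι → ℂ) (x y : ι) :
    NW.GG H W x y = NW.GG H W y x := by
  have : (NW.GG H W)ᵀ = NW.GG H W := by rw [NW.GG, transpose_nonsing_inv, MM_tr h]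
  exact (congrFun (congrFun this x) y).symm

namespace GOK

theorem sym (h : GOK η H W) (x y : ι) : NW.GG H W x y = NW.GG H W y x := GG_sym h.symm W x y

theorem a0 (h : GOK η H W) (x : ι) : 0 ≤ aw η W x :=
  div_nonneg (neg_nonneg.2 (h.im x)) h.η0.le

theorem ηa (h : GOK η H W) (x : ι) : η * aw η W x = -(W x).im := mul_div_cancel₀ _ h.η0.ne'

theorem Ksym (h : GOK η H W) (x y : ι) : Kk η W (NW.GG H W) x y = Kk η W (NW.GG H W) y x := by
  simp only [Kk, h.sym x y, mul_comm]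

theorem K0 (h : GOK η H W) (x y : ι) : 0 ≤ Kk η W (NW.GG H W) x y :=
  mul_nonneg (mul_nonneg (h.a0 x) (h.a0 y)) (sq_nonneg _)

theorem diss (h : GOK η H W) :
    Diss (NW.MM H W) (diagonal fun x => ((√(aw η W x) : ℝ) : ℂ)) η := fun w => by
  have e := NW.form_univ h.symm W w
  rw [dotProduct, im_sum]
  refine e.trans ?_
  rw [nq, mul_sum, ← sum_neg_distrib]
  refine sum_congr rfl fun x _ => ?_
  rw [mulVec_diagonal, norm_mul, mul_pow, norm_real, Real.norm_of_nonneg (Real.sqrt_nonneg _),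
    Real.sq_sqrt (h.a0 x), ← mul_assoc, h.ηa]
  ring

theorem row (h : GOK η H W) (x : ι) :
    η * ∑ y, aw η W y * ‖NW.GG H W x y‖ ^ 2 = (NW.GG H W x x).im := by
  rw [ward' h.symm h.unit, mul_sum]
  exact sum_congr rfl fun y _ => by rw [← mul_assoc, h.ηa, h.sym x y]

theorem row_le (h : GOK η H W) (x : ι) (S : Finset ι) :
    η * ∑ y ∈ S, aw η W y * ‖NW.GG H W x y‖ ^ 2 ≤ ‖NW.GG H W x x‖ :=
  (mul_le_mul_of_nonneg_left (sum_le_sum_of_subset_of_nonneg (subset_univ S) fun y _ _ =>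
    mul_nonneg (h.a0 y) (sq_nonneg _)) h.η0.le).trans
    ((h.row x).le.trans ((le_abs_self _).trans (abs_im_le_norm _)))

theorem one_le (h : GOK η H W) (x : ι) {y : ι} (hy : 1 / 2 ≤ aw η W y) :
    η * ‖NW.GG H W x y‖ ^ 2 ≤ 2 * ‖NW.GG H W x x‖ := by
  have := h.row_le x {y}
  rw [sum_singleton] at this
  nlinarith [mul_le_mul_of_nonneg_left (mul_le_mul_of_nonneg_right hy
    (sq_nonneg ‖NW.GG H W x y‖)) h.η0.le]

theorem diag_le (h : GOK η H W) {x : ι} (hx : 1 / 2 ≤ aw η W x) : ‖NW.GG H W x x‖ ≤ 2 / η := by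
  have := h.one_le x hx
  rw [le_div_iff₀ h.η0]
  rcases (norm_nonneg (NW.GG H W x x)).eq_or_lt with e | e
  · rw [← e]; norm_num
  · nlinarith

theorem entry_le (h : GOK η H W) {x y : ι} (hx : 1 / 2 ≤ aw η W x) (hy : 1 / 2 ≤ aw η W y) :
    ‖NW.GG H W x y‖ ≤ 2 / η := by
  have h1 := h.one_le x hy
  have h2 := h.diag_le hx
  have η0 := h.η0
  refine abs_le_of_sq_le_sq' ?_ (by positivity) |>.2
  rw [div_pow, le_div_iff₀ (by positivity)]
  rw [le_div_iff₀ η0] at h2
  nlinarith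

theorem mass_le (h : GOK η H W) {x : ι} (hx : 1 / 2 ≤ aw η W x) (S : Finset ι) :
    ∑ y ∈ S, aw η W y * ‖NW.GG H W x y‖ ^ 2 ≤ 2 / η ^ 2 := by
  have h1 := (h.row_le x S).trans (h.diag_le hx)
  have η0 := h.η0
  rw [le_div_iff₀ η0] at h1
  rw [le_div_iff₀ (by positivity)]
  linarith

/-- the polarised Ward identity -/
theorem ward2 (h : GOK η H W) (x v : ι) :
    η * ‖∑ y, (aw η W y : ℂ) * conj (NW.GG H W x y) * NW.GG H W y v‖ ≤ ‖NW.GG H W x v‖ := by
  set G := NW.GG H W with hG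
  set M := NW.MM H W with hM
  have e1 : M * G = 1 := mul_nonsing_inv _ h.unit
  have e2 : G.map conj * M.map conj = 1 := by
    rw [← Matrix.map_mul, hG, NW.GG, nonsing_inv_mul _ h.unit, Matrix.map_one] <;> simp
  have e3 : M.map conj - M = diagonal fun y => 2 * I * η * (aw η W y : ℂ) := by
    ext a b
    by_cases e : a = b
    · subst e
      have : ((η * aw η W a : ℝ) : ℂ) = (-(W a).im : ℝ) := by rw [h.ηa]
      push_cast at this
      simp only [hM, NW.MM, Matrix.sub_apply, map_apply, if_true, map_add, conj_ofReal,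
        diagonal_apply_eq, mul_assoc, this]
      apply Complex.ext <;> simp
      ring
    · simp [hM, NW.MM, e]
  have e4 : G - G.map conj = G.map conj * (M.map conj - M) * G := by
    rw [Matrix.mul_sub, Matrix.sub_mul, e2, Matrix.one_mul, Matrix.mul_assoc, e1, Matrix.mul_one]
  have e5 : G x v - conj (G x v) = 2 * I * η * ∑ y, (aw η W y : ℂ) * conj (G x y) * G y v := by
    have := congrFun (congrFun e4 x) v
    rw [e3, Matrix.mul_apply] at this
    rw [mul_sum]
    refine this.trans (sum_congr rfl fun y _ => ?_)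
    rw [mul_diagonal, map_apply]; ring
  have e6 := norm_sub_le (G x v) (conj (G x v))
  rw [e5, norm_mul, norm_mul, norm_mul, norm_I, norm_real, Real.norm_of_nonneg h.η0.le,
    norm_conj, Complex.norm_two] at e6
  linarith

/-- the weighted Green function is a contraction -/
theorem bilw (h : GOK η H W) (w u : ι → ℂ) :
    η * ‖∑ x, ∑ y, w x * (√(aw η W x) : ℝ) * NW.GG H W x y * (√(aw η W y) : ℝ) * u y‖ ≤
      (nq w + nq u) / 2 := by
  have h1 := h.diss.contr h.unit h.η0 u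
  set Z := (diagonal fun x => ((√(aw η W x) : ℝ) : ℂ)) * (NW.MM H W)⁻¹ *
    (diagonal fun x => ((√(aw η W x) : ℝ) : ℂ))ᴴ with hZ
  have h2 := dot_cs (star w) (Z *ᵥ u)
  have e : star (star w) ⬝ᵥ (Z *ᵥ u) =
      ∑ x, ∑ y, w x * (√(aw η W x) : ℝ) * NW.GG H W x y * (√(aw η W y) : ℝ) * u y := by
    rw [star_star, dotProduct]
    refine sum_congr rfl fun x _ => ?_
    rw [mulVec, dotProduct, mul_sum]
    refine sum_congr rfl fun y _ => ?_
    rw [hZ, diagonal_conjTranspose, mul_diagonal, diagonal_mul]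
    simp [NW.GG]; ring
  rw [e, nq_star] at h2
  have w0 := nq_nonneg w
  have u0 := nq_nonneg u
  refine abs_le_of_sq_le_sq' ?_ (by positivity) |>.2
  have h3 := mul_le_mul_of_nonneg_left h2 (sq_nonneg η)
  have h4 := mul_le_mul_of_nonneg_left h1 w0
  nlinarith [sq_nonneg (nq w - nq u)]

theorem bil (h : GOK η H W) {S : Finset ι} (hS : ∀ x ∈ S, 1 / 2 ≤ aw η W x) :
    Bil S (NW.GG H W) fun _ => 1 / η := fun u w => by
  have p : ∀ x ∈ S, 0 < √(aw η W x) := fun x hx => Real.sqrt_pos.2 (by linarith [hS x hx])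
  have h1 := h.bilw (fun x => if x ∈ S then w x / (√(aw η W x) : ℝ) else 0)
    fun x => if x ∈ S then u x / (√(aw η W x) : ℝ) else 0
  have n : ∀ z : ι → ℂ, nq (fun x => if x ∈ S then z x / (√(aw η W x) : ℝ) else 0) ≤
      2 * ∑ x ∈ S, ‖z x‖ ^ 2 := fun z => by
    rw [nq, ← sum_subset (subset_univ S) fun x _ hx => by simp [hx], mul_sum]
    refine sum_le_sum fun x hx => ?_
    rw [if_pos hx, norm_div, div_pow, norm_real, Real.norm_of_nonneg (p x hx).le,
      Real.sq_sqrt (h.a0 x), div_le_iff₀ (by linarith [hS x hx])]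
    nlinarith [hS x hx, sq_nonneg ‖z x‖]
  have e : ∑ x, ∑ y, (if x ∈ S then w x / (√(aw η W x) : ℝ) else 0) * (√(aw η W x) : ℝ) *
      NW.GG H W x y * (√(aw η W y) : ℝ) * (if y ∈ S then u y / (√(aw η W y) : ℝ) else 0) =
      ∑ x ∈ S, ∑ y ∈ S, w x * NW.GG H W x y * u y := by
    rw [← sum_subset (subset_univ S) fun x _ hx => by simp [hx]]
    refine sum_congr rfl fun x hx => ?_
    rw [← sum_subset (subset_univ S) fun x _ hx => by simp [hx]]
    refine sum_congr rfl fun y hy => ?_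
    have a : ((√(aw η W x) : ℝ) : ℂ) ≠ 0 := by exact_mod_cast (p x hx).ne'
    have b : ((√(aw η W y) : ℝ) : ℂ) ≠ 0 := by exact_mod_cast (p y hy).ne'
    rw [if_pos hx, if_pos hy]
    field_simp
  rw [e] at h1
  rw [← mul_sum, sum_add_distrib, one_div, ← div_eq_inv_mul, le_div_iff₀ h.η0]
  linarith [n u, n w]

end GOK

/-- the factor of the rank one update -/
noncomputable def tf (W g : ℂ) (b : Bool) : ℂ := (sgn b - W) / (1 + (sgn b - W) * g)

theorem GG_upd (hu : IsUnit (NW.MM H W).det) (v : ι) (b : Bool)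
    (hu' : IsUnit (NW.MM H (Function.update W v (sgn b))).det) (x y : ι) :
    NW.GG H (Function.update W v (sgn b)) x y =
      NW.GG H W x y - tf (W v) (NW.GG H W v v) b * (NW.GG H W x v * NW.GG H W v y) := by
  have e : sgn b = W v + (sgn b - W v) := by ring
  have := rank_one' hu v (sgn b - W v) (by rw [← e]; exact hu') x y
  rw [← e] at this
  exact this

theorem tf_eq {W g : ℂ} (hW : ‖W‖ ≤ 1 / 10) (b : Bool) :
    tf W g b = 1 / (sgn b / (1 - W ^ 2) + (g - phi W)) := by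
  have h1 : ∀ s : ℂ, ‖s‖ = 1 → s - W ≠ 0 := fun s hs e => by
    rw [sub_eq_zero.1 e] at hs; linarith
  have a := h1 1 (by simp)
  have c := h1 (-1) (by simp)
  have c' : 1 + W ≠ 0 := fun e => c (by linear_combination -e)
  have d : 1 - W ^ 2 ≠ 0 := by
    rw [show 1 - W ^ 2 = (1 - W) * (1 + W) by ring]; exact mul_ne_zero a c'
  have d' : W ^ 2 - 1 ≠ 0 := fun e => d (by linear_combination -e)
  have k : sgn b / (1 - W ^ 2) + (g - phi W) = (1 + (sgn b - W) * g) / (sgn b - W) := by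
    cases b
    · simp only [sgn, phi, Bool.false_eq_true, if_false]; field_simp; ring
    · simp only [sgn, phi, if_true]; field_simp; ring
  rw [k, one_div_div, tf]

theorem cpa {W g : ℂ} {m : ℝ} (hW : ‖W‖ ≤ 1 / 10) (hm : ‖g - phi W‖ ≤ m) (m1 : m ≤ 1 / 10) :
    (∀ b, ‖tf W g b‖ ≤ 2) ∧ ‖tf W g true + tf W g false‖ ≤ 2 * (4 * m) ∧ ‖g‖ ≤ 1 := by
  have w2 : ‖W ^ 2‖ ≤ 1 / 100 := by
    rw [norm_pow]; nlinarith [norm_nonneg W]
  have d1 : ‖1 - W ^ 2‖ ≤ 101 / 100 := (norm_sub_le _ _).trans (by rw [norm_one]; linarith)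
  have d2 : 99 / 100 ≤ ‖1 - W ^ 2‖ := by
    have := norm_sub_norm_le 1 (W ^ 2)
    rw [norm_one] at this; linarith
  have s1 : ∀ b, ‖sgn b‖ = 1 := fun b => by cases b <;> simp [sgn]
  have lo : ∀ b, 1 / 2 ≤ ‖sgn b / (1 - W ^ 2) + (g - phi W)‖ := fun b => by
    have h1 : 9 / 10 ≤ ‖sgn b / (1 - W ^ 2)‖ := by
      rw [norm_div, s1, le_div_iff₀ (by linarith)]; linarith
    have h2 := norm_sub_le (sgn b / (1 - W ^ 2) + (g - phi W)) (g - phi W)
    rw [add_sub_cancel_right] at h2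
    linarith
  have t2 : ∀ b, ‖tf W g b‖ ≤ 2 := fun b => by
    rw [tf_eq hW, norm_div, norm_one, div_le_iff₀ (by linarith [lo b])]; linarith [lo b]
  refine ⟨t2, ?_, ?_⟩
  · have n1 : ∀ b, sgn b / (1 - W ^ 2) + (g - phi W) ≠ 0 := fun b e => by
      have := lo b
      rw [e, norm_zero] at this; linarith
    have e : tf W g true + tf W g false = 2 * (g - phi W) * (tf W g true * tf W g false) := by
      rw [tf_eq hW, tf_eq hW, one_div_add_one_div (n1 _) (n1 _), one_div_mul_one_div,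
        mul_one_div]
      congr 1
      simp only [sgn, Bool.false_eq_true, if_false, if_true]; ring
    rw [e, norm_mul, norm_mul, norm_mul, Complex.norm_two]
    have := mul_le_mul (t2 true) (t2 false) (norm_nonneg _) zero_le_two
    nlinarith [mul_le_mul hm this (by positivity) ((norm_nonneg _).trans hm)]
  · have h1 : ‖phi W‖ ≤ 1 / 2 := by
      rw [phi, norm_div, norm_sub_rev, div_le_iff₀ (by linarith)]; linarith
    have h2 := norm_add_le (g - phi W) (phi W)
    rw [sub_add_cancel] at h2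
    linarith

end Pool.Agent.P.MP_d0f69c_mp.XS
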