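import Pool.Agent.P.MP_d0f69c_mp.XS.IfFlow
import Pool.Agent.P.MP_d0f69c_mp.XS.HGr

/-!
The scattering coefficient of a tuned site.
-/

set_option autoImplicit false
set_option linter.dupNamespace false

namespace Pool.Agent.P.MP_d0f69c_mp.XS

namespace FCpaA

theorem deg {a X N T η r u v : ℝ} (η0 : 0 < η) (η1 : η ≤ 1 / 10 ^ 8) (r0 : 0 ≤ r)
    (r1 : r ≤ 1 / 10 ^ 9) (ha : |a - 1| ≤ 1 / 10 ^ 7) (hN : |N - 1| ≤ 1 / 1000)
    (h : η * (X * N - a) = N * u - η * a * N * v) (hu : |u| ≤ η * r) (hv : |v| ≤ r / 1000)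
    (hT : |T - N| ≤ r) : |T - a / X| ≤ 4 * r := by
  obtain ⟨a1, a2⟩ := abs_le.1 ha
  obtain ⟨N1, N2⟩ := abs_le.1 hN
  have h1 : |X * N - a| ≤ 11 / 10 * r := by
    refine le_of_mul_le_mul_left ?_ η0
    have e : η * |X * N - a| = |N * u - η * a * N * v| := by
      rw [← h, abs_mul, abs_of_pos η0]
    have h2 : |N * u| ≤ 1001 / 1000 * (η * r) := by
      rw [abs_mul, abs_of_pos (by linarith : 0 < N)]
      exact mul_le_mul (by linarith) hu (abs_nonneg _) (by norm_num)
    have h3 : |η * a * N * v| ≤ η * (2 * (r / 1000)) := by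
      rw [mul_assoc η, mul_assoc η, abs_mul, abs_of_pos η0, abs_mul,
        abs_of_pos (mul_pos (by linarith : 0 < a) (by linarith : 0 < N))]
      refine mul_le_mul_of_nonneg_left (mul_le_mul ?_ hv (abs_nonneg _) (by norm_num)) η0.le
      nlinarith
    rw [e]
    have := mul_nonneg η0.le r0
    linarith [abs_sub (N * u) (η * a * N * v)]
  obtain ⟨x1, x2⟩ := abs_le.1 h1
  have hX : 9 / 10 ≤ X := by
    by_contra hc
    push Not at hc
    nlinarith
  have X0 : 0 < X := by linarith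
  have h4 : |N - a / X| ≤ 2 * r := by
    rw [show N - a / X = (X * N - a) / X by field_simp, abs_div, abs_of_pos X0, div_le_iff₀ X0]
    nlinarith
  linarith [abs_sub_le T N (a / X)]

end FCpaA

theorem t_cpa : S_CPA := by
  intro W g X η mb t η0 η1 hW ha hm m1 hX ht
  have m0 : 0 ≤ mb := (norm_nonneg _).trans hm
  have m2 : mb ≤ 1 / 10 ^ 17 := m1.trans (by linarith)
  have w2 : ‖W ^ 2‖ ≤ 1 / 10 ^ 14 := by
    rw [norm_pow]; nlinarith [norm_nonneg W]
  have d1 : ‖1 - W ^ 2‖ ≤ 1 + 1 / 10 ^ 14 := (norm_sub_le _ _).trans (by rw [norm_one]; linarith)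
  have d2 : 1 - 1 / 10 ^ 14 ≤ ‖1 - W ^ 2‖ := by
    have := norm_sub_norm_le 1 (W ^ 2)
    rw [norm_one] at this; linarith
  have s0 : 1 - W ^ 2 ≠ 0 := fun e => by rw [e, norm_zero] at d2; norm_num at d2
  have s1 : ∀ b, ‖sgn b‖ = 1 := fun b => by cases b <;> simp [sgn]
  have s2 : ∀ b, sgn b ^ 2 = 1 := fun b => by cases b <;> simp [sgn]
  have hφ : phi W * (1 - W ^ 2) = -W := by
    have : W ^ 2 - 1 ≠ 0 := fun e => s0 (by linear_combination -e)
    rw [phi]; field_simp; ring
  have nφ : ‖phi W‖ * ‖1 - W ^ 2‖ = ‖W‖ := by rw [← norm_mul, hφ, norm_neg]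
  have p1 : ‖phi W‖ ≤ 2 / 10 ^ 7 := by nlinarith [norm_nonneg (phi W)]
  have g1 : ‖g‖ ≤ 1 / 10 ^ 6 := by
    have h2 := norm_add_le (g - phi W) (phi W)
    rw [sub_add_cancel] at h2
    linarith
  set s := 1 - W ^ 2 with hs
  set m := g - phi W with hmd
  have ms : ‖m * s‖ ≤ 101 / 100 * mb := by
    rw [norm_mul]; nlinarith [norm_nonneg m, norm_nonneg s]
  have lo : ∀ b, 99 / 100 ≤ ‖sgn b + m * s‖ := fun b => by
    have h2 := norm_sub_le (sgn b + m * s) (m * s)
    rw [add_sub_cancel_right, s1] at h2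
    linarith
  have n1 : ∀ b, sgn b + m * s ≠ 0 := fun b e => by
    have := lo b
    rw [e, norm_zero] at this; linarith
  have key : ∀ b, t b * (sgn b + m * s) = s := fun b => by
    have h1 : t b = 1 / (sgn b / s + m) := (ht b).trans (tf_eq (hW.trans (by norm_num)) b)
    rw [h1, div_add' _ _ _ s0, one_div_div, div_mul_cancel₀ _ (n1 b)]
  have t1 : ∀ b, ‖t b‖ ≤ 11 / 10 := fun b => by
    have h1 := congrArg norm (key b)
    rw [norm_mul] at h1
    nlinarith [lo b, norm_nonneg (t b)]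
  have t4 : ∀ b, ‖t b ^ 2 - s ^ 2‖ ≤ 4 * mb := fun b => by
    have e : t b ^ 2 - s ^ 2 = -(t b ^ 2 * (m * s * (2 * sgn b + m * s))) := by
      linear_combination (t b * (sgn b + m * s) + s) * key b - t b ^ 2 * s2 b
    have h1 : ‖2 * sgn b + m * s‖ ≤ 21 / 10 := (norm_add_le _ _).trans (by
      rw [norm_mul, s1, Complex.norm_two]; linarith)
    have h2 : ‖t b‖ ^ 2 ≤ 121 / 100 := by nlinarith [t1 b, norm_nonneg (t b)]
    rw [e, norm_neg, norm_mul, norm_pow, norm_mul (m * s)]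
    have h3 := mul_le_mul ms h1 (norm_nonneg _) (by positivity)
    nlinarith [mul_le_mul h2 h3 (by positivity) (by norm_num)]
  refine ⟨g1, t1, ?_, fun b => ?_, by linarith, t4, fun b => ?_⟩
  · have e : t true + t false = 2 * m * (t true * t false) := by
      refine mul_left_cancel₀ s0 ?_
      have k1 := key true
      have k2 := key false
      simp only [sgn, Bool.false_eq_true, if_false, if_true] at k1 k2
      linear_combination -t false * k1 - t true * k2
    rw [e, norm_mul, norm_mul, norm_mul, Complex.norm_two]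
    nlinarith [mul_nonneg (norm_nonneg m) (sq_nonneg (‖t true‖ - ‖t false‖))]
  · have r0 : 0 ≤ mb / η := by positivity
    have er : η * (mb / η) = mb := mul_div_cancel₀ _ η0.ne'
    have r1 : mb / η ≤ 1 / 10 ^ 9 := by rw [div_le_iff₀ η0]; linarith
    have r2 : mb ≤ mb / η / 10 ^ 8 := by nlinarith
    have ea : η * (-W.im / η) = -W.im := mul_div_cancel₀ _ η0.ne'
    have e1 : ‖s‖ ^ 2 * (phi W).im = -W.im * (1 + ‖W‖ ^ 2) := by
      have h1 := congrArg Complex.re hφ
      have h2 := congrArg Complex.im hφ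
      have h3 : s.re = 1 - (W.re ^ 2 - W.im ^ 2) := by simp [hs, sq]
      have h4 : s.im = -(2 * W.re * W.im) := by simp [hs, sq]; ring
      rw [Complex.sq_norm, Complex.sq_norm, Complex.normSq_apply, Complex.normSq_apply]
      simp only [Complex.mul_re, Complex.mul_im, Complex.neg_re, Complex.neg_im] at h1 h2
      linear_combination s.re * h2 - s.im * h1 - W.im * h3 + W.re * h4
    have e2 : ‖s‖ ^ 2 * ‖phi W‖ ^ 2 = ‖W‖ ^ 2 := by rw [← nφ]; ring
    rw [mul_div_assoc 4]
    refine FCpaA.deg (N := ‖s‖ ^ 2) (u := m.im) (v := ‖g‖ ^ 2 - ‖phi W‖ ^ 2) η0 η1 r0 r1 ha ?_ ?_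
      ?_ ?_ ?_
    · rw [abs_le]; constructor <;> nlinarith
    · rw [hmd, Complex.sub_im, hX, mul_sub η, ea]
      linear_combination e1 + W.im * e2
    · rw [er]; exact (Complex.abs_im_le_norm _).trans hm
    · rw [sq_sub_sq, abs_mul, abs_of_nonneg (by positivity)]
      have h1 := (abs_norm_sub_norm_le g (phi W)).trans hm
      have h2 := mul_le_mul (show ‖g‖ + ‖phi W‖ ≤ 1 by linarith) h1 (abs_nonneg _) zero_le_one
      linarith
    · have h1 := (abs_norm_sub_norm_le (t b ^ 2) (s ^ 2)).trans (t4 b)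
      rw [norm_pow, norm_pow] at h1
      linarith
  · have e : (1 - t b * g) * s = t b * (sgn b + W) := by
      have : g = m + phi W := by rw [hmd]; ring
      rw [this]
      linear_combination -key b - t b * hφ
    have h1 := congrArg norm e
    rw [norm_mul, norm_mul] at h1
    have h2 : ‖sgn b + W‖ ≤ 1 + 1 / 10 ^ 7 := (norm_add_le _ _).trans (by rw [s1]; linarith)
    nlinarith [norm_nonneg (t b), norm_nonneg (1 - t b * g),
      mul_le_mul_of_nonneg_left h2 (norm_nonneg (t b)),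
      mul_le_mul_of_nonneg_left d2 (norm_nonneg (1 - t b * g))]

end Pool.Agent.P.MP_d0f69c_mp.XS
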