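import Pool.Agent.P.MP_d0f69c_mp.XS.IfFlow

/-!
Decay during the closing flow.
-/

set_option autoImplicit false
set_option linter.dupNamespace false

open Finset Real
open scoped Matrix

namespace Pool.Agent.P.MP_d0f69c_mp.XS

namespace FDecA

theorem sq_le {g B C n l : ℝ} (hg : 0 ≤ g) (hl : 0 < l) (hn : 0 ≤ n) (hB : B ≤ C)
    (h : g ≤ B * exp (-n / l)) : g ^ 2 ≤ C * (C * exp (-n / (2 * l)) * (1 + n) ^ 2) := by
  have h1 : g ≤ C * exp (-n / l) := h.trans (mul_le_mul_of_nonneg_right hB (exp_pos _).le)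
  have hC : 0 ≤ C := nonneg_of_mul_nonneg_left (hg.trans h1) (exp_pos _)
  have h2 : exp (-n / l) ^ 2 ≤ exp (-n / (2 * l)) := by
    rw [← exp_nat_mul, exp_le_exp]
    have e1 : -n / (2 * l) = -(n / l) / 2 := by field_simp
    have := div_nonneg hn hl.le
    rw [e1, neg_div]
    push_cast
    linarith
  have h3 : 1 ≤ (1 + n) ^ 2 := one_le_pow₀ (by linarith)
  calc g ^ 2 ≤ (C * exp (-n / l)) ^ 2 := pow_le_pow_left₀ hg h1 2
    _ = C * (C * exp (-n / l) ^ 2 * 1) := by ring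
    _ ≤ _ := by gcongr

end FDecA

theorem t_dec (h1 : S_EXA) (h2 : S_CT) (h3 : S_FAR) : S_DEC := by
  intro d M _ E q S c Z Sg X W h hX hW hop
  have hE := h.hE
  have hq := h.hq
  have th : (q.b1 E.η).θ ≤ 1 / 10 ^ 7 := hq.θ_add hE (c := 1) (by norm_num)
  have g0 := h.inv.gok0 hE (by linarith)
  have u1 := (h1 d M E q S c Z Sg X W h hX hW).1
  have hZ : Z ⊆ S.O := fun x hx => S.good_sub (mem_sdiff.1 (mem_inter.1 (h.hZ hx)).1).1
  have w2 : ∀ x ∈ X, ‖W x - S.W x‖ ≤ 2 := fun x hx => by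
    have a1 := (h.inv.opn x (hZ (hX hx))).1
    have a2 : ‖W x‖ = 1 := by rcases hW.2 x hx with e | e <;> simp [e]
    linarith [norm_sub_le (W x) (S.W x)]
  have hΛ : 1 ≤ (q.P : ℝ) ^ 40 / E.η := by
    rw [one_le_div hE.η0]
    linarith [hE.η1, one_le_pow₀ (n := 40) (hq.Pone hE)]
  have hD : Dec (NW.GG S.H W) S.O (q.Bi 2) (q.li E.η 2) :=
    h2 d M E q 1 S.H S.W W S.O X hE hq (by norm_num) g0.symm g0.unit u1 (hX.trans hZ) hW.1 w2
      (h.inv.opLe hE (by linarith)) h.inv.dec fun p u _ => by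
        rw [mul_div_assoc]
        exact locb g0.unit u1 hW.1 w2 hΛ (hop.sub hX) u
  refine ⟨hD, ?_⟩
  obtain ⟨f1, f2⟩ := h3 d M E q hE hq
  have f3 := (f2 2 (by norm_num)).1
  have hl : (0 : ℝ) < q.li E.η 2 := Nat.cast_pos.2 (hq.li_one hE 2)
  have a1 : ∀ v ∈ Z \ X, ∑ y ∈ (S.O \ X) \ bl v (q.D E.η 2), ‖NW.GG S.H W v y‖ ^ 2 ≤
      exp ((q.P : ℝ) ^ 6) * q.τ := fun v hv => by
    refine le_trans ?_ (mul_le_mul_of_nonneg_left f3 (exp_pos _).le)
    rw [mul_sum]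
    refine le_trans (sum_le_sum fun y _ => FDecA.sq_le (norm_nonneg _) hl (Nat.cast_nonneg _)
      (hq.Bi_le (by norm_num)) (hD v (hZ (mem_sdiff.1 hv).1) y)) ?_
    rw [← sum_image (g := fun y => v - y) (f := fun z => exp ((q.P : ℝ) ^ 6) *
      (exp ((q.P : ℝ) ^ 6) * exp (-(nm z : ℝ) / (2 * q.li E.η 2)) * (1 + nm z) ^ 2))
      fun _ _ _ _ e => sub_right_injective e]
    refine sum_le_sum_of_subset_of_nonneg (fun z hz => ?_) fun _ _ _ => by positivity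
    obtain ⟨y, hy, rfl⟩ := mem_image.1 hz
    refine mem_filter.2 ⟨mem_univ _, not_le.1 fun e => (mem_sdiff.1 hy).2 (mem_bl.2 ?_)⟩
    rwa [nm_comm]
  refine (sum_le_card_nsmul _ _ _ a1).trans ?_
  have a2 : ((Z \ X).card : ℝ) ≤ exp ((q.P : ℝ) ^ 6) := by
    refine le_trans (Nat.cast_le.2 ?_) (f1.trans (exp_le_exp.2 (hq.pow_le hE (by norm_num))))
    refine (card_le_card (sdiff_subset.trans (h.hZ.trans inter_subset_right))).trans ?_
    rw [card_ball]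
    exact vol_mono (by have := hq.A_grow' hE; omega)
  have a3 := hq.τ_mul hE (c := 2) (c' := 0) (by norm_num)
  rw [zero_mul, neg_zero, exp_zero, two_mul, exp_add] at a3
  rw [nsmul_eq_mul]
  refine (mul_le_mul_of_nonneg_right a2 (mul_nonneg (exp_pos _).le (Par.OK.τpos q).le)).trans ?_
  linarith

end Pool.Agent.P.MP_d0f69c_mp.XS
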