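import Pool.Agent.P.MP_d0f69c_mp.XS.IfFlow

/-!
Exact facts about a state of the closing flow.
-/

set_option autoImplicit false

open Finset Real
open scoped Matrix

namespace Pool.Agent.P.MP_d0f69c_mp.XS

namespace FExaA

section generic

variable {ι : Type} [Fintype ι] [DecidableEq ι] {η : ℝ} {H : Matrix ι ι ℝ} {W W' : ι → ℂ}
  {X : Finset ι}

omit [Fintype ι] in
theorem cl_eq (h : Cl W X W') : ∃ ω, W' = Wc W ω X := by
  classical
  refine ⟨fun x => decide (W' x = 1), funext fun x => ?_⟩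
  by_cases a : x ∈ X
  · rw [Wc_in a]
    by_cases c : W' x = 1
    · simp [c, sgn]
    · simp [sgn, (h.2 x a).resolve_left c]
  · rw [Wc_out a, h.1 x a]

omit [Fintype ι] in
theorem cl_upd (h : Cl W X W') (v : ι) (b : Bool) :
    Cl W (insert v X) (Function.update W' v (sgn b)) := by
  refine ⟨fun x hx => ?_, fun x hx => ?_⟩
  · rw [mem_insert, not_or] at hx
    rw [Function.update_of_ne hx.1, h.1 x hx.2]
  · by_cases a : x = v
    · subst a; cases b <;> simp [sgn]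
    · rw [Function.update_of_ne a]; exact h.2 x ((mem_insert.1 hx).resolve_left a)

/-- the identity of Ward for a real source -/
theorem wardR (h : GOK η H W) (u : ι → ℝ) :
    η * ∑ y, aw η W y * ‖∑ z, NW.GG H W y z * u z‖ ^ 2 =
      (∑ x, u x * ∑ z, NW.GG H W x z * u z).im := by
  have e := h.diss.ward h.unit fun x => (u x : ℂ)
  rw [nq, sum_congr rfl fun x _ => by
    rw [Matrix.mulVec_diagonal, norm_mul, mul_pow, Complex.norm_real,
      Real.norm_of_nonneg (sqrt_nonneg _), sq_sqrt (h.a0 x)]] at e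
  refine e.trans (congrArg Complex.im (sum_congr rfl fun x _ => ?_))
  rw [Pi.star_apply, Complex.star_def, Complex.conj_ofReal]
  rfl

theorem nsq (g p : ℂ) : ‖g - p‖ ^ 2 = ‖g‖ ^ 2 - 2 * (p * (starRingEnd ℂ) g).re + ‖p‖ ^ 2 := by
  simp only [← Complex.normSq_eq_norm_sq, Complex.normSq_apply, Complex.sub_re, Complex.sub_im,
    Complex.mul_re, Complex.conj_re, Complex.conj_im]
  ring

theorem canc (a s : ℝ) : a * a / (a * s) = a / s := by
  rcases eq_or_ne a 0 with h | h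
  · simp [h]
  · exact mul_div_mul_left _ _ h

end generic

variable {d M : ℕ} [NeZero M] {E : Env d M} {q : Par} {S : St (Tor d M)} {c : Tor d M}
  {Z Sg X : Finset (Tor d M)} {W : Tor d M → ℂ}

theorem θ_le (h : Hyp E q S c Z Sg) : (q.b1 E.η).θ ≤ 1 / 10 ^ 7 := h.hq.θ_add h.hE (by norm_num)

theorem good (h : Hyp E q S c Z Sg) : Z ⊆ S.good := fun _ hx =>
  (mem_sdiff.1 (mem_inter.1 (h.hZ hx)).1).1

theorem gok (h : Hyp E q S c Z Sg) (hX : X ⊆ Z) (hW : Cl S.W X W) : GOK E.η S.H W := by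
  obtain ⟨ω, rfl⟩ := cl_eq hW
  exact h.inv.gok h.hE ((θ_le h).trans_lt (by norm_num)) (hX.trans (good h)) ω

theorem aw0 (h : Hyp E q S c Z Sg) (hW : Cl S.W X W) {x : Tor d M} (hx : x ∉ S.O \ X) :
    aw E.η W x = 0 := by
  obtain ⟨ω, rfl⟩ := cl_eq hW
  by_cases a : x ∈ X
  · exact aw_Wc_in a
  · rw [aw_Wc_out a]; exact h.inv.aw_zero fun e => hx (mem_sdiff.2 ⟨e, a⟩)

theorem sets (h : Hyp E q S c Z Sg) (hX : X ⊆ Z) : (Z ∪ Sg) \ X = Z \ X ∪ Sg := by
  rw [union_sdiff_distrib, sdiff_eq_self_of_disjoint (s := Sg)]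
  exact disjoint_left.2 fun x a e =>
    (mem_sdiff.1 (mem_inter.1 (h.hZ (hX e))).1).2 (mem_inter.1 (h.hSg a)).1

end FExaA

open FExaA in
theorem t_exa : S_EXA := by
  intro d M _ E q S c Z Sg X W h hX hW
  have g := gok h hX hW
  refine ⟨g.unit, g.sym, g.im, fun x hx => ?_, g.opLe fun x hx => ?_, fun u => ?_,
    fun v hv b => ?_⟩
  · have := g.ηa x
    rw [aw0 h hW hx, mul_zero] at this
    exact neg_eq_zero.1 this.symm
  · rw [aw, hW.1 x (mem_sdiff.1 hx).2]
    exact (h.inv.aw_half ((θ_le h).trans (by norm_num)) (mem_sdiff.1 hx).1).1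
  · rw [← wardR g u, sum_subset (subset_univ _) fun y _ hy => by rw [aw0 h hW hy, zero_mul]]
  have g' := gok h (insert_subset (mem_sdiff.1 hv).1 hX) (cl_upd hW v b)
  have e : ∀ x y, NW.GG S.H (Function.update W v (sgn b)) x y =
      NW.GG S.H W x y - tf (W v) (NW.GG S.H W v v) b * (NW.GG S.H W x v * NW.GG S.H W v y) :=
    GG_upd g.unit v b g'.unit
  refine ⟨e, fun x y hx hy => ?_, fun x y => ?_⟩
  · have a : ∀ z, z ≠ v → aw E.η (Function.update W v (sgn b)) z = aw E.η W z := fun z hz => by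
      rw [aw, aw, Function.update_of_ne hz]
    have s : ∑ z ∈ univ.erase v, Kk E.η W (NW.GG S.H W) v z =
        aw E.η W v * ∑ z ∈ (S.O \ X).erase v, aw E.η W z * ‖NW.GG S.H W v z‖ ^ 2 := by
      rw [mul_sum, ← sum_subset (erase_subset_erase v (subset_univ (S.O \ X))) fun z a c => by
        rw [Kk, aw0 h hW (x := z) fun e => c (mem_erase.2 ⟨(mem_erase.1 a).1, e⟩), mul_zero,
          zero_mul]]
      exact sum_congr rfl fun z _ => mul_assoc _ _ _
    change _ = aw E.η W x * aw E.η W y * (-2 * (tf (W v) (NW.GG S.H W v v) b *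
      (NW.GG S.H W x v * NW.GG S.H W v y) * (starRingEnd ℂ) (NW.GG S.H W x y)).re +
      ‖NW.GG S.H W x v‖ ^ 2 * ‖NW.GG S.H W v y‖ ^ 2 * (‖tf (W v) (NW.GG S.H W v v) b‖ ^ 2 -
        aw E.η W v / ∑ z ∈ (S.O \ X).erase v, aw E.η W z * ‖NW.GG S.H W v z‖ ^ 2))
    rw [dK, s, Kk, Kk, Kk, Kk, a x hx, a y hy, e, nsq, norm_mul, norm_mul, ← canc (aw E.η W v)]
    ring
  · rw [Y6, sets h hX]
    refine if_ctx_congr Iff.rfl (fun a => ?_) fun _ => rfl
    have hx := (mem_erase.1 a.1).1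
    have hy := (mem_erase.1 a.2).1
    change _ = if x = y then (1 - S.W v ^ 2) ^ 2 * NW.GG S.H W x v ^ 4 else
      2 * tf (W v) (NW.GG S.H W v v) b * NW.GG S.H W x y * (NW.GG S.H W x v * NW.GG S.H W v y) +
        ((1 - S.W v ^ 2) ^ 2 - tf (W v) (NW.GG S.H W v v) b ^ 2) *
          (NW.GG S.H W x v * NW.GG S.H W v y) ^ 2
    rw [dA, Am, Am, Am, Am, Am, if_neg hx, if_neg hy.symm, if_pos rfl, div_div_eq_mul_div, div_one,
      Function.update_of_ne hx, e, ← hW.1 v (mem_sdiff.1 hv).2]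
    split_ifs with a
    · subst a; rw [g.sym v x]; ring
    · ring

end Pool.Agent.P.MP_d0f69c_mp.XS
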