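import Pool.Agent.P.MP_d0f69c_mp.XS.IfFlow

/-!
The part of the noise of the form that comes from far pairs.
-/

set_option autoImplicit false

open Finset Real

namespace Pool.Agent.P.MP_d0f69c_mp.XS

namespace FFarA

theorem En_ite {T : Type} [Fintype T] [DecidableEq T] (S : Finset T) (k : T → T → ℝ)
    (F : T → ℝ) :
    En S k F = (∑ x, ∑ y, if x ∈ S ∧ y ∈ S then k x y * (F x - F y) ^ 2 else 0) / 2 := by
  unfold En
  congr 1
  rw [← Fintype.sum_ite_mem S]
  refine sum_congr rfl fun x _ => ?_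
  by_cases h : x ∈ S
  · simp only [h, if_true, true_and, Fintype.sum_ite_mem]
  · simp [h]

theorem point {T : Type} [Fintype T] [DecidableEq T] (v : T) (B : Finset T) (k : T → T → ℝ)
    (F b i : T → ℝ) (c : ℝ) (hc : 0 ≤ c) (hb : ∀ x, 0 ≤ b x) (h0 : ∀ x, 0 ≤ i x)
    (h1 : ∀ x ∉ B, i x = 1) (hk : ∀ x y, x ≠ v → y ≠ v → |k x y| ≤ c * (b x * b y)) :
    |En (univ.erase v) k F - En (B.erase v) k F| ≤
      ∑ x, 2 * c * b x * (i x * ∑ y, b y + ∑ y, i y * b y) * (F x - F v) ^ 2 := by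
  have e : ∑ x, 2 * c * b x * (i x * ∑ y, b y + ∑ y, i y * b y) * (F x - F v) ^ 2 =
      (∑ x, ∑ y, (2 * c * b x * (i x * b y + i y * b y) * (F x - F v) ^ 2 +
        2 * c * b y * (i y * b x + i x * b x) * (F y - F v) ^ 2)) / 2 := by
    simp only [sum_add_distrib]
    rw [sum_comm (f := fun x y => 2 * c * b y * (i y * b x + i x * b x) * (F y - F v) ^ 2),
      add_self_div_two]
    refine sum_congr rfl fun x _ => ?_
    rw [← sum_mul, ← mul_sum, sum_add_distrib, ← mul_sum]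
  rw [e, En_ite, En_ite, ← sub_div, abs_div, abs_two, ← sum_sub_distrib]
  refine div_le_div_of_nonneg_right ((abs_sum_le_sum_abs _ _).trans (sum_le_sum fun x _ => ?_))
    zero_le_two
  rw [← sum_sub_distrib]
  refine (abs_sum_le_sum_abs _ _).trans (sum_le_sum fun y _ => ?_)
  have e2 : 2 * c * b x * (i x * b y + i y * b y) * (F x - F v) ^ 2 +
      2 * c * b y * (i y * b x + i x * b x) * (F y - F v) ^ 2 =
      (i x + i y) * (c * (b x * b y) * (2 * (F x - F v) ^ 2 + 2 * (F y - F v) ^ 2)) := by ring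
  have p : 0 ≤ c * (b x * b y) * (2 * (F x - F v) ^ 2 + 2 * (F y - F v) ^ 2) :=
    mul_nonneg (mul_nonneg hc (mul_nonneg (hb x) (hb y))) (by positivity)
  have p2 := add_nonneg (h0 x) (h0 y)
  rw [e2]
  by_cases h2 : x ∈ B.erase v ∧ y ∈ B.erase v
  · rw [if_pos h2, if_pos ⟨by simpa using (mem_erase.1 h2.1).1,
      by simpa using (mem_erase.1 h2.2).1⟩, sub_self, abs_zero]
    exact mul_nonneg p2 p
  rw [if_neg h2, sub_zero]
  split_ifs with h3
  · have hx := (mem_erase.1 h3.1).1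
    have hy := (mem_erase.1 h3.2).1
    have h4 : 1 ≤ i x + i y := by
      by_cases h5 : x ∈ B
      · have := h1 y fun h6 => h2 ⟨mem_erase.2 ⟨hx, h5⟩, mem_erase.2 ⟨hy, h6⟩⟩
        linarith [h0 x]
      · linarith [h1 x h5, h0 y]
    refine le_trans ?_ (le_mul_of_one_le_left p h4)
    rw [abs_mul, abs_of_nonneg (sq_nonneg (F x - F y))]
    exact mul_le_mul (hk x y hx hy) (by nlinarith [sq_nonneg (F x + F y - 2 * F v)]) (sq_nonneg _)
      (mul_nonneg hc (mul_nonneg (hb x) (hb y)))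
  · rw [abs_zero]
    exact mul_nonneg p2 p

theorem kb {a a' g b b' B : ℝ} (hB : 1 ≤ B) (h0 : 0 ≤ a) (h0' : 0 ≤ a') (hg0 : 0 ≤ g)
    (h : a ≤ b) (h' : a' ≤ b') (hb : b ≤ B) (hb' : b' ≤ B) (hg : g ≤ B) :
    10 * (a * a' * g + a ^ 2 * a' ^ 2) ≤ 20 * B ^ 2 * (b * b') := by
  have e1 : a * a' ≤ b * b' := mul_le_mul h h' h0' (h0.trans h)
  have e2 : a * a' ≤ B ^ 2 := by
    rw [sq]; exact mul_le_mul (h.trans hb) (h'.trans hb') h0' (by linarith)
  have e3 : g ≤ B ^ 2 := by nlinarith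
  have e0 := mul_nonneg h0 h0'
  have e4 := mul_le_mul e1 e3 hg0 (e0.trans e1)
  have e5 := mul_le_mul e1 e2 e0 (e0.trans e1)
  nlinarith

theorem num {d M : ℕ} [NeZero M] {E : Env d M} {q : Par} (hE : E.OK) (hq : q.OK E) :
    80 * q.Bi 2 ^ 2 * (q.Bi 2 * exp (2 * (q.P : ℝ) ^ 2) * q.τ) * E.CS ≤ 1 / (q.P : ℝ) ^ 4 := by
  have hP := hq.Ppos hE
  have hB := hq.Bi_le (i := 2) (by norm_num)
  have hB0 : 0 ≤ q.Bi 2 := zero_le_one.trans (hq.Bi_one 2)
  have hτ := (Par.OK.τpos q).le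
  have c1 := hE.ref.c1
  have h1 : 80 * E.CS ≤ q.P := by nlinarith [hq.CS_le hE]
  have h2 : exp (2 * (q.P : ℝ) ^ 2) ≤ exp ((q.P : ℝ) ^ 6) :=
    exp_le_exp.2 (hq.pow_lt hE (by norm_num) (by norm_num))
  have h3 : (q.P : ℝ) ^ 5 ≤ exp ((q.P : ℝ) ^ 6) := by
    linarith [add_one_le_exp ((q.P : ℝ) ^ 6), hq.pow_le hE (a := 5) (b := 6) (by norm_num)]
  have h4 := hq.τ_mul hE (c := 5) (c' := 0) (by norm_num)
  rw [zero_mul, neg_zero, exp_zero, show (5 : ℝ) = (5 : ℕ) by norm_num, exp_nat_mul] at h4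
  rw [le_div_iff₀ (by positivity)]
  calc _ = q.τ * (q.Bi 2 ^ 3 * exp (2 * (q.P : ℝ) ^ 2) * (80 * E.CS * (q.P : ℝ) ^ 4)) := by ring
    _ ≤ q.τ * (exp ((q.P : ℝ) ^ 6) ^ 3 * exp ((q.P : ℝ) ^ 6) * (q.P * (q.P : ℝ) ^ 4)) := by
        gcongr
    _ ≤ q.τ * (exp ((q.P : ℝ) ^ 6) ^ 3 * exp ((q.P : ℝ) ^ 6) * exp ((q.P : ℝ) ^ 6)) := by
        rw [← pow_succ']; gcongr
    _ ≤ 1 := le_of_eq_of_le (by ring) h4

end FFarA

open FFarA in
theorem t_fare (h : S_FAR) : S_FARE := by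
  intro d M _ E q hE hq
  obtain ⟨hf, hs⟩ := (h d M E q hE hq).2 2 (by norm_num)
  have hB := hq.Bi_one 2
  have hl : (0 : ℝ) < q.li E.η 2 := by exact_mod_cast hq.li_one hE 2
  set β : Tor d M → ℝ := fun z => q.Bi 2 * exp (-(nm z : ℝ) / q.li E.η 2) with hβ
  set i : Tor d M → ℝ := fun z => if q.D E.η 2 < nm z then 1 else 0 with hi
  have β0 : ∀ z, 0 ≤ β z := fun z => by simp only [hβ]; positivity
  have i0 : ∀ z, 0 ≤ i z := fun z => by simp only [hi]; positivity
  have βB : ∀ z, β z ≤ q.Bi 2 := fun z => mul_le_of_le_one_right (by linarith)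
    (exp_le_one_iff.2 (div_nonpos_of_nonpos_of_nonneg (by simp) hl.le))
  have βe : ∀ z : Tor d M,
      exp (-(nm z : ℝ) / q.li E.η 2) ≤ exp (-(nm z : ℝ) / (2 * q.li E.η 2)) := fun z => by
    rw [exp_le_exp, neg_div, neg_div, neg_le_neg_iff]
    exact div_le_div_of_nonneg_left (by positivity) hl (by linarith)
  have w1 : ∀ z : Tor d M, (1 : ℝ) ≤ (1 + nm z) ^ 2 := fun z =>
    one_le_pow₀ (le_add_of_nonneg_right (by positivity))
  have S0 := sum_nonneg fun y (_ : y ∈ univ) => β0 y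
  have S1 := sum_nonneg fun y (_ : y ∈ univ) => mul_nonneg (i0 y) (β0 y)
  have κ0 : ∀ z, 0 ≤ 2 * (20 * q.Bi 2 ^ 2) * β z * (i z * ∑ y, β y + ∑ y, i y * β y) := fun z =>
    mul_nonneg (mul_nonneg (by positivity) (β0 z)) (add_nonneg (mul_nonneg (i0 z) S0) S1)
  refine ⟨fun z => 2 * (20 * q.Bi 2 ^ 2) * β z * (i z * ∑ y, β y + ∑ y, i y * β y), κ0,
    fun F => ?_, fun O k G v F hv hG hk0 hk => ?_⟩
  · have N0 := NF_nonneg hE.ref.p0 F
    have c1 := hE.ref.c1
    have a0 : ∑ y, β y ≤ ∑ y, β y * (1 + nm y) ^ 2 :=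
      sum_le_sum fun y _ => le_mul_of_one_le_right (β0 y) (w1 y)
    have a1 : ∑ y, i y * β y ≤ ∑ y, i y * β y * (1 + nm y) ^ 2 :=
      sum_le_sum fun y _ => le_mul_of_one_le_right (mul_nonneg (i0 y) (β0 y)) (w1 y)
    have hT : (∑ y, β y * (1 + nm y) ^ 2) * ∑ y, i y * β y * (1 + nm y) ^ 2 ≤
        q.Bi 2 * exp (2 * (q.P : ℝ) ^ 2) * q.τ := by
      have hτ := (Par.OK.τpos q).le
      rcases hs with hs | hs
      · have : ∀ y, i y = 0 := fun y => if_neg (by
          have := tn_le_half y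
          have := hq.l_le_li hE 2
          have := hq.li_le_D hE 2
          simp only [nm]
          omega)
        simp only [this, zero_mul, sum_const_zero, mul_zero]
        positivity
      refine mul_le_mul ?_ (le_trans ?_ hf) (S1.trans a1) (by positivity)
      · refine le_trans ?_ (mul_le_mul_of_nonneg_left hs (by linarith))
        rw [mul_sum]
        refine sum_le_sum fun y _ => ?_
        rw [← mul_assoc]
        exact mul_le_mul_of_nonneg_right (mul_le_mul_of_nonneg_left (βe y) (by linarith))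
          (sq_nonneg _)
      · rw [sum_filter]
        refine sum_le_sum fun y _ => ?_
        simp only [hi]
        split_ifs
        · rw [one_mul]
          exact mul_le_mul_of_nonneg_right (mul_le_mul (hq.Bi_le (by norm_num)) (βe y)
            (exp_pos _).le (exp_pos _).le) (sq_nonneg _)
        · simp
    rw [sum_comm]
    calc _ ≤ ∑ z, 2 * (20 * q.Bi 2 ^ 2) * β z * (i z * ∑ y, β y + ∑ y, i y * β y) *
          (E.CS * (1 + nm z) ^ 2 * NF E.p F) := sum_le_sum fun z _ => by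
          rw [← mul_sum]
          refine mul_le_mul_of_nonneg_left ((hE.ref.shift z F).trans ?_) (κ0 z)
          have l1 : (1 : ℝ) ≤ (E.l0 : ℝ) ^ 2 := one_le_pow₀ (by exact_mod_cast hE.ref.l1)
          have := div_le_self (sq_nonneg (nm z : ℝ)) l1
          have : (0 : ℝ) ≤ nm z := by positivity
          gcongr
          nlinarith
      _ = 40 * q.Bi 2 ^ 2 * ((∑ y, β y) * ∑ y, i y * β y * (1 + nm y) ^ 2 +
          (∑ y, β y * (1 + nm y) ^ 2) * ∑ y, i y * β y) * E.CS * NF E.p F := by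
          rw [mul_sum univ _ (∑ y, β y), sum_mul univ _ (∑ y, i y * β y), ← sum_add_distrib,
            mul_sum, sum_mul, sum_mul]
          exact sum_congr rfl fun z _ => by ring
      _ ≤ 40 * q.Bi 2 ^ 2 * (q.Bi 2 * exp (2 * (q.P : ℝ) ^ 2) * q.τ +
          q.Bi 2 * exp (2 * (q.P : ℝ) ^ 2) * q.τ) * E.CS * NF E.p F := by
          gcongr _ * ?_ * _ * _
          exact add_le_add ((mul_le_mul_of_nonneg_right a0 (S1.trans a1)).trans hT)
            ((mul_le_mul_of_nonneg_left a1 (S0.trans a0)).trans hT)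
      _ ≤ _ := mul_le_mul_of_nonneg_right (le_of_eq_of_le (by ring) (num hE hq)) N0
  · have := point v (bl v (q.D E.η 2)) k F (fun x => β (x - v)) (fun x => i (x - v))
      (20 * q.Bi 2 ^ 2) (by positivity) (fun x => β0 _) (fun x => i0 _)
      (fun x hx => if_pos (by rwa [mem_bl, not_le] at hx)) fun x y hx hy => by
        by_cases ho : x ∈ O ∧ y ∈ O
        · have g : ∀ z, ‖G v z‖ ≤ β (z - v) := fun z => by
            have := hG v hv z
            rwa [nm_comm] at this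
          exact (hk x ho.1 y ho.2 hx hy).trans (kb hB (norm_nonneg _) (norm_nonneg _)
            (norm_nonneg _) (g x) (g y) (βB _) (βB _) ((hG x ho.1 y).trans (βB _)))
        · rw [hk0 x y hx hy (not_and_or.1 ho), abs_zero]
          exact mul_nonneg (by positivity) (mul_nonneg (β0 _) (β0 _))
    refine this.trans (le_of_eq ?_)
    rw [Fintype.sum_equiv (Equiv.subRight v) (fun x => β (x - v)) β fun _ => rfl,
      Fintype.sum_equiv (Equiv.subRight v) (fun x => i (x - v) * β (x - v))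
        (fun x => i x * β x) fun _ => rfl]
    exact Fintype.sum_equiv (Equiv.subRight v) _ _ fun x => by simp

end Pool.Agent.P.MP_d0f69c_mp.XS
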