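import Pool.Agent.P.MP_d0f69c_mp.XS.IfFlow

/-!
Histories that follow the keys.
-/

set_option autoImplicit false
set_option linter.dupNamespace false

open Finset Real

namespace Pool.Agent.P.MP_d0f69c_mp.XS

theorem t_hist : S_HIST := by
  intro ι _ _ κ Z ω W hκ t
  induction t with
  | zero =>
    refine ⟨[], ?_, ?_, ?_, ?_, ?_⟩
    · simp [pre_zero]
    · simp
    · simp
    · rw [pre_zero, Wc_empty]; rfl
    · intro V _ f
      rw [pre_zero, sum_empty]; rfl
  | succ t ih =>
    obtain ⟨h, h1, h2, h3, h4, h5⟩ := ih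
    by_cases hv : ∃ v ∈ Z, κ v = t
    · obtain ⟨v, hv, rfl⟩ := hv
      refine ⟨(v, ω v) :: h, ?_, ?_, ?_, ?_, ?_⟩
      · rw [List.map_cons, List.toFinset_cons, h1, pre_succ hκ hv]
      · rw [List.map_cons, List.pairwise_cons]
        refine ⟨fun y hy => ?_, h2⟩
        have : y ∈ pre κ Z (κ v) := by rw [← h1]; exact List.mem_toFinset.2 hy
        exact (mem_pre.1 this).2
      · intro w hw
        rcases List.mem_cons.1 hw with a | a
        · rw [a]
        · exact h3 w a
      · rw [Wc_succ hκ hv, ← h4]; rfl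
      · intro V _ f
        rw [pre_succ hκ hv, sum_insert (not_mem_pre v), ← h5 V f, add_comm]
        have e : hs h = pre κ Z (κ v) := h1
        show Sm W f h + f (Wh W h) (hs h) v (ω v) = _
        rw [h4, e]
    · have e := pre_succ' (κ := κ) (Z := Z) (t := t) fun v a b => hv ⟨v, a, b⟩
      rw [e]
      exact ⟨h, h1, h2, h3, h4, h5⟩

end Pool.Agent.P.MP_d0f69c_mp.XS
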