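import Pool.Agent.P.MP_d0f69c_mp.XS.IfFlow

/-!
The monitor of the amplitudes.
-/

set_option autoImplicit false

open Finset Real

namespace Pool.Agent.P.MP_d0f69c_mp.XS

theorem t_m1 : S_M1 := by
  intro ι _ _ q σ hq F x hx y hy hxy z0 l hl
  have hP : 1 ≤ q.P := le_trans (by norm_num) hq.P9
  have hμ := hq.μ0
  have hm := (F.mr x).1
  have hm0 : 0 < σ.mr x := hμ.trans_le hm
  have hb := hq.mb_le.1
  have hyR : y ∈ σ.R := (mem_union.1 hy).elim (fun h => F.rR h) fun h => F.sR h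
  have s1 : q.μ ≤ √(σ.mr x * q.μ) := le_sqrt_of_sq_le (by nlinarith)
  have s2 : √(σ.mr x * q.μ) ^ 2 = σ.mr x * q.μ := sq_sqrt (by positivity)
  set s := √(σ.mr x * q.μ)
  have s0 : 0 < s := hμ.trans_le s1
  have l0 : 0 ≤ l := by rw [hl]; positivity
  have l1 : l * s * q.P ^ 39 * q.P ^ 3 = 3 := by rw [hl]; field_simp
  have l2 : l * s * q.P ^ 39 ≤ 1 / 1000 := by
    have a : q.P ≤ q.P ^ 3 := le_self_pow₀ hP (by norm_num)
    have b : 0 ≤ l * s * q.P ^ 39 := by positivity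
    nlinarith [hq.P9]
  have l3 : l * q.mb ≤ 1 / 25 := by
    have : l * q.μ * q.P ^ 39 ≤ l * s * q.P ^ 39 := by gcongr
    unfold Np.mb
    linarith
  have l4 : l ^ 2 * (q.P ^ 20 * (σ.mr x * q.μ)) ≤ 1 / 1000 := by
    have a : q.P ^ 20 ≤ q.P ^ 78 := pow_le_pow_right₀ hP (by norm_num)
    have b : (l * s * q.P ^ 39) ^ 2 ≤ (1 / 1000) ^ 2 := pow_le_pow_left₀ (by positivity) l2 2
    have c : (l * s) ^ 2 * q.P ^ 20 ≤ (l * s) ^ 2 * q.P ^ 78 :=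
      mul_le_mul_of_nonneg_left a (sq_nonneg _)
    rw [← s2]
    nlinarith
  set T := (σ.rem.erase x).erase y with hT
  have T1 : T ⊆ σ.rem.erase x := erase_subset _ _
  have T2 : T ⊆ σ.rem.erase y := erase_subset_erase _ (erase_subset _ _)
  have rO : σ.rem ⊆ σ.Op := F.rR.trans F.RO
  have r1 : ∑ v ∈ T, ‖σ.G x v‖ ^ 2 ≤ 11 / 10 := le_trans (sum_le_sum_of_subset_of_nonneg
    (T1.trans (erase_subset_erase _ rO)) fun _ _ _ => sq_nonneg _) (F.row x (F.RO hx))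
  have r2 : ∑ v ∈ T, ‖σ.G y v‖ ^ 2 ≤ 11 / 10 := le_trans (sum_le_sum_of_subset_of_nonneg
    (T2.trans (erase_subset_erase _ rO)) fun _ _ _ => sq_nonneg _) (F.row y (F.RO hyR))
  have r3 : ∑ v ∈ T, ‖σ.G x v‖ ^ 4 ≤ 25 * (q.P ^ 20 * σ.mr x ^ 2) := le_trans
    (sum_le_sum_of_subset_of_nonneg T1 fun _ _ _ => by positivity) (F.k4 x hx)
  have r4 : ∑ v ∈ T, ‖σ.G y v‖ ^ 4 ≤ 25 * (q.P ^ 20 * q.μ ^ 2) := le_trans
    (sum_le_sum_of_subset_of_nonneg T2 fun _ _ _ => by positivity) (F.mg y hy ▸ F.k4 y hyR)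
  have g1 : ∑ v ∈ T, ‖σ.G x v‖ * ‖σ.G y v‖ ≤ 11 / 10 := by
    have : ∑ v ∈ T, ‖σ.G x v‖ * ‖σ.G y v‖ ≤ ∑ v ∈ T, (‖σ.G x v‖ ^ 2 + ‖σ.G y v‖ ^ 2) / 2 :=
      sum_le_sum fun v _ => by nlinarith [sq_nonneg (‖σ.G x v‖ - ‖σ.G y v‖)]
    rw [← sum_div, sum_add_distrib] at this
    linarith
  have g2 : ∑ v ∈ T, (‖σ.G x v‖ * ‖σ.G y v‖) ^ 2 ≤ 25 * (q.P ^ 20 * (σ.mr x * q.μ)) := by
    have : ∑ v ∈ T, 2 * (σ.mr x * q.μ) * (‖σ.G x v‖ * ‖σ.G y v‖) ^ 2 ≤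
        ∑ v ∈ T, (q.μ ^ 2 * ‖σ.G x v‖ ^ 4 + σ.mr x ^ 2 * ‖σ.G y v‖ ^ 4) :=
      sum_le_sum fun v _ => by
        nlinarith [sq_nonneg (q.μ * ‖σ.G x v‖ ^ 2 - σ.mr x * ‖σ.G y v‖ ^ 2)]
    rw [← mul_sum, sum_add_distrib, ← mul_sum, ← mul_sum] at this
    refine le_of_mul_le_mul_left (this.trans ?_) (by positivity : 0 < 2 * (σ.mr x * q.μ))
    nlinarith [mul_le_mul_of_nonneg_left r3 (sq_nonneg q.μ),
      mul_le_mul_of_nonneg_left r4 (sq_nonneg (σ.mr x))]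
  have key := sum_exp_le T (c := fun v => l * (121 / 100 * q.mb * (‖σ.G x v‖ * ‖σ.G y v‖)) +
      (l * (11 / 10 * (‖σ.G x v‖ * ‖σ.G y v‖))) ^ 2 / 2) (fun _ _ => le_rfl)
    (fun _ _ => by positivity) (by
      have e : ∀ v, l * (121 / 100 * q.mb * (‖σ.G x v‖ * ‖σ.G y v‖)) +
          (l * (11 / 10 * (‖σ.G x v‖ * ‖σ.G y v‖))) ^ 2 / 2 =
          121 / 100 * (l * q.mb) * (‖σ.G x v‖ * ‖σ.G y v‖) +
            121 / 200 * l ^ 2 * (‖σ.G x v‖ * ‖σ.G y v‖) ^ 2 := fun v => by ring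
      simp only [e]
      rw [sum_add_distrib, ← mul_sum, ← mul_sum]
      nlinarith [mul_le_mul_of_nonneg_left g1 (mul_nonneg l0 hb.le),
        mul_le_mul_of_nonneg_left g2 (sq_nonneg l)])
  refine le_trans ?_ (mul_le_of_le_one_left (pot_pos l _).le key)
  rw [sum_mul]
  refine sum_le_sum fun v hv => ?_
  have hv' := mem_of_mem_erase (T1 hv)
  have t1 := F.t1 v hv' true
  have t2 := F.t1 v hv' false
  have n0 : 0 ≤ ‖σ.G x v‖ * ‖σ.G y v‖ := by positivity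
  have e : ∀ b, σ.G' v b x y - z0 = σ.G x y - z0 + -(σ.t v b * (σ.G x v * σ.G y v)) := fun b => by
    rw [Sx.G', F.sym v y]; ring
  have := pot_two l0 (σ.G x y - z0) (-(σ.t v true * (σ.G x v * σ.G y v)))
    (-(σ.t v false * (σ.G x v * σ.G y v)))
    (μ := 121 / 100 * q.mb * (‖σ.G x v‖ * ‖σ.G y v‖)) (ο := 11 / 10 * (‖σ.G x v‖ * ‖σ.G y v‖))
    (by
      rw [← neg_add, norm_neg, ← add_mul, norm_mul, norm_mul, ← mul_assoc 2]
      refine mul_le_mul_of_nonneg_right ((F.t2 v hv').trans ?_) n0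
      have a := pow_le_pow_left₀ (norm_nonneg _) t1 2
      have b := pow_le_pow_left₀ (norm_nonneg _) t2 2
      refine (mul_le_mul (add_le_add a b) (F.mis v (mem_union_left _ hv')) (norm_nonneg _)
        (by positivity)).trans_eq ?_
      ring)
    (by
      rw [neg_sub_neg, ← sub_mul, norm_mul, norm_mul, ← mul_assoc 2]
      exact mul_le_mul_of_nonneg_right ((norm_sub_le _ _).trans (by linarith)) n0)
  rw [e, e]
  linarith

end Pool.Agent.P.MP_d0f69c_mp.XS
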