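import Pool.Agent.P.MP_d0f69c_mp.XS.FM5C

/-!
Drift and variation of the noise of the Dirichlet form.
-/

set_option autoImplicit false
set_option linter.dupNamespace false
set_option linter.unusedSectionVars false

open Finset Real

namespace Pool.Agent.P.MP_d0f69c_mp.XS

namespace FM5A

open FM5CA

variable {ι : Type} [Fintype ι] [DecidableEq ι] {q : Np} {σ : Sx ι}

theorem Eb_eq {S : Finset ι} {k : ι → ι → ℝ} (hk : ∀ x y, k x y = k y x) (φ ψ : ι → ℝ) (c : ℝ) :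
    Eb S k φ ψ = ∑ x ∈ S, (∑ y ∈ S, k x y * (φ x - φ y)) * (ψ x - c) := by
  have h1 : ∑ x ∈ S, ∑ y ∈ S, k x y * (φ x - φ y) * (ψ y - c) =
      -∑ x ∈ S, ∑ y ∈ S, k x y * (φ x - φ y) * (ψ x - c) := by
    rw [sum_comm, ← sum_neg_distrib]
    refine sum_congr rfl fun x _ => ?_
    rw [← sum_neg_distrib]
    exact sum_congr rfl fun y _ => by rw [hk y x]; ring
  have h2 : ∑ x ∈ S, ∑ y ∈ S, k x y * ((φ x - φ y) * (ψ x - ψ y)) =
      ∑ x ∈ S, ∑ y ∈ S, k x y * (φ x - φ y) * (ψ x - c) -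
        ∑ x ∈ S, ∑ y ∈ S, k x y * (φ x - φ y) * (ψ y - c) := by
    rw [← sum_sub_distrib]
    refine sum_congr rfl fun x _ => ?_
    rw [← sum_sub_distrib]
    exact sum_congr rfl fun y _ => by ring
  simp only [Eb, h2, h1, sum_mul]
  ring

/-- the mean of the differences along the star -/
noncomputable def QQ (σ : Sx ι) (φ : ι → ℝ) (v x : ι) : ℝ :=
  ∑ y ∈ (σ.B v).erase v, σ.a y * ‖σ.G v y‖ ^ 2 * (φ x - φ y)

/-- the source of the noise -/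
noncomputable def xi (σ : Sx ι) (φ : ι → ℝ) (v : ι) (τ : ℂ) (ε : ℝ) (x : ι) : ℝ :=
  σ.a x * (-2 * (τ * σ.G x v * SS σ φ x v).re + ‖σ.G x v‖ ^ 2 * ε * QQ σ φ v x)

/-- the defect of the star -/
noncomputable def ep (σ : Sx ι) (v : ι) (b : Bool) : ℝ :=
  ‖σ.t v b‖ ^ 2 - σ.a v / ∑ z ∈ σ.Op.erase v, σ.a z * ‖σ.G v z‖ ^ 2

/-- the energy of the star -/
noncomputable def st (σ : Sx ι) (φ : ι → ℝ) (v : ι) : ℝ :=
  ∑ x ∈ σ.Op, ‖σ.G x v‖ ^ 2 * (φ x - φ v) ^ 2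

theorem st0 (φ : ι → ℝ) (v : ι) : 0 ≤ st σ φ v := sum_nonneg fun _ _ => by positivity

theorem inner_eq (φ : ι → ℝ) (v : ι) (b : Bool) (x : ι) :
    ∑ y ∈ (σ.B v).erase v, σ.dk v b x y * (φ x - φ y) = xi σ φ v (σ.t v b) (ep σ v b) x := by
  unfold xi SS QQ
  rw [mul_sum, Complex.re_sum, mul_sum, mul_sum, ← sum_add_distrib, mul_sum]
  refine sum_congr rfl fun y _ => ?_
  have e : σ.t v b * σ.G x v * ((starRingEnd ℂ) (σ.G x y) * (φ x - φ y : ℝ) * (σ.a y * σ.G v y)) =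
      ((σ.a y * (φ x - φ y) : ℝ) : ℂ) *
        (σ.t v b * (σ.G x v * σ.G v y) * (starRingEnd ℂ) (σ.G x y)) := by
    push_cast; ring
  rw [e, Complex.re_ofReal_mul]
  unfold Sx.dk ep
  ring

theorem Eb_xi (h : Fx q σ) (φ ψ : ι → ℝ) (c : ℝ) (v : ι) (b : Bool) :
    Eb ((σ.B v).erase v) (σ.dk v b) φ ψ =
      ∑ x ∈ (σ.B v ∩ σ.Op).erase v, xi σ φ v (σ.t v b) (ep σ v b) x * (ψ x - c) := by
  rw [Eb_eq (fun x y => ?_) φ ψ c]
  · simp only [inner_eq]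
    refine (sum_subset (erase_subset_erase _ inter_subset_left) fun y hy hy' => ?_).symm
    have : y ∉ σ.Op := fun ho =>
      hy' (mem_erase.2 ⟨(mem_erase.1 hy).1, mem_inter.2 ⟨(mem_erase.1 hy).2, ho⟩⟩)
    simp [xi, h.a0 y this]
  · unfold Sx.dk
    rw [h.sym x v, h.sym y v, h.sym y x]
    ring_nf

theorem xi_le (h : Fx q σ) (φ : ι → ℝ) (v : ι) (τ : ℂ) (ε : ℝ) {x : ι} (hx : x ∈ σ.Op) :
    |xi σ φ v τ ε x| ≤ ‖σ.G x v‖ *
      (21 / 10 * ‖τ‖ * ‖SS σ φ x v‖ + |ε| * (‖σ.G x v‖ * |σ.a x * QQ σ φ v x|)) := by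
  have hx' := abs_le.1 (h.a1 x hx)
  have h1 : |(τ * σ.G x v * SS σ φ x v).re| ≤ ‖τ‖ * ‖σ.G x v‖ * ‖SS σ φ x v‖ :=
    (Complex.abs_re_le_norm _).trans (le_of_eq (by rw [norm_mul, norm_mul]))
  have h2 : |σ.a x * (-2 * (τ * σ.G x v * SS σ φ x v).re)| ≤
      21 / 10 * (‖τ‖ * ‖σ.G x v‖ * ‖SS σ φ x v‖) := by
    rw [← mul_assoc, abs_mul]
    exact mul_le_mul (abs_le.2 ⟨by linarith, by linarith⟩) h1 (abs_nonneg _) (by norm_num)
  have h3 : |σ.a x * (‖σ.G x v‖ ^ 2 * ε * QQ σ φ v x)| =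
      ‖σ.G x v‖ * (|ε| * (‖σ.G x v‖ * |σ.a x * QQ σ φ v x|)) := by
    simp only [abs_mul, abs_pow, abs_norm]; ring
  unfold xi
  rw [mul_add]
  refine (abs_add_le _ _).trans ?_
  rw [h3]
  linarith

theorem rowT (h : Fx q σ) {v : ι} (hv : v ∈ σ.Op) :
    ∑ x ∈ (σ.B v ∩ σ.Op).erase v, ‖σ.G x v‖ ^ 2 ≤ 11 / 10 := by
  simp only [fun x => h.sym x v]
  exact (sum_le_sum_of_subset_of_nonneg (erase_subset_erase _ inter_subset_right)
    fun _ _ _ => by positivity).trans (h.row v hv)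

theorem stT (φ : ι → ℝ) (v : ι) :
    ∑ x ∈ (σ.B v ∩ σ.Op).erase v, ‖σ.G x v‖ ^ 2 * (φ x - φ v) ^ 2 ≤ st σ φ v :=
  sum_le_sum_of_subset_of_nonneg ((erase_subset _ _).trans inter_subset_right)
    fun _ _ _ => by positivity

theorem QQ_le (h : Fx q σ) (φ : ι → ℝ) {v : ι} (hv : v ∈ σ.Op) (x : ι) :
    QQ σ φ v x ^ 2 ≤ 5 / 2 * ((φ x - φ v) ^ 2 + st σ φ v) := by
  have hT : ∀ y ∈ (σ.B v ∩ σ.Op).erase v, y ∈ σ.Op := fun y hy =>
    (mem_inter.1 (mem_erase.1 hy).2).2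
  have e : QQ σ φ v x = ∑ y ∈ (σ.B v ∩ σ.Op).erase v,
      (σ.a y * ‖σ.G y v‖) * (‖σ.G y v‖ * (φ x - φ y)) := by
    unfold QQ
    rw [← sum_subset (s₁ := (σ.B v ∩ σ.Op).erase v) (erase_subset_erase _ inter_subset_left)]
    · exact sum_congr rfl fun y _ => by rw [h.sym y v]; ring
    · intro y hy hy'
      have : y ∉ σ.Op := fun ho =>
        hy' (mem_erase.2 ⟨(mem_erase.1 hy).1, mem_inter.2 ⟨(mem_erase.1 hy).2, ho⟩⟩)
      simp [h.a0 y this]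
  have hr := rowT h hv
  have h1 : ∑ y ∈ (σ.B v ∩ σ.Op).erase v, (σ.a y * ‖σ.G y v‖) ^ 2 ≤ 112 / 100 := by
    refine (sum_le_sum (g := fun y => 101 / 100 * ‖σ.G y v‖ ^ 2) fun y hy => ?_).trans ?_
    · have := abs_le.1 (h.a1 y (hT y hy))
      rw [mul_pow]
      exact mul_le_mul_of_nonneg_right (by nlinarith) (sq_nonneg _)
    · rw [← mul_sum]; linarith
  have h2 : ∑ y ∈ (σ.B v ∩ σ.Op).erase v, (‖σ.G y v‖ * (φ x - φ y)) ^ 2 ≤
      22 / 10 * ((φ x - φ v) ^ 2 + st σ φ v) := by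
    refine (sum_le_sum (g := fun y => 2 * (φ x - φ v) ^ 2 * ‖σ.G y v‖ ^ 2 +
      2 * (‖σ.G y v‖ ^ 2 * (φ y - φ v) ^ 2)) fun y _ => ?_).trans ?_
    · nlinarith [sq_nonneg (‖σ.G y v‖ * ((φ x - φ v) + (φ y - φ v)))]
    · rw [sum_add_distrib, ← mul_sum, ← mul_sum]
      have := mul_le_mul_of_nonneg_left hr (sq_nonneg (φ x - φ v))
      linarith [stT (σ := σ) φ v, st0 (σ := σ) φ v]
  rw [e]
  refine (sum_mul_sq_le_sq_mul_sq _ _ _).trans ((mul_le_mul h1 h2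
    (sum_nonneg fun _ _ => sq_nonneg _) (by norm_num)).trans ?_)
  linarith [st0 (σ := σ) φ v, sq_nonneg (φ x - φ v)]

theorem VV_le (h : Fx q σ) (φ : ι → ℝ) {v : ι} (hv : v ∈ σ.Op) :
    ∑ x ∈ (σ.B v ∩ σ.Op).erase v, (‖σ.G x v‖ * |σ.a x * QQ σ φ v x|) ^ 2 ≤ 6 * st σ φ v := by
  refine (sum_le_sum (g := fun x => 26 / 10 * (‖σ.G x v‖ ^ 2 * (φ x - φ v) ^ 2) +
    26 / 10 * st σ φ v * ‖σ.G x v‖ ^ 2) fun x hx => ?_).trans ?_
  · have h1 := abs_le.1 (h.a1 x (mem_inter.1 (mem_erase.1 hx).2).2)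
    have h2 := mul_le_mul (show σ.a x ^ 2 ≤ 104 / 100 by nlinarith) (QQ_le h φ hv x) (sq_nonneg _)
      (by norm_num)
    have h3 := mul_le_mul_of_nonneg_left h2 (sq_nonneg ‖σ.G x v‖)
    rw [mul_pow, sq_abs, mul_pow]
    linarith
  · rw [sum_add_distrib, ← mul_sum, ← mul_sum]
    have := mul_le_mul_of_nonneg_left (rowT h hv) (st0 (σ := σ) φ v)
    linarith [stT (σ := σ) φ v, st0 (σ := σ) φ v]

theorem A1_le (φ : ι → ℝ) (v : ι) :
    ∑ x ∈ (σ.B v ∩ σ.Op).erase v, ‖SS σ φ x v‖ ^ 2 ≤ ∑ x ∈ σ.Op, ‖SS σ φ x v‖ ^ 2 :=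
  sum_le_sum_of_subset_of_nonneg ((erase_subset _ _).trans inter_subset_right)
    fun _ _ _ => by positivity

/-- the two norms of the source -/
theorem norms (h : Fx q σ) (φ : ι → ℝ) {v : ι} (hv : v ∈ σ.Op) {τ : ℂ} {ε ε0 : ℝ}
    (hτ : ‖τ‖ ≤ 11 / 10) (hε : |ε| ≤ ε0) :
    ∑ x ∈ (σ.B v ∩ σ.Op).erase v, xi σ φ v τ ε x ^ 2 ≤
      11 * ∑ x ∈ (σ.B v ∩ σ.Op).erase v, ‖σ.G x v‖ ^ 2 * ‖SS σ φ x v‖ ^ 2 +
        14 * (ε0 ^ 2 * st σ φ v) ∧
    (∑ x ∈ (σ.B v ∩ σ.Op).erase v, |xi σ φ v τ ε x|) ^ 2 ≤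
      12 * ∑ x ∈ σ.Op, ‖SS σ φ x v‖ ^ 2 + 14 * (ε0 ^ 2 * st σ φ v) := by
  set T := (σ.B v ∩ σ.Op).erase v with hT
  set V : ι → ℝ := fun x => ‖σ.G x v‖ * |σ.a x * QQ σ φ v x| with hV
  set u : ι → ℝ := fun x => 231 / 100 * ‖SS σ φ x v‖ + ε0 * V x with hu
  have h1 : ∀ x ∈ T, |xi σ φ v τ ε x| ≤ ‖σ.G x v‖ * u x := fun x hx => by
    refine (xi_le h φ v τ ε (mem_inter.1 (mem_erase.1 hx).2).2).trans
      (mul_le_mul_of_nonneg_left (add_le_add ?_ ?_) (norm_nonneg _))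
    · exact mul_le_mul_of_nonneg_right (by linarith) (norm_nonneg _)
    · exact mul_le_mul_of_nonneg_right hε (by positivity)
  have h2 : ∀ x, u x ^ 2 ≤ 107 / 10 * ‖SS σ φ x v‖ ^ 2 + 2 * (ε0 ^ 2 * V x ^ 2) := fun x => by
    simp only [hu]
    nlinarith [sq_nonneg (231 / 100 * ‖SS σ φ x v‖ - ε0 * V x), sq_nonneg ‖SS σ φ x v‖]
  have h3 : ∑ x ∈ T, ε0 ^ 2 * V x ^ 2 ≤ 6 * (ε0 ^ 2 * st σ φ v) := by
    rw [← mul_sum]
    linarith [mul_le_mul_of_nonneg_left (VV_le h φ hv) (sq_nonneg ε0)]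
  have hr := rowT h hv
  have h0 : 0 ≤ ε0 ^ 2 * st σ φ v := mul_nonneg (sq_nonneg _) (st0 φ v)
  constructor
  · refine (sum_le_sum (g := fun x => 11 * (‖σ.G x v‖ ^ 2 * ‖SS σ φ x v‖ ^ 2) +
      22 / 10 * (ε0 ^ 2 * V x ^ 2)) fun x hx => ?_).trans ?_
    · have h4 := pow_le_pow_left₀ (abs_nonneg _) (h1 x hx) 2
      have h5 := mul_le_mul_of_nonneg_left (h2 x) (sq_nonneg ‖σ.G x v‖)
      have h6 := mul_le_mul_of_nonneg_right ((single_le_sum (f := fun x => ‖σ.G x v‖ ^ 2)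
        (fun _ _ => sq_nonneg _) hx).trans hr) (show 0 ≤ ε0 ^ 2 * V x ^ 2 by positivity)
      have h7 : 0 ≤ ‖σ.G x v‖ ^ 2 * ‖SS σ φ x v‖ ^ 2 := by positivity
      rw [sq_abs, mul_pow] at h4
      linarith
    · rw [sum_add_distrib, ← mul_sum, ← mul_sum _ _ (22 / 10 : ℝ)]
      linarith
  · have h4 := pow_le_pow_left₀ (sum_nonneg fun _ _ => abs_nonneg _) (sum_le_sum h1) 2
    have h5 := sum_le_sum fun x (_ : x ∈ T) => h2 x
    rw [sum_add_distrib, ← mul_sum, ← mul_sum _ _ (2 : ℝ)] at h5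
    have h6 := mul_le_mul hr h5 (sum_nonneg fun _ _ => sq_nonneg _) (by norm_num)
    have h7 := A1_le (σ := σ) φ v
    have h8 : 0 ≤ ∑ x ∈ T, ‖SS σ φ x v‖ ^ 2 := sum_nonneg fun _ _ => sq_nonneg _
    linarith [sum_mul_sq_le_sq_mul_sq T (fun x => ‖σ.G x v‖) u]

/-- the drift of one site -/
theorem drift (hq : q.OK) (h : Fx q σ) (φ : ι → ℝ) {v : ι} (hv : v ∈ σ.rem) :
    |∑ b : Bool, Eb ((σ.B v).erase v) (σ.dk v b) φ φ| ≤
      q.mb / q.η * (3 * q.η ^ 2 * ∑ x ∈ σ.Op, ‖SS σ φ x v‖ ^ 2 + 31 * st σ φ v) := by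
  have hO := h.RO (h.rR hv)
  have hη := hq.η0
  have hm := hq.mb_le.1
  set r := q.mb / q.η with hr
  have r0 : 0 < r := by positivity
  have hτ : ‖σ.t v true + σ.t v false‖ ≤ 5 / 2 * (r * q.η) := by
    have h1 := pow_le_pow_left₀ (norm_nonneg _) (h.t1 v hv true) 2
    have h2 := pow_le_pow_left₀ (norm_nonneg _) (h.t1 v hv false) 2
    rw [hr, div_mul_cancel₀ _ hη.ne']
    exact (h.t2 v hv).trans (mul_le_mul (by linarith) (h.mis v (mem_union_left _ hv))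
      (norm_nonneg _) (by norm_num))
  have hε : |ep σ v true + ep σ v false| ≤ 8 * r := by
    have h1 : |ep σ v true| ≤ 4 * q.mb / q.η := h.t3 v hv true
    have h2 : |ep σ v false| ≤ 4 * q.mb / q.η := h.t3 v hv false
    rw [mul_div_assoc] at h1 h2
    linarith [abs_add_le (ep σ v true) (ep σ v false)]
  rw [Fintype.sum_bool, Eb_xi h φ φ (φ v), Eb_xi h φ φ (φ v), ← sum_add_distrib]
  refine (abs_sum_le_sum_abs _ _).trans ((sum_le_sum (g := fun x =>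
    r * (3 * q.η ^ 2 * ‖SS σ φ x v‖ ^ 2 + 4 * (‖σ.G x v‖ * |σ.a x * QQ σ φ v x|) ^ 2 +
      7 * (‖σ.G x v‖ ^ 2 * (φ x - φ v) ^ 2))) fun x hx => ?_).trans ?_)
  · have e : xi σ φ v (σ.t v true) (ep σ v true) x + xi σ φ v (σ.t v false) (ep σ v false) x =
        xi σ φ v (σ.t v true + σ.t v false) (ep σ v true + ep σ v false) x := by
      simp only [xi, add_mul, Complex.add_re]; ring
    rw [← add_mul, e, abs_mul]
    set V := ‖σ.G x v‖ * |σ.a x * QQ σ φ v x| with hV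
    have V0 : 0 ≤ V := by positivity
    have h1 : |xi σ φ v (σ.t v true + σ.t v false) (ep σ v true + ep σ v false) x| ≤
        ‖σ.G x v‖ * (r * (6 * (q.η * ‖SS σ φ x v‖) + 8 * V)) := by
      refine (xi_le h φ v _ _ (mem_inter.1 (mem_erase.1 hx).2).2).trans
        (mul_le_mul_of_nonneg_left ?_ (norm_nonneg _))
      have h2 := mul_le_mul_of_nonneg_right hτ (norm_nonneg (SS σ φ x v))
      have h3 := mul_le_mul_of_nonneg_right hε V0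
      have h4 : 0 ≤ r * q.η * ‖SS σ φ x v‖ := by positivity
      linarith
    refine (mul_le_mul_of_nonneg_right h1 (abs_nonneg _)).trans ?_
    rw [← sq_abs (φ x - φ v), ← mul_pow, mul_comm ‖σ.G x v‖ (r * _), mul_assoc, mul_assoc]
    refine mul_le_mul_of_nonneg_left ?_ r0.le
    nlinarith [sq_nonneg (q.η * ‖SS σ φ x v‖ - ‖σ.G x v‖ * |φ x - φ v|),
      sq_nonneg (V - ‖σ.G x v‖ * |φ x - φ v|)]
  · rw [← mul_sum, sum_add_distrib, sum_add_distrib, ← mul_sum, ← mul_sum, ← mul_sum]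
    refine mul_le_mul_of_nonneg_left ?_ r0.le
    have := mul_le_mul_of_nonneg_left (A1_le (σ := σ) φ v) (show 0 ≤ 3 * q.η ^ 2 by positivity)
    linarith [VV_le h φ hO, stT (σ := σ) φ v]

end FM5A

open FM5A FM5CA in
theorem t_m5 (hC : S_M5C) : S_M5 := by
  intro ι _ _ q σ N Z' hq h hZ hN hD φ
  have hP1 : 1 ≤ q.P := le_trans (by norm_num) hq.P9
  have hP : 0 < q.P := by linarith
  have hη := hq.η0
  obtain ⟨m0, m1, -⟩ := hq.mb_le
  have N0 : ∀ ψ, 0 ≤ N ψ := fun ψ => by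
    have : 0 ≤ En σ.Op (fun x y => σ.a x * σ.a y * ‖σ.G x y‖ ^ 2) ψ :=
      div_nonneg (sum_nonneg fun x hx => sum_nonneg fun y hy => by
        have h1 : 0 ≤ σ.a x := by linarith [(abs_le.1 (h.a1 x hx)).1]
        have h2 : 0 ≤ σ.a y := by linarith [(abs_le.1 (h.a1 y hy)).1]
        positivity) (by norm_num)
    linarith [hN ψ]
  have n0 := N0 φ
  obtain ⟨c1, c2, c3⟩ := hC ι q σ hq h φ _ (hN φ)
  set A1 : ι → ℝ := fun v => ∑ x ∈ σ.Op, ‖SS σ φ x v‖ ^ 2 with hA1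
  set A2 : ι → ℝ := fun v => ∑ x ∈ (σ.B v ∩ σ.Op).erase v, ‖σ.G x v‖ ^ 2 * ‖SS σ φ x v‖ ^ 2
    with hA2
  have a1 : ∀ v, 0 ≤ A1 v := fun v => sum_nonneg fun _ _ => by positivity
  have a2 : ∀ v, 0 ≤ A2 v := fun v => sum_nonneg fun _ _ => by positivity
  have d1 : q.η ^ 2 * ∑ v ∈ Z', A1 v ≤ 80 * N φ := by
    have := mul_le_mul_of_nonneg_left ((sum_le_sum_of_subset_of_nonneg hZ
      fun v _ _ => a1 v).trans c1) (sq_nonneg q.η)
    refine this.trans (le_of_eq ?_)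
    field_simp; ring
  have d2 : ∑ v ∈ Z', A2 v ≤ 2 * N φ / q.P ^ 180 :=
    (sum_le_sum_of_subset_of_nonneg hZ fun v _ _ => a2 v).trans c2
  have d3 : ∑ v ∈ Z', st σ φ v ≤ 6 * N φ :=
    ((sum_le_sum_of_subset_of_nonneg hZ fun v _ _ => st0 φ v).trans c3).trans (by linarith)
  have r1 : q.mb / q.η ≤ 1 / q.P ^ 160 := by
    rw [div_le_iff₀ hη]; exact m1.trans (le_of_eq (by ring))
  have big : ∀ k : ℕ, 10 ^ 9 ≤ q.P ^ (k + 1) := fun k =>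
    hq.P9.trans (le_self_pow₀ hP1 k.succ_ne_zero)
  refine ⟨?_, ?_⟩
  · rw [sum_product]
    refine (abs_sum_le_sum_abs _ _).trans ((sum_le_sum fun v hv => drift hq h φ (hZ hv)).trans ?_)
    rw [← mul_sum, sum_add_distrib, ← mul_sum, ← mul_sum]
    refine (mul_le_mul r1 (show _ ≤ 426 * N φ by linarith) (add_nonneg (mul_nonneg (by positivity)
      (sum_nonneg fun v _ => a1 v)) (mul_nonneg (by norm_num) (sum_nonneg fun v _ => st0 φ v)))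
      (by positivity)).trans ?_
    rw [← mul_assoc]
    refine mul_le_mul_of_nonneg_right ?_ n0
    rw [div_mul_eq_mul_div, div_le_div_iff₀ (by positivity) (by positivity)]
    have := mul_le_mul_of_nonneg_right (big 151) (pow_pos hP 8).le
    have e : q.P ^ (151 + 1) * q.P ^ 8 = q.P ^ 160 := by ring
    linarith [pow_pos hP 8]
  set ε := 4 * q.mb / q.η with hε
  have e1 : ε ^ 2 ≤ 1 / q.P ^ 180 := by
    have h1 : ε ≤ 4 / q.P ^ 160 := by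
      rw [hε, mul_div_assoc]; exact (mul_le_mul_of_nonneg_left r1 (by norm_num)).trans
        (le_of_eq (by ring))
    refine (pow_le_pow_left₀ (by positivity) h1 2).trans ?_
    rw [div_pow, div_le_div_iff₀ (by positivity) (by positivity)]
    have := mul_le_mul_of_nonneg_right (big 139) (pow_pos hP 180).le
    have e : q.P ^ (139 + 1) * q.P ^ 180 = (q.P ^ 160) ^ 2 := by ring
    linarith [pow_pos hP 180]
  have s0 : ∀ v, 0 ≤ ε ^ 2 * st σ φ v := fun v => mul_nonneg (sq_nonneg _) (st0 φ v)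
  refine ⟨fun z => (2 + q.P ^ 40) * (11 * A2 z.1 + 14 * (ε ^ 2 * st σ φ z.1)) +
    q.η ^ 2 / q.P ^ 40 * (12 * A1 z.1 + 14 * (ε ^ 2 * st σ φ z.1)), fun z => ?_, ?_, ?_⟩
  · have := a1 z.1; have := a2 z.1; have := s0 z.1; positivity
  · rw [sum_product]
    simp only [sum_const, card_univ, Fintype.card_bool, nsmul_eq_mul, ← mul_sum, sum_add_distrib]
    have d4 : ε ^ 2 * ∑ v ∈ Z', st σ φ v ≤ 6 * (N φ / q.P ^ 180) :=
      (mul_le_mul e1 d3 (sum_nonneg fun v _ => st0 φ v) (by positivity)).trans (le_of_eq (by ring))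
    have p40 : 1 ≤ q.P ^ 40 := one_le_pow₀ hP1
    have d5 : q.P ^ 40 * (N φ / q.P ^ 180) ≤ N φ / q.P ^ 40 := by
      rw [← mul_div_assoc, div_le_div_iff₀ (by positivity) (by positivity)]
      have h1 : q.P ^ 80 ≤ q.P ^ 180 := pow_le_pow_right₀ hP1 (by norm_num)
      have e : q.P ^ 40 * N φ * q.P ^ 40 = N φ * q.P ^ 80 := by ring
      rw [e]; exact mul_le_mul_of_nonneg_left h1 n0
    have d6 : (2 + q.P ^ 40) * (11 * ∑ v ∈ Z', A2 v + 14 * (ε ^ 2 * ∑ v ∈ Z', st σ φ v)) ≤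
        3 * q.P ^ 40 * (106 * (N φ / q.P ^ 180)) := by
      rw [mul_div_assoc] at d2
      exact mul_le_mul (by linarith) (by linarith) (add_nonneg (mul_nonneg (by norm_num)
        (sum_nonneg fun v _ => a2 v)) (mul_nonneg (by norm_num) (mul_nonneg (sq_nonneg _)
        (sum_nonneg fun v _ => st0 φ v)))) (by positivity)
    have d7 : q.η ^ 2 * (ε ^ 2 * ∑ v ∈ Z', st σ φ v) ≤ 6 * N φ := by
      have h1 : N φ / q.P ^ 180 ≤ N φ := div_le_self n0 (one_le_pow₀ hP1)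
      have h2 : q.η ^ 2 ≤ 1 := pow_le_one₀ hη.le (hq.η1.trans (by norm_num))
      exact (mul_le_of_le_one_left (mul_nonneg (sq_nonneg _) (sum_nonneg fun v _ => st0 φ v))
        h2).trans (by linarith)
    have d8 : q.η ^ 2 / q.P ^ 40 * (12 * ∑ v ∈ Z', A1 v + 14 * (ε ^ 2 * ∑ v ∈ Z', st σ φ v)) ≤
        1044 * (N φ / q.P ^ 40) := by
      rw [div_mul_eq_mul_div, ← mul_div_assoc]
      exact div_le_div_of_nonneg_right (by linarith) (by positivity)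
    have d9 : 10 ^ 9 * (N φ / q.P ^ 40) ≤ 1 / q.P ^ 15 * N φ := by
      have e : 1 / q.P ^ 15 * N φ = q.P ^ (24 + 1) * (N φ / q.P ^ 40) := by field_simp; ring
      rw [e]; exact mul_le_mul_of_nonneg_right (big 24) (by positivity)
    have d0 : 0 ≤ N φ / q.P ^ 40 := by positivity
    push_cast
    linarith
  · rintro ⟨v, b⟩ hz ψ
    have hv := hZ (mem_product.1 hz).1
    obtain ⟨n1, n2⟩ := norms h φ (h.RO (h.rR hv)) (h.t1 v hv b)
      (show |ep σ v b| ≤ ε from h.t3 v hv b)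
    set l2 := 11 * A2 v + 14 * (ε ^ 2 * st σ φ v) with hl2
    have l0 : 0 ≤ l2 := by have := a2 v; have := s0 v; positivity
    have h1 := hD (fun x => if x ∈ (σ.B v ∩ σ.Op).erase v then xi σ φ v (σ.t v b) (ep σ v b) x
      else 0) ψ (√l2) (sqrt_nonneg _) (by
        rw [sq_sqrt l0]
        simpa only [ite_pow, zero_pow two_ne_zero, sum_ite_mem, univ_inter] using n1)
    simp only [ite_mul, zero_mul, apply_ite abs, abs_zero, sum_ite_mem, univ_inter] at h1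
    rw [Eb_xi h φ ψ 0]
    simp only [sub_zero]
    refine h1.trans (mul_le_mul_of_nonneg_right ?_ (N0 ψ))
    set L := ∑ x ∈ (σ.B v ∩ σ.Op).erase v, |xi σ φ v (σ.t v b) (ep σ v b) x| with hL
    have h2 : 2 * (q.η * √l2 * L) ≤ q.P ^ 40 * √l2 ^ 2 + q.η ^ 2 / q.P ^ 40 * L ^ 2 := by
      have e : q.P ^ 40 * √l2 ^ 2 + q.η ^ 2 / q.P ^ 40 * L ^ 2 - 2 * (q.η * √l2 * L) =
          (q.P ^ 40 * √l2 - q.η * L) ^ 2 / q.P ^ 40 := by field_simp; ring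
      have : 0 ≤ (q.P ^ 40 * √l2 - q.η * L) ^ 2 / q.P ^ 40 := by positivity
      linarith
    have h3 := mul_le_mul_of_nonneg_left n2 (show 0 ≤ q.η ^ 2 / q.P ^ 40 by positivity)
    rw [sq_sqrt l0] at h2 ⊢
    linarith

end Pool.Agent.P.MP_d0f69c_mp.XS
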