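import Pool.Agent.P.MP_d0f69c_mp.XS.IfFlow

/-!
The commutator sums behind the noise of the Dirichlet form.
-/

set_option autoImplicit false
set_option linter.dupNamespace false
set_option linter.unusedSectionVars false

open Finset Real

namespace Pool.Agent.P.MP_d0f69c_mp.XS

namespace FM5CA

variable {ι : Type} [Fintype ι] [DecidableEq ι] {q : Np} {σ : Sx ι}

theorem cs (S : Finset ι) (f g : ι → ℂ) :
    ‖∑ y ∈ S, f y * g y‖ ^ 2 ≤ (∑ y ∈ S, ‖f y‖ ^ 2) * ∑ y ∈ S, ‖g y‖ ^ 2 := by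
  refine le_trans ?_ (sum_mul_sq_le_sq_mul_sq S (fun y => ‖f y‖) fun y => ‖g y‖)
  exact pow_le_pow_left₀ (norm_nonneg _)
    ((norm_sum_le _ _).trans (le_of_eq (sum_congr rfl fun y _ => norm_mul _ _))) 2

theorem three (A B C : ℂ) : ‖A - B - C‖ ^ 2 ≤ 3 * (‖A‖ ^ 2 + ‖B‖ ^ 2 + ‖C‖ ^ 2) := by
  have h : ‖A - B - C‖ ≤ ‖A‖ + ‖B‖ + ‖C‖ :=
    (norm_sub_le _ _).trans (add_le_add (norm_sub_le _ _) le_rfl)
  have h2 := pow_le_pow_left₀ (norm_nonneg _) h 2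
  nlinarith [sq_nonneg (‖A‖ - ‖B‖), sq_nonneg (‖A‖ - ‖C‖), sq_nonneg (‖B‖ - ‖C‖)]

/-- the row of the commutator -/
noncomputable def hh (σ : Sx ι) (φ : ι → ℝ) (x y : ι) : ℂ :=
  (starRingEnd ℂ) (σ.G x y) * (φ x - φ y : ℝ) * σ.a y

/-- the inner sum -/
noncomputable def SS (σ : Sx ι) (φ : ι → ℝ) (x v : ι) : ℂ :=
  ∑ y ∈ (σ.B v).erase v, (starRingEnd ℂ) (σ.G x y) * (φ x - φ y : ℝ) * (σ.a y * σ.G v y)

theorem SS_eq (h : Fx q σ) (φ : ι → ℝ) (x v : ι) :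
    SS σ φ x v = ∑ y ∈ (σ.B v ∩ σ.Op).erase v, σ.G v y * hh σ φ x y := by
  unfold SS hh
  rw [← sum_subset (s₁ := (σ.B v ∩ σ.Op).erase v) (erase_subset_erase _ inter_subset_left)]
  · exact sum_congr rfl fun y _ => by ring
  · intro y hy hy'
    have : y ∉ σ.Op := fun ho =>
      hy' (mem_erase.2 ⟨(mem_erase.1 hy).1, mem_inter.2 ⟨(mem_erase.1 hy).2, ho⟩⟩)
    simp [h.a0 y this]

theorem SS_split (h : Fx q σ) (φ : ι → ℝ) (x : ι) {v : ι} (hv : v ∈ σ.Op) :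
    SS σ φ x v = ap σ.Op σ.G (hh σ φ x) v - σ.G v v * hh σ φ x v -
      ∑ y ∈ σ.Op \ σ.B v, σ.G v y * hh σ φ x y := by
  have h1 := add_sum_erase (σ.B v ∩ σ.Op) (fun y => σ.G v y * hh σ φ x y)
    (mem_inter.2 ⟨h.Bv v, hv⟩)
  have h2 := sum_inter_add_sum_sdiff σ.Op (σ.B v) fun y => σ.G v y * hh σ φ x y
  rw [inter_comm] at h2
  rw [SS_eq h, ap, ← h2, ← h1]
  ring

theorem st_le (h : Fx q σ) (φ : ι → ℝ) :
    ∑ x ∈ σ.Op, ∑ y ∈ σ.Op, ‖hh σ φ x y‖ ^ 2 ≤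
      201 / 100 * En σ.Op (fun x y => σ.a x * σ.a y * ‖σ.G x y‖ ^ 2) φ := by
  unfold En
  rw [mul_div_assoc', le_div_iff₀ (by norm_num), sum_mul, mul_sum]
  refine sum_le_sum fun x hx => ?_
  rw [sum_mul, mul_sum]
  refine sum_le_sum fun y hy => ?_
  have hx' := abs_le.1 (h.a1 x hx)
  have hy' := abs_le.1 (h.a1 y hy)
  have e : ‖hh σ φ x y‖ ^ 2 = σ.a y ^ 2 * (‖σ.G x y‖ ^ 2 * (φ x - φ y) ^ 2) := by
    simp only [hh, norm_mul, Complex.norm_conj, Complex.norm_real, Real.norm_eq_abs, mul_pow,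
      sq_abs]
    ring
  have h1 : σ.a y ^ 2 * 2 ≤ 201 / 100 * (σ.a x * σ.a y) := by nlinarith
  have h2 : 0 ≤ ‖σ.G x y‖ ^ 2 * (φ x - φ y) ^ 2 := by positivity
  rw [e]
  nlinarith [mul_le_mul_of_nonneg_right h1 h2]

theorem third (h : Fx q σ) (φ : ι → ℝ) :
    ∑ v ∈ σ.rem, ∑ x ∈ σ.Op, ‖σ.G x v‖ ^ 2 * (φ x - φ v) ^ 2 ≤
      3 * En σ.Op (fun x y => σ.a x * σ.a y * ‖σ.G x y‖ ^ 2) φ := by
  refine (sum_le_sum_of_subset_of_nonneg (h.rR.trans h.RO) fun _ _ _ =>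
    sum_nonneg fun _ _ => by positivity).trans ?_
  unfold En
  rw [sum_comm, mul_div_assoc', le_div_iff₀ (by norm_num), sum_mul, mul_sum]
  refine sum_le_sum fun x hx => ?_
  rw [sum_mul, mul_sum]
  refine sum_le_sum fun y hy => ?_
  have hx' := abs_le.1 (h.a1 x hx)
  have hy' := abs_le.1 (h.a1 y hy)
  have h1 : 2 ≤ 3 * (σ.a x * σ.a y) := by nlinarith
  have h2 : 0 ≤ ‖σ.G x y‖ ^ 2 * (φ x - φ y) ^ 2 := by positivity
  nlinarith [mul_le_mul_of_nonneg_right h1 h2]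

theorem one (hq : q.OK) (h : Fx q σ) (φ : ι → ℝ) (x : ι) :
    ∑ v ∈ σ.rem, ‖SS σ φ x v‖ ^ 2 ≤ 18 / q.η ^ 2 * ∑ y ∈ σ.Op, ‖hh σ φ x y‖ ^ 2 := by
  have hO := h.rR.trans h.RO
  set s := ∑ y ∈ σ.Op, ‖hh σ φ x y‖ ^ 2 with hs
  have s0 : 0 ≤ s := sum_nonneg fun _ _ => by positivity
  have h1 : ∑ v ∈ σ.rem, ‖ap σ.Op σ.G (hh σ φ x) v‖ ^ 2 ≤ 4 / q.η ^ 2 * s := by
    refine (sum_le_sum_of_subset_of_nonneg hO fun _ _ _ => by positivity).trans ?_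
    rw [← nS_sq, hs, ← nS_sq]
    refine (pow_le_pow_left₀ (nS_nonneg _ _) (h.op _) 2).trans (le_of_eq ?_)
    ring
  have h2 : ∑ v ∈ σ.rem, ‖σ.G v v * hh σ φ x v‖ ^ 2 ≤ s := by
    refine le_trans (sum_le_sum fun v hv => ?_)
      (sum_le_sum_of_subset_of_nonneg hO fun _ _ _ => by positivity)
    rw [norm_mul, mul_pow]
    refine mul_le_of_le_one_left (by positivity) (pow_le_one₀ (norm_nonneg _) ?_)
    exact (h.dg v (mem_union_left _ hv)).trans (by norm_num)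
  have h3 : ∑ v ∈ σ.rem, ‖∑ y ∈ σ.Op \ σ.B v, σ.G v y * hh σ φ x y‖ ^ 2 ≤ s := by
    refine le_trans (sum_le_sum fun v _ => (cs _ _ _).trans (mul_le_mul_of_nonneg_left
      (sum_le_sum_of_subset_of_nonneg sdiff_subset fun _ _ _ => by positivity)
      (sum_nonneg fun _ _ => by positivity))) ?_
    rw [← sum_mul]
    exact mul_le_of_le_one_left s0 h.far
  have h4 : 1 ≤ 1 / q.η ^ 2 := by
    rw [le_div_iff₀ (pow_pos hq.η0 2), one_mul]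
    exact pow_le_one₀ hq.η0.le (hq.η1.trans (by norm_num))
  refine (sum_le_sum fun v hv => (SS_split h φ x (hO hv)) ▸ three _ _ _).trans ?_
  rw [← mul_sum, sum_add_distrib, sum_add_distrib]
  have h5 := mul_le_mul_of_nonneg_right h4 s0
  have e1 : 4 / q.η ^ 2 * s = 4 * (1 / q.η ^ 2 * s) := by ring
  have e2 : 18 / q.η ^ 2 * s = 18 * (1 / q.η ^ 2 * s) := by ring
  linarith

theorem sup_le (h : Fx q σ) (φ : ι → ℝ) (x : ι) {v : ι} (hv : v ∈ σ.Op) :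
    ‖SS σ φ x v‖ ^ 2 ≤ 11 / 10 * ∑ y ∈ σ.Op, ‖hh σ φ x y‖ ^ 2 := by
  rw [SS_eq h]
  refine (cs _ _ _).trans (mul_le_mul ?_ ?_ (sum_nonneg fun _ _ => by positivity) (by norm_num))
  · exact (sum_le_sum_of_subset_of_nonneg (erase_subset_erase _ inter_subset_right)
      fun _ _ _ => by positivity).trans (h.row v hv)
  · exact sum_le_sum_of_subset_of_nonneg ((erase_subset _ _).trans inter_subset_right)
      fun _ _ _ => by positivity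

theorem heavy (hq : q.OK) (h : Fx q σ) (s : ι → ℝ) (s0 : ∀ x, 0 ≤ s x) :
    ∑ v ∈ σ.rem, ∑ x ∈ (σ.B v ∩ σ.Op).erase v, ‖σ.G x v‖ ^ 4 * s x ≤
      25 * (q.P ^ 20 * q.μJ ^ 2) * ∑ x ∈ σ.Op, s x := by
  have h1 : ∑ v ∈ σ.rem, ∑ x ∈ (σ.B v ∩ σ.Op).erase v, ‖σ.G x v‖ ^ 4 * s x ≤
      ∑ v ∈ σ.rem, ∑ x ∈ σ.R.erase v, ‖σ.G x v‖ ^ 4 * s x :=
    sum_le_sum fun v hv => sum_le_sum_of_subset_of_nonneg (erase_subset_erase _ (h.BR v hv))
      fun x _ _ => mul_nonneg (by positivity) (s0 x)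
  rw [sum_comm' (t := fun v => σ.R.erase v) (t' := σ.R) (s' := fun x => σ.rem.erase x)
    (fun v x => by simp only [mem_erase]; tauto)] at h1
  have hc : 0 ≤ 25 * (q.P ^ 20 * q.μJ ^ 2) := by positivity
  refine h1.trans (le_trans ?_ (mul_le_mul_of_nonneg_left
    (sum_le_sum_of_subset_of_nonneg h.RO fun x _ _ => s0 x) hc))
  rw [mul_sum]
  refine sum_le_sum fun x hx => ?_
  rw [← sum_mul]
  refine mul_le_mul_of_nonneg_right ((h.k4 x hx).trans ?_) (s0 x)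
  have := pow_le_pow_left₀ (hq.μ0.le.trans (h.mr x).1) (h.mr x).2 2
  gcongr

end FM5CA

open FM5CA in
theorem t_m5c : S_M5C := by
  intro ι _ _ q σ hq h φ e he
  have hP : 0 < q.P := lt_of_lt_of_le (by norm_num) hq.P9
  have hη := hq.η0
  have hJ : 0 < q.μJ := by linarith [hq.J1, hq.μ0]
  have hst := (st_le h φ).trans (mul_le_mul_of_nonneg_left he (by norm_num))
  set s : ι → ℝ := fun x => ∑ y ∈ σ.Op, ‖hh σ φ x y‖ ^ 2 with hs
  have s0 : ∀ x, 0 ≤ s x := fun x => sum_nonneg fun _ _ => by positivity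
  have e0 : 0 ≤ e := by
    have : 0 ≤ ∑ x ∈ σ.Op, s x := sum_nonneg fun x _ => s0 x
    linarith
  have h1 : ∑ v ∈ σ.rem, ∑ x ∈ σ.Op, ‖SS σ φ x v‖ ^ 2 ≤ 40 / q.η ^ 2 * e := by
    rw [sum_comm]
    refine (sum_le_sum fun x _ => one hq h φ x).trans ?_
    rw [← mul_sum]
    refine (mul_le_mul_of_nonneg_left hst (by positivity)).trans ?_
    have : 0 ≤ 1 / q.η ^ 2 * e := by positivity
    have e1 : 18 / q.η ^ 2 * (201 / 100 * e) = 3618 / 100 * (1 / q.η ^ 2 * e) := by ring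
    have e2 : 40 / q.η ^ 2 * e = 40 * (1 / q.η ^ 2 * e) := by ring
    linarith
  refine ⟨h1, ?_, (third h φ).trans (by linarith)⟩
  set m := q.P ^ 10 * q.μJ * q.η with hm
  have m0 : 0 < m := by positivity
  have h2 : ∀ v ∈ σ.rem, ∑ x ∈ (σ.B v ∩ σ.Op).erase v, ‖σ.G x v‖ ^ 2 * ‖SS σ φ x v‖ ^ 2 ≤
      m * ∑ x ∈ σ.Op, ‖SS σ φ x v‖ ^ 2 +
        11 / 10 / m * ∑ x ∈ (σ.B v ∩ σ.Op).erase v, ‖σ.G x v‖ ^ 4 * s x := fun v hv => by
    refine le_trans ?_ (add_le_add (mul_le_mul_of_nonneg_left (sum_le_sum_of_subset_of_nonneg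
      ((erase_subset v _).trans (inter_subset_right (s₁ := σ.B v))) fun _ _ _ => by positivity)
      m0.le) le_rfl)
    rw [mul_sum, mul_sum, ← sum_add_distrib]
    refine sum_le_sum fun x _ => ?_
    have h3 := mul_le_mul_of_nonneg_right (le_split (a := ‖σ.G x v‖ ^ 2) m0)
      (sq_nonneg ‖SS σ φ x v‖)
    have h4 := mul_le_mul_of_nonneg_left (sup_le h φ x (h.RO (h.rR hv)))
      (show 0 ≤ (‖σ.G x v‖ ^ 2) ^ 2 / m by positivity)
    have e1 : 11 / 10 / m * (‖σ.G x v‖ ^ 4 * s x) = (‖σ.G x v‖ ^ 2) ^ 2 / m * (11 / 10 * s x) := by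
      ring
    rw [e1]
    linarith
  refine (sum_le_sum h2).trans ?_
  rw [sum_add_distrib, ← mul_sum, ← mul_sum]
  have h3 := mul_le_mul_of_nonneg_left h1 m0.le
  have h4 := mul_le_mul_of_nonneg_left ((heavy hq h s s0).trans
    (mul_le_mul_of_nonneg_left hst (by positivity))) (show 0 ≤ 11 / 10 / m by positivity)
  have e1 : m * (40 / q.η ^ 2 * e) = 40 * (q.P ^ 10 * (q.μJ / q.η) * e) := by
    rw [hm]; field_simp
  have e2 : 11 / 10 / m * (25 * (q.P ^ 20 * q.μJ ^ 2) * (201 / 100 * e)) =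
      55275 / 1000 * (q.P ^ 10 * (q.μJ / q.η) * e) := by
    rw [hm]; field_simp; ring
  have h5 : q.μJ / q.η ≤ 1 / q.P ^ 200 := by
    rw [div_le_iff₀ hη]; exact hq.J2.trans (le_of_eq (by ring))
  have h6 : q.P ^ 10 * (q.μJ / q.η) * e ≤ q.P ^ 10 * (1 / q.P ^ 200) * e := by gcongr
  have h7 : 100 ≤ q.P ^ 10 := le_trans (by norm_num) (pow_le_pow_left₀ (by norm_num) hq.P9 10)
  have h8 : 100 * (q.P ^ 10 * (1 / q.P ^ 200) * e) ≤ e / q.P ^ 180 := by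
    have e3 : e / q.P ^ 180 = q.P ^ 10 * (q.P ^ 10 * (1 / q.P ^ 200) * e) := by field_simp
    rw [e3]
    exact mul_le_mul_of_nonneg_right h7 (by positivity)
  have h9 : 0 ≤ q.P ^ 10 * (q.μJ / q.η) * e := by positivity
  linarith

end Pool.Agent.P.MP_d0f69c_mp.XS
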