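import Pool.Agent.P.MP_d0f69c_mp.XS.IfFlow

/-!
Drift and variation of the noise of the retarded-retarded matrix.
-/

set_option autoImplicit false

open Finset Real

namespace Pool.Agent.P.MP_d0f69c_mp.XS

namespace FM6A

variable {ι : Type} [DecidableEq ι]

/-- the noise kernel -/
noncomputable def D (G : ι → ι → ℂ) (g : ι → ℂ) (s t : ℂ) (x y : ι) : ℂ :=
  if x = y then s ^ 2 * g x ^ 4 else 2 * t * G x y * (g x * g y) + (s ^ 2 - t ^ 2) * (g x * g y) ^ 2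

omit [DecidableEq ι] in
theorem cs (S : Finset ι) (a b : ι → ℂ) :
    (∑ y ∈ S, ‖a y‖ * ‖b y‖) ^ 2 ≤ (∑ y ∈ S, ‖a y‖ ^ 2) * ∑ y ∈ S, ‖b y‖ ^ 2 :=
  sum_mul_sq_le_sq_mul_sq _ _ _

omit [DecidableEq ι] in
theorem nsum (S : Finset ι) (a b : ι → ℂ) : ‖∑ y ∈ S, a y * b y‖ ≤ ∑ y ∈ S, ‖a y‖ * ‖b y‖ :=
  (norm_sum_le _ _).trans (le_of_eq (sum_congr rfl fun _ _ => norm_mul _ _))

theorem three (a b c : ℂ) : ‖a + b + c‖ ^ 2 ≤ 3 * (‖a‖ ^ 2 + ‖b‖ ^ 2 + ‖c‖ ^ 2) := by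
  have := pow_le_pow_left₀ (norm_nonneg _) (norm_add₃_le (a := a) (b := b) (c := c)) 2
  nlinarith [sq_nonneg (‖a‖ - ‖b‖), sq_nonneg (‖a‖ - ‖c‖), sq_nonneg (‖b‖ - ‖c‖)]

theorem one (J : Finset ι) (G : ι → ι → ℂ) (g : ι → ℂ) (u : ι → ℝ) {η m e p : ℝ} (η0 : 0 < η)
    (η1 : η ≤ 1) (m0 : 0 < m) (e0 : 0 ≤ e) (e1 : e ≤ 1) (hp : p = ∑ y ∈ J, ‖g y‖ ^ 2 * u y ^ 2)
    (h1 : ∀ x ∈ J, ‖g x‖ ^ 2 ≤ e) (h2 : ∑ x ∈ J, ‖g x‖ ^ 2 ≤ 11 / 10)
    (h3 : ∑ x ∈ J, ‖g x‖ ^ 4 ≤ 26 * e * m) (hm : m ≤ e * η ^ 2) (h4 : OpLe J G (2 / η))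
    (h5 : ∀ x ∈ J, ‖G x x‖ ≤ 1) (h6 : ∀ x ∈ J, ∑ y ∈ J.erase x, ‖G x y‖ ^ 2 ≤ 11 / 10) :
    ∃ A B C : ℂ, ‖A‖ ≤ e * p ∧ ‖B‖ ≤ 3 / η * p ∧ ‖C‖ ≤ 11 / 10 * p ∧ ∀ s t,
      ∑ x ∈ J, ∑ y ∈ J, u x * D G g s t x y * u y = s ^ 2 * A + 2 * t * B + (s ^ 2 - t ^ 2) * C ∧
      (‖s‖ ≤ 11 / 10 → ‖t‖ ≤ 11 / 10 → ‖t ^ 2 - s ^ 2‖ ≤ 4 * e →
        ∑ x ∈ J, ‖∑ y ∈ J, D G g s t x y * u y‖ ^ 2 ≤ 700 * e * p) := by
  obtain ⟨w, hw⟩ : ∃ w : ι → ℂ, w = fun x => g x * u x := ⟨_, rfl⟩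
  obtain ⟨R, hR⟩ : ∃ R : ι → ℂ, R = fun x => ∑ y ∈ J.erase x, G x y * w y := ⟨_, rfl⟩
  obtain ⟨Q, hQ⟩ : ∃ Q : ι → ℂ, Q = fun x => ∑ y ∈ J.erase x, g y * w y := ⟨_, rfl⟩
  obtain ⟨c, hc⟩ : ∃ c : ℝ, c = ∑ y ∈ J, ‖g y‖ * ‖w y‖ := ⟨_, rfl⟩
  have wp : ∑ y ∈ J, ‖w y‖ ^ 2 = p := by
    simp only [hp, hw, norm_mul, mul_pow, Complex.norm_real, Real.norm_eq_abs, sq_abs]
  have p0 : 0 ≤ p := wp ▸ sum_nonneg fun _ _ => sq_nonneg _
  have key : ∀ s t, ∀ x ∈ J, ∑ y ∈ J, D G g s t x y * u y =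
      s ^ 2 * (g x ^ 3 * w x) + 2 * t * (g x * R x) + (s ^ 2 - t ^ 2) * (g x ^ 2 * Q x) := by
    intro s t x hx
    rw [← add_sum_erase _ _ hx, D, if_pos rfl, hR, hQ, add_assoc]
    simp only [mul_sum, ← sum_add_distrib, hw]
    congr 1
    · ring
    · exact sum_congr rfl fun y hy => by rw [D, if_neg (ne_of_mem_erase hy).symm]; ring
  have c2 : c ^ 2 ≤ 11 / 10 * p := by
    rw [hc, ← wp]
    exact (cs J g w).trans (mul_le_mul_of_nonneg_right h2 (wp ▸ p0))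
  have Q1 : ∀ x, ‖Q x‖ ≤ c := fun x => by
    rw [hQ, hc]
    exact (nsum _ _ _).trans (sum_le_sum_of_subset_of_nonneg (erase_subset _ _)
      fun _ _ _ => by positivity)
  have R1 : ∀ x ∈ J, ‖R x‖ ^ 2 ≤ 11 / 10 * p := fun x hx => by
    rw [hR, ← wp]
    exact (pow_le_pow_left₀ (norm_nonneg _) (nsum _ _ _) 2).trans ((cs _ _ _).trans
      (mul_le_mul (h6 x hx) (sum_le_sum_of_subset_of_nonneg (erase_subset _ _)
        fun _ _ _ => by positivity) (by positivity) (by norm_num)))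
  have R2 : ∑ x ∈ J, ‖R x‖ ^ 2 ≤ (3 / η) ^ 2 * p := by
    have a1 : nS J R = nS J (ap J G w - fun x => G x x * w x) := nS_congr fun x hx => by
      rw [hR, Pi.sub_apply, ap, ← add_sum_erase _ _ hx, add_sub_cancel_left]
    have a2 : nS J (fun x => G x x * w x) ≤ nS J w := sqrt_le_sqrt (sum_le_sum fun x hx => by
      rw [norm_mul]
      exact pow_le_pow_left₀ (by positivity) (mul_le_of_le_one_left (norm_nonneg _) (h5 x hx)) 2)
    have a3 := nS_sub J (ap J G w) fun x => G x x * w x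
    have a4 := h4 w
    have a5 := le_mul_of_one_le_left (nS_nonneg J w) (one_le_one_div η0 η1)
    rw [← nS_sq, ← wp, ← nS_sq, ← mul_pow]
    refine pow_le_pow_left₀ (nS_nonneg _ _) ?_ 2
    rw [show 3 / η = 2 / η + 1 / η by ring]
    linarith
  refine ⟨∑ x ∈ J, g x * w x * (g x * w x), ∑ x ∈ J, w x * R x, ∑ x ∈ J, g x * w x * Q x, ?_, ?_, ?_,
    fun s t => ⟨?_, fun hs ht hst => ?_⟩⟩
  · rw [← wp, mul_sum]
    refine (nsum _ _ _).trans (sum_le_sum fun x hx => ?_)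
    rw [← sq, norm_mul, mul_pow]
    exact mul_le_mul_of_nonneg_right (h1 x hx) (sq_nonneg _)
  · refine (nsum _ _ _).trans (abs_le_of_sq_le_sq' ((cs _ _ _).trans ?_) (by positivity)).2
    rw [wp]
    exact (mul_le_mul_of_nonneg_left R2 p0).trans (le_of_eq (by ring))
  · refine (nsum _ _ _).trans (le_trans (sum_le_sum fun x _ =>
      mul_le_mul_of_nonneg_left (Q1 x) (norm_nonneg _)) ?_)
    simp only [norm_mul]
    rwa [← sum_mul, ← hc, ← sq]
  · simp only [mul_assoc (u _ : ℂ), mul_sum, ← sum_add_distrib]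
    refine sum_congr rfl fun x hx => ?_
    rw [← mul_sum, key s t x hx, hw]
    ring
  · have s2 : ‖s ^ 2‖ ^ 2 ≤ 3 / 2 := by
      rw [norm_pow, ← pow_mul]
      exact (pow_le_pow_left₀ (norm_nonneg _) hs _).trans (by norm_num)
    have t2 : ‖2 * t‖ ^ 2 ≤ 5 := by
      rw [norm_mul, Complex.norm_two]
      nlinarith [norm_nonneg t]
    have d2 : ‖s ^ 2 - t ^ 2‖ ^ 2 ≤ 16 * e := by
      rw [norm_sub_rev]
      nlinarith [norm_nonneg (t ^ 2 - s ^ 2)]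
    have a1 : ∀ x ∈ J, ‖∑ y ∈ J, D G g s t x y * u y‖ ^ 2 ≤ 3 * (3 / 2 * e * ‖w x‖ ^ 2 +
        5 * (m * ‖R x‖ ^ 2 + 11 / 10 * p / m * ‖g x‖ ^ 4) +
          16 * e * (11 / 10 * p) * ‖g x‖ ^ 2) := fun x hx => by
      rw [key s t x hx]
      have g1 := h1 x hx
      have g2 : ‖g x‖ ^ 2 ≤ 1 := g1.trans e1
      refine (three _ _ _).trans (mul_le_mul_of_nonneg_left (add_le_add_three ?_ ?_ ?_) (by norm_num))
      · rw [norm_mul, mul_pow, norm_mul, mul_pow, norm_pow (g x), pow_right_comm, mul_assoc]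
        have : (‖g x‖ ^ 2) ^ 3 ≤ e := (pow_le_of_le_one (sq_nonneg _) g2 (by norm_num)).trans g1
        gcongr
      · rw [norm_mul, mul_pow, norm_mul (g x), mul_pow]
        refine mul_le_mul t2 ((mul_le_mul_of_nonneg_right (le_split m0) (sq_nonneg _)).trans ?_)
          (by positivity) (by norm_num)
        have := mul_le_mul_of_nonneg_left (R1 x hx) (show 0 ≤ ‖g x‖ ^ 4 / m by positivity)
        calc _ = m * ‖R x‖ ^ 2 + ‖g x‖ ^ 4 / m * ‖R x‖ ^ 2 := by ring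
          _ ≤ m * ‖R x‖ ^ 2 + ‖g x‖ ^ 4 / m * (11 / 10 * p) := by linarith
          _ = _ := by ring
      · rw [norm_mul, mul_pow, norm_mul, mul_pow, norm_pow (g x), mul_assoc, mul_comm (_ * p)]
        have b1 : (‖g x‖ ^ 2) ^ 2 ≤ ‖g x‖ ^ 2 := pow_le_of_le_one (sq_nonneg _) g2 (by norm_num)
        have b2 : ‖Q x‖ ^ 2 ≤ 11 / 10 * p := (pow_le_pow_left₀ (norm_nonneg _) (Q1 x) 2).trans c2
        gcongr
    refine (sum_le_sum a1).trans ?_
    simp only [← mul_sum, sum_add_distrib, wp]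
    have b1 : m * ∑ x ∈ J, ‖R x‖ ^ 2 ≤ 9 * (e * p) :=
      (mul_le_mul hm R2 (by positivity) (by positivity)).trans (le_of_eq (by field_simp; ring))
    have b2 : 11 / 10 * p / m * ∑ x ∈ J, ‖g x‖ ^ 4 ≤ 143 / 5 * (e * p) :=
      (mul_le_mul_of_nonneg_left h3 (by positivity)).trans (le_of_eq (by field_simp; ring))
    have b3 := mul_le_mul_of_nonneg_left h2 (show 0 ≤ 16 * e * (11 / 10 * p) by positivity)
    have b4 : 0 ≤ e * p := by positivity
    linarith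

end FM6A

open FM6A in
theorem t_m6 : S_M6 := by
  intro ι _ _ q σ Z I hq h hZ u
  obtain ⟨m0, m1, m2⟩ := hq.mb_le
  have P9 := hq.P9
  have P1 : 1 ≤ q.P := by linarith
  have η0 := hq.η0
  have η1 : q.η ≤ 1 := by linarith [hq.η1]
  have μ0 := hq.μ0
  obtain ⟨e, he⟩ : ∃ e, e = 1 / q.P ^ 16 := ⟨_, rfl⟩
  have e0 : 0 < e := by rw [he]; positivity
  have e1 : e ≤ 1 := by rw [he, div_le_one (by positivity)]; exact one_le_pow₀ P1
  have e2 : q.mb ≤ e * q.η := by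
    refine m1.trans ?_
    rw [he, one_div_mul_eq_div]
    gcongr
    norm_num
  have e3 : q.P ^ 10 * q.μ ≤ e * q.η := by
    refine (mul_le_mul_of_nonneg_left m2 (by positivity)).trans ?_
    rw [he, one_div_mul_eq_div, show q.P ^ 10 * (q.η / q.P ^ 200) = q.η / q.P ^ 190 by field_simp]
    gcongr
    norm_num
  have e4 : e * q.η ≤ e := mul_le_of_le_one_right e0.le η1
  have e5 : q.μ ≤ e := (le_mul_of_one_le_left μ0.le (one_le_pow₀ P1)).trans (e3.trans e4)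
  have e6 : 10 ^ 9 * e ≤ 1 / q.P ^ 15 := by
    rw [he, mul_one_div, div_le_div_iff₀ (by positivity) (by positivity), one_mul, pow_succ' _ 15]
    gcongr
  have e7 : 1 / q.P ^ 15 ≤ 1 / q.P ^ 8 := by gcongr; norm_num
  let J : ι → Finset ι := fun v => I ∩ ((σ.rem ∪ σ.Sg) ∩ σ.B v).erase v
  let p : ι → ℝ := fun v => ∑ y ∈ J v, ‖σ.G v y‖ ^ 2 * u y ^ 2
  have TR : σ.rem ∪ σ.Sg ⊆ σ.R := union_subset h.rR h.sR
  have JT : ∀ v, J v ⊆ (σ.rem ∪ σ.Sg).erase v := fun v =>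
    inter_subset_right.trans (erase_subset_erase _ inter_subset_left)
  have JO : ∀ v, J v ⊆ σ.Op := fun v => (JT v).trans ((erase_subset _ _).trans (TR.trans h.RO))
  have U0 : 0 ≤ ∑ x ∈ I, u x ^ 2 := by positivity
  have hp : ∑ v ∈ Z, p v ≤ 11 / 10 * ∑ x ∈ I, u x ^ 2 := by
    simp only [p, J]
    simp only [← sum_ite_mem I]
    rw [sum_comm, mul_sum]
    refine sum_le_sum fun y _ => ?_
    rw [← sum_filter, ← sum_mul]
    refine mul_le_mul_of_nonneg_right ?_ (sq_nonneg _)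
    by_cases hy : y ∈ σ.Op
    · simp only [h.sym _ y]
      refine le_trans (sum_le_sum_of_subset_of_nonneg (fun v hv => ?_) fun _ _ _ => sq_nonneg _)
        (h.row y hy)
      exact mem_erase.2 ⟨(ne_of_mem_erase (mem_filter.1 hv).2).symm,
        h.RO (h.rR (hZ (mem_filter.1 hv).1))⟩
    · rw [filter_false_of_mem fun v _ g => hy (h.RO (TR (mem_inter.1 (mem_of_mem_erase g)).1))]
      norm_num
  have e8 : ∀ v b x y, x ∈ I → y ∈ I → σ.y6 v b x y =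
      if x ∈ J v ∧ y ∈ J v then D σ.G (σ.G v) (σ.s v) (σ.t v b) x y else 0 := by
    intro v b x y hx hy
    simp only [Sx.y6, Sx.da, D, J, mem_inter (s₁ := I), hx, hy, true_and, h.sym x v]
  have e9 : ∀ v b x, x ∈ I → ∑ y ∈ I, σ.y6 v b x y * u y =
      if x ∈ J v then ∑ y ∈ J v, D σ.G (σ.G v) (σ.s v) (σ.t v b) x y * u y else 0 := by
    intro v b x hx
    rw [sum_congr rfl fun y hy => by rw [e8 v b x y hx hy]]
    split_ifs with g
    · simp only [g, true_and, ite_mul, zero_mul]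
      rw [sum_ite_mem, inter_eq_right.2 inter_subset_left]
    · simp [g]
  have key : ∀ v ∈ Z, ‖∑ b, ∑ x ∈ I, ∑ y ∈ I, u x * σ.y6 v b x y * u y‖ ≤ 30 * e * p v ∧
      ∑ b, ∑ x ∈ I, ‖∑ y ∈ I, σ.y6 v b x y * u y‖ ^ 2 ≤ 1400 * e * p v := by
    intro v hv
    have v1 := hZ hv
    have v2 := h.mg v (mem_union_left _ v1)
    obtain ⟨A, B, C, a1, a2, a3, a4⟩ := one (J v) σ.G (σ.G v) u (m := q.P ^ 10 * q.μ * q.η)
      (p := p v) η0 η1 (by positivity) e0.le e1 rfl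
      (fun x hx => ((h.amp v (h.rR v1) x (mem_of_mem_erase (JT v hx))
        (ne_of_mem_erase (JT v hx)).symm).trans v2.le).trans e5)
      (le_trans (sum_le_sum_of_subset_of_nonneg ((JT v).trans (erase_subset_erase _
        (TR.trans h.RO))) fun _ _ _ => sq_nonneg _) (h.row v (h.RO (h.rR v1))))
      (by
        have b1 := h.k4 v (h.rR v1)
        have b2 := h.g4 v (h.rR v1)
        have b3 := sum_le_sum_of_subset_of_nonneg (f := fun x => ‖σ.G v x‖ ^ 4) (JT v)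
          fun _ _ _ => by positivity
        rw [erase_union_distrib, sum_union (h.rs.mono (erase_subset _ _) (erase_subset _ _))] at b3
        rw [v2] at b1 b2
        have b4 := mul_le_mul_of_nonneg_right e3 (show 0 ≤ q.P ^ 10 * q.μ by positivity)
        have b5 : 0 ≤ q.P ^ 20 * q.μ ^ 2 := by positivity
        linarith)
      (by linarith [mul_le_mul_of_nonneg_right e3 η0.le]) (h.op.sub (JO v))
      (fun x hx => (h.dg x (mem_of_mem_erase (JT v hx))).trans (by norm_num))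
      fun x hx => le_trans (sum_le_sum_of_subset_of_nonneg (erase_subset_erase _ (JO v))
        fun _ _ _ => sq_nonneg _) (h.row x (JO v hx))
    have p0 : 0 ≤ p v := sum_nonneg fun _ _ => by positivity
    obtain ⟨s1, s2⟩ := h.t4 v v1
    have s3 : ∀ b, ‖σ.t v b ^ 2 - σ.s v ^ 2‖ ≤ 4 * e := fun b => by linarith [s2 b]
    constructor
    · have b1 : ∀ b, ∑ x ∈ I, ∑ y ∈ I, u x * σ.y6 v b x y * u y =
          σ.s v ^ 2 * A + 2 * σ.t v b * B + (σ.s v ^ 2 - σ.t v b ^ 2) * C := fun b => by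
        rw [← (a4 _ _).1]
        simp only [mul_assoc (u _ : ℂ), ← mul_sum]
        rw [sum_congr rfl fun x hx => by rw [e9 v b x hx, mul_ite, mul_zero], sum_ite_mem,
          inter_eq_right.2 inter_subset_left]
      rw [Fintype.sum_bool, b1, b1, show σ.s v ^ 2 * A + 2 * σ.t v true * B +
        (σ.s v ^ 2 - σ.t v true ^ 2) * C + (σ.s v ^ 2 * A + 2 * σ.t v false * B +
        (σ.s v ^ 2 - σ.t v false ^ 2) * C) = 2 * (σ.s v ^ 2 * A) +
        2 * ((σ.t v true + σ.t v false) * B) -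
        ((σ.t v true ^ 2 - σ.s v ^ 2) + (σ.t v false ^ 2 - σ.s v ^ 2)) * C by ring]
      refine (norm_sub_le _ _).trans ((add_le_add_left (norm_add_le _ _) _).trans ?_)
      simp only [norm_mul, Complex.norm_two, norm_pow]
      have c1 := mul_le_mul (pow_le_pow_left₀ (norm_nonneg _) s1 2) a1 (norm_nonneg _) (by norm_num)
      have c2 : ‖σ.t v true + σ.t v false‖ ≤ 5 / 2 * (e * q.η) :=
        (h.t2 v v1).trans (mul_le_mul (by
          linarith [pow_le_pow_left₀ (norm_nonneg _) (h.t1 v v1 true) 2,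
            pow_le_pow_left₀ (norm_nonneg _) (h.t1 v v1 false) 2])
          ((h.mis v (mem_union_left _ v1)).trans e2) (norm_nonneg _) (by norm_num))
      have c3 := (mul_le_mul c2 a2 (norm_nonneg _) (by positivity)).trans_eq
        (show _ = 15 / 2 * (e * p v) by field_simp; ring)
      have c4 := mul_le_mul ((norm_add_le _ _).trans (add_le_add (s3 true) (s3 false))) a3
        (norm_nonneg _) (by positivity)
      have c5 : 0 ≤ e * p v := by positivity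
      linarith
    · have b1 : ∀ b, ∑ x ∈ I, ‖∑ y ∈ I, σ.y6 v b x y * u y‖ ^ 2 ≤ 700 * e * p v := fun b => by
        refine le_trans (le_of_eq ?_) ((a4 _ _).2 s1 (h.t1 v v1 b) (s3 b))
        rw [sum_congr rfl fun x hx => by
          rw [e9 v b x hx, apply_ite (fun z : ℂ => ‖z‖ ^ 2), norm_zero, zero_pow two_ne_zero],
          sum_ite_mem, inter_eq_right.2 inter_subset_left]
      rw [Fintype.sum_bool]
      linarith [b1 true, b1 false]
  have f1 := mul_le_mul_of_nonneg_left hp e0.le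
  have f2 := mul_le_mul_of_nonneg_right e6 U0
  have f3 := mul_le_mul_of_nonneg_right e7 U0
  have f4 : 0 ≤ e * ∑ x ∈ I, u x ^ 2 := by positivity
  rw [sum_product, sum_product]
  refine ⟨(norm_sum_le _ _).trans ((sum_le_sum fun v hv => (key v hv).1).trans ?_),
    (sum_le_sum fun v hv => (key v hv).2).trans ?_⟩ <;> rw [← mul_sum] <;> linarith

end Pool.Agent.P.MP_d0f69c_mp.XS
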