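import Pool.Agent.P.MP_d0f69c_mp.XS.IfFlow

set_option autoImplicit false
set_option linter.dupNamespace false

open Finset Real

namespace Pool.Agent.P.MP_d0f69c_mp.XS

namespace FNmbA

variable {ι : Type} [Fintype ι] [DecidableEq ι]

omit [Fintype ι] [DecidableEq ι] in
theorem sb (S : Finset ι) (k : ι → ι → ℝ) : SB (Eb S k) := by
  refine ⟨fun u w => by simp only [Eb, mul_comm (u _ - u _)], fun c u v w => ?_⟩
  simp only [Eb, ← mul_div_assoc, ← add_div, mul_sum, ← sum_add_distrib, Pi.add_apply,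
    Pi.smul_apply, smul_eq_mul]
  congr 1
  exact sum_congr rfl fun _ _ => sum_congr rfl fun _ _ => by ring

omit [Fintype ι] [DecidableEq ι] in
theorem eb (S : Finset ι) (k : ι → ι → ℝ) (φ : ι → ℝ) : Eb S k φ φ = En S k φ := by
  simp only [Eb, En, sq]

end FNmbA

open FNmbA in
theorem t_nmb : S_NMB := by
  intro d M _ E hE
  have hM : (0 : ℝ) < (M : ℝ) ^ 2 := by
    have := NeZero.pos M
    positivity
  refine ⟨⟨fun f g => Eb univ (fun x y => E.p (x - y)) f g + (∑ x, f x * g x) / (M : ℝ) ^ 2,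
    ⟨fun u w => by simp only [(sb _ _).1 u w, mul_comm (u _)], fun c u v w => ?_⟩,
    fun φ hφ => ?_, fun φ => by simp only [eb, En, Nm, NF, sq (φ _)]⟩,
    fun S k => ⟨sb S k, eb S k⟩, fun ξ ψ l hl h => ?_⟩
  · simp only [(sb _ _).2, Pi.add_apply, Pi.smul_apply, smul_eq_mul, add_mul, sum_add_distrib,
      mul_assoc, ← mul_sum]
    ring
  · obtain ⟨x, hx⟩ := Function.ne_iff.1 hφ
    refine add_pos_of_nonneg_of_pos (div_nonneg (sum_nonneg fun _ _ => sum_nonneg fun _ _ =>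
      mul_nonneg (hE.ref.p0 _) (mul_self_nonneg _)) zero_le_two) (div_pos (sum_pos'
        (fun _ _ => mul_self_nonneg _) ⟨x, mem_univ x, mul_self_pos.2 hx⟩) hM)
  · obtain ⟨c, h1, h2⟩ := hE.ref.var
    have h3 := (abs_le.1 h1).1
    have hc : 0 < c := by linarith
    have h4 : ∀ x, ∑ y, E.gt (x - y) ^ 2 ≤ E.γ0 ^ 2 := fun x =>
      (Equiv.sum_comp (Equiv.subLeft x) fun y => E.gt y ^ 2).trans_le hE.ref.gam
    refine (h2.dual hc (S := univ) hE.γ00 hl hE.γ00 (fun x _ => le_of_sq_le_sq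
      ((single_le_sum (f := fun y => E.gt (x - y) ^ 2) (fun _ _ => sq_nonneg _) (mem_univ x)).trans
        (h4 x)) hE.γ00)
      (fun x _ => (sum_le_sum_of_subset_of_nonneg (subset_univ _) fun _ _ _ => sq_nonneg _).trans
        (h4 x)) (by simp) h ψ).trans (mul_le_mul_of_nonneg_right ?_ (h2.nonneg ψ))
    have h5 : 0 ≤ l * ∑ x, |ξ x| := mul_nonneg hl (sum_nonneg fun _ _ => abs_nonneg _)
    have h6 := mul_le_mul_of_nonneg_right hE.γ01 h5
    have h7 := mul_le_mul_of_nonneg_right (hE.γ01.trans hE.η1) (sq_nonneg l)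
    have h8 := mul_nonneg hE.η0.le h5
    have h9 := mul_le_mul_of_nonneg_left h3 (add_nonneg (sq_nonneg l) h8)
    rw [div_le_iff₀ hc]
    nlinarith [sq_nonneg l]

end Pool.Agent.P.MP_d0f69c_mp.XS
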