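import Pool.Agent.P.MP_d0f69c_mp.XS.IfFlow

/-!
The potential of a form relative to a positive form.
-/

set_option autoImplicit false
set_option linter.dupNamespace false

open Finset Real Matrix

namespace Pool.Agent.P.MP_d0f69c_mp.XS

namespace FPotA

variable {ι κ : Type} [Fintype ι] [DecidableEq ι] [Fintype κ] [DecidableEq κ]

omit [Fintype ι] [DecidableEq ι] [Fintype κ] [DecidableEq κ] in
theorem sb_sum {X : (ι → ℝ) → (ι → ℝ) → ℝ} (hX : SB X) (s : Finset κ) (c : κ → ℝ)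
    (f : κ → ι → ℝ) (w : ι → ℝ) : X (∑ i ∈ s, c i • f i) w = ∑ i ∈ s, c i * X (f i) w := by
  classical
  induction s using Finset.induction_on with
  | empty =>
    have h := hX.2 1 0 0 w
    rw [one_smul, add_zero] at h
    simp only [sum_empty]
    linarith
  | insert a s ha ih => rw [sum_insert ha, sum_insert ha, hX.2, ih]

/-- the Gram matrix -/
def gram (e : κ → ι → ℝ) (X : (ι → ℝ) → (ι → ℝ) → ℝ) : Matrix κ κ ℝ :=
  Matrix.of fun i j => X (e i) (e j)

omit [Fintype ι] [DecidableEq ι] [DecidableEq κ] in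
theorem gram_form {X : (ι → ℝ) → (ι → ℝ) → ℝ} (hX : SB X) (e : κ → ι → ℝ) (u w : κ → ℝ) :
    X (∑ i, u i • e i) (∑ i, w i • e i) = u ⬝ᵥ (gram e X *ᵥ w) := by
  rw [sb_sum hX]
  refine sum_congr rfl fun i _ => ?_
  rw [hX.1, sb_sum hX]
  congr 1
  exact sum_congr rfl fun j _ => by rw [hX.1, mul_comm]; rfl

omit [Fintype ι] [DecidableEq ι] [Fintype κ] [DecidableEq κ] in
theorem gram_symm {X : (ι → ℝ) → (ι → ℝ) → ℝ} (hX : SB X) (e : κ → ι → ℝ) :
    (gram e X)ᵀ = gram e X := by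
  ext i j
  exact hX.1 _ _

/-- a positive matrix is congruent to the identity -/
theorem exists_congr {A : Matrix κ κ ℝ} (hA : Aᵀ = A) (hp : ∀ u, u ≠ 0 → 0 < u ⬝ᵥ (A *ᵥ u)) :
    ∃ P : Matrix κ κ ℝ, Pᵀ * A * P = 1 := by
  obtain ⟨U, l, -, h2, h3, -⟩ := GT.spec hA
  have hl : ∀ i, 0 < l i := fun i => by
    have h4 := hp (Uᵀ i) fun h => by simpa [h] using GT.col_one h2 i
    rw [h3, GT.form_conj, GT.col_single h2 i, sum_eq_single i (by simp +contextual) (by simp)] at h4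
    simpa using h4
  refine ⟨U * diagonal fun i => (√(l i))⁻¹, ?_⟩
  rw [h3, transpose_mul, diagonal_transpose]
  simp only [Matrix.mul_assoc]
  rw [← Matrix.mul_assoc Uᵀ U, ← Matrix.mul_assoc Uᵀ U, h2, Matrix.one_mul, Matrix.one_mul,
    diagonal_mul_diagonal, diagonal_mul_diagonal, ← diagonal_one]
  congr 1
  funext i
  have h5 := sqrt_pos.2 (hl i)
  have h6 := mul_self_sqrt (hl i).le
  field_simp
  linarith

omit [DecidableEq κ] in
theorem form_congr (A P : Matrix κ κ ℝ) (u w : κ → ℝ) :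
    (P *ᵥ u) ⬝ᵥ (A *ᵥ (P *ᵥ w)) = u ⬝ᵥ ((Pᵀ * A * P) *ᵥ w) := by
  rw [← mulVec_mulVec, ← mulVec_mulVec, dotProduct_mulVec u, vecMul_transpose]

end FPotA

open FPotA in
theorem t_pot : S_POT := by
  intro ι _ _ N B hN hpos
  let e : B → ι → ℝ := fun i => Pi.single (i : ι) 1
  have he : ∀ (u : B → ℝ) (j : B), (∑ i, u i • e i) j = u j := fun u j => by
    rw [Finset.sum_apply, sum_eq_single j (fun i _ h => by
      simp [e, Subtype.ext_iff.not.1 h.symm]) (by simp)]
    simp [e]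
  have he' : ∀ φ : ι → ℝ, (∀ x ∉ B, φ x = 0) → ∑ i : B, φ i • e i = φ := fun φ hφ => by
    funext x
    by_cases hx : x ∈ B
    · exact he (fun i => φ i) ⟨x, hx⟩
    · rw [hφ x hx, Finset.sum_apply]
      refine sum_eq_zero fun i _ => ?_
      have h : x ≠ i := fun h => hx (h ▸ i.2)
      simp [e, h]
  obtain ⟨P, hP⟩ := exists_congr (gram_symm hN e) fun u hu => by
    rw [← gram_form hN]
    exact hpos _ fun h => hu (funext fun j => by rw [← he u j, h]; rfl)
  let T : (B → ℝ) → ι → ℝ := fun u => ∑ i, (P *ᵥ u) i • e i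
  let M : ((ι → ℝ) → (ι → ℝ) → ℝ) → Matrix B B ℝ := fun X => Pᵀ * gram e X * P
  have hT : ∀ {X}, SB X → ∀ u w, X (T u) (T w) = u ⬝ᵥ (M X *ᵥ w) := fun hX u w => by
    rw [gram_form hX, form_congr]
  have hTN : ∀ u w, N (T u) (T w) = u ⬝ᵥ w := fun u w => by
    rw [hT hN]
    simp only [M, hP, one_mulVec]
  have hM : ∀ {X}, SB X → (M X)ᵀ = M X := fun hX => by
    simp only [M, transpose_mul, transpose_transpose, gram_symm hX, Matrix.mul_assoc]
  have hadd : ∀ X Y, M (X + Y) = M X + M Y := fun X Y => by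
    have h : gram e (X + Y) = gram e X + gram e Y := rfl
    simp only [M, h, Matrix.mul_add, Matrix.add_mul]
  have hnn : ∀ u : B → ℝ, 0 ≤ u ⬝ᵥ u := fun u => sum_nonneg fun i _ => mul_self_nonneg _
  refine ⟨fun X => trE (M X), ?_, fun X hX => trE_nonneg (hM hX), fun X b hX hb φ hφ => ?_,
    fun V s X Y δ Q hX hY hQ0 hQ1 hd hq => ?_⟩
  · have h : gram e 0 = 0 := rfl
    simp only [M, h, Matrix.mul_zero, Matrix.zero_mul, trE_zero, Fintype.card_coe]
  · have h1 : T ((Pᵀ * gram e N) *ᵥ fun i => φ i) = φ := by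
      simp only [T, mulVec_mulVec, mul_eq_one_comm.1 hP, one_mulVec]
      exact he' φ hφ
    by_contra h
    rw [← h1, hT hX, hTN, not_le] at h
    exact hb.not_ge (exp_le_trE (hM hX) h)
  · have h := monitor s (X := M X) (Y := fun v => M (Y v)) (lam := 1) (δ := δ) (Q := Q)
      zero_le_one (hM hX) (fun v hv => hM (hY v hv)) (fun v hv u => ?_) (fun u => ?_) fun u => ?_
    · simpa only [one_smul, one_mul, one_pow, ← hadd] using h
    · obtain ⟨w, h0, h1, h2⟩ := hq (T u)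
      have h3 := h2 v hv (T u)
      have h4 := single_le_sum (fun v _ => h0 v) hv
      rw [hT (hY v hv), hTN] at h3
      rw [hTN] at h1
      have h5 := hnn u
      have h6 : w v ≤ u ⬝ᵥ u := by nlinarith
      rw [one_mul]
      exact (abs_le_of_sq_le_sq' (h3.trans (by nlinarith)) h5).2
    · rw [← hTN, ← sum_congr rfl fun v hv => hT (hY v hv) u u]
      exact hd _
    · obtain ⟨w, h0, h1, h2⟩ := hq (T u)
      rw [hTN] at h1
      refine (sum_le_sum fun v hv => ?_).trans h1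
      have h3 := h2 v hv (T (M (Y v) *ᵥ u))
      rw [(hY v hv).1, hT (hY v hv), hTN] at h3
      rcases (hnn (M (Y v) *ᵥ u)).eq_or_lt with h4 | h4
      · exact h4 ▸ h0 v
      · exact le_of_mul_le_mul_right (by rwa [← sq]) h4

end Pool.Agent.P.MP_d0f69c_mp.XS
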