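import Pool.Agent.P.MP_d0f69c_mp.XS.IfFlow

/-!
The trace potential of a complex symmetric kernel.
-/

set_option autoImplicit false

open Finset Real Matrix

namespace Pool.Agent.P.MP_d0f69c_mp.XS

namespace FPotCA

theorem op_le {κ : Type} [Fintype κ] {M : Matrix κ κ ℝ} (hM : Mᵀ = M) {b : ℝ} (hb : 0 ≤ b)
    (h1 : ∀ u, u ⬝ᵥ (M *ᵥ u) ≤ b * (u ⬝ᵥ u)) (h2 : ∀ u, u ⬝ᵥ ((-M) *ᵥ u) ≤ b * (u ⬝ᵥ u))
    (u : κ → ℝ) : (M *ᵥ u) ⬝ᵥ (M *ᵥ u) ≤ b ^ 2 * (u ⬝ᵥ u) := by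
  have hs : u ⬝ᵥ (M *ᵥ (M *ᵥ u)) = (M *ᵥ u) ⬝ᵥ (M *ᵥ u) := by
    rw [dotProduct_mulVec, ← mulVec_transpose, hM]
  have key : ∀ t : ℝ, 4 * t * ((M *ᵥ u) ⬝ᵥ (M *ᵥ u)) ≤
      2 * b * (t ^ 2 * (u ⬝ᵥ u) + (M *ᵥ u) ⬝ᵥ (M *ᵥ u)) := by
    intro t
    have a1 := h1 (t • u + M *ᵥ u)
    have a2 := h2 (t • u - M *ᵥ u)
    simp only [neg_mulVec, dotProduct_neg, mulVec_add, mulVec_sub, mulVec_smul, add_dotProduct,
      sub_dotProduct, dotProduct_add, dotProduct_sub, smul_dotProduct, dotProduct_smul,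
      smul_eq_mul, hs] at a1 a2
    linarith
  rcases hb.eq_or_lt with rfl | hb'
  · have := key 1
    linarith
  · have := key b
    by_contra hc
    have := mul_pos hb' (sub_pos.2 (not_le.1 hc))
    linarith

variable {ι : Type} [DecidableEq ι] (B : Finset ι)

/-- a real part of the kernel, as a matrix on `B` -/
noncomputable def Mc (c : ℂ) (X : ι → ι → ℂ) : Matrix B B ℝ := of fun i j => (c * X i j).re

/-- extension by zero -/
noncomputable def ex (u : B → ℝ) (x : ι) : ℝ := if h : x ∈ B then u ⟨x, h⟩ else 0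

variable {B}

theorem ex_coe (u : B → ℝ) (i : B) : ex B u i = u i := dif_pos i.2

omit [DecidableEq ι] in
theorem Mc_symm (c : ℂ) {X : ι → ι → ℂ} (h : ∀ x y, X x y = X y x) : (Mc B c X)ᵀ = Mc B c X := by
  ext i j
  simp only [Mc, transpose_apply, of_apply, h i j]

omit [DecidableEq ι] in
theorem Mc_add (c : ℂ) (X Y : ι → ι → ℂ) : Mc B c (X + Y) = Mc B c X + Mc B c Y := by
  ext i j
  simp [Mc, mul_add]

omit [DecidableEq ι] in
theorem Mc_neg (c : ℂ) (X : ι → ι → ℂ) : Mc B (-c) X = -Mc B c X := by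
  ext i j
  simp only [Mc, of_apply, Matrix.neg_apply, neg_mul, Complex.neg_re]

omit [DecidableEq ι] in
theorem Mc_zero (c : ℂ) : Mc B c 0 = 0 := by
  ext i j
  simp [Mc]

theorem dot_ex (u : B → ℝ) : ∑ x ∈ B, ex B u x ^ 2 = u ⬝ᵥ u := by
  rw [← sum_coe_sort B]
  simp only [ex_coe, dotProduct, sq]

theorem mul_ex (c : ℂ) (Y : ι → ι → ℂ) (u : B → ℝ) (i : B) :
    (Mc B c Y *ᵥ u) i = (c * ∑ y ∈ B, Y i y * ex B u y).re := by
  rw [← sum_coe_sort B, mul_sum, Complex.re_sum]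
  simp only [ex_coe, mulVec, dotProduct, Mc, of_apply, ← mul_assoc, Complex.re_mul_ofReal]

theorem form_ex (c : ℂ) (Y : ι → ι → ℂ) (u : B → ℝ) : u ⬝ᵥ (Mc B c Y *ᵥ u) =
    (c * ∑ x ∈ B, ∑ y ∈ B, ex B u x * Y x y * ex B u y).re := by
  rw [← sum_coe_sort B, mul_sum, Complex.re_sum]
  refine sum_congr rfl fun i _ => ?_
  rw [mul_ex, ← Complex.re_ofReal_mul, ex_coe]
  simp only [mul_assoc, ← mul_sum]
  rw [mul_left_comm]

theorem pstep {c : ℂ} (hc : ‖c‖ = 1) {V : Type} (s : Finset V) {X : ι → ι → ℂ}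
    {Y : V → ι → ι → ℂ} {δ Q : ℝ} (hX : ∀ x y, X x y = X y x)
    (hY : ∀ v ∈ s, ∀ x y, Y v x y = Y v y x) (hQ : Q ≤ 1)
    (hd : ∀ u : ι → ℝ, ‖∑ v ∈ s, ∑ x ∈ B, ∑ y ∈ B, u x * Y v x y * u y‖ ≤ δ * ∑ x ∈ B, u x ^ 2)
    (hq : ∀ u : ι → ℝ, ∑ v ∈ s, ∑ x ∈ B, ‖∑ y ∈ B, Y v x y * u y‖ ^ 2 ≤ Q * ∑ x ∈ B, u x ^ 2) :
    ∑ v ∈ s, (trE (Mc B c (X + Y v)) - trE (Mc B c X)) ≤ (δ + Q) * trE (Mc B c X) := by
  have hre : ∀ z : ℂ, |(c * z).re| ≤ ‖z‖ := fun z =>
    (Complex.abs_re_le_norm _).trans (by rw [norm_mul, hc, one_mul])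
  have h1 : ∀ u : B → ℝ, ∑ v ∈ s, (Mc B c (Y v) *ᵥ u) ⬝ᵥ (Mc B c (Y v) *ᵥ u) ≤ Q * (u ⬝ᵥ u) := by
    intro u
    rw [← dot_ex]
    refine le_trans (sum_le_sum fun v _ => ?_) (hq (ex B u))
    rw [← sum_coe_sort B]
    refine sum_le_sum fun i _ => ?_
    rw [mul_ex, ← sq, ← sq_abs]
    exact pow_le_pow_left₀ (abs_nonneg _) (hre _) 2
  have h0 : ∀ u : B → ℝ, 0 ≤ u ⬝ᵥ u := fun u => sum_nonneg fun _ _ => mul_self_nonneg _
  have h := monitor s (X := Mc B c X) (Y := fun v => Mc B c (Y v)) (lam := 1) (δ := δ) (Q := Q)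
    zero_le_one (Mc_symm c hX) (fun v hv => Mc_symm c (hY v hv)) (fun v hv u => by
      have a1 := (single_le_sum (fun v _ => h0 (Mc B c (Y v) *ᵥ u)) hv).trans (h1 u)
      have a2 := sum_mul_sq_le_sq_mul_sq univ u (Mc B c (Y v) *ᵥ u)
      simp only [sq (u _), sq ((Mc B c (Y v) *ᵥ u) _)] at a2
      change (u ⬝ᵥ (Mc B c (Y v) *ᵥ u)) ^ 2 ≤
        (u ⬝ᵥ u) * ((Mc B c (Y v) *ᵥ u) ⬝ᵥ (Mc B c (Y v) *ᵥ u)) at a2
      have a3 := mul_le_mul_of_nonneg_left (a1.trans (mul_le_of_le_one_left (h0 u) hQ)) (h0 u)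
      rw [one_mul]
      exact le_of_sq_le_sq (by rw [sq (u ⬝ᵥ u)]; exact a2.trans a3) (h0 u)) (fun u => by
      simp only [form_ex]
      rw [← Complex.re_sum, ← mul_sum, ← dot_ex]
      exact (le_abs_self _).trans ((hre _).trans (hd (ex B u)))) h1
  simpa only [one_smul, one_mul, one_pow, Mc_add] using h

theorem phalf {c : ℂ} {X : ι → ι → ℂ} (hX : ∀ x y, X x y = X y x) {b : ℝ} (hb : 0 ≤ b)
    (h1 : trE (Mc B c X) < exp b) (h2 : trE (Mc B (-c) X) < exp b) (u : ι → ℂ) :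
    nS B (ap B (fun x y => ((c * X x y).re : ℂ)) u) ≤ b * nS B u := by
  have h3 := op_le (Mc_symm (B := B) c hX) hb
    (fun u => not_lt.1 fun a => absurd (exp_le_trE (Mc_symm c hX) a) (not_le.2 h1))
    (fun u => not_lt.1 fun a => absurd (exp_le_trE (Mc_symm (-c) hX) (by rwa [Mc_neg]))
      (not_le.2 h2))
  refine le_of_sq_le_sq ?_ (mul_nonneg hb (nS_nonneg _ _))
  rw [mul_pow, nS_sq, nS_sq, ← sum_coe_sort B, ← sum_coe_sort B]
  have a1 := h3 fun i => (u i).re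
  have a2 := h3 fun i => (u i).im
  have e1 : ∀ i : B, (ap B (fun x y => ((c * X x y).re : ℂ)) u i).re =
      (Mc B c X *ᵥ fun i => (u i).re) i := fun i => by
    rw [ap, ← sum_coe_sort B, Complex.re_sum]
    simp only [Complex.re_ofReal_mul, mulVec, dotProduct, Mc, of_apply]
  have e2 : ∀ i : B, (ap B (fun x y => ((c * X x y).re : ℂ)) u i).im =
      (Mc B c X *ᵥ fun i => (u i).im) i := fun i => by
    rw [ap, ← sum_coe_sort B, Complex.im_sum]
    simp only [Complex.im_ofReal_mul, mulVec, dotProduct, Mc, of_apply]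
  simp only [Complex.sq_norm, Complex.normSq_apply, e1, e2, sum_add_distrib]
  simp only [dotProduct] at a1 a2
  linarith

end FPotCA

open FPotCA in
theorem t_potc : S_POTC := by
  intro ι _ _ B
  refine ⟨fun X => trE (Mc B 1 X) + trE (Mc B (-1) X) + trE (Mc B (-Complex.I) X) +
    trE (Mc B (- -Complex.I) X), ?_, fun X hX => ?_, fun X b hX hb h u => ?_,
    fun V s X Y δ Q hX hY _ _ hQ hd hq => ?_⟩
  · simp only [Mc_zero, trE_zero, Fintype.card_coe]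
    ring
  · have := fun c => trE_nonneg (Mc_symm (B := B) c hX)
    exact add_nonneg (add_nonneg (add_nonneg (this _) (this _)) (this _)) (this _)
  · have h0 := fun c => trE_nonneg (Mc_symm (B := B) c hX)
    have a1 := h0 1
    have a2 := h0 (-1)
    have a3 := h0 (-Complex.I)
    have a4 := h0 (- -Complex.I)
    have b1 := phalf (B := B) (c := 1) hX hb (by linarith) (by linarith) u
    have b2 := phalf (B := B) (c := -Complex.I) hX hb (by linarith) (by linarith) u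
    have e : ap B X u = ap B (fun x y => ((1 * X x y).re : ℂ)) u +
        Complex.I • ap B (fun x y => ((-Complex.I * X x y).re : ℂ)) u := by
      funext x
      simp only [ap, Pi.add_apply, Pi.smul_apply, smul_eq_mul, mul_sum, ← sum_add_distrib]
      refine sum_congr rfl fun y _ => ?_
      rw [← mul_assoc, ← add_mul]
      congr 1
      apply Complex.ext <;> simp
    rw [e]
    refine (nS_add _ _ _).trans ?_
    rw [nS_smul, Complex.norm_I, one_mul]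
    linarith
  · have a1 := pstep (B := B) (c := 1) (by simp) s hX hY hQ hd hq
    have a2 := pstep (B := B) (c := -1) (by simp) s hX hY hQ hd hq
    have a3 := pstep (B := B) (c := -Complex.I) (by simp) s hX hY hQ hd hq
    have a4 := pstep (B := B) (c := - -Complex.I) (by simp) s hX hY hQ hd hq
    simp only [sum_sub_distrib, sum_add_distrib] at a1 a2 a3 a4 ⊢
    linarith

end Pool.Agent.P.MP_d0f69c_mp.XS
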