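import Pool.Agent.P.MP_d0f69c_mp.XS.IfFlow

/-!
The comparison of the forms along a history without a trip.
-/

set_option autoImplicit false
set_option linter.dupNamespace false

open Finset Real

namespace Pool.Agent.P.MP_d0f69c_mp.XS

namespace FUlhA

section generic

variable {ι : Type} [DecidableEq ι]

theorem hs_cons (z : ι × Bool) (h : List (ι × Bool)) : hs (z :: h) = insert z.1 (hs h) := by
  simp [hs]

theorem hs_mono {h h' : List (ι × Bool)} (a : h' <:+ h) : hs h' ⊆ hs h := fun _ hx =>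
  List.mem_toFinset.2 ((a.map _).subset (List.mem_toFinset.1 hx))

theorem cl_Wh (W : ι → ℂ) : ∀ h : List (ι × Bool), Cl W (hs h) (Wh W h)
  | [] => ⟨fun _ _ => rfl, fun x hx => by simp [hs] at hx⟩
  | z :: h => by
    obtain ⟨a, b⟩ := cl_Wh W h
    rw [hs_cons]
    refine ⟨fun x hx => ?_, fun x hx => ?_⟩
    · rw [mem_insert, not_or] at hx
      rw [Wh, Function.update_of_ne hx.1, a x hx.2]
    · by_cases e : x = z.1
      · rw [e, Wh, Function.update_self]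
        cases z.2 <;> simp [sgn]
      · rw [Wh, Function.update_of_ne e]
        exact b x ((mem_insert.1 hx).resolve_left e)

theorem sm_diff (W : ι → ℂ) (f g : (ι → ℂ) → Finset ι → ι → Bool → ℝ) (e : ι → ℝ) :
    ∀ h : List (ι × Bool), (h.map Prod.fst).Nodup →
      (∀ z h', z :: h' <:+ h →
        |f (Wh W h') (hs h') z.1 z.2 - g (Wh W h') (hs h') z.1 z.2| ≤ e z.1) →
      |Sm W f h - Sm W g h| ≤ ∑ v ∈ hs h, e v
  | [], _, _ => by simp [Sm, hs]
  | z :: h, a, b => by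
    rw [List.map_cons, List.nodup_cons] at a
    have h1 := sm_diff W f g e h a.2 fun z' h' c => b z' h' (c.trans (List.suffix_cons _ _))
    have h2 := b z h List.suffix_rfl
    rw [hs_cons, sum_insert (s := hs h) fun c => a.1 (List.mem_toFinset.1 c), Sm, Sm,
      add_sub_add_comm]
    linarith [abs_add_le (Sm W f h - Sm W g h)
      (f (Wh W h) (hs h) z.1 z.2 - g (Wh W h) (hs h) z.1 z.2)]

omit [DecidableEq ι] in
theorem En_shift {S : Finset ι} (K : ι → ι → ℝ) {F φ : ι → ℝ} {c : ℝ}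
    (h : ∀ x ∈ S, φ x = F x - c) : En S K φ = En S K F := by
  unfold En
  congr 1
  exact sum_congr rfl fun x hx => sum_congr rfl fun y hy => by
    rw [h x hx, h y hy, sub_sub_sub_cancel_right]

variable [Fintype ι]

omit [DecidableEq ι] in
theorem En_Kk {η : ℝ} {W : ι → ℂ} (G : Matrix ι ι ℂ) {O : Finset ι}
    (h : ∀ x ∉ O, aw η W x = 0) (F : ι → ℝ) : En univ (Kk η W G) F = En O (Kk η W G) F :=
  En_supp (subset_univ _) (fun x _ y _ a => by
    rcases a with a | a <;> simp [Kk, h _ a]) F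

theorem dk_le {q : Np} {σ : Sx ι} (hq : q.OK) (h : Fx q σ) {v : ι} (hv : v ∈ σ.rem) (b : Bool)
    (x y : ι) : |σ.dk v b x y| ≤
      10 * (‖σ.G v x‖ * ‖σ.G v y‖ * ‖σ.G x y‖ + ‖σ.G v x‖ ^ 2 * ‖σ.G v y‖ ^ 2) := by
  have ha : ∀ x, |σ.a x| ≤ 2 := fun x => by
    by_cases a : x ∈ σ.Op
    · have := abs_le.1 (h.a1 x a)
      exact abs_le.2 ⟨by linarith [this.1], by linarith [this.2]⟩
    · rw [h.a0 x a, abs_zero]; norm_num
  have h1 : |σ.a x * σ.a y| ≤ 4 := by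
    rw [abs_mul]
    nlinarith [ha x, ha y, abs_nonneg (σ.a x), abs_nonneg (σ.a y)]
  have h2 : |(σ.t v b * (σ.G x v * σ.G v y) * (starRingEnd ℂ) (σ.G x y)).re| ≤
      11 / 10 * (‖σ.G v x‖ * ‖σ.G v y‖ * ‖σ.G x y‖) := by
    refine (Complex.abs_re_le_norm _).trans ?_
    rw [norm_mul, norm_mul, norm_mul, Complex.norm_conj, h.sym x v, mul_assoc]
    exact mul_le_mul_of_nonneg_right (h.t1 v hv b) (by positivity)
  have h3 : 4 * q.mb / q.η ≤ 1 := by
    have hP : (10 : ℝ) ^ 9 ≤ q.P ^ 160 :=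
      hq.P9.trans (le_self_pow₀ (le_trans (by norm_num) hq.P9) (by norm_num))
    obtain ⟨a, c, -⟩ := hq.mb_le
    rw [le_div_iff₀ (by linarith)] at c
    rw [div_le_one hq.η0]
    nlinarith
  have h4 := (h.t3 v hv b).trans h3
  rw [h.sym x v] at h2
  rw [Sx.dk, abs_mul, h.sym x v]
  refine (mul_le_mul h1 (abs_add_le _ _) (abs_nonneg _) (by norm_num)).trans ?_
  rw [abs_mul, abs_mul, abs_of_nonneg (a := ‖σ.G v x‖ ^ 2 * ‖σ.G v y‖ ^ 2) (by positivity),
    abs_neg, abs_two]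
  have h5 : 0 ≤ ‖σ.G v x‖ ^ 2 * ‖σ.G v y‖ ^ 2 := by positivity
  have h6 : 0 ≤ ‖σ.G v x‖ * ‖σ.G v y‖ * ‖σ.G x y‖ := by positivity
  nlinarith [mul_le_mul_of_nonneg_left h4 h5]

end generic

end FUlhA

open FUlhA in
theorem t_ulh (h1 : S_CHAIN) (h2 : S_FX) (h3 : S_DEC) (h4 : S_EXA) (h5 : S_FARE)
    (h6 : S_LOCI) : S_ULH := by
  intro d M _ E q S c Z Sg h hH
  have hE := hH.hE
  have hq := hH.hq
  have hP := hq.Ppos hE
  have hθ : q.θ + 3 / (q.P : ℝ) ^ 3 ≤ 1 / 10 ^ 7 := hq.θ_add hE (by norm_num)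
  have hP3 : 0 < 1 / (q.P : ℝ) ^ 3 := by positivity
  have e3 : 3 / (q.P : ℝ) ^ 3 = 3 * (1 / (q.P : ℝ) ^ 3) := by ring
  have eθ : (q.b1 E.η).θ = q.θ + 1 / (q.P : ℝ) ^ 3 := rfl
  have hG := hH.inv.gok0 hE (by rw [eθ]; linarith)
  have hZO : Z ⊆ S.O := fun x hx => S.good_sub (mem_sdiff.1 (mem_inter.1 (hH.hZ hx)).1).1
  obtain ⟨κ, k0, k1, k2⟩ := h5 d M E q hE hq
  have hA := Par.OK.D_le_A (q := q) hE
  have hD1 := hq.D_one hE 2
  have hd := hE.d1
  induction hn : h.length using Nat.strong_induction_on generalizing h with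
  | _ n ih =>
  intro hnd hZ hB
  have hF : ∀ z h', z :: h' <:+ h → hs h' ⊆ Z ∧ z.1 ∈ Z \ hs h' ∧
      Bnd E q S c Z Sg (hs h') (Wh S.W h') ∧
      Fx (npOf E q) (mkS E q S c Z Sg (hs h') (Wh S.W h')) ∧ ∀ x ∈ S.O \ hs h',
        1 / 2 ≤ ∑ z ∈ univ.erase x, Kk E.η (Wh S.W h') (NW.GG S.H (Wh S.W h')) x z := by
    intro z h' a
    have a1 : h' <:+ h := (List.suffix_cons _ _).trans a
    have a2 := hnd.sublist (a.map Prod.fst).sublist
    rw [List.map_cons, List.nodup_cons] at a2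
    have a3 : hs h' ⊆ Z := (hs_mono a1).trans hZ
    have a4 : h'.length < n := by
      have := a.length_le
      rw [List.length_cons] at this
      omega
    exact ⟨a3, mem_sdiff.2 ⟨hZ (hs_mono a (by rw [hs_cons]; exact mem_insert_self _ _)),
      fun b => a2.1 (List.mem_toFinset.1 b)⟩, (hB h' a1).1,
      h2 d M E q S c Z Sg _ _ hH a3 (cl_Wh _ _) (hB h' a1).1
        (ih _ a4 h' rfl a2.2 a3 fun h'' b => hB h'' (b.trans a1))⟩
  obtain ⟨c1, c2⟩ := h1 _ E.η S.H S.W h hE.η0 hG.symm hG.im hnd fun z h' a => by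
    obtain ⟨-, a1, -, -, a2⟩ := hF z h' a
    exact lt_of_lt_of_le (by norm_num)
      (a2 z.1 (mem_sdiff.2 ⟨hZO (mem_sdiff.1 a1).1, (mem_sdiff.1 a1).2⟩))
  have err : ∀ F : Tor d M → ℝ,
      |Sm S.W (fun W' _ v b => En (univ.erase v) (dK E.η S.H W' v b) F) h| ≤
        2 * (1 / (q.P : ℝ) ^ 3) * NF E.p F := by
    intro F
    obtain ⟨c', l1, l2⟩ := (h6 d M E q.P (6 * q.A E.η d) F hE hq.P1
      ((hq.l0_le_D hE 2).trans (by omega))).2 {c} fun x hx y hy a =>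
        absurd ((mem_singleton.1 hx).trans (mem_singleton.1 hy).symm) a
    rw [sum_singleton] at l2
    have l3 := mem_bl.1 (l1 c)
    set φ := loc (tn d M) (d * (6 * q.A E.η d) + 6 * q.A E.η d) (6 * q.A E.η d) F (c' c) with hφ
    have b1 := (hB h List.suffix_rfl).2 φ fun x hx => loc_out F fun a => hx (mem_bl.2 (by
      have a1 := mem_bl.1 a
      have a2 := nm_tri x (c' c) c
      have a3 : q.A E.η d ≤ d * q.A E.η d := Nat.le_mul_of_pos_left _ hd
      have a4 : d * (6 * q.A E.η d) = 6 * (d * q.A E.η d) := by ring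
      have a5 : 24 * d * q.A E.η d = 24 * (d * q.A E.η d) := by ring
      omega))
    have b2 := sm_diff S.W (fun W' _ v b => En (univ.erase v) (dK E.η S.H W' v b) F)
      (fun W _ v b => Y5 E.η S.H W (q.D E.η 2) v b φ)
      (fun v => ∑ k, κ k * (F (v + k) - F v) ^ 2) h hnd fun z h' a => by
        obtain ⟨a1, a2, a3, a4, -⟩ := hF z h' a
        have a5 := ((h4 d M E q S c Z Sg _ _ hH a1 (cl_Wh _ _)).2.2.2.2.2.2 z.1 a2 z.2).2.1
        have a6 := mem_bl.1 (mem_inter.1 (hH.hZ (mem_sdiff.1 a2).1)).2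
        rw [Y5, En_shift _ fun x hx => loc_in (by omega) F (mem_bl.2 (by
          have a7 := mem_bl.1 (mem_of_mem_erase hx)
          have a8 := nm_tri x z.1 c
          have a9 := nm_tri x c (c' c)
          rw [nm_comm c] at a9
          omega))]
        refine k2 S.O _ (NW.GG S.H (Wh S.W h')) z.1 F (hZO (mem_sdiff.1 a2).1)
          (h3 d M E q S c Z Sg _ _ hH a1 (cl_Wh _ _) a3.b4).1 (fun x y hx hy a7 => ?_)
          fun x _ y _ hx hy => ?_
        · rw [a5 x y hx hy, Sx.dk]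
          rcases a7 with a7 | a7
          · rw [a4.a0 x fun a8 => a7 (mem_sdiff.1 a8).1, zero_mul, zero_mul]
          · rw [a4.a0 y fun a8 => a7 (mem_sdiff.1 a8).1, mul_zero, zero_mul]
        · rw [a5 x y hx hy]
          exact dk_le (npOf_OK hE hq) a4 a2 z.2 x y
    have b3 : ∑ v ∈ hs h, ∑ k, κ k * (F (v + k) - F v) ^ 2 ≤ 1 / (q.P : ℝ) ^ 4 * NF E.p F :=
      (sum_le_sum_of_subset_of_nonneg (subset_univ _) fun v _ _ =>
        sum_nonneg fun k _ => mul_nonneg (k0 k) (sq_nonneg _)).trans (k1 F)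
    have b4 := NF_nonneg hE.ref.p0 F
    have b5 : 1 / (q.P : ℝ) ^ 4 * NF E.p F ≤ 1 / (q.P : ℝ) ^ 3 * NF E.p F :=
      mul_le_mul_of_nonneg_right
        (one_div_le_one_div_of_le (by positivity) (hq.pow_le hE (by norm_num))) b4
    have b6 : Nm E.p φ / (q.P : ℝ) ^ 4 ≤ 1 / (q.P : ℝ) ^ 3 * NF E.p F := by
      rw [div_le_iff₀ (by positivity)]
      refine l2.trans ?_
      have e : 1 / (q.P : ℝ) ^ 3 * NF E.p F * (q.P : ℝ) ^ 4 = q.P * NF E.p F := by field_simp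
      rw [e]
      exact mul_le_mul_of_nonneg_right (by linarith) b4
    have b7 := abs_le.1 b1
    have b8 := abs_le.1 b2
    exact abs_le.2 ⟨by linarith [b7.1, b8.1], by linarith [b7.2, b8.2]⟩
  have w0 : ∀ x ∉ S.O, aw E.η S.W x = 0 := fun x hx => hH.inv.aw_zero hx
  have w1 : ∀ x ∉ S.O \ hs h, aw E.η (Wh S.W h) x = 0 := fun x hx => by
    rw [aw, (h4 d M E q S c Z Sg _ _ hH hZ (cl_Wh _ _)).2.2.2.1 x hx, neg_zero, zero_div]
  obtain ⟨u1, u2⟩ := hH.inv.ul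
  rw [eθ] at u1 u2
  refine ⟨fun F => ?_, fun f => ?_⟩
  · have a1 := c1 F
    rw [En_Kk _ w1, En_Kk _ w0] at a1
    have a2 : En S.O (Kk E.η S.W (NW.GG S.H S.W)) F ≤ _ := u1 F
    have a3 := (abs_le.1 (err F)).2
    have a4 := mul_le_mul_of_nonneg_right hθ (NF_nonneg hE.ref.p0 F)
    have a5 := NF_nonneg hE.ref.p0 F
    rw [e3] at a4
    linarith
  · obtain ⟨g, g1, g2⟩ := c2 f
    obtain ⟨F, F1, F2⟩ := u2 g
    refine ⟨F, fun x hx => (F1 x (mem_sdiff.1 hx).1).trans (g1 x (mem_sdiff.1 hx).2), ?_⟩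
    have a1 := g2 F fun x hx => F1 x (by
      by_contra a
      have a2 := hG.ηa x
      rw [w0 x a, mul_zero, eq_comm, neg_eq_zero] at a2
      exact hx a2)
    rw [En_Kk _ w1, En_Kk _ w0, En_congr _ F1] at a1
    have a2 : _ ≤ En S.O (Kk E.η S.W (NW.GG S.H S.W)) g := F2
    have a3 := (abs_le.1 (err F)).1
    have a4 := mul_le_mul_of_nonneg_right hθ (NF_nonneg hE.ref.p0 F)
    have a5 := NF_nonneg hE.ref.p0 F
    rw [e3] at a4
    linarith

end Pool.Agent.P.MP_d0f69c_mp.XS
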