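import Pool.Agent.P.MP_d0f69c_mp.XS.Num

/-!
Geometry of the scales.
-/

set_option autoImplicit false

open Finset Real

namespace Pool.Agent.P.MP_d0f69c_mp.XS

variable {d M : ℕ} [NeZero M] {E : Env d M} {q : Par}

theorem far_geom {l : ℝ} (hl : 0 < l) (n : ℕ) : ∑ k ∈ range n, exp (-(1 / l)) ^ k ≤ 1 + l := by
  have h1 : exp (-(1 / l)) * (1 / l + 1) ≤ 1 :=
    (mul_le_mul_of_nonneg_left (add_one_le_exp _) (exp_pos _).le).trans
      (by rw [← exp_add]; simp)
  have h2 : exp (-(1 / l)) < 1 := exp_lt_one_iff.2 (neg_neg_of_pos (by positivity))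
  have h3 := mul_neg_geom_sum (exp (-(1 / l))) n
  have h4 := pow_pos (exp_pos (-(1 / l))) n
  have h5 := mul_le_mul_of_nonneg_left h1 hl.le
  rw [mul_left_comm, mul_add, mul_one_div_cancel hl.ne'] at h5
  refine le_of_mul_le_mul_left ?_ (sub_pos.2 h2)
  rw [h3]
  linarith

theorem far_shell {l : ℝ} (hl : 0 < l) :
    ∑ z : Tor d M, exp (-(nm z : ℝ) / (4 * l)) * (1 + nm z) ^ 2 ≤
      (1 + 16 * l * (d + 2)) ^ (d + 2) * (1 + 8 * l) := by
  rw [← sum_fiberwise_of_maps_to (t := range (M / 2 + 1)) (g := nm)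
    fun z _ => mem_range.2 (Nat.lt_succ_of_le (tn_le_half z))]
  refine le_trans ?_ (mul_le_mul_of_nonneg_left (far_geom (l := 8 * l) (by positivity) (M / 2 + 1))
    (by positivity))
  rw [mul_sum]
  refine sum_le_sum fun k _ => ?_
  rw [sum_congr rfl fun z hz => by rw [(mem_filter.1 hz).2], sum_const, nsmul_eq_mul]
  have h1 : (#{z : Tor d M | nm z = k} : ℝ) ≤ (2 * k + 1) ^ d := by
    have : #{z : Tor d M | nm z = k} ≤ (2 * k + 1) ^ d :=
      (card_le_card fun z hz => mem_ball.2 (by simpa using (mem_filter.1 hz).2.le)).trans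
        (vol_tn_le k)
    exact_mod_cast this
  have hk : (0 : ℝ) ≤ k := Nat.cast_nonneg k
  have h2 : (2 * k + 1 : ℝ) ≤ (1 + 16 * l * (d + 2)) * exp (k / (8 * l * (d + 2))) := by
    refine le_trans ?_ (mul_le_mul_of_nonneg_left (add_one_le_exp _) (by positivity))
    have e : 16 * l * (d + 2) * (k / (8 * l * (d + 2))) = 2 * k := by field_simp; ring
    have : (0 : ℝ) ≤ k / (8 * l * (d + 2)) := by positivity
    have : (0 : ℝ) ≤ 16 * l * (d + 2) := by positivity
    generalize k / (8 * l * (d + 2)) = x at *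
    generalize 16 * l * (d + 2) = y at *
    linarith
  have h3 := pow_le_pow_left₀ (by positivity) h2 (d + 2)
  have h4 : exp (k / (8 * l * (d + 2))) ^ (d + 2) * exp (-(k : ℝ) / (4 * l)) =
      exp (-(1 / (8 * l))) ^ k := by
    rw [← exp_nat_mul, ← exp_nat_mul, ← exp_add]
    congr 1
    push_cast
    field_simp
    ring
  rw [← h4, ← mul_assoc (_ ^ (d + 2)), ← mul_pow, mul_comm (exp _), ← mul_assoc]
  refine mul_le_mul_of_nonneg_right (le_trans ?_ h3) (exp_pos _).le
  rw [pow_add]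
  exact mul_le_mul h1 (pow_le_pow_left₀ (by positivity) (by linarith) 2) (by positivity)
    (by positivity)

theorem far_four (hE : E.OK) (hq : q.OK E) (hf : q.fin = false) {i : ℕ} (hi : i ≤ 3) :
    ∑ z : Tor d M, exp (-(nm z : ℝ) / (4 * q.li E.η i)) * (1 + nm z) ^ 2 ≤
      exp (2 * (q.P : ℝ) ^ 2) := by
  have h0 : (1 : ℝ) ≤ q.li E.η i := by exact_mod_cast hq.li_one hE i
  have h1 : (d + 2) * q.li E.η i ≤ q.D E.η 3 := by
    refine le_trans (Nat.mul_le_mul_right _ ?_) (hq.D_mono hE hi)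
    have a1 := hq.Pd' hE
    have a2 : d ≤ d ^ 2 := Nat.le_self_pow (by norm_num) _
    have a4 := hE.d1
    have a3 : q.P ≤ q.P ^ 8 := Nat.le_self_pow (by norm_num) _
    omega
  have h2 : ((d : ℝ) + 2) * q.li E.η i ≤ q.D E.η 3 := by exact_mod_cast h1
  have h3 := (hq.vj hf).1
  have hd : (0 : ℝ) ≤ d := Nat.cast_nonneg d
  have h4 : (1 + 16 * q.li E.η i * (d + 2) : ℝ) ≤ 200 * q.D E.η 3 + 1 := by nlinarith
  refine (far_shell (by linarith)).trans ?_
  rw [two_mul, exp_add]
  refine mul_le_mul ((pow_le_pow_left₀ (by positivity) h4 _).trans h3)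
    (le_trans (le_trans (by nlinarith) (le_self_pow₀ ?_ (by omega))) h3) (by positivity)
    (exp_pos _).le
  exact le_add_of_nonneg_left (by positivity)

theorem far_two (hE : E.OK) (hq : q.OK E) (hf : q.fin = false) {i : ℕ} (hi : i ≤ 3) :
    ∑ z : Tor d M, exp (-(nm z : ℝ) / (2 * q.li E.η i)) * (1 + nm z) ^ 2 ≤
      exp (2 * (q.P : ℝ) ^ 2) := by
  have h0 : (1 : ℝ) ≤ q.li E.η i := by exact_mod_cast hq.li_one hE i
  refine (sum_le_sum fun z _ => mul_le_mul_of_nonneg_right (exp_le_exp.2 ?_) (by positivity)).trans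
    (far_four hE hq hf hi)
  rw [neg_div, neg_div, neg_le_neg_iff]
  exact div_le_div_of_nonneg_left (by positivity) (by positivity) (by linarith)

theorem far_all (hE : E.OK) (hq : q.OK E) {i : ℕ} (hi : i ≤ 3) :
    ∑ z : Tor d M, exp (-(nm z : ℝ) / (2 * q.li E.η i)) * (1 + nm z) ^ 2 ≤
      exp (4 * (q.P : ℝ) ^ 2) := by
  cases hf : q.fin
  · exact (far_two hE hq hf hi).trans (exp_le_exp.2 (by nlinarith [sq_nonneg (q.P : ℝ)]))
  have h1 := (hq.vf hf).2
  have hM : 1 ≤ M := Nat.pos_of_ne_zero (NeZero.ne M)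
  have h2 : (M : ℝ) ≤ exp ((q.P : ℝ) ^ 2) :=
    (le_self_pow₀ (by exact_mod_cast hM) (by have := hE.d1; omega)).trans h1
  refine (sum_le_card_nsmul _ _ (exp ((q.P : ℝ) ^ 2) ^ 2) fun z _ => ?_).trans ?_
  · have a2 : 1 + nm z ≤ M := by have := tn_le_half z; change nm z ≤ _ at this; omega
    have a3 : (1 + nm z : ℝ) ≤ M := by exact_mod_cast a2
    refine (mul_le_of_le_one_left (by positivity) (exp_le_one_iff.2 ?_)).trans
      (pow_le_pow_left₀ (by positivity) (a3.trans h2) 2)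
    rw [neg_div, neg_nonpos]
    positivity
  · rw [card_univ, Fintype.card_fun, ZMod.card, Fintype.card_fin, nsmul_eq_mul, Nat.cast_pow]
    refine (mul_le_mul_of_nonneg_right h1 (by positivity)).trans ?_
    rw [← exp_nat_mul, ← exp_add, exp_le_exp]
    push_cast
    nlinarith [sq_nonneg (q.P : ℝ)]

theorem t_far : S_FAR := by
  intro d M _ E q hE hq
  cases hf : q.fin
  · refine ⟨le_trans ?_ (hq.vj hf).1, fun i hi => ⟨?_, .inr (far_two hE hq hf hi)⟩⟩
    · have h1 : vl d M (100 * q.D E.η 3) ≤ (200 * q.D E.η 3 + 1) ^ (d + 2) :=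
        (vol_tn_le _).trans ((Nat.pow_le_pow_left (by omega) _).trans
          (Nat.pow_le_pow_right (by omega) (by omega)))
      exact_mod_cast h1
    have h0 : (1 : ℝ) ≤ q.li E.η i := by exact_mod_cast hq.li_one hE i
    refine (sum_le_sum (g := fun z : Tor d M => exp ((q.P : ℝ) ^ 6 - (q.P : ℝ) ^ 8 / 4) *
      (exp (-(nm z : ℝ) / (4 * q.li E.η i)) * (1 + nm z) ^ 2)) fun z hz => ?_).trans
      ((sum_le_sum_of_subset_of_nonneg (filter_subset _ _) fun _ _ _ => by positivity).trans ?_)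
    · rw [← mul_assoc, ← exp_add, ← exp_add]
      refine mul_le_mul_of_nonneg_right (exp_le_exp.2 ?_) (by positivity)
      have a1 : (q.P : ℝ) ^ 8 * q.li E.η i ≤ nm z := by
        exact_mod_cast (show q.P ^ 8 * q.li E.η i < nm z from (mem_filter.1 hz).2).le
      have a2 : (q.P : ℝ) ^ 8 / 4 ≤ nm z / (4 * q.li E.η i) := by
        rw [div_le_div_iff₀ (by norm_num) (by positivity)]
        linarith
      have a3 : -(nm z : ℝ) / (2 * q.li E.η i) =
          -(nm z : ℝ) / (4 * q.li E.η i) - nm z / (4 * q.li E.η i) := by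
        field_simp
        ring
      linarith
    · rw [← mul_sum]
      refine (mul_le_mul_of_nonneg_left (far_four hE hq hf hi) (exp_pos _).le).trans ?_
      rw [← exp_add, Par.τ, exp_le_exp]
      have a1 := hq.pow_lt hE (a := 7) (b := 8) (c := 16) (by norm_num) (by norm_num)
      have a2 := hq.pow_le hE (a := 6) (b := 7) (by norm_num)
      have a3 := hq.pow_le hE (a := 2) (b := 7) (by norm_num)
      linarith
  · obtain ⟨h1, h2⟩ := hq.vf hf
    refine ⟨le_trans ?_ h2, fun i _ => ⟨?_, .inl h1⟩⟩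
    · have h3 : vl d M (100 * q.D E.η 3) ≤ M ^ d := by
        rw [vl, vol_tn]
        exact Nat.pow_le_pow_left (min_le_right _ _) _
      exact_mod_cast h3
    · rw [Far, filter_eq_empty_iff.2 fun z _ => ?_, sum_empty]
      · exact (Par.OK.τpos q).le
      · have a1 := tn_le_half z
        have a2 := (hq.l_le_li hE i).trans (hq.li_le_D hE i)
        change nm z ≤ _ at a1
        omega

end Pool.Agent.P.MP_d0f69c_mp.XS
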