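import Pool.Agent.P.MP_d0f69c_mp.XS.IfSel

/-!
Independence of events that depend on disjoint sets of coordinates.
-/

set_option autoImplicit false

open Finset Real

namespace Pool.Agent.P.MP_d0f69c_mp.XS

variable {ι κ : Type} [Fintype ι] [DecidableEq ι] [Fintype κ] [Nonempty κ]

theorem av_mul_indep (D : Finset ι) (f g : (ι → κ) → ℝ)
    (hf : ∀ w w', (∀ x ∈ D, w x = w' x) → f w = f w')
    (hg : ∀ w w', (∀ x ∉ D, w x = w' x) → g w = g w') :
    av (fun w => f w * g w) = av f * av g := by
  classical
  let e := (Equiv.piEquivPiSubtypeProd (fun x => x ∈ D) fun _ => κ).symm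
  let a0 : {x // x ∈ D} → κ := fun _ => Classical.arbitrary κ
  let b0 : {x // ¬ x ∈ D} → κ := fun _ => Classical.arbitrary κ
  have h1 : ∀ z, f (e z) = f (e (z.1, b0)) := fun z => hf _ _ fun x hx => by
    simp [e, Equiv.piEquivPiSubtypeProd, hx]
  have h2 : ∀ z, g (e z) = g (e (a0, z.2)) := fun z => hg _ _ fun x hx => by
    simp [e, Equiv.piEquivPiSubtypeProd, hx]
  have e1 : av f = av fun a => f (e (a, b0)) := by
    rw [← av_equiv e f, funext h1]
    exact av_fst fun a => f (e (a, b0))
  have e2 : av g = av fun b => g (e (a0, b)) := by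
    rw [← av_equiv e g, funext h2]
    exact av_snd fun b => g (e (a0, b))
  have e3 : (fun z => f (e z) * g (e z)) = fun z => f (e (z.1, b0)) * g (e (a0, z.2)) :=
    funext fun z => by rw [← h1, ← h2]
  rw [← av_equiv e fun w => f w * g w, e3, av_prod, e1, e2]
  simp only [av_mul]
  rw [mul_comm (av _), ← av_mul]
  simp only [mul_comm]

theorem pr_and_indep (D : Finset ι) (A B : (ι → κ) → Prop)
    (hA : ∀ w w', (∀ x ∈ D, w x = w' x) → A w → A w')
    (hB : ∀ w w', (∀ x ∉ D, w x = w' x) → B w → B w') :
    pr (fun w => A w ∧ B w) = pr A * pr B := by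
  classical
  rw [pr_eq_av, pr_eq_av, pr_eq_av, ← av_mul_indep D]
  · congr 1
    funext w
    by_cases a : A w <;> by_cases b : B w <;> simp [a, b]
  · intro w w' h
    exact if_congr ⟨hA w w' h, hA w' w fun x hx => (h x hx).symm⟩ rfl rfl
  · intro w w' h
    exact if_congr ⟨hB w w' h, hB w' w fun x hx => (h x hx).symm⟩ rfl rfl

theorem t_indep : S_INDEP := by
  classical
  intro ι κ L _ _ _ _ I D A hD hA
  induction I using Finset.induction_on with
  | empty => simpa using pr_true (α := ι → κ) (A := fun _ => True) fun _ => trivial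
  | insert a s ha ih =>
    rw [prod_insert ha, ← ih (fun i hi j hj => hD i (mem_insert_of_mem hi) j (mem_insert_of_mem hj))
      (fun i hi => hA i (mem_insert_of_mem hi)),
      ← pr_and_indep (D a) _ _ (hA a (mem_insert_self a s))]
    · exact pr_congr fun w => forall_mem_insert a s fun i => A i w
    · intro w w' h h1 i hi
      refine hA i (mem_insert_of_mem hi) w w' (fun x hx => h x ?_) (h1 i hi)
      exact disjoint_left.1 (hD i (mem_insert_of_mem hi) a (mem_insert_self a s)
        (fun e => ha (e ▸ hi))) hx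

end Pool.Agent.P.MP_d0f69c_mp.XS
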