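import Pool.Agent.P.MP_d0f69c_mp.XS.Num

/-!
Localisation of the reference form, and the hypotheses of the positivity lemma.
-/

set_option autoImplicit false

open Finset Real

namespace Pool.Agent.P.MP_d0f69c_mp.XS

namespace LociA

theorem num {CS l D M m k : ℝ} (hc : 1 ≤ CS) (hl : 1 ≤ l) (hD : l ≤ D) (hM : 1 ≤ M) (h0 : 0 ≤ m)
    (hk : 1 ≤ k) (h1 : m ≤ 6 * k * D) (h2 : m ≤ M) :
    2 + (2 * (CS * l ^ 2) / D ^ 2 + 1 / M ^ 2) * (CS * (1 + m ^ 2 / l ^ 2)) ≤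
      78 * (k ^ 2 * CS ^ 2) := by
  have l0 : 0 < l := by linarith
  have D0 : 0 < D := by linarith
  have M0 : 0 < M := by linarith
  have e : (2 * (CS * l ^ 2) / D ^ 2 + 1 / M ^ 2) * (CS * (1 + m ^ 2 / l ^ 2)) =
      2 * CS ^ 2 * ((l / D) ^ 2 + (m / D) ^ 2) + CS * ((1 / M) ^ 2 + (m / M * (1 / l)) ^ 2) := by
    field_simp
  have a1 : (l / D) ^ 2 ≤ 1 := pow_le_one₀ (by positivity) ((div_le_one D0).2 hD)
  have a2 : (m / D) ^ 2 ≤ (6 * k) ^ 2 := pow_le_pow_left₀ (by positivity) ((div_le_iff₀ D0).2 h1) 2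
  have a3 : (1 / M) ^ 2 ≤ 1 := pow_le_one₀ (by positivity) ((div_le_one M0).2 hM)
  have a4 : (m / M * (1 / l)) ^ 2 ≤ 1 := pow_le_one₀ (by positivity)
    (mul_le_one₀ ((div_le_one M0).2 h2) (by positivity) ((div_le_one l0).2 hl))
  have b1 := mul_le_mul_of_nonneg_left (add_le_add a1 a2) (by positivity : 0 ≤ 2 * CS ^ 2)
  have b2 := mul_le_mul_of_nonneg_left (add_le_add a3 a4) (by linarith : 0 ≤ CS)
  have b3 : CS ^ 2 ≤ k ^ 2 * CS ^ 2 := le_mul_of_one_le_left (sq_nonneg _) (one_le_pow₀ hk)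
  have b4 : CS ≤ CS ^ 2 := le_self_pow₀ hc two_ne_zero
  rw [e]
  linarith

variable {d M : ℕ} [NeZero M] {E : Env d M}

theorem Nm_nonneg (hE : E.OK) (F : Tor d M → ℝ) : 0 ≤ Nm E.p F :=
  add_nonneg (NF_nonneg hE.ref.p0 F) (div_nonneg (sum_nonneg fun _ _ => sq_nonneg _) (sq_nonneg _))

theorem all (hE : E.OK) {P : ℝ} {D : ℕ} (F : Tor d M → ℝ)
    (hP : 10 ^ 9 * (d : ℝ) ^ 2 * E.CS ^ 2 ≤ P) (hD : E.l0 ≤ D) :
    ∑ p, Nm E.p (loc (tn d M) (d * D + D) D F p) ≤ P / 10 ^ 6 * vl d M (d * D) * NF E.p F := by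
  have l1 := hE.ref.l1
  have c1 := hE.ref.c1
  have n0 := NF_nonneg hE.ref.p0 F
  have M1 : 1 ≤ M := NeZero.one_le
  have k1 : D ≤ d * D := Nat.le_mul_of_pos_left D hE.d1
  have h1 := (tn_NG d M).loc_sum hE.ref.p0 hE.ref.mom (R := d * D + D) (D := D) (by omega)
    (κ := 1 / (M : ℝ) ^ 2) (by positivity) F
    (S := E.CS * (1 + ((min (6 * (d * D)) M : ℕ) : ℝ) ^ 2 / (E.l0 : ℝ) ^ 2)) (fun h hh => by
      refine (hE.ref.shift h F).trans ?_
      have := tn_le_half h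
      have : nm h ≤ min (6 * (d * D)) M := by
        unfold nm
        omega
      gcongr)
  have h2 := num (m := ((min (6 * (d * D)) M : ℕ) : ℝ)) (D := D) (M := M) (l := E.l0) (k := d) c1
    (by exact_mod_cast l1) (by exact_mod_cast hD) (by exact_mod_cast M1) (by positivity)
    (by exact_mod_cast hE.d1) (by rw [mul_assoc]; exact_mod_cast min_le_left _ _)
    (by exact_mod_cast min_le_right _ _)
  have h3 : (vol (tn d M) (d * D + D + D) : ℝ) ≤ 10 * vl d M (d * D) := by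
    have := vol_tn_shell (M := M) (k := 2) (le_refl (d * D))
    rw [two_mul, ← add_assoc] at this
    refine this.trans (mul_le_mul_of_nonneg_right ?_ (Nat.cast_nonneg _))
    have e : exp ((2 : ℕ) : ℝ) = exp 1 ^ 2 := by rw [← exp_nat_mul]; norm_num
    rw [e]
    exact (pow_le_pow_left₀ (exp_pos _).le exp_one_lt_three.le 2).trans (by norm_num)
  calc _ = _ := sum_congr rfl fun p _ => by rw [Nm, div_eq_inv_mul, ← one_div]
    _ ≤ _ := h1
    _ ≤ 10 * vl d M (d * D) * (78 * ((d : ℝ) ^ 2 * E.CS ^ 2) * NF E.p F) := by gcongr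
    _ = 780 * ((d : ℝ) ^ 2 * E.CS ^ 2) * vl d M (d * D) * NF E.p F := by ring
    _ ≤ _ := by
      gcongr
      have : (0 : ℝ) ≤ (d : ℝ) ^ 2 * E.CS ^ 2 := by positivity
      linarith

theorem mass (hE : E.OK) {O : Finset (Tor d M)} (hO : Cover E O) (F : Tor d M → ℝ) :
    ∑ x, F x ^ 2 ≤ 2 * (vl d M E.ρs * ∑ x ∈ O, F x ^ 2) +
      2 * (vl d M E.ρs * (E.CS * (1 + (E.ρs : ℝ) ^ 2) * NF E.p F)) := by
  have h1 : ∀ x, F x ^ 2 ≤ 2 * ∑ y ∈ bl x E.ρs, (if y ∈ O then F y ^ 2 else 0) +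
      2 * ∑ h ∈ bl 0 E.ρs, (F (x + h) - F x) ^ 2 := fun x => by
    obtain ⟨o, a, b⟩ := hO x
    rw [nm_comm] at b
    have a1 := single_le_sum (f := fun y => if y ∈ O then F y ^ 2 else 0) (s := bl x E.ρs)
      (fun y _ => by split_ifs <;> positivity) (mem_bl.2 b)
    have a2 := single_le_sum (f := fun h => (F (x + h) - F x) ^ 2) (s := bl 0 E.ρs) (a := o - x)
      (fun y _ => sq_nonneg _) (mem_bl.2 (by rwa [sub_zero]))
    simp only [if_pos a, add_sub_cancel] at a1 a2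
    nlinarith [sq_nonneg (2 * F o - F x)]
  have h2 : ∑ h ∈ bl (0 : Tor d M) E.ρs, ∑ x, (F (x + h) - F x) ^ 2 ≤
      vl d M E.ρs * (E.CS * (1 + (E.ρs : ℝ) ^ 2) * NF E.p F) := by
    refine (sum_le_card_nsmul _ _ _ fun h hh => (hE.ref.shift h F).trans ?_).trans_eq
      (by rw [nsmul_eq_mul, card_ball])
    have a1 : nm h ≤ E.ρs := by simpa using mem_bl.1 hh
    have a2 : (1 : ℝ) ≤ E.l0 := by exact_mod_cast hE.ref.l1
    have a3 := NF_nonneg hE.ref.p0 F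
    have a4 := hE.ref.c1
    have a5 : (nm h : ℝ) ^ 2 / (E.l0 : ℝ) ^ 2 ≤ (E.ρs : ℝ) ^ 2 :=
      (div_le_self (sq_nonneg _) (one_le_pow₀ a2)).trans (by gcongr)
    gcongr
  have h3 := sum_le_sum fun x (_ : x ∈ univ) => h1 x
  rw [sum_add_distrib, ← mul_sum, ← mul_sum, (tn_NG d M).sum_sum_ball, sum_ite_mem, univ_inter,
    sum_comm] at h3
  linarith

theorem single (hE : E.OK) (x : Tor d M) : NF E.p (Pi.single x 1) ≤ 1 + 1 / 10 ^ 8 := by
  have h1 : NF E.p (Pi.single x 1) = ∑ y ∈ univ.erase x, E.p (x - y) :=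
    En_single (S := univ) (K := fun x y => E.p (x - y))
      (fun x y => by rw [← hE.ref.pe, neg_sub]) (mem_univ x)
  have h2 : ∑ y ∈ univ.erase x, E.p (x - y) = ∑ h ∈ univ.erase 0, E.p h :=
    sum_equiv (Equiv.subLeft x) (fun y => by simp [sub_eq_zero, eq_comm]) fun _ _ => rfl
  have := (abs_le.1 hE.ref.tot).2
  linarith

end LociA

open LociA

theorem t_loci : S_LOCI := fun d M _ E P D F hE hP hD => by
  refine ⟨all hE F hP hD, fun C hC => ?_⟩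
  obtain ⟨c, h1, h2⟩ := (tn_NG d M).select C (d * D) hC
    (g := fun q => Nm E.p (loc (tn d M) (d * D + D) D F q)) fun q => Nm_nonneg hE _
  have h3 : (0 : ℝ) < vl d M (d * D) := by exact_mod_cast (tn_NG d M).vol_pos (d * D)
  refine ⟨c, h1, le_of_mul_le_mul_left ((h2.trans (all hE F hP hD)).trans_eq ?_) h3⟩
  ring

theorem t_pci : S_PCI := fun d M _ E K O A θ hE hK hU h0 h1 hA hC => by
  obtain ⟨c, c1, c2⟩ := hE.ref.var
  obtain ⟨c3, c4⟩ := abs_le.1 c1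
  refine ⟨c, c2, by norm_num, by norm_num, by linarith, by linarith, fun x _ => ?_, hK,
    fun F => ?_, fun x _ => ?_, fun f => ?_⟩
  · have a1 := (single_le_sum (f := fun x => E.gt x ^ 2) (fun _ _ => sq_nonneg _)
      (mem_univ (x - x))).trans hE.ref.gam
    have a2 := le_of_sq_le_sq a1 hE.γ00
    have a3 := hE.γ01
    have a4 := hE.η1
    linarith
  · have a1 := mass hE (hC.mono hA) F
    have a2 := hE.mass
    have a3 := NF_nonneg hE.ref.p0 F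
    have a4 : 0 ≤ ∑ x ∈ O, F x ^ 2 := sum_nonneg fun _ _ => sq_nonneg _
    have a5 : (0 : ℝ) < (M : ℝ) ^ 2 := pow_pos (Nat.cast_pos.2 (NeZero.pos M)) 2
    have a6 : (vl d M E.ρs : ℝ) ≤ vl d M E.ρs * (E.CS * (1 + (E.ρs : ℝ) ^ 2)) :=
      le_mul_of_one_le_right (by positivity)
        (one_le_mul_of_one_le_of_one_le hE.ref.c1 (le_add_of_nonneg_right (sq_nonneg _)))
    have a7 := mul_le_mul_of_nonneg_right a2 a3
    have a8 := mul_le_mul_of_nonneg_right a2 a4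
    have a9 := mul_le_mul_of_nonneg_right a6 a4
    have b1 := mul_nonneg a5.le a3
    have b2 := mul_nonneg a5.le a4
    have : (∑ x, F x ^ 2) / (M : ℝ) ^ 2 ≤
        1 / 10 ^ 6 * NF E.p F + 1 / 10 ^ 6 * ∑ x ∈ O, F x ^ 2 := by
      rw [div_le_iff₀ a5]
      linarith
    rw [Nm]
    linarith
  · have a1 := hU.1 (Pi.single x 1)
    have a2 := mul_le_mul (by linarith : 1 + θ ≤ 1 + 2 / 10 ^ 7) (single hE x)
      (NF_nonneg hE.ref.p0 _) (by norm_num)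
    linarith
  · obtain ⟨F, a1, a2⟩ := hU.2 f
    have a3 := mul_le_mul_of_nonneg_right (by linarith : 1 - 1 / 10 ^ 6 ≤ 1 - θ)
      (NF_nonneg hE.ref.p0 F)
    exact ⟨F, a1, a3.trans a2⟩

end Pool.Agent.P.MP_d0f69c_mp.XS
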