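import Pool.Agent.P.MP_d0f69c_mp.XS.M2B

/-!
The monitor of the fourth powers.
-/

set_option autoImplicit false

open Finset Real

namespace Pool.Agent.P.MP_d0f69c_mp.XS

namespace M2A

variable {ι : Type} [DecidableEq ι]

/-- the facts that are used, for the kernel `K` without diagonal and the row `x` -/
structure Dat (q : Np) (r n s : ℝ) (K : ι → ι → ℂ) (rem Sg : Finset ι) (x : ι)
    (t : ι → Bool → ℂ) : Prop where
  ok : q.OK
  r0 : q.μ ≤ r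
  r1 : r ≤ q.η / q.P ^ 200
  hn : n = q.P ^ 20 * r ^ 2
  s0 : 0 < s
  s2 : s ^ 2 = n * (∑ y ∈ rem, ‖K x y‖ ^ 4 + n / q.P ^ 8)
  dis : Disjoint rem Sg
  sym : ∀ a b, K a b = K b a
  op : OpLe (rem ∪ Sg) K (3 / q.η)
  row : ∀ y ∈ rem ∪ Sg, ∑ v ∈ rem ∪ Sg, ‖K y v‖ ^ 2 ≤ 2
  rowx : ∑ v ∈ rem ∪ Sg, ‖K x v‖ ^ 2 ≤ 11 / 10
  k4 : ∀ y ∈ rem ∪ Sg, ∑ v ∈ rem ∪ Sg, ‖K y v‖ ^ 4 ≤ 26 * (q.P ^ 20 * q.μ ^ 2)
  x4 : ∑ y ∈ rem, ‖K x y‖ ^ 4 ≤ 25 * n
  g4 : ∑ y ∈ Sg, ‖K x y‖ ^ 4 ≤ n / 16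
  amp : ∀ y ∈ rem, ‖K x y‖ ^ 2 ≤ r
  t1 : ∀ v ∈ rem, ∀ b, ‖t v b‖ ≤ 11 / 10
  t2 : ∀ v ∈ rem, ‖t v true + t v false‖ ≤ 3 * q.mb
  pc : ∀ (f : ι → ℝ) (l : ℝ), 0 ≤ l → (∀ x, 0 ≤ f x) → ∑ x ∈ rem ∪ Sg, f x ^ 2 ≤ l ^ 2 →
    ∑ x ∈ rem ∪ Sg, ∑ y ∈ rem ∪ Sg, f x * ‖K x y‖ ^ 2 * f y ≤
      (∑ x ∈ rem ∪ Sg, f x ^ 2) / 10 ^ 5 + 3 * q.μ * l * ∑ x ∈ rem ∪ Sg, f x

namespace Dat

variable {q : Np} {r n s : ℝ} {K : ι → ι → ℂ} {rem Sg A : Finset ι} {x : ι} {t : ι → Bool → ℂ}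
  (h : Dat q r n s K rem Sg x t)
include h

theorem P1 : 1 ≤ q.P := le_trans (by norm_num) h.ok.P9

theorem P0 : 0 < q.P := one_pos.trans_le h.P1

theorem rp : 0 < r := h.ok.μ0.trans_le h.r0

theorem n0 : 0 < n := by have := h.P0; have := h.rp; rw [h.hn]; positivity

theorem nη : n ≤ q.η ^ 2 / q.P ^ 380 := by
  have := h.P0
  have a := mul_le_mul_of_nonneg_left (pow_le_pow_left₀ h.rp.le h.r1 2)
    (by positivity : 0 ≤ q.P ^ 20)
  rw [h.hn]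
  exact a.trans_eq (by field_simp)

theorem n1 : n ≤ 1 / q.P ^ 380 := h.nη.trans (div_le_div_of_nonneg_right
  (pow_le_one₀ h.ok.η0.le (h.ok.η1.trans (by norm_num))) (pow_nonneg h.P0.le _))

theorem μn : q.P ^ 20 * q.μ ^ 2 ≤ n := by
  rw [h.hn]
  exact mul_le_mul_of_nonneg_left (pow_le_pow_left₀ h.ok.μ0.le h.r0 2) (pow_nonneg h.P0.le _)

theorem slo : n ≤ q.P ^ 4 * s := by
  have := h.P0
  have := h.n0
  have := h.s0
  refine le_of_sq_le_sq ?_ (by positivity)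
  have e : (q.P ^ 4) ^ 2 * (n * (n / q.P ^ 8)) = n ^ 2 := by field_simp
  have a : 0 ≤ (q.P ^ 4) ^ 2 * (n * ∑ y ∈ rem, ‖K x y‖ ^ 4) := by positivity
  rw [mul_pow, h.s2]
  linarith

theorem shi : s ≤ 6 * n := by
  have a : n / q.P ^ 8 ≤ n := div_le_self h.n0.le (one_le_pow₀ h.P1)
  refine le_of_sq_le_sq ?_ (by linarith [h.n0])
  rw [h.s2]
  nlinarith [h.n0, h.x4]

theorem c1 : n / (200 * s) ≤ q.P ^ 4 / 200 := by
  rw [div_le_div_iff₀ (by linarith [h.s0]) (by norm_num)]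
  linarith [h.slo]

theorem ρ1 (y : ι) : 0 ≤ (if y ∈ rem then n / (200 * s) else 1) ∧
    (if y ∈ rem then n / (200 * s) else 1) ≤ q.P ^ 4 := by
  have a : 1 ≤ q.P ^ 4 := one_le_pow₀ h.P1
  have := h.n0
  have := h.s0
  split_ifs
  exacts [⟨by positivity, by linarith [h.c1]⟩, ⟨zero_le_one, a⟩]

theorem c4 : ∑ y ∈ rem ∪ Sg, ‖K x y‖ ^ 4 ≤ 26 * n := by
  rw [sum_union h.dis]; linarith [h.x4, h.g4, h.n0]

theorem a4 (hA : A ⊆ rem) : ∑ y ∈ A, ‖K x y‖ ^ 4 ≤ 25 * n :=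
  (sum_le_sum_of_subset_of_nonneg hA fun _ _ _ => by positivity).trans h.x4

/-- the main part of the drift, by the positivity lemma -/
theorem main (hA : A ⊆ rem) : ∑ v ∈ A, ∑ y ∈ rem ∪ Sg, (if y ∈ rem then n / (200 * s) else 1) *
    (‖K x y‖ ^ 2 * ‖K x v * K v y‖ ^ 2) ≤ 2 * s / 10 ^ 5 + 10 * (n / q.P ^ 8) := by
  have P0 := h.P0
  have n0 := h.n0
  have s0 := h.s0
  have r0 := h.rp
  obtain ⟨β, β0, β2⟩ : ∃ β : ℝ, 0 < β ∧ β ^ 2 = s / n :=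
    ⟨√(s / n), sqrt_pos.2 (by positivity), sq_sqrt (by positivity)⟩
  have p2 : 1 ≤ q.P ^ 2 := one_le_pow₀ h.P1
  have b1 : β ≤ q.P ^ 2 := by
    refine le_of_sq_le_sq ?_ (by positivity)
    rw [β2, div_le_iff₀ n0]
    have : 6 ≤ (q.P ^ 2) ^ 2 := by nlinarith [h.ok.P9]
    nlinarith [h.shi]
  have b2 : 1 / β ≤ q.P ^ 2 := by
    refine le_of_sq_le_sq ?_ (by positivity)
    rw [div_pow, β2, one_pow, one_div_div, div_le_iff₀ s0]
    linarith [h.slo]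
  set f : ι → ℝ := fun y => (if y ∈ rem then 1 / β else β) * ‖K x y‖ ^ 2 with hf
  have f0 : ∀ y, 0 ≤ f y := fun y => by simp only [hf]; split_ifs <;> positivity
  have f2 : ∑ y ∈ rem ∪ Sg, f y ^ 2 ≤ 17 / 16 * s := by
    have e : ∀ y, f y ^ 2 = (if y ∈ rem then n / s else s / n) * ‖K x y‖ ^ 4 := fun y => by
      simp only [hf]
      split_ifs
      · rw [mul_pow, div_pow, β2, one_pow, one_div_div]; ring
      · rw [mul_pow, β2]; ring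
    simp only [e]
    rw [sum_two h.dis]
    have a1 : n / s * ∑ y ∈ rem, ‖K x y‖ ^ 4 ≤ s := by
      rw [div_mul_eq_mul_div, div_le_iff₀ s0, ← sq, h.s2]
      exact mul_le_mul_of_nonneg_left (le_add_of_nonneg_right (by positivity)) n0.le
    have a2 := mul_le_mul_of_nonneg_left h.g4 (by positivity : 0 ≤ s / n)
    have a3 : s / n * (n / 16) = s / 16 := by field_simp
    linarith
  have f1 : ∑ y ∈ rem ∪ Sg, f y ≤ q.P ^ 2 * (11 / 10) := by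
    refine le_trans (sum_le_sum fun y _ => ?_) ((mul_sum _ _ _).symm.trans_le
      (mul_le_mul_of_nonneg_left h.rowx (by positivity)))
    exact mul_le_mul_of_nonneg_right (by split_ifs; exacts [b2, b1]) (sq_nonneg _)
  have a1 := h.pc f (3 * q.P ^ 10 * r) (by positivity) f0 (by
    have e : (3 * q.P ^ 10 * r) ^ 2 = 9 * n := by rw [h.hn]; ring
    linarith [h.shi])
  have a2 : 3 * q.μ * (3 * q.P ^ 10 * r) * ∑ y ∈ rem ∪ Sg, f y ≤
      3 * r * (3 * q.P ^ 10 * r) * (q.P ^ 2 * (11 / 10)) := by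
    have := h.r0
    have := sum_nonneg fun y (_ : y ∈ rem ∪ Sg) => f0 y
    gcongr
  have a3 : 3 * r * (3 * q.P ^ 10 * r) * (q.P ^ 2 * (11 / 10)) = 99 / 10 * (n / q.P ^ 8) := by
    rw [h.hn]; field_simp; ring
  have a4 : 0 ≤ n / q.P ^ 8 := by positivity
  refine le_trans (le_trans (sum_le_sum fun v hv => sum_le_sum fun y _ => ?_)
    (sum_le_sum_of_subset_of_nonneg (hA.trans subset_union_left) fun v _ _ =>
      sum_nonneg fun y _ => mul_nonneg (mul_nonneg (f0 v) (sq_nonneg _)) (f0 y)))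
    (a1.trans (by linarith))
  simp only [hf, if_pos (hA hv), norm_mul, mul_pow]
  split_ifs
  · have e : 1 / β * ‖K x v‖ ^ 2 * ‖K v y‖ ^ 2 * (1 / β * ‖K x y‖ ^ 2) =
        n / s * (‖K x y‖ ^ 2 * (‖K x v‖ ^ 2 * ‖K v y‖ ^ 2)) := by
      rw [← one_div_div s n, ← β2]; field_simp
    rw [e]
    exact mul_le_mul_of_nonneg_right (div_le_div_of_nonneg_left n0.le s0 (by linarith))
      (by positivity)
  · exact le_of_eq (by field_simp)

theorem quart {v : ι} (hv : v ∈ rem) : ∑ y ∈ rem ∪ Sg, (if y ∈ rem then n / (200 * s) else 1) *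
    ‖K x v * K v y‖ ^ 4 ≤ q.P ^ 4 * (26 * n) * ‖K x v‖ ^ 4 := by
  have P0 := h.P0
  refine le_trans (sum_le_sum (g := fun y => q.P ^ 4 * ‖K x v‖ ^ 4 * ‖K v y‖ ^ 4) fun y _ => ?_) ?_
  · rw [norm_mul, mul_pow, mul_assoc]
    exact mul_le_mul_of_nonneg_right (h.ρ1 y).2 (by positivity)
  · rw [← mul_sum, mul_right_comm]
    refine mul_le_mul_of_nonneg_right (mul_le_mul_of_nonneg_left ?_ (by positivity)) (by positivity)
    linarith [h.k4 v (mem_union_left _ hv), h.μn]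

theorem drift (hA : A ⊆ rem) (hx : ∑ y ∈ A, ‖K x y‖ ^ 4 = ∑ y ∈ rem, ‖K x y‖ ^ 4) :
    ∑ v ∈ A, ((∑ y ∈ rem ∪ Sg, (if y ∈ rem then n / (200 * s) else 1) * chg K x v (t v true) y -
        n / (200 * s) * ‖K x v‖ ^ 4) +
      (∑ y ∈ rem ∪ Sg, (if y ∈ rem then n / (200 * s) else 1) * chg K x v (t v false) y -
        n / (200 * s) * ‖K x v‖ ^ 4)) / 2 ≤ 4 * (n / q.P ^ 4) := by
  have P0 := h.P0
  have n0 := h.n0
  have s0 := h.s0
  have AC : A ⊆ rem ∪ Sg := hA.trans subset_union_left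
  have d1 := (lin_drift (α := K x) AC Subset.rfl h.sym h.op h.row
    ((sum_le_sum_of_subset_of_nonneg AC fun _ _ _ => sq_nonneg _).trans (h.rowx.trans (by norm_num)))
    h.c4 h.ρ1 (by positivity) (e := fun v => t v true + t v false) (fun v hv => h.t2 v (hA hv))
    (by linarith [h.ok.mb_le.1]) (ε := 1 / q.P ^ 9) (by positivity)).trans
    (num1 h.ok.P9 h.ok.μ0 h.r0 h.ok.η0 h.hn rfl h.ok.mb_le.2.1)
  have d2 := h.main hA
  have d3 : ∑ v ∈ A, ∑ y ∈ rem ∪ Sg, (if y ∈ rem then n / (200 * s) else 1) *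
      ‖K x v * K v y‖ ^ 4 ≤ q.P ^ 4 * (26 * n) * (25 * n) :=
    (sum_le_sum fun v hv => h.quart (hA hv)).trans ((mul_sum _ _ _).symm.trans_le
      (mul_le_mul_of_nonneg_left (h.a4 hA) (by positivity)))
  have d4 : 3 * (q.P ^ 4 * (26 * n) * (25 * n)) ≤ n / q.P ^ 4 := by
    have a1 := mul_le_mul_of_nonneg_left h.n1 (by positivity : 0 ≤ 1950 * q.P ^ 4 * n)
    have a2 := mul_le_mul_of_nonneg_right (dv h.ok.P9 (c := 1950) (a := 4) (b := 380) (k := 4)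
      (by norm_num) (by norm_num)) n0.le
    have e1 : 1950 * q.P ^ 4 * n * (1 / q.P ^ 380) = 1950 * (q.P ^ 4 / q.P ^ 380) * n := by ring
    have e2 : n / q.P ^ 4 = 1 / q.P ^ 4 * n := by ring
    linarith
  have d5 : 130 * (n / q.P ^ 8) ≤ n / q.P ^ 4 := by
    have a2 := mul_le_mul_of_nonneg_right (dv h.ok.P9 (c := 130) (a := 0) (b := 8) (k := 4)
      (by norm_num) (by norm_num)) n0.le
    have e1 : 130 * (n / q.P ^ 8) = 130 * (q.P ^ 0 / q.P ^ 8) * n := by ring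
    have e2 : n / q.P ^ 4 = 1 / q.P ^ 4 * n := by ring
    linarith
  have d6 : s / 200 - n / q.P ^ 4 ≤ n / (200 * s) * ∑ y ∈ rem, ‖K x y‖ ^ 4 := by
    have e1 : n / (200 * s) * ∑ y ∈ rem, ‖K x y‖ ^ 4 = s ^ 2 / (200 * s) -
        n / (200 * s) * (n / q.P ^ 8) := by rw [h.s2]; ring
    have e2 : s ^ 2 / (200 * s) = s / 200 := by field_simp
    have a1 := mul_le_mul_of_nonneg_right h.c1 (by positivity : 0 ≤ n / q.P ^ 8)
    have e3 : q.P ^ 4 / 200 * (n / q.P ^ 8) = n / q.P ^ 4 / 200 := by field_simp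
    have a2 : 0 ≤ n / q.P ^ 4 := by positivity
    linarith
  refine le_trans (le_of_eq (b := (∑ v ∈ A, ∑ y ∈ rem ∪ Sg,
      (if y ∈ rem then n / (200 * s) else 1) * lin4 (K x y) (K x v * K v y) (t v true + t v false)) / 2
    + 13 * ∑ v ∈ A, ∑ y ∈ rem ∪ Sg, (if y ∈ rem then n / (200 * s) else 1) *
      (‖K x y‖ ^ 2 * ‖K x v * K v y‖ ^ 2)
    + 3 * ∑ v ∈ A, ∑ y ∈ rem ∪ Sg, (if y ∈ rem then n / (200 * s) else 1) * ‖K x v * K v y‖ ^ 4
    - n / (200 * s) * ∑ y ∈ A, ‖K x y‖ ^ 4) ?_) ?_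
  · simp only [sum_div, mul_sum, ← sum_add_distrib, ← sum_sub_distrib]
    refine sum_congr rfl fun v _ => ?_
    rw [sub_add_sub_comm, ← sum_add_distrib, sub_div, sum_div, add_self_div_two]
    congr 1
    exact sum_congr rfl fun y _ => by rw [← lin4_add, chg, chg]; ring
  · rw [hx]
    have : 0 ≤ n / q.P ^ 4 := by positivity
    linarith

theorem var (hA : A ⊆ rem) (b : Bool) :
    ∑ v ∈ A, (∑ y ∈ rem ∪ Sg, (if y ∈ rem then n / (200 * s) else 1) * chg K x v (t v b) y -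
      n / (200 * s) * ‖K x v‖ ^ 4) ^ 2 ≤ 6 * (n ^ 2 / q.P ^ 10) := by
  have P0 := h.P0
  have n0 := h.n0
  have s0 := h.s0
  have r0 := h.rp
  have AC : A ⊆ rem ∪ Sg := hA.trans subset_union_left
  have r1 : r ≤ 1 := h.r1.trans ((div_le_one (by positivity)).2
    ((h.ok.η1.trans (by norm_num)).trans (one_le_pow₀ h.P1)))
  set ρ : ι → ℝ := fun y => if y ∈ rem then n / (200 * s) else 1 with hρ
  set w : ι → ℂ := fun y => ((ρ y * ‖K x y‖ ^ 2 : ℝ) : ℂ) * (starRingEnd ℂ) (K x y) with hw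
  have w1 : ∀ y, ‖w y‖ ≤ q.P ^ 4 * ‖K x y‖ ^ 3 := fun y => by
    simp only [hw]
    rw [norm_mul, Complex.norm_conj, Complex.norm_of_nonneg (mul_nonneg (h.ρ1 y).1 (sq_nonneg _)),
      mul_assoc, ← pow_succ]
    exact mul_le_mul_of_nonneg_right (h.ρ1 y).2 (by positivity)
  have k4 : ∀ v ∈ rem ∪ Sg, ∑ y ∈ rem ∪ Sg, ‖K v y‖ ^ 4 ≤ 26 * n := fun v hv => by
    linarith [h.k4 v hv, h.μn]
  have q1 := (mul_le_mul_of_nonneg_left (qv (α := K x) AC Subset.rfl h.sym h.op k4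
    ((h.a4 hA).trans (by linarith)) h.c4 (by positivity) w1 (m := n * q.P ^ 40) (by positivity))
    (by norm_num : (0 : ℝ) ≤ 20)).trans (num2 h.ok.P9 h.ok.η0 n0 h.nη)
  have l1 : ∀ v ∈ A, (∑ y ∈ rem ∪ Sg, ρ y * lin4 (K x y) (K x v * K v y) (t v b)) ^ 2 ≤
      20 * (‖K x v‖ ^ 2 * ‖∑ y ∈ rem ∪ Sg, K v y * w y‖ ^ 2) := fun v hv => by
    have e : ∑ y ∈ rem ∪ Sg, ρ y * lin4 (K x y) (K x v * K v y) (t v b) =
        -4 * (t v b * (K x v * ∑ y ∈ rem ∪ Sg, K v y * w y)).re := by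
      rw [mul_sum, mul_sum, Complex.re_sum, mul_sum]
      refine sum_congr rfl fun y _ => ?_
      rw [show t v b * (K x v * (K v y * w y)) = ((ρ y * ‖K x y‖ ^ 2 : ℝ) : ℂ) *
        ((starRingEnd ℂ) (K x y) * (t v b * (K x v * K v y))) by simp only [hw]; ring,
        Complex.re_ofReal_mul, lin4]
      ring
    have a1 := pow_le_pow_left₀ (abs_nonneg _) (Complex.abs_re_le_norm
      (t v b * (K x v * ∑ y ∈ rem ∪ Sg, K v y * w y))) 2
    rw [sq_abs, norm_mul, norm_mul, mul_pow, mul_pow] at a1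
    have a2 := mul_le_mul_of_nonneg_right (pow_le_pow_left₀ (norm_nonneg _) (h.t1 v (hA hv) b) 2)
      (by positivity : 0 ≤ ‖K x v‖ ^ 2 * ‖∑ y ∈ rem ∪ Sg, K v y * w y‖ ^ 2)
    have a3 : 0 ≤ ‖K x v‖ ^ 2 * ‖∑ y ∈ rem ∪ Sg, K v y * w y‖ ^ 2 := by positivity
    rw [e, mul_pow]
    linarith
  have l2 : ∀ v ∈ A, ∑ y ∈ rem ∪ Sg, ρ y * (13 * (‖K x y‖ ^ 2 * ‖K x v * K v y‖ ^ 2) +
      3 * ‖K x v * K v y‖ ^ 4) ≤ 416 * q.P ^ 4 * n * ‖K x v‖ ^ 2 := fun v hv => by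
    have a1 := h.quart (hA hv)
    have a2 : ∑ y ∈ rem ∪ Sg, ρ y * (‖K x y‖ ^ 2 * ‖K x v * K v y‖ ^ 2) ≤
        q.P ^ 4 * ‖K x v‖ ^ 2 * (26 * n) := by
      refine le_trans (sum_le_sum (g := fun y => q.P ^ 4 * ‖K x v‖ ^ 2 *
        ((‖K x y‖ ^ 4 + ‖K v y‖ ^ 4) / 2)) fun y _ => ?_) ?_
      · rw [norm_mul, mul_pow, mul_assoc]
        refine mul_le_mul (h.ρ1 y).2 ?_ (by positivity) (by positivity)
        have := mul_nonneg (sq_nonneg ‖K x v‖) (sq_nonneg (‖K x y‖ ^ 2 - ‖K v y‖ ^ 2))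
        linarith
      · rw [← mul_sum, ← sum_div, sum_add_distrib]
        exact mul_le_mul_of_nonneg_left (by linarith [h.c4, k4 v (AC hv)]) (by positivity)
    have a3 := mul_le_mul_of_nonneg_left ((h.amp v (hA hv)).trans r1)
      (by positivity : 0 ≤ q.P ^ 4 * (26 * n) * ‖K x v‖ ^ 2)
    simp only [mul_add, sum_add_distrib, mul_left_comm (ρ _) 13, mul_left_comm (ρ _) 3, ← mul_sum]
    linarith
  have l3 : ∀ v ∈ A, n / (200 * s) * ‖K x v‖ ^ 4 ≤ q.P ^ 4 * r * ‖K x v‖ ^ 2 := fun v hv => by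
    have a1 := mul_le_mul_of_nonneg_right (h.amp v (hA hv)) (sq_nonneg ‖K x v‖)
    rw [mul_assoc]
    refine mul_le_mul (h.c1.trans (div_le_self (by positivity) (by norm_num))) (by linarith)
      (by positivity) (by positivity)
  have m1 : (416 * q.P ^ 4 * n) ^ 2 * (25 * n) ≤ n ^ 2 / q.P ^ 10 := by
    have a1 := mul_le_mul_of_nonneg_left h.n1 (by positivity : 0 ≤ 4326400 * q.P ^ 8 * n ^ 2)
    have a2 := mul_le_mul_of_nonneg_right (dv h.ok.P9 (c := 4326400) (a := 8) (b := 380) (k := 10)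
      (by norm_num) (by norm_num)) (sq_nonneg n)
    have e1 : 4326400 * q.P ^ 8 * n ^ 2 * (1 / q.P ^ 380) =
        4326400 * (q.P ^ 8 / q.P ^ 380) * n ^ 2 := by ring
    have e2 : n ^ 2 / q.P ^ 10 = 1 / q.P ^ 10 * n ^ 2 := by ring
    linarith
  have m2 : (q.P ^ 4 * r) ^ 2 * (25 * n) ≤ n ^ 2 / q.P ^ 10 := by
    have a2 := mul_le_mul_of_nonneg_right (dv h.ok.P9 (c := 25) (a := 8) (b := 20) (k := 10)
      (by norm_num) (by norm_num)) (sq_nonneg n)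
    have e1 : (q.P ^ 4 * r) ^ 2 * (25 * n) = 25 * (q.P ^ 8 / q.P ^ 20) * n ^ 2 := by
      rw [sq n]; nth_rw 2 [h.hn]; field_simp
    have e2 : n ^ 2 / q.P ^ 10 = 1 / q.P ^ 10 * n ^ 2 := by ring
    linarith
  refine le_trans (sum_le_sum (g := fun v =>
    2 * (20 * (‖K x v‖ ^ 2 * ‖∑ y ∈ rem ∪ Sg, K v y * w y‖ ^ 2)) +
      2 * ((416 * q.P ^ 4 * n) ^ 2 * ‖K x v‖ ^ 4) + 2 * ((q.P ^ 4 * r) ^ 2 * ‖K x v‖ ^ 4))
    fun v hv => ?_) ?_
  · have a0 : 0 ≤ ∑ y ∈ rem ∪ Sg, ρ y * (13 * (‖K x y‖ ^ 2 * ‖K x v * K v y‖ ^ 2) +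
        3 * ‖K x v * K v y‖ ^ 4) := sum_nonneg fun y _ => mul_nonneg (h.ρ1 y).1 (by positivity)
    have a1 : 0 ≤ n / (200 * s) * ‖K x v‖ ^ 4 := by positivity
    have a2 := pow_le_pow_left₀ a0 (l2 v hv) 2
    have a3 := pow_le_pow_left₀ a1 (l3 v hv) 2
    have a4 := l1 v hv
    have a5 := mul_nonneg a0 a1
    simp only [chg, mul_add (ite _ _ _) (lin4 _ _ _), sum_add_distrib]
    generalize ∑ y ∈ rem ∪ Sg, ρ y * lin4 (K x y) (K x v * K v y) (t v b) = L at *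
    generalize ∑ y ∈ rem ∪ Sg, ρ y * (13 * (‖K x y‖ ^ 2 * ‖K x v * K v y‖ ^ 2) +
        3 * ‖K x v * K v y‖ ^ 4) = R at *
    generalize n / (200 * s) * ‖K x v‖ ^ 4 = Z at *
    nlinarith [sq_nonneg (L - (R - Z))]
  · simp only [sum_add_distrib, ← mul_sum]
    have a1 := mul_le_mul_of_nonneg_left (h.a4 hA) (sq_nonneg (416 * q.P ^ 4 * n))
    have a2 := mul_le_mul_of_nonneg_left (h.a4 hA) (sq_nonneg (q.P ^ 4 * r))
    linarith

end Dat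

end M2A

open M2A

theorem t_m2 : S_M2 := by
  intro ι _ _ q σ hq F x hx n l hn hl
  have P1 : 1 ≤ q.P := le_trans (by norm_num) hq.P9
  have P0 : 0 < q.P := one_pos.trans_le P1
  have r0 : 0 < σ.mr x := hq.μ0.trans_le (F.mr x).1
  have n0 : 0 < n := by rw [hn]; positivity
  have CR : σ.rem ∪ σ.Sg ⊆ σ.R := union_subset F.rR F.sR
  have CO := CR.trans F.RO
  have u0 : 0 < n * (∑ y ∈ σ.rem.erase x, ‖σ.G x y‖ ^ 4 + n / q.P ^ 8) := by positivity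
  have row : ∀ y ∈ σ.Op, ∑ v ∈ σ.rem ∪ σ.Sg, ‖od σ.G y v‖ ^ 2 ≤ 11 / 10 := fun y hy => by
    rw [od4 _ _ _ two_ne_zero]
    exact (sum_le_sum_of_subset_of_nonneg (erase_subset_erase y CO) fun _ _ _ => sq_nonneg _).trans
      (F.row y hy)
  have h : Dat q (σ.mr x) n (√(n * (∑ y ∈ σ.rem.erase x, ‖σ.G x y‖ ^ 4 + n / q.P ^ 8)))
      (od σ.G) σ.rem σ.Sg x σ.t := by
    refine ⟨hq, (F.mr x).1, (F.mr x).2.trans hq.J2, hn, sqrt_pos.2 u0, ?_, F.rs, fun a b => ?_,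
      fun u => ?_, fun y hy => (row y (CO hy)).trans (by norm_num), row x (F.RO hx),
      fun y hy => ?_, ?_, ?_, fun y hy => ?_, F.t1, fun v hv => ?_, fun f l hl hf h2 => ?_⟩
    · rw [sq_sqrt u0.le, od4 _ _ _ four_ne_zero]
    · simp only [od, eq_comm (a := a), F.sym a b]
    · refine (od_op F.op CO (fun y hy => (F.dg y hy).trans (by norm_num)) u).trans
        (mul_le_mul_of_nonneg_right ?_ (nS_nonneg _ _))
      rw [div_add_one hq.η0.ne']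
      exact div_le_div_of_nonneg_right (by linarith [hq.η1]) hq.η0.le
    · have a1 := F.k4 y (CR hy)
      have a2 := F.g4 y (CR hy)
      have a3 : 0 ≤ q.P ^ 20 * q.μ ^ 2 := by positivity
      rw [F.mg y hy] at a1 a2
      rw [sum_union F.rs, od4 _ _ _ four_ne_zero, od4 _ _ _ four_ne_zero]
      linarith
    · rw [od4 _ _ _ four_ne_zero, hn]; exact F.k4 x hx
    · rw [od4 _ _ _ four_ne_zero, hn]; exact F.g4 x hx
    · unfold od
      split_ifs with e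
      · simpa using r0.le
      · exact F.amp x hx y (mem_union_left _ hy) e
    · have a1 := pow_le_pow_left₀ (norm_nonneg _) (F.t1 v hv true) 2
      have a2 := pow_le_pow_left₀ (norm_nonneg _) (F.t1 v hv false) 2
      exact (F.t2 v hv).trans (mul_le_mul (by linarith) (F.mis v (mem_union_left _ hv))
        (norm_nonneg _) (by norm_num))
    · refine le_trans (le_of_eq (sum_congr rfl fun a _ => ?_)) (F.pc f l hl hf h2)
      exact od_sum σ.G _ a (fun y g => f a * ‖g‖ ^ 2 * f y) fun y => by simp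
  have hx4 : ∑ y ∈ σ.rem.erase x, ‖od σ.G x y‖ ^ 4 = ∑ y ∈ σ.rem, ‖od σ.G x y‖ ^ 4 := by
    rw [od4 _ _ _ four_ne_zero, od4 _ _ _ four_ne_zero, erase_idem]
  have l0 : 0 ≤ l := by rw [hl]; positivity
  refine M2A.fin (z := fun v b => q2 q.P n (σ.G' v b) (σ.rem.erase v) σ.Sg x) _ l0
    (fun v hv b => M2A.step n0 P0 F.rs hv (F.t1 v (mem_of_mem_erase hv) b) rfl) ?_ fun b => ?_
  · refine (mul_le_mul_of_nonneg_left (h.drift (erase_subset _ _) hx4) l0).trans ?_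
    have a := dv hq.P9 (c := 2400) (a := 3) (b := 4) (k := 0) (by norm_num) (by norm_num)
    have e : l * (4 * (n / q.P ^ 4)) = 1200 * (q.P ^ 3 / q.P ^ 4) := by rw [hl]; field_simp; ring
    rw [pow_zero, div_one] at a
    linarith
  · refine (mul_le_mul_of_nonneg_left (h.var (erase_subset _ _) b) (sq_nonneg l)).trans ?_
    have a := dv hq.P9 (c := 1080000) (a := 6) (b := 10) (k := 0) (by norm_num) (by norm_num)
    have e : l ^ 2 * (6 * (n ^ 2 / q.P ^ 10)) = 540000 * (q.P ^ 6 / q.P ^ 10) := by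
      rw [hl]; field_simp; ring
    rw [pow_zero, div_one] at a
    linarith

end Pool.Agent.P.MP_d0f69c_mp.XS
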