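import Pool.Agent.P.MP_d0f69c_mp.XS.IfFlow

/-!
The monitor of the closed mass and of the mismatch.
-/

set_option autoImplicit false

open Finset Real
open scoped ComplexConjugate

namespace Pool.Agent.P.MP_d0f69c_mp.XS

namespace M3

variable {ι : Type}

theorem expand (S : Finset ι) (w : ι → ℝ) (α β : ι → ℂ) (τ : ℂ) :
    ∑ z ∈ S, w z * ‖α z - τ * β z‖ ^ 2 = ∑ z ∈ S, w z * ‖α z‖ ^ 2 -
      2 * (τ * ∑ z ∈ S, w z * (β z * conj (α z))).re + ‖τ‖ ^ 2 * ∑ z ∈ S, w z * ‖β z‖ ^ 2 := by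
  rw [mul_sum, Complex.re_sum, mul_sum, mul_sum, ← sum_sub_distrib, ← sum_add_distrib]
  refine sum_congr rfl fun z _ => ?_
  simp only [Complex.sq_norm, Complex.normSq_apply, Complex.sub_re, Complex.sub_im, Complex.mul_re,
    Complex.mul_im, Complex.conj_re, Complex.conj_im, Complex.ofReal_re, Complex.ofReal_im]
  ring

theorem root (m : ℂ) {k : ℝ} (hk : 0 < k) : ∃ c : ℂ, ‖c‖ ≤ 1 ∧ ∀ w : ℂ,
    √(‖m - w‖ ^ 2 + k ^ 2) ≤ √(‖m‖ ^ 2 + k ^ 2) - (w * c).re + ‖w‖ ^ 2 / (2 * k) := by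
  set r := √(‖m‖ ^ 2 + k ^ 2) with hr
  have r2 : r ^ 2 = ‖m‖ ^ 2 + k ^ 2 := sq_sqrt (by positivity)
  have r1 : k ≤ r := le_sqrt_of_sq_le (by nlinarith [sq_nonneg ‖m‖])
  have r3 : ‖m‖ ≤ r := le_sqrt_of_sq_le (by nlinarith [sq_nonneg k])
  have r0 : 0 < r := hk.trans_le r1
  refine ⟨conj m / r, ?_, fun w => ?_⟩
  · rw [norm_div, Complex.norm_conj, Complex.norm_real, Real.norm_of_nonneg r0.le]
    exact div_le_one_of_le₀ r3 r0.le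
  have e : ‖m - w‖ ^ 2 = ‖m‖ ^ 2 - 2 * (w * conj m).re + ‖w‖ ^ 2 := by
    simp only [Complex.sq_norm, Complex.normSq_apply, Complex.sub_re, Complex.sub_im,
      Complex.mul_re, Complex.conj_re, Complex.conj_im]
    ring
  rw [← mul_div_assoc, Complex.div_ofReal_re]
  set y := √(‖m - w‖ ^ 2 + k ^ 2) with hy
  have y2 : y ^ 2 = ‖m - w‖ ^ 2 + k ^ 2 := sq_sqrt (by positivity)
  have h1 : y ≤ r - (w * conj m).re / r + ‖w‖ ^ 2 / (2 * r) := by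
    have : r - (w * conj m).re / r + ‖w‖ ^ 2 / (2 * r) = (y ^ 2 + r ^ 2) / (2 * r) := by
      rw [y2, e]
      field_simp
      linarith
    rw [this, le_div_iff₀ (by positivity)]
    nlinarith [sq_nonneg (y - r)]
  have h2 : ‖w‖ ^ 2 / (2 * r) ≤ ‖w‖ ^ 2 / (2 * k) := by gcongr
  linarith

theorem op_sq [DecidableEq ι] {S A B : Finset ι} {G : ι → ι → ℂ} {r : ℝ} (h : OpLe S G r)
    (hA : A ⊆ S) (hB : B ⊆ S) (u : ι → ℂ) :
    ∑ v ∈ B, ‖∑ z ∈ A, G v z * u z‖ ^ 2 ≤ r ^ 2 * ∑ z ∈ A, ‖u z‖ ^ 2 := by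
  have h1 := pow_le_pow_left₀ (nS_nonneg _ _) (h fun z => if z ∈ A then u z else 0) 2
  rw [mul_pow, nS_sq, nS_sq] at h1
  simp only [ap, mul_ite, mul_zero, sum_ite_mem, inter_eq_right.2 hA, apply_ite norm, norm_zero,
    ite_pow, zero_pow two_ne_zero] at h1
  exact (sum_le_sum_of_subset_of_nonneg hB fun _ _ _ => sq_nonneg _).trans h1

theorem cs (S : Finset ι) (α β : ι → ℂ) {c : ℝ} (hc : 0 ≤ c) (h1 : ∑ z ∈ S, ‖α z‖ ^ 2 ≤ c)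
    (h2 : ∑ z ∈ S, ‖β z‖ ^ 2 ≤ c) : ‖∑ z ∈ S, α z * β z‖ ≤ c := by
  refine (norm_sum_le _ _).trans (le_of_sq_le_sq ?_ hc)
  simp only [norm_mul]
  rw [sq c]
  exact (sum_mul_sq_le_sq_mul_sq _ _ _).trans (mul_le_mul h1 h2 (by positivity) hc)

variable [DecidableEq ι] {q : Np} {σ : Sx ι}

/-- the vector in the linear part of the increment -/
noncomputable def xi (P : ℝ) (σ : Sx ι) (x v : ι) : ℂ :=
  (1 / (16 * P ^ 25) : ℝ) * (∑ z ∈ σ.X, σ.G v z * conj (σ.G x z)) -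
    ∑ z ∈ σ.Kp.erase x, σ.G v z * (σ.a z * conj (σ.G x z))

theorem mass (h : Fx q σ) {x v : ι} (hv : v ∈ σ.Op) (hx : v ∈ σ.Kp → v = x) :
    ∑ z ∈ σ.Kp.erase x, ‖σ.G v z‖ ^ 2 ≤ 11 / 10 :=
  (sum_le_sum_of_subset_of_nonneg (fun _ hz => mem_erase.2 ⟨fun e => (mem_erase.1 hz).1
    (e.trans (hx (e ▸ (mem_erase.1 hz).2))), h.KO (mem_erase.1 hz).2⟩)
    fun _ _ _ => sq_nonneg _).trans (h.row v hv)

theorem mass' (h : Fx q σ) {x : ι} (hx : x ∈ σ.Op) :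
    ∑ z ∈ σ.Kp.erase x, ‖σ.a z * conj (σ.G x z)‖ ^ 2 ≤ 3 / 2 := by
  have h1 := mass h (x := x) hx fun _ => rfl
  have h2 : ∑ z ∈ σ.Kp.erase x, ‖σ.a z * conj (σ.G x z)‖ ^ 2 ≤
      ∑ z ∈ σ.Kp.erase x, 5 / 4 * ‖σ.G x z‖ ^ 2 := sum_le_sum fun z hz => by
    have := abs_le.1 (h.a1 z (h.KO (mem_erase.1 hz).2))
    rw [norm_mul, mul_pow, Complex.norm_conj, Complex.norm_real, Real.norm_eq_abs, sq_abs]
    exact mul_le_mul_of_nonneg_right (by nlinarith [this.1, this.2]) (sq_nonneg _)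
  rw [← mul_sum] at h2
  linarith

theorem xi_sup (hq : q.OK) (h : Fx q σ) {x v : ι} (hx : x ∈ σ.rem ∪ σ.Sg) (hv : v ∈ σ.rem) :
    ‖xi q.P σ x v‖ ≤ 3 := by
  have P0 : 0 < q.P := lt_of_lt_of_le (by norm_num) hq.P9
  have xO : x ∈ σ.Op := h.RO ((mem_union.1 hx).elim (h.rR ·) (h.sR ·))
  have h1 := cs σ.X (σ.G v) (fun z => conj (σ.G x z)) (by positivity)
    (h.dd v (mem_union_left _ hv)) (by simpa using h.dd x hx)
  have h2 := cs (σ.Kp.erase x) (σ.G v) (fun z => σ.a z * conj (σ.G x z)) (c := 3 / 2) (by norm_num)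
    ((mass h (h.RO (h.rR hv)) fun c => absurd c (disjoint_left.1 h.rK hv)).trans (by norm_num))
    (mass' h xO)
  refine (norm_sub_le _ _).trans ?_
  rw [norm_mul, Complex.norm_real, Real.norm_of_nonneg (by positivity)]
  have h3 := mul_le_mul_of_nonneg_left h1 (show 0 ≤ 1 / (16 * q.P ^ 25) by positivity)
  have e : 1 / (16 * q.P ^ 25) * (18 * q.P ^ 25) = 18 / 16 := by field_simp
  linarith

theorem xi_sq (hq : q.OK) (h : Fx q σ) {x : ι} (hx : x ∈ σ.rem ∪ σ.Sg) :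
    ∑ v ∈ σ.rem.erase x, ‖xi q.P σ x v‖ ^ 2 ≤ (q.P ^ 28 / q.η) ^ 2 := by
  have P1 : 1 ≤ q.P := le_trans (by norm_num) hq.P9
  have η0 := hq.η0
  have xO : x ∈ σ.Op := h.RO ((mem_union.1 hx).elim (h.rR ·) (h.sR ·))
  have h1 := op_sq h.nrm subset_union_left ((erase_subset x _).trans subset_union_right)
    fun z => conj (σ.G x z)
  have h2 := op_sq h.op ((erase_subset x _).trans h.KO)
    ((erase_subset x _).trans (h.rR.trans h.RO)) fun z => σ.a z * conj (σ.G x z)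
  simp only [Complex.norm_conj] at h1
  have h3 := h1.trans (mul_le_mul_of_nonneg_left (h.dd x hx) (sq_nonneg _))
  have h4 := h2.trans (mul_le_mul_of_nonneg_left (mass' h xO) (sq_nonneg _))
  have h5 : ∀ (c : ℝ) (A B : ℂ), ‖c * A - B‖ ^ 2 ≤ 2 * c ^ 2 * ‖A‖ ^ 2 + 2 * ‖B‖ ^ 2 := fun c A B => by
    have := pow_le_pow_left₀ (norm_nonneg _) (norm_sub_le (c * A) B) 2
    rw [norm_mul, Complex.norm_real, Real.norm_eq_abs] at this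
    nlinarith [sq_nonneg (|c| * ‖A‖ - ‖B‖), sq_abs c]
  refine (sum_le_sum fun v _ => h5 _ _ _).trans ?_
  rw [sum_add_distrib, ← mul_sum, ← mul_sum]
  have h6 := mul_le_mul_of_nonneg_left h3 (show 0 ≤ 2 * (1 / (16 * q.P ^ 25)) ^ 2 by positivity)
  have e1 : 2 * (1 / (16 * q.P ^ 25)) ^ 2 * ((q.P ^ 40 / q.η) ^ 2 * (18 * q.P ^ 25)) =
      9 / 64 * q.P ^ 55 / q.η ^ 2 := by field_simp; norm_num
  have e2 : 9 / 64 * q.P ^ 55 / q.η ^ 2 + 2 * ((2 / q.η) ^ 2 * (3 / 2)) ≤ (q.P ^ 28 / q.η) ^ 2 := by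
    have a1 : (1 : ℝ) ≤ q.P ^ 55 := one_le_pow₀ P1
    have a2 : q.P ^ 56 = q.P ^ 55 * q.P := pow_succ _ _
    have a3 : 9 / 64 * q.P ^ 55 + 12 ≤ q.P ^ 56 := by nlinarith [hq.P9]
    calc _ = (9 / 64 * q.P ^ 55 + 12) / q.η ^ 2 := by field_simp; norm_num
      _ ≤ q.P ^ 56 / q.η ^ 2 := by gcongr
      _ = _ := by field_simp
  linarith

/-- the increment of the monitor -/
theorem incr (hq : q.OK) (h : Fx q σ) {x v : ι} (hx : x ∈ σ.rem ∪ σ.Sg) (hv : v ∈ σ.rem)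
    (hn : x ≠ v) {c : ℂ} (hc : ∀ w : ℂ, √(‖σ.m x - w‖ ^ 2 + (q.μ * q.P ^ 14) ^ 2) ≤
      √(‖σ.m x‖ ^ 2 + (q.μ * q.P ^ 14) ^ 2) - (w * c).re + ‖w‖ ^ 2 / (2 * (q.μ * q.P ^ 14)))
    (b : Bool) :
    z3 q.P q.μ (σ.G' v b) σ.a (insert v σ.X) σ.Kp x (σ.m x - σ.t v b * (σ.G x v * σ.G v x)) ≤
      z3 q.P q.μ σ.G σ.a σ.X σ.Kp x (σ.m x) +
      (-2 * (σ.t v b * σ.G x v * xi q.P σ x v).re - ((σ.t v b * (σ.G x v * σ.G v x) * c).re +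
        ‖σ.t v b‖ ^ 2 * ‖σ.G x v‖ ^ 2 * ‖σ.m v‖) / (q.μ * q.P ^ 14) / (16 * q.P ^ 25)) +
      ‖σ.G x v‖ ^ 4 / (q.μ * q.P ^ 14) ^ 2 / (16 * q.P ^ 25) := by
  have P1 : 1 ≤ q.P := le_trans (by norm_num) hq.P9
  have μ0 := hq.μ0
  have xO : x ∈ σ.Op := h.RO ((mem_union.1 hx).elim (h.rR ·) (h.sR ·))
  set k := q.μ * q.P ^ 14 with hk
  have k0 : 0 < k := by positivity
  set f := 1 / (16 * q.P ^ 25) with hf
  have f0 : 0 < f := by positivity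
  set t := σ.t v b with ht
  set g := σ.G x v with hg
  have e1 := expand σ.X (fun _ => 1) (σ.G x) (σ.G v) (t * g)
  have e2 := expand (σ.Kp.erase x) σ.a (σ.G x) (σ.G v) (t * g)
  simp only [one_mul, Complex.ofReal_one] at e1
  have e3 : (t * g * xi q.P σ x v).re = f * (t * g * ∑ z ∈ σ.X, σ.G v z * conj (σ.G x z)).re -
      (t * g * ∑ z ∈ σ.Kp.erase x, σ.a z * (σ.G v z * conj (σ.G x z))).re := by
    rw [xi, mul_sub, Complex.sub_re, mul_left_comm, Complex.re_ofReal_mul]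
    simp only [mul_left_comm (σ.G v _), hf]
  have h1 : ‖σ.G' v b x v‖ ^ 2 ≤ 11 / 10 * (‖t‖ ^ 2 * ‖g‖ ^ 2) := by
    have : σ.G' v b x v = g * (1 - t * σ.G v v) := by rw [Sx.G']; ring
    rw [this, norm_mul, mul_pow]
    have := pow_le_pow_left₀ (norm_nonneg _) (h.t5 v hv b) 2
    nlinarith [mul_le_mul_of_nonneg_left this (sq_nonneg ‖g‖),
      mul_nonneg (sq_nonneg ‖t‖) (sq_nonneg ‖g‖)]
  have h2 := div_le_div_of_nonneg_right (hc (t * (g * σ.G v x))) k0.le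
  have h3 : ‖t * (g * σ.G v x)‖ ^ 2 / (2 * k) / k ≤ ‖g‖ ^ 4 / k ^ 2 := by
    have := pow_le_pow_left₀ (norm_nonneg _) (h.t1 v hv b) 2
    rw [← h.sym x v, div_div, norm_mul, norm_mul, div_le_div_iff₀ (by positivity) (by positivity)]
    have h4 : 0 ≤ ‖g‖ ^ 4 * k ^ 2 := by positivity
    nlinarith [mul_le_mul_of_nonneg_right this h4]
  have h4 := h.z3 v hv
  have h5 : ‖σ.m v‖ / k ≤ √(‖σ.m v‖ ^ 2 + k ^ 2) / k :=
    div_le_div_of_nonneg_right (le_sqrt_of_sq_le (by nlinarith [sq_nonneg k])) k0.le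
  have h6 : ∑ z ∈ σ.Kp.erase v, σ.a z * ‖σ.G v z‖ ^ 2 ≤
      ∑ z ∈ σ.Kp.erase x, σ.a z * ‖σ.G v z‖ ^ 2 + 6 * f := by
    have a1 := abs_le.1 (h.a1 x xO)
    have a2 := h.amp x ((mem_union.1 hx).elim (h.rR ·) (h.sR ·)) v (mem_union_left _ hv) hn
    rw [h.mg x hx, h.sym x v] at a2
    have a3 : q.μ * 2 ≤ 6 * f := by
      have b1 := hq.mb_le.2.2
      have b2 : q.P ^ 25 ≤ q.P ^ 200 := pow_le_pow_right₀ P1 (by norm_num)
      rw [le_div_iff₀ (by positivity)] at b1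
      rw [hf, mul_one_div, le_div_iff₀ (by positivity)]
      nlinarith [hq.η1]
    have a4 : σ.a x * ‖σ.G v x‖ ^ 2 ≤ 6 * f := by nlinarith [sq_nonneg ‖σ.G v x‖]
    rw [erase_eq_of_notMem (disjoint_left.1 h.rK hv)]
    by_cases c : x ∈ σ.Kp
    · rw [← add_sum_erase _ _ c]
      linarith
    · rw [erase_eq_of_notMem c]
      linarith
  have e4 : -1 / (2 * q.P ^ 25) = -8 * f := by rw [hf]; field_simp; norm_num
  have e5 : ∀ y : ℝ, y / (16 * q.P ^ 25) = f * y := fun y => by rw [hf]; ring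
  have e6 : ∀ z, σ.G' v b x z = σ.G x z - t * g * σ.G v z := fun z => by rw [Sx.G']; ring
  simp only [z3, e5] at h4 ⊢
  rw [sum_insert (disjoint_left.1 h.rX hv)]
  simp only [e6] at h1 ⊢
  rw [e1, e2, e3, norm_mul, mul_pow, add_div, mul_div_assoc (_ * _)]
  rw [e4, ← hk] at h4
  rw [add_div, sub_div] at h2
  have n0 : 0 ≤ ‖t‖ ^ 2 * ‖g‖ ^ 2 := by positivity
  have h7 := mul_le_mul_of_nonneg_left (show f * ∑ z ∈ σ.X, ‖σ.G v z‖ ^ 2 + 11 / 10 * f -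
    ∑ z ∈ σ.Kp.erase x, σ.a z * ‖σ.G v z‖ ^ 2 ≤ -(f * (‖σ.m v‖ / k)) by
      nlinarith [mul_le_mul_of_nonneg_left h5 f0.le]) n0
  nlinarith [mul_le_mul_of_nonneg_left h1 f0.le, mul_le_mul_of_nonneg_left h2 f0.le,
    mul_le_mul_of_nonneg_left h3 f0.le]

theorem two (hq : q.OK) (h : Fx q σ) {x v : ι} (hx : x ∈ σ.rem ∪ σ.Sg) (hv : v ∈ σ.rem)
    (hn : x ≠ v) : ∃ y : ℝ, y ≤ 20 * q.P ^ 28 * q.mb * (‖σ.G x v‖ * ‖xi q.P σ x v‖) +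
      2 * q.P ^ 6 / (q.μ * q.P ^ 14) ^ 2 * ‖σ.G x v‖ ^ 4 +
      310 * q.P ^ 56 * (‖σ.G x v‖ ^ 2 * ‖xi q.P σ x v‖ ^ 2) ∧
    exp (8 * q.P ^ 28 * z3 q.P q.μ (σ.G' v true) σ.a (insert v σ.X) σ.Kp x
        (σ.m x - σ.t v true * (σ.G x v * σ.G v x))) +
      exp (8 * q.P ^ 28 * z3 q.P q.μ (σ.G' v false) σ.a (insert v σ.X) σ.Kp x
        (σ.m x - σ.t v false * (σ.G x v * σ.G v x))) ≤
      2 * exp y * exp (8 * q.P ^ 28 * z3 q.P q.μ σ.G σ.a σ.X σ.Kp x (σ.m x)) := by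
  have P1 : 1 ≤ q.P := le_trans (by norm_num) hq.P9
  have μ0 := hq.μ0
  obtain ⟨c, c1, hc⟩ := root (σ.m x) (show 0 < q.μ * q.P ^ 14 by positivity)
  have i1 := incr hq h hx hv hn hc true
  have i2 := incr hq h hx hv hn hc false
  rw [← h.sym x v] at i1 i2 ⊢
  set k := q.μ * q.P ^ 14 with hk
  have k0 : 0 < k := by positivity
  set g := σ.G x v with hg
  set ξ := xi q.P σ x v with hξ
  have t1 := h.t1 v hv true
  have t2 := h.t1 v hv false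
  have t3 := h.t2 v hv
  have m1 := h.mis v (mem_union_left _ hv)
  have m2 : q.mb ≤ 1 := hq.mb_le.2.1.trans ((div_le_self hq.η0.le (one_le_pow₀ P1)).trans
    (hq.η1.trans (by norm_num)))
  set s := σ.t v true with hs
  set t := σ.t v false with ht
  have s2 : ‖s‖ ^ 2 ≤ 121 / 100 := by nlinarith [norm_nonneg s]
  have t2' : ‖t‖ ^ 2 ≤ 121 / 100 := by nlinarith [norm_nonneg t]
  have m0 := norm_nonneg (σ.m v)
  have b1 : ∀ u : ℂ, |(u * g * ξ).re| ≤ ‖u‖ * (‖g‖ * ‖ξ‖) := fun u =>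
    (Complex.abs_re_le_norm _).trans_eq (by rw [norm_mul, norm_mul, mul_assoc])
  have b2 : ∀ u : ℂ, |(u * (g * g) * c).re| ≤ ‖u‖ * ‖g‖ ^ 2 := fun u =>
    (Complex.abs_re_le_norm _).trans (by
      rw [norm_mul, norm_mul, norm_mul, ← sq]
      exact mul_le_of_le_one_right (by positivity) c1)
  have n1 : 0 ≤ ‖g‖ * ‖ξ‖ := by positivity
  have n2 : 0 ≤ ‖g‖ ^ 2 := by positivity
  have w0 : 0 < k * (16 * q.P ^ 25) := by positivity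
  refine ⟨_, ?_, exp_two' (μ := 5 / 2 * q.mb * (‖g‖ * ‖ξ‖))
    (ο := 11 / 5 * (‖g‖ * ‖ξ‖) + 2 * ‖g‖ ^ 2 / (k * (16 * q.P ^ 25))) (by positivity) i1 i2 ?_ ?_⟩
  · have e1 : 8 * q.P ^ 28 * (‖g‖ ^ 4 / k ^ 2 / (16 * q.P ^ 25)) = q.P ^ 3 / 2 * (‖g‖ ^ 4 / k ^ 2) := by
      field_simp; ring
    have e2 : (8 * q.P ^ 28 * (2 * ‖g‖ ^ 2 / (k * (16 * q.P ^ 25)))) ^ 2 =
        q.P ^ 6 * (‖g‖ ^ 4 / k ^ 2) := by field_simp; ring
    have e3 : (8 * q.P ^ 28 * (11 / 5 * (‖g‖ * ‖ξ‖))) ^ 2 =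
        7744 / 25 * (q.P ^ 56 * (‖g‖ ^ 2 * ‖ξ‖ ^ 2)) := by ring
    have e4 : ∀ a b : ℝ, (a + b) ^ 2 / 2 ≤ a ^ 2 + b ^ 2 := fun a b => by
      nlinarith [sq_nonneg (a - b)]
    have e5 := e4 (8 * q.P ^ 28 * (11 / 5 * (‖g‖ * ‖ξ‖)))
      (8 * q.P ^ 28 * (2 * ‖g‖ ^ 2 / (k * (16 * q.P ^ 25))))
    rw [e2, e3, ← mul_add] at e5
    have e6 : q.P ^ 3 / 2 * (‖g‖ ^ 4 / k ^ 2) ≤ q.P ^ 6 * (‖g‖ ^ 4 / k ^ 2) :=
      mul_le_mul_of_nonneg_right ((half_le_self (by positivity)).trans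
        (pow_le_pow_right₀ P1 (by norm_num))) (by positivity)
    have e7 : 2 * q.P ^ 6 / k ^ 2 * ‖g‖ ^ 4 = 2 * (q.P ^ 6 * (‖g‖ ^ 4 / k ^ 2)) := by ring
    have e8 : 0 ≤ q.P ^ 56 * (‖g‖ ^ 2 * ‖ξ‖ ^ 2) := by positivity
    rw [mul_add (8 * q.P ^ 28), e1, e7]
    linarith
  · have a1 := (abs_le.1 (b1 (s + t))).1
    have a2 := (abs_le.1 (b2 (s + t))).1
    simp only [add_mul, Complex.add_re] at a1 a2
    have a3 : ‖s + t‖ ≤ 5 / 2 * q.mb := by nlinarith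
    have a4 : 0 ≤ ((s * (g * g) * c).re + ‖s‖ ^ 2 * ‖g‖ ^ 2 * ‖σ.m v‖ +
        ((t * (g * g) * c).re + ‖t‖ ^ 2 * ‖g‖ ^ 2 * ‖σ.m v‖)) / k / (16 * q.P ^ 25) :=
      div_nonneg (div_nonneg (by nlinarith [mul_le_mul_of_nonneg_right t3 n2]) k0.le)
        (by positivity)
    rw [add_div, add_div] at a4
    nlinarith [mul_le_mul_of_nonneg_right a3 n1]
  · have a1 := abs_le.1 (b1 (s - t))
    have a2 := abs_le.1 (b2 (s - t))
    simp only [sub_mul, Complex.sub_re] at a1 a2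
    have a3 : ‖s - t‖ ≤ 11 / 5 := (norm_sub_le _ _).trans (by linarith)
    have a4 := mul_le_mul_of_nonneg_right a3 n1
    have a5 := mul_le_mul_of_nonneg_right a3 n2
    have a6 : ∀ u : ℂ, ‖u‖ ^ 2 ≤ 121 / 100 → 0 ≤ ‖u‖ ^ 2 * ‖g‖ ^ 2 * ‖σ.m v‖ ∧
        ‖u‖ ^ 2 * ‖g‖ ^ 2 * ‖σ.m v‖ ≤ 121 / 100 * ‖g‖ ^ 2 := fun u hu =>
      ⟨by positivity, (mul_le_of_le_one_right (by positivity) (m1.trans m2)).trans
        (mul_le_mul_of_nonneg_right hu n2)⟩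
    have a7 : |((s * (g * g) * c).re + ‖s‖ ^ 2 * ‖g‖ ^ 2 * ‖σ.m v‖ -
        ((t * (g * g) * c).re + ‖t‖ ^ 2 * ‖g‖ ^ 2 * ‖σ.m v‖)) / (k * (16 * q.P ^ 25))| ≤
        4 * ‖g‖ ^ 2 / (k * (16 * q.P ^ 25)) := by
      rw [abs_div, abs_of_pos w0]
      refine div_le_div_of_nonneg_right (abs_le.2 ⟨?_, ?_⟩) w0.le <;>
        linarith [a6 s s2, a6 t t2', a2.1, a2.2]
    rw [sub_div, abs_le] at a7
    have e : 4 * ‖g‖ ^ 2 / (k * (16 * q.P ^ 25)) = 2 * (2 * ‖g‖ ^ 2 / (k * (16 * q.P ^ 25))) := by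
      ring
    simp only [div_div]
    refine abs_le.2 ⟨?_, ?_⟩ <;> linarith [a1.1, a1.2, a7.1, a7.2]

theorem total (hq : q.OK) (h : Fx q σ) {x : ι} (hx : x ∈ σ.rem ∪ σ.Sg) :
    ∑ v ∈ σ.rem.erase x, (20 * q.P ^ 28 * q.mb * (‖σ.G x v‖ * ‖xi q.P σ x v‖) +
      2 * q.P ^ 6 / (q.μ * q.P ^ 14) ^ 2 * ‖σ.G x v‖ ^ 4 +
      310 * q.P ^ 56 * (‖σ.G x v‖ ^ 2 * ‖xi q.P σ x v‖ ^ 2)) ≤ 1 / 2 := by
  have P9 := hq.P9
  have P1 : 1 ≤ q.P := le_trans (by norm_num) P9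
  have μ0 := hq.μ0
  have η0 := hq.η0
  obtain ⟨m0, m1, m2⟩ := hq.mb_le
  have xR : x ∈ σ.R := (mem_union.1 hx).elim (h.rR ·) (h.sR ·)
  have h1 := xi_sq hq h hx
  have h2 : ∑ v ∈ σ.rem.erase x, ‖σ.G x v‖ ^ 2 ≤ 2 ^ 2 :=
    (sum_le_sum_of_subset_of_nonneg (erase_subset_erase x (h.rR.trans h.RO))
      fun _ _ _ => sq_nonneg _).trans ((h.row x (h.RO xR)).trans (by norm_num))
  have h3 := h.k4 x xR
  rw [h.mg x hx] at h3
  have h4 : ∑ v ∈ σ.rem.erase x, ‖σ.G x v‖ * ‖xi q.P σ x v‖ ≤ 2 * (q.P ^ 28 / q.η) :=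
    le_of_sq_le_sq ((sum_mul_sq_le_sq_mul_sq _ _ _).trans (by
      rw [mul_pow]
      exact mul_le_mul h2 h1 (by positivity) (by positivity))) (by positivity)
  have h5 : ∑ v ∈ σ.rem.erase x, (‖xi q.P σ x v‖ ^ 2) ^ 2 ≤ 9 * (q.P ^ 28 / q.η) ^ 2 := by
    refine le_trans (sum_le_sum fun v hv => ?_) ((mul_sum _ _ _).symm.trans_le
      (mul_le_mul_of_nonneg_left h1 (by norm_num)))
    have := pow_le_pow_left₀ (norm_nonneg _) (xi_sup hq h hx (mem_erase.1 hv).2) 2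
    rw [sq (_ ^ 2)]
    exact mul_le_mul_of_nonneg_right (by linarith) (sq_nonneg _)
  have h6 : ∑ v ∈ σ.rem.erase x, ‖σ.G x v‖ ^ 2 * ‖xi q.P σ x v‖ ^ 2 ≤
      15 * q.P ^ 38 * (q.μ / q.η) :=
    le_of_sq_le_sq ((sum_mul_sq_le_sq_mul_sq _ _ _).trans (by
      simp only [← pow_mul] at h5 ⊢
      refine (mul_le_mul h3 h5 (by positivity) (by positivity)).trans (le_of_eq ?_)
      field_simp
      norm_num)) (by positivity)
  rw [sum_add_distrib, sum_add_distrib, ← mul_sum, ← mul_sum, ← mul_sum]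
  have a1 : 20 * q.P ^ 28 * q.mb * (2 * (q.P ^ 28 / q.η)) ≤ 1 / 6 := by
    have b1 : q.mb / q.η ≤ 1 / q.P ^ 160 := by
      rw [div_le_iff₀ η0, one_div, inv_mul_eq_div]; exact m1
    have b2 : q.P ^ 57 ≤ q.P ^ 160 := pow_le_pow_right₀ P1 (by norm_num)
    calc _ = 40 * q.P ^ 56 * (q.mb / q.η) := by ring
      _ ≤ 40 * q.P ^ 56 * (1 / q.P ^ 160) := by gcongr
      _ ≤ 1 / 6 := by
        rw [mul_one_div, div_le_iff₀ (by positivity)]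
        nlinarith [pow_succ q.P 56, pow_pos (one_pos.trans_le P1) 56]
  have a2 : 2 * q.P ^ 6 / (q.μ * q.P ^ 14) ^ 2 * (25 * (q.P ^ 20 * q.μ ^ 2)) ≤ 1 / 6 := by
    calc _ = 50 / q.P ^ 2 := by field_simp; norm_num
      _ ≤ 1 / 6 := by
        rw [div_le_iff₀ (by positivity)]
        nlinarith
  have a3 : 310 * q.P ^ 56 * (15 * q.P ^ 38 * (q.μ / q.η)) ≤ 1 / 6 := by
    have b1 : q.μ / q.η ≤ 1 / q.P ^ 200 := by
      rw [div_le_iff₀ η0, one_div, inv_mul_eq_div]; exact m2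
    have b2 : q.P ^ 95 ≤ q.P ^ 200 := pow_le_pow_right₀ P1 (by norm_num)
    calc _ = 4650 * q.P ^ 94 * (q.μ / q.η) := by ring
      _ ≤ 4650 * q.P ^ 94 * (1 / q.P ^ 200) := by gcongr
      _ ≤ 1 / 6 := by
        rw [mul_one_div, div_le_iff₀ (by positivity)]
        nlinarith [pow_succ q.P 94, pow_pos (one_pos.trans_le P1) 94]
  have c1 := mul_le_mul_of_nonneg_left h4 (show 0 ≤ 20 * q.P ^ 28 * q.mb by positivity)
  have c2 := mul_le_mul_of_nonneg_left h3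
    (show 0 ≤ 2 * q.P ^ 6 / (q.μ * q.P ^ 14) ^ 2 by positivity)
  have c3 := mul_le_mul_of_nonneg_left h6 (show 0 ≤ 310 * q.P ^ 56 by positivity)
  linarith

end M3

theorem t_m3 : S_M3 := fun ι _ _ q σ hq h x hx => by
  have P0 : 0 < q.P := lt_of_lt_of_le (by norm_num) hq.P9
  have := hq.mb_le.1
  choose! y y1 y2 using fun v (hv : v ∈ σ.rem.erase x) =>
    M3.two hq h hx (mem_erase.1 hv).2 (mem_erase.1 hv).1.symm
  have h1 := mul_le_mul_of_nonneg_right (sum_exp_le _ y1 (fun v _ => by positivity)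
    (M3.total hq h hx)) (exp_pos (8 * q.P ^ 28 * z3 q.P q.μ σ.G σ.a σ.X σ.Kp x (σ.m x))).le
  rw [one_mul, sum_mul] at h1
  exact (sum_le_sum fun v hv => by linarith [y2 v hv]).trans h1

end Pool.Agent.P.MP_d0f69c_mp.XS
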