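import Pool.Agent.P.MP_d0f69c_mp.XS.IfSel

/-!
Closing in the order of independent priorities.
-/

set_option autoImplicit false

open Finset Real

namespace Pool.Agent.P.MP_d0f69c_mp.XS

namespace PHA

variable {ι : Type} [Fintype ι] [DecidableEq ι] {K : ℕ} [NeZero K]

theorem coord {κ : Type} [Fintype κ] [Nonempty κ] (v : ι) (B : κ → Prop) :
    pr (fun ξ : ι → κ => B (ξ v)) = pr B :=
  (pr_equiv (Equiv.funSplitAt v κ) fun z => B z.1).trans (pr_fst B)

theorem ind2 (h : S_INDEP) {κ : Type} [Fintype κ] [Nonempty κ] (v : ι) (Z : Finset ι)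
    (hv : v ∉ Z) (A : κ → Prop) (B : (ι → κ) → Prop)
    (hB : ∀ w w', (∀ x ∈ Z, w x = w' x) → B w → B w') :
    pr (fun w => A (w v) ∧ B w) = pr A * pr B := by
  have := h ι κ Bool univ (fun i => cond i {v} Z) (fun i => cond i (fun w => A (w v)) B)
    (by simpa using hv) (by
      rintro (_ | _) - w w' h1 h2
      · exact hB w w' h1 h2
      · have h3 : w v = w' v := h1 v (mem_singleton_self v)
        exact (h3 ▸ h2 : A (w' v)))
  rw [Fintype.prod_bool] at this
  rw [← coord v A]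
  exact (pr_congr fun w => by simp [and_comm]).trans this

omit [NeZero K] in
theorem pt (c : Bool) (b : ℕ) :
    pr (fun k : Bool × Fin K => k.1 = c ∧ k.2.val = b) ≤ 1 / (2 * K) := by
  classical
  unfold pr
  rw [Fintype.card_prod, Fintype.card_bool, Fintype.card_fin]
  push_cast
  refine div_le_div_of_nonneg_right ?_ (by positivity)
  rw [Nat.cast_le_one, card_le_one]
  intro x hx y hy
  rw [mem_filter] at hx hy
  exact Prod.ext (hx.2.1.trans hy.2.1.symm) (Fin.ext (hx.2.2.trans hy.2.2.symm))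

theorem pt' (s : Finset ℕ) : pr (fun k : Bool × Fin K => k.2.val ∈ s) ≤ s.card / K := by
  refine (pr_mono fun k hk => ?_).trans ((pr_ex_le ((univ : Finset Bool) ×ˢ s)
    (fun p (k : Bool × Fin K) => k.1 = p.1 ∧ k.2.val = p.2) fun p _ => pt p.1 p.2).trans_eq ?_)
  · exact ⟨(k.1, k.2.val), by simpa using hk, rfl, rfl⟩
  · rw [card_product, card_univ, Fintype.card_bool]
    push_cast
    field_simp

theorem tel (n d : ℕ) : ∀ a K : ℕ, K = a + d →
    (n + 1 : ℝ) * ∑ b ∈ Ico a K, ((K : ℝ) - (b + 1 : ℕ)) ^ n ≤ (d : ℝ) ^ (n + 1) := by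
  induction d with
  | zero =>
    rintro a K rfl
    simp
  | succ d ih =>
    intro a K h
    have h1 := ih (a + 1) K (by omega)
    have h2 := pow_add_mul_le_add_pow (a := (d : ℝ)) (b := 1) (by positivity) (by positivity) (n + 1)
    have h3 : (K : ℝ) - (a + 1 : ℕ) = d := by
      rw [h]
      push_cast
      ring
    rw [sum_eq_sum_Ico_succ_bot (show a < K by omega), h3, mul_add]
    rw [Nat.add_sub_cancel] at h2
    push_cast at h1 h2 ⊢
    linarith

/-- the bad event, without ties and above a threshold -/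
def Ev (Z : Finset ι) (OK : List (ι × Bool) → Prop) (a : ℕ) (ξ : ι → Bool × Fin K) : Prop :=
  (∃ h : List (ι × Bool), (∀ z ∈ h, z.1 ∈ Z) ∧
    (∀ z ∈ h, ∀ y ∈ Z, (ξ y).2 < (ξ z.1).2 → y ∈ h.map Prod.fst) ∧
    (h.map Prod.fst).Pairwise (fun x y => (ξ y).2 < (ξ x).2) ∧ (∀ z ∈ h, z.2 = (ξ z.1).1) ∧
    ¬ OK h) ∧ (∀ x ∈ Z, ∀ y ∈ Z, (ξ x).2 = (ξ y).2 → x = y) ∧ ∀ y ∈ Z, a ≤ (ξ y).2.val

omit [Fintype ι] [DecidableEq ι] [NeZero K] in
theorem Ev.dep {Z : Finset ι} {OK : List (ι × Bool) → Prop} {a : ℕ} (w w' : ι → Bool × Fin K)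
    (e : ∀ x ∈ Z, w x = w' x) (h : Ev Z OK a w) : Ev Z OK a w' := by
  obtain ⟨⟨h, h1, h2, h3, h4, h5⟩, h6, h7⟩ := h
  have k : ∀ x ∈ h.map Prod.fst, w x = w' x := fun x hx => by
    obtain ⟨z, hz, rfl⟩ := List.mem_map.1 hx
    exact e _ (h1 z hz)
  refine ⟨⟨h, h1, fun z hz y hy l => h2 z hz y hy ?_, h3.imp_of_mem fun hx hy l => ?_,
    fun z hz => ?_, h5⟩, fun x hx y hy l => h6 x hx y hy ?_, fun y hy => e y hy ▸ h7 y hy⟩
  · rwa [e y hy, e _ (h1 z hz)]
  · rwa [← k _ hx, ← k _ hy]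
  · rw [← e _ (h1 z hz), h4 z hz]
  · rwa [e x hx, e y hy]

omit [Fintype ι] [NeZero K] in
theorem Ev.step {Z : Finset ι} {OK : List (ι × Bool) → Prop} {a : ℕ} {ξ : ι → Bool × Fin K}
    (h : Ev Z OK a ξ) (h0 : OK []) : ∃ p ∈ Z ×ˢ (univ : Finset Bool) ×ˢ Ico a K,
      ((ξ p.1).1 = p.2.1 ∧ (ξ p.1).2.val = p.2.2) ∧
        Ev (Z.erase p.1) (fun l => OK (l ++ [(p.1, p.2.1)])) (p.2.2 + 1) ξ := by
  obtain ⟨⟨h, h1, h2, h3, h4, h5⟩, h6, h7⟩ := h
  rcases List.eq_nil_or_concat' h with rfl | ⟨l, ⟨v, c⟩, rfl⟩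
  · exact absurd h0 h5
  have hv : v ∈ Z := h1 (v, c) (by simp)
  rw [List.map_append, List.pairwise_append] at h3
  have k1 : ∀ x ∈ l.map Prod.fst, (ξ v).2 < (ξ x).2 := fun x hx => h3.2.2 x hx v (by simp)
  have k2 : ∀ z ∈ l ++ [(v, c)], ∀ y ∈ Z.erase v, (ξ y).2 < (ξ z.1).2 → y ∈ l.map Prod.fst :=
    fun z hz y hy e => by
      have := h2 z hz y (mem_of_mem_erase hy) e
      rw [List.map_append, List.mem_append] at this
      exact this.resolve_right (by simpa using ne_of_mem_erase hy)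
  refine ⟨(v, c, (ξ v).2.val), by simpa using ⟨hv, h7 v hv⟩, ⟨(h4 (v, c) (by simp)).symm, rfl⟩,
    ⟨l, fun z hz => mem_erase.2 ⟨fun e => ?_, h1 z (List.mem_append_left _ hz)⟩,
      fun z hz => k2 z (List.mem_append_left _ hz), h3.1,
      fun z hz => h4 z (List.mem_append_left _ hz), h5⟩,
    fun x hx y hy => h6 x (mem_of_mem_erase hx) y (mem_of_mem_erase hy), fun y hy => ?_⟩
  · have := k1 z.1 (List.mem_map_of_mem hz)
    rw [show z.1 = v from e] at this
    exact lt_irrefl _ this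
  · rcases lt_trichotomy (ξ y).2 (ξ v).2 with e | e | e
    · exact absurd (k1 y (k2 (v, c) (by simp) y hy e)) e.not_gt
    · exact absurd (h6 y (mem_of_mem_erase hy) v hv e) (ne_of_mem_erase hy)
    · exact e

theorem main (hI : S_INDEP) {γ : ℝ} (hγ : 0 ≤ γ) (n : ℕ) : ∀ (Z : Finset ι)
    (OK : List (ι × Bool) → Prop) (Ψ : List (ι × Bool) → ℝ) (a : ℕ), Z.card = n → a ≤ K →
    (∀ h, 0 ≤ Ψ h) → (∀ h, ¬ OK h → 1 ≤ Ψ h) →
    (∀ h : List (ι × Bool), (h.map Prod.fst).Nodup → (∀ z ∈ h, z.1 ∈ Z) → OK h →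
      ∑ v ∈ Z \ (h.map Prod.fst).toFinset,
        ((Ψ ((v, true) :: h) + Ψ ((v, false) :: h)) / 2 - Ψ h) ≤ γ * Ψ h) →
    pr (Ev (K := K) Z OK a) ≤
      Ψ [] * (∏ m ∈ range n, (1 + γ / (m + 1))) * (((K : ℝ) - a) / K) ^ n := by
  have hK : (0 : ℝ) < K := by exact_mod_cast NeZero.pos K
  have hP : ∀ n, 1 ≤ ∏ m ∈ range n, (1 + γ / (m + 1 : ℝ)) := fun n =>
    prod_induction _ (1 ≤ ·) (fun _ _ => one_le_mul_of_one_le_of_one_le) le_rfl
      fun m _ => le_add_of_nonneg_right (by positivity)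
  have base : ∀ (n : ℕ) (Z : Finset ι) (OK : List (ι × Bool) → Prop) (Ψ : List (ι × Bool) → ℝ)
      (a : ℕ), Z.card = n → a ≤ K → 1 ≤ Ψ [] → pr (Ev (K := K) Z OK a) ≤
        Ψ [] * (∏ m ∈ range n, (1 + γ / (m + 1))) * (((K : ℝ) - a) / K) ^ n := by
    intro n Z OK Ψ a hn ha h1
    have ha' : (0 : ℝ) ≤ K - a := sub_nonneg.2 (by exact_mod_cast ha)
    refine (pr_mono (B := fun ξ => ∀ y ∈ Z, (ξ y).2.val ∈ Ico a K)
      fun ξ h y hy => mem_Ico.2 ⟨h.2.2 y hy, (ξ y).2.2⟩).trans ?_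
    rw [hI ι (Bool × Fin K) ι Z (fun y => {y}) (fun y ξ => (ξ y).2.val ∈ Ico a K)
      (fun i _ j _ e => disjoint_singleton.2 e)
      fun i _ w w' e h => e i (mem_singleton_self i) ▸ h]
    refine (prod_le_prod (fun i _ => pr_nonneg _) fun i _ =>
      (coord i fun k : Bool × Fin K => k.2.val ∈ Ico a K).trans_le (pt' _)).trans ?_
    rw [prod_const, hn, Nat.card_Ico, Nat.cast_sub ha]
    exact le_mul_of_one_le_left (by positivity) (one_le_mul_of_one_le_of_one_le h1 (hP n))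
  induction n with
  | zero =>
    intro Z OK Ψ a hn ha h0 h1 _
    by_cases c : OK []
    · rw [pr_false fun ξ h => by
        obtain ⟨p, hp, -⟩ := h.step c
        simp [card_eq_zero.1 hn] at hp]
      simpa using h0 []
    · exact base 0 Z OK Ψ a hn ha (h1 _ c)
  | succ n ih =>
    intro Z OK Ψ a hn ha h0 h1 h2
    by_cases c : OK []
    swap
    · exact base _ Z OK Ψ a hn ha (h1 _ c)
    have k1 : ∀ p ∈ Z ×ˢ (univ : Finset Bool) ×ˢ Ico a K, pr (fun ξ : ι → Bool × Fin K =>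
        ((ξ p.1).1 = p.2.1 ∧ (ξ p.1).2.val = p.2.2) ∧
          Ev (Z.erase p.1) (fun l => OK (l ++ [(p.1, p.2.1)])) (p.2.2 + 1) ξ) ≤
        (∏ m ∈ range n, (1 + γ / (m + 1))) / K ^ (n + 1) *
          (Ψ [(p.1, p.2.1)] / 2 * ((K : ℝ) - (p.2.2 + 1 : ℕ)) ^ n) := by
      rintro ⟨v, c, b⟩ hp
      simp only [mem_product, mem_Ico] at hp
      rw [ind2 hI v (Z.erase v) (notMem_erase v Z)
        (fun k : Bool × Fin K => k.1 = c ∧ k.2.val = b) _ Ev.dep]
      refine (mul_le_mul (pt c b) (ih (Z.erase v) _ (fun l => Ψ (l ++ [(v, c)])) (b + 1)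
        (by rw [card_erase_of_mem hp.1, hn]; rfl) hp.2.2.2 (fun _ => h0 _) (fun _ => h1 _)
        fun l l1 l2 l3 => ?_) (pr_nonneg _) (by positivity)).trans_eq ?_
      · have l4 : v ∉ l.map Prod.fst := fun e => by
          obtain ⟨z, hz, e⟩ := List.mem_map.1 e
          exact ne_of_mem_erase (l2 z hz) e
        have := h2 (l ++ [(v, c)]) (by
          rw [List.map_append]
          exact List.Nodup.append l1 (List.nodup_singleton _) (by simpa using l4)) (by
          intro z hz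
          rcases List.mem_append.1 hz with e | e
          · exact mem_of_mem_erase (l2 z e)
          · rw [List.mem_singleton.1 e]
            exact hp.1) l3
        rwa [show Z \ ((l ++ [(v, c)]).map Prod.fst).toFinset =
          Z.erase v \ (l.map Prod.fst).toFinset by
            ext x
            simp only [List.map_append, mem_sdiff, List.mem_toFinset, List.mem_append, mem_erase,
              List.map_cons, List.map_nil, List.mem_singleton]
            tauto] at this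
      · simp only [List.nil_append, div_pow]
        field_simp
        ring
    refine ((pr_mono fun ξ h => h.step c).trans ((pr_ex _ _).trans (sum_le_sum k1))).trans ?_
    have k2 := h2 [] (by simp) (by simp) c
    simp only [List.map_nil, List.toFinset_nil, sdiff_empty, sum_sub_distrib, sum_const, hn,
      nsmul_eq_mul] at k2
    have k3 := tel n (K - a) a K (by omega)
    rw [Nat.cast_sub ha, ← le_div_iff₀' (by positivity)] at k3
    have k4 : ∑ p ∈ Z ×ˢ (univ : Finset Bool) ×ˢ Ico a K,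
        Ψ [(p.1, p.2.1)] / 2 * ((K : ℝ) - (p.2.2 + 1 : ℕ)) ^ n =
        (∑ v ∈ Z, (Ψ [(v, true)] + Ψ [(v, false)]) / 2) *
          ∑ b ∈ Ico a K, ((K : ℝ) - (b + 1 : ℕ)) ^ n := by
      rw [sum_product, sum_mul]
      refine sum_congr rfl fun v _ => ?_
      rw [sum_product, Fintype.sum_bool]
      simp only [← mul_sum]
      ring
    rw [← mul_sum, k4]
    refine (mul_le_mul_of_nonneg_left (mul_le_mul (sub_le_iff_le_add.1 k2) k3
      (sum_nonneg fun b hb => pow_nonneg (sub_nonneg.2 (by exact_mod_cast (mem_Ico.1 hb).2)) _)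
      (by have := h0 []; positivity)) (by have := hP n; positivity)).trans_eq ?_
    rw [prod_range_succ, div_pow]
    push_cast
    field_simp
    ring

omit [DecidableEq ι] [NeZero K] in
theorem ky_lt {w : ι → Fin K} {x y : ι} (h : w y < w x) : ky w y < ky w x := by
  have h1 : (w y : ℕ) + 1 ≤ w x := h
  have h2 := (Fintype.equivFin ι y).2
  have h3 := Nat.mul_le_mul_right (Fintype.card ι) h1
  unfold ky
  rw [add_mul] at h3
  omega

theorem tie (hI : S_INDEP) {x y : ι} (h : x ≠ y) :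
    pr (fun ξ : ι → Bool × Fin K => (ξ x).2 = (ξ y).2) ≤ 1 / K := by
  have hK : (0 : ℝ) < K := by exact_mod_cast NeZero.pos K
  refine (pr_mono fun ξ e => ?_).trans ((pr_ex_le (range K) (fun b (ξ : ι → Bool × Fin K) =>
    (ξ x).2.val ∈ ({b} : Finset ℕ) ∧ (ξ y).2.val ∈ ({b} : Finset ℕ)) (c := 1 / K * (1 / K))
    fun b _ => ?_).trans_eq ?_)
  · exact ⟨(ξ x).2.val, mem_range.2 (ξ x).2.2, by simp, by simp [e]⟩
  · have := pt' (K := K) {b}
    rw [card_singleton, Nat.cast_one] at this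
    rw [ind2 hI x {y} (by simpa using h) (fun k : Bool × Fin K => k.2.val ∈ ({b} : Finset ℕ)) _
      fun w w' e h => e y (mem_singleton_self y) ▸ h,
      coord y fun k : Bool × Fin K => k.2.val ∈ ({b} : Finset ℕ)]
    exact mul_le_mul this this (pr_nonneg _) (by positivity)
  · rw [card_range]
    field_simp

end PHA

open PHA in
theorem t_ph (h : S_INDEP) : S_PH := by
  intro ι _ _ K _ Z OK Ψ γ hγ h0 h1 h2
  have hK : (0 : ℝ) < K := by exact_mod_cast NeZero.pos K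
  rw [← pr_pair]
  refine (pr_mono (B := fun ξ => Ev Z OK 0 ξ ∨ ∃ p ∈ Z.offDiag, (ξ p.1).2 = (ξ p.2).2) ?_).trans
    ((pr_or _ _).trans (add_le_add ((main h hγ _ Z OK Ψ 0 rfl (Nat.zero_le K) h0 h1 h2).trans ?_)
      ((pr_ex_le _ _ fun p hp => tie h (mem_offDiag.1 hp).2.2).trans ?_)))
  · rintro ξ ⟨t, l, k1, k2, k3, k4⟩
    refine or_iff_not_imp_right.2 fun hn => ?_
    have k5 : ∀ x ∈ Z, ∀ y ∈ Z, (ξ x).2 = (ξ y).2 → x = y := fun x hx y hy e =>
      by_contra fun c => hn ⟨(x, y), mem_offDiag.2 ⟨hx, hy, c⟩, e⟩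
    have k6 : ∀ x, x ∈ l.map Prod.fst ↔ x ∈ Z ∧ ky (fun x => (ξ x).2) x < t := fun x => by
      rw [← List.mem_toFinset, k1, pre, mem_filter]
    refine ⟨⟨l, fun z hz => ((k6 _).1 (List.mem_map_of_mem hz)).1, fun z hz y hy e => (k6 y).2
      ⟨hy, (ky_lt (w := fun x => (ξ x).2) e).trans ((k6 _).1 (List.mem_map_of_mem hz)).2⟩,
      k2.imp_of_mem fun {x y} hx hy e => ?_, k3, k4⟩, k5, fun _ _ => Nat.zero_le _⟩
    rcases lt_trichotomy (ξ y).2 (ξ x).2 with c | c | c
    · exact c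
    · rw [k5 y ((k6 y).1 hy).1 x ((k6 x).1 hx).1 c] at e
      exact absurd e (lt_irrefl _)
    · exact absurd (ky_lt (w := fun x => (ξ x).2) c) e.not_gt
  · rw [Nat.cast_zero, sub_zero, div_self hK.ne', one_pow, mul_one]
    refine mul_le_mul_of_nonneg_left ((prod_one_add_le_exp_sum _ fun m => by positivity).trans
      (exp_le_exp.2 ?_)) (h0 _)
    have := harmonic_le_one_add_log Z.card
    simp only [harmonic] at this
    push_cast at this
    simp only [div_eq_mul_inv, ← mul_sum]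
    exact mul_le_mul_of_nonneg_left this hγ
  · rw [mul_one_div]
    refine div_le_div_of_nonneg_right ?_ hK.le
    rw [offDiag_card, sq]
    exact_mod_cast Nat.sub_le _ _

end Pool.Agent.P.MP_d0f69c_mp.XS
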