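import Pool.Agent.P.MP_d0f69c_mp.XS.FAsm
import Pool.Agent.P.MP_d0f69c_mp.XS.FA1
import Pool.Agent.P.MP_d0f69c_mp.XS.FA2
import Pool.Agent.P.MP_d0f69c_mp.XS.FA3
import Pool.Agent.P.MP_d0f69c_mp.XS.FA4
import Pool.Agent.P.MP_d0f69c_mp.XS.FA5
import Pool.Agent.P.MP_d0f69c_mp.XS.FA6
import Pool.Agent.P.MP_d0f69c_mp.XS.FM1
import Pool.Agent.P.MP_d0f69c_mp.XS.M2
import Pool.Agent.P.MP_d0f69c_mp.XS.M3
import Pool.Agent.P.MP_d0f69c_mp.XS.FM4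
import Pool.Agent.P.MP_d0f69c_mp.XS.FM5
import Pool.Agent.P.MP_d0f69c_mp.XS.FM5C
import Pool.Agent.P.MP_d0f69c_mp.XS.FM6
import Pool.Agent.P.MP_d0f69c_mp.XS.FPot
import Pool.Agent.P.MP_d0f69c_mp.XS.FPotC
import Pool.Agent.P.MP_d0f69c_mp.XS.FCpa
import Pool.Agent.P.MP_d0f69c_mp.XS.FHist
import Pool.Agent.P.MP_d0f69c_mp.XS.FChain
import Pool.Agent.P.MP_d0f69c_mp.XS.FExa
import Pool.Agent.P.MP_d0f69c_mp.XS.FDec
import Pool.Agent.P.MP_d0f69c_mp.XS.FFx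
import Pool.Agent.P.MP_d0f69c_mp.XS.FFar
import Pool.Agent.P.MP_d0f69c_mp.XS.FNmb
import Pool.Agent.P.MP_d0f69c_mp.XS.FUlh
import Pool.Agent.P.MP_d0f69c_mp.XS.PH
import Pool.Agent.P.MP_d0f69c_mp.XS.Indep
import Pool.Agent.P.MP_d0f69c_mp.XS.Far
import Pool.Agent.P.MP_d0f69c_mp.XS.CT
import Pool.Agent.P.MP_d0f69c_mp.XS.Loci

/-!
The closing flow of one finite system succeeds with high probability.
-/

namespace Pool.Agent.P.MP_d0f69c_mp.XS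

theorem t_flow : S_FLOW :=
  have hd : S_DEC := t_dec t_exa (t_ct t_far) t_far
  have hx : S_FX := t_fx t_exa hd t_pci t_cpa
  t_asm (t_a1 t_m1 t_exa) (t_a2 t_m2 t_exa) (t_a3 t_m3 t_exa) (t_a4 t_m4 t_potc t_exa)
    (t_a5 (t_m5 t_m5c) t_pot t_nmb t_exa) (t_a6 t_m6 t_potc t_exa)
    (t_ulh t_chain hx hd t_exa (t_fare t_far) t_loci) hx t_hist (t_ph t_indep) t_far

end Pool.Agent.P.MP_d0f69c_mp.XS
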