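import Pool.Agent.P.MP_d0f69c_mp.XS.Pr

/-! Causal maps without tape, their iteration, and potentials. -/

namespace Pool.Agent.P.MP_d0f69c_mp.XS

open Finset

variable {ι κ S S' S'' : Type} [Fintype ι] [DecidableEq ι] [Fintype κ]

/-- the map `f` does not look at the variables that its value declares unrevealed -/
structure Cau (U : S → Finset ι) (U' : S' → Finset ι) (f : S → (ι → κ) → S') : Prop where
  sub : ∀ s ω, U' (f s ω) ⊆ U s
  eq : ∀ s ω ω', (∀ y ∉ U' (f s ω), ω' y = ω y) → f s ω' = f s ω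

omit [Fintype ι] [DecidableEq ι] [Fintype κ] in
theorem Cau.comp {U : S → Finset ι} {U' : S' → Finset ι} {U'' : S'' → Finset ι}
    {f : S → (ι → κ) → S'} {g : S' → (ι → κ) → S''} (hf : Cau U U' f) (hg : Cau U' U'' g) :
    Cau U U'' fun s ω => g (f s ω) ω :=
  ⟨fun s ω => (hg.sub _ ω).trans (hf.sub s ω), fun s ω ω' h => by
    rw [hf.eq s ω ω' fun y hy => h y fun h' => hy (hg.sub _ ω h')]
    exact hg.eq _ ω ω' h⟩

omit [Fintype ι] [Fintype κ] in
theorem mix_off {U : Finset ι} (a b : ι → κ) {y : ι} (h : y ∉ U) : mix U a b y = b y := if_neg h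

theorem Cau.tower [Nonempty κ] {U : S → Finset ι} {U' : S' → Finset ι} {f : S → (ι → κ) → S'}
    (hf : Cau U U' f) (s : S) (ϖ : ι → κ) (F : S' → (ι → κ) → ℝ) :
    av (fun z => F (f s (mix (U s) z ϖ)) (mix (U s) z ϖ)) =
      av fun z => av fun z' => F (f s (mix (U s) z ϖ))
        (mix (U' (f s (mix (U s) z ϖ))) z' (mix (U s) z ϖ)) := by
  rw [av_stop (fun z => U' (f s (mix (U s) z ϖ))) fun ξ ξ' h => by
    rw [hf.eq s (mix (U s) ξ ϖ) (mix (U s) ξ' ϖ) fun y hy => by simp only [mix, h y hy]]]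
  congr 1
  funext z
  congr 1
  funext z'
  rw [mix_mix (hf.sub s _), hf.eq s (mix (U s) z ϖ) _ fun y hy => mix_off _ _ hy]

/-- the first `n` steps -/
def iter (stp : ℕ → S → (ι → κ) → S) : ℕ → S → (ι → κ) → S
  | 0, s, _ => s
  | n + 1, s, ω => stp n (iter stp n s ω) ω

omit [Fintype ι] [DecidableEq ι] [Fintype κ] in
theorem Cau.iter {U : S → Finset ι} {stp : ℕ → S → (ι → κ) → S} (h : ∀ i, Cau U U (stp i)) :
    ∀ n, Cau U U (iter stp n)
  | 0 => ⟨fun _ _ => subset_rfl, fun _ _ _ _ => rfl⟩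
  | n + 1 => (Cau.iter h n).comp (h n)

omit [Fintype ι] [DecidableEq ι] [Fintype κ] in
theorem iter_inv {stp : ℕ → S → (ι → κ) → S} {P : ℕ → S → Prop} {ω : ι → κ} {s : S} (h0 : P 0 s) :
    ∀ n, (∀ i < n, ∀ s, P i s → P (i + 1) (stp i s ω)) → P n (iter stp n s ω)
  | 0, _ => h0
  | n + 1, h => h n (by omega) _ (iter_inv h0 n fun i hi => h i (by omega))

/-- a potential that decreases in the mean at every step decreases in the mean -/
theorem iter_av [Nonempty κ] {U : S → Finset ι} {stp : ℕ → S → (ι → κ) → S}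
    (hc : ∀ i, Cau U U (stp i)) {P : ℕ → S → Prop} {Φ : ℕ → S → ℝ} {s : S} (h0 : P 0 s)
    (ϖ : ι → κ) : ∀ n, (∀ i < n, ∀ s ω, P i s → P (i + 1) (stp i s ω)) →
      (∀ i < n, ∀ s ϖ, P i s → av (fun z => Φ (i + 1) (stp i s (mix (U s) z ϖ))) ≤ Φ i s) →
      av (fun z => Φ n (iter stp n s (mix (U s) z ϖ))) ≤ Φ 0 s
  | 0, _, _ => av_le fun _ => le_rfl
  | n + 1, h1, h2 => by
    refine le_trans ?_ (iter_av hc h0 ϖ n (fun i hi => h1 i (by omega)) fun i hi => h2 i (by omega))
    refine ((Cau.iter hc n).tower s ϖ fun t ω => Φ (n + 1) (stp n t ω)).le.trans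
      (av_mono fun z => h2 n (by omega) _ _ ?_)
    exact iter_inv h0 n fun i hi t => h1 i (by omega) t _

theorem av_coin {N : ℕ} (hN : N ≠ 0) (v : ι) (f : Bool → ℝ) :
    av (fun z : Cfg ι N => f (z v).1) = (f true + f false) / 2 := by
  have : Nonempty (Fin N) := ⟨⟨0, Nat.pos_of_ne_zero hN⟩⟩
  rw [av_coins fun w : ι → Bool => f (w v)]
  have i : Function.Involutive fun w : ι → Bool => Function.update w v (!w v) := fun w => by simp
  have e := av_equiv (i.toPerm _) fun w : ι → Bool => f (w v)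
  have e2 : av (fun w : ι → Bool => f (w v)) + av (fun w : ι → Bool => f (i.toPerm _ w v)) =
      f true + f false := by
    rw [← av_add, ← av_const (α := ι → Bool) (f true + f false)]
    congr 1
    funext w
    simp only [Function.Involutive.coe_toPerm, Function.update_self]
    cases w v <;> simp [add_comm]
  linarith

end Pool.Agent.P.MP_d0f69c_mp.XS
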