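import Pool.Agent.P.MP_d0f69c_mp.XS.HT0
import Pool.Agent.P.MP_d0f69c_mp.XS.HRun

/-! Joint bound for labels attached to the steps of a causal iteration. -/

namespace Pool.Agent.P.MP_d0f69c_mp.XS

open Finset

theorem t_heb : S_HEB := by
  intro ι κ S L _ _ _ _ U stp P ev lab n p s ϖ I hp0 hp1 hc h0 hP hinj hev hpr
  classical
  by_cases hs : ∃ ℓ ∈ I, ev s ℓ
  · obtain ⟨ℓ, hℓ, h⟩ := hs
    rw [pr_false fun z hz => (hz ℓ hℓ).2 h]
    positivity
  push Not at hs
  let w : ℕ → S → L → ℝ := fun j t ℓ =>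
    if ev t ℓ then 1 else if ∃ i, j ≤ i ∧ i < n ∧ lab i = ℓ then p else 0
  have w0 : ∀ j t ℓ, 0 ≤ w j t ℓ := fun j t ℓ => by
    simp only [w]; split_ifs <;> linarith
  have w1 : ∀ j t ℓ, w j t ℓ ≤ 1 := fun j t ℓ => by
    simp only [w]; split_ifs <;> linarith
  have ws : ∀ i < n, ∀ t ω, ∀ ℓ ∈ I, ℓ ≠ lab i → w (i + 1) (stp i t ω) ℓ ≤ w i t ℓ := by
    intro i hi t ω ℓ hℓ hne
    by_cases h1 : ev t ℓ
    · have : w i t ℓ = 1 := if_pos h1
      rw [this]; exact w1 _ _ _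
    have h2 : ¬ ev (stp i t ω) ℓ := fun h => (hev i hi t ω ℓ hℓ h).elim h1 hne
    simp only [w, if_neg h1, if_neg h2]
    by_cases h3 : ∃ k, i + 1 ≤ k ∧ k < n ∧ lab k = ℓ
    · obtain ⟨k, hk1, hk2, hk3⟩ := h3
      rw [if_pos ⟨k, hk1, hk2, hk3⟩, if_pos ⟨k, by omega, hk2, hk3⟩]
    · rw [if_neg h3]; split_ifs <;> linarith
  have key := iter_av (Φ := fun j t => ∏ ℓ ∈ I, w j t ℓ) hc h0 ϖ n hP fun i hi t ϖ' ht => by
    by_cases hI : lab i ∈ I
    · rw [← mul_prod_erase I _ hI, mul_comm]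
      have hR : 0 ≤ ∏ ℓ ∈ I.erase (lab i), w i t ℓ := prod_nonneg fun ℓ _ => w0 _ _ _
      refine (av_mono (g := fun z => (∏ ℓ ∈ I.erase (lab i), w i t ℓ) *
        if ev (stp i t (mix (U t) z ϖ')) (lab i) then 1 else 0) fun z => ?_).trans ?_
      · rw [← mul_prod_erase I _ hI, mul_comm]
        refine mul_le_mul (prod_le_prod (fun ℓ _ => w0 _ _ _) fun ℓ hℓ =>
          ws i hi t _ ℓ (mem_of_mem_erase hℓ) (ne_of_mem_erase hℓ)) ?_ (w0 _ _ _) hR
        simp only [w]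
        split_ifs with h1 h2
        · exact le_rfl
        · obtain ⟨k, hk1, hk2, hk3⟩ := h2
          have := hinj k hk2 i hi hk3
          omega
        · exact le_rfl
      · rw [av_mul]
        refine mul_le_mul_of_nonneg_left ?_ hR
        have e := pr_eq_av fun z => ev (stp i t (mix (U t) z ϖ')) (lab i)
        by_cases h1 : ev t (lab i)
        · have : w i t (lab i) = 1 := if_pos h1
          rw [this]
          exact av_le fun z => by split_ifs <;> norm_num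
        · have : w i t (lab i) = p := by
            simp only [w, if_neg h1]; exact if_pos ⟨i, le_rfl, hi, rfl⟩
          rw [this]
          refine le_trans (le_of_eq ?_) (hpr i hi t ϖ' ht h1)
          rw [e]
    · exact av_le fun z => prod_le_prod (fun ℓ _ => w0 _ _ _) fun ℓ hℓ =>
        ws i hi t _ ℓ hℓ fun h => hI (h ▸ hℓ)
  refine (pr_le_av (fun z => prod_nonneg fun ℓ _ => w0 n _ ℓ) fun z hz => ?_).trans
    (key.trans ?_)
  · exact (prod_eq_one fun ℓ hℓ => if_pos (hz ℓ hℓ).1).ge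
  · rw [← prod_const]
    refine prod_le_prod (fun ℓ _ => w0 _ _ _) fun ℓ hℓ => ?_
    simp only [w, if_neg (hs ℓ hℓ)]
    split_ifs <;> linarith

end Pool.Agent.P.MP_d0f69c_mp.XS
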