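import Pool.Agent.P.MP_d0f69c_mp.XS.HT0
import Pool.Agent.P.MP_d0f69c_mp.XS.Loci

/-! The analytic invariant after all turns gives the invariant of the process. -/

set_option autoImplicit false

namespace Pool.Agent.P.MP_d0f69c_mp.XS

open Finset Real

variable {d M : ℕ} [NeZero M] {E : Env d M} {q : Par} {S0 : St (Tor d M)} {n : ℕ}
  {c : ℕ → Tor d M}

namespace HFinA

theorem rB_le (hE : E.OK) (hq : q.OK E) : (d + 2) * q.rB E.η ≤ q.D E.η 3 := by
  refine le_trans ?_ (hq.D_grow' hE (by norm_num : 2 < 3))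
  rw [Par.rB, ← mul_assoc, show q.P ^ 60 = q.P ^ 30 * q.P ^ 30 by ring]
  refine Nat.mul_le_mul_right _ (Nat.mul_le_mul_right _ ?_)
  have a1 := hq.Pd' hE
  have a2 : d ≤ d ^ 2 := Nat.le_self_pow (by norm_num) _
  have a4 := hE.d1
  have a3 : q.P ≤ q.P ^ 30 := Nat.le_self_pow (by norm_num) _
  omega

theorem rA_le (hE : E.OK) (hq : q.OK E) : q.rA E.η ≤ q.rB E.η := by
  refine Nat.mul_le_mul_right _ ?_
  have a1 := hq.pow_lt hE (a := 4) (b := 30) (c := 3) (by norm_num) (by norm_num)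
  have a2 := hq.pow_le hE (a := 0) (b := 4) (by norm_num)
  have : (2 * (q.P : ℝ) ^ 4 + 1) ≤ (q.P : ℝ) ^ 30 := by linarith
  exact_mod_cast this

theorem rB_li (hE : E.OK) (hq : q.OK E) : q.rB E.η ≤ q.li E.η 3 := by
  rw [Par.OK.li_succ, Par.rB, Par.D, ← mul_assoc, ← pow_add]
  exact Nat.mul_le_mul_right _ ((Nat.pow_le_pow_right (le_trans (by norm_num) (hq.P9' hE))
    (by norm_num)).trans (Par.OK.Lg_ge hE))

theorem drop {f : Tor d M → ℝ} (f0 : ∀ z, 0 ≤ f z) :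
    ∑ z, f z ≤ ∑ z, f z * (1 + nm z) ^ 2 := sum_le_sum fun z _ =>
  le_mul_of_one_le_right (f0 z) (one_le_pow₀ (le_add_of_nonneg_right (Nat.cast_nonneg _)))

theorem U_le (H : HB E q S0 n c) (x : Tor d M) : Uj E q c n x ≤ 5 / 4 := by
  have hE := H.hE
  have hq := H.hq
  refine (sum_le_sum (g := fun i => (if x ∈ bl (c i) (q.rB E.η) then 1 else 0) +
    exp (-(q.P : ℝ) ^ 8) * ωt (q.li E.η 3) (x - c i)) fun i _ => ?_).trans ?_
  · have := mul_pos (exp_pos (-(q.P : ℝ) ^ 8)) (ωt_pos (q.li E.η 3) (x - c i))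
    unfold uc
    split_ifs <;> linarith
  rw [sum_add_distrib, ← mul_sum, sum_boole]
  have a1 : ((range n).filter fun i => x ∈ bl (c i) (q.rB E.η)).card ≤ 1 :=
    card_le_one.2 fun a ha b hb => by
      by_contra e
      have := H.sep a (mem_range.1 (mem_filter.1 ha).1) b (mem_range.1 (mem_filter.1 hb).1) e
      have := nm_tri (c a) x (c b)
      have := nm_comm (c a) x
      have := mem_bl.1 (mem_filter.1 ha).2
      have := mem_bl.1 (mem_filter.1 hb).2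
      have := (Nat.le_mul_of_pos_left _ (by omega)).trans (rB_le hE hq)
      omega
  have a2 := ((sum_cen H.sep (f := ωt (q.li E.η 3)) (fun z => (ωt_pos _ z).le) x subset_rfl).trans
    (drop fun z => (ωt_pos _ z).le)).trans (far_two hE hq H.late.1 le_rfl)
  have a3 : exp (-(q.P : ℝ) ^ 8) * exp (2 * (q.P : ℝ) ^ 2) ≤ 1 / 4 := by
    rw [← exp_add, le_div_iff₀ (by norm_num)]
    refine (mul_le_mul_of_nonneg_left (le_trans (by norm_num) (add_one_le_exp 3))
      (exp_pos _).le).trans ?_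
    rw [← exp_add, exp_le_one_iff]
    linarith [hq.pow_lt hE (a := 2) (b := 8) (c := 5) (by norm_num) (by norm_num),
      hq.pow_le hE (a := 0) (b := 2) (by norm_num)]
  have a4 : ((((range n).filter fun i => x ∈ bl (c i) (q.rB E.η)).card : ℕ) : ℝ) ≤ 1 := by
    exact_mod_cast a1
  linarith [mul_le_mul_of_nonneg_left a2 (exp_pos (-(q.P : ℝ) ^ 8)).le]

theorem e40 (H : HB E q S0 n c) : q.e ^ 40 * (q.P : ℝ) ^ 20 ≤ 1 := by
  have h := H.late.2
  rw [le_div_iff₀ (pow_pos (H.hq.Ppos H.hE) _)] at h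
  refine le_trans (mul_le_mul_of_nonneg_right
    (pow_le_of_le_one H.hq.e0.le (H.hq.e_le_one H.hE) (by norm_num)) (by positivity)) ?_
  linarith [H.hE.η1]

theorem sumE (H : HB E q S0 n c) (F : Tor d M → ℝ) :
    q.e ^ 40 * ∑ i ∈ range n, Ecc E q (c i) F ≤ 4 / (q.P : ℝ) ^ 3 * NF E.p F := by
  have hE := H.hE
  have hq := H.hq
  have hP := hq.Ppos hE
  have r1 := rB_le hE hq
  have r2 : d * q.rB E.η + q.rB E.η + q.rB E.η ≤ q.D E.η 3 := by linarith
  rw [← sum_image (s := range n) (g := c) (f := fun z => Ecc E q z F) fun i hi k hk e => by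
    by_contra h
    have := H.sep i (mem_range.1 hi) k (mem_range.1 hk) h
    rw [e, nm_self] at this
    omega]
  have a := hE.ref.sum_Ec (r := d * q.rB E.η) (L := d * q.rB E.η + q.rB E.η) (D := q.rB E.η)
    (exp_pos (-(q.P : ℝ) ^ 8)).le (far_two hE hq H.late.1 le_rfl) ?_ F
    (t_loci d M E q.P (q.rB E.η) F hE hq.P1 ((hq.l0_le_D hE 2).trans
      (Nat.le_mul_of_pos_left _ (pow_pos (by exact_mod_cast hP) _)))).1
    (C := (range n).image c) fun x hx y hy hn => ?_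
  · refine (mul_le_mul_of_nonneg_left a (pow_pos hq.e0 _).le).trans ?_
    rw [← mul_assoc]
    refine mul_le_mul_of_nonneg_right ?_ (NF_nonneg hE.ref.p0 F)
    rw [le_div_iff₀ (by positivity), mul_assoc]
    refine le_trans (mul_le_mul_of_nonneg_left ?_ (pow_pos hq.e0 _).le)
      ((e40 H).trans (by norm_num))
    have := hq.pow_lt hE (a := 4) (b := 20) (c := 2) (by norm_num) (by norm_num)
    have := hq.pow_le hE (a := 3) (b := 4) (by norm_num)
    have : 0 < (q.P : ℝ) ^ 4 := by positivity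
    nlinarith
  · have b1 : (1 + (d * q.rB E.η + q.rB E.η + q.rB E.η : ℕ) : ℝ) ^ 2 ≤ exp ((q.P : ℝ) ^ 2) := by
      have : ((d * q.rB E.η + q.rB E.η + q.rB E.η : ℕ) : ℝ) ≤ q.D E.η 3 := by exact_mod_cast r2
      have c0 : (0 : ℝ) ≤ q.D E.η 3 := Nat.cast_nonneg _
      refine le_trans ((pow_le_pow_left₀ (by positivity) (by linarith) 2).trans
        (pow_le_pow_right₀ (by linarith) (by omega))) (hq.vj H.late.1).1
    have b2 : E.CS ≤ exp ((q.P : ℝ) ^ 2) := by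
      have := hq.CS_le hE
      have := hE.ref.c1
      have := hq.pow_le hE (a := 1) (b := 2) (by norm_num)
      nlinarith [add_one_le_exp ((q.P : ℝ) ^ 2)]
    calc _ ≤ exp (-(q.P : ℝ) ^ 8) * (exp ((q.P : ℝ) ^ 2) * exp ((q.P : ℝ) ^ 2) *
          exp (2 * (q.P : ℝ) ^ 2)) := by gcongr
      _ ≤ 1 := by
          rw [← exp_add, ← exp_add, ← exp_add, exp_le_one_iff]
          linarith [hq.pow_lt hE (a := 2) (b := 8) (c := 4) (by norm_num) (by norm_num)]
  · obtain ⟨i, hi, rfl⟩ := mem_image.1 hx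
    obtain ⟨k, hk, rfl⟩ := mem_image.1 hy
    have := H.sep i (mem_range.1 hi) k (mem_range.1 hk) fun e => hn (by rw [e])
    omega

theorem dec (H : HB E q S0 n c) {G : ℕ → Matrix (Tor d M) (Tor d M) ℂ} (h0 : G 0 = S0.G)
    (ht : ∀ i < n, Turn (G i) (G (i + 1)) (bl (c i) (q.rA E.η) ∩ S0.O) (exp ((q.P : ℝ) ^ 3) ^ 18)) :
    Dec (G n) S0.O (q.Bi 3) (q.li E.η 3) := by
  have hE := H.hE
  have hq := H.hq
  have hθ : (q.b2 E.η).θ ≤ 1 / 2 := (hq.θ_add hE (c := 5) (by norm_num)).trans (by norm_num)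
  have l2 : (0 : ℝ) < q.li E.η 2 := by exact_mod_cast hq.li_one hE 2
  have l3 : (0 : ℝ) < q.li E.η 3 := by exact_mod_cast hq.li_one hE 3
  have X1 : 1000 ≤ exp ((q.P : ℝ) ^ 3) := by
    linarith [add_one_le_exp ((q.P : ℝ) ^ 3),
      hq.pow_lt hE (a := 0) (b := 3) (c := 1000) (by norm_num) (by norm_num)]
  have B1 := hq.Bi_one 2
  have η0 := hE.η0
  intro x hx z
  refine ((dec_iso (B := q.Bi 2) (l := q.li E.η 2) (L := q.li E.η 3) (R := q.rB E.η)
    (g := 2 / E.η) (h0 ▸ H.inv.dec) B1 (hq.li_one hE 2) ?_ (by positivity) H.sep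
    ((drop fun z => (exp_pos _).le).trans (far_four hE hq H.late.1 (by norm_num))) ?_ ?_
    (one_le_pow₀ (by linarith)) (by positivity) (fun x hx y hy => h0 ▸
      (H.inv.gok0 hE (by linarith)).entry_le (H.inv.aw_half hθ hx).1 (H.inv.aw_half hθ hy).1)
    le_rfl ht z).2 x hx).trans (mul_le_mul_of_nonneg_right ?_ (exp_pos _).le)
  · have : 2 * q.li E.η 2 ≤ q.li E.η 3 := by
      rw [Par.OK.li_succ q E.η 2]
      exact Nat.mul_le_mul_right _ (le_trans (by norm_num) (hq.Lg_ge' hE))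
    exact_mod_cast this
  · have := (Nat.le_mul_of_pos_left _ (by omega)).trans (rB_le hE hq)
    omega
  · have a1 : (2 * q.rA E.η / q.li E.η 2 : ℝ) = 4 * (q.P : ℝ) ^ 12 + 2 * (q.P : ℝ) ^ 8 := by
      simp only [Par.rA, Par.D]
      push_cast
      field_simp
      ring
    have a2 : (-(q.rB E.η : ℝ) / (4 * q.li E.η 2)) = -(q.P : ℝ) ^ 38 / 4 := by
      simp only [Par.rB, Par.D]
      push_cast
      field_simp
    rw [a1, a2, ← exp_nat_mul]
    calc _ ≤ exp 3 * exp ((18 : ℕ) * (q.P : ℝ) ^ 3) * exp ((q.P : ℝ) ^ 6) *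
          exp (4 * (q.P : ℝ) ^ 12 + 2 * (q.P : ℝ) ^ 8) * exp (-(q.P : ℝ) ^ 38 / 4) *
          exp (2 * (q.P : ℝ) ^ 2) := by
          gcongr
          · linarith [add_one_le_exp 3]
          · exact hq.Bi_le (by norm_num)
      _ ≤ 1 := by
          simp only [← exp_add, exp_le_one_iff]
          push_cast
          linarith [hq.pow_lt hE (a := 12) (b := 38) (c := 200) (by norm_num) (by norm_num),
            hq.pow_le hE (a := 0) (b := 12) (by norm_num), hq.pow_le hE (a := 2) (b := 12) (by norm_num),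
            hq.pow_le hE (a := 3) (b := 12) (by norm_num), hq.pow_le hE (a := 6) (b := 12) (by norm_num),
            hq.pow_le hE (a := 8) (b := 12) (by norm_num)]
  · have a1 : ∀ r : ℕ, r ≤ q.li E.η 3 → exp ((r : ℝ) / q.li E.η 3) ≤ 3 := fun r hr =>
      (exp_le_exp.2 (div_le_one_of_le₀ (by exact_mod_cast hr) l3.le)).trans exp_one_lt_three.le
    have a2 : 2 / E.η ≤ 2 * exp ((q.P : ℝ) ^ 3) := by
      have := (hq.inv_η hE).trans (exp_le_exp.2
        ((pow_one _).symm.trans_le (hq.pow_le hE (a := 1) (b := 3) (by norm_num))))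
      rw [div_eq_mul_one_div]
      linarith
    have a3 : exp (20 * (q.P : ℝ) ^ 3) = exp ((q.P : ℝ) ^ 3) ^ 20 := by
      rw [← exp_nat_mul]; norm_num
    rw [Par.OK.Bi_succ q 2, a3]
    generalize exp ((q.P : ℝ) ^ 3) = X at *
    have a4 : 1 ≤ X ^ 18 := one_le_pow₀ (by linarith)
    calc _ ≤ 2 * q.Bi 2 + ((2 * X + 1) * 3 + 1) * X ^ 18 * (4 * q.Bi 2 * 3) := by
          gcongr
          exacts [a1 _ (rB_li hE hq), a1 _ ((rA_le hE hq).trans (rB_li hE hq))]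
      _ = q.Bi 2 * (2 + (72 * X + 48) * X ^ 18) := by ring
      _ ≤ _ := by
          refine mul_le_mul_of_nonneg_left ?_ (by linarith)
          have : 72 * X + 50 ≤ X ^ 2 := by nlinarith
          nlinarith [mul_le_mul_of_nonneg_right this (zero_le_one.trans a4)]

end HFinA

open HFinA in
theorem t_hfin : S_HFIN := by
  intro d M _ E q S0 S n c H C hc
  have hE := H.hE
  have hq := H.hq
  have i := H.inv
  have hP := hq.Ppos hE
  have U := U_le H
  have e0 := hq.e0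
  have k := e40 H
  have μ0 := hq.μpos
  have n0 := hq.npos hE
  have nJ := hq.n_le
  have t9 : q.θ + 5 / (q.P : ℝ) ^ 3 + 4 / (q.P : ℝ) ^ 3 = q.θ + 9 / (q.P : ℝ) ^ 3 := by ring
  have t4 : 0 < 4 / (q.P : ℝ) ^ 3 := by positivity
  have t5 : 0 ≤ q.θ + 5 / (q.P : ℝ) ^ 3 := add_nonneg hq.θ0 (by positivity)
  have t7 := hq.θ_add hE (c := 9) (by norm_num)
  have r1 : S.rowA q.fin ⊆ S0.rowA q.fin := by
    simp only [St.rowA, H.late.1, Bool.false_eq_true, if_false]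
    exact union_subset_union C.gs C.os
  have r2 : S.good ⊆ S.rowA q.fin := by
    simp only [St.rowA, H.late.1, Bool.false_eq_true, if_false]
    exact subset_union_left
  have r3 : S.rowA q.fin ⊆ S.O := by
    simp only [St.rowA, H.late.1, Bool.false_eq_true, if_false]
    exact subset_union_left
  have g1 : ∀ x ∈ S.O, ∀ y ∈ S.O, ‖S.G x y - S0.G x y‖ ≤ 5 / 2 * q.e ^ 120 := fun x hx y hy =>
    (C.e1 x hx y hy).trans ((mul_le_mul_of_nonneg_left (U x) (by positivity)).trans_eq (by ring))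
  have g2 : ∀ x ∈ S.O, ∀ y ∈ S.good, ‖S.G x y‖ ≤ ‖S0.G x y‖ + 5 / 2 * q.e ^ 120 := fun x hx y hy => by
    linarith [g1 x hx y (S.good_sub hy), norm_sub_norm_le (S.G x y) (S0.G x y)]
  have g3 : (5 / 2 * q.e ^ 120 * (q.P : ℝ) ^ 3) ^ 2 ≤ q.μ / 100 := by
    have a := mul_le_mul_of_nonneg_left
      (hq.pow_lt hE (a := 6) (b := 20) (c := 625) (by norm_num) (by norm_num)) (pow_pos e0 40).le
    have := mul_le_mul_of_nonneg_left (a.trans k) (pow_pos e0 200).le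
    unfold Par.μ
    linarith
  have g4 : (5 / 2 * q.e ^ 120) ^ 2 ≤ q.μ / 100 := le_trans (pow_le_pow_left₀ (by positivity)
    (le_mul_of_one_le_right (by positivity) (one_le_pow₀ (hq.Pone hE))) 2) g3
  have aA : ∀ x ∈ S.O, x ∈ S0.rowA q.fin → ∀ y ∈ S.good, x ≠ y → ‖S.G x y‖ ^ 2 ≤ q.μ / 4 :=
    fun x hx h1 y hy hn => by
      have a1 : ‖S0.G x y‖ ^ 2 ≤ q.μ / 7 := i.ampA x h1 y (C.gs hy) hn
      have a2 := pow_le_pow_left₀ (norm_nonneg _) (g2 x hx y hy) 2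
      generalize 5 / 2 * q.e ^ 120 = δ at *
      nlinarith [sq_nonneg (‖S0.G x y‖ - 2 * δ)]
  have lA : ∀ x ∈ S.O, ∑ y ∈ S.good.erase x, ‖S.G x y‖ ^ 4 ≤
      ∑ y ∈ S0.good.erase x, ‖S0.G x y‖ ^ 4 + q.n / 20 := fun x hx =>
    (C.e2 x hx).trans (add_le_add le_rfl
      ((mul_le_mul_of_nonneg_left (U x) (by positivity)).trans_eq (by ring)))
  refine ⟨i.go.mono C.gs C.os, C.gj, C.oj, C.os.trans i.oΩ, i.gΩ.mono_left C.gs, C.phys,
    fun x hx => ?_, C.cls, fun x hx => (C.hW x (S.omg_sub hx)).trans (i.oW x (C.os hx)),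
    fun x hx => ?_, fun x hx => aA x (r3 hx) (r1 hx), fun _ x hx y hy => ?_, fun x hx => ?_,
    fun _ x hx => ?_, ?_, ?_, fun y hy => (sum_le_sum_of_subset_of_nonneg
      (erase_subset_erase y C.gs) fun _ _ _ => sq_nonneg _).trans (i.gs y (C.gs hy)), ?_, hc⟩
  · have a : ‖S0.W x‖ ≤ q.θ + 5 / (q.P : ℝ) ^ 3 ∧ |aw E.η S0.W x - 1| ≤ q.θ + 5 / (q.P : ℝ) ^ 3 :=
      i.opn x (C.Os hx)
    change ‖S.W x‖ ≤ q.θ + 9 / (q.P : ℝ) ^ 3 ∧ |aw E.η S.W x - 1| ≤ q.θ + 9 / (q.P : ℝ) ^ 3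
    unfold aw at a ⊢
    rw [C.hW x hx]
    exact ⟨by linarith [a.1], by linarith [a.2]⟩
  · have a : ‖S0.G x x - phi (S0.W x)‖ ≤ 41 * q.μ * (q.P : ℝ) ^ 39 := i.mis x (C.gs hx)
    change _ ≤ q.misOut E.η
    rw [Par.misOut, if_pos H.late, C.hW x (S.good_sub hx)]
    linarith [g1 x (S.good_sub hx) x (S.good_sub hx), pow_pos e0 120,
      norm_sub_le_norm_sub_add_norm_sub (S.G x x) (S0.G x x) (phi (S0.W x))]
  · obtain ⟨h1, h2⟩ := mem_sdiff.1 hx
    change _ ≤ (q.ζ + 3 / (q.P : ℝ) ^ 3) ^ 2 * q.μJ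
    have z0 := hq.ζ0
    have J0 := hq.μJpos
    by_cases h : x ∈ S0.rowA q.fin
    · refine (aA x h1 h y hy fun e => h2 (e ▸ r2 hy)).trans ?_
      have a : (1 / 2) ^ 2 ≤ (q.ζ + 3 / (q.P : ℝ) ^ 3) ^ 2 :=
        pow_le_pow_left₀ (by norm_num) (z0.trans (le_add_of_nonneg_right (by positivity))) 2
      linarith [mul_le_mul_of_nonneg_right a J0.le, hq.μ_le]
    · have a : ‖S0.G x y‖ ^ 2 ≤ (q.ζ + 2 / (q.P : ℝ) ^ 3) ^ 2 * q.μJ :=
        i.ampB rfl x (mem_sdiff.2 ⟨C.Os h1, h⟩) y (C.gs hy)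
      rw [← sq_sqrt J0.le, ← mul_pow] at a ⊢
      have a1 := abs_le_of_sq_le_sq' a (by positivity) |>.2
      have a2 : 5 / 2 * q.e ^ 120 ≤ 1 / (q.P : ℝ) ^ 3 * √q.μJ := by
        rw [one_div_mul_eq_div, le_div_iff₀ (by positivity)]
        exact le_sqrt_of_sq_le (by linarith [hq.μ_le])
      refine pow_le_pow_left₀ (norm_nonneg _) ((g2 x h1 y hy).trans
        ((add_le_add a1 a2).trans_eq (by ring))) 2
  · have a : ∑ y ∈ S0.good.erase x, ‖S0.G x y‖ ^ 4 ≤ q.n / 14 := i.lA x (r1 hx)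
    change _ ≤ q.n / 8
    linarith [lA x (r3 hx)]
  · obtain ⟨h1, h2⟩ := mem_sdiff.1 hx
    change _ ≤ q.nJ / 2
    have b := lA x h1
    rw [erase_eq_of_notMem fun e => h2 (r2 e)] at b
    by_cases h : x ∈ S0.rowA q.fin
    · have a : ∑ y ∈ S0.good.erase x, ‖S0.G x y‖ ^ 4 ≤ q.n / 14 := i.lA x h
      linarith
    · have a : ∑ y ∈ S0.good, ‖S0.G x y‖ ^ 4 ≤ q.nJ / 14 := i.lB rfl x (mem_sdiff.2 ⟨C.Os h1, h⟩)
      have := sum_le_sum_of_subset_of_nonneg (f := fun y => ‖S0.G x y‖ ^ 4)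
        (erase_subset x S0.good) fun _ _ _ => by positivity
      linarith
  · have := C.e3.ref (θ := q.θ + 5 / (q.P : ℝ) ^ 3) (sumE H) i.ul.1 i.ul.2
    rw [t9] at this
    exact this
  · have a : Disc S0.good (Am S0.W S0.G) (q.θ + 5 / (q.P : ℝ) ^ 3) := i.rr
    have := (a.compress t5 (by linarith) C.gs).pert t5 (by linarith) t4.le (by linarith)
      (C.e4.norm t4 fun x _ => by
        rw [le_div_iff₀ (by positivity)]
        have b1 := mul_le_mul_of_nonneg_left (U x) (pow_pos e0 40).le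
        have b2 := (mul_le_mul_of_nonneg_left (hq.pow_le hE (a := 3) (b := 20) (by norm_num))
          (pow_pos e0 40).le).trans k
        nlinarith [mul_le_mul_of_nonneg_right b1 (pow_pos hP 3).le])
    rw [t9, show (Am S0.W S0.G + fun x y => Am S.W S.G x y - Am S0.W S0.G x y) = Am S.W S.G from
      funext₂ fun x y => add_sub_cancel _ _] at this
    exact this
  · obtain ⟨G, h0, h1, h2⟩ := C.e5
    exact fun x hx => h1 ▸ dec H h0 h2 x (C.Os hx)

end Pool.Agent.P.MP_d0f69c_mp.XS
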