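import Pool.Agent.P.MP_d0f69c_mp.XS.IfH

/-! The congruence splits along an isolated cluster. -/

namespace Pool.Agent.P.MP_d0f69c_mp.XS

open Finset Matrix

namespace HSplitA

section generic

variable {ι : Type} [Fintype ι] [DecidableEq ι] {F : Finset ι} {A B : Matrix ι ι ℝ}

/-- `A` is block diagonal with respect to `F` -/
def BD (F : Finset ι) (A : Matrix ι ι ℝ) : Prop := ∀ x y, ¬ (x ∈ F ↔ y ∈ F) → A x y = 0

/-- the rows in `F` of `A`, the other rows of the unit matrix -/
def pt (F : Finset ι) (A : Matrix ι ι ℝ) : Matrix ι ι ℝ :=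
  of fun x y => if x ∈ F then A x y else if x = y then 1 else 0

theorem BD.compl (h : BD F A) : BD Fᶜ A := fun x y hxy => h x y fun e => hxy (by simp [e])

omit [Fintype ι] [DecidableEq ι] in
theorem BD.tr (h : BD F A) : BD F Aᵀ := fun x y hxy => h y x fun e => hxy e.symm

omit [Fintype ι] in
theorem pt_col (h : BD F A) (x y : ι) :
    pt F A x y = if y ∈ F then A x y else if x = y then 1 else 0 := by
  simp only [pt, of_apply]
  by_cases hx : x ∈ F <;> by_cases hy : y ∈ F <;> simp only [hx, hy, if_true, if_false]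
  · rw [h x y (by simp [hx, hy]), if_neg fun e : x = y => hy (e ▸ hx)]
  · rw [h x y (by simp [hx, hy]), if_neg fun e : x = y => hx (e ▸ hy)]

omit [Fintype ι] in
theorem pt_tr (h : BD F A) : (pt F A)ᵀ = pt F Aᵀ := by
  ext x y
  rw [transpose_apply, pt_col h]
  simp only [pt, of_apply, transpose_apply, eq_comm]

theorem pt_row (A B : Matrix ι ι ℝ) (x y : ι) :
    (pt F A * B) x y = if x ∈ F then (A * B) x y else B x y := by
  by_cases hx : x ∈ F <;> simp [pt, mul_apply, hx]

theorem mul_pt (h : BD F B) (A : Matrix ι ι ℝ) (x y : ι) :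
    (A * pt F B) x y = if y ∈ F then (A * B) x y else A x y := by
  by_cases hy : y ∈ F <;> simp [pt_col h, mul_apply, hy]

theorem pt_inv (hB : BD F B) (hA : BD F A) (h : A * B = 1) : pt F A * pt F B = 1 := by
  ext x y
  rw [pt_row, mul_pt hB, h, pt_col hB]
  by_cases hx : x ∈ F <;> by_cases hy : y ∈ F <;> simp only [hx, hy, if_true, if_false]
  · rw [hA x y (by simp [hx, hy]), one_apply_ne fun e : x = y => hy (e ▸ hx)]
  · rw [hB x y (by simp [hx, hy]), one_apply_ne fun e : x = y => hx (e ▸ hy)]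
  · rfl

/-- the part of `A` outside `F` does not see a matrix that lives on `F` -/
theorem fix_left (A : Matrix ι ι ℝ) (hA : BD F A) (hB : ∀ x ∉ F, ∀ y, B x y = 0) :
    pt Fᶜ A * B = B := by
  ext x y
  rw [pt_row]
  split_ifs with hx
  · rw [hB x (mem_compl.1 hx), mul_apply]
    refine sum_eq_zero fun z _ => ?_
    by_cases hz : z ∈ F
    · rw [hA x z (by simp [hz, mem_compl.1 hx]), zero_mul]
    · rw [hB z hz, mul_zero]
  · rfl

theorem split (h : BD F A) : pt Fᶜ A * pt F A = A := by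
  have e : pt F A = (pt F A - 1) + 1 := (sub_add_cancel _ _).symm
  rw [e, Matrix.mul_add, Matrix.mul_one, fix_left A h fun x hx y => by
    simp [pt, hx, one_apply]]
  ext x y
  by_cases hx : x ∈ F <;> simp [pt, hx, one_apply]

theorem on_pt (h : BD F A) {Z : Finset ι} (hZ : F ⊆ Z) : On Z (cx (pt F A) - 1) := by
  intro x y hxy
  rw [Matrix.sub_apply, cx_apply]
  rcases hxy with hx | hy
  · rw [pt, of_apply, if_neg fun e => hx (hZ e), one_apply]
    split_ifs <;> simp
  · rw [pt_col h, if_neg fun e => hy (hZ e), one_apply]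
    split_ifs <;> simp

theorem pt_op (h : BD F A) {Λ : ℝ} (h1 : 1 ≤ Λ)
    (ho : ∀ u : ι → ℝ, ∑ x, (A *ᵥ u) x ^ 2 ≤ Λ ^ 2 * ∑ x, u x ^ 2) (u : ι → ℝ) :
    ∑ x, (pt F A *ᵥ u) x ^ 2 ≤ Λ ^ 2 * ∑ x, u x ^ 2 := by
  have a : ∀ x, (pt F A *ᵥ u) x ^ 2 ≤ (A *ᵥ fun y => if y ∈ F then u y else 0) x ^ 2 +
      Λ ^ 2 * if x ∈ F then 0 else u x ^ 2 := fun x => by
    by_cases hx : x ∈ F
    · rw [if_pos hx, mul_zero, add_zero]
      refine le_of_eq (congrArg (· ^ 2) (sum_congr rfl fun y _ => ?_))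
      by_cases hy : y ∈ F
      · simp [pt, hx, hy]
      · simp [pt, hx, h x y (by simp [hx, hy])]
    · rw [if_neg hx, show (pt F A *ᵥ u) x = u x by simp [pt, hx, mulVec, dotProduct]]
      exact (le_mul_of_one_le_left (sq_nonneg _) (one_le_pow₀ h1)).trans
        (le_add_of_nonneg_left (sq_nonneg _))
  refine (sum_le_sum fun x _ => a x).trans ?_
  rw [sum_add_distrib, ← mul_sum]
  refine (add_le_add (ho _) le_rfl).trans (le_of_eq ?_)
  rw [← mul_add, ← sum_add_distrib]
  exact congrArg _ (sum_congr rfl fun x _ => by split_ifs <;> simp)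

end generic

variable {d M : ℕ} [NeZero M] {J F : Finset (Tor d M)} {r : ℕ} {Λ : ℝ}
  {A : Matrix (Tor d M) (Tor d M) ℝ}

theorem bd (h : Blk J r Λ A) (hs : ∀ x ∈ J, ∀ y ∈ J, x ∈ F → y ∉ F → r < nm (x - y)) :
    BD F A := fun x y hxy => by
  by_cases hJ : x ∈ J ∧ y ∈ J
  · by_contra e
    have a := h.rng x y e
    by_cases hx : x ∈ F
    · exact absurd (hs x hJ.1 y hJ.2 hx fun hy => hxy (by simp [hx, hy])) (not_lt.2 a)
    · have hy : y ∈ F := by
        by_contra hy
        exact hxy (by simp [hx, hy])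
      exact absurd (hs y hJ.2 x hJ.1 hy hx) (not_lt.2 (nm_comm x y ▸ a))
  · rw [h.off x y (not_and_or.1 hJ), if_neg fun e : x = y => hxy (e ▸ Iff.rfl)]

theorem blk_pt (h : Blk J r Λ A) (hb : BD F A) (h1 : 1 ≤ Λ) : Blk (J ∩ F) r Λ (pt F A) := by
  refine ⟨fun x y hxy => ?_, fun x y hn => ?_, pt_op hb h1 h.row,
    pt_tr hb ▸ pt_op hb.tr h1 h.col⟩
  · rcases hxy with hx | hy
    · by_cases hF : x ∈ F
      · simpa only [pt, of_apply, hF, if_true] using
          h.off x y (Or.inl fun e => hx (mem_inter.2 ⟨e, hF⟩))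
      · simp only [pt, of_apply, hF, if_false]
    · by_cases hF : y ∈ F
      · simpa only [pt_col hb, hF, if_true] using
          h.off x y (Or.inr fun e => hy (mem_inter.2 ⟨e, hF⟩))
      · simp only [pt_col hb, hF, if_false]
  · simp only [pt, of_apply] at hn
    split_ifs at hn with hx e
    · exact h.rng x y hn
    · rw [e, nm_self]; exact Nat.zero_le _
    · exact absurd rfl hn

end HSplitA

open HSplitA

theorem t_split : S_SPLIT := by
  intro d M _ E H J F hE ⟨U, V, Y, hU, hV, hY, hUV, hYt, hH⟩ hs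
  have η0 := hE.η0
  have η1 : E.η ≤ 1 := hE.η1.trans (by norm_num)
  have h1 : 1 ≤ 1 / E.η := (one_le_div η0).2 η1
  have hk : ((J ∩ F).card + 1 : ℝ) ≤ F.card + 1 := by gcongr; exact inter_subset_right
  have k1 : 1 ≤ (F.card + 1) * (1 / E.η) :=
    one_le_mul_of_one_le_of_one_le (le_add_of_nonneg_left (Nat.cast_nonneg _)) h1
  have bU := bd hU hs
  have bV := bd hV hs
  have bY := bd hY hs
  have eJ : J \ F = J ∩ Fᶜ := sdiff_eq_inter_compl J F
  refine ⟨(pt Fᶜ U)ᵀ * (E.H + (pt Fᶜ Y - 1)) * pt Fᶜ U, ⟨pt Fᶜ U, pt Fᶜ V, pt Fᶜ Y,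
    eJ ▸ blk_pt hU bU.compl h1, eJ ▸ blk_pt hV bV.compl h1, eJ ▸ blk_pt hY bY.compl h1,
    pt_inv bV.compl bU.compl hUV, by rw [pt_tr bY.compl, hYt], rfl⟩,
    fun W W1 Z L hZ L0 hW hb => ?_⟩
  have y0 : ∀ x ∉ F, ∀ y, (pt F Y - 1) x y = 0 := fun x hx y => by simp [pt, hx, one_apply]
  have y1 : (pt Fᶜ U)ᵀ * (pt F Y - 1) = pt F Y - 1 := by
    rw [pt_tr bU.compl]; exact fix_left _ bU.tr y0
  have y2 : (pt F Y - 1) * pt Fᶜ U = pt F Y - 1 := by
    have := congrArg transpose y1
    rwa [transpose_mul, transpose_transpose, transpose_sub, transpose_one, pt_tr bY, hYt] at this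
  have y3 : Y - 1 = (pt Fᶜ Y - 1) + (pt F Y - 1) := by
    ext x y
    by_cases hx : x ∈ F <;> simp [pt, hx, one_apply]
  have eH : H = (pt F U)ᵀ * ((pt Fᶜ U)ᵀ * (E.H + (pt Fᶜ Y - 1)) * pt Fᶜ U + (pt F Y - 1)) *
      pt F U := by
    rw [hH, y3, ← add_assoc]
    nth_rw 1 [← split bU]
    nth_rw 3 [← split bU]
    nth_rw 2 [← y2, ← y1]
    simp only [transpose_mul, Matrix.mul_add, Matrix.add_mul, Matrix.mul_assoc]
  have eVU : cx (pt F V) * cx (pt F U) = 1 := by
    rw [← map_mul, mul_eq_one_comm.1 (pt_inv bV bU hUV), map_one]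
  set wi : Tor d M → ℂ := fun x => if x ∈ Z then W x else 0 with hwi
  set wo : Tor d M → ℂ := fun x => if x ∈ Z then 0 else W x with hwo
  set w1 : Tor d M → ℂ := fun x => if x ∈ Z then W1 x else 0 with hw1
  have oU := on_pt bU hZ
  have oV := on_pt bV hZ
  have e1 : diagonal wo * cx (pt F U) = diagonal wo := by
    ext x y
    rw [diagonal_mul]
    by_cases hx : x ∈ Z
    · simp [hwo, hx, diagonal_apply]
    · rw [sub_eq_zero.1 (oU x y (Or.inl hx))]
      simp [diagonal_apply, one_apply]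
  have e2 : (cx (pt F U))ᵀ * diagonal wo = diagonal wo := by
    have := congrArg transpose e1
    rwa [transpose_mul, diagonal_transpose] at this
  have e3 : diagonal W1 = diagonal w1 + diagonal wo := by
    rw [diagonal_add]
    congr 1
    funext x
    by_cases hx : x ∈ Z <;> simp [hw1, hwo, hx, hW]
  have e4 : diagonal W = diagonal wi + diagonal wo := by
    rw [diagonal_add]
    congr 1
    funext x
    by_cases hx : x ∈ Z <;> simp [hwi, hwo, hx]
  refine ⟨cx (pt F U), diagonal w1 - (cx (pt F Y) - 1) -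
    (cx (pt F V))ᵀ * diagonal wi * cx (pt F V), ?_, oU, fun x y hxy => ?_,
    (blk_pt hU bU h1).rc h1 hk, ?_⟩
  · have e5 : (cx (pt F U))ᵀ * ((cx (pt F V))ᵀ * diagonal wi * cx (pt F V)) * cx (pt F U) =
        diagonal wi := by
      rw [Matrix.mul_assoc, Matrix.mul_assoc, eVU, Matrix.mul_one, ← Matrix.mul_assoc,
        ← transpose_mul, eVU, transpose_one, Matrix.one_mul]
    rw [MM_eq, MM_eq, e3, e4]
    generalize (pt Fᶜ U)ᵀ * (E.H + (pt Fᶜ Y - 1)) * pt Fᶜ U = H1 at eH ⊢
    have e6 : cx H1 + (diagonal w1 + diagonal wo) - (diagonal w1 - (cx (pt F Y) - 1) -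
        (cx (pt F V))ᵀ * diagonal wi * cx (pt F V)) = cx H1 + (cx (pt F Y) - 1) +
        ((cx (pt F V))ᵀ * diagonal wi * cx (pt F V) + diagonal wo) := by abel
    rw [e6, Matrix.mul_add, Matrix.add_mul, Matrix.mul_add _ _ (diagonal wo), Matrix.add_mul, e5, e2,
      e1, eH, ← cx_tr]
    simp only [cx, map_mul, map_add, map_sub, map_one]
  · rw [Matrix.sub_apply, Matrix.sub_apply, on_pt bY hZ x y hxy]
    have a1 : diagonal w1 x y = 0 := by
      rcases hxy with h | h
      · simp [diagonal_apply, hw1, h]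
      · by_cases e : x = y
        · simp [e, hw1, h]
        · exact diagonal_apply_ne _ e
    have a2 : ((cx (pt F V))ᵀ * diagonal wi * cx (pt F V)) x y = 0 := by
      rcases hxy with h | h
      · rw [Matrix.mul_assoc, oV.tr1.row _ h, diagonal_mul]
        simp [hwi, h]
      · rw [oV.col _ x h, mul_diagonal]
        simp [hwi, h]
    rw [a1, a2, sub_zero, sub_zero]
  · have r1 : RC (diagonal w1) L := RC.diag fun x => by
      by_cases hx : x ∈ Z
      · simpa [hw1, hx] using (hb x hx).2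
      · simpa [hw1, hx] using L0
    have r2 : RC (diagonal wi) 1 := RC.diag fun x => by
      by_cases hx : x ∈ Z
      · simpa [hwi, hx] using (hb x hx).1
      · simp [hwi, hx]
    have rV := (blk_pt hV bV h1).rc h1 hk
    refine ((r1.sub (((blk_pt hY bY h1).rc h1 hk).sub RC.one)).sub ((rV.tr.mul r2 (by positivity)
      zero_le_one).mul rV (by positivity) (by positivity))).mono ?_
    nlinarith

end Pool.Agent.P.MP_d0f69c_mp.XS
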