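import Pool.Agent.P.MP_d0f69c_mp.XS.HOa
import Pool.Agent.P.MP_d0f69c_mp.XS.HSplit

/-! A failed test at the end of a healing turn is a resonance of the true operator. -/

namespace Pool.Agent.P.MP_d0f69c_mp.XS

open Finset Real

variable {d M : ℕ} [NeZero M] {E : Env d M} {q : Par} {S0 S : St (Tor d M)} {n j : ℕ}
  {c : ℕ → Tor d M}

namespace HWevA

theorem num {ι : Type} [Fintype ι] [DecidableEq ι] {C : TC ι} (o : C.OK) {Λ : ℝ}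
    (hΛ : C.Z ^ 12 < Λ) :
    4 * (1 + ((C.Z ^ 2 + 1 + 3) / C.η ^ 2) ^ 2 * (2 * Λ / C.η) + C.τ * C.Z ^ 10 * Λ ^ 2 / C.η ^ 8) ≤
      exp (-3 * C.P ^ 3) ^ 2 * Λ ^ 2 := by
  have Z1 := o.Z1
  have Z9 := o.Z9
  have Y9 := o.Y9
  have η0 := o.η0
  have τ0 := (TC.OK.τ0 C).le
  have YZ : C.Y ^ 2 ≤ C.Z := o.YZ' (by norm_num)
  have a5 := o.ηY (k := 5) (by norm_num)
  have a8 := o.ηY (k := 8) (by norm_num)
  have t := o.τZ1 (k := 17) (j := 0) (by norm_num) (by norm_num)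
  have e : exp (-3 * C.P ^ 3) ^ 2 * C.Z ^ 6 = 1 := by
    rw [TC.Z, ← exp_nat_mul, ← exp_nat_mul, ← exp_add]
    convert exp_zero using 2
    push_cast; ring
  have Z6 : 0 < C.Z ^ 6 := by positivity
  have Λ1 : 1 ≤ Λ := (one_le_pow₀ Z1).trans hΛ.le
  have Y96 : 96 * C.Y ≤ C.Z := by nlinarith
  have b1 : 12 * C.Z ^ 6 ≤ Λ ^ 2 :=
    calc _ ≤ C.Z * C.Z ^ 6 := by gcongr; linarith
      _ ≤ C.Z ^ 12 := by rw [← pow_succ']; exact pow_le_pow_right₀ Z1 (by norm_num)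
      _ ≤ _ := hΛ.le.trans (le_self_pow₀ Λ1 (by norm_num))
  have b2 : 12 * (((C.Z ^ 2 + 1 + 3) / C.η ^ 2) ^ 2 * (2 * Λ / C.η)) * C.Z ^ 6 ≤ Λ ^ 2 :=
    calc _ = 24 * (C.Z ^ 2 + 4) ^ 2 * (1 / C.η ^ 5) * C.Z ^ 6 * Λ := by field_simp; ring
      _ ≤ 24 * (2 * C.Z ^ 2) ^ 2 * C.Y * C.Z ^ 6 * Λ := by gcongr; nlinarith
      _ = 96 * C.Y * C.Z ^ 10 * Λ := by ring
      _ ≤ C.Z * C.Z ^ 11 * Λ := by gcongr; norm_num
      _ ≤ Λ * Λ := by rw [← pow_succ']; gcongr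
      _ = _ := by ring
  have b3 : 12 * (C.τ * C.Z ^ 10 * Λ ^ 2 / C.η ^ 8) * C.Z ^ 6 ≤ Λ ^ 2 :=
    calc _ = C.τ * (12 * (1 / C.η ^ 8) * C.Z ^ 16) * Λ ^ 2 := by field_simp
      _ ≤ C.τ * (C.Z * C.Z ^ 16) * Λ ^ 2 := by gcongr; linarith
      _ ≤ 1 * Λ ^ 2 := by rw [← pow_succ']; gcongr; simpa using t
      _ = _ := one_mul _
  refine le_of_mul_le_mul_right ?_ Z6
  rw [mul_right_comm (exp _ ^ 2), e]
  linarith

theorem jnear (h : HB E q S0 n c) (hj : j < n) (k : Keep E q S0 c j S) {x : Tor d M}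
    (hx : nm (x - c j) ≤ q.D E.η 3) (xJ : x ∈ S.junk) :
    x ∈ S0.junk ∧ nm (x - c j) ≤ q.D E.η 2 :=
  have a := (h.keep hj k hx).2.2.2 xJ
  ⟨a, h.iso hj hx a⟩

theorem spl (h : HB E q S0 n c) (hj : j < n) (i : CI E q S0 c j S) (k : Keep E q S0 c j S) :
    SplP E S.H S.junk (Fc E q S0 (c j))
      (Classical.epsilon (SplP E S.H S.junk (Fc E q S0 (c j)))) :=
  Classical.epsilon_spec (t_split d M E S.H S.junk _ h.hE i.phys fun x hx y hy xF yF => by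
    by_contra a
    have g := h.geo
    have b := mem_bl.1 (mem_inter.1 (h.FA _ xF)).1
    have e := (jnear h hj k (by omega) hx).2
    have := nm_tri y x (c j)
    have := nm_comm x y
    exact yF (mem_Fc.2 (Or.inl (jnear h hj k (by omega) hy))))

theorem reso (h : HB E q S0 n c) (hj : j < n) (i : CI E q S0 c j S) (k : Keep E q S0 c j S)
    (o : (tc E q S0 S (c j)).OK) {ϖ : Cfg (Tor d M) E.N} (hc : Cons E S ϖ)
    (hL : ∀ x ∈ bl (c j) (q.D E.η 3), ‖Wt E.σ E.Ω ϖ x‖ ≤ (tc E q S0 S (c j)).Z ^ 2 + 1)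
    {H1 : Matrix (Tor d M) (Tor d M) ℝ} {W1 : Tor d M → ℂ} {J Z : Finset (Tor d M)}
    (hZ : Z ⊆ (tc E q S0 S (c j)).A) (hp : Phys E H1 J) (hJ : ∀ x ∈ J, x ∈ S.junk ∧ x ∉ Z)
    (h1 : ∀ x ∉ Z, W1 x = S.W x) (h2 : ∀ x ∈ Z, W1 x = Wt E.σ E.Ω ϖ x)
    (r : Rep (NW.MM S.H S.W) (NW.MM H1 W1) Z (tc E q S0 S (c j)).Y (2 * (tc E q S0 S (c j)).Z ^ 2))
    {z z' : Tor d M} (hz : z ∈ Z) (hz' : z' ∈ Z)
    (hb : (tc E q S0 S (c j)).Z ^ 12 < ‖NW.GG H1 W1 z z'‖) :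
    Reso E.H E.σ E.Ω (bl 0 (q.D E.η 3)) (exp (-3 * (q.P : ℝ) ^ 3)) (c j) ϖ := by
  have g := h.geo
  have hg : GOK E.η H1 W1 := gok_of h.hE hp
    (fun x hx => by rw [h1 x (hJ x hx).2]; exact i.im h (S.junk_sub (hJ x hx).1)) fun x => by
      by_cases a : x ∈ Z
      · rw [h2 x a, Wt]
        split_ifs
        exacts [Or.inr (Or.inr (Or.inr ⟨_, rfl⟩)), Or.inr (Or.inl rfl), Or.inr (Or.inr (Or.inl rfl))]
      · rw [h1 x a]
        by_cases b : x ∈ S.O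
        exacts [Or.inl (i.im h b), Or.inr (i.cls x b)]
  obtain ⟨p, hp1, hp2⟩ := exists_max_image Z (fun p => ‖NW.GG H1 W1 p z'‖) ⟨z, hz⟩
  have hΛ := hb.trans_le (hp2 z hz)
  have Λ1 := (one_le_pow₀ o.Z1).trans hΛ.le
  refine quasi h.hE hp hg (O := S.O \ Z)
    (fun x hx => mem_sdiff.2 ⟨S.junk_sub (hJ x hx).1, (hJ x hx).2⟩) (fun x hx => ?_)
    (L := (tc E q S0 S (c j)).Z ^ 2 + 1) (by positivity) (fun x _ hx => ?_)
    (fun x hx => hL x (mem_inter.1 hx).1) (fun x hx y _ xK yK => ?_)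
    (fun a => (mem_sdiff.1 a).2 hp1) (fun a => (mem_sdiff.1 a).2 hz') ?_ (by linarith) rfl
    (hp2 z' hz') (o.tail hZ (fun x hx => mem_bl.2 ((mem_bl.1 hx).trans (by omega))) r hg.unit hz'
      Λ1 hp2) (num o hΛ)
  · obtain ⟨a, b⟩ := mem_sdiff.1 hx
    have := i.opn h a
    simp only [aw, h1 x b] at this ⊢
    exact ⟨this.1.1, by linarith [this.2]⟩
  · by_cases a : x ∈ Z
    · exact h2 x a
    · rw [h1 x a]; exact hc x fun b => hx (mem_sdiff.2 ⟨b, a⟩)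
  · by_contra a
    have e := (jnear h hj k (mem_bl.1 xK) (hJ x hx).1).2
    have := nm_tri y x (c j)
    have := nm_comm x y
    exact yK (mem_bl.2 (by omega))
  · exact mem_bl.2 ((mem_bl.1 (mem_inter.1 (hZ hp1)).1).trans (by omega))

end HWevA

open HWevA

theorem t_hwev : S_HWEV := by
  intro d M _ E q S0 S n j c t ϖ h hj i k o l hb hc hs
  refine or_iff_not_imp_right.2 fun hn => ?_
  push Not at hn
  have g := h.geo
  have Z1 := o.Z1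
  have Y9 := o.Y9
  have eZ : (tc E q S0 S (c j)).Z ^ 2 = exp (2 * (q.P : ℝ) ^ 3) := by
    rw [TC.Z, ← exp_nat_mul]; rfl
  have Z2 : 1 ≤ (tc E q S0 S (c j)).Z ^ 2 := one_le_pow₀ Z1
  have hL : ∀ x ∈ bl (c j) (q.D E.η 3), ‖Wt E.σ E.Ω ϖ x‖ ≤ (tc E q S0 S (c j)).Z ^ 2 + 1 :=
    fun x hx => by
      rw [Wt]
      split_ifs with a b
      · have := hn x a (mem_bl.1 hx)
        have := norm_le_norm_sub_add (val E.σ E.N (ϖ x).2 : ℂ) E.σ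
        linarith [h.hE.s1]
      · rw [norm_one]; linarith
      · rw [norm_neg, norm_one]; linarith
  have hX : ∀ x ∈ t.X, Wc S.W t.b t.X x = Wt E.σ E.Ω ϖ x := fun x hx => by
    rw [Wc_in hx, hb x hx, Wt, if_neg (disjoint_left.1 h.inv.gΩ (i.gs (l.Xg hx)))]; rfl
  have XJ : ∀ x ∈ S.junk, x ∉ t.X := fun x hx a => disjoint_left.1 i.gj (l.Xg a) hx
  have AK : ∀ x ∈ (tc E q S0 S (c j)).A, x ∈ bl (c j) (q.D E.η 3) := fun x hx =>
    mem_bl.2 ((mem_bl.1 (mem_inter.1 hx).1).trans (by omega))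
  by_cases w : (tc E q S0 S (c j)).wok t
  · have h3 : ¬ ∀ z ∈ t.X ∪ Fc E q S0 (c j), ∀ z' ∈ t.X ∪ Fc E q S0 (c j),
        ‖(S.cl E (Fc E q S0 (c j)) t ϖ).G z z'‖ ≤ (tc E q S0 S (c j)).Z ^ 12 := fun a =>
      hs ⟨w, fun x hx => hL x (AK x (o.FA hx)), a⟩
    push Not at h3
    obtain ⟨z, hz, z', hz', hb⟩ := h3
    obtain ⟨s1, s2⟩ := spl h hj i k
    have ZA : t.X ∪ Fc E q S0 (c j) ⊆ (tc E q S0 S (c j)).A := union_subset l.XA' o.FA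
    have h1 : ∀ x ∉ t.X ∪ Fc E q S0 (c j), (S.cl E (Fc E q S0 (c j)) t ϖ).W x = S.W x :=
      fun x hx => by
        rw [mem_union, not_or] at hx
        exact (if_neg hx.2).trans (Wc_out hx.1)
    have h2 : ∀ x ∈ t.X ∪ Fc E q S0 (c j),
        (S.cl E (Fc E q S0 (c j)) t ϖ).W x = Wt E.σ E.Ω ϖ x := fun x hx => by
      by_cases a : x ∈ Fc E q S0 (c j)
      · exact if_pos a
      · exact (if_neg a).trans (hX x ((mem_union.1 hx).resolve_right a))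
    refine reso h hj i k o hc hL ZA s1 (fun x hx => ?_) h1 h2
      ((s2 S.W _ _ _ subset_union_right (by positivity) h1 fun x hx =>
        ⟨by linarith [(i.opn h (o.AO (ZA hx))).2], h2 x hx ▸ hL x (AK x (ZA hx))⟩).mono o.spl.1
          o.spl.2) hz hz' hb
    · obtain ⟨a, b⟩ := mem_sdiff.1 hx
      exact ⟨a, fun e => (mem_union.1 e).elim (XJ x a) b⟩
  · simp only [TC.wok] at w
    push Not at w
    obtain ⟨z, hz, z', hz', hb⟩ := w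
    exact reso h hj i k o hc hL l.XA' i.phys (fun x hx => ⟨hx, XJ x hx⟩) (fun x hx => Wc_out hx) hX
      ((l.rep o).mono o.Y1 (by linarith)) hz hz' hb

end Pool.Agent.P.MP_d0f69c_mp.XS
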