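import Pool.Agent.P.MP_d0f69c_mp.XS.HTb
import Pool.Agent.P.MP_d0f69c_mp.XS.HFin
import Pool.Agent.P.MP_d0f69c_mp.XS.HEb
import Pool.Agent.P.MP_d0f69c_mp.XS.HWev

/-! The healing. -/

namespace Pool.Agent.P.MP_d0f69c_mp.XS

theorem t_heal : S_HEAL := t_heal' t_hfin t_heb t_hwev

end Pool.Agent.P.MP_d0f69c_mp.XS
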