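import Pool.Agent.P.MP_d0f69c_mp.XS.Nw3

/-!
The Newton step.
-/

set_option autoImplicit false

open Finset Real

namespace Pool.Agent.P.MP_d0f69c_mp.XS

open NwA

theorem prt_of {ι : Type} [Fintype ι] [DecidableEq ι] {η δ : ℝ} {H : Matrix ι ι ℝ} {W W' : ι → ℂ}
    (g : GOK η H W) (g' : GOK η H W') {X : Finset ι} (hX : ∀ x ∉ X, W' x = W x) (δ0 : 0 ≤ δ)
    (hδ : ∀ x ∈ X, ‖W' x - W x‖ ≤ δ) (h1 : ∀ x ∈ X, 1 / 2 ≤ aw η W x)
    (h2 : ∀ x ∈ X, 1 / 2 ≤ aw η W' x) (hs : 2 / η * δ ≤ 1 / 3) :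
    Prt X (NW.GG H W) (NW.GG H W') (fun x => W' x - W x) δ (2 / η * δ) :=
  have η0 := g.η0
  ⟨g.sym, g'.sym, res_id g.unit g'.unit hX, δ0, hδ, by positivity,
    (g.opLe h1).right (by positivity) δ0 hδ, (g'.opLe h2).right (by positivity) δ0 hδ, hs⟩

theorem newton_num {d M : ℕ} [NeZero M] {E : Env d M} {q : Par} (hE : E.OK) (hq : q.OK E) :
    0 ≤ q.misIn E.η ∧ (64 * (q.P : ℝ) ^ 2 * q.misIn E.η) ^ 2 ≤
      E.η * q.μ * (1 / (q.P : ℝ) ^ 3) ^ 2 / 10 ^ 5 ∧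
    2000 * (64 * (q.P : ℝ) ^ 2 * q.misIn E.η) ≤ E.η * (1 / (q.P : ℝ) ^ 3) := by
  have hP := hq.Ppos hE
  have η0 := hE.η0
  have μ0 := hq.μpos
  have m0 : 0 ≤ q.misIn E.η := by unfold Par.misIn; positivity
  have h1 : (64 * (q.P : ℝ) ^ 2 * q.misIn E.η) ^ 2 ≤
      E.η * q.μ * (1 / (q.P : ℝ) ^ 3) ^ 2 / 10 ^ 5 := by
    have a := mul_le_mul_of_nonneg_left (hq.pow_lt hE (a := 6) (b := 16) (c := 4096 * 10 ^ 5)
      (by norm_num) (by norm_num)) (by positivity : 0 ≤ E.η * q.μ / (q.P : ℝ) ^ 22 / 10 ^ 5)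
    rw [Par.misIn, mul_pow, div_pow, sq_sqrt (by positivity)]
    refine le_trans (le_of_eq ?_) (a.trans_eq ?_) <;> field_simp <;> norm_num
  refine ⟨m0, h1, le_of_sq_le_sq ?_ (by positivity)⟩
  have a1 : q.μ * 40 ≤ E.η := by
    have := hq.μ_le.trans hq.J2
    rw [le_div_iff₀ (by positivity)] at this
    have b := hq.pow_lt hE (a := 0) (b := 200) (c := 40) (by norm_num) (by norm_num)
    exact (mul_le_mul_of_nonneg_left (by simpa using b) μ0.le).trans this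
  have a2 := mul_le_mul_of_nonneg_left a1 (by positivity : 0 ≤ E.η * (1 / (q.P : ℝ) ^ 3) ^ 2)
  rw [mul_pow 2000, mul_pow E.η]
  linarith

theorem t_newton (hF : S_FAR) (hC : S_CT) : S_NEWTON := by
  intro d M _ E q S hE hq h
  have hP := hq.Ppos hE
  have P9 := hq.P9 hE
  have η0 := hE.η0
  have η1 : E.η ≤ 1 := hE.η1.trans (by norm_num)
  have μ0 := hq.μpos
  have θ0 := hq.θ0
  have θ1 := hq.θ_le
  obtain ⟨m0, n2, n1⟩ := newton_num hE hq
  have m1 : q.misIn E.η ≤ 64 * (q.P : ℝ) ^ 2 * q.misIn E.η :=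
    le_mul_of_one_le_left m0 (by nlinarith)
  obtain ⟨u, u0, u1, u2⟩ := exists_corr hF hE hq h (θ1.trans (by norm_num)) θ0
    (by rw [div_eq_mul_one_div]; exact m1.trans (by linarith)) rfl rfl
  change ∀ x ∈ S.good, ‖u x‖ ≤ 64 * (q.P : ℝ) ^ 2 * q.misIn E.η at u2
  generalize 64 * (q.P : ℝ) ^ 2 * q.misIn E.η = δ at *
  have ε1 : q.θ + 1 / (q.P : ℝ) ^ 3 ≤ 1 / 10 ^ 7 := hq.θ_add hE (by norm_num)
  set ε := 1 / (q.P : ℝ) ^ 3 with hε
  have ε0 : 0 < ε := by positivity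
  have δ0 : 0 ≤ δ := m0.trans m1
  have n3 : 2000 * δ ≤ ε := n1.trans (mul_le_of_le_one_left ε0.le η1)
  have n4 : 1000 * (2 / E.η * δ) ≤ ε := by
    rw [div_mul_eq_mul_div, ← mul_div_assoc, div_le_iff₀ η0]; linarith
  have n5 : δ ^ 2 ≤ E.η * q.μ / 10 ^ 5 := n2.trans (div_le_div_of_nonneg_right
    (mul_le_of_le_one_right (by positivity) (pow_le_one₀ ε0.le (by linarith))) (by norm_num))
  have n6 : δ ^ 2 ≤ q.μ / 10 ^ 5 :=
    n5.trans (div_le_div_of_nonneg_right (mul_le_of_le_one_left μ0.le η1) (by norm_num))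
  have n7 : δ * (2 / E.η * δ) ≤ q.μ / 100 := by
    rw [div_mul_eq_mul_div, ← mul_div_assoc, div_le_iff₀ η0]
    linarith [mul_pos η0 μ0]
  have u3 : ∀ x, ‖u x‖ ≤ δ := fun x => by
    by_cases hx : x ∈ S.good
    exacts [u2 x hx, by rw [u0 x hx, norm_zero]; exact δ0]
  set W' : Tor d M → ℂ := fun x => S.W x + u x with hW'
  have w0 : ∀ x ∉ S.good, W' x = S.W x := fun x hx => by rw [hW']; simp [u0 x hx]
  have w1 : ∀ x, W' x - S.W x = u x := fun x => add_sub_cancel_left _ _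
  have w2 : ∀ x, |aw E.η W' x - aw E.η S.W x| ≤ 2 / E.η * δ := fun x => by
    have a := (Complex.abs_im_le_norm (u x)).trans (u3 x)
    rw [aw, aw, ← sub_div, abs_div, abs_of_pos η0, div_mul_eq_mul_div, neg_sub_neg, abs_sub_comm,
      ← Complex.sub_im, w1]
    exact div_le_div_of_nonneg_right (by linarith) η0.le
  have o1 : ∀ x ∈ S.O, ‖W' x‖ ≤ q.θ + ε ∧ |aw E.η W' x - 1| ≤ q.θ + ε := fun x hx => by
    have a : ‖S.W x‖ ≤ q.θ ∧ |aw E.η S.W x - 1| ≤ q.θ := h.opn x hx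
    have b := abs_sub_le (aw E.η W' x) (aw E.η S.W x) 1
    exact ⟨(norm_add_le _ _).trans (by linarith [u3 x, a.1]), by linarith [w2 x, a.2]⟩
  have a1 : ∀ x ∈ S.O, 1 / 2 ≤ aw E.η S.W x ∧ aw E.η S.W x ≤ 2 := fun x hx =>
    h.aw_half (θ1.trans (by norm_num)) hx
  have a2 : ∀ x ∈ S.O, 1 / 2 ≤ aw E.η W' x ∧ aw E.η W' x ≤ 2 := fun x hx => by
    have := abs_le.1 (o1 x hx).2
    constructor <;> linarith [this.1, this.2]
  have cl : ∀ x ∉ S.O, W' x = 1 ∨ W' x = -1 ∨ ∃ k : Fin E.N, W' x = val E.σ E.N k := fun x hx => by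
    rw [w0 x fun c => hx (S.good_sub c)]; exact h.cls x hx
  have g := h.gok0 hE (θ1.trans_lt (by norm_num))
  have g' : GOK E.η S.H W' := by
    have im : ∀ x ∈ S.O, (W' x).im < 0 := fun x hx => by
      have := (div_pos_iff_of_pos_right η0).1 (one_half_pos.trans_le (a2 x hx).1)
      linarith
    have h3 : ∀ x, (W' x).im < 0 ∨ W' x = 1 ∨ W' x = -1 ∨ ∃ k : Fin E.N, W' x = val E.σ E.N k :=
      fun x => by
        by_cases c : x ∈ S.O
        exacts [Or.inl (im x c), Or.inr (cl x c)]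
    refine ⟨η0, g.symm, fun x => ?_,
      (t_adm d M E S.H S.junk hE h.phys).2 _ (fun x hx => im x (S.junk_sub hx)) h3⟩
    rcases h3 x with a | a | a | ⟨k, a⟩
    exacts [a.le, by simp [a], by simp [a], by simp [a]]
  have p1 := prt_of g g' w0 δ0 (fun x _ => (w1 x).symm ▸ u3 x) (fun x hx => (a1 x (S.good_sub hx)).1)
    (fun x hx => (a2 x (S.good_sub hx)).1) (by linarith)
  have p2 := prt_of g g' (X := S.O) (fun x hx => w0 x fun c => hx (S.good_sub c)) δ0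
    (fun x _ => (w1 x).symm ▸ u3 x) (fun x hx => (a1 x hx).1) (fun x hx => (a2 x hx).1) (by linarith)
  have s0 := p1.s0
  have r1 : ∀ x ∈ S.O, nS S.good (NW.GG S.H S.W x) ≤ 3 := fun x hx =>
    h.row_good hE (θ1.trans (by norm_num)) θ0 (m1.trans (by linarith)) hx
  have r2 : ∀ x ∈ S.good, nS S.good (NW.GG S.H S.W x) ≤ 3 := fun x hx => r1 x (S.good_sub hx)
  have rA : S.rowA q.fin ⊆ S.O := fun x hx => by
    unfold St.rowA at hx
    split_ifs at hx
    exacts [S.good_sub hx, mem_union_left _ hx]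
  have am : ∀ x ∈ S.O, ∀ y ∈ S.good, ‖NW.GG S.H W' x y‖ ≤ ‖S.G x y‖ + 12 * δ := fun x hx y hy => by
    linarith [norm_sub_norm_le (NW.GG S.H W' x y) (S.G x y),
      show ‖NW.GG S.H W' x y - S.G x y‖ ≤ _ from p1.sup (r1 x hx) (r2 y hy)]
  have l4 : 9261 * (36 * δ * (2 / E.η * δ)) ^ 2 ≤ q.n / 50 := by
    have b1 := pow_le_pow_left₀ (by positivity) n7 2
    have b2 := mul_le_mul_of_nonneg_right (P9.trans (le_self_pow₀ (hq.Pone hE)
      (by norm_num : 20 ≠ 0))) (sq_nonneg q.μ)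
    rw [Par.n, mul_assoc 36, mul_pow 36]
    linarith [sq_nonneg q.μ]
  have hW : ∀ x ∈ S.O, ‖S.W x‖ ≤ 1 / 10 := fun x hx =>
    (h.opn x hx).1.trans (θ1.trans (by norm_num))
  have hW2 : ∀ x ∈ S.O, ‖W' x‖ ≤ 1 / 10 := fun x hx => (o1 x hx).1.trans (ε1.trans (by norm_num))
  refine ⟨W', w0, h.go, h.gj, h.oj, h.oΩ, h.gΩ, h.phys, o1, cl,
    fun x hx => (w0 x fun c => disjoint_left.1 h.go c hx).trans (h.oW x hx), fun x hx => ?_,
    fun x hx y hy hn => ?_, fun _ x hx y hy => ?_, fun x hx => ?_, fun _ x hx => ?_, ?_, ?_,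
    h.gs, ?_, h.cov⟩
  · have hx' := S.good_sub hx
    have b1 := p1.second (r2 x hx)
    have b2 := phi_two (hW x hx') (hW2 x hx')
    have b3 := u1 x hx
    have b4 : ‖S.G x x - phi (S.W x)‖ ≤ q.misIn E.η := h.mis x hx
    have b5 := den_ne (hW x hx')
    simp only [w1] at b1 b2
    rw [ap, ← add_sum_erase _ _ hx, sum_congr rfl fun y hy => show Am S.W S.G x y * u y =
      -(S.G x y ^ 2 * u y) by rw [Am, if_neg (mem_erase.1 hy).1.symm]; ring, sum_neg_distrib, Am,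
      if_pos rfl] at b3
    rw [← add_sum_erase _ _ hx] at b1
    have e : NW.GG S.H W' x x - phi (W' x) = (NW.GG S.H W' x x - S.G x x +
        (S.G x x ^ 2 * u x + ∑ y ∈ S.good.erase x, S.G x y ^ 2 * u y)) -
        (phi (W' x) - phi (S.W x) + (1 + S.W x ^ 2) / (1 - S.W x ^ 2) ^ 2 * u x) -
        (S.G x x - phi (S.W x)) * (S.G x x + phi (S.W x)) * u x := by
      have e1 : (1 + S.W x ^ 2) / (1 - S.W x ^ 2) ^ 2 =
          1 / (1 - S.W x ^ 2) ^ 2 + phi (S.W x) ^ 2 := by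
        rw [phi_eq]; field_simp
      rw [e1]
      linear_combination b3
    have b6 : ‖S.G x x + phi (S.W x)‖ ≤ 1 := by
      linarith [norm_add_le (S.G x x) (phi (S.W x)), norm_sub_norm_le (S.G x x) (phi (S.W x)),
        phi_le (hW x hx')]
    have b7 := mul_le_mul (mul_le_mul (b4.trans m1) b6 (norm_nonneg _) δ0) (u3 x) (norm_nonneg _)
      (by linarith)
    have b8 := pow_le_pow_left₀ (norm_nonneg _) (u3 x) 2
    show ‖NW.GG S.H W' x x - phi (W' x)‖ ≤ q.μ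
    rw [e]
    refine (norm_sub_le _ _).trans ((add_le_add ((norm_sub_le _ _).trans (add_le_add b1 b2))
      (le_of_eq (by rw [norm_mul, norm_mul]))).trans ?_)
    linarith
  · have b1 : ‖S.G x y‖ ^ 2 ≤ q.μ / 2 := h.ampA x hx y hy hn
    have b2 := pow_le_pow_left₀ (norm_nonneg _) (am x (rA hx) y hy) 2
    show ‖NW.GG S.H W' x y‖ ^ 2 ≤ 3 / 5 * q.μ
    nlinarith [sq_nonneg (‖S.G x y‖ - 120 * δ)]
  · have b1 : ‖S.G x y‖ ^ 2 ≤ q.ζ ^ 2 * q.μJ := h.ampB rfl x hx y hy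
    have J0 := hq.μJpos
    have ζ0 : 0 ≤ q.ζ := le_trans (by norm_num) hq.ζ0
    have b2 : ‖S.G x y‖ ≤ q.ζ * √q.μJ := le_of_sq_le_sq
      (by rw [mul_pow, sq_sqrt J0.le]; exact b1) (by positivity)
    have b3 : 12 * δ ≤ ε * √q.μJ := le_of_sq_le_sq (by
      have := mul_le_mul_of_nonneg_right ((mul_le_of_le_one_left μ0.le η1).trans hq.μ_le)
        (sq_nonneg ε)
      rw [mul_pow, mul_pow, sq_sqrt J0.le]
      linarith [sq_nonneg δ]) (by positivity)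
    have b4 := pow_le_pow_left₀ (norm_nonneg _) ((am x (mem_sdiff.1 hx).1 y hy).trans
      (add_le_add b2 b3)) 2
    rw [← add_mul, mul_pow, sq_sqrt J0.le] at b4
    exact b4
  · have b1 : ∑ y ∈ S.good.erase x, ‖NW.GG S.H S.W x y‖ ^ 4 ≤ q.n / 2 := h.lA x hx
    have b2 := p1.four r2 (r1 x (rA hx)) (erase_subset x _)
    show ∑ y ∈ S.good.erase x, ‖NW.GG S.H W' x y‖ ^ 4 ≤ 3 / 5 * q.n
    linarith
  · have b1 : ∑ y ∈ S.good, ‖NW.GG S.H S.W x y‖ ^ 4 ≤ q.nJ / 2 := h.lB rfl x hx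
    have b2 := p1.four r2 (r1 x (mem_sdiff.1 hx).1) subset_rfl
    show ∑ y ∈ S.good, ‖NW.GG S.H W' x y‖ ^ 4 ≤ 3 / 5 * q.nJ
    linarith [hq.n_le]
  · have en : ∀ f, |En S.O (Kk E.η W' (NW.GG S.H W')) f - En S.O (Kk E.η S.W S.G) f| ≤
        300 * (2 / E.η * δ) * En S.O (Kk E.η S.W S.G) f := fun f =>
      p2.en a1 (fun x hx => ⟨g'.a0 x, (a2 x hx).2⟩) (fun x _ => w2 x) f
    have up : ∀ F, En S.O (Kk E.η S.W S.G) F ≤ (1 + q.θ) * NF E.p F := h.ul.1
    have er : ∀ F, 300 * (2 / E.η * δ) * En S.O (Kk E.η S.W S.G) F ≤ ε * NF E.p F := fun F => by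
      have c0 := NF_nonneg hE.ref.p0 F
      have c1 := mul_le_mul_of_nonneg_left ((up F).trans (mul_le_mul_of_nonneg_right
        (by linarith : 1 + q.θ ≤ 2) c0)) s0
      have c2 := mul_le_mul_of_nonneg_right n4 c0
      linarith [mul_nonneg s0 c0]
    refine ⟨fun F => ?_, fun f => ?_⟩
    · show En S.O (Kk E.η W' (NW.GG S.H W')) F ≤ (1 + (q.θ + ε)) * NF E.p F
      linarith [(abs_le.1 (en F)).2, up F, er F]
    · obtain ⟨F, c1, c2⟩ := h.ul.2 f
      refine ⟨F, c1, ?_⟩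
      have c3 := er F
      rw [En_congr _ c1] at c3
      change (1 - q.θ) * NF E.p F ≤ _ at c2
      show (1 - (q.θ + ε)) * NF E.p F ≤ En S.O (Kk E.η W' (NW.GG S.H W')) f
      linarith [(abs_le.1 (en f)).1]
  · have op : OpLe S.good (fun x y => Am W' (NW.GG S.H W') x y - Am S.W S.G x y) ε := by
      have c1 := OpLe.diag (S := S.good) δ0
        (a := fun x => 1 / (1 - W' x ^ 2) ^ 2 - 1 / (1 - S.W x ^ 2) ^ 2) fun x hx =>
          (diag_le (hW x (S.good_sub hx)) (hW2 x (S.good_sub hx))).trans ((w1 x).symm ▸ u3 x)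
      have c2 : OpLe S.good (fun x y => if x = y then 0 else NW.GG S.H W' x y ^ 2 - S.G x y ^ 2)
          (21 * (2 / E.η * δ)) := OpLe.schur
        (d := fun x y => ‖NW.GG S.H W' x y ^ 2 - NW.GG S.H S.W x y ^ 2‖)
        (fun x _ y _ => by split_ifs; exacts [by simp, le_rfl]) (by positivity)
        (fun x hx => p1.sq_row (r2 x hx)) fun y hy => by
          simp only [g.sym _ y, g'.sym _ y]; exact p1.sq_row (r2 y hy)
      refine ((c1.diff c2).mono (by linarith)).congr fun x _ y _ => ?_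
      simp only [Am]
      split_ifs <;> ring
    have := h.rr.pert θ0 (θ1.trans (by norm_num)) ε0.le (by linarith) op
    rw [show (Am S.W S.G + fun x y => Am W' (NW.GG S.H W') x y - Am S.W S.G x y) =
      Am W' (NW.GG S.H W') by funext x y; simp] at this
    exact this
  · refine hC d M E q 0 S.H S.W W' S.O S.good hE hq (by norm_num) g.symm g.unit g'.unit S.good_sub
      w0 (fun x _ => (w1 x).symm ▸ (u3 x).trans (by linarith))
      (h.opLe hE (θ1.trans (by norm_num))) (by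
        rw [Par.OK.Bi_zero, Par.OK.li_zero]; exact h.dec) fun p v _ => ?_
    have c1 := (p1.op v).trans (mul_le_mul_of_nonneg_right p1.s1 (nS_nonneg _ _))
    have c2 := nS_sub S.good (v + ap S.good (fun x y => NW.GG S.H S.W x y * (W' y - S.W y)) v)
      (ap S.good (fun x y => NW.GG S.H S.W x y * (W' y - S.W y)) v)
    rw [add_sub_cancel_right] at c2
    have c3 : 3 ≤ 3 * (q.P : ℝ) ^ 40 / E.η := by
      rw [le_div_iff₀ η0]
      linarith [one_le_pow₀ (n := 40) (hq.Pone hE)]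
    refine le_trans ?_ (mul_le_mul_of_nonneg_right c3 (nS_nonneg _ _))
    linarith [nS_nonneg S.good v]

end Pool.Agent.P.MP_d0f69c_mp.XS
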