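import Pool.Agent.P.MP_d0f69c_mp.XS.All0
import Pool.Agent.P.MP_d0f69c_mp.XS.Flow
import Pool.Agent.P.MP_d0f69c_mp.XS.Heal
import Pool.Agent.P.MP_d0f69c_mp.XS.Newton

/-!
The main theorem of the revealing process and the case of weak disorder.
-/

set_option autoImplicit false

namespace Pool.Agent.P.MP_d0f69c_mp.XS

theorem all_main : S_MAIN := a_main (t_newton t_far (t_ct t_far)) t_flow t_heal

theorem all_A : S_A := a_A (t_newton t_far (t_ct t_far)) t_flow t_heal

end Pool.Agent.P.MP_d0f69c_mp.XS
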