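import Pool.Agent.P.MP_d0f69c_mp.XS.If0

/-!
Cells of the torus.
-/

set_option autoImplicit false

open Finset

namespace Pool.Agent.P.MP_d0f69c_mp.XS

namespace CellA

/-- index of the interval that contains `v` -/
def idx (L M v : ℕ) : ℕ := min (v / L) (M / L - 1)

theorem diam {L M a b : ℕ} (hL : 0 < L) (ha : a < M) (h : idx L M a = idx L M b) :
    a < b + 2 * L := by
  have h1 : idx L M b * L ≤ b :=
    (Nat.mul_le_mul_right L (min_le_left _ _)).trans (Nat.div_mul_le_self b L)
  have h2 : a / L < idx L M a + 2 := by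
    have := Nat.div_le_div_right (c := L) ha.le
    unfold idx
    omega
  rw [Nat.div_lt_iff_lt_mul hL, h, add_mul] at h2
  omega

/-- `u` lies in a window -/
def win (L M w u : ℕ) : Prop := u / L < M / L ∧ u % L < w

theorem same {L M w s t : ℕ} (hw : w ≤ L) (hs : s < M) (ht : t < w)
    (h' : ¬ win L M w ((s + t) % M)) : idx L M ((s + t) % M) = idx L M s := by
  have hL : 0 < L := by omega
  have h1 : (s + L) / L = s / L + 1 := Nat.add_div_right s hL
  rcases Nat.lt_or_ge (s + t) M with h | h
  · have h2 : s / L ≤ (s + t) / L := Nat.div_le_div_right (by omega)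
    have h3 : (s + t) / L ≤ (s + L) / L := Nat.div_le_div_right (by omega)
    rw [Nat.mod_eq_of_lt h] at h' ⊢
    have h4 := Nat.div_add_mod (s + t) L
    have h5 := Nat.div_add_mod s L
    have h6 := Nat.mod_lt s hL
    unfold idx
    unfold win at h'
    rcases h2.eq_or_lt with e | e
    · rw [e]
    · have e' : (s + t) / L = s / L + 1 := by omega
      rw [e', mul_add] at h4
      generalize (s + t) / L = a at *
      generalize s / L = b at *
      generalize M / L = c at *
      omega
  · have h2 : (s + t) % M ≤ s + t - M := by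
      rw [Nat.mod_eq_sub_mod h]
      exact Nat.mod_le _ _
    have h3 : (s + t) % M / L = 0 := Nat.div_eq_of_lt (by omega)
    have h4 := Nat.mod_le ((s + t) % M) L
    unfold idx
    unfold win at h'
    generalize (s + t) % M / L = a at *
    generalize s / L = b at *
    generalize M / L = c at *
    omega

theorem win_eq {M w d j : ℕ} [NeZero M] (hj : j ≤ d) {a : ZMod M}
    (h : win ((d + 1) * w) M w (a - (j * w : ℕ)).val) : a.val % ((d + 1) * w) / w = j := by
  obtain ⟨h1, h2⟩ := h
  set L := (d + 1) * w with hL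
  set u := (a - (j * w : ℕ)).val with hu
  have h3 : (j + 1) * w ≤ L := Nat.mul_le_mul_right _ (by omega)
  rw [add_mul, one_mul] at h3
  have h4 := Nat.div_add_mod u L
  have h5 : L * (u / L + 1) ≤ M := (Nat.mul_le_mul_left L h1).trans (Nat.mul_div_le M L)
  rw [mul_add] at h5
  have h6 : a = ((u + j * w : ℕ) : ZMod M) := by rw [Nat.cast_add, hu, ZMod.natCast_zmod_val]; ring
  have h7 : a.val = L * (u / L) + (u % L + j * w) := by
    rw [h6, ZMod.val_cast_of_lt (by omega)]; omega
  rw [h7, Nat.mul_add_mod, Nat.mod_eq_of_lt (by omega), Nat.add_mul_div_right _ _ (by omega),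
    Nat.div_eq_of_lt h2, zero_add]

theorem colour {d M : ℕ} [NeZero M] (w : ℕ) (x : Tor d M) :
    ∃ j ≤ d, ∀ i, ¬ win ((d + 1) * w) M w (x i - (j * w : ℕ)).val := by
  obtain ⟨j, h1, h2⟩ := exists_mem_notMem_of_card_lt_card (t := range (d + 1))
    (s := univ.image fun i => (x i).val % ((d + 1) * w) / w)
    (card_image_le.trans_lt (by simp))
  have hj : j ≤ d := Nat.lt_succ_iff.1 (mem_range.1 h1)
  exact ⟨j, hj, fun i h => h2 (mem_image.2 ⟨i, mem_univ _, win_eq hj h⟩)⟩

theorem val_eq {M r : ℕ} [NeZero M] {a p : ZMod M} (h : (a - p).valMinAbs.natAbs ≤ r) :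
    ∃ t < 2 * r + 1, a = p - r + t := by
  obtain ⟨t, ht⟩ := Int.eq_ofNat_of_zero_le (a := (a - p).valMinAbs + r) (by omega)
  refine ⟨t, by omega, ?_⟩
  have h1 := congrArg (Int.cast : ℤ → ZMod M) ht
  simp only [Int.cast_add, ZMod.coe_valMinAbs, Int.cast_natCast] at h1
  rw [← h1]; ring

theorem same' {L M w : ℕ} [NeZero M] (hw : w ≤ L) (b : ZMod M) {s t : ℕ} (hst : s ≤ t)
    (ht : t < w) (h' : ¬ win L M w (b + t).val) : idx L M (b + t).val = idx L M (b + s).val := by
  have e : (b + t).val = ((b + s).val + (t - s)) % M := by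
    rw [show b + t = b + s + (t - s : ℕ) by rw [Nat.cast_sub hst]; ring, ZMod.val_add,
      ZMod.val_natCast, Nat.add_mod_mod]
  rw [e] at h' ⊢
  exact same hw (ZMod.val_lt _) (by omega) h'

end CellA

open CellA

theorem t_cell : S_CELL := by
  intro d M r _
  choose j hj hw using colour (d := d) (M := M) (2 * r + 1)
  have hL : 2 * r + 1 ≤ (d + 1) * (2 * r + 1) := Nat.le_mul_of_pos_left _ (Nat.succ_pos d)
  refine ⟨fun x => (j x, fun i => idx ((d + 1) * (2 * r + 1)) M
    (x i - (j x * (2 * r + 1) : ℕ)).val), fun p => ?_, fun x y h => tn_le.2 fun i => ?_⟩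
  · refine (card_le_card_of_injOn (t := range (d + 1)) Prod.fst (fun c hc => ?_)
      fun c hc c' hc' e => ?_).trans_eq (card_range _)
    · obtain ⟨x, _, rfl⟩ := mem_image.1 (mem_coe.1 hc)
      exact mem_coe.2 (mem_range.2 (Nat.lt_succ_iff.2 (hj x)))
    obtain ⟨x, hx, rfl⟩ := mem_image.1 (mem_coe.1 hc)
    obtain ⟨y, hy, rfl⟩ := mem_image.1 (mem_coe.1 hc')
    refine Prod.ext e (funext fun i => ?_)
    obtain ⟨s, hs, e1⟩ := CellA.val_eq (a := x i) (p := p i) (tn_le.1 (mem_ball.1 hx) i)
    obtain ⟨t, ht, e2⟩ := CellA.val_eq (a := y i) (p := p i) (tn_le.1 (mem_ball.1 hy) i)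
    have w1 := hw x i
    have w2 := hw y i
    simp only at e ⊢
    rw [← e, e2, add_sub_right_comm] at w2
    rw [e1, add_sub_right_comm] at w1
    rw [← e, e1, e2, add_sub_right_comm, add_sub_right_comm _ (t : ZMod M)]
    rcases le_total s t with h | h
    · exact (same' hL _ h ht w2).symm
    · exact same' hL _ h hs w1
  · have e : j x = j y := congrArg Prod.fst h
    have h1 := congrFun (congrArg Prod.snd h) i
    simp only [← e] at h1
    have h2 := diam (by omega) (ZMod.val_lt _) h1
    have h3 := diam (by omega) (ZMod.val_lt _) h1.symm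
    refine (natAbs_vma_le _ (((x i - (j x * (2 * r + 1) : ℕ)).val : ℤ) -
      (y i - (j x * (2 * r + 1) : ℕ)).val) (by simp)).trans ?_
    rw [mul_assoc]
    omega

end Pool.Agent.P.MP_d0f69c_mp.XS
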