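import Pool.Agent.P.MP_d0f69c_mp.XS.If0

/-!
Classification at the start of an epoch.
-/

set_option autoImplicit false

open Finset Real
open scoped Matrix

namespace Pool.Agent.P.MP_d0f69c_mp.XS

namespace ClassA

variable {d M : ℕ} [NeZero M]

theorem far_sum {G : Matrix (Tor d M) (Tor d M) ℂ} {O T : Finset (Tor d M)} {B B' τ : ℝ}
    {l D : ℕ} (hl : 1 ≤ l) (h : Dec G O B l) (hB0 : 0 ≤ B') (hB : B ≤ B') (hF : Far d M B' l D τ)
    {x : Tor d M} (hx : x ∈ O) (hT : ∀ y ∈ T, D < nm (x - y)) : ∑ y ∈ T, ‖G x y‖ ≤ τ := by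
  classical
  have hl' : (1 : ℝ) ≤ l := by exact_mod_cast hl
  calc _ ≤ ∑ y ∈ T, B' * exp (-(nm (x - y) : ℝ) / (2 * l)) * (1 + nm (x - y)) ^ 2 := by
        refine sum_le_sum fun y _ => (h x hx y).trans ?_
        have h0 : (0 : ℝ) ≤ nm (x - y) := Nat.cast_nonneg _
        have h1 : exp (-(nm (x - y) : ℝ) / l) ≤ exp (-(nm (x - y) : ℝ) / (2 * l)) := by
          rw [exp_le_exp, neg_div, neg_div, neg_le_neg_iff]
          exact div_le_div_of_nonneg_left h0 (by linarith) (by linarith)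
        refine (mul_le_mul hB h1 (exp_pos _).le hB0).trans
          (le_mul_of_one_le_right (by positivity) (one_le_pow₀ (by linarith)))
    _ = ∑ z ∈ T.image fun y => x - y, B' * exp (-(nm z : ℝ) / (2 * l)) * (1 + nm z) ^ 2 := by
        rw [sum_image fun a _ b _ e => sub_right_injective e]
    _ ≤ τ := by
        refine le_trans (sum_le_sum_of_subset_of_nonneg (fun z hz => ?_)
          fun _ _ _ => by positivity) hF
        obtain ⟨y, hy, rfl⟩ := mem_image.1 hz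
        exact mem_filter.2 ⟨mem_univ _, hT y hy⟩

end ClassA

theorem t_class (hf : S_FREEZE) (hF : S_FAR) : S_CLASS := by
  intro d M _ E q S hE hq h
  by_cases hs : q.start = true
  swap
  · rw [if_neg hs]
    rwa [Par.bPre, if_neg hs] at h
  rw [if_pos hs]
  rw [Par.bPre, if_pos hs] at h
  have hP : (2 : ℝ) ≤ q.P := by
    have h1 : (1 : ℝ) ≤ (d : ℝ) ^ 2 := one_le_pow₀ (by exact_mod_cast hE.d1)
    have h2 : 1 ≤ E.CS ^ 2 := one_le_pow₀ hE.ref.c1
    have h3 := one_le_mul_of_one_le_of_one_le h1 h2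
    have h4 := hq.P1
    rw [mul_assoc] at h4
    linarith
  have hμ : 0 < q.μ := (exp_pos _).trans_le hq.μ1
  have hJ := hq.J1
  have hJ1 : q.μJ ≤ 1 := hq.J2.trans (div_le_one_of_le₀
    (hE.η1.trans ((by norm_num : (1 : ℝ) / 10 ^ 8 ≤ 1).trans (one_le_pow₀ (by linarith))))
    (by positivity))
  have hζ : 1 / 4 * q.μJ ≤ q.ζ ^ 2 * q.μJ :=
    mul_le_mul_of_nonneg_right (by nlinarith [hq.ζ0]) (by linarith)
  have h20 : (1 : ℝ) ≤ (q.P : ℝ) ^ 20 := one_le_pow₀ (by linarith)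
  have hsq : 256 * q.μ ^ 2 ≤ q.μJ ^ 2 := by nlinarith
  have hA : q.μ / 2 ≤ q.ζ ^ 2 * q.μJ := by linarith
  have hN : q.n / 2 ≤ q.nJ / 2 := by
    unfold Par.n Par.nJ
    gcongr
    linarith
  have hτ : q.τ ≤ q.μ ^ 2 := by
    refine le_trans ?_ (pow_le_pow_left₀ (exp_pos _).le hq.μ1 2)
    rw [Par.τ, sq, ← exp_add, exp_le_exp]
    have h1 : (2 : ℝ) ≤ (q.P : ℝ) ^ 6 := hP.trans (le_self_pow₀ (by linarith) (by norm_num))
    nlinarith
  have hτ1 : q.τ ≤ q.ζ ^ 2 * q.μJ := by nlinarith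
  have hτ2 : q.τ ≤ q.nJ / 2 := by
    have := mul_le_mul_of_nonneg_right h20 (sq_nonneg q.μJ)
    unfold Par.nJ
    nlinarith
  have hτ3 : q.τ ≤ 1 := by nlinarith
  have hθ : q.θ ≤ 1 := by
    have := hq.θ1
    have : (0 : ℝ) ≤ 1 / (q.P : ℝ) ^ 2 := by positivity
    linarith
  have hB : q.B ≤ exp ((q.P : ℝ) ^ 6) := le_trans (le_mul_of_one_le_right (by linarith [hq.B0])
    (one_le_pow₀ (one_le_exp (by positivity)))) hq.B1
  have hfar := ((hF d M E q hE hq).2 0 (by norm_num)).1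
  rw [show q.li E.η 0 = q.l by simp [Par.li]] at hfar
  generalize hJd : (univ.filter fun x => ∃ y ∈ S.junk, nm (y - x) ≤ q.D E.η 0) = J
  have hI := hf d M E _ S J h hq.θ0 hθ hA hN
  have hrow : (S.freeze J).good ⊆ (S.freeze J).rowA q.fin ∧
      (S.freeze J).rowA q.fin ⊆ (S.freeze J).rowA false := by
    unfold St.rowA
    cases q.fin <;> simp
  have hsum : ∀ x ∈ S.junk, ∑ y ∈ S.good \ J, ‖S.G x y‖ ≤ q.τ := fun x hx =>
    ClassA.far_sum (hE.ref.l1.trans hq.l0) h.dec (exp_pos _).le hB hfar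
      (mem_union_right _ hx) fun y hy => by
        by_contra hn
        exact (mem_sdiff.1 hy).2 (hJd ▸ mem_filter.2 ⟨mem_univ _, x, hx, not_lt.1 hn⟩)
  have hone : ∀ x ∈ S.junk, ∀ y ∈ S.good \ J, ‖S.G x y‖ ≤ q.τ := fun x hx y hy =>
    (single_le_sum (f := fun y => ‖S.G x y‖) (fun _ _ => norm_nonneg _) hy).trans (hsum x hx)
  have hcase : ∀ x ∈ (S.freeze J).O \ (S.freeze J).rowA q.fin,
      x ∉ S.good \ J ∧ (x ∈ S.rowA false ∨ x ∈ S.junk) := fun x hx => by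
    refine ⟨fun h1 => (mem_sdiff.1 hx).2 (hrow.1 h1), ?_⟩
    have h1 := (mem_sdiff.1 hx).1
    simp only [St.O, St.freeze, St.rowA, mem_union, mem_sdiff, mem_inter, Bool.false_eq_true,
      if_false] at h1 ⊢
    tauto
  refine { hI with
    ampA := fun x hx => hI.ampA x (hrow.2 hx)
    lA := fun x hx => hI.lA x (hrow.2 hx)
    ampB := fun _ x hx y hy => ?_
    lB := fun _ x hx => ?_ }
  · obtain ⟨h1, h2 | h2⟩ := hcase x hx
    · exact (h.ampA x h2 y (mem_sdiff.1 hy).1 fun e => h1 (e ▸ hy)).trans hA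
    · have h3 := hone x h2 y hy
      exact (pow_le_of_le_one (norm_nonneg _) (h3.trans hτ3) two_ne_zero).trans (h3.trans hτ1)
  · obtain ⟨h1, h2 | h2⟩ := hcase x hx
    · refine le_trans (sum_le_sum_of_subset_of_nonneg (fun y hy => ?_)
        fun _ _ _ => by positivity) ((h.lA x h2).trans hN)
      exact mem_erase.2 ⟨fun e => h1 (e ▸ hy), (mem_sdiff.1 hy).1⟩
    · exact (sum_le_sum fun y hy => pow_le_of_le_one (norm_nonneg _) ((hone x h2 y hy).trans hτ3)
        four_ne_zero).trans ((hsum x h2).trans hτ2)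

end Pool.Agent.P.MP_d0f69c_mp.XS
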