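import Pool.Agent.P.MP_d0f69c_mp.XS.If0

/-!
Elementary relations between the parameters of a round.
-/

set_option autoImplicit false

open Finset Real

namespace Pool.Agent.P.MP_d0f69c_mp.XS

variable {d M : ℕ}

theorem nm_comm (x y : Tor d M) : nm (x - y) = nm (y - x) := (tn_NG d M).sub_comm x y

theorem nm_tri (x y z : Tor d M) : nm (x - z) ≤ nm (x - y) + nm (y - z) := (tn_NG d M).tri x y z

theorem nm_self (x : Tor d M) : nm (x - x) = 0 := by rw [sub_self]; exact (tn_NG d M).zero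

variable [NeZero M] {E : Env d M} {q : Par}

theorem mem_bl {p x : Tor d M} {r : ℕ} : x ∈ bl p r ↔ nm (x - p) ≤ r := mem_ball

theorem self_bl (p : Tor d M) (r : ℕ) : p ∈ bl p r := (tn_NG d M).self_mem p r

theorem Sep.disj {I : Finset (Tor d M)} {r s : ℕ} (h : Sep I r) (hs : 2 * s ≤ r) {x y : Tor d M}
    (hx : x ∈ I) (hy : y ∈ I) (hn : x ≠ y) : Disjoint (bl x s) (bl y s) :=
  disjoint_left.2 fun z h1 h2 => by
    have := h x hx y hy hn
    have := nm_tri x z y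
    rw [mem_bl] at h1 h2
    rw [nm_comm] at h1
    omega

/-- the invariant depends on `H, W, good, omg, junk` only -/
theorem Inv.congr {b : Bd} {S S' : St (Tor d M)} (h : Inv E b S) (h1 : S'.H = S.H)
    (h2 : S'.W = S.W) (h3 : S'.good = S.good) (h4 : S'.omg = S.omg) (h5 : S'.junk = S.junk) :
    Inv E b S' := by
  cases S; cases S'
  simp only at h1 h2 h3 h4 h5
  subst h1 h2 h3 h4 h5
  exact ⟨h.1, h.2, h.3, h.4, h.5, h.6, h.7, h.8, h.9, h.10, h.11, h.12, h.13, h.14, h.15, h.16,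
    h.17, h.18, h.19⟩

theorem NewEv.mono {s : ℕ} {S S' : St (Tor d M)} {x y : Tor d M} {r r' : ℕ} (h : NewEv s S x r)
    (hS : S.ev ⊆ S'.ev) (hr : r + nm (x - y) ≤ r') : NewEv s S' y r' := by
  obtain ⟨ℓ, h1, h2, h3, h4⟩ := h
  exact ⟨ℓ, hS h1, h2, h3, (nm_tri _ x _).trans (by omega)⟩

theorem Cover.mono {A B : Finset (Tor d M)} (h : Cover E A) (hA : A ⊆ B) : Cover E B := fun x =>
  let ⟨o, h1, h2⟩ := h x; ⟨o, hA h1, h2⟩

namespace Par.OK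

theorem Pd (hq : q.OK E) (hE : E.OK) : (10 : ℝ) ^ 9 * (d : ℝ) ^ 2 ≤ q.P :=
  le_trans (le_mul_of_one_le_right (by positivity) (one_le_pow₀ hE.ref.c1)) hq.P1

theorem Pd' (hq : q.OK E) (hE : E.OK) : 10 ^ 9 * d ^ 2 ≤ q.P := by exact_mod_cast hq.Pd hE

theorem P9 (hq : q.OK E) (hE : E.OK) : (10 : ℝ) ^ 9 ≤ q.P :=
  le_trans (le_mul_of_one_le_right (by positivity) (one_le_pow₀ (by exact_mod_cast hE.d1)))
    (hq.Pd hE)

theorem P9' (hq : q.OK E) (hE : E.OK) : 10 ^ 9 ≤ q.P := by exact_mod_cast hq.P9 hE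

theorem Pone (hq : q.OK E) (hE : E.OK) : (1 : ℝ) ≤ q.P := le_trans (by norm_num) (hq.P9 hE)

theorem Ppos (hq : q.OK E) (hE : E.OK) : (0 : ℝ) < q.P := one_pos.trans_le (hq.Pone hE)

/-- monotonicity of the powers of `P` -/
theorem pow_le (hq : q.OK E) (hE : E.OK) {a b : ℕ} (h : a ≤ b) : (q.P : ℝ) ^ a ≤ (q.P : ℝ) ^ b :=
  pow_le_pow_right₀ (hq.Pone hE) h

/-- a constant is absorbed by one power of `P` -/
theorem pow_lt (hq : q.OK E) (hE : E.OK) {a b : ℕ} (h : a < b) {c : ℝ} (hc : c ≤ 10 ^ 9) :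
    c * (q.P : ℝ) ^ a ≤ (q.P : ℝ) ^ b :=
  calc c * (q.P : ℝ) ^ a ≤ q.P * (q.P : ℝ) ^ a :=
        mul_le_mul_of_nonneg_right (hc.trans (hq.P9 hE)) (by positivity)
    _ = (q.P : ℝ) ^ (a + 1) := by ring
    _ ≤ _ := hq.pow_le hE h

theorem CS_le (hq : q.OK E) (hE : E.OK) : 10 ^ 9 * E.CS ^ 2 ≤ q.P :=
  le_trans (mul_le_mul_of_nonneg_right (le_mul_of_one_le_right (by positivity)
    (one_le_pow₀ (by exact_mod_cast hE.d1))) (sq_nonneg _)) hq.P1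

theorem μpos (hq : q.OK E) : 0 < q.μ := pow_pos hq.e0 _

theorem μJpos (hq : q.OK E) : 0 < q.μJ := by have := hq.μpos; have := hq.J1; linarith

theorem μ_le (hq : q.OK E) : q.μ ≤ q.μJ := by have := hq.μpos; have := hq.J1; linarith

theorem μJ_le (hq : q.OK E) (hE : E.OK) : q.μJ ≤ E.η :=
  hq.J2.trans (div_le_self hE.η0.le (one_le_pow₀ (hq.Pone hE)))

theorem μ_le_one (hq : q.OK E) (hE : E.OK) : q.μ ≤ 1 :=
  hq.μ_le.trans ((hq.μJ_le hE).trans (hE.η1.trans (by norm_num)))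

theorem e_le_one (hq : q.OK E) (hE : E.OK) : q.e ≤ 1 :=
  (pow_le_one_iff_of_nonneg hq.e0.le (by norm_num)).1 (hq.μ_le_one hE)

theorem npos (hq : q.OK E) (hE : E.OK) : 0 < q.n :=
  mul_pos (pow_pos (hq.Ppos hE) _) (pow_pos hq.μpos _)

theorem n_le (hq : q.OK E) : q.n ≤ q.nJ :=
  mul_le_mul_of_nonneg_left (pow_le_pow_left₀ hq.μpos.le hq.μ_le 2) (by positivity)

theorem θ_le (hq : q.OK E) : q.θ ≤ 1 / 10 ^ 7 := le_trans (le_add_of_nonneg_right (by positivity)) hq.θ1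

/-- the error budget of a round -/
theorem θ_add (hq : q.OK E) (hE : E.OK) {c : ℝ} (hc : c ≤ 10 ^ 9) :
    q.θ + c / (q.P : ℝ) ^ 3 ≤ 1 / 10 ^ 7 := by
  have hP := hq.Ppos hE
  refine le_trans (add_le_add_right ?_ _) hq.θ1
  rw [div_le_div_iff₀ (by positivity) (by positivity), one_mul]
  exact hq.pow_lt hE (by norm_num) hc

theorem inv_η (hq : q.OK E) (hE : E.OK) : 1 / E.η ≤ exp q.P := by
  rw [div_le_iff₀ hE.η0]
  calc (1 : ℝ) = exp q.P * exp (-q.P) := by rw [← exp_add]; simp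
    _ ≤ _ := mul_le_mul_of_nonneg_left hq.η1 (exp_pos _).le

theorem inv_μ (hq : q.OK E) : 1 / q.μ ≤ exp q.P := by
  rw [div_le_iff₀ hq.μpos]
  calc (1 : ℝ) = exp q.P * exp (-q.P) := by rw [← exp_add]; simp
    _ ≤ _ := mul_le_mul_of_nonneg_left hq.μ1 (exp_pos _).le

theorem g_one (hE : E.OK) : 1 ≤ ⌈1 / E.η⌉₊ := Nat.one_le_ceil_iff.2 (one_div_pos.2 hE.η0)

theorem Lg_ge (hE : E.OK) : q.P ^ 60 ≤ q.Lg E.η :=
  Nat.le_mul_of_pos_right _ (pow_pos (g_one hE) _)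

theorem Lg_ge' (hq : q.OK E) (hE : E.OK) : 10 ^ 9 ≤ q.Lg E.η :=
  (hq.P9' hE).trans ((Nat.le_self_pow (by norm_num) _).trans (Lg_ge hE))

/-- the real form of the growth factor -/
theorem Lg_real (hE : E.OK) : (q.P : ℝ) ^ 60 / E.η ^ 2 ≤ q.Lg E.η := by
  have h : 1 / E.η ≤ ⌈1 / E.η⌉₊ := Nat.le_ceil _
  have h0 := hE.η0
  simp only [Par.Lg, Nat.cast_mul, Nat.cast_pow]
  rw [div_eq_mul_one_div, ← one_div_pow]
  exact mul_le_mul_of_nonneg_left (pow_le_pow_left₀ (by positivity) h 2) (by positivity)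

theorem l_one (hq : q.OK E) (hE : E.OK) : 1 ≤ q.l := hE.ref.l1.trans hq.l0

omit [NeZero M] in
theorem li_zero (q : Par) (η : ℝ) : q.li η 0 = q.l := by simp [Par.li]

omit [NeZero M] in
theorem li_succ (q : Par) (η : ℝ) (i : ℕ) : q.li η (i + 1) = q.Lg η * q.li η i := by
  simp only [Par.li]; ring

omit [NeZero M] in
theorem D_succ (q : Par) (η : ℝ) (i : ℕ) : q.D η (i + 1) = q.Lg η * q.D η i := by
  simp only [Par.D, li_succ]; ring

theorem li_mono (hq : q.OK E) (hE : E.OK) {i j : ℕ} (h : i ≤ j) : q.li E.η i ≤ q.li E.η j :=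
  Nat.mul_le_mul_right _ (Nat.pow_le_pow_right (le_trans (by norm_num) (hq.Lg_ge' hE)) h)

theorem l_le_li (hq : q.OK E) (hE : E.OK) (i : ℕ) : q.l ≤ q.li E.η i :=
  (li_zero q E.η).symm.trans_le (hq.li_mono hE (Nat.zero_le i))

theorem li_one (hq : q.OK E) (hE : E.OK) (i : ℕ) : 1 ≤ q.li E.η i :=
  (hq.l_one hE).trans (hq.l_le_li hE i)

theorem li_le_D (hq : q.OK E) (hE : E.OK) (i : ℕ) : q.li E.η i ≤ q.D E.η i :=
  Nat.le_mul_of_pos_left _ (pow_pos (lt_of_lt_of_le (by norm_num) (hq.P9' hE)) _)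

theorem D_one (hq : q.OK E) (hE : E.OK) (i : ℕ) : 1 ≤ q.D E.η i :=
  (hq.li_one hE i).trans (hq.li_le_D hE i)

theorem l0_le_D (hq : q.OK E) (hE : E.OK) (i : ℕ) : E.l0 ≤ q.D E.η i :=
  hq.l0.trans ((hq.l_le_li hE i).trans (hq.li_le_D hE i))

theorem D_mono (hq : q.OK E) (hE : E.OK) {i j : ℕ} (h : i ≤ j) : q.D E.η i ≤ q.D E.η j :=
  Nat.mul_le_mul_left _ (hq.li_mono hE h)

theorem D_grow (hq : q.OK E) (hE : E.OK) {i j : ℕ} (h : i < j) :
    10 ^ 9 * q.D E.η i ≤ q.D E.η j :=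
  le_trans (by rw [D_succ]; exact Nat.mul_le_mul_right _ (hq.Lg_ge' hE)) (hq.D_mono hE h)

theorem D_grow' (hq : q.OK E) (hE : E.OK) {i j : ℕ} (h : i < j) :
    q.P ^ 60 * q.D E.η i ≤ q.D E.η j :=
  le_trans (by rw [D_succ]; exact Nat.mul_le_mul_right _ (Lg_ge hE)) (hq.D_mono hE h)

theorem D_le_A (hE : E.OK) : q.D E.η 2 ≤ q.A E.η d := Nat.le_mul_of_pos_left _ hE.d1

/-- the averaging radius is far below the next scale -/
theorem A_grow (hq : q.OK E) (hE : E.OK) : 10 ^ 9 * d * q.A E.η d ≤ q.D E.η 3 :=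
  calc 10 ^ 9 * d * q.A E.η d = 10 ^ 9 * d ^ 2 * q.D E.η 2 := by rw [Par.A]; ring
    _ ≤ q.P ^ 60 * q.D E.η 2 :=
        Nat.mul_le_mul_right _ ((hq.Pd' hE).trans (Nat.le_self_pow (by norm_num) _))
    _ ≤ _ := hq.D_grow' hE (by norm_num)

theorem A_grow' (hq : q.OK E) (hE : E.OK) : 10 ^ 9 * q.A E.η d ≤ q.D E.η 3 :=
  (Nat.mul_le_mul_right _ (Nat.le_mul_of_pos_right _ hE.d1)).trans (hq.A_grow hE)

theorem Bi_mono (hq : q.OK E) {i j : ℕ} (h : i ≤ j) : q.Bi i ≤ q.Bi j :=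
  mul_le_mul_of_nonneg_left (pow_le_pow_right₀ (one_le_exp (by positivity)) h)
    (zero_le_one.trans hq.B0)

omit [NeZero M] in
theorem Bi_zero (q : Par) : q.Bi 0 = q.B := by simp [Par.Bi]

omit [NeZero M] in
theorem Bi_succ (q : Par) (i : ℕ) : q.Bi (i + 1) = q.Bi i * exp (20 * (q.P : ℝ) ^ 3) := by
  simp only [Par.Bi]; ring

theorem Bi_one (hq : q.OK E) (i : ℕ) : 1 ≤ q.Bi i :=
  hq.B0.trans ((Bi_zero q).symm.trans_le (hq.Bi_mono (Nat.zero_le i)))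

theorem Bi_le (hq : q.OK E) {i : ℕ} (h : i ≤ 3) : q.Bi i ≤ exp ((q.P : ℝ) ^ 6) :=
  (hq.Bi_mono h).trans hq.B1

omit [NeZero M] in
theorem τpos (q : Par) : 0 < q.τ := exp_pos _

/-- `τ` beats every factor `exp (c P ^ 6)` -/
theorem τ_mul (hq : q.OK E) (hE : E.OK) {c c' : ℝ} (h : c + c' ≤ 10 ^ 9) :
    q.τ * exp (c * (q.P : ℝ) ^ 6) ≤ exp (-(c' * (q.P : ℝ) ^ 6)) := by
  rw [Par.τ, ← exp_add, exp_le_exp]
  have := hq.pow_lt hE (a := 6) (b := 7) (by norm_num) h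
  linarith

theorem μr_pos (hq : q.OK E) (S : St (Tor d M)) (x : Tor d M) : 0 < μr q S x := by
  unfold μr; split_ifs; exacts [hq.μpos, hq.μJpos]

theorem μ_le_μr (hq : q.OK E) (S : St (Tor d M)) (x : Tor d M) : q.μ ≤ μr q S x := by
  unfold μr; split_ifs; exacts [le_rfl, hq.μ_le]

theorem μr_le (hq : q.OK E) (S : St (Tor d M)) (x : Tor d M) : μr q S x ≤ q.μJ := by
  unfold μr; split_ifs; exacts [hq.μ_le, le_rfl]

end Par.OK

/-- the admissibility hypothesis of `S_ADM` holds in every state with the invariant -/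
theorem Inv.im_neg {b : Bd} {S : St (Tor d M)} (h : Inv E b S) (hE : E.OK) (hθ : b.θ < 1)
    {x : Tor d M} (hx : x ∈ S.O) : (S.W x).im < 0 := by
  have h1 := (abs_le.1 (h.opn x hx).2).1
  have h2 : 0 < -(S.W x).im / E.η := by unfold aw at h1; linarith
  have := (div_pos_iff_of_pos_right hE.η0).1 h2
  linarith

end Pool.Agent.P.MP_d0f69c_mp.XS
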