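import Pool.Agent.P.MP_d0f69c_mp.XS.Pr
import Pool.Agent.P.MP_d0f69c_mp.XS.Num

/-!
The closing phase of a round.
-/

set_option autoImplicit false

open Finset Real

namespace Pool.Agent.P.MP_d0f69c_mp.XS

namespace CloseA

variable {d M : ℕ} [NeZero M]

theorem flow_congr {E : Env d M} {q : Par} {S : St (Tor d M)} {c : Tor d M}
    {Z Sg : Finset (Tor d M)} {ω ω' : Tor d M → Bool} {κ κ' : Tor d M → ℕ}
    (h : ∀ x ∈ Z, ω' x = ω x ∧ κ' x = κ x) (f : Flow E q S c Z Sg ω κ) :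
    Flow E q S c Z Sg ω' κ' := by
  have h1 : ∀ t, pre κ' Z t = pre κ Z t := fun t =>
    filter_congr fun x hx => by rw [(h x hx).2]
  have h2 : ∀ X ⊆ Z, Wc S.W ω' X = Wc S.W ω X := fun X hX => funext fun x => by
    unfold Wc
    split_ifs with g
    · rw [(h x (hX g)).1]
    · rfl
  have h3 : ∀ t, Wc S.W ω' (pre κ Z t) = Wc S.W ω (pre κ Z t) := fun t =>
    h2 _ (filter_subset _ _)
  have h4 := h2 Z Subset.rfl
  refine ⟨?_, ?_, ?_, ?_, ?_, fun φ hφ => ?_, ?_⟩
  · simpa only [h1, h3] using f.nrm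
  · simpa only [h1, h3] using f.mis
  · simpa only [h1, h3] using f.deg
  · simpa only [h4] using f.amp
  · simpa only [h4] using f.l4
  · rw [sum_congr rfl fun v hv => by
      rw [h1, h3, (h v (mem_inter.1 hv).1).1, (h v (mem_inter.1 hv).1).2]]
    exact f.y5 φ hφ
  · convert f.y6 using 3 with x y
    exact sum_congr rfl fun v hv => by
      rw [h1, h3, (h v (mem_inter.1 hv).1).1, (h v (mem_inter.1 hv).1).2]

theorem ky_inj {ι : Type} [Fintype ι] [DecidableEq ι] {K : ℕ} (a : ι → Fin K) :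
    Function.Injective (ky a) := fun x y h => by
  have := congrArg (· % Fintype.card ι) h
  simp only [ky, Nat.mul_add_mod_self_right, Nat.mod_eq_of_lt (Fin.is_lt _)] at this
  exact (Fintype.equivFin ι).injective (Fin.ext this)

variable (E : Env d M) (q : Par) (cl : Tor d M → ℕ × (Fin d → ℕ)) (S : St (Tor d M))
  (ω : Tor d M → Bool) (κ : Tor d M → ℕ)

/-- union of cells -/
def Jof (C : Finset (ℕ × (Fin d → ℕ))) : Finset (Tor d M) := univ.filter fun x => cl x ∈ C

/-- one of the flows near `p` fails -/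
def Bad (p : Tor d M) : Prop := ∃ C ∈ ((bl p (5 * q.A E.η d)).image cl).powerset,
  ¬ Flow E q S p (((S.good \ S.sig) \ Jof cl C) ∩ bl p (5 * q.A E.η d))
    ((S.sig \ Jof cl C) ∩ bl p (5 * q.A E.η d)) ω κ

open Classical in
/-- the cells that are frozen -/
noncomputable def Cs : Finset (ℕ × (Fin d → ℕ)) :=
  (univ.filter (Bad E q cl S ω κ)).biUnion fun p => (bl p (5 * q.A E.η d)).image cl

open Classical in
/-- the state after the closing phase -/
noncomputable def out (s : ℕ) : St (Tor d M) :=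
  { S.close (Jof cl (Cs E q cl S ω κ)) ω with
    ev := S.ev ∪ (univ.filter (Bad E q cl S ω κ)).image fun p => (s, 1, p) }

/-- the coins that are used -/
def mask {N : ℕ} (v : Cfg (Tor d M) N) (x : Tor d M) : Bool :=
  if x ∈ S.good \ S.sig then (v x).1 else true

open Classical in
/-- the closing phase -/
noncomputable def stg (s K : ℕ) : Stage (Tor d M) E.N where
  A := Tor d M → Fin (K + 1)
  fA := inferInstance
  nA := inferInstance
  run S v a := if Inv E (q.b1 E.η) S ∧ Sel E q S then out E q cl S (mask S v) (ky a) s else S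

variable {E q cl S ω κ}

theorem mem_J {x : Tor d M} : x ∈ Jof cl (Cs E q cl S ω κ) ↔
    ∃ p, Bad E q cl S ω κ p ∧ ∃ y ∈ bl p (5 * q.A E.η d), cl y = cl x := by
  simp only [Jof, Cs, mem_filter, mem_univ, true_and, mem_biUnion, mem_image]

theorem mem_ev {s : ℕ} {ℓ : Lab (Tor d M)} : ℓ ∈ (out E q cl S ω κ s).ev ↔
    ℓ ∈ S.ev ∨ ∃ p, Bad E q cl S ω κ p ∧ (s, 1, p) = ℓ := by
  simp only [out, mem_union, mem_image, mem_filter, mem_univ, true_and]

theorem Bad.congr {ω' : Tor d M → Bool} {κ' : Tor d M → ℕ} {p : Tor d M}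
    (h : ∀ x ∈ S.good \ S.sig, x ∈ bl p (5 * q.A E.η d) → ω x = ω' x ∧ κ x = κ' x)
    (b : Bad E q cl S ω κ p) : Bad E q cl S ω' κ' p := by
  obtain ⟨C, hC, f⟩ := b
  exact ⟨C, hC, fun g => f (flow_congr
    (fun x hx => h x (mem_sdiff.1 (mem_inter.1 hx).1).1 (mem_inter.1 hx).2) g)⟩

theorem post (h2 : S_GLUE) (hE : E.OK) (hq : q.OK E) (h : Inv E (q.b1 E.η) S) (h' : Sel E q S)
    (hκ : Function.Injective κ) (s : ℕ) : Inv2 E q (out E q cl S ω κ s) := by
  obtain ⟨a, b⟩ := h2 d M E q S (Jof cl (Cs E q cl S ω κ)) ω κ hE hq h h' hκ fun p => by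
    by_cases g : Bad E q cl S ω κ p
    · exact Or.inl fun x hx => mem_J.2 ⟨p, g, x, hx, rfl⟩
    · right
      have key : ∀ X : Finset (Tor d M), (X \ Jof cl (Cs E q cl S ω κ)) ∩ bl p (5 * q.A E.η d) =
          (X \ Jof cl (Cs E q cl S ω κ ∩ (bl p (5 * q.A E.η d)).image cl)) ∩
            bl p (5 * q.A E.η d) := fun X => by
        ext x
        simp only [mem_inter, mem_sdiff, Jof, mem_filter, mem_univ, true_and]
        exact and_congr_left fun hx => by rw [and_iff_left (mem_image_of_mem cl hx)]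
      rw [key, key]
      by_contra f
      exact g ⟨_, mem_powerset.2 inter_subset_right, f⟩
  exact ⟨a.congr rfl rfl rfl rfl rfl, b⟩

theorem pr_bad (h1 : S_FLOW) (hE : E.OK) (hq : q.OK E) (h : Inv E (q.b1 E.η) S) (h' : Sel E q S)
    (p : Tor d M) (hc : ((bl p (5 * q.A E.η d)).image cl).card ≤ d + 1) :
    pr (fun z : (Tor d M → Bool) × (Tor d M → Fin (⌈exp (3 * (q.P : ℝ) ^ 3)⌉₊ + 1)) =>
      Bad E q cl S z.1 (ky z.2) p) ≤ exp (-(q.P : ℝ) ^ 3) := by
  refine (pr_ex_le _ _ fun C _ => h1 d M E q S p _ _ hE hq h h'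
    (inter_subset_inter_right sdiff_subset) (inter_subset_inter_right sdiff_subset)).trans ?_
  rw [card_powerset, show -(q.P : ℝ) ^ 3 = (q.P : ℝ) ^ 3 + -2 * (q.P : ℝ) ^ 3 by ring, exp_add]
  refine mul_le_mul_of_nonneg_right ?_ (exp_pos _).le
  generalize ((bl p (5 * q.A E.η d)).image cl).card = n at hc
  have a1 : (n : ℝ) ≤ q.P := by
    have := hq.Pd' hE
    have := hE.d1
    exact_mod_cast (by nlinarith : n ≤ q.P)
  have a4 := hq.pow_le hE (show 1 ≤ 3 by norm_num)
  push_cast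
  calc (2 : ℝ) ^ n ≤ exp 1 ^ n :=
        pow_le_pow_left₀ (by norm_num) (by linarith [add_one_le_exp 1]) n
    _ = exp n := exp_one_pow n
    _ ≤ _ := exp_le_exp.2 (by linarith)

theorem pr_all (h4 : S_INDEP) {ι κ κ' κ'' : Type} [Fintype ι] [DecidableEq ι] [Fintype κ]
    [Fintype κ'] [Fintype κ''] [Nonempty κ] [Nonempty κ'] [Nonempty κ''] (I : Finset ι)
    (D : ι → Finset ι) (B : (ι → κ) → (ι → κ'') → ι → Prop) {c : ℝ}
    (h1 : ∀ i ∈ I, ∀ j ∈ I, i ≠ j → Disjoint (D i) (D j))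
    (h2 : ∀ i w a w' a', (∀ x ∈ D i, w x = w' x ∧ a x = a' x) → B w a i → B w' a' i)
    (h3 : ∀ i, pr (fun z : (ι → κ) × (ι → κ'') => B z.1 z.2 i) ≤ c) :
    pr (fun z : (ι → κ × κ') × (ι → κ'') => ∀ i ∈ I, B (fun y => (z.1 y).1) z.2 i) ≤
      c ^ I.card := by
  rw [← pr_pair, h4 _ _ _ I D _ h1 fun i _ w w' e b => h2 i _ _ _ _
    (fun y hy => by simp only [e y hy, and_self]) b, ← prod_const]
  refine prod_le_prod (fun _ _ => pr_nonneg _) fun x _ => le_trans (le_of_eq ?_) (h3 x)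
  rw [pr_pair fun z : (ι → κ × κ') × (ι → κ'') => B (fun y => (z.1 y).1) z.2 x, pr_prod', pr_prod']
  exact congrArg av (funext fun b => pr_coins fun w => B w b x)

end CloseA

open CloseA in
theorem t_close (h1 : S_FLOW) (h2 : S_GLUE) (h3 : S_CELL) (h4 : S_INDEP) : S_CLOSE := by
  classical
  intro d M _ E q s hE hq
  obtain ⟨cl, c1, c2⟩ := h3 d M (5 * q.A E.η d)
  have : Nonempty (Fin E.N) := ⟨⟨0, Nat.pos_of_ne_zero hE.N0⟩⟩
  let st := stg E q cl s ⌈exp (3 * (q.P : ℝ) ^ 3)⌉₊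
  have hp : ∀ S v a, Inv E (q.b1 E.η) S ∧ Sel E q S →
      st.run S v a = out E q cl S (mask S v) (ky a) s := fun _ _ _ h => if_pos h
  have hn : ∀ S v a, ¬ (Inv E (q.b1 E.η) S ∧ Sel E q S) → st.run S v a = S :=
    fun _ _ _ h => if_neg h
  have tag : st.Tag s {1} := fun S v a => by
    by_cases h : Inv E (q.b1 E.η) S ∧ Sel E q S
    · rw [hp S v a h]
      refine ⟨fun ℓ g => mem_ev.2 (Or.inl g), fun ℓ g g' => ?_⟩
      obtain ⟨p, -, rfl⟩ := (mem_ev.1 g).resolve_left g'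
      exact ⟨rfl, mem_singleton_self _⟩
    · rw [hn S v a h]
      exact ⟨Subset.rfl, fun ℓ g g' => absurd g g'⟩
  refine ⟨st, ⟨fun S v a => ?_, tag, fun S v a h => ?_, fun S v a h hc x hx => ?_,
    fun S v a h => ?_, fun i hi _ S h v I hI => ?_, fun S v a c h _ g g' => ?_,
    fun S v a h _ x hx => ?_, fun S v a h _ o g g' => ?_⟩, fun S v a h h' => ?_⟩
  · by_cases h : Inv E (q.b1 E.η) S ∧ Sel E q S
    · rw [hp S v a h]
      refine ⟨union_subset_union_left (sdiff_subset.trans h.2.sg), fun v' hv => ?_⟩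
      rw [hp S v' a h]
      congr 1
      funext x
      unfold mask
      split_ifs with g
      · rw [hv x fun g' => (mem_union.1 g').elim (fun e => (mem_sdiff.1 g).2 (mem_sdiff.1 e).1)
          fun e => disjoint_left.1 h.1.go (mem_sdiff.1 g).1 e]
      · rfl
    · rw [hn S v a h]
      exact ⟨Subset.rfl, fun v' _ => hn S v' a h⟩
  · rw [hp S v a h]
    exact post h2 hE hq h.1 h.2 (ky_inj _) s
  · rw [hp S v a h] at hx ⊢
    simp only [out, St.close, St.O, mem_union, mem_sdiff, mem_inter] at hx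
    simp only [out, St.close, Wc]
    split_ifs with g
    · have g1 := (mem_sdiff.1 g).1
      rw [Wt, if_neg (disjoint_left.1 h.1.gΩ (mem_sdiff.1 g1).1), mask, if_pos g1, sgn]
    · refine hc x ?_
      simp only [St.O, mem_union, mem_sdiff] at g ⊢
      tauto
  · rw [hp S v a h]
    refine ⟨sdiff_subset.trans h.2.sg, Subset.rfl, fun x hx => ?_⟩
    have := @h.2.sg x
    simp only [out, St.close, St.O, mem_union, mem_sdiff, mem_inter] at hx ⊢
    tauto
  · obtain rfl := mem_singleton.1 hi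
    refine (pr_mono (B := fun z => ∀ x ∈ I,
      Bad E q cl S (fun y => (z.1 y).1) (ky z.2) x) fun z hz x hx => ?_).trans ?_
    · obtain ⟨g, g'⟩ := hz x hx
      rw [hp S _ _ h] at g
      obtain ⟨p, b, e⟩ := (mem_ev.1 g).resolve_left g'
      obtain rfl : p = x := congrArg (fun ℓ => ℓ.2.2) e
      refine b.congr fun y hy _ => ⟨?_, rfl⟩
      rw [mask, if_pos hy, mix,
        if_pos (show y ∈ S.U from mem_union_left _ (mem_sdiff.1 hy).1)]
    · exact pr_all h4 I (fun x => bl x (5 * q.A E.η d)) (fun w a => Bad E q cl S w (ky a))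
        (fun x hx y hy e => hI.disj (by
          have := hq.A_grow' hE
          unfold Par.rad
          omega) hx hy e)
        (fun x w a w' a' e b => b.congr fun y _ hy => by simp only [ky, e y hy, and_self])
        fun x => pr_bad h1 hE hq h.1 h.2 x (c1 x)
  · exact absurd (mem_singleton.1 ((tag S v a).2 _ g g').2) (by simp)
  · rw [hp S v a h] at hx ⊢
    refine (mem_union.1 hx).imp id fun g => ?_
    obtain ⟨p, b, y, hy, e⟩ := mem_J.1 (mem_inter.1 g).2
    refine ⟨(s, 1, p), mem_ev.2 (Or.inr ⟨p, b, rfl⟩), rfl, by simp, ?_⟩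
    have a1 := nm_tri p y x
    have a2 := c2 y x e
    have a3 := mem_bl.1 hy
    have a4 := (hq.D_one hE 2).trans (Par.OK.D_le_A hE)
    have a5 := hq.A_grow hE
    have a6 := hE.d1
    rw [nm_comm] at a3
    show nm (p - x) ≤ _
    generalize q.A E.η d = A at *
    nlinarith [Nat.le_mul_of_pos_left A a6, Nat.le_mul_of_pos_right d a4]
  · rw [hp S v a h] at g'
    exact absurd g g'
  · rw [hp S v a ⟨h, h'⟩]
    exact ⟨rfl, subset_union_left, rfl⟩

end Pool.Agent.P.MP_d0f69c_mp.XS
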