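import Pool.Agent.P.MP_d0f69c_mp.XS.IfG

/-!
Decay of the global closing flow and of its proxies at all times, and their closeness.
-/

set_option autoImplicit false

open Finset Real

namespace Pool.Agent.P.MP_d0f69c_mp.XS

namespace G1A

variable {d M : ℕ} [NeZero M] {E : Env d M} {q : Par} {S : St (Tor d M)} {J : Finset (Tor d M)}
  {ω : Tor d M → Bool} {κ : Tor d M → ℕ}

theorem th (h : GH E q S J ω κ) : (q.b1 E.η).θ ≤ 1 / 10 ^ 7 :=
  h.hq.θ_add h.hE (c := 1) (by norm_num)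

omit [NeZero M] in
theorem Zg_sub : S.Zg J ⊆ S.good := sdiff_subset.trans sdiff_subset

theorem Zp_sub (p : Tor d M) : Zp E q S J p ⊆ S.good := inter_subset_left.trans Zg_sub

theorem gok (h : GH E q S J ω κ) {X : Finset (Tor d M)} (hX : X ⊆ S.good) :
    GOK E.η S.H (Wc S.W ω X) :=
  h.inv.gok h.hE (by linarith [th h]) hX ω

theorem gok0 (h : GH E q S J ω κ) : GOK E.η S.H S.W := h.inv.gok0 h.hE (by linarith [th h])

theorem two' (h : GH E q S J ω κ) {x : Tor d M} (hx : x ∈ S.good) :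
    ‖sgn (ω x) - S.W x‖ ≤ 2 := by
  have h1 := (h.inv.opn x (S.good_sub hx)).1
  have h2 := norm_sub_le (sgn (ω x)) (S.W x)
  rw [norm_sgn] at h2
  linarith [th h]

theorem two (h : GH E q S J ω κ) {X : Finset (Tor d M)} (hX : X ⊆ S.good) :
    ∀ x ∈ X, ‖Wc S.W ω X x - S.W x‖ ≤ 2 := fun x hx => by
  rw [Wc_in hx]; exact two' h (hX hx)

theorem lam (h : GH E q S J ω κ) : 1 ≤ (q.P : ℝ) ^ 40 / E.η := by
  rw [le_div_iff₀ h.hE.η0]
  have h1 : (1 : ℝ) ≤ (q.P : ℝ) ^ 40 := one_le_pow₀ (h.hq.Pone h.hE)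
  linarith [h.hE.η1]

theorem opp (h : GH E q S J ω κ) (p : Tor d M) (t : ℕ) :
    OpLe (pre κ (Zp E q S J p) t) (Gg S ω κ (Zp E q S J p) t) ((q.P : ℝ) ^ 40 / E.η) := by
  rcases h.flow p with a | a
  · have e : pre κ (Zp E q S J p) t = ∅ := eq_empty_of_forall_notMem fun x hx => by
      have := mem_inter.1 (pre_sub t hx)
      exact (mem_sdiff.1 this.1).2 (a this.2)
    intro u
    rw [e]
    simp [nS]
  · exact (a.nrm t).sub (pre_sub t)

theorem locp (h : GH E q S J ω κ) (p : Tor d M) (t : ℕ) (u : Tor d M → ℂ) :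
    nS (pre κ (Zp E q S J p) t) u ≤ 3 * (q.P : ℝ) ^ 40 / E.η * nS (pre κ (Zp E q S J p) t)
      (u + ap (pre κ (Zp E q S J p) t)
        (fun x y => NW.GG S.H S.W x y * (Wg S ω κ (Zp E q S J p) t y - S.W y)) u) := by
  have hX : pre κ (Zp E q S J p) t ⊆ S.good := (pre_sub t).trans (Zp_sub p)
  rw [mul_div_assoc]
  exact locb (gok0 h).unit (gok h hX).unit (fun x hx => Wc_out hx) (two h hX) (lam h) (opp h p t) u

theorem locg (h : GH E q S J ω κ) (p : Tor d M) (t : ℕ) (u : Tor d M → ℂ)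
    (hu : ∀ x ∉ pre κ (S.Zg J) t ∩ bl p (q.D E.η 2), u x = 0) :
    nS (pre κ (S.Zg J) t) u ≤ 3 * (q.P : ℝ) ^ 40 / E.η * nS (pre κ (S.Zg J) t)
      (u + ap (pre κ (S.Zg J) t)
        (fun x y => NW.GG S.H S.W x y * (Wg S ω κ (S.Zg J) t y - S.W y)) u) := by
  have e : pre κ (Zp E q S J p) t = pre κ (S.Zg J) t ∩ bl p (5 * q.A E.η d) := pre_inter _ t
  have hs : pre κ (Zp E q S J p) t ⊆ pre κ (S.Zg J) t := e ▸ inter_subset_left
  have h0 : ∀ x ∈ pre κ (S.Zg J) t, x ∉ pre κ (Zp E q S J p) t → u x = 0 := fun x hx hn =>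
    hu x fun a => hn (by
      rw [e]
      have h1 := mem_bl.1 (mem_inter.1 a).2
      have h2 := Par.OK.D_le_A (q := q) h.hE
      exact mem_inter.2 ⟨hx, mem_bl.2 (by omega)⟩)
  rw [nS_supp hs h0, ap_supp hs _ h0]
  refine (locp h p t u).trans (mul_le_mul_of_nonneg_left ?_ ?_)
  · refine le_trans (le_of_eq (nS_congr fun x _ => ?_)) (nS_mono hs _)
    simp only [Pi.add_apply, ap]
    congr 1
    exact sum_congr rfl fun y hy => by rw [Wg, Wg, Wc_in hy, Wc_in (hs hy)]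
  · have := lam h
    rw [mul_div_assoc]
    linarith

theorem ct (hCT : S_CT) (h : GH E q S J ω κ) {X : Finset (Tor d M)} (hX : X ⊆ S.good)
    (hl : ∀ (p : Tor d M) (u : Tor d M → ℂ), (∀ x ∉ X ∩ bl p (q.D E.η 2), u x = 0) →
      nS X u ≤ 3 * (q.P : ℝ) ^ 40 / E.η *
        nS X (u + ap X (fun x y => NW.GG S.H S.W x y * (Wc S.W ω X y - S.W y)) u)) :
    Dec (NW.GG S.H (Wc S.W ω X)) S.O (q.Bi 2) (q.li E.η 2) :=
  hCT d M E q 1 S.H S.W (Wc S.W ω X) S.O X h.hE h.hq (by norm_num) (gok0 h).symm (gok0 h).unit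
    (gok h hX).unit (hX.trans S.good_sub) (fun _ hx => Wc_out hx) (two h hX)
    (h.inv.opLe h.hE (by linarith [th h])) h.inv.dec hl

theorem tail (hF : S_FAR) (h : GH E q S J ω κ) (x : Tor d M) {X : Finset (Tor d M)}
    (hX : ∀ w ∈ X, q.D E.η 2 < nm (w - x)) :
    ∑ w ∈ X, q.Bi 2 * exp (-(nm (w - x) : ℝ) / q.li E.η 2) ≤ q.τ := by
  refine le_trans ?_ ((hF d M E q h.hE h.hq).2 2 (by norm_num)).1
  have hl : (1 : ℝ) ≤ q.li E.η 2 := by exact_mod_cast h.hq.li_one h.hE 2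
  have hB := h.hq.Bi_le (i := 2) (by norm_num)
  calc ∑ w ∈ X, q.Bi 2 * exp (-(nm (w - x) : ℝ) / q.li E.η 2)
      ≤ ∑ w ∈ X, exp ((q.P : ℝ) ^ 6) * exp (-(nm (w - x) : ℝ) / (2 * q.li E.η 2)) *
          (1 + nm (w - x)) ^ 2 := by
        refine sum_le_sum fun w _ => ?_
        have h0 : (0 : ℝ) ≤ nm (w - x) := Nat.cast_nonneg _
        have h1 : exp (-(nm (w - x) : ℝ) / q.li E.η 2) ≤
            exp (-(nm (w - x) : ℝ) / (2 * q.li E.η 2)) := by
          rw [exp_le_exp, neg_div, neg_div, neg_le_neg_iff]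
          exact div_le_div_of_nonneg_left h0 (by linarith) (by linarith)
        have h2 : (1 : ℝ) ≤ (1 + nm (w - x)) ^ 2 := one_le_pow₀ (by linarith)
        exact le_trans (mul_le_mul hB h1 (exp_pos _).le (exp_pos _).le)
          (le_mul_of_one_le_right (by positivity) h2)
    _ = ∑ z ∈ X.map (Equiv.subRight x).toEmbedding,
          exp ((q.P : ℝ) ^ 6) * exp (-(nm z : ℝ) / (2 * q.li E.η 2)) * (1 + nm z) ^ 2 := by
        rw [sum_map]; rfl
    _ ≤ _ := sum_le_sum_of_subset_of_nonneg (fun z hz => by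
        obtain ⟨w, hw, rfl⟩ := mem_map.1 hz
        exact mem_filter.2 ⟨mem_univ _, hX w hw⟩) fun _ _ _ => by positivity

theorem num (h : GH E q S J ω κ) : 2 * q.Bi 2 * q.τ ≤ exp (-(q.P : ℝ) ^ 7 / 2) := by
  have hB := h.hq.Bi_le (i := 2) (by norm_num)
  have h1 : (1 : ℝ) ≤ (q.P : ℝ) ^ 6 := one_le_pow₀ (h.hq.Pone h.hE)
  have h2 : 2 ≤ exp ((q.P : ℝ) ^ 6) := by linarith [add_one_le_exp ((q.P : ℝ) ^ 6)]
  have h3 := h.hq.pow_lt h.hE (a := 6) (b := 7) (by norm_num) (c := 4) (by norm_num)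
  calc 2 * q.Bi 2 * q.τ ≤ exp ((q.P : ℝ) ^ 6) * exp ((q.P : ℝ) ^ 6) * q.τ :=
        mul_le_mul_of_nonneg_right (mul_le_mul h2 hB (by linarith [h.hq.Bi_one 2]) (exp_pos _).le)
          (exp_pos _).le
    _ ≤ _ := by
        rw [Par.τ, ← exp_add, ← exp_add, exp_le_exp]
        linarith

theorem cls (hF : S_FAR) (h : GH E q S J ω κ) (p : Tor d M) (t : ℕ)
    (hg : Dec (Gg S ω κ (S.Zg J) t) S.O (q.Bi 2) (q.li E.η 2))
    (hp : Dec (Gg S ω κ (Zp E q S J p) t) S.O (q.Bi 2) (q.li E.η 2)) (x z : Tor d M)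
    (hx : nm (x - p) ≤ 4 * q.A E.η d) :
    ‖Gg S ω κ (S.Zg J) t x z - Gg S ω κ (Zp E q S J p) t x z‖ ≤ exp (-(q.P : ℝ) ^ 7 / 2) := by
  have e : pre κ (Zp E q S J p) t = pre κ (S.Zg J) t ∩ bl p (5 * q.A E.η d) := pre_inter _ t
  have gG := gok h ((pre_sub (κ := κ) t).trans (Zg_sub (S := S) (J := J)))
  have gP := gok h ((pre_sub (κ := κ) t).trans (Zp_sub (E := E) (q := q) (S := S) (J := J) p))
  have hoff : ∀ w ∉ pre κ (S.Zg J) t \ bl p (5 * q.A E.η d),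
      Wg S ω κ (S.Zg J) t w = Wg S ω κ (Zp E q S J p) t w := fun w hw => by
    by_cases a : w ∈ pre κ (S.Zg J) t
    · have b : w ∈ pre κ (Zp E q S J p) t := by
        rw [e]
        exact mem_inter.2 ⟨a, by_contra fun c => hw (mem_sdiff.2 ⟨a, c⟩)⟩
      rw [Wg, Wg, Wc_in a, Wc_in b]
    · have b : w ∉ pre κ (Zp E q S J p) t := by
        rw [e]
        exact fun c => a (mem_inter.1 c).1
      rw [Wg, Wg, Wc_out a, Wc_out b]
  have r := GG_res gP.unit gG.unit hoff x z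
  have hB : 0 ≤ q.Bi 2 := by linarith [h.hq.Bi_one 2]
  rw [Gg, Gg, r, sub_sub_cancel_left, norm_neg]
  refine (norm_sum_le _ _).trans (le_trans ?_ (num h))
  refine le_trans ?_ (mul_le_mul_of_nonneg_left
    (tail hF h x (X := pre κ (S.Zg J) t \ bl p (5 * q.A E.η d)) fun w hw => ?_) (by positivity))
  · rw [mul_sum]
    refine sum_le_sum fun w hw => ?_
    obtain ⟨a, b⟩ := mem_sdiff.1 hw
    have wg : w ∈ S.good := Zg_sub (pre_sub t a)
    have c : w ∉ pre κ (Zp E q S J p) t := by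
      rw [e]
      exact fun c => b (mem_inter.1 c).2
    have h1 := hg w (S.good_sub wg) x
    have h2 : ‖Gg S ω κ (Zp E q S J p) t w z‖ ≤ q.Bi 2 :=
      (hp w (S.good_sub wg) z).trans (mul_le_of_le_one_right hB (exp_le_one_iff.2
        (div_nonpos_of_nonpos_of_nonneg (neg_nonpos.2 (Nat.cast_nonneg _)) (Nat.cast_nonneg _))))
    have h3 : ‖Wg S ω κ (S.Zg J) t w - Wg S ω κ (Zp E q S J p) t w‖ ≤ 2 := by
      rw [Wg, Wg, Wc_in a, Wc_out c]; exact two' h wg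
    rw [norm_mul, norm_mul, gG.sym x w, mul_comm]
    exact mul_le_mul (mul_le_mul h3 h2 (norm_nonneg _) zero_le_two) h1 (norm_nonneg _)
      (by positivity)
  · have h1 : ¬ nm (w - p) ≤ 5 * q.A E.η d := fun a => (mem_sdiff.1 hw).2 (mem_bl.2 a)
    have h2 := nm_tri w x p
    have h3 := Par.OK.D_le_A (q := q) h.hE
    omega

end G1A

theorem t_g1 (hCT : S_CT) (hF : S_FAR) : S_G1 := fun _ _ _ _ _ _ _ _ _ h => by
  have h1 := fun t => G1A.ct hCT h ((pre_sub t).trans G1A.Zg_sub) fun p u hu => G1A.locg h p t u hu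
  have h2 := fun p t => G1A.ct hCT h ((pre_sub t).trans (G1A.Zp_sub p)) fun _ u _ =>
    G1A.locp h p t u
  exact ⟨h1, h2, fun p t x z hx => G1A.cls hF h p t (h1 t) (h2 p t) x z hx⟩

end Pool.Agent.P.MP_d0f69c_mp.XS
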