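import Pool.Agent.P.MP_d0f69c_mp.XS.G2a

/-!
The pointwise bounds for the noise of one closing in the global flow.
-/

set_option autoImplicit false

open Finset Real

namespace Pool.Agent.P.MP_d0f69c_mp.XS

namespace G2

variable {d M : ℕ} [NeZero M] {E : Env d M} {q : Par} {S : St (Tor d M)} {J : Finset (Tor d M)}
  {ω : Tor d M → Bool} {κ : Tor d M → ℕ}

theorem θ7 (h : GH E q S J ω κ) : (q.b1 E.η).θ ≤ 1 / 10 ^ 7 :=
  h.hq.θ_add h.hE (by norm_num)

theorem dec_le {G : Matrix (Tor d M) (Tor d M) ℂ} {O : Finset (Tor d M)} {B : ℝ} {l : ℕ}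
    (h : Dec G O B l) (hB : 0 ≤ B) {x : Tor d M} (hx : x ∈ O) (y : Tor d M) : ‖G x y‖ ≤ B :=
  (h x hx y).trans (mul_le_of_le_one_right hB (exp_le_one_iff.2
    (div_nonpos_of_nonpos_of_nonneg (neg_nonpos.2 (Nat.cast_nonneg _)) (Nat.cast_nonneg _))))

theorem cl (h : GH E q S J ω κ) {Z : Finset (Tor d M)} (hZ : Z ⊆ S.good)
    (hD : ∀ t, Dec (Gg S ω κ Z t) S.O (q.Bi 2) (q.li E.η 2)) {v : Tor d M} (hv : v ∈ Z) :
    Cl E.η S.H (Wg S ω κ Z (κ v)) v (ω v) S.O (q.Bi 2) := by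
  have t7 := θ7 h
  have B0 := zero_le_one.trans (h.hq.Bi_one 2)
  have g : ∀ t, GOK E.η S.H (Wg S ω κ Z t) := fun t =>
    h.inv.gok h.hE (by linarith) ((pre_sub t).trans hZ) ω
  have e := Wc_succ (W := S.W) (ω := ω) h.inj hv
  have vO := S.good_sub (hZ hv)
  refine ⟨g _, e ▸ g (κ v + 1), fun z => ?_, fun z hz => ?_, vO, ?_,
    fun x hx y => dec_le (hD _) B0 hx y, fun x hx y => e ▸ dec_le (hD (κ v + 1)) B0 hx y⟩
  · by_cases a : z ∈ pre κ Z (κ v)
    · rw [aw_Wc_in a]; norm_num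
    · rw [aw_Wc_out a]
      by_cases c : z ∈ S.O
      · exact (h.inv.aw_half (by linarith) c).2
      · rw [h.inv.aw_zero c]; norm_num
  · rw [aw_Wc_out fun a => hz (S.good_sub (hZ (pre_sub _ a))), h.inv.aw_zero hz]
  · rw [Wg, Wc_out (not_mem_pre v)]
    linarith [(h.inv.opn v vO).1]

omit [NeZero M] in
theorem Zg_sub (S : St (Tor d M)) (J : Finset (Tor d M)) : S.Zg J ⊆ S.good :=
  sdiff_subset.trans sdiff_subset

theorem Zp_sub (p : Tor d M) : Zp E q S J p ⊆ S.good := inter_subset_left.trans (Zg_sub S J)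

theorem Wg_loc {p x : Tor d M} (hx : nm (x - p) ≤ 5 * q.A E.η d) (t : ℕ) :
    Wg S ω κ (Zp E q S J p) t x = Wg S ω κ (S.Zg J) t x := by
  simp only [Wg, Zp, pre_inter, Wc, mem_inter, mem_bl.2 hx, and_true]

theorem aw_loc {p x : Tor d M} (hx : nm (x - p) ≤ 5 * q.A E.η d) (t : ℕ) :
    aw E.η (Wg S ω κ (Zp E q S J p) t) x = aw E.η (Wg S ω κ (S.Zg J) t) x := by
  rw [aw, aw, Wg_loc hx]

theorem flow' (h : GH E q S J ω κ) {p v : Tor d M} (hv : v ∈ S.Zg J)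
    (hp : nm (v - p) ≤ 5 * q.A E.η d) :
    Flow E q S p (Zp E q S J p) ((S.sig \ J) ∩ bl p (5 * q.A E.η d)) ω κ :=
  (h.flow p).resolve_left fun a => (mem_sdiff.1 hv).2 (a (mem_bl.2 hp))

theorem far_env (hE : E.OK) (hq : q.OK E) (hF : S_FAR) (v : Tor d M) :
    ∑ z with q.D E.η 2 < nm (z - v), env q E.η (z - v) ≤ q.τ := by
  refine le_trans ?_ ((hF d M E q hE hq).2 2 (by norm_num)).1
  rw [sum_filter, sum_filter, ← Equiv.sum_comp (Equiv.addRight v)]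
  refine sum_le_sum fun z _ => ?_
  simp only [Equiv.coe_addRight, add_sub_cancel_right]
  split_ifs
  · have l0 : (0 : ℝ) < q.li E.η 2 := by exact_mod_cast hq.li_one hE 2
    have n0 : (0 : ℝ) ≤ nm z := Nat.cast_nonneg _
    refine le_trans (mul_le_mul (hq.Bi_le (by norm_num)) (exp_le_exp.2 ?_) (exp_pos _).le
      (exp_pos _).le) (le_mul_of_one_le_right (by positivity) (one_le_pow₀ (by linarith)))
    rw [neg_div, neg_div, neg_le_neg_iff]
    exact div_le_div_of_nonneg_left n0 l0 (by linarith)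
  · exact le_rfl

theorem env_row {G : Matrix (Tor d M) (Tor d M) ℂ} {O : Finset (Tor d M)}
    (h : Dec G O (q.Bi 2) (q.li E.η 2)) {v : Tor d M} (hv : v ∈ O) (x : Tor d M) :
    ‖G v x‖ ≤ env q E.η (x - v) := by
  rw [env, nm_comm]; exact h v hv x

theorem exp_big (hE : E.OK) (hq : q.OK E) {c : ℝ} (hc : c ≤ 10 ^ 9) : c ≤ exp ((q.P : ℝ) ^ 6) := by
  have := add_one_le_exp ((q.P : ℝ) ^ 6)
  have := hq.pow_lt hE (a := 0) (b := 6) (by norm_num) hc
  linarith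

theorem exp_cube (x : ℝ) (n : ℕ) : exp (n * x) = exp x ^ n := exp_nat_mul x n

/-- the degrees of the global flow and of a proxy are close -/
theorem deg_diff (h : GH E q S J ω κ) (hD : GD E q S J ω κ) (hF : S_FAR) {p v : Tor d M}
    (hv : v ∈ S.Zg J) (hp : nm (v - p) ≤ q.A E.η d) :
    |∑ z ∈ univ.erase v, Kk E.η (Wg S ω κ (S.Zg J) (κ v)) (Gg S ω κ (S.Zg J) (κ v)) v z -
      ∑ z ∈ univ.erase v, Kk E.η (Wg S ω κ (Zp E q S J p) (κ v))
        (Gg S ω κ (Zp E q S J p) (κ v)) v z| ≤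
      exp ((q.P : ℝ) ^ 6) ^ 3 * exp (-(q.P : ℝ) ^ 7 / 2) := by
  have hE := h.hE
  have hq := h.hq
  have hDA := Par.OK.D_le_A (q := q) hE
  have vp : v ∈ Zp E q S J p := mem_inter.2 ⟨hv, mem_bl.2 (by omega)⟩
  have c := cl h (Zg_sub S J) hD.dec hv
  have c' := cl h (Zp_sub p) (hD.decp p) vp
  have B1 := hq.Bi_one 2
  have BX := hq.Bi_le (i := 2) (by norm_num)
  set B := q.Bi 2 with hB
  set δ := exp (-(q.P : ℝ) ^ 7 / 2) with hδ
  set X := exp ((q.P : ℝ) ^ 6) with hX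
  have δ0 : 0 < δ := exp_pos _
  set f : Tor d M → ℝ := fun z =>
    |Kk E.η (Wg S ω κ (S.Zg J) (κ v)) (Gg S ω κ (S.Zg J) (κ v)) v z -
      Kk E.η (Wg S ω κ (Zp E q S J p) (κ v)) (Gg S ω κ (Zp E q S J p) (κ v)) v z| with hf
  have near : ∀ z ∈ bl v (q.D E.η 2), f z ≤ 8 * B * δ := fun z hz => by
    have a := nm_tri z v p
    rw [mem_bl] at hz
    have z5 : nm (z - p) ≤ 5 * q.A E.η d := by omega
    have v5 : nm (v - p) ≤ 5 * q.A E.η d := by omega
    simp only [hf, Kk, aw_loc z5, aw_loc v5]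
    exact kk_diff (c.g.a0 v) (c.a2 v) (c.g.a0 z) (c.a2 z) (c.bd v c.vO z) (c'.bd v c.vO z)
      (hD.cls p _ v z (by omega))
  have far : ∀ z, f z ≤ 4 * B * env q E.η (z - v) := fun z => by
    have e1 := env_row (hD.dec (κ v)) c.vO z
    have e2 := env_row (hD.decp p (κ v)) c.vO z
    have k1 := kk_le (c.g.a0 v) (c.a2 v) (c.g.a0 z) (c.a2 z) e1
    have k2 := kk_le (c'.g.a0 v) (c'.a2 v) (c'.g.a0 z) (c'.a2 z) e2
    have k3 := c.g.K0 v z
    have k4 := c'.g.K0 v z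
    have e0 := (norm_nonneg _).trans e1
    have eB : env q E.η (z - v) ≤ B := mul_le_of_le_one_right (by linarith) (exp_le_one_iff.2
      (div_nonpos_of_nonpos_of_nonneg (neg_nonpos.2 (Nat.cast_nonneg _)) (Nat.cast_nonneg _)))
    have k5 := mul_le_mul_of_nonneg_right eB e0
    simp only [hf, Kk] at k3 k4 ⊢
    rw [abs_le]
    constructor <;> nlinarith
  have s1 : ∑ z ∈ bl v (q.D E.η 2), f z ≤ X * (8 * B * δ) := by
    refine (sum_le_card_nsmul _ _ _ near).trans ?_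
    rw [card_ball, nsmul_eq_mul]
    refine mul_le_mul_of_nonneg_right (le_trans ?_ ((hF d M E q hE hq).1.trans
      (exp_le_exp.2 (hq.pow_le hE (by norm_num))))) (by positivity)
    have := hq.D_mono hE (i := 2) (j := 3) (by norm_num)
    exact_mod_cast vol_mono (by omega)
  have s2 : ∑ z with q.D E.η 2 < nm (z - v), f z ≤ 4 * B * δ := by
    refine (sum_le_sum fun z _ => far z).trans ?_
    rw [← mul_sum]
    refine mul_le_mul_of_nonneg_left ((far_env hE hq hF v).trans (exp_le_exp.2 ?_)) (by positivity)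
    have : 0 ≤ (q.P : ℝ) ^ 7 := by positivity
    linarith
  have s3 : ∑ z ∈ univ.erase v, f z ≤ X * (8 * B * δ) + 4 * B * δ := by
    refine (sum_le_sum_of_subset_of_nonneg (erase_subset v univ) fun z _ _ => abs_nonneg _).trans ?_
    rw [← sum_filter_add_sum_filter_not univ (fun z => nm (z - v) ≤ q.D E.η 2)]
    simp only [not_le]
    exact add_le_add s1 s2
  rw [← sum_sub_distrib]
  refine ((abs_sum_le_sum_abs _ _).trans s3).trans ?_
  have X1 : 12 ≤ X := exp_big hE hq (by norm_num)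
  have a1 : B * δ ≤ X * δ := mul_le_mul_of_nonneg_right BX δ0.le
  have a2 : 0 ≤ X * δ := by positivity
  have a3 : X * (B * δ) ≤ X * (X * δ) := mul_le_mul_of_nonneg_left a1 (by linarith)
  have a4 : X * δ ≤ X * (X * δ) := le_mul_of_one_le_left a2 (by linarith)
  have a5 : 12 * (X * (X * δ)) ≤ X * (X * (X * δ)) :=
    mul_le_mul_of_nonneg_right X1 (by positivity)
  nlinarith

/-- small numbers -/
theorem small_exp (hE : E.OK) (hq : q.OK E) {n : ℕ} (hn : n ≤ 100) :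
    exp ((q.P : ℝ) ^ 6) ^ n * exp (-(q.P : ℝ) ^ 7 / 2) ≤ exp (-(q.P : ℝ) ^ 7 / 4) := by
  rw [← exp_cube, ← exp_add, exp_le_exp]
  have h1 : (n : ℝ) ≤ 100 := by exact_mod_cast hn
  have := hq.pow_lt hE (a := 6) (b := 7) (c := 4 * n) (by norm_num) (by linarith)
  linarith

theorem small_exp' (hE : E.OK) (hq : q.OK E) : exp (-(q.P : ℝ) ^ 7 / 4) ≤ 1 / 20 := by
  have h1 := hq.pow_lt hE (a := 0) (b := 7) (c := 80) (by norm_num) (by norm_num)
  have h2 := add_one_le_exp ((q.P : ℝ) ^ 7 / 4)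
  rw [neg_div, exp_neg, one_div]
  exact inv_anti₀ (by norm_num) (by linarith)

theorem mis10 (h : GH E q S J ω κ) (hD : GD E q S J ω κ) {v : Tor d M} (hv : v ∈ S.Zg J) :
    ‖Gg S ω κ (S.Zg J) (κ v) v v - phi (Wg S ω κ (S.Zg J) (κ v) v)‖ ≤ 1 / 10 := by
  have hE := h.hE
  have hq := h.hq
  have n0 := nm_self v
  have f := flow' h hv (p := v) (by omega)
  have h1 := f.mis (κ v) v (mem_sdiff.2 ⟨mem_union_left _ (mem_inter.2 ⟨hv, self_bl _ _⟩),
    not_mem_pre v⟩)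
  have h2 := hD.cls v (κ v) v v (by omega)
  have h3 : exp (-(q.P : ℝ) ^ 7 / 2) ≤ 1 / 20 := by
    have := (small_exp hE hq (n := 0) (by norm_num)).trans (small_exp' hE hq)
    rwa [pow_zero, one_mul] at this
  have h4 : q.μ * (q.P : ℝ) ^ 39 ≤ 1 / 10 ^ 8 := by
    have a := hq.μ_le.trans hq.J2
    rw [le_div_iff₀ (pow_pos (hq.Ppos hE) _)] at a
    exact (mul_le_mul_of_nonneg_left (hq.pow_le hE (by norm_num)) hq.μpos.le).trans
      (a.trans hE.η1)
  have h5 := norm_add_le (Gg S ω κ (S.Zg J) (κ v) v v - Gg S ω κ (Zp E q S J v) (κ v) v v)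
    (Gg S ω κ (Zp E q S J v) (κ v) v v - phi (S.W v))
  rw [sub_add_sub_cancel] at h5
  rw [Wg, Wc_out (not_mem_pre v)]
  linarith

theorem degp (h : GH E q S J ω κ) {p v : Tor d M} (hv : v ∈ S.Zg J)
    (hp : nm (v - p) ≤ 5 * q.A E.η d) :
    1 / 2 ≤ ∑ z ∈ univ.erase v, Kk E.η (Wg S ω κ (Zp E q S J p) (κ v))
      (Gg S ω κ (Zp E q S J p) (κ v)) v z :=
  (flow' h hv hp).deg (κ v) v (mem_sdiff.2 ⟨mem_inter.2 ⟨hv, mem_bl.2 hp⟩, not_mem_pre v⟩)

end G2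

open G2

theorem t_g2 (hF : S_FAR) : S_G2 := by
  intro d M _ E q S J ω κ h hD
  have hE := h.hE
  have hq := h.hq
  have hDA := Par.OK.D_le_A (q := q) hE
  have B1 := hq.Bi_one 2
  have BX := hq.Bi_le (i := 2) (by norm_num)
  have X1 : 400 ≤ exp ((q.P : ℝ) ^ 6) := exp_big hE hq (by norm_num)
  have deg : ∀ v ∈ S.Zg J, 1 / 4 ≤ ∑ z ∈ univ.erase v,
      Kk E.η (Wg S ω κ (S.Zg J) (κ v)) (Gg S ω κ (S.Zg J) (κ v)) v z := fun v hv => by
    have n0 := nm_self v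
    have h1 := degp h hv (p := v) (by omega)
    have h2 := (deg_diff h hD hF hv (p := v) (by omega)).trans
      ((small_exp hE hq (by norm_num)).trans (small_exp' hE hq))
    linarith [(abs_le.1 h2).1]
  have e3 : 80 * q.Bi 2 ^ 2 ≤ exp (3 * (q.P : ℝ) ^ 6) := by
    have a := exp_cube ((q.P : ℝ) ^ 6) 3
    rw [Nat.cast_ofNat] at a
    rw [a, pow_succ' _ 2]
    exact mul_le_mul (by linarith) (pow_le_pow_left₀ (by linarith) BX 2) (by positivity)
      (by positivity)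
  have e0 : ∀ x y : Tor d M, 0 ≤ env q E.η x * env q E.η y := fun x y => by
    unfold env; positivity
  have δ0 := exp_pos (-(q.P : ℝ) ^ 7 / 2)
  have b3 := pow_le_pow_left₀ (by linarith) BX 3
  have b4 := pow_le_pow_left₀ (by linarith) BX 4
  have fin : 272 * q.Bi 2 ^ 3 * exp (-(q.P : ℝ) ^ 7 / 2) + 128 * q.Bi 2 ^ 4 *
      (exp ((q.P : ℝ) ^ 6) ^ 3 * exp (-(q.P : ℝ) ^ 7 / 2)) ≤ exp (-(q.P : ℝ) ^ 7 / 4) := by
    refine le_trans ?_ (small_exp hE hq (n := 8) (by norm_num))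
    generalize exp ((q.P : ℝ) ^ 6) = X at *
    generalize exp (-(q.P : ℝ) ^ 7 / 2) = δ at *
    have a1 : X ^ 3 ≤ X ^ 7 := pow_le_pow_right₀ (by linarith) (by norm_num)
    have a2 : q.Bi 2 ^ 4 * X ^ 3 ≤ X ^ 4 * X ^ 3 := mul_le_mul_of_nonneg_right b4 (by positivity)
    have a3 : 400 * X ^ 7 ≤ X * X ^ 7 := mul_le_mul_of_nonneg_right X1 (by positivity)
    have a4 : 272 * q.Bi 2 ^ 3 + 128 * (q.Bi 2 ^ 4 * X ^ 3) ≤ X ^ 8 := by nlinarith
    nlinarith [mul_le_mul_of_nonneg_right a4 δ0.le]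
  refine ⟨deg, fun v hv x y hx hy => ?_, fun v hv x xO y _ hx hy => ?_,
    fun p v hv x hx y hy => ?_, fun p v hv x hx y hy => ?_⟩
  · have c := cl h (Zg_sub S J) hD.dec hv
    exact (c.kb B1 (mis10 h hD hv) (deg v hv) hx hy (env_row (hD.dec _) c.vO x)
      (env_row (hD.dec _) c.vO y)).trans (mul_le_mul_of_nonneg_right e3 (e0 _ _))
  · have c := cl h (Zg_sub S J) hD.dec hv
    exact (c.ab B1 (mis10 h hD hv) xO hx hy (env_row (hD.dec _) c.vO x)
      (env_row (hD.dec _) c.vO y)).trans (mul_le_mul_of_nonneg_right e3 (e0 _ _))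
  all_goals
    obtain ⟨hv, hp⟩ := mem_inter.1 hv
    obtain ⟨hx, hx'⟩ := mem_erase.1 hx
    obtain ⟨hy, hy'⟩ := mem_erase.1 hy
    rw [mem_bl] at hp
    have vp : v ∈ Zp E q S J p := mem_inter.2 ⟨hv, mem_bl.2 (by omega)⟩
    have c := cl h (Zg_sub S J) hD.dec hv
    have c' := cl h (Zp_sub p) (hD.decp p) vp
    have tx := nm_tri x v p
    have ty := nm_tri y v p
    have c3 := hD.cls p (κ v + 1) x y
    simp only [Gg, Wg, Wc_succ h.inj hv, Wc_succ h.inj vp] at c3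
  · rw [mem_bl] at hx' hy'
    exact (c.kc c' B1 δ0.le (deg v hv) (degp h hv (by omega)) (deg_diff h hD hF hv hp) hx hy
      (aw_loc (by omega) _) (aw_loc (by omega) _) (aw_loc (by omega) _)
      (fun z => hD.cls p _ x z (by omega)) (hD.cls p _ v y (by omega)) (c3 (by omega))).trans fin
  · have nx := mem_bl.1 (mem_inter.1 hx').2
    refine (c.ac c' B1 δ0.le (mem_inter.1 hx').1 hx hy (Wg_loc (by omega) _)
      (fun z => hD.cls p _ x z (by omega)) (hD.cls p _ v y (by omega)) (c3 (by omega))).trans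
      (le_trans ?_ fin)
    have : 0 ≤ q.Bi 2 ^ 3 * exp (-(q.P : ℝ) ^ 7 / 2) := by positivity
    have : 0 ≤ q.Bi 2 ^ 4 * (exp ((q.P : ℝ) ^ 6) ^ 3 * exp (-(q.P : ℝ) ^ 7 / 2)) := by positivity
    nlinarith

end Pool.Agent.P.MP_d0f69c_mp.XS
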