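import Pool.Agent.P.MP_d0f69c_mp.XS.IfG

/-!
Gluing block: the far pairs of the noise of the forms.
-/

set_option autoImplicit false

open Finset Real

namespace Pool.Agent.P.MP_d0f69c_mp.XS

namespace G3A

theorem one {ι : Type} [Fintype ι] [DecidableEq ι] {U B : Finset ι} (hB : B ⊆ U) (D : ι → ι → ℝ)
    (f g F : ι → ℝ) (C c : ℝ) (hC : 0 ≤ C) (hg : ∀ x, 0 ≤ g x) (hf : ∀ x, 0 ≤ f x)
    (hfg : ∀ x ∈ U, x ∉ B → g x ≤ f x) (hD : ∀ x ∈ U, ∀ y ∈ U, |D x y| ≤ C * (g x * g y)) :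
    |En U D F - En B D F| ≤
      C * ∑ x, ∑ y, (f x * g y + g x * f y) * ((F x - c) ^ 2 + (F y - c) ^ 2) := by
  have e : ∑ x ∈ B, ∑ y ∈ B, D x y * (F x - F y) ^ 2 =
      ∑ x ∈ U, ∑ y ∈ U, if x ∈ B ∧ y ∈ B then D x y * (F x - F y) ^ 2 else 0 := by
    symm
    rw [← sum_subset hB fun x _ hx => sum_eq_zero fun y _ => if_neg fun h => hx h.1]
    refine sum_congr rfl fun x hx => ?_
    rw [← sum_subset hB fun y _ hy => if_neg fun h => hy h.2]
    exact sum_congr rfl fun y hy => if_pos ⟨hx, hy⟩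
  have t0 : ∀ x y, 0 ≤ (f x * g y + g x * f y) * ((F x - c) ^ 2 + (F y - c) ^ 2) := fun x y =>
    mul_nonneg (add_nonneg (mul_nonneg (hf x) (hg y)) (mul_nonneg (hg x) (hf y))) (by positivity)
  rw [En, En, e, ← sub_div, abs_div, abs_two, div_le_iff₀ two_pos, ← sum_sub_distrib]
  refine (abs_sum_le_sum_abs _ _).trans ?_
  rw [mul_sum, sum_mul]
  refine le_trans (sum_le_sum fun x hx => ?_) (sum_le_sum_of_subset_of_nonneg (subset_univ U)
    fun x _ _ => mul_nonneg (mul_nonneg hC (sum_nonneg fun y _ => t0 x y)) zero_le_two)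
  rw [← sum_sub_distrib]
  refine (abs_sum_le_sum_abs _ _).trans ?_
  rw [mul_sum, sum_mul]
  refine le_trans (sum_le_sum fun y hy => ?_) (sum_le_sum_of_subset_of_nonneg (subset_univ U)
    fun y _ _ => mul_nonneg (mul_nonneg hC (t0 x y)) zero_le_two)
  split_ifs with h
  · rw [sub_self, abs_zero]
    exact mul_nonneg (mul_nonneg hC (t0 x y)) zero_le_two
  · rw [sub_zero, abs_mul, abs_of_nonneg (sq_nonneg (F x - F y))]
    have a : g x * g y ≤ f x * g y + g x * f y := by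
      rcases not_and_or.1 h with h | h
      · exact le_add_of_le_of_nonneg (mul_le_mul_of_nonneg_right (hfg x hx h) (hg y))
          (mul_nonneg (hg x) (hf y))
      · exact le_add_of_nonneg_of_le (mul_nonneg (hf x) (hg y))
          (mul_le_mul_of_nonneg_left (hfg y hy h) (hg x))
    have b : (F x - F y) ^ 2 ≤ ((F x - c) ^ 2 + (F y - c) ^ 2) * 2 := by
      nlinarith [sq_nonneg (F x + F y - 2 * c)]
    calc |D x y| * (F x - F y) ^ 2
        ≤ C * (f x * g y + g x * f y) * (((F x - c) ^ 2 + (F y - c) ^ 2) * 2) :=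
          mul_le_mul ((hD x hx y hy).trans (mul_le_mul_of_nonneg_left a hC)) b (sq_nonneg _)
            (mul_nonneg hC ((mul_nonneg (hg x) (hg y)).trans a))
      _ = _ := by ring

theorem two {ι : Type} [Fintype ι] [AddCommGroup ι] (f g s F : ι → ℝ) (N : ℝ) (hN : 0 ≤ N)
    (hg : ∀ x, 0 ≤ g x) (hf : ∀ x, 0 ≤ f x) (hs : ∀ x, 1 ≤ s x)
    (hF : ∀ h, ∑ v, (F (v + h) - F v) ^ 2 ≤ s h * N) :
    ∑ v, ∑ x, ∑ y, (f (x - v) * g (y - v) + g (x - v) * f (y - v)) *
      ((F x - F v) ^ 2 + (F y - F v) ^ 2) ≤ 4 * N * ((∑ h, f h * s h) * ∑ h, g h * s h) := by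
  have e : ∀ v, ∑ x, ∑ y, (f (x - v) * g (y - v) + g (x - v) * f (y - v)) *
      ((F x - F v) ^ 2 + (F y - F v) ^ 2) = ∑ h, ∑ k, (f h * g k + g h * f k) *
      ((F (v + h) - F v) ^ 2 + (F (v + k) - F v) ^ 2) := fun v => by
    symm
    refine Fintype.sum_equiv (Equiv.addLeft v) _ _ fun h => ?_
    refine Fintype.sum_equiv (Equiv.addLeft v) _ _ fun k => ?_
    simp
  simp only [e]
  rw [sum_comm]
  calc ∑ h, ∑ v, ∑ k, (f h * g k + g h * f k) * ((F (v + h) - F v) ^ 2 + (F (v + k) - F v) ^ 2)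
      ≤ ∑ h, ∑ k, 2 * N * (f h * s h * (g k * s k) + g h * s h * (f k * s k)) := by
        refine sum_le_sum fun h _ => ?_
        rw [sum_comm]
        refine sum_le_sum fun k _ => ?_
        rw [← mul_sum, sum_add_distrib]
        have a : s h + s k ≤ 2 * (s h * s k) := by nlinarith [hs h, hs k]
        have b := mul_le_mul_of_nonneg_right a hN
        calc _ ≤ (f h * g k + g h * f k) * (2 * (s h * s k) * N) :=
              mul_le_mul_of_nonneg_left (by linarith [hF h, hF k])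
                (add_nonneg (mul_nonneg (hf h) (hg k)) (mul_nonneg (hg h) (hf k)))
          _ = _ := by ring
    _ = _ := by
        simp only [← mul_sum, sum_add_distrib, ← sum_mul]
        ring

end G3A

theorem t_g3 (hF : S_FAR) : S_G3 := by
  intro d M _ E q S J ω κ H G F
  have hE := H.hE
  have hq := H.hq
  have hP := hq.Ppos hE
  have hN : 0 ≤ NF E.p F := NF_nonneg hE.ref.p0 F
  obtain ⟨far, h | tot⟩ := (hF d M E q hE hq).2 2 (by norm_num)
  · have e : ∀ v : Tor d M, bl v (q.D E.η 2) = univ := fun v => ball_tn_univ (by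
      have := hq.l_le_li hE 2
      have := hq.li_le_D hE 2
      omega) v
    simp only [Y5, e, sub_self, abs_zero, sum_const_zero]
    positivity
  have g0 : ∀ z : Tor d M, 0 ≤ env q E.η z := fun z =>
    mul_nonneg (zero_le_one.trans (hq.Bi_one 2)) (exp_pos _).le
  have g1 : ∀ z : Tor d M,
      env q E.η z ≤ exp ((q.P : ℝ) ^ 6) * exp (-(nm z : ℝ) / (2 * q.li E.η 2)) := fun z => by
    refine mul_le_mul (hq.Bi_le (by norm_num)) (exp_le_exp.2 ?_) (exp_pos _).le (exp_pos _).le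
    have : (1 : ℝ) ≤ q.li E.η 2 := by exact_mod_cast hq.li_one hE 2
    rw [neg_div, neg_div, neg_le_neg_iff]
    exact div_le_div_of_nonneg_left (Nat.cast_nonneg _) (by linarith) (by linarith)
  set f : Tor d M → ℝ := fun z => if q.D E.η 2 < nm z then env q E.η z else 0 with hf
  have f0 : ∀ z, 0 ≤ f z := fun z => by
    simp only [hf]; split_ifs; exacts [g0 z, le_rfl]
  have s1 : ∀ z : Tor d M, (1 : ℝ) ≤ (1 + nm z) ^ 2 := fun z =>
    one_le_pow₀ (le_add_of_nonneg_right (Nat.cast_nonneg _))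
  have c1 := hE.ref.c1
  have k2 := G3A.two f (env q E.η) (fun z => (1 + nm z) ^ 2) F (E.CS * NF E.p F)
    (by positivity) g0 f0 s1 fun h => by
      refine (hE.ref.shift h F).trans ?_
      have l1 : (1 : ℝ) ≤ E.l0 := by exact_mod_cast hE.ref.l1
      have a : (nm h : ℝ) ^ 2 / (E.l0 : ℝ) ^ 2 ≤ (nm h : ℝ) ^ 2 :=
        div_le_self (sq_nonneg _) (one_le_pow₀ l1)
      have b : 1 + (nm h : ℝ) ^ 2 / (E.l0 : ℝ) ^ 2 ≤ (1 + nm h) ^ 2 := by
        nlinarith [(Nat.cast_nonneg (nm h) : (0 : ℝ) ≤ _)]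
      calc _ = (1 + (nm h : ℝ) ^ 2 / (E.l0 : ℝ) ^ 2) * (E.CS * NF E.p F) := by ring
        _ ≤ _ := mul_le_mul_of_nonneg_right b (by positivity)
  have k3 : ∑ h, f h * (1 + nm h) ^ 2 ≤ q.τ := by
    refine le_trans ?_ far
    rw [sum_filter]
    refine sum_le_sum fun z _ => ?_
    simp only [hf]
    split_ifs
    · exact mul_le_mul_of_nonneg_right (g1 z) (sq_nonneg _)
    · simp
  have k4 : ∑ h : Tor d M, env q E.η h * (1 + nm h) ^ 2 ≤
      exp ((q.P : ℝ) ^ 6) * exp ((q.P : ℝ) ^ 6) := by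
    refine le_trans ?_ (mul_le_mul_of_nonneg_left (tot.trans (exp_le_exp.2
      (hq.pow_lt hE (by norm_num) (by norm_num)))) (exp_pos _).le)
    rw [mul_sum]
    exact sum_le_sum fun z _ => (mul_le_mul_of_nonneg_right (g1 z) (sq_nonneg _)).trans_eq
      (mul_assoc _ _ _)
  have k5 : 4 * E.CS * (q.P : ℝ) ^ 3 ≤ exp ((q.P : ℝ) ^ 6) := by
    have a : 4 * E.CS ≤ q.P := by nlinarith [hq.CS_le hE]
    have b := mul_le_mul_of_nonneg_right a (pow_pos hP 3).le
    have c := hq.pow_le hE (show 4 ≤ 6 by norm_num)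
    have e := add_one_le_exp ((q.P : ℝ) ^ 6)
    nlinarith
  have k6 := hq.τ_mul hE (c := 6) (c' := 0) (by norm_num)
  rw [zero_mul, neg_zero, exp_zero] at k6
  have k7 : exp (6 * (q.P : ℝ) ^ 6) = exp (3 * (q.P : ℝ) ^ 6) *
      (exp ((q.P : ℝ) ^ 6) * exp ((q.P : ℝ) ^ 6)) * exp ((q.P : ℝ) ^ 6) := by
    simp only [← exp_add]; congr 1; ring
  have τ0 := Par.OK.τpos q
  calc _ ≤ ∑ v, exp (3 * (q.P : ℝ) ^ 6) * ∑ x, ∑ y,
        (f (x - v) * env q E.η (y - v) + env q E.η (x - v) * f (y - v)) *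
          ((F x - F v) ^ 2 + (F y - F v) ^ 2) := by
        refine le_trans (sum_le_sum fun v hv => ?_) (sum_le_sum_of_subset_of_nonneg
          (subset_univ (S.Zg J)) fun v _ _ => mul_nonneg (exp_pos _).le (sum_nonneg fun x _ =>
            sum_nonneg fun y _ => mul_nonneg (add_nonneg (mul_nonneg (f0 _) (g0 _))
              (mul_nonneg (g0 _) (f0 _))) (by positivity)))
        refine G3A.one (erase_subset_erase _ (subset_univ _)) _ (fun x => f (x - v))
          (fun x => env q E.η (x - v)) F _ (F v) (exp_pos _).le (fun _ => g0 _) (fun _ => f0 _)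
          (fun x hx hn => ?_) fun x hx y hy => G.kb v hv x y (mem_erase.1 hx).1 (mem_erase.1 hy).1
        simp only [hf]
        rw [if_pos (not_le.1 fun h => hn (mem_erase.2 ⟨(mem_erase.1 hx).1, mem_bl.2 h⟩))]
    _ ≤ exp (3 * (q.P : ℝ) ^ 6) * (4 * (E.CS * NF E.p F) *
        (q.τ * (exp ((q.P : ℝ) ^ 6) * exp ((q.P : ℝ) ^ 6)))) := by
        rw [← mul_sum]
        refine mul_le_mul_of_nonneg_left (k2.trans (mul_le_mul_of_nonneg_left
          (mul_le_mul k3 k4 (sum_nonneg fun z _ => mul_nonneg (g0 z) (sq_nonneg _)) τ0.le)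
          (by positivity))) (exp_pos _).le
    _ = q.τ * (exp (3 * (q.P : ℝ) ^ 6) * (exp ((q.P : ℝ) ^ 6) * exp ((q.P : ℝ) ^ 6)) *
        (4 * E.CS * (q.P : ℝ) ^ 3)) * (1 / (q.P : ℝ) ^ 3 * NF E.p F) := by
        field_simp
    _ ≤ _ := by
        refine mul_le_of_le_one_left (by positivity) (le_trans ?_ k6)
        rw [k7]
        exact mul_le_mul_of_nonneg_left (mul_le_mul_of_nonneg_left k5 (by positivity)) τ0.le

end Pool.Agent.P.MP_d0f69c_mp.XS
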