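import Pool.Agent.P.MP_d0f69c_mp.XS.IfG

/-!
Gluing, forms, near pairs.
-/

set_option autoImplicit false

open Finset Real

namespace Pool.Agent.P.MP_d0f69c_mp.XS

namespace G4x

theorem En_diff {T : Type} [Fintype T] [DecidableEq T] {S B : Finset T} (hS : S ⊆ B)
    {K K' : T → T → ℝ} {ε c : ℝ} (hε : 0 ≤ ε) (h : ∀ x ∈ S, ∀ y ∈ S, |K x y - K' x y| ≤ ε)
    {F φ : T → ℝ} (hφ : ∀ x ∈ B, φ x = F x - c) (v : T) :
    |En S K F - En S K' φ| ≤ 2 * ε * B.card * ∑ x ∈ B, (F x - F v) ^ 2 := by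
  have h1 : En S K F - En S K' φ = (∑ x ∈ S, ∑ y ∈ S, (K x y - K' x y) * (F x - F y) ^ 2) / 2 := by
    rw [En, En, ← sub_div, ← sum_sub_distrib]
    refine congrArg (· / 2) (sum_congr rfl fun x hx => ?_)
    rw [← sum_sub_distrib]
    refine sum_congr rfl fun y hy => ?_
    rw [hφ x (hS hx), hφ y (hS hy)]
    ring
  have h2 : |∑ x ∈ S, ∑ y ∈ S, (K x y - K' x y) * (F x - F y) ^ 2| ≤
      ∑ x ∈ B, ∑ y ∈ B, (2 * ε * (F x - F v) ^ 2 + 2 * ε * (F y - F v) ^ 2) := by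
    refine (abs_sum_le_sum_abs _ _).trans ((sum_le_sum fun x hx => ?_).trans
      (sum_le_sum_of_subset_of_nonneg hS fun x _ _ => by positivity))
    refine (abs_sum_le_sum_abs _ _).trans ((sum_le_sum fun y hy => ?_).trans
      (sum_le_sum_of_subset_of_nonneg hS fun x _ _ => by positivity))
    rw [abs_mul, abs_sq]
    refine (mul_le_mul_of_nonneg_right (h x hx y hy) (sq_nonneg _)).trans ?_
    nlinarith [mul_nonneg hε (sq_nonneg (F x + F y - 2 * F v))]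
  simp only [sum_add_distrib, sum_const, nsmul_eq_mul, ← mul_sum] at h2
  rw [h1, abs_div, abs_two]
  linarith

variable {d M : ℕ} [NeZero M]

theorem succ_le_vl (hd : 1 ≤ d) (h : Tor d M) : nm h + 1 ≤ vl d M (nm h) := by
  have h1 := tn_le_half h
  have h2 := NeZero.pos M
  rw [vl, vol_tn]
  refine le_trans ?_ (Nat.le_self_pow (by omega) _)
  change tn d M h + 1 ≤ min (2 * tn d M h + 1) M
  omega

theorem sum_near {E : Env d M} (hE : E.OK) (D : ℕ) (F : Tor d M → ℝ) :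
    ∑ v, ∑ x ∈ bl v D, (F x - F v) ^ 2 ≤ (vl d M D : ℝ) ^ 3 * E.CS * NF E.p F := by
  have hN := NF_nonneg hE.ref.p0 F
  have hC := hE.ref.c1
  simp only [fun v => sum_ball (nm := tn d M) v D fun x => (F x - F v) ^ 2]
  rw [sum_comm]
  refine (sum_le_card_nsmul _ _ (E.CS * (vl d M D : ℝ) ^ 2 * NF E.p F) fun h hh => ?_).trans_eq ?_
  · refine (hE.ref.shift h F).trans (mul_le_mul_of_nonneg_right
      (mul_le_mul_of_nonneg_left ?_ (by linarith)) hN)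
    have h1 : (nm h : ℝ) + 1 ≤ vl d M D := by
      exact_mod_cast (succ_le_vl hE.d1 h).trans (vol_mono (by simpa using mem_bl.1 hh))
    have h2 : (1 : ℝ) ≤ E.l0 := by exact_mod_cast hE.ref.l1
    have h3 : (nm h : ℝ) ^ 2 / (E.l0 : ℝ) ^ 2 ≤ (nm h : ℝ) ^ 2 :=
      div_le_self (sq_nonneg _) (one_le_pow₀ h2)
    have h4 : (0 : ℝ) ≤ nm h := Nat.cast_nonneg _
    nlinarith
  · rw [card_ball, nsmul_eq_mul]
    ring

theorem num {E : Env d M} {q : Par} (hE : E.OK) (hq : q.OK E) {W : ℝ} (h0 : 0 ≤ W)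
    (hW : W ≤ exp ((q.P : ℝ) ^ 2)) :
    2 * exp (-(q.P : ℝ) ^ 7 / 4) * W * (W ^ 3 * E.CS) ≤ 1 / (q.P : ℝ) ^ 3 := by
  have hP := hq.Ppos hE
  have hC := hE.ref.c1
  have h1 : E.CS ≤ q.P := by nlinarith [hq.CS_le hE]
  have h2 : W ^ 4 ≤ exp (4 * (q.P : ℝ) ^ 2) := by
    rw [show (4 : ℝ) = (4 : ℕ) by norm_num, exp_nat_mul]
    exact pow_le_pow_left₀ h0 hW 4
  have h3 : 2 * (q.P : ℝ) ^ 4 ≤ exp (2 * (q.P : ℝ) ^ 2) := by
    nlinarith [quadratic_le_exp_of_nonneg (show 0 ≤ 2 * (q.P : ℝ) ^ 2 by positivity),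
      sq_nonneg (q.P : ℝ)]
  have h4 : exp (-(q.P : ℝ) ^ 7 / 4) * (exp (2 * (q.P : ℝ) ^ 2) * exp (4 * (q.P : ℝ) ^ 2)) ≤ 1 := by
    rw [← exp_add, ← exp_add, exp_le_one_iff]
    linarith [hq.pow_lt hE (show 2 < 7 by norm_num) (show (24 : ℝ) ≤ 10 ^ 9 by norm_num)]
  rw [le_div_iff₀ (by positivity)]
  calc _ = exp (-(q.P : ℝ) ^ 7 / 4) * (2 * (E.CS * (q.P : ℝ) ^ 3) * W ^ 4) := by ring
    _ ≤ exp (-(q.P : ℝ) ^ 7 / 4) * (2 * (q.P * (q.P : ℝ) ^ 3) * exp (4 * (q.P : ℝ) ^ 2)) := by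
      gcongr
    _ ≤ _ := by
      refine le_trans ?_ h4
      rw [← pow_succ']
      gcongr

end G4x

open G4x in
theorem t_g4 (hF : S_FAR) (hL : S_LOCI) : S_G4 := by
  intro d M _ E q S J ω κ h g F
  have hE := h.hE
  have hq := h.hq
  have hP := hq.Ppos hE
  have hN := NF_nonneg hE.ref.p0 F
  have hD := hq.D_one hE 2
  have hDA : q.D E.η 2 ≤ q.A E.η d := Par.OK.D_le_A hE
  have hV : (0 : ℝ) < vl d M (q.A E.η d) := by exact_mod_cast (tn_NG d M).vol_pos _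
  have hW : (vl d M (q.D E.η 2) : ℝ) ≤ exp ((q.P : ℝ) ^ 2) := by
    refine le_trans ?_ (hF d M E q hE hq).1
    have := hq.D_mono hE (show 2 ≤ 3 by norm_num)
    exact_mod_cast vol_mono (by omega)
  have hl := (hL d M E q.P (q.D E.η 2) F hE hq.P1 (hq.l0_le_D hE 2)).1
  set y : Tor d M → ℝ := fun v =>
    Y5 E.η S.H (Wg S ω κ (S.Zg J) (κ v)) (q.D E.η 2) v (ω v) F with hy
  set e : Tor d M → ℝ := fun v => 2 * exp (-(q.P : ℝ) ^ 7 / 4) * vl d M (q.D E.η 2) *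
    ∑ x ∈ bl v (q.D E.η 2), (F x - F v) ^ 2 with he
  have he0 : ∀ v, 0 ≤ e v := fun v => by positivity
  have h1 : ∑ p, ∑ v ∈ S.Zg J ∩ bl p (q.A E.η d), y v = vl d M (q.A E.η d) * ∑ v ∈ S.Zg J, y v := by
    have := (tn_NG d M).sum_sum_ball (q.A E.η d) fun v => if v ∈ S.Zg J then y v else 0
    simpa only [sum_ite_mem, univ_inter, inter_comm (ball _ _ _)] using this
  have h2 : ∀ p, |∑ v ∈ S.Zg J ∩ bl p (q.A E.η d), y v| ≤
      Nm E.p (loc (tn d M) (q.A E.η d + q.D E.η 2) (q.D E.η 2) F p) / (q.P : ℝ) ^ 4 +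
        ∑ v ∈ bl p (q.A E.η d), e v := by
    intro p
    have hb : bl p (q.A E.η d) ⊆ bl p (5 * q.A E.η d) := ball_mono p (by omega)
    rcases h.flow p with h3 | h3
    · rw [eq_empty_of_forall_notMem (s := S.Zg J ∩ _) fun v hv =>
        (mem_sdiff.1 (mem_inter.1 hv).1).2 (h3 (hb (mem_inter.1 hv).2)), sum_empty, abs_zero]
      have := NF_nonneg hE.ref.p0 (loc (tn d M) (q.A E.η d + q.D E.η 2) (q.D E.η 2) F p)
      have := sum_nonneg (s := bl p (q.A E.η d)) fun v _ => he0 v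
      rw [Nm]
      positivity
    have h4 := h3.y5 (loc (tn d M) (q.A E.η d + q.D E.η 2) (q.D E.η 2) F p) fun x hx =>
      loc_out F fun h5 => hx (ball_mono p (by omega) h5)
    rw [inter_assoc, inter_eq_right.2 hb] at h4
    refine (abs_sub_abs_le_abs_sub _ _ |> sub_le_iff_le_add'.1).trans (add_le_add h4 ?_)
    rw [← sum_sub_distrib]
    refine (abs_sum_le_sum_abs _ _).trans ((sum_le_sum fun v hv => ?_).trans
      (sum_le_sum_of_subset_of_nonneg inter_subset_right fun v _ _ => he0 v))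
    have h5 := En_diff (erase_subset v (bl v (q.D E.η 2))) (exp_pos _).le (g.kc p v hv)
      (F := F) (fun x hx => loc_in hD F (q := p) (R := q.A E.η d + q.D E.η 2) (mem_bl.2 (by
        have := nm_tri x v p
        have := mem_bl.1 hx
        have := mem_bl.1 (mem_inter.1 hv).2
        omega))) v
    rwa [card_ball] at h5
  have h3 := (abs_sum_le_sum_abs _ _).trans (sum_le_sum fun p (_ : p ∈ univ) => h2 p)
  rw [h1, abs_mul, abs_of_pos hV, sum_add_distrib, (tn_NG d M).sum_sum_ball, ← sum_div] at h3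
  have h4 : ∑ v, e v ≤ 1 / (q.P : ℝ) ^ 3 * NF E.p F := by
    rw [he, ← mul_sum]
    refine (mul_le_mul_of_nonneg_left (sum_near hE _ F) (by positivity)).trans ?_
    rw [← mul_assoc]
    exact mul_le_mul_of_nonneg_right (num hE hq (Nat.cast_nonneg _) hW) hN
  have h5 : q.P / 10 ^ 6 * vl d M (q.A E.η d) * NF E.p F / (q.P : ℝ) ^ 4 ≤
      vl d M (q.A E.η d) * (1 / (q.P : ℝ) ^ 3 * NF E.p F) := by
    rw [show (q.P / 10 ^ 6 * vl d M (q.A E.η d) * NF E.p F / (q.P : ℝ) ^ 4 : ℝ) =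
      vl d M (q.A E.η d) * (1 / (q.P : ℝ) ^ 3 * NF E.p F) / 10 ^ 6 by field_simp]
    exact div_le_self (by positivity) (by norm_num)
  refine le_of_mul_le_mul_left (h3.trans ?_) hV
  refine (add_le_add ((div_le_div_of_nonneg_right hl (by positivity)).trans h5)
    (mul_le_mul_of_nonneg_left h4 hV.le)).trans_eq ?_
  ring

end Pool.Agent.P.MP_d0f69c_mp.XS
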