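import Pool.Agent.P.MP_d0f69c_mp.XS.IfG

/-!
Gluing block: the near pairs of the noise of the retarded-retarded matrix.
-/

set_option autoImplicit false

open Finset Real

namespace Pool.Agent.P.MP_d0f69c_mp.XS

namespace G6A

variable {T : Type} [Fintype T] [AddCommGroup T] [DecidableEq T] {nm : T → ℕ}

theorem cnt {N : Type} [AddCommMonoid N] (h : NG nm) (r : ℕ) (Z : Finset T) (F : T → N) :
    ∑ p, ∑ v ∈ Z ∩ ball nm p r, F v = vol nm r • ∑ v ∈ Z, F v := by
  rw [sum_comm' (t' := Z) (s' := fun x => ball nm x r) (by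
    intro a b; simp only [mem_univ, mem_inter, true_and, h.mem_ball_comm (p := a)]; tauto),
    smul_sum]
  exact sum_congr rfl fun x _ => by rw [sum_const, card_ball]

/-- a sum of kernels that live on balls -/
theorem avg (h : NG nm) (R : ℕ) (Y : T → T → T → ℂ) {r : ℝ} (hr : 0 ≤ r)
    (hY : ∀ p, OpLe univ (Y p) r)
    (h0 : ∀ p x y, x ∉ ball nm p R ∨ y ∉ ball nm p R → Y p x y = 0) :
    OpLe univ (fun x y => ∑ p, Y p x y) (vol nm R * r) := fun u => by
  set c : T → T → ℂ := fun p y => if y ∈ ball nm p R then u y else 0 with hc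
  have e : ∀ x, ap univ (fun x y => ∑ p, Y p x y) u x =
      ∑ p ∈ ball nm x R, ap univ (Y p) (c p) x := fun x => by
    simp only [ap, sum_mul]
    rw [sum_comm, ← sum_subset (subset_univ (ball nm x R)) fun p _ hp =>
      sum_eq_zero fun y _ => by rw [h0 p x y (Or.inl (mt h.mem_ball_comm.1 hp)), zero_mul]]
    refine sum_congr rfl fun p _ => sum_congr rfl fun y _ => ?_
    simp only [hc]
    split_ifs with a
    · rfl
    · rw [h0 p x y (Or.inr a), zero_mul, zero_mul]
  have a : ∀ x, ‖ap univ (fun x y => ∑ p, Y p x y) u x‖ ^ 2 ≤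
      vol nm R * ∑ p, ‖ap univ (Y p) (c p) x‖ ^ 2 := fun x => by
    rw [e]
    refine (pow_le_pow_left₀ (norm_nonneg _) (norm_sum_le _ _) 2).trans
      (sq_sum_le_card_mul_sum_sq.trans ?_)
    rw [card_ball]
    exact mul_le_mul_of_nonneg_left (sum_le_sum_of_subset_of_nonneg (subset_univ _)
      fun _ _ _ => sq_nonneg _) (Nat.cast_nonneg _)
  have b : ∀ p, ∑ x, ‖ap univ (Y p) (c p) x‖ ^ 2 ≤ r ^ 2 * ∑ y ∈ ball nm p R, ‖u y‖ ^ 2 :=
    fun p => by
      have k := pow_le_pow_left₀ (nS_nonneg _ _) (hY p (c p)) 2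
      rwa [mul_pow, nS_supp (subset_univ (ball nm p R)) (u := c p) fun y _ hy => if_neg hy,
        nS_congr (u := c p) (w := u) fun y hy => if_pos hy, nS_sq, nS_sq] at k
  refine le_of_sq_le_sq ?_ (mul_nonneg (mul_nonneg (Nat.cast_nonneg _) hr) (nS_nonneg _ _))
  rw [mul_pow, nS_sq, nS_sq]
  refine (sum_le_sum fun x _ => a x).trans ?_
  rw [← mul_sum, sum_comm]
  refine (mul_le_mul_of_nonneg_left (sum_le_sum fun p _ => b p) (Nat.cast_nonneg _)).trans_eq ?_
  rw [← mul_sum, h.sum_sum_ball]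
  ring

omit [Fintype T] [AddCommGroup T] [DecidableEq T] in
theorem smul {S : Finset T} {A : T → T → ℂ} {r : ℝ} (h : OpLe S A r) (c : ℂ) :
    OpLe S (fun x y => c * A x y) (‖c‖ * r) := fun u => by
  have e : ap S (fun x y => c * A x y) u = c • ap S A u := funext fun x => by
    simp only [ap, Pi.smul_apply, smul_eq_mul, mul_sum, mul_assoc]
  rw [e, nS_smul, mul_assoc]
  exact mul_le_mul_of_nonneg_left (h u) (norm_nonneg _)

theorem row (h : NG nm) (D : ℕ) (ε : ℝ) (x : T) :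
    ∑ y, ∑ v, (if x ∈ ball nm v D ∧ y ∈ ball nm v D then ε else 0) = vol nm D * (vol nm D * ε) := by
  rw [sum_comm]
  simp only [ite_and, sum_ite_irrel, sum_ite_mem, univ_inter, sum_const_zero, sum_const, card_ball,
    h.mem_ball_comm (x := x), nsmul_eq_mul]

end G6A

theorem t_g6 (hF : S_FAR) : S_G6 := by
  intro d M _ E q S J ω κ H G
  have hE := H.hE
  have hq := H.hq
  have hP := hq.Ppos hE
  have hN := tn_NG d M
  have DA : q.D E.η 2 ≤ q.A E.η d := Par.OK.D_le_A hE
  set D := q.D E.η 2 with hD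
  set A := q.A E.η d with hA
  set ε := exp (-(q.P : ℝ) ^ 7 / 4) with hε
  have ε0 : 0 ≤ ε := (exp_pos _).le
  have V0 : (0 : ℝ) < vl d M A := by exact_mod_cast hN.vol_pos A
  set Yg : Tor d M → Tor d M → Tor d M → ℂ := fun v x y => Y6 S.H (Wg S ω κ (S.Zg J) (κ v))
    ((S.good \ J) \ pre κ (S.Zg J) (κ v)) D v (ω v) x y with hYg
  set Yq : Tor d M → Tor d M → Tor d M → Tor d M → ℂ := fun p v x y =>
    Y6 S.H (Wg S ω κ (Zp E q S J p) (κ v)) ((Zp E q S J p ∪ (S.sig \ J) ∩ bl p (5 * A)) \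
      pre κ (Zp E q S J p) (κ v)) D v (ω v) x y with hYq
  have eZ : ∀ p, Zp E q S J p ∩ bl p A = S.Zg J ∩ bl p A := fun p => by
    rw [inter_assoc, inter_eq_right.2 (ball_mono p (by omega))]
  have m1 : OpLe univ (fun x y => ∑ p, ∑ v ∈ S.Zg J ∩ bl p A, Yq p v x y)
      (vl d M (A + D) * (1 / (q.P : ℝ) ^ 4)) := by
    refine G6A.avg hN (A + D) (fun p x y => ∑ v ∈ S.Zg J ∩ bl p A, Yq p v x y) (by positivity)
      (fun p => ?_) fun p x y hxy => sum_eq_zero fun v hv => if_neg fun a => ?_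
    · rcases H.flow p with h | h
      · have e : S.Zg J ∩ bl p A = ∅ := eq_empty_of_forall_notMem fun v hv =>
          (mem_sdiff.1 (mem_inter.1 hv).1).2 (h (ball_mono p (by omega) (mem_inter.1 hv).2))
        intro u
        have e2 : ap univ (fun x y => ∑ v ∈ S.Zg J ∩ bl p A, Yq p v x y) u = (0 : ℂ) • u :=
          funext fun x => by simp [e, ap]
        rw [e2, nS_smul, norm_zero]
        exact mul_le_mul_of_nonneg_right (by positivity) (nS_nonneg _ _)
      · rw [← eZ]; exact h.y6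
    · have k : ∀ z, z ∈ bl v D → z ∈ bl p (A + D) := fun z hz => by
        have h1 := mem_bl.1 hz
        have h2 := mem_bl.1 (mem_inter.1 hv).2
        have h3 := nm_tri z v p
        exact mem_bl.2 (by omega)
      exact hxy.elim (fun b => b (k _ (mem_inter.1 (mem_of_mem_erase a.1)).2))
        fun b => b (k _ (mem_inter.1 (mem_of_mem_erase a.2)).2)
  have m2 : OpLe (S.good \ J) (fun x y => ((vl d M A : ℝ) : ℂ)⁻¹ *
      ∑ p, ∑ v ∈ S.Zg J ∩ bl p A, Yq p v x y) (1 / (q.P : ℝ) ^ 3) := by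
    refine ((G6A.smul m1 _).sub (subset_univ _)).mono ?_
    have a : (vl d M (A + D) : ℝ) ≤ exp 1 * vl d M A := by
      simpa using vol_tn_shell (d := d) (M := M) (R := A) (D := D) (k := 1) le_rfl
    have b : exp 1 * (q.P : ℝ) ^ 3 ≤ (q.P : ℝ) ^ 4 :=
      hq.pow_lt hE (by norm_num) (exp_one_lt_d9.le.trans (by norm_num))
    rw [norm_inv, Complex.norm_real, Real.norm_of_nonneg V0.le, inv_mul_le_iff₀ V0,
      mul_one_div, mul_one_div, div_le_div_iff₀ (by positivity) (by positivity)]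
    calc _ ≤ exp 1 * vl d M A * (q.P : ℝ) ^ 3 := mul_le_mul_of_nonneg_right a (by positivity)
      _ = vl d M A * (exp 1 * (q.P : ℝ) ^ 3) := by ring
      _ ≤ _ := mul_le_mul_of_nonneg_left b V0.le
  have m3 : ∀ p, ∀ v ∈ S.Zg J ∩ bl p A, ∀ x y, ‖Yg v x y - Yq p v x y‖ ≤
      if x ∈ bl v D ∧ y ∈ bl v D then ε else 0 := fun p v hv x y => by
    have e : ((Zp E q S J p ∪ (S.sig \ J) ∩ bl p (5 * A)) \ pre κ (Zp E q S J p) (κ v)) ∩ bl v D =
        ((S.good \ J) \ pre κ (S.Zg J) (κ v)) ∩ bl v D := by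
      ext z
      have h1 : z ∈ bl v D → z ∈ bl p (5 * A) := fun hz => by
        have h1 := mem_bl.1 hz
        have h2 := mem_bl.1 (mem_inter.1 hv).2
        have h3 := nm_tri z v p
        exact mem_bl.2 (by omega)
      have h2 : z ∈ S.sig → z ∈ S.good := fun hz => H.sel.sg hz
      simp only [pre_inter, mem_inter, mem_sdiff, mem_union, ← hA]
      tauto
    simp only [hYg, hYq, Y6, e]
    have sb : (((S.good \ J) \ pre κ (S.Zg J) (κ v)) ∩ bl v D).erase v ⊆ (S.O ∩ bl v D).erase v :=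
      erase_subset_erase v (inter_subset_inter_right
        (sdiff_subset.trans (sdiff_subset.trans S.good_sub)))
    split_ifs with h1 h2
    · exact G.ac p v hv x (sb h1.1) y (sb h1.2)
    · exact absurd ⟨(mem_inter.1 (mem_of_mem_erase h1.1)).2,
        (mem_inter.1 (mem_of_mem_erase h1.2)).2⟩ h2
    · rwa [sub_self, norm_zero]
    · rw [sub_self, norm_zero]
  have i0 : ∀ x y v : Tor d M, 0 ≤ if x ∈ bl v D ∧ y ∈ bl v D then ε else 0 := fun x y v => by
    split_ifs; exacts [ε0, le_rfl]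
  have m4 : OpLe (S.good \ J) (fun x y => ((vl d M A : ℝ) : ℂ)⁻¹ *
      ∑ p, ∑ v ∈ S.Zg J ∩ bl p A, (Yg v x y - Yq p v x y)) (1 / (q.P : ℝ) ^ 3) := by
    refine opLe_schur (g := fun x y => ∑ v, if x ∈ bl v D ∧ y ∈ bl v D then ε else 0)
      (by positivity) (fun x y => by simp only [and_comm]) (fun x _ y _ => ?_) fun x _ => ?_
    · rw [norm_mul, norm_inv, Complex.norm_real, Real.norm_of_nonneg V0.le, inv_mul_le_iff₀ V0]
      refine (norm_sum_le _ _).trans ((sum_le_sum fun p _ => (norm_sum_le _ _).trans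
        (sum_le_sum fun v hv => m3 p v hv x y)).trans ?_)
      rw [G6A.cnt hN, nsmul_eq_mul]
      exact mul_le_mul_of_nonneg_left (sum_le_sum_of_subset_of_nonneg (subset_univ _)
        fun v _ _ => i0 x y v) V0.le
    · refine (sum_le_sum_of_subset_of_nonneg (subset_univ _) fun y _ _ =>
        sum_nonneg fun v _ => i0 x y v).trans ?_
      rw [G6A.row hN]
      have a : (vl d M D : ℝ) ≤ exp ((q.P : ℝ) ^ 2) := by
        refine le_trans ?_ (hF d M E q hE hq).1
        have := hq.D_mono hE (show 2 ≤ 3 by norm_num)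
        exact_mod_cast vol_mono (by omega)
      have b : (q.P : ℝ) ^ 3 ≤ exp ((q.P : ℝ) ^ 3) := by linarith [add_one_le_exp ((q.P : ℝ) ^ 3)]
      rw [le_div_iff₀ (by positivity)]
      calc _ ≤ exp ((q.P : ℝ) ^ 2) * (exp ((q.P : ℝ) ^ 2) * ε) * exp ((q.P : ℝ) ^ 3) := by gcongr
        _ ≤ exp 0 := by
          rw [hε, ← exp_add, ← exp_add, ← exp_add, exp_le_exp]
          have c := hq.pow_lt hE (show 3 < 7 by norm_num) (show (12 : ℝ) ≤ 10 ^ 9 by norm_num)
          have e := hq.pow_le hE (show 2 ≤ 3 by norm_num)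
          linarith
        _ = 1 := exp_zero
  refine ((m2.add m4).congr fun x _ y _ => ?_).mono (le_of_eq (by ring))
  have V1 : ((vl d M A : ℝ) : ℂ) ≠ 0 := by exact_mod_cast V0.ne'
  rw [Pi.add_apply, Pi.add_apply, ← mul_add, ← sum_add_distrib]
  simp only [← sum_add_distrib, add_sub_cancel]
  rw [G6A.cnt hN, nsmul_eq_mul, Complex.ofReal_natCast, inv_mul_cancel_left₀ (by exact_mod_cast V1)]
  rfl

end Pool.Agent.P.MP_d0f69c_mp.XS
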