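import Pool.Agent.P.MP_d0f69c_mp.XS.IfG

/-!
Entries of the Green function at the end of the closing phase.
-/

set_option autoImplicit false

open Finset Real

namespace Pool.Agent.P.MP_d0f69c_mp.XS

namespace G7x

variable {d M : ℕ} [NeZero M] {E : Env d M} {q : Par} {S : St (Tor d M)} {J : Finset (Tor d M)}
  {ω : Tor d M → Bool} {κ : Tor d M → ℕ}

theorem top (κ : Tor d M → ℕ) (Z : Finset (Tor d M)) : pre κ Z (univ.sup κ + 1) = Z :=
  pre_top κ Z (Nat.lt_succ_of_le (sup_mono (subset_univ Z)))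

theorem dec (g : GD E q S J ω κ) {x : Tor d M} (hx : x ∈ S.O) (z : Tor d M) :
    ‖(S.close J ω).G x z‖ ≤ env q E.η (x - z) := by
  have := g.dec (univ.sup κ + 1) x hx z
  rwa [Gg, Wg, top] at this

theorem cls (g : GD E q S J ω κ) (p z : Tor d M) :
    ‖(S.close J ω).G p z - NW.GG S.H (Wc S.W ω (Zp E q S J p)) p z‖ ≤
      exp (-(q.P : ℝ) ^ 7 / 2) := by
  have := g.cls p (univ.sup κ + 1) p z (by rw [nm_self]; exact Nat.zero_le _)
  rwa [Gg, Gg, Wg, Wg, top, top] at this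

theorem mem_O (h : GH E q S J ω κ) {x : Tor d M} (hx : x ∈ (S.close J ω).O) :
    x ∈ S.O ∧ x ∉ S.Zg J := by
  simp only [St.O, St.close, St.Zg, mem_union, mem_sdiff, mem_inter] at hx ⊢
  have := @h.sel.sg x
  have := @disjoint_left.1 h.inv.go x
  have := @disjoint_left.1 h.inv.gj x
  tauto

omit [NeZero M] in
theorem env_nonneg (hB : 1 ≤ q.Bi 2) (η : ℝ) (z : Tor d M) : 0 ≤ env q η z :=
  mul_nonneg (zero_le_one.trans hB) (exp_pos _).le

theorem far (hF : S_FAR) (hE : E.OK) (hq : q.OK E) :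
    ∑ z : Tor d M with q.D E.η 2 < nm z, env q E.η z ≤ q.τ := by
  refine le_trans (sum_le_sum fun z _ => ?_) ((hF d M E q hE hq).2 2 (by norm_num)).1
  have h1 : (1 : ℝ) ≤ q.li E.η 2 := by exact_mod_cast hq.li_one hE 2
  have h2 : (0 : ℝ) ≤ nm z := Nat.cast_nonneg _
  refine le_trans ?_ (le_mul_of_one_le_right (by positivity) (one_le_pow₀ (by linarith)))
  refine mul_le_mul (hq.Bi_le (by norm_num)) (exp_le_exp.2 ?_) (exp_pos _).le (exp_pos _).le
  rw [neg_div, neg_div, neg_le_neg_iff]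
  exact div_le_div_of_nonneg_left h2 (by linarith) (by linarith)

theorem far_one (hF : S_FAR) (hE : E.OK) (hq : q.OK E) {z : Tor d M} (hz : q.D E.η 2 < nm z) :
    env q E.η z ≤ q.τ :=
  (single_le_sum (f := env q E.η) (fun w _ => env_nonneg (hq.Bi_one 2) _ w)
    (mem_filter.2 ⟨mem_univ z, hz⟩)).trans (far hF hE hq)

theorem flow (h : GH E q S J ω κ) {y : Tor d M} (hy : y ∈ S.sig \ J) :
    Flow E q S y (Zp E q S J y) ((S.sig \ J) ∩ bl y (5 * q.A E.η d)) ω κ :=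
  (h.flow y).resolve_left fun a => (mem_sdiff.1 hy).2 (a (self_bl y _))

theorem δ_le (hE : E.OK) (hq : q.OK E) : exp (-(q.P : ℝ) ^ 7 / 2) ≤ q.μ := by
  refine (exp_le_exp.2 ?_).trans hq.μ1
  have := hq.pow_lt hE (a := 1) (b := 7) (c := 2) (by norm_num) (by norm_num)
  linarith

/-- the change of an amplitude -/
theorem amp (hF : S_FAR) (h : GH E q S J ω κ) (g : GD E q S J ω κ) {x y : Tor d M}
    (hx : x ∈ (S.close J ω).O) (hy : y ∈ S.sig \ J) (hn : x ≠ y) :
    ‖(S.close J ω).G x y‖ ≤ ‖S.G x y‖ + √(μr q S x) * √q.μ * (3 * (q.P : ℝ) ^ 45) := by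
  obtain ⟨h1, h2⟩ := mem_O h hx
  have hq := h.hq
  have hE := h.hE
  have hP : 1 ≤ (q.P : ℝ) ^ 45 := one_le_pow₀ (hq.Pone hE)
  have h3 : q.μ ≤ √(μr q S x) * √q.μ := by
    conv_lhs => rw [← mul_self_sqrt hq.μpos.le]
    gcongr
    exact hq.μ_le_μr S x
  have h4 := (δ_le hE hq).trans (h3.trans
    (le_mul_of_one_le_right (hq.μpos.le.trans h3) hP))
  have h5 : 0 ≤ √(μr q S x) * √q.μ * (q.P : ℝ) ^ 45 := by positivity
  by_cases hc : nm (x - y) ≤ 6 * q.A E.η d
  · have h6 := (flow h hy).amp x (mem_sdiff.2 ⟨mem_inter.2 ⟨h1, mem_bl.2 hc⟩,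
      fun a => h2 (mem_inter.1 a).1⟩) y (mem_inter.2 ⟨hy, self_bl _ _⟩) hn
    have hs := (t_adm d M E S.H S.junk hE h.inv.phys).1
    have h7 := cls g y x
    rw [GG_sym hs _ y x, show (S.close J ω).G y x = (S.close J ω).G x y from GG_sym hs _ y x] at h7
    rw [sqrt_mul (hq.μr_pos S x).le] at h6
    have h8 := norm_le_norm_add_norm_sub' ((S.close J ω).G x y)
      (NW.GG S.H (Wc S.W ω (Zp E q S J y)) x y)
    have h9 := norm_le_norm_add_norm_sub' (NW.GG S.H (Wc S.W ω (Zp E q S J y)) x y) (S.G x y)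
    linarith
  · have h6 := Par.OK.D_le_A (q := q) hE
    have h7 := (dec g h1 y).trans (far_one hF hE hq (by omega))
    have h8 : q.τ ≤ exp (-(q.P : ℝ) ^ 7 / 2) :=
      exp_le_exp.2 (by linarith [pow_pos (hq.Ppos hE) 7])
    linarith [norm_nonneg (S.G x y)]

theorem small (hE : E.OK) (hq : q.OK E) {u : ℝ} (hu : u ≤ q.μJ) :
    √u * (3 * (q.P : ℝ) ^ 45) ≤ 1 / (q.P : ℝ) ^ 3 / 100 := by
  have hP := hq.Ppos hE
  have h1 : √u ≤ 1 / (q.P : ℝ) ^ 100 := by
    refine sqrt_le_iff.2 ⟨by positivity, hu.trans (hq.J2.trans ?_)⟩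
    rw [one_div_pow, ← pow_mul]
    gcongr
    exact hE.η1.trans (by norm_num)
  refine (mul_le_mul_of_nonneg_right h1 (by positivity)).trans ?_
  rw [div_div, one_div_mul_eq_div, div_le_div_iff₀ (by positivity) (by positivity)]
  have := hq.pow_lt hE (a := 48) (b := 100) (c := 300) (by norm_num) (by norm_num)
  linarith

theorem small' (hE : E.OK) (hq : q.OK E) {u : ℝ} (hu : u ≤ q.μJ) :
    √u * (3 * (q.P : ℝ) ^ 45) ≤ 1 / 100 := by
  refine (small hE hq hu).trans ?_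
  gcongr
  exact (div_le_one (pow_pos (hq.Ppos hE) 3)).2 (one_le_pow₀ (hq.Pone hE))

end G7x

open G7x in
theorem t_g7 (hF : S_FAR) : S_G7 := by
  intro d M _ E q S J ω κ h g
  have hq := h.hq
  have hE := h.hE
  have hP := hq.Ppos hE
  have hμ := hq.μpos
  have hs := sq_sqrt hμ.le
  have s0 := sqrt_nonneg q.μ
  refine ⟨fun x hx => ?_, fun x hx y hy hn => ?_, fun x hx y hy => ?_, fun b hb y hy => ?_⟩
  · have h1 := (flow h hx).mis (univ.sup κ + 1) x (by
      rw [top]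
      exact mem_sdiff.2 ⟨mem_union_right _ (mem_inter.2 ⟨hx, self_bl _ _⟩), fun a =>
        (mem_sdiff.1 (mem_sdiff.1 (mem_inter.1 a).1).1).2 (mem_sdiff.1 hx).1⟩)
    rw [top] at h1
    have h2 := (cls g x x).trans ((δ_le hE hq).trans
      (le_mul_of_one_le_right hμ.le (one_le_pow₀ (n := 39) (hq.Pone hE))))
    linarith [norm_sub_le_norm_sub_add_norm_sub ((S.close J ω).G x x)
      (NW.GG S.H (Wc S.W ω (Zp E q S J x)) x x) (phi (S.W x))]
  · have h1 : x ∈ (S.close J ω).O ∧ x ∈ S.rowA q.fin \ (S.good \ S.sig) := by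
      have := @h.sel.sg x
      have := @disjoint_left.1 h.inv.go x
      revert hx
      simp only [St.O, St.close, St.rowA]
      split_ifs <;> simp only [mem_union, mem_sdiff, mem_inter] <;> tauto
    have h2 := amp hF h g h1.1 hy hn
    rw [μr, if_pos (mem_sdiff.1 h1.2).1, mul_assoc] at h2
    have h3 : ‖S.G x y‖ ≤ 36 / 100 * √q.μ := (pow_le_pow_iff_left₀ (norm_nonneg _) (by positivity)
      two_ne_zero).1 ((h.sel.amp x h1.2 y (mem_sdiff.1 hy).1 hn).trans (by rw [mul_pow, hs]; linarith))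
    have h4 := mul_le_mul_of_nonneg_left (small' hE hq hq.μ_le) s0
    refine (pow_le_pow_left₀ (norm_nonneg _) (show _ ≤ 37 / 100 * √q.μ by linarith) 2).trans ?_
    rw [mul_pow, hs]
    linarith
  · obtain ⟨h1, h2⟩ := mem_sdiff.1 hx
    have hn : x ≠ y := by
      rintro rfl
      refine h2 ?_
      simp only [St.close, St.rowA]
      split_ifs
      exacts [hy, mem_union_left _ hy]
    have yg := h.sel.sg (mem_sdiff.1 hy).1
    have hr := sq_sqrt hq.μJpos.le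
    have z0 := hq.ζ0
    have p0 : 0 < 1 / (q.P : ℝ) ^ 3 := by positivity
    have h3 : ‖S.G x y‖ ^ 2 ≤ (q.ζ + 1 / (q.P : ℝ) ^ 3) ^ 2 * q.μJ := by
      by_cases hc : x ∈ S.rowA q.fin
      · refine (h.inv.ampA x hc y yg hn).trans ?_
        have : (1 / 2) ^ 2 * q.μJ ≤ (q.ζ + 1 / (q.P : ℝ) ^ 3) ^ 2 * q.μJ := by
          have := hq.μJpos
          gcongr
          linarith
        have := hq.J1
        change 3 / 5 * q.μ ≤ _
        linarith
      · exact h.inv.ampB rfl x (mem_sdiff.2 ⟨(mem_O h h1).1, hc⟩) y yg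
    rw [← hr, ← mul_pow] at h3 ⊢
    have h4 := (pow_le_pow_iff_left₀ (norm_nonneg _) (by positivity) two_ne_zero).1 h3
    refine pow_le_pow_left₀ (norm_nonneg _) ((amp hF h g h1 hy hn).trans ?_) 2
    have h5 : √(μr q S x) * (√q.μ * (3 * (q.P : ℝ) ^ 45)) ≤ √q.μJ * (1 / (q.P : ℝ) ^ 3) :=
      mul_le_mul (sqrt_le_sqrt (hq.μr_le S x)) ((small hE hq hq.μ_le).trans (by linarith))
        (by positivity) (sqrt_nonneg _)
    have e : (q.ζ + 2 / (q.P : ℝ) ^ 3) * √q.μJ =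
        (q.ζ + 1 / (q.P : ℝ) ^ 3) * √q.μJ + √q.μJ * (1 / (q.P : ℝ) ^ 3) := by ring
    rw [e, mul_assoc]
    exact add_le_add h4 h5
  · have bj := h.sel.sj hb
    have hn : b ≠ y := by
      rintro rfl
      exact disjoint_left.1 h.inv.gj (h.sel.sg (mem_sdiff.1 hy).1) bj
    have e0 := hq.e0
    have h1 := amp hF h g (mem_union_right _ (mem_union_left _ bj)) hy hn
    have h2 : ‖S.G b y‖ ≤ q.e ^ 95 / 2 := (pow_le_pow_iff_left₀ (norm_nonneg _) (by positivity)
      two_ne_zero).1 ((h.sel.asp b hb y (mem_sdiff.1 hy).1).trans_eq (by ring))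
    have h3 : √q.μ ≤ q.e ^ 95 := sqrt_le_iff.2 ⟨by positivity, by
      rw [← pow_mul]
      exact pow_le_pow_of_le_one e0.le (hq.e_le_one hE) (by norm_num)⟩
    have h4 := mul_le_mul h3 (small' hE hq (hq.μr_le S b)) (by positivity) (by positivity)
    refine (pow_le_pow_left₀ (norm_nonneg _) (show _ ≤ q.e ^ 95 by
      linarith [pow_pos e0 95]) 2).trans_eq (by ring)

end Pool.Agent.P.MP_d0f69c_mp.XS
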