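import Pool.Agent.P.MP_d0f69c_mp.XS.G7

/-!
Fourth powers of the Green function at the end of the closing phase.
-/

set_option autoImplicit false

open Finset Real

namespace Pool.Agent.P.MP_d0f69c_mp.XS

namespace G8x

theorem four {a δ : ℝ} (ha : 0 ≤ a) (hδ : 0 ≤ δ) : (a + δ) ^ 4 ≤ 16 / 15 * a ^ 4 + 10 ^ 8 * δ ^ 4 := by
  have h1 := pow_nonneg ha 4
  have h2 := pow_nonneg hδ 4
  rcases le_total δ (a / 70) with h | h
  · have := pow_le_pow_left₀ (add_nonneg ha hδ) (show a + δ ≤ 71 / 70 * a by linarith) 4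
    rw [mul_pow] at this
    linarith
  · have := pow_le_pow_left₀ (add_nonneg ha hδ) (show a + δ ≤ 71 * δ by linarith) 4
    rw [mul_pow] at this
    linarith

variable {d M : ℕ} [NeZero M] {E : Env d M} {q : Par}

theorem c_le (hE : E.OK) (hq : q.OK E) {c : ℝ} (hc : c ≤ 10 ^ 9) : c ≤ exp ((q.P : ℝ) ^ 6) := by
  have := hq.pow_lt hE (a := 0) (b := 6) (by norm_num) hc
  linarith [add_one_le_exp ((q.P : ℝ) ^ 6)]

theorem τ_c (hE : E.OK) (hq : q.OK E) {a b c : ℝ} (hb : 0 ≤ b) (hc : 0 ≤ c)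
    (h1 : a ≤ exp ((q.P : ℝ) ^ 6)) (h2 : b ≤ exp ((q.P : ℝ) ^ 6))
    (h3 : c ≤ exp ((q.P : ℝ) ^ 6)) : q.τ * (a * b * c) ≤ 1 := by
  have h := hq.τ_mul hE (c := 3) (c' := 0) (by norm_num)
  rw [zero_mul, neg_zero, exp_zero, show (3 : ℝ) = (3 : ℕ) by norm_num, exp_nat_mul] at h
  refine le_trans (mul_le_mul_of_nonneg_left ?_ (Par.OK.τpos q).le) h
  rw [pow_succ, sq]
  gcongr

end G8x

open G7x G8x in
theorem t_g8 (hF : S_FAR) : S_G8 := by
  intro d M _ E q S J ω κ h g x hx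
  have hq := h.hq
  have hE := h.hE
  obtain ⟨h1, h2⟩ := mem_O h hx
  have τ0 := Par.OK.τpos q
  have hμ := hq.μpos
  have e1 : ∀ k ≤ 6, exp ((q.P : ℝ) ^ k) ≤ exp ((q.P : ℝ) ^ 6) := fun k hk =>
    exp_le_exp.2 (hq.pow_le hE hk)
  have i1 : 1 / q.μ ≤ exp ((q.P : ℝ) ^ 6) := hq.inv_μ.trans (by simpa using e1 1 (by norm_num))
  have t1 : q.τ ≤ 1 := exp_le_one_iff.2 (neg_nonpos.2 (by positivity))
  have t2 : 420 * q.τ ≤ (q.P : ℝ) ^ 20 * μr q S x ^ 2 := by
    have a := τ_c hE hq (by positivity) (by positivity) (c_le hE hq (c := 420) (by norm_num)) i1 i1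
    have b : q.μ ^ 2 ≤ (q.P : ℝ) ^ 20 * μr q S x ^ 2 :=
      (pow_le_pow_left₀ hμ.le (hq.μ_le_μr S x) 2).trans
        (le_mul_of_one_le_left (sq_nonneg _) (one_le_pow₀ (hq.Pone hE)))
    refine le_trans ?_ b
    rw [show q.τ * (420 * (1 / q.μ) * (1 / q.μ)) = 420 * q.τ / q.μ ^ 2 by ring,
      div_le_one (by positivity)] at a
    exact a
  have t3 : exp ((q.P : ℝ) ^ 2) * (10 ^ 8 * exp (-(q.P : ℝ) ^ 7 / 2) ^ 4) ≤ q.τ := by
    have a := τ_c hE hq (by positivity) zero_le_one (e1 2 (by norm_num))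
      (c_le hE hq (c := 10 ^ 8) (by norm_num)) (c_le hE hq (by norm_num))
    have b : exp (-(q.P : ℝ) ^ 7 / 2) ^ 4 = q.τ * q.τ := by
      rw [Par.τ, ← exp_nat_mul, ← exp_add]
      congr 1
      push_cast
      ring
    rw [b]
    nlinarith [mul_le_mul_of_nonneg_left a τ0.le]
  have hA := Par.OK.D_le_A (q := q) hE
  have far1 : ∑ y ∈ (S.sig \ J).erase x with y ∉ bl x (5 * q.A E.η d),
      ‖(S.close J ω).G x y‖ ^ 4 ≤ q.τ := by
    have a : ∀ y ∈ ((S.sig \ J).erase x).filter (· ∉ bl x (5 * q.A E.η d)),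
        q.D E.η 2 < nm (x - y) := fun y hy => by
      have := (mem_filter.1 hy).2
      rw [mem_bl, nm_comm] at this
      omega
    refine (sum_le_sum (g := fun y => env q E.η (x - y)) fun y hy => ?_).trans ?_
    · have b := dec g h1 y
      exact (pow_le_of_le_one (norm_nonneg _)
        (b.trans ((far_one hF hE hq (a y hy)).trans t1)) (by norm_num)).trans b
    · rw [← sum_image (f := env q E.η) (g := fun y => x - y) fun _ _ _ _ e => sub_right_injective e]
      refine le_trans (sum_le_sum_of_subset_of_nonneg (fun z hz => ?_)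
        fun z _ _ => env_nonneg (hq.Bi_one 2) _ z) (far hF hE hq)
      obtain ⟨y, hy, rfl⟩ := mem_image.1 hz
      exact mem_filter.2 ⟨mem_univ _, a y hy⟩
  have near : ∑ y ∈ (S.sig \ J).erase x with y ∈ bl x (5 * q.A E.η d),
      ‖(S.close J ω).G x y‖ ^ 4 ≤ (q.P : ℝ) ^ 20 * μr q S x ^ 2 / 15 + q.τ := by
    rcases h.flow x with a | a
    · rw [sum_eq_zero fun y hy => ((mem_sdiff.1 (mem_of_mem_erase (mem_filter.1 hy).1)).2
        (a (mem_filter.1 hy).2)).elim]
      positivity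
    have b := a.l4 x (mem_sdiff.2 ⟨mem_inter.2 ⟨h1, self_bl _ _⟩, fun c => h2 (mem_inter.1 c).1⟩)
    rw [filter_mem_eq_inter, erase_inter]
    refine (sum_le_sum fun y _ => (pow_le_pow_left₀ (norm_nonneg _)
      ((norm_le_norm_add_norm_sub' _ _).trans (add_le_add_right (cls g x y) _)) 4).trans
      (four (norm_nonneg _) (exp_pos _).le)).trans ?_
    rw [sum_add_distrib, ← mul_sum, sum_const, nsmul_eq_mul]
    refine add_le_add (by linarith) (le_trans (mul_le_mul_of_nonneg_right ?_ (by positivity)) t3)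
    refine le_trans ?_ (hF d M E q hE hq).1
    have c := hq.A_grow' hE
    exact Nat.cast_le.2 ((card_le_card ((erase_subset _ _).trans inter_subset_right)).trans
      ((card_ball x _).trans_le (vol_mono (by omega))))
  rw [← sum_filter_add_sum_filter_not _ (· ∈ bl x (5 * q.A E.η d))]
  linarith

end Pool.Agent.P.MP_d0f69c_mp.XS
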