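import Pool.Agent.P.MP_d0f69c_mp.XS.If0

/-!
Monotonicity of the invariant, freezing, and the passage to the next round.
-/

set_option autoImplicit false

open Finset Real
open scoped Matrix

namespace Pool.Agent.P.MP_d0f69c_mp.XS

theorem t_mono : S_MONO := by
  intro d M _ E b b' S h hθ hmis haA hnA hgs hB hl1 hl hfin hchk hp
  refine ⟨h.go, h.gj, h.oj, h.oΩ, h.gΩ, h.phys,
    fun x hx => ⟨(h.opn x hx).1.trans hθ, (h.opn x hx).2.trans hθ⟩, h.cls, h.oW,
    fun x hx => (h.mis x hx).trans hmis, ?_, ?_, ?_, ?_, ⟨fun F => ?_, fun f => ?_⟩,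
    h.rr.mono hθ, fun y hy => (h.gs y hy).trans hgs, fun x hx z => ?_, h.cov⟩
  · rw [hfin]
    exact fun x hx y hy hxy => (h.ampA x hx y hy hxy).trans haA
  · rw [hfin]
    exact fun hc x hx y hy => (h.ampB (hchk hc).1 x hx y hy).trans (hchk hc).2.1
  · rw [hfin]
    exact fun x hx => (h.lA x hx).trans hnA
  · rw [hfin]
    exact fun hc x hx => (h.lB (hchk hc).1 x hx).trans (hchk hc).2.2
  · exact (h.ul.1 F).trans (mul_le_mul_of_nonneg_right (by linarith) (NF_nonneg hp F))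
  · obtain ⟨F, h1, h2⟩ := h.ul.2 f
    exact ⟨F, h1, (mul_le_mul_of_nonneg_right (by linarith) (NF_nonneg hp F)).trans h2⟩
  · have h1 := h.dec x hx z
    have h2 : 0 ≤ b.B :=
      nonneg_of_mul_nonneg_left ((norm_nonneg _).trans h1) (exp_pos _)
    have h3 : (0 : ℝ) < b.l := by exact_mod_cast hl1
    have h4 : (b.l : ℝ) ≤ b'.l := by exact_mod_cast hl
    refine h1.trans (mul_le_mul hB (exp_le_exp.2 ?_) (exp_pos _).le (h2.trans hB))
    rw [neg_div, neg_div, neg_le_neg_iff]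
    exact div_le_div_of_nonneg_left (Nat.cast_nonneg _) h3 h4

namespace MonoA

variable {d M : ℕ} [NeZero M]

theorem blk_mono {J J' : Finset (Tor d M)} {r : ℕ} {Λ : ℝ} {A : Matrix (Tor d M) (Tor d M) ℝ}
    (h : Blk J r Λ A) (hJ : J ⊆ J') : Blk J' r Λ A :=
  ⟨fun x y hxy => h.off x y (hxy.imp (fun a b => a (hJ b)) fun a b => a (hJ b)), h.rng, h.row,
    h.col⟩

theorem freeze_O (S : St (Tor d M)) (J : Finset (Tor d M)) : (S.freeze J).O = S.O := by
  ext x
  simp only [St.O, St.freeze, mem_union, mem_sdiff, mem_inter]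
  tauto

theorem freeze_rowA (S : St (Tor d M)) (J : Finset (Tor d M)) (f : Bool) :
    (S.freeze J).rowA f ⊆ S.rowA f := by
  intro x
  cases f <;> simp only [St.rowA, St.freeze, mem_union, mem_sdiff, if_true, Bool.false_eq_true,
    if_false] <;> tauto

theorem freeze_not (S : St (Tor d M)) (J : Finset (Tor d M)) (f : Bool) {x : Tor d M}
    (hx : x ∉ (S.freeze J).rowA f) : x ∉ S.good \ J := by
  intro h
  apply hx
  cases f <;> simp only [St.rowA, St.freeze, mem_union, if_true, Bool.false_eq_true,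
    if_false]
  · exact Or.inl h
  · exact h

end MonoA

theorem t_freeze : S_FREEZE := by
  intro d M _ E b S J h h0 h1 ha hn
  have hO := MonoA.freeze_O S J
  have hs : S.good \ J ⊆ S.good := sdiff_subset
  refine ⟨h.go.mono_left hs, ?_, ?_, h.oΩ, h.gΩ.mono_left hs, ?_, ?_, ?_, h.oW,
    fun x hx => h.mis x (hs hx),
    fun x hx y hy hxy => h.ampA x (MonoA.freeze_rowA S J _ hx) y (hs hy) hxy, ?_, ?_, ?_, ?_,
    h.rr.compress h0 h1 hs, ?_, ?_, ?_⟩
  · refine disjoint_union_right.2 ⟨h.gj.mono_left hs, ?_⟩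
    exact disjoint_left.2 fun x hx hx' => (mem_sdiff.1 hx).2 (mem_inter.1 hx').2
  · exact disjoint_union_right.2 ⟨h.oj, h.go.symm.mono_right inter_subset_left⟩
  · obtain ⟨U, V, Y, a1, a2, a3, a4⟩ := h.phys
    exact ⟨U, V, Y, MonoA.blk_mono a1 subset_union_left, MonoA.blk_mono a2 subset_union_left,
      MonoA.blk_mono a3 subset_union_left, a4⟩
  · rw [hO]; exact h.opn
  · rw [hO]; exact h.cls
  · rw [hO]
    intro hc x hx y hy
    by_cases hr : x ∈ S.rowA b.fin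
    · have hne : x ≠ y := by
        rintro rfl
        exact MonoA.freeze_not S J _ (mem_sdiff.1 hx).2 hy
      exact (h.ampA x hr y (hs hy) hne).trans ha
    · exact h.ampB hc x (mem_sdiff.2 ⟨(mem_sdiff.1 hx).1, hr⟩) y (hs hy)
  · intro x hx
    exact (sum_le_sum_of_subset_of_nonneg (erase_subset_erase x hs)
      fun _ _ _ => by positivity).trans (h.lA x (MonoA.freeze_rowA S J _ hx))
  · rw [hO]
    intro hc x hx
    by_cases hr : x ∈ S.rowA b.fin
    · have hsub : S.good \ J ⊆ S.good.erase x := fun y hy => mem_erase.2 ⟨by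
        rintro rfl
        exact MonoA.freeze_not S J _ (mem_sdiff.1 hx).2 hy, hs hy⟩
      exact ((sum_le_sum_of_subset_of_nonneg hsub
        fun _ _ _ => by positivity).trans (h.lA x hr)).trans hn
    · exact (sum_le_sum_of_subset_of_nonneg hs fun _ _ _ => by positivity).trans
        (h.lB hc x (mem_sdiff.2 ⟨(mem_sdiff.1 hx).1, hr⟩))
  · rw [hO]; exact h.ul
  · intro y hy
    exact (sum_le_sum_of_subset_of_nonneg (erase_subset_erase y hs)
      fun _ _ _ => by positivity).trans (h.gs y (hs hy))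
  · rw [hO]; exact h.dec
  · refine h.cov.imp (fun he => ?_) id
    exact subset_empty.1 (he ▸ hs)

theorem t_next (h : S_MONO) : S_NEXT := by
  intro d M _ E q q' S hE hq hq' hn hI
  have hP : (9 : ℝ) ≤ q.P := by
    refine le_trans ?_ hq.P1
    have a1 : (1 : ℝ) ≤ (d : ℝ) ^ 2 := one_le_pow₀ (by exact_mod_cast hE.d1)
    have a2 : (1 : ℝ) ≤ E.CS ^ 2 := one_le_pow₀ hE.ref.c1
    have a3 : (1 : ℝ) ≤ (d : ℝ) ^ 2 * E.CS ^ 2 := one_le_mul_of_one_le_of_one_le a1 a2
    rw [mul_assoc]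
    linarith
  have hP0 : (0 : ℝ) < q.P := by linarith
  have h9 : 9 / (q.P : ℝ) ^ 3 ≤ 1 / (q.P : ℝ) ^ 2 := by
    rw [div_le_div_iff₀ (by positivity) (by positivity)]
    nlinarith [sq_nonneg (q.P : ℝ)]
  have h3 : 3 / (q.P : ℝ) ^ 3 ≤ 1 / (q.P : ℝ) ^ 2 :=
    le_trans (div_le_div_of_nonneg_right (by norm_num) (by positivity)) h9
  have hPP : (q.P : ℝ) ^ 20 ≤ (q'.P : ℝ) ^ 20 :=
    pow_le_pow_left₀ hP0.le (by exact_mod_cast hn.P) 20
  have hθ : q.θ + 9 / (q.P : ℝ) ^ 3 ≤ q'.θ := by linarith [hn.θ]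
  have haA : q.μ / 4 ≤ q'.μ / 2 := by rw [hn.μ]; linarith
  have hnA : q.n / 8 ≤ q'.n / 2 := by
    unfold Par.n
    rw [hn.μ]
    nlinarith [mul_le_mul_of_nonneg_right hPP (sq_nonneg q.μ)]
  have hgs : q.μ ^ 2 / 4 ≤ q'.μ ^ 2 := by rw [hn.μ]; linarith
  have hl : 1 ≤ q.li E.η 3 := by
    unfold Par.li Par.Lg
    have a1 : 0 < q.P := by exact_mod_cast hP0
    have a2 : 0 < ⌈1 / E.η⌉₊ := Nat.ceil_pos.2 (one_div_pos.2 hE.η0)
    have a3 : 0 < q.l := lt_of_lt_of_le hE.ref.l1 hq.l0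
    exact Nat.succ_le_of_lt (by positivity)
  cases hs : q'.start
  · obtain ⟨e1, e2, e3⟩ := hn.same hs
    have hb : q'.bPre E.η = q'.bIn E.η := by simp [Par.bPre, hs]
    rw [hb]
    refine h d M E _ _ S hI hθ hn.mis haA hnA hgs hn.B hl hn.l e3 (fun _ => ⟨rfl, ?_, ?_⟩)
      hE.ref.p0
    · change (q.ζ + 3 / (q.P : ℝ) ^ 3) ^ 2 * q.μJ ≤ q'.ζ ^ 2 * q'.μJ
      have hμ : 0 < q.μ := pow_pos hq.e0 200
      have hJ : 0 ≤ q.μJ := by linarith [hq.J1]
      have hz : 0 ≤ q.ζ + 3 / (q.P : ℝ) ^ 3 := by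
        have : 0 ≤ 3 / (q.P : ℝ) ^ 3 := by positivity
        linarith [hq.ζ0]
      rw [e1]
      exact mul_le_mul_of_nonneg_right (pow_le_pow_left₀ hz (by linarith) 2) hJ
    · change q.nJ / 2 ≤ q'.nJ / 2
      unfold Par.nJ
      rw [e1]
      linarith [mul_le_mul_of_nonneg_right hPP (sq_nonneg q.μJ)]
  · have hb : q'.bPre E.η = { q'.bIn E.η with fin := false, chk := false } := by
      simp [Par.bPre, hs]
    rw [hb]
    exact h d M E _ _ S hI hθ hn.mis haA hnA hgs hn.B hl hn.l (hn.new hs).symm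
      (fun hc => absurd hc (by simp)) hE.ref.p0

end Pool.Agent.P.MP_d0f69c_mp.XS
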