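import Pool.Agent.P.MP_d0f69c_mp.XS.IfG
import Pool.Agent.P.MP_d0f69c_mp.XS.Mono

/-!
The local flows glue.
-/

set_option autoImplicit false

open Finset Real

namespace Pool.Agent.P.MP_d0f69c_mp.XS

theorem t_glue (h1 : S_G1) (h2 : S_G2) (h3 : S_G3) (h4 : S_G4) (h5 : S_G5) (h6 : S_G6)
    (h7 : S_G7) (h8 : S_G8) : S_GLUE := by
  intro d M _ E q S J ω κ hE hq h hs hκ hf
  have H : GH E q S J ω κ := ⟨hE, hq, h, hs, hκ, hf⟩
  have gd := h1 d M E q S J ω κ H
  have ge := h2 d M E q S J ω κ H gd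
  obtain ⟨a1, a2, a3, a4⟩ := h7 d M E q S J ω κ H gd
  have a5 := h8 d M E q S J ω κ H gd
  have hP := hq.Ppos hE
  have p3 : 0 < 1 / (q.P : ℝ) ^ 3 := by positivity
  have e2 : 2 / (q.P : ℝ) ^ 3 = 2 * (1 / (q.P : ℝ) ^ 3) := by ring
  have e5 : 5 / (q.P : ℝ) ^ 3 = 5 * (1 / (q.P : ℝ) ^ 3) := by ring
  have t0 := hq.θ0
  have t5 := hq.θ_add hE (c := 5) (by norm_num)
  have b1 : (q.b1 E.η).θ = q.θ + 1 / (q.P : ℝ) ^ 3 := rfl
  have b2 : (q.b2 E.η).θ = q.θ + 5 / (q.P : ℝ) ^ 3 := rfl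
  have sg : S.sig \ J ⊆ S.good := sdiff_subset.trans hs.sg
  have zg : S.Zg J ⊆ S.good := sdiff_subset.trans sdiff_subset
  have top := pre_top κ (S.Zg J) (Nat.lt_succ_self _)
  have hO : (S.close J ω).O = S.O \ S.Zg J := by
    ext x
    have c1 := @hs.sg x
    have c2 : x ∈ S.good → x ∉ S.omg := fun a => disjoint_left.1 h.go a
    have c3 : x ∈ S.good → x ∉ S.junk := fun a => disjoint_left.1 h.gj a
    simp only [St.O, St.close, St.Zg, mem_union, mem_sdiff, mem_inter]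
    tauto
  have hW : ∀ x ∈ S.O \ S.Zg J, (S.close J ω).W x = S.W x := fun x hx => Wc_out (mem_sdiff.1 hx).2
  have hA : (S.close J ω).rowA q.fin ⊆ S.rowA q.fin ∧
      (S.close J ω).rowA q.fin ⊆ (S.close J ω).O ∧ S.sig \ J ⊆ (S.close J ω).rowA q.fin := by
    unfold St.rowA
    split_ifs
    exacts [⟨sg, St.good_sub _, subset_rfl⟩,
      ⟨union_subset_union_left sg, subset_union_left, subset_union_left⟩]
  refine ⟨⟨h.go.mono_left sg, ?_, ?_, h.oΩ, h.gΩ.mono_left sg, ?_, fun x hx => ?_, fun x hx => ?_,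
    fun x hx => ?_, fun x hx => ?_, a2, fun _ => a3, fun x hx => ?_, fun _ x hx => ?_, ?_, ?_,
    fun y hy => ?_, ?_, h.cov.imp (fun he => subset_empty.1 (sg.trans he.le)) id⟩, a4,
    fun hl => subset_empty.1 (hs.lst hl ▸ sdiff_subset)⟩
  · refine disjoint_union_right.2 ⟨h.gj.mono_left sg, ?_⟩
    exact disjoint_left.2 fun x hx hx' => (mem_sdiff.1 hx).2 (mem_inter.1 hx').2
  · exact disjoint_union_right.2 ⟨h.oj, h.go.symm.mono_right inter_subset_left⟩
  · obtain ⟨U, V, Y, c1, c2, c3, c4⟩ := h.phys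
    exact ⟨U, V, Y, MonoA.blk_mono c1 subset_union_left, MonoA.blk_mono c2 subset_union_left,
      MonoA.blk_mono c3 subset_union_left, c4⟩
  · rw [hO] at hx
    have c := h.opn x (mem_sdiff.1 hx).1
    simp only [aw, hW x hx, b1, b2] at c ⊢
    constructor <;> linarith [c.1, c.2]
  · by_cases c : x ∈ S.Zg J
    · rw [show (S.close J ω).W x = sgn (ω x) from Wc_in c]
      cases ω x <;> simp [sgn]
    · rw [show (S.close J ω).W x = S.W x from Wc_out c]
      exact h.cls x fun a => hx (hO ▸ mem_sdiff.2 ⟨a, c⟩)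
  · rw [hW x (hO ▸ St.omg_sub _ hx)]
    exact h.oW x hx
  · rw [hW x (hO ▸ St.good_sub _ hx)]
    exact a1 x hx
  · have c := a5 x (hA.2.1 hx)
    rwa [μr, if_pos (hA.1 hx)] at c
  · have c := a5 x (mem_sdiff.1 hx).1
    rw [erase_eq_of_notMem fun a => (mem_sdiff.1 hx).2 (hA.2.2 a)] at c
    refine c.trans (div_le_div_of_nonneg_right (mul_le_mul_of_nonneg_left ?_ (by positivity))
      (by norm_num))
    exact pow_le_pow_left₀ (hq.μr_pos S x).le (hq.μr_le S x) 2
  · have c := chain_fs (H := S.H) (ω := ω) hκ (zg.trans S.good_sub) (fun x hx => h.aw_zero hx) _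
      (fun s _ => h.gok hE (by linarith) ((pre_sub s).trans zg) ω)
      (fun v hv => lt_of_lt_of_le (by norm_num) (ge.deg v (pre_sub ((S.Zg J).sup κ + 1) hv)))
    rw [top] at c
    have c1 := t_ulfs d M E.p _ _ _ _ _ _ (4 * (1 / (q.P : ℝ) ^ 3)) h.ul c fun F => by
      have u1 := h3 d M E q S J ω κ H ge F
      have u2 := h4 d M E q S J ω κ H ge F
      have u3 := (abs_sum_le_sum_abs _ _).trans u1
      rw [sum_sub_distrib] at u3
      have u4 := mul_nonneg p3.le (NF_nonneg hE.ref.p0 F)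
      rw [e2] at u2
      rw [abs_le] at u2 u3 ⊢
      constructor <;> linarith [u2.1, u2.2, u3.1, u3.2]
    rw [hO, b2, show q.θ + 5 / (q.P : ℝ) ^ 3 = (q.b1 E.η).θ + 4 * (1 / (q.P : ℝ) ^ 3) by
      rw [b1]; ring]
    exact c1
  · have c := chain_rs (H := S.H) (W := S.W) (ω := ω) (T := S.good \ J) (Z := S.Zg J) hκ
      (sdiff_subset_sdiff sdiff_subset subset_rfl) (fun v hv a => by
        have u1 := (h.opn v (S.good_sub (zg hv))).1
        have u2 : ‖S.W v‖ ^ 2 = 1 := by rw [← norm_pow, ← sub_eq_zero.1 a, norm_one]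
        nlinarith [norm_nonneg (S.W v)]) ((S.Zg J).sup κ + 1)
    have c1 : (S.good \ J) \ S.Zg J = S.sig \ J := by
      ext x
      have u := @hs.sg x
      simp only [St.Zg, mem_sdiff]
      tauto
    rw [top, c1] at c
    exact ((t_fs _).2.2.2.2.2 _ _ _ _ _ _ _ c
      (h.rr.compress (by linarith) (by linarith) sdiff_subset) (by linarith) (by linarith)
      (by linarith) (by linarith) (((h5 d M E q S J ω κ H ge).add (h6 d M E q S J ω κ H ge)).congr
        fun x _ y _ => (sub_add_cancel _ _).symm)).mono (by linarith)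
  · exact (sum_le_sum_of_subset_of_nonneg (erase_subset_erase y sdiff_subset)
      fun _ _ _ => sq_nonneg _).trans (hs.gs y (mem_sdiff.1 hy).1)
  · have c := gd.dec ((S.Zg J).sup κ + 1)
    simp only [Gg, Wg, top] at c
    exact fun x hx => c x (mem_sdiff.1 (hO ▸ hx)).1

end Pool.Agent.P.MP_d0f69c_mp.XS
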