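import Pool.Agent.P.MP_d0f69c_mp.XS.MnD

/-!
The main theorem from the rounds.
-/

set_option autoImplicit false

open Finset Real
open scoped Matrix

namespace Pool.Agent.P.MP_d0f69c_mp.XS

namespace Mn

variable {d M : ℕ} [NeZero M] {E : Env d M} {sc : Sched} {st : ℕ → Stage (Tor d M) E.N}
  {Θ0 : Type} [Fintype Θ0] {S0 : Cfg (Tor d M) E.N → Θ0 → St (Tor d M)}

theorem Data.hist (D : Data E sc st Θ0 S0) {ϖ : Cfg (Tor d M) E.N} {Y : ℕ → St (Tor d M)}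
    (h : Path st S0 ϖ (sc.u (sc.k + 1)) Y) : Hist E sc Y (Y (sc.u (sc.k + 1))).ev := by
  have m : ∀ s t, s ≤ t → t ≤ sc.u (sc.k + 1) → (Y s).ev ⊆ (Y t).ev := fun s t h1 h2 => by
    induction t, h1 using Nat.le_induction with
    | base => exact subset_rfl
    | succ t _ ih => exact (ih (by omega)).trans (D.ev_mono h le_rfl h2)
  have ev : ∀ s < sc.u (sc.k + 1), ∀ x r, NewEv s (Y (s + 1)) x r →
      Ev (Y (sc.u (sc.k + 1))).ev s x r := fun s hs x r ⟨ℓ, a, b⟩ => ⟨ℓ, m _ _ hs le_rfl a, b⟩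
  have b0 : ∀ x, (∃ ℓ ∈ (Y 0).ev, nm (ℓ.2.2 - x) ≤ sc.r0) → Bad sc (Y (sc.u (sc.k + 1))).ev 0 x :=
    fun x ⟨ℓ, a, b⟩ => by
      rcases (D.inv h le_rfl 0 (Nat.zero_le _)).2.2 ℓ a with c | c
      · exact ⟨ℓ, m 0 _ (Nat.zero_le _) le_rfl a, c.1, c.2, b⟩
      · omega
  obtain ⟨τ, e0⟩ := h.1
  refine ⟨fun c x hx => b0 x ?_, fun o ho c => b0 o ?_, fun s hs => ?_, fun s hs => ?_,
    fun s hs => ?_, fun s hs => ?_⟩
  · rw [e0] at c hx ⊢
    exact D.init.junk ϖ τ c x hx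
  · rw [e0] at c ⊢
    exact D.init.omg ϖ τ o ho c
  all_goals
    obtain ⟨α, e⟩ := h.2 s hs
    have a := (D.inv h le_rfl s hs.le).1 hs
    have R := D.rnd s hs
    have v := ev s hs
    rw [e] at v ⊢
  · exact (R.1.sub _ ϖ α a).2.1
  · exact fun c x hx => (R.1.junk _ ϖ α a c x hx).imp_right (v x _)
  · exact fun c o h1 h2 => (R.1.omg _ ϖ α a c o h1 h2).imp_right (v o _)
  · exact fun h1 h2 c x hx i => ((R.2 _ ϖ α a).2 h1 h2 c x hx i).imp (v x _)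
      fun c1 c2 => c1 (mem_union_right _ c2)

theorem blk_one {r : ℕ} {Λ : ℝ} {A : Matrix (Tor d M) (Tor d M) ℝ} (h : Blk ∅ r Λ A) : A = 1 := by
  ext x y
  rw [h.off x y (Or.inl (notMem_empty x)), Matrix.one_apply]

/-- the transmission in the final state -/
theorem final (hP : S_PCI) (hE : E.OK) {b : Bd} {S : St (Tor d M)} {ϖ : Cfg (Tor d M) E.N}
    (h : Inv E b S) (θ0 : 0 ≤ b.θ) (θ1 : b.θ ≤ 2 / 10 ^ 7) (hc : Cons E S ϖ) (hg : S.good = ∅)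
    (hj : S.junk = ∅) (h0 : (0 : Tor d M) ∈ S.omg) (cov : Cover E S.omg) :
    E.η ^ 2 ≤ 1 - ‖rf E.H (Wfin E.σ E.Ω 0 S.U ϖ) 0‖ ^ 2 := by
  have eO : S.O = S.omg := by simp [St.O, hg, hj]
  have eU : S.U = S.omg := by simp [St.U, hg]
  have eH : S.H = E.H := by
    obtain ⟨U, V, Y, a, -, c, -, -, e⟩ := h.phys
    rw [hj] at a c
    rw [e, blk_one a, blk_one c]
    simp
  have eW : Wfin E.σ E.Ω 0 S.U ϖ = S.W := funext fun y => by
    by_cases c : y ∈ S.omg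
    · simp [Wfin, eU, c, h.oΩ c, h.oW y c]
    · have c1 : y ≠ 0 := fun e => c (e ▸ h0)
      simp [Wfin, eU, c, c1, hc y (eO ▸ c), Wt]
  have θ2 : b.θ < 1 := θ1.trans_lt (by norm_num)
  have im : ∀ y, 0 ≤ -(S.W y).im := fun y => by
    by_cases c : y ∈ S.O
    · linarith [h.im_neg hE θ2 c]
    · rcases h.cls y c with e | e | ⟨k, e⟩ <;> simp [e]
  have hu : IsUnit (NW.MM E.H S.W).det := hE.adm _ fun y => by
    by_cases c : y ∈ S.O
    · exact Or.inl (h.im_neg hE θ2 c)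
    · exact Or.inr (h.cls y c)
  have sG : ∀ x y, S.G x y = S.G y x := fun x y => by
    rw [St.G, eH]
    exact NW.GG_symm hE.symm _ _ _
  obtain ⟨c, pc⟩ := hP d M E _ S.O S.omg b.θ hE (fun x y => by
    rw [Kk, Kk, sG x y, mul_comm (aw _ _ x)]) h.ul θ0 θ1 eO.ge cov
  have h1 := (pc.deg (eO ▸ h0)).1
  have η0 := hE.η0
  have h2 : ∑ y ∈ S.O.erase 0, Kk E.η S.W S.G 0 y ≤ ∑ y ∈ univ.erase 0, Kk E.η S.W S.G 0 y :=
    sum_le_sum_of_subset_of_nonneg (erase_subset_erase _ (subset_univ _)) fun y _ _ =>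
      mul_nonneg (mul_nonneg (div_nonneg (im _) η0.le) (div_nonneg (im _) η0.le)) (sq_nonneg _)
  have h3 : 4 * -(S.W 0).im * ∑ y ∈ univ.erase 0, -(S.W y).im * ‖NW.GG E.H S.W y 0‖ ^ 2 =
      4 * E.η ^ 2 * ∑ y ∈ univ.erase 0, Kk E.η S.W S.G 0 y := by
    rw [mul_sum, mul_sum]
    refine sum_congr rfl fun y _ => ?_
    rw [Kk, sG 0 y, St.G, eH, aw, aw]
    field_simp
  rw [eW, one_sub_rf hE.symm hu, h3]
  nlinarith [sq_nonneg E.η]

end Mn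

open Mn in
theorem t_main (hR : S_ROUND) (hN : S_NEXT) (hI : S_INDEP) (hP : S_PCI) : S_MAIN := by
  classical
  intro d M _ E sc hE hs hW Θ0 _ _ S0 h0
  have h1 : ∀ s, ∃ st : Stage (Tor d M) E.N, s < sc.u (sc.k + 1) → Rnd E (sc.q s) s st := fun s => by
    by_cases c : s < sc.u (sc.k + 1)
    · obtain ⟨st, h⟩ := hR d M E _ s hE (hs.ok s c)
      exact ⟨st, fun _ => h⟩
    · exact ⟨⟨Unit, inferInstance, inferInstance, fun S _ _ => S⟩, fun h => absurd h c⟩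
  choose st hst using h1
  have D : Data E sc st Θ0 S0 := ⟨hE, hs, hN, hst, h0⟩
  obtain ⟨Θ, _, _, X, hX⟩ := D.proc _ le_rfl
  refine ⟨Θ, _, inferInstance, fun ϖ τ => (X ϖ τ).U,
    fun ϖ ϖ' τ e => congrArg St.U (hX.causal ϖ τ ϖ' e),
    _, card_half (A := fun z : Cfg (Tor d M) E.N × Θ => ¬ Fail E sc (X z.1 z.2).ev)
      ((pr_mono fun z hz => not_not.1 hz).trans
        ((wit_fail hE hs).pr_le (D.joint hI hW hX))), fun z hz => ?_⟩
  simp only [mem_filter, mem_univ, true_and, Fail, not_or, not_exists, not_forall] at hz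
  beta_reduce
  obtain ⟨Y, p, e⟩ := hX.path z.1 z.2
  rw [← e] at hz ⊢
  obtain ⟨a1, a2, a3⟩ := (D.hist p).fin hE hs hz.1.1 hz.1.2 fun x => by
    obtain ⟨o, b1, b2, b3⟩ := hz.2.1 x
    exact ⟨o, b1, b2, b3⟩
  have n0 : 0 < sc.u (sc.k + 1) := (Nat.zero_le _).trans_lt (hs.um _ le_rfl)
  obtain ⟨n, hn⟩ : ∃ n, sc.u (sc.k + 1) = n + 1 := ⟨_, (Nat.succ_pred_eq_of_pos n0).symm⟩
  have n1 : n < sc.u (sc.k + 1) := by omega
  obtain ⟨α, e1⟩ := p.2 n n1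
  have i1 := (D.inv p le_rfl n n1.le).1 n1
  have ok := hs.ok n n1
  have l := hs.lst
  have c := (D.inv p le_rfl _ le_rfl).2.1
  have z0 : (0 : Tor d M) ∈ E.Ω := by simp [hs.Ω, Om]
  have a4 := a1 0 z0 hz.2.2
  rw [hn] at l a2 a3 a4 c ⊢
  rw [e1] at a2 a3 a4 c ⊢
  refine final hP hE ((hst n n1).1.post _ z.1 α i1) ?_ ?_ c (((hst n n1).2 _ z.1 α i1).1 l) a3 a4 a2
  · exact add_nonneg ok.θ0 (by positivity)
  · exact (ok.θ_add hE (c := 9) (by norm_num)).trans (by norm_num)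

end Pool.Agent.P.MP_d0f69c_mp.XS
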