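import Pool.Agent.P.MP_d0f69c_mp.XS.Comp

/-!
One round of the process: classification, Newton step, selection, closing, healing.
-/

set_option autoImplicit false

open Finset Real

namespace Pool.Agent.P.MP_d0f69c_mp.XS

namespace Round

variable {d M : ℕ} [NeZero M] {E : Env d M} {q : Par}

/-- the deterministic first step on one state -/
theorem first_pt (h1 : S_CLASS) (h2 : S_NEWTON) (hE : E.OK) (hq : q.OK E) (S : St (Tor d M)) :
    ∃ S' : St (Tor d M), S'.ev = S.ev ∧ S'.good ⊆ S.good ∧ S'.omg = S.omg ∧ S'.O = S.O ∧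
      S.junk ⊆ S'.junk ∧ (∀ x ∉ S.O, S'.W x = S.W x) ∧ (q.start = false → S'.junk = S.junk) ∧
      (∀ x ∈ S'.junk, x ∈ S.junk ∨ (q.start = true ∧ ∃ y ∈ S.junk, nm (y - x) ≤ q.D E.η 0)) ∧
      (Inv E (q.bPre E.η) S → Inv E (q.b1 E.η) S') := by
  by_cases h : Inv E (q.bPre E.η) S
  swap
  · exact ⟨S, rfl, Subset.rfl, rfl, rfl, Subset.rfl, fun _ _ => rfl, fun _ => rfl,
      fun _ hx => Or.inl hx, fun h' => absurd h' h⟩
  have h3 := h1 d M E q S hE hq h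
  by_cases hs : q.start = true
  · rw [if_pos hs] at h3
    obtain ⟨W', hW, hI⟩ := h2 d M E q _ hE hq h3
    refine ⟨_, ?_, ?_, ?_, ?_, ?_, fun x hx => ?_, fun h => ?_, fun x hx => ?_, fun _ => hI⟩
    · rfl
    · exact sdiff_subset
    · rfl
    · ext x
      simp only [St.O, St.freeze, mem_union, mem_sdiff, mem_inter]
      tauto
    · exact subset_union_left
    · exact hW x fun h => hx (mem_union_left _ (mem_union_left _ (mem_sdiff.1 h).1))
    · rw [hs] at h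
      exact absurd h (by decide)
    · rcases mem_union.1 hx with h | h
      · exact Or.inl h
      · exact Or.inr ⟨hs, (mem_filter.1 (mem_inter.1 h).2).2⟩
  · rw [if_neg hs] at h3
    obtain ⟨W', hW, hI⟩ := h2 d M E q _ hE hq h3
    exact ⟨{ S with W := W' }, rfl, Subset.rfl, rfl, rfl, Subset.rfl,
      fun x hx => hW x fun h => hx (mem_union_left _ (mem_union_left _ h)), fun _ => rfl,
      fun _ hx => Or.inl hx, fun _ => hI⟩

/-- the first step as a stage -/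
theorem first (h1 : S_CLASS) (h2 : S_NEWTON) (hE : E.OK) (hq : q.OK E) (s : ℕ) :
    ∃ st : Stage (Tor d M) E.N,
      Spec E q s st (Inv E (q.bPre E.η)) (Inv E (q.b1 E.η)) ∅
        (fun S x => x ∈ S.junk ∨ (q.start = true ∧ ∃ y ∈ S.junk, nm (y - x) ≤ q.D E.η 0))
        (q.D E.η 0) 0 ∧
      ∀ S ϖ α, (st.run S ϖ α).omg = S.omg ∧ (q.start = false → (st.run S ϖ α).junk = S.junk) := by
  choose f a1 a2 a3 a4 a5 a6 a7 a8 a9 using first_pt h1 h2 hE hq
  refine ⟨⟨Unit, inferInstance, inferInstance, fun S _ _ => f S⟩, ⟨fun S _ _ => ⟨?_, fun _ _ => rfl⟩,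
    fun S _ _ => ⟨(a1 S).ge, fun ℓ hl hn => absurd (a1 S ▸ hl) hn⟩, fun S _ _ h => a9 S h,
    fun S w _ _ hc x hx => ?_, fun S _ _ _ => ⟨a2 S, (a3 S).le, (a4 S).le⟩,
    fun i hi => absurd hi (notMem_empty i), fun S _ _ c _ _ hl hn => absurd (a1 S ▸ hl) hn,
    fun S _ _ _ _ x hx => Or.inl (a8 S x hx), fun S _ _ _ _ o ho hn => absurd (a3 S ▸ ho) hn⟩,
    fun S _ _ => ⟨a3 S, a7 S⟩⟩
  · exact union_subset_union (a2 S) (a3 S).le
  · have hx' : x ∉ S.O := a4 S ▸ hx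
    exact (a6 S x hx').trans (hc x hx')

end Round

theorem t_round (h1 : S_CLASS) (h2 : S_NEWTON) (h3 : S_SELECT) (h4 : S_CLOSE) (h5 : S_HEAL) :
    S_ROUND := by
  intro d M _ E q s hE hq
  obtain ⟨s1, p1, q1⟩ := Round.first h1 h2 hE hq s
  obtain ⟨s2, p2, q2⟩ := h3 d M E q s hE hq
  obtain ⟨s3, p3, q3⟩ := h4 d M E q s hE hq
  obtain ⟨s4, p4, q4⟩ := h5 d M E q s hE hq
  have d02 := hq.D_mono hE (show 0 ≤ 2 by norm_num)
  have d12 := hq.D_mono hE (show 1 ≤ 2 by norm_num)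
  have d23 := hq.D_grow hE (show 2 < 3 by norm_num)
  have hrad : q.rad E.η = 20 * q.D E.η 3 := rfl
  have hs : ∀ r, q.D E.η 0 ≤ r → ∀ (S : St (Tor d M)) (y : Tor d M),
      (y ∈ S.junk ∨ (q.start = true ∧ ∃ y' ∈ S.junk, nm (y' - y) ≤ q.D E.η 0)) →
      ∃ y' ∈ S.junk, nm (y' - y) ≤ r := by
    rintro r hr S y (h | ⟨-, y', h, h'⟩)
    · exact ⟨y, h, by rw [nm_self]; omega⟩
    · exact ⟨y', h, h'.trans hr⟩
  have p12 := p1.comp p2 (r := q.D E.η 2) (ro := q.D E.η 0) (fun _ h => h) (by decide)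
    (fun S w α _ => (q1 S w α).1) d02 le_rfl (by omega) (hs _ le_rfl) hE.N0
  have o12 : ∀ S w α, Inv E (q.bPre E.η) S → ((s1.comp s2).run S w α).omg = S.omg :=
    fun S w α h => (q2 _ w α.2 (p1.post S w α.1 h)).1.trans (q1 S w α.1).1
  have p123 := p12.comp p3 (r := q.D E.η 3) (ro := q.D E.η 2) (fun _ h => h) (by decide)
    o12 (by omega) le_rfl (by omega) (hs _ d02) hE.N0
  have o123 : ∀ S w α, Inv E (q.bPre E.η) S → (((s1.comp s2).comp s3).run S w α).omg = S.omg :=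
    fun S w α h => (q3 _ w α.2 (p12.post S w α.1 h).1 (p12.post S w α.1 h).2).1.trans
      (o12 S w α.1 h)
  have p := p123.comp p4 (r := q.rad E.η) (ro := q.rad E.η) (fun _ h => h.1) (by decide)
    o123 (by omega) (by omega) (by omega) (hs _ (by omega)) hE.N0
  have hT : (∅ ∪ {0} ∪ {1} ∪ {2, 3} : Finset (Fin 5)) = {0, 1, 2, 3} := by decide
  rw [hT] at p
  refine ⟨_, p, fun S w α hS => ?_⟩
  obtain ⟨⟨⟨α1, α2⟩, α3⟩, α4⟩ := α
  have i1 := p1.post S w α1 hS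
  have i2 := p2.post _ w α2 i1
  have i3 := p3.post _ w α3 i2
  obtain ⟨o1, j1⟩ := q1 S w α1
  obtain ⟨o2, j2, k2⟩ := q2 _ w α2 i1
  obtain ⟨o3, j3, k3⟩ := q3 _ w α3 i2.1 i2.2
  have v3 := (p3.tag (s2.run (s1.run S w α1) w α2) w α3).1
  have v4 := (p4.tag (s3.run (s2.run (s1.run S w α1) w α2) w α3) w α4).1
  have u2 := p2.junk _ w α2 i1
  have u3 := p3.junk _ w α3 i2
  have u4 := q4 _ w α4 i3.1
  have g4 := (p4.sub _ w α4 i3.1).1
  change (_ → (s4.run (s3.run (s2.run (s1.run S w α1) w α2) w α3) w α4).good = ∅) ∧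
    (_ → _ → _ → ∀ x ∈ _, _ → NewEv s (s4.run (s3.run (s2.run (s1.run S w α1) w α2) w α3) w α4) x _ ∨
      x ∉ (s4.run (s3.run (s2.run (s1.run S w α1) w α2) w α3) w α4).O)
  generalize s1.run S w α1 = S1 at *
  generalize s2.run S1 w α2 = S2 at *
  generalize s3.run S2 w α3 = S3 at *
  generalize s4.run S3 w α4 = S4 at *
  refine ⟨fun hl => subset_empty.1 (i3.2.2 hl ▸ g4), fun hl hst hc x hx hI => ?_⟩
  refine or_iff_not_imp_left.2 fun hn => ?_
  have c2 : Cover E S2.omg := by rwa [o2, o1]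
  have c3 : Cover E S3.omg := by rwa [o3]
  have j1' := j1 hst
  have old : ∀ y ∈ S3.junk, nm (y - x) ≤ 10 * q.D E.η 3 → y ∈ S.junk := by
    intro y hy hd
    rcases u3 c3 y hy with h | h
    · rcases u2 c2 y h with h | h
      · exact j1' ▸ h
      · exact absurd (h.mono (v3.trans v4) (by omega)) hn
    · exact absurd (h.mono v4 (by omega)) hn
  have hsub : S3.junk ∩ bl x (q.D E.η 2) ⊆ S.junk ∩ bl x (q.D E.η 2) := fun y hy =>
    mem_inter.2 ⟨old y (mem_inter.1 hy).1 ((mem_bl.1 (mem_inter.1 hy).2).trans (by omega)),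
      (mem_inter.1 hy).2⟩
  refine (u4 hl c3 x (j3 (j2 (j1' ▸ hx))) ⟨fun y hy hd => hI.1 y (old y hy hd) (by omega),
    le_trans (by exact_mod_cast card_le_card hsub) hI.2⟩ fun b hb y hy => i3.2.1 b ?_ y hy).resolve_left
    fun h => hn (h.mono Subset.rfl (by rw [nm_self]; omega))
  obtain ⟨b1, b2⟩ := mem_inter.1 (hsub hb)
  rw [k3]
  refine k2 hl b (j1' ▸ b1) (le_trans ?_ hI.2)
  rw [j1']
  refine Nat.cast_le.2 (card_le_card fun z hz => ?_)
  obtain ⟨z1, z2⟩ := mem_inter.1 hz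
  rw [mem_bl] at b2 z2
  have := nm_tri z b x
  exact mem_inter.2 ⟨z1, mem_bl.2 (hI.1 z z1 (by omega))⟩

end Pool.Agent.P.MP_d0f69c_mp.XS
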