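import Pool.Agent.P.MP_d0f69c_mp.XS.Sch4

/-!
The schedule, part 5: rare resonances, and the reduction of target A to the main theorem.
-/

set_option autoImplicit false

open Finset Real MeasureTheory

namespace Pool.Agent.P.MP_d0f69c_mp.XS

theorem pr_coord {ι κ : Type} [Fintype ι] [DecidableEq ι] [Fintype κ] [Nonempty κ] (o : ι)
    (A : κ → Prop) : pr (fun w : ι → κ => A (w o)) = pr A :=
  (pr_equiv (Equiv.funSplitAt o κ) fun z => A z.1).trans (pr_fst A)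

variable {d M : ℕ} [NeZero M]

theorem vl_D {E : Env d M} {q : Par} (hq : q.OK E) (hf : q.fin = false) :
    (vl d M (q.D E.η 3) : ℝ) ≤ exp ((q.P : ℝ) ^ 2) := by
  refine le_trans ?_ (hq.vj hf).1
  exact_mod_cast (vol_tn_le _).trans ((Nat.pow_le_pow_left (by omega) d).trans
    (Nat.pow_le_pow_right (by omega) (Nat.le_add_right d 2)))

open Classical in
theorem wev_le {E : Env d M} {q : Par} (hq : q.OK E) (hf : q.fin = false) (hP : 10 ≤ q.P)
    (h0 : E.σ.im ≤ 0) (h1 : -E.σ.im ≤ 1) (hN : 2 * exp (2 * (q.P : ℝ) ^ 3) ≤ E.N) (c : Tor d M)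
    (hr : ¬ exp (-(q.P : ℝ) ^ 3) / 2 * Fintype.card (Cfg (Tor d M) E.N) ≤
      #{ϖ : Cfg (Tor d M) E.N | Reso E.H E.σ E.Ω (bl 0 (q.D E.η 3)) (exp (-3 * (q.P : ℝ) ^ 3)) c ϖ}) :
    pr (Wev E q c) ≤ exp (-(q.P : ℝ) ^ 3) := by
  have T0 := exp_pos (2 * (q.P : ℝ) ^ 3)
  have N0 : (0 : ℝ) < E.N := by linarith
  have : Nonempty (Fin E.N) := ⟨⟨0, Nat.cast_pos.1 N0⟩⟩
  have P1 : (10 : ℝ) ≤ q.P := by exact_mod_cast hP
  have a1 : pr (Reso E.H E.σ E.Ω (bl 0 (q.D E.η 3)) (exp (-3 * (q.P : ℝ) ^ 3)) c) ≤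
      exp (-(q.P : ℝ) ^ 3) / 2 :=
    (div_le_iff₀ (Nat.cast_pos.2 Fintype.card_pos)).2 (not_le.1 hr).le
  have a2 : ∀ o, pr (fun ϖ : Cfg (Tor d M) E.N => exp (2 * (q.P : ℝ) ^ 3) ≤
      ‖val E.σ E.N (ϖ o).2 - E.σ‖) ≤ 2 * exp (-(2 * (q.P : ℝ) ^ 3)) := fun o => by
    rw [pr_coord o fun z : Bool × Fin E.N => exp (2 * (q.P : ℝ) ^ 3) ≤ ‖val E.σ E.N z.2 - E.σ‖,
      pr_snd fun z : Fin E.N => exp (2 * (q.P : ℝ) ^ 3) ≤ ‖val E.σ E.N z - E.σ‖, pr,
      Fintype.card_fin, div_le_iff₀ N0, exp_neg]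
    have b1 := card_val h0 E.N T0
    have b2 : -E.σ.im * E.N / exp (2 * (q.P : ℝ) ^ 3) ≤ E.N / exp (2 * (q.P : ℝ) ^ 3) :=
      div_le_div_of_nonneg_right (mul_le_of_le_one_left N0.le h1) T0.le
    have b3 := (le_div_iff₀ T0).2 hN
    rw [div_eq_inv_mul (E.N : ℝ)] at b2 b3
    convert b1.trans (show _ ≤ 2 * (exp (2 * (q.P : ℝ) ^ 3))⁻¹ * E.N by linarith)
  have a3 := (pr_ex_le (bl c (q.D E.η 3)) _ fun o _ => a2 o).trans (mul_le_mul_of_nonneg_right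
    ((Nat.cast_le.2 (card_ball _ _).le).trans (vl_D hq hf)) (by positivity))
  have a4 := exp_small (y := (q.P : ℝ) ^ 3 - (q.P : ℝ) ^ 2) (c := 4) 0 (by norm_num)
    (by push_cast; nlinarith)
  have a5 : exp ((q.P : ℝ) ^ 2) * exp (-(2 * (q.P : ℝ) ^ 3)) =
      exp (-(q.P : ℝ) ^ 3) * exp (-((q.P : ℝ) ^ 3 - (q.P : ℝ) ^ 2)) := by
    rw [← exp_add, ← exp_add]
    ring_nf
  refine (pr_or _ _).trans ((add_le_add a1 ((pr_mono fun ϖ ⟨o, _, b, b'⟩ =>
    ⟨o, mem_bl.2 b, b'⟩).trans a3)).trans ?_)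
  nlinarith [mul_le_mul_of_nonneg_left a4 (exp_pos (-(q.P : ℝ) ^ 3)).le]

open Classical in
/-- the energies with frequent resonances in a round -/
theorem bad_le {E : Env d M} {q : Par} (hq : q.OK E) (hf : q.fin = false) {s : ℕ} (hs : s < q.P)
    (hP : 10 ≤ q.P) (hD : 1 ≤ q.D E.η 3) (hρ : E.ρ1 ∣ M) {lam : ℝ} (hl : 0 < lam) {N : ℕ}
    (hN : N ≠ 0) : volume {Eg : ℝ | ∃ c, exp (-(q.P : ℝ) ^ 3) / 2 * Fintype.card (Cfg (Tor d M) N) ≤
      #{ϖ : Cfg (Tor d M) N | Reso (Hn (Lap d M) lam Eg) E.σ (Om d M E.ρ1) (bl 0 (q.D E.η 3))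
        (exp (-3 * (q.P : ℝ) ^ 3)) c ϖ}} ≤ ENNReal.ofReal (lam * ((1 / 2) ^ s / 2)) := by
  have P1 : (10 : ℝ) ≤ q.P := by exact_mod_cast hP
  have P2 : (s : ℝ) ≤ q.P := by exact_mod_cast hs.le
  refine (wegner_avg Lap_symm Lap_add hl (exp_pos _).le (by positivity) hN E.σ
    fun p x hx y hy h1 h2 => ?_).trans (ENNReal.ofReal_le_ofReal ?_)
  · by_contra c
    have h3 := Om_sep hρ h1 h2 (by simpa using c)
    have h4 := nm_tri x 0 y
    have h5 := (hq.vj hf).2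
    rw [add_sub_add_left_eq_sub] at h3
    rw [mem_bl] at hx hy
    rw [nm_comm 0] at h4
    omega
  · have a1 : ((bl (0 : Tor d M) (q.D E.η 3)).card : ℝ) ≤ exp ((q.P : ℝ) ^ 2) := vl_D hq hf
    have a2 : 1 ≤ exp ((q.P : ℝ) ^ 2) := one_le_exp (sq_nonneg _)
    have a3 := exp_small (y := 2 * (q.P : ℝ) ^ 3 - 2 * (q.P : ℝ) ^ 2) (c := 16) s (by norm_num)
      (by nlinarith)
    calc _ ≤ (2 * exp ((q.P : ℝ) ^ 2)) * (exp ((q.P : ℝ) ^ 2) *
          (2 * (lam * exp (-3 * (q.P : ℝ) ^ 3))) / (exp (-(q.P : ℝ) ^ 3) / 2)) := by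
          gcongr
          linarith
      _ = lam * (8 * exp (-(2 * (q.P : ℝ) ^ 3 - 2 * (q.P : ℝ) ^ 2))) := by
          rw [show -(2 * (q.P : ℝ) ^ 3 - 2 * (q.P : ℝ) ^ 2) = (q.P : ℝ) ^ 2 + (q.P : ℝ) ^ 2 +
            -3 * (q.P : ℝ) ^ 3 - -(q.P : ℝ) ^ 3 by ring, exp_sub, exp_add, exp_add]
          field_simp
          norm_num
      _ ≤ _ := by
          gcongr
          linarith

theorem exists_sm {d : ℕ} (hd : 5 ≤ d) {C : ℝ} (hC : 1 ≤ C) :
    ∃ l0 : ℝ, 0 < l0 ∧ ∀ lam, 0 < lam → lam < l0 → ∃ U, SmA d C lam U := by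
  obtain ⟨U0, h0⟩ := Filter.eventually_atTop.1 ((big_ev d).and
    (tendsto_natCast_atTop_atTop.eventually_ge_atTop
      (10 ^ 9 * 10 ^ d * (8 * (16 * d * C ^ 2) ^ 2) ^ 2 : ℝ)))
  refine ⟨1 / (2 * (U0 + 1)) ^ 500, by positivity, fun lam hl h1 => ?_⟩
  rw [lt_one_div hl (by positivity)] at h1
  obtain ⟨n, n1, n2⟩ := exists_nat_pow_near ((one_le_pow₀ (by
    linarith [Nat.cast_nonneg (α := ℝ) U0])).trans h1.le) (one_lt_pow₀ (n := 500) one_lt_two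
      (by norm_num))
  rw [← pow_mul, mul_comm, pow_mul] at n1 n2
  rw [pow_succ' _ n] at n2
  have n3 := lt_of_pow_lt_pow_left₀ 500 (by positivity) (h1.trans n2)
  obtain ⟨b, p⟩ := h0 (2 ^ n) (by exact_mod_cast (show (U0 : ℝ) ≤ 2 ^ n by linarith))
  have u9 : (10 : ℝ) ^ 9 ≤ 2 ^ n := by exact_mod_cast b.u
  refine ⟨2 ^ n, hd, hC, hl, b, p, ?_, ?_⟩
  · push_cast
    exact (le_one_div hl (by positivity)).2 n1
  · push_cast
    refine (one_div_le (by positivity) hl).2 (n2.le.trans ?_)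
    rw [mul_pow, show 520 = 20 + 500 from rfl, pow_add, show 500 = 25 * 20 from rfl, pow_mul 2]
    exact mul_le_mul_of_nonneg_right (pow_le_pow_left₀ (by positivity) (by linarith) _)
      (by positivity)

open Classical in
theorem t_A (h : S_MAIN) : S_A := fun d hd => by
  obtain ⟨C, C1, hC⟩ := init hd
  obtain ⟨l0, l1, hl⟩ := exists_sm hd C1
  refine ⟨l0, l1, fun lam h0 h1 => ?_⟩
  obtain ⟨U, sm⟩ := hl lam h0 h1
  have s1 := sm.small (a := 1) (b := 1) (by norm_num)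
  rw [pow_one, pow_one] at s1
  obtain ⟨M0, hM⟩ := hC lam h0 (by linarith)
  have c0 : 0 < lam / C := by positivity
  have c1 : lam / C ≤ lam := div_le_self h0.le C1
  have c2 : lam ≤ C * lam := le_mul_of_one_le_left h0.le C1
  have c3 : (lam / C) ^ 2 ≤ lam / C := by nlinarith
  refine CoreU.not_sing (a := -(C + 1)) (b := C + 1) (c := (lam / C) ^ 2) (fun R => ?_) h0
    (by positivity)
  set k := R + M0 + 1 with hk
  have ρ1 : R + M0 + 10 ^ 9 ≤ 10 * rr U k := by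
    have := (sm.big.idx (R + M0)).trans
      (Nat.le_self_pow (show 8000 * (aa U (R + M0) + 2) ≠ 0 by omega) _)
    have := sm.big.u
    rw [hk, rr, us]
    omega
  obtain ⟨M, eM⟩ : ∃ M, M = (10 * rr U k) ^ (d + 3) := ⟨_, rfl⟩
  have ρ2 : 3 * (10 * rr U k) ≤ M := by
    refine le_trans ?_ ((Nat.pow_le_pow_right (by omega) (show 2 ≤ d + 3 by omega)).trans eM.ge)
    rw [sq]
    exact Nat.mul_le_mul_right _ (by omega)
  have : NeZero M := ⟨by omega⟩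
  obtain ⟨E0, σ, e0, hI⟩ := hM M (by omega)
  have i0 := hI E0 (by simpa using h0.le)
  obtain ⟨N, n1, n2⟩ : ∃ N : ℕ, 32 * ((Om d M (10 * rr U k)).card : ℝ) / (lam / C) ^ 2 ≤ N ∧
      2 * exp (2 * (aa U k : ℝ) ^ 3) ≤ N :=
    ((tendsto_natCast_atTop_atTop.eventually_ge_atTop _).and
      (tendsto_natCast_atTop_atTop.eventually_ge_atTop _)).exists
  have N0 : N ≠ 0 := Nat.cast_ne_zero.1 (lt_of_lt_of_le (by positivity) n2 : (0 : ℝ) < N).ne'
  have eh := sm.eh (N := N) i0 (by omega) eM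
  have fn : ∀ s, s < us U k → (pq U k M s).fin = false := fun s hs =>
    decide_eq_false fun b => hs.not_ge (sm.big.le_ep.1 b)
  have P10 : ∀ s, 10 ≤ (pq U k M s).P := fun s => le_trans (by norm_num) (sm.big.a9 _)
  let B : ℕ → Set ℝ := fun s => {Eg | ∃ c, exp (-((pq U k M s).P : ℝ) ^ 3) / 2 *
    Fintype.card (Cfg (Tor d M) N) ≤ #{ϖ : Cfg (Tor d M) N | Reso (Hn (Lap d M) lam Eg) σ
      (Om d M (10 * rr U k)) (bl 0 ((pq U k M s).D (-σ.im) 3))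
      (exp (-3 * ((pq U k M s).P : ℝ) ^ 3)) c ϖ}}
  have vB : volume (⋃ s ∈ range (us U k), B s) ≤ ENNReal.ofReal lam := by
    refine (measure_biUnion_finset_le _ _).trans ((sum_le_sum fun s hs => bad_le (eh.ok s)
      (fn s (mem_range.1 hs)) (sm.big.lt_aa s) (P10 s) (le_trans (Nat.one_le_pow _ _
        (by have := sm.big.a9 (ep U s); omega)) (eh.le_D s 3)) eh.sched.ρd h0 N0).trans ?_)
    rw [← ENNReal.ofReal_sum_of_nonneg fun _ _ => by positivity, ← mul_sum, ← sum_div]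
    exact ENNReal.ofReal_le_ofReal (mul_le_of_le_one_right h0.le
      (by linarith [sum_geometric_two_le (us U k)]))
  obtain ⟨e1, e2⟩ := abs_le.1 e0
  refine ⟨σ, c3.trans i0.im, i0.norm.trans (le_trans (by linarith) (one_le_inv₀ (by positivity) |>.2
    (by linarith))), Tor d M, inferInstance, inferInstance, Lap d M, _, _,
    torus_emb (R := R) eh.sched.ρd (show R < 10 * rr U k by omega) (by omega), N,
    (div_le_iff₀' (by positivity)).1 n1,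
    Set.Icc (E0 - lam) (E0 + lam) \ ⋃ s ∈ range (us U k), B s,
    Set.sdiff_subset.trans (Set.Icc_subset_Icc (by linarith) (by linarith)), ?_, fun Eg hE ha => ?_⟩
  · refine le_trans ?_ le_measure_sdiff
    refine le_trans ?_ (tsub_le_tsub_left vB _)
    rw [volume_Icc, ← ENNReal.ofReal_sub _ h0.le]
    exact ENNReal.ofReal_le_ofReal (by linarith)
  · obtain ⟨⟨g1, g2⟩, g3⟩ := hE
    have i1 := hI Eg (abs_le.2 ⟨by linarith, by linarith⟩)
    have eg := sm.eh (N := N) i1 (by omega) eM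
    obtain ⟨Θ, _, _, O, o1, G, o2, o3⟩ := h d M _ (sch U k M)
      (sm.ok i1 (by omega) eM (abs_le.2 ⟨by linarith, by linarith⟩) N0 ha) eg.sched
      (fun s _ hs c => by
        have f1 : ep U s < k := not_le.1 (of_decide_eq_false hs.1)
        refine wev_le (eg.ok s) hs.1 (P10 s) (neg_nonneg.1 eg.ηpos.le) eg.η1 (le_trans ?_ n2) c
          fun b => g3 (Set.mem_biUnion (mem_coe.2 (mem_range.2 (not_le.1 fun b' =>
            f1.not_ge (sm.big.le_ep.2 b')))) ⟨c, b⟩)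
        gcongr
        exact aa_mono U f1.le) Unit _ (init_of (sm.inv i1 (by omega) eM))
    have z : (fun i => (((0 : Zd d) i : ℤ) : ZMod M)) = (0 : Tor d M) := by
      funext i
      simp
    refine ⟨Θ, _, ‹_›, O, o1, G, o2, fun p hp => ?_⟩
    rw [z]
    exact (pow_le_pow_left₀ c0.le i1.im 2).trans (o3 p hp)

end Pool.Agent.P.MP_d0f69c_mp.XS
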