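import Pool.Agent.P.MP_d0f69c_mp.XS.BlockC
import Pool.Agent.P.MP_d0f69c_mp.XS.CT
import Pool.Agent.P.MP_d0f69c_mp.XS.Cell
import Pool.Agent.P.MP_d0f69c_mp.XS.Class
import Pool.Agent.P.MP_d0f69c_mp.XS.Close
import Pool.Agent.P.MP_d0f69c_mp.XS.Far
import Pool.Agent.P.MP_d0f69c_mp.XS.G1
import Pool.Agent.P.MP_d0f69c_mp.XS.G2
import Pool.Agent.P.MP_d0f69c_mp.XS.G3
import Pool.Agent.P.MP_d0f69c_mp.XS.G4
import Pool.Agent.P.MP_d0f69c_mp.XS.G5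
import Pool.Agent.P.MP_d0f69c_mp.XS.G6
import Pool.Agent.P.MP_d0f69c_mp.XS.G7
import Pool.Agent.P.MP_d0f69c_mp.XS.G8
import Pool.Agent.P.MP_d0f69c_mp.XS.Glue
import Pool.Agent.P.MP_d0f69c_mp.XS.Loci
import Pool.Agent.P.MP_d0f69c_mp.XS.Main
import Pool.Agent.P.MP_d0f69c_mp.XS.Mono
import Pool.Agent.P.MP_d0f69c_mp.XS.Round
import Pool.Agent.P.MP_d0f69c_mp.XS.Sch5

/-!
Assembly of the blocks that are finished.
-/

set_option autoImplicit false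

namespace Pool.Agent.P.MP_d0f69c_mp.XS

theorem a_glue : S_GLUE :=
  t_glue (t_g1 (t_ct t_far) t_far) (t_g2 t_far) (t_g3 t_far) (t_g4 t_far t_loci) (t_g5 t_far)
    (t_g6 t_far) (t_g7 t_far) (t_g8 t_far)

theorem a_main (hN : S_NEWTON) (hF : S_FLOW) (hH : S_HEAL) : S_MAIN :=
  t_main (t_round (t_class t_freeze t_far) hN (c_select t_far t_pci)
    (t_close hF a_glue t_cell t_indep) hH) (t_next t_mono) t_indep t_pci

theorem a_A (hN : S_NEWTON) (hF : S_FLOW) (hH : S_HEAL) : S_A := t_A (a_main hN hF hH)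

end Pool.Agent.P.MP_d0f69c_mp.XS
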