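import Mathlib

/- The number of healing attempts is bounded by a determinant count. -/

namespace Pool.Agent.P.MP_d0f69c_mp.XS

open Finset Matrix
open scoped ComplexOrder

namespace Att

variable {ι : Type} [Fintype ι] [DecidableEq ι]

noncomputable def Q (u : ℕ → ι → ℂ) (k : ℕ) : Matrix ι ι ℂ :=
  1 + ∑ j ∈ range k, vecMulVec (u j) (star (u j))

theorem Q_pos (u : ℕ → ι → ℂ) (k : ℕ) : (Q u k).PosDef :=
  PosDef.one.add_posSemidef (posSemidef_sum _ fun _ _ => posSemidef_vecMulVec_self_star _)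

omit [Fintype ι] in
theorem Q_succ (u : ℕ → ι → ℂ) (k : ℕ) : Q u (k + 1) = Q u k + vecMulVec (u k) (star (u k)) := by
  rw [Q, Q, sum_range_succ, add_assoc]

theorem nsq (z : ℂ) : z * star z = ((‖z‖ ^ 2 : ℝ) : ℂ) := by
  rw [Complex.star_def, Complex.mul_conj']; push_cast; rfl

theorem Q_form (u : ℕ → ι → ℂ) (k : ℕ) (φ : ι → ℂ) :
    φ ⬝ᵥ (Q u k *ᵥ star φ) =
      ((∑ j ∈ range k, ‖∑ b, φ b * u j b‖ ^ 2 + ∑ b, ‖φ b‖ ^ 2 : ℝ) : ℂ) := by
  rw [Q, add_mulVec, one_mulVec, dotProduct_add, sum_mulVec, dotProduct_sum, add_comm,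
    Complex.ofReal_add, Complex.ofReal_sum, Complex.ofReal_sum]
  congr 1
  · refine sum_congr rfl fun j _ => ?_
    rw [vecMulVec_mulVec, dotProduct_smul, MulOpposite.smul_eq_mul_unop, MulOpposite.unop_op,
      star_dotProduct_star, nsq]
    rfl
  · exact sum_congr rfl fun b _ => nsq _

theorem Q_trace (u : ℕ → ι → ℂ) (k : ℕ) :
    (Q u k).trace = ((Fintype.card ι + ∑ j ∈ range k, ∑ b, ‖u j b‖ ^ 2 : ℝ) : ℂ) := by
  rw [Q, trace_add, trace_one, trace_sum, Complex.ofReal_add, Complex.ofReal_sum]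
  congr 1
  refine sum_congr rfl fun j _ => ?_
  rw [trace_vecMulVec, Complex.ofReal_sum]
  exact sum_congr rfl fun b _ => nsq _

theorem det_le {A : Matrix ι ι ℂ} (hA : A.PosSemidef) {t : ℝ} (ht : A.trace.re ≤ t) :
    ‖A.det‖ ≤ t ^ Fintype.card ι := by
  have h1 : A.trace.re = ∑ i, hA.1.eigenvalues i := by
    rw [hA.1.trace_eq_sum_eigenvalues, Complex.re_sum]; simp
  rw [hA.1.det_eq_prod_eigenvalues, norm_prod, ← card_univ, ← prod_const]
  refine prod_le_prod (fun _ _ => norm_nonneg _) fun i _ => ?_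
  rw [RCLike.norm_ofReal, abs_of_nonneg (hA.eigenvalues_nonneg i)]
  exact (single_le_sum (fun j _ => hA.eigenvalues_nonneg j) (mem_univ i)).trans (h1 ▸ ht)

theorem det_step {A : Matrix ι ι ℂ} (hA : A.PosDef) {u φ : ι → ℂ} {a : ℝ}
    (ha : φ ⬝ᵥ (A *ᵥ star φ) = a) (h : 3 * a < ‖φ ⬝ᵥ u‖ ^ 2) :
    4 * ‖A.det‖ ≤ ‖(A + vecMulVec u (star u)).det‖ := by
  have hu : IsUnit A.det := (isUnit_iff_isUnit_det _).1 hA.isUnit
  obtain ⟨y, h1⟩ : ∃ y, A *ᵥ y = u :=
    ⟨A⁻¹ *ᵥ u, by rw [mulVec_mulVec, mul_nonsing_inv _ hu, one_mulVec]⟩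
  have h2 : ∀ w, star y ⬝ᵥ (A *ᵥ w) = star u ⬝ᵥ w := fun w => by
    rw [dotProduct_mulVec, ← h1, star_mulVec, hA.1.eq]
  have h3 : (A + vecMulVec u (star u)).det = A.det * (1 + star u ⬝ᵥ y) := by
    rw [← det_one_add_replicateCol_mul_replicateRow (ι := Unit), ← vecMulVec_eq Unit, ← det_mul,
      mul_add, mul_one, mul_vecMulVec, h1]
  obtain ⟨s, hs0, hs⟩ : ∃ s : ℝ, 0 ≤ s ∧ star u ⬝ᵥ y = s := by
    have h4 := hA.posSemidef.dotProduct_mulVec_nonneg y
    rw [h2] at h4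
    obtain ⟨h5, h6⟩ := Complex.nonneg_iff.1 h4
    exact ⟨_, h5, Complex.ext rfl (by simpa using h6.symm)⟩
  have ha0 : 0 ≤ a := by
    have h4 := hA.posSemidef.dotProduct_mulVec_nonneg (star φ)
    rw [star_star, ha] at h4
    exact_mod_cast h4
  set β := φ ⬝ᵥ u with hβ
  have h7 := hA.posSemidef.dotProduct_mulVec_nonneg (star φ - (star β / 3) • y)
  have h8 : star (star φ - (star β / 3) • y) ⬝ᵥ (A *ᵥ (star φ - (star β / 3) • y)) =
      ((a - 2 / 3 * ‖β‖ ^ 2 + ‖β‖ ^ 2 / 9 * s : ℝ) : ℂ) := by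
    have e : star (star β / 3) = β / 3 := by simp
    rw [star_sub, star_smul, star_star, e, sub_dotProduct, smul_dotProduct, h2, mulVec_sub,
      mulVec_smul, h1, dotProduct_sub, dotProduct_smul, dotProduct_sub, dotProduct_smul, ha, hs,
      star_dotProduct_star, ← hβ]
    have := nsq β
    push_cast at this ⊢
    simp only [smul_eq_mul]
    linear_combination (-2 / 3 + (s : ℂ) / 9) * this
  rw [h8] at h7
  have h9 : 0 ≤ a - 2 / 3 * ‖β‖ ^ 2 + ‖β‖ ^ 2 / 9 * s := by exact_mod_cast h7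
  have h10 : 3 ≤ s := by
    by_contra hc
    have : ‖β‖ ^ 2 * s ≤ ‖β‖ ^ 2 * 3 := mul_le_mul_of_nonneg_left (not_le.1 hc).le (sq_nonneg _)
    linarith
  rw [h3, hs, norm_mul, mul_comm]
  refine mul_le_mul_of_nonneg_left ?_ (norm_nonneg _)
  have e : (1 + (s : ℂ)) = ((1 + s : ℝ) : ℂ) := by push_cast; rfl
  rw [e, Complex.norm_real, Real.norm_eq_abs, abs_of_nonneg (by linarith)]
  linarith

end Att

/-- If each new source vector is seen by some functional at least three times as strongly as all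
earlier ones and the unit vectors together, the number of vectors is logarithmically bounded. -/
theorem att {ι : Type} [Fintype ι] [DecidableEq ι] (u : ℕ → ι → ℂ) (K : ℕ) {Θ : ℝ}
    (hu : ∀ k < K, ∑ b, ‖u k b‖ ^ 2 ≤ Θ)
    (h : ∀ k < K, ∃ φ : ι → ℂ, 3 * (∑ j ∈ range k, ‖∑ b, φ b * u j b‖ ^ 2 + ∑ b, ‖φ b‖ ^ 2)
      < ‖∑ b, φ b * u k b‖ ^ 2) :
    (4 : ℝ) ^ K ≤ (Fintype.card ι + K * Θ) ^ Fintype.card ι := by
  have h1 : ∀ k ≤ K, (4 : ℝ) ^ k ≤ ‖(Att.Q u k).det‖ := fun k => by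
    induction k with
    | zero => intro _; simp [Att.Q]
    | succ k ih =>
      intro hk
      obtain ⟨φ, hφ⟩ := h k hk
      have := Att.det_step (Att.Q_pos u k) (Att.Q_form u k φ) hφ
      rw [Att.Q_succ, pow_succ]
      linarith [ih (by omega)]
  refine (h1 K le_rfl).trans (Att.det_le (Att.Q_pos u K).posSemidef ?_)
  rw [Att.Q_trace, Complex.ofReal_re]
  have := sum_le_card_nsmul (range K) _ Θ fun k hk => hu k (mem_range.1 hk)
  rw [card_range, nsmul_eq_mul] at this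
  linarith

/-- numerical form: at most `m` sources, `Θ ≤ exp a`, then there are fewer than `K` attempts as
soon as `m (a + log (m + K)) < K` -/
theorem att_lt {ι : Type} [Fintype ι] [DecidableEq ι] (u : ℕ → ι → ℂ) (K : ℕ) {a m : ℝ}
    (hm : (Fintype.card ι : ℝ) ≤ m) (hm1 : 1 ≤ m) (ha : 0 ≤ a)
    (hK : m * (a + Real.log (m + K)) < K) (hu : ∀ k < K, ∑ b, ‖u k b‖ ^ 2 ≤ Real.exp a)
    (h : ∀ k < K, ∃ φ : ι → ℂ, 3 * (∑ j ∈ range k, ‖∑ b, φ b * u j b‖ ^ 2 + ∑ b, ‖φ b‖ ^ 2)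
      < ‖∑ b, φ b * u k b‖ ^ 2) : False := by
  have h1 := att u K hu h
  have hK0 : (0 : ℝ) ≤ K := Nat.cast_nonneg _
  have he : 1 ≤ Real.exp a := Real.one_le_exp ha
  have hl : 0 ≤ Real.log (m + K) := Real.log_nonneg (by linarith)
  have h2 : (Fintype.card ι : ℝ) + K * Real.exp a ≤ Real.exp (a + Real.log (m + K)) := by
    rw [Real.exp_add, Real.exp_log (by linarith)]
    nlinarith
  have h3 := pow_le_pow_left₀ (by positivity) h2 (Fintype.card ι)
  rw [← Real.exp_nat_mul] at h3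
  have h4 : Real.exp K ≤ 4 ^ K := by
    rw [← mul_one (K : ℝ), Real.exp_nat_mul]
    exact pow_le_pow_left₀ (Real.exp_pos _).le (by linarith [Real.exp_one_lt_d9]) _
  have h5 := Real.exp_le_exp.1 (h4.trans (h1.trans h3))
  have h6 := mul_le_mul_of_nonneg_right hm (add_nonneg ha hl)
  linarith

end Pool.Agent.P.MP_d0f69c_mp.XS
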