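import Pool.Agent.P.MP_d0f69c_mp.XS.If0
import Pool.Agent.P.MP_d0f69c_mp.XS.HForm

/-! The bookkeeping statements for network reductions. -/

namespace Pool.Agent.P.MP_d0f69c_mp.XS

open Finset

theorem FS.rf {ι : Type} {O O' : Finset ι} {K K' : ι → ι → ℝ} {e : (ι → ℝ) → ℝ} :
    FS O K O' K' e ↔ RF O K O' K' e :=
  ⟨fun h => ⟨h.1, h.2.1, fun f => by
    obtain ⟨g, h1, h2⟩ := h.2.2 f
    exact ⟨g, h1, fun F hF => by linarith [h2 F hF]⟩⟩,
  fun h => ⟨h.sub, h.up, fun f => by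
    obtain ⟨g, h1, h2⟩ := h.low f
    exact ⟨g, h1, fun F hF => by linarith [h2 F hF]⟩⟩⟩

theorem ap_congr {ι : Type} {S : Finset ι} (A : ι → ι → ℂ) {u w : ι → ℂ} (h : ∀ x ∈ S, u x = w x)
    (x : ι) : ap S A u x = ap S A w x := sum_congr rfl fun y hy => by rw [h y hy]

theorem t_fs : S_FS := fun ι _ _ => by
  refine ⟨fun O K => FS.rf.2 (RF.refl O K), fun O O' O'' K K' K'' e e' h h' =>
    FS.rf.2 ((FS.rf.1 h).trans (FS.rf.1 h')), fun O O' K K' e e' h h' =>
    FS.rf.2 ((FS.rf.1 h).mono h'), fun S A => ⟨subset_rfl, fun u => ⟨u, fun x _ =>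
      ⟨rfl, by rw [add_zero]⟩, fun x h h' => absurd h h'⟩⟩, ?_, ?_⟩
  · intro S S' S'' A A' A'' Y Y' h h'
    refine ⟨h'.1.trans h.1, fun u => ?_⟩
    obtain ⟨w', a1, a2⟩ := h'.2 u
    obtain ⟨w, b1, b2⟩ := h.2 w'
    have e : ∀ x, ap S (A + (Y + fun x y => if x ∈ S' ∧ y ∈ S' then Y' x y else 0)) w x =
        ap S (A + Y) w x + if x ∈ S' then ap S' Y' w' x else 0 := fun x => by
      rw [← add_assoc, ap_add, Pi.add_apply]
      congr 1
      split_ifs with hx
      · simp only [ap, hx, true_and, ite_mul, zero_mul]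
        rw [← sum_filter, filter_mem_eq_inter, inter_eq_right.2 h.1]
        exact sum_congr rfl fun y hy => by rw [(b1 y hy).1]
      · simp [ap, hx]
    have e' : ∀ x ∈ S', ap S (A + (Y + fun x y => if x ∈ S' ∧ y ∈ S' then Y' x y else 0)) w x =
        ap S' (A' + Y') w' x := fun x hx => by
      rw [e, if_pos hx, (b1 x hx).2, ap_add, Pi.add_apply]
    refine ⟨w, fun x hx => ⟨(b1 x (h'.1 hx)).1.trans (a1 x hx).1,
      (e' x (h'.1 hx)).trans (a1 x hx).2⟩, fun x hx hx' => ?_⟩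
    by_cases h1 : x ∈ S'
    · rw [e' x h1, a2 x h1 hx']
    · rw [e, if_neg h1, b2 x hx h1, add_zero]
  · intro S S' A A' Y t r h hd t0 t1 r0 r1 hY
    refine (hd.pert t0 t1 r0 r1 hY).lift (by linarith) (by linarith) h.1 fun u => ?_
    obtain ⟨w, a1, a2⟩ := h.2 u
    exact ⟨w, a1, fun x hx hx' => Or.inr (a2 x hx hx')⟩

theorem t_ulfs : S_ULFS := fun _ _ _ _ _ _ _ _ _ _ _ h h' he =>
  (FS.rf.1 h').ref he h.1 h.2

theorem En_sub {ι : Type} (S : Finset ι) (K K' : ι → ι → ℝ) (f : ι → ℝ) :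
    En S (fun x y => K x y - K' x y) f = En S K f - En S K' f := by
  simp only [En, sub_mul, sum_sub_distrib, sub_div]

theorem En_add {ι : Type} (S : Finset ι) (K K' : ι → ι → ℝ) (f : ι → ℝ) :
    En S (fun x y => K x y + K' x y) f = En S K f + En S K' f := by
  simp only [En, add_mul, sum_add_distrib, add_div]

/-- the mesh energy is the star energy minus the square of the mean -/
theorem En_star {ι : Type} (S : Finset ι) (k f : ι → ℝ) (c : ℝ) (h : ∑ z ∈ S, k z ≠ 0) :
    En S (fun x y => k x * k y / ∑ z ∈ S, k z) f = ∑ x ∈ S, k x * (f x - c) ^ 2 -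
      (∑ x ∈ S, k x * (f x - c)) ^ 2 / ∑ z ∈ S, k z := by
  have e : ∀ x y, k x * k y / (∑ z ∈ S, k z) * (f x - f y) ^ 2 =
      (k x * (f x - c) ^ 2 * k y + k x * (k y * (f y - c) ^ 2) -
        2 * (k x * (f x - c) * (k y * (f y - c)))) / ∑ z ∈ S, k z := fun x y => by ring
  simp only [En, e, ← sum_div, sum_sub_distrib, sum_add_distrib, ← mul_sum, ← sum_mul]
  field_simp
  ring

theorem En_erase {ι : Type} [DecidableEq ι] {S : Finset ι} {K : ι → ι → ℝ}
    (hs : ∀ x y, K x y = K y x) {v : ι} (hv : v ∈ S) (f : ι → ℝ) :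
    En S K f = En (S.erase v) K f + ∑ x ∈ S.erase v, K v x * (f x - f v) ^ 2 := by
  rw [En_split (S := S) {v} hs, sdiff_singleton_eq_erase, inter_singleton_of_mem hv]
  simp [En, hs v]

theorem t_step : S_STEP := fun ι _ _ => by
  refine ⟨fun T K K' v hv hs h0 hp => ?_, fun S A A' v hv hA => ⟨erase_subset _ _, fun u => ?_⟩⟩
  · have e : ∀ f c, En (T.erase v)
        (fun x y => K' x y - (K x y + K x v * K v y / ∑ z ∈ T.erase v, K v z)) f =
        En (T.erase v) K' f - (En (T.erase v) K f + (∑ x ∈ T.erase v, K v x * (f x - c) ^ 2 -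
          (∑ x ∈ T.erase v, K v x * (f x - c)) ^ 2 / ∑ z ∈ T.erase v, K v z)) := fun f c => by
      rw [En_sub, En_add, ← En_star _ _ _ _ hp.ne']
      simp only [hs _ v]
    refine ⟨fun F => ?_, fun f => ?_⟩
    · rw [e F (F v), En_erase hs hv]
      linarith [div_nonneg (sq_nonneg (∑ x ∈ T.erase v, K v x * (F x - F v))) hp.le]
    · obtain ⟨c, hc⟩ : ∃ c, c = (∑ x ∈ T.erase v, K v x * f x) / ∑ z ∈ T.erase v, K v z := ⟨_, rfl⟩
      refine ⟨c, ?_⟩
      have z : ∑ x ∈ T.erase v, K v x * (f x - c) = 0 := by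
        simp only [mul_sub, sum_sub_distrib, ← sum_mul]
        rw [hc, mul_div_cancel₀ _ hp.ne', sub_self]
      have u : ∀ x ∈ T.erase v, Function.update f v c x = f x := fun x hx =>
        Function.update_of_ne (ne_of_mem_erase hx) _ _
      rw [e f c, En_erase hs hv, z, En_congr K u, Function.update_self,
        sum_congr rfl fun x hx => by rw [u x hx]]
      ring
  · refine ⟨Function.update u v (-(∑ y ∈ S.erase v, A v y * u y) / A v v), fun x hx => ?_,
      fun x hx hx' => ?_⟩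
    · refine ⟨Function.update_of_ne (ne_of_mem_erase hx) _ _, ?_⟩
      rw [ap_add, Pi.add_apply, ap_schur A hv]
      simp only [ap]
      rw [← add_sum_erase _ _ hv, if_neg (fun h => h.2 rfl), zero_mul, zero_add, ← sum_add_distrib]
      refine sum_congr rfl fun y hy => ?_
      rw [if_pos ⟨ne_of_mem_erase hx, ne_of_mem_erase hy⟩,
        Function.update_of_ne (ne_of_mem_erase hy)]
      ring
    · have : x = v := by
        by_contra h
        exact hx' (mem_erase.2 ⟨h, hx⟩)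
      subst this
      rw [ap_add, Pi.add_apply, ap_schur A hv]
      simp [ap, mul_div_cancel_left₀ _ hA]

end Pool.Agent.P.MP_d0f69c_mp.XS
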