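import Pool.Agent.P.MP_d0f69c_mp.XS.HGr
import Pool.Agent.P.MP_d0f69c_mp.XS.HFs
import Pool.Agent.P.MP_d0f69c_mp.XS.Adm
import Pool.Agent.P.MP_d0f69c_mp.XS.Num

/-!
Facts on closing flows that are shared by several blocks.
-/

set_option autoImplicit false

open Finset Real
open scoped Matrix

namespace Pool.Agent.P.MP_d0f69c_mp.XS

section generic

variable {ι : Type} [DecidableEq ι] {η : ℝ} {W : ι → ℂ} {ω : ι → Bool} {κ : ι → ℕ}
  {X Z : Finset ι}

omit [DecidableEq ι] in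
theorem sgn_im (b : Bool) : (sgn b).im = 0 := by cases b <;> simp [sgn]

omit [DecidableEq ι] in
theorem norm_sgn (b : Bool) : ‖sgn b‖ = 1 := by cases b <;> simp [sgn]

theorem Wc_in {x : ι} (h : x ∈ X) : Wc W ω X x = sgn (ω x) := if_pos h

theorem Wc_out {x : ι} (h : x ∉ X) : Wc W ω X x = W x := if_neg h

theorem Wc_empty : Wc W ω ∅ = W := funext fun _ => Wc_out (notMem_empty _)

theorem Wc_insert (v : ι) : Wc W ω (insert v X) = Function.update (Wc W ω X) v (sgn (ω v)) :=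
  funext fun x => by
    by_cases h : x = v
    · subst h; simp [Wc]
    · simp [Wc, h]

theorem aw_Wc_in {x : ι} (h : x ∈ X) : aw η (Wc W ω X) x = 0 := by simp [aw, Wc_in h, sgn_im]

theorem aw_Wc_out {x : ι} (h : x ∉ X) : aw η (Wc W ω X) x = aw η W x := by simp [aw, Wc_out h]

omit [DecidableEq ι] in
theorem mem_pre {t : ℕ} {x : ι} : x ∈ pre κ Z t ↔ x ∈ Z ∧ κ x < t := mem_filter

omit [DecidableEq ι] in
theorem pre_sub (t : ℕ) : pre κ Z t ⊆ Z := filter_subset _ _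

omit [DecidableEq ι] in
theorem pre_zero : pre κ Z 0 = ∅ := by simp [pre]

omit [DecidableEq ι] in
theorem not_mem_pre (v : ι) : v ∉ pre κ Z (κ v) := fun h => lt_irrefl _ (mem_pre.1 h).2

omit [DecidableEq ι] in
theorem pre_top (κ : ι → ℕ) (Z : Finset ι) {t : ℕ} (h : Z.sup κ < t) : pre κ Z t = Z :=
  filter_true_of_mem fun _ hx => (le_sup (f := κ) hx).trans_lt h

theorem pre_inter (A : Finset ι) (t : ℕ) : pre κ (Z ∩ A) t = pre κ Z t ∩ A := by
  ext x; simp only [mem_pre, mem_inter]; tauto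

theorem pre_succ (hκ : Function.Injective κ) {v : ι} (hv : v ∈ Z) :
    pre κ Z (κ v + 1) = insert v (pre κ Z (κ v)) := by
  ext x
  simp only [mem_pre, mem_insert, Nat.lt_succ_iff_lt_or_eq]
  exact ⟨fun h => h.2.elim (fun a => Or.inr ⟨h.1, a⟩) fun a => Or.inl (hκ a),
    fun h => h.elim (fun a => by subst a; exact ⟨hv, Or.inr rfl⟩) fun a => ⟨a.1, Or.inl a.2⟩⟩

omit [DecidableEq ι] in
theorem pre_succ' {t : ℕ} (h : ∀ v ∈ Z, κ v ≠ t) : pre κ Z (t + 1) = pre κ Z t := by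
  ext x
  simp only [mem_pre, Nat.lt_succ_iff_lt_or_eq]
  exact ⟨fun a => ⟨a.1, a.2.resolve_right (h x a.1)⟩, fun a => ⟨a.1, Or.inl a.2⟩⟩

theorem Wc_succ (hκ : Function.Injective κ) {v : ι} (hv : v ∈ Z) :
    Wc W ω (pre κ Z (κ v + 1)) = Function.update (Wc W ω (pre κ Z (κ v))) v (sgn (ω v)) := by
  rw [pre_succ hκ hv, Wc_insert]

omit [DecidableEq ι] in
theorem En_supp {S S' : Finset ι} {D : ι → ι → ℝ} (hS : S ⊆ S')
    (h : ∀ x ∈ S', ∀ y ∈ S', x ∉ S ∨ y ∉ S → D x y = 0) (F : ι → ℝ) : En S' D F = En S D F := by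
  unfold En
  rw [← sum_subset hS fun x hx hn => sum_eq_zero fun y hy => by rw [h x hx y hy (Or.inl hn), zero_mul]]
  congr 1
  exact sum_congr rfl fun x hx => (sum_subset hS fun y hy hn => by
    rw [h x (hS hx) y hy (Or.inr hn), zero_mul]).symm

omit [DecidableEq ι] in
theorem nS_mono {S S' : Finset ι} (h : S ⊆ S') (u : ι → ℂ) : nS S u ≤ nS S' u :=
  sqrt_le_sqrt (sum_le_sum_of_subset_of_nonneg h fun _ _ _ => sq_nonneg _)

omit [DecidableEq ι] in
theorem nS_supp {S S' : Finset ι} (h : S ⊆ S') {u : ι → ℂ} (hu : ∀ x ∈ S', x ∉ S → u x = 0) :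
    nS S' u = nS S u := by
  unfold nS
  rw [sum_subset h fun x hx hn => by simp [hu x hx hn]]

omit [DecidableEq ι] in
theorem ap_supp {S S' : Finset ι} (h : S ⊆ S') (A : ι → ι → ℂ) {u : ι → ℂ}
    (hu : ∀ x ∈ S', x ∉ S → u x = 0) : ap S' A u = ap S A u := funext fun x =>
  (sum_subset h fun y hy hn => by rw [hu y hy hn, mul_zero]).symm

theorem OpLe.sub {S S' : Finset ι} {A : ι → ι → ℂ} {r : ℝ} (h : OpLe S' A r) (hS : S ⊆ S') :
    OpLe S A r := fun u => by
  have h0 : ∀ x ∈ S', x ∉ S → (fun x => if x ∈ S then u x else 0) x = 0 := fun x _ hn => if_neg hn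
  have h1 := h fun x => if x ∈ S then u x else 0
  rw [ap_supp hS A h0, nS_supp hS h0, nS_congr (w := u) fun x hx => if_pos hx] at h1
  refine le_trans (le_of_eq (nS_congr fun x _ => ?_)) ((nS_mono hS _).trans h1)
  exact ap_congr A (fun y hy => (if_pos hy).symm) x

omit [DecidableEq ι] in
theorem OpLe.mono {S : Finset ι} {A : ι → ι → ℂ} {r s : ℝ} (h : OpLe S A r) (hs : r ≤ s) :
    OpLe S A s := fun u => (h u).trans (mul_le_mul_of_nonneg_right hs (nS_nonneg _ _))

omit [DecidableEq ι] in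
theorem OpLe.congr {S : Finset ι} {A B : ι → ι → ℂ} {r : ℝ} (h : OpLe S A r)
    (e : ∀ x ∈ S, ∀ y ∈ S, B x y = A x y) : OpLe S B r := fun u =>
  (nS_congr fun x hx => sum_congr rfl fun y hy => by rw [e x hx y hy]).trans_le (h u)

omit [DecidableEq ι] in
theorem OpLe.add {S : Finset ι} {A B : ι → ι → ℂ} {r s : ℝ} (h : OpLe S A r) (h' : OpLe S B s) :
    OpLe S (A + B) (r + s) := fun u => by
  rw [ap_add, add_mul]; exact (nS_add _ _ _).trans (add_le_add (h u) (h' u))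

omit [DecidableEq ι] in
/-- Schur test with a symmetric majorant -/
theorem opLe_schur {S : Finset ι} {A : ι → ι → ℂ} {g : ι → ι → ℝ} {r : ℝ} (hr : 0 < r)
    (hg : ∀ x y, g x y = g y x) (h : ∀ x ∈ S, ∀ y ∈ S, ‖A x y‖ ≤ g x y)
    (hs : ∀ x ∈ S, ∑ y ∈ S, g x y ≤ r) : OpLe S A r := by
  classical
  exact (Bil.schur hg h).norm hr fun x hx => by linarith [hs x hx]

variable [Fintype ι] {H : Matrix ι ι ℝ}

theorem GOK.opLe (h : GOK η H W) {S : Finset ι} (hS : ∀ x ∈ S, 1 / 2 ≤ aw η W x) :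
    OpLe S (NW.GG H W) (2 / η) :=
  (h.bil hS).norm (div_pos two_pos h.η0) fun _ _ => by rw [mul_one_div]

/-- the resolvent identity for a diagonal change on `X` -/
theorem GG_res {W' : ι → ℂ} (hu : IsUnit (NW.MM H W).det) (hu' : IsUnit (NW.MM H W').det)
    (hX : ∀ x ∉ X, W' x = W x) (x y : ι) :
    NW.GG H W' x y = NW.GG H W x y - ∑ w ∈ X, NW.GG H W' x w * ((W' w - W w) * NW.GG H W w y) := by
  have e : NW.MM H W' = NW.MM H W + Matrix.diagonal fun w => W' w - W w := by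
    ext a b
    by_cases h : a = b <;> simp [NW.MM, h]
  have h := inv_add_eq' hu (e ▸ hu')
  rw [← e] at h
  have h2 := congrFun (congrFun h x) y
  rw [Matrix.sub_apply, Matrix.mul_apply] at h2
  refine h2.trans ?_
  congr 1
  rw [← sum_subset (subset_univ X) fun w _ hw => by simp [Matrix.mul_diagonal, hX w hw]]
  exact sum_congr rfl fun w _ => by rw [Matrix.mul_diagonal, mul_assoc]; rfl

/-- the local bound in `S_CT` from a norm bound of the new Green function -/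
theorem locb {W' : ι → ℂ} (hu : IsUnit (NW.MM H W).det) (hu' : IsUnit (NW.MM H W').det)
    (hX : ∀ x ∉ X, W' x = W x) (h2 : ∀ x ∈ X, ‖W' x - W x‖ ≤ 2) {Λ : ℝ} (hΛ : 1 ≤ Λ)
    (h : OpLe X (NW.GG H W') Λ) (u : ι → ℂ) :
    nS X u ≤ 3 * Λ * nS X (u + ap X (fun x y => NW.GG H W x y * (W' y - W y)) u) := by
  set w := u + ap X (fun x y => NW.GG H W x y * (W' y - W y)) u with hw
  have e : ∀ x ∈ X, u x = (w - ap X (NW.GG H W') fun y => (W' y - W y) * w y) x := fun x _ => by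
    have a : ∀ y, NW.GG H W x y * (W' y - W y) * u y = NW.GG H W' x y * ((W' y - W y) * u y) +
        ∑ z ∈ X, NW.GG H W' x z * ((W' z - W z) * (NW.GG H W z y * (W' y - W y) * u y)) := by
      intro y
      have := GG_res hu hu' hX x y
      rw [eq_sub_iff_add_eq] at this
      rw [← this, add_mul, add_mul, sum_mul, sum_mul, mul_assoc]
      exact congrArg _ (sum_congr rfl fun z _ => by ring)
    simp only [hw, Pi.sub_apply, Pi.add_apply, ap, mul_add, sum_add_distrib, mul_sum]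
    rw [sum_congr rfl fun y _ => a y, sum_add_distrib, sum_comm]
    ring
  have h3 : nS X (fun y => (W' y - W y) * w y) ≤ 2 * nS X w := by
    rw [← Complex.norm_two, ← nS_smul]
    refine sqrt_le_sqrt (sum_le_sum fun y hy => pow_le_pow_left₀ (norm_nonneg _) ?_ 2)
    rw [norm_mul, Pi.smul_apply, norm_smul, Complex.norm_two]
    exact mul_le_mul_of_nonneg_right (h2 y hy) (norm_nonneg _)
  rw [nS_congr e]
  refine (nS_sub _ _ _).trans ?_
  have h4 := h fun y => (W' y - W y) * w y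
  have h5 := nS_nonneg X w
  nlinarith [mul_le_mul_of_nonneg_left h3 (zero_le_one.trans hΛ)]

/-- the closings form a network reduction; the error is the modulus of the summed noise -/
theorem chain_fs {O : Finset ι} (hκ : Function.Injective κ) (hZ : Z ⊆ O)
    (hO : ∀ x ∉ O, aw η W x = 0) (t : ℕ) (hG : ∀ s ≤ t, GOK η H (Wc W ω (pre κ Z s)))
    (hd : ∀ v ∈ pre κ Z t, 0 < ∑ z ∈ univ.erase v,
      Kk η (Wc W ω (pre κ Z (κ v))) (NW.GG H (Wc W ω (pre κ Z (κ v)))) v z) :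
    FS O (Kk η W (NW.GG H W)) (O \ pre κ Z t)
      (Kk η (Wc W ω (pre κ Z t)) (NW.GG H (Wc W ω (pre κ Z t))))
      fun F => |∑ v ∈ pre κ Z t, En (univ.erase v) (dK η H (Wc W ω (pre κ Z (κ v))) v (ω v)) F| := by
  set K : ℕ → ι → ι → ℝ := fun s => Kk η (Wc W ω (pre κ Z s)) (NW.GG H (Wc W ω (pre κ Z s)))
    with hK
  set N : ι → (ι → ℝ) → ℝ := fun v =>
    En (univ.erase v) (dK η H (Wc W ω (pre κ Z (κ v))) v (ω v)) with hN
  suffices h : (∀ F, En (O \ pre κ Z t) (K t) F ≤ En O (K 0) F + ∑ v ∈ pre κ Z t, N v F) ∧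
      ∀ f : ι → ℝ, ∃ g : ι → ℝ, (∀ x ∈ O \ pre κ Z t, g x = f x) ∧ ∀ F : ι → ℝ,
        (∀ x ∈ O, F x = g x) → En (O \ pre κ Z t) (K t) f = En O (K 0) F + ∑ v ∈ pre κ Z t, N v F by
    have e : K 0 = Kk η W (NW.GG H W) := by simp only [hK, pre_zero, Wc_empty]
    rw [e] at h
    refine ⟨sdiff_subset, fun F => (h.1 F).trans (add_le_add_right (le_abs_self _) _), fun f => ?_⟩
    obtain ⟨g, h1, h2⟩ := h.2 f
    refine ⟨g, h1, fun F hF => ?_⟩
    have := h2 F hF
    have := neg_abs_le (∑ v ∈ pre κ Z t, N v F)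
    simp only [hK, hN] at *
    linarith
  induction t with
  | zero =>
    simp only [pre_zero, sdiff_empty, sum_empty, add_zero]
    exact ⟨fun _ => le_rfl, fun f => ⟨f, fun _ _ => rfl, fun F hF => En_congr _ fun x hx =>
      (hF x hx).symm⟩⟩
  | succ t ih =>
    have ih := ih (fun s hs => hG s (by omega)) fun v hv =>
      hd v (mem_pre.2 ⟨(mem_pre.1 hv).1, by have := (mem_pre.1 hv).2; omega⟩)
    by_cases hv : ∃ v ∈ Z, κ v = t
    swap
    · have e := pre_succ' (κ := κ) (Z := Z) (t := t) fun v a b => hv ⟨v, a, b⟩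
      simpa only [hK, e] using ih
    obtain ⟨v, hv, rfl⟩ := hv
    set T := O \ pre κ Z (κ v) with hT
    have vT : v ∈ T := mem_sdiff.2 ⟨hZ hv, not_mem_pre v⟩
    have g0 := hG (κ v) (by omega)
    have a0 : ∀ x ∉ T, aw η (Wc W ω (pre κ Z (κ v))) x = 0 := fun x hx => by
      by_cases h : x ∈ pre κ Z (κ v)
      · exact aw_Wc_in h
      · rw [aw_Wc_out h]; exact hO x fun a => hx (mem_sdiff.2 ⟨a, h⟩)
    have sub : T.erase v ⊆ univ.erase v := erase_subset_erase v (subset_univ T)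
    have nT : ∀ x ∈ univ.erase v, x ∉ T.erase v → x ∉ T := fun x a b c =>
      b (mem_erase.2 ⟨(mem_erase.1 a).1, c⟩)
    have eD : ∑ z ∈ univ.erase v, K (κ v) v z = ∑ z ∈ T.erase v, K (κ v) v z :=
      (sum_subset sub fun z a b => by simp only [hK, Kk, a0 z (nT z a b), mul_zero, zero_mul]).symm
    have dpos := hd v (mem_pre.2 ⟨hv, by omega⟩)
    obtain ⟨s1, s2⟩ := (t_step ι).1 T (K (κ v)) (K (κ v + 1)) v vT g0.Ksym g0.K0 (eD ▸ dpos)
    have eN : ∀ F, En (T.erase v) (fun x y => K (κ v + 1) x y -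
        (K (κ v) x y + K (κ v) x v * K (κ v) v y / ∑ z ∈ T.erase v, K (κ v) v z)) F = N v F := by
      intro F
      rw [← eD]
      simp only [hK, hN, Wc_succ hκ hv]
      refine (En_supp sub (fun x a y b c => ?_) F).symm
      have a1 : ∀ x ∈ univ.erase v, x ∉ T.erase v →
          aw η (Function.update (Wc W ω (pre κ Z (κ v))) v (sgn (ω v))) x = 0 := fun x a b => by
        rw [← a0 x (nT x a b), aw, aw, Function.update_of_ne (mem_erase.1 a).1]
      rcases c with c | c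
      · simp only [Kk, a0 x (nT x a c), a1 x a c, zero_mul, zero_div, add_zero, sub_zero]
      · simp only [Kk, a0 y (nT y b c), a1 y b c, zero_mul, mul_zero, zero_div, add_zero,
          sub_zero]
    have eT : O \ pre κ Z (κ v + 1) = T.erase v := by rw [pre_succ hκ hv, sdiff_insert]
    have eS : ∀ F, ∑ u ∈ pre κ Z (κ v + 1), N u F = N v F + ∑ u ∈ pre κ Z (κ v), N u F :=
      fun F => by rw [pre_succ hκ hv, sum_insert (not_mem_pre v)]
    simp only [eT, eS]
    refine ⟨fun F => by linarith [s1 F, eN F, ih.1 F], fun f => ?_⟩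
    obtain ⟨c, hc⟩ := s2 f
    obtain ⟨g, h1, h2⟩ := ih.2 (Function.update f v c)
    have h3 : ∀ x ∈ T.erase v, g x = f x := fun x hx => by
      rw [h1 x (mem_of_mem_erase hx), Function.update_of_ne (mem_erase.1 hx).1]
    refine ⟨g, h3, fun F hF => ?_⟩
    rw [hc, h2 F hF, En_congr _ fun x hx => ((hF x (mem_sdiff.1 (mem_of_mem_erase hx)).1).trans
      (h3 x hx)).symm, eN]
    ring

/-- the closings form a chain of Schur complements -/
theorem chain_rs {T : Finset ι} (hκ : Function.Injective κ) (hZ : Z ⊆ T)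
    (hW : ∀ v ∈ Z, 1 - W v ^ 2 ≠ 0) (t : ℕ) :
    RS T (Am W (NW.GG H W)) (T \ pre κ Z t)
      (Am (Wc W ω (pre κ Z t)) (NW.GG H (Wc W ω (pre κ Z t))))
      fun x y => ∑ v ∈ pre κ Z t,
        if x ∈ (T \ pre κ Z (κ v)).erase v ∧ y ∈ (T \ pre κ Z (κ v)).erase v then
          dA H (Wc W ω (pre κ Z (κ v))) v (ω v) x y else 0 := by
  induction t with
  | zero =>
    simp only [pre_zero, sdiff_empty, sum_empty, Wc_empty]
    exact (t_fs ι).2.2.2.1 T _
  | succ t ih =>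
    by_cases hv : ∃ v ∈ Z, κ v = t
    swap
    · rwa [pre_succ' (κ := κ) (Z := Z) (t := t) fun v a b => hv ⟨v, a, b⟩]
    obtain ⟨v, hv, rfl⟩ := hv
    have vT : v ∈ T \ pre κ Z (κ v) := mem_sdiff.2 ⟨hZ hv, not_mem_pre v⟩
    have s := (t_step ι).2 _ (Am (Wc W ω (pre κ Z (κ v))) (NW.GG H (Wc W ω (pre κ Z (κ v)))))
      (Am (Wc W ω (pre κ Z (κ v + 1))) (NW.GG H (Wc W ω (pre κ Z (κ v + 1))))) v vT (by
        rw [Am, if_pos rfl, Wc_out (not_mem_pre v)]
        exact one_div_ne_zero (pow_ne_zero 2 (hW v hv)))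
    have r := (t_fs ι).2.2.2.2.1 _ _ _ _ _ _ _ _ ih s
    have eT : T \ pre κ Z (κ v + 1) = (T \ pre κ Z (κ v)).erase v := by
      rw [pre_succ hκ hv, sdiff_insert]
    rw [eT]
    convert r using 1
    funext x y
    rw [Pi.add_apply, Pi.add_apply, pre_succ hκ hv, sum_insert (not_mem_pre v), add_comm,
      Wc_insert]
    congr 1
    simp only [mem_erase, dA]
    by_cases h1 : x ≠ v <;> by_cases h2 : y ≠ v <;> simp [h1, h2]

end generic

variable {d M : ℕ} [NeZero M] {E : Env d M} {b : Bd} {S : St (Tor d M)}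

omit [NeZero M] in
theorem St.good_sub (S : St (Tor d M)) : S.good ⊆ S.O := fun _ h =>
  mem_union_left _ (mem_union_left _ h)

omit [NeZero M] in
theorem St.omg_sub (S : St (Tor d M)) : S.omg ⊆ S.O := fun _ h =>
  mem_union_left _ (mem_union_right _ h)

omit [NeZero M] in
theorem St.junk_sub (S : St (Tor d M)) : S.junk ⊆ S.O := fun _ h => mem_union_right _ h

theorem Inv.aw_zero (h : Inv E b S) {x : Tor d M} (hx : x ∉ S.O) : aw E.η S.W x = 0 := by
  rcases h.cls x hx with a | a | ⟨k, a⟩ <;> simp [aw, a]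

theorem Inv.aw_half (h : Inv E b S) (hθ : b.θ ≤ 1 / 2) {x : Tor d M} (hx : x ∈ S.O) :
    1 / 2 ≤ aw E.η S.W x ∧ aw E.η S.W x ≤ 2 := by
  have := abs_le.1 (h.opn x hx).2
  constructor <;> linarith [this.1, this.2]

/-- every state obtained by closing good sites is an invertible dissipative system -/
theorem Inv.gok (h : Inv E b S) (hE : E.OK) (hθ : b.θ < 1) {X : Finset (Tor d M)}
    (hX : X ⊆ S.good) (ω : Tor d M → Bool) : GOK E.η S.H (Wc S.W ω X) := by
  obtain ⟨h1, h2⟩ := t_adm d M E S.H S.junk hE h.phys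
  have h3 : ∀ x, (Wc S.W ω X x).im < 0 ∨ Wc S.W ω X x = 1 ∨ Wc S.W ω X x = -1 ∨
      ∃ k : Fin E.N, Wc S.W ω X x = val E.σ E.N k := fun x => by
    by_cases a : x ∈ X
    · rw [Wc_in a]; cases ω x <;> simp [sgn]
    · rw [Wc_out a]
      by_cases c : x ∈ S.O
      exacts [Or.inl (h.im_neg hE hθ c), Or.inr (h.cls x c)]
  refine ⟨hE.η0, h1, fun x => ?_, h2 _ (fun x hx => ?_) h3⟩
  · rcases h3 x with a | a | a | ⟨k, a⟩
    exacts [a.le, by simp [a], by simp [a], by simp [a]]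
  · rw [Wc_out fun a => disjoint_left.1 h.gj (hX a) hx]
    exact h.im_neg hE hθ (S.junk_sub hx)

theorem Inv.gok0 (h : Inv E b S) (hE : E.OK) (hθ : b.θ < 1) : GOK E.η S.H S.W := by
  simpa only [Wc_empty] using h.gok hE hθ (empty_subset _) fun _ => true

theorem Inv.opLe (h : Inv E b S) (hE : E.OK) (hθ : b.θ ≤ 1 / 2) : OpLe S.O S.G (2 / E.η) :=
  (h.gok0 hE (by linarith)).opLe fun _ hx => (h.aw_half hθ hx).1

end Pool.Agent.P.MP_d0f69c_mp.XS
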