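import Pool.Agent.P.MP_d0f69c_mp.XS.IfSel

/-!
Tails of sums over marked points.
-/

set_option autoImplicit false

open Finset Real

namespace Pool.Agent.P.MP_d0f69c_mp.XS

namespace MarkA

variable {ι : Type} [Fintype ι] [DecidableEq ι] {K : ℕ} [NeZero K]

theorem split (y : ι) (B : ({j // j ≠ y} → Fin K) → Prop) :
    pr (fun w : ι → Fin K => w y = 0 ∧ B fun j => w j) = (K : ℝ)⁻¹ * pr B := by
  refine (pr_equiv (Equiv.funSplitAt y (Fin K)) fun z => z.1 = 0 ∧ B z.2).trans ?_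
  have e : ∀ a : Fin K, pr (fun b => a = 0 ∧ B b) = if a = 0 then pr B else 0 := fun a => by
    split_ifs with h
    · simp only [h, true_and]
    · exact pr_false fun _ hb => h hb.1
  rw [pr_prod]
  simp only [e]
  simp [av, div_eq_inv_mul]

theorem p1 (y : ι) : pr (fun w : ι → Fin K => w y = 0) = (K : ℝ)⁻¹ := by
  have h := split (K := K) y fun _ => True
  rw [pr_true fun _ => trivial, mul_one] at h
  simpa only [and_true] using h

theorem p2 {y z : ι} (h : z ≠ y) :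
    pr (fun w : ι → Fin K => w y = 0 ∧ w z = 0) = (K : ℝ)⁻¹ * (K : ℝ)⁻¹ :=
  (split y fun v => v ⟨z, h⟩ = 0).trans (by rw [p1])

omit [NeZero K] in
theorem av_marked (A : Finset ι) (c : ι → ℝ) (C : ι → (ι → Fin K) → Prop)
    [∀ w, DecidablePred fun y => C y w] :
    av (fun w => ∑ y ∈ A with C y w, c y) = ∑ y ∈ A, c y * pr (C y) := by
  simp only [sum_filter, av_sum]
  refine sum_congr rfl fun y _ => ?_
  rw [pr_eq_av, ← av_mul]
  congr 1
  funext w
  by_cases h : C y w <;> simp [h]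

omit [Fintype ι] [DecidableEq ι] in
theorem diff {A : Finset ι} {c : ι → ℝ} (hc : ∀ y ∈ A, 0 ≤ c y) (C C' D : ι → Prop)
    [DecidablePred C] [DecidablePred C'] [DecidablePred D] (h : ∀ y, ¬ D y → (C' y ↔ C y)) :
    |∑ y ∈ A with C' y, c y - ∑ y ∈ A with C y, c y| ≤ ∑ y ∈ A with D y, c y := by
  simp only [sum_filter, ← sum_sub_distrib]
  refine (abs_sum_le_sum_abs _ _).trans (sum_le_sum fun y hy => ?_)
  have h0 := hc y hy
  by_cases hD : D y
  · rw [if_pos hD, abs_le]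
    split_ifs <;> constructor <;> linarith
  · simp [hD, h y hD]

omit [DecidableEq ι] in
theorem sq {A : Finset ι} {c : ι → ℝ} {m N r : ℝ} (hm : 0 ≤ m) (hr : 0 ≤ r)
    (hc : ∀ y ∈ A, 0 ≤ c y ∧ c y ≤ m) (hN : ∑ y ∈ A, c y ≤ N) (D : ι → ι → Prop) [DecidableRel D]
    (h1 : ∀ x, (#{y ∈ A | D x y} : ℝ) ≤ r) (h2 : ∀ y, (#{x | D x y} : ℝ) ≤ r) :
    ∑ x, (∑ y ∈ A with D x y, c y) ^ 2 ≤ r ^ 2 * (m * N) := by
  have a1 : ∀ x, ∑ y ∈ A with D x y, c y ≤ r * m := fun x =>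
    (sum_le_card_nsmul _ _ m fun y hy => (hc y (mem_filter.1 hy).1).2).trans
      (by rw [nsmul_eq_mul]; exact mul_le_mul_of_nonneg_right (h1 x) hm)
  have a2 : ∑ x, ∑ y ∈ A with D x y, c y ≤ r * N := by
    simp only [sum_filter]
    rw [sum_comm]
    refine le_trans (sum_le_sum fun y hy => ?_) ((mul_sum A c r).ge.trans
      (mul_le_mul_of_nonneg_left hN hr))
    rw [← sum_filter, sum_const, nsmul_eq_mul]
    exact mul_le_mul_of_nonneg_right (h2 y) (hc y hy).1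
  calc _ ≤ ∑ x, r * m * ∑ y ∈ A with D x y, c y := sum_le_sum fun x _ => by
        rw [pow_two]
        exact mul_le_mul_of_nonneg_right (a1 x) (sum_nonneg fun y hy => (hc y (mem_filter.1 hy).1).1)
    _ ≤ r * m * (r * N) := by
        rw [← mul_sum]
        exact mul_le_mul_of_nonneg_left a2 (mul_nonneg hr hm)
    _ = _ := by ring

theorem lone {Δ : ℕ} {s : Finset ι} {y : ι} (hy : y ∉ s) (hs : s.card ≤ Δ) (hK : 2 * Δ ≤ K) :
    1 / (2 * (K : ℝ)) ≤ pr fun w : ι → Fin K => w y = 0 ∧ ∀ z ∈ s, w z ≠ 0 := by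
  have K0 : (0 : ℝ) < K := Nat.cast_pos.2 (NeZero.pos K)
  have h1 := (p1 (K := K) y).ge.trans ((pr_mono (B := fun w : ι → Fin K =>
    (w y = 0 ∧ ∀ z ∈ s, w z ≠ 0) ∨ ∃ z ∈ s, w y = 0 ∧ w z = 0) fun w hw => by
      by_cases h : ∀ z ∈ s, w z ≠ 0
      · exact Or.inl ⟨hw, h⟩
      · push Not at h
        obtain ⟨z, z1, z2⟩ := h
        exact Or.inr ⟨z, z1, hw, z2⟩).trans (pr_or _ _))
  have h2 := pr_ex_le s (fun z (w : ι → Fin K) => w y = 0 ∧ w z = 0)
    fun z hz => (p2 (ne_of_mem_of_not_mem hz hy)).le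
  have h3 : (2 * s.card : ℝ) ≤ K := by exact_mod_cast (Nat.mul_le_mul_left 2 hs).trans hK
  have h4 : (s.card : ℝ) * ((K : ℝ)⁻¹ * (K : ℝ)⁻¹) ≤ 1 / (2 * (K : ℝ)) := by
    rw [le_div_iff₀ (by positivity)]
    field_simp
    linarith
  have h5 : (K : ℝ)⁻¹ = 2 * (1 / (2 * (K : ℝ))) := by field_simp
  linarith

end MarkA

theorem t_marku (h : S_MCD) : S_MARKU := by
  intro ι _ _ K _ A c m N t ht hm hN hc hs
  refine le_trans (pr_mono fun w hw => ?_) (h ι (Fin K) (fun w => ∑ y ∈ A with w y = 0, c y)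
    (fun x => ∑ y ∈ A with x = y, c y) t (m * N) ht (mul_pos hm hN) ?_ fun w x k => ?_)
  · refine le_trans (add_le_add_left ?_ t) hw
    rw [MarkA.av_marked A c fun y w => w y = 0]
    simp only [MarkA.p1]
    rw [← sum_mul, div_eq_mul_inv]
    exact mul_le_mul_of_nonneg_right hs (by positivity)
  · simpa only [one_pow, one_mul] using MarkA.sq hm.le zero_le_one hc hs (fun x y => x = y)
      (fun x => Nat.cast_le_one.2 (card_le_one.2 fun a ha b hb =>
        (mem_filter.1 ha).2.symm.trans (mem_filter.1 hb).2))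
      fun y => Nat.cast_le_one.2 (card_le_one.2 fun a ha b hb =>
        (mem_filter.1 ha).2.trans (mem_filter.1 hb).2.symm)
  · exact MarkA.diff (fun y hy => (hc y hy).1) _ _ _ fun y hy => by
      rw [Function.update_of_ne (Ne.symm hy)]

theorem t_markl (h : S_MCD) : S_MARKL := by
  intro ι _ _ K Δ _ A nb c m N t ht hm hN hc hs h0 h1 h2 hK
  have hb : ∀ x, ∀ s : Finset ι, s ⊆ insert x (nb x) → (s.card : ℝ) ≤ Δ + 1 := fun x s hx => by
    exact_mod_cast (card_le_card hx).trans ((card_insert_le _ _).trans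
      (Nat.add_le_add_right (h1 x) 1))
  refine le_trans (pr_mono fun w hw => ?_) (h ι (Fin K)
    (fun w => -1 * ∑ y ∈ A with (w y = 0 ∧ ∀ z ∈ nb y, w z ≠ 0), c y)
    (fun x => ∑ y ∈ A with (x = y ∨ x ∈ nb y), c y) t _ ht (by positivity)
    (MarkA.sq hm.le (by positivity) hc hs (fun x y => x = y ∨ x ∈ nb y)
      (fun x => hb x _ fun y hy => mem_insert.2 ((mem_filter.1 hy).2.imp Eq.symm (h2 x y)))
      fun y => hb y _ fun x hx => mem_insert.2 (mem_filter.1 hx).2) fun w x k => ?_)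
  · rw [av_mul, MarkA.av_marked A c fun y w => w y = 0 ∧ ∀ z ∈ nb y, w z ≠ 0]
    have a1 : (∑ y ∈ A, c y) / (2 * K) ≤
        ∑ y ∈ A, c y * pr fun w : ι → Fin K => w y = 0 ∧ ∀ z ∈ nb y, w z ≠ 0 := by
      rw [sum_div]
      exact sum_le_sum fun y hy => (div_eq_mul_one_div _ _).trans_le
        (mul_le_mul_of_nonneg_left (MarkA.lone (h0 y) (h1 y) hK) (hc y hy).1)
    linarith
  · rw [← mul_sub, abs_mul, abs_neg, abs_one, one_mul]
    refine MarkA.diff (fun y hy => (hc y hy).1) _ _ _ fun y hy => ?_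
    rw [not_or] at hy
    rw [Function.update_of_ne (Ne.symm hy.1)]
    exact and_congr_right' (forall₂_congr fun z hz => by
      rw [Function.update_of_ne (ne_of_mem_of_not_mem hz hy.2)])

end Pool.Agent.P.MP_d0f69c_mp.XS
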