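import Pool.Agent.P.MP_d0f69c_mp.XS.IfSel

/-!
The bounded differences inequality.
-/

set_option autoImplicit false

open Finset Real Function

namespace Pool.Agent.P.MP_d0f69c_mp.XS

namespace McdA

theorem av_sub {α : Type} [Fintype α] (f g : α → ℝ) : av (fun x => f x - g x) = av f - av g := by
  simp [av, sum_sub_distrib, sub_div]

theorem abs_av {α : Type} [Fintype α] [Nonempty α] {f : α → ℝ} {c : ℝ} (h : ∀ x, |f x| ≤ c) :
    |av f| ≤ c :=
  abs_le.2 ⟨(av_const (-c)).symm.trans_le (av_mono fun x => (abs_le.1 (h x)).1),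
    av_le fun x => (abs_le.1 (h x)).2⟩

theorem cvx {s y c : ℝ} (hc : 0 < c) (h : |y| ≤ c) :
    exp (s * y) ≤ cosh (s * c) + sinh (s * c) / c * y := by
  have h1 := abs_le.1 h
  have h2 := convexOn_exp.2 (Set.mem_univ (s * c)) (Set.mem_univ (-(s * c)))
    (show 0 ≤ (c + y) / (2 * c) from div_nonneg (by linarith) (by linarith))
    (show 0 ≤ (c - y) / (2 * c) from div_nonneg (by linarith) (by linarith)) (by field_simp; ring)
  simp only [smul_eq_mul] at h2
  rw [show (c + y) / (2 * c) * (s * c) + (c - y) / (2 * c) * -(s * c) = s * y by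
    field_simp; ring] at h2
  refine h2.trans_eq ?_
  rw [cosh_eq, sinh_eq]
  field_simp
  ring

theorem step {κ : Type} [Fintype κ] [Nonempty κ] (a : κ → ℝ) (s c : ℝ)
    (h : ∀ j, |a j - av a| ≤ c) : av (fun j => exp (s * (a j - av a))) ≤ exp (s ^ 2 * c ^ 2 / 2) := by
  obtain hc | hc := ((abs_nonneg _).trans (h (Classical.arbitrary κ))).eq_or_lt
  · refine av_le fun j => ?_
    rw [abs_nonpos_iff.1 ((h j).trans hc.ge), mul_zero]
    exact exp_le_exp.2 (by positivity)
  · refine (av_mono fun j => cvx hc (h j)).trans ?_
    rw [av_add, av_const, av_mul, av_sub, av_const, sub_self, mul_zero, add_zero, ← mul_pow]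
    exact cosh_le_exp_half_sq _

variable {ι κ : Type} [Fintype ι] [DecidableEq ι] [Fintype κ] [Nonempty κ]

theorem resample (x : ι) (F : (ι → κ) → ℝ) : av F = av fun w => av fun j => F (update w x j) := by
  have h : Involutive fun z : (ι → κ) × κ => (update z.1 x z.2, z.1 x) := fun z => by simp
  rw [← av_fst (β := κ) F, ← av_equiv h.toPerm, av_prod]
  rfl

theorem mgf (c : ι → ℝ) (s : ℝ) (U : Finset ι) : ∀ f : (ι → κ) → ℝ,
    (∀ w w', (∀ x ∈ U, w x = w' x) → f w = f w') → (∀ w x k, |f (update w x k) - f w| ≤ c x) →
    av (fun w => exp (s * (f w - av f))) ≤ exp (s ^ 2 * (∑ x ∈ U, c x ^ 2) / 2) := by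
  induction U using Finset.induction_on with
  | empty =>
    intro f h1 _
    refine av_le fun w => ?_
    have : av f = f w := by
      rw [show f = fun _ => f w from funext fun w' => h1 _ _ (by simp), av_const]
    simp [this]
  | insert x U hx ih =>
    intro f h1 h2
    have h3 := ih (fun w => av fun j => f (update w x j))
      (fun w w' h => congrArg av (funext fun j => h1 _ _ fun y hy => by
        by_cases hyx : y = x
        · simp [hyx]
        · simp [hyx, h y ((mem_insert.1 hy).resolve_left hyx)]))
      (fun w y k => by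
        rw [← av_sub]
        refine abs_av fun j => ?_
        by_cases hyx : y = x
        · simpa [hyx] using (abs_nonneg _).trans (h2 w x k)
        · rw [update_comm hyx]
          exact h2 _ _ _)
    rw [← resample] at h3
    rw [resample x, sum_insert hx, mul_add, add_div, exp_add]
    refine le_trans ?_ (mul_le_mul_of_nonneg_left h3 (exp_pos _).le)
    rw [← av_mul]
    refine av_mono fun w => ?_
    have h4 := step (fun j => f (update w x j)) s (c x) fun j => by
      rw [← av_const (α := κ) (f (update w x j)), ← av_sub]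
      refine abs_av fun i => ?_
      simpa using h2 (update w x i) x j
    refine le_trans (le_of_eq ?_) (mul_le_mul_of_nonneg_right h4 (exp_pos _).le)
    rw [mul_comm, ← av_mul]
    refine congrArg av (funext fun j => ?_)
    rw [← exp_add]
    congr 1
    ring

end McdA

theorem t_mcd : S_MCD := by
  intro ι κ _ _ _ _ f c t v ht hv hc hf
  have h := McdA.mgf c (t / v) univ f (fun w w' h => congrArg f (funext fun x => h x (mem_univ x)))
    hf
  have h0 : 0 ≤ t / v := by positivity
  refine (pr_le_av (f := fun w => exp (-(t / v * t)) * exp (t / v * (f w - av f)))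
    (fun w => by positivity) fun w hw => ?_).trans ?_
  · rw [← exp_add]
    exact one_le_exp (by nlinarith)
  · rw [av_mul]
    refine (mul_le_mul_of_nonneg_left h (exp_pos _).le).trans ?_
    rw [← exp_add, exp_le_exp]
    have h1 := mul_le_mul_of_nonneg_left hc (sq_nonneg (t / v))
    have h2 : -t ^ 2 / (2 * v) = -(t / v * t) + (t / v) ^ 2 * v / 2 := by
      field_simp
      ring
    linarith

end Pool.Agent.P.MP_d0f69c_mp.XS
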