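import Pool.Agent.P.MP_d0f69c_mp.XS.IfSel

/-!
The mass that can be kept by the selection.
-/

set_option autoImplicit false

open Finset Real

namespace Pool.Agent.P.MP_d0f69c_mp.XS

namespace SelBA

variable {d M : ℕ} [NeZero M] {E : Env d M} {q : Par} {S : St (Tor d M)}

theorem card_mul_le {α : Type} (T B : Finset α) (f : α → ℝ) (c N : ℝ) (hB : B ⊆ T)
    (h0 : ∀ y ∈ T, 0 ≤ f y) (hc : ∀ y ∈ B, c ≤ f y) (hN : ∑ y ∈ T, f y ≤ N) :
    (B.card : ℝ) * c ≤ N := by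
  have h1 : B.card • c ≤ ∑ y ∈ B, f y := card_nsmul_le_sum B f c hc
  rw [nsmul_eq_mul] at h1
  exact h1.trans ((sum_le_sum_of_subset_of_nonneg hB fun y hy _ => h0 y hy).trans hN)

omit [NeZero M] in
theorem gO {x : Tor d M} (hx : x ∈ S.good) : x ∈ S.O := mem_union_left _ (mem_union_left _ hx)

omit [NeZero M] in
theorem oO {x : Tor d M} (hx : x ∈ S.omg) : x ∈ S.O := mem_union_left _ (mem_union_right _ hx)

omit [NeZero M] in
theorem jO {x : Tor d M} (hx : x ∈ S.junk) : x ∈ S.O := mem_union_right _ hx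

theorem aw_bd (hE : E.OK) (hq : q.OK E) (hI : Inv E (q.b1 E.η) S) {u : Tor d M} (hu : u ∈ S.O) :
    1 - 1 / 10 ^ 7 ≤ aw E.η S.W u ∧ aw E.η S.W u ≤ 1 + 1 / 10 ^ 7 := by
  have h : |aw E.η S.W u - 1| ≤ q.θ + 1 / (q.P : ℝ) ^ 3 := (hI.opn u hu).2
  have h2 := hq.θ_add hE (c := 1) (by norm_num)
  have h3 := abs_le.1 (h.trans h2)
  constructor <;> linarith [h3.1, h3.2]

theorem deg (h1 : S_ADM) (h2 : S_PCI) (hE : E.OK) (hq : q.OK E) (hI : Inv E (q.b1 E.η) S)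
    (hc : Cover E S.omg) {u : Tor d M} (hu : u ∈ S.O) :
    99 / 100 ≤ ∑ y ∈ S.O.erase u, aw E.η S.W y * ‖S.G u y‖ ^ 2 ∧
      ∑ y ∈ S.O.erase u, aw E.η S.W y * ‖S.G u y‖ ^ 2 ≤ 101 / 100 := by
  have hs := (h1 d M E S.H S.junk hE hI.phys).1
  have hθ := hq.θ_add hE (c := 1) (by norm_num)
  have hθ0 : 0 ≤ q.θ + 1 / (q.P : ℝ) ^ 3 := add_nonneg hq.θ0 (by positivity)
  obtain ⟨c, hp⟩ := h2 d M E (Kk E.η S.W S.G) S.O S.omg (q.θ + 1 / (q.P : ℝ) ^ 3) hE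
    (fun x y => by
      have : S.G x y = S.G y x := NW.GG_symm hs S.W x y
      simp only [Kk, this]; ring)
    hI.ul hθ0 (by linarith) (fun x hx => oO hx) hc
  obtain ⟨a1, a2⟩ := hp.deg hu
  have e : ∑ y ∈ S.O.erase u, Kk E.η S.W S.G u y =
      aw E.η S.W u * ∑ y ∈ S.O.erase u, aw E.η S.W y * ‖S.G u y‖ ^ 2 := by
    rw [mul_sum]; exact sum_congr rfl fun y _ => by simp only [Kk]; ring
  rw [e] at a1 a2
  obtain ⟨b1, b2⟩ := aw_bd hE hq hI hu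
  have h0 : 0 ≤ ∑ y ∈ S.O.erase u, aw E.η S.W y * ‖S.G u y‖ ^ 2 :=
    sum_nonneg fun y hy => mul_nonneg
      (le_trans (by norm_num) (aw_bd hE hq hI (mem_of_mem_erase hy)).1) (sq_nonneg _)
  constructor <;> nlinarith

theorem deg2 (h1 : S_ADM) (h2 : S_PCI) (hE : E.OK) (hq : q.OK E) (hI : Inv E (q.b1 E.η) S)
    (hc : Cover E S.omg) {u : Tor d M} (hu : u ∈ S.O) :
    ∑ y ∈ S.O.erase u, ‖S.G u y‖ ^ 2 ≤ 2 := by
  have h := (deg h1 h2 hE hq hI hc hu).2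
  have : ∑ y ∈ S.O.erase u, ‖S.G u y‖ ^ 2 ≤
      ∑ y ∈ S.O.erase u, 3 / 2 * (aw E.η S.W y * ‖S.G u y‖ ^ 2) := sum_le_sum fun y hy => by
    have := (aw_bd hE hq hI (mem_of_mem_erase hy)).1
    nlinarith [sq_nonneg ‖S.G u y‖]
  rw [← mul_sum] at this
  linarith

theorem near (h3 : S_SELF) (hE : E.OK) (hq : q.OK E) (hI : Inv E (q.b1 E.η) S) {u y : Tor d M}
    (hu : u ∈ S.O) (h : q.μ / 8 < ‖S.G u y‖ ^ 2) : nm (y - u) ≤ q.D E.η 1 := by
  by_contra hn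
  have a := (h3 d M E q S hE hq hI u hu).1
  have b : ‖S.G u y‖ ^ 2 ≤ ∑ y with q.D E.η 1 < nm (y - u), ‖S.G u y‖ ^ 2 :=
    single_le_sum (f := fun y => ‖S.G u y‖ ^ 2) (fun _ _ => sq_nonneg _)
      (mem_filter.2 ⟨mem_univ _, not_le.1 hn⟩)
  have := hq.μpos
  have := hq.μ_le_one hE
  nlinarith

omit [NeZero M] in
theorem four {x y y' o o' : Tor d M} {D : ℕ} (a : nm (y - x) ≤ D) (b : nm (y' - x) ≤ D)
    (c : nm (y - o) ≤ D) (e : nm (y' - o') ≤ D) : nm (o - o') ≤ 4 * D := by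
  have h1 := nm_tri o y o'
  have h2 := nm_tri y x o'
  have h3 := nm_tri x y' o'
  rw [nm_comm o y] at h1
  rw [nm_comm x y'] at h3
  omega

theorem cB1 (h3 : S_SELF) (hE : E.OK) (hq : q.OK E) (hI : Inv E (q.b1 E.η) S) (x : Tor d M)
    (B : Finset (Tor d M)) (hB : ∀ y ∈ B, y ∈ S.good ∧ nm (y - x) ≤ q.D E.η 1 ∧ q.fin = false ∧
      ∃ o ∈ S.omg, q.μ / 8 < ‖S.G o y‖ ^ 2) : (B.card : ℝ) * q.μ ≤ 1 / 20 := by
  rcases B.eq_empty_or_nonempty with rfl | ⟨y0, hy0⟩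
  · simp
  obtain ⟨-, n0, hf, o0, ho0, g0⟩ := hB y0 hy0
  have hμ := hq.μpos
  have hrow : o0 ∈ S.rowA (q.b1 E.η).fin := by
    show o0 ∈ S.rowA q.fin
    simp [St.rowA, hf, ho0]
  have hl : ∑ y ∈ S.good.erase o0, ‖S.G o0 y‖ ^ 4 ≤ 3 / 5 * ((q.P : ℝ) ^ 20 * q.μ ^ 2) :=
    hI.lA o0 hrow
  have key := card_mul_le (S.good.erase o0) B (fun y => ‖S.G o0 y‖ ^ 4) ((q.μ / 8) ^ 2) _
    (fun y hy => mem_erase.2 ⟨fun e => disjoint_left.1 hI.go (hB y hy).1 (e ▸ ho0), (hB y hy).1⟩)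
    (fun _ _ => by positivity)
    (fun y hy => by
      obtain ⟨-, n1, -, o, ho, g⟩ := hB y hy
      have e : o = o0 := by
        by_contra hne
        have a := hE.sep o (hI.oΩ ho) o0 (hI.oΩ ho0) hne
        have b := four n1 n0 (near h3 hE hq hI (oO ho) g) (near h3 hE hq hI (oO ho0) g0)
        have c := (hq.vj hf).2
        have e1 := hq.D_mono hE (show 1 ≤ 3 by norm_num)
        have e2 := hq.D_one hE 3
        omega
      subst e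
      have : (q.μ / 8) ^ 2 ≤ (‖S.G o y‖ ^ 2) ^ 2 := pow_le_pow_left₀ (by positivity) g.le 2
      simpa only [← pow_mul] using this) hl
  have k2 : (B.card : ℝ) ≤ 39 * (q.P : ℝ) ^ 20 := by
    have hP : (0 : ℝ) ≤ (q.P : ℝ) ^ 20 := by positivity
    have : (B.card : ℝ) * q.μ ^ 2 ≤ 39 * (q.P : ℝ) ^ 20 * q.μ ^ 2 := by
      nlinarith [mul_nonneg hP (sq_nonneg q.μ)]
    exact le_of_mul_le_mul_right this (by positivity)
  have k3 : q.μ * (q.P : ℝ) ^ 20 ≤ E.η := by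
    have hP := hq.Ppos hE
    have a : q.μ ≤ E.η / (q.P : ℝ) ^ 200 := hq.μ_le.trans hq.J2
    rw [le_div_iff₀ (by positivity)] at a
    exact (mul_le_mul_of_nonneg_left (hq.pow_le hE (by norm_num)) hμ.le).trans a
  have := hE.η1
  nlinarith [mul_le_mul_of_nonneg_right k2 hμ.le]

theorem cB2 (h1 : S_ADM) (h2 : S_PCI) (h3 : S_SELF) (hE : E.OK) (hq : q.OK E)
    (hI : Inv E (q.b1 E.η) S) (hc : Cover E S.omg) (x : Tor d M)
    (B : Finset (Tor d M)) (hB : ∀ y ∈ B, y ∈ S.good ∧ nm (y - x) ≤ q.D E.η 1 ∧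
      ∃ b ∈ spc E q S, q.e ^ 190 / 4 < ‖S.G b y‖ ^ 2) : (B.card : ℝ) * q.μ ≤ 1 / 20 := by
  classical
  rcases B.eq_empty_or_nonempty with rfl | ⟨y0, hy0⟩
  · simp
  obtain ⟨-, n0, b0, hb0, g0⟩ := hB y0 hy0
  have he := hq.e0
  have he1 := hq.e_le_one hE
  have hμ := hq.μpos
  have hm : q.μ / 8 ≤ q.e ^ 190 / 4 := by
    have : q.μ ≤ q.e ^ 190 := pow_le_pow_of_le_one he.le he1 (by norm_num)
    linarith
  unfold spc at hB hb0
  obtain ⟨j0, hlate, hcard⟩ := mem_filter.1 hb0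
  have sub : B ⊆ (S.junk ∩ bl b0 (4 * q.D E.η 1)).biUnion fun b =>
      S.good.filter fun y => q.e ^ 190 / 4 < ‖S.G b y‖ ^ 2 := fun y hy => by
    obtain ⟨hg, n1, b, hb, g⟩ := hB y hy
    have j := (mem_filter.1 hb).1
    exact mem_biUnion.2 ⟨b, mem_inter.2 ⟨j, mem_bl.2 (four n1 n0
      (near h3 hE hq hI (jO j) (hm.trans_lt g)) (near h3 hE hq hI (jO j0) (hm.trans_lt g0)))⟩,
      mem_filter.2 ⟨hg, g⟩⟩
  have c1 : (B.card : ℝ) ≤ ∑ b ∈ S.junk ∩ bl b0 (4 * q.D E.η 1),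
      ((S.good.filter fun y => q.e ^ 190 / 4 < ‖S.G b y‖ ^ 2).card : ℝ) := by
    exact_mod_cast (card_le_card sub).trans card_biUnion_le
  have c2 : (B.card : ℝ) * (q.e ^ 190 / 4) ≤ (S.junk ∩ bl b0 (4 * q.D E.η 1)).card • (2 : ℝ) := by
    refine (mul_le_mul_of_nonneg_right c1 (by positivity)).trans ?_
    rw [sum_mul]
    refine sum_le_card_nsmul _ _ _ fun b hb => ?_
    have j := (mem_inter.1 hb).1
    exact card_mul_le (S.O.erase b) _ (fun y => ‖S.G b y‖ ^ 2) _ _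
      (fun y hy => mem_erase.2 ⟨fun e => disjoint_left.1 hI.gj (mem_filter.1 hy).1 (e ▸ j),
        gO (mem_filter.1 hy).1⟩) (fun _ _ => sq_nonneg _) (fun y hy => (mem_filter.1 hy).2.le)
      (deg2 h1 h2 hE hq hI hc (jO j))
  rw [nsmul_eq_mul] at c2
  rw [le_div_iff₀ he] at hcard
  have c3 : (B.card : ℝ) * (q.e ^ 190 / 4) * q.e ≤ 2 := by
    nlinarith [mul_le_mul_of_nonneg_right c2 he.le]
  have c4 : q.e ≤ 1 / 10 ^ 8 :=
    hlate.2.trans ((div_le_self hE.η0.le (one_le_pow₀ (hq.Pone hE))).trans hE.η1)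
  have c5 : q.e ^ 9 ≤ q.e := pow_le_of_le_one he.le he1 (by norm_num)
  have c6 : (B.card : ℝ) * q.μ = 4 * ((B.card : ℝ) * (q.e ^ 190 / 4) * q.e) * q.e ^ 9 := by
    simp only [Par.μ]; ring
  have c7 : 0 ≤ q.e ^ 9 := by positivity
  rw [c6]
  nlinarith [mul_le_mul_of_nonneg_right c3 c7]

theorem cBk (h1 : S_ADM) (h2 : S_PCI) (h3 : S_SELF) (hE : E.OK) (hq : q.OK E)
    (hI : Inv E (q.b1 E.η) S) (hc : Cover E S.omg) (x : Tor d M)
    (B : Finset (Tor d M)) (hB : ∀ y ∈ B, y ∈ S.good ∧ nm (y - x) ≤ q.D E.η 1 ∧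
      y ∉ cand E q S) : (B.card : ℝ) * q.μ ≤ 1 / 10 := by
  classical
  have hμ := hq.μpos
  cases hl : q.last with
  | true =>
    have a := hq.lst hl
    have b : (B.card : ℝ) ≤ (M : ℝ) ^ d := by
      have := card_le_univ B
      rw [Fintype.card_fun, ZMod.card, Fintype.card_fin] at this
      exact_mod_cast this
    nlinarith [mul_le_mul_of_nonneg_right b hμ.le]
  | false =>
    have e := card_filter_add_card_filter_not (s := B)
      (fun y => ∃ b ∈ spc E q S, q.e ^ 190 / 4 < ‖S.G b y‖ ^ 2)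
    have a := cB2 h1 h2 h3 hE hq hI hc x
      (B.filter fun y => ∃ b ∈ spc E q S, q.e ^ 190 / 4 < ‖S.G b y‖ ^ 2) fun y hy =>
        ⟨(hB y (mem_filter.1 hy).1).1, (hB y (mem_filter.1 hy).1).2.1, (mem_filter.1 hy).2⟩
    have b := cB1 h3 hE hq hI x
      (B.filter fun y => ¬ ∃ b ∈ spc E q S, q.e ^ 190 / 4 < ‖S.G b y‖ ^ 2) fun y hy => by
        obtain ⟨hy1, hy2⟩ := mem_filter.1 hy
        obtain ⟨g, n, hn⟩ := hB y hy1
        refine ⟨g, n, ?_⟩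
        by_contra hcon
        apply hn
        unfold cand
        refine mem_filter.2 ⟨g, hl, fun hf o ho => ?_, fun b hb => ?_⟩
        · exact not_lt.1 fun hlt => hcon ⟨hf, o, ho, hlt⟩
        · exact not_lt.1 fun hlt => hy2 ⟨b, hb, hlt⟩
    rw [← e]
    push_cast
    linarith

end SelBA

open SelBA in
theorem t_selb (h1 : S_ADM) (h2 : S_PCI) (h3 : S_SELF) : S_SELB := by
  intro d M _ E q S hE hq hI x hx
  have hc : Cover E S.omg := hI.cov.resolve_left fun e => by simp [e] at hx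
  obtain ⟨a1, a2⟩ := deg h1 h2 hE hq hI hc (gO hx)
  have hμ := hq.μpos
  have hμ1 := hq.μ_le_one hE
  have f0 : ∀ z ∈ S.O, 0 ≤ aw E.η S.W z * ‖S.G x z‖ ^ 2 := fun z hz =>
    mul_nonneg (le_trans (by norm_num) (aw_bd hE hq hI hz).1) (sq_nonneg _)
  have f2 : ∀ z ∈ S.O, aw E.η S.W z * ‖S.G x z‖ ^ 2 ≤ 2 * ‖S.G x z‖ ^ 2 := fun z hz =>
    mul_le_mul_of_nonneg_right (le_trans (aw_bd hE hq hI hz).2 (by norm_num)) (sq_nonneg _)
  have hd : Disjoint (S.omg ∪ S.junk) (S.good.erase x) :=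
    (disjoint_union_right.2 ⟨hI.go, hI.gj⟩).symm.mono_right (erase_subset _ _)
  have eO : S.O.erase x = (S.omg ∪ S.junk) ∪ S.good.erase x := by
    have n1 := disjoint_left.1 hI.go hx
    have n2 := disjoint_left.1 hI.gj hx
    ext z
    simp only [St.O, mem_erase, mem_union]
    constructor
    · tauto
    · rintro ((h | h) | h)
      · exact ⟨fun e => n1 (e ▸ h), Or.inl (Or.inr h)⟩
      · exact ⟨fun e => n2 (e ▸ h), Or.inr h⟩
      · exact ⟨h.1, Or.inl (Or.inl h.2)⟩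
  rw [eO, sum_union hd] at a1 a2
  have p0 : 0 ≤ ∑ z ∈ S.omg ∪ S.junk, aw E.η S.W z * ‖S.G x z‖ ^ 2 :=
    sum_nonneg fun z hz => f0 z ((mem_union.1 hz).elim oO jO)
  refine ⟨by linarith, ?_⟩
  have s1 := sum_filter_add_sum_filter_not (S.good.erase x) (fun y => q.D E.η 1 < nm (y - x))
    fun z => aw E.η S.W z * ‖S.G x z‖ ^ 2
  have s2 : ∑ z ∈ (S.good.erase x).filter (fun y => q.D E.η 1 < nm (y - x)),
      aw E.η S.W z * ‖S.G x z‖ ^ 2 ≤ 2 * (q.μ ^ 2 / 100) := by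
    refine (sum_le_sum fun z hz => f2 z (gO (mem_of_mem_erase (mem_filter.1 hz).1))).trans ?_
    rw [← mul_sum]
    refine mul_le_mul_of_nonneg_left (le_trans ?_ (h3 d M E q S hE hq hI x (gO hx)).1) zero_le_two
    exact sum_le_sum_of_subset_of_nonneg (filter_subset_filter _ (subset_univ _))
      fun _ _ _ => sq_nonneg _
  have sub : (cand E q S ∩ bl x (q.D E.η 1)).erase x ⊆
      (S.good.erase x).filter fun y => ¬ q.D E.η 1 < nm (y - x) := fun y hy => by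
    obtain ⟨b1, b2⟩ := mem_erase.1 hy
    obtain ⟨b2, b3⟩ := mem_inter.1 b2
    unfold cand at b2
    exact mem_filter.2 ⟨mem_erase.2 ⟨b1, (mem_filter.1 b2).1⟩, not_lt.2 (mem_bl.1 b3)⟩
  have s3 := sum_sdiff sub (f := fun z => aw E.η S.W z * ‖S.G x z‖ ^ 2)
  set B := ((S.good.erase x).filter fun y => ¬ q.D E.η 1 < nm (y - x)) \
    (cand E q S ∩ bl x (q.D E.η 1)).erase x with hB
  have hB' : ∀ y ∈ B, y ≠ x ∧ y ∈ S.good ∧ nm (y - x) ≤ q.D E.η 1 ∧ y ∉ cand E q S :=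
    fun y hy => by
      obtain ⟨b1, b2⟩ := mem_sdiff.1 hy
      obtain ⟨b1, b3⟩ := mem_filter.1 b1
      obtain ⟨b1, b4⟩ := mem_erase.1 b1
      exact ⟨b1, b4, not_lt.1 b3, fun b5 =>
        b2 (mem_erase.2 ⟨b1, mem_inter.2 ⟨b5, mem_bl.2 (not_lt.1 b3)⟩⟩)⟩
  have s4 := cBk h1 h2 h3 hE hq hI hc x B fun y hy => (hB' y hy).2
  have hrow : x ∈ S.rowA (q.b1 E.η).fin := by
    unfold St.rowA
    split_ifs
    exacts [hx, mem_union_left _ hx]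
  have s5 : ∑ z ∈ B, aw E.η S.W z * ‖S.G x z‖ ^ 2 ≤ B.card • (2 * (3 / 5 * q.μ)) :=
    sum_le_card_nsmul _ _ _ fun z hz => (f2 z (gO (hB' z hz).2.1)).trans
      (mul_le_mul_of_nonneg_left (hI.ampA x hrow z (hB' z hz).2.1 (hB' z hz).1.symm) zero_le_two)
  rw [nsmul_eq_mul] at s5
  nlinarith

end Pool.Agent.P.MP_d0f69c_mp.XS
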