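import Pool.Agent.P.MP_d0f69c_mp.XS.IfSel

/-!
Far entries and the conflict graph of the selection step.
-/

set_option autoImplicit false

open Finset Real

namespace Pool.Agent.P.MP_d0f69c_mp.XS

namespace SelNA

variable {d M : ℕ} [NeZero M] {E : Env d M} {q : Par}

theorem tau_le (hq : q.OK E) (hE : E.OK) : q.τ ≤ q.μ ^ 2 / 100 := by
  have hP := hq.P9 hE
  have h1 := hq.pow_lt hE (a := 1) (b := 7) (by norm_num) (c := 3) (by norm_num)
  rw [pow_one] at h1
  have h2 : exp (-(q.P : ℝ)) ^ 2 ≤ q.μ ^ 2 := pow_le_pow_left₀ (exp_pos _).le hq.μ1 2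
  have h3 : (100 : ℝ) ≤ exp (q.P : ℝ) := by
    have := add_one_le_exp (q.P : ℝ); linarith
  have h4 : q.τ * exp (q.P : ℝ) ≤ exp (-(q.P : ℝ)) ^ 2 := by
    rw [Par.τ, ← exp_add, sq, ← exp_add, exp_le_exp]; linarith
  have h5 := mul_le_mul_of_nonneg_left h3 (Par.OK.τpos q).le
  linarith

theorem card_le {ι : Type} (s : Finset ι) (p : ι → Prop) [DecidablePred p] (f : ι → ℝ) (a b : ℝ)
    (h0 : ∀ x, 0 ≤ f x) (h : ∀ x, p x → a ≤ f x) (hs : ∑ x ∈ s, f x ≤ b) :
    ((s.filter p).card : ℝ) * a ≤ b := by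
  have h1 := card_nsmul_le_sum (s.filter p) f a fun x hx => h x (mem_filter.1 hx).2
  rw [nsmul_eq_mul] at h1
  exact h1.trans ((sum_le_sum_of_subset_of_nonneg (filter_subset _ _) fun x _ _ => h0 x).trans hs)

end SelNA

open SelNA

theorem t_self (h : S_FAR) : S_SELF := by
  intro d M _ E q S hE hq hI x hx
  have hF : ∑ z : Tor d M with q.D E.η 1 < nm z,
      exp ((q.P : ℝ) ^ 6) * exp (-(nm z : ℝ) / (2 * q.li E.η 1)) * (1 + nm z) ^ 2 ≤ q.τ :=
    ((h d M E q hE hq).2 1 (by norm_num)).1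
  have hl : (1 : ℝ) ≤ q.li E.η 1 := by exact_mod_cast hq.li_one hE 1
  have h1 : ∀ y, ‖S.G x y‖ ≤ exp ((q.P : ℝ) ^ 6) *
      exp (-(nm (y - x) : ℝ) / (2 * q.li E.η 1)) * (1 + nm (y - x)) ^ 2 := by
    intro y
    have a : ‖S.G x y‖ ≤ q.Bi 1 * exp (-(nm (x - y) : ℝ) / q.li E.η 1) := hI.dec x hx y
    rw [nm_comm] at a
    have n0 : (0 : ℝ) ≤ nm (y - x) := Nat.cast_nonneg _
    have b : exp (-(nm (y - x) : ℝ) / q.li E.η 1) ≤
        exp (-(nm (y - x) : ℝ) / (2 * q.li E.η 1)) := by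
      rw [exp_le_exp, neg_div, neg_div, neg_le_neg_iff]
      exact div_le_div_of_nonneg_left n0 (by linarith) (by linarith)
    refine (a.trans (mul_le_mul (hq.Bi_le (by norm_num)) b (exp_pos _).le (exp_pos _).le)).trans ?_
    exact le_mul_of_one_le_right (by positivity) (one_le_pow₀ (by linarith))
  have h2 : ∑ y with q.D E.η 1 < nm (y - x), ‖S.G x y‖ ≤ q.μ ^ 2 / 100 := by
    refine (sum_le_sum fun y _ => h1 y).trans (le_trans (le_of_eq ?_) (hF.trans (tau_le hq hE)))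
    refine sum_equiv (Equiv.subRight x) (fun y => by simp) fun y _ => by simp
  have hμ := hq.μ_le_one hE
  have hμ0 := hq.μpos
  have h3 : ∀ y ∈ (univ.filter fun y => q.D E.η 1 < nm (y - x)), ‖S.G x y‖ ≤ 1 := fun y hy =>
    ((single_le_sum (f := fun y => ‖S.G x y‖) (fun _ _ => norm_nonneg _) hy).trans h2).trans
      (by nlinarith)
  exact ⟨(sum_le_sum fun y hy => pow_le_of_le_one (norm_nonneg _) (h3 y hy) (by norm_num)).trans h2,
    (sum_le_sum fun y hy => pow_le_of_le_one (norm_nonneg _) (h3 y hy) (by norm_num)).trans h2⟩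

theorem t_seln (h1 : S_ADM) (h2 : S_SELF) : S_SELN := by
  classical
  intro d M _ E q S hE hq hI
  have hs : ∀ x y, S.G x y = S.G y x := fun x y =>
    NW.GG_symm (h1 d M E S.H S.junk hE hI.phys).1 S.W x y
  have hμ := hq.μ_le_one hE
  have hμ0 := hq.μpos
  have hP := hq.Ppos hE
  refine ⟨fun y z hy => ?_, fun y => ?_, fun y z hz => ?_⟩
  · simp only [nbr, mem_filter, mem_erase] at hy ⊢
    obtain ⟨⟨a, b⟩, c, e⟩ := hy
    refine ⟨⟨fun h => a h.symm, c⟩, b, ?_⟩
    rw [hs y z, show y - z = -(z - y) by abel, hE.ref.ge]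
    exact e
  · by_cases hy : y ∈ S.good
    swap
    · have : nbr E q S y = ∅ := by
        simp only [nbr]
        exact filter_eq_empty_iff.2 fun z _ hz => hy hz.1
      rw [this]; simp
    have hA : y ∈ S.rowA q.fin := by
      unfold St.rowA; split_ifs
      exacts [hy, mem_union_left _ hy]
    have a1 : ∑ z ∈ S.good.erase y, ‖S.G y z‖ ^ 4 ≤ 3 / 5 * ((q.P : ℝ) ^ 20 * q.μ ^ 2) :=
      hI.lA y hA
    have a2 : ∑ z ∈ S.good.erase y, E.gt (y - z) ^ 2 ≤ q.μ ^ 2 := hI.gs y hy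
    have b1 := card_le (S.good.erase y) (fun z => q.μ / 8 < ‖S.G y z‖ ^ 2) _ ((q.μ / 8) ^ 2) _
      (fun z => by positivity) (fun z hz => by
        have := pow_le_pow_left₀ (by positivity) hz.le 2
        rwa [← pow_mul] at this) a1
    have b2 := card_le (S.good.erase y) (fun z => q.μ ^ 2 / (q.P : ℝ) ^ 4 < E.gt (y - z) ^ 2) _
      (q.μ ^ 2 / (q.P : ℝ) ^ 4) _ (fun z => by positivity) (fun z hz => hz.le) a2
    set A := (S.good.erase y).filter fun z => q.μ / 8 < ‖S.G y z‖ ^ 2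
    set B := (S.good.erase y).filter fun z => q.μ ^ 2 / (q.P : ℝ) ^ 4 < E.gt (y - z) ^ 2
    have c0 : nbr E q S y ⊆ A ∪ B := fun z hz => by
      simp only [nbr, mem_filter] at hz
      rcases hz.2.2 with h | h
      · exact mem_union_left _ (mem_filter.2 ⟨hz.1, h⟩)
      · exact mem_union_right _ (mem_filter.2 ⟨hz.1, h⟩)
    have c1 : (A.card : ℝ) ≤ 39 * (q.P : ℝ) ^ 20 := by
      have m2 : 0 < q.μ ^ 2 := by positivity
      have p20 : 0 < (q.P : ℝ) ^ 20 := by positivity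
      refine le_of_mul_le_mul_right ?_ m2
      nlinarith [mul_pos p20 m2]
    have c2 : (B.card : ℝ) ≤ (q.P : ℝ) ^ 4 := by
      have m2 : 0 < q.μ ^ 2 := by positivity
      rw [← mul_div_assoc, div_le_iff₀ (by positivity)] at b2
      refine le_of_mul_le_mul_right ?_ m2
      linarith
    have c3 := hq.pow_lt hE (a := 20) (b := 21) (by norm_num) (c := 40) (by norm_num)
    have c4 := hq.pow_le hE (a := 4) (b := 20) (by norm_num)
    have c5 : ((nbr E q S y).card : ℝ) ≤ A.card + B.card := by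
      exact_mod_cast (card_le_card c0).trans (card_union_le _ _)
    have : ((nbr E q S y).card : ℝ) ≤ (q.P : ℝ) ^ 21 := by linarith
    exact_mod_cast this
  · rw [mem_bl]
    by_contra hn
    push Not at hn
    simp only [nbr, mem_filter] at hz
    obtain ⟨-, hy, h | h⟩ := hz
    · have a := (h2 d M E q S hE hq hI y (mem_union_left _ (mem_union_left _ hy))).1
      have b := single_le_sum (f := fun z => ‖S.G y z‖ ^ 2) (fun _ _ => by positivity)
        (show z ∈ univ.filter fun z => q.D E.η 1 < nm (z - y) from mem_filter.2 ⟨mem_univ _, hn⟩)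
      nlinarith
    · rw [nm_comm] at hn
      have b := single_le_sum (f := fun x => E.gt x ^ 2) (fun _ _ => by positivity)
        (show y - z ∈ univ.filter fun x => q.D E.η 1 < nm x from mem_filter.2 ⟨mem_univ _, hn⟩)
      have c : q.μ ^ 2 / (q.P : ℝ) ^ 5 ≤ q.μ ^ 2 / (q.P : ℝ) ^ 4 :=
        div_le_div_of_nonneg_left (by positivity) (by positivity) (hq.pow_le hE (by norm_num))
      have := hq.tail
      linarith

end Pool.Agent.P.MP_d0f69c_mp.XS
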