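import Pool.Agent.P.MP_d0f69c_mp.XS.IfSel

set_option autoImplicit false

open Finset Real

namespace Pool.Agent.P.MP_d0f69c_mp.XS

namespace SelPA

variable {d M : ℕ} [NeZero M] {E : Env d M} {q : Par} {S : St (Tor d M)}

theorem third (hq : q.OK E) (hE : E.OK) {a b : ℝ} (hb : 0 < b)
    (h : (q.P : ℝ) ^ 4 / 200 * b ≤ a) : exp (-a / b) ≤ exp (-(q.P : ℝ) ^ 3) / 3 := by
  have h1 : (400 : ℝ) * (q.P : ℝ) ^ 3 ≤ (q.P : ℝ) ^ 4 := hq.pow_lt hE (by norm_num) (by norm_num)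
  have h2 : (2 : ℝ) * (q.P : ℝ) ^ 0 ≤ (q.P : ℝ) ^ 3 := hq.pow_lt hE (by norm_num) (by norm_num)
  have h3 : -a / b ≤ -(q.P : ℝ) ^ 3 - 2 := by
    rw [← le_div_iff₀ hb] at h
    rw [neg_div]
    linarith [pow_zero (q.P : ℝ)]
  refine (exp_le_exp.2 h3).trans ?_
  rw [exp_sub]
  exact div_le_div_of_nonneg_left (exp_pos _).le (by norm_num) (by linarith [add_one_le_exp 2])

theorem km (hq : q.OK E) (hE : E.OK) : q.Km = q.P ^ 24 :=
  Nat.sub_add_cancel (Nat.one_le_pow _ _ (lt_of_lt_of_le (by norm_num) (hq.P9' hE)))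

theorem kmr (hq : q.OK E) (hE : E.OK) : (q.Km : ℝ) = (q.P : ℝ) ^ 24 := by
  rw [km hq hE, Nat.cast_pow]

theorem div_km (hq : q.OK E) (hE : E.OK) {N : ℝ} (hN : 0 ≤ N) : N / q.Km ≤ N / 80 := by
  have h2 : (80 : ℝ) * (q.P : ℝ) ^ 0 ≤ (q.P : ℝ) ^ 24 := hq.pow_lt hE (by norm_num) (by norm_num)
  rw [kmr hq hE]
  exact div_le_div_of_nonneg_left hN (by norm_num) (by simpa using h2)

theorem good_row {x : Tor d M} (hx : x ∈ S.good) (b : Bool) : x ∈ S.rowA b := by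
  cases b
  exacts [mem_union_left _ hx, hx]

theorem fl1 (h1 : S_MARKU) (hE : E.OK) (hq : q.OK E) (hI : Inv E (q.b1 E.η) S) {x : Tor d M}
    (hx : x ∈ S.O) : pr (Fl1 E q S x) ≤ exp (-(q.P : ℝ) ^ 3) / 3 := by
  have hr := hq.μr_pos S x
  have hP := hq.Ppos hE
  have hb : (∀ y ∈ S.good.erase x, ‖S.G x y‖ ^ 2 ≤ μr q S x) ∧
      ∑ y ∈ S.good.erase x, ‖S.G x y‖ ^ 4 ≤ (q.P : ℝ) ^ 20 * μr q S x ^ 2 := by
    unfold μr
    split_ifs with h
    · refine ⟨fun y hy => (hI.ampA x h y (mem_erase.1 hy).2 (mem_erase.1 hy).1.symm).trans ?_,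
        (hI.lA x h).trans ?_⟩
      · show 3 / 5 * q.μ ≤ q.μ
        linarith [hq.μpos]
      · show 3 / 5 * q.n ≤ q.n
        linarith [hq.npos hE]
    · have h2 : x ∈ S.O \ S.rowA (q.b1 E.η).fin := mem_sdiff.2 ⟨hx, h⟩
      refine ⟨fun y hy => (hI.ampB rfl x h2 y (mem_erase.1 hy).2).trans ?_,
        (sum_le_sum_of_subset_of_nonneg (erase_subset _ _) fun _ _ _ => by positivity).trans
          ((hI.lB rfl x h2).trans ?_)⟩
      · show (q.ζ + 1 / (q.P : ℝ) ^ 3) ^ 2 * q.μJ ≤ q.μJ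
        have h3 : 1 / (q.P : ℝ) ^ 3 ≤ 1 / (q.P : ℝ) ^ 2 :=
          one_div_le_one_div_of_le (by positivity) (hq.pow_le hE (by norm_num))
        refine mul_le_of_le_one_left hq.μJpos.le (pow_le_one₀ ?_ (by linarith [hq.ζ1]))
        have := hq.ζ0
        positivity
      · show 3 / 5 * q.nJ ≤ q.nJ
        linarith [hq.npos hE, hq.n_le]
  have hs : (S.good ∩ bl x (q.D E.η 1)).erase x ⊆ S.good.erase x :=
    erase_subset_erase _ inter_subset_left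
  unfold Fl1
  generalize μr q S x = r at *
  refine le_trans (pr_mono fun w hw => le_trans ?_ hw) ((h1 _ q.Km _ (fun y => ‖S.G x y‖ ^ 4)
    (r ^ 2) ((q.P : ℝ) ^ 20 * r ^ 2) ((q.P : ℝ) ^ 20 * r ^ 2 / 80) (by positivity) (by positivity)
    (by positivity) (fun y hy => ⟨by positivity, ?_⟩)
    ((sum_le_sum_of_subset_of_nonneg hs fun _ _ _ => by positivity).trans hb.2)).trans
    (third hq hE (by positivity) ?_))
  · linarith [div_km hq hE (N := (q.P : ℝ) ^ 20 * r ^ 2) (by positivity)]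
  · calc ‖S.G x y‖ ^ 4 = (‖S.G x y‖ ^ 2) ^ 2 := by ring
      _ ≤ r ^ 2 := pow_le_pow_left₀ (by positivity) (hb.1 y (hs hy)) 2
  · have h2 : (64 : ℝ) * (q.P : ℝ) ^ 24 ≤ (q.P : ℝ) ^ 40 := hq.pow_lt hE (by norm_num) (by norm_num)
    have h3 := mul_le_mul_of_nonneg_right h2 (pow_pos hr 4).le
    linarith

theorem fl3 (h1 : S_MARKU) (hE : E.OK) (hq : q.OK E) (hI : Inv E (q.b1 E.η) S) {x : Tor d M}
    (hx : x ∈ S.good) : pr (Fl3 E q S x) ≤ exp (-(q.P : ℝ) ^ 3) / 3 := by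
  have hr := hq.μpos
  have hP := hq.Ppos hE
  have hs : (S.good ∩ bl x (q.D E.η 1)).erase x \ nbr E q S x ⊆ S.good.erase x :=
    sdiff_subset.trans (erase_subset_erase _ inter_subset_left)
  unfold Fl3
  refine le_trans (pr_mono fun w hw => le_trans ?_ hw) ((h1 _ q.Km _ (fun v => E.gt (x - v) ^ 2)
    (q.μ ^ 2 / (q.P : ℝ) ^ 4) (q.μ ^ 2) (q.μ ^ 2 / 10) (by positivity) (by positivity)
    (by positivity) (fun y hy => ⟨by positivity, ?_⟩)
    ((sum_le_sum_of_subset_of_nonneg hs fun _ _ _ => by positivity).trans (hI.gs x hx))).trans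
    (third hq hE (by positivity) (le_of_eq ?_)))
  · linarith [div_km hq hE (N := q.μ ^ 2) (by positivity), pow_pos hr 2]
  · by_contra h
    refine (mem_sdiff.1 hy).2 ?_
    unfold nbr
    exact mem_filter.2 ⟨hs hy, hx, Or.inr (not_le.1 h)⟩
  · field_simp
    norm_num

theorem fl2 (h2 : S_MARKL) (h3 : S_SELN) (h4 : S_SELB) (hE : E.OK) (hq : q.OK E)
    (hI : Inv E (q.b1 E.η) S) {x : Tor d M} (hx : x ∈ S.good) :
    pr (Fl2 E q S x) ≤ exp (-(q.P : ℝ) ^ 3) / 3 := by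
  have hr := hq.μpos
  have hP := hq.Ppos hE
  obtain ⟨h5, h6, -⟩ := h3 d M E q S hE hq hI
  obtain ⟨h7, h8⟩ := h4 d M E q S hE hq hI x hx
  have haw : ∀ z ∈ S.O, 0 ≤ aw E.η S.W z ∧ aw E.η S.W z ≤ 2 := fun z hz => by
    have h9 := abs_le.1 ((hI.opn z hz).2.trans (hq.θ_add hE (c := 1) (by norm_num)))
    constructor <;> linarith [h9.1, h9.2]
  have hg : S.good ⊆ S.O := subset_union_left.trans subset_union_left
  have hs : (cand E q S ∩ bl x (q.D E.η 1)).erase x ⊆ S.good.erase x :=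
    erase_subset_erase _ (inter_subset_left.trans (filter_subset _ _))
  have hJ : 0 ≤ ∑ z ∈ S.omg ∪ S.junk, aw E.η S.W z * ‖S.G x z‖ ^ 2 :=
    sum_nonneg fun z hz => mul_nonneg (haw z (by
      rw [St.O, union_assoc]
      exact mem_union_right _ hz)).1 (sq_nonneg _)
  have h0 : ∀ z ∈ S.good.erase x, 0 ≤ aw E.η S.W z * ‖S.G x z‖ ^ 2 := fun z hz =>
    mul_nonneg (haw z (hg (mem_erase.1 hz).2)).1 (sq_nonneg _)
  unfold Fl2
  refine le_trans (pr_mono fun w hw => ?_) ((h2 _ q.Km (q.P ^ 21)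
    ((cand E q S ∩ bl x (q.D E.η 1)).erase x) (nbr E q S) (fun z => aw E.η S.W z * ‖S.G x z‖ ^ 2)
    (2 * q.μ) 2 (1 / (q.P : ℝ) ^ 25) (by positivity) (by positivity) (by positivity)
    (fun y hy => ⟨h0 y (hs hy), ?_⟩)
    ((sum_le_sum_of_subset_of_nonneg hs fun z hz _ => h0 z hz).trans h7) (fun y hy => ?_) h6 h5
    ?_).trans (third hq hE (by positivity) ?_))
  · rw [kmr hq hE]
    generalize ∑ z ∈ S.omg ∪ S.junk, aw E.η S.W z * ‖S.G x z‖ ^ 2 = J at *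
    have h9 : (8 : ℝ) * (q.P : ℝ) ^ 24 ≤ (q.P : ℝ) ^ 25 := hq.pow_lt hE (by norm_num) (by norm_num)
    have h10 : 1 / (q.P : ℝ) ^ 25 ≤ 1 / (8 * (q.P : ℝ) ^ 24) :=
      one_div_le_one_div_of_le (by positivity) h9
    have h11 : J / (2 * (q.P : ℝ) ^ 24) ≤ J :=
      div_le_self hJ (by linarith [one_le_pow₀ (n := 24) (hq.Pone hE)])
    have h12 := div_le_div_of_nonneg_right h8 (show 0 ≤ 2 * (q.P : ℝ) ^ 24 by positivity)
    have h13 : 1 / 2 / (2 * (q.P : ℝ) ^ 24) = 2 * (1 / (8 * (q.P : ℝ) ^ 24)) := by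
      field_simp
      norm_num
    rw [add_div, h13] at h12
    linarith
  · have h9 := mem_erase.1 (hs hy)
    refine mul_le_mul (haw y (hg h9.2)).2 ((hI.ampA x (good_row hx _) y h9.2 h9.1.symm).trans ?_)
      (sq_nonneg _) zero_le_two
    show 3 / 5 * q.μ ≤ q.μ
    linarith
  · unfold nbr at hy
    exact (mem_erase.1 (mem_filter.1 hy).1).1 rfl
  · rw [km hq hE]
    have h9 : (2 : ℝ) * (q.P : ℝ) ^ 21 ≤ (q.P : ℝ) ^ 24 := hq.pow_lt hE (by norm_num) (by norm_num)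
    exact_mod_cast h9
  · have h9 : q.μ ≤ 1 / (q.P : ℝ) ^ 200 := hq.μ_le.trans (hq.J2.trans
      (div_le_div_of_nonneg_right (hE.η1.trans (by norm_num)) (by positivity)))
    have h10 : ((q.P ^ 21 : ℕ) : ℝ) + 1 ≤ 2 * (q.P : ℝ) ^ 21 := by
      rw [Nat.cast_pow]
      linarith [one_le_pow₀ (n := 21) (hq.Pone hE)]
    calc _ ≤ (q.P : ℝ) ^ 4 / 200 *
          (2 * ((2 * (q.P : ℝ) ^ 21) ^ 2 * (2 * (1 / (q.P : ℝ) ^ 200) * 2))) := by gcongr
      _ = 4 / 25 * (1 / (q.P : ℝ) ^ 154) := by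
        field_simp
        norm_num
      _ ≤ 1 * (1 / (q.P : ℝ) ^ 50) :=
        mul_le_mul (by norm_num) (one_div_le_one_div_of_le (by positivity)
          (hq.pow_le hE (by norm_num))) (by positivity) zero_le_one
      _ = _ := by field_simp

end SelPA

open SelPA in
theorem t_selp (h1 : S_MARKU) (h2 : S_MARKL) (h3 : S_SELN) (h4 : S_SELB) : S_SELP := by
  intro d M _ E q S hE hq hI x
  have h0 := exp_pos (-(q.P : ℝ) ^ 3)
  by_cases hx : x ∈ S.O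
  · have h5 := fl1 h1 hE hq hI hx
    by_cases hg : x ∈ S.good
    · have h6 := pr_or (Fl1 E q S x) fun w => Fl2 E q S x w ∨ Fl3 E q S x w
      have h7 := pr_or (Fl2 E q S x) (Fl3 E q S x)
      have h8 := pr_mono (A := Fail E q S x) fun w hw => hw.2.imp_right And.right
      linarith [fl2 h2 h3 h4 hE hq hI hg, fl3 h1 hE hq hI hg]
    · have h8 := pr_mono (A := Fail E q S x) fun w hw => hw.2.resolve_right fun h => hg h.1
      have h9 : pr (fun w => Fl1 E q S x w) ≤ _ := h5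
      linarith
  · rw [pr_false fun w hw => hx hw.1]
    exact h0.le

end Pool.Agent.P.MP_d0f69c_mp.XS
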