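import Pool.Agent.P.MP_d0f69c_mp.XS.Select
import Pool.Agent.P.MP_d0f69c_mp.XS.SelB
import Pool.Agent.P.MP_d0f69c_mp.XS.SelN
import Pool.Agent.P.MP_d0f69c_mp.XS.SelP
import Pool.Agent.P.MP_d0f69c_mp.XS.Mark
import Pool.Agent.P.MP_d0f69c_mp.XS.Mcd
import Pool.Agent.P.MP_d0f69c_mp.XS.PH
import Pool.Agent.P.MP_d0f69c_mp.XS.Indep
import Pool.Agent.P.MP_d0f69c_mp.XS.Adm

/-!
The probabilistic tools and the selection step, assembled.
-/

namespace Pool.Agent.P.MP_d0f69c_mp.XS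

theorem c_ph : S_PH := t_ph t_indep

theorem c_select (hF : S_FAR) (hP : S_PCI) : S_SELECT :=
  t_select t_indep t_freeze (t_seln t_adm (t_self hF))
    (t_selp (t_marku t_mcd) (t_markl t_mcd) (t_seln t_adm (t_self hF))
      (t_selb t_adm hP (t_self hF))) (t_seld (t_self hF))

end Pool.Agent.P.MP_d0f69c_mp.XS
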