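import Pool.Agent.P.MP_d0f69c_mp.XS.Op

/-!
Weighted bounds for the inverse of a kernel from local lower bounds.
-/

set_option autoImplicit false

open Finset Real

namespace Pool.Agent.P.MP_d0f69c_mp.XS

variable {d M : ℕ}

/-- exponential weight around `z` -/
noncomputable def cw (ρ : ℕ) (z x : Tor d M) : ℝ := exp (nm (x - z) / ρ)

theorem cw_pos (ρ : ℕ) (z x : Tor d M) : 0 < cw ρ z x := exp_pos _

theorem cw_le (ρ : ℕ) (z x y : Tor d M) : cw ρ z x ≤ exp (nm (x - y) / ρ) * cw ρ z y := by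
  rw [cw, cw, ← exp_add, ← add_div, exp_le_exp]
  exact div_le_div_of_nonneg_right (by exact_mod_cast nm_tri x y z) (Nat.cast_nonneg _)

theorem cw_sq_le {ρ k : ℕ} (hρ : 0 < ρ) (z : Tor d M) {x y : Tor d M} (h : nm (x - y) ≤ k * ρ) :
    cw ρ z x ^ 2 ≤ exp (2 * k) * cw ρ z y ^ 2 := by
  have h1 : (nm (x - y) : ℝ) / ρ ≤ k := by
    rw [div_le_iff₀ (by exact_mod_cast hρ)]; exact_mod_cast h
  have h2 := (cw_le ρ z x y).trans (mul_le_mul_of_nonneg_right (exp_le_exp.2 h1) (cw_pos ρ z y).le)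
  refine (pow_le_pow_left₀ (cw_pos _ _ _).le h2 2).trans_eq ?_
  rw [mul_pow, ← exp_nat_mul]; norm_num

theorem nS_cw (ρ : ℕ) (z : Tor d M) (X : Finset (Tor d M)) (v : Tor d M → ℂ) :
    nS X (fun x => cw ρ z x * v x) ^ 2 = ∑ x ∈ X, cw ρ z x ^ 2 * ‖v x‖ ^ 2 := by
  rw [nS_sq]
  exact sum_congr rfl fun x _ => by
    rw [norm_mul, Complex.norm_real, Real.norm_of_nonneg (cw_pos _ _ _).le, mul_pow]

variable [NeZero M]

theorem sum_cap (X : Finset (Tor d M)) (r : ℕ) (h : Tor d M → ℝ) :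
    ∑ p, ∑ x ∈ X ∩ bl p r, h x = vl d M r * ∑ x ∈ X, h x := by
  have := (tn_NG d M).sum_sum_ball r fun x => if x ∈ X then h x else 0
  simp only [sum_ite_mem, univ_inter] at this
  rw [← this]
  exact sum_congr rfl fun p _ => by rw [inter_comm]

theorem cw_up {ρ r k : ℕ} (hρ : 0 < ρ) (hr : r ≤ k * ρ) (z : Tor d M) (X : Finset (Tor d M))
    (v : Tor d M → ℂ) : ∑ p, cw ρ z p ^ 2 * nS (X ∩ bl p r) v ^ 2 ≤
      exp (2 * k) * vl d M r * nS X (fun x => cw ρ z x * v x) ^ 2 := by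
  rw [nS_cw, mul_assoc, ← sum_cap, mul_sum]
  refine sum_le_sum fun p _ => ?_
  rw [nS_sq, mul_sum, mul_sum]
  refine sum_le_sum fun x hx => ?_
  rw [← mul_assoc]
  exact mul_le_mul_of_nonneg_right
    (cw_sq_le hρ z (le_trans (nm_comm x p ▸ mem_bl.1 (mem_inter.1 hx).2) hr)) (sq_nonneg _)

theorem cw_low {ρ : ℕ} (hρ : 0 < ρ) (z : Tor d M) (X : Finset (Tor d M)) (v : Tor d M → ℂ) :
    vl d M ρ * nS X (fun x => cw ρ z x * v x) ^ 2 ≤
      exp 2 * ∑ p, cw ρ z p ^ 2 * nS (X ∩ bl p ρ) v ^ 2 := by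
  rw [nS_cw, ← sum_cap, mul_sum]
  refine sum_le_sum fun p _ => ?_
  rw [nS_sq, mul_sum, mul_sum]
  refine sum_le_sum fun x hx => ?_
  rw [← mul_assoc]
  have := cw_sq_le (k := 1) hρ z (x := x) (y := p) (by simpa using mem_bl.1 (mem_inter.1 hx).2)
  exact mul_le_mul_of_nonneg_right (by simpa using this) (sq_nonneg _)

/-- the local estimate -/
theorem ct_loc {X : Finset (Tor d M)} {kn kf : Tor d M → Tor d M → ℂ} {v g : Tor d M → ℂ}
    {ρ R s : ℕ} {Λ κ t : ℝ} (hR : 0 < R) (hRρ : R ≤ s) (hΛ : 0 ≤ Λ) (hκ : 0 ≤ κ) (ht : 0 ≤ t)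
    (hv : ∀ x ∈ X, v x + ap X (kn + kf) v x = g x) (hn : OpLe X kn κ)
    (hr : ∀ x y, kn x y ≠ 0 → nm (x - y) ≤ R) (hf : OpLe X kf t) (p : Tor d M)
    (hl : ∀ u : Tor d M → ℂ, (∀ x ∉ X ∩ bl p (ρ + s), u x = 0) →
      nS X u ≤ Λ * nS X (u + ap X (kn + kf) u)) :
    nS (X ∩ bl p ρ) v ≤ Λ * (nS (X ∩ bl p (ρ + 2 * s)) g + (3 * (R / s) * κ + t) *
      nS (X ∩ bl p (ρ + 2 * s)) v + nS (X ∩ bl p (ρ + 2 * s)) (ap X kf v)) := by
  have hρ : 0 < s := hR.trans_le hRρ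
  have hρ' : (0 : ℝ) < s := by exact_mod_cast hρ
  set χ := chi (tn d M) ρ s p with hχ
  set B := bl p (ρ + 2 * s) with hB
  have c0 : ∀ x ∉ B, χ x = 0 := fun x hx =>
    chi_eq_zero fun h => hx (ball_mono p (by omega) h)
  have cut : ∀ w : Tor d M → ℂ, nS X (fun x => χ x * w x) ≤ nS (X ∩ B) w := fun w => by
    rw [← nS_ite]
    refine nS_le_nS fun x _ => ?_
    split_ifs with h
    · rw [norm_mul, Complex.norm_real, Real.norm_of_nonneg (chi_nonneg _ _ _ _)]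
      exact mul_le_of_le_one_left (norm_nonneg _) (chi_le_one _ _ _ _)
    · simp [c0 x h]
  have h1 := hl (fun x => if x ∈ X then χ x * v x else 0) fun x hx => by
    by_cases h : x ∈ X
    · rw [if_pos h, hχ, chi_eq_zero fun h' => hx (mem_inter.2 ⟨h, h'⟩)]; simp
    · exact if_neg h
  rw [nS_ite, inter_self, ap_ite subset_rfl] at h1
  have h2 : nS (X ∩ bl p ρ) v ≤ nS X fun x => χ x * v x :=
    le_trans (nS_le_nS fun x hx => by rw [hχ, chi_eq_one hρ (mem_inter.1 hx).2]; simp)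
      (nS_mono inter_subset_left _)
  have hc := hn.comm hκ χ (ε := R / s) (by positivity) fun x _ y _ e =>
    ((tn_NG d M).chi_lip hρ p x y).trans
      (div_le_div_of_nonneg_right (by exact_mod_cast hr x y e) hρ'.le)
  have h3 := hc fun x => if x ∈ B then v x else 0
  have h4 := (hf fun x => χ x * v x).trans (mul_le_mul_of_nonneg_left (cut v) ht)
  rw [nS_ite] at h3
  refine h2.trans (h1.trans (mul_le_mul_of_nonneg_left ?_ hΛ))
  have e : ∀ x ∈ X, ((fun x => if x ∈ X then (χ x : ℂ) * v x else 0) +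
      ap X (kn + kf) fun x => χ x * v x) x = (((fun x => (χ x : ℂ) * g x) -
        ap X (fun x y => ((χ x : ℂ) - χ y) * kn x y) fun x => if x ∈ B then v x else 0) +
        (ap X kf fun x => χ x * v x) - fun x => (χ x : ℂ) * ap X kf v x) x := fun x hx => by
    have e1 : ap X (fun x y => ((χ x : ℂ) - χ y) * kn x y) (fun x => if x ∈ B then v x else 0) x =
        ∑ y ∈ X, ((χ x : ℂ) - χ y) * kn x y * v y := sum_congr rfl fun y _ => by
      by_cases h : y ∈ B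
      · simp only [if_pos h]
      by_cases e : kn x y = 0
      · simp [e]
      have : χ x = 0 := chi_eq_zero fun h' => h (mem_bl.2 (by
        have := mem_bl.1 h'
        have := hr x y e
        have := nm_tri y x p
        rw [nm_comm y x] at this
        omega))
      simp [this, c0 y h]
    simp only [Pi.add_apply, Pi.sub_apply, if_pos hx, e1, ← hv x hx]
    simp only [ap, Pi.add_apply, mul_add, add_mul, sum_add_distrib, sub_mul, sum_sub_distrib,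
      mul_sum, mul_assoc, mul_left_comm (χ _ : ℂ)]
    ring
  rw [nS_congr e]
  refine (nS_sub _ _ _).trans (add_le_add ((nS_add _ _ _).trans ?_) (cut _))
  have := (nS_sub X (fun x => (χ x : ℂ) * g x) _).trans (add_le_add (cut g) h3)
  linarith

/-- the weighted estimate -/
theorem ct_core {X : Finset (Tor d M)} {kn kf : Tor d M → Tor d M → ℂ} {v g : Tor d M → ℂ}
    {ρ R s : ℕ} {Λ κ t Γ : ℝ} (z : Tor d M) (hR : 0 < R) (hRρ : R ≤ s) (hs1 : s ≤ ρ)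
    (hsd : d * s ≤ ρ) (hΛ : 0 ≤ Λ) (hκ : 0 ≤ κ)
    (ht : 0 ≤ t) (hv : ∀ x ∈ X, v x + ap X (kn + kf) v x = g x) (hn : OpLe X kn κ)
    (hr : ∀ x y, kn x y ≠ 0 → nm (x - y) ≤ R) (hf : OpLe X kf t)
    (hw : OpLe X (fun x y => cw ρ z x * kf x y * (cw ρ z y : ℂ)⁻¹) t)
    (hl : ∀ (p : Tor d M) (u : Tor d M → ℂ), (∀ x ∉ X ∩ bl p (ρ + s), u x = 0) →
      nS X u ≤ Λ * nS X (u + ap X (kn + kf) u))
    (hΓ0 : 0 ≤ Γ) (hΓ : 6 * Λ ^ 2 * exp 8 * exp 2 ≤ Γ ^ 2)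
    (hs : Γ ^ 2 * ((3 * (R / s) * κ + t) ^ 2 + t ^ 2) ≤ 1) :
    nS X (fun x => cw ρ z x * v x) ≤ Γ * nS X fun x => cw ρ z x * g x := by
  have hρ : 0 < ρ := hR.trans_le (hRρ.trans hs1)
  have h3ρ : ρ + 2 * s ≤ 3 * ρ := by omega
  set σ := 3 * ((R : ℝ) / s) * κ + t with hs'
  have h1 : ∀ p, cw ρ z p ^ 2 * nS (X ∩ bl p ρ) v ^ 2 ≤ 3 * Λ ^ 2 *
      (cw ρ z p ^ 2 * nS (X ∩ bl p (ρ + 2 * s)) g ^ 2 +
        σ ^ 2 * (cw ρ z p ^ 2 * nS (X ∩ bl p (ρ + 2 * s)) v ^ 2) +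
        cw ρ z p ^ 2 * nS (X ∩ bl p (ρ + 2 * s)) (ap X kf v) ^ 2) := fun p => by
    have a := pow_le_pow_left₀ (nS_nonneg _ _) (ct_loc hR hRρ hΛ hκ ht hv hn hr hf p (hl p)) 2
    rw [← hs', mul_pow] at a
    generalize nS (X ∩ bl p (ρ + 2 * s)) g = a1 at *
    generalize nS (X ∩ bl p (ρ + 2 * s)) v = a2 at *
    generalize nS (X ∩ bl p (ρ + 2 * s)) (ap X kf v) = a3 at *
    have b : (a1 + σ * a2 + a3) ^ 2 ≤ 3 * (a1 ^ 2 + (σ * a2) ^ 2 + a3 ^ 2) := by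
      nlinarith [sq_nonneg (a1 - σ * a2), sq_nonneg (a1 - a3), sq_nonneg (σ * a2 - a3)]
    have c := mul_le_mul_of_nonneg_left (a.trans (mul_le_mul_of_nonneg_left b (sq_nonneg Λ)))
      (sq_nonneg (cw ρ z p))
    linarith
  have h2 := sum_le_sum fun p (_ : p ∈ univ) => h1 p
  rw [← mul_sum, sum_add_distrib, sum_add_distrib, ← mul_sum] at h2
  have h3 : nS X (fun x => cw ρ z x * ap X kf v x) ≤ t * nS X fun x => cw ρ z x * v x := by
    refine le_trans (le_of_eq (nS_congr fun x _ => ?_)) (hw _)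
    simp only [ap, mul_sum]
    refine sum_congr rfl fun y _ => ?_
    have : (cw ρ z y : ℂ) ≠ 0 := by exact_mod_cast (cw_pos ρ z y).ne'
    field_simp
  have h4 := pow_le_pow_left₀ (nS_nonneg _ _) h3 2
  have u1 := cw_up hρ h3ρ z X g
  have u2 := mul_le_mul_of_nonneg_left (cw_up hρ h3ρ z X v) (sq_nonneg σ)
  have u3 := (cw_up hρ h3ρ z X (ap X kf v)).trans (mul_le_mul_of_nonneg_left h4 (by positivity))
  have l1 := cw_low hρ z X v
  have v0 : (0 : ℝ) < vl d M ρ := by exact_mod_cast (tn_NG d M).vol_pos ρ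
  have v1 : (vl d M (ρ + 2 * s) : ℝ) ≤ exp 2 * vl d M ρ := by
    simpa using vol_tn_shell (M := M) (k := 2) hsd
  refine le_of_sq_le_sq ?_ (mul_nonneg hΓ0 (nS_nonneg _ _))
  rw [mul_pow]
  rw [mul_pow] at u3
  have n1 := sq_nonneg (nS X fun x => cw ρ z x * v x)
  have n2 := sq_nonneg (nS X fun x => cw ρ z x * g x)
  generalize (nS X fun x => cw ρ z x * v x) ^ 2 = a at *
  generalize (nS X fun x => cw ρ z x * g x) ^ 2 = b at *
  have e8 : exp 8 = exp 2 * exp (2 * ((3 : ℕ) : ℝ)) := by rw [← exp_add]; norm_num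
  have w0 : 0 ≤ b + (σ ^ 2 + t ^ 2) * a := by positivity
  have k1 : vl d M ρ * a ≤ 3 * Λ ^ 2 * exp 8 * vl d M (ρ + 2 * s) * (b + (σ ^ 2 + t ^ 2) * a) := by
    have := mul_le_mul_of_nonneg_left (h2.trans (mul_le_mul_of_nonneg_left
      (add_le_add (add_le_add u1 u2) u3) (by positivity))) (exp_pos 2).le
    rw [e8]; linarith
  have k2 := mul_le_mul_of_nonneg_right (mul_le_mul_of_nonneg_left v1
    (by positivity : 0 ≤ 3 * Λ ^ 2 * exp 8)) w0
  have k3 : a ≤ 3 * Λ ^ 2 * exp 8 * exp 2 * (b + (σ ^ 2 + t ^ 2) * a) :=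
    le_of_mul_le_mul_left (by linarith) v0
  have k4 := mul_le_mul_of_nonneg_right hΓ w0
  have k5 := mul_le_mul_of_nonneg_right hs n1
  linarith

end Pool.Agent.P.MP_d0f69c_mp.XS
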