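import Pool.Agent.P.MP_d0f69c_mp.XS.ChaosA

/-!
Entries of `(1 - A V)⁻¹ c` for random signs `V`: a deterministic majorant in `ℓ²`.
-/

set_option autoImplicit false

open Finset Real Function
open scoped Matrix

namespace Pool.Agent.P.MP_d0f69c_mp.XS

namespace Ch

variable {ι : Type} [Fintype ι] [DecidableEq ι]

theorem nsg (b : Bool) : ‖sgn b‖ = 1 := by cases b <;> simp [sgn]

theorem sgn_not (b : Bool) : sgn (!b) = -sgn b := by cases b <;> simp [sgn]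

/-- the terms `(A V)^i c` -/
noncomputable def X (A : Matrix ι ι ℂ) (c : ι → ℂ) (s : ι → Bool) : ℕ → ι → ℂ
  | 0 => c
  | i + 1 => A *ᵥ fun w => sgn (s w) * X A c s i w

theorem X_eq (A : Matrix ι ι ℂ) (c : ι → ℂ) (s : ι → Bool) (i : ℕ) :
    X A c s i = (A * Matrix.diagonal fun w => sgn (s w)) ^ i *ᵥ c := by
  induction i with
  | zero => simp [X]
  | succ i ih =>
    rw [X, pow_succ', ← Matrix.mulVec_mulVec, ← Matrix.mulVec_mulVec, ← ih]
    congr 1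
    funext w
    rw [Matrix.mulVec_diagonal]

theorem X_sub (A : Matrix ι ι ℂ) (c : ι → ℂ) (s : ι → Bool) (w : ι) (i : ℕ) : ∀ u,
    X A c s i u - X A c (fl w s) i u = 2 * sgn (s w) *
      ∑ l ∈ range i, X A (fun v => A v w) s l u * X A c (fl w s) (i - 1 - l) w := by
  induction i with
  | zero => simp [X]
  | succ i ih =>
    intro u
    have h : ∀ v, sgn (s v) * X A c s i v - sgn (fl w s v) * X A c (fl w s) i v =
        2 * sgn (s w) * (∑ l ∈ range i, sgn (s v) * X A (fun v => A v w) s l v *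
          X A c (fl w s) (i - 1 - l) w + if v = w then X A c (fl w s) i w else 0) := fun v => by
      have := ih v
      simp only [mul_assoc, ← mul_sum] at this ⊢
      by_cases e : v = w
      · subst e
        simp only [fl_apply, update_self, sgn_not, if_true] at this ⊢
        linear_combination sgn (s v) * this
      · simp only [fl_apply, update_of_ne e, e, if_false] at this ⊢
        linear_combination sgn (s v) * this
    have h2 : ∀ l, i + 1 - 1 - (l + 1) = i - 1 - l := fun l => by omega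
    rw [sum_range_succ']
    simp only [X, Matrix.mulVec, dotProduct, ← sum_sub_distrib, ← mul_sub, h, h2]
    simp only [mul_add, sum_add_distrib, mul_ite, mul_zero, sum_ite_eq', mem_univ, if_true,
      mul_sum, sum_mul, Nat.add_sub_cancel, Nat.sub_zero]
    rw [sum_comm]
    congr 1
    · exact sum_congr rfl fun _ _ => sum_congr rfl fun _ _ => by ring
    · ring

/-- the exponents -/
noncomputable def qq (n i : ℕ) : ℝ := 2 * (n + 1) / (i + 1)

theorem qq_two {n i : ℕ} (h : i ≤ n) : 2 ≤ qq n i := by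
  have : (i : ℝ) ≤ n := by exact_mod_cast h
  rw [qq, le_div_iff₀ (by positivity)]
  linarith

theorem qq_pos (n i : ℕ) : 0 < qq n i := by unfold qq; positivity

/-- moments of the terms -/
noncomputable def N (A : Matrix ι ι ℂ) (n : ℕ) (c : ι → ℂ) (i : ℕ) (u : ι) : ℝ :=
  nq (qq n i) fun s => ‖X A c s i u‖

theorem N_nonneg (A : Matrix ι ι ℂ) (n : ℕ) (c : ι → ℂ) (i : ℕ) (u : ι) : 0 ≤ N A n c i u :=
  nq_nonneg _ fun _ => norm_nonneg _

theorem dl_le (A : Matrix ι ι ℂ) {n i : ℕ} (hi : i ≤ n) (c : ι → ℂ) (u w : ι) :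
    (nq (qq n i) fun s => ‖dl w (fun s => X A c s i u) s‖) ≤
      ∑ l ∈ range i, N A n (fun v => A v w) l u * N A n c (i - 1 - l) w := by
  refine (nq_mono (qq_pos n i) (fun _ => norm_nonneg _) (g := fun s => ∑ l ∈ range i,
    ‖X A (fun v => A v w) s l u‖ * ‖X A c (fl w s) (i - 1 - l) w‖) fun s => ?_).trans
    ((nq_sum (by linarith [qq_two hi]) _ fun _ _ => by positivity).trans (sum_le_sum fun l hl => ?_))
  · rw [dl, X_sub, mul_assoc, mul_div_cancel_left₀ _ two_ne_zero, norm_mul, nsg, one_mul]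
    exact (norm_sum_le _ _).trans_eq (sum_congr rfl fun _ _ => norm_mul _ _)
  · have h : (qq n l).HolderTriple (qq n (i - 1 - l)) (qq n i) := by
      refine ⟨?_, qq_pos _ _, qq_pos _ _⟩
      obtain ⟨m, rfl⟩ : ∃ m, i = l + m + 1 := ⟨i - 1 - l, by have := mem_range.1 hl; omega⟩
      rw [show l + m + 1 - 1 - l = m by omega]
      simp only [qq, inv_div]
      push_cast
      ring
    refine (nq_mul h (fun _ => norm_nonneg _) fun _ => norm_nonneg _).trans_eq ?_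
    rw [nq_equiv _ (fl w) fun s => ‖X A c s (i - 1 - l) w‖]
    rfl

/-- the bound on the moments -/
noncomputable def kk (i : ℕ) : ℝ := catalan i / 64 ^ i

theorem kk_nonneg (i : ℕ) : 0 ≤ kk i := by unfold kk; positivity

theorem kk_conv (i : ℕ) : ∑ l ∈ range i, kk l * kk (i - 1 - l) ≤ 64 * kk i := by
  cases i with
  | zero => simp [kk]
  | succ i =>
    rw [kk, catalan_succ, Fin.sum_univ_eq_sum_range (fun l => catalan l * catalan (i - l)),
      Nat.cast_sum, sum_div, mul_sum]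
    refine (sum_congr rfl fun l hl => ?_).le
    obtain ⟨m, rfl⟩ : ∃ m, i = l + m := ⟨i - l, by have := mem_range.1 hl; omega⟩
    rw [show l + m + 1 - 1 - l = m by omega, show l + m - l = m by omega, kk, kk]
    push_cast
    field_simp
    ring

theorem kk_succ (i : ℕ) : kk i ≤ 64 * kk (i + 1) := by
  have h := single_le_sum (f := fun l => kk l * kk (i + 1 - 1 - l))
    (fun _ _ => mul_nonneg (kk_nonneg _) (kk_nonneg _)) (mem_range.2 (Nat.succ_pos i))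
  refine le_trans ?_ (h.trans (kk_conv _))
  simp [kk]

theorem kk_le (i : ℕ) : kk i ≤ (1 / 16) ^ i := by
  have h : catalan i ≤ 4 ^ i := by
    rw [catalan_eq_centralBinom_div]
    refine (Nat.div_le_self _ _).trans ?_
    rw [Nat.centralBinom_eq_two_mul_choose, show 4 = 2 ^ 2 by rfl, ← pow_mul]
    exact Nat.choose_le_two_pow _ _
  have h' : (catalan i : ℝ) ≤ 4 ^ i := by exact_mod_cast h
  rw [kk, div_le_iff₀ (by positivity), ← mul_pow]
  norm_num
  exact h'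

theorem fluct {A : Matrix ι ι ℂ} {ep : ℝ} (hc : ∀ w, ∑ u, ‖A u w‖ ^ 2 ≤ ep) {n i : ℕ} (hi : i ≤ n)
    (hep : 0 ≤ ep)
    (ih : ∀ l < i, ∀ c : ι → ℂ, ∑ u, N A n c l u ^ 2 ≤ kk l * ∑ u, ‖c u‖ ^ 2) (c : ι → ℂ) :
    ∑ w, ∑ u, (nq (qq n i) fun s => ‖dl w (fun s => X A c s i u) s‖) ^ 2 ≤
      64 * i * ep * kk i * ∑ u, ‖c u‖ ^ 2 := by
  have h1 : ∀ w, ∑ u, (nq (qq n i) fun s => ‖dl w (fun s => X A c s i u) s‖) ^ 2 ≤
      i * ∑ l ∈ range i, kk l * ep * N A n c (i - 1 - l) w ^ 2 := fun w => by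
    refine (sum_le_sum fun u _ => (pow_le_pow_left₀ (nq_nonneg _ fun _ => norm_nonneg _)
      (dl_le A hi c u w) 2).trans sq_sum_le_card_mul_sum_sq).trans ?_
    rw [card_range, ← mul_sum, sum_comm]
    refine mul_le_mul_of_nonneg_left (sum_le_sum fun l hl => ?_) (Nat.cast_nonneg _)
    simp only [mul_pow, ← sum_mul]
    exact mul_le_mul_of_nonneg_right ((ih l (mem_range.1 hl) _).trans
      (mul_le_mul_of_nonneg_left (hc w) (kk_nonneg _))) (sq_nonneg _)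
  refine (sum_le_sum fun w _ => h1 w).trans ?_
  rw [← mul_sum, sum_comm]
  have h0 : 0 ≤ ∑ u, ‖c u‖ ^ 2 := by positivity
  have h2 : ∑ l ∈ range i, ∑ w, kk l * ep * N A n c (i - 1 - l) w ^ 2 ≤
      ep * (∑ u, ‖c u‖ ^ 2) * ∑ l ∈ range i, kk l * kk (i - 1 - l) := by
    rw [mul_sum]
    refine sum_le_sum fun l hl => ?_
    rw [← mul_sum]
    refine (mul_le_mul_of_nonneg_left (ih _ (by have := mem_range.1 hl; omega) c)
      (mul_nonneg (kk_nonneg _) hep)).trans_eq (by ring)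
  refine (mul_le_mul_of_nonneg_left (h2.trans (mul_le_mul_of_nonneg_left (kk_conv i)
    (mul_nonneg hep h0))) (Nat.cast_nonneg _)).trans_eq (by ring)

theorem mn_sgn (w : ι) (G : (ι → Bool) → ℂ) :
    ‖mn fun s => sgn (s w) * G s‖ ≤ av fun s => ‖dl w G s‖ := by
  have h := mn_equiv (fl w) fun s => sgn (s w) * G s
  have h2 : (mn fun s => sgn (s w) * G s) = mn fun s => sgn (s w) * dl w G s := by
    simp only [fl_apply, update_self, sgn_not, mn, neg_mul, sum_neg_distrib] at h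
    simp only [mn, dl, fl_apply, mul_div_assoc', mul_sub, ← sum_div, sum_sub_distrib]
    linear_combination (-1 / 2) * h
  rw [h2]
  refine (norm_mn _).trans_eq ?_
  simp only [norm_mul, nsg, one_mul]

theorem main {A : Matrix ι ι ℂ} {ep : ℝ} {n : ℕ}
    (hA : ∀ x : ι → ℂ, ∑ u, ‖(A *ᵥ x) u‖ ^ 2 ≤ 1 / 4 * ∑ u, ‖x u‖ ^ 2)
    (hc : ∀ w, ∑ u, ‖A u w‖ ^ 2 ≤ ep) (hep : 0 ≤ ep) (hn : (n + 1) * ep ≤ 1 / 2000) (i : ℕ) :
    i ≤ n → ∀ c : ι → ℂ, ∑ u, N A n c i u ^ 2 ≤ kk i * ∑ u, ‖c u‖ ^ 2 := by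
  induction i using Nat.strong_induction_on with
  | _ i ih =>
  intro hi c
  cases i with
  | zero =>
    simp only [N, X, nq_const (qq_pos n 0) (norm_nonneg _)]
    simp [kk]
  | succ i =>
    have h0 : 0 ≤ ∑ u, ‖c u‖ ^ 2 := by positivity
    have h1 := fluct hc hi hep (fun l hl => ih l hl (by omega)) c
    have h2 := fluct hc (Nat.le_of_succ_le hi) hep (fun l hl => ih l (by omega) (by omega)) c
    have h3 : ∀ u, (mn fun s => X A c s (i + 1) u) =
        (A *ᵥ fun w => mn fun s => sgn (s w) * X A c s i w) u := fun u => by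
      simp only [X, Matrix.mulVec, dotProduct, mn, mul_div_assoc', ← sum_div, mul_sum]
      rw [sum_comm]
    have h4 : ∑ w, ‖mn fun s => sgn (s w) * X A c s i w‖ ^ 2 ≤
        ∑ w, ∑ u, (nq (qq n i) fun s => ‖dl w (fun s => X A c s i u) s‖) ^ 2 :=
      sum_le_sum fun w _ => le_trans (pow_le_pow_left₀ (norm_nonneg _) ((mn_sgn w _).trans
        (av_le_nq (by linarith [qq_two (Nat.le_of_succ_le hi)]) fun _ => norm_nonneg _)) 2)
        (single_le_sum (f := fun u => (nq (qq n i) fun s => ‖dl w (fun s => X A c s i u) s‖) ^ 2)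
          (fun _ _ => sq_nonneg _) (mem_univ w))
    refine (sum_le_sum fun u _ => es (qq_two hi) fun s => X A c s (i + 1) u).trans ?_
    rw [sum_add_distrib, ← mul_sum, sum_comm]
    simp only [h3]
    have h5 := (hA _).trans (mul_le_mul_of_nonneg_left (h4.trans h2) (by norm_num))
    have h6 := mul_le_mul_of_nonneg_left h1 (show 0 ≤ 3 * qq n (i + 1) by linarith [qq_pos n (i + 1)])
    have hi' : (i : ℝ) ≤ n := by exact_mod_cast Nat.le_of_succ_le hi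
    have h7 : qq n (i + 1) * ((i + 1 : ℕ) : ℝ) ≤ 2 * (n + 1) := by
      rw [qq, div_mul_eq_mul_div, div_le_iff₀ (by positivity)]
      gcongr
      linarith
    have k0 := mul_nonneg (kk_nonneg (i + 1)) h0
    have h8 : i * ep * (kk i * ∑ u, ‖c u‖ ^ 2) ≤ 1 / 2000 * (64 * kk (i + 1) * ∑ u, ‖c u‖ ^ 2) :=
      mul_le_mul (by nlinarith) (mul_le_mul_of_nonneg_right (kk_succ i) h0)
        (mul_nonneg (kk_nonneg i) h0) (by norm_num)
    have h9 : qq n (i + 1) * ((i + 1 : ℕ) : ℝ) * ep * (kk (i + 1) * ∑ u, ‖c u‖ ^ 2) ≤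
        1 / 1000 * (kk (i + 1) * ∑ u, ‖c u‖ ^ 2) :=
      mul_le_mul_of_nonneg_right (by nlinarith) k0
    nlinarith

end Ch

open Ch

variable {ι : Type} [Fintype ι] [DecidableEq ι]

/-- the sum of the moduli of the terms `(A V)^i c`, `i ≤ n`, has a deterministic majorant -/
theorem chaos_sum {A : Matrix ι ι ℂ} {ep : ℝ} {n : ℕ}
    (hA : ∀ x : ι → ℂ, ∑ u, ‖(A *ᵥ x) u‖ ^ 2 ≤ 1 / 4 * ∑ u, ‖x u‖ ^ 2)
    (hc : ∀ w, ∑ u, ‖A u w‖ ^ 2 ≤ ep) (hn : (n + 1) * ep ≤ 1 / 2000) (c : ι → ℂ) :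
    ∃ b : ι → ℝ, (∀ u, 0 ≤ b u) ∧ ∑ u, b u ^ 2 ≤ 4 * ∑ u, ‖c u‖ ^ 2 ∧
      ∀ u, pr (fun s : ι → Bool => b u < ∑ i ∈ range (n + 1), ‖X A c s i u‖) ≤ n / 2 ^ (n + 1) := by
  refine ⟨fun u => ∑ i ∈ range (n + 1), 2 ^ i * N A n c i u,
    fun u => sum_nonneg fun i _ => mul_nonneg (by positivity) (N_nonneg _ _ _ _ _), ?_, fun u => ?_⟩
  · cases isEmpty_or_nonempty ι with
    | inl h => simp
    | inr h =>
    have hep : 0 ≤ ep := le_trans (by positivity) (hc (Classical.arbitrary ι))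
    have h0 : 0 ≤ ∑ u, ‖c u‖ ^ 2 := by positivity
    have h1 : ∀ u, (∑ i ∈ range (n + 1), 2 ^ i * N A n c i u) ^ 2 ≤
        2 * ∑ i ∈ range (n + 1), 8 ^ i * N A n c i u ^ 2 := fun u =>
      (sum_sq_le_sum_mul_sum_of_sq_le_mul _ (f := fun i => (1 / 2 : ℝ) ^ i)
        (fun _ _ => by positivity) (fun _ _ => by positivity) fun i _ => le_of_eq (by
          rw [← mul_assoc, ← mul_pow, mul_pow, ← pow_mul, mul_comm i, pow_mul]; norm_num)).trans
        (mul_le_mul_of_nonneg_right (sum_geometric_two_le _) (by positivity))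
    refine (sum_le_sum fun u _ => h1 u).trans ?_
    rw [← mul_sum, sum_comm]
    have h2 : ∑ i ∈ range (n + 1), ∑ u, 8 ^ i * N A n c i u ^ 2 ≤
        ∑ i ∈ range (n + 1), (1 / 2) ^ i * ∑ u, ‖c u‖ ^ 2 := sum_le_sum fun i hi => by
      rw [← mul_sum]
      refine (mul_le_mul_of_nonneg_left ((main hA hc hep hn i (Nat.le_of_lt_succ (mem_range.1 hi))
        c).trans (mul_le_mul_of_nonneg_right (kk_le i) h0)) (by positivity)).trans_eq ?_
      rw [← mul_assoc, ← mul_pow]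
      norm_num
    rw [← sum_mul] at h2
    have := mul_le_mul_of_nonneg_right (sum_geometric_two_le (n + 1)) h0
    linarith
  · refine (pr_mono (B := fun s => ∃ i ∈ range n,
      2 ^ (i + 1) * N A n c (i + 1) u < ‖X A c s (i + 1) u‖) fun s hs => ?_).trans
      ((pr_ex_le _ _ (c := 1 / 2 ^ (n + 1)) fun i _ => ?_).trans_eq (by rw [card_range]; ring))
    · by_contra h
      push Not at h
      refine hs.not_ge ?_
      simp only [sum_range_succ']
      refine add_le_add (sum_le_sum h) ?_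
      simp [N, X, nq_const (qq_pos n 0) (norm_nonneg _)]
    · refine (markov (qq_pos n (i + 1)) (by positivity) fun _ => norm_nonneg _).trans ?_
      rw [one_div]
      refine inv_anti₀ (by positivity) ?_
      rw [← rpow_natCast, ← rpow_natCast, ← rpow_mul zero_le_two]
      refine rpow_le_rpow_of_exponent_le one_le_two ?_
      rw [qq, ← mul_div_assoc, le_div_iff₀ (by positivity)]
      push_cast
      nlinarith [mul_nonneg (Nat.cast_nonneg (α := ℝ) i) (Nat.cast_nonneg (α := ℝ) n),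
        Nat.cast_nonneg (α := ℝ) i]

theorem chaos_tail {A : Matrix ι ι ℂ} {ρ : ℝ} (h0 : 0 ≤ ρ) (hρ : ρ ≤ 1 / 2)
    (hA : ∀ x : ι → ℂ, ∑ u, ‖(A *ᵥ x) u‖ ^ 2 ≤ ρ ^ 2 * ∑ u, ‖x u‖ ^ 2) (c x : ι → ℂ) (s : ι → Bool)
    (hx : x = c + A *ᵥ fun w => sgn (s w) * x w) (n : ℕ) (u : ι) :
    ‖x u‖ ≤ ∑ i ∈ range (n + 1), ‖X A c s i u‖ + ρ ^ n * √(∑ u, ‖c u‖ ^ 2) := by
  have h1 : ∀ m, x = ∑ i ∈ range m, X A c s i + X A x s m := fun m => by
    induction m with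
    | zero => simp [X]
    | succ m ih =>
      have : X A x s m = X A c s m + X A x s (m + 1) := by
        rw [X_eq, X_eq, X_eq, pow_succ, ← Matrix.mulVec_mulVec, ← Matrix.mulVec_add,
          ← Matrix.mulVec_mulVec]
        congr 1
        refine hx.trans ?_
        congr 2
        funext w
        rw [Matrix.mulVec_diagonal]
      rw [sum_range_succ, add_assoc, ← this, ← ih]
  have h2 : ∀ m, ∑ u, ‖X A x s m u‖ ^ 2 ≤ (ρ ^ m) ^ 2 * ∑ u, ‖x u‖ ^ 2 := fun m => by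
    induction m with
    | zero => simp [X]
    | succ m ih =>
      refine (hA _).trans ?_
      simp only [norm_mul, nsg, one_mul]
      exact (mul_le_mul_of_nonneg_left ih (sq_nonneg ρ)).trans_eq (by ring)
  have hx0 : 0 ≤ ∑ u, ‖x u‖ ^ 2 := by positivity
  have h3 : ∑ u, ‖x u‖ ^ 2 ≤ 4 * ∑ u, ‖c u‖ ^ 2 := by
    have a : ∀ u, ‖x u‖ ^ 2 ≤ 2 * ‖c u‖ ^ 2 + 2 * ‖X A x s 1 u‖ ^ 2 := fun u => by
      have b : ‖x u‖ ≤ ‖c u‖ + ‖X A x s 1 u‖ := by
        conv_lhs => rw [hx]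
        exact norm_add_le _ _
      nlinarith [norm_nonneg (x u), sq_nonneg (‖c u‖ - ‖X A x s 1 u‖)]
    have b := sum_le_sum fun u (_ : u ∈ univ) => a u
    rw [sum_add_distrib, ← mul_sum, ← mul_sum] at b
    have d : (ρ ^ 1) ^ 2 ≤ 1 / 4 := by nlinarith
    nlinarith [h2 1]
  have h4 : ‖X A x s (n + 1) u‖ ≤ ρ ^ n * √(∑ u, ‖c u‖ ^ 2) := by
    refine abs_le_of_sq_le_sq' ?_ (by positivity) |>.2
    rw [mul_pow, sq_sqrt (by positivity)]
    refine ((single_le_sum (f := fun u => ‖X A x s (n + 1) u‖ ^ 2) (fun _ _ => sq_nonneg _)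
      (mem_univ u)).trans (h2 _)).trans ?_
    have d : ρ ^ 2 * ∑ u, ‖x u‖ ^ 2 ≤ ∑ u, ‖c u‖ ^ 2 :=
      (mul_le_mul_of_nonneg_right (show ρ ^ 2 ≤ 1 / 4 by nlinarith) hx0).trans (by linarith)
    refine le_trans (le_of_eq (by ring)) (mul_le_mul_of_nonneg_left d (sq_nonneg _))
  conv_lhs => rw [h1 (n + 1)]
  rw [Pi.add_apply, Finset.sum_apply]
  exact (norm_add_le _ _).trans (add_le_add (norm_sum_le _ _) h4)

/-- majorant for the solution of `x = c + A V x` -/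
theorem chaos {A : Matrix ι ι ℂ} {ρ ep : ℝ} {n : ℕ} (h0 : 0 ≤ ρ) (hρ : ρ ≤ 1 / 2)
    (hA : ∀ x : ι → ℂ, ∑ u, ‖(A *ᵥ x) u‖ ^ 2 ≤ ρ ^ 2 * ∑ u, ‖x u‖ ^ 2)
    (hc : ∀ w, ∑ u, ‖A u w‖ ^ 2 ≤ ep) (hn : (n + 1) * ep ≤ 1 / 2000) (c : ι → ℂ) :
    ∃ b : ι → ℝ, (∀ u, 0 ≤ b u) ∧ ∑ u, b u ^ 2 ≤ 4 * ∑ u, ‖c u‖ ^ 2 ∧
      ∀ u, pr (fun s : ι → Bool => ∃ x : ι → ℂ, (x = c + A *ᵥ fun w => sgn (s w) * x w) ∧
        b u + ρ ^ n * √(∑ u, ‖c u‖ ^ 2) < ‖x u‖) ≤ n / 2 ^ (n + 1) := by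
  obtain ⟨b, h1, h2, h3⟩ := chaos_sum (fun x => (hA x).trans
    (mul_le_mul_of_nonneg_right (by nlinarith) (by positivity))) hc hn c
  exact ⟨b, h1, h2, fun u => (pr_mono fun s ⟨x, hx, h⟩ => by
    linarith [chaos_tail h0 hρ hA c x s hx n u]).trans (h3 u)⟩

/-- majorant for the solution of `x + A V x = c` -/
theorem chaos' {A : Matrix ι ι ℂ} {ρ ep : ℝ} {n : ℕ} (h0 : 0 ≤ ρ) (hρ : ρ ≤ 1 / 2)
    (hA : ∀ x : ι → ℂ, ∑ u, ‖(A *ᵥ x) u‖ ^ 2 ≤ ρ ^ 2 * ∑ u, ‖x u‖ ^ 2)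
    (hc : ∀ w, ∑ u, ‖A u w‖ ^ 2 ≤ ep) (hn : (n + 1) * ep ≤ 1 / 2000) (c : ι → ℂ) :
    ∃ b : ι → ℝ, (∀ u, 0 ≤ b u) ∧ ∑ u, b u ^ 2 ≤ 4 * ∑ u, ‖c u‖ ^ 2 ∧
      ∀ u, pr (fun s : ι → Bool => ∃ x : ι → ℂ, (x + A *ᵥ fun w => sgn (s w) * x w) = c ∧
        b u + ρ ^ n * √(∑ u, ‖c u‖ ^ 2) < ‖x u‖) ≤ n / 2 ^ (n + 1) := by
  obtain ⟨b, h1, h2, h3⟩ := chaos (A := -A) (ep := ep) (n := n) h0 hρ
    (fun x => by simpa [Matrix.neg_mulVec] using hA x) (fun w => by simpa using hc w) hn c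
  exact ⟨b, h1, h2, fun u => (pr_mono fun s ⟨x, hx, h⟩ =>
    ⟨x, by rw [Matrix.neg_mulVec, ← hx]; simp, h⟩).trans (h3 u)⟩

end Pool.Agent.P.MP_d0f69c_mp.XS
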