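import Pool.Agent.P.MP_d0f69c_mp.XS.Pr

/-!
Moments on a finite probability space and the Efron-Stein inequality for moments of order `q`.
-/

set_option autoImplicit false

open Finset Real Function

namespace Pool.Agent.P.MP_d0f69c_mp.XS

namespace Ch

section nq

variable {α β : Type} [Fintype α] [Fintype β]

/-- norm of order `q` for the uniform measure -/
noncomputable def nq (q : ℝ) (f : α → ℝ) : ℝ := (av fun x => f x ^ q) ^ (1 / q)

theorem avp {f : α → ℝ} (hf : ∀ x, 0 ≤ f x) (q : ℝ) : 0 ≤ av fun x => f x ^ q :=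
  av_nonneg fun x => rpow_nonneg (hf x) _

theorem nq_nonneg (q : ℝ) {f : α → ℝ} (hf : ∀ x, 0 ≤ f x) : 0 ≤ nq q f :=
  rpow_nonneg (avp hf q) _

theorem nq_pow {q : ℝ} (hq : 0 < q) {f : α → ℝ} (hf : ∀ x, 0 ≤ f x) :
    nq q f ^ q = av fun x => f x ^ q := by
  rw [nq, ← rpow_mul (avp hf q), one_div_mul_cancel hq.ne', rpow_one]

theorem nq_le {q c : ℝ} (hq : 0 < q) {f : α → ℝ} (hf : ∀ x, 0 ≤ f x) (hc : 0 ≤ c)
    (h : (av fun x => f x ^ q) ≤ c ^ q) : nq q f ≤ c := by
  rw [← nq_pow hq hf] at h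
  exact (rpow_le_rpow_iff (nq_nonneg q hf) hc hq).1 h

theorem nq_mono {q : ℝ} (hq : 0 < q) {f g : α → ℝ} (hf : ∀ x, 0 ≤ f x) (h : ∀ x, f x ≤ g x) :
    nq q f ≤ nq q g :=
  rpow_le_rpow (avp hf q) (av_mono fun x => rpow_le_rpow (hf x) (h x) hq.le) (by positivity)

theorem nq_equiv (q : ℝ) (e : α ≃ β) (f : β → ℝ) : nq q (fun x => f (e x)) = nq q f := by
  rw [nq, nq, av_equiv e fun y => f y ^ q]

theorem nq_const [Nonempty α] {q c : ℝ} (hq : 0 < q) (hc : 0 ≤ c) : nq q (fun _ : α => c) = c := by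
  rw [nq, av_const, ← rpow_mul hc, mul_one_div_cancel hq.ne', rpow_one]

theorem nq_smul {q c : ℝ} (hq : 0 < q) (hc : 0 ≤ c) {f : α → ℝ} (hf : ∀ x, 0 ≤ f x) :
    nq q (fun x => c * f x) = c * nq q f := by
  simp only [nq, mul_rpow hc (hf _), av_mul]
  rw [mul_rpow (rpow_nonneg hc _) (avp hf q), ← rpow_mul hc, mul_one_div_cancel hq.ne', rpow_one]

theorem nq_add {q : ℝ} (hq : 1 ≤ q) {f g : α → ℝ} (hf : ∀ x, 0 ≤ f x) (hg : ∀ x, 0 ≤ g x) :
    nq q (fun x => f x + g x) ≤ nq q f + nq q g := by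
  have h : ∀ {f : α → ℝ}, (∀ x, 0 ≤ f x) →
      nq q f = (∑ x, f x ^ q) ^ (1 / q) / (Fintype.card α : ℝ) ^ (1 / q) := fun hf =>
    div_rpow (sum_nonneg fun x _ => rpow_nonneg (hf x) _) (Nat.cast_nonneg _) _
  rw [h hf, h hg, h fun x => add_nonneg (hf x) (hg x), ← add_div]
  exact div_le_div_of_nonneg_right (Lp_add_le_of_nonneg univ hq (fun x _ => hf x) fun x _ => hg x)
    (by positivity)

theorem nq_sum [Nonempty α] {q : ℝ} (hq : 1 ≤ q) {γ : Type} (s : Finset γ) {f : γ → α → ℝ}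
    (hf : ∀ i x, 0 ≤ f i x) : nq q (fun x => ∑ i ∈ s, f i x) ≤ ∑ i ∈ s, nq q (f i) := by
  classical
  induction s using Finset.induction_on with
  | empty => simpa using (nq_const (α := α) (zero_lt_one.trans_le hq) le_rfl).le
  | insert a s ha ih =>
    simp only [sum_insert ha]
    exact (nq_add hq (hf a) fun x => sum_nonneg fun i _ => hf i x).trans (by linarith)

theorem nq_mul [Nonempty α] {p q r : ℝ} (h : p.HolderTriple q r) {f g : α → ℝ} (hf : ∀ x, 0 ≤ f x)
    (hg : ∀ x, 0 ≤ g x) : nq r (fun x => f x * g x) ≤ nq p f * nq q g := by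
  have hr := h.pos'
  have hN : (0 : ℝ) < Fintype.card α := by exact_mod_cast Fintype.card_pos
  refine nq_le hr (fun x => mul_nonneg (hf x) (hg x)) (mul_nonneg (nq_nonneg _ hf) (nq_nonneg _ hg)) ?_
  have h1 := Lr_rpow_le_Lp_mul_Lq_of_nonneg univ h (fun x _ => hf x) fun x _ => hg x
  have h2 : r / p + r / q = 1 := by
    rw [div_eq_mul_inv, div_eq_mul_inv, ← mul_add, h.inv_add_inv_eq_inv, mul_inv_cancel₀ hr.ne']
  rw [mul_rpow (nq_nonneg _ hf) (nq_nonneg _ hg), nq, nq, ← rpow_mul (avp hf p),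
    ← rpow_mul (avp hg q), one_div_mul_eq_div, one_div_mul_eq_div, av, av, av,
    div_rpow (sum_nonneg fun x _ => rpow_nonneg (hf x) _) hN.le,
    div_rpow (sum_nonneg fun x _ => rpow_nonneg (hg x) _) hN.le, div_mul_div_comm,
    ← rpow_add hN, h2, rpow_one]
  exact div_le_div_of_nonneg_right h1 hN.le

theorem nq_sq {q : ℝ} (hq : 0 < q) {f : α → ℝ} (hf : ∀ x, 0 ≤ f x) :
    nq q f ^ 2 = nq (q / 2) fun x => f x ^ 2 := by
  have h : ∀ x, (f x ^ 2) ^ (q / 2) = f x ^ q := fun x => by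
    rw [← rpow_two, ← rpow_mul (hf x)]; congr 1; ring
  simp only [nq, h]
  rw [← rpow_two, ← rpow_mul (avp hf q)]
  congr 1
  field_simp

theorem av_le_nq [Nonempty α] {q : ℝ} (hq : 1 ≤ q) {f : α → ℝ} (hf : ∀ x, 0 ≤ f x) :
    av f ≤ nq q f := by
  have hN : (0 : ℝ) < Fintype.card α := by exact_mod_cast Fintype.card_pos
  have h0 : 0 < q := zero_lt_one.trans_le hq
  rw [← rpow_le_rpow_iff (av_nonneg hf) (nq_nonneg q hf) h0, nq_pow h0 hf, av, av,
    div_rpow (sum_nonneg fun x _ => hf x) hN.le, div_le_div_iff₀ (rpow_pos_of_pos hN _) hN]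
  have h1 := rpow_sum_le_const_mul_sum_rpow_of_nonneg univ hq fun x _ => hf x
  rw [card_univ, rpow_sub_one hN.ne'] at h1
  refine (mul_le_mul_of_nonneg_right h1 hN.le).trans_eq ?_
  field_simp

theorem markov {q l : ℝ} (hq : 0 < q) (hl : 0 < l) {f : α → ℝ} (hf : ∀ x, 0 ≤ f x) :
    pr (fun x => l * nq q f < f x) ≤ (l ^ q)⁻¹ := by
  obtain h | h := (nq_nonneg q hf).eq_or_lt
  · rw [pr_false]
    · positivity
    intro x hx
    have h1 := nq_pow hq hf
    rw [← h, zero_rpow hq.ne'] at h1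
    rw [← h, mul_zero] at hx
    have hN : (0 : ℝ) < Fintype.card α := by exact_mod_cast Fintype.card_pos_iff.2 ⟨x⟩
    have h2 : 0 < ∑ y, f y ^ q := (rpow_pos_of_pos hx q).trans_le
      (single_le_sum (f := fun y => f y ^ q) (fun y _ => rpow_nonneg (hf y) q) (mem_univ x))
    exact (div_pos h2 hN).ne h1
  · have h1 : 0 < (l * nq q f) ^ q := by positivity
    refine (pr_le_av (f := fun x => ((l * nq q f) ^ q)⁻¹ * f x ^ q)
      (fun x => mul_nonneg (inv_nonneg.2 h1.le) (rpow_nonneg (hf x) _)) fun x hx => ?_).trans_eq ?_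
    · rw [← div_eq_inv_mul, one_le_div h1]
      exact rpow_le_rpow (by positivity) hx.le hq.le
    · rw [av_mul, ← nq_pow hq hf, mul_rpow hl.le h.le]
      have := rpow_pos_of_pos h q
      field_simp

/-- complex mean -/
noncomputable def mn (F : α → ℂ) : ℂ := (∑ x, F x) / Fintype.card α

theorem norm_mn (F : α → ℂ) : ‖mn F‖ ≤ av fun x => ‖F x‖ := by
  rw [mn, norm_div, Complex.norm_natCast]
  exact div_le_div_of_nonneg_right (norm_sum_le _ _) (Nat.cast_nonneg _)

theorem mn_equiv (e : α ≃ β) (F : β → ℂ) : mn (fun x => F (e x)) = mn F := by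
  simp only [mn, Fintype.card_congr e, e.sum_comp F]

end nq

/-- two point inequality -/
theorem two_real {p A B R : ℝ} (hp : 1 ≤ p) (hB : 0 ≤ B) (hR : R ^ 2 ≤ 4 * A * B)
    (h1 : 0 ≤ A + B + R) (h2 : 0 ≤ A + B - R) :
    (A + B + R) ^ p + (A + B - R) ^ p ≤ 2 * (A + 6 * p * B) ^ p := by
  have hp0 : 0 ≤ p := by linarith
  by_cases h : A ≤ 4 * p * B
  · have h3 : |R| ≤ (6 * p - 1) * B := by
      refine abs_le_of_sq_le_sq' ?_ (mul_nonneg (by linarith) hB) |> abs_le.2
      have : 4 * A * B ≤ 16 * p * B ^ 2 := by nlinarith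
      have : 16 * p ≤ (6 * p - 1) ^ 2 := by nlinarith
      nlinarith [sq_nonneg B]
    have h4 := abs_le.1 h3
    have h5 := rpow_le_rpow h1 (show A + B + R ≤ A + 6 * p * B by linarith) hp0
    have h6 := rpow_le_rpow h2 (show A + B - R ≤ A + 6 * p * B by linarith) hp0
    linarith
  · push Not at h
    have hA' : 0 < A := lt_of_le_of_lt (by positivity) h
    have key : ∀ t, 0 ≤ A + t → (A + t) ^ p ≤ A ^ p * exp (p * (t / A)) := fun t ht => by
      rw [mul_comm p, exp_mul, ← mul_rpow hA'.le (exp_pos _).le]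
      refine rpow_le_rpow ht ?_ hp0
      have := mul_le_mul_of_nonneg_left (add_one_le_exp (t / A)) hA'.le
      rwa [mul_add, mul_div_cancel₀ _ hA'.ne', mul_one, add_comm] at this
    have h3 := key (B + R) (by linarith)
    have h4 := key (B - R) (by linarith)
    set u := B / A with hu
    set r := R / A with hr
    have hu0 : 0 ≤ u := by positivity
    have hr2 : r ^ 2 ≤ 4 * u := by
      rw [hr, hu, div_pow, div_le_iff₀ (by positivity)]
      refine hR.trans_eq ?_
      field_simp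
    have hpu : 4 * p * u < 1 := by
      rw [hu, ← mul_div_assoc, div_lt_one hA']; exact h
    have h5 := cosh_le_exp_half_sq (p * r)
    rw [cosh_eq] at h5
    have h6 : exp (3 * p * u) ≤ 1 + 6 * p * u := by
      have h0 : 0 ≤ 3 * p * u := by positivity
      have := (abs_le.1 (abs_exp_sub_one_sub_id_le (x := 3 * p * u)
        (by rw [abs_of_nonneg h0]; linarith))).2
      nlinarith
    have h7 : exp (p * u) * exp ((p * r) ^ 2 / 2) ≤ (1 + 6 * p * u) ^ p := by
      refine le_trans ?_ (rpow_le_rpow (exp_pos _).le h6 hp0)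
      rw [← exp_mul, ← exp_add, exp_le_exp]
      have : p ^ 2 * r ^ 2 ≤ p ^ 2 * (4 * u) := mul_le_mul_of_nonneg_left hr2 (sq_nonneg p)
      have : p * u ≤ p * (p * u) := le_mul_of_one_le_left (by positivity) hp
      nlinarith
    have h8 : (A + 6 * p * B) ^ p = A ^ p * (1 + 6 * p * u) ^ p := by
      rw [← mul_rpow hA'.le (by positivity), hu]
      congr 1
      field_simp
    rw [add_div, mul_add, exp_add, ← add_assoc] at h3
    rw [sub_div, mul_sub, sub_eq_add_neg (p * u), exp_add, ← add_sub_assoc] at h4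
    have h9 : 0 < A ^ p * exp (p * u) := by positivity
    have h10 := mul_le_mul_of_nonneg_left h5 h9.le
    have h11 := mul_le_mul_of_nonneg_left h7 (rpow_pos_of_pos hA' p).le
    rw [h8]
    nlinarith

theorem two_pt {q : ℝ} (hq : 2 ≤ q) (a b : ℂ) :
    ‖a + b‖ ^ q + ‖a - b‖ ^ q ≤ 2 * (‖a‖ ^ 2 + 3 * q * ‖b‖ ^ 2) ^ (q / 2) := by
  have h : ∀ z : ℂ, ‖z‖ ^ q = (‖z‖ ^ 2) ^ (q / 2) := fun z => by
    rw [← rpow_two, ← rpow_mul (norm_nonneg z)]; congr 1; ring
  have h1 : ‖a + b‖ ^ 2 = ‖a‖ ^ 2 + ‖b‖ ^ 2 + 2 * (a.re * b.re + a.im * b.im) := by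
    simp only [Complex.sq_norm, Complex.normSq_apply, Complex.add_re, Complex.add_im]; ring
  have h2 : ‖a - b‖ ^ 2 = ‖a‖ ^ 2 + ‖b‖ ^ 2 - 2 * (a.re * b.re + a.im * b.im) := by
    simp only [Complex.sq_norm, Complex.normSq_apply, Complex.sub_re, Complex.sub_im]; ring
  have h3 := two_real (p := q / 2) (R := 2 * (a.re * b.re + a.im * b.im)) (by linarith)
    (A := ‖a‖ ^ 2) (sq_nonneg ‖b‖)
    (by
      simp only [Complex.sq_norm, Complex.normSq_apply]
      nlinarith [sq_nonneg (a.re * b.im - a.im * b.re)])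
    (h1 ▸ sq_nonneg _) (h2 ▸ sq_nonneg _)
  rw [h, h, h1, h2, show 3 * q = 6 * (q / 2) by ring]
  exact h3

variable {ι : Type} [Fintype ι] [DecidableEq ι]

/-- flip one coin -/
def fl (w : ι) : (ι → Bool) ≃ (ι → Bool) :=
  Involutive.toPerm (fun s => update s w (!s w)) fun s => by simp

omit [Fintype ι] in
theorem fl_apply (w : ι) (s : ι → Bool) : fl w s = update s w (!s w) := rfl

omit [Fintype ι] in
theorem fl_comm (w x : ι) (s : ι → Bool) : fl w (fl x s) = fl x (fl w s) := by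
  by_cases h : w = x
  · rw [h]
  · simp [fl_apply, update_comm h, h, Ne.symm h]

/-- discrete derivative -/
noncomputable def dl (w : ι) (F : (ι → Bool) → ℂ) (s : ι → Bool) : ℂ := (F s - F (fl w s)) / 2

theorem nq_half {q : ℝ} (hq : 1 ≤ q) (x : ι) (G : (ι → Bool) → ℂ) :
    (nq q fun s => ‖(G s + G (fl x s)) / 2‖) ≤ nq q fun s => ‖G s‖ := by
  have h0 : 0 < q := by linarith
  refine (nq_mono h0 (g := fun s => 1 / 2 * (‖G s‖ + ‖G (fl x s)‖)) (fun _ => norm_nonneg _)
    fun s => ?_).trans ?_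
  · rw [norm_div, Complex.norm_two]
    linarith [norm_add_le (G s) (G (fl x s))]
  · rw [nq_smul h0 (by norm_num) fun s => by positivity]
    have := nq_add hq (f := fun s => ‖G s‖) (g := fun s => ‖G (fl x s)‖) (fun _ => norm_nonneg _)
      fun _ => norm_nonneg _
    rw [nq_equiv q (fl x) fun s => ‖G s‖] at this
    linarith

theorem es_aux {q : ℝ} (hq : 2 ≤ q) (U : Finset ι) : ∀ F : (ι → Bool) → ℂ,
    (∀ s s', (∀ x ∈ U, s x = s' x) → F s = F s') →
    (nq q fun s => ‖F s‖) ^ 2 ≤ ‖mn F‖ ^ 2 + 3 * q * ∑ w ∈ U, (nq q fun s => ‖dl w F s‖) ^ 2 := by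
  have h0 : 0 < q := by linarith
  induction U using Finset.induction_on with
  | empty =>
    intro F h
    obtain ⟨c, rfl⟩ : ∃ c, F = fun _ => c := ⟨F fun _ => true, funext fun s => h _ _ (by simp)⟩
    have : (Fintype.card (ι → Bool) : ℂ) ≠ 0 := by exact_mod_cast Fintype.card_ne_zero
    rw [nq_const h0 (norm_nonneg _), mn, sum_const, card_univ, nsmul_eq_mul,
      mul_div_cancel_left₀ _ this]
    simp
  | insert x U hx ih =>
    intro F h
    set E : (ι → Bool) → ℂ := fun s => (F s + F (fl x s)) / 2 with hE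
    have h1 := ih E fun s s' hs => by
      have a : ∀ s s' : ι → Bool, (∀ y ∈ U, s y = s' y) → s x = s' x → F s = F s' :=
        fun s s' h1 h2 => h _ _ fun y hy => (mem_insert.1 hy).elim (fun e => e ▸ h2) (h1 y)
      have b : ∀ s : ι → Bool, ∀ y ∈ U, fl x s y = s y := fun s y hy => by
        rw [fl_apply, update_of_ne (ne_of_mem_of_not_mem hy hx)]
      by_cases e : s x = s' x
      · simp only [hE]
        rw [a s s' hs e, a (fl x s) (fl x s') (fun y hy => by rw [b _ y hy, b _ y hy, hs y hy])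
          (by simp [fl_apply, e])]
      · simp only [hE]
        rw [a s (fl x s') (fun y hy => by rw [b _ y hy, hs y hy])
          (by simpa [fl_apply] using Bool.eq_not_of_ne e),
          a (fl x s) s' (fun y hy => by rw [b _ y hy, hs y hy])
          (by simpa [fl_apply] using (Bool.eq_not_of_ne (Ne.symm e)).symm), add_comm]
    have h2 : mn E = mn F := by
      have := mn_equiv (fl x) F
      simp only [mn, hE, ← sum_div, sum_add_distrib] at this ⊢
      rw [div_right_comm, add_div, this]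
      ring
    have h3 : ∑ w ∈ U, (nq q fun s => ‖dl w E s‖) ^ 2 ≤ ∑ w ∈ U, (nq q fun s => ‖dl w F s‖) ^ 2 :=
      sum_le_sum fun w _ => pow_le_pow_left₀ (nq_nonneg _ fun _ => norm_nonneg _)
        (le_trans (le_of_eq (congrArg _ (funext fun s => by
          simp only [dl, hE, fl_comm w x]; congr 1; ring))) (nq_half (by linarith) x (dl w F))) 2
    have h4 : (nq q fun s => ‖F s‖) ^ 2 ≤
        nq (q / 2) fun s => ‖E s‖ ^ 2 + 3 * q * ‖dl x F s‖ ^ 2 := by
      rw [nq_sq h0 fun _ => norm_nonneg _]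
      refine rpow_le_rpow (avp (fun _ => sq_nonneg _) _) ?_ (by positivity)
      have a : ∀ z : ℂ, (‖z‖ ^ 2) ^ (q / 2) = ‖z‖ ^ q := fun z => by
        rw [← rpow_two, ← rpow_mul (norm_nonneg z)]; congr 1; ring
      have b := av_mono fun s => two_pt hq (E s) (dl x F s)
      have c : ∀ s, E s + dl x F s = F s := fun s => by simp only [hE, dl]; ring
      have d : ∀ s, E s - dl x F s = F (fl x s) := fun s => by simp only [hE, dl]; ring
      simp only [c, d, av_add, av_mul] at b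
      rw [av_equiv (fl x) fun s => ‖F s‖ ^ q] at b
      simp only [a]
      linarith
    have h5 := nq_add (q := q / 2) (by linarith) (f := fun s => ‖E s‖ ^ 2)
      (g := fun s => 3 * q * ‖dl x F s‖ ^ 2) (fun _ => sq_nonneg _) fun _ => by positivity
    rw [nq_smul (by positivity) (by positivity) fun _ => sq_nonneg _,
      ← nq_sq h0 fun _ => norm_nonneg _, ← nq_sq h0 fun _ => norm_nonneg _] at h5
    rw [sum_insert hx, ← h2]
    nlinarith

/-- Efron-Stein inequality for moments -/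
theorem es {q : ℝ} (hq : 2 ≤ q) (F : (ι → Bool) → ℂ) :
    (nq q fun s => ‖F s‖) ^ 2 ≤ ‖mn F‖ ^ 2 + 3 * q * ∑ w, (nq q fun s => ‖dl w F s‖) ^ 2 :=
  es_aux hq univ F fun _ _ h => congrArg F (funext fun x => h x (mem_univ x))

end Ch

end Pool.Agent.P.MP_d0f69c_mp.XS
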