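import Pool.Agent.P.MP_d0f69c_mp.XS.Chaos

/-!
The Efron-Stein inequality of order two, and the majorant when only the signs on `Y` are random.
-/

set_option autoImplicit false

open Finset Real Function
open scoped Matrix

namespace Pool.Agent.P.MP_d0f69c_mp.XS

variable {ι : Type} [Fintype ι] [DecidableEq ι]

namespace Ch

theorem par (a b : ℂ) : ‖a + b‖ ^ 2 + ‖a - b‖ ^ 2 = 2 * (‖a‖ ^ 2 + ‖b‖ ^ 2) := by
  simp only [Complex.sq_norm, Complex.normSq_apply, Complex.add_re, Complex.add_im,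
    Complex.sub_re, Complex.sub_im]
  ring

/-- average over one coin -/
noncomputable def ev (x : ι) (F : (ι → Bool) → ℂ) (s : ι → Bool) : ℂ := (F s + F (fl x s)) / 2

theorem av_split (x : ι) (F : (ι → Bool) → ℂ) :
    (av fun s => ‖F s‖ ^ 2) = (av fun s => ‖ev x F s‖ ^ 2) + av fun s => ‖dl x F s‖ ^ 2 := by
  have b := congrArg av (funext fun s => par (ev x F s) (dl x F s))
  have c : ∀ s, ev x F s + dl x F s = F s := fun s => by simp only [ev, dl]; ring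
  have d : ∀ s, ev x F s - dl x F s = F (fl x s) := fun s => by simp only [ev, dl]; ring
  simp only [c, d, av_add, av_mul] at b
  rw [av_equiv (fl x) fun s => ‖F s‖ ^ 2] at b
  linarith

theorem mn_ev (x : ι) (F : (ι → Bool) → ℂ) : mn (ev x F) = mn F := by
  have := mn_equiv (fl x) F
  simp only [mn, ev, ← sum_div, sum_add_distrib] at this ⊢
  rw [div_right_comm, add_div, this]
  ring

omit [Fintype ι] in
theorem dl_ev (w x : ι) (F : (ι → Bool) → ℂ) : dl w (ev x F) = ev x (dl w F) := funext fun s => by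
  simp only [dl, ev, fl_comm w x]
  ring

omit [Fintype ι] in
theorem ev_dep {x : ι} {U : Finset ι} (hx : x ∉ U) {F : (ι → Bool) → ℂ}
    (h : ∀ s s', (∀ y ∈ insert x U, s y = s' y) → F s = F s') (s s' : ι → Bool)
    (hs : ∀ y ∈ U, s y = s' y) : ev x F s = ev x F s' := by
  have a : ∀ s s' : ι → Bool, (∀ y ∈ U, s y = s' y) → s x = s' x → F s = F s' :=
    fun s s' h1 h2 => h _ _ fun y hy => (mem_insert.1 hy).elim (fun e => e ▸ h2) (h1 y)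
  have b : ∀ s : ι → Bool, ∀ y ∈ U, fl x s y = s y := fun s y hy => by
    rw [fl_apply, update_of_ne (ne_of_mem_of_not_mem hy hx)]
  by_cases e : s x = s' x
  · simp only [ev]
    rw [a s s' hs e, a (fl x s) (fl x s') (fun y hy => by rw [b _ y hy, b _ y hy, hs y hy])
      (by simp [fl_apply, e])]
  · simp only [ev]
    rw [a s (fl x s') (fun y hy => by rw [b _ y hy, hs y hy])
      (by simpa [fl_apply] using Bool.eq_not_of_ne e),
      a (fl x s) s' (fun y hy => by rw [b _ y hy, hs y hy])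
      (by simpa [fl_apply] using (Bool.eq_not_of_ne (Ne.symm e)).symm), add_comm]

/-- Efron-Stein for a function of the coins in `U` -/
theorem es2 (U : Finset ι) : ∀ F : (ι → Bool) → ℂ,
    (∀ s s', (∀ x ∈ U, s x = s' x) → F s = F s') →
    (av fun s => ‖F s‖ ^ 2) ≤ ‖mn F‖ ^ 2 + ∑ w ∈ U, av fun s => ‖dl w F s‖ ^ 2 := by
  induction U using Finset.induction_on with
  | empty =>
    intro F h
    obtain ⟨c, rfl⟩ : ∃ c, F = fun _ => c := ⟨F fun _ => true, funext fun s => h _ _ (by simp)⟩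
    have : (Fintype.card (ι → Bool) : ℂ) ≠ 0 := by exact_mod_cast Fintype.card_ne_zero
    rw [av_const, mn, sum_const, card_univ, nsmul_eq_mul, mul_div_cancel_left₀ _ this]
    simp
  | insert x U hx ih =>
    intro F h
    have h1 := ih (ev x F) (ev_dep hx h)
    have h3 : ∑ w ∈ U, (av fun s => ‖dl w (ev x F) s‖ ^ 2) ≤ ∑ w ∈ U, av fun s => ‖dl w F s‖ ^ 2 :=
      sum_le_sum fun w _ => by
        rw [dl_ev, av_split x (dl w F)]
        exact le_add_of_nonneg_right (av_nonneg fun _ => sq_nonneg _)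
    rw [sum_insert hx, av_split x F, ← mn_ev x F]
    linarith

omit [Fintype ι] in
theorem mix_fl {Y : Finset ι} {w : ι} (hw : w ∈ Y) (s σ : ι → Bool) :
    mix Y (fl w s) σ = fl w (mix Y s σ) := funext fun y => by
  by_cases e : y = w
  · simp [e, mix, hw, fl_apply]
  · simp [mix, fl_apply, e]

/-- Efron-Stein with the coins outside `Y` fixed -/
theorem es2_mix (Y : Finset ι) (F : (ι → Bool) → ℂ) (σ : ι → Bool) :
    (av fun s => ‖F (mix Y s σ)‖ ^ 2) ≤ ‖mn fun s => F (mix Y s σ)‖ ^ 2 +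
      ∑ w ∈ Y, av fun s => ‖dl w F (mix Y s σ)‖ ^ 2 := by
  refine (es2 Y (fun s => F (mix Y s σ)) fun s s' h => congrArg F (funext fun y => ?_)).trans_eq ?_
  · by_cases e : y ∈ Y
    · simp [mix, e, h y e]
    · simp [mix, e]
  · refine congrArg _ (sum_congr rfl fun w hw => ?_)
    simp only [dl, mix_fl hw]

/-- Efron-Stein relative to the average over the coins in `Y` -/
theorem es2_set (Y : Finset ι) (F : (ι → Bool) → ℂ) :
    (av fun s => ‖F s‖ ^ 2) ≤ (av fun σ => ‖mn fun s => F (mix Y s σ)‖ ^ 2) +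
      ∑ w ∈ Y, av fun s => ‖dl w F s‖ ^ 2 := by
  rw [av_stop (fun _ => Y) (fun _ _ _ => rfl)]
  refine (av_mono fun σ => es2_mix Y F σ).trans_eq ?_
  rw [av_add, av_sum]
  refine congrArg _ (sum_congr rfl fun w _ => ?_)
  rw [av_stop (fun _ => Y) (fun _ _ _ => rfl) fun s => ‖dl w F s‖ ^ 2]

/-- a priori bound for `x + A (D x) = c` -/
theorem apriori {A : Matrix ι ι ℂ} {ρ : ℝ} (h0 : 0 ≤ ρ) (hρ : ρ ≤ 1 / 4)
    (hA : ∀ x : ι → ℂ, ∑ u, ‖(A *ᵥ x) u‖ ^ 2 ≤ ρ ^ 2 * ∑ u, ‖x u‖ ^ 2) {D : ι → ℂ}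
    (hD : ∀ w, ‖D w‖ ≤ 1) (x : ι → ℂ) :
    ∑ u, ‖x u‖ ^ 2 ≤ 2 * ∑ u, ‖((1 + A * Matrix.diagonal D) *ᵥ x) u‖ ^ 2 := by
  set y := A *ᵥ fun w => D w * x w with hy
  have e : (1 + A * Matrix.diagonal D) *ᵥ x = x + y := by
    rw [Matrix.add_mulVec, Matrix.one_mulVec, ← Matrix.mulVec_mulVec, hy]
    congr 2
    funext w
    rw [Matrix.mulVec_diagonal]
  have h1 : ∑ u, ‖y u‖ ^ 2 ≤ 1 / 16 * ∑ u, ‖x u‖ ^ 2 :=
    (hA _).trans (mul_le_mul (by nlinarith) (sum_le_sum fun w _ => by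
      rw [norm_mul]
      exact pow_le_pow_left₀ (by positivity) (mul_le_of_le_one_left (norm_nonneg _) (hD w)) 2)
      (by positivity) (by norm_num))
  have a : ∀ u, ‖x u‖ ^ 2 ≤ 4 / 3 * ‖(x + y) u‖ ^ 2 + 4 * ‖y u‖ ^ 2 := fun u => by
    have b : ‖x u‖ ≤ ‖(x + y) u‖ + ‖y u‖ := by simpa using norm_sub_le ((x + y) u) (y u)
    nlinarith [norm_nonneg (x u), sq_nonneg (‖(x + y) u‖ - 3 * ‖y u‖)]
  have b := sum_le_sum fun u (_ : u ∈ univ) => a u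
  rw [sum_add_distrib, ← mul_sum, ← mul_sum] at b
  have : 0 ≤ ∑ u, ‖(x + y) u‖ ^ 2 := by positivity
  rw [e]
  linarith

theorem unit_one_add {A : Matrix ι ι ℂ} {ρ : ℝ} (h0 : 0 ≤ ρ) (hρ : ρ ≤ 1 / 4)
    (hA : ∀ x : ι → ℂ, ∑ u, ‖(A *ᵥ x) u‖ ^ 2 ≤ ρ ^ 2 * ∑ u, ‖x u‖ ^ 2) {D : ι → ℂ}
    (hD : ∀ w, ‖D w‖ ≤ 1) : IsUnit (1 + A * Matrix.diagonal D).det := by
  rw [← Matrix.isUnit_iff_isUnit_det, ← Matrix.mulVec_injective_iff_isUnit]
  intro x y h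
  have h1 := apriori h0 hρ hA hD (x - y)
  rw [Matrix.mulVec_sub, h, sub_self] at h1
  funext u
  have h2 := single_le_sum (f := fun u => ‖(x - y) u‖ ^ 2) (fun _ _ => sq_nonneg _) (mem_univ u)
  have h3 : ‖(x - y) u‖ ^ 2 ≤ 0 := by simpa using h2.trans h1
  exact sub_eq_zero.1 (norm_eq_zero.1 (pow_eq_zero_iff two_ne_zero |>.1
    (h3.antisymm (sq_nonneg _))))

theorem inv_le {A : Matrix ι ι ℂ} {ρ : ℝ} (h0 : 0 ≤ ρ) (hρ : ρ ≤ 1 / 4)
    (hA : ∀ x : ι → ℂ, ∑ u, ‖(A *ᵥ x) u‖ ^ 2 ≤ ρ ^ 2 * ∑ u, ‖x u‖ ^ 2) {D : ι → ℂ}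
    (hD : ∀ w, ‖D w‖ ≤ 1) (c : ι → ℂ) :
    ∑ u, ‖((1 + A * Matrix.diagonal D)⁻¹ *ᵥ c) u‖ ^ 2 ≤ 2 * ∑ u, ‖c u‖ ^ 2 := by
  have h := apriori h0 hρ hA hD ((1 + A * Matrix.diagonal D)⁻¹ *ᵥ c)
  rwa [Matrix.mulVec_mulVec, Matrix.mul_nonsing_inv _ (unit_one_add h0 hρ hA hD),
    Matrix.one_mulVec] at h

end Ch

open Ch

/-- majorant for the solution of `x + a V x = c`, with random signs on `Y` only -/
theorem chaosY {a : Matrix ι ι ℂ} {ρ ep : ℝ} {n : ℕ} (h0 : 0 ≤ ρ) (hρ : ρ ≤ 1 / 4)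
    (ha : ∀ x : ι → ℂ, ∑ u, ‖(a *ᵥ x) u‖ ^ 2 ≤ ρ ^ 2 * ∑ u, ‖x u‖ ^ 2) (Y : Finset ι)
    (hc : ∀ w ∈ Y, ∑ u, ‖a u w‖ ^ 2 ≤ ep) (hep : 0 ≤ ep) (hn : (n + 1) * ep ≤ 1 / 4000)
    {W : ι → ℂ} (hW : ∀ w ∉ Y, ‖W w‖ ≤ 1) (c : ι → ℂ) :
    ∃ b : ι → ℝ, (∀ u, 0 ≤ b u) ∧ ∑ u, b u ^ 2 ≤ 8 * ∑ u, ‖c u‖ ^ 2 ∧
      ∀ u, pr (fun s : ι → Bool => ∃ x : ι → ℂ, (x + a *ᵥ fun w => Wc W s Y w * x w) = c ∧
        b u + 2 * (2 * ρ) ^ n * √(∑ u, ‖c u‖ ^ 2) < ‖x u‖) ≤ n / 2 ^ (n + 1) := by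
  set D : ι → ℂ := fun w => if w ∈ Y then 0 else W w with hD
  have hD1 : ∀ w, ‖D w‖ ≤ 1 := fun w => by
    simp only [hD]
    split_ifs with h
    exacts [by simp, hW w h]
  set I : ι → ℂ := fun w => if w ∈ Y then 1 else 0 with hI
  set R := (1 + a * Matrix.diagonal D)⁻¹ with hR
  have hm : ∀ x : ι → ℂ, (R * a * Matrix.diagonal I) *ᵥ x = R *ᵥ a *ᵥ fun w => I w * x w :=
    fun x => by
      rw [← Matrix.mulVec_mulVec, ← Matrix.mulVec_mulVec]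
      congr 2
      funext w
      rw [Matrix.mulVec_diagonal]
  obtain ⟨b, h1, h2, h3⟩ := chaos' (A := R * a * Matrix.diagonal I) (ρ := 2 * ρ) (ep := 2 * ep)
    (n := n) (by positivity) (by linarith) (fun x => by
      rw [hm]
      refine (inv_le h0 hρ ha hD1 _).trans ?_
      have h1 := ha fun w => I w * x w
      have h2 : ∑ u, ‖I u * x u‖ ^ 2 ≤ ∑ u, ‖x u‖ ^ 2 := sum_le_sum fun u _ => by
        simp only [hI]
        split_ifs <;> simp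
      have h3 := mul_le_mul_of_nonneg_left h2 (sq_nonneg ρ)
      have h4 : 0 ≤ ρ ^ 2 * ∑ u, ‖x u‖ ^ 2 := by positivity
      nlinarith)
    (fun w => by
      simp only [Matrix.mul_diagonal, hI]
      split_ifs with h
      · have := inv_le h0 hρ ha hD1 fun u => a u w
        simp only [mul_one]
        exact le_trans this (by linarith [hc w h])
      · simpa using hep)
    (by linarith) (R *ᵥ c)
  have h4 := inv_le h0 hρ ha hD1 c
  refine ⟨b, h1, by linarith, fun u => (pr_mono fun s ⟨x, hx, h⟩ => ⟨x, ?_, ?_⟩).trans (h3 u)⟩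
  · have e : (1 + a * Matrix.diagonal D) *ᵥ x + (a *ᵥ fun w => I w * (sgn (s w) * x w)) = c := by
      rw [← hx, Matrix.add_mulVec, Matrix.one_mulVec, ← Matrix.mulVec_mulVec, add_assoc,
        ← Matrix.mulVec_add]
      congr 2
      funext w
      simp only [Pi.add_apply, Matrix.mulVec_diagonal, hD, hI, Wc]
      split_ifs <;> simp
    rw [hm, ← e, Matrix.mulVec_add, Matrix.mulVec_mulVec x,
      Matrix.nonsing_inv_mul _ (unit_one_add h0 hρ ha hD1), Matrix.one_mulVec]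
  · refine lt_of_le_of_lt ?_ h
    have h5 : √(∑ u, ‖(R *ᵥ c) u‖ ^ 2) ≤ 2 * √(∑ u, ‖c u‖ ^ 2) := by
      have h6 : 0 ≤ ∑ u, ‖c u‖ ^ 2 := by positivity
      rw [sqrt_le_left (by positivity), mul_pow, sq_sqrt h6]
      linarith
    have := mul_le_mul_of_nonneg_left h5 (show 0 ≤ (2 * ρ) ^ n by positivity)
    linarith

/-- majorant for the entries of `(1 + a V)⁻¹ c` -/
theorem chaosY_inv {a : Matrix ι ι ℂ} {ρ ep : ℝ} {n : ℕ} (h0 : 0 ≤ ρ) (hρ : ρ ≤ 1 / 4)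
    (ha : ∀ x : ι → ℂ, ∑ u, ‖(a *ᵥ x) u‖ ^ 2 ≤ ρ ^ 2 * ∑ u, ‖x u‖ ^ 2) (Y : Finset ι)
    (hc : ∀ w ∈ Y, ∑ u, ‖a u w‖ ^ 2 ≤ ep) (hep : 0 ≤ ep) (hn : (n + 1) * ep ≤ 1 / 4000)
    {W : ι → ℂ} (hW : ∀ w ∉ Y, ‖W w‖ ≤ 1) (c : ι → ℂ) :
    ∃ b : ι → ℝ, (∀ u, 0 ≤ b u) ∧ ∑ u, b u ^ 2 ≤ 8 * ∑ u, ‖c u‖ ^ 2 ∧
      ∀ u, pr (fun s : ι → Bool => b u + 2 * (2 * ρ) ^ n * √(∑ u, ‖c u‖ ^ 2) <
        ‖((1 + a * Matrix.diagonal (Wc W s Y))⁻¹ *ᵥ c) u‖) ≤ n / 2 ^ (n + 1) := by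
  obtain ⟨b, h1, h2, h3⟩ := chaosY h0 hρ ha Y hc hep hn hW c
  refine ⟨b, h1, h2, fun u => (pr_mono fun s h => ⟨_, ?_, h⟩).trans (h3 u)⟩
  have hu := unit_one_add h0 hρ ha (D := Wc W s Y) fun w => by
    simp only [Wc]
    split_ifs with h
    exacts [(nsg _).le, hW w h]
  set x := (1 + a * Matrix.diagonal (Wc W s Y))⁻¹ *ᵥ c with hx
  have e : (1 + a * Matrix.diagonal (Wc W s Y)) *ᵥ x = c := by
    rw [hx, Matrix.mulVec_mulVec, Matrix.mul_nonsing_inv _ hu, Matrix.one_mulVec]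
  rw [← e, Matrix.add_mulVec, Matrix.one_mulVec, ← Matrix.mulVec_mulVec]
  congr 2
  funext w
  rw [Matrix.mulVec_diagonal]

end Pool.Agent.P.MP_d0f69c_mp.XS
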