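import Pool.Agent.P.MP_d0f69c_mp.XS.Pr
import Pool.Agent.P.MP_d0f69c_mp.XS.Num

/-!
Composition of random stages.
-/

set_option autoImplicit false

open Finset Real

namespace Pool.Agent.P.MP_d0f69c_mp.XS

/-- run `st1`, then `st2` -/
def Stage.comp {ι : Type} [Fintype ι] [DecidableEq ι] {N : ℕ} (st1 st2 : Stage ι N) :
    Stage ι N where
  A := st1.A × st2.A
  fA := inferInstance
  nA := inferInstance
  run S w a := st2.run (st1.run S w a.1) w a.2

theorem Stage.Causal.comp {ι : Type} [Fintype ι] [DecidableEq ι] {N : ℕ} {st1 st2 : Stage ι N}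
    (h1 : st1.Causal) (h2 : st2.Causal) : (st1.comp st2).Causal := by
  intro S w a
  obtain ⟨a1, b1⟩ := h1 S w a.1
  obtain ⟨a2, b2⟩ := h2 (st1.run S w a.1) w a.2
  refine ⟨a2.trans a1, fun w' hw => ?_⟩
  have e := b1 w' fun y hy => hw y fun h => hy (a2 h)
  change st2.run (st1.run S w' a.1) w' a.2 = st2.run (st1.run S w a.1) w a.2
  rw [e]
  exact b2 w' hw

variable {d M : ℕ} [NeZero M] {E : Env d M} {q : Par} {s : ℕ} {st1 st2 : Stage (Tor d M) E.N}

theorem EB.comp_left {Pre : St (Tor d M) → Prop} {T2 : Finset (Fin 5)} {i : Fin 5} {r : ℕ} {a : ℝ}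
    (h : EB E st1 Pre s i r a) (ht : st2.Tag s T2) (hi : i ∉ T2) :
    EB E (st1.comp st2) Pre s i r a := by
  intro S hS w I hI
  refine le_trans (le_of_eq (pr_equiv (Equiv.prodAssoc _ st1.A st2.A) _).symm)
    (pr_prod_le' (by positivity) fun β => le_trans ?_ (h S hS w I hI))
  refine pr_mono fun z hz x hx => ⟨?_, (hz x hx).2⟩
  by_contra hn
  exact hi ((ht _ _ _).2 _ (hz x hx).1 hn).2

theorem EB.comp_right {Pre Mid : St (Tor d M) → Prop} {T1 : Finset (Fin 5)} {i : Fin 5} {r : ℕ}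
    {a : ℝ} (h : EB E st2 Mid s i r a) (hc : st1.Causal) (ht : st1.Tag s T1) (hi : i ∉ T1)
    (hp : ∀ S w α, Pre S → Mid (st1.run S w α)) (hN : E.N ≠ 0) :
    EB E (st1.comp st2) Pre s i r a := by
  intro S hS w I hI
  have : Nonempty (Fin E.N) := ⟨⟨0, Nat.pos_of_ne_zero hN⟩⟩
  have h0 : 0 ≤ exp (-a) ^ I.card := by positivity
  let e : st1.A × (Cfg (Tor d M) E.N × st2.A) ≃ Cfg (Tor d M) E.N × (st1.A × st2.A) :=
    ⟨fun z => (z.2.1, z.1, z.2.2), fun z => (z.2.1, z.1, z.2.2), fun _ => rfl, fun _ => rfl⟩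
  refine le_trans (le_of_eq (pr_equiv e _).symm) (pr_prod_le h0 fun α => ?_)
  have key : ∀ ξ ξ' : Cfg (Tor d M) E.N, (∀ y ∉ (st1.run S (mix S.U ξ w) α).U, ξ' y = ξ y) →
      st1.run S (mix S.U ξ' w) α = st1.run S (mix S.U ξ w) α := fun ξ ξ' hξ =>
    (hc S _ α).2 _ fun y hy => by simp only [mix, hξ y hy]
  refine le_trans (pr_mono (B := fun z : Cfg (Tor d M) E.N × st2.A => ∀ x ∈ I,
    (s, i, x) ∈ (st2.run (st1.run S (mix S.U z.1 w) α) (mix S.U z.1 w) z.2).ev ∧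
      (s, i, x) ∉ (st1.run S (mix S.U z.1 w) α).ev) fun z hz x hx =>
    ⟨(hz x hx).1, fun hn => hi ((ht _ _ _).2 _ hn (hz x hx).2).2⟩) ?_
  rw [pr_stop (fun ξ => (st1.run S (mix S.U ξ w) α).U) fun ξ ξ' hξ => by rw [key ξ ξ' hξ]]
  refine av_le' h0 fun ξ => le_trans (le_of_eq (pr_congr fun z => ?_))
    (h _ (hp S (mix S.U ξ w) α hS) (mix S.U ξ w) I hI)
  have k1 := key ξ (mix (st1.run S (mix S.U ξ w) α).U z.1 ξ) fun y hy => by simp only [mix, hy,
    if_false]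
  simp only [k1]
  rw [mix_mix (hc S _ α).1]

theorem Spec.comp {Pre Mid Mid' Post : St (Tor d M) → Prop} {T1 T2 : Finset (Fin 5)}
    {Src : St (Tor d M) → Tor d M → Prop} {r1 ro1 r2 ro2 r ro : ℕ}
    (h1 : Spec E q s st1 Pre Mid T1 Src r1 ro1)
    (h2 : Spec E q s st2 Mid' Post T2 (fun S x => x ∈ S.junk) r2 ro2)
    (hm : ∀ S, Mid S → Mid' S) (hT : Disjoint T1 T2)
    (ho : ∀ S w α, Pre S → (st1.run S w α).omg = S.omg) (a1 : r1 ≤ r) (a2 : r2 ≤ r)
    (a3 : ro2 + r1 ≤ ro) (hs : ∀ S y, Src S y → ∃ y' ∈ S.junk, nm (y' - y) ≤ r1)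
    (hN : E.N ≠ 0) : Spec E q s (st1.comp st2) Pre Post (T1 ∪ T2) Src r ro := by
  have hp : ∀ S w α, Pre S → Mid' (st1.run S w α) := fun S w α hS => hm _ (h1.post S w α hS)
  refine ⟨h1.causal.comp h2.causal, fun S w α => ?_, fun S w α hS => h2.post _ w α.2 (hp S w α.1 hS),
    fun S w α hS hc => h2.cons _ w α.2 (hp S w α.1 hS) (h1.cons S w α.1 hS hc),
    fun S w α hS => ?_, fun i hi h3 => ?_, fun S w α c hS hc hi hn => ?_,
    fun S w α hS hc x hx => ?_, fun S w α hS hc o hi hn => ?_⟩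
  · refine ⟨(h1.tag S w α.1).1.trans (h2.tag _ w α.2).1, fun ℓ hl hn => ?_⟩
    by_cases h : ℓ ∈ (st1.run S w α.1).ev
    · exact ((h1.tag S w α.1).2 ℓ h hn).imp_right fun h => mem_union_left _ h
    · exact ((h2.tag _ w α.2).2 ℓ hl h).imp_right fun h => mem_union_right _ h
  · obtain ⟨b1, b2, b3⟩ := h1.sub S w α.1 hS
    obtain ⟨c1, c2, c3⟩ := h2.sub _ w α.2 (hp S w α.1 hS)
    exact ⟨c1.trans b1, c2.trans b2, c3.trans b3⟩
  · rcases mem_union.1 hi with h | h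
    · exact (h1.eb i h h3).comp_left h2.tag (disjoint_left.1 hT h)
    · exact (h2.eb i h h3).comp_right h1.causal h1.tag (disjoint_right.1 hT h) hp hN
  · by_cases h : (s, (3 : Fin 5), c) ∈ (st1.run S w α.1).ev
    · exact h1.wev S w α.1 c hS hc h hn
    · exact h2.wev _ w α.2 c (hp S w α.1 hS) (h1.cons S w α.1 hS hc) hi h
  · have hv := (h2.tag (st1.run S w α.1) w α.2).1
    rcases h2.junk _ w α.2 (hp S w α.1 hS) hc x hx with h | h
    · refine (h1.junk S w α.1 hS (hc.mono (h2.sub _ w α.2 (hp S w α.1 hS)).2.1) x h).imp_right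
        fun h => h.mono hv ?_
      rw [nm_self]; omega
    · refine Or.inr (h.mono Subset.rfl ?_)
      rw [nm_self]; omega
  · have hv := (h2.tag (st1.run S w α.1) w α.2).1
    have e := ho S w α.1 hS
    rcases h2.omg _ w α.2 (hp S w α.1 hS) (e ▸ hc) o (e ▸ hi) hn with ⟨y, hy, hd⟩ | h
    · rcases h1.junk S w α.1 hS (e ▸ hc) y hy with h | h
      · obtain ⟨y', h4, h5⟩ := hs S y h
        exact Or.inl ⟨y', h4, (nm_tri y' y o).trans (by omega)⟩
      · exact Or.inr (h.mono hv (by omega))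
    · refine Or.inr (h.mono Subset.rfl ?_)
      rw [nm_self]; omega

end Pool.Agent.P.MP_d0f69c_mp.XS
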