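import Mathlib

/- Abstract form inequalities for the reference network: dual bound, Hardy bound and the
consequences of the two-sided comparison. -/

namespace Pool.Agent.P.MP_d0f69c_mp.XS

open Finset Matrix

variable {T : Type} [Fintype T]

/-- variational lower bound of the massive reference form `Nm` whose inverse is `(1 + g) / c` -/
def Var (Nm : (T → ℝ) → ℝ) (g : T → T → ℝ) (c : ℝ) : Prop :=
  ∀ z F : T → ℝ, 2 * ∑ x, z x * F x - (∑ x, z x ^ 2 + ∑ x, ∑ y, z x * g x y * z y) / c ≤ Nm F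

theorem var_of_mat [DecidableEq T] {A g : Matrix T T ℝ} {c : ℝ} (hc : 0 < c) (hA : Aᵀ = A)
    (hp : ∀ F, 0 ≤ F ⬝ᵥ (A *ᵥ F)) (hg : A * (1 + g) = c • (1 : Matrix T T ℝ)) :
    Var (fun F => F ⬝ᵥ (A *ᵥ F)) g c := fun z F => by
  set w := c⁻¹ • ((1 + g) *ᵥ z) with hw
  have h1 : A *ᵥ w = z := by
    rw [hw, mulVec_smul, mulVec_mulVec, hg, smul_mulVec, one_mulVec, inv_smul_smul₀ hc.ne']
  have h2 : w ⬝ᵥ (A *ᵥ F) = z ⬝ᵥ F := by rw [dotProduct_mulVec, ← mulVec_transpose, hA, h1]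
  have h3 : w ⬝ᵥ z = (∑ x, z x ^ 2 + ∑ x, ∑ y, z x * g x y * z y) / c := by
    rw [hw, smul_dotProduct, dotProduct_comm, add_mulVec, one_mulVec, dotProduct_add, smul_eq_mul,
      inv_mul_eq_div]
    simp only [dotProduct, mulVec, mul_sum, sq, mul_assoc]
  have h4 := hp (F - w)
  rw [mulVec_sub, h1, sub_dotProduct, dotProduct_sub, dotProduct_sub, h2, h3,
    dotProduct_comm F z] at h4
  show 2 * (z ⬝ᵥ F) - _ ≤ F ⬝ᵥ (A *ᵥ F)
  linarith

theorem Var.nonneg {Nm : (T → ℝ) → ℝ} {g : T → T → ℝ} {c : ℝ} (h : Var Nm g c) (F : T → ℝ) :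
    0 ≤ Nm F := by simpa using h 0 F

theorem Var.sq_le {Nm : (T → ℝ) → ℝ} {g : T → T → ℝ} {c B : ℝ} (h : Var Nm g c)
    {z : T → ℝ} (hB : (∑ x, z x ^ 2 + ∑ x, ∑ y, z x * g x y * z y) / c ≤ B) (F : T → ℝ) :
    (∑ x, z x * F x) ^ 2 ≤ B * Nm F := by
  have h1 : ∀ t : ℝ, 0 ≤ B * (t * t) + -(2 * ∑ x, z x * F x) * t + Nm F := fun t => by
    have h2 := h (fun x => t * z x) F
    have e1 : ∑ x, t * z x * F x = t * ∑ x, z x * F x := by simp only [mul_sum, mul_assoc]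
    have e2 : (∑ x, (t * z x) ^ 2 + ∑ x, ∑ y, t * z x * g x y * (t * z y)) / c
        = t * t * ((∑ x, z x ^ 2 + ∑ x, ∑ y, z x * g x y * z y) / c) := by
      rw [← mul_div_assoc, mul_add]
      simp only [mul_sum]
      congr 2
      · exact sum_congr rfl fun _ _ => by ring
      · exact sum_congr rfl fun _ _ => sum_congr rfl fun _ _ => by ring
    rw [e1, e2] at h2
    have := mul_le_mul_of_nonneg_left hB (mul_self_nonneg t)
    linarith
  have := discrim_le_zero h1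
  rw [discrim] at this
  linarith

variable [DecidableEq T]

theorem row_cs {g : T → T → ℝ} {S : Finset T} {γ l : ℝ} {k : T → ℝ} (hγ : 0 ≤ γ) (hl : 0 ≤ l)
    (hk : ∀ x ∉ S, k x = 0) (h2 : ∑ x, k x ^ 2 ≤ l ^ 2) {x : T}
    (hx : ∑ y ∈ S.erase x, g x y ^ 2 ≤ γ ^ 2) : ∑ y ∈ univ.erase x, |g x y| * |k y| ≤ γ * l := by
  rw [← sum_subset (erase_subset_erase x (subset_univ S)) fun y h1 h3 => by
    rw [hk y fun h4 => h3 (mem_erase.2 ⟨(mem_erase.1 h1).1, h4⟩), abs_zero, mul_zero]]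
  refine le_of_sq_le_sq ((sum_mul_sq_le_sq_mul_sq _ _ _).trans ?_) (mul_nonneg hγ hl)
  simp only [sq_abs]
  rw [mul_pow]
  exact mul_le_mul hx ((sum_le_sum_of_subset_of_nonneg (subset_univ _) fun _ _ _ => sq_nonneg _).trans
    h2) (sum_nonneg fun _ _ => sq_nonneg _) (sq_nonneg _)

/-- DUAL for a functional supported on `S`; `l` bounds the Euclidean norm of `z` -/
theorem Var.dual {Nm : (T → ℝ) → ℝ} {g : T → T → ℝ} {c γ g0 l : ℝ} (h : Var Nm g c) (hc : 0 < c)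
    {S : Finset T} (hγ : 0 ≤ γ) (hl : 0 ≤ l) (hg0 : 0 ≤ g0) (hd : ∀ x ∈ S, g x x ≤ g0)
    (hr : ∀ x ∈ S, ∑ y ∈ S.erase x, g x y ^ 2 ≤ γ ^ 2) {z : T → ℝ} (hz : ∀ x ∉ S, z x = 0)
    (h2 : ∑ x, z x ^ 2 ≤ l ^ 2) (F : T → ℝ) :
    (∑ x, z x * F x) ^ 2 ≤ ((1 + g0) * l ^ 2 + γ * l * ∑ x, |z x|) / c * Nm F := by
  refine h.sq_le (div_le_div_of_nonneg_right ?_ hc.le) F
  have h3 : ∀ x, ∑ y, z x * g x y * z y ≤ g0 * z x ^ 2 + γ * l * |z x| := fun x => by
    by_cases hx : x ∈ S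
    · rw [← add_sum_erase _ _ (mem_univ x)]
      have a1 := mul_le_mul_of_nonneg_right (hd x hx) (sq_nonneg (z x))
      have a2 := mul_le_mul_of_nonneg_left (row_cs hγ hl hz h2 (hr x hx)) (abs_nonneg (z x))
      have a3 : ∑ y ∈ univ.erase x, z x * g x y * z y
          ≤ |z x| * ∑ y ∈ univ.erase x, |g x y| * |z y| := by
        rw [mul_sum]
        exact sum_le_sum fun y _ => (le_abs_self _).trans_eq (by rw [abs_mul, abs_mul, mul_assoc])
      nlinarith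
    · simp [hz x hx]
  have h4 := sum_le_sum fun x (_ : x ∈ univ) => h3 x
  rw [sum_add_distrib, ← mul_sum, ← mul_sum] at h4
  have h5 := mul_le_mul_of_nonneg_left h2 hg0
  linarith

/-- HARDY for a weight supported on `S`; `m` bounds the weight and `l` its Euclidean norm -/
theorem Var.hardy {Nm : (T → ℝ) → ℝ} {g : T → T → ℝ} {c γ g0 l m : ℝ} (h : Var Nm g c)
    (hc : 0 < c) (hs : ∀ x y, g x y = g y x) {S : Finset T} (hγ : 0 ≤ γ) (hl : 0 ≤ l)
    (hg0 : 0 ≤ g0) (hm : 0 ≤ m) (hd : ∀ x ∈ S, g x x ≤ g0)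
    (hr : ∀ x ∈ S, ∑ y ∈ S.erase x, g x y ^ 2 ≤ γ ^ 2) {k : T → ℝ} (hk : ∀ x ∉ S, k x = 0)
    (hk0 : ∀ x, 0 ≤ k x) (hkm : ∀ x, k x ≤ m) (h2 : ∑ x, k x ^ 2 ≤ l ^ 2) (F : T → ℝ) :
    ∑ x, k x * F x ^ 2 ≤ ((1 + g0) * m + γ * l) / c * Nm F := by
  set A := ∑ x, k x * F x ^ 2 with hA
  have hA0 : 0 ≤ A := sum_nonneg fun x _ => mul_nonneg (hk0 x) (sq_nonneg _)
  have h3 : ∀ x, k x * F x ^ 2 * ∑ y, |g x y| * k y ≤ k x * F x ^ 2 * (g0 * m + γ * l)
      + k x * F x ^ 2 * ((|g x x| - g x x) * k x) := fun x => by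
    by_cases hx : x ∈ S
    · rw [← mul_add]
      refine mul_le_mul_of_nonneg_left ?_ (mul_nonneg (hk0 x) (sq_nonneg _))
      rw [← add_sum_erase _ _ (mem_univ x)]
      have a1 := row_cs hγ hl hk h2 (hr x hx)
      simp only [abs_of_nonneg (hk0 _)] at a1
      have a2 := mul_le_mul (hd x hx) (hkm x) (hk0 x) hg0
      linarith
    · simp [hk x hx]
  have h4 : ∑ x, ∑ y, k x * F x * g x y * (k y * F y)
      + ∑ x, k x * F x ^ 2 * ((|g x x| - g x x) * k x)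
      ≤ ∑ x, k x * F x ^ 2 * ∑ y, |g x y| * k y := by
    have b1 : ∀ x y, k x * F x * g x y * (k y * F y)
        + (if x = y then k x * F x ^ 2 * ((|g x x| - g x x) * k x) else 0)
        ≤ (k x * F x ^ 2 * (|g x y| * k y) + k y * F y ^ 2 * (|g y x| * k x)) / 2 := fun x y => by
      split_ifs with hxy
      · subst hxy; linarith
      · rw [hs y x]
        have p := mul_nonneg (hk0 x) (hk0 y)
        have q1 := mul_nonneg p (mul_nonneg (sub_nonneg.2 (le_abs_self (g x y)))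
          (sq_nonneg (F x + F y)))
        have q2 := mul_nonneg p (mul_nonneg (sub_nonneg.2 (neg_le_abs (g x y)))
          (sq_nonneg (F x - F y)))
        linarith
    have b2 := sum_le_sum fun x (_ : x ∈ univ) => sum_le_sum fun y (_ : y ∈ univ) => b1 x y
    simp only [sum_add_distrib, sum_ite_eq, mem_univ, if_true, ← sum_div] at b2
    rw [sum_comm (f := fun x y => k y * F y ^ 2 * (|g y x| * k x))] at b2
    simp only [mul_sum]
    linarith
  have h5 := sum_le_sum fun x (_ : x ∈ univ) => h3 x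
  rw [sum_add_distrib, ← sum_mul, ← hA] at h5
  have h6 : ∑ x, (k x * F x) ^ 2 ≤ m * A := by
    rw [hA, mul_sum]
    refine sum_le_sum fun x _ => ?_
    have := mul_le_mul_of_nonneg_right (hkm x) (mul_nonneg (hk0 x) (sq_nonneg (F x)))
    linarith
  have h7 := h.sq_le (z := fun x => k x * F x) (B := ((1 + g0) * m + γ * l) / c * A)
    (by rw [div_mul_eq_mul_div]; exact div_le_div_of_nonneg_right (by linarith) hc.le) F
  have e : ∑ x, k x * F x * F x = A := sum_congr rfl fun _ _ => by ring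
  rw [e] at h7
  rcases hA0.eq_or_lt with h8 | h8
  · rw [← h8]; exact mul_nonneg (by positivity) (h.nonneg F)
  · exact le_of_mul_le_mul_right (by linarith) h8

/-- Dirichlet form of a symmetric kernel on `S` -/
noncomputable def En (S : Finset T) (K : T → T → ℝ) (f : T → ℝ) : ℝ :=
  (∑ x ∈ S, ∑ y ∈ S, K x y * (f x - f y) ^ 2) / 2

omit [Fintype T] in
theorem En_eq {S : Finset T} {K : T → T → ℝ} (hs : ∀ x y, K x y = K y x) (f : T → ℝ) :
    En S K f = ∑ x ∈ S, (∑ y ∈ S.erase x, K x y) * f x ^ 2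
      - ∑ x ∈ S, ∑ y ∈ S.erase x, f x * K x y * f y := by
  have h1 : ∀ x ∈ S, (∑ y ∈ S.erase x, K x y) * f x ^ 2 - ∑ y ∈ S.erase x, f x * K x y * f y
      = ∑ y ∈ S, (K x y * f x ^ 2 - f x * K x y * f y) := fun x hx => by
    rw [← add_sum_erase _ _ hx, sum_sub_distrib, sum_mul]; ring
  have h2 : ∑ x ∈ S, ∑ y ∈ S, K x y * f y ^ 2 = ∑ x ∈ S, ∑ y ∈ S, K x y * f x ^ 2 := by
    rw [sum_comm]; exact sum_congr rfl fun x _ => sum_congr rfl fun y _ => by rw [hs]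
  have h3 : ∀ x y, K x y * (f x - f y) ^ 2
      = K x y * f x ^ 2 + K x y * f y ^ 2 - 2 * (f x * K x y * f y) := fun x y => by ring
  rw [← sum_sub_distrib, sum_congr rfl h1, En]
  simp only [h3, sum_sub_distrib, sum_add_distrib, ← mul_sum]
  linarith

omit [Fintype T] in
theorem En_single {S : Finset T} {K : T → T → ℝ} (hs : ∀ x y, K x y = K y x) {x : T} (hx : x ∈ S) :
    En S K (Pi.single x 1) = ∑ y ∈ S.erase x, K x y := by
  rw [En_eq hs, sum_eq_single x (by simp +contextual) (by simp [hx])]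
  have : ∑ u ∈ S, ∑ y ∈ S.erase u, (Pi.single x 1 : T → ℝ) u * K u y * (Pi.single x 1 : T → ℝ) y
      = 0 := sum_eq_zero fun u _ => sum_eq_zero fun y hy => by
    by_cases h : u = x
    · subst h; simp [(mem_erase.1 hy).1]
    · simp [h]
  rw [this]; simp

/-- lower bound for the form from (L), the variational bound and the control of the mass term -/
theorem Var.low {N Nm : (T → ℝ) → ℝ} {g : T → T → ℝ} {c θ ε : ℝ} (h : Var Nm g c) (hc : 0 < c)
    {S : Finset T} {K : T → T → ℝ} (hθ : θ ≤ 1) (hε : 0 ≤ ε)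
    (hm : ∀ F, Nm F ≤ (1 + ε) * N F + ε * ∑ x ∈ S, F x ^ 2)
    (hL : ∀ f, ∃ F, (∀ x ∈ S, F x = f x) ∧ (1 - θ) * N F ≤ En S K f) (f : T → ℝ) :
    (1 - θ) * ((c - ε) * ∑ x ∈ S, f x ^ 2 - c * ∑ x ∈ S, ∑ y ∈ S, f x * g x y * f y)
      ≤ (1 + ε) * En S K f := by
  obtain ⟨F, hF, h1⟩ := hL f
  have h2 := h (fun x => if x ∈ S then c * f x else 0) F
  have e1 : ∑ x, (if x ∈ S then c * f x else 0) * F x = c * ∑ x ∈ S, f x ^ 2 := by
    simp only [ite_mul, zero_mul, sum_ite_mem, univ_inter, mul_sum]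
    exact sum_congr rfl fun x hx => by rw [hF x hx]; ring
  have e2 : ∑ x, (if x ∈ S then c * f x else 0) ^ 2 = c * (c * ∑ x ∈ S, f x ^ 2) := by
    simp only [ite_pow, sum_ite_mem, univ_inter, mul_sum, zero_pow two_ne_zero]
    exact sum_congr rfl fun x _ => by ring
  have e3 : ∑ x, ∑ y, (if x ∈ S then c * f x else 0) * g x y * (if y ∈ S then c * f y else 0)
      = c * (c * ∑ x ∈ S, ∑ y ∈ S, f x * g x y * f y) := by
    simp only [ite_mul, zero_mul, mul_ite, mul_zero, sum_ite_mem, univ_inter, mul_sum]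
    rw [sum_comm]
    simp only [sum_ite_mem, univ_inter]
    rw [sum_comm]
    exact sum_congr rfl fun x _ => sum_congr rfl fun y _ => by ring
  rw [e1, e2, e3, ← mul_add, mul_div_cancel_left₀ _ hc.ne'] at h2
  have h3 := hm F
  rw [sum_congr rfl fun x hx => by rw [hF x hx]] at h3
  have h4 := mul_le_mul_of_nonneg_left (h2.trans h3) (sub_nonneg.2 hθ)
  have h5 := mul_le_mul_of_nonneg_left h1 (by linarith : 0 ≤ 1 + ε)
  linarith

/-- the hypotheses of PC, all small constants being bounded by `t` -/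
structure PCH (N Nm : (T → ℝ) → ℝ) (g : T → T → ℝ) (c t : ℝ) (S : Finset T) (K : T → T → ℝ) :
    Prop where
  var : Var Nm g c
  t0 : 0 ≤ t
  t1 : t ≤ 1 / 10
  c0 : 1 - t ≤ c
  c1 : c ≤ 1 + t
  diag : ∀ x ∈ S, g x x ≤ t
  symm : ∀ x y, K x y = K y x
  mass : ∀ F, Nm F ≤ (1 + t) * N F + t * ∑ x ∈ S, F x ^ 2
  up : ∀ x ∈ S, En S K (Pi.single x 1) ≤ (1 + t) * c
  low : ∀ f, ∃ F, (∀ x ∈ S, F x = f x) ∧ (1 - t) * N F ≤ En S K f

theorem PCH.aux {N Nm : (T → ℝ) → ℝ} {g K : T → T → ℝ} {c t : ℝ} {S : Finset T}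
    (h : PCH N Nm g c t S K) (f : T → ℝ)
    (hf : 0 ≤ ∑ x ∈ S, ∑ y ∈ S.erase x, f x * g x y * f y) :
    (1 - 5 * t) * ∑ x ∈ S, f x ^ 2 - 2 * ∑ x ∈ S, ∑ y ∈ S.erase x, f x * g x y * f y
      ≤ En S K f := by
  have t0 := h.t0
  have t1 := h.t1
  have c0 := h.c0
  have c1 := h.c1
  have h1 := h.var.low (by linarith) (by linarith) t0 h.mass h.low f
  have h2 : ∑ x ∈ S, ∑ y ∈ S, f x * g x y * f y
      ≤ t * ∑ x ∈ S, f x ^ 2 + ∑ x ∈ S, ∑ y ∈ S.erase x, f x * g x y * f y := by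
    rw [mul_sum, ← sum_add_distrib]
    refine sum_le_sum fun x hx => ?_
    rw [← add_sum_erase _ _ hx]
    have := mul_le_mul_of_nonneg_right (h.diag x hx) (sq_nonneg (f x))
    linarith
  have h3 : 0 ≤ ∑ x ∈ S, f x ^ 2 := sum_nonneg fun _ _ => sq_nonneg _
  generalize ∑ x ∈ S, f x ^ 2 = a at *
  generalize ∑ x ∈ S, ∑ y ∈ S.erase x, f x * g x y * f y = b at *
  have h4 := mul_le_mul_of_nonneg_left h2 (mul_nonneg (by linarith : 0 ≤ 1 - t) (by linarith : 0 ≤ c))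
  have h5 : (1 + t) * (1 - 5 * t) ≤ (1 - t) * (c - t) - (1 - t) * c * t := by
    have := mul_le_mul_of_nonneg_left c0 (sq_nonneg (1 - t))
    nlinarith [mul_nonneg t0 t0, mul_nonneg t0 (mul_nonneg t0 t0)]
  have h6 : (1 - t) * c ≤ (1 + t) * 2 := by nlinarith
  have h7 := mul_le_mul_of_nonneg_right h5 h3
  have h8 := mul_le_mul_of_nonneg_right h6 hf
  refine le_of_mul_le_mul_left ?_ (by linarith : 0 < 1 + t)
  linarith

/-- PC, degrees -/
theorem PCH.deg {N Nm : (T → ℝ) → ℝ} {g K : T → T → ℝ} {c t : ℝ} {S : Finset T}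
    (h : PCH N Nm g c t S K) {x : T} (hx : x ∈ S) :
    1 - 5 * t ≤ ∑ y ∈ S.erase x, K x y ∧ ∑ y ∈ S.erase x, K x y ≤ 1 + 3 * t := by
  have e : ∑ u ∈ S, ∑ y ∈ S.erase u, (Pi.single x 1 : T → ℝ) u * g u y * (Pi.single x 1 : T → ℝ) y
      = 0 := sum_eq_zero fun u _ => sum_eq_zero fun y hy => by
    by_cases h : u = x
    · subst h; simp [(mem_erase.1 hy).1]
    · simp [h]
  have h1 := h.aux (Pi.single x 1) e.ge
  have h2 := h.up x hx
  rw [e, sum_eq_single x (by simp +contextual) (by simp [hx])] at h1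
  rw [En_single h.symm hx] at h1 h2
  refine ⟨by simpa using h1, h2.trans ?_⟩
  nlinarith [h.t0, h.t1, h.c1]

/-- PC, the form of the kernel -/
theorem PCH.pc {N Nm : (T → ℝ) → ℝ} {g K : T → T → ℝ} {c t : ℝ} {S : Finset T}
    (h : PCH N Nm g c t S K) (f : T → ℝ)
    (hf : 0 ≤ ∑ x ∈ S, ∑ y ∈ S.erase x, f x * g x y * f y) :
    ∑ x ∈ S, ∑ y ∈ S.erase x, f x * K x y * f y
      ≤ 8 * t * ∑ x ∈ S, f x ^ 2 + 2 * ∑ x ∈ S, ∑ y ∈ S.erase x, f x * g x y * f y := by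
  have h1 := h.aux f hf
  rw [En_eq h.symm] at h1
  have h2 : ∑ x ∈ S, (∑ y ∈ S.erase x, K x y) * f x ^ 2 ≤ (1 + 3 * t) * ∑ x ∈ S, f x ^ 2 := by
    rw [mul_sum]
    exact sum_le_sum fun x hx => mul_le_mul_of_nonneg_right (h.deg hx).2 (sq_nonneg _)
  linarith

/-- the floor: off-diagonal form of `g` on functions supported in `A` -/
theorem off_le {g : T → T → ℝ} (S : Finset T) {A : Finset T} {γ l : ℝ} {u : T → ℝ} (hγ : 0 ≤ γ)
    (hl : 0 ≤ l) (hu : ∀ x ∉ A, u x = 0) (h2 : ∑ x, u x ^ 2 ≤ l ^ 2)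
    (hr : ∀ x ∈ A, ∑ y ∈ A.erase x, g x y ^ 2 ≤ γ ^ 2) :
    ∑ x ∈ S, ∑ y ∈ S.erase x, u x * g x y * u y ≤ γ * l * ∑ x, |u x| := by
  refine le_trans (sum_le_sum fun x _ => ?_) ((sum_le_sum_of_subset_of_nonneg (subset_univ S)
    fun x _ _ => mul_nonneg (mul_nonneg hγ hl) (abs_nonneg (u x))).trans_eq (mul_sum _ _ _).symm)
  by_cases hx : x ∈ A
  · have a2 := mul_le_mul_of_nonneg_left (row_cs hγ hl hu h2 (hr x hx)) (abs_nonneg (u x))
    rw [mul_comm (γ * l)]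
    refine le_trans ?_ a2
    rw [mul_sum]
    refine (sum_le_sum fun y _ => (le_abs_self _).trans_eq
      (by rw [abs_mul, abs_mul, mul_assoc])).trans (sum_le_sum_of_subset_of_nonneg
        (erase_subset_erase x (subset_univ S)) fun y _ _ => by positivity)
  · simp [hu x hx]

end Pool.Agent.P.MP_d0f69c_mp.XS
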