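import Pool.Agent.P.MP_d0f69c_mp.XS.Loc

/-!
The sup distance on the discrete torus.
-/

set_option autoImplicit false

namespace Pool.Agent.P.MP_d0f69c_mp.XS

open Finset

variable {d M : ℕ}

/-- sup norm on the torus -/
def tn (d M : ℕ) (x : Fin d → ZMod M) : ℕ := univ.sup fun i => (x i).valMinAbs.natAbs

theorem tn_le {x : Fin d → ZMod M} {r : ℕ} : tn d M x ≤ r ↔ ∀ i, (x i).valMinAbs.natAbs ≤ r := by
  simp [tn]

theorem le_tn (x : Fin d → ZMod M) (i : Fin d) : (x i).valMinAbs.natAbs ≤ tn d M x :=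
  tn_le.1 le_rfl i

theorem natAbs_vma_le (a : ZMod M) (z : ℤ) (h : (z : ZMod M) = a) :
    a.valMinAbs.natAbs ≤ z.natAbs := by
  have h1 := ZMod.natAbs_min_of_le_div_two M a.valMinAbs z (by simp [h])
  rcases Nat.eq_zero_or_pos M with rfl | hM
  · subst h; exact le_rfl
  · have : NeZero M := ⟨hM.ne'⟩
    exact h1 (ZMod.natAbs_valMinAbs_le a)

theorem tn_NG (d M : ℕ) : NG (tn d M) where
  zero := Nat.eq_zero_of_le_zero (tn_le.2 fun i => by simp)
  neg := fun x => by simp only [tn, Pi.neg_apply, ZMod.natAbs_valMinAbs_neg]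
  add := fun x y => tn_le.2 fun i =>
    ((natAbs_vma_le _ ((x i).valMinAbs + (y i).valMinAbs) (by simp)).trans
      (Int.natAbs_add_le _ _)).trans (add_le_add (le_tn x i) (le_tn y i))

theorem tn_eq_zero {x : Fin d → ZMod M} (h : tn d M x = 0) : x = 0 := funext fun i => by
  have := le_tn x i
  rw [h, Nat.le_zero, Int.natAbs_eq_zero, ZMod.valMinAbs_eq_zero] at this
  exact this

theorem tn_single (i : Fin d) : tn d M (Pi.single i 1) ≤ 1 := tn_le.2 fun j => by
  by_cases h : j = i
  · subst h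
    simpa using natAbs_vma_le (1 : ZMod M) 1 (by simp)
  · simp [h]

variable [NeZero M]

theorem tn_le_half (x : Fin d → ZMod M) : tn d M x ≤ M / 2 :=
  tn_le.2 fun _ => ZMod.natAbs_valMinAbs_le _

theorem card_seg (r : ℕ) :
    (univ.filter fun a : ZMod M => a.valMinAbs.natAbs ≤ r).card = min (2 * r + 1) M := by
  rcases le_total M (2 * r + 1) with h | h
  · rw [min_eq_right h, filter_true_of_mem, card_univ, ZMod.card]
    intro a _
    have := ZMod.natAbs_valMinAbs_le a
    omega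
  · rw [min_eq_left h]
    have e : (Icc (-(r : ℤ)) r).card = 2 * r + 1 := by rw [Int.card_Icc]; omega
    rw [← e]
    refine card_bij (fun a _ => a.valMinAbs) (fun a ha => ?_)
      (fun a _ b _ e => ZMod.injective_valMinAbs e) fun z hz => ?_
    · have := (mem_filter.1 ha).2
      rw [mem_Icc]; omega
    · have h1 := mem_Icc.1 hz
      have h2 : (z : ZMod M).valMinAbs = z :=
        (ZMod.valMinAbs_spec _ _).2 ⟨rfl, by omega, by omega⟩
      exact ⟨z, mem_filter.2 ⟨mem_univ _, by rw [h2]; omega⟩, h2⟩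

theorem vol_tn (r : ℕ) : vol (tn d M) r = min (2 * r + 1) M ^ d := by
  have : ball (tn d M) 0 r =
      Fintype.piFinset fun _ => univ.filter fun a : ZMod M => a.valMinAbs.natAbs ≤ r := by
    ext x
    simp [mem_ball, tn_le]
  rw [vol, this, Fintype.card_piFinset_const, card_seg]

theorem vol_tn_le (r : ℕ) : vol (tn d M) r ≤ (2 * r + 1) ^ d := by
  rw [vol_tn]; exact Nat.pow_le_pow_left (min_le_left _ _) d

theorem ball_tn_univ {r : ℕ} (h : M ≤ 2 * r + 1) (p : Fin d → ZMod M) :
    ball (tn d M) p r = univ :=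
  eq_univ_of_forall fun x => mem_ball.2 (by have := tn_le_half (x - p); omega)

/-- volume growth -/
theorem vol_tn_ratio {r s : ℕ} {c : ℝ} (hc : 1 ≤ c) (h : (2 * s + 1 : ℝ) ≤ c * (2 * r + 1)) :
    (vol (tn d M) s : ℝ) ≤ c ^ d * vol (tn d M) r := by
  rw [vol_tn, vol_tn]
  push_cast
  rw [← mul_pow]
  refine pow_le_pow_left₀ (by positivity) ?_ d
  rcases le_total (2 * r + 1 : ℝ) M with h1 | h1
  · rw [min_eq_left h1]; exact (min_le_left _ _).trans h
  · rw [min_eq_right h1]
    exact (min_le_right _ _).trans (le_mul_of_one_le_left (Nat.cast_nonneg _) hc)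

/-- thin shells cost only a constant -/
theorem vol_tn_shell {R D k : ℕ} (h : d * D ≤ R) :
    (vol (tn d M) (R + k * D) : ℝ) ≤ Real.exp k * vol (tn d M) R := by
  rcases Nat.eq_zero_or_pos d with rfl | hd
  · rw [vol_tn, vol_tn]; simp
  have hd' : (0 : ℝ) < d := by exact_mod_cast hd
  have h' : (d : ℝ) * D ≤ R := by exact_mod_cast h
  have h1 : (0 : ℝ) ≤ k / d := by positivity
  refine (vol_tn_ratio (r := R) (c := 1 + k / d) (by linarith) ?_).trans
    (mul_le_mul_of_nonneg_right ?_ (Nat.cast_nonneg _))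
  · have : (k : ℝ) * D ≤ k / d * R := by
      rw [div_mul_eq_mul_div, le_div_iff₀ hd']
      nlinarith [mul_le_mul_of_nonneg_left h' (Nat.cast_nonneg k : (0 : ℝ) ≤ k)]
    push_cast
    nlinarith
  · calc (1 + (k : ℝ) / d) ^ d ≤ Real.exp (k / d) ^ d :=
          pow_le_pow_left₀ (by linarith) (by linarith [Real.add_one_le_exp ((k : ℝ) / d)]) d
      _ = Real.exp k := by rw [← Real.exp_nat_mul]; congr 1; field_simp

end Pool.Agent.P.MP_d0f69c_mp.XS
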