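import Pool.Agent.P.MP_d0f69c_mp.XS.EndG
import Pool.Agent.P.MP_d0f69c_mp.XS.Form
import Pool.Agent.P.MP_d0f69c_mp.XS.Disc
import Pool.Agent.P.MP_d0f69c_mp.XS.Torus

/-!
Definitions for the revealing process (plan version 2).
-/

set_option autoImplicit false
set_option linter.dupNamespace false

open Finset Real
open scoped Matrix

namespace Pool.Agent.P.MP_d0f69c_mp.XS

/-! ### probability on finite types -/

/-- uniform average -/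
noncomputable def av {α : Type} [Fintype α] (f : α → ℝ) : ℝ := (∑ x, f x) / Fintype.card α

open Classical in
/-- uniform probability -/
noncomputable def pr {α : Type} [Fintype α] (A : α → Prop) : ℝ :=
  (#{x | A x} : ℝ) / Fintype.card α

/-! ### forms and matrices on a finite set -/

section generic

variable {ι : Type} [Fintype ι] [DecidableEq ι]

/-- the sign attached to a coin -/
noncomputable def sgn (b : Bool) : ℂ := if b then 1 else -1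

/-- strength of the lead at `x` -/
noncomputable def aw (η : ℝ) (W : ι → ℂ) (x : ι) : ℝ := -(W x).im / η

/-- conductances -/
noncomputable def Kk (η : ℝ) (W : ι → ℂ) (G : Matrix ι ι ℂ) (x y : ι) : ℝ :=
  aw η W x * aw η W y * ‖G x y‖ ^ 2

/-- one step of a network reduction, with error functional `Er` -/
def FS (O : Finset ι) (K : ι → ι → ℝ) (O' : Finset ι) (K' : ι → ι → ℝ) (Er : (ι → ℝ) → ℝ) : Prop :=
  O' ⊆ O ∧ (∀ F, En O' K' F ≤ En O K F + Er F) ∧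
    ∀ f : ι → ℝ, ∃ g : ι → ℝ, (∀ x ∈ O', g x = f x) ∧
      ∀ F : ι → ℝ, (∀ x ∈ O, F x = g x) → En O K F - Er F ≤ En O' K' f

/-- the tuning function -/
noncomputable def phi (s : ℂ) : ℂ := s / (s ^ 2 - 1)

/-- the retarded-retarded matrix -/
noncomputable def Am (W : ι → ℂ) (G : Matrix ι ι ℂ) (x y : ι) : ℂ :=
  if x = y then 1 / (1 - W x ^ 2) ^ 2 else -G x y ^ 2

/-- `A'` on `S'` is the Schur complement of `A + Y` on `S` -/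
def RS (S : Finset ι) (A : ι → ι → ℂ) (S' : Finset ι) (A' Y : ι → ι → ℂ) : Prop :=
  S' ⊆ S ∧ ∀ u : ι → ℂ, ∃ w : ι → ℂ, (∀ x ∈ S', w x = u x ∧ ap S (A + Y) w x = ap S' A' u x) ∧
    ∀ x ∈ S, x ∉ S' → ap S (A + Y) w x = 0

/-- the compression of the kernel `Y` to `S` has operator norm at most `r` -/
def OpLe (S : Finset ι) (Y : ι → ι → ℂ) (r : ℝ) : Prop := ∀ u, nS S (ap S Y u) ≤ r * nS S u

/-- close the sites of `X` by their signs -/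
noncomputable def Wc (W : ι → ℂ) (ω : ι → Bool) (X : Finset ι) (x : ι) : ℂ :=
  if x ∈ X then sgn (ω x) else W x

/-- new conductance minus the star-mesh conductance, when `v` is closed with the sign `b` -/
noncomputable def dK (η : ℝ) (H : Matrix ι ι ℝ) (W : ι → ℂ) (v : ι) (b : Bool) (x y : ι) : ℝ :=
  Kk η (Function.update W v (sgn b)) (NW.GG H (Function.update W v (sgn b))) x y -
    (Kk η W (NW.GG H W) x y + Kk η W (NW.GG H W) x v * Kk η W (NW.GG H W) v y /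
      ∑ z ∈ univ.erase v, Kk η W (NW.GG H W) v z)

/-- new retarded-retarded matrix minus the Schur complement of the old one -/
noncomputable def dA (H : Matrix ι ι ℝ) (W : ι → ℂ) (v : ι) (b : Bool) (x y : ι) : ℂ :=
  Am (Function.update W v (sgn b)) (NW.GG H (Function.update W v (sgn b))) x y -
    (Am W (NW.GG H W) x y - Am W (NW.GG H W) x v * Am W (NW.GG H W) v y / Am W (NW.GG H W) v v)

/-- an injective key that refines the priorities `w` -/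
noncomputable def ky {K : ℕ} (w : ι → Fin K) (x : ι) : ℕ :=
  (w x : ℕ) * Fintype.card ι + (Fintype.equivFin ι x : ℕ)

/-- the sites of `Z` with key below `t` -/
def pre (κ : ι → ℕ) (Z : Finset ι) (t : ℕ) : Finset ι := Z.filter fun x => κ x < t

/-- labels of events: round, type, location -/
abbrev Lab (ι : Type) := ℕ × Fin 5 × ι

/-- site variables -/
abbrev Cfg (ι : Type) (N : ℕ) := ι → Bool × Fin N

/-- states of the process -/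
structure St (ι : Type) where
  H : Matrix ι ι ℝ
  W : ι → ℂ
  good : Finset ι
  omg : Finset ι
  junk : Finset ι
  sig : Finset ι
  sp : Finset ι
  ev : Finset (Lab ι)

/-- the Green function of a state -/
noncomputable def St.G (S : St ι) : Matrix ι ι ℂ := NW.GG S.H S.W

/-- open sites -/
def St.O (S : St ι) : Finset ι := S.good ∪ S.omg ∪ S.junk

/-- unrevealed sites -/
def St.U (S : St ι) : Finset ι := S.good ∪ S.omg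

/-- rows of the first family -/
def St.rowA (S : St ι) (fin : Bool) : Finset ι := if fin then S.good else S.good ∪ S.omg

/-- the good sites of `J` become junk -/
def St.freeze (S : St ι) (J : Finset ι) : St ι :=
  { S with good := S.good \ J, junk := S.junk ∪ S.good ∩ J }

/-- a random map of states, with its own finite tape -/
structure Stage (ι : Type) (N : ℕ) where
  A : Type
  fA : Fintype A
  nA : Nonempty A
  run : St ι → Cfg ι N → A → St ι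

attribute [instance] Stage.fA Stage.nA

/-- the output does not look at the variables that it declares unrevealed -/
def Stage.Causal {N : ℕ} (st : Stage ι N) : Prop :=
  ∀ S ϖ α, (st.run S ϖ α).U ⊆ S.U ∧
    ∀ ϖ', (∀ y ∉ (st.run S ϖ α).U, ϖ' y = ϖ y) → st.run S ϖ' α = st.run S ϖ α

/-- events are only added, and carry the round `s` and a type in `T` -/
def Stage.Tag {N : ℕ} (st : Stage ι N) (s : ℕ) (T : Finset (Fin 5)) : Prop :=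
  ∀ S ϖ α, S.ev ⊆ (st.run S ϖ α).ev ∧
    ∀ ℓ ∈ (st.run S ϖ α).ev, ℓ ∉ S.ev → ℓ.1 = s ∧ ℓ.2.1 ∈ T

end generic

/-! ### the torus -/

/-- the discrete torus -/
abbrev Tor (d M : ℕ) := Fin d → ZMod M

variable {d M : ℕ}

/-- sup norm -/
abbrev nm (x : Tor d M) : ℕ := tn d M x

variable [NeZero M]

/-- ball -/
abbrev bl (p : Tor d M) (r : ℕ) : Finset (Tor d M) := ball (tn d M) p r

/-- number of points of a ball -/
abbrev vl (d M : ℕ) [NeZero M] (r : ℕ) : ℕ := vol (tn d M) r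

/-- the points of `I` are more than `r` apart -/
def Sep (I : Finset (Tor d M)) (r : ℕ) : Prop := ∀ x ∈ I, ∀ y ∈ I, x ≠ y → r < nm (x - y)

/-- reference form with a small mass -/
noncomputable def Nm (p F : Tor d M → ℝ) : ℝ := NF p F + (∑ x, F x ^ 2) / (M : ℝ) ^ 2

/-- two-sided comparison with the Schur complement of the reference form -/
def UL (p : Tor d M → ℝ) (K : Tor d M → Tor d M → ℝ) (O : Finset (Tor d M)) (θ : ℝ) : Prop :=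
  (∀ F, En O K F ≤ (1 + θ) * NF p F) ∧
    ∀ f : Tor d M → ℝ, ∃ F : Tor d M → ℝ, (∀ x ∈ O, F x = f x) ∧ (1 - θ) * NF p F ≤ En O K f

/-- exponential decay of the rows in `O` -/
def Dec (G : Matrix (Tor d M) (Tor d M) ℂ) (O : Finset (Tor d M)) (B : ℝ) (l : ℕ) : Prop :=
  ∀ x ∈ O, ∀ z, ‖G x z‖ ≤ B * exp (-(nm (x - z) : ℝ) / l)

/-- what lies beyond the distance `D` is negligible -/
def Far (d M : ℕ) [NeZero M] (B : ℝ) (l D : ℕ) (τ : ℝ) : Prop :=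
  ∑ z : Tor d M with D < nm z, B * exp (-(nm z : ℝ) / (2 * l)) * (1 + nm z) ^ 2 ≤ τ

/-- the properties of the reference form -/
structure RefOK (p gt : Tor d M → ℝ) (l0 : ℕ) (CS γ0 : ℝ) : Prop where
  p0 : ∀ x, 0 ≤ p x
  pe : ∀ x, p (-x) = p x
  g0 : ∀ x, 0 ≤ gt x
  ge : ∀ x, gt (-x) = gt x
  tot : |∑ x ∈ univ.erase 0, p x - 1| ≤ 1 / 10 ^ 8
  var : ∃ c, |c - 1| ≤ 1 / 10 ^ 7 ∧ Var (Nm p) (fun x y => gt (x - y)) c
  gam : ∑ x, gt x ^ 2 ≤ γ0 ^ 2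
  shift : ∀ (h : Tor d M) (F : Tor d M → ℝ),
    ∑ x, (F (x + h) - F x) ^ 2 ≤ CS * (1 + (nm h : ℝ) ^ 2 / (l0 : ℝ) ^ 2) * NF p F
  mom : ∑ h, p h * (nm h : ℝ) ^ 2 ≤ CS * (l0 : ℝ) ^ 2
  l1 : 1 ≤ l0
  c1 : 1 ≤ CS

/-- the data that are fixed during the process -/
structure Env (d M : ℕ) where
  H : Matrix (Tor d M) (Tor d M) ℝ
  Ω : Finset (Tor d M)
  σ : ℂ
  N : ℕ
  η : ℝ
  p : Tor d M → ℝ
  gt : Tor d M → ℝ
  l0 : ℕ
  CS : ℝ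
  γ0 : ℝ
  rH : ℕ
  ρ1 : ℕ
  ρs : ℕ

structure Env.OK (E : Env d M) : Prop where
  d1 : 1 ≤ d
  symm : ∀ x y, E.H x y = E.H y x
  rng : ∀ x y, E.H x y ≠ 0 → nm (x - y) ≤ E.rH
  row : ∀ x, ∑ y, |E.H x y| ≤ 1 / E.η ^ 3
  adm : Adm E.H E.σ E.N
  N0 : E.N ≠ 0
  s1 : ‖E.σ‖ ≤ 1
  η0 : 0 < E.η
  η1 : E.η ≤ 1 / 10 ^ 8
  ref : RefOK E.p E.gt E.l0 E.CS E.γ0
  γ00 : 0 ≤ E.γ0
  γ01 : E.γ0 ≤ E.η
  sep : ∀ x ∈ E.Ω, ∀ y ∈ E.Ω, x ≠ y → E.ρ1 ≤ nm (x - y)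
  mass : 10 ^ 10 * (vl d M E.ρs : ℝ) * E.CS * (1 + (E.ρs : ℝ) ^ 2) ≤ (M : ℝ) ^ 2

/-- every site is near an open lead -/
def Cover (E : Env d M) (A : Finset (Tor d M)) : Prop := ∀ x, ∃ o ∈ A, nm (x - o) ≤ E.ρs

/-- `A` is the unit matrix outside `J × J`, has a short range and a bounded operator norm -/
structure Blk (J : Finset (Tor d M)) (r : ℕ) (Λ : ℝ) (A : Matrix (Tor d M) (Tor d M) ℝ) : Prop where
  off : ∀ x y, x ∉ J ∨ y ∉ J → A x y = if x = y then 1 else 0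
  rng : ∀ x y, A x y ≠ 0 → nm (x - y) ≤ r
  row : ∀ u : Tor d M → ℝ, ∑ x, (A *ᵥ u) x ^ 2 ≤ Λ ^ 2 * ∑ x, u x ^ 2
  col : ∀ u : Tor d M → ℝ, ∑ x, (Aᵀ *ᵥ u) x ^ 2 ≤ Λ ^ 2 * ∑ x, u x ^ 2

/-- the hopping matrix `H'` of a state is congruent to the true one up to a term on the junk `J`
(for small coupling `U = V = Y = 1` and `H' = E.H`) -/
def Phys (E : Env d M) (H' : Matrix (Tor d M) (Tor d M) ℝ) (J : Finset (Tor d M)) : Prop :=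
  ∃ U V Y : Matrix (Tor d M) (Tor d M) ℝ, Blk J E.rH (1 / E.η) U ∧ Blk J E.rH (1 / E.η) V ∧
    Blk J E.rH (1 / E.η) Y ∧ U * V = 1 ∧ Yᵀ = Y ∧ H' = Uᵀ * (E.H + (Y - 1)) * U

/-- closed sites carry their true values -/
def Cons (E : Env d M) (S : St (Tor d M)) (ϖ : Cfg (Tor d M) E.N) : Prop :=
  ∀ x ∉ S.O, S.W x = Wt E.σ E.Ω ϖ x

/-- the numbers in the invariant -/
structure Bd where
  θ : ℝ
  mis : ℝ
  aA : ℝ
  aB : ℝ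
  nA : ℝ
  nB : ℝ
  gs : ℝ
  B : ℝ
  l : ℕ
  fin : Bool
  chk : Bool

/-- the invariant -/
structure Inv (E : Env d M) (b : Bd) (S : St (Tor d M)) : Prop where
  go : Disjoint S.good S.omg
  gj : Disjoint S.good S.junk
  oj : Disjoint S.omg S.junk
  oΩ : S.omg ⊆ E.Ω
  gΩ : Disjoint S.good E.Ω
  phys : Phys E S.H S.junk
  opn : ∀ x ∈ S.O, ‖S.W x‖ ≤ b.θ ∧ |aw E.η S.W x - 1| ≤ b.θ
  cls : ∀ x ∉ S.O, S.W x = 1 ∨ S.W x = -1 ∨ ∃ k : Fin E.N, S.W x = val E.σ E.N k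
  oW : ∀ x ∈ S.omg, S.W x = E.σ
  mis : ∀ x ∈ S.good, ‖S.G x x - phi (S.W x)‖ ≤ b.mis
  ampA : ∀ x ∈ S.rowA b.fin, ∀ y ∈ S.good, x ≠ y → ‖S.G x y‖ ^ 2 ≤ b.aA
  ampB : b.chk = true → ∀ x ∈ S.O \ S.rowA b.fin, ∀ y ∈ S.good, ‖S.G x y‖ ^ 2 ≤ b.aB
  lA : ∀ x ∈ S.rowA b.fin, ∑ y ∈ S.good.erase x, ‖S.G x y‖ ^ 4 ≤ b.nA
  lB : b.chk = true → ∀ x ∈ S.O \ S.rowA b.fin, ∑ y ∈ S.good, ‖S.G x y‖ ^ 4 ≤ b.nB
  ul : UL E.p (Kk E.η S.W S.G) S.O b.θ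
  rr : Disc S.good (Am S.W S.G) b.θ
  gs : ∀ y ∈ S.good, ∑ v ∈ S.good.erase y, E.gt (y - v) ^ 2 ≤ b.gs
  dec : Dec S.G S.O b.B b.l
  cov : S.good = ∅ ∨ Cover E S.omg

/-! ### parameters of a round -/

structure Par where
  P : ℕ
  e : ℝ
  μJ : ℝ
  θ : ℝ
  ζ : ℝ
  B : ℝ
  l : ℕ
  start : Bool
  fin : Bool
  last : Bool

namespace Par

variable (q : Par) (η : ℝ)

noncomputable def μ : ℝ := q.e ^ 200
noncomputable def n : ℝ := (q.P : ℝ) ^ 20 * q.μ ^ 2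
noncomputable def nJ : ℝ := (q.P : ℝ) ^ 20 * q.μJ ^ 2
/-- growth of the decay length in one step -/
noncomputable def Lg : ℕ := q.P ^ 60 * ⌈1 / η⌉₊ ^ 2
noncomputable def li (i : ℕ) : ℕ := q.Lg η ^ i * q.l
noncomputable def D (i : ℕ) : ℕ := q.P ^ 8 * q.li η i
/-- radius of the averaging balls of the closing phase -/
noncomputable def A (d : ℕ) : ℕ := d * q.D η 2
noncomputable def Bi (i : ℕ) : ℝ := q.B * exp (20 * (q.P : ℝ) ^ 3) ^ i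
noncomputable def τ : ℝ := exp (-(q.P : ℝ) ^ 7)
/-- radius that bounds the influence of an event of the round -/
noncomputable def rad : ℕ := 20 * q.D η 3
/-- healing is switched on -/
def late : Prop := q.fin = false ∧ q.e ≤ η / (q.P : ℝ) ^ 20
noncomputable def misIn : ℝ := √(η * q.μ) / (q.P : ℝ) ^ 10
open Classical in
noncomputable def misOut : ℝ :=
  41 * q.μ * (q.P : ℝ) ^ 39 + if q.late η then 10 * q.e ^ 120 else 0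

/-- after the classification -/
noncomputable def bIn : Bd :=
  ⟨q.θ, q.misIn η, q.μ / 2, q.ζ ^ 2 * q.μJ, q.n / 2, q.nJ / 2, q.μ ^ 2, q.B, q.l, q.fin, true⟩
/-- at the start of the round -/
noncomputable def bPre : Bd :=
  if q.start then { q.bIn η with fin := false, chk := false } else q.bIn η
/-- after the Newton step -/
noncomputable def b1 : Bd :=
  ⟨q.θ + 1 / (q.P : ℝ) ^ 3, q.μ, 3 / 5 * q.μ, (q.ζ + 1 / (q.P : ℝ) ^ 3) ^ 2 * q.μJ, 3 / 5 * q.n,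
    3 / 5 * q.nJ, q.μ ^ 2, q.Bi 1, q.li η 1, q.fin, true⟩
/-- after the closing phase -/
noncomputable def b2 : Bd :=
  ⟨q.θ + 5 / (q.P : ℝ) ^ 3, 41 * q.μ * (q.P : ℝ) ^ 39, q.μ / 7,
    (q.ζ + 2 / (q.P : ℝ) ^ 3) ^ 2 * q.μJ, q.n / 14, q.nJ / 14, q.μ ^ 2 / 4, q.Bi 2, q.li η 2,
    q.fin, true⟩
/-- after the healing -/
noncomputable def b3 : Bd :=
  ⟨q.θ + 9 / (q.P : ℝ) ^ 3, q.misOut η, q.μ / 4, (q.ζ + 3 / (q.P : ℝ) ^ 3) ^ 2 * q.μJ, q.n / 8,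
    q.nJ / 2, q.μ ^ 2 / 4, q.Bi 3, q.li η 3, q.fin, true⟩

structure OK (E : Env d M) : Prop where
  P1 : 10 ^ 9 * (d : ℝ) ^ 2 * E.CS ^ 2 ≤ q.P
  e0 : 0 < q.e
  J1 : 16 * q.μ ≤ q.μJ
  J2 : q.μJ ≤ E.η / (q.P : ℝ) ^ 200
  μ1 : exp (-(q.P : ℝ)) ≤ q.μ
  η1 : exp (-(q.P : ℝ)) ≤ E.η
  θ0 : 0 ≤ q.θ
  θ1 : q.θ + 1 / (q.P : ℝ) ^ 2 ≤ 1 / 10 ^ 7
  ζ0 : 1 / 2 ≤ q.ζ
  ζ1 : q.ζ + 1 / (q.P : ℝ) ^ 2 ≤ 3 / 4
  B0 : 1 ≤ q.B
  B1 : q.Bi 3 ≤ exp ((q.P : ℝ) ^ 6)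
  l0 : E.l0 ≤ q.l
  l1 : E.rH ≤ q.l
  vf : q.fin = true → M ≤ q.l ∧ (M : ℝ) ^ d ≤ exp ((q.P : ℝ) ^ 2)
  vj : q.fin = false → (200 * q.D E.η 3 + 1 : ℝ) ^ (d + 2) ≤ exp ((q.P : ℝ) ^ 2) ∧
    100 * q.D E.η 3 ≤ E.ρ1
  tail : ∑ x with q.D E.η 1 < nm x, E.gt x ^ 2 ≤ q.μ ^ 2 / (q.P : ℝ) ^ 5
  lst : q.last = true → (M : ℝ) ^ d * q.μ ≤ 1 / 100

/-- `q'` can follow `q` -/
structure Next (q' : Par) : Prop where
  μ : q'.μ = q.μ / 2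
  P : q.P ≤ q'.P
  θ : q.θ + 1 / (q.P : ℝ) ^ 2 ≤ q'.θ
  B : q.Bi 3 ≤ q'.B
  l : q.li η 3 ≤ q'.l
  mis : q.misOut η ≤ q'.misIn η
  same : q'.start = false → q'.μJ = q.μJ ∧ q.ζ + 1 / (q.P : ℝ) ^ 2 ≤ q'.ζ ∧ q'.fin = q.fin
  new : q'.start = true → q.fin = false

end Par

open Classical in
/-- amplitude scale of the row `x` -/
noncomputable def μr (q : Par) (S : St (Tor d M)) (x : Tor d M) : ℝ :=
  if x ∈ S.rowA q.fin then q.μ else q.μJ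

/-- the properties of the selected survivors `S.sig` -/
structure Sel (E : Env d M) (q : Par) (S : St (Tor d M)) : Prop where
  sg : S.sig ⊆ S.good
  sj : S.sp ⊆ S.junk
  amp : ∀ x ∈ S.rowA q.fin \ (S.good \ S.sig), ∀ y ∈ S.sig, x ≠ y → ‖S.G x y‖ ^ 2 ≤ q.μ / 8
  asp : ∀ x ∈ S.sp, ∀ y ∈ S.sig, ‖S.G x y‖ ^ 2 ≤ q.e ^ 190 / 4
  l4 : ∀ x ∈ S.O, ∑ y ∈ S.sig.erase x, ‖S.G x y‖ ^ 4 ≤ (q.P : ℝ) ^ 20 * μr q S x ^ 2 / 32
  keep : ∀ x ∈ S.good, 1 / (q.P : ℝ) ^ 25 ≤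
    ∑ z ∈ (S.O \ (S.good \ S.sig)).erase x, aw E.η S.W z * ‖S.G x z‖ ^ 2
  gs : ∀ y ∈ S.sig, ∑ v ∈ S.sig.erase y, E.gt (y - v) ^ 2 ≤ q.μ ^ 2 / 4
  lst : q.last = true → S.sig = ∅

/-- the junk near `x` is a small isolated cluster -/
def Iso (E : Env d M) (q : Par) (J : Finset (Tor d M)) (x : Tor d M) (r : ℕ) : Prop :=
  (∀ y ∈ J, nm (y - x) ≤ r → nm (y - x) ≤ q.D E.η 2) ∧
    ((J ∩ bl x (q.D E.η 2)).card : ℝ) ≤ 1 / q.e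

/-- the event of the site variables that is implied by an aborted healing -/
def Wev (E : Env d M) (q : Par) (c : Tor d M) (ϖ : Cfg (Tor d M) E.N) : Prop :=
  Reso E.H E.σ E.Ω (bl 0 (q.D E.η 3)) (exp (-3 * (q.P : ℝ) ^ 3)) c ϖ ∨
    ∃ o ∈ E.Ω, nm (o - c) ≤ q.D E.η 3 ∧ exp (2 * (q.P : ℝ) ^ 3) ≤ ‖val E.σ E.N (ϖ o).2 - E.σ‖

/-- an event of the round `s` within the distance `r` of `x` -/
def NewEv (s : ℕ) (S' : St (Tor d M)) (x : Tor d M) (r : ℕ) : Prop :=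
  ∃ ℓ ∈ S'.ev, ℓ.1 = s ∧ ℓ.2.1 ≠ 4 ∧ nm (ℓ.2.2 - x) ≤ r

/-- joint bound for the new events of type `i` at separated places, under resampling of the
unrevealed variables -/
def EB (E : Env d M) (st : Stage (Tor d M) E.N) (Pre : St (Tor d M) → Prop) (s : ℕ) (i : Fin 5)
    (r : ℕ) (a : ℝ) : Prop :=
  ∀ S, Pre S → ∀ (ϖ : Cfg (Tor d M) E.N) (I : Finset (Tor d M)), Sep I (2 * r) →
    pr (fun z : Cfg (Tor d M) E.N × st.A => ∀ x ∈ I,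
      (s, i, x) ∈ (st.run S (mix S.U z.1 ϖ) z.2).ev ∧ (s, i, x) ∉ S.ev) ≤ exp (-a) ^ I.card

/-- what every random stage of round `s` satisfies: `Pre` and `Post` are the invariants, `T` the
types of its events, junk is old (`Src`) or lies within `r` of a new event, leads are lost only
within `ro` of junk or of a new event -/
structure Spec (E : Env d M) (q : Par) (s : ℕ) (st : Stage (Tor d M) E.N)
    (Pre Post : St (Tor d M) → Prop) (T : Finset (Fin 5)) (Src : St (Tor d M) → Tor d M → Prop)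
    (r ro : ℕ) : Prop where
  causal : st.Causal
  tag : st.Tag s T
  post : ∀ S ϖ α, Pre S → Post (st.run S ϖ α)
  cons : ∀ S ϖ α, Pre S → Cons E S ϖ → Cons E (st.run S ϖ α) ϖ
  sub : ∀ S ϖ α, Pre S → (st.run S ϖ α).good ⊆ S.good ∧ (st.run S ϖ α).omg ⊆ S.omg ∧
    (st.run S ϖ α).O ⊆ S.O
  eb : ∀ i ∈ T, i ≠ 3 → EB E st Pre s i (q.rad E.η) ((q.P : ℝ) ^ 3)
  wev : ∀ S ϖ α c, Pre S → Cons E S ϖ → (s, 3, c) ∈ (st.run S ϖ α).ev → (s, 3, c) ∉ S.ev →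
    q.late E.η ∧ Wev E q c ϖ
  junk : ∀ S ϖ α, Pre S → Cover E (st.run S ϖ α).omg → ∀ x ∈ (st.run S ϖ α).junk,
    Src S x ∨ NewEv s (st.run S ϖ α) x r
  omg : ∀ S ϖ α, Pre S → Cover E S.omg → ∀ o ∈ S.omg, o ∉ (st.run S ϖ α).omg →
    (∃ y ∈ S.junk, nm (y - o) ≤ ro) ∨ NewEv s (st.run S ϖ α) o ro

/-! ### the closing flow of one finite system -/

/-- noise of the Dirichlet form when `v` is closed, restricted to the ball of radius `D` -/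
noncomputable def Y5 (η : ℝ) (H : Matrix (Tor d M) (Tor d M) ℝ) (W : Tor d M → ℂ) (D : ℕ)
    (v : Tor d M) (b : Bool) (F : Tor d M → ℝ) : ℝ :=
  En ((bl v D).erase v) (dK η H W v b) F

/-- noise of the retarded-retarded matrix on `T` when `v` is closed, restricted to the ball of
radius `D` -/
noncomputable def Y6 (H : Matrix (Tor d M) (Tor d M) ℝ) (W : Tor d M → ℂ) (T : Finset (Tor d M))
    (D : ℕ) (v : Tor d M) (b : Bool) (x y : Tor d M) : ℂ :=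
  if x ∈ (T ∩ bl v D).erase v ∧ y ∈ (T ∩ bl v D).erase v then dA H W v b x y else 0

/-- success of the flow that closes `Z` in the order of the keys `κ` and keeps `Sg` -/
structure Flow (E : Env d M) (q : Par) (S : St (Tor d M)) (c : Tor d M) (Z Sg : Finset (Tor d M))
    (ω : Tor d M → Bool) (κ : Tor d M → ℕ) : Prop where
  nrm : ∀ t, OpLe Z (NW.GG S.H (Wc S.W ω (pre κ Z t))) ((q.P : ℝ) ^ 40 / E.η)
  mis : ∀ t, ∀ x ∈ (Z ∪ Sg) \ pre κ Z t,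
    ‖NW.GG S.H (Wc S.W ω (pre κ Z t)) x x - phi (S.W x)‖ ≤ 40 * q.μ * (q.P : ℝ) ^ 39
  deg : ∀ t, ∀ x ∈ Z \ pre κ Z t, 1 / 2 ≤ ∑ z ∈ univ.erase x,
    Kk E.η (Wc S.W ω (pre κ Z t)) (NW.GG S.H (Wc S.W ω (pre κ Z t))) x z
  amp : ∀ x ∈ (S.O ∩ bl c (6 * q.A E.η d)) \ Z, ∀ y ∈ Sg, x ≠ y →
    ‖NW.GG S.H (Wc S.W ω Z) x y - S.G x y‖ ≤ 2 * √(μr q S x * q.μ) * (q.P : ℝ) ^ 45
  l4 : ∀ x ∈ (S.O ∩ bl c (6 * q.A E.η d)) \ Z,
    ∑ y ∈ Sg.erase x, ‖NW.GG S.H (Wc S.W ω Z) x y‖ ^ 4 ≤ (q.P : ℝ) ^ 20 * μr q S x ^ 2 / 16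
  y5 : ∀ φ : Tor d M → ℝ, (∀ x ∉ bl c (3 * q.A E.η d), φ x = 0) →
    |∑ v ∈ Z ∩ bl c (q.A E.η d),
      Y5 E.η S.H (Wc S.W ω (pre κ Z (κ v))) (q.D E.η 2) v (ω v) φ| ≤ Nm E.p φ / (q.P : ℝ) ^ 4
  y6 : OpLe univ (fun x y => ∑ v ∈ Z ∩ bl c (q.A E.η d), Y6 S.H (Wc S.W ω (pre κ Z (κ v)))
    ((Z ∪ Sg) \ pre κ Z (κ v)) (q.D E.η 2) v (ω v) x y) (1 / (q.P : ℝ) ^ 4)

/-! ### the schedule of the rounds -/

/-- rounds `0, ..., u (k + 1) - 1`; epoch `j` consists of the rounds `u j ≤ s < u (j + 1)`, epoch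
`k` is the final one -/
structure Sched where
  q : ℕ → Par
  k : ℕ
  u : ℕ → ℕ
  r : ℕ → ℕ
  J : ℕ → ℕ
  α : ℕ → ℝ
  r0 : ℕ
  a0 : ℝ

structure Sched.OK (E : Env d M) (sc : Sched) : Prop where
  u0 : sc.u 0 = 0
  um : ∀ j ≤ sc.k, sc.u j < sc.u (j + 1)
  ok : ∀ s < sc.u (sc.k + 1), (sc.q s).OK E
  nx : ∀ s, s + 1 < sc.u (sc.k + 1) → (sc.q s).Next E.η (sc.q (s + 1))
  st : ∀ s < sc.u (sc.k + 1), (sc.q s).start = true ↔ ∃ j ≤ sc.k, s = sc.u j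
  fin : ∀ s < sc.u (sc.k + 1), (sc.q s).fin = true ↔ sc.u sc.k ≤ s
  lst : (sc.q (sc.u (sc.k + 1) - 1)).last = true
  k1 : 1 ≤ sc.k
  r0 : 2 * sc.r0 ≤ sc.r 0
  rm : ∀ j < sc.k, 10 * sc.r j ≤ sc.r (j + 1)
  rad : ∀ j < sc.k, ∀ s < sc.u (j + 1), 3 * (sc.q s).rad E.η ≤ sc.r (j + 1)
  win : ∀ j < sc.k, ∃ w, sc.u j < w ∧ w + sc.J j < sc.u (j + 1) ∧ ∀ s, w ≤ s → s ≤ w + sc.J j →
    (sc.q s).late E.η ∧ 5 * sc.r j + (sc.q (sc.u j)).D E.η 0 ≤ (sc.q s).D E.η 1 ∧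
      sc.J j * (vl d M (5 * sc.r j + (sc.q (sc.u j)).D E.η 0) : ℝ) ≤ 1 / (sc.q s).e
  a0 : (vl d M (sc.r 0) : ℝ) * exp (-sc.a0 / 5) ≤ exp (-sc.α 0)
  αs : ∀ j < sc.k, 4 * (vl d M (sc.r (j + 1)) : ℝ) *
      ∑ s ∈ Ico (sc.u j) (sc.u (j + 1)), exp (-((sc.q s).P : ℝ) ^ 3 / 5) +
    (vl d M (sc.r (j + 1)) * exp (-sc.α j)) ^ (sc.J j + 1) ≤ exp (-sc.α (j + 1))
  αk : (M : ℝ) ^ d * exp (-sc.α sc.k) ≤ 1 / 10
  αf : 4 * (M : ℝ) ^ d *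
    ∑ s ∈ Ico (sc.u sc.k) (sc.u (sc.k + 1)), exp (-((sc.q s).P : ℝ) ^ 3 / 5) ≤ 1 / 10
  hit : ∑ j ∈ range sc.k, (vl d M (sc.r (j + 1)) * exp (-sc.α j) + exp (-sc.α (j + 1))) ≤ 1 / 10
  ρ1 : 10 * sc.r sc.k ≤ E.ρ1
  ρd : E.ρ1 ∣ M
  ρs : E.ρ1 ^ 2 ≤ E.ρs
  ρM : 2 * E.ρ1 ^ 2 ≤ M
  Ω : E.Ω = Om d M E.ρ1
  cov : (M : ℝ) ^ d * (1 / 10) ^ (E.ρ1 - 1) ≤ 1 / 10

/-- the initial stage: a random state with the invariant of round `0` -/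
structure Init (E : Env d M) (sc : Sched) (Θ : Type) [Fintype Θ]
    (S0 : Cfg (Tor d M) E.N → Θ → St (Tor d M)) : Prop where
  causal : ∀ ϖ τ ϖ', (∀ y ∉ (S0 ϖ τ).U, ϖ' y = ϖ y) → S0 ϖ' τ = S0 ϖ τ
  inv : ∀ ϖ τ, Inv E ((sc.q 0).bPre E.η) (S0 ϖ τ)
  cons : ∀ ϖ τ, Cons E (S0 ϖ τ) ϖ
  tag : ∀ ϖ τ, ∀ ℓ ∈ (S0 ϖ τ).ev, ℓ.1 = 0 ∧ ℓ.2.1 = 4
  eb : ∀ I : Finset (Tor d M), Sep I (2 * sc.r0) →
    pr (fun z : Cfg (Tor d M) E.N × Θ => ∀ x ∈ I, (0, 4, x) ∈ (S0 z.1 z.2).ev) ≤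
      exp (-sc.a0) ^ I.card
  junk : ∀ ϖ τ, Cover E (S0 ϖ τ).omg → ∀ x ∈ (S0 ϖ τ).junk,
    ∃ ℓ ∈ (S0 ϖ τ).ev, nm (ℓ.2.2 - x) ≤ sc.r0
  omg : ∀ ϖ τ, ∀ o ∈ E.Ω, o ∉ (S0 ϖ τ).omg → ∃ ℓ ∈ (S0 ϖ τ).ev, nm (ℓ.2.2 - o) ≤ sc.r0

end Pool.Agent.P.MP_d0f69c_mp.XS
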