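import Pool.Agent.P.MP_d0f69c_mp.Spectral

/-!
Soft end of the argument, part A: existence of spectral measures, and the Poisson transform of a
singular measure tends to zero in measure.
-/

set_option autoImplicit false

open MeasureTheory Filter Topology ProbabilityTheory Set
open scoped CompactlySupported ENNReal NNReal

namespace Pool.Agent.P.MP_d0f69c_mp.XS

section spec

variable {X : Type} [NormedAddCommGroup X] [InnerProductSpace ℂ X] [CompleteSpace X]
  {H : X →L[ℂ] X}

theorem spec_real (hH : IsSelfAdjoint H) (ψ : X) :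
    ∃ μ : Measure ℝ, IsFiniteMeasure μ ∧
      ∀ g : ℝ → ℝ, Continuous g → ∫ t, g t ∂μ = (inner ℂ ψ (cfc g H ψ)).re := by
  let L : C_c(spectrum ℝ H, ℝ) →ₗ[ℝ] ℝ :=
    { toFun := fun f => (inner ℂ ψ (cfcHom hH f.toContinuousMap ψ)).re
      map_add' := fun f g => by
        have : (f + g).toContinuousMap = f.toContinuousMap + g.toContinuousMap := rfl
        simp only [this, map_add, add_apply, inner_add_right, Complex.add_re]
      map_smul' := fun r f => by
        have : (r • f).toContinuousMap = r • f.toContinuousMap := rfl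
        simp only [this, map_smul, smul_apply, RingHom.id_apply, smul_eq_mul]
        rw [← Complex.coe_smul, inner_smul_right, Complex.re_ofReal_mul] }
  let Λ : C_c(spectrum ℝ H, ℝ) →ₚ[ℝ] ℝ := PositiveLinearMap.mk₀ L fun f hf => by
    have h1 : 0 ≤ cfcHom hH f.toContinuousMap := (cfcHom_nonneg_iff hH).2 fun x => hf x
    exact ((ContinuousLinearMap.nonneg_iff_isPositive _).1 h1).re_inner_nonneg_right ψ
  refine ⟨(RealRMK.rieszMeasure Λ).map Subtype.val, inferInstance, fun g hg => ?_⟩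
  rw [integral_map measurable_subtype_coe.aemeasurable hg.aestronglyMeasurable,
    cfc_apply g H hH hg.continuousOn]
  exact RealRMK.integral_rieszMeasure Λ (CompactlySupportedContinuousMap.continuousMapEquiv
    ⟨_, hg.continuousOn.domRestrict⟩)

theorem inv_re_im (x : ℝ) {z : ℂ} (hz : z.im ≠ 0) :
    ((x : ℂ) - z)⁻¹ = ((x - z.re) / ((x - z.re) ^ 2 + z.im ^ 2) : ℝ) +
      Complex.I * (z.im / ((x - z.re) ^ 2 + z.im ^ 2) : ℝ) := by
  have h : (x - z.re) ^ 2 + z.im ^ 2 ≠ 0 := by positivity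
  apply Complex.ext
  · rw [Complex.inv_re, Complex.normSq_apply]
    simp only [Complex.sub_re, Complex.ofReal_re, Complex.sub_im, Complex.ofReal_im,
      Complex.add_re, Complex.mul_re, Complex.I_re, Complex.I_im]
    ring_nf
  · rw [Complex.inv_im, Complex.normSq_apply]
    simp only [Complex.sub_re, Complex.ofReal_re, Complex.sub_im, Complex.ofReal_im,
      Complex.add_im, Complex.mul_im, Complex.I_re, Complex.I_im]
    ring_nf

theorem int_inv (μ : Measure ℝ) [IsFiniteMeasure μ] {z : ℂ} (hz : z.im ≠ 0) :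
    Integrable (fun x : ℝ => ((x : ℂ) - z)⁻¹) μ := by
  refine Integrable.of_bound (C := |z.im|⁻¹) (Measurable.aestronglyMeasurable (by fun_prop))
    (ae_of_all _ fun x => ?_)
  rw [norm_inv]
  refine inv_anti₀ (abs_pos.2 hz) (le_trans ?_ (Complex.abs_im_le_norm _))
  simp

theorem spec_exists (hH : IsSelfAdjoint H) (ψ : X) :
    ∃ μ : Measure ℝ, IsFiniteMeasure μ ∧
      ∀ z : ℂ, z.im ≠ 0 → ∫ x : ℝ, ((x : ℂ) - z)⁻¹ ∂μ = inner ℂ ψ (GG H z ψ) := by
  obtain ⟨μ, hμ, h⟩ := spec_real hH ψ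
  refine ⟨μ, hμ, fun z hz => ?_⟩
  set f : ℝ → ℝ := fun x => (x - z.re) / ((x - z.re) ^ 2 + z.im ^ 2) with hf
  set g : ℝ → ℝ := fun x => z.im / ((x - z.re) ^ 2 + z.im ^ 2) with hg
  have hd : ∀ x : ℝ, (x - z.re) ^ 2 + z.im ^ 2 ≠ 0 := fun x => by positivity
  have cf : Continuous f := Continuous.div (by fun_prop) (by fun_prop) hd
  have cg : Continuous g := Continuous.div (by fun_prop) (by fun_prop) hd
  have e0 : cfc (fun x : ℝ => x - z.re) H = H - (z.re : ℂ) • (1 : X →L[ℂ] X) := by
    rw [cfc_sub _ _ H, cfc_id' ℝ H, cfc_const z.re H, Algebra.algebraMap_eq_smul_one,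
      Complex.coe_smul]
  have e1 : (H - (z.re : ℂ) • (1 : X →L[ℂ] X)) * cfc f H + (z.im : ℂ) • cfc g H = 1 := by
    rw [← e0, ← cfc_mul _ _ H (by fun_prop) cf.continuousOn, Complex.coe_smul,
      ← cfc_smul z.im g H cg.continuousOn, ← cfc_add H _ _ (by fun_prop) (by fun_prop),
      ← cfc_one ℝ H]
    refine cfc_congr fun x _ => ?_
    simp only [hf, hg, smul_eq_mul, Pi.one_apply]
    field_simp [hd x]
  have e2 : (H - (z.re : ℂ) • (1 : X →L[ℂ] X)) * cfc g H = (z.im : ℂ) • cfc f H := by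
    rw [← e0, ← cfc_mul _ _ H (by fun_prop) cg.continuousOn, Complex.coe_smul,
      ← cfc_smul z.im f H cf.continuousOn]
    refine cfc_congr fun x _ => ?_
    simp only [hf, hg, smul_eq_mul]
    ring
  have e3 : (H - z • (1 : X →L[ℂ] X)) * (cfc f H + Complex.I • cfc g H) = 1 := by
    have e4 : H - z • (1 : X →L[ℂ] X) =
        (H - (z.re : ℂ) • (1 : X →L[ℂ] X)) - (z.im * Complex.I) • (1 : X →L[ℂ] X) := by
      conv_lhs => rw [← Complex.re_add_im z, add_smul]
      abel
    rw [e4, sub_mul, mul_add, mul_smul_comm, e2, smul_mul_assoc, one_mul, smul_add,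
      smul_smul (z.im * Complex.I), mul_assoc, Complex.I_mul_I]
    conv_rhs => rw [← e1]
    module
  have e5 : GG H z = cfc f H + Complex.I • cfc g H := by
    have := congrArg (fun A => GG H z * A) e3
    simp only [mul_one] at this
    rw [← this, ← mul_assoc, GG, Ring.inverse_mul_cancel _ (unit_sub hH hz), one_mul]
  have re : ∀ k : ℝ → ℝ, inner ℂ ψ (cfc k H ψ) = ((inner ℂ ψ (cfc k H ψ)).re : ℂ) := fun k => by
    have s := (ContinuousLinearMap.isSelfAdjoint_iff_isSymmetric.1
      (cfc_predicate (R := ℝ) k H)).im_inner_self_apply ψ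
    exact Complex.ext (by simp) (by simpa using s)
  have hi := int_inv μ hz
  rw [e5, add_apply, smul_apply, inner_add_right, inner_smul_right, re f, re g, ← h f cf, ← h g cg,
    ← integral_re_add_im hi]
  have a1 : ∀ x : ℝ, RCLike.re (((x : ℂ) - z)⁻¹) = f x := fun x => by
    rw [inv_re_im x hz]
    simp only [RCLike.re_to_complex, Complex.add_re, Complex.mul_re, Complex.ofReal_re,
      Complex.ofReal_im, Complex.I_re, Complex.I_im, hf]
    ring
  have a2 : ∀ x : ℝ, RCLike.im (((x : ℂ) - z)⁻¹) = g x := fun x => by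
    rw [inv_re_im x hz]
    simp only [RCLike.im_to_complex, Complex.add_im, Complex.mul_im, Complex.ofReal_re,
      Complex.ofReal_im, Complex.I_re, Complex.I_im, hg]
    ring
  simp only [a1, a2]
  rw [mul_comm Complex.I]
  rfl

end spec

/-- the Poisson kernel -/
noncomputable def pk (η E x : ℝ) : ℝ≥0∞ := ENNReal.ofReal (η / ((x - E) ^ 2 + η ^ 2))

theorem pk_meas (η : ℝ) : Measurable fun q : ℝ × ℝ => pk η q.1 q.2 := by
  unfold pk
  fun_prop

theorem pk_int {η : ℝ} (hη : 0 < η) (x : ℝ) : ∫⁻ E, pk η E x = ENNReal.ofReal Real.pi := by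
  have h := lintegral_cauchyPDF_eq_one x (γ := ⟨η, hη.le⟩) (fun e => hη.ne' (congrArg Subtype.val e))
  have e : ∀ E, pk η E x = ENNReal.ofReal Real.pi * cauchyPDF x ⟨η, hη.le⟩ E := fun E => by
    rw [cauchyPDF_def, ← ENNReal.ofReal_mul Real.pi_pos.le, cauchyPDFReal_def, pk]
    congr 1
    have := Real.pi_pos
    change _ = Real.pi * (Real.pi⁻¹ * η * ((E - x) ^ 2 + η ^ 2)⁻¹)
    rw [show (E - x) ^ 2 = (x - E) ^ 2 by ring]
    field_simp
  simp only [e]
  rw [lintegral_const_mul _ (by fun_prop), h, mul_one]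

theorem im_eq (μ : Measure ℝ) [IsFiniteMeasure μ] {η : ℝ} (hη : 0 < η) (E : ℝ) :
    ENNReal.ofReal (∫ x : ℝ, ((x : ℂ) - (E + η * Complex.I))⁻¹ ∂μ).im = ∫⁻ x, pk η E x ∂μ := by
  have hz : (E + η * Complex.I : ℂ).im ≠ 0 := by simpa using hη.ne'
  have hi := int_inv μ hz
  have e := integral_im hi
  have a : ∀ x : ℝ, RCLike.im (((x : ℂ) - (E + η * Complex.I))⁻¹) = η / ((x - E) ^ 2 + η ^ 2) :=
    fun x => by
      rw [RCLike.im_to_complex, Complex.inv_im, Complex.normSq_apply]
      simp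
      ring
  have hi' := hi.im
  simp only [a] at e hi'
  rw [RCLike.im_to_complex] at e
  rw [← e, ofReal_integral_eq_lintegral_ofReal hi' (ae_of_all _ fun x => by
    simp only [Pi.zero_apply]; positivity)]
  rfl

/-- the Poisson transform of a singular measure tends to zero in measure -/
theorem sing_small (μ : Measure ℝ) [IsFiniteMeasure μ] (h : μ ⟂ₘ volume) (a b : ℝ) :
    Tendsto (fun η => ∫⁻ E in Icc a b, min 1 (∫⁻ x, pk η E x ∂μ)) (𝓝[>] 0) (𝓝 0) := by
  rw [ENNReal.tendsto_nhds_zero]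
  intro ε hε
  obtain ⟨θ, θ0, hθ⟩ : ∃ θ : ℝ≥0∞, θ ≠ 0 ∧ θ + θ + ENNReal.ofReal Real.pi * θ ≤ ε := by
    have t : Tendsto (fun θ : ℝ≥0∞ => θ + θ + ENNReal.ofReal Real.pi * θ) (𝓝 0)
        (𝓝 (0 + 0 + ENNReal.ofReal Real.pi * 0)) :=
      (tendsto_id.add tendsto_id).add
        (ENNReal.Tendsto.const_mul tendsto_id (Or.inr ENNReal.ofReal_ne_top))
    simp only [add_zero, mul_zero] at t
    obtain ⟨θ, h1, h2⟩ := (((t.mono_left nhdsWithin_le_nhds).eventually_le_const hε).and
      (self_mem_nhdsWithin (a := (0 : ℝ≥0∞)) (s := Ioi 0))).exists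
    exact ⟨θ, h2.ne', h1⟩
  obtain ⟨s, hs, s1, s2⟩ := h
  obtain ⟨K, k1, k2, k3⟩ := hs.compl.exists_isCompact_sdiff_lt (measure_ne_top μ _) θ0
  have k4 : μ Kᶜ ≤ θ := by
    refine (measure_mono (?_ : Kᶜ ⊆ s ∪ sᶜ \ K)).trans ((measure_union_le _ _).trans ?_)
    · intro x hx
      by_cases h1 : x ∈ s
      · exact Or.inl h1
      · exact Or.inr ⟨h1, hx⟩
    · rw [s1, zero_add]
      exact k3.le
  have k5 := tendsto_measure_cthickening_of_isCompact (μ := volume) k2
  rw [measure_mono_null k1 s2] at k5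
  obtain ⟨δ, d1, d0⟩ := (((k5.mono_left nhdsWithin_le_nhds).eventually_le_const
    (pos_iff_ne_zero.2 θ0)).and (self_mem_nhdsWithin (a := (0 : ℝ)) (s := Ioi 0))).exists
  have d0 : 0 < δ := d0
  have t2 : Tendsto (fun η : ℝ => ENNReal.ofReal (η / δ ^ 2) * μ univ * volume (Icc a b)) (𝓝[>] 0)
      (𝓝 0) := by
    have t3 : Tendsto (fun η : ℝ => ENNReal.ofReal (η / δ ^ 2)) (𝓝 0) (𝓝 0) := by
      have := ENNReal.tendsto_ofReal ((tendsto_id (x := 𝓝 (0 : ℝ))).div_const (δ ^ 2))
      simpa using this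
    have := ENNReal.Tendsto.mul_const (ENNReal.Tendsto.mul_const t3
      (Or.inr (measure_ne_top μ univ))) (b := volume (Icc a b)) (Or.inr measure_Icc_lt_top.ne)
    simpa using this.mono_left nhdsWithin_le_nhds
  filter_upwards [t2.eventually_le_const (pos_iff_ne_zero.2 θ0), self_mem_nhdsWithin] with η h1 η0
  have η0 : 0 < η := η0
  have m1 : Measurable fun E => ∫⁻ x in Kᶜ, pk η E x ∂μ := (pk_meas η).lintegral_prod_right'
  have mT : MeasurableSet (Metric.cthickening δ K) := Metric.isClosed_cthickening.measurableSet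
  have b1 : ∀ E, min 1 (∫⁻ x, pk η E x ∂μ) ≤ (Metric.cthickening δ K).indicator 1 E +
      ENNReal.ofReal (η / δ ^ 2) * μ univ + ∫⁻ x in Kᶜ, pk η E x ∂μ := by
    intro E
    by_cases hE : E ∈ Metric.cthickening δ K
    · rw [indicator_of_mem hE, add_assoc]
      exact (min_le_left _ _).trans le_self_add
    · rw [indicator_of_notMem hE, zero_add, ← lintegral_add_compl _ k2.measurableSet]
      refine (min_le_right _ _).trans (add_le_add ?_ le_rfl)
      refine (setLIntegral_mono (g := fun _ => ENNReal.ofReal (η / δ ^ 2)) measurable_const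
        fun x hx => ?_).trans ?_
      · apply ENNReal.ofReal_le_ofReal
        have h2 : δ < dist E x := by
          by_contra h3
          exact hE (Metric.mem_cthickening_of_dist_le E x δ K hx (not_lt.1 h3))
        rw [Real.dist_eq, abs_sub_comm] at h2
        have h3 := pow_le_pow_left₀ d0.le h2.le 2
        rw [sq_abs] at h3
        exact div_le_div_of_nonneg_left η0.le (by positivity) (by nlinarith [sq_nonneg η])
      · rw [setLIntegral_const]
        exact mul_le_mul_right (measure_mono (subset_univ _)) _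
  refine (lintegral_mono b1).trans (le_trans ?_ hθ)
  rw [lintegral_add_right _ m1, lintegral_add_right _ measurable_const, lintegral_indicator_one mT,
    setLIntegral_const]
  refine add_le_add (add_le_add ((Measure.restrict_le_self _).trans d1) h1) ?_
  refine (setLIntegral_le_lintegral _ _).trans ?_
  rw [lintegral_lintegral_swap (pk_meas η).aemeasurable]
  simp only [pk_int η0]
  rw [setLIntegral_const]
  exact mul_le_mul_right k4 _

end Pool.Agent.P.MP_d0f69c_mp.XS
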