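import Pool.Agent.P.MP_d0f69c_mp.Basic
import Pool.Agent.P.MP_d0f69c_mp.XS.EndA

/-!
Soft end of the argument, part B: the operator on the lattice and approximate solutions.
-/

set_option autoImplicit false

open MeasureTheory Filter Topology Set
open scoped ENNReal ComplexConjugate

namespace Pool.Agent.P.MP_d0f69c_mp.XS

/-- square summable functions -/
noncomputable abbrev L2 (ι : Type) := lp (fun _ : ι => ℂ) 2

section wsh

variable {ι : Type}

theorem sq_sum (u : L2 ι) : HasSum (fun j => ‖u j‖ ^ 2) (‖u‖ ^ 2) := by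
  have := lp.hasSum_norm (p := 2) (by norm_num) u
  simpa using this

theorem mem_of {f : ι → ℂ} (h : Summable fun j => ‖f j‖ ^ 2) : Memℓp f 2 :=
  memℓp_gen (by simpa using h)

theorem wsh_le (e : ι ≃ ι) {c : ι → ℂ} (hc : ∀ j, ‖c j‖ ≤ 1) (u : L2 ι) (j : ι) :
    ‖c j * u (e j)‖ ^ 2 ≤ ‖u (e j)‖ ^ 2 := by
  rw [norm_mul]
  exact pow_le_pow_left₀ (by positivity) (mul_le_of_le_one_left (norm_nonneg _) (hc j)) 2

theorem wsh_sum (e : ι ≃ ι) {c : ι → ℂ} (hc : ∀ j, ‖c j‖ ≤ 1) (u : L2 ι) :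
    Summable fun j => ‖c j * u (e j)‖ ^ 2 :=
  Summable.of_nonneg_of_le (fun _ => sq_nonneg _) (wsh_le e hc u)
    (e.summable_iff.2 (sq_sum u).summable)

/-- weighted shifts of vectors -/
noncomputable def wv (e : ι ≃ ι) (c : ι → ℂ) (hc : ∀ j, ‖c j‖ ≤ 1) (u : L2 ι) : L2 ι :=
  ⟨fun j => c j * u (e j), mem_of (wsh_sum e hc u)⟩

theorem wv_apply (e : ι ≃ ι) (c : ι → ℂ) (hc : ∀ j, ‖c j‖ ≤ 1) (u : L2 ι) (j : ι) :
    wv e c hc u j = c j * u (e j) := rfl

theorem wv_norm (e : ι ≃ ι) (c : ι → ℂ) (hc : ∀ j, ‖c j‖ ≤ 1) (u : L2 ι) :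
    ‖wv e c hc u‖ ≤ ‖u‖ := by
  refine (pow_le_pow_iff_left₀ (norm_nonneg _) (norm_nonneg _) two_ne_zero).1 ?_
  have h1 : HasSum (fun j => ‖c j * u (e j)‖ ^ 2) (‖wv e c hc u‖ ^ 2) := sq_sum (wv e c hc u)
  have h2 : HasSum (fun j => ‖u (e j)‖ ^ 2) (‖u‖ ^ 2) := e.hasSum_iff.2 (sq_sum u)
  exact hasSum_le (wsh_le e hc u) h1 h2

/-- weighted shifts -/
noncomputable def wsh (e : ι ≃ ι) (c : ι → ℂ) (hc : ∀ j, ‖c j‖ ≤ 1) : L2 ι →L[ℂ] L2 ι :=
  LinearMap.mkContinuous
    { toFun := wv e c hc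
      map_add' := fun u v => lp.ext (funext fun j => by
        simp only [wv_apply, lp.coeFn_add, Pi.add_apply, mul_add])
      map_smul' := fun a u => lp.ext (funext fun j => by
        simp only [wv_apply, lp.coeFn_smul, Pi.smul_apply, smul_eq_mul, RingHom.id_apply,
          mul_left_comm]) } 1 fun u => by
    rw [one_mul]
    exact wv_norm e c hc u

@[simp] theorem wsh_apply (e : ι ≃ ι) (c : ι → ℂ) (hc : ∀ j, ‖c j‖ ≤ 1) (u : L2 ι) (j : ι) :
    wsh e c hc u j = c j * u (e j) := rfl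

theorem wsh_norm (e : ι ≃ ι) (c : ι → ℂ) (hc : ∀ j, ‖c j‖ ≤ 1) (u : L2 ι) :
    ‖wsh e c hc u‖ ≤ ‖u‖ := wv_norm e c hc u

theorem wsh_inner (e : ι ≃ ι) (c c' : ι → ℂ) (hc : ∀ j, ‖c j‖ ≤ 1) (hc' : ∀ j, ‖c' j‖ ≤ 1)
    (h : ∀ j, c' (e j) = conj (c j)) (u v : L2 ι) :
    inner ℂ (wsh e c hc u) v = inner ℂ u (wsh e.symm c' hc' v) := by
  rw [lp.inner_eq_tsum, lp.inner_eq_tsum, ← e.tsum_eq fun j => inner ℂ (u j) _]
  refine tsum_congr fun j => ?_
  simp [h, mul_comm, mul_left_comm]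

end wsh

variable {d : ℕ}

/-- the potential -/
noncomputable def sg (ω : Zd d → Bool) (j : Zd d) : ℂ := if ω j then 1 else -1

/-- the formal action of the operator -/
noncomputable def act (lam : ℝ) (ω : Zd d → Bool) (u : Zd d → ℂ) (j : Zd d) : ℂ :=
  -(∑ i : Fin d, ((u (j + ee i) - u j) + (u (j - ee i) - u j))) + lam * sg ω j * u j

theorem sg_le (ω : Zd d → Bool) (j : Zd d) : ‖sg ω j‖ ≤ 1 := by
  unfold sg
  split_ifs <;> simp

/-- shifts -/
noncomputable def shf (v : Zd d) : L2 (Zd d) →L[ℂ] L2 (Zd d) :=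
  wsh (Equiv.addRight v) (fun _ => 1) fun _ => by simp

/-- the operator -/
noncomputable def HH (lam : ℝ) (ω : Zd d → Bool) : L2 (Zd d) →L[ℂ] L2 (Zd d) :=
  -(∑ i : Fin d, ((shf (ee i) - 1) + (shf (-ee i) - 1))) +
    (lam : ℂ) • wsh (Equiv.refl _) (sg ω) (sg_le ω)

theorem HH_apply (lam : ℝ) (ω : Zd d → Bool) (u : L2 (Zd d)) (j : Zd d) :
    HH lam ω u j = act lam ω u j := by
  simp only [HH, act, shf, add_apply, neg_apply, sum_apply, sub_apply, one_apply_eq_self,
    lp.coeFn_add, lp.coeFn_neg, lp.coeFn_sum, lp.coeFn_sub, Pi.add_apply, Pi.neg_apply,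
    Finset.sum_apply, Pi.sub_apply, wsh_apply, Equiv.coe_addRight, one_mul, Equiv.refl_apply,
    ← sub_eq_add_neg, smul_apply, lp.coeFn_smul, Pi.smul_apply, smul_eq_mul, mul_assoc]

theorem shf_inner (v : Zd d) (u w : L2 (Zd d)) : inner ℂ (shf v u) w = inner ℂ u (shf (-v) w) := by
  rw [shf, wsh_inner _ _ (fun _ => 1) _ (fun _ => by simp) (fun _ => by simp)]
  rfl

theorem HH_sa (lam : ℝ) (ω : Zd d → Bool) : IsSelfAdjoint (HH lam ω) := by
  rw [ContinuousLinearMap.isSelfAdjoint_iff_isSymmetric]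
  intro u w
  have h1 := wsh_inner (Equiv.refl _) (sg ω) (sg ω) (sg_le ω) (sg_le ω) (fun j => by
    by_cases h : ω j = true <;> simp [sg, h]) u w
  simp only [HH, ContinuousLinearMap.coe_coe, add_apply, neg_apply, sum_apply, sub_apply,
    one_apply_eq_self, inner_add_left, inner_add_right, inner_neg_left, inner_neg_right,
    sum_inner, inner_sum, inner_sub_left, inner_sub_right, shf_inner, neg_neg, h1,
    Equiv.refl_symm, smul_apply, inner_smul_left, inner_smul_right, Complex.conj_ofReal]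
  congr 2
  exact Finset.sum_congr rfl fun i _ => add_comm _ _

/-- the unit vector at the origin -/
noncomputable def d0 (d : ℕ) : L2 (Zd d) := lp.single 2 0 1

theorem d0_apply (j : Zd d) : d0 d j = if j = 0 then 1 else 0 := by
  simp [d0, lp.single_apply, Pi.single_apply]

theorem norm_d0 : ‖d0 d‖ = 1 := by
  simp [d0]

theorem inner_d0 (u : L2 (Zd d)) : inner ℂ (d0 d) u = u 0 := by
  simp [d0, lp.inner_single_left]

/-- the diagonal Green function at the origin -/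
noncomputable def gr (lam : ℝ) (ω : Zd d → Bool) (z : ℂ) : ℂ :=
  inner ℂ (d0 d) (GG (HH lam ω) z (d0 d))

/-- the cut-off -/
noncomputable def cut (R : ℕ) (x : Zd d) : ℝ := max 0 (1 - ‖x‖ / R)

theorem cut_le (R : ℕ) (x : Zd d) : ‖(cut R x : ℂ)‖ ≤ 1 := by
  have : 0 ≤ ‖x‖ / R := by positivity
  rw [cut, Complex.norm_real, Real.norm_of_nonneg (le_max_left _ _)]
  exact max_le zero_le_one (by linarith)

theorem cut_lip {R : ℕ} (hR : 0 < R) (x v : Zd d) (hv : ‖v‖ = 1) :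
    ‖((R * (cut R (x + v) - cut R x) : ℝ) : ℂ)‖ ≤ 1 := by
  have R0 : (0 : ℝ) < R := by exact_mod_cast hR
  have h1 : |cut R (x + v) - cut R x| ≤ |(1 - ‖x + v‖ / R) - (1 - ‖x‖ / R)| := by
    unfold cut
    rw [max_comm 0, max_comm 0]
    exact abs_max_sub_max_le_abs _ _ _
  have h2 : |‖x‖ - ‖x + v‖| ≤ 1 := by
    have := abs_norm_sub_norm_le x (x + v)
    rwa [sub_add_cancel_left, norm_neg, hv] at this
  rw [show (1 - ‖x + v‖ / R) - (1 - ‖x‖ / R) = (‖x‖ - ‖x + v‖) / R by ring, abs_div,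
    abs_of_pos R0, le_div_iff₀ R0] at h1
  rw [Complex.norm_real, Real.norm_eq_abs, abs_mul, abs_of_pos R0, mul_comm]
  exact h1.trans h2

/-- approximate solutions determine the Green function -/
theorem approx (lam : ℝ) (ω : Zd d → Bool) {z : ℂ} (hz : 0 < z.im) {R : ℕ} (hR : 0 < R) (κ : ℂ)
    (v : L2 (Zd d)) (hv : ∀ x ∈ box d R, act lam ω v x - z * v x = if x = 0 then κ else 0) :
    z.im * ‖v 0 - κ * gr lam ω z‖ ≤ 2 * d * ‖v‖ / R := by
  have R0 : (0 : ℝ) < R := by exact_mod_cast hR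
  set φ := wsh (Equiv.refl _) (fun x => (cut R x : ℂ)) (cut_le R) v with hφ
  let T : (w : Zd d) → ‖w‖ = 1 → L2 (Zd d) := fun w hw =>
    wsh (Equiv.addRight w) (fun x => ((R * (cut R (x + w) - cut R x) : ℝ) : ℂ))
      (fun x => cut_lip hR x w hw) v
  set e : L2 (Zd d) := -((R : ℂ)⁻¹ • ∑ i : Fin d, (T (ee i) (norm_ee i) +
    T (-ee i) (by rw [norm_neg, norm_ee]))) with he
  have e1 : ‖e‖ ≤ 2 * d * ‖v‖ / R := by
    rw [he, norm_neg, norm_smul, norm_inv, Complex.norm_natCast, inv_mul_eq_div]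
    refine div_le_div_of_nonneg_right ((norm_sum_le _ _).trans ?_) R0.le
    refine (Finset.sum_le_card_nsmul _ _ (2 * ‖v‖) fun i _ => ?_).trans (le_of_eq ?_)
    · refine (norm_add_le _ _).trans ?_
      rw [two_mul]
      exact add_le_add (wsh_norm _ _ _ _) (wsh_norm _ _ _ _)
    · simp
      ring
  have e2 : HH lam ω φ - z • φ = κ • d0 d + e := by
    refine lp.ext (funext fun x => ?_)
    have h1 : (cut R x : ℂ) * (act lam ω v x - z * v x) = κ * if x = 0 then 1 else 0 := by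
      by_cases hx : x ∈ box d R
      · rw [hv x hx]
        split_ifs with h
        · simp [h, cut]
        · simp
      · rw [mem_box, not_le] at hx
        have h2 : cut R x = 0 := max_eq_left (by
          rw [sub_nonpos, le_div_iff₀ R0]
          linarith)
        rw [h2, if_neg fun h : x = 0 => by rw [h, norm_zero] at hx; linarith]
        simp
    have R1 : (R : ℂ) ≠ 0 := by exact_mod_cast hR.ne'
    have h3 : e x = -∑ i : Fin d, (((cut R (x + ee i) : ℂ) - cut R x) * v (x + ee i) +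
        ((cut R (x - ee i) : ℂ) - cut R x) * v (x - ee i)) := by
      simp only [he, T, lp.coeFn_neg, lp.coeFn_smul, lp.coeFn_sum, lp.coeFn_add, Pi.neg_apply,
        Pi.smul_apply, Finset.sum_apply, Pi.add_apply, wsh_apply, Equiv.coe_addRight,
        smul_eq_mul, Finset.mul_sum, ← sub_eq_add_neg]
      congr 1
      refine Finset.sum_congr rfl fun i _ => ?_
      push_cast
      field_simp
    simp only [lp.coeFn_sub, lp.coeFn_add, lp.coeFn_smul, Pi.sub_apply, Pi.add_apply,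
      Pi.smul_apply, HH_apply, d0_apply, h3, smul_eq_mul]
    rw [← h1]
    simp only [act, hφ, wsh_apply, Equiv.refl_apply, mul_sub, mul_add, mul_neg, Finset.mul_sum]
    rw [← sub_eq_zero]
    have : ∀ A B C p q : ℂ, A = B + C → -A + p * q - z * q - (-B + p * q - z * q + -C) = 0 := by
      intro A B C p q h
      rw [h]
      ring
    rw [mul_left_comm (cut R x : ℂ) (lam * sg ω x), mul_left_comm (cut R x : ℂ) z]
    apply this
    rw [← Finset.sum_add_distrib]
    exact Finset.sum_congr rfl fun i _ => by ring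
  have e3 : φ = κ • GG (HH lam ω) z (d0 d) + GG (HH lam ω) z e := by
    have := congrArg (fun A : L2 (Zd d) →L[ℂ] L2 (Zd d) => A φ)
      (Ring.inverse_mul_cancel _ (unit_sub (HH_sa lam ω) hz.ne'))
    simp only [mul_apply_eq_comp, sub_apply, smul_apply, one_apply_eq_self, e2, map_add,
      map_smul] at this
    exact this.symm
  have e4 : v 0 - κ * gr lam ω z = inner ℂ (d0 d) (GG (HH lam ω) z e) := by
    have : v 0 = inner ℂ (d0 d) φ := by simp [inner_d0, hφ, cut]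
    rw [this, e3, inner_add_right, inner_smul_right, gr, add_sub_cancel_left]
  rw [e4]
  refine le_trans (mul_le_mul_of_nonneg_left (norm_inner_le_norm _ _) hz.le) ?_
  rw [norm_d0, one_mul]
  exact (norm_GG_im (HH_sa lam ω) hz e).trans e1

theorem gr_local (lam : ℝ) {ω ω' : Zd d → Bool} {z : ℂ} (hz : 0 < z.im) {R : ℕ} (hR : 0 < R)
    (h : ∀ x ∈ box d R, ω' x = ω x) : ‖gr lam ω' z - gr lam ω z‖ ≤ 2 * d / z.im ^ 2 / R := by
  have R0 : (0 : ℝ) < R := by exact_mod_cast hR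
  have h1 := approx lam ω hz hR 1 (GG (HH lam ω') z (d0 d)) fun x hx => by
    have := congrArg (fun u : L2 (Zd d) => u x) (GG_eq (HH_sa lam ω') hz.ne' (d0 d))
    simp only [lp.coeFn_sub, lp.coeFn_smul, Pi.sub_apply, Pi.smul_apply, HH_apply, d0_apply,
      smul_eq_mul] at this
    rw [← this]
    simp only [act, sg, h x hx]
  have h2 := norm_GG_im (HH_sa lam ω') hz (d0 d)
  rw [norm_d0] at h2
  rw [← inner_d0, one_mul] at h1
  change z.im * ‖gr lam ω' z - gr lam ω z‖ ≤ _ at h1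
  rw [le_div_iff₀ R0] at h1 ⊢
  rw [le_div_iff₀ (by positivity)]
  have h3 := mul_le_mul_of_nonneg_left h1 hz.le
  have h4 := mul_le_mul_of_nonneg_left h2 (show (0 : ℝ) ≤ 2 * d by positivity)
  nlinarith

theorem gr_cont (lam : ℝ) {z : ℂ} (hz : 0 < z.im) :
    Continuous fun ω : Zd d → Bool => gr lam ω z := by
  refine continuous_iff_continuousAt.2 fun ω => Metric.tendsto_nhds.2 fun ε hε => ?_
  obtain ⟨R, h1, h2⟩ := (((tendsto_const_div_atTop_nhds_zero_nat (2 * d / z.im ^ 2 : ℝ)).eventually_lt_const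
    hε).and (eventually_gt_atTop 0)).exists
  have h3 : ∀ᶠ ω' in 𝓝 ω, ∀ x ∈ box d R, ω' x = ω x :=
    (Finset.eventually_all _).2 fun x _ =>
      ((continuous_apply x).tendsto ω).eventually (mem_nhds_discrete.2 rfl : {ω x} ∈ 𝓝 (ω x))
  filter_upwards [h3] with ω' h4
  rw [dist_eq_norm]
  exact (gr_local lam hz h2 h4).trans_lt h1

theorem gr_meas (lam : ℝ) {η : ℝ} (hη : 0 < η) :
    Measurable fun q : ℝ × (Zd d → Bool) => gr lam q.2 (q.1 + η * Complex.I) :=
  measurable_uncurry_of_continuous_of_measurable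
    (u := fun (E : ℝ) (ω : Zd d → Bool) => gr lam ω (E + η * Complex.I))
    (fun ω => cont_F (HH_sa lam ω) (d0 d) hη) fun E => (gr_cont lam (by simpa using hη)).measurable

end Pool.Agent.P.MP_d0f69c_mp.XS
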