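import Pool.Agent.P.MP_d0f69c_mp.XS.EndB

/-!
Soft end of the argument, part C: a uniform lower bound for the imaginary part of finite volume
Green functions excludes purely singular spectrum.
-/

set_option autoImplicit false

open MeasureTheory ProbabilityTheory Filter Topology Set
open scoped ENNReal

namespace Pool.Agent.P.MP_d0f69c_mp.XS

variable {d : ℕ}

/-- the law of the potential -/
noncomputable def PP (d : ℕ) : Measure (Zd d → Bool) :=
  Measure.infinitePi fun _ : Zd d => (PMF.uniformOfFintype Bool).toMeasure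

instance PP_prob (d : ℕ) : IsProbabilityMeasure (PP d) := by
  unfold PP
  infer_instance

/-- purely singular spectrum, in the words of the frozen statement, with a coupling constant -/
def Sing (d : ℕ) (lam : ℝ) : Prop :=
  ∀ᵐ ω ∂(Measure.infinitePi
      (fun _ : Fin d → ℤ => (PMF.uniformOfFintype Bool).toMeasure)),
    ∀ H : lp (fun _ : Fin d → ℤ => ℂ) 2 →L[ℂ] lp (fun _ : Fin d → ℤ => ℂ) 2,
      (∀ (u : lp (fun _ : Fin d → ℤ => ℂ) 2) (j : Fin d → ℤ),
        (H u) j = -(∑ i : Fin d,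
            ((u (j + (Pi.single i (1 : ℤ) : Fin d → ℤ)) - u j)
              + (u (j - (Pi.single i (1 : ℤ) : Fin d → ℤ)) - u j)))
          + (lam : ℂ) * (if ω j then (1 : ℂ) else -1) * u j) →
      ∀ (ψ : lp (fun _ : Fin d → ℤ => ℂ) 2) (μ : Measure ℝ), IsFiniteMeasure μ →
        (∀ z : ℂ, z.im ≠ 0 →
          (∫ x, ((x : ℂ) - z)⁻¹ ∂μ) =
            inner ℂ ψ
              (Ring.inverse
                (H - z • (1 : lp (fun _ : Fin d → ℤ => ℂ) 2 →L[ℂ] lp (fun _ : Fin d → ℤ => ℂ) 2))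
                ψ)) →
        μ ⟂ₘ volume

/-- the negation of the frozen statement gives `Sing d 1` in every dimension `d ≥ 2` -/
theorem frozen_of {d : ℕ} (hd : 2 ≤ d) (h : ¬ Sing d 1) :
    ¬ (∀ d : ℕ, 2 ≤ d →
    ∀ᵐ ω ∂(Measure.infinitePi
        (fun _ : Fin d → ℤ => (PMF.uniformOfFintype Bool).toMeasure)),
      ∀ H : lp (fun _ : Fin d → ℤ => ℂ) 2 →L[ℂ] lp (fun _ : Fin d → ℤ => ℂ) 2,
        (∀ (u : lp (fun _ : Fin d → ℤ => ℂ) 2) (j : Fin d → ℤ),
          (H u) j = -(∑ i : Fin d,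
              ((u (j + (Pi.single i (1 : ℤ) : Fin d → ℤ)) - u j)
                + (u (j - (Pi.single i (1 : ℤ) : Fin d → ℤ)) - u j)))
            + (if ω j then (1 : ℂ) else -1) * u j) →
        ∀ (ψ : lp (fun _ : Fin d → ℤ => ℂ) 2) (μ : Measure ℝ), IsFiniteMeasure μ →
          (∀ z : ℂ, z.im ≠ 0 →
            (∫ x, ((x : ℂ) - z)⁻¹ ∂μ) =
              inner ℂ ψ
                (Ring.inverse
                  (H - z • (1 : lp (fun _ : Fin d → ℤ => ℂ) 2 →L[ℂ] lp (fun _ : Fin d → ℤ => ℂ) 2))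
                  ψ)) →
          μ ⟂ₘ volume) := fun h0 => h (by
  simp only [Sing, Complex.ofReal_one, one_mul]
  exact h0 d hd)

/-- truncated imaginary part of the Green function -/
noncomputable def tg (lam η E : ℝ) (ω : Zd d → Bool) : ℝ≥0∞ :=
  min 1 (ENNReal.ofReal (gr lam ω (E + η * Complex.I)).im)

theorem tg_meas (lam : ℝ) {η : ℝ} (hη : 0 < η) :
    Measurable fun q : ℝ × (Zd d → Bool) => tg lam η q.1 q.2 :=
  measurable_const.min (Complex.measurable_im.comp (gr_meas lam hη)).ennreal_ofReal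

theorem Sing.small {lam : ℝ} (hs : Sing d lam) (a b : ℝ) :
    Tendsto (fun η => ∫⁻ E in Icc a b, ∫⁻ ω, tg lam η E ω ∂PP d) (𝓝[>] 0) (𝓝 0) := by
  have t1 : ∀ᵐ ω ∂PP d, Tendsto (fun η => ∫⁻ E in Icc a b, tg lam η E ω) (𝓝[>] 0) (𝓝 0) := by
    filter_upwards [hs] with ω hω
    obtain ⟨μ, hμ, e⟩ := spec_exists (HH_sa lam ω) (d0 d)
    refine (sing_small μ (hω (HH lam ω) (HH_apply lam ω) (d0 d) μ hμ e) a b).congr' ?_
    filter_upwards [self_mem_nhdsWithin] with η hη
    have η0 : 0 < η := hη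
    refine lintegral_congr fun E => ?_
    rw [← im_eq μ η0, e _ (by simpa using η0.ne')]
    rfl
  have t2 := tendsto_lintegral_filter_of_dominated_convergence (μ := PP d) (l := 𝓝[>] (0 : ℝ))
    (F := fun η ω => ∫⁻ E in Icc a b, tg lam η E ω) (f := fun _ => 0) (fun _ => volume (Icc a b))
    (by
      filter_upwards [self_mem_nhdsWithin] with η hη
      exact (tg_meas lam hη).lintegral_prod_left')
    (Eventually.of_forall fun η => ae_of_all _ fun ω => by
      refine (lintegral_mono fun E => min_le_left _ _).trans ?_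
      rw [setLIntegral_one])
    (by
      rw [lintegral_const, measure_univ, mul_one]
      exact measure_Icc_lt_top.ne) t1
  rw [lintegral_zero] at t2
  refine t2.congr' ?_
  filter_upwards [self_mem_nhdsWithin] with η hη
  exact (lintegral_lintegral_swap (tg_meas lam hη).aemeasurable).symm

/-- a solution of the resolvent equation in a box determines the Green function -/
theorem approx_box (lam : ℝ) (ω : Zd d → Bool) {z : ℂ} (hz : 0 < z.im) {R : ℕ} (hR : 0 < R)
    (κ : ℂ) (u : Zd d → ℂ) {K : ℝ} (K0 : 0 ≤ K)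
    (h1 : ∀ x ∈ box d R, act lam ω u x - z * u x = if x = 0 then κ else 0)
    (h2 : ∑ x ∈ box d (R + 1), ‖u x‖ ^ 2 ≤ K ^ 2) :
    z.im * ‖u 0 - κ * gr lam ω z‖ ≤ 2 * d * K / R := by
  classical
  let w : Zd d → ℂ := fun x => if x ∈ box d (R + 1) then u x else 0
  have hw : HasSum (fun x => ‖w x‖ ^ 2) (∑ x ∈ box d (R + 1), ‖u x‖ ^ 2) := by
    rw [← Finset.sum_congr rfl fun x hx => show ‖w x‖ ^ 2 = ‖u x‖ ^ 2 by simp [w, hx]]
    exact hasSum_sum_of_ne_finset_zero fun x hx => by simp [w, hx]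
  let v : L2 (Zd d) := ⟨w, mem_of hw.summable⟩
  have hv : ‖v‖ ≤ K := by
    refine (pow_le_pow_iff_left₀ (norm_nonneg _) K0 two_ne_zero).1 ?_
    have h4 : HasSum (fun x => ‖w x‖ ^ 2) (‖v‖ ^ 2) := sq_sum v
    rw [h4.unique hw]
    exact h2
  have near : ∀ x ∈ box d R, ∀ y : Zd d, ‖y‖ ≤ 1 → w (x + y) = u (x + y) := fun x hx y hy =>
    if_pos (by
      rw [mem_box] at hx ⊢
      push_cast
      exact (norm_add_le _ _).trans (add_le_add hx hy))
  have h5 := approx lam ω hz hR κ v fun x hx => by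
    rw [← h1 x hx]
    have a0 : w x = u x := by simpa using near x hx 0 (by simp)
    have a1 : ∀ i, w (x + ee i) = u (x + ee i) := fun i => near x hx _ (norm_ee i).le
    have a2 : ∀ i, w (x - ee i) = u (x - ee i) := fun i => by
      simpa [sub_eq_add_neg] using near x hx (-ee i) (by rw [norm_neg, norm_ee])
    change act lam ω w x - z * w x = _
    simp only [act, a0, a1, a2]
  have a3 : v 0 = u 0 := if_pos (by simp [mem_box]; positivity)
  rw [← a3]
  exact h5.trans (by gcongr)

/-- the average over the configurations on a finite set into which a box injects -/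
theorem bridge {ι : Type} [Fintype ι] [DecidableEq ι] (π : Zd d → ι) (T : Finset (Zd d))
    (hπ : InjOn π T) (φ : (ι → Bool) → ℝ≥0∞) (ψ : (Zd d → Bool) → ℝ≥0∞)
    (h : ∀ w ω, (∀ x ∈ T, ω x = w (π x)) → φ w ≤ ψ ω) :
    ∑ w, φ w ≤ Fintype.card (ι → Bool) * ∫⁻ ω, ψ ω ∂PP d := by
  set m := (PMF.uniformOfFintype Bool).toMeasure with hm
  let χ : (T → Bool) → ℝ≥0∞ := fun t => ⨅ ω : Zd d → Bool, ⨅ _ : T.restrict ω = t, ψ ω
  have h1 : ∫⁻ t, χ t ∂(Measure.pi fun _ : T => m) ≤ ∫⁻ ω, ψ ω ∂PP d := by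
    rw [← Measure.infinitePi_map_restrict (fun _ : Zd d => m),
      lintegral_map (measurable_of_finite _) (Finset.measurable_restrict T)]
    exact lintegral_mono fun ω => (iInf_le _ ω).trans (iInf_le _ rfl)
  have h2 : (Measure.pi fun _ : ι => m).map (fun w (x : T) => w (π x)) =
      Measure.pi fun _ : T => m := by
    have i1 := (iIndepFun_pi (μ := fun _ : ι => m) (X := fun _ => id)
      fun _ => aemeasurable_id).precomp (g := fun x : T => π x)
      fun x y e => Subtype.ext (hπ x.2 y.2 e)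
    refine (i1.map_fun_eq_pi_map fun x => (measurable_pi_apply _).aemeasurable).trans ?_
    congr 1
    funext x
    exact (measurePreserving_eval (fun _ : ι => m) (π x)).map_eq
  rw [← h2, lintegral_map (measurable_of_finite _) (measurable_of_finite _),
    lintegral_fintype] at h1
  refine le_trans ?_ (mul_le_mul_right h1 _)
  rw [Finset.mul_sum]
  refine Finset.sum_le_sum fun w _ => ?_
  have h3 : (Fintype.card (ι → Bool) : ℝ≥0∞) * (Measure.pi fun _ : ι => m) {w} = 1 := by
    rw [Measure.pi_singleton]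
    simp only [hm, PMF.toMeasure_apply_singleton _ _ (measurableSet_singleton _),
      PMF.uniformOfFintype_apply, Finset.prod_const, Finset.card_univ, Fintype.card_fun,
      Nat.cast_pow]
    rw [← mul_pow, ENNReal.mul_inv_cancel (by simp) (by simp), one_pow]
  rw [mul_left_comm, h3, mul_one]
  exact le_iInf₂ fun ω e => h w ω fun x hx => congrFun e ⟨x, hx⟩

end Pool.Agent.P.MP_d0f69c_mp.XS
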