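import Pool.Agent.P.MP_d0f69c_mp.XS.EndA

/-!
Soft end of the argument, part P: the Poisson inequality for bounded analytic functions in the
upper half plane.
-/

set_option autoImplicit false

open MeasureTheory Filter Topology Set Complex
open scoped ENNReal ComplexConjugate

namespace Pool.Agent.P.MP_d0f69c_mp.XS

/-- the disc is mapped to the half plane -/
noncomputable def cay (E0 η : ℝ) (w : ℂ) : ℂ := E0 + η * (I * (1 + w) / (1 - w))

theorem one_sub_ne {w : ℂ} (hw : ‖w‖ < 1) : 1 - w ≠ 0 := fun h => by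
  rw [← sub_eq_zero.1 h] at hw
  simp at hw

theorem cay_im (E0 : ℝ) {η : ℝ} (hη : 0 < η) {w : ℂ} (hw : ‖w‖ < 1) : 0 < (cay E0 η w).im := by
  have h1 : 0 < normSq (1 - w) := normSq_pos.2 (one_sub_ne hw)
  have h2 : normSq w < 1 := by
    rw [normSq_eq_norm_sq]
    nlinarith [norm_nonneg w]
  have h3 : (cay E0 η w).im = η * ((1 - normSq w) / normSq (1 - w)) := by
    simp only [cay, add_im, ofReal_im, mul_im, ofReal_re, div_im, mul_re, I_re, I_im, add_re,
      one_re, one_im, sub_re, sub_im, normSq_apply w]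
    field_simp
    ring
  rw [h3]
  exact mul_pos hη (div_pos (by linarith) h1)

theorem cay_diff (E0 η : ℝ) {w : ℂ} (hw : 1 - w ≠ 0) : DifferentiableAt ℂ (cay E0 η) w := by
  unfold cay
  fun_prop (disch := exact hw)

/-- the boundary point that belongs to `t` -/
noncomputable def bw (t : ℝ) : ℂ := (t - I) / (t + I)

theorem add_I_ne (t : ℝ) : (t : ℂ) + I ≠ 0 := fun h => by
  simpa using congrArg Complex.im h

theorem bw_cont : Continuous bw :=
  Continuous.div (by fun_prop) (by fun_prop) add_I_ne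

theorem exp_bw (t : ℝ) : exp ((Real.pi + 2 * Real.arctan t : ℝ) * I) = bw t := by
  have h1 := Real.cos_sq_arctan t
  have h2 : Real.sin (Real.arctan t) = t * Real.cos (Real.arctan t) := by
    have := Real.tan_arctan t
    rw [Real.tan_eq_sin_div_cos, div_eq_iff (Real.cos_arctan_pos t).ne'] at this
    exact this
  have h0 : (1 + t ^ 2) ≠ 0 := by positivity
  rw [eq_div_iff h0] at h1
  rw [bw, eq_div_iff (add_I_ne t), exp_mul_I, ← ofReal_cos, ← ofReal_sin, add_comm Real.pi,
    Real.cos_add_pi, Real.sin_add_pi, Real.cos_two_mul, Real.sin_two_mul, h2]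
  apply Complex.ext
  · simp only [mul_re, add_re, ofReal_re, ofReal_im, I_re, I_im, add_im, mul_im, sub_re]
    linear_combination 0 * h1
  · simp only [mul_re, add_re, ofReal_re, ofReal_im, I_re, I_im, add_im, mul_im, sub_im]
    linear_combination (-2) * h1

theorem norm_bw (t : ℝ) : ‖bw t‖ = 1 := by
  rw [← exp_bw, norm_exp_ofReal_mul_I]

theorem one_sub_bw (t : ℝ) : 1 - bw t = 2 * I / (t + I) := by
  have := add_I_ne t
  rw [bw]
  field_simp
  ring

theorem cay_bw (E0 : ℝ) {η : ℝ} (hη : 0 < η) (E : ℝ) : cay E0 η (bw ((E - E0) / η)) = E := by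
  have h1 := add_I_ne ((E - E0) / η)
  have h2 : (η : ℂ) ≠ 0 := by exact_mod_cast hη.ne'
  have h3 : I * (1 + bw ((E - E0) / η)) / (1 - bw ((E - E0) / η)) = ((E - E0) / η : ℝ) := by
    rw [one_sub_bw, bw]
    field_simp
    ring
  rw [cay, h3]
  push_cast
  field_simp
  ring

theorem change (E0 : ℝ) {η : ℝ} (hη : 0 < η) (g : ℂ → ℝ≥0∞) (ρ : ℝ) :
    ∫⁻ E, 2 * pk η E0 E * g (ρ * bw ((E - E0) / η)) ≤
      ∫⁻ θ in Ioc 0 (2 * Real.pi), g (circleMap 0 ρ θ) := by
  have hd : ∀ E : ℝ, HasDerivAt (fun E : ℝ => Real.pi + 2 * Real.arctan ((E - E0) / η))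
      (2 * (1 / (1 + ((E - E0) / η) ^ 2) * (1 / η))) E := fun E =>
    ((((hasDerivAt_id E).sub_const E0).div_const η).arctan.const_mul 2).const_add _
  have h := lintegral_image_eq_lintegral_abs_deriv_mul MeasurableSet.univ
    (fun E _ => (hd E).hasDerivWithinAt) (fun x _ y _ e => by
      have h1 : Real.arctan ((x - E0) / η) = Real.arctan ((y - E0) / η) := by linarith
      have h2 := Real.arctan_injective h1
      field_simp at h2
      linarith) fun θ => g (circleMap 0 ρ θ)
  rw [Measure.restrict_univ] at h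
  refine le_trans (le_of_eq ?_) (h.symm.le.trans (lintegral_mono_set ?_))
  · refine lintegral_congr fun E => ?_
    rw [circleMap, zero_add, exp_bw, abs_of_nonneg (by positivity), ENNReal.ofReal_mul zero_le_two,
      ENNReal.ofReal_ofNat, pk]
    congr 3
    field_simp
    ring
  · rintro _ ⟨E, -, rfl⟩
    have h1 := Real.arctan_lt_pi_div_two ((E - E0) / η)
    have h2 := Real.neg_pi_div_two_lt_arctan ((E - E0) / η)
    constructor <;> linarith

theorem poisson_le {F : ℂ → ℂ} (hF : ∀ z : ℂ, 0 < z.im → DifferentiableAt ℂ F z)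
    (hb : ∀ z : ℂ, 0 < z.im → ‖F z‖ ≤ 1) (hc : ∀ E : ℝ, ContinuousAt F E ∨ 1 ≤ ‖F E‖)
    (E0 : ℝ) {η : ℝ} (hη : 0 < η) :
    ∫⁻ E, pk η E0 E * ENNReal.ofReal (1 - ‖F E‖ ^ 2) ≤
      ENNReal.ofReal Real.pi * ENNReal.ofReal (1 - ‖F (E0 + η * I)‖ ^ 2) := by
  set c := F (E0 + η * I) with hc0
  let h : ℂ → ℝ := fun z => 1 + ‖c‖ ^ 2 - 2 * (conj c * F z).re
  have h1 : ∀ z, 1 - ‖F z‖ ^ 2 ≤ h z := fun z => by
    have := normSq_nonneg (F z - c)
    simp only [h, ← normSq_eq_norm_sq, normSq_apply, mul_re, conj_re, conj_im, sub_re,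
      sub_im] at this ⊢
    nlinarith
  have h2 : ∀ z : ℂ, 0 < z.im → 0 ≤ h z := fun z hz => by
    have := pow_le_one₀ (norm_nonneg _) (hb z hz) (n := 2)
    linarith [h1 z]
  have hcont : ∀ z, ContinuousAt F z → ContinuousAt h z := fun z hz => by
    simp only [h]
    fun_prop
  have dg : ∀ w : ℂ, ‖w‖ < 1 → DifferentiableAt ℂ (fun w => F (cay E0 η w)) w := fun w hw =>
    (hF _ (cay_im E0 hη hw)).comp w (cay_diff E0 η (one_sub_ne hw))
  have key : ∀ ρ : ℝ, 0 < ρ → ρ < 1 → ∫⁻ θ in Ioc 0 (2 * Real.pi),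
      ENNReal.ofReal (h (cay E0 η (circleMap 0 ρ θ))) =
        ENNReal.ofReal (2 * Real.pi * (1 - ‖c‖ ^ 2)) := by
    intro ρ r0 r1
    have n1 : ∀ θ, ‖circleMap 0 ρ θ‖ < 1 := fun θ => by
      rwa [norm_circleMap_zero, abs_of_pos r0]
    have m := circleAverage_of_differentiable_on_off_countable (f := fun w => F (cay E0 η w))
      (c := 0) (R := ρ) countable_empty (fun w hw => (dg w (by
        rw [mem_closedBall_zero_iff, abs_of_pos r0] at hw
        linarith)).continuousAt.continuousWithinAt) fun w hw => dg w (by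
        have := hw.1
        rw [mem_ball_zero_iff, abs_of_pos r0] at this
        linarith)
    have c0 : cay E0 η 0 = E0 + η * I := by simp [cay]
    rw [Real.circleAverage_def, c0, ← hc0] at m
    have cg : Continuous fun θ => F (cay E0 η (circleMap 0 ρ θ)) :=
      continuous_iff_continuousAt.2 fun θ =>
        ContinuousAt.comp (g := fun w => F (cay E0 η w)) (dg _ (n1 θ)).continuousAt
          (continuous_circleMap 0 ρ).continuousAt
    have p0 := Real.pi_pos
    have m2 : ∫ θ in (0 : ℝ)..2 * Real.pi, F (cay E0 η (circleMap 0 ρ θ)) = (2 * Real.pi : ℝ) * c := by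
      rw [← m, real_smul, ← mul_assoc, ← ofReal_mul, mul_inv_cancel₀ (by positivity)]
      simp
    have cr : Continuous fun θ => 2 * (conj c * F (cay E0 η (circleMap 0 ρ θ))).re :=
      continuous_const.mul (continuous_re.comp (continuous_const.mul cg))
    have ch : Continuous fun θ => h (cay E0 η (circleMap 0 ρ θ)) := continuous_const.sub cr
    rw [← ofReal_integral_eq_lintegral_ofReal (ch.integrableOn_Icc.mono_set Ioc_subset_Icc_self)
      (ae_of_all _ fun θ => h2 _ (cay_im E0 hη (n1 θ))),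
      ← intervalIntegral.integral_of_le (by positivity)]
    congr 1
    have m3 := reCLM.intervalIntegral_comp_comm (μ := volume)
      ((cg.const_mul (conj c)).intervalIntegrable 0 (2 * Real.pi))
    simp only [reCLM_apply] at m3
    simp only [h]
    rw [intervalIntegral.integral_sub (by simp) (cr.intervalIntegrable _ _), intervalIntegral.integral_const_mul, m3, intervalIntegral.integral_const_mul, m2,
      mul_left_comm, ← normSq_eq_conj_mul_self, normSq_eq_norm_sq, ← ofReal_mul, ofReal_re]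
    simp
    ring
  obtain ⟨ρ, -, r1, r2⟩ := exists_seq_strictMono_tendsto' (zero_lt_one (α := ℝ))
  have n2 : ∀ n t, ‖(ρ n : ℂ) * bw t‖ < 1 := fun n t => by
    rw [norm_mul, norm_bw, mul_one, norm_real, Real.norm_of_nonneg (r1 n).1.le]
    exact (r1 n).2
  have pm : Measurable (pk η E0) := by
    unfold pk
    fun_prop
  have fat := lintegral_liminf_le (μ := volume) (u := atTop) (f := fun n E => 2 * pk η E0 E *
      ENNReal.ofReal (h (cay E0 η (ρ n * bw ((E - E0) / η))))) fun n => by
    refine (pm.const_mul 2).mul (Continuous.measurable ?_).ennreal_ofReal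
    refine continuous_iff_continuousAt.2 fun E => ?_
    refine ContinuousAt.comp (g := fun w => h (cay E0 η w)) (ContinuousAt.comp (g := h)
      (f := cay E0 η) (hcont _ (hF _ (cay_im E0 hη (n2 n _))).continuousAt)
      (cay_diff E0 η (one_sub_ne (n2 n _))).continuousAt) ?_
    exact (continuous_const.mul (bw_cont.comp (by fun_prop))).continuousAt
  have up : liminf (fun n => ∫⁻ E, 2 * pk η E0 E *
      ENNReal.ofReal (h (cay E0 η (ρ n * bw ((E - E0) / η))))) atTop ≤
      2 * (ENNReal.ofReal Real.pi * ENNReal.ofReal (1 - ‖c‖ ^ 2)) := by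
    refine liminf_le_of_frequently_le' (Frequently.of_forall fun n => ?_)
    refine (change E0 hη (fun w => ENNReal.ofReal (h (cay E0 η w))) (ρ n)).trans ?_
    rw [key _ (r1 n).1 (r1 n).2, mul_assoc, ENNReal.ofReal_mul zero_le_two, ENNReal.ofReal_ofNat,
      ENNReal.ofReal_mul Real.pi_pos.le]
  rw [← ENNReal.mul_le_mul_iff_right (a := 2) two_ne_zero ENNReal.ofNat_ne_top,
    ← lintegral_const_mul' _ _ ENNReal.ofNat_ne_top]
  refine le_trans (lintegral_mono fun E => ?_) (fat.trans up)
  rcases hc E with h3 | h3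
  · have t1 : Tendsto (fun n => (ρ n : ℂ) * bw ((E - E0) / η)) atTop (𝓝 (bw ((E - E0) / η))) := by
      have := ((continuous_ofReal.tendsto 1).comp r2).mul_const (bw ((E - E0) / η))
      simpa using this
    have t2 := (cay_diff E0 η (w := bw ((E - E0) / η)) (by
      rw [one_sub_bw]
      exact div_ne_zero (by simp) (add_I_ne _))).continuousAt.tendsto.comp t1
    rw [cay_bw E0 hη] at t2
    have t3 := ENNReal.Tendsto.const_mul (a := 2 * pk η E0 E)
      (ENNReal.tendsto_ofReal ((hcont _ h3).tendsto.comp t2))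
      (Or.inr (ENNReal.mul_ne_top ENNReal.ofNat_ne_top ENNReal.ofReal_ne_top))
    refine le_trans ?_ t3.liminf_eq.ge
    rw [← mul_assoc]
    exact mul_le_mul_right (ENNReal.ofReal_le_ofReal (h1 _)) _
  · rw [ENNReal.ofReal_of_nonpos (by nlinarith), mul_zero, mul_zero]
    exact bot_le

end Pool.Agent.P.MP_d0f69c_mp.XS
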