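import Pool.Agent.P.MP_d0f69c_mp.NW1
import Pool.Agent.P.MP_d0f69c_mp.XS.EndC
import Pool.Agent.P.MP_d0f69c_mp.XS.EndP

/-!
Soft end of the argument, part D: transmission through a finite system with far away leads
excludes purely singular spectrum.
-/

set_option autoImplicit false

open MeasureTheory Filter Topology Set Complex
open scoped ENNReal ComplexConjugate Matrix

namespace Pool.Agent.P.MP_d0f69c_mp.XS

section fin

variable {ι : Type} [Fintype ι] [DecidableEq ι] {A : Matrix ι ι ℝ} {W : ι → ℂ}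

/-- the reflection coefficient of the lead at `o` -/
noncomputable def rz (A : Matrix ι ι ℝ) (W : ι → ℂ) (o : ι) (z : ℂ) : ℂ :=
  1 + 2 * I * (-(W o).im : ℝ) * NW.GG A (fun y => W y - z) o o

theorem norm_rf (α : ℝ) (g : ℂ) :
    ‖1 + 2 * I * α * g‖ ^ 2 = 1 - 4 * α * (g.im - α * ‖g‖ ^ 2) := by
  simp only [← normSq_eq_norm_sq, normSq_apply]
  simp
  ring

theorem rz_le (hA : ∀ a b, A a b = A b a) (hW : ∀ y, (W y).im ≤ 0) (o : ι) {z : ℂ}
    (hz : 0 < z.im) : ‖rz A W o z‖ ≤ 1 := by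
  have h := NW.ward_le hA (W := fun y => W y - z) (fun y => by
    simp only [sub_im]
    linarith [hW y]) o o
  simp only [sub_im] at h
  refine (pow_le_one_iff_of_nonneg (norm_nonneg _) two_ne_zero).1 ?_
  rw [rz, norm_rf]
  have h0 := hW o
  have h1 := mul_nonneg hz.le (sq_nonneg ‖NW.GG A (fun y => W y - z) o o‖)
  nlinarith

theorem rz_bdry (A : Matrix ι ι ℝ) (W : ι → ℂ) (o : ι) (z : ℂ) :
    ContinuousAt (rz A W o) z ∨ 1 ≤ ‖rz A W o z‖ := by
  have c : Continuous fun z : ℂ => NW.MM A fun y => W y - z := by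
    refine continuous_matrix fun a b => ?_
    simp only [NW.MM]
    split_ifs <;> fun_prop
  by_cases h : (NW.MM A fun y => W y - z).det = 0
  · right
    simp [rz, NW.GG, Matrix.inv_def, h]
  · left
    have e : rz A W o = fun z => 1 + 2 * I * (-(W o).im : ℝ) *
        (((NW.MM A fun y => W y - z).det)⁻¹ * (NW.MM A fun y => W y - z).adjugate o o) := by
      funext z
      simp [rz, NW.GG, Matrix.inv_def]
    rw [e]
    exact continuousAt_const.add (continuousAt_const.mul
      ((c.matrix_det.continuousAt.inv₀ h).mul (c.matrix_adjugate.matrix_elem o o).continuousAt))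

theorem rz_meas (A : Matrix ι ι ℝ) (W : ι → ℂ) (o : ι) :
    Measurable fun E : ℝ => ENNReal.ofReal (1 - ‖rz A W o E‖ ^ 2) := by
  have h : Measurable fun E : ℝ => NW.GG A (fun y => W y - E) o o :=
    (NW.meas_GG A o o).comp (f := fun E : ℝ => fun y => W y - E) (by fun_prop)
  unfold rz
  fun_prop

theorem rz_poisson (hA : ∀ a b, A a b = A b a) (hW : ∀ y, (W y).im ≤ 0) (o : ι) (E0 : ℝ) {η : ℝ}
    (hη : 0 < η) : ∫⁻ E, pk η E0 E * ENNReal.ofReal (1 - ‖rz A W o E‖ ^ 2) ≤
      ENNReal.ofReal Real.pi * ENNReal.ofReal (1 - ‖rz A W o (E0 + η * I)‖ ^ 2) :=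
  poisson_le (fun _ hz => ((NW.diff_GG hA hW o o hz).const_mul _).const_add _)
    (fun _ hz => rz_le hA hW o hz) (fun E => rz_bdry A W o E) E0 hη

end fin

theorem rank_conv {α B : ℝ} {s g u ε : ℂ} (hα : 0 < α) (hs : s.im = -α) (hB : ‖s‖ ≤ B)
    (hg : 0 ≤ g.im) (h : u * (1 + s * g) = g + ε) :
    1 - ‖1 + 2 * I * α * u‖ ^ 2 ≤ 4 * (α + B) ^ 2 / α * g.im + 4 * (α + B) * ‖ε‖ := by
  set D := 1 + s * g with hD
  set D' := 1 + conj s * g with hD'
  have B0 : 0 ≤ B := (norm_nonneg _).trans hB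
  have d1 : α * ‖g‖ ≤ ‖D‖ := by
    have e : (conj D * g).im = g.im + α * ‖g‖ ^ 2 := by
      simp only [hD, ← normSq_eq_norm_sq, normSq_apply]
      simp [hs]
      ring
    have h1 := im_le_norm (conj D * g)
    rw [e, norm_mul, norm_conj] at h1
    rcases (norm_nonneg g).eq_or_lt with h0 | h0
    · rw [← h0, mul_zero]
      exact norm_nonneg _
    · exact le_of_mul_le_mul_right (by nlinarith) h0
  have d2 : 1 ≤ ‖D‖ + B * ‖g‖ := by
    have h1 := norm_sub_le D (s * g)
    rw [hD, add_sub_cancel_right, norm_one, norm_mul, ← hD] at h1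
    exact h1.trans (by gcongr)
  have d3 : α ≤ (α + B) * ‖D‖ := by nlinarith [mul_le_mul_of_nonneg_left d1 B0]
  have d4 : ‖D‖ ^ 2 - ‖D'‖ ^ 2 = 4 * α * g.im := by
    simp only [hD, hD', ← normSq_eq_norm_sq, normSq_apply]
    simp [hs]
    ring
  have d5 : (1 + 2 * I * α * u) * D = D' + 2 * I * α * ε := by
    have e : conj s = s + 2 * I * α := by
      apply Complex.ext <;> simp [hs]
      ring
    rw [hD', e]
    linear_combination (2 * I * α) * h + hD
  set r := ‖1 + 2 * I * α * u‖ with hr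
  have d6 : ‖D'‖ ≤ r * ‖D‖ + 2 * α * ‖ε‖ := by
    have h1 := norm_sub_le ((1 + 2 * I * α * u) * D) (2 * I * α * ε)
    rw [d5, add_sub_cancel_right, ← d5] at h1
    simpa [abs_of_pos hα] using h1
  have p1 : 0 ≤ 4 * (α + B) ^ 2 / α * g.im := by positivity
  have p2 : 0 ≤ 4 * (α + B) * ‖ε‖ := by positivity
  have r0 : 0 ≤ r := norm_nonneg _
  rcases le_total 1 r with r1 | r1
  · nlinarith
  have D0 : 0 < ‖D‖ := by
    by_contra hc
    nlinarith [norm_nonneg D]
  have e0 := norm_nonneg ε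
  have d7 : (1 - r ^ 2) * ‖D‖ ^ 2 ≤ 4 * α * g.im + 4 * α * ‖ε‖ * ‖D‖ := by
    rcases le_total ‖D'‖ (r * ‖D‖) with q | q
    · nlinarith [norm_nonneg D', mul_nonneg (mul_nonneg hα.le e0) D0.le]
    · have q1 : ‖D'‖ ≤ ‖D‖ := by nlinarith [norm_nonneg D', mul_nonneg hα.le hg]
      have q2 : r * ‖D‖ ≤ ‖D‖ := mul_le_of_le_one_left D0.le r1
      have q3 := mul_le_mul (show ‖D'‖ - r * ‖D‖ ≤ 2 * α * ‖ε‖ by linarith)
        (show ‖D'‖ + r * ‖D‖ ≤ 2 * ‖D‖ by linarith) (by positivity) (by positivity)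
      nlinarith
  refine le_of_mul_le_mul_right (d7.trans ?_) (pow_pos D0 2)
  rw [add_mul]
  refine add_le_add ?_ ?_
  · rw [mul_right_comm _ g.im]
    refine mul_le_mul_of_nonneg_right ?_ hg
    rw [div_mul_eq_mul_div, le_div_iff₀ hα]
    nlinarith [pow_le_pow_left₀ hα.le d3 2]
  · nlinarith [mul_le_mul_of_nonneg_right d3 (mul_nonneg e0 D0.le)]

variable {d : ℕ}

/-- a finite system that looks like the lattice in the box of radius `R`; the potential is
`lam * sign` in the box except at the origin, where it is the fixed number `σ` -/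
structure Emb {ι : Type} [Fintype ι] (d R : ℕ) (lam : ℝ) (σ : ℂ) (A : Matrix ι ι ℝ)
    (π : Zd d → ι) (W : (ι → Bool) → ι → ℂ) : Prop where
  symm : ∀ a b, A a b = A b a
  inj : InjOn π (box d (R + 1))
  lap : ∀ x ∈ box d R, ∀ u : ι → ℂ, ∑ b, (A (π x) b : ℂ) * u b =
    -∑ i : Fin d, ((u (π (x + ee i)) - u (π x)) + (u (π (x - ee i)) - u (π x)))
  im_le : ∀ w y, (W w y).im ≤ 0
  zero : ∀ w, W w (π 0) = σ
  pot : ∀ w, ∀ x ∈ box d R, x ≠ 0 → W w (π x) = lam * if w (π x) then 1 else -1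

theorem box_sub {R : ℕ} {x : Zd d} (hx : x ∈ box d R) : x ∈ box d (R + 1) := by
  rw [mem_box] at hx ⊢
  push_cast
  linarith

theorem Emb.est {ι : Type} [Fintype ι] [DecidableEq ι] {R : ℕ} {lam : ℝ} {σ : ℂ}
    {A : Matrix ι ι ℝ} {π : Zd d → ι} {W : (ι → Bool) → ι → ℂ} (h : Emb d R lam σ A π W)
    (hσ : σ.im < 0) (hR : 0 < R) {z : ℂ} (hz : 0 < z.im) (w : ι → Bool) (ω : Zd d → Bool)
    (e : ∀ x ∈ box d R, ω x = w (π x)) :
    1 - ‖rz A (W w) (π 0) z‖ ^ 2 ≤
      4 * (-σ.im + (‖σ‖ + |lam|)) ^ 2 / (-σ.im) * (gr lam ω z).im +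
        4 * (-σ.im + (‖σ‖ + |lam|)) * (2 * d / z.im ^ 2 / R) := by
  set V : ι → ℂ := fun y => W w y - z with hV
  have v1 : ∀ y, (V y).im ≤ -z.im := fun y => by
    simp only [hV, sub_im]
    linarith [h.im_le w y]
  have v2 : ∀ y, (V y).im < 0 := fun y => by linarith [v1 y]
  set u : ι → ℂ := fun y => NW.GG A V y (π 0) with hu
  set s := σ - lam * sg ω 0 with hs
  have z0 : (0 : Zd d) ∈ box d (R + 1) := by
    rw [mem_box, norm_zero]
    positivity
  have a := approx_box lam ω hz hR (1 - s * u (π 0)) (fun x => u (π x)) (K := z.im⁻¹)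
    (by positivity) (fun x hx => by
      have m := congrFun (NW.MG h.symm v2 (Pi.single (π 0) 1)) (π x)
      rw [NW.MM_mv] at m
      simp only [NW.col] at m
      rw [h.lap x hx] at m
      simp only [act, hu]
      split_ifs with x0
      · subst x0
        simp only [Pi.single_eq_same, hV, h.zero] at m ⊢
        linear_combination m
      · rw [Pi.single_eq_of_ne fun c => x0 (h.inj (box_sub hx) z0 c)] at m
        simp only [hV, h.pot w x hx x0, sg, e x hx] at m ⊢
        linear_combination m) (by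
      rw [← Finset.sum_image (f := fun y => ‖u y‖ ^ 2) h.inj]
      refine (Finset.sum_le_sum_of_subset_of_nonneg (Finset.subset_univ _)
        fun _ _ _ => sq_nonneg _).trans ?_
      have w1 := NW.ward h.symm v2 (π 0)
      have w2 := (im_le_norm _).trans (NW.entry_le h.symm hz v1 (π 0) (π 0))
      have w3 : z.im * ∑ y, ‖u y‖ ^ 2 ≤ z.im⁻¹ := by
        rw [Finset.mul_sum]
        refine le_trans (Finset.sum_le_sum fun y _ => ?_) (w1.symm.le.trans w2)
        exact mul_le_mul_of_nonneg_right (by linarith [v1 y]) (sq_nonneg _)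
      rw [sq, ← div_eq_mul_inv, le_div_iff₀' hz]
      exact w3)
  have s1 : s.im = - -σ.im := by
    simp only [hs, sg]
    split_ifs <;> simp
  have s2 : ‖s‖ ≤ ‖σ‖ + |lam| := by
    refine (norm_sub_le _ _).trans (add_le_add le_rfl ?_)
    rw [norm_mul, norm_real, Real.norm_eq_abs]
    exact mul_le_of_le_one_right (abs_nonneg _) (sg_le ω 0)
  have g0 : 0 ≤ (gr lam ω z).im := by
    rw [gr, im_GG (HH_sa lam ω) hz.ne']
    positivity
  have k := rank_conv (u := u (π 0)) (ε := u (π 0) - (1 - s * u (π 0)) * gr lam ω z)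
    (neg_pos.2 hσ) s1 s2 g0 (by ring)
  rw [rz, h.zero]
  refine k.trans (add_le_add le_rfl (mul_le_mul_of_nonneg_left ?_ ?_))
  · rw [← le_div_iff₀' hz] at a
    refine a.trans (le_of_eq ?_)
    field_simp
  · have := neg_pos.2 hσ
    positivity

/-- what the core of the proof has to deliver -/
def CoreR (d : ℕ) (lam α B a b c : ℝ) : Prop :=
  ∀ R : ℕ, ∃ σ : ℂ, α ≤ -σ.im ∧ ‖σ‖ ≤ B ∧ ∃ (ι : Type) (_ : Fintype ι) (_ : DecidableEq ι)
    (A : Matrix ι ι ℝ) (π : Zd d → ι) (W : (ι → Bool) → ι → ℂ),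
      Emb d R lam σ A π W ∧ ∃ S ⊆ Icc a b, ENNReal.ofReal c ≤ volume S ∧
      ∀ E ∈ S, c * Fintype.card (ι → Bool) ≤ ∑ w, (1 - ‖rz A (W w) (π 0) E‖ ^ 2)

theorem pk_low {η a b E : ℝ} (hη : 0 < η) (h1 : η ≤ 1) (hE : E ∈ Icc a b) :
    1 ≤ ∫⁻ E0 in Icc (a - 1) (b + 1), pk η E0 E := by
  refine le_trans ?_ (lintegral_mono_set (Icc_subset_Icc (a₁ := E - η) (b₁ := E + η)
    (by linarith [hE.1]) (by linarith [hE.2])))
  refine le_trans ?_ (setLIntegral_mono' (f := fun _ => ENNReal.ofReal (1 / (2 * η)))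
    measurableSet_Icc fun x hx => ENNReal.ofReal_le_ofReal ?_)
  · rw [setLIntegral_const, Real.volume_Icc, ← ENNReal.ofReal_mul (by positivity),
      ENNReal.one_le_ofReal]
    refine le_of_eq ?_
    field_simp
    ring
  · rw [div_le_div_iff₀ (by positivity) (by positivity)]
    nlinarith [hx.1, hx.2]

theorem CoreR.low {lam α B a b c : ℝ} (h : CoreR d lam α B a b c) (hα : 0 < α)
    {η : ℝ} (hη : 0 < η) (h1 : η ≤ 1) {R : ℕ} (hR : 0 < R) :
    ENNReal.ofReal c * ENNReal.ofReal c ≤ ENNReal.ofReal Real.pi *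
      (ENNReal.ofReal (1 + 4 * (2 * B + |lam|) ^ 2 / α) *
        (∫⁻ E in Icc (a - 1) (b + 1), ∫⁻ ω, tg lam η E ω ∂PP d) +
        ENNReal.ofReal (4 * (2 * B + |lam|) * (2 * d / η ^ 2 / R)) *
          volume (Icc (a - 1) (b + 1))) := by
  obtain ⟨σ, σ1, σ2, ι, _, _, A, π, W, em, S, s1, s2, s3⟩ := h R
  have hσ : σ.im < 0 := by linarith
  have σ3 : -σ.im + (‖σ‖ + |lam|) ≤ 2 * B + |lam| := by
    linarith [(neg_le_abs _).trans (abs_im_le_norm σ)]
  set C := 4 * (2 * B + |lam|) ^ 2 / α with hC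
  set δ := 4 * (2 * B + |lam|) * (2 * d / η ^ 2 / R) with hδ
  set N : ℝ≥0∞ := ((Fintype.card (ι → Bool) : ℕ) : ℝ≥0∞) with hN
  have α0 := neg_pos.2 hσ
  have C0 : 0 ≤ C := by positivity
  let f : ℝ → ℝ≥0∞ := fun E => ∑ w, ENNReal.ofReal (1 - ‖rz A (W w) (π 0) E‖ ^ 2)
  have fm : Measurable f := Finset.measurable_sum _ fun w _ => rz_meas A _ _
  have up : ∀ E0, ∫⁻ E, pk η E0 E * f E ≤ N * (ENNReal.ofReal Real.pi *
      (ENNReal.ofReal (1 + C) * (∫⁻ ω, tg lam η E0 ω ∂PP d) + ENNReal.ofReal δ)) := by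
    intro E0
    simp only [f, Finset.mul_sum]
    have pm : Measurable (pk η E0) := by
      unfold pk
      fun_prop
    rw [lintegral_finsetSum _ fun w _ => pm.fun_mul (rz_meas A _ _)]
    refine (Finset.sum_le_sum fun w _ => rz_poisson em.symm (em.im_le w) _ E0 hη).trans ?_
    rw [← Finset.mul_sum, mul_left_comm]
    refine mul_le_mul_right ((bridge π (box d R) (em.inj.mono fun x hx => box_sub hx) _
      (fun ω => ENNReal.ofReal (1 + C) * tg lam η E0 ω + ENNReal.ofReal δ)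
      fun w ω e => ?_).trans (le_of_eq ?_)) _
    · have z0 : (E0 + η * I : ℂ).im = η := by simp
      have k := em.est hσ hR (z := E0 + η * I) (by rwa [z0]) w ω e
      have g0 : 0 ≤ (gr lam ω (E0 + η * I)).im := by
        rw [gr, im_GG (HH_sa lam ω) (by rw [z0]; exact hη.ne')]
        rw [z0]
        positivity
      rw [z0] at k
      replace k := k.trans (show _ ≤ C * (gr lam ω (E0 + η * I)).im + δ by
        rw [hC, hδ]
        gcongr)
      unfold tg
      rcases le_total 1 (ENNReal.ofReal (gr lam ω (E0 + η * I)).im) with q | q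
      · rw [min_eq_left q, mul_one]
        exact le_add_right (ENNReal.ofReal_le_ofReal (by nlinarith))
      · rw [min_eq_right q]
        refine (ENNReal.ofReal_le_ofReal k).trans (ENNReal.ofReal_add_le.trans ?_)
        rw [ENNReal.ofReal_mul C0]
        gcongr
        linarith
    · rw [lintegral_add_right _ measurable_const, lintegral_const, measure_univ, mul_one,
        lintegral_const_mul' _ _ ENNReal.ofReal_ne_top]
  have low : N * (ENNReal.ofReal c * ENNReal.ofReal c) ≤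
      ∫⁻ E0 in Icc (a - 1) (b + 1), ∫⁻ E, pk η E0 E * f E := by
    rw [lintegral_lintegral_swap ((pk_meas η).mul (fm.comp measurable_snd)).aemeasurable]
    refine le_trans ?_ (lintegral_mono (f := (Icc a b).indicator f) fun E => ?_)
    · rw [lintegral_indicator measurableSet_Icc, ← mul_assoc]
      refine le_trans (mul_le_mul_right ?_ _) (mul_meas_ge_le_lintegral fm _)
      rw [Measure.restrict_apply' measurableSet_Icc]
      refine s2.trans (measure_mono fun E hE => ⟨?_, s1 hE⟩)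
      have := ENNReal.ofReal_le_ofReal (s3 E hE)
      rw [ENNReal.ofReal_mul' (Nat.cast_nonneg _), ENNReal.ofReal_natCast, mul_comm] at this
      exact this.trans (Finset.le_sum_of_subadditive ENNReal.ofReal ENNReal.ofReal_zero.le
        (fun _ _ => ENNReal.ofReal_add_le) _ _)
    · by_cases hE : E ∈ Icc a b
      · have pm : Measurable fun x => pk η x E := by
          unfold pk
          fun_prop
        rw [indicator_of_mem hE, lintegral_mul_const _ pm]
        exact le_mul_of_one_le_left' (pk_low hη h1 hE)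
      · rw [indicator_of_notMem hE]
        exact bot_le
  have fin := low.trans (lintegral_mono up)
  have N1 : N ≠ ∞ := ENNReal.natCast_ne_top _
  rw [lintegral_const_mul' _ _ N1, lintegral_const_mul' _ _ ENNReal.ofReal_ne_top,
    lintegral_add_right _ measurable_const, lintegral_const_mul' _ _ ENNReal.ofReal_ne_top,
    setLIntegral_const] at fin
  exact (ENNReal.mul_le_mul_iff_right (by simp [hN]) N1).1 fin

/-- the soft end of the argument -/
theorem CoreR.not_sing {lam α B a b c : ℝ} (h : CoreR d lam α B a b c) (hα : 0 < α)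
    (hc : 0 < c) : ¬ Sing d lam := fun hs => by
  set C := ENNReal.ofReal (1 + 4 * (2 * B + |lam|) ^ 2 / α)
  have t1 : ∀ η : ℝ, 0 < η → η ≤ 1 → ENNReal.ofReal c * ENNReal.ofReal c ≤
      ENNReal.ofReal Real.pi * (C * ∫⁻ E in Icc (a - 1) (b + 1), ∫⁻ ω, tg lam η E ω ∂PP d) := by
    intro η hη h1
    have t0 := ENNReal.tendsto_ofReal ((tendsto_const_div_atTop_nhds_zero_nat
      (2 * d / η ^ 2 : ℝ)).const_mul (4 * (2 * B + |lam|)))
    rw [mul_zero, ENNReal.ofReal_zero] at t0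
    have t2 := ENNReal.Tendsto.const_mul (a := ENNReal.ofReal Real.pi)
      ((ENNReal.Tendsto.mul_const (b := volume (Icc (a - 1) (b + 1))) t0
        (Or.inr measure_Icc_lt_top.ne)).const_add
        (C * ∫⁻ E in Icc (a - 1) (b + 1), ∫⁻ ω, tg lam η E ω ∂PP d)) (Or.inr ENNReal.ofReal_ne_top)
    rw [zero_mul, add_zero] at t2
    exact ge_of_tendsto t2 ((eventually_gt_atTop 0).mono fun R hR => h.low hα hη h1 hR)
  have t3 := ENNReal.Tendsto.const_mul (a := ENNReal.ofReal Real.pi)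
    (ENNReal.Tendsto.const_mul (a := C) (hs.small (a - 1) (b + 1)) (Or.inr ENNReal.ofReal_ne_top))
    (Or.inr ENNReal.ofReal_ne_top)
  rw [mul_zero, mul_zero] at t3
  have c0 := (ENNReal.ofReal_pos.2 hc).ne'
  refine absurd (ge_of_tendsto t3 ?_) (not_le.2 (ENNReal.mul_pos c0 c0))
  filter_upwards [Ioc_mem_nhdsGT zero_lt_one] with η hη
  exact t1 η hη.1 hη.2

end Pool.Agent.P.MP_d0f69c_mp.XS
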