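import Pool.Agent.P.MP_d0f69c_mp.XS.EndD

/-!
Soft end of the argument, part E: closing leads with a random phase reproduces the open lead.
-/

set_option autoImplicit false

open Finset Complex
open scoped ComplexConjugate Matrix

namespace Pool.Agent.P.MP_d0f69c_mp.XS

/-- the roots of `z ^ N = -1` -/
noncomputable def zt (N k : ℕ) : ℂ := exp (Real.pi * I / N) * exp (2 * Real.pi * I / N) ^ k

/-- the real values by which a lead `σ` is closed -/
noncomputable def val (σ : ℂ) (N k : ℕ) : ℝ := (σ + 2 * I * σ.im * zt N k / (1 - zt N k)).re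

theorem zt_pow {N : ℕ} (hN : N ≠ 0) (k : ℕ) : zt N k ^ N = -1 := by
  have h : (N : ℂ) ≠ 0 := by exact_mod_cast hN
  rw [zt, mul_pow, ← pow_mul, mul_comm k, pow_mul, (isPrimitiveRoot_exp N hN).pow_eq_one, one_pow,
    mul_one, ← exp_nat_mul, mul_div_cancel₀ _ h, exp_pi_mul_I]

theorem norm_zt {N : ℕ} (hN : N ≠ 0) (k : ℕ) : ‖zt N k‖ = 1 := by
  have := congrArg norm (zt_pow hN k)
  rwa [norm_pow, norm_neg, norm_one, pow_eq_one_iff_of_nonneg (norm_nonneg _) hN] at this

theorem zt_ne {N : ℕ} (hN : N ≠ 0) (k : ℕ) : 1 - zt N k ≠ 0 := fun h => by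
  have := zt_pow hN k
  rw [← sub_eq_zero.1 h, one_pow] at this
  norm_num at this

theorem val_eq (σ : ℂ) {N : ℕ} (hN : N ≠ 0) (k : ℕ) :
    (val σ N k : ℂ) = σ + 2 * I * σ.im * zt N k / (1 - zt N k) := by
  refine Complex.ext (by simp [val]) ?_
  have h1 : normSq (zt N k) = 1 := by rw [normSq_eq_norm_sq, norm_zt hN, one_pow]
  have h2 := (normSq_pos.2 (zt_ne hN k)).ne'
  rw [ofReal_im, add_im, div_im, ← sub_div, eq_comm, add_eq_zero_iff_neg_eq, eq_div_iff h2]
  simp only [normSq_apply] at h1 ⊢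
  simp
  linear_combination (σ.im) * h1

theorem zt_sum {N : ℕ} {m : ℕ} (h0 : m ≠ 0) (h : m < N) : ∑ k ∈ range N, zt N k ^ m = 0 := by
  have p := isPrimitiveRoot_exp N (by omega)
  have h1 := mul_geom_sum (exp (2 * Real.pi * I / N) ^ m) N
  rw [← pow_mul, mul_comm m, pow_mul, p.pow_eq_one, one_pow, sub_self, mul_eq_zero] at h1
  have h2 := h1.resolve_left (sub_ne_zero.2 (p.pow_ne_one_of_pos_of_lt h0 h))
  simp only [zt, mul_pow, ← pow_mul, ← mul_sum] at h2 ⊢
  simp only [mul_comm _ m, h2, mul_zero]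

theorem zt_avg {N : ℕ} (hN : N ≠ 0) {β c : ℂ} (hβ : ‖β‖ ≤ 1) (hc : ‖c‖ ≤ 1 - ‖β‖ ^ 2) :
    ‖∑ k ∈ range N, c * (zt N k / (1 - β * zt N k))‖ ≤ 2 := by
  rcases hβ.eq_or_lt with b1 | b1
  · rw [b1, one_pow, sub_self, norm_le_zero_iff] at hc
    simp [hc]
  obtain ⟨n, rfl⟩ := Nat.exists_eq_succ_of_ne_zero hN
  have b0 := norm_nonneg β
  have b2 : ‖β‖ ^ (n + 1) < 1 := pow_lt_one₀ b0 b1 hN
  have b3 : 1 - ‖β‖ ^ (n + 1) ≤ ‖1 + β ^ (n + 1)‖ := by
    have := norm_sub_norm_le 1 (-β ^ (n + 1))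
    rwa [norm_neg, norm_pow, norm_one, sub_neg_eq_add] at this
  have b4 : 1 + β ^ (n + 1) ≠ 0 := norm_pos_iff.1 (by linarith)
  have e : ∀ k, zt (n + 1) k / (1 - β * zt (n + 1) k) =
      (∑ j ∈ range (n + 1), β ^ j * zt (n + 1) k ^ (j + 1)) / (1 + β ^ (n + 1)) := fun k => by
    have h1 := mul_neg_geom_sum (β * zt (n + 1) k) (n + 1)
    rw [mul_pow, zt_pow hN, mul_neg_one, sub_neg_eq_add] at h1
    rw [div_eq_div_iff (left_ne_zero_of_mul (h1 ▸ b4)) b4, ← h1, mul_left_comm, mul_comm, mul_sum]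
    congr 1
    exact sum_congr rfl fun j _ => by ring
  have s : ∑ k ∈ range (n + 1), ∑ j ∈ range (n + 1), β ^ j * zt (n + 1) k ^ (j + 1) =
      -((n + 1 : ℕ) * β ^ n) := by
    rw [sum_comm, sum_range_succ, sum_eq_zero fun j hj => by
      rw [← mul_sum, zt_sum (by omega) (by simpa using hj), mul_zero]]
    simp [zt_pow hN]
  simp only [Nat.succ_eq_add_one, e]
  rw [← mul_sum, ← sum_div, s, norm_mul, norm_div, norm_neg, norm_mul, norm_pow, norm_natCast,
    ← mul_div_assoc, div_le_iff₀ (by linarith)]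
  have g := mul_neg_geom_sum ‖β‖ (n + 1)
  have g2 : ((n + 1 : ℕ) : ℝ) * ‖β‖ ^ n ≤ ∑ j ∈ range (n + 1), ‖β‖ ^ j := by
    have := card_nsmul_le_sum (range (n + 1)) (fun j => ‖β‖ ^ j) (‖β‖ ^ n) fun j hj =>
      pow_le_pow_of_le_one b0 hβ (by simpa [Nat.lt_succ_iff] using hj)
    simpa using this
  have g3 : ‖c‖ ≤ 2 * (1 - ‖β‖) := by nlinarith
  calc _ ≤ 2 * (1 - ‖β‖) * ∑ j ∈ range (n + 1), ‖β‖ ^ j := by gcongr
    _ ≤ _ := by rw [mul_assoc, g]; linarith

variable {ι : Type} [Fintype ι] [DecidableEq ι] {A : Matrix ι ι ℝ} {V : ι → ℂ}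

/-- the reflection coefficient at a fixed energy -/
noncomputable def rf (A : Matrix ι ι ℝ) (V : ι → ℂ) (o : ι) : ℂ :=
  1 + 2 * I * (-(V o).im : ℝ) * NW.GG A V o o

theorem ward' (hA : ∀ a b, A a b = A b a) (hu : IsUnit (NW.MM A V).det) (a : ι) :
    (NW.GG A V a a).im = ∑ y, -(V y).im * ‖NW.GG A V y a‖ ^ 2 := by
  have e := NW.form_univ hA V (NW.GG A V *ᵥ Pi.single a 1)
  rw [Matrix.mulVec_mulVec, NW.GG, Matrix.mul_nonsing_inv _ hu, Matrix.one_mulVec,
    sum_eq_single a (fun b _ hb => by simp [hb]) (by simp)] at e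
  simp only [NW.col, Pi.single_eq_same, mul_one, conj_im] at e
  simp only [neg_mul, sum_neg_distrib, NW.GG, ← e, neg_neg]

theorem rank_one' (hu : IsUnit (NW.MM A V).det) (x : ι) (s : ℂ)
    (hu' : IsUnit (NW.MM A (Function.update V x (V x + s))).det) (a b : ι) :
    NW.GG A (Function.update V x (V x + s)) a b =
      NW.GG A V a b - s / (1 + s * NW.GG A V x x) * (NW.GG A V a x * NW.GG A V x b) := by
  set V' := Function.update V x (V x + s) with hV
  have e : NW.MM A V' = NW.MM A V + Matrix.single x x s := by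
    ext a b
    by_cases h : a = x
    · subst h
      by_cases h' : a = b
      · subst h'
        simp [NW.MM, hV, add_assoc]
      · simp [NW.MM, h']
    · simp [NW.MM, hV, h, Ne.symm h]
  have k : ∀ a b, NW.GG A V a b = NW.GG A V' a b + s * NW.GG A V' x b * NW.GG A V a x := by
    intro a b
    have h1 : NW.GG A V * (NW.MM A V' * NW.GG A V') = NW.GG A V := by
      rw [NW.GG, NW.GG, Matrix.mul_nonsing_inv _ hu', Matrix.mul_one]
    nth_rw 1 [e] at h1
    rw [Matrix.add_mul, Matrix.mul_add, ← Matrix.mul_assoc, NW.GG, Matrix.nonsing_inv_mul _ hu,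
      Matrix.one_mul] at h1
    have h2 := congrFun (congrFun h1 a) b
    rw [Matrix.add_apply, Matrix.mul_apply, sum_eq_single x
      (fun c _ hc => by rw [Matrix.single_mul_apply_of_ne _ _ _ _ _ hc, mul_zero]) (by simp),
      Matrix.single_mul_apply_same] at h2
    rw [NW.GG, ← h2]
    ring
  have n : 1 + s * NW.GG A V x x ≠ 0 := by
    intro h
    have z : NW.GG A V x x = 0 := by linear_combination k x x + NW.GG A V' x x * h
    rw [z] at h
    simp at h
  field_simp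
  linear_combination (-(1 + s * NW.GG A V x x)) * k a b + s * NW.GG A V a x * k x b

theorem rf_le (hA : ∀ a b, A a b = A b a) (hV : ∀ y, (V y).im ≤ 0)
    (hu : IsUnit (NW.MM A V).det) (o : ι) : ‖rf A V o‖ ≤ 1 := by
  refine (pow_le_one_iff_of_nonneg (norm_nonneg _) two_ne_zero).1 ?_
  rw [rf, norm_rf, ward' hA hu]
  have := single_le_sum (f := fun y => -(V y).im * ‖NW.GG A V y o‖ ^ 2)
    (fun y _ => mul_nonneg (by linarith [hV y]) (sq_nonneg _)) (mem_univ o)
  nlinarith [hV o]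

theorem one_site (hA : ∀ a b, A a b = A b a) (hV : ∀ y, (V y).im ≤ 0)
    (hu : IsUnit (NW.MM A V).det) {o y : ι} (h : o ≠ y) (e : V o = V y) {N : ℕ} (hN : N ≠ 0)
    (hu' : ∀ k : Fin N, IsUnit (NW.MM A (Function.update V y (val (V y) N k))).det) :
    ‖∑ k : Fin N, (rf A (Function.update V y (val (V y) N k)) o - rf A V o)‖ ≤ 2 := by
  have w := ward' hA hu y
  have w1 := sum_le_sum_of_subset_of_nonneg (subset_univ {o, y})
    (f := fun z => -(V z).im * ‖NW.GG A V z y‖ ^ 2)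
    fun z _ _ => mul_nonneg (by linarith [hV z]) (sq_nonneg _)
  rw [sum_pair h, ← w, e] at w1
  have a := zt_avg hN (rf_le hA hV hu y)
    (c := (2 * I * (V y).im) ^ 2 * (NW.GG A V o y * NW.GG A V y o)) (by
      rw [rf, norm_rf, NW.GG_symm hA V y o]
      simp only [norm_mul, norm_pow, norm_I, norm_real, Real.norm_eq_abs, Complex.norm_ofNat,
        mul_pow, sq_abs]
      nlinarith [hV y])
  rw [← Fin.sum_univ_eq_sum_range (fun k => (2 * I * (V y).im) ^ 2 *
    (NW.GG A V o y * NW.GG A V y o) * (zt N k / (1 - rf A V y * zt N k)))] at a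
  refine le_trans (le_of_eq ?_) a
  congr 1
  refine sum_congr rfl fun k _ => ?_
  have h1 := hu' k
  rw [val_eq _ hN] at h1 ⊢
  have h2 := zt_ne hN k
  have h3 : 2 * I * (V y).im * zt N k / (1 - zt N k) /
      (1 + 2 * I * (V y).im * zt N k / (1 - zt N k) * NW.GG A V y y) =
      2 * I * (V y).im * (zt N k / (1 - rf A V y * zt N k)) := by
    rw [div_div, mul_div_assoc, rf]
    congr 2
    push_cast
    field_simp
    ring
  rw [show rf A V o = 1 + 2 * I * (-(V o).im : ℝ) * NW.GG A V o o from rfl, rf,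
    rank_one' hu _ _ h1, h3, Function.update_of_ne h, e]
  push_cast
  ring

/-- close the sites of `U` by the values selected by `ξ` -/
noncomputable def clos (σ : ℂ) {N : ℕ} (V : ι → ℂ) (U : Finset ι) (ξ : ι → Fin N) (y : ι) : ℂ :=
  if y ∈ U then val σ N (ξ y) else V y

theorem sum_upd {κ : Type} [Fintype κ] (y : ι) (F : (ι → κ) → ℂ) :
    ∑ ξ : ι → κ, ∑ k, F (Function.update ξ y k) = Fintype.card κ * ∑ ξ, F ξ := by
  have i : Function.Involutive fun p : (ι → κ) × κ => (Function.update p.1 y p.2, p.1 y) :=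
    fun p => by simp
  rw [← Fintype.sum_prod_type', ← i.bijective.sum_comp fun p => F (Function.update p.1 y p.2)]
  simp [Fintype.sum_prod_type, mul_sum]

theorem many_site (hA : ∀ a b, A a b = A b a) (hV : ∀ y, (V y).im ≤ 0) {σ : ℂ} {o : ι}
    (ho : V o = σ) {N : ℕ} (hN : N ≠ 0) (P : Finset ι) (hP : ∀ y ∈ P, y ≠ o ∧ V y = σ)
    (hu : ∀ U ⊆ P, ∀ ξ : ι → Fin N, IsUnit (NW.MM A (clos σ V U ξ)).det) :
    N * ‖∑ ξ : ι → Fin N, (rf A (clos σ V P ξ) o - rf A V o)‖ ≤
      2 * P.card * Fintype.card (ι → Fin N) := by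
  induction P using Finset.induction_on with
  | empty =>
    have : ∀ ξ : ι → Fin N, clos σ V ∅ ξ = V := fun ξ => funext fun y => by simp [clos]
    simp [this]
  | insert y P hy ih =>
    have i := ih (fun z hz => hP z (mem_insert_of_mem hz))
      fun U hU => hu U (hU.trans (subset_insert _ _))
    obtain ⟨y0, y1⟩ := hP y (mem_insert_self _ _)
    have o1 : o ∉ P := fun h => (hP o (mem_insert_of_mem h)).1 rfl
    have c0 : ∀ ξ : ι → Fin N, clos σ V P ξ y = σ := fun ξ => by simp [clos, hy, y1]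
    have c1 : ∀ (ξ : ι → Fin N) k, clos σ V P (Function.update ξ y k) = clos σ V P ξ :=
      fun ξ k => funext fun z => by
        by_cases h : z ∈ P
        · simp [clos, h, Function.update_of_ne (ne_of_mem_of_not_mem h hy)]
        · simp [clos, h]
    have c2 : ∀ (ξ : ι → Fin N) k, clos σ V (insert y P) (Function.update ξ y k) =
        Function.update (clos σ V P ξ) y (val (clos σ V P ξ y) N k) :=
      fun ξ k => funext fun z => by
        by_cases h : z = y
        · subst h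
          simp [clos, hy, y1]
        · simp [clos, h]
    have s := sum_upd y fun ξ : ι → Fin N =>
      rf A (clos σ V (insert y P) ξ) o - rf A (clos σ V P ξ) o
    simp only [c1, c2, Fintype.card_fin] at s
    have s1 := norm_sum_le_of_le univ fun (ξ : ι → Fin N) _ => one_site hA
      (V := clos σ V P ξ) (fun z => by
        unfold clos
        split_ifs
        · simp
        · exact hV z) (hu P (subset_insert _ _) ξ) y0.symm (by rw [c0]; simp [clos, o1, ho]) hN
      fun k => c2 ξ k ▸ hu _ subset_rfl _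
    rw [s, norm_mul, norm_natCast, sum_const, card_univ, nsmul_eq_mul] at s1
    have s2 := norm_add_le (∑ ξ : ι → Fin N, (rf A (clos σ V (insert y P) ξ) o -
      rf A (clos σ V P ξ) o)) (∑ ξ : ι → Fin N, (rf A (clos σ V P ξ) o - rf A V o))
    rw [← sum_add_distrib] at s2
    simp only [sub_add_sub_cancel] at s2
    rw [card_insert_of_notMem hy]
    push_cast
    nlinarith [mul_le_mul_of_nonneg_left s2 (Nat.cast_nonneg (α := ℝ) N)]

/-- `a` on `O` and `b` elsewhere -/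
def mix {κ : Type} (O : Finset ι) (a b : ι → κ) (y : ι) : κ := if y ∈ O then a y else b y

/-- the tower property for a stopping set -/
theorem sum_stop {κ : Type} [Fintype κ] (O : (ι → κ) → Finset ι)
    (hO : ∀ ξ ξ', (∀ y ∉ O ξ, ξ' y = ξ y) → O ξ' = O ξ) (F : (ι → κ) → ℂ) :
    ∑ ξ, ∑ ξ', F (mix (O ξ) ξ' ξ) = Fintype.card (ι → κ) * ∑ ξ, F ξ := by
  have i : Function.Involutive fun p : (ι → κ) × (ι → κ) =>
      (mix (O p.1) p.2 p.1, mix (O p.1) p.1 p.2) := fun p => by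
    have := hO p.1 (mix (O p.1) p.2 p.1) fun y hy => if_neg hy
    simp only [this]
    ext y <;> by_cases h : y ∈ O p.1 <;> simp [mix, h]
  rw [← Fintype.sum_prod_type', i.bijective.sum_comp fun p => F p.1]
  simp [Fintype.sum_prod_type, mul_sum]

/-- closing a stopping set of leads does not increase the mean transmission, up to `8 |Ω| / N` -/
theorem stop_avg (hA : ∀ a b, A a b = A b a) (hV : ∀ y, (V y).im ≤ 0) {σ : ℂ} {o : ι}
    {Ω : Finset ι} (ho : o ∈ Ω) (hΩ : ∀ y ∈ Ω, V y = σ) {N : ℕ} (hN : N ≠ 0)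
    (hu : ∀ U ⊆ Ω, ∀ ξ : ι → Fin N, IsUnit (NW.MM A (clos σ V U ξ)).det)
    (O : (ι → Fin N) → Finset ι) (hO : ∀ ξ ξ', (∀ y ∉ O ξ, ξ' y = ξ y) → O ξ' = O ξ) :
    ∑ ξ : ι → Fin N, (1 - ‖rf A (clos σ V (Ω.erase o \ O ξ) ξ) o‖ ^ 2) ≤
      Fintype.card (ι → Fin N) * (1 - ‖rf A V o‖ ^ 2 + 8 * Ω.card / N) := by
  set P := Ω.erase o with hP
  set K : ℝ := ((Fintype.card (ι → Fin N) : ℕ) : ℝ) with hK
  have : NeZero N := ⟨hN⟩
  have K0 : 0 < K := by simp [hK, Nat.pos_of_ne_zero hN]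
  have N0 : (0 : ℝ) < N := by simp [Nat.pos_of_ne_zero hN]
  have p0 : P ⊆ Ω := erase_subset _ _
  have a1 := many_site hA hV (hΩ o ho) hN P (fun y hy => ⟨ne_of_mem_erase hy, hΩ y (p0 hy)⟩)
    fun U hU => hu U (hU.trans p0)
  have cc : ∀ (ξ ξ' : ι → Fin N) U, U ⊆ P ∩ O ξ → clos σ (clos σ V (P \ O ξ) ξ) U ξ' =
      clos σ V (U ∪ P \ O ξ) (mix (O ξ) ξ' ξ) := fun ξ ξ' U hU => funext fun y => by
    by_cases h : y ∈ U
    · simp [clos, mix, h, (mem_inter.1 (hU h)).2]
    · by_cases h' : y ∈ O ξ <;> simp [clos, mix, h, h']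
  have a2 : ∀ ξ : ι → Fin N, N * ‖∑ ξ', (rf A (clos σ V P (mix (O ξ) ξ' ξ)) o -
      rf A (clos σ V (P \ O ξ) ξ) o)‖ ≤ 2 * Ω.card * K := fun ξ => by
    have := many_site hA (V := clos σ V (P \ O ξ) ξ) (σ := σ) (o := o) (fun z => by
        unfold clos
        split_ifs
        · simp
        · exact hV z) (by simp [clos, hP, hΩ o ho]) hN (P ∩ O ξ) (fun y hy => by
        rw [mem_inter] at hy
        exact ⟨ne_of_mem_erase hy.1, by simp [clos, hy.2, hΩ y (p0 hy.1)]⟩) fun U hU ξ' => by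
        rw [cc ξ ξ' U hU]
        exact hu _ (union_subset ((hU.trans inter_subset_left).trans p0) (sdiff_subset.trans p0)) _
    simp only [cc ξ _ _ subset_rfl, union_comm (P ∩ O ξ), sdiff_union_inter] at this
    refine this.trans ?_
    gcongr
    exact inter_subset_left.trans p0
  have a3 : N * ‖∑ ξ : ι → Fin N, (rf A (clos σ V P ξ) o - rf A (clos σ V (P \ O ξ) ξ) o)‖ ≤
      2 * Ω.card * K := by
    have s := sum_stop O hO fun ξ => rf A (clos σ V P ξ) o
    have s1 := norm_sum_le_of_le univ fun (ξ : ι → Fin N) _ => (le_div_iff₀' N0).2 (a2 ξ)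
    simp only [sum_sub_distrib, s, sum_const, card_univ, nsmul_eq_mul, ← mul_sum, ← mul_sub,
      norm_mul, norm_natCast, ← hK] at s1
    rw [sum_sub_distrib, ← le_div_iff₀' N0]
    exact le_of_mul_le_mul_left s1 K0
  have r1 : ‖rf A V o‖ ≤ 1 := rf_le hA hV (by
    have := hu ∅ (empty_subset _) 0
    rwa [show clos σ V ∅ (0 : ι → Fin N) = V from funext fun y => by simp [clos]] at this) o
  set D := ∑ ξ : ι → Fin N, (rf A (clos σ V (P \ O ξ) ξ) o - rf A V o) with hD
  have a4 : N * ‖D‖ ≤ 4 * Ω.card * K := by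
    have s := norm_sub_le (∑ ξ : ι → Fin N, (rf A (clos σ V P ξ) o - rf A V o))
      (∑ ξ : ι → Fin N, (rf A (clos σ V P ξ) o - rf A (clos σ V (P \ O ξ) ξ) o))
    rw [← sum_sub_distrib] at s
    simp only [sub_sub_sub_cancel_left] at s
    have c : (P.card : ℝ) ≤ Ω.card := by exact_mod_cast card_le_card p0
    nlinarith [mul_le_mul_of_nonneg_left s N0.le, mul_le_mul_of_nonneg_right c K0.le]
  have a5 : ∀ r : ℂ, 1 - ‖r‖ ^ 2 ≤ 1 - ‖rf A V o‖ ^ 2 - 2 * (conj (rf A V o) * (r - rf A V o)).re :=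
    fun r => by
      have := normSq_nonneg (r - rf A V o)
      simp only [← normSq_eq_norm_sq, normSq_apply, mul_re, conj_re, conj_im, sub_re,
        sub_im] at this ⊢
      nlinarith
  refine (sum_le_sum fun ξ _ => a5 _).trans ?_
  rw [sum_sub_distrib, ← mul_sum, ← re_sum, ← mul_sum, ← hD, sum_const, card_univ, nsmul_eq_mul,
    ← hK]
  have a6 := (neg_le_abs _).trans (abs_re_le_norm (conj (rf A V o) * D))
  rw [norm_mul, norm_conj] at a6
  have a7 : ‖D‖ ≤ 4 * Ω.card * K / N := (le_div_iff₀' N0).2 a4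
  have a8 := mul_le_of_le_one_left (norm_nonneg D) r1
  have : K * (8 * Ω.card / N) = 2 * (4 * Ω.card * K / N) := by ring
  linarith

end Pool.Agent.P.MP_d0f69c_mp.XS
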