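import Pool.Agent.P.MP_d0f69c_mp.XS.EndE

/-!
Soft end of the argument, part F: the interface for the revealing process.
-/

set_option autoImplicit false

open Finset Complex MeasureTheory
open scoped ComplexConjugate Matrix

namespace Pool.Agent.P.MP_d0f69c_mp.XS

variable {ι : Type} [Fintype ι] [DecidableEq ι] {A : Matrix ι ι ℝ} {d : ℕ}

/-- the normalised hopping matrix `(A - E) / lam` -/
noncomputable def Hn (A : Matrix ι ι ℝ) (lam E : ℝ) : Matrix ι ι ℝ :=
  fun a b => (A a b - if a = b then E else 0) / lam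

/-- invertibility for all potentials that can occur -/
def Adm (H : Matrix ι ι ℝ) (σ : ℂ) (N : ℕ) : Prop :=
  ∀ W : ι → ℂ, (∀ y, (W y).im < 0 ∨ W y = 1 ∨ W y = -1 ∨ ∃ k : Fin N, W y = val σ N k) →
    IsUnit (NW.MM H W).det

omit [Fintype ι] in
theorem Hn_symm (hA : ∀ a b, A a b = A b a) (lam E : ℝ) (a b : ι) :
    Hn A lam E a b = Hn A lam E b a := by
  simp only [Hn, hA a b, eq_comm]

theorem adm_finite (hA : ∀ a b, A a b = A b a) {lam : ℝ} (hl : lam ≠ 0) (σ : ℂ) (N : ℕ) :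
    {E : ℝ | ¬ Adm (Hn A lam E) σ N}.Finite := by
  classical
  let F : Finset ℂ := insert 1 (insert (-1) (univ.image fun k : Fin N => (val σ N k : ℂ)))
  let B : Finset ι × (ι → F) → Matrix ι ι ℂ := fun p a b =>
    if a ∈ p.1 then (A a b : ℂ) + (if a = b then lam * (p.2 a : ℂ) else 0) else 0
  refine (Set.finite_iUnion fun p => (Matrix.finite_spectrum (B p)).preimage
    ofReal_injective.injOn).subset fun E hE => ?_
  simp only [Adm, Set.mem_ofPred_eq, not_forall, isUnit_iff_ne_zero, not_not] at hE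
  obtain ⟨W, h1, h2⟩ := hE
  obtain ⟨u, hu, h0⟩ := Matrix.exists_mulVec_eq_zero_iff.2 h2
  have hF : ∀ y, ¬ (W y).im < 0 → W y ∈ F ∧ (W y).im = 0 := fun y hy => by
    rcases (h1 y).resolve_left hy with h | h | ⟨k, h⟩ <;> simp [F, h]
  have e := NW.form_univ (Hn_symm hA lam E) W u
  rw [h0] at e
  simp only [Pi.zero_apply, mul_zero, zero_im, sum_const_zero] at e
  have z : ∀ y, (W y).im < 0 → u y = 0 := fun y hy => by
    have := (sum_eq_zero_iff_of_nonpos fun a _ => mul_nonpos_of_nonpos_of_nonneg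
      (le_of_not_gt fun c => by linarith [(hF a (by linarith)).2]) (sq_nonneg ‖u a‖)).1 e.symm y
      (mem_univ y)
    simpa [hy.ne] using this
  refine Set.mem_iUnion.2 ⟨(univ.filter fun y => ¬ (W y).im < 0, fun y =>
    if h : (W y).im < 0 then ⟨1, mem_insert_self _ _⟩ else ⟨W y, (hF y h).1⟩), ?_⟩
  rw [Set.mem_preimage, spectrum.mem_iff, Matrix.isUnit_iff_isUnit_det, isUnit_iff_ne_zero,
    not_not, ← Matrix.exists_mulVec_eq_zero_iff]
  refine ⟨u, hu, funext fun a => ?_⟩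
  rw [Matrix.sub_mulVec, Algebra.algebraMap_eq_smul_one, Matrix.smul_mulVec, Matrix.one_mulVec]
  by_cases h : (W a).im < 0
  · simp [B, h, z a h, Matrix.mulVec, dotProduct]
  · have h3 := congrFun h0 a
    have l0 : (lam : ℂ) ≠ 0 := by exact_mod_cast hl
    rw [NW.MM_mv] at h3
    simp only [Hn, ofReal_div, ofReal_sub, apply_ite ofReal, ofReal_zero, div_mul_eq_mul_div,
      ← sum_div, sub_mul, sum_sub_distrib, ite_mul, zero_mul, sum_ite_eq, mem_univ, if_true,
      Pi.zero_apply] at h3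
    field_simp at h3
    simp only [B, mem_filter, mem_univ, true_and, h, not_false_eq_true, if_true, dif_neg,
      Matrix.mulVec, dotProduct, Pi.sub_apply, Pi.smul_apply, smul_eq_mul, add_mul,
      sum_add_distrib, ite_mul, zero_mul, sum_ite_eq, Pi.zero_apply]
    linear_combination -h3

theorem rz_eq {lam : ℝ} (hl : lam ≠ 0) (E : ℝ) (W : ι → ℂ) (o : ι)
    (hu : IsUnit (NW.MM (Hn A lam E) W).det) :
    rz A (fun y => lam * W y) o E = rf (Hn A lam E) W o := by
  have l0 : (lam : ℂ) ≠ 0 := by exact_mod_cast hl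
  have e : NW.MM A (fun y => lam * W y - E) = (lam : ℂ) • NW.MM (Hn A lam E) W := by
    ext a b
    simp only [NW.MM, Hn, Matrix.smul_apply, smul_eq_mul]
    split_ifs <;> push_cast <;> field_simp <;> ring
  have : Invertible (lam : ℂ) := invertibleOfNonzero l0
  rw [rz, rf, NW.GG, e, Matrix.inv_smul _ _ hu, invOf_eq_inv, NW.GG]
  simp only [Matrix.smul_apply, smul_eq_mul, mul_im, ofReal_re, ofReal_im, zero_mul, add_zero]
  push_cast
  field_simp

/-- the transmitted flux -/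
theorem one_sub_rf (hA : ∀ a b, A a b = A b a) {V : ι → ℂ} (hu : IsUnit (NW.MM A V).det) (o : ι) :
    1 - ‖rf A V o‖ ^ 2 =
      4 * -(V o).im * ∑ y ∈ univ.erase o, -(V y).im * ‖NW.GG A V y o‖ ^ 2 := by
  rw [rf, norm_rf, ward' hA hu, ← add_sum_erase _ _ (mem_univ o)]
  ring

/-- a finite system that looks like the lattice in the box of radius `R`, with a set of leads that
meets the box only at the origin -/
structure EmbO (d R : ℕ) (A : Matrix ι ι ℝ) (π : Zd d → ι) (Ω : Finset ι) : Prop where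
  symm : ∀ a b, A a b = A b a
  inj : Set.InjOn π (box d (R + 1))
  lap : ∀ x ∈ box d R, ∀ u : ι → ℂ, ∑ b, (A (π x) b : ℂ) * u b =
    -∑ i : Fin d, ((u (π (x + ee i)) - u (π x)) + (u (π (x - ee i)) - u (π x)))
  zero : π 0 ∈ Ω
  far : ∀ x ∈ box d R, π x ∈ Ω → x = 0

/-- the final potential: signs off `Ω`, the lead `σ` at `o` and on `Ω ∩ O`, closed leads elsewhere -/
noncomputable def Wfin (σ : ℂ) {N : ℕ} (Ω : Finset ι) (o : ι) (O : Finset ι)
    (s : ι → Bool × Fin N) (y : ι) : ℂ :=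
  if y ∈ Ω then (if y = o ∨ y ∈ O then σ else val σ N (s y).2) else if (s y).1 then 1 else -1

/-- what the revealing process has to deliver: `O s τ` is the unrevealed set at the end, for site
variables `s` and tape `τ`, and `G` is the event of success -/
def CoreU (d : ℕ) (lam a b c : ℝ) : Prop :=
  ∀ R : ℕ, ∃ σ : ℂ, c ≤ -σ.im ∧ ‖σ‖ ≤ c⁻¹ ∧ ∃ (ι : Type) (_ : Fintype ι) (_ : DecidableEq ι)
    (A : Matrix ι ι ℝ) (π : Zd d → ι) (Ω : Finset ι),
      EmbO d R A π Ω ∧ ∃ N : ℕ, 32 * Ω.card ≤ c * N ∧ ∃ S ⊆ Set.Icc a b,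
      ENNReal.ofReal c ≤ volume S ∧ ∀ E ∈ S, Adm (Hn A lam E) σ N →
        ∃ (Θ : Type) (_ : Fintype Θ) (_ : Nonempty Θ) (O : (ι → Bool × Fin N) → Θ → Finset ι),
          (∀ s s' τ, (∀ y ∉ O s τ, s' y = s y) → O s' τ = O s τ) ∧
          ∃ G : Finset ((ι → Bool × Fin N) × Θ),
            Fintype.card ((ι → Bool × Fin N) × Θ) ≤ 2 * G.card ∧
            ∀ p ∈ G, c ≤ 1 - ‖rf (Hn A lam E) (Wfin σ Ω (π 0) (O p.1 p.2) p.1) (π 0)‖ ^ 2

theorem CoreU.coreR {lam a b c : ℝ} (h : CoreU d lam a b c) (hl : 0 < lam) (hc : 0 < c) :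
    CoreR d lam (lam * c) (lam * c⁻¹) a b (c / 4) := fun R => by
  obtain ⟨σ, σ1, σ2, ι, _, _, A, π, Ω, em, N, hN, S, s1, s2, s3⟩ := h R
  have hσ : σ.im < 0 := by linarith
  let V : (ι → Bool) → ι → ℂ := fun w y => if y ∈ Ω then σ else if w y then 1 else -1
  have v1 : ∀ w y, (V w y).im ≤ 0 := fun w y => by
    simp only [V]
    split_ifs <;> simp [hσ.le]
  have N0 : N ≠ 0 := by
    rintro rfl
    have : (0 : ℝ) < Ω.card := by exact_mod_cast card_pos.2 ⟨_, em.zero⟩
    simp only [Nat.cast_zero, mul_zero] at hN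
    linarith
  refine ⟨lam * σ, by simpa using mul_le_mul_of_nonneg_left σ1 hl.le, by
    simpa [abs_of_pos hl] using mul_le_mul_of_nonneg_left σ2 hl.le, ι, inferInstance, inferInstance, A, π, fun w y => lam * V w y,
    ⟨em.symm, em.inj, em.lap, fun w y => by
    simpa using mul_nonpos_of_nonneg_of_nonpos hl.le (v1 w y), fun w => by simp [V, em.zero],
    fun w x hx x0 => by simp only [V, if_neg fun c => x0 (em.far x hx c)]⟩,
    S \ {E | ¬ Adm (Hn A lam E) σ N}, Set.sdiff_subset.trans s1, ?_, fun E hE => ?_⟩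
  · rw [measure_sdiff_null ((adm_finite em.symm hl.ne' σ N).measure_zero _)]
    exact (ENNReal.ofReal_le_ofReal (by linarith)).trans s2
  have ad : Adm (Hn A lam E) σ N := not_not.1 hE.2
  obtain ⟨Θ, _, _, O, o1, G, g1, g2⟩ := s3 E hE.1 ad
  have hs := Hn_symm em.symm lam E
  have u1 : ∀ w U (ξ : ι → Fin N), IsUnit (NW.MM (Hn A lam E) (clos σ (V w) U ξ)).det :=
    fun w U ξ => ad _ fun y => by
      simp only [clos, V]
      split_ifs
      exacts [.inr (.inr (.inr ⟨_, rfl⟩)), .inl hσ, .inr (.inl rfl), .inr (.inr (.inl rfl))]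
  have u2 : ∀ w, IsUnit (NW.MM (Hn A lam E) (V w)).det := fun w => ad _ fun y => by
    simp only [V]
    split_ifs
    exacts [.inl hσ, .inr (.inl rfl), .inr (.inr (.inl rfl))]
  have e1 : ∀ (U : Finset ι) (s : ι → Bool × Fin N), Wfin σ Ω (π 0) U s =
      clos σ (V fun y => (s y).1) (Ω.erase (π 0) \ U) fun y => (s y).2 := fun U s => by
    funext y
    by_cases h1 : y ∈ Ω <;> by_cases h2 : y = π 0 <;> by_cases h3 : y ∈ U <;>
      simp [Wfin, clos, V, h1, h2, h3, em.zero]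
  let f : (ι → Bool × Fin N) × Θ → ℝ := fun p =>
    1 - ‖rf (Hn A lam E) (Wfin σ Ω (π 0) (O p.1 p.2) p.1) (π 0)‖ ^ 2
  have f0 : ∀ p, 0 ≤ f p := fun p => by
    simp only [f, e1, sub_nonneg]
    refine pow_le_one₀ (norm_nonneg _) (rf_le hs (fun z => ?_) (u1 _ _ _) _)
    unfold clos
    split_ifs
    · simp
    · exact v1 (fun y => (p.1 y).1) z
  have lo : c * G.card ≤ ∑ p, f p := by
    refine le_trans ?_ (sum_le_sum_of_subset_of_nonneg (subset_univ G) fun p _ _ => f0 p)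
    simpa [mul_comm] using card_nsmul_le_sum G f c g2
  set K : ℝ := ((Fintype.card (ι → Fin N) : ℕ) : ℝ) with hK
  set L : ℝ := ((Fintype.card (ι → Bool) : ℕ) : ℝ) with hL
  set T : ℝ := ((Fintype.card Θ : ℕ) : ℝ) with hT
  have up : ∑ p, f p ≤ T * (K * (∑ w, (1 - ‖rf (Hn A lam E) (V w) (π 0)‖ ^ 2) + L * (c / 4))) := by
    rw [Fintype.sum_prod_type_right]
    refine (sum_le_card_nsmul _ _ _ fun τ _ => ?_).trans (by rw [nsmul_eq_mul]; rfl)
    rw [← (Equiv.arrowProdEquivProdArrow ι (fun _ => Bool) fun _ => Fin N).symm.sum_comp,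
      Fintype.sum_prod_type, hL, ← card_univ, ← nsmul_eq_mul (card _), ← sum_const, ← sum_add_distrib,
      mul_sum]
    refine sum_le_sum fun w _ => ?_
    simp only [f, e1]
    refine (stop_avg hs (v1 w) em.zero (fun y hy => if_pos hy) N0 (fun U _ => u1 w U)
      (fun ξ => O (fun y => (w y, ξ y)) τ) fun ξ ξ' h => o1 _ _ τ fun y hy => by
        rw [h y hy]).trans ?_
    refine mul_le_mul_of_nonneg_left (add_le_add le_rfl ?_) (Nat.cast_nonneg _)
    rw [div_le_iff₀ (by simp [Nat.pos_of_ne_zero N0])]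
    linarith
  have K0 : 0 < T * K := by simp [hK, hT, Nat.pos_of_ne_zero N0, Fintype.card_pos]
  have g3 : T * K * L ≤ 2 * G.card := by
    rw [Fintype.card_prod, Fintype.card_congr
      (Equiv.arrowProdEquivProdArrow ι (fun _ => Bool) fun _ => Fin N), Fintype.card_prod] at g1
    have : ((_ : ℕ) : ℝ) ≤ _ := Nat.cast_le.2 g1
    push_cast at this
    linarith
  simp only [fun w => rz_eq hl.ne' E (V w) (π 0) (u2 w)]
  refine le_of_mul_le_mul_left ?_ K0
  nlinarith [mul_le_mul_of_nonneg_left g3 hc.le]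

/-- the end of the argument -/
theorem CoreU.not_sing {lam a b c : ℝ} (h : CoreU d lam a b c) (hl : 0 < lam) (hc : 0 < c) :
    ¬ Sing d lam :=
  (h.coreR hl hc).not_sing (mul_pos hl hc) (by linarith)

end Pool.Agent.P.MP_d0f69c_mp.XS
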