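import Pool.Agent.P.MP_d0f69c_mp.XS.EndF

/-!
Soft end of the argument, part G: the torus, and energies without frequent resonances.
-/

set_option autoImplicit false

open Finset Complex MeasureTheory
open scoped ComplexConjugate Matrix ENNReal

namespace Pool.Agent.P.MP_d0f69c_mp.XS

section torus

variable {d M : ℕ}

/-- minus the Laplacian of the torus -/
noncomputable def Lap (d M : ℕ) : Matrix (Fin d → ZMod M) (Fin d → ZMod M) ℝ := fun a b =>
  ∑ i : Fin d, ((if b = a then 2 else 0) - (if b = a + Pi.single i 1 then 1 else 0) -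
    (if b = a - Pi.single i 1 then 1 else 0))

/-- the sublattice of leads -/
def Om (d M ρ : ℕ) [NeZero M] : Finset (Fin d → ZMod M) := univ.filter fun y => ∀ i, ρ ∣ (y i).val

theorem Lap_symm (a b : Fin d → ZMod M) : Lap d M a b = Lap d M b a := by
  refine sum_congr rfl fun i _ => ?_
  rw [sub_right_comm, if_congr eq_comm rfl rfl,
    if_congr (eq_sub_iff_add_eq.trans eq_comm) rfl rfl,
    if_congr (P := a = b - Pi.single i 1) (eq_sub_iff_add_eq.trans eq_comm) rfl rfl]

theorem Lap_add (c a b : Fin d → ZMod M) : Lap d M (c + a) (c + b) = Lap d M a b := by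
  simp only [Lap, add_assoc, add_sub_assoc, add_right_inj]

theorem mem_Om {ρ : ℕ} [NeZero M] (h : ρ ∣ M) (x : Zd d) :
    (fun i => (x i : ZMod M)) ∈ Om d M ρ ↔ ∀ i, (ρ : ℤ) ∣ x i := by
  simp only [Om, mem_filter, mem_univ, true_and]
  refine forall_congr' fun i => ?_
  rw [← Int.natCast_dvd_natCast, ZMod.val_intCast, Int.emod_def,
    dvd_sub_left ((Int.natCast_dvd_natCast.2 h).mul_right _)]

theorem torus_emb {R ρ : ℕ} [NeZero M] (h : ρ ∣ M) (h1 : R < ρ) (h2 : 2 * R + 2 < M) :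
    EmbO d R (Lap d M) (fun x i => (x i : ZMod M)) (Om d M ρ) where
  symm := Lap_symm
  inj := fun x hx y hy e => funext fun i => by
    have h3 := (ZMod.intCast_eq_intCast_iff_dvd_sub _ _ _).1 (congrFun e i)
    have h4 := mem_Icc.1 (Fintype.mem_piFinset.1 hx i)
    have h5 := mem_Icc.1 (Fintype.mem_piFinset.1 hy i)
    have := Int.eq_zero_of_abs_lt_dvd h3 (by rw [abs_lt]; omega)
    omega
  lap := fun x _ u => by
    have e1 : ∀ i, (fun j => ((x + ee i) j : ZMod M)) =
        (fun j => (x j : ZMod M)) + Pi.single i 1 := fun i => funext fun j => by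
      by_cases h : j = i <;> simp [ee, h]
    have e2 : ∀ i, (fun j => ((x - ee i) j : ZMod M)) =
        (fun j => (x j : ZMod M)) - Pi.single i 1 := fun i => funext fun j => by
      by_cases h : j = i <;> simp [ee, h]
    simp only [e1, e2, Lap, ofReal_sum, sum_mul, ofReal_sub, apply_ite ofReal, sub_mul, ite_mul]
    rw [sum_comm, ← sum_neg_distrib]
    refine sum_congr rfl fun i _ => ?_
    simp [sum_sub_distrib]
    ring
  zero := (mem_Om h 0).2 fun i => by simp
  far := fun x hx e => funext fun i => by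
    have h4 := mem_Icc.1 (Fintype.mem_piFinset.1 hx i)
    exact Int.eq_zero_of_abs_lt_dvd ((mem_Om h x).1 e i) (by rw [abs_lt]; omega)

end torus

theorem near_spec {κ : Type} [Fintype κ] [DecidableEq κ] (B : Matrix κ κ ℝ)
    (hB : ∀ a b, B a b = B b a) : ∃ ev : κ → ℝ, ∀ (E ε : ℝ) (u : κ → ℂ), 0 ≤ ε → u ≠ 0 →
      ∑ a, ‖∑ b, (B a b : ℂ) * u b - E * u a‖ ^ 2 ≤ ε ^ 2 * ∑ a, ‖u a‖ ^ 2 →
      ∃ i, |ev i - E| ≤ ε := by
  let C : Matrix κ κ ℂ := Matrix.of fun a b => B a b
  have hC : C.IsHermitian := by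
    ext a b
    simp [C, hB a b, Matrix.conjTranspose_apply]
  refine ⟨hC.eigenvalues, fun E ε u hε hu h => ?_⟩
  by_contra hc
  push Not at hc
  set b := hC.eigenvectorBasis
  let v : EuclideanSpace ℂ κ := WithLp.toLp 2 u
  let w : EuclideanSpace ℂ κ := WithLp.toLp 2 (C *ᵥ u - (E : ℂ) • u)
  have h1 : ∀ i, inner ℂ (b i) w = (hC.eigenvalues i - E : ℝ) * inner ℂ (b i) v := fun i => by
    have e := congrArg star (hC.mulVec_eigenvectorBasis i)
    rw [Matrix.star_mulVec, hC.eq, star_smul] at e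
    simp only [EuclideanSpace.inner_eq_star_dotProduct, v, w]
    rw [dotProduct_comm, dotProduct_comm u, dotProduct_sub, Matrix.dotProduct_mulVec, e]
    simp [sub_mul, b]
  have h2 : ‖w‖ ^ 2 ≤ ε ^ 2 * ‖v‖ ^ 2 := by
    simpa [EuclideanSpace.norm_sq_eq, v, w, C, Matrix.mulVec, dotProduct] using h
  rw [← b.sum_sq_norm_inner_right, ← b.sum_sq_norm_inner_right, mul_sum] at h2
  obtain ⟨j, hj⟩ : ∃ j, inner ℂ (b j) v ≠ 0 := by
    by_contra h0
    push Not at h0
    have := b.sum_sq_norm_inner_right v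
    simp only [h0, norm_zero, ne_eq, OfNat.ofNat_ne_zero, not_false_eq_true, zero_pow,
      sum_const_zero] at this
    exact hu (by simpa [v] using this.symm)
  have k : ∀ i, ε ^ 2 < |hC.eigenvalues i - E| ^ 2 := fun i => pow_lt_pow_left₀ (hc i) hε two_ne_zero
  refine absurd h2 (not_le.2 (sum_lt_sum (fun i _ => ?_) ⟨j, mem_univ _, ?_⟩))
  · rw [h1, norm_mul, mul_pow, norm_real, Real.norm_eq_abs]
    exact mul_le_mul_of_nonneg_right (k i).le (sq_nonneg _)
  · rw [h1, norm_mul, mul_pow, norm_real, Real.norm_eq_abs]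
    exact mul_lt_mul_of_pos_right (k j) (by positivity)

theorem norm_val {σ : ℂ} (hσ : σ.im ≤ 0) {N k m : ℕ} (hk : k < N) (h1 : m ≤ k) (h2 : m + k < N) :
    ‖val σ N k - σ‖ * (2 * m + 1) ≤ -σ.im * N := by
  have hN : N ≠ 0 := by omega
  have N0 : (0 : ℝ) < N := by exact_mod_cast Nat.pos_of_ne_zero hN
  have p0 := Real.pi_pos
  have e : zt N k = exp (I * (Real.pi * (2 * k + 1) / N : ℝ)) := by
    rw [zt, ← exp_nat_mul, ← exp_add]
    congr 1
    push_cast
    ring
  have s : ∀ j : ℕ, m ≤ j → 2 * j + 1 ≤ N →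
      (2 * m + 1) / N ≤ Real.sin (Real.pi * (2 * j + 1) / N / 2) := fun j a b => by
    have a' : (m : ℝ) ≤ j := by exact_mod_cast a
    have b' : (2 * j + 1 : ℝ) ≤ N := by exact_mod_cast b
    refine le_trans ?_ (Real.mul_le_sin (by positivity) ?_)
    · rw [show 2 / Real.pi * (Real.pi * (2 * j + 1) / N / 2) = (2 * j + 1) / N by field_simp]
      gcongr
    · rw [mul_div_assoc]
      gcongr
      exact mul_le_of_le_one_right p0.le ((div_le_one N0).2 b')
  have s1 : (2 * m + 1) / N ≤ Real.sin (Real.pi * (2 * k + 1) / N / 2) := by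
    rcases le_total (2 * k + 1) N with h | h
    · exact s k h1 h
    · obtain ⟨j, rfl⟩ : ∃ j, N = k + j + 1 := ⟨N - k - 1, by omega⟩
      refine (s j (by omega) (by omega)).trans (le_of_eq ?_)
      rw [← Real.sin_pi_sub]
      congr 1
      push_cast
      field_simp
      ring
  have n : ‖1 - zt N k‖ = 2 * Real.sin (Real.pi * (2 * k + 1) / N / 2) := by
    rw [norm_sub_rev, e, norm_exp_I_mul_ofReal_sub_one, Real.norm_of_nonneg]
    exact mul_nonneg zero_le_two (le_trans (by positivity) s1)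
  have q : (0 : ℝ) < (2 * m + 1) / N := by positivity
  rw [val_eq σ hN, add_sub_cancel_left, norm_div, n, div_mul_eq_mul_div,
    div_le_iff₀ (by linarith)]
  simp only [norm_mul, norm_zt hN, norm_I, norm_real, Real.norm_eq_abs, abs_of_nonpos hσ,
    Complex.norm_ofNat]
  rw [div_le_iff₀ N0] at s1
  nlinarith [mul_le_mul_of_nonneg_left s1 (neg_nonneg.2 hσ)]

/-- large closing values are rare -/
theorem card_val {σ : ℂ} (hσ : σ.im ≤ 0) (N : ℕ) {T : ℝ} (hT : 0 < T) :
    (#{k : Fin N | T ≤ ‖val σ N k - σ‖} : ℝ) ≤ -σ.im * N / T + 2 := by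
  have a0 := neg_nonneg.2 hσ
  set m := ⌊-σ.im * N / (2 * T)⌋₊ + 1 with hm
  have h1 : #{k : Fin N | T ≤ ‖val σ N k - σ‖} ≤ #(range m ∪ (range m).image fun j => N - 1 - j) := by
    refine card_le_card_of_injOn Fin.val (fun k hk => ?_) Fin.val_injective.injOn
    by_contra hc
    simp only [coe_union, coe_range, coe_image, Set.mem_union, Set.mem_Iio, Set.mem_image,
      not_or, not_lt, not_exists, not_and] at hc
    have k2 := k.2
    have h2 := norm_val hσ k.2 hc.1 (by
      by_contra c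
      exact hc.2 (N - 1 - k) (by omega) (by omega))
    have h3 := Nat.lt_floor_add_one (-σ.im * N / (2 * T))
    rw [div_lt_iff₀ (by positivity)] at h3
    have h4 := mul_le_mul_of_nonneg_right (mem_filter.1 hk).2
      (show (0 : ℝ) ≤ 2 * m + 1 by positivity)
    rw [hm] at h2 h4
    push_cast at h2 h4
    nlinarith
  have h2 := (h1.trans (card_union_le _ _)).trans (Nat.add_le_add_left card_image_le _)
  rw [card_range] at h2
  have h3 : ((_ : ℕ) : ℝ) ≤ _ := Nat.cast_le.2 h2
  have h4 := Nat.floor_le (show 0 ≤ -σ.im * N / (2 * T) by positivity)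
  rw [hm] at h3
  push_cast at h3
  have : -σ.im * N / T = 2 * (-σ.im * N / (2 * T)) := by field_simp
  linarith

section weg

variable {ι : Type} [Fintype ι] [DecidableEq ι] [AddCommGroup ι] {N : ℕ} {A : Matrix ι ι ℝ}

/-- the true values of the potential -/
noncomputable def Wt (σ : ℂ) (Ω : Finset ι) (s : ι → Bool × Fin N) (y : ι) : ℂ :=
  if y ∈ Ω then val σ N (s y).2 else if (s y).1 then 1 else -1

/-- a quasimode of the true operator that lives in `p + K` -/
def Reso (H : Matrix ι ι ℝ) (σ : ℂ) (Ω K : Finset ι) (ε : ℝ) (p : ι) (s : ι → Bool × Fin N) :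
    Prop :=
  ∃ u : ι → ℂ, u ≠ 0 ∧ (∀ x, x - p ∉ K → u x = 0) ∧
    ∑ x with x - p ∈ K, ‖(NW.MM H (Wt σ Ω s) *ᵥ u) x‖ ^ 2 ≤ ε ^ 2 * ∑ x, ‖u x‖ ^ 2

theorem Reso.congr {H : Matrix ι ι ℝ} {σ : ℂ} {Ω K : Finset ι} {ε : ℝ} {p : ι}
    {s s' : ι → Bool × Fin N} (h : Reso H σ Ω K ε p s) (e : ∀ x, x - p ∈ K → s' x = s x) :
    Reso H σ Ω K ε p s' := by
  obtain ⟨u, h1, h2, h3⟩ := h
  refine ⟨u, h1, h2, le_trans (le_of_eq (sum_congr rfl fun x hx => ?_)) h3⟩
  simp only [NW.MM_mv, Wt, e x (mem_filter.1 hx).2]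

theorem sum_shift {M : Type} [AddCommMonoid M] (K : Finset ι) (p : ι) (g : ι → M) :
    ∑ x with x - p ∈ K, g x = ∑ x : K, g (p + x) := by
  rw [sum_coe_sort K fun x => g (p + x)]
  exact sum_bij' (fun x _ => x - p) (fun x _ => p + x) (by simp) (by simp) (by simp) (by simp)
    (by simp)

open Classical in
/-- the Wegner bound averaged over the energy, for all translates at once -/
theorem wegner_avg (hA : ∀ a b, A a b = A b a) (hT : ∀ c a b, A (c + a) (c + b) = A a b)
    {lam ε δ : ℝ} (hl : 0 < lam) (hε : 0 ≤ ε) (hδ : 0 < δ) (hN : N ≠ 0) (σ : ℂ) {Ω K : Finset ι}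
    (hΩ : ∀ p, ∀ x ∈ K, ∀ y ∈ K, p + x ∈ Ω → p + y ∈ Ω → x = y) :
    volume {E : ℝ | ∃ p, δ * Fintype.card (ι → Bool × Fin N) ≤
      #{s : ι → Bool × Fin N | Reso (Hn A lam E) σ Ω K ε p s}} ≤
      ENNReal.ofReal ((K.card + 1) * (K.card * (2 * (lam * ε)) / δ)) := by
  let B : Option K → (ι → Bool × Fin N) → Matrix K K ℝ := fun o s a b => A a b + if a = b then
    lam * (if o = some a then val σ N (s a).2 else if (s a).1 then 1 else -1) else 0
  choose ev hev using fun o s => near_spec (B o s) fun a b => by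
    by_cases h : a = b
    · rw [h]
    · simp only [B, hA a b, if_neg h, if_neg (Ne.symm h)]
  let Nr : Option K → (ι → Bool × Fin N) → Set ℝ := fun o s =>
    ⋃ i, Metric.closedBall (ev o s i) (lam * ε)
  have n1 : ∀ o s, MeasurableSet (Nr o s) := fun o s =>
    MeasurableSet.iUnion fun i => measurableSet_closedBall
  have n2 : ∀ o s, volume (Nr o s) ≤ ENNReal.ofReal (K.card * (2 * (lam * ε))) := fun o s => by
    refine (measure_iUnion_fintype_le _ _).trans (le_of_eq ?_)
    simp [Real.volume_closedBall, ENNReal.ofReal_mul]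
  set L := Fintype.card (ι → Bool × Fin N) with hL
  have L0 : (0 : ℝ) < L := by simp [hL, Nat.pos_of_ne_zero hN]
  let f : Option K → ℝ → ℝ≥0∞ := fun o E => ∑ s, (Nr o s).indicator 1 E
  have f1 : ∀ o, volume {E | ENNReal.ofReal (δ * L) ≤ f o E} ≤
      ENNReal.ofReal (K.card * (2 * (lam * ε)) / δ) := fun o => by
    refine (meas_ge_le_lintegral_div (Finset.measurable_sum _ fun s _ =>
      measurable_one.indicator (n1 o s)).aemeasurable
      (ENNReal.ofReal_pos.2 (mul_pos hδ L0)).ne' ENNReal.ofReal_ne_top).trans ?_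
    rw [lintegral_finsetSum _ fun s _ => measurable_one.indicator (n1 o s)]
    simp only [lintegral_indicator_one (n1 o _)]
    refine ENNReal.div_le_of_le_mul ((sum_le_card_nsmul _ _ _ fun s _ => n2 o s).trans ?_)
    rw [← ENNReal.ofReal_mul (by positivity), card_univ, ← hL, nsmul_eq_mul,
      ← ENNReal.ofReal_natCast, ← ENNReal.ofReal_mul L0.le]
    refine ENNReal.ofReal_le_ofReal (le_of_eq ?_)
    field_simp
  refine le_trans (measure_mono (t := ⋃ o, {E | ENNReal.ofReal (δ * L) ≤ f o E}) ?_)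
    ((measure_iUnion_fintype_le _ _).trans ((sum_le_card_nsmul _ _ _ fun o _ => f1 o).trans ?_))
  swap
  · rw [ENNReal.ofReal_mul (by positivity), card_univ, Fintype.card_option, Fintype.card_coe,
      nsmul_eq_mul, ← ENNReal.ofReal_natCast]
    simp
  rintro E ⟨p, hp⟩
  obtain ⟨o, ho⟩ : ∃ o : Option K, ∀ x : K, p + x ∈ Ω ↔ o = some x := by
    by_cases h : ∃ x : K, p + x ∈ Ω
    · obtain ⟨x, hx⟩ := h
      exact ⟨some x, fun y => ⟨fun hy => congrArg some (Subtype.ext (hΩ p _ x.2 _ y.2 hx hy)),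
        fun e => Option.some.inj e ▸ hx⟩⟩
    · exact ⟨none, fun y => ⟨fun hy => absurd ⟨y, hy⟩ h, fun e => by simp at e⟩⟩
  refine Set.mem_iUnion.2 ⟨o, (ENNReal.ofReal_le_ofReal hp).trans ?_⟩
  rw [ENNReal.ofReal_natCast]
  simp only [f, Set.indicator_apply, Pi.one_apply, sum_boole, Nat.cast_le]
  refine card_le_card_of_injOn (fun s y => s (p + y)) (fun s hs => ?_) fun s _ t _ e =>
    funext fun y => by simpa using congrFun e (y - p)
  obtain ⟨u, h1, h2, h3⟩ := (mem_filter.1 hs).2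
  have z : ∀ g : ι → ℂ, ∑ x, g x * u x = ∑ x : K, g (p + x) * u (p + x) := fun g => by
    rw [← sum_shift K p fun x => g x * u x]
    exact (sum_filter_of_ne fun x _ hx => by_contra fun c => hx (by rw [h2 x c, mul_zero])).symm
  have z2 : ∑ x, ‖u x‖ ^ 2 = ∑ x : K, ‖u (p + x)‖ ^ 2 := by
    rw [← sum_shift K p fun x => ‖u x‖ ^ 2]
    exact (sum_filter_of_ne fun x _ hx => by_contra fun c => hx (by simp [h2 x c])).symm
  obtain ⟨i, hi⟩ := hev o (fun y => s (p + y)) E (lam * ε) (fun x => u (p + x)) (by positivity)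
    (fun h0 => h1 (funext fun x => by
      by_cases c : x - p ∈ K
      · simpa using congrFun h0 ⟨x - p, c⟩
      · exact h2 x c)) (by
      rw [sum_shift, z2] at h3
      rw [mul_pow, mul_assoc]
      refine le_trans (le_of_eq ?_) (mul_le_mul_of_nonneg_left h3 (sq_nonneg lam))
      rw [mul_sum]
      refine sum_congr rfl fun a _ => ?_
      rw [← sq_abs lam, ← mul_pow, ← Real.norm_eq_abs, ← norm_real, ← norm_mul, NW.MM_mv, z]
      congr 2
      have l0 : (lam : ℂ) ≠ 0 := by exact_mod_cast hl.ne'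
      simp only [B, Hn, Wt, hT, ho, add_right_inj, Subtype.val_inj, ofReal_add, ofReal_div,
        ofReal_sub, apply_ite ofReal, ofReal_mul, ofReal_zero, add_mul, sum_add_distrib, ite_mul,
        zero_mul, sum_ite_eq, mem_univ, if_true, div_mul_eq_mul_div, ← sum_div, sub_mul,
        sum_sub_distrib, ofReal_one, ofReal_neg]
      field_simp
      split_ifs <;> ring)
  exact mem_coe.2 (mem_filter.2 ⟨mem_univ _, Set.mem_iUnion.2 ⟨i, by
    rwa [Metric.mem_closedBall, dist_comm, Real.dist_eq]⟩⟩)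

end weg

end Pool.Agent.P.MP_d0f69c_mp.XS
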