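import Pool.Agent.P.MP_d0f69c_mp.XS.IfAsm

/-!
The closing flow: assembly of the monitors.
-/

set_option autoImplicit false

open Finset Real
open scoped Matrix

namespace Pool.Agent.P.MP_d0f69c_mp.XS

namespace FAsmA

theorem ky_inj {ι : Type} [Fintype ι] [DecidableEq ι] {K : ℕ} (a : ι → Fin K) :
    Function.Injective (ky a) := fun x y h => by
  have := congrArg (· % Fintype.card ι) h
  simp only [ky, Nat.mul_add_mod_self_right, Nat.mod_eq_of_lt (Fin.is_lt _)] at this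
  exact (Fintype.equivFin ι).injective (Fin.ext this)

theorem opLe_univ {ι : Type} [Fintype ι] [DecidableEq ι] {I : Finset ι} {A : ι → ι → ℂ} {r : ℝ}
    (h : OpLe I A r) (hr : 0 ≤ r) (h0 : ∀ x y, x ∉ I ∨ y ∉ I → A x y = 0) : OpLe univ A r := by
  intro u
  have e : ap univ A u = ap I A u := funext fun x =>
    (sum_subset (subset_univ I) fun y _ hy => by rw [h0 x y (Or.inr hy), zero_mul]).symm
  rw [e, nS_supp (subset_univ I) (u := ap I A u) fun x _ hx =>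
    sum_eq_zero fun y _ => by rw [h0 x y (Or.inl hx), zero_mul]]
  exact (h u).trans (mul_le_mul_of_nonneg_left (nS_mono (subset_univ I) u) hr)

variable {d M : ℕ} [NeZero M] {E : Env d M} {q : Par} {S : St (Tor d M)} {c : Tor d M}
  {Z Sg : Finset (Tor d M)}

/-- what the monitors give at one time -/
structure CC (E : Env d M) (q : Par) (S : St (Tor d M)) (c : Tor d M) (Z Sg : Finset (Tor d M))
    (h : List (Tor d M × Bool)) : Prop where
  bnd : Bnd E q S c Z Sg (hs h) (Wh S.W h)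
  all : ∀ φ : Tor d M → ℝ, (∀ x ∉ bl c (24 * d * q.A E.η d), φ x = 0) →
    |Sm S.W (fun W _ v b => Y5 E.η S.H W (q.D E.η 2) v b φ) h| ≤ Nm E.p φ / (q.P : ℝ) ^ 4
  y5 : ∀ φ : Tor d M → ℝ, (∀ x ∉ bl c (3 * q.A E.η d), φ x = 0) →
    |Sm S.W (fun W _ v b => if v ∈ bl c (q.A E.η d) then Y5 E.η S.H W (q.D E.η 2) v b φ else 0) h| ≤
      Nm E.p φ / (q.P : ℝ) ^ 4
  y6 : OpLe (bl c (2 * q.A E.η d)) (Sm S.W (fun W X v b => if v ∈ bl c (q.A E.η d) then
    Y6 S.H W ((Z ∪ Sg) \ X) (q.D E.η 2) v b else 0) h) (1 / (q.P : ℝ) ^ 4)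

theorem card_le (hf : S_FAR) (hE : E.OK) (hq : q.OK E) {A : Finset (Tor d M)} {r : ℕ}
    (h : A ⊆ bl c r) (hr : r ≤ 24 * d * q.A E.η d) : (A.card : ℝ) ≤ exp ((q.P : ℝ) ^ 2) := by
  refine le_trans (Nat.cast_le.2 ((card_le_card h).trans ?_)) (hf d M E q hE hq).1
  rw [card_ball]
  refine vol_mono (hr.trans ?_)
  have := hq.A_grow hE
  nlinarith [Nat.zero_le (d * q.A E.η d)]

theorem mon (h1 : S_A1) (h2 : S_A2) (h3 : S_A3) (h4 : S_A4) (h5 : S_A5) (h6 : S_A6) (hf : S_FAR)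
    (H : Hyp E q S c Z Sg) : HasMon Z (Fh E q S c Z Sg) (CC E q S c Z Sg)
      (18 * exp ((q.P : ℝ) ^ 2) ^ 2 * exp (-3 * (q.P : ℝ) ^ 3)) := by
  have hA : ∀ k ≤ 24, k * q.A E.η d ≤ 24 * d * q.A E.η d := fun k hk =>
    Nat.mul_le_mul_right _ (hk.trans (Nat.le_mul_of_pos_right _ H.hE.d1))
  have cR := card_le hf H.hE H.hq (inter_subset_right (s₁ := S.O) (s₂ := bl c (6 * q.A E.η d)))
    (hA 6 (by norm_num))
  have sT : Z ∪ Sg ⊆ bl c (5 * q.A E.η d) :=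
    union_subset (H.hZ.trans inter_subset_right) (H.hSg.trans inter_subset_right)
  have cT := card_le hf H.hE H.hq sT (hA 5 (by norm_num))
  have cZ := card_le hf H.hE H.hq (subset_union_left.trans sT) (hA 5 (by norm_num))
  have cB := card_le hf H.hE H.hq (c := c) Subset.rfl le_rfl
  have c3 := card_le hf H.hE H.hq (c := c) Subset.rfl (hA 3 (by norm_num))
  have c2 := card_le hf H.hE H.hq (c := c) Subset.rfl (hA 2 (by norm_num))
  have hε := exp_pos (-3 * (q.P : ℝ) ^ 3)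
  have m1 := HasMon.all (S.O ∩ bl c (6 * q.A E.η d)) fun x hx =>
    (HasMon.all ((Z ∪ Sg).erase x) fun y hy => h1 d M E q S c Z Sg H x hx y (mem_of_mem_erase hy)
      (mem_erase.1 hy).1.symm).mono (mul_le_mul_of_nonneg_right
        ((Nat.cast_le.2 card_erase_le).trans cT) (by positivity)) fun _ _ a => a
  have m2 := HasMon.all _ (h2 d M E q S c Z Sg H)
  have m3 := HasMon.all _ (h3 d M E q S c Z Sg H)
  refine ((((((m1.and m2).and m3).and (h4 d M E q S c Z Sg H)).and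
    (h5 d M E q S c Z Sg univ (bl c (24 * d * q.A E.η d)) H)).and
    (h5 d M E q S c Z Sg (bl c (q.A E.η d)) (bl c (3 * q.A E.η d)) H)).and
    (h6 d M E q S c Z Sg (bl c (q.A E.η d)) (bl c (2 * q.A E.η d)) H)).mono ?_ ?_
  · have hV : 1 ≤ exp ((q.P : ℝ) ^ 2) := one_le_exp (by positivity)
    generalize exp ((q.P : ℝ) ^ 2) = V at *
    generalize exp (-3 * (q.P : ℝ) ^ 3) = ε at *
    have hV2 : V ≤ V ^ 2 := by nlinarith
    have a := mul_le_mul_of_nonneg_right cR (zero_le_one.trans hV)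
    have : ((S.O ∩ bl c (6 * q.A E.η d)).card * V * 4 + (S.O ∩ bl c (6 * q.A E.η d)).card +
        (Z ∪ Sg).card + 4 * Z.card + 2 * (bl c (24 * d * q.A E.η d)).card +
        2 * (bl c (3 * q.A E.η d)).card + 4 * (bl c (2 * q.A E.η d)).card : ℝ) ≤ 18 * V ^ 2 := by
      nlinarith
    nlinarith [mul_le_mul_of_nonneg_right this hε.le]
  · rintro l - ⟨⟨⟨⟨⟨⟨a1, a2⟩, a3⟩, a4⟩, a5⟩, a6⟩, a7⟩
    refine ⟨⟨fun x hx y hy hn => a1 x (mem_sdiff.1 hx).1 y (mem_erase.2 ⟨hn.symm,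
      (mem_sdiff.1 hy).1⟩) ?_, fun x hx => a2 x (mem_sdiff.1 hx).1 ?_, fun x hx =>
      a3 x (mem_sdiff.1 hx).1 ?_, a4⟩, fun φ hφ => ?_, a6, a7⟩
    · simp [(mem_sdiff.1 hx).2, (mem_sdiff.1 hy).2]
    · simp [(mem_sdiff.1 hx).2]
    · simp [(mem_sdiff.1 hx).2]
    · simpa only [mem_univ, if_true] using a5 φ hφ

theorem facts (hu : S_ULH) (hx : S_FX) (H : Hyp E q S c Z Sg) {l : List (Tor d M × Bool)}
    (h1 : (l.map Prod.fst).Nodup) (h2 : hs l ⊆ Z) (h3 : ∀ l', l' <:+ l → CC E q S c Z Sg l') :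
    Fh E q S c Z Sg l ∧ ∀ x ∈ S.O \ hs l,
      1 / 2 ≤ ∑ z ∈ univ.erase x, Kk E.η (Wh S.W l) (NW.GG S.H (Wh S.W l)) x z := by
  have u := hu d M E q S c Z Sg l H h1 h2 fun l' a => ⟨(h3 l' a).bnd, (h3 l' a).all⟩
  have f := hx d M E q S c Z Sg _ _ H h2 (cl_Wh _ l) (h3 l List.suffix_rfl).bnd u
  exact ⟨⟨f.1, u⟩, f.2⟩

/-- without a trip the flow succeeds -/
theorem flow (hu : S_ULH) (hx : S_FX) (hh : S_HIST) (H : Hyp E q S c Z Sg) {ω : Tor d M → Bool}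
    {κ : Tor d M → ℕ} (hκ : Function.Injective κ)
    (h : ∀ (t : ℕ) (l : List (Tor d M × Bool)), (l.map Prod.fst).toFinset = pre κ Z t →
      (l.map Prod.fst).Pairwise (fun x y => κ y < κ x) → (∀ w ∈ l, w.2 = ω w.1) →
      ∀ l', l' <:+ l → CC E q S c Z Sg l') : Flow E q S c Z Sg ω κ := by
  have key : ∀ t, ∃ l : List (Tor d M × Bool), hs l = pre κ Z t ∧ Wh S.W l = Wc S.W ω (pre κ Z t) ∧
      CC E q S c Z Sg l ∧ (Fh E q S c Z Sg l ∧ ∀ x ∈ S.O \ hs l,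
        1 / 2 ≤ ∑ z ∈ univ.erase x, Kk E.η (Wh S.W l) (NW.GG S.H (Wh S.W l)) x z) ∧
      ∀ (V : Type) [AddCommMonoid V] (f : (Tor d M → ℂ) → Finset (Tor d M) → Tor d M → Bool → V),
        Sm S.W f l = ∑ v ∈ pre κ Z t, f (Wc S.W ω (pre κ Z (κ v))) (pre κ Z (κ v)) v (ω v) := by
    intro t
    obtain ⟨l, a1, a2, a3, a4, a5⟩ := hh _ κ Z ω S.W hκ t
    exact ⟨l, a1, a4, h t l a1 a2 a3 l List.suffix_rfl, facts hu hx H
      (a2.imp fun a e => by rw [e] at a; exact lt_irrefl _ a) (a1.trans_subset (pre_sub t))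
      (h t l a1 a2 a3), a5⟩
  have ZO : Z ⊆ S.O := H.hZ.trans (inter_subset_left.trans (sdiff_subset.trans S.good_sub))
  obtain ⟨l, e1, e2, k1, k2, k3⟩ := key (Z.sup κ + 1)
  rw [pre_top κ Z (Nat.lt_succ_self _)] at e1 e2 k3
  refine ⟨fun t => ?_, fun t x a => ?_, fun t x a => ?_, fun x a y b n => ?_, fun x a => ?_,
    fun φ a => ?_, ?_⟩
  · obtain ⟨l, -, e2, k1, -⟩ := key t
    exact e2 ▸ k1.bnd.b4
  · obtain ⟨l, e1, e2, -, k2, -⟩ := key t
    rw [← e2]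
    rw [← e1, mem_sdiff, mem_union] at a
    exact k2.1.1.mis x (mem_union.2 (a.1.imp (fun b => mem_sdiff.2 ⟨b, a.2⟩) id))
  · obtain ⟨l, e1, e2, -, k2, -⟩ := key t
    rw [← e2]
    exact k2.2 x (e1 ▸ sdiff_subset_sdiff ZO Subset.rfl a)
  · rw [← e2]
    refine k1.bnd.b1 x (e1 ▸ a) y (mem_sdiff.2 ⟨mem_union_right _ b, fun z => ?_⟩) n
    exact (mem_sdiff.1 (mem_inter.1 (H.hZ (e1 ▸ z))).1).2 (mem_inter.1 (H.hSg b)).1
  · rw [← e2]
    exact k2.1.1.g4 x (show x ∈ _ \ hs l from e1 ▸ a)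
  · have := k1.y5 φ a
    rwa [k3, sum_ite_mem] at this
  · have := k1.y6
    rw [k3, sum_ite_mem] at this
    refine (opLe_univ this (by positivity) fun x y a => ?_).congr fun x _ y _ => by
      simp only [Finset.sum_apply]
    simp only [Finset.sum_apply]
    refine sum_eq_zero fun v hv => if_neg fun b => ?_
    have s : ∀ z, z ∈ bl v (q.D E.η 2) → z ∈ bl c (2 * q.A E.η d) := fun z hz => by
      have h1 := mem_bl.1 (mem_inter.1 hv).2
      have h2 := nm_tri z v c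
      have h3 := Par.OK.D_le_A (q := q) H.hE
      rw [mem_bl] at hz ⊢
      omega
    exact a.elim (fun a => a (s x (mem_inter.1 (mem_of_mem_erase b.1)).2))
      fun a => a (s y (mem_inter.1 (mem_of_mem_erase b.2)).2)

theorem flow_empty (hE : E.OK) (ω : Tor d M → Bool) (κ : Tor d M → ℕ) :
    Flow E q S c ∅ ∅ ω κ := by
  refine ⟨fun t u => by simp [nS], by simp, by simp, by simp, fun x _ => ?_, fun φ _ => ?_,
    fun u => ?_⟩
  · rw [erase_empty, sum_empty]; positivity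
  · rw [empty_inter, sum_empty, abs_zero]
    exact div_nonneg (add_nonneg (NF_nonneg hE.ref.p0 φ) (by positivity)) (by positivity)
  · simp only [empty_inter, sum_empty]
    refine le_trans (le_of_eq ?_) (mul_nonneg (by positivity) (nS_nonneg _ _))
    simp [nS, ap]

theorem num {P z K : ℝ} (hP : 10 ^ 9 ≤ P) (h0 : 0 ≤ z) (hz : z ≤ exp (P ^ 2))
    (hK : exp (3 * P ^ 3) ≤ K) :
    18 * exp (P ^ 2) ^ 2 * exp (-3 * P ^ 3) * exp (1 + log z) + z ^ 2 / K ≤ exp (-2 * P ^ 3) := by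
  have h1 : exp (log z) ≤ exp (P ^ 2) := by
    rcases h0.eq_or_lt with a | a
    · rw [← a, log_zero]; exact exp_le_exp.2 (by positivity)
    · rwa [exp_log a]
  have h2 : z ^ 2 / K ≤ exp (P ^ 2) ^ 2 * exp (-3 * P ^ 3) := by
    rw [neg_mul, exp_neg, ← div_eq_mul_inv]
    exact div_le_div₀ (by positivity) (pow_le_pow_left₀ h0 hz 2) (exp_pos _) hK
  have h3 : exp (1 + log z) ≤ 3 * exp (P ^ 2) := by
    rw [exp_add]
    exact mul_le_mul (exp_one_lt_d9.le.trans (by norm_num)) h1 (exp_pos _).le (by norm_num)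
  have h4 : 1 ≤ exp (P ^ 2) := one_le_exp (by positivity)
  have h5 : 55 * exp (P ^ 2) ^ 3 ≤ exp (P ^ 3) := by
    have a : 55 ≤ exp (P ^ 2) := by nlinarith [add_one_le_exp (P ^ 2)]
    calc _ ≤ exp (P ^ 2) * exp (P ^ 2) ^ 3 := by gcongr
      _ = exp (4 * P ^ 2) := by rw [← pow_succ', ← exp_nat_mul]; norm_num
      _ ≤ _ := exp_le_exp.2 (by nlinarith [sq_nonneg P])
  have h6 : exp (-2 * P ^ 3) = exp (P ^ 3) * exp (-3 * P ^ 3) := by rw [← exp_add]; ring_nf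
  have h7 := exp_pos (-3 * P ^ 3)
  have h8 : 0 ≤ exp (P ^ 2) ^ 2 * exp (-3 * P ^ 3) := by positivity
  rw [h6]
  nlinarith [mul_le_mul_of_nonneg_right h5 h7.le, mul_le_mul_of_nonneg_left h3 h8,
    mul_le_mul_of_nonneg_left h4 h8]

end FAsmA

theorem t_asm (h1 : S_A1) (h2 : S_A2) (h3 : S_A3) (h4 : S_A4) (h5 : S_A5) (h6 : S_A6)
    (hu : S_ULH) (hx : S_FX) (hh : S_HIST) (hp : S_PH) (hf : S_FAR) : S_FLOW := by
  intro d M _ E q S c Z Sg hE hq hI hS hZ hG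
  rcases hI.cov with h0 | hc
  · have e1 : Z = ∅ := subset_empty.1 (hZ.trans (by simp [h0]))
    have e2 : Sg = ∅ := subset_empty.1 (hG.trans (inter_subset_left.trans (hS.sg.trans h0.subset)))
    rw [e1, e2, pr_false fun z a => a (FAsmA.flow_empty hE _ _)]
    exact (exp_pos _).le
  have H : Hyp E q S c Z Sg := ⟨hE, hq, hI, hS, hZ, hG, hc⟩
  have k := (FAsmA.mon h1 h2 h3 h4 h5 h6 hf H).frame hp (⌈exp (3 * (q.P : ℝ) ^ 3)⌉₊ + 1)
    fun l a b e => (FAsmA.facts hu hx H a b e).1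
  refine (pr_mono fun z a => ?_).trans (k.trans (FAsmA.num (hq.P9 hE) (Nat.cast_nonneg _)
    (FAsmA.card_le hf hE hq (hZ.trans inter_subset_right) (Nat.mul_le_mul_right _
      (le_trans (by norm_num) (Nat.le_mul_of_pos_right 24 hE.d1)))) ?_))
  · by_contra b
    exact a (FAsmA.flow hu hx hh H (FAsmA.ky_inj _) fun t l b1 b2 b3 =>
      not_not.1 fun b4 => b ⟨t, l, b1, b2, b3, b4⟩)
  · push_cast
    linarith [Nat.le_ceil (exp (3 * (q.P : ℝ) ^ 3))]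

end Pool.Agent.P.MP_d0f69c_mp.XS
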