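import Pool.Agent.P.MP_d0f69c_mp.XS.IfFlow

/-!
The facts about a state of the flow follow from the bounds of the monitors and the comparison of
the forms.
-/

set_option autoImplicit false
set_option linter.dupNamespace false

open Finset Real
open scoped Matrix

namespace Pool.Agent.P.MP_d0f69c_mp.XS

namespace FFxA

variable {ι : Type} [Fintype ι] [DecidableEq ι]

theorem amp_aux {A B r : ℝ} (h1 : A ^ 2 ≤ 3 / 5 * r) (h2 : B ^ 2 ≤ r / 100) :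
    (A + B) ^ 2 ≤ r := by
  nlinarith [sq_nonneg (A / 2 - 2 * B), sq_nonneg A, sq_nonneg B]

/-- the positivity bound on a subset -/
theorem pc_aux {N Nm : (ι → ℝ) → ℝ} {g K k : ι → ι → ℝ} {c γ l : ℝ} {O T A : Finset ι}
    (h : PCH N Nm g c (1 / 10 ^ 6) O K) (hTO : T ⊆ O) (hTA : T ⊆ A) (hγ : 0 ≤ γ)
    (hg : ∀ x y, 0 ≤ g x y) (hr : ∀ x ∈ A, ∑ y ∈ A.erase x, g x y ^ 2 ≤ γ ^ 2)
    (hk : ∀ x ∈ T, ∀ y ∈ T, 9 / 10 * k x y ≤ K x y) {f : ι → ℝ} (hl : 0 ≤ l)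
    (hf : ∀ x, 0 ≤ f x) (hs : ∑ x ∈ T, f x ^ 2 ≤ l ^ 2) :
    ∑ x ∈ T, ∑ y ∈ T.erase x, f x * k x y * f y ≤
      (∑ x ∈ T, f x ^ 2) / 10 ^ 5 + 3 * γ * l * ∑ x ∈ T, f x := by
  set u : ι → ℝ := fun x => if x ∈ T then f x else 0 with hu
  have u0 : ∀ x ∉ T, u x = 0 := fun x hx => if_neg hx
  have u1 : ∀ x ∈ T, u x = f x := fun x hx => if_pos hx
  have up : ∀ x, 0 ≤ u x := fun x => by
    by_cases hx : x ∈ T
    · rw [u1 x hx]; exact hf x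
    · rw [u0 x hx]
  have e1 : ∑ x ∈ O, ∑ y ∈ O.erase x, u x * K x y * u y =
      ∑ x ∈ T, ∑ y ∈ T.erase x, f x * K x y * f y := by
    rw [← sum_subset hTO fun x _ hn => sum_eq_zero fun y _ => by rw [u0 x hn, zero_mul, zero_mul]]
    refine sum_congr rfl fun x hx => ?_
    rw [← sum_subset (erase_subset_erase x hTO) fun y h1 h2 => by
      rw [u0 y fun h3 => h2 (mem_erase.2 ⟨(mem_erase.1 h1).1, h3⟩), mul_zero]]
    exact sum_congr rfl fun y hy => by rw [u1 x hx, u1 y (mem_of_mem_erase hy)]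
  have e2 : ∀ U : Finset ι, T ⊆ U → ∑ x ∈ U, u x ^ 2 = ∑ x ∈ T, f x ^ 2 := fun U hU => by
    rw [← sum_subset hU fun x _ hn => by rw [u0 x hn]; ring]
    exact sum_congr rfl fun x hx => by rw [u1 x hx]
  have e3 : ∑ x, |u x| = ∑ x ∈ T, f x := by
    rw [← sum_subset (subset_univ T) fun x _ hn => by rw [u0 x hn, abs_zero]]
    exact sum_congr rfl fun x hx => by rw [u1 x hx, abs_of_nonneg (hf x)]
  have a1 := h.pc u (sum_nonneg fun x _ => sum_nonneg fun y _ =>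
    mul_nonneg (mul_nonneg (up x) (hg x y)) (up y))
  have a2 := off_le (g := g) O hγ hl (u := u) (fun x hx => u0 x fun a => hx (hTA a))
    ((e2 univ (subset_univ T)).trans_le hs) hr
  rw [e1, e2 O hTO] at a1
  rw [e3] at a2
  have a3 : 9 / 10 * ∑ x ∈ T, ∑ y ∈ T.erase x, f x * k x y * f y ≤
      ∑ x ∈ T, ∑ y ∈ T.erase x, f x * K x y * f y := by
    rw [mul_sum]
    refine sum_le_sum fun x hx => ?_
    rw [mul_sum]
    refine sum_le_sum fun y hy => ?_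
    have := mul_le_mul_of_nonneg_left (hk x hx y (mem_of_mem_erase hy)) (mul_nonneg (hf x) (hf y))
    linarith
  have a4 : 0 ≤ ∑ x ∈ T, f x ^ 2 := sum_nonneg fun _ _ => sq_nonneg _
  have a5 : 0 ≤ γ * l * ∑ x ∈ T, f x := mul_nonneg (mul_nonneg hγ hl) (sum_nonneg fun x _ => hf x)
  linarith

/-- the identity of Ward and a norm bound on `Z` -/
theorem ward_aux {G : ι → ι → ℂ} {a : ι → ℝ} {η Λ : ℝ} {O Z R : Finset ι} (hη : 0 < η)
    (hR : R ⊆ O) (ha : ∀ x ∈ O, 1 / 2 ≤ a x)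
    (hw : ∀ u : ι → ℝ, η * ∑ y ∈ O, a y * ‖∑ z, G y z * u z‖ ^ 2 =
      (∑ x, u x * ∑ z, G x z * u z).im) (hn : OpLe Z G Λ) (u : ι → ℝ) :
    ∑ v ∈ R, ‖∑ z ∈ Z, G v z * u z‖ ^ 2 ≤ 2 * Λ / η * ∑ z ∈ Z, u z ^ 2 := by
  have h1 := hw fun x => if x ∈ Z then u x else 0
  have e1 : ∀ y, ∑ z, G y z * ((if z ∈ Z then u z else 0 : ℝ) : ℂ) = ∑ z ∈ Z, G y z * u z :=
    fun y => by
      rw [← sum_subset (subset_univ Z) fun x _ hn => by rw [if_neg hn]; simp]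
      exact sum_congr rfl fun x hx => by rw [if_pos hx]
  simp only [e1] at h1
  rw [← sum_subset (subset_univ Z) fun x _ hn => by rw [if_neg hn]; simp] at h1
  have h2 : (∑ x ∈ Z, ((if x ∈ Z then u x else 0 : ℝ) : ℂ) * ∑ z ∈ Z, G x z * u z).im ≤
      nS Z (fun x => (u x : ℂ)) * nS Z (ap Z G fun x => (u x : ℂ)) := by
    refine (le_abs_self _).trans ((Complex.abs_im_le_norm _).trans ((norm_sum_le _ _).trans ?_))
    refine le_trans (sum_le_sum fun x hx => ?_) (Real.sum_mul_le_sqrt_mul_sqrt Z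
      (fun x => ‖(u x : ℂ)‖) fun x => ‖ap Z G (fun x => (u x : ℂ)) x‖)
    rw [if_pos hx, norm_mul]; rfl
  have h3 := mul_le_mul_of_nonneg_left (hn fun x => (u x : ℂ)) (nS_nonneg Z fun x => (u x : ℂ))
  have h4 : nS Z (fun x => (u x : ℂ)) ^ 2 = ∑ z ∈ Z, u z ^ 2 := by
    rw [nS_sq]; exact sum_congr rfl fun x _ => by rw [Complex.norm_real, Real.norm_eq_abs, sq_abs]
  have h5 : ∑ v ∈ R, ‖∑ z ∈ Z, G v z * u z‖ ^ 2 ≤
      2 * ∑ y ∈ O, a y * ‖∑ z ∈ Z, G y z * u z‖ ^ 2 := by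
    refine (sum_le_sum_of_subset_of_nonneg hR fun _ _ _ => sq_nonneg _).trans ?_
    rw [mul_sum]
    refine sum_le_sum fun y hy => ?_
    have := mul_le_mul_of_nonneg_right (ha y hy) (sq_nonneg ‖∑ z ∈ Z, G y z * u z‖)
    linarith
  rw [div_mul_eq_mul_div, le_div_iff₀ hη, ← h4]
  have h6 := mul_le_mul_of_nonneg_right h5 hη.le
  linarith

omit [Fintype ι] in
/-- what the second monitor gives -/
theorem q2_aux {P n : ℝ} {G : ι → ι → ℂ} {rem Sg : Finset ι} {x : ι} (hP : 0 < P) (hn : 0 < n)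
    (h : q2 P n G rem Sg x ≤ n / 20) :
    ∑ y ∈ rem.erase x, ‖G x y‖ ^ 4 ≤ 25 * n ∧ ∑ y ∈ Sg.erase x, ‖G x y‖ ^ 4 ≤ n / 16 := by
  unfold q2 at h
  have h1 : 0 ≤ ∑ y ∈ Sg.erase x, ‖G x y‖ ^ 4 := sum_nonneg fun _ _ => by positivity
  have h2 := sqrt_nonneg (n * (∑ y ∈ rem.erase x, ‖G x y‖ ^ 4 + n / P ^ 8))
  refine ⟨?_, by linarith⟩
  have h3 : √(n * (∑ y ∈ rem.erase x, ‖G x y‖ ^ 4 + n / P ^ 8)) ≤ 5 * n := by linarith
  rw [sqrt_le_left (by positivity)] at h3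
  have h4 : 0 ≤ n / P ^ 8 := by positivity
  refine le_of_mul_le_mul_left ?_ hn
  nlinarith [mul_nonneg hn.le h4]

omit [Fintype ι] in
/-- what the third monitor gives -/
theorem z3_aux {P μ : ℝ} {G : ι → ι → ℂ} {a : ι → ℝ} {X Kp : Finset ι} {x : ι} {m : ℂ}
    (hP : 0 < P) (hμ : 0 < μ) (h : z3 P μ G a X Kp x m ≤ -1 / (2 * P ^ 25))
    (hy : ∑ z ∈ Kp.erase x, a z * ‖G x z‖ ^ 2 ≤ 11 / 10) :
    ∑ z ∈ X, ‖G x z‖ ^ 2 ≤ 18 * P ^ 25 ∧ ‖m‖ ≤ 40 * μ * P ^ 39 := by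
  unfold z3 at h
  have h1 : -1 / (2 * P ^ 25) ≤ 0 := by rw [neg_div]; exact neg_nonpos.2 (by positivity)
  have h2 : (∑ z ∈ X, ‖G x z‖ ^ 2 + √(‖m‖ ^ 2 + (μ * P ^ 14) ^ 2) / (μ * P ^ 14)) /
      (16 * P ^ 25) ≤ 11 / 10 := by linarith
  rw [div_le_iff₀ (by positivity)] at h2
  have h3 : 0 ≤ ∑ z ∈ X, ‖G x z‖ ^ 2 := sum_nonneg fun _ _ => sq_nonneg _
  have h4 : 0 ≤ √(‖m‖ ^ 2 + (μ * P ^ 14) ^ 2) / (μ * P ^ 14) := by positivity
  have h5 : 0 < P ^ 25 := by positivity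
  refine ⟨by linarith, ?_⟩
  have h6 : √(‖m‖ ^ 2 + (μ * P ^ 14) ^ 2) / (μ * P ^ 14) ≤ 40 * P ^ 25 := by linarith
  rw [div_le_iff₀ (by positivity)] at h6
  refine le_trans (le_sqrt_of_sq_le (le_add_of_nonneg_right (sq_nonneg _))) (h6.trans_eq ?_)
  ring

end FFxA

open FFxA in
theorem t_fx (h1 : S_EXA) (h2 : S_DEC) (h3 : S_PCI) (h4 : S_CPA) : S_FX := by
  intro d M _ E q S c Z Sg X W H hX hC B hU
  have hE := H.hE
  have hq := H.hq
  have inv := H.inv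
  have hP := hq.Ppos hE
  have hη := hE.η0
  have hμ := hq.μpos
  have hN := npOf_OK hE hq
  obtain ⟨-, sym, -, im0, op, wd, -⟩ := h1 d M E q S c Z Sg X W H hX hC
  set G := NW.GG S.H W with hG
  set a := aw E.η W with ha
  have hθ : (q.b1 E.η).θ ≤ 1 / 10 ^ 7 := hq.θ_add hE (by norm_num)
  have Zg : Z ⊆ S.good := fun x hx => (mem_sdiff.1 (mem_inter.1 (H.hZ hx)).1).1
  have Zs : ∀ x ∈ Z, x ∉ S.sig := fun x hx => (mem_sdiff.1 (mem_inter.1 (H.hZ hx)).1).2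
  have Zb : ∀ x ∈ Z, x ∈ bl c (5 * q.A E.η d) := fun x hx => (mem_inter.1 (H.hZ hx)).2
  have Ss : Sg ⊆ S.sig := fun x hx => (mem_inter.1 (H.hSg hx)).1
  have Sb : ∀ x ∈ Sg, x ∈ bl c (5 * q.A E.η d) := fun x hx => (mem_inter.1 (H.hSg hx)).2
  have SX : ∀ x ∈ Sg, x ∉ X := fun x hx hn => Zs x (hX hn) (Ss hx)
  have b56 : ∀ x ∈ bl c (5 * q.A E.η d), x ∈ bl c (6 * q.A E.η d) := fun x hx => by
    rw [mem_bl] at hx ⊢; omega
  have eT : (Z ∪ Sg) \ X = Z \ X ∪ Sg := by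
    ext x
    simp only [mem_sdiff, mem_union]
    exact ⟨fun h => h.1.elim (fun a => Or.inl ⟨a, h.2⟩) Or.inr,
      fun h => h.elim (fun a => ⟨Or.inl a.1, a.2⟩) fun a => ⟨Or.inr a, SX x a⟩⟩
  have Tg : Z \ X ∪ Sg ⊆ S.good := union_subset (sdiff_subset.trans Zg) (Ss.trans H.sel.sg)
  have TX : ∀ x ∈ Z \ X ∪ Sg, x ∉ X := fun x hx => (mem_sdiff.1 (eT ▸ hx)).2
  have TO : Z \ X ∪ Sg ⊆ S.O \ X := fun x hx => mem_sdiff.2 ⟨S.good_sub (Tg hx), TX x hx⟩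
  have KO : S.O \ Z ⊆ S.O \ X := sdiff_subset_sdiff le_rfl hX
  have a0 : ∀ x ∉ S.O \ X, a x = 0 := fun x hx => by simp [ha, aw, im0 x hx]
  have a1 : ∀ x ∈ S.O \ X, |a x - 1| ≤ 1 / 10 ^ 7 := fun x hx => by
    have := (inv.opn x (mem_sdiff.1 hx).1).2.trans hθ
    rwa [aw, ← hC.1 x (mem_sdiff.1 hx).2] at this
  have a2 : ∀ x ∈ S.O \ X, 99 / 100 ≤ a x := fun x hx => by
    have := (abs_le.1 (a1 x hx)).1; linarith
  obtain ⟨c0, pch⟩ := h3 d M E (Kk E.η W G) (S.O \ X) S.omg _ hE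
    (fun x y => by rw [Kk, Kk, sym x y]; ring) hU (by norm_num) le_rfl
    (fun x hx => mem_sdiff.2 ⟨S.omg_sub hx, fun hn => disjoint_left.1 inv.go (Zg (hX hn)) hx⟩) H.cov
  have eY : ∀ x, ∑ y ∈ (S.O \ X).erase x, Kk E.η W G x y =
      a x * ∑ y ∈ (S.O \ X).erase x, a y * ‖G x y‖ ^ 2 := fun x => by
    rw [mul_sum]; exact sum_congr rfl fun y _ => by rw [Kk, mul_assoc]
  have Y0 : ∀ x, ∀ y ∈ (S.O \ X).erase x, 0 ≤ a y * ‖G x y‖ ^ 2 := fun x y hy =>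
    mul_nonneg (le_trans (by norm_num) (a2 y (mem_of_mem_erase hy))) (sq_nonneg _)
  have Y1 : ∀ x ∈ S.O \ X, ∑ y ∈ (S.O \ X).erase x, a y * ‖G x y‖ ^ 2 ≤ 102 / 100 :=
    fun x hx => by
      have b1 := (pch.deg hx).2
      rw [eY] at b1
      have := mul_le_mul_of_nonneg_right (a2 x hx) (sum_nonneg (Y0 x))
      linarith
  have zz : ∀ x ∈ Z \ X ∪ Sg, ∑ z ∈ X, ‖G x z‖ ^ 2 ≤ 18 * (q.P : ℝ) ^ 25 ∧
      ‖G x x - phi (S.W x)‖ ≤ 40 * q.μ * (q.P : ℝ) ^ 39 := fun x hx =>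
    z3_aux hP hμ (B.b3 x (eT ▸ hx)) ((sum_le_sum_of_subset_of_nonneg (erase_subset_erase x KO)
      fun y hy _ => Y0 x y hy).trans ((Y1 x (TO hx)).trans (by norm_num)))
  obtain ⟨-, mb1, mb2⟩ := hN.mb_le
  have mb3 : (npOf E q).mb ≤ E.η / 10 ^ 9 := mb1.trans (div_le_div_of_nonneg_left hη.le
    (by norm_num) ((hq.P9 hE).trans (le_self_pow₀ (hq.Pone hE) (by norm_num))))
  have cp := fun x (hx : x ∈ Z \ X ∪ Sg) =>
    h4 (W x) (G x x) (∑ z ∈ (S.O \ X).erase x, a z * ‖G x z‖ ^ 2) E.η (npOf E q).mb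
      (fun b => (sgn b - W x) / (1 + (sgn b - W x) * G x x)) hη hE.η1
      (by rw [hC.1 x (TX x hx)]; exact (inv.opn x (S.good_sub (Tg hx))).1.trans hθ)
      (a1 x (TO hx)) (by rw [hC.1 x (TX x hx)]; exact (zz x hx).2) mb3
      (by
        have b1 := wd (Pi.single x 1)
        have e : ∀ y, ∑ z, G y z * ((Pi.single x 1 : Tor d M → ℝ) z : ℂ) = G x y := fun y => by
          rw [sum_eq_single x (by simp +contextual) (by simp), sym y x]; simp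
        simp only [e] at b1
        rw [sum_eq_single (s := univ) x (by simp +contextual) (by simp),
          ← add_sum_erase _ _ (TO hx)] at b1
        simp only [Pi.single_eq_same, Complex.ofReal_one, one_mul] at b1
        rw [← b1, mul_add, ← mul_assoc, ha, aw, mul_div_cancel₀ _ hη.ne'])
      fun _ => rfl
  have rT : ∀ v ∈ Z \ X, v ∈ Z \ X ∪ Sg := fun v hv => mem_union_left _ hv
  have eZ : X ∪ Z \ X = Z := union_sdiff_of_subset hX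
  refine ⟨⟨sym, fun x hx => ?_, fun x hx => ?_, sdiff_subset_sdiff inter_subset_left le_rfl, KO,
    disjoint_left.2 fun x hx hs => Zs x (mem_sdiff.1 hx).1 (Ss hs), sdiff_disjoint,
    disjoint_left.2 fun x hx hs => (mem_sdiff.1 hs).2 (mem_sdiff.1 hx).1, fun v => self_bl v _,
    fun v hv x hx => ?_, a0, a1, fun x => ⟨hq.μ_le_μr S x, hq.μr_le S x⟩, fun x hx => ?_,
    fun v hv => (cp v (rT v hv)).2.1, fun v hv => ?_, fun v hv => (cp v (rT v hv)).2.2.2.1,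
    fun v hv => ?_, fun v hv => (cp v (rT v hv)).2.2.2.2.2.2, fun x hx => (zz x hx).2,
    fun x hx => (cp x hx).1, op, fun x hx => ?_, fun x hx y hy hn => ?_,
    fun x hx => (q2_aux hP (by have := hq.μr_pos S x; positivity) (B.b2 x hx)).1,
    fun x hx => (q2_aux hP (by have := hq.μr_pos S x; positivity) (B.b2 x hx)).2,
    fun f l hl hf hs => ?_, fun v hv => B.b3 v (eT ▸ rT v hv), fun x hx => (zz x hx).1,
    ?_, fun u => ?_, (h2 d M E q S c Z Sg X W H hX hC B.b4).2⟩, fun x hx => ?_⟩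
  · exact mem_sdiff.2 ⟨mem_inter.2 ⟨S.good_sub (Zg (mem_sdiff.1 hx).1),
      b56 x (Zb x (mem_sdiff.1 hx).1)⟩, (mem_sdiff.1 hx).2⟩
  · exact mem_sdiff.2 ⟨mem_inter.2 ⟨S.good_sub (H.sel.sg (Ss hx)), b56 x (Sb x hx)⟩, SX x hx⟩
  · obtain ⟨b1, b2⟩ := mem_inter.1 hx
    refine mem_sdiff.2 ⟨mem_inter.2 ⟨(mem_sdiff.1 b2).1, ?_⟩, (mem_sdiff.1 b2).2⟩
    have b3 := mem_bl.1 (Zb v (mem_sdiff.1 hv).1)
    have b4 : nm (x - v) ≤ q.D E.η 2 := mem_bl.1 b1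
    have b5 := nm_tri x v c
    have b6 := Par.OK.D_le_A (q := q) hE
    rw [mem_bl]; omega
  · refine if_pos ?_
    unfold St.rowA
    split_ifs
    exacts [Tg hx, mem_union_left _ (Tg hx)]
  · have := (cp v (rT v hv)).2.2.1
    rwa [show phi (W v) = phi (S.W v) by rw [hC.1 v (mem_sdiff.1 hv).2]] at this
  · have := (cp v (rT v hv)).2.2.2.2
    rw [show 1 - W v ^ 2 = 1 - S.W v ^ 2 by rw [hC.1 v (mem_sdiff.1 hv).2]] at this
    exact ⟨this.1, this.2.1⟩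
  · have b1 : 99 / 100 * ∑ y ∈ (S.O \ X).erase x, ‖G x y‖ ^ 2 ≤
        ∑ y ∈ (S.O \ X).erase x, a y * ‖G x y‖ ^ 2 := by
      rw [mul_sum]
      exact sum_le_sum fun y hy =>
        mul_le_mul_of_nonneg_right (a2 y (mem_of_mem_erase hy)) (sq_nonneg _)
    have b2 := Y1 x hx
    show ∑ y ∈ (S.O \ X).erase x, ‖G x y‖ ^ 2 ≤ 11 / 10
    linarith
  · have b1 := B.b1 x hx y (eT ▸ hy) hn
    have r0 := hq.μr_pos S x
    have b2 : ‖S.G x y‖ ^ 2 ≤ 3 / 5 * μr q S x := by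
      unfold μr
      split_ifs with hr
      · exact inv.ampA x hr y (Tg hy) hn
      · refine (inv.ampB rfl x (mem_sdiff.2 ⟨(mem_inter.1 (mem_sdiff.1 hx).1).1, hr⟩) y
          (Tg hy)).trans (mul_le_mul_of_nonneg_right ?_ hq.μJpos.le)
        have c1 : 1 / (q.P : ℝ) ^ 3 ≤ 1 / (q.P : ℝ) ^ 2 :=
          one_div_le_one_div_of_le (by positivity) (hq.pow_le hE (by norm_num))
        have c2 : 0 ≤ q.ζ + 1 / (q.P : ℝ) ^ 3 := by have := hq.ζ0; positivity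
        have c3 := pow_le_pow_left₀ c2 (show q.ζ + 1 / (q.P : ℝ) ^ 3 ≤ 3 / 4 by
          linarith [hq.ζ1]) 2
        linarith
    have b3 : (2 * √(μr q S x * q.μ) * (q.P : ℝ) ^ 45) ^ 2 ≤ μr q S x / 100 := by
      have c1 : q.μ * (q.P : ℝ) ^ 200 ≤ E.η := (le_div_iff₀ (by positivity)).1 mb2
      have c2 := mul_le_mul_of_nonneg_left (hq.pow_le hE (show 90 ≤ 200 by norm_num)) hμ.le
      have c3 : q.μ * (q.P : ℝ) ^ 90 ≤ 1 / 400 := by linarith [hE.η1]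
      have c4 := mul_le_mul_of_nonneg_left c3 r0.le
      rw [mul_pow, mul_pow, sq_sqrt (by positivity)]
      linarith
    refine le_trans (pow_le_pow_left₀ (norm_nonneg _) ?_ 2) (amp_aux b2 b3)
    exact (norm_le_insert' _ _).trans (add_le_add_right b1 _)
  · refine pc_aux pch TO Tg hμ.le (fun x y => hE.ref.g0 _) inv.gs (fun x hx y hy => ?_) hl hf hs
    refine mul_le_mul_of_nonneg_right ?_ (sq_nonneg _)
    have := mul_le_mul (a2 x (TO hx)) (a2 y (TO hy)) (by norm_num)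
      (le_trans (by norm_num) (a2 x (TO hx)))
    linarith
  · show OpLe (X ∪ Z \ X) G _
    rw [eZ]; exact B.b4
  · show ∑ v ∈ Z \ X, ‖∑ z ∈ X ∪ Z \ X, G v z * u z‖ ^ 2 ≤
      2 * (q.P : ℝ) ^ 40 / E.η ^ 2 * ∑ z ∈ X ∪ Z \ X, u z ^ 2
    rw [eZ]
    refine (ward_aux hη (fun v hv => TO (rT v hv)) (fun x hx => le_trans (by norm_num) (a2 x hx))
      wd B.b4 u).trans_eq ?_
    congr 1
    field_simp
  · rw [← sum_subset (erase_subset_erase x (subset_univ (S.O \ X))) fun y b1 b2 => by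
      rw [Kk, ← ha, a0 y fun b3 => b2 (mem_erase.2 ⟨(mem_erase.1 b1).1, b3⟩), mul_zero, zero_mul]]
    linarith [(pch.deg hx).1]

end Pool.Agent.P.MP_d0f69c_mp.XS
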