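import Pool.Agent.P.MP_d0f69c_mp.XS.IfFlow

/-!
Drift and variation of the block of the matrix on the closed and remaining sites.
-/

set_option autoImplicit false

open Finset Real

namespace Pool.Agent.P.MP_d0f69c_mp.XS

namespace FM4A

variable {ι : Type} [Fintype ι] [DecidableEq ι] {q : Np} {σ : Sx ι}

theorem col (hq : q.OK) (h : Fx q σ) {v : ι} (hv : v ∈ σ.rem) :
    ∑ x ∈ σ.X ∪ σ.rem, ‖σ.G x v‖ ^ 2 ≤ 19 * q.P ^ 25 := by
  have hv' : v ∈ σ.rem ∪ σ.Sg := mem_union_left _ hv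
  have h1 := h.dd v hv'
  have h2 := h.row v (h.RO (h.rR hv))
  have h3 : ∑ y ∈ σ.rem.erase v, ‖σ.G v y‖ ^ 2 ≤ ∑ y ∈ σ.Op.erase v, ‖σ.G v y‖ ^ 2 :=
    sum_le_sum_of_subset_of_nonneg (erase_subset_erase v (h.rR.trans h.RO)) fun _ _ _ => sq_nonneg _
  have h4 : ‖σ.G v v‖ ^ 2 ≤ 1 := by
    have := h.dg v hv'
    nlinarith [norm_nonneg (σ.G v v)]
  have h5 : q.P ≤ q.P ^ 25 := le_self_pow₀ (by linarith [hq.P9]) (by norm_num)
  simp only [fun x => h.sym x v]
  rw [sum_union h.rX.symm, ← add_sum_erase _ _ hv]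
  linarith [hq.P9]

end FM4A

open FM4A in
theorem t_m4 : S_M4 := by
  intro ι _ _ q σ hq h u
  set T := σ.X ∪ σ.rem with hT
  set ζ : ι → ℂ := fun v => ∑ z ∈ T, σ.G v z * u z with hζ
  set U := ∑ x ∈ T, u x ^ 2 with hU
  have hw : ∑ v ∈ σ.rem, ‖ζ v‖ ^ 2 ≤ 2 * q.P ^ 40 / q.η ^ 2 * U := h.ward u
  have hU0 : 0 ≤ U := sum_nonneg fun _ _ => sq_nonneg _
  have hP : 1 ≤ q.P := by linarith [hq.P9]
  have hη := hq.η0
  obtain ⟨m0, m1, -⟩ := hq.mb_le
  have ht : ∀ v ∈ σ.rem, ∀ b, ‖σ.t v b‖ ^ 2 ≤ 121 / 100 := fun v hv b => by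
    have := h.t1 v hv b
    nlinarith [norm_nonneg (σ.t v b)]
  constructor
  · have e : ∀ v b, ∑ x ∈ T, ∑ y ∈ T, u x * (σ.t v b * (σ.G x v * σ.G v y)) * u y =
        σ.t v b * ζ v ^ 2 := fun v b => by
      rw [sq, hζ, sum_mul_sum, mul_sum]
      refine sum_congr rfl fun x _ => ?_
      rw [mul_sum]
      refine sum_congr rfl fun y _ => ?_
      rw [h.sym x v]
      ring
    rw [sum_product]
    simp only [e, Fintype.sum_bool, ← add_mul]
    refine (norm_sum_le _ _).trans ?_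
    have b1 : ∀ v ∈ σ.rem, ‖(σ.t v true + σ.t v false) * ζ v ^ 2‖ ≤ 3 * q.mb * ‖ζ v‖ ^ 2 := by
      intro v hv
      rw [norm_mul, norm_pow]
      refine mul_le_mul_of_nonneg_right ((h.t2 v hv).trans ?_) (sq_nonneg _)
      exact mul_le_mul (by linarith [ht v hv true, ht v hv false])
        (h.mis v (mem_union_left _ hv)) (norm_nonneg _) (by norm_num)
    refine (sum_le_sum b1).trans ?_
    rw [← mul_sum]
    refine (mul_le_mul_of_nonneg_left hw (by positivity)).trans ?_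
    rw [← mul_assoc]
    refine mul_le_mul_of_nonneg_right ?_ hU0
    have b2 : q.P ≤ q.P ^ 120 := le_self_pow₀ hP (by norm_num)
    calc 3 * q.mb * (2 * q.P ^ 40 / q.η ^ 2)
        ≤ 3 * (q.η / q.P ^ 160) * (2 * q.P ^ 40 / q.η ^ 2) := by gcongr
      _ = 6 / q.P ^ 120 * (1 / q.η) := by field_simp; ring
      _ ≤ 1 * (1 / q.η) := by
          refine mul_le_mul_of_nonneg_right ?_ (by positivity)
          rw [div_le_one (by positivity)]
          linarith [hq.P9]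
      _ = 1 / q.η := one_mul _
  · have e : ∀ v b x, ∑ y ∈ T, σ.t v b * (σ.G x v * σ.G v y) * u y =
        σ.t v b * σ.G x v * ζ v := fun v b x => by
      rw [hζ, mul_sum]
      exact sum_congr rfl fun y _ => by ring
    have b1 : ∀ v ∈ σ.rem, ∀ b, ∑ x ∈ T, ‖σ.t v b * σ.G x v * ζ v‖ ^ 2 ≤
        23 * q.P ^ 25 * ‖ζ v‖ ^ 2 := by
      intro v hv b
      simp only [norm_mul, mul_pow]
      rw [← sum_mul, ← mul_sum]
      refine mul_le_mul_of_nonneg_right ?_ (sq_nonneg _)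
      refine (mul_le_mul (ht v hv b) (col hq h hv) (sum_nonneg fun _ _ => sq_nonneg _)
        (by norm_num)).trans ?_
      have : 0 ≤ q.P ^ 25 := by positivity
      linarith
    rw [sum_product]
    simp only [e, Fintype.sum_bool]
    refine (sum_le_sum fun v hv => add_le_add (b1 v hv true) (b1 v hv false)).trans ?_
    simp only [← two_mul]
    rw [← mul_sum, ← mul_sum]
    calc 2 * (23 * q.P ^ 25 * ∑ v ∈ σ.rem, ‖ζ v‖ ^ 2)
        ≤ 2 * (23 * q.P ^ 25 * (2 * q.P ^ 40 / q.η ^ 2 * U)) := by gcongr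
      _ = 92 * (q.P ^ 65 / q.η ^ 2 * U) := by ring
      _ ≤ q.P * (q.P ^ 65 / q.η ^ 2 * U) :=
          mul_le_mul_of_nonneg_right (by linarith [hq.P9]) (by positivity)
      _ = q.P ^ 66 / q.η ^ 2 * U := by ring

end Pool.Agent.P.MP_d0f69c_mp.XS
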