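import Pool.Agent.P.MP_d0f69c_mp.XS.IfG

/-!
Pointwise inequalities for the noise of one closing.
-/

set_option autoImplicit false

open Finset Real

namespace Pool.Agent.P.MP_d0f69c_mp.XS.G2

theorem sqn_diff {a b : ℂ} {B δ : ℝ} (ha : ‖a‖ ≤ B) (hb : ‖b‖ ≤ B) (h : ‖a - b‖ ≤ δ) :
    |‖a‖ ^ 2 - ‖b‖ ^ 2| ≤ 2 * B * δ := by
  rw [sq_sub_sq, abs_mul, abs_of_nonneg (by positivity)]
  exact mul_le_mul (by linarith) ((abs_norm_sub_norm_le a b).trans h) (abs_nonneg _)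
    (by linarith [norm_nonneg a])

theorem csq_diff {a b : ℂ} {B δ : ℝ} (ha : ‖a‖ ≤ B) (hb : ‖b‖ ≤ B) (h : ‖a - b‖ ≤ δ) :
    ‖a ^ 2 - b ^ 2‖ ≤ 2 * B * δ := by
  rw [sq_sub_sq, norm_mul]
  exact mul_le_mul ((norm_add_le a b).trans (by linarith)) h (norm_nonneg _)
    (by linarith [norm_nonneg a])

/-- a conductance with leads of strength at most two -/
theorem kk_le {a b : ℝ} {g : ℂ} {B : ℝ} (a0 : 0 ≤ a) (a2 : a ≤ 2) (b0 : 0 ≤ b) (b2 : b ≤ 2)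
    (hg : ‖g‖ ≤ B) : a * b * ‖g‖ ^ 2 ≤ 4 * B ^ 2 :=
  mul_le_mul (by nlinarith) (pow_le_pow_left₀ (norm_nonneg _) hg 2) (sq_nonneg _) (by norm_num)

theorem kk_diff {a b : ℝ} {g g' : ℂ} {B δ : ℝ} (a0 : 0 ≤ a) (a2 : a ≤ 2) (b0 : 0 ≤ b) (b2 : b ≤ 2)
    (hg : ‖g‖ ≤ B) (hg' : ‖g'‖ ≤ B) (h : ‖g - g'‖ ≤ δ) :
    |a * b * ‖g‖ ^ 2 - a * b * ‖g'‖ ^ 2| ≤ 8 * B * δ := by
  rw [← mul_sub, abs_mul, abs_of_nonneg (mul_nonneg a0 b0)]
  have h1 := sqn_diff hg hg' h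
  have h2 : a * b ≤ 4 := by nlinarith
  have := mul_le_mul h2 h1 (abs_nonneg _) (by norm_num)
  linarith

theorem mesh_diff {a b c a' b' c' m e ε : ℝ} (a0 : 0 ≤ a) (b0' : 0 ≤ b') (a0' : 0 ≤ a')
    (am : a ≤ m) (am' : a' ≤ m) (bm' : b' ≤ m) (ha : |a - a'| ≤ e) (hb : |b - b'| ≤ e)
    (hc : 1 / 4 ≤ c) (hc' : 1 / 2 ≤ c') (h : |c - c'| ≤ ε) :
    |a * b / c - a' * b' / c'| ≤ 8 * m * e + 8 * m ^ 2 * ε := by
  have c0 : 0 < c := by linarith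
  have c0' : 0 < c' := by linarith
  have m0 : 0 ≤ m := a0.trans am
  have e0 : 0 ≤ e := (abs_nonneg _).trans ha
  have ε0 : 0 ≤ ε := (abs_nonneg _).trans h
  have k : a * b / c - a' * b' / c' =
      (a * (b - b') + (a - a') * b') / c + a' * b' * (c' - c) / (c * c') := by
    field_simp; ring
  have h1 : |a * (b - b') + (a - a') * b'| ≤ 2 * m * e := by
    refine (abs_add_le _ _).trans ?_
    rw [abs_mul, abs_mul, abs_of_nonneg a0, abs_of_nonneg b0']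
    have := mul_le_mul am hb (abs_nonneg _) m0
    have := mul_le_mul ha bm' b0' e0
    linarith
  have h2 : |a' * b' * (c' - c)| ≤ m ^ 2 * ε := by
    rw [abs_mul, abs_of_nonneg (mul_nonneg a0' b0'), abs_sub_comm, sq]
    exact mul_le_mul (mul_le_mul am' bm' b0' m0) h (abs_nonneg _) (by positivity)
  rw [k]
  refine (abs_add_le _ _).trans (add_le_add ?_ ?_)
  · rw [abs_div, abs_of_pos c0, div_le_iff₀ c0]
    have : 0 ≤ m * e := by positivity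
    nlinarith
  · rw [abs_div, abs_of_pos (mul_pos c0 c0'), div_le_iff₀ (mul_pos c0 c0')]
    have : 0 ≤ m ^ 2 * ε := by positivity
    have : 1 / 8 ≤ c * c' := by nlinarith
    nlinarith

theorem sq_one_sub {W : ℂ} (hW : ‖W‖ ≤ 1 / 10) : ‖(1 - W ^ 2) ^ 2‖ ≤ 2 := by
  have w2 : ‖W ^ 2‖ ≤ 1 / 100 := by
    rw [norm_pow]; nlinarith [norm_nonneg W]
  have d1 : ‖1 - W ^ 2‖ ≤ 101 / 100 := (norm_sub_le _ _).trans (by rw [norm_one]; linarith)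
  rw [norm_pow]
  nlinarith [norm_nonneg (1 - W ^ 2)]

variable {ι : Type} [Fintype ι] [DecidableEq ι] {η : ℝ} {H : Matrix ι ι ℝ} {W : ι → ℂ} {v : ι}
  {b : Bool} {x y : ι}

omit [Fintype ι] in
theorem aw_upd (hx : x ≠ v) (s : ℂ) : aw η (Function.update W v s) x = aw η W x := by
  rw [aw, aw, Function.update_of_ne hx]

theorem dK_eq (hx : x ≠ v) (hy : y ≠ v) : dK η H W v b x y =
    aw η W x * aw η W y * ‖NW.GG H (Function.update W v (sgn b)) x y‖ ^ 2 -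
      aw η W x * aw η W y * ‖NW.GG H W x y‖ ^ 2 -
      aw η W x * aw η W v * ‖NW.GG H W x v‖ ^ 2 * (aw η W v * aw η W y * ‖NW.GG H W v y‖ ^ 2) /
        ∑ z ∈ univ.erase v, Kk η W (NW.GG H W) v z := by
  rw [dK, Kk, Kk, Kk, Kk, aw_upd hx, aw_upd hy]; ring

theorem dK_zero (hx : x ≠ v) (hy : y ≠ v) (h : aw η W x = 0) : dK η H W v b x y = 0 := by
  rw [dK_eq hx hy, h]; simp

theorem dA_eq (hx : x ≠ v) (hy : y ≠ v) : dA H W v b x y =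
    (if x = y then 0 else NW.GG H W x y ^ 2 - NW.GG H (Function.update W v (sgn b)) x y ^ 2) +
      NW.GG H W x v ^ 2 * NW.GG H W v y ^ 2 * (1 - W v ^ 2) ^ 2 := by
  simp only [dA, Am, if_neg hx, if_neg hy.symm, if_true, Function.update_of_ne hx, div_div_eq_mul_div,
    div_one]
  split_ifs <;> ring

/-- the data of one closing that enter the pointwise bounds -/
structure Cl (η : ℝ) (H : Matrix ι ι ℝ) (W : ι → ℂ) (v : ι) (b : Bool) (O : Finset ι) (B : ℝ) :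
    Prop where
  g : GOK η H W
  g' : GOK η H (Function.update W v (sgn b))
  a2 : ∀ z, aw η W z ≤ 2
  az : ∀ z ∉ O, aw η W z = 0
  vO : v ∈ O
  W1 : ‖W v‖ ≤ 1 / 10
  bd : ∀ x ∈ O, ∀ y, ‖NW.GG H W x y‖ ≤ B
  bd' : ∀ x ∈ O, ∀ y, ‖NW.GG H (Function.update W v (sgn b)) x y‖ ≤ B

variable {O : Finset ι} {B : ℝ}

theorem Cl.step (h : Cl η H W v b O B) (hm : ‖NW.GG H W v v - phi (W v)‖ ≤ 1 / 10) {g1 g2 : ℝ}
    (h1 : ‖NW.GG H W v x‖ ≤ g1) (h2 : ‖NW.GG H W v y‖ ≤ g2) :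
    ‖NW.GG H (Function.update W v (sgn b)) x y - NW.GG H W x y‖ ≤ 2 * (g1 * g2) := by
  rw [GG_upd h.g.unit v b h.g'.unit, sub_sub_cancel_left, norm_neg, norm_mul, norm_mul,
    h.g.sym x v]
  exact mul_le_mul ((cpa h.W1 hm le_rfl).1 b) (mul_le_mul h1 h2 (norm_nonneg _)
    ((norm_nonneg _).trans h1)) (by positivity) zero_le_two

theorem Cl.kb (h : Cl η H W v b O B) (hB : 1 ≤ B) (hm : ‖NW.GG H W v v - phi (W v)‖ ≤ 1 / 10)
    (hd : 1 / 4 ≤ ∑ z ∈ univ.erase v, Kk η W (NW.GG H W) v z) (hx : x ≠ v) (hy : y ≠ v)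
    {g1 g2 : ℝ} (h1 : ‖NW.GG H W v x‖ ≤ g1) (h2 : ‖NW.GG H W v y‖ ≤ g2) :
    |dK η H W v b x y| ≤ 80 * B ^ 2 * (g1 * g2) := by
  have p1 := (norm_nonneg _).trans h1
  have p2 := (norm_nonneg _).trans h2
  have p := mul_nonneg p1 p2
  by_cases xO : x ∈ O
  swap
  · rw [dK_zero hx hy (h.az x xO), abs_zero]; positivity
  have a0 := h.g.a0
  have k1 := kk_diff (a0 x) (h.a2 x) (a0 y) (h.a2 y) (h.bd' x xO y) (h.bd x xO y) (h.step hm h1 h2)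
  have sq : ∀ {z : ι} {g : ℝ}, ‖NW.GG H W v z‖ ≤ g → ‖NW.GG H W v z‖ ^ 2 ≤ B * g := fun {z g} a => by
    rw [sq]; exact mul_le_mul (h.bd v h.vO z) a (norm_nonneg _) (by linarith)
  have four : ∀ z w, aw η W z * aw η W w ≤ 4 := fun z w => by
    nlinarith [a0 z, a0 w, h.a2 z, h.a2 w]
  have k2 := mul_le_mul (four x v) (sq h1) (sq_nonneg _) (by norm_num)
  have k3 := mul_le_mul (four v y) (sq h2) (sq_nonneg _) (by norm_num)
  have k4 := mul_le_mul k2 k3 (h.g.K0 v y) (by positivity)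
  have k0 := mul_nonneg (h.g.K0 x v) (h.g.K0 v y)
  rw [dK_eq hx hy]
  simp only [Kk, h.g.sym x v] at k0 ⊢
  refine (abs_sub _ _).trans ?_
  rw [abs_of_nonneg (div_nonneg k0 (by simpa only [Kk] using hd.trans' (by norm_num)))]
  have k5 := div_le_div₀ (by positivity) k4 (by norm_num) hd
  simp only [Kk] at k5
  have k6 : B * (g1 * g2) ≤ B ^ 2 * (g1 * g2) := mul_le_mul_of_nonneg_right (by nlinarith) p
  nlinarith

theorem Cl.ab (h : Cl η H W v b O B) (hB : 1 ≤ B) (hm : ‖NW.GG H W v v - phi (W v)‖ ≤ 1 / 10)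
    (xO : x ∈ O) (hx : x ≠ v) (hy : y ≠ v)
    {g1 g2 : ℝ} (h1 : ‖NW.GG H W v x‖ ≤ g1) (h2 : ‖NW.GG H W v y‖ ≤ g2) :
    ‖dA H W v b x y‖ ≤ 80 * B ^ 2 * (g1 * g2) := by
  have p1 := (norm_nonneg _).trans h1
  have p2 := (norm_nonneg _).trans h2
  have p := mul_nonneg p1 p2
  have k1 := csq_diff (h.bd' x xO y) (h.bd x xO y) (h.step hm h1 h2)
  have sq : ∀ {z : ι} {g : ℝ}, ‖NW.GG H W v z‖ ≤ g → ‖NW.GG H W v z ^ 2‖ ≤ B * g := fun {z g} a => by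
    rw [norm_pow, sq]; exact mul_le_mul (h.bd v h.vO z) a (norm_nonneg _) (by linarith)
  have k2 := mul_le_mul (mul_le_mul (sq h1) (sq h2) (norm_nonneg _) (by positivity))
    (sq_one_sub h.W1) (norm_nonneg _) (by positivity)
  have k6 : B * (g1 * g2) ≤ B ^ 2 * (g1 * g2) := mul_le_mul_of_nonneg_right (by nlinarith) p
  have k7 : 0 ≤ B * (g1 * g2) := by positivity
  rw [dA_eq hx hy, h.g.sym x v]
  refine (norm_add_le _ _).trans ?_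
  rw [norm_mul, norm_mul]
  split_ifs
  · rw [norm_zero]; nlinarith
  · rw [norm_sub_rev]; nlinarith

variable {V : ι → ℂ} {δ ε : ℝ}

theorem Cl.kc (h : Cl η H W v b O B) (h' : Cl η H V v b O B) (hB : 1 ≤ B) (hδ : 0 ≤ δ)
    (hd : 1 / 4 ≤ ∑ z ∈ univ.erase v, Kk η W (NW.GG H W) v z)
    (hd' : 1 / 2 ≤ ∑ z ∈ univ.erase v, Kk η V (NW.GG H V) v z)
    (hε : |∑ z ∈ univ.erase v, Kk η W (NW.GG H W) v z -
      ∑ z ∈ univ.erase v, Kk η V (NW.GG H V) v z| ≤ ε) (hx : x ≠ v) (hy : y ≠ v)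
    (ex : aw η V x = aw η W x) (ey : aw η V y = aw η W y) (ev : aw η V v = aw η W v)
    (c1 : ∀ z, ‖NW.GG H W x z - NW.GG H V x z‖ ≤ δ) (c2 : ‖NW.GG H W v y - NW.GG H V v y‖ ≤ δ)
    (c3 : ‖NW.GG H (Function.update W v (sgn b)) x y -
      NW.GG H (Function.update V v (sgn b)) x y‖ ≤ δ) :
    |dK η H W v b x y - dK η H V v b x y| ≤ 272 * B ^ 3 * δ + 128 * B ^ 4 * ε := by
  have ε0 := (abs_nonneg _).trans hε
  by_cases xO : x ∈ O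
  swap
  · rw [dK_zero hx hy (h.az x xO), dK_zero hx hy (h'.az x xO), sub_zero, abs_zero]; positivity
  have a0 := h.g.a0
  have a2 := h.a2
  have vO := h.vO
  have k1 := kk_diff (a0 x) (a2 x) (a0 y) (a2 y) (h.bd' x xO y) (h'.bd' x xO y) c3
  have k2 := kk_diff (a0 x) (a2 x) (a0 y) (a2 y) (h.bd x xO y) (h'.bd x xO y) (c1 y)
  have k3 := kk_diff (a0 x) (a2 x) (a0 v) (a2 v) (h.bd x xO v) (h'.bd x xO v) (c1 v)
  have k4 := kk_diff (a0 v) (a2 v) (a0 y) (a2 y) (h.bd v vO y) (h'.bd v vO y) c2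
  have k5 := mesh_diff (h.g.K0 x v) (mul_nonneg (mul_nonneg (a0 v) (a0 y)) (sq_nonneg _))
    (mul_nonneg (mul_nonneg (a0 x) (a0 v)) (sq_nonneg _))
    (kk_le (a0 x) (a2 x) (a0 v) (a2 v) (h.bd x xO v))
    (kk_le (a0 x) (a2 x) (a0 v) (a2 v) (h'.bd x xO v))
    (kk_le (a0 v) (a2 v) (a0 y) (a2 y) (h'.bd v vO y)) k3 k4 hd hd' hε
  rw [dK_eq hx hy, dK_eq hx hy, ex, ey, ev]
  rw [Kk] at k5
  have k6 : B * δ ≤ B ^ 3 * δ := mul_le_mul_of_nonneg_right (le_self_pow₀ hB (by norm_num)) hδ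
  rw [abs_le] at k1 k2 k5 ⊢
  constructor <;> nlinarith [k1.1, k1.2, k2.1, k2.2, k5.1, k5.2]

theorem Cl.ac (h : Cl η H W v b O B) (h' : Cl η H V v b O B) (hB : 1 ≤ B) (hδ : 0 ≤ δ)
    (xO : x ∈ O) (hx : x ≠ v) (hy : y ≠ v) (ev : V v = W v)
    (c1 : ∀ z, ‖NW.GG H W x z - NW.GG H V x z‖ ≤ δ) (c2 : ‖NW.GG H W v y - NW.GG H V v y‖ ≤ δ)
    (c3 : ‖NW.GG H (Function.update W v (sgn b)) x y -
      NW.GG H (Function.update V v (sgn b)) x y‖ ≤ δ) :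
    ‖dA H W v b x y - dA H V v b x y‖ ≤ 12 * B ^ 3 * δ := by
  have vO := h.vO
  have k1 := csq_diff (h.bd' x xO y) (h'.bd' x xO y) c3
  have k2 := csq_diff (h.bd x xO y) (h'.bd x xO y) (c1 y)
  have k3 := csq_diff (h.bd x xO v) (h'.bd x xO v) (c1 v)
  have k4 := csq_diff (h.bd v vO y) (h'.bd v vO y) c2
  have b1 : ‖NW.GG H W x v ^ 2‖ ≤ B ^ 2 := by
    rw [norm_pow]; exact pow_le_pow_left₀ (norm_nonneg _) (h.bd x xO v) 2
  have b2 : ‖NW.GG H V v y ^ 2‖ ≤ B ^ 2 := by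
    rw [norm_pow]; exact pow_le_pow_left₀ (norm_nonneg _) (h'.bd v vO y) 2
  have k5 : ‖(NW.GG H W x v ^ 2 * (NW.GG H W v y ^ 2 - NW.GG H V v y ^ 2) +
      (NW.GG H W x v ^ 2 - NW.GG H V x v ^ 2) * NW.GG H V v y ^ 2) * (1 - W v ^ 2) ^ 2‖ ≤
      (B ^ 2 * (2 * B * δ) + 2 * B * δ * B ^ 2) * 2 := by
    rw [norm_mul]
    refine mul_le_mul ((norm_add_le _ _).trans ?_) (sq_one_sub h.W1) (norm_nonneg _) (by positivity)
    rw [norm_mul, norm_mul]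
    exact add_le_add (mul_le_mul b1 k4 (norm_nonneg _) (by positivity))
      (mul_le_mul k3 b2 (norm_nonneg _) (by positivity))
  have k6 : B * δ ≤ B ^ 3 * δ := mul_le_mul_of_nonneg_right (le_self_pow₀ hB (by norm_num)) hδ
  have k7 : 0 ≤ B * δ := by positivity
  rw [dA_eq hx hy, dA_eq hx hy, ev]
  split_ifs
  · refine le_trans (le_of_eq ?_) (k5.trans (by nlinarith))
    congr 1; ring
  · have k8 := (norm_add_le _ _).trans (add_le_add ((norm_sub_le _ _).trans (add_le_add k2 k1)) k5)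
    refine le_trans (le_of_eq ?_) (k8.trans (by nlinarith))
    congr 1; ring

end Pool.Agent.P.MP_d0f69c_mp.XS.G2
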