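import Pool.Agent.P.MP_d0f69c_mp.XS.IfG

/-!
Gluing block: the far pairs of the noise of the retarded-retarded matrix.
-/

set_option autoImplicit false

open Finset Real

namespace Pool.Agent.P.MP_d0f69c_mp.XS

namespace G5A

theorem row {ι : Type} [Fintype ι] [AddCommGroup ι] (f g : ι → ℝ) (x : ι) :
    ∑ y, ∑ v, (f (x - v) * g (y - v) + g (x - v) * f (y - v)) = 2 * ((∑ h, f h) * ∑ h, g h) := by
  have a : ∀ (k : ι → ℝ) (v : ι), ∑ y, k (y - v) = ∑ h, k h := fun k v =>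
    Equiv.sum_comp (Equiv.subRight v) k
  have b : ∀ k : ι → ℝ, ∑ v, k (x - v) = ∑ h, k h := fun k => Equiv.sum_comp (Equiv.subLeft x) k
  rw [sum_comm]
  simp only [sum_add_distrib, ← mul_sum, a, ← sum_mul, b]
  ring

end G5A

theorem t_g5 (hF : S_FAR) : S_G5 := by
  intro d M _ E q S J ω κ H G
  have hE := H.hE
  have hq := H.hq
  have hP := hq.Ppos hE
  have r0 : 0 < 1 / (q.P : ℝ) ^ 3 := by positivity
  obtain ⟨far, h | tot⟩ := (hF d M E q hE hq).2 2 (by norm_num)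
  · have e : ∀ v : Tor d M, bl v (q.D E.η 2) = univ := fun v => ball_tn_univ (by
      have := hq.l_le_li hE 2
      have := hq.li_le_D hE 2
      omega) v
    refine opLe_schur (g := fun _ _ => 0) r0 (fun _ _ => rfl) (fun x _ y _ => ?_) fun x _ => by
      rw [sum_const_zero]; exact r0.le
    simp only [Y6g, Y6, e, inter_univ, sub_self, norm_zero, le_refl]
  have g0 : ∀ z : Tor d M, 0 ≤ env q E.η z := fun z =>
    mul_nonneg (zero_le_one.trans (hq.Bi_one 2)) (exp_pos _).le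
  have g1 : ∀ z : Tor d M, env q E.η z ≤
      exp ((q.P : ℝ) ^ 6) * exp (-(nm z : ℝ) / (2 * q.li E.η 2)) * (1 + nm z) ^ 2 := fun z => by
    refine le_trans ?_ (le_mul_of_one_le_right (by positivity)
      (one_le_pow₀ (le_add_of_nonneg_right (Nat.cast_nonneg _))))
    refine mul_le_mul (hq.Bi_le (by norm_num)) (exp_le_exp.2 ?_) (exp_pos _).le (exp_pos _).le
    have : (1 : ℝ) ≤ q.li E.η 2 := by exact_mod_cast hq.li_one hE 2
    rw [neg_div, neg_div, neg_le_neg_iff]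
    exact div_le_div_of_nonneg_left (Nat.cast_nonneg _) (by linarith) (by linarith)
  set f : Tor d M → ℝ := fun z => if q.D E.η 2 < nm z then env q E.η z else 0 with hf
  have f0 : ∀ z, 0 ≤ f z := fun z => by
    simp only [hf]; split_ifs; exacts [g0 z, le_rfl]
  have t0 : ∀ x y v : Tor d M, 0 ≤ f (x - v) * env q E.η (y - v) + env q E.η (x - v) * f (y - v) :=
    fun x y v => add_nonneg (mul_nonneg (f0 _) (g0 _)) (mul_nonneg (g0 _) (f0 _))
  have k3 : ∑ h, f h ≤ q.τ := by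
    refine le_trans ?_ far
    rw [sum_filter]
    refine sum_le_sum fun z _ => ?_
    simp only [hf]
    split_ifs
    exacts [g1 z, le_rfl]
  have k4 : ∑ h : Tor d M, env q E.η h ≤ exp ((q.P : ℝ) ^ 6) * exp ((q.P : ℝ) ^ 6) := by
    refine le_trans ?_ (mul_le_mul_of_nonneg_left (tot.trans (exp_le_exp.2
      (hq.pow_lt hE (by norm_num) (by norm_num)))) (exp_pos _).le)
    rw [mul_sum]
    exact sum_le_sum fun z _ => (g1 z).trans_eq (mul_assoc _ _ _)
  have k5 : 2 * (q.P : ℝ) ^ 3 ≤ exp ((q.P : ℝ) ^ 6) := by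
    have c := hq.pow_lt hE (show 3 < 6 by norm_num) (show (2 : ℝ) ≤ 10 ^ 9 by norm_num)
    have e := add_one_le_exp ((q.P : ℝ) ^ 6)
    linarith
  have k6 := hq.τ_mul hE (c := 6) (c' := 0) (by norm_num)
  rw [zero_mul, neg_zero, exp_zero] at k6
  have k7 : exp (6 * (q.P : ℝ) ^ 6) = exp (3 * (q.P : ℝ) ^ 6) *
      (exp ((q.P : ℝ) ^ 6) * exp ((q.P : ℝ) ^ 6)) * exp ((q.P : ℝ) ^ 6) := by
    simp only [← exp_add]; congr 1; ring
  have τ0 := Par.OK.τpos q
  have TO : ∀ {x : Tor d M}, x ∈ S.good \ J → x ∈ S.O := fun hx => S.good_sub (mem_sdiff.1 hx).1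
  refine opLe_schur (g := fun x y => exp (3 * (q.P : ℝ) ^ 6) *
    ∑ v, (f (x - v) * env q E.η (y - v) + env q E.η (x - v) * f (y - v))) r0 (fun x y => ?_)
    (fun x hx y hy => ?_) fun x _ => ?_
  · congr 1
    exact sum_congr rfl fun v _ => by ring
  · rw [Y6g, ← sum_sub_distrib, mul_sum]
    refine (norm_sum_le _ _).trans (le_trans (sum_le_sum fun v hv => ?_)
      (sum_le_sum_of_subset_of_nonneg (subset_univ (S.Zg J)) fun v _ _ =>
        mul_nonneg (exp_pos _).le (t0 x y v)))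
    have z0 := mul_nonneg (exp_pos (3 * (q.P : ℝ) ^ 6)).le (t0 x y v)
    have sb := erase_subset_erase v (inter_subset_left
      (s₁ := (S.good \ J) \ pre κ (S.Zg J) (κ v)) (s₂ := bl v (q.D E.η 2)))
    rw [Y6]
    split_ifs with h1 h2 h2
    · rwa [sub_self, norm_zero]
    · rw [sub_zero]
      obtain ⟨x1, x2⟩ := mem_erase.1 h1.1
      obtain ⟨y1, y2⟩ := mem_erase.1 h1.2
      refine (G.ab v hv x (TO hx) y (TO hy) x1 y1).trans
        (mul_le_mul_of_nonneg_left ?_ (exp_pos _).le)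
      rcases not_and_or.1 h2 with h | h
      · refine le_add_of_le_of_nonneg (le_of_eq ?_) (mul_nonneg (g0 _) (f0 _))
        simp only [hf]
        rw [if_pos (not_le.1 fun a => h (mem_erase.2 ⟨x1, mem_inter.2 ⟨x2, mem_bl.2 a⟩⟩))]
      · refine le_add_of_nonneg_of_le (mul_nonneg (f0 _) (g0 _)) (le_of_eq ?_)
        simp only [hf]
        rw [if_pos (not_le.1 fun a => h (mem_erase.2 ⟨y1, mem_inter.2 ⟨y2, mem_bl.2 a⟩⟩))]
    · exact absurd ⟨sb h2.1, sb h2.2⟩ h1
    · rwa [sub_self, norm_zero]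
  · calc _ ≤ ∑ y, exp (3 * (q.P : ℝ) ^ 6) *
          ∑ v, (f (x - v) * env q E.η (y - v) + env q E.η (x - v) * f (y - v)) :=
          sum_le_sum_of_subset_of_nonneg (subset_univ _) fun y _ _ =>
            mul_nonneg (exp_pos _).le (sum_nonneg fun v _ => t0 x y v)
      _ ≤ exp (3 * (q.P : ℝ) ^ 6) * (2 * (q.τ * (exp ((q.P : ℝ) ^ 6) * exp ((q.P : ℝ) ^ 6)))) := by
          rw [← mul_sum, G5A.row]
          exact mul_le_mul_of_nonneg_left (mul_le_mul_of_nonneg_left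
            (mul_le_mul k3 k4 (sum_nonneg fun z _ => g0 z) τ0.le) zero_le_two) (exp_pos _).le
      _ = q.τ * (exp (3 * (q.P : ℝ) ^ 6) * (exp ((q.P : ℝ) ^ 6) * exp ((q.P : ℝ) ^ 6)) *
          (2 * (q.P : ℝ) ^ 3)) * (1 / (q.P : ℝ) ^ 3) := by
          field_simp
      _ ≤ _ := by
          refine mul_le_of_le_one_left r0.le (le_trans ?_ k6)
          rw [k7]
          exact mul_le_mul_of_nonneg_left (mul_le_mul_of_nonneg_left k5 (by positivity)) τ0.le

end Pool.Agent.P.MP_d0f69c_mp.XS
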