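import Mathlib

/- The Golden-Thompson inequality for real symmetric matrices. -/

namespace Pool.Agent.P.MP_d0f69c_mp.XS

open Finset Matrix NormedSpace Filter Topology

namespace GT

variable {ι : Type} [Fintype ι] [DecidableEq ι]

omit [DecidableEq ι] in
theorem tr_cs (A B : Matrix ι ι ℝ) : (A * B).trace ^ 2 ≤ (A * Aᵀ).trace * (Bᵀ * B).trace := by
  have h := sum_mul_sq_le_sq_mul_sq (univ : Finset (ι × ι)) (fun p => A p.1 p.2) fun p => B p.2 p.1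
  simp only [Fintype.sum_prod_type] at h
  simpa only [trace, diag_apply, mul_apply, transpose_apply, sq] using h

omit [DecidableEq ι] in
theorem tr_nn (A : Matrix ι ι ℝ) : 0 ≤ (A * Aᵀ).trace := by
  simp only [trace, diag_apply, mul_apply, transpose_apply]
  exact sum_nonneg fun _ _ => sum_nonneg fun _ _ => mul_self_nonneg _

theorem tr_cyc (A B : Matrix ι ι ℝ) : ∀ n : ℕ, ((A * B) ^ n).trace = ((B * A) ^ n).trace
  | 0 => by simp
  | n + 1 => by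
    have h : ∀ m : ℕ, (A * B) ^ (m + 1) = A * ((B * A) ^ m * B) := fun m => by
      induction m with
      | zero => simp
      | succ m ih => rw [pow_succ, ih, pow_succ]; simp only [Matrix.mul_assoc]
    rw [h, trace_mul_comm, pow_succ, Matrix.mul_assoc]

theorem dyson : ∀ k : ℕ,
    (∀ C : Matrix ι ι ℝ, |(C ^ (2 * 2 ^ k)).trace| ≤ ((C * Cᵀ) ^ 2 ^ k).trace) ∧
    ∀ A B : Matrix ι ι ℝ, Aᵀ = A → Bᵀ = B →
      |((A * B) ^ 2 ^ k).trace| ≤ |(A ^ 2 ^ k * B ^ 2 ^ k).trace|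
  | 0 => by
    refine ⟨fun C => ?_, fun A B _ _ => by simp⟩
    have h := tr_cs C C
    rw [trace_mul_comm Cᵀ, ← sq (C * Cᵀ).trace] at h
    simpa [sq] using abs_le_of_sq_le_sq' h (tr_nn C) |> abs_le.2
  | k + 1 => by
    obtain ⟨hD, hG⟩ := dyson k
    have e : 2 ^ (k + 1) = 2 * 2 ^ k := by ring
    refine ⟨fun C => ?_, fun A B hA hB => ?_⟩
    · have h1 := hD (C ^ 2)
      have hP : (C * Cᵀ)ᵀ = C * Cᵀ := by simp
      have hQ : (Cᵀ * C)ᵀ = Cᵀ * C := by simp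
      have h2 : ((C ^ 2 * (C ^ 2)ᵀ) ^ 2 ^ k).trace = ((C * Cᵀ * (Cᵀ * C)) ^ 2 ^ k).trace := by
        rw [sq, transpose_mul, Matrix.mul_assoc, tr_cyc]; simp only [Matrix.mul_assoc]
      have h3 := hG _ _ hP hQ
      have h4 := tr_cs ((C * Cᵀ) ^ 2 ^ k) ((Cᵀ * C) ^ 2 ^ k)
      have h5 := tr_nn ((C * Cᵀ) ^ 2 ^ k)
      rw [transpose_pow, hP, ← pow_add, ← two_mul] at h4 h5
      rw [transpose_pow, hQ, ← pow_add, ← two_mul, tr_cyc Cᵀ C, ← sq] at h4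
      rw [← pow_mul, h2] at h1
      rw [e]
      exact h1.trans ((le_abs_self _).trans (h3.trans (abs_le.2 (abs_le_of_sq_le_sq' h4 h5))))
    · have h1 := hD (A * B)
      have h2 : ((A * B * (A * B)ᵀ) ^ 2 ^ k).trace = ((A ^ 2 * B ^ 2) ^ 2 ^ k).trace := by
        rw [transpose_mul, hA, hB, ← Matrix.mul_assoc, tr_cyc, sq, sq]; simp only [Matrix.mul_assoc]
      have h3 := hG (A ^ 2) (B ^ 2) (by rw [transpose_pow, hA]) (by rw [transpose_pow, hB])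
      rw [← pow_mul, ← pow_mul] at h3
      rw [h2] at h1
      rw [e]
      exact h1.trans ((le_abs_self _).trans h3)

section Trotter

variable {R : Type} [NormedRing R] [NormedAlgebra ℝ R] [CompleteSpace R]

omit [NormedAlgebra ℝ R] [CompleteSpace R] in
theorem tele {a b : R} {K : ℝ} (hK : 1 ≤ K) (ha : ‖a‖ ≤ K) (hb : ‖b‖ ≤ K) (n : ℕ) :
    ‖a ^ n - b ^ n‖ ≤ n * K ^ n * ‖a - b‖ := by
  have h1 : ∀ m : ℕ, ‖(a - b) * b ^ m‖ ≤ K ^ m * ‖a - b‖ := fun m => by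
    induction m with
    | zero => simp
    | succ m ih =>
      rw [pow_succ, ← mul_assoc]
      refine (norm_mul_le _ _).trans ((mul_le_mul ih hb (norm_nonneg _) (by positivity)).trans_eq ?_)
      ring
  induction n with
  | zero => simp
  | succ n ih =>
    have e : a ^ (n + 1) - b ^ (n + 1) = a * (a ^ n - b ^ n) + (a - b) * b ^ n := by
      rw [pow_succ', pow_succ']; noncomm_ring
    have h2 := (norm_mul_le a _).trans (mul_le_mul ha ih (norm_nonneg _) (by linarith))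
    have h3 : K ^ n * ‖a - b‖ ≤ K ^ (n + 1) * ‖a - b‖ :=
      mul_le_mul_of_nonneg_right (pow_le_pow_right₀ hK (by omega)) (norm_nonneg _)
    rw [e]
    refine (norm_add_le _ _).trans ((add_le_add h2 ((h1 n).trans h3)).trans_eq ?_)
    push_cast; ring

omit [CompleteSpace R] in
theorem pow_close (h1 : ‖(1 : R)‖ ≤ 1) {f g : ℝ → R} {Z : R} (hf : HasDerivAt f Z 0)
    (hg : HasDerivAt g Z 0) (f0 : f 0 = 1) (g0 : g 0 = 1) :
    Tendsto (fun n : ℕ => f ((n : ℝ)⁻¹) ^ n - g ((n : ℝ)⁻¹) ^ n) atTop (𝓝 0) := by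
  have ht : Tendsto (fun n : ℕ => ((n : ℝ)⁻¹)) atTop (𝓝[≠] 0) :=
    tendsto_nhdsWithin_iff.2 ⟨tendsto_inv_atTop_nhds_zero_nat,
      (eventually_gt_atTop 0).mono fun n hn => by simpa using hn.ne'⟩
  have key : ∀ {f : ℝ → R}, HasDerivAt f Z 0 → f 0 = 1 →
      Tendsto (fun n : ℕ => (n : ℝ) • (f ((n : ℝ)⁻¹) - 1)) atTop (𝓝 Z) := fun hf f0 => by
    simpa [Function.comp_def, f0] using hf.tendsto_slope_zero.comp ht
  set L := ‖Z‖ + 1 with hL
  have hL0 : 0 ≤ L := by positivity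
  have bd : ∀ {f : ℝ → R}, HasDerivAt f Z 0 → f 0 = 1 →
      ∀ᶠ n : ℕ in atTop, ‖f ((n : ℝ)⁻¹)‖ ≤ L / n + 1 := fun {f} hf f0 => by
    filter_upwards [(key hf f0).norm.eventually_le_const (lt_add_one ‖Z‖), eventually_gt_atTop 0]
      with n h2 hn
    have hn' : (0 : ℝ) < n := by exact_mod_cast hn
    rw [norm_smul, Real.norm_natCast] at h2
    have h3 : ‖f ((n : ℝ)⁻¹) - 1‖ ≤ L / n := by rw [le_div_iff₀' hn']; exact h2
    have h4 := norm_add_le (f ((n : ℝ)⁻¹) - 1) 1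
    rw [sub_add_cancel] at h4
    linarith
  have h5 := ((key hf f0).sub (key hg g0)).norm.const_mul (Real.exp L)
  rw [sub_self, norm_zero, mul_zero] at h5
  refine squeeze_zero_norm' ?_ h5
  filter_upwards [bd hf f0, bd hg g0, eventually_gt_atTop 0] with n a1 a2 hn
  have hn' : (0 : ℝ) < n := by exact_mod_cast hn
  have a3 : (L / n + 1) ^ n ≤ Real.exp L := by
    refine (pow_le_pow_left₀ (by positivity) (Real.add_one_le_exp _) n).trans_eq ?_
    rw [← Real.exp_nat_mul]; congr 1; field_simp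
  refine (tele (le_add_of_nonneg_left (by positivity)) a1 a2 n).trans ?_
  rw [← smul_sub, sub_sub_sub_cancel_right, norm_smul, Real.norm_natCast, mul_comm (n : ℝ),
    mul_assoc]
  exact mul_le_mul_of_nonneg_right a3 (by positivity)

theorem trotter (h1 : ‖(1 : R)‖ ≤ 1) (X Y : R) :
    Tendsto (fun n : ℕ => (exp ((n : ℝ)⁻¹ • X) * exp ((n : ℝ)⁻¹ • Y)) ^ n) atTop
      (𝓝 (exp (X + Y))) := by
  let _ : NormedAlgebra ℚ R := NormedAlgebra.restrictScalars ℚ ℝ R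
  have hf : HasDerivAt (fun t : ℝ => exp (t • X) * exp (t • Y)) (X + Y) 0 := by
    simpa using (hasDerivAt_exp_smul_const X (0 : ℝ)).fun_mul
      (hasDerivAt_exp_smul_const Y (0 : ℝ))
  have hg : HasDerivAt (fun t : ℝ => exp (t • (X + Y))) (X + Y) 0 := by
    simpa using hasDerivAt_exp_smul_const (X + Y) (0 : ℝ)
  have h := (pow_close h1 hf hg (by simp) (by simp)).add_const (exp (X + Y))
  rw [zero_add] at h
  refine h.congr' ((eventually_gt_atTop 0).mono fun n hn => ?_)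
  have hn' : (n : ℝ) ≠ 0 := by exact_mod_cast hn.ne'
  simp only
  rw [← NormedSpace.exp_nsmul, ← Nat.cast_smul_eq_nsmul ℝ, smul_inv_smul₀ hn', sub_add_cancel]

end Trotter

attribute [local instance] Matrix.linftyOpNormedRing Matrix.linftyOpNormedAlgebra in
theorem trotter_mat (X Y : Matrix ι ι ℝ) :
    Tendsto (fun n : ℕ => (exp ((n : ℝ)⁻¹ • X) * exp ((n : ℝ)⁻¹ • Y)) ^ n) atTop
      (𝓝 (exp (X + Y))) := by
  refine trotter ?_ X Y
  rw [← diagonal_one, linfty_opNorm_diagonal]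
  exact (pi_norm_le_iff_of_nonneg zero_le_one).2 fun _ => by simp

theorem gt_abs {X Y : Matrix ι ι ℝ} (hX : Xᵀ = X) (hY : Yᵀ = Y) :
    (exp (X + Y)).trace ≤ |(exp X * exp Y).trace| := by
  have h2 : Tendsto (fun k : ℕ => 2 ^ k) atTop atTop := tendsto_pow_atTop_atTop_of_one_lt one_lt_two
  have h1 := (continuous_id.matrix_trace.tendsto _).comp ((trotter_mat X Y).comp h2)
  refine le_of_tendsto' h1 fun k => ?_
  have s : ∀ {Z : Matrix ι ι ℝ}, Zᵀ = Z → ∀ c : ℝ, (exp (c • Z))ᵀ = exp (c • Z) := fun hZ c => by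
    rw [← exp_transpose, transpose_smul, hZ]
  have p : ∀ Z : Matrix ι ι ℝ, exp ((((2 ^ k : ℕ) : ℝ))⁻¹ • Z) ^ 2 ^ k = exp Z := fun Z => by
    rw [← Matrix.exp_nsmul, ← Nat.cast_smul_eq_nsmul ℝ, smul_inv_smul₀ (by positivity)]
  have h3 := (dyson k).2 _ _ (s hX (((2 ^ k : ℕ) : ℝ))⁻¹) (s hY (((2 ^ k : ℕ) : ℝ))⁻¹)
  rw [p, p] at h3
  exact (le_abs_self _).trans h3

/-- spectral decomposition together with that of the exponential -/
theorem spec {X : Matrix ι ι ℝ} (hX : Xᵀ = X) : ∃ (U : Matrix ι ι ℝ) (l : ι → ℝ),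
    U * Uᵀ = 1 ∧ Uᵀ * U = 1 ∧ X = U * diagonal l * Uᵀ ∧
      exp X = U * diagonal (fun i => Real.exp (l i)) * Uᵀ := by
  have hH : X.IsHermitian := by rwa [IsHermitian, conjTranspose_eq_transpose_of_trivial]
  set U : Matrix ι ι ℝ := (hH.eigenvectorUnitary : Matrix ι ι ℝ) with hU
  have e : star U = Uᵀ := conjTranspose_eq_transpose_of_trivial U
  have h1 : U * Uᵀ = 1 := e ▸ Unitary.coe_mul_star_self hH.eigenvectorUnitary
  have h2 : Uᵀ * U = 1 := e ▸ Unitary.coe_star_mul_self hH.eigenvectorUnitary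
  have h3 : X = U * diagonal hH.eigenvalues * Uᵀ := by
    have := hH.spectral_theorem
    rw [Unitary.conjStarAlgAut_apply] at this
    rw [← e]
    simpa using this
  refine ⟨U, hH.eigenvalues, h1, h2, h3, ?_⟩
  have h4 : U⁻¹ = Uᵀ := inv_eq_right_inv h1
  conv_lhs => rw [h3, ← h4, Matrix.exp_conj _ _ (IsUnit.of_mul_eq_one _ h1), exp_diagonal, h4]
  congr 3
  funext i
  rw [Pi.coe_exp, Real.exp_eq_exp_ℝ]

theorem form_conj (U : Matrix ι ι ℝ) (l u : ι → ℝ) :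
    u ⬝ᵥ ((U * diagonal l * Uᵀ) *ᵥ u) = ∑ i, l i * (Uᵀ *ᵥ u) i ^ 2 := by
  rw [← mulVec_mulVec, ← mulVec_mulVec, dotProduct_mulVec, ← mulVec_transpose]
  refine sum_congr rfl fun i _ => ?_
  rw [mulVec_diagonal]; ring

theorem tr_conj (U M : Matrix ι ι ℝ) (l : ι → ℝ) :
    (U * diagonal l * Uᵀ * M).trace = ∑ i, l i * (Uᵀ i ⬝ᵥ (M *ᵥ Uᵀ i)) := by
  rw [Matrix.mul_assoc, Matrix.mul_assoc, trace_mul_comm, Matrix.mul_assoc]
  refine sum_congr rfl fun i _ => ?_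
  rw [diag_apply, diagonal_mul, Matrix.mul_assoc]
  rfl

theorem col_single {U : Matrix ι ι ℝ} (h : Uᵀ * U = 1) (i : ι) : Uᵀ *ᵥ Uᵀ i = Pi.single i 1 :=
  funext fun j => (congrFun (congrFun h j) i).trans (by rw [one_apply, Pi.single_apply])

theorem col_one {U : Matrix ι ι ℝ} (h : Uᵀ * U = 1) (i : ι) : Uᵀ i ⬝ᵥ Uᵀ i = 1 :=
  (congrFun (congrFun h i) i).trans (one_apply_eq i)

end GT

variable {ι : Type} [Fintype ι] [DecidableEq ι]

/-- the potential of a matrix monitor -/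
noncomputable def trE (X : Matrix ι ι ℝ) : ℝ := (exp X).trace

theorem trE_zero : trE (0 : Matrix ι ι ℝ) = Fintype.card ι := by simp [trE]

/-- the weight `exp X` is monotone: a form bound on `M` bounds the weighted trace -/
theorem tr_exp_mul_le {X M : Matrix ι ι ℝ} (hX : Xᵀ = X) {c : ℝ}
    (hM : ∀ u, u ⬝ᵥ (M *ᵥ u) ≤ c * (u ⬝ᵥ u)) : (exp X * M).trace ≤ c * trE X := by
  obtain ⟨U, l, -, h2, -, h4⟩ := GT.spec hX
  have h5 : ∀ i, Uᵀ i ⬝ᵥ Uᵀ i = 1 := fun i => GT.col_one h2 i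
  have h6 := GT.tr_conj U 1 fun i => Real.exp (l i)
  simp only [one_mulVec, h5, mul_one] at h6
  rw [trE, h4, GT.tr_conj, h6, mul_sum]
  refine sum_le_sum fun i _ => ?_
  have := mul_le_mul_of_nonneg_left (hM (Uᵀ i)) (Real.exp_pos (l i)).le
  rw [h5] at this
  linarith

theorem trE_nonneg {X : Matrix ι ι ℝ} (hX : Xᵀ = X) : 0 ≤ trE X := by
  have := tr_exp_mul_le hX (M := -1) (c := 0) fun u => by
    simpa [neg_mulVec] using dotProduct_self_star_nonneg u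
  simpa [trE] using this

/-- a direction in which `X` exceeds `θ` forces a large potential -/
theorem exp_le_trE {X : Matrix ι ι ℝ} (hX : Xᵀ = X) {θ : ℝ} {u : ι → ℝ}
    (h : θ * (u ⬝ᵥ u) < u ⬝ᵥ (X *ᵥ u)) : Real.exp θ ≤ trE X := by
  obtain ⟨U, l, h1, h2, h3, h4⟩ := GT.spec hX
  have h5 : ∀ i, Uᵀ i ⬝ᵥ Uᵀ i = 1 := fun i => GT.col_one h2 i
  have h6 := GT.tr_conj U 1 fun i => Real.exp (l i)
  simp only [one_mulVec, h5, mul_one] at h6
  have h7 := GT.form_conj U (fun _ => 1) u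
  rw [diagonal_one, Matrix.mul_one, h1, one_mulVec] at h7
  rw [h3, GT.form_conj, h7, mul_sum] at h
  obtain ⟨i, -, hi⟩ := exists_lt_of_sum_lt h
  have h8 : θ ≤ l i := by
    rw [one_mul] at hi
    exact (lt_of_mul_lt_mul_right hi (sq_nonneg _)).le
  rw [trE, h4, h6]
  exact (Real.exp_le_exp.2 h8).trans
    (single_le_sum (f := fun i => Real.exp (l i)) (fun _ _ => (Real.exp_pos _).le) (mem_univ i))

/-- an upper form bound gives an upper bound for the potential -/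
theorem trE_le {X : Matrix ι ι ℝ} (hX : Xᵀ = X) {θ : ℝ}
    (h : ∀ u, u ⬝ᵥ (X *ᵥ u) ≤ θ * (u ⬝ᵥ u)) : trE X ≤ Fintype.card ι * Real.exp θ := by
  obtain ⟨U, l, -, h2, h3, h4⟩ := GT.spec hX
  have h5 : ∀ i, Uᵀ i ⬝ᵥ Uᵀ i = 1 := fun i => GT.col_one h2 i
  have h6 := GT.tr_conj U 1 fun i => Real.exp (l i)
  simp only [one_mulVec, h5, mul_one] at h6
  rw [trE, h4, h6, ← nsmul_eq_mul, ← card_univ]
  refine sum_le_card_nsmul _ _ _ fun i _ => Real.exp_le_exp.2 ?_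
  have h7 := h (Uᵀ i)
  have h8 := GT.col_single h2 i
  rw [h5, h3, GT.form_conj, h8, sum_eq_single i (by simp +contextual) (by simp)] at h7
  simpa using h7

theorem exp_form_le {Y : Matrix ι ι ℝ} (hY : Yᵀ = Y) (h : ∀ u, u ⬝ᵥ (Y *ᵥ u) ≤ u ⬝ᵥ u)
    (u : ι → ℝ) : 0 ≤ u ⬝ᵥ (exp Y *ᵥ u) ∧ u ⬝ᵥ (exp Y *ᵥ u) ≤ u ⬝ᵥ ((1 + Y + Y * Y) *ᵥ u) := by
  obtain ⟨U, l, h1, h2, h3, h4⟩ := GT.spec hY
  have h5 : ∀ i, Uᵀ i ⬝ᵥ Uᵀ i = 1 := fun i => GT.col_one h2 i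
  have h9 : ∀ i, l i ≤ 1 := fun i => by
    have h7 := h (Uᵀ i)
    have h8 := GT.col_single h2 i
    rw [h5, h3, GT.form_conj, h8, sum_eq_single i (by simp +contextual) (by simp)] at h7
    simpa using h7
  have e : 1 + Y + Y * Y = U * diagonal (fun i => 1 + l i + l i * l i) * Uᵀ := by
    have e1 : Y * Y = U * diagonal (fun i => l i * l i) * Uᵀ := by
      rw [← diagonal_mul_diagonal, h3]
      simp only [Matrix.mul_assoc]
      rw [← Matrix.mul_assoc Uᵀ U, h2, Matrix.one_mul]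
    rw [e1, ← diagonal_add, ← diagonal_add, diagonal_one, Matrix.mul_add, Matrix.mul_add,
      Matrix.add_mul, Matrix.add_mul, Matrix.mul_one, h1, ← h3]
  rw [e, h4, GT.form_conj, GT.form_conj]
  refine ⟨sum_nonneg fun i _ => by positivity,
    sum_le_sum fun i _ => mul_le_mul_of_nonneg_right ?_ (sq_nonneg _)⟩
  rcases le_total (-1) (l i) with a | a
  · have := (abs_le.1 (Real.abs_exp_sub_one_sub_id_le (abs_le.2 ⟨a, h9 i⟩))).2
    nlinarith
  · have := Real.exp_le_one_iff.2 (a.trans (by norm_num : (-1 : ℝ) ≤ 0))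
    nlinarith

/-- one step of a matrix monitor -/
theorem trE_add_le {X Y : Matrix ι ι ℝ} (hX : Xᵀ = X) (hY : Yᵀ = Y)
    (h : ∀ u, u ⬝ᵥ (Y *ᵥ u) ≤ u ⬝ᵥ u) : trE (X + Y) ≤ trE X + (exp X * (Y + Y * Y)).trace := by
  have h1 := tr_exp_mul_le hX (M := -exp Y) (c := 0) fun u => by
    simpa [neg_mulVec] using (exp_form_le hY h u).1
  have h2 := tr_exp_mul_le hX (M := exp Y - (1 + Y + Y * Y)) (c := 0) fun u => by
    simpa [sub_mulVec] using (exp_form_le hY h u).2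
  have h3 := GT.gt_abs hX hY
  rw [Matrix.mul_neg, trace_neg] at h1
  rw [Matrix.mul_sub, trace_sub, add_assoc, Matrix.mul_add, trace_add, Matrix.mul_one] at h2
  rw [abs_of_nonneg (by linarith)] at h3
  rw [trE, trE]
  linarith

/-- the monitor inequality: drift at most `δ`, quadratic variation at most `Q`, jumps at most one
after scaling by `lam` -/
theorem monitor {V : Type} (s : Finset V) {X : Matrix ι ι ℝ} {Y : V → Matrix ι ι ℝ}
    {lam δ Q : ℝ} (hl : 0 ≤ lam) (hX : Xᵀ = X) (hY : ∀ v ∈ s, (Y v)ᵀ = Y v)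
    (hj : ∀ v ∈ s, ∀ u, lam * (u ⬝ᵥ (Y v *ᵥ u)) ≤ u ⬝ᵥ u)
    (hd : ∀ u, ∑ v ∈ s, u ⬝ᵥ (Y v *ᵥ u) ≤ δ * (u ⬝ᵥ u))
    (hq : ∀ u, ∑ v ∈ s, (Y v *ᵥ u) ⬝ᵥ (Y v *ᵥ u) ≤ Q * (u ⬝ᵥ u)) :
    ∑ v ∈ s, (trE (lam • (X + Y v)) - trE (lam • X)) ≤ (lam * δ + lam ^ 2 * Q) * trE (lam • X) := by
  have hX' : (lam • X)ᵀ = lam • X := by rw [transpose_smul, hX]
  have h1 : ∀ v ∈ s, trE (lam • (X + Y v)) - trE (lam • X)
      ≤ (exp (lam • X) * (lam • Y v + lam • Y v * lam • Y v)).trace := fun v hv => by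
    have := trE_add_le hX' (Y := lam • Y v) (by rw [transpose_smul, hY v hv]) fun u => by
      simpa [smul_mulVec] using hj v hv u
    rw [smul_add]; linarith
  refine (sum_le_sum h1).trans ?_
  rw [← trace_sum, ← mul_sum]
  refine tr_exp_mul_le hX' fun u => ?_
  have h2 : ∀ v ∈ s, u ⬝ᵥ ((lam • Y v + lam • Y v * lam • Y v) *ᵥ u)
      = lam * (u ⬝ᵥ (Y v *ᵥ u)) + lam ^ 2 * ((Y v *ᵥ u) ⬝ᵥ (Y v *ᵥ u)) := fun v hv => by
    have e : u ⬝ᵥ (Y v *ᵥ (Y v *ᵥ u)) = (Y v *ᵥ u) ⬝ᵥ (Y v *ᵥ u) := by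
      rw [dotProduct_mulVec, ← mulVec_transpose, hY v hv]
    simp only [add_mulVec, ← mulVec_mulVec, smul_mulVec, mulVec_smul, dotProduct_add,
      dotProduct_smul, smul_eq_mul, e]
    ring
  rw [sum_mulVec, dotProduct_sum, sum_congr rfl h2, sum_add_distrib, ← mul_sum, ← mul_sum]
  have a1 := mul_le_mul_of_nonneg_left (hd u) hl
  have a2 := mul_le_mul_of_nonneg_left (hq u) (sq_nonneg lam)
  linarith

end Pool.Agent.P.MP_d0f69c_mp.XS
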