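import Pool.Agent.P.MP_d0f69c_mp.XS.IfH

/-! Centres of healing and the depth function. -/

namespace Pool.Agent.P.MP_d0f69c_mp.XS

open Finset

theorem t_cen : S_CEN := by
  classical
  intro d M _ E q _ _
  refine ⟨fun S => ?_, fun F D k => ?_⟩
  · obtain ⟨C, hC, hm⟩ := exists_max_image
      ((univ : Finset (Finset (Tor d M))).filter fun C => (∀ x ∈ C, Cand E q S x) ∧
        Sep C (10 * q.D E.η 3)) card ⟨∅, by simp [Sep]⟩
    obtain ⟨h1, h2⟩ := (mem_filter.1 hC).2
    have hl : ∀ i < C.toList.length, C.toList.getD i 0 ∈ C := fun i hi => by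
      rw [List.getD_eq_getElem _ _ hi]; exact mem_toList.1 (List.getElem_mem hi)
    refine ⟨C.toList.length, fun i => C.toList.getD i 0, fun i hi => h1 _ (hl i hi),
      fun i hi k hk hn => h2 _ (hl i hi) _ (hl k hk) fun e => hn ?_, fun x hx => ?_⟩
    · simp only [List.getD_eq_getElem _ _ hi, List.getD_eq_getElem _ _ hk] at e
      exact (List.Nodup.getElem_inj_iff C.nodup_toList).1 e
    · have h3 : ∃ c ∈ C, nm (x - c) ≤ 10 * q.D E.η 3 := by
        by_contra hn
        push Not at hn
        have h4 : x ∉ C := fun h => by
          have := hn x h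
          rw [nm_self] at this
          exact Nat.not_lt_zero _ this
        have h5 := hm (insert x C) (mem_filter.2 ⟨mem_univ _, fun y hy => ?_,
          fun y hy z hz hyz => ?_⟩)
        · rw [card_insert_of_notMem h4] at h5
          omega
        · rcases mem_insert.1 hy with rfl | hy
          exacts [hx, h1 y hy]
        · rcases mem_insert.1 hy with a | a <;> rcases mem_insert.1 hz with b | b
          exacts [absurd (a.trans b.symm) hyz, a ▸ hn z b, b ▸ nm_comm x y ▸ hn y a,
            h2 y a z b hyz]
      obtain ⟨c, hc, h4⟩ := h3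
      obtain ⟨i, hi, e⟩ := List.getElem_of_mem (mem_toList.2 hc)
      refine ⟨i, hi, ?_⟩
      simp only [List.getD_eq_getElem _ _ hi, e]
      exact (h1 c hc).2.1.1 x hx.1 h4
  · set dep : Tor d M → ℕ := fun x =>
      ((range (k + 2)).filter fun i => ∀ b ∈ F, i * D < nm (x - b)).card with hd
    have lip : ∀ x y, nm (x - y) ≤ D → dep x ≤ dep y + 1 := fun x y hxy => by
      refine le_trans (card_le_card (t := insert 0 (((range (k + 2)).filter fun i =>
        ∀ b ∈ F, i * D < nm (y - b)).image (· + 1))) fun i hi => ?_)
        ((card_insert_le _ _).trans (Nat.add_le_add_right card_image_le 1))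
      obtain ⟨h1, h2⟩ := mem_filter.1 hi
      rcases i with _ | i
      · exact mem_insert_self _ _
      · refine mem_insert_of_mem (mem_image.2 ⟨i, mem_filter.2 ⟨mem_range.2 ?_, fun b hb => ?_⟩,
          rfl⟩)
        · have := mem_range.1 h1
          omega
        · have a1 := h2 b hb
          have a2 := nm_tri x y b
          rw [Nat.succ_mul] at a1
          omega
    refine ⟨dep, fun x => (card_filter_le _ _).trans_eq (card_range _), fun b hb => ?_,
      fun x y hxy => ?_, fun x hx => ?_⟩
    · refine card_eq_zero.2 (filter_eq_empty_iff.2 fun i _ h => ?_)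
      have := h b hb
      rw [nm_self] at this
      exact Nat.not_lt_zero _ this
    · have a1 := lip x y hxy
      have a2 := lip y x (nm_comm x y ▸ hxy)
      unfold gap
      omega
    · refine (card_range (k + 1)).symm.trans_le (card_le_card fun i hi => ?_)
      have a1 := mem_range.1 hi
      exact mem_filter.2 ⟨mem_range.2 (by omega), fun b hb =>
        (Nat.mul_le_mul_right D (by omega)).trans_lt (hx b hb)⟩

end Pool.Agent.P.MP_d0f69c_mp.XS
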