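import Pool.Agent.P.MP_d0f69c_mp.XS.HRep
import Pool.Agent.P.MP_d0f69c_mp.XS.Num

/-! Decay of the Green function along the turns of separated centres. -/

namespace Pool.Agent.P.MP_d0f69c_mp.XS

open Finset Real

variable {d M : ℕ} [NeZero M]

omit [NeZero M] in
theorem nm_tri' (x y z : Tor d M) : (nm (x - z) : ℝ) ≤ nm (x - y) + nm (y - z) := by
  exact_mod_cast nm_tri x y z

theorem sum_cen {n I : ℕ} {c : ℕ → Tor d M}
    (hc : ∀ i < n, ∀ k < n, i ≠ k → I < nm (c i - c k)) {f : Tor d M → ℝ} (f0 : ∀ z, 0 ≤ f z)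
    (x : Tor d M) {J : Finset ℕ} (hJ : J ⊆ range n) : ∑ k ∈ J, f (x - c k) ≤ ∑ z, f z := by
  rw [← sum_image (g := fun k => x - c k) fun i hi k hk e => by
    by_contra h
    have := hc i (mem_range.1 (hJ hi)) k (mem_range.1 (hJ hk)) h
    rw [sub_right_inj.1 e, nm_self] at this
    omega]
  exact sum_le_sum_of_subset_of_nonneg (subset_univ _) fun z _ _ => f0 z

omit [NeZero M] in
theorem Dec.sb_le {G : Matrix (Tor d M) (Tor d M) ℂ} {O S S' : Finset (Tor d M)} {B r : ℝ} {l : ℕ}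
    (h : Dec G O B l) (hB : 1 ≤ B) (hS : S ⊆ O) (hr : ∀ x ∈ S, ∀ y ∈ S', r ≤ nm (x - y)) :
    sb G S S' ≤ 2 * B * exp (-r / l) := by
  refine XS.sb_le (by positivity) fun x hx y hy => ?_
  have h1 : exp (-(nm (x - y) : ℝ) / l) ≤ exp (-r / l) :=
    exp_le_exp.2 (div_le_div_of_nonneg_right (neg_le_neg (hr x hx y hy)) (Nat.cast_nonneg _))
  have h2 := (h x (hS hx) y).trans (mul_le_mul_of_nonneg_left h1 (by linarith))
  have h3 : (if x = y then (1 : ℝ) else 0) ≤ B * exp (-r / l) := by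
    split_ifs with e
    · rw [e, nm_self] at h1
      simp only [Nat.cast_zero, neg_zero, zero_div, exp_zero] at h1
      nlinarith
    · positivity
  linarith

theorem dec_iso {G : ℕ → Matrix (Tor d M) (Tor d M) ℂ} {O : Finset (Tor d M)} {B w V g L : ℝ}
    {l n I ρ R : ℕ} {c : ℕ → Tor d M} (h : Dec (G 0) O B l) (hB : 1 ≤ B) (hl : 1 ≤ l)
    (hL : 2 * l ≤ L) (hw : 0 ≤ w) (hc : ∀ i < n, ∀ k < n, i ≠ k → I < nm (c i - c k))
    (hV : ∑ z : Tor d M, exp (-(nm z : ℝ) / (4 * l)) ≤ V) (hR : 2 * R ≤ I)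
    (hs : 4 * w * B * exp (2 * ρ / l) * exp (-(R : ℝ) / (4 * l)) * V ≤ 1) (w1 : 1 ≤ w)
    (g0 : 0 ≤ g) (hg : ∀ x ∈ O, ∀ y ∈ O, ‖G 0 x y‖ ≤ g) {j : ℕ} (hj : j ≤ n)
    (ht : ∀ i < j, Turn (G i) (G (i + 1)) (bl (c i) ρ ∩ O) w) (z : Tor d M) :
    (∀ i, j ≤ i → i < n → ∀ p ∈ bl (c i) ρ ∩ O,
      ‖G j p z‖ ≤ 4 * B * exp (ρ / L) * exp (-(nm (c i - z) : ℝ) / L)) ∧
    ∀ x ∈ O, ‖G j x z‖ ≤ (2 * B + ((g + 1) * exp (R / L) + 1) * w * (4 * B * exp (ρ / L))) *
      exp (-(nm (x - z) : ℝ) / L) := by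
  have l0 : (0 : ℝ) < l := by exact_mod_cast hl
  have L0 : 0 < L := by linarith
  have B0 : 0 < B := by linarith
  have cmp : ∀ {a b : ℝ}, 0 ≤ a → b ≤ a → exp (-a / l) ≤ exp (-b / L) := fun {a b} ha hb =>
    exp_le_exp.2 (by
      rw [neg_div, neg_div, neg_le_neg_iff]
      exact (div_le_div_of_nonneg_right hb L0.le).trans
        (div_le_div_of_nonneg_left ha l0 (by linarith)))
  have far : ∀ (x : Tor d M) (S : Finset (Tor d M)) (r : ℝ) (J : Finset ℕ), S ⊆ O → r ≤ ρ →
      (∀ y ∈ S, (nm (x - y) : ℝ) ≤ r) → J ⊆ range n → (∀ k ∈ J, R ≤ nm (x - c k)) →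
      ∑ k ∈ J, sb (G 0) S (bl (c k) ρ ∩ O) * exp (nm (x - c k) / L) * w ≤ 1 / 2 := by
    intro x S r J hS hr hx hJ hk
    have a : ∀ k ∈ J, sb (G 0) S (bl (c k) ρ ∩ O) * exp (nm (x - c k) / L) * w ≤
        2 * w * B * exp (2 * ρ / l) * exp (-(R : ℝ) / (4 * l)) *
          exp (-(nm (x - c k) : ℝ) / (4 * l)) := fun k hk' => by
      have a1 := h.sb_le hB hS (S' := bl (c k) ρ ∩ O) (r := nm (x - c k) - 2 * ρ) fun y hy p hp => by
        have b1 := nm_tri' x y (c k)
        have b2 := nm_tri' y p (c k)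
        have b3 : (nm (p - c k) : ℝ) ≤ ρ := by exact_mod_cast mem_bl.1 (mem_inter.1 hp).1
        linarith [hx y hy]
      have a2 : exp (-(nm (x - c k) - 2 * ρ : ℝ) / l) * exp (nm (x - c k) / L) ≤
          exp (2 * ρ / l) * exp (-(R : ℝ) / (4 * l)) * exp (-(nm (x - c k) : ℝ) / (4 * l)) := by
        rw [← exp_add, ← exp_add, ← exp_add]
        have b1 : (nm (x - c k) : ℝ) / L ≤ nm (x - c k) / (2 * l) :=
          div_le_div_of_nonneg_left (Nat.cast_nonneg _) (by positivity) hL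
        have b2 : (R : ℝ) / (4 * l) ≤ nm (x - c k) / (4 * l) :=
          div_le_div_of_nonneg_right (by exact_mod_cast hk k hk') (by positivity)
        refine exp_le_exp.2 ?_
        have e : -(nm (x - c k) - 2 * ρ : ℝ) / l + nm (x - c k) / (2 * l) =
            2 * ρ / l + -(nm (x - c k) / (4 * l)) + -(nm (x - c k) : ℝ) / (4 * l) := by ring
        rw [neg_div (4 * l : ℝ) R]
        linarith
      calc _ ≤ 2 * B * exp (-(nm (x - c k) - 2 * ρ : ℝ) / l) * exp (nm (x - c k) / L) * w := by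
            gcongr
        _ = 2 * w * B * (exp (-(nm (x - c k) - 2 * ρ : ℝ) / l) * exp (nm (x - c k) / L)) := by ring
        _ ≤ 2 * w * B * (exp (2 * ρ / l) * exp (-(R : ℝ) / (4 * l)) *
            exp (-(nm (x - c k) : ℝ) / (4 * l))) := by gcongr
        _ = _ := by ring
    refine (sum_le_sum a).trans ?_
    rw [← mul_sum]
    have := mul_le_mul_of_nonneg_left ((sum_cen hc (f := fun z => exp (-(nm z : ℝ) / (4 * l)))
      (fun _ => (exp_pos _).le) x hJ).trans hV)
      (by positivity : 0 ≤ 2 * w * B * exp (2 * ρ / l) * exp (-(R : ℝ) / (4 * l)))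
    linarith
  set Γ : ℕ → ℝ := fun i => 4 * B * exp (ρ / L) * exp (-(nm (c i - z) : ℝ) / L) with hΓ
  have mv : ∀ (x : Tor d M) k, Γ k ≤
      exp (nm (x - c k) / L) * (4 * B * exp (ρ / L) * exp (-(nm (x - z) : ℝ) / L)) := fun x k => by
    have : exp (-(nm (c k - z) : ℝ) / L) ≤ exp (nm (x - c k) / L) * exp (-(nm (x - z) : ℝ) / L) := by
      rw [← exp_add, ← add_div]
      exact exp_le_exp.2 (div_le_div_of_nonneg_right (by linarith [nm_tri' x (c k) z]) L0.le)
    calc _ ≤ 4 * B * exp (ρ / L) * (exp (nm (x - c k) / L) * exp (-(nm (x - z) : ℝ) / L)) := by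
          simp only [hΓ]; gcongr
      _ = _ := by ring
  have sm : ∀ (x : Tor d M) (S : Finset (Tor d M)) (J : Finset ℕ),
      ∑ k ∈ J, sb (G 0) S (bl (c k) ρ ∩ O) * w * Γ k ≤
        (∑ k ∈ J, sb (G 0) S (bl (c k) ρ ∩ O) * exp (nm (x - c k) / L) * w) *
          (4 * B * exp (ρ / L) * exp (-(nm (x - z) : ℝ) / L)) := fun x S J => by
    rw [sum_mul]
    exact sum_le_sum fun k _ => (mul_le_mul_of_nonneg_left (mv x k)
      (mul_nonneg (sb_nonneg _ _ _) hw)).trans (le_of_eq (by ring))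
  obtain ⟨k1, k2⟩ := kleene (fun j => sb (G j)) (fun i => bl (c i) ρ ∩ O) {z} hw n Γ
    (fun i => by simp only [hΓ]; positivity) (fun _ => sb_nonneg _) (fun i hi => by
      have a1 := h.sb_le hB (inter_subset_right (s₁ := bl (c i) ρ)) (S' := {z})
        (r := max 0 (nm (c i - z) - ρ)) fun p hp y hy => by
          rw [mem_singleton.1 hy]
          have b3 : (nm (p - c i) : ℝ) ≤ ρ := by exact_mod_cast mem_bl.1 (mem_inter.1 hp).1
          have := nm_tri' (c i) p z
          rw [nm_comm (c i) p] at this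
          exact max_le (Nat.cast_nonneg _) (by linarith)
      have a2 := cmp (le_max_left 0 (nm (c i - z) - ρ : ℝ)) (le_max_right _ _)
      rw [show -(nm (c i - z) - ρ : ℝ) / L = ρ / L + -(nm (c i - z) : ℝ) / L by ring, exp_add] at a2
      have a3 := mul_le_mul_of_nonneg_left a2 (by positivity : 0 ≤ 2 * B)
      have a4 := far (c i) (bl (c i) ρ ∩ O) ρ ((range n).erase i) inter_subset_right le_rfl
        (fun y hy => by rw [nm_comm]; exact_mod_cast mem_bl.1 (mem_inter.1 hy).1) (erase_subset _ _)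
        fun k hk => by
          have := hc i hi k (mem_range.1 (mem_of_mem_erase hk)) (ne_of_mem_erase hk).symm
          omega
      have a5 := (sm (c i) (bl (c i) ρ ∩ O) ((range n).erase i)).trans
        (mul_le_mul_of_nonneg_right a4 (by positivity))
      simp only [hΓ] at a5 ⊢
      linarith) j hj ht
  have nn : ∀ (S : Finset (Tor d M)) (J : Finset ℕ),
      0 ≤ ∑ k ∈ J, sb (G j) S (bl (c k) ρ ∩ O) * w * Γ k := fun S J => sum_nonneg fun k _ =>
    mul_nonneg (mul_nonneg (sb_nonneg _ _ _) hw) (by simp only [hΓ]; positivity)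
  refine ⟨fun i h1 h2 p hp => (norm_le_sb _ hp (mem_singleton_self z)).trans
    (le_trans (le_add_of_nonneg_right (nn _ _)) (k1 i (mem_Ico.2 ⟨h1, h2⟩))), fun x hx => ?_⟩
  have a0 := (norm_le_sb _ (mem_singleton_self x) (mem_singleton_self z)).trans
    (le_trans (le_add_of_nonneg_right (nn _ _)) (k2 {x}))
  have a1 := (h.sb_le hB (singleton_subset_iff.2 hx) (S' := {z}) (r := nm (x - z))
    fun p hp y hy => by rw [mem_singleton.1 hp, mem_singleton.1 hy]).trans
    (mul_le_mul_of_nonneg_left (cmp (Nat.cast_nonneg _) le_rfl) (by positivity))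
  have a2 := far x {x} 0 ((range n).filter fun k => ¬ nm (x - c k) < R) (singleton_subset_iff.2 hx)
    (Nat.cast_nonneg _) (fun y hy => by rw [mem_singleton.1 hy, nm_self, Nat.cast_zero])
    (filter_subset _ _) fun k hk => not_lt.1 (mem_filter.1 hk).2
  have a3 : ∑ k ∈ (range n).filter fun k => nm (x - c k) < R,
      sb (G 0) {x} (bl (c k) ρ ∩ O) * exp (nm (x - c k) / L) * w ≤ (g + 1) * exp (R / L) * w := by
    refine (sum_le_card_nsmul _ _ ((g + 1) * exp (R / L) * w) fun k hk => ?_).trans ?_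
    · have b1 : sb (G 0) {x} (bl (c k) ρ ∩ O) ≤ g + 1 := sb_le (by linarith) fun p hp y hy => by
        rw [mem_singleton.1 hp]
        exact add_le_add (hg x hx y (mem_inter.1 hy).2) (by split_ifs <;> norm_num)
      have b2 : (nm (x - c k) : ℝ) ≤ R := by exact_mod_cast (mem_filter.1 hk).2.le
      gcongr
    · have : ((range n).filter fun k => nm (x - c k) < R).card ≤ 1 :=
        card_le_one.2 fun a ha b hb => by
          by_contra e
          have := hc a (mem_range.1 (mem_filter.1 ha).1) b (mem_range.1 (mem_filter.1 hb).1) e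
          have := nm_tri (c a) x (c b)
          have := nm_comm (c a) x
          have := (mem_filter.1 ha).2
          have := (mem_filter.1 hb).2
          omega
      rw [nsmul_eq_mul]
      exact mul_le_of_le_one_left (by positivity) (by exact_mod_cast this)
  have a4 := sm x {x} (range n)
  rw [← sum_filter_add_sum_filter_not (range n) (fun k => nm (x - c k) < R)
    fun k => sb (G 0) {x} (bl (c k) ρ ∩ O) * exp (nm (x - c k) / L) * w] at a4
  have a5 := a4.trans (mul_le_mul_of_nonneg_right (add_le_add a3 (a2.trans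
    (by linarith : (1 : ℝ) / 2 ≤ w))) (by positivity))
  linarith

end Pool.Agent.P.MP_d0f69c_mp.XS
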