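import Pool.Agent.P.MP_d0f69c_mp.XS.HLe

/-! The end of a healing turn: the cluster is closed when it is light. -/

set_option linter.unusedSectionVars false

namespace Pool.Agent.P.MP_d0f69c_mp.XS

open Finset Real Matrix

variable {ι : Type} [Fintype ι] [DecidableEq ι] {C : TC ι} {s : LS ι}

theorem Rep.mono {Ms M1 : Matrix ι ι ℂ} {Z : Finset ι} {u L u' L' : ℝ} (h : Rep Ms M1 Z u L)
    (h1 : u ≤ u') (h2 : L ≤ L') : Rep Ms M1 Z u' L' :=
  let ⟨U, D, a, b, c, d, e⟩ := h; ⟨U, D, a, b, c, d.mono h1, e.mono h2⟩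

theorem GOK.mask {η : ℝ} {H : Matrix ι ι ℝ} {W : ι → ℂ} (h : GOK η H W) (T : Finset ι) (z : ι → ℂ) :
    η ^ 2 * nq (fun x => (√(aw η W x) : ℝ) *
      ∑ y ∈ T, NW.GG H W x y * ((√(aw η W y) : ℝ) * z y)) ≤ nq z := by
  have a := h.diss.contr h.unit h.η0 fun y => if y ∈ T then z y else 0
  refine le_trans (le_of_eq ?_) (a.trans (nq_le_of fun x => by split_ifs <;> simp))
  congr 2
  funext x
  rw [← mulVec_mulVec, ← mulVec_mulVec, mulVec_diagonal, diagonal_conjTranspose]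
  congr 1
  rw [mulVec, dotProduct, ← sum_subset (subset_univ T) fun y _ hy => by simp [mulVec_diagonal, hy]]
  exact sum_congr rfl fun y hy => by simp [mulVec_diagonal, hy, NW.GG]

namespace TC

theorem OK.wr (h : C.OK) {c : ℝ} (hc : c ≤ C.Y) :
    C.Y * (2 * C.Z ^ 2 + 2 * C.Z ^ 2 * (c * C.Z ^ 12) * (2 * C.Z ^ 2)) * C.Y * C.Y ≤ C.Z ^ 17 := by
  have Z1 := h.Z1
  have Y9 := h.Y9
  have a : C.Z ^ 2 ≤ C.Y * C.Z ^ 16 :=
    (pow_le_pow_right₀ Z1 (by norm_num)).trans (le_mul_of_one_le_left (by positivity) h.Y1)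
  calc _ ≤ C.Y * (2 * (C.Y * C.Z ^ 16) + 2 * C.Z ^ 2 * (C.Y * C.Z ^ 12) * (2 * C.Z ^ 2)) * C.Y *
        C.Y := by gcongr
    _ = 6 * C.Y ^ 4 * C.Z ^ 16 := by ring
    _ ≤ C.Y * C.Y ^ 4 * C.Z ^ 16 := by gcongr; linarith
    _ ≤ _ := by
        rw [← pow_succ' C.Y, pow_succ' C.Z 16]; gcongr; exact h.YZ' (by norm_num)

theorem OK.cA (h : C.OK) {Z : Finset ι} (hZ : Z ⊆ C.A) : (Z.card : ℝ) ≤ C.Y :=
  le_trans (by exact_mod_cast card_le_card (hZ.trans h.AB)) h.cB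

/-- the tail of a column of the new Green function -/
theorem OK.tail (h : C.OK) {M1 : Matrix ι ι ℂ} {Z K : Finset ι} (hZ : Z ⊆ C.A) (hK : C.B ⊆ K)
    (r : Rep (NW.MM C.H C.W) M1 Z C.Y (2 * C.Z ^ 2)) (u : IsUnit M1.det) {z : ι} (hz : z ∈ Z)
    {Λ : ℝ} (Λ1 : 1 ≤ Λ) (hΛ : ∀ p ∈ Z, ‖M1⁻¹ p z‖ ≤ Λ) :
    ∑ y ∈ Kᶜ, ‖M1⁻¹ y z‖ ^ 2 ≤ C.τ * C.Z ^ 10 * Λ ^ 2 := by
  have Z1 := h.Z1
  have Y9 := h.Y9
  have t := (OK.τ0 C).le
  have a : ∀ y ∈ Kᶜ, ‖M1⁻¹ y z‖ ^ 2 ≤ C.τ * C.Z ^ 6 * Λ ^ 2 * C.ω y := fun y hy => by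
    have yB : y ∉ C.B := fun c => mem_compl.1 hy (hK c)
    have w := h.ω0 y
    have b := r.col h.gok0.unit u (by linarith) (by positivity) (mul_nonneg t w.1)
      (fun c => yB (h.AB (hZ c))) hz
      (fun p hp => (congrArg norm (h.gok0.sym y p)).trans_le (h.far p (hZ hp) y yB)) hΛ
    have c : C.Y * (1 + 2 * C.Z ^ 2 * (Z.card * Λ)) ≤ C.Z ^ 3 * Λ :=
      calc _ ≤ C.Y * (C.Z ^ 2 * (C.Y * Λ) + 2 * C.Z ^ 2 * (C.Y * Λ)) := by
            gcongr
            · exact one_le_mul_of_one_le_of_one_le (one_le_pow₀ Z1)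
                (one_le_mul_of_one_le_of_one_le h.Y1 Λ1)
            · exact h.cA hZ
        _ = 3 * C.Y ^ 2 * (C.Z ^ 2 * Λ) := by ring
        _ ≤ C.Y * C.Y ^ 2 * (C.Z ^ 2 * Λ) := by gcongr; linarith
        _ ≤ C.Z * (C.Z ^ 2 * Λ) := by rw [← pow_succ' C.Y]; gcongr; exact h.YZ' (by norm_num)
        _ = _ := by ring
    have w0 := w.1
    calc _ ≤ (C.τ * C.ω y * (C.Z ^ 3 * Λ)) ^ 2 :=
          pow_le_pow_left₀ (norm_nonneg _) (b.trans (by gcongr)) 2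
      _ = C.τ * C.Z ^ 6 * Λ ^ 2 * C.ω y * (C.τ * C.ω y) := by ring
      _ ≤ _ := mul_le_of_le_one_right (by positivity) (mul_le_one₀ h.τ1 w.1 w.2)
  refine (sum_le_sum a).trans ?_
  rw [← mul_sum]
  calc _ ≤ C.τ * C.Z ^ 6 * Λ ^ 2 * C.Z ^ 4 := by
        gcongr
        exact (sum_le_sum_of_subset_of_nonneg (subset_univ _) fun y _ _ => (h.ω0 y).1).trans
          (h.ωs.trans ((h.YZ' (by norm_num)).trans (le_self_pow₀ Z1 (by norm_num))))
    _ = _ := by ring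

/-- the data of a successful end of the turn -/
structure Fin (C : TC ι) (s : LS ι) (H1 : Matrix ι ι ℝ) (W1 : ι → ℂ) : Prop where
  nV : ¬ ∃ ξ, C.Viol s ξ
  g1 : GOK C.η H1 W1
  hW : ∀ x ∈ C.T s, W1 x = C.W x
  r1 : Rep (NW.MM C.H (C.Ws s)) (NW.MM H1 W1) C.F C.Y (2 * C.Z ^ 2)
  r2 : Rep (NW.MM C.H C.W) (NW.MM H1 W1) (s.X ∪ C.F) C.Y (2 * C.Z ^ 2)
  ck : ∀ z ∈ s.X ∪ C.F, ∀ z' ∈ s.X ∪ C.F, ‖NW.GG H1 W1 z z'‖ ≤ C.Z ^ 12

theorem OK.light (h : C.OK) (nV : ¬ ∃ ξ, C.Viol s ξ) :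
    Light (fun x (b : C.F) => if x ∈ C.T s then (√(aw C.η C.W x) : ℝ) * C.G s x b else 0)
      (C.e ^ 135) (1 / C.Z ^ 40) := fun ξ x => by
  have Z0 := one_pos.trans_le h.Z1
  have e0 := h.e0
  have a0 := h.gok0.a0
  set A : Matrix ι C.F ℂ :=
    fun x b => if x ∈ C.T s then (√(aw C.η C.W x) : ℝ) * C.G s x b else 0 with hA
  obtain ⟨S, hS⟩ : ∃ S, S = nq (A *ᵥ ξ) + 1 / C.Z ^ 40 * nq ξ := ⟨_, rfl⟩
  have n1 := nq_nonneg (A *ᵥ ξ)
  have n2 : 0 ≤ 1 / C.Z ^ 40 * nq ξ := mul_nonneg (by positivity) (nq_nonneg ξ)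
  have n3 : ‖(A *ᵥ ξ) x‖ ^ 2 ≤ nq (A *ᵥ ξ) :=
    single_le_sum (f := fun x => ‖(A *ᵥ ξ) x‖ ^ 2) (fun _ _ => sq_nonneg _) (mem_univ x)
  rw [← hS]
  by_contra hc
  rw [not_le] at hc
  have S0 : 0 < S := by
    rcases (hS ▸ add_nonneg n1 n2 : 0 ≤ S).eq_or_lt with e | e
    · rw [← e] at hc; linarith
    · exact e
  have r0 : 0 < √S := sqrt_pos.2 S0
  set ξ' : ι → ℂ := fun b => if hb : b ∈ C.F then ξ ⟨b, hb⟩ / (√S : ℝ) else 0 with hξ
  have e1 : ∀ y ∈ C.T s, aw C.η C.W y * ‖C.gx s ξ' y‖ ^ 2 = ‖(A *ᵥ ξ) y‖ ^ 2 / S := fun y hy => by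
    have : (A *ᵥ ξ) y = (√(aw C.η C.W y) : ℝ) * (C.gx s ξ' y * (√S : ℝ)) := by
      rw [gx, ← sum_coe_sort, sum_mul, mul_sum]
      refine sum_congr rfl fun b _ => ?_
      have : ((√S : ℝ) : ℂ) ≠ 0 := by exact_mod_cast r0.ne'
      simp only [hA, hξ, if_pos hy, dif_pos b.2]
      field_simp
    rw [this, norm_mul, norm_mul, Complex.norm_real, Complex.norm_real, mul_pow, mul_pow,
      Real.norm_eq_abs, Real.norm_eq_abs, sq_abs, sq_abs, sq_sqrt (a0 y), sq_sqrt S0.le]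
    field_simp
  have e2 : ∀ y ∉ C.T s, (A *ᵥ ξ) y = 0 := fun y hy => by simp [mulVec, dotProduct, hA, hy]
  have e3 : ∑ b ∈ C.F, ‖ξ' b‖ ^ 2 = nq ξ / S := by
    rw [← sum_coe_sort, nq, sum_div]
    refine sum_congr rfl fun b _ => ?_
    simp only [hξ, dif_pos b.2]
    rw [norm_div, div_pow, Complex.norm_real, Real.norm_eq_abs, sq_abs, sq_sqrt S0.le]
  have xT : x ∈ C.T s := by_contra fun c => by
    rw [e2 x c] at hc
    linarith [mul_pos (pow_pos e0 135) S0, show ‖(0 : ℂ)‖ ^ 2 = 0 by simp]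
  refine nV ⟨ξ', le_of_eq ?_, x, xT, by rw [e1 x xT, lt_div_iff₀ S0]; exact hc⟩
  rw [sum_congr rfl e1, e3, ← sum_div, sum_subset (subset_univ _) fun y _ hy => by simp [e2 y hy]]
  change nq (A *ᵥ ξ) / S + _ = 1
  rw [div_right_comm, ← add_div, div_eq_one_iff_eq S0.ne', hS]; ring

variable {H1 : Matrix ι ι ℝ} {W1 : ι → ℂ}

theorem Fin.core (f : C.Fin s H1 W1) (h : C.OK) (i : C.LI s) :
    (∀ x ∈ C.T s, ∑ y ∈ C.T s, aw C.η C.W x * aw C.η C.W y * ‖NW.GG H1 W1 x y - C.G s x y‖ ^ 2 ≤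
      5 * C.e ^ 135 / C.η ^ 2) ∧
    (∀ x ∈ C.T s, ∀ y ∈ C.T s, ‖NW.GG H1 W1 x y - C.G s x y‖ ^ 2 ≤ 24 * C.e ^ 270 / C.η ^ 2) ∧
    ∑ x ∈ C.T s, ∑ y ∈ C.T s, aw C.η C.W x * aw C.η C.W y * ‖NW.GG H1 W1 x y - C.G s x y‖ ^ 2 ≤
      2 / C.e * (4 / C.η ^ 2) := by
  have Z1 := h.Z1
  have e0 := h.e0
  have η0 := h.η0
  have Y0 := zero_le_one.trans h.Y1
  have g := i.gok h
  have a0 := h.gok0.a0
  obtain ⟨T, t1, t2, t3⟩ := f.r1.tm g.unit f.g1.unit Y0 (by positivity) (by positivity)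
    fun a ha b hb => f.ck a (mem_union_right _ ha) b (mem_union_right _ hb)
  replace t2 := t2.mono ((le_mul_of_one_le_right (by positivity) h.Y1).trans
    (h.wr (h.cA h.FA)))
  set r : ι → ℂ := fun x => (√(aw C.η C.W x) : ℝ) with hr
  set A : Matrix ι C.F ℂ := fun x b => if x ∈ C.T s then r x * C.G s x b else 0 with hA
  set M : Matrix C.F ι ℂ := fun b y => if y ∈ C.T s then (T * C.G s) b y * r y else 0 with hM
  have e1 : ∀ x y, (A * M) x y = if x ∈ C.T s ∧ y ∈ C.T s then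
      r x * (C.G s x y - NW.GG H1 W1 x y) * r y else 0 := fun x y => by
    rw [mul_apply]
    by_cases cx : x ∈ C.T s <;> by_cases cy : y ∈ C.T s <;> simp only [hA, hM, cx, cy, if_true,
      if_false, and_self, and_false, false_and, mul_zero, zero_mul, sum_const_zero]
    rw [show NW.GG H1 W1 x y = C.G s x y - (C.G s * T * C.G s) x y from
      t3 x (mem_T.1 cx).2.1 y (mem_T.1 cy).2.1, sub_sub_cancel, Matrix.mul_assoc,
      mul_apply (M := C.G s), ← sum_subset (subset_univ C.F) fun b _ hb => by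
        rw [mul_apply, sum_eq_zero fun p _ => by rw [t1 b p (Or.inl hb), zero_mul], mul_zero],
      mul_sum, sum_mul, ← sum_coe_sort C.F]
    exact sum_congr rfl fun b _ => by ring
  have m : ∀ {H' W'} (_ : GOK C.η H' W') (_ : ∀ x ∈ C.T s, W' x = C.W x) (z : ι → ℂ),
      nq (fun x => if x ∈ C.T s then r x * ∑ y ∈ C.T s, NW.GG H' W' x y * (r y * z y) else 0) ≤
        1 / C.η ^ 2 * nq z := fun {H' W'} g' hW z => by
    have e : ∀ x ∈ C.T s, r x = (√(aw C.η W' x) : ℝ) := fun x hx => by simp only [hr, aw, hW x hx]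
    rw [one_div, ← div_eq_inv_mul, le_div_iff₀ (by positivity), mul_comm]
    refine le_trans (mul_le_mul_of_nonneg_left (nq_le_of fun x => ?_) (sq_nonneg _))
      (g'.mask (C.T s) z)
    split_ifs with c
    · rw [e x c, sum_congr rfl fun y hy => by rw [e y hy]]
    · simp only [norm_zero, norm_nonneg]
  have hK : ∀ z, nq ((A * M) *ᵥ z) ≤ 4 / C.η ^ 2 * nq z := fun z => by
    have : (A * M) *ᵥ z =
        (fun x => if x ∈ C.T s then r x * ∑ y ∈ C.T s, C.G s x y * (r y * z y) else 0) -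
        fun x => if x ∈ C.T s then r x * ∑ y ∈ C.T s, NW.GG H1 W1 x y * (r y * z y) else 0 := by
      funext x
      rw [Pi.sub_apply, mulVec, dotProduct]
      by_cases c : x ∈ C.T s
      · simp only [e1, c, true_and, if_true, ite_mul, zero_mul]
        rw [← sum_filter, filter_mem_eq_inter, univ_inter, mul_sum, mul_sum, ← sum_sub_distrib]
        exact sum_congr rfl fun y _ => by ring
      · simp [e1, c]
    rw [this]
    have a := m g (fun x hx => Ws_out (mem_T.1 hx).2.2) z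
    have b := m f.g1 f.hW z
    refine (nq_sub _ _).trans ?_
    change nq (fun x => if x ∈ C.T s then r x * ∑ y ∈ C.T s, C.G s x y * (r y * z y) else 0) ≤ _ at a
    linarith [show 4 / C.η ^ 2 * nq z = 4 * (1 / C.η ^ 2 * nq z) by ring]
  have hΛ : ∀ z, nq (M *ᵥ z) ≤ C.Z ^ 35 * nq z := fun z => by
    set w : ι → ℂ := fun p => if p ∈ C.F then ∑ y ∈ C.T s, C.G s p y * (r y * z y) else 0 with hw
    have a : ∀ b : C.F, (M *ᵥ z) b = (T *ᵥ w) b := fun b => by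
      simp only [mulVec, dotProduct, hM, mul_apply, ite_mul, zero_mul]
      rw [← sum_filter, filter_mem_eq_inter, univ_inter]
      simp only [sum_mul]
      rw [sum_comm]
      refine sum_congr rfl fun p _ => ?_
      by_cases c : p ∈ C.F
      · simp only [hw, if_pos c, mul_sum, mul_assoc]
      · simp [t1 b p (Or.inr c)]
    have b : nq (M *ᵥ z) ≤ nq (T *ᵥ w) := by
      rw [nq, sum_congr rfl fun b _ => by rw [a b], sum_coe_sort C.F fun b => ‖(T *ᵥ w) b‖ ^ 2]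
      exact sum_le_sum_of_subset_of_nonneg (subset_univ _) fun _ _ _ => sq_nonneg _
    have c : C.η ^ 2 * nq w ≤ 2 * nq z := by
      refine le_trans ?_ (mul_le_mul_of_nonneg_left (g.mask (C.T s) z) zero_le_two)
      rw [mul_left_comm, nq, nq, mul_sum univ _ (2 : ℝ)]
      refine mul_le_mul_of_nonneg_left (sum_le_sum fun p _ => ?_) (sq_nonneg _)
      by_cases c : p ∈ C.F
      · rw [norm_mul, mul_pow, Complex.norm_real, Real.norm_eq_abs, sq_abs, sq_sqrt (g.a0 p),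
          sum_congr rfl fun y hy => by rw [aw_out (mem_T.1 hy).2.2]]
        simp only [hw, if_pos c]
        change _ ≤ 2 * (_ * ‖∑ y ∈ C.T s, C.G s p y * (r y * z y)‖ ^ 2)
        linarith [mul_le_mul_of_nonneg_right (LI.aw h (h.AO (h.FA c)) (i.FX h c)).1
          (sq_nonneg ‖∑ y ∈ C.T s, C.G s p y * (r y * z y)‖)]
      · simp only [hw, if_neg c, norm_zero]
        exact (zero_pow two_ne_zero).trans_le (by positivity)
    have d : nq w ≤ C.Z * nq z := by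
      have y1 := h.ηY (k := 2) (by norm_num)
      rw [div_le_iff₀ (by positivity)] at y1
      have y2 : 2 * C.Y ≤ C.Z := by nlinarith [h.YZ' (k := 2) (by norm_num), h.Y9]
      nlinarith [mul_le_mul_of_nonneg_left y1 (nq_nonneg w), mul_le_mul_of_nonneg_left c Y0,
        mul_le_mul_of_nonneg_right y2 (nq_nonneg z)]
    calc _ ≤ (C.Z ^ 17) ^ 2 * (C.Z * nq z) :=
          b.trans ((t2.nq_le (by positivity) w).trans (by gcongr))
      _ = _ := by ring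
  have hL := h.light f.nV
  have θ1 : 1 / C.Z ^ 40 * C.Z ^ 35 ≤ C.e ^ 135 := by
    have a := (h.eY (k := 135) (by norm_num)).trans (by simpa using h.YZ' (k := 1) (by norm_num))
    rw [div_le_iff₀ (by positivity)] at a
    rw [show 1 / C.Z ^ 40 * C.Z ^ 35 = 1 / C.Z ^ 5 by field_simp, div_le_iff₀ (by positivity)]
    nlinarith [mul_le_mul_of_nonneg_left (le_self_pow₀ Z1 (by norm_num : 5 ≠ 0)) (pow_pos e0 135).le]
  have θ2 : C.e ^ 135 ≤ 1 / C.η ^ 2 := (pow_le_one₀ e0.le h.e1').trans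
    (by rw [le_div_iff₀ (by positivity), one_mul]; exact pow_le_one₀ η0.le h.η1')
  have θ3 : C.e ^ 135 * (4 / C.η ^ 2 + 1 / C.Z ^ 40 * C.Z ^ 35) ≤ 5 * C.e ^ 135 / C.η ^ 2 :=
    (mul_le_mul_of_nonneg_left (add_le_add le_rfl (θ1.trans θ2)) (by positivity)).trans
      (le_of_eq (by ring))
  have n : ∀ x ∈ C.T s, ∀ y ∈ C.T s, ‖(A * M) x y‖ ^ 2 =
      aw C.η C.W x * aw C.η C.W y * ‖NW.GG H1 W1 x y - C.G s x y‖ ^ 2 := fun x hx y hy => by
    rw [e1, if_pos ⟨hx, hy⟩, norm_mul, norm_mul, norm_sub_rev, mul_pow, mul_pow]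
    simp only [hr, Complex.norm_real, Real.norm_eq_abs, sq_abs, sq_sqrt (a0 _)]; ring
  have rw1 : ∀ x ∈ C.T s, ∑ y ∈ C.T s, aw C.η C.W x * aw C.η C.W y *
      ‖NW.GG H1 W1 x y - C.G s x y‖ ^ 2 ≤ nq ((A * M) x) := fun x hx => by
    rw [← sum_congr rfl (n x hx)]
    exact sum_le_sum_of_subset_of_nonneg (subset_univ _) fun _ _ _ => sq_nonneg _
  refine ⟨fun x hx => (rw1 x hx).trans ((hL.row (by positivity) (by positivity) (by positivity)
    (by positivity) hK hΛ x).trans θ3), fun x hx y hy => ?_, (sum_le_sum rw1).trans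
      ((sum_le_sum_of_subset_of_nonneg (subset_univ _) fun _ _ _ => nq_nonneg _).trans
        ((hs_le A M (by positivity) hK).trans ?_))⟩
  · have a := hL.entry (by positivity) (by positivity) (by positivity) (by positivity)
      (fun x y => by
        rw [e1, e1, show C.G s x y = C.G s y x from g.sym x y, f.g1.sym x y]
        simp only [and_comm]; split_ifs; exacts [by ring, rfl]) hK hΛ x y
    have b : C.e ^ 135 ≤ C.e ^ 135 / C.η ^ 2 := le_div_self (by positivity) (by positivity)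
      (pow_le_one₀ η0.le h.η1')
    have c := mul_le_mul_of_nonneg_left (add_le_add θ3 (θ1.trans b)) (pow_pos e0 135).le
    have d := mul_le_mul_of_nonneg_right (mul_le_mul (h.opn x (mem_T.1 hx).1).1.1
      (h.opn y (mem_T.1 hy).1).1.1 (by norm_num) (a0 x)) (sq_nonneg ‖NW.GG H1 W1 x y - C.G s x y‖)
    rw [n x hx y hy] at a
    linarith [show 24 * C.e ^ 270 / C.η ^ 2 = 4 * (C.e ^ 135 * (5 * C.e ^ 135 / C.η ^ 2 +
      C.e ^ 135 / C.η ^ 2)) by ring]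
  · rw [Fintype.card_coe]
    exact mul_le_mul_of_nonneg_right h.cF (by positivity)

end TC

end Pool.Agent.P.MP_d0f69c_mp.XS
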