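import Pool.Agent.P.MP_d0f69c_mp.XS.HFa

/-! The effects of a successful healing turn. -/

set_option linter.unusedSectionVars false

namespace Pool.Agent.P.MP_d0f69c_mp.XS

open Finset Real Matrix

variable {ι : Type} [Fintype ι] [DecidableEq ι] {C : TC ι} {s : LS ι}

theorem pow4_near (a b : ℂ) : ‖a‖ ^ 4 ≤ 1331 / 1000 * ‖b‖ ^ 4 + 1331 * ‖a - b‖ ^ 4 := by
  have h := norm_add_le b (a - b)
  rw [add_sub_cancel] at h
  have h1 : ‖a‖ ^ 2 ≤ 11 / 10 * ‖b‖ ^ 2 + 11 * ‖a - b‖ ^ 2 := by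
    nlinarith [pow_le_pow_left₀ (norm_nonneg _) h 2, sq_nonneg (‖b‖ - 10 * ‖a - b‖)]
  nlinarith [pow_le_pow_left₀ (sq_nonneg _) h1 2, sq_nonneg (‖b‖ ^ 2 - 100 * ‖a - b‖ ^ 2)]

theorem pow4_far {a b : ℂ} {δ : ℝ} (hb : ‖b‖ ≤ 1) (hδ : ‖a - b‖ ≤ δ) (δ1 : δ ≤ 1) :
    ‖a‖ ^ 4 ≤ ‖b‖ ^ 4 + 15 * δ := by
  have h := norm_add_le b (a - b)
  rw [add_sub_cancel] at h
  have δ0 := (norm_nonneg _).trans hδ
  have b0 := norm_nonneg b
  have h1 := pow_le_pow_left₀ (norm_nonneg _) (h.trans (add_le_add le_rfl hδ)) 4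
  have h2 : 4 * ‖b‖ ^ 3 + 6 * ‖b‖ ^ 2 * δ + 4 * ‖b‖ * δ ^ 2 + δ ^ 3 ≤
      4 * 1 ^ 3 + 6 * 1 ^ 2 * 1 + 4 * 1 * 1 ^ 2 + 1 ^ 3 := by gcongr
  nlinarith [mul_le_mul_of_nonneg_left h2 δ0]

namespace TC

/-- the effects of a turn that closes `X` and the cluster -/
structure Eff (C : TC ι) (s : LS ι) (G1 : Matrix ι ι ℂ) (W1 : ι → ℂ) : Prop where
  e1 : ∀ x ∈ C.T s, ∀ y ∈ C.T s, ‖G1 x y - C.G0 x y‖ ≤ 2 * C.e ^ 120 * C.u x
  e2 : ∀ x ∈ C.T s, ∑ y ∈ (C.gd \ s.X).erase x, ‖G1 x y‖ ^ 4 ≤ C.ν0 x + C.n / 25 * C.u x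
  e3 : RF C.O (Kk C.η C.W C.G0) (C.T s) (Kk C.η W1 G1) fun f => C.e ^ 40 * C.Ec f
  e4 : Bil (C.gd \ s.X) (fun x y => Am W1 G1 x y - Am C.W C.G0 x y) fun x => C.e ^ 40 * C.u x
  e5 : Turn C.G0 G1 C.A (C.Z ^ 18)

variable {H1 : Matrix ι ι ℝ} {W1 : ι → ℂ}

theorem OK.del (h : C.OK) :
    RF C.O (Kk C.η C.W C.G0) (C.O \ C.F) (Kk C.η C.W C.G0) fun f => C.e ^ 50 * C.Ec f := by
  have g := h.gok0
  have e0 := h.e0
  have η0 := h.η0
  have FO : C.F ⊆ C.O := h.FA.trans h.AO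
  have k0 : ∀ x, 0 ≤ ∑ b ∈ C.F, Kk C.η C.W C.G0 x b := fun x => sum_nonneg fun b _ => g.K0 x b
  have kb : ∀ x ∈ C.O, ∀ b ∈ C.F, ∀ r, ‖C.G0 x b‖ ≤ r → Kk C.η C.W C.G0 x b ≤ 4 * r ^ 2 :=
    fun x hx b hb r hr => by
    have := (h.opn x hx).1.2
    have := (h.opn b (FO hb)).1.2
    have := g.a0 b
    calc _ ≤ 2 * 2 * r ^ 2 := by unfold Kk; gcongr
      _ = _ := by ring
  have n : ∀ x ∈ (C.O \ C.F) ∩ C.B, ∑ b ∈ C.F, Kk C.η C.W C.G0 x b ≤ 32 * C.e ^ 189 := fun x hx => by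
    obtain ⟨a, xB⟩ := mem_inter.1 hx
    obtain ⟨xO, xF⟩ := mem_sdiff.1 a
    refine (h.Fsum (by positivity) fun b hb => kb x xO b hb _ ((h.env x (mem_inter.2 ⟨xB, xO⟩) b
      (mem_inter.2 ⟨h.AB (h.FA hb), FO hb⟩) (fun e => xF (e ▸ hb)) fun e => xF e.1).trans
        (h.w2 x xF b hb))).trans (le_of_eq ?_)
    field_simp; ring
  refine RF.del C.F g.Ksym g.K0 fun f => ?_
  rw [inter_eq_right.2 FO]
  refine h.lock _ subset_rfl _ (32 * C.e ^ 189) 1 _ (by positivity) zero_le_one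
    (fun x hx => ⟨k0 x, n x hx⟩) ?_ (fun x hx xB => ?_) ?_ (h.epow (by norm_num)) f
  · have a : ∑ x ∈ (C.O \ C.F) ∩ C.B ∩ C.gd, ∑ b ∈ C.F, Kk C.η C.W C.G0 x b ≤
        2 / C.e * (2 * (2 / C.η ^ 2)) := by
      rw [sum_comm]
      refine h.Fsum (by positivity) fun b hb => ?_
      refine (sum_congr rfl fun x _ => (g.Ksym x b).trans (mul_assoc _ _ _)).trans_le ?_
      rw [← mul_sum]
      exact mul_le_mul (h.opn b (FO hb)).1.2 (g.mass_le (h.opn b (FO hb)).1.1 _)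
        (sum_nonneg fun y _ => mul_nonneg (g.a0 y) (sq_nonneg _)) zero_le_two
    calc _ ≤ ∑ x ∈ (C.O \ C.F) ∩ C.B ∩ C.gd, 32 * C.e ^ 189 * ∑ b ∈ C.F, Kk C.η C.W C.G0 x b :=
          sum_le_sum fun x hx => by
            rw [sq]; exact mul_le_mul_of_nonneg_right (n x (mem_inter.1 hx).1) (k0 x)
      _ ≤ 32 * C.e ^ 189 * (2 / C.e * (2 * (2 / C.η ^ 2))) := by rw [← mul_sum]; gcongr
      _ = 256 * C.P ^ 0 * C.e ^ (0 + 188) / C.η ^ 2 := by field_simp; ring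
      _ ≤ _ := (h.sm' 0 2 0 188 (by norm_num) (by norm_num) (by norm_num)).trans (by simp)
  · have w := h.ω0 x
    have w0 := w.1
    have t := (OK.τ0 C).le
    have Z1 := h.Z1
    have y2 : 1 / C.e ≤ C.Y := by simpa using h.eY (k := 1) (by norm_num)
    refine (h.Fsum (by positivity) fun b hb => kb x (mem_sdiff.1 hx).1 b hb _
      ((congrArg norm (g.sym x b)).trans_le (h.far b (h.FA hb) x xB))).trans ?_
    calc _ = C.τ * (8 * (1 / C.e) * (C.τ * C.ω x)) * C.ω x := by ring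
      _ ≤ C.τ * (C.Y * C.Y * 1) * C.ω x := by
          have Y9 := h.Y9
          have : 8 * (1 / C.e) * (C.τ * C.ω x) ≤ C.Y * C.Y * 1 :=
            mul_le_mul (mul_le_mul (by linarith) y2 (by positivity) (by linarith))
              (mul_le_one₀ h.τ1 w.1 w.2) (by positivity) (by positivity)
          gcongr
      _ ≤ _ := by
          gcongr
          exact (le_of_eq (by ring)).trans ((h.YZ' (k := 2) (by norm_num)).trans
            (le_self_pow₀ Z1 (by norm_num)))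
  · have a := h.sm' 0 0 50 139 (c := 256) (by norm_num) (by norm_num) (by norm_num)
    have b := h.sm' 0 0 50 150 (c := 4) (by norm_num) (by norm_num) (by norm_num)
    simp only [pow_zero, mul_one, div_one, Nat.reduceAdd] at a b
    linarith

theorem Fin.ZA (h : C.OK) (i : C.LI s) : s.X ∪ C.F ⊆ C.A := union_subset i.XA' h.FA

theorem Fin.dif (f : C.Fin s H1 W1) (h : C.OK) (i : C.LI s) {x y : ι} (hx : x ∈ C.T s)
    (hy : y ∈ C.T s) : ‖NW.GG H1 W1 x y - C.G0 x y‖ ≤ C.ϱ x * C.Z ^ 17 * C.ϱ y := by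
  have Z1 := h.Z1
  have Y0 := zero_le_one.trans h.Y1
  obtain ⟨T, t1, t2, t3⟩ := f.r2.tm h.gok0.unit f.g1.unit Y0 (by positivity) (by positivity) f.ck
  rw [mem_T] at hx hy
  have a := t1.tri t2 (h.ϱ0 x) (h.ϱ0 y) (G := C.G0) (x := x) (y := y)
    (fun p hp => (congrArg norm (h.gok0.sym x p)).trans_le (h.le_ϱ (ZA h i hp) (Or.inl hx.1)))
    fun p hp => h.le_ϱ (ZA h i hp) (Or.inl hy.1)
  rw [show NW.GG H1 W1 x y = _ from t3 x (by simp [hx.2.1, hx.2.2]) y (by simp [hy.2.1, hy.2.2]),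
    show C.G0 = (NW.MM C.H C.W)⁻¹ from rfl, sub_sub_cancel_left, norm_neg]
  refine a.trans (mul_le_mul_of_nonneg_right (mul_le_mul_of_nonneg_left ?_ (h.ϱ0 x)) (h.ϱ0 y))
  rw [mul_comm]
  exact (mul_le_mul_of_nonneg_left (h.cA (ZA h i)) (by positivity)).trans (h.wr (h.cA (ZA h i)))

theorem Fin.far (f : C.Fin s H1 W1) (h : C.OK) (i : C.LI s) {x y : ι} (hx : x ∈ C.T s)
    (hy : y ∈ C.T s) (xB : x ∉ C.B) :
    ‖NW.GG H1 W1 x y - C.G0 x y‖ ≤ C.τ * C.Z ^ 17 * C.ω x * C.ϱ y := by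
  have := f.dif h i hx hy
  rw [show C.ϱ x = C.τ * C.ω x from if_neg xB] at this
  linarith

theorem Fin.eff (f : C.Fin s H1 W1) (h : C.OK) (i : C.LI s) : C.Eff s (NW.GG H1 W1) W1 := by
  obtain ⟨c1, c2, c3⟩ := f.core h i
  have Z1 := h.Z1
  have e0 := h.e0
  have η0 := h.η0
  have Y9 := h.Y9
  have YZ : C.Y ≤ C.Z := by simpa using h.YZ' (k := 1) (by norm_num)
  have t := (OK.τ0 C).le
  have ε0 := (OK.ε0 C).le
  have g := i.gok h
  have a0 := h.gok0.a0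
  have cd := i.card h
  have fz : ∀ x ∈ C.T s, ∀ y ∈ C.T s, x ∉ C.B →
      ‖NW.GG H1 W1 x y - C.G0 x y‖ ≤ C.τ * C.Z ^ 18 * C.ω x := fun x hx y hy xB => by
    have := (h.ω0 x).1
    exact (f.far h i hx hy xB).trans ((mul_le_mul_of_nonneg_left ((h.ϱY y).trans YZ)
      (by positivity)).trans (le_of_eq (by ring)))
  set ρ : ι → ℝ := fun x => √(∑ y ∈ C.T s,
    aw C.η C.W x * aw C.η C.W y * ‖NW.GG H1 W1 x y - C.G s x y‖ ^ 2) with hρ
  have ρ2 : ∀ x, ρ x ^ 2 = ∑ y ∈ C.T s,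
      aw C.η C.W x * aw C.η C.W y * ‖NW.GG H1 W1 x y - C.G s x y‖ ^ 2 := fun x =>
    sq_sqrt (sum_nonneg fun y _ => mul_nonneg (mul_nonneg (a0 x) (a0 y)) (sq_nonneg _))
  have ρ0 : ∀ x, 0 ≤ ρ x := fun x => sqrt_nonneg _
  have ρn : ∀ x ∈ C.T s, ρ x ≤ C.e ^ 60 := fun x hx => (abs_le_of_sq_le_sq' (by
    have := h.sm' 0 2 120 15 (c := 5) (by norm_num) (by norm_num) (by norm_num)
    simp only [pow_zero, mul_one, Nat.reduceAdd] at this
    rw [ρ2, ← pow_mul]; exact (c1 x hx).trans this) (by positivity)).2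
  have ρf : ∀ x ∈ C.T s, x ∉ C.B → ρ x ≤ C.τ * C.Z ^ 18 * C.ω x := fun x hx xB => by
    have w := (h.ω0 x).1
    have xT := mem_T.1 hx
    refine (abs_le_of_sq_le_sq' ?_ (by positivity)).2
    have a : ∀ y ∈ C.T s, aw C.η C.W x * aw C.η C.W y * ‖NW.GG H1 W1 x y - C.G s x y‖ ^ 2 ≤
        16 * (C.τ * C.Z ^ 17 * C.ω x) ^ 2 * C.Y * C.ϱ y := fun y hy => by
      have yT := mem_T.1 hy
      have a1 := i.dif h xT.2.2 yT.2.2 (Or.inl xT.1) (Or.inl yT.1)
      rw [show C.ϱ x = C.τ * C.ω x from if_neg xB] at a1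
      have r0 := h.ϱ0 y
      have a2 : C.τ * C.ω x * C.Z ^ 15 * C.ϱ y ≤ C.τ * C.ω x * C.Z ^ 17 * C.ϱ y := by
        gcongr; norm_num
      have a3 := norm_sub_le_norm_sub_add_norm_sub (NW.GG H1 W1 x y) (C.G0 x y) (C.G s x y)
      rw [norm_sub_rev (C.G0 x y)] at a3
      have a4 : ‖NW.GG H1 W1 x y - C.G s x y‖ ≤ 2 * (C.τ * C.Z ^ 17 * C.ω x * C.ϱ y) := by
        linarith [f.far h i hx hy xB]
      have := (h.opn x xT.1).1.2
      have := (h.opn y yT.1).1.2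
      have := a0 y
      have := h.ϱY y
      calc _ ≤ 2 * 2 * (2 * (C.τ * C.Z ^ 17 * C.ω x * C.ϱ y)) ^ 2 := by gcongr
        _ = 16 * (C.τ * C.Z ^ 17 * C.ω x) ^ 2 * C.ϱ y * C.ϱ y := by ring
        _ ≤ _ := by gcongr
    rw [ρ2]
    refine (sum_le_sum a).trans ?_
    rw [← mul_sum]
    have b := (sum_le_sum_of_subset_of_nonneg (subset_univ (C.T s)) fun y _ _ => h.ϱ0 y).trans h.ϱs
    calc _ ≤ C.Y * (C.τ * C.Z ^ 17 * C.ω x) ^ 2 * C.Y * C.Y ^ 3 := by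
          gcongr; exacts [sum_nonneg fun y _ => h.ϱ0 y, by linarith]
      _ = C.Y ^ 5 * (C.τ * C.Z ^ 17 * C.ω x) ^ 2 := by ring
      _ ≤ C.Z ^ 2 * (C.τ * C.Z ^ 17 * C.ω x) ^ 2 := by
          gcongr; exact (h.YZ' (by norm_num)).trans (le_self_pow₀ Z1 (by norm_num))
      _ = _ := by ring
  have kn : ∀ x ∈ C.T s, 10 * ρ x / C.η ≤ C.e ^ 58 := fun x hx => by
    have := h.sm' 0 1 58 2 (c := 10) (by norm_num) (by norm_num) (by norm_num)
    simp only [pow_zero, mul_one, Nat.reduceAdd, pow_one] at this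
    exact le_trans (by gcongr; exact ρn x hx) this
  have kf : ∀ x ∈ C.T s, x ∉ C.B → 10 * ρ x / C.η ≤ C.τ * C.Z ^ 19 * C.ω x := fun x hx xB => by
    have := (h.ω0 x).1
    calc _ = 5 * (2 / C.η) * ρ x := by ring
      _ ≤ C.Z * (C.τ * C.Z ^ 18 * C.ω x) := by
          gcongr; exacts [by nlinarith [h.η2, h.YZ' (k := 2) (by norm_num)], ρf x hx xB]
      _ = _ := by ring
  obtain ⟨d1, d2⟩ := g.chg2 h.η1' (S := C.T s) (fun x hx => LI.awT h hx) (W' := W1)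
    (G' := NW.GG H1 W1) (fun x hx => (f.hW x hx).trans (Ws_out (mem_T.1 hx).2.2).symm) f.g1.sym
    (ρ := ρ) (fun x hx => ⟨ρ0 x, (ρn x hx).trans (pow_le_one₀ e0.le h.e1')⟩) fun x hx => by
      rw [ρ2, aw_out (mem_T.1 hx).2.2]
      exact le_of_eq (sum_congr rfl fun y hy => by rw [aw_out (mem_T.1 hy).2.2]; rfl)
  have x1 : s.X.card * C.e ^ 185 ≤ 4 * C.e ^ 45 := by
    linarith [mul_le_mul_of_nonneg_right cd (pow_pos e0 45).le]
  have x2 : 4 * C.e ^ 45 + 2 * C.e ^ 50 ≤ C.e ^ 40 := by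
    have := h.sm' 0 0 40 5 (c := 6) (by norm_num) (by norm_num) (by norm_num)
    simp only [pow_zero, mul_one, Nat.reduceAdd, div_one] at this
    linarith [h.epow (show 45 ≤ 50 by norm_num)]
  refine ⟨fun x hx y hy => ?_, fun x hx => ?_, ?_, ?_, ?_⟩
  · unfold u
    split_ifs with xB
    · by_cases yB : y ∈ C.B
      · have a := h.sm' 0 2 240 30 (c := 24) (by norm_num) (by norm_num) (by norm_num)
        simp only [pow_zero, mul_one, Nat.reduceAdd] at a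
        have b : ‖NW.GG H1 W1 x y - C.G s x y‖ ≤ C.e ^ 120 := (abs_le_of_sq_le_sq' (by
          rw [← pow_mul]; exact (c2 x hx y hy).trans a) (by positivity)).2
        linarith [norm_sub_le_norm_sub_add_norm_sub (NW.GG H1 W1 x y) (C.G s x y) (C.G0 x y),
          i.near h (mem_inter.2 ⟨hx, xB⟩) (mem_inter.2 ⟨hy, yB⟩)]
      · have a := fz y hy x hx yB
        rw [f.g1.sym y x, show C.G0 y x = C.G0 x y from h.gok0.sym y x] at a
        have b := mul_le_of_le_one_right (by positivity : 0 ≤ C.τ * C.Z ^ 18) (h.ω0 y).2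
        linarith [h.τZ1 (k := 18) (j := 120) (by norm_num) (by norm_num), pow_pos e0 120]
    · have := (h.ω0 x).1
      linarith [fz x hx y hy xB, mul_le_mul_of_nonneg_right
        (h.τZ' (k := 18) (j := 120) (by norm_num) (by norm_num)) this,
        show 0 ≤ C.e ^ 120 * (C.ε * C.ω x) by positivity]
  · have sT : (C.gd \ s.X).erase x ⊆ C.T s := fun y hy => LI.gT h (mem_of_mem_erase hy)
    have n0 := h.n0
    unfold u
    split_ifs with xB
    · have a := sum_le_sum fun y (_ : y ∈ (C.gd \ s.X).erase x) =>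
        pow4_near (NW.GG H1 W1 x y) (C.G s x y)
      rw [sum_add_distrib, ← mul_sum, ← mul_sum] at a
      have b : ∑ y ∈ (C.gd \ s.X).erase x, ‖NW.GG H1 W1 x y - C.G s x y‖ ^ 4 ≤
          24 * C.e ^ 270 / C.η ^ 2 * (4 * (5 * C.e ^ 135 / C.η ^ 2)) := by
        refine le_trans ?_ (mul_le_mul_of_nonneg_left (mul_le_mul_of_nonneg_left (c1 x hx)
          zero_le_four) (by positivity))
        rw [mul_sum, mul_sum]
        refine (sum_le_sum_of_subset_of_nonneg sT fun _ _ _ => by positivity).trans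
          (sum_le_sum fun y hy => ?_)
        have d := mul_le_mul_of_nonneg_right (mul_le_mul (h.opn x (mem_T.1 hx).1).1.1
          (h.opn y (mem_T.1 hy).1).1.1 (by norm_num) (a0 x))
          (sq_nonneg ‖NW.GG H1 W1 x y - C.G s x y‖)
        rw [show 4 = 2 + 2 from rfl, pow_add]
        exact mul_le_mul (c2 x hx y hy) (by linarith) (sq_nonneg _) (by positivity)
      have c := h.sm' 0 4 400 5 (c := 638880000) (by norm_num) (by norm_num) (by norm_num)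
      have d : 638880000 * C.P ^ 0 * C.e ^ (400 + 5) / C.η ^ 4 =
          1331000 * (24 * C.e ^ 270 / C.η ^ 2 * (4 * (5 * C.e ^ 135 / C.η ^ 2))) := by ring
      have e : ∑ y ∈ (C.gd \ s.X).erase x, ‖C.G s x y‖ ^ 4 ≤ _ := i.nu h (mem_inter.2 ⟨hx, xB⟩)
      linarith [h.en, h.l4 x (mem_inter.2 ⟨xB, (mem_T.1 hx).1⟩) (mem_T.1 hx).2.1]
    · have w := h.ω0 x
      have w0 := w.1
      have a := sum_le_sum fun y (hy : y ∈ (C.gd \ s.X).erase x) => pow4_far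
        (h.amp x (mem_T.1 hx).1 y (mem_sdiff.1 (mem_of_mem_erase hy)).1 (ne_of_mem_erase hy).symm)
        (f.far h i hx (sT hy) xB) (by
          have := h.ϱ0 y
          calc _ ≤ C.τ * C.Z ^ 17 * 1 * C.Z := by gcongr; exacts [w.2, (h.ϱY y).trans YZ]
            _ ≤ _ := by
                linarith [h.τZ1 (k := 18) (j := 0) (by norm_num) (by norm_num), pow_zero C.e])
      rw [sum_add_distrib, ← mul_sum, ← mul_sum] at a
      have b : ∑ y ∈ (C.gd \ s.X).erase x, ‖C.G0 x y‖ ^ 4 ≤ C.ν0 x :=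
        sum_le_sum_of_subset_of_nonneg (erase_subset_erase _ sdiff_subset) fun _ _ _ => by positivity
      have c := (sum_le_sum_of_subset_of_nonneg (subset_univ ((C.gd \ s.X).erase x))
        fun y _ _ => h.ϱ0 y).trans h.ϱs
      have d : 375 * C.Y ^ 3 ≤ C.Z := by
        nlinarith [h.YZ' (k := 4) (by norm_num), pow_pos (by linarith : 0 < C.Y) 3]
      have e := mul_le_mul_of_nonneg_left (show 375 * ∑ y ∈ (C.gd \ s.X).erase x, C.ϱ y ≤ C.Z by
        linarith) (by positivity : 0 ≤ C.τ * C.Z ^ 17 * C.ω x)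
      have k := mul_le_mul_of_nonneg_right ((h.τZ' (k := 18) (j := 400) (by norm_num)
        (by norm_num)).trans (mul_le_mul_of_nonneg_left h.en ε0)) w0
      linarith
  · have a := RF.chg (E := fun f => C.e ^ 50 * C.Ec f) d1 fun φ =>
      h.lock _ sdiff_subset _ (C.e ^ 58) (1 / C.e ^ 3) _ (by positivity) (by positivity)
        (fun x hx => ⟨by have := ρ0 x; positivity, kn x (mem_inter.1 hx).1⟩) (by
          have b := h.sm 0 4 5 (c := 800) (by norm_num) (by norm_num) (by norm_num)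
          calc _ ≤ ∑ x ∈ C.T s, (10 * ρ x / C.η) ^ 2 := sum_le_sum_of_subset_of_nonneg
                (inter_subset_left.trans inter_subset_left) fun _ _ _ => sq_nonneg _
            _ = 100 / C.η ^ 2 * ∑ x ∈ C.T s, ρ x ^ 2 := by
                rw [mul_sum]; exact sum_congr rfl fun x _ => by ring
            _ ≤ 100 / C.η ^ 2 * (2 / C.e * (4 / C.η ^ 2)) := by simp only [ρ2]; gcongr
            _ = 800 * C.P ^ 0 * C.e ^ 5 / C.η ^ 4 * (1 / C.e ^ 3) ^ 2 := by field_simp; ring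
            _ ≤ _ := mul_le_of_le_one_left (sq_nonneg _) ((div_le_one (by positivity)).2 b))
        (fun x hx xB => (kf x hx xB).trans (by have := (h.ω0 x).1; gcongr; norm_num)) (by
          have b := h.sm' 0 0 50 8 (c := 6) (by norm_num) (by norm_num) (by norm_num)
          simp only [pow_zero, mul_one, Nat.reduceAdd, div_one] at b
          rw [show 2 * C.e ^ 200 * (1 / C.e ^ 3) = 2 * C.e ^ 197 by field_simp]
          linarith [h.epow (show 58 ≤ 197 by norm_num)]) (h.epow (by norm_num)) φ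
    refine ((h.del.trans i.rf).trans a).mono fun φ => ?_
    linarith [mul_le_mul_of_nonneg_right (show C.e ^ 50 + s.X.card * C.e ^ 185 + C.e ^ 50 ≤
      C.e ^ 40 by linarith) (h.E0 φ)]
  · refine (i.bil.add (d2.sub fun x hx => LI.gT h hx)).congr (fun x _ y _ => by
      change _ = _ + (_ - Am (C.Ws s) (C.G s) x y); ring) fun x hx => ?_
    have a : 10 * ρ x / C.η ≤ C.e ^ 50 * C.u x := by
      unfold u
      split_ifs with xB
      · rw [mul_one]; exact (kn x (LI.gT h hx)).trans (h.epow (by norm_num))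
      · linarith [kf x (LI.gT h hx) xB, mul_le_mul_of_nonneg_right
          (h.τZ' (k := 19) (j := 50) (by norm_num) (by norm_num)) (h.ω0 x).1]
    linarith [mul_le_mul_of_nonneg_right (show s.X.card * C.e ^ 185 + C.e ^ 50 ≤ C.e ^ 40 by
      linarith [pow_pos e0 50]) (h.u0 x)]
  · have Y0 := zero_le_one.trans h.Y1
    have k := h.cA (ZA h i)
    have p := pow_le_pow_right₀ Z1 (show 17 ≤ 18 by norm_num)
    refine f.r2.turn h.gok0.unit f.g1.unit Y0 (by positivity) (by positivity) h.gok0.sym f.g1.sym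
      (ZA h i) f.ck (pow_le_pow_right₀ Z1 (by norm_num)) ?_ ?_
    · refine le_trans ?_ ((h.wr k).trans p)
      have := one_le_pow₀ (n := 2) Z1
      calc _ = C.Y * (1 + 2 * C.Z ^ 2 * ((s.X ∪ C.F).card * C.Z ^ 12) * 1) * 1 * 1 := by ring
        _ ≤ _ := by gcongr <;> linarith
    · rw [mul_comm]
      exact (mul_le_mul_of_nonneg_left k (by positivity)).trans ((h.wr k).trans p)

end TC

end Pool.Agent.P.MP_d0f69c_mp.XS
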