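import Mathlib

/-! Decay through a sequence of separated local perturbations: elimination without star. -/

namespace Pool.Agent.P.MP_d0f69c_mp.XS

open Finset

/-- `β j` are bounds between objects after `j` turns, turn `j` acts at the object `c j` -/
theorem kleene {ι : Type} (β : ℕ → ι → ι → ℝ) (c : ℕ → ι) (b : ι) {w : ℝ} (hw : 0 ≤ w) (n : ℕ)
    (Γ : ℕ → ℝ) (hΓ0 : ∀ i, 0 ≤ Γ i) (h0 : ∀ j a a', 0 ≤ β j a a')
    (hΓ : ∀ i < n, β 0 (c i) b + ∑ k ∈ (range n).erase i, β 0 (c i) (c k) * w * Γ k ≤ Γ i) :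
    ∀ j ≤ n, (∀ i < j, ∀ a a', β (i + 1) a a' ≤ β i a a' + β i a (c i) * w * β i (c i) a') →
      (∀ i ∈ Ico j n, β j (c i) b + ∑ k ∈ (Ico j n).erase i, β j (c i) (c k) * w * Γ k ≤ Γ i) ∧
      ∀ a, β j a b + ∑ k ∈ Ico j n, β j a (c k) * w * Γ k ≤
        β 0 a b + ∑ k ∈ range n, β 0 a (c k) * w * Γ k := by
  intro j
  induction j with
  | zero =>
    intro _ _
    simp only [← range_eq_Ico]
    exact ⟨fun i hi => hΓ i (mem_range.1 hi), fun a => le_rfl⟩
  | succ j ih =>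
    intro hj hs
    obtain ⟨i1, i2⟩ := ih (by omega) fun i hi => hs i (by omega)
    have hm : j ∈ Ico j n := mem_Ico.2 ⟨le_rfl, hj⟩
    have eI : (Ico j n).erase j = Ico (j + 1) n := by
      ext k; simp only [mem_erase, mem_Ico]; omega
    have i3 := i1 j hm
    rw [eI] at i3
    have key : ∀ a, ∀ J ⊆ Ico (j + 1) n,
        β (j + 1) a b + ∑ k ∈ J, β (j + 1) a (c k) * w * Γ k ≤
          β j a b + (β j a (c j) * w * Γ j + ∑ k ∈ J, β j a (c k) * w * Γ k) := fun a J hJ => by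
      have p0 : 0 ≤ β j a (c j) * w := mul_nonneg (h0 _ _ _) hw
      have p1 : ∑ k ∈ J, β (j + 1) a (c k) * w * Γ k ≤ ∑ k ∈ J, (β j a (c k) * w * Γ k +
          β j a (c j) * w * (β j (c j) (c k) * w * Γ k)) := sum_le_sum fun k _ => by
        have := mul_le_mul_of_nonneg_right (hs j (by omega) a (c k)) (mul_nonneg hw (hΓ0 k))
        linarith
      rw [sum_add_distrib, ← mul_sum] at p1
      have p2 : ∑ k ∈ J, β j (c j) (c k) * w * Γ k ≤
          ∑ k ∈ Ico (j + 1) n, β j (c j) (c k) * w * Γ k :=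
        sum_le_sum_of_subset_of_nonneg hJ fun k _ _ =>
          mul_nonneg (mul_nonneg (h0 _ _ _) hw) (hΓ0 k)
      have p3 := mul_le_mul_of_nonneg_left ((add_le_add le_rfl p2).trans i3) p0
      have p4 := hs j (by omega) a b
      rw [mul_add] at p3
      linarith
    refine ⟨fun i hi => ?_, fun a => ?_⟩
    · have hi' := mem_Ico.1 hi
      have q1 := i1 i (mem_Ico.2 ⟨by omega, hi'.2⟩)
      have hj' : j ∈ (Ico j n).erase i := mem_erase.2 ⟨by omega, hm⟩
      rw [← add_sum_erase _ _ hj', erase_right_comm, eI] at q1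
      exact (key (c i) _ (erase_subset _ _)).trans q1
    · have q1 := i2 a
      rw [← add_sum_erase _ _ hm, eI] at q1
      exact (key a _ subset_rfl).trans q1

end Pool.Agent.P.MP_d0f69c_mp.XS
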