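import Mathlib

/-! Scalar two point monitors for the healing stage. -/

namespace Pool.Agent.P.MP_d0f69c_mp.XS

open Finset Real

theorem exp_two (m o : ℝ) : exp (m + o) + exp (m - o) ≤ 2 * exp (m + o ^ 2 / 2) := by
  have h := cosh_le_exp_half_sq o
  rw [cosh_eq] at h
  rw [exp_add, exp_add, sub_eq_add_neg, exp_add]
  nlinarith [exp_pos m]

theorem cosh_add_le (x m : ℝ) : cosh (x + m) ≤ exp |m| * cosh x := by
  have h1 : exp m ≤ exp |m| := exp_le_exp.2 (le_abs_self m)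
  have h2 : exp (-m) ≤ exp |m| := exp_le_exp.2 (neg_le_abs m)
  rw [cosh_eq, cosh_eq, neg_add, exp_add, exp_add]
  nlinarith [exp_pos x, exp_pos (-x)]

theorem cosh_two (x m o : ℝ) :
    cosh (x + (m + o)) + cosh (x + (m - o)) ≤ 2 * exp (|m| + o ^ 2 / 2) * cosh x := by
  have e : cosh (x + (m + o)) + cosh (x + (m - o)) = 2 * cosh (x + m) * cosh o := by
    rw [← add_assoc, ← add_sub_assoc, cosh_add (x + m), cosh_sub (x + m)]; ring
  rw [e, exp_add]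
  have h1 := cosh_add_le x m
  have h2 := cosh_le_exp_half_sq o
  have h3 := mul_le_mul h1 h2 (cosh_pos o).le (by positivity)
  nlinarith

/-- the potential of a complex monitor -/
noncomputable def pot (l : ℝ) (z : ℂ) : ℝ := cosh (l * z.re) + cosh (l * z.im)

theorem pot_zero (l : ℝ) : pot l 0 = 2 := by simp [pot]; norm_num

theorem pot_pos (l : ℝ) (z : ℂ) : 0 < pot l z := add_pos (cosh_pos _) (cosh_pos _)

theorem pot_two {l μ ο : ℝ} (hl : 0 ≤ l) (z p q : ℂ) (hm : ‖p + q‖ ≤ 2 * μ)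
    (ho : ‖p - q‖ ≤ 2 * ο) :
    pot l (z + p) + pot l (z + q) ≤ 2 * exp (l * μ + (l * ο) ^ 2 / 2) * pot l z := by
  have key : ∀ x a b : ℝ, |a + b| ≤ 2 * μ → |a - b| ≤ 2 * ο →
      cosh (l * (x + a)) + cosh (l * (x + b)) ≤
        2 * exp (l * μ + (l * ο) ^ 2 / 2) * cosh (l * x) := fun x a b h1 h2 => by
    have h := cosh_two (l * x) (l * ((a + b) / 2)) (l * ((a - b) / 2))
    rw [show l * x + (l * ((a + b) / 2) + l * ((a - b) / 2)) = l * (x + a) by ring,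
      show l * x + (l * ((a + b) / 2) - l * ((a - b) / 2)) = l * (x + b) by ring] at h
    refine h.trans (mul_le_mul_of_nonneg_right (mul_le_mul_of_nonneg_left (exp_le_exp.2 ?_)
      zero_le_two) (cosh_pos _).le)
    have a1 : |l * ((a + b) / 2)| ≤ l * μ := by
      rw [abs_mul, abs_of_nonneg hl, abs_div, abs_two]
      exact mul_le_mul_of_nonneg_left (by linarith) hl
    have a2 : |l * ((a - b) / 2)| ≤ l * ο := by
      rw [abs_mul, abs_of_nonneg hl, abs_div, abs_two]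
      exact mul_le_mul_of_nonneg_left (by linarith) hl
    have a3 := pow_le_pow_left₀ (abs_nonneg _) a2 2
    rw [sq_abs] at a3
    linarith
  have h1 := key z.re p.re q.re ((Complex.abs_re_le_norm (p + q)).trans hm)
    ((Complex.abs_re_le_norm (p - q)).trans ho)
  have h2 := key z.im p.im q.im ((Complex.abs_im_le_norm (p + q)).trans hm)
    ((Complex.abs_im_le_norm (p - q)).trans ho)
  simp only [pot, Complex.add_re, Complex.add_im]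
  linarith

theorem pot_inv {l b : ℝ} (hl : 0 < l) {z : ℂ} (h : 2 * pot l z ≤ exp b) : ‖z‖ ≤ 2 * b / l := by
  have key : ∀ x : ℝ, 2 * cosh (l * x) ≤ exp b → |x| ≤ b / l := fun x hx => by
    rw [← cosh_abs, cosh_eq] at hx
    have h1 : |l * x| ≤ b := exp_le_exp.1 (by linarith [exp_pos (-|l * x|)])
    rw [abs_mul, abs_of_pos hl] at h1
    rw [le_div_iff₀ hl]; linarith
  have h1 := key z.re (by have := cosh_pos (l * z.im); simp only [pot] at h; linarith)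
  have h2 := key z.im (by have := cosh_pos (l * z.re); simp only [pot] at h; linarith)
  have := Complex.norm_le_abs_re_add_abs_im z
  rw [mul_div_assoc]; linarith

/-- one sided real monitor: both new values are below `x + L ± + Q` -/
theorem exp_two' {l μ ο Q x y z a b : ℝ} (hl : 0 ≤ l) (hy : y ≤ x + a + Q) (hz : z ≤ x + b + Q)
    (hm : a + b ≤ 2 * μ) (ho : |a - b| ≤ 2 * ο) :
    exp (l * y) + exp (l * z) ≤ 2 * exp (l * (μ + Q) + (l * ο) ^ 2 / 2) * exp (l * x) := by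
  have h := exp_two (l * (x + Q + (a + b) / 2)) (l * ((a - b) / 2))
  have a2 : |l * ((a - b) / 2)| ≤ l * ο := by
    rw [abs_mul, abs_of_nonneg hl, abs_div, abs_two]
    exact mul_le_mul_of_nonneg_left (by linarith) hl
  have a3 := pow_le_pow_left₀ (abs_nonneg _) a2 2
  rw [sq_abs] at a3
  have b1 : exp (l * y) ≤ exp (l * (x + Q + (a + b) / 2) + l * ((a - b) / 2)) :=
    exp_le_exp.2 (by nlinarith [mul_le_mul_of_nonneg_left hy hl])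
  have b2 : exp (l * z) ≤ exp (l * (x + Q + (a + b) / 2) - l * ((a - b) / 2)) :=
    exp_le_exp.2 (by nlinarith [mul_le_mul_of_nonneg_left hz hl])
  have b3 : exp (l * (x + Q + (a + b) / 2) + (l * ((a - b) / 2)) ^ 2 / 2) ≤
      exp (l * (μ + Q) + (l * ο) ^ 2 / 2) * exp (l * x) := by
    rw [← exp_add]
    exact exp_le_exp.2 (by nlinarith [mul_le_mul_of_nonneg_left hm hl])
  linarith

/-- the part of the change of a fourth power that is linear in `s` -/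
noncomputable def lin4 (α β s : ℂ) : ℝ := -4 * ‖α‖ ^ 2 * ((starRingEnd ℂ) α * (s * β)).re

theorem pow4_le (α β s : ℂ) : ‖α - s * β‖ ^ 4 ≤ ‖α‖ ^ 4 + lin4 α β s +
    (5 * ‖s‖ ^ 2 * (‖α‖ ^ 4 + ‖β‖ ^ 4) + 2 * ‖s‖ ^ 4 * ‖β‖ ^ 4) := by
  set w := s * β with hw
  set r := ((starRingEnd ℂ) α * w).re with hr
  have e1 : ‖α - w‖ ^ 2 = ‖α‖ ^ 2 - 2 * r + ‖w‖ ^ 2 := by
    simp only [hr, Complex.sq_norm, Complex.normSq_apply, Complex.sub_re, Complex.sub_im,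
      Complex.mul_re, Complex.conj_re, Complex.conj_im]; ring
  have e2 : |r| ≤ ‖α‖ * ‖w‖ := by
    have := Complex.abs_re_le_norm ((starRingEnd ℂ) α * w)
    rwa [norm_mul, Complex.norm_conj] at this
  have e3 : r ^ 2 ≤ ‖α‖ ^ 2 * ‖w‖ ^ 2 := by
    have := pow_le_pow_left₀ (abs_nonneg _) e2 2
    rwa [sq_abs, mul_pow] at this
  have e4 : ‖w‖ ^ 2 = ‖s‖ ^ 2 * ‖β‖ ^ 2 := by rw [hw, norm_mul, mul_pow]
  have e5 : ‖α - w‖ ^ 4 = (‖α - w‖ ^ 2) ^ 2 := by ring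
  have e6 : 2 * (‖α‖ ^ 2 * ‖β‖ ^ 2) ≤ ‖α‖ ^ 4 + ‖β‖ ^ 4 := by
    nlinarith [sq_nonneg (‖α‖ ^ 2 - ‖β‖ ^ 2)]
  have e7 := mul_le_mul_of_nonneg_left e6 (sq_nonneg ‖s‖)
  have e8 : ‖s‖ ^ 4 * ‖β‖ ^ 4 = (‖w‖ ^ 2) ^ 2 := by rw [e4]; ring
  have e9 : ‖s‖ ^ 2 * (2 * (‖α‖ ^ 2 * ‖β‖ ^ 2)) = 2 * (‖α‖ ^ 2 * ‖w‖ ^ 2) := by rw [e4]; ring
  have e0 : ‖α‖ ^ 4 = (‖α‖ ^ 2) ^ 2 := by ring
  rw [e5, e1, lin4, ← hw, ← hr, mul_assoc 2, e8]
  rw [e9] at e7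
  nlinarith [sq_nonneg (2 * r + ‖w‖ ^ 2)]

theorem lin4_add (α β s t : ℂ) : lin4 α β s + lin4 α β t = lin4 α β (s + t) := by
  simp only [lin4, add_mul, mul_add, Complex.add_re]

theorem lin4_sub (α β s t : ℂ) : lin4 α β s - lin4 α β t = lin4 α β (s - t) := by
  simp only [lin4, sub_mul, mul_sub, Complex.sub_re]

theorem lin4_le (α β s : ℂ) : |lin4 α β s| ≤ ‖s‖ * (3 * ‖α‖ ^ 4 + ‖β‖ ^ 4) := by
  have e2 : |((starRingEnd ℂ) α * (s * β)).re| ≤ ‖α‖ * (‖s‖ * ‖β‖) := by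
    have := Complex.abs_re_le_norm ((starRingEnd ℂ) α * (s * β))
    rwa [norm_mul, Complex.norm_conj, norm_mul] at this
  have e3 : 4 * ‖α‖ ^ 3 * ‖β‖ ≤ 3 * ‖α‖ ^ 4 + ‖β‖ ^ 4 := by
    nlinarith [mul_nonneg (sq_nonneg (‖α‖ - ‖β‖)) (add_nonneg (mul_nonneg zero_le_two
      (sq_nonneg ‖α‖)) (sq_nonneg (‖α‖ + ‖β‖)))]
  rw [lin4, abs_mul, abs_mul, abs_neg, abs_of_nonneg (sq_nonneg ‖α‖), abs_of_pos four_pos]
  calc 4 * ‖α‖ ^ 2 * |((starRingEnd ℂ) α * (s * β)).re|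
      ≤ 4 * ‖α‖ ^ 2 * (‖α‖ * (‖s‖ * ‖β‖)) := by gcongr
    _ = ‖s‖ * (4 * ‖α‖ ^ 3 * ‖β‖) := by ring
    _ ≤ _ := by gcongr

/-- two point step of the monitor of a fourth power row sum -/
theorem l4_two {ι : Type} {S S' : Finset ι} (hS : S' ⊆ S) (α β : ι → ℂ) (s t : ℂ)
    {l n μ ο : ℝ} (hl : 0 ≤ l) (hα : ∑ y ∈ S', ‖α y‖ ^ 4 ≤ n) (hβ : ∑ y ∈ S', ‖β y‖ ^ 4 ≤ n)
    (hs : ‖s‖ ≤ ο) (ht : ‖t‖ ≤ ο) (h1 : ο ≤ 1) (hm : ‖s + t‖ ≤ 2 * μ) :
    exp (l * ∑ y ∈ S', ‖α y - s * β y‖ ^ 4) + exp (l * ∑ y ∈ S', ‖α y - t * β y‖ ^ 4) ≤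
      2 * exp (l * (4 * μ * n + 12 * ο ^ 2 * n) + (l * (4 * ο * n)) ^ 2 / 2) *
        exp (l * ∑ y ∈ S, ‖α y‖ ^ 4) := by
  have n0 : 0 ≤ n := (sum_nonneg fun _ _ => by positivity).trans hα
  have o0 : 0 ≤ ο := (norm_nonneg _).trans hs
  have k1 : ∀ r : ℂ, |∑ y ∈ S', lin4 (α y) (β y) r| ≤ ‖r‖ * (4 * n) := fun r => by
    refine (abs_sum_le_sum_abs _ _).trans ((sum_le_sum fun y _ => lin4_le _ _ r).trans ?_)
    rw [← mul_sum, sum_add_distrib, ← mul_sum]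
    exact mul_le_mul_of_nonneg_left (by linarith) (norm_nonneg _)
  have k2 : ∀ r : ℂ, ‖r‖ ≤ ο → ∑ y ∈ S', ‖α y - r * β y‖ ^ 4 ≤ ∑ y ∈ S, ‖α y‖ ^ 4 +
      ∑ y ∈ S', lin4 (α y) (β y) r + 12 * ο ^ 2 * n := fun r hr => by
    refine (sum_le_sum fun y _ => pow4_le _ _ r).trans ?_
    rw [sum_add_distrib, sum_add_distrib, sum_add_distrib, ← mul_sum, ← mul_sum, sum_add_distrib]
    have c1 : ∑ y ∈ S', ‖α y‖ ^ 4 ≤ ∑ y ∈ S, ‖α y‖ ^ 4 :=
      sum_le_sum_of_subset_of_nonneg hS fun _ _ _ => by positivity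
    have c2 : ‖r‖ ^ 2 ≤ ο ^ 2 := by gcongr
    have c3 : ‖r‖ ^ 4 ≤ ο ^ 2 := by
      have : ‖r‖ ^ 2 ≤ 1 := pow_le_one₀ (norm_nonneg _) (hr.trans h1)
      nlinarith [sq_nonneg ‖r‖]
    have c4 : 5 * ‖r‖ ^ 2 * (∑ y ∈ S', ‖α y‖ ^ 4 + ∑ y ∈ S', ‖β y‖ ^ 4) ≤ 5 * ο ^ 2 * (n + n) := by
      gcongr
    have c5 : 2 * ‖r‖ ^ 4 * ∑ y ∈ S', ‖β y‖ ^ 4 ≤ 2 * ο ^ 2 * n := by gcongr
    linarith
  refine exp_two' hl (k2 s hs) (k2 t ht) ?_ ?_
  · rw [← sum_add_distrib]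
    simp only [lin4_add]
    have := mul_le_mul_of_nonneg_right hm (by positivity : 0 ≤ 4 * n)
    linarith [(le_abs_self _).trans (k1 (s + t))]
  · rw [← sum_sub_distrib]
    simp only [lin4_sub]
    have := mul_le_mul_of_nonneg_right ((norm_sub_le s t).trans (add_le_add hs ht))
      (by positivity : 0 ≤ 4 * n)
    linarith [k1 (s - t)]

/-- the gap between two depths -/
def gap (i j : ℕ) : ℕ := (i - j + (j - i)) - 1

theorem gap_comm (i j : ℕ) : gap i j = gap j i := by unfold gap; omega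

theorem gap_self (i : ℕ) : gap i i = 0 := by unfold gap; omega

theorem gap_tri (i j k : ℕ) : gap i k ≤ gap i j + gap j k + 1 := by unfold gap; omega

theorem pow_gap {q : ℝ} (h0 : 0 < q) (h1 : q ≤ 1) (i j k : ℕ) :
    q ^ gap i j * q ^ gap j k ≤ q ^ gap i k / q := by
  rw [le_div_iff₀ h0, ← pow_add, ← pow_succ]
  exact pow_le_pow_of_le_one h0.le h1 (gap_tri i j k)

end Pool.Agent.P.MP_d0f69c_mp.XS
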