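import Pool.Agent.P.MP_d0f69c_mp.XS.HGr
import Pool.Agent.P.MP_d0f69c_mp.XS.HFs

/-! Changes of the forms under a rank one update and under a general small update. -/

namespace Pool.Agent.P.MP_d0f69c_mp.XS

open Finset Matrix Complex
open scoped ComplexConjugate

variable {ι : Type} [Fintype ι] [DecidableEq ι] {η : ℝ} {H : Matrix ι ι ℝ} {W : ι → ℂ}

theorem norm_sub_sq' (a b : ℂ) : ‖a - b‖ ^ 2 = ‖a‖ ^ 2 - 2 * (conj a * b).re + ‖b‖ ^ 2 := by
  simp only [Complex.sq_norm, normSq_apply, sub_re, sub_im, mul_re, conj_re, conj_im]; ring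

omit [Fintype ι] [DecidableEq ι] in
theorem En_lin {S : Finset ι} {k : ι → ι → ℝ} (hs : ∀ x y, k x y = k y x) (f : ι → ℝ) (c : ℝ) :
    En S k f = ∑ x ∈ S, (f x - c) ^ 2 * ∑ y ∈ S, k x y -
      ∑ x ∈ S, ∑ y ∈ S, (f x - c) * k x y * (f y - c) := by
  have e : ∀ x y, k x y * (f x - f y) ^ 2 = (f x - c) ^ 2 * k x y + (f y - c) ^ 2 * k y x -
      2 * ((f x - c) * k x y * (f y - c)) := fun x y => by rw [hs y x]; ring
  simp only [En, e, sum_sub_distrib, sum_add_distrib, ← mul_sum]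
  rw [sum_comm (f := fun x y => (f y - c) ^ 2 * k y x)]
  simp only [← mul_sum]
  ring

/-- the partial Ward sum -/
theorem GOK.ward3 (h : GOK η H W) (η1 : η ≤ 1 / 2) {S F : Finset ι} {v : ι}
    (hO : ∀ y, y ∉ S → y ∉ F → aw η W y = 0) (hd : Disjoint S F) (hv : v ∈ S)
    (av : aw η W v ≤ 2) (gv : ‖NW.GG H W v v‖ ≤ 1) (x : ι) :
    ‖∑ y ∈ S.erase v, (aw η W y : ℂ) * conj (NW.GG H W x y) * NW.GG H W y v‖ ≤
      2 * ‖NW.GG H W x v‖ / η + ∑ y ∈ F, aw η W y * ‖NW.GG H W x y‖ * ‖NW.GG H W y v‖ := by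
  set u : ι → ℂ := fun y => (aw η W y : ℂ) * conj (NW.GG H W x y) * NW.GG H W y v with hu
  have n : ∀ y, ‖u y‖ = aw η W y * ‖NW.GG H W x y‖ * ‖NW.GG H W y v‖ := fun y => by
    rw [hu, norm_mul, norm_mul, norm_conj, norm_real, Real.norm_of_nonneg (h.a0 y)]
  have e : ∑ y ∈ S.erase v, u y = ∑ y, u y - u v - ∑ y ∈ F, u y := by
    rw [← sum_subset (subset_univ (S ∪ F)) fun y _ hy => by
      rw [mem_union, not_or] at hy; simp [hu, hO y hy.1 hy.2], sum_union hd,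
      ← add_sum_erase _ _ hv]
    ring
  have η0 := h.η0
  have h1 : ‖∑ y, u y‖ ≤ ‖NW.GG H W x v‖ / η := by
    rw [le_div_iff₀ η0, mul_comm]; exact h.ward2 x v
  have h2 : ‖u v‖ ≤ ‖NW.GG H W x v‖ / η := by
    rw [n, le_div_iff₀ η0]
    have := mul_le_mul (mul_le_mul av gv (norm_nonneg _) zero_le_two) η1 η0.le (by norm_num)
    nlinarith [mul_le_mul_of_nonneg_left this (norm_nonneg (NW.GG H W x v))]
  have h3 : ‖∑ y ∈ F, u y‖ ≤ ∑ y ∈ F, aw η W y * ‖NW.GG H W x y‖ * ‖NW.GG H W y v‖ :=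
    (norm_sum_le _ _).trans (le_of_eq (sum_congr rfl fun y _ => n y))
  rw [e, mul_div_assoc]
  linarith [norm_sub_le (∑ y, u y - u v) (∑ y ∈ F, u y), norm_sub_le (∑ y, u y) (u v)]

theorem GOK.chg1 (h : GOK η H W) (η1 : η ≤ 1 / 2) {S F : Finset ι} {v : ι}
    (hO : ∀ y, y ∉ S → y ∉ F → aw η W y = 0) (hd : Disjoint S F) (hv : v ∈ S)
    (a2 : ∀ x ∈ S, aw η W x ≤ 2) (gv : ‖NW.GG H W v v‖ ≤ 1) {t : ℂ} (ht : ‖t‖ ≤ 2)
    {K' : ι → ι → ℝ} (hK : ∀ x ∈ S.erase v, ∀ y ∈ S.erase v, K' x y = aw η W x * aw η W y *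
      ‖NW.GG H W x y - t * (NW.GG H W x v * NW.GG H W v y)‖ ^ 2) (f : ι → ℝ) (c : ℝ) :
    |En (S.erase v) K' f - En (S.erase v) (Kk η W (NW.GG H W)) f| ≤
      ∑ x ∈ S.erase v, (40 * ‖NW.GG H W x v‖ ^ 2 / η + 8 * ‖NW.GG H W x v‖ *
        ∑ y ∈ F, aw η W y * ‖NW.GG H W x y‖ * ‖NW.GG H W y v‖) * (f x - c) ^ 2 := by
  set G := NW.GG H W with hG
  set a := aw η W with ha
  have η0 := h.η0
  have sy : ∀ x y, G x y = G y x := h.sym
  have a0 : ∀ x, 0 ≤ a x := h.a0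
  set k1 : ι → ι → ℝ := fun x y => a x * a y * (conj (G x y) * (t * (G x v * G y v))).re with hk1
  set k2 : ι → ι → ℝ := fun x y => a x * a y * ‖t * (G x v * G y v)‖ ^ 2 with hk2
  have e0 : En (S.erase v) K' f - En (S.erase v) (Kk η W G) f =
      En (S.erase v) k2 f - 2 * En (S.erase v) k1 f := by
    have : ∀ x ∈ S.erase v, ∀ y ∈ S.erase v, K' x y * (f x - f y) ^ 2 =
        Kk η W G x y * (f x - f y) ^ 2 + k2 x y * (f x - f y) ^ 2 -
          2 * (k1 x y * (f x - f y) ^ 2) := fun x hx y hy => by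
      rw [hK x hx y hy, norm_sub_sq', sy v y, Kk]; ring
    unfold En
    rw [sum_congr rfl fun x hx => sum_congr rfl (this x hx)]
    simp only [sum_sub_distrib, sum_add_distrib, ← mul_sum]
    ring
  have X1 : ∑ y ∈ S.erase v, a y * ‖G y v‖ ^ 2 ≤ 1 / η := by
    rw [le_div_iff₀ η0, mul_comm]
    simp only [sy _ v]
    exact (h.row_le v _).trans gv
  have b2 := En_chg_le (S := S.erase v) (K := fun _ _ => 0) (K' := k2) (d := k2)
    (fun x y => by simp only [hk2, mul_comm]) (fun x _ y _ => by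
      rw [sub_zero, abs_of_nonneg (mul_nonneg (mul_nonneg (a0 x) (a0 y)) (sq_nonneg _))]) f c
  have b2' : ∀ x ∈ S.erase v, 2 * ∑ y ∈ S.erase v, k2 x y ≤ 16 * ‖G x v‖ ^ 2 / η := fun x hx => by
    have : ∑ y ∈ S.erase v, k2 x y = a x * ‖t‖ ^ 2 * ‖G x v‖ ^ 2 *
        ∑ y ∈ S.erase v, a y * ‖G y v‖ ^ 2 := by
      rw [mul_sum]
      exact sum_congr rfl fun y _ => by simp only [hk2, norm_mul]; ring
    rw [this]
    have := a2 x (mem_of_mem_erase hx)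
    have := a0 x
    have := sum_nonneg fun y (_ : y ∈ S.erase v) => mul_nonneg (a0 y) (sq_nonneg ‖G y v‖)
    calc _ ≤ 2 * (2 * 2 ^ 2 * ‖G x v‖ ^ 2 * (1 / η)) := by gcongr
      _ = _ := by ring
  have b1 : ∀ x ∈ S.erase v, |∑ y ∈ S.erase v, k1 x y| ≤ 8 * ‖G x v‖ ^ 2 / η +
      4 * ‖G x v‖ * ∑ y ∈ F, a y * ‖G x y‖ * ‖G y v‖ := fun x hx => by
    have : ∑ y ∈ S.erase v, k1 x y =
        (a x * t * G x v * ∑ y ∈ S.erase v, (a y : ℂ) * conj (G x y) * G y v).re := by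
      rw [mul_sum, re_sum]
      refine sum_congr rfl fun y _ => ?_
      rw [hk1]
      simp only
      rw [← re_ofReal_mul]
      congr 1
      push_cast; ring
    rw [this]
    refine (abs_re_le_norm _).trans ?_
    rw [norm_mul, norm_mul, norm_mul, norm_real, Real.norm_of_nonneg (a0 x)]
    have := a2 x (mem_of_mem_erase hx)
    have := h.ward3 η1 hO hd hv (a2 v hv) gv x
    calc _ ≤ 2 * 2 * ‖G x v‖ * (2 * ‖G x v‖ / η + ∑ y ∈ F, a y * ‖G x y‖ * ‖G y v‖) := by gcongr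
      _ = _ := by ring
  have b3 : |∑ x ∈ S.erase v, ∑ y ∈ S.erase v, (f x - c) * k1 x y * (f y - c)| ≤
      ∑ x ∈ S.erase v, 4 * ‖G x v‖ ^ 2 / η * (f x - c) ^ 2 := by
    set w : ι → ℂ := fun x => if x ∈ S.erase v then
      ((f x - c) * √(a x) : ℝ) * conj (G x v) else 0 with hw
    have h1 := h.bilw w w
    have e : ∑ x ∈ S.erase v, ∑ y ∈ S.erase v, (f x - c) * k1 x y * (f y - c) =
        (t * conj (∑ x, ∑ y, w x * (√(a x) : ℝ) * G x y * (√(a y) : ℝ) * w y)).re := by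
      rw [← sum_subset (subset_univ (S.erase v)) fun x _ hx => by simp only [hw, if_neg hx]; simp,
        map_sum, mul_sum, re_sum]
      refine sum_congr rfl fun x hx => ?_
      rw [← sum_subset (subset_univ (S.erase v)) fun y _ hy => by simp only [hw, if_neg hy]; simp,
        map_sum, mul_sum, re_sum]
      refine sum_congr rfl fun y hy => ?_
      have s : ∀ z, ((a z : ℝ) : ℂ) = (√(a z) : ℝ) * (√(a z) : ℝ) := fun z => by
        rw [← ofReal_mul, Real.mul_self_sqrt (a0 z)]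
      rw [hk1, hw]
      simp only [if_pos hx, if_pos hy, map_mul, conj_ofReal, conj_conj]
      rw [mul_right_comm, ← mul_assoc, ← re_ofReal_mul]
      congr 1
      push_cast
      rw [s x, s y]; ring
    have n : nq w ≤ ∑ x ∈ S.erase v, 2 * ‖G x v‖ ^ 2 * (f x - c) ^ 2 := by
      rw [nq, ← sum_subset (subset_univ (S.erase v)) fun x _ hx => by simp only [hw, if_neg hx]; simp]
      refine sum_le_sum fun x hx => ?_
      simp only [hw, if_pos hx]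
      rw [norm_mul, norm_conj, norm_real, mul_pow, Real.norm_eq_abs, sq_abs, mul_pow,
        Real.sq_sqrt (a0 x)]
      nlinarith [mul_le_mul_of_nonneg_right (a2 x (mem_of_mem_erase hx))
        (mul_nonneg (sq_nonneg (f x - c)) (sq_nonneg ‖G x v‖))]
    rw [e]
    refine (abs_re_le_norm _).trans ?_
    rw [norm_mul, norm_conj]
    have e2 : ∑ x ∈ S.erase v, 4 * ‖G x v‖ ^ 2 / η * (f x - c) ^ 2 =
        2 * ((∑ x ∈ S.erase v, 2 * ‖G x v‖ ^ 2 * (f x - c) ^ 2) / η) := by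
      rw [sum_div, mul_sum]
      exact sum_congr rfl fun x _ => by ring
    rw [e2]
    refine mul_le_mul ht ?_ (norm_nonneg _) zero_le_two
    rw [le_div_iff₀ η0]; linarith
  have b4 : |∑ x ∈ S.erase v, (f x - c) ^ 2 * ∑ y ∈ S.erase v, k1 x y| ≤
      ∑ x ∈ S.erase v, (8 * ‖G x v‖ ^ 2 / η +
        4 * ‖G x v‖ * ∑ y ∈ F, a y * ‖G x y‖ * ‖G y v‖) * (f x - c) ^ 2 :=
    (abs_sum_le_sum_abs _ _).trans (sum_le_sum fun x hx => by
      rw [abs_mul, abs_of_nonneg (sq_nonneg _), mul_comm]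
      exact mul_le_mul_of_nonneg_right (b1 x hx) (sq_nonneg _))
  have b5 := b2.trans (sum_le_sum fun x hx => mul_le_mul_of_nonneg_right (b2' x hx) (sq_nonneg _))
  have z : En (S.erase v) (fun _ _ => (0 : ℝ)) f = 0 := by simp [En]
  rw [z, sub_zero] at b5
  rw [e0, En_lin (k := k1) (fun x y => by simp only [hk1, sy x y, mul_comm]) f c]
  have e3 : ∑ x ∈ S.erase v, (40 * ‖G x v‖ ^ 2 / η + 8 * ‖G x v‖ *
      ∑ y ∈ F, a y * ‖G x y‖ * ‖G y v‖) * (f x - c) ^ 2 =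
      ∑ x ∈ S.erase v, 16 * ‖G x v‖ ^ 2 / η * (f x - c) ^ 2 + 2 * (∑ x ∈ S.erase v,
        (8 * ‖G x v‖ ^ 2 / η + 4 * ‖G x v‖ * ∑ y ∈ F, a y * ‖G x y‖ * ‖G y v‖) * (f x - c) ^ 2 +
        ∑ x ∈ S.erase v, 4 * ‖G x v‖ ^ 2 / η * (f x - c) ^ 2) := by
    rw [← sum_add_distrib, mul_sum, ← sum_add_distrib]
    exact sum_congr rfl fun x _ => by ring
  rw [e3, abs_le] at *
  constructor <;> linarith [b3.1, b3.2, b4.1, b4.2, b5.1, b5.2]

omit [Fintype ι] [DecidableEq ι] in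
theorem Bil.rank {S : Finset ι} (g : ι → ℂ) {X : ℝ} (hX : ∑ x ∈ S, ‖g x‖ ^ 2 ≤ X) :
    Bil S (fun x y => g x ^ 2 * g y ^ 2) fun x => X * ‖g x‖ ^ 2 / 2 := fun u w => by
  have cs : ∀ z : ι → ℂ, ‖∑ x ∈ S, z x * g x ^ 2‖ ^ 2 ≤ X * ∑ x ∈ S, ‖g x‖ ^ 2 * ‖z x‖ ^ 2 :=
    fun z => by
    have h1 : ‖∑ x ∈ S, z x * g x ^ 2‖ ≤ ∑ x ∈ S, ‖g x‖ * (‖g x‖ * ‖z x‖) :=
      (norm_sum_le _ _).trans (le_of_eq (sum_congr rfl fun x _ => by rw [norm_mul, norm_pow]; ring))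
    refine (pow_le_pow_left₀ (norm_nonneg _) h1 2).trans ((sum_mul_sq_le_sq_mul_sq _ _ _).trans ?_)
    simp only [mul_pow]
    exact mul_le_mul_of_nonneg_right hX (sum_nonneg fun _ _ => by positivity)
  have e : ∑ x ∈ S, ∑ y ∈ S, w x * (g x ^ 2 * g y ^ 2) * u y =
      (∑ x ∈ S, w x * g x ^ 2) * ∑ y ∈ S, u y * g y ^ 2 := by
    rw [sum_mul_sum]
    exact sum_congr rfl fun x _ => sum_congr rfl fun y _ => by ring
  have e2 : ∑ x ∈ S, X * ‖g x‖ ^ 2 / 2 * (‖u x‖ ^ 2 + ‖w x‖ ^ 2) =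
      (X * ∑ x ∈ S, ‖g x‖ ^ 2 * ‖u x‖ ^ 2 + X * ∑ x ∈ S, ‖g x‖ ^ 2 * ‖w x‖ ^ 2) / 2 := by
    rw [mul_sum, mul_sum, ← sum_add_distrib, sum_div]
    exact sum_congr rfl fun x _ => by ring
  rw [e, e2, norm_mul]
  nlinarith [cs u, cs w, sq_nonneg (‖∑ x ∈ S, w x * g x ^ 2‖ - ‖∑ y ∈ S, u y * g y ^ 2‖)]

omit [Fintype ι] [DecidableEq ι] in
theorem Bil.scale {S : Finset ι} {D : ι → ι → ℂ} {k : ι → ℝ} (h : Bil S D k) (g : ι → ℂ) {t : ℂ}
    {r : ℝ} (ht : ‖t‖ ≤ r) :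
    Bil S (fun x y => t * (g x * D x y * g y)) fun x => r * (k x * ‖g x‖ ^ 2) := fun u w => by
  have h1 := h (fun x => g x * u x) fun x => w x * g x
  have e : ∑ x ∈ S, ∑ y ∈ S, w x * (t * (g x * D x y * g y)) * u y =
      t * ∑ x ∈ S, ∑ y ∈ S, w x * g x * D x y * (g y * u y) := by
    simp only [mul_sum]
    exact sum_congr rfl fun x _ => sum_congr rfl fun y _ => by ring
  rw [e, norm_mul]
  refine (mul_le_mul ht h1 (norm_nonneg _) ((norm_nonneg _).trans ht)).trans (le_of_eq ?_)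
  rw [mul_sum]
  exact sum_congr rfl fun x _ => by simp only [norm_mul]; ring

theorem GOK.bil1 (h : GOK η H W) {S : Finset ι} {v : ι} (a1 : ∀ x ∈ S, 1 / 2 ≤ aw η W x)
    (gv : ‖NW.GG H W v v‖ ≤ 1) {t : ℂ} (ht : ‖t‖ ≤ 2) {W' : ι → ℂ} {G' : Matrix ι ι ℂ}
    (hW : ∀ x ∈ S, W' x = W x) (hG : ∀ x ∈ S, ∀ y ∈ S,
      G' x y = NW.GG H W x y - t * (NW.GG H W x v * NW.GG H W v y)) :
    Bil S (fun x y => Am W' G' x y - Am W (NW.GG H W) x y)
      fun x => 16 * ‖NW.GG H W x v‖ ^ 2 / η := by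
  set G := NW.GG H W with hG0
  have η0 := h.η0
  have sy : ∀ x y, G x y = G y x := h.sym
  have X1 : ∑ y ∈ S, ‖G y v‖ ^ 2 ≤ 2 / η := by
    have h1 := (h.row_le v S).trans gv
    have h2 : ∑ y ∈ S, ‖G y v‖ ^ 2 ≤ 2 * ∑ y ∈ S, aw η W y * ‖G v y‖ ^ 2 := by
      rw [mul_sum]
      exact sum_le_sum fun y hy => by rw [sy y v]; nlinarith [a1 y hy, sq_nonneg ‖G v y‖]
    rw [le_div_iff₀ η0]; nlinarith
  have b1 := (h.bil a1).scale (fun x => G x v) (t := 2 * t) (r := 4)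
    (by rw [norm_mul, Complex.norm_two]; linarith)
  have b2 := (Bil.rank (fun x => G x v) X1).scale (fun _ => 1) (t := -t ^ 2) (r := 4)
    (by rw [norm_neg, norm_pow]; nlinarith [norm_nonneg t])
  have b3 := Bil.schur (S := S) (D := fun x y => if x = y then
      -(2 * t * (G x v * G x x * G x v) + -t ^ 2 * (G x v ^ 2 * G x v ^ 2)) else 0)
    (d := fun x y => if x = y then 16 * ‖G x v‖ ^ 2 / η else 0)
    (fun x y => by by_cases e : x = y <;> simp [e, eq_comm]) fun x hx y _ => by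
      split_ifs
      · have c1 := h.diag_le (a1 x hx)
        have c2 : ‖G x v‖ ^ 2 ≤ 2 / η :=
          (single_le_sum (f := fun y => ‖G y v‖ ^ 2) (fun _ _ => sq_nonneg _) hx).trans X1
        rw [norm_neg]
        refine (norm_add_le _ _).trans ?_
        simp only [norm_mul, norm_neg, norm_pow, Complex.norm_two]
        calc _ ≤ 2 * 2 * (‖G x v‖ * (2 / η) * ‖G x v‖) + 2 ^ 2 * (‖G x v‖ ^ 2 * (2 / η)) := by
              gcongr
          _ = _ := by ring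
      · simp
  refine ((b1.add b2).add b3).congr (fun x hx y hy => ?_) fun x hx => le_of_eq ?_
  · by_cases e : x = y
    · subst e
      simp only [Am, if_true, hW x hx]; ring
    · simp only [Am, if_neg e, hG x hx y hy, sy v y]; ring
  · rw [sum_ite_eq, if_pos hx, norm_one]; ring

/-- a general small update of the Green function -/
theorem GOK.chg2 (h : GOK η H W) (η1 : η ≤ 1) {S : Finset ι}
    (a1 : ∀ x ∈ S, 1 / 2 ≤ aw η W x ∧ aw η W x ≤ 2) {W' : ι → ℂ} {G' : Matrix ι ι ℂ}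
    (hW : ∀ x ∈ S, W' x = W x) (sy' : ∀ x y, G' x y = G' y x) {ρ : ι → ℝ}
    (ρ0 : ∀ x ∈ S, 0 ≤ ρ x ∧ ρ x ≤ 1)
    (hρ : ∀ x ∈ S, ∑ y ∈ S, aw η W x * aw η W y * ‖G' x y - NW.GG H W x y‖ ^ 2 ≤ ρ x ^ 2) :
    (∀ f c, |En S (Kk η W' G') f - En S (Kk η W (NW.GG H W)) f| ≤
      ∑ x ∈ S, 10 * ρ x / η * (f x - c) ^ 2) ∧
    Bil S (fun x y => Am W' G' x y - Am W (NW.GG H W) x y) fun x => 10 * ρ x / η := by
  set G := NW.GG H W with hG0
  set a := aw η W with ha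
  have η0 := h.η0
  have sy : ∀ x y, G x y = G y x := h.sym
  have a0 : ∀ x, 0 ≤ a x := h.a0
  set d : ι → ι → ℝ := fun x y =>
    a x * a y * (2 * (‖G x y‖ * ‖G' x y - G x y‖) + ‖G' x y - G x y‖ ^ 2) with hd
  have ds : ∀ x y, d x y = d y x := fun x y => by simp only [hd, sy x y, sy' x y, mul_comm]
  have d1 : ∀ x ∈ S, ∑ y ∈ S, d x y ≤ 5 * ρ x / η := fun x hx => by
    have c1 : ∑ y ∈ S, a x * a y * ‖G x y‖ ^ 2 ≤ (2 / η) ^ 2 := by
      simp only [mul_assoc, ← mul_sum]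
      calc _ ≤ 2 * (2 / η ^ 2) := mul_le_mul (a1 x hx).2 (h.mass_le (a1 x hx).1 S)
            (sum_nonneg fun y _ => mul_nonneg (a0 y) (sq_nonneg _)) zero_le_two
        _ = _ := by ring
    have c2 := sum_sq_le_sum_mul_sum_of_sq_le_mul S
      (r := fun y => a x * a y * (‖G x y‖ * ‖G' x y - G x y‖))
      (f := fun y => a x * a y * ‖G x y‖ ^ 2) (g := fun y => a x * a y * ‖G' x y - G x y‖ ^ 2)
      (fun y _ => mul_nonneg (mul_nonneg (a0 x) (a0 y)) (sq_nonneg _))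
      (fun y _ => mul_nonneg (mul_nonneg (a0 x) (a0 y)) (sq_nonneg _))
      fun y _ => le_of_eq (by ring)
    have c3 := c2.trans (mul_le_mul c1 (hρ x hx) (sum_nonneg fun y _ =>
      mul_nonneg (mul_nonneg (a0 x) (a0 y)) (sq_nonneg _)) (sq_nonneg _))
    rw [← mul_pow] at c3
    have c4 := (abs_le_of_sq_le_sq' c3 (mul_nonneg (by positivity) (ρ0 x hx).1)).2
    have c5 : ρ x ^ 2 ≤ ρ x / η := by
      rw [le_div_iff₀ η0]
      nlinarith [mul_le_mul (ρ0 x hx).2 η1 η0.le zero_le_one, (ρ0 x hx).1]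
    simp only [hd, mul_add, sum_add_distrib, mul_left_comm _ (2 : ℝ), ← mul_sum]
    have : 5 * ρ x / η = 2 * (2 / η * ρ x) + ρ x / η := by ring
    linarith [hρ x hx]
  have n1 : ∀ x y, ‖G' x y ^ 2 - G x y ^ 2‖ ≤
      2 * (‖G x y‖ * ‖G' x y - G x y‖) + ‖G' x y - G x y‖ ^ 2 := fun x y => by
    rw [show G' x y ^ 2 - G x y ^ 2 = 2 * (G x y * (G' x y - G x y)) + (G' x y - G x y) ^ 2 by ring]
    refine (norm_add_le _ _).trans (le_of_eq ?_)
    simp only [norm_mul, norm_pow, Complex.norm_two]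
  refine ⟨fun f c => (En_chg_le ds (fun x hx y hy => ?_) f c).trans (sum_le_sum fun x hx =>
    mul_le_mul_of_nonneg_right (by linarith [d1 x hx, show 10 * ρ x / η = 2 * (5 * ρ x / η) by ring])
      (sq_nonneg _)), (Bil.schur (d := fun x y => 4 * d x y) (fun x y => by rw [ds])
        fun x hx y hy => ?_).congr (fun _ _ _ _ => rfl) fun x hx => ?_⟩
  · have e : ∀ z ∈ S, aw η W' z = a z := fun z hz => by simp only [ha, aw, hW z hz]
    rw [Kk, Kk, e x hx, e y hy, ← mul_sub, abs_mul, abs_of_nonneg (mul_nonneg (a0 x) (a0 y))]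
    refine mul_le_mul_of_nonneg_left (le_trans ?_ (n1 x y)) (mul_nonneg (a0 x) (a0 y))
    rw [← norm_pow, ← norm_pow]
    exact abs_norm_sub_norm_le _ _
  · have p : 0 ≤ 2 * (‖G x y‖ * ‖G' x y - G x y‖) + ‖G' x y - G x y‖ ^ 2 := by positivity
    have p2 : 1 / 2 * (1 / 2) ≤ a x * a y := mul_le_mul (a1 x hx).1 (a1 y hy).1 (by norm_num) (a0 x)
    have p3 := mul_le_mul_of_nonneg_right p2 p
    by_cases e : x = y
    · subst e
      simp only [Am, if_true, hW x hx, sub_self, norm_zero, hd]; linarith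
    · simp only [Am, if_neg e, hd]
      rw [neg_sub_neg, norm_sub_rev]
      linarith [n1 x y]
  · rw [← mul_sum]
    linarith [d1 x hx, show 10 * ρ x / η = 2 * (5 * ρ x / η) by ring]

end Pool.Agent.P.MP_d0f69c_mp.XS
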