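import Pool.Agent.P.MP_d0f69c_mp.XS.HQua
import Pool.Agent.P.MP_d0f69c_mp.XS.HMon
import Pool.Agent.P.MP_d0f69c_mp.XS.HStep
import Pool.Agent.P.MP_d0f69c_mp.XS.HRun

/-! The loop of one healing turn: definitions and numbers. -/

set_option linter.dupNamespace false
set_option linter.unusedSectionVars false

namespace Pool.Agent.P.MP_d0f69c_mp.XS

open Finset Real

/-- the data of a turn: `O` open, `gd` good, `F` the cluster, `B` the monitored ball, `A` the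
region of activity -/
structure TC (ι : Type) where
  η : ℝ
  e : ℝ
  P : ℝ
  K : ℕ
  H : Matrix ι ι ℝ
  W : ι → ℂ
  O : Finset ι
  gd : Finset ι
  F : Finset ι
  B : Finset ι
  A : Finset ι
  wt : ι → ι → ℝ
  ω : ι → ℝ
  Ec : (ι → ℝ) → ℝ

/-- the state of the loop: closed sites with their coins, stored vectors and amplitudes -/
structure LS (ι : Type) where
  X : Finset ι
  b : ι → Bool
  k : ℕ
  ξ : ℕ → ι → ℂ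
  amp : ℕ → ι → ℂ

variable {ι : Type} [Fintype ι] [DecidableEq ι]

/-- the initial state -/
def LS.init : LS ι := ⟨∅, fun _ => true, 0, fun _ _ => 0, fun _ _ => 0⟩

/-- close the site `v` -/
def LS.close (s : LS ι) (v : ι) (β : Bool) : LS ι :=
  { s with X := insert v s.X, b := Function.update s.b v β }

namespace TC

variable (C : TC ι)

noncomputable def Y : ℝ := exp (C.P ^ 2)
noncomputable def Z : ℝ := exp (C.P ^ 3)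
noncomputable def n : ℝ := C.P ^ 20 * (C.e ^ 200) ^ 2
noncomputable def τ : ℝ := exp (-C.P ^ 10)
noncomputable def ε : ℝ := exp (-C.P ^ 8)
/-- weight of the effects of the turn -/
noncomputable def u (x : ι) : ℝ := if x ∈ C.B then 1 else C.ε * C.ω x
/-- bound for the entries between the region of activity and `x` -/
noncomputable def ϱ (x : ι) : ℝ := if x ∈ C.B then 2 / C.η else C.τ * C.ω x
noncomputable def G0 : Matrix ι ι ℂ := NW.GG C.H C.W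
noncomputable def Ws (s : LS ι) : ι → ℂ := Wc C.W s.b s.X
noncomputable def G (s : LS ι) : Matrix ι ι ℂ := NW.GG C.H (C.Ws s)
noncomputable def gx (s : LS ι) (ξ : ι → ℂ) (x : ι) : ℂ := ∑ b ∈ C.F, C.G s x b * ξ b
/-- nodes of the network -/
def T (s : LS ι) : Finset ι := (C.O \ C.F) \ s.X
def prs (s : LS ι) : Finset (ι × ι) :=
  (((C.B ∩ C.O) \ s.X) ×ˢ ((C.B ∩ C.O) \ s.X)).filter fun p => ¬ (p.1 ∈ C.F ∧ p.2 ∈ C.F)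
noncomputable def ν (s : LS ι) (x : ι) : ℝ := ∑ y ∈ (C.gd \ s.X).erase x, ‖C.G s x y‖ ^ 4
noncomputable def ν0 (x : ι) : ℝ := ∑ y ∈ C.gd.erase x, ‖C.G0 x y‖ ^ 4
noncomputable def l1 (p : ι × ι) : ℝ := 6 * C.P ^ 3 / (C.e ^ 20 * C.wt p.1 p.2)
noncomputable def l2 : ℝ := 300 * C.P ^ 3 / C.n
noncomputable def l3 : ℝ := 24 * C.P ^ 3 / C.e ^ 69
noncomputable def cost (s : LS ι) (j : ℕ) : ℝ :=
  ∑ v ∈ s.X, 40 * (C.l3 * C.e ^ 100) ^ 2 * (‖s.amp j v‖ ^ 2 + (C.e ^ 69 / 4) ^ 2)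
noncomputable def Φ1 (s : LS ι) : ℝ :=
  ∑ p ∈ C.prs s, pot (C.l1 p) (C.G s p.1 p.2 - C.G0 p.1 p.2)
noncomputable def Φ2 (s : LS ι) : ℝ := ∑ x ∈ C.T s ∩ C.B, exp (C.l2 * (C.ν s x - C.ν0 x))
noncomputable def Φ3 (s : LS ι) (j : ℕ) : ℝ :=
  ∑ x ∈ (C.gd \ s.X) ∩ C.B, pot C.l3 (C.gx s (s.ξ j) x - s.amp j x)
/-- the potential -/
noncomputable def Φ (s : LS ι) : ℝ :=
  exp (-(C.e ^ 140 / 4 * s.X.card)) * (C.Φ1 s + C.Φ2 s) +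
    ∑ j ∈ range C.K, exp (-C.cost s j) * C.Φ3 s j
/-- no large entry between closed sites -/
def wok (s : LS ι) : Prop := ∀ z ∈ s.X, ∀ z' ∈ s.X, ‖C.G s z z'‖ ≤ C.Z ^ 12
def ok (s : LS ι) : Prop := C.Φ s ≤ C.Z ^ 2 ∧ C.wok s
def que (s : LS ι) (v : ι) : Prop := v ∈ C.gd \ s.X ∧ ∃ j < s.k, C.e ^ 138 < ‖s.amp j v‖ ^ 2
def Viol (s : LS ι) (ξ : ι → ℂ) : Prop :=
  ∑ y ∈ C.T s, aw C.η C.W y * ‖C.gx s ξ y‖ ^ 2 + (∑ b ∈ C.F, ‖ξ b‖ ^ 2) / C.Z ^ 40 ≤ 1 ∧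
    ∃ x ∈ C.T s, C.e ^ 135 < aw C.η C.W x * ‖C.gx s ξ x‖ ^ 2
/-- store the vector `ξ` -/
noncomputable def store (s : LS ι) (ξ : ι → ℂ) : LS ι :=
  { s with
    k := s.k + 1
    ξ := Function.update s.ξ s.k ξ
    amp := Function.update s.amp s.k fun y => if y ∈ C.gd \ s.X then C.gx s ξ y else 0 }
open Classical in
/-- one step of the loop -/
noncomputable def step {N : ℕ} (s : LS ι) (ϖ : Cfg ι N) : LS ι :=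
  if C.ok s then
    if h : ∃ v, C.que s v then s.close h.choose (ϖ h.choose).1
    else if h : ∃ ξ, C.Viol s ξ then C.store s h.choose else s
  else s

structure OK : Prop where
  P9 : 10 ^ 9 ≤ C.P
  e0 : 0 < C.e
  e1 : C.e ≤ C.η / C.P ^ 20
  η1 : C.η ≤ 1 / 10 ^ 8
  μ1 : exp (-C.P) ≤ C.e ^ 200
  K1 : 1 / C.e ^ 2 ≤ C.K
  K2 : C.K ≤ 2 / C.e ^ 2
  gok : ∀ X ⊆ C.gd, ∀ b, GOK C.η C.H (Wc C.W b X)
  opn : ∀ x ∈ C.O, (1 / 2 ≤ aw C.η C.W x ∧ aw C.η C.W x ≤ 2) ∧ ‖C.W x‖ ≤ 1 / 10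
  cls : ∀ x ∉ C.O, aw C.η C.W x = 0
  gO : C.gd ⊆ C.O
  gF : Disjoint C.gd C.F
  FA : C.F ⊆ C.A
  AO : C.A ⊆ C.O
  AB : C.A ⊆ C.B
  cB : (C.B.card : ℝ) ≤ C.Y
  cF : (C.F.card : ℝ) ≤ 2 / C.e
  w0 : ∀ x y, 0 < C.wt x y
  w1 : ∀ x ∉ C.F, ∀ y ∉ C.F, C.wt x y ≤ C.e ^ 100
  w2 : ∀ x ∉ C.F, ∀ b ∈ C.F, C.wt x b ≤ 2 * C.e ^ 95
  w3 : ∀ x y, ∀ v ∉ C.F, C.wt x v * C.wt v y ≤ C.e ^ 95 * C.wt x y
  w4 : ∀ x ∈ C.B ∩ C.O, x ∉ C.F → x ∉ C.gd ∩ C.A → ∀ b ∈ C.F, C.wt x b ≤ C.e ^ 95 / C.Z ^ 20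
  env : ∀ x ∈ C.B ∩ C.O, ∀ y ∈ C.B ∩ C.O, x ≠ y → ¬ (x ∈ C.F ∧ y ∈ C.F) → ‖C.G0 x y‖ ≤ C.wt x y
  mis : ∀ x ∈ C.gd ∩ C.B, ‖C.G0 x x - phi (C.W x)‖ ≤ C.e ^ 120
  l4 : ∀ x ∈ C.B ∩ C.O, x ∉ C.F → C.ν0 x ≤ C.n / 13
  amp : ∀ x ∈ C.O, ∀ y ∈ C.gd, x ≠ y → ‖C.G0 x y‖ ≤ 1
  ω0 : ∀ x, 0 ≤ C.ω x ∧ C.ω x ≤ 1
  ωs : ∑ x, C.ω x ≤ C.Y ^ 2
  far : ∀ p ∈ C.A, ∀ z ∉ C.B, ‖C.G0 p z‖ ≤ C.τ * C.ω z
  E0 : ∀ f, 0 ≤ C.Ec f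
  lock : ∀ S ⊆ C.O \ C.F, ∀ (k : ι → ℝ) (κ κ2 c : ℝ), 0 ≤ κ → 0 ≤ κ2 →
    (∀ x ∈ S ∩ C.B, 0 ≤ k x ∧ k x ≤ κ) → ∑ x ∈ S ∩ C.B ∩ C.gd, k x ^ 2 ≤ κ2 ^ 2 →
    (∀ x ∈ S, x ∉ C.B → k x ≤ C.τ * C.Z ^ 100 * C.ω x) → 4 * κ + 2 * C.e ^ 200 * κ2 ≤ c →
    C.e ^ 200 ≤ c → ∀ f : ι → ℝ, ∃ m, ∑ x ∈ S, k x * (f x - m) ^ 2 ≤ c * C.Ec f

/-- the invariant of the loop -/
structure LI (s : LS ι) : Prop where
  XA : s.X ⊆ C.gd ∩ C.A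
  Xq : ∀ v ∈ s.X, ∃ j < s.k, C.e ^ 138 < ‖s.amp j v‖ ^ 2
  as : ∀ j, ∑ y, ‖s.amp j y‖ ^ 2 ≤ 2
  af : ∀ j, ∀ y ∉ C.A, ‖s.amp j y‖ ^ 2 ≤ C.e ^ 138
  kK : s.k < C.K
  z : ∀ j, s.k ≤ j → s.ξ j = 0 ∧ s.amp j = 0
  xs : ∀ j < s.k, ∑ b ∈ C.F, ‖s.ξ j b‖ ^ 2 ≤ C.Z ^ 40
  att : ∀ j < s.k, ∃ φ : ι → ℂ, 3 * (∑ i ∈ range j, ‖∑ b ∈ C.F, φ b * s.ξ i b‖ ^ 2 +
    ∑ b ∈ C.F, ‖φ b‖ ^ 2) < ‖∑ b ∈ C.F, φ b * s.ξ j b‖ ^ 2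
  Φ2 : C.Φ s ≤ 2 * C.Z ^ 2
  cl : ∀ z ∈ s.X, ∀ z' ∈ s.X, ‖C.G s z z'‖ ≤ C.Z ^ 13
  rf : RF (C.O \ C.F) (Kk C.η C.W C.G0) (C.T s) (Kk C.η (C.Ws s) (C.G s))
    fun f => s.X.card * C.e ^ 185 * C.Ec f
  bil : Bil (C.gd \ s.X) (fun x y => Am (C.Ws s) (C.G s) x y - Am C.W C.G0 x y)
    fun x => s.X.card * C.e ^ 185 * C.u x

variable {C}

namespace OK

theorem P1 (h : C.OK) : 1 ≤ C.P := le_trans (by norm_num) h.P9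
theorem P0 (h : C.OK) : 0 < C.P := one_pos.trans_le h.P1
theorem η0 (h : C.OK) : 0 < C.η := (h.gok ∅ (empty_subset _) fun _ => true).η0
theorem eη (h : C.OK) : C.e ≤ C.η := h.e1.trans (div_le_self h.η0.le (one_le_pow₀ h.P1))
theorem ηh (h : C.OK) : C.η ≤ 1 / 2 := h.η1.trans (by norm_num)
theorem η1' (h : C.OK) : C.η ≤ 1 := h.η1.trans (by norm_num)
theorem e1' (h : C.OK) : C.e ≤ 1 := h.eη.trans h.η1'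

theorem sm (h : C.OK) {c : ℝ} (k i j : ℕ) (hc : c ≤ 10 ^ 9) (hi : i ≤ j) (hk : k + 1 ≤ 20 * j) :
    c * C.P ^ k * C.e ^ j ≤ C.η ^ i := by
  have P0 := h.P0
  have e0 := h.e0
  have a : C.e ^ j * C.P ^ (20 * j) ≤ C.η ^ j := by
    rw [pow_mul, ← mul_pow]
    exact pow_le_pow_left₀ (by positivity) ((le_div_iff₀ (by positivity)).1 h.e1) j
  calc _ ≤ C.P * C.P ^ k * C.e ^ j := by gcongr; exact hc.trans h.P9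
    _ = C.e ^ j * C.P ^ (k + 1) := by ring
    _ ≤ C.e ^ j * C.P ^ (20 * j) := by gcongr; exact h.P1
    _ ≤ _ := a.trans (pow_le_pow_of_le_one h.η0.le h.η1' hi)

/-- `c P ^ k e ^ (a + j) / η ^ i ≤ e ^ a` -/
theorem sm' (h : C.OK) {c : ℝ} (k i a j : ℕ) (hc : c ≤ 10 ^ 9) (hi : i ≤ j) (hk : k + 1 ≤ 20 * j) :
    c * C.P ^ k * C.e ^ (a + j) / C.η ^ i ≤ C.e ^ a := by
  rw [div_le_iff₀ (pow_pos h.η0 _), pow_add]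
  nlinarith [mul_le_mul_of_nonneg_left (h.sm k i j hc hi hk) (pow_pos h.e0 a).le]

theorem epow (h : C.OK) {a b : ℕ} (hab : a ≤ b) : C.e ^ b ≤ C.e ^ a :=
  pow_le_pow_of_le_one h.e0.le h.e1' hab

theorem PY (h : C.OK) : exp C.P ≤ C.Y := exp_le_exp.2 (by nlinarith [h.P1])
theorem Y9 (h : C.OK) : 10 ^ 9 ≤ C.Y := by linarith [h.PY, add_one_le_exp C.P, h.P9]
theorem Y1 (h : C.OK) : 1 ≤ C.Y := le_trans (by norm_num) h.Y9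
theorem YZ (h : C.OK) : C.Y ^ 100 ≤ C.Z := by
  rw [Y, ← exp_nat_mul]
  exact exp_le_exp.2 (by push_cast; nlinarith [h.P9, pow_pos h.P0 2])
theorem YZ' (h : C.OK) {k : ℕ} (hk : k ≤ 100) : C.Y ^ k ≤ C.Z :=
  (pow_le_pow_right₀ h.Y1 hk).trans h.YZ
theorem Z1 (h : C.OK) : 1 ≤ C.Z := by simpa using h.YZ' (k := 0) (by norm_num)
theorem Z9 (h : C.OK) : 10 ^ 9 ≤ C.Z := h.Y9.trans (by simpa using h.YZ' (k := 1) (by norm_num))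
theorem μY (h : C.OK) : 1 / C.e ^ 200 ≤ C.Y := by
  rw [div_le_iff₀ (pow_pos h.e0 _)]
  have := mul_le_mul h.PY h.μ1 (exp_pos _).le (zero_le_one.trans h.Y1)
  rwa [← exp_add, add_neg_cancel, exp_zero] at this
theorem eY (h : C.OK) {k : ℕ} (hk : k ≤ 200) : 1 / C.e ^ k ≤ C.Y :=
  (one_div_le_one_div_of_le (pow_pos h.e0 _) (h.epow hk)).trans h.μY
theorem ηY (h : C.OK) {k : ℕ} (hk : k ≤ 200) : 1 / C.η ^ k ≤ C.Y :=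
  (one_div_le_one_div_of_le (pow_pos h.e0 _) (pow_le_pow_left₀ h.e0.le h.eη k)).trans (h.eY hk)
theorem η2 (h : C.OK) : 2 / C.η ≤ C.Y := by
  refine le_trans ?_ (h.ηY (k := 2) (by norm_num))
  rw [div_le_div_iff₀ h.η0 (pow_pos h.η0 2)]
  nlinarith [h.η0, h.ηh]
theorem τ0 (C : TC ι) : 0 < C.τ := exp_pos _
theorem ε0 (C : TC ι) : 0 < C.ε := exp_pos _
theorem ε1 (h : C.OK) : C.ε ≤ 1 := exp_le_one_iff.2 (neg_nonpos.2 (pow_pos h.P0 _).le)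
theorem τZ (h : C.OK) : C.τ * C.Z ^ 100 ≤ C.ε * C.e ^ 400 := by
  have a := pow_le_pow_left₀ (exp_pos _).le h.μ1 2
  rw [← pow_mul, ← exp_nat_mul] at a
  refine le_trans ?_ (mul_le_mul_of_nonneg_left a (ε0 C).le)
  rw [τ, ε, Z, ← exp_nat_mul, ← exp_add, ← exp_add]
  have b : ∀ k ≤ 9, C.P ^ k ≤ C.P ^ 9 := fun k hk => pow_le_pow_right₀ h.P1 hk
  have c := b 1 (by norm_num)
  refine exp_le_exp.2 ?_
  push_cast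
  nlinarith [b 3 (by norm_num), b 8 (by norm_num), h.P9, pow_pos h.P0 9]
theorem τZ' (h : C.OK) {k j : ℕ} (hk : k ≤ 100) (hj : j ≤ 400) : C.τ * C.Z ^ k ≤ C.ε * C.e ^ j :=
  (mul_le_mul_of_nonneg_left (pow_le_pow_right₀ h.Z1 hk) (τ0 C).le).trans
    (h.τZ.trans (mul_le_mul_of_nonneg_left (h.epow hj) (ε0 C).le))
theorem τZ1 (h : C.OK) {k j : ℕ} (hk : k ≤ 100) (hj : j ≤ 400) : C.τ * C.Z ^ k ≤ C.e ^ j :=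
  (h.τZ' hk hj).trans (mul_le_of_le_one_left (pow_pos h.e0 _).le h.ε1)
theorem n0 (h : C.OK) : 0 < C.n := mul_pos (pow_pos h.P0 _) (pow_pos (pow_pos h.e0 _) _)
theorem en (h : C.OK) : C.e ^ 400 ≤ C.n := by
  rw [n, ← pow_mul]
  exact le_mul_of_one_le_left (pow_pos h.e0 _).le (one_le_pow₀ h.P1)
theorem u0 (h : C.OK) (x : ι) : 0 ≤ C.u x := by
  unfold u; split_ifs; exacts [zero_le_one, mul_nonneg (ε0 C).le (h.ω0 x).1]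
theorem ϱ0 (h : C.OK) (x : ι) : 0 ≤ C.ϱ x := by
  unfold ϱ; split_ifs; exacts [div_nonneg zero_le_two h.η0.le, mul_nonneg (τ0 C).le (h.ω0 x).1]
theorem τ1 (h : C.OK) : C.τ ≤ 1 := by simpa using h.τZ1 (k := 0) (j := 0) (by norm_num) (by norm_num)
theorem ϱY (h : C.OK) (x : ι) : C.ϱ x ≤ C.Y := by
  unfold ϱ; split_ifs
  exacts [h.η2, (mul_le_one₀ h.τ1 (h.ω0 x).1 (h.ω0 x).2).trans h.Y1]
theorem ϱs (h : C.OK) : ∑ x, C.ϱ x ≤ C.Y ^ 3 := by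
  have a : ∀ x, C.ϱ x ≤ (if x ∈ C.B then C.Y else 0) + C.ω x := fun x => by
    unfold ϱ; split_ifs
    · linarith [h.η2, (h.ω0 x).1]
    · rw [zero_add]; exact mul_le_of_le_one_left (h.ω0 x).1 h.τ1
  refine (sum_le_sum fun x _ => a x).trans ?_
  rw [sum_add_distrib, ← sum_filter, filter_mem_eq_inter, univ_inter, sum_const, nsmul_eq_mul]
  have := mul_le_mul_of_nonneg_right h.cB (zero_le_one.trans h.Y1)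
  nlinarith [h.ωs, h.Y9, sq_nonneg C.Y]

end OK

end TC

end Pool.Agent.P.MP_d0f69c_mp.XS
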