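import Pool.Agent.P.MP_d0f69c_mp.XS.HLa

/-! The loop of one healing turn: what the invariant gives. -/

set_option linter.unusedSectionVars false

namespace Pool.Agent.P.MP_d0f69c_mp.XS

open Finset Real Matrix

variable {ι : Type} [Fintype ι] [DecidableEq ι] {C : TC ι} {s : LS ι}

namespace TC

theorem Ws_out {x : ι} (hx : x ∉ s.X) : C.Ws s x = C.W x := Wc_out hx

theorem aw_out {x : ι} (hx : x ∉ s.X) : aw C.η (C.Ws s) x = aw C.η C.W x := aw_Wc_out hx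

theorem mem_T {x : ι} : x ∈ C.T s ↔ x ∈ C.O ∧ x ∉ C.F ∧ x ∉ s.X := by
  simp only [T, mem_sdiff, and_assoc]

theorem mem_prs {x y : ι} : (x, y) ∈ C.prs s ↔ (x ∈ C.B ∧ x ∈ C.O ∧ x ∉ s.X) ∧
    (y ∈ C.B ∧ y ∈ C.O ∧ y ∉ s.X) ∧ ¬ (x ∈ C.F ∧ y ∈ C.F) := by
  simp only [prs, mem_filter, mem_product, mem_sdiff, mem_inter, and_assoc]

theorem OK.gok0 (h : C.OK) : GOK C.η C.H C.W := by
  simpa only [Wc_empty] using h.gok ∅ (empty_subset _) fun _ => true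

theorem OK.gF' (h : C.OK) {x : ι} (hx : x ∈ C.gd) : x ∉ C.F := disjoint_left.1 h.gF hx

theorem OK.le_ϱ (h : C.OK) {p y : ι} (hp : p ∈ C.A) (hy : y ∈ C.O ∨ y ∉ C.B) :
    ‖C.G0 p y‖ ≤ C.ϱ y := by
  unfold ϱ
  split_ifs with c
  · exact h.gok0.entry_le (h.opn p (h.AO hp)).1.1 (h.opn y (hy.resolve_right (not_not.2 c))).1.1
  · exact h.far p hp y c

theorem Φ1_nonneg (s : LS ι) : 0 ≤ C.Φ1 s := sum_nonneg fun _ _ => (pot_pos _ _).le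
theorem Φ2_nonneg (s : LS ι) : 0 ≤ C.Φ2 s := sum_nonneg fun _ _ => (exp_pos _).le
theorem Φ3_nonneg (s : LS ι) (j : ℕ) : 0 ≤ C.Φ3 s j := sum_nonneg fun _ _ => (pot_pos _ _).le
theorem Φa_nonneg (s : LS ι) : 0 ≤ exp (-(C.e ^ 140 / 4 * s.X.card)) * (C.Φ1 s + C.Φ2 s) :=
  mul_nonneg (exp_pos _).le (add_nonneg (Φ1_nonneg s) (Φ2_nonneg s))
theorem Φb_nonneg (s : LS ι) : 0 ≤ ∑ j ∈ range C.K, exp (-C.cost s j) * C.Φ3 s j :=
  sum_nonneg fun j _ => mul_nonneg (exp_pos _).le (Φ3_nonneg s j)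
theorem Φ_nonneg (s : LS ι) : 0 ≤ C.Φ s := add_nonneg (Φa_nonneg s) (Φb_nonneg s)

theorem OK.unexp (h : C.OK) {c t : ℝ} (hc : c ≤ 1) (t0 : 0 ≤ t) (ht : exp (-c) * t ≤ 2 * C.Z ^ 2) :
    2 * t ≤ exp (3 * C.P ^ 3) := by
  have a : 1 / 3 ≤ exp (-c) := by
    refine le_trans ?_ (exp_le_exp.2 (neg_le_neg hc))
    rw [exp_neg, one_div]
    exact inv_anti₀ (exp_pos 1) (exp_one_lt_d9.le.trans (by norm_num))
  have b : exp (3 * C.P ^ 3) = C.Z ^ 3 := by rw [Z, ← exp_nat_mul]; norm_num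
  rw [b]
  nlinarith [mul_le_mul_of_nonneg_right a t0, h.Z9, sq_nonneg C.Z]

namespace LI

theorem Xg (i : C.LI s) : s.X ⊆ C.gd := i.XA.trans inter_subset_left
theorem XA' (i : C.LI s) : s.X ⊆ C.A := i.XA.trans inter_subset_right
theorem gok (i : C.LI s) (h : C.OK) : GOK C.η C.H (C.Ws s) := h.gok _ i.Xg _
theorem FX (i : C.LI s) (h : C.OK) {b : ι} (hb : b ∈ C.F) : b ∉ s.X :=
  fun c => h.gF' (i.Xg c) hb

theorem aw (h : C.OK) {x : ι} (hx : x ∈ C.O) (hx' : x ∉ s.X) :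
    1 / 2 ≤ aw C.η (C.Ws s) x ∧ aw C.η (C.Ws s) x ≤ 2 := by
  rw [aw_out hx']; exact (h.opn x hx).1

theorem ent2 (i : C.LI s) (h : C.OK) {x y : ι} (hx : x ∈ C.O) (hx' : x ∉ s.X) (hy : y ∈ C.O)
    (hy' : y ∉ s.X) : ‖C.G s x y‖ ≤ 2 / C.η :=
  (i.gok h).entry_le (aw h hx hx').1 (aw h hy hy').1

theorem cardk (i : C.LI s) : s.X.card * C.e ^ 138 ≤ 2 * s.k :=
  calc _ = ∑ _v ∈ s.X, C.e ^ 138 := by rw [sum_const, nsmul_eq_mul]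
    _ ≤ ∑ v ∈ s.X, ∑ j ∈ range s.k, ‖s.amp j v‖ ^ 2 := sum_le_sum fun v hv => by
        obtain ⟨j, h1, h2⟩ := i.Xq v hv
        exact h2.le.trans (single_le_sum (f := fun j => ‖s.amp j v‖ ^ 2) (fun _ _ => sq_nonneg _)
          (mem_range.2 h1))
    _ ≤ ∑ _j ∈ range s.k, (2 : ℝ) := by
        rw [sum_comm]
        exact sum_le_sum fun j _ => (sum_le_sum_of_subset_of_nonneg (subset_univ _)
          fun _ _ _ => sq_nonneg _).trans (i.as j)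
    _ = _ := by simp [mul_comm]

theorem card (i : C.LI s) (h : C.OK) : s.X.card * C.e ^ 140 ≤ 4 := by
  have a : (s.k : ℝ) ≤ C.K := by exact_mod_cast i.kK.le
  have b := (le_div_iff₀ (pow_pos h.e0 2)).1 (a.trans h.K2)
  nlinarith [mul_le_mul_of_nonneg_right i.cardk (pow_pos h.e0 2).le]

theorem cardY (i : C.LI s) (h : C.OK) : (s.X.card : ℝ) ≤ C.Y :=
  le_trans (by exact_mod_cast card_le_card (i.XA'.trans h.AB)) h.cB

theorem cost_le (i : C.LI s) (h : C.OK) (j : ℕ) : C.cost s j ≤ 1 := by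
  have e0 := h.e0
  have a : ∑ v ∈ s.X, ‖s.amp j v‖ ^ 2 ≤ 2 :=
    (sum_le_sum_of_subset_of_nonneg (subset_univ _) fun _ _ _ => sq_nonneg _).trans (i.as j)
  have b := i.card h
  have c := h.sm 6 0 60 (c := 40 * 576 * 3) (by norm_num) (by norm_num) (by norm_num)
  have d : C.e ^ 2 ≤ 1 := pow_le_one₀ e0.le h.e1'
  have e : C.cost s j = 40 * 576 * C.P ^ 6 * C.e ^ 60 *
      (C.e ^ 2 * ∑ v ∈ s.X, ‖s.amp j v‖ ^ 2 + s.X.card * C.e ^ 140 / 16) := by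
    rw [cost, ← mul_sum, sum_add_distrib, sum_const, nsmul_eq_mul, l3]; field_simp; ring
  rw [e]
  have f : C.e ^ 2 * ∑ v ∈ s.X, ‖s.amp j v‖ ^ 2 ≤ 1 * 2 :=
    mul_le_mul d a (sum_nonneg fun _ _ => sq_nonneg _) zero_le_one
  have g : 0 ≤ 40 * 576 * C.P ^ 6 * C.e ^ 60 := by positivity
  nlinarith

theorem Φ12 (i : C.LI s) (h : C.OK) : 2 * (C.Φ1 s + C.Φ2 s) ≤ exp (3 * C.P ^ 3) :=
  h.unexp (c := C.e ^ 140 / 4 * s.X.card) (by linarith [i.card h])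
    (add_nonneg (Φ1_nonneg s) (Φ2_nonneg s)) ((le_add_of_nonneg_right (Φb_nonneg s)).trans i.Φ2)

theorem pair (i : C.LI s) (h : C.OK) {x y : ι} (hp : (x, y) ∈ C.prs s) :
    ‖C.G s x y - C.G0 x y‖ ≤ C.e ^ 20 * C.wt x y := by
  have a : pot (C.l1 (x, y)) (C.G s x y - C.G0 x y) ≤ C.Φ1 s :=
    single_le_sum (f := fun p : ι × ι => pot (C.l1 p) (C.G s p.1 p.2 - C.G0 p.1 p.2))
      (fun _ _ => (pot_pos _ _).le) hp
  have e0 := h.e0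
  have w0 := h.w0 x y
  have P0 := h.P0
  refine (pot_inv (l := C.l1 (x, y)) (b := 3 * C.P ^ 3) (by unfold l1; positivity)
    (by linarith [i.Φ12 h, Φ2_nonneg (C := C) s])).trans (le_of_eq ?_)
  unfold l1; field_simp; norm_num

theorem ent (i : C.LI s) (h : C.OK) {x y : ι} (hp : (x, y) ∈ C.prs s) (hn : x ≠ y) :
    ‖C.G s x y‖ ≤ 2 * C.wt x y := by
  obtain ⟨a, b, c⟩ := mem_prs.1 hp
  have d := h.env x (mem_inter.2 ⟨a.1, a.2.1⟩) y (mem_inter.2 ⟨b.1, b.2.1⟩) hn c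
  have e := norm_add_le (C.G s x y - C.G0 x y) (C.G0 x y)
  rw [sub_add_cancel] at e
  nlinarith [i.pair h hp, h.w0 x y, pow_le_one₀ (n := 20) h.e0.le h.e1']

theorem nu (i : C.LI s) (h : C.OK) {x : ι} (hx : x ∈ C.T s ∩ C.B) :
    C.ν s x ≤ C.ν0 x + C.n / 100 := by
  have a : exp (C.l2 * (C.ν s x - C.ν0 x)) ≤ C.Φ2 s :=
    single_le_sum (f := fun x => exp (C.l2 * (C.ν s x - C.ν0 x))) (fun _ _ => (exp_pos _).le) hx
  have b : exp (C.l2 * (C.ν s x - C.ν0 x)) ≤ exp (3 * C.P ^ 3) := by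
    linarith [i.Φ12 h, Φ1_nonneg (C := C) s, Φ2_nonneg (C := C) s]
  have c := exp_le_exp.1 b
  rw [l2, div_mul_eq_mul_div, div_le_iff₀ h.n0] at c
  nlinarith [pow_pos h.P0 3]

theorem nun (i : C.LI s) (h : C.OK) {x : ι} (hx : x ∈ C.T s ∩ C.B) : C.ν s x ≤ C.n := by
  have a := mem_T.1 (mem_inter.1 hx).1
  linarith [i.nu h hx, h.l4 x (mem_inter.2 ⟨(mem_inter.1 hx).2, a.1⟩) a.2.1, h.n0]

theorem am (i : C.LI s) (h : C.OK) {j : ℕ} (hj : j < C.K) {x : ι} (hx : x ∈ (C.gd \ s.X) ∩ C.B) :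
    ‖C.gx s (s.ξ j) x - s.amp j x‖ ≤ C.e ^ 69 / 4 := by
  have a : pot C.l3 (C.gx s (s.ξ j) x - s.amp j x) ≤ C.Φ3 s j :=
    single_le_sum (f := fun x => pot C.l3 (C.gx s (s.ξ j) x - s.amp j x))
      (fun _ _ => (pot_pos _ _).le) hx
  have b := single_le_sum (f := fun j => exp (-C.cost s j) * C.Φ3 s j)
    (fun j _ => mul_nonneg (exp_pos _).le (Φ3_nonneg s j)) (mem_range.2 hj)
  have c := h.unexp (i.cost_le h j) (Φ3_nonneg s j)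
    (b.trans ((le_add_of_nonneg_left (Φa_nonneg s)).trans i.Φ2))
  have e0 := h.e0
  have P0 := h.P0
  refine (pot_inv (l := C.l3) (b := 3 * C.P ^ 3) (by unfold l3; positivity)
    (by linarith)).trans (le_of_eq ?_)
  unfold l3; field_simp; norm_num

theorem near (i : C.LI s) (h : C.OK) {x y : ι} (hx : x ∈ C.T s ∩ C.B) (hy : y ∈ C.T s ∩ C.B) :
    ‖C.G s x y - C.G0 x y‖ ≤ C.e ^ 120 := by
  obtain ⟨a, b⟩ := mem_inter.1 hx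
  obtain ⟨c, d⟩ := mem_inter.1 hy
  rw [mem_T] at a c
  refine (i.pair h (mem_prs.2 ⟨⟨b, a.1, a.2.2⟩, ⟨d, c.1, c.2.2⟩, fun e => a.2.1 e.1⟩)).trans ?_
  rw [show 120 = 20 + 100 from rfl, pow_add]
  exact mul_le_mul_of_nonneg_left (h.w1 x a.2.1 y c.2.1) (pow_pos h.e0 _).le

theorem gT (h : C.OK) {v : ι} (hv : v ∈ C.gd \ s.X) : v ∈ C.T s :=
  mem_T.2 ⟨h.gO (mem_sdiff.1 hv).1, h.gF' (mem_sdiff.1 hv).1, (mem_sdiff.1 hv).2⟩

theorem mis (i : C.LI s) (h : C.OK) {v : ι} (hv : v ∈ C.gd \ s.X) (hB : v ∈ C.B) :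
    ‖C.G s v v - phi (C.W v)‖ ≤ 2 * C.e ^ 120 := by
  have a := i.near h (mem_inter.2 ⟨gT h hv, hB⟩) (mem_inter.2 ⟨gT h hv, hB⟩)
  have b := norm_add_le (C.G s v v - C.G0 v v) (C.G0 v v - phi (C.W v))
  rw [sub_add_sub_cancel] at b
  linarith [h.mis v (mem_inter.2 ⟨(mem_sdiff.1 hv).1, hB⟩)]

theorem entT (i : C.LI s) (h : C.OK) {x y : ι} (hx : x ∈ C.T s ∩ C.B) (hy : y ∈ C.T s ∩ C.B)
    (hn : x ≠ y) : ‖C.G s x y‖ ≤ 2 * C.e ^ 100 := by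
  obtain ⟨a, b⟩ := mem_inter.1 hx
  obtain ⟨c, d⟩ := mem_inter.1 hy
  rw [mem_T] at a c
  linarith [i.ent h (mem_prs.2 ⟨⟨b, a.1, a.2.2⟩, ⟨d, c.1, c.2.2⟩, fun e => a.2.1 e.1⟩) hn,
    h.w1 x a.2.1 y c.2.1]

theorem entF (i : C.LI s) (h : C.OK) {x b : ι} (hx : x ∈ C.T s ∩ C.B) (hb : b ∈ C.F) :
    ‖C.G s x b‖ ≤ 2 * C.wt x b := by
  obtain ⟨a, c⟩ := mem_inter.1 hx
  rw [mem_T] at a
  exact i.ent h (mem_prs.2 ⟨⟨c, a.1, a.2.2⟩, ⟨h.AB (h.FA hb), h.AO (h.FA hb), i.FX h hb⟩,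
    fun e => a.2.1 e.1⟩) fun e => a.2.1 (e ▸ hb)

theorem entF' (i : C.LI s) (h : C.OK) {x b : ι} (hx : x ∈ C.T s ∩ C.B) (hb : b ∈ C.F) :
    ‖C.G s x b‖ ≤ 4 * C.e ^ 95 := by
  linarith [i.entF h hx hb, h.w2 x (mem_T.1 (mem_inter.1 hx).1).2.1 b hb]

theorem dW (i : C.LI s) (h : C.OK) (x : ι) : ‖C.Ws s x - C.W x‖ ≤ 2 := by
  by_cases c : x ∈ s.X
  · rw [show C.Ws s x = _ from Wc_in c]
    linarith [norm_sub_le (sgn (s.b x)) (C.W x), norm_sgn (s.b x), (h.opn x (h.gO (i.Xg c))).2]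
  · simp [Ws_out c]

theorem rep (i : C.LI s) (h : C.OK) : Rep (NW.MM C.H C.W) (NW.MM C.H (C.Ws s)) s.X 1 2 := by
  refine ⟨1, diagonal fun x => C.Ws s x - C.W x, ?_, fun _ _ _ => by simp, fun x y c => ?_, RC.one,
    RC.diag (i.dW h)⟩
  · rw [transpose_one, Matrix.one_mul, Matrix.mul_one, MM_eq, MM_eq, add_sub_assoc, diagonal_sub]
    simp
  · rw [diagonal_apply]
    split_ifs with e
    · subst e; rw [Ws_out (c.elim id id), sub_self]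
    · rfl

theorem dif (i : C.LI s) (h : C.OK) {x y : ι} (hx : x ∉ s.X) (hy : y ∉ s.X)
    (hx' : x ∈ C.O ∨ x ∉ C.B) (hy' : y ∈ C.O ∨ y ∉ C.B) :
    ‖C.G s x y - C.G0 x y‖ ≤ C.ϱ x * C.Z ^ 15 * C.ϱ y := by
  have Z1 := h.Z1
  obtain ⟨T, t1, t2, t3⟩ := (i.rep h).tm h.gok0.unit (i.gok h).unit zero_le_one zero_le_two
    (by positivity) i.cl
  have a := t1.tri t2 (h.ϱ0 x) (h.ϱ0 y) (G := C.G0) (x := x) (y := y)
    (fun p hp => by rw [show C.G0 x p = C.G0 p x from h.gok0.sym x p]; exact h.le_ϱ (i.XA' hp) hx')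
    fun p hp => h.le_ϱ (i.XA' hp) hy'
  rw [show C.G s x y = _ from t3 x hx y hy, show C.G0 = (NW.MM C.H C.W)⁻¹ from rfl,
    sub_sub_cancel_left, norm_neg]
  refine a.trans (mul_le_mul_of_nonneg_right (mul_le_mul_of_nonneg_left ?_ (h.ϱ0 x)) (h.ϱ0 y))
  have b := i.cardY h
  have c := h.YZ' (k := 3) (by norm_num)
  have d := h.Y9
  have f : 1 ≤ C.Z ^ 13 := one_le_pow₀ Z1
  calc _ ≤ C.Y * (1 * (2 * (C.Y * C.Z ^ 13) + 2 * (C.Y * C.Z ^ 13) * 2) * 1) := by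
        gcongr; nlinarith
    _ = 6 * C.Y ^ 2 * C.Z ^ 13 := by ring
    _ ≤ C.Y * C.Y ^ 2 * C.Z ^ 14 := by gcongr <;> linarith
    _ ≤ _ := by rw [show C.Y * C.Y ^ 2 = C.Y ^ 3 by ring, pow_succ' C.Z 14]; gcongr

theorem far (i : C.LI s) (h : C.OK) {p y : ι} (hp : p ∈ C.A) (hp' : p ∉ s.X) (hy : y ∉ C.B) :
    ‖C.G s p y‖ ≤ C.τ * C.Z ^ 17 * C.ω y := by
  have a := i.dif h hp' (fun c => hy (h.AB (i.XA' c))) (Or.inl (h.AO hp)) (Or.inr hy)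
  have b := norm_add_le (C.G s p y - C.G0 p y) (C.G0 p y)
  rw [sub_add_cancel] at b
  rw [show C.ϱ y = C.τ * C.ω y from if_neg hy] at a
  have c := (h.ϱY p).trans (by simpa using h.YZ' (k := 1) (by norm_num))
  have t := mul_nonneg (OK.τ0 C).le (h.ω0 y).1
  have Z1 := h.Z1
  have f : 1 ≤ C.Z ^ 16 := one_le_pow₀ Z1
  calc _ ≤ C.Z * C.Z ^ 15 * (C.τ * C.ω y) + C.Z ^ 16 * (C.τ * C.ω y) := by
        refine b.trans (add_le_add (a.trans (by gcongr)) ((h.far p hp y hy).trans ?_))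
        exact le_mul_of_one_le_left t f
    _ = 2 * C.Z ^ 16 * (C.τ * C.ω y) := by ring
    _ ≤ C.Z * C.Z ^ 16 * (C.τ * C.ω y) := by gcongr; linarith [h.Z9]
    _ = _ := by ring

end LI

end TC

end Pool.Agent.P.MP_d0f69c_mp.XS
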