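import Pool.Agent.P.MP_d0f69c_mp.XS.HLb

/-! The loop of one healing turn: the potential decreases in the mean under a closing. -/

set_option linter.unusedSectionVars false

namespace Pool.Agent.P.MP_d0f69c_mp.XS

open Finset Real Matrix

variable {ι : Type} [Fintype ι] [DecidableEq ι] {C : TC ι} {s : LS ι} {v : ι}

theorem pot_jump {l m g : ℝ} (hl : 0 ≤ l) {t : Bool → ℂ} (h1 : ∀ b, ‖t b‖ ≤ 2)
    (h2 : ‖t true + t false‖ ≤ 2 * m) (z : ℂ) {w : ℂ} (hw : ‖w‖ ≤ g) :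
    pot l (z - t true * w) + pot l (z - t false * w) ≤
      2 * exp (l * (m * g) + (l * (2 * g)) ^ 2 / 2) * pot l z := by
  rw [sub_eq_add_neg, sub_eq_add_neg]
  refine pot_two hl z _ _ ?_ ?_
  · rw [← neg_add, norm_neg, ← add_mul, norm_mul, ← mul_assoc]
    exact mul_le_mul h2 hw (norm_nonneg _) ((norm_nonneg _).trans h2)
  · rw [neg_sub_neg, ← sub_mul, norm_mul, ← mul_assoc]
    exact mul_le_mul ((norm_sub_le _ _).trans (by linarith [h1 true, h1 false])) hw (norm_nonneg _)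
      (by norm_num)

namespace TC

theorem Ws_close (β : Bool) :
    C.Ws (s.close v β) = Function.update (C.Ws s) v (sgn β) := funext fun x => by
  by_cases e : x = v
  · simp [Ws, LS.close, Wc, e]
  · simp [Ws, LS.close, Wc, e]

/-- the factor of the closing of `v` -/
noncomputable def t (C : TC ι) (s : LS ι) (v : ι) (β : Bool) : ℂ := tf (C.W v) (C.G s v v) β

theorem close_sd (S : Finset ι) (β : Bool) : S \ (s.close v β).X = (S \ s.X).erase v :=
  sdiff_insert S s.X v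

theorem T_close (β : Bool) : C.T (s.close v β) = (C.T s).erase v := close_sd _ β

namespace LI

theorem qA (i : C.LI s) (q : C.que s v) : v ∈ C.A := by
  obtain ⟨_, j, _, hj⟩ := q
  exact by_contra fun c => absurd (i.af j v c) (not_le.2 hj)

theorem qT (i : C.LI s) (h : C.OK) (q : C.que s v) : v ∈ C.T s ∩ C.B :=
  mem_inter.2 ⟨gT h q.1, h.AB (i.qA q)⟩

theorem gok' (i : C.LI s) (h : C.OK) (q : C.que s v) (β : Bool) :
    GOK C.η C.H (C.Ws (s.close v β)) :=
  h.gok _ (insert_subset (mem_sdiff.1 q.1).1 i.Xg) _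

theorem upd (i : C.LI s) (h : C.OK) (q : C.que s v) (β : Bool) (x y : ι) :
    C.G (s.close v β) x y = C.G s x y - C.t s v β * (C.G s x v * C.G s v y) := by
  have hv := (mem_sdiff.1 q.1).2
  have a := (i.gok' h q β).unit
  rw [Ws_close] at a
  rw [G, Ws_close, GG_upd (i.gok h).unit v β a, Ws_out hv]
  rfl

theorem cpa (i : C.LI s) (h : C.OK) (q : C.que s v) : (∀ β, ‖C.t s v β‖ ≤ 2) ∧
    ‖C.t s v true + C.t s v false‖ ≤ 2 * (4 * (2 * C.e ^ 120)) ∧ ‖C.G s v v‖ ≤ 1 :=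
  XS.cpa (h.opn v (h.gO (mem_sdiff.1 q.1).1)).2 (i.mis h q.1 (h.AB (i.qA q))) (by
    linarith [h.sm 0 0 120 (c := 20) (by norm_num) (by norm_num) (by norm_num)])

theorem Φ1_two (i : C.LI s) (h : C.OK) (q : C.que s v) :
    C.Φ1 (s.close v true) + C.Φ1 (s.close v false) ≤ 2 * exp (C.e ^ 140 / 4) * C.Φ1 s := by
  obtain ⟨c1, c2, -⟩ := i.cpa h q
  obtain ⟨vT, vB⟩ := mem_inter.1 (i.qT h q)
  rw [mem_T] at vT
  have e0 := h.e0
  have P0 := h.P0
  have sub : ∀ x y, (x, y) ∈ C.prs (s.close v true) → x ≠ v ∧ y ≠ v ∧ (x, y) ∈ C.prs s ∧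
      (x, v) ∈ C.prs s ∧ (v, y) ∈ C.prs s := fun x y hp => by
    simp only [mem_prs, LS.close, mem_insert, not_or] at hp ⊢
    tauto
  rw [Φ1, Φ1, show C.prs (s.close v false) = C.prs (s.close v true) from rfl, ← sum_add_distrib,
    Φ1, mul_sum]
  refine (sum_le_sum fun p hp => ?_).trans (sum_le_sum_of_subset_of_nonneg
    (fun p hp => (sub p.1 p.2 hp).2.2.1) fun p _ _ => mul_nonneg (by positivity) (pot_pos _ _).le)
  obtain ⟨x, y⟩ := p
  obtain ⟨a1, a2, -, a3, a4⟩ := sub x y hp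
  have w0 := h.w0 x y
  have g : ‖C.G s x v * C.G s v y‖ ≤ 4 * C.e ^ 95 * C.wt x y := by
    rw [norm_mul]
    linarith [mul_le_mul (i.ent h a3 a1) (i.ent h a4 a2.symm) (norm_nonneg _)
      (by linarith [h.w0 x v]), h.w3 x y v vT.2.1]
  simp only [i.upd h q, sub_right_comm _ _ (C.G0 x y)]
  refine (pot_jump (by unfold l1; positivity) c1 c2 _ g).trans (mul_le_mul_of_nonneg_right
    (mul_le_mul_of_nonneg_left (exp_le_exp.2 ?_) zero_le_two) (pot_pos _ _).le)
  have e : C.l1 (x, y) * (4 * (2 * C.e ^ 120) * (4 * C.e ^ 95 * C.wt x y)) +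
      (C.l1 (x, y) * (2 * (4 * C.e ^ 95 * C.wt x y))) ^ 2 / 2 =
      (1536 * C.P ^ 3 * C.e ^ (140 + 55) / C.η ^ 0 + 9216 * C.P ^ 6 * C.e ^ (140 + 10) / C.η ^ 0) / 8 := by
    unfold l1; field_simp; ring
  linarith [h.sm' 3 0 140 55 (c := 1536) (by norm_num) (by norm_num) (by norm_num),
    h.sm' 6 0 140 10 (c := 9216) (by norm_num) (by norm_num) (by norm_num)]

theorem Φ2_two (i : C.LI s) (h : C.OK) (q : C.que s v) :
    C.Φ2 (s.close v true) + C.Φ2 (s.close v false) ≤ 2 * exp (C.e ^ 140 / 4) * C.Φ2 s := by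
  obtain ⟨c1, c2, -⟩ := i.cpa h q
  have e0 := h.e0
  have P0 := h.P0
  have n0 := h.n0
  have sub : (C.T s).erase v ∩ C.B ⊆ C.T s ∩ C.B := inter_subset_inter_right (erase_subset _ _)
  rw [TC.Φ2, TC.Φ2, T_close, T_close, ← sum_add_distrib, TC.Φ2, mul_sum]
  refine (sum_le_sum fun x hx => ?_).trans (sum_le_sum_of_subset_of_nonneg sub
    fun p _ _ => by positivity)
  have g := i.entT h (sub hx) (i.qT h q) (ne_of_mem_erase (mem_inter.1 hx).1)
  have s1 : ((C.gd \ s.X).erase v).erase x ⊆ (C.gd \ s.X).erase x :=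
    erase_subset_erase _ (erase_subset _ _)
  have b : ∀ β, ‖C.t s v β * C.G s x v‖ ≤ 4 * C.e ^ 100 := fun β => by
    rw [norm_mul]; linarith [mul_le_mul (c1 β) g (norm_nonneg _) zero_le_two]
  have k := l4_two s1 (fun y => C.G s x y) (fun y => C.G s v y) (C.t s v true * C.G s x v)
    (C.t s v false * C.G s x v) (l := C.l2) (n := C.n) (μ := 16 * C.e ^ 220) (by unfold l2; positivity)
    ((sum_le_sum_of_subset_of_nonneg s1 fun _ _ _ => by positivity).trans (i.nun h (sub hx)))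
    ((sum_le_sum_of_subset_of_nonneg (erase_subset _ _) fun _ _ _ => by positivity).trans
      (i.nun h (i.qT h q))) (b true) (b false)
    (by linarith [h.sm 0 0 100 (c := 4) (by norm_num) (by norm_num) (by norm_num)])
    (by rw [← add_mul, norm_mul]
        linarith [mul_le_mul c2 g (norm_nonneg _) (by positivity)])
  have e : C.l2 * (4 * (16 * C.e ^ 220) * C.n + 12 * (4 * C.e ^ 100) ^ 2 * C.n) +
      (C.l2 * (4 * (4 * C.e ^ 100) * C.n)) ^ 2 / 2 =
      (230400 * C.P ^ 3 * C.e ^ (140 + 80) / C.η ^ 0 + 691200 * C.P ^ 3 * C.e ^ (140 + 60) / C.η ^ 0 +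
        138240000 * C.P ^ 6 * C.e ^ (140 + 60) / C.η ^ 0) / 12 := by
    unfold l2; field_simp; ring
  have k2 := k.trans (mul_le_mul_of_nonneg_right (mul_le_mul_of_nonneg_left (exp_le_exp.2
    (show _ ≤ C.e ^ 140 / 4 by
      linarith [h.sm' 3 0 140 80 (c := 230400) (by norm_num) (by norm_num) (by norm_num),
        h.sm' 3 0 140 60 (c := 691200) (by norm_num) (by norm_num) (by norm_num),
        h.sm' 6 0 140 60 (c := 138240000) (by norm_num) (by norm_num) (by norm_num)]))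
    zero_le_two) (exp_pos _).le)
  simp only [ν, close_sd, i.upd h q, mul_sub C.l2, exp_sub, ← mul_assoc (C.t s v _)]
  rw [← add_div, ← mul_div_assoc]
  exact div_le_div_of_nonneg_right k2 (exp_pos _).le

theorem gx_upd (i : C.LI s) (h : C.OK) (q : C.que s v) (β : Bool) (ξ : ι → ℂ) (x : ι) :
    C.gx (s.close v β) ξ x = C.gx s ξ x - C.t s v β * (C.G s x v * C.gx s ξ v) := by
  simp only [gx, i.upd h q, mul_sum, ← sum_sub_distrib]
  exact sum_congr rfl fun b _ => by ring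

theorem Φ3_two (i : C.LI s) (h : C.OK) (q : C.que s v) {j : ℕ} (hj : j < C.K) :
    exp (-C.cost (s.close v true) j) * C.Φ3 (s.close v true) j +
      exp (-C.cost (s.close v false) j) * C.Φ3 (s.close v false) j ≤
      2 * (exp (-C.cost s j) * C.Φ3 s j) := by
  obtain ⟨c1, c2, -⟩ := i.cpa h q
  have e0 := h.e0
  have P1 := h.P1
  obtain ⟨Q, hQ⟩ : ∃ Q, Q = (C.l3 * C.e ^ 100) ^ 2 * (‖s.amp j v‖ ^ 2 + (C.e ^ 69 / 4) ^ 2) := ⟨_, rfl⟩
  have e1 : ∀ β, C.cost (s.close v β) j = C.cost s j + 40 * Q := fun β => by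
    rw [hQ, cost, cost, show (s.close v β).X = insert v s.X from rfl,
      sum_insert (mem_sdiff.1 q.1).2]
    simp only [LS.close]; ring
  have sub : (C.gd \ s.X).erase v ∩ C.B ⊆ (C.gd \ s.X) ∩ C.B :=
    inter_subset_inter_right (erase_subset _ _)
  have l0 : 0 ≤ C.l3 := by unfold l3; positivity
  have k : C.Φ3 (s.close v true) j + C.Φ3 (s.close v false) j ≤ 2 * exp (40 * Q) * C.Φ3 s j := by
    rw [Φ3, Φ3, close_sd, close_sd, ← sum_add_distrib, Φ3, mul_sum]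
    refine (sum_le_sum fun x hx => ?_).trans (sum_le_sum_of_subset_of_nonneg sub
      fun p _ _ => mul_nonneg (by positivity) (pot_pos _ _).le)
    have a1 := i.entT h (mem_inter.2 ⟨gT h (mem_inter.1 (sub hx)).1, (mem_inter.1 hx).2⟩) (i.qT h q)
      (ne_of_mem_erase (mem_inter.1 hx).1)
    have a2 := norm_add_le (C.gx s (s.ξ j) v - s.amp j v) (s.amp j v)
    rw [sub_add_cancel] at a2
    have a3 := i.am h hj (mem_inter.2 ⟨q.1, h.AB (i.qA q)⟩)
    have g : ‖C.G s x v * C.gx s (s.ξ j) v‖ ≤ 2 * C.e ^ 100 * (‖s.amp j v‖ + C.e ^ 69 / 4) := by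
      rw [norm_mul]
      exact mul_le_mul a1 (by linarith) (norm_nonneg _) (by positivity)
    simp only [i.gx_upd h q, show ∀ β, (s.close v β).ξ = s.ξ from fun _ => rfl,
      show ∀ β, (s.close v β).amp = s.amp from fun _ => rfl, sub_right_comm _ _ (s.amp j x)]
    refine (pot_jump l0 c1 c2 _ g).trans (mul_le_mul_of_nonneg_right
      (mul_le_mul_of_nonneg_left (exp_le_exp.2 ?_) zero_le_two) (pot_pos _ _).le)
    obtain ⟨y, hy⟩ : ∃ y, y = C.l3 * C.e ^ 100 * (‖s.amp j v‖ + C.e ^ 69 / 4) := ⟨_, rfl⟩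
    have b1 : y ^ 2 ≤ 2 * Q := by
      rw [hy, hQ, mul_pow]
      nlinarith [mul_nonneg (sq_nonneg (C.l3 * C.e ^ 100)) (sq_nonneg (‖s.amp j v‖ - C.e ^ 69 / 4))]
    have b2 : (C.e ^ 120) ^ 2 ≤ Q := by
      have : (C.l3 * C.e ^ 100) ^ 2 * (C.e ^ 69 / 4) ^ 2 = (6 * C.P ^ 3 * C.e ^ 100) ^ 2 := by
        unfold l3; field_simp; ring
      have b3 : C.e ^ 120 ≤ 6 * C.P ^ 3 * C.e ^ 100 := (h.epow (by norm_num)).trans
        (le_mul_of_one_le_left (by positivity) (by linarith [one_le_pow₀ (n := 3) P1]))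
      rw [hQ, mul_add, this]
      exact (pow_le_pow_left₀ (by positivity) b3 2).trans (le_add_of_nonneg_left (by positivity))
    calc _ = 16 * (C.e ^ 120 * y) + 8 * y ^ 2 := by rw [hy]; ring
      _ ≤ _ := by nlinarith [sq_nonneg (C.e ^ 120 - y)]
  rw [e1, e1, ← mul_add, neg_add, exp_add, mul_assoc]
  calc _ ≤ exp (-C.cost s j) * (exp (-(40 * Q)) * (2 * exp (40 * Q) * C.Φ3 s j)) := by gcongr
    _ = _ := by rw [Real.exp_neg (40 * Q)]; field_simp

theorem Φ_two (i : C.LI s) (h : C.OK) (q : C.que s v) :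
    C.Φ (s.close v true) + C.Φ (s.close v false) ≤ 2 * C.Φ s := by
  have e1 : ∀ β, exp (-(C.e ^ 140 / 4 * (s.close v β).X.card)) =
      exp (-(C.e ^ 140 / 4 * s.X.card)) / exp (C.e ^ 140 / 4) := fun β => by
    rw [show (s.close v β).X = insert v s.X from rfl, card_insert_of_notMem (mem_sdiff.1 q.1).2,
      ← exp_sub]
    push_cast; ring_nf
  have a := sum_le_sum fun j (hj : j ∈ range C.K) => i.Φ3_two h q (mem_range.1 hj)
  rw [sum_add_distrib, ← mul_sum] at a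
  have b := mul_le_mul_of_nonneg_left (add_le_add (i.Φ1_two h q) (i.Φ2_two h q))
    (by positivity : 0 ≤ exp (-(C.e ^ 140 / 4 * s.X.card)) / exp (C.e ^ 140 / 4))
  have c : exp (-(C.e ^ 140 / 4 * s.X.card)) / exp (C.e ^ 140 / 4) *
      (2 * exp (C.e ^ 140 / 4) * C.Φ1 s + 2 * exp (C.e ^ 140 / 4) * C.Φ2 s) =
      2 * (exp (-(C.e ^ 140 / 4 * s.X.card)) * (C.Φ1 s + C.Φ2 s)) := by field_simp
  simp only [Φ, e1]
  linarith

end LI

end TC

end Pool.Agent.P.MP_d0f69c_mp.XS
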