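import Pool.Agent.P.MP_d0f69c_mp.XS.HLc

/-! The loop of one healing turn: a closing preserves the invariant. -/

set_option linter.unusedSectionVars false

namespace Pool.Agent.P.MP_d0f69c_mp.XS

open Finset Real Matrix

variable {ι : Type} [Fintype ι] [DecidableEq ι] {C : TC ι} {s : LS ι} {v : ι}

namespace TC

theorem OK.Fsum (h : C.OK) {f : ι → ℝ} {c : ℝ} (c0 : 0 ≤ c) (hf : ∀ b ∈ C.F, f b ≤ c) :
    ∑ b ∈ C.F, f b ≤ 2 / C.e * c :=
  (sum_le_card_nsmul _ _ c hf).trans (by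
    rw [nsmul_eq_mul]; exact mul_le_mul_of_nonneg_right h.cF c0)

namespace LI

theorem aw0 (h : C.OK) (y : ι) (h1 : y ∉ C.T s) (h2 : y ∉ C.F) : XS.aw C.η (C.Ws s) y = 0 := by
  by_cases c : y ∈ s.X
  · exact aw_Wc_in c
  · rw [aw_out c]; exact h.cls y fun e => h1 (mem_T.2 ⟨e, h2, c⟩)

theorem awT (h : C.OK) {x : ι} (hx : x ∈ C.T s) :
    1 / 2 ≤ XS.aw C.η (C.Ws s) x ∧ XS.aw C.η (C.Ws s) x ≤ 2 :=
  aw h (mem_T.1 hx).1 (mem_T.1 hx).2.2

theorem cl_close (i : C.LI s) (h : C.OK) (o : C.wok s) (q : C.que s v) (β : Bool) :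
    ∀ z ∈ insert v s.X, ∀ z' ∈ insert v s.X, ‖C.G (s.close v β) z z'‖ ≤ C.Z ^ 13 := by
  obtain ⟨c1, -, c3⟩ := i.cpa h q
  have η0 := h.η0
  have Z1 := h.Z1
  have z1 : 1 ≤ 2 * C.Z ^ 12 / C.η := by
    rw [le_div_iff₀ η0]; linarith [one_le_pow₀ (n := 12) Z1, h.η1']
  have a : ∀ z ∈ insert v s.X, ‖C.G s z v‖ ^ 2 ≤ 2 * C.Z ^ 12 / C.η := fun z hz => by
    rcases mem_insert.1 hz with e | e
    · rw [e]; exact (pow_le_one₀ (norm_nonneg _) c3).trans z1
    · rw [le_div_iff₀ η0]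
      have k : C.η * ‖C.G s z v‖ ^ 2 ≤ 2 * ‖C.G s z z‖ := (i.gok h).one_le z (awT h (gT h q.1)).1
      linarith [o z e z e]
  have sy : ∀ x y, C.G s x y = C.G s y x := (i.gok h).sym
  have a' : ∀ z ∈ insert v s.X, ‖C.G s z v‖ ≤ 2 * C.Z ^ 12 / C.η := fun z hz => by
    nlinarith [a z hz, sq_nonneg (‖C.G s z v‖ - 1)]
  intro z hz z' hz'
  have b : ‖C.G s z z'‖ ≤ 2 * C.Z ^ 12 / C.η := by
    rcases mem_insert.1 hz' with e | e
    · rw [e]; exact a' z hz
    · rcases mem_insert.1 hz with e' | e'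
      · rw [e', sy]; exact a' z' hz'
      · refine (o z e' z' e).trans ?_
        rw [le_div_iff₀ η0]; nlinarith [h.η1', pow_pos (one_pos.trans_le Z1) 12]
  have c : ‖C.G s z v‖ * ‖C.G s v z'‖ ≤ 2 * C.Z ^ 12 / C.η := by
    rw [sy v z']; nlinarith [a z hz, a z' hz', sq_nonneg (‖C.G s z v‖ - ‖C.G s z' v‖)]
  have d := norm_sub_le (C.G s z z') (C.t s v β * (C.G s z v * C.G s v z'))
  rw [norm_mul, norm_mul] at d
  have e := mul_le_mul (c1 β) c (by positivity) zero_le_two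
  have f : 3 * (2 / C.η) ≤ C.Z := by
    nlinarith [h.η2, h.YZ' (k := 2) (by norm_num), h.Y9]
  rw [i.upd h q]
  calc _ ≤ 3 * (2 / C.η) * C.Z ^ 12 := by
        rw [show 3 * (2 / C.η) * C.Z ^ 12 = 3 * (2 * C.Z ^ 12 / C.η) by ring]; linarith
    _ ≤ _ := by rw [pow_succ' C.Z 12]; gcongr

theorem gfar (i : C.LI s) (h : C.OK) (q : C.que s v) {x : ι} (hx : x ∉ C.B) :
    ‖C.G s x v‖ ≤ C.τ * C.Z ^ 17 * C.ω x := by
  rw [show C.G s x v = C.G s v x from (i.gok h).sym x v]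
  exact i.far h (i.qA q) (mem_sdiff.1 q.1).2 hx

theorem lock1 (i : C.LI s) (h : C.OK) (q : C.que s v) (f : ι → ℝ) :
    ∃ m, ∑ x ∈ (C.T s).erase v, (44 * ‖C.G s x v‖ ^ 2 / C.η + 8 * ‖C.G s x v‖ *
      ∑ y ∈ C.F, XS.aw C.η (C.Ws s) y * ‖C.G s x y‖ * ‖C.G s y v‖) * (f x - m) ^ 2 ≤
      C.e ^ 185 / 2 * C.Ec f := by
  obtain ⟨-, -, c3⟩ := i.cpa h q
  have η0 := h.η0
  have e0 := h.e0
  have g := i.gok h
  have vT := i.qT h q
  have aF : ∀ y ∈ C.F, XS.aw C.η (C.Ws s) y ≤ 2 := fun y hy => (aw h (h.AO (h.FA hy)) (i.FX h hy)).2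
  set L : ι → ℝ := fun x => ∑ y ∈ C.F, XS.aw C.η (C.Ws s) y * ‖C.G s x y‖ * ‖C.G s y v‖ with hL
  have L0 : ∀ x, 0 ≤ L x := fun x => sum_nonneg fun y _ => by have := g.a0 y; positivity
  have e : ∀ x, 44 * ‖C.G s x v‖ ^ 2 / C.η + 8 * ‖C.G s x v‖ * L x =
      ‖C.G s x v‖ * (44 * ‖C.G s x v‖ / C.η + 8 * L x) := fun x => by ring
  have n : ∀ x ∈ (C.T s).erase v ∩ C.B, ‖C.G s x v‖ ≤ 2 * C.e ^ 100 ∧
      44 * ‖C.G s x v‖ / C.η + 8 * L x ≤ C.e ^ 98 := fun x hx => by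
    have xT : x ∈ C.T s ∩ C.B := inter_subset_inter_right (erase_subset _ _) hx
    have a := i.entT h xT vT (ne_of_mem_erase (mem_inter.1 hx).1)
    have b : L x ≤ 2 / C.e * (2 * (4 * C.e ^ 95) * (4 * C.e ^ 95)) :=
      h.Fsum (by positivity) fun y hy => by
        have := i.entF' h xT hy
        have := i.entF' h vT hy
        have := aF y hy
        rw [show C.G s y v = C.G s v y from g.sym y v]
        gcongr
    have b' : 2 / C.e * (2 * (4 * C.e ^ 95) * (4 * C.e ^ 95)) =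
        1024 * C.P ^ 0 * C.e ^ (98 + 91) / C.η ^ 0 / 16 := by field_simp; ring
    have c : 44 * ‖C.G s x v‖ / C.η ≤ 176 * C.P ^ 0 * C.e ^ (98 + 2) / C.η ^ 1 / 2 := by
      calc _ ≤ 44 * (2 * C.e ^ 100) / C.η := by gcongr
        _ = _ := by ring
    refine ⟨a, ?_⟩
    linarith [h.sm' 0 0 98 91 (c := 1024) (by norm_num) (by norm_num) (by norm_num),
      h.sm' 0 1 98 2 (c := 176) (by norm_num) (by norm_num) (by norm_num)]
  have p : ∀ x, 0 ≤ 44 * ‖C.G s x v‖ / C.η + 8 * L x := fun x => by have := L0 x; positivity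
  refine h.lock _ ((erase_subset _ _).trans sdiff_subset) _ (2 * C.e ^ 198) (2 / C.η) _
    (by positivity) (by positivity) (fun x hx => ?_) ?_ (fun x hx hB => ?_) ?_ ?_ f
  · rw [e]
    exact ⟨mul_nonneg (norm_nonneg _) (p x), (mul_le_mul (n x hx).1 (n x hx).2 (p x)
      (by positivity)).trans (le_of_eq (by ring))⟩
  · have a := (g.row_le v ((C.T s).erase v ∩ C.B ∩ C.gd)).trans c3
    have b : ∑ x ∈ (C.T s).erase v ∩ C.B ∩ C.gd, (44 * ‖C.G s x v‖ ^ 2 / C.η +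
        8 * ‖C.G s x v‖ * L x) ^ 2 ≤ 2 * ∑ y ∈ (C.T s).erase v ∩ C.B ∩ C.gd,
          XS.aw C.η (C.Ws s) y * ‖NW.GG C.H (C.Ws s) v y‖ ^ 2 := by
      rw [mul_sum]
      refine sum_le_sum fun x hx => ?_
      have x1 := (mem_inter.1 hx).1
      have t1 := pow_le_one₀ (n := 2) (p x) ((n x x1).2.trans (pow_le_one₀ e0.le h.e1'))
      have t2 := (awT h (mem_of_mem_erase (mem_inter.1 x1).1)).1
      rw [e, mul_pow, ← g.sym x v]
      change _ ≤ 2 * (_ * ‖C.G s x v‖ ^ 2)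
      linarith [mul_le_mul_of_nonneg_left t1 (sq_nonneg ‖C.G s x v‖),
        mul_le_mul_of_nonneg_right t2 (sq_nonneg ‖C.G s x v‖)]
    refine b.trans ?_
    rw [div_pow, le_div_iff₀ (by positivity)]
    nlinarith [h.η1']
  · have xT := mem_T.1 (mem_of_mem_erase hx)
    have v1 := mem_T.1 (mem_inter.1 vT).1
    have a := i.ent2 h xT.1 xT.2.2 v1.1 v1.2.2
    have b : L x ≤ 2 / C.e * (2 * (2 / C.η) * (2 / C.η)) := h.Fsum (by positivity) fun y hy => by
      have := i.ent2 h xT.1 xT.2.2 (h.AO (h.FA hy)) (i.FX h hy)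
      have := i.ent2 h (h.AO (h.FA hy)) (i.FX h hy) v1.1 v1.2.2
      have := aF y hy
      gcongr
    have y1 := h.η2
    have y2 : 1 / C.e ≤ C.Y := by simpa using h.eY (k := 1) (by norm_num)
    have y3 := h.Y9
    have c : 44 * ‖C.G s x v‖ / C.η + 8 * L x ≤ C.Z :=
      calc _ ≤ 22 * (2 / C.η) * (2 / C.η) + 32 * (1 / C.e) * ((2 / C.η) * (2 / C.η)) := by
            refine add_le_add ?_ (by linarith [show 2 / C.e * (2 * (2 / C.η) * (2 / C.η)) =
              4 * (1 / C.e) * ((2 / C.η) * (2 / C.η)) by ring])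
            calc _ = 22 * ‖C.G s x v‖ * (2 / C.η) := by ring
              _ ≤ _ := by gcongr
        _ ≤ 22 * C.Y * C.Y + 32 * C.Y * (C.Y * C.Y) := by gcongr
        _ ≤ C.Y ^ 4 := by nlinarith [pow_pos (by linarith : 0 < C.Y) 2, pow_pos (by linarith : 0 < C.Y) 3]
        _ ≤ _ := h.YZ' (by norm_num)
    have t := (OK.τ0 C).le
    have w := (h.ω0 x).1
    have Z1 := h.Z1
    rw [e]
    calc _ ≤ C.τ * C.Z ^ 17 * C.ω x * C.Z := mul_le_mul (i.gfar h q hB) c (p x) (by positivity)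
      _ = C.τ * C.Z ^ 18 * C.ω x := by ring
      _ ≤ _ := by gcongr; norm_num
  · have a := h.sm' 0 0 185 13 (c := 32) (by norm_num) (by norm_num) (by norm_num)
    have b := h.sm' 0 1 185 15 (c := 16) (by norm_num) (by norm_num) (by norm_num)
    have : 4 * (2 * C.e ^ 198) + 2 * C.e ^ 200 * (2 / C.η) =
        (32 * C.P ^ 0 * C.e ^ (185 + 13) / C.η ^ 0 + 16 * C.P ^ 0 * C.e ^ (185 + 15) / C.η ^ 1) / 4 := by
      ring
    linarith
  · have := h.sm' 0 0 185 15 (c := 2) (by norm_num) (by norm_num) (by norm_num)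
    simp only [pow_zero] at this
    linarith

theorem rf_close (i : C.LI s) (h : C.OK) (q : C.que s v) (β : Bool) :
    RF (C.T s) (Kk C.η (C.Ws s) (C.G s)) (C.T (s.close v β))
      (Kk C.η (C.Ws (s.close v β)) (C.G (s.close v β))) fun f => C.e ^ 185 * C.Ec f := by
  obtain ⟨c1, -, c3⟩ := i.cpa h q
  have g := i.gok h
  have η0 := h.η0
  have vT := (mem_inter.1 (i.qT h q)).1
  have L0 : ∀ x, 0 ≤ 8 * ‖C.G s x v‖ *
      ∑ y ∈ C.F, XS.aw C.η (C.Ws s) y * ‖C.G s x y‖ * ‖C.G s y v‖ := fun x =>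
    mul_nonneg (by positivity) (sum_nonneg fun y _ => by have := g.a0 y; positivity)
  have a := RF.del (S := C.T s) {v} (K := Kk C.η (C.Ws s) (C.G s))
    (E := fun f => C.e ^ 185 / 2 * C.Ec f) g.Ksym g.K0 fun f => by
      obtain ⟨m, hm⟩ := i.lock1 h q f
      rw [sdiff_singleton_eq_erase, inter_singleton_of_mem vT]
      refine ⟨m, le_trans (sum_le_sum fun x hx => mul_le_mul_of_nonneg_right ?_ (sq_nonneg _)) hm⟩
      have b : 4 * ‖C.G s x v‖ ^ 2 ≤ 44 * ‖C.G s x v‖ ^ 2 / C.η := by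
        rw [le_div_iff₀ η0]; nlinarith [h.η1', sq_nonneg ‖C.G s x v‖]
      have c := mul_le_mul_of_nonneg_right (mul_le_mul (awT h (mem_of_mem_erase hx)).2 (awT h vT).2
        (g.a0 v) zero_le_two) (sq_nonneg ‖C.G s x v‖)
      rw [sum_singleton, Kk]
      linarith [L0 x]
  rw [sdiff_singleton_eq_erase] at a
  have b := RF.chg (E := fun f => C.e ^ 185 / 2 * C.Ec f)
    (g.chg1 h.ηh (aw0 h) (disjoint_left.2 fun x hx => (mem_T.1 hx).2.1) vT
      (fun x hx => (awT h hx).2) c3 (c1 β) (K' := Kk C.η (C.Ws (s.close v β)) (C.G (s.close v β)))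
      fun x hx y hy => by
        rw [Kk, i.upd h q, Ws_close]
        simp only [XS.aw, Function.update_of_ne (ne_of_mem_erase hx),
          Function.update_of_ne (ne_of_mem_erase hy)]
        rfl) fun f => by
      obtain ⟨m, hm⟩ := i.lock1 h q f
      refine ⟨m, le_trans (sum_le_sum fun x _ => mul_le_mul_of_nonneg_right
        (add_le_add ?_ le_rfl) (sq_nonneg _)) hm⟩
      exact div_le_div_of_nonneg_right (mul_le_mul_of_nonneg_right (by norm_num) (sq_nonneg _)) η0.le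
  rw [T_close]
  exact (a.trans b).mono fun f => le_of_eq (by ring)

theorem bil_close (i : C.LI s) (h : C.OK) (q : C.que s v) (β : Bool) :
    Bil ((C.gd \ s.X).erase v) (fun x y => Am (C.Ws (s.close v β)) (C.G (s.close v β)) x y -
      Am (C.Ws s) (C.G s) x y) fun x => C.e ^ 185 * C.u x := by
  obtain ⟨c1, -, c3⟩ := i.cpa h q
  have η0 := h.η0
  have vT := i.qT h q
  refine ((i.gok h).bil1 (fun x hx => (awT h (gT h (mem_of_mem_erase hx))).1) c3 (c1 β)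
    (fun x hx => by rw [Ws_close, Function.update_of_ne (ne_of_mem_erase hx)])
    fun x _ y _ => i.upd h q β x y).congr (fun _ _ _ _ => rfl) fun x hx => ?_
  have xT := gT h (mem_of_mem_erase hx)
  change 16 * ‖C.G s x v‖ ^ 2 / C.η ≤ _
  unfold u
  split_ifs with c
  · have a := i.entT h (mem_inter.2 ⟨xT, c⟩) vT (ne_of_mem_erase hx)
    calc _ ≤ 16 * (2 * C.e ^ 100) ^ 2 / C.η := by gcongr
      _ = 64 * C.P ^ 0 * C.e ^ (185 + 15) / C.η ^ 1 := by ring
      _ ≤ _ := (h.sm' 0 1 185 15 (by norm_num) (by norm_num) (by norm_num)).trans (by simp)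
  · have a := i.gfar h q c
    have v1 := mem_T.1 (mem_inter.1 vT).1
    have b := i.ent2 h (mem_T.1 xT).1 (mem_T.1 xT).2.2 v1.1 v1.2.2
    have t := (OK.τ0 C).le
    have w := (h.ω0 x).1
    have Z1 := h.Z1
    have y1 := h.η2
    have y3 := h.Y9
    calc _ = 8 * (2 / C.η) * ‖C.G s x v‖ * ‖C.G s x v‖ := by ring
      _ ≤ C.Y * C.Y * C.Y * (C.τ * C.Z ^ 17 * C.ω x) := by gcongr <;> linarith
      _ ≤ C.Z * (C.τ * C.Z ^ 17 * C.ω x) := by
          gcongr; exact le_trans (le_of_eq (by ring)) (h.YZ' (k := 3) (by norm_num))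
      _ = C.τ * C.Z ^ 18 * C.ω x := by ring
      _ ≤ C.ε * C.e ^ 185 * C.ω x :=
          mul_le_mul_of_nonneg_right (h.τZ' (by norm_num) (by norm_num)) w
      _ = _ := by ring

theorem close (i : C.LI s) (h : C.OK) (o : C.ok s) (q : C.que s v) (β : Bool) :
    C.LI (s.close v β) := by
  have cd : ((s.close v β).X.card : ℝ) = s.X.card + 1 := by
    rw [show (s.close v β).X = insert v s.X from rfl, card_insert_of_notMem (mem_sdiff.1 q.1).2]
    push_cast; rfl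
  refine ⟨insert_subset (mem_inter.2 ⟨(mem_sdiff.1 q.1).1, i.qA q⟩) i.XA, fun z hz => ?_, i.as, i.af,
    i.kK, i.z, i.xs, i.att, ?_, i.cl_close h o.2 q β,
    (i.rf.trans (i.rf_close h q β)).mono fun f => le_of_eq (by rw [cd]; ring), ?_⟩
  · rcases mem_insert.1 hz with e | e
    · rw [e]; exact q.2
    · exact i.Xq z e
  · have := i.Φ_two h q
    cases β <;> linarith [o.1, Φ_nonneg (C := C) (s.close v true), Φ_nonneg (C := C) (s.close v false)]
  · rw [close_sd]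
    exact ((i.bil.sub (erase_subset v _)).add (i.bil_close h q β)).congr
      (fun x _ y _ => by ring) fun x _ => le_of_eq (by rw [cd]; ring)

end LI

end TC

end Pool.Agent.P.MP_d0f69c_mp.XS
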