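import Pool.Agent.P.MP_d0f69c_mp.XS.HLd
import Pool.Agent.P.MP_d0f69c_mp.XS.Att

/-! The loop of one healing turn: storing a vector, and the run of the loop. -/

set_option linter.unusedSectionVars false

namespace Pool.Agent.P.MP_d0f69c_mp.XS

open Finset Real

variable {ι : Type} [Fintype ι] [DecidableEq ι] {C : TC ι} {s : LS ι} {ξ : ι → ℂ}

theorem cs_sum (S : Finset ι) (a b : ι → ℂ) :
    ‖∑ x ∈ S, a x * b x‖ ^ 2 ≤ (∑ x ∈ S, ‖a x‖ ^ 2) * ∑ x ∈ S, ‖b x‖ ^ 2 :=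
  (pow_le_pow_left₀ (norm_nonneg _) ((norm_sum_le _ _).trans (le_of_eq (sum_congr rfl fun _ _ =>
    norm_mul _ _))) 2).trans (sum_mul_sq_le_sq_mul_sq _ _ _)

namespace TC

namespace LI

theorem deep (i : C.LI s) (h : C.OK) (hξ : ∑ b ∈ C.F, ‖ξ b‖ ^ 2 ≤ C.Z ^ 40) {x : ι}
    (hx : x ∈ C.T s) (hn : x ∉ C.gd ∩ C.A) : ‖C.gx s ξ x‖ ^ 2 ≤ C.e ^ 138 := by
  have e0 := h.e0
  have Z0 := one_pos.trans_le h.Z1
  have xT := mem_T.1 hx
  have a : ∀ b ∈ C.F, ‖C.G s x b‖ ≤ 2 * (C.e ^ 95 / C.Z ^ 20) := fun b hb => by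
    by_cases c : x ∈ C.B
    · linarith [i.entF h (mem_inter.2 ⟨hx, c⟩) hb, h.w4 x (mem_inter.2 ⟨c, xT.1⟩) xT.2.1 hn b hb]
    · have a1 := i.far h (h.FA hb) (i.FX h hb) c
      have a2 := h.τZ1 (k := 37) (j := 95) (by norm_num) (by norm_num)
      have a3 : C.τ * C.Z ^ 17 ≤ C.e ^ 95 / C.Z ^ 20 := by rw [le_div_iff₀ (by positivity)]; linarith
      have a4 := mul_le_of_le_one_right (mul_pos (OK.τ0 C) (pow_pos Z0 17)).le (h.ω0 x).2
      rw [show C.G s x b = C.G s b x from (i.gok h).sym x b]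
      linarith [show 0 ≤ C.e ^ 95 / C.Z ^ 20 by positivity]
  have b := h.Fsum (f := fun b => ‖C.G s x b‖ ^ 2) (sq_nonneg _) fun b hb =>
    pow_le_pow_left₀ (norm_nonneg _) (a b hb) 2
  calc _ ≤ 2 / C.e * (2 * (C.e ^ 95 / C.Z ^ 20)) ^ 2 * C.Z ^ 40 := (cs_sum _ _ _).trans
        (mul_le_mul b hξ (sum_nonneg fun _ _ => sq_nonneg _) (by positivity))
    _ = 8 * C.P ^ 0 * C.e ^ (138 + 51) / C.η ^ 0 := by field_simp; ring
    _ ≤ _ := h.sm' 0 0 138 51 (by norm_num) (by norm_num) (by norm_num)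

theorem viol_xs (h : C.OK) (V : C.Viol s ξ) : ∑ b ∈ C.F, ‖ξ b‖ ^ 2 ≤ C.Z ^ 40 := by
  have a := sum_nonneg fun y (_ : y ∈ C.T s) => mul_nonneg (h.gok0.a0 y) (sq_nonneg ‖C.gx s ξ y‖)
  have b : (∑ b ∈ C.F, ‖ξ b‖ ^ 2) / C.Z ^ 40 ≤ 1 := by linarith [V.1]
  exact (div_le_one (pow_pos (one_pos.trans_le h.Z1) _)).1 b

theorem viol_att (i : C.LI s) (h : C.OK) (nq : ¬ ∃ v, C.que s v) (V : C.Viol s ξ) :
    ∃ φ : ι → ℂ, 3 * (∑ j ∈ range s.k, ‖∑ b ∈ C.F, φ b * s.ξ j b‖ ^ 2 + ∑ b ∈ C.F, ‖φ b‖ ^ 2) <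
      ‖∑ b ∈ C.F, φ b * ξ b‖ ^ 2 := by
  obtain ⟨x, hx, hv⟩ := V.2
  have e0 := h.e0
  have xT := mem_T.1 hx
  have a : C.e ^ 135 < 2 * ‖C.gx s ξ x‖ ^ 2 :=
    hv.trans_le (mul_le_mul_of_nonneg_right (h.opn x xT.1).1.2 (sq_nonneg _))
  have n1 := h.sm' 0 0 135 3 (c := 2) (by norm_num) (by norm_num) (by norm_num)
  have n2 := h.sm' 0 0 135 1 (c := 48) (by norm_num) (by norm_num) (by norm_num)
  have n3 := h.sm' 0 0 135 54 (c := 384) (by norm_num) (by norm_num) (by norm_num)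
  simp only [pow_zero, mul_one, div_one, Nat.reduceAdd] at n1 n2 n3
  have b : x ∈ C.gd ∩ C.A := by_contra fun c => by linarith [i.deep h (viol_xs h V) hx c]
  have xg : x ∈ C.gd \ s.X := mem_sdiff.2 ⟨(mem_inter.1 b).1, xT.2.2⟩
  have xB := h.AB (mem_inter.1 b).2
  have c : ∀ j ∈ range s.k, ‖C.gx s (s.ξ j) x‖ ^ 2 ≤ 2 * C.e ^ 138 := fun j hj => by
    have c1 := i.am h ((mem_range.1 hj).trans i.kK) (mem_inter.2 ⟨xg, xB⟩)
    have c2 : ‖s.amp j x‖ ^ 2 ≤ (C.e ^ 69) ^ 2 := by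
      rw [← pow_mul]; exact not_lt.1 fun e => nq ⟨x, xg, j, mem_range.1 hj, e⟩
    have c3 := (abs_le_of_sq_le_sq' c2 (by positivity)).2
    have c4 := norm_add_le (C.gx s (s.ξ j) x - s.amp j x) (s.amp j x)
    rw [sub_add_cancel] at c4
    calc _ ≤ (5 / 4 * C.e ^ 69) ^ 2 := pow_le_pow_left₀ (norm_nonneg _) (by linarith) 2
      _ = 25 / 16 * C.e ^ 138 := by ring
      _ ≤ _ := by gcongr; norm_num
  have d := sum_le_card_nsmul _ _ _ c
  rw [card_range, nsmul_eq_mul] at d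
  have k : (s.k : ℝ) ≤ 2 / C.e ^ 2 := le_trans (by exact_mod_cast i.kK.le) h.K2
  have d2 := mul_le_mul_of_nonneg_right k (by positivity : 0 ≤ 2 * C.e ^ 138)
  rw [show 2 / C.e ^ 2 * (2 * C.e ^ 138) = 4 * C.e ^ 136 by field_simp; ring] at d2
  have f := h.Fsum (f := fun b => ‖C.G s x b‖ ^ 2) (sq_nonneg _) fun b hb =>
    pow_le_pow_left₀ (norm_nonneg _) (i.entF' h (mem_inter.2 ⟨hx, xB⟩) hb) 2
  rw [show 2 / C.e * (4 * C.e ^ 95) ^ 2 = 32 * C.e ^ 189 by field_simp; ring] at f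
  refine ⟨fun b => C.G s x b, ?_⟩
  change 3 * (∑ j ∈ range s.k, ‖C.gx s (s.ξ j) x‖ ^ 2 + _) < ‖C.gx s ξ x‖ ^ 2
  linarith

theorem attK (h : C.OK) {u : ℕ → ι → ℂ} (h1 : ∀ j < C.K, ∑ b ∈ C.F, ‖u j b‖ ^ 2 ≤ C.Z ^ 40)
    (h2 : ∀ j < C.K, ∃ φ : ι → ℂ, 3 * (∑ i ∈ range j, ‖∑ b ∈ C.F, φ b * u i b‖ ^ 2 +
      ∑ b ∈ C.F, ‖φ b‖ ^ 2) < ‖∑ b ∈ C.F, φ b * u j b‖ ^ 2) : False := by
  have e0 := h.e0
  have P1 := h.P1
  have s1 := h.sm 3 0 1 (c := 164) (by norm_num) (by norm_num) (by norm_num)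
  have s2 := h.sm 0 0 1 (c := 4) (by norm_num) (by norm_num) (by norm_num)
  simp only [pow_zero, pow_one, mul_one] at s1 s2
  refine att_lt (ι := C.F) (fun j b => u j b) C.K (a := 40 * C.P ^ 3) (m := 2 / C.e)
    (by simpa using h.cF) (by rw [le_div_iff₀ e0]; linarith [h.e1']) (by positivity) ?_
    (fun j hj => ?_) fun j hj => ?_
  · have a : 2 / C.e + C.K ≤ C.Y := by
      refine le_trans ?_ (h.eY (k := 3) (by norm_num))
      have : 2 / C.e + 2 / C.e ^ 2 ≤ 1 / C.e ^ 3 := by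
        rw [div_add_div _ _ e0.ne' (by positivity), div_le_div_iff₀ (by positivity) (by positivity)]
        nlinarith [pow_pos e0 3, pow_pos e0 4, mul_le_mul_of_nonneg_left h.e1' (pow_pos e0 4).le]
      linarith [h.K2]
    have b : log (2 / C.e + C.K) ≤ C.P ^ 3 :=
      ((log_le_iff_le_exp (by positivity)).2 a).trans (pow_le_pow_right₀ P1 (by norm_num))
    refine lt_of_lt_of_le ?_ h.K1
    calc _ ≤ 2 / C.e * (41 * C.P ^ 3) := by gcongr; linarith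
      _ = 82 * C.P ^ 3 * C.e / C.e ^ 2 := by field_simp; ring
      _ < _ := by gcongr; linarith
  · rw [sum_coe_sort C.F fun b => ‖u j b‖ ^ 2]
    refine (h1 j hj).trans (le_of_eq ?_)
    rw [Z, ← exp_nat_mul]; norm_num
  · obtain ⟨φ, hφ⟩ := h2 j hj
    refine ⟨fun b => φ b, ?_⟩
    have e : ∀ i, ∑ b : C.F, φ b * u i b = ∑ b ∈ C.F, φ b * u i b := fun i =>
      sum_coe_sort C.F fun b => φ b * u i b
    simp only [e, sum_coe_sort C.F fun b => ‖φ b‖ ^ 2]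
    exact hφ

theorem Φ_store (i : C.LI s) : C.Φ (C.store s ξ) ≤ C.Φ s := by
  refine add_le_add le_rfl (sum_le_sum fun j _ => ?_)
  by_cases e : j = s.k
  · subst e
    have a : C.Φ3 (C.store s ξ) s.k = C.Φ3 s s.k := sum_congr rfl fun x hx => by
      rw [(i.z _ le_rfl).1, (i.z _ le_rfl).2]
      simp only [store, Function.update_self, if_pos (mem_inter.1 hx).1]
      simp [gx, G, Ws]
    rw [a]
    refine mul_le_mul_of_nonneg_right (exp_le_exp.2 (neg_le_neg (sum_le_sum fun v _ => ?_)))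
      (Φ3_nonneg _ _)
    rw [(i.z _ le_rfl).2]
    gcongr
    simp
  · simp only [cost, Φ3, store, Function.update_of_ne e]
    exact le_rfl

theorem store (i : C.LI s) (h : C.OK) (nq : ¬ ∃ v, C.que s v) (V : C.Viol s ξ) :
    C.LI (C.store s ξ) := by
  have e0 := h.e0
  have xs : ∀ j < s.k + 1, ∑ b ∈ C.F, ‖Function.update s.ξ s.k ξ j b‖ ^ 2 ≤ C.Z ^ 40 :=
    fun j hj => by
    rcases Nat.lt_succ_iff_lt_or_eq.1 hj with e | e
    · rw [Function.update_of_ne e.ne]; exact i.xs j e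
    · rw [e, Function.update_self]; exact viol_xs h V
  have at' : ∀ j < s.k + 1, ∃ φ : ι → ℂ, 3 * (∑ i ∈ range j,
      ‖∑ b ∈ C.F, φ b * Function.update s.ξ s.k ξ i b‖ ^ 2 + ∑ b ∈ C.F, ‖φ b‖ ^ 2) <
      ‖∑ b ∈ C.F, φ b * Function.update s.ξ s.k ξ j b‖ ^ 2 := fun j hj => by
    have e1 : ∀ φ : ι → ℂ, ∑ i ∈ range j, ‖∑ b ∈ C.F, φ b * Function.update s.ξ s.k ξ i b‖ ^ 2 =
        ∑ i ∈ range j, ‖∑ b ∈ C.F, φ b * s.ξ i b‖ ^ 2 := fun φ => sum_congr rfl fun i hi => by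
      rw [Function.update_of_ne (by have := mem_range.1 hi; omega)]
    simp only [e1]
    rcases Nat.lt_succ_iff_lt_or_eq.1 hj with e | e
    · rw [Function.update_of_ne e.ne]; exact i.att j e
    · rw [e, Function.update_self]; exact i.viol_att h nq V
  refine ⟨i.XA, fun v hv => ?_, fun j => ?_, fun j y hy => ?_, ?_, fun j hj => ?_, xs, at',
    i.Φ_store.trans i.Φ2, i.cl, i.rf, i.bil⟩
  · obtain ⟨j, h1, h2⟩ := i.Xq v hv
    exact ⟨j, Nat.lt_succ_of_lt h1, by simpa only [TC.store, Function.update_of_ne h1.ne] using h2⟩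
  · by_cases e : j = s.k
    · simp only [TC.store, e, Function.update_self]
      refine (nq_ind _ _).le.trans ?_
      have a : ∑ y ∈ C.gd \ s.X, ‖C.gx s ξ y‖ ^ 2 ≤
          2 * ∑ y ∈ C.T s, XS.aw C.η C.W y * ‖C.gx s ξ y‖ ^ 2 := by
        rw [mul_sum]
        refine (sum_le_sum_of_subset_of_nonneg (fun y hy => gT h hy) fun _ _ _ => sq_nonneg _).trans
          (sum_le_sum fun y hy => ?_)
        linarith [mul_le_mul_of_nonneg_right (h.opn y (mem_T.1 hy).1).1.1 (sq_nonneg ‖C.gx s ξ y‖)]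
      have b : 0 ≤ (∑ b ∈ C.F, ‖ξ b‖ ^ 2) / C.Z ^ 40 :=
        div_nonneg (sum_nonneg fun _ _ => sq_nonneg _) (pow_nonneg (zero_le_one.trans h.Z1) _)
      linarith [V.1]
    · simpa only [TC.store, Function.update_of_ne e] using i.as j
  · by_cases e : j = s.k
    · simp only [TC.store, e, Function.update_self]
      split_ifs with c
      · exact i.deep h (viol_xs h V) (gT h c) fun d => hy (mem_inter.1 d).2
      · simpa using by positivity
    · simpa only [TC.store, Function.update_of_ne e] using i.af j y hy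
  · refine lt_of_le_of_ne i.kK fun e : s.k + 1 = C.K => ?_
    exact attK h (e ▸ xs) (e ▸ at')
  · have e : j ≠ s.k := fun e => by simp [TC.store, e] at hj
    simpa only [TC.store, Function.update_of_ne e] using i.z j (Nat.le_of_succ_le hj)

end LI

theorem OK.Φ_init (h : C.OK) : C.Φ LS.init ≤ C.Z := by
  have g : C.G LS.init = C.G0 := by simp [G, Ws, LS.init, Wc_empty, G0]
  have Y9 := h.Y9
  have cb : ∀ S ⊆ C.B, (S.card : ℝ) ≤ C.Y := fun S hS =>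
    le_trans (by exact_mod_cast card_le_card hS) h.cB
  have a1 : C.Φ1 LS.init ≤ C.Y * C.Y * 2 := by
    simp only [Φ1, g, sub_self, pot_zero, sum_const, nsmul_eq_mul]
    have := cb ((C.B ∩ C.O) \ (LS.init : LS ι).X) (sdiff_subset.trans inter_subset_left)
    have b : ((C.prs LS.init).card : ℝ) ≤ _ := Nat.cast_le.2 (card_filter_le _ _)
    rw [card_product, Nat.cast_mul] at b
    gcongr
    exact b.trans (by gcongr)
  have a2 : C.Φ2 LS.init ≤ C.Y := by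
    have : ∀ x, C.ν LS.init x = C.ν0 x := fun x => by rw [ν, g]; simp [ν0, LS.init]
    simp only [Φ2, this, sub_self, mul_zero, exp_zero, sum_const, nsmul_eq_mul, mul_one]
    exact cb _ inter_subset_right
  have a3 : ∀ j ∈ range C.K, exp (-C.cost LS.init j) * C.Φ3 LS.init j ≤ C.Y * 2 := fun j _ => by
    have := cb ((C.gd \ (LS.init : LS ι).X) ∩ C.B) inter_subset_right
    simpa [cost, Φ3, gx, LS.init, pot_zero] using this
  have a4 := sum_le_card_nsmul _ _ _ a3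
  rw [card_range, nsmul_eq_mul] at a4
  have k : (C.K : ℝ) ≤ 2 * C.Y := by
    linarith [h.K2, h.eY (k := 2) (by norm_num), show 2 / C.e ^ 2 = 2 * (1 / C.e ^ 2) by ring]
  have a5 := mul_le_mul_of_nonneg_right k (by positivity : 0 ≤ C.Y * 2)
  have z : exp (-(C.e ^ 140 / 4 * ((LS.init : LS ι).X.card : ℝ))) = 1 := by simp [LS.init]
  rw [Φ, z, one_mul]
  nlinarith [h.YZ' (k := 3) (by norm_num), mul_pos (by linarith : 0 < C.Y) (by linarith : 0 < C.Y)]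

theorem OK.init (h : C.OK) : C.LI LS.init := by
  have w : C.Ws LS.init = C.W := Wc_empty
  have g : C.G LS.init = C.G0 := by rw [G, w]; rfl
  have e0 := h.e0
  refine ⟨empty_subset _, fun v hv => absurd hv (notMem_empty _), fun j => by simp [LS.init],
    fun j y _ => by simpa [LS.init] using by positivity, ?_, fun j _ => ⟨rfl, rfl⟩,
    fun j hj => absurd hj (Nat.not_lt_zero _), fun j hj => absurd hj (Nat.not_lt_zero _),
    h.Φ_init.trans (by nlinarith [h.Z1]), fun v hv => absurd hv (notMem_empty _), ?_, ?_⟩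
  · exact_mod_cast (show (0 : ℝ) < C.K from lt_of_lt_of_le (by positivity) h.K1)
  · rw [w, g, show C.T LS.init = C.O \ C.F from sdiff_empty]
    exact (RF.refl _ _).mono fun f => by simp [LS.init]
  · rw [w, g]
    exact (Bil.zero _).congr (fun _ _ _ _ => sub_self _) fun x _ => by simp [LS.init]

variable {N : ℕ}

/-- nothing is left to do -/
def halt (C : TC ι) (s : LS ι) : Prop := ¬ C.ok s ∨ ((¬ ∃ v, C.que s v) ∧ ¬ ∃ ξ, C.Viol s ξ)

theorem step_cases (C : TC ι) (s : LS ι) : (C.halt s ∧ ∀ ϖ : Cfg ι N, C.step s ϖ = s) ∨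
    (∃ v, C.ok s ∧ C.que s v ∧ ∀ ϖ : Cfg ι N, C.step s ϖ = s.close v (ϖ v).1) ∨
    ∃ ξ, (¬ ∃ v, C.que s v) ∧ C.Viol s ξ ∧ ∀ ϖ : Cfg ι N, C.step s ϖ = C.store s ξ := by
  by_cases o : C.ok s
  · by_cases q : ∃ v, C.que s v
    · exact Or.inr (Or.inl ⟨_, o, q.choose_spec, fun ϖ => by rw [step, if_pos o, dif_pos q]⟩)
    · by_cases V : ∃ ξ, C.Viol s ξ
      · exact Or.inr (Or.inr ⟨_, q, V.choose_spec, fun ϖ => by
          rw [step, if_pos o, dif_neg q, dif_pos V]⟩)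
      · exact Or.inl ⟨Or.inr ⟨q, V⟩, fun ϖ => by rw [step, if_pos o, dif_neg q, dif_neg V]⟩
  · exact Or.inl ⟨Or.inl o, fun ϖ => by rw [step, if_neg o]⟩

theorem LI.step (i : C.LI s) (h : C.OK) (ϖ : Cfg ι N) : C.LI (C.step s ϖ) := by
  rcases step_cases (N := N) C s with ⟨-, e⟩ | ⟨v, o, q, e⟩ | ⟨ξ, q, V, e⟩ <;> rw [e]
  exacts [i, i.close h o q _, i.store h q V]

theorem cau_step (C : TC ι) (U : Finset ι) :
    Cau (κ := Bool × Fin N) (fun s : LS ι => U \ s.X) (fun s => U \ s.X) C.step := by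
  refine ⟨fun s ϖ => ?_, fun s ϖ ϖ' hϖ => ?_⟩
  all_goals rcases step_cases (N := N) C s with ⟨-, e⟩ | ⟨v, -, -, e⟩ | ⟨ξ, -, -, e⟩
  · rw [e]
  · rw [e]; exact sdiff_subset_sdiff subset_rfl (subset_insert _ _)
  · rw [e]; exact subset_rfl
  · rw [e, e]
  · rw [e, e, hϖ v (by rw [e]; simp [LS.close])]
  · rw [e, e]

theorem LI.av_step (i : C.LI s) (h : C.OK) (hN : N ≠ 0) {U : Finset ι} (hU : C.gd ⊆ U)
    (ϖ : Cfg ι N) : av (fun z => C.Φ (C.step s (mix (U \ s.X) z ϖ))) ≤ C.Φ s := by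
  rcases step_cases (N := N) C s with ⟨-, e⟩ | ⟨v, -, q, e⟩ | ⟨ξ, -, -, e⟩
  · exact av_le' (Φ_nonneg s) fun z => by rw [e]
  · have : ∀ z : Cfg ι N, mix (U \ s.X) z ϖ v = z v := fun z =>
      if_pos (sdiff_subset_sdiff hU subset_rfl q.1)
    simp only [e, this]
    rw [av_coin hN v fun β => C.Φ (s.close v β)]
    linarith [i.Φ_two h q]
  · exact av_le' (Φ_nonneg s) fun z => by rw [e]; exact i.Φ_store

/-- the loop -/
noncomputable def loop (C : TC ι) (ϖ : Cfg ι N) : LS ι :=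
  iter (fun _ => C.step) (C.B.card + C.K) LS.init ϖ

theorem OK.loop (h : C.OK) (ϖ : Cfg ι N) : C.LI (C.loop ϖ) ∧ C.halt (C.loop ϖ) ∧
    ∀ x ∈ (C.loop ϖ).X, (C.loop ϖ).b x = (ϖ x).1 := by
  obtain ⟨a, b, c⟩ := iter_inv (stp := fun _ => C.step) (ω := ϖ) (P := fun n s => C.LI s ∧
      (C.halt s ∨ n ≤ s.X.card + s.k) ∧ ∀ x ∈ s.X, s.b x = (ϖ x).1)
    ⟨h.init, Or.inr (Nat.zero_le _), fun x hx => absurd hx (notMem_empty _)⟩ (C.B.card + C.K)
    fun n _ s ⟨i, p, r⟩ => ⟨i.step h ϖ, by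
      rcases step_cases (N := N) C s with ⟨o, e⟩ | ⟨v, o, q, e⟩ | ⟨ξ, q, V, e⟩ <;> rw [e]
      · exact ⟨Or.inl o, r⟩
      · refine ⟨Or.inr ?_, fun x hx => ?_⟩
        · have := p.resolve_left fun c => c.elim (fun d => d o) fun d => d.1 ⟨v, q⟩
          simp only [LS.close, card_insert_of_notMem (mem_sdiff.1 q.1).2]
          omega
        · by_cases c : x = v
          · simp [LS.close, c]
          · simp only [LS.close, Function.update_of_ne c]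
            exact r x ((mem_insert.1 hx).resolve_left c)
      · refine ⟨?_, r⟩
        rcases p with p | p
        · rcases p with p | p
          · have := e ϖ
            rw [TC.step, if_neg p] at this
            exact Or.inl (this ▸ Or.inl p)
          · exact absurd ⟨ξ, V⟩ p.2
        · exact Or.inr (by simp only [TC.store]; omega)⟩
  refine ⟨a, b.resolve_right fun d => ?_, c⟩
  have := card_le_card (a.XA'.trans h.AB)
  have := a.kK
  omega

theorem cau_loop (C : TC ι) (U : Finset ι) : Cau (κ := Bool × Fin N) (fun _ : Unit => U)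
    (fun s : LS ι => U \ s.X) fun _ ϖ => C.loop ϖ :=
  ⟨fun _ _ => sdiff_subset, fun _ ϖ ϖ' h =>
    (Cau.iter (fun _ => C.cau_step U) _).eq LS.init ϖ ϖ' h⟩

theorem OK.trip (h : C.OK) (hN : N ≠ 0) {U : Finset ι} (hU : C.gd ⊆ U) (ϖ : Cfg ι N) :
    pr (fun z => C.Z ^ 2 < C.Φ (C.loop (mix U z ϖ))) ≤ exp (-C.P ^ 3) := by
  have : Nonempty (Fin N) := ⟨⟨0, Nat.pos_of_ne_zero hN⟩⟩
  have Z0 := one_pos.trans_le h.Z1
  have a := iter_av (fun _ => C.cau_step (N := N) U) (P := fun _ s => C.LI s) (Φ := fun _ => C.Φ)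
    h.init ϖ (C.B.card + C.K) (fun _ _ s ω i => i.step h ω) fun _ _ s ω i => i.av_step h hN hU ω
  rw [show U \ (LS.init : LS ι).X = U from sdiff_empty] at a
  refine (pr_le_av (f := fun z => (C.Z ^ 2)⁻¹ * C.Φ (C.loop (mix U z ϖ)))
    (fun z => mul_nonneg (by positivity) (Φ_nonneg _)) fun z hz => ?_).trans ?_
  · rw [← div_eq_inv_mul, le_div_iff₀ (by positivity)]; linarith
  · rw [av_mul, exp_neg]
    refine (mul_le_mul_of_nonneg_left (a.trans h.Φ_init) (by positivity)).trans (le_of_eq ?_)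
    change _ = C.Z⁻¹
    field_simp

end TC

end Pool.Agent.P.MP_d0f69c_mp.XS
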