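import Pool.Agent.P.MP_d0f69c_mp.XS.Num

/-! The error functional of a healing centre. -/

namespace Pool.Agent.P.MP_d0f69c_mp.XS

open Finset Real

variable {d M : ℕ} [NeZero M]

/-- the envelope of the tails -/
noncomputable def ωt (l : ℕ) (h : Tor d M) : ℝ := exp (-(nm h : ℝ) / (2 * l))

/-- local energy around `q`, with a small tail -/
noncomputable def Gq (p : Tor d M → ℝ) (L D l : ℕ) (ε : ℝ) (F : Tor d M → ℝ) (q : Tor d M) : ℝ :=
  Nm p (loc (tn d M) L D F q) +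
    ε * ∑ x, ωt l (x - q) * (F x - cm (tn d M) (L + D) F q) ^ 2

/-- the error functional of the centre `c` -/
noncomputable def Ec (p : Tor d M → ℝ) (r L D l : ℕ) (ε : ℝ) (c : Tor d M) (F : Tor d M → ℝ) : ℝ :=
  (∑ q ∈ bl c r, Gq p L D l ε F q) / vl d M r

omit [NeZero M] in
theorem ωt_pos (l : ℕ) (h : Tor d M) : 0 < ωt l h := exp_pos _

omit [NeZero M] in
theorem ωt_le (l : ℕ) (h : Tor d M) : ωt l h ≤ 1 :=
  exp_le_one_iff.2 (div_nonpos_of_nonpos_of_nonneg (neg_nonpos.2 (Nat.cast_nonneg _)) (by positivity))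

variable {p gt : Tor d M → ℝ} {l0 : ℕ} {CS γ0 : ℝ}

theorem RefOK.Nm0 (h : RefOK p gt l0 CS γ0) (F : Tor d M → ℝ) : 0 ≤ Nm p F :=
  let ⟨_, _, hv⟩ := h.var; hv.nonneg F

theorem RefOK.Gq0 (h : RefOK p gt l0 CS γ0) (L D l : ℕ) {ε : ℝ} (hε : 0 ≤ ε) (F : Tor d M → ℝ)
    (q : Tor d M) : 0 ≤ Gq p L D l ε F q :=
  add_nonneg (h.Nm0 _) (mul_nonneg hε (sum_nonneg fun _ _ => mul_nonneg (ωt_pos _ _).le (sq_nonneg _)))

theorem RefOK.Ec0 (h : RefOK p gt l0 CS γ0) (r L D l : ℕ) {ε : ℝ} (hε : 0 ≤ ε) (c : Tor d M)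
    (F : Tor d M → ℝ) : 0 ≤ Ec p r L D l ε c F :=
  div_nonneg (sum_nonneg fun _ _ => h.Gq0 L D l hε F _) (Nat.cast_nonneg _)

theorem RefOK.hardy (h : RefOK p gt l0 CS γ0) (γ1 : γ0 ^ 2 ≤ 1 / 4) {S : Finset (Tor d M)}
    {γ κ κ2 : ℝ} (hγ : 0 ≤ γ) (κ0 : 0 ≤ κ) (κ20 : 0 ≤ κ2)
    (hr : ∀ x ∈ S, ∑ y ∈ S.erase x, gt (x - y) ^ 2 ≤ γ ^ 2) {k : Tor d M → ℝ}
    (hk : ∀ x ∈ S, 0 ≤ k x ∧ k x ≤ κ) (h2 : ∑ x ∈ S, k x ^ 2 ≤ κ2 ^ 2) (F : Tor d M → ℝ) :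
    ∑ x ∈ S, k x * F x ^ 2 ≤ (2 * κ + 2 * γ * κ2) * Nm p F := by
  obtain ⟨c, hc, hv⟩ := h.var
  have c1 : 9 / 10 ≤ c := by linarith [(abs_le.1 hc).1]
  have g1 : gt 0 ≤ 1 / 2 := by
    have := (single_le_sum (f := fun x => gt x ^ 2) (fun _ _ => sq_nonneg _) (mem_univ 0)).trans
      (h.gam.trans γ1)
    nlinarith
  have e : ∀ g : Tor d M → ℝ, ∑ x, (if x ∈ S then g x else 0) = ∑ x ∈ S, g x := fun g => by
    rw [← sum_filter, filter_mem_eq_inter, univ_inter]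
  have := hv.hardy (by linarith) (fun x y => by rw [← h.ge, neg_sub]) hγ κ20
    (by norm_num : (0 : ℝ) ≤ 1 / 2) κ0 (fun x _ => by rw [sub_self]; exact g1) hr
    (k := fun x => if x ∈ S then k x else 0) (fun x hx => if_neg hx)
    (fun x => by split_ifs with hx; exacts [(hk x hx).1, le_rfl])
    (fun x => by split_ifs with hx; exacts [(hk x hx).2, κ0])
    (by simpa only [ite_pow, ne_eq, OfNat.ofNat_ne_zero, not_false_eq_true, zero_pow, e] using h2) F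
  simp only [ite_mul, zero_mul, e] at this
  refine this.trans (mul_le_mul_of_nonneg_right ?_ (h.Nm0 F))
  rw [div_le_iff₀ (by linarith)]
  nlinarith [mul_nonneg hγ κ20]

theorem RefOK.lock (h : RefOK p gt l0 CS γ0) (γ1 : γ0 ^ 2 ≤ 1 / 4) {gd S : Finset (Tor d M)}
    {R r L0 D l : ℕ} (hD : 0 < D) (hR : R + r ≤ L0) {c : Tor d M} {γ κ κ2 τ ε C : ℝ} (hγ : 0 ≤ γ) (κ0 : 0 ≤ κ)
    (κ20 : 0 ≤ κ2) (τ0 : 0 ≤ τ)
    (hr : ∀ x ∈ gd, ∑ y ∈ gd.erase x, gt (x - y) ^ 2 ≤ γ ^ 2) {k : Tor d M → ℝ}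
    (hk : ∀ x ∈ S ∩ bl c R, 0 ≤ k x ∧ k x ≤ κ) (h2 : ∑ x ∈ S ∩ bl c R ∩ gd, k x ^ 2 ≤ κ2 ^ 2)
    (h1 : ((S ∩ bl c R) \ gd).card ≤ 1) (hf : ∀ x ∈ S, x ∉ bl c R → k x ≤ τ * ωt l (x - c))
    (hC : 4 * κ + 2 * γ * κ2 ≤ C) (hτ : τ * exp (r / (2 * l)) ≤ C * ε) (F : Tor d M → ℝ) :
    ∃ m, ∑ x ∈ S, k x * (F x - m) ^ 2 ≤ C * Ec p r L0 D l ε c F := by
  have C0 : 0 ≤ C := le_trans (by positivity) hC
  have v0 : (0 : ℝ) < vl d M r := by exact_mod_cast (tn_NG d M).vol_pos r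
  obtain ⟨q, hq, hq'⟩ := exists_le_of_sum_le (s := bl c r) ⟨c, self_bl c r⟩
    (f := Gq p L0 D l ε F) (g := fun _ => Ec p r L0 D l ε c F) (by
      rw [sum_const, card_ball, nsmul_eq_mul, Ec, mul_div_cancel₀ _ v0.ne'])
  refine ⟨cm (tn d M) (L0 + D) F q, le_trans ?_ (mul_le_mul_of_nonneg_left hq' C0)⟩
  set m := cm (tn d M) (L0 + D) F q
  set L := loc (tn d M) L0 D F q with hL
  have e : ∀ x ∈ S ∩ bl c R, F x - m = L x := fun x hx => (loc_in hD F (mem_bl.2 (by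
    have := nm_tri x c q
    have := mem_bl.1 (mem_inter.1 hx).2
    have := mem_bl.1 hq
    have := nm_comm c q
    omega))).symm
  have a1 := h.hardy γ1 hγ κ0 κ20 (S := S ∩ bl c R ∩ gd) (fun x hx => le_trans
    (sum_le_sum_of_subset_of_nonneg (erase_subset_erase _ inter_subset_right)
      fun _ _ _ => sq_nonneg _) (hr x (mem_inter.1 hx).2))
    (fun x hx => hk x (mem_inter.1 hx).1) h2 L
  have a2 := h.hardy γ1 le_rfl κ0 (sqrt_nonneg (∑ x ∈ (S ∩ bl c R) \ gd, k x ^ 2))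
    (S := (S ∩ bl c R) \ gd) (fun x hx => by
      rw [card_eq_zero.1 (by rw [card_erase_of_mem hx]; omega : ((_ \ gd).erase x).card = 0)]
      simp) (fun x hx => hk x (mem_sdiff.1 hx).1)
    (sq_sqrt (sum_nonneg fun _ _ => sq_nonneg _)).ge L
  have a3 : ∑ x ∈ S \ bl c R, k x * (F x - m) ^ 2 ≤ C * (ε * ∑ x, ωt l (x - q) * (F x - m) ^ 2) := by
    rw [← mul_assoc, mul_sum]
    refine (sum_le_sum fun x hx => ?_).trans (sum_le_sum_of_subset_of_nonneg (subset_univ _)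
      fun x _ _ => mul_nonneg (le_trans (by positivity) hτ)
        (mul_nonneg (ωt_pos _ _).le (sq_nonneg _)))
    rw [← mul_assoc]
    refine mul_le_mul_of_nonneg_right ((hf x (mem_sdiff.1 hx).1 (mem_sdiff.1 hx).2).trans ?_)
      (sq_nonneg _)
    refine le_trans ?_ (mul_le_mul_of_nonneg_right hτ (ωt_pos _ _).le)
    rw [mul_assoc, ωt, ωt, ← exp_add, ← add_div]
    refine mul_le_mul_of_nonneg_left (exp_le_exp.2 (div_le_div_of_nonneg_right ?_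
      (by positivity))) τ0
    have : nm (x - q) ≤ nm (x - c) + r := by
      have := nm_tri x c q
      have := mem_bl.1 hq
      have := nm_comm c q
      omega
    have : (nm (x - q) : ℝ) ≤ nm (x - c) + r := by exact_mod_cast this
    linarith
  have a4 := mul_le_mul_of_nonneg_right hC (h.Nm0 L)
  rw [← sum_inter_add_sum_sdiff S (bl c R), sum_congr rfl fun x hx => by rw [e x hx],
    ← sum_inter_add_sum_sdiff (S ∩ bl c R) gd, Gq, mul_add]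
  linarith

theorem sq_avg_le {ι : Type} (B : Finset ι) (hB : (0 : ℝ) < B.card) (a : ℝ) (b : ι → ℝ) :
    (a - (∑ y ∈ B, b y) / B.card) ^ 2 ≤ (∑ y ∈ B, (a - b y) ^ 2) / B.card := by
  have e : a - (∑ y ∈ B, b y) / B.card = (∑ y ∈ B, (a - b y)) / B.card := by
    rw [sum_sub_distrib, sum_const, nsmul_eq_mul]; field_simp
  rw [e, div_pow, div_le_div_iff₀ (by positivity) hB]
  nlinarith [sq_sum_le_card_mul_sum_sq (s := B) (f := fun y => a - b y)]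

theorem RefOK.tail (h : RefOK p gt l0 CS γ0) (r l : ℕ) (F : Tor d M → ℝ) {V : ℝ}
    (hV : ∑ z : Tor d M, ωt l z * (1 + nm z) ^ 2 ≤ V) :
    ∑ q, ∑ x, ωt l (x - q) * (F x - cm (tn d M) r F q) ^ 2 ≤ CS * (1 + r) ^ 2 * V * NF p F := by
  have v0 : (0 : ℝ) < vl d M r := by exact_mod_cast (tn_NG d M).vol_pos r
  have N0 := NF_nonneg h.p0 F
  have c0 : 0 ≤ CS := zero_le_one.trans h.c1
  have e : ∀ q, ∑ x, ωt l (x - q) * (F x - cm (tn d M) r F q) ^ 2 =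
      ∑ z, ωt l z * (F (q + z) - cm (tn d M) r F q) ^ 2 := fun q => by
    rw [← Equiv.sum_comp (Equiv.addLeft q)]; simp
  simp only [e]
  rw [sum_comm]
  have k : ∀ z : Tor d M, ∑ q, (F (q + z) - cm (tn d M) r F q) ^ 2 ≤
      CS * (1 + r) ^ 2 * (1 + nm z) ^ 2 * NF p F := fun z => by
    have j : ∀ q, (F (q + z) - cm (tn d M) r F q) ^ 2 ≤
        (∑ y ∈ bl 0 r, (F (q + z) - F (q + y)) ^ 2) / vl d M r := fun q => by
      rw [cm, sum_ball]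
      exact sq_avg_le (bl 0 r) v0 _ _
    refine (sum_le_sum fun q _ => j q).trans ?_
    rw [← sum_div, sum_comm, div_le_iff₀ v0, mul_comm, ← nsmul_eq_mul]
    refine sum_le_card_nsmul _ _ _ fun y hy => ?_
    have s := h.shift (z - y) F
    rw [← Equiv.sum_comp (Equiv.addRight y)] at s
    simp only [Equiv.coe_addRight, add_assoc, add_sub_cancel] at s
    refine s.trans (mul_le_mul_of_nonneg_right ?_ N0)
    rw [mul_assoc]
    refine mul_le_mul_of_nonneg_left ?_ c0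
    have t1 : nm (z - y) ≤ nm z + r := by
      have := nm_tri z 0 y
      have := mem_bl.1 hy
      have := nm_comm 0 y
      rw [sub_zero] at *
      omega
    have t2 : (nm (z - y) : ℝ) ≤ nm z + r := by exact_mod_cast t1
    have t3 : (1 : ℝ) ≤ l0 := by exact_mod_cast h.l1
    have t4 : (nm (z - y) : ℝ) ^ 2 / (l0 : ℝ) ^ 2 ≤ (nm z + r) ^ 2 :=
      (div_le_self (sq_nonneg _) (one_le_pow₀ t3)).trans (by gcongr)
    have t5 : (0 : ℝ) ≤ nm z := Nat.cast_nonneg _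
    have t6 : (0 : ℝ) ≤ r := Nat.cast_nonneg _
    nlinarith [mul_nonneg t5 t6, mul_nonneg (mul_nonneg t5 t6) (add_nonneg t5 t6),
      sq_nonneg ((nm z : ℝ) * r)]
  simp only [← mul_sum]
  calc _ ≤ ∑ z : Tor d M, ωt l z * (CS * (1 + r) ^ 2 * (1 + nm z) ^ 2 * NF p F) :=
        sum_le_sum fun z _ => mul_le_mul_of_nonneg_left (k z) (ωt_pos _ _).le
    _ = CS * (1 + r) ^ 2 * (∑ z : Tor d M, ωt l z * (1 + nm z) ^ 2) * NF p F := by
        rw [mul_sum, sum_mul]; exact sum_congr rfl fun z _ => by ring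
    _ ≤ _ := by gcongr

theorem RefOK.sum_Ec (h : RefOK p gt l0 CS γ0) {r L D l : ℕ} {ε V Q : ℝ} (hε : 0 ≤ ε)
    (hV : ∑ z : Tor d M, ωt l z * (1 + nm z) ^ 2 ≤ V)
    (h1 : ε * (CS * (1 + (L + D : ℕ)) ^ 2 * V) ≤ 1) (F : Tor d M → ℝ)
    (hL : ∑ q, Nm p (loc (tn d M) L D F q) ≤ Q * vl d M r * NF p F)
    {C : Finset (Tor d M)} (hC : Sep C (2 * r)) :
    ∑ c ∈ C, Ec p r L D l ε c F ≤ (Q + 1) * NF p F := by
  have v1 : (1 : ℝ) ≤ vl d M r := by exact_mod_cast (tn_NG d M).vol_pos r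
  have N0 := NF_nonneg h.p0 F
  simp only [Ec]
  rw [← sum_div, div_le_iff₀ (by linarith), ← sum_biUnion fun x hx y hy hn => hC.disj le_rfl hx hy hn]
  refine (sum_le_sum_of_subset_of_nonneg (subset_univ _) fun q _ _ => h.Gq0 L D l hε F q).trans ?_
  simp only [Gq]
  rw [sum_add_distrib, ← mul_sum]
  have a := mul_le_mul_of_nonneg_left (h.tail (L + D) l F hV) hε
  have b := mul_le_mul_of_nonneg_right h1 N0
  nlinarith [mul_le_mul_of_nonneg_left v1 N0]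

end Pool.Agent.P.MP_d0f69c_mp.XS
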