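import Pool.Agent.P.MP_d0f69c_mp.XS.HT0
import Pool.Agent.P.MP_d0f69c_mp.XS.HCen

/-! The healing on the torus: geometry and numbers. -/

namespace Pool.Agent.P.MP_d0f69c_mp.XS

open Finset Real

variable {d M : ℕ} [NeZero M] {E : Env d M} {q : Par} {S0 S : St (Tor d M)} {n j : ℕ}
  {c : ℕ → Tor d M}

theorem gok_of (hE : E.OK) {H : Matrix (Tor d M) (Tor d M) ℝ} {J : Finset (Tor d M)}
    (hp : Phys E H J) {W : Tor d M → ℂ} (h1 : ∀ x ∈ J, (W x).im < 0)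
    (h2 : ∀ x, (W x).im < 0 ∨ W x = 1 ∨ W x = -1 ∨ ∃ k : Fin E.N, W x = val E.σ E.N k) :
    GOK E.η H W := by
  obtain ⟨a, b⟩ := t_adm d M E H J hE hp
  refine ⟨hE.η0, a, fun x => ?_, b _ h1 h2⟩
  rcases h2 x with a | a | a | ⟨k, a⟩
  exacts [a.le, by simp [a], by simp [a], by simp [a]]

theorem mem_Fc {c x : Tor d M} : x ∈ Fc E q S0 c ↔ (x ∈ S0.junk ∧ nm (x - c) ≤ q.D E.η 2) ∨
    (x ∈ S0.omg ∧ nm (x - c) ≤ q.rF E.η) := by
  simp only [Fc, mem_union, mem_inter, mem_bl]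

omit [NeZero M] in
theorem St.mem_O {x : Tor d M} : x ∈ S.O ↔ x ∈ S.good ∨ x ∈ S.omg ∨ x ∈ S.junk := by
  simp only [St.O, mem_union, or_assoc]

namespace HB

theorem fin (h : HB E q S0 n c) : q.fin = false := h.late.1

theorem geo (h : HB E q S0 n c) : q.rF E.η = q.P ^ 4 * q.D E.η 2 + q.D E.η 2 ∧
    q.rA E.η = 2 * (q.P ^ 4 * q.D E.η 2) + q.D E.η 2 ∧ q.D E.η 2 ≤ q.P ^ 4 * q.D E.η 2 ∧
    10 * (q.P ^ 4 * q.D E.η 2) ≤ q.rB E.η ∧ 10 * q.rB E.η ≤ q.D E.η 3 ∧ E.rH ≤ q.D E.η 2 ∧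
    100 * q.D E.η 3 ≤ E.ρ1 ∧ 1 ≤ q.D E.η 2 := by
  have P9 := h.hq.P9' h.hE
  have p : ∀ a b, a < b → 10 * q.P ^ a ≤ q.P ^ b := fun a b hab =>
    le_trans (by rw [pow_succ']; exact Nat.mul_le_mul_right _ (by omega))
      (Nat.pow_le_pow_right (by omega) (Nat.succ_le_of_lt hab))
  refine ⟨by rw [Par.rF]; ring, by rw [Par.rA]; ring,
    Nat.le_mul_of_pos_left _ (pow_pos (by omega) _), ?_, ?_,
    h.hq.l1.trans ((h.hq.l_le_li h.hE 2).trans (h.hq.li_le_D h.hE 2)), (h.hq.vj h.fin).2,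
    h.hq.D_one h.hE 2⟩
  · rw [← mul_assoc]; exact Nat.mul_le_mul_right _ (p 4 30 (by norm_num))
  · rw [Par.rB, ← mul_assoc]
    exact (Nat.mul_le_mul_right _ (p 30 60 (by norm_num))).trans (h.hq.D_grow' h.hE (by norm_num))

theorem out (h : HB E q S0 n c) {i k : ℕ} (hi : i < n) (hk : k < n) (ik : i ≠ k) {x : Tor d M}
    (hx : nm (x - c k) ≤ q.D E.η 3) : q.D E.η 3 < nm (x - c i) := by
  have := h.sep i hi k hk ik
  have := nm_tri (c i) x (c k)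
  have := nm_comm (c i) x
  omega

theorem keep (h : HB E q S0 n c) (hj : j < n) (k : Keep E q S0 c j S) {x : Tor d M}
    (hx : nm (x - c j) ≤ q.D E.η 3) :
    (x ∈ S0.good → x ∈ S.good) ∧ (x ∈ S0.omg → x ∈ S.omg) ∧ (x ∈ S0.junk ↔ x ∈ S.junk) :=
  k x fun i hi a => by
    have := h.out (hi.trans hj) hj hi.ne hx
    have := mem_bl.1 a
    have := h.geo
    omega

theorem keepO (h : HB E q S0 n c) (hj : j < n) (k : Keep E q S0 c j S) {x : Tor d M}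
    (hx : nm (x - c j) ≤ q.D E.η 3) (xO : x ∈ S0.O) : x ∈ S.O := by
  obtain ⟨a, b, e⟩ := h.keep hj k hx
  rw [St.mem_O] at xO ⊢
  exact xO.imp a fun t => t.imp b e.1

theorem iso (h : HB E q S0 n c) (hj : j < n) {x : Tor d M} (hx : nm (x - c j) ≤ q.D E.η 3)
    (xJ : x ∈ S0.junk) : nm (x - c j) ≤ q.D E.η 2 := (h.cand j hj).2.1.1 x xJ (by omega)

theorem cls (h : HB E q S0 n c) (hj : j < n) {x : Tor d M} (hx : nm (x - c j) ≤ q.D E.η 3)
    (xO : x ∈ S0.O) (xF : x ∉ Fc E q S0 (c j)) :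
    x ∈ S0.good ∨ (x ∈ S0.omg ∧ q.rF E.η < nm (x - c j)) := by
  rw [mem_Fc, not_or] at xF
  rcases St.mem_O.1 xO with a | a | a
  exacts [Or.inl a, Or.inr ⟨a, not_le.1 fun b => xF.2 ⟨a, b⟩⟩, absurd ⟨a, h.iso hj hx a⟩ xF.1]

theorem oeq (h : HB E q S0 n c) {x y : Tor d M} (hx : x ∈ S0.omg) (hy : y ∈ S0.omg)
    (hn : nm (x - y) ≤ q.D E.η 3) : x = y := by
  by_contra e
  have := h.hE.sep x (h.inv.oΩ hx) y (h.inv.oΩ hy) e
  have := h.geo
  omega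

theorem FA (h : HB E q S0 n c) (x : Tor d M) : Fc E q S0 x ⊆ bl x (q.rA E.η) ∩ S0.O := fun y hy => by
  have := h.geo
  rcases mem_Fc.1 hy with a | a
  exacts [mem_inter.2 ⟨mem_bl.2 (by omega), S0.junk_sub a.1⟩,
    mem_inter.2 ⟨mem_bl.2 (by omega), S0.omg_sub a.1⟩]

theorem θ7 (h : HB E q S0 n c) : (q.b2 E.η).θ ≤ 1 / 10 ^ 7 := h.hq.θ_add h.hE (by norm_num)

theorem gok (h : HB E q S0 n c) : GOK E.η S0.H S0.W := h.inv.gok0 h.hE (by linarith [h.θ7])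

theorem opn (h : HB E q S0 n c) {x : Tor d M} (hx : x ∈ S0.O) :
    (1 / 2 ≤ aw E.η S0.W x ∧ aw E.η S0.W x ≤ 2) ∧ ‖S0.W x‖ ≤ 1 / 10 :=
  ⟨h.inv.aw_half (by linarith [h.θ7]) hx, by linarith [(h.inv.opn x hx).1, h.θ7]⟩

theorem ωs (h : HB E q S0 n c) : ∑ z : Tor d M, ωt (q.li E.η 3) z ≤ exp (2 * (q.P : ℝ) ^ 2) :=
  (sum_le_sum fun _ _ => le_mul_of_one_le_right (exp_pos _).le
    (one_le_pow₀ (le_add_of_nonneg_right (Nat.cast_nonneg _)))).trans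
      (far_two h.hE h.hq h.fin le_rfl)

/-- the small number -/
theorem δ1 (h : HB E q S0 n c) :
    4 * (exp ((q.P : ℝ) ^ 6) * exp (-(q.P : ℝ) ^ 8)) ≤ exp (-(q.P : ℝ) ^ 6) := by
  have a := h.hq.pow_lt h.hE (a := 6) (b := 8) (c := 5) (by norm_num) (by norm_num)
  have b := h.hq.pow_le h.hE (a := 0) (b := 6) (by norm_num)
  have e := add_one_le_exp (3 : ℝ)
  calc _ ≤ exp 3 * (exp ((q.P : ℝ) ^ 6) * exp (-(q.P : ℝ) ^ 8)) := by gcongr; linarith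
    _ ≤ _ := by rw [← exp_add, ← exp_add]; exact exp_le_exp.2 (by rw [pow_zero] at b; linarith)

theorem δ2 (h : HB E q S0 n c) {k : ℕ} (hk : k ≤ q.P ^ 4 + 3) :
    exp (-(q.P : ℝ) ^ 6) ≤ (q.e ^ 200) ^ k := by
  refine le_trans ?_ (pow_le_pow_left₀ (exp_pos _).le h.hq.μ1 k)
  rw [← exp_nat_mul]
  have a : (k : ℝ) ≤ (q.P : ℝ) ^ 4 + 3 := by exact_mod_cast hk
  have b := h.hq.pow_lt h.hE (a := 5) (b := 6) (c := 4) (by norm_num) (by norm_num)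
  have e := h.hq.pow_le h.hE (a := 1) (b := 5) (by norm_num)
  have := h.hq.Ppos h.hE
  exact exp_le_exp.2 (by nlinarith)

theorem epow (h : HB E q S0 n c) {a b : ℕ} (hab : a ≤ b) : q.e ^ b ≤ q.e ^ a :=
  pow_le_pow_of_le_one h.hq.e0.le (h.hq.e_le_one h.hE) hab

theorem δ3 (h : HB E q S0 n c) {k : ℕ} (hk : k ≤ 400) :
    4 * (exp ((q.P : ℝ) ^ 6) * exp (-(q.P : ℝ) ^ 8)) ≤ q.e ^ k :=
  h.δ1.trans ((h.δ2 (k := 2) (by omega)).trans (by rw [← pow_mul]; exact h.epow hk))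

theorem Usum (h : HB E q S0 n c) (hj : j ≤ n) (x : Tor d M) :
    ∑ i ∈ range j, exp (-(q.P : ℝ) ^ 8) * ωt (q.li E.η 3) (x - c i) ≤
      exp ((q.P : ℝ) ^ 6) * exp (-(q.P : ℝ) ^ 8) := by
  rw [← mul_sum, mul_comm]
  refine mul_le_mul_of_nonneg_right ((sum_cen h.sep (f := ωt (q.li E.η 3))
    (fun z => (ωt_pos _ z).le) x (range_subset_range.2 hj)).trans (h.ωs.trans ?_)) (exp_pos _).le
  exact exp_le_exp.2 (h.hq.pow_lt h.hE (by norm_num) (by norm_num))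

theorem Unear (h : HB E q S0 n c) (hj : j < n) {x : Tor d M} (hx : nm (x - c j) ≤ q.D E.η 3) :
    Uj E q c j x ≤ exp ((q.P : ℝ) ^ 6) * exp (-(q.P : ℝ) ^ 8) :=
  le_trans (le_of_eq (sum_congr rfl fun i hi => if_neg fun a => by
    have := h.out ((mem_range.1 hi).trans hj) hj (mem_range.1 hi).ne hx
    have := mem_bl.1 a
    have := h.geo
    omega)) (h.Usum hj.le x)

theorem Uall (h : HB E q S0 n c) (hj : j ≤ n) (x : Tor d M) : Uj E q c j x ≤ 5 / 4 := by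
  have a : ∀ i ∈ range j, uc E q (c i) x ≤ (if x ∈ bl (c i) (q.rB E.η) then 1 else 0) +
      exp (-(q.P : ℝ) ^ 8) * ωt (q.li E.η 3) (x - c i) := fun i _ => by
    have := mul_pos (exp_pos (-(q.P : ℝ) ^ 8)) (ωt_pos (q.li E.η 3) (x - c i))
    unfold uc; split_ifs <;> linarith
  refine (sum_le_sum a).trans ?_
  rw [sum_add_distrib, sum_boole]
  have b : ((range j).filter fun i => x ∈ bl (c i) (q.rB E.η)).card ≤ 1 :=
    card_le_one.2 fun i hi k hk => by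
      by_contra e
      have := h.geo
      have := mem_bl.1 (mem_filter.1 hi).2
      have := mem_bl.1 (mem_filter.1 hk).2
      have := h.out ((mem_range.1 (mem_filter.1 hi).1).trans_le hj)
        ((mem_range.1 (mem_filter.1 hk).1).trans_le hj) e (x := x) (by omega)
      omega
  have b' : ((((range j).filter fun i => x ∈ bl (c i) (q.rB E.η)).card : ℕ) : ℝ) ≤ 1 := by
    exact_mod_cast b
  linarith [h.Usum hj x, h.δ3 (k := 0) (by norm_num), pow_zero q.e]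

theorem real (h : HB E q S0 n c) : (0 : ℝ) < q.li E.η 2 ∧
    (q.rA E.η : ℝ) ≤ 3 * (q.P : ℝ) ^ 12 * q.li E.η 2 ∧
    (q.rB E.η : ℝ) = (q.P : ℝ) ^ 38 * q.li E.η 2 ∧
    (q.P : ℝ) ^ 60 * q.li E.η 2 ≤ q.li E.η 3 := by
  have l0 : (0 : ℝ) < q.li E.η 2 := by exact_mod_cast h.hq.li_one h.hE 2
  refine ⟨l0, ?_, by simp only [Par.rB, Par.D]; push_cast; ring, ?_⟩
  · simp only [Par.rA, Par.D]
    push_cast
    nlinarith [mul_le_mul_of_nonneg_right (h.hq.pow_le h.hE (a := 8) (b := 12) (by norm_num)) l0.le]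
  · rw [Par.OK.li_succ q E.η 2]
    exact_mod_cast Nat.mul_le_mul_right _ (Par.OK.Lg_ge (q := q) h.hE)

/-- the rows of the next region of activity decay -/
theorem far (h : HB E q S0 n c) (hj : j < n) (i : CI E q S0 c j S) {p z : Tor d M}
    (hp : p ∈ bl (c j) (q.rA E.η) ∩ S0.O) (hz : z ∉ bl (c j) (q.rB E.η)) :
    ‖S.G p z‖ ≤ exp (-(q.P : ℝ) ^ 10) * ωt (q.li E.η 3) (z - c j) := by
  obtain ⟨Gs, g0, gj, ht⟩ := i.e5
  obtain ⟨l0, r1, r2, r3⟩ := h.real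
  have P1 := h.hq.Pone h.hE
  have B1 := h.hq.Bi_le (i := 2) (by norm_num)
  have B0 := h.hq.Bi_one 2
  have p : ∀ k ≤ 12, (q.P : ℝ) ^ k ≤ (q.P : ℝ) ^ 12 := fun k hk => h.hq.pow_le h.hE hk
  have p0 := p 0 (by norm_num)
  have p38 := h.hq.pow_lt h.hE (a := 12) (b := 38) (c := 200) (by norm_num) (by norm_num)
  have e3 : (4 : ℝ) ≤ exp 3 := by linarith [add_one_le_exp (3 : ℝ)]
  have a1 : (q.rA E.η : ℝ) / q.li E.η 2 ≤ 3 * (q.P : ℝ) ^ 12 := (div_le_iff₀ l0).2 r1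
  have a2 : -(q.rB E.η : ℝ) / (4 * q.li E.η 2) = -((q.P : ℝ) ^ 38 / 4) := by
    rw [r2]; field_simp
  rw [pow_zero] at p0
  have k := (dec_iso (G := Gs) (O := S0.O) (B := q.Bi 2) (V := exp (2 * (q.P : ℝ) ^ 2))
    (g := 2 / E.η) (L := 2 * q.li E.η 2) (l := q.li E.η 2) (R := q.rB E.η) (g0 ▸ h.inv.dec) B0
    (h.hq.li_one h.hE 2) le_rfl (by positivity) h.sep
    ((sum_le_sum fun z _ => le_mul_of_one_le_right (exp_pos _).le
      (one_le_pow₀ (le_add_of_nonneg_right (Nat.cast_nonneg _)))).trans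
        (far_four h.hE h.hq h.fin (i := 2) (by norm_num))) (by have := h.geo; omega) (by
      calc _ ≤ exp 3 * exp ((q.P : ℝ) ^ 3) ^ 18 * exp ((q.P : ℝ) ^ 6) *
            exp (2 * q.rA E.η / q.li E.η 2) * exp (-(q.rB E.η : ℝ) / (4 * q.li E.η 2)) *
            exp (2 * (q.P : ℝ) ^ 2) := by gcongr
        _ ≤ _ := by
            rw [← exp_nat_mul, ← exp_add, ← exp_add, ← exp_add, ← exp_add, ← exp_add, a2,
              mul_div_assoc]
            refine exp_le_one_iff.2 ?_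
            push_cast
            linarith [p 3 (by norm_num), p 6 (by norm_num), p 2 (by norm_num)])
    (one_le_pow₀ (one_le_exp (by positivity))) (div_pos two_pos h.hE.η0).le
    (fun x hx y hy => g0 ▸ h.gok.entry_le (h.opn hx).1.1 (h.opn hy).1.1) hj.le ht z).1 j le_rfl hj _ hp
  rw [gj, nm_comm] at k
  refine k.trans ?_
  have b1 : (q.rB E.η : ℝ) ≤ nm (z - c j) := by exact_mod_cast (not_le.1 (mt mem_bl.2 hz)).le
  have b2 : (nm (z - c j) : ℝ) / (2 * q.li E.η 3) ≤ nm (z - c j) / (4 * q.li E.η 2) :=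
    div_le_div_of_nonneg_left (Nat.cast_nonneg _) (by positivity) (by
      have := h.hq.pow_lt h.hE (a := 0) (b := 60) (c := 2) (by norm_num) (by norm_num)
      nlinarith)
  have b3 : (q.rB E.η : ℝ) / (4 * q.li E.η 2) ≤ nm (z - c j) / (4 * q.li E.η 2) :=
    div_le_div_of_nonneg_right b1 (by positivity)
  have b4 : (nm (z - c j) : ℝ) / (2 * q.li E.η 2) = 2 * (nm (z - c j) / (4 * q.li E.η 2)) := by
    field_simp; norm_num
  have b5 : (q.rA E.η : ℝ) / (2 * q.li E.η 2) = q.rA E.η / q.li E.η 2 / 2 := by field_simp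
  rw [neg_div] at a2
  calc _ ≤ exp 3 * exp ((q.P : ℝ) ^ 6) * exp (q.rA E.η / (2 * q.li E.η 2)) *
        exp (-(nm (z - c j) : ℝ) / (2 * q.li E.η 2)) := by gcongr
    _ ≤ _ := by
        rw [ωt, ← exp_add, ← exp_add, ← exp_add, ← exp_add, neg_div, neg_div, b4, b5]
        exact exp_le_exp.2 (by linarith [p 6 (by norm_num), p 10 (by norm_num)])

theorem dep (F : Finset (Tor d M)) (h : HB E q S0 n c) :
    DepP F (q.D E.η 2) (q.P ^ 4) (Classical.epsilon (DepP F (q.D E.η 2) (q.P ^ 4))) :=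
  Classical.epsilon_spec ((t_cen d M E q h.hE h.hq).2 F _ _)

end HB

theorem CI.opn (i : CI E q S0 c j S) (h : HB E q S0 n c) {x : Tor d M} (hx : x ∈ S.O) :
    (1 / 2 ≤ aw E.η S.W x ∧ aw E.η S.W x ≤ 2) ∧ ‖S.W x‖ ≤ 1 / 10 := by
  simpa only [aw, i.hW x hx] using h.opn (i.Os hx)

theorem CI.im (i : CI E q S0 c j S) (h : HB E q S0 n c) {x : Tor d M} (hx : x ∈ S.O) :
    (S.W x).im < 0 := by
  rw [i.hW x hx]; exact h.inv.im_neg h.hE (by linarith [h.θ7]) (i.Os hx)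

end Pool.Agent.P.MP_d0f69c_mp.XS
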