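import Pool.Agent.P.MP_d0f69c_mp.XS.HOa

/-! The hypotheses of a healing turn hold. -/

namespace Pool.Agent.P.MP_d0f69c_mp.XS

open Finset Real

variable {d M : ℕ} [NeZero M] {E : Env d M} {q : Par} {S0 S : St (Tor d M)} {n j : ℕ}
  {c : ℕ → Tor d M}

namespace HB

theorem rowA (h : HB E q S0 n c) {x : Tor d M} (hx : x ∈ S0.good ∨ x ∈ S0.omg) :
    x ∈ S0.rowA (q.b2 E.η).fin := by
  change x ∈ S0.rowA q.fin
  rw [h.fin]; exact mem_union.2 hx

theorem ampA (h : HB E q S0 n c) {x y : Tor d M} (hx : x ∈ S0.good ∨ x ∈ S0.omg) (hy : y ∈ S0.good)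
    (e : x ≠ y) : ‖S0.G x y‖ ≤ q.e ^ 100 / 2 := by
  have e0 := h.hq.e0
  have a : ‖S0.G x y‖ ^ 2 ≤ q.e ^ 200 / 7 := h.inv.ampA x (h.rowA hx) y hy e
  refine (abs_le_of_sq_le_sq' (a.trans ?_) (by positivity)).2
  rw [div_pow, ← pow_mul]; gcongr; norm_num

theorem amp (h : HB E q S0 n c) {x y : Tor d M} (hx : x ∈ S0.O) (hy : y ∈ S0.good) (e : x ≠ y) :
    ‖S0.G x y‖ ≤ 1 / 2 := by
  by_cases a : x ∈ S0.rowA (q.b2 E.η).fin
  · have b : ‖S0.G x y‖ ^ 2 ≤ q.μ / 7 := h.inv.ampA x a y hy e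
    exact (abs_le_of_sq_le_sq' (by linarith [h.hq.μ_le_one h.hE]) (by norm_num)).2
  · have b : ‖S0.G x y‖ ^ 2 ≤ (q.ζ + 2 / (q.P : ℝ) ^ 3) ^ 2 * q.μJ :=
      h.inv.ampB rfl x (mem_sdiff.2 ⟨hx, a⟩) y hy
    have P0 := h.hq.Ppos h.hE
    have c1 : 2 / (q.P : ℝ) ^ 3 ≤ 1 / (q.P : ℝ) ^ 2 := by
      rw [div_le_div_iff₀ (by positivity) (by positivity), one_mul]
      exact h.hq.pow_lt h.hE (by norm_num) (by norm_num)
    have c2 : (q.ζ + 2 / (q.P : ℝ) ^ 3) ^ 2 ≤ 1 ^ 2 := pow_le_pow_left₀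
      (add_nonneg (by linarith [h.hq.ζ0]) (by positivity)) (by linarith [h.hq.ζ1]) 2
    have c3 := mul_le_mul c2 ((h.hq.μJ_le h.hE).trans h.hE.η1) h.hq.μJpos.le (by norm_num)
    exact (abs_le_of_sq_le_sq' (by linarith) (by norm_num)).2

theorem sm (h : HB E q S0 n c) : 41 * q.μ * (q.P : ℝ) ^ 39 ≤ q.e ^ 120 / 2 := by
  have P0 := h.hq.Ppos h.hE
  have e0 := h.hq.e0
  have a : q.e * (q.P : ℝ) ^ 20 ≤ 1 :=
    ((le_div_iff₀ (by positivity)).1 h.late.2).trans (h.hE.η1.trans (by norm_num))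
  have b : (q.e * (q.P : ℝ) ^ 20) ^ 2 ≤ 1 := pow_le_one₀ (by positivity) a
  have c1 := h.hq.pow_lt h.hE (a := 39) (b := 40) (c := 82) (by norm_num) (by norm_num)
  calc _ = q.e ^ 200 * (82 * (q.P : ℝ) ^ 39) / 2 := by rw [Par.μ]; ring
    _ ≤ q.e ^ 122 * (q.P : ℝ) ^ 40 / 2 := by gcongr ?_ * ?_ / 2; exact h.epow (by norm_num)
    _ = q.e ^ 120 * (q.e * (q.P : ℝ) ^ 20) ^ 2 / 2 := by ring
    _ ≤ _ := by gcongr; exact mul_le_of_le_one_right (by positivity) b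

theorem base (h : HB E q S0 n c) (hj : j < n) {x y : Tor d M} (xO : x ∈ S0.O) (yO : y ∈ S0.O)
    (hx : nm (x - c j) ≤ q.D E.η 3) (hy : nm (y - c j) ≤ q.D E.η 3) (e : x ≠ y)
    (yF : y ∉ Fc E q S0 (c j)) (hn : nm (x - y) ≤ q.D E.η 2) :
    ‖S0.G x y‖ ≤ q.e ^ 95 ∧ (x ∉ Fc E q S0 (c j) → ‖S0.G x y‖ ≤ q.e ^ 100 / 2) := by
  have g := h.geo
  have k : q.e ^ 100 / 2 ≤ q.e ^ 95 := by
    linarith [h.epow (show 95 ≤ 100 by norm_num), pow_pos h.hq.e0 100]
  have xj : x ∈ S0.junk → x ∈ Fc E q S0 (c j) := fun a => mem_Fc.2 (Or.inl ⟨a, h.iso hj hx a⟩)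
  rcases h.cls hj hy yO yF with a | a
  · rcases or_assoc.2 (St.mem_O.1 xO) with b | b
    · exact ⟨(h.ampA b a e).trans k, fun _ => h.ampA b a e⟩
    · refine ⟨(abs_le_of_sq_le_sq' ?_ (pow_pos h.hq.e0 _).le).2, fun t => absurd (xj b) t⟩
      rw [← pow_mul]
      exact (h.cand j hj).2.2 x (mem_inter.2 ⟨b, mem_bl.2 (h.iso hj hx b)⟩) y a
  · rcases St.mem_O.1 xO with b | b | b
    · have := (congrArg norm (h.gok.sym x y)).trans_le (h.ampA (Or.inr a.1) b e.symm)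
      exact ⟨this.trans k, fun _ => this⟩
    · exact absurd (h.oeq b a.1 (by omega)) e
    · have := h.iso hj hx b
      have := nm_tri y x (c j)
      have := nm_comm y x
      omega

theorem wlow (h : HB E q S0 n c) (F : Finset (Tor d M)) (x y : Tor d M) :
    exp (-(q.P : ℝ) ^ 6) ≤ wtc E q F x y := by
  have e0 := h.hq.e0
  have a : ∀ z, q.e ^ 50 ≤ if z ∈ F then 2 * q.e ^ 45 else q.e ^ 50 := fun z => by
    split_ifs
    · linarith [h.epow (show 45 ≤ 50 by norm_num), pow_pos e0 45]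
    · exact le_rfl
  have b := (h.dep F).1 x
  have b' := (h.dep F).1 y
  refine (h.δ2 (k := q.P ^ 4 + 2 + 1) le_rfl).trans ?_
  rw [pow_succ', wtc]
  refine mul_le_mul ((h.epow (show 50 + 50 ≤ 200 by norm_num)).trans ?_) ?_ (by positivity)
    (mul_nonneg ((pow_pos e0 _).le.trans (a x)) ((pow_pos e0 _).le.trans (a y)))
  · rw [pow_add]
    convert mul_le_mul (a x) (a y) (by positivity) ((pow_pos e0 _).le.trans (a x))
  · rw [← pow_mul, ← pow_mul]
    exact h.epow (by unfold gap; omega)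

theorem env (h : HB E q S0 n c) (hj : j < n) (i : CI E q S0 c j S) {x y : Tor d M} (xO : x ∈ S.O)
    (yO : y ∈ S.O) (hx : nm (x - c j) ≤ q.D E.η 3) (hy : nm (y - c j) ≤ q.D E.η 3) (e : x ≠ y)
    (yF : y ∉ Fc E q S0 (c j)) : ‖S.G x y‖ ≤ wtc E q (Fc E q S0 (c j)) x y := by
  have e0 := h.hq.e0
  have a := (i.e1 x xO y yO).trans (mul_le_mul (show 2 * q.e ^ 120 ≤ 2 by
    linarith [h.epow (show 0 ≤ 120 by norm_num), pow_zero q.e]) (h.Unear hj hx)
    (sum_nonneg fun k _ => by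
      unfold uc; split_ifs; exacts [zero_le_one, (mul_pos (exp_pos _) (ωt_pos _ _)).le]) zero_le_two)
  have b := norm_add_le (S0.G x y) (S.G x y - S0.G x y)
  rw [add_sub_cancel] at b
  have d0 := mul_pos (exp_pos ((q.P : ℝ) ^ 6)) (exp_pos (-(q.P : ℝ) ^ 8))
  by_cases hn : nm (x - y) ≤ q.D E.η 2
  · obtain ⟨k1, k2⟩ := h.base hj (i.Os xO) (i.Os yO) hx hy e yF hn
    rw [wtc, (h.dep _).2.2.1 x y hn, pow_zero, mul_one, if_neg yF]
    split_ifs with xF
    · linarith [h.δ3 (k := 95) (by norm_num), show 2 * q.e ^ 45 * q.e ^ 50 = 2 * q.e ^ 95 by ring]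
    · linarith [h.δ3 (k := 100) (by norm_num), show q.e ^ 50 * q.e ^ 50 = q.e ^ 100 by ring, k2 xF]
  · have l0 := h.real.1
    have k : ‖S0.G x y‖ ≤ exp ((q.P : ℝ) ^ 6) * exp (-(q.P : ℝ) ^ 8) :=
      (h.inv.dec x (i.Os xO) y).trans (mul_le_mul (h.hq.Bi_le (i := 2) (by norm_num))
        (exp_le_exp.2 (by
          change _ / (q.li E.η 2 : ℝ) ≤ _
          rw [div_le_iff₀ l0, neg_mul, neg_le_neg_iff]
          exact_mod_cast (not_le.1 hn).le)) (exp_pos _).le (exp_pos _).le)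
    linarith [h.δ1, h.wlow (Fc E q S0 (c j)) x y]

theorem w4 (h : HB E q S0 n c) : 2 * (q.e ^ 5) ^ q.P ^ 4 ≤ 1 / exp ((q.P : ℝ) ^ 3) ^ 20 := by
  have P1 := h.hq.Pone h.hE
  have e0 := h.hq.e0
  have a : q.e ^ 5 ≤ exp (-1) := by
    have b : q.e ≤ 1 / 10 ^ 8 := h.late.2.trans ((div_le_self h.hE.η0.le (one_le_pow₀ P1)).trans h.hE.η1)
    refine ((h.epow (show 1 ≤ 5 by norm_num)).trans_eq (pow_one _)).trans (b.trans ?_)
    rw [exp_neg, one_div]
    exact inv_anti₀ (exp_pos 1) (exp_one_lt_d9.le.trans (by norm_num))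
  have b := h.hq.pow_lt h.hE (a := 3) (b := 4) (c := 21) (by norm_num) (by norm_num)
  calc _ ≤ exp 1 * exp (-1) ^ q.P ^ 4 := by gcongr; linarith [add_one_le_exp (1 : ℝ)]
    _ ≤ _ := by
        rw [← exp_nat_mul, ← exp_nat_mul, ← exp_add, one_div, ← exp_neg]
        refine exp_le_exp.2 ?_
        push_cast
        linarith [one_le_pow₀ (n := 3) P1]

end HB

theorem t_hok : S_HOK := by
  intro d M _ E q S0 S n j c h hj i k
  have hE := h.hE
  have hq := h.hq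
  have e0 := hq.e0
  have g := h.geo
  have P0 := hq.Ppos hE
  have dp := h.dep (Fc E q S0 (c j))
  have q1 : ∀ m, (q.e ^ 5) ^ m ≤ 1 := fun m => pow_le_one₀ (by positivity) (by
    simpa using h.epow (show 0 ≤ 5 by norm_num))
  have nB : ∀ {x}, x ∈ bl (c j) (q.rB E.η) → nm (x - c j) ≤ q.D E.η 3 := fun hx => by
    have := mem_bl.1 hx; omega
  have U0 : ∀ x, 0 ≤ Uj E q c j x := fun x => sum_nonneg fun k _ => by
    unfold uc; split_ifs; exacts [zero_le_one, (mul_pos (exp_pos _) (ωt_pos _ _)).le]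
  have Un : ∀ {x}, x ∈ bl (c j) (q.rB E.η) → Uj E q c j x ≤ 1 / 10 ^ 8 := fun hx => by
    have := h.late.2.trans ((div_le_self hE.η0.le (one_le_pow₀ (hq.Pone hE))).trans hE.η1)
    linarith [h.Unear hj (nB hx), h.δ3 (k := 1) (by norm_num), pow_one q.e, e0]
  have ws : ∀ x y, wtc E q (Fc E q S0 (c j)) x y = wtc E q (Fc E q S0 (c j)) y x := fun x y => by
    rw [wtc, wtc, gap_comm, mul_comm (ite _ _ _)]
  have gok : ∀ X ⊆ S.good, ∀ b, GOK E.η S.H (Wc S.W b X) := fun X hX b =>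
    gok_of hE i.phys (fun x hx => by
      rw [Wc_out fun a => disjoint_left.1 i.gj (hX a) hx]; exact i.im h (S.junk_sub hx)) fun x => by
      by_cases a : x ∈ X
      · rw [Wc_in a]; cases b x <;> simp [sgn]
      · rw [Wc_out a]
        by_cases c : x ∈ S.O
        exacts [Or.inl (i.im h c), Or.inr (i.cls x c)]
  have sym : ∀ x y, S.G x y = S.G y x := fun x y => by
    simpa only [Wc_empty, St.G] using (gok ∅ (empty_subset _) fun _ => true).sym x y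
  have ie : 1 ≤ 1 / q.e := one_le_one_div e0 (hq.e_le_one hE)
  refine ⟨hq.P9 hE, e0, h.late.2, hE.η1, hq.μ1, Nat.le_ceil _, ?_, gok, fun x hx => i.opn h hx,
    fun x hx => ?_, S.good_sub, ?_, h.FA _, fun x hx => ?_, fun x hx => ?_, ?_, ?_,
    fun x y => (exp_pos _).trans_le (h.wlow _ x y), fun x hx y hy => ?_, fun x hx y hy => ?_,
    fun x y v hv => ?_, fun x hx xF xg b hb => ?_, fun x hx y hy e hF => ?_, fun x hx => ?_,
    fun x hx xF => ?_, fun x hx y hy e => ?_, fun x => ⟨(ωt_pos _ _).le, ωt_le _ _⟩, ?_,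
    fun p hp z hz => h.far hj i hp hz, fun f => hE.ref.Ec0 _ _ _ _ (exp_pos _).le _ f,
    fun T hT κf κ κ2 C κ0 κ20 h1 h2 h3 h4 h5 f => ?_⟩
  · have a := (Nat.ceil_lt_add_one (by positivity : 0 ≤ 1 / q.e ^ 2)).le
    have b : 1 ≤ 1 / q.e ^ 2 := one_le_one_div (by positivity) (pow_le_one₀ e0.le (hq.e_le_one hE))
    change (⌈1 / q.e ^ 2⌉₊ : ℝ) ≤ 2 / q.e ^ 2
    linarith [show 2 / q.e ^ 2 = 2 * (1 / q.e ^ 2) by ring]
  · change aw E.η S.W x = 0
    rcases i.cls x hx with a | a | ⟨k, a⟩ <;> simp [aw, a]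
  · refine disjoint_left.2 fun x hx a => ?_
    rcases mem_Fc.1 a with a | a
    exacts [disjoint_left.1 h.inv.gj (i.gs hx) a.1, disjoint_left.1 h.inv.go (i.gs hx) a.1]
  · have := mem_bl.1 (mem_inter.1 hx).1
    exact h.keepO hj k (by omega) (mem_inter.1 hx).2
  · have := mem_bl.1 (mem_inter.1 hx).1
    exact mem_bl.2 (by omega)
  · refine le_trans ?_ (t_far d M E q hE hq).1
    exact Nat.cast_le.2 ((card_le_card fun x hx => mem_bl.2 (by have := nB hx; omega)).trans_eq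
      (card_ball (c j) _))
  · have a : (S0.omg ∩ bl (c j) (q.rF E.η)).card ≤ 1 := card_le_one.2 fun x hx y hy =>
      h.oeq (mem_inter.1 hx).1 (mem_inter.1 hy).1 (by
        have := mem_bl.1 (mem_inter.1 hx).2
        have := mem_bl.1 (mem_inter.1 hy).2
        have := nm_tri x (c j) y
        have := nm_comm (c j) y
        omega)
    have b : ((Fc E q S0 (c j)).card : ℝ) ≤ (S0.junk ∩ bl (c j) (q.D E.η 2)).card + 1 := by
      exact_mod_cast (card_union_le _ _).trans (add_le_add le_rfl a)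
    change ((Fc E q S0 (c j)).card : ℝ) ≤ 2 / q.e
    linarith [(h.cand j hj).2.1.2, show 2 / q.e = 2 * (1 / q.e) by ring]
  · change wtc _ _ _ _ _ ≤ q.e ^ 100
    change _ ∉ Fc E q S0 (c j) at hx hy
    rw [wtc, if_neg hx, if_neg hy, ← pow_add]
    exact mul_le_of_le_one_right (by positivity) (q1 _)
  · change wtc _ _ _ _ _ ≤ 2 * q.e ^ 95
    change _ ∉ Fc E q S0 (c j) at hx
    change _ ∈ Fc E q S0 (c j) at hy
    rw [wtc, if_neg hx, if_pos hy]
    exact (mul_le_of_le_one_right (by positivity) (q1 _)).trans_eq (by ring)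
  · change wtc _ _ _ _ _ * wtc _ _ _ _ _ ≤ q.e ^ 95 * wtc _ _ _ _ _
    have a : ∀ a b u w t : ℝ, 0 ≤ a * b → u * w ≤ t / q.e ^ 5 →
        a * q.e ^ 50 * u * (q.e ^ 50 * b * w) ≤ q.e ^ 95 * (a * b * t) := fun a b u w t h1 h2 =>
      calc _ = a * b * q.e ^ 100 * (u * w) := by ring
        _ ≤ a * b * q.e ^ 100 * (t / q.e ^ 5) := by gcongr
        _ = _ := by field_simp
    change _ ∉ Fc E q S0 (c j) at hv
    rw [wtc, wtc, wtc, if_neg hv]
    exact a _ _ _ _ _ (by split_ifs <;> positivity)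
      (pow_gap (by positivity) (by simpa using q1 1) _ _ _)
  · change wtc _ _ _ _ _ ≤ q.e ^ 95 / exp ((q.P : ℝ) ^ 3) ^ 20
    obtain ⟨xB, xO⟩ := mem_inter.1 hx
    have a : q.P ^ 4 + 1 ≤ _ := dp.2.2.2 x fun y hy => by
      have t := nm_tri x y (c j)
      rcases h.cls hj (nB xB) (i.Os xO) xF with a | a
      · have : ¬ nm (x - c j) ≤ q.rA E.η := fun b => xg (mem_inter.2
          ⟨(h.keep hj k (nB xB)).1 a, mem_inter.2 ⟨mem_bl.2 b, i.Os xO⟩⟩)
        rcases mem_Fc.1 hy with b | b <;> omega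
      · rcases mem_Fc.1 hy with b | b
        · omega
        · by_contra e
          exact xF (h.oeq a.1 b.1 (by omega) ▸ hy)
    change _ ∉ Fc E q S0 (c j) at xF
    change _ ∈ Fc E q S0 (c j) at hb
    rw [wtc, if_neg xF, if_pos hb, dp.2.1 b hb]
    calc _ ≤ q.e ^ 50 * (2 * q.e ^ 45) * (q.e ^ 5) ^ q.P ^ 4 := mul_le_mul_of_nonneg_left
          (pow_le_pow_of_le_one (by positivity) (by simpa using q1 1) (by unfold gap; omega))
          (by positivity)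
      _ = q.e ^ 95 * (2 * (q.e ^ 5) ^ q.P ^ 4) := by ring
      _ ≤ _ := by rw [div_eq_mul_one_div]; exact mul_le_mul_of_nonneg_left h.w4 (by positivity)
  · obtain ⟨xB, xO⟩ := mem_inter.1 hx
    obtain ⟨yB, yO⟩ := mem_inter.1 hy
    by_cases yF : y ∈ Fc E q S0 (c j)
    · exact (congrArg norm (sym x y)).trans_le ((h.env hj i yO xO (nB yB) (nB xB) e.symm
        fun a => hF ⟨a, yF⟩).trans_eq (ws y x))
    · exact h.env hj i xO yO (nB xB) (nB yB) e yF
  · obtain ⟨xg, xB⟩ := mem_inter.1 hx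
    have xO := S.good_sub xg
    have a : _ ≤ 41 * q.μ * (q.P : ℝ) ^ 39 := h.inv.mis x (i.gs xg)
    have b := norm_sub_le_norm_sub_add_norm_sub (S.G x x) (S0.G x x) (phi (S0.W x))
    change ‖S.G x x - phi (S.W x)‖ ≤ q.e ^ 120
    rw [i.hW x xO]
    nlinarith [i.e1 x xO x xO, h.sm, Un xB, pow_pos e0 120]
  · obtain ⟨xB, xO⟩ := mem_inter.1 hx
    have a : _ ≤ q.n / 14 := h.inv.lA x (h.rowA ((h.cls hj (nB xB) (i.Os xO) xF).imp id And.left))
    change ∑ y ∈ S.good.erase x, ‖S.G x y‖ ^ 4 ≤ q.n / 13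
    nlinarith [i.e2 x xO, Un xB, hq.npos hE]
  · have a := h.amp (i.Os hx) (i.gs hy) e
    have b := norm_add_le (S0.G x y) (S.G x y - S0.G x y)
    rw [add_sub_cancel] at b
    have t := h.late.2.trans ((div_le_self hE.η0.le (one_le_pow₀ (hq.Pone hE))).trans hE.η1)
    have u := mul_le_mul (show 2 * q.e ^ 120 ≤ 2 / 10 by
      linarith [h.epow (show 1 ≤ 120 by norm_num), pow_one q.e]) (h.Uall hj.le x) (U0 x) (by norm_num)
    change ‖S.G x y‖ ≤ 1
    linarith [i.e1 x hx y (S.good_sub hy)]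
  · change ∑ x, ωt (q.li E.η 3) (x - c j) ≤ exp ((q.P : ℝ) ^ 2) ^ 2
    rw [← exp_nat_mul]
    exact ((Equiv.subRight (c j)).sum_comp (ωt (q.li E.η 3))).trans_le h.ωs
  · have γ1 : E.γ0 ^ 2 ≤ 1 / 4 := by nlinarith [hE.γ00, hE.γ01, hE.η1]
    refine hE.ref.lock γ1 (gd := S.good) (γ := q.e ^ 200) (by omega) (by omega) (by positivity) κ0 κ20
      (τ := exp (-(q.P : ℝ) ^ 10) * exp ((q.P : ℝ) ^ 3) ^ 100) (by positivity) (fun x hx => ?_) h1 h2
      (card_le_one.2 fun x hx y hy => ?_) h3 h4 ?_ f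
    · have a : _ ≤ q.μ ^ 2 / 4 := h.inv.gs x (i.gs hx)
      refine (sum_le_sum_of_subset_of_nonneg (erase_subset_erase _ i.gs)
        fun _ _ _ => sq_nonneg _).trans (a.trans ?_)
      exact div_le_self (sq_nonneg _) (by norm_num)
    · have a : ∀ z ∈ (T ∩ bl (c j) (q.rB E.η)) \ S.good, z ∈ S0.omg ∧ nm (z - c j) ≤ q.rB E.η :=
        fun z hz => by
        obtain ⟨z1, z2⟩ := mem_sdiff.1 hz
        obtain ⟨z3, z4⟩ := mem_inter.1 z1
        obtain ⟨z5, z6⟩ := mem_sdiff.1 (hT z3)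
        exact ⟨((h.cls hj (nB z4) (i.Os z5) z6).resolve_left fun b =>
          z2 ((h.keep hj k (nB z4)).1 b)).1, mem_bl.1 z4⟩
      have := a x hx
      have := a y hy
      have := nm_tri x (c j) y
      have := nm_comm (c j) y
      exact h.oeq (a x hx).1 (a y hy).1 (by omega)
    · obtain ⟨l0, -, r2, r3⟩ := h.real
      have a : ((d * q.rB E.η : ℕ) : ℝ) / (2 * q.li E.η 3) ≤ 1 := by
        have d1 : (1 : ℝ) ≤ d := by exact_mod_cast hE.d1
        have d2 : (d : ℝ) ≤ q.P := by nlinarith [hq.Pd hE]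
        have p := mul_le_mul_of_nonneg_right (hq.pow_le hE (a := 39) (b := 60) (by norm_num)) l0.le
        have l3 : (0 : ℝ) < q.li E.η 3 := by exact_mod_cast hq.li_one hE 3
        rw [div_le_one (by positivity)]
        push_cast
        rw [r2]
        calc _ ≤ q.P * ((q.P : ℝ) ^ 38 * q.li E.η 2) := by gcongr
          _ ≤ _ := by linarith [show q.P * ((q.P : ℝ) ^ 38 * q.li E.η 2) =
              (q.P : ℝ) ^ 39 * q.li E.η 2 by ring]
      refine le_trans ?_ (mul_le_mul_of_nonneg_right (hq.μ1.trans h5) (exp_pos _).le)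
      rw [← exp_nat_mul, ← exp_add, ← exp_add, ← exp_add]
      refine exp_le_exp.2 ?_
      have p : ∀ m ≤ 8, (q.P : ℝ) ^ m ≤ (q.P : ℝ) ^ 8 := fun m hm => hq.pow_le hE hm
      have := hq.pow_lt hE (a := 8) (b := 10) (c := 200) (by norm_num) (by norm_num)
      push_cast at a ⊢
      linarith [p 0 (by norm_num), p 1 (by norm_num), p 3 (by norm_num), pow_zero (q.P : ℝ),
        pow_one (q.P : ℝ)]

end Pool.Agent.P.MP_d0f69c_mp.XS
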