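import Pool.Agent.P.MP_d0f69c_mp.XS.HRep
import Pool.Agent.P.MP_d0f69c_mp.XS.Basic

/-! A large entry of the Green function between closed sites gives a quasimode of the true
operator. -/

namespace Pool.Agent.P.MP_d0f69c_mp.XS

open Finset Matrix

section generic

variable {ι : Type} [Fintype ι] [DecidableEq ι]

/-- a real matrix as a complex one -/
noncomputable abbrev cx (A : Matrix ι ι ℝ) : Matrix ι ι ℂ := Complex.ofRealHom.mapMatrix A

theorem cx_apply (A : Matrix ι ι ℝ) (x y : ι) : cx A x y = A x y := rfl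

theorem cx_tr (A : Matrix ι ι ℝ) : cx Aᵀ = (cx A)ᵀ := rfl

theorem MM_eq (A : Matrix ι ι ℝ) (W : ι → ℂ) : NW.MM A W = cx A + diagonal W := by
  ext a b
  by_cases e : a = b <;> simp [NW.MM, e]

theorem rc_cx {A : Matrix ι ι ℝ} {r : ℝ} (h1 : ∀ x, ∑ y, |A x y| ≤ r) (h2 : ∀ y, ∑ x, |A x y| ≤ r) :
    RC (cx A) r := ⟨fun x => by simpa [cx_apply] using h1 x, fun x => by simpa [cx_apply] using h2 x⟩

omit [DecidableEq ι] in
theorem nq_le_of {u w : ι → ℂ} (h : ∀ x, ‖u x‖ ≤ ‖w x‖) : nq u ≤ nq w :=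
  sum_le_sum fun x _ => pow_le_pow_left₀ (norm_nonneg _) (h x) 2

theorem nq_ind (S : Finset ι) (u : ι → ℂ) :
    nq (fun x => if x ∈ S then u x else 0) = ∑ x ∈ S, ‖u x‖ ^ 2 := by
  rw [nq, ← sum_subset (subset_univ S) fun x _ hx => by simp [hx]]
  exact sum_congr rfl fun x hx => by rw [if_pos hx]

/-- operator norm at most `r` -/
def ON (A : Matrix ι ι ℂ) (r : ℝ) : Prop := ∀ z, nS univ (A *ᵥ z) ≤ r * nS univ z

omit [DecidableEq ι] in
theorem ON.of_nq {A : Matrix ι ι ℂ} {r : ℝ} (hr : 0 ≤ r) (h : ∀ z, nq (A *ᵥ z) ≤ r ^ 2 * nq z) :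
    ON A r := fun z => (abs_le_of_sq_le_sq' (by rw [mul_pow, nS_sq, nS_sq]; exact h z)
      (mul_nonneg hr (nS_nonneg _ _))).2

omit [DecidableEq ι] in
theorem ON.nq_le {A : Matrix ι ι ℂ} {r : ℝ} (h : ON A r) (z : ι → ℂ) :
    nq (A *ᵥ z) ≤ r ^ 2 * nq z := by
  simpa only [mul_pow, nS_sq, nq] using pow_le_pow_left₀ (nS_nonneg _ _) (h z) 2

omit [DecidableEq ι] in
theorem ON.mono {A : Matrix ι ι ℂ} {r s : ℝ} (h : ON A r) (hs : r ≤ s) : ON A s :=
  fun z => (h z).trans (mul_le_mul_of_nonneg_right hs (nS_nonneg _ _))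

omit [DecidableEq ι] in
theorem ON.mul {A B : Matrix ι ι ℂ} {r s : ℝ} (hA : ON A r) (hB : ON B s) (hr : 0 ≤ r) :
    ON (A * B) (r * s) := fun z => by
  rw [← mulVec_mulVec, mul_assoc]
  exact (hA _).trans (mul_le_mul_of_nonneg_left (hB z) hr)

omit [DecidableEq ι] in
theorem ON.sub {A B : Matrix ι ι ℂ} {r s : ℝ} (hA : ON A r) (hB : ON B s) :
    ON (A - B) (r + s) := fun z => by
  rw [sub_mulVec, add_mul]
  exact (nS_sub _ _ _).trans (add_le_add (hA z) (hB z))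

omit [DecidableEq ι] in
theorem RC.on {A : Matrix ι ι ℂ} {r : ℝ} (h : RC A r) (hr : 0 ≤ r) : ON A r :=
  ON.of_nq hr (h.nq_le hr)

theorem on_cx {A : Matrix ι ι ℝ} {r : ℝ} (hr : 0 ≤ r)
    (h : ∀ u : ι → ℝ, ∑ x, (A *ᵥ u) x ^ 2 ≤ r ^ 2 * ∑ x, u x ^ 2) : ON (cx A) r :=
  ON.of_nq hr fun z => by
    have e : ∀ x, ‖(cx A *ᵥ z) x‖ ^ 2 =
        (A *ᵥ fun y => (z y).re) x ^ 2 + (A *ᵥ fun y => (z y).im) x ^ 2 := fun x => by
      rw [Complex.sq_norm, Complex.normSq_apply]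
      simp [mulVec, dotProduct, cx_apply, sq]
    simp only [nq, e, Complex.sq_norm (z _), Complex.normSq_apply, ← sq, sum_add_distrib, mul_add]
    exact add_le_add (h _) (h _)

/-- the real form of an operator bound -/
theorem ON.real {A : Matrix ι ι ℝ} {r : ℝ} (h : ON (cx A) r) (u : ι → ℝ) :
    ∑ x, (A *ᵥ u) x ^ 2 ≤ r ^ 2 * ∑ x, u x ^ 2 := by
  have e : ∀ x, (cx A *ᵥ fun y => (u y : ℂ)) x = ((A *ᵥ u) x : ℝ) := fun x => by
    simp [mulVec, dotProduct, cx_apply]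
  simpa only [nq, e, Complex.norm_real, Real.norm_eq_abs, sq_abs] using h.nq_le fun y => (u y : ℂ)

end generic

variable {d M : ℕ} [NeZero M] {E : Env d M}

theorem Blk.rc {J : Finset (Tor d M)} {r : ℕ} {Λ k : ℝ} {A : Matrix (Tor d M) (Tor d M) ℝ}
    (h : Blk J r Λ A) (h1 : 1 ≤ Λ) (hk : J.card + 1 ≤ k) : RC (cx A) (k * Λ) := by
  have k1 : 1 ≤ k := le_trans (le_add_of_nonneg_left (Nat.cast_nonneg _)) hk
  have en : ∀ x y, |A x y| ≤ Λ := fun x y => abs_le_of_sq_le_sq (by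
    simpa [Pi.single_apply] using (single_le_sum (f := fun x => (A *ᵥ Pi.single y 1) x ^ 2)
      (fun _ _ => sq_nonneg _) (mem_univ x)).trans (h.row _)) (by linarith)
  have a : ∀ (x : Tor d M) (f : Tor d M → ℝ), (∀ y, |f y| ≤ Λ) →
      (∀ y, x ∉ J ∨ y ∉ J → f y = if x = y then 1 else 0) → ∑ y, |f y| ≤ k * Λ := fun x f h2 h3 => by
    by_cases hx : x ∈ J
    · rw [← sum_subset (subset_univ J) fun y _ hy => by
        rw [h3 y (Or.inr hy), if_neg fun e : x = y => hy (e ▸ hx), abs_zero]]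
      refine (sum_le_card_nsmul _ _ _ fun y _ => h2 y).trans ?_
      rw [nsmul_eq_mul]; gcongr; linarith
    · simpa [h3 _ (Or.inl hx), apply_ite abs] using one_le_mul_of_one_le_of_one_le k1 h1
  exact rc_cx (fun x => a x _ (en x) (h.off x)) fun y => a y _ (fun x => en x y) fun x hx => by
    rw [h.off x y hx.symm]; simp only [eq_comm]

theorem quasi (hE : E.OK) {H : Matrix (Tor d M) (Tor d M) ℝ} {J O : Finset (Tor d M)}
    {W : Tor d M → ℂ} (hp : Phys E H J) (hg : GOK E.η H W) (hJ : J ⊆ O)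
    (hO : ∀ x ∈ O, 1 / 2 ≤ aw E.η W x ∧ ‖W x‖ ≤ 1) {c : Tor d M} {D : ℕ}
    {ϖ : Cfg (Tor d M) E.N} {L Λ τ ε : ℝ} (L0 : 0 ≤ L)
    (hc : ∀ x ∈ bl c D, x ∉ O → W x = Wt E.σ E.Ω ϖ x)
    (hL : ∀ x ∈ bl c D ∩ O, ‖Wt E.σ E.Ω ϖ x‖ ≤ L)
    (hb : ∀ x ∈ J, ∀ y ∈ J, x ∈ bl c D → y ∉ bl c D → E.rH < nm (x - y)) {z z' : Tor d M}
    (hz : z ∉ O) (hz' : z' ∉ O) (zK : z ∈ bl c D) (Λ0 : 0 < Λ) (h1 : ‖NW.GG H W z z'‖ = Λ)
    (h2 : ‖NW.GG H W z' z'‖ ≤ Λ) (h3 : ∑ y ∈ (bl c D)ᶜ, ‖NW.GG H W y z'‖ ^ 2 ≤ τ * Λ ^ 2)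
    (hn : 4 * (1 + ((L + 3) / E.η ^ 2) ^ 2 * (2 * Λ / E.η) + τ * Λ ^ 2 / E.η ^ 8) ≤ ε ^ 2 * Λ ^ 2) :
    Reso E.H E.σ E.Ω (bl 0 D) ε c ϖ := by
  obtain ⟨U, V, Y, hU, hV, hY, hUV, -, hH⟩ := hp
  have η0 := hE.η0
  have η1 : E.η ≤ 1 := hE.η1.trans (by norm_num)
  set K := bl c D with hK
  set w := Wt E.σ E.Ω ϖ with hw
  set u : Tor d M → ℂ := fun x => NW.GG H W x z' with hu
  set uO : Tor d M → ℂ := fun x => if x ∈ O then u x else 0 with huO
  set uC : Tor d M → ℂ := fun x => if x ∈ O then 0 else u x with huC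
  set uT : Tor d M → ℂ := fun x => if x ∈ Kᶜ then u x else 0 with huT
  set v : Tor d M → ℂ := fun x => if x ∈ K then (cx U *ᵥ u) x else 0 with hv
  have mK : ∀ x, x - c ∈ bl 0 D ↔ x ∈ K := fun x => by rw [mem_bl, hK, mem_bl, sub_zero]
  have su : u = uO + uC := funext fun x => by by_cases h : x ∈ O <;> simp [huO, huC, h]
  have cJ : ∀ x ∈ J, uC x = 0 := fun x hx => if_pos (hJ hx)
  have tV : ∀ x y, x ∉ J ∨ y ∉ J → Vᵀ x y = if x = y then 1 else 0 := fun x y hxy => by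
    rw [transpose_apply, hV.off y x hxy.symm]; simp only [eq_comm]
  have rowU : ∀ x ∉ J, ∀ t : Tor d M → ℂ, (cx U *ᵥ t) x = t x := fun x hx t => by
    change ∑ y, (U x y : ℂ) * t y = t x
    simp [hU.off x _ (Or.inl hx), apply_ite]
  have e1 : cx H *ᵥ u + W * u = Pi.single z' 1 := by
    have : u = NW.GG H W *ᵥ Pi.single z' 1 := by rw [mulVec_single_one]; rfl
    rw [← AdmA.mv, this, mulVec_mulVec, NW.GG, mul_nonsing_inv _ hg.unit, one_mulVec]
  have e2 : cx E.H *ᵥ (cx U *ᵥ u) + (cx Y - 1) *ᵥ (cx U *ᵥ u) + cx Vᵀ *ᵥ (W * u) =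
      Pi.single z' 1 := by
    have h1 : Vᵀ * H = (E.H + (Y - 1)) * U := by
      rw [hH, ← Matrix.mul_assoc, ← Matrix.mul_assoc, ← transpose_mul, hUV, transpose_one,
        Matrix.one_mul]
    have h2 := congrArg (fun t => cx Vᵀ *ᵥ t) e1
    simp only [mulVec_add] at h2
    rwa [AdmA.fix tV (w := Pi.single z' 1) fun x hx => Pi.single_eq_of_ne
      (fun e : x = z' => hz' (e ▸ hJ hx)) _, mulVec_mulVec, ← map_mul, h1, map_mul, ← mulVec_mulVec,
      map_add, map_sub, map_one, add_mulVec] at h2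
  have e3 : cx U *ᵥ u = v + cx U *ᵥ uT := funext fun x => by
    have nz : ∀ y, U x y ≠ 0 → (x ∈ K ↔ y ∈ K) := fun y h => by
      by_cases c1 : x ∈ J ∧ y ∈ J
      · have := hU.rng x y h
        refine ⟨fun a => by_contra fun b => ?_, fun a => by_contra fun b => ?_⟩
        · have := hb x c1.1 y c1.2 a b; omega
        · have := hb y c1.2 x c1.1 a b; rw [nm_comm] at this; omega
      · rw [hU.off x y (not_and_or.1 c1)] at h
        rw [not_not.1 fun e => h (if_neg e)]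
    change ∑ y, (U x y : ℂ) * u y = v x + ∑ y, (U x y : ℂ) * uT y
    by_cases hx : x ∈ K
    · rw [sum_eq_zero (f := fun y => (U x y : ℂ) * uT y) fun y _ => by
        by_cases h : U x y = 0
        · simp [h]
        · simp [huT, (nz y h).1 hx], add_zero, hv]
      exact (if_pos hx).symm
    · rw [show v x = 0 from if_neg hx, zero_add]
      refine sum_congr rfl fun y _ => ?_
      by_cases h : U x y = 0
      · simp [h]
      · simp [huT, mt (nz y h).2 hx]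
  set Q : Matrix (Tor d M) (Tor d M) ℂ := diagonal (fun x => if x ∈ K ∩ O then w x else 0) * cx U -
    (cx Y - 1) * cx U - cx Vᵀ * diagonal fun x => if x ∈ O then W x else 0 with hQ
  have i0 : 0 ≤ 1 / E.η := by positivity
  have oU := on_cx i0 hU.row
  have rQ : ON Q ((L + 3) / E.η ^ 2) := by
    refine (((((RC.diag (r := L) fun x => by split_ifs with h; exacts [hL x h, by simpa]).on L0).mul
      oU L0).sub (((on_cx i0 hY.row).sub (RC.one.on zero_le_one)).mul oU (by positivity))).sub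
        ((on_cx i0 hV.col).mul ((RC.diag (r := 1) fun x => by
          split_ifs with h; exacts [(hO x h).2, by simp]).on zero_le_one) i0)).mono ?_
    rw [le_div_iff₀ (by positivity)]
    field_simp
    nlinarith
  have e4 : ∀ x ∈ K, (NW.MM E.H w *ᵥ v) x =
      (Pi.single z' 1 + Q *ᵥ uO - cx E.H *ᵥ (cx U *ᵥ uT) : Tor d M → ℂ) x := fun x hx => by
    have a1 : cx U *ᵥ u = cx U *ᵥ uO + uC := by rw [su, mulVec_add, AdmA.fix hU.off cJ]
    have a2 : (cx Y - 1) *ᵥ (cx U *ᵥ u) = (cx Y - 1) *ᵥ (cx U *ᵥ uO) := by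
      rw [a1, mulVec_add, sub_mulVec _ _ uC, AdmA.fix hY.off cJ, one_mulVec, sub_self, add_zero]
    have a3 : cx Vᵀ *ᵥ (W * u) = cx Vᵀ *ᵥ (diagonal (fun x => if x ∈ O then W x else 0) *ᵥ uO) +
        W * uC := by
      rw [su, mul_add, mulVec_add, AdmA.fix tV (w := W * uC) fun x hx => by simp [cJ x hx]]
      congr 2
      funext y
      by_cases h : y ∈ O <;> simp [mulVec_diagonal, huO, h]
    have a4 : w x * v x = (if x ∈ K ∩ O then w x else 0) * (cx U *ᵥ uO) x + W x * uC x := by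
      rw [show v x = (cx U *ᵥ u) x from if_pos hx, a1, Pi.add_apply]
      by_cases h : x ∈ O
      · simp [hx, h, huC]
      · rw [rowU x fun e => h (hJ e), hc x hx h]; simp [h, huO]
    have a5 := congrFun e2 x
    rw [a2, a3] at a5
    conv_lhs at a5 => rw [e3, mulVec_add]
    rw [AdmA.mv, hQ, sub_mulVec, sub_mulVec, ← mulVec_mulVec, ← mulVec_mulVec, ← mulVec_mulVec]
    simp only [Pi.add_apply, Pi.sub_apply, Pi.mul_apply, mulVec_diagonal] at a5 ⊢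
    rw [a4, ← a5]
    ring
  have n1 : nq uO ≤ 2 * Λ / E.η := by
    have a := (hg.row_le z' O).trans h2
    have b : nq uO ≤ 2 * ∑ y ∈ O, aw E.η W y * ‖NW.GG H W z' y‖ ^ 2 := by
      rw [huO, nq_ind, mul_sum]
      exact sum_le_sum fun y hy => by
        simp only [hu, hg.sym y z']; nlinarith [(hO y hy).1, sq_nonneg ‖NW.GG H W z' y‖]
    rw [le_div_iff₀ η0]; nlinarith
  have n2 : nq (cx E.H *ᵥ (cx U *ᵥ uT)) ≤ τ * Λ ^ 2 / E.η ^ 8 := by
    have a := (rc_cx hE.row fun y => by simpa only [hE.symm _ y] using hE.row y).nq_le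
      (by positivity) (cx U *ᵥ uT)
    have b := oU.nq_le uT
    rw [huT, nq_ind] at b
    calc _ ≤ (1 / E.η ^ 3) ^ 2 * ((1 / E.η) ^ 2 * (τ * Λ ^ 2)) :=
          a.trans (mul_le_mul_of_nonneg_left (b.trans (by gcongr)) (sq_nonneg _))
      _ = _ := by field_simp
  have n3 := (rQ.nq_le uO).trans (mul_le_mul_of_nonneg_left n1 (sq_nonneg _))
  have n4 := nq_sub (Pi.single z' 1 + Q *ᵥ uO) (cx E.H *ᵥ (cx U *ᵥ uT))
  have n5 := nq_add (Pi.single z' 1) (Q *ᵥ uO) one_pos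
  rw [nq_single] at n5
  have vz : ‖v z‖ = Λ := by
    rw [show v z = (cx U *ᵥ u) z from if_pos zK, rowU z fun e => hz (hJ e), h1]
  refine ⟨v, fun e => Λ0.ne (by rw [← vz, e]; simp), fun x hx => if_neg (mt (mK x).2 hx), ?_⟩
  calc _ ≤ nq (Pi.single z' 1 + Q *ᵥ uO - cx E.H *ᵥ (cx U *ᵥ uT)) := by
        rw [sum_congr rfl fun x hx => by rw [e4 x ((mK x).1 (mem_filter.1 hx).2)]]
        exact sum_le_sum_of_subset_of_nonneg (subset_univ _) fun _ _ _ => sq_nonneg _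
    _ ≤ ε ^ 2 * Λ ^ 2 := by linarith [nq_nonneg (cx E.H *ᵥ (cx U *ᵥ uT))]
    _ ≤ _ := by
        rw [← vz]
        exact mul_le_mul_of_nonneg_left (single_le_sum (f := fun x => ‖v x‖ ^ 2)
          (fun _ _ => sq_nonneg _) (mem_univ z)) (sq_nonneg _)

end Pool.Agent.P.MP_d0f69c_mp.XS
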