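import Pool.Agent.P.MP_d0f69c_mp.XS.Ward
import Pool.Agent.P.MP_d0f69c_mp.XS.HKle

/-! Representation of the Green function after a change on a set `Z`, up to a congruence. -/

namespace Pool.Agent.P.MP_d0f69c_mp.XS

open Finset Matrix
open scoped NNReal

variable {ι : Type} [Fintype ι] [DecidableEq ι]

/-- absolute row and column sums -/
def RC (A : Matrix ι ι ℂ) (r : ℝ) : Prop := (∀ x, ∑ y, ‖A x y‖ ≤ r) ∧ ∀ y, ∑ x, ‖A x y‖ ≤ r

omit [DecidableEq ι] in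
theorem RC.tr {A : Matrix ι ι ℂ} {r : ℝ} (h : RC A r) : RC Aᵀ r := ⟨h.2, h.1⟩

omit [DecidableEq ι] in
theorem RC.mono {A : Matrix ι ι ℂ} {r s : ℝ} (h : RC A r) (hs : r ≤ s) : RC A s :=
  ⟨fun x => (h.1 x).trans hs, fun x => (h.2 x).trans hs⟩

omit [DecidableEq ι] in
theorem row_mul {A B : Matrix ι ι ℂ} {r s : ℝ} (hs : 0 ≤ s) {x : ι} (hA : ∑ y, ‖A x y‖ ≤ r)
    (hB : ∀ x, ∑ y, ‖B x y‖ ≤ s) : ∑ y, ‖(A * B) x y‖ ≤ r * s :=
  calc _ ≤ ∑ y, ∑ z, ‖A x z‖ * ‖B z y‖ := sum_le_sum fun y _ =>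
        (norm_sum_le _ _).trans (le_of_eq (sum_congr rfl fun z _ => norm_mul _ _))
    _ = ∑ z, ‖A x z‖ * ∑ y, ‖B z y‖ := by rw [sum_comm]; simp only [mul_sum]
    _ ≤ ∑ z, ‖A x z‖ * s := sum_le_sum fun z _ => mul_le_mul_of_nonneg_left (hB z) (norm_nonneg _)
    _ ≤ r * s := by rw [← sum_mul]; exact mul_le_mul_of_nonneg_right hA hs

omit [DecidableEq ι] in
theorem RC.mul {A B : Matrix ι ι ℂ} {r s : ℝ} (hA : RC A r) (hB : RC B s) (hr : 0 ≤ r)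
    (hs : 0 ≤ s) : RC (A * B) (r * s) :=
  ⟨fun x => row_mul hs (hA.1 x) hB.1, fun y => by
    have := row_mul (A := Bᵀ) (B := Aᵀ) hr (hB.2 y) hA.2
    rwa [← transpose_mul, mul_comm s] at this⟩

omit [DecidableEq ι] in
theorem RC.add {A B : Matrix ι ι ℂ} {r s : ℝ} (hA : RC A r) (hB : RC B s) : RC (A + B) (r + s) :=
  ⟨fun x => (sum_le_sum fun y _ => norm_add_le (A x y) (B x y)).trans (by
    rw [sum_add_distrib]; exact add_le_add (hA.1 x) (hB.1 x)),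
  fun y => (sum_le_sum fun x _ => norm_add_le (A x y) (B x y)).trans (by
    rw [sum_add_distrib]; exact add_le_add (hA.2 y) (hB.2 y))⟩

omit [DecidableEq ι] in
theorem RC.sub {A B : Matrix ι ι ℂ} {r s : ℝ} (hA : RC A r) (hB : RC B s) : RC (A - B) (r + s) := by
  rw [sub_eq_add_neg]
  exact hA.add ⟨fun x => by simpa using hB.1 x, fun x => by simpa using hB.2 x⟩

theorem RC.diag {w : ι → ℂ} {r : ℝ} (h : ∀ x, ‖w x‖ ≤ r) : RC (diagonal w) r :=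
  ⟨fun x => by simpa [diagonal_apply, apply_ite] using h x,
    fun x => by simpa [diagonal_apply, apply_ite] using h x⟩

theorem RC.one : RC (1 : Matrix ι ι ℂ) 1 := RC.diag fun _ => by simp

omit [DecidableEq ι] in
theorem RC.nq_le {A : Matrix ι ι ℂ} {r : ℝ} (h : RC A r) (hr : 0 ≤ r) (z : ι → ℂ) :
    nq (A *ᵥ z) ≤ r ^ 2 * nq z := by
  have a : ∀ x, ‖(A *ᵥ z) x‖ ^ 2 ≤ r * ∑ y, ‖A x y‖ * ‖z y‖ ^ 2 := fun x => by
    have h1 : ‖(A *ᵥ z) x‖ ≤ ∑ y, ‖A x y‖ * ‖z y‖ :=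
      (norm_sum_le _ _).trans (le_of_eq (sum_congr rfl fun y _ => norm_mul _ _))
    refine (pow_le_pow_left₀ (norm_nonneg _) h1 2).trans ((sum_sq_le_sum_mul_sum_of_sq_le_mul univ
      (f := fun y => ‖A x y‖) (g := fun y => ‖A x y‖ * ‖z y‖ ^ 2) (fun _ _ => norm_nonneg _)
      (fun _ _ => by positivity) fun y _ => le_of_eq (by ring)).trans ?_)
    exact mul_le_mul_of_nonneg_right (h.1 x) (sum_nonneg fun _ _ => by positivity)
  refine (sum_le_sum fun x _ => a x).trans ?_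
  have b : ∑ y, ∑ x, ‖A x y‖ * ‖z y‖ ^ 2 ≤ r * nq z := by
    rw [nq, mul_sum]
    refine sum_le_sum fun y _ => ?_
    rw [← sum_mul]
    exact mul_le_mul_of_nonneg_right (h.2 y) (sq_nonneg _)
  rw [← mul_sum, sum_comm, sq, mul_assoc]
  exact mul_le_mul_of_nonneg_left b hr

/-- `A` vanishes outside `Z × Z` -/
def On (Z : Finset ι) (A : Matrix ι ι ℂ) : Prop := ∀ x y, x ∉ Z ∨ y ∉ Z → A x y = 0

/-- the old matrix is congruent to the new one up to a term on `Z` -/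
def Rep (Ms M1 : Matrix ι ι ℂ) (Z : Finset ι) (u L : ℝ) : Prop :=
  ∃ U D : Matrix ι ι ℂ, Ms = Uᵀ * (M1 - D) * U ∧ On Z (U - 1) ∧ On Z D ∧ RC U u ∧ RC D L

theorem On.row {Z : Finset ι} {U : Matrix ι ι ℂ} (h : On Z (U - 1)) (B : Matrix ι ι ℂ) {x : ι}
    (hx : x ∉ Z) (y : ι) : (U * B) x y = B x y := by
  have : U * B = (U - 1) * B + B := by rw [Matrix.sub_mul, Matrix.one_mul, sub_add_cancel]
  rw [this, Matrix.add_apply, mul_apply, sum_eq_zero fun z _ => by rw [h x z (Or.inl hx), zero_mul],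
    zero_add]

theorem On.col {Z : Finset ι} {U : Matrix ι ι ℂ} (h : On Z (U - 1)) (B : Matrix ι ι ℂ) (x : ι)
    {y : ι} (hy : y ∉ Z) : (B * U) x y = B x y := by
  have : B * U = B * (U - 1) + B := by rw [Matrix.mul_sub, Matrix.mul_one, sub_add_cancel]
  rw [this, Matrix.add_apply, mul_apply, sum_eq_zero fun z _ => by rw [h z y (Or.inr hy), mul_zero],
    zero_add]

omit [Fintype ι] in
theorem On.tr1 {Z : Finset ι} {U : Matrix ι ι ℂ} (h : On Z (U - 1)) : On Z (Uᵀ - 1) :=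
  fun x y hxy => by
  have := h y x hxy.symm
  simpa [Matrix.one_apply, eq_comm] using this

theorem rep_inv {Ms M1 U D : Matrix ι ι ℂ} (h : Ms = Uᵀ * (M1 - D) * U) (hs : IsUnit Ms.det) :
    IsUnit (M1 - D).det ∧ (M1 - D)⁻¹ = U * Ms⁻¹ * Uᵀ := by
  have h1 := hs
  rw [h, det_mul, det_mul, IsUnit.mul_iff, IsUnit.mul_iff] at h1
  refine ⟨h1.1.2, inv_eq_left_inv ?_⟩
  have e : Uᵀ * (M1 - D) = Ms * U⁻¹ := by
    rw [h, Matrix.mul_assoc _ U, mul_nonsing_inv _ h1.2, Matrix.mul_one]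
  rw [Matrix.mul_assoc, e, Matrix.mul_assoc, ← Matrix.mul_assoc Ms⁻¹, nonsing_inv_mul _ hs,
    Matrix.one_mul, mul_nonsing_inv _ h1.2]

theorem Rep.col {Ms M1 : Matrix ι ι ℂ} {Z : Finset ι} {u L ρ Λ : ℝ} (h : Rep Ms M1 Z u L)
    (hs : IsUnit Ms.det) (h1 : IsUnit M1.det) (u0 : 0 ≤ u) (L0 : 0 ≤ L) (ρ0 : 0 ≤ ρ) {x z : ι}
    (hx : x ∉ Z) (hz : z ∈ Z) (hρ : ∀ p ∈ Z, ‖Ms⁻¹ x p‖ ≤ ρ) (hΛ : ∀ s ∈ Z, ‖M1⁻¹ s z‖ ≤ Λ) :
    ‖M1⁻¹ x z‖ ≤ ρ * (u * (1 + L * (Z.card * Λ))) := by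
  obtain ⟨U, D, e, hU, hD, rU, rD⟩ := h
  obtain ⟨i1, i2⟩ := rep_inv e hs
  have e1 := inv_add_eq (D := D) i1 (by rwa [sub_add_cancel])
  rw [sub_add_cancel, i2] at e1
  have e2 : M1⁻¹ = U * (Ms⁻¹ * (Uᵀ * (1 - D * M1⁻¹))) := by
    rw [Matrix.mul_sub, Matrix.mul_sub, Matrix.mul_sub, Matrix.mul_one]
    simpa only [Matrix.mul_assoc] using e1
  have c1 : ∑ r, ‖(1 - D * M1⁻¹) r z‖ ≤ 1 + L * (Z.card * Λ) := by
    refine (sum_le_sum fun r _ => norm_sub_le _ _).trans ?_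
    rw [sum_add_distrib]
    refine add_le_add (RC.one.2 z) ?_
    calc _ ≤ ∑ r, ∑ s ∈ Z, ‖D r s‖ * Λ := sum_le_sum fun r _ => by
          rw [mul_apply, ← sum_subset (subset_univ Z) fun s _ hs => by
            rw [hD r s (Or.inr hs), zero_mul]]
          exact (norm_sum_le _ _).trans (sum_le_sum fun s hs => by
            rw [norm_mul]; exact mul_le_mul_of_nonneg_left (hΛ s hs) (norm_nonneg _))
      _ ≤ ∑ _s ∈ Z, L * Λ := by
          rw [sum_comm]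
          exact sum_le_sum fun s _ => by
            rw [← sum_mul]
            exact mul_le_mul_of_nonneg_right (rD.2 s) ((norm_nonneg _).trans (hΛ z hz))
      _ = _ := by rw [sum_const, nsmul_eq_mul]; ring
  have c2 := row_mul (A := (1 - D * M1⁻¹)ᵀ) (B := U) u0 (x := z) c1 rU.1
  rw [← transpose_transpose U, ← transpose_mul] at c2
  have c3 : ∀ p ∉ Z, (Uᵀ * (1 - D * M1⁻¹)) p z = 0 := fun p hp => by
    rw [hU.tr1.row _ hp, Matrix.sub_apply, one_apply_ne (fun e' : p = z => hp (e' ▸ hz)), mul_apply,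
      sum_eq_zero fun s _ => by rw [hD p s (Or.inl hp), zero_mul], sub_zero]
  rw [e2, hU.row _ hx, mul_apply]
  refine (norm_sum_le _ _).trans (le_trans (sum_le_sum (g := fun p =>
    ρ * ‖(Uᵀ * (1 - D * M1⁻¹)) p z‖) fun p _ => ?_) ?_)
  · by_cases hp : p ∈ Z
    · rw [norm_mul]; exact mul_le_mul_of_nonneg_right (hρ p hp) (norm_nonneg _)
    · simp [c3 p hp]
  · rw [← mul_sum, mul_comm u]
    exact mul_le_mul_of_nonneg_left c2 ρ0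

theorem Rep.tm {Ms M1 : Matrix ι ι ℂ} {Z : Finset ι} {u L Λ : ℝ} (h : Rep Ms M1 Z u L)
    (hs : IsUnit Ms.det) (h1 : IsUnit M1.det) (u0 : 0 ≤ u) (L0 : 0 ≤ L) (Λ0 : 0 ≤ Λ)
    (hΛ : ∀ s ∈ Z, ∀ z ∈ Z, ‖M1⁻¹ s z‖ ≤ Λ) :
    ∃ T, On Z T ∧ RC T (u * (L + L * (Z.card * Λ) * L) * u) ∧
      ∀ x ∉ Z, ∀ y ∉ Z, M1⁻¹ x y = Ms⁻¹ x y - (Ms⁻¹ * T * Ms⁻¹) x y := by
  obtain ⟨U, D, e, hU, hD, rU, rD⟩ := h
  obtain ⟨i1, i2⟩ := rep_inv e hs
  have e1 := inv_add_Tm (D := D) i1 (by rwa [sub_add_cancel])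
  rw [Tm, sub_add_cancel, i2] at e1
  let GZ : Matrix ι ι ℂ := fun s z => if s ∈ Z ∧ z ∈ Z then M1⁻¹ s z else 0
  have g1 : D * M1⁻¹ * D = D * GZ * D := by
    ext a b
    simp only [mul_apply, sum_mul]
    refine sum_congr rfl fun s _ => sum_congr rfl fun r _ => ?_
    by_cases c1 : s ∈ Z
    · by_cases c2 : r ∈ Z
      · simp [GZ, c1, c2]
      · simp [hD a r (Or.inr c2)]
    · simp [hD s b (Or.inl c1)]
  have n : ∀ s z, ‖GZ s z‖ ≤ (if z ∈ Z then Λ else 0) ∧ ‖GZ s z‖ ≤ if s ∈ Z then Λ else 0 :=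
    fun s z => by
    by_cases c1 : s ∈ Z <;> by_cases c2 : z ∈ Z <;> simp [GZ, c1, c2, Λ0]
    exact hΛ s c1 z c2
  have g2 : RC GZ (Z.card * Λ) :=
    ⟨fun s => (sum_le_sum fun z _ => (n s z).1).trans (by simp),
      fun z => (sum_le_sum fun s _ => (n s z).2).trans (by simp)⟩
  have o1 : On Z (D - D * M1⁻¹ * D) := fun a b hab => by
    rw [Matrix.sub_apply, hD a b hab, zero_sub, neg_eq_zero]
    rcases hab with c | c
    · rw [Matrix.mul_assoc, mul_apply]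
      exact sum_eq_zero fun s _ => by rw [hD a s (Or.inl c), zero_mul]
    · rw [mul_apply]
      exact sum_eq_zero fun s _ => by rw [hD s b (Or.inr c), mul_zero]
  refine ⟨Uᵀ * (D - D * M1⁻¹ * D) * U, fun a b hab => ?_, ?_, fun x hx y hy => ?_⟩
  · rcases hab with c | c
    · rw [Matrix.mul_assoc, hU.tr1.row _ c, mul_apply]
      exact sum_eq_zero fun s _ => by rw [o1 a s (Or.inl c), zero_mul]
    · rw [hU.col _ _ c, mul_apply]
      exact sum_eq_zero fun s _ => by rw [o1 s b (Or.inr c), mul_zero]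
  · rw [g1]
    have z0 : (0 : ℝ) ≤ Z.card * Λ := mul_nonneg (Nat.cast_nonneg _) Λ0
    have z1 := mul_nonneg L0 z0
    have z2 := add_nonneg L0 (mul_nonneg z1 L0)
    exact (rU.tr.mul (rD.sub ((rD.mul g2 L0 z0).mul rD z1 L0)) u0 z2).mul rU (mul_nonneg u0 z2) u0
  · have e2 : M1⁻¹ = U * (Ms⁻¹ - Ms⁻¹ * (Uᵀ * (D - D * M1⁻¹ * D) * U) * Ms⁻¹) * Uᵀ := by
      rw [Matrix.mul_sub U, Matrix.sub_mul]
      simpa only [Matrix.mul_assoc] using e1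
    conv_lhs => rw [e2]
    rw [hU.tr1.col _ _ hy, hU.row _ hx, Matrix.sub_apply]

omit [DecidableEq ι] in
theorem On.tri {Z : Finset ι} {T G : Matrix ι ι ℂ} {r ρ ρ' : ℝ} (hT : On Z T) (rT : RC T r)
    (ρ0 : 0 ≤ ρ) (ρ0' : 0 ≤ ρ') {x y : ι} (hx : ∀ p ∈ Z, ‖G x p‖ ≤ ρ) (hy : ∀ p ∈ Z, ‖G p y‖ ≤ ρ') :
    ‖(G * T * G) x y‖ ≤ ρ * (Z.card * r) * ρ' := by
  rw [Matrix.mul_assoc, mul_apply, ← sum_subset (subset_univ Z) fun p _ hp => by
    rw [mul_apply, sum_eq_zero fun s _ => by rw [hT p s (Or.inl hp), zero_mul], mul_zero]]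
  refine (norm_sum_le _ _).trans ((sum_le_card_nsmul _ _ (ρ * (r * ρ')) fun p hp => ?_).trans
    (le_of_eq (by rw [nsmul_eq_mul]; ring)))
  rw [norm_mul]
  refine mul_le_mul (hx p hp) ?_ (norm_nonneg _) ρ0
  rw [mul_apply]
  refine (norm_sum_le _ _).trans (le_trans (sum_le_sum (g := fun s => ‖T p s‖ * ρ') fun s _ => ?_)
    (by rw [← sum_mul]; exact mul_le_mul_of_nonneg_right (rT.1 p) ρ0'))
  by_cases c : s ∈ Z
  · rw [norm_mul]; exact mul_le_mul_of_nonneg_left (hy s c) (norm_nonneg _)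
  · simp [hT p s (Or.inr c)]

/-- the largest entry of `|G| + 1` between two sets -/
noncomputable def sb (G : Matrix ι ι ℂ) (S S' : Finset ι) : ℝ :=
  ((S ×ˢ S').sup fun p => ‖G p.1 p.2‖₊ + if p.1 = p.2 then 1 else 0 : ℝ≥0)

omit [Fintype ι] in
theorem sb_nonneg (G : Matrix ι ι ℂ) (S S' : Finset ι) : 0 ≤ sb G S S' := NNReal.coe_nonneg _

omit [Fintype ι] in
theorem le_sb (G : Matrix ι ι ℂ) {S S' : Finset ι} {x y : ι} (hx : x ∈ S) (hy : y ∈ S') :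
    ‖G x y‖ + (if x = y then 1 else 0) ≤ sb G S S' := by
  have := NNReal.coe_le_coe.2 (le_sup (f := fun p : ι × ι => ‖G p.1 p.2‖₊ +
    if p.1 = p.2 then 1 else 0) (mk_mem_product hx hy))
  simpa [sb, apply_ite] using this

omit [Fintype ι] in
theorem norm_le_sb (G : Matrix ι ι ℂ) {S S' : Finset ι} {x y : ι} (hx : x ∈ S) (hy : y ∈ S') :
    ‖G x y‖ ≤ sb G S S' :=
  le_trans (le_add_of_nonneg_right (by split_ifs <;> norm_num)) (le_sb G hx hy)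

omit [Fintype ι] in
theorem one_le_sb (G : Matrix ι ι ℂ) {S S' : Finset ι} {x : ι} (hx : x ∈ S) (hy : x ∈ S') :
    1 ≤ sb G S S' := by
  have := le_sb G hx hy
  rw [if_pos rfl] at this
  linarith [norm_nonneg (G x x)]

omit [Fintype ι] in
theorem sb_le {G : Matrix ι ι ℂ} {S S' : Finset ι} {B : ℝ} (hB : 0 ≤ B)
    (h : ∀ x ∈ S, ∀ y ∈ S', ‖G x y‖ + (if x = y then 1 else 0) ≤ B) : sb G S S' ≤ B := by
  lift B to ℝ≥0 using hB
  refine NNReal.coe_le_coe.2 (Finset.sup_le fun p hp => NNReal.coe_le_coe.1 ?_)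
  simpa [apply_ite] using h p.1 (mem_product.1 hp).1 p.2 (mem_product.1 hp).2

/-- one turn of the elimination -/
def Turn (G G' : Matrix ι ι ℂ) (A : Finset ι) (w : ℝ) : Prop :=
  ∀ a a', sb G' a a' ≤ sb G a a' + sb G a A * w * sb G A a'

omit [Fintype ι] in
theorem Turn.refl (G : Matrix ι ι ℂ) (A : Finset ι) {w : ℝ} (hw : 0 ≤ w) : Turn G G A w :=
  fun _ _ => le_add_of_nonneg_right
    (mul_nonneg (mul_nonneg (sb_nonneg _ _ _) hw) (sb_nonneg _ _ _))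

theorem Rep.turn {Ms M1 : Matrix ι ι ℂ} {Z A : Finset ι} {u L Λ w : ℝ} (h : Rep Ms M1 Z u L)
    (hs : IsUnit Ms.det) (h1 : IsUnit M1.det) (u0 : 0 ≤ u) (L0 : 0 ≤ L) (Λ0 : 0 ≤ Λ)
    (s1 : ∀ x y, Ms⁻¹ x y = Ms⁻¹ y x) (s2 : ∀ x y, M1⁻¹ x y = M1⁻¹ y x) (hA : Z ⊆ A)
    (hΛ : ∀ s ∈ Z, ∀ z ∈ Z, ‖M1⁻¹ s z‖ ≤ Λ) (w1 : Λ ≤ w) (w2 : u * (1 + L * (Z.card * Λ)) ≤ w)
    (w3 : Z.card * (u * (L + L * (Z.card * Λ) * L) * u) ≤ w) : Turn Ms⁻¹ M1⁻¹ A w := fun a a' => by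
  have w0 := Λ0.trans w1
  have n := sb_nonneg Ms⁻¹
  refine sb_le (add_nonneg (n _ _) (mul_nonneg (mul_nonneg (n _ _) w0) (n _ _))) fun x hx y hy => ?_
  have b := le_sb Ms⁻¹ hx hy
  have g0 := norm_nonneg (Ms⁻¹ x y)
  by_cases c1 : x ∈ Z <;> by_cases c2 : y ∈ Z
  · have := mul_le_mul (mul_le_mul (one_le_sb Ms⁻¹ hx (hA c1)) w1 Λ0 (n _ _))
      (one_le_sb Ms⁻¹ (hA c2) hy) zero_le_one (mul_nonneg (n _ _) w0)
    linarith [hΛ x c1 y c2]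
  · have k := h.col hs h1 u0 L0 (n A a') c2 c1 (fun p hp => by
      rw [s1]; exact norm_le_sb _ (hA hp) hy) fun s hs => hΛ s hs x c1
    have := mul_le_mul_of_nonneg_right (mul_le_mul (one_le_sb Ms⁻¹ hx (hA c1)) w2
      (by positivity) (n _ _)) (n A a')
    rw [s2 x y]; linarith
  · have k := h.col hs h1 u0 L0 (n a A) c1 c2 (fun p hp => norm_le_sb _ hx (hA hp))
      fun s hs => hΛ s hs y c2
    have := mul_le_mul (mul_le_mul_of_nonneg_left w2 (n a A)) (one_le_sb Ms⁻¹ (hA c2) hy)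
      zero_le_one (mul_nonneg (n _ _) w0)
    linarith
  · obtain ⟨T, t1, t2, t3⟩ := h.tm hs h1 u0 L0 Λ0 hΛ
    have k := t1.tri t2 (n a A) (n A a') (G := Ms⁻¹) (fun p hp => norm_le_sb _ hx (hA hp))
      fun p hp => norm_le_sb _ (hA hp) hy
    have := mul_le_mul_of_nonneg_right (mul_le_mul_of_nonneg_left w3 (n a A)) (n A a')
    rw [t3 x c1 y c2]
    linarith [norm_sub_le (Ms⁻¹ x y) ((Ms⁻¹ * T * Ms⁻¹) x y)]

end Pool.Agent.P.MP_d0f69c_mp.XS
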