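import Pool.Agent.P.MP_d0f69c_mp.XS.HQua
import Pool.Agent.P.MP_d0f69c_mp.XS.HMon

/-! Two self-contained pieces of the healing. -/

namespace Pool.Agent.P.MP_d0f69c_mp.XS

open Finset Real

/-- the congruence splits along an isolated cluster `F` -/
def S_SPLIT : Prop :=
  ∀ (d M : ℕ) [NeZero M] (E : Env d M) (H : Matrix (Tor d M) (Tor d M) ℝ) (J F : Finset (Tor d M)),
    E.OK → Phys E H J → (∀ x ∈ J, ∀ y ∈ J, x ∈ F → y ∉ F → E.rH < nm (x - y)) →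
    ∃ H1, Phys E H1 (J \ F) ∧ ∀ (W W1 : Tor d M → ℂ) (Z : Finset (Tor d M)) (L : ℝ), F ⊆ Z →
      0 ≤ L → (∀ x ∉ Z, W1 x = W x) → (∀ x ∈ Z, ‖W x‖ ≤ 1 ∧ ‖W1 x‖ ≤ L) →
      Rep (NW.MM H W) (NW.MM H1 W1) Z ((F.card + 1) * (1 / E.η))
        (L + 3 * ((F.card + 1) * (1 / E.η)) ^ 2)

/-- candidates for a centre of healing -/
def Cand {d M : ℕ} [NeZero M] (E : Env d M) (q : Par) (S : St (Tor d M)) (x : Tor d M) : Prop :=
  x ∈ S.junk ∧ Iso E q S.junk x (10 * q.D E.η 3) ∧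
    ∀ b ∈ S.junk ∩ bl x (q.D E.η 2), ∀ y ∈ S.good, ‖S.G b y‖ ^ 2 ≤ q.e ^ 190

/-- a separated list of centres that represents all candidates, and a depth function -/
def S_CEN : Prop :=
  ∀ (d M : ℕ) [NeZero M] (E : Env d M) (q : Par), E.OK → q.OK E →
    (∀ S : St (Tor d M), ∃ (n : ℕ) (c : ℕ → Tor d M), (∀ i < n, Cand E q S (c i)) ∧
      (∀ i < n, ∀ k < n, i ≠ k → 10 * q.D E.η 3 < nm (c i - c k)) ∧
      ∀ x, Cand E q S x → ∃ i < n, nm (x - c i) ≤ q.D E.η 2) ∧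
    ∀ (F : Finset (Tor d M)) (D k : ℕ), ∃ dep : Tor d M → ℕ, (∀ x, dep x ≤ k + 2) ∧
      (∀ b ∈ F, dep b = 0) ∧ (∀ x y, nm (x - y) ≤ D → gap (dep x) (dep y) = 0) ∧
      ∀ x, (∀ b ∈ F, k * D < nm (x - b)) → k + 1 ≤ dep x

end Pool.Agent.P.MP_d0f69c_mp.XS
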