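import Pool.Agent.P.MP_d0f69c_mp.XS.HFb
import Pool.Agent.P.MP_d0f69c_mp.XS.IfH
import Pool.Agent.P.MP_d0f69c_mp.XS.HLock
import Pool.Agent.P.MP_d0f69c_mp.XS.HDec
import Pool.Agent.P.MP_d0f69c_mp.XS.Far
import Pool.Agent.P.MP_d0f69c_mp.XS.Mono

/-! The healing on the torus: definitions and interfaces. -/

set_option linter.dupNamespace false

namespace Pool.Agent.P.MP_d0f69c_mp.XS

open Finset Real

variable {d M : ℕ} [NeZero M]

namespace Par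

variable (q : Par) (η : ℝ)

/-- radius of the cluster -/
noncomputable def rF : ℕ := (q.P ^ 4 + 1) * q.D η 2
/-- radius of the region of activity -/
noncomputable def rA : ℕ := (2 * q.P ^ 4 + 1) * q.D η 2
/-- radius of the monitored ball -/
noncomputable def rB : ℕ := q.P ^ 30 * q.D η 2

end Par

variable (E : Env d M) (q : Par)

/-- the cluster at the centre `c` -/
noncomputable def Fc (S0 : St (Tor d M)) (c : Tor d M) : Finset (Tor d M) :=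
  S0.junk ∩ bl c (q.D E.η 2) ∪ S0.omg ∩ bl c (q.rF E.η)

/-- weight of the effects of the turn at `c` -/
noncomputable def uc (c x : Tor d M) : ℝ :=
  if x ∈ bl c (q.rB E.η) then 1 else exp (-(q.P : ℝ) ^ 8) * ωt (q.li E.η 3) (x - c)

/-- error functional of the turn at `c` -/
noncomputable def Ecc (c : Tor d M) : (Tor d M → ℝ) → ℝ :=
  Ec E.p (d * q.rB E.η) (d * q.rB E.η + q.rB E.η) (q.rB E.η) (q.li E.η 3) (exp (-(q.P : ℝ) ^ 8)) c

/-- accumulated weight -/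
noncomputable def Uj (c : ℕ → Tor d M) (j : ℕ) (x : Tor d M) : ℝ := ∑ i ∈ range j, uc E q (c i) x

/-- a depth function for the cluster `F` -/
def DepP (F : Finset (Tor d M)) (D k : ℕ) (dep : Tor d M → ℕ) : Prop :=
  (∀ x, dep x ≤ k + 2) ∧ (∀ b ∈ F, dep b = 0) ∧ (∀ x y, nm (x - y) ≤ D → gap (dep x) (dep y) = 0) ∧
    ∀ x, (∀ b ∈ F, k * D < nm (x - b)) → k + 1 ≤ dep x

open Classical in
/-- the envelope of the entries -/
noncomputable def wtc (F : Finset (Tor d M)) (x y : Tor d M) : ℝ :=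
  (if x ∈ F then 2 * q.e ^ 45 else q.e ^ 50) * (if y ∈ F then 2 * q.e ^ 45 else q.e ^ 50) *
    (q.e ^ 5) ^ gap (epsilon (DepP F (q.D E.η 2) (q.P ^ 4)) x)
      (epsilon (DepP F (q.D E.η 2) (q.P ^ 4)) y)

/-- the data of the turn at `c` from the state `S` -/
noncomputable def tc (S0 S : St (Tor d M)) (c : Tor d M) : TC (Tor d M) :=
  ⟨E.η, q.e, q.P, ⌈1 / q.e ^ 2⌉₊, S.H, S.W, S.O, S.good, Fc E q S0 c, bl c (q.rB E.η),
    bl c (q.rA E.η) ∩ S0.O, wtc E q (Fc E q S0 c), fun x => ωt (q.li E.η 3) (x - c), Ecc E q c⟩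

/-- the standing hypotheses -/
structure HB (S0 : St (Tor d M)) (n : ℕ) (c : ℕ → Tor d M) : Prop where
  hE : E.OK
  hq : q.OK E
  late : q.late E.η
  inv : Inv E (q.b2 E.η) S0
  cand : ∀ i < n, Cand E q S0 (c i)
  sep : ∀ i < n, ∀ k < n, i ≠ k → 10 * q.D E.η 3 < nm (c i - c k)

/-- the analytic invariant after `j` turns -/
structure CI (S0 : St (Tor d M)) (c : ℕ → Tor d M) (j : ℕ) (S : St (Tor d M)) : Prop where
  gs : S.good ⊆ S0.good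
  os : S.omg ⊆ S0.omg
  Os : S.O ⊆ S0.O
  gj : Disjoint S.good S.junk
  oj : Disjoint S.omg S.junk
  phys : Phys E S.H S.junk
  hW : ∀ x ∈ S.O, S.W x = S0.W x
  cls : ∀ x ∉ S.O, S.W x = 1 ∨ S.W x = -1 ∨ ∃ k : Fin E.N, S.W x = val E.σ E.N k
  e1 : ∀ x ∈ S.O, ∀ y ∈ S.O, ‖S.G x y - S0.G x y‖ ≤ 2 * q.e ^ 120 * Uj E q c j x
  e2 : ∀ x ∈ S.O, ∑ y ∈ S.good.erase x, ‖S.G x y‖ ^ 4 ≤
    ∑ y ∈ S0.good.erase x, ‖S0.G x y‖ ^ 4 + q.n / 25 * Uj E q c j x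
  e3 : RF S0.O (Kk E.η S0.W S0.G) S.O (Kk E.η S.W S.G)
    fun f => q.e ^ 40 * ∑ i ∈ range j, Ecc E q (c i) f
  e4 : Bil S.good (fun x y => Am S.W S.G x y - Am S0.W S0.G x y) fun x => q.e ^ 40 * Uj E q c j x
  e5 : ∃ Gs : ℕ → Matrix (Tor d M) (Tor d M) ℂ, Gs 0 = S0.G ∧ Gs j = S.G ∧
    ∀ i < j, Turn (Gs i) (Gs (i + 1)) (bl (c i) (q.rA E.η) ∩ S0.O) (exp ((q.P : ℝ) ^ 3) ^ 18)

/-- nothing has moved away from the first `j` centres -/
def Keep (S0 : St (Tor d M)) (c : ℕ → Tor d M) (j : ℕ) (S : St (Tor d M)) : Prop :=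
  ∀ x, (∀ i < j, x ∉ bl (c i) (q.rA E.η)) →
    (x ∈ S0.good → x ∈ S.good) ∧ (x ∈ S0.omg → x ∈ S.omg) ∧ (x ∈ S0.junk ↔ x ∈ S.junk)

/-- the sites of `Z` become junk -/
def St.mv (S : St (Tor d M)) (Z : Finset (Tor d M)) (ev : Finset (Lab (Tor d M))) : St (Tor d M) :=
  { S with good := S.good \ Z, omg := S.omg \ Z, junk := S.junk ∪ Z, ev := ev }

/-- the congruence after the split -/
def SplP (H : Matrix (Tor d M) (Tor d M) ℝ) (J F : Finset (Tor d M))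
    (H1 : Matrix (Tor d M) (Tor d M) ℝ) : Prop :=
  Phys E H1 (J \ F) ∧ ∀ (W W1 : Tor d M → ℂ) (Z : Finset (Tor d M)) (L : ℝ), F ⊆ Z →
    0 ≤ L → (∀ x ∉ Z, W1 x = W x) → (∀ x ∈ Z, ‖W x‖ ≤ 1 ∧ ‖W1 x‖ ≤ L) →
    Rep (NW.MM H W) (NW.MM H1 W1) Z ((F.card + 1) * (1 / E.η))
      (L + 3 * ((F.card + 1) * (1 / E.η)) ^ 2)

theorem TC.OK.spl {ι : Type} [Fintype ι] [DecidableEq ι] {C : TC ι} (h : C.OK) :
    (C.F.card + 1) * (1 / C.η) ≤ C.Y ∧
      C.Z ^ 2 + 1 + 3 * ((C.F.card + 1) * (1 / C.η)) ^ 2 ≤ 2 * C.Z ^ 2 := by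
  have e0 := h.e0
  have η0 := h.η0
  have a : 3 ≤ 1 / C.e := by
    rw [le_div_iff₀ e0]; linarith [h.eη, h.η1]
  have b : (C.F.card + 1) * (1 / C.η) ≤ C.Y :=
    calc _ ≤ 1 / C.e * (1 / C.e) * (1 / C.e) := mul_le_mul (by
          nlinarith [h.cF, show 2 / C.e = 2 * (1 / C.e) by ring])
          (one_div_le_one_div_of_le e0 h.eη) (by positivity) (by positivity)
      _ = 1 / C.e ^ 3 := by ring
      _ ≤ _ := h.eY (by norm_num)
  refine ⟨b, ?_⟩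
  nlinarith [pow_le_pow_left₀ (by positivity) b 2, h.YZ' (k := 2) (by norm_num), h.Z9]

/-- the state after a successful turn -/
noncomputable def St.cl (S : St (Tor d M)) (F : Finset (Tor d M)) (t : LS (Tor d M))
    (ϖ : Cfg (Tor d M) E.N) : St (Tor d M) :=
  { S with
    H := Classical.epsilon (SplP E S.H S.junk F)
    W := fun x => if x ∈ F then Wt E.σ E.Ω ϖ x else Wc S.W t.b t.X x
    good := S.good \ (t.X ∪ F), omg := S.omg \ (t.X ∪ F), junk := S.junk \ F }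

/-- the test at the end of a turn -/
def Succ (C : TC (Tor d M)) (S : St (Tor d M)) (t : LS (Tor d M)) (ϖ : Cfg (Tor d M) E.N) : Prop :=
  C.wok t ∧ (∀ x ∈ C.F, ‖Wt E.σ E.Ω ϖ x‖ ≤ C.Z ^ 2 + 1) ∧
    ∀ z ∈ t.X ∪ C.F, ∀ z' ∈ t.X ∪ C.F, ‖(S.cl E C.F t ϖ).G z z'‖ ≤ C.Z ^ 12

open Classical in
/-- the end of a turn -/
noncomputable def fin (s : ℕ) (C : TC (Tor d M)) (c : Tor d M) (S : St (Tor d M))
    (t : LS (Tor d M)) (ϖ : Cfg (Tor d M) E.N) : St (Tor d M) :=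
  if C.Z ^ 2 < C.Φ t then S.mv (t.X ∪ C.F) (insert (s, 2, c) S.ev)
  else if Succ E C S t ϖ then S.cl E C.F t ϖ else S.mv (t.X ∪ C.F) (insert (s, 3, c) S.ev)

/-- one turn -/
noncomputable def turn (s : ℕ) (S0 : St (Tor d M)) (c : Tor d M) (S : St (Tor d M))
    (ϖ : Cfg (Tor d M) E.N) : St (Tor d M) :=
  fin E s (tc E q S0 S c) c S ((tc E q S0 S c).loop ϖ) ϖ

/-- the analytic invariant gives the invariant of the process -/
def S_HFIN : Prop :=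
  ∀ (d M : ℕ) [NeZero M] (E : Env d M) (q : Par) (S0 S : St (Tor d M)) (n : ℕ) (c : ℕ → Tor d M),
    HB E q S0 n c → CI E q S0 c n S → S.good = ∅ ∨ Cover E S.omg → Inv E (q.b3 E.η) S

/-- the hypotheses of a turn hold -/
def S_HOK : Prop :=
  ∀ (d M : ℕ) [NeZero M] (E : Env d M) (q : Par) (S0 S : St (Tor d M)) (n j : ℕ) (c : ℕ → Tor d M),
    HB E q S0 n c → j < n → CI E q S0 c j S → Keep E q S0 c j S → (tc E q S0 S (c j)).OK

/-- a failed test without an alarm is a resonance -/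
def S_HWEV : Prop :=
  ∀ (d M : ℕ) [NeZero M] (E : Env d M) (q : Par) (S0 S : St (Tor d M)) (n j : ℕ) (c : ℕ → Tor d M)
    (t : LS (Tor d M)) (ϖ : Cfg (Tor d M) E.N), HB E q S0 n c → j < n → CI E q S0 c j S →
    Keep E q S0 c j S → (tc E q S0 S (c j)).OK → (tc E q S0 S (c j)).LI t →
    (∀ x ∈ t.X, t.b x = (ϖ x).1) → Cons E S ϖ → ¬ Succ E (tc E q S0 S (c j)) S t ϖ →
    Wev E q (c j) ϖ

/-- joint bound for labels that are attached to the steps of a causal iteration -/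
def S_HEB : Prop :=
  ∀ (ι κ S L : Type) [Fintype ι] [DecidableEq ι] [Fintype κ] [Nonempty κ] (U : S → Finset ι)
    (stp : ℕ → S → (ι → κ) → S) (P : ℕ → S → Prop) (ev : S → L → Prop) (lab : ℕ → L) (n : ℕ)
    (p : ℝ) (s : S) (ϖ : ι → κ) (I : Finset L), 0 ≤ p → p ≤ 1 → (∀ i, Cau U U (stp i)) → P 0 s →
    (∀ i < n, ∀ s ω, P i s → P (i + 1) (stp i s ω)) → (∀ i < n, ∀ k < n, lab i = lab k → i = k) →
    (∀ i < n, ∀ s ω, ∀ ℓ ∈ I, ev (stp i s ω) ℓ → ev s ℓ ∨ ℓ = lab i) →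
    (∀ i < n, ∀ s ϖ, P i s → ¬ ev s (lab i) →
      pr (fun z => ev (stp i s (mix (U s) z ϖ)) (lab i)) ≤ p) →
    pr (fun z => ∀ ℓ ∈ I, ev (iter stp n s (mix (U s) z ϖ)) ℓ ∧ ¬ ev s ℓ) ≤ p ^ I.card

end Pool.Agent.P.MP_d0f69c_mp.XS
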