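import Pool.Agent.P.MP_d0f69c_mp.XS.HOb
import Pool.Agent.P.MP_d0f69c_mp.XS.HSplit

/-! One healing turn keeps the analytic invariant. -/

namespace Pool.Agent.P.MP_d0f69c_mp.XS

open Finset Real

variable {d M : ℕ} [NeZero M] {E : Env d M} {q : Par} {S0 S : St (Tor d M)} {n j : ℕ}
  {c : ℕ → Tor d M} {Z F : Finset (Tor d M)} {t : LS (Tor d M)} {ϖ : Cfg (Tor d M) E.N}

omit [NeZero M] in
theorem mv_O (hZ : Z ⊆ S.O) (ev : Finset (Lab (Tor d M))) : (S.mv Z ev).O = S.O := by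
  ext x
  have := @hZ x
  simp only [St.O, St.mv, mem_union, mem_sdiff] at this ⊢
  tauto

theorem cl_O (hX : Disjoint t.X S.junk) : (S.cl E F t ϖ).O = (S.O \ F) \ t.X := by
  ext x
  have := @disjoint_left.1 hX x
  simp only [St.O, St.cl, mem_union, mem_sdiff]
  tauto

omit [NeZero M] in
theorem Wt_cases (x : Tor d M) : Wt E.σ E.Ω ϖ x = 1 ∨ Wt E.σ E.Ω ϖ x = -1 ∨
    ∃ k : Fin E.N, Wt E.σ E.Ω ϖ x = val E.σ E.N k := by
  unfold Wt; split_ifs
  exacts [Or.inr (Or.inr ⟨_, rfl⟩), Or.inl rfl, Or.inr (Or.inl rfl)]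

theorem uc0 (c x : Tor d M) : 0 ≤ uc E q c x := by
  unfold uc; split_ifs; exacts [zero_le_one, (mul_pos (exp_pos _) (ωt_pos _ _)).le]

theorem CI.init (h : HB E q S0 n c) : CI E q S0 c 0 S0 :=
  ⟨subset_rfl, subset_rfl, subset_rfl, h.inv.gj, h.inv.oj, h.inv.phys, fun _ _ => rfl, h.inv.cls,
    fun x _ y _ => by simp [Uj], fun x _ => by simp [Uj], (RF.refl _ _).mono fun f => by simp,
    (Bil.zero _).congr (fun _ _ _ _ => sub_self _) fun x _ => by simp [Uj],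
    fun _ => S0.G, rfl, rfl, fun i hi => absurd hi (Nat.not_lt_zero _)⟩

theorem CI.mv (i : CI E q S0 c j S) (hZ : Z ⊆ S.O) (ev : Finset (Lab (Tor d M))) :
    CI E q S0 c j (S.mv Z ev) := by
  have e := mv_O hZ ev
  obtain ⟨U, V, Y, a1, a2, a3, a4⟩ := i.phys
  refine ⟨sdiff_subset.trans i.gs, sdiff_subset.trans i.os, e ▸ i.Os,
    disjoint_union_right.2 ⟨i.gj.mono_left sdiff_subset, sdiff_disjoint⟩,
    disjoint_union_right.2 ⟨i.oj.mono_left sdiff_subset, sdiff_disjoint⟩,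
    ⟨U, V, Y, MonoA.blk_mono a1 subset_union_left, MonoA.blk_mono a2 subset_union_left,
      MonoA.blk_mono a3 subset_union_left, a4⟩, e ▸ i.hW, e ▸ i.cls, e ▸ i.e1,
    fun x hx => le_trans ?_ (i.e2 x (e ▸ hx)), e ▸ i.e3, i.e4.sub sdiff_subset, i.e5⟩
  exact sum_le_sum_of_subset_of_nonneg (erase_subset_erase _ sdiff_subset) fun _ _ _ => by positivity

theorem CI.chain (i : CI E q S0 c j S) {G1 : Matrix (Tor d M) (Tor d M) ℂ}
    (ht : Turn S.G G1 (bl (c j) (q.rA E.η) ∩ S0.O) (exp ((q.P : ℝ) ^ 3) ^ 18)) :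
    ∃ Gs : ℕ → Matrix (Tor d M) (Tor d M) ℂ, Gs 0 = S0.G ∧ Gs (j + 1) = G1 ∧ ∀ i < j + 1,
      Turn (Gs i) (Gs (i + 1)) (bl (c i) (q.rA E.η) ∩ S0.O) (exp ((q.P : ℝ) ^ 3) ^ 18) := by
  obtain ⟨Gs, g0, gj, g⟩ := i.e5
  refine ⟨Function.update Gs (j + 1) G1, by rwa [Function.update_of_ne (by omega)],
    Function.update_self _ _ _, fun k hk => ?_⟩
  rw [Function.update_of_ne hk.ne]
  rcases Nat.lt_succ_iff_lt_or_eq.1 hk with a | rfl
  · rw [Function.update_of_ne (by omega)]; exact g k a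
  · rwa [Function.update_self, gj]

theorem CI.succ (i : CI E q S0 c j S) (h : HB E q S0 n c) : CI E q S0 c (j + 1) S := by
  have e0 := h.hq.e0
  have n0 := h.hq.npos h.hE
  have u : ∀ x, Uj E q c j x ≤ Uj E q c (j + 1) x := fun x => by
    rw [Uj, Uj, sum_range_succ]; exact le_add_of_nonneg_right (uc0 _ _)
  refine ⟨i.gs, i.os, i.Os, i.gj, i.oj, i.phys, i.hW, i.cls,
    fun x hx y hy => (i.e1 x hx y hy).trans (by gcongr; exact u x),
    fun x hx => (i.e2 x hx).trans (by gcongr; exact u x), i.e3.mono fun f => ?_,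
    i.e4.congr (fun _ _ _ _ => rfl) fun x _ => by gcongr; exact u x,
    i.chain (Turn.refl _ _ (by positivity))⟩
  rw [sum_range_succ]
  exact mul_le_mul_of_nonneg_left (le_add_of_nonneg_right
    (h.hE.ref.Ec0 _ _ _ _ (exp_pos _).le _ f)) (by positivity)

theorem HB.spl (h : HB E q S0 n c) (hj : j < n) (i : CI E q S0 c j S) (k : Keep E q S0 c j S) :
    SplP E S.H S.junk (Fc E q S0 (c j)) (Classical.epsilon (SplP E S.H S.junk (Fc E q S0 (c j)))) :=
  Classical.epsilon_spec (t_split d M E S.H S.junk _ h.hE i.phys fun x hx y hy xF yF => by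
    have g := h.geo
    have a : ¬ nm (y - c j) ≤ q.D E.η 3 := fun a =>
      yF (mem_Fc.2 (Or.inl ⟨(h.keep hj k a).2.2.2 hy, h.iso hj a ((h.keep hj k a).2.2.2 hy)⟩))
    have := nm_tri y x (c j)
    have := nm_comm y x
    rcases mem_Fc.1 xF with b | b <;> omega)

theorem CI.cl (i : CI E q S0 c j S) (h : HB E q S0 n c) (hj : j < n) (k : Keep E q S0 c j S)
    (li : (tc E q S0 S (c j)).LI t) (ha : (tc E q S0 S (c j)).halt t)
    (nt : ¬ (tc E q S0 S (c j)).Z ^ 2 < (tc E q S0 S (c j)).Φ t)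
    (sc : Succ E (tc E q S0 S (c j)) S t ϖ) :
    CI E q S0 c (j + 1) (S.cl E (Fc E q S0 (c j)) t ϖ) := by
  have ok := t_hok d M E q S0 S n j c h hj i k
  have sp := h.spl hj i k
  set C := tc E q S0 S (c j) with hC
  set S' := S.cl E (Fc E q S0 (c j)) t ϖ with hS
  have Xg : t.X ⊆ S.good := li.Xg
  have eO : S'.O = C.T t := cl_O (i.gj.mono_left Xg)
  have eg : S'.good = C.gd \ t.X := by
    ext x
    have := @TC.OK.gF' _ _ _ _ ok x
    simp only [hS, St.cl, mem_union, mem_sdiff, hC, tc] at this ⊢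
    tauto
  have wF : ∀ x ∈ C.F, S'.W x = Wt E.σ E.Ω ϖ x := fun x hx => if_pos hx
  have wn : ∀ x ∉ C.F, S'.W x = C.Ws t x := fun x hx => if_neg hx
  have hW : ∀ x ∈ C.T t, S'.W x = S.W x := fun x hx =>
    (wn x (TC.mem_T.1 hx).2.1).trans (TC.Ws_out (TC.mem_T.1 hx).2.2)
  have cls : ∀ x ∉ C.T t, S'.W x = 1 ∨ S'.W x = -1 ∨ ∃ k : Fin E.N, S'.W x = val E.σ E.N k :=
    fun x hx => by
    by_cases a : x ∈ C.F
    · rw [wF x a]; exact Wt_cases x
    · rw [wn x a]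
      by_cases b : x ∈ t.X
      · rw [show C.Ws t x = _ from Wc_in b]; cases t.b x <;> simp [sgn]
      · rw [TC.Ws_out b]; exact i.cls x fun e => hx (TC.mem_T.2 ⟨e, a, b⟩)
  have im : ∀ x ∈ C.T t, (S'.W x).im < 0 := fun x hx => by
    rw [hW x hx]; exact i.im h (TC.mem_T.1 hx).1
  have Z9 := ok.Z9
  obtain ⟨u1, u2⟩ := ok.spl
  have f : C.Fin t S'.H S'.W := by
    refine ⟨(ha.resolve_left (not_not.2 ⟨not_lt.1 nt, sc.1⟩)).2, gok_of h.hE sp.1
      (fun x hx => im x (eO ▸ S'.junk_sub hx)) fun x => ?_, hW,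
      (sp.2 _ _ _ (C.Z ^ 2 + 1) subset_rfl (by positivity) wn fun x hx => ⟨?_, ?_⟩).mono u1 u2,
      (sp.2 _ _ _ (C.Z ^ 2 + 1) subset_union_right (by positivity) (fun x hx => ?_)
        fun x hx => ⟨?_, ?_⟩).mono u1 u2, sc.2.2⟩
    · by_cases a : x ∈ C.T t
      exacts [Or.inl (im x a), Or.inr (cls x a)]
    · rw [TC.Ws_out (li.FX ok hx)]
      exact (ok.opn x (ok.AO (ok.FA hx))).2.trans (by norm_num)
    · rw [wF x hx]; exact sc.2.1 x hx
    · rw [mem_union, not_or] at hx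
      exact (wn x hx.2).trans (TC.Ws_out hx.1)
    · exact (ok.opn x (ok.AO (TC.Fin.ZA ok li hx))).2.trans (by norm_num)
    · by_cases a : x ∈ C.F
      · rw [wF x a]; exact sc.2.1 x a
      · rw [wn x a, show C.Ws t x = _ from Wc_in ((mem_union.1 hx).resolve_right a), norm_sgn]
        exact le_add_of_nonneg_left (sq_nonneg _)
  obtain ⟨e1, e2, e3, e4, e5⟩ := f.eff ok li
  have u : ∀ x, Uj E q c (j + 1) x = Uj E q c j x + C.u x := fun x => sum_range_succ _ _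
  have TO : C.T t ⊆ S.O := fun x hx => (TC.mem_T.1 hx).1
  refine ⟨sdiff_subset.trans i.gs, sdiff_subset.trans i.os, eO ▸ TO.trans i.Os,
    i.gj.mono sdiff_subset sdiff_subset, i.oj.mono sdiff_subset sdiff_subset, sp.1,
    eO ▸ fun x hx => (hW x hx).trans (i.hW x (TO hx)), eO ▸ cls, eO ▸ fun x hx y hy => ?_,
    eO ▸ fun x hx => ?_, eO ▸ (i.e3.trans e3).mono fun f => ?_, eg ▸ ?_, i.chain e5⟩
  · rw [u, mul_add]
    exact (norm_sub_le_norm_sub_add_norm_sub _ (S.G x y) _).trans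
      ((add_le_add (e1 x hx y hy) (i.e1 x (TO hx) y (TO hy))).trans_eq (add_comm _ _))
  · rw [u, mul_add, ← add_assoc, eg]
    exact (e2 x hx).trans (add_le_add (i.e2 x (TO hx)) le_rfl)
  · rw [sum_range_succ, mul_add]; rfl
  · exact ((i.e4.sub sdiff_subset).add e4).congr (fun x _ y _ => by
      change _ = _ + (Am S'.W S'.G x y - Am S.W S.G x y); ring) fun x _ => by rw [u, mul_add]; rfl

end Pool.Agent.P.MP_d0f69c_mp.XS
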