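import Pool.Agent.P.MP_d0f69c_mp.XS.HTa

/-! The healing stage. -/

set_option linter.unusedSectionVars false

namespace Pool.Agent.P.MP_d0f69c_mp.XS

open Finset Real

variable {d M : ℕ} [NeZero M] {E : Env d M} {q : Par} {S0 S : St (Tor d M)} {n j s : ℕ}
  {c : ℕ → Tor d M} {ϖ : Cfg (Tor d M) E.N}

theorem fin_cases (s : ℕ) (C : TC (Tor d M)) (c : Tor d M) (S : St (Tor d M)) (t : LS (Tor d M))
    (ϖ : Cfg (Tor d M) E.N) :
    (C.Z ^ 2 < C.Φ t ∧ fin E s C c S t ϖ = S.mv (t.X ∪ C.F) (insert (s, 2, c) S.ev)) ∨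
    (¬ C.Z ^ 2 < C.Φ t ∧ Succ E C S t ϖ ∧ fin E s C c S t ϖ = S.cl E C.F t ϖ) ∨
    (¬ C.Z ^ 2 < C.Φ t ∧ ¬ Succ E C S t ϖ ∧
      fin E s C c S t ϖ = S.mv (t.X ∪ C.F) (insert (s, 3, c) S.ev)) := by
  by_cases a : C.Z ^ 2 < C.Φ t
  · exact Or.inl ⟨a, if_pos a⟩
  · by_cases b : Succ E C S t ϖ
    · exact Or.inr (Or.inl ⟨a, b, by rw [fin, if_neg a, if_pos b]⟩)
    · exact Or.inr (Or.inr ⟨a, b, by rw [fin, if_neg a, if_neg b]⟩)

theorem cau_fin (s : ℕ) (C : TC (Tor d M)) (c : Tor d M) (S : St (Tor d M)) :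
    Cau (κ := Bool × Fin E.N) (fun t : LS (Tor d M) => S.U \ t.X) St.U (fin E s C c S) := by
  have u : ∀ t ϖ, (fin E s C c S t ϖ).U = S.U \ (t.X ∪ C.F) := fun t ϖ => by
    rcases fin_cases s C c S t ϖ with ⟨-, e⟩ | ⟨-, -, e⟩ | ⟨-, -, e⟩ <;> rw [e] <;>
      exact (union_sdiff_distrib _ _ _).symm
  refine ⟨fun t ϖ => u t ϖ ▸ sdiff_subset_sdiff subset_rfl subset_union_left, fun t ϖ ϖ' h => ?_⟩
  have w : ∀ x ∈ C.F, Wt E.σ E.Ω ϖ' x = Wt E.σ E.Ω ϖ x := fun x hx => by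
    rw [Wt, Wt, h x (by rw [u]; exact fun a => (mem_sdiff.1 a).2 (mem_union_right _ hx))]
  have e : S.cl E C.F t ϖ' = S.cl E C.F t ϖ := by
    unfold St.cl
    congr 1
    funext x
    split_ifs with a
    exacts [w x a, rfl]
  have e2 : Succ E C S t ϖ' = Succ E C S t ϖ := by
    unfold Succ
    rw [e, forall₂_congr fun x hx => by rw [w x hx]]
  unfold fin
  rw [e, e2]

theorem cau_turn (s : ℕ) (S0 : St (Tor d M)) (c : Tor d M) :
    Cau (κ := Bool × Fin E.N) St.U St.U (turn E q s S0 c) :=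
  ⟨fun S ϖ => ((TC.cau_loop _ S.U).comp (cau_fin s _ c S)).sub () ϖ,
    fun S ϖ ϖ' h => ((TC.cau_loop _ S.U).comp (cau_fin s _ c S)).eq () ϖ ϖ' h⟩

theorem turn_ev (s : ℕ) (S0 : St (Tor d M)) (c : Tor d M) (S : St (Tor d M))
    (ϖ : Cfg (Tor d M) E.N) : S.ev ⊆ (turn E q s S0 c S ϖ).ev ∧
      ∀ ℓ ∈ (turn E q s S0 c S ϖ).ev, ℓ ∈ S.ev ∨ ℓ = (s, 2, c) ∨ ℓ = (s, 3, c) := by
  unfold turn
  rcases fin_cases s (tc E q S0 S c) c S ((tc E q S0 S c).loop ϖ) ϖ with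
    ⟨-, e⟩ | ⟨-, -, e⟩ | ⟨-, -, e⟩ <;> rw [e]
  · exact ⟨subset_insert _ _, fun ℓ h => (mem_insert.1 h).symm.imp_right Or.inl⟩
  · exact ⟨subset_rfl, fun ℓ h => Or.inl h⟩
  · exact ⟨subset_insert _ _, fun ℓ h => (mem_insert.1 h).symm.imp_right Or.inr⟩

variable (E q) in
/-- the invariant of the sequence of turns -/
structure TI (s : ℕ) (S0 : St (Tor d M)) (c : ℕ → Tor d M) (j : ℕ) (S : St (Tor d M)) : Prop where
  ci : CI E q S0 c j S
  kp : Keep E q S0 c j S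
  jk : ∀ x ∈ S.junk, x ∈ S0.junk ∨ NewEv s S x (q.D E.η 3)
  cl : ∀ i < j, NewEv s S (c i) 0 ∨ ∀ x ∈ S0.junk ∩ bl (c i) (q.D E.η 2), x ∉ S.O

theorem TI.turn (i : TI E q s S0 c j S) (h : HB E q S0 n c) (hj : j < n) (ϖ : Cfg (Tor d M) E.N) :
    TI E q s S0 c (j + 1) (turn E q s S0 (c j) S ϖ) ∧ (Cons E S ϖ →
      Cons E (turn E q s S0 (c j) S ϖ) ϖ) := by
  have ok := t_hok d M E q S0 S n j c h hj i.ci i.kp
  obtain ⟨li, ha, hb⟩ := ok.loop ϖ
  have g := h.geo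
  unfold XS.turn
  set C := tc E q S0 S (c j) with hC
  set t := C.loop ϖ
  have ZA := TC.Fin.ZA ok li
  have ZB : ∀ x ∈ t.X ∪ C.F, x ∈ bl (c j) (q.rA E.η) := fun x hx => (mem_inter.1 (ZA hx)).1
  have ZO : t.X ∪ C.F ⊆ S.O := ZA.trans ok.AO
  have ab : ∀ τ : Fin 5, τ ≠ 4 → TI E q s S0 c (j + 1)
      (S.mv (t.X ∪ C.F) (insert (s, τ, c j) S.ev)) ∧
      (Cons E S ϖ → Cons E (S.mv (t.X ∪ C.F) (insert (s, τ, c j) S.ev)) ϖ) := fun τ hτ => by
    have nw : NewEv s (S.mv (t.X ∪ C.F) (insert (s, τ, c j) S.ev)) (c j) 0 :=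
      ⟨_, mem_insert_self _ _, rfl, hτ, (nm_self _).le⟩
    refine ⟨⟨(i.ci.succ h).mv ZO _, fun x hx => ?_, fun x hx => ?_, fun k hk => ?_⟩,
      fun a x hx => a x (mv_O ZO _ ▸ hx)⟩
    · obtain ⟨a1, a2, a3⟩ := i.kp x fun k hk => hx k (by omega)
      have b : x ∉ t.X ∪ C.F := fun b => hx j (by omega) (ZB x b)
      exact ⟨fun a => mem_sdiff.2 ⟨a1 a, b⟩, fun a => mem_sdiff.2 ⟨a2 a, b⟩,
        a3.trans (mem_union.trans (or_iff_left b)).symm⟩
    · rcases mem_union.1 hx with a | a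
      · exact (i.jk x a).imp_right fun b => b.mono (subset_insert _ _) (by rw [nm_self]; omega)
      · have := mem_bl.1 (ZB x a)
        exact Or.inr (nw.mono subset_rfl (by rw [nm_comm]; omega))
    · rcases Nat.lt_succ_iff_lt_or_eq.1 hk with a | rfl
      · exact (i.cl k a).imp (fun b => b.mono (subset_insert _ _) (by rw [nm_self]))
          fun b => mv_O ZO _ ▸ b
      · exact Or.inl nw
  rcases fin_cases s C (c j) S t ϖ with ⟨-, e⟩ | ⟨nt, sc, e⟩ | ⟨-, -, e⟩ <;> rw [e]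
  · exact ab 2 (by decide)
  · have eO : (S.cl E C.F t ϖ).O = (S.O \ C.F) \ t.X := cl_O (i.ci.gj.mono_left li.Xg)
    refine ⟨⟨i.ci.cl h hj i.kp li ha nt sc, fun x hx => ?_,
      fun x hx => i.jk x (mem_sdiff.1 hx).1, fun k hk => ?_⟩, fun a x hx => ?_⟩
    · obtain ⟨a1, a2, a3⟩ := i.kp x fun k hk => hx k (by omega)
      have b : x ∉ t.X ∪ C.F := fun b => hx j (by omega) (ZB x b)
      exact ⟨fun a => mem_sdiff.2 ⟨a1 a, b⟩, fun a => mem_sdiff.2 ⟨a2 a, b⟩,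
        a3.trans (mem_sdiff.trans (and_iff_left fun a => b (mem_union_right _ a))).symm⟩
    · rw [eO]
      rcases Nat.lt_succ_iff_lt_or_eq.1 hk with a | rfl
      · exact (i.cl k a).imp_right fun b x hx u => b x hx (mem_sdiff.1 (mem_sdiff.1 u).1).1
      · exact Or.inr fun x hx u => (mem_sdiff.1 (mem_sdiff.1 u).1).2 (mem_union_left _ hx)
    · change ite _ _ _ = _
      split_ifs with b
      · rfl
      · by_cases u : x ∈ t.X
        · rw [Wc_in u, hb x u, Wt, if_neg (disjoint_left.1 h.inv.gΩ (i.ci.gs (li.Xg u)))]; rfl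
        · rw [Wc_out u]
          exact a x fun v => hx (eO ▸ mem_sdiff.2 ⟨mem_sdiff.2 ⟨v, b⟩, u⟩)
  · exact ab 3 (by decide)

theorem TI.trip (i : TI E q s S0 c j S) (h : HB E q S0 n c) (hj : j < n) (ϖ : Cfg (Tor d M) E.N)
    (a : (s, 2, c j) ∉ S.ev) :
    pr (fun z => (s, 2, c j) ∈ (XS.turn E q s S0 (c j) S (mix S.U z ϖ)).ev) ≤
      exp (-(q.P : ℝ) ^ 3) := by
  refine le_trans (pr_mono fun z u => ?_)
    ((t_hok d M E q S0 S _ j _ h hj i.ci i.kp).trip h.hE.N0 (U := S.U) subset_union_left ϖ)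
  unfold XS.turn at u
  rcases fin_cases s (tc E q S0 S (c j)) (c j) S ((tc E q S0 S (c j)).loop (mix S.U z ϖ))
    (mix S.U z ϖ) with ⟨b, -⟩ | ⟨-, -, e⟩ | ⟨-, -, e⟩
  · exact b
  · rw [e] at u; exact absurd u a
  · rw [e] at u; exact absurd ((mem_insert.1 u).resolve_left (by simp)) a

theorem TI.init (h : HB E q S0 n c) : TI E q s S0 c 0 S0 :=
  ⟨CI.init h, fun _ _ => ⟨id, id, Iff.rfl⟩, fun _ => Or.inl, fun _ hi => absurd hi (Nat.not_lt_zero _)⟩

variable (E q) in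
/-- a list of centres -/
def CenP (S : St (Tor d M)) (z : ℕ × (ℕ → Tor d M)) : Prop :=
  (∀ i < z.1, Cand E q S (z.2 i)) ∧
    (∀ i < z.1, ∀ k < z.1, i ≠ k → 10 * q.D E.η 3 < nm (z.2 i - z.2 k)) ∧
    ∀ x, Cand E q S x → ∃ i < z.1, nm (x - z.2 i) ≤ q.D E.η 2

variable (E q) in
/-- all the turns -/
noncomputable def turns (s : ℕ) (S : St (Tor d M)) (ϖ : Cfg (Tor d M) E.N) : St (Tor d M) :=
  iter (fun i => turn E q s S ((Classical.epsilon (CenP E q S)).2 i))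
    (Classical.epsilon (CenP E q S)).1 S ϖ

open Classical in
variable (E) in
/-- freeze everything if the covering is lost -/
noncomputable def fz (S : St (Tor d M)) : St (Tor d M) :=
  if Cover E S.omg then S else S.mv S.good S.ev

theorem fz_ev (S : St (Tor d M)) : (fz E S).ev = S.ev := by unfold fz; split_ifs <;> rfl
theorem fz_W (S : St (Tor d M)) : (fz E S).W = S.W := by unfold fz; split_ifs <;> rfl
theorem fz_O (S : St (Tor d M)) : (fz E S).O = S.O := by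
  unfold fz; split_ifs; exacts [rfl, mv_O S.good_sub _]
theorem fz_U (S : St (Tor d M)) : (fz E S).U ⊆ S.U := by
  unfold fz; split_ifs; exacts [subset_rfl, union_subset_union sdiff_subset sdiff_subset]

theorem t_heal' (hfin : S_HFIN) (heb : S_HEB) (hwev : S_HWEV) : S_HEAL := by
  classical
  intro d M _ E q s hE hq
  have : Nonempty (Fin E.N) := ⟨⟨0, Nat.pos_of_ne_zero hE.N0⟩⟩
  have P0 := hq.Ppos hE
  have cen : ∀ S, CenP E q S (Classical.epsilon (CenP E q S)) := fun S =>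
    Classical.epsilon_spec (let ⟨n, c, h⟩ := (t_cen d M E q hE hq).1 S; ⟨(n, c), h⟩)
  set n := fun S => (Classical.epsilon (CenP E q S)).1
  set c := fun S => (Classical.epsilon (CenP E q S)).2
  have hb : ∀ {S}, Inv E (q.b2 E.η) S ∧ q.late E.η → HB E q S (n S) (c S) := fun h =>
    ⟨hE, hq, h.2, h.1, (cen _).1, (cen _).2.1⟩
  have ev : ∀ S ϖ, S.ev ⊆ (turns E q s S ϖ).ev ∧
      ∀ ℓ ∈ (turns E q s S ϖ).ev, ℓ ∉ S.ev → ℓ.1 = s ∧ ℓ.2.1 ∈ ({2, 3} : Finset (Fin 5)) :=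
    fun S ϖ => iter_inv (P := fun _ T => S.ev ⊆ T.ev ∧
      ∀ ℓ ∈ T.ev, ℓ ∉ S.ev → ℓ.1 = s ∧ ℓ.2.1 ∈ ({2, 3} : Finset (Fin 5)))
      ⟨subset_rfl, fun _ a b => absurd a b⟩ _ fun i _ T h =>
        ⟨h.1.trans (turn_ev s S _ T ϖ).1, fun ℓ a b => by
          rcases (turn_ev s S _ T ϖ).2 ℓ a with u | rfl | rfl
          exacts [h.2 ℓ u b, by simp, by simp]⟩
  have ti : ∀ {S}, Inv E (q.b2 E.η) S ∧ q.late E.η → ∀ ϖ,
      TI E q s S (c S) (n S) (turns E q s S ϖ) ∧ (Cons E S ϖ → Cons E (turns E q s S ϖ) ϖ ∧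
        ∀ x, (s, 3, x) ∈ (turns E q s S ϖ).ev → (s, 3, x) ∉ S.ev → Wev E q x ϖ) := fun {S} h ϖ =>
    iter_inv (P := fun j T => TI E q s S (c S) j T ∧ (Cons E S ϖ → Cons E T ϖ ∧
      ∀ x, (s, 3, x) ∈ T.ev → (s, 3, x) ∉ S.ev → Wev E q x ϖ))
      ⟨TI.init (hb h), fun a => ⟨a, fun _ u v => absurd u v⟩⟩ _ fun j hj T ⟨i, k⟩ =>
        ⟨(i.turn (hb h) hj ϖ).1, fun a => ⟨(i.turn (hb h) hj ϖ).2 (k a).1, fun x u v => by
          have ok := t_hok d M E q S T _ j _ (hb h) hj i.ci i.kp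
          obtain ⟨li, -, hx⟩ := ok.loop ϖ
          unfold turn at u
          rcases fin_cases s _ (c S j) T ((tc E q S T (c S j)).loop ϖ) ϖ with
            ⟨-, e⟩ | ⟨-, -, e⟩ | ⟨-, ns, e⟩ <;> rw [e] at u
          · exact (k a).2 x ((mem_insert.1 u).resolve_left (by simp)) v
          · exact (k a).2 x u v
          · rcases mem_insert.1 u with w | w
            · rw [show x = c S j by simpa using w]
              exact hwev d M E q S T _ j _ _ ϖ (hb h) hj i.ci i.kp ok li hx (k a).1 ns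
            · exact (k a).2 x w v⟩⟩
  have fo : ∀ {S} (h : Inv E (q.b2 E.η) S ∧ q.late E.η) ϖ,
      (fz E (turns E q s S ϖ)).omg = (turns E q s S ϖ).omg := fun h ϖ => by
    unfold fz; split_ifs
    exacts [rfl, sdiff_eq_self_of_disjoint (h.1.go.symm.mono (ti h ϖ).1.ci.os (ti h ϖ).1.ci.gs)]
  have fc : ∀ {S} (h : Inv E (q.b2 E.η) S ∧ q.late E.η) ϖ,
      CI E q S (c S) (n S) (fz E (turns E q s S ϖ)) := fun h ϖ => by
    unfold fz; split_ifs
    exacts [(ti h ϖ).1.ci, (ti h ϖ).1.ci.mv (St.good_sub _) _]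
  refine ⟨⟨Unit, inferInstance, inferInstance, fun S ϖ _ =>
    if Inv E (q.b2 E.η) S ∧ q.late E.η then fz E (turns E q s S ϖ) else S⟩,
    ⟨fun S ϖ _ => ?_, fun S ϖ _ => ?_, fun S ϖ _ hS => ?_, fun S ϖ _ hS hc => ?_,
      fun S ϖ _ hS => ?_, fun i hi i3 S hS ϖ I _ => ?_, fun S ϖ _ x hS hc => ?_,
      fun S ϖ _ hS => ?_, fun S ϖ _ hS _ o ho => ?_⟩, fun S ϖ _ hS hl _ x hx h1 h2 => ?_⟩
  all_goals dsimp only
  · split_ifs
    · have ca := Cau.iter (fun i => cau_turn (E := E) (q := q) s S (c S i)) (n S)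
      exact ⟨(fz_U _).trans (ca.sub S ϖ), fun ϖ' h => congrArg (fz E)
        (ca.eq S ϖ ϖ' fun y hy => h y fun a => hy (fz_U _ a))⟩
    · exact ⟨subset_rfl, fun _ _ => rfl⟩
  · split_ifs
    · rw [fz_ev]; exact ev S ϖ
    · exact ⟨subset_rfl, fun _ a b => absurd a b⟩
  · split_ifs with h
    · refine hfin d M E q S _ _ _ (hb h) (fc h ϖ) ?_
      unfold fz; split_ifs with a
      exacts [Or.inr a, Or.inl (Finset.sdiff_self _)]
    · have := hq.μpos
      have := hq.npos hE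
      have := hq.n_le
      have := hq.μJpos
      have := hq.ζ0
      have := hq.e0
      refine t_mono d M E _ _ S hS ?_ (le_add_of_nonneg_right (by split_ifs <;> positivity)) ?_ ?_
        le_rfl (hq.Bi_mono (by norm_num)) (hq.li_one hE 2) (hq.li_mono hE (by norm_num)) rfl
        (fun _ => ⟨rfl, ?_, ?_⟩) hE.ref.p0 <;> simp only [Par.b2, Par.b3]
      · gcongr; norm_num
      · linarith
      · linarith
      · gcongr; norm_num
      · linarith
  · split_ifs with h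
    · exact fun x hx => (congrFun (fz_W _) x).trans (((ti h ϖ).2 hc).1 x (by rwa [fz_O] at hx))
    · exact hc
  · split_ifs with h
    exacts [⟨(fc h ϖ).gs, (fc h ϖ).os, (fc h ϖ).Os⟩, ⟨subset_rfl, subset_rfl, subset_rfl⟩]
  · obtain rfl : i = 2 := by simpa [i3] using hi
    split_ifs with h
    · simp only [fz_ev]
      have k := heb _ _ _ _ St.U (fun i => turn E q s S (c S i)) (TI E q s S (c S))
        (fun T ℓ => ℓ ∈ T.ev) (fun i => (s, 2, c S i)) (n S) (exp (-(q.P : ℝ) ^ 3)) S ϖ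
        (I.image fun x => (s, 2, x)) (exp_pos _).le
        (exp_le_one_iff.2 (neg_nonpos.2 (by positivity))) (fun i => cau_turn s S _)
        (TI.init (hb h)) (fun j hj T ω i => (i.turn (hb h) hj ω).1) (fun i hi k hk e => by
          by_contra a
          have := (hb h).sep i hi k hk a
          rw [show c S i = c S k by simpa using e, nm_self] at this
          omega) (fun i _ T ω ℓ hl a => by
          obtain ⟨x, -, rfl⟩ := mem_image.1 hl
          exact ((turn_ev s S _ T ω).2 _ a).imp_right fun b => b.resolve_right (by simp))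
        fun j hj T ω i a => i.trip (hb h) hj ω a
      rw [card_image_of_injective _ fun x y e => (Prod.ext_iff.1 (Prod.ext_iff.1 e).2).2] at k
      refine le_trans (pr_mono fun z a => ?_) ((pr_fst (β := Unit) _).trans_le k)
      exact forall_mem_image.2 a
    · rcases I.eq_empty_or_nonempty with rfl | ⟨x, hx⟩
      · exact (pr_le_one _).trans_eq (by simp)
      · exact (pr_false fun z a => (a x hx).2 (a x hx).1).trans_le (by positivity)
  · split_ifs with h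
    · rw [fz_ev]; exact fun a b => ⟨h.2, ((ti h ϖ).2 hc).2 x a b⟩
    · exact fun a b => absurd a b
  · split_ifs with h
    · intro a
      rw [fo h] at a
      rw [fz, if_pos a]
      exact (ti h ϖ).1.jk
    · exact fun _ _ => Or.inl
  · split_ifs with h
    · rw [fo h]
      refine fun a => Or.inl ?_
      by_contra b
      refine a (((ti h ϖ).1.kp o fun i hi u => b ⟨_, ((hb h).cand i hi).1, ?_⟩).2.1 ho)
      have := mem_bl.1 u
      have := (hb h).geo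
      rw [nm_comm]; omega
    · exact fun a => absurd ho a
  · rw [if_pos ⟨hS, hl⟩, fz_O]
    obtain ⟨i, hi, a⟩ := (cen S).2.2 x ⟨hx, h1, h2⟩
    exact ((ti ⟨hS, hl⟩ ϖ).1.cl i hi).imp (fun b => b.mono (fz_ev _).ge (by
      rw [nm_comm, zero_add]; exact a)) fun b => b x (mem_inter.2 ⟨hx, mem_bl.2 a⟩)

end Pool.Agent.P.MP_d0f69c_mp.XS
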