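import Mathlib

/- Quasimodes of finite Hermitian matrices and the energy-averaged Wegner bound. -/

namespace Pool.Agent.P.MP_d0f69c_mp.XS

open Finset Matrix MeasureTheory
open scoped ENNReal

variable {ι : Type} [Fintype ι] [DecidableEq ι]

/-- `A` has a quasimode at energy `E` with relative error less than `ε` -/
def QM (A : Matrix ι ι ℂ) (E ε : ℝ) : Prop :=
  ∃ u : ι → ℂ, ∑ x, ‖(A *ᵥ u) x - E * u x‖ ^ 2 < ε ^ 2 * ∑ x, ‖u x‖ ^ 2

theorem qm_eig {A : Matrix ι ι ℂ} (hA : A.IsHermitian) {E ε : ℝ} (hε : 0 ≤ ε) (h : QM A E ε) :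
    ∃ i, |hA.eigenvalues i - E| < ε := by
  obtain ⟨v, hv⟩ := h
  by_contra hc
  have h : ∀ i, ε ≤ |hA.eigenvalues i - E| := fun i => not_lt.1 fun hi => hc ⟨i, hi⟩
  have hT := Matrix.isSymmetric_toEuclideanLin_iff.2 hA
  set b := hA.eigenvectorBasis with hb
  set x : EuclideanSpace ℂ ι := WithLp.toLp 2 v with hx
  set w : EuclideanSpace ℂ ι := A.toEuclideanLin x - (E : ℂ) • x with hw
  have e0 : ∀ j, A.toEuclideanLin (b j) = (hA.eigenvalues j : ℂ) • b j := fun j => by
    ext y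
    have := congrFun (hA.mulVec_eigenvectorBasis j) y
    simpa [hb] using this
  have e1 : ∀ j, b.repr w j = ((hA.eigenvalues j - E : ℝ) : ℂ) * b.repr x j := fun j => by
    rw [b.repr_apply_apply, b.repr_apply_apply, hw, inner_sub_right, inner_smul_right, ← hT, e0,
      inner_smul_left, Complex.conj_ofReal]
    push_cast; ring
  have e2 : ε ^ 2 * ‖x‖ ^ 2 ≤ ‖w‖ ^ 2 := by
    rw [← b.repr.norm_map x, ← b.repr.norm_map w, EuclideanSpace.norm_sq_eq,
      EuclideanSpace.norm_sq_eq, mul_sum]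
    refine sum_le_sum fun j _ => ?_
    rw [e1, norm_mul, mul_pow, Complex.norm_real, Real.norm_eq_abs]
    exact mul_le_mul_of_nonneg_right (pow_le_pow_left₀ hε (h j) 2) (sq_nonneg _)
  rw [EuclideanSpace.norm_sq_eq, EuclideanSpace.norm_sq_eq] at e2
  refine absurd hv (not_lt.2 (e2.trans_eq (sum_congr rfl fun y _ => ?_)))
  simp [hw, hx]

open Classical in
/-- the set of energies at which a quasimode has probability at least `p` is small -/
theorem weg_avg {Ω : Type} [Fintype Ω] [Nonempty Ω] (A : Ω → Matrix ι ι ℂ)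
    (hA : ∀ ω, (A ω).IsHermitian) {ε p : ℝ} (hε : 0 ≤ ε) (hp : 0 < p) :
    volume {E : ℝ | p * Fintype.card Ω ≤ (univ.filter fun ω => QM (A ω) E ε).card}
      ≤ ENNReal.ofReal (2 * ε * Fintype.card ι / p) := by
  set f : ℝ → ℝ≥0∞ := fun E => ∑ ω, ∑ i,
    (Set.Ioo ((hA ω).eigenvalues i - ε) ((hA ω).eigenvalues i + ε)).indicator 1 E with hf
  have m1 : ∀ a b : ℝ, Measurable ((Set.Ioo a b).indicator (1 : ℝ → ℝ≥0∞)) := fun a b =>
    measurable_one.indicator measurableSet_Ioo
  have m2 : Measurable f := Finset.measurable_sum _ fun ω _ => Finset.measurable_sum _ fun i _ => m1 _ _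
  have hN : (0 : ℝ) < Fintype.card Ω := by exact_mod_cast Fintype.card_pos
  have h1 : ∫⁻ E, f E = ENNReal.ofReal (Fintype.card Ω * (Fintype.card ι * (2 * ε))) := by
    rw [hf, lintegral_finsetSum _ fun ω _ => Finset.measurable_sum _ fun i _ => m1 _ _]
    have : ∀ ω, ∫⁻ E, ∑ i, (Set.Ioo ((hA ω).eigenvalues i - ε)
        ((hA ω).eigenvalues i + ε)).indicator (1 : ℝ → ℝ≥0∞) E
          = Fintype.card ι * ENNReal.ofReal (2 * ε) := fun ω => by
      rw [lintegral_finsetSum _ fun i _ => m1 _ _]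
      simp only [lintegral_indicator_one measurableSet_Ioo, Real.volume_Ioo]
      have e : ∀ l : ℝ, l + ε - (l - ε) = 2 * ε := fun l => by ring
      simp [e]
    simp only [this]
    rw [ENNReal.ofReal_mul hN.le, ENNReal.ofReal_mul (Nat.cast_nonneg _), ENNReal.ofReal_natCast,
      ENNReal.ofReal_natCast]
    simp
  have h2 := mul_meas_ge_le_lintegral₀ (μ := volume) m2.aemeasurable
    (ENNReal.ofReal (p * Fintype.card Ω))
  have h3 : {E : ℝ | p * Fintype.card Ω ≤ (univ.filter fun ω => QM (A ω) E ε).card} ⊆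
      {E | ENNReal.ofReal (p * Fintype.card Ω) ≤ f E} := fun E hE => by
    refine (ENNReal.ofReal_le_ofReal hE).trans ?_
    rw [ENNReal.ofReal_natCast, card_eq_sum_ones, Nat.cast_sum]
    refine (sum_le_sum fun ω hω => ?_).trans
      (sum_le_sum_of_subset (filter_subset _ _))
    obtain ⟨i, hi⟩ := qm_eig (hA ω) hε (mem_filter.1 hω).2
    refine le_trans ?_ (single_le_sum (fun _ _ => zero_le) (mem_univ i))
    rw [Set.indicator_of_mem]
    · simp
    · rw [abs_lt] at hi
      constructor <;> linarith [hi.1, hi.2]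
  have hq : 0 < p * Fintype.card Ω := mul_pos hp hN
  refine (measure_mono h3).trans ?_
  rw [h1, mul_comm, ← ENNReal.le_div_iff_mul_le (Or.inl (ENNReal.ofReal_pos.2 hq).ne')
    (Or.inl ENNReal.ofReal_ne_top), ← ENNReal.ofReal_div_of_pos hq] at h2
  refine h2.trans (le_of_eq ?_)
  congr 1
  field_simp

end Pool.Agent.P.MP_d0f69c_mp.XS
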