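import Pool.Agent.P.MP_d0f69c_mp.XS.Ward
import Pool.Agent.P.MP_d0f69c_mp.XS.Quasi

/- A large response of the dissipative system gives a localised quasimode of the true operator. -/

namespace Pool.Agent.P.MP_d0f69c_mp.XS

open Finset Matrix

variable {X C : Type} [Fintype X] [Fintype C] [DecidableEq X]

/-- `M = B + D` with `D` living on the channels; a source `s` that is small compared with its
response `u` makes `B u` small -/
theorem Diss.quasi {B D : Matrix X X ℂ} {R : Matrix C X ℂ} {η L σ : ℝ} (h : Diss (B + D) R η)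
    (hM : IsUnit (B + D).det) (hη : 0 < η) (hL : 0 ≤ L) (hσ : 0 ≤ σ)
    (hD : ∀ w, nq (D *ᵥ w) ≤ L * nq (R *ᵥ w)) {s : X → ℂ}
    (hs : nq s ≤ σ ^ 2 * nq ((B + D)⁻¹ *ᵥ s)) :
    nq (B *ᵥ ((B + D)⁻¹ *ᵥ s)) ≤ (2 * σ ^ 2 + 2 * L * σ / η) * nq ((B + D)⁻¹ *ᵥ s) := by
  have h1 := h.mass hM hη.le s
  set u := (B + D)⁻¹ *ᵥ s with hu
  have h2 : B *ᵥ u = s - D *ᵥ u := by
    rw [eq_sub_iff_add_eq, ← add_mulVec, hu, mulVec_mulVec, mul_nonsing_inv _ hM, one_mulVec]
  have hn := nq_nonneg u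
  have h3 : η * nq (R *ᵥ u) ≤ σ * nq u :=
    le_of_sq_le_sq (h1.trans (by nlinarith)) (mul_nonneg hσ hn)
  have h4 : nq (R *ᵥ u) ≤ σ * nq u / η := by rw [le_div_iff₀ hη]; linarith
  have h5 := mul_le_mul_of_nonneg_left h4 hL
  have h6 := nq_sub s (D *ᵥ u)
  have h7 := hD u
  have e : (2 * σ ^ 2 + 2 * L * σ / η) * nq u = 2 * (σ ^ 2 * nq u) + 2 * (L * (σ * nq u / η)) := by
    ring
  rw [h2, e]
  linarith

omit [DecidableEq X] in
/-- restriction of a quasimode to a set that carries almost all of its mass -/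
theorem qm_restrict (p : X → Prop) [DecidablePred p] {A : Matrix X X ℂ} {E δ b τ ε : ℝ}
    {u : X → ℂ} (hu0 : 0 < nq u) (hb : 0 ≤ b) (hA : ∀ w, nq (A *ᵥ w) ≤ b * nq w)
    (hu : nq (A *ᵥ u - (E : ℂ) • u) ≤ δ * nq u)
    (hout : nq (fun x => if p x then 0 else u x) ≤ τ * nq u)
    (hε : 2 * δ + 2 * b * τ < ε ^ 2 * (1 - τ)) :
    QM (A.submatrix (Subtype.val : {x // p x} → X) Subtype.val) E ε := by
  refine ⟨fun x => u x, ?_⟩
  set o : X → ℂ := fun x => if p x then 0 else u x with ho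
  have h1 : ∀ x : {x // p x}, (A.submatrix Subtype.val Subtype.val *ᵥ fun y : {x // p x} => u y) x
      - E * u x = (A *ᵥ u - (E : ℂ) • u - A *ᵥ o) x := fun x => by
    have e : ∑ y : {x // p x}, A x y * u y = ∑ y, if p y then A x y * u y else 0 := by
      rw [← sum_filter, sum_subtype (univ.filter p) (p := p) (by simp)]
    have e2 : ∑ y, A x y * u y - ∑ y, A x y * o y = ∑ y, if p y then A x y * u y else 0 := by
      rw [← sum_sub_distrib]
      refine sum_congr rfl fun y _ => ?_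
      simp only [ho]
      split_ifs <;> simp
    simp only [mulVec, dotProduct, submatrix_apply, Pi.sub_apply, Pi.smul_apply, smul_eq_mul]
    rw [e, ← e2]; ring
  have h2 : ∀ z : X → ℂ, ∑ x : {x // p x}, ‖z x‖ ^ 2 ≤ nq z := fun z => by
    rw [← sum_subtype (univ.filter p) (p := p) (by simp) fun x => ‖z x‖ ^ 2]
    exact sum_le_sum_of_subset_of_nonneg (filter_subset _ _) fun _ _ _ => sq_nonneg _
  have h3 : ∑ x : {x // p x}, ‖u x‖ ^ 2 + nq o = nq u := by
    rw [← sum_subtype (univ.filter p) (p := p) (by simp) fun x => ‖u x‖ ^ 2, sum_filter, nq, nq,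
      ← sum_add_distrib]
    refine sum_congr rfl fun y _ => ?_
    simp only [ho]
    split_ifs <;> simp
  simp only [h1]
  have h4 := h2 (A *ᵥ u - (E : ℂ) • u - A *ᵥ o)
  have h5 := nq_sub (A *ᵥ u - (E : ℂ) • u) (A *ᵥ o)
  have h6 := (hA o).trans (mul_le_mul_of_nonneg_left hout hb)
  have h7 := mul_lt_mul_of_pos_right hε hu0
  have h8 : ε ^ 2 * ((1 - τ) * nq u) ≤ ε ^ 2 * ∑ x : {x // p x}, ‖u x‖ ^ 2 :=
    mul_le_mul_of_nonneg_left (by linarith) (sq_nonneg _)
  nlinarith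

end Pool.Agent.P.MP_d0f69c_mp.XS
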