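import Pool.Agent.P.MP_d0f69c_mp.XS.Defs

/-!
Interfaces between the blocks (plan version 2).
-/

set_option autoImplicit false

open Finset Real
open scoped Matrix

namespace Pool.Agent.P.MP_d0f69c_mp.XS

/-! ### shared deterministic facts -/

/-- symmetry and invertibility along the process -/
def S_ADM : Prop :=
  ∀ (d M : ℕ) [NeZero M] (E : Env d M) (H' : Matrix (Tor d M) (Tor d M) ℝ) (J : Finset (Tor d M)),
    E.OK → Phys E H' J → (∀ x y, H' x y = H' y x) ∧ ∀ W : Tor d M → ℂ, (∀ x ∈ J, (W x).im < 0) →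
      (∀ x, (W x).im < 0 ∨ W x = 1 ∨ W x = -1 ∨ ∃ k : Fin E.N, W x = val E.σ E.N k) →
      IsUnit (NW.MM H' W).det

/-- the invariant is monotone in its numbers -/
def S_MONO : Prop :=
  ∀ (d M : ℕ) [NeZero M] (E : Env d M) (b b' : Bd) (S : St (Tor d M)), Inv E b S →
    b.θ ≤ b'.θ → b.mis ≤ b'.mis → b.aA ≤ b'.aA → b.nA ≤ b'.nA → b.gs ≤ b'.gs → b.B ≤ b'.B →
    1 ≤ b.l → b.l ≤ b'.l → b'.fin = b.fin →
    (b'.chk = true → b.chk = true ∧ b.aB ≤ b'.aB ∧ b.nB ≤ b'.nB) → (∀ x, 0 ≤ E.p x) → Inv E b' S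

/-- freezing preserves the invariant -/
def S_FREEZE : Prop :=
  ∀ (d M : ℕ) [NeZero M] (E : Env d M) (b : Bd) (S : St (Tor d M)) (J : Finset (Tor d M)),
    Inv E b S → 0 ≤ b.θ → b.θ ≤ 1 → b.aA ≤ b.aB → b.nA ≤ b.nB → Inv E b (S.freeze J)

/-- geometry of the scales -/
def S_FAR : Prop :=
  ∀ (d M : ℕ) [NeZero M] (E : Env d M) (q : Par), E.OK → q.OK E →
    (vl d M (100 * q.D E.η 3) : ℝ) ≤ exp ((q.P : ℝ) ^ 2) ∧ ∀ i ≤ 3,
      Far d M (exp ((q.P : ℝ) ^ 6)) (q.li E.η i) (q.D E.η i) q.τ ∧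
      (M ≤ q.l ∨ ∑ z : Tor d M, exp (-(nm z : ℝ) / (2 * q.li E.η i)) * (1 + nm z) ^ 2 ≤
        exp (2 * (q.P : ℝ) ^ 2))

/-- decay after a diagonal change on `X`, from local bounds -/
def S_CT : Prop :=
  ∀ (d M : ℕ) [NeZero M] (E : Env d M) (q : Par) (i : ℕ) (H : Matrix (Tor d M) (Tor d M) ℝ)
    (W W' : Tor d M → ℂ) (O X : Finset (Tor d M)), E.OK → q.OK E → i < 3 →
    (∀ x y, H x y = H y x) → IsUnit (NW.MM H W).det → IsUnit (NW.MM H W').det → X ⊆ O →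
    (∀ x ∉ X, W' x = W x) → (∀ x ∈ X, ‖W' x - W x‖ ≤ 2) → OpLe O (NW.GG H W) (2 / E.η) →
    Dec (NW.GG H W) O (q.Bi i) (q.li E.η i) →
    (∀ (p : Tor d M) (u : Tor d M → ℂ), (∀ x ∉ X ∩ bl p (q.D E.η (i + 1)), u x = 0) →
      nS X u ≤ 3 * (q.P : ℝ) ^ 40 / E.η *
        nS X (u + ap X (fun x y => NW.GG H W x y * (W' y - W y)) u)) →
    Dec (NW.GG H W') O (q.Bi (i + 1)) (q.li E.η (i + 1))

/-- the hypotheses of the positivity lemma follow from the comparison and the covering -/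
def S_PCI : Prop :=
  ∀ (d M : ℕ) [NeZero M] (E : Env d M) (K : Tor d M → Tor d M → ℝ) (O A : Finset (Tor d M))
    (θ : ℝ), E.OK → (∀ x y, K x y = K y x) → UL E.p K O θ → 0 ≤ θ → θ ≤ 2 / 10 ^ 7 → A ⊆ O →
    Cover E A →
    ∃ c, PCH (NF E.p) (Nm E.p) (fun x y => E.gt (x - y)) c (1 / 10 ^ 6) O K

/-- localisation of the reference form: all centres, the best centre near a point, and separated
centres -/
def S_LOCI : Prop :=
  ∀ (d M : ℕ) [NeZero M] (E : Env d M) (P : ℝ) (D : ℕ) (F : Tor d M → ℝ), E.OK →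
    10 ^ 9 * (d : ℝ) ^ 2 * E.CS ^ 2 ≤ P → E.l0 ≤ D →
    ∑ p, Nm E.p (loc (tn d M) (d * D + D) D F p) ≤ P / 10 ^ 6 * vl d M (d * D) * NF E.p F ∧
    ∀ C : Finset (Tor d M), Sep C (2 * (d * D)) →
      ∃ c : Tor d M → Tor d M, (∀ x, c x ∈ bl x (d * D)) ∧
        ∑ x ∈ C, Nm E.p (loc (tn d M) (d * D + D) D F (c x)) ≤ P / 10 ^ 6 * NF E.p F

/-- bookkeeping of network reductions -/
def S_FS : Prop :=
  ∀ (ι : Type) [Fintype ι] [DecidableEq ι],
    (∀ (O : Finset ι) (K : ι → ι → ℝ), FS O K O K fun _ => 0) ∧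
    (∀ (O O' O'' : Finset ι) (K K' K'' : ι → ι → ℝ) (e e' : (ι → ℝ) → ℝ),
      FS O K O' K' e → FS O' K' O'' K'' e' → FS O K O'' K'' fun F => e F + e' F) ∧
    (∀ (O O' : Finset ι) (K K' : ι → ι → ℝ) (e e' : (ι → ℝ) → ℝ),
      FS O K O' K' e → (∀ F, e F ≤ e' F) → FS O K O' K' e') ∧
    (∀ (S : Finset ι) (A : ι → ι → ℂ), RS S A S A 0) ∧
    (∀ (S S' S'' : Finset ι) (A A' A'' Y Y' : ι → ι → ℂ), RS S A S' A' Y → RS S' A' S'' A'' Y' →
      RS S A S'' A'' (Y + fun x y => if x ∈ S' ∧ y ∈ S' then Y' x y else 0)) ∧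
    (∀ (S S' : Finset ι) (A A' Y : ι → ι → ℂ) (t r : ℝ), RS S A S' A' Y → Disc S A t → 0 ≤ t →
      t ≤ 1 / 4 → 0 ≤ r → r ≤ 1 / 4 → OpLe S Y r → Disc S' A' (t + r))

/-- the comparison passes through a reduction with a small error -/
def S_ULFS : Prop :=
  ∀ (d M : ℕ) [NeZero M] (p : Tor d M → ℝ) (O O' : Finset (Tor d M))
    (K K' : Tor d M → Tor d M → ℝ) (e : (Tor d M → ℝ) → ℝ) (θ ε : ℝ),
    UL p K O θ → FS O K O' K' e → (∀ F, e F ≤ ε * NF p F) → UL p K' O' (θ + ε)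

/-- one closing is a star-mesh step up to the exact noise; two statements because the noise enters
the upper and the lower comparison with opposite signs. `T` is the node set, which may miss open
sites, so the star degree is the one of `T`. -/
def S_STEP : Prop :=
  ∀ (ι : Type) [Fintype ι] [DecidableEq ι],
    (∀ (T : Finset ι) (K K' : ι → ι → ℝ) (v : ι), v ∈ T → (∀ x y, K x y = K y x) →
      (∀ x y, 0 ≤ K x y) → 0 < ∑ z ∈ T.erase v, K v z →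
      (∀ F, En (T.erase v) K' F ≤ En T K F + En (T.erase v)
        (fun x y => K' x y - (K x y + K x v * K v y / ∑ z ∈ T.erase v, K v z)) F) ∧
      ∀ f : ι → ℝ, ∃ c : ℝ, En (T.erase v) K' f = En T K (Function.update f v c) +
        En (T.erase v)
          (fun x y => K' x y - (K x y + K x v * K v y / ∑ z ∈ T.erase v, K v z)) f) ∧
    ∀ (S : Finset ι) (A A' : ι → ι → ℂ) (v : ι), v ∈ S → A v v ≠ 0 →
      RS S A (S.erase v) A' fun x y => if x ≠ v ∧ y ≠ v then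
        A' x y - (A x y - A x v * A v y / A v v) else 0

/-! ### shared probabilistic facts -/

/-- events that depend on disjoint sets of coordinates are independent -/
def S_INDEP : Prop :=
  ∀ (ι κ L : Type) [Fintype ι] [DecidableEq ι] [Fintype κ] [Nonempty κ] (I : Finset L)
    (D : L → Finset ι) (A : L → (ι → κ) → Prop),
    (∀ i ∈ I, ∀ j ∈ I, i ≠ j → Disjoint (D i) (D j)) →
    (∀ i ∈ I, ∀ w w', (∀ x ∈ D i, w x = w' x) → A i w → A i w') →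
    pr (fun w => ∀ i ∈ I, A i w) = ∏ i ∈ I, pr (A i)

/-- bounded differences -/
def S_MCD : Prop :=
  ∀ (ι κ : Type) [Fintype ι] [DecidableEq ι] [Fintype κ] [Nonempty κ] (f : (ι → κ) → ℝ)
    (c : ι → ℝ) (t v : ℝ), 0 ≤ t → 0 < v → ∑ x, c x ^ 2 ≤ v →
    (∀ w x k, |f (Function.update w x k) - f w| ≤ c x) →
    pr (fun w => av f + t ≤ f w) ≤ exp (-t ^ 2 / (2 * v))

/-- closing in the order of independent priorities: `Ψ` is a potential on histories (latest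
closing first) that grows in the mean at rate `γ` as long as `OK` holds -/
def S_PH : Prop :=
  ∀ (ι : Type) [Fintype ι] [DecidableEq ι] (K : ℕ) [NeZero K] (Z : Finset ι)
    (OK : List (ι × Bool) → Prop) (Ψ : List (ι × Bool) → ℝ) (γ : ℝ), 0 ≤ γ → (∀ h, 0 ≤ Ψ h) →
    (∀ h, ¬ OK h → 1 ≤ Ψ h) →
    (∀ h : List (ι × Bool), (h.map Prod.fst).Nodup → (∀ z ∈ h, z.1 ∈ Z) → OK h →
      ∑ v ∈ Z \ (h.map Prod.fst).toFinset,
        ((Ψ ((v, true) :: h) + Ψ ((v, false) :: h)) / 2 - Ψ h) ≤ γ * Ψ h) →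
    pr (fun z : (ι → Bool) × (ι → Fin K) => ∃ (t : ℕ) (h : List (ι × Bool)),
      (h.map Prod.fst).toFinset = pre (ky z.2) Z t ∧
      (h.map Prod.fst).Pairwise (fun x y => ky z.2 y < ky z.2 x) ∧ (∀ w ∈ h, w.2 = z.1 w.1) ∧
      ¬ OK h) ≤ Ψ [] * exp (γ * (1 + log Z.card)) + (Z.card : ℝ) ^ 2 / K

/-- cells: a ball of radius `r` meets few of them and they are small -/
def S_CELL : Prop :=
  ∀ (d M r : ℕ) [NeZero M], ∃ c : Tor d M → ℕ × (Fin d → ℕ),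
    (∀ p, ((bl p r).image c).card ≤ d + 1) ∧
      ∀ x y, c x = c y → nm (x - y) ≤ 2 * (d + 1) * (2 * r + 1)

/-! ### the five steps of a round -/

open Classical in
/-- classification at the start of an epoch -/
def S_CLASS : Prop :=
  ∀ (d M : ℕ) [NeZero M] (E : Env d M) (q : Par) (S : St (Tor d M)), E.OK → q.OK E →
    Inv E (q.bPre E.η) S → Inv E (q.bIn E.η) (if q.start = true then
      S.freeze (univ.filter fun x => ∃ y ∈ S.junk, nm (y - x) ≤ q.D E.η 0) else S)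

/-- the Newton step -/
def S_NEWTON : Prop :=
  ∀ (d M : ℕ) [NeZero M] (E : Env d M) (q : Par) (S : St (Tor d M)), E.OK → q.OK E →
    Inv E (q.bIn E.η) S →
    ∃ W' : Tor d M → ℂ, (∀ x ∉ S.good, W' x = S.W x) ∧ Inv E (q.b1 E.η) { S with W := W' }

/-- the selection of the survivors (events of type `0`) -/
def S_SELECT : Prop :=
  ∀ (d M : ℕ) [NeZero M] (E : Env d M) (q : Par) (s : ℕ), E.OK → q.OK E →
    ∃ st : Stage (Tor d M) E.N,
      Spec E q s st (Inv E (q.b1 E.η)) (fun S => Inv E (q.b1 E.η) S ∧ Sel E q S) {0}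
        (fun S x => x ∈ S.junk) (q.D E.η 2) 0 ∧
      ∀ S ϖ α, Inv E (q.b1 E.η) S → (st.run S ϖ α).omg = S.omg ∧
        S.junk ⊆ (st.run S ϖ α).junk ∧ (q.late E.η → ∀ b ∈ S.junk,
        ((S.junk ∩ bl b (4 * q.D E.η 1)).card : ℝ) ≤ 1 / q.e → b ∈ (st.run S ϖ α).sp)

/-- the flow of one finite system succeeds with high probability -/
def S_FLOW : Prop :=
  ∀ (d M : ℕ) [NeZero M] (E : Env d M) (q : Par) (S : St (Tor d M)) (c : Tor d M)
    (Z Sg : Finset (Tor d M)), E.OK → q.OK E → Inv E (q.b1 E.η) S → Sel E q S →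
    Z ⊆ (S.good \ S.sig) ∩ bl c (5 * q.A E.η d) → Sg ⊆ S.sig ∩ bl c (5 * q.A E.η d) →
    pr (fun z : (Tor d M → Bool) × (Tor d M → Fin (⌈exp (3 * (q.P : ℝ) ^ 3)⌉₊ + 1)) =>
      ¬ Flow E q S c Z Sg z.1 (ky z.2)) ≤ exp (-2 * (q.P : ℝ) ^ 3)

/-- the state after the closing phase, `J` being the frozen region -/
noncomputable def St.close {ι : Type} [Fintype ι] [DecidableEq ι] (S : St ι) (J : Finset ι)
    (ω : ι → Bool) : St ι :=
  { S with W := Wc S.W ω ((S.good \ S.sig) \ J), good := S.sig \ J, junk := S.junk ∪ S.good ∩ J }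

/-- the invariant before the healing -/
def Inv2 {d M : ℕ} [NeZero M] (E : Env d M) (q : Par) (S : St (Tor d M)) : Prop :=
  Inv E (q.b2 E.η) S ∧ (∀ b ∈ S.sp, ∀ y ∈ S.good, ‖S.G b y‖ ^ 2 ≤ q.e ^ 190) ∧
    (q.last = true → S.good = ∅)

/-- local flows glue -/
def S_GLUE : Prop :=
  ∀ (d M : ℕ) [NeZero M] (E : Env d M) (q : Par) (S : St (Tor d M)) (J : Finset (Tor d M))
    (ω : Tor d M → Bool) (κ : Tor d M → ℕ), E.OK → q.OK E → Inv E (q.b1 E.η) S → Sel E q S →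
    Function.Injective κ →
    (∀ p, bl p (5 * q.A E.η d) ⊆ J ∨
      Flow E q S p (((S.good \ S.sig) \ J) ∩ bl p (5 * q.A E.η d))
        ((S.sig \ J) ∩ bl p (5 * q.A E.η d)) ω κ) →
    Inv2 E q (S.close J ω)

/-- the closing phase (events of type `1`) -/
def S_CLOSE : Prop :=
  ∀ (d M : ℕ) [NeZero M] (E : Env d M) (q : Par) (s : ℕ), E.OK → q.OK E →
    ∃ st : Stage (Tor d M) E.N,
      Spec E q s st (fun S => Inv E (q.b1 E.η) S ∧ Sel E q S) (Inv2 E q) {1}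
        (fun S x => x ∈ S.junk) (q.D E.η 3) 0 ∧
      ∀ S ϖ α, Inv E (q.b1 E.η) S → Sel E q S → (st.run S ϖ α).omg = S.omg ∧
        S.junk ⊆ (st.run S ϖ α).junk ∧ (st.run S ϖ α).sp = S.sp

/-- the healing (events of type `2`, and of type `3` for the resonances) -/
def S_HEAL : Prop :=
  ∀ (d M : ℕ) [NeZero M] (E : Env d M) (q : Par) (s : ℕ), E.OK → q.OK E →
    ∃ st : Stage (Tor d M) E.N,
      Spec E q s st (Inv E (q.b2 E.η)) (Inv E (q.b3 E.η)) {2, 3}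
        (fun S x => x ∈ S.junk) (q.D E.η 3) (q.D E.η 3) ∧
      ∀ S ϖ α, Inv E (q.b2 E.η) S → q.late E.η → Cover E S.omg → ∀ x ∈ S.junk,
        Iso E q S.junk x (10 * q.D E.η 3) →
        (∀ b ∈ S.junk ∩ bl x (q.D E.η 2), ∀ y ∈ S.good, ‖S.G b y‖ ^ 2 ≤ q.e ^ 190) →
        NewEv s (st.run S ϖ α) x (q.D E.η 2) ∨ x ∉ (st.run S ϖ α).O

/-! ### rounds and the main theorem -/

/-- one round -/
def S_ROUND : Prop :=
  ∀ (d M : ℕ) [NeZero M] (E : Env d M) (q : Par) (s : ℕ), E.OK → q.OK E →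
    ∃ st : Stage (Tor d M) E.N,
      Spec E q s st (Inv E (q.bPre E.η)) (Inv E (q.b3 E.η)) {0, 1, 2, 3}
        (fun S x => x ∈ S.junk ∨ (q.start = true ∧ ∃ y ∈ S.junk, nm (y - x) ≤ q.D E.η 0))
        (q.rad E.η) (q.rad E.η) ∧
      ∀ S ϖ α, Inv E (q.bPre E.η) S → (q.last = true → (st.run S ϖ α).good = ∅) ∧
        (q.late E.η → q.start = false → Cover E S.omg → ∀ x ∈ S.junk,
          Iso E q S.junk x (q.rad E.η) →
          NewEv s (st.run S ϖ α) x (q.rad E.η) ∨ x ∉ (st.run S ϖ α).O)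

/-- the output of a round is an input of the next one -/
def S_NEXT : Prop :=
  ∀ (d M : ℕ) [NeZero M] (E : Env d M) (q q' : Par) (S : St (Tor d M)), E.OK → q.OK E →
    q'.OK E → q.Next E.η q' → Inv E (q.b3 E.η) S → Inv E (q'.bPre E.η) S

/-- the main theorem, in the shape of `CoreU` -/
def S_MAIN : Prop :=
  ∀ (d M : ℕ) [NeZero M] (E : Env d M) (sc : Sched), E.OK → sc.OK E →
    (∀ s < sc.u (sc.k + 1), (sc.q s).late E.η → ∀ c,
      pr (Wev E (sc.q s) c) ≤ exp (-((sc.q s).P : ℝ) ^ 3)) →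
    ∀ (Θ0 : Type) [Fintype Θ0] [Nonempty Θ0] (S0 : Cfg (Tor d M) E.N → Θ0 → St (Tor d M)),
      Init E sc Θ0 S0 →
      ∃ (Θ : Type) (_ : Fintype Θ) (_ : Nonempty Θ)
        (O : Cfg (Tor d M) E.N → Θ → Finset (Tor d M)),
        (∀ s s' τ, (∀ y ∉ O s τ, s' y = s y) → O s' τ = O s τ) ∧
        ∃ G : Finset (Cfg (Tor d M) E.N × Θ),
          Fintype.card (Cfg (Tor d M) E.N × Θ) ≤ 2 * G.card ∧
          ∀ p ∈ G, E.η ^ 2 ≤ 1 - ‖rf E.H (Wfin E.σ E.Ω 0 (O p.1 p.2) p.1) 0‖ ^ 2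

/-- target A -/
def S_A : Prop := ∀ d : ℕ, 5 ≤ d → ∃ l0 : ℝ, 0 < l0 ∧ ∀ lam, 0 < lam → lam < l0 → ¬ Sing d lam

end Pool.Agent.P.MP_d0f69c_mp.XS
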