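import Pool.Agent.P.MP_d0f69c_mp.XS.If0

/-!
Elementary facts on uniform probabilities.
-/

set_option autoImplicit false

open Finset Real

namespace Pool.Agent.P.MP_d0f69c_mp.XS

variable {α β : Type} [Fintype α] [Fintype β]

open Classical in
theorem pr_eq_av (A : α → Prop) : pr A = av fun x => if A x then 1 else 0 := by
  simp [pr, av]

theorem av_mono {f g : α → ℝ} (h : ∀ x, f x ≤ g x) : av f ≤ av g :=
  div_le_div_of_nonneg_right (sum_le_sum fun x _ => h x) (Nat.cast_nonneg _)

theorem av_nonneg {f : α → ℝ} (h : ∀ x, 0 ≤ f x) : 0 ≤ av f :=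
  div_nonneg (sum_nonneg fun x _ => h x) (Nat.cast_nonneg _)

theorem av_const [Nonempty α] (c : ℝ) : av (fun _ : α => c) = c := by
  have : (Fintype.card α : ℝ) ≠ 0 := by exact_mod_cast Fintype.card_ne_zero
  simp [av, mul_div_cancel_left₀ _ this]

theorem av_le [Nonempty α] {f : α → ℝ} {c : ℝ} (h : ∀ x, f x ≤ c) : av f ≤ c :=
  (av_mono h).trans_eq (av_const c)

theorem av_le' {f : α → ℝ} {c : ℝ} (hc : 0 ≤ c) (h : ∀ x, f x ≤ c) : av f ≤ c := by
  cases isEmpty_or_nonempty α
  · simpa [av] using hc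
  · exact av_le h

theorem av_add (f g : α → ℝ) : av (fun x => f x + g x) = av f + av g := by
  simp [av, sum_add_distrib, add_div]

theorem av_mul (c : ℝ) (f : α → ℝ) : av (fun x => c * f x) = c * av f := by
  simp [av, ← mul_sum, mul_div_assoc]

theorem av_sum {ι : Type} (s : Finset ι) (f : ι → α → ℝ) :
    av (fun x => ∑ i ∈ s, f i x) = ∑ i ∈ s, av (f i) := by
  simp only [av, ← sum_div]; rw [sum_comm]

theorem av_equiv (e : α ≃ β) (f : β → ℝ) : av (fun x => f (e x)) = av f := by
  simp only [av, Fintype.card_congr e, e.sum_comp f]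

theorem av_prod (f : α × β → ℝ) : av f = av fun a => av fun b => f (a, b) := by
  simp only [av, Fintype.sum_prod_type, Fintype.card_prod, ← sum_div, Nat.cast_mul, div_div,
    mul_comm]

theorem av_prod' (f : α × β → ℝ) : av f = av fun b => av fun a => f (a, b) := by
  rw [← av_equiv (Equiv.prodComm β α) f, av_prod]; rfl

theorem av_fst [Nonempty β] (f : α → ℝ) : av (fun z : α × β => f z.1) = av f := by
  simp only [av_prod, av_const]

theorem av_snd [Nonempty α] (f : β → ℝ) : av (fun z : α × β => f z.2) = av f := by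
  simp only [av_prod', av_const]

theorem pr_nonneg (A : α → Prop) : 0 ≤ pr A := by
  rw [pr_eq_av]; exact av_nonneg fun x => by split_ifs <;> norm_num

theorem pr_le_one (A : α → Prop) : pr A ≤ 1 := by
  rw [pr_eq_av]; exact av_le' zero_le_one fun x => by split_ifs <;> norm_num

theorem pr_mono {A B : α → Prop} (h : ∀ x, A x → B x) : pr A ≤ pr B := by
  rw [pr_eq_av, pr_eq_av]
  refine av_mono fun x => ?_
  by_cases hA : A x
  · simp [hA, h x hA]
  · simp only [hA, if_false]; split_ifs <;> norm_num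

theorem pr_congr {A B : α → Prop} (h : ∀ x, A x ↔ B x) : pr A = pr B :=
  congrArg pr (funext fun x => propext (h x))

theorem pr_false {A : α → Prop} (h : ∀ x, ¬ A x) : pr A = 0 := by simp [pr, h]

theorem pr_true [Nonempty α] {A : α → Prop} (h : ∀ x, A x) : pr A = 1 := by
  simp [pr_eq_av, h, av_const]

/-- Markov's inequality -/
theorem pr_le_av {A : α → Prop} {f : α → ℝ} (h0 : ∀ x, 0 ≤ f x) (h : ∀ x, A x → 1 ≤ f x) :
    pr A ≤ av f := by
  rw [pr_eq_av]
  refine av_mono fun x => ?_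
  split_ifs with hA
  exacts [h x hA, h0 x]

theorem pr_or (A B : α → Prop) : pr (fun x => A x ∨ B x) ≤ pr A + pr B := by
  rw [pr_eq_av A, pr_eq_av B, ← av_add]
  refine pr_le_av (fun x => by split_ifs <;> norm_num) fun x h => ?_
  rcases h with h | h <;> simp only [h, if_true] <;> split_ifs <;> norm_num

theorem pr_not [Nonempty α] (A : α → Prop) : pr (fun x => ¬ A x) = 1 - pr A := by
  rw [eq_sub_iff_add_eq, pr_eq_av, pr_eq_av, ← av_add]
  refine Eq.trans ?_ (av_const (α := α) 1)
  congr 1; funext x; by_cases h : A x <;> simp [h]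

/-- union bound -/
theorem pr_ex {ι : Type} (s : Finset ι) (A : ι → α → Prop) :
    pr (fun x => ∃ i ∈ s, A i x) ≤ ∑ i ∈ s, pr (A i) := by
  simp only [pr_eq_av (A _), ← av_sum]
  have h0 : ∀ x, ∀ i ∈ s, (0 : ℝ) ≤ @ite _ (A i x) (Classical.propDecidable _) 1 0 :=
    fun x i _ => by split_ifs <;> norm_num
  refine pr_le_av (fun x => sum_nonneg (h0 x)) fun x ⟨i, hi, h⟩ => ?_
  simpa [h] using single_le_sum (h0 x) hi

theorem pr_ex_le {ι : Type} (s : Finset ι) (A : ι → α → Prop) {c : ℝ} (h : ∀ i ∈ s, pr (A i) ≤ c) :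
    pr (fun x => ∃ i ∈ s, A i x) ≤ s.card * c :=
  (pr_ex s A).trans (by simpa using sum_le_card_nsmul s _ c h)

theorem pr_equiv (e : α ≃ β) (A : β → Prop) : pr (fun x => A (e x)) = pr A := by
  rw [pr_eq_av, pr_eq_av, ← av_equiv e]

theorem pr_prod (A : α × β → Prop) : pr A = av fun a => pr fun b => A (a, b) := by
  simp only [pr_eq_av]; rw [av_prod]

theorem pr_prod' (A : α × β → Prop) : pr A = av fun b => pr fun a => A (a, b) := by
  simp only [pr_eq_av]; rw [av_prod']

theorem pr_fst [Nonempty β] (A : α → Prop) : pr (fun z : α × β => A z.1) = pr A := by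
  simp only [pr_eq_av]; exact av_fst fun x => @ite _ (A x) (Classical.propDecidable _) 1 0

theorem pr_snd [Nonempty α] (A : β → Prop) : pr (fun z : α × β => A z.2) = pr A := by
  simp only [pr_eq_av]; exact av_snd fun x => @ite _ (A x) (Classical.propDecidable _) 1 0

theorem pr_prod_le {A : α × β → Prop} {c : ℝ} (hc : 0 ≤ c) (h : ∀ a, pr (fun b => A (a, b)) ≤ c) :
    pr A ≤ c := by rw [pr_prod]; exact av_le' hc h

theorem pr_prod_le' {A : α × β → Prop} {c : ℝ} (hc : 0 ≤ c) (h : ∀ b, pr (fun a => A (a, b)) ≤ c) :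
    pr A ≤ c := by rw [pr_prod']; exact av_le' hc h

section fn

variable {ι κ κ' : Type} [Fintype ι] [DecidableEq ι] [Fintype κ] [Fintype κ']

/-- pairs of configurations are configurations of pairs -/
theorem pr_pair (A : (ι → κ) × (ι → κ') → Prop) :
    pr (fun w : ι → κ × κ' => A (fun x => (w x).1, fun x => (w x).2)) = pr A :=
  pr_equiv (Equiv.arrowProdEquivProdArrow ι (fun _ => κ) fun _ => κ') A

theorem av_pair (f : (ι → κ) × (ι → κ') → ℝ) :
    av (fun w : ι → κ × κ' => f (fun x => (w x).1, fun x => (w x).2)) = av f :=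
  av_equiv (Equiv.arrowProdEquivProdArrow ι (fun _ => κ) fun _ => κ') f

/-- the first components of a configuration of pairs are uniform -/
theorem av_coins [Nonempty κ'] (f : (ι → κ) → ℝ) :
    av (fun w : ι → κ × κ' => f fun x => (w x).1) = av f :=
  (av_pair fun z : (ι → κ) × (ι → κ') => f z.1).trans (av_fst f)

theorem pr_coins [Nonempty κ'] (A : (ι → κ) → Prop) :
    pr (fun w : ι → κ × κ' => A fun x => (w x).1) = pr A :=
  (pr_pair fun z : (ι → κ) × (ι → κ') => A z.1).trans (pr_fst A)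

/-- the tower property for a stopping set -/
theorem av_stop [Nonempty κ] (O : (ι → κ) → Finset ι)
    (hO : ∀ ξ ξ', (∀ y ∉ O ξ, ξ' y = ξ y) → O ξ' = O ξ) (F : (ι → κ) → ℝ) :
    av F = av fun ξ => av fun ξ' => F (mix (O ξ) ξ' ξ) := by
  have h := sum_stop O hO fun ξ => (F ξ : ℂ)
  have h' : ∑ ξ, ∑ ξ', F (mix (O ξ) ξ' ξ) = Fintype.card (ι → κ) * ∑ ξ, F ξ := by
    exact_mod_cast h
  have : (Fintype.card (ι → κ) : ℝ) ≠ 0 := by exact_mod_cast Fintype.card_ne_zero
  simp only [av, ← sum_div, h']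
  rw [mul_div_cancel_left₀ _ this]

theorem pr_stop [Nonempty κ] (O : (ι → κ) → Finset ι)
    (hO : ∀ ξ ξ', (∀ y ∉ O ξ, ξ' y = ξ y) → O ξ' = O ξ) (A : (ι → κ) × β → Prop) :
    pr A = av fun ξ => pr fun z : (ι → κ) × β => A (mix (O ξ) z.1 ξ, z.2) := by
  rw [pr_prod, av_stop O hO]
  simp only [pr_prod (α := ι → κ)]

omit [Fintype ι] [Fintype κ] in
theorem mix_mix {O U : Finset ι} (h : O ⊆ U) (a b c : ι → κ) :
    mix U (mix O a b) c = mix O a (mix U b c) := funext fun y => by
  by_cases h1 : y ∈ O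
  · simp [mix, h1, h h1]
  · simp [mix, h1]

end fn

end Pool.Agent.P.MP_d0f69c_mp.XS
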