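import Pool.Agent.P.MP_d0f69c_mp.XS.IfFlow
import Pool.Agent.P.MP_d0f69c_mp.XS.Pr

/-!
Monitors on histories: the frame of the closing flow.
-/

set_option autoImplicit false

open Finset Real
open scoped Matrix

namespace Pool.Agent.P.MP_d0f69c_mp.XS

section generic

variable {ι : Type} [DecidableEq ι]

theorem hs_nil : hs ([] : List (ι × Bool)) = ∅ := rfl

theorem hs_cons (z : ι × Bool) (h : List (ι × Bool)) : hs (z :: h) = insert z.1 (hs h) := by
  simp [hs]

theorem sdiff_hs_cons (Z : Finset ι) (z : ι × Bool) (h : List (ι × Bool)) :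
    Z \ hs (z :: h) = (Z \ hs h).erase z.1 := by rw [hs_cons, sdiff_insert]

theorem hs_mono {h h' : List (ι × Bool)} (s : h' <:+ h) : hs h' ⊆ hs h := fun x hx => by
  simp only [hs, List.mem_toFinset] at hx ⊢
  exact (s.sublist.map _).subset hx

theorem Wh_cons (W : ι → ℂ) (v : ι) (b : Bool) (h : List (ι × Bool)) :
    Wh W ((v, b) :: h) = Function.update (Wh W h) v (sgn b) := rfl

theorem cl_Wh (W : ι → ℂ) (h : List (ι × Bool)) : Cl W (hs h) (Wh W h) := by
  induction h with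
  | nil => exact ⟨fun _ _ => rfl, fun _ hx => absurd hx (notMem_empty _)⟩
  | cons z h ih =>
    obtain ⟨v, b⟩ := z
    rw [hs_cons, Wh_cons]
    refine ⟨fun x hx => ?_, fun x hx => ?_⟩
    · rw [mem_insert, not_or] at hx
      rw [Function.update_of_ne hx.1, ih.1 x hx.2]
    · by_cases e : x = v
      · rw [e, Function.update_self]; cases b <;> simp [sgn]
      · rw [Function.update_of_ne e]
        exact ih.2 x ((mem_insert.1 hx).resolve_left e)

/-- there is a potential on histories in `Z` that starts below `s`, grows in the mean at rate one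
as long as the facts `F` hold, and whose staying below one gives `C` -/
def HasMon (Z : Finset ι) (F C : List (ι × Bool) → Prop) (s : ℝ) : Prop :=
  ∃ Φ : List (ι × Bool) → ℝ, (∀ h, 0 ≤ Φ h) ∧ Φ [] ≤ s ∧
    (∀ h, hs h ⊆ Z → F h →
      ∑ v ∈ Z \ hs h, ((Φ ((v, true) :: h) + Φ ((v, false) :: h)) / 2 - Φ h) ≤ Φ h) ∧
    ∀ h, hs h ⊆ Z → Φ h < 1 → C h

variable {Z : Finset ι} {F C C' : List (ι × Bool) → Prop} {s s' : ℝ}

theorem HasMon.mono (h : HasMon Z F C s) (hs' : s ≤ s') (hC : ∀ l, hs l ⊆ Z → C l → C' l) :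
    HasMon Z F C' s' :=
  let ⟨Φ, a, b, c, d⟩ := h
  ⟨Φ, a, b.trans hs', c, fun l h1 h2 => hC l h1 (d l h1 h2)⟩

theorem HasMon.and (h : HasMon Z F C s) (h' : HasMon Z F C' s') :
    HasMon Z F (fun l => C l ∧ C' l) (s + s') := by
  obtain ⟨Φ, a, b, c, d⟩ := h
  obtain ⟨Ψ, a', b', c', d'⟩ := h'
  refine ⟨fun l => Φ l + Ψ l, fun l => add_nonneg (a l) (a' l), add_le_add b b',
    fun l h1 h2 => le_trans (le_of_eq ?_) (add_le_add (c l h1 h2) (c' l h1 h2)), fun l h1 h2 =>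
    ⟨d l h1 (by linarith [a' l]), d' l h1 (by linarith [a l])⟩⟩
  rw [← sum_add_distrib]
  exact sum_congr rfl fun _ _ => by ring

theorem HasMon.all {L : Type} (I : Finset L) {D : L → List (ι × Bool) → Prop}
    (h : ∀ i ∈ I, HasMon Z F (D i) s) : HasMon Z F (fun l => ∀ i ∈ I, D i l) (I.card * s) := by
  classical
  induction I using Finset.induction_on with
  | empty => exact ⟨fun _ => 0, fun _ => le_rfl, by simp, by simp, by simp⟩
  | insert i I hi ih =>
    refine ((h i (mem_insert_self i I)).and (ih fun j hj => h j (mem_insert_of_mem hj))).mono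
      (le_of_eq ?_) fun l _ hl => (forall_mem_insert i I fun j => D j l).2 hl
    rw [card_insert_of_notMem hi]; push_cast; ring

/-- a monitor that is switched off when a site of `A` is closed -/
theorem HasMon.off (A : Finset ι) (Φ : List (ι × Bool) → ℝ) (h0 : ∀ h, 0 ≤ Φ h) (h1 : Φ [] ≤ s)
    (h2 : ∀ h, hs h ⊆ Z → F h → Disjoint A (hs h) →
      ∑ v ∈ (Z \ hs h) \ A, ((Φ ((v, true) :: h) + Φ ((v, false) :: h)) / 2 - Φ h) ≤ Φ h)
    (h3 : ∀ h, hs h ⊆ Z → Disjoint A (hs h) → Φ h < 1 → C h) :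
    HasMon Z F (fun l => Disjoint A (hs l) → C l) s := by
  refine ⟨fun l => if Disjoint A (hs l) then Φ l else 0, fun l => by
    dsimp only; split_ifs; exacts [h0 l, le_rfl], by simpa [hs_nil] using h1, fun l a b => ?_,
    fun l a b c => h3 l a c (by simpa only [if_pos c] using b)⟩
  simp only [hs_cons, disjoint_insert_right]
  by_cases c : Disjoint A (hs l)
  · refine le_trans ?_ ((h2 l a b c).trans_eq (if_pos c).symm)
    rw [← sum_sdiff (inter_subset_left (s₁ := Z \ hs l) (s₂ := A)), sdiff_inter_self_left]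
    refine (add_le_add (le_of_eq (sum_congr rfl fun v hv => ?_))
      (sum_nonpos fun v hv => ?_)).trans_eq (add_zero _)
    · simp only [c, (mem_sdiff.1 hv).2, not_false_eq_true, and_self, if_true]
    · simp only [c, (mem_inter.1 hv).2, not_true_eq_false, false_and, if_false, if_true]
      linarith [h0 l]
  · simp [c]

omit [DecidableEq ι] in
/-- the two coins as one sum over pairs -/
theorem sum_coins (R : Finset ι) (f : ι × Bool → ℝ) (a : ℝ) :
    ∑ v ∈ R, ((f (v, true) + f (v, false)) / 2 - a) =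
      (∑ z ∈ R ×ˢ (univ : Finset Bool), (f z - a)) / 2 := by
  rw [sum_product, sum_div]
  exact sum_congr rfl fun v _ => by rw [Fintype.sum_bool]; ring

/-- the frame: a monitor whose conclusion along all suffixes gives the facts -/
theorem HasMon.frame [Fintype ι] (hp : S_PH) (h : HasMon Z F C s) (K : ℕ) [NeZero K]
    (hF : ∀ l : List (ι × Bool), (l.map Prod.fst).Nodup → hs l ⊆ Z → (∀ l', l' <:+ l → C l') → F l) :
    pr (fun z : (ι → Bool) × (ι → Fin K) => ∃ (t : ℕ) (l : List (ι × Bool)),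
      (l.map Prod.fst).toFinset = pre (ky z.2) Z t ∧
      (l.map Prod.fst).Pairwise (fun x y => ky z.2 y < ky z.2 x) ∧ (∀ w ∈ l, w.2 = z.1 w.1) ∧
      ¬ ∀ l', l' <:+ l → C l') ≤ s * exp (1 + log Z.card) + (Z.card : ℝ) ^ 2 / K := by
  classical
  obtain ⟨Φ, a, b, c, e⟩ := h
  have ht : ∀ l : List (ι × Bool), (∀ l', l' <:+ l → Φ l' < 1) → ∀ l', l' <:+ l.tail → Φ l' < 1 :=
    fun l hl l' h' => hl l' (h'.trans (List.tail_suffix l))
  have key := hp ι K Z (fun l => ∀ l', l' <:+ l → Φ l' < 1)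
    (fun l => if ∀ l', l' <:+ l.tail → Φ l' < 1 then Φ l else 1) 1 zero_le_one
    (fun l => by split_ifs; exacts [a l, zero_le_one]) (fun l hl => by
      split_ifs with h1
      · refine not_lt.1 fun h2 => hl fun l' h' => ?_
        cases l with
        | nil => exact h1 l' h'
        | cons z l => exact (List.suffix_cons_iff.1 h').elim (fun r => r ▸ h2) (h1 l')
      · exact le_rfl) fun l h1 h2 h3 => by
      have h4 : hs l ⊆ Z := fun x hx => by
        obtain ⟨z, hz, rfl⟩ := List.mem_map.1 (List.mem_toFinset.1 hx)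
        exact h2 z hz
      simp only [List.tail_cons, if_pos h3, if_pos (ht l h3), one_mul]
      exact c l h4 (hF l h1 h4 fun l' h' => e l' ((hs_mono h').trans h4) (h3 l' h'))
  refine (pr_mono fun z ⟨t, l, h1, h2, h3, h4⟩ => ⟨t, l, h1, h2, h3, fun h5 => h4 fun l' h' =>
    e l' ((hs_mono h').trans (h1.trans_subset (pre_sub t))) (h5 l' h')⟩).trans (key.trans ?_)
  rw [one_mul]
  refine add_le_add_left (mul_le_mul_of_nonneg_right (le_trans ?_ b) (exp_pos _).le) _
  split_ifs with h1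
  · exact le_rfl
  · exact not_lt.1 fun h2 => h1 fun l' h' => List.suffix_nil.1 h' ▸ h2

end generic

variable {d M : ℕ} [NeZero M]

/-- the facts that are known after a history without a trip -/
def Fh (E : Env d M) (q : Par) (S : St (Tor d M)) (c : Tor d M) (Z Sg : Finset (Tor d M))
    (h : List (Tor d M × Bool)) : Prop :=
  Fx (npOf E q) (mkS E q S c Z Sg (hs h) (Wh S.W h)) ∧
    UL E.p (Kk E.η (Wh S.W h) (NW.GG S.H (Wh S.W h))) (S.O \ hs h) (2 / 10 ^ 7)

/-- monitor of the amplitudes -/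
def S_A1 : Prop :=
  ∀ (d M : ℕ) [NeZero M] (E : Env d M) (q : Par) (S : St (Tor d M)) (c : Tor d M)
    (Z Sg : Finset (Tor d M)), Hyp E q S c Z Sg →
    ∀ x ∈ S.O ∩ bl c (6 * q.A E.η d), ∀ y ∈ Z ∪ Sg, x ≠ y →
      HasMon Z (Fh E q S c Z Sg) (fun h => Disjoint {x, y} (hs h) →
        ‖NW.GG S.H (Wh S.W h) x y - S.G x y‖ ≤ 2 * √(μr q S x * q.μ) * (q.P : ℝ) ^ 45)
        (4 * exp (-3 * (q.P : ℝ) ^ 3))

/-- monitor of the fourth powers -/
def S_A2 : Prop :=
  ∀ (d M : ℕ) [NeZero M] (E : Env d M) (q : Par) (S : St (Tor d M)) (c : Tor d M)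
    (Z Sg : Finset (Tor d M)), Hyp E q S c Z Sg → ∀ x ∈ S.O ∩ bl c (6 * q.A E.η d),
      HasMon Z (Fh E q S c Z Sg) (fun h => Disjoint {x} (hs h) →
        q2 q.P ((q.P : ℝ) ^ 20 * μr q S x ^ 2) (NW.GG S.H (Wh S.W h)) (Z \ hs h) Sg x ≤
          (q.P : ℝ) ^ 20 * μr q S x ^ 2 / 20) (exp (-3 * (q.P : ℝ) ^ 3))

/-- monitor of the closed mass and of the mismatch -/
def S_A3 : Prop :=
  ∀ (d M : ℕ) [NeZero M] (E : Env d M) (q : Par) (S : St (Tor d M)) (c : Tor d M)
    (Z Sg : Finset (Tor d M)), Hyp E q S c Z Sg → ∀ x ∈ Z ∪ Sg,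
      HasMon Z (Fh E q S c Z Sg) (fun h => Disjoint {x} (hs h) →
        z3 q.P q.μ (NW.GG S.H (Wh S.W h)) (aw E.η (Wh S.W h)) (hs h) (S.O \ Z) x
          (NW.GG S.H (Wh S.W h) x x - phi (S.W x)) ≤ -1 / (2 * (q.P : ℝ) ^ 25))
        (exp (-3 * (q.P : ℝ) ^ 3))

/-- monitor of the norm -/
def S_A4 : Prop :=
  ∀ (d M : ℕ) [NeZero M] (E : Env d M) (q : Par) (S : St (Tor d M)) (c : Tor d M)
    (Z Sg : Finset (Tor d M)), Hyp E q S c Z Sg →
      HasMon Z (Fh E q S c Z Sg) (fun h => OpLe Z (NW.GG S.H (Wh S.W h)) ((q.P : ℝ) ^ 40 / E.η))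
        (4 * Z.card * exp (-3 * (q.P : ℝ) ^ 3))

/-- monitor of the noise of the Dirichlet form -/
def S_A5 : Prop :=
  ∀ (d M : ℕ) [NeZero M] (E : Env d M) (q : Par) (S : St (Tor d M)) (c : Tor d M)
    (Z Sg Z' B : Finset (Tor d M)), Hyp E q S c Z Sg →
      HasMon Z (Fh E q S c Z Sg) (fun h => ∀ φ : Tor d M → ℝ, (∀ x ∉ B, φ x = 0) →
        |Sm S.W (fun W _ v b => if v ∈ Z' then Y5 E.η S.H W (q.D E.η 2) v b φ else 0) h| ≤
          Nm E.p φ / (q.P : ℝ) ^ 4) (2 * B.card * exp (-3 * (q.P : ℝ) ^ 3))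

/-- monitor of the noise of the retarded-retarded matrix -/
def S_A6 : Prop :=
  ∀ (d M : ℕ) [NeZero M] (E : Env d M) (q : Par) (S : St (Tor d M)) (c : Tor d M)
    (Z Sg Z' I : Finset (Tor d M)), Hyp E q S c Z Sg →
      HasMon Z (Fh E q S c Z Sg) (fun h => OpLe I (Sm S.W (fun W X v b =>
        if v ∈ Z' then Y6 S.H W ((Z ∪ Sg) \ X) (q.D E.η 2) v b else 0) h) (1 / (q.P : ℝ) ^ 4))
        (4 * I.card * exp (-3 * (q.P : ℝ) ^ 3))

end Pool.Agent.P.MP_d0f69c_mp.XS
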