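import Pool.Agent.P.MP_d0f69c_mp.XS.If0
import Pool.Agent.P.MP_d0f69c_mp.XS.Basic
import Pool.Agent.P.MP_d0f69c_mp.XS.GT
import Pool.Agent.P.MP_d0f69c_mp.XS.HMon

/-!
Interfaces inside the block of the closing flow.
-/

set_option autoImplicit false
set_option linter.dupNamespace false

open Finset Real
open scoped Matrix

namespace Pool.Agent.P.MP_d0f69c_mp.XS

/-! ### one step on an arbitrary finite set -/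

/-- the numbers of the flow -/
structure Np where
  P : ℝ
  μ : ℝ
  μJ : ℝ
  η : ℝ

structure Np.OK (q : Np) : Prop where
  P9 : 10 ^ 9 ≤ q.P
  μ0 : 0 < q.μ
  J1 : 16 * q.μ ≤ q.μJ
  J2 : q.μJ ≤ q.η / q.P ^ 200
  η0 : 0 < q.η
  η1 : q.η ≤ 1 / 10 ^ 8

/-- bound of the mismatch -/
noncomputable def Np.mb (q : Np) : ℝ := 40 * q.μ * q.P ^ 39

/-- a state of the flow: `Op` open sites, `R` monitored rows, `rem` sites that remain to be closed,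
`Sg` survivors, `X` closed sites, `Kp` sites that stay open, `B v` neighbourhood of `v` -/
structure Sx (ι : Type) where
  G : ι → ι → ℂ
  a : ι → ℝ
  t : ι → Bool → ℂ
  m : ι → ℂ
  s : ι → ℂ
  mr : ι → ℝ
  Op : Finset ι
  R : Finset ι
  rem : Finset ι
  Sg : Finset ι
  X : Finset ι
  Kp : Finset ι
  B : ι → Finset ι

section generic

variable {ι : Type} [Fintype ι] [DecidableEq ι]

/-- the matrix after the closing of `v` -/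
noncomputable def Sx.G' (σ : Sx ι) (v : ι) (b : Bool) (x y : ι) : ℂ :=
  σ.G x y - σ.t v b * (σ.G x v * σ.G v y)

/-- the monitor of the fourth powers in the row `x` -/
noncomputable def q2 (P n : ℝ) (G : ι → ι → ℂ) (rem Sg : Finset ι) (x : ι) : ℝ :=
  ∑ y ∈ Sg.erase x, ‖G x y‖ ^ 4 + √(n * (∑ y ∈ rem.erase x, ‖G x y‖ ^ 4 + n / P ^ 8)) / 100

/-- the monitor of the closed mass and of the mismatch `m` in the row `x` -/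
noncomputable def z3 (P μ : ℝ) (G : ι → ι → ℂ) (a : ι → ℝ) (X Kp : Finset ι) (x : ι) (m : ℂ) : ℝ :=
  (∑ z ∈ X, ‖G x z‖ ^ 2 + √(‖m‖ ^ 2 + (μ * P ^ 14) ^ 2) / (μ * P ^ 14)) / (16 * P ^ 25) -
    ∑ z ∈ Kp.erase x, a z * ‖G x z‖ ^ 2

/-- noise of the conductances -/
noncomputable def Sx.dk (σ : Sx ι) (v : ι) (b : Bool) (x y : ι) : ℝ :=
  σ.a x * σ.a y * (-2 * (σ.t v b * (σ.G x v * σ.G v y) * (starRingEnd ℂ) (σ.G x y)).re +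
    ‖σ.G x v‖ ^ 2 * ‖σ.G v y‖ ^ 2 *
      (‖σ.t v b‖ ^ 2 - σ.a v / ∑ z ∈ σ.Op.erase v, σ.a z * ‖σ.G v z‖ ^ 2))

/-- noise of the retarded-retarded matrix -/
noncomputable def Sx.da (σ : Sx ι) (v : ι) (b : Bool) (x y : ι) : ℂ :=
  if x = y then σ.s v ^ 2 * σ.G x v ^ 4 else
    2 * σ.t v b * σ.G x y * (σ.G x v * σ.G v y) +
      (σ.s v ^ 2 - σ.t v b ^ 2) * (σ.G x v * σ.G v y) ^ 2

/-- the same, restricted to the neighbourhood of `v` -/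
noncomputable def Sx.y6 (σ : Sx ι) (v : ι) (b : Bool) (x y : ι) : ℂ :=
  if x ∈ ((σ.rem ∪ σ.Sg) ∩ σ.B v).erase v ∧ y ∈ ((σ.rem ∪ σ.Sg) ∩ σ.B v).erase v then
    σ.da v b x y else 0

/-- the bilinear form of `En` -/
noncomputable def Eb (S : Finset ι) (K : ι → ι → ℝ) (f g : ι → ℝ) : ℝ :=
  (∑ x ∈ S, ∑ y ∈ S, K x y * ((f x - f y) * (g x - g y))) / 2

/-- what is known about a state in which no monitor has tripped -/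
structure Fx (q : Np) (σ : Sx ι) : Prop where
  sym : ∀ x y, σ.G x y = σ.G y x
  rR : σ.rem ⊆ σ.R
  sR : σ.Sg ⊆ σ.R
  RO : σ.R ⊆ σ.Op
  KO : σ.Kp ⊆ σ.Op
  rs : Disjoint σ.rem σ.Sg
  rX : Disjoint σ.rem σ.X
  rK : Disjoint σ.rem σ.Kp
  Bv : ∀ v, v ∈ σ.B v
  BR : ∀ v ∈ σ.rem, σ.B v ∩ σ.Op ⊆ σ.R
  a0 : ∀ x ∉ σ.Op, σ.a x = 0
  a1 : ∀ x ∈ σ.Op, |σ.a x - 1| ≤ 1 / 10 ^ 7
  mr : ∀ x, q.μ ≤ σ.mr x ∧ σ.mr x ≤ q.μJ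
  mg : ∀ x ∈ σ.rem ∪ σ.Sg, σ.mr x = q.μ
  t1 : ∀ v ∈ σ.rem, ∀ b, ‖σ.t v b‖ ≤ 11 / 10
  t2 : ∀ v ∈ σ.rem, ‖σ.t v true + σ.t v false‖ ≤
    (‖σ.t v true‖ ^ 2 + ‖σ.t v false‖ ^ 2) * ‖σ.m v‖
  t3 : ∀ v ∈ σ.rem, ∀ b,
    |‖σ.t v b‖ ^ 2 - σ.a v / ∑ z ∈ σ.Op.erase v, σ.a z * ‖σ.G v z‖ ^ 2| ≤ 4 * q.mb / q.η
  t4 : ∀ v ∈ σ.rem, ‖σ.s v‖ ≤ 11 / 10 ∧ ∀ b, ‖σ.t v b ^ 2 - σ.s v ^ 2‖ ≤ 4 * q.mb
  t5 : ∀ v ∈ σ.rem, ∀ b, ‖1 - σ.t v b * σ.G v v‖ ≤ 101 / 100 * ‖σ.t v b‖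
  mis : ∀ x ∈ σ.rem ∪ σ.Sg, ‖σ.m x‖ ≤ q.mb
  dg : ∀ x ∈ σ.rem ∪ σ.Sg, ‖σ.G x x‖ ≤ 1 / 10 ^ 6
  op : OpLe σ.Op σ.G (2 / q.η)
  row : ∀ x ∈ σ.Op, ∑ y ∈ σ.Op.erase x, ‖σ.G x y‖ ^ 2 ≤ 11 / 10
  amp : ∀ x ∈ σ.R, ∀ y ∈ σ.rem ∪ σ.Sg, x ≠ y → ‖σ.G x y‖ ^ 2 ≤ σ.mr x
  k4 : ∀ x ∈ σ.R, ∑ y ∈ σ.rem.erase x, ‖σ.G x y‖ ^ 4 ≤ 25 * (q.P ^ 20 * σ.mr x ^ 2)
  g4 : ∀ x ∈ σ.R, ∑ y ∈ σ.Sg.erase x, ‖σ.G x y‖ ^ 4 ≤ q.P ^ 20 * σ.mr x ^ 2 / 16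
  pc : ∀ (f : ι → ℝ) (l : ℝ), 0 ≤ l → (∀ x, 0 ≤ f x) → ∑ x ∈ σ.rem ∪ σ.Sg, f x ^ 2 ≤ l ^ 2 →
    ∑ x ∈ σ.rem ∪ σ.Sg, ∑ y ∈ (σ.rem ∪ σ.Sg).erase x, f x * ‖σ.G x y‖ ^ 2 * f y ≤
      (∑ x ∈ σ.rem ∪ σ.Sg, f x ^ 2) / 10 ^ 5 + 3 * q.μ * l * ∑ x ∈ σ.rem ∪ σ.Sg, f x
  z3 : ∀ v ∈ σ.rem, z3 q.P q.μ σ.G σ.a σ.X σ.Kp v (σ.m v) ≤ -1 / (2 * q.P ^ 25)
  dd : ∀ x ∈ σ.rem ∪ σ.Sg, ∑ z ∈ σ.X, ‖σ.G x z‖ ^ 2 ≤ 18 * q.P ^ 25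
  nrm : OpLe (σ.X ∪ σ.rem) σ.G (q.P ^ 40 / q.η)
  ward : ∀ u : ι → ℝ, ∑ v ∈ σ.rem, ‖∑ z ∈ σ.X ∪ σ.rem, σ.G v z * u z‖ ^ 2 ≤
    2 * q.P ^ 40 / q.η ^ 2 * ∑ z ∈ σ.X ∪ σ.rem, u z ^ 2
  far : ∑ v ∈ σ.rem, ∑ y ∈ σ.Op \ σ.B v, ‖σ.G v y‖ ^ 2 ≤ 1

/-- symmetric bilinear -/
def SB (X : (ι → ℝ) → (ι → ℝ) → ℝ) : Prop :=
  (∀ u w, X u w = X w u) ∧ ∀ (c : ℝ) (u v w : ι → ℝ), X (c • u + v) w = c * X u w + X v w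

/-- closed sites of a history -/
def hs (h : List (ι × Bool)) : Finset ι := (h.map Prod.fst).toFinset

/-- the potential term after a history -/
noncomputable def Wh (W : ι → ℂ) : List (ι × Bool) → ι → ℂ
  | [] => W
  | z :: h => Function.update (Wh W h) z.1 (sgn z.2)

/-- a sum along a history; the term sees the state before the closing -/
noncomputable def Sm {V : Type} [AddCommMonoid V] (W : ι → ℂ)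
    (f : (ι → ℂ) → Finset ι → ι → Bool → V) : List (ι × Bool) → V
  | [] => 0
  | z :: h => Sm W f h + f (Wh W h) (hs h) z.1 z.2

/-- `W'` arises from `W` by closing the sites of `X` -/
def Cl (W : ι → ℂ) (X : Finset ι) (W' : ι → ℂ) : Prop :=
  (∀ x ∉ X, W' x = W x) ∧ ∀ x ∈ X, W' x = 1 ∨ W' x = -1

end generic

/-- small exponents add up -/
theorem sum_exp_le {V : Type} (s : Finset V) {y c : V → ℝ} (h : ∀ v ∈ s, y v ≤ c v)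
    (h0 : ∀ v ∈ s, 0 ≤ c v) (h1 : ∑ v ∈ s, c v ≤ 1 / 2) : ∑ v ∈ s, (exp (y v) - 1) ≤ 1 := by
  have h2 : ∀ v ∈ s, exp (y v) - 1 ≤ 2 * c v := fun v hv => by
    have h3 : c v ≤ 1 / 2 := (single_le_sum h0 hv).trans h1
    have h4 := abs_exp_sub_one_le (x := c v) (by rw [abs_of_nonneg (h0 v hv)]; linarith)
    rw [abs_of_nonneg (h0 v hv)] at h4
    have h5 := exp_le_exp.2 (h v hv)
    linarith [le_abs_self (exp (c v) - 1)]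
  refine (sum_le_sum h2).trans ?_
  rw [← mul_sum]; linarith

/-- the heavy and light split without cases -/
theorem le_split {a m : ℝ} (hm : 0 < m) : a ≤ m + a ^ 2 / m := by
  have : a * m ≤ m * m + a ^ 2 := by nlinarith [sq_nonneg (a - m), sq_nonneg a, sq_nonneg m]
  rw [← sub_le_iff_le_add', le_div_iff₀ hm]; nlinarith

/-- the relative size of the mismatch -/
theorem Np.OK.mb_le {q : Np} (h : q.OK) : 0 < q.mb ∧ q.mb ≤ q.η / q.P ^ 160 ∧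
    q.μ ≤ q.η / q.P ^ 200 := by
  have hP : 0 < q.P := lt_of_lt_of_le (by norm_num) h.P9
  have h1 : q.μ ≤ q.η / q.P ^ 200 := by linarith [h.J1, h.J2, h.μ0]
  refine ⟨by unfold Np.mb; have := h.μ0; positivity, ?_, h1⟩
  rw [le_div_iff₀ (by positivity)] at h1 ⊢
  have e : q.mb * q.P ^ 160 * q.P = 40 * (q.μ * q.P ^ 200) := by unfold Np.mb; ring
  have h2 : 0 ≤ q.mb * q.P ^ 160 := by unfold Np.mb; have := h.μ0; positivity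
  nlinarith [h.P9, h.η0]

/-- amplitudes -/
def S_M1 : Prop :=
  ∀ (ι : Type) [Fintype ι] [DecidableEq ι] (q : Np) (σ : Sx ι), q.OK → Fx q σ →
    ∀ x ∈ σ.R, ∀ y ∈ σ.rem ∪ σ.Sg, x ≠ y → ∀ (z0 : ℂ) (l : ℝ),
      l = 3 * q.P ^ 3 / (√(σ.mr x * q.μ) * q.P ^ 45) →
      ∑ v ∈ (σ.rem.erase x).erase y,
        ((pot l (σ.G' v true x y - z0) + pot l (σ.G' v false x y - z0)) / 2 -
          pot l (σ.G x y - z0)) ≤ pot l (σ.G x y - z0)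

/-- fourth powers -/
def S_M2 : Prop :=
  ∀ (ι : Type) [Fintype ι] [DecidableEq ι] (q : Np) (σ : Sx ι), q.OK → Fx q σ →
    ∀ x ∈ σ.R, ∀ n l : ℝ, n = q.P ^ 20 * σ.mr x ^ 2 → l = 300 * q.P ^ 3 / n →
      ∑ v ∈ σ.rem.erase x,
        ((exp (l * q2 q.P n (σ.G' v true) (σ.rem.erase v) σ.Sg x) +
          exp (l * q2 q.P n (σ.G' v false) (σ.rem.erase v) σ.Sg x)) / 2 -
          exp (l * q2 q.P n σ.G σ.rem σ.Sg x)) ≤ exp (l * q2 q.P n σ.G σ.rem σ.Sg x)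

/-- closed mass and mismatch -/
def S_M3 : Prop :=
  ∀ (ι : Type) [Fintype ι] [DecidableEq ι] (q : Np) (σ : Sx ι), q.OK → Fx q σ →
    ∀ x ∈ σ.rem ∪ σ.Sg,
      ∑ v ∈ σ.rem.erase x,
        ((exp (8 * q.P ^ 28 * z3 q.P q.μ (σ.G' v true) σ.a (insert v σ.X) σ.Kp x
            (σ.m x - σ.t v true * (σ.G x v * σ.G v x))) +
          exp (8 * q.P ^ 28 * z3 q.P q.μ (σ.G' v false) σ.a (insert v σ.X) σ.Kp x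
            (σ.m x - σ.t v false * (σ.G x v * σ.G v x)))) / 2 -
          exp (8 * q.P ^ 28 * z3 q.P q.μ σ.G σ.a σ.X σ.Kp x (σ.m x))) ≤
        exp (8 * q.P ^ 28 * z3 q.P q.μ σ.G σ.a σ.X σ.Kp x (σ.m x))

/-- drift and variation of the block of the matrix on the closed and remaining sites -/
def S_M4 : Prop :=
  ∀ (ι : Type) [Fintype ι] [DecidableEq ι] (q : Np) (σ : Sx ι), q.OK → Fx q σ → ∀ u : ι → ℝ,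
    ‖∑ z ∈ σ.rem ×ˢ (univ : Finset Bool), ∑ x ∈ σ.X ∪ σ.rem, ∑ y ∈ σ.X ∪ σ.rem,
      u x * (σ.t z.1 z.2 * (σ.G x z.1 * σ.G z.1 y)) * u y‖ ≤ 1 / q.η * ∑ x ∈ σ.X ∪ σ.rem, u x ^ 2 ∧
    ∑ z ∈ σ.rem ×ˢ (univ : Finset Bool), ∑ x ∈ σ.X ∪ σ.rem,
      ‖∑ y ∈ σ.X ∪ σ.rem, σ.t z.1 z.2 * (σ.G x z.1 * σ.G z.1 y) * u y‖ ^ 2 ≤
        q.P ^ 66 / q.η ^ 2 * ∑ x ∈ σ.X ∪ σ.rem, u x ^ 2

/-- the commutator sums behind the noise of the Dirichlet form -/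
def S_M5C : Prop :=
  ∀ (ι : Type) [Fintype ι] [DecidableEq ι] (q : Np) (σ : Sx ι), q.OK → Fx q σ →
    ∀ φ : ι → ℝ, ∀ e : ℝ,
      En σ.Op (fun x y => σ.a x * σ.a y * ‖σ.G x y‖ ^ 2) φ ≤ e →
      ∑ v ∈ σ.rem, ∑ x ∈ σ.Op, ‖∑ y ∈ (σ.B v).erase v,
        (starRingEnd ℂ) (σ.G x y) * (φ x - φ y : ℝ) * (σ.a y * σ.G v y)‖ ^ 2 ≤ 40 / q.η ^ 2 * e ∧
      ∑ v ∈ σ.rem, ∑ x ∈ (σ.B v ∩ σ.Op).erase v, ‖σ.G x v‖ ^ 2 * ‖∑ y ∈ (σ.B v).erase v,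
        (starRingEnd ℂ) (σ.G x y) * (φ x - φ y : ℝ) * (σ.a y * σ.G v y)‖ ^ 2 ≤ e / q.P ^ 180 ∧
      ∑ v ∈ σ.rem, ∑ x ∈ σ.Op, ‖σ.G x v‖ ^ 2 * (φ x - φ v) ^ 2 ≤ 3 * e

/-- drift and variation of the noise of the Dirichlet form -/
def S_M5 : Prop :=
  ∀ (ι : Type) [Fintype ι] [DecidableEq ι] (q : Np) (σ : Sx ι) (N : (ι → ℝ) → ℝ) (Z' : Finset ι),
    q.OK → Fx q σ → Z' ⊆ σ.rem →
    (∀ φ, En σ.Op (fun x y => σ.a x * σ.a y * ‖σ.G x y‖ ^ 2) φ ≤ 2 * N φ) →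
    (∀ (ξ ψ : ι → ℝ) (l : ℝ), 0 ≤ l → ∑ x, ξ x ^ 2 ≤ l ^ 2 →
      (∑ x, ξ x * ψ x) ^ 2 ≤ 2 * (l ^ 2 + q.η * l * ∑ x, |ξ x|) * N ψ) → ∀ φ : ι → ℝ,
    |∑ z ∈ Z' ×ˢ (univ : Finset Bool), Eb ((σ.B z.1).erase z.1) (σ.dk z.1 z.2) φ φ| ≤
      1 / q.P ^ 8 * N φ ∧
    ∃ w : ι × Bool → ℝ, (∀ z, 0 ≤ w z) ∧
      ∑ z ∈ Z' ×ˢ (univ : Finset Bool), w z ≤ 1 / q.P ^ 15 * N φ ∧
      ∀ z ∈ Z' ×ˢ (univ : Finset Bool), ∀ ψ,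
        Eb ((σ.B z.1).erase z.1) (σ.dk z.1 z.2) φ ψ ^ 2 ≤ w z * N ψ

/-- drift and variation of the noise of the retarded-retarded matrix -/
def S_M6 : Prop :=
  ∀ (ι : Type) [Fintype ι] [DecidableEq ι] (q : Np) (σ : Sx ι) (Z' I : Finset ι), q.OK → Fx q σ →
    Z' ⊆ σ.rem → ∀ u : ι → ℝ,
    ‖∑ z ∈ Z' ×ˢ (univ : Finset Bool), ∑ x ∈ I, ∑ y ∈ I, u x * σ.y6 z.1 z.2 x y * u y‖ ≤
      1 / q.P ^ 8 * ∑ x ∈ I, u x ^ 2 ∧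
    ∑ z ∈ Z' ×ˢ (univ : Finset Bool), ∑ x ∈ I, ‖∑ y ∈ I, σ.y6 z.1 z.2 x y * u y‖ ^ 2 ≤
      1 / q.P ^ 15 * ∑ x ∈ I, u x ^ 2

/-- the potential of a form relative to a positive form `N`, on the functions supported in `B` -/
def S_POT : Prop :=
  ∀ (ι : Type) [Fintype ι] [DecidableEq ι] (N : (ι → ℝ) → (ι → ℝ) → ℝ) (B : Finset ι), SB N →
    (∀ φ, φ ≠ 0 → 0 < N φ φ) →
    ∃ Φ : ((ι → ℝ) → (ι → ℝ) → ℝ) → ℝ, Φ 0 = B.card ∧ (∀ X, SB X → 0 ≤ Φ X) ∧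
      (∀ X (b : ℝ), SB X → Φ X < exp b → ∀ φ : ι → ℝ, (∀ x ∉ B, φ x = 0) → X φ φ ≤ b * N φ φ) ∧
      ∀ (V : Type) (s : Finset V) (X : (ι → ℝ) → (ι → ℝ) → ℝ) (Y : V → (ι → ℝ) → (ι → ℝ) → ℝ)
        (δ Q : ℝ), SB X → (∀ v ∈ s, SB (Y v)) → 0 ≤ Q → Q ≤ 1 →
        (∀ φ, ∑ v ∈ s, Y v φ φ ≤ δ * N φ φ) →
        (∀ φ, ∃ w : V → ℝ, (∀ v, 0 ≤ w v) ∧ ∑ v ∈ s, w v ≤ Q * N φ φ ∧
          ∀ v ∈ s, ∀ ψ, Y v φ ψ ^ 2 ≤ w v * N ψ ψ) →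
        ∑ v ∈ s, (Φ (X + Y v) - Φ X) ≤ (δ + Q) * Φ X

/-- the potential of a complex symmetric kernel on `B` -/
def S_POTC : Prop :=
  ∀ (ι : Type) [Fintype ι] [DecidableEq ι] (B : Finset ι),
    ∃ Φ : (ι → ι → ℂ) → ℝ, Φ 0 = 4 * B.card ∧ (∀ X, (∀ x y, X x y = X y x) → 0 ≤ Φ X) ∧
      (∀ X (b : ℝ), (∀ x y, X x y = X y x) → 0 ≤ b → Φ X < exp b → OpLe B X (2 * b)) ∧
      ∀ (V : Type) (s : Finset V) (X : ι → ι → ℂ) (Y : V → ι → ι → ℂ) (δ Q : ℝ),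
        (∀ x y, X x y = X y x) → (∀ v ∈ s, ∀ x y, Y v x y = Y v y x) → 0 ≤ δ → 0 ≤ Q → Q ≤ 1 →
        (∀ u : ι → ℝ, ‖∑ v ∈ s, ∑ x ∈ B, ∑ y ∈ B, u x * Y v x y * u y‖ ≤ δ * ∑ x ∈ B, u x ^ 2) →
        (∀ u : ι → ℝ, ∑ v ∈ s, ∑ x ∈ B, ‖∑ y ∈ B, Y v x y * u y‖ ^ 2 ≤ Q * ∑ x ∈ B, u x ^ 2) →
        ∑ v ∈ s, (Φ (X + Y v) - Φ X) ≤ (δ + Q) * Φ X

/-- the scattering coefficient of a tuned site -/
def S_CPA : Prop :=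
  ∀ (W g : ℂ) (X η mb : ℝ) (t : Bool → ℂ), 0 < η → η ≤ 1 / 10 ^ 8 → ‖W‖ ≤ 1 / 10 ^ 7 →
    |-W.im / η - 1| ≤ 1 / 10 ^ 7 → ‖g - phi W‖ ≤ mb → mb ≤ η / 10 ^ 9 →
    g.im = -W.im * ‖g‖ ^ 2 + η * X → (∀ b, t b = (sgn b - W) / (1 + (sgn b - W) * g)) →
    ‖g‖ ≤ 1 / 10 ^ 6 ∧ (∀ b, ‖t b‖ ≤ 11 / 10) ∧
      ‖t true + t false‖ ≤ (‖t true‖ ^ 2 + ‖t false‖ ^ 2) * ‖g - phi W‖ ∧
      (∀ b, |‖t b‖ ^ 2 - -W.im / η / X| ≤ 4 * mb / η) ∧ ‖1 - W ^ 2‖ ≤ 11 / 10 ∧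
      (∀ b, ‖t b ^ 2 - (1 - W ^ 2) ^ 2‖ ≤ 4 * mb) ∧ ∀ b, ‖1 - t b * g‖ ≤ 101 / 100 * ‖t b‖

/-- histories that follow the keys -/
def S_HIST : Prop :=
  ∀ (ι : Type) [Fintype ι] [DecidableEq ι] (κ : ι → ℕ) (Z : Finset ι) (ω : ι → Bool) (W : ι → ℂ),
    Function.Injective κ → ∀ t : ℕ, ∃ h : List (ι × Bool), (h.map Prod.fst).toFinset = pre κ Z t ∧
      (h.map Prod.fst).Pairwise (fun x y => κ y < κ x) ∧ (∀ w ∈ h, w.2 = ω w.1) ∧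
      Wh W h = Wc W ω (pre κ Z t) ∧
      ∀ (V : Type) [AddCommMonoid V] (f : (ι → ℂ) → Finset ι → ι → Bool → V),
        Sm W f h = ∑ v ∈ pre κ Z t, f (Wc W ω (pre κ Z (κ v))) (pre κ Z (κ v)) v (ω v)

/-- the exact chain of star-mesh steps along a history -/
def S_CHAIN : Prop :=
  ∀ (ι : Type) [Fintype ι] [DecidableEq ι] (η : ℝ) (H : Matrix ι ι ℝ) (W : ι → ℂ)
    (h : List (ι × Bool)), 0 < η → (∀ x y, H x y = H y x) → (∀ x, (W x).im ≤ 0) →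
    (h.map Prod.fst).Nodup →
    (∀ z h', z :: h' <:+ h →
      0 < ∑ y ∈ univ.erase z.1, Kk η (Wh W h') (NW.GG H (Wh W h')) z.1 y) →
    (∀ F, En univ (Kk η (Wh W h) (NW.GG H (Wh W h))) F ≤ En univ (Kk η W (NW.GG H W)) F +
      Sm W (fun W' _ v b => En (univ.erase v) (dK η H W' v b) F) h) ∧
    ∀ f : ι → ℝ, ∃ g : ι → ℝ, (∀ x ∉ hs h, g x = f x) ∧ ∀ F : ι → ℝ,
      (∀ x, (W x).im ≠ 0 → F x = g x) →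
      En univ (Kk η (Wh W h) (NW.GG H (Wh W h))) f = En univ (Kk η W (NW.GG H W)) F +
        Sm W (fun W' _ v b => En (univ.erase v) (dK η H W' v b) F) h

/-! ### the flow on the torus -/

variable {d M : ℕ} [NeZero M]

/-- the numbers of a round -/
noncomputable def npOf (E : Env d M) (q : Par) : Np := ⟨q.P, q.μ, q.μJ, E.η⟩

theorem npOf_OK {E : Env d M} {q : Par} (hE : E.OK) (hq : q.OK E) : (npOf E q).OK :=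
  ⟨hq.P9 hE, hq.μpos, hq.J1, hq.J2, hE.η0, hE.η1⟩

/-- the state of the flow after the closing of `X`, with potential term `W` -/
noncomputable def mkS (E : Env d M) (q : Par) (S : St (Tor d M)) (c : Tor d M)
    (Z Sg X : Finset (Tor d M)) (W : Tor d M → ℂ) : Sx (Tor d M) where
  G := NW.GG S.H W
  a := aw E.η W
  t := fun v b => (sgn b - W v) / (1 + (sgn b - W v) * NW.GG S.H W v v)
  m := fun x => NW.GG S.H W x x - phi (S.W x)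
  s := fun x => 1 - S.W x ^ 2
  mr := μr q S
  Op := S.O \ X
  R := (S.O ∩ bl c (6 * q.A E.η d)) \ X
  rem := Z \ X
  Sg := Sg
  X := X
  Kp := S.O \ Z
  B := fun v => bl v (q.D E.η 2)

/-- the standing hypotheses of the flow -/
structure Hyp (E : Env d M) (q : Par) (S : St (Tor d M)) (c : Tor d M) (Z Sg : Finset (Tor d M)) :
    Prop where
  hE : E.OK
  hq : q.OK E
  inv : Inv E (q.b1 E.η) S
  sel : Sel E q S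
  hZ : Z ⊆ (S.good \ S.sig) ∩ bl c (5 * q.A E.η d)
  hSg : Sg ⊆ S.sig ∩ bl c (5 * q.A E.η d)
  cov : Cover E S.omg

/-- the bounds that the scalar monitors and the norm monitor give at one time -/
structure Bnd (E : Env d M) (q : Par) (S : St (Tor d M)) (c : Tor d M) (Z Sg X : Finset (Tor d M))
    (W : Tor d M → ℂ) : Prop where
  b1 : ∀ x ∈ (S.O ∩ bl c (6 * q.A E.η d)) \ X, ∀ y ∈ (Z ∪ Sg) \ X, x ≠ y →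
    ‖NW.GG S.H W x y - S.G x y‖ ≤ 2 * √(μr q S x * q.μ) * (q.P : ℝ) ^ 45
  b2 : ∀ x ∈ (S.O ∩ bl c (6 * q.A E.η d)) \ X,
    q2 q.P ((q.P : ℝ) ^ 20 * μr q S x ^ 2) (NW.GG S.H W) (Z \ X) Sg x ≤
      (q.P : ℝ) ^ 20 * μr q S x ^ 2 / 20
  b3 : ∀ x ∈ (Z ∪ Sg) \ X, z3 q.P q.μ (NW.GG S.H W) (aw E.η W) X (S.O \ Z) x
    (NW.GG S.H W x x - phi (S.W x)) ≤ -1 / (2 * (q.P : ℝ) ^ 25)
  b4 : OpLe Z (NW.GG S.H W) ((q.P : ℝ) ^ 40 / E.η)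

/-- exact facts about a state of the flow: invertibility, the identity of Ward, one step -/
def S_EXA : Prop :=
  ∀ (d M : ℕ) [NeZero M] (E : Env d M) (q : Par) (S : St (Tor d M)) (c : Tor d M)
    (Z Sg X : Finset (Tor d M)) (W : Tor d M → ℂ), Hyp E q S c Z Sg → X ⊆ Z → Cl S.W X W →
    IsUnit (NW.MM S.H W).det ∧ (∀ x y, NW.GG S.H W x y = NW.GG S.H W y x) ∧
    (∀ x, (W x).im ≤ 0) ∧ (∀ x ∉ S.O \ X, (W x).im = 0) ∧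
    OpLe (S.O \ X) (NW.GG S.H W) (2 / E.η) ∧
    (∀ u : Tor d M → ℝ, E.η * ∑ y ∈ S.O \ X, aw E.η W y * ‖∑ z, NW.GG S.H W y z * u z‖ ^ 2 =
      (∑ x, u x * ∑ z, NW.GG S.H W x z * u z).im) ∧
    ∀ v ∈ Z \ X, ∀ b,
      (∀ x y, NW.GG S.H (Function.update W v (sgn b)) x y = (mkS E q S c Z Sg X W).G' v b x y) ∧
      (∀ x y, x ≠ v → y ≠ v → dK E.η S.H W v b x y = (mkS E q S c Z Sg X W).dk v b x y) ∧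
      ∀ x y, Y6 S.H W ((Z ∪ Sg) \ X) (q.D E.η 2) v b x y = (mkS E q S c Z Sg X W).y6 v b x y

/-- decay during the flow -/
def S_DEC : Prop :=
  ∀ (d M : ℕ) [NeZero M] (E : Env d M) (q : Par) (S : St (Tor d M)) (c : Tor d M)
    (Z Sg X : Finset (Tor d M)) (W : Tor d M → ℂ), Hyp E q S c Z Sg → X ⊆ Z → Cl S.W X W →
    OpLe Z (NW.GG S.H W) ((q.P : ℝ) ^ 40 / E.η) →
    Dec (NW.GG S.H W) S.O (q.Bi 2) (q.li E.η 2) ∧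
      ∑ v ∈ Z \ X, ∑ y ∈ (S.O \ X) \ bl v (q.D E.η 2), ‖NW.GG S.H W v y‖ ^ 2 ≤ 1

/-- the facts follow from the bounds and the comparison of the forms -/
def S_FX : Prop :=
  ∀ (d M : ℕ) [NeZero M] (E : Env d M) (q : Par) (S : St (Tor d M)) (c : Tor d M)
    (Z Sg X : Finset (Tor d M)) (W : Tor d M → ℂ), Hyp E q S c Z Sg → X ⊆ Z → Cl S.W X W →
    Bnd E q S c Z Sg X W → UL E.p (Kk E.η W (NW.GG S.H W)) (S.O \ X) (2 / 10 ^ 7) →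
    Fx (npOf E q) (mkS E q S c Z Sg X W) ∧
      ∀ x ∈ S.O \ X, 1 / 2 ≤ ∑ z ∈ univ.erase x, Kk E.η W (NW.GG S.H W) x z

/-- the part of the noise of the form that comes from far pairs -/
def S_FARE : Prop :=
  ∀ (d M : ℕ) [NeZero M] (E : Env d M) (q : Par), E.OK → q.OK E →
    ∃ κ : Tor d M → ℝ, (∀ h, 0 ≤ κ h) ∧
      (∀ F : Tor d M → ℝ,
        ∑ v, ∑ h, κ h * (F (v + h) - F v) ^ 2 ≤ 1 / (q.P : ℝ) ^ 4 * NF E.p F) ∧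
      ∀ (O : Finset (Tor d M)) (k : Tor d M → Tor d M → ℝ) (G : Matrix (Tor d M) (Tor d M) ℂ)
        (v : Tor d M) (F : Tor d M → ℝ), v ∈ O → Dec G O (q.Bi 2) (q.li E.η 2) →
        (∀ x y, x ≠ v → y ≠ v → x ∉ O ∨ y ∉ O → k x y = 0) →
        (∀ x ∈ O, ∀ y ∈ O, x ≠ v → y ≠ v →
          |k x y| ≤ 10 * (‖G v x‖ * ‖G v y‖ * ‖G x y‖ + ‖G v x‖ ^ 2 * ‖G v y‖ ^ 2)) →
        |En (univ.erase v) k F - En ((bl v (q.D E.η 2)).erase v) k F| ≤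
          ∑ h, κ h * (F (v + h) - F v) ^ 2

/-- the reference form as a positive bilinear form, and duality -/
def S_NMB : Prop :=
  ∀ (d M : ℕ) [NeZero M] (E : Env d M), E.OK →
    (∃ N : (Tor d M → ℝ) → (Tor d M → ℝ) → ℝ, SB N ∧ (∀ φ, φ ≠ 0 → 0 < N φ φ) ∧
      ∀ φ, N φ φ = Nm E.p φ) ∧
    (∀ (S : Finset (Tor d M)) (k : Tor d M → Tor d M → ℝ), SB (Eb S k) ∧ ∀ φ, Eb S k φ φ = En S k φ) ∧
    ∀ (ξ ψ : Tor d M → ℝ) (l : ℝ), 0 ≤ l → ∑ x, ξ x ^ 2 ≤ l ^ 2 →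
      (∑ x, ξ x * ψ x) ^ 2 ≤ 2 * (l ^ 2 + E.η * l * ∑ x, |ξ x|) * Nm E.p ψ

/-- the comparison of the forms along a history without a trip -/
def S_ULH : Prop :=
  ∀ (d M : ℕ) [NeZero M] (E : Env d M) (q : Par) (S : St (Tor d M)) (c : Tor d M)
    (Z Sg : Finset (Tor d M)) (h : List (Tor d M × Bool)), Hyp E q S c Z Sg →
    (h.map Prod.fst).Nodup → hs h ⊆ Z →
    (∀ h', h' <:+ h → Bnd E q S c Z Sg (hs h') (Wh S.W h') ∧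
      ∀ φ : Tor d M → ℝ, (∀ x ∉ bl c (24 * d * q.A E.η d), φ x = 0) →
        |Sm S.W (fun W _ v b => Y5 E.η S.H W (q.D E.η 2) v b φ) h'| ≤ Nm E.p φ / (q.P : ℝ) ^ 4) →
    UL E.p (Kk E.η (Wh S.W h) (NW.GG S.H (Wh S.W h))) (S.O \ hs h) (2 / 10 ^ 7)

end Pool.Agent.P.MP_d0f69c_mp.XS
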