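import Pool.Agent.P.MP_d0f69c_mp.XS.Basic

/-!
Interfaces inside the gluing block.
-/

set_option autoImplicit false

open Finset Real

namespace Pool.Agent.P.MP_d0f69c_mp.XS

variable {d M : ℕ}

/-- the sites that are closed -/
abbrev St.Zg (S : St (Tor d M)) (J : Finset (Tor d M)) : Finset (Tor d M) := (S.good \ S.sig) \ J

/-- the diagonal at time `t` of the flow that closes `Z` -/
noncomputable abbrev Wg (S : St (Tor d M)) (ω : Tor d M → Bool) (κ : Tor d M → ℕ)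
    (Z : Finset (Tor d M)) (t : ℕ) : Tor d M → ℂ := Wc S.W ω (pre κ Z t)

variable [NeZero M]

/-- the Green function at time `t` of the flow that closes `Z` -/
noncomputable abbrev Gg (S : St (Tor d M)) (ω : Tor d M → Bool) (κ : Tor d M → ℕ)
    (Z : Finset (Tor d M)) (t : ℕ) : Matrix (Tor d M) (Tor d M) ℂ := NW.GG S.H (Wg S ω κ Z t)

/-- the envelope of the closing phase -/
noncomputable def env (q : Par) (η : ℝ) (z : Tor d M) : ℝ :=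
  q.Bi 2 * exp (-(nm z : ℝ) / q.li η 2)

variable (E : Env d M) (q : Par) (S : St (Tor d M)) (J : Finset (Tor d M)) (ω : Tor d M → Bool)
  (κ : Tor d M → ℕ)

/-- the part of `Zg` that the proxy of the centre `p` closes -/
noncomputable abbrev Zp (p : Tor d M) : Finset (Tor d M) := S.Zg J ∩ bl p (5 * q.A E.η d)

/-- the hypotheses of `S_GLUE` -/
structure GH : Prop where
  hE : E.OK
  hq : q.OK E
  inv : Inv E (q.b1 E.η) S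
  sel : Sel E q S
  inj : Function.Injective κ
  flow : ∀ p, bl p (5 * q.A E.η d) ⊆ J ∨
    Flow E q S p (Zp E q S J p) ((S.sig \ J) ∩ bl p (5 * q.A E.η d)) ω κ

/-- decay at all times, and closeness of the global flow and the proxies -/
structure GD : Prop where
  dec : ∀ t, Dec (Gg S ω κ (S.Zg J) t) S.O (q.Bi 2) (q.li E.η 2)
  decp : ∀ p t, Dec (Gg S ω κ (Zp E q S J p) t) S.O (q.Bi 2) (q.li E.η 2)
  cls : ∀ p t x z, nm (x - p) ≤ 4 * q.A E.η d →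
    ‖Gg S ω κ (S.Zg J) t x z - Gg S ω κ (Zp E q S J p) t x z‖ ≤ exp (-(q.P : ℝ) ^ 7 / 2)

/-- pointwise bounds for the noise of one closing -/
structure GE : Prop where
  deg : ∀ v ∈ S.Zg J, 1 / 4 ≤ ∑ z ∈ univ.erase v,
    Kk E.η (Wg S ω κ (S.Zg J) (κ v)) (Gg S ω κ (S.Zg J) (κ v)) v z
  kb : ∀ v ∈ S.Zg J, ∀ x y, x ≠ v → y ≠ v → |dK E.η S.H (Wg S ω κ (S.Zg J) (κ v)) v (ω v) x y| ≤
    exp (3 * (q.P : ℝ) ^ 6) * (env q E.η (x - v) * env q E.η (y - v))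
  ab : ∀ v ∈ S.Zg J, ∀ x ∈ S.O, ∀ y ∈ S.O, x ≠ v → y ≠ v →
    ‖dA S.H (Wg S ω κ (S.Zg J) (κ v)) v (ω v) x y‖ ≤
      exp (3 * (q.P : ℝ) ^ 6) * (env q E.η (x - v) * env q E.η (y - v))
  kc : ∀ p, ∀ v ∈ S.Zg J ∩ bl p (q.A E.η d), ∀ x ∈ (bl v (q.D E.η 2)).erase v,
    ∀ y ∈ (bl v (q.D E.η 2)).erase v, |dK E.η S.H (Wg S ω κ (S.Zg J) (κ v)) v (ω v) x y -
      dK E.η S.H (Wg S ω κ (Zp E q S J p) (κ v)) v (ω v) x y| ≤ exp (-(q.P : ℝ) ^ 7 / 4)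
  ac : ∀ p, ∀ v ∈ S.Zg J ∩ bl p (q.A E.η d), ∀ x ∈ (S.O ∩ bl v (q.D E.η 2)).erase v,
    ∀ y ∈ (S.O ∩ bl v (q.D E.η 2)).erase v, ‖dA S.H (Wg S ω κ (S.Zg J) (κ v)) v (ω v) x y -
      dA S.H (Wg S ω κ (Zp E q S J p) (κ v)) v (ω v) x y‖ ≤ exp (-(q.P : ℝ) ^ 7 / 4)

/-- the near noise of the retarded-retarded matrix in the global flow -/
noncomputable def Y6g (x y : Tor d M) : ℂ :=
  ∑ v ∈ S.Zg J, Y6 S.H (Wg S ω κ (S.Zg J) (κ v)) ((S.good \ J) \ pre κ (S.Zg J) (κ v))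
    (q.D E.η 2) v (ω v) x y

/-- a statement about all data of the gluing step -/
def AllG (X : ∀ (d M : ℕ) [NeZero M], Env d M → Par → St (Tor d M) → Finset (Tor d M) →
    (Tor d M → Bool) → (Tor d M → ℕ) → Prop) : Prop :=
  ∀ (d M : ℕ) [NeZero M] (E : Env d M) (q : Par) (S : St (Tor d M)) (J : Finset (Tor d M))
    (ω : Tor d M → Bool) (κ : Tor d M → ℕ), GH E q S J ω κ → X d M E q S J ω κ

def S_G1 : Prop := AllG fun _ _ _ E q S J ω κ => GD E q S J ω κ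

def S_G2 : Prop := AllG fun _ _ _ E q S J ω κ => GD E q S J ω κ → GE E q S J ω κ

/-- forms, far pairs -/
def S_G3 : Prop := AllG fun _ _ _ E q S J ω κ => GE E q S J ω κ → ∀ F,
  ∑ v ∈ S.Zg J, |En (univ.erase v) (dK E.η S.H (Wg S ω κ (S.Zg J) (κ v)) v (ω v)) F -
    Y5 E.η S.H (Wg S ω κ (S.Zg J) (κ v)) (q.D E.η 2) v (ω v) F| ≤ 1 / (q.P : ℝ) ^ 3 * NF E.p F

/-- forms, near pairs -/
def S_G4 : Prop := AllG fun _ _ _ E q S J ω κ => GE E q S J ω κ → ∀ F,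
  |∑ v ∈ S.Zg J, Y5 E.η S.H (Wg S ω κ (S.Zg J) (κ v)) (q.D E.η 2) v (ω v) F| ≤
    2 / (q.P : ℝ) ^ 3 * NF E.p F

/-- retarded-retarded matrix, far pairs -/
def S_G5 : Prop := AllG fun _ _ _ E q S J ω κ => GE E q S J ω κ →
  OpLe (S.good \ J) (fun x y => (∑ v ∈ S.Zg J,
    if x ∈ ((S.good \ J) \ pre κ (S.Zg J) (κ v)).erase v ∧
        y ∈ ((S.good \ J) \ pre κ (S.Zg J) (κ v)).erase v then
      dA S.H (Wg S ω κ (S.Zg J) (κ v)) v (ω v) x y else 0) - Y6g E q S J ω κ x y)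
    (1 / (q.P : ℝ) ^ 3)

/-- retarded-retarded matrix, near pairs -/
def S_G6 : Prop := AllG fun _ _ _ E q S J ω κ => GE E q S J ω κ →
  OpLe (S.good \ J) (Y6g E q S J ω κ) (2 / (q.P : ℝ) ^ 3)

/-- entries at the end -/
def S_G7 : Prop := AllG fun _ _ _ E q S J ω κ => GD E q S J ω κ →
  (∀ x ∈ S.sig \ J, ‖(S.close J ω).G x x - phi (S.W x)‖ ≤ 41 * q.μ * (q.P : ℝ) ^ 39) ∧
  (∀ x ∈ (S.close J ω).rowA q.fin, ∀ y ∈ S.sig \ J, x ≠ y →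
    ‖(S.close J ω).G x y‖ ^ 2 ≤ q.μ / 7) ∧
  (∀ x ∈ (S.close J ω).O \ (S.close J ω).rowA q.fin, ∀ y ∈ S.sig \ J,
    ‖(S.close J ω).G x y‖ ^ 2 ≤ (q.ζ + 2 / (q.P : ℝ) ^ 3) ^ 2 * q.μJ) ∧
  ∀ b ∈ S.sp, ∀ y ∈ S.sig \ J, ‖(S.close J ω).G b y‖ ^ 2 ≤ q.e ^ 190

/-- fourth powers at the end -/
def S_G8 : Prop := AllG fun _ _ _ E q S J ω κ => GD E q S J ω κ →
  ∀ x ∈ (S.close J ω).O, ∑ y ∈ (S.sig \ J).erase x, ‖(S.close J ω).G x y‖ ^ 4 ≤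
    (q.P : ℝ) ^ 20 * μr q S x ^ 2 / 14

end Pool.Agent.P.MP_d0f69c_mp.XS
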