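import Pool.Agent.P.MP_d0f69c_mp.XS.Num
import Pool.Agent.P.MP_d0f69c_mp.XS.Pr

/-!
Sub-interface of the selection step.
-/

set_option autoImplicit false

open Finset Real

namespace Pool.Agent.P.MP_d0f69c_mp.XS

/-- upper tail for sums over marked points -/
def S_MARKU : Prop :=
  ∀ (ι : Type) [Fintype ι] [DecidableEq ι] (K : ℕ) [NeZero K] (A : Finset ι) (c : ι → ℝ)
    (m N t : ℝ), 0 ≤ t → 0 < m → 0 < N → (∀ y ∈ A, 0 ≤ c y ∧ c y ≤ m) → ∑ y ∈ A, c y ≤ N →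
    pr (fun w : ι → Fin K => N / K + t ≤ ∑ y ∈ A with w y = 0, c y) ≤
      exp (-t ^ 2 / (2 * (m * N)))

/-- lower tail for sums over marked points that have no marked neighbour -/
def S_MARKL : Prop :=
  ∀ (ι : Type) [Fintype ι] [DecidableEq ι] (K Δ : ℕ) [NeZero K] (A : Finset ι)
    (nb : ι → Finset ι) (c : ι → ℝ) (m N t : ℝ), 0 ≤ t → 0 < m → 0 < N →
    (∀ y ∈ A, 0 ≤ c y ∧ c y ≤ m) → ∑ y ∈ A, c y ≤ N → (∀ y, y ∉ nb y) →
    (∀ y, (nb y).card ≤ Δ) → (∀ y z, y ∈ nb z → z ∈ nb y) → 2 * Δ ≤ K →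
    pr (fun w : ι → Fin K => ∑ y ∈ A with (w y = 0 ∧ ∀ z ∈ nb y, w z ≠ 0), c y ≤
      (∑ y ∈ A, c y) / (2 * K) - t) ≤ exp (-t ^ 2 / (2 * (((Δ : ℝ) + 1) ^ 2 * (m * N))))

variable {d M : ℕ} [NeZero M] (E : Env d M) (q : Par) (S : St (Tor d M))

/-- number of values of a mark -/
abbrev Par.Km (q : Par) : ℕ := q.P ^ 24 - 1 + 1

open Classical in
/-- good sites in conflict with the good site `y` -/
noncomputable def nbr (y : Tor d M) : Finset (Tor d M) :=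
  (S.good.erase y).filter fun z => y ∈ S.good ∧
    (q.μ / 8 < ‖S.G y z‖ ^ 2 ∨ q.μ ^ 2 / (q.P : ℝ) ^ 4 < E.gt (y - z) ^ 2)

open Classical in
/-- junk in small clusters -/
noncomputable def spc : Finset (Tor d M) :=
  S.junk.filter fun b => q.late E.η ∧ ((S.junk ∩ bl b (4 * q.D E.η 1)).card : ℝ) ≤ 1 / q.e

open Classical in
/-- good sites that are not blocked -/
noncomputable def cand : Finset (Tor d M) :=
  S.good.filter fun y => q.last = false ∧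
    (q.fin = false → ∀ x ∈ S.omg, ‖S.G x y‖ ^ 2 ≤ q.μ / 8) ∧
    ∀ b ∈ spc E q S, ‖S.G b y‖ ^ 2 ≤ q.e ^ 190 / 4

/-- too much fourth moment on the marked sites near `x` -/
def Fl1 (x : Tor d M) (w : Tor d M → Fin q.Km) : Prop :=
  (q.P : ℝ) ^ 20 * μr q S x ^ 2 / 40 ≤
    ∑ y ∈ (S.good ∩ bl x (q.D E.η 1)).erase x with w y = 0, ‖S.G x y‖ ^ 4

/-- too little mass is kept near `x` -/
def Fl2 (x : Tor d M) (w : Tor d M → Fin q.Km) : Prop :=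
  ∑ z ∈ S.omg ∪ S.junk, aw E.η S.W z * ‖S.G x z‖ ^ 2 +
    ∑ z ∈ (cand E q S ∩ bl x (q.D E.η 1)).erase x with (w z = 0 ∧ ∀ y ∈ nbr E q S z, w y ≠ 0),
      aw E.η S.W z * ‖S.G x z‖ ^ 2 ≤ 1 / (q.P : ℝ) ^ 25

/-- too much of the reference kernel on the marked sites near `x` -/
def Fl3 (x : Tor d M) (w : Tor d M → Fin q.Km) : Prop :=
  q.μ ^ 2 / 5 ≤
    ∑ v ∈ (S.good ∩ bl x (q.D E.η 1)).erase x \ nbr E q S x with w v = 0, E.gt (x - v) ^ 2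

/-- failure at `x` -/
def Fail (x : Tor d M) (w : Tor d M → Fin q.Km) : Prop :=
  x ∈ S.O ∧ (Fl1 E q S x w ∨ x ∈ S.good ∧ (Fl2 E q S x w ∨ Fl3 E q S x w))

open Classical in
/-- the frozen region -/
noncomputable def frz (w : Tor d M → Fin q.Km) : Finset (Tor d M) :=
  univ.filter fun y => ∃ x, Fail E q S x w ∧ nm (x - y) ≤ q.D E.η 1

open Classical in
/-- the state after the selection -/
noncomputable def selS (s : ℕ) (w : Tor d M → Fin q.Km) : St (Tor d M) :=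
  { S.freeze (frz E q S w) with
    sig := ((cand E q S).filter fun y => w y = 0 ∧ ∀ z ∈ nbr E q S y, w z ≠ 0) \ frz E q S w
    sp := spc E q S
    ev := S.ev ∪ (univ.filter fun x => Fail E q S x w).image fun x => (s, 0, x) }

/-- far entries are negligible -/
def S_SELF : Prop :=
  ∀ (d M : ℕ) [NeZero M] (E : Env d M) (q : Par) (S : St (Tor d M)), E.OK → q.OK E →
    Inv E (q.b1 E.η) S → ∀ x ∈ S.O,
      ∑ y with q.D E.η 1 < nm (y - x), ‖S.G x y‖ ^ 2 ≤ q.μ ^ 2 / 100 ∧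
      ∑ y with q.D E.η 1 < nm (y - x), ‖S.G x y‖ ^ 4 ≤ q.μ ^ 2 / 100

/-- the conflict graph -/
def S_SELN : Prop :=
  ∀ (d M : ℕ) [NeZero M] (E : Env d M) (q : Par) (S : St (Tor d M)), E.OK → q.OK E →
    Inv E (q.b1 E.η) S → (∀ y z, y ∈ nbr E q S z → z ∈ nbr E q S y) ∧
      (∀ y, (nbr E q S y).card ≤ q.P ^ 21) ∧ ∀ y, nbr E q S y ⊆ bl y (q.D E.η 1)

/-- the mass that can be kept -/
def S_SELB : Prop :=
  ∀ (d M : ℕ) [NeZero M] (E : Env d M) (q : Par) (S : St (Tor d M)), E.OK → q.OK E →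
    Inv E (q.b1 E.η) S → ∀ x ∈ S.good,
      ∑ z ∈ S.good.erase x, aw E.η S.W z * ‖S.G x z‖ ^ 2 ≤ 2 ∧
      1 / 2 ≤ ∑ z ∈ S.omg ∪ S.junk, aw E.η S.W z * ‖S.G x z‖ ^ 2 +
        ∑ z ∈ (cand E q S ∩ bl x (q.D E.η 1)).erase x, aw E.η S.W z * ‖S.G x z‖ ^ 2

/-- failures are rare -/
def S_SELP : Prop :=
  ∀ (d M : ℕ) [NeZero M] (E : Env d M) (q : Par) (S : St (Tor d M)), E.OK → q.OK E →
    Inv E (q.b1 E.η) S → ∀ x, pr (Fail E q S x) ≤ exp (-(q.P : ℝ) ^ 3)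

/-- the survivors have the required properties -/
def S_SELD : Prop :=
  ∀ (d M : ℕ) [NeZero M] (E : Env d M) (q : Par) (S : St (Tor d M)) (s : ℕ)
    (w : Tor d M → Fin q.Km), E.OK → q.OK E → Inv E (q.b1 E.η) S → Sel E q (selS E q S s w)

end Pool.Agent.P.MP_d0f69c_mp.XS
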