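import Mathlib

/-!
Initial data, part 1: decay of the one dimensional kernel.
-/

set_option autoImplicit false

open Complex MeasureTheory Finset
open scoped ComplexConjugate

namespace Pool.Agent.P.MP_d0f69c_mp.XS

theorem osc_le (w : ℂ) (hw : 1 ≤ ‖w‖) :
    ‖∫ θ in (0 : ℝ)..2 * Real.pi, exp (I * (w * exp (θ * I)).re)‖ ≤
      2 * Real.pi * (6 / √‖w‖) := by
  set r := ‖w‖ with hr
  set s := √r with hs
  have s1 : 1 ≤ s := Real.one_le_sqrt.2 hw
  have s2 : s ^ 2 = r := Real.sq_sqrt (by linarith)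
  let φ : ℝ → ℝ := fun θ => w.re * Real.cos θ - w.im * Real.sin θ
  let ψ : ℝ → ℝ := fun θ => -(w.re * Real.sin θ) - w.im * Real.cos θ
  have e : ∀ θ : ℝ, (w * exp (θ * I)).re = φ θ := fun θ => by
    simp [φ, exp_ofReal_mul_I_re, exp_ofReal_mul_I_im]
  have d1 : ∀ θ, HasDerivAt φ (ψ θ) θ := fun θ => by
    refine (((Real.hasDerivAt_cos θ).const_mul w.re).sub
      ((Real.hasDerivAt_sin θ).const_mul w.im)).congr_deriv ?_
    simp [ψ]
  have d2 : ∀ θ, HasDerivAt ψ (-φ θ) θ := fun θ => by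
    refine (((Real.hasDerivAt_sin θ).const_mul w.re).neg.sub
      ((Real.hasDerivAt_cos θ).const_mul w.im)).congr_deriv ?_
    simp only [φ]
    ring
  have n : ∀ θ, φ θ ^ 2 + ψ θ ^ 2 = r ^ 2 := fun θ => by
    rw [hr, ← normSq_eq_norm_sq, normSq_apply]
    simp only [φ, ψ]
    linear_combination (w.re * w.re + w.im * w.im) * Real.sin_sq_add_cos_sq θ
  have p : ∀ θ, 0 < ψ θ ^ 2 + r := fun θ => by positivity
  have c1 : Continuous φ := by fun_prop
  have c2 : Continuous ψ := by fun_prop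
  let u : ℝ → ℝ := fun θ => -φ θ * (r - ψ θ ^ 2) / (ψ θ ^ 2 + r) ^ 2
  have cu : Continuous u := Continuous.div (by fun_prop) (by fun_prop) fun θ => by
    have := p θ
    positivity
  have cv : Continuous fun θ => ψ θ / (ψ θ ^ 2 + r) := c2.div (by fun_prop) fun θ => (p θ).ne'
  have d3 : ∀ θ, HasDerivAt (fun θ => exp (I * φ θ) * (ψ θ / (ψ θ ^ 2 + r) : ℝ))
      (exp (I * φ θ) * (I * ψ θ) * (ψ θ / (ψ θ ^ 2 + r) : ℝ) + exp (I * φ θ) * u θ) θ := fun θ => by
    refine ((d1 θ).ofReal_comp.const_mul I).cexp.mul (HasDerivAt.ofReal_comp ?_)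
    refine ((d2 θ).div (((d2 θ).pow 2).add_const r) (p θ).ne').congr_deriv ?_
    simp only [u, Pi.pow_apply]
    congr 1
    push_cast
    ring
  have i3 := intervalIntegral.integral_eq_sub_of_hasDerivAt (a := 0) (b := 2 * Real.pi)
    (fun θ _ => d3 θ) (Continuous.intervalIntegrable (by fun_prop) _ _)
  let F' : ℝ → ℝ := fun θ => -ψ θ * Real.arctan (ψ θ / s) + s * φ θ ^ 2 / (ψ θ ^ 2 + r)
  have cF : Continuous F' := Continuous.add (by fun_prop)
    (Continuous.div (by fun_prop) (by fun_prop) fun θ => (p θ).ne')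
  have d4 : ∀ θ, HasDerivAt (fun θ => -φ θ * Real.arctan (ψ θ / s)) (F' θ) θ := fun θ => by
    refine ((d1 θ).neg.mul ((d2 θ).div_const s).arctan).congr_deriv ?_
    simp only [F', Pi.neg_apply, ← s2]
    field_simp
    ring
  have i4 := intervalIntegral.integral_eq_sub_of_hasDerivAt (a := 0) (b := 2 * Real.pi)
    (fun θ _ => d4 θ) (cF.intervalIntegrable _ _)
  have z1 : φ (2 * Real.pi) = φ 0 := by simp [φ]
  have z2 : ψ (2 * Real.pi) = ψ 0 := by simp [ψ]
  simp only [z1, z2, sub_self] at i3 i4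
  simp only [e]
  rw [← add_zero (∫ θ in (0 : ℝ)..2 * Real.pi, _), ← mul_zero I, ← i3,
    ← intervalIntegral.integral_const_mul, ← intervalIntegral.integral_add
      (Continuous.intervalIntegrable (by fun_prop) _ _)
      (Continuous.intervalIntegrable (by fun_prop) _ _)]
  refine (intervalIntegral.norm_integral_le_of_norm_le (g := fun θ => 2 / (r * s) * F' θ + 6 / s)
    (by positivity) (ae_of_all _ fun θ _ => ?_)
    (Continuous.intervalIntegrable (by fun_prop) _ _)).trans (le_of_eq ?_)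
  · have q := p θ
    have q' : ((ψ θ : ℂ) ^ 2 + r) ≠ 0 := by exact_mod_cast q.ne'
    have e2 : exp (I * φ θ) + I * (exp (I * φ θ) * (I * ψ θ) * (ψ θ / (ψ θ ^ 2 + r) : ℝ) +
        exp (I * φ θ) * u θ) = exp (I * φ θ) * ((r / (ψ θ ^ 2 + r) : ℝ) + I * u θ) := by
      push_cast
      field_simp
      linear_combination (ψ θ : ℂ) ^ 2 * I_sq
    have a1 : |φ θ| ≤ r := abs_le_of_sq_le_sq' (by nlinarith [n θ]) (by linarith) |> abs_le.2
    have a2 : |ψ θ| ≤ r := abs_le_of_sq_le_sq' (by nlinarith [n θ]) (by linarith) |> abs_le.2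
    have a3 : |u θ| ≤ r / (ψ θ ^ 2 + r) := by
      simp only [u, abs_div, abs_mul, abs_neg, abs_of_pos (pow_pos q 2)]
      rw [div_le_div_iff₀ (by positivity) q, sq (_ + r), ← mul_assoc]
      gcongr
      rw [abs_le]
      constructor <;> nlinarith [sq_nonneg (ψ θ)]
    have a4 : ψ θ * Real.arctan (ψ θ / s) ≤ r * 2 := by
      refine (le_abs_self _).trans ?_
      rw [abs_mul]
      gcongr
      rw [abs_le]
      constructor <;> linarith [Real.arctan_lt_pi_div_two (ψ θ / s),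
        Real.neg_pi_div_two_lt_arctan (ψ θ / s), Real.pi_le_four]
    rw [e2, norm_mul, norm_exp_I_mul_ofReal, one_mul]
    refine (norm_add_le _ _).trans ?_
    rw [norm_mul, norm_I, one_mul, norm_real, norm_real, Real.norm_eq_abs, Real.norm_eq_abs,
      abs_of_nonneg (by positivity)]
    have a5 : r / (ψ θ ^ 2 + r) ≤ φ θ ^ 2 / (ψ θ ^ 2 + r) / r + 1 / s := by
      have : r / (ψ θ ^ 2 + r) = φ θ ^ 2 / (ψ θ ^ 2 + r) / r + ψ θ ^ 2 / (ψ θ ^ 2 + r) / r := by
        rw [← add_div, ← add_div, n]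
        field_simp
      rw [this]
      gcongr
      · rw [div_le_one q]
        linarith
      · nlinarith
    have a6 : 2 / (r * s) * F' θ = 2 * (φ θ ^ 2 / (ψ θ ^ 2 + r) / r) -
        2 / (r * s) * (ψ θ * Real.arctan (ψ θ / s)) := by
      simp only [F']
      field_simp
      ring
    have a7 : 2 / (r * s) * (ψ θ * Real.arctan (ψ θ / s)) ≤ 4 * (1 / s) :=
      (mul_le_mul_of_nonneg_left a4 (by positivity)).trans (le_of_eq (by field_simp; ring))
    have a8 : 6 / s = 6 * (1 / s) := by ring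
    linarith
  · rw [intervalIntegral.integral_add (Continuous.intervalIntegrable (by fun_prop) _ _) (by simp),
      intervalIntegral.integral_const_mul, i4]
    simp
    ring

/-- the one dimensional kernel -/
noncomputable def KK (M : ℕ) [NeZero M] (w : ℂ) : ℂ :=
  (∑ q : ZMod M, exp (I * (w * ZMod.stdAddChar q).re)) / M

theorem KK_le_one (M : ℕ) [NeZero M] (w : ℂ) : ‖KK M w‖ ≤ 1 := by
  have M0 : (0 : ℝ) < M := by exact_mod_cast NeZero.pos M
  rw [KK, norm_div, norm_natCast, div_le_one M0]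
  refine (norm_sum_le _ _).trans (le_of_eq ?_)
  simp only [norm_exp_I_mul_ofReal]
  simp [ZMod.card]

theorem sum_zmod {M : ℕ} [NeZero M] {β : Type} [AddCommMonoid β] (f : ℕ → β) :
    ∑ q : ZMod M, f q.val = ∑ j ∈ range M, f j := by
  obtain ⟨n, rfl⟩ := Nat.exists_eq_succ_of_ne_zero (NeZero.ne M)
  exact Fin.sum_univ_eq_sum_range f (n + 1)

theorem KK_riem (M : ℕ) [NeZero M] (w : ℂ) :
    ‖2 * Real.pi * KK M w - ∫ θ in (0 : ℝ)..2 * Real.pi, exp (I * (w * exp (θ * I)).re)‖ ≤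
      2 * Real.pi * (2 * Real.pi * ‖w‖ / M) := by
  have M0 : (0 : ℝ) < M := by exact_mod_cast NeZero.pos M
  have p0 := Real.pi_pos
  let f : ℝ → ℂ := fun θ => exp (I * (w * exp (θ * I)).re)
  have cf : Continuous f := by fun_prop
  have l : ∀ x y, ‖f x - f y‖ ≤ ‖w‖ * |x - y| := fun x y => by
    have k : ∀ a b : ℝ, ‖exp (I * a) - exp (I * b)‖ ≤ |a - b| := fun a b => by
      have : exp (I * a) - exp (I * b) = exp (I * b) * (exp (I * (a - b : ℝ)) - 1) := by
        rw [mul_sub, ← exp_add]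
        push_cast
        ring_nf
      rw [this, norm_mul, norm_exp_I_mul_ofReal, one_mul]
      exact Real.norm_exp_I_mul_ofReal_sub_one_le
    refine (k _ _).trans ?_
    rw [← sub_re, ← mul_sub]
    refine (abs_re_le_norm _).trans ?_
    rw [norm_mul, mul_comm _ I, mul_comm _ I]
    exact mul_le_mul_of_nonneg_left (k _ _) (norm_nonneg _)
  set h := 2 * Real.pi / M with hh
  have h0 : 0 < h := by positivity
  have e1 : 2 * Real.pi * KK M w = ∑ j ∈ range M, ∫ _ in (j * h)..((j + 1 : ℕ) * h), f (j * h) := by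
    rw [KK, ← sum_zmod, mul_div, mul_sum, sum_div]
    refine sum_congr rfl fun q _ => ?_
    rw [intervalIntegral.integral_const, ZMod.stdAddChar_apply, ZMod.toCircle_apply, real_smul]
    simp only [f, hh]
    push_cast
    ring_nf
  have e2 := intervalIntegral.sum_integral_adjacent_intervals (μ := volume) (f := f)
    (a := fun j => j * h) (n := M) fun _ _ => cf.intervalIntegrable _ _
  rw [Nat.cast_zero, zero_mul, hh, mul_div_cancel₀ _ M0.ne', ← hh] at e2
  rw [e1, ← e2, ← sum_sub_distrib]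
  refine (norm_sum_le_of_le _ (n := fun _ => ‖w‖ * h * h) fun j _ => ?_).trans (le_of_eq ?_)
  · rw [← intervalIntegral.integral_sub (by simp) (cf.intervalIntegrable _ _)]
    refine (intervalIntegral.norm_integral_le_of_norm_le_const (C := ‖w‖ * h)
      fun x hx => (l _ _).trans ?_).trans (le_of_eq ?_)
    · rw [Set.uIoc_of_le (by push_cast; linarith)] at hx
      obtain ⟨x1, x2⟩ := hx
      push_cast at x2
      gcongr
      rw [abs_le]
      constructor <;> linarith
    · push_cast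
      rw [abs_of_nonneg (by linarith)]
      ring
  · rw [sum_const, card_range, nsmul_eq_mul, hh]
    field_simp

theorem KK_le {M : ℕ} [NeZero M] {δ : ℝ} (hδ : 0 < δ) (hM : 64 ≤ δ ^ 2 * M) (w : ℂ) :
    ‖KK M w‖ * √(1 + ‖w‖) ≤ 10 * Real.exp (δ * ‖w‖) := by
  have M0 : (0 : ℝ) < M := by exact_mod_cast NeZero.pos M
  have p0 := Real.pi_pos
  have r0 := norm_nonneg w
  have e1 : 1 ≤ Real.exp (δ * ‖w‖) := Real.one_le_exp (by positivity)
  rcases le_total ‖w‖ 1 with h | h
  · have : √(1 + ‖w‖) ≤ 2 := Real.sqrt_le_iff.2 ⟨by norm_num, by linarith⟩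
    nlinarith [mul_le_mul (KK_le_one M w) this (Real.sqrt_nonneg _) zero_le_one]
  have h1 := (norm_le_norm_sub_add _ _).trans (add_le_add (KK_riem M w) (osc_le w h))
  rw [norm_mul, ← mul_add, show ‖(2 * Real.pi : ℂ)‖ = 2 * Real.pi by simp [p0.le]] at h1
  replace h1 := le_of_mul_le_mul_left h1 (by positivity)
  have h2 : 6 / √‖w‖ * √(1 + ‖w‖) ≤ 9 := by
    rw [div_mul_eq_mul_div, div_le_iff₀ (Real.sqrt_pos.2 (by linarith))]
    refine abs_le_of_sq_le_sq' ?_ (by positivity) |>.2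
    rw [mul_pow, mul_pow, Real.sq_sqrt (by linarith), Real.sq_sqrt r0]
    linarith
  have h3 : 2 * Real.pi * ‖w‖ / M * √(1 + ‖w‖) ≤ Real.exp (δ * ‖w‖) := by
    have a : √(1 + ‖w‖) ≤ 2 * ‖w‖ := Real.sqrt_le_iff.2 ⟨by linarith, by nlinarith⟩
    have b := Real.pow_div_factorial_le_exp (δ * ‖w‖) (by positivity) 2
    rw [div_mul_eq_mul_div, div_le_iff₀ M0]
    have c : 2 * Real.pi * ‖w‖ * √(1 + ‖w‖) ≤ 2 * 4 * ‖w‖ * (2 * ‖w‖) := by
      gcongr
      exact Real.pi_le_four
    norm_num at b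
    nlinarith [mul_le_mul_of_nonneg_right b M0.le, mul_le_mul_of_nonneg_right hM (sq_nonneg ‖w‖)]
  nlinarith [mul_le_mul_of_nonneg_right h1 (Real.sqrt_nonneg (1 + ‖w‖))]

end Pool.Agent.P.MP_d0f69c_mp.XS
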