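import Pool.Agent.P.MP_d0f69c_mp.XS.EndG

/-!
Initial data, part 2: Fourier analysis on the torus.
-/

set_option autoImplicit false

open Complex Finset
open scoped ComplexConjugate Matrix

namespace Pool.Agent.P.MP_d0f69c_mp.XS

variable {d M : ℕ} [NeZero M]

/-- characters of the torus -/
noncomputable def ch (k x : Fin d → ZMod M) : ℂ := ZMod.stdAddChar (∑ i, k i * x i)

theorem norm_e (a : ZMod M) : ‖ZMod.stdAddChar a‖ = 1 := by
  rw [ZMod.stdAddChar_apply, Circle.norm_coe]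

theorem conj_e (a : ZMod M) : conj (ZMod.stdAddChar a) = ZMod.stdAddChar (-a) := by
  rw [AddChar.map_neg_eq_inv, inv_def, normSq_eq_norm_sq, norm_e]
  simp

theorem ch_comm (k x : Fin d → ZMod M) : ch k x = ch x k := by
  simp only [ch, mul_comm]

theorem ch_add (k x y : Fin d → ZMod M) : ch k (x + y) = ch k x * ch k y := by
  simp only [ch, Pi.add_apply, mul_add, sum_add_distrib, AddChar.map_add_eq_mul]

theorem ch_add' (k l x : Fin d → ZMod M) : ch (k + l) x = ch k x * ch l x := by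
  rw [ch_comm, ch_add, ch_comm, ch_comm x]

@[simp] theorem ch_zero (k : Fin d → ZMod M) : ch k 0 = 1 := by simp [ch]

@[simp] theorem norm_ch (k x : Fin d → ZMod M) : ‖ch k x‖ = 1 := norm_e _

theorem conj_ch (k x : Fin d → ZMod M) : conj (ch k x) = ch k (-x) := by
  simp only [ch, conj_e, Pi.neg_apply, mul_neg, sum_neg_distrib]

theorem ch_neg (k x : Fin d → ZMod M) : ch (-k) x = ch k (-x) := by
  simp only [ch, Pi.neg_apply, mul_neg, neg_mul]

theorem ch_prod (k x : Fin d → ZMod M) : ch k x = ∏ i, ZMod.stdAddChar (k i * x i) := by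
  rw [ch]
  induction (univ : Finset (Fin d)) using Finset.induction_on with
  | empty => simp
  | insert a s h ih => rw [sum_insert h, prod_insert h, AddChar.map_add_eq_mul, ih]

theorem ch_single (k : Fin d → ZMod M) (i : Fin d) (a : ZMod M) :
    ch k (Pi.single i a) = ZMod.stdAddChar (k i * a) := by
  simp [ch, Pi.single_apply]

theorem ch_nsmul (n : ℕ) (k x : Fin d → ZMod M) : ch (n • k) x = ch k x ^ n := by
  simp only [ch, Pi.smul_apply, smul_mul_assoc, ← smul_sum, AddChar.map_nsmul_eq_pow]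

theorem sum_ch (x : Fin d → ZMod M) : ∑ k, ch k x = if x = 0 then (M : ℂ) ^ d else 0 := by
  simp only [ch_prod]
  rw [← Fintype.piFinset_univ, ← prod_univ_sum (fun _ => univ)
    fun i (a : ZMod M) => ZMod.stdAddChar (a * x i)]
  simp only [AddChar.sum_mulShift _ (ZMod.isPrimitive_stdAddChar M), ZMod.card]
  split_ifs with h
  · simp [h]
  · obtain ⟨i, hi⟩ := Function.ne_iff.1 h
    exact prod_eq_zero (mem_univ i) (by simp [show x i ≠ 0 from hi])

theorem vol_ne (d M : ℕ) [NeZero M] : (M : ℂ) ^ d ≠ 0 := pow_ne_zero _ (by simp [NeZero.ne M])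

theorem vol_pos (d M : ℕ) [NeZero M] : 0 < (M : ℝ) ^ d := pow_pos (by simp [NeZero.pos M]) _

/-- Fourier transform -/
noncomputable def ft (u : (Fin d → ZMod M) → ℂ) (k : Fin d → ZMod M) : ℂ := ∑ x, u x * ch k (-x)

/-- inverse Fourier transform -/
noncomputable def ift (F : (Fin d → ZMod M) → ℂ) (x : Fin d → ZMod M) : ℂ :=
  (∑ k, F k * ch k x) / (M : ℂ) ^ d

theorem ift_ft (u : (Fin d → ZMod M) → ℂ) (x : Fin d → ZMod M) : ift (ft u) x = u x := by
  simp only [ift, ft, sum_mul, mul_assoc, ← ch_add]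
  rw [sum_comm, div_eq_iff (vol_ne d M)]
  simp [← mul_sum, sum_ch, neg_add_eq_zero]

theorem ft_ift (F : (Fin d → ZMod M) → ℂ) (k : Fin d → ZMod M) : ft (ift F) k = F k := by
  simp only [ift, ft, div_mul_eq_mul_div, ← sum_div, sum_mul, mul_assoc, ← ch_neg, ← ch_add']
  rw [sum_comm, div_eq_iff (vol_ne d M)]
  simp [← mul_sum, ch_comm (_ + _), sum_ch, add_neg_eq_zero]

theorem conv_ift (F u : (Fin d → ZMod M) → ℂ) (x : Fin d → ZMod M) :
    ∑ y, ift F (x - y) * u y = ift (fun k => F k * ft u k) x := by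
  simp only [ift, ft, div_mul_eq_mul_div, ← sum_div, sum_mul, mul_sum, sub_eq_add_neg, ch_add]
  rw [sum_comm]
  congr 1
  exact sum_congr rfl fun k _ => sum_congr rfl fun y _ => by ring

theorem pars (F u : (Fin d → ZMod M) → ℂ) :
    ∑ x, ift F x * conj (u x) = (∑ k, F k * conj (ft u k)) / (M : ℂ) ^ d := by
  simp only [ift, ft, div_mul_eq_mul_div, ← sum_div, sum_mul, mul_sum, map_sum, map_mul, conj_ch,
    neg_neg]
  rw [sum_comm]
  congr 1
  exact sum_congr rfl fun k _ => sum_congr rfl fun y _ => by ring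

theorem pars_sq (F : (Fin d → ZMod M) → ℂ) :
    ∑ x, ‖ift F x‖ ^ 2 = (∑ k, ‖F k‖ ^ 2) / (M : ℝ) ^ d := by
  have := pars F (ift F)
  simp only [ft_ift, mul_conj'] at this
  exact_mod_cast this

theorem pars_ft (u : (Fin d → ZMod M) → ℂ) :
    ∑ x, ‖u x‖ ^ 2 = (∑ k, ‖ft u k‖ ^ 2) / (M : ℝ) ^ d := by
  simpa only [ift_ft] using pars_sq (ft u)

theorem ift_mul (F G : (Fin d → ZMod M) → ℂ) (x : Fin d → ZMod M) :
    ift F x * ift G x = ift (fun k => (∑ q, F q * G (k - q)) / (M : ℂ) ^ d) x := by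
  simp only [ift, div_mul_eq_mul_div, ← sum_div, mul_div_assoc', sum_mul_sum]
  simp only [sum_mul]
  congr 2
  refine (sum_congr rfl fun q _ => ?_).trans sum_comm
  rw [← Equiv.sum_comp (Equiv.subRight q)]
  refine sum_congr rfl fun k _ => ?_
  have : ch k x = ch q x * ch (k - q) x := by rw [← ch_add', add_sub_cancel]
  rw [this, Equiv.subRight_apply]
  ring

theorem conj_ift (F : (Fin d → ZMod M) → ℂ) (x : Fin d → ZMod M) :
    conj (ift F x) = ift (fun k => conj (F (-k))) x := by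
  simp only [ift, map_div₀, map_sum, map_mul, conj_ch, map_pow, conj_natCast]
  rw [← Equiv.sum_comp (Equiv.neg _)]
  simp only [Equiv.neg_apply, ch_neg, neg_neg]

theorem ift_neg (F : (Fin d → ZMod M) → ℂ) (x : Fin d → ZMod M) :
    ift F (-x) = ift (fun k => F (-k)) x := by
  simp only [ift]
  rw [← Equiv.sum_comp (Equiv.neg _)]
  simp only [Equiv.neg_apply, ch_neg, neg_neg]

theorem ft_shift (u : (Fin d → ZMod M) → ℂ) (h k : Fin d → ZMod M) :
    ft (fun x => u (x + h) - u x) k = (ch k h - 1) * ft u k := by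
  simp only [ft, sub_mul, sum_sub_distrib, one_mul, mul_sum]
  congr 1
  rw [← Equiv.sum_comp (Equiv.subRight h)]
  refine sum_congr rfl fun x _ => ?_
  rw [Equiv.subRight_apply, sub_add_cancel, neg_sub, sub_eq_add_neg, ch_add]
  ring

theorem shift_sq (u : (Fin d → ZMod M) → ℂ) (h : Fin d → ZMod M) :
    ∑ x, ‖u (x + h) - u x‖ ^ 2 = (∑ k, ‖ch k h - 1‖ ^ 2 * ‖ft u k‖ ^ 2) / (M : ℝ) ^ d := by
  simp only [pars_ft fun x => u (x + h) - u x, ft_shift, norm_mul, mul_pow]

theorem ift_shift (F : (Fin d → ZMod M) → ℂ) (h x : Fin d → ZMod M) :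
    ift (fun k => F (k - h) - F k) x = (ch h x - 1) * ift F x := by
  simp only [ift, sub_mul, sum_sub_distrib, one_mul, mul_div_assoc', mul_sum, sub_div]
  congr 2
  rw [← Equiv.sum_comp (Equiv.addRight h)]
  refine sum_congr rfl fun k _ => ?_
  rw [Equiv.coe_addRight, add_sub_cancel_right, ch_add']
  ring

/-- the symbol of the Laplacian -/
noncomputable def eps (q : Fin d → ZMod M) : ℝ := ∑ i, (2 - 2 * (ZMod.stdAddChar (q i)).re)

theorem eps_neg (q : Fin d → ZMod M) : eps (-q) = eps q := by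
  simp only [eps, Pi.neg_apply, ← conj_e, conj_re]

theorem eps_mem (q : Fin d → ZMod M) : eps q ∈ Set.Icc (0 : ℝ) (4 * d) := by
  have h : ∀ i, |(ZMod.stdAddChar (q i)).re| ≤ 1 := fun i => (abs_re_le_norm _).trans (norm_e _).le
  refine ⟨sum_nonneg fun i _ => by linarith [(abs_le.1 (h i)).2], ?_⟩
  refine (sum_le_card_nsmul _ _ 4 fun i _ => by linarith [(abs_le.1 (h i)).1]).trans ?_
  simp [mul_comm]

theorem Lap_mv (u : (Fin d → ZMod M) → ℂ) (a : Fin d → ZMod M) : ∑ b, (Lap d M a b : ℂ) * u b =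
    ∑ i, (2 * u a - u (a + Pi.single i 1) - u (a - Pi.single i 1)) := by
  simp only [Lap, ofReal_sum, sum_mul, ofReal_sub, apply_ite ofReal, sub_mul, ite_mul]
  rw [sum_comm]
  simp [sum_sub_distrib]

theorem Lap_ift (F : (Fin d → ZMod M) → ℂ) (a y : Fin d → ZMod M) :
    ∑ b, (Lap d M a b : ℂ) * ift F (b - y) = ift (fun k => eps k * F k) (a - y) := by
  rw [Lap_mv fun b => ift F (b - y)]
  simp only [ift, mul_div_assoc', ← sub_div, ← sum_div, mul_sum, ← sum_sub_distrib, eps, ofReal_sum,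
    sum_mul]
  rw [sum_comm]
  congr 1
  refine sum_congr rfl fun k _ => sum_congr rfl fun i _ => ?_
  rw [add_sub_right_comm, sub_right_comm a, sub_eq_add_neg (a - y), ch_add, ch_add, ← conj_ch,
    ch_single, mul_one]
  push_cast
  rw [re_eq_add_conj]
  ring

theorem Hn_mv {ι : Type} [Fintype ι] [DecidableEq ι] (A : Matrix ι ι ℝ) (lam E : ℝ) (u : ι → ℂ)
    (a : ι) : ∑ b, (Hn A lam E a b : ℂ) * u b = (∑ b, A a b * u b - E * u a) / lam := by
  simp [Hn, div_mul_eq_mul_div, ← sum_div, sub_mul, apply_ite ofReal]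

/-- the Green function of the translation invariant system -/
theorem GG_ift {lam : ℝ} (hl : lam ≠ 0) (E : ℝ) {σ : ℂ} (hσ : σ.im ≠ 0) (x y : Fin d → ZMod M) :
    NW.GG (Hn (Lap d M) lam E) (fun _ => σ) x y =
      ift (fun q => lam * (eps q - (E - lam * σ))⁻¹) (x - y) := by
  have l0 : (lam : ℂ) ≠ 0 := by exact_mod_cast hl
  have n : ∀ q : Fin d → ZMod M, (eps q - (E - lam * σ) : ℂ) ≠ 0 := fun q h => by
    simpa [hl, hσ] using congrArg im h
  rw [NW.GG, Matrix.inv_eq_right_inv (B := Matrix.of fun x y =>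
    ift (fun q => lam * (eps q - (E - lam * σ))⁻¹) (x - y)), Matrix.of_apply]
  ext a b
  have := NW.MM_mv (Hn (Lap d M) lam E) (fun _ => σ)
    (fun x => ift (fun q => lam * (eps q - (E - lam * σ))⁻¹) (x - b)) a
  rw [Hn_mv, Lap_ift] at this
  refine this.trans ?_
  have e := sum_ch (a - b)
  simp only [sub_eq_zero] at e
  rw [Matrix.one_apply, ← div_self (vol_ne d M), ← zero_div ((M : ℂ) ^ d), ← ite_div, ← e]
  simp only [ift, mul_div_assoc', ← sub_div, mul_sum, div_right_comm _ _ (lam : ℂ), ← add_div,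
    ← sum_sub_distrib, sum_div, ← sum_add_distrib]
  refine sum_congr rfl fun q _ => ?_
  have := n q
  field_simp
  ring

end Pool.Agent.P.MP_d0f69c_mp.XS
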