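import Pool.Agent.P.MP_d0f69c_mp.XS.In1
import Pool.Agent.P.MP_d0f69c_mp.XS.In2

/-!
Initial data, part 3: time representation of products of two resolvents.
-/

set_option autoImplicit false

open Complex Finset MeasureTheory
open scoped ComplexConjugate ENNReal

namespace Pool.Agent.P.MP_d0f69c_mp.XS

variable {d M : ℕ} [NeZero M]

/-- the overlap of two energy shells -/
noncomputable def SS (z w : ℂ) (k : Fin d → ZMod M) : ℂ :=
  (∑ q, (eps q - z)⁻¹ * (eps (k - q) - w)⁻¹) / (M : ℂ) ^ d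

/-- the argument of the kernel -/
noncomputable def ww (τ t s : ℝ) (k : ZMod M) : ℂ := 2 * (t + τ * s * ZMod.stdAddChar (-k))

theorem phase (τ t s : ℝ) (z w : ℂ) (k : Fin d → ZMod M) :
    (∑ q, exp (I * (z - eps q) * t) * exp (I * τ * (w - eps (k - q)) * s)) / (M : ℂ) ^ d =
      exp (I * z * t + I * τ * w * s) * exp (I * (-(2 * d * (t + τ * s)) : ℝ)) *
        ∏ j, KK M (ww τ t s (k j)) := by
  simp only [KK, prod_div_distrib, prod_const, card_univ, Fintype.card_fin]
  rw [prod_univ_sum, Fintype.piFinset_univ, mul_div_assoc', mul_sum]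
  congr 1
  refine sum_congr rfl fun q _ => ?_
  rw [← exp_sum, ← exp_add, ← exp_add, ← exp_add]
  congr 1
  have e : ∀ j, (ww τ t s (k j) * ZMod.stdAddChar (q j)).re = 2 * (ZMod.stdAddChar (q j)).re * t +
      τ * (2 * (ZMod.stdAddChar ((k - q) j)).re) * s := fun j => by
    have : ZMod.stdAddChar (-k j) * ZMod.stdAddChar (q j) = conj (ZMod.stdAddChar ((k - q) j)) := by
      rw [conj_e, ← AddChar.map_add_eq_mul, Pi.sub_apply, neg_sub, neg_add_eq_sub]
    rw [ww, mul_assoc, add_mul, mul_assoc, this]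
    simp
    ring
  simp only [e, eps, sum_sub_distrib, ← mul_sum, ← ofReal_sum, sum_add_distrib, ← sum_mul,
    sum_const, card_univ, Fintype.card_fin, nsmul_eq_mul]
  push_cast
  ring

theorem SS_le {τ y : ℝ} {z w : ℂ} (hτ : τ = 1 ∨ τ = -1) (hy : 0 < y) (hz : y ≤ z.im)
    (hw : y ≤ τ * w.im) (hd : 0 < d) (hM : 64 ≤ (y / (4 * d)) ^ 2 * M) (k : Fin d → ZMod M) :
    ‖SS z w k‖ₑ ≤ ∫⁻ t in Set.Ioi (0 : ℝ), ∫⁻ s in Set.Ioi (0 : ℝ), ENNReal.ofReal
      (10 ^ d * (Real.exp (-(y / 2 * (t + s))) * ∏ j, (√(1 + ‖ww τ t s (k j)‖))⁻¹)) := by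
  have d0 : (0 : ℝ) < d := by exact_mod_cast hd
  have r1 : ∀ q : Fin d → ZMod M, (I * (z - eps q)).re < 0 := fun q => by simp; linarith
  have r2 : ∀ q : Fin d → ZMod M, (I * τ * (w - eps q)).re < 0 := fun q => by simp; linarith
  have t1 : ‖(τ : ℂ)‖ = 1 := by rcases hτ with h | h <;> simp [h]
  have e : SS z w k = -τ * ∫ t in Set.Ioi (0 : ℝ), ∫ s in Set.Ioi (0 : ℝ),
      (∑ q, exp (I * (z - eps q) * t) * exp (I * τ * (w - eps (k - q)) * s)) / (M : ℂ) ^ d := by
    have i : ∀ t : ℝ, ∫ s in Set.Ioi (0 : ℝ), (∑ q, exp (I * (z - eps q) * t) *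
        exp (I * τ * (w - eps (k - q)) * s)) / (M : ℂ) ^ d = (∑ q, exp (I * (z - eps q) * t) *
        ∫ s in Set.Ioi (0 : ℝ), exp (I * τ * (w - eps (k - q)) * s)) / (M : ℂ) ^ d := fun t => by
      rw [integral_div, integral_finsetSum _ fun q _ =>
        (integrableOn_exp_mul_complex_Ioi (r2 _) 0).const_mul _]
      simp only [integral_const_mul]
    simp only [i]
    rw [integral_div, integral_finsetSum _ fun q _ =>
      (integrableOn_exp_mul_complex_Ioi (r1 _) 0).mul_const _, SS, mul_div_assoc', mul_sum]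
    congr 1
    refine sum_congr rfl fun q _ => ?_
    rw [integral_mul_const, integral_exp_mul_complex_Ioi (r1 _), integral_exp_mul_complex_Ioi (r2 _)]
    have n1 : (eps q - z : ℂ) ≠ 0 := fun h => by
      have := r1 q
      rw [← neg_sub, h] at this
      simp at this
    have n2 : (eps (k - q) - w : ℂ) ≠ 0 := fun h => by
      have := r2 (k - q)
      rw [← neg_sub, h] at this
      simp at this
    have n3 : (τ : ℂ) ≠ 0 := norm_ne_zero_iff.1 (t1 ▸ one_ne_zero)
    rw [← neg_sub (eps q : ℂ), ← neg_sub (eps (k - q) : ℂ)]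
    simp only [ofReal_zero, mul_zero, exp_zero]
    field_simp
    simp
  rw [e, enorm_mul, enorm_neg, ← ofReal_norm, t1, ENNReal.ofReal_one, one_mul]
  refine (enorm_integral_le_lintegral_enorm _).trans (setLIntegral_mono' measurableSet_Ioi
    fun t ht => (enorm_integral_le_lintegral_enorm _).trans (setLIntegral_mono' measurableSet_Ioi
      fun s hs => ?_))
  have t0 : 0 < t := ht
  have s0 : 0 < s := hs
  rw [phase, ← ofReal_norm, norm_mul, norm_mul, norm_exp_I_mul_ofReal, mul_one, norm_exp,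
    norm_prod]
  refine ENNReal.ofReal_le_ofReal ?_
  have k1 : ∀ j, ‖KK M (ww τ t s (k j))‖ ≤ 10 * Real.exp (y / (2 * d) * (t + s)) *
      (√(1 + ‖ww τ t s (k j)‖))⁻¹ := fun j => by
    rw [← div_eq_mul_inv, le_div_iff₀ (Real.sqrt_pos.2 (by positivity))]
    refine (KK_le (by positivity) hM _).trans ?_
    have : ‖ww τ t s (k j)‖ ≤ 2 * (t + s) := by
      rw [ww, norm_mul, Complex.norm_ofNat]
      gcongr
      refine (norm_add_le _ _).trans (le_of_eq ?_)
      rw [norm_mul, norm_mul, t1, norm_e]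
      simp [abs_of_pos t0, abs_of_pos s0]
    gcongr 10 * Real.exp ?_
    refine (mul_le_mul_of_nonneg_left this (by positivity)).trans (le_of_eq ?_)
    field_simp
    ring
  have k2 := prod_le_prod (s := univ) (fun j _ => norm_nonneg _) fun j _ => k1 j
  rw [prod_mul_distrib, prod_const, card_univ, Fintype.card_fin, mul_pow, ← Real.exp_nat_mul] at k2
  refine (mul_le_mul_of_nonneg_left k2 (Real.exp_nonneg _)).trans ?_
  rw [mul_assoc (10 ^ d : ℝ), mul_left_comm, ← mul_assoc (Real.exp _), ← Real.exp_add]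
  gcongr
  have : d * (y / (2 * d) * (t + s)) = y / 2 * (t + s) := by field_simp
  simp only [this, add_re, mul_re, mul_im, I_re, I_im, ofReal_re, ofReal_im]
  nlinarith [mul_le_mul_of_nonneg_right hz t0.le, mul_le_mul_of_nonneg_right hw s0.le]

/-- half angle sine or cosine -/
noncomputable def al (τ : ℝ) (k : ZMod M) : ℝ := √((1 + τ * (ZMod.stdAddChar k).re) / 2)

theorem al_sq {τ : ℝ} (hτ : τ = 1 ∨ τ = -1) (k : ZMod M) :
    al τ k ^ 2 = (1 + τ * (ZMod.stdAddChar k).re) / 2 ∧ al τ k ≤ 1 := by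
  have h := abs_le.1 ((abs_re_le_norm _).trans (norm_e k).le)
  refine ⟨Real.sq_sqrt ?_, Real.sqrt_le_one.2 ?_⟩ <;> rcases hτ with rfl | rfl <;> linarith [h.1, h.2]

theorem ww_ge {τ t s : ℝ} (hτ : τ = 1 ∨ τ = -1) (ht : 0 < t) (hs : 0 < s) (k : ZMod M) :
    2 * al τ k * (t + s) ≤ ‖ww τ t s k‖ ∧ 2 * |t - s| ≤ ‖ww τ t s k‖ := by
  obtain ⟨a1, a2⟩ := al_sq hτ k
  have a0 : 0 ≤ al τ k := Real.sqrt_nonneg _
  have n := norm_e k
  have e : ‖ww τ t s k‖ ^ 2 = 4 * (t - s) ^ 2 + 16 * t * s * al τ k ^ 2 := by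
    have n2 : normSq (ZMod.stdAddChar k) = 1 := by rw [normSq_eq_norm_sq, n, one_pow]
    rw [a1, ww, ← conj_e, ← normSq_eq_norm_sq]
    rw [normSq_apply] at n2 ⊢
    rcases hτ with rfl | rfl <;> simp <;> linear_combination (4 * s ^ 2) * n2
  have a3 : al τ k ^ 2 ≤ 1 := pow_le_one₀ a0 a2
  have p := mul_pos ht hs
  constructor <;> refine (abs_le_of_sq_le_sq' ?_ (norm_nonneg _)).2 <;> rw [e]
  · nlinarith [mul_le_mul_of_nonneg_left a3 (sq_nonneg (t - s))]
  · rw [mul_pow, sq_abs]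
    nlinarith [mul_nonneg p.le (sq_nonneg (al τ k))]

theorem inv_sqrt_le {X Y : ℝ} (hX : 0 < X) (h : X ≤ Y) (hY : 1 ≤ Y) :
    (√Y)⁻¹ ≤ X ^ (-(9 / 20) : ℝ) := by
  rw [Real.sqrt_eq_rpow, ← Real.rpow_neg (by linarith)]
  exact (Real.rpow_le_rpow_of_exponent_le hY (by norm_num)).trans
    (Real.rpow_le_rpow_of_nonpos hX h (by norm_num))

/-- a numerical constant -/
noncomputable def c9 : ℝ := ∫ t in Set.Ioi (0 : ℝ), (t + 1) ^ (-(9 / 8) : ℝ)

theorem SS_le1 {τ y : ℝ} {z w : ℂ} (hτ : τ = 1 ∨ τ = -1) (hy : 0 < y) (hy1 : y ≤ 1) (hz : y ≤ z.im)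
    (hw : y ≤ τ * w.im) (hd : 5 ≤ d) (hM : 64 ≤ (y / (4 * d)) ^ 2 * M) (k : Fin d → ZMod M) :
    ‖SS z w k‖ ≤ 10 ^ d * c9 ^ 2 * ∏ j, max (al τ (k j)) (y / (2 * d)) ^ (-(9 / 20) : ℝ) := by
  have d0 : (5 : ℝ) ≤ d := by exact_mod_cast hd
  have b0 : 0 < y / (2 * d) := by positivity
  set B := ∏ j, max (al τ (k j)) (y / (2 * d)) ^ (-(9 / 20) : ℝ) with hB
  have B0 : 0 ≤ B := prod_nonneg fun j _ => Real.rpow_nonneg (le_max_of_le_right b0.le) _
  have c : ∫⁻ t in Set.Ioi (0 : ℝ), ENNReal.ofReal ((t + 1) ^ (-(9 / 8) : ℝ)) =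
      ENNReal.ofReal c9 := (ofReal_integral_eq_lintegral_ofReal
    (integrableOn_add_rpow_Ioi_of_lt (by norm_num) (by norm_num))
    ((ae_restrict_iff' measurableSet_Ioi).2 (ae_of_all _ fun t ht =>
      Real.rpow_nonneg (by linarith [ht.out]) _))).symm
  have c0 : 0 ≤ c9 := setIntegral_nonneg measurableSet_Ioi fun t ht =>
    Real.rpow_nonneg (by linarith [ht.out]) _
  rw [← ENNReal.ofReal_le_ofReal_iff (by positivity), ofReal_norm]
  refine (SS_le hτ hy hz hw (by omega) hM k).trans (le_trans (setLIntegral_mono' measurableSet_Ioi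
    (g := fun t => ENNReal.ofReal (10 ^ d * B) * ENNReal.ofReal c9 *
      ENNReal.ofReal ((t + 1) ^ (-(9 / 8) : ℝ))) fun t ht => ?_) (le_of_eq ?_))
  · have t0 : 0 < t := ht
    rw [mul_right_comm, ← c, ← lintegral_const_mul' _ _
      (ENNReal.mul_ne_top ENNReal.ofReal_ne_top ENNReal.ofReal_ne_top)]
    refine setLIntegral_mono' measurableSet_Ioi fun s hs => ?_
    have s0 : 0 < s := hs
    rw [← ENNReal.ofReal_mul (by positivity), ← ENNReal.ofReal_mul (by positivity), mul_assoc,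
      mul_assoc]
    refine ENNReal.ofReal_le_ofReal (mul_le_mul_of_nonneg_left ?_ (by positivity))
    have k1 : ∀ j, Real.exp (-(y / (2 * d) * (t + s))) * (√(1 + ‖ww τ t s (k j)‖))⁻¹ ≤
        max (al τ (k j)) (y / (2 * d)) ^ (-(9 / 20) : ℝ) * (1 + (t + s)) ^ (-(9 / 20) : ℝ) := by
      intro j
      have b1 : 0 < max (al τ (k j)) (y / (2 * d)) := lt_max_of_lt_right b0
      have p : 0 ≤ y / (2 * d) * (t + s) := by positivity
      rw [← Real.mul_rpow b1.le (by positivity)]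
      rcases le_total (al τ (k j)) (y / (2 * d)) with h | h
      · rw [max_eq_right h]
        refine (mul_le_of_le_one_right (Real.exp_nonneg _) (inv_le_one_of_one_le₀
          (Real.one_le_sqrt.2 (by simp)))).trans (le_trans ?_ (inv_sqrt_le
            (Y := Real.exp (y / (2 * d) * (t + s))) (by positivity) ?_ (Real.one_le_exp p)))
        · rw [← Real.exp_half, ← Real.exp_neg]
          exact Real.exp_le_exp.2 (by linarith)
        · have : y / (2 * d) ≤ 1 := by
            rw [div_le_one (by positivity)]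
            linarith
          linarith [Real.add_one_le_exp (y / (2 * d) * (t + s))]
      · rw [max_eq_left h] at b1 ⊢
        refine (mul_le_of_le_one_left (by positivity) (Real.exp_le_one_iff.2 (by linarith))).trans
          (inv_sqrt_le (by positivity) ?_ (by simp))
        nlinarith [(ww_ge hτ t0 s0 (k j)).1, (al_sq hτ (k j)).2, mul_pos b1 (add_pos t0 s0)]
    have k2 := prod_le_prod (s := univ) (fun j _ => by positivity) fun j _ => k1 j
    rw [prod_mul_distrib, prod_mul_distrib, prod_const, prod_const, card_univ, Fintype.card_fin,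
      ← Real.exp_nat_mul, show d * -(y / (2 * d) * (t + s)) = -(y / 2 * (t + s)) by field_simp,
      ← hB] at k2
    refine k2.trans (mul_le_mul_of_nonneg_left ?_ B0)
    rw [← Real.mul_rpow (by positivity) (by positivity), ← Real.rpow_mul_natCast (by positivity)]
    refine (Real.rpow_le_rpow_of_exponent_le (z := 2 * -(9 / 8)) (by linarith) (by linarith)).trans ?_
    rw [Real.rpow_mul (by positivity), Real.rpow_two]
    exact Real.rpow_le_rpow_of_nonpos (by positivity) (by nlinarith) (by norm_num)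
  · rw [lintegral_const_mul' _ _ (ENNReal.mul_ne_top ENNReal.ofReal_ne_top ENNReal.ofReal_ne_top),
      c, ← ENNReal.ofReal_mul (by positivity), ← ENNReal.ofReal_mul (by positivity)]
    congr 1
    ring

theorem SS_le2 {τ y : ℝ} {z w : ℂ} (hτ : τ = 1 ∨ τ = -1) (hy : 0 < y) (hz : y ≤ z.im)
    (hw : y ≤ τ * w.im) (hd : 5 ≤ d) (hM : 64 ≤ (y / (4 * d)) ^ 2 * M) (k : Fin d → ZMod M)
    (i : Fin d) : ‖SS z w k‖ * √(al τ (k i) * y) ≤ 8 * 10 ^ d := by
  set a := al τ (k i) with ha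
  rcases (show 0 ≤ a from Real.sqrt_nonneg _).eq_or_lt with a0 | a0
  · rw [← a0]
    simp
  have p0 := Real.pi_pos
  have g := Real.integral_rpow_mul_exp_neg_mul_Ioi (a := 1 / 2) (r := y / 2) (by norm_num)
    (by positivity)
  rw [Real.Gamma_one_half_eq, ← Real.sqrt_eq_rpow] at g
  have c := ofReal_integral_eq_lintegral_ofReal (Integrable.of_integral_ne_zero
    (g.trans_ne (by positivity)))
    ((ae_restrict_iff' measurableSet_Ioi).2 (ae_of_all _ fun t ht =>
      mul_nonneg (Real.rpow_nonneg ht.out.le _) (Real.exp_nonneg _)))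
  rw [g] at c
  rw [← le_div_iff₀ (by positivity), ← ENNReal.ofReal_le_ofReal_iff (by positivity),
    ofReal_norm]
  refine (SS_le hτ hy hz hw (by omega) hM k).trans (le_trans (setLIntegral_mono' measurableSet_Ioi
    (g := fun t => ENNReal.ofReal (10 ^ d * (√(2 * a))⁻¹) * ENNReal.ofReal Real.pi *
      ENNReal.ofReal (t ^ ((1 : ℝ) / 2 - 1) * Real.exp (-(y / 2 * t)))) fun t ht => ?_) ?_)
  · have t0 : 0 < t := ht
    rw [mul_right_comm, ← pk_int one_pos t, ← lintegral_const_mul' _ _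
      (ENNReal.mul_ne_top ENNReal.ofReal_ne_top ENNReal.ofReal_ne_top)]
    refine le_trans (setLIntegral_mono' measurableSet_Ioi fun s hs => ?_)
      (setLIntegral_le_lintegral _ _)
    have s0 : 0 < s := hs
    rw [pk, ← ENNReal.ofReal_mul (by positivity), ← ENNReal.ofReal_mul (by positivity), mul_assoc,
      mul_assoc]
    refine ENNReal.ofReal_le_ofReal (mul_le_mul_of_nonneg_left ?_ (by positivity))
    have k1 : (√(1 + ‖ww τ t s (k i)‖))⁻¹ ≤ (√(2 * a))⁻¹ * t ^ ((1 : ℝ) / 2 - 1) := by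
      rw [show (1 : ℝ) / 2 - 1 = -(1 / 2) by norm_num, Real.rpow_neg t0.le, ← Real.sqrt_eq_rpow,
        ← mul_inv, ← Real.sqrt_mul (by positivity)]
      gcongr
      nlinarith [(ww_ge hτ t0 s0 (k i)).1, mul_pos a0 s0]
    have k2 : ∏ j ∈ univ.erase i, (√(1 + ‖ww τ t s (k j)‖))⁻¹ ≤ 1 / ((t - s) ^ 2 + 1 ^ 2) := by
      have u := abs_nonneg (t - s)
      refine (prod_le_prod (g := fun _ => (√(1 + 2 * |t - s|))⁻¹) (fun j _ => by positivity)
        fun j _ => ?_).trans ?_
      · gcongr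
        exact (ww_ge hτ t0 s0 (k j)).2
      · rw [prod_const]
        refine (pow_le_pow_of_le_one (m := 2 * 2) (by positivity) (inv_le_one_of_one_le₀
          (Real.one_le_sqrt.2 (by linarith))) (by simp; omega)).trans ?_
        rw [pow_mul, inv_pow, Real.sq_sqrt (by positivity), inv_pow, one_div, ← sq_abs (t - s)]
        gcongr
        nlinarith
    rw [← mul_prod_erase _ _ (mem_univ i)]
    calc _ ≤ Real.exp (-(y / 2 * t)) * ((√(2 * a))⁻¹ * t ^ ((1 : ℝ) / 2 - 1) *
          (1 / ((t - s) ^ 2 + 1 ^ 2))) := by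
          gcongr
          linarith
      _ = _ := by ring
  · rw [lintegral_const_mul' _ _ (ENNReal.mul_ne_top ENNReal.ofReal_ne_top ENNReal.ofReal_ne_top),
      ← c, ← ENNReal.ofReal_mul (by positivity), ← ENNReal.ofReal_mul (by positivity)]
    refine ENNReal.ofReal_le_ofReal ?_
    have e : (√(2 * a))⁻¹ * √(1 / (y / 2)) = (√(a * y))⁻¹ := by
      rw [← Real.sqrt_inv, ← Real.sqrt_inv, ← Real.sqrt_mul (by positivity)]
      congr 1
      field_simp
    have q : √Real.pi ≤ 2 := Real.sqrt_le_iff.2 ⟨by norm_num, by linarith [Real.pi_le_four]⟩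
    calc _ = 10 ^ d * ((√(2 * a))⁻¹ * √(1 / (y / 2))) * (Real.pi * √Real.pi) := by ring
      _ ≤ 10 ^ d * (√(a * y))⁻¹ * (4 * 2) := by
        rw [e]
        gcongr
        exact Real.pi_le_four
      _ = _ := by ring

end Pool.Agent.P.MP_d0f69c_mp.XS
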