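import Pool.Agent.P.MP_d0f69c_mp.XS.In3

/-!
Initial data, part 4: geometry of the discrete circle and lattice sums.
-/

set_option autoImplicit false

open Complex Finset
open scoped ComplexConjugate

namespace Pool.Agent.P.MP_d0f69c_mp.XS

variable {d M : ℕ} [NeZero M]

/-- distance to zero on the circle of length one -/
noncomputable def rh (k : ZMod M) : ℝ := |(k.valMinAbs : ℝ)| / M

theorem M_pos (M : ℕ) [NeZero M] : (0 : ℝ) < M := by exact_mod_cast NeZero.pos M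

theorem rh_nonneg (k : ZMod M) : 0 ≤ rh k := div_nonneg (abs_nonneg _) (M_pos M).le

theorem rh_le (k : ZMod M) : rh k ≤ 1 / 2 := by
  have h := ZMod.valMinAbs_mem_Ioc k
  have h1 : (-M : ℝ) < k.valMinAbs * 2 := by exact_mod_cast h.1
  have h2 : (k.valMinAbs * 2 : ℝ) ≤ M := by exact_mod_cast h.2
  rw [rh, div_le_iff₀ (M_pos M), abs_le]
  constructor <;> linarith

theorem rh_ge {k : ZMod M} (hk : k ≠ 0) : 1 / M ≤ rh k := by
  refine div_le_div_of_nonneg_right ?_ (M_pos M).le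
  exact_mod_cast Int.one_le_abs (mt (ZMod.valMinAbs_eq_zero k).1 hk)

theorem e_int (v : ℤ) : ZMod.stdAddChar (v : ZMod M) = exp (I * (2 * Real.pi * (v / M) : ℝ)) := by
  rw [ZMod.stdAddChar_coe]
  congr 1
  push_cast
  ring

theorem al_ge (n : ℕ) (k : ZMod M) (h : n * rh k ≤ 1 / 2) : 2 * (n * rh k) ≤ al (-1) (n • k) := by
  have p0 := Real.pi_pos
  have e : n • k = ((n * k.valMinAbs : ℤ) : ZMod M) := by simp
  have e2 : n * rh k = |((n * k.valMinAbs : ℤ) : ℝ) / M| := by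
    rw [rh, abs_div, abs_of_pos (M_pos M)]
    push_cast
    rw [abs_mul, Nat.abs_cast, mul_div_assoc]
  rw [e2] at h ⊢
  rw [e]
  generalize (n * k.valMinAbs : ℤ) = v at h ⊢
  refine Real.le_sqrt_of_sq_le ?_
  have := Real.cos_le_one_sub_mul_cos_sq (x := 2 * Real.pi * (v / M)) (by
    rw [abs_mul, abs_of_pos (by positivity)]
    nlinarith)
  rw [e_int, mul_comm I, exp_ofReal_mul_I_re, mul_pow, sq_abs]
  rw [show 2 / Real.pi ^ 2 * (2 * Real.pi * (v / M)) ^ 2 = 8 * (v / M) ^ 2 by field_simp; ring]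
    at this
  linarith

theorem al_ge1 (k : ZMod M) : 2 * rh k ≤ al (-1) k := by
  simpa using al_ge 1 k (by simpa using rh_le k)

theorem norm_e_add {τ : ℝ} (hτ : τ = 1 ∨ τ = -1) (k : ZMod M) :
    ‖ZMod.stdAddChar k + τ‖ = 2 * al τ k := by
  refine (pow_left_inj₀ (norm_nonneg _) (mul_nonneg zero_le_two (Real.sqrt_nonneg _))
    two_ne_zero).1 ?_
  have n2 : normSq (ZMod.stdAddChar k) = 1 := by rw [normSq_eq_norm_sq, norm_e, one_pow]
  rw [mul_pow, ← al, (al_sq hτ k).1, ← normSq_eq_norm_sq]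
  rw [normSq_apply] at n2 ⊢
  rcases hτ with rfl | rfl <;> simp <;> linear_combination n2

theorem norm_e_mul (k : ZMod M) (v : ℤ) :
    ‖ZMod.stdAddChar (k * (v : ZMod M)) - 1‖ ≤ 2 * Real.pi * rh k * |(v : ℝ)| := by
  have e : k * (v : ZMod M) = ((k.valMinAbs * v : ℤ) : ZMod M) := by simp
  rw [e, e_int]
  refine Real.norm_exp_I_mul_ofReal_sub_one_le.trans (le_of_eq ?_)
  rw [Real.norm_eq_abs, abs_mul, abs_div, abs_of_pos (M_pos M), abs_of_pos Real.two_pi_pos, rh]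
  push_cast
  rw [abs_mul]
  ring

theorem norm_prod_sub {ι : Type} (s : Finset ι) (f : ι → ℂ) (h : ∀ i, ‖f i‖ = 1) :
    ‖∏ i ∈ s, f i - 1‖ ≤ ∑ i ∈ s, ‖f i - 1‖ := by
  classical
  induction s using Finset.induction_on with
  | empty => simp
  | insert a s ha ih =>
    rw [prod_insert ha, sum_insert ha,
      show f a * ∏ i ∈ s, f i - 1 = (f a - 1) + f a * (∏ i ∈ s, f i - 1) by ring]
    refine (norm_add_le _ _).trans ?_
    rwa [norm_mul, h, one_mul, add_le_add_iff_left]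

theorem norm_ch_sub (k h : Fin d → ZMod M) {a b : ℝ} (ha : ∀ i, rh (k i) ≤ a)
    (hb : ∀ i, |((h i).valMinAbs : ℝ)| ≤ b) : ‖ch k h - 1‖ ≤ d * (2 * Real.pi * a * b) := by
  rw [ch_prod]
  refine (norm_prod_sub _ _ fun i => norm_e _).trans
    ((sum_le_card_nsmul _ _ _ fun i _ => ?_).trans (by simp; rfl))
  have := norm_e_mul (k i) (h i).valMinAbs
  rw [ZMod.coe_valMinAbs] at this
  refine this.trans ?_
  have := (rh_nonneg _).trans (ha i)
  gcongr
  exacts [ha i, hb i]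

theorem norm_pow_sub (n : ℕ) {ζ : ℂ} (h : ‖ζ‖ = 1) : ‖ζ ^ n - 1‖ ≤ n * ‖ζ - 1‖ := by
  simpa using norm_prod_sub (range n) (fun _ => ζ) fun _ => h

theorem dirichlet (a : ZMod M) {n : ℕ} (h : 1 ≤ rh a * n) :
    (n : ℝ) ≤ ∑ j ∈ range n, ‖ZMod.stdAddChar a ^ j - 1‖ ^ 2 := by
  set ζ := ZMod.stdAddChar a with hζ
  have n1 : ‖ζ‖ = 1 := norm_e a
  have h1 : 4 * rh a ≤ ‖ζ - 1‖ := by
    have := norm_e_add (Or.inr rfl) a
    rw [ofReal_neg, ofReal_one, ← sub_eq_add_neg] at this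
    linarith [al_ge1 a]
  have h2 : ‖ζ - 1‖ * ‖∑ j ∈ range n, ζ ^ j‖ ≤ 2 := by
    rw [← norm_mul, mul_geom_sum]
    refine (norm_sub_le _ _).trans ?_
    rw [norm_pow, n1]
    norm_num
  have h3 : ∀ j, ‖ζ ^ j - 1‖ ^ 2 = 2 - 2 * (ζ ^ j).re := fun j => by
    have n2 : normSq (ζ ^ j) = 1 := by rw [normSq_eq_norm_sq, norm_pow, n1]; simp
    rw [← normSq_eq_norm_sq, normSq_sub, n2]
    simp
    ring
  simp only [h3, sum_sub_distrib, ← mul_sum, ← re_sum, sum_const, card_range, nsmul_eq_mul]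
  have h4 := re_le_norm (∑ j ∈ range n, ζ ^ j)
  have h5 := norm_nonneg (∑ j ∈ range n, ζ ^ j)
  nlinarith [mul_le_mul_of_nonneg_right h1 h5, mul_le_mul_of_nonneg_right h h5,
    Nat.cast_nonneg (α := ℝ) n, rh_nonneg a]

theorem sum_Icc_rpow (n : ℕ) : ∑ v ∈ Icc (-n : ℤ) n, max |(v : ℝ)| 1 ^ (-(9 / 10) : ℝ) ≤
    1 + 20 * (n : ℝ) ^ (1 / 10 : ℝ) := by
  induction n with
  | zero => simp
  | succ n ih =>
    have n0 : (0 : ℝ) < n + 1 := by positivity
    have h1 := rpow_one_add_le_one_add_mul_self (s := -(1 / (n + 1)))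
      (by simpa using inv_le_one_of_one_le₀ (by linarith)) (p := 1 / 10) (by norm_num) (by norm_num)
    have h2 : (n : ℝ) ^ (1 / 10 : ℝ) = (n + 1) ^ (1 / 10 : ℝ) * (1 + -(1 / (n + 1))) ^ (1 / 10 : ℝ) := by
      rw [← Real.mul_rpow n0.le (by simpa using inv_le_one_of_one_le₀ (by linarith))]
      congr 1
      field_simp
      ring
    have h3 : (n + 1 : ℝ) ^ (-(9 / 10) : ℝ) = (n + 1) ^ (1 / 10 : ℝ) * (1 / (n + 1)) := by
      rw [show (-(9 / 10) : ℝ) = 1 / 10 - 1 by norm_num, Real.rpow_sub_one n0.ne']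
      ring
    push_cast
    rw [sum_Icc_succ_eq_add_endpoints]
    push_cast
    rw [abs_neg, abs_of_pos n0, max_eq_left (by linarith), h3]
    nlinarith [mul_le_mul_of_nonneg_left h1 (Real.rpow_nonneg n0.le (1 / 10))]

/-- the weight used in all lattice sums -/
noncomputable def wt (L : ℝ) (k : ZMod M) : ℝ :=
  if rh k ≤ L then max (rh k) (1 / M) ^ (-(9 / 10) : ℝ) else 0

theorem wt_nonneg (L : ℝ) (k : ZMod M) : 0 ≤ wt L k := by
  unfold wt
  split_ifs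
  · exact Real.rpow_nonneg (le_max_of_le_left (rh_nonneg k)) _
  · rfl

theorem sum_wt {L : ℝ} (hL : 1 ≤ L * M) : ∑ k : ZMod M, wt L k ≤ 21 * L ^ (1 / 10 : ℝ) * M := by
  have M0 := M_pos M
  have L0 : 0 < L := by
    by_contra h
    nlinarith
  have e : ∀ k : ZMod M, max (rh k) (1 / M) ^ (-(9 / 10) : ℝ) =
      (M : ℝ) ^ (9 / 10 : ℝ) * max |(k.valMinAbs : ℝ)| 1 ^ (-(9 / 10) : ℝ) := fun k => by
    rw [rh, max_div_div_right M0.le, Real.div_rpow (by positivity) M0.le, Real.rpow_neg M0.le,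
      div_inv_eq_mul, mul_comm]
  simp only [wt, e]
  rw [← sum_filter, ← mul_sum, ← sum_image (f := fun v : ℤ => max |(v : ℝ)| 1 ^ (-(9 / 10) : ℝ))
    ZMod.injective_valMinAbs.injOn]
  refine (mul_le_mul_of_nonneg_left ((sum_le_sum_of_subset_of_nonneg (fun v hv => ?_)
    fun _ _ _ => by positivity).trans (sum_Icc_rpow ⌊L * M⌋₊)) (by positivity)).trans ?_
  · obtain ⟨k, hk, rfl⟩ := mem_image.1 hv
    have h1 := (mem_filter.1 hk).2
    rw [rh, div_le_iff₀ M0] at h1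
    have h2 : k.valMinAbs.natAbs ≤ ⌊L * M⌋₊ := Nat.le_floor (by simpa using h1)
    rw [mem_Icc]
    omega
  · have h1 : (⌊L * M⌋₊ : ℝ) ^ (1 / 10 : ℝ) ≤ (L * M) ^ (1 / 10 : ℝ) :=
      Real.rpow_le_rpow (by positivity) (Nat.floor_le (by positivity)) (by norm_num)
    have h2 := Real.one_le_rpow hL (z := 1 / 10) (by norm_num)
    have h3 : (M : ℝ) ^ (9 / 10 : ℝ) * (L * M) ^ (1 / 10 : ℝ) = L ^ (1 / 10 : ℝ) * M := by
      rw [Real.mul_rpow L0.le M0.le, mul_left_comm, ← Real.rpow_add M0]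
      norm_num
    calc _ ≤ (M : ℝ) ^ (9 / 10 : ℝ) * (21 * (L * M) ^ (1 / 10 : ℝ)) := by gcongr; linarith
      _ = _ := by rw [mul_left_comm, h3, mul_assoc]

theorem sum_prod_wt {L : ℝ} (hL : 1 ≤ L * M) :
    (∑ k : Fin d → ZMod M, ∏ j, wt L (k j)) / (M : ℝ) ^ d ≤ (21 * L ^ (1 / 10 : ℝ)) ^ d := by
  rw [← Fintype.sum_pow, ← div_pow]
  exact pow_le_pow_left₀ (div_nonneg (sum_nonneg fun k _ => wt_nonneg L k) (M_pos M).le)
    ((div_le_iff₀ (M_pos M)).2 (sum_wt hL)) d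

end Pool.Agent.P.MP_d0f69c_mp.XS
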