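import Pool.Agent.P.MP_d0f69c_mp.XS.In4

/-!
Initial data, part 5: bounds for the free resolvent on the torus.
-/

set_option autoImplicit false

open Complex Finset MeasureTheory
open scoped ComplexConjugate ENNReal

namespace Pool.Agent.P.MP_d0f69c_mp.XS

variable {d M : ℕ} [NeZero M] {y : ℝ} {z : ℂ}

/-- the torus is large compared with the damping `y` -/
structure Reg (d M : ℕ) (y : ℝ) : Prop where
  hd : 5 ≤ d
  pos : 0 < y
  le : y ≤ 1
  big : 64 ≤ (y / (4 * d)) ^ 2 * M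

omit [NeZero M] in
theorem Reg.big' (h : Reg d M y) : 64 ≤ y / (4 * d) * M := by
  have d0 : (5 : ℝ) ≤ d := by exact_mod_cast h.hd
  have := h.pos
  refine h.big.trans (mul_le_mul_of_nonneg_right ?_ (Nat.cast_nonneg _))
  rw [sq]
  refine mul_le_of_le_one_left (by positivity) ?_
  rw [div_le_one (by positivity)]
  linarith [h.le]

/-- the free resolvent -/
noncomputable def gf (z : ℂ) : (Fin d → ZMod M) → ℂ := ift fun q => (eps q - z)⁻¹

theorem gf_sq (z : ℂ) (x : Fin d → ZMod M) : gf z x ^ 2 = ift (SS z z) x := by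
  rw [sq, gf, ift_mul]
  rfl

theorem gf_normsq (z : ℂ) (x : Fin d → ZMod M) :
    ((‖gf z x‖ ^ 2 : ℝ) : ℂ) = ift (SS z (conj z)) x := by
  rw [ofReal_pow, ← mul_conj', gf, conj_ift, ift_mul]
  simp only [eps_neg, map_inv₀, map_sub, conj_ofReal]
  rfl

theorem gf_neg (z : ℂ) (x : Fin d → ZMod M) : gf z (-x) = gf z x := by
  simp only [gf, ift_neg, eps_neg]

/-- a constant -/
noncomputable def A0 (d : ℕ) : ℝ := 10 ^ d * c9 ^ 2

/-- a constant -/
noncomputable def A1 (d : ℕ) : ℝ := 1 + A0 d ^ 2 * 21 ^ d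

theorem A0_nonneg (d : ℕ) : 0 ≤ A0 d := by
  unfold A0
  positivity

theorem A1_ge (d : ℕ) : 1 ≤ A1 d := le_add_of_nonneg_right (by positivity)

theorem Reg.l4 (h : Reg d M y) (hz : y ≤ z.im) :
    ∑ x : Fin d → ZMod M, (‖gf z x‖ ^ 2) ^ 2 ≤ A1 d := by
  have M0 := M_pos M
  have d0 : (5 : ℝ) ≤ d := by exact_mod_cast h.hd
  have e : ∀ x : Fin d → ZMod M, ‖gf z x‖ ^ 2 = ‖ift (SS z (conj z)) x‖ := fun x => by
    rw [← gf_normsq, norm_real, Real.norm_of_nonneg (sq_nonneg _)]
  simp only [e, pars_sq]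
  have s := sum_prod_wt (d := d) (M := M) (L := 1) (by simp [NeZero.one_le])
  rw [Real.one_rpow, mul_one] at s
  refine le_trans ?_ ((mul_le_mul_of_nonneg_left s (sq_nonneg (A0 d))).trans
    (le_add_of_nonneg_left zero_le_one))
  rw [mul_div_assoc', mul_sum]
  gcongr with k
  refine (pow_le_pow_left₀ (norm_nonneg _) (SS_le1 (τ := -1) (Or.inr rfl) h.pos h.le hz
    (by simpa using hz) h.hd h.big k) 2).trans ?_
  rw [mul_pow, ← prod_pow]
  refine mul_le_mul_of_nonneg_left (prod_le_prod (fun j _ => sq_nonneg _) fun j _ => ?_)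
    (sq_nonneg _)
  have := h.pos
  rw [wt, if_pos (by linarith [rh_le (k j)]), ← Real.rpow_mul_natCast (by positivity)]
  norm_num
  refine Real.rpow_le_rpow_of_nonpos (by positivity) (max_le_max ?_ ?_) (by norm_num)
  · linarith [al_ge1 (k j), rh_nonneg (k j)]
  · have b := h.big'
    rw [inv_eq_one_div, div_le_iff₀ M0]
    refine (show (1 : ℝ) ≤ y / (4 * d) * M by linarith).trans ?_
    gcongr
    norm_num

theorem Reg.gf_le (h : Reg d M y) (hz : y ≤ z.im) (x : Fin d → ZMod M) : ‖gf z x‖ ≤ A1 d := by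
  have h1 := (single_le_sum (f := fun x : Fin d → ZMod M => (‖gf z x‖ ^ 2) ^ 2)
    (fun _ _ => sq_nonneg _) (mem_univ x)).trans (h.l4 hz)
  have h2 := A1_ge d
  by_contra c
  rw [← pow_mul] at h1
  linarith [le_self_pow₀ (h2.trans (not_le.1 c).le) (n := 2 * 2) (by norm_num)]

theorem eps_ne (hz : z.im ≠ 0) (q : Fin d → ZMod M) : (eps q - z : ℂ) ≠ 0 := fun h =>
  hz (by simpa using congrArg im h)

theorem Reg.lip (h : Reg d M y) (hz : y ≤ z.im) {w : ℂ} (hw : y ≤ w.im) :
    ‖gf z (0 : Fin d → ZMod M) - gf w (0 : Fin d → ZMod M)‖ ≤ A0 d * ‖z - w‖ := by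
  have e : gf z (0 : Fin d → ZMod M) - gf w (0 : Fin d → ZMod M) =
      SS z w (0 : Fin d → ZMod M) * (z - w) := by
    simp only [gf, ift, SS, ch_zero, mul_one, zero_sub, eps_neg, ← sub_div, ← sum_sub_distrib,
      div_mul_eq_mul_div, sum_mul]
    congr 1
    refine sum_congr rfl fun q _ => ?_
    have h1 := eps_ne (by linarith [h.pos] : z.im ≠ 0) q
    have h2 := eps_ne (by linarith [h.pos] : w.im ≠ 0) q
    field_simp
    ring
  rw [e, norm_mul]
  refine mul_le_mul_of_nonneg_right ((SS_le1 (τ := 1) (Or.inl rfl) h.pos h.le hz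
    (by simpa using hw) h.hd h.big 0).trans (mul_le_of_le_one_right (A0_nonneg d)
      (prod_le_one (fun j _ => ?_) fun j _ => ?_))) (norm_nonneg _)
  · exact Real.rpow_nonneg (le_max_of_le_left (Real.sqrt_nonneg _)) _
  · exact Real.rpow_le_one_of_one_le_of_nonpos (le_max_of_le_left (by simp [al])) (by norm_num)

theorem gf_im (z : ℂ) : (gf z (0 : Fin d → ZMod M)).im =
    z.im * ((∑ q : Fin d → ZMod M, ‖(eps q - z)⁻¹‖ ^ 2) / (M : ℝ) ^ d) := by
  rw [gf, ift, ← ofReal_natCast, ← ofReal_pow, div_ofReal_im, im_sum, mul_div_assoc', mul_sum]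
  congr 1
  refine sum_congr rfl fun q _ => ?_
  rw [ch_zero, mul_one, inv_im, norm_inv, inv_pow, normSq_eq_norm_sq]
  simp [div_eq_mul_inv]

theorem gf_ward (z : ℂ) :
    (gf z (0 : Fin d → ZMod M)).im = z.im * ∑ x : Fin d → ZMod M, ‖gf z x‖ ^ 2 := by
  rw [gf_im, gf, pars_sq]

theorem Reg.rr (h : Reg d M y) (hz : y ≤ z.im) {c : ℝ} (hc : 0 < c) (h2 : c ≤ |z.re - 2 * d|)
    (k : Fin d → ZMod M) :
    ‖SS z z k‖ * √y ≤ 8 * 10 ^ d / √(c / (4 * d)) + 2 / c * A1 d := by
  have d0 : (5 : ℝ) ≤ d := by exact_mod_cast h.hd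
  have y0 := h.pos
  have a1 := A1_ge d
  by_cases hk : ∃ i, c / (4 * d) ≤ al 1 (k i)
  · obtain ⟨i, hi⟩ := hk
    refine le_trans ?_ (le_add_of_nonneg_right (by positivity))
    rw [le_div_iff₀ (by positivity), mul_assoc, ← Real.sqrt_mul y0.le, mul_comm y]
    refine le_trans ?_ (SS_le2 (τ := 1) (Or.inl rfl) y0 hz (by simpa using hz) h.hd h.big k i)
    gcongr
  push Not at hk
  refine le_trans ?_ (le_add_of_nonneg_left (by positivity))
  have z0 : z.im ≠ 0 := by linarith
  have k1 : ∀ q, ‖(eps q - z)⁻¹ * (eps (k - q) - z)⁻¹‖ ≤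
      (‖(eps q - z)⁻¹‖ + ‖(eps (k - q) - z)⁻¹‖) / c := fun q => by
    have e1 : |eps q + eps (k - q) - 4 * d| ≤ c := by
      have : eps q + eps (k - q) - 4 * d =
          ∑ j, -2 * (ZMod.stdAddChar (-q j) * (ZMod.stdAddChar (k j) + (1 : ℝ))).re := by
        simp only [eps, mul_add, ← AddChar.map_add_eq_mul, neg_add_eq_sub]
        simp only [ofReal_one, mul_one, add_re, ← conj_e, conj_re, sum_add_distrib, mul_add,
          sum_sub_distrib, ← mul_sum, Pi.sub_apply]
        simp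
        ring
      rw [this]
      refine (abs_sum_le_sum_abs _ _).trans ((sum_le_card_nsmul _ _ (c / d) fun j _ => ?_).trans ?_)
      · have := abs_re_le_norm (ZMod.stdAddChar (-q j) * (ZMod.stdAddChar (k j) + (1 : ℝ)))
        rw [norm_mul, norm_e, one_mul, norm_e_add (Or.inl rfl)] at this
        rw [abs_mul, show c / d = 4 * (c / (4 * d)) by field_simp, abs_neg, abs_two]
        linarith [hk j]
      · simp only [card_univ, Fintype.card_fin, nsmul_eq_mul]
        rw [mul_div_cancel₀ _ (by linarith)]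
    have e2 : c ≤ ‖(eps q - z) + (eps (k - q) - z)‖ := by
      refine le_trans ?_ (abs_re_le_norm _)
      simp only [add_re, sub_re, ofReal_re]
      rw [abs_le] at e1
      rcases le_abs.1 h2 with h3 | h3
      · exact le_abs.2 (Or.inr (by linarith [e1.2]))
      · exact le_abs.2 (Or.inl (by linarith [e1.1]))
    have h1 := eps_ne z0 q
    have h3 := eps_ne z0 (k - q)
    rw [le_div_iff₀ hc]
    refine (mul_le_mul_of_nonneg_left e2 (norm_nonneg _)).trans (le_trans (le_of_eq ?_)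
      (norm_add_le _ _))
    rw [← norm_mul]
    congr 1
    field_simp
    ring
  have V0 := vol_pos d M
  set S := (∑ q : Fin d → ZMod M, ‖(eps q - z)⁻¹‖) / (M : ℝ) ^ d with hS
  have k2 : ‖SS z z k‖ ≤ 2 / c * S := by
    rw [SS, norm_div, norm_pow, Complex.norm_natCast, hS, mul_div_assoc']
    refine div_le_div_of_nonneg_right ((norm_sum_le_of_le _ fun q _ => k1 q).trans
      (le_of_eq ?_)) V0.le
    have := Equiv.sum_comp (Equiv.subLeft k) fun q => ‖((eps q : ℂ) - z)⁻¹‖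
    simp only [Equiv.subLeft_apply] at this
    rw [← sum_div, sum_add_distrib, this]
    ring
  have k3 : S ^ 2 * y ≤ A1 d ^ 2 := by
    have s1 := sq_sum_le_card_mul_sum_sq (s := univ)
      (f := fun q : Fin d → ZMod M => ‖((eps q : ℂ) - z)⁻¹‖)
    have s2 := (im_le_norm _).trans (h.gf_le hz 0)
    rw [gf_im] at s2
    simp only [card_univ, Fintype.card_pi, ZMod.card, prod_const, Fintype.card_fin,
      Nat.cast_pow] at s1
    have s3 : S ^ 2 ≤ (∑ q : Fin d → ZMod M, ‖(eps q - z)⁻¹‖ ^ 2) / (M : ℝ) ^ d := by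
      rw [hS, div_pow, div_le_div_iff₀ (by positivity) V0]
      nlinarith [mul_le_mul_of_nonneg_right s1 V0.le]
    nlinarith [mul_le_mul s3 hz y0.le ((sq_nonneg _).trans s3)]
  rw [← Real.sq_sqrt y0.le, ← mul_pow] at k3
  refine (mul_le_mul_of_nonneg_right k2 (Real.sqrt_nonneg _)).trans ?_
  rw [mul_assoc]
  exact mul_le_mul_of_nonneg_left (abs_le_of_sq_le_sq' k3 (by linarith)).2 (by positivity)

theorem Reg.exists_E0 (h : Reg d M y) : ∃ E : ℝ, |E| ≤ 4 * d + 1 ∧ 1 / (8 * A1 d) ≤ |E - 2 * d| ∧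
    1 / (16 * d + 8) ≤ (gf (E + y * I) (0 : Fin d → ZMod M)).im := by
  by_contra hc
  push Not at hc
  have a1 := A1_ge d
  have y0 := h.pos
  have V0 := vol_pos d M
  have e : ∀ E : ℝ, ∑ q : Fin d → ZMod M, pk y E (eps q) =
      ENNReal.ofReal (M ^ d * (gf (E + y * I) (0 : Fin d → ZMod M)).im) := fun E => by
    rw [gf_im, mul_div_assoc', mul_div_cancel₀ _ V0.ne', mul_sum,
      ENNReal.ofReal_sum_of_nonneg fun q _ => mul_nonneg (by simpa using y0.le) (sq_nonneg _)]
    refine sum_congr rfl fun q _ => ?_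
    rw [pk, norm_inv, inv_pow, ← normSq_eq_norm_sq, normSq_apply]
    simp [div_eq_mul_inv, sq]
  have lo : ENNReal.ofReal (M ^ d) ≤ ∫⁻ E in Set.Icc (0 - 1 : ℝ) (4 * d + 1),
      ∑ q : Fin d → ZMod M, pk y E (eps q) := by
    rw [lintegral_finsetSum _ fun q _ => by unfold pk; fun_prop]
    refine le_trans (le_of_eq ?_) (sum_le_sum fun q _ => pk_low y0 h.le (eps_mem q))
    simp [ENNReal.ofReal_pow]
  set J := Set.Icc (2 * d - 1 / (8 * A1 d)) (2 * d + 1 / (8 * A1 d)) with hJ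
  have up := setLIntegral_mono' (μ := volume) (s := Set.Icc (0 - 1 : ℝ) (4 * d + 1))
    (f := fun E => ∑ q : Fin d → ZMod M, pk y E (eps q))
    (g := fun E => ENNReal.ofReal (M ^ d * (1 / (16 * d + 8))) +
      J.indicator (fun _ => ENNReal.ofReal (M ^ d * A1 d)) E) measurableSet_Icc fun E hE => by
      rw [e]
      by_cases hj : E ∈ J
      · rw [Set.indicator_of_mem hj]
        exact le_add_left (ENNReal.ofReal_le_ofReal (mul_le_mul_of_nonneg_left
          ((im_le_norm _).trans (h.gf_le (by simp) 0)) V0.le))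
      · refine le_add_right (ENNReal.ofReal_le_ofReal (mul_le_mul_of_nonneg_left
          (hc E (abs_le.2 ⟨by linarith [hE.1, Nat.cast_nonneg (α := ℝ) d], hE.2⟩) ?_).le V0.le))
        by_contra c
        have := abs_lt.1 (not_le.1 c)
        exact hj ⟨by linarith [this.1], by linarith [this.2]⟩
  rw [lintegral_add_left measurable_const, setLIntegral_const] at up
  have u2 := setLIntegral_le_lintegral (μ := volume) (Set.Icc (0 - 1 : ℝ) (4 * d + 1))
    (J.indicator fun _ => ENNReal.ofReal (M ^ d * A1 d))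
  have fin := lo.trans (up.trans (add_le_add le_rfl
    (u2.trans (lintegral_indicator_const measurableSet_Icc _).le)))
  have f1 : (M : ℝ) ^ d * (1 / (16 * d + 8)) * (4 * d + 1 - (0 - 1)) = M ^ d / 4 := by
    field_simp
    ring
  have f2 : (M : ℝ) ^ d * A1 d * (1 / (8 * A1 d) + 1 / (8 * A1 d)) = M ^ d / 4 := by
    field_simp
    ring
  rw [Real.volume_Icc, Real.volume_Icc, ← ENNReal.ofReal_mul (by positivity),
    ← ENNReal.ofReal_mul (by positivity), add_sub_sub_cancel, f1, f2, ← ENNReal.ofReal_add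
      (by positivity) (by positivity), ENNReal.ofReal_le_ofReal_iff (by positivity)] at fin
  linarith

end Pool.Agent.P.MP_d0f69c_mp.XS
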