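import Pool.Agent.P.MP_d0f69c_mp.XS.In5
import Pool.Agent.P.MP_d0f69c_mp.XS.In6
import Pool.Agent.P.MP_d0f69c_mp.XS.Ward

/-!
Initial data, part 7: exponential decay, and the initial state at small coupling.
-/

set_option autoImplicit false

open Complex Finset
open scoped ComplexConjugate Matrix

namespace Pool.Agent.P.MP_d0f69c_mp.XS

theorem diss_le {ι : Type} [Fintype ι] [DecidableEq ι] {H : Matrix ι ι ℝ} {W : ι → ℂ} {η : ℝ}
    (hH : ∀ a b, H a b = H b a) (hη : 0 < η) (hW : ∀ y, (W y).im ≤ -η) (u : ι → ℂ) :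
    η ^ 2 * nq u ≤ nq (NW.MM H W *ᵥ u) := by
  have h1 := NW.form_univ hH W u
  have h2 := dot_cs u (NW.MM H W *ᵥ u)
  have h3 : η * nq u ≤ ‖star u ⬝ᵥ (NW.MM H W *ᵥ u)‖ := by
    refine le_trans ?_ ((neg_le_abs _).trans (abs_im_le_norm _))
    rw [dotProduct, im_sum]
    refine le_trans ?_ (neg_le_neg h1.le)
    rw [nq, mul_sum, ← sum_neg_distrib]
    exact sum_le_sum fun y _ => by nlinarith [hW y, sq_nonneg ‖u y‖]
  rcases (nq_nonneg u).eq_or_lt with h | h
  · rw [← h, mul_zero]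
    exact nq_nonneg _
  · have := (pow_le_pow_left₀ (by positivity) h3 2).trans h2
    exact le_of_mul_le_mul_left (by linarith) h

theorem ct_l2 {ι : Type} [Fintype ι] [DecidableEq ι] {H : Matrix ι ι ℝ} {W : ι → ℂ} {η : ℝ}
    (hH : ∀ a b, H a b = H b a) (hη : 0 < η) (hW : ∀ y, (W y).im ≤ -η) (ρ : ι → ℝ) {o : ι}
    (ho : ρ o = 0) (h : ∀ v : ι → ℂ, nq (fun x => ∑ y, H x y * ((1 - Real.exp (ρ x - ρ y) : ℝ) * v y))
      ≤ (η / 2) ^ 2 * nq v) :
    ∑ x, Real.exp (2 * ρ x) * ‖NW.GG H W x o‖ ^ 2 ≤ 4 * ∑ x, ‖NW.GG H W x o‖ ^ 2 := by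
  set u : ι → ℂ := NW.GG H W *ᵥ Pi.single o 1 with hu
  set v : ι → ℂ := fun x => Real.exp (ρ x) * u x with hv
  have m := NW.MG hH (fun y => by linarith [hW y]) (Pi.single o 1)
  have e : NW.MM H W *ᵥ (v - u) =
      fun x => ∑ y, H x y * ((1 - Real.exp (ρ x - ρ y) : ℝ) * v y) := by
    funext x
    have m1 := congrFun m x
    have m2 : (Real.exp (ρ x) : ℂ) * (Pi.single o 1 : ι → ℂ) x = (Pi.single o 1 : ι → ℂ) x := by
      by_cases c : x = o <;> simp [c, ho]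
    have m3 : ∀ y, (H x y : ℂ) * ((1 - Real.exp (ρ x - ρ y) : ℝ) * v y) =
        H x y * v y - Real.exp (ρ x) * (H x y * u y) := fun y => by
      simp only [hv, Real.exp_sub]
      have : (Real.exp (ρ y) : ℂ) ≠ 0 := by exact_mod_cast (Real.exp_pos _).ne'
      rw [ofReal_sub, ofReal_div]
      field_simp
      simp
      ring
    rw [← hu] at m1
    rw [Matrix.mulVec_sub, Pi.sub_apply, m1, ← m2, ← m1, NW.MM_mv, NW.MM_mv]
    simp only [m3, sum_sub_distrib, ← mul_sum]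
    simp only [hv]
    ring
  have h1 := diss_le hH hη hW (v - u)
  rw [e] at h1
  have h2 : nq (v - u) ≤ nq v / 4 := le_of_mul_le_mul_left ((h1.trans (h v)).trans_eq (by ring))
    (pow_pos hη 2)
  have h3 := nq_add u (v - u) one_pos
  rw [add_sub_cancel] at h3
  have e1 : nq v = ∑ x, Real.exp (2 * ρ x) * ‖NW.GG H W x o‖ ^ 2 := by
    simp only [nq, hv, hu, NW.col, norm_mul, mul_pow, norm_real, Real.norm_eq_abs, sq_abs,
      ← Real.exp_nat_mul, Nat.cast_ofNat]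
  have e2 : nq u = ∑ x, ‖NW.GG H W x o‖ ^ 2 := by simp only [nq, hu, NW.col]
  linarith

variable {d M : ℕ} [NeZero M]

theorem ct_torus {lam η β : ℝ} (hl : 0 < lam) (hη : 0 < η) (E : ℝ) {W : (Fin d → ZMod M) → ℂ}
    (hW : ∀ y, (W y).im ≤ -η) (b0 : 0 ≤ β) (b1 : β ≤ 1) (b2 : 8 * d * β ≤ η * lam) :
    ∑ x, Real.exp (2 * (β * tn d M x)) * ‖NW.GG (Hn (Lap d M) lam E) W x 0‖ ^ 2 ≤
      4 * ∑ x, ‖NW.GG (Hn (Lap d M) lam E) W x 0‖ ^ 2 := by
  refine ct_l2 (Hn_symm Lap_symm lam E) hη hW (fun x => β * tn d M x)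
    (by simp [(tn_NG d M).zero]) fun v => ?_
  have k : ∀ x a : Fin d → ZMod M, tn d M a ≤ 1 →
      ‖((1 - Real.exp (β * tn d M x - β * tn d M (x + a)) : ℝ) : ℂ) * v (x + a)‖ ≤
        2 * β * ‖v (x + a)‖ := fun x a ha => by
    have h1 := (tn_NG d M).add x a
    have h2 := (tn_NG d M).add (x + a) (-a)
    rw [add_neg_cancel_right, (tn_NG d M).neg] at h2
    have h3 : |(tn d M x : ℝ) - tn d M (x + a)| ≤ 1 := by
      rw [abs_le]
      constructor
      · have : (tn d M (x + a) : ℝ) ≤ tn d M x + 1 := by exact_mod_cast h1.trans (by omega)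
        linarith
      · have : (tn d M x : ℝ) ≤ tn d M (x + a) + 1 := by exact_mod_cast h2.trans (by omega)
        linarith
    have h4 : |β * tn d M x - β * tn d M (x + a)| ≤ β := by
      rw [← mul_sub, abs_mul, abs_of_nonneg b0]
      exact mul_le_of_le_one_right b0 h3
    rw [norm_mul, norm_real, Real.norm_eq_abs, abs_sub_comm]
    gcongr
    linarith [Real.abs_exp_sub_one_le (h4.trans b1)]
  have k2 : ∀ x, ‖∑ y, (Hn (Lap d M) lam E x y : ℂ) *
      ((1 - Real.exp (β * tn d M x - β * tn d M y) : ℝ) * v y)‖ ^ 2 ≤ (2 * β / lam) ^ 2 *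
      (d * ∑ i, 2 * (‖v (x + Pi.single i 1)‖ ^ 2 + ‖v (x + -Pi.single i 1)‖ ^ 2)) := fun x => by
    rw [Hn_mv, Lap_mv, norm_div, norm_real, Real.norm_of_nonneg hl.le, div_pow, div_pow,
      div_mul_eq_mul_div]
    simp only [sub_self, Real.exp_zero, ofReal_zero, zero_mul, mul_zero, sub_zero, zero_sub]
    gcongr
    refine (pow_le_pow_left₀ (norm_nonneg _) (norm_sum_le_of_le _ (n := fun i => 2 * β *
      (‖v (x + Pi.single i 1)‖ + ‖v (x + -Pi.single i 1)‖)) fun i _ => ?_) 2).trans ?_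
    · refine (norm_sub_le _ _).trans ?_
      rw [norm_neg, sub_eq_add_neg x, mul_add]
      exact add_le_add (k x _ (tn_single i)) (k x _ (by rw [(tn_NG d M).neg]; exact tn_single i))
    · rw [← mul_sum, mul_pow]
      gcongr
      refine sq_sum_le_card_mul_sum_sq.trans ?_
      rw [card_univ, Fintype.card_fin]
      gcongr with i
      nlinarith [sq_nonneg (‖v (x + Pi.single i 1)‖ - ‖v (x + -Pi.single i 1)‖)]
  have k3 : ∀ a, ∑ x, ‖v (x + a)‖ ^ 2 = nq v := fun a =>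
    Equiv.sum_comp (Equiv.addRight a) fun x => ‖v x‖ ^ 2
  refine (sum_le_sum fun x _ => k2 x).trans ?_
  rw [← mul_sum, ← mul_sum, sum_comm]
  simp only [← mul_sum, sum_add_distrib, k3, sum_const, card_univ, Fintype.card_fin, nsmul_eq_mul]
  have : 4 * d * β / lam ≤ η / 2 := by
    rw [div_le_iff₀ hl]
    linarith
  exact le_trans (le_of_eq (by ring)) (mul_le_mul_of_nonneg_right
    (pow_le_pow_left₀ (by positivity) this 2) (nq_nonneg v))

/-- the initial state: every site carries the lead `σ`, and `G` is the Green function -/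
structure InitH (C lam : ℝ) (σ : ℂ) (G : Matrix (Fin d → ZMod M) (Fin d → ZMod M) ℂ) : Prop where
  im : lam / C ≤ -σ.im
  norm : ‖σ‖ ≤ C * lam
  trans : ∀ x y, G x y = G (x - y) 0
  tune : ∀ x, ‖G x x - σ / (σ ^ 2 - 1)‖ ≤ C * lam ^ 2
  amp : ∀ x y, ‖G x y‖ ≤ C * lam
  l4 : ∀ x, ∑ y, ‖G x y‖ ^ 4 ≤ C * lam ^ 4
  rr : ∀ u : (Fin d → ZMod M) → ℂ,
    ∑ x, ‖∑ y, G x y ^ 2 * u y‖ ^ 2 ≤ (C * lam) ^ 2 * ∑ x, ‖u x‖ ^ 2
  mass : |∑ h, ‖G h 0‖ ^ 2 - 1| ≤ C * lam
  ref : RefH (fun h => ‖G h 0‖ ^ 2) (C / lam ^ 2) (C * lam ^ 2)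
  gam : ∑ x, gt (fun h => ‖G h 0‖ ^ 2) x ^ 2 ≤ C * lam ^ 4
  dec : ∀ x y, ‖G x y‖ ≤ 3 * Real.exp (-(tn d M (x - y) / (C / lam ^ 2)))

theorem init_aux {K lam E0 E : ℝ} (hd : 5 ≤ d) (K1 : (32 * 10 ^ d) ^ 2 ≤ K) (K2 : 16 * d ≤ K)
    (K3 : A0 d * (A1 d + 2) + 2 * A1 d ^ 3 ≤ K) (K4 : 16 * A1 d * (1 + A1 d) ≤ K)
    (K5 : 8 * 10 ^ d / √(1 / (16 * A1 d) / (4 * d)) + 2 / (1 / (16 * A1 d)) * A1 d ≤ K)
    (hl : 0 < lam) (hl1 : K * (16 * d + 8) * lam ≤ 1 / 200)
    (hM : 64 ≤ (lam ^ 2 / (16 * d + 8) / (4 * d)) ^ 2 * M) (hM2 : (M : ℝ) ^ (-(1 / 2) : ℝ) ≤ lam ^ 4)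
    (e1 : 1 / (8 * A1 d) ≤ |E0 - 2 * d|)
    (e2 : 1 / (16 * d + 8) ≤ (gf (E0 + (lam ^ 2 : ℝ) * I) (0 : Fin d → ZMod M)).im)
    (hE : |E - E0| ≤ lam) :
    InitH (K * (16 * d + 8)) lam (-lam * gf (E0 + (lam ^ 2 : ℝ) * I) (0 : Fin d → ZMod M))
      (NW.GG (Hn (Lap d M) lam E)
        fun _ => -lam * gf (E0 + (lam ^ 2 : ℝ) * I) (0 : Fin d → ZMod M)) := by
  have d5 : (5 : ℝ) ≤ d := by exact_mod_cast hd
  set n : ℝ := 16 * d + 8 with hn
  set a := A1 d with ha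
  have a1 : 1 ≤ a := A1_ge d
  have a0 := A0_nonneg d
  have n1 : 1 ≤ n := by linarith
  have k1 : 1 ≤ K := by linarith
  have k2 : K ≤ K * n := le_mul_of_one_le_right (by linarith) n1
  have k3 : K * lam ≤ 1 / 200 := (mul_le_mul_of_nonneg_right k2 hl.le).trans hl1
  have l1 : lam ≤ 1 / 200 := (le_mul_of_one_le_left hl.le k1).trans k3
  have k4 : 4 * a + 8 ≤ K := by nlinarith
  have l2 : lam ^ 2 ≤ lam := by nlinarith
  have R : Reg d M (lam ^ 2 / n) :=
    ⟨hd, by positivity, (div_le_self (sq_nonneg _) n1).trans (by linarith), hM⟩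
  set w : ℂ := E0 + (lam ^ 2 : ℝ) * I with hw
  have w1 : lam ^ 2 / n ≤ w.im := by
    simpa [hw, -ofReal_pow] using div_le_self (sq_nonneg lam) n1
  set m := gf w (0 : Fin d → ZMod M) with hm
  have m1 : ‖m‖ ≤ a := R.gf_le w1 0
  have m0 : 0 < m.im := lt_of_lt_of_le (by positivity) e2
  set z : ℂ := E - lam * (-lam * m) with hz
  have z0 : z.im = lam ^ 2 * m.im := by simp [hz, sq, mul_assoc]
  have z1 : lam ^ 2 / n ≤ z.im := by
    rw [z0, div_eq_mul_one_div]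
    gcongr
  have s0 : (-lam * m).im = -(lam * m.im) := by simp
  have s1 : ‖-lam * m‖ ≤ a * lam := by
    rw [norm_mul, norm_neg, norm_real, Real.norm_of_nonneg hl.le, mul_comm]
    gcongr
  set G := NW.GG (Hn (Lap d M) lam E) fun _ => -lam * m with hG
  have g : ∀ x y, G x y = lam * gf z (x - y) := fun x y => by
    rw [hG, GG_ift hl.ne' E (by rw [s0]; exact neg_ne_zero.2 (mul_pos hl m0).ne')]
    simp only [gf, ift, mul_assoc, ← mul_sum, mul_div_assoc, hz]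
  have g2 : ∀ x y, ‖G x y‖ = lam * ‖gf z (x - y)‖ := fun x y => by
    rw [g, norm_mul, norm_real, Real.norm_of_nonneg hl.le]
  have z2 : ‖z - E0‖ ≤ lam + lam ^ 2 * a := by
    rw [show z - E0 = (E - E0 : ℝ) + (lam ^ 2 : ℝ) * m by simp [hz]; ring]
    refine (norm_add_le _ _).trans (add_le_add (by rwa [norm_real]) ?_)
    rw [norm_mul, norm_real, Real.norm_of_nonneg (sq_nonneg _)]
    gcongr
  have t1 : ‖gf z (0 : Fin d → ZMod M) - m‖ ≤ A0 d * (a + 2) * lam := by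
    refine (R.lip z1 w1).trans ?_
    rw [mul_assoc, hw, ← sub_sub]
    gcongr
    refine (norm_sub_le _ _).trans ?_
    rw [norm_mul, norm_I, norm_real, Real.norm_of_nonneg (sq_nonneg _)]
    nlinarith [mul_le_mul_of_nonneg_right l2 (zero_le_one.trans a1)]
  have k5 : A0 d * (a + 2) ≤ K := by linarith [pow_pos (one_pos.trans_le a1) 3]
  have ms : |∑ h, ‖G h 0‖ ^ 2 - 1| ≤ K * n * lam := by
    have := gf_ward (d := d) (M := M) z
    simp only [g2, sub_zero, mul_pow, ← mul_sum]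
    rw [z0, mul_right_comm, ← div_eq_iff m0.ne'] at this
    rw [← this, div_sub_one m0.ne', abs_div, abs_of_pos m0, div_le_iff₀ m0, ← sub_im]
    refine (abs_im_le_norm _).trans (t1.trans ?_)
    calc _ ≤ K * lam := by gcongr
      _ = K * n * lam * (1 / n) := by field_simp
      _ ≤ _ := by gcongr
  obtain ⟨ms1, ms2⟩ := abs_le.1 ms
  have l4 : ∀ x, ∑ y, ‖G x y‖ ^ 4 ≤ a * lam ^ 4 := fun x => by
    have := Equiv.sum_comp (Equiv.subLeft x) fun y => (‖gf z y‖ ^ 2) ^ 2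
    simp only [Equiv.subLeft_apply, ← pow_mul] at this
    simp only [g2, mul_pow, ← mul_sum]
    rw [mul_comm, this]
    simpa only [← pow_mul] using mul_le_mul_of_nonneg_right (R.l4 z1) (pow_pos hl 4).le
  set β := lam ^ 2 / (8 * d * n) with hβ
  have b0 : 0 < β := by positivity
  have ct := ct_torus (d := d) (M := M) (W := fun _ => -lam * m) hl (div_pos hl (by linarith : 0 < n))
    E (fun _ => by
      rw [s0, div_eq_mul_one_div]
      gcongr) b0.le ((div_le_self (sq_nonneg _) (by nlinarith)).trans (by linarith))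
    (le_of_eq (by rw [hβ]; field_simp))
  rw [← hG] at ct
  have b1 : 2 / β ≤ K * n / lam ^ 2 := by
    rw [hβ, div_div_eq_mul_div]
    exact div_le_div_of_nonneg_right
      (by linarith [mul_le_mul_of_nonneg_right K2 (zero_le_one.trans n1)]) (sq_nonneg _)
  have ev : ∀ h, ‖G (-h) 0‖ ^ 2 = ‖G h 0‖ ^ 2 := fun h => by simp only [g2, sub_zero, gf_neg]
  have L1 : K * n * lam ^ 2 ≤ lam / 200 := by nlinarith
  have rf : RefH (fun h => ‖G h 0‖ ^ 2) (K * n / lam ^ 2) (K * n * lam ^ 2) := by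
    refine ⟨hd, fun _ => sq_nonneg _, ev, by linarith, by positivity, ?_, by linarith, ?_, ?_⟩
    · refine le_trans ?_ (pow_le_pow_left₀ (by positivity) b1 2)
      rw [div_pow, le_div_iff₀ (by positivity), sum_mul]
      refine (sum_le_sum (g := fun x => Real.exp (2 * (β * tn d M x)) * ‖G x 0‖ ^ 2 / 2)
        fun x _ => ?_).trans (by rw [← sum_div]; linarith)
      have := Real.pow_div_factorial_le_exp (2 * (β * tn d M x)) (by positivity) 2
      norm_num at this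
      nlinarith [mul_le_mul_of_nonneg_right this (sq_nonneg ‖G x 0‖)]
    · refine le_trans (by linarith [R.big']) (mul_le_mul_of_nonneg_right
        (b := lam ^ 2 / n / (4 * d)) ?_ (Nat.cast_nonneg _))
      refine ((div_le_self (by positivity) (by linarith)).trans
        (div_le_self (sq_nonneg _) n1)).trans (le_mul_of_one_le_left (sq_nonneg _) (k1.trans k2))
    · intro k i hk
      have f1 : ft (fun h => ((‖G h 0‖ ^ 2 : ℝ) : ℂ)) k = (lam ^ 2 : ℝ) * SS z (conj z) k := by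
        rw [← ft_ift (SS z (conj z)) k]
        simp only [ft, g2, sub_zero, mul_pow, ofReal_mul, gf_normsq, mul_sum, mul_assoc]
      have f2 : DD (fun h => ‖G h 0‖ ^ 2) k =
          ∑ h, ‖G h 0‖ ^ 2 - (ft (fun h => ((‖G h 0‖ ^ 2 : ℝ) : ℂ)) k).re := by
        simp only [DD, ft, re_sum, ← sum_sub_distrib, re_ofReal_mul, ← conj_ch, conj_re, mul_sub,
          mul_one]
      have f3 := SS_le2 (τ := -1) (w := conj z) (Or.inr rfl) R.pos z1 (by simpa using z1) hd hM k i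
      have f4 : 32 * 10 ^ d * lam ^ 2 ≤ √(al (-1) (k i) * (lam ^ 2 / n)) := by
        refine Real.le_sqrt_of_sq_le ?_
        calc _ = (32 * 10 ^ d) ^ 2 * n * lam ^ 2 * (lam ^ 2 / n) := by field_simp
          _ ≤ K * n * lam ^ 2 * (lam ^ 2 / n) := by gcongr
          _ ≤ _ := by
            gcongr
            linarith [al_ge1 (k i), rh_nonneg (k i)]
      have f5 : lam ^ 2 * ‖SS z (conj z) k‖ ≤ 1 / 4 := le_of_mul_le_mul_left
        (by linarith [mul_le_mul_of_nonneg_left f4 (norm_nonneg (SS z (conj z) k))])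
        (show (0 : ℝ) < 10 ^ d by positivity)
      have f6 := re_le_norm (ft (fun h => ((‖G h 0‖ ^ 2 : ℝ) : ℂ)) k)
      rw [f2]
      nth_rw 2 [f1] at f6
      rw [norm_mul, norm_real, Real.norm_of_nonneg (sq_nonneg _)] at f6
      linarith
  refine ⟨?_, s1.trans (by gcongr; linarith), fun x y => by simp only [g, sub_zero], fun x => ?_,
    fun x y => ?_, fun x => (l4 x).trans (by gcongr; linarith), fun u => ?_, ms, rf, ?_,
    fun x y => ?_⟩
  · rw [s0, neg_neg, div_eq_mul_one_div]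
    gcongr
    exact le_trans (by gcongr; nlinarith) e2
  · set σ := -lam * m with hσ
    have q1 : a * lam ≤ 1 / 2 := by nlinarith
    have q2 : 1 / 2 ≤ ‖σ ^ 2 - 1‖ := by
      have := norm_sub_norm_le 1 (σ ^ 2)
      rw [norm_sub_rev, norm_pow, norm_one] at this
      nlinarith [norm_nonneg σ]
    have q3 : σ ^ 2 - 1 ≠ 0 := norm_pos_iff.1 (by linarith)
    have q4 : G x x - σ / (σ ^ 2 - 1) =
        lam * (gf z (0 : Fin d → ZMod M) - m) - σ ^ 3 / (σ ^ 2 - 1) := by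
      rw [g, sub_self, mul_sub, show lam * m = -σ by rw [hσ]; ring]
      field_simp
      ring
    have q5 : ‖σ ^ 3 / (σ ^ 2 - 1)‖ ≤ 2 * a ^ 3 * lam ^ 2 := by
      rw [norm_div, norm_pow, div_le_iff₀ (by linarith)]
      calc _ ≤ (a * lam) ^ 3 := by gcongr
        _ = 2 * a ^ 3 * lam ^ 2 * (lam / 2) := by ring
        _ ≤ _ := by
          gcongr
          linarith
    rw [q4]
    refine (norm_sub_le _ _).trans ?_
    rw [norm_mul, norm_real, Real.norm_of_nonneg hl.le]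
    nlinarith [mul_le_mul_of_nonneg_left t1 hl.le,
      mul_le_mul_of_nonneg_right (K3.trans k2) (sq_nonneg lam)]
  · rw [g2, mul_comm]
    gcongr
    exact (R.gf_le z1 _).trans (by linarith)
  · have r1 : ∀ x, ∑ y, G x y ^ 2 * u y =
        (lam ^ 2 : ℝ) * ift (fun k => SS z z k * ft u k) x := fun x => by
      simp only [← conv_ift, g, mul_pow, gf_sq, mul_sum, mul_assoc, ofReal_pow]
    have r2 : 1 / (16 * a) ≤ |z.re - 2 * d| := by
      have h1 := (abs_re_le_norm _).trans z2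
      have h2 : lam + lam ^ 2 * a ≤ 1 / (16 * a) := by
        rw [le_div_iff₀ (by positivity)]
        nlinarith [mul_le_mul_of_nonneg_right K4 hl.le,
          mul_le_mul_of_nonneg_right l2 (mul_self_nonneg a)]
      have h3 := abs_sub_abs_le_abs_sub (E0 - 2 * d) (z.re - 2 * d)
      have h4 : 1 / (8 * a) = 1 / (16 * a) + 1 / (16 * a) := by field_simp; ring
      rw [sub_re, ofReal_re, abs_sub_comm] at h1
      rw [sub_sub_sub_cancel_right] at h3
      linarith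
    have r3 : ∀ k : Fin d → ZMod M, lam ^ 2 * ‖SS z z k‖ ≤ K * n * lam := fun k => by
      have h1 := (R.rr z1 (by positivity) r2 k).trans K5
      have h2 : lam / n ≤ √(lam ^ 2 / n) := Real.le_sqrt_of_sq_le (by
        rw [div_pow]
        gcongr
        nlinarith)
      have h3 := (mul_le_mul_of_nonneg_left h2 (norm_nonneg _)).trans h1
      rw [mul_div_assoc', div_le_iff₀ (by linarith)] at h3
      nlinarith [mul_le_mul_of_nonneg_right h3 hl.le]
    simp only [r1, norm_mul, mul_pow _ _ 2, ← mul_sum, pars_sq, pars_ft u]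
    rw [mul_div_assoc', mul_div_assoc', mul_sum, mul_sum]
    refine div_le_div_of_nonneg_right (sum_le_sum fun k _ => ?_) (vol_pos d M).le
    rw [← mul_assoc, ← mul_pow, ← mul_pow K, ← mul_pow (K * n), norm_real,
      Real.norm_of_nonneg (sq_nonneg _)]
    gcongr ?_ ^ 2 * _
    exact r3 k
  · refine rf.gt_sq.trans ?_
    have h1 := l4 0
    have h2 : ∑ x, (‖G x 0‖ ^ 2) ^ 2 = ∑ y, ‖G 0 y‖ ^ 4 := by
      simp only [g2, zero_sub, sub_zero, gf_neg, ← pow_mul]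
    have h3 : (21 * (K * n * lam ^ 2)) ^ d ≤ (21 * (lam / 200)) ^ 5 :=
      (pow_le_pow_of_le_one (by positivity) (by linarith) hd).trans (by gcongr)
    have h4 : 512 * (21 * (lam / 200)) ^ 5 ≤ lam ^ 4 := by nlinarith [pow_pos hl 4]
    nlinarith [mul_le_mul_of_nonneg_right (k4.trans k2) (pow_pos hl 4).le]
  · have h1 := (single_le_sum (f := fun x => Real.exp (2 * (β * tn d M x)) * ‖G x 0‖ ^ 2)
      (fun _ _ => by positivity) (mem_univ (x - y))).trans ct
    have h2 : (Real.exp (β * tn d M (x - y)) * ‖G x y‖) ^ 2 ≤ 3 ^ 2 := by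
      rw [mul_pow, ← Real.exp_nat_mul, g2 x y, ← sub_zero (x - y), ← g2, sub_zero]
      push_cast
      linarith
    have h3 := (abs_le_of_sq_le_sq' h2 (by norm_num)).2
    rw [← le_div_iff₀' (Real.exp_pos _), div_eq_mul_inv, ← Real.exp_neg] at h3
    refine h3.trans ?_
    gcongr
    rw [div_le_iff₀ (by positivity), mul_right_comm]
    refine le_mul_of_one_le_left (Nat.cast_nonneg _) ?_
    rw [div_le_iff₀' b0] at b1
    linarith

/-- the initial data at small coupling -/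
theorem init {d : ℕ} (hd : 5 ≤ d) : ∃ C : ℝ, 1 ≤ C ∧ ∀ lam : ℝ, 0 < lam → C * lam ≤ 1 / 200 →
    ∃ M0 : ℕ, ∀ (M : ℕ) [NeZero M], M0 ≤ M → ∃ (E0 : ℝ) (σ : ℂ), |E0| ≤ C ∧ ∀ E, |E - E0| ≤ lam →
      InitH C lam σ (NW.GG (Hn (Lap d M) lam E) fun _ => σ) := by
  have d5 : (5 : ℝ) ≤ d := by exact_mod_cast hd
  obtain ⟨K, K1, K2, K3, K4, K5⟩ : ∃ K : ℝ, (32 * 10 ^ d) ^ 2 ≤ K ∧ 16 * d ≤ K ∧
      A0 d * (A1 d + 2) + 2 * A1 d ^ 3 ≤ K ∧ 16 * A1 d * (1 + A1 d) ≤ K ∧
      8 * 10 ^ d / √(1 / (16 * A1 d) / (4 * d)) + 2 / (1 / (16 * A1 d)) * A1 d ≤ K :=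
    ((Filter.eventually_ge_atTop _).and ((Filter.eventually_ge_atTop _).and
      ((Filter.eventually_ge_atTop _).and ((Filter.eventually_ge_atTop _).and
        (Filter.eventually_ge_atTop _))))).exists
  have c1 : 16 * d + 8 ≤ K * (16 * d + 8) := le_mul_of_one_le_left (by linarith) (by linarith)
  refine ⟨K * (16 * d + 8), by linarith, fun lam hl hl1 => ?_⟩
  have l1 : lam ≤ 1 := by nlinarith
  obtain ⟨M0, h0⟩ := Filter.eventually_atTop.1 (((tendsto_natCast_atTop_atTop (R := ℝ)).const_mul_atTop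
    (show 0 < (lam ^ 2 / (16 * d + 8) / (4 * d)) ^ 2 by positivity)).eventually_ge_atTop 64 |>.and
    (((tendsto_rpow_neg_atTop (show (0 : ℝ) < 1 / 2 by norm_num)).comp
      tendsto_natCast_atTop_atTop).eventually_le_const (pow_pos hl 4)))
  refine ⟨M0, fun M _ hM => ?_⟩
  obtain ⟨h1, h2⟩ := h0 M hM
  obtain ⟨E0, e0, e1, e2⟩ := Reg.exists_E0 (d := d) (M := M) (y := lam ^ 2) ⟨hd, by positivity,
    pow_le_one₀ hl.le l1, h1.trans (by
      gcongr
      exact div_le_self (sq_nonneg _) (by linarith))⟩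
  exact ⟨E0, _, by linarith, fun E hE => init_aux hd K1 K2 K3 K4 K5 hl hl1 h1 h2 e1 e2 hE⟩

end Pool.Agent.P.MP_d0f69c_mp.XS
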