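import Mathlib

/- If all outgoing waves of a source set are spread out, closing the set is a small perturbation. -/

namespace Pool.Agent.P.MP_d0f69c_mp.XS

open Finset Matrix
open scoped ComplexOrder

variable {X F : Type} [Fintype X] [Fintype F]

/-- squared Euclidean norm -/
noncomputable def nq (z : X → ℂ) : ℝ := ∑ x, ‖z x‖ ^ 2

theorem nq_nonneg (z : X → ℂ) : 0 ≤ nq z := sum_nonneg fun _ _ => sq_nonneg _

theorem nq_star (z : X → ℂ) : nq (star z) = nq z := by simp [nq]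

theorem dot_star (z : X → ℂ) : z ⬝ᵥ star z = nq z := by
  rw [nq, Complex.ofReal_sum]
  refine sum_congr rfl fun x _ => ?_
  rw [Pi.star_apply, Complex.star_def, Complex.mul_conj']; push_cast; rfl

theorem nq_single [DecidableEq X] (y : X) : nq (Pi.single y (1 : ℂ)) = 1 := by
  rw [nq, sum_eq_single y] <;> simp +contextual

/-- every wave `A ξ` puts at most the fraction `h` of its mass (with floor `θ`) on one site -/
def Light (A : Matrix X F ℂ) (h θ : ℝ) : Prop :=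
  ∀ (ξ : F → ℂ) (x : X), ‖(A *ᵥ ξ) x‖ ^ 2 ≤ h * (nq (A *ᵥ ξ) + θ * nq ξ)

theorem Light.apply {A : Matrix X F ℂ} {M : Matrix F X ℂ} {h θ κ Λ : ℝ} (hL : Light A h θ)
    (hh : 0 ≤ h) (hθ : 0 ≤ θ) (hK : ∀ z, nq ((A * M) *ᵥ z) ≤ κ * nq z)
    (hM : ∀ z, nq (M *ᵥ z) ≤ Λ * nq z) (z : X → ℂ) (x : X) :
    ‖((A * M) *ᵥ z) x‖ ^ 2 ≤ h * (κ + θ * Λ) * nq z := by
  have h1 := hL (M *ᵥ z) x
  rw [mulVec_mulVec] at h1
  have h2 := mul_le_mul_of_nonneg_left (hM z) hθ
  refine h1.trans ?_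
  rw [mul_assoc]
  exact mul_le_mul_of_nonneg_left (by linarith [hK z]) hh

/-- rows of `A M` -/
theorem Light.row {A : Matrix X F ℂ} {M : Matrix F X ℂ} {h θ κ Λ : ℝ} (hL : Light A h θ)
    (hh : 0 ≤ h) (hθ : 0 ≤ θ) (hκ : 0 ≤ κ) (hΛ : 0 ≤ Λ)
    (hK : ∀ z, nq ((A * M) *ᵥ z) ≤ κ * nq z)
    (hM : ∀ z, nq (M *ᵥ z) ≤ Λ * nq z) (x : X) : nq ((A * M) x) ≤ h * (κ + θ * Λ) := by
  have h1 := hL.apply hh hθ hK hM (star ((A * M) x)) x
  have h2 : ((A * M) *ᵥ star ((A * M) x)) x = nq ((A * M) x) := dot_star _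
  rw [h2, nq_star, Complex.norm_real, Real.norm_eq_abs, sq_abs] at h1
  rcases (nq_nonneg ((A * M) x)).eq_or_lt with h3 | h3
  · rw [← h3]; positivity
  · exact le_of_mul_le_mul_right (by rw [← sq]; exact h1) h3

/-- entries of `A M` when this matrix is symmetric -/
theorem Light.entry [DecidableEq X] {A : Matrix X F ℂ} {M : Matrix F X ℂ} {h θ κ Λ : ℝ}
    (hL : Light A h θ) (hh : 0 ≤ h) (hθ : 0 ≤ θ) (hκ : 0 ≤ κ) (hΛ : 0 ≤ Λ)
    (hS : ∀ x y, (A * M) x y = (A * M) y x) (hK : ∀ z, nq ((A * M) *ᵥ z) ≤ κ * nq z)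
    (hM : ∀ z, nq (M *ᵥ z) ≤ Λ * nq z) (x y : X) :
    ‖(A * M) x y‖ ^ 2 ≤ h * (h * (κ + θ * Λ) + θ * Λ) := by
  have h1 := hL (M *ᵥ Pi.single y 1) x
  have h2 := hM (Pi.single y 1)
  have h3 : (A * M) *ᵥ Pi.single y 1 = (A * M) y := funext fun w => by
    rw [mulVec_single_one, hS y w]; rfl
  rw [mulVec_mulVec, h3, ← hS x y] at h1
  rw [nq_single, mul_one] at h2
  have h4 := hL.row hh hθ hκ hΛ hK hM y
  have h5 := mul_le_mul_of_nonneg_left h2 hθ
  exact h1.trans (mul_le_mul_of_nonneg_left (by linarith) hh)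

/-- Hilbert-Schmidt norm of a matrix that factors through `F` -/
theorem hs_le [DecidableEq X] (A : Matrix X F ℂ) (M : Matrix F X ℂ) {κ : ℝ} (hκ : 0 ≤ κ)
    (hK : ∀ z, nq ((A * M) *ᵥ z) ≤ κ * nq z) :
    ∑ x, nq ((A * M) x) ≤ Fintype.card F * κ := by
  set K := A * M with hKd
  have hP := posSemidef_conjTranspose_mul_self K
  have h1 : ∑ x, nq (K x) = ∑ i, hP.1.eigenvalues i := by
    have e := congrArg Complex.re hP.1.trace_eq_sum_eigenvalues
    rw [trace_mul_comm, Complex.re_sum] at e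
    refine Eq.trans ?_ (e.trans (by simp))
    rw [trace, Complex.re_sum]
    refine sum_congr rfl fun x _ => ?_
    have : (K * Kᴴ).diag x = nq (K x) := dot_star (K x)
    rw [this, Complex.ofReal_re]
  have h2 : ∀ i, hP.1.eigenvalues i ≤ κ := fun i => by
    set v : X → ℂ := ⇑(hP.1.eigenvectorBasis i) with hv
    have a1 : nq v = 1 := by
      have := hP.1.eigenvectorBasis.norm_eq_one i
      rw [nq, ← EuclideanSpace.norm_sq_eq, this, one_pow]
    have a2 : ((nq (K *ᵥ v) : ℝ) : ℂ) = (hP.1.eigenvalues i : ℝ) := by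
      rw [← dot_star, dotProduct_comm, star_mulVec, ← dotProduct_mulVec, mulVec_mulVec,
        hP.1.mulVec_eigenvectorBasis, dotProduct_smul, dotProduct_comm, dot_star, a1]
      simp
    have a3 := hK v
    rw [a1, mul_one] at a3
    exact (Complex.ofReal_injective a2) ▸ a3
  have h3 : Fintype.card {i // hP.1.eigenvalues i ≠ 0} ≤ Fintype.card F := by
    rw [← hP.1.rank_eq_card_non_zero_eigs, rank_conjTranspose_mul_self]
    exact (rank_mul_le_left _ _).trans (rank_le_card_width _)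
  rw [h1, ← sum_filter_ne_zero]
  refine (sum_le_card_nsmul _ _ κ fun i _ => h2 i).trans ?_
  rw [nsmul_eq_mul]
  refine mul_le_mul_of_nonneg_right ?_ hκ
  rw [Fintype.card_subtype] at h3
  exact_mod_cast h3

end Pool.Agent.P.MP_d0f69c_mp.XS
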