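import Mathlib

/-!
Geometry of a finite abelian group with an integer valued norm, and localisation of a Dirichlet
form to balls with a loss that is only the ratio of two volumes.
-/

set_option autoImplicit false

namespace Pool.Agent.P.MP_d0f69c_mp.XS

open Finset

variable {T : Type} [Fintype T] [AddCommGroup T]

/-- an integer valued group seminorm -/
structure NG (nm : T → ℕ) : Prop where
  zero : nm 0 = 0
  neg : ∀ x, nm (-x) = nm x
  add : ∀ x y, nm (x + y) ≤ nm x + nm y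

/-- ball -/
def ball (nm : T → ℕ) (p : T) (r : ℕ) : Finset T := univ.filter fun x => nm (x - p) ≤ r

/-- volume of a ball -/
def vol (nm : T → ℕ) (r : ℕ) : ℕ := (ball nm 0 r).card

variable {nm : T → ℕ}

theorem mem_ball {p x : T} {r : ℕ} : x ∈ ball nm p r ↔ nm (x - p) ≤ r := by simp [ball]

omit [Fintype T] in
theorem NG.sub_comm (h : NG nm) (x y : T) : nm (x - y) = nm (y - x) := by
  rw [← h.neg, neg_sub]

omit [Fintype T] in
theorem NG.tri (h : NG nm) (x y z : T) : nm (x - z) ≤ nm (x - y) + nm (y - z) := by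
  have := h.add (x - y) (y - z)
  rwa [sub_add_sub_cancel] at this

theorem NG.mem_ball_comm (h : NG nm) {p x : T} {r : ℕ} : x ∈ ball nm p r ↔ p ∈ ball nm x r := by
  rw [mem_ball, mem_ball, h.sub_comm]

theorem NG.self_mem (h : NG nm) (p : T) (r : ℕ) : p ∈ ball nm p r := by
  rw [mem_ball, sub_self, h.zero]; exact Nat.zero_le _

theorem ball_mono (p : T) {r s : ℕ} (h : r ≤ s) : ball nm p r ⊆ ball nm p s := fun _ hx =>
  mem_ball.2 ((mem_ball.1 hx).trans h)

theorem vol_mono {r s : ℕ} (h : r ≤ s) : vol nm r ≤ vol nm s := card_le_card (ball_mono 0 h)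

theorem NG.vol_pos (h : NG nm) (r : ℕ) : 0 < vol nm r := card_pos.2 ⟨0, h.self_mem 0 r⟩

theorem vol_le_card (r : ℕ) : vol nm r ≤ Fintype.card T := card_le_univ _

theorem sum_ball {M : Type} [AddCommMonoid M] (p : T) (r : ℕ) (g : T → M) :
    ∑ x ∈ ball nm p r, g x = ∑ a ∈ ball nm 0 r, g (p + a) := by
  refine (sum_equiv (Equiv.addLeft p) (fun a => ?_) fun a _ => rfl).symm
  simp [mem_ball]

theorem card_ball (p : T) (r : ℕ) : (ball nm p r).card = vol nm r := by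
  rw [vol, card_eq_sum_ones, card_eq_sum_ones, sum_ball]

/-- every point lies in `vol r` balls -/
theorem NG.sum_sum_ball (h : NG nm) (r : ℕ) (g : T → ℝ) :
    ∑ p, ∑ x ∈ ball nm p r, g x = vol nm r * ∑ x, g x := by
  rw [sum_comm' (t' := univ) (s' := fun x => ball nm x r) (by simp [h.mem_ball_comm]), mul_sum]
  refine sum_congr rfl fun x _ => ?_
  rw [sum_const, card_ball, nsmul_eq_mul]

/-- Dirichlet form of a translation invariant kernel -/
noncomputable def NF (p : T → ℝ) (F : T → ℝ) : ℝ := (∑ x, ∑ y, p (x - y) * (F x - F y) ^ 2) / 2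

theorem NF_nonneg {p : T → ℝ} (hp : ∀ h, 0 ≤ p h) (F : T → ℝ) : 0 ≤ NF p F :=
  div_nonneg (sum_nonneg fun _ _ => sum_nonneg fun _ _ => mul_nonneg (hp _) (sq_nonneg _))
    zero_le_two

/-- cutoff: one on the ball of radius `R`, zero outside the ball of radius `R + D` -/
noncomputable def chi (nm : T → ℕ) (R D : ℕ) (q x : T) : ℝ :=
  max 0 (min 1 (((R + D : ℕ) - (nm (x - q) : ℝ)) / D))

omit [Fintype T] in
theorem chi_nonneg (R D : ℕ) (q x : T) : 0 ≤ chi nm R D q x := le_max_left _ _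

omit [Fintype T] in
theorem chi_le_one (R D : ℕ) (q x : T) : chi nm R D q x ≤ 1 :=
  max_le zero_le_one (min_le_left _ _)

theorem chi_eq_one {R D : ℕ} (hD : 0 < D) {q x : T} (hx : x ∈ ball nm q R) :
    chi nm R D q x = 1 := by
  have h1 : (nm (x - q) : ℝ) ≤ R := by exact_mod_cast mem_ball.1 hx
  have hD' : (0 : ℝ) < D := by exact_mod_cast hD
  have : (1 : ℝ) ≤ ((R + D : ℕ) - (nm (x - q) : ℝ)) / D := by
    rw [le_div_iff₀ hD']; push_cast; linarith
  rw [chi, min_eq_left this, max_eq_right zero_le_one]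

theorem chi_eq_zero {R D : ℕ} {q x : T} (hx : x ∉ ball nm q (R + D)) : chi nm R D q x = 0 := by
  have h1 : ((R + D : ℕ) : ℝ) ≤ nm (x - q) := by
    exact_mod_cast (not_le.1 (mt mem_ball.2 hx)).le
  exact max_eq_left ((min_le_right _ _).trans
    (div_nonpos_of_nonpos_of_nonneg (by linarith) (Nat.cast_nonneg _)))

omit [Fintype T] in
theorem NG.chi_lip (h : NG nm) {R D : ℕ} (hD : 0 < D) (q x y : T) :
    |chi nm R D q x - chi nm R D q y| ≤ nm (x - y) / D := by
  have hD' : (0 : ℝ) < D := by exact_mod_cast hD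
  have h1 : (nm (x - q) : ℝ) ≤ nm (x - y) + nm (y - q) := by exact_mod_cast h.tri x y q
  have h2 : (nm (y - q) : ℝ) ≤ nm (x - y) + nm (x - q) := by
    rw [h.sub_comm x y]; exact_mod_cast h.tri y x q
  rw [chi, chi, max_comm 0, max_comm 0]
  refine (abs_max_sub_max_le_abs _ _ _).trans ?_
  refine ((abs_min_sub_min_le_max _ _ _ _).trans_eq ?_).trans
    (b := |(((R + D : ℕ) - (nm (x - q) : ℝ)) / D) - (((R + D : ℕ) - (nm (y - q) : ℝ)) / D)|) ?_
  · rw [sub_self, abs_zero, max_eq_right (abs_nonneg _)]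
  · rw [← sub_div, abs_div, abs_of_pos hD']
    exact div_le_div_of_nonneg_right (abs_le.2 ⟨by linarith, by linarith⟩) hD'.le

/-- mean over a ball -/
noncomputable def cm (nm : T → ℕ) (r : ℕ) (F : T → ℝ) (q : T) : ℝ :=
  (∑ y ∈ ball nm q r, F y) / vol nm r

/-- the localised function -/
noncomputable def loc (nm : T → ℕ) (R D : ℕ) (F : T → ℝ) (q x : T) : ℝ :=
  chi nm R D q x * (F x - cm nm (R + D) F q)

theorem loc_in {R D : ℕ} (hD : 0 < D) (F : T → ℝ) {q x : T} (hx : x ∈ ball nm q R) :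
    loc nm R D F q x = F x - cm nm (R + D) F q := by rw [loc, chi_eq_one hD hx, one_mul]

theorem loc_out {R D : ℕ} (F : T → ℝ) {q x : T} (hx : x ∉ ball nm q (R + D)) :
    loc nm R D F q x = 0 := by rw [loc, chi_eq_zero hx, zero_mul]

theorem edge_le {a b u v i j L : ℝ} (ha : 0 ≤ a) (hb : 0 ≤ b) (hi : 0 ≤ i) (hj : 0 ≤ j)
    (hai : a ≤ i) (hi' : i = 1 ∨ a = 0) (hj' : j = 1 ∨ b = 0) (hi1 : i ≤ 1)
    (hL : |a - b| ≤ L) :
    (a * u - b * v) ^ 2 ≤ 2 * (i * (u - v) ^ 2) + 2 * L ^ 2 * (i * u ^ 2 + j * v ^ 2) := by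
  have hL2 : (a - b) ^ 2 ≤ L ^ 2 := by
    rw [← sq_abs]; exact pow_le_pow_left₀ (abs_nonneg _) hL 2
  have hu := mul_nonneg hi (sq_nonneg u)
  have hv := mul_nonneg hj (sq_nonneg v)
  rcases le_total b a with hab | hab
  · have e : a * u - b * v = b * (u - v) + (a - b) * u := by ring
    have h1 : b ^ 2 ≤ i := by nlinarith
    have h2 : (a - b) ^ 2 * u ^ 2 ≤ L ^ 2 * (i * u ^ 2) := by
      rcases hi' with h | h
      · rw [h, one_mul]; exact mul_le_mul_of_nonneg_right hL2 (sq_nonneg _)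
      · have : b = 0 := by linarith
        rw [h, this]; simpa using mul_nonneg (sq_nonneg L) hu
    have h3 := mul_le_mul_of_nonneg_right h1 (sq_nonneg (u - v))
    have h4 := mul_nonneg (sq_nonneg L) hv
    rw [e]
    nlinarith [sq_nonneg (b * (u - v) - (a - b) * u)]
  · have e : a * u - b * v = a * (u - v) + (a - b) * v := by ring
    have h1 : a ^ 2 ≤ i := by nlinarith
    have h2 : (a - b) ^ 2 * v ^ 2 ≤ L ^ 2 * (j * v ^ 2) := by
      rcases hj' with h | h
      · rw [h, one_mul]; exact mul_le_mul_of_nonneg_right hL2 (sq_nonneg _)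
      · have : a = 0 := by linarith
        rw [h, this]; simpa using mul_nonneg (sq_nonneg L) hv
    have h3 := mul_le_mul_of_nonneg_right h1 (sq_nonneg (u - v))
    have h4 := mul_nonneg (sq_nonneg L) hu
    rw [e]
    nlinarith [sq_nonneg (a * (u - v) - (a - b) * v)]

/-- variance on balls, summed over the centre -/
theorem NG.sum_var (h : NG nm) (r : ℕ) (F : T → ℝ) {S : ℝ}
    (hS : ∀ k, nm k ≤ 2 * r → ∑ x, (F (x + k) - F x) ^ 2 ≤ S) :
    ∑ q, ∑ x ∈ ball nm q r, (F x - cm nm r F q) ^ 2 ≤ vol nm r * S := by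
  have hv : (0 : ℝ) < vol nm r := by exact_mod_cast h.vol_pos r
  have h1 : ∀ q x, (F x - cm nm r F q) ^ 2 ≤ (∑ y ∈ ball nm q r, (F x - F y) ^ 2) / vol nm r := by
    intro q x
    have e : F x - cm nm r F q = (∑ y ∈ ball nm q r, (F x - F y)) / vol nm r := by
      rw [cm, sum_sub_distrib, sum_const, card_ball, nsmul_eq_mul]; field_simp
    have := sq_sum_le_card_mul_sum_sq (s := ball nm q r) (f := fun y => F x - F y)
    rw [card_ball] at this
    rw [e, div_pow, div_le_div_iff₀ (by positivity) hv]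
    nlinarith
  have h2 : ∀ a ∈ ball nm 0 r, ∀ b ∈ ball nm 0 r, ∑ q, (F (q + a) - F (q + b)) ^ 2 ≤ S := by
    intro a ha b hb
    have := hS (a - b) (by
      have h3 := h.tri a 0 b
      have h4 := mem_ball.1 ha
      have h5 := mem_ball.1 (h.mem_ball_comm.1 hb)
      omega)
    rw [← Equiv.sum_comp (Equiv.addRight b)] at this
    simpa [add_assoc] using this
  calc ∑ q, ∑ x ∈ ball nm q r, (F x - cm nm r F q) ^ 2
      ≤ ∑ q, ∑ x ∈ ball nm q r, (∑ y ∈ ball nm q r, (F x - F y) ^ 2) / vol nm r :=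
        sum_le_sum fun q _ => sum_le_sum fun x _ => h1 q x
    _ = (∑ a ∈ ball nm 0 r, ∑ b ∈ ball nm 0 r, ∑ q, (F (q + a) - F (q + b)) ^ 2) / vol nm r := by
        simp only [← sum_div]
        congr 1
        have e : ∀ q, ∑ x ∈ ball nm q r, ∑ y ∈ ball nm q r, (F x - F y) ^ 2 =
            ∑ a ∈ ball nm 0 r, ∑ b ∈ ball nm 0 r, (F (q + a) - F (q + b)) ^ 2 := fun q => by
          rw [sum_ball]; exact sum_congr rfl fun a _ => sum_ball _ _ _
        simp only [e]
        rw [sum_comm]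
        exact sum_congr rfl fun a _ => sum_comm
    _ ≤ (∑ _a ∈ ball nm 0 r, ∑ _b ∈ ball nm 0 r, S) / vol nm r :=
        div_le_div_of_nonneg_right
          (sum_le_sum fun a ha => sum_le_sum fun b hb => h2 a ha b hb) hv.le
    _ = vol nm r * S := by
        rw [sum_const, sum_const, card_ball, nsmul_eq_mul, nsmul_eq_mul]; field_simp

open Classical in
theorem NG.NF_loc (h : NG nm) {p : T → ℝ} (hp : ∀ k, 0 ≤ p k) {A : ℝ}
    (hA : ∑ k, p k * (nm k : ℝ) ^ 2 ≤ A) {R D : ℕ} (hD : 0 < D) (F : T → ℝ) (q : T) :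
    NF p (loc nm R D F q) ≤ ∑ x ∈ ball nm q (R + D), ∑ y, p (x - y) * (F x - F y) ^ 2 +
      2 * A / (D : ℝ) ^ 2 * ∑ x ∈ ball nm q (R + D), (F x - cm nm (R + D) F q) ^ 2 := by
  set B := ball nm q (R + D)
  set c := cm nm (R + D) F q
  let I : T → ℝ := fun x => if x ∈ B then 1 else 0
  have hI : ∀ x, 0 ≤ I x := fun x => by simp only [I]; split_ifs <;> norm_num
  have hI1 : ∀ x, I x ≤ 1 := fun x => by simp only [I]; split_ifs <;> norm_num
  have hI2 : ∀ x, I x = 1 ∨ chi nm R D q x = 0 := fun x => by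
    by_cases hx : x ∈ B
    · exact Or.inl (if_pos hx)
    · exact Or.inr (chi_eq_zero hx)
  have hI3 : ∀ x, chi nm R D q x ≤ I x := fun x => by
    rcases hI2 x with e | e
    · rw [e]; exact chi_le_one _ _ _ _
    · rw [e]; exact hI x
  have hs : ∀ g : T → ℝ, ∑ x ∈ B, g x = ∑ x, I x * g x := fun g => by
    simp only [I, ite_mul, one_mul, zero_mul, sum_ite_mem, univ_inter]
  have hD' : (0 : ℝ) < D := by exact_mod_cast hD
  have k1 : ∀ x, ∑ y, p (x - y) * (nm (x - y) : ℝ) ^ 2 ≤ A := fun x => by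
    rwa [← Equiv.sum_comp (Equiv.subLeft x)] at hA
  have k2 : ∀ y, ∑ x, p (x - y) * (nm (x - y) : ℝ) ^ 2 ≤ A := fun y => by
    rwa [← Equiv.sum_comp (Equiv.subRight y)] at hA
  have hw : ∀ x, 0 ≤ I x * (F x - c) ^ 2 := fun x => mul_nonneg (hI x) (sq_nonneg _)
  have e1 : ∀ x y, p (x - y) * (loc nm R D F q x - loc nm R D F q y) ^ 2 ≤
      2 * (I x * (p (x - y) * (F x - F y) ^ 2)) +
        2 / (D : ℝ) ^ 2 * (p (x - y) * (nm (x - y) : ℝ) ^ 2 * (I x * (F x - c) ^ 2)) +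
        2 / (D : ℝ) ^ 2 * (p (x - y) * (nm (x - y) : ℝ) ^ 2 * (I y * (F y - c) ^ 2)) := by
    intro x y
    have := mul_le_mul_of_nonneg_left (edge_le (u := F x - c) (v := F y - c)
      (chi_nonneg R D q x) (chi_nonneg R D q y) (hI x) (hI y) (hI3 x) (hI2 x) (hI2 y) (hI1 x)
      (h.chi_lip hD q x y)) (hp (x - y))
    refine this.trans_eq ?_
    rw [sub_sub_sub_cancel_right, div_pow]
    ring
  have e2 : ∑ x, ∑ y, p (x - y) * (nm (x - y) : ℝ) ^ 2 * (I x * (F x - c) ^ 2) ≤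
      A * ∑ x, I x * (F x - c) ^ 2 := by
    rw [mul_sum]
    exact sum_le_sum fun x _ => by
      rw [← sum_mul]; exact mul_le_mul_of_nonneg_right (k1 x) (hw x)
  have e3 : ∑ x, ∑ y, p (x - y) * (nm (x - y) : ℝ) ^ 2 * (I y * (F y - c) ^ 2) ≤
      A * ∑ x, I x * (F x - c) ^ 2 := by
    rw [mul_sum, sum_comm]
    exact sum_le_sum fun x _ => by
      rw [← sum_mul]; exact mul_le_mul_of_nonneg_right (k2 x) (hw x)
  have e4 := sum_le_sum fun x (_ : x ∈ univ) => sum_le_sum fun y (_ : y ∈ univ) => e1 x y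
  simp only [sum_add_distrib, ← mul_sum] at e4
  have hc : (0 : ℝ) ≤ 2 / (D : ℝ) ^ 2 := by positivity
  have e5 := mul_le_mul_of_nonneg_left e2 hc
  have e6 := mul_le_mul_of_nonneg_left e3 hc
  rw [hs, hs, NF]
  have e7 : 2 * A / (D : ℝ) ^ 2 * ∑ x, I x * (F x - c) ^ 2 =
      2 / (D : ℝ) ^ 2 * (A * ∑ x, I x * (F x - c) ^ 2) := by ring
  linarith

/-- LOC -/
theorem NG.loc_sum (h : NG nm) {p : T → ℝ} (hp : ∀ k, 0 ≤ p k) {A : ℝ}
    (hA : ∑ k, p k * (nm k : ℝ) ^ 2 ≤ A) {R D : ℕ} (hD : 0 < D) {κ : ℝ} (hκ : 0 ≤ κ) (F : T → ℝ)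
    {S : ℝ} (hS : ∀ k, nm k ≤ 2 * (R + D) → ∑ x, (F (x + k) - F x) ^ 2 ≤ S * NF p F) :
    ∑ q, (NF p (loc nm R D F q) + κ * ∑ x, loc nm R D F q x ^ 2) ≤
      vol nm (R + D) * ((2 + (2 * A / (D : ℝ) ^ 2 + κ) * S) * NF p F) := by
  have hA0 : 0 ≤ A := (sum_nonneg fun k _ => mul_nonneg (hp k) (sq_nonneg _)).trans hA
  have h1 : ∀ q, ∑ x, loc nm R D F q x ^ 2 ≤
      ∑ x ∈ ball nm q (R + D), (F x - cm nm (R + D) F q) ^ 2 := fun q => by
    rw [← sum_subset (subset_univ (ball nm q (R + D))) fun x _ hx => by simp [loc_out F hx]]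
    refine sum_le_sum fun x _ => ?_
    rw [loc, mul_pow]
    exact mul_le_of_le_one_left (sq_nonneg _)
      (pow_le_one₀ (chi_nonneg _ _ _ _) (chi_le_one _ _ _ _))
  have h2 := sum_le_sum fun q (_ : q ∈ univ) =>
    add_le_add (h.NF_loc hp hA (R := R) hD F q) (mul_le_mul_of_nonneg_left (h1 q) hκ)
  refine h2.trans ?_
  have h3 := h.sum_var (R + D) F hS
  have hc : 0 ≤ 2 * A / (D : ℝ) ^ 2 + κ := by positivity
  have h4 := mul_le_mul_of_nonneg_left h3 hc
  simp only [sum_add_distrib, ← mul_sum]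
  rw [h.sum_sum_ball]
  have e : ∑ x, ∑ y, p (x - y) * (F x - F y) ^ 2 = 2 * NF p F := by rw [NF]; ring
  rw [e]
  nlinarith

/-- choice of a good point near each centre of a separated family -/
theorem NG.select (h : NG nm) (C : Finset T) (r : ℕ)
    (hC : ∀ c ∈ C, ∀ c' ∈ C, c ≠ c' → 2 * r < nm (c - c')) {g : T → ℝ} (hg : ∀ q, 0 ≤ g q) :
    ∃ π : T → T, (∀ c, π c ∈ ball nm c r) ∧ vol nm r * ∑ c ∈ C, g (π c) ≤ ∑ q, g q := by
  classical
  choose π hπ hm using fun c => exists_min_image (ball nm c r) g ⟨c, h.self_mem c r⟩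
  refine ⟨π, hπ, ?_⟩
  have hd : (C : Set T).PairwiseDisjoint fun c => ball nm c r := by
    intro c hc c' hc' hne
    refine disjoint_left.2 fun x hx hx' => ?_
    have h1 := hC c hc c' hc' hne
    have h2 := h.tri c x c'
    have h3 := mem_ball.1 (h.mem_ball_comm.1 hx)
    have h4 := mem_ball.1 hx'
    omega
  calc vol nm r * ∑ c ∈ C, g (π c) = ∑ c ∈ C, ∑ _q ∈ ball nm c r, g (π c) := by
        rw [mul_sum]
        exact sum_congr rfl fun c _ => by rw [sum_const, card_ball, nsmul_eq_mul]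
    _ ≤ ∑ c ∈ C, ∑ q ∈ ball nm c r, g q :=
        sum_le_sum fun c _ => sum_le_sum fun q hq => hm c q hq
    _ = ∑ q ∈ C.biUnion fun c => ball nm c r, g q := (sum_biUnion hd).symm
    _ ≤ ∑ q, g q := sum_le_sum_of_subset_of_nonneg (subset_univ _) fun q _ _ => hg q

end Pool.Agent.P.MP_d0f69c_mp.XS
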