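import Pool.Agent.P.MP_d0f69c_mp.XS.IfFlow

/-!
Estimates behind the monitor of the fourth powers.
-/

set_option autoImplicit false

open Finset Real

namespace Pool.Agent.P.MP_d0f69c_mp.XS

namespace M2A

variable {ι : Type}

theorem pow4 (α β s : ℂ) (hs : ‖s‖ ≤ 11 / 10) : ‖α - s * β‖ ^ 4 ≤ ‖α‖ ^ 4 + lin4 α β s +
    (13 * (‖α‖ ^ 2 * ‖β‖ ^ 2) + 3 * ‖β‖ ^ 4) := by
  set w := s * β with hw
  set r := ((starRingEnd ℂ) α * w).re with hr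
  have e1 : ‖α - w‖ ^ 2 = ‖α‖ ^ 2 - 2 * r + ‖w‖ ^ 2 := by
    simp only [hr, Complex.sq_norm, Complex.normSq_apply, Complex.sub_re, Complex.sub_im,
      Complex.mul_re, Complex.conj_re, Complex.conj_im]; ring
  have e2 : |r| ≤ ‖α‖ * ‖w‖ := by
    have := Complex.abs_re_le_norm ((starRingEnd ℂ) α * w)
    rwa [norm_mul, Complex.norm_conj] at this
  have e3 : r ^ 2 ≤ ‖α‖ ^ 2 * ‖w‖ ^ 2 := by
    have := pow_le_pow_left₀ (abs_nonneg _) e2 2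
    rwa [sq_abs, mul_pow] at this
  have e4 : ‖w‖ ^ 2 ≤ 121 / 100 * ‖β‖ ^ 2 := by
    rw [hw, norm_mul, mul_pow]
    exact mul_le_mul_of_nonneg_right ((pow_le_pow_left₀ (norm_nonneg _) hs 2).trans_eq
      (by norm_num)) (sq_nonneg _)
  have e5 : ‖α - w‖ ^ 4 = (‖α - w‖ ^ 2) ^ 2 := by ring
  have e6 := mul_le_mul_of_nonneg_left e4 (sq_nonneg ‖α‖)
  have e7 := pow_le_pow_left₀ (sq_nonneg _) e4 2
  have e8 : ‖β‖ ^ 4 = (‖β‖ ^ 2) ^ 2 := by ring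
  have e0 : ‖α‖ ^ 4 = (‖α‖ ^ 2) ^ 2 := by ring
  rw [e5, e1, lin4, ← hw, ← hr, e8, e0]
  nlinarith [sq_nonneg (2 * r + ‖w‖ ^ 2), mul_nonneg (sq_nonneg ‖α‖) (sq_nonneg ‖β‖),
    sq_nonneg (‖β‖ ^ 2)]

theorem young {a b ε : ℝ} (ha : 0 ≤ a) (hb : 0 ≤ b) (hε : 0 < ε) :
    a ^ 3 * b ≤ ε * a ^ 4 + b ^ 4 / ε ^ 3 := by
  rcases le_total b (ε * a) with h | h
  · have h1 := mul_le_mul_of_nonneg_left h (pow_nonneg ha 3)
    have h2 : 0 ≤ b ^ 4 / ε ^ 3 := by positivity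
    linarith
  · have h1 : a ^ 3 * b ≤ b ^ 4 / ε ^ 3 := by
      rw [le_div_iff₀ (by positivity)]
      have := mul_le_mul_of_nonneg_right (pow_le_pow_left₀ (by positivity) h 3) hb
      linarith
    have h2 : 0 ≤ ε * a ^ 4 := by positivity
    linarith

theorem opsq {C : Finset ι} {K : ι → ι → ℂ} {Λ : ℝ} (h : OpLe C K Λ) (u : ι → ℂ) :
    ∑ y ∈ C, ‖∑ v ∈ C, K y v * u v‖ ^ 2 ≤ Λ ^ 2 * ∑ v ∈ C, ‖u v‖ ^ 2 := by
  have h1 := pow_le_pow_left₀ (nS_nonneg _ _) (h u) 2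
  rwa [mul_pow, nS_sq, nS_sq] at h1

variable [DecidableEq ι]

/-- the same for a vector supported in a subset -/
theorem opsq' {A C : Finset ι} {K : ι → ι → ℂ} {Λ : ℝ} (h : OpLe C K Λ) (hA : A ⊆ C) (u : ι → ℂ) :
    ∑ y ∈ C, ‖∑ v ∈ A, K y v * u v‖ ^ 2 ≤ Λ ^ 2 * ∑ v ∈ A, ‖u v‖ ^ 2 := by
  have h1 := opsq h fun v => if v ∈ A then u v else 0
  simpa only [mul_ite, mul_zero, sum_ite_mem, inter_eq_right.2 hA, apply_ite norm, norm_zero,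
    ite_pow, zero_pow two_ne_zero] using h1

/-- the kernel without its diagonal -/
def od (G : ι → ι → ℂ) (x y : ι) : ℂ := if x = y then 0 else G x y

theorem od_sum (G : ι → ι → ℂ) (D : Finset ι) (v : ι) {V : Type} [AddCommMonoid V]
    (F : ι → ℂ → V) (h0 : ∀ y, F y 0 = 0) :
    ∑ y ∈ D, F y (od G v y) = ∑ y ∈ D.erase v, F y (G v y) := by
  rw [← sum_subset (erase_subset v D) fun y hy hn => by
    have : v = y := by
      by_contra h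
      exact hn (mem_erase.2 ⟨fun e => h e.symm, hy⟩)
    rw [od, if_pos this, h0]]
  exact sum_congr rfl fun y hy => by rw [od, if_neg (mem_erase.1 hy).1.symm]

theorem od_op {C O : Finset ι} {G : ι → ι → ℂ} {Λ : ℝ} (h : OpLe O G Λ) (hC : C ⊆ O)
    (hd : ∀ x ∈ C, ‖G x x‖ ≤ 1) : OpLe C (od G) (Λ + 1) := fun u => by
  have h1 := opsq' h hC u
  have hΛ : 0 ≤ Λ * nS C u := by
    have := (nS_nonneg _ _).trans (h fun v => if v ∈ C then u v else 0)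
    refine this.trans_eq ?_
    congr 1
    unfold nS
    simp only [apply_ite norm, norm_zero, ite_pow, zero_pow two_ne_zero, sum_ite_mem,
      inter_eq_right.2 hC]
  have h2 : nS C (ap C G u) ≤ Λ * nS C u := by
    refine le_of_sq_le_sq ?_ hΛ
    rw [mul_pow, nS_sq, nS_sq]
    exact (sum_le_sum_of_subset_of_nonneg hC fun _ _ _ => sq_nonneg _).trans h1
  have h3 : nS C (fun x => G x x * u x) ≤ nS C u :=
    sqrt_le_sqrt (sum_le_sum fun x hx => pow_le_pow_left₀ (norm_nonneg _) (by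
      rw [norm_mul]; exact mul_le_of_le_one_left (norm_nonneg _) (hd x hx)) 2)
  have h4 : nS C (ap C (od G) u) = nS C (ap C G u - fun x => G x x * u x) :=
    nS_congr fun x hx => by
      rw [Pi.sub_apply, ap, ap, od_sum G C x (fun y g => g * u y) fun y => zero_mul _,
        ← add_sum_erase _ _ hx]
      ring
  rw [h4]
  linarith [nS_sub C (ap C G u) fun x => G x x * u x]

variable {A C D : Finset ι} {K : ι → ι → ℂ} {α : ι → ℂ} {ρ : ι → ℝ} {Λ N R m : ℝ}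

/-- the drift that comes from the mismatch -/
theorem lin_drift (hA : A ⊆ C) (hD : D ⊆ C) (hs : ∀ x y, K x y = K y x) (hop : OpLe C K Λ)
    (hrow : ∀ y ∈ C, ∑ v ∈ C, ‖K y v‖ ^ 2 ≤ 2) (hα : ∑ v ∈ A, ‖α v‖ ^ 2 ≤ 2)
    (h4 : ∑ y ∈ D, ‖α y‖ ^ 4 ≤ N) (hρ : ∀ y, 0 ≤ ρ y ∧ ρ y ≤ R) (hR : 0 ≤ R) {e : ι → ℂ}
    (he : ∀ v ∈ A, ‖e v‖ ≤ m) (hm : 0 ≤ m) {ε : ℝ} (hε : 0 < ε) :
    ∑ v ∈ A, ∑ y ∈ D, ρ y * lin4 (α y) (α v * K v y) (e v) ≤
      4 * R * (ε * N + 8 * m ^ 4 * Λ ^ 2 / ε ^ 3) := by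
  set B : ι → ℂ := fun y => ∑ v ∈ A, K y v * (e v * α v) with hB
  have b1 : ∀ y ∈ C, ‖B y‖ ≤ 2 * m := fun y hy => by
    refine (norm_sum_le _ _).trans ((sum_le_sum (g := fun v => m / 2 * (‖K y v‖ ^ 2 + ‖α v‖ ^ 2))
      fun v hv => ?_).trans ?_)
    · rw [norm_mul, norm_mul]
      have a1 := mul_le_mul_of_nonneg_right (he v hv) (mul_nonneg (norm_nonneg (K y v))
        (norm_nonneg (α v)))
      nlinarith [mul_nonneg hm (sq_nonneg (‖K y v‖ - ‖α v‖))]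
    · rw [← mul_sum, sum_add_distrib]
      have a1 := (sum_le_sum_of_subset_of_nonneg hA fun _ _ _ => sq_nonneg _).trans (hrow y hy)
      nlinarith
  have b2 : ∑ y ∈ C, ‖B y‖ ^ 2 ≤ Λ ^ 2 * (m ^ 2 * 2) := by
    refine (opsq' hop hA fun v => e v * α v).trans (mul_le_mul_of_nonneg_left ?_ (sq_nonneg _))
    refine le_trans (sum_le_sum fun v hv => ?_) ((mul_sum _ _ _).symm.trans_le
      (mul_le_mul_of_nonneg_left hα (sq_nonneg m)))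
    rw [norm_mul, mul_pow]
    exact mul_le_mul_of_nonneg_right (pow_le_pow_left₀ (norm_nonneg _) (he v hv) 2) (sq_nonneg _)
  have b3 : ∑ y ∈ D, ‖B y‖ ^ 4 ≤ 8 * m ^ 4 * Λ ^ 2 := by
    refine (sum_le_sum_of_subset_of_nonneg hD fun _ _ _ => by positivity).trans
      ((sum_le_sum (g := fun y => (2 * m) ^ 2 * ‖B y‖ ^ 2) fun y hy => ?_).trans ?_)
    · rw [show ‖B y‖ ^ 4 = ‖B y‖ ^ 2 * ‖B y‖ ^ 2 by ring]
      exact mul_le_mul_of_nonneg_right (pow_le_pow_left₀ (norm_nonneg _) (b1 y hy) 2) (sq_nonneg _)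
    · rw [← mul_sum]
      exact (mul_le_mul_of_nonneg_left b2 (sq_nonneg _)).trans_eq (by ring)
  have b4 : ∀ y, ∑ v ∈ A, ρ y * lin4 (α y) (α v * K v y) (e v) ≤
      4 * R * (ε * ‖α y‖ ^ 4 + ‖B y‖ ^ 4 / ε ^ 3) := fun y => by
    have a1 : ∑ v ∈ A, lin4 (α y) (α v * K v y) (e v) = lin4 (α y) (B y) 1 := by
      simp only [lin4, hB, ← mul_sum, one_mul]
      rw [← Complex.re_sum, ← mul_sum]
      congr 3
      exact sum_congr rfl fun v _ => by rw [hs v y]; ring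
    have a2 : lin4 (α y) (B y) 1 ≤ 4 * (‖α y‖ ^ 3 * ‖B y‖) := by
      have a3 := Complex.abs_re_le_norm ((starRingEnd ℂ) (α y) * (1 * B y))
      rw [norm_mul, Complex.norm_conj, one_mul] at a3
      have a4 := mul_le_mul_of_nonneg_left ((neg_le_abs _).trans a3) (sq_nonneg ‖α y‖)
      rw [lin4, one_mul]
      linarith
    have a5 := young (norm_nonneg (α y)) (norm_nonneg (B y)) hε
    have a6 : 0 ≤ ε * ‖α y‖ ^ 4 + ‖B y‖ ^ 4 / ε ^ 3 := by positivity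
    rw [← mul_sum, a1]
    have a7 := mul_le_mul_of_nonneg_left (a2.trans (mul_le_mul_of_nonneg_left a5 (by norm_num)))
      (hρ y).1
    have a8 := mul_le_mul_of_nonneg_right (hρ y).2 a6
    linarith
  rw [sum_comm]
  refine (sum_le_sum fun y _ => b4 y).trans ?_
  rw [← mul_sum, sum_add_distrib, ← mul_sum, ← sum_div]
  gcongr

/-- the variation of the linear term, by the split into heavy and light sites -/
theorem qv (hA : A ⊆ C) (hD : D ⊆ C) (hs : ∀ x y, K x y = K y x) (hop : OpLe C K Λ)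
    (hK : ∀ v ∈ C, ∑ y ∈ C, ‖K v y‖ ^ 4 ≤ N) (h4 : ∑ y ∈ A, ‖α y‖ ^ 4 ≤ N)
    (h4' : ∑ y ∈ D, ‖α y‖ ^ 4 ≤ N) (hR : 0 ≤ R) {w : ι → ℂ} (hw : ∀ y, ‖w y‖ ≤ R * ‖α y‖ ^ 3)
    (hm : 0 < m) : ∑ v ∈ A, ‖α v‖ ^ 2 * ‖∑ y ∈ D, K v y * w y‖ ^ 2 ≤
      R ^ 2 * (10 * N ^ 3 / m + 2 * Λ ^ 2 * m ^ 2 * N) := by
  have N0 : 0 ≤ N := (sum_nonneg fun _ _ => by positivity).trans h4
  set H := D.filter fun y => m < ‖α y‖ ^ 2 with hH
  set L := D.filter fun y => ¬ m < ‖α y‖ ^ 2 with hL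
  have HD : H ⊆ D := filter_subset _ _
  have LD : L ⊆ D := filter_subset _ _
  have s4 : ∀ U ⊆ D, ∑ y ∈ U, ‖α y‖ ^ 4 ≤ N := fun U hU =>
    (sum_le_sum_of_subset_of_nonneg hU fun _ _ _ => by positivity).trans h4'
  have k4 : ∀ U ⊆ C, ∀ v ∈ C, ∑ y ∈ U, ‖K v y‖ ^ 4 ≤ N := fun U hU v hv =>
    (sum_le_sum_of_subset_of_nonneg hU fun _ _ _ => by positivity).trans (hK v hv)
  have n1 : ∀ (U : Finset ι) v, ‖∑ y ∈ U, K v y * w y‖ ≤ R * ∑ y ∈ U, ‖α y‖ ^ 3 * ‖K v y‖ :=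
    fun U v => (norm_sum_le _ _).trans ((sum_le_sum fun y _ => by
      rw [norm_mul, mul_comm, ← mul_assoc]
      exact mul_le_mul_of_nonneg_right (hw y) (norm_nonneg _)).trans_eq (mul_sum _ _ _).symm)
  have a1 : ∀ v, ‖∑ y ∈ H, K v y * w y‖ ^ 2 ≤ R ^ 2 * N * ∑ y ∈ H, ‖α y‖ ^ 2 * ‖K v y‖ ^ 2 := by
    intro v
    refine (pow_le_pow_left₀ (norm_nonneg _) (n1 H v) 2).trans ?_
    rw [mul_pow, mul_assoc]
    refine mul_le_mul_of_nonneg_left ((sum_sq_le_sum_mul_sum_of_sq_le_mul H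
      (f := fun y => ‖α y‖ ^ 4) (g := fun y => ‖α y‖ ^ 2 * ‖K v y‖ ^ 2) (fun _ _ => by positivity)
      (fun _ _ => by positivity) fun y _ => le_of_eq (by ring)).trans ?_) (sq_nonneg _)
    exact mul_le_mul_of_nonneg_right (s4 H HD) (sum_nonneg fun _ _ => by positivity)
  have a2 : ∑ y ∈ H, ‖α y‖ ^ 2 ≤ N / m := by
    rw [le_div_iff₀ hm, sum_mul]
    refine le_trans (sum_le_sum fun y hy => ?_) (s4 H HD)
    have := mul_le_mul_of_nonneg_left (mem_filter.1 hy).2.le (sq_nonneg ‖α y‖)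
    linarith
  have a3 : ∑ v ∈ A, ‖α v‖ ^ 2 * ∑ y ∈ H, ‖α y‖ ^ 2 * ‖K v y‖ ^ 2 ≤ N / m * N := by
    simp only [mul_sum]
    rw [sum_comm]
    refine le_trans (sum_le_sum (g := fun y => ‖α y‖ ^ 2 * N) fun y hy => ?_)
      ((sum_mul _ _ _).symm.trans_le (mul_le_mul_of_nonneg_right a2 N0))
    refine le_trans (sum_le_sum (g := fun v => ‖α y‖ ^ 2 * ((‖α v‖ ^ 4 + ‖K y v‖ ^ 4) / 2))
      fun v _ => ?_) ?_
    · rw [hs v y]
      have := mul_nonneg (sq_nonneg ‖α y‖) (sq_nonneg (‖α v‖ ^ 2 - ‖K y v‖ ^ 2))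
      linarith
    · rw [← mul_sum, ← sum_div, sum_add_distrib]
      exact mul_le_mul_of_nonneg_left (by linarith [k4 A hA y (hD (HD hy))]) (sq_nonneg _)
  have a4 : ∑ v ∈ A, ‖α v‖ ^ 2 * ‖∑ y ∈ H, K v y * w y‖ ^ 2 ≤ R ^ 2 * N * (N / m * N) := by
    refine le_trans (sum_le_sum fun v _ => ?_) ((mul_sum _ _ _).symm.trans_le
      (mul_le_mul_of_nonneg_left a3 (by positivity)))
    rw [mul_left_comm]
    exact mul_le_mul_of_nonneg_left (a1 v) (sq_nonneg _)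
  have c1 : ∀ v ∈ A, ‖∑ y ∈ L, K v y * w y‖ ^ 2 ≤ (R * (N + N)) ^ 2 := fun v hv => by
    refine pow_le_pow_left₀ (norm_nonneg _) ((n1 L v).trans (mul_le_mul_of_nonneg_left ?_ hR)) 2
    refine (sum_le_sum (g := fun y => ‖α y‖ ^ 4 + ‖K v y‖ ^ 4) fun y _ => ?_).trans ?_
    · simpa using young (norm_nonneg (α y)) (norm_nonneg (K v y)) one_pos
    · rw [sum_add_distrib]
      exact add_le_add (s4 L LD) (k4 L (LD.trans hD) v (hA hv))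
  have c2 : ∑ v ∈ A, ‖∑ y ∈ L, K v y * w y‖ ^ 2 ≤ Λ ^ 2 * (R ^ 2 * m * N) := by
    refine (sum_le_sum_of_subset_of_nonneg hA fun _ _ _ => sq_nonneg _).trans
      ((opsq' hop (LD.trans hD) w).trans (mul_le_mul_of_nonneg_left ?_ (sq_nonneg _)))
    refine le_trans (sum_le_sum fun y hy => ?_) ((mul_sum _ _ _).symm.trans_le
      (mul_le_mul_of_nonneg_left (s4 L LD) (by positivity)))
    refine (pow_le_pow_left₀ (norm_nonneg _) (hw y) 2).trans ?_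
    have := mul_le_mul_of_nonneg_left (not_lt.1 (mem_filter.1 hy).2)
      (by positivity : 0 ≤ R ^ 2 * ‖α y‖ ^ 4)
    linarith
  have c3 : ∑ v ∈ A, ‖α v‖ ^ 2 * ‖∑ y ∈ L, K v y * w y‖ ^ 2 ≤
      m * (Λ ^ 2 * (R ^ 2 * m * N)) + (R * (N + N)) ^ 2 / m * N := by
    refine le_trans (sum_le_sum (g := fun v => m * ‖∑ y ∈ L, K v y * w y‖ ^ 2 +
      (R * (N + N)) ^ 2 / m * ‖α v‖ ^ 4) fun v hv => ?_) ?_
    · have d1 := mul_le_mul_of_nonneg_right (le_split (a := ‖α v‖ ^ 2) hm)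
        (sq_nonneg ‖∑ y ∈ L, K v y * w y‖)
      have d2 := mul_le_mul_of_nonneg_left (c1 v hv) (by positivity : 0 ≤ (‖α v‖ ^ 2) ^ 2 / m)
      have d3 : (‖α v‖ ^ 2) ^ 2 / m * (R * (N + N)) ^ 2 = (R * (N + N)) ^ 2 / m * ‖α v‖ ^ 4 := by
        ring
      linarith
    · rw [sum_add_distrib, ← mul_sum, ← mul_sum]
      gcongr
  refine le_trans (sum_le_sum (g := fun v => 2 * (‖α v‖ ^ 2 * ‖∑ y ∈ H, K v y * w y‖ ^ 2) +
    2 * (‖α v‖ ^ 2 * ‖∑ y ∈ L, K v y * w y‖ ^ 2)) fun v _ => ?_) ?_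
  · rw [← sum_filter_add_sum_filter_not D fun y => m < ‖α y‖ ^ 2]
    have d1 := pow_le_pow_left₀ (norm_nonneg _)
      (norm_add_le (∑ y ∈ H, K v y * w y) (∑ y ∈ L, K v y * w y)) 2
    have d2 := sq_nonneg (‖∑ y ∈ H, K v y * w y‖ - ‖∑ y ∈ L, K v y * w y‖)
    have d3 := mul_le_mul_of_nonneg_left (show ‖∑ y ∈ H, K v y * w y + ∑ y ∈ L, K v y * w y‖ ^ 2 ≤
      2 * ‖∑ y ∈ H, K v y * w y‖ ^ 2 + 2 * ‖∑ y ∈ L, K v y * w y‖ ^ 2 by linarith)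
      (sq_nonneg ‖α v‖)
    linarith
  · rw [sum_add_distrib, ← mul_sum, ← mul_sum]
    refine (add_le_add (mul_le_mul_of_nonneg_left a4 zero_le_two)
      (mul_le_mul_of_nonneg_left c3 zero_le_two)).trans_eq ?_
    ring

end M2A

end Pool.Agent.P.MP_d0f69c_mp.XS
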