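import Pool.Agent.P.MP_d0f69c_mp.XS.M2A

/-!
One step of the monitor of the fourth powers, and the numbers.
-/

set_option autoImplicit false

open Finset Real

namespace Pool.Agent.P.MP_d0f69c_mp.XS

namespace M2A

/-- from drift and variation to the exponential moment -/
theorem fin {V : Type} (s : Finset V) {Y z : V → Bool → ℝ} {z0 l : ℝ} (hl : 0 ≤ l)
    (h : ∀ v ∈ s, ∀ b, z v b ≤ z0 + Y v b)
    (hd : l * ∑ v ∈ s, (Y v true + Y v false) / 2 ≤ 1 / 2)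
    (hq : ∀ b, l ^ 2 * ∑ v ∈ s, Y v b ^ 2 ≤ 1 / 2) :
    ∑ v ∈ s, ((exp (l * z v true) + exp (l * z v false)) / 2 - exp (l * z0)) ≤ exp (l * z0) := by
  have h1 : ∀ v ∈ s, ∀ b, exp (l * z v b) ≤ exp (l * z0) * (1 + l * Y v b + l ^ 2 * Y v b ^ 2) := by
    intro v hv b
    have a1 : (l * Y v b) ^ 2 ≤ 1 ^ 2 := by
      have := mul_le_mul_of_nonneg_left (single_le_sum (f := fun v => Y v b ^ 2)
        (fun _ _ => sq_nonneg _) hv) (sq_nonneg l)
      rw [mul_pow]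
      linarith [hq b]
    have a2 := (abs_le.1 (abs_exp_sub_one_sub_id_le (abs_le.2 (abs_le_of_sq_le_sq' a1
      zero_le_one)))).2
    calc exp (l * z v b) ≤ exp (l * z0 + l * Y v b) :=
          exp_le_exp.2 (by rw [← mul_add]; exact mul_le_mul_of_nonneg_left (h v hv b) hl)
      _ = exp (l * z0) * exp (l * Y v b) := exp_add _ _
      _ ≤ _ := mul_le_mul_of_nonneg_left (by rw [mul_pow] at a2; linarith) (exp_pos _).le
  refine le_trans (sum_le_sum (g := fun v => exp (l * z0) * (l * ((Y v true + Y v false) / 2) +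
    (l ^ 2 * Y v true ^ 2 + l ^ 2 * Y v false ^ 2) / 2)) fun v hv => by
      linarith [h1 v hv true, h1 v hv false]) ?_
  rw [← mul_sum, sum_add_distrib, ← mul_sum,
    ← sum_div (f := fun v => l ^ 2 * Y v true ^ 2 + l ^ 2 * Y v false ^ 2), sum_add_distrib,
    ← mul_sum, ← mul_sum]
  exact mul_le_of_le_one_right (exp_pos _).le (by linarith [hq true, hq false])

theorem sqrt_tan {a s : ℝ} (ha : 0 ≤ a) (hs : 0 < s) : √a ≤ s + (a - s ^ 2) / (2 * s) := by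
  have h1 : s + (a - s ^ 2) / (2 * s) = (a + s ^ 2) / (2 * s) := by field_simp; ring
  rw [h1, le_div_iff₀ (by positivity)]
  nlinarith [sq_nonneg (√a - s), sq_sqrt ha]

variable {ι : Type} [DecidableEq ι]

/-- the change of one fourth power -/
noncomputable def chg (K : ι → ι → ℂ) (x v : ι) (τ : ℂ) (y : ι) : ℝ :=
  lin4 (K x y) (K x v * K v y) τ +
    (13 * (‖K x y‖ ^ 2 * ‖K x v * K v y‖ ^ 2) + 3 * ‖K x v * K v y‖ ^ 4)

theorem chg_sum (G : ι → ι → ℂ) {x v : ι} (hv : v ≠ x) {τ : ℂ} (hτ : ‖τ‖ ≤ 11 / 10) {U : Finset ι}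
    (hU : v ∉ U) : ∑ y ∈ U.erase x, ‖G x y - τ * (G x v * G v y)‖ ^ 4 ≤
      ∑ y ∈ U, ‖od G x y‖ ^ 4 + ∑ y ∈ U, chg (od G) x v τ y := by
  have h1 : ∀ y, ‖od G x y - τ * (od G x v * od G v y)‖ ^ 4 ≤
      ‖od G x y‖ ^ 4 + chg (od G) x v τ y := fun y => by
    have := pow4 (od G x y) (od G x v * od G v y) τ hτ
    rw [chg]; linarith
  rw [← sum_add_distrib]
  refine le_trans (sum_le_sum fun y hy => ?_) (sum_le_sum_of_subset_of_nonneg (erase_subset x U)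
    fun y _ _ => le_trans (by positivity) (h1 y))
  have a1 : v ≠ y := fun e => hU (e ▸ mem_of_mem_erase hy)
  refine le_trans (le_of_eq ?_) (h1 y)
  rw [od, od, od, if_neg (mem_erase.1 hy).1.symm, if_neg hv.symm, if_neg a1]

theorem od4 (G : ι → ι → ℂ) (U : Finset ι) (x : ι) {k : ℕ} (hk : k ≠ 0) :
    ∑ y ∈ U, ‖od G x y‖ ^ k = ∑ y ∈ U.erase x, ‖G x y‖ ^ k :=
  od_sum G U x (fun _ g => ‖g‖ ^ k) fun _ => by simp [hk]

theorem sum_two {rem Sg : Finset ι} (h : Disjoint rem Sg) (a b : ℝ) (f : ι → ℝ) :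
    ∑ y ∈ rem ∪ Sg, (if y ∈ rem then a else b) * f y = a * ∑ y ∈ rem, f y + b * ∑ y ∈ Sg, f y := by
  rw [sum_union h, mul_sum, mul_sum]
  congr 1
  · exact sum_congr rfl fun y hy => by rw [if_pos hy]
  · exact sum_congr rfl fun y hy => by rw [if_neg (disjoint_right.1 h hy)]

/-- the tangent bound for the monitor after one closing -/
theorem step {P n s : ℝ} {G : ι → ι → ℂ} {rem Sg : Finset ι} {x v : ι} {τ : ℂ} (hn : 0 < n)
    (hP : 0 < P) (h : Disjoint rem Sg) (hv : v ∈ rem.erase x) (hτ : ‖τ‖ ≤ 11 / 10)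
    (hs : s = √(n * (∑ y ∈ rem.erase x, ‖G x y‖ ^ 4 + n / P ^ 8))) :
    q2 P n (fun a b => G a b - τ * (G a v * G v b)) (rem.erase v) Sg x ≤ q2 P n G rem Sg x +
      (∑ y ∈ rem ∪ Sg, (if y ∈ rem then n / (200 * s) else 1) * chg (od G) x v τ y -
        n / (200 * s) * ‖od G x v‖ ^ 4) := by
  obtain ⟨v1, v2⟩ := mem_erase.1 hv
  have u0 : 0 < n * (∑ y ∈ rem.erase x, ‖G x y‖ ^ 4 + n / P ^ 8) := by positivity
  have s0 : 0 < s := hs ▸ sqrt_pos.2 u0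
  have s2 : s ^ 2 = n * (∑ y ∈ rem.erase x, ‖G x y‖ ^ 4 + n / P ^ 8) := hs ▸ sq_sqrt u0.le
  have a1 := chg_sum G v1 hτ (disjoint_left.1 h v2)
  have a2 := chg_sum G v1 hτ (notMem_erase v rem)
  have a3 : chg (od G) x v τ v = 0 := by simp [chg, od, lin4]
  rw [← sub_eq_iff_eq_add'.2 (add_sum_erase _ (fun y => ‖od G x y‖ ^ 4) v2).symm,
    ← sub_eq_iff_eq_add'.2 (add_sum_erase _ (chg (od G) x v τ) v2).symm, a3,
    od4 G rem x four_ne_zero] at a2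
  rw [od4 G Sg x four_ne_zero] at a1
  have a4 := sqrt_tan (s := s) (a := n * (∑ y ∈ (rem.erase v).erase x,
    ‖G x y - τ * (G x v * G v y)‖ ^ 4 + n / P ^ 8)) (by positivity) s0
  have a5 := mul_le_mul_of_nonneg_left a2 (by positivity : 0 ≤ n / (200 * s))
  rw [s2, ← mul_sub, add_sub_add_right_eq_sub] at a4
  rw [sum_two h, q2, q2, ← hs]
  generalize ∑ y ∈ (rem.erase v).erase x, ‖G x y - τ * (G x v * G v y)‖ ^ 4 = X at *
  generalize ∑ y ∈ rem.erase x, ‖G x y‖ ^ 4 = Z at *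
  have a6 : n * (X - Z) / (2 * s) / 100 = n / (200 * s) * X - n / (200 * s) * Z := by
    field_simp; ring
  linarith

/-! ### numbers -/

variable {P c : ℝ}

omit [DecidableEq ι] in
theorem dv (hP : 10 ^ 9 ≤ P) {a b k : ℕ} (hc : c ≤ 10 ^ 9) (h : a + k < b) :
    c * (P ^ a / P ^ b) ≤ 1 / P ^ k := by
  have h1 : 1 ≤ P := le_trans (by norm_num) hP
  have h0 : 0 < P := one_pos.trans_le h1
  rw [← mul_div_assoc, div_le_div_iff₀ (by positivity) (by positivity), one_mul, mul_assoc,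
    ← pow_add]
  calc c * P ^ (a + k) ≤ P * P ^ (a + k) := mul_le_mul_of_nonneg_right (hc.trans hP) (by positivity)
    _ = P ^ (a + k + 1) := by ring
    _ ≤ _ := pow_le_pow_right₀ h1 h

theorem num1 {μ r η mb n : ℝ} (hP : 10 ^ 9 ≤ P) (h0 : 0 < μ) (hr : μ ≤ r) (hη : 0 < η)
    (hn : n = P ^ 20 * r ^ 2) (hm : mb = 40 * μ * P ^ 39) (hm' : mb ≤ η / P ^ 160) :
    4 * P ^ 4 * (1 / P ^ 9 * (26 * n) + 8 * (3 * mb) ^ 4 * (3 / η) ^ 2 / (1 / P ^ 9) ^ 3) ≤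
      n / P ^ 4 := by
  have P0 : 0 < P := lt_of_lt_of_le (by norm_num) hP
  have n0 : 0 ≤ n := by rw [hn]; positivity
  have m0 : 0 ≤ mb := by rw [hm]; positivity
  have a1 : mb ^ 2 ≤ 1600 * P ^ 58 * n := by
    have := mul_le_mul_of_nonneg_left (pow_le_pow_left₀ h0.le hr 2)
      (by positivity : 0 ≤ 1600 * P ^ 78)
    rw [hm, hn]; linarith
  have a2 : (mb / η) ^ 2 ≤ (1 / P ^ 160) ^ 2 := pow_le_pow_left₀ (by positivity) (by
    rw [div_le_iff₀ hη]; exact hm'.trans_eq (by ring)) 2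
  have a3 := mul_le_mul_of_nonneg_left (mul_le_mul a1 a2 (sq_nonneg _) (by positivity))
    (by positivity : 0 ≤ 23328 * P ^ 31)
  have a4 := mul_le_mul_of_nonneg_right (dv hP (c := 208) (a := 4) (b := 9) (k := 4)
    (by norm_num) (by norm_num)) n0
  have a5 := mul_le_mul_of_nonneg_right (dv hP (c := 2 * 23328 * 1600) (a := 89) (b := 320) (k := 4)
    (by norm_num) (by norm_num)) n0
  have e1 : 4 * P ^ 4 * (1 / P ^ 9 * (26 * n) + 8 * (3 * mb) ^ 4 * (3 / η) ^ 2 / (1 / P ^ 9) ^ 3) =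
      104 * (P ^ 4 / P ^ 9) * n + 23328 * P ^ 31 * (mb ^ 2 * (mb / η) ^ 2) := by
    field_simp; ring
  have e2 : 23328 * P ^ 31 * (1600 * P ^ 58 * n * (1 / P ^ 160) ^ 2) =
      23328 * 1600 * (P ^ 89 / P ^ 320) * n := by field_simp
  have e3 : n / P ^ 4 = 1 / P ^ 4 * n := by ring
  linarith

theorem num2 {η n : ℝ} (hP : 10 ^ 9 ≤ P) (hη : 0 < η) (n0 : 0 < n) (hn : n ≤ η ^ 2 / P ^ 380) :
    20 * ((P ^ 4) ^ 2 * (10 * (26 * n) ^ 3 / (n * P ^ 40) +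
      2 * (3 / η) ^ 2 * (n * P ^ 40) ^ 2 * (26 * n))) ≤ n ^ 2 / P ^ 10 := by
  have P0 : 0 < P := lt_of_lt_of_le (by norm_num) hP
  have a1 : n / η ^ 2 ≤ 1 / P ^ 380 := by
    rw [div_le_iff₀ (by positivity)]; exact hn.trans_eq (by ring)
  have a3 := mul_le_mul_of_nonneg_left a1 (by positivity : 0 ≤ 9360 * P ^ 88 * n ^ 2)
  have a4 := mul_le_mul_of_nonneg_right (dv hP (c := 7030400) (a := 8) (b := 40) (k := 10)
    (by norm_num) (by norm_num)) (sq_nonneg n)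
  have a5 := mul_le_mul_of_nonneg_right (dv hP (c := 18720) (a := 88) (b := 380) (k := 10)
    (by norm_num) (by norm_num)) (sq_nonneg n)
  have e1 : 20 * ((P ^ 4) ^ 2 * (10 * (26 * n) ^ 3 / (n * P ^ 40) +
      2 * (3 / η) ^ 2 * (n * P ^ 40) ^ 2 * (26 * n))) =
      3515200 * (P ^ 8 / P ^ 40) * n ^ 2 + 9360 * P ^ 88 * n ^ 2 * (n / η ^ 2) := by
    field_simp; ring
  have e2 : 9360 * P ^ 88 * n ^ 2 * (1 / P ^ 380) = 9360 * (P ^ 88 / P ^ 380) * n ^ 2 := by ring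
  have e3 : n ^ 2 / P ^ 10 = 1 / P ^ 10 * n ^ 2 := by ring
  linarith

end M2A

end Pool.Agent.P.MP_d0f69c_mp.XS
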