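import Pool.Agent.P.MP_d0f69c_mp.XS.Pr
import Pool.Agent.P.MP_d0f69c_mp.XS.Num

/-!
Main theorem, part A: families of witnesses.
-/

set_option autoImplicit false

open Finset Real

namespace Pool.Agent.P.MP_d0f69c_mp.XS.Mn

section prob

variable {α : Type} [Fintype α]

open Classical in
theorem card_half {A : α → Prop} (h : pr (fun x => ¬ A x) ≤ 1 / 2) :
    Fintype.card α ≤ 2 * #{x | A x} := by
  rcases Nat.eq_zero_or_pos (Fintype.card α) with h0 | h0
  · omega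
  have h1 : (0 : ℝ) < Fintype.card α := by exact_mod_cast h0
  unfold pr at h
  rw [div_le_iff₀ h1] at h
  have h2 := card_filter_add_card_filter_not (s := (univ : Finset α)) A
  have h3 : ((#{x | A x} : ℕ) : ℝ) + (#{x | ¬ A x} : ℕ) = Fintype.card α := by exact_mod_cast h2
  have h4 : (Fintype.card α : ℝ) ≤ 2 * (#{x | A x} : ℕ) := by
    have h5 : ((#{x | ¬ A x} : ℕ) : ℝ) ≤ 1 / 2 * Fintype.card α := by
      refine le_trans (le_of_eq ?_) h
      congr
    linarith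
  exact_mod_cast h4

end prob

section wit

variable {Λ : Type} [DecidableEq Λ] {far : Λ → Λ → Prop} {w : Λ → ℝ}

/-- the event `A` of the set of labels forces one of finitely many separated families of labels
with the property `C`, of total weight at most `β` -/
def Wit (far : Λ → Λ → Prop) (w : Λ → ℝ) (A : Finset Λ → Prop) (C : Λ → Prop) (β : ℝ) : Prop :=
  ∃ W : Finset (Finset Λ), (∀ e, A e → ∃ L ∈ W, L ⊆ e) ∧
    (∀ L ∈ W, (∀ a ∈ L, C a) ∧ ∀ a ∈ L, ∀ b ∈ L, a ≠ b → far a b) ∧ ∑ L ∈ W, ∏ a ∈ L, w a ≤ β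

omit [DecidableEq Λ] in
theorem Wit.mono {A A' : Finset Λ → Prop} {C C' : Λ → Prop} {β β' : ℝ} (h : Wit far w A C β)
    (h1 : ∀ e, A' e → A e) (h2 : ∀ a, C a → C' a) (h3 : β ≤ β') : Wit far w A' C' β' := by
  obtain ⟨W, a, b, c⟩ := h
  exact ⟨W, fun e he => a e (h1 e he), fun L hL => ⟨fun x hx => h2 x ((b L hL).1 x hx),
    (b L hL).2⟩, c.trans h3⟩

omit [DecidableEq Λ] in
theorem Wit.nonneg (hw : ∀ a, 0 ≤ w a) {A : Finset Λ → Prop} {C : Λ → Prop} {β : ℝ}
    (h : Wit far w A C β) : 0 ≤ β := by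
  obtain ⟨W, -, -, c⟩ := h
  exact (sum_nonneg fun L _ => prod_nonneg fun a _ => hw a).trans c

omit [DecidableEq Λ] in
theorem Wit.single (a : Λ) : Wit far w (fun e => a ∈ e) (fun b => b = a) (w a) :=
  ⟨{{a}}, by simp, by simp +contextual, by simp⟩

theorem Wit.or (hw : ∀ a, 0 ≤ w a) {A B : Finset Λ → Prop} {C : Λ → Prop} {β γ : ℝ}
    (h : Wit far w A C β) (h' : Wit far w B C γ) :
    Wit far w (fun e => A e ∨ B e) C (β + γ) := by
  obtain ⟨W, a, b, c⟩ := h
  obtain ⟨W', a', b', c'⟩ := h'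
  refine ⟨W ∪ W', fun e he => ?_, fun L hL => (mem_union.1 hL).elim (b L) (b' L), ?_⟩
  · rcases he with he | he
    · obtain ⟨L, h1, h2⟩ := a e he
      exact ⟨L, mem_union_left _ h1, h2⟩
    · obtain ⟨L, h1, h2⟩ := a' e he
      exact ⟨L, mem_union_right _ h1, h2⟩
  · have h1 := sum_union_inter (s₁ := W) (s₂ := W') (f := fun L => ∏ a ∈ L, w a)
    have h2 : 0 ≤ ∑ L ∈ W ∩ W', ∏ a ∈ L, w a := sum_nonneg fun L _ => prod_nonneg fun a _ => hw a
    linarith

theorem Wit.ex (hw : ∀ a, 0 ≤ w a) {κ : Type} (I : Finset κ) {A : κ → Finset Λ → Prop}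
    {C : Λ → Prop} {β : κ → ℝ} (h : ∀ i ∈ I, Wit far w (A i) C (β i)) :
    Wit far w (fun e => ∃ i ∈ I, A i e) C (∑ i ∈ I, β i) := by
  classical
  induction I using Finset.induction_on with
  | empty => exact ⟨∅, by simp, by simp, by simp⟩
  | insert i I hi ih =>
    rw [sum_insert hi]
    exact ((h i (mem_insert_self _ _)).or hw
      (ih fun j hj => h j (mem_insert_of_mem hj))).mono (by simp) (fun _ h => h) le_rfl

theorem Wit.and (hw : ∀ a, 0 ≤ w a) (hs : ∀ a b, far a b → far b a) (hi : ∀ a, ¬ far a a)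
    {A B : Finset Λ → Prop} {C D : Λ → Prop} {β γ : ℝ} (h : Wit far w A C β)
    (h' : Wit far w B D γ) (hf : ∀ a b, C a → D b → far a b) :
    Wit far w (fun e => A e ∧ B e) (fun a => C a ∨ D a) (β * γ) := by
  have n1 := h.nonneg hw
  obtain ⟨W, a, b, c⟩ := h
  obtain ⟨W', a', b', c'⟩ := h'
  refine ⟨(W ×ˢ W').image fun p => p.1 ∪ p.2, fun e he => ?_, fun L hL => ?_, ?_⟩
  · obtain ⟨L, h1, h2⟩ := a e he.1
    obtain ⟨L', h3, h4⟩ := a' e he.2
    exact ⟨L ∪ L', mem_image.2 ⟨(L, L'), mem_product.2 ⟨h1, h3⟩, rfl⟩, union_subset h2 h4⟩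
  · obtain ⟨p, hp, rfl⟩ := mem_image.1 hL
    obtain ⟨h1, h2⟩ := b _ (mem_product.1 hp).1
    obtain ⟨h3, h4⟩ := b' _ (mem_product.1 hp).2
    refine ⟨fun x hx => (mem_union.1 hx).imp (h1 x) (h3 x), fun x hx y hy hxy => ?_⟩
    rcases mem_union.1 hx with hx | hx <;> rcases mem_union.1 hy with hy | hy
    · exact h2 x hx y hy hxy
    · exact hf _ _ (h1 x hx) (h3 y hy)
    · exact hs _ _ (hf _ _ (h1 y hy) (h3 x hx))
    · exact h4 x hx y hy hxy
  · refine (sum_image_le_of_nonneg fun L _ => prod_nonneg fun a _ => hw a).trans ?_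
    refine le_trans (le_of_eq ?_) (mul_le_mul c c'
      (sum_nonneg fun L _ => prod_nonneg fun a _ => hw a) n1)
    rw [sum_mul_sum, sum_product]
    refine sum_congr rfl fun L hL => sum_congr rfl fun L' hL' => prod_union ?_
    exact disjoint_left.2 fun x h1 h2 => hi x (hf _ _ ((b L hL).1 x h1) ((b' L' hL').1 x h2))

theorem Wit.all (hw : ∀ a, 0 ≤ w a) (hs : ∀ a b, far a b → far b a) (hi : ∀ a, ¬ far a a)
    {κ : Type} (I : Finset κ) {A : κ → Finset Λ → Prop} {C : κ → Λ → Prop} {β : ℝ}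
    (h : ∀ i ∈ I, Wit far w (A i) (C i) β)
    (hf : ∀ i ∈ I, ∀ j ∈ I, i ≠ j → ∀ a b, C i a → C j b → far a b) :
    Wit far w (fun e => ∀ i ∈ I, A i e) (fun a => ∃ i ∈ I, C i a) (β ^ I.card) := by
  classical
  induction I using Finset.induction_on with
  | empty => exact ⟨{∅}, by simp, by simp, by simp⟩
  | insert i I hI ih =>
    rw [card_insert_of_notMem hI, pow_succ']
    refine ((h i (mem_insert_self _ _)).and hw hs hi (ih (fun j hj => h j (mem_insert_of_mem hj))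
      fun j hj k hk => hf j (mem_insert_of_mem hj) k (mem_insert_of_mem hk)) ?_).mono (by simp)
      (by simp) le_rfl
    rintro a b ha ⟨j, hj, hb⟩
    exact hf i (mem_insert_self _ _) j (mem_insert_of_mem hj) (fun e => hI (e ▸ hj)) a b ha hb

omit [DecidableEq Λ] in
theorem Wit.pr_le {α : Type} [Fintype α] {ev : α → Finset Λ} {A : Finset Λ → Prop} {C : Λ → Prop}
    {β : ℝ} (h : Wit far w A C β) (hJ : ∀ L : Finset Λ, (∀ a ∈ L, ∀ b ∈ L, a ≠ b → far a b) →
      pr (fun x => L ⊆ ev x) ≤ ∏ a ∈ L, w a) : pr (fun x => A (ev x)) ≤ β := by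
  obtain ⟨W, a, b, c⟩ := h
  exact ((pr_mono fun x hx => a _ hx).trans (pr_ex W fun L x => L ⊆ ev x)).trans
    ((sum_le_sum fun L hL => hJ L (b L hL).2).trans c)

end wit

end Pool.Agent.P.MP_d0f69c_mp.XS.Mn
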