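import Pool.Agent.P.MP_d0f69c_mp.XS.MnA

/-!
Main theorem, part B: the iteration of the rounds and the joint bound for the events.
-/

set_option autoImplicit false

open Finset Real

namespace Pool.Agent.P.MP_d0f69c_mp.XS.Mn

variable {d M : ℕ}

/-- radius of influence of a label -/
noncomputable def rho (η : ℝ) (sc : Sched) (ℓ : Lab (Tor d M)) : ℕ :=
  if ℓ.2.1 = 4 then sc.r0 else (sc.q ℓ.1).rad η

/-- separated labels -/
def far (η : ℝ) (sc : Sched) (ℓ ℓ' : Lab (Tor d M)) : Prop :=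
  rho η sc ℓ + rho η sc ℓ' < nm (ℓ.2.2 - ℓ'.2.2)

/-- the cost of a label -/
noncomputable def aa (sc : Sched) (ℓ : Lab (Tor d M)) : ℝ :=
  if ℓ.2.1 = 4 then sc.a0 else ((sc.q ℓ.1).P : ℝ) ^ 3

theorem far_symm {η : ℝ} {sc : Sched} (a b : Lab (Tor d M)) (h : far η sc a b) : far η sc b a := by
  unfold far at h ⊢
  rw [nm_comm]
  omega

theorem far_irr {η : ℝ} {sc : Sched} (a : Lab (Tor d M)) : ¬ far η sc a a := by
  unfold far
  rw [nm_self]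
  omega

/-- the places of a separated family of labels of one round and one type -/
theorem places {η : ℝ} {sc : Sched} {L : Finset (Lab (Tor d M))} {s : ℕ} {i : Fin 5} {r : ℕ}
    {a : ℝ} (h1 : ∀ ℓ ∈ L, ℓ.1 = s ∧ ℓ.2.1 = i) (h2 : ∀ ℓ ∈ L, rho η sc ℓ = r ∧ aa sc ℓ = a)
    (h3 : ∀ a ∈ L, ∀ b ∈ L, a ≠ b → far η sc a b) :
    ∃ I : Finset (Tor d M), (∀ x ∈ I, ∀ y ∈ I, x ≠ y → 2 * r < nm (x - y)) ∧
      (∀ x ∈ I, (s, i, x) ∈ L) ∧ exp (-a) ^ I.card = ∏ ℓ ∈ L, exp (-aa sc ℓ) := by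
  have e : ∀ ℓ ∈ L, (s, i, ℓ.2.2) = ℓ := fun ℓ h => by rw [← (h1 ℓ h).1, ← (h1 ℓ h).2]
  refine ⟨L.image fun ℓ => ℓ.2.2, fun x hx y hy hxy => ?_, fun x hx => ?_, ?_⟩
  · obtain ⟨a, ha, rfl⟩ := mem_image.1 hx
    obtain ⟨b, hb, rfl⟩ := mem_image.1 hy
    have := h3 a ha b hb fun c => hxy (by rw [c])
    rw [far, (h2 a ha).1, (h2 b hb).1] at this
    omega
  · obtain ⟨a, ha, rfl⟩ := mem_image.1 hx
    rwa [e a ha]
  · rw [card_image_of_injOn fun a ha b hb c => by rw [← e a ha, ← e b hb]; exact congrArg _ (congrArg _ c),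
      ← prod_const]
    exact prod_congr rfl fun ℓ h => by rw [(h2 ℓ h).2]

variable [NeZero M] {E : Env d M} {sc : Sched}

/-- what a round delivers -/
def Rnd (E : Env d M) (q : Par) (s : ℕ) (st : Stage (Tor d M) E.N) : Prop :=
  Spec E q s st (Inv E (q.bPre E.η)) (Inv E (q.b3 E.η)) {0, 1, 2, 3}
    (fun S x => x ∈ S.junk ∨ (q.start = true ∧ ∃ y ∈ S.junk, nm (y - x) ≤ q.D E.η 0))
    (q.rad E.η) (q.rad E.η) ∧
  ∀ S ϖ α, Inv E (q.bPre E.η) S → (q.last = true → (st.run S ϖ α).good = ∅) ∧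
    (q.late E.η → q.start = false → Cover E S.omg → ∀ x ∈ S.junk,
      Iso E q S.junk x (q.rad E.η) →
      NewEv s (st.run S ϖ α) x (q.rad E.η) ∨ x ∉ (st.run S ϖ α).O)

/-- all the data of the process -/
structure Data (E : Env d M) (sc : Sched) (st : ℕ → Stage (Tor d M) E.N) (Θ0 : Type) [Fintype Θ0]
    (S0 : Cfg (Tor d M) E.N → Θ0 → St (Tor d M)) : Prop where
  hE : E.OK
  hs : sc.OK E
  nx : S_NEXT
  rnd : ∀ s < sc.u (sc.k + 1), Rnd E (sc.q s) s (st s)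
  init : Init E sc Θ0 S0

variable {st : ℕ → Stage (Tor d M) E.N} {Θ0 : Type} [Fintype Θ0]
  {S0 : Cfg (Tor d M) E.N → Θ0 → St (Tor d M)}

/-- a trajectory of the process up to the time `s` -/
def Path (st : ℕ → Stage (Tor d M) E.N) (S0 : Cfg (Tor d M) E.N → Θ0 → St (Tor d M))
    (ϖ : Cfg (Tor d M) E.N) (s : ℕ) (Y : ℕ → St (Tor d M)) : Prop :=
  (∃ τ, Y 0 = S0 ϖ τ) ∧ ∀ t < s, ∃ α, Y (t + 1) = (st t).run (Y t) ϖ α

theorem Data.inv (D : Data E sc st Θ0 S0) {ϖ : Cfg (Tor d M) E.N} {s : ℕ} {Y : ℕ → St (Tor d M)}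
    (h : Path st S0 ϖ s Y) (hs : s ≤ sc.u (sc.k + 1)) : ∀ t ≤ s,
      (t < sc.u (sc.k + 1) → Inv E ((sc.q t).bPre E.η) (Y t)) ∧ Cons E (Y t) ϖ ∧
      ∀ ℓ ∈ (Y t).ev, (ℓ.1 = 0 ∧ ℓ.2.1 = 4) ∨ (ℓ.1 < t ∧ ℓ.2.1 ≠ 4) := by
  intro t
  induction t with
  | zero =>
    obtain ⟨τ, e⟩ := h.1
    rw [e]
    exact fun _ => ⟨fun _ => D.init.inv ϖ τ, D.init.cons ϖ τ,
      fun ℓ hℓ => Or.inl (D.init.tag ϖ τ ℓ hℓ)⟩
  | succ t ih =>
    intro ht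
    obtain ⟨a, b, c⟩ := ih (by omega)
    obtain ⟨α, e⟩ := h.2 t (by omega)
    have t1 : t < sc.u (sc.k + 1) := by omega
    have R := (D.rnd t t1).1
    rw [e]
    refine ⟨fun t2 => D.nx d M E _ _ _ D.hE (D.hs.ok t t1) (D.hs.ok _ t2) (D.hs.nx t t2)
      (R.post _ ϖ α (a t1)), R.cons _ ϖ α (a t1) b, fun ℓ hℓ => ?_⟩
    by_cases h1 : ℓ ∈ (Y t).ev
    · exact (c ℓ h1).imp_right fun h => ⟨by omega, h.2⟩
    · obtain ⟨h2, h3⟩ := (R.tag _ ϖ α).2 ℓ hℓ h1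
      refine Or.inr ⟨by omega, fun h4 => ?_⟩
      rw [h4] at h3
      exact absurd h3 (by decide)

/-- the state at the time `s` as a function of the site variables and the tape -/
structure Proc (sc : Sched) (st : ℕ → Stage (Tor d M) E.N)
    (S0 : Cfg (Tor d M) E.N → Θ0 → St (Tor d M)) (s : ℕ) (Θ : Type) [Fintype Θ]
    (X : Cfg (Tor d M) E.N → Θ → St (Tor d M)) : Prop where
  causal : ∀ ϖ τ ϖ', (∀ y ∉ (X ϖ τ).U, ϖ' y = ϖ y) → X ϖ' τ = X ϖ τ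
  path : ∀ ϖ τ, ∃ Y, Path st S0 ϖ s Y ∧ Y s = X ϖ τ
  joint : ∀ i : Fin 5, i ≠ 3 → ∀ L : Finset (Lab (Tor d M)), (∀ ℓ ∈ L, ℓ.2.1 = i) →
    (∀ a ∈ L, ∀ b ∈ L, a ≠ b → far E.η sc a b) →
    pr (fun z : Cfg (Tor d M) E.N × Θ => L ⊆ (X z.1 z.2).ev) ≤ ∏ ℓ ∈ L, exp (-aa sc ℓ)

theorem Data.proc0 (D : Data E sc st Θ0 S0) : Proc sc st S0 0 Θ0 S0 where
  causal := D.init.causal
  path := fun ϖ τ => ⟨fun _ => S0 ϖ τ, ⟨⟨τ, rfl⟩, fun t ht => absurd ht (Nat.not_lt_zero t)⟩, rfl⟩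
  joint := fun i _ L h1 h2 => by
    by_cases h : ∀ ℓ ∈ L, ℓ.1 = 0 ∧ ℓ.2.1 = 4
    · obtain ⟨I, a, b, c⟩ := places (r := sc.r0) (a := sc.a0) h
        (fun ℓ hℓ => by simp [rho, aa, (h ℓ hℓ).2]) h2
      rw [← c]
      exact (pr_mono fun z hz x hx => hz (b x hx)).trans (D.init.eb I a)
    · rw [pr_false fun z hz => h fun ℓ hℓ => D.init.tag _ _ ℓ (hz hℓ)]
      exact prod_nonneg fun _ _ => (exp_pos _).le

theorem Data.step (D : Data E sc st Θ0 S0) {s : ℕ} (hs : s < sc.u (sc.k + 1)) {Θ : Type}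
    [Fintype Θ] {X : Cfg (Tor d M) E.N → Θ → St (Tor d M)} (h : Proc sc st S0 s Θ X) :
    Proc sc st S0 (s + 1) (Θ × (st s).A) fun ϖ τ => (st s).run (X ϖ τ.1) ϖ τ.2 where
  causal := fun ϖ τ ϖ' e => by
    obtain ⟨a, b⟩ := (D.rnd s hs).1.causal (X ϖ τ.1) ϖ τ.2
    rw [h.causal ϖ τ.1 ϖ' fun y hy => e y fun c => hy (a c)]
    exact b ϖ' e
  path := fun ϖ τ => by
    obtain ⟨Y, ⟨a, b⟩, c⟩ := h.path ϖ τ.1
    refine ⟨fun t => if t ≤ s then Y t else (st s).run (X ϖ τ.1) ϖ τ.2, ⟨by simpa using a,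
      fun t ht => ?_⟩, by simp⟩
    rcases (Nat.lt_succ_iff.1 ht).eq_or_lt with rfl | h1
    · exact ⟨τ.2, by simp [c]⟩
    · simpa [h1.le, Nat.succ_le_of_lt h1] using b t h1
  joint := fun i hi L h1 h2 => by
    classical
    have R := (D.rnd s hs).1
    have : NeZero E.N := ⟨D.hE.N0⟩
    set L1 := L.filter fun ℓ => ℓ.1 = s ∧ ℓ.2.1 ≠ 4 with hL1
    set L0 := L.filter fun ℓ => ¬ (ℓ.1 = s ∧ ℓ.2.1 ≠ 4) with hL0
    have key : ∀ ϖ τ, pr (fun z : Cfg (Tor d M) E.N × (st s).A =>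
        L ⊆ ((st s).run (X ϖ τ) (mix (X ϖ τ).U z.1 ϖ) z.2).ev) ≤
        (∏ ℓ ∈ L1, exp (-aa sc ℓ)) * if L0 ⊆ (X ϖ τ).ev then 1 else 0 := fun ϖ τ => by
      obtain ⟨Y, p, e⟩ := h.path ϖ τ
      obtain ⟨a, -, c⟩ := D.inv p hs.le s le_rfl
      rw [e] at a c
      split_ifs with h3
      · rw [mul_one]
        by_cases h4 : i = 4
        · rw [hL1, filter_false_of_mem fun ℓ hℓ c => c.2 ((h1 ℓ hℓ).trans h4), prod_empty]
          exact pr_le_one _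
        obtain ⟨I, a1, a2, a3⟩ := places (L := L1) (s := s) (i := i) (r := (sc.q s).rad E.η)
          (a := ((sc.q s).P : ℝ) ^ 3) (η := E.η) (sc := sc)
          (fun ℓ hℓ => ⟨(mem_filter.1 hℓ).2.1, h1 ℓ (mem_filter.1 hℓ).1⟩)
          (fun ℓ hℓ => by simp [rho, aa, (mem_filter.1 hℓ).2.1, (mem_filter.1 hℓ).2.2])
          fun a ha b hb => h2 a (mem_filter.1 ha).1 b (mem_filter.1 hb).1
        rw [← a3]
        refine le_trans (pr_mono fun z hz x hx => ⟨hz (mem_filter.1 (a2 x hx)).1, fun c1 => ?_⟩)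
          (R.eb i ((by decide : ∀ j : Fin 5, j ≠ 4 → j ∈ ({0, 1, 2, 3} : Finset (Fin 5))) i h4) hi _
            (a hs) ϖ I a1)
        rcases c _ c1 with c2 | c2
        · exact h4 c2.2
        · exact lt_irrefl _ c2.1
      · rw [mul_zero]
        refine (pr_false fun z hz => h3 fun ℓ hℓ => ?_).le
        by_contra c1
        obtain ⟨c2, c3⟩ := (R.tag _ _ _).2 ℓ (hz (mem_filter.1 hℓ).1) c1
        refine (mem_filter.1 hℓ).2 ⟨c2, fun c4 => ?_⟩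
        rw [c4] at c3
        exact absurd c3 (by decide)
    have e : ∀ τ, pr (fun z : Cfg (Tor d M) E.N × (st s).A =>
        L ⊆ ((st s).run (X z.1 τ) z.1 z.2).ev) ≤
        (∏ ℓ ∈ L1, exp (-aa sc ℓ)) * pr fun ϖ => L0 ⊆ (X ϖ τ).ev := fun τ => by
      rw [pr_stop (fun ϖ => (X ϖ τ).U) fun ϖ ϖ' e => by rw [h.causal ϖ τ ϖ' e], pr_eq_av,
        ← av_mul]
      refine av_mono fun ϖ => le_trans (le_of_eq (pr_congr fun z => ?_)) ((key ϖ τ).trans_eq ?_)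
      · have e := h.causal ϖ τ (mix (X ϖ τ).U z.1 ϖ) fun y hy => if_neg hy
        simp only [e]
      · congr
    let f : Θ × (Cfg (Tor d M) E.N × (st s).A) ≃ Cfg (Tor d M) E.N × (Θ × (st s).A) :=
      ⟨fun z => (z.2.1, z.1, z.2.2), fun z => (z.2.1, z.1, z.2.2), fun _ => rfl, fun _ => rfl⟩
    rw [← pr_equiv f, pr_prod, ← prod_filter_mul_prod_filter_not L fun ℓ => ℓ.1 = s ∧ ℓ.2.1 ≠ 4]
    refine (av_mono e).trans ?_
    rw [av_mul, ← pr_prod' fun z : Cfg (Tor d M) E.N × Θ => L0 ⊆ (X z.1 z.2).ev]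
    exact mul_le_mul_of_nonneg_left (h.joint i hi L0 (fun ℓ hℓ => h1 ℓ (mem_filter.1 hℓ).1)
      fun a ha b hb => h2 a (mem_filter.1 ha).1 b (mem_filter.1 hb).1)
      (prod_nonneg fun _ _ => (exp_pos _).le)

theorem Data.proc [Nonempty Θ0] (D : Data E sc st Θ0 S0) : ∀ s ≤ sc.u (sc.k + 1),
    ∃ (Θ : Type) (_ : Fintype Θ) (_ : Nonempty Θ) (X : Cfg (Tor d M) E.N → Θ → St (Tor d M)),
      Proc sc st S0 s Θ X := by
  intro s
  induction s with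
  | zero => exact fun _ => ⟨Θ0, _, inferInstance, S0, D.proc0⟩
  | succ s ih =>
    intro hs
    obtain ⟨Θ, _, _, X, h⟩ := ih (by omega)
    exact ⟨_, _, inferInstance, _, D.step (by omega) h⟩

theorem Data.ev_mono (D : Data E sc st Θ0 S0) {ϖ : Cfg (Tor d M) E.N} {s : ℕ}
    {Y : ℕ → St (Tor d M)} (h : Path st S0 ϖ s Y) (hs : s ≤ sc.u (sc.k + 1)) {t : ℕ}
    (ht : t < s) : (Y t).ev ⊆ (Y (t + 1)).ev := by
  obtain ⟨α, e⟩ := h.2 t ht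
  rw [e]
  exact ((D.rnd t (by omega)).1.tag _ ϖ α).1

/-- a label of type `3` forces a resonance -/
theorem Data.wev (D : Data E sc st Θ0 S0) {ϖ : Cfg (Tor d M) E.N} {s : ℕ} {Y : ℕ → St (Tor d M)}
    (h : Path st S0 ϖ s Y) (hs : s ≤ sc.u (sc.k + 1)) : ∀ t ≤ s, ∀ ℓ ∈ (Y t).ev, ℓ.2.1 = 3 →
      ℓ.1 < sc.u (sc.k + 1) ∧ (sc.q ℓ.1).late E.η ∧ Wev E (sc.q ℓ.1) ℓ.2.2 ϖ := by
  intro t
  induction t with
  | zero =>
    intro ht ℓ hℓ h3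
    rcases (D.inv h hs 0 ht).2.2 ℓ hℓ with c | c
    · rw [h3] at c
      exact absurd c.2 (by decide)
    · omega
  | succ t ih =>
    intro ht ℓ hℓ h3
    by_cases h1 : ℓ ∈ (Y t).ev
    · exact ih (by omega) ℓ h1 h3
    obtain ⟨α, e⟩ := h.2 t (by omega)
    have t1 : t < sc.u (sc.k + 1) := by omega
    have R := (D.rnd t t1).1
    obtain ⟨a, b, -⟩ := D.inv h hs t (by omega)
    rw [e] at hℓ
    have h2 := ((R.tag _ ϖ α).2 ℓ hℓ h1).1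
    have e2 : ℓ = (t, 3, ℓ.2.2) := by rw [← h2, ← h3]
    rw [h2]
    exact ⟨t1, R.wev _ ϖ α _ (a t1) b (e2 ▸ hℓ) (e2 ▸ h1)⟩

theorem wev_congr {q : Par} {c : Tor d M} {ϖ ϖ' : Cfg (Tor d M) E.N}
    (e : ∀ x ∈ bl c (q.D E.η 3), ϖ x = ϖ' x) (h : Wev E q c ϖ) : Wev E q c ϖ' := by
  rcases h with h | ⟨o, h1, h2, h3⟩
  · exact Or.inl (h.congr fun x hx => (e x (mem_bl.2 (by simpa using mem_bl.1 hx))).symm)
  · exact Or.inr ⟨o, h1, h2, e o (mem_bl.2 h2) ▸ h3⟩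

/-- the joint bound for all separated families -/
theorem Data.joint (D : Data E sc st Θ0 S0) (hI : S_INDEP)
    (hW : ∀ s < sc.u (sc.k + 1), (sc.q s).late E.η → ∀ c,
      pr (Wev E (sc.q s) c) ≤ exp (-((sc.q s).P : ℝ) ^ 3))
    {Θ : Type} [Fintype Θ] [Nonempty Θ] {X : Cfg (Tor d M) E.N → Θ → St (Tor d M)}
    (h : Proc sc st S0 (sc.u (sc.k + 1)) Θ X) (L : Finset (Lab (Tor d M)))
    (hL : ∀ a ∈ L, ∀ b ∈ L, a ≠ b → far E.η sc a b) :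
    pr (fun z : Cfg (Tor d M) E.N × Θ => L ⊆ (X z.1 z.2).ev) ≤ ∏ ℓ ∈ L, exp (-aa sc ℓ / 5) := by
  classical
  have : NeZero E.N := ⟨D.hE.N0⟩
  have h1 : ∀ i : Fin 5, pr (fun z : Cfg (Tor d M) E.N × Θ => L ⊆ (X z.1 z.2).ev) ≤
      ∏ ℓ ∈ L with ℓ.2.1 = i, exp (-aa sc ℓ) := fun i => by
    by_cases hi : i = 3
    swap
    · refine le_trans (pr_mono fun z hz => ?_)
        (h.joint i hi (L.filter fun ℓ => ℓ.2.1 = i) (fun ℓ hℓ => (mem_filter.1 hℓ).2)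
          fun a ha b hb => hL a (mem_filter.1 ha).1 b (mem_filter.1 hb).1)
      exact (filter_subset _ _).trans hz
    subst hi
    let A : Lab (Tor d M) → Cfg (Tor d M) E.N → Prop := fun ℓ ϖ =>
      ℓ.1 < sc.u (sc.k + 1) ∧ (sc.q ℓ.1).late E.η ∧ Wev E (sc.q ℓ.1) ℓ.2.2 ϖ
    have h2 := hI _ _ _ (L.filter fun ℓ => ℓ.2.1 = 3)
      (fun ℓ => bl ℓ.2.2 ((sc.q ℓ.1).D E.η 3)) A (fun a ha b hb hab => disjoint_left.2
        fun x x1 x2 => by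
          have f := hL a (mem_filter.1 ha).1 b (mem_filter.1 hb).1 hab
          have t := nm_tri a.2.2 x b.2.2
          rw [nm_comm a.2.2 x] at t
          have y1 := mem_bl.1 x1
          have y2 := mem_bl.1 x2
          simp only [far, rho, (mem_filter.1 ha).2, (mem_filter.1 hb).2, Par.rad] at f
          rw [if_neg (by decide), if_neg (by decide)] at f
          omega)
      fun ℓ _ w w' e a => ⟨a.1, a.2.1, wev_congr e a.2.2⟩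
    refine le_trans (pr_mono (B := fun z => ∀ ℓ ∈ L.filter fun ℓ => ℓ.2.1 = 3, A ℓ z.1)
      fun z hz ℓ hℓ => ?_) ?_
    · obtain ⟨Y, p, e⟩ := h.path z.1 z.2
      exact D.wev p le_rfl _ le_rfl ℓ (e ▸ hz (mem_filter.1 hℓ).1) (mem_filter.1 hℓ).2
    · rw [pr_fst fun w => ∀ ℓ ∈ L.filter fun ℓ => ℓ.2.1 = 3, A ℓ w, h2]
      refine prod_le_prod (fun _ _ => pr_nonneg _) fun ℓ hℓ => ?_
      by_cases c : ℓ.1 < sc.u (sc.k + 1) ∧ (sc.q ℓ.1).late E.η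
      · rw [aa, (mem_filter.1 hℓ).2, if_neg (by decide)]
        exact (pr_mono fun w hw => hw.2.2).trans (hW _ c.1 c.2 _)
      · rw [pr_false fun w hw => c ⟨hw.1, hw.2.1⟩]
        exact (exp_pos _).le
  have h2 := prod_le_prod (s := univ) (fun _ _ => pr_nonneg _) fun i _ => h1 i
  rw [prod_const, prod_fiberwise L (fun ℓ => ℓ.2.1) fun ℓ => exp (-aa sc ℓ)] at h2
  refine le_of_pow_le_pow_left₀ (n := 5) (by norm_num) (prod_nonneg fun _ _ => (exp_pos _).le)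
    (le_trans (by simpa using h2) (le_of_eq ?_))
  rw [← prod_pow]
  refine prod_congr rfl fun ℓ _ => ?_
  rw [← exp_nat_mul]
  congr 1
  push_cast
  ring

end Pool.Agent.P.MP_d0f69c_mp.XS.Mn
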