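import Pool.Agent.P.MP_d0f69c_mp.XS.MnB

/-!
Main theorem, part C: the deterministic multiscale argument.
-/

set_option autoImplicit false

open Finset Real

namespace Pool.Agent.P.MP_d0f69c_mp.XS.Mn

variable {d M : ℕ}

/-- an event of the round `s` near `x` -/
def Ev (e : Finset (Lab (Tor d M))) (s : ℕ) (x : Tor d M) (r : ℕ) : Prop :=
  ∃ ℓ ∈ e, ℓ.1 = s ∧ ℓ.2.1 ≠ 4 ∧ nm (ℓ.2.2 - x) ≤ r

/-- an event of the epoch `j` near `x` -/
def Ep (sc : Sched) (e : Finset (Lab (Tor d M))) (j : ℕ) (x : Tor d M) (r : ℕ) : Prop :=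
  ∃ ℓ ∈ e, sc.u j ≤ ℓ.1 ∧ ℓ.1 < sc.u (j + 1) ∧ ℓ.2.1 ≠ 4 ∧ nm (ℓ.2.2 - x) ≤ r

theorem Ev.ep {sc : Sched} {e : Finset (Lab (Tor d M))} {s j r r' : ℕ} {x y : Tor d M}
    (h : Ev e s y r) (h1 : sc.u j ≤ s) (h2 : s < sc.u (j + 1)) (h3 : r + nm (y - x) ≤ r') :
    Ep sc e j x r' := by
  obtain ⟨ℓ, a, rfl, c, f⟩ := h
  exact ⟨ℓ, a, h1, h2, c, (nm_tri _ y _).trans (by omega)⟩

variable [NeZero M] {E : Env d M} {sc : Sched}

/-- bad points of the scale `j` -/
def Bad (sc : Sched) (e : Finset (Lab (Tor d M))) : ℕ → Tor d M → Prop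
  | 0, x => ∃ ℓ ∈ e, ℓ.1 = 0 ∧ ℓ.2.1 = 4 ∧ nm (ℓ.2.2 - x) ≤ sc.r0
  | j + 1, x => Ep sc e j x (sc.r (j + 1)) ∨ ∃ Z ⊆ bl x (sc.r (j + 1)),
      Z.card = sc.J j + 1 ∧ Sep Z (5 * sc.r j) ∧ ∀ z ∈ Z, Bad sc e j z

/-- leads that may be lost -/
def Hit (sc : Sched) (e : Finset (Lab (Tor d M))) (o : Tor d M) : Prop :=
  ∃ j < sc.k, (∃ z ∈ bl o (sc.r (j + 1)), Bad sc e j z) ∨ Bad sc e (j + 1) o

omit [NeZero M] in
/-- many separated points, or a small net -/
theorem net (A : Finset (Tor d M)) (r J : ℕ) : (∃ Z ⊆ A, Z.card = J + 1 ∧ Sep Z r) ∨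
    ∃ Z : Finset (Tor d M), Z.card ≤ J ∧ ∀ y ∈ A, ∃ z ∈ Z, nm (y - z) ≤ r := by
  classical
  obtain ⟨Z, h1, h2⟩ := exists_max_image (A.powerset.filter fun Z => Sep Z r) card
    ⟨∅, mem_filter.2 ⟨empty_mem_powerset _, fun x hx => absurd hx (notMem_empty x)⟩⟩
  obtain ⟨a, b⟩ := mem_filter.1 h1
  by_cases h : J + 1 ≤ Z.card
  · obtain ⟨Z', c1, c2⟩ := exists_subset_card_eq h
    exact Or.inl ⟨Z', c1.trans (mem_powerset.1 a), c2, fun x hx y hy => b x (c1 hx) y (c1 hy)⟩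
  refine Or.inr ⟨Z, by omega, fun y hy => by_contra fun c => ?_⟩
  simp only [not_exists, not_and, not_le] at c
  have y0 : y ∉ Z := fun h => by
    have := c y h
    rw [nm_self] at this
    omega
  have := h2 (insert y Z) (mem_filter.2 ⟨mem_powerset.2 (insert_subset hy (mem_powerset.1 a)),
    fun u hu v hv huv => ?_⟩)
  · rw [card_insert_of_notMem y0] at this
    omega
  · rcases mem_insert.1 hu with rfl | u1 <;> rcases mem_insert.1 hv with rfl | v1
    · exact absurd rfl huv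
    · exact c v v1
    · exact nm_comm v u ▸ c u u1
    · exact b u u1 v v1 huv

theorem u_mono (h : sc.OK E) {i j : ℕ} (h1 : i ≤ j) (h2 : j ≤ sc.k + 1) : sc.u i ≤ sc.u j := by
  induction j, h1 using Nat.le_induction with
  | base => exact le_rfl
  | succ j _ ih => exact (ih (by omega)).trans (h.um j (by omega)).le

theorem epoch (h : sc.OK E) {t : ℕ} : ∀ m, t < sc.u m → ∃ j < m, sc.u j ≤ t ∧ t < sc.u (j + 1) := by
  intro m
  induction m with
  | zero => rw [h.u0]; omega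
  | succ m ih =>
    intro hm
    by_cases c : t < sc.u m
    · obtain ⟨j, a, b⟩ := ih c
      exact ⟨j, by omega, b⟩
    · exact ⟨m, by omega, by omega, hm⟩

theorem start_eq (h : sc.OK E) {j s : ℕ} (hj : j ≤ sc.k) (h1 : sc.u j ≤ s) (h2 : s < sc.u (j + 1))
    (h3 : (sc.q s).start = true) : s = sc.u j := by
  obtain ⟨i, a, rfl⟩ := (h.st s (h2.trans_le (u_mono h (by omega) le_rfl))).1 h3
  rcases lt_trichotomy i j with c | c | c
  · exact le_antisymm (u_mono h c.le (by omega)) h1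
  · rw [c]
  · exact absurd (u_mono h (show j + 1 ≤ i from c) (by omega)) (by omega)

theorem scales (hE : E.OK) (h : sc.OK E) {s t : ℕ} (h1 : s < t) (h2 : t < sc.u (sc.k + 1)) :
    (sc.q s).D E.η 3 ≤ (sc.q t).D E.η 0 := by
  have : (sc.q s).P ≤ (sc.q t).P ∧ (sc.q s).li E.η 3 ≤ (sc.q t).l := by
    induction t, h1 using Nat.le_induction with
    | base => exact ⟨(h.nx s h2).P, (h.nx s h2).l⟩
    | succ t _ ih =>
      obtain ⟨a, b⟩ := ih (by omega)
      exact ⟨a.trans (h.nx t h2).P, b.trans (((h.ok t (by omega)).l_le_li hE 3).trans (h.nx t h2).l)⟩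
  rw [Par.D, Par.D, Par.OK.li_zero]
  exact Nat.mul_le_mul (Nat.pow_le_pow_left this.1 8) this.2

/-- what is known on a trajectory, `e` being the final set of labels -/
structure Hist (E : Env d M) (sc : Sched) (Y : ℕ → St (Tor d M)) (e : Finset (Lab (Tor d M))) :
    Prop where
  junk0 : Cover E (Y 0).omg → ∀ x ∈ (Y 0).junk, Bad sc e 0 x
  omg0 : ∀ o ∈ E.Ω, o ∉ (Y 0).omg → Bad sc e 0 o
  om : ∀ s < sc.u (sc.k + 1), (Y (s + 1)).omg ⊆ (Y s).omg
  junk : ∀ s < sc.u (sc.k + 1), Cover E (Y (s + 1)).omg → ∀ x ∈ (Y (s + 1)).junk,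
    (x ∈ (Y s).junk ∨ ((sc.q s).start = true ∧ ∃ y ∈ (Y s).junk, nm (y - x) ≤ (sc.q s).D E.η 0)) ∨
      Ev e s x ((sc.q s).rad E.η)
  omg : ∀ s < sc.u (sc.k + 1), Cover E (Y s).omg → ∀ o ∈ (Y s).omg, o ∉ (Y (s + 1)).omg →
    (∃ y ∈ (Y s).junk, nm (y - o) ≤ (sc.q s).rad E.η) ∨ Ev e s o ((sc.q s).rad E.η)
  heal : ∀ s < sc.u (sc.k + 1), (sc.q s).late E.η → (sc.q s).start = false → Cover E (Y s).omg →
    ∀ x ∈ (Y s).junk, Iso E (sc.q s) (Y s).junk x ((sc.q s).rad E.η) →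
      Ev e s x ((sc.q s).rad E.η) ∨ x ∉ (Y (s + 1)).junk

variable {Y : ℕ → St (Tor d M)} {e : Finset (Lab (Tor d M))}

theorem Hist.down (H : Hist E sc Y e) {s t : ℕ} (h1 : s ≤ t) (h2 : t ≤ sc.u (sc.k + 1))
    (h : Cover E (Y t).omg) : Cover E (Y s).omg := by
  induction t, h1 using Nat.le_induction with
  | base => exact h
  | succ t _ ih => exact ih (by omega) (h.mono (H.om t h2))

theorem Hist.trace (H : Hist E sc Y e) (h : sc.OK E) {j t : ℕ} (hj : j ≤ sc.k) (h1 : sc.u j ≤ t)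
    (h2 : t ≤ sc.u (j + 1)) (hc : Cover E (Y t).omg) {y : Tor d M} (hy : y ∈ (Y t).junk) :
    (∃ z ∈ (Y (sc.u j)).junk, nm (z - y) ≤ (sc.q (sc.u j)).D E.η 0) ∨
      ∃ s, sc.u j ≤ s ∧ s < sc.u (j + 1) ∧ Ev e s y ((sc.q s).rad E.η) := by
  have n := u_mono h (show j + 1 ≤ sc.k + 1 by omega) le_rfl
  induction t, h1 using Nat.le_induction with
  | base => exact Or.inl ⟨y, hy, by rw [nm_self]; omega⟩
  | succ t ht ih =>
    rcases H.junk t (by omega) hc y hy with (a | ⟨a, b⟩) | a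
    · exact ih (by omega) (hc.mono (H.om t (by omega))) a
    · rw [start_eq h hj ht h2 a] at b
      exact Or.inl b
    · exact Or.inr ⟨t, ht, h2, a⟩

theorem Hist.stay (H : Hist E sc Y e) (h : sc.OK E) {j : ℕ} (hj : j ≤ sc.k)
    (hc : Cover E (Y (sc.u (j + 1))).omg) {x : Tor d M} (hx : x ∈ (Y (sc.u (j + 1))).junk)
    (hn : ∀ s, sc.u j ≤ s → s < sc.u (j + 1) → ¬ Ev e s x ((sc.q s).rad E.η)) {t : ℕ}
    (h1 : sc.u j < t) (h2 : t ≤ sc.u (j + 1)) : x ∈ (Y t).junk := by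
  have n := u_mono h (show j + 1 ≤ sc.k + 1 by omega) le_rfl
  induction h2 using Nat.decreasingInduction with
  | self => exact hx
  | of_succ t ht ih =>
    rcases H.junk t (by omega) (H.down ht n hc) x (ih (by omega)) with (a | ⟨a, -⟩) | a
    · exact a
    · exact absurd (start_eq h hj h1.le ht a) h1.ne'
    · exact absurd a (hn t h1.le ht)

theorem D_le_rad (hE : E.OK) {q : Par} (hq : q.OK E) {i : ℕ} (hi : i ≤ 3) :
    q.D E.η i ≤ q.rad E.η := by
  have := hq.D_mono hE hi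
  unfold Par.rad
  omega

/-- junk at the start of an epoch is bad -/
theorem Hist.bad (H : Hist E sc Y e) (hE : E.OK) (h : sc.OK E) : ∀ j ≤ sc.k,
    Cover E (Y (sc.u j)).omg → ∀ x ∈ (Y (sc.u j)).junk, Bad sc e j x := by
  intro j
  induction j with
  | zero => rw [h.u0]; exact fun _ => H.junk0
  | succ j ih =>
    intro hj hc x hx
    have n := u_mono h (show j + 1 ≤ sc.k + 1 by omega) le_rfl
    have n1 := h.um j (by omega)
    by_contra c
    obtain ⟨c1, c2⟩ := not_or.1 c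
    have rad := h.rad j hj
    rcases net ((Y (sc.u j)).junk ∩ bl x (sc.r (j + 1))) (5 * sc.r j) (sc.J j) with
      ⟨Z, a1, a2, a3⟩ | ⟨Z, a1, a2⟩
    · exact c2 ⟨Z, a1.trans inter_subset_right, a2, a3, fun z hz =>
        ih (by omega) (H.down n1.le n hc) z (mem_inter.1 (a1 hz)).1⟩
    set ρ := 5 * sc.r j + (sc.q (sc.u j)).D E.η 0 with hρ
    have cov : ∀ t, sc.u j ≤ t → t ≤ sc.u (j + 1) → ∀ y ∈ (Y t).junk,
        3 * nm (y - x) ≤ sc.r (j + 1) → ∃ z ∈ Z, nm (y - z) ≤ ρ := fun t t1 t2 y hy y1 => by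
      rcases H.trace h (by omega) t1 t2 (H.down t2 n hc) hy with ⟨z, b1, b2⟩ | ⟨s, b1, b2, b3⟩
      · have := D_le_rad hE (h.ok (sc.u j) (by omega)) (Nat.zero_le 3)
        have := rad _ n1
        have := nm_tri z y x
        obtain ⟨z', b3, b4⟩ := a2 z (mem_inter.2 ⟨b1, mem_bl.2 (by omega)⟩)
        have := nm_tri y z z'
        rw [nm_comm y z] at this
        exact ⟨z', b3, by omega⟩
      · exact absurd (b3.ep b1 b2 (by have := rad s b2; omega)) c1
    have nev : ∀ s, sc.u j ≤ s → s < sc.u (j + 1) → ¬ Ev e s x ((sc.q s).rad E.η) :=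
      fun s s1 s2 a => c1 (a.ep s1 s2 (by have := rad s s2; rw [nm_self]; omega))
    obtain ⟨w, w1, w2, w3⟩ := h.win j hj
    have ann : ∀ s ∈ Icc w (w + sc.J j), ∃ z ∈ Z, ∃ y, nm (y - z) ≤ ρ ∧
        (sc.q s).D E.η 2 < nm (y - x) ∧ nm (y - x) ≤ (sc.q s).rad E.η := fun s hs => by
      obtain ⟨s1, s2⟩ := mem_Icc.1 hs
      obtain ⟨b1, -, b3⟩ := w3 s s1 s2
      have r1 := rad s (by omega)
      by_contra c3
      have st : (sc.q s).start = false := by
        by_contra c4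
        have := start_eq (j := j) h (by omega) (by omega) (by omega) (eq_true_of_ne_false c4)
        omega
      refine (H.heal s (by omega) b1 st (H.down (by omega) n hc) x
        (H.stay h (by omega) hc hx nev (by omega) (by omega)) ⟨fun y hy y1 => ?_, ?_⟩).elim
        (nev s (by omega) (by omega)) fun c4 =>
          c4 (H.stay h (by omega) hc hx nev (by omega) (by omega))
      · by_contra c4
        obtain ⟨z, z1, z2⟩ := cov s (by omega) (by omega) y hy (by omega)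
        exact c3 ⟨z, z1, y, z2, by omega, y1⟩
      · refine le_trans ?_ b3
        have d2 := D_le_rad hE (h.ok s (by omega)) (show 2 ≤ 3 by omega)
        have c4 : (Y s).junk ∩ bl x ((sc.q s).D E.η 2) ⊆ Z.biUnion fun z => bl z ρ := fun y hy => by
          have := mem_bl.1 (mem_inter.1 hy).2
          obtain ⟨z, z1, z2⟩ := cov s (by omega) (by omega) y (mem_inter.1 hy).1 (by omega)
          exact mem_biUnion.2 ⟨z, z1, mem_bl.2 z2⟩
        have c5 := (card_le_card c4).trans (card_biUnion_le_card_mul _ _ (vl d M ρ)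
          fun z _ => (card_ball z ρ).le)
        exact_mod_cast c5.trans (Nat.mul_le_mul_right _ a1)
    choose! f f1 f2 using ann
    have inj : ∀ s ∈ Icc w (w + sc.J j), ∀ t ∈ Icc w (w + sc.J j), s < t → f s ≠ f t :=
      fun s hs t ht hst c3 => by
        obtain ⟨y, y0, -, y1⟩ := f2 s hs
        obtain ⟨y', y2, y3, -⟩ := f2 t ht
        obtain ⟨t1, t2⟩ := mem_Icc.1 ht
        have q1 := (w3 t t1 t2).2.1
        have ok := h.ok t (by omega)
        have q2 := scales hE h hst (by omega)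
        have q3 := ok.D_grow hE (show 0 < 1 by omega)
        have q4 := ok.D_grow hE (show 1 < 2 by omega)
        have q5 := nm_tri y' (f t) x
        have q6 := nm_tri (f t) y x
        rw [nm_comm (f t) y, ← c3] at q6
        rw [← c3] at q5 y2
        unfold Par.rad at y1
        omega
    have := card_le_card_of_injOn f (s := Icc w (w + sc.J j)) (t := Z) f1 fun s hs t ht c3 => by
      rcases lt_trichotomy s t with c4 | c4 | c4
      · exact absurd c3 (inj s hs t ht c4)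
      · exact c4
      · exact absurd c3.symm (inj t ht s hs c4)
    rw [Nat.card_Icc] at this
    omega

/-- on the good event the leads that are not hit survive and no junk is left -/
theorem Hist.fin (H : Hist E sc Y e) (hE : E.OK) (h : sc.OK E) (h1 : ∀ x, ¬ Bad sc e sc.k x)
    (h2 : ∀ x, ¬ Ep sc e sc.k x 0) (h3 : ∀ x, ∃ o ∈ E.Ω, nm (x - o) ≤ E.ρs ∧ ¬ Hit sc e o) :
    (∀ o ∈ E.Ω, ¬ Hit sc e o → o ∈ (Y (sc.u (sc.k + 1))).omg) ∧
      Cover E (Y (sc.u (sc.k + 1))).omg ∧ (Y (sc.u (sc.k + 1))).junk = ∅ := by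
  have nev : ∀ s x r, sc.u sc.k ≤ s → s < sc.u (sc.k + 1) → ¬ Ev e s x r :=
    fun s x r s1 s2 ⟨ℓ, a, b, c, _⟩ => h2 ℓ.2.2 ⟨ℓ, a, b ▸ s1, b ▸ s2, c, (nm_self _).le⟩
  have cov : ∀ t, (∀ o ∈ E.Ω, ¬ Hit sc e o → o ∈ (Y t).omg) → Cover E (Y t).omg := fun t a x => by
    obtain ⟨o, b1, b2, b3⟩ := h3 x
    exact ⟨o, a o b1 b3, b2⟩
  have key : ∀ t ≤ sc.u (sc.k + 1), ∀ o ∈ E.Ω, ¬ Hit sc e o → o ∈ (Y t).omg := by
    intro t
    induction t with
    | zero =>
      exact fun _ o ho c => by_contra fun c1 =>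
        c ⟨0, h.k1, Or.inl ⟨o, self_bl _ _, H.omg0 o ho c1⟩⟩
    | succ t ih =>
      intro ht o ho c
      have hc := cov t (ih (by omega))
      by_contra c1
      obtain ⟨j, j1, j2, j3⟩ := epoch h _ ht
      have ev : ∀ s y, sc.u j ≤ s → s < sc.u (j + 1) → nm (y - o) ≤ (sc.q t).rad E.η →
          ¬ Ev e s y ((sc.q s).rad E.η) := fun s y s1 s2 y1 a => by
        rcases (Nat.lt_succ_iff.1 j1).eq_or_lt with rfl | j4
        · exact nev s y _ s1 s2 a
        · have := h.rad j j4 s s2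
          have := h.rad j j4 t j3
          exact c ⟨j, j4, Or.inr (Or.inl (a.ep s1 s2 (by omega)))⟩
      rcases H.omg t ht hc o (ih (by omega) o ho c) c1 with ⟨y, a, b⟩ | a
      · rcases H.trace h (by omega) j2 j3.le hc a with ⟨z, b1, b2⟩ | ⟨s, b1, b2, b3⟩
        · have bz := H.bad hE h j (by omega) (H.down j2 (by omega) hc) z b1
          rcases (Nat.lt_succ_iff.1 j1).eq_or_lt with rfl | j4
          · exact h1 z bz
          · have := h.rad j j4 (sc.u j) (by omega)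
            have := h.rad j j4 t j3
            have := D_le_rad hE (h.ok (sc.u j) (by omega)) (Nat.zero_le 3)
            have := nm_tri z y o
            exact c ⟨j, j4, Or.inl ⟨z, mem_bl.2 (by omega), bz⟩⟩
        · exact ev s y b1 b2 b b3
      · exact ev t o j2 j3 (by rw [nm_self]; omega) a
  have hc := cov _ (key _ le_rfl)
  refine ⟨key _ le_rfl, hc, eq_empty_of_forall_notMem fun y hy => ?_⟩
  have n := (h.um _ le_rfl).le
  rcases H.trace h le_rfl n le_rfl hc hy with ⟨z, b1, -⟩ | ⟨s, b1, b2, b3⟩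
  · exact h1 z (H.bad hE h _ le_rfl (H.down n le_rfl hc) z b1)
  · exact nev s y _ b1 b2 b3

end Pool.Agent.P.MP_d0f69c_mp.XS.Mn
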