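import Pool.Agent.P.MP_d0f69c_mp.XS.MnC

/-!
Main theorem, part D: witnesses for the bad events.
-/

set_option autoImplicit false

open Finset Real

namespace Pool.Agent.P.MP_d0f69c_mp.XS.Mn

variable {d M : ℕ}

/-- the weight of a label -/
noncomputable def wt (sc : Sched) (ℓ : Lab (Tor d M)) : ℝ := exp (-aa sc ℓ / 5)

theorem wt0 (sc : Sched) (ℓ : Lab (Tor d M)) : 0 ≤ wt sc ℓ := (exp_pos _).le

/-- labels whose influence stays within the distance `R` of `x` -/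
def near (η : ℝ) (sc : Sched) (x : Tor d M) (R : ℕ) (ℓ : Lab (Tor d M)) : Prop :=
  nm (ℓ.2.2 - x) + rho η sc ℓ ≤ R

theorem near.far {η : ℝ} {sc : Sched} {x y : Tor d M} {R : ℕ} {a b : Lab (Tor d M)}
    (h1 : near η sc x R a) (h2 : near η sc y R b) (h : 2 * R < nm (x - y)) : far η sc a b := by
  have := nm_tri x a.2.2 y
  have := nm_tri a.2.2 b.2.2 y
  have := nm_comm x a.2.2
  unfold near at h1 h2
  unfold Mn.far
  omega

theorem near.mono {η : ℝ} {sc : Sched} {x y : Tor d M} {R R' : ℕ} {a : Lab (Tor d M)}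
    (h1 : near η sc x R a) (h : nm (x - y) + R ≤ R') : near η sc y R' a := by
  have := nm_tri a.2.2 x y
  unfold near at h1 ⊢
  omega

variable [NeZero M] {E : Env d M} {sc : Sched}

theorem wit_ep (η : ℝ) (sc : Sched) (j : ℕ) (x : Tor d M) (r : ℕ) :
    Wit (far η sc) (wt sc) (fun e => Ep sc e j x r)
      (fun ℓ => ℓ.1 < sc.u (j + 1) ∧ ℓ.2.1 ≠ 4 ∧ nm (ℓ.2.2 - x) ≤ r)
      (4 * (vl d M r : ℝ) * ∑ s ∈ Ico (sc.u j) (sc.u (j + 1)), exp (-((sc.q s).P : ℝ) ^ 3 / 5)) := by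
  refine (Wit.ex (wt0 sc) (Ico (sc.u j) (sc.u (j + 1)) ×ˢ (univ.erase 4 ×ˢ bl x r))
    (A := fun ℓ e => ℓ ∈ e) fun ℓ hℓ => (Wit.single ℓ).mono (fun _ h => h) ?_ le_rfl).mono ?_
    (fun _ h => h) (le_of_eq ?_)
  · rintro a rfl
    simp only [mem_product, mem_Ico, mem_erase, mem_bl] at hℓ
    exact ⟨hℓ.1.2, hℓ.2.1.1, hℓ.2.2⟩
  · rintro e ⟨ℓ, a, b, c, f, g⟩
    exact ⟨ℓ, by simp [b, c, f, g, mem_bl], a⟩
  · rw [sum_product, mul_sum]
    refine sum_congr rfl fun s _ => ?_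
    rw [sum_congr rfl (g := fun _ => exp (-((sc.q s).P : ℝ) ^ 3 / 5)) fun y hy => by
      simp [wt, aa, (mem_erase.1 (mem_product.1 hy).1).1]]
    simp [card_ball]

theorem wit_bad (h : sc.OK E) : ∀ j ≤ sc.k, ∀ x : Tor d M,
    Wit (far E.η sc) (wt sc) (fun e => Bad sc e j x) (near E.η sc x (2 * sc.r j))
      (exp (-sc.α j)) := by
  classical
  intro j
  induction j with
  | zero =>
    intro _ x
    have r0 := h.r0
    refine (Wit.ex (wt0 sc) (bl x sc.r0) (A := fun y e => (0, 4, y) ∈ e)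
      fun y hy => (Wit.single _).mono (fun _ h => h) ?_ le_rfl).mono ?_ (fun _ h => h)
      (le_trans ?_ h.a0)
    · rintro a rfl
      have := mem_bl.1 hy
      simp only [near, rho, if_true]
      omega
    · rintro e ⟨ℓ, a, b, c, f⟩
      exact ⟨ℓ.2.2, mem_bl.2 f, by rwa [← b, ← c]⟩
    · simp only [wt, aa, if_true, sum_const, card_ball, nsmul_eq_mul]
      exact mul_le_mul_of_nonneg_right (Nat.cast_le.2 (vol_mono (by omega))) (exp_pos _).le
  | succ j ih =>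
    intro hj x
    have rm := h.rm j hj
    have h1 := (wit_ep E.η sc j x (sc.r (j + 1))).mono (fun _ h => h)
      (C' := near E.η sc x (2 * sc.r (j + 1))) (fun ℓ a => by
        have := h.rad j hj _ a.1
        have := a.2.2
        simp only [near, rho, if_neg a.2.1]
        omega) le_rfl
    have h2 := Wit.ex (far := far E.η sc) (wt0 sc)
      (((bl x (sc.r (j + 1))).powersetCard (sc.J j + 1)).filter fun Z => Sep Z (5 * sc.r j))
      (A := fun Z e => ∀ z ∈ Z, Bad sc e j z) (C := near E.η sc x (2 * sc.r (j + 1)))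
      (β := fun _ => exp (-sc.α j) ^ (sc.J j + 1)) fun Z hZ => by
        obtain ⟨a, b⟩ := mem_filter.1 hZ
        obtain ⟨a1, a2⟩ := mem_powersetCard.1 a
        refine (Wit.all (wt0 sc) far_symm far_irr Z (fun z _ => ih (by omega) z)
          fun z hz y hy hzy u v hu hv => hu.far hv ?_).mono (fun _ h => h) ?_ (a2 ▸ le_rfl)
        · have := b z hz y hy hzy
          omega
        · rintro ℓ ⟨z, hz, c⟩
          have := mem_bl.1 (a1 hz)
          exact c.mono (by omega)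
    refine (h1.or (wt0 sc) h2).mono (fun e he => he.imp_right ?_) (fun _ h => h)
      (le_trans (add_le_add_right ?_ _) (h.αs j hj))
    · rintro ⟨Z, a, b, c, f⟩
      exact ⟨Z, mem_filter.2 ⟨mem_powersetCard.2 ⟨a, b⟩, c⟩, f⟩
    · rw [sum_const, nsmul_eq_mul, mul_pow]
      refine mul_le_mul_of_nonneg_right ?_ (by positivity)
      have := (card_filter_le ((bl x (sc.r (j + 1))).powersetCard (sc.J j + 1))
        fun Z => Sep Z (5 * sc.r j)).trans ((card_powersetCard _ _).trans_le (Nat.choose_le_pow _ _))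
      rw [card_ball] at this
      exact_mod_cast this

theorem r_mono (h : sc.OK E) {i j : ℕ} (h1 : i ≤ j) (h2 : j ≤ sc.k) : sc.r i ≤ sc.r j := by
  induction j, h1 using Nat.le_induction with
  | base => exact le_rfl
  | succ j _ ih =>
    have := h.rm j h2
    have := ih (by omega)
    omega

theorem wit_hit (h : sc.OK E) (o : Tor d M) :
    Wit (far E.η sc) (wt sc) (fun e => Hit sc e o) (near E.η sc o (2 * sc.r sc.k)) (1 / 10) := by
  refine (Wit.ex (wt0 sc) (range sc.k) (A := fun j e =>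
    (∃ z ∈ bl o (sc.r (j + 1)), Bad sc e j z) ∨ Bad sc e (j + 1) o) fun j hj => ?_).mono
    (fun e ⟨j, a, b⟩ => ⟨j, mem_range.2 a, b⟩) (fun _ h => h) h.hit
  have j1 := mem_range.1 hj
  have := h.rm j j1
  have := r_mono h (show j + 1 ≤ sc.k from j1) le_rfl
  refine Wit.or (wt0 sc) ((Wit.ex (wt0 sc) _ fun z hz => (wit_bad h j j1.le z).mono (fun _ h => h)
    (fun ℓ a => a.mono ?_) le_rfl).mono (fun _ h => h) (fun _ h => h) (le_of_eq ?_))
    ((wit_bad h (j + 1) j1 o).mono (fun _ h => h) (fun ℓ a => a.mono ?_) le_rfl)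
  · have := mem_bl.1 hz
    omega
  · simp [card_ball]
  · rw [nm_self]
    omega

/-- many leads near every point -/
theorem leads (hd : 1 ≤ d) {ρ : ℕ} (h1 : ρ ∣ M) (h2 : 2 * ρ ^ 2 ≤ M) (x : Tor d M) :
    ∃ Z ⊆ Om d M ρ, Z.card = ρ - 1 ∧ ∀ o ∈ Z, nm (x - o) ≤ ρ ^ 2 := by
  classical
  let f : ℕ → Tor d M := fun m i => ((ρ * ((x i).val / ρ + m : ℕ) : ℤ) : ZMod M)
  refine ⟨(range (ρ - 1)).image f, fun o ho => ?_, ?_, fun o ho => ?_⟩
  · obtain ⟨m, -, rfl⟩ := mem_image.1 ho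
    exact (mem_Om h1 fun i => ρ * ((x i).val / ρ + m : ℕ)).2 fun i => dvd_mul_right _ _
  · rw [card_image_of_injOn, card_range]
    intro a ha b hb e
    have a1 := mem_range.1 ha
    have b1 := mem_range.1 hb
    have h3 := (ZMod.intCast_eq_intCast_iff_dvd_sub _ _ _).1 (congrFun e ⟨0, hd⟩)
    have h4 : (ρ : ℤ) * ((x ⟨0, hd⟩).val / ρ + b : ℕ) - ρ * ((x ⟨0, hd⟩).val / ρ + a : ℕ) =
        ρ * (b - a) := by push_cast; ring
    rw [h4] at h3
    have r0 : (0 : ℤ) < ρ := by omega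
    have h5 : (2 * ρ ^ 2 : ℤ) ≤ M := by exact_mod_cast h2
    have h6 := Int.eq_zero_of_abs_lt_dvd h3 (by
      rw [abs_mul, abs_of_pos r0]
      have : |(b : ℤ) - a| ≤ ρ := abs_le.2 ⟨by omega, by omega⟩
      nlinarith)
    have := (mul_eq_zero.1 h6).resolve_left r0.ne'
    omega
  · obtain ⟨m, hm, rfl⟩ := mem_image.1 ho
    have m1 := mem_range.1 hm
    refine tn_le.2 fun i => (natAbs_vma_le _ ((x i).val - ρ * ((x i).val / ρ + m : ℕ))
      (by simp [f])).trans ?_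
    have a1 := Nat.div_add_mod (x i).val ρ
    have a2 := Nat.mod_lt (x i).val (show 0 < ρ by omega)
    have a3 : ρ * m + ρ ≤ ρ ^ 2 := by nlinarith [show m + 1 ≤ ρ by omega]
    have a4 : (ρ : ℤ) * ((x i).val / ρ + m : ℕ) = (ρ * ((x i).val / ρ) : ℕ) + (ρ * m : ℕ) := by
      push_cast; ring
    rw [a4]
    omega

/-- the bad event -/
def Fail (E : Env d M) (sc : Sched) (e : Finset (Lab (Tor d M))) : Prop :=
  ((∃ x, Bad sc e sc.k x) ∨ ∃ x, Ep sc e sc.k x 0) ∨
    ((∃ x, ∀ o ∈ E.Ω, nm (x - o) ≤ E.ρs → Hit sc e o) ∨ Hit sc e 0)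

theorem wit_fail (hE : E.OK) (h : sc.OK E) :
    Wit (far E.η sc) (wt sc) (Fail E sc) (fun _ => True) (1 / 2) := by
  have cT : (Fintype.card (Tor d M) : ℝ) = (M : ℝ) ^ d := by simp
  have h1 := (Wit.ex (wt0 sc) univ fun x _ => (wit_bad h _ le_rfl x).mono (fun _ h => h)
    (fun _ _ => trivial) le_rfl).mono (A' := fun e => ∃ x, Bad sc e sc.k x) (by simp)
    (fun _ h => h) (le_trans (by simp) h.αk)
  have h2 := (Wit.ex (wt0 sc) univ fun (x : Tor d M) _ => (wit_ep E.η sc sc.k x 0).mono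
    (fun _ h => h) (fun _ _ => trivial) le_rfl).mono (A' := fun e => ∃ x, Ep sc e sc.k x 0)
    (by simp) (fun _ h => h) (le_trans (by
      have : vl d M 0 = 1 := le_antisymm (by simpa using vol_tn_le (d := d) (M := M) 0)
        ((tn_NG d M).vol_pos 0)
      rw [sum_const, card_univ, nsmul_eq_mul, cT, this]
      exact le_of_eq (by push_cast; ring)) h.αf)
  choose Z z1 z2 z3 using leads hE.d1 h.ρd h.ρM
  have ρ0 : E.ρ1 ≠ 0 := fun c => NeZero.ne M (Nat.eq_zero_of_zero_dvd (c ▸ h.ρd))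
  have h3 := (Wit.ex (wt0 sc) univ fun (x : Tor d M) _ =>
    (Wit.all (wt0 sc) far_symm far_irr (Z x) (fun o _ => wit_hit h o)
      fun a ha b hb hab u v hu hv => hu.far hv (by
        have := hE.sep a (h.Ω ▸ z1 x ha) b (h.Ω ▸ z1 x hb) hab
        have := h.ρ1
        omega)).mono (fun _ h => h) (fun _ _ => trivial) le_rfl).mono
    (A' := fun e => ∃ x, ∀ o ∈ E.Ω, nm (x - o) ≤ E.ρs → Hit sc e o)
    (fun e ⟨x, hx⟩ => ⟨x, mem_univ _, fun o ho => hx o (h.Ω ▸ z1 x ho) ((z3 x o ho).trans h.ρs)⟩)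
    (fun _ h => h) (le_trans (by simp [z2]) h.cov)
  exact ((h1.or (wt0 sc) h2).or (wt0 sc) (h3.or (wt0 sc) ((wit_hit h 0).mono (fun _ h => h)
    (fun _ _ => trivial) le_rfl))).mono (fun _ h => h) (fun _ h => h) (by norm_num)

end Pool.Agent.P.MP_d0f69c_mp.XS.Mn
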