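import Pool.Agent.P.MP_d0f69c_mp.XS.CT

/-!
The linear system of the Newton step: existence and a supremum bound.
-/

set_option autoImplicit false

open Finset Real

namespace Pool.Agent.P.MP_d0f69c_mp.XS

/-- the action of a kernel as a linear map -/
noncomputable def apL {ι : Type} (X : Finset ι) (k : ι → ι → ℂ) : (ι → ℂ) →ₗ[ℂ] (ι → ℂ) where
  toFun := ap X k
  map_add' := ap_add' X k
  map_smul' := fun c u => funext fun x => by simp [ap, mul_sum, mul_left_comm]

theorem apL_succ {ι : Type} (X : Finset ι) (k : ι → ι → ℂ) (i : ℕ) (v : ι → ℂ) :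
    (apL X k ^ (i + 1)) v = ap X k ((apL X k ^ i) v) := by
  rw [pow_succ', Module.End.mul_apply]; rfl

theorem nS_eq_zero {ι : Type} {X : Finset ι} {u : ι → ℂ} (h : nS X u ≤ 0) {x : ι} (hx : x ∈ X) :
    u x = 0 := norm_le_zero_iff.1 ((le_nS u hx).trans h)

theorem exists_sol {ι : Type} [Fintype ι] [DecidableEq ι] {X : Finset ι} {A : ι → ι → ℂ}
    (h : ∀ u, nS X (u - ap X A u) ≤ 1 / 2 * nS X u) (b : ι → ℂ) :
    ∃ u : ι → ℂ, (∀ x ∉ X, u x = 0) ∧ ∀ x ∈ X, ap X A u x = b x := by
  let Ψ : (ι → ℂ) →ₗ[ℂ] (ι → ℂ) :=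
    { toFun := fun u x => if x ∈ X then ap X A u x else u x
      map_add' := fun u w => funext fun x => by
        simp only [ap_add', Pi.add_apply]; split_ifs <;> rfl
      map_smul' := fun c u => funext fun x => by
        have := congrFun ((apL X A).map_smul c u) x
        simp only [Pi.smul_apply, RingHom.id_apply]
        split_ifs
        · exact this
        · rfl }
  have hi : Function.Injective Ψ := (injective_iff_map_eq_zero Ψ).2 fun u hu => funext fun x => by
    have e : ∀ y, (if y ∈ X then ap X A u y else u y) = 0 := congrFun hu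
    by_cases hx : x ∈ X
    · have h1 := h u
      rw [nS_congr (w := u) fun y hy => by
        have := e y
        rw [if_pos hy] at this
        rw [Pi.sub_apply, this, sub_zero]] at h1
      exact nS_eq_zero (by linarith) hx
    · simpa [hx] using e x
  obtain ⟨u, hu⟩ := LinearMap.injective_iff_surjective.1 hi fun x => if x ∈ X then b x else 0
  have e : ∀ y, (if y ∈ X then ap X A u y else u y) = if y ∈ X then b y else 0 := congrFun hu
  exact ⟨u, fun x hx => by simpa [hx] using e x, fun x hx => by simpa [hx] using e x⟩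

variable {d M : ℕ} [NeZero M]

theorem sup_bound {X : Finset (Tor d M)} {k kf : Tor d M → Tor d M → ℂ} {a : Tor d M → ℝ}
    {u r : Tor d M → ℂ} {R j : ℕ} {ε c t : ℝ} (ha : ∀ x ∈ X, 1 / 2 ≤ a x ∧ a x ≤ 2) (hε0 : 0 ≤ ε)
    (hrow : ∀ x ∈ X, ∑ y ∈ X, ‖k x y‖ * a y ≤ (1 + ε) * a x) (hop : OpLe X k (1 / 5))
    (hr : ∀ x y, k x y ≠ 0 → nm (x - y) ≤ R) (hv : (vl d M (j * R) : ℝ) ≤ (5 ^ j / 2) ^ 2)
    (hε : (1 + ε) ^ j ≤ 2) (hf : ∀ x ∈ X, ∑ y ∈ X, ‖kf x y‖ ≤ t) (ht : 32 * j * t ≤ 1)
    (hu : ∀ x ∈ X, u x = r x + ap X k u x + ap X kf u x) (hc : ∀ x ∈ X, ‖r x‖ ≤ c) :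
    ∀ x ∈ X, ‖u x‖ ≤ 32 * j * c := by
  intro x0 hx0
  obtain ⟨x, hx, hm⟩ := exists_max_image X (fun x => ‖u x‖) ⟨x0, hx0⟩
  refine (hm x0 hx0).trans ?_
  have c0 : 0 ≤ c := (norm_nonneg _).trans (hc x hx)
  have t0 : 0 ≤ t := (sum_nonneg fun _ _ => norm_nonneg _).trans (hf x hx)
  set m := ‖u x‖ with hmd
  have m0 : 0 ≤ m := norm_nonneg _
  have s1 : ∀ (v : Tor d M → ℂ) (b : ℝ), 0 ≤ b → (∀ y ∈ X, ‖v y‖ ≤ b * a y) → ∀ i, ∀ y ∈ X,
      ‖(apL X k ^ i) v y‖ ≤ (1 + ε) ^ i * b * a y := fun v b hb h i => by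
    induction i with
    | zero => simpa using h
    | succ i ih =>
      intro y hy
      rw [apL_succ]
      refine (norm_sum_le _ _).trans ((sum_le_sum fun z hz => show _ ≤
        (1 + ε) ^ i * b * (‖k y z‖ * a z) by
          rw [norm_mul, mul_left_comm]
          exact mul_le_mul_of_nonneg_left (ih z hz) (norm_nonneg _)).trans ?_)
      rw [← mul_sum]
      exact (mul_le_mul_of_nonneg_left (hrow y hy) (by positivity)).trans_eq (by ring)
  have s2 : ∀ (v : Tor d M → ℂ) i, nS X ((apL X k ^ i) v) ≤ (1 / 5) ^ i * nS X v := fun v i => by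
    induction i with
    | zero => simp
    | succ i ih => rw [apL_succ, pow_succ']; linarith [hop ((apL X k ^ i) v)]
  have s3 : ∀ (v : Tor d M → ℂ) i, ∀ y ∈ X, (∀ z ∈ X ∩ bl y (i * R), v z = 0) →
      (apL X k ^ i) v y = 0 := fun v i => by
    induction i with
    | zero => exact fun y hy h => h y (mem_inter.2 ⟨hy, self_bl _ _⟩)
    | succ i ih =>
      intro y hy h
      rw [apL_succ]
      refine sum_eq_zero fun z hz => ?_
      by_cases e : k y z = 0
      · rw [e, zero_mul]
      rw [ih z hz fun w hw => h w (mem_inter.2 ⟨(mem_inter.1 hw).1, mem_bl.2 ?_⟩), mul_zero]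
      have := mem_bl.1 (mem_inter.1 hw).2
      have := hr y z e
      have := nm_tri w z y
      rw [nm_comm z y] at this
      rw [add_mul]
      omega
  have r1 : ∀ y ∈ X, ‖(u - ap X k u) y‖ ≤ 2 * (c + t * m) * a y := fun y hy => by
    have e : (u - ap X k u) y = r y + ap X kf u y := by rw [Pi.sub_apply, hu y hy]; ring
    have b1 : ‖ap X kf u y‖ ≤ t * m := (norm_sum_le _ _).trans ((sum_le_sum fun z hz => show _ ≤
        ‖kf y z‖ * m by
          rw [norm_mul]; exact mul_le_mul_of_nonneg_left (hm z hz) (norm_nonneg _)).trans (by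
      rw [← sum_mul]; exact mul_le_mul_of_nonneg_right (hf y hy) m0))
    have b2 := mul_le_mul_of_nonneg_left (ha y hy).1 (by positivity : 0 ≤ 2 * (c + t * m))
    rw [e]
    linarith [norm_add_le (r y) (ap X kf u y), hc y hy]
  have s4 : ∀ i ≤ j, ‖u x - (apL X k ^ i) u x‖ ≤ i * (8 * (c + t * m)) := fun i => by
    induction i with
    | zero => simp
    | succ i ih =>
      intro hi
      have e : u x - (apL X k ^ (i + 1)) u x =
          u x - (apL X k ^ i) u x + (apL X k ^ i) (u - ap X k u) x := by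
        rw [map_sub, pow_succ, Module.End.mul_apply, Pi.sub_apply, sub_add_sub_cancel]; rfl
      have b1 := s1 _ _ (by positivity) r1 i x hx
      have b2 : (1 + ε) ^ i ≤ 2 := (pow_le_pow_right₀ (by linarith) (by omega)).trans hε
      have b3 := mul_le_mul (mul_le_mul_of_nonneg_right b2 (by positivity : 0 ≤ 2 * (c + t * m)))
        (ha x hx).2 (by linarith [(ha x hx).1]) (by positivity)
      rw [e]
      push_cast
      linarith [norm_add_le (u x - (apL X k ^ i) u x) ((apL X k ^ i) (u - ap X k u) x),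
        ih (by omega)]
  have s5 : ‖(apL X k ^ j) u x‖ ≤ m / 2 := by
    have e := s3 (u - fun y => if y ∈ bl x (j * R) then u y else 0) j x hx fun z hz => by
      simp [(mem_inter.1 hz).2]
    rw [map_sub, Pi.sub_apply, sub_eq_zero] at e
    rw [e]
    refine (le_nS _ hx).trans ((s2 _ j).trans ?_)
    have b1 : nS (X ∩ bl x (j * R)) u ≤ 5 ^ j / 2 * m := by
      rw [nS_le_iff (by positivity), mul_pow]
      refine (sum_le_card_nsmul _ _ (m ^ 2) fun y hy =>
        pow_le_pow_left₀ (norm_nonneg _) (hm y (mem_inter.1 hy).1) 2).trans ?_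
      rw [nsmul_eq_mul]
      refine mul_le_mul_of_nonneg_right (le_trans ?_ hv) (sq_nonneg _)
      exact Nat.cast_le.2 ((card_le_card inter_subset_right).trans_eq (card_ball x (j * R)))
    rw [nS_ite]
    refine (mul_le_mul_of_nonneg_left b1 (by positivity)).trans_eq ?_
    rw [one_div, inv_pow]
    field_simp
  have b1 := norm_add_le (u x - (apL X k ^ j) u x) ((apL X k ^ j) u x)
  rw [sub_add_cancel] at b1
  have b2 := mul_le_mul_of_nonneg_right ht m0
  linarith [s4 j le_rfl]

end Pool.Agent.P.MP_d0f69c_mp.XS
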