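import Pool.Agent.P.MP_d0f69c_mp.XS.Nw1

/-!
Perturbation estimates for a small diagonal change.
-/

set_option autoImplicit false

open Finset Real

namespace Pool.Agent.P.MP_d0f69c_mp.XS

variable {ι : Type}

/-- the setting: `G' = G - G Δ G'` with a small `Δ` on `X` -/
structure Prt (X : Finset ι) (G G' : ι → ι → ℂ) (Δ : ι → ℂ) (δ s : ℝ) : Prop where
  sym : ∀ x y, G x y = G y x
  sym' : ∀ x y, G' x y = G' y x
  id : ∀ x y, G' x y = G x y - ∑ z ∈ X, G x z * Δ z * G' z y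
  δ0 : 0 ≤ δ
  le : ∀ x ∈ X, ‖Δ x‖ ≤ δ
  s0 : 0 ≤ s
  op : OpLe X (fun x y => G x y * Δ y) s
  op' : OpLe X (fun x y => G' x y * Δ y) s
  s1 : s ≤ 1 / 3

namespace Prt

variable {X : Finset ι} {G G' : ι → ι → ℂ} {Δ : ι → ℂ} {δ s : ℝ}

theorem row (h : Prt X G G' Δ δ s) {x : ι} (hx : nS X (G x) ≤ 3) : nS X (G' x - G x) ≤ 3 * s := by
  have h1 := (h.op' (G x)).trans (mul_le_mul_of_nonneg_left hx h.s0)
  rw [mul_comm] at h1
  refine le_trans (nS_le_nS fun y _ => le_of_eq ?_) h1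
  rw [Pi.sub_apply, h.id x y, sub_sub_cancel_left, norm_neg, ap]
  exact congrArg _ (sum_congr rfl fun z _ => by rw [h.sym' z y]; ring)

theorem row' (h : Prt X G G' Δ δ s) {x : ι} (hx : nS X (G x) ≤ 3) : nS X (G' x) ≤ 4 := by
  have := nS_add X (G x) (G' x - G x)
  rw [add_sub_cancel] at this
  linarith [h.row hx, h.s1]

theorem mul_le (h : Prt X G G' Δ δ s) {x : ι} (hx : nS X (G x) ≤ 3) :
    nS X (fun z => G x z * Δ z) ≤ 3 * δ := by
  have := nS_le_mul (S := X) (u := fun z => G x z * Δ z) (w := G x) h.δ0 fun z hz => by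
    rw [norm_mul, mul_comm]; exact mul_le_mul_of_nonneg_right (h.le z hz) (norm_nonneg _)
  nlinarith [h.δ0]

theorem sup (h : Prt X G G' Δ δ s) {x y : ι} (hx : nS X (G x) ≤ 3) (hy : nS X (G y) ≤ 3) :
    ‖G' x y - G x y‖ ≤ 12 * δ := by
  rw [h.id x y, sub_sub_cancel_left, norm_neg]
  simp only [h.sym' _ y]
  exact (nS_cs X (fun z => G x z * Δ z) (G' y)).trans ((mul_le_mul (h.mul_le hx) (h.row' hy)
    (nS_nonneg _ _) (by linarith [h.δ0])).trans_eq (by ring))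

theorem second (h : Prt X G G' Δ δ s) {x : ι} (hx : nS X (G x) ≤ 3) :
    ‖G' x x - G x x + ∑ z ∈ X, G x z ^ 2 * Δ z‖ ≤ 9 * δ * s := by
  have e : G' x x - G x x + ∑ z ∈ X, G x z ^ 2 * Δ z =
      -∑ z ∈ X, G x z * Δ z * (G' x - G x) z := by
    rw [h.id x x, sub_sub_cancel_left, ← sub_eq_neg_add, ← sum_sub_distrib, ← sum_neg_distrib]
    exact sum_congr rfl fun z _ => by rw [h.sym' z x, Pi.sub_apply]; ring
  rw [e, norm_neg]
  exact (nS_cs X (fun z => G x z * Δ z) _).trans ((mul_le_mul (h.mul_le hx) (h.row hx)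
    (nS_nonneg _ _) (by linarith [h.δ0])).trans_eq (by ring))

theorem four (h : Prt X G G' Δ δ s) (hX : ∀ y ∈ X, nS X (G y) ≤ 3) {x : ι} (hx : nS X (G x) ≤ 3)
    {S : Finset ι} (hS : S ⊆ X) :
    ∑ y ∈ S, ‖G' x y‖ ^ 4 ≤ 116 / 100 * ∑ y ∈ S, ‖G x y‖ ^ 4 + 9261 * (36 * δ * s) ^ 2 := by
  have h1 := pow_le_pow_left₀ (nS_nonneg _ _) ((nS_mono hS _).trans (h.row hx)) 2
  have h2 := mul_le_mul_of_nonneg_left h1 (by positivity : 0 ≤ 9261 * (12 * δ) ^ 2)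
  rw [nS_sq, mul_sum] at h2
  refine le_trans ?_ (add_le_add le_rfl (h2.trans_eq (by ring)))
  rw [mul_sum, ← sum_add_distrib]
  refine sum_le_sum fun y hy => ?_
  have a1 := pow_le_pow_left₀ (norm_nonneg _) (h.sup hx (hX y (hS hy))) 2
  have a2 := norm_add_le (G x y) (G' x y - G x y)
  rw [add_sub_cancel] at a2
  rw [Pi.sub_apply]
  have a3 := pow_le_pow_left₀ (norm_nonneg _) a2 4
  generalize ‖G x y‖ = a at *
  generalize ‖G' x y - G x y‖ = b at *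
  have b1 : (a + b) ^ 2 ≤ 21 / 20 * a ^ 2 + 21 * b ^ 2 := by nlinarith [sq_nonneg (a - 20 * b)]
  have b2 := pow_le_pow_left₀ (sq_nonneg _) b1 2
  have b3 := mul_le_mul_of_nonneg_right a1 (sq_nonneg b)
  nlinarith [sq_nonneg (a ^ 2 - 400 * b ^ 2), sq_nonneg (a ^ 2)]

theorem sq_row (h : Prt X G G' Δ δ s) {x : ι} (hx : nS X (G x) ≤ 3) :
    ∑ y ∈ X, ‖G' x y ^ 2 - G x y ^ 2‖ ≤ 21 * s := by
  have h1 := (nS_cs' X (G' x - G x) (G' x + G x)).trans (mul_le_mul (h.row hx)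
    ((nS_add _ _ _).trans (add_le_add (h.row' hx) hx)) (nS_nonneg _ _) (by linarith [h.s0]))
  refine le_trans (le_of_eq (sum_congr rfl fun y _ => ?_)) (h1.trans_eq (by ring))
  rw [← norm_mul, Pi.sub_apply, Pi.add_apply]
  congr 1
  ring

theorem hs_row {A C : ι → ι → ℂ} (h : ∀ x ∈ X, nS X (A x) ≤ s * nS X (C x)) (hs : 0 ≤ s) :
    nS (X ×ˢ X) (fun p => A p.1 p.2) ≤ s * nS (X ×ˢ X) fun p => C p.1 p.2 := by
  rw [nS_le_iff (mul_nonneg hs (nS_nonneg _ _)), mul_pow, nS_sq, sum_product, sum_product, mul_sum]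
  refine sum_le_sum fun x hx => ?_
  have := pow_le_pow_left₀ (nS_nonneg _ _) (h x hx) 2
  rwa [mul_pow, nS_sq, nS_sq] at this

theorem hs_swap (A : ι → ι → ℂ) :
    nS (X ×ˢ X) (fun p => A p.2 p.1) = nS (X ×ˢ X) fun p => A p.1 p.2 := by
  rw [nS, nS, sum_product, sum_product, sum_comm]

/-- the commutator with `f` changes little in the Hilbert-Schmidt norm -/
theorem hs (h : Prt X G G' Δ δ s) (f : ι → ℝ) :
    nS (X ×ˢ X) (fun p => (G' p.1 p.2 - G p.1 p.2) * ((f p.1 : ℂ) - f p.2)) ≤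
      3 * s * nS (X ×ˢ X) fun p => G p.1 p.2 * ((f p.1 : ℂ) - f p.2) := by
  have h1 := hs_row (X := X) (C := fun x y => G x y * ((f x : ℂ) - f y))
    (A := fun x => ap X (fun x y => G' x y * Δ y) fun y => G x y * ((f x : ℂ) - f y))
    (fun x _ => h.op' _) h.s0
  have h2 := hs_row (X := X) (C := fun y x => G' x y * ((f x : ℂ) - f y))
    (A := fun y => ap X (fun x y => G x y * Δ y) fun x => G' x y * ((f x : ℂ) - f y))
    (fun x _ => h.op _) h.s0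
  rw [← hs_swap fun y => ap X (fun x y => G x y * Δ y) fun x => G' x y * ((f x : ℂ) - f y),
    ← hs_swap fun y x => G' x y * ((f x : ℂ) - f y)] at h2
  have h3 := (nS_add _ _ _).trans (add_le_add h1 h2)
  have h4 := nS_add (X ×ˢ X) (fun p => G p.1 p.2 * ((f p.1 : ℂ) - f p.2))
    fun p => (G' p.1 p.2 - G p.1 p.2) * ((f p.1 : ℂ) - f p.2)
  rw [nS_congr (w := fun p => G' p.1 p.2 * ((f p.1 : ℂ) - f p.2)) fun p _ => by
    simp only [Pi.add_apply]; ring] at h4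
  have h5 := le_trans (nS_le_nS (u := fun p : ι × ι => (G' p.1 p.2 - G p.1 p.2) *
      ((f p.1 : ℂ) - f p.2)) fun p _ => le_of_eq (by
    rw [h.id p.1 p.2, sub_sub_cancel_left, neg_mul, norm_neg, sum_mul, Pi.add_apply, ap, ap,
      ← sum_add_distrib]
    exact congrArg _ (sum_congr rfl fun z _ => by rw [h.sym' p.2 z]; ring))) h3
  have h6 := mul_le_mul_of_nonneg_left h4 h.s0
  have h7 := mul_le_mul_of_nonneg_right h.s1 (nS_nonneg (X ×ˢ X)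
    fun p => (G' p.1 p.2 - G p.1 p.2) * ((f p.1 : ℂ) - f p.2))
  linarith

/-- relative change of the Dirichlet form -/
theorem en (h : Prt X G G' Δ δ s) {a a' : ι → ℝ} (ha : ∀ x ∈ X, 1 / 2 ≤ a x ∧ a x ≤ 2)
    (ha' : ∀ x ∈ X, 0 ≤ a' x ∧ a' x ≤ 2) (haa : ∀ x ∈ X, |a' x - a x| ≤ s) (f : ι → ℝ) :
    |En X (fun x y => a' x * a' y * ‖G' x y‖ ^ 2) f - En X (fun x y => a x * a y * ‖G x y‖ ^ 2) f|
      ≤ 300 * s * En X (fun x y => a x * a y * ‖G x y‖ ^ 2) f := by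
  have s0 := h.s0
  have s1 := h.s1
  set C : ι × ι → ℂ := fun p => G p.1 p.2 * ((f p.1 : ℂ) - f p.2) with hC
  set D : ι × ι → ℂ := fun p => (G' p.1 p.2 - G p.1 p.2) * ((f p.1 : ℂ) - f p.2) with hD
  have h1 : nS (X ×ˢ X) D ≤ 3 * s * nS (X ×ˢ X) C := h.hs f
  have e : ∀ (b : ι → ℝ) (F : ι → ι → ℂ), En X (fun x y => b x * b y * ‖F x y‖ ^ 2) f =
      (∑ p ∈ X ×ˢ X, b p.1 * b p.2 * ‖F p.1 p.2 * ((f p.1 : ℂ) - f p.2)‖ ^ 2) / 2 := fun b F => by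
    rw [En, sum_product]
    congr 1
    refine sum_congr rfl fun x _ => sum_congr rfl fun y _ => ?_
    rw [norm_mul, ← Complex.ofReal_sub, Complex.norm_real, mul_pow, Real.norm_eq_abs, sq_abs]
    ring
  rw [e, e, ← sub_div, ← sum_sub_distrib, abs_div, abs_two, ← mul_div_assoc]
  refine div_le_div_of_nonneg_right ((abs_sum_le_sum_abs _ _).trans ?_) zero_le_two
  have h2 : ∀ p ∈ X ×ˢ X, |a' p.1 * a' p.2 * ‖G' p.1 p.2 * ((f p.1 : ℂ) - f p.2)‖ ^ 2 -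
      a p.1 * a p.2 * ‖C p‖ ^ 2| ≤
      4 * s * ‖C p‖ ^ 2 + 8 * (‖C p‖ * ‖D p‖) + 4 * ‖D p‖ ^ 2 := fun p hp => by
    obtain ⟨hx, hy⟩ := mem_product.1 hp
    have e1 : G' p.1 p.2 * ((f p.1 : ℂ) - f p.2) = C p + D p := by simp only [hC, hD]; ring
    have a1 := norm_add_le (C p) (D p)
    have a2 := norm_sub_le (C p + D p) (D p)
    rw [add_sub_cancel_right] at a2
    have a3 : |a' p.1 * a' p.2 - a p.1 * a p.2| ≤ 4 * s := by
      rw [show a' p.1 * a' p.2 - a p.1 * a p.2 = (a' p.1 - a p.1) * a' p.2 +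
        a p.1 * (a' p.2 - a p.2) by ring]
      refine (abs_add_le _ _).trans ?_
      rw [abs_mul, abs_mul, abs_of_nonneg (ha' _ hy).1,
        abs_of_nonneg (by linarith [(ha _ hx).1] : 0 ≤ a p.1)]
      have b1 := mul_le_mul (haa _ hx) (ha' _ hy).2 (ha' _ hy).1 s0
      have b2 := mul_le_mul (ha _ hx).2 (haa _ hy) (abs_nonneg _) zero_le_two
      linarith
    have a4 : a' p.1 * a' p.2 ≤ 4 :=
      (mul_le_mul (ha' _ hx).2 (ha' _ hy).2 (ha' _ hy).1 zero_le_two).trans_eq (by norm_num)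
    have a5 := mul_nonneg (ha' _ hx).1 (ha' _ hy).1
    have a6 : |‖C p + D p‖ ^ 2 - ‖C p‖ ^ 2| ≤ 2 * (‖C p‖ * ‖D p‖) + ‖D p‖ ^ 2 := by
      have n1 := norm_nonneg (C p)
      have n2 := norm_nonneg (D p)
      have n3 := norm_nonneg (C p + D p)
      rw [abs_le]; constructor <;> nlinarith
    rw [e1, show a' p.1 * a' p.2 * ‖C p + D p‖ ^ 2 - a p.1 * a p.2 * ‖C p‖ ^ 2 =
      (a' p.1 * a' p.2 - a p.1 * a p.2) * ‖C p‖ ^ 2 +
        a' p.1 * a' p.2 * (‖C p + D p‖ ^ 2 - ‖C p‖ ^ 2) by ring]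
    refine (abs_add_le _ _).trans ?_
    rw [abs_mul, abs_mul (a' p.1 * a' p.2), abs_of_nonneg (sq_nonneg ‖C p‖), abs_of_nonneg a5]
    have b1 := mul_le_mul_of_nonneg_right a3 (sq_nonneg ‖C p‖)
    have b2 := mul_le_mul a4 a6 (abs_nonneg _) (by norm_num)
    linarith
  refine (sum_le_sum h2).trans ?_
  have h3 : nS (X ×ˢ X) C ^ 2 ≤ 4 * ∑ p ∈ X ×ˢ X, a p.1 * a p.2 * ‖C p‖ ^ 2 := by
    rw [nS_sq, mul_sum]
    refine sum_le_sum fun p hp => ?_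
    obtain ⟨hx, hy⟩ := mem_product.1 hp
    have := mul_le_mul (ha _ hx).1 (ha _ hy).1 (by norm_num) (by linarith [(ha _ hx).1])
    nlinarith [sq_nonneg ‖C p‖]
  have h4 := nS_cs' (X ×ˢ X) C D
  rw [sum_add_distrib, sum_add_distrib, ← mul_sum, ← mul_sum, ← mul_sum, ← nS_sq, ← nS_sq]
  have n1 := nS_nonneg (X ×ˢ X) C
  have n2 := nS_nonneg (X ×ˢ X) D
  have h5 := mul_le_mul_of_nonneg_left h1 n1
  have h6 := mul_le_mul_of_nonneg_left h1 n2
  have h7 := mul_le_mul_of_nonneg_left h3 s0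
  have h8 := mul_le_mul_of_nonneg_right s1 (mul_nonneg n1 n2)
  have h9 := mul_nonneg s0 (sq_nonneg (nS (X ×ˢ X) C))
  show _ ≤ 300 * s * ∑ p ∈ X ×ˢ X, a p.1 * a p.2 * ‖C p‖ ^ 2
  nlinarith

end Prt

end Pool.Agent.P.MP_d0f69c_mp.XS
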