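import Pool.Agent.P.MP_d0f69c_mp.XS.Nw2
import Pool.Agent.P.MP_d0f69c_mp.XS.Loci

/-!
The tuning function, and the correction of the Newton step.
-/

set_option autoImplicit false

open Finset Real

namespace Pool.Agent.P.MP_d0f69c_mp.XS

namespace NwA

theorem den {s : ℂ} (h : ‖s‖ ≤ 1 / 10) : 99 / 100 ≤ ‖1 - s ^ 2‖ ∧ ‖1 - s ^ 2‖ ≤ 101 / 100 := by
  have w2 : ‖s ^ 2‖ ≤ 1 / 100 := by rw [norm_pow]; nlinarith [norm_nonneg s]
  have a := norm_sub_norm_le 1 (s ^ 2)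
  have b := norm_sub_le 1 (s ^ 2)
  rw [norm_one] at a b
  constructor <;> linarith

theorem den_ne {s : ℂ} (h : ‖s‖ ≤ 1 / 10) : 1 - s ^ 2 ≠ 0 := fun e => by
  have := (den h).1
  rw [e, norm_zero] at this
  linarith

theorem phi_eq {s : ℂ} : phi s = -s / (1 - s ^ 2) := by
  rw [phi, ← neg_sub 1, div_neg, neg_div]

theorem phi_norm {s : ℂ} (h : ‖s‖ ≤ 1 / 10) : ‖phi s‖ * ‖1 - s ^ 2‖ = ‖s‖ := by
  rw [← norm_mul, phi_eq, div_mul_cancel₀ _ (den_ne h), norm_neg]

theorem phi_le {s : ℂ} (h : ‖s‖ ≤ 1 / 10) : ‖phi s‖ ≤ 1 / 4 := by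
  nlinarith [phi_norm h, (den h).1, norm_nonneg (phi s)]

theorem phi_im {s : ℂ} (h : ‖s‖ ≤ 1 / 10) :
    (phi s).im * ‖1 - s ^ 2‖ ^ 2 = -s.im * (1 + ‖s‖ ^ 2) := by
  have h0 : Complex.normSq (1 - s ^ 2) ≠ 0 := by simpa using den_ne h
  rw [phi_eq, Complex.div_im, Complex.sq_norm, Complex.sq_norm, ← sub_div, div_mul_cancel₀ _ h0,
    Complex.normSq_apply]
  simp [sq]
  ring

theorem phi_two {s t : ℂ} (h : ‖s‖ ≤ 1 / 10) (h' : ‖t‖ ≤ 1 / 10) :
    ‖phi t - phi s + (1 + s ^ 2) / (1 - s ^ 2) ^ 2 * (t - s)‖ ≤ ‖t - s‖ ^ 2 := by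
  have a := den_ne h
  have b := den_ne h'
  have e : phi t - phi s + (1 + s ^ 2) / (1 - s ^ 2) ^ 2 * (t - s) =
      -(t - s) ^ 2 * ((2 * s + t + s ^ 2 * t) / ((1 - s ^ 2) ^ 2 * (1 - t ^ 2))) := by
    rw [phi_eq, phi_eq]; field_simp; ring
  rw [e, norm_mul, norm_neg, norm_pow]
  refine mul_le_of_le_one_right (sq_nonneg _) ?_
  rw [norm_div, norm_mul, norm_pow]
  refine div_le_one_of_le₀ ?_ (by positivity)
  have c1 := norm_add₃_le (a := 2 * s) (b := t) (c := s ^ 2 * t)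
  rw [norm_mul, norm_mul, norm_pow, Complex.norm_two] at c1
  have c2 := mul_le_mul (pow_le_pow_left₀ (norm_nonneg _) h 2) h' (norm_nonneg _) (by norm_num)
  have c3 := mul_le_mul (pow_le_pow_left₀ (by norm_num) (den h).1 2) (den h').1 (by norm_num)
    (sq_nonneg _)
  linarith

theorem diag_le {s t : ℂ} (h : ‖s‖ ≤ 1 / 10) (h' : ‖t‖ ≤ 1 / 10) :
    ‖1 / (1 - t ^ 2) ^ 2 - 1 / (1 - s ^ 2) ^ 2‖ ≤ ‖t - s‖ := by
  have a := den_ne h
  have b := den_ne h'
  have e : 1 / (1 - t ^ 2) ^ 2 - 1 / (1 - s ^ 2) ^ 2 = (t - s) *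
      ((t + s) * ((1 - s ^ 2) + (1 - t ^ 2)) / ((1 - s ^ 2) ^ 2 * (1 - t ^ 2) ^ 2)) := by
    field_simp; ring
  rw [e, norm_mul]
  refine mul_le_of_le_one_right (norm_nonneg _) ?_
  rw [norm_div, norm_mul, norm_mul, norm_pow, norm_pow]
  refine div_le_one_of_le₀ ?_ (by positivity)
  have c1 := mul_le_mul ((norm_add_le t s).trans (add_le_add h' h))
    ((norm_add_le (1 - s ^ 2) (1 - t ^ 2)).trans (add_le_add (den h).2 (den h').2))
    (norm_nonneg _) (by norm_num)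
  have c3 := mul_le_mul (pow_le_pow_left₀ (by norm_num) (den h).1 2)
    (pow_le_pow_left₀ (by norm_num) (den h').1 2) (by norm_num) (sq_nonneg _)
  linarith

/-- the weighted row sum -/
theorem wrow {η a m R : ℝ} {s g : ℂ} (hη : 0 < η) (η1 : η ≤ 1) (h : ‖s‖ ≤ 1 / 10)
    (ha : η * a = -s.im) (a0 : 1 / 2 ≤ a) (a2 : a ≤ 2) (hm : ‖g - phi s‖ ≤ m)
    (hR : η * (a * ‖g‖ ^ 2 + R) ≤ g.im) : ‖1 - s ^ 2‖ ^ 2 * R ≤ (1 + 8 * (m / η)) * a := by
  have m0 : 0 ≤ m := (norm_nonneg _).trans hm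
  have h1 : g.im ≤ (phi s).im + m := by
    have := (Complex.im_le_norm (g - phi s)).trans hm
    rw [Complex.sub_im] at this
    linarith
  have h2 : ‖phi s‖ ^ 2 - m ≤ ‖g‖ ^ 2 := by
    have b1 := norm_sub_norm_le (phi s) g
    rw [norm_sub_rev] at b1
    have b2 := phi_le h
    have b3 := norm_nonneg (phi s)
    have b4 := norm_nonneg g
    rcases le_total ‖phi s‖ ‖g‖ with c | c <;> nlinarith
  have h3 := phi_im h
  have h4 : ‖phi s‖ ^ 2 * ‖1 - s ^ 2‖ ^ 2 = ‖s‖ ^ 2 := by rw [← mul_pow, phi_norm h]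
  have h5 : ‖1 - s ^ 2‖ ^ 2 ≤ 4 / 3 := by nlinarith [(den h).2, norm_nonneg (1 - s ^ 2)]
  have h6 : η * a ≤ 2 := by nlinarith
  have h7 : η * R ≤ (phi s).im - η * a * ‖phi s‖ ^ 2 + 3 * m := by
    have b1 := mul_le_mul_of_nonneg_left h2 (by positivity : 0 ≤ η * a)
    have b2 := mul_le_mul_of_nonneg_right h6 m0
    linarith
  have h8 := mul_le_mul_of_nonneg_left h7 (sq_nonneg ‖1 - s ^ 2‖)
  have h9 := mul_le_mul_of_nonneg_right h5 m0
  have h10 := mul_le_mul_of_nonneg_left a0 m0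
  refine le_of_mul_le_mul_left ?_ hη
  have e : η * ((1 + 8 * (m / η)) * a) = η * a + 8 * (m * a) := by field_simp
  rw [← ha] at h3
  have e2 : ‖1 - s ^ 2‖ ^ 2 * (η * a * ‖phi s‖ ^ 2) = η * a * ‖s‖ ^ 2 := by rw [← h4]; ring
  rw [e]
  linarith

end NwA

open NwA

variable {d M : ℕ} [NeZero M] {E : Env d M} {q : Par} {b : Bd} {S : St (Tor d M)}

/-- off the diagonal the rows of open sites are bounded -/
theorem Inv.row_off (h : Inv E b S) (hE : E.OK) (hθ : b.θ ≤ 1 / 2) (hθ0 : 0 ≤ b.θ) {x : Tor d M}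
    (hx : x ∈ S.O) : ∑ y ∈ S.O.erase x, ‖S.G x y‖ ^ 2 ≤ 8 := by
  have g := h.gok0 hE (by linarith)
  have h1 := h.ul.1 (Pi.single x 1)
  rw [St.G, En_single g.Ksym hx] at h1
  have h2 := mul_le_mul (by linarith : 1 + b.θ ≤ 3 / 2) (LociA.single hE x)
    (NF_nonneg hE.ref.p0 _) (by norm_num)
  have h3 : ∑ y ∈ S.O.erase x, ‖S.G x y‖ ^ 2 ≤
      4 * ∑ y ∈ S.O.erase x, Kk E.η S.W (NW.GG S.H S.W) x y := by
    rw [mul_sum]
    refine sum_le_sum fun y hy => ?_
    have := mul_le_mul (h.aw_half hθ hx).1 (h.aw_half hθ (mem_erase.1 hy).2).1 (by norm_num)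
      (g.a0 x)
    have := mul_le_mul_of_nonneg_right this (sq_nonneg ‖S.G x y‖)
    rw [Kk, ← St.G]
    linarith
  linarith

theorem Inv.row_good (h : Inv E b S) (hE : E.OK) (hθ : b.θ ≤ 1 / 10) (hθ0 : 0 ≤ b.θ)
    (hm : b.mis ≤ 1 / 2) {x : Tor d M} (hx : x ∈ S.O) : nS S.good (S.G x) ≤ 3 := by
  rw [nS_le_iff (by norm_num)]
  have h1 := (sum_le_sum_of_subset_of_nonneg (erase_subset_erase x S.good_sub)
    fun _ _ _ => sq_nonneg _).trans (h.row_off hE (by linarith) hθ0 hx)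
  by_cases hg : x ∈ S.good
  · have h2 := norm_sub_norm_le (S.G x x) (phi (S.W x))
    have h3 := phi_le ((h.opn x hx).1.trans hθ)
    have h4 := h.mis x hg
    rw [← add_sum_erase _ _ hg]
    nlinarith [norm_nonneg (S.G x x)]
  · rw [erase_eq_of_notMem hg] at h1
    linarith

theorem exists_corr (hF : S_FAR) (hE : E.OK) (hq : q.OK E) (h : Inv E b S) (hθ : b.θ ≤ 1 / 100)
    (hθ0 : 0 ≤ b.θ) (hm : b.mis ≤ E.η / (q.P : ℝ) ^ 3) (hB : b.B = q.B) (hl : b.l = q.l) :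
    ∃ u : Tor d M → ℂ, (∀ x ∉ S.good, u x = 0) ∧
      (∀ x ∈ S.good, ap S.good (Am S.W S.G) u x = phi (S.W x) - S.G x x) ∧
      ∀ x ∈ S.good, ‖u x‖ ≤ 64 * (q.P : ℝ) ^ 2 * b.mis := by
  have hP := hq.Ppos hE
  have P9 := hq.P9 hE
  have η0 := hE.η0
  have η1 : E.η ≤ 1 := hE.η1.trans (by norm_num)
  have τ0 := Par.OK.τpos q
  have g := h.gok0 hE (by linarith)
  have hA : ∀ u, nS S.good (u - ap S.good (Am S.W S.G) u) ≤ 1 / 20 * nS S.good u := fun u => by
    have := h.rr.norm hθ0 u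
    nlinarith [nS_nonneg S.good u, nS_nonneg S.good (u - ap S.good (Am S.W S.G) u)]
  obtain ⟨u, u0, u1⟩ := exists_sol (fun u => (hA u).trans (mul_le_mul_of_nonneg_right (by norm_num)
    (nS_nonneg _ _))) fun x => phi (S.W x) - S.G x x
  refine ⟨u, u0, u1, fun x hx => ?_⟩
  have m0 : 0 ≤ b.mis := (norm_nonneg _).trans (h.mis x hx)
  have hW : ∀ y ∈ S.good, ‖S.W y‖ ≤ 1 / 10 := fun y hy =>
    (h.opn y (S.good_sub hy)).1.trans (by linarith)
  have hD : ∀ y ∈ S.good, ‖(1 - S.W y ^ 2) ^ 2‖ ≤ 11 / 10 := fun y hy => by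
    rw [norm_pow]; nlinarith [(den (hW y hy)).2, norm_nonneg (1 - S.W y ^ 2)]
  let k : Tor d M → Tor d M → ℂ := fun y z =>
    if y = z then 0 else (1 - S.W y ^ 2) ^ 2 * S.G y z ^ 2
  have hk : ∀ v, ∀ y ∈ S.good,
      ap S.good k v y = v y - (1 - S.W y ^ 2) ^ 2 * ap S.good (Am S.W S.G) v y := fun v y hy => by
    have := den_ne (hW y hy)
    rw [ap, ap, ← add_sum_erase _ _ hy, ← add_sum_erase _ _ hy, mul_add, mul_sum, ← sub_sub,
      sub_eq_add_neg, ← sum_neg_distrib]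
    congr 1
    · simp only [k, Am, if_true]; field_simp; ring
    · refine sum_congr rfl fun z hz => ?_
      simp only [k, Am, if_neg (mem_erase.1 hz).1.symm]; ring
  have ok : OpLe S.good k (1 / 10) := fun v => by
    rw [nS_congr (w := (fun y => (1 - S.W y ^ 2) ^ 2 * (v - ap S.good (Am S.W S.G) v) y) +
      fun y => S.W y ^ 2 * (1 + (1 - S.W y ^ 2)) * v y) fun y hy => by
        rw [hk v y hy]; simp only [Pi.add_apply, Pi.sub_apply]; ring]
    have a1 := nS_le_mul (S := S.good) (w := v - ap S.good (Am S.W S.G) v)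
      (u := fun y => (1 - S.W y ^ 2) ^ 2 * (v - ap S.good (Am S.W S.G) v) y) (c := 11 / 10)
      (by norm_num) fun y hy => by
        rw [norm_mul]; exact mul_le_mul_of_nonneg_right (hD y hy) (norm_nonneg _)
    have a2 := nS_le_mul (S := S.good) (w := v) (c := 1 / 40)
      (u := fun y => S.W y ^ 2 * (1 + (1 - S.W y ^ 2)) * v y) (by norm_num) fun y hy => by
        rw [norm_mul, norm_mul, norm_pow]
        refine mul_le_mul_of_nonneg_right ?_ (norm_nonneg _)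
        have b1 := norm_add_le 1 (1 - S.W y ^ 2)
        rw [norm_one] at b1
        exact (mul_le_mul (pow_le_pow_left₀ (norm_nonneg _) (hW y hy) 2)
          (b1.trans (add_le_add le_rfl (den (hW y hy)).2)) (norm_nonneg _) (by norm_num)).trans
          (by norm_num)
    linarith [nS_add S.good (fun y => (1 - S.W y ^ 2) ^ 2 * (v - ap S.good (Am S.W S.G) v) y)
      fun y => S.W y ^ 2 * (1 + (1 - S.W y ^ 2)) * v y, hA v, nS_nonneg S.good v]
  obtain ⟨hv, hfar⟩ := hF d M E q hE hq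
  replace hfar := (hfar 0 (by norm_num)).1
  set R := q.D E.η 0
  set l := q.li E.η 0 with hld
  have f0 := fk_nonneg (d := d) (M := M) (exp_pos ((q.P : ℝ) ^ 6)).le l R
  have τ1 : q.τ ≤ 1 / (q.P : ℝ) ^ 3 :=
    (hq.τ_le hE (by norm_num)).trans (div_le_div_of_nonneg_right η1 (by positivity))
  have τ2 : 64 * (q.P : ℝ) ^ 2 * q.τ ≤ 1 := by
    rw [le_div_iff₀ (by positivity)] at τ1
    have := mul_le_mul_of_nonneg_left (hq.pow_lt hE (a := 2) (b := 3) (c := 64) (by norm_num)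
      (by norm_num)) τ0.le
    linarith
  have τ3 : q.τ ≤ 1 / 20 := by
    have := mul_le_mul_of_nonneg_right (one_le_pow₀ (n := 2) (hq.Pone hE)) τ0.le
    linarith
  let kf : Tor d M → Tor d M → ℂ := fun y z => if R < nm (y - z) then k y z else 0
  have kb : ∀ y ∈ S.good, ∀ z, ‖kf y z‖ ≤ 2 * fk (exp ((q.P : ℝ) ^ 6)) l R y z := fun y hy z => by
    simp only [kf, k]
    split_ifs with h1 h2
    · simpa using f0 y z
    · have a1 : Dec S.G S.O q.B l := by rw [hld, Par.OK.li_zero, ← hB, ← hl]; exact h.dec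
      have a2 := (le_mul_of_one_le_left (norm_nonneg _) (one_le_exp (by positivity))).trans
        (a1.fk ((Par.OK.Bi_zero q).symm.trans_le (hq.Bi_le (by norm_num))) (hq.li_one hE 0) le_rfl
          (S.good_sub hy) h1)
      have a3 := hfar.row (exp_pos _).le {z} y
      rw [sum_singleton] at a3
      rw [norm_mul, norm_pow (S.G y z)]
      exact mul_le_mul ((hD y hy).trans (by norm_num)) (by nlinarith [norm_nonneg (S.G y z)])
        (sq_nonneg _) zero_le_two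
    · simpa using f0 y z
  have kr : ∀ y, ∑ z ∈ S.good, 2 * fk (exp ((q.P : ℝ) ^ 6)) l R y z ≤ 2 * q.τ := fun y => by
    rw [← mul_sum]; linarith [hfar.row (exp_pos _).le S.good y]
  have of : OpLe S.good kf (2 * q.τ) := OpLe.schur (fun y hy z _ => kb y hy z) (by positivity)
    (fun y _ => kr y) fun z _ => by simp only [fk_symm _ _ _ _ z]; exact kr z
  have m1 : (q.P : ℝ) ^ 2 * (8 * (b.mis / E.η)) ≤ 1 / 2 := by
    have a1 : b.mis / E.η * (q.P : ℝ) ^ 3 ≤ 1 := by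
      rw [div_mul_eq_mul_div, div_le_one η0, ← le_div_iff₀ (by positivity)]; exact hm
    have a2 := mul_le_mul_of_nonneg_left (hq.pow_lt hE (a := 2) (b := 3) (c := 16) (by norm_num)
      (by norm_num)) (div_nonneg m0 η0.le)
    linarith
  have := sup_bound (X := S.good) (k := fun y z => k y z - kf y z) (kf := kf) (a := aw E.η S.W)
    (u := u) (r := fun y => (1 - S.W y ^ 2) ^ 2 * (phi (S.W y) - S.G y y)) (R := R) (j := q.P ^ 2)
    (ε := 8 * (b.mis / E.η)) (c := 2 * b.mis) (t := 2 * q.τ)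
    (fun y hy => h.aw_half (by linarith) (S.good_sub hy)) (by positivity)
    (fun y hy => by
      have a := h.aw_half (by linarith) (S.good_sub hy)
      refine le_trans ?_ (wrow (R := ∑ z ∈ univ.erase y, aw E.η S.W z * ‖S.G y z‖ ^ 2) η0 η1
        (hW y hy) (g.ηa y) a.1 a.2 (h.mis y hy) (le_of_eq (by
          rw [add_sum_erase _ (fun z => aw E.η S.W z * ‖S.G y z‖ ^ 2) (mem_univ y)]
          exact g.row y)))
      rw [← add_sum_erase _ _ hy, mul_sum]
      refine (add_le_of_nonpos_left (by simp [kf, k])).trans ((sum_le_sum fun z hz => ?_).trans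
        (sum_le_sum_of_subset_of_nonneg (erase_subset_erase y (subset_univ _)) fun z _ _ =>
          mul_nonneg (sq_nonneg _) (mul_nonneg (g.a0 z) (sq_nonneg _))))
      rw [mul_comm (aw _ _ _), ← mul_assoc]
      refine mul_le_mul_of_nonneg_right ?_ (g.a0 z)
      simp only [kf, k, if_neg (mem_erase.1 hz).1.symm]
      split_ifs
      · rw [sub_self, norm_zero]; positivity
      · rw [sub_zero, norm_mul, norm_pow, norm_pow])
    ((ok.diff of).mono (by linarith))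
    (fun y z e => by
      by_contra h'
      exact e (by simp only [kf, if_pos (not_le.1 h'), sub_self]))
    (by
      have a1 : q.P ^ 2 * R ≤ 100 * q.D E.η 3 := by
        have b1 : q.P ^ 60 * R ≤ q.D E.η 3 := hq.D_grow' hE (i := 0) (j := 3) (by norm_num)
        have b2 : q.P ^ 2 * R ≤ q.P ^ 60 * R := Nat.mul_le_mul_right _
          (Nat.pow_le_pow_right (by have := hq.P9' hE; omega) (by norm_num))
        omega
      refine (Nat.cast_le.2 (vol_mono a1)).trans (hv.trans ?_)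
      have a2 : exp ((q.P : ℝ) ^ 2) ≤ 3 ^ (q.P ^ 2) := by
        rw [← Nat.cast_pow, ← mul_one ((q.P ^ 2 : ℕ) : ℝ), exp_nat_mul]
        exact pow_le_pow_left₀ (exp_pos _).le exp_one_lt_three.le _
      have a3 : (5 : ℝ) ≤ 5 ^ (q.P ^ 2) :=
        le_self_pow₀ (by norm_num) (pow_ne_zero _ (by have := hq.P9' hE; omega))
      have a4 : (3 : ℝ) ^ (q.P ^ 2) ≤ 5 ^ (q.P ^ 2) := pow_le_pow_left₀ (by norm_num) (by norm_num) _
      nlinarith)
    (by
      refine (pow_le_pow_left₀ (by positivity)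
        ((add_comm _ _).trans_le (add_one_le_exp (8 * (b.mis / E.η)))) _).trans ?_
      rw [← exp_nat_mul, Nat.cast_pow]
      refine (exp_le_exp.2 m1).trans (le_of_sq_le_sq ?_ zero_le_two)
      rw [← exp_nat_mul]
      norm_num
      linarith [exp_one_lt_three])
    (fun y hy => (sum_le_sum fun z _ => kb y hy z).trans (kr y)) (by push_cast; linarith)
    (fun y hy => by
      have a1 := hk u y hy
      rw [u1 y hy] at a1
      simp only [ap, sub_mul, sum_sub_distrib] at a1 ⊢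
      rw [a1]; ring)
    (fun y hy => by
      rw [norm_mul, norm_sub_rev]
      exact mul_le_mul ((hD y hy).trans (by norm_num)) (h.mis y hy) (norm_nonneg _) zero_le_two)
    x hx
  push_cast at this
  linarith

end Pool.Agent.P.MP_d0f69c_mp.XS
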