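import Pool.Agent.P.MP_d0f69c_mp.XS.PIfF

/-!
The block of the matrix on the closed and remaining sites.
-/

set_option autoImplicit false
set_option linter.dupNamespace false

open Finset Real
open scoped Matrix

namespace Pool.Agent.P.MP_d0f69c_mp.XS.Pre

namespace P4A

variable {ι : Type} [Fintype ι] [DecidableEq ι]

omit [DecidableEq ι] in
theorem bf_r (M : Matrix ι ι ℂ) (φ : ι → ℂ) (S : Finset ι) (c : ι → ℂ) (G : ι → ι → ℂ) :
    bf M φ (∑ y ∈ S, c y • G y) = ∑ y ∈ S, bf M φ (G y) * c y := by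
  simp only [bf, Matrix.mulVec_sum, dotProduct_sum, Matrix.mulVec_smul, dotProduct_smul,
    smul_eq_mul, mul_comm]

omit [DecidableEq ι] in
theorem bf_l (M : Matrix ι ι ℂ) (φ : ι → ℂ) (S : Finset ι) (c : ι → ℂ) (G : ι → ι → ℂ) :
    bf M (∑ y ∈ S, c y • G y) φ = ∑ y ∈ S, c y * bf M (G y) φ := by
  simp only [bf, sum_dotProduct, smul_dotProduct, smul_eq_mul]

omit [DecidableEq ι] in
theorem bf_T (τ : Au ι) (v : ι) (b : Bool) (φ ψ : ι → ℂ) :
    bf (τ.T v b) φ ψ = sgn b * bf (τ.B v) φ ψ - bf (τ.R v b) φ ψ := by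
  simp only [bf, Au.T, Matrix.sub_mulVec, Matrix.smul_mulVec, dotProduct_sub, dotProduct_smul,
    smul_eq_mul]

theorem xi_le {q : Nq} {σ : Co ι} {τ : Au ι} (hy : Fy q σ τ) (hz : Fz q σ τ)
    (u : ι → ℝ) :
    ∑ v ∈ σ.rem, τ.Nh v (∑ y ∈ σ.X ∪ σ.rem, (u y : ℂ) • σ.G y) ^ 2 ≤
      21 / 20 * (q.P ^ 42 / q.η ^ 2 * ∑ x ∈ σ.X ∪ σ.rem, u x ^ 2) := by
  refine (hz.sv _).trans (mul_le_mul_of_nonneg_left ?_ (by norm_num))
  have e : (∑ y ∈ σ.X ∪ σ.rem, (u y : ℂ) • σ.G y) =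
      ap (σ.X ∪ σ.rem) σ.G fun y => (u y : ℂ) := by
    funext z
    simp only [ap, Finset.sum_apply, Pi.smul_apply, smul_eq_mul]
    exact sum_congr rfl fun y _ => by rw [hy.sG z y, mul_comm]
  have h := hy.ward fun y => (u y : ℂ)
  have h2 := pow_le_pow_left₀ (nS_nonneg _ _) h 2
  rw [mul_pow, nS_sq, nS_sq] at h2
  rw [e]
  refine h2.trans (le_of_eq ?_)
  simp only [Complex.norm_real, Real.norm_eq_abs, sq_abs]
  rw [div_pow, ← pow_mul]

end P4A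

open P4A in
theorem t_p4 : S_P4 := by
  intro ι _ _ q σ τ hq hy hz u
  have hx := xi_le hy hz u
  set ξ := ∑ y ∈ σ.X ∪ σ.rem, (u y : ℂ) • σ.G y with hξ
  set L := ∑ x ∈ σ.X ∪ σ.rem, u x ^ 2 with hL
  have L0 : 0 ≤ L := sum_nonneg fun _ _ => sq_nonneg _
  have P1 : (1 : ℝ) ≤ q.P := le_trans (by norm_num) hq.P9
  have P0 : 0 < q.P := by linarith
  have η0 := hq.η0
  have hb0 := hq.h0
  constructor
  · have e : ∀ z : ι × Bool, ∑ x ∈ σ.X ∪ σ.rem, ∑ y ∈ σ.X ∪ σ.rem,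
        u x * bf (τ.T z.1 z.2) (σ.G x) (σ.G y) * u y = bf (τ.T z.1 z.2) ξ ξ := fun z => by
      conv_rhs => rw [hξ, bf_l]
      refine sum_congr rfl fun x _ => ?_
      rw [bf_r, mul_sum]
      exact sum_congr rfl fun y _ => mul_assoc _ _ _
    simp only [e]
    rw [sum_product]
    refine (norm_sum_le _ _).trans ?_
    have h1 : ∀ v ∈ σ.rem, ‖∑ b : Bool, bf (τ.T v b) ξ ξ‖ ≤ 2 * q.hb * τ.Nh v ξ ^ 2 :=
      fun v hv => by
        have e2 : ∑ b : Bool, bf (τ.T v b) ξ ξ =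
            -(bf (τ.R v true) ξ ξ + bf (τ.R v false) ξ ξ) := by
          simp only [Fintype.sum_bool, bf_T, sgn, if_true, Bool.false_eq_true, if_false]
          ring
        rw [e2, norm_neg]
        have a := hy.r1 v hv true ξ ξ
        have b := hy.r1 v hv false ξ ξ
        refine (norm_add_le _ _).trans ?_
        nlinarith
    refine (sum_le_sum h1).trans ?_
    rw [← mul_sum]
    refine (mul_le_mul_of_nonneg_left hx (by positivity)).trans ?_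
    have k1 : q.hb * q.P ^ 100 ≤ q.η := (le_div_iff₀ (by positivity)).1 hq.h1
    have k2 : 3 * q.P ^ 42 ≤ q.P ^ 100 := by
      have : q.P ^ 43 ≤ q.P ^ 100 := pow_le_pow_right₀ P1 (by norm_num)
      have h3 : (3 : ℝ) ≤ q.P := le_trans (by norm_num) hq.P9
      have h4 : 3 * q.P ^ 42 ≤ q.P * q.P ^ 42 := mul_le_mul_of_nonneg_right h3 (by positivity)
      rw [← pow_succ'] at h4
      exact h4.trans this
    have k3 : q.hb * (3 * q.P ^ 42) ≤ q.η := (mul_le_mul_of_nonneg_left k2 hb0).trans k1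
    have k4 : 0 ≤ q.hb * q.P ^ 42 := by positivity
    have k5 : 2 * q.hb * (21 / 20 * (q.P ^ 42 / q.η ^ 2)) ≤ 1 / q.η := by
      rw [le_div_iff₀ η0]
      have : 2 * q.hb * (21 / 20 * (q.P ^ 42 / q.η ^ 2)) * q.η =
          21 / 10 * (q.hb * q.P ^ 42) / q.η := by field_simp; ring
      rw [this, div_le_one η0]
      linarith
    calc 2 * q.hb * (21 / 20 * (q.P ^ 42 / q.η ^ 2 * L))
        = 2 * q.hb * (21 / 20 * (q.P ^ 42 / q.η ^ 2)) * L := by ring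
      _ ≤ 1 / q.η * L := mul_le_mul_of_nonneg_right k5 L0
  · have hb1 : q.hb ≤ 1 / 100 := by
      have := hq.h2
      have := hq.ε1
      have := hq.η1
      have := hq.ε0
      nlinarith
    have h1 : ∀ z ∈ σ.rem ×ˢ (univ : Finset Bool), ∑ x ∈ σ.X ∪ σ.rem,
        ‖∑ y ∈ σ.X ∪ σ.rem, bf (τ.T z.1 z.2) (σ.G x) (σ.G y) * u y‖ ^ 2 ≤
          2400 * τ.Nh z.1 ξ ^ 2 := fun z hz' => by
      have hv := (mem_product.1 hz').1
      have h2 : ∀ x, ‖∑ y ∈ σ.X ∪ σ.rem, bf (τ.T z.1 z.2) (σ.G x) (σ.G y) * u y‖ ^ 2 ≤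
          τ.Nh z.1 (σ.G x) ^ 2 * (11 / 10 * τ.Nh z.1 ξ ^ 2) := fun x => by
        rw [← bf_r, ← hξ, bf_T]
        have a := hy.b0 z.1 hv (σ.G x) ξ
        have b := hy.r1 z.1 hv z.2 (σ.G x) ξ
        have c := mul_le_mul (hy.n2 z.1 hv (σ.G x)) (hy.n2 z.1 hv ξ) ((hy.hn z.1 hv).nn _)
          ((hz.hh z.1).nn _)
        have d : 0 ≤ τ.Nh z.1 (σ.G x) * τ.Nh z.1 ξ :=
          mul_nonneg ((hz.hh z.1).nn _) ((hz.hh z.1).nn _)
        have f : ‖sgn z.2 * bf (τ.B z.1) (σ.G x) ξ - bf (τ.R z.1 z.2) (σ.G x) ξ‖ ≤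
            104 / 100 * (τ.Nh z.1 (σ.G x) * τ.Nh z.1 ξ) := by
          refine (norm_sub_le _ _).trans ?_
          rw [norm_mul, norm_sgn, one_mul]
          nlinarith
        have g := pow_le_pow_left₀ (norm_nonneg _) f 2
        nlinarith [sq_nonneg (τ.Nh z.1 (σ.G x) * τ.Nh z.1 ξ)]
      refine (sum_le_sum fun x _ => h2 x).trans ?_
      rw [← sum_mul]
      have s1 : ∑ x ∈ σ.X ∪ σ.rem, τ.Nh z.1 (σ.G x) ^ 2 ≤ 2102 := by
        have t1 : ∑ x ∈ σ.X ∪ σ.rem, τ.Nh z.1 (σ.G x) ^ 2 ≤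
            ∑ x ∈ σ.X ∪ σ.Op, τ.Nh z.1 (σ.G x) ^ 2 :=
          sum_le_sum_of_subset_of_nonneg (union_subset_union_right (hy.rR.trans hy.RO))
            fun _ _ _ => sq_nonneg _
        rw [sum_union hy.OX.symm] at t1
        have := hz.nO z.1 hv
        have := hz.nX z.1 hv
        linarith
      nlinarith [sq_nonneg (τ.Nh z.1 ξ)]
    refine (sum_le_sum h1).trans ?_
    rw [sum_product]
    simp only [Fintype.sum_bool, ← two_mul, ← mul_sum]
    have h3 : (5040 : ℝ) ≤ q.P := le_trans (by norm_num) hq.P9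
    have h4 : 0 ≤ q.P ^ 42 / q.η ^ 2 * L := by positivity
    have h5 : q.P ^ 43 / q.η ^ 2 * L = q.P * (q.P ^ 42 / q.η ^ 2 * L) := by ring
    rw [h5]
    nlinarith

end Pool.Agent.P.MP_d0f69c_mp.XS.Pre
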