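import Pool.Agent.P.MP_d0f69c_mp.XS.P5Aa

/-!
The increment of the form is majorised.
-/

set_option autoImplicit false
set_option linter.dupNamespace false

open Finset Real

namespace Pool.Agent.P.MP_d0f69c_mp.XS.Pre

namespace P5AA

variable {ι : Type} [Fintype ι] [DecidableEq ι] {q : Nq} {σ : Co ι} {τ : Au ι} {v x y : ι}
  {t s : ℝ}

omit [Fintype ι] in
theorem memS : x ∈ σ.Sv v ↔ x ≠ v ∧ x ∈ σ.Op ∧ x ∈ σ.Bl v := by
  rw [Co.Sv, mem_erase, mem_inter]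

omit [Fintype ι] in
theorem subS : σ.Sv v ⊆ σ.Op := fun _ hx => (memS.1 hx).2.1

theorem w_step (hv : v ∈ σ.rem) (hx : x ≠ v) (b : Bool) (s : ℝ) : (σ.step τ v b).w s x =
    σ.a x * (1 + s * (σ.ir x + σ.kr x / 2000 - σ.Kk x v / 2000)) := by
  simp only [Co.w, Co.ir, Co.kr, Co.step, mem_erase, hx, ne_eq, not_false_eq_true, true_and]
  rw [sum_erase_eq_sub hv]
  ring

theorem k1 (h : Fy q σ τ) (x y : ι) : σ.Kk x y ≤ 1 :=
  (single_le_sum (fun u _ => h.K0 x u) (mem_univ y)).trans (h.K1 x)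

omit [Fintype ι] in
theorem ir01 (x : ι) : 0 ≤ σ.ir x ∧ σ.ir x ≤ 1 := by
  rw [Co.ir]
  split_ifs <;> norm_num

theorem wbd (h : Fy q σ τ) (z : Fz q σ τ) (hs : |s| ≤ 1 / 10 ^ 7) (hx : x ∈ σ.Op) :
    999 / 1000 ≤ σ.w s x ∧ σ.w s x ≤ 10001 / 10000 :=
  wb (h.a1 x hx) hs (abs_le.2 ⟨by linarith [(ir01 (σ := σ) x).1, (z.kr x).1],
    by linarith [(ir01 (σ := σ) x).2, (z.kr x).2]⟩)

theorem wbd' (h : Fy q σ τ) (z : Fz q σ τ) (hv : v ∈ σ.rem) (hs : |s| ≤ 1 / 10 ^ 7)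
    (hx : x ∈ σ.Sv v) (b : Bool) :
    999 / 1000 ≤ (σ.step τ v b).w s x ∧ (σ.step τ v b).w s x ≤ 10001 / 10000 := by
  rw [w_step hv (memS.1 hx).1]
  exact wb (h.a1 x (subS hx)) hs (abs_le.2
    ⟨by linarith [(ir01 (σ := σ) x).1, (z.kr x).1, k1 h x v],
      by linarith [(ir01 (σ := σ) x).2, (z.kr x).2, h.K0 x v]⟩)

theorem dw (hv : v ∈ σ.rem) (hts : t * s = 10 ^ 5 * q.ε) (hx : x ∈ σ.Sv v) (b : Bool) :
    t * ((σ.step τ v b).w s x - σ.w s x) = -(50 * q.ε * (σ.a x * σ.Kk x v)) := by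
  rw [w_step hv (memS.1 hx).1, Co.w]
  linear_combination (-(σ.a x * σ.Kk x v) / 2000) * hts

theorem beta (hq : q.OK) (h : Fy q σ τ) (hv : v ∈ σ.rem) : ‖τ.β v‖ ≤ 1 + 1 / 10 ^ 12 := by
  have := norm_add_le (τ.β v - 1) 1
  rw [sub_add_cancel, norm_one] at this
  linarith [h.b2 v hv, hq.ε1]

/-- the pointwise bound -/
theorem point (hq : q.OK) (h : Fy q σ τ) (z : Fz q σ τ) (hv : v ∈ σ.rem) (ht : |t| ≤ 1)
    (hs : |s| ≤ 1 / 10 ^ 7) (hts : t * s = 10 ^ 5 * q.ε) (b : Bool) (hx : x ∈ σ.Sv v)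
    (hy : y ∈ σ.Sv v) :
    t * ((σ.step τ v b).Kw s x y - σ.Kw s x y - σ.k5 τ s v b x y) ≤
      -47 * q.ε * ((σ.Kk x v + σ.Kk y v) * ‖σ.G x y‖ ^ 2) + t * ‖τ.β v‖ ^ 2 *
        ((σ.step τ v b).w s x * ‖σ.G x v‖ ^ 2 * ((σ.step τ v b).w s y * ‖σ.G y v‖ ^ 2)) +
      21 / 20 * q.ε * (σ.Kk x v * τ.Nh v (σ.G y) ^ 2) +
      21 / 20 * q.ε * (σ.Kk y v * τ.Nh v (σ.G x) ^ 2) + q.ε * (σ.Kk x v * σ.Kk y v) +
      201 / 100 * (‖σ.G x v‖ * no (τ.D v) (σ.G x) * (‖σ.G y v‖ * no (τ.D v) (σ.G y))) +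
      3 * (no (τ.D v) (σ.G x) ^ 2 * no (τ.D v) (σ.G y) ^ 2) +
      3 * q.hb * (τ.Nh v (σ.G x) ^ 2 * τ.Nh v (σ.G y) ^ 2) := by
  have x1 := (memS.1 hx).1
  have y1 := (memS.1 hy).1
  have nn := (h.hn v hv).nn
  have hn := (z.hh v).nn
  have kx := mul_nonneg hq.κ0 (h.K0 x v)
  have e1 : bf (τ.B v) (σ.G x) (σ.G y) - bf (τ.B v) (σ.Pf τ v x) (σ.Pf τ v y) =
      bf (τ.B v) (τ.Pn v x) (σ.G y) + bf (τ.B v) (σ.Pf τ v x) (τ.Pn v y) := by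
    simp only [bf, Co.Pf, Matrix.mulVec_sub, sub_dotProduct, dotProduct_sub]
    ring
  have e2 : ‖bf (τ.B v) (σ.G x) (σ.G y) - bf (τ.B v) (σ.Pf τ v x) (σ.Pf τ v y)‖ ≤
      103 / 100 * (q.κ * σ.Kk x v) * τ.Nh v (σ.G y) +
        103 / 100 * (τ.Nh v (σ.G x) + q.κ * σ.Kk x v) * (q.κ * σ.Kk y v) := by
    rw [e1]
    refine (norm_add_le _ _).trans (add_le_add ((h.b0 v hv _ _).trans ?_)
      ((h.b0 v hv _ _).trans ?_))
    · exact mul_le_mul (mul_le_mul_of_nonneg_left (h.p1 v hv x x1) (by norm_num)) (h.n2 v hv _)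
        (nn _) (by positivity)
    · exact mul_le_mul (mul_le_mul_of_nonneg_left (z.f1 v hv x x1).2 (by norm_num))
        (h.p1 v hv y y1) (nn _) (mul_nonneg (by norm_num) (add_nonneg (hn _) kx))
  have A := cpx (σ.G x y) _ _ _ _ (sgn b) (norm_sgn b)
    (add_le_add (h.b1 v hv (σ.G x) (σ.G y)) (h.r1 v hv b (σ.G x) (σ.G y))) e2
  have e3 : (σ.step τ v b).G x y = σ.G x y -
      (sgn b * bf (τ.B v) (σ.G x) (σ.G y) - bf (τ.R v b) (σ.G x) (σ.G y)) := by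
    simp only [Co.step, Au.T, bf, Matrix.sub_mulVec, Matrix.smul_mulVec, dotProduct_sub,
      dotProduct_smul, smul_eq_mul]
  rw [← e3, norm_mul, norm_mul] at A
  obtain ⟨a1, a2⟩ := wbd' h z hv hs hx b
  obtain ⟨b1, b2⟩ := wbd' h z hv hs hy b
  obtain ⟨c1, -⟩ := wbd h z hs (subS hx)
  have d1 := dw (τ := τ) hv hts hx b
  have d2 := dw (τ := τ) hv hts hy b
  have N := near hq.κ0 hq.κ1 hq.ε1 (norm_nonneg (σ.G x y)) (h.K0 x v) (h.K0 y v) (k1 h y v)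
    (hn (σ.G x)) (hn (σ.G y))
  have Q := quad (β := ‖τ.β v‖) (by linarith [beta hq h hv]) hq.h0
    (hq.h2.trans ((mul_le_mul hq.ε1 hq.η1 hq.η0.le (by norm_num)).trans (by norm_num)))
    (norm_nonneg (σ.G x v)) (norm_nonneg (σ.G y v)) (no_nonneg (τ.D v) (σ.G x))
    (no_nonneg (τ.D v) (σ.G y)) ((h.n1 v hv _).trans (h.n2 v hv _))
    ((h.n1 v hv _).trans (h.n2 v hv _))
  rw [Co.Kw, Co.Kw, Co.k5]
  set wx := (σ.step τ v b).w s x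
  set wy := (σ.step τ v b).w s y
  have W1 : |t * (wx * wy)| ≤ 1001 / 1000 := by
    rw [abs_mul, abs_of_nonneg (show 0 ≤ wx * wy by positivity)]
    exact (mul_le_mul ht (mul_le_mul a2 b2 (by positivity) (by norm_num)) (by positivity)
      (by norm_num)).trans (by norm_num)
  have W2 := (le_abs_self _).trans ((abs_mul _ _).trans_le
    (mul_le_mul W1 A (abs_nonneg _) (by norm_num)))
  have W3 : t * (wx * wy - σ.w s x * σ.w s y) ≤ -49 * q.ε * (σ.Kk x v + σ.Kk y v) := by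
    have f1 := mul_le_mul_of_nonneg_left (mul_le_mul (show 999 / 1000 ≤ σ.a x by
      linarith [(abs_le.1 (h.a1 x (subS hx))).1]) b1 (by norm_num) (by
      linarith [(abs_le.1 (h.a1 x (subS hx))).1])) (mul_nonneg hq.ε0.le (h.K0 x v))
    have f2 := mul_le_mul_of_nonneg_left (mul_le_mul (show 999 / 1000 ≤ σ.a y by
      linarith [(abs_le.1 (h.a1 y (subS hy))).1]) c1 (by norm_num) (by
      linarith [(abs_le.1 (h.a1 y (subS hy))).1])) (mul_nonneg hq.ε0.le (h.K0 y v))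
    have f3 : t * (wx * wy - σ.w s x * σ.w s y) =
        -(50 * (q.ε * σ.Kk x v * (σ.a x * wy))) - 50 * (q.ε * σ.Kk y v * (σ.a y * σ.w s x)) := by
      linear_combination wy * d1 + σ.w s x * d2
    linarith [mul_nonneg hq.ε0.le (h.K0 x v), mul_nonneg hq.ε0.le (h.K0 y v)]
  have W4 := mul_le_mul_of_nonneg_right W3 (sq_nonneg ‖σ.G x y‖)
  linarith

theorem rowS (h : Fy q σ τ) (hx : x ∈ σ.Op) : ∑ y ∈ σ.Sv v, ‖σ.G y x‖ ^ 2 ≤ 11 / 10 := by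
  simp only [fun y => h.sG y x]
  exact (sum_le_sum_of_subset_of_nonneg subS fun _ _ _ => sq_nonneg _).trans (h.row x hx)

/-- the weights of the majorant -/
theorem hsum (h : Fy q σ τ) (hv : v ∈ σ.rem) (hκ : q.κ ^ 2 ≤ 1) (d : ι → ℝ) :
    ∑ x ∈ σ.Sv v, no (τ.D v) (σ.G x) ^ 2 * d x ^ 2 ≤
      ∑ x ∈ σ.Sv v, ‖σ.G x v‖ ^ 2 * d x ^ 2 +
      2 * ∑ x ∈ σ.Sv v, ∑ y ∈ σ.Sv v, σ.Kk x v * ‖σ.G x y‖ ^ 2 * (d x - d y) ^ 2 +
      22 / 10 * ∑ x ∈ σ.Sv v, σ.Kk x v * d x ^ 2 +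
      ∑ u, τ.D2 v u * ∑ x ∈ σ.Sv v, ‖σ.G x u‖ ^ 2 * (d x * d x) := by
  simp only [no_sq (h.D0 v), sum_mul, ← sq]
  rw [sum_comm]
  simp only [mul_assoc, ← mul_sum]
  have e1 : ∀ u, τ.D v u ≤ (if u = v then 1 else 0) + (if u ∈ σ.Sv v then σ.Kk u v else 0) +
      τ.D2 v u := by
    intro u
    have i0 : (0 : ℝ) ≤ if u = v then 1 else 0 := by split_ifs <;> norm_num
    have i1 : (0 : ℝ) ≤ if u ∈ σ.Sv v then σ.Kk u v else 0 := by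
      split_ifs
      exacts [h.K0 u v, le_rfl]
    by_cases hu : u ∈ σ.Op
    · have i2 : σ.Kk v u ≤ if u ∈ σ.Sv v then σ.Kk u v else 0 := by
        rw [h.sK v u]
        split_ifs with hS
        · exact le_rfl
        · by_contra hc
          have := (not_le.1 hc).ne'
          exact hS (memS.2 ⟨fun e => this (by rw [e, h.Kd]), hu, h.KB u v this⟩)
      linarith [h.D1 v hv u, mul_le_of_le_one_left (add_nonneg (h.K0 v u) i0) hκ]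
    · linarith [h.DO v u hu, h.E0 v u]
  refine (sum_le_sum fun u _ => mul_le_mul_of_nonneg_right (e1 u)
    (sum_nonneg fun x _ => by positivity)).trans ?_
  simp only [add_mul, sum_add_distrib, ite_mul, zero_mul, one_mul, sum_ite_eq', mem_univ, if_true,
    sum_ite_mem, univ_inter]
  suffices H : ∑ u ∈ σ.Sv v, σ.Kk u v * ∑ x ∈ σ.Sv v, ‖σ.G x u‖ ^ 2 * d x ^ 2 ≤
      ∑ u ∈ σ.Sv v, (2 * (σ.Kk u v * ∑ x ∈ σ.Sv v, ‖σ.G u x‖ ^ 2 * (d u - d x) ^ 2) +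
        22 / 10 * (σ.Kk u v * d u ^ 2)) by
    rw [sum_add_distrib, ← mul_sum, ← mul_sum] at H
    linarith
  refine sum_le_sum fun u hu => ?_
  have e2 : ∑ x ∈ σ.Sv v, ‖σ.G x u‖ ^ 2 * d x ^ 2 ≤ ∑ x ∈ σ.Sv v,
      (2 * (‖σ.G u x‖ ^ 2 * (d u - d x) ^ 2) + 2 * d u ^ 2 * ‖σ.G x u‖ ^ 2) :=
    sum_le_sum fun x _ => by
      rw [h.sG u x]
      linarith [mul_nonneg (sq_nonneg ‖σ.G x u‖) (sq_nonneg (2 * d u - d x))]
  rw [sum_add_distrib, ← mul_sum, ← mul_sum] at e2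
  have e3 := mul_le_mul_of_nonneg_left (rowS (v := v) h (subS hu)) (sq_nonneg (d u))
  have e4 := mul_le_mul_of_nonneg_left (e2.trans (show _ ≤ 2 * ∑ x ∈ σ.Sv v,
    ‖σ.G u x‖ ^ 2 * (d u - d x) ^ 2 + 22 / 10 * d u ^ 2 by linarith)) (h.K0 u v)
  linarith

/-- the surcharge beats the degree -/
theorem deg (hq : q.OK) (h : Fy q σ τ) (z : Fz q σ τ) (hv : v ∈ σ.rem) (ht : |t| ≤ 1)
    (hts : t * s = 10 ^ 5 * q.ε) (b : Bool) :
    t * (‖τ.β v‖ ^ 2 * ∑ x ∈ σ.Sv v, (σ.step τ v b).w s x * ‖σ.G x v‖ ^ 2 - σ.w s v) ≤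
      -480 * q.ε := by
  have th0 : ∀ x, σ.ir x + σ.kr x / 2000 ≤ σ.th x := fun x => by
    rw [Co.th]
    split_ifs <;> linarith
  have th1 : ∀ x, 0 ≤ σ.th x := fun x => by
    linarith [th0 x, (ir01 (σ := σ) x).1, (z.kr x).1]
  have e1 : ∑ x ∈ σ.Sv v, σ.th x * ‖σ.G x v‖ ^ 2 ≤ 995 / 1000 := by
    simp only [fun x => h.sG x v]
    refine (sum_le_sum_of_subset_of_nonneg (subS.trans subset_union_left) fun x _ _ =>
      mul_nonneg (th1 x) (sq_nonneg _)).trans (le_trans (le_add_of_nonneg_right ?_)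
      (h.zz v (h.rR hv)))
    have := h.d0 v
    have := hq.m0
    split_ifs <;> positivity
  set U := ∑ x ∈ σ.Sv v, σ.a x * (σ.ir x + σ.kr x / 2000 - σ.Kk x v / 2000) * ‖σ.G x v‖ ^ 2
    with hU
  have e2 : U ≤ 99501 / 100000 := by
    refine (sum_le_sum (g := fun x => (1 + 1 / 10 ^ 7) * (σ.th x * ‖σ.G x v‖ ^ 2))
      fun x hx => ?_).trans (by rw [← mul_sum]; linarith)
    have a1 := abs_le.1 (h.a1 x (subS hx))
    rw [← mul_assoc]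
    refine mul_le_mul_of_nonneg_right ((mul_le_mul_of_nonneg_left (show _ ≤ σ.th x by
      linarith [th0 x, h.K0 x v]) (by linarith)).trans
      (mul_le_mul_of_nonneg_right (by linarith) (th1 x))) (sq_nonneg _)
  have e3 : ∑ x ∈ σ.Sv v, (σ.step τ v b).w s x * ‖σ.G x v‖ ^ 2 =
      ∑ x ∈ σ.Sv v, σ.a x * ‖σ.G x v‖ ^ 2 + s * U := by
    rw [hU, mul_sum, ← sum_add_distrib]
    exact sum_congr rfl fun x hx => by rw [w_step hv (memS.1 hx).1]; ring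
  have e4 : ‖τ.β v‖ ^ 2 * U ≤ 9951 / 10000 :=
    (mul_le_mul_of_nonneg_left e2 (sq_nonneg _)).trans ((mul_le_mul_of_nonneg_right
      (pow_le_pow_left₀ (norm_nonneg _) (beta hq h hv) 2) (by norm_num)).trans (by norm_num))
  have e5 := (le_abs_self _).trans ((abs_mul _ _).trans_le
    (mul_le_mul ht (h.deg v hv) (abs_nonneg _) (by norm_num)))
  have a1 := (abs_le.1 (h.a1 v (h.RO (h.rR hv)))).1
  have e6 := mul_nonneg (show 0 ≤ σ.a v by linarith) (z.kr v).1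
  have e7 := mul_le_mul_of_nonneg_left (show ‖τ.β v‖ ^ 2 * U - σ.a v * (1 + σ.kr v / 2000) ≤
    -(489 / 100000) by linarith) hq.ε0.le
  have e8 : t * (‖τ.β v‖ ^ 2 * (∑ x ∈ σ.Sv v, σ.a x * ‖σ.G x v‖ ^ 2 + s * U) -
      σ.a v * (1 + s * (1 + σ.kr v / 2000))) =
      t * (‖τ.β v‖ ^ 2 * ∑ x ∈ σ.Sv v, σ.a x * ‖σ.G x v‖ ^ 2 - σ.a v) +
        10 ^ 5 * (q.ε * (‖τ.β v‖ ^ 2 * U - σ.a v * (1 + σ.kr v / 2000))) := by
    linear_combination (‖τ.β v‖ ^ 2 * U - σ.a v * (1 + σ.kr v / 2000)) * hts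
  rw [e3, Co.w, Co.ir, if_pos hv, e8]
  linarith [hq.ε0]

end P5AA

open P5AA in
theorem t_p5a : S_P5A := by
  intro ι _ _ q σ τ hq h z t ht v hv b φ
  have e0 := hq.ε0
  have t1 : |t| = 1 := by rcases ht with rfl | rfl <;> simp
  have hts : t * (t * (10 ^ 5 * q.ε)) = 10 ^ 5 * q.ε := by rcases ht with rfl | rfl <;> ring
  have hs : |t * (10 ^ 5 * q.ε)| ≤ 1 / 10 ^ 7 := by
    rw [abs_mul, t1, one_mul, abs_of_nonneg (by positivity)]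
    linarith [hq.ε1]
  set s := t * (10 ^ 5 * q.ε)
  have hO := h.RO (h.rR hv)
  have A := asm (σ.Sv v) (fun x => φ x - φ v) e0 hq.ε1
    (hq.h2.trans ((mul_le_mul_of_nonneg_left hq.η1 e0.le).trans (by linarith)))
    (Gq := fun x y => ‖σ.G x y‖ ^ 2) (fun x y => by rw [h.sG x y]) (fun x => h.K0 x v)
    (by
      simp only [fun x => h.sK x v]
      exact (sum_le_sum_of_subset_of_nonneg (subset_univ _) fun x _ _ => h.K0 v x).trans (h.K1 v))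
    (fun x => norm_nonneg (σ.G x v)) (fun x => no_nonneg (τ.D v) (σ.G x))
    (fun x => by rw [z.sq]; linarith [sq_nonneg ‖σ.G x v‖]) (rowS h hO)
    ((sum_le_sum_of_subset_of_nonneg subS fun _ _ _ => sq_nonneg _).trans (z.cO v hv))
    ((sum_le_sum_of_subset_of_nonneg subS fun _ _ _ => sq_nonneg _).trans (z.nO v hv))
    fun x hx y hy => point hq h z hv t1.le hs hts b hx hy
  have B := star (σ.Sv v) (fun x => φ x - φ v) (w := σ.w s) ht e0 hq.ε1 (sq_nonneg _)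
    ((pow_le_pow_left₀ (norm_nonneg _) (beta hq h hv) 2).trans (by norm_num)) (wbd h z hs hO).1
    (deg hq h z hv t1.le hts b) (fun x hx => by
      have := mul_nonneg (show 0 ≤ σ.a x by linarith [(abs_le.1 (h.a1 x (subS hx))).1]) (h.K0 x v)
      rw [dw hv hts hx, neg_nonpos]
      positivity) (fun x hx => by
      have a1 := abs_le.1 (h.a1 x (subS hx))
      have a2 := mul_nonneg (show 0 ≤ σ.a x by linarith) (h.K0 x v)
      have a3 := mul_le_mul_of_nonneg_left (mul_le_mul (show σ.a x ≤ 101 / 100 by linarith)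
        (k1 h x v) (h.K0 x v) (by norm_num)) e0.le
      rw [← one_mul |_|, ← t1, ← abs_mul, dw hv hts hx, abs_neg, abs_of_nonneg (by positivity)]
      linarith) (fun x hx => (wbd' h z hv hs hx b).1) (rowS h hO)
  have C := hsum h hv (pow_le_one₀ hq.κ0 (by linarith [hq.κ1, hq.ε1])) fun x => φ x - φ v
  have e1 : ∑ x ∈ σ.Sv v, τ.Nh v (σ.G x) ^ 2 * (φ x - φ v) ^ 2 =
      51 / 50 * ∑ x ∈ σ.Sv v, ‖σ.G x v‖ ^ 2 * (φ x - φ v) ^ 2 +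
        ∑ x ∈ σ.Sv v, no (τ.D v) (σ.G x) ^ 2 * (φ x - φ v) ^ 2 := by
    rw [mul_sum, ← sum_add_distrib]
    exact sum_congr rfl fun x _ => by rw [z.sq]; ring
  have e2 : t * En (σ.Sv v) ((σ.step τ v b).Kw s - σ.Kw s) φ =
      (∑ x ∈ σ.Sv v, ∑ y ∈ σ.Sv v, t * ((σ.step τ v b).Kw s x y - σ.Kw s x y -
        σ.k5 τ s v b x y) * (φ x - φ v - (φ y - φ v)) ^ 2) / 2 +
        t * Eb (σ.Sv v) (σ.k5 τ s v b) φ φ := by
    rw [En, Eb, ← mul_div_assoc, ← mul_div_assoc, ← add_div]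
    simp only [mul_sum, ← sum_add_distrib, Pi.sub_apply]
    congr 1
    exact sum_congr rfl fun x _ => sum_congr rfl fun y _ => by ring
  have e3 : ∑ x ∈ σ.Sv v, σ.Kw s x v * (φ x - φ v) ^ 2 =
      σ.w s v * ∑ x ∈ σ.Sv v, σ.w s x * ‖σ.G x v‖ ^ 2 * (φ x - φ v) ^ 2 := by
    rw [mul_sum]
    exact sum_congr rfl fun x _ => by rw [Co.Kw]; ring
  have e4 : ∑ x ∈ σ.Sv v, σ.Kw s x v * (φ v - φ x) =
      -(σ.w s v * ∑ x ∈ σ.Sv v, σ.w s x * ‖σ.G x v‖ ^ 2 * (φ x - φ v)) := by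
    rw [mul_sum, ← sum_neg_distrib]
    exact sum_congr rfl fun x _ => by rw [Co.Kw]; ring
  rw [y5, Co.Y5, Co.Q5, mul_sub t, e2, e3, e4, neg_sq]
  rw [e1] at A
  have p1 : 0 ≤ ∑ x ∈ σ.Sv v, ‖σ.G x v‖ ^ 2 * (φ x - φ v) ^ 2 :=
    sum_nonneg fun x _ => by positivity
  have p2 : 0 ≤ ∑ x ∈ σ.Sv v, σ.Kk x v * (φ x - φ v) ^ 2 :=
    sum_nonneg fun x _ => mul_nonneg (h.K0 x v) (sq_nonneg _)
  have p3 : 0 ≤ ∑ x ∈ σ.Sv v, ∑ y ∈ σ.Sv v,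
      σ.Kk x v * ‖σ.G x y‖ ^ 2 * (φ x - φ v - (φ y - φ v)) ^ 2 :=
    sum_nonneg fun x _ => sum_nonneg fun y _ =>
      mul_nonneg (mul_nonneg (h.K0 x v) (sq_nonneg _)) (sq_nonneg _)
  have p4 : 0 ≤ ∑ u, τ.D2 v u * ∑ x ∈ σ.Sv v, ‖σ.G x u‖ ^ 2 * ((φ x - φ v) * (φ x - φ v)) :=
    sum_nonneg fun u _ => mul_nonneg (h.E0 v u) (sum_nonneg fun x _ =>
      mul_nonneg (sq_nonneg _) (mul_self_nonneg _))
  linarith [mul_le_mul_of_nonneg_left C e0.le, mul_nonneg e0.le p1, mul_nonneg e0.le p2,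
    mul_nonneg e0.le p3, mul_le_mul_of_nonneg_right hq.ε1 p4]

end Pool.Agent.P.MP_d0f69c_mp.XS.Pre
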