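import Pool.Agent.P.MP_d0f69c_mp.XS.PIfF

/-!
Elementary inequalities for the majorisation of the increment of the form.
-/

set_option autoImplicit false
set_option linter.dupNamespace false

open Finset Real

namespace Pool.Agent.P.MP_d0f69c_mp.XS.Pre.P5AA

theorem cpx (G P P' ρ m sg : ℂ) (hs : ‖sg‖ = 1) {e f : ℝ} (h1 : ‖P - m‖ + ‖ρ‖ ≤ e)
    (h2 : ‖P - P'‖ ≤ f) :
    |‖G - (sg * P - ρ)‖ ^ 2 - ‖G‖ ^ 2 - 2 * ((starRingEnd ℂ) G * (ρ - sg * P')).re - ‖m‖ ^ 2| ≤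
      2 * ‖G‖ * f + (2 * ‖m‖ * e + e ^ 2) := by
  have e1 : ‖G - (sg * P - ρ)‖ ^ 2 - ‖G‖ ^ 2 - 2 * ((starRingEnd ℂ) G * (ρ - sg * P')).re =
      -2 * ((starRingEnd ℂ) G * (sg * (P - P'))).re + ‖sg * P - ρ‖ ^ 2 := by
    simp only [Complex.sq_norm, Complex.normSq_apply, Complex.sub_re, Complex.sub_im,
      Complex.mul_re, Complex.mul_im, Complex.conj_re, Complex.conj_im]
    ring
  have e2 : |((starRingEnd ℂ) G * (sg * (P - P'))).re| ≤ ‖G‖ * f := by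
    refine (Complex.abs_re_le_norm _).trans ?_
    rw [norm_mul, norm_mul, hs, one_mul, Complex.norm_conj]
    exact mul_le_mul_of_nonneg_left h2 (norm_nonneg _)
  have e3 : |‖sg * P - ρ‖ - ‖m‖| ≤ e := by
    have e4 : ‖m‖ = ‖sg * m‖ := by rw [norm_mul, hs, one_mul]
    have e5 : sg * P - ρ - sg * m = sg * (P - m) - ρ := by ring
    rw [e4]
    refine (abs_norm_sub_norm_le _ _).trans ?_
    rw [e5]
    refine (norm_sub_le _ _).trans ?_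
    rwa [norm_mul, hs, one_mul]
  rw [e1]
  rw [abs_le] at e2 e3 ⊢
  have e6 := pow_le_pow_left₀ (norm_nonneg _) (show ‖sg * P - ρ‖ ≤ ‖m‖ + e by linarith) 2
  have e7 := mul_le_mul_of_nonneg_left e3.1 (norm_nonneg m)
  constructor <;> nlinarith [sq_nonneg (‖sg * P - ρ‖ - ‖m‖), sq_nonneg e]

theorem wb {a s θ : ℝ} (ha : |a - 1| ≤ 1 / 10 ^ 7) (hs : |s| ≤ 1 / 10 ^ 7) (hθ : |θ| ≤ 2) :
    999 / 1000 ≤ a * (1 + s * θ) ∧ a * (1 + s * θ) ≤ 10001 / 10000 := by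
  have h1 : |s * θ| ≤ 1 / 10 ^ 7 * 2 := by
    rw [abs_mul]; exact mul_le_mul hs hθ (abs_nonneg _) (by norm_num)
  have h2 : |(a - 1) * (s * θ)| ≤ 1 / 10 ^ 7 * (1 / 10 ^ 7 * 2) := by
    rw [abs_mul]; exact mul_le_mul ha h1 (abs_nonneg _) (by norm_num)
  rw [abs_le] at ha h1 h2
  constructor <;> linarith [ha.1, ha.2, h1.1, h1.2, h2.1, h2.2]

/-- the near part -/
theorem near {ε κ G kx ky hx hy : ℝ} (h0 : 0 ≤ κ) (h1 : κ ≤ ε) (h2 : ε ≤ 1 / 10 ^ 12) (hG : 0 ≤ G)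
    (x0 : 0 ≤ kx) (y0 : 0 ≤ ky) (y1 : ky ≤ 1) (a0 : 0 ≤ hx) (b0 : 0 ≤ hy) :
    1001 / 1000 * (2 * G * (103 / 100 * (κ * kx) * hy + 103 / 100 * (hx + κ * kx) * (κ * ky))) ≤
      2 * ε * ((kx + ky) * G ^ 2) + 21 / 20 * ε * (kx * hy ^ 2) + 21 / 20 * ε * (ky * hx ^ 2) +
        ε * (kx * ky) := by
  have e0 : 0 ≤ ε := h0.trans h1
  have e1 : κ * (kx * (2 * G * hy)) ≤ ε * (kx * (G ^ 2 + hy ^ 2)) :=
    mul_le_mul h1 (mul_le_mul_of_nonneg_left (by nlinarith [sq_nonneg (G - hy)]) x0)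
      (by positivity) e0
  have e2 : κ * (ky * (2 * G * hx)) ≤ ε * (ky * (G ^ 2 + hx ^ 2)) :=
    mul_le_mul h1 (mul_le_mul_of_nonneg_left (by nlinarith [sq_nonneg (G - hx)]) y0)
      (by positivity) e0
  have e3 : κ * κ * (kx * (2 * G * ky)) ≤ ε * (1 / 2) * (kx * (G ^ 2 + ky)) :=
    mul_le_mul (mul_le_mul h1 (by linarith) h0 e0) (mul_le_mul_of_nonneg_left
      (by nlinarith [sq_nonneg (G - ky)]) x0) (by positivity) (by positivity)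
  have p1 : 0 ≤ ε * (kx * G ^ 2) := by positivity
  have p2 : 0 ≤ ε * (ky * G ^ 2) := by positivity
  have p3 : 0 ≤ ε * (kx * hy ^ 2) := by positivity
  have p4 : 0 ≤ ε * (ky * hx ^ 2) := by positivity
  have p5 : 0 ≤ ε * (kx * ky) := by positivity
  linarith

/-- the quadratic part -/
theorem quad {β hb gx gy nx ny hx hy : ℝ} (b1 : β ≤ 1001 / 1000) (h0 : 0 ≤ hb)
    (h1 : hb ≤ 1 / 10) (x0 : 0 ≤ gx) (y0 : 0 ≤ gy) (x1 : 0 ≤ nx) (y1 : 0 ≤ ny) (x2 : gx ≤ hx)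
    (y2 : gy ≤ hy) :
    1001 / 1000 * (2 * (β * (gx * gy)) * (nx * ny + hb * hx * hy) + (nx * ny + hb * hx * hy) ^ 2) ≤
      201 / 100 * (gx * nx * (gy * ny)) + 3 * (nx ^ 2 * ny ^ 2) + 3 * hb * (hx ^ 2 * hy ^ 2) := by
  have a0 : 0 ≤ hx := x0.trans x2
  have a1 : 0 ≤ hy := y0.trans y2
  have e1 : β * (gx * gy) * (nx * ny + hb * hx * hy) ≤
      1001 / 1000 * (gx * gy) * (nx * ny + hb * hx * hy) := by gcongr
  have e2 : gx * gy * (hb * hx * hy) ≤ hx * hy * (hb * hx * hy) := by gcongr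
  have e3 : hb * (hb * (hx ^ 2 * hy ^ 2)) ≤ 1 / 10 * (hb * (hx ^ 2 * hy ^ 2)) := by gcongr
  have p1 : 0 ≤ gx * nx * (gy * ny) := by positivity
  have p2 : 0 ≤ nx ^ 2 * ny ^ 2 := by positivity
  have p3 : 0 ≤ hb * (hx ^ 2 * hy ^ 2) := by positivity
  nlinarith [sq_nonneg (nx * ny - hb * hx * hy)]

variable {ι : Type} (S : Finset ι) (d : ι → ℝ)

theorem prod_le {A B : ι → ℝ} (hA : ∀ x, 0 ≤ A x) (hB : ∀ x, 0 ≤ B x) :
    ∑ x ∈ S, ∑ y ∈ S, A x * B y * (d x - d y) ^ 2 ≤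
      2 * ((∑ x ∈ S, A x * d x ^ 2) * ∑ x ∈ S, B x) +
        2 * ((∑ x ∈ S, A x) * ∑ x ∈ S, B x * d x ^ 2) := by
  simp only [sum_mul_sum]
  simp only [mul_sum, ← sum_add_distrib]
  refine sum_le_sum fun x _ => sum_le_sum fun y _ => ?_
  nlinarith [mul_nonneg (mul_nonneg (hA x) (hB y)) (sq_nonneg (d x + d y))]

theorem swap (f : ι → ι → ℝ) :
    ∑ x ∈ S, ∑ y ∈ S, f y x * (d x - d y) ^ 2 = ∑ x ∈ S, ∑ y ∈ S, f x y * (d x - d y) ^ 2 := by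
  rw [sum_comm]
  exact sum_congr rfl fun x _ => sum_congr rfl fun y _ => by ring

theorem mesh (k : ι → ℝ) : ∑ x ∈ S, ∑ y ∈ S, k x * k y * (d x - d y) ^ 2 =
    2 * ((∑ x ∈ S, k x) * (∑ x ∈ S, k x * d x ^ 2) - (∑ x ∈ S, k x * d x) ^ 2) := by
  rw [mul_sub, two_mul, sq (∑ x ∈ S, _)]
  nth_rewrite 1 [mul_comm (∑ x ∈ S, k x)]
  simp only [sum_mul_sum]
  simp only [mul_sum, ← sum_add_distrib, ← sum_sub_distrib]
  exact sum_congr rfl fun x _ => sum_congr rfl fun y _ => by ring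

/-- summation of the pointwise bound -/
theorem asm {F Gq : ι → ι → ℝ} {k κ g n h : ι → ℝ} {ε hb r : ℝ} (e0 : 0 < ε)
    (e1 : ε ≤ 1 / 10 ^ 12) (b1 : hb ≤ ε / 100) (hG : ∀ x y, Gq x y = Gq y x)
    (k0 : ∀ x, 0 ≤ κ x) (k1 : ∑ x ∈ S, κ x ≤ 1) (g0 : ∀ x, 0 ≤ g x) (n0 : ∀ x, 0 ≤ n x)
    (hh : ∀ x, g x ^ 2 + n x ^ 2 ≤ h x ^ 2) (g1 : ∑ x ∈ S, g x ^ 2 ≤ 11 / 10)
    (n1 : ∑ x ∈ S, n x ^ 2 ≤ 4 * ε ^ 2) (h1 : ∑ x ∈ S, h x ^ 2 ≤ 6 / 5)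
    (hF : ∀ x ∈ S, ∀ y ∈ S, F x y ≤ -47 * ε * ((κ x + κ y) * Gq x y) + r * (k x * k y) +
      21 / 20 * ε * (κ x * h y ^ 2) + 21 / 20 * ε * (κ y * h x ^ 2) + ε * (κ x * κ y) +
      201 / 100 * (g x * n x * (g y * n y)) + 3 * (n x ^ 2 * n y ^ 2) +
      3 * hb * (h x ^ 2 * h y ^ 2)) :
    (∑ x ∈ S, ∑ y ∈ S, F x y * (d x - d y) ^ 2) / 2 ≤
      -47 * (ε * ∑ x ∈ S, ∑ y ∈ S, κ x * Gq x y * (d x - d y) ^ 2) +
        r * ((∑ x ∈ S, k x) * (∑ x ∈ S, k x * d x ^ 2) - (∑ x ∈ S, k x * d x) ^ 2) +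
        5 * (ε * ∑ x ∈ S, κ x * d x ^ 2) + 7 * (ε * ∑ x ∈ S, h x ^ 2 * d x ^ 2) := by
  have s1 : ∑ x ∈ S, ∑ y ∈ S, F x y * (d x - d y) ^ 2 ≤ ∑ x ∈ S, ∑ y ∈ S,
      (-47 * ε * (κ x * Gq x y * (d x - d y) ^ 2) + -47 * ε * (κ y * Gq y x * (d x - d y) ^ 2) +
      r * (k x * k y * (d x - d y) ^ 2) + 21 / 20 * ε * (κ x * h y ^ 2 * (d x - d y) ^ 2) +
      21 / 20 * ε * (κ y * h x ^ 2 * (d x - d y) ^ 2) + ε * (κ x * κ y * (d x - d y) ^ 2) +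
      201 / 100 * (g x * n x * (g y * n y) * (d x - d y) ^ 2) +
      3 * (n x ^ 2 * n y ^ 2 * (d x - d y) ^ 2) + 3 * hb * (h x ^ 2 * h y ^ 2 * (d x - d y) ^ 2)) :=
    sum_le_sum fun x hx => sum_le_sum fun y hy =>
      (mul_le_mul_of_nonneg_right (hF x hx y hy) (sq_nonneg _)).trans_eq (by rw [hG y x]; ring)
  simp only [sum_add_distrib, ← mul_sum] at s1
  rw [swap S d fun x y => κ x * Gq x y, swap S d fun x y => κ x * h y ^ 2, mesh] at s1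
  set Nr := ∑ x ∈ S, κ x * d x ^ 2
  set Hs := ∑ x ∈ S, h x ^ 2 * d x ^ 2
  have N0 : 0 ≤ Nr := sum_nonneg fun x _ => mul_nonneg (k0 x) (sq_nonneg _)
  have H0 : 0 ≤ Hs := sum_nonneg fun x _ => by positivity
  have gn : ∀ x, 0 ≤ g x * n x := fun x => mul_nonneg (g0 x) (n0 x)
  have c1 : ∑ x ∈ S, g x * n x ≤ 21 / 10 * ε := by
    refine le_of_mul_le_mul_left ?_ e0
    have : ∑ x ∈ S, ε * (g x * n x) ≤ ∑ x ∈ S, (ε ^ 2 * g x ^ 2 + 1 / 4 * n x ^ 2) :=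
      sum_le_sum fun x _ => by nlinarith [sq_nonneg (ε * g x - n x / 2)]
    simp only [sum_add_distrib, ← mul_sum] at this
    nlinarith [mul_le_mul_of_nonneg_left g1 (sq_nonneg ε)]
  have c2 : ∑ x ∈ S, g x * n x * d x ^ 2 ≤ 1 / 2 * Hs := by
    rw [mul_sum]
    exact sum_le_sum fun x _ => by
      nlinarith [mul_le_mul_of_nonneg_right (hh x) (sq_nonneg (d x)),
        mul_nonneg (sq_nonneg (g x - n x)) (sq_nonneg (d x))]
  have c3 : ∑ x ∈ S, n x ^ 2 * d x ^ 2 ≤ Hs :=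
    sum_le_sum fun x _ => mul_le_mul_of_nonneg_right (by linarith [hh x, sq_nonneg (g x)])
      (sq_nonneg _)
  have t1 := prod_le S d (B := fun x => h x ^ 2) k0 fun x => sq_nonneg _
  have t2 := prod_le S d k0 k0
  have t3 := prod_le S d gn gn
  have t4 := prod_le S d (A := fun x => n x ^ 2) (B := fun x => n x ^ 2) (fun x => sq_nonneg _)
    fun x => sq_nonneg _
  have t5 := prod_le S d (A := fun x => h x ^ 2) (B := fun x => h x ^ 2) (fun x => sq_nonneg _)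
    fun x => sq_nonneg _
  have u1 := mul_le_mul_of_nonneg_left h1 N0
  have u2 := mul_le_mul_of_nonneg_right k1 H0
  have u3 := mul_le_mul_of_nonneg_left k1 N0
  have u4 := mul_le_mul c2 c1 (sum_nonneg fun x _ => gn x) (by positivity)
  have u5 := mul_le_mul c3 (n1.trans (show 4 * ε ^ 2 ≤ ε / 100 by nlinarith))
    (sum_nonneg fun x _ => sq_nonneg _) H0
  have u6 := mul_le_mul_of_nonneg_left h1 H0
  have v1 := mul_le_mul_of_nonneg_left (t1.trans (show _ ≤ 12 / 5 * Nr + 2 * Hs by linarith)) e0.le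
  have v2 := mul_le_mul_of_nonneg_left (t2.trans (show _ ≤ 4 * Nr by linarith)) e0.le
  have v3 := mul_le_mul b1 (t5.trans (show _ ≤ 5 * Hs by linarith))
    (sum_nonneg fun x _ => sum_nonneg fun y _ => by positivity) (by positivity)
  have p1 := mul_nonneg e0.le N0
  have p2 := mul_nonneg e0.le H0
  linarith

/-- the mesh against the star -/
theorem star {w w' g : ι → ℝ} {t ε B wv : ℝ} (ht : t = 1 ∨ t = -1) (e0 : 0 < ε)
    (e1 : ε ≤ 1 / 10 ^ 12) (B0 : 0 ≤ B) (B1 : B ≤ 101 / 100) (v0 : 999 / 1000 ≤ wv)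
    (h1 : t * (B * ∑ x ∈ S, w' x * g x ^ 2 - wv) ≤ -480 * ε)
    (h2 : ∀ x ∈ S, t * (w' x - w x) ≤ 0) (h3 : ∀ x ∈ S, |w' x - w x| ≤ 51 * ε)
    (h4 : ∀ x ∈ S, 999 / 1000 ≤ w' x) (g1 : ∑ x ∈ S, g x ^ 2 ≤ 11 / 10) :
    t * B * ((∑ x ∈ S, w' x * g x ^ 2) * (∑ x ∈ S, w' x * g x ^ 2 * d x ^ 2) -
      (∑ x ∈ S, w' x * g x ^ 2 * d x) ^ 2) - t * (wv * ∑ x ∈ S, w x * g x ^ 2 * d x ^ 2) -
      2 * (1 - t) * (wv * ∑ x ∈ S, w x * g x ^ 2 * d x) ^ 2 ≤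
      -400 * (ε * ∑ x ∈ S, g x ^ 2 * d x ^ 2) := by
  set sv := ∑ x ∈ S, g x ^ 2 * d x ^ 2 with hsv
  have s0 : 0 ≤ sv := sum_nonneg fun x _ => by positivity
  have a1 : 999 / 1000 * sv ≤ ∑ x ∈ S, w' x * g x ^ 2 * d x ^ 2 := by
    rw [hsv, mul_sum]
    exact sum_le_sum fun x hx => by
      rw [mul_assoc (w' x)]
      exact mul_le_mul_of_nonneg_right (h4 x hx) (by positivity)
  have a2 : t * (∑ x ∈ S, w' x * g x ^ 2 * d x ^ 2 - ∑ x ∈ S, w x * g x ^ 2 * d x ^ 2) ≤ 0 := by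
    rw [← sum_sub_distrib, mul_sum]
    exact sum_nonpos fun x hx => by
      linarith [mul_nonpos_of_nonpos_of_nonneg (h2 x hx)
        (show 0 ≤ g x ^ 2 * d x ^ 2 by positivity)]
  have a3 := mul_le_mul_of_nonneg_right h1 (le_trans (by positivity) a1)
  have a4 := mul_le_mul_of_nonneg_left a1 e0.le
  have a5 := mul_nonpos_of_nonneg_of_nonpos (le_trans (by norm_num) v0) a2
  have a6 : ∑ x ∈ S, w' x * g x ^ 2 * d x = ∑ x ∈ S, w x * g x ^ 2 * d x +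
      ∑ x ∈ S, (w' x - w x) * g x * (g x * d x) := by
    rw [← sum_add_distrib]
    exact sum_congr rfl fun x _ => by ring
  have a7 : ∑ x ∈ S, ((w' x - w x) * g x) ^ 2 ≤ ε := by
    refine (sum_le_sum (g := fun x => (51 * ε) ^ 2 * g x ^ 2) fun x hx => ?_).trans ?_
    · rw [mul_pow, ← sq_abs (w' x - w x)]
      exact mul_le_mul_of_nonneg_right (pow_le_pow_left₀ (abs_nonneg _) (h3 x hx) 2) (sq_nonneg _)
    · rw [← mul_sum]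
      exact (mul_le_mul_of_nonneg_left g1 (sq_nonneg _)).trans (by nlinarith)
  have a8 := sum_mul_sq_le_sq_mul_sq S (fun x => (w' x - w x) * g x) fun x => g x * d x
  simp only [mul_pow (g _), ← hsv] at a8
  have a9 := a8.trans (mul_le_mul_of_nonneg_right a7 s0)
  have p0 := mul_nonneg e0.le s0
  rw [a6]
  set L := ∑ x ∈ S, w x * g x ^ 2 * d x
  set Δ := ∑ x ∈ S, (w' x - w x) * g x * (g x * d x)
  rcases ht with rfl | rfl
  · linarith [mul_nonneg B0 (sq_nonneg (L + Δ))]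
  · have b1 := mul_le_mul B1 (show (L + Δ) ^ 2 ≤ 2 * L ^ 2 + 2 * Δ ^ 2 by
      linarith [sq_nonneg (L - Δ)]) (sq_nonneg _) (by norm_num)
    have b2 := mul_le_mul_of_nonneg_right (pow_le_pow_left₀ (by norm_num) v0 2) (sq_nonneg L)
    linarith [sq_nonneg L]

end Pool.Agent.P.MP_d0f69c_mp.XS.Pre.P5AA
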