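import Pool.Agent.P.MP_d0f69c_mp.XS.PIfF
import Pool.Agent.P.MP_d0f69c_mp.XS.Op

/-!
One step of the preparatory flow: the noise of the retarded-retarded matrix without its odd far
part.
-/

set_option autoImplicit false
set_option linter.dupNamespace false

open Finset Real
open scoped Matrix

namespace Pool.Agent.P.MP_d0f69c_mp.XS.Pre

namespace P6AA

section

variable {ι : Type}

/-- the weighted norm -/
noncomputable def cw (T : Finset ι) (w : ι → ℝ) (u : ι → ℂ) : ℝ := √(∑ x ∈ T, w x * ‖u x‖ ^ 2)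

theorem cw0 (T : Finset ι) (w : ι → ℝ) (u : ι → ℂ) : 0 ≤ cw T w u := Real.sqrt_nonneg _

theorem cw_sq {T : Finset ι} {w : ι → ℝ} (hw : ∀ x, 0 ≤ w x) (u : ι → ℂ) :
    cw T w u ^ 2 = ∑ x ∈ T, w x * ‖u x‖ ^ 2 :=
  Real.sq_sqrt (sum_nonneg fun x _ => mul_nonneg (hw x) (sq_nonneg _))

theorem cs {T : Finset ι} {w p r : ι → ℝ} (u : ι → ℂ) {L : ℝ} (hL : 0 ≤ L) (hw : ∀ x, 0 ≤ w x)
    (hr : ∀ x ∈ T, 0 ≤ r x) (h : ∀ x ∈ T, p x ^ 2 ≤ w x * r x) (hs : ∑ x ∈ T, r x ≤ L ^ 2) :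
    ∑ x ∈ T, ‖u x‖ * p x ≤ L * cw T w u := by
  refine le_of_sq_le_sq ?_ (mul_nonneg hL (cw0 _ _ _))
  have h1 := sum_sq_le_sum_mul_sum_of_sq_le_mul T (r := fun x => ‖u x‖ * p x)
    (f := fun x => w x * ‖u x‖ ^ 2) (g := r) (fun x _ => mul_nonneg (hw x) (sq_nonneg _)) hr
    fun x hx => by nlinarith [mul_le_mul_of_nonneg_left (h x hx) (sq_nonneg ‖u x‖)]
  rw [← cw_sq hw] at h1
  nlinarith [mul_le_mul_of_nonneg_left hs (sq_nonneg (cw T w u))]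

theorem prod_le {T : Finset ι} {w p : ι → ℝ} (u u' : ι → ℂ) {L : ℝ} (hp : ∀ x, 0 ≤ p x)
    (h : ∀ u : ι → ℂ, ∑ x ∈ T, ‖u x‖ * p x ≤ L * cw T w u) :
    ∑ x ∈ T, ∑ y ∈ T, ‖u x‖ * (p x * p y) * ‖u' y‖ ≤ L ^ 2 * (cw T w u * cw T w u') := by
  have e : ∑ x ∈ T, ∑ y ∈ T, ‖u x‖ * (p x * p y) * ‖u' y‖ =
      (∑ x ∈ T, ‖u x‖ * p x) * ∑ y ∈ T, ‖u' y‖ * p y := by
    rw [sum_mul_sum]; exact sum_congr rfl fun x _ => sum_congr rfl fun y _ => by ring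
  have h0 : ∀ u : ι → ℂ, 0 ≤ ∑ x ∈ T, ‖u x‖ * p x := fun u =>
    sum_nonneg fun x _ => mul_nonneg (norm_nonneg _) (hp x)
  rw [e]
  exact (mul_le_mul (h u) (h u') (h0 u') ((h0 u).trans (h u))).trans_eq (by ring)

theorem hn_sum {N : (ι → ℂ) → ℝ} (h : HN N) (S : Finset ι) (φ : ι → ι → ℂ) :
    N (∑ y ∈ S, φ y) ≤ ∑ y ∈ S, N (φ y) := by
  classical
  induction S using Finset.induction_on with
  | empty => have := h.smul 0 0; simp only [zero_smul, norm_zero, zero_mul] at this; simp [this]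
  | insert a S ha ih => rw [sum_insert ha, sum_insert ha]; exact (h.add _ _).trans (by linarith)

variable [Fintype ι]

theorem bf_r (S : Finset ι) (B : Matrix ι ι ℂ) (ξ : ι → ℂ) (c d : ι → ℂ) (φ : ι → ι → ℂ) :
    bf B ξ (∑ y ∈ S, c y • d y • φ y) = ∑ y ∈ S, c y * d y * bf B ξ (φ y) := by
  simp only [bf, Matrix.mulVec_sum, dotProduct_sum, Matrix.mulVec_smul, dotProduct_smul,
    smul_eq_mul, mul_assoc]

theorem bf_l (S : Finset ι) (B : Matrix ι ι ℂ) (ξ : ι → ℂ) (c d : ι → ℂ) (φ : ι → ι → ℂ) :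
    bf B (∑ y ∈ S, c y • d y • φ y) ξ = ∑ y ∈ S, c y * d y * bf B (φ y) ξ := by
  simp only [bf, sum_dotProduct, smul_dotProduct, smul_eq_mul, mul_assoc]

end

variable {ι : Type} [Fintype ι] [DecidableEq ι] {q : Nq} {σ : Co ι} {τ : Au ι} {v : ι}

/-- the matrix without its diagonal -/
noncomputable def od (σ : Co ι) (x y : ι) : ℂ := if x = y then 0 else σ.G x y

/-- the quadratic remainder -/
noncomputable def W (σ : Co ι) (τ : Au ι) (v : ι) (b : Bool) (x y : ι) : ℂ :=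
  if x = y then -σ.G x v ^ 4 else bf (τ.T v b) (σ.G x) (σ.G y) ^ 2 - (σ.G x v * σ.G y v) ^ 2

/-- the weights -/
noncomputable def wt (σ : Co ι) (τ : Au ι) (v x : ι) : ℝ := τ.Nh v (σ.G x) ^ 2 + σ.Kk x v

theorem wt0 (hy : Fy q σ τ) (v x : ι) : 0 ≤ wt σ τ v x := add_nonneg (sq_nonneg _) (hy.K0 x v)

theorem TO (hy : Fy q σ τ) (v : ι) : σ.Tv v ⊆ σ.Op := fun _ hx =>
  hy.RO ((union_subset hy.rR hy.gR) (mem_inter.1 (mem_erase.1 hx).2).1)

omit [Fintype ι] in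
theorem Tne {x : ι} (hx : x ∈ σ.Tv v) : x ≠ v := (mem_erase.1 hx).1

omit [DecidableEq ι] in
theorem bfT (b : Bool) (φ ψ : ι → ℂ) :
    bf (τ.T v b) φ ψ = sgn b * bf (τ.B v) φ ψ - bf (τ.R v b) φ ψ := by
  simp only [Au.T, bf, Matrix.sub_mulVec, Matrix.smul_mulVec, dotProduct_sub, dotProduct_smul,
    smul_eq_mul]

theorem M_eq (hy : Fy q σ τ) (b : Bool) {x y : ι} (hx : x ∈ σ.Tv v) (hy' : y ∈ σ.Tv v) :
    y6 (σ.Tv v) σ.G (σ.step τ v b).G v x y - sgn b * σ.o6 τ v x y =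
      2 * sgn b * (od σ x y * bf (τ.B v) (τ.Pn v x) (σ.G y)) +
      2 * sgn b * (od σ y x * bf (τ.B v) (σ.Pf τ v x) (τ.Pn v y)) -
      2 * (od σ x y * bf (τ.R v b) (σ.G x) (σ.G y)) - W σ τ v b x y := by
  have hx' := Tne hx
  have hy'' := (Tne hy').symm
  by_cases h : x = y
  · subst h
    simp only [y6, Co.o6, od, W, A0, hx, hx', hy'', hy.sG v x, and_self, if_true, if_false, ne_eq,
      not_true, and_false]
    ring
  · have e : bf (τ.B v) (σ.G x) (σ.G y) = bf (τ.B v) (τ.Pn v x) (σ.G y) +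
        bf (τ.B v) (σ.Pf τ v x) (τ.Pn v y) + bf (τ.B v) (σ.Pf τ v x) (σ.Pf τ v y) := by
      simp only [bf, Co.Pf, Matrix.mulVec_sub, dotProduct_sub, sub_dotProduct]; ring
    simp only [y6, Co.o6, od, W, A0, Co.step, hx, hy', hx', hy'', h, Ne.symm h, hy.sG v y,
      hy.sG y x, and_self, if_true, if_false, ne_eq, not_false_iff]
    linear_combination 2 * σ.G x y * bfT (τ := τ) (v := v) b (σ.G x) (σ.G y) +
      2 * σ.G x y * sgn b * e

theorem od_row (hy : Fy q σ τ) {x : ι} (hx : x ∈ σ.Tv v) :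
    ∑ y ∈ σ.Tv v, ‖od σ x y‖ ^ 2 ≤ 11 / 10 := by
  refine le_trans (sum_le_sum fun y _ => ?_) ((sum_le_sum_of_subset_of_nonneg (TO hy v)
    fun _ _ _ => sq_nonneg _).trans (hy.row x (TO hy v hx)))
  unfold od; split_ifs <;> simp

theorem od_op (hq : q.OK) (hy : Fy q σ τ) (v : ι) : OpLe (σ.Tv v) (od σ) (3 / q.η) := by
  have h1 := (hy.op.sub (TO hy v)).diff (OpLe.diag (S := σ.Tv v) (a := fun x => σ.G x x) (r := 2)
    zero_le_two fun x hx => by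
      have := (single_le_sum (f := fun y => ‖σ.G x y‖ ^ 2) (fun _ _ => sq_nonneg _)
        (TO hy v hx)).trans (hy.row x (TO hy v hx))
      nlinarith [norm_nonneg (σ.G x x)])
  refine (h1.congr fun x _ y _ => ?_).mono ?_
  · unfold od; split_ifs with h <;> simp [h]
  · have := hq.η0
    have := hq.η1
    rw [show 3 / q.η = 2 / q.η + 1 / q.η by ring, add_le_add_iff_left, le_div_iff₀ hq.η0]
    linarith

theorem K_sum (hy : Fy q σ τ) (v : ι) : ∑ x ∈ σ.Tv v, σ.Kk x v ≤ 1 := by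
  refine le_trans ?_ (hy.K1 v)
  simp only [hy.sK _ v]
  exact sum_le_sum_of_subset_of_nonneg (subset_univ _) fun x _ _ => hy.K0 v x

theorem K_le (hy : Fy q σ τ) (x v : ι) : σ.Kk x v ≤ 1 :=
  (single_le_sum (fun y _ => hy.K0 x y) (mem_univ v)).trans (hy.K1 x)

/-- a row without diagonal against vectors of size at most the weights -/
theorem row_le (hy : Fy q σ τ) (hv : v ∈ σ.rem) {x : ι} (hx : x ∈ σ.Tv v) (u : ι → ℂ)
    {φ : ι → ι → ℂ} (hφ : ∀ y ∈ σ.Tv v, τ.N v (φ y) ^ 2 ≤ 2 * wt σ τ v y) :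
    τ.N v (∑ y ∈ σ.Tv v, od σ x y • u y • φ y) ≤ 3 / 2 * cw (σ.Tv v) (wt σ τ v) u := by
  refine (hn_sum (hy.hn v hv) _ _).trans ?_
  simp only [(hy.hn v hv).smul, mul_left_comm ‖od σ x _‖]
  refine cs u (r := fun y => 2 * ‖od σ x y‖ ^ 2) (by norm_num) (wt0 hy v)
    (fun _ _ => by positivity) (fun y h => ?_) ?_
  · nlinarith [mul_le_mul_of_nonneg_left (hφ y h) (sq_nonneg ‖od σ x y‖)]
  · rw [← mul_sum]; linarith [od_row hy hx]

/-- the near part of a row against bounded vectors -/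
theorem near (hq : q.OK) (hy : Fy q σ τ) (hv : v ∈ σ.rem) (u : ι → ℂ) {f : ι → ℂ} {c : ℝ}
    (hc : 0 ≤ c) (h : ∀ x ∈ σ.Tv v, ‖f x‖ ≤ τ.N v (τ.Pn v x) * c) :
    ‖∑ x ∈ σ.Tv v, u x * f x‖ ≤ q.ε * c * cw (σ.Tv v) (wt σ τ v) u := by
  have h1 := cs (T := σ.Tv v) (p := fun x => σ.Kk x v) (r := fun x => σ.Kk x v) u zero_le_one
    (wt0 hy v) (fun x _ => hy.K0 x v) (fun x _ => by
      unfold wt; nlinarith [mul_nonneg (sq_nonneg (τ.Nh v (σ.G x))) (hy.K0 x v)])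
    (by linarith [K_sum hy v])
  have := hq.ε0
  calc _ ≤ ∑ x ∈ σ.Tv v, q.ε * c * (‖u x‖ * σ.Kk x v) := norm_sum_le_of_le _ fun x hx => by
        have h2 := (hy.p1 v hv x (mem_union_left _ (TO hy v hx)) (Tne hx)).trans
          (mul_le_mul_of_nonneg_right hq.κ1 (hy.K0 x v))
        rw [norm_mul]
        exact (mul_le_mul_of_nonneg_left ((h x hx).trans (mul_le_mul_of_nonneg_right h2 hc))
          (norm_nonneg _)).trans_eq (by ring)
    _ ≤ _ := by rw [← mul_sum]; exact mul_le_mul_of_nonneg_left (by linarith) (by positivity)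

/-- the even part -/
theorem even (hq : q.OK) (hy : Fy q σ τ) (hz : Fz q σ τ) (hv : v ∈ σ.rem) (b : Bool)
    (u u' : ι → ℂ) :
    ‖∑ x ∈ σ.Tv v, u x * bf (τ.R v b) (σ.G x) (∑ y ∈ σ.Tv v, od σ x y • u' y • σ.G y)‖ ≤
      3 * q.ε * (cw (σ.Tv v) (wt σ τ v) u * cw (σ.Tv v) (wt σ τ v) u') := by
  have e0 := hq.η0
  have c0 := cw0 (σ.Tv v) (wt σ τ v) u
  have c1 := cw0 (σ.Tv v) (wt σ τ v) u'
  have h0 := (hz.hh v).op _ _ _ (fun y => u' y • σ.G y) (od_op hq hy v)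
  have h1 := cs (T := σ.Tv v) (L := 3 / q.η * cw (σ.Tv v) (wt σ τ v) u')
    (p := fun x => τ.Nh v (σ.G x) * τ.Nh v (∑ y ∈ σ.Tv v, od σ x y • u' y • σ.G y)) u
    (by positivity) (wt0 hy v) (fun x _ => sq_nonneg _) (fun x _ => by
      rw [mul_pow]
      exact mul_le_mul_of_nonneg_right (le_add_of_nonneg_right (hy.K0 x v)) (sq_nonneg _))
    (h0.trans (by
      rw [mul_pow, cw_sq (wt0 hy v)]
      refine mul_le_mul_of_nonneg_left (sum_le_sum fun y _ => ?_) (sq_nonneg _)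
      rw [(hz.hh v).smul, mul_pow, mul_comm]
      exact mul_le_mul_of_nonneg_right (le_add_of_nonneg_right (hy.K0 y v)) (sq_nonneg _)))
  calc _ ≤ ∑ x ∈ σ.Tv v, q.hb * (‖u x‖ * (τ.Nh v (σ.G x) *
          τ.Nh v (∑ y ∈ σ.Tv v, od σ x y • u' y • σ.G y))) := norm_sum_le_of_le _ fun x _ => by
        rw [norm_mul]
        exact (mul_le_mul_of_nonneg_left (hy.r1 v hv b _ _) (norm_nonneg _)).trans_eq (by ring)
    _ ≤ q.ε * q.η * (3 / q.η * cw (σ.Tv v) (wt σ τ v) u' * cw (σ.Tv v) (wt σ τ v) u) := by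
        rw [← mul_sum]
        exact (mul_le_mul_of_nonneg_left h1 hq.h0).trans
          (mul_le_mul_of_nonneg_right hq.h2 (by positivity))
    _ = _ := by field_simp

theorem W_le (hq : q.OK) (hy : Fy q σ τ) (hz : Fz q σ τ) (hv : v ∈ σ.rem) (b : Bool) {x : ι}
    (hx : x ∈ σ.Tv v) (y : ι) : ‖W σ τ v b x y‖ ≤
      4 * q.ε * (τ.Nh v (σ.G x) ^ 2 * τ.Nh v (σ.G y) ^ 2) +
      5 * (τ.Nh v (σ.G x) * no (τ.D v) (σ.G x) * (τ.Nh v (σ.G y) * no (τ.D v) (σ.G y))) +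
      if x = y then q.ε * τ.Nh v (σ.G x) ^ 2 else 0 := by
  have e0 := hq.ε0
  have e1 := hq.ε1
  have n0 := (hz.hh v).nn
  have d0 := no_nonneg (τ.D v)
  have g1 : ∀ φ, ‖φ v‖ ≤ τ.Nh v φ := fun φ => (hy.n1 v hv φ).trans (hy.n2 v hv φ)
  have d1 : ∀ φ, no (τ.D v) φ ≤ τ.Nh v φ := fun φ =>
    le_of_sq_le_sq (by rw [hz.sq]; nlinarith [sq_nonneg ‖φ v‖]) (n0 φ)
  have a0 := n0 (σ.G x)
  have a1 := n0 (σ.G y)
  have b0 := d0 (σ.G x)
  have b1 := d0 (σ.G y)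
  unfold W
  split_ifs with h
  · have h1 := (hz.gs v hv x (mem_erase.2 ⟨Tne hx, TO hy v hx⟩)).1
    have h2 := pow_le_pow_left₀ (norm_nonneg _) h1 2
    have h3 := pow_le_pow_left₀ (norm_nonneg _) (g1 (σ.G x)) 2
    have h4 := mul_le_mul (h2.trans (show _ ≤ q.ε by nlinarith)) h3 (sq_nonneg _) e0.le
    rw [norm_neg, norm_pow]
    refine le_add_of_nonneg_of_le (by positivity) (by linarith)
  have hb : q.hb ≤ q.ε / 10 := hq.h2.trans (by nlinarith [hq.η1])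
  obtain ⟨g, hg⟩ : ∃ g, g = σ.G x v * σ.G y v := ⟨_, rfl⟩
  obtain ⟨A, hA⟩ : ∃ A, A = τ.Nh v (σ.G x) * τ.Nh v (σ.G y) := ⟨_, rfl⟩
  obtain ⟨D, hD⟩ : ∃ D, D = no (τ.D v) (σ.G x) * no (τ.D v) (σ.G y) := ⟨_, rfl⟩
  obtain ⟨e, he⟩ : ∃ e, e = sgn b * (bf (τ.B v) (σ.G x) (σ.G y) - τ.β v * g) -
    bf (τ.R v b) (σ.G x) (σ.G y) + sgn b * ((τ.β v - 1) * g) := ⟨_, rfl⟩
  have A0 : 0 ≤ A := hA ▸ mul_nonneg a0 a1
  have D0 : 0 ≤ D := hD ▸ mul_nonneg b0 b1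
  have DA : D ≤ A := hD ▸ hA ▸ mul_le_mul (d1 _) (d1 _) b1 a0
  have gA : ‖g‖ ≤ A := by rw [hg, hA, norm_mul]; exact mul_le_mul (g1 _) (g1 _) (norm_nonneg _) a0
  have eA : ‖e‖ ≤ D + 11 / 10 * q.ε * A := by
    have h1 := hy.b1 v hv (σ.G x) (σ.G y)
    have h2 := hy.r1 v hv b (σ.G x) (σ.G y)
    have h3 := mul_le_mul (hy.b2 v hv) gA (norm_nonneg _) e0.le
    rw [← hg, ← hD] at h1
    rw [mul_assoc, ← hA] at h2
    refine he ▸ (norm_add_le _ _).trans ((add_le_add (norm_sub_le _ _) le_rfl).trans ?_)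
    simp only [norm_mul, norm_sgn, one_mul]
    nlinarith [mul_le_mul_of_nonneg_right hb A0]
  have ee : bf (τ.T v b) (σ.G x) (σ.G y) ^ 2 - (σ.G x v * σ.G y v) ^ 2 =
      e * (2 * sgn b * g + e) := by
    rw [bfT, ← hg, he]
    linear_combination (g ^ 2) * sgn_sq b
  have h5 : ‖2 * sgn b * g + e‖ ≤ 31 / 10 * A := (norm_add_le _ _).trans (by
    simp only [norm_mul, norm_sgn, Complex.norm_ofNat]
    nlinarith [mul_le_mul_of_nonneg_right e1 A0])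
  rw [ee, norm_mul, ← mul_pow, ← hA, mul_mul_mul_comm, ← hA, ← hD]
  refine (mul_le_mul eA h5 (norm_nonneg _) (by positivity)).trans ?_
  nlinarith [mul_nonneg A0 D0, mul_nonneg e0.le (sq_nonneg A)]

/-- the quadratic remainder -/
theorem quad (hq : q.OK) (hy : Fy q σ τ) (hz : Fz q σ τ) (hv : v ∈ σ.rem) (b : Bool)
    (u u' : ι → ℂ) : ‖∑ x ∈ σ.Tv v, ∑ y ∈ σ.Tv v, u x * W σ τ v b x y * u' y‖ ≤
      7 * q.ε * (cw (σ.Tv v) (wt σ τ v) u * cw (σ.Tv v) (wt σ τ v) u') := by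
  have e0 := hq.ε0
  have e1 := hq.ε1
  have n0 := (hz.hh v).nn
  have c0 := mul_nonneg (cw0 (σ.Tv v) (wt σ τ v) u) (cw0 (σ.Tv v) (wt σ τ v) u')
  have hw : ∀ x, τ.Nh v (σ.G x) ^ 2 ≤ wt σ τ v x := fun x => le_add_of_nonneg_right (hy.K0 x v)
  have h1 := prod_le (T := σ.Tv v) (w := wt σ τ v) (p := fun x => τ.Nh v (σ.G x) ^ 2)
    (L := 11 / 10) u u' (fun _ => sq_nonneg _) fun u =>
      cs u (r := fun x => τ.Nh v (σ.G x) ^ 2) (by norm_num) (wt0 hy v) (fun _ _ => sq_nonneg _)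
        (fun x _ => by rw [sq]; exact mul_le_mul_of_nonneg_right (hw x) (sq_nonneg _))
        (((sum_le_sum_of_subset_of_nonneg (TO hy v) fun _ _ _ => sq_nonneg _).trans
          (hz.nO v hv)).trans (by norm_num))
  have h2 := prod_le (T := σ.Tv v) (w := wt σ τ v)
    (p := fun x => τ.Nh v (σ.G x) * no (τ.D v) (σ.G x)) (L := 2 * q.ε) u u'
    (fun _ => mul_nonneg (n0 _) (no_nonneg _ _)) fun u =>
      cs u (r := fun x => no (τ.D v) (σ.G x) ^ 2) (by positivity) (wt0 hy v)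
        (fun _ _ => sq_nonneg _)
        (fun x _ => by rw [mul_pow]; exact mul_le_mul_of_nonneg_right (hw x) (sq_nonneg _))
        (((sum_le_sum_of_subset_of_nonneg (TO hy v) fun _ _ _ => sq_nonneg _).trans
          (hz.cO v hv)).trans_eq (by ring))
  have h3 := cs (T := σ.Tv v) (p := fun x => τ.Nh v (σ.G x) ^ 2 * ‖u' x‖)
    (r := fun x => wt σ τ v x * ‖u' x‖ ^ 2) u (cw0 (σ.Tv v) (wt σ τ v) u') (wt0 hy v)
    (fun x _ => mul_nonneg (wt0 hy v x) (sq_nonneg _)) (fun x _ => by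
      rw [mul_pow, ← mul_assoc, ← sq]
      exact mul_le_mul_of_nonneg_right (pow_le_pow_left₀ (sq_nonneg _) (hw x) 2) (sq_nonneg _))
    (cw_sq (wt0 hy v) u').ge
  calc _ ≤ ∑ x ∈ σ.Tv v, ∑ y ∈ σ.Tv v,
        (4 * q.ε * (‖u x‖ * (τ.Nh v (σ.G x) ^ 2 * τ.Nh v (σ.G y) ^ 2) * ‖u' y‖) +
        5 * (‖u x‖ * (τ.Nh v (σ.G x) * no (τ.D v) (σ.G x) *
          (τ.Nh v (σ.G y) * no (τ.D v) (σ.G y))) * ‖u' y‖) +
        if x = y then q.ε * (‖u x‖ * (τ.Nh v (σ.G x) ^ 2 * ‖u' y‖)) else 0) :=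
        norm_sum_le_of_le _ fun x hx => norm_sum_le_of_le _ fun y _ => by
          rw [norm_mul, norm_mul]
          refine (mul_le_mul_of_nonneg_right (mul_le_mul_of_nonneg_left (W_le hq hy hz hv b hx y)
            (norm_nonneg _)) (norm_nonneg _)).trans_eq ?_
          split_ifs <;> ring
    _ ≤ _ := by
        simp only [sum_add_distrib, ← mul_sum, sum_ite_eq]
        rw [sum_congr rfl fun x hx => if_pos hx, ← mul_sum]
        nlinarith [mul_le_mul_of_nonneg_left h1 e0.le, mul_le_mul_of_nonneg_left h3 e0.le,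
          mul_le_mul_of_nonneg_right e1 (mul_nonneg e0.le c0)]

end P6AA

open P6AA in
theorem t_p6a : S_P6A := by
  intro ι _ _ q σ τ hq hy hz v hv b u u'
  have e0 := hq.ε0
  have c0 := cw0 (σ.Tv v) (wt σ τ v) u
  have c1 := cw0 (σ.Tv v) (wt σ τ v) u'
  have n0 := (hy.hn v hv).nn
  have eR : ∀ u : ι → ℂ, √(∑ x ∈ σ.Tv v, 30 * q.ε * (τ.Nh v (σ.G x) ^ 2 + σ.Kk x v) * ‖u x‖ ^ 2) =
      √(30 * q.ε) * cw (σ.Tv v) (wt σ τ v) u := fun u => by
    rw [cw, ← Real.sqrt_mul (by positivity), mul_sum]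
    simp only [wt, mul_assoc]
  have eL : ∑ x, ∑ y, u x * (y6 (σ.Tv v) σ.G (σ.step τ v b).G v x y - sgn b * σ.o6 τ v x y) * u' y =
      2 * sgn b * ∑ x ∈ σ.Tv v, u x * bf (τ.B v) (τ.Pn v x)
        (∑ y ∈ σ.Tv v, od σ x y • u' y • σ.G y) +
      2 * sgn b * ∑ y ∈ σ.Tv v, u' y * bf (τ.B v)
        (∑ x ∈ σ.Tv v, od σ y x • u x • σ.Pf τ v x) (τ.Pn v y) -
      2 * ∑ x ∈ σ.Tv v, u x * bf (τ.R v b) (σ.G x) (∑ y ∈ σ.Tv v, od σ x y • u' y • σ.G y) -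
      ∑ x ∈ σ.Tv v, ∑ y ∈ σ.Tv v, u x * W σ τ v b x y * u' y := by
    rw [← sum_subset (subset_univ (σ.Tv v)) fun x _ hx => by simp [y6, Co.o6, hx],
      sum_congr rfl fun x _ => (sum_subset (subset_univ (σ.Tv v)) fun y _ hy => by
        simp [y6, Co.o6, hy]).symm]
    simp only [bf_r, bf_l, mul_sum]
    rw [sum_comm (f := fun y x => 2 * sgn b * (u' y * _))]
    simp only [← sum_add_distrib, ← sum_sub_distrib]
    refine sum_congr rfl fun x hx => sum_congr rfl fun y hy' => ?_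
    rw [M_eq hy b hx hy']; ring
  have h1 := near hq hy hv u (c := 103 / 100 * (3 / 2 * cw (σ.Tv v) (wt σ τ v) u'))
    (f := fun x => bf (τ.B v) (τ.Pn v x) (∑ y ∈ σ.Tv v, od σ x y • u' y • σ.G y))
    (by positivity) fun x hx => (hy.b0 v hv _ _).trans (by
      have := row_le hy hv hx u' (φ := σ.G) fun y _ => by
        have := pow_le_pow_left₀ (n0 _) (hy.n2 v hv (σ.G y)) 2
        unfold wt; nlinarith [hy.K0 y v, sq_nonneg (τ.Nh v (σ.G y))]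
      nlinarith [mul_le_mul_of_nonneg_left this (n0 (τ.Pn v x))])
  have h2 := near hq hy hv u' (c := 103 / 100 * (3 / 2 * cw (σ.Tv v) (wt σ τ v) u))
    (f := fun y => bf (τ.B v) (∑ x ∈ σ.Tv v, od σ y x • u x • σ.Pf τ v x) (τ.Pn v y))
    (by positivity) fun y hy' => (hy.b0 v hv _ _).trans (by
      have := row_le hy hv hy' u (φ := σ.Pf τ v) fun x hx => by
        have h1 := pow_le_pow_left₀ (n0 _)
          (hz.f1 v hv x (mem_union_left _ (TO hy v hx)) (Tne hx)).2 2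
        have h2 := hy.K0 x v
        have h3 : q.κ * σ.Kk x v ≤ σ.Kk x v :=
          mul_le_of_le_one_left h2 (by linarith [hq.κ1, hq.ε1])
        have h4 := mul_le_mul h3 (h3.trans (K_le hy x v)) (mul_nonneg hq.κ0 h2) h2
        unfold wt; nlinarith [sq_nonneg (τ.Nh v (σ.G x) - q.κ * σ.Kk x v)]
      nlinarith [mul_le_mul_of_nonneg_left this (n0 (τ.Pn v y))])
  have h3 := even hq hy hz hv b u u'
  have h4 := quad hq hy hz hv b u u'
  rw [eL, eR, eR, mul_mul_mul_comm, Real.mul_self_sqrt (by positivity)]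
  refine (norm_sub_le _ _).trans ((add_le_add ((norm_sub_le _ _).trans
    (add_le_add (norm_add_le _ _) le_rfl)) le_rfl).trans ?_)
  simp only [norm_mul, norm_sgn, Complex.norm_ofNat]
  nlinarith [mul_nonneg e0.le (mul_nonneg c0 c1)]

end Pool.Agent.P.MP_d0f69c_mp.XS.Pre
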