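import Pool.Agent.P.MP_d0f69c_mp.XS.PIfF
import Pool.Agent.P.MP_d0f69c_mp.XS.Op

/-!
Variation of the odd far part of the noise of the retarded-retarded matrix.
-/

set_option autoImplicit false
set_option linter.dupNamespace false

open Finset Real
open scoped Matrix

namespace Pool.Agent.P.MP_d0f69c_mp.XS.Pre

namespace P6BA

variable {ι : Type} [Fintype ι] [DecidableEq ι]

omit [DecidableEq ι] in
theorem bf_symm {B : Matrix ι ι ℂ} (h : Bᵀ = B) (ξ ζ : ι → ℂ) : bf B ξ ζ = bf B ζ ξ := by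
  rw [bf_eq, bf_eq, sum_comm]
  refine sum_congr rfl fun x _ => sum_congr rfl fun y _ => ?_
  have e : B y x = B x y := congrFun (congrFun h x) y
  rw [e]; ring

omit [DecidableEq ι] in
theorem bf_sum (B : Matrix ι ι ℂ) (ξ : ι → ℂ) (S : Finset ι) (c : ι → ℂ) (φ : ι → ι → ℂ) :
    bf B ξ (∑ y ∈ S, c y • φ y) = ∑ y ∈ S, c y * bf B ξ (φ y) := by
  simp only [bf, Matrix.mulVec_sum, dotProduct_sum, Matrix.mulVec_smul, dotProduct_smul,
    smul_eq_mul]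

omit [Fintype ι] in
theorem N_sum {N : (ι → ℂ) → ℝ} (h : HN N) (S : Finset ι) (φ : ι → ι → ℂ) :
    N (∑ y ∈ S, φ y) ≤ ∑ y ∈ S, N (φ y) := by
  induction S using Finset.induction_on with
  | empty =>
    have := h.smul 0 0
    simp only [smul_zero, norm_zero, zero_mul] at this
    simp [this]
  | insert a s ha ih =>
    rw [sum_insert ha, sum_insert ha]
    exact (h.add _ _).trans (by linarith)

variable {q : Nq} {σ : Co ι} {τ : Au ι}

omit [Fintype ι] in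
theorem Tv_sub (h : σ.rem ⊆ σ.Rw) (h' : σ.Sg ⊆ σ.Rw) (h'' : σ.Rw ⊆ σ.Op) (v : ι) :
    σ.Tv v ⊆ σ.Op.erase v :=
  erase_subset_erase v (inter_subset_left.trans ((union_subset h h').trans h''))

/-- the matrix without its diagonal -/
noncomputable def od (G : ι → ι → ℂ) (x y : ι) : ℂ := if x = y then 0 else G x y

theorem one (hq : q.OK) (hy : Fy q σ τ) (hz : Fz q σ τ) {v : ι} (hv : v ∈ σ.rem) (u : ι → ℝ) :
    ∑ x, ‖∑ y, σ.o6 τ v x y * u y‖ ^ 2 ≤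
      61 / q.P ^ 100 * ∑ y ∈ σ.Op.erase v, u y ^ 2 * τ.N v (σ.Pf τ v y) ^ 2 := by
  have hT := Tv_sub hy.rR hy.gR hy.RO v
  have hO : σ.Tv v ⊆ σ.Op := hT.trans (erase_subset _ _)
  have hN := hy.hn v hv
  have hP : 0 < q.P := lt_of_lt_of_le (by norm_num) hq.P9
  have hη := hq.η0
  set T := σ.Tv v with hTd
  set φ : ι → ι → ℂ := fun y => (u y : ℂ) • σ.Pf τ v y with hφ
  set ζ : ι → ι → ℂ := fun x => ∑ y ∈ T, od σ.G x y • φ y with hζ
  set U : ℝ := ∑ y ∈ T, τ.N v (φ y) ^ 2 with hU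
  have U0 : 0 ≤ U := sum_nonneg fun _ _ => sq_nonneg _
  have eU : U ≤ ∑ y ∈ σ.Op.erase v, u y ^ 2 * τ.N v (σ.Pf τ v y) ^ 2 := by
    refine le_trans (le_of_eq (sum_congr rfl fun y _ => ?_))
      (sum_le_sum_of_subset_of_nonneg hT fun _ _ _ => by positivity)
    simp only [hφ, hN.smul, mul_pow, Complex.norm_real, Real.norm_eq_abs, sq_abs]
  have e1 : ∀ x ∈ T, ∑ y, σ.o6 τ v x y * u y = 2 * bf (τ.B v) (σ.Pf τ v x) (ζ x) := by
    intro x hx
    simp only [hζ, hφ, smul_smul, bf_sum, mul_sum]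
    rw [← sum_subset (subset_univ T)]
    · refine sum_congr rfl fun y hy' => ?_
      by_cases e : x = y
      · simp [Co.o6, od, e]
      · rw [Co.o6, if_pos ⟨hx, hy', e⟩, od, if_neg e]; ring
    · intro y _ hy'
      rw [Co.o6, if_neg fun h => hy' h.2.1, zero_mul]
  have e0 : ∀ x ∉ T, ∑ y, σ.o6 τ v x y * u y = 0 := fun x hx =>
    sum_eq_zero fun y _ => by rw [Co.o6, if_neg fun h => hx h.1, zero_mul]
  have r1 : ∀ x ∈ T, τ.N v (ζ x) ^ 2 ≤ 11 / 10 * U := by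
    intro x hx
    have a1 : τ.N v (ζ x) ≤ ∑ y ∈ T, ‖σ.G x y‖ * τ.N v (φ y) := by
      refine (N_sum hN T _).trans (sum_le_sum fun y _ => ?_)
      rw [hN.smul]
      refine mul_le_mul_of_nonneg_right ?_ (hN.nn _)
      unfold od
      split_ifs <;> simp
    refine (pow_le_pow_left₀ (hN.nn _) a1 2).trans ((sum_mul_sq_le_sq_mul_sq T _ _).trans ?_)
    refine mul_le_mul_of_nonneg_right ?_ U0
    exact (sum_le_sum_of_subset_of_nonneg hO fun _ _ _ => sq_nonneg _).trans (hy.row x (hO hx))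
  have hη1 : (2 : ℝ) ≤ 1 / q.η := by
    rw [le_div_iff₀ hη]; linarith [hq.η1]
  have op : OpLe T (od σ.G) (3 / q.η) := by
    have d : OpLe T (fun x y => if x = y then σ.G x x else 0) (1 / q.η) := by
      refine OpLe.diag (by positivity) fun x hx => le_trans ?_ hη1
      have a := (single_le_sum (f := fun y => ‖σ.G x y‖ ^ 2) (fun _ _ => sq_nonneg _)
        (hO hx)).trans (hy.row x (hO hx))
      nlinarith [norm_nonneg (σ.G x x)]
    refine (((hy.op.sub hO).diff d).mono (le_of_eq (by ring))).congr fun x _ y _ => ?_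
    unfold od
    split_ifs with e
    · simp [e]
    · simp
  have r2 : ∑ x ∈ T, τ.N v (ζ x) ^ 2 ≤ (3 / q.η) ^ 2 * U := hN.op T _ _ φ op
  have r3 : ∑ x ∈ T, (τ.N v (ζ x) ^ 2) ^ 2 ≤ 11 / 10 * U * ((3 / q.η) ^ 2 * U) := by
    refine le_trans ?_ (mul_le_mul_of_nonneg_left r2 (by positivity))
    rw [mul_sum]
    refine sum_le_sum fun x hx => ?_
    rw [sq (τ.N v (ζ x) ^ 2)]
    exact mul_le_mul_of_nonneg_right (r1 x hx) (sq_nonneg _)
  have r4 : ∑ x ∈ T, (τ.Nh v (σ.Γ x) ^ 2) ^ 2 ≤ 3 * q.nJ := by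
    refine le_trans ?_ (hz.Γ2 v hv)
    refine le_trans (le_of_eq (sum_congr rfl fun x _ => by ring))
      (sum_le_sum_of_subset_of_nonneg hO fun _ _ _ => by positivity)
  have r5 : ∑ x ∈ T, τ.Nh v (σ.Γ x) ^ 2 * τ.N v (ζ x) ^ 2 ≤ 6 / q.P ^ 100 * U := by
    refine le_of_sq_le_sq ((sum_mul_sq_le_sq_mul_sq T _ _).trans ?_) (by positivity)
    have n0 : 0 ≤ q.nJ := hq.n0.le.trans hq.n1
    calc _ ≤ 3 * q.nJ * (11 / 10 * U * ((3 / q.η) ^ 2 * U)) :=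
          mul_le_mul r4 r3 (sum_nonneg fun _ _ => sq_nonneg _) (by positivity)
      _ ≤ 3 * (q.η ^ 2 / q.P ^ 200) * (11 / 10 * U * ((3 / q.η) ^ 2 * U)) := by
          gcongr; exact hq.n3
      _ = 297 / 10 * (U / q.P ^ 100) ^ 2 := by field_simp; ring
      _ ≤ 36 * (U / q.P ^ 100) ^ 2 := by gcongr; norm_num
      _ = _ := by ring
  have r6 : ∑ x ∈ T, τ.μ x v ^ 2 * τ.N v (ζ x) ^ 2 ≤ 11 / 10 / q.P ^ 100 * U := by
    calc _ ≤ ∑ x ∈ T, τ.μ x v ^ 2 * (11 / 10 * U) :=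
          sum_le_sum fun x hx => mul_le_mul_of_nonneg_left (r1 x hx) (sq_nonneg _)
      _ ≤ 1 / q.P ^ 100 * (11 / 10 * U) := by
          rw [← sum_mul]
          refine mul_le_mul_of_nonneg_right ?_ (by positivity)
          exact ((sum_le_sum_of_subset_of_nonneg (subset_univ T)
            fun _ _ _ => sq_nonneg _).trans (hy.u2 v hv)).trans hq.ν1
      _ = _ := by ring
  have r7 : ∀ x ∈ T, ‖∑ y, σ.o6 τ v x y * u y‖ ^ 2 ≤
      17 / 2 * (τ.Nh v (σ.Γ x) ^ 2 * τ.N v (ζ x) ^ 2 + τ.μ x v ^ 2 * τ.N v (ζ x) ^ 2) := by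
    intro x hx
    have a1 := (hz.f1 v hv x (mem_union_left _ (hO hx)) (ne_of_mem_erase (hT hx))).1
    have a2 := hy.b0 v hv (σ.Pf τ v x) (ζ x)
    have a3 := hN.nn (ζ x)
    have a4 : ‖∑ y, σ.o6 τ v x y * u y‖ ≤
        2 * (103 / 100 * (τ.Nh v (σ.Γ x) + τ.μ x v) * τ.N v (ζ x)) := by
      rw [e1 x hx, norm_mul, Complex.norm_two]
      refine mul_le_mul_of_nonneg_left (a2.trans ?_) zero_le_two
      gcongr
    refine (pow_le_pow_left₀ (norm_nonneg _) a4 2).trans ?_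
    have a5 := sq_nonneg ((τ.Nh v (σ.Γ x) - τ.μ x v) * τ.N v (ζ x))
    have a6 := sq_nonneg (τ.Nh v (σ.Γ x) * τ.N v (ζ x))
    have a7 := sq_nonneg (τ.μ x v * τ.N v (ζ x))
    nlinarith
  calc _ = ∑ x ∈ T, ‖∑ y, σ.o6 τ v x y * u y‖ ^ 2 := by
        refine (sum_subset (subset_univ T) fun x _ hx => ?_).symm
        rw [e0 x hx]; simp
    _ ≤ 17 / 2 * (6 / q.P ^ 100 * U + 11 / 10 / q.P ^ 100 * U) := by
        refine (sum_le_sum r7).trans ?_
        rw [← mul_sum, sum_add_distrib]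
        gcongr
    _ = 1207 / 20 * (U / q.P ^ 100) := by ring
    _ ≤ 61 * (U / q.P ^ 100) := by gcongr; norm_num
    _ = 61 / q.P ^ 100 * U := by ring
    _ ≤ _ := by gcongr

end P6BA

open P6BA in
theorem t_p6b : S_P6B := by
  intro ι _ _ q σ τ hq hy hz
  refine ⟨fun v hv x y => ?_, fun u => ?_⟩
  · unfold Co.o6
    rw [hy.sG x y, bf_symm (hy.sB v hv) (σ.Pf τ v x)]
    exact if_congr ⟨fun h => ⟨h.2.1, h.1, h.2.2.symm⟩, fun h => ⟨h.2.1, h.1, h.2.2.symm⟩⟩ rfl rfl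
  have hP : 0 < q.P := lt_of_lt_of_le (by norm_num) hq.P9
  have s0 : 0 ≤ ∑ x, u x ^ 2 := sum_nonneg fun _ _ => sq_nonneg _
  refine (sum_le_sum fun v hv => one hq hy hz hv u).trans ?_
  rw [← mul_sum]
  have e : ∑ v ∈ σ.rem, ∑ y ∈ σ.Op.erase v, u y ^ 2 * τ.N v (σ.Pf τ v y) ^ 2 =
      ∑ y ∈ σ.Op, ∑ v ∈ σ.rem.erase y, u y ^ 2 * τ.N v (σ.Pf τ v y) ^ 2 :=
    sum_comm' fun v y => by
      simp only [mem_erase, ne_eq]
      exact ⟨fun h => ⟨⟨fun e => h.2.1 e.symm, h.1⟩, h.2.2⟩,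
        fun h => ⟨h.1.2, fun e => h.1.1 e.symm, h.2⟩⟩
  have a : ∑ y ∈ σ.Op, ∑ v ∈ σ.rem.erase y, u y ^ 2 * τ.N v (σ.Pf τ v y) ^ 2 ≤
      5 / 2 * ∑ x, u x ^ 2 := by
    rw [mul_sum]
    refine le_trans (sum_le_sum fun y hy' => ?_)
      (sum_le_sum_of_subset_of_nonneg (subset_univ σ.Op) fun _ _ _ => by positivity)
    rw [← mul_sum, mul_comm]
    exact mul_le_mul_of_nonneg_right (hz.f3 y hy') (sq_nonneg _)
  have hb : (153 : ℝ) ≤ q.P ^ 84 := by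
    have h1 : (1 : ℝ) ≤ q.P := le_trans (by norm_num) hq.P9
    exact le_trans (le_trans (by norm_num) hq.P9) (le_self_pow₀ h1 (by norm_num))
  calc _ ≤ 61 / q.P ^ 100 * (5 / 2 * ∑ x, u x ^ 2) := by rw [e]; gcongr
    _ = 305 / 2 / q.P ^ 100 * ∑ x, u x ^ 2 := by ring
    _ ≤ q.P ^ 84 / q.P ^ 100 * ∑ x, u x ^ 2 := by gcongr; linarith
    _ = _ := by field_simp

end Pool.Agent.P.MP_d0f69c_mp.XS.Pre
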