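import Pool.Agent.P.MP_d0f69c_mp.XS.PIfF

/-!
The lead strengths along the preparatory flow.
-/

set_option autoImplicit false
set_option linter.dupNamespace false

open Finset Real
open scoped Matrix

namespace Pool.Agent.P.MP_d0f69c_mp.XS.Pre

namespace PAA

/-- a number bounded by `k + m` is a sum of numbers bounded by `k` and by `m` -/
theorem clip {I k m : ℝ} (hk : 0 ≤ k) (hm : 0 ≤ m) (h : |I| ≤ k + m) :
    ∃ f : ℝ, |f| ≤ m ∧ |I - f| ≤ k := by
  obtain ⟨h1, h2⟩ := abs_le.1 h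
  by_cases ha : k ≤ I
  · exact ⟨I - k, abs_le.2 ⟨by linarith, by linarith⟩, abs_le.2 ⟨by linarith, by linarith⟩⟩
  · by_cases hb : I ≤ -k
    · exact ⟨I + k, abs_le.2 ⟨by linarith, by linarith⟩, abs_le.2 ⟨by linarith, by linarith⟩⟩
    · exact ⟨0, abs_le.2 ⟨by linarith, by linarith⟩, abs_le.2 ⟨by linarith, by linarith⟩⟩

end PAA

theorem t_pa : S_PA := by
  intro ι _ _ q σ τ hq F x hx t ht
  have hη := hq.η0
  have key : ∀ v, ∃ f : ℝ, v ∈ σ.rem.erase x → |f| ≤ τ.μ x v ∧
      |(bf (τ.B v) (σ.al x) (σ.al x)).im / q.η - f| ≤ q.κ * σ.Kk x v := by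
    intro v
    by_cases hv : v ∈ σ.rem.erase x
    · obtain ⟨hvx, hvr⟩ := mem_erase.1 hv
      have h1 := F.ia v hvr x (mem_erase.2 ⟨hvx.symm, hx⟩)
      have h2 : |(bf (τ.B v) (σ.al x) (σ.al x)).im / q.η| ≤ q.κ * σ.Kk x v + τ.μ x v := by
        rw [abs_div, abs_of_pos hη, div_le_iff₀ hη]
        linarith
      obtain ⟨f, hf⟩ := PAA.clip (mul_nonneg hq.κ0 (F.K0 x v)) (F.u0 x v) h2
      exact ⟨f, fun _ => hf⟩
    · exact ⟨0, fun h => absurd h hv⟩
  choose f hf using key
  obtain ⟨t1, t2⟩ := abs_le.1 ht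
  refine ⟨fun v b => if b then -(t * f v) else t * f v, fun v hv b => ?_, ?_, ?_⟩
  · have h2 := (hf v hv).2
    set I := (bf (τ.B v) (σ.al x) (σ.al x)).im / q.η with hI
    have h3 : |t * (I - f v)| ≤ q.κ * σ.Kk x v := by
      rw [abs_mul]
      exact (mul_le_of_le_one_left (abs_nonneg _) ht).trans h2
    obtain ⟨h4, h5⟩ := abs_le.1 h3
    cases b
    · have e : ((σ.step τ v false).al x x).im / q.η = (σ.al x x).im / q.η + I := by
        simp [Co.step, sgn, hI, add_div]
      rw [e]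
      simp only [Bool.false_eq_true, if_false]
      linarith
    · have e : ((σ.step τ v true).al x x).im / q.η = (σ.al x x).im / q.η - I := by
        simp [Co.step, sgn, hI, sub_div]
      rw [e]
      simp only [if_true]
      linarith
  · simp
  · have hP : (10 : ℝ) ^ 9 ≤ q.P := hq.P9
    have hP1 : (2 : ℝ) ≤ q.P := le_trans (by norm_num) hP
    have h1 : ∑ v ∈ σ.rem.erase x, ((if true then -(t * f v) else t * f v) ^ 2 +
        (if false then -(t * f v) else t * f v) ^ 2) ≤ ∑ v ∈ σ.rem.erase x, 2 * τ.μ x v ^ 2 := by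
      refine sum_le_sum fun v hv => ?_
      have h2 : |t * f v| ≤ τ.μ x v := by
        rw [abs_mul]
        exact (mul_le_of_le_one_left (abs_nonneg _) ht).trans (hf v hv).1
      have h3 : (t * f v) ^ 2 ≤ τ.μ x v ^ 2 := by
        rw [← sq_abs]
        exact pow_le_pow_left₀ (abs_nonneg _) h2 2
      simp only [Bool.false_eq_true, if_false, if_true, neg_sq]
      linarith
    have h4 : ∑ v ∈ σ.rem.erase x, 2 * τ.μ x v ^ 2 ≤ 2 * q.ν := by
      rw [← mul_sum]
      have := (sum_le_sum_of_subset_of_nonneg (erase_subset x σ.rem)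
        fun v _ _ => sq_nonneg (τ.μ x v)).trans (F.u1 x)
      linarith
    have h5 : 2 * (1 / q.P ^ 100) ≤ 1 / q.P ^ 20 := by
      have hp : 0 < q.P := by linarith
      rw [mul_one_div, div_le_div_iff₀ (by positivity) (by positivity)]
      have h6 : (2 : ℝ) ≤ q.P ^ 80 := hP1.trans (le_self_pow₀ (by linarith) (by norm_num))
      calc 2 * q.P ^ 20 ≤ q.P ^ 80 * q.P ^ 20 := by gcongr
        _ = 1 * q.P ^ 100 := by ring
    have h7 := hq.ν1
    exact h1.trans (h4.trans (by linarith))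

end Pool.Agent.P.MP_d0f69c_mp.XS.Pre
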