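import Pool.Agent.P.MP_d0f69c_mp.XS.PIfA

/-!
The scalar monitors of the preparatory flow.
-/

set_option autoImplicit false
set_option linter.dupNamespace false

open Finset Real
open scoped Matrix

namespace Pool.Agent.P.MP_d0f69c_mp.XS.Pre

namespace PA1A

theorem num {P c a : ℝ} (hP : 10 ^ 9 ≤ P) (ha : a ≠ 0) (c0 : 0 ≤ c) (c1 : c ≤ 3000) :
    c * P ^ 3 / a * (a / P ^ 4) ≤ 1 ∧ (c * P ^ 3 / a) ^ 2 * (a ^ 2 / P ^ 8) ≤ 1 := by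
  have P0 : 0 < P := lt_of_lt_of_le (by norm_num) hP
  have e1 : c * P ^ 3 / a * (a / P ^ 4) = c / P := by field_simp
  have e2 : (c * P ^ 3 / a) ^ 2 * (a ^ 2 / P ^ 8) = (c / P) ^ 2 := by field_simp
  have h : c / P ≤ 1 := (div_le_one P0).2 (by linarith)
  rw [e1, e2]
  exact ⟨h, pow_le_one₀ (by positivity) h⟩

variable {ι : Type} [Fintype ι] [DecidableEq ι] {q : Nq} {Y : Sy ι}

theorem P0 (s : Y.St0 q) : 0 < q.P := lt_of_lt_of_le (by norm_num) s.ok.P9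

theorem L0 (s : Y.St0 q) : 0 ≤ 3 * q.P ^ 3 := by have := P0 s; positivity

theorem bud (s : Y.St0 q) (x : ι) (S : Finset ι) : ∑ v ∈ S, Y.Kk x v ≤ 1 :=
  (sum_le_sum_of_subset_of_nonneg (subset_univ S) fun v _ _ => s.K0 x v).trans (s.K1 x)

theorem mrw {x : ι} {h : List (ι × Bool)} (hx : x ∈ Y.Rw) (a : Disjoint {x} (hs h)) :
    x ∈ (Y.co h).Rw := mem_sdiff.2 ⟨hx, disjoint_singleton_left.1 a⟩

theorem zz (hg : S_GS) (hd : S_PD) (hz : S_PZ) (s : Y.St0 q) {x : ι} (hx : x ∈ Y.Rw) :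
    HasMon Y.Z (Y.Fa q) (fun h => x ∉ hs h → (Y.co h).Zf q.m1 x ≤ 995 / 1000)
      (exp (-(3 * q.P ^ 3))) := by
  have k := num (c := 3000) (a := 1) s.ok.P9 one_ne_zero (by norm_num) le_rfl
  have e : 3 * q.P ^ 3 / (1 / 1000) = 3000 * q.P ^ 3 / 1 := by ring
  refine (hg ι Y.Z {x} (Y.Fa q) (fun h => (Y.co h).Zf q.m1 x) (fun v => Y.Kk x v / 10 ^ 4)
    (1 / 1000) (1 / q.P ^ 4) (1 / q.P ^ 8) _ (by norm_num) (L0 s) (e ▸ k.1)
    (by rw [e]; simpa only [one_pow] using k.2) fun h _ f a => ?_).mono le_rfl fun h _ a b => ?_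
  · obtain ⟨y, y1, y2⟩ := hz ι q _ _ s.ok f.fy (hd ι q _ _ s.ok f.fy) x (mrw hx a)
    rw [sdiff_singleton_eq_erase]
    refine ⟨y, fun v hv b => ?_, y2⟩
    rw [f.step (mem_of_mem_erase hv)]
    exact y1 v hv b
  · have := a (disjoint_singleton_left.2 b)
    rw [← sum_div] at this
    linarith [bud s x (hs h), s.zz x hx]

theorem dh_le (s : Y.St0 q) {x : ι} {h : List (ι × Bool)}
    (a : (Y.co h).Zf q.m1 x ≤ 995 / 1000) : (Y.co h).dh x ≤ 2000 := by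
  have m := s.ok.m0
  have h1 : 0 ≤ ∑ z ∈ (Y.co h).Op ∪ (Y.co h).X, (Y.co h).th z * ‖(Y.co h).G x z‖ ^ 2 := by
    refine sum_nonneg fun z _ => mul_nonneg ?_ (sq_nonneg _)
    have h2 : 0 ≤ (Y.co h).kr z := sum_nonneg fun v _ => s.K0 z v
    unfold Co.th Co.ir
    positivity
  have h3 : 0 ≤ (if x ∈ (Y.co h).rem ∪ (Y.co h).Sg then
      √(‖(Y.co h).Γ x x‖ ^ 2 + q.m1 ^ 2) / q.m1 else 0) := by positivity
  unfold Co.Zf at a
  linarith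

theorem pr1 (hg : S_GS) (hd : S_PD) (hp : S_PP) (s : Y.St0 q) {x z : ι} (hx : x ∈ Y.Rw)
    (hz : z ∈ Y.Rw) (c : ℂ) (hc : ‖c‖ ≤ 1) :
    HasMon Y.Z (Y.Fa q) (fun h => x ∉ hs h → z ∉ hs h → (Y.co h).dh x ≤ 2000 →
      (Y.co h).dh z ≤ 2000 → (c * ((Y.co h).Γ x z - (Y.co []).Γ x z)).re ≤
        q.m1 + 4 * q.κ * (Y.H x z + q.m1) + 2000 * q.hb) (exp (-(3 * q.P ^ 3))) := by
  have k := num (c := 3) s.ok.P9 s.ok.m0.ne' (by norm_num) (by norm_num)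
  refine (hg ι Y.Z {x, z} (Y.Fa q)
    (fun h => (c * (Y.co h).Γ x z).re - q.hb / 2 * ((Y.co h).dh x + (Y.co h).dh z))
    (fun v => 2 * q.κ * (Y.H x z + q.m1) * (Y.Kk x v + Y.Kk z v))
    q.m1 0 (q.m1 ^ 2 / q.P ^ 8) _ s.ok.m0 (L0 s) (by simp) k.2 fun h _ f a => ?_).mono le_rfl
    fun h _ a x1 z1 x2 z2 => ?_
  · rw [disjoint_insert_left] at a
    obtain ⟨y, y1, y2⟩ := hp ι q _ _ s.ok f.fy (hd ι q _ _ s.ok f.fy) x (mem_sdiff.2 ⟨hx, a.1⟩) z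
      (mrw hz a.2) c hc
    rw [sdiff_insert, sdiff_singleton_eq_erase, erase_right_comm]
    refine ⟨y, fun v hv b => ?_, y2⟩
    rw [f.step (mem_of_mem_erase (mem_of_mem_erase hv))]
    exact y1 v hv b
  · have h1 := a (disjoint_insert_left.2 ⟨x1, disjoint_singleton_left.2 z1⟩)
    have h2 : (Y.co []).dh x = 0 := rfl
    have h3 : (Y.co []).dh z = 0 := rfl
    rw [← mul_sum, sum_add_distrib, h2, h3] at h1
    have h4 : 0 ≤ 2 * q.κ * (Y.H x z + q.m1) :=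
      mul_nonneg (mul_nonneg zero_le_two s.ok.κ0) (add_nonneg (s.H0 x z) s.ok.m0.le)
    have h5 := mul_le_mul_of_nonneg_left (add_le_add (bud s x (hs h)) (bud s z (hs h))) h4
    have h6 := mul_le_mul_of_nonneg_left (add_le_add x2 z2) s.ok.h0
    rw [mul_sub, Complex.sub_re]
    linarith

theorem pr2 (hg : S_GS) (hd : S_PD) (hp : S_PP) (s : Y.St0 q) {x z : ι} (hx : x ∈ Y.Rw)
    (hz : z ∈ Y.Rw) :
    HasMon Y.Z (Y.Fa q) (fun h => x ∉ hs h → z ∉ hs h → (Y.co h).dh x ≤ 2000 →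
      (Y.co h).dh z ≤ 2000 → ‖(Y.co h).Γ x z - (Y.co []).Γ x z‖ ≤
        2 * (q.m1 + 4 * q.κ * (Y.H x z + q.m1) + 2000 * q.hb)) (4 * exp (-(3 * q.P ^ 3))) := by
  refine (((pr1 hg hd hp s hx hz 1 (by simp)).and (pr1 hg hd hp s hx hz (-1) (by simp))).and
    ((pr1 hg hd hp s hx hz Complex.I (by simp)).and
      (pr1 hg hd hp s hx hz (-Complex.I) (by simp)))).mono (le_of_eq (by ring))
    fun h _ ⟨⟨a, b⟩, c, d⟩ x1 z1 x2 z2 => ?_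
  have a1 := a x1 z1 x2 z2
  have b1 := b x1 z1 x2 z2
  have c1 := c x1 z1 x2 z2
  have d1 := d x1 z1 x2 z2
  generalize (Y.co h).Γ x z - (Y.co []).Γ x z = w at a1 b1 c1 d1 ⊢
  simp only [one_mul, neg_mul, Complex.neg_re, Complex.I_mul_re, neg_neg] at a1 b1 c1 d1
  have h1 : |w.re| ≤ _ := abs_le.2 ⟨neg_le.1 b1, a1⟩
  have h2 : |w.im| ≤ _ := abs_le.2 ⟨neg_le.1 c1, d1⟩
  linarith [Complex.norm_le_abs_re_add_abs_im w]

theorem aa1 (hg : S_GS) (ha : S_PA) (s : Y.St0 q) {x : ι} (hx : x ∈ Y.Rw) (t : ℝ) (ht : |t| ≤ 1) :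
    HasMon Y.Z (Y.Fa q) (fun h => x ∉ hs h →
      t * ((Y.al h x x).im / q.η - (Y.al [] x x).im / q.η) ≤ q.κ + 1 / q.P ^ 5)
      (exp (-(3 * q.P ^ 3))) := by
  have p := P0 s
  have k : (3 * q.P ^ 3 / (1 / q.P ^ 5)) ^ 2 * (1 / q.P ^ 20) ≤ 1 := by
    have e : (3 * q.P ^ 3 / (1 / q.P ^ 5)) ^ 2 * (1 / q.P ^ 20) = (3 / q.P) ^ 2 * (1 / q.P) ^ 2 := by
      field_simp
    have h9 := s.ok.P9
    rw [e]
    exact mul_le_one₀ (pow_le_one₀ (by positivity) ((div_le_one p).2 (by linarith)))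
      (by positivity) (pow_le_one₀ (by positivity) ((div_le_one p).2 (by linarith)))
  refine (hg ι Y.Z {x} (Y.Fa q) (fun h => t * (((Y.co h).al x x).im / q.η))
    (fun v => q.κ * Y.Kk x v) (1 / q.P ^ 5) 0 (1 / q.P ^ 20) _ (by positivity) (L0 s) (by simp) k
    fun h _ f a => ?_).mono le_rfl fun h _ a b => ?_
  · obtain ⟨y, y1, y2⟩ := ha ι q _ _ s.ok f.fy x (mrw hx a) t ht
    rw [sdiff_singleton_eq_erase]
    refine ⟨y, fun v hv b => ?_, y2⟩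
    rw [f.step (mem_of_mem_erase hv)]
    exact y1 v hv b
  · have h1 : t * ((Y.al h x x).im / q.η) ≤ t * ((Y.al [] x x).im / q.η) + 1 / q.P ^ 5 +
        ∑ v ∈ hs h, q.κ * Y.Kk x v := a (disjoint_singleton_left.2 b)
    rw [← mul_sum] at h1
    have h2 := mul_le_mul_of_nonneg_left (bud s x (hs h)) s.ok.κ0
    linarith

theorem n4 (s : Y.St0 q) {x : ι} (hx : x ∈ Y.Rw) :
    (Y.co []).N4 q.κ x + q.n / q.P ^ 12 ≤ (1001 / 1000) ^ 2 * q.n := by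
  have n0 := s.ok.n0
  have P1 : (1 : ℝ) ≤ q.P := le_trans (by norm_num) s.ok.P9
  have h8 : (1000 : ℝ) ≤ q.P ^ 12 :=
    le_trans (by linarith [s.ok.P9]) (le_self_pow₀ P1 (by norm_num))
  have h1 : q.n / q.P ^ 12 ≤ q.n / 1000 := div_le_div_of_nonneg_left n0.le (by norm_num) h8
  have h2 : (Y.co []).N4 q.κ x ≤ ∑ y ∈ Y.O, ((if y ∈ Y.Z then ‖(Y.co []).Γ x y‖ ^ 4 else 0) +
      q.κ * ‖(Y.co []).Γ x y‖ ^ 4) := by
    have e1 : (Y.co []).Op = Y.O := sdiff_empty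
    have e2 : (Y.co []).rem = Y.Z := sdiff_empty
    unfold Co.N4 Co.ir
    rw [e1, e2]
    refine sum_le_sum fun y _ => ?_
    have h3 : q.κ * (Y.co []).kr y ≤ q.κ := mul_le_of_le_one_right s.ok.κ0 (bud s y _)
    have h4 := mul_le_mul_of_nonneg_right h3 (by positivity : 0 ≤ ‖(Y.co []).Γ x y‖ ^ 4)
    split_ifs <;> linarith
  rw [sum_add_distrib, sum_ite_mem, inter_eq_right.2 s.ZO, ← mul_sum] at h2
  have h5 := mul_le_mul_of_nonneg_left (s.l3 x hx) s.ok.κ0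
  linarith [s.l2 x hx, s.ok.n4]

theorem rt (s : Y.St0 q) {x : ι} (hx : x ∈ Y.Rw) {a : ℝ} (ha : 0 ≤ a) :
    √(a * ((Y.co []).N4 q.κ x + q.n / q.P ^ 12)) ≤ 1001 / 1000 * √(a * q.n) := by
  refine (sqrt_le_sqrt (mul_le_mul_of_nonneg_left (n4 s hx) ha)).trans_eq ?_
  rw [mul_left_comm, sqrt_mul (sq_nonneg _), sqrt_sq (by norm_num)]

theorem l0 (hg : S_GS) (hd : S_PD) (hl : S_PL) (s : Y.St0 q) {x : ι} (hx : x ∈ Y.Rw)
    (S : List (ι × Bool) → Finset ι) (ns : ℝ) (h1 : q.n ≤ ns) (h2 : ns ≤ q.nJ)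
    (hS : ∀ h, Y.Fa q h → x ∈ (Y.co h).Rw → S h ⊆ (Y.co h).Op ∧
      ∑ y ∈ S h, ‖(Y.co h).Γ x y‖ ^ 4 ≤ 2 * ns ∧
      ∀ v ∈ Y.Z \ hs h, ∀ b, S ((v, b) :: h) = (S h).erase v) :
    HasMon Y.Z (Y.Fa q) (fun h => x ∉ hs h → (Y.co h).q4 q (S h) ns x ≤
      ∑ y ∈ S [], ‖(Y.co []).Γ x y‖ ^ 4 + 1001 / 1000 * √(ns * q.n) / 100 + q.n / 500 +
        q.n / 10 ^ 6) (exp (-(3 * q.P ^ 3))) := by
  have n0 := s.ok.n0
  have k := num (c := 1500) s.ok.P9 n0.ne' (by norm_num) (by norm_num)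
  have e : 3 * q.P ^ 3 / (q.n / 500) = 1500 * q.P ^ 3 / q.n := by field_simp; ring
  refine (hg ι Y.Z {x} (Y.Fa q) (fun h => (Y.co h).q4 q (S h) ns x)
    (fun v => q.n * Y.Kk x v / 10 ^ 6) (q.n / 500) (q.n / q.P ^ 4) (q.n ^ 2 / q.P ^ 8) _
    (by positivity) (L0 s) (e ▸ k.1) (e ▸ k.2) fun h _ f a => ?_).mono le_rfl fun h _ a b => ?_
  · obtain ⟨s1, s2, s3⟩ := hS h f (mrw hx a)
    obtain ⟨y, y1, y2⟩ := hl ι q _ _ s.ok f.fy (hd ι q _ _ s.ok f.fy) x (mrw hx a) _ s1 ns h1 h2 s2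
    rw [sdiff_singleton_eq_erase]
    refine ⟨y, fun v hv b => ?_, y2⟩
    rw [f.step (mem_of_mem_erase hv), s3 v (mem_of_mem_erase hv)]
    exact y1 v hv b
  · have h3 := a (disjoint_singleton_left.2 b)
    rw [← sum_div, ← mul_sum] at h3
    have h4 := mul_le_mul_of_nonneg_left (bud s x (hs h)) n0.le
    have h5 := rt s hx (n0.le.trans h1)
    have h6 : (Y.co []).q4 q (S []) ns x = ∑ y ∈ S [], ‖(Y.co []).Γ x y‖ ^ 4 +
      √(ns * ((Y.co []).N4 q.κ x + q.n / q.P ^ 12)) / 100 := rfl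
    linarith

end PA1A

open PA1A in
theorem t_pa1 (hg : S_GS) (hd : S_PD) (hz : S_PZ) (hp : S_PP) (ha : S_PA) (hl : S_PL) :
    S_PA1 := by
  intro ι _ _ q Y s
  have n0 := s.ok.n0
  have m1 := HasMon.all Y.Rw fun x hx => HasMon.all Y.Rw fun z hz => pr2 hg hd hp s hx hz
  have m2 := HasMon.all Y.Rw fun x hx => ((zz hg hd hz s hx).and
    ((aa1 hg ha s hx 1 (by simp)).and (aa1 hg ha s hx (-1) (by simp)))).and
    ((l0 hg hd hl s hx (fun _ => Y.Sg) q.n le_rfl s.ok.n1 fun h f a =>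
      ⟨f.fy.gR.trans f.fy.RO, f.g4 x a, fun v hv _ =>
        (erase_eq_of_notMem (disjoint_left.1 f.fy.rs hv)).symm⟩).and
    (l0 hg hd hl s hx (fun h => Y.O \ hs h) q.nJ s.ok.n1 le_rfl fun h f a =>
      ⟨Subset.rfl, f.fy.k4 x (f.fy.RO a), fun v _ b => sdiff_hs_cons _ (v, b) h⟩))
  refine (m1.and m2).mono (le_of_eq (by ring)) fun h _ ⟨a, b⟩ => ?_
  have z : ∀ x ∈ Y.Rw \ hs h, (Y.co h).Zf q.m1 x ≤ 995 / 1000 := fun x hx =>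
    (b x (mem_sdiff.1 hx).1).1.1 (mem_sdiff.1 hx).2
  refine ⟨fun x hx y hy => a x (mem_sdiff.1 hx).1 y (mem_sdiff.1 hy).1 (mem_sdiff.1 hx).2
    (mem_sdiff.1 hy).2 (dh_le s (z x hx)) (dh_le s (z y hy)), fun x hx => ?_, z, fun x hx => ?_,
    fun x hx => ?_⟩
  · obtain ⟨x1, x2⟩ := mem_sdiff.1 hx
    exact abs_le.2 ⟨by linarith [(b x x1).1.2.2 x2], by linarith [(b x x1).1.2.1 x2]⟩
  · obtain ⟨x1, x2⟩ := mem_sdiff.1 hx
    have h1 := (b x x1).2.1 x2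
    rw [sqrt_mul_self n0.le] at h1
    linarith [s.l1 x x1]
  · obtain ⟨x1, x2⟩ := mem_sdiff.1 hx
    have h1 := (b x x1).2.2 x2
    have h2 : q.n ≤ √(q.nJ * q.n) :=
      le_sqrt_of_sq_le (by rw [sq]; exact mul_le_mul_of_nonneg_right s.ok.n1 n0.le)
    rw [hs_nil, sdiff_empty] at h1
    linarith [s.l3 x x1]

end Pool.Agent.P.MP_d0f69c_mp.XS.Pre
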