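import Pool.Agent.P.MP_d0f69c_mp.XS.PIfA

/-!
The monitor of the block of the matrix on the closed and remaining sites.
-/

set_option autoImplicit false
set_option linter.dupNamespace false

open Finset Real
open scoped Matrix

namespace Pool.Agent.P.MP_d0f69c_mp.XS.Pre

namespace PA4A

theorem bf_sy {ι : Type} [Fintype ι] [DecidableEq ι] {B : Matrix ι ι ℂ} (h : Bᵀ = B)
    (ξ ζ : ι → ℂ) : bf B ξ ζ = bf B ζ ξ := by
  rw [bf_eq, bf_eq, sum_comm]
  refine sum_congr rfl fun x _ => sum_congr rfl fun y _ => ?_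
  have : B y x = B x y := by rw [← Matrix.transpose_apply B x y, h]
  rw [this]; ring

theorem tele {ι V : Type} [DecidableEq ι] [Fintype ι] [AddCommGroup V]
    (G : List (ι × Bool) → V) (h : List (ι × Bool)) :
    Sh (fun h v b => if v ∈ (univ : Finset ι) then G ((v, b) :: h) - G h else 0) h =
      G h - G [] := by
  induction h with
  | nil => simp [Sh]
  | cons z h ih => rw [Sh, ih, if_pos (mem_univ _)]; abel

theorem zero {ι : Type} [DecidableEq ι] [Fintype ι] (h : List (ι × Bool)) :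
    Sh (fun _ v _ => if v ∈ (univ : Finset ι) then (0 : ℝ) else 0) h = 0 := by
  induction h with
  | nil => rfl
  | cons z h ih => rw [Sh, ih, if_pos (mem_univ _), add_zero]

end PA4A

theorem t_pa4 (hg : S_GO) (hd : S_PD) (h4 : S_P4) : S_PA4 := by
  intro ι _ _ q Y s
  have ok := s.ok
  have hP : (10 : ℝ) ^ 9 ≤ q.P := ok.P9
  have hη := ok.η0
  have P0 : 0 < q.P := by linarith
  have pw : ∀ n : ℕ, n ≠ 0 → 144 ≤ q.P ^ n := fun n hn =>
    (by linarith : (144 : ℝ) ≤ q.P).trans (le_self_pow₀ (by linarith) hn)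
  refine (hg ι Y.Z univ Y.Z (Y.Fa q) (fun h v b => Y.G ((v, b) :: h) - Y.G h) (fun _ _ _ => 0)
    (q.P ^ 40 / (4 * q.η)) (1 / q.η) (q.P ^ 43 / q.η ^ 2) (3 * q.P ^ 3) (by positivity)
    (by positivity) (by positivity) (by positivity) ?_ ?_ (fun _ _ _ => le_rfl) ?_).mono le_rfl ?_
  · have e : 3 * q.P ^ 3 / (q.P ^ 40 / (4 * q.η)) * (1 / q.η) = 12 / q.P ^ 37 := by
      field_simp; ring
    rw [e, div_le_one (by positivity)]
    linarith [pw 37 (by norm_num)]
  · have e : (3 * q.P ^ 3 / (q.P ^ 40 / (4 * q.η))) ^ 2 * (q.P ^ 43 / q.η ^ 2) =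
        144 / q.P ^ 31 := by
      field_simp; ring
    rw [e, div_le_one (by positivity)]
    exact pw 31 (by norm_num)
  · intro h hZ a
    have fy := a.fy
    have key := h4 ι q (Y.co h) (Y.au h) ok fy (hd ι q (Y.co h) (Y.au h) ok fy)
    have eZ : (Y.co h).X ∪ (Y.co h).rem = Y.Z := union_sdiff_of_subset hZ
    have eR : (Y.co h).rem = Y.Z \ hs h := rfl
    have eG : (Y.co h).G = Y.G h := rfl
    rw [eZ, eR, eG] at key
    rw [inter_univ]
    refine ⟨fun v b x z => -bf ((Y.au h).T v b) (Y.G h x) (Y.G h z), fun v hv b => ⟨fun x z => ?_,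
      fun u u' => ?_⟩, fun u => ?_⟩
    · have t : ((Y.au h).T v b)ᵀ = (Y.au h).T v b := by
        rw [Au.T, Matrix.transpose_sub, Matrix.transpose_smul, fy.sB v hv, fy.sR v hv b]
      exact congrArg Neg.neg (PA4A.bf_sy t _ _)
    · have e : ∀ x z, (Y.G ((v, b) :: h) - Y.G h) x z -
          -bf ((Y.au h).T v b) (Y.G h x) (Y.G h z) = 0 := fun x z => by
        rw [Pi.sub_apply, Pi.sub_apply, a.sG v hv b]; ring
      simp only [e, mul_zero, zero_mul, sum_const_zero, norm_zero]
      positivity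
    · simpa only [mul_neg, neg_mul, sum_neg_distrib, norm_neg] using key u
  · intro h _ c b
    have k := c b 0 le_rfl fun x _ => (PA4A.zero h).le
    rw [PA4A.tele] at k
    refine ((k.add s.op).congr fun x _ y _ => ?_).mono ?_
    · simp
    · have e : 2 * (q.P ^ 40 / (4 * q.η)) + 0 + 2 / q.η = (q.P ^ 40 / 2 + 2) / q.η := by
        field_simp; ring
      rw [e]
      exact div_le_div_of_nonneg_right (by linarith [pw 40 (by norm_num)]) hη.le

end Pool.Agent.P.MP_d0f69c_mp.XS.Pre
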