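import Pool.Agent.P.MP_d0f69c_mp.XS.PIfA

/-!
The monitor of the forms in the preparatory flow.
-/

set_option autoImplicit false
set_option linter.dupNamespace false

open Finset Real
open scoped Matrix

namespace Pool.Agent.P.MP_d0f69c_mp.XS.Pre

theorem t_pa5 (hg : S_GF) (hd : S_PD) (ha : S_P5A) (hb : S_P5B) : S_PA5 := by
  intro ι _ _ q Y s Z' B
  have ok := s.ok
  have P9 := ok.P9
  have P0 : 0 < q.P := by linarith
  have e0 := ok.ε0
  have e1 := ok.ε1
  have key : ∀ t : ℝ, t = 1 ∨ t = -1 → HasMon Y.Z (Y.Fa q) (fun h => Bef (Y.Fa q) h →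
      ∀ φ : ι → ℝ, (∀ x ∉ B, φ x = 0) →
        Sh (fun h v b => if v ∈ Z' then Y.y5 q t φ h v b else 0) h ≤ 1 / q.P ^ 4 * Y.N φ φ)
      (B.card * exp (-(3 * q.P ^ 3))) := by
    intro t ht
    have t1 : |t| = 1 := by rcases ht with rfl | rfl <;> simp
    refine hg ι Y.Z Z' B (Y.Fa q) Y.N (fun h v b φ => Y.y5 q t φ h v b) (1 / q.P ^ 4) (1 / q.P ^ 8)
      (1 / q.P ^ 15) (3 * q.P ^ 3) s.sb s.pos (by positivity) (by positivity) (by positivity)
      ?_ ?_ ?_
    · rw [show 3 * q.P ^ 3 / (1 / q.P ^ 4) * (1 / q.P ^ 8) = 3 / q.P by field_simp,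
        div_le_one P0]
      linarith
    · rw [show (3 * q.P ^ 3 / (1 / q.P ^ 4)) ^ 2 * (1 / q.P ^ 15) = 9 / q.P by
        field_simp; norm_num, div_le_one P0]
      linarith
    · intro h _ f
      have fz := hd ι q _ _ ok f.fy
      obtain ⟨k1, k2⟩ := hb ι q _ _ ok f.fy fz (fun φ => Y.N φ φ) ((Y.Z \ hs h) ∩ Z') t
        (t * (10 ^ 5 * q.ε)) t1.le
        (by rw [abs_mul, t1, one_mul, abs_of_pos (by positivity)]; linarith)
        inter_subset_left f.up s.dual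
        (fun φ => (sum_le_sum_of_subset_of_nonneg (subset_univ _) fun v _ _ =>
          sum_nonneg fun u _ => mul_nonneg (s.K0 u v) (sq_nonneg _)).trans (s.sh φ)) f.sh
      refine ⟨fun v b => (Y.co h).Y5 (Y.au h) t (t * (10 ^ 5 * q.ε)) v b,
        fun v hv b => ⟨k1 v hv b, fun φ => ?_⟩, k2⟩
      have hv' := (mem_inter.1 hv).1
      have k := ha ι q _ _ ok f.fy fz t ht v hv' b φ
      rw [← f.step hv' b] at k
      exact k
  refine ((key 1 (Or.inl rfl)).and (key (-1) (Or.inr rfl))).mono (le_of_eq (by ring)) ?_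
  intro h _ c a t ht φ hφ
  rw [div_eq_inv_mul, ← one_div]
  rcases ht with rfl | rfl
  · exact c.1 a φ hφ
  · exact c.2 a φ hφ

end Pool.Agent.P.MP_d0f69c_mp.XS.Pre
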