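import Pool.Agent.P.MP_d0f69c_mp.XS.PIfA

/-!
The monitor of the retarded-retarded matrix in the preparatory flow.
-/

set_option autoImplicit false
set_option linter.dupNamespace false

open Finset Real
open scoped Matrix

namespace Pool.Agent.P.MP_d0f69c_mp.XS.Pre

namespace PA6A

variable {ι : Type} [Fintype ι] [DecidableEq ι]

omit [DecidableEq ι] in
theorem opLe_univ {I : Finset ι} {A : ι → ι → ℂ} {r : ℝ}
    (h : OpLe I A r) (hr : 0 ≤ r) (h0 : ∀ x y, x ∉ I ∨ y ∉ I → A x y = 0) : OpLe univ A r := by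
  intro u
  have e : ap univ A u = ap I A u := funext fun x =>
    (sum_subset (subset_univ I) fun y _ hy => by rw [h0 x y (Or.inr hy), zero_mul]).symm
  rw [e, nS_supp (subset_univ I) (u := ap I A u) fun x _ hx =>
    sum_eq_zero fun y _ => by rw [h0 x y (Or.inl hx), zero_mul]]
  exact (h u).trans (mul_le_mul_of_nonneg_left (nS_mono (subset_univ I) u) hr)

theorem tv_sub (Y : Sy ι) (h : List (ι × Bool)) (v : ι) : (Y.co h).Tv v ⊆ Y.Z ∪ Y.Sg :=
  (erase_subset _ _).trans (inter_subset_left.trans (union_subset_union sdiff_subset Subset.rfl))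

theorem tv_rw {q : Nq} {σ : Co ι} {τ : Au ι} (f : Fy q σ τ) (v : ι) : σ.Tv v ⊆ σ.Rw.erase v :=
  erase_subset_erase _ (inter_subset_left.trans (union_subset f.rR f.gR))

omit [Fintype ι] in
theorem y6_off {T : Finset ι} (G G' : ι → ι → ℂ) (v : ι) {x y : ι} (h : x ∉ T ∨ y ∉ T) :
    y6 T G G' v x y = 0 := if_neg fun a => h.elim (fun b => b a.1) fun b => b a.2

theorem o6_off (σ : Co ι) (τ : Au ι) (v : ι) {x y : ι} (h : x ∉ σ.Tv v ∨ y ∉ σ.Tv v) :
    σ.o6 τ v x y = 0 := if_neg fun a => h.elim (fun b => b a.1) fun b => b a.2.1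

theorem dh_cons (Y : Sy ι) (x : ι) (z : ι × Bool) (h : List (ι × Bool)) :
    Y.dh x (z :: h) = Y.dh x h +
      if x ∈ (Y.Rw \ hs h).erase z.1 then (Y.au h).Nh z.1 (Y.G h x) ^ 2 else 0 := rfl

theorem dh_le (hd : S_PD) {q : Nq} (ok : q.OK) (Y : Sy ι) (x : ι) (h : List (ι × Bool)) :
    Bef (Y.Fa q) h → (x ∈ Y.Rw \ hs h → Y.dh x h ≤ 2000) → Y.dh x h ≤ 2000 := by
  induction h with
  | nil => intro _ _; show (0 : ℝ) ≤ 2000; norm_num
  | cons z h ih =>
    intro a b
    by_cases c : x ∈ Y.Rw \ hs (z :: h)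
    · exact b c
    · rw [sdiff_hs_cons] at c
      rw [dh_cons, if_neg c, add_zero]
      exact ih a.tail fun e => (hd ι q _ _ ok a.head.2.fy).dh x e

theorem sh_le {q : Nq} {Y : Sy ι} (h0 : Y.St0 q) (Z' : Finset ι) (x : ι) (h : List (ι × Bool)) :
    Bef (Y.Fa q) h → Sh (fun h v _ => if v ∈ Z' then (if x ∈ (Y.co h).Tv v then
      30 * q.ε * ((Y.au h).Nh v (Y.G h x) ^ 2 + Y.Kk x v) else 0) else 0) h ≤
      30 * q.ε * (Y.dh x h + ∑ v ∈ hs h, Y.Kk x v) := by
  have e0 := h0.ok.ε0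
  induction h with
  | nil => intro _; show (0 : ℝ) ≤ 30 * q.ε * (0 + ∑ v ∈ (∅ : Finset ι), Y.Kk x v); simp
  | cons z h ih =>
    intro a
    have k0 := h0.K0 x z.1
    rw [dh_cons, hs_cons, sum_insert a.head.1, Sh]
    refine (add_le_add (ih a.tail) (?_ : _ ≤ 30 * q.ε * ((if x ∈ (Y.Rw \ hs h).erase z.1 then
      (Y.au h).Nh z.1 (Y.G h x) ^ 2 else 0) + Y.Kk x z.1))).trans_eq (by ring)
    have n0 : (0 : ℝ) ≤ 30 * q.ε * ((if x ∈ (Y.Rw \ hs h).erase z.1 then
        (Y.au h).Nh z.1 (Y.G h x) ^ 2 else 0) + Y.Kk x z.1) := by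
      split_ifs <;> positivity
    by_cases c : z.1 ∈ Z'
    · rw [if_pos c]
      by_cases c' : x ∈ (Y.co h).Tv z.1
      · rw [if_pos c', if_pos (show x ∈ (Y.Rw \ hs h).erase z.1 from tv_rw a.head.2.fy _ c')]
      · rw [if_neg c']; exact n0
    · rw [if_neg c]; exact n0

theorem sh_off (Y : Sy ι) (Z' : Finset ι) {x y : ι} (e : x ∉ Y.Z ∪ Y.Sg ∨ y ∉ Y.Z ∪ Y.Sg)
    (h : List (ι × Bool)) : Sh (fun h v b => if v ∈ Z' then
      y6 ((Y.co h).Tv v) (Y.G h) (Y.G ((v, b) :: h)) v else 0) h x y = 0 := by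
  induction h with
  | nil => rfl
  | cons z h ih =>
    rw [Sh, Pi.add_apply, Pi.add_apply, ih, zero_add]
    split_ifs
    · exact y6_off _ _ _ (e.imp (fun a b => a (tv_sub Y h _ b)) fun a b => a (tv_sub Y h _ b))
    · rfl

omit [Fintype ι] [DecidableEq ι] in
theorem norm_sgn (b : Bool) : ‖sgn b‖ = 1 := by cases b <;> simp [sgn]

end PA6A

open PA6A in
theorem t_pa6 (hg : S_GO) (hd : S_PD) (ha : S_P6A) (hb : S_P6B) : S_PA6 := by
  intro ι _ _ q Y h0 Z'
  have ok := h0.ok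
  have P9 := ok.P9
  have P0 : 0 < q.P := by linarith
  have e0 := ok.ε0
  have key := hg ι Y.Z Z' (Y.Z ∪ Y.Sg) (Y.Fa q)
    (fun h v b => y6 ((Y.co h).Tv v) (Y.G h) (Y.G ((v, b) :: h)) v)
    (fun h v x => if x ∈ (Y.co h).Tv v then
      30 * q.ε * ((Y.au h).Nh v (Y.G h x) ^ 2 + Y.Kk x v) else 0)
    (1 / (2 * q.P ^ 4)) 0 (2 / q.P ^ 16) (3 * q.P ^ 3) (by positivity) (by positivity) le_rfl
    (by positivity) (by simp)
    (by
      rw [show (3 * q.P ^ 3 / (1 / (2 * q.P ^ 4))) ^ 2 * (2 / q.P ^ 16) = 72 / q.P ^ 2 by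
        field_simp; ring, div_le_one (by positivity)]
      nlinarith)
    (fun h v x => by
      have := h0.K0 x v
      split_ifs <;> positivity)
    (fun h _ f => by
      have fz := hd ι q _ _ ok f.fy
      obtain ⟨sy, qv⟩ := hb ι q _ _ ok f.fy fz
      refine ⟨fun v b x z => sgn b * (Y.co h).o6 (Y.au h) v x z, fun v hv b => ⟨fun x z => ?_,
        fun u u' => ?_⟩, fun u => ⟨?_, ?_⟩⟩
      · exact congrArg _ (sy v (mem_inter.1 hv).1 x z)
      · have hv' := (mem_inter.1 hv).1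
        have k := ha ι q _ _ ok f.fy fz v hv' b u u'
        have eG : ((Y.co h).step (Y.au h) v b).G = Y.G ((v, b) :: h) :=
          (congrArg Co.G (f.step hv' b)).symm
        have es : ∀ w : ι → ℂ, ∑ x ∈ Y.Z ∪ Y.Sg, (if x ∈ (Y.co h).Tv v then
            30 * q.ε * ((Y.au h).Nh v (Y.G h x) ^ 2 + Y.Kk x v) else 0) * ‖w x‖ ^ 2 =
            ∑ x ∈ (Y.co h).Tv v,
              30 * q.ε * ((Y.au h).Nh v ((Y.co h).G x) ^ 2 + (Y.co h).Kk x v) * ‖w x‖ ^ 2 :=
          fun w => by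
            rw [← sum_subset (tv_sub Y h v) fun x _ hx => by rw [if_neg hx, zero_mul]]
            exact sum_congr rfl fun x hx => by rw [if_pos hx]; rfl
        rw [es, es]
        rw [eG] at k
        refine le_trans (le_of_eq (congrArg _ ?_)) k
        have z0 : ∀ x z, x ∉ Y.Z ∪ Y.Sg ∨ z ∉ Y.Z ∪ Y.Sg →
            u x * (y6 ((Y.co h).Tv v) (Y.G h) (Y.G ((v, b) :: h)) v x z -
              sgn b * (Y.co h).o6 (Y.au h) v x z) * u' z = 0 := fun x z e => by
          have e' := e.imp (fun a b => a (tv_sub Y h v b)) fun a b => a (tv_sub Y h v b)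
          rw [y6_off _ _ _ e', o6_off _ _ _ e']; simp
        rw [sum_subset (subset_univ _) fun x _ hx => sum_eq_zero fun z _ => z0 x z (Or.inl hx)]
        exact sum_congr rfl fun x _ => sum_subset (subset_univ _) fun z _ hz => z0 x z (Or.inr hz)
      · rw [sum_product, sum_eq_zero, norm_zero, zero_mul]
        intro v _
        rw [Fintype.sum_bool, ← sum_add_distrib]
        refine sum_eq_zero fun x _ => ?_
        rw [← sum_add_distrib]
        exact sum_eq_zero fun z _ => by simp [sgn]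
      · have k := qv fun x => if x ∈ Y.Z ∪ Y.Sg then u x else 0
        have e1 : ∑ x, (if x ∈ Y.Z ∪ Y.Sg then u x else 0) ^ 2 = ∑ x ∈ Y.Z ∪ Y.Sg, u x ^ 2 := by
          rw [← sum_subset (subset_univ (Y.Z ∪ Y.Sg)) fun x _ hx => by rw [if_neg hx]; simp]
          exact sum_congr rfl fun x hx => by rw [if_pos hx]
        have e2 : ∀ v b x, ‖∑ z ∈ Y.Z ∪ Y.Sg, sgn b * (Y.co h).o6 (Y.au h) v x z * (u z : ℂ)‖ =
            ‖∑ z, (Y.co h).o6 (Y.au h) v x z *
              ((if z ∈ Y.Z ∪ Y.Sg then u z else 0 : ℝ) : ℂ)‖ := fun v b x => by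
          rw [← sum_subset (subset_univ (Y.Z ∪ Y.Sg)) fun z _ hz => by rw [if_neg hz]; simp,
            sum_congr rfl fun z _ => mul_assoc _ _ _, ← mul_sum, norm_mul, norm_sgn, one_mul]
          exact congrArg _ (sum_congr rfl fun z hz => by rw [if_pos hz])
        rw [e1] at k
        simp only [e2, sum_product, Fintype.sum_bool, ← two_mul, ← mul_sum]
        refine le_trans (mul_le_mul_of_nonneg_left (le_trans ?_ k) zero_le_two) (le_of_eq (by ring))
        refine (sum_le_sum fun v _ => sum_le_sum_of_subset_of_nonneg (subset_univ _)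
          fun _ _ _ => sq_nonneg _).trans (sum_le_sum_of_subset_of_nonneg inter_subset_left
          fun _ _ _ => sum_nonneg fun _ _ => sq_nonneg _))
  refine key.mono le_rfl fun h _ c a b => ?_
  refine opLe_univ (I := Y.Z ∪ Y.Sg) ((c a (30 * q.ε * 2001) (by positivity) fun x _ => ?_).mono ?_)
    (by positivity) fun x y e => sh_off Y Z' e h
  · refine (sh_le h0 Z' x h a).trans (mul_le_mul_of_nonneg_left ?_ (by positivity))
    have k1 := dh_le hd ok Y x h a (b x)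
    have k2 : ∑ v ∈ hs h, Y.Kk x v ≤ 1 :=
      (sum_le_sum_of_subset_of_nonneg (subset_univ _) fun v _ _ => h0.K0 x v).trans (h0.K1 x)
    linarith
  · rw [show 2 * (1 / (2 * q.P ^ 4)) = 1 / q.P ^ 4 by field_simp]
    linarith

end Pool.Agent.P.MP_d0f69c_mp.XS.Pre
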