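import Pool.Agent.P.MP_d0f69c_mp.XS.Basic
import Pool.Agent.P.MP_d0f69c_mp.XS.Ward

/-!
Matrix identities behind the averaged scattering matrix; no probability yet.
-/

set_option autoImplicit false

open Finset Matrix

namespace Pool.Agent.P.MP_d0f69c_mp.XS.Pre

variable {ι : Type} [Fintype ι] [DecidableEq ι] {A U N : Matrix ι ι ℂ}

theorem unit_T {q : Matrix ι ι ℂ} (h : IsUnit q.det) : IsUnit qᵀ.det := by rwa [det_transpose]

theorem q_T (hA : Aᵀ = A) (hU : Uᵀ = U) : (1 - U * A)ᵀ = 1 - A * U := by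
  rw [transpose_sub, transpose_one, transpose_mul, hA, hU]

theorem al_eq (A U : Matrix ι ι ℂ) : A - A * U * A = A * (1 - U * A) := by noncomm_ring

theorem al_eq' (A U : Matrix ι ι ℂ) : A - A * U * A = (1 - A * U) * A := by noncomm_ring

omit [DecidableEq ι] in
theorem al_symm (hA : Aᵀ = A) (hU : Uᵀ = U) : (A - A * U * A)ᵀ = A - A * U * A := by
  rw [transpose_sub, transpose_mul, transpose_mul, hA, hU, Matrix.mul_assoc]

theorem unit_q' (hA : Aᵀ = A) (hU : Uᵀ = U) (hq : IsUnit (1 - U * A).det) :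
    IsUnit (1 - A * U).det := q_T hA hU ▸ unit_T hq

/-- the two forms of the potential -/
theorem W_eq (hq : IsUnit (1 - U * A).det) (hq' : IsUnit (1 - A * U).det) :
    (1 - U * A)⁻¹ * U = U * (1 - A * U)⁻¹ := by
  have e : U * (1 - A * U) = (1 - U * A) * U := by noncomm_ring
  calc (1 - U * A)⁻¹ * U = (1 - U * A)⁻¹ * (U * (1 - A * U)) * (1 - A * U)⁻¹ := by
        rw [Matrix.mul_assoc, Matrix.mul_assoc, mul_nonsing_inv _ hq', Matrix.mul_one]
    _ = _ := by rw [e, ← Matrix.mul_assoc, nonsing_inv_mul _ hq, Matrix.one_mul]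

theorem W_symm (hA : Aᵀ = A) (hU : Uᵀ = U) (hq : IsUnit (1 - U * A).det) :
    ((1 - U * A)⁻¹ * U)ᵀ = (1 - U * A)⁻¹ * U := by
  rw [transpose_mul, transpose_nonsing_inv, q_T hA hU, hU, W_eq hq (unit_q' hA hU hq)]

theorem al_W (hq : IsUnit (1 - U * A).det) : (A - A * U * A) * ((1 - U * A)⁻¹ * U) = A * U := by
  rw [al_eq, Matrix.mul_assoc, ← Matrix.mul_assoc (1 - U * A), mul_nonsing_inv _ hq, Matrix.one_mul]

theorem W_al (hq : IsUnit (1 - U * A).det) (hq' : IsUnit (1 - A * U).det) :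
    (1 - U * A)⁻¹ * U * (A - A * U * A) = U * A := by
  rw [W_eq hq hq', al_eq', Matrix.mul_assoc, ← Matrix.mul_assoc (1 - A * U)⁻¹,
    nonsing_inv_mul _ hq', Matrix.one_mul]

theorem inv_al (hq' : IsUnit (1 - A * U).det) : (1 - A * U)⁻¹ * (A - A * U * A) = A := by
  rw [al_eq', ← Matrix.mul_assoc, nonsing_inv_mul _ hq', Matrix.one_mul]

theorem al_inv (hq : IsUnit (1 - U * A).det) : (A - A * U * A) * (1 - U * A)⁻¹ = A := by
  rw [al_eq, Matrix.mul_assoc, mul_nonsing_inv _ hq, Matrix.mul_one]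

/-- the inverse of `q` through the potential -/
theorem inv_q (hq : IsUnit (1 - U * A).det) : (1 - U * A)⁻¹ = 1 + (1 - U * A)⁻¹ * U * A := by
  have := nonsing_inv_mul _ hq
  rw [Matrix.mul_sub, Matrix.mul_one, ← Matrix.mul_assoc] at this
  exact eq_add_of_sub_eq this

/-- change of the kernel `A - A U A` when `U` moves by `N` -/
theorem al_step (hq : IsUnit (1 - U * A).det) (hq' : IsUnit (1 - A * U).det) :
    A - A * (U + N) * A = A - A * U * A -
      (A - A * U * A) * ((1 - U * A)⁻¹ * N * (1 - A * U)⁻¹) * (A - A * U * A) := by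
  have e : (A - A * U * A) * ((1 - U * A)⁻¹ * N * (1 - A * U)⁻¹) * (A - A * U * A) =
      ((A - A * U * A) * (1 - U * A)⁻¹) * N * ((1 - A * U)⁻¹ * (A - A * U * A)) := by
    simp only [Matrix.mul_assoc]
  rw [e, al_inv hq, inv_al hq']; noncomm_ring

theorem q_step (hq : IsUnit (1 - U * A).det) (hq' : IsUnit (1 - A * U).det) :
    1 - (U + N) * A = (1 - U * A) *
      (1 - (1 - U * A)⁻¹ * N * (1 - A * U)⁻¹ * (A - A * U * A)) := by
  rw [Matrix.mul_assoc _ (1 - A * U)⁻¹, inv_al hq', Matrix.mul_sub (1 - U * A), Matrix.mul_one,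
    ← Matrix.mul_assoc, ← Matrix.mul_assoc, mul_nonsing_inv _ hq, Matrix.one_mul]
  noncomm_ring

/-- change of the potential when `U` moves by `N` -/
theorem W_step (hq : IsUnit (1 - U * A).det) (hq' : IsUnit (1 - A * U).det)
    (hn : IsUnit (1 - (U + N) * A).det) :
    (1 - (1 - U * A)⁻¹ * N * (1 - A * U)⁻¹ * (A - A * U * A)) *
      ((1 - (U + N) * A)⁻¹ * (U + N) - (1 - U * A)⁻¹ * U) =
      (1 - U * A)⁻¹ * N * (1 - A * U)⁻¹ := by
  set B := (1 - U * A)⁻¹ * N * (1 - A * U)⁻¹ with hB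
  have e1 : (1 - B * (A - A * U * A)) * (1 - (U + N) * A)⁻¹ = (1 - U * A)⁻¹ := by
    calc _ = (1 - U * A)⁻¹ * ((1 - U * A) * (1 - B * (A - A * U * A))) * (1 - (U + N) * A)⁻¹ := by
          rw [← Matrix.mul_assoc, nonsing_inv_mul _ hq, Matrix.one_mul]
      _ = _ := by
          rw [hB, ← q_step hq hq', Matrix.mul_assoc, mul_nonsing_inv _ hn, Matrix.mul_one]
  have e2 : B * (1 - A * U) = (1 - U * A)⁻¹ * N := by
    rw [hB, Matrix.mul_assoc, nonsing_inv_mul _ hq', Matrix.mul_one]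
  rw [Matrix.mul_sub, ← Matrix.mul_assoc, e1, Matrix.sub_mul, Matrix.one_mul,
    Matrix.mul_assoc B, al_W hq, Matrix.mul_add, ← e2]
  noncomm_ring

/-- the scattering matrix of a change `D` of the potential with `(1 - B a) D = B` -/
theorem Tm_eq {M D B a : Matrix ι ι ℂ} (hM : IsUnit M.det) (hD : IsUnit (M + D).det)
    (h : (1 - B * a) * D = B) : Tm M D = B - B * (M⁻¹ - a) * Tm M D := by
  have e1 : Tm M D + D * (M⁻¹ * Tm M D) = D := by
    rw [inv_mul_Tm hM hD, Tm]; noncomm_ring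
  have e2 := congrArg (fun X => (1 - B * a) * X) e1
  simp only [Matrix.mul_add, ← Matrix.mul_assoc, h] at e2
  rw [← sub_eq_zero, ← sub_eq_zero.2 e2]
  noncomm_ring

/-- two kernels: `A' = A + b`, with `U - U' = E[T' b T]` split into its mean part and `C` -/
theorem two_kernel {A' U' b C : Matrix ι ι ℂ} (hb : A' = A + b) (hq' : IsUnit (1 - A * U).det)
    (hp : IsUnit (1 - U' * A').det) (hq : IsUnit (1 - U * A).det)
    (h : U - U' = U' * b * U + C) :
    (1 - U' * A')⁻¹ * U' - (1 - U * A)⁻¹ * U = -((1 - U' * A')⁻¹ * C * (1 - A * U)⁻¹) := by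
  rw [W_eq hq hq']
  have e : C = (1 - U' * A') * U - U' * (1 - A * U) := by
    rw [← sub_eq_iff_eq_add'] at h
    rw [← h, hb]; noncomm_ring
  rw [e, Matrix.mul_sub, Matrix.sub_mul, ← Matrix.mul_assoc, nonsing_inv_mul _ hp, Matrix.one_mul,
    ← Matrix.mul_assoc, Matrix.mul_assoc _ (1 - A * U), mul_nonsing_inv _ hq', Matrix.mul_one]
  abel

/-- two kernels, the change of `al` -/
theorem two_kernel_al {A' U' b : Matrix ι ι ℂ} (hb : A' = A + b) (hq : IsUnit (1 - U * A).det)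
    (hp : IsUnit (1 - U' * A').det) (hq' : IsUnit (1 - A * U).det) :
    (A' - A' * U' * A') - (A - A * U * A) = (1 - A' * U') * b * (1 - U * A) -
      (A' - A' * U' * A') * ((1 - U' * A')⁻¹ * U' - (1 - U * A)⁻¹ * U) * (A - A * U * A) := by
  rw [Matrix.mul_sub (A' - A' * U' * A'), al_W hp, Matrix.sub_mul (A' * U'),
    Matrix.mul_assoc (A' - A' * U' * A'), W_al hq hq', hb]
  noncomm_ring

/-- rank one change of an inverse -/
theorem inv_rank_one {M : Matrix ι ι ℂ} {v : ι} {t : ℂ} (hM : IsUnit M.det)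
    (hD : IsUnit (M + single v v t).det) :
    (1 + t * M⁻¹ v v) • (M⁻¹ - (M + single v v t)⁻¹) =
      t • of fun x y => M⁻¹ x v * M⁻¹ v y := by
  have h1 := inv_add_eq' hM hD
  set G' := (M + single v v t)⁻¹
  have h2 : ∀ x y, G' x y = M⁻¹ x y - G' x v * t * M⁻¹ v y := fun x y => by
    conv_lhs => rw [h1]
    simp [Matrix.mul_apply, single_apply, ite_and]
  ext x y
  simp only [Matrix.smul_apply, Matrix.sub_apply, smul_eq_mul, of_apply]
  linear_combination (-1 - t * M⁻¹ v v) * h2 x y + t * M⁻¹ v y * h2 x v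

end Pool.Agent.P.MP_d0f69c_mp.XS.Pre
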