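import Pool.Agent.P.MP_d0f69c_mp.XS.PAlg0
import Pool.Agent.P.MP_d0f69c_mp.XS.Pr

/-!
The averaged scattering matrix: definitions and exact identities.
-/

set_option autoImplicit false

open Finset Matrix Function

namespace Pool.Agent.P.MP_d0f69c_mp.XS.Pre

variable {ι : Type} [Fintype ι] [DecidableEq ι]

section avg

variable {V V' : Type} [AddCommGroup V] [Module ℂ V] [AddCommGroup V'] [Module ℂ V']

/-- average over the signs on `Y`, the other signs being those of `ϖ` -/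
noncomputable def EY (Y : Finset ι) (ϖ : ι → Bool) (F : (ι → Bool) → V) : V :=
  (Fintype.card (ι → Bool) : ℂ)⁻¹ • ∑ z, F (mix Y z ϖ)

variable {Y : Finset ι} {ϖ : ι → Bool}

theorem card_ne : (Fintype.card (ι → Bool) : ℂ) ≠ 0 := by exact_mod_cast Fintype.card_ne_zero

theorem EY_map (L : V →ₗ[ℂ] V') (F : (ι → Bool) → V) : L (EY Y ϖ F) = EY Y ϖ fun w => L (F w) := by
  simp only [EY, map_smul, map_sum]

theorem EY_const (c : V) : EY Y ϖ (fun _ => c) = c := by
  rw [EY, sum_const, card_univ, ← Nat.cast_smul_eq_nsmul ℂ, smul_smul, inv_mul_cancel₀ card_ne,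
    one_smul]

theorem EY_add (F G : (ι → Bool) → V) : EY Y ϖ (fun w => F w + G w) = EY Y ϖ F + EY Y ϖ G := by
  simp only [EY, sum_add_distrib, smul_add]

theorem EY_sub (F G : (ι → Bool) → V) : EY Y ϖ (fun w => F w - G w) = EY Y ϖ F - EY Y ϖ G := by
  simp only [EY, sum_sub_distrib, smul_sub]

theorem EY_smul (c : ℂ) (F : (ι → Bool) → V) : EY Y ϖ (fun w => c • F w) = c • EY Y ϖ F := by
  simp only [EY, ← smul_sum, smul_comm c]

theorem EY_sum {κ : Type} (s : Finset κ) (F : κ → (ι → Bool) → V) :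
    EY Y ϖ (fun w => ∑ i ∈ s, F i w) = ∑ i ∈ s, EY Y ϖ (F i) := by
  simp only [EY, ← smul_sum]; rw [sum_comm]

/-- only the configurations that agree with `ϖ` off `Y` matter -/
theorem EY_congr {F G : (ι → Bool) → V} (h : ∀ w, (∀ x ∉ Y, w x = ϖ x) → F w = G w) :
    EY Y ϖ F = EY Y ϖ G := by
  simp only [EY]
  exact congrArg _ (sum_congr rfl fun z _ => h _ fun x hx => if_neg hx)

theorem EY_fix {ϖ' : ι → Bool} (h : ∀ x ∉ Y, ϖ' x = ϖ x) (F : (ι → Bool) → V) :
    EY Y ϖ' F = EY Y ϖ F := by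
  have : ∀ z, mix Y z ϖ' = mix Y z ϖ := fun z => funext fun x => by
    by_cases hx : x ∈ Y <;> simp [mix, hx, h]
  simp only [EY, this]

theorem EY_empty (F : (ι → Bool) → V) : EY ∅ ϖ F = F ϖ := by
  rw [EY_congr (G := fun _ => F ϖ) fun w h => congrArg F (funext fun x => h x (notMem_empty x)),
    EY_const]

/-- flipping a sign on `Y` does not change the average -/
theorem EY_flip {v : ι} (hv : v ∈ Y) (F : (ι → Bool) → V) :
    EY Y ϖ (fun w => F (update w v (!w v))) = EY Y ϖ F := by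
  have i : Involutive fun z : ι → Bool => update z v (!z v) := fun z => by simp
  simp only [EY]
  rw [← i.bijective.sum_comp fun z => F (mix Y z ϖ)]
  refine congrArg _ (sum_congr rfl fun z _ => congrArg F (funext fun x => ?_))
  by_cases hx : x = v
  · simp [hx, mix, hv]
  · simp [hx, mix]

/-- conditioning on the sign at `v` -/
theorem EY_erase (v : ι) (b : Bool) (F : (ι → Bool) → V) :
    EY (Y.erase v) (update ϖ v b) F = EY Y ϖ fun w => F (update w v b) := by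
  simp only [EY]
  refine congrArg _ (sum_congr rfl fun z _ => congrArg F (funext fun x => ?_))
  by_cases hx : x = v
  · simp [hx, mix]
  · simp [hx, mix]

theorem sgn_sq (b : Bool) : sgn b * sgn b = 1 := by cases b <;> simp [sgn]

theorem sgn_not (b : Bool) : sgn (!b) = -sgn b := by cases b <;> simp [sgn]

theorem EY_step {v : ι} (hv : v ∈ Y) (b : Bool) (F : (ι → Bool) → V) :
    EY (Y.erase v) (update ϖ v b) F =
      EY Y ϖ F + sgn b • EY Y ϖ fun w => sgn (w v) • F w := by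
  have e : ∀ w : ι → Bool, (2 : ℂ) • F (update w v b) =
      (F w + sgn b • sgn (w v) • F w) + (F (update w v (!w v)) +
        sgn b • sgn (update w v (!w v) v) • F (update w v (!w v))) := fun w => by
    rw [update_self, smul_smul, smul_smul]
    by_cases h : w v = b
    · rw [← h, update_eq_self, sgn_sq, sgn_not, mul_neg, sgn_sq]; module
    · have h' : b = !w v := by revert h; cases b <;> cases w v <;> simp
      rw [h', sgn_sq, sgn_not, neg_mul, sgn_sq]; module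
  have h2 : (2 : ℂ) ≠ 0 := two_ne_zero
  refine smul_right_injective V h2 ?_
  simp only
  rw [EY_erase v, ← EY_smul]
  simp only [e]
  rw [EY_add, EY_flip hv fun w => F w + sgn b • sgn (w v) • F w, EY_add, EY_smul, two_smul]

/-- a function that is odd in the sign at `v` has mean zero -/
theorem EY_half {v : ι} (hv : v ∈ Y) (F : (ι → Bool) → V) :
    EY Y ϖ F = EY Y ϖ fun w => (2 : ℂ)⁻¹ • (F w + F (update w v (!w v))) := by
  rw [EY_smul, EY_add, EY_flip hv]; module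

end avg

section mat

variable {Y : Finset ι} {ϖ : ι → Bool}

theorem EY_apply (F : (ι → Bool) → Matrix ι ι ℂ) (x y : ι) :
    EY Y ϖ F x y = EY Y ϖ fun w => F w x y := by
  simp only [EY, Matrix.smul_apply, Matrix.sum_apply]

theorem EY_app (F : (ι → Bool) → ι → ℂ) (x : ι) : EY Y ϖ F x = EY Y ϖ fun w => F w x := by
  simp only [EY, Pi.smul_apply, Finset.sum_apply]

theorem mul_EY (P : Matrix ι ι ℂ) (F : (ι → Bool) → Matrix ι ι ℂ) :
    P * EY Y ϖ F = EY Y ϖ fun w => P * F w := by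
  simp only [EY, Matrix.mul_smul, Matrix.mul_sum]

theorem EY_mul (P : Matrix ι ι ℂ) (F : (ι → Bool) → Matrix ι ι ℂ) :
    EY Y ϖ F * P = EY Y ϖ fun w => F w * P := by
  simp only [EY, Matrix.smul_mul, Matrix.sum_mul]

theorem EY_T (F : (ι → Bool) → Matrix ι ι ℂ) : (EY Y ϖ F)ᵀ = EY Y ϖ fun w => (F w)ᵀ := by
  simp only [EY, transpose_smul, transpose_sum]

/-- the average of a real function, as a complex number -/
theorem EY_real (f : (ι → Bool) → ℝ) :
    EY Y ϖ (fun w => (f w : ℂ)) = (av fun z => f (mix Y z ϖ) : ℝ) := by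
  simp only [EY, av, smul_eq_mul]; push_cast; ring

theorem norm_EY (F : (ι → Bool) → ℂ) : ‖EY Y ϖ F‖ ≤ av fun z => ‖F (mix Y z ϖ)‖ := by
  rw [EY, norm_smul, norm_inv, Complex.norm_natCast, av, div_eq_inv_mul]
  exact mul_le_mul_of_nonneg_left (norm_sum_le _ _) (by positivity)

end mat

/-- the random potential -/
noncomputable def Vs (w : ι → Bool) : Matrix ι ι ℂ := diagonal fun x => sgn (w x)

/-- the scattering matrix of one configuration -/
noncomputable def Tt (A : Matrix ι ι ℂ) (w : ι → Bool) : Matrix ι ι ℂ := (Vs w + A)⁻¹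

/-- its mean -/
noncomputable def Ss (A : Matrix ι ι ℂ) (Y : Finset ι) (ϖ : ι → Bool) : Matrix ι ι ℂ :=
  EY Y ϖ (Tt A)

/-- the effective potential -/
noncomputable def Ww (A : Matrix ι ι ℂ) (Y : Finset ι) (ϖ : ι → Bool) : Matrix ι ι ℂ :=
  (1 - Ss A Y ϖ * A)⁻¹ * Ss A Y ϖ

/-- the dressed kernel -/
noncomputable def al (A : Matrix ι ι ℂ) (Y : Finset ι) (ϖ : ι → Bool) : Matrix ι ι ℂ :=
  A - A * Ss A Y ϖ * A

/-- the jump of the mean when the sign at `v` is revealed -/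
noncomputable def Dd (A : Matrix ι ι ℂ) (Y : Finset ι) (ϖ : ι → Bool) (v : ι) : Matrix ι ι ℂ :=
  EY Y ϖ fun w => sgn (w v) • Tt A w

/-- the jump in the frame of the effective potential -/
noncomputable def Dt (A : Matrix ι ι ℂ) (Y : Finset ι) (ϖ : ι → Bool) (v : ι) : Matrix ι ι ℂ :=
  (1 - Ss A Y ϖ * A)⁻¹ * Dd A Y ϖ v * (1 - A * Ss A Y ϖ)⁻¹

/-- the channel vector of `v` in the configuration `w` -/
noncomputable def psi (A : Matrix ι ι ℂ) (Y : Finset ι) (ϖ : ι → Bool) (v : ι) (w : ι → Bool)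
    (x : ι) : ℂ := ((1 - Ss A Y ϖ * A)⁻¹ * Tt A w) x v

/-- symmetry and invertibility -/
structure KOK (A : Matrix ι ι ℂ) : Prop where
  symm : Aᵀ = A
  unit : ∀ w, IsUnit (Vs w + A).det
  q : ∀ Y ϖ, IsUnit (1 - Ss A Y ϖ * A).det

theorem Vs_mul (w : ι → Bool) : Vs w * Vs w = 1 := by
  simp only [Vs, diagonal_mul_diagonal, sgn_sq, diagonal_one]

omit [Fintype ι] in
theorem Vs_T (w : ι → Bool) : (Vs w)ᵀ = Vs w := diagonal_transpose _

omit [Fintype ι] in
theorem Vs_flip (w : ι → Bool) (v : ι) :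
    Vs (update w v (!w v)) = Vs w + single v v (-2 * sgn (w v)) := by
  ext x y
  by_cases h : x = y
  · subst h
    by_cases hx : x = v
    · subst hx; simp [Vs, sgn_not]; ring
    · simp [Vs, hx, Ne.symm hx]
  · have : ¬ (v = x ∧ v = y) := fun e => h (e.1.symm.trans e.2)
    simp [Vs, h, this]

namespace KOK

variable {A : Matrix ι ι ℂ} (h : KOK A) (Y : Finset ι) (ϖ : ι → Bool)
include h

theorem Tt_T (w : ι → Bool) : (Tt A w)ᵀ = Tt A w := by
  rw [Tt, transpose_nonsing_inv, transpose_add, Vs_T, h.symm]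

theorem Tt_symm (w : ι → Bool) (x y : ι) : Tt A w x y = Tt A w y x :=
  congrFun (congrFun (h.Tt_T w) y) x

theorem Ss_T : (Ss A Y ϖ)ᵀ = Ss A Y ϖ := by simp only [Ss, EY_T, h.Tt_T]

theorem q' : IsUnit (1 - A * Ss A Y ϖ).det := unit_q' h.symm (h.Ss_T Y ϖ) (h.q Y ϖ)

theorem Ww_T : (Ww A Y ϖ)ᵀ = Ww A Y ϖ := W_symm h.symm (h.Ss_T Y ϖ) (h.q Y ϖ)

theorem al_T : (al A Y ϖ)ᵀ = al A Y ϖ := al_symm h.symm (h.Ss_T Y ϖ)

theorem Dd_T (v : ι) : (Dd A Y ϖ v)ᵀ = Dd A Y ϖ v := by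
  simp only [Dd, EY_T, transpose_smul, h.Tt_T]

theorem Dt_T (v : ι) : (Dt A Y ϖ v)ᵀ = Dt A Y ϖ v := by
  have e := q_T h.symm (h.Ss_T Y ϖ)
  rw [Dt, transpose_mul, transpose_mul, transpose_nonsing_inv, transpose_nonsing_inv, h.Dd_T, e,
    ← e, transpose_transpose, Matrix.mul_assoc]

theorem Tt_V (w : ι → Bool) : Tt A w * Vs w = 1 - Tt A w * A := by
  rw [← nonsing_inv_mul _ (h.unit w), Tt, Matrix.mul_add]; abel

theorem V_Tt (w : ι → Bool) : Vs w * Tt A w = 1 - A * Tt A w := by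
  rw [← mul_nonsing_inv _ (h.unit w), Tt, Matrix.add_mul]; abel

theorem Tt_eq (w : ι → Bool) : Tt A w = Vs w - Vs w * (A - A * Tt A w * A) * Vs w := by
  have e1 : Tt A w = Vs w * (1 - A * Tt A w) := by
    rw [← h.V_Tt, ← Matrix.mul_assoc, Vs_mul, Matrix.one_mul]
  have e2 : A * Tt A w = (A - A * Tt A w * A) * Vs w := by
    rw [al_eq, ← h.Tt_V, Matrix.mul_assoc, Matrix.mul_assoc, Vs_mul, Matrix.mul_one]
  rw [Matrix.mul_assoc, ← e2]
  exact e1.trans (by rw [Matrix.mul_sub, Matrix.mul_one])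

theorem Tt_col (w : ι → Bool) (x v : ι) : sgn (w v) * Tt A w x v = (1 - Tt A w * A) x v := by
  rw [← h.Tt_V, Vs, mul_diagonal, mul_comm]

/-- columns of revealed sites -/
theorem Ww_col {v : ι} (hv : v ∉ Y) (x : ι) : Ww A Y ϖ x v = if x = v then sgn (ϖ v) else 0 := by
  have e : ∀ y, Ss A Y ϖ y v = (1 - Ss A Y ϖ * A) y v * sgn (ϖ v) := fun y => by
    have : (1 - Ss A Y ϖ * A) y v = sgn (ϖ v) * Ss A Y ϖ y v := by
      rw [Ss, EY_mul, ← EY_const (Y := Y) (ϖ := ϖ) (1 : Matrix ι ι ℂ), ← EY_sub, EY_apply, EY_apply,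
        ← smul_eq_mul, ← EY_smul]
      exact EY_congr fun w hw => by rw [← h.Tt_col, hw v hv, smul_eq_mul]
    rw [this, mul_right_comm, sgn_sq, one_mul]
  have e1 := congrFun (congrFun (nonsing_inv_mul _ (h.q Y ϖ)) x) v
  rw [Ww, Matrix.mul_apply]
  simp only [e, ← mul_assoc, ← sum_mul]
  rw [← Matrix.mul_apply, e1, one_apply, ite_mul, one_mul, zero_mul]

theorem Ww_row {v : ι} (hv : v ∉ Y) (x : ι) : Ww A Y ϖ v x = if x = v then sgn (ϖ v) else 0 := by
  rw [← h.Ww_col Y ϖ hv, ← h.Ww_T Y ϖ, transpose_apply, h.Ww_T]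

/-- the channel vectors of unrevealed sites live on the unrevealed sites -/
theorem psi_off {v x : ι} {w : ι → Bool} (hw : ∀ y ∉ Y, w y = ϖ y) (hv : v ∈ Y) (hx : x ∉ Y) :
    psi A Y ϖ v w x = 0 := by
  have hxv : x ≠ v := fun e => hx (e ▸ hv)
  rw [psi, inv_q (h.q Y ϖ), Matrix.add_mul, Matrix.one_mul, Matrix.mul_assoc _ A,
    show A * Tt A w = 1 - Vs w * Tt A w by rw [h.V_Tt]; abel, Matrix.add_apply, Matrix.mul_apply]
  have e : ∀ y, ((1 - Ss A Y ϖ * A)⁻¹ * Ss A Y ϖ) x y = if y = x then sgn (ϖ x) else 0 :=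
    h.Ww_row Y ϖ hx
  simp only [e, ite_mul, zero_mul, sum_ite_eq', mem_univ, if_true, Matrix.sub_apply, Vs,
    diagonal_mul, one_apply_ne hxv, hw x hx]
  linear_combination -Tt A w x v * sgn_sq (ϖ x)

theorem Dd_col (v x : ι) : Dd A Y ϖ v x v = (1 - Ss A Y ϖ * A) x v := by
  rw [Dd, Ss, EY_mul, ← EY_const (Y := Y) (ϖ := ϖ) (1 : Matrix ι ι ℂ), ← EY_sub, EY_apply, EY_apply]
  exact EY_congr fun w _ => by rw [← h.Tt_col, Matrix.smul_apply, smul_eq_mul]

/-- `B S e_v = e_v` -/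
theorem Dt_q (v x : ι) : (Dt A Y ϖ v * (1 - A * Ss A Y ϖ)) x v = if x = v then 1 else 0 := by
  rw [Dt, Matrix.mul_assoc, nonsing_inv_mul _ (h.q' Y ϖ), Matrix.mul_one, Matrix.mul_apply]
  simp only [h.Dd_col]
  rw [← Matrix.mul_apply, nonsing_inv_mul _ (h.q Y ϖ), one_apply]

theorem Dd_A {v : ι} (hv : v ∈ Y) (x : ι) : (Dd A Y ϖ v * A) x v = -Ss A Y ϖ x v := by
  have e0 : EY Y ϖ (fun w => sgn (w v)) = 0 := by
    rw [EY_half hv]
    simp [sgn_not, EY_const]
  have e : ∀ w : ι → Bool, (sgn (w v) • Tt A w * A) x v =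
      (1 : Matrix ι ι ℂ) x v • sgn (w v) - Tt A w x v := fun w => by
    have := h.Tt_col w x v
    rw [Matrix.sub_apply] at this
    rw [Matrix.smul_mul, Matrix.smul_apply, smul_eq_mul, smul_eq_mul]
    linear_combination sgn (w v) * this - Tt A w x v * sgn_sq (w v)
  rw [Dd, EY_mul, EY_apply, Ss, EY_apply]
  simp only [e]
  rw [EY_sub, EY_smul, e0, smul_zero, zero_sub]

/-- `B al e_v = - z_v` -/
theorem Dt_al {v : ι} (hv : v ∈ Y) (x : ι) : (Dt A Y ϖ v * al A Y ϖ) x v = -Ww A Y ϖ x v := by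
  rw [Dt, al, Matrix.mul_assoc, inv_al (h.q' Y ϖ), Matrix.mul_assoc, Ww, Matrix.mul_apply,
    Matrix.mul_apply]
  simp only [h.Dd_A Y ϖ hv, mul_neg, sum_neg_distrib]

omit h in
theorem Ss_step {v : ι} (hv : v ∈ Y) (b : Bool) :
    Ss A (Y.erase v) (update ϖ v b) = Ss A Y ϖ + sgn b • Dd A Y ϖ v := EY_step hv b _

theorem al_step {v : ι} (hv : v ∈ Y) (b : Bool) : al A (Y.erase v) (update ϖ v b) =
    al A Y ϖ - sgn b • (al A Y ϖ * Dt A Y ϖ v * al A Y ϖ) := by
  rw [al, Ss_step Y ϖ hv, Pre.al_step (h.q Y ϖ) (h.q' Y ϖ)]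
  simp only [al, Dt, Matrix.mul_smul, Matrix.smul_mul]

theorem Ww_step {v : ι} (hv : v ∈ Y) (b : Bool) :
    (1 - sgn b • Dt A Y ϖ v * al A Y ϖ) * (Ww A (Y.erase v) (update ϖ v b) - Ww A Y ϖ) =
      sgn b • Dt A Y ϖ v := by
  have hn := h.q (Y.erase v) (update ϖ v b)
  rw [Ss_step Y ϖ hv] at hn
  have := W_step (h.q Y ϖ) (h.q' Y ϖ) hn
  simp only [Matrix.mul_smul, Matrix.smul_mul] at this
  simpa only [Ww, Ss_step Y ϖ hv, al, Dt, Matrix.smul_mul] using this

omit h in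
theorem al_avg : al A Y ϖ = EY Y ϖ fun w => A - A * Tt A w * A := by
  rw [EY_sub, EY_const, ← EY_mul, ← mul_EY]; rfl

end KOK

end Pool.Agent.P.MP_d0f69c_mp.XS.Pre
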