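import Pool.Agent.P.MP_d0f69c_mp.XS.PAlg1

/-!
Rank one structure of the jumps and the closing step.
-/

set_option autoImplicit false

open Finset Matrix Function

namespace Pool.Agent.P.MP_d0f69c_mp.XS.Pre

variable {ι : Type} [Fintype ι] [DecidableEq ι]

/-- the scalar factor of a flip -/
noncomputable def cc (A : Matrix ι ι ℂ) (v : ι) (w : ι → Bool) : ℂ :=
  (2 * sgn (w v) * Tt A w v v - 1)⁻¹

/-- amplitude of `ξ` in the channel of `v` -/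
noncomputable def Fv (A : Matrix ι ι ℂ) (Y : Finset ι) (ϖ : ι → Bool) (v : ι) (ξ : ι → ℂ)
    (w : ι → Bool) : ℂ := ∑ x, ξ x * psi A Y ϖ v w x

/-- the bilinear form of a matrix -/
noncomputable def bf (B : Matrix ι ι ℂ) (ξ ζ : ι → ℂ) : ℂ := ξ ⬝ᵥ (B *ᵥ ζ)

omit [DecidableEq ι] in
theorem bf_eq (B : Matrix ι ι ℂ) (ξ ζ : ι → ℂ) : bf B ξ ζ = ∑ x, ∑ y, ξ x * B x y * ζ y := by
  simp only [bf, dotProduct, mulVec, mul_sum, mul_assoc]

omit [DecidableEq ι] in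
theorem bf_mul (P B Q : Matrix ι ι ℂ) (x y : ι) : (P * B * Q) x y = bf B (P x) fun u => Q u y := by
  simp only [bf_eq, Matrix.mul_apply, sum_mul]; rw [sum_comm]

namespace KOK

variable {A : Matrix ι ι ℂ} (h : KOK A) (Y : Finset ι) (ϖ : ι → Bool)
include h

theorem flip0 (w : ι → Bool) (v x y : ι) : (2 * sgn (w v) * Tt A w v v - 1) *
    (Tt A w x y - Tt A (update w v (!w v)) x y) = 2 * sgn (w v) * (Tt A w x v * Tt A w v y) := by
  have e : Vs (update w v (!w v)) + A = Vs w + A + single v v (-2 * sgn (w v)) := by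
    rw [Vs_flip]; abel
  have := congrFun (congrFun (inv_rank_one (h.unit w) (e ▸ h.unit _)) x) y
  simp only [Matrix.smul_apply, Matrix.sub_apply, smul_eq_mul, of_apply, ← e] at this
  simp only [Tt]
  linear_combination -this

theorem cc_ne (w : ι → Bool) (v : ι) : 2 * sgn (w v) * Tt A w v v - 1 ≠ 0 := fun e => by
  have h1 := h.flip0 w v v v
  rw [e, zero_mul] at h1
  have h2 : (2 * sgn (w v) * Tt A w v v) ^ 2 = 0 := by
    linear_combination (-2 * sgn (w v)) * h1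
  rw [pow_eq_zero_iff two_ne_zero] at h2
  rw [h2] at e
  simp at e

/-- flipping one sign is a change of rank one -/
theorem flip (w : ι → Bool) (v x y : ι) : Tt A w x y - Tt A (update w v (!w v)) x y =
    2 * sgn (w v) * cc A v w * (Tt A w x v * Tt A w v y) := by
  have := h.cc_ne w v
  rw [cc]
  field_simp
  linear_combination h.flip0 w v x y

theorem Dd_eq {v : ι} (hv : v ∈ Y) (x y : ι) :
    Dd A Y ϖ v x y = EY Y ϖ fun w => cc A v w * (Tt A w x v * Tt A w v y) := by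
  rw [Dd, EY_apply, EY_half hv]
  refine EY_congr fun w _ => ?_
  simp only [Matrix.smul_apply, smul_eq_mul, update_self, sgn_not]
  linear_combination (sgn (w v) / 2) * h.flip w v x y +
    cc A v w * (Tt A w x v * Tt A w v y) * sgn_sq (w v)

theorem Dt_eq {v : ι} (hv : v ∈ Y) (x y : ι) :
    Dt A Y ϖ v x y = EY Y ϖ fun w => cc A v w * (psi A Y ϖ v w x * psi A Y ϖ v w y) := by
  have e : ∀ a b, (1 - A * Ss A Y ϖ)⁻¹ a b = (1 - Ss A Y ϖ * A)⁻¹ b a := fun a b => by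
    rw [← q_T h.symm (h.Ss_T Y ϖ), ← transpose_nonsing_inv, transpose_apply]
  rw [Dt, bf_mul, bf_eq]
  simp only [h.Dd_eq Y ϖ hv, e, psi, Matrix.mul_apply, sum_mul_sum]
  simp only [mul_sum, EY_sum]
  refine sum_congr rfl fun a _ => sum_congr rfl fun b _ => ?_
  rw [mul_right_comm, ← smul_eq_mul, ← EY_smul]
  refine EY_congr fun w _ => ?_
  rw [smul_eq_mul, h.Tt_symm w v b]; ring

theorem bf_Dt {v : ι} (hv : v ∈ Y) (ξ ζ : ι → ℂ) : bf (Dt A Y ϖ v) ξ ζ =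
    EY Y ϖ fun w => cc A v w * (Fv A Y ϖ v ξ w * Fv A Y ϖ v ζ w) := by
  simp only [bf_eq, h.Dt_eq Y ϖ hv, Fv, sum_mul_sum]
  simp only [mul_sum, EY_sum]
  refine sum_congr rfl fun a _ => sum_congr rfl fun b _ => ?_
  rw [mul_right_comm, ← smul_eq_mul, ← EY_smul]
  exact EY_congr fun w _ => by rw [smul_eq_mul]; ring

theorem Dt_off {v x : ι} (hv : v ∈ Y) (hx : x ∉ Y) (y : ι) :
    Dt A Y ϖ v x y = 0 ∧ Dt A Y ϖ v y x = 0 := by
  have e : Dt A Y ϖ v x y = 0 := by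
    rw [h.Dt_eq Y ϖ hv, EY_congr (G := fun _ => 0) fun w hw => by
      rw [h.psi_off Y ϖ hw hv hx, zero_mul, mul_zero], EY_const]
  exact ⟨e, by rw [← h.Dt_T, transpose_apply, e]⟩

theorem psi_flip (v u : ι) (w : ι → Bool) (x : ι) :
    psi A Y ϖ v w x - psi A Y ϖ v (update w u (!w u)) x =
      2 * sgn (w u) * cc A u w * (psi A Y ϖ u w x * Tt A w u v) := by
  simp only [psi, Matrix.mul_apply, ← sum_sub_distrib, ← mul_sub, h.flip, sum_mul, mul_sum]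
  exact sum_congr rfl fun a _ => by ring

theorem Fv_flip (v u : ι) (ξ : ι → ℂ) (w : ι → Bool) :
    Fv A Y ϖ v ξ w - Fv A Y ϖ v ξ (update w u (!w u)) =
      2 * sgn (w u) * cc A u w * (Fv A Y ϖ u ξ w * Tt A w u v) := by
  simp only [Fv, ← sum_sub_distrib, ← mul_sub, h.psi_flip, sum_mul, mul_sum]
  exact sum_congr rfl fun a _ => by ring

omit h in
theorem Fv_mean (v : ι) (ξ : ι → ℂ) : EY Y ϖ (Fv A Y ϖ v ξ) = ∑ x, ξ x * Ww A Y ϖ x v := by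
  unfold Fv
  rw [EY_sum]
  refine sum_congr rfl fun x _ => ?_
  rw [Ww, Ss, mul_EY, EY_apply, ← smul_eq_mul, ← EY_smul]
  rfl

theorem Fv_odd (v : ι) (ξ : ι → ℂ) : EY Y ϖ (fun w => sgn (w v) * Fv A Y ϖ v ξ w) = ξ v := by
  have e : ∀ x, EY Y ϖ (fun w => sgn (w v) * psi A Y ϖ v w x) = if x = v then 1 else 0 := fun x => by
    have : ((1 - Ss A Y ϖ * A)⁻¹ * Dd A Y ϖ v) x v = if x = v then 1 else 0 := by
      rw [Matrix.mul_apply]
      simp only [h.Dd_col]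
      rw [← Matrix.mul_apply, nonsing_inv_mul _ (h.q Y ϖ), one_apply]
    rw [← this, Dd, mul_EY, EY_apply]
    simp only [Matrix.mul_smul, Matrix.smul_apply, smul_eq_mul, psi]
  simp only [Fv, mul_sum, EY_sum, mul_left_comm (sgn _)]
  simp only [← smul_eq_mul (ξ _), EY_smul, e]
  simp

/-- the mean of the amplitude given the sign at `v` -/
theorem Fv_cond {v : ι} (hv : v ∈ Y) (b : Bool) (ξ : ι → ℂ) :
    EY (Y.erase v) (update ϖ v b) (Fv A Y ϖ v ξ) = ∑ x, ξ x * Ww A Y ϖ x v + sgn b * ξ v := by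
  rw [EY_step hv, Fv_mean]
  simp only [smul_eq_mul, h.Fv_odd]

/-- `cc T_vv F` has mean `ξ v` -/
theorem Fv_cc {v : ι} (hv : v ∈ Y) (ξ : ι → ℂ) :
    EY Y ϖ (fun w => cc A v w * Tt A w v v * Fv A Y ϖ v ξ w) = ξ v := by
  rw [← h.Fv_odd Y ϖ v ξ, EY_half hv fun w => sgn (w v) * Fv A Y ϖ v ξ w]
  refine EY_congr fun w _ => ?_
  simp only [smul_eq_mul, update_self, sgn_not]
  linear_combination (-sgn (w v) / 2) * h.Fv_flip Y ϖ v v ξ w -
    cc A v w * Tt A w v v * Fv A Y ϖ v ξ w * sgn_sq (w v)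

/-- the amplitude of a column of the dressed kernel -/
theorem Fv_al (v x : ι) (w : ι → Bool) : Fv A Y ϖ v (al A Y ϖ x) w = (A * Tt A w) x v := by
  have e : al A Y ϖ * ((1 - Ss A Y ϖ * A)⁻¹ * Tt A w) = A * Tt A w := by
    rw [← Matrix.mul_assoc, al, al_inv (h.q Y ϖ)]
  rw [← e, Matrix.mul_apply]
  rfl

theorem A_Tt (w : ι → Bool) (x v : ι) :
    (A * Tt A w) x v = (A - A * Tt A w * A) x v * sgn (w v) := by
  have e2 : A * Tt A w = (A - A * Tt A w * A) * Vs w := by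
    rw [al_eq, ← h.Tt_V, Matrix.mul_assoc, Matrix.mul_assoc, Vs_mul, Matrix.mul_one]
  conv_lhs => rw [e2]
  rw [Vs, mul_diagonal]

theorem Tt_app (w : ι → Bool) (x v : ι) : Tt A w x v = (if x = v then sgn (w x) else 0) -
    sgn (w x) * (A - A * Tt A w * A) x v * sgn (w v) := by
  conv_lhs => rw [h.Tt_eq]
  rw [Matrix.sub_apply, Vs, mul_diagonal, diagonal_mul, diagonal_apply]

theorem Ww_diff_off {v : ι} (hv : v ∈ Y) (b : Bool) {x : ι} (hx : x ∉ Y) (y : ι) :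
    (Ww A (Y.erase v) (update ϖ v b) - Ww A Y ϖ) x y = 0 := by
  have : x ≠ v := fun e => hx (e ▸ hv)
  rw [Matrix.sub_apply, h.Ww_row _ _ fun e => hx (mem_of_mem_erase e), h.Ww_row _ _ hx,
    update_of_ne this, sub_self]

/-- the closing step, for any `X` such that the two operators are invertible -/
theorem step {v : ι} (hv : v ∈ Y) (b : Bool) {X : Matrix ι ι ℂ} (hX : Xᵀ = X)
    (h1 : IsUnit (X + Ww A Y ϖ).det) (h2 : IsUnit (X + Ww A (Y.erase v) (update ϖ v b)).det) :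
    ∃ T : Matrix ι ι ℂ, Tᵀ = T ∧ (X + Ww A (Y.erase v) (update ϖ v b))⁻¹ =
      (X + Ww A Y ϖ)⁻¹ - (X + Ww A Y ϖ)⁻¹ * T * (X + Ww A Y ϖ)⁻¹ ∧
      T = sgn b • Dt A Y ϖ v - sgn b • Dt A Y ϖ v * ((X + Ww A Y ϖ)⁻¹ - al A Y ϖ) * T := by
  have e : X + Ww A (Y.erase v) (update ϖ v b) =
      X + Ww A Y ϖ + (Ww A (Y.erase v) (update ϖ v b) - Ww A Y ϖ) := by abel
  rw [e] at h2 ⊢
  exact ⟨_, Tm_symm (by rw [transpose_add, hX, h.Ww_T]) (by rw [transpose_sub, h.Ww_T, h.Ww_T]),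
    inv_add_Tm h1 h2, Tm_eq h1 h2 (h.Ww_step Y ϖ hv b)⟩

end KOK

/-- the seminorm with weights `D` -/
noncomputable def no (D : ι → ℝ) (ξ : ι → ℂ) : ℝ := √(∑ u, D u * ‖ξ u‖ ^ 2)

/-- `B` is majorised by the weights `D` -/
def Maj (B : Matrix ι ι ℂ) (D : ι → ℝ) (c : ℝ) : Prop := ∀ ξ ζ, ‖bf B ξ ζ‖ ≤ c * no D ξ * no D ζ

section no

omit [DecidableEq ι]

variable {D : ι → ℝ}

theorem no_nonneg (D : ι → ℝ) (ξ : ι → ℂ) : 0 ≤ no D ξ := Real.sqrt_nonneg _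

theorem no_sq (hD : ∀ u, 0 ≤ D u) (ξ : ι → ℂ) : no D ξ ^ 2 = ∑ u, D u * ‖ξ u‖ ^ 2 :=
  Real.sq_sqrt (sum_nonneg fun u _ => mul_nonneg (hD u) (sq_nonneg _))

theorem no_eq (hD : ∀ u, 0 ≤ D u) (ξ : ι → ℂ) : no D ξ = nS univ fun u => (√(D u) : ℝ) * ξ u := by
  simp only [no, nS, norm_mul, mul_pow, Complex.norm_real, Real.norm_eq_abs, sq_abs,
    Real.sq_sqrt (hD _)]

theorem no_add (hD : ∀ u, 0 ≤ D u) (ξ ζ : ι → ℂ) : no D (ξ + ζ) ≤ no D ξ + no D ζ := by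
  simp only [no_eq hD, Pi.add_apply, mul_add]
  exact nS_add univ _ _

theorem no_sub (hD : ∀ u, 0 ≤ D u) (ξ ζ : ι → ℂ) : no D (ξ - ζ) ≤ no D ξ + no D ζ := by
  simp only [no_eq hD, Pi.sub_apply, mul_sub]
  exact nS_sub univ _ _

theorem no_le {ξ : ι → ℂ} {c : ℝ} (hc : 0 ≤ c) (h : ∑ u, D u * ‖ξ u‖ ^ 2 ≤ c ^ 2) : no D ξ ≤ c :=
  Real.sqrt_le_iff.2 ⟨hc, h⟩

theorem no_mono {D' : ι → ℝ} (h : ∀ u, D u ≤ D' u) (ξ : ι → ℂ) : no D ξ ≤ no D' ξ :=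
  Real.sqrt_le_sqrt (sum_le_sum fun u _ => mul_le_mul_of_nonneg_right (h u) (sq_nonneg _))

theorem Maj.mono {B : Matrix ι ι ℂ} {c c' : ℝ} (h : Maj B D c) (hc : c ≤ c') : Maj B D c' :=
  fun ξ ζ => (h ξ ζ).trans (by have := no_nonneg D ξ; have := no_nonneg D ζ; gcongr)

theorem Maj.smul {B : Matrix ι ι ℂ} {c : ℝ} (h : Maj B D c) {s : ℂ} (hs : ‖s‖ ≤ 1) :
    Maj (s • B) D c := fun ξ ζ => by
  rw [bf, smul_mulVec, dotProduct_smul, norm_smul]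
  exact (mul_le_of_le_one_left (norm_nonneg _) hs).trans (h ξ ζ)

/-- rows of `Γ` against a majorised matrix -/
theorem Maj.rows {B Γ : Matrix ι ι ℂ} {c g : ℝ} (h : Maj B D c) (hD : ∀ u, 0 ≤ D u) (hc : 0 ≤ c)
    (hg : 0 ≤ g) (hΓ : ∑ u, D u * no D (Γ u) ^ 2 ≤ g ^ 2) (ζ : ι → ℂ) :
    no D (Γ *ᵥ (B *ᵥ ζ)) ≤ c * g * no D ζ := by
  have := no_nonneg D ζ
  refine no_le (by positivity) ?_
  calc _ ≤ ∑ u, D u * (c * no D (Γ u) * no D ζ) ^ 2 := sum_le_sum fun u _ =>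
        mul_le_mul_of_nonneg_left (pow_le_pow_left₀ (norm_nonneg _) (h (Γ u) ζ) 2) (hD u)
    _ = (c * no D ζ) ^ 2 * ∑ u, D u * no D (Γ u) ^ 2 := by
        rw [mul_sum]; exact sum_congr rfl fun u _ => by ring
    _ ≤ (c * no D ζ) ^ 2 * g ^ 2 := by gcongr
    _ = _ := by ring

/-- the bootstrap for `T = B - B Γ T` -/
theorem Maj.boot {B Γ T : Matrix ι ι ℂ} {c g : ℝ} (h : Maj B D c) (hD : ∀ u, 0 ≤ D u) (hc : 0 ≤ c)
    (hg : 0 ≤ g) (hΓ : ∑ u, D u * no D (Γ u) ^ 2 ≤ g ^ 2) (hs : c * g ≤ 1 / 2)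
    (hT : T = B - B * Γ * T) :
    Maj (T - B) D (2 * c ^ 2 * g) ∧ Maj (T - B + B * Γ * B) D (2 * c ^ 3 * g ^ 2) := by
  have h1 : Maj (T - B) D (2 * c ^ 2 * g) := fun ξ ζ => by
    have e1 : T *ᵥ ζ = B *ᵥ (ζ - Γ *ᵥ (T *ᵥ ζ)) := by
      conv_lhs => rw [hT]
      rw [sub_mulVec, mulVec_sub, mulVec_mulVec, mulVec_mulVec]
    have e2 := h.rows hD hc hg hΓ (ζ - Γ *ᵥ (T *ᵥ ζ))
    rw [← e1] at e2
    have e3 := no_sub hD ζ (Γ *ᵥ (T *ᵥ ζ))
    have e4 := h ξ (Γ *ᵥ (T *ᵥ ζ))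
    have e5 : bf (T - B) ξ ζ = -bf B ξ (Γ *ᵥ (T *ᵥ ζ)) := by
      have : T - B = -(B * Γ * T) := by rw [sub_eq_iff_eq_add']; exact hT.trans (sub_eq_add_neg _ _)
      rw [bf, bf, this, neg_mulVec, dotProduct_neg, mulVec_mulVec, mulVec_mulVec]
    rw [e5, norm_neg]
    have a0 := no_nonneg D ξ
    have a1 := no_nonneg D ζ
    have a2 := no_nonneg D (Γ *ᵥ (T *ᵥ ζ))
    have a3 : no D (Γ *ᵥ (T *ᵥ ζ)) ≤ 2 * (c * g) * no D ζ := by
      have := mul_le_mul_of_nonneg_left e3 (mul_nonneg hc hg)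
      nlinarith [mul_le_mul_of_nonneg_right hs a2]
    exact e4.trans ((mul_le_mul_of_nonneg_left a3 (mul_nonneg hc a0)).trans_eq (by ring))
  refine ⟨h1, fun ξ ζ => ?_⟩
  have e : T - B + B * Γ * B = -(B * Γ * (T - B)) := by
    rw [Matrix.mul_sub, neg_sub]
    conv_lhs => rw [hT]
    abel
  rw [bf, e, neg_mulVec, dotProduct_neg, norm_neg, ← mulVec_mulVec, ← mulVec_mulVec]
  refine (h ξ _).trans ((mul_le_mul_of_nonneg_left (h1.rows hD (by positivity) hg hΓ ζ)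
    (mul_nonneg hc (no_nonneg D ξ))).trans_eq (by ring))

end no

end Pool.Agent.P.MP_d0f69c_mp.XS.Pre
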