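import Pool.Agent.P.MP_d0f69c_mp.XS.PMark

/-!
Selection of survivors with a decreasing level of crowding, on an abstract finite set.
-/

set_option autoImplicit false

open Finset Real

namespace Pool.Agent.P.MP_d0f69c_mp.XS.Pre

variable {ι : Type} [DecidableEq ι]

/-- the good set `Gd` has crowding level `l` for the neighbourhoods `N`, with floor `L` -/
structure Lev (N : ι → Finset ι) (L l : ℝ) (Gd Om : Finset ι) : Prop where
  all : ∀ y, (#(Gd ∩ N y) : ℝ) ≤ max l L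
  gd : ∀ y ∈ Gd, (#((Gd ∩ N y).erase y) : ℝ) ≤ l
  om : 4 * l < L → ∀ o ∈ Om, Disjoint Gd (N o)

namespace Lev

variable {N : ι → Finset ι} {L l l' : ℝ} {Gd Gd' Om Om' : Finset ι}

theorem mono (h : Lev N L l Gd Om) (h1 : Gd' ⊆ Gd) (h2 : Om' ⊆ Om) (h3 : l ≤ l') :
    Lev N L l' Gd' Om' :=
  ⟨fun y => (Nat.cast_le.2 (card_le_card (inter_subset_inter_right h1))).trans
    ((h.all y).trans (max_le_max_right _ h3)), fun y hy => (Nat.cast_le.2 (card_le_card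
      (erase_subset_erase y (inter_subset_inter_right h1)))).trans ((h.gd y (h1 hy)).trans h3),
    fun a o ho => (h.om (by linarith) o (h2 ho)).mono_left h1⟩

theorem init (h : ∀ y, (#(N y) : ℝ) ≤ l) (hL : L ≤ 4 * l) : Lev N L l Gd Om :=
  ⟨fun y => (Nat.cast_le.2 (card_le_card inter_subset_right)).trans ((h y).trans (le_max_left _ _)),
    fun y _ => (Nat.cast_le.2 (card_le_card ((erase_subset _ _).trans inter_subset_right))).trans
      (h y), fun a => absurd hL (not_le.2 a)⟩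

/-- below level one the good points are isolated -/
theorem iso (h : Lev N L l Gd Om) (hl : l < 1) {x y : ι} (hx : x ∈ Gd) (hy : y ∈ Gd)
    (hn : x ∈ N y) : x = y := by
  by_contra e
  have a := card_pos.2 ⟨x, mem_erase.2 ⟨e, mem_inter.2 ⟨hx, hn⟩⟩⟩
  have b : (1 : ℝ) ≤ #((Gd ∩ N y).erase y) := by exact_mod_cast a
  linarith [h.gd y hy]

end Lev

/-- the data of a selection: good sites, open rows, leads, balls, two systems of neighbourhoods
with their levels, the mass `k0 + ∑ c` to be kept and the sum `∑ u` to be thinned -/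
structure SD (ι : Type) where
  Gd : Finset ι
  O : Finset ι
  Om : Finset ι
  B : ι → Finset ι
  N1 : ι → Finset ι
  N2 : ι → Finset ι
  L : ℝ
  l1 : ℝ
  l2 : ℝ
  k0 : ι → ℝ
  c : ι → ι → ℝ
  u : ι → ι → ℝ
  m : ℝ
  n : ℝ

namespace SD

variable (D : SD ι)

/-- not too many marked neighbours -/
def few (N : ι → Finset ι) (l : ℝ) (y : ι) (w : ι → Fin 64) : Prop :=
  l < D.L → (#{z ∈ (D.Gd ∩ N y).erase y | w z = 0} : ℝ) ≤ l / 4

def pass (y : ι) (w : ι → Fin 64) : Prop := D.few D.N1 D.l1 y w ∧ D.few D.N2 D.l2 y w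

open Classical in
/-- good sites that are not blocked by a lead -/
noncomputable def cand : Finset ι :=
  D.Gd.filter fun y => ∀ o ∈ D.Om, (D.l1 < D.L → y ∉ D.N1 o) ∧ (D.l2 < D.L → y ∉ D.N2 o)

/-- too many marked points -/
def many (N : ι → Finset ι) (l : ℝ) (x : ι) (w : ι → Fin 64) : Prop :=
  D.L ≤ l ∧ l / 4 < (#{z ∈ D.Gd ∩ N x | w z = 0} : ℝ)

open Classical in
/-- failure at `x` -/
def Fail (x : ι) (w : ι → Fin 64) : Prop :=
  (D.many D.N1 D.l1 x w ∨ D.many D.N2 D.l2 x w) ∨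
    (x ∈ D.O ∧ D.n / 40 < ∑ y ∈ (D.Gd ∩ D.B x).erase x with w y = 0, D.u x y) ∨
    x ∈ D.O ∧ D.k0 x + ∑ z ∈ (D.cand ∩ D.B x).erase x with (w z = 0 ∧ D.pass z w), D.c x z <
      D.m / 85

variable [Fintype ι]

open Classical in
/-- the frozen region -/
noncomputable def frz (w : ι → Fin 64) : Finset ι := univ.filter fun y => ∃ x, D.Fail x w ∧ y ∈ D.B x

open Classical in
/-- the survivors -/
noncomputable def sig (w : ι → Fin 64) : Finset ι :=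
  (D.cand.filter fun y => w y = 0 ∧ D.pass y w) \ D.frz w

omit [Fintype ι] in
/-- the hypotheses; `v` bounds the squares of `c`, `v'` the squares of `u` -/
structure OK (v v' : ℝ) : Prop where
  self : ∀ x, x ∈ D.B x
  s1 : ∀ x y, x ∈ D.N1 y → y ∈ D.N1 x
  s2 : ∀ x y, x ∈ D.N2 y → y ∈ D.N2 x
  b1 : ∀ x, D.N1 x ⊆ D.B x
  b2 : ∀ x, D.N2 x ⊆ D.B x
  one : ∀ x, ∀ o ∈ D.Om, ∀ o' ∈ D.Om, ∀ y ∈ D.B x, ∀ y' ∈ D.B x, y ∈ D.B o → y' ∈ D.B o' → o = o'
  L1 : 1 ≤ D.L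
  lev1 : Lev D.N1 D.L D.l1 D.Gd D.Om
  lev2 : Lev D.N2 D.L D.l2 D.Gd D.Om
  v0 : 0 < v
  v0' : 0 < v'
  m0 : 0 ≤ D.m
  n0 : 0 ≤ D.n
  k0 : ∀ x ∈ D.O, 0 ≤ D.k0 x
  c0 : ∀ x y, 0 ≤ D.c x y
  u0 : ∀ x y, 0 ≤ D.u x y
  mass : ∀ x ∈ D.O, D.m ≤ D.k0 x + ∑ z ∈ (D.Gd ∩ D.B x).erase x, D.c x z
  c2 : ∀ x ∈ D.O, ∑ z ∈ (D.Gd ∩ D.B x).erase x, D.c x z ^ 2 ≤ v
  cL : 800 * D.L * v ≤ D.m ^ 2
  u1 : ∀ x ∈ D.O, ∑ y ∈ (D.Gd ∩ D.B x).erase x, D.u x y ≤ D.n
  u2 : ∀ x ∈ D.O, ∑ y ∈ (D.Gd ∩ D.B x).erase x, D.u x y ^ 2 ≤ v'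

variable {D} {v v' : ℝ} {w w' : ι → Fin 64} {x y : ι}

theorem mem_frz : y ∈ D.frz w ↔ ∃ x, D.Fail x w ∧ y ∈ D.B x := by
  simp only [frz, mem_filter, mem_univ, true_and]

omit [Fintype ι] in
theorem mem_cand : y ∈ D.cand ↔
    y ∈ D.Gd ∧ ∀ o ∈ D.Om, (D.l1 < D.L → y ∉ D.N1 o) ∧ (D.l2 < D.L → y ∉ D.N2 o) := by
  simp only [cand, mem_filter]

theorem mem_sig : y ∈ D.sig w ↔ (y ∈ D.cand ∧ w y = 0 ∧ D.pass y w) ∧ y ∉ D.frz w := by
  simp only [sig, mem_sdiff, mem_filter]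

theorem sig_sub : D.sig w ⊆ D.Gd \ D.frz w := fun _ hy =>
  mem_sdiff.2 ⟨(mem_cand.1 (mem_sig.1 hy).1.1).1, (mem_sig.1 hy).2⟩

theorem lev_step {N : ι → Finset ι} {l : ℝ} (h : Lev N D.L l D.Gd D.Om) (hL : 0 ≤ D.L)
    (hb : ∀ x, N x ⊆ D.B x) (h1 : ∀ x, D.many N l x w → D.Fail x w)
    (h2 : ∀ y ∈ D.sig w, D.few N l y w) (h3 : ∀ y ∈ D.cand, ∀ o ∈ D.Om, l < D.L → y ∉ N o) :
    Lev N D.L (l / 4) (D.sig w) D.Om := by
  have s : ∀ {y}, y ∈ D.sig w → y ∈ D.Gd ∧ w y = 0 := fun hy =>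
    ⟨(mem_sdiff.1 (sig_sub hy)).1, (mem_sig.1 hy).1.2.1⟩
  have big : D.L ≤ l → ∀ x, (#(D.sig w ∩ N x) : ℝ) ≤ l / 4 := fun a x => by
    rcases (D.sig w ∩ N x).eq_empty_or_nonempty with e | ⟨y, hy⟩
    · rw [e, card_empty, Nat.cast_zero]; linarith
    · exact le_trans (Nat.cast_le.2 (card_le_card fun z hz => mem_filter.2
        ⟨mem_inter.2 ⟨(s (mem_inter.1 hz).1).1, (mem_inter.1 hz).2⟩, (s (mem_inter.1 hz).1).2⟩))
        (not_lt.1 fun b => (mem_sig.1 (mem_inter.1 hy).1).2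
          (mem_frz.2 ⟨x, h1 x ⟨a, b⟩, hb x (mem_inter.1 hy).2⟩))
  refine ⟨fun x => ?_, fun y hy => ?_, fun a o ho => disjoint_left.2 fun y hy =>
    h3 y (mem_sig.1 hy).1.1 o ho (by linarith)⟩
  · rcases lt_or_ge l D.L with a | a
    · exact ((h.mono (fun _ b => (s b).1) subset_rfl a.le).all x).trans
        (by rw [max_self]; exact le_max_right _ _)
    · exact (big a x).trans (le_max_left _ _)
  · rcases lt_or_ge l D.L with a | a
    · refine le_trans (Nat.cast_le.2 (card_le_card fun z hz => ?_)) (h2 y hy a)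
      obtain ⟨z1, z2⟩ := mem_erase.1 hz
      exact mem_filter.2 ⟨mem_erase.2 ⟨z1, mem_inter.2 ⟨(s (mem_inter.1 z2).1).1,
        (mem_inter.1 z2).2⟩⟩, (s (mem_inter.1 z2).1).2⟩
    · exact (Nat.cast_le.2 (card_le_card (erase_subset _ _))).trans (big a y)

/-- the first level drops -/
theorem OK.out1 (h : D.OK v v') (w : ι → Fin 64) : Lev D.N1 D.L (D.l1 / 4) (D.sig w) D.Om :=
  lev_step h.lev1 (zero_le_one.trans h.L1) h.b1 (fun _ a => .inl (.inl a))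
    (fun _ a => (mem_sig.1 a).1.2.2.1) fun _ a o ho => ((mem_cand.1 a).2 o ho).1

/-- the second level drops -/
theorem OK.out2 (h : D.OK v v') (w : ι → Fin 64) : Lev D.N2 D.L (D.l2 / 4) (D.sig w) D.Om :=
  lev_step h.lev2 (zero_le_one.trans h.L1) h.b2 (fun _ a => .inl (.inr a))
    (fun _ a => (mem_sig.1 a).1.2.2.2) fun _ a o ho => ((mem_cand.1 a).2 o ho).2

/-- the sum of `u` is thinned -/
theorem OK.thin (h : D.OK v v') (w : ι → Fin 64) (hx : x ∈ D.O) :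
    ∑ y ∈ (D.sig w ∩ D.B x).erase x, D.u x y ≤ D.n / 40 := by
  classical
  by_cases a : D.Fail x w
  · rw [sum_eq_zero fun y hy => absurd (mem_frz.2 ⟨x, a, (mem_inter.1 (mem_of_mem_erase hy)).2⟩)
      (mem_sig.1 (mem_inter.1 (mem_of_mem_erase hy)).1).2]
    linarith [h.n0]
  · refine le_trans (sum_le_sum_of_subset_of_nonneg (fun y hy => ?_) fun y _ _ => h.u0 x y)
      (not_lt.1 fun b => a (.inr (.inl ⟨hx, b⟩)))
    obtain ⟨z1, z2⟩ := mem_erase.1 hy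
    exact mem_filter.2 ⟨mem_erase.2 ⟨z1, mem_inter.2 ⟨(mem_sdiff.1 (sig_sub (mem_inter.1 z2).1)).1,
      (mem_inter.1 z2).2⟩⟩, (mem_sig.1 (mem_inter.1 z2).1).1.2.1⟩

/-- mass is kept on the survivors and the frozen sites -/
theorem OK.keep (h : D.OK v v') (w : ι → Fin 64) (hx : x ∈ D.O) :
    D.m / 85 ≤ D.k0 x + ∑ z ∈ ((D.sig w ∪ D.Gd ∩ D.frz w) ∩ D.B x).erase x, D.c x z := by
  classical
  by_cases f : D.Fail x w
  · refine le_trans (by linarith [h.m0]) ((h.mass x hx).trans (add_le_add le_rfl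
      (sum_le_sum_of_subset_of_nonneg (erase_subset_erase _ fun y hy => ?_) fun y _ _ => h.c0 x y)))
    obtain ⟨y1, y2⟩ := mem_inter.1 hy
    exact mem_inter.2 ⟨mem_union_right _ (mem_inter.2 ⟨y1, mem_frz.2 ⟨x, f, y2⟩⟩), y2⟩
  refine le_trans (not_lt.1 fun b => f (.inr (.inr ⟨hx, b⟩)))
    (add_le_add le_rfl (sum_le_sum_of_subset_of_nonneg (fun y hy => ?_) fun y _ _ => h.c0 x y))
  obtain ⟨y1, y2⟩ := mem_filter.1 hy
  obtain ⟨y3, y4⟩ := mem_erase.1 y1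
  obtain ⟨y5, y6⟩ := mem_inter.1 y4
  refine mem_erase.2 ⟨y3, mem_inter.2 ⟨mem_union.2 ?_, y6⟩⟩
  by_cases a : y ∈ D.frz w
  exacts [.inr (mem_inter.2 ⟨(mem_cand.1 y5).1, a⟩), .inl (mem_sig.2 ⟨⟨y5, y2⟩, a⟩)]

omit [Fintype ι] [DecidableEq ι] in
theorem cnt_congr {s : Finset ι} (e : ∀ z ∈ s, w z = w' z) :
    #{z ∈ s | w z = 0} = #{z ∈ s | w' z = 0} := by
  rw [filter_congr fun z hz => by rw [e z hz]]

omit [Fintype ι] in
theorem few_loc {N : ι → Finset ι} {l : ℝ}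
    (e : l < D.L → ∀ z ∈ (D.Gd ∩ N y).erase y, w z = w' z) (a : D.few N l y w) : D.few N l y w' :=
  fun b => cnt_congr (e b) ▸ a b

omit [Fintype ι] in
/-- a failure depends on the marks nearby only -/
theorem OK.loc (h : D.OK v v') (e : ∀ y ∈ D.B x, ∀ z ∈ D.B y, w z = w' z) (a : D.Fail x w) :
    D.Fail x w' := by
  have e1 := e x (h.self x)
  have p : ∀ {w w' : ι → Fin 64} {y}, (∀ z ∈ D.B y, w z = w' z) → D.pass y w → D.pass y w' :=
    fun e a => ⟨few_loc (fun _ z hz => e z (h.b1 _ (mem_inter.1 (mem_of_mem_erase hz)).2)) a.1,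
      few_loc (fun _ z hz => e z (h.b2 _ (mem_inter.1 (mem_of_mem_erase hz)).2)) a.2⟩
  refine a.imp (Or.imp (fun b => ⟨b.1, ?_⟩) fun b => ⟨b.1, ?_⟩)
    (Or.imp (fun b => ⟨b.1, ?_⟩) fun b => ⟨b.1, ?_⟩)
  · exact cnt_congr (fun z hz => e1 z (h.b1 x (mem_inter.1 hz).2)) ▸ b.2
  · exact cnt_congr (fun z hz => e1 z (h.b2 x (mem_inter.1 hz).2)) ▸ b.2
  · have := b.2
    rwa [filter_congr fun y hy => by rw [e1 y (mem_inter.1 (mem_of_mem_erase hy)).2]] at this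
  · refine lt_of_eq_of_lt ?_ b.2
    congr 2
    ext y
    simp only [mem_filter]
    refine and_congr_right fun hy => ?_
    have c := (mem_inter.1 (mem_of_mem_erase hy)).2
    rw [e1 y c]
    exact and_congr_right' ⟨p fun z hz => (e y c z hz).symm, p (e y c)⟩

theorem pr_many {N : ι → Finset ι} {l : ℝ} (h : Lev N D.L l D.Gd D.Om) (hL : 1 ≤ D.L) (x : ι) :
    pr (D.many N l x) ≤ exp (-D.L / 40) := by
  by_cases a : D.L ≤ l
  · refine (pr_mono fun w hw => ?_).trans ((mark_cnt (K := 64) (D.Gd ∩ N x) (l := l)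
      (t := 15 / 64 * l) (by linarith) (by linarith) ((h.all x).trans_eq (max_eq_left a))).trans
        (exp_le_exp.2 ?_))
    · have := hw.2
      push_cast
      linarith
    · rw [div_le_iff₀ (by linarith)]
      nlinarith
  · rw [pr_false fun w hw => a hw.1]
    positivity

theorem pr_few {N : ι → Finset ι} {l : ℝ} (h : Lev N D.L l D.Gd D.Om) (hy : y ∈ D.Gd) :
    pr (fun w => ¬ D.few N l y w) ≤ 1 / 16 :=
  (pr_mono fun _ hw => not_le.1 fun a => hw fun _ => a).trans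
    ((mark_quarter (K := 64) _ (h.gd y hy)).trans (by norm_num))

omit [Fintype ι] in
theorem OK.blocked (h : D.OK v v') (x : ι) :
    (#((D.Gd ∩ D.B x).erase x \ (D.cand ∩ D.B x).erase x) : ℝ) ≤ 2 * D.L := by
  have L0 := zero_le_one.trans h.L1
  have k : ∀ y ∈ (D.Gd ∩ D.B x).erase x \ (D.cand ∩ D.B x).erase x, y ∈ D.B x ∧ ∃ o ∈ D.Om,
      (D.l1 < D.L ∧ y ∈ D.Gd ∩ D.N1 o) ∨ (D.l2 < D.L ∧ y ∈ D.Gd ∩ D.N2 o) := fun y hy => by
    obtain ⟨y1, y2⟩ := mem_sdiff.1 hy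
    obtain ⟨y3, y4⟩ := mem_erase.1 y1
    obtain ⟨y5, y6⟩ := mem_inter.1 y4
    refine ⟨y6, by_contra fun a => y2 (mem_erase.2 ⟨y3, mem_inter.2 ⟨mem_cand.2
      ⟨y5, fun o ho => ⟨fun b c => a ⟨o, ho, .inl ⟨b, mem_inter.2 ⟨y5, c⟩⟩⟩,
        fun b c => a ⟨o, ho, .inr ⟨b, mem_inter.2 ⟨y5, c⟩⟩⟩⟩⟩, y6⟩⟩)⟩
  have b : ∀ {y o}, (D.l1 < D.L ∧ y ∈ D.Gd ∩ D.N1 o) ∨ (D.l2 < D.L ∧ y ∈ D.Gd ∩ D.N2 o) →
      y ∈ D.B o := fun a =>
    a.elim (fun a => h.b1 _ (mem_inter.1 a.2).2) fun a => h.b2 _ (mem_inter.1 a.2).2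
  rcases ((D.Gd ∩ D.B x).erase x \ (D.cand ∩ D.B x).erase x).eq_empty_or_nonempty with e | ⟨y, hy⟩
  · rw [e, card_empty, Nat.cast_zero]; linarith
  obtain ⟨y1, o, ho, y2⟩ := k y hy
  have c : ∀ {N : ι → Finset ι} {l : ℝ}, Lev N D.L l D.Gd D.Om →
      (#(if l < D.L then D.Gd ∩ N o else ∅) : ℝ) ≤ D.L := fun {N l} a => by
    split_ifs with e
    exacts [(a.all o).trans_eq (max_eq_right e.le), by simpa using L0]
  refine le_trans (Nat.cast_le.2 ((card_le_card fun z hz => ?_).trans (card_union_le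
    (if D.l1 < D.L then D.Gd ∩ D.N1 o else ∅) (if D.l2 < D.L then D.Gd ∩ D.N2 o else ∅)))) ?_
  · obtain ⟨z1, o', ho', z2⟩ := k z hz
    obtain rfl := h.one x o ho o' ho' y y1 z z1 (b y2) (b z2)
    exact mem_union.2 (z2.imp (fun a => by rw [if_pos a.1]; exact a.2)
      fun a => by rw [if_pos a.1]; exact a.2)
  · push_cast
    linarith [c h.lev1, c h.lev2]

/-- failures are rare -/
theorem OK.rare (h : D.OK v v') (x : ι) : pr (D.Fail x) ≤ 2 * exp (-D.L / 40) +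
    exp (-(D.n / 128) ^ 2 / (2 * v')) + exp (-(D.m / 1000) ^ 2 / (2 * ((2 * D.L + 1) ^ 2 * v))) := by
  classical
  have L0 := zero_le_one.trans h.L1
  refine (pr_or _ _).trans ?_
  rw [add_assoc, two_mul]
  refine add_le_add ((pr_or _ _).trans (add_le_add (pr_many h.lev1 h.L1 x) (pr_many h.lev2 h.L1 x)))
    ((pr_or _ _).trans (add_le_add ?_ ?_))
  · by_cases a : x ∈ D.O
    · refine (pr_mono fun w hw => ?_).trans (mark_up (K := 64) _ (t := D.n / 128)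
        (by linarith [h.n0]) h.v0' (fun y _ => h.u0 x y) (h.u1 x a) (h.u2 x a))
      have := hw.2
      push_cast
      linarith [h.n0]
    · rw [pr_false fun w hw => a hw.1]
      positivity
  by_cases a : x ∈ D.O
  swap
  · rw [pr_false fun w hw => a hw.1]
    positivity
  have s : (D.cand ∩ D.B x).erase x ⊆ (D.Gd ∩ D.B x).erase x :=
    erase_subset_erase _ (inter_subset_inter_right fun _ b => (mem_cand.1 b).1)
  have g : ∀ y ∈ (D.cand ∩ D.B x).erase x, y ∈ D.Gd := fun y hy =>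
    (mem_inter.1 (mem_of_mem_erase (s hy))).1
  have c : ∀ {N : ι → Finset ι} {l : ℝ}, Lev N D.L l D.Gd D.Om → ∀ y ∈ D.Gd,
      (#(if l < D.L then (D.Gd ∩ N y).erase y else ∅) : ℝ) ≤ D.L := fun {N l} a y hy => by
    split_ifs with e
    exacts [(a.gd y hy).trans e.le, by simpa using L0]
  set nb : ι → Finset ι := fun y => (if D.l1 < D.L then (D.Gd ∩ D.N1 y).erase y else ∅) ∪
    if D.l2 < D.L then (D.Gd ∩ D.N2 y).erase y else ∅ with hn
  have mb : ∀ y z, z ∈ nb y ↔ (D.l1 < D.L ∧ z ∈ (D.Gd ∩ D.N1 y).erase y) ∨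
      (D.l2 < D.L ∧ z ∈ (D.Gd ∩ D.N2 y).erase y) := fun y z => by
    simp only [hn, mem_union, mem_ite, notMem_empty, imp_false, not_not]
    tauto
  have cb : ∀ y ∈ D.Gd, (#(nb y) : ℝ) ≤ 2 * D.L := fun y hy => by
    refine (Nat.cast_le.2 (card_union_le _ _)).trans ?_
    push_cast
    linarith [c h.lev1 y hy, c h.lev2 y hy]
  refine (pr_mono fun w hw => ?_).trans (mark_low (K := 64) ((D.cand ∩ D.B x).erase x) nb D.pass
    (c := D.c x) (ε := 1 / 8) (t := D.m / 1000) (by linarith [h.m0]) h.v0 (by linarith)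
    (fun y _ => h.c0 x y) ((sum_le_sum_of_subset_of_nonneg s fun _ _ _ => sq_nonneg _).trans
      (h.c2 x a)) (fun y _ b => ((mb y y).1 b).elim (fun b => notMem_erase _ _ b.2)
        fun b => notMem_erase _ _ b.2) (fun y hy => cb y (g y hy)) (fun z => ?_)
    (fun y _ w w' e b => ⟨few_loc (fun l z hz => e z ((mb y z).2 (.inl ⟨l, hz⟩))) b.1,
      few_loc (fun l z hz => e z ((mb y z).2 (.inr ⟨l, hz⟩))) b.2⟩) fun y hy => ?_)
  · have a1 := h.mass x a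
    rw [← sum_sdiff s] at a1
    have a2 : (∑ z ∈ (D.Gd ∩ D.B x).erase x \ (D.cand ∩ D.B x).erase x, D.c x z) ^ 2 ≤
        (D.m / 20) ^ 2 := by
      refine sq_sum_le_card_mul_sum_sq.trans ((mul_le_mul (h.blocked x)
        ((sum_le_sum_of_subset_of_nonneg sdiff_subset fun _ _ _ => sq_nonneg _).trans (h.c2 x a))
        (sum_nonneg fun _ _ => sq_nonneg _) (by linarith)).trans ?_)
      linarith [h.cL]
    have a3 := (abs_le_of_sq_le_sq' a2 (by linarith [h.m0])).2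
    have a4 := hw.2
    push_cast
    linarith [h.k0 x a, h.m0]
  · by_cases b : z ∈ D.Gd
    · refine le_trans (Nat.cast_le.2 (card_le_card fun y hy => ?_)) (cb z b)
      obtain ⟨y1, y2⟩ := mem_filter.1 hy
      exact (mb z y).2 (((mb y z).1 y2).imp
        (fun e => ⟨e.1, mem_erase.2 ⟨(mem_erase.1 e.2).1.symm, mem_inter.2 ⟨g y y1,
          h.s1 _ _ (mem_inter.1 (mem_erase.1 e.2).2).2⟩⟩⟩)
        fun e => ⟨e.1, mem_erase.2 ⟨(mem_erase.1 e.2).1.symm, mem_inter.2 ⟨g y y1,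
          h.s2 _ _ (mem_inter.1 (mem_erase.1 e.2).2).2⟩⟩⟩)
    · rw [filter_eq_empty_iff.2 fun y _ e => b (((mb y z).1 e).elim
        (fun e => (mem_inter.1 (mem_erase.1 e.2).2).1) fun e => (mem_inter.1 (mem_erase.1 e.2).2).1),
        card_empty, Nat.cast_zero]
      linarith
  · refine (pr_mono fun w hw => not_and_or.1 hw).trans ((pr_or _ _).trans ?_)
    linarith [pr_few h.lev1 (g y hy), pr_few h.lev2 (g y hy)]

/-- failures at separated places are independent -/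
theorem OK.joint (h : D.OK v v') {p : ℝ} (hp : ∀ x, pr (D.Fail x) ≤ p) {R : ι → Finset ι}
    (hR : ∀ x, ∀ y ∈ D.B x, D.B y ⊆ R x) {I : Finset ι}
    (hI : ∀ x ∈ I, ∀ y ∈ I, x ≠ y → Disjoint (R x) (R y)) :
    pr (fun w => ∀ x ∈ I, D.Fail x w) ≤ p ^ I.card := by
  rw [t_indep _ _ _ I R D.Fail hI fun x _ w w' e => h.loc fun y hy z hz => e z (hR x y hy hz),
    ← prod_const]
  exact prod_le_prod (fun x _ => pr_nonneg _) fun x _ => hp x

end SD

end Pool.Agent.P.MP_d0f69c_mp.XS.Pre
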