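import Pool.Agent.P.MP_d0f69c_mp.XS.PS1
import Pool.Agent.P.MP_d0f69c_mp.XS.PLev
import Pool.Agent.P.MP_d0f69c_mp.XS.If0

/-!
Definitions for the preparation stage at unit coupling: states, invariants, the closing flow.

A state is an `St`; the field `W` is the diagonal correction of the kernel, `sp` is the set of the
closed sites with positive sign, `sig` the set of the survivors of the round.
-/

set_option autoImplicit false

open Finset Real
open scoped Matrix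

namespace Pool.Agent.P.MP_d0f69c_mp.XS.Pre

section generic

variable {ι : Type} [Fintype ι] [DecidableEq ι]

/-- the Green function with open set `Y` and signs `w` off `Y` -/
noncomputable def GP (X : Matrix ι ι ℝ) (A : Matrix ι ι ℂ) (Y : Finset ι) (w : ι → Bool) :
    Matrix ι ι ℂ := (cr X + Ww A Y w)⁻¹

/-- its part on the energy shell -/
noncomputable def Gm (X : Matrix ι ι ℝ) (A : Matrix ι ι ℂ) (Y : Finset ι) (w : ι → Bool) :
    Matrix ι ι ℂ := GP X A Y w - al A Y w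

/-- strength of the lead -/
noncomputable def aP (η : ℝ) (A : Matrix ι ι ℂ) (Y : Finset ι) (w : ι → Bool) (x : ι) : ℝ :=
  (al A Y w x x).im / η

/-- conductances for the weights `a` -/
noncomputable def Kw (a : ι → ℝ) (G : Matrix ι ι ℂ) (x y : ι) : ℝ := a x * a y * ‖G x y‖ ^ 2

/-- the retarded-retarded matrix with unit diagonal -/
noncomputable def Am0 (G : Matrix ι ι ℂ) (x y : ι) : ℂ := if x = y then 1 else -G x y ^ 2

/-- the signs of a state -/
def om (S : St ι) (x : ι) : Bool := decide (x ∈ S.sp)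

/-- the sites that are closed in the round, `J` being the frozen region -/
def Zg (S : St ι) (J : Finset ι) : Finset ι := (S.good \ S.sig) \ J

/-- the state after the closing phase -/
def pclose (S : St ι) (J : Finset ι) (ω : ι → Bool) : St ι :=
  { S with
    good := S.sig \ J
    junk := S.junk ∪ S.good ∩ J
    sp := S.sp \ Zg S J ∪ (Zg S J).filter fun x => ω x = true }

/-- closed sites carry their true signs -/
def PCons {N : ℕ} (S : St ι) (ϖ : Cfg ι N) : Prop := ∀ x ∉ S.O, om S x = (ϖ x).1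

/-- the real sign attached to a coin -/
def sr (τ : Bool) : ℝ := if τ then 1 else -1

end generic

variable {d M : ℕ}

/-- the path distance -/
def n1 (x : Tor d M) : ℕ := ∑ i, (x i).valMinAbs.natAbs

/-- the fixed data: the kernel, two neighbourhoods of the origin, the floor of the levels, the
decay length of the kernel, the largest correction -/
structure PEnv (d M : ℕ) extends Env d M where
  A0 : Matrix (Tor d M) (Tor d M) ℂ
  nb1 : Finset (Tor d M)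
  nb2 : Finset (Tor d M)
  Lv : ℝ
  La : ℝ
  sM : ℝ

variable [NeZero M]

/-- translate of a neighbourhood -/
def Nb (nb : Finset (Tor d M)) (y : Tor d M) : Finset (Tor d M) := univ.filter fun z => z - y ∈ nb

namespace PEnv

variable (E : PEnv d M) (S : St (Tor d M))

/-- the kernel of a state -/
noncomputable def ker : Matrix (Tor d M) (Tor d M) ℂ := E.A0 + Matrix.diagonal S.W

/-- the objects after the sites of `X` are closed with the signs `ω` -/
noncomputable def G (X : Finset (Tor d M)) (ω : Tor d M → Bool) : Matrix (Tor d M) (Tor d M) ℂ :=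
  GP E.H (E.ker S) (S.O \ X) (mix X ω (om S))
noncomputable def Γ (X : Finset (Tor d M)) (ω : Tor d M → Bool) : Matrix (Tor d M) (Tor d M) ℂ :=
  Gm E.H (E.ker S) (S.O \ X) (mix X ω (om S))
noncomputable def a (X : Finset (Tor d M)) (ω : Tor d M → Bool) : Tor d M → ℝ :=
  aP E.η (E.ker S) (S.O \ X) (mix X ω (om S))

/-- the objects of the state itself -/
noncomputable def G0 : Matrix (Tor d M) (Tor d M) ℂ := GP E.H (E.ker S) S.O (om S)
noncomputable def Γ0 : Matrix (Tor d M) (Tor d M) ℂ := Gm E.H (E.ker S) S.O (om S)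
noncomputable def a0 : Tor d M → ℝ := aP E.η (E.ker S) S.O (om S)

end PEnv

/-- the numbers in the invariant -/
structure PB (d M : ℕ) where
  θ : ℝ
  mis : ℝ
  H : Tor d M → ℝ
  n : ℝ
  nJ : ℝ
  B : ℝ
  l : ℕ
  sg : ℝ
  l1 : ℝ
  l2 : ℝ
  iso : Finset (Tor d M)

/-- the invariant -/
structure PInv (E : PEnv d M) (b : PB d M) (S : St (Tor d M)) : Prop where
  go : Disjoint S.good S.omg
  gj : Disjoint S.good S.junk
  oj : Disjoint S.omg S.junk
  oΩ : S.omg = E.Ω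
  sg : ∀ x, ‖S.W x‖ ≤ b.sg
  mis : ∀ x ∈ S.good, ‖E.Γ0 S x x‖ ≤ b.mis
  amp : ∀ x ∈ S.O, ∀ y ∈ S.O, ‖E.Γ0 S x y‖ ≤ b.H (x - y)
  l4 : ∀ x ∈ S.O, ∑ y ∈ S.good, ‖E.Γ0 S x y‖ ^ 4 ≤ b.n
  lJ : ∀ x ∈ S.O, ∑ y ∈ S.O, ‖E.Γ0 S x y‖ ^ 4 ≤ b.nJ
  ul : UL E.p (Kw (E.a0 S) (E.G0 S)) S.O b.θ
  rr : Disc S.good (Am0 (E.G0 S)) b.θ
  dec : Dec (E.G0 S) S.O b.B b.l
  lev1 : Lev (Nb E.nb1) E.Lv b.l1 S.good S.omg
  lev2 : Lev (Nb E.nb2) E.Lv b.l2 S.good S.omg
  iso : ∀ v ∈ S.good, ∀ u ∈ S.O, u ≠ v → u - v ∉ b.iso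

/-- parameters of a round; the underlying `Par` only fixes the geometry -/
structure PPar (d M : ℕ) extends Par where
  nw : Bool
  kap : ℝ
  eps : ℝ
  nu : ℝ
  hb : ℝ
  n4 : ℝ
  nO : ℝ
  gam : ℝ
  m1 : ℝ
  ρ : ℝ
  C0 : ℝ
  H : Tor d M → ℝ
  Kk : Tor d M → ℝ
  L : ℕ
  sg : ℝ
  l1 : ℝ
  l2 : ℝ
  iso : Finset (Tor d M)

namespace PPar

variable (q : PPar d M) (η : ℝ)

/-- size of the Newton correction and of its effects -/
noncomputable def δN : ℝ := if q.nw then (q.P : ℝ) ^ 4 * q.m1 else 0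
noncomputable def H1 (z : Tor d M) : ℝ := q.H z + q.δN
noncomputable def H2 (z : Tor d M) : ℝ := (1 + 1000 * q.kap * q.ρ ^ 3) * q.H1 z + 10 ^ 4 * q.hb
/-- strength of the surcharge -/
noncomputable def sig : ℝ := 10 ^ 5 * q.eps
/-- change of the strengths of the leads in the closing phase -/
noncomputable def da : ℝ := 1000 * q.kap + 1 / (q.P : ℝ) ^ 5
/-- noise of the retarded-retarded matrix in one flow -/
noncomputable def r6 : ℝ := 10 ^ 6 * q.eps + 1 / (q.P : ℝ) ^ 4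
/-- loss of accuracy in the closing phase -/
noncomputable def cost : ℝ := 10 ^ 7 * q.C0 * q.eps + 10 / (q.P : ℝ) ^ 3

/-- at the start of the round -/
noncomputable def b0 : PB d M :=
  ⟨q.θ, if q.nw then 3000 * q.m1 else q.m1, q.H, q.n4 / 2, q.nO - q.n4 / 100, q.B, q.l, q.sg,
    q.l1, q.l2, q.iso⟩
/-- after the Newton step -/
noncomputable def b1 : PB d M :=
  ⟨q.θ + 1 / (q.P : ℝ) ^ 3, q.m1, q.H1, q.n4, q.nO, q.Bi 1, q.li η 1, q.sg + q.δN, q.l1, q.l2,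
    q.iso⟩
/-- after the closing phase -/
noncomputable def b2 : PB d M :=
  ⟨q.θ + 1 / (q.P : ℝ) ^ 3 + q.cost, 3000 * q.m1, fun z => q.H2 z + q.hb, q.n4 / 14,
    q.nO + √(q.nO * q.n4) / 50 + q.n4 / 400, q.Bi 2, q.li η 2, q.sg + q.δN, q.l1 / 4, q.l2 / 4,
    q.iso⟩

/-- `q'` can follow `q` -/
structure Next (q' : PPar d M) : Prop where
  θ : (q.b2 η).θ ≤ q'.θ
  mis : (q.b2 η).mis ≤ q'.b0.mis
  H : ∀ z, (q.b2 η).H z ≤ q'.H z
  n : (q.b2 η).n ≤ q'.b0.n
  nJ : (q.b2 η).nJ ≤ q'.b0.nJ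
  B : q.Bi 2 ≤ q'.B
  l : q.li η 2 ≤ q'.l
  sg : q.sg + q.δN ≤ q'.sg
  l1 : q.l1 / 4 ≤ q'.l1
  l2 : q.l2 / 4 ≤ q'.l2

end PPar

/-- the properties of the selected survivors `S.sig` -/
structure PSel (E : PEnv d M) (q : PPar d M) (S : St (Tor d M)) : Prop where
  sg : S.sig ⊆ S.good
  keep : ∀ x ∈ S.O, 1 / 100 ≤ ∑ z ∈ (S.O \ (S.good \ S.sig)).erase x, ‖E.G0 S x z‖ ^ 2
  l4 : ∀ x ∈ S.O, ∑ y ∈ S.sig, ‖E.Γ0 S x y‖ ^ 4 ≤ q.n4 / 30
  lev1 : Lev (Nb E.nb1) E.Lv (q.l1 / 4) S.sig S.omg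
  lev2 : Lev (Nb E.nb2) E.Lv (q.l2 / 4) S.sig S.omg

/-! ### the closing flow of one finite system -/

section flow

variable (E : PEnv d M) (q : PPar d M) (S : St (Tor d M))

/-- the surcharged weights, `rem` being the sites that remain to be closed -/
noncomputable def wt (τ : Bool) (rem : Finset (Tor d M)) (u : Tor d M) : ℝ :=
  E.a0 S u * (1 + sr τ * q.sig * ((if u ∈ rem then 1 else 0) + (∑ v ∈ rem, q.Kk (u - v)) / 2000))

/-- the surcharged conductances of the flow that closes `Z`, after `X` is closed -/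
noncomputable def Kt (τ : Bool) (Z X : Finset (Tor d M)) (ω : Tor d M → Bool) :
    Tor d M → Tor d M → ℝ := Kw (wt E q S τ (Z \ X)) (E.G S X ω)

/-- the open sites near `v` -/
noncomputable def Sv (X : Finset (Tor d M)) (v : Tor d M) : Finset (Tor d M) :=
  ((S.O \ X) ∩ bl v (q.D E.η 2)).erase v

/-- signed change of the energy near `v` when `v` is closed after `X`, minus the allowances -/
noncomputable def Y5P (τ : Bool) (Z X : Finset (Tor d M)) (ω : Tor d M → Bool) (v : Tor d M)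
    (φ : Tor d M → ℝ) : ℝ :=
  sr τ * (En (Sv E q S X v) (fun x y => Kt E q S τ Z (insert v X) ω x y - Kt E q S τ Z X ω x y) φ -
      ∑ x ∈ Sv E q S X v, Kt E q S τ Z X ω x v * (φ x - φ v) ^ 2) -
    (if τ then 0 else 4 * (∑ x ∈ Sv E q S X v, Kt E q S τ Z X ω x v * (φ v - φ x)) ^ 2) -
    30 * q.eps * ∑ x, q.Kk (x - v) * (φ x - φ v) ^ 2

/-- new retarded-retarded matrix minus the Schur complement of the old one -/
noncomputable def dAP (X : Finset (Tor d M)) (ω : Tor d M → Bool) (v x y : Tor d M) : ℂ :=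
  Am0 (E.G S (insert v X) ω) x y -
    (Am0 (E.G S X ω) x y - Am0 (E.G S X ω) x v * Am0 (E.G S X ω) v y)

/-- the same on the sites of `T` near `v` -/
noncomputable def Y6P (T X : Finset (Tor d M)) (ω : Tor d M → Bool) (v x y : Tor d M) : ℂ :=
  if x ∈ ((T \ X) ∩ bl v (q.D E.η 2)).erase v ∧ y ∈ ((T \ X) ∩ bl v (q.D E.η 2)).erase v then
    dAP E S X ω v x y else 0

/-- the monitored rows -/
noncomputable def Rw (c : Tor d M) : Finset (Tor d M) := S.O ∩ bl c (6 * q.A E.η d)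

/-- success of the flow that closes `Z` in the order of the keys `κ` and keeps `Sg` -/
structure PFlow (c : Tor d M) (Z Sg : Finset (Tor d M)) (ω : Tor d M → Bool) (κ : Tor d M → ℕ) :
    Prop where
  nrm : ∀ t, OpLe Z (E.G S (pre κ Z t) ω) ((q.P : ℝ) ^ 40 / E.η)
  mis : ∀ t, ∀ x ∈ (Z ∪ Sg) \ pre κ Z t, ‖E.Γ S (pre κ Z t) ω x x‖ ≤ 2000 * q.m1
  amp : ∀ t, ∀ x ∈ Rw E q S c \ pre κ Z t, ∀ y ∈ Rw E q S c \ pre κ Z t,
    ‖E.Γ S (pre κ Z t) ω x y‖ ≤ q.H2 (x - y)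
  l4 : ∀ x ∈ Rw E q S c \ Z, ∑ y ∈ Sg, ‖E.Γ S Z ω x y‖ ^ 4 ≤ q.n4 / 16
  lJ : ∀ x ∈ Rw E q S c \ Z, ∑ y ∈ Rw E q S c \ Z, ‖E.Γ S Z ω x y‖ ^ 4 ≤
    q.nO + √(q.nO * q.n4) / 50 + q.n4 / 500
  aa : ∀ x ∈ Rw E q S c \ Z, |E.a S Z ω x - E.a0 S x| ≤ q.da
  y5 : ∀ (τ : Bool) (φ : Tor d M → ℝ), (∀ x ∉ bl c (3 * q.A E.η d), φ x = 0) →
    ∑ v ∈ Z ∩ bl c (q.A E.η d), Y5P E q S τ Z (pre κ Z (κ v)) ω v φ ≤ Nm E.p φ / (q.P : ℝ) ^ 4
  y6 : OpLe univ (fun x y => ∑ v ∈ Z ∩ bl c (q.A E.η d),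
    Y6P E q S (Z ∪ Sg) (pre κ Z (κ v)) ω v x y) q.r6

end flow

/-- what every random stage satisfies: events of type `i`, new junk within `r` of an event -/
structure PSpec (E : PEnv d M) (q : PPar d M) (s : ℕ) (st : Stage (Tor d M) E.N)
    (Pre Post : St (Tor d M) → Prop) (i : Fin 5) (r : ℕ) : Prop where
  causal : st.Causal
  tag : st.Tag s {i}
  post : ∀ S ϖ α, Pre S → Post (st.run S ϖ α)
  cons : ∀ S ϖ α, Pre S → PCons S ϖ → PCons (st.run S ϖ α) ϖ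
  eb : EB E.toEnv st Pre s i (q.rad E.η) ((q.P : ℝ) ^ 3)
  junk : ∀ S ϖ α, Pre S → ∀ x ∈ (st.run S ϖ α).junk,
    x ∈ S.junk ∨ ∃ ℓ ∈ (st.run S ϖ α).ev, nm (ℓ.2.2 - x) ≤ r

end Pool.Agent.P.MP_d0f69c_mp.XS.Pre
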