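import Pool.Agent.P.MP_d0f69c_mp.XS.PStat1

/-!
Existence of the majorants.
-/

set_option autoImplicit false

open Finset Function Real Matrix

namespace Pool.Agent.P.MP_d0f69c_mp.XS.Pre

variable {ι : Type} [Fintype ι] [DecidableEq ι]

theorem KW.diag {r : ι → ι → ℝ} (hr : PM r) {δ : ι → ℝ} {c : ℝ} (c0 : 0 ≤ c) (h0 : ∀ x, 0 ≤ δ x)
    (h1 : ∀ x, δ x ≤ c) : KW r (diagonal δ) c :=
  ((KW.one hr).smul c0).mono (fun x y => by rw [diagonal_apply]; split_ifs; exacts [h0 x, le_rfl])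
    (fun x y => by
      rw [diagonal_apply, Matrix.smul_apply, one_apply]; split_ifs; simpa using h1 x; simp)
    (mul_one c).le

namespace Geo

variable {ρ : ι → ι → ℕ} {l : Lv} {a : Matrix ι ι ℝ} (h : Geo ρ l a)
include h

theorem L0 : (0 : ℝ) < l.L := h.ok.La0.trans_le h.ok.LaL

theorem sym (x y : ι) : ρ x y = ρ y x := by exact_mod_cast h.pm.symm x y

theorem Vb1 (x : ι) : 1 ≤ l.Vb := le_trans (by
  have : ρ x x = 0 := by exact_mod_cast h.pm.zero x
  exact_mod_cast card_pos.2 ⟨x, by simp [this]⟩) (h.vb x)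

theorem n00 : 0 ≤ l.n0 := by linarith [h.ok.ν1, h.ν0]

theorem n01 : l.n0 ≤ 1 / 10 ^ 6 := by nlinarith [h.ok.n1, h.ok.e0, h.ok.e1]

theorem kwE : KW (fun x y => (ρ x y : ℝ) / l.L) (Ek fun x y => (ρ x y : ℝ) / l.La) (2 * l.Vb) := by
  have c : ∀ y, ∑ x, Ek (fun x y => (ρ x y : ℝ) / l.La) x y * exp (ρ x y / l.L) ≤ 2 * l.Vb :=
    fun y => by
    have a : ∀ x, Ek (fun x y => (ρ x y : ℝ) / l.La) x y * exp (ρ x y / l.L) ≤
        exp (-(ρ x y / l.La)) := fun x => by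
      rw [Ek, ← exp_add, exp_le_exp]
      linarith [div_le_div_of_nonneg_left (Nat.cast_nonneg (α := ℝ) (ρ x y)) h.ok.La0 h.ok.LaL]
    refine (sum_le_sum fun x _ => a x).trans ?_
    rw [← sum_filter_add_sum_filter_not univ fun x => ρ x y ≤ l.L]
    have b := sum_le_card_nsmul {x | ρ x y ≤ l.L} (fun x => exp (-(ρ x y / l.La))) 1 fun x _ =>
      exp_le_one_iff.2 (neg_nonpos.2 (div_nonneg (Nat.cast_nonneg _) h.ok.La0.le))
    rw [nsmul_eq_mul, mul_one] at b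
    simp only [not_le]
    linarith [h.vb y, h.tail y, h.Vb1 y, h.ok.ν1, h.n01]
  exact ⟨fun _ _ => (exp_pos _).le, fun x => by simpa only [Ek, h.sym x] using c x, c⟩

theorem kwQ : KW (fun x y => (ρ x y : ℝ) / l.L) (ctY univ (sqk (geo (ab a) l.j))) (41 / 5 * l.n0) := by
  have e : ∀ x y, ctY univ (sqk (geo (ab a) l.j)) x y = off (geo (ab a) l.j) x y ^ 2 := fun x y => by
    by_cases c : x = y <;> simp [ctY, sqk, off, c]
  have c : ∀ y, ∑ x, off (geo (ab a) l.j) x y ^ 2 * exp (ρ x y / l.L) ≤ 41 / 5 * l.n0 := fun y => by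
    refine (sum_le_sum (g := fun x => off (geo (ab a) l.j) x y ^ 2 * (272 / 100))
      fun x _ => ?_).trans ?_
    · by_cases c : off (geo (ab a) l.j) x y = 0
      · simp [c]
      refine mul_le_mul_of_nonneg_left ((exp_le_exp.2 ?_).trans (exp_one_lt_d9.le.trans
        (by norm_num))) (sq_nonneg _)
      rw [div_le_one h.L0]
      exact_mod_cast ((h.rg.ab.geo h.pm.tri_nat _).off x y c).trans h.ok.jL
    · rw [← sum_mul]; linarith [h.off_A y, h.n00]
  have s : ∀ x y, off (geo (ab a) l.j) x y = off (geo (ab a) l.j) y x := fun x y =>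
    (congrFun (congrFun (off_T (geo_symm (ab_T h.sy) l.j)) y) x)
  exact ⟨fun x y => e x y ▸ sq_nonneg _, fun x => by simpa only [e, s x, h.sym x] using c x,
    fun y => by simpa only [e] using c y⟩

theorem Q_le {x y : ι} (e : x ≠ y) : geo ((11 / 5 : ℝ) • ctY univ (sqk (geo (ab a) l.j))) l.j x y ≤
    25 / 64 * (l.κ ^ 2 * Kn l a x y) := by
  have a1 := geo_sq' (h.kwA.off.smul (a := 3 / 2) (by norm_num)).nn
    (h.kwQ.smul (a := 11 / 5) (by norm_num)).nn (fun x y => by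
      by_cases c : x = y
      · simp [ctY, off, c]
      · simp only [ctY, sqk, off, c, Matrix.smul_apply, smul_eq_mul, mem_univ, ne_eq,
          not_false_eq_true, and_self, if_true, if_false]
        nlinarith [sq_nonneg (geo (ab a) l.j x y)]) l.j x y
  have a2 := h.κK x y
  rw [off, if_neg e] at a2
  have a3 := mul_le_mul_of_nonneg_left (h.kwK.entry' pm_zero x y)
    (mul_nonneg (sq_nonneg l.κ) (h.kwK.nn x y))
  rw [show geo ((3 / 2 : ℝ) • off (geo (ab a) l.j)) l.j x y = 5 / 8 * (l.κ * Kn l a x y) by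
    linarith] at a1
  linarith

end Geo

theorem t_stat : S_STAT := fun ι _ _ ρ l a A h Y ϖ => by
  have g := h.geo
  have ok := g.ok
  have pm := g.pm.div g.L0.le
  have ν0 := g.ν0
  have n0 := g.n00
  have n1 := g.n01
  have νn := ok.ν1
  have m1 : l.ν1 ≤ 1 / 1000 := by rw [Lv.ν1]; linarith
  have m2 : l.ν2 ≤ l.ν1 := by rw [Lv.ν1, Lv.ν2]; linarith
  have m0 : 0 ≤ l.ν2 := by rw [Lv.ν2]; linarith
  obtain _ | ⟨⟨x0⟩⟩ := isEmpty_or_nonempty ι
  · have E : ∀ {P : ι → Prop} x, P x := fun x => isEmptyElim x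
    exact ⟨0, 0, 0, pm, h.dok, m1, m2, m0, E, rfl, E, ⟨E, E, E⟩, ⟨E, E, E⟩, E, E, E, E, E, E, E, E, E,
      E, E, ⟨E, E, E⟩, E, E, E, E, E, E, E, E⟩
  have V1 := g.Vb1 x0
  have hp := ok.hp
  have p2 : (0 : ℝ) < 2 ^ l.n := by positivity
  have V3 : l.Vb ≤ l.Vb ^ 3 := le_self_pow₀ V1 (by norm_num)
  obtain ⟨b, b2, s1, s2, b0, b20, hb, be, k2, pb⟩ := maj_b (j := l.j) g.pm ok.La0 ok.LaL h.wn h.sy g.sy
    g.l1 ok.e0.le (by linarith [ok.e1]) g.rg h.far ok.hn ok.nL g.vb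
    (le_trans (by nlinarith [Nat.cast_nonneg (α := ℝ) l.n]) (pow_le_pow_left₀ zero_le_two
      (by norm_num) l.n))
    ((pow_le_pow_of_le_one ok.e0.le g.e1.le (by omega)).trans ok.hT) g.tail Y ϖ
  set p := l.Vb * (l.n / 2 ^ l.n) with hp'
  have p0 : 0 ≤ p := by positivity
  have pV : p * (2 * l.Vb) ^ 2 ≤ 4 * l.ν := by
    rw [hp', ← mul_div_assoc, div_mul_eq_mul_div, div_le_iff₀ p2]; nlinarith
  have k2' : KW (fun x y => (ρ x y : ℝ) / l.L) (ctY Y (sqk b2)) (150 * l.ν) :=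
    k2.mono (fun x y => (ctY_le k2.nn x y).1) (fun x y => (ctY_le k2.nn x y).2) le_rfl
  have H : MH (fun x y => (ρ x y : ℝ) / l.La) (fun x y => (ρ x y : ℝ) / l.L) A (1 / 100) l.κ Y ϖ b p
      (2 * l.Vb) (167 * l.n0) (l.ν / 200) :=
    ⟨h.smk, le_rfl, h.dok.e1, h.dg, s1, fun u _ v _ _ => pb u v, pm, g.kwE,
      ((g.kwQ.smul zero_le_two).add (k2'.smul zero_le_two)).mono
        (fun x y => (ctY_le (fun _ _ => sq_nonneg _) x y).1) (fun x y => by
          simp only [ctY, sqk, Matrix.add_apply, Matrix.smul_apply, smul_eq_mul, mem_univ, true_and]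
          by_cases c : x ∈ Y ∧ y ∈ Y ∧ x ≠ y
          · rw [if_pos c, if_pos c, if_pos c.2.2]
            nlinarith [pow_le_pow_left₀ (b0 x y) (hb x y) 2, sq_nonneg (geo (ab a) l.j x y - b2 x y)]
          · rw [if_neg c, if_neg c]; split_ifs <;> positivity) (by linarith),
      by linarith, by linarith, p0, by linarith, by linarith⟩
  obtain ⟨E, e1, e2⟩ := H.split b0 hb g.kwQ k2' (by linarith) (by linarith) (by linarith) l.j
  replace e1 := e1.le (c' := 453 * l.ν) (by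
    have := (pow_le_pow_left₀ (by linarith) (show 11 / 5 * (41 / 5 * l.n0) ≤ l.e by
      nlinarith [ok.n1, ok.e0, ok.e1]) (l.j + 1)).trans ok.hT
    linarith)
  set Dm' := Dm (fun x y => (ρ x y : ℝ) / l.La) Y b p (2 * l.Vb) with hDm
  set δ : ι → ℝ := fun v => if v ∈ Y then (∑ u, Dm' v u) / 500 + l.ν / 50 else 0 with hδ
  have d1 : ∀ v, ∑ u, Dm' v u ≤ 201 * l.n0 := fun v => (H.kw_D.row' pm v).trans (by linarith)
  have δ0 : ∀ v, 0 ≤ δ v := fun v => by
    simp only [hδ]; split_ifs; exacts [by linarith [H.d0 v], le_rfl]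
  set D : Matrix ι ι ℝ := (251 / 100 : ℝ) • Dm' + diagonal δ with hD
  have De : ∀ v u, D v u = 251 / 100 * Dm' v u + if v = u then δ v else 0 := fun v u => by
    rw [hD, Matrix.add_apply, diagonal_apply]; rfl
  have Dl : ∀ v u, 251 / 100 * Dm' v u ≤ D v u := fun v u => by
    rw [De]; split_ifs; exacts [le_add_of_nonneg_right (δ0 v), (add_zero _).ge]
  have Dv : ∀ v, D v v = δ v := fun v => by rw [De, if_pos rfl, hDm, MH.D_self, mul_zero, zero_add]
  have Ds : ∀ v, ∑ u, D v u = 251 / 100 * ∑ u, Dm' v u + δ v := fun v => by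
    simp only [De, sum_add_distrib, ← mul_sum, sum_ite_eq, mem_univ, if_true]
  have Do : ∀ v, 251 / 100 * ∑ u, Dm' v u ≤ ∑ u ∈ univ.erase v, D v u := fun v => by
    linarith [Ds v, Dv v, add_sum_erase univ (D v) (mem_univ v)]
  have tot : KW (fun x y => (ρ x y : ℝ) / l.L) D l.ν1 :=
    ((H.kw_D.smul (by norm_num)).add (KW.diag pm n0 δ0 fun v => by
      simp only [hδ]; split_ifs; exacts [by linarith [d1 v], n0])).le (by rw [Lv.ν1]; linarith)
  have nr : ∀ v u, v ≠ u → Dm' v u ≤ 392 / 1000 * (l.κ ^ 2 * Kn l a v u) + E v u := fun v u c => by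
    linarith [e2 v u, g.Q_le c, mul_nonneg (sq_nonneg l.κ) (g.kwK.nn v u)]
  have perp : ∀ v ∈ Y, ∀ ξ ζ, ‖bf (Dt A Y ϖ v) ξ ζ - (cmn A Y ϖ v)⁻¹ * ξ v * ζ v‖ ≤
      no (D v) ξ * no (D v) ζ := fun v hv ξ ζ => by
    have c : ∀ ξ, √(1001 / 1000) * √(Pp A Y ϖ v ξ) ≤ no (D v) ξ := fun ξ => by
      rw [← sqrt_mul (by norm_num)]
      refine sqrt_le_sqrt ?_
      have a1 := H.perp_le (n1 := 1 / 2500) (fun w u v _ => (pow_le_pow_left₀ (norm_nonneg _)
        ((H.alw_le w u v).trans (div_le_div_of_nonneg_right (exp_le_one_iff.2 (neg_nonpos.2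
          (h.smk.pm.nonneg u v))) (by norm_num))) 2).trans (by norm_num)) (by norm_num)
        (by norm_num) hv ξ
      simp only [De, add_mul, sum_add_distrib, mul_assoc, ← mul_sum, ite_mul, zero_mul, sum_ite_eq,
        mem_univ, if_true, hδ, if_pos hv]
      have a2 : 0 ≤ ∑ u, Dm' v u * ‖ξ u‖ ^ 2 :=
        sum_nonneg fun u _ => mul_nonneg (H.D_nn v u) (sq_nonneg _)
      have a3 := mul_nonneg (H.d0 v) (sq_nonneg ‖ξ v‖)
      nlinarith [mul_le_mul_of_nonneg_right n1 a3, mul_nonneg ν0.le (sq_nonneg ‖ξ v‖)]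
    have := mul_le_mul (c ξ) (c ζ) (by positivity) (no_nonneg _ _)
    rw [mul_mul_mul_comm, mul_self_sqrt (by norm_num)] at this
    rw [mul_assoc, ← div_eq_inv_mul]
    exact (h.dok.perp_le Y ϖ hv ξ ζ).trans this
  have β : ∀ v ∈ Y, ‖Dt A Y ϖ v v v - (cmn A Y ϖ v)⁻¹‖ ≤ δ v := fun v hv => by
    have := perp v hv (Pi.single v 1) (Pi.single v 1)
    rw [← sq, no_sq (tot.nn v), bf_one] at this
    simpa [Pi.single_apply, apply_ite, Dv] using this
  have κ0 : 0 ≤ l.κ := h.dok.e0 x0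
  have κ1 : l.κ ≤ 1 / 100 := h.dok.e1
  refine ⟨D, (251 / 100 : ℝ) • E + l.ν • 1, fun x v => b2 x v + √p * exp (-(ρ x v / l.La)) / 50, pm,
    h.dok, m1, m2, m0, g.kwK.nn, by rw [hD, transpose_add, transpose_smul, H.D_T, diagonal_transpose],
    fun v u c => ?_, tot, ((e1.smul (by norm_num)).add ((KW.one pm).smul ν0.le)).le
      (by rw [Lv.ν2]; linarith), fun v u c => ?_, fun v => ?_, fun v hv => ?_, perp, fun v => ?_,
    fun v hv => ?_, fun v hv => ?_, fun v hv => ?_, fun v hv => by linarith [H.z_le hv],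
    fun v hv => ?_, fun x v => add_nonneg (b20 x v) (by positivity), ?_, fun x v => ?_,
    H.Nv_al_self, fun x v c => ?_, fun x hx v hv c => ?_,
    fun v hv => by linarith [H.al_phi hv, Do v, H.d0 v],
    fun v hv => by linarith [H.z_beta hv, Do v, H.d0 v],
    fun v hv => by
      linarith [H.beta_z hv, mul_le_mul_of_nonneg_left (Do v) κ0, mul_nonneg κ0 (H.d0 v)],
    fun v hv => by
      linarith [H.W_col hv, mul_le_mul_of_nonneg_left (Do v) (sq_nonneg l.κ),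
        mul_nonneg (sq_nonneg l.κ) (H.d0 v)]⟩
  · by_cases c1 : Dm' v u = 0
    · rw [De, c1, mul_zero, zero_add] at c
      split_ifs at c with c2
      · have : v ∈ Y := by_contra fun c3 => c (if_neg c3)
        exact ⟨this, c2 ▸ this⟩
      · exact absurd rfl c
    · exact ⟨(MH.D_supp c1).1, (MH.D_supp c1).2.1⟩
  · rw [De, if_neg c.symm, Matrix.add_apply, Matrix.smul_apply, Matrix.smul_apply,
      one_apply_ne c.symm, smul_zero, smul_eq_mul]
    linarith [nr v u c.symm, mul_nonneg (sq_nonneg l.κ) (g.kwK.nn v u)]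
  · have a1 : ∑ u, Dm' v u ≤ ∑ u ∈ Y, (l.κ ^ 2 * Kn l a v u + E v u) := by
      rw [← sum_subset (subset_univ Y) fun u _ hu => by_contra fun c => hu (MH.D_supp c).2.1]
      refine sum_le_sum fun u _ => ?_
      have := mul_nonneg (sq_nonneg l.κ) (g.kwK.nn v u)
      by_cases c : v = u
      · rw [c, MH.D_self]; exact add_nonneg (c ▸ this) (e1.nn u u)
      · linarith [nr v u c]
    rw [sum_add_distrib, ← mul_sum] at a1
    have a2 := (sum_le_univ_sum_of_nonneg (s := Y) (e1.nn v)).trans (e1.row' pm v)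
    have a3 := mul_nonneg (sq_nonneg l.κ) (sum_nonneg fun u (_ : u ∈ Y) => g.kwK.nn v u)
    rw [Dv, Matrix.add_apply, Matrix.smul_apply, Matrix.smul_apply, one_apply_eq, smul_eq_mul,
      smul_eq_mul]
    simp only [hδ]
    split_ifs <;> linarith [e1.nn v v]
  · have s := H.sn hv
    have c : ∀ u, Dh (fun x y => (ρ x y : ℝ) / l.La) Y b p (2 * l.Vb) v u ≤ DH D v u := fun u => by
      rw [Dh, DH]; linarith [Dl v u, H.D_nn v u]
    exact ⟨s.nn, s.sub, fun u => (s.D0 u).trans (c u), fun ξ => (s.le ξ).trans (no_mono c ξ)⟩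
  · have a1 := h.dok.cm_le Y ϖ v
    have a2 := norm_sub_norm_le 1 (1 - cmn A Y ϖ v)
    rw [sub_sub_cancel, norm_one] at a2
    rw [inv_eq_one_div, div_sub_one (h.dok.cm_ne Y ϖ v), norm_div,
      div_le_iff₀ (by linarith [h.dok.e_sq v])]
    nlinarith [h.dok.e_sq v, sq_nonneg l.κ]
  · have a1 := norm_sub_le_norm_sub_add_norm_sub (cmn A Y ϖ v)⁻¹ (Dt A Y ϖ v v v)
      (1 - Ww A Y ϖ v v ^ 2)
    rw [norm_sub_rev _ (Dt A Y ϖ v v v)] at a1
    rw [Ds]
    linarith [β v hv, H.beta_z hv, mul_le_mul_of_nonneg_right κ1 (H.d0 v), δ0 v, H.d0 v]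
  · have a1 := norm_sub_le (Ww A Y ϖ v v + Dt A Y ϖ v v v * al A Y ϖ v v)
      ((Dt A Y ϖ v v v - (cmn A Y ϖ v)⁻¹) * al A Y ϖ v v)
    rw [norm_mul, sub_mul, add_sub_assoc, sub_sub_cancel] at a1
    rw [Ds]
    linarith [H.z_beta hv, H.d0 v, δ0 v, mul_le_mul (β v hv) ((H.al_self v).trans κ1)
      (norm_nonneg _) (δ0 v)]
  · rw [Ds]; linarith [H.al_phi hv, H.d0 v, δ0 v]
  · rw [Ds]
    nlinarith [H.W_col hv, mul_nonneg (sq_nonneg l.κ) (H.d0 v), mul_nonneg (sq_nonneg l.κ) (δ0 v)]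
  · refine ((k2.smul zero_le_two).add (g.kwE.smul (a := p / 1250) (by positivity))).mono
      (fun _ _ => sq_nonneg _) (fun x y => ?_) (by rw [Lv.ν2]; nlinarith)
    have e : (√p * exp (-(ρ x y / l.La)) / 50) ^ 2 =
        p / 2500 * Ek (fun x y => (ρ x y : ℝ) / l.La) x y := by
      rw [div_pow, mul_pow, sq_sqrt p0, ← exp_nat_mul, Ek]; push_cast; ring_nf
    simp only [sqk, Matrix.add_apply, Matrix.smul_apply, smul_eq_mul]
    nlinarith [sq_nonneg (b2 x y - √p * exp (-(ρ x y / l.La)) / 50)]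
  · rw [H.Nv_al, KOK.al_avg, EY_apply]
    exact (norm_EY' _).trans (le_sqrt_of_sq_le (eY_sq _))
  · have a1 := eY_dec (Y := Y) (ϖ := ϖ) (f := fun w => ‖alw A w x v‖) (g := fun _ => 1) (pb x v)
      (fun _ => norm_nonneg _) (fun w => H.alw_le w x v) (fun _ => zero_le_one) fun _ => le_rfl
    simp only [mul_one, eY_const] at a1
    have a2 : 0 ≤ √p * exp (-(ρ x v / l.La)) / 50 := by positivity
    have a3 : √(eY Y ϖ fun w => ‖alw A w x v‖ ^ 2) ≤ b x v + √p * exp (-(ρ x v / l.La)) / 50 := by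
      refine sqrt_le_iff.2 ⟨add_nonneg (b0 x v) a2, a1.trans ?_⟩
      rw [add_sq, mul_div_assoc, mul_pow, sq_sqrt p0]
      nlinarith [mul_nonneg (b0 x v) a2, mul_div_assoc √p (exp (-(ρ x v / l.La))) 50]
    rw [H.Nv_al]
    linarith [hb x v, g.A_le c]
  · rw [H.Nv_al, sq_sqrt (eY_nonneg fun _ => sq_nonneg _)]
    linarith [H.alw_sq hx hv c, Dl v x, H.D_nn v x]

end Pool.Agent.P.MP_d0f69c_mp.XS.Pre
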