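import Pool.Agent.P.MP_d0f69c_mp.XS.PWard3
import Pool.Agent.P.MP_d0f69c_mp.XS.PStat2
import Pool.Agent.P.MP_d0f69c_mp.XS.PDefs

/-!
Invertibility and the lower bound of Ward for every open set and all signs.
-/

set_option autoImplicit false

open Finset Matrix Function

namespace Pool.Agent.P.MP_d0f69c_mp.XS.Pre

variable {ι : Type} [Fintype ι] [DecidableEq ι] {ρ : ι → ι → ℕ} {l : Lv} {a0 H : Matrix ι ι ℝ}
  {A : Matrix ι ι ℂ} {W β η δ ε : ℝ} {σ : ℂ} {N : ℕ}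

omit [Fintype ι] [DecidableEq ι] in
theorem cr_herm (hH : ∀ x y, H x y = H y x) : (cr H)ᴴ = cr H := by
  ext x y
  simp [cr, conjTranspose_apply, hH x y]

/-- a positive lead strength on the open set gives invertibility -/
theorem LamW.unit {Y : Finset ι} {ϖ : ι → Bool} {a : ι → ℝ} (h : LamW A Y ϖ η a ε) (k : KOK A)
    (hH : ∀ x y, H x y = H y x) (hA : Adm H σ N) (η0 : 0 < η) (ha : ∀ y ∈ Y, ε < a y) :
    IsUnit (cr H + Ww A Y ϖ).det := by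
  rw [isUnit_iff_ne_zero]
  intro e
  obtain ⟨g, g0, hg⟩ := Matrix.exists_mulVec_eq_zero_iff.2 e
  have hY : ∀ y ∈ Y, g y = 0 := fun y hy => h.ker k (cr_herm hH) η0 ha hg hy
  refine (hA (fun x => if x ∈ Y then -Complex.I else sgn (ϖ x)) fun y => ?_).ne_zero
    (Matrix.exists_mulVec_eq_zero_iff.1 ⟨g, g0, funext fun x => ?_⟩)
  · by_cases c : y ∈ Y
    · simp [c]
    · cases ϖ y <;> simp [c, sgn]
  · have e1 : (Ww A Y ϖ *ᵥ g) x = (if x ∈ Y then -Complex.I else sgn (ϖ x)) * g x := by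
      have e2 : ∀ y, Ww A Y ϖ x y * g y = if x = y then sgn (ϖ y) * g y else 0 := fun y => by
        by_cases c : y ∈ Y
        · simp [hY y c]
        · rw [k.Ww_col Y ϖ c, ite_mul, zero_mul]
      simp only [mulVec, dotProduct, e2, sum_ite_eq, mem_univ, if_true]
      split_ifs with c
      · simp [hY x c]
      · rfl
    rw [NW.MM_mv, ← e1, ← hg, add_mulVec]
    rfl

/-- the imaginary part of the kernel: sparse, and close to `η` on the diagonal -/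
structure ImK (ρ : ι → ι → ℕ) (l : Lv) (a0 : Matrix ι ι ℝ) (A : Matrix ι ι ℂ) (W β η δ ε : ℝ) :
    Prop where
  ker : Ker ρ l a0 A
  spa : Spa W β (Aᴴ - A)
  Wν : 200 * W * l.ν ≤ 1
  η0 : 0 < η
  dg : ∀ x, |(A x x).im - η| ≤ δ * η
  sm : 20 * β * (l.κ + √(2 * W * l.ν)) ≤ ε * η
  δ1 : δ ≤ 1 / 10
  ε1 : ε ≤ 1 / 10

namespace ImK

variable (h : ImK ρ l a0 A W β η δ ε) (Y : Finset ι) (ϖ : ι → Bool)
include h

theorem kok : KOK A := (t_ker ι ρ l a0 A h.ker).2.1.toKOK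

theorem imb : ImB A (5 / 8 * β) := fun w w' x y =>
  ((t_imb ι ρ l a0 A Aᴴ _ W β h.ker (t_ker ι ρ l a0 A h.ker).2.2.2.1 h.spa h.Wν).1 w w' x y).trans_eq
    (by ring)

theorem ν1_le : √l.ν1 ≤ 11 * l.κ := by
  have := h.ker.geo.ok.e0
  rw [Lv.ν1, Lv.κ]
  exact Real.sqrt_le_iff.2 ⟨by positivity, by nlinarith [h.ker.geo.ok.n1]⟩

theorem lamW : LamW A Y ϖ η (fun x => (al A Y ϖ x x).im / η) ε := by
  rcases isEmpty_or_nonempty ι with i | ⟨⟨y⟩⟩
  · intro u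
    simp [nS, eq_empty_of_isEmpty Y]
  obtain ⟨D, D2, mu, s⟩ := t_stat ι ρ l a0 A h.ker Y ϖ
  refine s.lamW h.imb h.η0 (le_trans ?_ h.sm)
  have b0 : 0 ≤ β := (norm_nonneg _).trans (h.spa.le y y)
  have k0 : 0 ≤ l.κ := by rw [Lv.κ]; linarith [h.ker.geo.ok.e0]
  have k1 : l.κ ≤ 3 / 1000 := by rw [Lv.κ]; linarith [h.ker.geo.ok.e1]
  have a1 : 5 / 2 * √l.ν1 + 7 / 2 * l.κ ^ 2 ≤ 28 * l.κ := by nlinarith [h.ν1_le]
  nlinarith [mul_le_mul_of_nonneg_left a1 b0, mul_nonneg b0 (Real.sqrt_nonneg (2 * W * l.ν)),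
    mul_nonneg b0 k0]

/-- the strengths of the leads in every state -/
theorem a_near {x : ι} (hx : x ∈ Y) : |(al A Y ϖ x x).im / η - 1| ≤ δ + ε / 10 := by
  obtain ⟨D, D2, mu, s⟩ := t_stat ι ρ l a0 A h.ker Y ϖ
  have a1 := s.im_near h.imb hx (δ := 3 / 2 * (l.κ + √(2 * W * l.ν)) * β)
    (((t_imb ι ρ l a0 A Aᴴ _ W β h.ker (t_ker ι ρ l a0 A h.ker).2.2.2.1 h.spa h.Wν).2 Y ϖ x
      x).trans_eq (by ring))
  have b0 : 0 ≤ β := (norm_nonneg _).trans (h.spa.le x x)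
  have k0 : 0 ≤ l.κ := by rw [Lv.κ]; linarith [h.ker.geo.ok.e0]
  have k1 : l.κ ≤ 3 / 1000 := by rw [Lv.κ]; linarith [h.ker.geo.ok.e1]
  have a2 : l.κ ^ 2 + l.ν1 ≤ 2 / 5 * l.κ := by
    have := pow_le_pow_left₀ (Real.sqrt_nonneg _) h.ν1_le 2
    rw [Real.sq_sqrt (s.m0.trans s.m2)] at this
    nlinarith
  have a3 := abs_le.1 (h.dg x)
  have a4 := abs_le.1 a1
  have a5 := mul_le_mul_of_nonneg_left a2 b0
  have a6 := mul_nonneg b0 (Real.sqrt_nonneg (2 * W * l.ν))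
  have a7 := mul_nonneg b0 k0
  have η0 := h.η0
  rw [div_sub_one η0.ne', abs_div, abs_of_pos η0, div_le_iff₀ η0, abs_le]
  constructor <;> nlinarith [h.sm]

theorem a_low {x : ι} (hx : x ∈ Y) : 3 / 4 + ε ≤ (al A Y ϖ x x).im / η := by
  linarith [(abs_le.1 (h.a_near Y ϖ hx)).1, h.δ1, h.ε1]

variable (hH : ∀ x y, H x y = H y x) (hA : Adm H σ N)
include hH hA

theorem unit : IsUnit (cr H + Ww A Y ϖ).det :=
  (h.lamW Y ϖ).unit h.kok hH hA h.η0 fun _ hy => by linarith [h.a_low Y ϖ hy]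

theorem ward' (T : Finset ι) (u : ι → ℂ) :
    3 / 4 * η * nS Y (ap T (GP H A Y ϖ) u) ^ 2 ≤ nS T u * nS T (ap T (GP H A Y ϖ) u) :=
  (h.lamW Y ϖ).out h.kok (cr_herm hH) (h.unit Y ϖ hH hA) rfl h.η0.le (fun _ => h.a_low Y ϖ) T u

theorem ward (T : Finset ι) (u : ι → ℂ) :
    η / 4 * nS Y (ap T (GP H A Y ϖ) u) ^ 2 ≤ nS T u * nS T (ap T (GP H A Y ϖ) u) :=
  (mul_le_mul_of_nonneg_right (by linarith [h.η0]) (sq_nonneg _)).trans (h.ward' Y ϖ hH hA T u)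

theorem op : OpLe Y (GP H A Y ϖ) (2 / η) :=
  ((h.lamW Y ϖ).op h.kok (cr_herm hH) (h.unit Y ϖ hH hA) rfl (fun _ => h.a_low Y ϖ) h.η0
    (by norm_num)).mono (by
      have := h.η0
      rw [div_le_div_iff₀ (by positivity) this]; linarith)

/-- rows -/
theorem mass (x : ι) :
    (1 - δ - 11 / 10 * ε) * η * ∑ y ∈ Y, ‖GP H A Y ϖ y x‖ ^ 2 ≤ (GP H A Y ϖ x x).im :=
  (h.lamW Y ϖ).mass h.kok (cr_herm hH) (h.unit Y ϖ hH hA) rfl h.η0.le
    (fun _ hy => by linarith [(abs_le.1 (h.a_near Y ϖ hy)).1]) x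

end ImK

/-- a small diagonal term -/
theorem ImK.diag {s : ℝ} {w : ι → ℂ} (h : ImK ρ l a0 A W β η δ ε) {β' δ' : ℝ}
    (hk : Ker ρ l a0 (A + diagonal w)) (hw : ∀ x, ‖w x‖ ≤ s) (hβ : β + 2 * s ≤ β')
    (hδ : δ * η + s ≤ δ' * η) (δ1 : δ' ≤ 1 / 10)
    (sm : 20 * β' * (l.κ + √(2 * W * l.ν)) ≤ ε * η) : ImK ρ l a0 (A + diagonal w) W β' η δ' ε := by
  have nz : ∀ x, (Aᴴ - A) x x ≠ 0 := fun x e => by
    have a := abs_le.1 (h.dg x)
    have b := congrArg Complex.im e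
    simp only [Matrix.sub_apply, conjTranspose_apply, Complex.sub_im, Complex.star_def,
      Complex.conj_im, Complex.zero_im] at b
    nlinarith [h.η0, h.δ1]
  have e : ∀ x y, ((A + diagonal w)ᴴ - (A + diagonal w)) x y =
      (Aᴴ - A) x y + if x = y then star (w x) - w x else 0 := fun x y => by
    by_cases c : x = y
    · subst c; simp; ring
    · simp [c]
  have f : ∀ x y, ((A + diagonal w)ᴴ - (A + diagonal w)) x y ≠ 0 → (Aᴴ - A) x y ≠ 0 :=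
    fun x y c => by
      by_cases c' : x = y
      · exact c' ▸ nz x
      · rwa [e, if_neg c', add_zero] at c
  refine ⟨hk, ⟨fun x y => ?_, fun x => le_trans (Nat.cast_le.2 (card_le_card fun y hy => ?_))
    (h.spa.row x), fun y => le_trans (Nat.cast_le.2 (card_le_card fun x hx => ?_)) (h.spa.col y)⟩,
    h.Wν, h.η0, fun x => ?_, sm, δ1, h.ε1⟩
  · rw [e]
    refine (norm_add_le _ _).trans ((add_le_add (h.spa.le x y) ?_).trans hβ)
    split_ifs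
    · exact (norm_sub_le _ _).trans (by rw [norm_star]; linarith [hw x])
    · rw [norm_zero]; linarith [(norm_nonneg _).trans (hw x)]
  · exact mem_filter.2 ⟨mem_univ _, f _ _ (mem_filter.1 hy).2⟩
  · exact mem_filter.2 ⟨mem_univ _, f _ _ (mem_filter.1 hx).2⟩
  · have a := abs_le.1 (h.dg x)
    have b := abs_le.1 ((Complex.abs_im_le_norm _).trans (hw x))
    rw [Matrix.add_apply, diagonal_apply_eq, Complex.add_im, abs_le]
    constructor <;> linarith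

end Pool.Agent.P.MP_d0f69c_mp.XS.Pre
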