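import Pool.Agent.P.MP_d0f69c_mp.XS.PWn

/-!
Nonnegative kernels with weighted row and column sums.
-/

set_option autoImplicit false

open Finset Real
open scoped Matrix

namespace Pool.Agent.P.MP_d0f69c_mp.XS.Pre

variable {ι : Type} [Fintype ι]

/-- a nonnegative kernel whose weighted row and column sums are at most `c` -/
structure KW (r : ι → ι → ℝ) (k : Matrix ι ι ℝ) (c : ℝ) : Prop where
  nn : ∀ x y, 0 ≤ k x y
  row : ∀ x, ∑ y, k x y * exp (r x y) ≤ c
  col : ∀ y, ∑ x, k x y * exp (r x y) ≤ c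

/-- the kernel vanishes beyond the distance `n` -/
def Rg {R : Type} [Zero R] (ρ : ι → ι → ℕ) (k : Matrix ι ι R) (n : ℕ) : Prop :=
  ∀ x y, k x y ≠ 0 → ρ x y ≤ n

variable {r : ι → ι → ℝ} {k k' : Matrix ι ι ℝ} {c c' : ℝ}

omit [Fintype ι] in
theorem pm_zero : PM (fun _ _ : ι => (0 : ℝ)) := ⟨fun _ => rfl, fun _ _ => rfl, fun _ _ _ => by simp⟩

theorem kw_zero_iff : KW (fun _ _ => 0) k c ↔
    (∀ x y, 0 ≤ k x y) ∧ (∀ x, ∑ y, k x y ≤ c) ∧ ∀ y, ∑ x, k x y ≤ c :=
  ⟨fun h => ⟨h.nn, fun x => by simpa using h.row x, fun y => by simpa using h.col y⟩,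
    fun h => ⟨h.1, fun x => by simpa using h.2.1 x, fun y => by simpa using h.2.2 y⟩⟩

namespace KW

theorem mono (h : KW r k c) (h0 : ∀ x y, 0 ≤ k' x y) (h1 : ∀ x y, k' x y ≤ k x y) (hc : c ≤ c') :
    KW r k' c' :=
  ⟨h0, fun x => (sum_le_sum fun y _ => mul_le_mul_of_nonneg_right (h1 x y) (exp_pos _).le).trans
      ((h.row x).trans hc),
    fun y => (sum_le_sum fun x _ => mul_le_mul_of_nonneg_right (h1 x y) (exp_pos _).le).trans
      ((h.col y).trans hc)⟩

theorem le (h : KW r k c) (hc : c ≤ c') : KW r k c' := h.mono h.nn (fun _ _ => le_rfl) hc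

theorem row' (h : KW r k c) (hr : PM r) (x : ι) : ∑ y, k x y ≤ c :=
  (sum_le_sum fun y _ => le_mul_of_one_le_right (h.nn x y) (one_le_exp (hr.nonneg x y))).trans (h.row x)

theorem col' (h : KW r k c) (hr : PM r) (y : ι) : ∑ x, k x y ≤ c :=
  (sum_le_sum fun x _ => le_mul_of_one_le_right (h.nn x y) (one_le_exp (hr.nonneg x y))).trans (h.col y)

theorem flat (h : KW r k c) (hr : PM r) : KW (fun _ _ => 0) k c :=
  kw_zero_iff.2 ⟨h.nn, h.row' hr, h.col' hr⟩

theorem entry (h : KW r k c) (x y : ι) : k x y ≤ c * exp (-r x y) := by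
  rw [exp_neg, ← div_eq_mul_inv, le_div_iff₀ (exp_pos _)]
  exact (single_le_sum (f := fun y => k x y * exp (r x y))
    (fun y _ => mul_nonneg (h.nn x y) (exp_pos _).le) (mem_univ y)).trans (h.row x)

theorem entry' (h : KW r k c) (hr : PM r) (x y : ι) : k x y ≤ c :=
  (single_le_sum (f := fun y => k x y) (fun y _ => h.nn x y) (mem_univ y)).trans (h.row' hr x)

theorem c0 (h : KW r k c) (x : ι) : 0 ≤ c :=
  (sum_nonneg fun y _ => mul_nonneg (h.nn x y) (exp_pos _).le).trans (h.row x)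

theorem zero (hc : 0 ≤ c) : KW r 0 c := ⟨fun _ _ => le_rfl, fun _ => by simpa, fun _ => by simpa⟩

theorem add (h : KW r k c) (h' : KW r k' c') : KW r (k + k') (c + c') :=
  ⟨fun x y => add_nonneg (h.nn x y) (h'.nn x y),
    fun x => by simpa [add_mul, sum_add_distrib] using add_le_add (h.row x) (h'.row x),
    fun y => by simpa [add_mul, sum_add_distrib] using add_le_add (h.col y) (h'.col y)⟩

theorem smul (h : KW r k c) {a : ℝ} (ha : 0 ≤ a) : KW r (a • k) (a * c) :=
  ⟨fun x y => mul_nonneg ha (h.nn x y),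
    fun x => by simpa [mul_assoc, ← mul_sum] using mul_le_mul_of_nonneg_left (h.row x) ha,
    fun y => by simpa [mul_assoc, ← mul_sum] using mul_le_mul_of_nonneg_left (h.col y) ha⟩

theorem transpose (h : KW r k c) (hr : PM r) : KW r kᵀ c :=
  ⟨fun x y => h.nn y x, fun x => by simpa [hr.symm x] using h.col x,
    fun y => by simpa [hr.symm _ y] using h.row y⟩

theorem mul (h : KW r k c) (h' : KW r k' c') (hr : PM r) : KW r (k * k') (c * c') := by
  have e : ∀ x y, (k * k') x y * exp (r x y) ≤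
      ∑ z, k x z * exp (r x z) * (k' z y * exp (r z y)) := fun x y => by
    rw [Matrix.mul_apply, sum_mul]
    refine sum_le_sum fun z _ => ?_
    rw [mul_mul_mul_comm, ← exp_add]
    exact mul_le_mul_of_nonneg_left (exp_le_exp.2 (hr.tri x z y)) (mul_nonneg (h.nn _ _) (h'.nn _ _))
  refine ⟨fun x y => sum_nonneg fun z _ => mul_nonneg (h.nn _ _) (h'.nn _ _), fun x => ?_,
    fun y => ?_⟩
  · refine (sum_le_sum fun y _ => e x y).trans ?_
    rw [sum_comm]
    simp only [← mul_sum]
    refine (sum_le_sum fun z _ => mul_le_mul_of_nonneg_left (h'.row z)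
      (mul_nonneg (h.nn _ _) (exp_pos _).le)).trans ?_
    rw [← sum_mul]
    exact mul_le_mul_of_nonneg_right (h.row x) (h'.c0 x)
  · refine (sum_le_sum fun x _ => e x y).trans ?_
    rw [sum_comm]
    simp only [← sum_mul]
    refine (sum_le_sum fun z _ => mul_le_mul_of_nonneg_right (h.col z)
      (mul_nonneg (h'.nn _ _) (exp_pos _).le)).trans ?_
    rw [← mul_sum]
    exact mul_le_mul_of_nonneg_left (h'.col y) (h.c0 y)

/-- Schur test for real vectors -/
theorem schur (h : KW r k c) (hr : PM r) (f : ι → ℝ) :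
    ∑ x, (∑ y, k x y * f y) ^ 2 ≤ c ^ 2 * ∑ y, f y ^ 2 := by
  have a : ∀ x, (∑ y, k x y * f y) ^ 2 ≤ c * ∑ y, k x y * f y ^ 2 := fun x =>
    (sum_sq_le_sum_mul_sum_of_sq_le_mul univ (fun y _ => h.nn x y)
      (fun y _ => mul_nonneg (h.nn x y) (sq_nonneg (f y))) fun y _ => le_of_eq (by ring)).trans
      (mul_le_mul_of_nonneg_right (h.row' hr x)
        (sum_nonneg fun y _ => mul_nonneg (h.nn x y) (sq_nonneg _)))
  refine (sum_le_sum fun x _ => a x).trans ?_
  rw [← mul_sum, sum_comm, sq c, mul_assoc, mul_sum univ (fun y => f y ^ 2) c, mul_sum, mul_sum]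
  refine sum_le_sum fun y _ => mul_le_mul_of_nonneg_left ?_ (h.c0 y)
  rw [← sum_mul]
  exact mul_le_mul_of_nonneg_right (h.col' hr y) (sq_nonneg _)

theorem opLe (h : KW r k c) (hr : PM r) (hc : 0 ≤ c) {A : ι → ι → ℂ} (hA : ∀ x y, ‖A x y‖ ≤ k x y) :
    OpLe univ A c :=
  OpLe.schur (fun x _ y _ => hA x y) hc (fun x _ => h.row' hr x) fun y _ => h.col' hr y

variable [DecidableEq ι]

theorem one (hr : PM r) : KW r 1 1 :=
  ⟨fun x y => by rw [Matrix.one_apply]; split_ifs <;> norm_num,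
    fun x => by simp [Matrix.one_apply, hr.zero], fun y => by simp [Matrix.one_apply, hr.zero]⟩

theorem pow (h : KW r k c) (hr : PM r) (n : ℕ) : KW r (k ^ n) (c ^ n) := by
  induction n with
  | zero => simpa using one hr
  | succ n ih => rw [pow_succ, pow_succ]; exact ih.mul h hr

end KW

/-- minimum principle -/
theorem min_princ (h0 : ∀ x y, 0 ≤ k x y) (h1 : ∀ x, ∑ y, k x y ≤ c) (hc : c < 1) {f : ι → ℝ}
    (hf : ∀ x, ∑ y, k x y * f y ≤ f x) (x : ι) : 0 ≤ f x := by
  obtain ⟨z, -, hz⟩ := exists_min_image univ f ⟨x, mem_univ x⟩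
  refine le_trans ?_ (hz x (mem_univ x))
  by_contra hn
  push Not at hn
  have a : (∑ y, k z y) * f z ≤ ∑ y, k z y * f y := by
    rw [sum_mul]
    exact sum_le_sum fun y _ => mul_le_mul_of_nonneg_left (hz y (mem_univ y)) (h0 z y)
  nlinarith [hf z, h1 z]

variable [DecidableEq ι]

/-- the resolvent of a small kernel -/
noncomputable def res (k : Matrix ι ι ℝ) : Matrix ι ι ℝ := (1 - k)⁻¹

theorem res_unit (h : KW r k c) (hr : PM r) (hc : c < 1) : IsUnit (1 - k).det := by
  rw [← Matrix.isUnit_iff_isUnit_det, ← Matrix.mulVec_injective_iff_isUnit]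
  refine (injective_iff_map_eq_zero (Matrix.mulVecLin (1 - k))).2 fun f hf => ?_
  have e : ∀ x, ∑ y, k x y * f y = f x := fun x => by
    have := congrFun hf x
    rw [Matrix.mulVecLin_apply, Matrix.sub_mulVec, Matrix.one_mulVec, Pi.sub_apply, Pi.zero_apply,
      sub_eq_zero] at this
    exact this.symm
  funext x
  have a := min_princ h.nn (h.row' hr) hc (fun x => (e x).le) x
  have b := min_princ (f := fun x => -f x) h.nn (h.row' hr) hc
    (fun x => by simp only [mul_neg, sum_neg_distrib, e, le_refl]) x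
  exact le_antisymm (neg_nonneg.1 b) a

theorem res_eq (h : KW r k c) (hr : PM r) (hc : c < 1) : res k = 1 + k * res k := by
  have := Matrix.mul_nonsing_inv _ (res_unit h hr hc)
  rw [Matrix.sub_mul, Matrix.one_mul, sub_eq_iff_eq_add] at this
  exact this

theorem res_eq' (h : KW r k c) (hr : PM r) (hc : c < 1) : res k = 1 + res k * k := by
  have := Matrix.nonsing_inv_mul _ (res_unit h hr hc)
  rw [Matrix.mul_sub, Matrix.mul_one, sub_eq_iff_eq_add] at this
  exact this

theorem res_symm (h : kᵀ = k) : (res k)ᵀ = res k := by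
  rw [res, Matrix.transpose_nonsing_inv, Matrix.transpose_sub, Matrix.transpose_one, h]

/-- comparison -/
theorem res_cmp (h : KW r k c) (hr : PM r) (hc : c < 1) {f u : ι → ℝ}
    (hf : ∀ x, f x ≤ u x + ∑ y, k x y * f y) (x : ι) : f x ≤ ∑ y, res k x y * u y := by
  have e : ∀ x, ∑ y, res k x y * u y = u x + ∑ y, k x y * ∑ z, res k y z * u z := fun x => by
    have := congrFun (congrArg (fun A => A *ᵥ u) (res_eq h hr hc)) x
    simp only [Matrix.add_mulVec, Matrix.one_mulVec, ← Matrix.mulVec_mulVec, Pi.add_apply] at this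
    exact this
  have := min_princ (f := fun x => ∑ y, res k x y * u y - f x) h.nn (h.row' hr) hc (fun x => by
    simp only [mul_sub, sum_sub_distrib]
    linarith [e x, hf x]) x
  linarith

theorem res_nn (h : KW r k c) (hr : PM r) (hc : c < 1) (x y : ι) : 0 ≤ res k x y := by
  have := res_cmp h hr hc (f := fun _ => 0) (u := fun z => if z = y then 1 else 0)
    (fun z => by split_ifs <;> simp) x
  simpa using this

theorem res_row (h : KW r k c) (hr : PM r) (hc : c < 1) (x : ι) :
    ∑ y, res k x y * exp (r x y) ≤ 1 / (1 - c) := by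
  set f : ι → ℝ := fun x => ∑ y, res k x y * exp (r x y) with hf
  obtain ⟨z, -, hz⟩ := exists_max_image univ f ⟨x, mem_univ x⟩
  refine (hz x (mem_univ x)).trans ?_
  have b : f z ≤ 1 + c * f z := by
    conv_lhs => simp only [hf]; rw [res_eq h hr hc]
    simp only [Matrix.add_apply, add_mul, sum_add_distrib]
    refine add_le_add ((KW.one hr).row z) ?_
    have e : ∀ y, (k * res k) z y * exp (r z y) ≤
        ∑ w, k z w * exp (r z w) * (res k w y * exp (r w y)) := fun y => by
      rw [Matrix.mul_apply, sum_mul]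
      refine sum_le_sum fun w _ => ?_
      rw [mul_mul_mul_comm, ← exp_add]
      exact mul_le_mul_of_nonneg_left (exp_le_exp.2 (hr.tri z w y))
        (mul_nonneg (h.nn _ _) (res_nn h hr hc _ _))
    refine (sum_le_sum fun y _ => e y).trans ?_
    rw [sum_comm]
    simp only [← mul_sum]
    refine (sum_le_sum fun w _ => mul_le_mul_of_nonneg_left (hz w (mem_univ w))
      (mul_nonneg (h.nn _ _) (exp_pos _).le)).trans ?_
    rw [← sum_mul]
    exact mul_le_mul_of_nonneg_right (h.row z)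
      (sum_nonneg fun y _ => mul_nonneg (res_nn h hr hc _ _) (exp_pos _).le)
  rw [le_div_iff₀ (by linarith)]
  linarith

theorem res_kw (h : KW r k c) (hr : PM r) (hc : c < 1) : KW r (res k) (1 / (1 - c)) := by
  refine ⟨res_nn h hr hc, res_row h hr hc, fun y => ?_⟩
  have := res_row (h.transpose hr) hr hc y
  rw [res, ← Matrix.transpose_one, ← Matrix.transpose_sub, ← Matrix.transpose_nonsing_inv] at this
  simpa only [Matrix.transpose_apply, hr.symm y, res] using this

/-- partial geometric sum without the unit matrix -/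
noncomputable def geo (k : Matrix ι ι ℝ) (j : ℕ) : Matrix ι ι ℝ := ∑ i ∈ range j, k ^ (i + 1)

theorem geo_succ (k : Matrix ι ι ℝ) (j : ℕ) : geo k (j + 1) = k + k * geo k j := by
  rw [geo, sum_range_succ', geo, mul_sum, add_comm, zero_add, pow_one]
  congr 1
  exact sum_congr rfl fun i _ => pow_succ' k (i + 1)

theorem geo_kw (h : KW r k c) (hr : PM r) (hc : c < 1) (h0 : 0 ≤ c) (j : ℕ) :
    KW r (geo k j) (c / (1 - c)) := by
  induction j with
  | zero => exact KW.zero (div_nonneg h0 (by linarith))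
  | succ j ih =>
    rw [geo_succ]
    refine (h.add (h.mul ih hr)).le (le_of_eq ?_)
    have : 1 - c ≠ 0 := by linarith
    field_simp; ring

theorem geo_symm (h : kᵀ = k) (j : ℕ) : (geo k j)ᵀ = geo k j := by
  simp only [geo, Matrix.transpose_sum, Matrix.transpose_pow, h]

omit [DecidableEq ι] in
theorem mul_le_mul_ker {a a' b b' : Matrix ι ι ℝ} (ha : ∀ x y, 0 ≤ a' x y) (hb : ∀ x y, 0 ≤ b x y)
    (h1 : ∀ x y, a x y ≤ a' x y) (h2 : ∀ x y, b x y ≤ b' x y) (x y : ι) :
    (a * b) x y ≤ (a' * b') x y :=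
  sum_le_sum fun z _ => mul_le_mul (h1 x z) (h2 z y) (hb z y) (ha x z)

/-- near and far part of the resolvent -/
theorem res_split {k1 k2 : Matrix ι ι ℝ} {c1 c2 : ℝ} (h : KW r k c) (hr : PM r) (hc : c < 1)
    (h1 : KW r k1 c1) (h2 : KW r k2 c2) (hc1 : c1 < 1) (c0 : 0 ≤ c1)
    (hk : ∀ x y, k x y ≤ k1 x y + k2 x y) (j : ℕ) :
    ∃ D : Matrix ι ι ℝ, KW r D ((c2 / (1 - c1) + c1 ^ (j + 1)) / (1 - c)) ∧
      ∀ x y, res k x y ≤ (1 : Matrix ι ι ℝ) x y + geo k1 j x y + D x y := by
  have hR := res_kw h hr hc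
  have a : ∀ x y, res k x y ≤ (1 + k2 * res k + k1 * res k) x y := fun x y => by
    have := mul_le_mul_ker (a := k) (a' := k1 + k2) (h1.add h2).nn hR.nn hk (fun _ _ => le_rfl) x y
    conv_lhs => rw [res_eq h hr hc]
    rw [Matrix.add_mul] at this
    simp only [Matrix.add_apply] at this ⊢
    linarith
  have b : ∀ j x y, res k x y ≤
      ((1 + geo k1 j) * (1 + k2 * res k) + k1 ^ (j + 1) * res k) x y := by
    intro j
    induction j with
    | zero => simpa [geo] using a
    | succ j ih =>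
      intro x y
      refine (a x y).trans ?_
      have := mul_le_mul_ker (a := k1) h1.nn hR.nn (fun _ _ => le_rfl) ih x y
      rw [geo_succ, pow_succ' k1 (j + 1)]
      have e : (1 + (k1 + k1 * geo k1 j)) * (1 + k2 * res k) + k1 * k1 ^ (j + 1) * res k =
          1 + k2 * res k + k1 * ((1 + geo k1 j) * (1 + k2 * res k) + k1 ^ (j + 1) * res k) := by
        noncomm_ring
      rw [e]
      simp only [Matrix.add_apply] at this ⊢
      linarith
  refine ⟨(1 + geo k1 j) * (k2 * res k) + k1 ^ (j + 1) * res k, ?_, fun x y => ?_⟩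
  · refine (((((KW.one hr).add (geo_kw h1 hr hc1 c0 j)).mul (h2.mul hR hr) hr)).add
      ((h1.pow hr _).mul hR hr)).le (le_of_eq ?_)
    have : 1 - c ≠ 0 := by linarith
    have : 1 - c1 ≠ 0 := by linarith
    field_simp; ring
  · refine (b j x y).trans (le_of_eq ?_)
    rw [Matrix.mul_add, Matrix.mul_one]
    simp only [Matrix.add_apply]; ring

section range

variable {ρ : ι → ι → ℕ} {R : Type} [Semiring R] {a b : Matrix ι ι R} {m n : ℕ}

omit [Fintype ι] [DecidableEq ι] in
theorem Rg.mono (h : Rg ρ a m) (hn : m ≤ n) : Rg ρ a n := fun x y e => (h x y e).trans hn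

omit [Fintype ι] [DecidableEq ι] in
theorem Rg.add (h : Rg ρ a n) (h' : Rg ρ b n) : Rg ρ (a + b) n := fun x y e => by
  by_cases a0 : a x y = 0
  · exact h' x y fun b0 => e (by rw [Matrix.add_apply, a0, b0, add_zero])
  · exact h x y a0

omit [DecidableEq ι] in
theorem Rg.mul (h : Rg ρ a m) (h' : Rg ρ b n) (tri : ∀ x y z, ρ x z ≤ ρ x y + ρ y z) :
    Rg ρ (a * b) (m + n) := fun x y e => by
  obtain ⟨z, -, hz⟩ := exists_ne_zero_of_sum_ne_zero e
  exact (tri x z y).trans (add_le_add (h x z (left_ne_zero_of_mul hz))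
    (h' z y (right_ne_zero_of_mul hz)))

theorem Rg.geo (h : Rg ρ k m) (tri : ∀ x y z, ρ x z ≤ ρ x y + ρ y z) (j : ℕ) :
    Rg ρ (geo k j) (j * m) := by
  induction j with
  | zero => exact fun x y e => absurd (by simp [Pre.geo]) e
  | succ j ih =>
    rw [geo_succ]
    exact (h.mono (by nlinarith)).add ((h.mul ih tri).mono (by nlinarith))

end range

end Pool.Agent.P.MP_d0f69c_mp.XS.Pre
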