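import Pool.Agent.P.MP_d0f69c_mp.XS.PAlg1
import Pool.Agent.P.MP_d0f69c_mp.XS.PKer

/-!
Weighted norms and locality of the averaged scattering matrices.
-/

set_option autoImplicit false

open Finset Real Matrix

namespace Pool.Agent.P.MP_d0f69c_mp.XS.Pre

variable {ι : Type} [Fintype ι] {r : ι → ι → ℝ}

/-- a kernel dominated by a weighted kernel -/
theorem KW.wn {k : Matrix ι ι ℝ} {c : ℝ} (h : KW r k c) (hc : 0 ≤ c)
    {A : Matrix ι ι ℂ} (hA : ∀ x y, ‖A x y‖ ≤ k x y) : WN r A c := fun ρ hρ =>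
  OpLe.schur (fun x _ y _ => by
    rw [cj, norm_mul, Complex.norm_real, Real.norm_of_nonneg (exp_pos _).le, mul_comm]
    exact mul_le_mul (hA x y) (exp_le_exp.2 (hρ x y)) (exp_pos _).le (h.nn x y))
    hc (fun x _ => h.row x) fun y _ => h.col y

/-- conjugation with two weights -/
noncomputable def cj2 (ρ σ : ι → ℝ) (A : Matrix ι ι ℂ) : Matrix ι ι ℂ :=
  fun x y => (exp (ρ x - σ y) : ℝ) * A x y

theorem cj2_mul (ρ σ τ : ι → ℝ) (A B : Matrix ι ι ℂ) :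
    cj2 ρ τ (A * B) = cj2 ρ σ A * cj2 σ τ B := by
  ext x y
  simp only [cj2, Matrix.mul_apply, mul_sum]
  refine sum_congr rfl fun z _ => ?_
  rw [← sub_add_sub_cancel (ρ x) (σ z), exp_add]
  push_cast
  ring

/-- `D` is generated outside `Λ` -/
def WL (r : ι → ι → ℝ) (Λ : Finset ι) (D : Matrix ι ι ℂ) (c : ℝ) : Prop :=
  ∀ ρ σ : ι → ℝ, (∀ x y, ρ x - ρ y ≤ r x y) → (∀ x y, σ x - σ y ≤ r x y) →
    (∀ z ∉ Λ, ρ z ≤ σ z) → OpLe univ (cj2 ρ σ D) c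

namespace WL

variable {Λ : Finset ι} {D D' P : Matrix ι ι ℂ} {c c' p : ℝ}

theorem mono (h : WL r Λ D c) (hc : c ≤ c') : WL r Λ D c' := fun ρ σ a b e => (h ρ σ a b e).mono hc

theorem wn (h : WL r Λ D c) : WN r D c := fun ρ a => h ρ ρ a a fun _ _ => le_rfl

theorem add (h : WL r Λ D c) (h' : WL r Λ D' c') : WL r Λ (D + D') (c + c') := fun ρ σ a b e =>
  ((h ρ σ a b e).add (h' ρ σ a b e)).congr fun x _ y _ => by simp [cj2, mul_add]

theorem smul (h : WL r Λ D c) (s : ℂ) : WL r Λ (s • D) (‖s‖ * c) := fun ρ σ a b e =>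
  ((h ρ σ a b e).left (a := fun _ => s) (norm_nonneg s) fun _ _ => le_rfl).congr fun x _ y _ => by
    simp [cj2, mul_left_comm]

theorem neg (h : WL r Λ D c) : WL r Λ (-D) c := by simpa using h.smul (-1)

theorem left (h : WL r Λ D c) (hP : WN r P p) (hp : 0 ≤ p) : WL r Λ (P * D) (p * c) :=
  fun ρ σ a b e => by rw [cj2_mul ρ ρ]; exact opLe_mul (hP ρ a) (h ρ σ a b e) hp

theorem right (h : WL r Λ D c) (hP : WN r P p) (hc : 0 ≤ c) : WL r Λ (D * P) (c * p) :=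
  fun ρ σ a b e => by rw [cj2_mul ρ σ]; exact opLe_mul (h ρ σ a b e) (hP σ b) hc

theorem diag [DecidableEq ι] {v : ι → ℂ} (hc : 0 ≤ c) (h : ∀ z, ‖v z‖ ≤ c) (h0 : ∀ z ∈ Λ, v z = 0) :
    WL r Λ (diagonal v) c := fun ρ σ _ _ e =>
  (OpLe.diag (a := fun x => (exp (ρ x - σ x) : ℝ) * v x) hc fun x _ => by
    by_cases hx : x ∈ Λ
    · rw [h0 x hx, mul_zero, norm_zero]; exact hc
    rw [norm_mul, Complex.norm_real, Real.norm_of_nonneg (exp_pos _).le]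
    exact (mul_le_of_le_one_left (norm_nonneg _) (exp_le_one_iff.2 (sub_nonpos.2 (e x hx)))).trans
      (h x)).congr fun x _ y _ => by
    by_cases hxy : x = y
    · subst hxy; simp [cj2]
    · simp [cj2, hxy]

theorem av {α : Type} [Fintype α] [Nonempty α] {F : α → Matrix ι ι ℂ} (h : ∀ i, WL r Λ (F i) c) :
    WL r Λ ((Fintype.card α : ℂ)⁻¹ • ∑ i, F i) c := by
  have h1 : WL r Λ (∑ i, F i) (∑ _i : α, c) := fun ρ σ a b e =>
    (opLe_sum univ fun i _ => h i ρ σ a b e).congr fun x _ y _ => by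
      simp only [cj2, Matrix.sum_apply, mul_sum]
  have := h1.smul (Fintype.card α : ℂ)⁻¹
  have c : (Fintype.card α : ℝ) ≠ 0 := by exact_mod_cast Fintype.card_ne_zero
  simpa [← mul_assoc, inv_mul_cancel₀ c] using this

/-- entries deep inside `Λ` -/
theorem entry [DecidableEq ι] (h : WL r Λ D c) (hr : PM r) {x y : ι} {s : ℝ}
    (hs : ∀ z ∉ Λ, s ≤ r x z + r z y) : ‖D x y‖ ≤ c * exp (-s) := by
  have := (le_nS _ (mem_univ x)).trans ((h (fun z => s - r x z) (fun z => r z y)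
    (fun u v => by linarith [hr.tri x u v]) (fun u v => by linarith [hr.tri u v y])
    fun z hz => by linarith [hs z hz]).col (mem_univ y))
  rw [cj2, norm_mul, Complex.norm_real, Real.norm_of_nonneg (exp_pos _).le, hr.zero, hr.zero,
    sub_zero, sub_zero] at this
  rwa [exp_neg, ← div_eq_mul_inv, le_div_iff₀ (exp_pos _), mul_comm]

/-- columns deep inside `Λ`, with a weight -/
theorem col [DecidableEq ι] (h : WL r Λ D c) (hr : PM r) {y : ι} {s : ℝ}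
    (hs : ∀ z ∉ Λ, s ≤ r z y) : nS univ (fun x => D x y) ≤ c * exp (-s) := by
  have := (h (fun _ => s) (fun z => r z y) (fun u v => by simpa using hr.nonneg u v)
    (fun u v => by linarith [hr.tri u v y]) hs).col (mem_univ y)
  simp only [cj2, hr.zero, sub_zero] at this
  have e := nS_smul univ ((exp s : ℝ) : ℂ) fun x => D x y
  rw [Complex.norm_real, Real.norm_of_nonneg (exp_pos _).le] at e
  rw [exp_neg, ← div_eq_mul_inv, le_div_iff₀ (exp_pos _), mul_comm, ← e]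
  exact this

end WL

variable [DecidableEq ι]

theorem WN.ey {F : (ι → Bool) → Matrix ι ι ℂ} {c : ℝ} (h : ∀ w, WN r (F w) c) (Y : Finset ι)
    (ϖ : ι → Bool) : WN r (EY Y ϖ F) c := WN.av fun _ => h _

theorem wn_Vs (w : ι → Bool) : WN r (Vs w) 1 := WN.diag zero_le_one fun _ => (norm_sgn _).le

/-- a symmetric kernel with a small weighted norm -/
structure SmK (r : ι → ι → ℝ) (A : Matrix ι ι ℂ) (a : ℝ) : Prop where
  pm : PM r
  symm : Aᵀ = A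
  wn : WN r A a
  a0 : 0 ≤ a
  a1 : a ≤ 1 / 4

/-- two states that agree on `Λ` -/
def Agr (Λ Y Y' : Finset ι) (ϖ ϖ' : ι → Bool) : Prop :=
  ∀ z ∈ Λ, (z ∈ Y ↔ z ∈ Y') ∧ (z ∉ Y → ϖ z = ϖ' z)

namespace SmK

variable {A : Matrix ι ι ℂ} {a : ℝ} (h : SmK r A a) (Y : Finset ι) (ϖ : ι → Bool)
include h

theorem VA (w : ι → Bool) : WN r (Vs w * A) a := by simpa using (wn_Vs w).mul h.wn zero_le_one

theorem unit (w : ι → Bool) : IsUnit (Vs w + A).det := by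
  have e : Vs w + A = Vs w * (1 + Vs w * A) := by
    rw [Matrix.mul_add, ← Matrix.mul_assoc, Vs_mul, Matrix.one_mul, Matrix.mul_one]
  rw [e, det_mul]
  exact (isUnit_det_of_right_inverse (Vs_mul w)).mul ((h.VA w).unit h.pm (by linarith [h.a1]))

theorem Tt0 (w : ι → Bool) : WN r (Tt A w) (1 / (1 - a)) := by
  have e : (1 + Vs w * A) * (Tt A w * Vs w) = 1 := by
    have : 1 + Vs w * A = Vs w * (Vs w + A) := by rw [Matrix.mul_add, Vs_mul]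
    rw [this, Matrix.mul_assoc, ← Matrix.mul_assoc (Vs w + A), Tt, mul_nonsing_inv _ (h.unit w),
      Matrix.one_mul, Vs_mul]
  have := ((h.VA w).of_left (by linarith [h.a1]) e).mul (wn_Vs w)
    (one_div_nonneg.2 (by linarith [h.a1]))
  rwa [Matrix.mul_assoc, Vs_mul, Matrix.mul_one, mul_one] at this

theorem c1 : 1 / (1 - a) ≤ 1 + 2 * a := by
  rw [div_le_iff₀ (by linarith [h.a1])]; nlinarith [h.a0, h.a1]

theorem c0 : 0 ≤ 1 + 2 * a := by linarith [h.a0]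

theorem wTt (w : ι → Bool) : WN r (Tt A w) (1 + 2 * a) := (h.Tt0 w).mono h.c1

theorem wSs : WN r (Ss A Y ϖ) (1 + 2 * a) := WN.ey h.wTt Y ϖ

theorem SA : WN r (-(Ss A Y ϖ * A)) (4 / 3 * a) :=
  (((WN.ey h.Tt0 Y ϖ).mul h.wn (one_div_nonneg.2 (by linarith [h.a1]))).mono
    (mul_le_mul_of_nonneg_right (by rw [div_le_iff₀] <;> linarith [h.a1]) h.a0)).neg

theorem kok : KOK A := ⟨h.symm, h.unit, fun Y ϖ => by
  rw [sub_eq_add_neg]; exact (h.SA Y ϖ).unit h.pm (by linarith [h.a1])⟩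

theorem wq : WN r (1 - Ss A Y ϖ * A)⁻¹ (1 + 2 * a) := by
  rw [sub_eq_add_neg]
  refine ((h.SA Y ϖ).inv h.pm (by linarith [h.a1])).mono ?_
  rw [div_le_iff₀ (by linarith [h.a1])]; nlinarith [h.a0, h.a1]

theorem wq' : WN r (1 - A * Ss A Y ϖ)⁻¹ (1 + 2 * a) := by
  rw [← q_T h.symm (h.kok.Ss_T Y ϖ), ← transpose_nonsing_inv]
  exact (h.wq Y ϖ).tr h.pm h.c0

theorem wWw : WN r (Ww A Y ϖ) ((1 + 2 * a) ^ 2) := sq (1 + 2 * a) ▸ (h.wq Y ϖ).mul (h.wSs Y ϖ) h.c0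

theorem wals (w : ι → Bool) : WN r (A - A * Tt A w * A) (2 * a) :=
  (h.wn.sub ((h.wn.mul (h.wTt w) h.a0).mul h.wn (mul_nonneg h.a0 h.c0))).mono
    (by nlinarith [h.a0, h.a1, mul_nonneg h.a0 h.a0])

theorem wal : WN r (al A Y ϖ) (2 * a) := by rw [KOK.al_avg]; exact WN.ey h.wals Y ϖ

/-- the scattering matrix is close to the potential -/
theorem wTV (w : ι → Bool) : WN r (Tt A w - Vs w) (2 * a) := by
  have := (((wn_Vs w).mul (h.wals w) zero_le_one).mul (wn_Vs w) (by linarith [h.a0])).neg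
  rw [one_mul, mul_one] at this
  rwa [show Tt A w - Vs w = -(Vs w * (A - A * Tt A w * A) * Vs w) by
    rw [sub_eq_iff_eq_add, add_comm, ← sub_eq_add_neg]; exact h.kok.Tt_eq w]

theorem wDd (v : ι) : WN r (Dd A Y ϖ v) (1 + 2 * a) :=
  WN.ey (fun w => by simpa [norm_sgn] using (h.wTt w).smul (sgn (w v))) Y ϖ

theorem wDt (v : ι) : WN r (Dt A Y ϖ v) ((1 + 2 * a) ^ 3) :=
  (((h.wq Y ϖ).mul (h.wDd Y ϖ v) h.c0).mul (h.wq' Y ϖ) (mul_nonneg h.c0 h.c0)).mono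
    (le_of_eq (by ring))

theorem wpsi (w : ι → Bool) : WN r ((1 - Ss A Y ϖ * A)⁻¹ * Tt A w) ((1 + 2 * a) ^ 2) :=
  sq (1 + 2 * a) ▸ (h.wq Y ϖ).mul (h.wTt w) h.c0

theorem psi_le (v : ι) (w : ι → Bool) (x : ι) :
    ‖psi A Y ϖ v w x‖ ≤ (1 + 2 * a) ^ 2 * exp (-r x v) := (h.wpsi Y ϖ w).entry h.pm x v

variable {Y ϖ} {Λ Y' : Finset ι} {ϖ' : ι → Bool}

theorem lTt {w w' : ι → Bool} (e : ∀ z ∈ Λ, w z = w' z) :
    WL r Λ (Tt A w' - Tt A w) (2 * (1 + 2 * a) ^ 2) := by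
  have e1 : Vs w' + A = Vs w + A + diagonal fun z => sgn (w' z) - sgn (w z) := by
    rw [← diagonal_sub]; simp only [Vs]; abel
  have e2 := inv_add_eq (h.unit w) (e1 ▸ h.unit w')
  rw [← e1] at e2
  have h1 := (((WL.diag (r := r) (Λ := Λ) (v := fun z => sgn (w' z) - sgn (w z)) zero_le_two
    (fun z => (norm_sub_le _ _).trans_eq (by rw [norm_sgn, norm_sgn]; norm_num))
    fun z hz => by rw [e z hz, sub_self]).left (h.wTt w) h.c0).right (h.wTt w')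
      (by linarith [h.c0])).neg
  rw [Tt, Tt, e2, sub_sub_cancel_left]
  exact h1.mono (le_of_eq (by ring))

omit h [Fintype ι] in
theorem mix_agr (g : Agr Λ Y Y' ϖ ϖ') (ζ : ι → Bool) : ∀ z ∈ Λ, mix Y ζ ϖ z = mix Y' ζ ϖ' z :=
  fun z hz => by
    by_cases e : z ∈ Y
    · simp [mix, e, (g z hz).1.1 e]
    · simp [mix, e, (g z hz).1.not.1 e, (g z hz).2 e]

omit h in
theorem _root_.Pool.Agent.P.MP_d0f69c_mp.XS.Pre.WL.ey (g : Agr Λ Y Y' ϖ ϖ')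
    {F F' : (ι → Bool) → Matrix ι ι ℂ} {c : ℝ}
    (hF : ∀ w w', (∀ z ∈ Λ, w z = w' z) → WL r Λ (F' w' - F w) c) :
    WL r Λ (EY Y' ϖ' F' - EY Y ϖ F) c := by
  rw [EY, EY, ← smul_sub, ← sum_sub_distrib]
  exact WL.av fun ζ => hF _ _ (mix_agr g ζ)

theorem lSs (g : Agr Λ Y Y' ϖ ϖ') : WL r Λ (Ss A Y' ϖ' - Ss A Y ϖ) (2 * (1 + 2 * a) ^ 2) :=
  WL.ey g fun _ _ => h.lTt

theorem lWw (g : Agr Λ Y Y' ϖ ϖ') : WL r Λ (Ww A Y' ϖ' - Ww A Y ϖ) (2 * (1 + 2 * a) ^ 4) := by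
  have e := two_kernel (A := A) (U := Ss A Y ϖ) (U' := Ss A Y' ϖ') (b := 0)
    (C := -(Ss A Y' ϖ' - Ss A Y ϖ)) (add_zero A).symm (h.kok.q' Y ϖ) (h.kok.q Y' ϖ') (h.kok.q Y ϖ)
    (by simp)
  rw [Ww, Ww, e, Matrix.mul_neg, Matrix.neg_mul, neg_neg]
  have := h.c0
  exact (((h.lSs g).left (h.wq Y' ϖ') h.c0).right (h.wq' Y ϖ) (by positivity)).mono
    (le_of_eq (by ring))

theorem lal (g : Agr Λ Y Y' ϖ ϖ') :
    WL r Λ (al A Y' ϖ' - al A Y ϖ) (2 * (a * (1 + 2 * a)) ^ 2) := by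
  rw [show al A Y' ϖ' - al A Y ϖ = -(A * (Ss A Y' ϖ' - Ss A Y ϖ) * A) by
    simp only [al]; noncomm_ring]
  have := h.a0
  exact (((h.lSs g).left h.wn h.a0).right h.wn (by positivity)).neg.mono (le_of_eq (by ring))

theorem lq (g : Agr Λ Y Y' ϖ ϖ') :
    WL r Λ ((1 - Ss A Y' ϖ' * A)⁻¹ - (1 - Ss A Y ϖ * A)⁻¹) (2 * (1 + 2 * a) ^ 4 * a) := by
  rw [inv_q (h.kok.q Y' ϖ'), inv_q (h.kok.q Y ϖ), add_sub_add_left_eq_sub, ← Matrix.sub_mul]
  exact (h.lWw g).right h.wn (by positivity)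

theorem lq' (g : Agr Λ Y Y' ϖ ϖ') :
    WL r Λ ((1 - A * Ss A Y' ϖ')⁻¹ - (1 - A * Ss A Y ϖ)⁻¹) (a * (2 * (1 + 2 * a) ^ 4)) := by
  have e : ∀ Y ϖ, (1 - A * Ss A Y ϖ)⁻¹ = 1 + A * Ww A Y ϖ := fun Y ϖ => by
    rw [← q_T h.symm (h.kok.Ss_T Y ϖ), ← transpose_nonsing_inv, inv_q (h.kok.q Y ϖ), transpose_add,
      transpose_one, transpose_mul, h.symm]
    exact congrArg _ (congrArg _ (h.kok.Ww_T Y ϖ))
  rw [e, e, add_sub_add_left_eq_sub, ← Matrix.mul_sub]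
  exact (h.lWw g).left h.wn h.a0

theorem lDd (g : Agr Λ Y Y' ϖ ϖ') {v : ι} (hv : v ∈ Λ) :
    WL r Λ (Dd A Y' ϖ' v - Dd A Y ϖ v) (2 * (1 + 2 * a) ^ 2) :=
  WL.ey g fun w w' e => by
    rw [← e v hv, ← smul_sub]
    simpa [norm_sgn] using (h.lTt e).smul (sgn (w v))

theorem lDt (g : Agr Λ Y Y' ϖ ϖ') {v : ι} (hv : v ∈ Λ) :
    WL r Λ (Dt A Y' ϖ' v - Dt A Y ϖ v) (5 * (1 + 2 * a) ^ 4) := by
  have c0 := h.c0
  have a0 := h.a0
  have h1 := ((h.lq g).right (h.wDd Y' ϖ' v) (by positivity)).right (h.wq' Y' ϖ') (by positivity)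
  have h2 := ((h.lDd g hv).left (h.wq Y ϖ) c0).right (h.wq' Y' ϖ') (by positivity)
  have h3 := (h.lq' g).left ((h.wq Y ϖ).mul (h.wDd Y ϖ v) c0) (by positivity)
  have e : ∀ p q D p' q' D' : Matrix ι ι ℂ, (q' - q) * D' * p' + q * (D' - D) * p' +
      q * D * (p' - p) = q' * D' * p' - q * D * p := fun _ _ _ _ _ _ => by noncomm_ring
  have := (h1.add h2).add h3
  rw [e] at this
  refine this.mono ?_
  have b : a * (1 + 2 * a) ^ 2 ≤ 3 / 4 := by nlinarith [h.a1]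
  nlinarith [mul_le_mul_of_nonneg_right b (pow_nonneg c0 4)]

end SmK

end Pool.Agent.P.MP_d0f69c_mp.XS.Pre
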