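import Pool.Agent.P.MP_d0f69c_mp.XS.PDefs
import Pool.Agent.P.MP_d0f69c_mp.XS.PS0

/-!
The path distance on the torus.
-/

set_option autoImplicit false

open Finset Real

namespace Pool.Agent.P.MP_d0f69c_mp.XS.Pre

namespace N1

variable {d M : ℕ}

theorem zero : n1 (0 : Tor d M) = 0 := by simp [n1]

theorem neg (x : Tor d M) : n1 (-x) = n1 x := by simp [n1, ZMod.natAbs_valMinAbs_neg]

theorem comm (x y : Tor d M) : n1 (x - y) = n1 (y - x) := by rw [← neg, neg_sub]

theorem add (x y : Tor d M) : n1 (x + y) ≤ n1 x + n1 y := by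
  rw [n1, n1, n1, ← sum_add_distrib]
  exact sum_le_sum fun i _ => (ZMod.natAbs_valMinAbs_add_le _ _).trans (Int.natAbs_add_le _ _)

theorem tri (x y z : Tor d M) : n1 (x - z) ≤ n1 (x - y) + n1 (y - z) :=
  (sub_add_sub_cancel x y z ▸ add (x - y) (y - z) :)

theorem nm_le (x : Tor d M) : nm x ≤ n1 x :=
  tn_le.2 fun i => single_le_sum (f := fun i => (x i).valMinAbs.natAbs) (fun _ _ => Nat.zero_le _)
    (mem_univ i)

theorem le_nm (x : Tor d M) : n1 x ≤ d * nm x :=
  (sum_le_card_nsmul _ _ _ fun i _ => le_tn x i).trans_eq (by simp)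

theorem pm {L : ℝ} (hL : 0 ≤ L) : PM fun x y : Tor d M => (n1 (x - y) : ℝ) / L :=
  ⟨fun x => by simp [zero], fun x y => by rw [comm], fun x y z => by
    rw [← add_div]
    exact div_le_div_of_nonneg_right (by exact_mod_cast tri x y z) hL⟩

/-- `c nm / l ≤ n1 / L` if `c L ≤ l` -/
theorem div_le {c L l : ℝ} (L0 : 0 < L) (c0 : 0 ≤ c) (h : c * L ≤ l) (x : Tor d M) :
    c * nm x / l ≤ n1 x / L := by
  have a : (nm x : ℝ) ≤ n1 x := by exact_mod_cast nm_le x
  rcases c0.eq_or_lt with e | e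
  · rw [← e, zero_mul, zero_div]; positivity
  calc c * nm x / l ≤ c * nm x / (c * L) := div_le_div_of_nonneg_left (by positivity) (by positivity) h
    _ = nm x / L := mul_div_mul_left _ _ e.ne'
    _ ≤ _ := div_le_div_of_nonneg_right a L0.le

end N1

theorem SmK.weak {ι : Type} [Fintype ι] [DecidableEq ι] {r r' : ι → ι → ℝ} {A : Matrix ι ι ℂ} {a : ℝ}
    (h : SmK r A a) (p : PM r') (hr : ∀ x y, r' x y ≤ r x y) : SmK r' A a :=
  ⟨p, h.symm, h.wn.weak hr, h.a0, h.a1⟩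

end Pool.Agent.P.MP_d0f69c_mp.XS.Pre
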