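import Pool.Agent.P.MP_d0f69c_mp.XS.PIf
import Pool.Agent.P.MP_d0f69c_mp.XS.PGok
import Pool.Agent.P.MP_d0f69c_mp.XS.PN1
import Pool.Agent.P.MP_d0f69c_mp.XS.Num

/-!
Invertibility, symmetry and the identity of Ward in every state of a round.
-/

set_option autoImplicit false

open Finset Real
open scoped Matrix

namespace Pool.Agent.P.MP_d0f69c_mp.XS.Pre

variable {d M : ℕ} [NeZero M] {E : PEnv d M} {q : PPar d M}

namespace Bas

variable (hE : E.OK) (hq : q.OK E) {ε : Tor d M → ℂ} (hε : ∀ x, ‖ε x‖ ≤ E.sM)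
  (Y : Finset (Tor d M)) (w : Tor d M → Bool)

include hE hq in
theorem e0 : 0 < q.eps := by
  have : (0 : ℝ) < q.P := lt_of_lt_of_le (by norm_num) (hq.par.P9 hE.env)
  linarith [hq.ke, hq.k0, show 0 < 1 / (q.P : ℝ) ^ 4 by positivity]

include hE hε

theorem kok : KOK (E.A0 + Matrix.diagonal ε) := (hE.good ε hε).smk.kok

theorem a_lo (x : Tor d M) : 1 - 1 / 10 ^ 12 ≤ aP E.η (E.A0 + Matrix.diagonal ε) Y w x := by
  linarith [(abs_le.1 ((hE.good ε hε).a1 Y w x)).1]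

include hq

/-- the kernel in the sup distance -/
theorem smk : SmK (fun x y => (2 * nm (x - y) : ℝ) / q.l) (E.A0 + Matrix.diagonal ε) (1 / 100) := by
  have l1 : 2 * E.La ≤ q.l := by
    have a : (2 * d * q.L : ℝ) ≤ q.l := by exact_mod_cast hq.L2
    have b : (1 : ℝ) ≤ d := by exact_mod_cast hE.env.d1
    nlinarith [hq.L1, hE.La]
  refine (hE.good ε hε).smk.weak ?_ fun x y => N1.div_le (by linarith [hE.La]) zero_le_two l1 _
  have p := pm_nm d M (L := q.l / 2) (by positivity)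
  simpa only [div_div_eq_mul_div, mul_comm _ (2 : ℝ)] using p

theorem lamW : LamW (E.A0 + Matrix.diagonal ε) Y w E.η (aP E.η (E.A0 + Matrix.diagonal ε) Y w)
    (q.eps / 500) := by
  obtain ⟨K, κ, ν1, ν, D, D2, mu, s, -, -, -, h, -⟩ := hq.st ε hε Y w
  refine s.lamW (hE.good ε hε).imb hE.env.η0 ?_
  nlinarith [mul_le_mul_of_nonneg_left h hE.env.η0.le, mul_nonneg hE.env.η0.le (sqrt_nonneg ν1),
    mul_nonneg hE.env.η0.le (sq_nonneg κ)]

theorem unit : IsUnit (cr E.H + Ww (E.A0 + Matrix.diagonal ε) Y w).det :=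
  (lamW hE hq hε Y w).unit (kok hE hε) hE.env.symm hE.env.adm hE.env.η0 fun y _ => by
    linarith [a_lo hE hε Y w y, hq.e1]

omit hq in
theorem G_T : (GP E.H (E.A0 + Matrix.diagonal ε) Y w)ᵀ = GP E.H (E.A0 + Matrix.diagonal ε) Y w := by
  rw [GP, Matrix.transpose_nonsing_inv, Matrix.transpose_add, (kok hE hε).Ww_T]
  congr 2
  ext a b
  exact congrArg Complex.ofReal (hE.env.symm b a)

/-- from any set to the open set -/
theorem out (T : Finset (Tor d M)) (u : Tor d M → ℂ) :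
    (1 - 2 / 10 ^ 12) * E.η * nS Y (ap T (GP E.H (E.A0 + Matrix.diagonal ε) Y w) u) ^ 2 ≤
      nS T u * nS T (ap T (GP E.H (E.A0 + Matrix.diagonal ε) Y w) u) :=
  (lamW hE hq hε Y w).out (kok hE hε) (cr_herm hE.env.symm) (unit hE hq hε Y w) rfl hE.env.η0.le
    (fun y _ => by linarith [a_lo hE hε Y w y, hq.e1]) T u

theorem ward (T : Finset (Tor d M)) (u : Tor d M → ℂ) :
    E.η / 4 * nS Y (ap T (GP E.H (E.A0 + Matrix.diagonal ε) Y w) u) ^ 2 ≤
      nS T u * nS T (ap T (GP E.H (E.A0 + Matrix.diagonal ε) Y w) u) :=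
  (mul_le_mul_of_nonneg_right (by linarith [hE.env.η0]) (sq_nonneg _)).trans (out hE hq hε Y w T u)

theorem op : OpLe Y (GP E.H (E.A0 + Matrix.diagonal ε) Y w) (2 / E.η) :=
  ((lamW hE hq hε Y w).op (c := 1 / 2) (kok hE hε) (cr_herm hE.env.symm) (unit hE hq hε Y w) rfl
    (fun y _ => by linarith [a_lo hE hε Y w y, hq.e1]) hE.env.η0 (by norm_num)).mono
    (le_of_eq (by field_simp))

/-- the identity of Ward for one column -/
theorem col (x : Tor d M) : |(GP E.H (E.A0 + Matrix.diagonal ε) Y w x x).im -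
    E.η * ∑ y ∈ Y, aP E.η (E.A0 + Matrix.diagonal ε) Y w y *
      ‖GP E.H (E.A0 + Matrix.diagonal ε) Y w y x‖ ^ 2| ≤
    q.eps / 500 * E.η * ∑ y ∈ Y, ‖GP E.H (E.A0 + Matrix.diagonal ε) Y w y x‖ ^ 2 :=
  (lamW hE hq hε Y w).col (kok hE hε) (cr_herm hE.env.symm) (unit hE hq hε Y w) rfl x

theorem mass (x : Tor d M) :
    (1 - 2 / 10 ^ 12) * E.η * ∑ y ∈ Y, ‖GP E.H (E.A0 + Matrix.diagonal ε) Y w y x‖ ^ 2 ≤
      (GP E.H (E.A0 + Matrix.diagonal ε) Y w x x).im :=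
  (lamW hE hq hε Y w).mass (kok hE hε) (cr_herm hE.env.symm) (unit hE hq hε Y w) rfl hE.env.η0.le
    (fun y _ => by linarith [a_lo hE hε Y w y, hq.e1]) x

/-- rows of sites with a small diagonal part on the shell -/
theorem row {x : Tor d M} {m : ℝ} (hm : ‖Gm E.H (E.A0 + Matrix.diagonal ε) Y w x x‖ ≤ m * E.η) :
    (1 - 2 / 10 ^ 12) * ∑ y ∈ Y, ‖GP E.H (E.A0 + Matrix.diagonal ε) Y w y x‖ ^ 2 ≤
      1 + 1 / 10 ^ 12 + m := by
  have η0 := hE.env.η0
  have a := mass hE hq hε Y w x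
  have b := (Complex.im_le_norm _).trans hm
  have c := (abs_le.1 ((hE.good ε hε).a1 Y w x)).2
  rw [Gm, Matrix.sub_apply, Complex.sub_im] at b
  rw [aP, sub_le_iff_le_add, div_le_iff₀ η0] at c
  exact le_of_mul_le_mul_right (by linarith) η0

end Bas

theorem t_pbas : S_PBAS := fun _ _ _ E q hE hq ε Y w hε =>
  ⟨Bas.unit hE hq hε Y w, Bas.G_T hE hε Y w, Bas.op hE hq hε Y w, fun u => by
    have a := (Bas.lamW hE hq hε Y w).ward (Bas.kok hE hε) (cr_herm hE.env.symm)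
      (Bas.unit hE hq hε Y w) rfl u
    rw [nS_sq] at a
    refine a.trans (mul_le_mul_of_nonneg_right ?_ (sum_nonneg fun _ _ => sq_nonneg _))
    nlinarith [mul_pos hE.env.η0 (Bas.e0 hE hq)]⟩

end Pool.Agent.P.MP_d0f69c_mp.XS.Pre
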