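import Pool.Agent.P.MP_d0f69c_mp.XS.CT
import Pool.Agent.P.MP_d0f69c_mp.XS.Far

/-!
A shift bound for kernels that are not translation invariant.
-/

set_option autoImplicit false

open Finset Real

namespace Pool.Agent.P.MP_d0f69c_mp.XS.Pre

variable {d M : ℕ} [NeZero M]

theorem shell_sum (hd : 1 ≤ d) {L : ℕ} (hL : 0 < L) {l : ℝ} (hl : 0 < l) :
    ∑ h : Tor d M, exp (-((nm h - d * (2 * L) : ℕ) : ℝ) / L) * (1 + (nm h : ℝ) ^ 2 / l ^ 2) ≤
      399 * (1 + ((d * (2 * L) : ℕ) : ℝ) ^ 2 / l ^ 2) * vl d M (d * (2 * L)) := by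
  set r := d * (2 * L) with hr
  have hLr : 2 * L ≤ r := Nat.le_mul_of_pos_left _ hd
  have L0 : (0 : ℝ) < L := by exact_mod_cast hL
  let j : Tor d M → ℕ := fun h => (nm h - r) / (2 * L)
  have j1 : ∀ h, nm h ≤ r + (j h + 1) * (2 * L) := fun h => by
    have := Nat.lt_div_mul_add (a := nm h - r) (b := 2 * L) (by omega)
    rw [add_mul]
    simp only [j]
    omega
  rw [← sum_fiberwise_of_maps_to (t := range (M + 1)) (g := j) fun z _ => mem_range.2
    (Nat.lt_succ_of_le ((Nat.div_le_self _ _).trans (by have := tn_le_half z; unfold nm; omega)))]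
  have g := mul_le_mul_of_nonneg_left (far_geom (l := 2) two_pos (M + 1))
    (by positivity : 0 ≤ 133 * (1 + (r : ℝ) ^ 2 / l ^ 2) * vl d M r)
  refine le_trans ?_ (g.trans_eq (by ring))
  rw [mul_sum]
  refine sum_le_sum fun k _ => ?_
  have k0 : (0 : ℝ) ≤ k := Nat.cast_nonneg k
  have h1 : ∀ h ∈ univ.filter fun h => j h = k, exp (-((nm h - r : ℕ) : ℝ) / L) *
      (1 + (nm h : ℝ) ^ 2 / l ^ 2) ≤ exp (-(2 * k)) * ((k + 2) ^ 2 * (1 + (r : ℝ) ^ 2 / l ^ 2)) :=
    fun h hh => by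
      have e := (mem_filter.1 hh).2
      have a1 : k * (2 * L) ≤ nm h - r := e ▸ Nat.div_mul_le_self _ _
      have a2 : nm h ≤ (k + 2) * r := by
        have := j1 h
        rw [e] at this
        have := Nat.mul_le_mul_left (k + 1) hLr
        rw [add_mul, add_mul] at *
        omega
      have a3 : (nm h : ℝ) ^ 2 ≤ ((k + 2) * r) ^ 2 :=
        pow_le_pow_left₀ (Nat.cast_nonneg _) (by exact_mod_cast a2) 2
      refine mul_le_mul (exp_le_exp.2 ?_) ?_ (by positivity) (exp_pos _).le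
      · rw [div_le_iff₀ L0]
        have : (k : ℝ) * (2 * L) ≤ (nm h - r : ℕ) := by exact_mod_cast a1
        linarith
      · rw [mul_add, ← mul_div_assoc, ← mul_pow]
        exact add_le_add (by nlinarith) (div_le_div_of_nonneg_right a3 (by positivity))
  refine (sum_le_card_nsmul _ _ _ h1).trans ?_
  have h2 : (#{h : Tor d M | j h = k} : ℝ) ≤ exp ((k + 1 : ℕ) : ℝ) * vl d M r :=
    le_trans (Nat.cast_le.2 (card_le_card fun h hh => mem_ball.2 (by
      rw [sub_zero, ← (mem_filter.1 hh).2]; exact j1 h))) (vol_tn_shell (k := k + 1) le_rfl)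
  have h3 : (k + 2 : ℝ) ^ 2 ≤ 16 * exp (k / 2) := by
    have a := pow_le_pow_left₀ (by positivity) (add_one_le_exp ((k : ℝ) / 4)) 2
    rw [← exp_nat_mul, show ((2 : ℕ) : ℝ) * (k / 4) = k / 2 by push_cast; ring] at a
    nlinarith
  have h4 : exp ((k + 1 : ℕ) : ℝ) * exp (-(2 * k)) * exp (k / 2) = exp 1 * exp (-(1 / 2)) ^ k := by
    rw [← exp_nat_mul, ← exp_add, ← exp_add, ← exp_add]
    congr 1
    push_cast
    ring
  have h5 : exp ((k + 1 : ℕ) : ℝ) * exp (-(2 * k)) * (k + 2) ^ 2 ≤ 133 * exp (-(1 / 2)) ^ k := by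
    have a := mul_le_mul_of_nonneg_left h3
      (by positivity : 0 ≤ exp ((k + 1 : ℕ) : ℝ) * exp (-(2 * k)))
    have b := mul_le_mul_of_nonneg_right exp_one_lt_three.le (pow_pos (exp_pos (-(1 / 2))) k).le
    have c := pow_pos (exp_pos (-(1 / 2))) k
    linarith
  rw [nsmul_eq_mul]
  refine (mul_le_mul_of_nonneg_right h2 (by positivity)).trans ?_
  have := mul_le_mul_of_nonneg_left h5
    (by positivity : 0 ≤ (1 + (r : ℝ) ^ 2 / l ^ 2) * vl d M r)
  linarith

/-- the shift bound for a kernel with weighted rows and columns -/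
theorem shift_ker (hd : 1 ≤ d) {L : ℕ} (hL : 0 < L) {l C ν : ℝ} (hl : 0 < l) (hν : 0 ≤ ν)
    {F : Tor d M → ℝ} (hF : ∀ h, ∑ x, (F (x + h) - F x) ^ 2 ≤ C * (1 + (nm h : ℝ) ^ 2 / l ^ 2))
    {k : Tor d M → Tor d M → ℝ} (k0 : ∀ v u, 0 ≤ k v u) (k1 : ∀ v, ∑ u, k v u ≤ ν)
    (k2 : ∀ u, ∑ v, k v u * exp (nm (v - u) / L) ≤ ν) :
    ∑ v, ∑ u, k v u * (F v - F u) ^ 2 ≤
      1600 * ν * C * (1 + ((d * (2 * L) : ℕ) : ℝ) ^ 2 / l ^ 2) := by
  set r := d * (2 * L) with hr
  have L0 : (0 : ℝ) < L := by exact_mod_cast hL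
  have v0 : (0 : ℝ) < vl d M r := by exact_mod_cast (tn_NG d M).vol_pos r
  have C0 : 0 ≤ C := by
    have := (sum_nonneg fun _ _ => sq_nonneg _).trans (hF 0)
    exact nonneg_of_mul_nonneg_left this (by positivity)
  let w : Tor d M → ℝ := fun h => exp (-((nm h - r : ℕ) : ℝ) / L)
  have w0 : ∀ h, 0 < w h := fun h => exp_pos _
  let S : Tor d M → ℝ := fun u => ∑ p, w (p - u) * (F p - F u) ^ 2
  have S0 : ∀ u, 0 ≤ S u := fun u => sum_nonneg fun p _ => mul_nonneg (w0 _).le (sq_nonneg _)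
  have hS : ∑ u, S u ≤ C * (399 * (1 + (r : ℝ) ^ 2 / l ^ 2) * vl d M r) := by
    have e : ∀ u, S u = ∑ h, w h * (F (u + h) - F u) ^ 2 := fun u => by
      simp only [S]
      rw [← Equiv.sum_comp (Equiv.addLeft u)]
      simp
    simp only [e]
    rw [sum_comm]
    refine le_trans (sum_le_sum fun h _ => ?_) ((mul_sum _ _ _).symm.trans_le
      (mul_le_mul_of_nonneg_left (shell_sum hd hL hl) C0))
    rw [← mul_sum, mul_left_comm]
    exact mul_le_mul_of_nonneg_left (hF h) (w0 h).le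
  have b : ∀ v u, ∑ p ∈ bl v r, (F p - F u) ^ 2 ≤ exp (nm (v - u) / L) * S u := fun v u => by
    rw [mul_sum]
    refine (sum_le_sum fun p hp => ?_).trans (sum_le_sum_of_subset_of_nonneg (subset_univ _)
      fun p _ _ => mul_nonneg (exp_pos _).le (mul_nonneg (w0 _).le (sq_nonneg _)))
    rw [← mul_assoc]
    refine le_mul_of_one_le_left (sq_nonneg _) ?_
    rw [← exp_add, ← add_div]
    refine one_le_exp (div_nonneg ?_ L0.le)
    have a1 := mem_bl.1 hp
    have a2 := nm_tri p v u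
    have : ((nm (p - u) - r : ℕ) : ℝ) ≤ nm (v - u) := by exact_mod_cast (by omega)
    linarith
  have h1 : ∀ v u, vl d M r * (k v u * (F v - F u) ^ 2) ≤
      2 * (k v u * S v) + 2 * (k v u * exp (nm (v - u) / L) * S u) := fun v u => by
    have a1 : vl d M r * (F v - F u) ^ 2 ≤
        2 * ∑ p ∈ bl v r, (F p - F v) ^ 2 + 2 * ∑ p ∈ bl v r, (F p - F u) ^ 2 := by
      rw [mul_sum, mul_sum, ← sum_add_distrib, ← nsmul_eq_mul, vl, ← card_ball v r, ← sum_const]
      exact sum_le_sum fun p _ => by nlinarith [sq_nonneg (F p - F v + (F p - F u))]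
    have a2 := b v v
    rw [nm_self, Nat.cast_zero, zero_div, exp_zero, one_mul] at a2
    have a3 := mul_le_mul_of_nonneg_left (a1.trans (add_le_add
      (mul_le_mul_of_nonneg_left a2 zero_le_two) (mul_le_mul_of_nonneg_left (b v u) zero_le_two)))
      (k0 v u)
    linarith
  have h2 := sum_le_sum fun v (_ : v ∈ univ) => sum_le_sum fun u (_ : u ∈ univ) => h1 v u
  simp only [sum_add_distrib, ← mul_sum, ← sum_mul] at h2
  rw [sum_comm (f := fun v u => k v u * exp (nm (v - u) / L) * S u)] at h2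
  have h3 : ∑ v, (∑ u, k v u) * S v ≤ ν * ∑ v, S v := by
    rw [mul_sum]; exact sum_le_sum fun v _ => mul_le_mul_of_nonneg_right (k1 v) (S0 v)
  have h4 : ∑ u, ∑ v, k v u * exp (nm (v - u) / L) * S u ≤ ν * ∑ v, S v := by
    rw [mul_sum]
    exact sum_le_sum fun u _ => by rw [← sum_mul]; exact mul_le_mul_of_nonneg_right (k2 u) (S0 u)
  have h5 := mul_le_mul_of_nonneg_left hS hν
  have h6 : 0 ≤ vl d M r * (ν * C * (1 + (r : ℝ) ^ 2 / l ^ 2)) := by positivity
  refine le_of_mul_le_mul_left ?_ v0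
  linarith

end Pool.Agent.P.MP_d0f69c_mp.XS.Pre
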