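import Pool.Agent.P.MP_d0f69c_mp.XS.PCv4
import Pool.Agent.P.MP_d0f69c_mp.XS.PBas
import Pool.Agent.P.MP_d0f69c_mp.XS.PShift

/-!
The conversion to a state of the main process.
-/

set_option autoImplicit false

open Finset Real Matrix

namespace Pool.Agent.P.MP_d0f69c_mp.XS.Pre

variable {d M : ℕ} [NeZero M]

theorem far_col {A : Matrix (Tor d M) (Tor d M) ℂ} {La L c n : ℝ} {R : Finset (Tor d M)}
    (l0 : 0 < La) (l1 : La ≤ L) (hA : WN (fun x y => (n1 (x - y) : ℝ) / La) A c) (c0 : 0 ≤ c)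
    (n0 : 0 ≤ n) (hn : ∑ z with z ∉ R, exp (-(n1 z : ℝ) / La) ≤ n ^ 2) (u : Tor d M) :
    ∑ v, (if v - u ∈ R then 0 else ‖A v u‖) * exp (nm (v - u) / (2 * L)) ≤ c * n := by
  refine le_trans (sum_le_sum fun v _ => ?_) ((nS_cs' univ _ fun v => if v - u ∈ R then 0 else
    (exp (-(n1 (v - u) : ℝ) / La / 2) : ℝ)).trans (mul_le_mul (hA.col (N1.pm l0.le) u) ?_
      (nS_nonneg _ _) c0))
  · split_ifs
    · simp
    rw [norm_mul, Complex.norm_real, Complex.norm_real, Real.norm_of_nonneg (exp_pos _).le,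
      Real.norm_of_nonneg (exp_pos _).le, mul_right_comm, mul_comm, ← exp_add]
    refine mul_le_mul_of_nonneg_right (exp_le_exp.2 ?_) (norm_nonneg _)
    have := N1.div_le l0 one_pos.le (by linarith : 1 * La ≤ L) (v - u)
    rw [one_mul] at this
    rw [mul_comm, ← div_div, neg_div]
    exact (div_le_div_of_nonneg_right this zero_le_two).trans_eq (by ring)
  · rw [nS_le_iff n0]
    refine le_trans (le_of_eq ?_) hn
    rw [sum_filter]
    refine (sum_congr rfl fun v _ => ?_).trans ((Equiv.subRight u).sum_comp _)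
    by_cases e : v - u ∈ R
    · simp [e]
    · simp only [e, if_false, Equiv.subRight_apply, not_false_eq_true, if_true]
      rw [Complex.norm_real, Real.norm_of_nonneg (exp_pos _).le, sq, ← exp_add, add_halves]

theorem t_pconv : S_PCONV := by
  intro d M _ E q hE hq bd S hl hS
  have P9 := hq.par.P9 hE.env
  have η0 := hE.env.η0
  have η1 := hE.env.η1
  have hε : ∀ x, ‖S.W x‖ ≤ E.sM := fun x => (hS.sg x).trans (le_trans (le_add_of_nonneg_right (by
    have := hq.m0; rw [PPar.δN]; split_ifs <;> positivity)) hq.s1)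
  obtain ⟨K, κ, ν1, ν, D, D2, mu, s, -, κ0, -, hκ, -⟩ := hq.st _ hε S.O (om S)
  have g := hE.good _ hε
  have e0 := Bas.e0 hE hq
  have C1 := hq.C1
  have q0 := sqrt_nonneg q.eps
  have q1 := sq_sqrt e0.le
  have q2 : √q.eps ≤ 1 / 10 ^ 6 := sqrt_le_iff.2 ⟨by norm_num, by linarith [hq.e1]⟩
  have q3 : √q.eps ≤ q.C0 * √q.eps := le_mul_of_one_le_left q0 C1
  have κ1 : κ ≤ √q.eps / 100 := le_of_sq_le_sq (by linarith [sqrt_nonneg ν1]) (by positivity)
  have ν0 := s.m0.trans s.m2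
  have ν2 : ν1 ≤ q.eps / 10 ^ 8 := by
    have := pow_le_pow_left₀ (sqrt_nonneg ν1) (by nlinarith : √ν1 ≤ q.eps / 10 ^ 4) 2
    rw [sq_sqrt ν0] at this
    nlinarith [hq.e1]
  have n0 := (exp_pos _).trans_le hq.n0
  have p1 : (10 : ℝ) ^ 9 ≤ (q.P : ℝ) ^ 21 := P9.trans (le_self_pow₀ (by linarith) (by norm_num))
  have p2 : 10 ^ 9 * (q.P : ℝ) ^ 4 ≤ (q.P : ℝ) ^ 200 := hq.par.pow_lt hE.env (by norm_num) le_rfl
  have p3 : 1 ≤ (q.P : ℝ) ^ 4 := one_le_pow₀ (by linarith)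
  have n1 : q.n4 * (q.P : ℝ) ^ 200 ≤ E.η ^ 2 := (le_div_iff₀ (by positivity)).1 (hq.n1.trans hq.n3)
  have n2 : 10 ^ 9 * q.n4 ≤ E.η ^ 2 := by nlinarith
  have n3 : 10 ^ 9 * q.n4 ≤ q.m1 ^ 2 := by nlinarith [hq.m1, hq.n1]
  have n4 : 10 ^ 9 * q.n4 ≤ q.eps := by
    have a : 1 ≤ q.eps * (q.P : ℝ) ^ 4 := (div_le_iff₀ (by positivity)).1 (by linarith [hq.ke, hq.k0])
    refine le_of_mul_le_mul_right ?_ (show 0 < (q.P : ℝ) ^ 4 by positivity)
    nlinarith
  have m0 := hq.m0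
  have H2 : ∀ z, q.H z + q.m1 ≤ q.H2 z := fun z => by
    rw [PPar.H2, hq.nk hl.nw, PPar.H1, PPar.δN, if_pos hl.nw]
    linarith [hq.h2, mul_pos (zero_lt_one.trans_le p3) m0]
  have g0 : q.m1 ≤ q.gam := by linarith [H2 0, hq.H0 0, hq.Hg2 0]
  have g1 : q.gam ^ 4 * 10 ^ 9 ≤ q.n4 := by nlinarith [hq.g1, pow_pos (m0.trans_le g0) 4]
  have g2 : q.gam ^ 2 ≤ q.m1 := le_of_sq_le_sq (by nlinarith) m0.le
  have g3 : q.gam ≤ 1 / 100 := le_of_pow_le_pow_left₀ (n := 4) (by norm_num) (by norm_num)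
    (by nlinarith)
  have g4 := pow_le_pow_left₀ m0.le g0 2
  have R0 : 0 ∈ E.nb2 := by
    by_contra c
    have := hl.t2 0 c
    rw [N1.zero, Nat.cast_zero, neg_zero, zero_div, exp_zero] at this
    nlinarith [hq.e1]
  have L1 : (1 : ℝ) ≤ q.L := hE.La.trans hq.L1
  have d1 : (1 : ℝ) ≤ d := by exact_mod_cast hE.env.d1
  have sh : ∀ (j : ℕ) (k : Tor d M → Tor d M → ℝ) (ν : ℝ), j = 1 ∨ j = 2 → 0 ≤ ν → (∀ v u, 0 ≤ k v u) →
      (∀ v u, k v u = k u v) → (∀ u, ∑ v, k v u * exp (nm (v - u) / (j * q.L)) ≤ ν) →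
      10 ^ 8 * ν ≤ q.eps → (∀ v, ∑ u, k v u ≤ ν) ∧ ∀ F : Tor d M → ℝ,
        ∑ v, ∑ u, k v u * (F u - F v) ^ 2 ≤ (q.C0 * √q.eps / 50) ^ 2 * NF E.p F :=
    fun j k ν hj a0 a1 a2 a3 a4 => by
      have a5 : ∀ v, ∑ u, k v u ≤ ν := fun v => (sum_le_sum fun u _ => (a2 v u).trans_le
        (le_mul_of_one_le_right (a1 u v) (one_le_exp (by positivity)))).trans (a3 v)
      refine ⟨a5, fun F => ?_⟩
      have N0 := NF_nonneg hE.env.ref.p0 F
      have := shift_ker hE.env.d1 (L := j * q.L) (l := d * q.L) (C := q.C0 * NF E.p F)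
        (Nat.mul_pos (by omega) (by exact_mod_cast L1)) (by positivity) a0
        (fun h => (hq.sh h F).trans_eq (by ring)) a1 a5 (by push_cast; exact a3)
      have b : ((d * (2 * (j * q.L)) : ℕ) : ℝ) ^ 2 / ((d : ℝ) * q.L) ^ 2 ≤ 16 := by
        rw [div_le_iff₀ (by positivity)]
        rcases hj with rfl | rfl <;> push_cast <;> nlinarith [sq_nonneg ((d : ℝ) * q.L)]
      refine ((sum_congr rfl fun v _ => sum_congr rfl fun u _ => by rw [sub_sq_comm]).trans_le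
        this).trans ((mul_le_mul_of_nonneg_left (add_le_add_right b 1) (by positivity)).trans ?_)
      rw [div_pow, mul_pow, q1]
      have c := mul_nonneg (zero_le_one.trans C1) N0
      linarith [mul_le_mul_of_nonneg_right a4 c, mul_nonneg c e0.le,
        mul_le_mul_of_nonneg_right C1 (mul_nonneg c e0.le)]
  have k : KOK (E.ker S) := g.smk.kok
  set f : Tor d M → Tor d M → ℝ := fun x y => (if x - y ∈ E.nb2 then 0 else ‖E.Z S x y‖) +
    if x - y ∈ E.nb2 then 0 else ‖al (E.ker S) S.O (om S) x y‖ with hf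
  have f0 : ∀ v u, 0 ≤ f v u := fun v u => by rw [hf]; dsimp only; split_ifs <;> positivity
  have fs : ∀ v u, f v u = f u v := fun v u => by
    rw [hf]; dsimp only
    rw [← transpose_apply (E.Z S), k.Ww_T, ← transpose_apply (al _ _ _), k.al_T]
    simp only [show v - u ∈ E.nb2 ↔ u - v ∈ E.nb2 from
      ⟨fun a => neg_sub v u ▸ hE.s2 _ a, fun a => neg_sub u v ▸ hE.s2 _ a⟩]
  obtain ⟨k1, k2⟩ := sh 2 f (2 * q.n4) (.inr rfl) (by positivity) f0 fs (fun u => by
      simp only [hf, add_mul, sum_add_distrib, Nat.cast_ofNat]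
      exact (add_le_add (far_col (by linarith [hE.La]) hq.L1 (g.smk.wWw S.O (om S)) (by norm_num)
        n0.le hl.t1 u) (far_col (by linarith [hE.La]) hq.L1 (g.smk.wal S.O (om S)) (by norm_num)
        n0.le hl.t1 u)).trans (by linarith)) (by linarith)
  obtain ⟨L, c1, -, c2⟩ := s.pieces g.imb3 0
  have τ2 : 100 * (2 * q.n4) ≤ E.η * q.gam := le_of_sq_le_sq (by
    linarith [mul_le_mul n2 (n3.trans g4) (by positivity) (sq_nonneg _), sq_nonneg q.n4])
    (mul_nonneg η0.le (m0.le.trans g0))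
  have aφ : ∀ x ∈ S.good, ‖al (E.ker S) S.O (om S) x x - phi (E.Z S x x)‖ ≤ q.gam ^ 2 :=
    fun x hx => by
      have a := s.off_far (v := x) (s := -log (q.n4 ^ 2)) fun u hu e => by
        rw [neg_le, ← neg_div, le_log_iff_exp_le (by positivity), N1.comm]
        exact hl.t2 _ (hl.iso ▸ hS.iso x hx u hu e)
      rw [neg_neg, exp_log (by positivity)] at a
      refine (s.aφ' x (mem_union_left _ (mem_union_left _ hx))).trans (a.trans ?_)
      nlinarith [mul_le_mul_of_nonneg_right s.m1 (sq_nonneg q.n4), hq.e1]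
  have η2 : E.η ≤ 2 * κ := by
    have a := Bas.a_lo hE hε S.O (om S) 0
    rw [aP, le_div_iff₀ η0] at a
    linarith [(Complex.im_le_norm _).trans ((s.al0 0 0).trans (s.al1 0))]
  have h : CvH E q.toPar q.b0 S E.nb2 f (2 * q.n4) (q.C0 * √q.eps / 50) q.gam :=
    ⟨hE.env, hq.par, hq.fin, hS, Bas.smk hE hq hε, Bas.unit hE hq hε _ _,
      OpLe.mono (Bas.lamW hE hq hε _ _) (mul_le_mul_of_nonneg_right (by nlinarith) η0.le),
      fun x _ => g.a1 _ _ x, fun x hx => (s.z1 x hx).trans (by linarith), aφ,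
      ⟨L, D, fun x y => (congrFun (congrFun c1 x) y).trans (sum_apply _ _ _ _),
        fun v hv => (c2 v hv).mono (by linarith), s.D0, s.dcol', (sh 1 D ν1 (.inl rfl) ν0 s.D0 s.Dsy
          (fun u => le_trans (sum_le_sum fun v _ => mul_le_mul_of_nonneg_left (exp_le_exp.2 (by
            simpa using N1.div_le (by linarith) one_pos.le (one_mul (q.L : ℝ)).le (v - u)))
            (s.D0 v u)) (s.tot.col u)) (by linarith)).2⟩,
      hE.σ, by linarith, by linarith [hl.θ, hl.θ1, hq.par.θ0], R0, hE.s2, hl.rH, hl.iso.ge, f0, fs,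
      k1, fun x y a => by simp [hf, a], fun x y a => by simp [hf, a], k2, hS.dec, by linarith, τ2,
      by linarith, hq.n0.trans (by nlinarith), g3,
      show q.H 0 ≤ _ by nlinarith [H2 0, hq.Hη2, hq.e1],
      fun z => show q.H z ≤ _ by linarith [H2 z, hq.Hg2 z]⟩
  have nr : ∀ x ∈ nearJ S (q.D E.η 0), ∃ y ∈ S.junk, nm (y - x) ≤ q.D E.η 0 := fun x hx =>
    (mem_filter.1 hx).2.imp fun y a => ⟨a.1, nm_comm x y ▸ a.2⟩
  refine ⟨conv E S E.nb2 (q.D E.η 0), (conv_U _ _ _ _).trans sdiff_subset, rfl,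
    t_mono d M _ _ _ _ (h.conv_inv hq.par.θ0 (hq.par.θ_le.trans (by norm_num)) (hq.gt.trans hl.gs))
      (le_trans (by simp only [bdC, PPar.b0]; linarith [mul_nonneg (zero_le_one.trans C1) q0]) hl.θ)
      (le_trans (by simp only [bdC, PPar.b0, hl.nw, if_true]; linarith) hl.mis)
      (le_trans (by simp only [bdC]; linarith [sq_nonneg q.gam]) hl.aA)
      (le_trans (by simp only [bdC, PPar.b0]; linarith [pow_pos (m0.trans_le g0) 4]) hl.nA) le_rfl
      ((hq.par.Bi_mono (by norm_num)).trans hl.B) (hq.par.li_one hE.env 1)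
      ((hq.par.li_mono hE.env (by norm_num)).trans hl.l) hl.fin (fun c => by simp [hl.chk] at c)
      hE.env.ref.p0, fun ϖ => h.conv_cons, fun c x hx => ?_, fun o a b => nr o (by
        by_contra c
        exact b (mem_sdiff.2 ⟨hS.oΩ ▸ a, c⟩))⟩
  by_cases a : x ∈ nearJ S (q.D E.η 0)
  · exact nr x a
  obtain ⟨b1, b2⟩ := mem_sdiff.1 hx
  rw [cvT, if_pos (by exact c), ← union_sdiff_distrib, mem_sdiff, and_iff_left a] at b2
  exact ⟨x, (mem_union.1 b1).resolve_left b2, by rw [nm_self]; exact Nat.zero_le _⟩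

end Pool.Agent.P.MP_d0f69c_mp.XS.Pre
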