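import Pool.Agent.P.MP_d0f69c_mp.XS.PIfG

/-!
The comparison of the forms passes through the closing phase.
-/

set_option autoImplicit false

open Finset Real
open scoped Matrix

namespace Pool.Agent.P.MP_d0f69c_mp.XS.Pre

namespace PG5

section generic

variable {ι : Type} [DecidableEq ι]

/-- telescoping of the energy -/
theorem tel {O Z : Finset ι} {κ : ι → ℕ} (hκ : Function.Injective κ) (hZ : Z ⊆ O)
    (K : Finset ι → ι → ι → ℝ) (sy : ∀ X x y, K X x y = K X y x) (F : ι → ℝ) (t : ℕ) :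
    En (O \ pre κ Z t) (K (pre κ Z t)) F = En O (K ∅) F + ∑ v ∈ pre κ Z t,
      (En ((O \ pre κ Z (κ v)).erase v)
        (fun x y => K (insert v (pre κ Z (κ v))) x y - K (pre κ Z (κ v)) x y) F -
      ∑ x ∈ (O \ pre κ Z (κ v)).erase v, K (pre κ Z (κ v)) x v * (F x - F v) ^ 2) := by
  induction t with
  | zero => simp [pre_zero]
  | succ t ih =>
    by_cases hv : ∃ v ∈ Z, κ v = t
    swap
    · rwa [pre_succ' (κ := κ) (Z := Z) (t := t) fun v a b => hv ⟨v, a, b⟩]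
    obtain ⟨v, hv, rfl⟩ := hv
    rw [pre_succ hκ hv, sum_insert (not_mem_pre v), sdiff_insert, En_sub,
      add_left_comm, ← ih, En_erase (sy _) (mem_sdiff.2 ⟨hZ hv, not_mem_pre v⟩)]
    simp only [sy _ v]
    ring

/-- backward harmonic extension -/
theorem harm (κ : ι → ℕ) (N : ι → Finset ι) (k : ι → ι → ℝ) (f : ι → ℝ) (Z : Finset ι) :
    (∀ v ∈ Z, ∀ x ∈ N v, 0 ≤ k v x) → (∀ v ∈ Z, ∀ x ∈ N v, x ∈ Z → κ v < κ x) →
    ∃ g : ι → ℝ, (∀ x ∉ Z, g x = f x) ∧ ∀ v ∈ Z, ∑ x ∈ N v, k v x * (g v - g x) = 0 := by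
  refine Finset.induction_on_min_value κ Z (fun _ _ => ⟨f, fun _ _ => rfl, by simp⟩) ?_
  intro a s ha hm ih k0 hN
  obtain ⟨g, g1, g2⟩ := ih (fun v hv => k0 v (mem_insert_of_mem hv))
    fun v hv x hx hs => hN v (mem_insert_of_mem hv) x hx (mem_insert_of_mem hs)
  have na : ∀ v ∈ insert a s, ∀ x ∈ N v, x ≠ a := fun v hv x hx e => by
    have := hN v hv x hx (e ▸ mem_insert_self a s)
    rcases mem_insert.1 hv with c | c
    · rw [c, e] at this; exact lt_irrefl _ this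
    · rw [e] at this; exact absurd (hm v c) (not_le.2 this)
  refine ⟨Function.update g a ((∑ x ∈ N a, k a x * g x) / ∑ x ∈ N a, k a x), fun x hx => ?_,
    fun v hv => ?_⟩
  · rw [Function.update_of_ne (ne_of_mem_of_not_mem (mem_insert_self a s) hx).symm]
    exact g1 x fun c => hx (mem_insert_of_mem c)
  rw [sum_congr rfl fun x hx => by rw [Function.update_of_ne (na v hv x hx)]]
  rcases mem_insert.1 hv with c | c
  · rw [c, Function.update_self]
    by_cases z : ∑ x ∈ N a, k a x = 0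
    · exact sum_eq_zero fun x hx => by
        rw [(sum_eq_zero_iff_of_nonneg (k0 a (mem_insert_self a s))).1 z x hx, zero_mul]
    · simp only [mul_sub, sum_sub_distrib, ← sum_mul]
      rw [mul_div_cancel₀ _ z, sub_self]
  · rw [Function.update_of_ne (ne_of_mem_of_not_mem c ha)]
    exact g2 v c

omit [DecidableEq ι] in
theorem en_wt {O : Finset ι} {a w : ι → ℝ} {c c' : ℝ} (G : Matrix ι ι ℂ) (F : ι → ℝ)
    (h : ∀ x ∈ O, 0 ≤ c * w x ∧ c * w x ≤ c' * a x) :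
    c ^ 2 * En O (Kw w G) F ≤ c' ^ 2 * En O (Kw a G) F := by
  simp only [En, ← mul_div_assoc, mul_sum]
  refine div_le_div_of_nonneg_right (sum_le_sum fun x hx => sum_le_sum fun y hy => ?_) zero_le_two
  have := mul_le_mul_of_nonneg_right (mul_le_mul (h x hx).2 (h y hy).2 (h y hy).1
    ((h x hx).1.trans (h x hx).2)) (by positivity : 0 ≤ ‖G x y‖ ^ 2 * (F x - F y) ^ 2)
  unfold Kw
  linarith

end generic

variable {d M : ℕ} [NeZero M]

/-- a relative change of the weights -/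
theorem ul_wt {p : Tor d M → ℝ} (hp : ∀ x, 0 ≤ p x) {O : Finset (Tor d M)} {a w : Tor d M → ℝ}
    {G : Matrix (Tor d M) (Tor d M) ℂ} {θ s : ℝ} (h : UL p (Kw a G) O θ) (θ0 : 0 ≤ θ) (s0 : 0 ≤ s)
    (s1 : s ≤ 1) (a0 : ∀ x ∈ O, 0 ≤ a x) (hw : ∀ x ∈ O, |w x - a x| ≤ s * a x) :
    UL p (Kw w G) O (θ + 3 * s * (1 + θ)) := by
  have b : ∀ x ∈ O, 0 ≤ (1 - s) * a x := fun x hx => mul_nonneg (by linarith) (a0 x hx)
  refine ⟨fun F => ?_, fun f => ?_⟩
  · have c := en_wt (c := 1) (c' := 1 + s) (a := a) (w := w) G F fun x hx =>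
      ⟨by linarith [b x hx, (abs_le.1 (hw x hx)).1], by linarith [(abs_le.1 (hw x hx)).2]⟩
    have e := mul_le_mul_of_nonneg_left (h.1 F) (sq_nonneg (1 + s))
    have f := mul_nonneg (mul_nonneg (mul_nonneg s0 (sub_nonneg.2 s1)) (by linarith : 0 ≤ 1 + θ))
      (NF_nonneg hp F)
    linarith
  · obtain ⟨F, a1, a2⟩ := h.2 f
    have c := en_wt (c := 1 - s) (c' := 1) (a := w) (w := a) G f fun x hx =>
      ⟨b x hx, by linarith [(abs_le.1 (hw x hx)).1]⟩
    have e := mul_le_mul_of_nonneg_left a2 (sq_nonneg (1 - s))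
    have g : 0 ≤ s * (1 + s + θ * (5 - s)) := mul_nonneg s0 (by nlinarith)
    exact ⟨F, a1, by linarith [mul_nonneg g (NF_nonneg hp F)]⟩

theorem ul_mono {p : Tor d M → ℝ} (hp : ∀ x, 0 ≤ p x) {O : Finset (Tor d M)}
    {K : Tor d M → Tor d M → ℝ} {θ θ' : ℝ} (h : UL p K O θ) (e : θ ≤ θ') : UL p K O θ' :=
  ⟨fun F => (h.1 F).trans (mul_le_mul_of_nonneg_right (by linarith) (NF_nonneg hp F)), fun f =>
    (h.2 f).imp fun F a => ⟨a.1, (mul_le_mul_of_nonneg_right (by linarith)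
      (NF_nonneg hp F)).trans a.2⟩⟩

variable {E : PEnv d M} {q : PPar d M} {S : St (Tor d M)} {J : Finset (Tor d M)}
  {ω : Tor d M → Bool} {κ : Tor d M → ℕ}

theorem Kt0 (h : PGH E q S J ω κ) (τ : Bool) (Z X : Finset (Tor d M)) {x y : Tor d M}
    (hx : x ∈ S.O) (hy : y ∈ S.O) : 0 ≤ Kt E q S τ Z X ω x y :=
  mul_nonneg (mul_nonneg (by linarith [(h.wt_le τ (Z \ X) hx).1])
    (by linarith [(h.wt_le τ (Z \ X) hy).1])) (sq_nonneg _)

theorem Sv_sub (X : Finset (Tor d M)) (v : Tor d M) : Sv E q S X v ⊆ (S.O \ X).erase v :=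
  erase_subset_erase _ inter_subset_left

/-- the signed change of the energy -/
theorem chg (h : PGH E q S J ω κ) (h3 : S_PG3) (h4 : S_PG4) (gd : PGD E q S J ω κ)
    (gc : PGC E q S J ω κ) (τ : Bool) (F : Tor d M → ℝ)
    (hF : τ = false → ∀ v ∈ Zg S J, ∑ x ∈ Sv E q S (Xv S J κ v) v,
      Kt E q S τ (Zg S J) (Xv S J κ v) ω x v * (F v - F x) = 0) :
    sr τ * (En (S.O \ Zg S J) (Kw (E.a0 S) (E.G S (Zg S J) ω)) F -
      En S.O (Kw (wt E q S τ (Zg S J)) (E.G0 S)) F) ≤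
      (30 * q.eps * q.C0 + 4 / (q.P : ℝ) ^ 3) * NF E.p F := by
  have zO : Zg S J ⊆ S.O := (Zg_sub S J).trans S.good_sub
  have t := tel h.inj zO (fun X => Kt E q S τ (Zg S J) X ω) (fun X x y => by
    simp only [Kt, Kw, h.G_symm X x y, mul_comm (wt E q S τ _ x)]) F (univ.sup κ + 1)
  have e1 : wt E q S τ ∅ = E.a0 S := funext fun u => by simp [wt]
  simp only [pre_end] at t
  rw [Kt, Kt, sdiff_self, bot_eq_empty, e1, sdiff_empty, G_empty] at t
  have a3 := h3 d M E q S J ω κ h gd gc τ F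
  obtain ⟨a4, a5⟩ := h4 d M E q S J ω κ h gd gc τ F
  have a6 : ∑ v ∈ Zg S J, ∑ x, q.Kk (x - v) * (F x - F v) ^ 2 ≤ q.C0 * NF E.p F :=
    (sum_le_sum_of_subset_of_nonneg (subset_univ _) fun v _ _ => sum_nonneg fun x _ =>
      mul_nonneg (h.K0 _) (sq_nonneg _)).trans (h.KC F)
  have a7 := mul_le_mul_of_nonneg_left a6 (mul_nonneg (by norm_num : (0 : ℝ) ≤ 30) h.e0)
  rw [t, add_sub_cancel_left, mul_sum]
  rw [mul_sum] at a7
  refine le_trans ?_ (le_trans (add_le_add (add_le_add a3 a7) (add_le_add a4 a5))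
    (le_of_eq (by ring)))
  simp only [← sum_add_distrib]
  refine sum_le_sum fun v hv => ?_
  have b1 : 0 ≤ ∑ x ∈ (S.O \ Xv S J κ v).erase v \ Sv E q S (Xv S J κ v) v,
      Kt E q S τ (Zg S J) (Xv S J κ v) ω x v * (F x - F v) ^ 2 := sum_nonneg fun x hx =>
    mul_nonneg (Kt0 h τ _ _ (mem_sdiff.1 (mem_of_mem_erase (mem_sdiff.1 hx).1)).1 (zO hv))
      (sq_nonneg _)
  have b2 := abs_le.1 (le_refl |En ((S.O \ Xv S J κ v).erase v) (dKt E q S J ω κ τ v) F -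
    En (Sv E q S (Xv S J κ v) v) (dKt E q S J ω κ τ v) F|)
  rw [← sum_sdiff (Sv_sub (E := E) (q := q) (pre κ (Zg S J) (κ v)) v), Y5P]
  cases τ
  · rw [hF rfl v hv]
    simp only [sr, Bool.false_eq_true, if_false]
    linarith [b2.1]
  · simp only [sr, if_true]
    linarith [b2.2]

/-- the comparison at the end, with the old weights -/
theorem ul_end (h : PGH E q S J ω κ) (h3 : S_PG3) (h4 : S_PG4) (gd : PGD E q S J ω κ)
    (gc : PGC E q S J ω κ) : UL E.p (Kw (E.a0 S) (E.G S (Zg S J) ω)) (S.O \ Zg S J)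
      ((q.b1 E.η).θ + 7 * q.sig + (30 * q.eps * q.C0 + 4 / (q.P : ℝ) ^ 3)) := by
  have hp := h.hE.ref.p0
  have hP := h.hq.Ppos h.hE
  have s0 : 0 ≤ q.sig := mul_nonneg (by norm_num) h.e0
  have s1 : q.sig ≤ 1 / 10 ^ 7 := by rw [PPar.sig]; linarith [h.e1]
  have t1 : (q.b1 E.η).θ ≤ 1 / 10 ^ 7 := h.hq.θ_add h.hE (c := 1) (by norm_num)
  have t0 : 0 ≤ (q.b1 E.η).θ := add_nonneg h.hq.θ0 (by positivity)
  have u : ∀ τ, UL E.p (Kw (wt E q S τ (Zg S J)) (E.G0 S)) S.O ((q.b1 E.η).θ + 7 * q.sig) :=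
    fun τ => by
    have a0 : ∀ x ∈ S.O, 0 ≤ E.a0 S x := fun x hx => by linarith [(abs_le.1 (h.a1 x hx)).1]
    refine ul_mono hp (ul_wt hp h.inv.ul t0 (s := 2001 / 2000 * q.sig) (by positivity)
      (by linarith) a0 fun x hx => ?_) (by nlinarith)
    rw [wt, mul_one_add, add_sub_cancel_left, abs_mul, abs_of_nonneg (a0 x hx), mul_comm]
    exact mul_le_mul_of_nonneg_right (h.sr_le τ _ x) (a0 x hx)
  refine ⟨fun F => ?_, fun f => ?_⟩
  · have a := chg h h3 h4 gd gc true F (by simp)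
    simp only [sr, if_true] at a
    linarith [(u true).1 F]
  obtain ⟨g, g1, g2⟩ := harm κ (fun v => Sv E q S (Xv S J κ v) v)
    (fun v x => Kt E q S false (Zg S J) (Xv S J κ v) ω x v) f (Zg S J)
    (fun v hv x hx => Kt0 h _ _ _ (mem_sdiff.1 (mem_of_mem_erase (Sv_sub _ _ hx))).1
      (S.good_sub (Zg_sub S J hv))) fun v hv x hx hz => by
      have c := mem_erase.1 (Sv_sub _ _ hx)
      exact lt_of_le_of_ne (not_lt.1 fun a => (mem_sdiff.1 c.2).2 (mem_pre.2 ⟨hz, a⟩))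
        fun a => c.1 (h.inj a).symm
  obtain ⟨F, a1, a2⟩ := (u false).2 g
  have e : ∀ x ∈ S.O \ Zg S J, F x = f x := fun x hx =>
    (a1 x (mem_sdiff.1 hx).1).trans (g1 x (mem_sdiff.1 hx).2)
  have a := chg h h3 h4 gd gc false F fun _ v hv => (sum_congr rfl fun x hx => by
    rw [a1 v (S.good_sub (Zg_sub S J hv)),
      a1 x (mem_sdiff.1 (mem_of_mem_erase (Sv_sub _ _ hx))).1]).trans (g2 v hv)
  simp only [sr, Bool.false_eq_true, if_false] at a
  rw [En_congr _ e, En_congr _ a1] at a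
  exact ⟨F, e, by linarith⟩

end PG5

end Pool.Agent.P.MP_d0f69c_mp.XS.Pre
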