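import Pool.Agent.P.MP_d0f69c_mp.XS.PIf
import Pool.Agent.P.MP_d0f69c_mp.XS.PN1
import Pool.Agent.P.MP_d0f69c_mp.XS.PG5
import Pool.Agent.P.MP_d0f69c_mp.XS.PStat2

/-!
The initial state and the near kernels of the schedule of the preparation stage.
-/

set_option autoImplicit false

open Finset Real
open scoped Matrix

namespace Pool.Agent.P.MP_d0f69c_mp.XS.Pre

variable {d M : ℕ} [NeZero M]

theorem Nb_card (nb : Finset (Tor d M)) (y : Tor d M) : (Nb nb y).card = nb.card :=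
  card_equiv (Equiv.subRight y) fun z => by simp [Nb]

/-- the invariant holds when nothing is revealed -/
theorem pinit {E : PEnv d M} {b : PB d M} {C : ℝ} {k e l1 : ℕ} (hE : E.OK)
    (h : RefB E.H E.η C E.A0 E.p E.gt k e l1) (l0 : 1 ≤ l1) (C0 : 0 ≤ C) (t0 : C / d ≤ b.θ)
    (t1 : C ≤ d) (mis : E.η / (d : ℝ) ^ e ≤ b.mis)
    (hn : ∀ z, n1 z ≤ k → E.η / (d : ℝ) ^ e ≤ b.H z)
    (hf : ∀ z, k < n1 z → E.η * (d : ℝ) ^ 3 ≤ b.H z) (n : E.η ^ 2 / (d : ℝ) ^ e ≤ b.n)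
    (nJ : E.η ^ 2 / (d : ℝ) ^ e ≤ b.nJ) (B : 1 / E.η ^ 2 ≤ b.B) (l : l1 ≤ b.l) (sg : 0 ≤ b.sg)
    (c1 : (E.nb1.card : ℝ) ≤ b.l1) (v1 : E.Lv ≤ 4 * b.l1) (c2 : (E.nb2.card : ℝ) ≤ b.l2)
    (v2 : E.Lv ≤ 4 * b.l2) (iso : b.iso = ∅) : PInv E b (St0 E) := by
  have eO : (St0 E).O = univ := by simp [St.O, St0]
  have eK : E.ker (St0 E) = E.A0 := by simp [PEnv.ker, St0]
  have eo : om (St0 E) = fun _ => false := by funext x; simp [om, St0]
  have eG : E.G0 (St0 E) = GP E.H E.A0 univ fun _ => false := by rw [PEnv.G0, eO, eK, eo]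
  have eΓ : E.Γ0 (St0 E) = Gm E.H E.A0 univ fun _ => false := by rw [PEnv.Γ0, eO, eK, eo]
  have ea : E.a0 (St0 E) = aP E.η E.A0 univ fun _ => false := by rw [PEnv.a0, eO, eK, eo]
  refine ⟨sdiff_disjoint, disjoint_empty_right _, disjoint_empty_right _, rfl,
    fun x => by simpa [St0] using sg, ?_, ?_, ?_, ?_, ?_, ?_, ?_,
    Lev.init (fun y => by rwa [Nb_card]) v1, Lev.init (fun y => by rwa [Nb_card]) v2,
    fun _ _ _ _ _ => by simp [iso]⟩
  · rw [eΓ]; exact fun x _ => (h.near x x (by simp [N1.zero])).trans mis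
  · rw [eΓ]
    exact fun x _ y _ => (le_or_gt (n1 (x - y)) k).elim (fun c => (h.near x y c).trans (hn _ c))
      fun c => (h.sup x y).trans (hf _ c)
  · rw [eΓ]
    exact fun x _ => (sum_le_univ_sum_of_nonneg fun _ => by positivity).trans ((h.l4 x).trans n)
  · rw [eΓ, eO]; exact fun x _ => (h.l4 x).trans nJ
  · rw [eG, ea, eO]; exact PG5.ul_mono hE.env.ref.p0 h.ul t0
  · rw [eG]
    exact (h.rr.compress (by positivity) (div_le_one_of_le₀ t1 (Nat.cast_nonneg _))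
      (subset_univ _)).mono t0
  · rw [eG, eO]
    refine fun x hx z => (h.dec x hx z).trans (mul_le_mul B (exp_le_exp.2 ?_) (exp_pos _).le
      (le_trans (by positivity) B))
    rw [neg_div, neg_div, neg_le_neg_iff]
    exact div_le_div_of_nonneg_left (Nat.cast_nonneg _) (by exact_mod_cast l0) (by exact_mod_cast l)

/-- the near kernel as a function of the difference -/
noncomputable def Kz (l : Lv) (a : Matrix (Tor d M) (Tor d M) ℝ) (z : Tor d M) : ℝ := Kn l a z 0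

variable {l : Lv} {a : Matrix (Tor d M) (Tor d M) ℝ} {A : Matrix (Tor d M) (Tor d M) ℂ}
  {q : PPar d M}

section near

variable (g : Geo (fun x y => n1 (x - y)) l a) (ht : ∀ x y z, a (x + z) (y + z) = a x y)
include g

theorem Kz_nn (z : Tor d M) : 0 ≤ Kz l a z := (t_kn _ _ l a g).2.2.1.nn z 0

theorem Kz_zero : Kz l a 0 = 0 := (t_kn _ _ l a g).2.1 0

theorem Kz_sum : ∑ z, Kz l a z ≤ 1 := by simpa [Kz] using (t_kn _ _ l a g).2.2.1.col 0

theorem Kz_rg {z : Tor d M} (h : Kz l a z ≠ 0) : n1 z ≤ l.ks := by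
  simpa using (t_kn _ _ l a g).2.2.2.1 z 0 h

/-- the near kernel is paid by the reference form -/
theorem Kz_form {p : Tor d M → ℝ} {C R : ℝ} (hp : ∀ x, 0 ≤ p x) (hC : 0 ≤ C) (hR : (l.ks : ℝ) ≤ R)
    (h : ∀ (h : Tor d M) (F : Tor d M → ℝ), ∑ x, (F (x + h) - F x) ^ 2 ≤
      C * (1 + (nm h : ℝ) ^ 2 / R ^ 2) * NF p F) (F : Tor d M → ℝ) :
    ∑ v, ∑ x, Kz l a (x - v) * (F x - F v) ^ 2 ≤ 2 * C * NF p F := by
  have e : ∑ v, ∑ x, Kz l a (x - v) * (F x - F v) ^ 2 =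
      ∑ z, Kz l a z * ∑ v, (F (v + z) - F v) ^ 2 := by
    simp only [mul_sum]
    rw [sum_comm (f := fun z v => Kz l a z * (F (v + z) - F v) ^ 2)]
    exact sum_congr rfl fun v _ => (Fintype.sum_equiv (Equiv.addLeft v) _ _ fun z => by simp).symm
  have n0 := NF_nonneg hp F
  rw [e]
  refine (sum_le_sum (g := fun z => Kz l a z * (2 * C * NF p F)) fun z _ => ?_).trans ?_
  · by_cases c : Kz l a z = 0
    · simp [c]
    refine mul_le_mul_of_nonneg_left ((h z F).trans (mul_le_mul_of_nonneg_right ?_ n0)) (Kz_nn g z)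
    have : (nm z : ℝ) ≤ R := le_trans (by exact_mod_cast (N1.nm_le z).trans (Kz_rg g c)) hR
    nlinarith [div_le_one_of_le₀ (pow_le_pow_left₀ (Nat.cast_nonneg _) this 2) (sq_nonneg _)]
  · rw [← sum_mul]
    exact mul_le_of_le_one_left (by positivity) (Kz_sum g)

include ht

theorem Kz_eq (x y : Tor d M) : Kn l a x y = Kz l a (x - y) := by
  simpa [Kz] using (t_kn _ _ l a g).2.2.2.2 (Equiv.addRight y) (fun x z => ht x z y) (x - y) 0

theorem Kz_neg (z : Tor d M) : Kz l a (-z) = Kz l a z := by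
  rw [← zero_sub, ← Kz_eq g ht]
  exact congrFun (congrFun (t_kn _ _ l a g).1 z) 0

end near

/-- the rounds with a near kernel -/
theorem stU_early (h : Ker (fun x y => n1 (x - y)) l a A)
    (ht : ∀ x y z, a (x + z) (y + z) = a x y) (hL : q.L = l.L) (hK : q.Kk = Kz l a)
    (hκ : 30 * l.e ≤ q.kap) (hν : 200000 * l.ν ≤ q.nu)
    (he : 10 ^ 4 * (√(1000 * l.n0) + 9 * l.e ^ 2) ≤ q.eps) : q.StU A :=
  ⟨Kn l a, l.κ, l.ν1, l.ν2, (t_kn _ _ l a h.geo).1, mul_pos three_pos h.geo.ok.e0,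
    by rw [Lv.ν2]; linarith, by rw [Lv.ν1, Lv.κ]; linarith, fun v u _ => Or.inr
      ⟨by rw [Lv.κ]; linarith, by rw [hK, Kz_eq h.geo ht, ← neg_sub, Kz_neg h.geo ht]⟩,
    hL ▸ t_stat _ _ l a A h⟩

/-- the rounds after the isolation -/
theorem stU_late (h : Ker (fun x y => n1 (x - y)) l a A) (hL : q.L = l.L)
    (hi : ∀ z, n1 z ≤ l.ks → z ∈ q.iso) (hν : 200000 * l.ν ≤ q.nu)
    (he : 10 ^ 4 * (√(1000 * l.n0) + 9 * l.e ^ 2) ≤ q.eps) : q.StU A :=
  ⟨Kn l a, l.κ, l.ν1, l.ν2, (t_kn _ _ l a h.geo).1, mul_pos three_pos h.geo.ok.e0,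
    by rw [Lv.ν2]; linarith, by rw [Lv.ν1, Lv.κ]; linarith, fun v u c => Or.inl (c.elim
      (fun c => c ▸ (t_kn _ _ l a h.geo).2.1 u) fun c => by_contra fun n => c (hi _
        ((N1.comm u v).trans_le ((t_kn _ _ l a h.geo).2.2.2.1 v u n)))),
    hL ▸ t_stat _ _ l a A h⟩

end Pool.Agent.P.MP_d0f69c_mp.XS.Pre
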