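import Pool.Agent.P.MP_d0f69c_mp.XS.Ref2

/-!
Reference block: weighted averages of the inverse symbol.
-/

set_option autoImplicit false

open Finset Real

namespace Pool.Agent.P.MP_d0f69c_mp.XS.Rf

open Ref

variable {d M : ℕ} [NeZero M] {θ η ω b K : ℝ} {ζ : Tor d M → ℂ}

/-- the inverse symbol -/
noncomputable abbrev Gs (b : ℝ) (ζ : Tor d M → ℂ) (q : Tor d M) : ℂ := (Yw b (fun _ => 1) ζ q)⁻¹

/-- the truncated tilt -/
noncomputable def Wg (θ b : ℝ) (q : Tor d M) : ℝ := exp (min 0 (θ * (R1 q - b)))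

theorem Wg_pos (q : Tor d M) : 0 < Wg θ b q := exp_pos _

theorem Wg_le_one (q : Tor d M) : Wg θ b q ≤ 1 := exp_le_one_iff.2 (min_le_left _ _)

theorem Wg_le (q : Tor d M) : Wg θ b q ≤ exp (θ * (R1 q - b)) := exp_le_exp.2 (min_le_right _ _)

theorem Wg_neg (q : Tor d M) : Wg θ b (-q) = Wg θ b q := by rw [Wg, Wg, R1_neg]

theorem av_Wg (h0 : 0 ≤ θ) : av (Wg (d := d) (M := M) θ b) ≤ Nt d M θ b := by
  refine (av_mono fun q => (Wg_le q).trans (show _ ≤ exp (-(θ * (b - 2))) * exp (θ * R1 q) by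
    rw [← exp_add, exp_le_exp]; linarith)).trans_eq ?_
  rw [av_mul, av_tilt, Nt, mul_comm]

theorem exp_lip {x y t : ℝ} (h : |y - x| ≤ t / 2) (ht : t ≤ 1) : |exp y - exp x| ≤ t * exp x := by
  have e : exp y - exp x = (exp (y - x) - 1) * exp x := by rw [sub_mul, ← exp_add]; ring_nf
  rw [e, abs_mul, abs_of_pos (exp_pos x)]
  exact mul_le_mul_of_nonneg_right ((abs_exp_sub_one_le (by linarith)).trans (by linarith))
    (exp_pos _).le

theorem min_lip (h3 : 3 ≤ M) (h0 : 0 ≤ θ) (h1 : θ ≤ 1 / 8) (q : Tor d M) (j : Fin d) :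
    |min 0 (θ * (R1 (q + Pi.single j 1) - b)) - min 0 (θ * (R1 q - b))| ≤ tau M / 4 := by
  refine (abs_min_sub_min_le_max _ _ _ _).trans (max_le (by simp [(tau_pos h3).le, div_nonneg]) ?_)
  have a := abs_cw (rot M 1) (q j)
  rw [norm_rot h3, norm_one] at a
  rw [← mul_sub, sub_sub_sub_cancel_right, Rw_succ h3, abs_mul, abs_mul, abs_of_nonneg h0,
    abs_of_pos (tau_pos h3)]
  nlinarith [mul_le_mul h1 (mul_le_mul_of_nonneg_left a (tau_pos h3).le)
    (mul_nonneg (tau_pos h3).le (abs_nonneg _)) (by norm_num)]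

theorem s2_le (hd : 100 ≤ d) (hb : |b| ≤ 2 * d) (h0 : 0 ≤ θ) (h1 : θ ≤ 1 / 1000) (q : Tor d M) :
    0 ≤ s2 b q ∧ s2 b q ≤ 2 * Wg θ b q := by
  have Q := Qs_mem hb q
  have d0 : (100 : ℝ) ≤ d := by exact_mod_cast hd
  refine ⟨pow_nonneg Q.1 _, ?_⟩
  rcases min_choice 0 (θ * (R1 q - b)) with c | c <;> rw [Wg, c]
  · linarith [pow_le_one₀ (n := nn d) Q.1 Q.2, exp_zero, s2.eq_1 b q]
  have n1 : (d : ℝ) ^ 2 / 5000 ≤ nn d := by
    have : d ^ 2 < 2500 * (nn d + 1) := Nat.lt_mul_div_succ _ (by norm_num)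
    have : (d : ℝ) ^ 2 < 2500 * (nn d + 1) := by exact_mod_cast this
    nlinarith
  have a : s2 b q ≤ exp (-(Xs b q ^ 2 / (4 * d) ^ 2)) ^ nn d :=
    pow_le_pow_left₀ Q.1 (by linarith [add_one_le_exp (-(Xs b q ^ 2 / (4 * d) ^ 2)), Qs.eq_1 b q]) _
  refine a.trans (le_trans ?_ (mul_le_mul_of_nonneg_right (show exp (1 / 2) ≤ 2 by
    linarith [(abs_le.1 (abs_exp_sub_one_le (x := 1 / 2) (by norm_num [abs_le]))).2,
      abs_of_pos (one_half_pos (α := ℝ))]) (exp_pos _).le))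
  rw [← exp_nat_mul, ← exp_add, exp_le_exp]
  have e : Xs b q ^ 2 / 80000 = (d : ℝ) ^ 2 / 5000 * (Xs b q ^ 2 / (4 * d) ^ 2) := by
    field_simp
    ring
  have := mul_le_mul_of_nonneg_right n1 (show 0 ≤ Xs b q ^ 2 / (4 * d) ^ 2 by positivity)
  rw [← e] at this
  rw [show R1 q - b = -Xs b q by rw [Xs]; ring]
  nlinarith [sq_nonneg (Xs b q - 40000 * θ)]

theorem NumH.eta_pow (h : NumH d M θ b η K) :
    exp (-(d : ℝ) / 512) ≤ η ^ 10 * exp (-(θ ^ 2 * d / 5)) := by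
  refine le_trans ?_ (mul_le_mul_of_nonneg_right (pow_le_pow_left₀ (exp_pos _).le h.η0 10)
    (exp_pos _).le)
  rw [← exp_nat_mul, ← exp_add, exp_le_exp]
  push_cast
  nlinarith [mul_le_mul_of_nonneg_right (pow_le_pow_left₀ h.θ0.le h.θ1 2) (Nat.cast_nonneg (α := ℝ) d)]

theorem NumH.tiny (h : NumH d M θ b η K) : exp (-(d : ℝ) / 512) ≤ η ^ 10 / (10 ^ 4 * d ^ 2) := by
  have d1 : (1 : ℝ) ≤ d := by exact_mod_cast h.d1
  rw [div_eq_mul_inv]
  refine h.eta_pow.trans (mul_le_mul_of_nonneg_left ?_ (by positivity))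
  rw [exp_neg]
  exact inv_anti₀ (by positivity) (le_trans (by nlinarith [h.K1, sq_nonneg (d : ℝ)]) h.big)

/-- the mean square is small when `η` is large -/
theorem SyH.sq_up (h : SyH η ω ζ) (hn : NumH d M θ b η K) :
    av (fun q => ‖Gs b ζ q‖ ^ 2) ≤ 3 / 10 + 1000 * Nt d M θ b / η := by
  have η0 := h.η0
  have d0 : (128 : ℝ) ≤ d := by exact_mod_cast h.hd
  have θ0 := hn.θ0
  have θ1 := hn.θ1
  have k := h.wcount (b := b) (w := fun _ => 1) (by simp) (by simp; linarith) (atan_deriv η0)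
    (atan_lip η0) (by positivity) (Γ := 1 / η)
    (fun x => ⟨by positivity, by
      rw [div_le_div_iff₀ (by positivity) η0]; nlinarith [sq_nonneg x]⟩)
    (Φ := Wg θ b) (B := 1) (fun q => ⟨(Wg_pos q).le, Wg_le_one q⟩)
    fun q j => exp_lip ((min_lip h.M3 θ0.le (by linarith) q j).trans
      (by linarith [tau_pos h.M3])) (by linarith [h.tau_le'])
  have k0 := av_Wg (d := d) (M := M) (b := b) θ0.le
  have k1 : av (fun q => Wg θ b q * |π / 2 - arctan ((Yw b (fun _ => 1) ζ q).re / η)|) ≤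
      π * av (Wg (d := d) (M := M) θ b) := by
    rw [← av_mul]
    refine av_mono fun q => ?_
    rw [abs_of_pos (atan_pos _).1, mul_comm]
    exact mul_le_mul_of_nonneg_right (atan_pos _).2.le (Wg_pos q).le
  have k2 : av (fun q => ‖Gs b ζ q‖ ^ 2) ≤ 1 / 4 +
      8 / η * av fun q => Wg θ b q * (η / ((Yw b (fun _ => 1) ζ q).re ^ 2 + η ^ 2)) := by
    rw [← av_mul, ← av_const (α := Tor d M) (1 / 4), ← av_add]
    refine av_mono fun q => ?_
    have p := Wg_pos (θ := θ) (b := b) q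
    rcases le_total (R1 q) (b - 3) with c | c
    · have := pow_le_pow_left₀ (norm_nonneg _)
        (inv_le_of_re two_pos (le_trans (by linarith) (h.re_ge (b := b) (w := fun _ => 1) q))) 2
      refine (this.trans (by norm_num)).trans (le_add_of_nonneg_right (by positivity))
    · have w : 1 / 2 ≤ Wg θ b q := le_trans (by
        rcases min_choice 0 (θ * (R1 q - b)) with c | c <;> rw [c] <;> nlinarith) (add_one_le_exp _)
      have : ‖Gs b ζ q‖ ^ 2 ≤ 4 / η * (η / ((Yw b (fun _ => 1) ζ q).re ^ 2 + η ^ 2)) := by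
        rw [norm_inv, inv_pow, div_mul_div_cancel₀ η0.ne', ← one_div,
          div_le_div_iff₀ (pow_pos (norm_pos_iff.2 (h.ne q)) 2) (by positivity), one_mul]
        exact h.sq_le q
      refine this.trans (le_trans ?_ (le_add_of_nonneg_left (by norm_num)))
      rw [← mul_assoc]
      refine mul_le_mul_of_nonneg_right ?_ (by positivity)
      rw [div_mul_eq_mul_div]
      exact div_le_div_of_nonneg_right (by linarith) η0.le
  have k3 : tau M * (1 / η ^ 2) ≤ 1 / 100 := by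
    rw [mul_one_div, div_le_iff₀ (by positivity)]
    nlinarith [h.tau_le, mul_le_mul_of_nonneg_left h.η1 (sq_nonneg η)]
  have k4 : 1 / η * exp (-(d : ℝ) / 512) ≤ η / 1000 := by
    rw [one_div_mul_eq_div, div_le_iff₀ η0]
    refine hn.bad.trans ?_
    have := hn.small'.trans (one_div_le_one_div_of_le (by norm_num)
      (show (1000 : ℝ) ≤ _ by linarith [hn.b4]))
    nlinarith [mul_le_mul_of_nonneg_left this (sq_nonneg η)]
  have p0 : 0 ≤ av (Wg (d := d) (M := M) θ b) := av_nonneg fun q => (Wg_pos q).le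
  refine k2.trans ?_
  have : 1000 * Nt d M θ b / η + 1 / 20 = 8 / η * (125 * Nt d M θ b + η / 160) := by
    field_simp
    ring
  nlinarith [mul_le_mul_of_nonneg_left (show _ ≤ 125 * Nt d M θ b + η / 160 from k.trans (by
    nlinarith [mul_le_mul_of_nonneg_right pi_lt_d2.le p0, mul_le_mul_of_nonneg_right k3 p0]))
    (show 0 ≤ 8 / η by positivity)]

theorem SyH.cnt3 (h : SyH η ω ζ) (hn : NumH d M θ b η K) {Φ : Tor d M → ℝ}
    (b1 : ∀ q, 0 ≤ Φ q ∧ Φ q ≤ 1) (b2 : ∀ q j, |Φ (q + Pi.single j 1) - Φ q| ≤ tau M * Φ q) :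
    av (fun q => Φ q * ‖Gs b ζ q‖) ≤ 80 * d * av Φ + η ^ 9 / d ^ 2 := by
  have η0 := h.η0
  have d0 : (128 : ℝ) ≤ d := by exact_mod_cast h.hd
  refine (h.cnt2 (b := b) (w := fun _ => 1) (by simp) (by simp; linarith) (D := d) (by linarith)
    ?_ b1 b2).trans (add_le_add le_rfl ?_)
  · have a : exp (d / 2) ≤ η * exp d := by
      refine le_trans ?_ (mul_le_mul_of_nonneg_right hn.η0 (exp_pos _).le)
      rw [← exp_add, exp_le_exp]
      nlinarith [mul_le_mul_of_nonneg_right (pow_le_pow_left₀ hn.θ0.le hn.θ1 2) (by linarith : (0 : ℝ) ≤ d)]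
    rw [abs_of_pos (by linarith [hn.b4])]
    nlinarith [quadratic_le_exp_of_nonneg (show (0 : ℝ) ≤ d / 2 by linarith), hn.b2]
  · rw [div_le_iff₀ η0]
    refine (mul_le_mul_of_nonneg_left hn.tiny (by norm_num)).trans ?_
    rw [div_mul_eq_mul_div, mul_div_assoc', div_le_div_iff₀ (by positivity) (by positivity)]
    nlinarith [show 0 ≤ η ^ 10 * d ^ 2 by positivity]

/-- the filtered inverse symbol has a small mean modulus -/
theorem SyH.gam (h : SyH η ω ζ) (hn : NumH d M θ b η K) :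
    av (fun q => s2 b q * ‖Gs b ζ q‖) ≤ 160 * d * Nt d M θ b + η := by
  have η0 := h.η0
  have d0 : (128 : ℝ) ≤ d := by exact_mod_cast h.hd
  have k := h.cnt3 hn (Φ := Wg θ b) (fun q => ⟨(Wg_pos q).le, Wg_le_one q⟩)
    fun q j => exp_lip ((min_lip h.M3 hn.θ0.le (by linarith [hn.θ1]) q j).trans
      (by linarith [tau_pos h.M3])) (by linarith [h.tau_le'])
  have k1 : av (fun q => s2 b q * ‖Gs b ζ q‖) ≤ 2 * av fun q => Wg θ b q * ‖Gs b ζ q‖ := by
    rw [← av_mul]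
    refine av_mono fun q => ?_
    rw [← mul_assoc]
    exact mul_le_mul_of_nonneg_right (s2_le (by linarith [h.hd]) (by
      rw [abs_of_pos (by linarith [hn.b4])]; linarith [hn.b2]) hn.θ0.le (by linarith [hn.θ1]) q).2
      (norm_nonneg _)
  have k2 : η ^ 9 / d ^ 2 ≤ η / 2 := by
    rw [div_le_div_iff₀ (by positivity) two_pos]
    nlinarith [mul_le_mul_of_nonneg_left (pow_le_one₀ (n := 8) η0.le h.η1) η0.le,
      mul_le_mul_of_nonneg_left (show (2 : ℝ) ≤ d ^ 2 by nlinarith) η0.le]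
  nlinarith [mul_le_mul_of_nonneg_left (av_Wg (d := d) (M := M) (b := b) hn.θ0.le)
    (show (0 : ℝ) ≤ d by linarith)]

theorem av_comm {α β : Type} [Fintype α] [Fintype β] (f : α → β → ℝ) :
    (av fun a => av fun c => f a c) = av fun c => av fun a => f a c :=
  (av_prod fun z : α × β => f z.1 z.2).symm.trans (av_prod' _)

/-- a symmetric trilinear average -/
noncomputable def P3 (t u v w : Tor d M → ℝ) : ℝ :=
  av fun a => av fun c => av fun e => u a * v c * (w e * t (e + (a + c)))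

theorem P3_cyc (t u v w : Tor d M → ℝ) : P3 t u v w = P3 t v w u := by
  rw [P3, P3, av_comm]
  refine congrArg av (funext fun c => ?_)
  rw [av_comm]
  refine congrArg av (funext fun e => congrArg av (funext fun a => ?_))
  rw [show e + (a + c) = a + (c + e) by abel]
  ring

theorem P3_neg (t u v : Tor d M → ℝ) {w : Tor d M → ℝ} (h : ∀ q, w (-q) = w q) :
    P3 t u v w = av fun a => av fun c => av fun e => u a * v c * (w e * t (a + c - e)) := by
  refine congrArg av (funext fun a => congrArg av (funext fun c => ?_))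
  rw [← av_equiv (Equiv.neg _)]
  simp only [Equiv.neg_apply, h, neg_add_eq_sub]

theorem SyH.P3_step (h : SyH η ω ζ) (hn : NumH d M θ b η K) {u v : Tor d M → ℝ}
    (hu : ∀ q, 0 ≤ u q ∧ u q ≤ 2 / η) (hv : ∀ q, 0 ≤ v q ∧ v q ≤ 2 / η) :
    P3 (Wg θ b) u v (fun q => Wg θ b q * ‖Gs b ζ q‖) ≤
      80 * d * P3 (Wg θ b) u v (Wg θ b) + η ^ 7 / d := by
  have η0 := h.η0
  have d0 : (128 : ℝ) ≤ d := by exact_mod_cast h.hd
  rw [P3, P3, ← av_mul, ← av_const (α := Tor d M) (η ^ 7 / d), ← av_add]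
  refine av_mono fun a => ?_
  rw [← av_mul, ← av_const (α := Tor d M) (η ^ 7 / d), ← av_add]
  refine av_mono fun c => ?_
  have k := h.cnt3 hn (Φ := fun e => Wg θ b e * Wg θ b (e + (a + c)))
    (fun q => ⟨(mul_pos (Wg_pos _) (Wg_pos _)).le,
      mul_le_one₀ (Wg_le_one _) (Wg_pos _).le (Wg_le_one _)⟩) fun q j => by
      have a1 := min_lip (b := b) h.M3 hn.θ0.le (by linarith [hn.θ1]) q j
      have a2 := min_lip (b := b) h.M3 hn.θ0.le (by linarith [hn.θ1]) (q + (a + c)) j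
      simp only [Wg, ← exp_add, add_right_comm q (Pi.single j 1)]
      refine exp_lip ?_ (by linarith [h.tau_le'])
      rw [add_sub_add_comm]
      exact (abs_add_le _ _).trans (by linarith)
  rw [av_mul, av_mul]
  simp only [mul_right_comm (Wg θ b _) ‖Gs b ζ _‖]
  refine (mul_le_mul_of_nonneg_left k (mul_nonneg (hu a).1 (hv c).1)).trans ?_
  rw [mul_add, mul_left_comm]
  refine add_le_add le_rfl ((mul_le_mul_of_nonneg_right
    (mul_le_mul (hu a).2 (hv c).2 (hv c).1 (by positivity)) (by positivity)).trans ?_)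
  rw [show 2 / η * (2 / η) * (η ^ 9 / d ^ 2) = 4 / d * (η ^ 7 / d) by field_simp; norm_num]
  exact mul_le_of_le_one_left (by positivity) (div_le_one_of_le₀ (by linarith) (by linarith))

theorem P3_Wg (hM : 3 ≤ M) (h0 : 0 ≤ θ) (h1 : θ ≤ 1 / 4) :
    P3 (d := d) (M := M) (Wg θ b) (Wg θ b) (Wg θ b) (Wg θ b) ≤
      exp ((4 * θ ^ 2 + 40 * θ ^ 3) * d - 4 * θ * b) := by
  have k := av_exp_le (f := fun (_ : Fin d) (z : ZMod M × ZMod M × ZMod M) =>
    θ * (vr 1 z.1 + vr 1 z.2.1 + vr 1 z.2.2 + vr 1 (z.1 + z.2.1 - z.2.2))) fun _ => four_le hM h0 h1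
  let F : Tor d M × Tor d M × Tor d M → ℝ := fun z =>
    exp (θ * (R1 z.1 + R1 z.2.1 + R1 z.2.2 + R1 (z.1 + z.2.1 - z.2.2)))
  have e : av F = av fun q : Fin d → ZMod M × ZMod M × ZMod M => exp (∑ j, θ * (vr 1 (q j).1 +
      vr 1 (q j).2.1 + vr 1 (q j).2.2 + vr 1 ((q j).1 + (q j).2.1 - (q j).2.2))) := by
    rw [← av_equiv ((Equiv.arrowProdEquivProdArrow (Fin d) (fun _ => ZMod M)
      fun _ => ZMod M × ZMod M).trans ((Equiv.refl _).prodCongr
        (Equiv.arrowProdEquivProdArrow (Fin d) (fun _ => ZMod M) fun _ => ZMod M))) F]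
    simp only [F, R1_eq, vv, ← mul_sum, sum_add_distrib]
    rfl
  rw [← e, av_prod] at k
  simp only [av_prod (α := Tor d M) (β := Tor d M), sum_const, card_univ, Fintype.card_fin,
    nsmul_eq_mul] at k
  rw [P3_neg _ _ _ Wg_neg, sub_eq_neg_add, exp_add, mul_comm _ (d : ℝ)]
  refine le_trans ?_ (mul_le_mul_of_nonneg_left k (exp_pos _).le)
  simp only [← av_mul]
  refine av_mono fun a => av_mono fun c => av_mono fun e => ?_
  refine (mul_le_mul (mul_le_mul (Wg_le a) (Wg_le c) (Wg_pos _).le (exp_pos _).le)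
    (mul_le_mul (Wg_le e) (Wg_le _) (Wg_pos _).le (exp_pos _).le)
    (mul_pos (Wg_pos _) (Wg_pos _)).le (by positivity)).trans_eq ?_
  simp only [F, ← exp_add]
  ring_nf

theorem l4_le (F : Tor d M → ℂ) : ∑ x, ‖ift F x‖ ^ 4 ≤
    av fun a => av fun c => av fun e => ‖F a‖ * ‖F c‖ * (‖F e‖ * ‖F (a + c - e)‖) := by
  have e : ∀ x, ‖ift F x‖ ^ 4 = ‖ift F x * ift F x‖ ^ 2 := fun x => by rw [norm_mul]; ring
  simp only [e, ift_mul, pars_av]
  rw [← av_prod fun z : Tor d M × Tor d M =>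
      av fun e => ‖F z.1‖ * ‖F z.2‖ * (‖F e‖ * ‖F (z.1 + z.2 - e)‖),
    ← av_equiv ((Equiv.refl _).prodShear fun a => Equiv.subRight a), av_prod']
  refine av_mono fun k => ?_
  simp only [Equiv.prodShear_apply, Equiv.refl_apply, Equiv.subRight_apply, add_sub_cancel, av_mul]
  have a : ‖(∑ q, F q * F (k - q)) / (M : ℂ) ^ d‖ ≤ av fun q => ‖F q‖ * ‖F (k - q)‖ := by
    simpa [ift, ch] using norm_ift_le (fun q => F q * F (k - q)) 0
  simp only [fun x => mul_comm x (av fun e => ‖F e‖ * ‖F (k - e)‖)]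
  rw [av_mul, ← sq]
  exact pow_le_pow_left₀ (norm_nonneg _) a 2

/-- the fourth moment of the filtered Green function -/
theorem SyH.four (h : SyH η ω ζ) (hn : NumH d M θ b η K) (ev : ∀ q, ζ (-q) = ζ q)
    {F : Tor d M → ℂ} (hF : ∀ q, ‖F q‖ ≤ 2 * (s2 b q * ‖Gs b ζ q‖)) :
    ∑ x, ‖ift F x‖ ^ 4 ≤ 512 / η * ((80 * d) ^ 3 *
      exp ((4 * θ ^ 2 + 40 * θ ^ 3) * d - 4 * θ * b) + 10 ^ 4 * d * η ^ 7) := by
  have η0 := h.η0
  have d0 : (128 : ℝ) ≤ d := by exact_mod_cast h.hd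
  set W : Tor d M → ℝ := Wg θ b
  set g : Tor d M → ℝ := fun q => W q * ‖Gs b ζ q‖
  have g0 : ∀ q, 0 ≤ g q ∧ g q ≤ 2 / η := fun q => ⟨mul_nonneg (Wg_pos q).le (norm_nonneg _),
    (mul_le_of_le_one_left (norm_nonneg _) (Wg_le_one q)).trans (h.inv_le q)⟩
  have W0 : ∀ q, 0 ≤ W q ∧ W q ≤ 2 / η := fun q => ⟨(Wg_pos q).le,
    (Wg_le_one q).trans ((one_le_div η0).2 (by linarith [h.η1]))⟩
  have F1 : ∀ q, ‖F q‖ ≤ 4 * g q := fun q => (hF q).trans (by
    have := mul_le_mul_of_nonneg_right (s2_le (b := b) (by linarith [h.hd]) (by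
      rw [abs_of_pos (by linarith [hn.b4])]; linarith [hn.b2]) hn.θ0.le (by linarith [hn.θ1]) q).2
      (norm_nonneg (Gs b ζ q))
    simp only [g, W]
    linarith)
  have F2 : ∀ q, ‖F q‖ ≤ 8 / η * W q := fun q => (F1 q).trans (by
    have := mul_le_mul_of_nonneg_left (h.inv_le (b := b) (w := fun _ => 1) q) (W0 q).1
    calc _ ≤ 4 * (W q * (2 / η)) := by simp only [g]; linarith
      _ = _ := by ring)
  have k0 : ∑ x, ‖ift F x‖ ^ 4 ≤ 512 / η * P3 W g g g := by
    rw [P3_neg _ _ _ fun q => by simp only [g, W, Wg_neg, Gs, Yw, R1_neg, ev]]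
    simp only [← av_mul]
    refine (l4_le F).trans (av_mono fun a => av_mono fun c => av_mono fun e => ?_)
    refine (mul_le_mul (mul_le_mul (F1 a) (F1 c) (norm_nonneg _) (by linarith [(g0 a).1]))
      (mul_le_mul (F1 e) (F2 _) (norm_nonneg _) (by linarith [(g0 e).1])) (by positivity)
      (mul_nonneg (by linarith [(g0 a).1]) (by linarith [(g0 c).1]))).trans_eq (by ring)
  have k1 := h.P3_step hn g0 g0
  have k2 := h.P3_step hn W0 g0
  have k3 := h.P3_step hn W0 W0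
  have k4 := P3_Wg (d := d) (b := b) h.M3 hn.θ0.le (by linarith [hn.θ1])
  rw [P3_cyc _ g g W, P3_cyc _ g W g] at k1
  rw [P3_cyc _ W g W, P3_cyc _ g W W] at k2
  refine k0.trans (mul_le_mul_of_nonneg_left ?_ (by positivity))
  have e : (10 : ℝ) ^ 4 * d * η ^ 7 = 10 ^ 4 * d ^ 2 * (η ^ 7 / d) := by field_simp
  rw [e]
  have p : 0 ≤ η ^ 7 / d := by positivity
  generalize η ^ 7 / d = t at *
  calc _ ≤ 80 * d * (80 * d * (80 * d * exp ((4 * θ ^ 2 + 40 * θ ^ 3) * d - 4 * θ * b) + t) + t) + t := by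
        refine k1.trans ?_
        gcongr
        refine k2.trans ?_
        gcongr
        refine k3.trans ?_
        gcongr
    _ ≤ _ := by
        nlinarith [mul_le_mul_of_nonneg_right (show 80 * d + 1 ≤ 3600 * (d : ℝ) ^ 2 by nlinarith) p]

end Pool.Agent.P.MP_d0f69c_mp.XS.Rf
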