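import Pool.Agent.P.MP_d0f69c_mp.XS.RefW
import Pool.Agent.P.MP_d0f69c_mp.XS.Ref3

/-!
Reference block: the forms and the retarded-retarded matrix of the initial state.
-/

set_option autoImplicit false

open Finset Real

namespace Pool.Agent.P.MP_d0f69c_mp.XS.Rf

variable {d M : ℕ} [NeZero M] {θ η ω b K l L ε w : ℝ} {ζ g a : Tor d M → ℂ}

theorem sq_add_close (u v : ℂ) {δ : ℝ} (h : 0 < δ) :
    |‖u + v‖ ^ 2 - ‖u‖ ^ 2| ≤ δ * ‖u‖ ^ 2 + (1 + 1 / δ) * ‖v‖ ^ 2 := by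
  have a := abs_le.1 (abs_norm_sub_norm_le (u + v) u)
  rw [add_sub_cancel_left] at a
  have e : 2 * ‖u‖ * ‖v‖ ≤ δ * ‖u‖ ^ 2 + 1 / δ * ‖v‖ ^ 2 := by
    rw [← sub_nonneg, show δ * ‖u‖ ^ 2 + 1 / δ * ‖v‖ ^ 2 - 2 * ‖u‖ * ‖v‖ =
      (δ * ‖u‖ - ‖v‖) ^ 2 / δ by field_simp; ring]
    positivity
  rw [abs_le]
  constructor <;> nlinarith [norm_nonneg u, norm_nonneg v, norm_nonneg (u + v),
    sq_nonneg (‖u + v‖ - ‖u‖)]

theorem NF_eq (p F : Tor d M → ℝ) : NF p F = (∑ h, p h * ∑ y, (F (y + h) - F y) ^ 2) / 2 := by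
  rw [NF, sum_comm]
  simp only [mul_sum]
  rw [sum_comm (f := fun h y => p h * (F (y + h) - F y) ^ 2)]
  refine congrArg (· / 2) (sum_congr rfl fun y _ => ?_)
  rw [← Equiv.sum_comp (Equiv.addLeft y)]
  simp

theorem RefG.small {p : Tor d M → ℝ} (h : RefG p l L) (hL : 8 * d * L ≤ 1)
    (ha : ∑ x, ‖a x‖ ^ 2 * (1 + nm x) ^ 2 ≤ ε ^ 2) (F : Tor d M → ℝ) :
    NF (fun x => ‖a x‖ ^ 2) F ≤ 200 * ε ^ 2 * NF p F := by
  have N0 := NF_nonneg h.nonneg F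
  have L0 := h.Lpos
  rw [NF_eq, div_le_iff₀ two_pos]
  refine le_trans ?_ ((mul_le_mul_of_nonneg_right ha (show 0 ≤ 400 * NF p F by positivity)).trans_eq
    (by ring))
  rw [sum_mul]
  refine sum_le_sum fun x _ => ?_
  rw [mul_assoc]
  refine mul_le_mul_of_nonneg_left ((h.shift F x).trans ?_) (sq_nonneg _)
  have n0 : (0 : ℝ) ≤ nm x := Nat.cast_nonneg _
  have := pow_le_pow_left₀ (by positivity) (mul_le_of_le_one_left n0 hL) 2
  nlinarith [mul_le_mul_of_nonneg_right (show 1 + (8 * d * L * nm x) ^ 2 ≤ (1 + nm x) ^ 2 by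
    nlinarith) N0]

/-- comparison of the initial form with the reference form -/
theorem RefG.ul (h : RefG (fun x => ‖g x‖ ^ 2) l L) (hL : 8 * d * L ≤ 1) (e0 : 0 < ε)
    (e1 : ε ≤ 1 / 100) (ha : ∑ x, ‖a x‖ ^ 2 * (1 + nm x) ^ 2 ≤ ε ^ 2) (hw : |w - 1| ≤ ε) :
    UL (fun x => ‖g x‖ ^ 2) (fun x y => w * w * ‖g (x - y) + a (x - y)‖ ^ 2) univ (40 * ε) := by
  obtain ⟨w1, w2⟩ := abs_le.1 hw
  have k : ∀ F, ∃ s, En univ (fun x y => w * w * ‖g (x - y) + a (x - y)‖ ^ 2) F = w * w * s ∧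
      |s - NF (fun x => ‖g x‖ ^ 2) F| ≤ 31 * ε * NF (fun x => ‖g x‖ ^ 2) F := fun F => by
    refine ⟨NF (fun x => ‖g x + a x‖ ^ 2) F, by simp only [En, NF, mul_assoc, ← mul_sum,
      mul_div_assoc], ?_⟩
    have s := mul_le_mul_of_nonneg_left (h.small hL ha F) (show 0 ≤ 1 + 1 / (14 * ε) by positivity)
    have e : (1 + 1 / (14 * ε)) * (200 * ε ^ 2 * NF (fun x => ‖g x‖ ^ 2) F) =
        (200 * ε + 100 / 7) * ε * NF (fun x => ‖g x‖ ^ 2) F := by field_simp; ring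
    have s2 := mul_le_mul_of_nonneg_right (mul_le_mul_of_nonneg_right
      (show 200 * ε + 100 / 7 ≤ 17 by linarith) e0.le) (NF_nonneg h.nonneg F)
    refine le_trans ?_ (show 14 * ε * NF (fun x => ‖g x‖ ^ 2) F + (1 + 1 / (14 * ε)) *
      NF (fun x => ‖a x‖ ^ 2) F ≤ _ by linarith)
    simp only [NF_eq]
    rw [← sub_div, abs_div, abs_two, ← mul_div_assoc, ← mul_div_assoc, ← add_div, mul_sum, mul_sum,
      ← sum_add_distrib, ← sum_sub_distrib]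
    refine div_le_div_of_nonneg_right ((abs_sum_le_sum_abs _ _).trans (sum_le_sum fun x _ => ?_))
      zero_le_two
    have p0 : 0 ≤ ∑ y, (F (y + x) - F y) ^ 2 := sum_nonneg fun _ _ => sq_nonneg _
    rw [← sub_mul, abs_mul, abs_of_nonneg p0, ← mul_assoc, ← mul_assoc, ← add_mul]
    exact mul_le_mul_of_nonneg_right (sq_add_close _ _ (by positivity)) p0
  have u1 : w * w ≤ 1 + 3 * ε := by nlinarith
  have u2 : 1 - 2 * ε ≤ w * w := by nlinarith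
  refine ⟨fun F => ?_, fun F => ⟨F, fun _ _ => rfl, ?_⟩⟩ <;> obtain ⟨s, e, hs⟩ := k F <;> rw [e] <;>
    obtain ⟨s1, s2⟩ := abs_le.1 hs <;> have N0 := NF_nonneg h.nonneg F
  · refine (mul_le_mul_of_nonneg_left (show s ≤ (1 + 31 * ε) * NF (fun x => ‖g x‖ ^ 2) F by
      linarith) (mul_self_nonneg w)).trans ?_
    rw [← mul_assoc]
    exact mul_le_mul_of_nonneg_right (by nlinarith) N0
  · refine le_trans ?_ (mul_le_mul_of_nonneg_left (show (1 - 31 * ε) *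
      NF (fun x => ‖g x‖ ^ 2) F ≤ s by linarith) (mul_self_nonneg w))
    rw [← mul_assoc]
    exact mul_le_mul_of_nonneg_right (by nlinarith) N0

/-- the mass of the initial kernel -/
theorem mass_close (S : Finset (Tor d M)) (e0 : 0 < ε)
    (ha : ∑ x, ‖a x‖ ^ 2 * (1 + nm x) ^ 2 ≤ ε ^ 2) :
    |∑ x ∈ S, ‖g x + a x‖ ^ 2 - ∑ x ∈ S, ‖g x‖ ^ 2| ≤ ε * ∑ x ∈ S, ‖g x‖ ^ 2 + ε + ε ^ 2 := by
  have a1 : ∑ x ∈ S, ‖a x‖ ^ 2 ≤ ε ^ 2 := ((sum_le_univ_sum_of_nonneg fun _ => sq_nonneg _).trans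
    (sum_le_sum fun x _ => le_mul_of_one_le_right (sq_nonneg _)
      (one_le_pow₀ (le_add_of_nonneg_right (Nat.cast_nonneg _))))).trans ha
  rw [← sum_sub_distrib]
  refine (abs_sum_le_sum_abs _ _).trans ((sum_le_sum fun x _ => sq_add_close _ _ e0).trans ?_)
  rw [sum_add_distrib, ← mul_sum, ← mul_sum, add_assoc]
  exact add_le_add le_rfl ((mul_le_mul_of_nonneg_left a1 (by positivity)).trans_eq
    (by field_simp; ring))

theorem mass_off (e0 : 0 < ε) (e1 : ε ≤ 1 / 1000) (ha : ∑ x, ‖a x‖ ^ 2 * (1 + nm x) ^ 2 ≤ ε ^ 2)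
    (h0 : ‖g 0‖ ^ 2 ≤ 1 / 10 ^ 9) (h1 : |∑ x, ‖g x‖ ^ 2 - 1| ≤ 1 / 10 ^ 9) :
    |∑ x ∈ univ.erase 0, ‖g x + a x‖ ^ 2 - 1| ≤ 3 * ε + 1 / 10 ^ 8 := by
  obtain ⟨a1, a2⟩ := abs_le.1 (mass_close (g := g) (univ.erase 0) e0 ha)
  obtain ⟨b1, b2⟩ := abs_le.1 h1
  have e := add_sum_erase univ (fun x => ‖g x‖ ^ 2) (mem_univ 0)
  have c : ε * ∑ x ∈ univ.erase 0, ‖g x‖ ^ 2 ≤ ε * (3 / 2) :=
    mul_le_mul_of_nonneg_left (by linarith [sq_nonneg ‖g 0‖]) e0.le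
  rw [abs_le]
  constructor <;> nlinarith [sq_nonneg ‖g 0‖]

theorem Gs_neg (hz : ∀ q, ζ (-q) = ζ q) (q : Tor d M) : Gs b ζ (-q) = Gs b ζ q := by
  simp only [Gs, Yw, hz, R1_neg]

theorem SyH.sq_op (h : SyH η ω ζ) (hn : NumH d M θ b η K) (hz : ∀ q, ζ (-q) = ζ q) :
    OpLe univ (fun x y => ift (Gs b ζ) (x - y) ^ 2) (70 / b + 8000 * ω * K) := by
  refine (opLe_sm (h.rr hn)).congr fun x _ y _ => ?_
  rw [sq, ift_mul, sm_apply]
  refine congrArg (ift · _) (funext fun k => ?_)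
  simp only [avc, ← neg_sub _ k, Gs_neg hz, Fintype.card_pi, ZMod.card, prod_const, card_univ,
    Fintype.card_fin, Nat.cast_pow]

/-- the off-diagonal part of the retarded-retarded matrix -/
theorem SyH.off_op (h : SyH η ω ζ) (hn : NumH d M θ b η K) (hz : ∀ q, ζ (-q) = ζ q) :
    OpLe univ (fun x y => if x = y then 0 else ift (Gs b ζ) (x - y) ^ 2)
      (2 * (70 / b + 8000 * ω * K)) := by
  have a := h.sq_op hn hz
  have a1 := fun x => (le_nS _ (mem_univ x)).trans (a.col (mem_univ x))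
  rw [two_mul]
  refine (a.diff (OpLe.diag ((norm_nonneg _).trans (a1 0)) fun x _ => a1 x)).congr fun x _ y _ => ?_
  by_cases e : x = y <;> simp [e]

theorem SyH.disc (h : SyH η ω ζ) (hn : NumH d M θ b η K) (hz : ∀ q, ζ (-q) = ζ q) {c : Tor d M → ℂ}
    (e0 : 0 ≤ ε) (hc : ∀ x, ‖1 - c x‖ ≤ ε) {t : ℝ} (ht : ε + 2 * (70 / b + 8000 * ω * K) ≤ t)
    (t1 : t ≤ 1) : Disc univ (fun x y => if x = y then c x else -ift (Gs b ζ) (x - y) ^ 2) t := by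
  have a := ((OpLe.diag e0 fun x _ => hc x).add (h.off_op hn hz)).mono ht
  refine disc_of_norm ((norm_nonneg _).trans ((le_nS _ (mem_univ 0)).trans (a.col (mem_univ 0))))
    t1 fun u => le_of_eq_of_le (nS_congr fun x _ => ?_) (a u)
  have e : u x = ∑ y, if x = y then u y else 0 := by simp
  rw [Pi.sub_apply, e, ap, ap, ← sum_sub_distrib]
  refine sum_congr rfl fun y _ => ?_
  by_cases e : x = y <;> simp [e, sub_mul]

end Pool.Agent.P.MP_d0f69c_mp.XS.Rf
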