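import Pool.Agent.P.MP_d0f69c_mp.XS.Ref6
import Pool.Agent.P.MP_d0f69c_mp.XS.RefU

/-!
Reference block: the properties of the tuned reference Green function in a window of energies.
-/

set_option autoImplicit false

open Finset Real

namespace Pool.Agent.P.MP_d0f69c_mp.XS.Rf

variable {d M : ℕ} [NeZero M] {B : Finset (Tor d M)} {θ b γ ε κ ω L η u : ℝ}
  {Z a : (Tor d M → ℂ) → Tor d M → ℂ} {g : Tor d M → ℂ}

/-- the perturbation of the symbol at the energy shift `u` -/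
noncomputable abbrev zu (Z : (Tor d M → ℂ) → Tor d M → ℂ) (g : Tor d M → ℂ) (η u : ℝ) :
    Tor d M → ℂ := ze Z g (Z 0 0 - η * Complex.I + u)

/-- the part of the Green function on the shell -/
noncomputable def Gk (b : ℝ) (Z a : (Tor d M → ℂ) → Tor d M → ℂ) (g : Tor d M → ℂ) (η u : ℝ)
    (x : Tor d M) : ℂ := ift (Gs b (zu Z g η u)) x - a g x

/-- all hypotheses -/
structure FnH (B : Finset (Tor d M)) (θ b γ ε κ ω L η u : ℝ) (Z a : (Tor d M → ℂ) → Tor d M → ℂ)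
    (g : Tor d M → ℂ) : Prop where
  n : FpN d M θ b γ ε κ ω L
  st : StatH B b γ ε κ ω L Z a
  fx : Fix B θ b γ ε κ η Z a g
  dd : 1500 ≤ θ ^ 2 * d
  b9 : 10 ^ 9 ≤ b
  ε0 : 0 < ε
  ε1 : ε ≤ 1 / 10 ^ 12
  κ1 : κ ≤ 1 / 10 ^ 12
  sm : 10 ^ 40 * d ^ 2 * Nt d M θ b ≤ 1
  Mb : 1000 * d ≤ M * (Nt d M θ b / (40 * d)) ^ 4
  γ1 : γ ≤ 800 * d * Nt d M θ b
  vol : 5 * d * B.card * γ ≤ 1
  u1 : 40000 * d * |u| ≤ ε * η

namespace FnH

variable (h : FnH B θ b γ ε κ ω L η u Z a g)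
include h

theorem d0 : (1000 : ℝ) ≤ d := by exact_mod_cast h.n.hd

theorem num : NumH d M θ b η (40 * d) := h.n.num h.fx.η0

theorem η0 : 0 < η := lt_of_lt_of_le (exp_pos _) h.num.η0

theorem η1 : 10 ^ 36 * d ^ 2 * η ≤ 1 := by
  nlinarith [h.sm, mul_le_mul_of_nonneg_left h.fx.η1 (sq_nonneg (d : ℝ))]

theorem η2 : η ≤ 1 / 10 ^ 42 := by
  nlinarith [h.η1, mul_le_mul_of_nonneg_right (pow_le_pow_left₀ (by norm_num) h.d0 2) h.η0.le]

theorem ηγ : η ≤ γ := by nlinarith [h.fx.η1, h.n.γ0, h.d0, Nt_pos (d := d) (M := M) θ b]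

theorem u2 : |u| ≤ η := by
  nlinarith [h.u1, h.d0, abs_nonneg u, mul_le_mul_of_nonneg_right h.ε1 h.η0.le, h.η0]

theorem z : Cls B γ 0 := Cls.zero B (h.η0.le.trans h.ηγ)

theorem zr : (Z 0 0).im = 0 := by
  have := congrFun (h.st.cZ 0 h.z) 0
  rw [star_zero] at this
  exact Complex.conj_eq_iff_im.1 this.symm

theorem im (v : ℝ) (q : Tor d M) : |(zu Z g η v q).im + η| ≤ κ * (3 * η) := by
  simpa [ze, h.zr] using h.st.im_Z h.fx.cls h.fx.gi q

theorem sy' {v : ℝ} (hv : |v| ≤ η) : SyH η ω (zu Z g η v) := by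
  refine ⟨h.n.M3, by linarith [h.n.hd], h.η0, by linarith [h.η2], h.n.ω1, h.n.mesh.trans (by
    have := h.fx.η0
    have := Nt_pos (d := d) (M := M) θ b
    gcongr), fun q => ?_, fun q => ?_, h.st.lip h.n.L0 h.fx.cls⟩
  · nlinarith [abs_le.1 (h.im v q), h.κ1, h.η0]
  · refine (norm_add_le _ _).trans ((add_le_add ((norm_add_le _ _).trans (add_le_add
      (norm_sub_le _ _) le_rfl)) (h.st.off h.n.L0 h.fx.cls q)).trans ?_)
    rw [norm_mul, Complex.norm_I, Complex.norm_real, Complex.norm_real, Real.norm_of_nonneg h.η0.le,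
      Real.norm_eq_abs]
    linarith [h.st.Z0 0 h.z, h.ε1, h.η2, h.n.ω1]

theorem sy : SyH η ω (zu Z g η u) := h.sy' h.u2

theorem oct : Oct (zu Z g η u) := h.st.oct_ze h.fx.cls

theorem shift (x : Tor d M) : ‖ift (Gs b (zu Z g η u)) x -
    ift (Gs b (ze Z g (Z 0 0 - η * Complex.I))) x‖ ≤ 40000 * d * |u| := by
  have := diffG h.sy h.num (h.sy' (v := 0) (by simpa using h.η0.le)) h.num (t := |u|)
    (fun q => by simp [ze]) x
  simp only [zu, Complex.ofReal_zero, add_zero] at this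
  linarith

/-- the shell part is tiny on the ball -/
theorem near {x : Tor d M} (hx : x ∈ B) : ‖Gk b Z a g η u x‖ ≤ 40000 * d * |u| := by
  rw [Gk, ← h.fx.zero x hx]
  exact h.shift x

theorem sup (x : Tor d M) : ‖Gk b Z a g η u x‖ ≤ 3 * γ := by
  refine (norm_sub_le_norm_sub_add_norm_sub _ _ _).trans ((add_le_add (h.shift x) (h.fx.sup x)).trans ?_)
  nlinarith [h.u1, h.ηγ, mul_le_mul_of_nonneg_right h.ε1 h.η0.le, h.η0]

theorem F : |av (fun q => ‖Gs b (zu Z g η u) q‖ ^ 2) - 1| ≤ 1 / 10 ^ 10 := by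
  set F := av fun q => ‖Gs b (zu Z g η u) q‖ ^ 2 with hF
  have k1 : (η - κ * (3 * η)) * F ≤ (ift (Gs b (zu Z g η u)) 0).im := by
    rw [im_G0, ← av_mul]
    exact av_mono fun q => by nlinarith [abs_le.1 (h.im u q), sq_nonneg ‖Gs b (zu Z g η u) q‖]
  have k2 : (ift (Gs b (zu Z g η u)) 0).im ≤ (η + κ * (3 * η)) * F := by
    rw [im_G0, ← av_mul]
    exact av_mono fun q => by nlinarith [abs_le.1 (h.im u q), sq_nonneg ‖Gs b (zu Z g η u) q‖]
  have a1 := abs_le.1 (((Complex.abs_im_le_norm _).trans (h.near h.st.zB)).trans h.u1)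
  rw [Gk, Complex.sub_im] at a1
  have a2 := abs_le.1 h.fx.ai
  have k3 : (1 - 3 * κ) * F ≤ 1 + 7 * ε := le_of_mul_le_mul_left (by linarith) h.η0
  have k4 : 1 - 7 * ε ≤ (1 + 3 * κ) * F := le_of_mul_le_mul_left (by linarith) h.η0
  have F0 : 0 ≤ F := av_nonneg fun _ => sq_nonneg _
  have k5 := mul_le_mul_of_nonneg_right h.κ1 F0
  rw [abs_le]
  constructor <;> linarith [h.ε1]

theorem V1 : (1 : ℝ) ≤ B.card := by exact_mod_cast card_pos.2 ⟨0, h.st.zB⟩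

theorem ft_g (q : Tor d M) : ‖ft g q‖ ≤ B.card * γ := by
  rw [ft, ← sum_subset (subset_univ B) fun x _ hx => by rw [h.fx.cls.supp x hx, zero_mul]]
  refine (norm_sum_le _ _).trans ((sum_le_card_nsmul _ _ γ fun x _ => ?_).trans_eq (nsmul_eq_mul _ _))
  rw [norm_mul, norm_ch, mul_one]
  exact h.fx.cls.le x

theorem hb : |b| ≤ 2 * d := by rw [abs_of_pos (by linarith [h.b9])]; linarith [h.n.b2, h.d0]

/-- the symbol of the shell part -/
theorem split : ∃ T R : Tor d M → ℂ, (∀ q, Gs b (zu Z g η u) q - ft (a g) q = T q + R q) ∧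
    (∀ q, ‖T q‖ ≤ 2 * (s2 b q * ‖Gs b (zu Z g η u) q‖)) ∧
      ∀ q, ‖R q‖ ≤ 10 * d * B.card * γ * ‖Gs b (zu Z g η u) q‖ := by
  have S := h.st.S_le h.n.L0 h.fx.cls (by linarith [h.ε1, h.n.ω1])
  refine ⟨fun q => Gs b (zu Z g η u) q * (1 - ft (a g) q * ft (Z g) q) * s2 b q,
    fun q => -(Gs b (zu Z g η u) q * (1 - ft (a g) q * ft (Z g) q) *
      (Xs b q * ft g q + (Z 0 0 - η * Complex.I + u - Z g 0) * (As b q + ft g q))),
    fun q => by rw [h.st.ident h.fx.cls q (h.sy.ne q)]; ring, fun q => ?_, fun q => ?_⟩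
  · have s0 := (s2_mem h.hb q).1
    rw [norm_mul, norm_mul, Complex.norm_real, Real.norm_of_nonneg s0]
    nlinarith [mul_le_mul_of_nonneg_left (S q) (mul_nonneg s0 (norm_nonneg (Gs b (zu Z g η u) q)))]
  · have γ0 := h.η0.le.trans h.ηγ
    have a1 := h.st.d0 0 g γ h.z h.fx.cls (by simpa using h.fx.cls.le)
    have a2 : ‖Z 0 0 - η * Complex.I + u - Z g 0‖ ≤ 4 * γ := by
      rw [show Z 0 0 - η * Complex.I + u - Z g 0 = (0 : Tor d M → ℂ) 0 + Z 0 0 - (g 0 + Z g 0) + g 0 +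
        (u - η * Complex.I) by simp; ring]
      refine (norm_add_le _ _).trans ((add_le_add (norm_add_le _ _) (norm_sub_le _ _)).trans ?_)
      rw [norm_mul, Complex.norm_I, Complex.norm_real, Complex.norm_real,
        Real.norm_of_nonneg h.η0.le, Real.norm_eq_abs]
      nlinarith [h.fx.cls.le 0, h.u2, h.ηγ, h.ε1]
    have a3 : ‖(Xs b q : ℂ)‖ ≤ 3 * d := by
      rw [Complex.norm_real, Real.norm_eq_abs, Xs, abs_le]
      constructor <;> linarith [abs_le.1 (abs_R1 q), h.n.b2, h.b9, h.d0]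
    have a4 : ‖(As b q : ℂ) + ft g q‖ ≤ 1 := (norm_add_le _ _).trans (by
      rw [Complex.norm_real, Real.norm_eq_abs]
      nlinarith [As_le h.hb q, h.ft_g q, h.vol, h.d0, mul_nonneg (zero_le_one.trans h.V1) γ0])
    have a5 := norm_add_le (Xs b q * ft g q) ((Z 0 0 - η * Complex.I + u - Z g 0) * (As b q + ft g q))
    rw [norm_mul, norm_mul] at a5
    have a6 := a5.trans (add_le_add (mul_le_mul a3 (h.ft_g q) (norm_nonneg _) (by linarith [h.d0]))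
      (mul_le_mul a2 a4 (norm_nonneg _) (by linarith)))
    rw [norm_neg, norm_mul, norm_mul, mul_assoc, mul_comm]
    refine mul_le_mul_of_nonneg_right ((mul_le_mul (S q) a6 (norm_nonneg _) zero_le_two).trans ?_)
      (norm_nonneg _)
    nlinarith [mul_le_mul_of_nonneg_right (mul_le_mul h.d0 h.V1 zero_le_one (by linarith [h.d0])) γ0]

omit h in
theorem Gk_eq : Gk b Z a g η u = ift fun q => Gs b (zu Z g η u) q - ft (a g) q :=
  funext fun x => by rw [Gk, ← ift_sub, ift_ft]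

/-- the fourth moment -/
theorem l4 : ∑ x, ‖Gk b Z a g η u x‖ ^ 4 ≤
    10 ^ 25 * d ^ 10 * B.card ^ 4 * exp (-(4 / 5 * θ ^ 2 * d)) * η ^ 2 := by
  obtain ⟨T, R, e, hT, hR⟩ := h.split
  have η0 := h.η0
  have d0 := h.d0
  have V1 := h.V1
  have θ0 := h.n.θ0
  set N := Nt d M θ b with hN
  have N0 : 0 < N := Nt_pos θ b
  set E := exp (-(4 / 5 * θ ^ 2 * d)) with hE
  have a1 := h.sy.four h.num h.oct.neg hT
  have a2 : ∑ x, ‖ift R x‖ ^ 2 ≤ 2 * (10 * d * B.card * γ) ^ 2 := by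
    rw [pars_av]
    refine (av_mono fun q => (pow_le_pow_left₀ (norm_nonneg _) (hR q) 2).trans_eq
      (mul_pow _ _ 2)).trans ?_
    rw [av_mul, mul_comm]
    exact mul_le_mul_of_nonneg_right (by linarith [(abs_le.1 h.F).2]) (sq_nonneg _)
  have a3 : ∑ x, ‖ift R x‖ ^ 4 ≤ (2 * (10 * d * B.card * γ) ^ 2) ^ 2 := by
    refine le_trans (le_of_eq_of_le (sum_congr rfl fun x _ => by ring)
      (sum_sq_le_sq_sum_of_nonneg fun x _ => sq_nonneg ‖ift R x‖)) ?_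
    exact pow_le_pow_left₀ (by positivity) a2 2
  have a4 : ∑ x, ‖Gk b Z a g η u x‖ ^ 4 ≤ 8 * ∑ x, ‖ift T x‖ ^ 4 + 8 * ∑ x, ‖ift R x‖ ^ 4 := by
    rw [mul_sum, mul_sum, ← sum_add_distrib, Gk_eq]
    refine sum_le_sum fun x _ => ?_
    have : ift (fun q => Gs b (zu Z g η u) q - ft (a g) q) x = ift T x + ift R x := by
      simp [e, ift, add_mul, sum_add_distrib, add_div]
    rw [this]
    refine (pow_le_pow_left₀ (norm_nonneg _) (norm_add_le _ _) 4).trans ?_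
    exact (add_pow_le (norm_nonneg _) (norm_nonneg _) 4).trans_eq (by ring)
  have NE : N ≤ E := Nt_le h.n.M3 θ0 h.n.θ1 h.dd h.n.b1
  have Nη : N ≤ 40 * d * η := h.num.tilt
  have b1 : exp ((4 * θ ^ 2 + 40 * θ ^ 3) * d - 4 * θ * b) ≤ (40 * d * η) ^ 3 * E := by
    refine le_trans ?_ (mul_le_mul_of_nonneg_right (pow_le_pow_left₀ (by positivity)
      ((mul_le_mul_of_nonneg_right (le_Zt h.n.M3 θ0.le (by linarith [h.n.θ1]))
        (exp_pos _).le).trans Nη) 3) (exp_pos _).le)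
    rw [← exp_add, ← exp_nat_mul, hE, ← exp_add, exp_le_exp]
    push_cast
    nlinarith [mul_le_mul_of_nonneg_left h.n.b1 θ0.le,
      mul_le_mul_of_nonneg_right h.n.θ1 (show 0 ≤ θ ^ 2 * d by positivity)]
  have b2 : η ^ 4 ≤ E := by
    calc η ^ 4 = η ^ 3 * η := by ring
      _ ≤ (1 / 10 ^ 42) ^ 3 * (10 ^ 4 * N) := by gcongr; exacts [h.η2, h.fx.η1]
      _ ≤ _ := by linarith
  have b3 : γ ^ 4 ≤ (800 * d) ^ 4 * (40 * d) ^ 2 * E * η ^ 2 := by
    have N1 : N ≤ 1 := by linarith [h.n.up]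
    calc γ ^ 4 ≤ (800 * d * N) ^ 4 := pow_le_pow_left₀ (η0.le.trans h.ηγ) h.γ1 4
      _ = (800 * d) ^ 4 * (N * N * N ^ 2) := by ring
      _ ≤ (800 * d) ^ 4 * (1 * E * (40 * d * η) ^ 2) := by gcongr
      _ = _ := by ring
  have E0 : 0 < E := exp_pos _
  have c1 : 512 / η * ((80 * d) ^ 3 * exp ((4 * θ ^ 2 + 40 * θ ^ 3) * d - 4 * θ * b) +
      10 ^ 4 * d * η ^ 7) ≤ 10 ^ 20 * (d ^ 10 * B.card ^ 4) * (E * η ^ 2) := by
    calc _ ≤ 512 / η * ((80 * d) ^ 3 * ((40 * d * η) ^ 3 * E) + 10 ^ 4 * d * (η ^ 3 * E)) := by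
          rw [show η ^ 7 = η ^ 3 * η ^ 4 by ring]
          gcongr
      _ = 512 * (3200 ^ 3 * (d ^ 6 * 1) + 10 ^ 4 * (d ^ 1 * 1)) * (E * η ^ 2) := by
          field_simp
          ring
      _ ≤ 512 * (3200 ^ 3 * (d ^ 10 * B.card ^ 4) + 10 ^ 4 * (d ^ 10 * B.card ^ 4)) * (E * η ^ 2) := by
          have := one_le_pow₀ (n := 4) V1
          gcongr <;> linarith
      _ ≤ _ := by
          refine mul_le_mul_of_nonneg_right ?_ (by positivity)
          linarith [show 0 ≤ (d : ℝ) ^ 10 * B.card ^ 4 by positivity]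
  have c2 : (2 * (10 * d * B.card * γ) ^ 2) ^ 2 ≤ 10 ^ 23 * (d ^ 10 * B.card ^ 4) * (E * η ^ 2) := by
    calc _ = 40000 * d ^ 4 * B.card ^ 4 * γ ^ 4 := by ring
      _ ≤ 40000 * d ^ 4 * B.card ^ 4 * ((800 * d) ^ 4 * (40 * d) ^ 2 * E * η ^ 2) := by gcongr
      _ = 40000 * 800 ^ 4 * 40 ^ 2 * (d ^ 10 * B.card ^ 4 * (E * η ^ 2)) := by ring
      _ ≤ _ := by
          rw [mul_assoc (10 ^ 23 : ℝ)]
          exact mul_le_mul_of_nonneg_right (by norm_num) (by positivity)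
  nlinarith [show 0 ≤ (d : ℝ) ^ 10 * B.card ^ 4 * (E * η ^ 2) by positivity]

theorem mass : |∑ x, ‖Gk b Z a g η u x‖ ^ 2 - 1| ≤ 1 / 10 ^ 9 := by
  have a1 := abs_le.1 (mass_close (g := Gk b Z a g η u) univ h.ε0 (h.st.a2 g h.fx.cls))
  simp only [Gk, sub_add_cancel, pars_av] at a1
  have a2 := abs_le.1 h.F
  have a3 := mul_le_mul_of_nonneg_right h.ε1
    (sum_nonneg (s := univ) fun x _ => sq_nonneg ‖Gk b Z a g η u x‖)
  have a4 := mul_le_mul_of_nonneg_right h.ε1 h.ε0.le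
  simp only [Gk] at a3 ⊢
  rw [abs_le]
  constructor <;> nlinarith [h.ε1]

theorem Gk_oct : Oct (Gk b Z a g η u) := h.oct.Gs.ift.map₂ (h.st.oa g h.fx.cls) (· - ·)

theorem Mη : 1000 * d ≤ M * η ^ 4 := h.Mb.trans (by
  have := h.fx.η0
  have := Nt_pos (d := d) (M := M) θ b
  gcongr)

theorem refG : RefG (fun x => ‖Gk b Z a g η u x‖ ^ 2) (16 * d / η) (3 * (10 ^ 9 * (40 * d) * η)) := by
  have η0 := h.η0
  have d0 := h.d0
  have m := abs_le.1 h.mass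
  have η3 : η ^ 3 ≤ 1 := pow_le_one₀ η0.le (by linarith [h.η2])
  refine ⟨by linarith [h.n.hd], fun _ => sq_nonneg _, fun x => by rw [h.Gk_oct.neg], by linarith,
    by positivity, ?_, by nlinarith [h.η1], ?_, fun k i hk => ?_⟩
  · have a1 := h.sy.mom (b := b)
    have a2 := (sum_le_sum fun x _ => mul_le_mul_of_nonneg_left (pow_le_pow_left₀ (Nat.cast_nonneg _)
      (le_add_of_nonneg_left zero_le_one) 2) (sq_nonneg _)).trans (h.st.a2 g h.fx.cls)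
    have a3 : ∑ x, ‖Gk b Z a g η u x‖ ^ 2 * (nm x : ℝ) ^ 2 ≤
        2 * ∑ x, ‖ift (Gs b (zu Z g η u)) x‖ ^ 2 * (nm x : ℝ) ^ 2 +
          2 * ∑ x, ‖a g x‖ ^ 2 * (nm x : ℝ) ^ 2 := by
      rw [mul_sum, mul_sum, ← sum_add_distrib]
      refine sum_le_sum fun x _ => ?_
      rw [← mul_assoc, ← mul_assoc, ← add_mul]
      refine mul_le_mul_of_nonneg_right ((pow_le_pow_left₀ (norm_nonneg _) (norm_sub_le _ _) 2).trans
        ?_) (sq_nonneg _)
      nlinarith [sq_nonneg (‖ift (Gs b (zu Z g η u)) x‖ - ‖a g x‖)]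
    have a4 := mul_le_mul_of_nonneg_left (sub_le_iff_le_add.1 (abs_le.1 h.F).2)
      (show 0 ≤ 111 * d / η ^ 2 by positivity)
    have a5 : 1 ≤ d / η ^ 2 := (one_le_div (by positivity)).2 (by nlinarith [h.η2])
    have a6 : (16 * d / η) ^ 2 = 256 * d * (d / η ^ 2) := by ring
    rw [mul_div_assoc] at a1 a4
    rw [a6]
    nlinarith [a1.trans a4, h.ε0, h.ε1]
  · have := mul_le_mul_of_nonneg_left η3 (mul_nonneg (Nat.cast_nonneg (α := ℝ) M) η0.le)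
    nlinarith [h.Mη]
  · obtain ⟨T, R, e, hT, hR⟩ := h.split
    rw [Gk_eq]
    refine h.sy.gap h.num (h.oct.Gs.map₂ (h.st.oa g h.fx.cls).ft (· - ·)) (fun q => ?_) ?_ h.b9
      (by nlinarith [h.η1]) k i hk
    · rw [e]
      nlinarith [norm_add_le (T q) (R q), hT q, hR q, norm_nonneg (Gs b (zu Z g η u) q),
        mul_le_mul_of_nonneg_right (s2_mem h.hb q).2 (norm_nonneg (Gs b (zu Z g η u) q)),
        mul_le_mul_of_nonneg_right h.vol (norm_nonneg (Gs b (zu Z g η u) q))]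
    · rw [← pars_av, ← Gk_eq]
      linarith

/-- the reference form -/
theorem ok {μ : ℝ} (h1 : 10 ^ 30 * d ^ 10 * B.card ^ 4 * exp (-(4 / 5 * θ ^ 2 * d)) * η ^ 2 ≤ μ ^ 2)
    (h2 : 10 ^ 30 * d ^ 2 * η ^ 2 ≤ μ) (h3 : 10 ^ 4 ≤ M * μ ^ 4) :
    RefOK (fun x => ‖Gk b Z a g η u x‖ ^ 2) (gt fun x => ‖Gk b Z a g η u x‖ ^ 2) ⌈16 * d / η⌉₊
      (400 * (3072 * 10 ^ 10 * d ^ 3) ^ 2) μ ∧ ∀ D : ℕ, 0 < D →
      ∑ x with D < nm x, gt (fun x => ‖Gk b Z a g η u x‖ ^ 2) x ^ 2 ≤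
        10 ^ 10 * d * ((⌈16 * d / η⌉₊ : ℝ) / D) ^ (1 / 4 : ℝ) := by
  have η0 := h.η0
  have d0 := h.d0
  have η2 := h.η2
  have μ0 : 0 < μ := lt_of_lt_of_le (by positivity) h2
  have e : 16 * d * (3 * (10 ^ 9 * (40 * d) * η)) * (16 * d / η) = 3072 * 10 ^ 10 * d ^ 3 := by
    field_simp
    norm_num
  have η4 : η ^ 4 ≤ 1 := pow_le_one₀ η0.le (by linarith)
  rw [← e]
  refine h.refG.ok ((one_le_div η0).2 (by linarith))
    (by rw [e]; nlinarith [pow_le_pow_left₀ (by norm_num) d0 3]) ?_ h.mass ?_ ?_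
  · have := (h.near h.st.zB).trans h.u1
    nlinarith [norm_nonneg (Gk b Z a g η u 0), mul_le_mul h.ε1 η2 η0.le (by norm_num)]
  · have : (10 : ℝ) ^ 5 ≤ M := by
      nlinarith [h.Mη, mul_le_mul_of_nonneg_left η4 (Nat.cast_nonneg (α := ℝ) M)]
    exact_mod_cast this
  · have a1 := h.l4
    simp only [← pow_mul, Nat.reduceMul]
    have a2 : (21 * (3 * (10 ^ 9 * (40 * d) * η))) ^ d ≤ (21 * (3 * (10 ^ 9 * (40 * d) * η))) ^ 4 :=
      pow_le_pow_of_le_one (by positivity) (by nlinarith [h.η1]) (by linarith [h.n.hd])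
    have a3 : (21 * (3 * (10 ^ 9 * (40 * d) * η))) ^ 4 ≤ μ ^ 2 / 10 ^ 10 := by
      have := pow_le_pow_left₀ (by positivity) h2 2
      nlinarith [show 0 ≤ d ^ 4 * η ^ 4 by positivity]
    have a4 : (M : ℝ) ^ (-(1 / 2) : ℝ) ≤ μ ^ 2 / 100 := by
      rw [rpow_neg (M_pos M).le, ← sqrt_eq_rpow, inv_le_comm₀ (sqrt_pos.2 (M_pos M)) (by positivity),
        inv_div]
      refine le_sqrt_of_sq_le ?_
      rw [div_pow, div_le_iff₀ (by positivity)]
      linarith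
    have a5 := a2.trans a3
    generalize (21 * (3 * (10 ^ 9 * (40 * d) * η))) ^ d = y at a5 ⊢
    linarith [sq_nonneg μ]

/-- the initial form -/
theorem ul : UL (fun x => ‖Gk b Z a g η u x‖ ^ 2) (fun x y => (a g 0).im / η * ((a g 0).im / η) *
    ‖ift (Gs b (zu Z g η u)) (x - y)‖ ^ 2) univ (240 * ε) := by
  have := h.refG.ul (a := a g) (ε := 6 * ε) (w := (a g 0).im / η) (by nlinarith [h.η1, h.η0])
    (by linarith [h.ε0]) (by linarith [h.ε1]) ((h.st.a2 g h.fx.cls).trans (by nlinarith [h.ε0])) (by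
      rw [div_sub_one h.η0.ne', abs_div, abs_of_pos h.η0, div_le_iff₀ h.η0]
      exact h.fx.ai)
  simp only [Gk, sub_add_cancel] at this ⊢
  rwa [show 240 * ε = 40 * (6 * ε) by ring]

end FnH

end Pool.Agent.P.MP_d0f69c_mp.XS.Rf
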