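import Pool.Agent.P.MP_d0f69c_mp.XS.RefSb
import Pool.Agent.P.MP_d0f69c_mp.XS.Ref7

/-!
Reference block: the numbers.
-/

set_option autoImplicit false

open Finset Real Matrix Filter

namespace Pool.Agent.P.MP_d0f69c_mp.XS.Rf

open Pre

variable {d M : ℕ} [NeZero M]

/-- the ball of the path distance -/
def B1 (d M : ℕ) [NeZero M] (k : ℕ) : Finset (Tor d M) := {x | n1 x ≤ k}

theorem mem_B1 {k : ℕ} {x : Tor d M} : x ∈ B1 d M k ↔ n1 x ≤ k := by simp [B1]

theorem card_B1 (k : ℕ) : #(B1 d M k) ≤ (2 * d + 1) ^ k := by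
  induction k with
  | zero =>
    refine card_le_one.2 fun x hx y hy => ?_
    rw [tn_eq_zero (Nat.le_zero.1 ((nm_le_n1 x).trans (mem_B1.1 hx))),
      tn_eq_zero (Nat.le_zero.1 ((nm_le_n1 y).trans (mem_B1.1 hy)))]
  | succ k ih =>
    have s : B1 d M (k + 1) ⊆ B1 d M k ∪ (univ ×ˢ univ ×ˢ B1 d M k).image
        fun z : Fin d × Bool × Tor d M => z.2.2 + Pi.single z.1 (if z.2.1 then 1 else -1) := by
      intro x hx
      by_cases c : x = 0
      · simp [c, mem_B1, n1_zero]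
      obtain ⟨i, hi⟩ := Function.ne_iff.1 c
      have h0 : (x i).valMinAbs ≠ 0 := mt (ZMod.valMinAbs_eq_zero _).1 hi
      refine mem_union_right _ (mem_image.2 ⟨(i, decide (0 < (x i).valMinAbs),
        x - Pi.single i (if 0 < (x i).valMinAbs then 1 else -1)), ?_, by simp⟩)
      simp only [mem_product, mem_univ, true_and, mem_B1] at hx ⊢
      rw [n1, ← add_sum_erase _ _ (mem_univ i)] at hx ⊢
      rw [sum_congr rfl (g := fun j => (x j).valMinAbs.natAbs) fun j hj => by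
        simp [ne_of_mem_erase hj]]
      have := natAbs_vma_le ((x - Pi.single i (if 0 < (x i).valMinAbs then 1 else -1) : Tor d M) i)
        ((x i).valMinAbs - if 0 < (x i).valMinAbs then 1 else -1) (by split_ifs <;> simp)
      split_ifs at this ⊢ <;> omega
    refine (card_le_card s).trans ((card_union_le _ _).trans ((add_le_add le_rfl card_image_le).trans ?_))
    simp only [card_product, card_univ, Fintype.card_fin, Fintype.card_bool, pow_succ]
    nlinarith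

/-- the tilt -/
noncomputable def th : ℝ := 1 / 10 ^ 4

theorem th0 : 0 < th := by norm_num [th]

/-- the window for the energy, in a large volume -/
structure Win (d M : ℕ) [NeZero M] (b : ℝ) : Prop where
  b1 : 19 / 10 * th * d ≤ b
  b2 : b ≤ 21 / 10 * th * d
  win : Nt d M th b ≤ th * d * pr fun q : Tor d M => b + 1 ≤ R1 q
  Mb : 1000 * d ≤ M * (exp (-(6 / 5 * th ^ 2 * d)) / (40 * d)) ^ 4

/-- the dimension is large -/
structure Dim (k d : ℕ) : Prop where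
  d0 : (10 : ℝ) ^ 14 ≤ d
  a1 : 10 ^ 40 * (d : ℝ) ^ 3 ≤ exp (1 / 5 * th ^ 2 * d)
  a2 : 10 ^ 5 * (3 * d : ℝ) ^ k ≤ exp (1 / 5 * th ^ 2 * d)

theorem dim_ev (k : ℕ) : ∀ᶠ d in atTop, Dim k d := by
  have := th0
  filter_upwards [ev_ge (10 ^ 14), ev_pow 3 (10 ^ 40) (c := 1 / 5 * th ^ 2) (by positivity),
    ev_pow k (10 ^ 5 * 3 ^ k) (c := 1 / 5 * th ^ 2) (by positivity)] with d h1 h2 h3
  exact ⟨h1, h2, by rwa [mul_pow, ← mul_assoc]⟩

theorem win_ev {k : ℕ} (h : Dim k d) : ∃ M0 : ℕ, ∀ (M : ℕ) [NeZero M], M0 ≤ M → ∃ b, Win d M b := by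
  have d0 := h.d0
  refine ⟨⌈1000 * d / (exp (-(6 / 5 * th ^ 2 * d)) / (40 * d)) ^ 4⌉₊ + 3, fun M _ hM => ?_⟩
  obtain ⟨b, h1, h2, h3⟩ := window (d := d) (M := M) (by omega) th0 le_rfl (by rw [th]; linarith)
  refine ⟨b, h1, h2, h3, (div_le_iff₀ (by positivity)).1 (Nat.ceil_le.1 (by omega))⟩

variable {k : ℕ} {b : ℝ}

theorem Dim.B (h : Dim k d) : (#(B1 d M k) : ℝ) ≤ (3 * d) ^ k :=
  (Nat.cast_le.2 (card_B1 k)).trans (by
    push_cast
    exact pow_le_pow_left₀ (by positivity) (by linarith [h.d0]) _)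

theorem Win.lo (w : Win d M b) (M3 : 3 ≤ M) : exp (-(6 / 5 * th ^ 2 * d)) ≤ Nt d M th b :=
  le_Nt M3 th0 le_rfl w.b2

theorem Win.up (w : Win d M b) (h : Dim k d) (M3 : 3 ≤ M) :
    Nt d M th b ≤ exp (-(4 / 5 * th ^ 2 * d)) :=
  Nt_le M3 th0 le_rfl (by rw [th]; linarith [h.d0]) w.b1

theorem Win.M3 (w : Win d M b) (h : Dim k d) : 3 ≤ M := by
  have d0 := h.d0
  have : (exp (-(6 / 5 * th ^ 2 * d)) / (40 * d)) ^ 4 ≤ 1 := pow_le_one₀ (by positivity)
    (div_le_one_of_le₀ ((exp_le_one_iff.2 (neg_nonpos.2 (by positivity))).trans (by linarith))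
      (by positivity))
  have : (3 : ℝ) ≤ M := by
    nlinarith [w.Mb, mul_le_mul_of_nonneg_left this (Nat.cast_nonneg (α := ℝ) M)]
  exact_mod_cast this

/-- products of the small quantities -/
theorem Win.sm (w : Win d M b) (h : Dim k d) :
    Nt d M th b * exp (1 / 5 * th ^ 2 * d) ^ 4 ≤ 1 := by
  refine (mul_le_mul_of_nonneg_right (w.up h (w.M3 h)) (by positivity)).trans_eq ?_
  rw [← exp_nat_mul, ← exp_add, exp_eq_one_iff]
  push_cast
  ring

theorem Win.fnh (w : Win d M b) (h : Dim k d) {ε κ ω L : ℝ} {Z a : (Tor d M → ℂ) → Tor d M → ℂ}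
    (ε0 : 0 < ε) (ε1 : ε ≤ 1 / 10 ^ 12) (κ0 : 0 ≤ κ) (κ1 : 10 ^ 6 * d * κ ≤ 1) (ω1 : ω ≤ 1 / 100)
    (L0 : 0 ≤ L) (st : StatH (B1 d M k) b (800 * d * Nt d M th b) ε κ ω L Z a) :
    ∃ η g, 0 < η ∧ ∀ u, 40000 * d * |u| ≤ ε * η →
      FnH (B1 d M k) th b (800 * d * Nt d M th b) ε κ ω L η u Z a g := by
  have d0 := h.d0
  have M3 := w.M3 h
  have N0 := Nt_pos (d := d) (M := M) th b
  set X := exp (1 / 5 * th ^ 2 * d)
  have d3 : (d : ℝ) ^ 2 ≤ d ^ 3 := pow_le_pow_right₀ (by linarith) (by norm_num)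
  have d2 : (d : ℝ) ≤ d ^ 2 := le_self_pow₀ (by linarith) (by norm_num)
  have X1 : 1 ≤ X := by linarith [h.a1]
  have s2 : Nt d M th b * (X * X) ≤ 1 := le_trans (mul_le_mul_of_nonneg_left
    ((sq X).symm.trans_le (pow_le_pow_right₀ X1 (by norm_num))) N0.le) (w.sm h)
  have s1 : Nt d M th b * X ≤ 1 :=
    le_trans (mul_le_mul_of_nonneg_left (le_mul_of_one_le_left (by linarith) X1) N0.le) s2
  have s3 := (mul_le_mul_of_nonneg_left h.a1 N0.le).trans s1
  have Mb : 1000 * d ≤ M * (Nt d M th b / (40 * d)) ^ 4 := w.Mb.trans (by gcongr; exact w.lo M3)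
  have n : FpN d M th b (800 * d * Nt d M th b) ε κ ω L := by
    refine ⟨M3, by exact_mod_cast (by linarith : (1000 : ℝ) ≤ d), th0, le_rfl, w.b1,
      w.b2.trans (by rw [th]; linarith), w.win, ?_, by nlinarith, ?_, ?_, le_rfl, ε0.le, by linarith,
      κ0, κ1, ω1, L0⟩
    · rw [le_div_iff₀ (by linarith)]
      refine le_trans ?_ (w.lo M3)
      refine (mul_le_mul_of_nonneg_left (show 40 * d ≤ X by linarith [h.a1]) (exp_pos _).le).trans ?_
      rw [← exp_add, exp_le_exp]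
      nlinarith [sq_nonneg th]
    · rw [show th ^ 2 * d / 5 = 1 / 5 * th ^ 2 * d by ring]
      linarith [h.a1, show (d : ℝ) * d ^ 2 = d ^ 3 by ring]
    · set x := Nt d M th b / (40 * d)
      have x0 : 0 < x := by positivity
      have x1 : x ≤ 1 := div_le_one_of_le₀ (by nlinarith) (by linarith)
      have M0 := M_pos M
      refine (mul_le_mul_of_nonneg_left (tau_mesh M) (by linarith)).trans ?_
      rw [mul_div_assoc', div_le_div_iff₀ M0 (by norm_num)]
      nlinarith [mul_le_mul_of_nonneg_left (pow_le_pow_of_le_one x0.le x1 (show 3 ≤ 4 by norm_num)) M0.le]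
  obtain ⟨η, g, fx⟩ := n.fix st
  refine ⟨η, g, lt_of_lt_of_le (by positivity) fx.η0, fun u hu => ⟨n, st, fx, by rw [th]; linarith, w.b1.trans' (by rw [th]; linarith),
    ε0, ε1, by nlinarith, by nlinarith, Mb, le_rfl, ?_, hu⟩⟩
  have := mul_le_mul ((h.B (M := M)).trans (show _ ≤ X by linarith [h.a2, show 0 ≤ (3 * d : ℝ) ^ k by positivity]))
    (show 4000 * (d : ℝ) ^ 2 ≤ X by linarith [h.a1]) (by positivity) (by linarith)
  nlinarith [mul_le_mul_of_nonneg_left this N0.le]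

end Pool.Agent.P.MP_d0f69c_mp.XS.Rf
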