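import Pool.Agent.P.MP_d0f69c_mp.XS.PSch3
import Pool.Agent.P.MP_d0f69c_mp.XS.PIni
import Pool.Agent.P.MP_d0f69c_mp.XS.Ref8

/-!
The schedule of the preparation stage, part 4: succession, hand-over and initial state.
-/

set_option autoImplicit false
set_option maxRecDepth 8000
set_option linter.dupNamespace false
set_option linter.unusedSectionVars false
set_option exponentiation.threshold 1000

open Finset Real
open scoped Matrix

namespace Pool.Agent.P.MP_d0f69c_mp.XS.Pre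

variable {d M : ℕ} [NeZero M] {E : PEnv d M} {c : Cn} {l l' : Lv}
  {a a' : Matrix (Tor d M) (Tor d M) ℝ} {K : Tor d M → ℝ}

namespace Hy

variable (h : Hy E c l l' a a')
include h

theorem next (s : ℕ) : (qq E c K s).Next E.η (qq E c K (s + 1)) := by
  have o := h.ok
  have m0 := o.mpos s
  refine ⟨o.θstep s |>.trans_eq' ?_, ?_, fun z => ?_, ?_, o.nOn s, (c.B_succ s).ge, ?_, ?_, ?_, ?_⟩
  · simp only [PPar.b2, PPar.cost, qq]
  · simp only [PPar.b2, PPar.b0, qq, decide_eq_true_eq]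
    split_ifs with e
    · linarith [o.m_mono s]
    · linarith [o.m_early (s := s) (by omega)]
  · simp only [PPar.b2, qH2]
    exact o.H2n s _
  · simp only [PPar.b2, PPar.b0, qq]
    linarith [o.n_mono s, o.npos s]
  · rw [h.η]; exact (c.l_succ s).ge
  · rw [qδ]; exact o.sgn s
  · simp only [qq, pow_succ, div_div, mul_assoc, le_rfl]
  · simp only [qq, pow_succ, div_div, mul_assoc, le_rfl]

theorem d30 : (10 : ℝ) ^ 30 ≤ d := h.dr ▸ h.ok.x8

theorem n8 (s : ℕ) : exp (-(8 * (d : ℝ))) ≤ c.n4 s ^ 2 := by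
  refine le_trans (le_of_eq ?_) (pow_le_pow_left₀ (exp_pos _).le (h.ok.nexp s) 2)
  rw [← exp_nat_mul, h.dr]; congr 1; push_cast; ring

theorem far {z : Tor d M} (e : z ∉ E.nb2) : d ^ 9 < n1 z := by
  rw [h.nb2, mem_bl, sub_zero] at e
  exact (not_le.1 e).trans_le (Rf.nm_le_n1 z)

theorem last : Last E (qq E c K c.T) (bdB c.P (d ^ 3) E.η (E.η / (c.P : ℝ) ^ 250)) := by
  have o := h.ok
  have P0 := o.P0
  have η0 := o.ηpos
  have d0 := h.d30
  have d1 := h.env.d1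
  have m1 := Cn.OK.m_late' (Cn.OK.T1T (c := c)).le
  have n1' : c.n4 c.T = c.η ^ 2 / (c.P : ℝ) ^ 484 := by rw [Cn.n4, m1]; field_simp
  refine ⟨decide_eq_true (Cn.OK.T1T (c := c)).le, by simp [qq, (Cn.OK.T1T (c := c)).le], fun z e => ?_, ?_, fun z e => ?_, ?_,
    by norm_num [bdB], ?_, ?_, ?_, ?_, ?_, ?_, rfl, rfl⟩
  all_goals try simp only [bdB, h.η, h.La]
  · have := mem_bl.1 (h.nb2 ▸ e)
    rwa [sub_zero, ← h.rH] at this
  · have a := Rf.tail_n1 d1 (0 : Tor d M)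
    simp only [sub_zero, ← neg_div] at a
    refine (sum_le_sum_of_subset_of_nonneg (fun z e => mem_filter.2 ⟨mem_univ _, lt_of_le_of_lt
      (Nat.pow_le_pow_right d1 (by norm_num)) (h.far (mem_filter.1 e).2)⟩)
      fun _ _ _ => (exp_pos _).le).trans (a.trans (le_trans ?_ (h.n8 _)))
    have b : 2 * (2 * (d : ℝ) ^ 4 + 1) ≤ exp (5 * d) := by
      have := pow_le_pow_left₀ (by positivity) (show (d : ℝ) ≤ exp d by
        linarith [add_one_le_exp (d : ℝ)]) 5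
      rw [← exp_nat_mul] at this
      have e := one_le_pow₀ (n := 4) (show (1 : ℝ) ≤ d by linarith)
      push_cast at this
      nlinarith
    refine (mul_le_mul_of_nonneg_left (pow_le_pow_left₀ (by positivity) b d) (exp_pos _).le).trans ?_
    rw [← exp_nat_mul, ← exp_add]
    exact exp_le_exp.2 (by nlinarith [mul_le_mul_of_nonneg_left d0 (sq_nonneg (d : ℝ))])
  · refine (exp_le_exp.2 ?_).trans (h.n8 _)
    have a : (d : ℝ) ^ 9 ≤ n1 z := by exact_mod_cast (h.far e).le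
    simp only [qq, Nat.cast_pow]
    rw [neg_div, neg_le_neg_iff, le_div_iff₀ (by positivity)]
    nlinarith [pow_pos (show (0 : ℝ) < d by linarith) 8]
  · have a : √(c.eps c.T) ≤ 1 / 10 ^ 20 := by
      refine sqrt_le_iff.2 ⟨by norm_num, (o.epsu _).trans ?_⟩
      have b := o.Cy (a := 1) le_rfl
      have e := o.pc' (a := 1) (b := 8) (t := 10 ^ 30) (by norm_num) le_rfl
      rw [div_le_iff₀ (pow_pos o.x0 _)] at b ⊢
      linarith [o.x0]
    simp only [qq]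
    linarith [o.θle (s := c.T) (by omega)]
  · rw [show c.η * (c.η / (c.P : ℝ) ^ 250) = (c.η / (c.P : ℝ) ^ 125) ^ 2 by field_simp,
      sqrt_sq (by positivity), div_div, ← pow_add, le_div_iff₀ (by positivity)]
    simp only [qq]
    linarith [o.mP c.T (a := 125 + 10) (t := 10 ^ 4) (by norm_num) (by norm_num)]
  · simp only [qq]
    rw [div_div, le_div_iff₀ (by positivity)]
    have a := mul_le_mul_of_nonneg_left (o.pPc (a := 252) (b := 1060) (t := 200) (by norm_num)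
      (by norm_num)) η0.le
    linarith [mul_le_mul_of_nonneg_left (a.trans o.ηP') η0.le]
  · simp only [qq]
    rw [n1', show (c.P : ℝ) ^ 20 * (c.η / (c.P : ℝ) ^ 250) ^ 2 / 2 =
      (c.P : ℝ) ^ 4 / 2 * (c.η ^ 2 / (c.P : ℝ) ^ 484) by field_simp]
    refine mul_le_mul_of_nonneg_right ?_ (by positivity)
    linarith [o.pPc (a := 0) (b := 4) (t := 2000) (by norm_num) (by norm_num)]
  · simp only [qq]
    rw [n1', div_div, div_pow, ← pow_add, ← pow_mul]
    exact div_le_div_of_nonneg_left (sq_nonneg _) (by positivity) (o.pP (by norm_num))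
  · rw [Nat.cast_pow, h.dp]
    exact o.B3 le_rfl
  · have a := o.D3_U le_rfl
    have b : c.Lg ^ 3 * c.l c.T ≤ c.D3 c.T :=
      Nat.le_mul_of_pos_left _ (pow_pos (by exact_mod_cast P0) _)
    refine le_trans (show c.Lg ^ 3 * c.l c.T ≤ c.P ^ c.y ^ 24 by omega)
      (Nat.pow_le_pow_right (by exact_mod_cast P0) ?_)
    rw [h.dn, show 8 * 3 = 24 from rfl]; omega

theorem psch : PSch E (qq E c (Kq l' a')) c.T1 c.T (bdB c.P (d ^ 3) E.η (E.η / (c.P : ℝ) ^ 250))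
    (c.P ^ (20000 * d ^ 3)) (10 * (c.P : ℝ) ^ 2) := by
  have o := h.ok
  refine ⟨o.T10, Cn.OK.T1T, fun s => h.qok, fun s _ => h.next s, fun s e => if_pos e,
    fun s e e' => (if_neg e.not_gt).trans (if_pos e'), ?_, ?_, h.last, fun s e => ⟨?_, ?_⟩, ?_⟩
  · simp only [qq]
    rw [div_right_comm, div_self (by positivity)]; norm_num
  · simp only [qq]
    rw [div_right_comm, div_self (by positivity)]; norm_num
  · have a := o.D3_U e
    rw [Par.rad, h.D3]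
    refine le_trans (show _ ≤ c.P ^ c.y ^ 24 by omega)
      (Nat.pow_le_pow_right (by exact_mod_cast o.P0) ?_)
    rw [h.dn, show 8 * 3 = 24 from rfl]; omega
  · rw [h.D3, h.D3]
    exact Nat.mul_le_mul_left _ (Nat.mul_le_mul_left _ (o.l_mono e))
  · simp only [qq, sum_const, card_range, nsmul_eq_mul]
    have a : (c.T : ℝ) * 2 ≤ exp (2 * c.P) := by
      linarith [o.sP (s := c.T) (by omega), add_one_le_exp (2 * (c.P : ℝ))]
    rw [← mul_assoc]
    refine (mul_le_mul_of_nonneg_right a (exp_pos _).le).trans ?_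
    rw [← exp_add]
    have b := o.pPc (a := 2) (b := 3) (t := 12) (by norm_num) (by norm_num)
    have e := o.pP (show 1 ≤ 2 by norm_num)
    exact exp_le_exp.2 (by linarith)

theorem init (hE : E.OK) (n1' : E.nb1 = Rf.B1 d M c.k)
    (r : RefB E.H E.η c.C E.A0 E.p E.gt ((c.k' + 1) * (192 * c.k + 111224)) (48 * c.k + 57800) c.l1) :
    PInv E (qq E c K 0).b0 (St0 E) := by
  have o := h.ok
  have P0 := o.P0
  have η0 := o.ηpos
  have G1 := o.G1
  have n0 := o.npos 0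
  have de : (d : ℝ) ^ (48 * c.k + 57800) = c.G ^ 2 * (c.P : ℝ) ^ 1060 := by
    rw [h.dp, Cn.G, c.P_eq, ← pow_mul, ← pow_mul, ← pow_add,
      show (192 * c.k + 19200) * 2 + 400 * 1060 = 8 * (48 * c.k + 57800) by ring]
  have a1 : c.η / (c.G ^ 2 * (c.P : ℝ) ^ 1060) ≤ c.m 0 := by
    refine le_trans (div_le_div_of_nonneg_left η0.le (by positivity) ?_) (o.mge 0)
    rw [mul_comm]
    exact mul_le_mul (le_self_pow₀ G1 two_ne_zero) (o.pP (by norm_num)) (by positivity)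
      (by positivity)
  have a2 : c.η ^ 2 / (c.G ^ 2 * (c.P : ℝ) ^ 1060) ≤ c.n4 0 / 2 := by
    refine le_trans ?_ (div_le_div_of_nonneg_right (o.nge 0) zero_le_two)
    rw [div_div, mul_assoc, mul_comm _ (2 : ℝ)]
    exact div_le_div_of_nonneg_left (sq_nonneg _) (by positivity)
      (mul_le_mul_of_nonneg_left (o.pPc (by norm_num) (by norm_num)) (by positivity))
  have g0 : c.η * (d : ℝ) ^ 3 = c.γ 0 := by simp [Cn.γ, h.dp]
  have H1 : c.m 0 ≤ c.H0 0 := by linarith [o.H0l 0, o.mpos 0]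
  have f1 : (c.y : ℝ) ^ (16 * c.k + 1600) ≤ 4 ^ c.T1 := by exact_mod_cast o.four1
  have f2 : (c.y : ℝ) ^ (80 * c.y ^ 8) * 4 ≤ 4 ^ c.T := by exact_mod_cast o.four2
  have f3 : (4 : ℝ) ^ c.T1 ≤ 4 ^ c.T := pow_le_pow_right₀ (by norm_num) (Cn.OK.T1T (c := c)).le
  have f4 : 50 * (c.P : ℝ) ^ 3 ≤ 4 ^ c.T1 := by
    rw [c.P_eq, ← pow_mul]
    exact (o.pc' (by omega) (by norm_num)).trans f1
  refine pinit hE r (h.env.ref.l1.trans h.l0) (by linarith [o.C1]) ?_ ?_ ?_ (fun z _ => ?_)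
    (fun z e => ?_) ?_ ?_ ?_ (le_trans (by omega) (o.l_lo 0)) (by simp [PPar.b0, qq, Cn.sg]) ?_ ?_
    ?_ ?_ (if_pos o.T10)
  all_goals simp only [PPar.b0, qq, h.η, de, h.hLv, pow_zero, div_one] at *
  · simp [Cn.θ, h.dr]
  · have := o.pc (a := 0) (b := 8) (t := c.C) (by norm_num) (by linarith [o.C1])
    rw [h.dr]; linarith
  · rw [if_neg (by simpa using o.T10.ne')]; exact a1
  · refine a1.trans (le_min ((o.mle 0).trans ((div_le_self η0.le (one_le_pow₀ o.P1)).trans (o.γ0 0)))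
      (H1.trans (le_mul_of_one_le_right ((o.mpos 0).le.trans H1) (one_le_pow₀ o.x1))))
  · refine le_min g0.le (le_trans ?_ (mul_le_mul ((o.mge 0).trans H1) (o.pw (a := 192 * c.k + 111224)
      ((Nat.le_div_iff_mul_le (Nat.succ_pos _)).2 ((mul_comm _ _).trans_le
        (e.le.trans (Nat.le_add_right _ _))))) (pow_pos o.x0 _).le
      ((o.mpos 0).le.trans H1)))
    rw [h.dp, show 192 * c.k + 111224 = (192 * c.k + 19200) + (400 * 230 + 8 * 3) by ring, 
      pow_add _ (192 * c.k + 19200), pow_add _ (400 * 230), pow_mul _ 400, ← c.P_eq,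
      show (c.y : ℝ) ^ (192 * c.k + 19200) = c.G from rfl]
    exact le_of_eq (by field_simp)
  · exact a2
  · linarith [o.nO1 0]
  · simp [Cn.B]
  · have a : (E.nb1.card : ℝ) ≤ ((c.y : ℝ) ^ 16) ^ c.k := by
      rw [n1']
      refine (Nat.cast_le.2 (Rf.card_B1 _)).trans ?_
      push_cast
      refine pow_le_pow_left₀ (by positivity) ?_ _
      linarith [o.pc' (a := 8) (b := 16) (t := 3) (by norm_num) (by norm_num), h.dr, h.d30]
    rw [← pow_mul] at a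
    linarith [o.pc' (a := 16 * c.k) (b := 16 * c.k + 1600) (t := 2) (by omega) (by norm_num)]
  · linarith [show 0 ≤ (4 : ℝ) ^ c.T1 by positivity]
  · have a : (E.nb2.card : ℝ) ≤ ((c.y : ℝ) ^ 80) ^ c.y ^ 8 := by
      rw [h.nb2, ← h.hd]
      refine (Nat.cast_le.2 (vol_tn_le _)).trans ?_
      push_cast
      refine pow_le_pow_left₀ (by positivity) ?_ _
      linarith [o.pc' (a := 8 * 9) (b := 80) (t := 3) (by norm_num) (by norm_num), h.dp 9,
        o.pw (show 0 ≤ 8 * 9 by norm_num)]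
    rw [← pow_mul] at a
    linarith [show 0 ≤ (4 : ℝ) ^ c.T by positivity]
  · linarith [show 0 ≤ (4 : ℝ) ^ c.T by positivity]

end Hy

theorem LvB.mono {C C' : ℝ} {j k : ℕ} (b : LvB d C j k l) (e : C ≤ C') : LvB d C' j k l :=
  ⟨b.e.trans (by gcongr), b.n0.trans (by gcongr), b.ν, b.ks, b.La, b.L⟩

theorem RefB.mono {X : Matrix (Tor d M) (Tor d M) ℝ} {η C C' : ℝ} {A : Matrix (Tor d M) (Tor d M) ℂ}
    {p gt : Tor d M → ℝ} {k e n : ℕ} (r : RefB X η C A p gt k e n) (hp : ∀ x, 0 ≤ p x)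
    (hC : C ≤ C') : RefB X η C' A p gt k e n :=
  ⟨r.near, r.sup, r.l4, PG5.ul_mono hp r.ul (by gcongr), r.rr.mono (by gcongr), r.dec, r.gt, r.sh⟩

theorem t_pre (hR : S_PREF) (hU : S_PRUN) : S_PRE := by
  obtain ⟨k, hR⟩ := hR 25301
  obtain ⟨k', hR⟩ := hR (48 * k + 30101)
  obtain ⟨C, d0, hR⟩ := hR ((k' + 1) * (192 * k + 111224)) (48 * k + 57800)
  obtain ⟨y, y1, y2⟩ : ∃ y : ℕ, 10 ^ 30 * (|C| + 1) ≤ y ∧ 10 ^ 6 * (k + 1000) + k' + d0 ≤ y :=
    ((tendsto_natCast_atTop_atTop.eventually_ge_atTop _).and (Filter.eventually_ge_atTop _)).exists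
  have CC : C ≤ |C| + 1 := by linarith [le_abs_self C]
  obtain ⟨d, hd⟩ : ∃ d, d = y ^ 8 := ⟨_, rfl⟩
  have dy : y ≤ d := hd ▸ Nat.le_self_pow (by norm_num) y
  have dr : (d : ℝ) = (y : ℝ) ^ 8 := by rw [hd, Nat.cast_pow]
  obtain ⟨CS, M0, c1, hR⟩ := hR d (by omega)
  have de : ∀ c : Cn, c.y = y → c.k = k →
      (d : ℝ) ^ (48 * k + 57800) = c.G ^ 2 * (c.P : ℝ) ^ 1060 := fun c e1 e2 => by
    rw [dr, Cn.G, c.P_eq, e1, e2, ← pow_mul, ← pow_mul, ← pow_mul, ← pow_add,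
      show (192 * k + 19200) * 2 + 400 * 1060 = 8 * (48 * k + 57800) by ring]
  have ok : ∀ (η : ℝ) (n : ℕ), exp (-(d : ℝ)) ≤ η → η ≤ 1 / (d : ℝ) ^ (48 * k + 57800) →
      (n : ℝ) ≤ 1 / η ^ 3 → Cn.OK ⟨y, k, k', |C| + 1, η, n⟩ := fun η n a b e =>
    ⟨by linarith [abs_nonneg C], y1, by show 10 ^ 6 * (k + 1000) ≤ y; omega,
      by show k' ≤ y; omega, dr ▸ a, de ⟨y, k, k', |C| + 1, η, n⟩ rfl rfl ▸ b, e⟩
  obtain ⟨E1, η1, _, _, _, _, _, -, a1, a2, -, -, -, -, a3⟩ := hR (M0 + 1) (Nat.le_succ _)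
  obtain ⟨_, _, _, n1', -, a4, a5, -⟩ := a3 E1 (by simp [(exp_pos _).le])
  have o1 := ok η1 n1' a1 a2 a4
  have d2 : (10 : ℝ) ^ 30 ≤ d := dr ▸ o1.x8
  have d1 : (1 : ℝ) ≤ d := by linarith
  have d3 : (d : ℝ) ≤ (d ^ 3 : ℕ) := by exact_mod_cast Nat.le_self_pow (by norm_num) d
  have d4 : 3 * (d : ℝ) ≤ (d ^ 3 : ℕ) := by
    push_cast; nlinarith [mul_le_mul_of_nonneg_left d2 (sq_nonneg (d : ℝ))]
  have U0 : (0 : ℝ) < (y ^ 400 : ℕ) := o1.P0
  have dU : ∀ n, n < 50 → ∀ t : ℝ, t ≤ 10 ^ 30 → t * (d : ℝ) ^ n ≤ (y ^ 400 : ℕ) := fun n e t ht => by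
    rw [dr, ← pow_mul]; exact o1.yP (by omega) ht
  refine ⟨d, y ^ 400, d ^ 3, exp (-2 * d), CS, by omega, Nat.one_le_pow _ _ (by omega), hd ▸ o1.big,
    ?_, ?_, exp_le_one_iff.2 (by linarith), (y ^ 400) ^ y ^ 24 + M0, fun ρ M _ hρ hM => ?_⟩
  · have := pow_le_pow_left₀ (zero_le_one.trans a5.c1) c1 2
    refine (mul_le_mul_of_nonneg_left this (by positivity)).trans ?_
    rw [← pow_mul, mul_assoc, ← pow_add]
    exact dU _ (by norm_num) _ (by norm_num)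
  · rw [neg_mul, exp_neg, one_div]
    exact inv_anti₀ (exp_pos _) (o1.Ub (by linarith))
  have ρ0 : 0 < ρ := lt_of_lt_of_le (by have : 0 < y := by omega
                                        positivity) hρ
  have ρM : ρ ≤ M := hM ▸ Nat.le_self_pow (by omega) ρ
  obtain ⟨E0, η, A, l, l', a, a', e0, η0, η2, b, b', tr, ker, hE⟩ := hR M (by omega)
  have ηp : 0 < η := (exp_pos _).trans_le η0
  have o2 := ok η 0 η0 η2 (by rw [Nat.cast_zero]; positivity)
  have c2 : exp (-2 * (d : ℝ)) ≤ η := (exp_le_exp.2 (by linarith)).trans η0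
  have ηP : η * ((y ^ 400 : ℕ) : ℝ) ^ 1060 ≤ 1 := o2.ηP'
  have pP : ∀ {m n : ℕ}, m ≤ n → η * ((y ^ 400 : ℕ) : ℝ) ^ m ≤ η * ((y ^ 400 : ℕ) : ℝ) ^ n :=
    fun e => mul_le_mul_of_nonneg_left (o2.pP e) ηp.le
  refine ⟨E0, η, η / ((y ^ 400 : ℕ) : ℝ) ^ 250, -(η * Complex.I), e0, c2, ?_, ?_, ?_,
    (div_mul_cancel₀ _ (by positivity)).le, by simpa using c2,
    by simpa [abs_of_pos ηp] using o2.η_one, fun Eg hg N _ _ => ?_⟩
  · rw [le_div_iff₀ (by positivity)]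
    have := mul_le_mul_of_nonneg_left (dU 1 (by norm_num) (10 ^ 8) (by norm_num)) ηp.le
    linarith [pP (show 1 ≤ 1060 by norm_num)]
  · refine le_trans ?_ (o2.ηexp (a := 250) (by norm_num))
    rw [exp_neg, one_div]
    refine inv_anti₀ (exp_pos _) (o2.Ub ?_)
    rw [Nat.cast_mul, ← dr]
    push_cast at d3 ⊢
    linarith
  · rw [show 800 = 250 + 550 from rfl, pow_add, ← mul_assoc, div_mul_cancel₀ _ (by positivity)]
    exact (pP (by norm_num)).trans ηP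
  obtain ⟨p, gt, l0, n, g1, g2, rf, tl, rb⟩ := hE Eg hg
  have o := ok η n η0 η2 g2
  have U1 : 0 < y ^ 400 := by exact_mod_cast U0
  have dd : 1 ≤ d ^ 3 := Nat.one_le_pow _ _ (by omega)
  refine ⟨p, gt, l0, d ^ 9, Nat.one_le_pow _ _ (by omega), ?_, g1.trans ?_, rf,
    fun D D0 => (tl D D0).trans (mul_le_mul_of_nonneg_right (by
      simpa using dU 10 (by norm_num) 1 (by norm_num)) (by positivity)), fun eo => ?_⟩
  · refine le_trans ?_ (Nat.le_self_pow (by omega) _)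
    exact_mod_cast (one_mul _).ge.trans (dU 9 (by norm_num) 1 (by norm_num))
  · exact_mod_cast o.l1e.trans (o.Ub (a := 1100 * d ^ 3) (by
      rw [Nat.cast_mul, ← dr]
      push_cast at d4 ⊢
      linarith [show 0 ≤ (d : ℝ) ^ 3 by positivity]))
  let E : PEnv d M := ⟨envB d M Eg η CS (-(η * Complex.I)) p gt N l0 (d ^ 9) ρ, A, Rf.B1 d M k,
    bl 0 (d ^ 9), 50 * ((y ^ 400 : ℕ) : ℝ) ^ 3, (d : ℝ) ^ 4, η / d⟩
  have hy : Hy E ⟨y, k, k', |C| + 1, η, n⟩ l l' a a' :=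
    ⟨o, hd, eo, rfl, c1, g1, rfl, le_trans (Nat.le_add_right _ _) hρ, de ⟨y, k, k', |C| + 1, η, n⟩ rfl rfl ▸ rb.gt, rb.sh,
      fun _ => Rf.mem_B1, rfl, rfl, rfl, rfl, b.mono CC, b'.mono CC, tr, fun ε e => (ker ε e).2⟩
  have hE : E.OK := by
    refine ⟨eo, fun x => ?_, rfl, fun z e => ?_, fun z e => ?_, one_le_pow₀ d1,
      fun ε e => (ker ε e).1⟩
    · obtain ⟨w, w1, w2⟩ := Om_cov (hM ▸ dvd_pow_self ρ (by omega)) ρ0 x
      exact ⟨w, w1, w2.trans (Nat.le_self_pow two_ne_zero ρ)⟩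
    · exact Rf.mem_B1.2 ((Rf.n1_neg z).trans_le (Rf.mem_B1.1 e))
    · have := mem_bl.1 e
      refine mem_bl.2 ?_
      rwa [sub_zero, ← zero_sub, nm_comm]
  exact hU d M E _ _ _ _ _ _ hE hy.psch (hy.init hE rfl (rb.mono rf.p0 CC))

end Pool.Agent.P.MP_d0f69c_mp.XS.Pre
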