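import Pool.Agent.P.MP_d0f69c_mp.XS.PS1
import Pool.Agent.P.MP_d0f69c_mp.XS.ChaosB

/-!
A majorant of the dressed kernel that holds with high probability.
-/

set_option autoImplicit false

open Finset Real Matrix

namespace Pool.Agent.P.MP_d0f69c_mp.XS.Pre

variable {ι : Type} [Fintype ι] [DecidableEq ι]

omit [Fintype ι] [DecidableEq ι] in
theorem PM.div {ρ : ι → ι → ℝ} (h : PM ρ) {L : ℝ} (hL : 0 ≤ L) : PM fun x y => ρ x y / L :=
  ⟨fun x => by rw [h.zero, zero_div], fun x y => by rw [h.symm], fun x y z => by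
    rw [← add_div]; exact div_le_div_of_nonneg_right (h.tri x y z) hL⟩

omit [Fintype ι] [DecidableEq ι] in
theorem PM.tri_nat {ρ : ι → ι → ℕ} (h : PM fun x y => (ρ x y : ℝ)) (x y z : ι) :
    ρ x z ≤ ρ x y + ρ y z := by exact_mod_cast h.tri x y z

omit [Fintype ι] [DecidableEq ι] in
theorem Rg.ab {ρ : ι → ι → ℕ} {a : Matrix ι ι ℝ} {n : ℕ} (h : Rg ρ a n) : Rg ρ (ab a) n :=
  fun x y e => h x y fun e0 => e (by simp [Pre.ab, e0])

omit [Fintype ι] [DecidableEq ι] in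
theorem ab_T {a : Matrix ι ι ℝ} (h : aᵀ = a) : (ab a)ᵀ = ab a := by
  ext x y; rw [transpose_apply, ab, ab, ← transpose_apply a, h]

variable {A : Matrix ι ι ℂ} {a : Matrix ι ι ℝ} {e ν : ℝ}

omit [DecidableEq ι] in
theorem col_sq (ha : KW (fun _ _ => 0) (ab a) e) (hν : ∀ z, ∑ x, ‖A x z - a x z‖ ^ 2 ≤ ν) (z : ι) :
    ∑ x, ‖A x z‖ ^ 2 ≤ 2 * e ^ 2 + 2 * ν := by
  have h1 : ∑ x, ab a x z ^ 2 ≤ e ^ 2 := (sum_sq_le_sq_sum_of_nonneg fun x _ => ha.nn x z).trans
    (pow_le_pow_left₀ (sum_nonneg fun x _ => ha.nn x z) (ha.col' pm_zero z) 2)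
  have h2 : ∑ x, ‖A x z‖ ^ 2 ≤ ∑ x, (2 * ab a x z ^ 2 + 2 * ‖A x z - a x z‖ ^ 2) :=
    sum_le_sum fun x _ => by
      have := norm_le_insert' (A x z) (a x z)
      rw [Complex.norm_real, Real.norm_eq_abs] at this
      have := pow_le_pow_left₀ (norm_nonneg _) this 2
      unfold ab
      nlinarith [sq_nonneg (|a x z| - ‖A x z - a x z‖)]
  rw [sum_add_distrib, ← mul_sum, ← mul_sum] at h2
  linarith [hν z]

/-- the response to one far column -/
theorem maj_z {n : ℕ} (hA : OpLe univ A (1 / 100)) (ha : KW (fun _ _ => 0) (ab a) e)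
    (hν : ∀ z, ∑ x, ‖A x z - a x z‖ ^ 2 ≤ ν) (hn : (n + 1) * (2 * e ^ 2 + 2 * ν) ≤ 1 / 4000)
    (Y : Finset ι) (ϖ : ι → Bool) (z : ι) : ∃ b : ι → ℝ, (∀ u, 0 ≤ b u) ∧ ∑ u, b u ^ 2 ≤ 8 * ν ∧
      ∀ u, pr (fun s : ι → Bool => b u + 2 * (1 / 50) ^ n * √ν <
        ‖((Vs (mix Y s ϖ) * Tt A (mix Y s ϖ)) *ᵥ fun x => A x z - a x z) u‖) ≤ n / 2 ^ (n + 1) := by
  have ν0 : 0 ≤ ν := (sum_nonneg fun _ _ => sq_nonneg _).trans (hν z)
  obtain ⟨b, h1, h2, h3⟩ := chaosY_inv (a := A) (ρ := 1 / 100) (n := n) (by norm_num) (by norm_num)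
    (fun x => by
      have := hA x
      rwa [nS_le_iff (mul_nonneg (by norm_num) (nS_nonneg _ _)), mul_pow, nS_sq] at this)
    Y (fun w _ => col_sq ha hν w) (by positivity) hn (W := fun x => sgn (ϖ x))
    (fun w _ => (norm_sgn _).le) fun x => A x z - a x z
  refine ⟨b, h1, by linarith [hν z], fun u => (pr_mono fun s hs => ?_).trans (h3 u)⟩
  have e1 : diagonal (Wc (fun x => sgn (ϖ x)) s Y) = Vs (mix Y s ϖ) := by
    rw [Vs]; congr 1; funext x; simp only [Wc, mix]; split_ifs <;> rfl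
  rw [e1, R_eq (unit_V hA (by norm_num) (by norm_num) _)]
  refine lt_of_le_of_lt ?_ hs
  have := Real.sqrt_le_sqrt (hν z)
  rw [show (2 : ℝ) * (1 / 100) = 1 / 50 by norm_num]
  gcongr

/-- a majorant for the columns -/
theorem maj_col {ρ : ι → ι → ℕ} (hρ : PM fun x y => (ρ x y : ℝ)) {L j j0 n : ℕ} {Vb : ℝ}
    (hA : OpLe univ A (1 / 100)) (ha : KW (fun _ _ => 0) (ab a) e) (h0 : 0 ≤ e) (he : e ≤ 1 / 100)
    (hj : Rg ρ a j0) (hν : ∀ z, ∑ x, ‖A x z - a x z‖ ^ 2 ≤ ν)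
    (hn : (n + 1) * (2 * e ^ 2 + 2 * ν) ≤ 1 / 4000) (hL : n * j0 ≤ L)
    (hV : ∀ x, (#{z | ρ z x ≤ L} : ℝ) ≤ Vb) (hVn : Vb ≤ 2500 ^ n) (hT : e ^ (2 * (j + 1)) ≤ ν)
    (Y : Finset ι) (ϖ : ι → Bool) : ∃ b : Matrix ι ι ℝ, (∀ u v, 0 ≤ b u v) ∧
      (∀ v, ∑ u with ρ u v ≤ L, b u v ^ 2 ≤ 55 * ν) ∧ ∀ u v, pr (fun s : ι → Bool =>
        geo (ab a) j u v + b u v < ‖alw A (mix Y s ϖ) u v‖) ≤ Vb * (n / 2 ^ (n + 1)) := by
  have e1 : e < 1 := by linarith
  have ν0 : 0 ≤ ν := le_trans (by positivity) hT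
  choose b b0 b1 b2 using maj_z hA ha hν hn Y ϖ
  obtain ⟨Tl, t1, t2⟩ := res_tail ha pm_zero h0 e1 j
  obtain ⟨D, d1, d2⟩ := res_split ha pm_zero e1 ha (KW.zero le_rfl) e1 h0 (fun x y => by simp) n
  set k : Matrix ι ι ℝ := 1 + geo (ab a) n with hk
  have k1 : KW (fun _ _ => 0) k (100 / 99) := ((KW.one pm_zero).add
    (geo_kw ha pm_zero e1 h0 n)).le (by
      have : e / (1 - e) ≤ 1 / 99 := by rw [div_le_iff₀ (by linarith)]; linarith
      linarith)
  have k2 : Rg ρ k L := Rg.add (fun x y h => by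
    by_cases c : x = y
    · have : ρ y y = 0 := by exact_mod_cast hρ.zero y
      rw [c, this]; exact Nat.zero_le _
    · exact absurd (one_apply_ne c) h) ((hj.ab.geo hρ.tri_nat n).mono hL)
  set q : ℝ := (1 / 50) ^ n * √ν with hq
  have q0 : 0 ≤ q := by positivity
  refine ⟨fun u v => ∑ z, k z v * b z u + Tl u v + 3 * q, fun u v => add_nonneg (add_nonneg
    (sum_nonneg fun z _ => mul_nonneg (k1.nn _ _) (b0 _ _)) (t1.nn _ _)) (by positivity),
    fun v => ?_, fun u v => ?_⟩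
  · have s1 := sq_mix (k := fun z => k z v) (f := b) (m := 8 * ν) {u | ρ u v ≤ L}
      (fun z => k1.nn z v) (k1.col' pm_zero v) (by positivity) fun z =>
        (sum_le_univ_sum_of_nonneg fun u => sq_nonneg _).trans (b1 z)
    have s2 : ∑ u with ρ u v ≤ L, Tl u v ^ 2 ≤ (100 / 99) ^ 2 * ν := by
      refine (sum_le_univ_sum_of_nonneg fun u => sq_nonneg _).trans
        ((sum_sq_le_sq_sum_of_nonneg fun x _ => t1.nn x v).trans ((pow_le_pow_left₀
          (sum_nonneg fun x _ => t1.nn x v) (t1.col' pm_zero v) 2).trans ?_))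
      rw [div_eq_inv_mul, mul_pow, ← pow_mul, mul_comm (j + 1)]
      refine mul_le_mul (pow_le_pow_left₀ (inv_nonneg.2 (by linarith)) ?_ 2) hT (by positivity)
        (by positivity)
      rw [inv_le_comm₀ (by linarith) (by norm_num)]; linarith
    have s3 : ∑ _u with ρ _u v ≤ L, (3 * q) ^ 2 ≤ 9 * ν := by
      rw [sum_const, nsmul_eq_mul]
      refine (mul_le_mul_of_nonneg_right ((hV v).trans hVn) (sq_nonneg _)).trans (le_of_eq ?_)
      rw [hq, mul_pow, mul_pow, sq_sqrt ν0, ← pow_mul, mul_comm n 2, pow_mul, mul_left_comm,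
        ← mul_assoc (2500 ^ n), ← mul_pow]
      norm_num
    refine (sum_le_sum (g := fun u => 3 * ((∑ z, k z v * b z u) ^ 2 + Tl u v ^ 2 + (3 * q) ^ 2))
      fun u _ => ?_).trans ?_
    · nlinarith [sq_nonneg (∑ z, k z v * b z u - Tl u v), sq_nonneg (Tl u v - 3 * q),
        sq_nonneg (∑ z, k z v * b z u - 3 * q)]
    · rw [← mul_sum, sum_add_distrib, sum_add_distrib]; linarith
  · refine (pr_mono fun s hs => ?_).trans ((pr_ex_le {z | ρ z v ≤ L} _ fun z _ => b2 z u).trans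
      (mul_le_mul_of_nonneg_right (hV v) (by positivity)))
    by_contra hc
    push Not at hc
    set w := mix Y s ϖ
    set f : ι → ℝ := fun z => ‖((Vs w * Tt A w) *ᵥ fun x => A x z - a x z) u‖ with hf
    have f1 : ∀ z, f z ≤ 100 / 99 * √ν := fun z => by
      refine abs_le_of_sq_le_sq' ?_ (by positivity) |>.2
      rw [mul_pow, sq_sqrt ν0]
      exact ((single_le_sum (f := fun u => ‖((Vs w * Tt A w) *ᵥ fun x => A x z - a x z) u‖ ^ 2)
        (fun _ _ => sq_nonneg _) (mem_univ u)).trans (R_vec hA w _)).trans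
        (mul_le_mul_of_nonneg_left (hν z) (by positivity))
    have a1 := diff_col hA ha h0 e1 w u v
    have a2 : ∑ z, res (ab a) z v * f z ≤ ∑ z, (k z v * b z u + (k z v * (2 * q) +
        D z v * (100 / 99 * √ν))) := sum_le_sum fun z _ => by
      have c1 : k z v * f z ≤ k z v * (b z u + 2 * q) := by
        by_cases c : k z v = 0
        · simp [c]
        · refine mul_le_mul_of_nonneg_left ?_ (k1.nn z v)
          rw [hq, ← mul_assoc]
          exact hc z (by simpa using k2 z v c)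
      have c2 := mul_le_mul_of_nonneg_left (f1 z) (d1.nn z v)
      have c3 := mul_le_mul_of_nonneg_right (d2 z v) (norm_nonneg _ : 0 ≤ f z)
      rw [← Matrix.add_apply, ← hk] at c3
      linarith
    rw [sum_add_distrib, sum_add_distrib, ← sum_mul, ← sum_mul] at a2
    have a3 := mul_le_mul_of_nonneg_right (k1.col' pm_zero v) (show 0 ≤ 2 * q by positivity)
    have a4 : (∑ z, D z v) * (100 / 99 * √ν) ≤ 1 / 2 * q := by
      have c1 : e ^ n ≤ (1 / 50) ^ n := pow_le_pow_left₀ h0 (by linarith) n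
      have c2 : ∑ z, D z v ≤ 1 / 99 * (1 / 50) ^ n := (d1.col' pm_zero v).trans (by
        rw [zero_div, zero_add, div_le_iff₀ (by linarith), pow_succ]
        have : (0 : ℝ) ≤ (1 / 50) ^ n := by positivity
        nlinarith [pow_nonneg h0 n])
      refine (mul_le_mul_of_nonneg_right c2 (by positivity)).trans ?_
      rw [hq]; nlinarith
    have a5 := (alw_le ha h0 e1 w u v).trans (t2 u v)
    have a6 := norm_le_insert' (alw A w u v) (alw (cr a) w u v)
    simp only at hs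
    linarith

/-- the symmetric majorant: a fixed near kernel and a far part with small weighted mass -/
theorem maj_b {ρ : ι → ι → ℕ} (hρ : PM fun x y => (ρ x y : ℝ)) {L j j0 n : ℕ} {La Vb : ℝ}
    (hLa : 0 < La) (hL' : La ≤ L) (hA : WN (fun x y => (ρ x y : ℝ) / La) A (1 / 100)) (hs : Aᵀ = A)
    (has : aᵀ = a) (ha : KW (fun _ _ => 0) (ab a) e) (h0 : 0 ≤ e) (he : e ≤ 1 / 100)
    (hj : Rg ρ a j0) (hν : ∀ z, ∑ x, ‖A x z - a x z‖ ^ 2 ≤ ν)
    (hn : (n + 1) * (2 * e ^ 2 + 2 * ν) ≤ 1 / 4000) (hL : n * j0 ≤ L)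
    (hV : ∀ x, (#{z | ρ z x ≤ L} : ℝ) ≤ Vb) (hVn : Vb ≤ 2500 ^ n) (hT : e ^ (2 * (j + 1)) ≤ ν)
    (hF : ∀ x, ∑ z with L < ρ z x, exp (-(ρ z x / La)) ≤ ν) (Y : Finset ι) (ϖ : ι → Bool) :
    ∃ b b2 : Matrix ι ι ℝ, bᵀ = b ∧ b2ᵀ = b2 ∧ (∀ u v, 0 ≤ b u v) ∧ (∀ u v, 0 ≤ b2 u v) ∧
      (∀ u v, b u v ≤ geo (ab a) j u v + b2 u v) ∧ (∀ u v, b u v ≤ exp (-(ρ u v / La)) / 99) ∧
      KW (fun x y => (ρ x y : ℝ) / L) (fun u v => b2 u v ^ 2) (150 * ν) ∧
      ∀ u v, pr (fun s : ι → Bool => b u v < ‖alw A (mix Y s ϖ) u v‖) ≤ Vb * (n / 2 ^ n) := by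
  have hr := hρ.div hLa.le
  have L0 : (0 : ℝ) < L := hLa.trans_le hL'
  have sy : ∀ u v, ρ u v = ρ v u := fun u v => by exact_mod_cast hρ.symm u v
  obtain ⟨c, c0, c1, c2⟩ := maj_col hρ (hA.opLe hr) ha h0 he hj hν hn hL hV hVn hT Y ϖ
  set b2 : Matrix ι ι ℝ := fun u v =>
    if ρ u v ≤ L then min (c u v) (c v u) else exp (-(ρ u v / La)) / 99 with hb2
  have s2 : ∀ u v, b2 u v = b2 v u := fun u v => by simp only [hb2, sy u v, min_comm]
  have p2 : ∀ u v, 0 ≤ b2 u v := fun u v => by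
    simp only [hb2]; split_ifs; exacts [le_min (c0 _ _) (c0 _ _), by positivity]
  have g0 := (geo_kw ha pm_zero (by linarith) h0 j).nn
  have gs : ∀ u v, geo (ab a) j u v = geo (ab a) j v u := fun u v => by
    rw [← transpose_apply (geo _ _), geo_symm (ab_T has)]
  have cl : ∀ v, ∑ u, b2 u v ^ 2 * exp (ρ u v / L) ≤ 150 * ν := fun v => by
    rw [← sum_filter_add_sum_filter_not univ fun u => ρ u v ≤ L]
    have a1 : ∑ u with ρ u v ≤ L, b2 u v ^ 2 * exp (ρ u v / L) ≤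
        ∑ u with ρ u v ≤ L, c u v ^ 2 * (272 / 100) := sum_le_sum fun u hu => by
      have hu := (mem_filter.1 hu).2
      refine mul_le_mul (pow_le_pow_left₀ (p2 u v) (by simp [hb2, hu]) 2)
        ((exp_le_exp.2 ?_).trans (exp_one_lt_d9.le.trans (by norm_num))) (exp_pos _).le
        (sq_nonneg _)
      rw [div_le_one L0]; exact_mod_cast hu
    have a2 : ∑ u with ¬ρ u v ≤ L, b2 u v ^ 2 * exp (ρ u v / L) ≤
        ∑ u with L < ρ u v, 1 / 99 ^ 2 * exp (-(ρ u v / La)) := by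
      simp only [not_le]
      refine sum_le_sum fun u hu => ?_
      have hu := not_le.2 (mem_filter.1 hu).2
      simp only [hb2, if_neg hu]
      rw [div_pow, sq (exp _), div_mul_eq_mul_div, ← exp_add, ← exp_add, div_eq_inv_mul, one_div]
      refine mul_le_mul_of_nonneg_left (exp_le_exp.2 ?_) (by positivity)
      have := div_le_div_of_nonneg_left (Nat.cast_nonneg (α := ℝ) (ρ u v)) hLa hL'
      linarith
    rw [← sum_mul] at a1
    rw [← mul_sum] at a2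
    have := (sum_nonneg fun _ _ => sq_nonneg _).trans (c1 v)
    linarith [c1 v, hF v]
  refine ⟨fun u v => min (geo (ab a) j u v + b2 u v) (exp (-(ρ u v / La)) / 99), b2, ?_, ?_,
    fun u v => le_min (add_nonneg (g0 u v) (p2 u v)) (by positivity), p2, fun u v => min_le_left _ _,
    fun u v => min_le_right _ _, ⟨fun u v => sq_nonneg _, fun u => ?_, cl⟩, fun u v => ?_⟩
  · ext u v; rw [transpose_apply, gs, s2, sy]
  · ext u v; exact s2 v u
  · simpa only [s2 u, sy u] using cl u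
  · refine (pr_mono fun s hs' => ?_).trans ((pr_or _ _).trans ((add_le_add (c2 u v) (c2 v u)).trans
      (le_of_eq (by rw [pow_succ]; ring))))
    have a1 := (wn_alw hA hr (by norm_num) (by norm_num) (mix Y s ϖ)).entry hr u v
    rw [show (1 : ℝ) / 100 / (1 - 1 / 100) = 99⁻¹ by norm_num, ← div_eq_inv_mul] at a1
    have a2 := (min_lt_iff.1 hs').resolve_right (not_lt.2 a1)
    by_cases hu : ρ u v ≤ L
    · simp only [hb2, if_pos hu, ← min_add_add_left, min_lt_iff] at a2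
      refine a2.imp id fun h => ?_
      rwa [← gs, ← transpose_apply (alw _ _), alw_T hs]
    · simp only [hb2, if_neg hu] at a2
      linarith [g0 u v]

end Pool.Agent.P.MP_d0f69c_mp.XS.Pre
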