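import Pool.Agent.P.MP_d0f69c_mp.XS.PMaj3
import Pool.Agent.P.MP_d0f69c_mp.XS.PS1b

/-!
Summary of the static block: what the dynamic blocks may use about `al`, `Ww`, `Dt`.
The seminorm of the channel of `v` is `Nv A Y ϖ v`.
-/

set_option autoImplicit false

open Finset Function Real
open scoped Matrix

namespace Pool.Agent.P.MP_d0f69c_mp.XS.Pre

/-- the numbers of one level of the near and far decomposition -/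
structure Lv where
  e : ℝ
  n0 : ℝ
  ν : ℝ
  La : ℝ
  Vb : ℝ
  L : ℕ
  j : ℕ
  j0 : ℕ
  n : ℕ

/-- size of the near part -/
noncomputable def Lv.κ (l : Lv) : ℝ := 3 * l.e
/-- total mass of the majorant -/
noncomputable def Lv.ν1 (l : Lv) : ℝ := 1000 * l.n0
/-- mass of the far part -/
noncomputable def Lv.ν2 (l : Lv) : ℝ := 2000 * l.ν
/-- range of the near kernel -/
def Lv.ks (l : Lv) : ℕ := l.j * (l.j * l.j0)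

structure Lv.OK (l : Lv) : Prop where
  e0 : 0 < l.e
  e1 : l.e ≤ 1 / 1000
  n1 : l.n0 ≤ l.e ^ 2
  ν1 : 2 * l.ν ≤ l.n0
  La0 : 0 < l.La
  LaL : l.La ≤ l.L
  hn : (l.n + 1) * (2 * l.e ^ 2 + 2 * l.ν) ≤ 1 / 4000
  nL : l.n * l.j0 ≤ l.L
  jL : l.j * l.j0 ≤ l.L
  hT : l.e ^ (l.j + 1) ≤ l.ν
  hp : l.Vb ^ 3 * (l.n + 1) ≤ l.ν * 2 ^ l.n

variable {ι : Type} [Fintype ι] [DecidableEq ι]

/-- the distance `ρ` and the real near kernel `a` -/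
structure Geo (ρ : ι → ι → ℕ) (l : Lv) (a : Matrix ι ι ℝ) : Prop where
  ok : l.OK
  pm : PM fun x y => (ρ x y : ℝ)
  vb : ∀ x, (#{z | ρ z x ≤ l.L} : ℝ) ≤ l.Vb
  tail : ∀ x, ∑ z with l.L < ρ z x, exp (-(ρ z x / l.La)) ≤ l.ν
  sy : aᵀ = a
  l1 : KW (fun _ _ => 0) (ab a) l.e
  l2 : ∀ y, ∑ x, off (ab a) x y ^ 2 ≤ l.n0
  rg : Rg ρ a l.j0

/-- the kernel `A` is the near kernel `a` plus a far part -/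
structure Ker (ρ : ι → ι → ℕ) (l : Lv) (a : Matrix ι ι ℝ) (A : Matrix ι ι ℂ) : Prop where
  geo : Geo ρ l a
  sy : Aᵀ = A
  wn : WN (fun x y => (ρ x y : ℝ) / l.La) A (1 / 100)
  far : ∀ z, ∑ x, ‖A x z - a x z‖ ^ 2 ≤ l.ν

/-- the fixed near kernel -/
noncomputable def Kn (l : Lv) (a : Matrix ι ι ℝ) : Matrix ι ι ℝ :=
  (8 / (15 * l.e)) • off (geo ((3 / 2 : ℝ) • off (geo (ab a) l.j)) l.j)

/-- the majorant with the main channel -/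
noncomputable def DH (D : Matrix ι ι ℝ) (v u : ι) : ℝ := D v u + if u = v then 51 / 50 else 0

/-- the majorants of the state `(A, Y, ϖ)`; the diagonal of `D` is included -/
structure Stat (r : ι → ι → ℝ) (K : Matrix ι ι ℝ) (κ ν1 ν : ℝ) (A : Matrix ι ι ℂ) (Y : Finset ι)
    (ϖ : ι → Bool) (D D2 mu : Matrix ι ι ℝ) : Prop where
  pm : PM r
  dok : DOK A κ
  m1 : ν1 ≤ 1 / 1000
  m2 : ν ≤ ν1
  m0 : 0 ≤ ν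
  K0 : ∀ x y, 0 ≤ K x y
  sy : Dᵀ = D
  supp : ∀ v u, D v u ≠ 0 → v ∈ Y ∧ u ∈ Y
  tot : KW r D ν1
  far : KW r D2 ν
  near : ∀ v u, u ≠ v → D v u ≤ κ ^ 2 * K v u + D2 v u
  diag : ∀ v, D v v ≤ κ ^ 2 * ∑ u ∈ Y, K v u + D2 v v
  sn : ∀ v ∈ Y, SN (Nv A Y ϖ v) (DH D v)
  perp : ∀ v ∈ Y, ∀ ξ ζ,
    ‖bf (Dt A Y ϖ v) ξ ζ - (cmn A Y ϖ v)⁻¹ * ξ v * ζ v‖ ≤ no (D v) ξ * no (D v) ζ
  b1 : ∀ v, ‖(cmn A Y ϖ v)⁻¹ - 1‖ ≤ 2 * κ ^ 2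
  bz : ∀ v ∈ Y, ‖(cmn A Y ϖ v)⁻¹ - (1 - Ww A Y ϖ v v ^ 2)‖ ≤ 2 * ∑ u, D v u
  zb : ∀ v ∈ Y, ‖Ww A Y ϖ v v + (cmn A Y ϖ v)⁻¹ * al A Y ϖ v v‖ ≤ ∑ u, D v u
  aφ : ∀ v ∈ Y, ‖al A Y ϖ v v - phi (Ww A Y ϖ v v)‖ ≤ ∑ u, D v u
  z1 : ∀ v ∈ Y, ‖Ww A Y ϖ v v‖ ≤ 2 * κ
  z2 : ∀ v ∈ Y, ∑ u ∈ univ.erase v, ‖Ww A Y ϖ u v‖ ^ 2 ≤ κ ^ 2 * ∑ u, D v u
  mu0 : ∀ x v, 0 ≤ mu x v
  mu2 : KW r (sqk mu) ν
  al0 : ∀ x v, ‖al A Y ϖ x v‖ ≤ Nv A Y ϖ v (al A Y ϖ x)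
  al1 : ∀ v, Nv A Y ϖ v (al A Y ϖ v) ≤ κ
  alN : ∀ x v, x ≠ v → Nv A Y ϖ v (al A Y ϖ x) ≤ κ * K x v + mu x v
  alD : ∀ x ∈ Y, ∀ v ∈ Y, x ≠ v → Nv A Y ϖ v (al A Y ϖ x) ^ 2 ≤ D v x
  aφ' : ∀ v ∈ Y, ‖al A Y ϖ v v - phi (Ww A Y ϖ v v)‖ ≤ ∑ u ∈ univ.erase v, D v u
  zb' : ∀ v ∈ Y, ‖Ww A Y ϖ v v + Dt A Y ϖ v v v * al A Y ϖ v v‖ ≤ ∑ u ∈ univ.erase v, D v u
  bz' : ∀ v ∈ Y, ‖Dt A Y ϖ v v v - (1 - Ww A Y ϖ v v ^ 2)‖ ≤ κ * ∑ u ∈ univ.erase v, D v u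
  z2' : ∀ v ∈ Y, ∑ u ∈ univ.erase v, ‖Ww A Y ϖ u v‖ ^ 2 ≤ κ ^ 2 * ∑ u ∈ univ.erase v, D v u

/-- the imaginary part of the kernel, seen through two scattering matrices -/
def ImB (A : Matrix ι ι ℂ) (β : ℝ) : Prop :=
  ∀ w w' x y, ‖(Tt Aᴴ w' * (Aᴴ - A) * Tt A w) x y‖ ≤ 2 * β

/-- a vector with a summable part and a part that is small in mean square -/
def Nf (W c : ℝ) (p : ι → ℂ) : Prop := ∃ n f : ι → ℂ, p = n + f ∧ ∑ x, ‖n x‖ + √W * nS univ f ≤ c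

/-- entries at most `β`, at most `W` of them in every row and column -/
structure Spa (W β : ℝ) (b : Matrix ι ι ℂ) : Prop where
  le : ∀ x y, ‖b x y‖ ≤ β
  row : ∀ x, (#{y | b x y ≠ 0} : ℝ) ≤ W
  col : ∀ y, (#{x | b x y ≠ 0} : ℝ) ≤ W

/-- the near kernel (34) -/
def S_KN : Prop :=
  ∀ (ι : Type) [Fintype ι] [DecidableEq ι] (ρ : ι → ι → ℕ) (l : Lv) (a : Matrix ι ι ℝ),
    Geo ρ l a → (Kn l a)ᵀ = Kn l a ∧ (∀ x, Kn l a x x = 0) ∧ KW (fun _ _ => 0) (Kn l a) 1 ∧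
      Rg ρ (Kn l a) l.ks ∧
      ∀ σ : ι ≃ ι, (∀ x y, a (σ x) (σ y) = a x y) → ∀ x y, Kn l a (σ x) (σ y) = Kn l a x y

/-- facts for every configuration (34) -/
def S_KER : Prop :=
  ∀ (ι : Type) [Fintype ι] [DecidableEq ι] (ρ : ι → ι → ℕ) (l : Lv) (a : Matrix ι ι ℝ)
    (A : Matrix ι ι ℂ), Ker ρ l a A →
    SmK (fun x y => (ρ x y : ℝ) / l.La) A (1 / 100) ∧ DOK A l.κ ∧ Den A (50 / 49) ∧ Ker ρ l a Aᴴ ∧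
      (∀ w v, ∑ x with x ≠ v, ‖alw A w x v‖ ^ 2 ≤ 10 * l.n0) ∧
      (∀ w v, ∃ f : ι → ℝ, ∑ x, f x ^ 2 ≤ 10 * l.ν ∧
        ∀ x, x ≠ v → ‖alw A w x v‖ ≤ l.κ * Kn l a x v + f x) ∧
      ∀ W : ℝ, ∀ w v, Nf W (l.κ + √(2 * W * l.ν)) fun x => alw A w x v

/-- the majorants exist (34, 91) -/
def S_STAT : Prop :=
  ∀ (ι : Type) [Fintype ι] [DecidableEq ι] (ρ : ι → ι → ℕ) (l : Lv) (a : Matrix ι ι ℝ)
    (A : Matrix ι ι ℂ), Ker ρ l a A → ∀ Y ϖ, ∃ D D2 mu,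
      Stat (fun x y => (ρ x y : ℝ) / l.L) (Kn l a) l.κ l.ν1 l.ν2 A Y ϖ D D2 mu

/-- sparse perturbations between two scattering matrices (34) -/
def S_IMB : Prop :=
  ∀ (ι : Type) [Fintype ι] [DecidableEq ι] (ρ : ι → ι → ℕ) (l : Lv) (a : Matrix ι ι ℝ)
    (A A' b : Matrix ι ι ℂ) (W β : ℝ), Ker ρ l a A → Ker ρ l a A' → Spa W β b →
    200 * W * l.ν ≤ 1 → (∀ w w' x y, ‖(Tt A' w' * b * Tt A w) x y‖ ≤ 5 / 4 * β) ∧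
      ∀ Y ϖ x y, ‖((1 - A' * Ss A' Y ϖ) * b * (1 - Ss A Y ϖ * A) - b) x y‖ ≤
        3 * (l.κ + √(2 * W * l.ν)) * β

/-- two kernels, with a bound that depends on the centre (80) -/
def S_TWO : Prop :=
  ∀ (ι : Type) [Fintype ι] [DecidableEq ι] (A A' b : Matrix ι ι ℂ) (e : ℝ) (Y : Finset ι)
    (ϖ : ι → Bool) (y : ι) (bb : ι → ℝ), DOK A e → DOK A' e → A' = A + b →
    (∀ v ∈ Y, ∀ w w', ‖(Tt A' w' * b * Tt A w) v v‖ ≤ bb v) →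
    ∃ L : ι → Matrix ι ι ℂ, Ww A' Y ϖ - Ww A Y ϖ = -∑ v ∈ Y, L v ∧
      L y = Dt A' Y ϖ y * ((1 - A' * Ss A' Y ϖ) * b * (1 - Ss A Y ϖ * A)) * Dt A Y ϖ y ∧
      ∀ v ∈ Y, ∀ ξ ζ : ι → ℂ,
        ‖bf (L v) ξ ζ‖ ≤ 21 / 20 * bb v * (Nv A' Y ϖ v ξ * Nv A Y ϖ v ζ)

/-- imaginary parts (80) -/
def S_IMW : Prop :=
  ∀ (ι : Type) [Fintype ι] [DecidableEq ι] (r : ι → ι → ℝ) (K : Matrix ι ι ℝ) (κ ν1 ν : ℝ)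
    (A : Matrix ι ι ℂ) (Y : Finset ι) (ϖ : ι → Bool) (D D2 mu : Matrix ι ι ℝ) (β : ℝ),
    Stat r K κ ν1 ν A Y ϖ D D2 mu → ImB A β →
      (∃ L : ι → Matrix ι ι ℂ, (∀ x y, ((-(Ww A Y ϖ x y).im : ℝ) : ℂ) = ∑ v ∈ Y, L v x y) ∧
        ∀ v ∈ Y, Maj (L v) (DH D v) (21 / 20 * β)) ∧
      (∀ x y, |(al A Y ϖ x y).im| ≤ 2 * β) ∧
      (∀ y ∈ Y, |(al A Y ϖ y y).im + (Ww A Y ϖ y y).im *
        (‖cmn A Y ϖ y‖ ^ 2 + ‖al A Y ϖ y y‖ ^ 2)| ≤ 10 * β * ∑ u, D y u) ∧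
      OpLe Y (fun x y => ((-(Ww A Y ϖ x y).im - if x = y then (al A Y ϖ x x).im else 0 : ℝ) : ℂ))
        (10 * β * (√ν1 + κ ^ 2)) ∧
      (∀ I ⊆ Y, (∀ v ∈ I, ∀ u ∈ Y, K v u = 0) → ∀ ξ ζ : ι → ℂ, (∀ y ∉ I, ζ y = 0) →
        ‖∑ x ∈ Y, ∑ y ∈ Y.erase x, ξ x * (Ww A Y ϖ x y).im * ζ y‖ ≤
          10 * β * √ν * (nS Y ξ * nS Y ζ)) ∧
      ∀ v ∈ Y, ∀ x, |((al A Y ϖ * Dt A Y ϖ v * al A Y ϖ) x x).im| ≤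
        3 * β * Nv A Y ϖ v (al A Y ϖ x)

/-- the identity of Ward (80) -/
def S_WARD : Prop :=
  ∀ (ι : Type) [Fintype ι] [DecidableEq ι] (A X : Matrix ι ι ℂ) (Y : Finset ι) (ϖ : ι → Bool),
    KOK A → Xᴴ = X → IsUnit (X + Ww A Y ϖ).det → ∀ u : ι → ℂ,
      ((star u ⬝ᵥ (X + Ww A Y ϖ)⁻¹ *ᵥ u).im : ℂ) = ∑ x ∈ Y, ∑ y ∈ Y,
        star (((X + Ww A Y ϖ)⁻¹ *ᵥ u) x) * (-(Ww A Y ϖ x y).im : ℝ) * ((X + Ww A Y ϖ)⁻¹ *ᵥ u) y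

namespace Stat

variable {r : ι → ι → ℝ} {K D D2 mu : Matrix ι ι ℝ} {κ ν1 ν : ℝ} {A : Matrix ι ι ℂ} {Y : Finset ι}
  {ϖ : ι → Bool} (h : Stat r K κ ν1 ν A Y ϖ D D2 mu)
include h

theorem majN {v : ι} (hv : v ∈ Y) : MajN (Dt A Y ϖ v) (Nv A Y ϖ v) (50 / 49) := h.dok.majN ϖ hv

/-- the scattering matrix of one closing -/
theorem boot {v : ι} (hv : v ∈ Y) {Γ T : Matrix ι ι ℂ} {b : Bool} {g : ℝ} (g0 : 0 ≤ g)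
    (g1 : g ≤ 1 / 4) (hg : ∑ u, DH D v u * no (DH D v) (Γ u) ^ 2 ≤ g ^ 2)
    (hT : T = sgn b • Dt A Y ϖ v - sgn b • Dt A Y ϖ v * Γ * T) :
    MajN (T - sgn b • Dt A Y ϖ v) (Nv A Y ϖ v) (21 / 10 * g) ∧
      MajN (T - sgn b • Dt A Y ϖ v + Dt A Y ϖ v * Γ * Dt A Y ϖ v) (Nv A Y ϖ v) (11 / 5 * g ^ 2) := by
  obtain ⟨a1, a2⟩ := ((h.majN hv).smul (norm_sgn b).le).boot (h.sn v hv) (by norm_num) g0
    ((h.sn v hv).hs hg) (by linarith) hT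
  simp only [Matrix.smul_mul, Matrix.mul_smul, smul_smul, sgn_sq, one_smul] at a2
  exact ⟨a1.mono (h.sn v hv) (by linarith), a2.mono (h.sn v hv) (by nlinarith)⟩

/-- at an isolated site only the far part is left -/
theorem iso {v : ι} (hv : ∀ u ∈ Y, K v u = 0) (u : ι) : D v u ≤ D2 v u := by
  by_cases e : u = v
  · simpa [e, sum_eq_zero hv] using h.diag v
  by_cases c : D v u = 0
  · rw [c]; exact h.far.nn v u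
  · simpa [hv u (h.supp v u c).2] using h.near v u e

theorem row (v : ι) : ∑ u, D v u ≤ ν1 := h.tot.row' h.pm v

theorem iso_row {v : ι} (hv : ∀ u ∈ Y, K v u = 0) : ∑ u, D v u ≤ ν :=
  (sum_le_sum fun u _ => h.iso hv u).trans (h.far.row' h.pm v)

/-- no other open site close to `v` -/
theorem off_far {v : ι} {s : ℝ} (hs : ∀ u ∈ Y, u ≠ v → s ≤ r v u) :
    ∑ u ∈ univ.erase v, D v u ≤ ν1 * exp (-s) := by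
  refine le_trans ?_ (mul_le_mul_of_nonneg_right (h.tot.row v) (exp_pos _).le)
  rw [sum_mul]
  refine (sum_le_sum fun u hu => ?_).trans (sum_le_univ_sum_of_nonneg fun u =>
    mul_nonneg (mul_nonneg (h.tot.nn v u) (exp_pos _).le) (exp_pos _).le)
  by_cases c : D v u = 0
  · rw [c, zero_mul, zero_mul]
  · rw [mul_assoc, ← exp_add]
    exact le_mul_of_one_le_right (h.tot.nn v u) (one_le_exp (by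
      linarith [hs u (h.supp v u c).2 (ne_of_mem_erase hu)]))

end Stat

end Pool.Agent.P.MP_d0f69c_mp.XS.Pre
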