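import Pool.Agent.P.MP_d0f69c_mp.XS.SchB2
import Pool.Agent.P.MP_d0f69c_mp.XS.Mono

/-!
The hand-over from the preparation stage to the main theorem at unit coupling.
-/

set_option autoImplicit false
set_option maxRecDepth 8000

open Finset Real MeasureTheory

namespace Pool.Agent.P.MP_d0f69c_mp.XS

/-- the data at unit coupling -/
noncomputable def envB (d M : ℕ) [NeZero M] (Eg η CS : ℝ) (σ : ℂ) (p gt : Tor d M → ℝ)
    (N l0 rH ρ : ℕ) : Env d M where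
  H := Hn (Lap d M) 1 Eg
  Ω := Om d M ρ
  σ := σ
  N := N
  η := η
  p := p
  gt := gt
  l0 := l0
  CS := CS
  γ0 := η
  rH := rH
  ρ1 := ρ
  ρs := ρ ^ 2

/-- the numbers that the preparation stage has to reach -/
noncomputable def bdB (U b : ℕ) (η μ : ℝ) : Bd :=
  ⟨1 / (2 * 10 ^ 7), √(η * μ) / (U : ℝ) ^ 10, μ / 2, 0, (U : ℝ) ^ 20 * μ ^ 2 / 2, 0, μ ^ 2,
    exp (60 * b * (U : ℝ) ^ 3), U ^ (10000 * b), false, false⟩

variable {d M : ℕ} [NeZero M]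

/-- a random initial state with the invariant `bd`; events have influence radius `r0` and
probability `exp (-a0)` -/
structure Init0 (E : Env d M) (bd : Bd) (r0 : ℕ) (a0 : ℝ) (Θ : Type) [Fintype Θ]
    (S0 : Cfg (Tor d M) E.N → Θ → St (Tor d M)) : Prop where
  causal : ∀ ϖ τ ϖ', (∀ y ∉ (S0 ϖ τ).U, ϖ' y = ϖ y) → S0 ϖ' τ = S0 ϖ τ
  inv : ∀ ϖ τ, Inv E bd (S0 ϖ τ)
  cons : ∀ ϖ τ, Cons E (S0 ϖ τ) ϖ
  tag : ∀ ϖ τ, ∀ ℓ ∈ (S0 ϖ τ).ev, ℓ.1 = 0 ∧ ℓ.2.1 = 4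
  eb : ∀ I : Finset (Tor d M), Sep I (2 * r0) →
    pr (fun z : Cfg (Tor d M) E.N × Θ => ∀ x ∈ I, (0, 4, x) ∈ (S0 z.1 z.2).ev) ≤
      exp (-a0) ^ I.card
  junk : ∀ ϖ τ, Cover E (S0 ϖ τ).omg → ∀ x ∈ (S0 ϖ τ).junk,
    ∃ ℓ ∈ (S0 ϖ τ).ev, nm (ℓ.2.2 - x) ≤ r0
  omg : ∀ ϖ τ, ∀ o ∈ E.Ω, o ∉ (S0 ϖ τ).omg → ∃ ℓ ∈ (S0 ϖ τ).ev, nm (ℓ.2.2 - o) ≤ r0

/-- what the preparation stage delivers -/
def S_PRE : Prop :=
  ∃ (d U b : ℕ) (c CS : ℝ), 2 ≤ d ∧ 1 ≤ b ∧ Big ((d + 3) * b) U ∧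
    10 ^ 9 * (d : ℝ) ^ 2 * CS ^ 2 ≤ U ∧ 1 / (U : ℝ) ^ b ≤ c ∧ c ≤ 1 ∧
    ∃ ρ0 : ℕ, ∀ (ρ M : ℕ) [NeZero M], ρ0 ≤ ρ → M = ρ ^ (d + 3) →
      ∃ (E0 η μ : ℝ) (σ : ℂ), |E0| ≤ 4 * d ∧ c ≤ η ∧ η ≤ 1 / (10 ^ 8 * d) ∧
        1 / (U : ℝ) ^ (200 * b) ≤ μ ∧ μ * (U : ℝ) ^ 800 ≤ 1 ∧ μ * (U : ℝ) ^ 250 ≤ η ∧
        c ≤ -σ.im ∧ ‖σ‖ ≤ 1 ∧
        ∀ Eg : ℝ, |Eg - E0| ≤ c → ∀ N : ℕ, N ≠ 0 → Adm (Hn (Lap d M) 1 Eg) σ N →
          ∃ (p gt : Tor d M → ℝ) (l0 rH : ℕ), 1 ≤ rH ∧ rH ≤ U ^ (1100 * b) ∧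
            l0 ≤ U ^ (1100 * b) ∧ RefOK p gt l0 CS η ∧
            (∀ D : ℕ, 0 < D →
              ∑ x with D < nm x, gt x ^ 2 ≤ U * ((l0 : ℝ) / D) ^ (1 / 4 : ℝ)) ∧
            ((envB d M Eg η CS σ p gt N l0 rH ρ).OK →
              ∃ (Θ : Type) (_ : Fintype Θ) (_ : Nonempty Θ)
                (S0 : Cfg (Tor d M) N → Θ → St (Tor d M)),
                Init0 (envB d M Eg η CS σ p gt N l0 rH ρ) (bdB U b η μ) (U ^ (20000 * b))
                  (10 * (U : ℝ) ^ 2) Θ S0)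

theorem envB_ok {Eg η CS : ℝ} {σ : ℂ} {p gt : Tor d M → ℝ} {N l0 rH ρ : ℕ} (hd : 1 ≤ d)
    (hE : |Eg| ≤ 4 * d + 1) (η0 : 0 < η) (η1 : η ≤ 1 / (10 ^ 8 * d)) (hσ : ‖σ‖ ≤ 1) (hN : N ≠ 0)
    (ha : Adm (Hn (Lap d M) 1 Eg) σ N) (hr : 1 ≤ rH) (hR : RefOK p gt l0 CS η)
    (hρ : 10 ^ 9 * 10 ^ d * CS ≤ ρ) (hM : M = ρ ^ (d + 3)) :
    (envB d M Eg η CS σ p gt N l0 rH ρ).OK := by
  have d1 : (1 : ℝ) ≤ d := by exact_mod_cast hd
  have η2 : η ≤ 1 / 10 ^ 8 := η1.trans (one_div_le_one_div_of_le (by norm_num) (by linarith))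
  have c1 := hR.c1
  have r9 : (10 : ℝ) ^ 9 ≤ ρ := le_trans (by
    nlinarith [one_le_pow₀ (n := d) (show (1 : ℝ) ≤ 10 by norm_num)]) hρ
  refine ⟨hd, Hn_symm Lap_symm _ _, fun x y e => (Hn_rng e).trans hr, fun x => ?_, ha, hN, hσ, η0,
    η2, hR, η0.le, le_rfl, fun x hx y hy => Om_sep ?_ hx hy, ?_⟩
  · refine (Hn_row one_pos Eg x).trans (le_trans ?_ (one_div_le_one_div_of_le (pow_pos η0 3)
      (pow_le_of_le_one η0.le (show η ≤ 1 by linarith) (by norm_num))))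
    exact le_trans (by linarith) ((le_one_div η0 (by positivity)).1 η1)
  · exact (dvd_pow_self _ (by omega)).trans (dvd_of_eq hM.symm)
  · simp only [envB]
    have b1 : (vl d M (ρ ^ 2) : ℝ) ≤ 10 ^ d * (ρ : ℝ) ^ (2 * d) := by
      have : 0 < ρ ^ 2 := pow_pos (by exact_mod_cast (show (0 : ℝ) < ρ by linarith)) 2
      rw [pow_mul, ← mul_pow]
      exact_mod_cast (vol_tn_le _).trans (Nat.pow_le_pow_left (by omega) d)
    have b2 : 1 ≤ (ρ : ℝ) ^ 4 := one_le_pow₀ (by linarith)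
    nth_rw 2 [hM]
    push_cast
    calc _ ≤ 10 ^ 10 * (10 ^ d * (ρ : ℝ) ^ (2 * d)) * CS * (2 * (ρ : ℝ) ^ 4) := by
          gcongr
          linarith
      _ = 20 * (10 ^ 9 * 10 ^ d * CS) * (ρ : ℝ) ^ (2 * d + 4) := by ring
      _ ≤ ρ * ρ * (ρ : ℝ) ^ (2 * d + 4) := by
          gcongr
          linarith
      _ = _ := by ring

theorem EHB.init {E : Env d M} {U b k : ℕ} {f μ : ℝ} (h : EHB E U b f k) (hp : ∀ x, 0 ≤ E.p x)
    (hf : f ^ 200 = μ * (U : ℝ) ^ 800) {Θ : Type} [Fintype Θ]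
    {S0 : Cfg (Tor d M) E.N → Θ → St (Tor d M)}
    (hI : Init0 E (bdB U b E.η μ) (U ^ (20000 * b)) (10 * (U : ℝ) ^ 2) Θ S0) :
    Init E (schB U b f k M) Θ S0 := by
  have u9 := h.u9
  have e0 : ep U 0 = 0 := h.big.ep_us 0
  have e1 : (pqB U b f k M 0).start = true := by simp [pqB, e0, us]
  have e2 : (pqB U b f k M 0).P = U := by simp [pqB, e0, aa]
  have e3 : (pqB U b f k M 0).μ = μ := by
    rw [pqB_μ, hf]
    field_simp
  refine ⟨hI.causal, fun ϖ τ => ?_, hI.cons, hI.tag, hI.eb, hI.junk, hI.omg⟩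
  simp only [schB]
  rw [Par.bPre, if_pos e1]
  refine t_mono d M E _ _ _ (hI.inv ϖ τ) ?_ ?_ ?_ ?_ ?_ ?_ ?_ ?_ rfl (fun c => by simp at c) hp
  · have : 4 / (U : ℝ) ≤ 4 / 10 ^ 9 := by gcongr
    simp only [bdB, Par.bIn, pqB, Nat.cast_zero, zero_add]
    linarith
  · simp only [bdB, Par.bIn, Par.misIn, e2, e3, le_rfl]
  · simp only [bdB, Par.bIn, e3, le_rfl]
  · simp only [bdB, Par.bIn, Par.n, e2, e3, le_rfl]
  · simp only [bdB, Par.bIn, e3, le_rfl]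
  · simp [bdB, Par.bIn, pqB, e0, aa]
  · exact Nat.one_le_pow _ _ (by have := h.big.u; omega)
  · simpa [bdB, Par.bIn, e0, aa] using le_lB (M := M) U b f k 0

open Classical in
/-- the energies with frequent resonances in a round -/
theorem bad_le' {E : Env d M} {q : Par} (hq : q.OK E) (hf : q.fin = false) {s : ℕ} (hs : s < q.P)
    (hP : 10 ≤ q.P) (hρ : E.ρ1 ∣ M) {c : ℝ} (hc : exp (-(q.P : ℝ)) ≤ c) {N : ℕ} (hN : N ≠ 0) :
    volume {Eg : ℝ | ∃ x, exp (-(q.P : ℝ) ^ 3) / 2 * Fintype.card (Cfg (Tor d M) N) ≤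
      #{ϖ : Cfg (Tor d M) N | Reso (Hn (Lap d M) 1 Eg) E.σ (Om d M E.ρ1) (bl 0 (q.D E.η 3))
        (exp (-3 * (q.P : ℝ) ^ 3)) x ϖ}} ≤ ENNReal.ofReal (c * ((1 / 2) ^ s / 2)) := by
  have P1 : (10 : ℝ) ≤ q.P := by exact_mod_cast hP
  have P2 : (s : ℝ) ≤ q.P := by exact_mod_cast hs.le
  refine (wegner_avg Lap_symm Lap_add one_pos (exp_pos _).le (by positivity) hN E.σ
    fun p x hx y hy h1 h2 => ?_).trans (ENNReal.ofReal_le_ofReal ?_)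
  · by_contra c
    have h0 : x - y ≠ 0 := sub_ne_zero.2 c
    have h3 := Om_sep hρ h1 h2 (by simpa using c)
    have h4 := nm_tri x 0 y
    have h5 := (hq.vj hf).2
    have h6 : nm (x - y) ≠ 0 := fun e => h0 (tn_eq_zero e)
    rw [add_sub_add_left_eq_sub] at h3
    rw [mem_bl] at hx hy
    rw [nm_comm 0] at h4
    omega
  · have a1 : ((bl (0 : Tor d M) (q.D E.η 3)).card : ℝ) ≤ exp ((q.P : ℝ) ^ 2) := vl_D hq hf
    have a2 : 1 ≤ exp ((q.P : ℝ) ^ 2) := one_le_exp (sq_nonneg _)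
    have a3 := exp_small (y := 2 * (q.P : ℝ) ^ 3 - 2 * (q.P : ℝ) ^ 2 - q.P) (c := 16) s
      (by norm_num) (by nlinarith)
    calc _ ≤ (2 * exp ((q.P : ℝ) ^ 2)) * (exp ((q.P : ℝ) ^ 2) *
          (2 * (1 * exp (-3 * (q.P : ℝ) ^ 3))) / (exp (-(q.P : ℝ) ^ 3) / 2)) := by
          gcongr
          linarith
      _ = exp (-(q.P : ℝ)) * (8 * exp (-(2 * (q.P : ℝ) ^ 3 - 2 * (q.P : ℝ) ^ 2 - q.P))) := by
          rw [show -(2 * (q.P : ℝ) ^ 3 - 2 * (q.P : ℝ) ^ 2 - q.P) = (q.P : ℝ) ^ 2 + (q.P : ℝ) ^ 2 +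
            -3 * (q.P : ℝ) ^ 3 - -(q.P : ℝ) ^ 3 - -(q.P : ℝ) by ring, exp_sub, exp_sub, exp_add,
            exp_add]
          field_simp
          norm_num
      _ ≤ _ := by
          gcongr
          · exact (exp_pos _).le.trans hc
          · linarith

theorem t_B (h : S_MAIN) (hP : S_PRE) : ∃ d : ℕ, 2 ≤ d ∧ ¬ Sing d 1 := by
  classical
  obtain ⟨d, U, b, c, CS, hd, b1, big, P1, c0, c1, ρ0, hP⟩ := hP
  have u9 : (10 : ℝ) ^ 9 ≤ U := by exact_mod_cast big.u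
  have c2 : 0 < c := lt_of_lt_of_le (by positivity) c0
  have c3 : c ^ 2 ≤ c := by nlinarith
  refine ⟨d, hd, CoreU.not_sing (a := -(4 * d + 1)) (b := 4 * d + 1) (c := c ^ 2) (fun R => ?_)
    one_pos (by positivity)⟩
  obtain ⟨j, j1, j2⟩ : ∃ j : ℕ, R + ρ0 ≤ j ∧ 10 ^ 9 * 10 ^ d * CS ≤ j :=
    ((Filter.eventually_ge_atTop _).and (tendsto_natCast_atTop_atTop.eventually_ge_atTop _)).exists
  set k := j + 1 with hk
  have ρ1 : j + 10 ^ 9 ≤ 10 * rrB U b k := by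
    have := (big.idx j).trans
      (Nat.le_self_pow (show 10000 * b * (aa U j + 2) ≠ 0 by positivity) _)
    have := big.u
    rw [hk, rrB_succ]
    omega
  obtain ⟨M, eM⟩ : ∃ M, M = (10 * rrB U b k) ^ (d + 3) := ⟨_, rfl⟩
  have ρ2 : 3 * (10 * rrB U b k) ≤ M := by
    refine le_trans ?_ ((Nat.pow_le_pow_right (by omega) (show 2 ≤ d + 3 by omega)).trans eM.ge)
    rw [sq]
    exact Nat.mul_le_mul_right _ (by omega)
  have : NeZero M := ⟨by omega⟩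
  obtain ⟨E0, η, μ, σ, e0, η0, η1, μ0, μ1, μ2, σ0, σ1, hI⟩ := hP _ M (by omega) eM
  have μ3 : 0 < μ := lt_of_lt_of_le (by positivity) μ0
  obtain ⟨f, f0, hf⟩ : ∃ f : ℝ, 0 ≤ f ∧ f ^ 200 = μ * (U : ℝ) ^ 800 :=
    ⟨_, rpow_nonneg (by positivity) _, rpow_inv_natCast_pow (by positivity) (by norm_num)⟩
  have d1 : (2 : ℝ) ≤ d := by exact_mod_cast hd
  have eh : ∀ Eg p gt N l0 rH, rH ≤ U ^ (1100 * b) → l0 ≤ U ^ (1100 * b) → (∀ D : ℕ, 0 < D →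
      ∑ x with D < nm x, gt x ^ 2 ≤ U * ((l0 : ℝ) / D) ^ (1 / 4 : ℝ)) →
      EHB (envB d M Eg η CS σ p gt N l0 rH (10 * rrB U b k)) U b f k :=
    fun Eg p gt N l0 rH h1 h2 h3 => ⟨big, b1, P1, le_of_pow_le_pow_left₀ (n := 200) (by norm_num) f0
      (by
        rw [hf, one_div_pow, ← pow_mul, mul_comm b]
        exact μ0.trans (le_mul_of_one_le_right μ3.le (one_le_pow₀ (by linarith)))),
      (pow_le_one_iff_of_nonneg f0 (by norm_num)).1 (hf ▸ μ1), by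
        rw [hf, show 800 = 250 + 550 from rfl, pow_add, ← mul_assoc,
          mul_div_cancel_right₀ _ (by positivity)]
        exact μ2,
      η1.trans (div_le_one_of_le₀ (by linarith) (by positivity)), h2, h1, h3, by omega, rfl, rfl,
      eM, rfl⟩
  obtain ⟨N, n1, n2⟩ : ∃ N : ℕ, 32 * ((Om d M (10 * rrB U b k)).card : ℝ) / c ^ 2 ≤ N ∧
      2 * exp (2 * (aa U k : ℝ) ^ 3) ≤ N :=
    ((tendsto_natCast_atTop_atTop.eventually_ge_atTop _).and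
      (tendsto_natCast_atTop_atTop.eventually_ge_atTop _)).exists
  have N0 : N ≠ 0 := Nat.cast_ne_zero.1 (lt_of_lt_of_le (by positivity) n2 : (0 : ℝ) < N).ne'
  have e0' := eh 0 0 0 N 0 0 (Nat.zero_le _) (Nat.zero_le _) fun D _ => by
    simp only [Pi.zero_apply, ne_eq, OfNat.ofNat_ne_zero, not_false_eq_true, zero_pow,
      sum_const_zero]
    positivity
  have fn : ∀ s, s < us U k → (pqB U b f k M s).fin = false := fun s hs =>
    decide_eq_false fun e => hs.not_ge (big.le_ep.1 e)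
  have P10 : ∀ s, 10 ≤ (pqB U b f k M s).P := fun s => le_trans (by norm_num) (big.a9 _)
  let B : ℕ → Set ℝ := fun s => {Eg | ∃ x, exp (-((pqB U b f k M s).P : ℝ) ^ 3) / 2 *
    Fintype.card (Cfg (Tor d M) N) ≤ #{ϖ : Cfg (Tor d M) N | Reso (Hn (Lap d M) 1 Eg) σ
      (Om d M (10 * rrB U b k)) (bl 0 ((pqB U b f k M s).D η 3))
      (exp (-3 * ((pqB U b f k M s).P : ℝ) ^ 3)) x ϖ}}
  have vB : volume (⋃ s ∈ range (us U k), B s) ≤ ENNReal.ofReal c := by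
    refine (measure_biUnion_finset_le _ _).trans ((sum_le_sum (g := fun s =>
      ENNReal.ofReal (c * ((1 / 2) ^ s / 2))) fun s hs => ?_).trans ?_)
    · refine bad_le' (e0'.ok s) (fn s (mem_range.1 hs)) (big.lt_aa s) (P10 s)
        e0'.sched.ρd (le_trans ?_ c0) N0
      rw [exp_neg, one_div]
      refine inv_anti₀ (by positivity) (le_trans ?_ ((e0'.pw1 (ep U s) b zero_le_one
        (by nlinarith [Nat.cast_nonneg (α := ℝ) b])).trans_eq (by simp [pqB])))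
      gcongr
      exact le_aa U _
    · rw [← ENNReal.ofReal_sum_of_nonneg fun _ _ => by positivity, ← mul_sum, ← sum_div]
      exact ENNReal.ofReal_le_ofReal (mul_le_of_le_one_right c2.le
        (by linarith [sum_geometric_two_le (us U k)]))
  obtain ⟨e1, e2⟩ := abs_le.1 e0
  refine ⟨σ, c3.trans σ0, σ1.trans (one_le_inv₀ (by positivity) |>.2 (by linarith)), Tor d M,
    inferInstance, inferInstance, Lap d M, _, _,
    torus_emb (R := R) e0'.sched.ρd (show R < 10 * rrB U b k by omega) (by omega), N,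
    (div_le_iff₀' (by positivity)).1 n1,
    Set.Icc (E0 - c) (E0 + c) \ ⋃ s ∈ range (us U k), B s,
    Set.sdiff_subset.trans (Set.Icc_subset_Icc (by linarith) (by linarith)), ?_, fun Eg hE ha => ?_⟩
  · refine le_trans ?_ le_measure_sdiff
    refine le_trans ?_ (tsub_le_tsub_left vB _)
    rw [volume_Icc, ← ENNReal.ofReal_sub _ c2.le]
    exact ENNReal.ofReal_le_ofReal (by linarith)
  · obtain ⟨⟨g1, g2⟩, g3⟩ := hE
    obtain ⟨p, gt, l0, rH, r1, r2, r3, rf, tl, hS⟩ :=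
      hI Eg (abs_le.2 ⟨by linarith, by linarith⟩) N N0 ha
    have eg := eh Eg p gt N l0 rH r2 r3 tl
    have ok := envB_ok (by omega) (abs_le.2 ⟨by linarith, by linarith⟩) (c2.trans_le η0) η1 σ1 N0
      ha r1 rf (j2.trans (Nat.cast_le.2 (by omega))) eM
    obtain ⟨Θ0, _, _, S0, i0⟩ := hS ok
    obtain ⟨Θ, _, _, O, o1, G, o2, o3⟩ := h d M _ (schB U b f k M) ok eg.sched
      (fun s _ hs x => by
        have f1 : ep U s < k := not_le.1 (of_decide_eq_false hs.1)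
        refine wev_le (eg.ok s) hs.1 (P10 s) (show σ.im ≤ 0 by linarith)
          ((neg_le_abs _).trans ((Complex.abs_im_le_norm _).trans σ1)) (le_trans ?_ n2) x
          fun e => g3 (Set.mem_biUnion (mem_coe.2 (mem_range.2 (not_le.1 fun b' =>
            f1.not_ge (big.le_ep.2 b')))) ⟨x, e⟩)
        gcongr
        exact aa_mono U f1.le) Θ0 S0 (eg.init rf.p0 hf i0)
    have z : (fun i => (((0 : Zd d) i : ℤ) : ZMod M)) = (0 : Tor d M) := by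
      funext i
      simp
    refine ⟨Θ, _, ‹_›, O, o1, G, o2, fun p hp => ?_⟩
    rw [z]
    exact (pow_le_pow_left₀ c2.le η0 2).trans (o3 p hp)

end Pool.Agent.P.MP_d0f69c_mp.XS
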