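import Pool.Agent.P.MP_d0f69c_mp.XS.PDefs
import Pool.Agent.P.MP_d0f69c_mp.XS.PIfS
import Pool.Agent.P.MP_d0f69c_mp.XS.SchB3

/-!
Interfaces between the blocks of the preparation stage.
-/

set_option autoImplicit false

open Finset Real
open scoped Matrix

namespace Pool.Agent.P.MP_d0f69c_mp.XS.Pre

variable {d M : ℕ} [NeZero M]

/-- a kernel that is small, decays, and has an imaginary part of size `η` -/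
structure Good (η La : ℝ) (A : Matrix (Tor d M) (Tor d M) ℂ) : Prop where
  smk : SmK (fun x y => (n1 (x - y) : ℝ) / La) A (1 / 100)
  imb : ImB A (4 * η)
  a1 : ∀ Y w x, |aP η A Y w x - 1| ≤ 1 / 10 ^ 12
  imb3 : ImB A (3 * η)

structure PEnv.OK (E : PEnv d M) : Prop where
  env : E.toEnv.OK
  cov : Cover E.toEnv E.Ω
  σ : E.σ = -(E.η * Complex.I)
  s1 : ∀ z ∈ E.nb1, -z ∈ E.nb1
  s2 : ∀ z ∈ E.nb2, -z ∈ E.nb2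
  La : 1 ≤ E.La
  good : ∀ ε : Tor d M → ℂ, (∀ x, ‖ε x‖ ≤ E.sM) → Good E.η E.La (E.A0 + Matrix.diagonal ε)

/-- the majorants exist, and the near kernel is dominated on pairs that are not excluded by the
isolation -/
def PPar.St (q : PPar d M) (A : Matrix (Tor d M) (Tor d M) ℂ) : Prop :=
  ∀ Y w, ∃ (K : Matrix (Tor d M) (Tor d M) ℝ) (κ ν1 ν : ℝ)
    (D D2 mu : Matrix (Tor d M) (Tor d M) ℝ),
    Stat (fun x y => (n1 (x - y) : ℝ) / q.L) K κ ν1 ν A Y w D D2 mu ∧ Kᵀ = K ∧ 0 < κ ∧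
      100 * ν ≤ q.nu ∧ 10 ^ 4 * (√ν1 + κ ^ 2) ≤ q.eps ∧
      ∀ v u, u = v ∨ u - v ∉ q.iso → K v u = 0 ∨ (10 * κ ≤ q.kap ∧ K v u ≤ q.Kk (u - v))

/-- the same with a near kernel that does not depend on the configuration -/
def PPar.StU (q : PPar d M) (A : Matrix (Tor d M) (Tor d M) ℂ) : Prop :=
  ∃ (K : Matrix (Tor d M) (Tor d M) ℝ) (κ ν1 ν : ℝ), Kᵀ = K ∧ 0 < κ ∧
    100 * ν ≤ q.nu ∧ 10 ^ 4 * (√ν1 + κ ^ 2) ≤ q.eps ∧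
    (∀ v u, u = v ∨ u - v ∉ q.iso → K v u = 0 ∨ (10 * κ ≤ q.kap ∧ K v u ≤ q.Kk (u - v))) ∧
    ∀ Y w, ∃ D D2 mu, Stat (fun x y => (n1 (x - y) : ℝ) / q.L) K κ ν1 ν A Y w D D2 mu

theorem PPar.StU.st {q : PPar d M} {A : Matrix (Tor d M) (Tor d M) ℂ} (h : q.StU A) : q.St A :=
  fun Y w => by
    obtain ⟨K, κ, ν1, ν, a, b, c, e, f, g⟩ := h
    obtain ⟨D, D2, mu, s⟩ := g Y w
    exact ⟨K, κ, ν1, ν, D, D2, mu, s, a, b, c, e, f⟩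

structure PPar.OK (q : PPar d M) (E : PEnv d M) : Prop where
  par : q.toPar.OK E.toEnv
  fin : q.fin = false
  k0 : 0 ≤ q.kap
  ke : 10 ^ 4 * q.kap + 1 / (q.P : ℝ) ^ 4 ≤ q.eps
  e1 : q.eps ≤ 1 / 10 ^ 12
  nk : q.nw = true → q.kap = 0
  ν1 : q.nu ≤ 1 / (q.P : ℝ) ^ 100
  h1 : q.hb ≤ E.η / (q.P : ℝ) ^ 100
  h2 : 10 ^ 4 * q.m1 ≤ q.hb
  h3 : q.hb ^ 4 * (q.P : ℝ) ^ 100 ≤ E.η ^ 2 * q.n4
  n0 : exp (-(q.P : ℝ)) ≤ q.n4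
  n1 : q.n4 ≤ q.nO
  n2 : q.nO ≤ (q.P : ℝ) ^ 2 * q.n4
  n3 : q.nO ≤ E.η ^ 2 / (q.P : ℝ) ^ 200
  n4 : q.kap * q.nO ≤ q.n4 / 10 ^ 9
  g1 : q.gam ^ 4 * (q.P : ℝ) ^ 200 ≤ q.n4
  g2 : q.nu * q.gam ^ 2 * (q.P : ℝ) ^ 20 ≤ q.n4
  m0 : 0 < q.m1
  m1 : (q.P : ℝ) ^ 21 * q.nO ≤ q.m1 ^ 2
  gt : ∑ x, E.gt x ^ 2 ≤ q.n4 / (q.P : ℝ) ^ 30
  ρ1 : 1 ≤ q.ρ
  ρ2 : q.kap * q.ρ ^ 3 ≤ 1 / 10 ^ 9
  H0 : ∀ z, 0 ≤ q.H z
  He : ∀ z, q.H (-z) = q.H z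
  Hk : ∀ z a, q.Kk a ≠ 0 → q.H (z + a) ≤ q.ρ * q.H z
  Hg : ∀ z, q.H2 z + q.hb ≤ q.gam
  Hη : q.H2 0 + q.hb ≤ q.eps * E.η
  Hh : q.kap * q.ρ ^ 3 * q.H2 0 ≤ q.m1 / 1000
  C1 : 1 ≤ q.C0
  C2 : q.C0 ≤ q.P
  θ : q.θ + 1 / (q.P : ℝ) ^ 3 + q.cost ≤ 1 / 10 ^ 7
  K0 : ∀ z, 0 ≤ q.Kk z
  Ks : ∀ z, q.Kk (-z) = q.Kk z
  Kd : q.Kk 0 = 0
  K1 : ∑ z, q.Kk z ≤ 1
  Kr : ∀ z, q.Kk z ≠ 0 → nm z ≤ q.L
  KC : ∀ F : Tor d M → ℝ, ∑ v, ∑ x, q.Kk (x - v) * (F x - F v) ^ 2 ≤ q.C0 * NF E.p F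
  L1 : E.La ≤ q.L
  L2 : 2 * d * q.L ≤ q.l
  L3 : (d * q.L) ^ 2 ≤ q.P
  sh : ∀ (h : Tor d M) (F : Tor d M → ℝ), ∑ x, (F (x + h) - F x) ^ 2 ≤
    q.C0 * (1 + (nm h : ℝ) ^ 2 / ((d : ℝ) * q.L) ^ 2) * NF E.p F
  b1 : ∀ z ∈ E.nb1, nm z ≤ q.l
  b2 : ∀ z ∈ E.nb2, nm z ≤ q.l
  Lv : E.Lv = 50 * (q.P : ℝ) ^ 3
  s0 : 0 ≤ q.sg
  s1 : q.sg + q.δN ≤ E.sM
  st : ∀ ε : Tor d M → ℂ, (∀ x, ‖ε x‖ ≤ E.sM) → q.St (E.A0 + Matrix.diagonal ε)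
  su : ∀ ε : Tor d M → ℂ, (∀ x, ‖ε x‖ ≤ E.sM) → q.StU (E.A0 + Matrix.diagonal ε)
  ν0 : 0 ≤ q.nu
  Hg2 : ∀ z, 2 * q.H2 z ≤ q.gam
  Hη2 : q.H2 0 ≤ q.eps * E.η / 100
  Hh2 : q.kap * q.ρ ^ 2 * q.H2 0 ≤ q.m1 / 10 ^ 4

/-- a statement about all data of a round -/
def AllQ (X : ∀ (d M : ℕ) [NeZero M], PEnv d M → PPar d M → Prop) : Prop :=
  ∀ (d M : ℕ) [NeZero M] (E : PEnv d M) (q : PPar d M), E.OK → q.OK E → X d M E q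

/-! ### shared deterministic facts -/

/-- invertibility, symmetry, and the identity of Ward with diagonal weights -/
def S_PBAS : Prop := AllQ fun d M _ E q => ∀ (ε : Tor d M → ℂ) (Y : Finset (Tor d M))
  (w : Tor d M → Bool), (∀ x, ‖ε x‖ ≤ E.sM) →
    IsUnit (cr E.H + Ww (E.A0 + Matrix.diagonal ε) Y w).det ∧
    (GP E.H (E.A0 + Matrix.diagonal ε) Y w)ᵀ = GP E.H (E.A0 + Matrix.diagonal ε) Y w ∧
    OpLe Y (GP E.H (E.A0 + Matrix.diagonal ε) Y w) (2 / E.η) ∧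
    ∀ u : Tor d M → ℂ, |(star u ⬝ᵥ GP E.H (E.A0 + Matrix.diagonal ε) Y w *ᵥ u).im -
      E.η * ∑ y ∈ Y, aP E.η (E.A0 + Matrix.diagonal ε) Y w y *
        ‖(GP E.H (E.A0 + Matrix.diagonal ε) Y w *ᵥ u) y‖ ^ 2| ≤
      E.η * (q.eps / 100) * ∑ y ∈ Y, ‖(GP E.H (E.A0 + Matrix.diagonal ε) Y w *ᵥ u) y‖ ^ 2

/-- the invariant is monotone in its numbers -/
def S_PMONO : Prop :=
  ∀ (d M : ℕ) [NeZero M] (E : PEnv d M) (b b' : PB d M) (S : St (Tor d M)), E.OK → PInv E b S →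
    b.θ ≤ b'.θ → b.mis ≤ b'.mis → (∀ z, b.H z ≤ b'.H z) → b.n ≤ b'.n → b.nJ ≤ b'.nJ →
    b.B ≤ b'.B → 1 ≤ b.l → b.l ≤ b'.l → b.sg ≤ b'.sg → b.l1 ≤ b'.l1 → b.l2 ≤ b'.l2 →
    b'.iso ⊆ b.iso → PInv E b' S

open Classical in
/-- freezing preserves the invariant, and the survivors of a finished level become isolated -/
def S_PISO : Prop :=
  ∀ (d M : ℕ) [NeZero M] (E : PEnv d M) (b : PB d M) (S : St (Tor d M)), E.OK → PInv E b S →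
    0 ≤ b.θ → b.θ ≤ 1 → (∀ J, PInv E b (S.freeze J)) ∧ (4 ≤ E.Lv →
      (b.l1 < 1 → PInv E { b with iso := E.nb1 }
        (S.freeze (univ.filter fun x => ∃ y ∈ S.junk, x - y ∈ E.nb1))) ∧
      (b.l2 < 1 → PInv E { b with iso := E.nb2 }
        (S.freeze (univ.filter fun x => ∃ y ∈ S.junk, x - y ∈ E.nb2))))

/-! ### the steps of a round -/

/-- the Newton step (nothing happens if it is switched off) -/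
def S_PNEWTON : Prop := AllQ fun d M _ E q => ∀ S : St (Tor d M), PInv E q.b0 S →
  ∃ W' : Tor d M → ℂ, PInv E (q.b1 E.η) { S with W := W' }

/-- the selection of the survivors (events of type `0`) -/
def S_PSELECT : Prop := AllQ fun d M _ E q => ∀ s : ℕ, ∃ st : Stage (Tor d M) E.N,
  PSpec E q s st (PInv E (q.b1 E.η)) (fun S => PInv E (q.b1 E.η) S ∧ PSel E q S) 0 (q.D E.η 2)

/-- the flow of one finite system succeeds with high probability -/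
def S_PFLOW : Prop := AllQ fun d M _ E q => ∀ (S : St (Tor d M)) (c : Tor d M)
  (Z Sg : Finset (Tor d M)), PInv E (q.b1 E.η) S → PSel E q S →
    Z ⊆ (S.good \ S.sig) ∩ bl c (5 * q.A E.η d) → Sg ⊆ S.sig ∩ bl c (5 * q.A E.η d) →
    pr (fun z : (Tor d M → Bool) × (Tor d M → Fin (⌈exp (3 * (q.P : ℝ) ^ 3)⌉₊ + 1)) =>
      ¬ PFlow E q S c Z Sg z.1 (ky z.2)) ≤ exp (-2 * (q.P : ℝ) ^ 3)

/-- local flows glue -/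
def S_PGLUE : Prop := AllQ fun d M _ E q => ∀ (S : St (Tor d M)) (J : Finset (Tor d M))
  (ω : Tor d M → Bool) (κ : Tor d M → ℕ), PInv E (q.b1 E.η) S → PSel E q S →
    Function.Injective κ →
    (∀ p, bl p (5 * q.A E.η d) ⊆ J ∨ PFlow E q S p (Zg S J ∩ bl p (5 * q.A E.η d))
      ((S.sig \ J) ∩ bl p (5 * q.A E.η d)) ω κ) →
    PInv E (q.b2 E.η) (pclose S J ω)

/-- the closing phase (events of type `1`) -/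
def S_PCLOSE : Prop := AllQ fun d M _ E q => ∀ s : ℕ, ∃ st : Stage (Tor d M) E.N,
  PSpec E q s st (fun S => PInv E (q.b1 E.η) S ∧ PSel E q S) (PInv E (q.b2 E.η)) 1 (q.D E.η 3)

/-! ### the hand-over -/

/-- the last parameters, and the numbers `bd` of the main process -/
structure Last (E : PEnv d M) (q : PPar d M) (bd : Bd) : Prop where
  nw : q.nw = true
  iso : q.iso = E.nb2
  rH : ∀ z ∈ E.nb2, nm z ≤ E.rH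
  t1 : ∑ z with z ∉ E.nb2, exp (-(n1 z : ℝ) / E.La) ≤ q.n4 ^ 2
  t2 : ∀ z ∉ E.nb2, exp (-(n1 z : ℝ) / q.L) ≤ q.n4 ^ 2
  θ : q.θ + 10 ^ 4 * q.C0 * √q.eps + 1 / 10 ^ 8 ≤ bd.θ
  θ1 : bd.θ ≤ 1 / 10 ^ 7
  mis : 10 ^ 4 * q.m1 ≤ bd.mis
  aA : 100 * q.gam ^ 2 ≤ bd.aA
  nA : 1000 * q.n4 ≤ bd.nA
  gs : q.n4 / (q.P : ℝ) ^ 30 ≤ bd.gs
  B : q.Bi 3 ≤ bd.B
  l : q.li E.η 3 ≤ bd.l
  fin : bd.fin = false
  chk : bd.chk = false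

/-- conversion to a state of the main process -/
def S_PCONV : Prop := AllQ fun d M _ E q => ∀ (bd : Bd) (S : St (Tor d M)), Last E q bd →
  PInv E q.b0 S → ∃ S' : St (Tor d M), S'.U ⊆ S.U ∧ S'.ev = S.ev ∧ Inv E.toEnv bd S' ∧
    (∀ ϖ, PCons S ϖ → Cons E.toEnv S' ϖ) ∧
    (Cover E.toEnv S'.omg → ∀ x ∈ S'.junk, ∃ y ∈ S.junk, nm (y - x) ≤ q.D E.η 0) ∧
    ∀ o ∈ E.Ω, o ∉ S'.omg → ∃ y ∈ S.junk, nm (y - o) ≤ q.D E.η 0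

/-- the state in which nothing is revealed -/
def St0 (E : PEnv d M) : St (Tor d M) := ⟨E.H, 0, univ \ E.Ω, E.Ω, ∅, ∅, ∅, ∅⟩

/-- rounds `0, ..., T - 1`; the first level is finished before round `T1`, the parameters `q T`
serve for the conversion -/
structure PSch (E : PEnv d M) (q : ℕ → PPar d M) (T1 T : ℕ) (bd : Bd) (r0 : ℕ) (a0 : ℝ) :
    Prop where
  T0 : 0 < T1
  T1T : T1 < T
  ok : ∀ s ≤ T, (q s).OK E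
  nx : ∀ s < T, (q s).Next E.η (q (s + 1))
  i0 : ∀ s < T1, (q s).iso = ∅
  i1 : ∀ s, T1 ≤ s → s < T → (q s).iso = E.nb1
  l1 : (q T1).l1 < 1
  l2 : (q T).l2 < 1
  last : Last E (q T) bd
  rad : ∀ s ≤ T, (q s).rad E.η ≤ r0 ∧ (q s).D E.η 3 ≤ (q T).D E.η 3
  a0 : ∑ s ∈ range T, 2 * exp (-((q s).P : ℝ) ^ 3) ≤ exp (-a0)

/-- the whole preparation stage along a schedule -/
def S_PRUN : Prop :=
  ∀ (d M : ℕ) [NeZero M] (E : PEnv d M) (q : ℕ → PPar d M) (T1 T : ℕ) (bd : Bd) (r0 : ℕ) (a0 : ℝ),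
    E.OK → PSch E q T1 T bd r0 a0 → PInv E (q 0).b0 (St0 E) →
    ∃ (Θ : Type) (_ : Fintype Θ) (_ : Nonempty Θ) (S0 : Cfg (Tor d M) E.N → Θ → St (Tor d M)),
      Init0 E.toEnv bd r0 a0 Θ S0

/-! ### the reference -/

/-- the numbers of a level -/
structure LvB (d : ℕ) (C : ℝ) (j k : ℕ) (l : Lv) : Prop where
  e : l.e ≤ C / d
  n0 : l.n0 ≤ C / (d : ℝ) ^ 3
  ν : l.ν ≤ 1 / (d : ℝ) ^ j
  ks : l.ks ≤ k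
  La : l.La = (d : ℝ) ^ 4
  L : l.L = d ^ 7

/-- the state in which nothing is revealed -/
structure RefB (X : Matrix (Tor d M) (Tor d M) ℝ) (η C : ℝ) (A : Matrix (Tor d M) (Tor d M) ℂ)
    (p gt : Tor d M → ℝ) (k e l : ℕ) : Prop where
  near : ∀ x y, n1 (x - y) ≤ k → ‖Gm X A univ (fun _ => false) x y‖ ≤ η / (d : ℝ) ^ e
  sup : ∀ x y, ‖Gm X A univ (fun _ => false) x y‖ ≤ η * (d : ℝ) ^ 3
  l4 : ∀ x, ∑ y, ‖Gm X A univ (fun _ => false) x y‖ ^ 4 ≤ η ^ 2 / (d : ℝ) ^ e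
  ul : UL p (Kw (aP η A univ fun _ => false) (GP X A univ fun _ => false)) univ (C / d)
  rr : Disc univ (Am0 (GP X A univ fun _ => false)) (C / d)
  dec : Dec (GP X A univ fun _ => false) univ (1 / η ^ 2) l
  gt : ∑ x, gt x ^ 2 ≤ η ^ 2 / (d : ℝ) ^ e
  sh : ∀ (h : Tor d M) (F : Tor d M → ℝ), ∑ x, (F (x + h) - F x) ^ 2 ≤
    1000 * (1 + (nm h : ℝ) ^ 2 / ((d : ℝ) ^ 8) ^ 2) * NF p F

/-- the reference: two levels of the kernel and the initial state -/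
def S_PREF : Prop :=
  ∀ j : ℕ, ∃ k : ℕ, ∀ j' : ℕ, ∃ k' : ℕ, ∀ k2 e : ℕ, ∃ (C : ℝ) (d0 : ℕ), ∀ d, d0 ≤ d →
    ∃ (CS : ℝ) (M0 : ℕ), CS ≤ (d : ℝ) ^ 10 ∧ ∀ (M : ℕ) [NeZero M], M0 ≤ M →
      ∃ (E0 η : ℝ) (A : Matrix (Tor d M) (Tor d M) ℂ) (l l' : Lv)
        (a a' : Matrix (Tor d M) (Tor d M) ℝ), |E0| ≤ 4 * d ∧ exp (-(d : ℝ)) ≤ η ∧
        η ≤ 1 / (d : ℝ) ^ e ∧ LvB d C j k l ∧ LvB d C j' k' l' ∧
        (∀ x y z, a' (x + z) (y + z) = a' x y) ∧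
        (∀ ε : Tor d M → ℂ, (∀ x, ‖ε x‖ ≤ η / d) →
          Good η ((d : ℝ) ^ 4) (A + Matrix.diagonal ε) ∧
          Ker (fun x y => n1 (x - y)) l a (A + Matrix.diagonal ε) ∧
          Ker (fun x y => n1 (x - y)) l' a' (A + Matrix.diagonal ε)) ∧
        ∀ Eg : ℝ, |Eg - E0| ≤ exp (-2 * (d : ℝ)) → ∃ (p gt : Tor d M → ℝ) (l0 l1 : ℕ),
          l0 ≤ l1 ∧ (l1 : ℝ) ≤ 1 / η ^ 3 ∧ RefOK p gt l0 CS η ∧
          (∀ D : ℕ, 0 < D →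
            ∑ x with D < nm x, gt x ^ 2 ≤ (d : ℝ) ^ 10 * ((l0 : ℝ) / D) ^ (1 / 4 : ℝ)) ∧
          RefB (Hn (Lap d M) 1 Eg) η C A p gt k2 e l1

end Pool.Agent.P.MP_d0f69c_mp.XS.Pre
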