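import Pool.Agent.P.MP_d0f69c_mp.XS.RefSa
import Pool.Agent.P.MP_d0f69c_mp.XS.PIfS
import Pool.Agent.P.MP_d0f69c_mp.XS.PDefs

/-!
Reference block: the levels of the kernel.
-/

set_option autoImplicit false

open Finset Real Matrix Filter

namespace Pool.Agent.P.MP_d0f69c_mp.XS.Rf

open Pre

variable {d M : ℕ}

theorem n1_zero : n1 (0 : Tor d M) = 0 := by simp [n1]

theorem n1_neg (x : Tor d M) : n1 (-x) = n1 x := by simp [n1, ZMod.natAbs_valMinAbs_neg]

theorem n1_add (x y : Tor d M) : n1 (x + y) ≤ n1 x + n1 y := by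
  rw [n1, n1, n1, ← sum_add_distrib]
  exact sum_le_sum fun i _ => (ZMod.natAbs_valMinAbs_add_le _ _).trans (Int.natAbs_add_le _ _)

theorem n1_single (i : Fin d) : n1 (Pi.single i 1 : Tor d M) ≤ 1 := by
  rw [n1, sum_eq_single i (fun j _ c => by simp [c]) (by simp)]
  exact (le_tn _ i).trans (tn_single i)

theorem nm_le_n1 (x : Tor d M) : nm x ≤ n1 x :=
  tn_le.2 fun i => single_le_sum (f := fun i => (x i).valMinAbs.natAbs) (fun _ _ => Nat.zero_le _)
    (mem_univ i)

theorem n1_le (x : Tor d M) : n1 x ≤ d * nm x :=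
  (sum_le_card_nsmul _ _ _ fun i _ => le_tn x i).trans_eq (by simp)

theorem pm_n1 : PM fun x y : Tor d M => (n1 (x - y) : ℝ) :=
  ⟨fun x => by simp [n1_zero], fun x y => by rw [← n1_neg, neg_sub], fun x y z => by
    exact_mod_cast (sub_add_sub_cancel x y z ▸ n1_add (x - y) (y - z) :)⟩

variable [NeZero M]

omit [NeZero M] in
theorem oct_n1 (f : ℕ → ℂ) : Oct fun x : Tor d M => f (n1 x) :=
  ⟨fun σ q => congrArg f (Equiv.sum_comp σ fun i => (q i).valMinAbs.natAbs), fun j q =>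
    congrArg f (sum_congr rfl fun i _ => by
      by_cases c : i = j <;> simp [c, ZMod.natAbs_valMinAbs_neg])⟩

theorem sum_exp_vma {c : ℝ} (hc : 0 < c) :
    ∑ t : ZMod M, exp (-(t.valMinAbs.natAbs / c)) ≤ 2 * (c + 1) := by
  rw [← sum_fiberwise_of_maps_to (t := range M) (g := fun t : ZMod M => t.valMinAbs.natAbs)
    fun t _ => mem_range.2 ((ZMod.natAbs_valMinAbs_le t).trans_lt
      (Nat.div_lt_self (NeZero.pos M) one_lt_two))]
  have x0 := exp_pos (-(1 / c))
  have x1 : exp (-(1 / c)) ≤ c / (c + 1) := by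
    rw [exp_neg, ← inv_div (c + 1) c]
    refine inv_anti₀ (by positivity) ?_
    rw [add_div, div_self hc.ne']
    linarith [add_one_le_exp (1 / c)]
  have x2 : c / (c + 1) = 1 - 1 / (c + 1) := by field_simp; ring
  have x3 : 0 < 1 / (c + 1) := by positivity
  refine (sum_le_sum (g := fun k => 2 * exp (-(1 / c)) ^ k) fun k _ => ?_).trans ?_
  · rw [sum_congr rfl (g := fun _ => exp (-(1 / c)) ^ k) fun t ht => by
      rw [(mem_filter.1 ht).2, ← exp_nat_mul]; ring_nf, sum_const, nsmul_eq_mul]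
    refine mul_le_mul_of_nonneg_right ?_ (by positivity)
    exact_mod_cast (card_le_card (t := {(k : ZMod M), -(k : ZMod M)}) fun t ht => by
      have := ZMod.natCast_natAbs_valMinAbs t
      rw [(mem_filter.1 ht).2] at this
      split_ifs at this <;> simp [this]).trans card_le_two
  · rw [← mul_sum]
    refine mul_le_mul_of_nonneg_left (((hasSum_geometric_of_lt_one x0.le (by linarith)).summable.sum_le_tsum
      _ fun _ _ => by positivity).trans ?_) zero_le_two
    rw [tsum_geometric_of_lt_one x0.le (by linarith), inv_le_comm₀ (by linarith) (by linarith),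
      ← one_div]
    linarith

theorem sum_exp_n1 {c : ℝ} (hc : 0 < c) (x : Tor d M) :
    ∑ z : Tor d M, exp (-(n1 (z - x) / c)) ≤ (2 * (c + 1)) ^ d := by
  rw [← Equiv.sum_comp (Equiv.addRight x)]
  simp only [Equiv.coe_addRight, add_sub_cancel_right, n1, Nat.cast_sum, sum_div,
    ← sum_neg_distrib, exp_sum]
  rw [← Fintype.piFinset_univ, ← prod_univ_sum (fun _ => univ)
    fun _ (t : ZMod M) => exp (-(t.valMinAbs.natAbs / c)), prod_const, card_univ, Fintype.card_fin]
  exact pow_le_pow_left₀ (by positivity) (sum_exp_vma hc) _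

theorem card_n1 (x : Tor d M) (r : ℕ) : #{z | n1 (z - x) ≤ r} ≤ (2 * r + 1) ^ d := by
  refine le_trans ?_ (vol_tn_le (M := M) r)
  refine card_le_card_of_injOn (· - x) (fun z hz => mem_coe.2 (mem_ball.2 ?_)) fun _ _ _ _ => sub_left_injective.eq_iff.1
  simpa using (nm_le_n1 _).trans (mem_filter.1 (mem_coe.1 hz)).2

/-- the numbers of the level `j` -/
noncomputable def lv (C : ℝ) (d j : ℕ) : Lv :=
  ⟨C / d, C / d ^ 3, 9 * (C / d) ^ (j + 3), d ^ 4, (3 * d ^ 7) ^ d, d ^ 7, j + 3, j,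
    d * ⌊d / (20000 * C ^ 2)⌋₊⟩

theorem ev_pow (k : ℕ) (a : ℝ) {c : ℝ} (hc : 0 < c) : ∀ᶠ d : ℕ in atTop, a * d ^ k ≤ exp (c * d) := by
  have := ((tendsto_exp_mul_div_rpow_atTop k c hc).comp tendsto_natCast_atTop_atTop).eventually_ge_atTop a
  filter_upwards [this, eventually_gt_atTop 0] with d h h0
  rwa [Function.comp, le_div_iff₀ (by positivity), rpow_natCast] at h

theorem ev_ge (a : ℝ) : ∀ᶠ d : ℕ in atTop, a ≤ d := tendsto_natCast_atTop_atTop.eventually_ge_atTop a

theorem lv_ok {C : ℝ} (hC : 1 ≤ C) {j : ℕ} (hj : 1 ≤ j) : ∀ᶠ d : ℕ in atTop, (lv C d j).OK ∧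
    exp (-(d ^ 3 / 2)) * (2 * (2 * d ^ 4 + 1)) ^ d ≤ (lv C d j).ν := by
  filter_upwards [ev_ge (20000 * C ^ 2), ev_ge (18 * C ^ (j + 3)), ev_ge ((j + 5) ^ 2),
    ev_pow 22 54 (c := 1 / (40000 * C ^ 2)) (by positivity), ev_pow 5 6 (c := 1 / 2) one_half_pos]
    with d h1 h2 h3 h4 h5
  have C2 : C ≤ C ^ 2 := by nlinarith
  have d1 : (1 : ℝ) ≤ d := by linarith
  have j0 : (0 : ℝ) ≤ j := Nat.cast_nonneg j
  have h6 : (j + 5) ^ 2 ≤ d := by exact_mod_cast h3
  have dn : 1 ≤ d := by exact_mod_cast d1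
  have e1 : C / d ≤ 1 / 1000 := by rw [div_le_iff₀ (by linarith)]; linarith
  set s := ⌊d / (20000 * C ^ 2)⌋₊ with hs
  have s1 : (s : ℝ) ≤ d / (20000 * C ^ 2) := Nat.floor_le (by positivity)
  have s2 : s ≤ d := by
    exact_mod_cast s1.trans (div_le_self (by linarith) (by linarith))
  have d7 : d * d * d ≤ d ^ 7 := by
    rw [← sq, ← pow_succ]
    exact Nat.pow_le_pow_right (by omega) (by norm_num)
  have ν0 : 1 / (d : ℝ) ^ (j + 3) ≤ 9 * (C / d) ^ (j + 3) := by
    rw [div_pow, mul_div_assoc']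
    exact div_le_div_of_nonneg_right (by linarith [one_le_pow₀ (n := j + 3) hC]) (by positivity)
  have ν1 : 2 * (9 * (C / d) ^ (j + 3)) ≤ C / d ^ 3 := by
    rw [div_pow, ← mul_assoc, mul_div_assoc', div_le_div_iff₀ (by positivity) (by positivity),
      pow_add (d : ℝ), ← mul_assoc]
    refine mul_le_mul_of_nonneg_right ?_ (by positivity)
    nlinarith [le_self_pow₀ d1 (show j ≠ 0 by omega)]
  have n0 : C / d ^ 3 ≤ (C / d) ^ 2 / 1000 := by
    rw [div_pow, div_div, div_le_div_iff₀ (by positivity) (by positivity)]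
    nlinarith [mul_le_mul_of_nonneg_right C2 (show 0 ≤ (d : ℝ) ^ 3 by positivity),
      mul_le_mul_of_nonneg_left (show 1000 ≤ (d : ℝ) by linarith) (show 0 ≤ C * d ^ 2 by positivity)]
  have dd : (d : ℝ) ^ (j + 5) ≤ d ^ d := pow_le_pow_right₀ d1 (by nlinarith)
  refine ⟨⟨by simp only [lv]; positivity, e1, n0.trans (by simp only [lv]; linarith [sq_nonneg (C / d)]),
    ν1, by simp only [lv]; positivity, ?_, ?_, ?_, ?_, ?_, ?_⟩, le_trans ?_ ν0⟩ <;> try simp only [lv]
  · exact_mod_cast Nat.pow_le_pow_right (by omega) (by norm_num)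
  · rw [← hs]
    have a1 : (d * s : ℝ) * (C / d) ^ 2 ≤ 1 / 20000 := by
      refine (mul_le_mul_of_nonneg_right (mul_le_mul_of_nonneg_left s1 (by linarith)) (sq_nonneg _)).trans_eq ?_
      field_simp
    push_cast
    nlinarith [mul_le_mul_of_nonneg_left (ν1.trans n0) (show (0 : ℝ) ≤ d * s + 1 by positivity),
      pow_le_pow_left₀ (by positivity) e1 2]
  · exact le_trans (Nat.mul_le_mul (Nat.mul_le_mul_left _ s2) (by nlinarith)) d7
  · nlinarith
  · rw [pow_succ]
    nlinarith [pow_nonneg (show 0 ≤ C / d by positivity) (j + 3)]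
  · rw [← hs]
    have a1 : (27 * d ^ 22 : ℝ) ≤ 2 ^ s := by
      have a2 : exp (1 / (40000 * C ^ 2) * d) ≤ exp (1 / 2) ^ (s + 1) := by
        rw [← exp_nat_mul, exp_le_exp]
        have := Nat.lt_floor_add_one (d / (20000 * C ^ 2))
        rw [show 1 / (40000 * C ^ 2) * d = d / (20000 * C ^ 2) * (1 / 2) by field_simp; norm_num]
        push_cast
        linarith
      have a3 : exp (1 / 2) ^ (s + 1) ≤ 2 ^ (s + 1) := pow_le_pow_left₀ (exp_pos _).le (by
        linarith [(abs_le.1 (abs_exp_sub_one_le (x := 1 / 2) (by norm_num [abs_le]))).2,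
          abs_of_pos (one_half_pos (α := ℝ))]) _
      rw [pow_succ (2 : ℝ)] at a3
      linarith
    refine le_trans ?_ (mul_le_mul_of_nonneg_right ν0 (by positivity))
    rw [one_div_mul_eq_div, le_div_iff₀ (by positivity), mul_comm d s, pow_mul]
    refine le_trans ?_ (pow_le_pow_left₀ (by positivity) a1 d)
    have a4 : ((s * d : ℕ) + 1 : ℝ) * d ^ (j + 3) ≤ d ^ d := by
      refine le_trans ?_ dd
      rw [show j + 5 = 2 + (j + 3) by ring, pow_add (d : ℝ) 2]
      refine mul_le_mul_of_nonneg_right ?_ (by positivity)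
      have : (s : ℝ) ≤ d / 2 := s1.trans (div_le_div_of_nonneg_left (by linarith) two_pos (by linarith))
      push_cast
      nlinarith
    calc _ = (27 * d ^ 21 : ℝ) ^ d * (((s * d : ℕ) + 1 : ℝ) * d ^ (j + 3)) := by
          rw [← pow_mul, mul_comm d 3, pow_mul]
          ring
      _ ≤ (27 * d ^ 21) ^ d * d ^ d := by gcongr
      _ = _ := by rw [← mul_pow]; ring
  · rw [Real.exp_neg, inv_mul_le_iff₀ (exp_pos _), mul_one_div, le_div_iff₀ (by positivity)]
    calc _ ≤ (6 * d ^ 4 : ℝ) ^ d * d ^ d :=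
          mul_le_mul (pow_le_pow_left₀ (by positivity) (by linarith [one_le_pow₀ (n := 4) d1]) _)
            (pow_le_pow_right₀ d1 (by nlinarith)) (by positivity) (by positivity)
      _ = (6 * d ^ 5) ^ d := by rw [← mul_pow]; ring
      _ ≤ exp (1 / 2 * d) ^ d := by gcongr
      _ ≤ _ := by
          rw [← exp_nat_mul, exp_le_exp]
          nlinarith [mul_le_mul_of_nonneg_left d1 (sq_nonneg (d : ℝ))]

theorem tail_n1 (hd : 1 ≤ d) (x : Tor d M) : ∑ z with d ^ 7 < n1 (z - x), exp (-(n1 (z - x) / (d : ℝ) ^ 4)) ≤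
    exp (-(d ^ 3 / 2)) * (2 * (2 * d ^ 4 + 1)) ^ d := by
  have d0 : (0 : ℝ) < d := by exact_mod_cast hd
  refine le_trans ?_ (mul_le_mul_of_nonneg_left (sum_exp_n1 (by positivity) x) (exp_pos _).le)
  rw [mul_sum]
  refine (sum_le_sum fun z hz => ?_).trans (sum_le_univ_sum_of_nonneg fun _ => by positivity)
  have : (d : ℝ) ^ 3 ≤ n1 (z - x) / d ^ 4 := by
    rw [le_div_iff₀ (by positivity), ← pow_add]
    exact_mod_cast (mem_filter.1 hz).2.le
  rw [← exp_add, exp_le_exp, mul_comm 2, ← div_div]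
  linarith

variable {B : Finset (Tor d M)} {b γ : ℝ} {g : Tor d M → ℂ}

theorem Cls.wn (h : Cls B γ g) {c : ℝ} (hc : 0 < c) (hB : ∀ x ∈ B, (n1 x : ℝ) ≤ c) :
    WN (fun x y => (n1 (x - y) : ℝ) / c) (circulant g) (3 * B.card * γ) := by
  have γ0 := (norm_nonneg _).trans (h.le 0)
  have k : ∑ z, ‖g z‖ * exp (n1 z / c) ≤ 3 * B.card * γ := by
    rw [← sum_subset (subset_univ B) fun x _ hx => by rw [h.supp x hx, norm_zero, zero_mul]]
    refine (sum_le_card_nsmul _ _ (γ * 3) fun x hx => mul_le_mul (h.le x) ((exp_le_exp.2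
      (div_le_one_of_le₀ (hB x hx) hc.le)).trans (by linarith [exp_one_lt_d9])) (exp_pos _).le
      γ0).trans_eq ?_
    rw [nsmul_eq_mul]
    ring
  refine KW.wn (k := fun x y => ‖g (x - y)‖) ⟨fun _ _ => norm_nonneg _, fun x => ?_, fun y => ?_⟩
    (by positivity) fun _ _ => le_rfl
  · exact (Equiv.sum_comp (Equiv.subLeft x) fun z => ‖g z‖ * exp (n1 z / c)).trans_le k
  · exact (Equiv.sum_comp (Equiv.subRight y) fun z => ‖g z‖ * exp (n1 z / c)).trans_le k

theorem Cls.sq (h : Cls B γ g) : ∑ x, ‖g x‖ ^ 2 ≤ B.card * γ ^ 2 := by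
  rw [← sum_subset (subset_univ B) fun x _ hx => by simp [h.supp x hx]]
  exact (sum_le_card_nsmul _ _ _ fun x _ => pow_le_pow_left₀ (norm_nonneg _) (h.le x) 2).trans_eq
    (nsmul_eq_mul _ _)

theorem spa_of {f : Tor d M → ℂ} {t : ℝ} (h0 : ∀ x ∉ B, f x = 0)
    (h1 : ∀ x, ‖f x‖ ≤ t) : Spa B.card t (circulant f) :=
  ⟨fun _ _ => h1 _, fun x => by
    exact_mod_cast card_le_card_of_injOn (x - ·) (fun y hy => by_contra fun c =>
      (mem_filter.1 (show y ∈ ({y | circulant f x y ≠ 0} : Finset _) from hy)).2 (h0 _ c)) fun _ _ _ _ => sub_right_injective.eq_iff.1,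
    fun y => by
    exact_mod_cast card_le_card_of_injOn (· - y) (fun x hx => by_contra fun c =>
      (mem_filter.1 (show x ∈ ({x | circulant f x y ≠ 0} : Finset _) from hx)).2 (h0 _ c)) fun _ _ _ _ => sub_left_injective.eq_iff.1⟩

/-- every level of the kernel is admissible in high dimension -/
theorem ker_of {β : ℝ} (hβ : 0 < β) {j : ℕ} (hj : 1 ≤ j) : ∃ C : ℝ, 1 ≤ C ∧ ∀ᶠ d : ℕ in atTop,
    ∀ (M : ℕ) [NeZero M] (b : ℝ), 3 ≤ M → β * d ≤ b → b ≤ d →
      Geo (fun x y => n1 (x - y)) (lv C d j) (aR d M b j) ∧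
      ∀ (B : Finset (Tor d M)) (γ s : ℝ) (g W : Tor d M → ℂ), Cls B γ g →
        (∀ x ∈ B, n1 x ≤ d ^ 4) → 3 * B.card * γ ≤ 1 / d ^ (j + 3) → (∀ x, ‖W x‖ ≤ s) →
        s ≤ 1 / d ^ (j + 3) →
        Ker (fun x y => n1 (x - y)) (lv C d j) (aR d M b j) (Ac b g + diagonal W) := by
  obtain ⟨C, C0, hC⟩ := near hβ j
  have C1 : 1 ≤ C + 1 := by linarith
  refine ⟨C + 1, C1, ?_⟩
  filter_upwards [lv_ok C1 hj, eventually_ge_atTop 100] with d ⟨h1, h2⟩ hd M _ b hM b1 b2
  obtain ⟨-, a2, -, a4, a5, a6⟩ := hC d M b hd hM b1 b2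
  have d0 : (100 : ℝ) ≤ d := by exact_mod_cast hd
  have geo : Geo (fun x y => n1 (x - y)) (lv (C + 1) d j) (aR d M b j) :=
    ⟨h1, pm_n1, fun x => by
      refine (Nat.cast_le.2 (card_n1 x _)).trans ?_
      simp only [lv]
      push_cast
      exact pow_le_pow_left₀ (by positivity) (by linarith [one_le_pow₀ (n := 7) (show (1 : ℝ) ≤ d by linarith)]) _,
      fun x => (tail_n1 (by omega) x).trans h2, a2,
      a4.le (div_le_div_of_nonneg_right (by linarith) (by linarith)),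
      fun y => (a5 y).trans (div_le_div_of_nonneg_right (by linarith) (by positivity)),
      fun x y e => a1_range b j n1_zero (fun x i => (n1_add _ _).trans (by linarith [n1_single (M := M) i]))
        (fun x i => by rw [sub_eq_add_neg]; exact (n1_add _ _).trans (by
          rw [n1_neg]; linarith [n1_single (M := M) i])) fun c => e (by rw [aR, c, Complex.zero_re])⟩
  refine ⟨geo, fun B γ s g W hg hB hγ hW hs => ⟨geo, by rw [transpose_add, Ac_T hg.oct, diagonal_transpose],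
    ?_, fun z => ?_⟩⟩
  all_goals
    have s0 := (norm_nonneg _).trans (hW 0)
    have γ0 := (norm_nonneg _).trans (hg.le 0)
    have t1 : 1 / (d : ℝ) ^ (j + 3) ≤ 1 / 100 ^ 3 := one_div_le_one_div_of_le (by norm_num)
      ((pow_le_pow_left₀ (by norm_num) d0 3).trans (pow_le_pow_right₀ (by linarith) (by omega)))
  · have hb : |b| ≤ 2 * d := by rw [abs_of_nonneg (le_trans (by positivity) b1)]; linarith
    have w : ∀ (x : Tor d M) i, (n1 (x + Pi.single i 1 - x) : ℝ) / d ^ 4 ≤ 1 / d ^ 4 := fun x i => by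
      rw [add_sub_cancel_left]
      exact div_le_div_of_nonneg_right (by exact_mod_cast n1_single i) (by positivity)
    rw [Ac, circulant_add]
    exact (((A0_wn (by omega) hb (fun x i => by rw [← n1_neg, neg_sub]; exact w x i) w).add
      (hg.wn (c := (d : ℝ) ^ 4) (by positivity) fun x hx => by exact_mod_cast hB x hx)).add
        (WN.diag s0 hW)).mono (by linarith)
  · have t2 : 1 / (d : ℝ) ^ (j + 3) ≤ ((C + 1) / d) ^ (j + 3) := by
      rw [div_pow]
      exact div_le_div_of_nonneg_right (one_le_pow₀ C1) (by positivity)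
    have t3 : C / (d : ℝ) ^ (j + 3) ≤ ((C + 1) / d) ^ (j + 3) := by
      rw [div_pow]
      exact div_le_div_of_nonneg_right ((by linarith : C ≤ C + 1).trans (le_self_pow₀ C1 (by omega)))
        (by positivity)
    have k : ∑ x, ‖(Ac b g + diagonal W) x z - aR d M b j x z‖ ^ 2 ≤
        3 * ∑ x, ‖A0 d M b (x - z) - aR d M b j x z‖ ^ 2 + 3 * ∑ x, ‖g (x - z)‖ ^ 2 +
          3 * ∑ x, ‖diagonal W x z‖ ^ 2 := by
      simp only [mul_sum, ← sum_add_distrib]
      refine sum_le_sum fun x _ => ?_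
      rw [show (Ac b g + diagonal W) x z - aR d M b j x z = A0 d M b (x - z) - aR d M b j x z +
        g (x - z) + diagonal W x z by simp [Ac, circulant_apply]; ring]
      refine (pow_le_pow_left₀ (norm_nonneg _) norm_add₃_le 2).trans ?_
      nlinarith [sq_nonneg (‖A0 d M b (x - z) - aR d M b j x z‖ - ‖g (x - z)‖),
        sq_nonneg (‖A0 d M b (x - z) - aR d M b j x z‖ - ‖diagonal W x z‖),
        sq_nonneg (‖g (x - z)‖ - ‖diagonal W x z‖)]
    have k1 := (Equiv.sum_comp (Equiv.subRight z) fun x => ‖g x‖ ^ 2).trans_le hg.sq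
    have k2 : ∑ x, ‖diagonal W x z‖ ^ 2 ≤ s ^ 2 := by
      rw [sum_eq_single z (fun x _ c => by simp [c]) (by simp), diagonal_apply_eq]
      exact pow_le_pow_left₀ (norm_nonneg _) (hW z) 2
    have k3 : B.card * γ ^ 2 ≤ 1 / d ^ (j + 3) := by
      rcases B.eq_empty_or_nonempty with rfl | hB
      · simp
      · have : (1 : ℝ) ≤ B.card := by exact_mod_cast card_pos.2 hB
        nlinarith [mul_nonneg (zero_le_one.trans this) γ0]
    simp only [Equiv.subRight_apply] at k1
    simp only [lv]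
    nlinarith [a6 z]

end Pool.Agent.P.MP_d0f69c_mp.XS.Rf
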