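import Pool.Agent.P.MP_d0f69c_mp.XS.Ref7
import Pool.Agent.P.MP_d0f69c_mp.XS.RefSb
import Pool.Agent.P.MP_d0f69c_mp.XS.PIf

/-!
Reference block: the state in which nothing is revealed.
-/

set_option autoImplicit false

open Finset Real Matrix

namespace Pool.Agent.P.MP_d0f69c_mp.XS.Rf

open Pre

variable {d M : ℕ} [NeZero M] {B : Finset (Tor d M)} {θ b γ ε κ ω L η u : ℝ}
  {Z a : (Tor d M → ℂ) → Tor d M → ℂ} {g : Tor d M → ℂ}

/-- the centre of the window of energies -/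
noncomputable def Ec (b : ℝ) (g : Tor d M → ℂ) : ℝ :=
  2 * d - b + (Zk b g 0).re - (Zk b 0 (0 : Tor d M)).re

theorem FnH.wn (h : FnH B θ b γ ε κ ω L η u Z a g) :
    WN (fun x y : Tor d M => (nm (x - y) : ℝ) / L) (Rf.sm (zu Z g η u)) d := by
  have e : Rf.sm (zu Z g η u) = diagonal (fun _ => Z 0 0 - η * Complex.I + u - Z g 0) + circulant (Z g) := by
    rw [circ_eq, ← smul_one_eq_diagonal, ← sm_one, sm_smul, sm_add]
    congr 1
    funext q
    simp [ze]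
    ring
  have k : ∑ z, ‖Z g z‖ * exp (nm z / L) ≤ ε + ω := by
    rw [← add_sum_erase _ _ (mem_univ 0)]
    have z0 : nm (0 : Tor d M) = 0 := Nat.le_zero.1 ((nm_le_n1 _).trans n1_zero.le)
    refine add_le_add (by simpa [z0] using h.st.Z0 g h.fx.cls) (le_trans ?_ (h.st.l1 g h.fx.cls))
    refine (sum_le_sum fun z hz => mul_le_mul_of_nonneg_left (le_mul_of_one_le_left (exp_pos _).le ?_)
      (norm_nonneg _)).trans (sum_le_sum_of_subset_of_nonneg (erase_subset _ _) fun _ _ _ => by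
        positivity)
    refine Nat.one_le_cast.2 (Nat.pos_of_ne_zero fun c => (mem_erase.1 hz).1 (funext fun i => ?_))
    simpa using tn_le.1 c.le i
  have ω0 := h.sy.ω0
  rw [e]
  refine ((WN.diag (a := 1) zero_le_one fun _ => ?_).add (KW.wn (k := fun x y => ‖Z g (x - y)‖)
    ⟨fun _ _ => norm_nonneg _, fun x => ?_, fun y => ?_⟩ (add_nonneg h.ε0.le ω0)
    fun _ _ => le_rfl)).mono (by linarith [h.d0, h.ε1, h.n.ω1])
  · refine (norm_sub_le _ _).trans ((add_le_add ((norm_add_le _ _).trans (add_le_add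
      (norm_sub_le _ _) le_rfl)) (h.st.Z0 g h.fx.cls)).trans ?_)
    rw [norm_mul, Complex.norm_I, Complex.norm_real, Complex.norm_real, Real.norm_of_nonneg h.η0.le,
      Real.norm_eq_abs]
    linarith [h.st.Z0 0 h.z, h.ε1, h.η2, h.u2]
  · exact (Equiv.sum_comp (Equiv.subLeft x) fun z => ‖Z g z‖ * exp (nm z / L)).trans_le k
  · exact (Equiv.sum_comp (Equiv.subRight y) fun z => ‖Z g z‖ * exp (nm z / L)).trans_le k

theorem FnH.Ec_le (h : FnH B θ b γ ε κ ω L η u (Zk b) a g) : |Ec b g| ≤ 4 * d := by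
  have a1 := abs_le.1 ((Complex.abs_re_le_norm _).trans (h.st.Z0 g h.fx.cls))
  have a2 := abs_le.1 ((Complex.abs_re_le_norm _).trans (h.st.Z0 0 h.z))
  rw [Ec, abs_le]
  constructor <;> linarith [h.ε1, h.d0, h.b9, h.n.b2]

/-- the initial state in the window of energies -/
theorem FnH.refB {Eg C : ℝ} {k e : ℕ} (h : FnH B θ b γ ε κ ω L η (Ec b g - Eg) (Zk b) (ak b) g)
    (hB : ∀ x, n1 x ≤ k → x ∈ B)
    (h1 : 10 ^ 30 * (d : ℝ) ^ (10 + 2 * e) * B.card ^ 4 * exp (-(4 / 5 * θ ^ 2 * d)) ≤ 1)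
    (h2 : 10 ^ 30 * (d : ℝ) ^ (10 + e) * η ≤ 1) (h3 : 10 ^ 4 * (d : ℝ) ^ (4 * e) ≤ M * η ^ 4)
    (h4 : 40000 * d * |Ec b g - Eg| ≤ η / d ^ e) (h5 : 240 * ε ≤ C / d)
    (h6 : 2 * (70 / b + 8000 * ω * (40 * d)) ≤ C / d) (h7 : C ≤ d) (L1 : 1 ≤ L) (L2 : L ≤ d ^ 8) :
    ∃ (p gt : Tor d M → ℝ) (l0 l1 : ℕ), l0 ≤ l1 ∧ (l1 : ℝ) ≤ 1 / η ^ 3 ∧
      RefOK p gt l0 (d ^ 10) η ∧ (∀ D : ℕ, 0 < D →
        ∑ x with D < nm x, gt x ^ 2 ≤ (d : ℝ) ^ 10 * ((l0 : ℝ) / D) ^ (1 / 4 : ℝ)) ∧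
      RefB (Hn (Lap d M) 1 Eg) η C (Ac b g) p gt k e l1 := by
  have η0 := h.η0
  have η2 := h.η2
  have d9 : (10 : ℝ) ^ 9 ≤ d := h.b9.trans h.n.b2
  have d1 : (1 : ℝ) ≤ d := by linarith
  have de : (1 : ℝ) ≤ d ^ e := one_le_pow₀ d1
  have eG : GP (Hn (Lap d M) 1 Eg) (Ac b g) univ (fun _ => false) =
      circulant (ift (Gs b (zu (Zk b) g η (Ec b g - Eg)))) := (GP_eq h.fx.Zi h.zr h.sy.ne _).2
  have eΓ : ∀ x y, Gm (Hn (Lap d M) 1 Eg) (Ac b g) univ (fun _ => false) x y =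
      Gk b (Zk b) (ak b) g η (Ec b g - Eg) (x - y) := fun x y => by rw [Gm, eG, al_circ]; rfl
  have μ1 : η / d ^ e ≤ η := div_le_self η0.le de
  have μ2 : (η / d ^ e) ^ 2 ≤ η ^ 2 / d ^ e := by
    rw [div_pow]
    exact div_le_div_of_nonneg_left (sq_nonneg _) (by positivity) (le_self_pow₀ de two_ne_zero)
  have μ3 : 10 ^ 30 * d ^ 10 * B.card ^ 4 * exp (-(4 / 5 * θ ^ 2 * d)) * η ^ 2 ≤ (η / d ^ e) ^ 2 := by
    rw [div_pow, le_div_iff₀ (by positivity)]
    refine le_of_eq_of_le (by ring) ((mul_le_mul_of_nonneg_right h1 (sq_nonneg η)).trans_eq (one_mul _))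
  have η10 : 10 ^ 30 * (d : ℝ) ^ 10 * η ≤ 1 := le_trans (by gcongr; omega) h2
  have d10 : (10 : ℝ) ^ 36 * d ^ 6 ≤ d ^ 10 := by
    rw [show (d : ℝ) ^ 10 = d ^ 4 * d ^ 6 by ring]
    exact mul_le_mul_of_nonneg_right ((pow_le_pow_left₀ (by norm_num) d9 4).trans_eq' (by norm_num))
      (by positivity)
  obtain ⟨o, t⟩ := h.ok (μ := η / d ^ e) μ3 (by
      rw [le_div_iff₀ (by positivity)]
      refine le_trans ?_ ((mul_le_mul_of_nonneg_right h2 η0.le).trans_eq (one_mul _))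
      rw [show 10 ^ 30 * (d : ℝ) ^ 2 * η ^ 2 * d ^ e = 10 ^ 30 * d ^ (2 + e) * η * η by ring]
      gcongr
      omega) (by
      rw [div_pow, ← mul_div_assoc, le_div_iff₀ (by positivity), ← pow_mul, mul_comm e]
      exact h3)
  have c : 400 * (3072 * 10 ^ 10 * (d : ℝ) ^ 3) ^ 2 ≤ d ^ 10 := by
    linarith [show 0 ≤ (d : ℝ) ^ 6 by positivity]
  have nf := NF_nonneg o.p0
  refine ⟨_, _, _, ⌈264 * d * L / η⌉₊, Nat.ceil_mono (div_le_div_of_nonneg_right (by nlinarith) η0.le),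
    (Nat.ceil_lt_add_one (by positivity)).le.trans ?_, ⟨o.p0, o.pe, o.g0, o.ge, o.tot, o.var,
    o.gam.trans (pow_le_pow_left₀ (by positivity) μ1 2), fun z F => (o.shift z F).trans
      (mul_le_mul_of_nonneg_right (mul_le_mul_of_nonneg_right c (by positivity)) (nf F)),
    o.mom.trans (mul_le_mul_of_nonneg_right c (sq_nonneg _)), o.l1, o.c1.trans c⟩,
    fun D hD => (t D hD).trans (mul_le_mul_of_nonneg_right ?_ (by positivity)), fun x y hxy => ?_,
    fun x y => ?_, fun x => ?_, ?_, ?_, fun x hx z => ?_, o.gam.trans μ2, fun z F => ?_⟩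
  · have a1 : d * L ≤ d ^ 10 := (mul_le_mul_of_nonneg_left L2 (by positivity)).trans
      ((pow_succ' _ 8).symm.trans_le (pow_le_pow_right₀ d1 (by norm_num)))
    have a2 := mul_le_mul_of_nonneg_right a1 η0.le
    rw [div_add_one η0.ne', div_le_div_iff₀ η0 (by positivity), one_mul,
      show (264 * d * L + η) * η ^ 3 = η * ((264 * (d * L * η) + η * η) * η) by ring]
    exact mul_le_of_le_one_right η0.le (mul_le_one₀ (by nlinarith) η0.le (by linarith))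
  · linarith [mul_le_mul_of_nonneg_left (le_self_pow₀ d1 (show 6 ≠ 0 by norm_num))
      (show (0 : ℝ) ≤ 10 ^ 36 by norm_num)]
  · rw [eΓ]
    exact (h.near (hB _ hxy)).trans h4
  · rw [eΓ]
    have a1 := (div_le_iff₀ (by positivity)).1 h.fx.η0
    have a2 := mul_le_mul_of_nonneg_left a1 (show (0 : ℝ) ≤ 800 * d by positivity)
    have a3 := mul_le_mul_of_nonneg_left d9 (show 0 ≤ η * d ^ 2 by positivity)
    linarith [h.sup (x - y), h.γ1, show 0 ≤ η * d ^ 2 by positivity]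
  · simp only [eΓ]
    refine (Equiv.sum_comp (Equiv.subLeft x) fun z => ‖Gk b (Zk b) (ak b) g η (Ec b g - Eg) z‖ ^ 4).trans_le
      (h.l4.trans (le_trans ?_ (μ3.trans μ2)))
    gcongr <;> norm_num
  · have := h.ul
    have e : Kw (aP η (Ac b g) univ fun _ => false) (GP (Hn (Lap d M) 1 Eg) (Ac b g) univ fun _ => false) =
        fun x y => (ak b g 0).im / η * ((ak b g 0).im / η) *
          ‖ift (Gs b (zu (Zk b) g η (Ec b g - Eg))) (x - y)‖ ^ 2 := by
      funext x y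
      simp only [Kw, aP, eG, al_circ, circulant_apply, sub_self]
    rw [e]
    refine ⟨fun F => (this.1 F).trans (mul_le_mul_of_nonneg_right (by linarith) (nf F)), fun f => ?_⟩
    obtain ⟨F, a1, a2⟩ := this.2 f
    exact ⟨F, a1, le_trans (mul_le_mul_of_nonneg_right (by linarith) (nf F)) a2⟩
  · rw [eG]
    exact h.sy.disc h.num h.oct.neg (c := fun _ => 1) le_rfl (by simp) (by linarith)
      (div_le_one_of_le₀ h7 (by positivity))
  · rw [eG]
    refine (h.sy.dec h.hb L1 le_rfl h.wn (Nat.le_ceil _) univ x hx z).trans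
      (mul_le_mul_of_nonneg_right ?_ (exp_pos _).le)
    rw [div_le_div_iff₀ η0 (by positivity)]
    nlinarith
  · refine (h.refG.shift F z).trans (mul_le_mul_of_nonneg_right ?_ (nf F))
    have : 8 * d * (3 * (10 ^ 9 * (40 * d) * η)) * nm z ≤ nm z / (d : ℝ) ^ 8 := by
      rw [le_div_iff₀ (by positivity), mul_right_comm]
      exact mul_le_of_le_one_left (Nat.cast_nonneg _)
        (by linarith [show 0 ≤ (d : ℝ) ^ 10 * η by positivity])
    have := pow_le_pow_left₀ (by positivity) this 2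
    rw [div_pow] at this
    linarith [show 0 ≤ (nm z : ℝ) ^ 2 / ((d : ℝ) ^ 8) ^ 2 by positivity]

end Pool.Agent.P.MP_d0f69c_mp.XS.Rf
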