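import Pool.Agent.P.MP_d0f69c_mp.XS.PMaj3
import Pool.Agent.P.MP_d0f69c_mp.XS.PS1b

/-!
The main term of the jump, isolated sites, the fixed near kernel, and the existence of the majorant.
-/

set_option autoImplicit false

open Finset Function Real
open scoped Matrix

namespace Pool.Agent.P.MP_d0f69c_mp.XS.Pre

variable {ι : Type} [Fintype ι] [DecidableEq ι]

/-- the majorant of the side channels, with the diagonal entry `δ` -/
noncomputable def Dp (r : ι → ι → ℝ) (Y : Finset ι) (b : Matrix ι ι ℝ) (p V δ : ℝ) (v u : ι) : ℝ :=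
  (if u = v then δ else 0) + 251 / 100 * Dm r Y b p V v u

namespace MH

variable {r r' : ι → ι → ℝ} {A : Matrix ι ι ℂ} {a e : ℝ} {Y : Finset ι} {ϖ : ι → Bool}
  {b : Matrix ι ι ℝ} {p V n t : ℝ} (h : MH r r' A a e Y ϖ b p V n t)
include h

theorem beta_le {v : ι} (hv : v ∈ Y) :
    ‖Dt A Y ϖ v v v - 1‖ ≤ 11 / 10 * e * (e + ∑ u, Dm r Y b p V v u) := by
  have a1 := h.beta_z hv
  have a2 := pow_le_pow_left₀ (norm_nonneg _) (h.z_le hv) 2
  have a3 := norm_sub_le (Dt A Y ϖ v v v - (1 - Ww A Y ϖ v v ^ 2)) (Ww A Y ϖ v v ^ 2)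
  rw [norm_pow, show ∀ x y : ℂ, x - (1 - y) - y = x - 1 from fun x y => by ring] at a3
  nlinarith [sq_nonneg e]

/-- the jump is its main entry plus a form below the side majorant -/
theorem maj1 {n1 δ : ℝ} (hn1 : ∀ w u v, u ≠ v → ‖alw A w u v‖ ^ 2 ≤ n1) (n0 : 0 ≤ n1) (n2 : n1 ≤ 1)
    {v : ι} (hv : v ∈ Y) (hδ : 61 / 10 * ((n + n1) * ∑ u, Dm r Y b p V v u + t) ≤ δ) (ξ ζ : ι → ℂ) :
    ‖bf (Dt A Y ϖ v) ξ ζ - Dt A Y ϖ v v v * ξ v * ζ v‖ ≤
      no (Dp r Y b p V δ v) ξ * no (Dp r Y b p V δ v) ζ := by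
  have δ0 : 0 ≤ δ := le_trans (by
    have := mul_nonneg (add_nonneg h.n0 n0) (h.d0 v); have := h.t0; positivity) hδ
  have p0 : ∀ u, 0 ≤ Dp r Y b p V (δ / 2) v u := fun u =>
    add_nonneg (by split_ifs <;> positivity) (by have := h.D_nn v u; positivity)
  have a0 : ∀ ξ, 1001 / 1000 * Pp A Y ϖ v ξ ≤ no (Dp r Y b p V (δ / 2) v) ξ ^ 2 := fun ξ => by
    have b1 := h.perp_le hn1 n0 n2 hv ξ
    have b2 : 0 ≤ ∑ u, Dm r Y b p V v u * ‖ξ u‖ ^ 2 :=
      sum_nonneg fun u _ => mul_nonneg (h.D_nn v u) (sq_nonneg _)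
    have b3 := mul_le_mul_of_nonneg_right hδ (sq_nonneg ‖ξ v‖)
    have b4 := mul_nonneg δ0 (sq_nonneg ‖ξ v‖)
    rw [no_sq p0]
    simp only [Dp, add_mul, sum_add_distrib, ite_mul, zero_mul, sum_ite_eq', mem_univ, if_true,
      mul_assoc, ← mul_sum]
    linarith
  have a1 : ∀ ξ ζ, ‖bf (Dt A Y ϖ v) ξ ζ - ξ v * ζ v / cmn A Y ϖ v‖ ≤
      no (Dp r Y b p V (δ / 2) v) ξ * no (Dp r Y b p V (δ / 2) v) ζ := fun ξ ζ => by
    refine (h.dok.perp_le Y ϖ hv ξ ζ).trans (abs_le_of_sq_le_sq' ?_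
      (mul_nonneg (no_nonneg _ _) (no_nonneg _ _))).2
    rw [mul_pow, mul_pow, mul_pow, sq_sqrt (Pp_nonneg ..), sq_sqrt (Pp_nonneg ..)]
    refine le_of_eq_of_le (by ring) (mul_le_mul (a0 ξ) (a0 ζ) ?_ (sq_nonneg _))
    exact mul_nonneg (by norm_num) (Pp_nonneg ..)
  have a2 := a1 (Pi.single v 1) (Pi.single v 1)
  rw [← sq (no _ _), no_sq p0, bf_one, sum_eq_single v (fun u _ hu => by simp [Pi.single_eq_of_ne hu])
    (by simp), sum_eq_single v (fun u _ hu => by simp [Pi.single_eq_of_ne hu]) (by simp), Dp,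
    D_self, if_pos rfl, Pi.single_eq_same] at a2
  have a3 := no_cs p0 (D' := fun u => if u = v then δ / 2 else 0)
    (fun u => by split_ifs <;> positivity) ξ ζ
  rw [no_one, no_one, mul_mul_mul_comm, mul_self_sqrt (by positivity),
    show (Dp r Y b p V (δ / 2) v + fun u => if u = v then δ / 2 else 0) = Dp r Y b p V δ v from
      funext fun u => by simp only [Dp, Pi.add_apply]; split_ifs <;> ring] at a3
  have a4 := norm_sub_le (bf (Dt A Y ϖ v) ξ ζ - ξ v * ζ v / cmn A Y ϖ v)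
    ((Dt A Y ϖ v v v * 1 - 1 * 1 / cmn A Y ϖ v) * (ξ v * ζ v))
  rw [norm_mul, norm_mul, show ∀ x y z c : ℂ, x - y * z / c - (Dt A Y ϖ v v v * 1 - 1 * 1 / c) *
    (y * z) = x - Dt A Y ϖ v v v * y * z from fun x y z c => by ring] at a4
  have a5 := mul_le_mul_of_nonneg_right a2 (mul_nonneg (norm_nonneg (ξ v)) (norm_nonneg (ζ v)))
  rw [norm_one] at a5
  linarith [a1 ξ ζ]

/-- no unrevealed site close to `v` -/
theorem d_far {v : ι} {s : ℝ} (hs : ∀ u ∈ Y, u ≠ v → s ≤ r' v u) :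
    ∑ u, Dm r Y b p V v u ≤ (6 / 5 * n + 3 * t) * exp (-s) := by
  refine le_trans ?_ (mul_le_mul_of_nonneg_right (h.kw_D.row v) (exp_pos _).le)
  rw [sum_mul]
  refine sum_le_sum fun u _ => ?_
  by_cases c : Dm r Y b p V v u = 0
  · rw [c, zero_mul, zero_mul]
  · obtain ⟨-, c1, c2⟩ := D_supp c
    rw [mul_assoc, ← exp_add]
    exact le_mul_of_one_le_right (h.D_nn v u) (one_le_exp (by linarith [hs u c1 c2.symm]))

omit h in
theorem d_iso {K D2 : Matrix ι ι ℝ} {c ν : ℝ} (hr : PM r') (h2 : KW r' D2 ν) {v : ι}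
    (hD : ∀ u, Dm r Y b p V v u ≤ c * K v u + D2 v u) (hK : ∀ u ∈ Y, u ≠ v → K v u = 0) :
    (∀ u, Dm r Y b p V v u ≤ D2 v u) ∧ ∑ u, Dm r Y b p V v u ≤ ν := by
  have a : ∀ u, Dm r Y b p V v u ≤ D2 v u := fun u => by
    by_cases c : Dm r Y b p V v u = 0
    · rw [c]; exact h2.nn v u
    · obtain ⟨-, c1, c2⟩ := D_supp c
      simpa [hK u c1 c2.symm] using hD u
  exact ⟨a, (sum_le_sum fun u _ => a u).trans (h2.row' hr v)⟩

theorem Nv_al_b {x v : ι} {c : ℝ} (c0 : 0 ≤ c)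
    (hc : pr (fun z => c < ‖alw A (mix Y z ϖ) x v‖) ≤ p) :
    Nv A Y ϖ v (al A Y ϖ x) ≤ c + √p / 50 * exp (-r x v) := by
  have a1 := eY_dec (f := fun w => ‖alw A w x v‖) (g := fun _ => 1) hc (fun _ => norm_nonneg _)
    (fun w => h.alw_le w x v) (fun _ => zero_le_one) fun _ => le_rfl
  simp only [mul_one, eY_const] at a1
  rw [h.Nv_al]
  refine sqrt_le_iff.2 ⟨by positivity, a1.trans ?_⟩
  have : 0 ≤ c * (√p / 50 * exp (-r x v)) := by positivity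
  rw [add_sq, mul_pow, div_pow, div_pow, sq_sqrt h.p0]
  linarith

theorem kw_tail : KW r' (sqk fun x v => √p / 50 * exp (-r x v)) (t / 2) := by
  obtain _ | ⟨⟨z⟩⟩ := isEmpty_or_nonempty ι
  · exact ⟨fun x => isEmptyElim x, fun x => isEmptyElim x, fun x => isEmptyElim x⟩
  have a1 : 1 ≤ V := by simpa [Ek, h.smk.pm.zero] using h.hE.entry' h.pm z z
  have a2 := h.p0
  refine (h.hE.smul (a := p / 2500) (by positivity)).mono (fun x y => sq_nonneg _)
    (fun x y => le_of_eq ?_) (by nlinarith [h.ht, h.t0, mul_nonneg a2 (sub_nonneg.2 a1)])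
  rw [sqk, mul_pow, div_pow, sq_sqrt a2, ← exp_nat_mul, Matrix.smul_apply, smul_eq_mul, Ek]
  congr 2
  · norm_num
  · push_cast; ring

end MH

theorem geo_sq {k k' : Matrix ι ι ℝ} (h0 : ∀ x y, 0 ≤ k x y) (h0' : ∀ x y, 0 ≤ k' x y)
    (h : ∀ x y, k x y ≤ k' x y ^ 2) (j : ℕ) :
    ∀ x y, 0 ≤ geo k' j x y ∧ geo k j x y ≤ geo k' j x y ^ 2 := by
  induction j with
  | zero => intro x y; simp [geo]
  | succ j ih =>
    intro x y
    have a0 : ∀ z ∈ univ, 0 ≤ k' x z * geo k' j z y := fun z _ => mul_nonneg (h0' _ _) (ih _ _).1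
    have a1 : ∑ z, k x z * geo k j z y ≤ ∑ z, (k' x z * geo k' j z y) ^ 2 := sum_le_sum fun z _ => by
      rw [mul_pow]
      exact (mul_le_mul_of_nonneg_left (ih z y).2 (h0 x z)).trans
        (mul_le_mul_of_nonneg_right (h x z) (sq_nonneg _))
    have a2 := sum_sq_le_sq_sum_of_nonneg a0
    have a3 := sum_nonneg a0
    simp only [geo_succ, Matrix.add_apply, Matrix.mul_apply]
    exact ⟨add_nonneg (h0' x y) a3, by nlinarith [h x y, mul_nonneg (h0' x y) a3]⟩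

omit [Fintype ι] in
theorem off_le {k : Matrix ι ι ℝ} (h : ∀ x y, 0 ≤ k x y) (x y : ι) :
    0 ≤ off k x y ∧ off k x y ≤ k x y := by
  unfold off; split_ifs
  exacts [⟨le_rfl, h x y⟩, ⟨h x y, le_rfl⟩]

omit [Fintype ι] in
theorem off_T {k : Matrix ι ι ℝ} (h : kᵀ = k) : (off k)ᵀ = off k := by
  ext x y
  rw [Matrix.transpose_apply, off, off, show k y x = k x y from congrFun (congrFun h x) y]
  exact if_congr eq_comm rfl rfl

theorem KW.off {r : ι → ι → ℝ} {k : Matrix ι ι ℝ} {c : ℝ} (h : KW r k c) : KW r (off k) c :=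
  h.mono (fun x y => (off_le h.nn x y).1) (fun x y => (off_le h.nn x y).2) le_rfl

omit [Fintype ι] in
theorem Rg.off {ρ : ι → ι → ℕ} {k : Matrix ι ι ℝ} {n : ℕ} (h : Rg ρ k n) : Rg ρ (off k) n :=
  fun x y e => h x y fun e0 => e (by simp [Pre.off, e0])

/-- the fixed near kernel, normalised -/
noncomputable def KnM (a : Matrix ι ι ℝ) (j : ℕ) (κ : ℝ) : Matrix ι ι ℝ :=
  κ⁻¹ • off (geo ((3 / 2 : ℝ) • off (geo (ab a) j)) j)

section KnM

variable {a : Matrix ι ι ℝ} {j : ℕ} {e : ℝ}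

theorem KnM_T (h : aᵀ = a) (κ : ℝ) : (KnM a j κ)ᵀ = KnM a j κ := by
  rw [KnM, Matrix.transpose_smul, off_T (geo_symm (by
    rw [Matrix.transpose_smul, off_T (geo_symm (ab_T h) j)]) j)]

theorem KnM_self (κ : ℝ) (x : ι) : KnM a j κ x x = 0 := by simp [KnM, off]

theorem KnM_rg {ρ : ι → ι → ℕ} {j0 : ℕ} (hρ : PM fun x y => (ρ x y : ℝ)) (h : Rg ρ a j0) (κ : ℝ) :
    Rg ρ (KnM a j κ) (j * (j * j0)) := fun x y c => by
  have a1 : Rg ρ ((3 / 2 : ℝ) • off (geo (ab a) j)) (j * j0) := fun x y c =>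
    (h.ab.geo hρ.tri_nat j).off x y (right_ne_zero_of_mul c)
  exact (a1.geo hρ.tri_nat j).off x y (right_ne_zero_of_mul c)

theorem At_kw (ha : KW (fun _ _ => 0) (ab a) e) (h0 : 0 < e) (he : e ≤ 1 / 100) :
    KW (fun _ _ => 0) (geo ((3 / 2 : ℝ) • off (geo (ab a) j)) j) (8 / 5 * e) := by
  have a1 := ((geo_kw ha pm_zero (by linarith) h0.le j).off.smul (a := 3 / 2) (by norm_num)).le
    (c' := 38 / 25 * e) (by rw [← mul_div_assoc, div_le_iff₀ (by linarith)]; nlinarith)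
  exact (geo_kw a1 pm_zero (by linarith) (by linarith) j).le (by
    rw [div_le_iff₀ (by linarith)]; nlinarith)

theorem KnM_kw (ha : KW (fun _ _ => 0) (ab a) e) (h0 : 0 < e) (he : e ≤ 1 / 100) :
    KW (fun _ _ => 0) (KnM a j (2 * e)) 1 :=
  ((At_kw ha h0 he).off.smul (by positivity)).le (by
    rw [inv_mul_le_iff₀ (by positivity)]; linarith)

theorem KnM_mul (h0 : 0 < e) {x y : ι} (hxy : x ≠ y) :
    2 * e * KnM a j (2 * e) x y = geo ((3 / 2 : ℝ) • off (geo (ab a) j)) j x y := by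
  rw [KnM, Matrix.smul_apply, smul_eq_mul, mul_inv_cancel_left₀ (by positivity), off, if_neg hxy]

theorem geo_le_KnM (ha : KW (fun _ _ => 0) (ab a) e) (h0 : 0 < e) (he : e ≤ 1 / 100) {x y : ι}
    (hxy : x ≠ y) : geo (ab a) j x y ≤ 2 * e * KnM a j (2 * e) x y := by
  rw [KnM_mul h0 hxy]
  have g := (geo_kw ha pm_zero (by linarith) h0.le j).off.smul (a := 3 / 2) (by norm_num)
  have g0 := (geo_kw ha pm_zero (by linarith) h0.le j).nn x y
  obtain _ | j := j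
  · simp [geo]
  · have g1 := fun x y => (geo_sq (k := 0) (fun _ _ => le_rfl) g.nn (fun _ _ => sq_nonneg _) j x y).1
    have g2 : (0 : ℝ) ≤ _ := sum_nonneg fun z (_ : z ∈ univ) => mul_nonneg (g.nn x z) (g1 z y)
    rw [geo_succ (_ • _) j, Matrix.add_apply, Matrix.mul_apply, Matrix.smul_apply, smul_eq_mul, off,
      if_neg hxy]
    linarith

theorem geo_sq_KnM (ha : KW (fun _ _ => 0) (ab a) e) (h0 : 0 < e) (he : e ≤ 1 / 100) {x y : ι}
    (hxy : x ≠ y) : 1001 / 1000 * geo ((11 / 5 : ℝ) • ctY univ (sqk (geo (ab a) j))) j x y ≤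
      (2 * e) ^ 2 * KnM a j (2 * e) x y := by
  have g := (geo_kw ha pm_zero (by linarith) h0.le j).off.smul (a := 3 / 2) (by norm_num)
  obtain ⟨a1, a2⟩ := geo_sq (k := (11 / 5 : ℝ) • ctY univ (sqk (geo (ab a) j))) (fun x y =>
    mul_nonneg (by norm_num) (ctY_le (fun _ _ => sq_nonneg _) x y).1) g.nn (fun x y => by
      simp only [Matrix.smul_apply, smul_eq_mul, ctY, off, sqk, mem_univ, true_and]
      by_cases c : x = y
      · simp [c]
      · rw [if_pos c, if_neg c]; nlinarith [sq_nonneg (geo (ab a) j x y)]) j x y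
  have a3 := mul_le_mul_of_nonneg_right ((At_kw (j := j) ha h0 he).entry' pm_zero x y) a1
  rw [sq (2 * e), mul_assoc (2 * e), KnM_mul h0 hxy]
  nlinarith [mul_nonneg h0.le a1]

end KnM

variable {A : Matrix ι ι ℂ} {a : Matrix ι ι ℝ} {e ν n0 : ℝ}

theorem alw_dg (hA : OpLe univ A (1 / 100)) (ha : KW (fun _ _ => 0) (ab a) e) (h0 : 0 ≤ e)
    (he : e ≤ 1 / 100) (hν : ∀ z, ∑ x, ‖A x z - a x z‖ ^ 2 ≤ ν) (hνe : 8 * ν ≤ e ^ 2) (w : ι → Bool)
    (x : ι) : ‖alw A w x x‖ ≤ 2 * e := by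
  have e1 : e < 1 := by linarith
  have a1 := (alw_le ha h0 e1 w x x).trans ((ha.mul (res_kw ha pm_zero e1) pm_zero).entry' pm_zero x x)
  have a2 := (single_le_sum (f := fun u => ‖alw A w u x - alw (cr a) w u x‖ ^ 2)
    (fun _ _ => sq_nonneg _) (mem_univ x)).trans (diff_sq hA ha h0 he hν w x)
  have a3 := (abs_le_of_sq_le_sq' (a2.trans (show 2 * ν ≤ (e / 2) ^ 2 by linarith))
    (by positivity)).2
  have a4 : e * (1 / (1 - e)) ≤ 3 / 2 * e := by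
    rw [mul_one_div, div_le_iff₀ (by linarith)]; nlinarith
  linarith [norm_le_insert' (alw A w x x) (alw (cr a) w x x)]

theorem alw_col (hA : OpLe univ A (1 / 100)) (ha : KW (fun _ _ => 0) (ab a) e) (h0 : 0 ≤ e)
    (he : e ≤ 1 / 100) (hν : ∀ z, ∑ x, ‖A x z - a x z‖ ^ 2 ≤ ν)
    (hn : ∀ y, ∑ x, off (ab a) x y ^ 2 ≤ n0) (w : ι → Bool) (v : ι) :
    ∑ u ∈ univ.erase v, ‖alw A w u v‖ ^ 2 ≤ 6 * n0 + 4 * ν := by
  have a1 := off_sq ha h0 (by linarith) hn v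
  have a2 := diff_sq hA ha h0 he hν w v
  have a3 : ∑ u ∈ univ.erase v, ‖alw A w u v‖ ^ 2 ≤ ∑ u, (2 * off (ab a * res (ab a)) u v ^ 2 +
      2 * ‖alw A w u v - alw (cr a) w u v‖ ^ 2) := by
    refine (sum_le_sum fun u hu => ?_).trans (sum_le_sum_of_subset_of_nonneg (subset_univ _)
      fun u _ _ => by positivity)
    have b1 := (norm_le_insert' (alw A w u v) (alw (cr a) w u v)).trans
      (add_le_add (alw_le ha h0 (by linarith) w u v) le_rfl)
    rw [off, if_neg (ne_of_mem_erase hu)]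
    nlinarith [pow_le_pow_left₀ (norm_nonneg _) b1 2, sq_nonneg ((ab a * res (ab a)) u v -
      ‖alw A w u v - alw (cr a) w u v‖)]
  rw [sum_add_distrib, ← mul_sum, ← mul_sum] at a3
  linarith

theorem kw_geo_sq {ρ : ι → ι → ℕ} (hρ : PM fun x y => (ρ x y : ℝ)) {L j j0 : ℕ} (L0 : (0 : ℝ) < L)
    (has : aᵀ = a) (ha : KW (fun _ _ => 0) (ab a) e) (h0 : 0 ≤ e) (he : e ≤ 1 / 100)
    (hj : Rg ρ a j0) (hjL : j * j0 ≤ L) (hn : ∀ y, ∑ x, off (ab a) x y ^ 2 ≤ n0) :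
    KW (fun x y => (ρ x y : ℝ) / L) (ctY univ (sqk (geo (ab a) j))) (9 * n0) := by
  have g := geo_kw ha pm_zero (by linarith) h0 j
  have cl : ∀ y, ∑ x, ctY univ (sqk (geo (ab a) j)) x y * exp (ρ x y / L) ≤ 9 * n0 := fun y => by
    have a1 := off_sq ha h0 (by linarith) hn y
    refine (sum_le_sum (g := fun x => 3 * off (ab a * res (ab a)) x y ^ 2) fun x _ => ?_).trans
      (by rw [← mul_sum]; linarith)
    simp only [ctY, off, sqk, mem_univ, true_and]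
    by_cases c : x = y
    · simp [c]
    rw [if_pos c, if_neg c, mul_comm 3]
    by_cases c' : geo (ab a) j x y = 0
    · rw [c', zero_pow two_ne_zero, zero_mul]; positivity
    refine mul_le_mul (pow_le_pow_left₀ (g.nn x y) (geo_le ha pm_zero (by linarith) j x y) 2)
      ((exp_le_exp.2 ?_).trans (exp_one_lt_d9.le.trans (by norm_num))) (exp_pos _).le (sq_nonneg _)
    rw [div_le_one L0]
    exact_mod_cast (hj.ab.geo hρ.tri_nat j x y c').trans hjL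
  have sy := ctY_T (Y := univ) (k := sqk (geo (ab a) j)) (by
    ext x y; exact congrArg (· ^ 2) (congrFun (congrFun (geo_symm (ab_T has) j) x) y))
  refine ⟨fun x y => (ctY_le (fun _ _ => sq_nonneg _) x y).1, fun x => ?_, cl⟩
  refine le_of_eq_of_le (sum_congr rfl fun y _ => ?_) (cl x)
  rw [hρ.symm x y]
  exact congrArg (· * _) (congrFun (congrFun sy y) x)

/-- existence of the majorant, with near and far parts -/
theorem exists_MH {ρ : ι → ι → ℕ} (hρ : PM fun x y => (ρ x y : ℝ)) {L j j0 n : ℕ} {La Vb V : ℝ}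
    (hLa : 0 < La) (hL' : La ≤ L) (hA : WN (fun x y => (ρ x y : ℝ) / La) A (1 / 100)) (hs : Aᵀ = A)
    (has : aᵀ = a) (ha : KW (fun _ _ => 0) (ab a) e) (h0 : 0 < e) (he : e ≤ 1 / 200)
    (hj : Rg ρ a j0) (hν : ∀ z, ∑ x, ‖A x z - a x z‖ ^ 2 ≤ ν)
    (hn0 : ∀ y, ∑ x, off (ab a) x y ^ 2 ≤ n0) (n0e : 20 * n0 ≤ e ^ 2) (n00 : 0 ≤ n0)
    (hνe : 8 * ν ≤ e ^ 2) (ν0 : 0 ≤ ν)
    (hn : (n + 1) * (2 * e ^ 2 + 2 * ν) ≤ 1 / 4000) (hL : n * j0 ≤ L) (hjL : j * j0 ≤ L)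
    (hV : ∀ x, (#{z | ρ z x ≤ L} : ℝ) ≤ Vb) (Vb0 : 0 ≤ Vb) (hVn : Vb ≤ 2500 ^ n)
    (hT : e ^ (2 * (j + 1)) ≤ ν) (hF : ∀ x, ∑ z with L < ρ z x, exp (-(ρ z x / La)) ≤ ν)
    (hE : KW (fun x y => (ρ x y : ℝ) / L) (Ek fun x y => (ρ x y : ℝ) / La) V)
    (ht : Vb * (n / 2 ^ n) * V ^ 2 ≤ 900 * ν) (Y : Finset ι) (ϖ : ι → Bool) :
    ∃ b D2 μ : Matrix ι ι ℝ, MH (fun x y => (ρ x y : ℝ) / La) (fun x y => (ρ x y : ℝ) / L) A (1 / 100)
        (2 * e) Y ϖ b (Vb * (n / 2 ^ n)) V (18 * n0 + 300 * ν) ν ∧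
      KW (fun x y => (ρ x y : ℝ) / L) D2 (455 * ν) ∧ (∀ x y, 0 ≤ μ x y) ∧ μᵀ = μ ∧
      KW (fun x y => (ρ x y : ℝ) / L) (sqk μ) (301 * ν) ∧
      (∀ x y, Dm (fun x y => (ρ x y : ℝ) / La) Y b (Vb * (n / 2 ^ n)) V x y ≤
        (2 * e) ^ 2 * KnM a j (2 * e) x y + D2 x y) ∧
      ∀ x v, x ≠ v → Nv A Y ϖ v (al A Y ϖ x) ≤ 2 * e * KnM a j (2 * e) x v + μ x v := by
  have he' : e ≤ 1 / 100 := by linarith
  have e2 : e ^ 2 ≤ 1 / 40000 := by nlinarith
  have L0 : (0 : ℝ) < L := hLa.trans_le hL'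
  have hr := hρ.div hLa.le
  obtain ⟨b, b2, s1, s2, p1, p2, c1, -, c3, c4⟩ :=
    maj_b hρ hLa hL' hA hs has ha h0.le he' hj hν hn hL hV hVn hT hF Y ϖ
  have k1 := kw_geo_sq hρ L0 has ha h0.le he' hj hjL hn0
  have k2 : KW (fun x y => (ρ x y : ℝ) / L) (ctY Y (sqk b2)) (150 * ν) :=
    c3.mono (fun x y => (ctY_le c3.nn x y).1) (fun x y => (ctY_le c3.nn x y).2) le_rfl
  have h : MH (fun x y => (ρ x y : ℝ) / La) (fun x y => (ρ x y : ℝ) / L) A (1 / 100) (2 * e) Y ϖ b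
      (Vb * (n / 2 ^ n)) V (18 * n0 + 300 * ν) ν :=
    ⟨⟨hr, hs, hA, by norm_num, by norm_num⟩, le_rfl, by linarith,
      alw_dg (hA.opLe hr) ha h0.le he' hν hνe, s1, fun u _ v _ _ => c4 u v, hρ.div L0.le, hE,
      ((k1.smul zero_le_two).add (k2.smul zero_le_two)).mono
        (fun x y => (ctY_le (fun _ _ => sq_nonneg _) x y).1) (fun x y => by
          simp only [ctY, sqk, Matrix.add_apply, Matrix.smul_apply, smul_eq_mul, mem_univ, true_and]
          by_cases c : x ∈ Y ∧ y ∈ Y ∧ x ≠ y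
          · rw [if_pos c, if_pos c, if_pos c.2.2]
            nlinarith [pow_le_pow_left₀ (p1 x y) (c1 x y) 2, sq_nonneg (geo (ab a) j x y - b2 x y)]
          · rw [if_neg c, if_neg c]
            have : 0 ≤ if x ≠ y then geo (ab a) j x y ^ 2 else 0 := by split_ifs <;> positivity
            linarith) (by linarith),
      by positivity, by linarith, by positivity, ht, by linarith⟩
  obtain ⟨D2, d1, d2⟩ := h.split p1 c1 k1 k2 (by positivity) (by linarith) (by positivity) j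
  have d3 : (11 / 5 * (9 * n0)) ^ (j + 1) ≤ ν :=
    (pow_le_pow_left₀ (by positivity) (show _ ≤ e ^ 2 by linarith) _).trans (by rwa [← pow_mul])
  refine ⟨b, D2, fun x v => b2 x v + √(Vb * (n / 2 ^ n)) / 50 * exp (-(ρ x v / La)), h,
    d1.le (by linarith), fun x y => by have := p2 x y; positivity, ?_,
    ((c3.smul zero_le_two).add (h.kw_tail.smul zero_le_two)).mono (fun _ _ => sq_nonneg _)
      (fun x y => ?_) (by linarith), fun x y => ?_, fun x v hxv => ?_⟩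
  · ext x y
    rw [Matrix.transpose_apply, show b2 y x = b2 x y from congrFun (congrFun s2 x) y, hρ.symm y x]
  · simp only [sqk, Matrix.add_apply, Matrix.smul_apply, smul_eq_mul]
    nlinarith [sq_nonneg (b2 x y - √(Vb * (n / 2 ^ n)) / 50 * exp (-(ρ x y / La)))]
  · by_cases c : x = y
    · rw [c, MH.D_self, KnM_self, mul_zero, zero_add]; exact d1.nn y y
    · exact (d2 x y).trans (add_le_add (geo_sq_KnM ha h0 he' c) le_rfl)
  · linarith [h.Nv_al_b (p1 x v) (c4 x v), c1 x v, geo_le_KnM (j := j) ha h0 he' hxv]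

end Pool.Agent.P.MP_d0f69c_mp.XS.Pre
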