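import Pool.Agent.P.MP_d0f69c_mp.XS.PIfS
import Pool.Agent.P.MP_d0f69c_mp.XS.PMaj4

/-!
The fixed near kernel, facts for every configuration, sparse perturbations.
-/

set_option autoImplicit false

open Finset Function Real Matrix

namespace Pool.Agent.P.MP_d0f69c_mp.XS.Pre

variable {ι : Type} [Fintype ι] [DecidableEq ι]

section off

variable {k : Matrix ι ι ℝ}

omit [Fintype ι] [DecidableEq ι] in
theorem Rg.smul {ρ : ι → ι → ℕ} {n : ℕ} (h : Rg ρ k n) (c : ℝ) : Rg ρ (c • k) n := fun x y e =>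
  h x y fun e0 => e (by simp [e0])

theorem geo_eqv (σ : ι ≃ ι) (h : ∀ x y, k (σ x) (σ y) = k x y) (j : ℕ) (x y : ι) :
    geo k j (σ x) (σ y) = geo k j x y := by
  induction j generalizing x y with
  | zero => simp [geo]
  | succ j ih =>
    simp only [geo_succ, Matrix.add_apply, Matrix.mul_apply, h]
    rw [← σ.sum_comp]
    simp only [h, ih]

omit [Fintype ι] in
theorem off_eqv (σ : ι ≃ ι) (h : ∀ x y, k (σ x) (σ y) = k x y) (x y : ι) :
    off k (σ x) (σ y) = off k x y := by simp only [off, h, σ.injective.eq_iff]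

theorem geo_nn (h : ∀ x y, 0 ≤ k x y) (j : ℕ) (x y : ι) : 0 ≤ geo k j x y := by
  induction j generalizing x y with
  | zero => simp [geo]
  | succ j ih =>
    rw [geo_succ]
    exact add_nonneg (h x y) (sum_nonneg fun z _ => mul_nonneg (h x z) (ih z y))

/-- sums of squares along paths -/
theorem geo_sq' {q : Matrix ι ι ℝ} (h : ∀ x y, 0 ≤ k x y) (q0 : ∀ x y, 0 ≤ q x y)
    (hq : ∀ x y, q x y ≤ k x y ^ 2) (j : ℕ) (x y : ι) : geo q j x y ≤ geo k j x y ^ 2 := by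
  induction j generalizing x y with
  | zero => simp [geo]
  | succ j ih =>
    rw [geo_succ, geo_succ, Matrix.add_apply, Matrix.add_apply, Matrix.mul_apply, Matrix.mul_apply]
    have p : ∀ z ∈ univ, 0 ≤ k x z * geo k j z y := fun z _ => mul_nonneg (h x z) (geo_nn h j z y)
    have a : ∑ z, q x z * geo q j z y ≤ (∑ z, k x z * geo k j z y) ^ 2 :=
      (sum_le_sum fun z _ => (mul_le_mul (hq x z) (ih z y) (geo_nn q0 j z y) (sq_nonneg _)).trans_eq
        (mul_pow _ _ _).symm).trans (sum_sq_le_sq_sum_of_nonneg p)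
    nlinarith [hq x y, mul_nonneg (h x y) (sum_nonneg p)]

end off

namespace Geo

variable {ρ : ι → ι → ℕ} {l : Lv} {a : Matrix ι ι ℝ} (h : Geo ρ l a)
include h

theorem e1 : l.e < 1 := by linarith [h.ok.e1]

theorem ν0 : 0 < l.ν := (pow_pos h.ok.e0 _).trans_le h.ok.hT

theorem kwA : KW (fun _ _ => 0) (geo (ab a) l.j) (1002 / 1000 * l.e) :=
  (geo_kw h.l1 pm_zero h.e1 h.ok.e0.le l.j).le (by
    rw [div_le_iff₀ (by linarith [h.e1])]; nlinarith [h.ok.e0, h.ok.e1])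

theorem kwS : KW (fun _ _ => 0) (geo ((3 / 2 : ℝ) • off (geo (ab a) l.j)) l.j) (151 / 100 * l.e) :=
  (geo_kw (h.kwA.off.smul (by norm_num)) pm_zero (by linarith [h.ok.e1]) (by linarith [h.ok.e0])
    l.j).le (by rw [div_le_iff₀ (by linarith [h.ok.e1])]; nlinarith [h.ok.e0, h.ok.e1])

theorem κK (x y : ι) : l.κ * Kn l a x y =
    8 / 5 * off (geo ((3 / 2 : ℝ) • off (geo (ab a) l.j)) l.j) x y := by
  have := h.ok.e0.ne'
  rw [Kn, Lv.κ, Matrix.smul_apply, smul_eq_mul]; field_simp; ring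

theorem kwK : KW (fun _ _ => 0) (Kn l a) 1 :=
  (h.kwS.off.smul (by have := h.ok.e0; positivity)).le (by
    have := h.ok.e0
    rw [div_mul_eq_mul_div, div_le_one (by positivity)]; linarith)

theorem A_le {x y : ι} (e : x ≠ y) : geo (ab a) l.j x y ≤ l.κ * Kn l a x y := by
  rw [h.κK, off, if_neg e]
  have p := (h.kwA.off.smul (a := 3 / 2) (by norm_num)).nn
  have q := h.kwA.nn x y
  rcases hj : l.j with _ | j
  · simp [geo]
  · rw [hj] at p q
    conv_rhs => rw [geo_succ, Matrix.add_apply, Matrix.smul_apply, off, if_neg e, smul_eq_mul]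
    have := sum_nonneg fun z (_ : z ∈ univ) => mul_nonneg (p x z) (geo_nn p j z y)
    rw [Matrix.mul_apply]
    linarith

theorem off_A (y : ι) : ∑ x, off (geo (ab a) l.j) x y ^ 2 ≤ 3 * l.n0 :=
  (sum_le_sum fun x _ => pow_le_pow_left₀ (h.kwA.off.nn x y) (by
    unfold off; split_ifs; exacts [le_rfl, geo_le h.l1 pm_zero h.e1 _ x y]) 2).trans
    (off_sq h.l1 h.ok.e0.le (by linarith [h.ok.e1]) h.l2 y)

end Geo

theorem t_kn : S_KN := fun _ _ _ ρ l a h =>
  ⟨by rw [Kn, transpose_smul, off_T (geo_symm (by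
      rw [transpose_smul, off_T (geo_symm (ab_T h.sy) _)]) _)], fun x => by simp [Kn, off], h.kwK,
    ((((h.rg.ab.geo h.pm.tri_nat _).off.smul _).geo h.pm.tri_nat _).off.smul _), fun σ e x y => by
      simp only [Kn, Matrix.smul_apply]
      rw [off_eqv σ (geo_eqv σ (fun x y => by
        simp only [Matrix.smul_apply]
        rw [off_eqv σ (geo_eqv σ (fun x y => by rw [ab, ab, e]) _)]) _)]⟩

theorem DOK.den' {A : Matrix ι ι ℂ} {e : ℝ} (h : DOK A e) : Den A (50 / 49) := fun w v => by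
  have := h.cc_le w v
  rwa [cc, norm_inv, inv_eq_one_div, div_le_iff₀ (norm_pos_iff.2 (h.cc_ne w v))] at this

omit [DecidableEq ι] in
theorem WN.conj {r : ι → ι → ℝ} {A : Matrix ι ι ℂ} {c : ℝ} (h : WN r A c) (hs : Aᵀ = A) :
    WN r Aᴴ c := fun ρ hρ u => by
  have := h ρ hρ (star u)
  rw [show nS univ (star u) = nS univ u by simp [nS]] at this
  refine le_trans (le_of_eq ?_) this
  unfold nS
  refine congrArg _ (sum_congr rfl fun x _ => ?_)
  rw [← norm_star, ap, ap, star_sum]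
  congr 2
  refine sum_congr rfl fun y _ => ?_
  rw [cj, cj, conjTranspose_apply, ← transpose_apply A x y, hs, star_mul', star_mul', star_star,
    Complex.star_def, Complex.conj_ofReal]
  rfl

namespace Nf

variable {W c c' β : ℝ} {p q : ι → ℂ}

omit [DecidableEq ι] in
theorem mono (h : Nf W c p) (hc : c ≤ c') : Nf W c' p :=
  let ⟨n, f, e, b⟩ := h; ⟨n, f, e, b.trans hc⟩

omit [DecidableEq ι] in
theorem add (h : Nf W c p) (h' : Nf W c' q) : Nf W (c + c') (p + q) := by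
  obtain ⟨n, f, rfl, b⟩ := h
  obtain ⟨n', f', rfl, b'⟩ := h'
  refine ⟨n + n', f + f', add_add_add_comm _ _ _ _, ?_⟩
  have a1 : ∑ x, ‖(n + n') x‖ ≤ ∑ x, ‖n x‖ + ∑ x, ‖n' x‖ :=
    (sum_le_sum fun x _ => norm_add_le _ _).trans_eq sum_add_distrib
  have a2 := mul_le_mul_of_nonneg_left (nS_add univ f f') (sqrt_nonneg W)
  linarith

omit [DecidableEq ι] in
theorem mul (h : Nf W c p) {s : ι → ℂ} (hs : ∀ x, ‖s x‖ ≤ 1) : Nf W c fun x => s x * p x := by
  obtain ⟨n, f, rfl, b⟩ := h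
  have a : ∀ x (z : ℂ), ‖s x * z‖ ≤ ‖z‖ := fun x z =>
    (norm_mul _ _).trans_le (mul_le_of_le_one_left (norm_nonneg _) (hs x))
  refine ⟨fun x => s x * n x, fun x => s x * f x, funext fun x => mul_add _ _ _, le_trans
    (add_le_add (sum_le_sum fun x _ => a x _) (mul_le_mul_of_nonneg_left
      (nS_le_nS fun x _ => a x _) (sqrt_nonneg W))) b⟩

theorem one (W : ℝ) (y : ι) : Nf W 1 fun x => if x = y then 1 else 0 :=
  ⟨_, 0, (add_zero _).symm, by simp [nS, apply_ite]⟩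

omit [DecidableEq ι] in
theorem row {b : Matrix ι ι ℂ} (β0 : 0 ≤ β) (h1 : ∀ x y, ‖b x y‖ ≤ β)
    (h2 : ∀ x, (#{y | b x y ≠ 0} : ℝ) ≤ W) (f : ι → ℂ) (x : ι) :
    ‖∑ y, b x y * f y‖ ≤ β * (√W * nS univ f) := by
  refine (nS_cs univ _ _).trans ?_
  rw [← mul_assoc]
  refine mul_le_mul_of_nonneg_right ?_ (nS_nonneg _ _)
  rw [nS_le_iff (by positivity), mul_pow, sq_sqrt ((Nat.cast_nonneg _).trans (h2 x)),
    ← sum_filter_of_ne (p := fun y => b x y ≠ 0) fun y _ e e0 => e (by simp [e0])]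
  refine (sum_le_card_nsmul _ _ (β ^ 2) fun y _ => pow_le_pow_left₀ (norm_nonneg _) (h1 x y) 2).trans ?_
  rw [nsmul_eq_mul, mul_comm]
  exact mul_le_mul_of_nonneg_left (h2 x) (sq_nonneg _)

/-- a sparse matrix between two such vectors -/
theorem bil {b : Matrix ι ι ℂ} (hb : Spa W β b) (β0 : 0 ≤ β) (W0 : 0 ≤ W) (h : Nf W c p)
    (h' : Nf W c' q) : ‖bf b p q‖ ≤ β * (c * c') := by
  obtain ⟨n, f, rfl, e⟩ := h
  obtain ⟨n', f', rfl, e'⟩ := h'
  have a1 : ∀ x, ‖(b *ᵥ (n' + f')) x‖ ≤ β * c' := fun x => by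
    rw [mulVec_add, Pi.add_apply]
    refine (norm_add_le _ _).trans ((add_le_add ((norm_sum_le _ _).trans (sum_le_sum fun y _ =>
      (norm_mul _ _).trans_le (mul_le_mul_of_nonneg_right (hb.le x y) (norm_nonneg _))))
      (row β0 hb.le hb.row f' x)).trans ?_)
    rw [← mul_sum, ← mul_add]
    exact mul_le_mul_of_nonneg_left e' β0
  have a2 : ‖n ⬝ᵥ b *ᵥ (n' + f')‖ ≤ (∑ x, ‖n x‖) * (β * c') := by
    rw [sum_mul]
    exact (norm_sum_le _ _).trans (sum_le_sum fun x _ =>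
      (norm_mul _ _).trans_le (mul_le_mul_of_nonneg_left (a1 x) (norm_nonneg _)))
  have a3 : ‖f ⬝ᵥ b *ᵥ n'‖ ≤ (∑ x, ‖n' x‖) * (β * (√W * nS univ f)) := by
    rw [dotProduct_mulVec, dotProduct_comm, sum_mul]
    refine (norm_sum_le _ _).trans (sum_le_sum fun y _ => (norm_mul _ _).trans_le
      (mul_le_mul_of_nonneg_left ?_ (norm_nonneg _)))
    simpa only [vecMul, dotProduct, mul_comm (f _), transpose_apply] using
      row (b := bᵀ) β0 (fun x y => hb.le y x) hb.col f y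
  have k : ∀ g : ι → ℂ, (∀ x, ‖g x‖ ≤ β) → (#{x | g x ≠ 0} : ℝ) ≤ W →
      ∑ x, ‖g x‖ ≤ W * β := fun g g1 g2 => by
    rw [← sum_filter_of_ne (p := fun y => g y ≠ 0) fun y _ e e0 => e (by simp [e0])]
    refine (sum_le_card_nsmul _ _ β fun y _ => g1 y).trans ?_
    rw [nsmul_eq_mul]
    exact mul_le_mul_of_nonneg_right g2 β0
  have a4 : ‖f ⬝ᵥ b *ᵥ f'‖ ≤ nS univ f * (W * β * nS univ f') :=
    (nS_cs univ _ _).trans (mul_le_mul_of_nonneg_left (OpLe.schur (S := univ) (Y := b)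
      (d := fun x y => ‖b x y‖) (fun _ _ _ _ => le_rfl) (mul_nonneg W0 β0)
      (fun x _ => k _ (hb.le x) (hb.row x)) (fun y _ => k _ (hb.le · y) (hb.col y)) f')
      (nS_nonneg _ _))
  have a5 := mul_le_mul_of_nonneg_left e' (mul_nonneg β0 (mul_nonneg (sqrt_nonneg W)
    (nS_nonneg univ f)))
  have a6 : 0 ≤ β * c' :=
    mul_nonneg β0 (le_trans (add_nonneg (sum_nonneg fun _ _ => norm_nonneg _)
      (mul_nonneg (sqrt_nonneg W) (nS_nonneg univ f'))) e')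
  have a7 := mul_le_mul_of_nonneg_right e a6
  have a8 : √W * √W = W := mul_self_sqrt W0
  rw [bf, add_dotProduct]
  refine (norm_add_le _ _).trans ?_
  rw [mulVec_add b n' f'] at a2 ⊢
  rw [dotProduct_add f]
  have a9 := norm_add_le (f ⬝ᵥ b *ᵥ n') (f ⬝ᵥ b *ᵥ f')
  have : nS univ f * (W * β * nS univ f') = β * (√W * nS univ f) * (√W * nS univ f') := by
    linear_combination -(nS univ f * β * nS univ f') * a8
  linarith

end Nf

namespace Ker

variable {ρ : ι → ι → ℕ} {l : Lv} {a : Matrix ι ι ℝ} {A : Matrix ι ι ℂ} (h : Ker ρ l a A)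
include h

theorem smk : SmK (fun x y => (ρ x y : ℝ) / l.La) A (1 / 100) :=
  ⟨h.geo.pm.div h.geo.ok.La0.le, h.sy, h.wn, by norm_num, by norm_num⟩

theorem op : OpLe univ A (1 / 100) := h.wn.opLe h.smk.pm

theorem dsq (w : ι → Bool) (v : ι) : ∑ u, ‖alw A w u v - alw (cr a) w u v‖ ^ 2 ≤ 2 * l.ν :=
  diff_sq h.op h.geo.l1 h.geo.ok.e0.le (by linarith [h.geo.ok.e1]) h.far w v

theorem kwR : KW (fun _ _ => 0) (ab a * res (ab a)) (1002 / 1000 * l.e) :=
  (h.geo.l1.mul (res_kw h.geo.l1 pm_zero h.geo.e1) pm_zero).le (by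
    rw [mul_one_div, div_le_iff₀ (by linarith [h.geo.e1])]; nlinarith [h.geo.ok.e0, h.geo.ok.e1])

theorem dg (w : ι → Bool) (x : ι) : ‖alw A w x x‖ ≤ l.κ := by
  have a1 := (alw_le h.geo.l1 h.geo.ok.e0.le h.geo.e1 w x x).trans (h.kwR.entry' pm_zero x x)
  have a2 : ‖alw A w x x - alw (cr a) w x x‖ ≤ l.e := (abs_le_of_sq_le_sq' (((single_le_sum
    (f := fun u => ‖alw A w u x - alw (cr a) w u x‖ ^ 2) (fun _ _ => sq_nonneg _)
    (mem_univ x)).trans (h.dsq w x)).trans (h.geo.ok.ν1.trans h.geo.ok.n1)) h.geo.ok.e0.le).2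
  have := norm_le_insert' (alw A w x x) (alw (cr a) w x x)
  rw [Lv.κ]; linarith [h.geo.ok.e0]

theorem dok : DOK A l.κ := ⟨h.smk.kok, by rw [Lv.κ]; linarith [h.geo.ok.e1], h.dg⟩

theorem conj : Ker ρ l a Aᴴ := ⟨h.geo, h.smk.kok.conj.symm, h.wn.conj h.sy, fun z =>
  (sum_congr rfl fun x _ => by
    rw [← norm_star, conjTranspose_apply, ← transpose_apply A x z, h.sy]; simp).trans_le (h.far z)⟩

theorem off_l2 (w : ι → Bool) (v : ι) : ∑ x with x ≠ v, ‖alw A w x v‖ ^ 2 ≤ 10 * l.n0 := by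
  have a1 := off_sq h.geo.l1 h.geo.ok.e0.le (by linarith [h.geo.ok.e1]) h.geo.l2 v
  have a2 : ∑ x with x ≠ v, ‖alw A w x v‖ ^ 2 ≤ ∑ x, (2 * off (ab a * res (ab a)) x v ^ 2 +
      2 * ‖alw A w x v - alw (cr a) w x v‖ ^ 2) := by
    refine (sum_le_sum fun x hx => ?_).trans (sum_le_univ_sum_of_nonneg fun x => by positivity)
    have b1 := alw_le h.geo.l1 h.geo.ok.e0.le h.geo.e1 w x v
    have b2 := pow_le_pow_left₀ (norm_nonneg _) ((norm_le_insert' (alw A w x v)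
      (alw (cr a) w x v)).trans (add_le_add b1 le_rfl)) 2
    rw [off, if_neg (mem_filter.1 hx).2]
    nlinarith [sq_nonneg ((ab a * res (ab a)) x v - ‖alw A w x v - alw (cr a) w x v‖)]
  rw [sum_add_distrib, ← mul_sum, ← mul_sum] at a2
  linarith [h.dsq w v, h.geo.ok.ν1, h.geo.ν0]

theorem far_l2 (w : ι → Bool) (v : ι) : ∃ f : ι → ℝ, ∑ x, f x ^ 2 ≤ 10 * l.ν ∧
    ∀ x, x ≠ v → ‖alw A w x v‖ ≤ l.κ * Kn l a x v + f x := by
  obtain ⟨T, t1, t2⟩ := res_tail h.geo.l1 pm_zero h.geo.ok.e0.le h.geo.e1 l.j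
  refine ⟨fun x => T x v + ‖alw A w x v - alw (cr a) w x v‖, ?_, fun x hx => ?_⟩
  · have a1 : ∑ x, T x v ≤ 2 * l.ν := (t1.col' pm_zero v).trans (by
      rw [div_le_iff₀ (by linarith [h.geo.e1])]; nlinarith [h.geo.ok.hT, h.geo.ν0, h.geo.ok.e1])
    have a2 := (sum_sq_le_sq_sum_of_nonneg fun x _ => t1.nn x v).trans
      (pow_le_pow_left₀ (sum_nonneg fun x _ => t1.nn x v) a1 2)
    have a3 : l.ν ≤ 1 / 4 := by
      nlinarith [h.geo.ok.ν1, h.geo.ok.n1, h.geo.ok.e0, h.geo.ok.e1]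
    refine (sum_le_sum (g := fun x => 2 * T x v ^ 2 + 2 * ‖alw A w x v - alw (cr a) w x v‖ ^ 2)
      fun x _ => by nlinarith [sq_nonneg (T x v - ‖alw A w x v - alw (cr a) w x v‖)]).trans ?_
    rw [sum_add_distrib, ← mul_sum, ← mul_sum]
    nlinarith [h.dsq w v, h.geo.ν0]
  · have b1 := (alw_le h.geo.l1 h.geo.ok.e0.le h.geo.e1 w x v).trans (t2 x v)
    linarith [norm_le_insert' (alw A w x v) (alw (cr a) w x v), h.geo.A_le hx]

theorem nf (W : ℝ) (w : ι → Bool) (v : ι) : Nf W (l.κ + √(2 * W * l.ν)) fun x => alw A w x v := by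
  refine ⟨fun x => alw (cr a) w x v, fun x => alw A w x v - alw (cr a) w x v,
    funext fun x => by simp, add_le_add (((sum_le_sum fun x _ => alw_le h.geo.l1 h.geo.ok.e0.le
      h.geo.e1 w x v).trans (h.kwR.col' pm_zero v)).trans (by
        rw [Lv.κ]; linarith [h.geo.ok.e0])) ?_⟩
  rw [mul_comm 2 W, mul_assoc, sqrt_mul' _ (by linarith [h.geo.ν0])]
  exact mul_le_mul_of_nonneg_left (sqrt_le_sqrt (h.dsq w v)) (sqrt_nonneg _)

end Ker

theorem t_ker : S_KER := fun _ _ _ _ _ _ _ h =>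
  ⟨h.smk, h.dok, h.dok.den', h.conj, h.off_l2, h.far_l2, h.nf⟩

theorem t_imb : S_IMB := fun ι _ _ ρ l a A A' b W β h h' hb hW => by
  have k := h.smk.kok
  have k' := h'.smk.kok
  set c := l.κ + √(2 * W * l.ν) with hc
  have c0 : 0 ≤ c := add_nonneg (by rw [Lv.κ]; linarith [h.geo.ok.e0]) (sqrt_nonneg _)
  have c1 : c ≤ 103 / 1000 := by
    have : √(2 * W * l.ν) ≤ 1 / 10 := sqrt_le_iff.2 ⟨by norm_num, by linarith⟩
    rw [hc, Lv.κ]; linarith [h.geo.ok.e1]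
  have n1 : ∀ {A : Matrix ι ι ℂ}, Ker ρ l a A → ∀ w y, Nf W c fun x => -(Vs w * alw A w) x y :=
    fun h w y => by
      simpa only [Vs, diagonal_mul, neg_mul] using
        (h.nf W w y).mul (s := fun x => -sgn (w x)) fun x => by simp [norm_sgn]
  have n2 : ∀ {A : Matrix ι ι ℂ}, Ker ρ l a A → ∀ w y, Nf W (1 + c)
      fun x => (1 - Tt A w * A) x y := fun h w y => by
    rw [← h.smk.kok.Tt_V, Q_alw (h.smk.unit w)]
    exact (Nf.one W y).add (n1 h w y)
  have tr : ∀ {A : Matrix ι ι ℂ}, KOK A → ∀ w x u, (1 - A * Tt A w) x u = (1 - Tt A w * A) u x :=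
    fun h w x u => by
      rw [← transpose_apply (1 - Tt _ w * _), transpose_sub, transpose_one, transpose_mul, h.symm,
        h.Tt_T]
  have key : ∀ w w' x y, ‖((1 - A' * Tt A' w') * b * (1 - Tt A w * A)) x y‖ ≤ 5 / 4 * β ∧
      ‖((1 - A' * Tt A' w') * b * (1 - Tt A w * A) - b) x y‖ ≤ 3 * c * β := fun w w' x y => by
    have β0 : 0 ≤ β := (norm_nonneg _).trans (hb.le x y)
    have W0 : 0 ≤ W := (Nat.cast_nonneg _).trans (hb.row x)
    have e1 : (1 - A' * Tt A' w') x = fun u => (1 - Tt A' w' * A') u x := funext (tr k' w' x)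
    constructor
    · rw [bf_mul, e1]
      exact (Nf.bil hb β0 W0 (n2 h' w' x) (n2 h w y)).trans (by nlinarith [mul_nonneg β0 c0])
    · have e2 : (1 - A' * Tt A' w') * b * (1 - Tt A w * A) - b =
          (1 - A' * Tt A' w') * b * -(Vs w * alw A w) + (-(Vs w' * alw A' w'))ᵀ * b * 1 := by
        rw [transpose_neg, transpose_mul, Vs_T, alw_T h'.sy, ← k.Tt_V, Q_alw (k.unit w),
          ← k'.V_Tt, R_alw (k'.unit w')]
        noncomm_ring
      rw [e2, Matrix.add_apply, bf_mul, bf_mul, e1]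
      have a1 := Nf.bil hb β0 W0 (n2 h' w' x) (n1 h w y)
      have a2 := Nf.bil hb β0 W0 (n1 h' w' x) (Nf.one W y)
      refine (norm_add_le _ _).trans ((add_le_add a1 a2).trans ?_)
      nlinarith [mul_nonneg β0 c0]
  refine ⟨fun w w' x y => ?_, fun Y ϖ x y => ?_⟩
  · have := (key w w' x y).1
    rwa [← k.Tt_V, ← k'.V_Tt, ← Matrix.mul_assoc, Matrix.mul_assoc (Vs w'), Matrix.mul_assoc (Vs w'),
      Vs, Vs, mul_diagonal, diagonal_mul, norm_mul, norm_mul, norm_sgn, norm_sgn, one_mul,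
      mul_one] at this
  · have e1 : (1 - A' * Ss A' Y ϖ) * b * (1 - Ss A Y ϖ * A) - b = EY Y ϖ fun w' => EY Y ϖ fun w =>
        (1 - A' * Tt A' w') * b * (1 - Tt A w * A) - b := by
      simp only [EY_sub, EY_const, ← mul_EY, ← EY_mul, Ss]
    rw [e1, EY_apply]
    refine (norm_EY' _).trans (eY_le fun w' _ => ?_)
    rw [EY_apply]
    exact (norm_EY' _).trans (eY_le fun w _ => (key w w' x y).2)

end Pool.Agent.P.MP_d0f69c_mp.XS.Pre
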