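import Pool.Agent.P.MP_d0f69c_mp.XS.RefSb
import Pool.Agent.P.MP_d0f69c_mp.XS.PIf
import Pool.Agent.P.MP_d0f69c_mp.XS.PStat1

/-!
Reference block: the kernel is good at two levels.
-/

set_option autoImplicit false

open Finset Real Matrix Filter

namespace Pool.Agent.P.MP_d0f69c_mp.XS.Rf

open Pre

/-- the imaginary part of the dressed kernel on the diagonal, at open and at closed sites -/
theorem im_al {ι : Type} [Fintype ι] [DecidableEq ι] {ρ : ι → ι → ℕ} {l : Lv} {a : Matrix ι ι ℝ}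
    {A : Matrix ι ι ℂ} {W β : ℝ} (h : Ker ρ l a A) (hs : Spa W β (Aᴴ - A)) (hW : 200 * W * l.ν ≤ 1)
    (Y : Finset ι) (ϖ : ι → Bool) (x : ι) :
    |(Pre.al A Y ϖ x x).im - (A x x).im| ≤ 3 / 2 * (l.κ + √(2 * W * l.ν)) * β := by
  have k := h.smk.kok
  have e : ∀ w, (1 - Aᴴ * Tt Aᴴ w) * (Aᴴ - A) * (1 - Tt A w * A) =
      Aᴴ - Aᴴ * Tt Aᴴ w * Aᴴ - (A - A * Tt A w * A) := fun w => by
    have e1 := Tt_sub k k.conj (b := Aᴴ - A) (by abel) w
    have e2 : (1 - Aᴴ * Tt Aᴴ w) * (Aᴴ - A) * (1 - Tt A w * A) =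
        Aᴴ - Aᴴ * Tt Aᴴ w * Aᴴ - (A - A * Tt A w * A) +
          Aᴴ * (Tt Aᴴ w * (Aᴴ - A) * Tt A w - (Tt A w - Tt Aᴴ w)) * A := by noncomm_ring
    rw [e2, e1, sub_self, Matrix.mul_zero, Matrix.zero_mul, add_zero]
  have e3 : Pre.al Aᴴ Y ϖ - Pre.al A Y ϖ - (Aᴴ - A) = EY Y ϖ fun w =>
      (1 - Aᴴ * Tt Aᴴ w) * (Aᴴ - A) * (1 - Tt A w * A) - (Aᴴ - A) := by
    simp only [e]
    rw [EY_sub, EY_sub, EY_const, ← KOK.al_avg, ← KOK.al_avg]
  have e4 : ‖(Pre.al Aᴴ Y ϖ - Pre.al A Y ϖ - (Aᴴ - A)) x x‖ ≤ 3 * (l.κ + √(2 * W * l.ν)) * β := by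
    rw [e3, EY_apply]
    refine (norm_EY _).trans ((av_mono fun z => ?_).trans (av_const _).le)
    have := (t_imb ι ρ l a A Aᴴ _ W β h h.conj hs hW).2 ∅ (mix Y z ϖ) x x
    rwa [Ss, Ss, EY_empty, EY_empty] at this
  have e5 : (Pre.al Aᴴ Y ϖ - Pre.al A Y ϖ - (Aᴴ - A)) x x =
      star (Pre.al A Y ϖ x x - A x x) - (Pre.al A Y ϖ x x - A x x) := by
    simp only [al_H, Matrix.sub_apply, conjTranspose_apply, star_sub]; ring
  rw [e5, norm_sub_rev, norm_sub_star, Complex.sub_im] at e4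
  linarith

variable {d M : ℕ} [NeZero M]

/-- the imaginary part of the corrected kernel is sparse -/
theorem spa_im {B : Finset (Tor d M)} {b γ t s : ℝ} {g W : Tor d M → ℂ} (h : Cls B γ g) (z : 0 ∈ B)
    (ht : ∀ x, |(g x).im| ≤ t) (hs : ∀ x, ‖W x‖ ≤ s) :
    Spa #B (2 * (t + s)) ((Ac b g + diagonal W)ᴴ - (Ac b g + diagonal W)) := by
  have e : ∀ x y, ((Ac b g + diagonal W)ᴴ - (Ac b g + diagonal W)) x y =
      star (g (x - y)) - g (x - y) + if x = y then star (W x) - W x else 0 := fun x y => by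
    rw [conjTranspose_add, Ac_H h.oct, diagonal_conjTranspose]
    by_cases c : x = y <;> simp [Ac, circulant_apply, c]
    ring
  have f : ∀ x y, ((Ac b g + diagonal W)ᴴ - (Ac b g + diagonal W)) x y ≠ 0 → x - y ∈ B :=
    fun x y c => by_contra fun n => c (by
      rw [e, h.supp _ n, if_neg fun q => n (by rw [q, sub_self]; exact z)]; simp)
  refine ⟨fun x y => ?_, fun x => Nat.cast_le.2 (card_le_card_of_injOn (fun y => x - y)
      (fun y hy => f _ _ (mem_filter.1 hy).2) fun _ _ _ _ => sub_right_injective.eq_iff.1),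
    fun y => Nat.cast_le.2 (card_le_card_of_injOn (fun x => x - y)
      (fun x hx => f _ _ (mem_filter.1 hx).2) fun _ _ _ _ => sub_left_injective.eq_iff.1)⟩
  have a := (Complex.abs_im_le_norm _).trans (hs x)
  rw [e]
  refine (norm_add_le _ _).trans ?_
  rw [norm_sub_rev, norm_sub_star]
  split_ifs
  · rw [norm_sub_rev, norm_sub_star]; linarith [ht (x - y)]
  · rw [norm_zero]; linarith [ht (x - y), abs_nonneg (W x).im]

/-- the range of the near kernel of the level `j` -/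
def kk (j : ℕ) : ℕ := (j + 4) * ((j + 4) * (j + 1))

omit [NeZero M] in
theorem lvB {C C' : ℝ} (h0 : 0 ≤ C) (h : C ≤ C') (j : ℕ) :
    ∀ᶠ d : ℕ in atTop, LvB d C' j (kk j) (lv C d (j + 1)) := by
  filter_upwards [ev_ge (9 * C ^ (j + 4)), ev_ge 1] with d h1 h2
  refine ⟨div_le_div_of_nonneg_right h (by positivity), div_le_div_of_nonneg_right h (by positivity),
    ?_, le_rfl, rfl, rfl⟩
  change 9 * (C / d) ^ (j + 4) ≤ _
  rw [div_pow, ← mul_div_assoc, div_le_div_iff₀ (by positivity) (by positivity), one_mul,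
    pow_add (d : ℝ), mul_comm]
  exact mul_le_mul_of_nonneg_left (h1.trans (le_self_pow₀ h2 (by omega))) (by positivity)

/-- the kernel of the reference -/
theorem partC {β : ℝ} (hβ : 0 < β) (j j' m : ℕ) : ∃ C : ℝ, 1 ≤ C ∧ ∀ᶠ d : ℕ in atTop,
    ∀ (M : ℕ) [NeZero M] (b : ℝ), 3 ≤ M → β * d ≤ b → b ≤ d →
      ∀ (B : Finset (Tor d M)) (γ η : ℝ) (g : Tor d M → ℂ), Cls B γ g → 0 ∈ B →
        (∀ x ∈ B, n1 x ≤ d ^ 4) → (#B : ℝ) ≤ (3 * d) ^ m → 0 < η → η ≤ γ →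
        γ ≤ 1 / d ^ (j + j' + 2 * m + 10) → (∀ x, |(g x).im| ≤ 21 / 10 * η) →
        |(ak b g 0).im - η| ≤ η / 10 ^ 13 →
        ∃ (l l' : Lv) (a a' : Matrix (Tor d M) (Tor d M) ℝ), LvB d C j (kk j) l ∧
          LvB d C j' (kk j') l' ∧ (∀ x y z, a' (x + z) (y + z) = a' x y) ∧
          ∀ ε : Tor d M → ℂ, (∀ x, ‖ε x‖ ≤ η / d) →
            Good η ((d : ℝ) ^ 4) (Ac b g + diagonal ε) ∧
            Ker (fun x y => n1 (x - y)) l a (Ac b g + diagonal ε) ∧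
            Ker (fun x y => n1 (x - y)) l' a' (Ac b g + diagonal ε) := by
  obtain ⟨C1, c1, k1⟩ := ker_of hβ (j := j + 1) (by omega)
  obtain ⟨C2, c2, k2⟩ := ker_of hβ (j := j' + 1) (by omega)
  obtain ⟨C3, c3, k3⟩ := ker_of hβ (j := m + 1) (by omega)
  refine ⟨C1 + C2, by linarith, ?_⟩
  filter_upwards [k1, k2, k3, lvB (C' := C1 + C2) (by linarith) (by linarith : C1 ≤ _) j,
    lvB (C' := C1 + C2) (by linarith) (by linarith : C2 ≤ _) j', ev_ge (10 ^ 16 * C3),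
    ev_ge (10 ^ 32 * (3 ^ m * C3 ^ (m + 4))), ev_ge (3 ^ (m + 1))]
    with d k1 k2 k3 l1 l2 d1 d2 d3 M _ b hM b1 b2 B γ η g hg z hB cB η0 ηγ hγ gi ai
  have d0 : (1 : ℝ) ≤ d := by linarith
  have dp : (0 : ℝ) < d := by linarith
  have s1 : ∀ i, i ≤ j + j' + m + 4 → 3 * #B * γ ≤ 1 / (d : ℝ) ^ i ∧ η / d ≤ 1 / (d : ℝ) ^ i :=
    fun i hi => by
      have a1 : 1 / (d : ℝ) ^ (j + j' + 2 * m + 10) ≤ 1 / d ^ i :=
        one_div_le_one_div_of_le (by positivity) (pow_le_pow_right₀ d0 (by omega))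
      refine ⟨?_, (div_le_self η0.le d0).trans (ηγ.trans (hγ.trans a1))⟩
      calc _ ≤ 3 * (3 * d) ^ m * (1 / (d : ℝ) ^ (j + j' + 2 * m + 10)) :=
            mul_le_mul (by linarith) hγ (by linarith) (by positivity)
        _ = 3 ^ (m + 1) * d ^ m / (d : ℝ) ^ (j + j' + 2 * m + 10) := by ring
        _ ≤ d * d ^ m / (d : ℝ) ^ (m + 1 + i) :=
            div_le_div₀ (by positivity) (by gcongr) (by positivity) (pow_le_pow_right₀ d0 (by omega))
        _ = _ := by rw [pow_add, pow_succ']; field_simp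
  have K := fun ε (h : ∀ x, ‖ε x‖ ≤ η / d) => (k3 M b hM b1 b2).2 B γ _ g ε hg hB
    (s1 _ (by omega)).1 h (s1 _ (by omega)).2
  have v1 : #B * (lv C3 d (m + 1)).ν ≤ 1 / 10 ^ 31 := by
    change #B * (9 * (C3 / d) ^ (m + 4)) ≤ _
    calc _ ≤ (3 * d) ^ m * (9 * (C3 / d) ^ (m + 4)) := by gcongr
      _ = 9 * (3 ^ m * C3 ^ (m + 4)) / d ^ 4 := by
          rw [div_pow, pow_add (d : ℝ), mul_pow]; field_simp
      _ ≤ 9 * (d / 10 ^ 32) / d ^ 1 := by
          gcongr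
          · rw [le_div_iff₀ (by norm_num)]; linarith
          · norm_num
      _ ≤ _ := by field_simp; norm_num
  have v2 : (lv C3 d (m + 1)).κ + √(2 * #B * (lv C3 d (m + 1)).ν) ≤ 1 / 10 ^ 15 := by
    have a1 : √(2 * #B * (lv C3 d (m + 1)).ν) ≤ 1 / (2 * 10 ^ 15) :=
      sqrt_le_iff.2 ⟨by norm_num, by linarith⟩
    have a2 : C3 / d ≤ 1 / 10 ^ 16 := by rw [div_le_iff₀ dp]; linarith
    change 3 * (C3 / d) + _ ≤ _
    linarith
  have s2 : η / d ≤ η / 10 ^ 16 := div_le_div_of_nonneg_left η0.le (by norm_num) (by linarith)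
  have I : ∀ ε : Tor d M → ℂ, (∀ x, ‖ε x‖ ≤ η / d) → ∀ Y w x,
      |(Pre.al (Ac b g + diagonal ε) Y w x x).im - ((g 0).im + (ε x).im)| ≤ η / 10 ^ 14 :=
    fun ε h Y w x => by
      have := im_al (K ε h) (spa_im hg z gi h) (by linarith) Y w x
      rw [show (Ac b g + diagonal ε) x x = A0 d M b 0 + g 0 + ε x by simp [Ac, circulant_apply],
        Complex.add_im, Complex.add_im, A0_im, zero_add] at this
      refine this.trans ((mul_le_mul (mul_le_mul_of_nonneg_left v2 (by norm_num))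
        (show _ ≤ 61 / 10 * η by linarith) (by positivity) (by norm_num)).trans (by linarith))
  have g0 := abs_le.1 (I 0 (fun _ => by rw [Pi.zero_apply, norm_zero]; positivity) univ
    (fun _ => true) 0)
  rw [diagonal_zero', add_zero, Pi.zero_apply, Complex.zero_im, add_zero] at g0
  have a0 := abs_le.1 ai
  have T := fun ε h => (t_imb _ _ _ _ _ _ _ _ _ (K ε h) (K ε h).conj (spa_im (b := b) hg z gi h)
    (by linarith)).1
  refine ⟨_, _, aR d M b (j + 1), aR d M b (j' + 1), l1, l2, fun x y z => by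
    simp only [aR, add_sub_add_right_eq_sub], fun ε h => ⟨⟨(K ε h).smk, fun w w' x y =>
      (T ε h w w' x y).trans (by linarith), fun Y w x => ?_, fun w w' x y =>
      (T ε h w w' x y).trans (by linarith)⟩,
    (k1 M b hM b1 b2).2 B γ _ g ε hg hB (s1 _ (by omega)).1 h (s1 _ (by omega)).2,
    (k2 M b hM b1 b2).2 B γ _ g ε hg hB (s1 _ (by omega)).1 h (s1 _ (by omega)).2⟩⟩
  have a1 := abs_le.1 (I ε h Y w x)
  have a2 := abs_le.1 ((Complex.abs_im_le_norm _).trans (h x))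
  rw [aP, div_sub_one η0.ne', abs_div, abs_of_pos η0, div_le_iff₀ η0, abs_le]
  rw [ak] at a0
  constructor <;> linarith

end Pool.Agent.P.MP_d0f69c_mp.XS.Rf
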