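import Pool.Agent.P.MP_d0f69c_mp.XS.Ref9
import Pool.Agent.P.MP_d0f69c_mp.XS.RefT
import Pool.Agent.P.MP_d0f69c_mp.XS.RefV

/-!
The reference block is complete.
-/

set_option autoImplicit false

open Finset Real Matrix Filter

namespace Pool.Agent.P.MP_d0f69c_mp.XS.Rf

open Pre

theorem t_pref : S_PREF := by
  refine fun j => ⟨kk j, fun j' => ⟨kk j', fun k e => ?_⟩⟩
  have t0 := th0
  obtain ⟨C, C1, hA⟩ := partA k
  obtain ⟨C', C1', hC⟩ := partC (β := 19 / 10 * th) (by linarith) j j' k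
  refine ⟨10 ^ 7 * C + C', eventually_atTop.1 ?_⟩
  filter_upwards [hA, hC, dim_ev k, Nt_ev 800 (1 + (j + j' + 2 * k + 10)), Nt_ev (10 ^ 34) (10 + e),
    ev_pow (10 + 2 * e + 4 * k) (10 ^ 30 * 3 ^ (4 * k)) (c := 4 / 5 * th ^ 2) (by positivity),
    ev_pow (e + 2) 40000 one_pos, ev_ge (10 ^ 14 * C + C'), eventually_ge_atTop (k + 1)]
    with d hA hC hd h1 h2 h3 h4 h5 h6
  have d0 := hd.d0
  have d1 : (1 : ℝ) ≤ d := by linarith
  obtain ⟨M0, hM⟩ := win_ev hd
  refine ⟨d ^ 10, M0 + ⌈10 ^ 4 * (d : ℝ) ^ (4 * e) * exp (4 * d)⌉₊, le_rfl, fun M _ M1 => ?_⟩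
  obtain ⟨b, w⟩ := hM M (by omega)
  obtain ⟨ε, κ, ω, L, η, g, ε0, ε1, -, ω1, rfl, η0, -, hg⟩ := hA M b w
  have ε2 : 0 < ε := lt_of_lt_of_le (by positivity) ε0
  have h0 := hg 0 (by rw [abs_zero, mul_zero]; positivity)
  have ε3 : ε ≤ 1 / 10 ^ 14 := ε1.trans (by rw [div_le_iff₀ (by linarith)]; linarith)
  have lo : exp (-(d : ℝ)) ≤ η := le_trans (exp_le_exp.2 (by rw [th]; linarith)) h0.num.η0
  have up : 10 ^ 30 * d ^ (10 + e) * η ≤ 1 := by
    linarith [h2 M b w, mul_le_mul_of_nonneg_left h0.fx.η1 (show 0 ≤ (d : ℝ) ^ (10 + e) by positivity)]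
  obtain ⟨l, l', a, a', b1, b2, b3, b4⟩ := hC M b h0.n.M3 w.b1 h0.n.b2 _ _ η g h0.fx.cls h0.st.zB
    (fun x hx => (mem_B1.1 hx).trans (le_trans (by omega) (Nat.le_self_pow (by norm_num) d)))
    hd.B η0 h0.ηγ (by
      rw [le_div_iff₀ (by positivity)]
      exact le_of_eq_of_le (by ring) (h1 M b w)) h0.fx.gi2 (h0.fx.ai.trans (by nlinarith))
  have mono : ∀ {j k l}, LvB d C' j k l → LvB d (10 ^ 7 * C + C') j k l := fun h =>
    ⟨h.e.trans (by gcongr; linarith), h.n0.trans (by gcongr; linarith), h.ν, h.ks, h.La, h.L⟩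
  have sm : ∀ {u : ℝ}, |u| ≤ exp (-2 * d) → 40000 * d * |u| ≤ η / d ^ (e + 1) := fun hu => by
    rw [le_div_iff₀ (by positivity)]
    refine le_trans ?_ lo
    calc _ ≤ 40000 * d * exp (-2 * d) * d ^ (e + 1) := by gcongr
      _ = 40000 * d ^ (e + 2) * exp (-2 * d) := by ring
      _ ≤ exp (1 * d) * exp (-2 * d) := by gcongr
      _ = _ := by rw [← exp_add]; ring_nf
  refine ⟨Ec b g, η, Ac b g, l, l', a, a', h0.Ec_le, lo, ?_, mono b1, mono b2, b3, b4, fun Eg hE => ?_⟩
  · rw [le_div_iff₀ (by positivity)]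
    refine le_trans ?_ up
    rw [mul_comm]
    gcongr
    exact (pow_le_pow_right₀ d1 (by omega)).trans (le_mul_of_one_le_left (by positivity) (by norm_num))
  rw [abs_sub_comm] at hE
  have s := sm hE
  obtain ⟨p, gt, l0, l1, c⟩ := (hg _ (s.trans (by
      rw [div_eq_mul_one_div, mul_comm]
      exact mul_le_mul_of_nonneg_right (le_trans (one_div_le_one_div_of_le (by linarith)
        (le_self_pow₀ d1 (by omega))) ε0) η0.le))).refB (C := 10 ^ 7 * C + C') (e := e)
    (fun x => mem_B1.2) (by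
      rw [Real.exp_neg, mul_inv_le_iff₀ (exp_pos _), one_mul]
      refine le_trans ?_ h3
      calc _ ≤ 10 ^ 30 * (d : ℝ) ^ (10 + 2 * e) * ((3 * d) ^ k) ^ 4 := by gcongr; exact hd.B
        _ = _ := by ring) up (by
      have := (Nat.ceil_le.1 (le_of_add_le_right M1))
      refine le_trans ?_ (mul_le_mul this (pow_le_pow_left₀ (exp_pos _).le lo 4) (by positivity)
        (Nat.cast_nonneg _))
      rw [mul_assoc, ← exp_nat_mul, ← exp_add]
      simp) (s.trans (div_le_div_of_nonneg_left η0.le (by positivity)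
      (pow_le_pow_right₀ d1 (by omega)))) (by
      refine (mul_le_mul_of_nonneg_left ε1 (by norm_num)).trans ?_
      rw [← mul_div_assoc]
      exact div_le_div_of_nonneg_right (by linarith) (by linarith)) (by
      have a1 : 70 / b ≤ 10 ^ 6 / d := by
        rw [div_le_div_iff₀ (by linarith [h0.b9]) (by linarith)]
        have := w.b1
        rw [th] at this
        linarith
      have a2 : ω * d ≤ C / d := by
        rw [le_div_iff₀ (by linarith)]
        rw [le_div_iff₀ (by positivity)] at ω1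
        linarith
      have a3 : 10 ^ 6 / (d : ℝ) ≤ 10 ^ 6 * (C / d) := by
        rw [← mul_div_assoc]
        exact div_le_div_of_nonneg_right (by linarith) (by linarith)
      rw [add_div, mul_div_assoc]
      linarith [show 0 ≤ C' / d by positivity, show 0 ≤ C / d by positivity]) (by linarith)
    (by linarith [one_le_pow₀ (n := 7) d1]) (by
      rw [pow_succ (d : ℝ) 7, mul_comm]
      exact mul_le_mul_of_nonneg_left (by linarith) (by positivity))
  exact ⟨p, gt, l0, l1, c⟩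

end Pool.Agent.P.MP_d0f69c_mp.XS.Rf
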