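import Pool.Agent.P.MP_d0f69c_mp.XS.PAll0
import Pool.Agent.P.MP_d0f69c_mp.XS.PSch4
import Pool.Agent.P.MP_d0f69c_mp.XS.PCv5
import Pool.Agent.P.MP_d0f69c_mp.XS.RefZ

/-!
The case of unit coupling in a large dimension.
-/

set_option autoImplicit false

namespace Pool.Agent.P.MP_d0f69c_mp.XS

theorem all_B : ∃ d : ℕ, 2 ≤ d ∧ ¬ Sing d 1 :=
  t_B all_main (Pre.t_pre Rf.t_pref (Pre.a_prun Pre.t_pconv))

end Pool.Agent.P.MP_d0f69c_mp.XS
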