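import Pool.Agent.P.MP_d0f69c_mp.XS.PPrt2
import Pool.Agent.P.MP_d0f69c_mp.XS.Far

/-!
Decay after a matrix change of the potential, with the scales of a round.
-/

set_option autoImplicit false

open Finset Real

namespace Pool.Agent.P.MP_d0f69c_mp.XS.Pre

variable {d M : ℕ} [NeZero M] {E : Env d M} {q : Par}

theorem ct_mat (hE : E.OK) (hq : q.OK E) {i : ℕ} (hi : i < 3) {O X : Finset (Tor d M)}
    {G G' Δ : Matrix (Tor d M) (Tor d M) ℂ} (hX : X ⊆ O) (sy : ∀ x y, G x y = G y x)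
    (id : ∀ x ∈ O, ∀ y, G' x y = G x y - ap X G (ap X Δ fun w => G' w y) x)
    (hG : OpLe O G (10 / E.η)) (hD : Dec G O (q.Bi i) (q.li E.η i)) (hΔ : OpLe X Δ 3)
    (hΔ' : ∀ y ∈ X, ∀ w, ‖Δ y w‖ ≤ 3 * exp (-(2 * nm (y - w) : ℝ) / q.li E.η i))
    (hl : ∀ (p : Tor d M) (u : Tor d M → ℂ), (∀ x ∉ X ∩ bl p (q.D E.η (i + 1)), u x = 0) →
      nS X u ≤ 3 * (q.P : ℝ) ^ 40 / E.η * nS X (u + ap X G (ap X Δ u))) :
    Dec G' O (q.Bi (i + 1)) (q.li E.η (i + 1)) := fun x hx z => by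
  have hP := hq.Ppos hE
  have P9 := hq.P9 hE
  have η0 := hE.η0
  have η1 : E.η ≤ 1 := hE.η1.trans (by norm_num)
  have τ0 := Par.OK.τpos q
  have hfar := ((t_far d M E q hE hq).2 i hi.le).1
  have hV := hq.sum_exp hE t_far hi.le
  set l := q.li E.η i
  set ρ := q.li E.η (i + 1) with hρd
  set R := q.D E.η i
  set V := exp (2 * (q.P : ℝ) ^ 2) with hVd
  have l0 : 0 < l := hq.li_one hE i
  have l1 : (0 : ℝ) < l := by exact_mod_cast l0
  have lρ : 2 * l ≤ ρ := by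
    rw [hρd, Par.OK.li_succ]
    exact Nat.mul_le_mul_right _ (le_trans (by norm_num) (hq.Lg_ge' hE))
  set s := q.P ^ 59 * ⌈1 / E.η⌉₊ ^ 2 * l with hsd
  have Ps : q.P * s = ρ := by rw [hρd, Par.OK.li_succ, Par.Lg, hsd]; ring
  have P1 : 1 ≤ q.P := by have := hq.P9' hE; omega
  have Rs : R ≤ s := Nat.mul_le_mul_right _ ((Nat.pow_le_pow_right P1 (by norm_num)).trans
    (Nat.le_mul_of_pos_right _ (pow_pos (Par.OK.g_one hE) _)))
  have sρ : s ≤ ρ := Ps ▸ Nat.le_mul_of_pos_left _ P1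
  have ds : d * s ≤ ρ := Ps ▸ Nat.mul_le_mul_right _ (by
    have := hq.Pd' hE
    have := Nat.le_self_pow two_ne_zero d
    omega)
  have B0 : 0 ≤ q.Bi i := zero_le_one.trans (hq.Bi_one i)
  have e : ∀ u, ap X (Matrix.of fun x w => ∑ y ∈ X, G x y * Δ y w) u = ap X G (ap X Δ u) :=
    fun u => funext fun x => by
      simp only [ap, Matrix.of_apply, sum_mul, mul_sum, mul_assoc]
      exact sum_comm
  have τ1 : q.τ ≤ E.η / (q.P : ℝ) ^ 51 := hq.τ_le hE (by norm_num)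
  have i1 : 1 ≤ 1 / E.η := one_le_one_div η0 η1
  have τ2 : q.τ ≤ 1 / E.η :=
    τ1.trans ((div_le_self η0.le (one_le_pow₀ (hq.Pone hE))).trans (η1.trans i1))
  have k30 : (30 : ℝ) / E.η = 30 * (1 / E.η) := by ring
  have g5 : 1 + 91 * ((q.P : ℝ) ^ 41 * (1 / E.η) ^ 2 * V) ≤ exp (20 * (q.P : ℝ) ^ 3) := by
    have a0 := Par.OK.P_le_exp q
    have a1 := pow_le_pow_left₀ hP.le a0 41
    have a2 := pow_le_pow_left₀ (by positivity) (hq.inv_η hE) 2
    have a3 : 1 ≤ (q.P : ℝ) ^ 41 * (1 / E.η) ^ 2 * V :=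
      one_le_mul_of_one_le_of_one_le (one_le_mul_of_one_le_of_one_le (one_le_pow₀ (hq.Pone hE))
        (one_le_pow₀ i1)) (one_le_exp (by positivity))
    have a4 := mul_le_mul (by linarith : 92 ≤ exp (q.P : ℝ)) (mul_le_mul_of_nonneg_right
      (mul_le_mul a1 a2 (by positivity) (by positivity)) (exp_pos (2 * (q.P : ℝ) ^ 2)).le)
      (by positivity) (by positivity)
    refine (by linarith : _ ≤ 92 * ((q.P : ℝ) ^ 41 * (1 / E.η) ^ 2 * V)).trans (a4.trans ?_)
    rw [← exp_nat_mul, ← exp_nat_mul, ← exp_add, ← exp_add, ← exp_add, exp_le_exp]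
    have b1 := hq.pow_lt hE (a := 1) (b := 3) (c := 44) (by norm_num) (by norm_num)
    have b2 := hq.pow_lt hE (a := 2) (b := 3) (c := 2) (by norm_num) (by norm_num)
    push_cast
    linarith [pow_pos hP 3]
  have g6 : 1 ≤ (q.P : ℝ) ^ 41 * (1 / E.η) ^ 2 :=
    one_le_mul_of_one_le_of_one_le (one_le_pow₀ (hq.Pone hE)) (one_le_pow₀ i1)
  have g7 : q.Bi i * (3 * V) ≤ exp ((q.P : ℝ) ^ 6) := by
    refine le_trans ?_ (hq.Bi_le (i := i + 1) hi)
    rw [Par.OK.Bi_succ]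
    exact mul_le_mul_of_nonneg_left (by nlinarith [exp_pos (2 * (q.P : ℝ) ^ 2)]) B0
  refine (ct_ker (k := Matrix.of fun x w => ∑ y ∈ X, G x y * Δ y w) (v := fun w => G' w z)
    (g := fun w => G w z) (κ := 30 / E.η) (Bk := exp ((q.P : ℝ) ^ 6))
    (Λ := 3 * (q.P : ℝ) ^ 40 / E.η) (Γ := (q.P : ℝ) ^ 41 / E.η) z l0 lρ (hq.D_one hE i) Rs sρ ds hX
    (by positivity) (by positivity) (exp_pos _).le B0
    (fun y hy => by rw [e, id y hy z, sub_add_cancel]) (fun u => ?_) (fun y hy => ?_)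
    (fun y hy w => ?_) hfar (fun y hy => hD y hy z)
    ((sum_le_sum_of_subset_of_nonneg (subset_univ X) fun _ _ _ => (exp_pos _).le).trans (hV z))
    (fun p u h => ?_) (by positivity) ?_ ?_ hx).trans ?_
  · rw [e]
    exact (hG.sub hX _).trans ((mul_le_mul_of_nonneg_left (hΔ u) (by positivity)).trans_eq
      (by ring))
  · refine le_trans (le_of_eq (nS_congr fun w _ => ?_)) ((opLe_tr hΔ (by norm_num) (G y)).trans
      ((mul_le_mul_of_nonneg_left ((nS_mono hX _).trans ((nS_congr fun w _ => sy y w).trans_le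
        (hG.col hy))) (by norm_num)).trans_eq (by ring)))
    exact sum_congr rfl fun u _ => mul_comm _ _
  · refine (norm_sum_le _ _).trans (le_trans ?_ (mul_le_mul_of_nonneg_right
      (le_trans (mul_le_mul_of_nonneg_left (mul_le_mul_of_nonneg_left
        ((sum_le_sum_of_subset_of_nonneg (subset_univ X) fun _ _ _ => (exp_pos _).le).trans (hV w))
        (by norm_num)) B0) g7) (exp_pos _).le))
    rw [mul_sum, mul_sum, sum_mul]
    refine sum_le_sum fun u hu => ?_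
    rw [norm_mul]
    refine (mul_le_mul (hD y hy u) (hΔ' u hu w) (norm_nonneg _) (by positivity)).trans ?_
    rw [mul_mul_mul_comm, ← exp_add, mul_assoc, mul_assoc, mul_assoc, ← exp_add]
    refine mul_le_mul_of_nonneg_left (mul_le_mul_of_nonneg_left (exp_le_exp.2 ?_) (by norm_num)) B0
    have t : (nm (y - w) : ℝ) ≤ nm (y - u) + nm (u - w) := by exact_mod_cast nm_tri y u w
    rw [← add_div, div_add_div _ _ (by positivity) l1.ne', div_le_div_iff₀ l1 (by positivity)]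
    nlinarith [mul_le_mul_of_nonneg_right t (mul_pos l1 l1).le,
      mul_nonneg (Nat.cast_nonneg (α := ℝ) (nm (u - w))) (mul_pos l1 l1).le]
  · rw [e]
    refine hl p u fun a ha => h a fun h' => ha (inter_subset_inter subset_rfl (ball_mono p ?_) h')
    have b2 : 2 * ρ ≤ q.D E.η (i + 1) := Nat.mul_le_mul_right _
      (le_trans (by have := hq.P9' hE; omega) (Nat.le_self_pow (by norm_num) _))
    omega
  · have a1 : exp 2 ≤ 3000 := (exp_le_exp.2 (by norm_num)).trans exp_eight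
    have a3 : 54 * exp 8 * exp 2 ≤ (q.P : ℝ) ^ 2 := by
      have := mul_le_mul exp_eight a1 (by positivity) (by norm_num)
      nlinarith
    have a4 := mul_le_mul_of_nonneg_left a3 (by positivity : 0 ≤ (q.P : ℝ) ^ 80 / E.η ^ 2)
    refine le_trans (le_of_eq (by ring)) (a4.trans_eq (by ring))
  · have a1 := mul_le_mul (hq.D_div hE i) (by linarith : 30 / E.η + q.τ ≤ 31 * (1 / E.η))
      (by positivity) (by positivity)
    have a2 : E.η ^ 2 / (q.P : ℝ) ^ 51 * (31 * (1 / E.η)) = 31 * (E.η / (q.P : ℝ) ^ 51) := by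
      field_simp
    have a3 : 3 * ((R : ℝ) / s) * (30 / E.η + q.τ) + q.τ ≤ 94 * (E.η / (q.P : ℝ) ^ 51) := by
      linarith
    have a4 := pow_le_pow_left₀ (by positivity) a3 2
    have a5 := pow_le_pow_left₀ τ0.le τ1 2
    refine (mul_le_mul_of_nonneg_left (add_le_add a4 a5) (sq_nonneg _)).trans ?_
    have a6 := hq.pow_lt hE (a := 82) (b := 102) (c := 8837) (by norm_num) (by norm_num)
    have a7 : ((q.P : ℝ) ^ 41 / E.η) ^ 2 * ((94 * (E.η / (q.P : ℝ) ^ 51)) ^ 2 +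
        (E.η / (q.P : ℝ) ^ 51) ^ 2) = 8837 * (q.P : ℝ) ^ 82 / (q.P : ℝ) ^ 102 := by
      field_simp; norm_num
    rw [a7, div_le_one (by positivity)]
    exact a6
  · rw [Par.OK.Bi_succ]
    refine mul_le_mul_of_nonneg_right (mul_le_mul_of_nonneg_left (le_trans ?_ g5) B0) (exp_pos _).le
    have := mul_le_mul_of_nonneg_right (by linarith : 3 * (30 / E.η) + q.τ ≤ 91 * (1 / E.η))
      (by positivity : 0 ≤ (q.P : ℝ) ^ 41 / E.η * V)
    refine add_le_add le_rfl (le_trans (le_of_eq (by ring)) (this.trans_eq (by ring)))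

end Pool.Agent.P.MP_d0f69c_mp.XS.Pre
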