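import Pool.Agent.P.MP_d0f69c_mp.XS.G3
import Pool.Agent.P.MP_d0f69c_mp.XS.G4
import Pool.Agent.P.MP_d0f69c_mp.XS.G5
import Pool.Agent.P.MP_d0f69c_mp.XS.G6
import Pool.Agent.P.MP_d0f69c_mp.XS.Loci
import Pool.Agent.P.MP_d0f69c_mp.XS.Op

/-!
Abstract gluing of local bounds: forms and operator norms, near and far pairs.
-/

set_option autoImplicit false

open Finset Real

namespace Pool.Agent.P.MP_d0f69c_mp.XS.Pre

variable {d M : ℕ} [NeZero M]

/-- the scales of a gluing step -/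
structure Scl (E : Env d M) (P : ℝ) (l D : ℕ) : Prop where
  hE : E.OK
  P1 : 10 ^ 9 * (d : ℝ) ^ 2 * E.CS ^ 2 ≤ P
  l1 : 1 ≤ l
  D1 : 1 ≤ D
  l0 : E.l0 ≤ D
  vol : (vl d M D : ℝ) ≤ exp (P ^ 2)
  far : Far d M (exp (P ^ 6)) l D (exp (-P ^ 7))
  tot : ∑ z : Tor d M, exp (-(nm z : ℝ) / (2 * l)) * (1 + nm z) ^ 2 ≤ exp (2 * P ^ 2)

/-- the envelope -/
noncomputable def ew (P : ℝ) (l : ℕ) (z : Tor d M) : ℝ := exp (P ^ 6) * exp (-(nm z : ℝ) / (2 * l))

omit [NeZero M] in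
theorem ew_pos (P : ℝ) (l : ℕ) (z : Tor d M) : 0 < ew P l z := mul_pos (exp_pos _) (exp_pos _)

omit [NeZero M] in
theorem ew_le (P : ℝ) (l : ℕ) (z : Tor d M) : ew P l z ≤ exp (P ^ 6) :=
  mul_le_of_le_one_right (exp_pos _).le (exp_le_one_iff.2
    (div_nonpos_of_nonpos_of_nonneg (neg_nonpos.2 (Nat.cast_nonneg _)) (by positivity)))

namespace Scl

variable {E : Env d M} {P : ℝ} {l D : ℕ}

theorem CS (h : Scl E P l D) : 10 ^ 9 * E.CS ^ 2 ≤ P := by
  have : (1 : ℝ) ≤ (d : ℝ) ^ 2 := one_le_pow₀ (by exact_mod_cast h.hE.d1)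
  nlinarith [h.P1, sq_nonneg E.CS]

theorem P9 (h : Scl E P l D) : 10 ^ 9 ≤ P := by nlinarith [h.CS, h.hE.ref.c1]

theorem P0 (h : Scl E P l D) : 0 < P := lt_of_lt_of_le (by norm_num) h.P9

theorem pow_le (h : Scl E P l D) {a b : ℕ} (hab : a ≤ b) : P ^ a ≤ P ^ b :=
  pow_le_pow_right₀ (le_trans (by norm_num) h.P9) hab

theorem pow_lt (h : Scl E P l D) {a b : ℕ} (hab : a < b) {c : ℝ} (hc : c ≤ 10 ^ 9) :
    c * P ^ a ≤ P ^ b :=
  le_trans (by rw [pow_succ']; exact mul_le_mul_of_nonneg_right (hc.trans h.P9) (pow_pos h.P0 _).le)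
    (h.pow_le (Nat.succ_le_of_lt hab))

/-- the far part of the envelope -/
noncomputable def fw (P : ℝ) (l D : ℕ) (z : Tor d M) : ℝ := if D < nm z then ew P l z else 0

omit [NeZero M] in
theorem fw0 (z : Tor d M) : 0 ≤ fw P l D z := by
  unfold fw; split_ifs; exacts [(ew_pos _ _ _).le, le_rfl]

theorem fw_sum (h : Scl E P l D) : ∑ z : Tor d M, fw P l D z * (1 + nm z) ^ 2 ≤ exp (-P ^ 7) := by
  refine le_trans (le_of_eq ?_) h.far
  rw [sum_filter]
  refine sum_congr rfl fun z _ => ?_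
  unfold fw ew
  split_ifs <;> simp

theorem ew_sum (h : Scl E P l D) :
    ∑ z : Tor d M, ew P l z * (1 + nm z) ^ 2 ≤ exp (P ^ 6) * exp (P ^ 6) := by
  refine le_trans (le_of_eq ?_) (mul_le_mul_of_nonneg_left (h.tot.trans (exp_le_exp.2
    (h.pow_lt (by norm_num) (by norm_num)))) (exp_pos _).le)
  rw [mul_sum]
  exact sum_congr rfl fun z _ => mul_assoc _ _ _

omit [NeZero M] in
theorem s1 (z : Tor d M) : (1 : ℝ) ≤ (1 + nm z) ^ 2 :=
  one_le_pow₀ (le_add_of_nonneg_right (Nat.cast_nonneg _))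

theorem fw_sum' (h : Scl E P l D) : ∑ z : Tor d M, fw P l D z ≤ exp (-P ^ 7) :=
  (sum_le_sum fun z _ => le_mul_of_one_le_right (fw0 z) (s1 z)).trans h.fw_sum

theorem ew_sum' (h : Scl E P l D) : ∑ z : Tor d M, ew P l z ≤ exp (P ^ 6) * exp (P ^ 6) :=
  (sum_le_sum fun z _ => le_mul_of_one_le_right (ew_pos _ _ z).le (s1 z)).trans h.ew_sum

theorem tiny (h : Scl E P l D) {c : ℝ} (hc : c ≤ P ^ 4) :
    exp (-P ^ 7) * (exp (3 * P ^ 6) * (exp (P ^ 6) * exp (P ^ 6)) * c) ≤ 1 := by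
  have a : c ≤ exp (P ^ 6) := by linarith [add_one_le_exp (P ^ 6), h.pow_le (show 4 ≤ 6 by norm_num)]
  calc _ ≤ exp (-P ^ 7) * (exp (3 * P ^ 6) * (exp (P ^ 6) * exp (P ^ 6)) * exp (P ^ 6)) := by gcongr
    _ ≤ _ := by
      simp only [← exp_add]
      exact exp_le_one_iff.2 (by linarith [h.pow_lt (show 6 < 7 by norm_num) (c := 6) (by norm_num)])

theorem shift (h : Scl E P l D) (F : Tor d M → ℝ) (z : Tor d M) :
    ∑ v, (F (v + z) - F v) ^ 2 ≤ (1 + nm z) ^ 2 * (E.CS * NF E.p F) := by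
  have hN := NF_nonneg h.hE.ref.p0 F
  have c1 := h.hE.ref.c1
  refine (h.hE.ref.shift z F).trans ?_
  have l1 : (1 : ℝ) ≤ E.l0 := by exact_mod_cast h.hE.ref.l1
  have a : (nm z : ℝ) ^ 2 / (E.l0 : ℝ) ^ 2 ≤ (nm z : ℝ) ^ 2 :=
    div_le_self (sq_nonneg _) (one_le_pow₀ l1)
  have b : 1 + (nm z : ℝ) ^ 2 / (E.l0 : ℝ) ^ 2 ≤ (1 + nm z) ^ 2 := by
    nlinarith [(Nat.cast_nonneg (nm z) : (0 : ℝ) ≤ _)]
  calc _ = (1 + (nm z : ℝ) ^ 2 / (E.l0 : ℝ) ^ 2) * (E.CS * NF E.p F) := by ring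
    _ ≤ _ := mul_le_mul_of_nonneg_right b (by positivity)

/-- forms, far pairs -/
theorem far_form (h : Scl E P l D) (Z : Finset (Tor d M)) (U : Tor d M → Finset (Tor d M))
    (k : Tor d M → Tor d M → Tor d M → ℝ)
    (hk : ∀ v ∈ Z, ∀ x ∈ U v, ∀ y ∈ U v,
      |k v x y| ≤ exp (3 * P ^ 6) * (ew P l (x - v) * ew P l (y - v))) (F : Tor d M → ℝ) :
    ∑ v ∈ Z, |En (U v) (k v) F - En (U v ∩ bl v D) (k v) F| ≤ 1 / P ^ 3 * NF E.p F := by
  have hP := h.P0
  have hN : 0 ≤ NF E.p F := NF_nonneg h.hE.ref.p0 F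
  have c1 := h.hE.ref.c1
  have g0 : ∀ z : Tor d M, 0 ≤ ew P l z := fun z => (ew_pos _ _ z).le
  have k2 := G3A.two (fw P l D) (ew P l) (fun z => (1 + nm z) ^ 2) F (E.CS * NF E.p F)
    (by positivity) g0 fw0 s1 (h.shift F)
  have k5 : 4 * E.CS * P ^ 3 ≤ P ^ 4 := by
    rw [pow_succ' P 3]; exact mul_le_mul_of_nonneg_right (by nlinarith [h.CS]) (by positivity)
  calc _ ≤ ∑ v, exp (3 * P ^ 6) * ∑ x, ∑ y,
        (fw P l D (x - v) * ew P l (y - v) + ew P l (x - v) * fw P l D (y - v)) *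
          ((F x - F v) ^ 2 + (F y - F v) ^ 2) := by
        refine le_trans (sum_le_sum fun v hv => ?_) (sum_le_sum_of_subset_of_nonneg
          (subset_univ Z) fun v _ _ => mul_nonneg (exp_pos _).le (sum_nonneg fun x _ =>
            sum_nonneg fun y _ => mul_nonneg (add_nonneg (mul_nonneg (fw0 _) (g0 _))
              (mul_nonneg (g0 _) (fw0 _))) (by positivity)))
        refine G3A.one inter_subset_left _ (fun x => fw P l D (x - v))
          (fun x => ew P l (x - v)) F _ (F v) (exp_pos _).le (fun _ => g0 _) (fun _ => fw0 _)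
          (fun x hx hn => ?_) (hk v hv)
        exact (if_pos (not_le.1 fun a => hn (mem_inter.2 ⟨hx, mem_bl.2 a⟩))).ge
    _ ≤ exp (3 * P ^ 6) * (4 * (E.CS * NF E.p F) *
        (exp (-P ^ 7) * (exp (P ^ 6) * exp (P ^ 6)))) := by
        rw [← mul_sum]
        exact mul_le_mul_of_nonneg_left (k2.trans (mul_le_mul_of_nonneg_left
          (mul_le_mul h.fw_sum h.ew_sum (sum_nonneg fun z _ => mul_nonneg (g0 z) (sq_nonneg _))
            (exp_pos _).le) (by positivity))) (exp_pos _).le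
    _ = exp (-P ^ 7) * (exp (3 * P ^ 6) * (exp (P ^ 6) * exp (P ^ 6)) * (4 * E.CS * P ^ 3)) *
        (1 / P ^ 3 * NF E.p F) := by field_simp
    _ ≤ _ := mul_le_of_le_one_left (by positivity) (h.tiny k5)

theorem near_small (h : Scl E P l D) (F : Tor d M → ℝ) :
    ∑ v, exp (-P ^ 7 / 5) * ∑ x ∈ bl v D, (F x - F v) ^ 2 ≤ 1 / P ^ 3 * NF E.p F := by
  have hP := h.P0
  have hN : 0 ≤ NF E.p F := NF_nonneg h.hE.ref.p0 F
  have c1 := h.hE.ref.c1
  rw [← mul_sum]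
  refine (mul_le_mul_of_nonneg_left (G4x.sum_near h.hE _ F) (exp_pos _).le).trans ?_
  rw [← mul_assoc]
  refine mul_le_mul_of_nonneg_right ?_ hN
  have a : E.CS * P ^ 3 ≤ exp (P ^ 4) := by
    have : E.CS * P ^ 3 ≤ P * P ^ 3 := mul_le_mul_of_nonneg_right (by nlinarith [h.CS]) (by positivity)
    linarith [add_one_le_exp (P ^ 4)]
  have b := pow_le_pow_left₀ (Nat.cast_nonneg _) h.vol 3
  rw [le_div_iff₀ (by positivity)]
  calc _ = exp (-P ^ 7 / 5) * ((vl d M D : ℝ) ^ 3 * (E.CS * P ^ 3)) := by ring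
    _ ≤ exp (-P ^ 7 / 5) * (exp (P ^ 2) ^ 3 * exp (P ^ 4)) := by gcongr
    _ ≤ 1 := by
      rw [← exp_nat_mul, ← exp_add, ← exp_add]
      refine exp_le_one_iff.2 ?_
      push_cast
      linarith [h.pow_lt (show 4 < 7 by norm_num) (c := 20) (by norm_num),
        h.pow_le (show 2 ≤ 4 by norm_num)]

/-- forms, near pairs -/
theorem near_form (h : Scl E P l D) (Z : Finset (Tor d M)) (y : Tor d M → ℝ) (F : Tor d M → ℝ)
    (yp : Tor d M → Tor d M → (Tor d M → ℝ) → ℝ)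
    (h1 : ∀ p φ, (∀ x ∉ bl p (3 * (d * D)), φ x = 0) →
      ∑ v ∈ Z ∩ bl p (d * D), yp p v φ ≤ Nm E.p φ / P ^ 4)
    (h2 : ∀ p, ∀ v ∈ Z ∩ bl p (d * D), ∀ φ c, (∀ x ∈ bl v D, φ x = F x - c) →
      y v ≤ yp p v φ + exp (-P ^ 7 / 5) * ∑ x ∈ bl v D, (F x - F v) ^ 2) :
    ∑ v ∈ Z, y v ≤ 2 / P ^ 3 * NF E.p F := by
  have hP := h.P0
  have hN := NF_nonneg h.hE.ref.p0 F
  have hDA : D ≤ d * D := Nat.le_mul_of_pos_left _ h.hE.d1
  have hV : (0 : ℝ) < vl d M (d * D) := by exact_mod_cast (tn_NG d M).vol_pos _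
  have hl := (t_loci d M E P D F h.hE h.P1 h.l0).1
  set e : Tor d M → ℝ := fun v => exp (-P ^ 7 / 5) * ∑ x ∈ bl v D, (F x - F v) ^ 2 with he
  have he0 : ∀ v, 0 ≤ e v := fun v => by positivity
  have e1 : ∑ p, ∑ v ∈ Z ∩ bl p (d * D), y v = vl d M (d * D) * ∑ v ∈ Z, y v := by
    have := (tn_NG d M).sum_sum_ball (d * D) fun v => if v ∈ Z then y v else 0
    simpa only [sum_ite_mem, univ_inter, inter_comm (ball _ _ _)] using this
  have e2 : ∀ p, ∑ v ∈ Z ∩ bl p (d * D), y v ≤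
      Nm E.p (loc (tn d M) (d * D + D) D F p) / P ^ 4 + ∑ v ∈ bl p (d * D), e v := fun p => by
    have h4 := h1 p (loc (tn d M) (d * D + D) D F p) fun x hx =>
      loc_out F fun h5 => hx (ball_mono p (by omega) h5)
    refine (sum_le_sum fun v hv => h2 p v hv _ _ fun x hx =>
      loc_in h.D1 F (q := p) (R := d * D + D) (mem_bl.2 (by
        have := nm_tri x v p
        have := mem_bl.1 hx
        have := mem_bl.1 (mem_inter.1 hv).2
        omega))).trans ?_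
    rw [sum_add_distrib]
    exact add_le_add h4 (sum_le_sum_of_subset_of_nonneg inter_subset_right fun v _ _ => he0 v)
  have h3 := sum_le_sum fun p (_ : p ∈ univ) => e2 p
  rw [e1, sum_add_distrib, (tn_NG d M).sum_sum_ball, ← sum_div] at h3
  have h5 : P / 10 ^ 6 * vl d M (d * D) * NF E.p F / P ^ 4 ≤
      vl d M (d * D) * (1 / P ^ 3 * NF E.p F) := by
    rw [show (P / 10 ^ 6 * vl d M (d * D) * NF E.p F / P ^ 4 : ℝ) =
      vl d M (d * D) * (1 / P ^ 3 * NF E.p F) / 10 ^ 6 by field_simp]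
    exact div_le_self (by positivity) (by norm_num)
  refine le_of_mul_le_mul_left (h3.trans ?_) hV
  refine (add_le_add ((div_le_div_of_nonneg_right hl (by positivity)).trans h5)
    (mul_le_mul_of_nonneg_left (h.near_small F) hV.le)).trans_eq ?_
  ring

/-- operator norm, far pairs -/
theorem far_rr (h : Scl E P l D) (S Z : Finset (Tor d M)) (Y : Tor d M → Tor d M → Tor d M → ℂ)
    (hY : ∀ v ∈ Z, ∀ x ∈ S, ∀ y ∈ S,
      ‖Y v x y‖ ≤ exp (3 * P ^ 6) * (ew P l (x - v) * ew P l (y - v))) :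
    OpLe S (fun x y => ∑ v ∈ Z, if x ∈ bl v D ∧ y ∈ bl v D then 0 else Y v x y) (1 / P ^ 3) := by
  have hP := h.P0
  have r0 : 0 < 1 / P ^ 3 := by positivity
  have g0 : ∀ z : Tor d M, 0 ≤ ew P l z := fun z => (ew_pos _ _ z).le
  have t0 : ∀ x y v : Tor d M,
      0 ≤ fw P l D (x - v) * ew P l (y - v) + ew P l (x - v) * fw P l D (y - v) :=
    fun x y v => add_nonneg (mul_nonneg (fw0 _) (g0 _)) (mul_nonneg (g0 _) (fw0 _))
  refine opLe_schur (g := fun x y => exp (3 * P ^ 6) *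
    ∑ v, (fw P l D (x - v) * ew P l (y - v) + ew P l (x - v) * fw P l D (y - v))) r0
    (fun x y => ?_) (fun x hx y hy => ?_) fun x _ => ?_
  · congr 1
    exact sum_congr rfl fun v _ => by ring
  · rw [mul_sum]
    refine (norm_sum_le _ _).trans (le_trans (sum_le_sum fun v hv => ?_)
      (sum_le_sum_of_subset_of_nonneg (subset_univ Z) fun v _ _ =>
        mul_nonneg (exp_pos _).le (t0 x y v)))
    split_ifs with h2
    · rw [norm_zero]; exact mul_nonneg (exp_pos _).le (t0 x y v)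
    refine (hY v hv x hx y hy).trans (mul_le_mul_of_nonneg_left ?_ (exp_pos _).le)
    rcases not_and_or.1 h2 with a | a
    · refine le_add_of_le_of_nonneg (le_of_eq ?_) (mul_nonneg (g0 _) (fw0 _))
      rw [fw, if_pos (not_le.1 (mt mem_bl.2 a))]
    · refine le_add_of_nonneg_of_le (mul_nonneg (fw0 _) (g0 _)) (le_of_eq ?_)
      rw [fw, if_pos (not_le.1 (mt mem_bl.2 a))]
  · calc _ ≤ ∑ y, exp (3 * P ^ 6) *
          ∑ v, (fw P l D (x - v) * ew P l (y - v) + ew P l (x - v) * fw P l D (y - v)) :=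
          sum_le_sum_of_subset_of_nonneg (subset_univ _) fun y _ _ =>
            mul_nonneg (exp_pos _).le (sum_nonneg fun v _ => t0 x y v)
      _ ≤ exp (3 * P ^ 6) * (2 * (exp (-P ^ 7) * (exp (P ^ 6) * exp (P ^ 6)))) := by
          rw [← mul_sum, G5A.row]
          exact mul_le_mul_of_nonneg_left (mul_le_mul_of_nonneg_left
            (mul_le_mul h.fw_sum' h.ew_sum' (sum_nonneg fun z _ => g0 z) (exp_pos _).le)
              zero_le_two) (exp_pos _).le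
      _ = exp (-P ^ 7) * (exp (3 * P ^ 6) * (exp (P ^ 6) * exp (P ^ 6)) * (2 * P ^ 3)) *
          (1 / P ^ 3) := by field_simp
      _ ≤ _ := mul_le_of_le_one_left r0.le (h.tiny (h.pow_lt (by norm_num) (by norm_num)))

/-- operator norm, near pairs -/
theorem near_rr (h : Scl E P l D) (S Z : Finset (Tor d M)) (Y : Tor d M → Tor d M → Tor d M → ℂ)
    (Yq : Tor d M → Tor d M → Tor d M → Tor d M → ℂ) {r : ℝ} (hr : 0 ≤ r)
    (h0 : ∀ p v x y, ¬ (x ∈ bl v D ∧ y ∈ bl v D) → Yq p v x y = 0)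
    (h1 : ∀ p, OpLe univ (fun x y => ∑ v ∈ Z ∩ bl p (d * D), Yq p v x y) r)
    (h2 : ∀ p, ∀ v ∈ Z ∩ bl p (d * D), ∀ x ∈ S ∩ bl v D, ∀ y ∈ S ∩ bl v D,
      ‖Y v x y - Yq p v x y‖ ≤ exp (-P ^ 7 / 5)) :
    OpLe S (fun x y => ∑ v ∈ Z, if x ∈ bl v D ∧ y ∈ bl v D then Y v x y else 0)
      (3 * r + 1 / P ^ 3) := by
  have hP := h.P0
  have hN := tn_NG d M
  set A := d * D with hA
  set ε := exp (-P ^ 7 / 5) with hε
  have ε0 : 0 ≤ ε := (exp_pos _).le
  have V0 : (0 : ℝ) < vl d M A := by exact_mod_cast hN.vol_pos A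
  set Yg : Tor d M → Tor d M → Tor d M → ℂ := fun v x y =>
    if x ∈ bl v D ∧ y ∈ bl v D then Y v x y else 0 with hYg
  have m1 : OpLe univ (fun x y => ∑ p, ∑ v ∈ Z ∩ bl p A, Yq p v x y) (vl d M (A + D) * r) := by
    refine G6A.avg hN (A + D) (fun p x y => ∑ v ∈ Z ∩ bl p A, Yq p v x y) hr h1
      fun p x y hxy => sum_eq_zero fun v hv => h0 p v x y fun a => ?_
    have k : ∀ z, z ∈ bl v D → z ∈ bl p (A + D) := fun z hz => by
      have h1 := mem_bl.1 hz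
      have h2 := mem_bl.1 (mem_inter.1 hv).2
      have h3 := nm_tri z v p
      exact mem_bl.2 (by omega)
    exact hxy.elim (fun b => b (k _ a.1)) fun b => b (k _ a.2)
  have m2 : OpLe S (fun x y => ((vl d M A : ℝ) : ℂ)⁻¹ * ∑ p, ∑ v ∈ Z ∩ bl p A, Yq p v x y)
      (3 * r) := by
    refine ((G6A.smul m1 _).sub (subset_univ _)).mono ?_
    have a : (vl d M (A + D) : ℝ) ≤ exp 1 * vl d M A := by
      simpa using vol_tn_shell (d := d) (M := M) (R := A) (D := D) (k := 1) le_rfl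
    rw [norm_inv, Complex.norm_real, Real.norm_of_nonneg V0.le, inv_mul_le_iff₀ V0]
    calc _ ≤ 3 * vl d M A * r := mul_le_mul_of_nonneg_right (a.trans
          (mul_le_mul_of_nonneg_right (exp_one_lt_d9.le.trans (by norm_num)) V0.le)) hr
      _ = _ := by ring
  have i0 : ∀ x y v : Tor d M, 0 ≤ if x ∈ bl v D ∧ y ∈ bl v D then ε else 0 := fun x y v => by
    split_ifs; exacts [ε0, le_rfl]
  have m4 : OpLe S (fun x y => ((vl d M A : ℝ) : ℂ)⁻¹ *
      ∑ p, ∑ v ∈ Z ∩ bl p A, (Yg v x y - Yq p v x y)) (1 / P ^ 3) := by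
    refine opLe_schur (g := fun x y => ∑ v, if x ∈ bl v D ∧ y ∈ bl v D then ε else 0)
      (by positivity) (fun x y => by simp only [and_comm]) (fun x hx y hy => ?_) fun x _ => ?_
    · rw [norm_mul, norm_inv, Complex.norm_real, Real.norm_of_nonneg V0.le, inv_mul_le_iff₀ V0]
      refine (norm_sum_le _ _).trans ((sum_le_sum fun p _ => (norm_sum_le _ _).trans
        (sum_le_sum (g := fun v => if x ∈ bl v D ∧ y ∈ bl v D then ε else 0) fun v hv => ?_)).trans ?_)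
      · simp only [hYg]
        split_ifs with a
        · exact h2 p v hv x (mem_inter.2 ⟨hx, a.1⟩) y (mem_inter.2 ⟨hy, a.2⟩)
        · rw [h0 p v x y a, sub_self, norm_zero]
      rw [G6A.cnt hN, nsmul_eq_mul]
      exact mul_le_mul_of_nonneg_left (sum_le_sum_of_subset_of_nonneg (subset_univ _)
        fun v _ _ => i0 x y v) V0.le
    · refine (sum_le_sum_of_subset_of_nonneg (subset_univ _) fun y _ _ =>
        sum_nonneg fun v _ => i0 x y v).trans ?_
      rw [G6A.row hN]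
      have a := h.vol
      have b : P ^ 3 ≤ exp (P ^ 3) := by linarith [add_one_le_exp (P ^ 3)]
      rw [le_div_iff₀ (by positivity)]
      calc _ ≤ exp (P ^ 2) * (exp (P ^ 2) * ε) * exp (P ^ 3) := by gcongr
        _ ≤ exp 0 := by
          rw [hε, ← exp_add, ← exp_add, ← exp_add, exp_le_exp]
          have c := h.pow_lt (show 3 < 7 by norm_num) (show (15 : ℝ) ≤ 10 ^ 9 by norm_num)
          have e := h.pow_le (show 2 ≤ 3 by norm_num)
          linarith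
        _ = 1 := exp_zero
  refine (m2.add m4).congr fun x _ y _ => ?_
  have V1 : ((vl d M A : ℝ) : ℂ) ≠ 0 := by exact_mod_cast V0.ne'
  rw [Pi.add_apply, Pi.add_apply, ← mul_add, ← sum_add_distrib]
  simp only [← sum_add_distrib, add_sub_cancel]
  rw [G6A.cnt hN, nsmul_eq_mul, Complex.ofReal_natCast, inv_mul_cancel_left₀ (by exact_mod_cast V1)]

end Scl

end Pool.Agent.P.MP_d0f69c_mp.XS.Pre
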