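import Pool.Agent.P.MP_d0f69c_mp.XS.PDefs
import Pool.Agent.P.MP_d0f69c_mp.XS.PG0
import Pool.Agent.P.MP_d0f69c_mp.XS.PCtm
import Pool.Agent.P.MP_d0f69c_mp.XS.PS0

/-!
Interfaces inside the gluing block of the preparation stage.
-/

set_option autoImplicit false

open Finset Real
open scoped Matrix

namespace Pool.Agent.P.MP_d0f69c_mp.XS.Pre

variable {d M : ℕ} [NeZero M]

section defs

variable (E : PEnv d M) (q : PPar d M) (S : St (Tor d M)) (J : Finset (Tor d M))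
  (ω : Tor d M → Bool) (κ : Tor d M → ℕ)

/-- the part of `Zg` that the proxy of the centre `p` closes -/
noncomputable abbrev Zq (p : Tor d M) : Finset (Tor d M) := Zg S J ∩ bl p (5 * q.A E.η d)

/-- the sites that are closed before `v` -/
abbrev Xv (v : Tor d M) : Finset (Tor d M) := pre κ (Zg S J) (κ v)

/-- the effective potential after `X` is closed -/
noncomputable abbrev Wx (X : Finset (Tor d M)) : Matrix (Tor d M) (Tor d M) ℂ :=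
  Ww (E.ker S) (S.O \ X) (mix X ω (om S))

/-- the dressed kernel after `X` is closed -/
noncomputable abbrev Ax (X : Finset (Tor d M)) : Matrix (Tor d M) (Tor d M) ℂ :=
  al (E.ker S) (S.O \ X) (mix X ω (om S))

/-- what the gluing step uses -/
structure PGH : Prop where
  hE : E.toEnv.OK
  hq : q.toPar.OK E.toEnv
  fin : q.fin = false
  inv : PInv E (q.b1 E.η) S
  sel : PSel E q S
  inj : Function.Injective κ
  flow : ∀ p, bl p (5 * q.A E.η d) ⊆ J ∨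
    PFlow E q S p (Zq E q S J p) ((S.sig \ J) ∩ bl p (5 * q.A E.η d)) ω κ
  smk : SmK (fun x y => (2 * nm (x - y) : ℝ) / q.l) (E.ker S) (1 / 100)
  unit : ∀ X ⊆ S.good, IsUnit (cr E.H + Wx E S ω X).det
  ward : ∀ X ⊆ S.good, ∀ T u, E.η / 4 * nS (S.O \ X) (ap T (E.G S X ω) u) ^ 2 ≤
    nS T u * nS T (ap T (E.G S X ω) u)
  a1 : ∀ x ∈ S.O, |E.a0 S x - 1| ≤ 1 / 10 ^ 6
  K0 : ∀ z, 0 ≤ q.Kk z
  K1 : ∑ z, q.Kk z ≤ 1
  KD : ∀ z, q.Kk z ≠ 0 → nm z ≤ q.l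
  KC : ∀ F : Tor d M → ℝ, ∑ v, ∑ x, q.Kk (x - v) * (F x - F v) ^ 2 ≤ q.C0 * NF E.p F
  k0 : 0 ≤ q.kap
  k1 : q.kap ≤ q.eps
  e1 : q.eps ≤ 1 / 10 ^ 12
  C1 : 1 ≤ q.C0
  ρ0 : 0 ≤ q.ρ
  H0 : ∀ z, 0 ≤ q.H z
  m0 : exp (-(q.P : ℝ) ^ 6) ≤ q.m1
  h0 : exp (-(q.P : ℝ) ^ 6) ≤ q.hb
  n0 : exp (-(q.P : ℝ) ^ 6) ≤ q.n4
  n1 : q.n4 ≤ q.nO
  n2 : q.nO ≤ 1 / 2

/-- decay at all times -/
structure PGD : Prop where
  dec : ∀ t, Dec (E.G S (pre κ (Zg S J) t) ω) S.O (q.Bi 2) (q.li E.η 2)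
  decp : ∀ p t, Dec (E.G S (pre κ (Zq E q S J p) t) ω) S.O (q.Bi 2) (q.li E.η 2)

/-- closeness of the global flow and the proxies, and the envelope of one closing -/
structure PGC : Prop where
  cls : ∀ p t, ∀ x ∈ S.O, ∀ z ∈ S.O, nm (x - p) ≤ 4 * q.A E.η d →
    ‖E.G S (pre κ (Zg S J) t) ω x z - E.G S (pre κ (Zq E q S J p) t) ω x z‖ ≤
      exp (-(q.P : ℝ) ^ 7 / 2)
  cla : ∀ p t x z, nm (x - p) ≤ 4 * q.A E.η d →
    ‖Ax E S ω (pre κ (Zg S J) t) x z - Ax E S ω (pre κ (Zq E q S J p) t) x z‖ ≤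
      exp (-(q.P : ℝ) ^ 7)
  stp : ∀ v ∈ Zg S J, ∀ x ∈ S.O, ∀ y ∈ S.O,
    ‖E.G S (insert v (Xv S J κ v)) ω x y - E.G S (Xv S J κ v) ω x y‖ ≤
      ew q.P (q.li E.η 2) (x - v) * ew q.P (q.li E.η 2) (y - v)

/-- change of the surcharged conductances when `v` is closed in the global flow -/
noncomputable abbrev dKt (τ : Bool) (v x y : Tor d M) : ℝ :=
  Kt E q S τ (Zg S J) (insert v (Xv S J κ v)) ω x y - Kt E q S τ (Zg S J) (Xv S J κ v) ω x y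

end defs

/-- a statement about all data of the gluing step -/
def AllP (X : ∀ (d M : ℕ) [NeZero M], PEnv d M → PPar d M → St (Tor d M) → Finset (Tor d M) →
    (Tor d M → Bool) → (Tor d M → ℕ) → Prop) : Prop :=
  ∀ (d M : ℕ) [NeZero M] (E : PEnv d M) (q : PPar d M) (S : St (Tor d M)) (J : Finset (Tor d M))
    (ω : Tor d M → Bool) (κ : Tor d M → ℕ), PGH E q S J ω κ → X d M E q S J ω κ

def S_PG1 : Prop := AllP fun _ _ _ E q S J ω κ => PGD E q S J ω κ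

def S_PG2 : Prop := AllP fun _ _ _ E q S J ω κ => PGD E q S J ω κ → PGC E q S J ω κ

/-- forms, near pairs -/
def S_PG3 : Prop := AllP fun _ _ _ E q S J ω κ => PGD E q S J ω κ → PGC E q S J ω κ → ∀ τ F,
  ∑ v ∈ Zg S J, Y5P E q S τ (Zg S J) (Xv S J κ v) ω v F ≤ 2 / (q.P : ℝ) ^ 3 * NF E.p F

/-- forms, far pairs -/
def S_PG4 : Prop := AllP fun _ _ _ E q S J ω κ => PGD E q S J ω κ → PGC E q S J ω κ → ∀ τ F,
  ∑ v ∈ Zg S J, |En ((S.O \ Xv S J κ v).erase v) (dKt E q S J ω κ τ v) F -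
    En (Sv E q S (Xv S J κ v) v) (dKt E q S J ω κ τ v) F| ≤ 1 / (q.P : ℝ) ^ 3 * NF E.p F ∧
  ∑ v ∈ Zg S J, ∑ x ∈ (S.O \ Xv S J κ v).erase v \ Sv E q S (Xv S J κ v) v,
    Kt E q S τ (Zg S J) (Xv S J κ v) ω x v * (F x - F v) ^ 2 ≤ 1 / (q.P : ℝ) ^ 3 * NF E.p F

/-- the retarded-retarded matrix at the end -/
def S_PG6 : Prop := AllP fun _ _ _ E q S J ω κ => PGD E q S J ω κ → PGC E q S J ω κ →
  Disc (S.sig \ J) (Am0 (E.G S (Zg S J) ω))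
    (q.θ + 1 / (q.P : ℝ) ^ 3 + (3 * q.r6 + 2 / (q.P : ℝ) ^ 3))

/-- entries at the end -/
def S_PG7 : Prop := AllP fun _ _ _ E q S J ω κ => PGD E q S J ω κ → PGC E q S J ω κ →
  (∀ x ∈ S.sig \ J, ‖E.Γ S (Zg S J) ω x x‖ ≤ 3000 * q.m1) ∧
  (∀ x ∈ S.O \ Zg S J, ∀ y ∈ S.O \ Zg S J, ‖E.Γ S (Zg S J) ω x y‖ ≤ q.H2 (x - y) + q.hb) ∧
  ∀ x ∈ S.O \ Zg S J, |E.a S (Zg S J) ω x - E.a0 S x| ≤ 2 * q.da

/-- fourth powers at the end -/
def S_PG8 : Prop := AllP fun _ _ _ E q S J ω κ => PGD E q S J ω κ → PGC E q S J ω κ →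
  ∀ x ∈ S.O \ Zg S J, ∑ y ∈ S.sig \ J, ‖E.Γ S (Zg S J) ω x y‖ ^ 4 ≤ q.n4 / 14 ∧
    ∑ y ∈ S.O \ Zg S J, ‖E.Γ S (Zg S J) ω x y‖ ^ 4 ≤ q.nO + √(q.nO * q.n4) / 50 + q.n4 / 400

variable {E : PEnv d M} {q : PPar d M} {S : St (Tor d M)} {J : Finset (Tor d M)}
  {ω : Tor d M → Bool} {κ : Tor d M → ℕ}

omit [NeZero M] in
theorem mix_empty {ι β : Type} [DecidableEq ι] (a b : ι → β) : mix ∅ a b = b :=
  funext fun _ => if_neg (notMem_empty _)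

theorem G_empty : E.G S ∅ ω = E.G0 S := by rw [PEnv.G, sdiff_empty, mix_empty]; rfl

theorem Γ_empty : E.Γ S ∅ ω = E.Γ0 S := by rw [PEnv.Γ, sdiff_empty, mix_empty]; rfl

theorem a_empty : E.a S ∅ ω = E.a0 S := by rw [PEnv.a, sdiff_empty, mix_empty]; rfl

theorem G_eq (X : Finset (Tor d M)) : E.G S X ω = (cr E.H + Wx E S ω X)⁻¹ := rfl

theorem Γ_eq (X : Finset (Tor d M)) (x y : Tor d M) :
    E.Γ S X ω x y = E.G S X ω x y - Ax E S ω X x y := rfl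

theorem a_eq (X : Finset (Tor d M)) (x : Tor d M) : E.a S X ω x = (Ax E S ω X x x).im / E.η := rfl

omit [NeZero M] in
theorem Zg_sub (S : St (Tor d M)) (J : Finset (Tor d M)) : Zg S J ⊆ S.good :=
  sdiff_subset.trans sdiff_subset

theorem Zq_sub (p : Tor d M) : Zq E q S J p ⊆ S.good := inter_subset_left.trans (Zg_sub S J)

theorem Zq_empty {p : Tor d M} (h : bl p (5 * q.A E.η d) ⊆ J) : Zq E q S J p = ∅ :=
  eq_empty_of_forall_notMem fun _ hx => (mem_sdiff.1 (mem_inter.1 hx).1).2 (h (mem_inter.1 hx).2)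

omit [NeZero M] in
theorem pre_end (κ : Tor d M → ℕ) [Fintype (Tor d M)] (Z : Finset (Tor d M)) :
    pre κ Z (univ.sup κ + 1) = Z :=
  pre_top κ Z (Nat.lt_succ_of_le (sup_mono (subset_univ Z)))

omit [NeZero M] in
/-- two states agree where the closed sets agree -/
theorem agr {Λ X X' : Finset (Tor d M)} (h : ∀ z ∈ Λ, z ∈ X ↔ z ∈ X') :
    Agr Λ (S.O \ X) (S.O \ X') (mix X ω (om S)) (mix X' ω (om S)) := fun z hz =>
  ⟨by rw [mem_sdiff, mem_sdiff, h z hz], fun _ => by simp only [mix, h z hz]⟩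

namespace PGH

variable (h : PGH E q S J ω κ)
include h

theorem scl : Scl E.toEnv q.P (q.li E.η 2) (q.D E.η 2) :=
  ⟨h.hE, h.hq.P1, h.hq.li_one h.hE 2, h.hq.D_one h.hE 2, h.hq.l0_le_D h.hE 2,
    le_trans (Nat.cast_le.2 (card_le_card (ball_mono _
      ((h.hq.D_mono h.hE (show 2 ≤ 3 by norm_num)).trans (by omega)))))
      (t_far d M _ _ h.hE h.hq).1,
    ((t_far d M _ _ h.hE h.hq).2 2 (by norm_num)).1, far_two h.hE h.hq h.fin (by norm_num)⟩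

theorem G_symm (X : Finset (Tor d M)) (x y : Tor d M) : E.G S X ω x y = E.G S X ω y x := by
  have e : (cr E.H + Wx E S ω X)ᵀ = cr E.H + Wx E S ω X := by
    rw [Matrix.transpose_add, h.smk.kok.Ww_T]
    congr 1
    ext a b
    exact congrArg Complex.ofReal (h.hE.symm b a)
  have e2 : (E.G S X ω)ᵀ = E.G S X ω := by rw [G_eq, Matrix.transpose_nonsing_inv, e]
  exact congrFun (congrFun e2 y) x

theorem flow' {p v : Tor d M} (hv : v ∉ J) (hp : nm (v - p) ≤ 5 * q.A E.η d) :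
    PFlow E q S p (Zq E q S J p) ((S.sig \ J) ∩ bl p (5 * q.A E.η d)) ω κ :=
  (h.flow p).resolve_left fun a => hv (a (mem_bl.2 hp))

theorem e0 : 0 ≤ q.eps := h.k0.trans h.k1

theorem sr_le (τ : Bool) (rem : Finset (Tor d M)) (u : Tor d M) :
    |sr τ * q.sig * ((if u ∈ rem then 1 else 0) + (∑ v ∈ rem, q.Kk (u - v)) / 2000)| ≤
      2001 / 2000 * q.sig := by
  have a0 : 0 ≤ ∑ v ∈ rem, q.Kk (u - v) := sum_nonneg fun _ _ => h.K0 _
  have a1 : ∑ v ∈ rem, q.Kk (u - v) ≤ 1 :=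
    (sum_le_sum_of_subset_of_nonneg (subset_univ _) fun _ _ _ => h.K0 _).trans
      (((Equiv.subLeft u).sum_comp q.Kk).trans_le h.K1)
  have s0 : 0 ≤ q.sig := mul_nonneg (by norm_num) h.e0
  have s1 : |sr τ| = 1 := by cases τ <;> simp [sr]
  rw [abs_mul, abs_mul, s1, one_mul, abs_of_nonneg s0, mul_comm]
  refine mul_le_mul_of_nonneg_right (abs_le.2 ⟨?_, ?_⟩) s0 <;> split_ifs <;> linarith

/-- the surcharged weights are close to one -/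
theorem wt_le (τ : Bool) (rem : Finset (Tor d M)) {u : Tor d M} (hu : u ∈ S.O) :
    1 / 2 ≤ wt E q S τ rem u ∧ wt E q S τ rem u ≤ 2 := by
  have a := abs_le.1 (h.sr_le τ rem u)
  have b := abs_le.1 (h.a1 u hu)
  have c : q.sig ≤ 1 / 10 ^ 7 := by rw [PPar.sig]; linarith [h.e1]
  rw [wt]
  constructor <;> nlinarith

end PGH

end Pool.Agent.P.MP_d0f69c_mp.XS.Pre
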