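import Pool.Agent.P.MP_d0f69c_mp.XS.PIfA
import Pool.Agent.P.MP_d0f69c_mp.XS.PIfG
import Pool.Agent.P.MP_d0f69c_mp.XS.PIfS

/-!
Interfaces inside the block of the preparatory flow: the flow on the torus.
-/

set_option autoImplicit false
set_option linter.dupNamespace false

open Finset Real
open scoped Matrix

namespace Pool.Agent.P.MP_d0f69c_mp.XS.Pre

section generic

variable {ι : Type} [Fintype ι] [DecidableEq ι]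

/-- the facts about the data of the steps -/
structure Fu (q : Nq) (σ : Co ι) (τ : Au ι) : Prop where
  sB : ∀ v ∈ σ.rem, (τ.B v)ᵀ = τ.B v
  sR : ∀ v ∈ σ.rem, ∀ b, (τ.R v b)ᵀ = τ.R v b
  D0 : ∀ v u, 0 ≤ τ.D v u
  DO : ∀ v, ∀ u ∉ σ.Op, τ.D v u = 0
  D1 : ∀ v ∈ σ.rem, ∀ u, τ.D v u ≤ q.κ ^ 2 * (σ.Kk v u + if u = v then 1 else 0) + τ.D2 v u
  E0 : ∀ v u, 0 ≤ τ.D2 v u
  EO : ∀ v, ∀ u ∉ σ.Op, τ.D2 v u = 0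
  E1 : ∀ v ∈ σ.rem, ∑ u, τ.D2 v u ≤ q.ν
  E2 : ∀ u, ∑ v ∈ σ.rem, τ.D2 v u ≤ q.ν
  hn : ∀ v ∈ σ.rem, HN (τ.N v)
  n1 : ∀ v ∈ σ.rem, ∀ φ, ‖φ v‖ ≤ τ.N v φ
  n2 : ∀ v ∈ σ.rem, ∀ φ, τ.N v φ ≤ τ.Nh v φ
  b0 : ∀ v ∈ σ.rem, ∀ φ ψ, ‖bf (τ.B v) φ ψ‖ ≤ 103 / 100 * τ.N v φ * τ.N v ψ
  b1 : ∀ v ∈ σ.rem, ∀ φ ψ,
    ‖bf (τ.B v) φ ψ - τ.β v * (φ v * ψ v)‖ ≤ no (τ.D v) φ * no (τ.D v) ψ
  b2 : ∀ v ∈ σ.rem, ‖τ.β v - 1‖ ≤ q.ε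
  r1 : ∀ v ∈ σ.rem, ∀ b φ ψ, ‖bf (τ.R v b) φ ψ‖ ≤ q.hb * τ.Nh v φ * τ.Nh v ψ
  r2 : ∀ v ∈ σ.rem, ∀ b φ, ‖bf (τ.R v b) φ φ‖ ≤
    (1 + 3 * q.ε) * ‖σ.Γ v v‖ * ‖φ v‖ ^ 2 + q.m1 / 100 * τ.Nh v φ ^ 2
  p1 : ∀ v ∈ σ.rem, ∀ x ∈ σ.Op ∪ σ.X, x ≠ v → τ.N v (τ.Pn v x) ≤ q.κ * σ.Kk x v
  p2 : ∀ v ∈ σ.rem, ∀ x ∈ σ.Op ∪ σ.X, x ≠ v → τ.N v (σ.al x - τ.Pn v x) ≤ τ.μ x v
  u0 : ∀ x v, 0 ≤ τ.μ x v
  u1 : ∀ x, ∑ v ∈ σ.rem, τ.μ x v ^ 2 ≤ q.ν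
  u2 : ∀ v ∈ σ.rem, ∑ x, τ.μ x v ^ 2 ≤ q.ν
  ia : ∀ v ∈ σ.rem, ∀ x ∈ σ.Rw.erase v,
    |(bf (τ.B v) (σ.al x) (σ.al x)).im| ≤ q.η * (q.κ * σ.Kk x v + τ.μ x v)

end generic

/-- the data of the steps exist -/
def S_PR : Prop :=
  ∀ (ι : Type) [Fintype ι] [DecidableEq ι] (q : Nq) (σ : Co ι) (r : ι → ι → ℝ)
    (K D D2 mu : Matrix ι ι ℝ) (κ ν1 ν : ℝ) (A X : Matrix ι ι ℂ) (ϖ : ι → Bool), q.OK →
    Stat r K κ ν1 ν A σ.Op ϖ D D2 mu → ImB A (4 * q.η) → Xᵀ = X →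
    IsUnit (X + Ww A σ.Op ϖ).det →
    (∀ v ∈ σ.rem, ∀ b, IsUnit (X + Ww A (σ.Op.erase v) (Function.update ϖ v b)).det) →
    (∀ x y, σ.G x y = (X + Ww A σ.Op ϖ)⁻¹ x y) → (∀ x y, σ.al x y = al A σ.Op ϖ x y) →
    σ.rem ⊆ σ.Rw → σ.Rw ⊆ σ.Op → (∀ x y, 0 ≤ σ.Kk x y) → (∀ x, ∑ y, σ.Kk x y ≤ 1) →
    (∀ v ∈ σ.rem, ∀ u ∈ σ.Op ∪ σ.X, 10 * κ * K u v ≤ q.κ * σ.Kk u v) →
    (∀ v ∈ σ.rem, ∀ u ∈ σ.Op, κ ^ 2 * K v u ≤ q.κ ^ 2 * σ.Kk v u) →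
    100 * ν ≤ q.ν → 2 * κ ^ 2 ≤ q.ε → 5000 * q.m1 ≤ q.hb →
    (∀ v ∈ σ.rem, ‖σ.Γ v v‖ ≤ 2000 * q.m1) → (∀ x ∈ σ.Op, ∀ y ∈ σ.Op, ‖σ.Γ x y‖ ≤ q.γ) →
    (∀ v ∈ σ.rem, ∀ u ∈ σ.Op, ∀ u' ∈ σ.Op, u = v ∨ σ.Kk v u ≠ 0 → u' = v ∨ σ.Kk v u' ≠ 0 →
      q.κ * ‖σ.Γ u u'‖ ≤ q.m1 / 10 ^ 4) →
    ∃ τ : Au ι, Fu q σ τ ∧ (∀ v u, τ.D v u = D v u) ∧ (∀ v u, τ.D2 v u ≤ D2 v u) ∧
      (∀ v, τ.β v = (cmn A σ.Op ϖ v)⁻¹) ∧ ∀ v ∈ σ.rem, ∀ b x y,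
        (X + Ww A (σ.Op.erase v) (Function.update ϖ v b))⁻¹ x y =
          σ.G x y - bf (τ.T v b) (σ.G x) (σ.G y) ∧
        al A (σ.Op.erase v) (Function.update ϖ v b) x y =
          σ.al x y - sgn b * bf (τ.B v) (σ.al x) (σ.al y)

variable {d M : ℕ} [NeZero M]

/-- the numbers of a round -/
noncomputable def nqOf (E : PEnv d M) (q : PPar d M) : Nq :=
  ⟨q.P, E.η, q.kap, q.eps, q.nu, q.hb, q.n4, q.nO, q.gam, q.m1⟩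

section defs

variable (E : PEnv d M) (q : PPar d M) (S : St (Tor d M))

/-- the static data of a round -/
structure PSt (r : Tor d M → Tor d M → ℝ) (K : Matrix (Tor d M) (Tor d M) ℝ) (κ ν1 ν : ℝ) :
    Prop where
  stat : ∀ X ⊆ S.good, ∀ ω, ∃ D D2 mu,
    Stat r K κ ν1 ν (E.ker S) (S.O \ X) (mix X ω (om S)) D D2 mu
  imb : ImB (E.ker S) (4 * E.η)
  rL : ∀ x y, (nm (x - y) : ℝ) / q.L ≤ r x y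
  n1 : ∀ v ∈ S.good, ∀ u ∈ S.O, 10 * κ * K u v ≤ q.kap * q.Kk (u - v)
  n2 : ∀ v ∈ S.good, ∀ u ∈ S.O, κ ^ 2 * K v u ≤ q.kap ^ 2 * q.Kk (v - u)
  ν0 : 100 * ν ≤ q.nu
  k1 : κ ≤ 1 / 10 ^ 8
  k2 : 1000 * κ ^ 2 ≤ q.eps
  k3 : 1000 * √ν1 ≤ q.eps

/-- the conditions on the numbers that the flow uses -/
structure PFN : Prop where
  hE : E.toEnv.OK
  hq : q.toPar.OK E.toEnv
  fin : q.fin = false
  nq : (nqOf E q).OK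
  K0 : ∀ z, 0 ≤ q.Kk z
  Ke : ∀ z, q.Kk (-z) = q.Kk z
  Kd : q.Kk 0 = 0
  K1 : ∑ z, q.Kk z ≤ 1
  KD : ∀ z, q.Kk z ≠ 0 → nm z ≤ q.l
  KC : ∀ F : Tor d M → ℝ, ∑ v, ∑ x, q.Kk (x - v) * (F x - F v) ^ 2 ≤ q.C0 * NF E.p F
  C1 : 1 ≤ q.C0
  C2 : q.C0 ≤ q.P
  cost : q.cost ≤ 1 / 10 ^ 7
  k1 : 100 * q.kap ≤ q.eps
  k2 : 100 / (q.P : ℝ) ^ 5 ≤ q.eps
  ρ1 : 1 ≤ q.ρ
  ρ2 : q.kap * q.ρ ^ 3 ≤ 1 / 10 ^ 9
  H0 : ∀ z, 0 ≤ q.H z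
  He : ∀ z, q.H (-z) = q.H z
  Hρ : ∀ z a, q.Kk a ≠ 0 → q.H (z + a) ≤ q.ρ * q.H z
  H1 : q.kap * q.ρ ^ 2 * q.H2 0 ≤ q.m1 / 10 ^ 4
  H2 : q.H2 0 ≤ q.eps * E.η / 100
  H3 : ∀ z, 2 * q.H2 z ≤ q.gam
  hm : 5000 * q.m1 ≤ q.hb
  m0 : exp (-(q.P : ℝ) ^ 6) ≤ q.m1
  n0 : exp (-(q.P : ℝ) ^ 6) ≤ q.n4
  g0 : ∑ x, E.gt x ^ 2 ≤ q.n4 / (q.P : ℝ) ^ 30
  L0 : 0 < q.L
  L1 : q.L ≤ q.l
  L2 : 1600 * q.nu * E.CS * (1 + ((d * (2 * q.L) : ℕ) : ℝ) ^ 2 / (E.l0 : ℝ) ^ 2) ≤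
    1 / (q.P : ℝ) ^ 20

variable (c : Tor d M) (Z Sg : Finset (Tor d M))

/-- the standing hypotheses of the flow -/
structure PFH : Prop extends PFN E q where
  inv : PInv E (q.b1 E.η) S
  sel : PSel E q S
  hZ : Z ⊆ (S.good \ S.sig) ∩ bl c (5 * q.A E.η d)
  hSg : Sg ⊆ S.sig ∩ bl c (5 * q.A E.η d)
  cov : Cover E.toEnv S.omg
  st : ∃ r K κ ν1 ν, PSt E q S r K κ ν1 ν
  smk : SmK (fun x y => (2 * nm (x - y) : ℝ) / q.l) (E.ker S) (1 / 100)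
  unit : ∀ X ⊆ S.good, ∀ ω, IsUnit (cr E.H + Wx E S ω X).det
  ward : ∀ X ⊆ S.good, ∀ ω T u, E.η / 4 * nS (S.O \ X) (ap T (E.G S X ω) u) ^ 2 ≤
    nS T u * nS T (ap T (E.G S X ω) u)
  a1 : ∀ X ⊆ S.good, ∀ ω, ∀ x ∈ S.O \ X, |E.a S X ω x - 1| ≤ 1 / 10 ^ 8

/-- the state of the flow after the closing of `X` -/
noncomputable def coS (X : Finset (Tor d M)) (ω : Tor d M → Bool) (dh : Tor d M → ℝ) :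
    Co (Tor d M) :=
  ⟨E.G S X ω, Ax E S ω X, dh, E.a0 S, fun x y => q.Kk (x - y), fun x y => q.ρ ^ 2 * q.H2 (x - y),
    S.O \ X, Rw E q S c \ X, Z \ X, Sg, X, fun v => bl v (q.D E.η 2)⟩

/-- the system of the flow, for a reference form `N` and step data `au` -/
noncomputable def syOf (N : (Tor d M → ℝ) → (Tor d M → ℝ) → ℝ)
    (au : List (Tor d M × Bool) → Au (Tor d M)) : Sy (Tor d M) :=
  ⟨E.a0 S, fun x y => q.Kk (x - y), fun x y => q.ρ ^ 2 * q.H2 (x - y), S.O, Rw E q S c, Z, Sg,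
    fun v => bl v (q.D E.η 2), N, fun h => E.G S (hs h) (oh h), fun h => Ax E S (oh h) (hs h), au⟩

/-- the bounds of the monitors at one time -/
structure Bx (X : Finset (Tor d M)) (ω : Tor d M → Bool) (dh : Tor d M → ℝ) : Prop where
  d0 : ∀ x, 0 ≤ dh x
  pr : ∀ x ∈ Rw E q S c \ X, ∀ y ∈ Rw E q S c \ X, ‖E.Γ S X ω x y‖ ≤ q.H2 (x - y)
  aa : ∀ x ∈ Rw E q S c \ X, |E.a S X ω x - E.a0 S x| ≤ q.kap + 1 / (q.P : ℝ) ^ 5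
  zz : ∀ x ∈ Rw E q S c \ X, (coS E q S c Z Sg X ω dh).Zf q.m1 x ≤ 995 / 1000
  l4 : ∀ x ∈ Rw E q S c \ X, (coS E q S c Z Sg X ω dh).q4 (nqOf E q) Sg q.n4 x ≤ q.n4 / 20
  lJ : ∀ x ∈ Rw E q S c \ X, (coS E q S c Z Sg X ω dh).q4 (nqOf E q) (S.O \ X) q.nO x ≤
    q.nO + √(q.nO * q.n4) / 50 + q.n4 / 500
  nrm : OpLe Z (E.G S X ω) ((q.P : ℝ) ^ 40 / E.η)

/-- the facts at one time -/
structure FaS (X : Finset (Tor d M)) (ω : Tor d M → Bool) (τ : Au (Tor d M)) : Prop where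
  fy : ∀ dh, Bx E q S c Z Sg X ω dh → Fy (nqOf E q) (coS E q S c Z Sg X ω dh) τ
  sG : ∀ v ∈ Z \ X, ∀ b x y, E.G S (insert v X) (Function.update ω v b) x y =
    E.G S X ω x y - bf (τ.T v b) (E.G S X ω x) (E.G S X ω y)
  sa : ∀ v ∈ Z \ X, ∀ b x y, Ax E S (Function.update ω v b) (insert v X) x y =
    Ax E S ω X x y - sgn b * bf (τ.B v) (Ax E S ω X x) (Ax E S ω X y)
  sh : ∀ φ : Tor d M → ℝ, ∑ v ∈ Z \ X, ∑ u, τ.D2 v u * (φ u - φ v) ^ 2 ≤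
    Nm E.p φ / (q.P : ℝ) ^ 20

/-- decay after the closing of `X` -/
abbrev DecX (X : Finset (Tor d M)) (ω : Tor d M → Bool) : Prop :=
  Dec (E.G S X ω) S.O (q.Bi 2) (q.li E.η 2)

end defs

/-- a statement about all flows -/
def AllF (X : ∀ (d M : ℕ) [NeZero M], PEnv d M → PPar d M → St (Tor d M) → Tor d M →
    Finset (Tor d M) → Finset (Tor d M) → Prop) : Prop :=
  ∀ (d M : ℕ) [NeZero M] (E : PEnv d M) (q : PPar d M) (S : St (Tor d M)) (c : Tor d M)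
    (Z Sg : Finset (Tor d M)), PFH E q S c Z Sg → X d M E q S c Z Sg

/-- decay during the flow -/
def S_PDEC : Prop := AllF fun _ _ _ E q S _ Z _ => ∀ X ⊆ Z, ∀ ω,
  OpLe Z (E.G S X ω) ((q.P : ℝ) ^ 40 / E.η) → DecX E q S X ω

/-- rows far from the centre do not move -/
def S_PFAR : Prop := AllF fun _ _ _ E q S c Z _ => ∀ X ⊆ Z, ∀ ω, DecX E q S X ω →
  ∀ x ∈ S.O \ Rw E q S c, ∑ y ∈ S.O, ‖E.Γ S X ω x y - E.Γ0 S x y‖ ≤ exp (-(q.P : ℝ) ^ 7 / 4) ∧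
    |E.a S X ω x - E.a0 S x| ≤ exp (-(q.P : ℝ) ^ 7 / 4) ∧ ∑ z ∈ X, ‖E.G S X ω x z‖ ^ 2 ≤ 1

/-- far pairs in the change of the energy -/
def S_PFF : Prop := AllF fun d M _ E q S _ Z _ => ∃ κ : Tor d M → ℝ, (∀ h, 0 ≤ κ h) ∧
  (∀ F : Tor d M → ℝ, ∑ v, ∑ h, κ h * (F (v + h) - F v) ^ 2 ≤ 2 / (q.P : ℝ) ^ 3 * NF E.p F) ∧
  ∀ X ⊆ Z, ∀ v ∈ Z \ X, ∀ (ω : Tor d M → Bool) (τ : Bool) (F : Tor d M → ℝ), DecX E q S X ω →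
    DecX E q S (insert v X) ω →
    |En ((S.O \ X).erase v) (Kt E q S τ Z (insert v X) ω - Kt E q S τ Z X ω) F -
      En (Sv E q S X v) (Kt E q S τ Z (insert v X) ω - Kt E q S τ Z X ω) F| +
    ∑ x ∈ (S.O \ X).erase v \ Sv E q S X v, Kt E q S τ Z X ω x v * (F x - F v) ^ 2 ≤
      ∑ h, κ h * (F (v + h) - F v) ^ 2

/-- the comparison of the forms along a history -/
def S_PULH : Prop := AllF fun d M _ E q S c Z _ => ∀ h : List (Tor d M × Bool),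
  Bef (fun _ => True) h → hs h ⊆ Z → (∀ h', h' <:+ h → DecX E q S (hs h') (oh h')) →
  (∀ (τ : Bool) (φ : Tor d M → ℝ), (∀ x ∉ bl c (24 * d * q.A E.η d), φ x = 0) →
    Sh (fun h v b => Y5P E q S τ Z (hs h) (oh ((v, b) :: h)) v φ) h ≤ Nm E.p φ / (q.P : ℝ) ^ 4) →
  UL E.p (Kw (E.a0 S) (E.G S (hs h) (oh h))) (S.O \ hs h) (2 / 10 ^ 7)

/-- consequences of the identity of Ward -/
def S_PWD : Prop := AllF fun _ _ _ E q S _ Z _ => ∀ X ⊆ Z, ∀ ω,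
  (∀ x ∈ S.O \ X, ‖E.Γ S X ω x x‖ ≤ q.eps * E.η / 50) →
  OpLe (S.O \ X) (E.G S X ω) (2 / E.η) ∧
  (∀ x ∈ S.O \ X, ∑ y ∈ S.O \ X, ‖E.G S X ω x y‖ ^ 2 ≤ 1 + 1 / 10 ^ 6) ∧
  (∀ x ∈ S.O \ X, ‖E.G S X ω x x‖ ≤ 1 / 10 ^ 6) ∧
  (OpLe Z (E.G S X ω) ((q.P : ℝ) ^ 40 / E.η) → ∀ u,
    nS (S.O \ X) (ap Z (E.G S X ω) u) ≤ (q.P : ℝ) ^ 21 / E.η * nS Z u) ∧
  (DecX E q S X ω → (∀ x ∈ S.O \ X, |E.a S X ω x - E.a0 S x| ≤ q.kap + 1 / (q.P : ℝ) ^ 5) →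
    ∀ v ∈ Z \ X, |‖(cmn (E.ker S) (S.O \ X) (mix X ω (om S)) v)⁻¹‖ ^ 2 *
      ∑ x ∈ Sv E q S X v, E.a0 S x * ‖E.G S X ω x v‖ ^ 2 - E.a0 S v| ≤ q.eps)

/-- small quantities that come from the majorants -/
def S_PSM : Prop := AllF fun d M _ E q S _ Z _ => ∀ r K κ ν1 ν, PSt E q S r K κ ν1 ν →
  ∀ X ⊆ Z, ∀ ω D D2 mu, Stat r K κ ν1 ν (E.ker S) (S.O \ X) (mix X ω (om S)) D D2 mu →
  (∀ x ∈ S.O \ X, ∀ y ∈ S.O \ X, ‖Ax E S ω X x y‖ ≤ 1 / 10 ^ 7) ∧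
  (∀ x ∈ S.O \ X, ∑ y ∈ S.O \ X, ‖Ax E S ω X x y‖ ^ 2 ≤ 1 / 1000) ∧
  OpLe (S.O \ X) (Ax E S ω X) 1 ∧
  (∀ φ : Tor d M → ℝ, ∑ v, ∑ u, D2 v u * (φ u - φ v) ^ 2 ≤ Nm E.p φ / (q.P : ℝ) ^ 20) ∧
  (DecX E q S X ω → ∑ v ∈ Z \ X, ∑ y ∈ (S.O \ X) \ bl v (q.D E.η 2),
    no (DH D v) (E.G S X ω y) ^ 2 ≤ 1)

/-- the facts follow from the bounds and the comparison of the forms -/
def S_PFX : Prop := AllF fun _ _ _ E q S c Z Sg => ∀ X ⊆ Z, ∀ ω dh, Bx E q S c Z Sg X ω dh →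
  UL E.p (Kw (E.a0 S) (E.G S X ω)) (S.O \ X) (2 / 10 ^ 7) → ∃ τ, FaS E q S c Z Sg X ω τ

/-- the start of the flow -/
def S_PST : Prop := AllF fun _ _ _ E q S c Z Sg => ∀ N au, SB N → (∀ φ, φ ≠ 0 → 0 < N φ φ) →
  (∀ φ, N φ φ = Nm E.p φ) → (syOf E q S c Z Sg N au).St0 (nqOf E q)

/-- the flow succeeds -/
def S_PFL : Prop := AllF fun d M _ E q S c Z Sg =>
  pr (fun z : (Tor d M → Bool) × (Tor d M → Fin (⌈exp (3 * (q.P : ℝ) ^ 3)⌉₊ + 1)) =>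
    ¬ PFlow E q S c Z Sg z.1 (ky z.2)) ≤ exp (-2 * (q.P : ℝ) ^ 3)

theorem co_syOf (E : PEnv d M) (q : PPar d M) (S : St (Tor d M)) (c : Tor d M)
    (Z Sg : Finset (Tor d M)) (N : (Tor d M → ℝ) → (Tor d M → ℝ) → ℝ)
    (au : List (Tor d M × Bool) → Au (Tor d M)) (h : List (Tor d M × Bool)) :
    (syOf E q S c Z Sg N au).co h =
      coS E q S c Z Sg (hs h) (oh h) fun x => (syOf E q S c Z Sg N au).dh x h := rfl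

omit [NeZero M] in
theorem mix_congr {ι β : Type} [DecidableEq ι] {X : Finset ι} {ω ω' : ι → β}
    (h : ∀ x ∈ X, ω x = ω' x) (b : ι → β) : mix X ω b = mix X ω' b := funext fun x => by
  unfold mix; split_ifs with a; exacts [h x a, rfl]

omit [NeZero M] in
theorem mix_insert {ι β : Type} [DecidableEq ι] (X : Finset ι) (ω b : ι → β) (v : ι) (c : β) :
    mix (insert v X) (Function.update ω v c) b = Function.update (mix X ω b) v c :=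
  funext fun x => by
    by_cases e : x = v
    · simp [mix, e]
    · simp [mix, e]

variable {E : PEnv d M} {q : PPar d M} {S : St (Tor d M)} {c : Tor d M} {Z Sg : Finset (Tor d M)}

theorem G_congr {X : Finset (Tor d M)} {ω ω' : Tor d M → Bool} (h : ∀ x ∈ X, ω x = ω' x) :
    E.G S X ω = E.G S X ω' := by rw [PEnv.G, PEnv.G, mix_congr h]

theorem PFN.scl (h : PFN E q) : Scl E.toEnv q.P (q.li E.η 2) (q.D E.η 2) :=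
  ⟨h.hE, h.hq.P1, h.hq.li_one h.hE 2, h.hq.D_one h.hE 2, h.hq.l0_le_D h.hE 2,
    le_trans (Nat.cast_le.2 (card_le_card (ball_mono _
      ((h.hq.D_mono h.hE (show 2 ≤ 3 by norm_num)).trans (by omega)))))
      (t_far d M _ _ h.hE h.hq).1,
    ((t_far d M _ _ h.hE h.hq).2 2 (by norm_num)).1, far_two h.hE h.hq h.fin (by norm_num)⟩

namespace PFH

variable (h : PFH E q S c Z Sg)
include h

theorem Zg : Z ⊆ S.good := h.hZ.trans (inter_subset_left.trans sdiff_subset)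

theorem ZO : Z ⊆ S.O := h.Zg.trans S.good_sub

theorem G_symm (X : Finset (Tor d M)) (ω : Tor d M → Bool) (x y : Tor d M) :
    E.G S X ω x y = E.G S X ω y x := by
  have e : (cr E.H + Wx E S ω X)ᵀ = cr E.H + Wx E S ω X := by
    rw [Matrix.transpose_add, h.smk.kok.Ww_T]
    congr 1
    ext a b
    exact congrArg Complex.ofReal (h.hE.symm b a)
  have e2 : (E.G S X ω)ᵀ = E.G S X ω := by rw [G_eq, Matrix.transpose_nonsing_inv, e]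
  exact congrFun (congrFun e2 y) x

theorem a0 {x : Tor d M} (hx : x ∈ S.O) : |E.a0 S x - 1| ≤ 1 / 10 ^ 8 := by
  have := h.a1 ∅ (empty_subset _) (fun _ => true) x (by rwa [sdiff_empty])
  rwa [a_empty] at this

theorem disj : Disjoint Z Sg := disjoint_left.2 fun _ a b =>
  (mem_sdiff.1 (mem_inter.1 (h.hZ a)).1).2 (mem_inter.1 (h.hSg b)).1

theorem TR : Z ∪ Sg ⊆ Rw E q S c := fun x hx => by
  have : x ∈ S.good ∧ x ∈ bl c (5 * q.A E.η d) := (mem_union.1 hx).elim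
    (fun a => ⟨h.Zg a, (mem_inter.1 (h.hZ a)).2⟩)
    fun a => ⟨h.sel.sg (mem_inter.1 (h.hSg a)).1, (mem_inter.1 (h.hSg a)).2⟩
  exact mem_inter.2 ⟨S.good_sub this.1, ball_mono c (by omega) this.2⟩

end PFH

end Pool.Agent.P.MP_d0f69c_mp.XS.Pre
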