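import Pool.Agent.P.MP_d0f69c_mp.XS.PBas
import Pool.Agent.P.MP_d0f69c_mp.XS.PIfT

/-!
From the parameters of a round to the standing hypotheses of the flow.
-/

set_option autoImplicit false
set_option linter.unusedSectionVars false

open Finset Real
open scoped Matrix

namespace Pool.Agent.P.MP_d0f69c_mp.XS.Pre

variable {d M : ℕ} [NeZero M] {E : PEnv d M} {q : PPar d M}

namespace Br

variable (hE : E.OK) (hq : q.OK E)
include hE hq

theorem P9 : (10 : ℝ) ^ 9 ≤ q.P := hq.par.P9 hE.env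

theorem inv_le {a b : ℕ} (h : a ≤ b) : 1 / (q.P : ℝ) ^ b ≤ 1 / (q.P : ℝ) ^ a :=
  one_div_le_one_div_of_le (pow_pos (by linarith [P9 hE hq]) _)
    (pow_le_pow_right₀ (by linarith [P9 hE hq]) h)

theorem inv_eps {b : ℕ} (h : 4 ≤ b) : 1 / (q.P : ℝ) ^ b ≤ q.eps := by
  linarith [inv_le hE hq h, hq.ke, hq.k0]

theorem sM0 : 0 ≤ E.sM := by
  have : 0 ≤ q.δN := by unfold PPar.δN; split_ifs; exacts [mul_nonneg (by positivity) hq.m0.le, le_rfl]
  linarith [hq.s0, hq.s1]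

theorem H2_0 (z : Tor d M) : 0 ≤ q.H2 z := by
  have a : 0 ≤ q.δN := by unfold PPar.δN; split_ifs; exacts [mul_nonneg (by positivity) hq.m0.le, le_rfl]
  have b := hq.H0 z
  have c := hq.k0
  have e : 0 ≤ q.ρ := by linarith [hq.ρ1]
  have f : 0 ≤ q.hb := by linarith [hq.h2, hq.m0]
  unfold PPar.H2 PPar.H1
  positivity

theorem n4_0 : 0 < q.n4 := (exp_pos _).trans_le hq.n0

theorem nO_le : q.nO ≤ 1 / (q.P : ℝ) ^ 200 :=
  hq.n3.trans (div_le_div_of_nonneg_right (pow_le_one₀ hE.env.η0.le (hE.env.η1.trans (by norm_num)))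
    (by positivity))

theorem gam0 : 0 ≤ q.gam := by linarith [hq.Hg 0, H2_0 hE hq 0, hq.h2, hq.m0]

theorem gam_le : q.gam ≤ 1 / (q.P : ℝ) ^ 100 := by
  have P0 : (0 : ℝ) < q.P := by linarith [P9 hE hq]
  refine le_of_pow_le_pow_left₀ four_ne_zero (by positivity) ?_
  have := (le_div_iff₀ (pow_pos P0 200)).2 (hq.g1.trans (hq.n1.trans (nO_le hE hq)))
  exact this.trans_eq (by field_simp)

theorem exp_le : exp (-(q.P : ℝ) ^ 6) ≤ exp (-(q.P : ℝ)) :=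
  exp_le_exp.2 (neg_le_neg (le_self_pow₀ (by linarith [P9 hE hq]) (by norm_num)))

theorem m1_lo : exp (-(q.P : ℝ)) ≤ q.m1 := by
  have a : q.nO ≤ (q.P : ℝ) ^ 21 * q.nO := le_mul_of_one_le_left ((n4_0 hE hq).le.trans hq.n1)
    (one_le_pow₀ (by linarith [P9 hE hq]))
  refine le_of_sq_le_sq (le_trans ?_ (hq.n0.trans (hq.n1.trans (a.trans hq.m1)))) hq.m0.le
  rw [sq]
  exact mul_le_of_le_one_left (exp_pos _).le (exp_le_one_iff.2 (by linarith [P9 hE hq]))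

theorem nq : (nqOf E q).OK := by
  have η0 := hE.env.η0
  refine ⟨P9 hE hq, η0, hE.env.η1, hq.k0, ?_, Bas.e0 hE hq, hq.e1, hq.ν0, hq.ν1, ?_, ?_, hq.h1, ?_,
    hq.h3, n4_0 hE hq, hq.n1, hq.n2, hq.n3, hq.n4, gam0 hE hq,
    (gam_le hE hq).trans (inv_eps hE hq (by norm_num)), hq.g1, hq.g2, hq.m0, hq.m1⟩
  · show q.kap ≤ q.eps
    linarith [hq.ke, hq.k0, show 0 ≤ 1 / (q.P : ℝ) ^ 4 by positivity]
  · refine hq.ν1.trans ((inv_le hE hq (show 4 * 2 ≤ 100 by norm_num)).trans (le_trans (le_of_eq ?_)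
      (pow_le_pow_left₀ (by positivity) (inv_eps hE hq le_rfl) 2)))
    rw [div_pow, one_pow, pow_mul]
  · show 0 ≤ q.hb
    linarith [hq.h2, hq.m0]
  · exact hq.h1.trans ((div_eq_mul_one_div _ _).trans_le ((mul_comm _ _).trans_le
      (mul_le_mul_of_nonneg_right (inv_eps hE hq (by norm_num)) η0.le)))

theorem L_le : q.L ≤ q.l := by
  have := hE.env.d1
  nlinarith [hq.L2]

theorem pfn : PFN E q := by
  have P9 := P9 hE hq
  have P0 : (0 : ℝ) < q.P := by linarith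
  have p4 : 0 ≤ 1 / (q.P : ℝ) ^ 4 := by positivity
  refine ⟨hE.env, hq.par, hq.fin, nq hE hq, hq.K0, hq.Ks, hq.Kd, hq.K1,
    fun z hz => (hq.Kr z hz).trans (L_le hE hq), hq.KC, hq.C1, hq.C2, ?_, by linarith [hq.ke, hq.k0],
    ?_, hq.ρ1, hq.ρ2, hq.H0, hq.He, hq.Hk, hq.Hh2, hq.Hη2, hq.Hg2, by linarith [hq.h2, hq.m0],
    (exp_le hE hq).trans (m1_lo hE hq), (exp_le hE hq).trans hq.n0, hq.gt, ?_, L_le hE hq, ?_⟩
  · linarith [hq.θ, hq.par.θ0, show 0 ≤ 1 / (q.P : ℝ) ^ 3 by positivity]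
  · refine le_trans ?_ (inv_eps hE hq le_rfl)
    rw [div_le_div_iff₀ (by positivity) (by positivity), pow_succ _ 4]
    nlinarith [pow_pos P0 4]
  · exact_mod_cast (show (0 : ℝ) < q.L by linarith [hq.L1, hE.La])
  · have c1 := hE.env.ref.c1
    have b1 : E.CS ≤ q.P := by
      have : (1 : ℝ) ≤ (d : ℝ) ^ 2 := one_le_pow₀ (by exact_mod_cast hE.env.d1)
      nlinarith [hq.par.P1, mul_le_mul_of_nonneg_right this (sq_nonneg E.CS)]
    have b2 : ((d * (2 * q.L) : ℕ) : ℝ) ^ 2 / (E.l0 : ℝ) ^ 2 ≤ 4 * q.P := by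
      have : ((d * q.L : ℕ) : ℝ) ^ 2 ≤ q.P := by exact_mod_cast hq.L3
      refine (div_le_self (sq_nonneg _) (one_le_pow₀ (by exact_mod_cast hE.env.ref.l1))).trans ?_
      push_cast at this ⊢
      linarith
    calc _ ≤ 1600 * (1 / (q.P : ℝ) ^ 100) * q.P * (5 * q.P) := by
          gcongr
          · exact hq.ν1
          · linarith
      _ = 8000 / (q.P : ℝ) ^ 78 * (1 / (q.P : ℝ) ^ 20) := by field_simp; ring
      _ ≤ _ := mul_le_of_le_one_left (by positivity) ((div_le_one (by positivity)).2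
        (le_trans (by linarith) (le_self_pow₀ (by linarith) (by norm_num))))

theorem W_le {S : St (Tor d M)} (h : PInv E (q.b1 E.η) S) (x : Tor d M) : ‖S.W x‖ ≤ E.sM :=
  (h.sg x).trans hq.s1

/-- the static data -/
theorem pst {S : St (Tor d M)} (h : PInv E (q.b1 E.η) S) : ∃ r K κ ν1 ν, PSt E q S r K κ ν1 ν := by
  obtain ⟨K, κ, ν1, ν, KT, κ0, ν0, e0, hK, hs⟩ := hq.su _ (W_le hE hq h)
  obtain ⟨D, D2, mu, s⟩ := hs ∅ fun _ => true
  have s0 := sqrt_nonneg ν1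
  have k : ∀ v ∈ S.good, ∀ u ∈ S.O, K v u = 0 ∨ (10 * κ ≤ q.kap ∧ K v u ≤ q.Kk (u - v)) :=
    fun v hv u hu => hK v u (or_iff_not_imp_left.2 fun e => h.iso v hv u hu e)
  refine ⟨_, K, κ, ν1, ν, fun X _ ω => hs _ _, (hE.good _ (W_le hE hq h)).imb, fun x y => div_le_div_of_nonneg_right
    (by exact_mod_cast N1.nm_le _) (Nat.cast_nonneg _), fun v hv u hu => ?_, fun v hv u hu => ?_, ν0,
    le_of_sq_le_sq (by linarith [hq.e1]) (by norm_num), by linarith [sq_nonneg κ],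
    by linarith [sq_nonneg κ]⟩
  · rw [← Matrix.transpose_apply K v u, KT]
    rcases k v hv u hu with e | ⟨e1, e2⟩
    · rw [e, mul_zero]; exact mul_nonneg hq.k0 (hq.K0 _)
    · exact mul_le_mul e1 e2 (s.K0 v u) hq.k0
  · rw [← hq.Ks, neg_sub]
    rcases k v hv u hu with e | ⟨e1, e2⟩
    · rw [e, mul_zero]; exact mul_nonneg (sq_nonneg _) (hq.K0 _)
    · exact mul_le_mul (pow_le_pow_left₀ κ0.le (by linarith) 2) e2 (s.K0 v u) (sq_nonneg _)

end Br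

theorem pfh_of (hE : E.OK) (hq : q.OK E) {S : St (Tor d M)} {c : Tor d M} {Z Sg : Finset (Tor d M)}
    (h : PInv E (q.b1 E.η) S) (sel : PSel E q S)
    (hZ : Z ⊆ (S.good \ S.sig) ∩ bl c (5 * q.A E.η d)) (hS : Sg ⊆ S.sig ∩ bl c (5 * q.A E.η d)) :
    PFH E q S c Z Sg :=
  have W := Br.W_le hE hq h
  ⟨Br.pfn hE hq, h, sel, hZ, hS, h.oΩ ▸ hE.cov, Br.pst hE hq h, Bas.smk hE hq W,
    fun _ _ _ => Bas.unit hE hq W _ _, fun _ _ _ T u => Bas.ward hE hq W _ _ T u,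
    fun _ _ _ x _ => ((hE.good _ W).a1 _ _ x).trans (by norm_num)⟩

theorem t_pflow (h : S_PFL) : S_PFLOW := fun d M _ E q hE hq S c Z Sg a b hZ hS =>
  h d M E q S c Z Sg (pfh_of hE hq a b hZ hS)

end Pool.Agent.P.MP_d0f69c_mp.XS.Pre
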