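import Pool.Agent.P.MP_d0f69c_mp.XS.PIfA

/-!
The chain of the energies along a history, and the harmonic extension.
-/

set_option autoImplicit false
set_option linter.dupNamespace false

open Finset Real

namespace Pool.Agent.P.MP_d0f69c_mp.XS.Pre

namespace PCHA

variable {ι : Type} [DecidableEq ι]

theorem En_eraseK {S : Finset ι} {K : ι → ι → ℝ} (hK : ∀ x y, K x y = K y x) {v : ι} (hv : v ∈ S)
    (F : ι → ℝ) :
    En S K F = En (S.erase v) K F + ∑ x ∈ S.erase v, K x v * (F x - F v) ^ 2 := by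
  unfold En
  rw [← add_sum_erase S _ hv, ← add_sum_erase S _ hv]
  simp only [← add_sum_erase S (fun y => K _ y * (F _ - F y) ^ 2) hv, sum_add_distrib]
  have e : ∑ y ∈ S.erase v, K v y * (F v - F y) ^ 2 = ∑ x ∈ S.erase v, K x v * (F x - F v) ^ 2 :=
    sum_congr rfl fun x _ => by rw [hK v x]; ring
  rw [e]
  ring

omit [DecidableEq ι] in
theorem En_subK (S : Finset ι) (K K' : ι → ι → ℝ) (F : ι → ℝ) :
    En S (K - K') F = En S K F - En S K' F := by
  unfold En
  simp only [Pi.sub_apply, sub_mul, sum_sub_distrib]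
  ring

end PCHA

open PCHA in
theorem t_pch : S_PCH := by
  intro ι _ _ O K h hK hB hO
  induction h with
  | nil =>
    refine ⟨fun F => by simp [hs, Sh], fun S _ _ f => ⟨f, fun _ _ => rfl, fun z h' a => ?_⟩⟩
    simp at a
  | cons z h ih =>
    have hz := hB.head.1
    rw [hs_cons, insert_subset_iff] at hO
    obtain ⟨i1, i2⟩ := ih hB.tail hO.2
    refine ⟨fun F => ?_, fun S hS h0 f => ?_⟩
    · rw [Sh, sdiff_hs_cons, ← add_assoc, ← i1 F, En_subK,
        En_eraseK (K := K h) (hK h) (mem_sdiff.2 ⟨hO.1, hz⟩) F]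
      ring
    · obtain ⟨g, g1, g2⟩ := i2 S hS (fun w h' a => h0 w h' (a.trans (List.suffix_cons z h)))
        (Function.update f z.1 ((∑ x ∈ S h z.1, K h x z.1 * f x) / ∑ x ∈ S h z.1, K h x z.1))
      have g3 : ∀ x, x ≠ z.1 → x ∉ hs h → g x = f x := fun x a b => by
        rw [g1 x b, Function.update_of_ne a]
      refine ⟨g, fun x hx => ?_, fun w h' a => ?_⟩
      · rw [hs_cons, mem_insert, not_or] at hx
        exact g3 x hx.1 hx.2
      · rcases List.suffix_cons_iff.1 a with e | e
        · obtain ⟨rfl, rfl⟩ := List.cons.inj e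
          have b := h0 w h' List.suffix_rfl
          have c : ∑ x ∈ S h' w.1, K h' x w.1 * g x = ∑ x ∈ S h' w.1, K h' x w.1 * f x :=
            sum_congr rfl fun x hx => by
              have d := mem_erase.1 (hS h' w.1 hx)
              rw [g3 x d.1 (mem_sdiff.1 d.2).2]
          simp only [mul_sub, sum_sub_distrib, ← sum_mul]
          rw [c, g1 _ hz, Function.update_self, mul_div_cancel₀ _ b, sub_self]
        · exact g2 w h' e

end Pool.Agent.P.MP_d0f69c_mp.XS.Pre
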