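import Pool.Agent.P.MP_d0f69c_mp.XS.PDa

/-!
Consequences of the facts about a state of the preparatory flow, second part.
-/

set_option autoImplicit false
set_option linter.dupNamespace false
set_option linter.unusedSectionVars false

open Finset Real

namespace Pool.Agent.P.MP_d0f69c_mp.XS.Pre

namespace PDA

variable {ι : Type} [Fintype ι] [DecidableEq ι]
variable {q : Nq} {σ : Co ι} {τ : Au ι} (ok : q.OK) (F : Fy q σ τ)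

include ok F

omit ok in
theorem f1 (v : ι) (hv : v ∈ σ.rem) (x : ι) (hO : x ∈ σ.Op ∪ σ.X) (hx : x ≠ v) :
    τ.N v (σ.Pf τ v x) ≤ τ.Nh v (σ.Γ x) + τ.μ x v ∧
      τ.N v (σ.Pf τ v x) ≤ τ.Nh v (σ.G x) + q.κ * σ.Kk x v := by
  constructor
  · have e : σ.Pf τ v x = σ.Γ x + (σ.al x - τ.Pn v x) := funext fun u => by
      simp [Co.Pf, Co.Γ]
    rw [e]
    exact ((F.hn v hv).add _ _).trans (add_le_add (F.n2 v hv _) (F.p2 v hv x hO hx))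
  · exact (hn_sub (F.hn v hv) _ _).trans (add_le_add (F.n2 v hv _) (F.p1 v hv x hO hx))

theorem f0 (v : ι) (hv : v ∈ σ.rem) (x : ι) (hO : x ∈ σ.Op) (hx : x ≠ v) :
    τ.N v (σ.Pf τ v x) ^ 2 ≤ 2 * τ.Nh v (σ.G x) ^ 2 + 1 / 100 * σ.Kk x v := by
  have h1 := pow_le_pow_left₀ ((F.hn v hv).nn _) (f1 F v hv x (mem_union_left _ hO) hx).2 2
  have h2 := mul_le_mul ((κ_sq ok).trans (ε_sq ok)) (K_sq F x v) (sq_nonneg _) (by norm_num)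
  nlinarith [sq_nonneg (τ.Nh v (σ.G x) - q.κ * σ.Kk x v), F.K0 x v]

theorem f2 (v : ι) (hv : v ∈ σ.rem) : ∑ x ∈ σ.Op.erase v, τ.N v (σ.Pf τ v x) ^ 2 ≤ 5 / 2 := by
  refine (sum_le_sum fun x hx => f0 ok F v hv x (mem_erase.1 hx).2 (mem_erase.1 hx).1).trans ?_
  rw [sum_add_distrib, ← mul_sum, ← mul_sum]
  have h1 : ∑ x ∈ σ.Op.erase v, τ.Nh v (σ.G x) ^ 2 ≤ 6 / 5 :=
    (sum_le_sum_of_subset_of_nonneg (erase_subset _ _) fun _ _ _ => sq_nonneg _).trans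
      (nO ok F v hv)
  have h2 : ∑ x ∈ σ.Op.erase v, σ.Kk x v ≤ 1 := by
    rw [sum_congr rfl fun x _ => F.sK x v]
    exact (sum_le_sum_of_subset_of_nonneg (subset_univ _) fun x _ _ => F.K0 v x).trans (F.K1 v)
  linarith

theorem f3 (x : ι) (hx : x ∈ σ.Op) : ∑ v ∈ σ.rem.erase x, τ.N v (σ.Pf τ v x) ^ 2 ≤ 5 / 2 := by
  refine (sum_le_sum fun v hv =>
    f0 ok F v (mem_erase.1 hv).2 x hx (mem_erase.1 hv).1.symm).trans ?_
  rw [sum_add_distrib, ← mul_sum, ← mul_sum]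
  have h1 : ∑ v ∈ σ.rem.erase x, τ.Nh v (σ.G x) ^ 2 ≤ 21 / 20 * ∑ u ∈ σ.Op, ‖σ.G x u‖ ^ 2 :=
    (sum_le_sum_of_subset_of_nonneg (erase_subset _ _) fun _ _ _ => sq_nonneg _).trans
      (sv ok F _)
  have h2 : ∑ v ∈ σ.rem.erase x, σ.Kk x v ≤ 1 :=
    (sum_le_sum_of_subset_of_nonneg (subset_univ _) fun v _ _ => F.K0 x v).trans (F.K1 x)
  linarith [F.row x hx]

omit ok in
theorem zf (x : ι) (hx : x ∈ σ.Rw) : σ.dh x +
    (if x ∈ σ.rem ∪ σ.Sg then √(‖σ.Γ x x‖ ^ 2 + q.m1 ^ 2) / q.m1 else 0) ≤ 2000 := by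
  have h1 := F.zz x hx
  have h2 : 0 ≤ ∑ z ∈ σ.Op ∪ σ.X, σ.th z * ‖σ.G x z‖ ^ 2 := sum_nonneg fun z _ => by
    have := (kr F z).1
    refine mul_nonneg ?_ (sq_nonneg _)
    rw [Co.th, Co.ir]
    split_ifs <;> positivity
  rw [Co.Zf] at h1
  linarith

theorem mis (x : ι) (hx : x ∈ σ.rem ∪ σ.Sg) : ‖σ.Γ x x‖ ≤ 2000 * q.m1 := by
  have h1 := zf F x (union_subset F.rR F.gR hx)
  rw [if_pos hx] at h1
  have h2 : √(‖σ.Γ x x‖ ^ 2 + q.m1 ^ 2) / q.m1 ≤ 2000 := by linarith [F.d0 x]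
  rw [div_le_iff₀ ok.m0] at h2
  exact (Real.le_sqrt_of_sq_le (by linarith [sq_nonneg q.m1])).trans h2

theorem dh (x : ι) (hx : x ∈ σ.Rw) : σ.dh x ≤ 2000 := by
  have h1 := zf F x hx
  have := ok.m0
  have h2 : 0 ≤ if x ∈ σ.rem ∪ σ.Sg then √(‖σ.Γ x x‖ ^ 2 + q.m1 ^ 2) / q.m1 else 0 := by
    split_ifs <;> positivity
  linarith

omit ok in
theorem split {v : ι} (hv : v ∈ σ.rem) (h g : ι → ℂ) : ∑ y ∈ σ.Sv v, h y • σ.G y =
    ∑ y ∈ σ.Op, g y • σ.G y - g v • σ.G v - ∑ y ∈ σ.Op \ σ.Bl v, g y • σ.G y +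
      ∑ y ∈ σ.Sv v, (h y - g y) • σ.G y := by
  rw [← sum_inter_add_sum_sdiff σ.Op (σ.Bl v), ← add_sum_erase _ _ (mem_inter.2 ⟨rO F hv, F.Bv v⟩)]
  simp only [sub_smul, sum_sub_distrib, Co.Sv]
  abel

theorem vec (h : ι → ι → ℂ) (g : ι → ℂ) (e : ι → ℝ)
    (h1 : ∀ v ∈ σ.rem, ∀ y ∈ σ.Sv v, ‖h v y - g y‖ ≤ σ.Kk y v * e y) (h2 : ∀ y ∈ σ.Op, ‖g y‖ ≤ e y) :
    ∑ v ∈ σ.rem, τ.Nh v (∑ y ∈ σ.Sv v, h v y • σ.G y) ^ 2 ≤ 40 / q.η ^ 2 * ∑ y ∈ σ.Op, e y ^ 2 := by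
  have hh : ∀ v, HN (τ.Nh v) := fun v => hn_no (Dh0 F v)
  have hg : ∀ y ∈ σ.Op, ‖g y‖ ^ 2 ≤ e y ^ 2 := fun y hy =>
    pow_le_pow_left₀ (norm_nonneg _) (h2 y hy) 2
  have hE : ∑ y ∈ σ.Op, ‖g y‖ ^ 2 ≤ ∑ y ∈ σ.Op, e y ^ 2 := sum_le_sum hg
  have E0 : 0 ≤ ∑ y ∈ σ.Op, e y ^ 2 := sum_nonneg fun _ _ => sq_nonneg _
  have hS : ∀ v, σ.Sv v ⊆ σ.Op := fun v => (erase_subset _ _).trans inter_subset_left
  have key : ∀ v ∈ σ.rem, τ.Nh v (∑ y ∈ σ.Sv v, h v y • σ.G y) ^ 2 ≤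
      4 * (τ.Nh v (∑ y ∈ σ.Op, g y • σ.G y) ^ 2 + e v ^ 2 +
        (∑ y ∈ σ.Op, e y ^ 2) * ∑ y ∈ σ.Op \ σ.Bl v, τ.Nh v (σ.G y) ^ 2 +
        6 / 5 * ∑ y ∈ σ.Op, σ.Kk y v * e y ^ 2) := fun v hv => by
    have n := hh v
    have a0 := n.nn (∑ y ∈ σ.Sv v, h v y • σ.G y)
    have a1 : τ.Nh v (∑ y ∈ σ.Sv v, h v y • σ.G y) ≤ τ.Nh v (∑ y ∈ σ.Op, g y • σ.G y) +
        τ.Nh v (g v • σ.G v) + τ.Nh v (∑ y ∈ σ.Op \ σ.Bl v, g y • σ.G y) +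
        τ.Nh v (∑ y ∈ σ.Sv v, (h v y - g y) • σ.G y) := by
      rw [split F hv (h v) g]
      exact (n.add _ _).trans (add_le_add_left ((hn_sub n _ _).trans
        (add_le_add_left (hn_sub n _ _) _)) _)
    have b : τ.Nh v (g v • σ.G v) ^ 2 ≤ e v ^ 2 := by
      rw [n.smul, mul_pow]
      refine (mul_le_of_le_one_right (sq_nonneg _) (pow_le_one₀ (n.nn _) ?_)).trans
        (hg v (rO F hv))
      exact (vv ok F v hv).trans (by norm_num)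
    have c : τ.Nh v (∑ y ∈ σ.Op \ σ.Bl v, g y • σ.G y) ^ 2 ≤
        (∑ y ∈ σ.Op, e y ^ 2) * ∑ y ∈ σ.Op \ σ.Bl v, τ.Nh v (σ.G y) ^ 2 := by
      refine (pow_le_pow_left₀ (n.nn _) (hn_sum n _ _ _) 2).trans
        ((sum_mul_sq_le_sq_mul_sq _ _ _).trans (mul_le_mul_of_nonneg_right ?_
          (sum_nonneg fun _ _ => sq_nonneg _)))
      exact (sum_le_sum_of_subset_of_nonneg sdiff_subset fun _ _ _ => sq_nonneg _).trans hE
    have d : τ.Nh v (∑ y ∈ σ.Sv v, (h v y - g y) • σ.G y) ^ 2 ≤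
        (∑ y ∈ σ.Op, σ.Kk y v * e y ^ 2) * (6 / 5) := by
      refine (pow_le_pow_left₀ (n.nn _) (hn_sum n _ _ _) 2).trans
        ((sum_mul_sq_le_sq_mul_sq _ _ _).trans (mul_le_mul ?_ ?_
          (sum_nonneg fun _ _ => sq_nonneg _)
          (sum_nonneg fun y _ => mul_nonneg (F.K0 y v) (sq_nonneg _))))
      · refine le_trans (sum_le_sum fun y hy => ?_) (sum_le_sum_of_subset_of_nonneg (hS v)
          fun y _ _ => mul_nonneg (F.K0 y v) (sq_nonneg _))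
        refine (pow_le_pow_left₀ (norm_nonneg _) (h1 v hv y hy) 2).trans ?_
        rw [mul_pow]
        exact mul_le_mul_of_nonneg_right (K_sq F y v) (sq_nonneg _)
      · exact (sum_le_sum_of_subset_of_nonneg (hS v) fun _ _ _ => sq_nonneg _).trans (nO ok F v hv)
    have a2 := pow_le_pow_left₀ a0 a1 2
    generalize τ.Nh v (∑ y ∈ σ.Op, g y • σ.G y) = A at *
    generalize τ.Nh v (g v • σ.G v) = B at *
    generalize τ.Nh v (∑ y ∈ σ.Op \ σ.Bl v, g y • σ.G y) = C at *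
    generalize τ.Nh v (∑ y ∈ σ.Sv v, (h v y - g y) • σ.G y) = D at *
    nlinarith [sq_nonneg (A - B), sq_nonneg (A - C), sq_nonneg (A - D), sq_nonneg (B - C),
      sq_nonneg (B - D), sq_nonneg (C - D)]
  refine (sum_le_sum key).trans ?_
  rw [← mul_sum, sum_add_distrib, sum_add_distrib, sum_add_distrib, ← mul_sum, ← mul_sum]
  have s1 : ∑ v ∈ σ.rem, τ.Nh v (∑ y ∈ σ.Op, g y • σ.G y) ^ 2 ≤
      21 / 20 * ((2 / q.η) ^ 2 * ∑ y ∈ σ.Op, e y ^ 2) := by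
    refine (sv ok F _).trans (mul_le_mul_of_nonneg_left ?_ (by norm_num))
    have := pow_le_pow_left₀ (nS_nonneg _ _) (F.op g) 2
    rw [mul_pow, nS_sq, nS_sq] at this
    refine le_of_eq_of_le (sum_congr rfl fun u _ => ?_)
      (this.trans (mul_le_mul_of_nonneg_left hE (sq_nonneg _)))
    simp only [ap, Finset.sum_apply, Pi.smul_apply, smul_eq_mul]
    rw [sum_congr rfl fun y _ => by rw [F.sG y u, mul_comm]]
  have s2 : ∑ v ∈ σ.rem, e v ^ 2 ≤ ∑ y ∈ σ.Op, e y ^ 2 :=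
    sum_le_sum_of_subset_of_nonneg (fun _ hv => rO F hv) fun _ _ _ => sq_nonneg _
  have s3 := mul_le_mul_of_nonneg_left F.far E0
  have s4 : ∑ v ∈ σ.rem, ∑ y ∈ σ.Op, σ.Kk y v * e y ^ 2 ≤ ∑ y ∈ σ.Op, e y ^ 2 := by
    rw [sum_comm]
    refine sum_le_sum fun y _ => ?_
    rw [← sum_mul]
    exact mul_le_of_le_one_left (sq_nonneg _) (kr F y).2
  have s5 : 1 ≤ 1 / q.η ^ 2 := by
    rw [le_div_iff₀ (pow_pos ok.η0 2)]
    nlinarith [ok.η0, ok.η1]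
  have s6 := mul_le_mul_of_nonneg_right s5 E0
  have e1 : (2 / q.η) ^ 2 = 4 * (1 / q.η ^ 2) := by ring
  have e2 : 40 / q.η ^ 2 = 40 * (1 / q.η ^ 2) := by ring
  rw [e1] at s1
  rw [e2]
  nlinarith

end PDA

open PDA in
theorem t_pd : S_PD := fun _ _ _ _ _ _ ok F =>
  { hh := fun v => hn_no (Dh0 F v)
    hd := fun v => hn_no (F.D0 v)
    sq := PDA.sq F
    kr := kr F
    Dr := Dr ok F
    Dc := Dc ok F
    sv := sv ok F
    cO := cO ok F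
    cX := cX ok F
    nO := nO ok F
    nX := nX ok F
    vv := vv ok F
    gs := gs ok F
    us := us ok F
    Γ1 := Γ1 ok F
    Γ2 := Γ2 ok F
    Γ3 := Γ3 ok F
    Γ4 := Γ4 ok F
    f1 := f1 F
    f2 := f2 ok F
    f3 := f3 ok F
    mis := mis ok F
    dh := dh ok F
    vec := vec ok F }

end Pool.Agent.P.MP_d0f69c_mp.XS.Pre
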