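import Pool.Agent.P.MP_d0f69c_mp.XS.PIfG

/-!
Decay of the global closing flow of the preparation stage and of its proxies at all times.
-/

set_option autoImplicit false

open Finset Real
open scoped Matrix

namespace Pool.Agent.P.MP_d0f69c_mp.XS.Pre

namespace PG1A

section generic

variable {ι : Type} [DecidableEq ι]

theorem cut {O A B : Finset ι} (hA : A ⊆ O) (hB : B ⊆ O) {G : ι → ι → ℂ} {c : ℝ} (hc : 0 ≤ c)
    (h : ∀ u, nS A (ap B G u) ≤ c * nS B u) :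
    OpLe O (fun x y => if x ∈ A ∧ y ∈ B then G x y else 0) c := fun u => by
  have e : ap O (fun x y => if x ∈ A ∧ y ∈ B then G x y else 0) u =
      fun x => if x ∈ A then ap B G u x else 0 := funext fun x => by
    by_cases hx : x ∈ A <;> simp [ap, hx, inter_eq_right.2 hB]
  rw [e, nS_ite, inter_eq_right.2 hA]
  exact (h u).trans (mul_le_mul_of_nonneg_left (nS_mono hB u) hc)

theorem wd1 {N n b c : ℝ} (hN : 0 ≤ N) (hn : 0 ≤ n) (hb : 0 ≤ b) (h2 : 1 ≤ c * b)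
    (w : c * N ^ 2 ≤ n * N) : N ≤ b * n := by
  rcases hN.eq_or_lt with a | a
  · rw [← a]; positivity
  refine le_of_mul_le_mul_right ?_ a
  nlinarith [mul_le_mul_of_nonneg_left w hb, mul_le_mul_of_nonneg_right h2 (sq_nonneg N)]

variable [Fintype ι]

theorem blocks {O X : Finset ι} (hX : X ⊆ O) {G : ι → ι → ℂ} (sy : ∀ x y, G x y = G y x)
    {a b c : ℝ} (ha : 0 ≤ a) (hb : 0 ≤ b) (hc : 0 < c) (h1 : a ≤ c * b ^ 2) (h2 : 1 ≤ c * b)
    (hG : OpLe X G a)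
    (w : ∀ T u, c * nS (O \ X) (ap T G u) ^ 2 ≤ nS T u * nS T (ap T G u)) :
    OpLe O G (a + b + b + b) := by
  have k1 := cut hX hX ha hG
  have k2 := cut (G := G) sdiff_subset hX hb fun u => by
    have n0 := nS_nonneg X u
    refine le_of_sq_le_sq (le_of_mul_le_mul_left ((w X u).trans
      ((mul_le_mul_of_nonneg_left (hG u) n0).trans ?_)) hc) (mul_nonneg hb n0)
    nlinarith [mul_le_mul_of_nonneg_right h1 (sq_nonneg (nS X u))]
  have k3 := opLe_tr k2 hb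
  have k4 := cut (O := O) (G := G) sdiff_subset sdiff_subset hb fun u =>
    wd1 (nS_nonneg _ _) (nS_nonneg _ _) hb h2 (w (O \ X) u)
  refine (((k1.add k2).add k3).add k4).congr fun x hx y hy => ?_
  by_cases a : x ∈ X <;> by_cases b : y ∈ X <;> simp [a, b, hx, hy, sy y x]

omit [DecidableEq ι] in
theorem apO {O : Finset ι} {Δ : Matrix ι ι ℂ} (z : ∀ x y, x ∉ O ∨ y ∉ O → Δ x y = 0)
    (u : ι → ℂ) : ap O Δ u = Δ *ᵥ u := funext fun x =>
  sum_subset (subset_univ O) fun y _ hy => by rw [z x y (Or.inr hy), zero_mul]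

omit [DecidableEq ι] in
theorem apO2 {O : Finset ι} {Δ : Matrix ι ι ℂ} (z : ∀ x y, x ∉ O ∨ y ∉ O → Δ x y = 0)
    (G : Matrix ι ι ℂ) (u : ι → ℂ) : ap O G (ap O Δ u) = (G * Δ) *ᵥ u := by
  rw [← Matrix.mulVec_mulVec, ← apO z]
  exact funext fun x => sum_subset (subset_univ O) fun y _ hy => by
    exact mul_eq_zero_of_right _ (sum_eq_zero fun w _ => by rw [z y w (Or.inl hy), zero_mul])

omit [DecidableEq ι] in
theorem loc0 {O : Finset ι} {G G' Δ : Matrix ι ι ℂ} (id : G' = G - G' * Δ * G)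
    (z : ∀ x y, x ∉ O ∨ y ∉ O → Δ x y = 0) {Λ c : ℝ} (h0 : 0 ≤ Λ) (hG : OpLe O G' Λ)
    (hΔ : OpLe O Δ c) (u : ι → ℂ) :
    nS O u ≤ (1 + Λ * c) * nS O (u + ap O G (ap O Δ u)) := by
  set w := u + ap O G (ap O Δ u) with hw
  have e : u = w - ap O G' (ap O Δ w) := by
    have e1 : G' * Δ * (G * Δ) = G * Δ - G' * Δ := by
      conv_rhs => rw [id]
      rw [← Matrix.sub_mul, sub_sub_cancel, Matrix.mul_assoc _ G]
    rw [apO2 z G' w, hw, apO2 z G u, Matrix.mulVec_add, Matrix.mulVec_mulVec, e1, Matrix.sub_mulVec]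
    abel
  have h1 := nS_sub O w (ap O G' (ap O Δ w))
  rw [← e] at h1
  linarith [(hG _).trans (mul_le_mul_of_nonneg_left (hΔ w) h0)]

omit [DecidableEq ι] in
theorem vec {r : ι → ι → ℝ} {Λ : Finset ι} {D : Matrix ι ι ℂ} {c : ℝ} (h : WL r Λ D c) (hr : PM r)
    (hc : 0 ≤ c) {p : ι} {s s' : ℝ} (hs : ∀ z ∉ Λ, s ≤ r z p) {u : ι → ℂ}
    (hu : ∀ y, u y ≠ 0 → r y p ≤ s') : nS univ (D *ᵥ u) ≤ c * exp (s' - s) * nS univ u := by
  have := h (fun _ => 0) (fun y => r y p - s) (fun x y => by simpa using hr.nonneg x y)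
    (fun x y => by linarith [hr.tri x y p]) (fun z hz => by linarith [hs z hz])
    fun y => (exp (r y p - s) : ℝ) * u y
  rw [mul_assoc]
  refine le_trans (le_of_eq (nS_congr fun x _ => sum_congr rfl fun y _ => ?_)) (this.trans
    (mul_le_mul_of_nonneg_left (nS_le_mul (exp_pos _).le fun y _ => ?_) hc))
  · rw [cj2, mul_mul_mul_comm, ← Complex.ofReal_mul, ← exp_add]
    simp
  · by_cases a : u y = 0
    · simp [a]
    rw [norm_mul, Complex.norm_real, Real.norm_of_nonneg (exp_pos _).le]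
    exact mul_le_mul_of_nonneg_right (exp_le_exp.2 (by linarith [hu y a])) (norm_nonneg _)

end generic

variable {d M : ℕ} [NeZero M] {E : PEnv d M} {q : PPar d M} {S : St (Tor d M)}
  {J : Finset (Tor d M)} {ω : Tor d M → Bool} {κ : Tor d M → ℕ}

theorem zero (h : PGH E q S J ω κ) {X X' : Finset (Tor d M)} (hX : X ⊆ S.good) (hX' : X' ⊆ S.good)
    (x y : Tor d M) (hxy : x ∉ S.O ∨ y ∉ S.O) : (Wx E S ω X - Wx E S ω X') x y = 0 := by
  have k : ∀ Y ⊆ S.good, ∀ v ∉ S.O, v ∉ S.O \ Y ∧ mix Y ω (om S) v = om S v := fun Y hY v hv =>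
    ⟨fun a => hv (mem_sdiff.1 a).1, if_neg fun a => hv (S.good_sub (hY a))⟩
  rw [Matrix.sub_apply, sub_eq_zero]
  rcases hxy with a | a
  · refine (h.smk.kok.Ww_row _ _ (k X hX x a).1 y).trans
      (Eq.trans ?_ (h.smk.kok.Ww_row _ _ (k X' hX' x a).1 y).symm)
    rw [(k X hX x a).2, (k X' hX' x a).2]
  · refine (h.smk.kok.Ww_col _ _ (k X hX y a).1 x).trans
      (Eq.trans ?_ (h.smk.kok.Ww_col _ _ (k X' hX' y a).1 x).symm)
    rw [(k X hX y a).2, (k X' hX' y a).2]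

theorem wl (h : PGH E q S J ω κ) {Λ X X' : Finset (Tor d M)} (e : ∀ z ∈ Λ, z ∈ X' ↔ z ∈ X) :
    WL (fun x y => (2 * nm (x - y) : ℝ) / q.l) Λ (Wx E S ω X - Wx E S ω X') (11 / 5) :=
  (h.smk.lWw (agr e)).mono (by norm_num)

theorem wn (h : PGH E q S J ω κ) (X X' : Finset (Tor d M)) :
    WN (fun x y => (2 * nm (x - y) : ℝ) / q.l) (Wx E S ω X - Wx E S ω X') (11 / 5) :=
  (wl h (Λ := ∅) fun _ a => absurd a (notMem_empty _)).wn

theorem opΔ (h : PGH E q S J ω κ) (X X' : Finset (Tor d M)) :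
    OpLe S.O (Wx E S ω X - Wx E S ω X') (11 / 5) := ((wn h X X').opLe h.smk.pm).sub (subset_univ _)

theorem op0 (h : PGH E q S J ω κ) : OpLe S.O (E.G S ∅ ω) (4 / E.η) := fun u => by
  have η0 := h.hE.η0
  have := h.ward ∅ (empty_subset _) S.O u
  rw [sdiff_empty] at this
  exact wd1 (nS_nonneg _ _) (nS_nonneg _ _) (by positivity) (le_of_eq (by field_simp)) this

theorem big (h : PGH E q S J ω κ) : (10 : ℝ) ^ 9 ≤ (q.P : ℝ) ^ 40 :=
  (h.hq.P9 h.hE).trans (le_self_pow₀ (h.hq.Pone h.hE) (by norm_num))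

theorem lam (h : PGH E q S J ω κ) : 1000 ≤ (q.P : ℝ) ^ 40 / E.η := by
  rw [le_div_iff₀ h.hE.η0]
  linarith [big h, h.hE.η1]

theorem opp (h : PGH E q S J ω κ) (p : Tor d M) (t : ℕ) :
    OpLe S.O (E.G S (pre κ (Zq E q S J p) t) ω) (1003 / 1000 * ((q.P : ℝ) ^ 40 / E.η)) := by
  have hX : pre κ (Zq E q S J p) t ⊆ S.good := (pre_sub t).trans (Zq_sub p)
  have η0 := h.hE.η0
  have l := lam h
  have b := big h
  have e : E.η / 4 * ((q.P : ℝ) ^ 40 / E.η / 1000) = (q.P : ℝ) ^ 40 / 4000 := by field_simp; ring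
  refine (blocks (a := (q.P : ℝ) ^ 40 / E.η) (b := (q.P : ℝ) ^ 40 / E.η / 1000)
    (hX.trans S.good_sub) (h.G_symm _) (by positivity) (by positivity) (by positivity) ?_ ?_ ?_
    (h.ward _ hX)).mono (le_of_eq (by ring))
  · rw [sq, ← mul_assoc, e]
    nlinarith
  · rw [e]; linarith
  rcases h.flow p with a | a
  · intro u
    rw [Zq_empty a]
    simp [nS, pre]
  · exact (a.nrm t).sub (pre_sub t)

theorem add_eq (X : Finset (Tor d M)) :
    cr E.H + Wx E S ω ∅ + (Wx E S ω X - Wx E S ω ∅) = cr E.H + Wx E S ω X := by abel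

theorem locp (h : PGH E q S J ω κ) (p : Tor d M) (t : ℕ) (u : Tor d M → ℂ) :
    nS S.O u ≤ 221 / 100 * ((q.P : ℝ) ^ 40 / E.η) * nS S.O (u + ap S.O (E.G S ∅ ω)
      (ap S.O (Wx E S ω (pre κ (Zq E q S J p) t) - Wx E S ω ∅) u)) := by
  have hX : pre κ (Zq E q S J p) t ⊆ S.good := (pre_sub t).trans (Zq_sub p)
  have l := lam h
  have e := inv_add_eq' (h.unit ∅ (empty_subset _))
    ((add_eq (pre κ (Zq E q S J p) t)).symm ▸ h.unit _ hX)
  rw [add_eq] at e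
  exact (loc0 (G := E.G S ∅ ω) e (zero h hX (empty_subset _)) (by positivity) (opp h p t)
    (opΔ h _ _) u).trans (mul_le_mul_of_nonneg_right (by linarith) (nS_nonneg _ _))

theorem small (h : PGH E q S J ω κ) :
    221 / 100 * ((q.P : ℝ) ^ 40 / E.η) * (4 / E.η * (11 / 5 * exp (-(8 * (q.P : ℝ) ^ 8)))) ≤ 1 / 4 := by
  have hP := h.hq.Ppos h.hE
  have η0 := h.hE.η0
  have a0 := Par.OK.P_le_exp q.toPar
  have a1 := pow_le_pow_left₀ hP.le a0 40
  have a2 := pow_le_pow_left₀ (by positivity) (h.hq.inv_η h.hE) 2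
  have a3 : 80 ≤ exp (q.P : ℝ) := by linarith [h.hq.P9 h.hE]
  have a4 := mul_le_mul_of_nonneg_right (mul_le_mul a3 (mul_le_mul a1 a2 (by positivity)
    (by positivity)) (by positivity) (by positivity)) (exp_pos (-(8 * (q.P : ℝ) ^ 8))).le
  have a5 : exp (q.P : ℝ) * (exp (q.P : ℝ) ^ 40 * exp (q.P : ℝ) ^ 2) *
      exp (-(8 * (q.P : ℝ) ^ 8)) ≤ 1 := by
    rw [← exp_nat_mul, ← exp_nat_mul, ← exp_add, ← exp_add, ← exp_add, exp_le_one_iff]
    have := h.hq.pow_lt h.hE (a := 1) (b := 8) (c := 43) (by norm_num) (by norm_num)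
    push_cast
    linarith [pow_pos hP 8]
  have a6 : 0 ≤ (q.P : ℝ) ^ 40 * (1 / E.η) ^ 2 * exp (-(8 * (q.P : ℝ) ^ 8)) := by positivity
  calc _ = 19448 / 1000 * ((q.P : ℝ) ^ 40 * (1 / E.η) ^ 2 * exp (-(8 * (q.P : ℝ) ^ 8))) := by ring
    _ ≤ _ := by linarith

theorem locg (h : PGH E q S J ω κ) (p : Tor d M) (t : ℕ) (u : Tor d M → ℂ)
    (hu : ∀ x ∉ S.O ∩ bl p (q.D E.η 2), u x = 0) :
    nS S.O u ≤ 3 * (q.P : ℝ) ^ 40 / E.η * nS S.O (u + ap S.O (E.G S ∅ ω)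
      (ap S.O (Wx E S ω (pre κ (Zg S J) t) - Wx E S ω ∅) u)) := by
  have hX : pre κ (Zg S J) t ⊆ S.good := (pre_sub t).trans (Zg_sub S J)
  have hX' : pre κ (Zq E q S J p) t ⊆ S.good := (pre_sub t).trans (Zq_sub p)
  have η0 := h.hE.η0
  have l := lam h
  have l0 : (0 : ℝ) < q.l := by exact_mod_cast h.hq.l_one h.hE
  set D := Wx E S ω (pre κ (Zg S J) t) - Wx E S ω (pre κ (Zq E q S J p) t) with hD
  have k1 : nS S.O (ap S.O D u) ≤ 11 / 5 * exp (-(8 * (q.P : ℝ) ^ 8)) * nS S.O u := by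
    have a := vec (wl h (Λ := bl p (5 * q.A E.η d)) (X := pre κ (Zg S J) t)
      (X' := pre κ (Zq E q S J p) t) fun z hz => by rw [pre_inter, mem_inter, and_iff_left hz])
      h.smk.pm (by norm_num) (p := p) (s := 10 * q.D E.η 2 / q.l) (s' := 2 * q.D E.η 2 / q.l)
      (u := u) (fun z hz => div_le_div_of_nonneg_right (by
        have := mt mem_bl.2 hz
        have := Par.OK.D_le_A (q := q.toPar) h.hE
        exact_mod_cast (by omega : 10 * q.D E.η 2 ≤ 2 * nm (z - p))) l0.le)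
      fun y hy => div_le_div_of_nonneg_right (by
        have := mem_bl.1 (mem_inter.1 (not_not.1 (mt (hu y) hy))).2
        exact_mod_cast (by omega : 2 * nm (y - p) ≤ 2 * q.D E.η 2)) l0.le
    rw [nS_supp (subset_univ S.O) (u := u) fun x _ hx => hu x fun b => hx (mem_inter.1 b).1] at a
    rw [apO (zero h hX hX')]
    refine ((nS_mono (subset_univ _) _).trans a).trans (mul_le_mul_of_nonneg_right
      (mul_le_mul_of_nonneg_left (exp_le_exp.2 ?_) (by norm_num)) (nS_nonneg _ _))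
    have b : (q.P : ℝ) ^ 8 * q.l ≤ q.D E.η 2 := by
      exact_mod_cast Nat.mul_le_mul_left (q.P ^ 8) (h.hq.l_le_li h.hE 2)
    rw [← sub_div, div_le_iff₀ l0]
    linarith
  have e : u + ap S.O (E.G S ∅ ω) (ap S.O (Wx E S ω (pre κ (Zq E q S J p) t) - Wx E S ω ∅) u) =
      u + ap S.O (E.G S ∅ ω) (ap S.O (Wx E S ω (pre κ (Zg S J) t) - Wx E S ω ∅) u) -
        ap S.O (E.G S ∅ ω) (ap S.O D u) := by
    rw [← sub_add_sub_cancel (Wx E S ω (pre κ (Zg S J) t)) (Wx E S ω (pre κ (Zq E q S J p) t)),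
      ← hD, show ∀ A B : Matrix (Tor d M) (Tor d M) ℂ, ap S.O (A + B) u = _ from
        fun A B => ap_add S.O A B u, ap_add' S.O (E.G S ∅ ω) (ap S.O D u) _]
    abel
  have k2 := locp h p t u
  rw [e] at k2
  have k3 := k2.trans (mul_le_mul_of_nonneg_left ((nS_sub _ _ _).trans (add_le_add le_rfl
    ((op0 h _).trans (mul_le_mul_of_nonneg_left k1 (by positivity))))) (by positivity))
  have k4 := mul_le_mul_of_nonneg_right (small h) (nS_nonneg S.O u)
  have k5 := mul_nonneg (by positivity : 0 ≤ (q.P : ℝ) ^ 40 / E.η) (nS_nonneg S.O (u + ap S.O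
    (E.G S ∅ ω) (ap S.O (Wx E S ω (pre κ (Zg S J) t) - Wx E S ω ∅) u)))
  rw [mul_div_assoc]
  linarith

theorem ct (h : PGH E q S J ω κ) {X : Finset (Tor d M)} (hX : X ⊆ S.good)
    (hl : ∀ (p : Tor d M) (u : Tor d M → ℂ), (∀ x ∉ S.O ∩ bl p (q.D E.η 2), u x = 0) →
      nS S.O u ≤ 3 * (q.P : ℝ) ^ 40 / E.η *
        nS S.O (u + ap S.O (E.G S ∅ ω) (ap S.O (Wx E S ω X - Wx E S ω ∅) u))) :
    Dec (E.G S X ω) S.O (q.Bi 2) (q.li E.η 2) := by
  have l0 : (0 : ℝ) < q.l := by exact_mod_cast h.hq.l_one h.hE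
  refine ct_mat (Δ := Wx E S ω X - Wx E S ω ∅) h.hE h.hq (i := 1) (by norm_num) subset_rfl
    (h.G_symm ∅) (fun x _ y => ?_)
    ((op0 h).mono (div_le_div_of_nonneg_right (by norm_num) h.hE.η0.le))
    (by rw [G_empty]; exact h.inv.dec) ((opΔ h _ _).mono (by norm_num)) (fun y _ w => ?_) hl
  · have e := inv_add_eq (h.unit ∅ (empty_subset _)) ((add_eq X).symm ▸ h.unit X hX)
    rw [add_eq] at e
    rw [apO2 (zero h hX (empty_subset _))]
    exact congrFun (congrFun e x) y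
  · refine ((wn h _ _).entry h.smk.pm y w).trans (mul_le_mul (by norm_num) (exp_le_exp.2 ?_)
      (exp_pos _).le (by norm_num))
    rw [neg_div, neg_le_neg_iff]
    exact div_le_div_of_nonneg_left (by positivity) l0 (by exact_mod_cast h.hq.l_le_li h.hE 1)

end PG1A

theorem t_pg1 : S_PG1 := fun _ _ _ _ q _ _ _ _ h =>
  ⟨fun t => PG1A.ct h ((pre_sub t).trans (Zg_sub _ _)) fun p u hu => PG1A.locg h p t u hu,
    fun p t => PG1A.ct h ((pre_sub t).trans (Zq_sub p)) fun _ u _ =>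
      (PG1A.locp h p t u).trans (mul_le_mul_of_nonneg_right
        (by rw [mul_div_assoc]; linarith [PG1A.lam h]) (nS_nonneg _ _))⟩

end Pool.Agent.P.MP_d0f69c_mp.XS.Pre
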