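import Pool.Agent.P.MP_d0f69c_mp.XS.PIfT
import Pool.Agent.P.MP_d0f69c_mp.XS.PG1

/-!
Decay during the closing flow of one finite system.
-/

set_option autoImplicit false

open Finset Real
open scoped Matrix

namespace Pool.Agent.P.MP_d0f69c_mp.XS.Pre

namespace PDECA

variable {d M : ℕ} [NeZero M] {E : PEnv d M} {q : PPar d M} {S : St (Tor d M)} {c : Tor d M}
  {Z Sg : Finset (Tor d M)}

theorem zero (h : PFH E q S c Z Sg) (ω : Tor d M → Bool) {X X' : Finset (Tor d M)}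
    (hX : X ⊆ S.good) (hX' : X' ⊆ S.good) (x y : Tor d M) (hxy : x ∉ S.O ∨ y ∉ S.O) :
    (Wx E S ω X - Wx E S ω X') x y = 0 := by
  have k : ∀ Y ⊆ S.good, ∀ v ∉ S.O, v ∉ S.O \ Y ∧ mix Y ω (om S) v = om S v := fun Y hY v hv =>
    ⟨fun a => hv (mem_sdiff.1 a).1, if_neg fun a => hv (S.good_sub (hY a))⟩
  rw [Matrix.sub_apply, sub_eq_zero]
  rcases hxy with a | a
  · refine (h.smk.kok.Ww_row _ _ (k X hX x a).1 y).trans
      (Eq.trans ?_ (h.smk.kok.Ww_row _ _ (k X' hX' x a).1 y).symm)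
    rw [(k X hX x a).2, (k X' hX' x a).2]
  · refine (h.smk.kok.Ww_col _ _ (k X hX y a).1 x).trans
      (Eq.trans ?_ (h.smk.kok.Ww_col _ _ (k X' hX' y a).1 x).symm)
    rw [(k X hX y a).2, (k X' hX' y a).2]

theorem wn (h : PFH E q S c Z Sg) (ω : Tor d M → Bool) (X X' : Finset (Tor d M)) :
    WN (fun x y => (2 * nm (x - y) : ℝ) / q.l) (Wx E S ω X - Wx E S ω X') (11 / 5) :=
  ((h.smk.lWw (agr (Λ := ∅) fun _ a => absurd a (notMem_empty _))).mono (by norm_num)).wn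

theorem opΔ (h : PFH E q S c Z Sg) (ω : Tor d M → Bool) (X X' : Finset (Tor d M)) :
    OpLe S.O (Wx E S ω X - Wx E S ω X') (11 / 5) :=
  ((wn h ω X X').opLe h.smk.pm).sub (subset_univ _)

theorem op0 (h : PFH E q S c Z Sg) (ω : Tor d M → Bool) : OpLe S.O (E.G S ∅ ω) (4 / E.η) :=
  fun u => by
    have η0 := h.hE.η0
    have := h.ward ∅ (empty_subset _) ω S.O u
    rw [sdiff_empty] at this
    exact PG1A.wd1 (nS_nonneg _ _) (nS_nonneg _ _) (by positivity) (le_of_eq (by field_simp)) this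

theorem big (h : PFH E q S c Z Sg) : (10 : ℝ) ^ 9 ≤ (q.P : ℝ) ^ 40 :=
  (h.hq.P9 h.hE).trans (le_self_pow₀ (h.hq.Pone h.hE) (by norm_num))

theorem lam (h : PFH E q S c Z Sg) : 1000 ≤ (q.P : ℝ) ^ 40 / E.η := by
  rw [le_div_iff₀ h.hE.η0]
  linarith [big h, h.hE.η1]

/-- the operator bound on all open sites of the state -/
theorem opp (h : PFH E q S c Z Sg) {ω : Tor d M → Bool} {X : Finset (Tor d M)} (hX : X ⊆ S.good)
    (hG : OpLe X (E.G S X ω) ((q.P : ℝ) ^ 40 / E.η)) :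
    OpLe S.O (E.G S X ω) (1003 / 1000 * ((q.P : ℝ) ^ 40 / E.η)) := by
  have η0 := h.hE.η0
  have l := lam h
  have b := big h
  have e : E.η / 4 * ((q.P : ℝ) ^ 40 / E.η / 1000) = (q.P : ℝ) ^ 40 / 4000 := by field_simp; ring
  refine (PG1A.blocks (a := (q.P : ℝ) ^ 40 / E.η) (b := (q.P : ℝ) ^ 40 / E.η / 1000)
    (hX.trans S.good_sub) (h.G_symm _ _) (by positivity) (by positivity) (by positivity) ?_ ?_ hG
    (h.ward _ hX ω)).mono (le_of_eq (by ring))
  · rw [sq, ← mul_assoc, e]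
    nlinarith
  · rw [e]; linarith

theorem locb (h : PFH E q S c Z Sg) {ω : Tor d M → Bool} {X : Finset (Tor d M)} (hX : X ⊆ S.good)
    (hG : OpLe X (E.G S X ω) ((q.P : ℝ) ^ 40 / E.η)) (u : Tor d M → ℂ) :
    nS S.O u ≤ 3 * (q.P : ℝ) ^ 40 / E.η *
      nS S.O (u + ap S.O (E.G S ∅ ω) (ap S.O (Wx E S ω X - Wx E S ω ∅) u)) := by
  have l := lam h
  have e := inv_add_eq' (h.unit ∅ (empty_subset _) ω) ((PG1A.add_eq X).symm ▸ h.unit _ hX ω)
  rw [PG1A.add_eq] at e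
  exact (PG1A.loc0 (G := E.G S ∅ ω) e (zero h ω hX (empty_subset _)) (by positivity) (opp h hX hG)
    (opΔ h ω _ _) u).trans (mul_le_mul_of_nonneg_right (by rw [mul_div_assoc 3]; linarith)
      (nS_nonneg _ _))

end PDECA

open PDECA in
theorem t_pdec : S_PDEC := fun d M _ E q S c Z Sg h X hXZ ω hG => by
  have hX : X ⊆ S.good := hXZ.trans h.Zg
  have l0 : (0 : ℝ) < q.l := by exact_mod_cast h.hq.l_one h.hE
  refine ct_mat (Δ := Wx E S ω X - Wx E S ω ∅) h.hE h.hq (i := 1) (by norm_num) subset_rfl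
    (h.G_symm ∅ ω) (fun x _ y => ?_)
    ((op0 h ω).mono (div_le_div_of_nonneg_right (by norm_num) h.hE.η0.le))
    (by rw [G_empty]; exact h.inv.dec) ((opΔ h ω _ _).mono (by norm_num)) (fun y _ w => ?_)
    fun _ u _ => PDECA.locb h hX (hG.sub hXZ) u
  · have e := inv_add_eq (h.unit ∅ (empty_subset _) ω) ((PG1A.add_eq X).symm ▸ h.unit X hX ω)
    rw [PG1A.add_eq] at e
    rw [PG1A.apO2 (zero h ω hX (empty_subset _))]
    exact congrFun (congrFun e x) y
  · refine ((wn h ω _ _).entry h.smk.pm y w).trans (mul_le_mul (by norm_num) (exp_le_exp.2 ?_)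
      (exp_pos _).le (by norm_num))
    rw [neg_div, neg_le_neg_iff]
    exact div_le_div_of_nonneg_left (by positivity) l0 (by exact_mod_cast h.hq.l_le_li h.hE 1)

end Pool.Agent.P.MP_d0f69c_mp.XS.Pre
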