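import Pool.Agent.P.MP_d0f69c_mp.XS.PF5Ba

/-!
Drift and variation of the majorant of the noise of the form in the preparatory flow.
-/

set_option autoImplicit false
set_option linter.dupNamespace false
set_option linter.unusedSectionVars false

open Finset Real
open scoped Matrix

namespace Pool.Agent.P.MP_d0f69c_mp.XS.Pre

namespace F5B

variable {ι : Type} [Fintype ι] [DecidableEq ι] {q : Nq} {σ : Co ι} {τ : Au ι} {s : ℝ}

/-- the kernel attached to a matrix and a family of vectors -/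
noncomputable def kk (σ : Co ι) (s : ℝ) (B : Matrix ι ι ℂ) (V : ι → ι → ℂ) (v x y : ι) : ℝ :=
  2 * (wv σ s v x * wv σ s v y) * ((starRingEnd ℂ) (σ.G x y) * bf B (V x) (V y)).re

/-- the source -/
noncomputable def xi (σ : Co ι) (s : ℝ) (φ : ι → ℝ) (B : Matrix ι ι ℂ) (V : ι → ι → ℂ) (v x : ι) :
    ℝ := 2 * wv σ s v x * (bf B (V x) (SV σ s φ V v x)).re

theorem kk_symm (h : Fy q σ τ) {B : Matrix ι ι ℂ} (hB : Bᵀ = B) (V : ι → ι → ℂ) (v x y : ι) :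
    kk σ s B V v x y = kk σ s B V v y x := by
  unfold kk
  rw [h.sG x y, bf_comm (B := B) (fun a b => congrFun (congrFun hB b) a) (V x), mul_comm (wv σ s v x)]

theorem Eb_kk (h : Fy q σ τ) {B : Matrix ι ι ℂ} (hB : Bᵀ = B) (V : ι → ι → ℂ) (v : ι)
    (φ ψ : ι → ℝ) (c : ℝ) :
    Eb (σ.Sv v) (kk σ s B V v) φ ψ = ∑ x ∈ σ.Sv v, xi σ s φ B V v x * (ψ x - c) := by
  rw [FM5A.Eb_eq (kk_symm h hB V v) φ ψ c]
  refine sum_congr rfl fun x _ => congrArg (· * _) ?_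
  have e : bf B (V x) (SV σ s φ V v x) =
      ∑ y ∈ σ.Sv v, hc σ (wv σ s v) φ x y * bf B (V x) (V y) := by
    rw [bf_sum]
    exact congrArg _ (funext fun u => by simp only [SV, Finset.sum_apply, Pi.smul_apply, smul_eq_mul])
  rw [xi, e, Complex.re_sum, mul_sum]
  refine sum_congr rfl fun y _ => ?_
  rw [hc, mul_assoc _ _ (bf B _ _), Complex.re_ofReal_mul, kk]
  ring

theorem xi_le (h : Fy q σ τ) (hs : |s| ≤ 1 / 10 ^ 7) (φ : ι → ℝ) {B : Matrix ι ι ℂ}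
    {V : ι → ι → ℂ} {v x : ι} (hx : x ∈ σ.Sv v) {c : ℝ}
    (hc : ‖bf B (V x) (SV σ s φ V v x)‖ ≤ c) : |xi σ s φ B V v x| ≤ 101 / 50 * c := by
  rw [xi, abs_mul, abs_mul, abs_two]
  exact mul_le_mul (by linarith [wv_le h hs v (Sv_op v hx)]) ((Complex.abs_re_le_norm _).trans hc)
    (abs_nonneg _) (by norm_num)

/-- the real sign of a coin -/
def rs (b : Bool) : ℝ := if b then 1 else -1

theorem Y5_eq (t : ℝ) (v : ι) (b : Bool) (φ ψ : ι → ℝ) : σ.Y5 τ t s v b φ ψ =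
    t * (Eb (σ.Sv v) (kk σ s (τ.R v b) σ.G v) φ ψ -
      rs b * Eb (σ.Sv v) (kk σ s (τ.B v) (σ.Pf τ v) v) φ ψ) + QD σ τ.D2 v φ ψ := by
  have e : ∀ x y, σ.k5 τ s v b x y =
      kk σ s (τ.R v b) σ.G v x y - rs b * kk σ s (τ.B v) (σ.Pf τ v) v x y := fun x y => by
    unfold Co.k5 kk
    rw [step_w]
    cases b <;> simp [sgn, rs] <;> ring
  unfold Co.Y5 Eb
  simp only [e, sub_mul, sum_sub_distrib, mul_assoc (rs b), ← mul_sum]
  congr 2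
  ring

theorem sb (t : ℝ) (v : ι) (b : Bool) : SB (σ.Y5 τ t s v b) := by
  refine ⟨fun u w => ?_, fun c u u' w => ?_⟩
  · simp only [Co.Y5, Co.Q5, Eb, mul_comm (u _ - u _)]
  · have e : ∀ x y, ((c • u + u') x - (c • u + u') y) * (w x - w y) =
        c * ((u x - u y) * (w x - w y)) + (u' x - u' y) * (w x - w y) := fun x y => by
      simp only [Pi.add_apply, Pi.smul_apply, smul_eq_mul]; ring
    simp only [Co.Y5, Co.Q5, Eb, e, mul_add, sum_add_distrib, mul_left_comm _ c, ← mul_sum]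
    ring

/-- the crude weights -/
noncomputable def Dh (τ : Au ι) (v u : ι) : ℝ := τ.D v u + if u = v then 51 / 50 else 0

theorem Dh0 (h : Fy q σ τ) (v u : ι) : 0 ≤ Dh τ v u :=
  add_nonneg (h.D0 v u) (by split_ifs <;> norm_num)

/-- the size of the inner sums -/
noncomputable def AG (σ : Co ι) (τ : Au ι) (s : ℝ) (φ : ι → ℝ) (v : ι) : ℝ :=
  ∑ x ∈ σ.Sv v, τ.Nh v (SV σ s φ σ.G v x) ^ 2
noncomputable def AP (σ : Co ι) (τ : Au ι) (s : ℝ) (φ : ι → ℝ) (v : ι) : ℝ :=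
  ∑ x ∈ σ.Sv v, τ.N v (SV σ s φ (σ.Pf τ v) v x) ^ 2
noncomputable def AQ (σ : Co ι) (τ : Au ι) (s : ℝ) (φ : ι → ℝ) (v : ι) : ℝ :=
  ∑ x ∈ σ.Sv v, τ.N v (σ.Pf τ v x) ^ 2 * τ.N v (SV σ s φ (σ.Pf τ v) v x) ^ 2

theorem ER_le (h : Fy q σ τ) (hs : |s| ≤ 1 / 10 ^ 7) {v : ι} (hv : v ∈ σ.rem) (b : Bool)
    (φ ψ : ι → ℝ) : Eb (σ.Sv v) (kk σ s (τ.R v b) σ.G v) φ ψ ^ 2 ≤
      5 * q.hb ^ 2 * AG σ τ s φ v * QD σ (Dh τ) v ψ ψ := by
  rw [Eb_kk h (h.sR v hv b) σ.G v φ ψ (ψ v), QD_eq, AG,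
    mul_sum (σ.Sv v) _ (5 * q.hb ^ 2)]
  refine sum_sq_le_sum_mul_sum_of_sq_le_mul _
    (fun _ _ => mul_nonneg (mul_nonneg (by norm_num) (sq_nonneg _)) (sq_nonneg _))
    (fun x _ => mul_nonneg (sum_nonneg fun u _ => mul_nonneg (Dh0 h v u) (sq_nonneg _)) (mul_self_nonneg _)) fun x hx => ?_
  have h1 := pow_le_pow_left₀ (abs_nonneg _) (xi_le (V := σ.G) h hs φ hx (h.r1 v hv b _ _)) 2
  have e : ∑ u, Dh τ v u * ‖σ.G x u‖ ^ 2 = τ.Nh v (σ.G x) ^ 2 := (no_sq (Dh0 h v) _).symm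
  rw [sq_abs] at h1
  rw [e, mul_pow, ← sq]
  have h2 := mul_le_mul_of_nonneg_right h1 (sq_nonneg (ψ x - ψ v))
  have h3 : 0 ≤ (q.hb * τ.Nh v (σ.G x) * τ.Nh v (SV σ s φ σ.G v x)) ^ 2 * (ψ x - ψ v) ^ 2 := by
    positivity
  nlinarith

theorem EB_le (h : Fy q σ τ) (z : Fz q σ τ) (hs : |s| ≤ 1 / 10 ^ 7) {v : ι} (hv : v ∈ σ.rem)
    (φ : ι → ℝ) :
    ∑ x ∈ σ.Sv v, xi σ s φ (τ.B v) (σ.Pf τ v) v x ^ 2 ≤ 5 * AQ σ τ s φ v ∧
      (∑ x ∈ σ.Sv v, |xi σ s φ (τ.B v) (σ.Pf τ v) v x|) ^ 2 ≤ 13 * AP σ τ s φ v := by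
  have h1 : ∀ x ∈ σ.Sv v, xi σ s φ (τ.B v) (σ.Pf τ v) v x ^ 2 ≤
      5 * τ.N v (σ.Pf τ v x) ^ 2 * τ.N v (SV σ s φ (σ.Pf τ v) v x) ^ 2 := fun x hx => by
    have a := pow_le_pow_left₀ (abs_nonneg _) (xi_le (V := σ.Pf τ v) h hs φ hx (h.b0 v hv _ _)) 2
    rw [sq_abs] at a
    nlinarith [sq_nonneg (τ.N v (σ.Pf τ v x) * τ.N v (SV σ s φ (σ.Pf τ v) v x))]
  refine ⟨(sum_le_sum h1).trans_eq (by simp only [AQ, mul_sum, mul_assoc]), ?_⟩
  refine (sum_sq_le_sum_mul_sum_of_sq_le_mul _ (fun _ _ => by positivity) (fun _ _ => sq_nonneg _)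
    fun x hx => (sq_abs _).trans_le (h1 x hx)).trans (mul_le_mul_of_nonneg_right ?_
      (sum_nonneg fun _ _ => sq_nonneg _))
  rw [← mul_sum]
  linarith [(sum_le_sum_of_subset_of_nonneg (Sv_sub v) fun _ _ _ => sq_nonneg _).trans (z.f2 v hv)]

theorem swap (f : ι → ι → ℝ) (f0 : ∀ v x, 0 ≤ f v x) :
    ∑ v ∈ σ.rem, ∑ x ∈ σ.Sv v, f v x ≤ ∑ x ∈ σ.Op, ∑ v ∈ σ.rem.erase x, f v x := by
  refine (sum_le_sum fun v _ => sum_le_sum_of_subset_of_nonneg (Sv_sub v)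
    fun x _ _ => f0 v x).trans_eq ?_
  exact sum_comm' fun v x => by simp only [mem_erase]; tauto

/-- all sums over the remaining sites -/
theorem sums (hq : q.OK) (h : Fy q σ τ) (z : Fz q σ τ) (hs : |s| ≤ 1 / 10 ^ 7) (φ : ι → ℝ) {n : ℝ}
    (h1 : En σ.Op (fun x y => σ.a x * σ.a y * ‖σ.G x y‖ ^ 2) φ ≤ 2 * n)
    (h2 : ∑ v ∈ σ.rem, ∑ u, σ.Kk u v * (φ u - φ v) ^ 2 ≤ q.P * n)
    (h3 : ∑ v ∈ σ.rem, ∑ u, τ.D2 v u * (φ u - φ v) ^ 2 ≤ n / q.P ^ 20) :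
    0 ≤ n ∧ q.η ^ 2 * ∑ v ∈ σ.rem, AG σ τ s φ v ≤ 200 * n ∧
      q.η ^ 2 * ∑ v ∈ σ.rem, AP σ τ s φ v ≤ 405 * n ∧
      ∑ v ∈ σ.rem, AQ σ τ s φ v ≤ 910 * (n / q.P ^ 100) ∧
      ∑ v ∈ σ.rem, QD σ (Dh τ) v φ φ ≤ 3 * (q.P * n) ∧
      ∑ v ∈ σ.rem, QD σ τ.D2 v φ φ ≤ 11 * (n / q.P ^ 20) := by
  have P9 := hq.P9
  have hP : 0 < q.P := by linarith
  have hη := hq.η0
  have e1 := E1_le h φ
  have e2 := sx_sum (σ := σ) φ
  set E := ∑ x ∈ σ.Op, ∑ y ∈ σ.Op, ‖σ.G x y‖ ^ 2 * (φ x - φ y) ^ 2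
  have E0 : 0 ≤ E := sum_nonneg fun _ _ => sum_nonneg fun _ _ => by positivity
  have n0 : 0 ≤ n := by linarith
  have e3 : ∑ x ∈ σ.Op, sx σ φ x ≤ 5 * n := by linarith
  have g : ∀ (f : ι → ι → ℝ) (c : ℝ), 0 ≤ c → (∀ v x, 0 ≤ f v x) →
      (∀ x ∈ σ.Op, ∑ v ∈ σ.rem.erase x, f v x ≤ c * sx σ φ x) →
      ∑ v ∈ σ.rem, ∑ x ∈ σ.Sv v, f v x ≤ c * (5 * n) := fun f c c0 f0 hf =>
    (swap f f0).trans ((sum_le_sum hf).trans
      ((mul_sum _ _ _).symm.trans_le (mul_le_mul_of_nonneg_left e3 c0)))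
  have ε1 : q.ε ^ 2 ≤ 1 / 10 := by nlinarith [hq.ε0, hq.ε1]
  have p20 : n / q.P ^ 20 ≤ n := div_le_self n0 (one_le_pow₀ (by linarith))
  refine ⟨n0, ?_, ?_, ?_, ?_, ?_⟩
  · refine (mul_le_mul_of_nonneg_left (g _ (40 / q.η ^ 2) (by positivity) (fun _ _ => sq_nonneg _)
      fun x _ => (sum_le_sum_of_subset_of_nonneg (erase_subset _ _) fun _ _ _ => sq_nonneg _).trans
        (A1G h z hs φ x)) (sq_nonneg _)).trans_eq (by field_simp; ring)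
  · refine (mul_le_mul_of_nonneg_left (g _ (81 / q.η ^ 2) (by positivity) (fun _ _ => sq_nonneg _)
      fun x _ => (sum_le_sum_of_subset_of_nonneg (erase_subset _ _) fun _ _ _ => sq_nonneg _).trans
        (A1P hq h z hs φ x)) (sq_nonneg _)).trans_eq (by field_simp; ring)
  · exact (g _ (182 / q.P ^ 100) (by positivity) (fun _ _ => by positivity)
      fun x hx => A2P hq h z hs φ hx).trans_eq (by ring)
  · refine (QD_sum h (c := 2) (Dh0 h) (fun v hv u hu => ?_) (fun u => ?_) φ).trans ?_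
    · rw [Dh, h.DO v u hu, if_neg fun e : u = v => hu (e ▸ h.RO (h.rR hv)), add_zero]
    · simp only [Dh, sum_add_distrib, sum_ite_eq]
      have := z.Dc u
      split_ifs <;> linarith
    · have a1 : ∑ v ∈ σ.rem, ∑ u, Dh τ v u * (φ u - φ v) ^ 2 ≤
          ∑ v ∈ σ.rem, ∑ u, σ.Kk u v * (φ u - φ v) ^ 2 +
            ∑ v ∈ σ.rem, ∑ u, τ.D2 v u * (φ u - φ v) ^ 2 := by
        rw [← sum_add_distrib]
        refine sum_le_sum fun v hv => ?_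
        rw [← sum_add_distrib]
        refine sum_le_sum fun u _ => ?_
        by_cases e : u = v
        · simp [e]
        · have b1 := h.D1 v hv u
          have b2 : q.κ ^ 2 * σ.Kk v u ≤ σ.Kk v u := mul_le_of_le_one_left (h.K0 v u)
            (pow_le_one₀ hq.κ0 ((hq.κ1.trans hq.ε1).trans (by norm_num)))
          rw [if_neg e, add_zero] at b1
          rw [Dh, if_neg e, add_zero, ← add_mul, h.sK u v]
          exact mul_le_mul_of_nonneg_right (by linarith) (sq_nonneg _)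
      nlinarith [mul_le_mul_of_nonneg_right P9 n0]
  · refine (QD_sum h h.E0 (fun v _ => h.EO v) h.E2 φ).trans ?_
    have a1 : q.ν * E ≤ 1 / q.P ^ 20 * (402 / 100 * n) :=
      mul_le_mul (hq.ν1.trans (one_div_le_one_div_of_le (by positivity)
        (pow_le_pow_right₀ (by linarith) (by norm_num)))) (by linarith) E0 (by positivity)
    have a2 : 1 / q.P ^ 20 * (402 / 100 * n) = 402 / 100 * (n / q.P ^ 20) := by ring
    have a3 : 0 ≤ n / q.P ^ 20 := by positivity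
    linarith

end F5B

open F5B in
theorem t_p5b : S_P5B := by
  intro ι _ _ q σ τ hq h z N Z' t s ht hs hZ hN hV hK hD
  refine ⟨fun v _ b => sb t v b, fun φ => ?_⟩
  have P9 := hq.P9
  have hP : 0 < q.P := by linarith
  have hη := hq.η0
  have S := fun ψ => sums hq h z hs ψ (hN ψ) (hK ψ) (hD ψ)
  obtain ⟨n0, c1, c2, c3, c4, c5⟩ := S φ
  have g0 : ∀ v, 0 ≤ AG σ τ s φ v := fun v => sum_nonneg fun _ _ => sq_nonneg _
  have p0 : ∀ v, 0 ≤ AP σ τ s φ v := fun v => sum_nonneg fun _ _ => sq_nonneg _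
  have q0 : ∀ v, 0 ≤ AQ σ τ s φ v := fun v => sum_nonneg fun _ _ => by positivity
  have sub : ∀ f : ι → ℝ, (∀ v, 0 ≤ f v) → ∑ v ∈ Z', f v ≤ ∑ v ∈ σ.rem, f v := fun f f0 =>
    sum_le_sum_of_subset_of_nonneg hZ fun v _ _ => f0 v
  have dn : ∀ a b : ℕ, 10 ^ 9 * (N φ / q.P ^ (a + b + 1)) ≤ N φ / q.P ^ a := fun a b => by
    have e : N φ / q.P ^ a = q.P ^ (b + 1) * (N φ / q.P ^ (a + b + 1)) := by field_simp; ring
    rw [e]
    exact mul_le_mul_of_nonneg_right (P9.trans (le_self_pow₀ (by linarith) b.succ_ne_zero))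
      (by positivity)
  set r := q.hb / q.η with hr
  have r0 : 0 ≤ r := div_nonneg hq.h0 hη.le
  have r1 : r ≤ 1 / q.P ^ 100 := by
    rw [hr, div_le_iff₀ hη]; exact hq.h1.trans_eq (by ring)
  have r2 : q.hb = r * q.η := (div_mul_cancel₀ _ hη.ne').symm
  refine ⟨?_, fun z => 3 * (15 * q.P * r ^ 2 * (q.η ^ 2 * AG σ τ s φ z.1) +
    ((2 + q.P ^ 40) * (5 * AQ σ τ s φ z.1) + 13 / q.P ^ 40 * (q.η ^ 2 * AP σ τ s φ z.1)) +
    11 / q.P ^ 20 * QD σ τ.D2 z.1 φ φ), fun z => ?_, ?_, ?_⟩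
  · have a1 : ∀ v ∈ Z', ∑ b : Bool, σ.Y5 τ t s v b φ φ ≤
        2 * r * (QD σ (Dh τ) v φ φ + 2 * (q.η ^ 2 * AG σ τ s φ v)) + 2 * QD σ τ.D2 v φ φ :=
      fun v hv => by
      have a0 := QD0 (σ := σ) (Dh0 h) v φ
      have a2 : ∀ b, t * Eb (σ.Sv v) (kk σ s (τ.R v b) σ.G v) φ φ ≤
          r * (QD σ (Dh τ) v φ φ + 2 * (q.η ^ 2 * AG σ τ s φ v)) := fun b => by
        have := g0 v
        refine (le_abs_self _).trans ((abs_mul _ _).trans_le ((mul_le_of_le_one_left (abs_nonneg _)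
          ht).trans (abs_le_of_sq_le_sq' ((ER_le h hs (hZ hv) b φ φ).trans ?_)
          (by positivity) |> abs_le.2)))
        set X := QD σ (Dh τ) v φ φ
        have e : 5 * q.hb ^ 2 * AG σ τ s φ v * X = r ^ 2 * (5 * (q.η ^ 2 * AG σ τ s φ v) * X) := by
          rw [r2]; ring
        have b0 : 0 ≤ q.η ^ 2 * AG σ τ s φ v := by positivity
        rw [e, mul_pow]
        exact mul_le_mul_of_nonneg_left (by
          nlinarith [mul_nonneg b0 a0, sq_nonneg (X - 2 * (q.η ^ 2 * AG σ τ s φ v))]) (sq_nonneg _)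
      rw [Fintype.sum_bool, Y5_eq, Y5_eq]
      simp only [rs, if_true, Bool.false_eq_true, if_false]
      linarith [a2 true, a2 false]
    rw [sum_product]
    refine (sum_le_sum a1).trans ?_
    simp only [sum_add_distrib, ← mul_sum]
    have a2 := mul_le_mul_of_nonneg_left (sub _ g0) (sq_nonneg q.η)
    have a3 := sub _ fun v => QD0 (σ := σ) (Dh0 h) v φ
    have a4 := sub _ fun v => QD0 (σ := σ) h.E0 v φ
    have a5 : r * (∑ v ∈ Z', QD σ (Dh τ) v φ φ + 2 * (q.η ^ 2 * ∑ v ∈ Z', AG σ τ s φ v)) ≤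
        1 / q.P ^ 100 * (4 * (q.P * N φ)) :=
      (mul_le_mul_of_nonneg_left (by nlinarith [mul_le_mul_of_nonneg_right P9 n0]) r0).trans
        (mul_le_mul_of_nonneg_right r1 (by positivity))
    have e1 : 1 / q.P ^ 100 * (4 * (q.P * N φ)) = 4 * (N φ / q.P ^ (8 + 90 + 1)) := by
      field_simp; ring
    have e2 : 1 / q.P ^ 8 * N φ = N φ / q.P ^ 8 := by ring
    have a6 : 0 ≤ N φ / q.P ^ 8 := by positivity
    linarith [dn 8 90, dn 8 11]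
  · have := g0 z.1; have := p0 z.1; have := q0 z.1; have := QD0 (σ := σ) h.E0 z.1 φ; positivity
  · rw [sum_product]
    simp only [sum_const, card_univ, Fintype.card_bool, nsmul_eq_mul, ← mul_sum, sum_add_distrib]
    have a1 : 15 * q.P * r ^ 2 * (q.η ^ 2 * ∑ v ∈ Z', AG σ τ s φ v) ≤
        3000 * (N φ / q.P ^ (15 + 183 + 1)) :=
      (mul_le_mul (mul_le_mul_of_nonneg_left (pow_le_pow_left₀ r0 r1 2) (by positivity))
        ((mul_le_mul_of_nonneg_left (sub _ g0) (sq_nonneg q.η)).trans c1)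
        (mul_nonneg (sq_nonneg _) (sum_nonneg fun v _ => g0 v)) (by positivity)).trans_eq
        (by field_simp; ring)
    have a2 : (2 + q.P ^ 40) * (5 * ∑ v ∈ Z', AQ σ τ s φ v) ≤ 13650 * (N φ / q.P ^ (15 + 44 + 1)) :=
      (mul_le_mul (show _ ≤ 3 * q.P ^ 40 by linarith [one_le_pow₀ (n := 40) (show 1 ≤ q.P by linarith)])
        (mul_le_mul_of_nonneg_left ((sub _ q0).trans c3) (by norm_num))
        (mul_nonneg (by norm_num) (sum_nonneg fun v _ => q0 v)) (by positivity)).trans_eq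
        (by field_simp; ring)
    have a3 : 13 / q.P ^ 40 * (q.η ^ 2 * ∑ v ∈ Z', AP σ τ s φ v) ≤
        5265 * (N φ / q.P ^ (15 + 24 + 1)) :=
      (mul_le_mul_of_nonneg_left ((mul_le_mul_of_nonneg_left (sub _ p0) (sq_nonneg q.η)).trans c2)
        (by positivity)).trans_eq (by ring)
    have a4 : 11 / q.P ^ 20 * ∑ v ∈ Z', QD σ τ.D2 v φ φ ≤ 121 * (N φ / q.P ^ (15 + 24 + 1)) :=
      (mul_le_mul_of_nonneg_left ((sub _ fun v => QD0 (σ := σ) h.E0 v φ).trans c5)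
        (by positivity)).trans_eq (by ring)
    have e2 : 1 / q.P ^ 15 * N φ = N φ / q.P ^ 15 := by ring
    have a6 : 0 ≤ N φ / q.P ^ 15 := by positivity
    push_cast
    linarith [dn 15 183, dn 15 44, dn 15 24]
  · rintro ⟨v, b⟩ hz ψ
    have hv := hZ (mem_product.1 hz).1
    obtain ⟨m0, -, -, -, d4, d5⟩ := S ψ
    have one : ∀ {D : ι → ι → ℝ}, (∀ v u, 0 ≤ D v u) →
        QD σ D v ψ ψ ≤ ∑ v ∈ σ.rem, QD σ D v ψ ψ := fun D0 =>
      single_le_sum (f := fun v => QD σ _ v ψ ψ) (fun v _ => QD0 D0 v ψ) hv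
    have a1 : Eb (σ.Sv v) (kk σ s (τ.R v b) σ.G v) φ ψ ^ 2 ≤
        15 * q.P * r ^ 2 * (q.η ^ 2 * AG σ τ s φ v) * N ψ :=
      (ER_le h hs hv b φ ψ).trans ((mul_le_mul_of_nonneg_left ((one (Dh0 h)).trans d4)
        (by have := g0 v; positivity)).trans_eq (by rw [r2]; ring))
    have a2 : QD σ τ.D2 v φ ψ ^ 2 ≤ 11 / q.P ^ 20 * QD σ τ.D2 v φ φ * N ψ :=
      (QD_cs h.E0 v φ ψ).trans ((mul_le_mul_of_nonneg_left ((one h.E0).trans d5)
        (QD0 h.E0 v φ)).trans_eq (by ring))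
    have a3 : Eb (σ.Sv v) (kk σ s (τ.B v) (σ.Pf τ v) v) φ ψ ^ 2 ≤ ((2 + q.P ^ 40) *
        (5 * AQ σ τ s φ v) + 13 / q.P ^ 40 * (q.η ^ 2 * AP σ τ s φ v)) * N ψ := by
      obtain ⟨n1, n2⟩ := EB_le h z hs hv φ
      set l2 := 5 * AQ σ τ s φ v with hl2
      have l0 : 0 ≤ l2 := by have := q0 v; positivity
      have h1 := hV (fun x => if x ∈ σ.Sv v then xi σ s φ (τ.B v) (σ.Pf τ v) v x else 0) ψ (√l2)
        (sqrt_nonneg _) (by
          rw [sq_sqrt l0]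
          simpa only [ite_pow, zero_pow two_ne_zero, sum_ite_mem, univ_inter] using n1)
      simp only [ite_mul, zero_mul, apply_ite abs, abs_zero, sum_ite_mem, univ_inter] at h1
      rw [Eb_kk h (h.sB v hv) _ v φ ψ 0]
      simp only [sub_zero]
      refine h1.trans (mul_le_mul_of_nonneg_right ?_ m0)
      set L := ∑ x ∈ σ.Sv v, |xi σ s φ (τ.B v) (σ.Pf τ v) v x| with hL
      have h2 : 2 * (q.η * √l2 * L) ≤ q.P ^ 40 * √l2 ^ 2 + q.η ^ 2 / q.P ^ 40 * L ^ 2 := by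
        have e : q.P ^ 40 * √l2 ^ 2 + q.η ^ 2 / q.P ^ 40 * L ^ 2 - 2 * (q.η * √l2 * L) =
            (q.P ^ 40 * √l2 - q.η * L) ^ 2 / q.P ^ 40 := by field_simp; ring
        have : 0 ≤ (q.P ^ 40 * √l2 - q.η * L) ^ 2 / q.P ^ 40 := by positivity
        linarith
      have h3 := mul_le_mul_of_nonneg_left n2 (show 0 ≤ q.η ^ 2 / q.P ^ 40 by positivity)
      have e : q.η ^ 2 / q.P ^ 40 * (13 * AP σ τ s φ v) =
          13 / q.P ^ 40 * (q.η ^ 2 * AP σ τ s φ v) := by ring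
      rw [sq_sqrt l0] at h2 ⊢
      linarith
    rw [Y5_eq]
    set A := Eb (σ.Sv v) (kk σ s (τ.R v b) σ.G v) φ ψ
    set B := Eb (σ.Sv v) (kk σ s (τ.B v) (σ.Pf τ v) v) φ ψ
    set C := QD σ τ.D2 v φ ψ
    have t2 : t ^ 2 ≤ 1 := by rw [← sq_abs]; exact pow_le_one₀ (abs_nonneg _) ht
    have b1 : (t * A) ^ 2 ≤ A ^ 2 := by rw [mul_pow]; exact mul_le_of_le_one_left (sq_nonneg _) t2
    have b2 : (t * (rs b * B)) ^ 2 ≤ B ^ 2 := by
      have : rs b ^ 2 = 1 := by cases b <;> simp [rs]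
      rw [mul_pow, mul_pow, this, one_mul]; exact mul_le_of_le_one_left (sq_nonneg _) t2
    dsimp only
    nlinarith [sq_nonneg (t * A + t * (rs b * B)), sq_nonneg (t * A - C),
      sq_nonneg (t * (rs b * B) + C)]

end Pool.Agent.P.MP_d0f69c_mp.XS.Pre
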