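import Pool.Agent.P.MP_d0f69c_mp.XS.PIfT

/-!
Rows far from the centre do not move in the preparatory flow.
-/

set_option autoImplicit false
set_option linter.dupNamespace false

open Finset Real
open scoped Matrix

namespace Pool.Agent.P.MP_d0f69c_mp.XS.Pre

namespace PFARA

variable {d M : ℕ} [NeZero M] {E : PEnv d M} {q : PPar d M} {S : St (Tor d M)} {c : Tor d M}
  {Z Sg : Finset (Tor d M)}

/-- the envelope -/
noncomputable def fe (l : ℕ) (x y : Tor d M) : ℝ := exp (-(nm (x - y) : ℝ) / (2 * l))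

omit [NeZero M] in
theorem fe0 (l : ℕ) (x y : Tor d M) : 0 < fe l x y := exp_pos _

omit [NeZero M] in
theorem fe1 (l : ℕ) (x y : Tor d M) : fe l x y ≤ 1 := exp_le_one_iff.2
  (div_nonpos_of_nonpos_of_nonneg (neg_nonpos.2 (Nat.cast_nonneg _)) (by positivity))

omit [NeZero M] in
theorem fe_comm (l : ℕ) (x y : Tor d M) : fe l x y = fe l y x := by rw [fe, fe, nm_comm]

omit [NeZero M] in
theorem dec2 {G : Matrix (Tor d M) (Tor d M) ℂ} {O : Finset (Tor d M)} {B B' : ℝ} {l l' : ℕ}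
    (h : Dec G O B l) (hB : B ≤ B') (B0 : 0 ≤ B') (l1 : 1 ≤ l) (hl : l ≤ l') {x : Tor d M}
    (hx : x ∈ O) (z : Tor d M) : ‖G x z‖ ≤ B' * (fe l' x z * fe l' x z) := by
  have a : (1 : ℝ) ≤ l := by exact_mod_cast l1
  have b : (l : ℝ) ≤ l' := by exact_mod_cast hl
  refine (h x hx z).trans (mul_le_mul hB ?_ (exp_pos _).le B0)
  rw [fe, ← exp_add, exp_le_exp, ← add_div, neg_div, ← neg_add, neg_div, neg_le_neg_iff,
    ← two_mul, mul_div_mul_left _ _ two_ne_zero]
  exact div_le_div_of_nonneg_left (Nat.cast_nonneg _) (by linarith) b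

omit [NeZero M] in
theorem wt {l l' : ℕ} (l1 : 1 ≤ l) (hl : l ≤ l') {x u : Tor d M} {α : ℝ}
    (hα : α ≤ (nm (x - u) : ℝ) / (2 * l')) (y w : Tor d M) :
    α - (nm (x - y) : ℝ) / (2 * l') + (nm (y - w) : ℝ) / (2 * l') ≤
      (2 * nm (y - u) : ℝ) / l + (2 * nm (u - w) : ℝ) / l := by
  have a : (1 : ℝ) ≤ l := by exact_mod_cast l1
  have b : (l : ℝ) ≤ l' := by exact_mod_cast hl
  have t : (nm (x - u) : ℝ) ≤ nm (x - y) + nm (y - u) := by exact_mod_cast nm_tri x y u
  have t' : (nm (y - w) : ℝ) ≤ nm (y - u) + nm (u - w) := by exact_mod_cast nm_tri y u w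
  have n0 : (0 : ℝ) ≤ nm (y - u) := Nat.cast_nonneg _
  have n1 : (0 : ℝ) ≤ nm (u - w) := Nat.cast_nonneg _
  have k : (nm (x - u) : ℝ) / (2 * l') - (nm (x - y) : ℝ) / (2 * l') + (nm (y - w) : ℝ) / (2 * l') ≤
      (2 * nm (y - u) : ℝ) / l + (2 * nm (u - w) : ℝ) / l := by
    rw [← sub_div, ← add_div, ← add_div]
    exact div_le_div₀ (by linarith) (by linarith) (by linarith) (by linarith)
  linarith

theorem row (h : PFH E q S c Z Sg) (x : Tor d M) (T : Finset (Tor d M)) :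
    ∑ y ∈ T, fe (q.li E.η 2) y x ≤ exp (2 * (q.P : ℝ) ^ 2) :=
  (sum_le_sum_of_subset_of_nonneg (subset_univ T) fun _ _ _ => (fe0 _ _ _).le).trans
    (h.hq.sum_exp h.hE t_far (show 2 ≤ 3 by norm_num) x)

theorem dist (h : PFH E q S c Z Sg) {x u : Tor d M} (hx : x ∈ S.O \ Rw E q S c) (hu : u ∈ Z) :
    (q.P : ℝ) ^ 8 / 2 ≤ (nm (x - u) : ℝ) / (2 * q.li E.η 2) := by
  have l1 : (1 : ℝ) ≤ q.li E.η 2 := by exact_mod_cast h.hq.li_one h.hE 2
  have a := Par.OK.D_le_A (q := q.toPar) h.hE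
  have b := nm_tri x u c
  have e := mem_bl.1 (mem_inter.1 (h.hZ hu)).2
  have f : ¬ nm (x - c) ≤ 6 * q.A E.η d := fun k =>
    (mem_sdiff.1 hx).2 (mem_inter.2 ⟨(mem_sdiff.1 hx).1, mem_bl.2 k⟩)
  have g : q.D E.η 2 ≤ nm (x - u) := by omega
  have g' : (q.P : ℝ) ^ 8 * q.li E.η 2 ≤ nm (x - u) := by exact_mod_cast g
  rw [div_le_div_iff₀ (by norm_num) (by linarith)]
  linarith

end PFARA

open PFARA in
theorem t_pfar : S_PFAR := fun d M _ E q S c Z Sg h X hX ω g x hx => by
  have l1 := h.hq.l_one h.hE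
  have l2 := h.hq.l_le_li h.hE 2
  have hP := h.hq.Ppos h.hE
  have xO := (mem_sdiff.1 hx).1
  set l := q.li E.η 2 with hl
  set P : ℝ := (q.P : ℝ) with hPd
  set α : ℝ := P ^ 8 / 2 with hα
  have ag : Agr Xᶜ (S.O \ ∅) (S.O \ X) (mix ∅ ω (om S)) (mix X ω (om S)) :=
    agr fun z hz => iff_of_false (notMem_empty z) (mem_compl.1 hz)
  have ent : ∀ {D : Matrix (Tor d M) (Tor d M) ℂ} {k : ℝ},
      WL (fun x y => (2 * nm (x - y) : ℝ) / q.l) Xᶜ D k → ∀ y w,
      ‖D y w‖ ≤ k * exp (-(α - (nm (x - y) : ℝ) / (2 * l) + (nm (y - w) : ℝ) / (2 * l))) :=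
    fun hD y w => hD.entry h.smk.pm fun u hu =>
      PFARA.wt l1 l2 (PFARA.dist h hx (hX (by simpa using hu))) y w
  have g1 : ∀ z ∈ S.O, ∀ w, ‖E.G S X ω z w‖ ≤ exp (P ^ 6) * (fe l z w * fe l z w) :=
    fun z hz w => dec2 g (h.hq.Bi_le (by norm_num)) (exp_pos _).le (h.hq.li_one h.hE 2) le_rfl hz w
  have g0 : ∀ w, ‖E.G S ∅ ω x w‖ ≤ exp (P ^ 6) * (fe l x w * fe l x w) := fun w => by
    rw [G_empty]
    exact dec2 h.inv.dec (h.hq.Bi_le (i := 1) (by norm_num)) (exp_pos _).le (h.hq.li_one h.hE 1)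
      (h.hq.li_mono h.hE (show 1 ≤ 2 by norm_num)) xO w
  have ha : ∀ y, ‖Ax E S ω X x y - Ax E S ω ∅ x y‖ ≤ exp (-α) * fe l y x := fun y => by
    have a := ent ((h.smk.lal ag).mono (c' := 1) (by norm_num)) x y
    rw [one_mul, nm_self] at a
    refine a.trans_eq ?_
    rw [fe, ← exp_add, nm_comm y x]
    congr 1
    simp only [Nat.cast_zero]
    ring
  have p78 := h.hq.pow_lt h.hE (show 7 < 8 by norm_num) (c := 100) (by norm_num)
  have p67 := h.hq.pow_le h.hE (show 6 ≤ 7 by norm_num)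
  have p27 := h.hq.pow_le h.hE (show 2 ≤ 7 by norm_num)
  have p17 := h.hq.pow_le h.hE (show 1 ≤ 7 by norm_num)
  have p07 := h.hq.pow_le h.hE (show 0 ≤ 7 by norm_num)
  rw [pow_one] at p17
  rw [pow_zero] at p07
  refine ⟨?_, ?_, ?_⟩
  · set D := Wx E S ω X - Wx E S ω ∅ with hD
    have e1 : cr E.H + Wx E S ω X = cr E.H + Wx E S ω ∅ + D := by rw [hD]; abel
    have e2 := inv_add_eq (h.unit ∅ (empty_subset _) ω) (e1 ▸ h.unit X (hX.trans h.Zg) ω)
    rw [← e1, ← G_eq, ← G_eq] at e2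
    have k := ent (D := D) ((h.smk.lWw ag).mono (c' := 3) (by norm_num))
    have e3 : ∀ z, E.G S X ω x z - E.G S ∅ ω x z =
        -∑ y, ∑ w, E.G S ∅ ω x y * D y w * E.G S X ω w z := fun z => by
      conv_lhs => rw [e2]
      rw [Matrix.sub_apply, sub_sub_cancel_left, Matrix.mul_apply, sum_comm]
      simp only [Matrix.mul_apply, sum_mul]
    have hG : ∀ z ∈ S.O, ‖E.G S X ω x z - E.G S ∅ ω x z‖ ≤ ∑ y, ∑ w,
        3 * exp (P ^ 6) ^ 2 * exp (-α) * (fe l y x * (fe l w y * fe l z w)) := fun z hz => by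
      rw [e3, norm_neg]
      refine (norm_sum_le _ _).trans (sum_le_sum fun y _ =>
        (norm_sum_le _ _).trans (sum_le_sum fun w _ => ?_))
      rw [norm_mul, norm_mul, h.G_symm X ω w z]
      have a0 := fe0 l x y
      have a1 := fe0 l z w
      have b : ‖E.G S X ω z w‖ ≤ exp (P ^ 6) * fe l z w := (g1 z hz w).trans
        (mul_le_mul_of_nonneg_left (mul_le_of_le_one_right a1.le (fe1 _ _ _)) (exp_pos _).le)
      refine (mul_le_mul (mul_le_mul (g0 y) (k y w) (norm_nonneg _) (by positivity)) b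
        (norm_nonneg _) (by positivity)).trans_eq ?_
      have e : fe l x y * exp (-(α - (nm (x - y) : ℝ) / (2 * l) + (nm (y - w) : ℝ) / (2 * l))) =
          exp (-α) * fe l w y := by
        rw [fe, fe, ← exp_add, ← exp_add, nm_comm w y]
        congr 1
        ring
      rw [fe_comm l y x]
      linear_combination 3 * exp (P ^ 6) ^ 2 * fe l x y * fe l z w * e
    have V := fun y T => row h y T
    have s3 : ∑ z ∈ S.O, ∑ y, ∑ w, fe l y x * (fe l w y * fe l z w) ≤ exp (2 * P ^ 2) ^ 3 := by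
      rw [sum_comm, pow_succ' _ 2]
      refine le_trans (sum_le_sum fun y _ => ?_) ((sum_mul _ _ _).symm.trans_le
        (mul_le_mul_of_nonneg_right (V x univ) (by positivity)))
      rw [sum_comm]
      simp only [← mul_sum]
      refine mul_le_mul_of_nonneg_left ?_ (fe0 _ _ _).le
      rw [pow_two]
      exact le_trans (sum_le_sum fun w _ => mul_le_mul_of_nonneg_left (V w S.O) (fe0 _ _ _).le)
        ((sum_mul _ _ _).symm.trans_le (mul_le_mul_of_nonneg_right (V y univ) (by positivity)))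
    calc _ ≤ ∑ z ∈ S.O, ((∑ y, ∑ w, 3 * exp (P ^ 6) ^ 2 * exp (-α) *
          (fe l y x * (fe l w y * fe l z w))) + exp (-α) * fe l z x) := by
          refine sum_le_sum fun z hz => le_trans ?_ (add_le_add (hG z hz) (ha z))
          rw [← Γ_empty (ω := ω), Γ_eq, Γ_eq, sub_sub_sub_comm]
          exact norm_sub_le _ _
      _ ≤ 3 * exp (P ^ 6) ^ 2 * exp (-α) * exp (2 * P ^ 2) ^ 3 + exp (-α) * exp (2 * P ^ 2) := by
          rw [sum_add_distrib]
          simp only [← mul_sum]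
          refine add_le_add (mul_le_mul_of_nonneg_left ?_ (by positivity))
            (mul_le_mul_of_nonneg_left (V x S.O) (exp_pos _).le)
          simpa only [← mul_sum] using s3
      _ ≤ 3 * exp (-P ^ 7 / 4 - 2) + exp (-P ^ 7 / 4 - 2) := by
          refine add_le_add ?_ ?_
          · rw [mul_assoc, mul_assoc, ← exp_nat_mul, ← exp_nat_mul, ← exp_add, ← exp_add]
            refine mul_le_mul_of_nonneg_left (exp_le_exp.2 ?_) (by norm_num)
            push_cast
            linarith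
          · rw [← exp_add, exp_le_exp]
            linarith
      _ ≤ _ := by
          have a : (4 : ℝ) ≤ exp 2 := by
            have := add_one_le_exp 1
            rw [show (2 : ℝ) = 1 + 1 by norm_num, exp_add]
            nlinarith
          have b : exp (-P ^ 7 / 4) = exp (-P ^ 7 / 4 - 2) * exp 2 := by
            rw [← exp_add, sub_add_cancel]
          rw [b]
          nlinarith [exp_pos (-P ^ 7 / 4 - 2)]
  · rw [← a_empty (ω := ω), a_eq, a_eq, ← sub_div, abs_div, abs_of_pos h.hE.η0, ← Complex.sub_im,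
      div_eq_mul_one_div]
    refine (mul_le_mul ((Complex.abs_im_le_norm _).trans ((ha x).trans
      (mul_le_of_le_one_right (exp_pos _).le (fe1 _ _ _)))) (h.hq.inv_η h.hE)
      (one_div_pos.2 h.hE.η0).le (exp_pos _).le).trans ?_
    rw [← exp_add, exp_le_exp]
    linarith
  · refine (sum_sq_le_sq_sum_of_nonneg fun _ _ => norm_nonneg _).trans
      (pow_le_one₀ (sum_nonneg fun _ _ => norm_nonneg _) ?_)
    calc _ ≤ ∑ z ∈ X, exp (P ^ 6) * exp (-α) * fe l z x := by
          refine sum_le_sum fun z hz => (g1 x xO z).trans ?_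
          rw [mul_assoc, fe_comm l z x]
          refine mul_le_mul_of_nonneg_left (mul_le_mul_of_nonneg_right (exp_le_exp.2 ?_)
            (fe0 _ _ _).le) (exp_pos _).le
          rw [neg_div]
          exact neg_le_neg (PFARA.dist h hx (hX hz))
      _ ≤ exp (P ^ 6) * exp (-α) * exp (2 * P ^ 2) := by
          rw [← mul_sum]
          exact mul_le_mul_of_nonneg_left (row h x X) (by positivity)
      _ ≤ 1 := by
          rw [← exp_add, ← exp_add, exp_le_one_iff]
          linarith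

end Pool.Agent.P.MP_d0f69c_mp.XS.Pre
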