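import Pool.Agent.P.MP_d0f69c_mp.XS.PIfG

/-!
Gluing step of the preparation stage: forms, far pairs.
-/

set_option autoImplicit false

open Finset Real

namespace Pool.Agent.P.MP_d0f69c_mp.XS.Pre

namespace PG4

variable {d M : ℕ} [NeZero M]

theorem alg {a b a' b' g g' T e : ℝ} (ha : 1 / 2 ≤ a ∧ a ≤ 2) (hb : 1 / 2 ≤ b ∧ b ≤ 2)
    (ha' : 1 / 2 ≤ a' ∧ a' ≤ 2) (hb' : 1 / 2 ≤ b' ∧ b' ≤ 2) (g0 : 0 ≤ g) (g0' : 0 ≤ g')
    (gT : g ≤ T) (gT' : g' ≤ T) (he : 0 ≤ e) (hd : |g' - g| ≤ e)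
    (h1 : a' = a ∨ g ^ 2 ≤ 3 * e) (h2 : b' = b ∨ g ^ 2 ≤ 3 * e) :
    |a' * b' * g' ^ 2 - a * b * g ^ 2| ≤ (8 * T + 24) * e := by
  have e1 : a' * b' * g' ^ 2 - a * b * g ^ 2 =
      a' * b' * ((g' + g) * (g' - g)) + (a' * ((b' - b) * g ^ 2) + b * ((a' - a) * g ^ 2)) := by
    ring
  have k : ∀ {c c' : ℝ}, (1 / 2 ≤ c ∧ c ≤ 2) → (1 / 2 ≤ c' ∧ c' ≤ 2) →
      (c' = c ∨ g ^ 2 ≤ 3 * e) → |(c' - c) * g ^ 2| ≤ 6 * e := by
    intro c c' hc hc' h
    rcases h with h | h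
    · rw [h, sub_self, zero_mul, abs_zero]; positivity
    · rw [abs_mul, abs_of_nonneg (sq_nonneg g)]
      have : |c' - c| ≤ 2 := abs_le.2 ⟨by linarith [hc.2, hc'.1], by linarith [hc.1, hc'.2]⟩
      nlinarith [abs_nonneg (c' - c), sq_nonneg g]
  have k1 : |a' * b' * ((g' + g) * (g' - g))| ≤ 8 * T * e := by
    have p1 : 0 ≤ a' * b' := mul_nonneg (by linarith [ha'.1]) (by linarith [hb'.1])
    have p2 : a' * b' ≤ 4 := by nlinarith [ha'.1, ha'.2, hb'.1, hb'.2]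
    rw [abs_mul, abs_mul (g' + g), abs_of_nonneg p1, abs_of_nonneg (add_nonneg g0' g0)]
    calc _ ≤ 4 * ((2 * T) * e) := mul_le_mul p2 (mul_le_mul (by linarith) hd (abs_nonneg _)
          (by linarith)) (mul_nonneg (add_nonneg g0' g0) (abs_nonneg _)) (by norm_num)
      _ = _ := by ring
  have k2 : |a' * ((b' - b) * g ^ 2)| ≤ 12 * e := by
    rw [abs_mul, abs_of_nonneg (by linarith [ha'.1] : 0 ≤ a')]
    calc _ ≤ 2 * (6 * e) := mul_le_mul ha'.2 (k hb hb' h2) (abs_nonneg _) (by norm_num)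
      _ = _ := by ring
  have k3 : |b * ((a' - a) * g ^ 2)| ≤ 12 * e := by
    rw [abs_mul, abs_of_nonneg (by linarith [hb.1] : 0 ≤ b)]
    calc _ ≤ 2 * (6 * e) := mul_le_mul hb.2 (k ha ha' h1) (abs_nonneg _) (by norm_num)
      _ = _ := by ring
  rw [e1]
  refine (abs_add_le _ _).trans ((add_le_add k1 ((abs_add_le _ _).trans (add_le_add k2 k3))).trans
    (le_of_eq (by ring)))

omit [NeZero M] in
/-- the square of a decaying entry against the envelope -/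
theorem sq_env {P g : ℝ} {l : ℕ} (hl : 1 ≤ l) (g0 : 0 ≤ g) {n : ℕ} {x y : Tor d M}
    (hg : g ≤ exp (P ^ 6) * exp (-(n : ℝ) / l)) (hn : nm x + nm y ≤ 2 * l + n) :
    g ^ 2 ≤ 3 * (ew P l x * ew P l y) := by
  have l0 : (0 : ℝ) < l := by exact_mod_cast hl
  have hn' : (nm x : ℝ) + nm y ≤ 2 * l + n := by exact_mod_cast hn
  have n0 : (0 : ℝ) ≤ n := Nat.cast_nonneg _
  have a : exp (-(n : ℝ) / l) * exp (-(n : ℝ) / l) ≤
      exp 1 * (exp (-(nm x : ℝ) / (2 * l)) * exp (-(nm y : ℝ) / (2 * l))) := by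
    rw [← exp_add, ← exp_add, ← exp_add, exp_le_exp]
    have e1 : -(n : ℝ) / l + -(n : ℝ) / l = (-4 * n) / (2 * l) := by field_simp; ring
    have e2 : 1 + (-(nm x : ℝ) / (2 * l) + -(nm y : ℝ) / (2 * l)) =
        (2 * l - nm x - nm y) / (2 * l) := by field_simp; ring
    rw [e1, e2]
    exact div_le_div_of_nonneg_right (by linarith) (by positivity)
  have b : exp 1 ≤ 3 := exp_one_lt_d9.le.trans (by norm_num)
  calc g ^ 2 ≤ (exp (P ^ 6) * exp (-(n : ℝ) / l)) ^ 2 := pow_le_pow_left₀ g0 hg 2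
    _ = exp (P ^ 6) ^ 2 * (exp (-(n : ℝ) / l) * exp (-(n : ℝ) / l)) := by ring
    _ ≤ exp (P ^ 6) ^ 2 * (3 * (exp (-(nm x : ℝ) / (2 * l)) * exp (-(nm y : ℝ) / (2 * l)))) :=
        mul_le_mul_of_nonneg_left (a.trans (mul_le_mul_of_nonneg_right b (by positivity)))
          (by positivity)
    _ = _ := by unfold ew; ring

variable {E : PEnv d M} {q : PPar d M} {S : St (Tor d M)} {J : Finset (Tor d M)}
  {ω : Tor d M → Bool} {κ : Tor d M → ℕ}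

theorem wt_eq (h : PGH E q S J ω κ) (τ : Bool) {v u : Tor d M} (hv : v ∈ Zg S J) (hu : u ≠ v) :
    wt E q S τ (Zg S J \ insert v (Xv S J κ v)) u = wt E q S τ (Zg S J \ Xv S J κ v) u ∨
      nm (u - v) ≤ q.li E.η 2 := by
  by_cases hk : q.Kk (u - v) = 0
  · left
    have hv' : v ∈ Zg S J \ Xv S J κ v :=
      mem_sdiff.2 ⟨hv, fun a => lt_irrefl _ (mem_filter.1 a).2⟩
    rw [sdiff_insert, wt, wt, ← add_sum_erase _ _ hv', hk, zero_add]
    simp only [mem_erase, ne_eq, hu, not_false_eq_true, true_and]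
  · exact Or.inr ((h.KD _ hk).trans (h.hq.l_le_li h.hE 2))

theorem G_le (h : PGH E q S J ω κ) (hD : PGD E q S J ω κ) (t : ℕ) {x : Tor d M} (hx : x ∈ S.O)
    (y : Tor d M) : ‖E.G S (pre κ (Zg S J) t) ω x y‖ ≤
      exp ((q.P : ℝ) ^ 6) * exp (-(nm (x - y) : ℝ) / (q.li E.η 2 : ℕ)) :=
  (hD.dec t x hx y).trans (mul_le_mul_of_nonneg_right (h.hq.Bi_le (by norm_num)) (exp_pos _).le)

theorem G_le' (h : PGH E q S J ω κ) (hD : PGD E q S J ω κ) (t : ℕ) {x : Tor d M} (hx : x ∈ S.O)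
    (y : Tor d M) : ‖E.G S (pre κ (Zg S J) t) ω x y‖ ≤ exp ((q.P : ℝ) ^ 6) :=
  (G_le h hD t hx y).trans (mul_le_of_le_one_right (exp_pos _).le (exp_le_one_iff.2
    (div_nonpos_of_nonpos_of_nonneg (neg_nonpos.2 (Nat.cast_nonneg _)) (Nat.cast_nonneg _))))

theorem dK_le (h : PGH E q S J ω κ) (hD : PGD E q S J ω κ) (hC : PGC E q S J ω κ) (τ : Bool)
    {v x y : Tor d M} (hv : v ∈ Zg S J) (hx : x ∈ (S.O \ Xv S J κ v).erase v)
    (hy : y ∈ (S.O \ Xv S J κ v).erase v) :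
    |dKt E q S J ω κ τ v x y| ≤ exp (3 * (q.P : ℝ) ^ 6) *
      (ew q.P (q.li E.η 2) (x - v) * ew q.P (q.li E.η 2) (y - v)) := by
  have hxO : x ∈ S.O := (mem_sdiff.1 (mem_erase.1 hx).2).1
  have hyO : y ∈ S.O := (mem_sdiff.1 (mem_erase.1 hy).2).1
  have hl := h.hq.li_one h.hE 2
  have g1 := G_le h hD (κ v) hxO y
  have g2 := G_le' h hD (κ v + 1) hxO y
  rw [pre_succ h.inj hv] at g2
  have t1 := nm_tri x y v
  have t2 := nm_tri y x v
  rw [nm_comm y x] at t2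
  have e0 : 0 ≤ ew q.P (q.li E.η 2) (x - v) * ew q.P (q.li E.η 2) (y - v) :=
    mul_nonneg (ew_pos _ _ _).le (ew_pos _ _ _).le
  refine (alg (h.wt_le τ _ hxO) (h.wt_le τ _ hyO) (h.wt_le τ _ hxO) (h.wt_le τ _ hyO)
    (norm_nonneg _) (norm_nonneg _) (G_le' h hD (κ v) hxO y) g2 e0
    ((abs_norm_sub_norm_le _ _).trans (hC.stp v hv x hxO y hyO))
    ((wt_eq h τ hv (mem_erase.1 hx).1).imp_right fun a =>
      sq_env hl (norm_nonneg _) g1 (by omega))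
    ((wt_eq h τ hv (mem_erase.1 hy).1).imp_right fun a =>
      sq_env hl (norm_nonneg _) g1 (by omega))).trans (mul_le_mul_of_nonneg_right ?_ e0)
  have p1 : (10 : ℝ) ^ 9 ≤ (q.P : ℝ) ^ 6 := by
    have := h.scl.pow_le (show 1 ≤ 6 by norm_num)
    rw [pow_one] at this
    exact h.scl.P9.trans this
  have p2 : (32 : ℝ) ≤ exp ((q.P : ℝ) ^ 6) := by linarith [add_one_le_exp ((q.P : ℝ) ^ 6)]
  rw [show 3 * (q.P : ℝ) ^ 6 = (q.P : ℝ) ^ 6 + ((q.P : ℝ) ^ 6 + (q.P : ℝ) ^ 6) by ring, exp_add,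
    exp_add]
  nlinarith [mul_le_mul p2 p2 (by norm_num) (exp_pos _).le]

theorem K_le (h : PGH E q S J ω κ) (hD : PGD E q S J ω κ) (τ : Bool) {v x : Tor d M}
    (hv : v ∈ Zg S J) (hx : x ∈ (S.O \ Xv S J κ v).erase v \ Sv E q S (Xv S J κ v) v) :
    Kt E q S τ (Zg S J) (Xv S J κ v) ω x v ≤
      4 * exp ((q.P : ℝ) ^ 6) * Scl.fw q.P (q.li E.η 2) (q.D E.η 2) (x - v) := by
  obtain ⟨h1, h2⟩ := mem_sdiff.1 hx
  have hxO : x ∈ S.O := (mem_sdiff.1 (mem_erase.1 h1).2).1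
  have hvO : v ∈ S.O := mem_union_left _ (mem_union_left _ (Zg_sub S J hv))
  have hf : q.D E.η 2 < nm (x - v) := not_le.1 fun a =>
    h2 (mem_erase.2 ⟨(mem_erase.1 h1).1, mem_inter.2 ⟨(mem_erase.1 h1).2, mem_bl.2 a⟩⟩)
  have l0 : (0 : ℝ) < (q.li E.η 2 : ℕ) := by exact_mod_cast h.hq.li_one h.hE 2
  have a := h.wt_le τ (Zg S J \ Xv S J κ v) hxO
  have b := h.wt_le τ (Zg S J \ Xv S J κ v) hvO
  have g1 := G_le h hD (κ v) hxO v
  have g2 := G_le' h hD (κ v) hxO v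
  have g3 : ‖E.G S (Xv S J κ v) ω x v‖ ≤ ew q.P (q.li E.η 2) (x - v) := by
    refine g1.trans (mul_le_mul_of_nonneg_left (exp_le_exp.2 ?_) (exp_pos _).le)
    rw [neg_div, neg_div, neg_le_neg_iff]
    exact div_le_div_of_nonneg_left (Nat.cast_nonneg _) l0 (by linarith)
  rw [Scl.fw, if_pos hf, mul_assoc]
  refine mul_le_mul (by nlinarith [a.1, a.2, b.1, b.2]) ?_ (sq_nonneg _) (by norm_num)
  rw [sq]
  exact mul_le_mul g2 g3 (norm_nonneg _) (exp_pos _).le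

theorem far_sum {E : Env d M} {P : ℝ} {l D : ℕ} (h : Scl E P l D) (F : Tor d M → ℝ) :
    ∑ v, ∑ x, 4 * exp (P ^ 6) * Scl.fw P l D (x - v) * (F x - F v) ^ 2 ≤
      1 / P ^ 3 * NF E.p F := by
  have hP := h.P0
  have hN : 0 ≤ NF E.p F := NF_nonneg h.hE.ref.p0 F
  have c1 := h.hE.ref.c1
  have k5 : 4 * E.CS * P ^ 3 ≤ P ^ 4 := by
    rw [pow_succ' P 3]; exact mul_le_mul_of_nonneg_right (by nlinarith [h.CS]) (by positivity)
  have one : (1 : ℝ) ≤ exp (P ^ 6) := one_le_exp (by positivity)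
  have one' : (1 : ℝ) ≤ exp (3 * P ^ 6) := one_le_exp (by positivity)
  calc _ = ∑ v, ∑ z, 4 * exp (P ^ 6) * Scl.fw P l D z * (F (v + z) - F v) ^ 2 := by
        refine sum_congr rfl fun v _ => ?_
        rw [← Equiv.sum_comp (Equiv.addLeft v)]
        simp only [Equiv.coe_addLeft, add_sub_cancel_left]
    _ = 4 * exp (P ^ 6) * ∑ z, Scl.fw P l D z * ∑ v, (F (v + z) - F v) ^ 2 := by
        rw [sum_comm, mul_sum]
        refine sum_congr rfl fun z _ => ?_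
        rw [mul_sum, mul_sum]
        exact sum_congr rfl fun v _ => by ring
    _ ≤ 4 * exp (P ^ 6) * (exp (-P ^ 7) * (E.CS * NF E.p F)) := by
        refine mul_le_mul_of_nonneg_left ?_ (by positivity)
        refine (sum_le_sum fun z _ => mul_le_mul_of_nonneg_left (h.shift F z) (Scl.fw0 z)).trans ?_
        simp only [← mul_assoc]
        rw [← sum_mul, ← sum_mul]
        exact mul_le_mul_of_nonneg_right (mul_le_mul_of_nonneg_right h.fw_sum (by linarith)) hN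
    _ = exp (-P ^ 7) * (1 * (1 * exp (P ^ 6)) * (4 * E.CS * P ^ 3)) * (1 / P ^ 3 * NF E.p F) := by
        field_simp
    _ ≤ exp (-P ^ 7) * (exp (3 * P ^ 6) * (exp (P ^ 6) * exp (P ^ 6)) * (4 * E.CS * P ^ 3)) *
        (1 / P ^ 3 * NF E.p F) := by gcongr
    _ ≤ _ := mul_le_of_le_one_left (by positivity) (h.tiny k5)

end PG4

theorem t_pg4 : S_PG4 := by
  intro d M _ E q S J ω κ h hD hC τ F
  constructor
  · have := h.scl.far_form (Zg S J) (fun v => (S.O \ Xv S J κ v).erase v) (dKt E q S J ω κ τ)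
      (fun v hv x hx y hy => PG4.dK_le h hD hC τ hv hx hy) F
    refine le_trans (le_of_eq (sum_congr rfl fun v _ => ?_)) this
    rw [Sv, erase_inter]
  · refine le_trans ?_ (PG4.far_sum h.scl F)
    have p0 : ∀ v x, 0 ≤ 4 * exp ((q.P : ℝ) ^ 6) * Scl.fw q.P (q.li E.η 2) (q.D E.η 2) (x - v) *
        (F x - F v) ^ 2 := fun v x =>
      mul_nonneg (mul_nonneg (by positivity) (Scl.fw0 _)) (sq_nonneg _)
    refine le_trans (sum_le_sum fun v hv => ?_) (sum_le_sum_of_subset_of_nonneg (subset_univ _)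
      fun v _ _ => sum_nonneg fun x _ => p0 v x)
    exact le_trans (sum_le_sum fun x hx => mul_le_mul_of_nonneg_right (PG4.K_le h hD τ hv hx)
      (sq_nonneg _)) (sum_le_sum_of_subset_of_nonneg (subset_univ _) fun x _ _ => p0 v x)

end Pool.Agent.P.MP_d0f69c_mp.XS.Pre
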