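import Pool.Agent.P.MP_d0f69c_mp.XS.PIfT
import Pool.Agent.P.MP_d0f69c_mp.XS.PG4

/-!
The flow on the torus: far pairs in the change of the energy.
-/

set_option autoImplicit false
set_option linter.dupNamespace false

open Finset Real
open scoped Matrix

namespace Pool.Agent.P.MP_d0f69c_mp.XS.Pre

namespace PFFA

theorem pt {ι : Type} [Fintype ι] [AddCommGroup ι] (f g F : ι → ℝ) (v : ι) :
    ∑ x, ∑ y, (f (x - v) * g (y - v) + g (x - v) * f (y - v)) *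
      ((F x - F v) ^ 2 + (F y - F v) ^ 2) =
    ∑ h, 2 * (f h * (∑ k, g k) + g h * ∑ k, f k) * (F (v + h) - F v) ^ 2 := by
  have e : ∑ x, ∑ y, (f (x - v) * g (y - v) + g (x - v) * f (y - v)) *
      ((F x - F v) ^ 2 + (F y - F v) ^ 2) = ∑ h, ∑ k, (f h * g k + g h * f k) *
      ((F (v + h) - F v) ^ 2 + (F (v + k) - F v) ^ 2) := by
    symm
    refine Fintype.sum_equiv (Equiv.addLeft v) _ _ fun h => ?_
    refine Fintype.sum_equiv (Equiv.addLeft v) _ _ fun k => ?_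
    simp
  have e1 : ∑ h, ∑ k, (f h * g k + g h * f k) * (F (v + h) - F v) ^ 2 =
      ∑ h, (f h * (∑ k, g k) + g h * ∑ k, f k) * (F (v + h) - F v) ^ 2 :=
    sum_congr rfl fun h _ => by rw [← sum_mul, sum_add_distrib, ← mul_sum, ← mul_sum]
  have e2 : ∑ h, ∑ k, (f h * g k + g h * f k) * (F (v + k) - F v) ^ 2 =
      ∑ h, (f h * (∑ k, g k) + g h * ∑ k, f k) * (F (v + h) - F v) ^ 2 := by
    rw [sum_comm, ← e1]
    exact sum_congr rfl fun h _ => sum_congr rfl fun k _ => by ring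
  rw [e]
  simp only [mul_add (_ + _), sum_add_distrib]
  rw [e1, e2, ← sum_add_distrib]
  exact sum_congr rfl fun h _ => by ring

variable {d M : ℕ} [NeZero M]

theorem far1 {E : Env d M} {P : ℝ} {l D : ℕ} (h : Scl E P l D) (F : Tor d M → ℝ) :
    ∑ v, exp (3 * P ^ 6) * ∑ x, ∑ y,
        (Scl.fw P l D (x - v) * ew P l (y - v) + ew P l (x - v) * Scl.fw P l D (y - v)) *
          ((F x - F v) ^ 2 + (F y - F v) ^ 2) ≤ 1 / P ^ 3 * NF E.p F := by
  have hP := h.P0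
  have hN : 0 ≤ NF E.p F := NF_nonneg h.hE.ref.p0 F
  have c1 := h.hE.ref.c1
  have g0 : ∀ z : Tor d M, 0 ≤ ew P l z := fun z => (ew_pos _ _ z).le
  have k2 := G3A.two (Scl.fw P l D) (ew P l) (fun z => (1 + nm z) ^ 2) F (E.CS * NF E.p F)
    (by positivity) g0 Scl.fw0 Scl.s1 (h.shift F)
  have k5 : 4 * E.CS * P ^ 3 ≤ P ^ 4 := by
    rw [pow_succ' P 3]; exact mul_le_mul_of_nonneg_right (by nlinarith [h.CS]) (by positivity)
  calc _ ≤ exp (3 * P ^ 6) * (4 * (E.CS * NF E.p F) *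
        (exp (-P ^ 7) * (exp (P ^ 6) * exp (P ^ 6)))) := by
        rw [← mul_sum]
        exact mul_le_mul_of_nonneg_left (k2.trans (mul_le_mul_of_nonneg_left
          (mul_le_mul h.fw_sum h.ew_sum (sum_nonneg fun z _ => mul_nonneg (g0 z) (sq_nonneg _))
            (exp_pos _).le) (by positivity))) (exp_pos _).le
    _ = exp (-P ^ 7) * (exp (3 * P ^ 6) * (exp (P ^ 6) * exp (P ^ 6)) * (4 * E.CS * P ^ 3)) *
        (1 / P ^ 3 * NF E.p F) := by field_simp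
    _ ≤ _ := mul_le_of_le_one_left (by positivity) (h.tiny k5)

/-- the kernel of the bound -/
noncomputable def kp (P : ℝ) (l D : ℕ) (h : Tor d M) : ℝ :=
  exp (3 * P ^ 6) * (2 * (Scl.fw P l D h * (∑ k : Tor d M, ew P l k) +
    ew P l h * ∑ k : Tor d M, Scl.fw P l D k)) + 4 * exp (P ^ 6) * Scl.fw P l D h

theorem kp0 (P : ℝ) (l D : ℕ) (h : Tor d M) : 0 ≤ kp P l D h :=
  add_nonneg (mul_nonneg (exp_pos _).le (mul_nonneg zero_le_two (add_nonneg
    (mul_nonneg (Scl.fw0 _) (sum_nonneg fun _ _ => (ew_pos _ _ _).le))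
    (mul_nonneg (ew_pos _ _ _).le (sum_nonneg fun _ _ => Scl.fw0 _)))))
    (mul_nonneg (by positivity) (Scl.fw0 _))

theorem kp_eq (P : ℝ) (l D : ℕ) (F : Tor d M → ℝ) (v : Tor d M) :
    ∑ h, kp P l D h * (F (v + h) - F v) ^ 2 = exp (3 * P ^ 6) * ∑ x, ∑ y,
        (Scl.fw P l D (x - v) * ew P l (y - v) + ew P l (x - v) * Scl.fw P l D (y - v)) *
          ((F x - F v) ^ 2 + (F y - F v) ^ 2) +
      ∑ x, 4 * exp (P ^ 6) * Scl.fw P l D (x - v) * (F x - F v) ^ 2 := by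
  have e : ∑ x, 4 * exp (P ^ 6) * Scl.fw P l D (x - v) * (F x - F v) ^ 2 =
      ∑ z, 4 * exp (P ^ 6) * Scl.fw P l D z * (F (v + z) - F v) ^ 2 := by
    rw [← Equiv.sum_comp (Equiv.addLeft v)]
    simp only [Equiv.coe_addLeft, add_sub_cancel_left]
  rw [pt, e, mul_sum, ← sum_add_distrib]
  exact sum_congr rfl fun h _ => by unfold kp; ring

variable {E : PEnv d M} {q : PPar d M} {S : St (Tor d M)} {c : Tor d M} {Z Sg : Finset (Tor d M)}

theorem wtri (h : PFH E q S c Z Sg) {x y u : Tor d M} {α : ℝ}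
    (hα : α ≤ (nm (x - u) : ℝ) / (2 * q.li E.η 2)) :
    α - (nm (x - y) : ℝ) / (2 * q.li E.η 2) ≤ (2 * nm (y - u) : ℝ) / q.l := by
  have l1 : (1 : ℝ) ≤ q.l := by exact_mod_cast h.hq.l_one h.hE
  have l2 : (q.l : ℝ) ≤ q.li E.η 2 := by exact_mod_cast h.hq.l_le_li h.hE 2
  have t : (nm (x - u) : ℝ) ≤ nm (x - y) + nm (y - u) := by exact_mod_cast nm_tri x y u
  have n0 : (0 : ℝ) ≤ nm (y - u) := Nat.cast_nonneg _
  have a : (nm (x - u) : ℝ) / (2 * q.li E.η 2) ≤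
      nm (x - y) / (2 * q.li E.η 2) + nm (y - u) / (2 * q.li E.η 2) := by
    rw [← add_div]; exact div_le_div_of_nonneg_right t (by linarith)
  have b : (nm (y - u) : ℝ) / (2 * q.li E.η 2) ≤ (2 * nm (y - u) : ℝ) / q.l :=
    div_le_div₀ (by linarith) (by linarith) (by linarith) (by linarith)
  linarith

theorem row (h : PFH E q S c Z Sg) (x : Tor d M) (α : ℝ) :
    ∑ y, q.Bi 2 * exp (-(nm (x - y) : ℝ) / q.li E.η 2) *
      exp (-(α - (nm (x - y) : ℝ) / (2 * q.li E.η 2))) ≤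
      q.Bi 2 * exp (2 * (q.P : ℝ) ^ 2) * exp (-α) := by
  have B0 : 0 ≤ q.Bi 2 := zero_le_one.trans (h.hq.Bi_one 2)
  have l1 : (1 : ℝ) ≤ q.li E.η 2 := by exact_mod_cast h.hq.li_one h.hE 2
  refine le_trans (le_of_eq ?_) (mul_le_mul_of_nonneg_right (mul_le_mul_of_nonneg_left
    (h.hq.sum_exp h.hE t_far (show 2 ≤ 3 by norm_num) x) B0) (exp_pos _).le)
  rw [mul_sum, sum_mul]
  refine sum_congr rfl fun y _ => ?_
  rw [mul_assoc, mul_assoc, ← exp_add, ← exp_add, nm_comm y x]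
  congr 2
  field_simp
  ring

theorem num (h : PFH E q S c Z Sg) :
    3 * (q.Bi 2 * exp (2 * (q.P : ℝ) ^ 2)) ^ 2 ≤ exp ((q.P : ℝ) ^ 6) ^ 2 := by
  have B0 : 0 ≤ q.Bi 2 := zero_le_one.trans (h.hq.Bi_one 2)
  have a := h.hq.Bi_le (le_refl 3)
  rw [Par.OK.Bi_succ] at a
  have b : 2 * exp (2 * (q.P : ℝ) ^ 2) ≤ exp (20 * (q.P : ℝ) ^ 3) := by
    have c : (2 : ℝ) ≤ exp 1 := by linarith [add_one_le_exp 1]
    refine (mul_le_mul_of_nonneg_right c (exp_pos _).le).trans ?_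
    rw [← exp_add, exp_le_exp]
    have := h.hq.pow_le h.hE (show 2 ≤ 3 by norm_num)
    have := h.hq.pow_le h.hE (show 0 ≤ 3 by norm_num)
    rw [pow_zero] at this
    linarith
  have c : 2 * (q.Bi 2 * exp (2 * (q.P : ℝ) ^ 2)) ≤ exp ((q.P : ℝ) ^ 6) :=
    le_trans (by rw [mul_left_comm]; exact mul_le_mul_of_nonneg_left b B0) a
  have e : 0 ≤ q.Bi 2 * exp (2 * (q.P : ℝ) ^ 2) := by positivity
  nlinarith [pow_le_pow_left₀ (by positivity) c 2]

/-- two states that agree on `Λ` -/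
theorem core (h : PFH E q S c Z Sg) {ω : Tor d M → Bool} {Λ X X' : Finset (Tor d M)}
    (hX : X ⊆ S.good) (hX' : X' ⊆ S.good) (e : ∀ u ∈ Λ, u ∈ X ↔ u ∈ X')
    (g : DecX E q S X ω) (g' : DecX E q S X' ω) {x z : Tor d M} (hx : x ∈ S.O)
    (hz : z ∈ S.O) {α β : ℝ} (hα : ∀ u ∉ Λ, α ≤ (nm (x - u) : ℝ) / (2 * q.li E.η 2))
    (hβ : ∀ u ∉ Λ, β ≤ (nm (z - u) : ℝ) / (2 * q.li E.η 2)) :
    ‖E.G S X' ω x z - E.G S X ω x z‖ ≤
      exp ((q.P : ℝ) ^ 6) * exp (-α) * (exp ((q.P : ℝ) ^ 6) * exp (-β)) := by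
  have B0 : 0 ≤ q.Bi 2 := zero_le_one.trans (h.hq.Bi_one 2)
  set D := Wx E S ω X' - Wx E S ω X with hD
  have e1 : cr E.H + Wx E S ω X' = cr E.H + Wx E S ω X + D := by rw [hD]; abel
  have e2 := inv_add_eq (h.unit X hX ω) (e1 ▸ h.unit X' hX' ω)
  rw [← e1, ← G_eq, ← G_eq] at e2
  have hw : WL (fun x y => (2 * nm (x - y) : ℝ) / q.l) Λ D 3 :=
    (h.smk.lWw (agr e)).mono (by norm_num)
  have k : ∀ y w, ‖D y w‖ ≤ 3 * (exp (-(α - (nm (x - y) : ℝ) / (2 * q.li E.η 2))) *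
      exp (-(β - (nm (z - w) : ℝ) / (2 * q.li E.η 2)))) := fun y w => by
    rw [← exp_add, ← neg_add]
    refine hw.entry h.smk.pm fun u hu => add_le_add (wtri h (hα u hu)) ?_
    rw [nm_comm u w]
    exact wtri h (hβ u hu)
  have e3 : E.G S X' ω x z - E.G S X ω x z =
      -∑ w, ∑ y, E.G S X ω x y * D y w * E.G S X' ω w z := by
    conv_lhs => rw [e2]
    rw [Matrix.sub_apply, sub_sub_cancel_left, Matrix.mul_apply]
    simp only [Matrix.mul_apply, sum_mul]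
  rw [e3, norm_neg]
  calc _ ≤ ∑ w, ∑ y, 3 * ((q.Bi 2 * exp (-(nm (x - y) : ℝ) / q.li E.η 2) *
          exp (-(α - (nm (x - y) : ℝ) / (2 * q.li E.η 2)))) *
        (q.Bi 2 * exp (-(nm (z - w) : ℝ) / q.li E.η 2) *
          exp (-(β - (nm (z - w) : ℝ) / (2 * q.li E.η 2))))) := by
        refine (norm_sum_le _ _).trans (sum_le_sum fun w _ =>
          (norm_sum_le _ _).trans (sum_le_sum fun y _ => ?_))
        rw [norm_mul, norm_mul, h.G_symm X' ω w z]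
        refine (mul_le_mul (mul_le_mul (g x hx y) (k y w) (norm_nonneg _) (by positivity))
          (g' z hz w) (norm_nonneg _) (by positivity)).trans_eq ?_
        ring
    _ ≤ 3 * ((q.Bi 2 * exp (2 * (q.P : ℝ) ^ 2) * exp (-α)) *
        (q.Bi 2 * exp (2 * (q.P : ℝ) ^ 2) * exp (-β))) := by
        simp only [← mul_sum, ← sum_mul]
        exact mul_le_mul_of_nonneg_left (mul_le_mul (row h x α) (row h z β)
          (sum_nonneg fun _ _ => by positivity) (by positivity)) (by norm_num)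
    _ = 3 * (q.Bi 2 * exp (2 * (q.P : ℝ) ^ 2)) ^ 2 * (exp (-α) * exp (-β)) := by ring
    _ ≤ exp ((q.P : ℝ) ^ 6) ^ 2 * (exp (-α) * exp (-β)) :=
        mul_le_mul_of_nonneg_right (num h) (by positivity)
    _ = _ := by ring

theorem stp (h : PFH E q S c Z Sg) {ω : Tor d M → Bool} {X : Finset (Tor d M)} {v : Tor d M}
    (hX : X ⊆ Z) (hv : v ∈ Z) (g : DecX E q S X ω) (g' : DecX E q S (insert v X) ω)
    {x y : Tor d M} (hx : x ∈ S.O) (hy : y ∈ S.O) :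
    ‖E.G S (insert v X) ω x y - E.G S X ω x y‖ ≤
      ew q.P (q.li E.η 2) (x - v) * ew q.P (q.li E.η 2) (y - v) := by
  have a := core h (Λ := univ.erase v) (hX.trans h.Zg) ((insert_subset hv hX).trans h.Zg)
    (fun u hu => by rw [mem_insert, or_iff_right (mem_erase.1 hu).1])
    g g' hx hy (α := (nm (x - v) : ℝ) / (2 * q.li E.η 2))
    (β := (nm (y - v) : ℝ) / (2 * q.li E.η 2))
    (fun u hu => by rw [show u = v by simpa using hu])
    fun u hu => by rw [show u = v by simpa using hu]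
  simpa only [ew, neg_div] using a

theorem wt_le (h : PFH E q S c Z Sg) (τ : Bool) (rem : Finset (Tor d M)) {u : Tor d M}
    (hu : u ∈ S.O) : 1 / 2 ≤ wt E q S τ rem u ∧ wt E q S τ rem u ≤ 2 := by
  have e0 : 0 < q.eps := h.nq.ε0
  have e1 : q.eps ≤ 1 / 10 ^ 12 := h.nq.ε1
  have a0 : 0 ≤ ∑ v ∈ rem, q.Kk (u - v) := sum_nonneg fun _ _ => h.K0 _
  have a1 : ∑ v ∈ rem, q.Kk (u - v) ≤ 1 :=
    (sum_le_sum_of_subset_of_nonneg (subset_univ _) fun _ _ _ => h.K0 _).trans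
      (((Equiv.subLeft u).sum_comp q.Kk).trans_le h.K1)
  have s0 : 0 ≤ q.sig := mul_nonneg (by norm_num) e0.le
  have s1 : |sr τ| = 1 := by cases τ <;> simp [sr]
  have s2 : |sr τ * q.sig * ((if u ∈ rem then 1 else 0) + (∑ v ∈ rem, q.Kk (u - v)) / 2000)| ≤
      2001 / 2000 * q.sig := by
    rw [abs_mul, abs_mul, s1, one_mul, abs_of_nonneg s0, mul_comm]
    refine mul_le_mul_of_nonneg_right (abs_le.2 ⟨?_, ?_⟩) s0 <;> split_ifs <;> linarith
  have a := abs_le.1 s2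
  have b := abs_le.1 (h.a0 hu)
  have c : q.sig ≤ 1 / 10 ^ 7 := by rw [PPar.sig]; linarith
  rw [wt]
  constructor <;> nlinarith

theorem wt_eq (h : PFH E q S c Z Sg) (τ : Bool) {X : Finset (Tor d M)} {v u : Tor d M}
    (hv : v ∈ Z \ X) (hu : u ≠ v) :
    wt E q S τ (Z \ insert v X) u = wt E q S τ (Z \ X) u ∨ nm (u - v) ≤ q.li E.η 2 := by
  by_cases hk : q.Kk (u - v) = 0
  · left
    rw [sdiff_insert, wt, wt, ← add_sum_erase _ _ hv, hk, zero_add]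
    simp only [mem_erase, ne_eq, hu, not_false_eq_true, true_and]
  · exact Or.inr ((h.KD _ hk).trans (h.hq.l_le_li h.hE 2))

theorem G_le (h : PFH E q S c Z Sg) {ω : Tor d M → Bool} {X : Finset (Tor d M)}
    (g : DecX E q S X ω) {x : Tor d M} (hx : x ∈ S.O) (y : Tor d M) : ‖E.G S X ω x y‖ ≤
      exp ((q.P : ℝ) ^ 6) * exp (-(nm (x - y) : ℝ) / (q.li E.η 2 : ℕ)) :=
  (g x hx y).trans (mul_le_mul_of_nonneg_right (h.hq.Bi_le (by norm_num)) (exp_pos _).le)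

theorem G_le' (h : PFH E q S c Z Sg) {ω : Tor d M → Bool} {X : Finset (Tor d M)}
    (g : DecX E q S X ω) {x : Tor d M} (hx : x ∈ S.O) (y : Tor d M) :
    ‖E.G S X ω x y‖ ≤ exp ((q.P : ℝ) ^ 6) :=
  (G_le h g hx y).trans (mul_le_of_le_one_right (exp_pos _).le (exp_le_one_iff.2
    (div_nonpos_of_nonpos_of_nonneg (neg_nonpos.2 (Nat.cast_nonneg _)) (Nat.cast_nonneg _))))

theorem dK_le (h : PFH E q S c Z Sg) (τ : Bool) {ω : Tor d M → Bool} {X : Finset (Tor d M)}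
    {v x y : Tor d M} (hX : X ⊆ Z) (hv : v ∈ Z \ X) (g : DecX E q S X ω)
    (g' : DecX E q S (insert v X) ω) (hx : x ∈ (S.O \ X).erase v) (hy : y ∈ (S.O \ X).erase v) :
    |(Kt E q S τ Z (insert v X) ω - Kt E q S τ Z X ω) x y| ≤ exp (3 * (q.P : ℝ) ^ 6) *
      (ew q.P (q.li E.η 2) (x - v) * ew q.P (q.li E.η 2) (y - v)) := by
  have hxO : x ∈ S.O := (mem_sdiff.1 (mem_erase.1 hx).2).1
  have hyO : y ∈ S.O := (mem_sdiff.1 (mem_erase.1 hy).2).1
  have hl := h.hq.li_one h.hE 2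
  have g1 := G_le h g hxO y
  have g2 := G_le' h g' hxO y
  have t1 := nm_tri x y v
  have t2 := nm_tri y x v
  rw [nm_comm y x] at t2
  have e0 : 0 ≤ ew q.P (q.li E.η 2) (x - v) * ew q.P (q.li E.η 2) (y - v) :=
    mul_nonneg (ew_pos _ _ _).le (ew_pos _ _ _).le
  refine (PG4.alg (wt_le h τ _ hxO) (wt_le h τ _ hyO) (wt_le h τ _ hxO) (wt_le h τ _ hyO)
    (norm_nonneg _) (norm_nonneg _) (G_le' h g hxO y) g2 e0
    ((abs_norm_sub_norm_le _ _).trans (stp h hX (mem_sdiff.1 hv).1 g g' hxO hyO))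
    ((wt_eq h τ hv (mem_erase.1 hx).1).imp_right fun a =>
      PG4.sq_env hl (norm_nonneg _) g1 (by omega))
    ((wt_eq h τ hv (mem_erase.1 hy).1).imp_right fun a =>
      PG4.sq_env hl (norm_nonneg _) g1 (by omega))).trans (mul_le_mul_of_nonneg_right ?_ e0)
  have p1 : (10 : ℝ) ^ 9 ≤ (q.P : ℝ) ^ 6 := by
    have := h.toPFN.scl.pow_le (show 1 ≤ 6 by norm_num)
    rw [pow_one] at this
    exact h.toPFN.scl.P9.trans this
  have p2 : (32 : ℝ) ≤ exp ((q.P : ℝ) ^ 6) := by linarith [add_one_le_exp ((q.P : ℝ) ^ 6)]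
  rw [show 3 * (q.P : ℝ) ^ 6 = (q.P : ℝ) ^ 6 + ((q.P : ℝ) ^ 6 + (q.P : ℝ) ^ 6) by ring, exp_add,
    exp_add]
  nlinarith [mul_le_mul p2 p2 (by norm_num) (exp_pos _).le]

theorem K_le (h : PFH E q S c Z Sg) (τ : Bool) {ω : Tor d M → Bool} {X : Finset (Tor d M)}
    {v x : Tor d M} (hv : v ∈ Z \ X) (g : DecX E q S X ω)
    (hx : x ∈ (S.O \ X).erase v \ Sv E q S X v) :
    Kt E q S τ Z X ω x v ≤
      4 * exp ((q.P : ℝ) ^ 6) * Scl.fw q.P (q.li E.η 2) (q.D E.η 2) (x - v) := by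
  obtain ⟨h1, h2⟩ := mem_sdiff.1 hx
  have hxO : x ∈ S.O := (mem_sdiff.1 (mem_erase.1 h1).2).1
  have hvO : v ∈ S.O := h.ZO (mem_sdiff.1 hv).1
  have hf : q.D E.η 2 < nm (x - v) := not_le.1 fun a =>
    h2 (mem_erase.2 ⟨(mem_erase.1 h1).1, mem_inter.2 ⟨(mem_erase.1 h1).2, mem_bl.2 a⟩⟩)
  have l0 : (0 : ℝ) < (q.li E.η 2 : ℕ) := by exact_mod_cast h.hq.li_one h.hE 2
  have a := wt_le h τ (Z \ X) hxO
  have b := wt_le h τ (Z \ X) hvO
  have g1 := G_le h g hxO v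
  have g2 := G_le' h g hxO v
  have g3 : ‖E.G S X ω x v‖ ≤ ew q.P (q.li E.η 2) (x - v) := by
    refine g1.trans (mul_le_mul_of_nonneg_left (exp_le_exp.2 ?_) (exp_pos _).le)
    rw [neg_div, neg_div, neg_le_neg_iff]
    exact div_le_div_of_nonneg_left (Nat.cast_nonneg _) l0 (by linarith)
  rw [Scl.fw, if_pos hf, mul_assoc]
  refine mul_le_mul (by nlinarith [a.1, a.2, b.1, b.2]) ?_ (sq_nonneg _) (by norm_num)
  rw [sq]
  exact mul_le_mul g2 g3 (norm_nonneg _) (exp_pos _).le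

end PFFA

open PFFA in
theorem t_pff : S_PFF := by
  intro d M _ E q S c Z Sg h
  have hs := h.toPFN.scl
  refine ⟨kp q.P (q.li E.η 2) (q.D E.η 2), kp0 _ _ _, fun F => ?_,
    fun X hX v hv ω τ F g g' => ?_⟩
  · simp only [kp_eq]
    rw [sum_add_distrib]
    refine (add_le_add (far1 hs F) (PG4.far_sum hs F)).trans (le_of_eq ?_)
    ring
  · rw [kp_eq]
    refine add_le_add ?_ ?_
    · rw [Sv, ← erase_inter]
      refine G3A.one inter_subset_left _ (fun x => Scl.fw q.P (q.li E.η 2) (q.D E.η 2) (x - v))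
        (fun x => ew q.P (q.li E.η 2) (x - v)) F _ (F v) (exp_pos _).le
        (fun _ => (ew_pos _ _ _).le) (fun _ => Scl.fw0 _) (fun x hx hn => ?_)
        fun x hx y hy => dK_le h τ hX hv g g' hx hy
      exact (if_pos (not_le.1 fun a => hn (mem_inter.2 ⟨hx, mem_bl.2 a⟩))).ge
    · exact le_trans (sum_le_sum fun x hx => mul_le_mul_of_nonneg_right (K_le h τ hv g hx)
        (sq_nonneg _)) (sum_le_sum_of_subset_of_nonneg (subset_univ _) fun x _ _ =>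
          mul_nonneg (mul_nonneg (by positivity) (Scl.fw0 _)) (sq_nonneg _))

end Pool.Agent.P.MP_d0f69c_mp.XS.Pre
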