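import Pool.Agent.P.MP_d0f69c_mp.XS.PIfT
import Pool.Agent.P.MP_d0f69c_mp.XS.FAsm

/-!
The preparatory flow: assembly of the monitors.
-/

set_option autoImplicit false
set_option linter.dupNamespace false

open Finset Real
open scoped Matrix

namespace Pool.Agent.P.MP_d0f69c_mp.XS.Pre

namespace PFLA

section generic

variable {ι : Type} [DecidableEq ι] {F F' : List (ι × Bool) → Prop}

theorem bef_suf {h h' : List (ι × Bool)} (a : Bef F h) (s : h' <:+ h) : Bef F h' :=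
  fun z l b => a z l (b.trans s)

theorem bef_imp {h : List (ι × Bool)} (a : Bef F h) (i : ∀ l, F l → F' l) : Bef F' h :=
  fun z l b => ⟨(a z l b).1, i l (a z l b).2⟩

theorem sh_le {f g : List (ι × Bool) → ι → Bool → ℝ} (e : ∀ h v b, v ∉ hs h → f h v b ≤ g h v b) :
    ∀ h : List (ι × Bool), Bef F h → Sh f h ≤ Sh g h
  | [], _ => le_rfl
  | z :: h, a => add_le_add (sh_le e h a.tail) (e h z.1 z.2 a.head.1)

theorem sh_eq {V : Type} [AddCommMonoid V] {f g : List (ι × Bool) → ι → Bool → V}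
    (e : ∀ h v b, v ∉ hs h → F h → f h v b = g h v b) :
    ∀ h : List (ι × Bool), Bef F h → Sh f h = Sh g h
  | [], _ => rfl
  | z :: h, a => by rw [Sh, Sh, sh_eq e h a.tail, e h z.1 z.2 a.head.1 a.head.2]

omit [DecidableEq ι] in
theorem sh_nn {f : List (ι × Bool) → ι → Bool → ℝ} (e : ∀ h v b, 0 ≤ f h v b) :
    ∀ h : List (ι × Bool), 0 ≤ Sh f h
  | [] => le_rfl
  | z :: h => add_nonneg (sh_nn e h) (e h z.1 z.2)

theorem oh_old {h : List (ι × Bool)} {v : ι} (hv : v ∉ hs h) (b : Bool) :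
    ∀ x ∈ hs h, oh h x = oh ((v, b) :: h) x := fun x hx =>
  (Function.update_of_ne (fun e : x = v => hv (e ▸ hx)) _ _).symm

theorem dh_le (σ : Co ι) {m : ℝ} (hm : 0 < m) (K0 : ∀ x y, 0 ≤ σ.Kk x y) {x : ι}
    (h : σ.Zf m x ≤ 995 / 1000) : σ.dh x ≤ 2000 := by
  have a : 0 ≤ ∑ z ∈ σ.Op ∪ σ.X, σ.th z * ‖σ.G x z‖ ^ 2 := sum_nonneg fun z _ => by
    have : 0 ≤ σ.kr z := sum_nonneg fun v _ => K0 z v
    unfold Co.th Co.ir
    split_ifs <;> positivity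
  have b : 0 ≤ if x ∈ σ.rem ∪ σ.Sg then √(‖σ.Γ x x‖ ^ 2 + m ^ 2) / m else 0 := by
    split_ifs <;> positivity
  unfold Co.Zf at h
  linarith

theorem mis_le (σ : Co ι) {m : ℝ} (hm : 0 < m) (K0 : ∀ x y, 0 ≤ σ.Kk x y) {x : ι}
    (hx : x ∈ σ.rem ∪ σ.Sg) (d0 : 0 ≤ σ.dh x) (h : σ.Zf m x ≤ 995 / 1000) :
    ‖σ.Γ x x‖ ≤ 2000 * m := by
  have a : 0 ≤ ∑ z ∈ σ.Op ∪ σ.X, σ.th z * ‖σ.G x z‖ ^ 2 := sum_nonneg fun z _ => by
    have : 0 ≤ σ.kr z := sum_nonneg fun v _ => K0 z v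
    unfold Co.th Co.ir
    split_ifs <;> positivity
  have b : ‖σ.Γ x x‖ ≤ √(‖σ.Γ x x‖ ^ 2 + m ^ 2) :=
    Real.le_sqrt_of_sq_le (le_add_of_nonneg_right (sq_nonneg m))
  rw [Co.Zf, if_pos hx] at h
  have c : √(‖σ.Γ x x‖ ^ 2 + m ^ 2) / m ≤ 2000 := by linarith
  exact b.trans ((div_le_iff₀ hm).1 c)

theorem q4_ge (σ : Co ι) (q : Nq) (S : Finset ι) (n : ℝ) (x : ι) :
    ∑ y ∈ S, ‖σ.Γ x y‖ ^ 4 ≤ σ.q4 q S n x :=
  le_add_of_nonneg_right (by positivity)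

end generic

variable {d M : ℕ} [NeZero M] {E : PEnv d M} {q : PPar d M} {S : St (Tor d M)} {c : Tor d M}
  {Z Sg : Finset (Tor d M)}

open Classical in
/-- the step data after a history -/
noncomputable def auOf (E : PEnv d M) (q : PPar d M) (S : St (Tor d M)) (c : Tor d M)
    (Z Sg : Finset (Tor d M)) (h : List (Tor d M × Bool)) : Au (Tor d M) :=
  if H : ∃ τ, FaS E q S c Z Sg (hs h) (oh h) τ then H.choose else ⟨0, 0, 0, 0, 0, 0, 0, 0⟩

/-- the levels close -/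
theorem lev (H : PFN E q) (z : Tor d M) :
    q.H1 z + 2 * (q.m1 + 4 * q.kap * (q.ρ ^ 2 * q.H2 z + q.m1) + 2000 * q.hb) ≤ q.H2 z := by
  have k0 : 0 ≤ q.kap := H.nq.κ0
  have m0 : 0 < q.m1 := H.nq.m0
  have r1 := H.ρ1
  have h1 : 0 ≤ q.H1 z := add_nonneg (H.H0 z) (by unfold PPar.δN; split_ifs <;> positivity)
  have a : q.kap * q.ρ ^ 2 ≤ q.kap * q.ρ ^ 3 :=
    mul_le_mul_of_nonneg_left (pow_le_pow_right₀ r1 (by norm_num)) k0
  have b : q.kap ≤ q.kap * q.ρ ^ 3 := le_mul_of_one_le_right k0 (one_le_pow₀ r1)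
  have e := H.ρ2
  have f := H.hm
  have g : 0 ≤ q.kap * q.ρ ^ 2 := by positivity
  have e1 : q.kap * (q.ρ ^ 2 * q.H2 z + q.m1) = q.kap * q.ρ ^ 2 * ((1 + 1000 * (q.kap * q.ρ ^ 3)) *
      q.H1 z) + 10 ^ 4 * (q.kap * q.ρ ^ 2 * q.hb) + q.kap * q.m1 := by unfold PPar.H2; ring
  have e2 : q.H2 z = q.H1 z + 1000 * (q.kap * q.ρ ^ 3 * q.H1 z) + 10 ^ 4 * q.hb := by
    unfold PPar.H2; ring
  have a1 : q.kap * q.ρ ^ 2 * ((1 + 1000 * (q.kap * q.ρ ^ 3)) * q.H1 z) ≤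
      q.kap * q.ρ ^ 3 * (2 * q.H1 z) :=
    mul_le_mul a (mul_le_mul_of_nonneg_right (by linarith) h1) (by positivity) (g.trans a)
  have a2 : q.kap * q.ρ ^ 2 * q.hb ≤ 1 / 10 ^ 9 * q.hb :=
    mul_le_mul_of_nonneg_right (a.trans e) (by linarith)
  have a3 : q.kap * q.m1 ≤ 1 * q.m1 := mul_le_mul_of_nonneg_right (by linarith) m0.le
  have a4 : 0 ≤ q.kap * q.ρ ^ 3 * q.H1 z := mul_nonneg (g.trans a) h1
  nlinarith

variable {N : (Tor d M → ℝ) → (Tor d M → ℝ) → ℝ} {au : List (Tor d M × Bool) → Au (Tor d M)}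

theorem bx (H : PFH E q S c Z Sg) {h : List (Tor d M × Bool)}
    (b : (syOf E q S c Z Sg N au).Bs (nqOf E q) h)
    (n : OpLe Z (E.G S (hs h) (oh h)) ((q.P : ℝ) ^ 40 / E.η)) :
    Bx E q S c Z Sg (hs h) (oh h) fun x => (syOf E q S c Z Sg N au).dh x h := by
  refine ⟨fun x => sh_nn (fun _ _ _ => by split_ifs <;> positivity) h, fun x hx y hy => ?_,
    fun x hx => ?_, b.zz, b.l4, b.lJ, n⟩
  · have a : ‖E.Γ S (hs h) (oh h) x y - E.Γ S ∅ (oh []) x y‖ ≤ _ := b.pr x hx y hy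
    rw [Γ_empty] at a
    have e : ‖E.Γ0 S x y‖ ≤ q.H1 (x - y) :=
      H.inv.amp x (mem_inter.1 (mem_sdiff.1 hx).1).1 y (mem_inter.1 (mem_sdiff.1 hy).1).1
    exact (norm_le_insert' _ _).trans ((add_le_add e a).trans (lev H.toPFN _))
  · have a : |E.a S (hs h) (oh h) x - E.a S ∅ (oh []) x| ≤ _ := b.aa x hx
    rwa [a_empty] at a

theorem y5_le (H : PFH E q S c Z Sg) (τ : Bool) (φ : Tor d M → ℝ) {h : List (Tor d M × Bool)}
    {v : Tor d M} (hv : v ∉ hs h) (b : Bool) :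
    Y5P E q S τ Z (hs h) (oh ((v, b) :: h)) v φ ≤
      (syOf E q S c Z Sg N au).y5 (nqOf E q) (sr τ) φ h v b := by
  have e0 : ∀ l, ((syOf E q S c Z Sg N au).co l).Kw (sr τ * (10 ^ 5 * q.eps)) =
      Kt E q S τ Z (hs l) (oh l) := fun l => funext₂ fun x y => by
    simp only [Co.Kw, Co.w, Co.ir, Co.kr, Sy.co, syOf, Kt, Kw, wt, PPar.sig]
    congr
  have e1 : Kt E q S τ Z (hs h) (oh h) = Kt E q S τ Z (hs h) (oh ((v, b) :: h)) := by
    rw [Kt, Kt, G_congr (oh_old hv b)]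
  have e3 : ∑ x ∈ Sv E q S (hs h) v, q.Kk (x - v) * (φ x - φ v) ^ 2 ≤
      ∑ x, q.Kk (x - v) * (φ x - φ v) ^ 2 :=
    sum_le_sum_of_subset_of_nonneg (subset_univ _) fun x _ _ => mul_nonneg (H.K0 _) (sq_nonneg _)
  have e4 := mul_le_mul_of_nonneg_left e3 (mul_nonneg (by norm_num : (0 : ℝ) ≤ 30) H.nq.ε0.le)
  have e5 : (syOf E q S c Z Sg N au).y5 (nqOf E q) (sr τ) φ h v b =
      Pre.y5 (sr τ) q.eps (Sv E q S (hs h) v)
        (((syOf E q S c Z Sg N au).co h).Kw (sr τ * (10 ^ 5 * q.eps)))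
        (((syOf E q S c Z Sg N au).co ((v, b) :: h)).Kw (sr τ * (10 ^ 5 * q.eps)))
        (fun x y => q.Kk (x - y)) v φ := rfl
  rw [e5, e0, e0, e1, show hs ((v, b) :: h) = insert v (hs h) from hs_cons _ _, Y5P, Pre.y5]
  refine sub_le_sub (le_of_eq ?_) e4
  generalize Kt E q S τ Z (hs h) (oh ((v, b) :: h)) = K
  generalize Kt E q S τ Z (insert v (hs h)) (oh ((v, b) :: h)) = K'
  rw [show (fun x y => K' x y - K x y) = K' - K from rfl]
  cases τ <;> simp only [sr, Bool.false_eq_true, if_false, if_true] <;> ring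

theorem y5_sh (H : PFH E q S c Z Sg) (hN : ∀ φ, N φ φ = Nm E.p φ) {h : List (Tor d M × Bool)}
    {F : List (Tor d M × Bool) → Prop} (hb : Bef F h) {Z' B : Finset (Tor d M)}
    (b : (syOf E q S c Z Sg N au).B5 (nqOf E q) Z' B h) (τ : Bool) (φ : Tor d M → ℝ)
    (hφ : ∀ x ∉ B, φ x = 0) :
    Sh (fun h v b => if v ∈ Z' then Y5P E q S τ Z (hs h) (oh ((v, b) :: h)) v φ else 0) h ≤
      Nm E.p φ / (q.P : ℝ) ^ 4 := by
  refine (sh_le (fun l v b hv => ?_) h hb).trans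
    ((b (sr τ) (by cases τ <;> simp [sr]) φ hφ).trans_eq (by rw [← hN]; rfl))
  split_ifs
  exacts [y5_le H τ φ hv b, le_rfl]

/-- what the monitors give at one time -/
structure CC (Y : Sy (Tor d M)) (p : Nq) (c : Tor d M) (A : ℕ) (h : List (Tor d M × Bool)) :
    Prop where
  bs : Y.Bs p h
  nrm : Bef (Y.Fa p) h → OpLe Y.Z (Y.G h) (p.P ^ 40 / p.η)
  all : Bef (Y.Fa p) h → Y.B5 p univ (bl c (24 * d * A)) h
  y5 : Bef (Y.Fa p) h → Y.B5 p (bl c A) (bl c (3 * A)) h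
  y6 : Bef (Y.Fa p) h → (∀ x ∈ Y.Rw \ hs h, Y.dh x h ≤ 2000) → Y.B6 p (bl c A) h

theorem mon (h1 : S_PA1) (h4 : S_PA4) (h5 : S_PA5) (h6 : S_PA6) (H : PFH E q S c Z Sg)
    (s : (syOf E q S c Z Sg N au).St0 (nqOf E q)) :
    HasMon Z ((syOf E q S c Z Sg N au).Fa (nqOf E q))
      (CC (syOf E q S c Z Sg N au) (nqOf E q) c (q.A E.η d))
      (18 * exp ((q.P : ℝ) ^ 2) ^ 2 * exp (-3 * (q.P : ℝ) ^ 3)) := by
  have hA : ∀ k ≤ 24, k * q.A E.η d ≤ 24 * d * q.A E.η d := fun k hk =>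
    Nat.mul_le_mul_right _ (hk.trans (Nat.le_mul_of_pos_right _ H.hE.d1))
  have cR := FAsmA.card_le t_far H.hE H.hq
    (inter_subset_right (s₁ := S.O) (s₂ := bl c (6 * q.A E.η d))) (hA 6 (by norm_num))
  have sT : Z ∪ Sg ⊆ bl c (5 * q.A E.η d) :=
    union_subset (H.hZ.trans inter_subset_right) (H.hSg.trans inter_subset_right)
  have cT := FAsmA.card_le t_far H.hE H.hq sT (hA 5 (by norm_num))
  have cZ := FAsmA.card_le t_far H.hE H.hq (subset_union_left.trans sT) (hA 5 (by norm_num))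
  have cB := FAsmA.card_le t_far H.hE H.hq (c := c) Subset.rfl le_rfl
  have c3 := FAsmA.card_le t_far H.hE H.hq (c := c) Subset.rfl (hA 3 (by norm_num))
  refine (((((h1 _ _ _ s).and (h4 _ _ _ s)).and (h5 _ _ _ s univ (bl c (24 * d * q.A E.η d)))).and
    (h5 _ _ _ s (bl c (q.A E.η d)) (bl c (3 * q.A E.η d)))).and
    (h6 _ _ _ s (bl c (q.A E.η d)))).mono ?_
    fun l _ a => ⟨a.1.1.1.1, a.1.1.1.2, a.1.1.2, a.1.2, a.2⟩
  have hV : 2 ≤ exp ((q.P : ℝ) ^ 2) := by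
    nlinarith [add_one_le_exp ((q.P : ℝ) ^ 2), H.hq.P9 H.hE]
  have hε := exp_pos (-3 * (q.P : ℝ) ^ 3)
  show (4 * ((S.O ∩ bl c (6 * q.A E.η d)).card : ℝ) ^ 2 + 5 * (S.O ∩ bl c (6 * q.A E.η d)).card) *
    exp (-(3 * (q.P : ℝ) ^ 3)) + 4 * Z.card * exp (-(3 * (q.P : ℝ) ^ 3)) +
    2 * (bl c (24 * d * q.A E.η d)).card * exp (-(3 * (q.P : ℝ) ^ 3)) +
    2 * (bl c (3 * q.A E.η d)).card * exp (-(3 * (q.P : ℝ) ^ 3)) +
    4 * (Z ∪ Sg).card * exp (-(3 * (q.P : ℝ) ^ 3)) ≤ _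
  rw [← neg_mul]
  generalize exp ((q.P : ℝ) ^ 2) = V at *
  generalize exp (-3 * (q.P : ℝ) ^ 3) = ε at *
  have a := pow_le_pow_left₀ (Nat.cast_nonneg _) cR 2
  have : (4 * ((S.O ∩ bl c (6 * q.A E.η d)).card : ℝ) ^ 2 + 5 * (S.O ∩ bl c (6 * q.A E.η d)).card +
      4 * Z.card + 2 * (bl c (24 * d * q.A E.η d)).card + 2 * (bl c (3 * q.A E.η d)).card +
      4 * (Z ∪ Sg).card : ℝ) ≤ 18 * V ^ 2 := by nlinarith
  nlinarith [mul_le_mul_of_nonneg_right this hε.le]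

theorem fact (hd : S_PDEC) (hu : S_PULH) (hx : S_PFX) (H : PFH E q S c Z Sg)
    (hN : ∀ φ, N φ φ = Nm E.p φ) {l : List (Tor d M × Bool)} (h2 : hs l ⊆ Z)
    (h3 : ∀ l', l' <:+ l → CC (syOf E q S c Z Sg N (auOf E q S c Z Sg)) (nqOf E q) c (q.A E.η d) l')
    (hb : Bef ((syOf E q S c Z Sg N (auOf E q S c Z Sg)).Fa (nqOf E q)) l) :
    (syOf E q S c Z Sg N (auOf E q S c Z Sg)).Fa (nqOf E q) l := by
  have k := h3 l List.suffix_rfl
  have b := bx H k.bs (k.nrm hb)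
  have u := hu d M E q S c Z Sg H l (bef_imp hb fun _ _ => trivial) h2
    (fun l' a => hd d M E q S c Z Sg H _ ((hs_mono a).trans h2) _ ((h3 l' a).nrm (bef_suf hb a)))
    fun τ φ hφ => by simpa only [mem_univ, if_true] using y5_sh H hN hb (k.all hb) τ φ hφ
  have e := hx d M E q S c Z Sg H _ h2 _ _ b u
  have f : FaS E q S c Z Sg (hs l) (oh l) (auOf E q S c Z Sg l) := by
    rw [auOf, dif_pos e]; exact e.choose_spec
  refine ⟨f.fy _ b, fun v hv s x y => ?_, fun v hv s x y => ?_, fun x hx => ?_, fun φ => ?_,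
    fun φ => (f.sh φ).trans_eq (by rw [← hN]; rfl)⟩
  · have := f.sG v hv s x y
    rwa [← show hs ((v, s) :: l) = insert v (hs l) from hs_cons _ _] at this
  · have := f.sa v hv s x y
    rwa [← show hs ((v, s) :: l) = insert v (hs l) from hs_cons _ _] at this
  · have n0 : 0 < q.n4 := H.nq.n0
    exact (q4_ge _ _ _ _ _).trans ((b.l4 x hx).trans (show _ ≤ 2 * q.n4 by linarith))
  · have a := NF_nonneg H.hE.ref.p0 φ
    refine (u.1 φ).trans (le_trans ?_ (show 2 * Nm E.p φ ≤ _ by rw [← hN]; exact le_rfl))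
    have : 0 ≤ (∑ x, φ x ^ 2) / (M : ℝ) ^ 2 := by positivity
    unfold Nm
    linarith

theorem facts (hd : S_PDEC) (hu : S_PULH) (hx : S_PFX) (H : PFH E q S c Z Sg)
    (hN : ∀ φ, N φ φ = Nm E.p φ) : ∀ l : List (Tor d M × Bool), (l.map Prod.fst).Nodup → hs l ⊆ Z →
    (∀ l', l' <:+ l → CC (syOf E q S c Z Sg N (auOf E q S c Z Sg)) (nqOf E q) c (q.A E.η d) l') →
    Bef ((syOf E q S c Z Sg N (auOf E q S c Z Sg)).Fa (nqOf E q)) l
  | [], _, _, _ => bef_nil _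
  | z :: l, h1, h2, h3 => by
    rw [List.map_cons, List.nodup_cons] at h1
    have s := List.suffix_cons z l
    have a := facts hd hu hx H hN l h1.2 ((hs_mono s).trans h2) fun l' b => h3 l' (b.trans s)
    exact a.cons (fun b => h1.1 (List.mem_toFinset.1 b))
      (fact hd hu hx H hN ((hs_mono s).trans h2) (fun l' b => h3 l' (b.trans s)) a)

/-- without a trip the flow succeeds -/
theorem flow (hd : S_PDEC) (hu : S_PULH) (hx : S_PFX) (hh : S_PHI) (H : PFH E q S c Z Sg)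
    (hN : ∀ φ, N φ φ = Nm E.p φ) {ω : Tor d M → Bool} {κ : Tor d M → ℕ}
    (hκ : Function.Injective κ)
    (h : ∀ (t : ℕ) (l : List (Tor d M × Bool)), (l.map Prod.fst).toFinset = pre κ Z t →
      (l.map Prod.fst).Pairwise (fun x y => κ y < κ x) → (∀ w ∈ l, w.2 = ω w.1) → ∀ l', l' <:+ l →
      CC (syOf E q S c Z Sg N (auOf E q S c Z Sg)) (nqOf E q) c (q.A E.η d) l') :
    PFlow E q S c Z Sg ω κ := by
  set Y := syOf E q S c Z Sg N (auOf E q S c Z Sg) with hY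
  have key : ∀ t, ∃ l : List (Tor d M × Bool), hs l = pre κ Z t ∧ CC Y (nqOf E q) c (q.A E.η d) l ∧
      Bef (Y.Fa (nqOf E q)) l ∧ (∃ dh, Bx E q S c Z Sg (pre κ Z t) ω dh) ∧
      ∀ (V : Type) [AddCommMonoid V] (f : Finset (Tor d M) → (Tor d M → Bool) → Tor d M → V),
        (∀ X ω ω' v, (∀ x ∈ insert v X, ω x = ω' x) → f X ω v = f X ω' v) →
        Sh (fun h v b => f (hs h) (oh ((v, b) :: h)) v) l =
          ∑ v ∈ pre κ Z t, f (pre κ Z (κ v)) ω v := by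
    intro t
    obtain ⟨l, a1, a2, a3, -, a4, -, a5⟩ := hh _ κ Z ω hκ t
    have k := h t l a1 a2 a3
    have b := facts hd hu hx H hN l (a2.imp fun a e => by rw [e] at a; exact lt_irrefl _ a)
      (a1.trans_subset (pre_sub t)) k
    have f := bx H (k l List.suffix_rfl).bs ((k l List.suffix_rfl).nrm b)
    refine ⟨l, a1, k l List.suffix_rfl, b, ⟨fun x => Y.dh x l, ?_⟩, a5⟩
    rw [show hs l = pre κ Z t from a1] at f
    have e := mix_congr a4 (om S)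
    obtain ⟨f1, f2, f3, f4, f5, f6, f7⟩ := f
    simp only [coS, PEnv.G, PEnv.Γ, PEnv.a, Ax, e] at f2 f3 f4 f5 f6 f7
    exact ⟨f1, f2, f3, f4, f5, f6, f7⟩
  have m0 : 0 < q.m1 := H.nq.m0
  have n0 : 0 < q.n4 := H.nq.n0
  obtain ⟨l, e1, k1, k2, ⟨dh, k3⟩, k4⟩ := key (Z.sup κ + 1)
  rw [pre_top κ Z (Nat.lt_succ_self _)] at e1 k3 k4
  refine ⟨fun t => ?_, fun t x a => ?_, fun t => ?_, fun x a => ?_, fun x a => ?_, fun x a => ?_,
    fun τ φ a => ?_, ?_⟩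
  · obtain ⟨_, -, -, -, ⟨_, b⟩, -⟩ := key t
    exact b.nrm
  · obtain ⟨_, -, -, -, ⟨_, b⟩, -⟩ := key t
    rw [mem_sdiff] at a
    exact mis_le (coS E q S c Z Sg _ ω _) m0 (fun _ _ => H.K0 _) (mem_union.2
      ((mem_union.1 a.1).imp (fun e => mem_sdiff.2 ⟨e, a.2⟩) id)) (b.d0 x)
      (b.zz x (mem_sdiff.2 ⟨H.TR a.1, a.2⟩))
  · obtain ⟨_, -, -, -, ⟨_, b⟩, -⟩ := key t
    exact b.pr
  · exact (q4_ge (coS E q S c Z Sg Z ω dh) _ _ _ _).trans ((k3.l4 x a).trans (by linarith))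
  · exact (sum_le_sum_of_subset_of_nonneg (sdiff_subset_sdiff inter_subset_left Subset.rfl)
      fun _ _ _ => by positivity).trans
      ((q4_ge (coS E q S c Z Sg Z ω dh) _ _ _ _).trans (k3.lJ x a))
  · have k0 : 0 ≤ q.kap := H.nq.κ0
    exact (k3.aa x a).trans (by unfold PPar.da; linarith)
  · have := y5_sh H hN k2 (k1.y5 k2) τ φ a
    rwa [k4 ℝ (fun X ω v => if v ∈ bl c (q.A E.η d) then Y5P E q S τ Z X ω v φ else 0)
      fun X ω ω' v e => by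
        simp only [Y5P, Kt, G_congr e, G_congr fun x hx => e x (mem_insert_of_mem hx)],
      sum_ite_mem] at this
  · have b := k1.y6 k2 fun x hx => dh_le (Y.co l) m0 (fun _ _ => H.K0 _) (k1.bs.zz x hx)
    rw [Sy.B6, sh_eq (g := fun h v b => if v ∈ bl c (q.A E.η d) then
      Y6P E q S (Z ∪ Sg) (hs h) (oh ((v, b) :: h)) v else 0) (fun h v s hv f => ?_) l k2,
      k4 _ (fun X ω v => if v ∈ bl c (q.A E.η d) then Y6P E q S (Z ∪ Sg) X ω v else 0)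
        fun X ω ω' v e => by
          unfold Y6P dAP
          rw [G_congr e, G_congr fun x hx => e x (mem_insert_of_mem hx)], sum_ite_mem] at b
    · refine (b.mono ?_).congr fun x _ y _ => by simp only [Finset.sum_apply]
      have : 0 < q.eps := H.nq.ε0
      show 10 ^ 5 * q.eps + 1 / (q.P : ℝ) ^ 4 ≤ _
      unfold PPar.r6
      linarith
    · refine if_congr Iff.rfl (funext₂ fun x y => ?_) rfl
      have e : (Y.co h).Tv v = (((Z ∪ Sg) \ hs h) ∩ bl v (q.D E.η 2)).erase v := by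
        rw [union_sdiff_distrib, sdiff_eq_self_of_disjoint (s := Sg) (t := hs h)
          (f.fy.OX.mono_left (f.fy.gR.trans f.fy.RO))]
        rfl
      rw [y6, Y6P, e, dAP, ← G_congr (oh_old hv s),
        ← show hs ((v, s) :: h) = insert v (hs h) from hs_cons _ _]
      rfl

end PFLA

open PFLA in
theorem t_pfl (h1 : S_PA1) (h4 : S_PA4) (h5 : S_PA5) (h6 : S_PA6) (hd : S_PDEC) (hu : S_PULH)
    (hx : S_PFX) (h0 : S_PST) (hh : S_PHI) (hn : S_NMB) (hp : S_PH) : S_PFL := by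
  intro d M _ E q S c Z Sg H
  obtain ⟨N, n1, n2, n3⟩ := (hn d M E.toEnv H.hE).1
  have m := (mon h1 h4 h5 h6 H (h0 d M E q S c Z Sg H N (auOf E q S c Z Sg) n1 n2 n3)).frame hp
    (⌈exp (3 * (q.P : ℝ) ^ 3)⌉₊ + 1) fun l a b e =>
      fact hd hu hx H n3 b e (facts hd hu hx H n3 l a b e)
  refine (pr_mono fun z hz => ?_).trans (m.trans (FAsmA.num (H.hq.P9 H.hE) (Nat.cast_nonneg _)
    (FAsmA.card_le t_far H.hE H.hq (H.hZ.trans inter_subset_right) (Nat.mul_le_mul_right _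
      (le_trans (by norm_num) (Nat.le_mul_of_pos_right _ H.hE.d1))))
    ((Nat.le_ceil _).trans (by push_cast; linarith))))
  by_contra a
  exact hz (flow hd hu hx hh H n3 (FAsmA.ky_inj _) fun t l b1 b2 b3 =>
    not_not.1 fun b4 => a ⟨t, l, b1, b2, b3, b4⟩)

end Pool.Agent.P.MP_d0f69c_mp.XS.Pre
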