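import Pool.Agent.P.MP_d0f69c_mp.XS.PAlg2

/-!
Bounds for one closing step that follow from the split of the jump into a main channel and side
channels.
-/

set_option autoImplicit false

open Finset
open scoped Matrix

namespace Pool.Agent.P.MP_d0f69c_mp.XS.Pre

variable {ι : Type} [Fintype ι]

theorem bf_add (B C : Matrix ι ι ℂ) (ξ ζ : ι → ℂ) : bf (B + C) ξ ζ = bf B ξ ζ + bf C ξ ζ := by
  simp only [bf, Matrix.add_mulVec, dotProduct_add]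

theorem bf_sub (B C : Matrix ι ι ℂ) (ξ ζ : ι → ℂ) : bf (B - C) ξ ζ = bf B ξ ζ - bf C ξ ζ := by
  simp only [bf, Matrix.sub_mulVec, dotProduct_sub]

theorem bf_smul (s : ℂ) (B : Matrix ι ι ℂ) (ξ ζ : ι → ℂ) : bf (s • B) ξ ζ = s * bf B ξ ζ := by
  simp only [bf, Matrix.smul_mulVec, dotProduct_smul, smul_eq_mul]

theorem bf_addl (B : Matrix ι ι ℂ) (ξ ξ' ζ : ι → ℂ) : bf B (ξ + ξ') ζ = bf B ξ ζ + bf B ξ' ζ := by
  simp only [bf, add_dotProduct]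

theorem bf_addr (B : Matrix ι ι ℂ) (ξ ζ ζ' : ι → ℂ) : bf B ξ (ζ + ζ') = bf B ξ ζ + bf B ξ ζ' := by
  simp only [bf, Matrix.mulVec_add, dotProduct_add]

theorem bf_subl (B : Matrix ι ι ℂ) (ξ ξ' ζ : ι → ℂ) : bf B (ξ - ξ') ζ = bf B ξ ζ - bf B ξ' ζ := by
  simp only [bf, sub_dotProduct]

theorem bf_subr (B : Matrix ι ι ℂ) (ξ ζ ζ' : ι → ℂ) : bf B ξ (ζ - ζ') = bf B ξ ζ - bf B ξ ζ' := by
  simp only [bf, Matrix.mulVec_sub, dotProduct_sub]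

/-- a linear combination in the second slot -/
theorem bf_sum {κ : Type} (s : Finset κ) (B : Matrix ι ι ℂ) (ξ : ι → ℂ) (c : κ → ℂ)
    (ζ : κ → ι → ℂ) : ∑ z ∈ s, c z * bf B ξ (ζ z) = bf B ξ fun u => ∑ z ∈ s, c z * ζ z u := by
  simp only [bf_eq, mul_sum]
  rw [sum_comm]
  refine sum_congr rfl fun x _ => ?_
  rw [sum_comm]
  exact sum_congr rfl fun y _ => sum_congr rfl fun z _ => by ring

theorem bf_comm {B : Matrix ι ι ℂ} (h : ∀ x y, B x y = B y x) (ξ ζ : ι → ℂ) :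
    bf B ξ ζ = bf B ζ ξ := by
  simp only [bf_eq]
  rw [sum_comm]
  exact sum_congr rfl fun x _ => sum_congr rfl fun y _ => by rw [h x y]; ring

variable [DecidableEq ι]

/-- a jump `B` with main channel `v`, side weights `D`, total weights `E` -/
structure Jump (B : Matrix ι ι ℂ) (β : ℂ) (D E : ι → ℝ) (v : ι) : Prop where
  D0 : ∀ u, 0 ≤ D u
  hE : ∀ u, E u = D u + if u = v then 1 else 0
  β1 : ‖β‖ ≤ 1001 / 1000
  maj : ∀ ξ ζ, ‖bf B ξ ζ - β * (ξ v * ζ v)‖ ≤ no D ξ * no D ζ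

namespace Jump

variable {B Γ T : Matrix ι ι ℂ} {β s : ℂ} {D E : ι → ℝ} {v : ι} (h : Jump B β D E v)
include h

theorem DE (u : ι) : D u ≤ E u := by rw [h.hE]; split_ifs <;> simp

theorem E0 (u : ι) : 0 ≤ E u := (h.D0 u).trans (h.DE u)

theorem sum_E (f : ι → ℝ) : ∑ u, E u * f u = f v + ∑ u, D u * f u := by
  simp only [h.hE, add_mul, sum_add_distrib, ite_mul, one_mul, zero_mul, sum_ite_eq', mem_univ,
    if_true, add_comm]

theorem sq (ξ : ι → ℂ) : no E ξ ^ 2 = ‖ξ v‖ ^ 2 + no D ξ ^ 2 := by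
  rw [no_sq h.E0, no_sq h.D0, h.sum_E]

theorem le1 (ξ : ι → ℂ) : ‖ξ v‖ ≤ no E ξ :=
  le_of_sq_le_sq (by rw [h.sq]; nlinarith [sq_nonneg (no D ξ)]) (no_nonneg _ _)

theorem le2 (ξ : ι → ℂ) : no D ξ ≤ no E ξ := no_mono h.DE ξ

theorem le3 (ξ : ι → ℂ) : no E ξ ≤ ‖ξ v‖ + no D ξ :=
  le_of_sq_le_sq (by rw [h.sq]; nlinarith [mul_nonneg (norm_nonneg (ξ v)) (no_nonneg D ξ)])
    (add_nonneg (norm_nonneg _) (no_nonneg _ _))

theorem bf_le (ξ ζ : ι → ℂ) : ‖bf B ξ ζ‖ ≤ ‖β‖ * (‖ξ v‖ * ‖ζ v‖) + no D ξ * no D ζ := by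
  have := norm_add_le (β * (ξ v * ζ v)) (bf B ξ ζ - β * (ξ v * ζ v))
  rw [add_sub_cancel, norm_mul, norm_mul] at this
  linarith [h.maj ξ ζ]

theorem majB : Maj B E (1001 / 1000) := fun ξ ζ => by
  have a1 := no_nonneg D ξ
  have a2 := no_nonneg D ζ
  have a3 : ‖ξ v‖ * ‖ζ v‖ + no D ξ * no D ζ ≤ no E ξ * no E ζ :=
    le_of_sq_le_sq (by
      rw [mul_pow, h.sq, h.sq]; nlinarith [sq_nonneg (‖ξ v‖ * no D ζ - no D ξ * ‖ζ v‖)])
      (mul_nonneg (no_nonneg _ _) (no_nonneg _ _))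
  have a4 := mul_le_mul_of_nonneg_right h.β1 (mul_nonneg (norm_nonneg (ξ v)) (norm_nonneg (ζ v)))
  nlinarith [h.bf_le ξ ζ, mul_nonneg a1 a2]

/-- the second order term is carried by the main channel -/
theorem second {o : ℝ} (o0 : 0 ≤ o) (h1 : no D (Γ v) ≤ o) (h2 : ∑ u, D u * no E (Γ u) ^ 2 ≤ o ^ 2)
    (ξ ζ : ι → ℂ) : ‖bf (B * Γ * B) ξ ζ - β ^ 2 * Γ v v * (ξ v * ζ v)‖ ≤
      1001 / 1000 * o * (no D ξ * no E ζ + no E ξ * no D ζ) := by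
  set y := Γ *ᵥ (B *ᵥ ζ) with hy
  have e : bf (B * Γ * B) ξ ζ - β ^ 2 * Γ v v * (ξ v * ζ v) = (bf B ξ y - β * (ξ v * y v)) +
      β * ξ v * (bf B (Γ v) ζ - β * (Γ v v * ζ v)) := by
    have e1 : bf (B * Γ * B) ξ ζ = bf B ξ y := by
      rw [bf, bf, hy, Matrix.mulVec_mulVec, Matrix.mulVec_mulVec]
    have e2 : y v = bf B (Γ v) ζ := rfl
    rw [e1, e2]; ring
  have a0 := no_nonneg E ζ
  have a1 : no D y ≤ 1001 / 1000 * o * no E ζ := by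
    refine no_le (by positivity) ?_
    calc _ ≤ ∑ u, D u * (1001 / 1000 * no E (Γ u) * no E ζ) ^ 2 := sum_le_sum fun u _ =>
          mul_le_mul_of_nonneg_left (pow_le_pow_left₀ (norm_nonneg _) (h.majB (Γ u) ζ) 2) (h.D0 u)
      _ = (1001 / 1000 * no E ζ) ^ 2 * ∑ u, D u * no E (Γ u) ^ 2 := by
          rw [mul_sum]; exact sum_congr rfl fun u _ => by ring
      _ ≤ (1001 / 1000 * no E ζ) ^ 2 * o ^ 2 := by gcongr
      _ = _ := by ring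
  have a2 := (h.maj ξ y).trans (mul_le_mul_of_nonneg_left a1 (no_nonneg D ξ))
  have a3 := (h.maj (Γ v) ζ).trans (mul_le_mul_of_nonneg_right h1 (no_nonneg D ζ))
  have a4 : ‖β * ξ v‖ ≤ 1001 / 1000 * no E ξ := by
    rw [norm_mul]; exact mul_le_mul h.β1 (h.le1 ξ) (norm_nonneg _) (by norm_num)
  rw [e]
  refine (norm_add_le _ _).trans ?_
  rw [norm_mul (β * ξ v)]
  have a5 := mul_le_mul a4 a3 (norm_nonneg _) (mul_nonneg (by norm_num) (no_nonneg E ξ))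
  linarith

/-- the closing step `T = s B - s B Γ T` -/
theorem step {o m g : ℝ} (o0 : 0 ≤ o) (g0 : 0 ≤ g) (g1 : g ≤ 1 / 4) (h1 : no D (Γ v) ≤ o)
    (h2 : ∑ u, D u * no E (Γ u) ^ 2 ≤ o ^ 2) (h3 : ‖Γ v v‖ ≤ m) (hg : m ^ 2 + 2 * o ^ 2 ≤ g ^ 2)
    (hs : s ^ 2 = 1) (hT : T = s • B - s • B * Γ * T) :
    Maj (T - s • B) E (21 / 10 * g) ∧ ∀ ξ ζ, ‖bf (T - s • B) ξ ζ + β ^ 2 * Γ v v * (ξ v * ζ v)‖ ≤
      1001 / 1000 * o * (no D ξ * no E ζ + no E ξ * no D ζ) +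
        21 / 10 * g ^ 2 * (no E ξ * no E ζ) := by
  have s1 : ‖s‖ ≤ 1 := by
    have := congrArg norm hs
    rw [norm_pow, norm_one] at this
    nlinarith [norm_nonneg s]
  have a1 : ∑ u, E u * no E (Γ u) ^ 2 ≤ g ^ 2 := by
    rw [h.sum_E, h.sq]
    linarith [pow_le_pow_left₀ (no_nonneg _ _) h1 2, pow_le_pow_left₀ (norm_nonneg _) h3 2]
  obtain ⟨b1, b2⟩ := (h.majB.smul s1).boot h.E0 (by norm_num) g0 a1 (by linarith) hT
  refine ⟨b1.mono (by linarith), fun ξ ζ => ?_⟩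
  have e : s • B * Γ * s • B = B * Γ * B := by
    rw [Matrix.mul_smul, Matrix.smul_mul, Matrix.smul_mul, smul_smul, ← pow_two, hs, one_smul]
  have a2 := b2 ξ ζ
  rw [e, bf_add] at a2
  have a3 := h.second o0 h1 h2 ξ ζ
  have a4 := norm_sub_le (bf (T - s • B) ξ ζ + bf (B * Γ * B) ξ ζ)
    (bf (B * Γ * B) ξ ζ - β ^ 2 * Γ v v * (ξ v * ζ v))
  rw [show ∀ a b c : ℂ, a + b - (b - c) = a + c from fun a b c => by ring] at a4
  have a5 := mul_nonneg (sq_nonneg g) (mul_nonneg (no_nonneg E ξ) (no_nonneg E ζ))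
  nlinarith

end Jump

end Pool.Agent.P.MP_d0f69c_mp.XS.Pre
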