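import Pool.Agent.P.MP_d0f69c_mp.XS.PIfF
import Pool.Agent.P.MP_d0f69c_mp.XS.PMon0

/-!
The monitors of the entries and of the lead strengths in the preparatory flow.
-/

set_option autoImplicit false

open Finset Real
open scoped Matrix

namespace Pool.Agent.P.MP_d0f69c_mp.XS.Pre

variable {ι : Type} [Fintype ι] [DecidableEq ι] {q : Nq} {σ : Co ι} {τ : Au ι} {v x z : ι}

theorem Nq.OK.one_le (h : q.OK) : 1 ≤ q.P := le_trans (by norm_num) h.P9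

theorem Nq.OK.νγ (h : q.OK) : q.ν * q.γ ^ 2 ≤ q.nJ :=
  (le_mul_of_one_le_right (mul_nonneg h.ν0 (sq_nonneg _)) (one_le_pow₀ h.one_le)).trans
    (h.g3.trans h.n1)

/-- a constant is absorbed by one power of `P` -/
theorem Nq.OK.div_le (h : q.OK) {c : ℝ} {k m : ℕ} (hc : c ≤ 10 ^ 9) (hk : k < m) :
    c / q.P ^ m ≤ 1 / q.P ^ k := by
  have P0 : 0 < q.P := one_pos.trans_le h.one_le
  have a : q.P ^ k * q.P ≤ q.P ^ m := by
    rw [← pow_succ]; exact pow_le_pow_right₀ h.one_le hk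
  rw [div_le_div_iff₀ (by positivity) (by positivity)]
  nlinarith [mul_le_mul_of_nonneg_left (hc.trans h.P9) (pow_pos P0 k).le]

theorem Nq.OK.nJ_le (h : q.OK) : q.nJ / q.m1 ^ 2 ≤ 1 / q.P ^ 21 := by
  have P0 : 0 < q.P := one_pos.trans_le h.one_le
  rw [div_le_div_iff₀ (pow_pos h.m0 2) (by positivity)]
  linarith [h.m1]

namespace Fy

theorem Γ_step (h : Fy q σ τ) (hv : v ∈ σ.rem) (b : Bool) (x z : ι) :
    (σ.step τ v b).Γ x z = σ.Γ x z - sgn b * (bf (τ.B v) (σ.Γ x) (σ.Γ z) +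
      bf (τ.B v) (σ.Γ x) (σ.al z) + bf (τ.B v) (σ.Γ z) (σ.al x)) +
      bf (τ.R v b) (σ.G x) (σ.G z) := by
  have e : ∀ z, σ.Γ z = σ.G z - σ.al z := fun _ => rfl
  rw [bf_comm (B := τ.B v) (fun a b => congrFun (congrFun (h.sB v hv) b) a) (σ.Γ z)]
  simp only [e, bf_subl, bf_subr, Co.Γ, Co.step, Au.T, bf_sub, bf_smul]
  ring

theorem b0' (h : Fy q σ τ) (hv : v ∈ σ.rem) (φ ψ : ι → ℂ) {c : ℝ} (hc : τ.N v ψ ≤ c) :
    ‖bf (τ.B v) φ ψ‖ ≤ 103 / 100 * τ.Nh v φ * c :=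
  (h.b0 v hv φ ψ).trans (mul_le_mul (mul_le_mul_of_nonneg_left (h.n2 v hv φ) (by norm_num)) hc
    ((h.hn v hv).nn _) (mul_nonneg (by norm_num) (no_nonneg _ _)))

theorem near (h : Fy q σ τ) (hq : q.OK) (g : Fz q σ τ) (hv : v ∈ σ.rem) (hx : x ∈ σ.Rw)
    (hz : z ∈ σ.Rw) (zv : z ≠ v) : ‖bf (τ.B v) (σ.Γ x) (τ.Pn v z)‖ ≤
      q.κ * (114 / 100 * σ.H x z + 11 / 100 * q.m1) * σ.Kk z v := by
  refine (h.b0' hv _ _ (h.p1 v hv z (mem_union_left _ (h.RO hz)) zv)).trans ?_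
  by_cases e : σ.Kk z v = 0
  · simp [e]
  have a := mul_nonneg hq.κ0 (h.K0 z v)
  nlinarith [mul_le_mul_of_nonneg_right (g.Γ4 v hv x hx z hz e) a, mul_nonneg a (h.H0 x z),
    mul_nonneg a hq.m0.le]

/-- the martingale part of the change of an entry -/
noncomputable def fo (σ : Co ι) (τ : Au ι) (v x z : ι) : ℂ :=
  bf (τ.B v) (σ.Γ x) (σ.Γ z) + bf (τ.B v) (σ.Γ x) (σ.al z - τ.Pn v z) +
    bf (τ.B v) (σ.Γ z) (σ.al x - τ.Pn v x)

theorem Γ_step' (h : Fy q σ τ) (hv : v ∈ σ.rem) (b : Bool) (x z : ι) :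
    (σ.step τ v b).Γ x z = σ.Γ x z - sgn b * fo σ τ v x z -
      sgn b * (bf (τ.B v) (σ.Γ x) (τ.Pn v z) + bf (τ.B v) (σ.Γ z) (τ.Pn v x)) +
      bf (τ.R v b) (σ.G x) (σ.G z) := by
  rw [h.Γ_step hv, fo, bf_subr, bf_subr]; ring

theorem fo_sum (h : Fy q σ τ) (hq : q.OK) (g : Fz q σ τ) (hx : x ∈ σ.Op) (hz : z ∈ σ.Op) :
    ∑ v ∈ (σ.rem.erase x).erase z, ‖fo σ τ v x z‖ ^ 2 ≤ 50 * q.nJ := by
  have sub : (σ.rem.erase x).erase z ⊆ σ.rem := (erase_subset _ _).trans (erase_subset _ _)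
  have a : ∀ v ∈ (σ.rem.erase x).erase z, ‖fo σ τ v x z‖ ^ 2 ≤
      2 * (τ.Nh v (σ.Γ x) ^ 4 + τ.Nh v (σ.Γ z) ^ 4) +
        16 * q.γ ^ 2 * (τ.μ z v ^ 2 + τ.μ x v ^ 2) := fun v hv => by
    have hv' := sub hv
    have b0 := h.b0' hv' (σ.Γ x) (σ.Γ z) (h.n2 v hv' _)
    have b1 := h.b0' hv' (σ.Γ x) _ (h.p2 v hv' z (mem_union_left _ hz) (ne_of_mem_erase hv).symm)
    have b2 := h.b0' hv' (σ.Γ z) _
      (h.p2 v hv' x (mem_union_left _ hx) (ne_of_mem_erase (mem_of_mem_erase hv)).symm)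
    have c1 := mul_le_mul_of_nonneg_right (g.Γ1 v hv' x hx) (h.u0 z v)
    have c2 := mul_le_mul_of_nonneg_right (g.Γ1 v hv' z hz) (h.u0 x v)
    refine (pow_le_pow_left₀ (norm_nonneg _) (norm_add₃_le.trans (show _ ≤ 103 / 100 *
      (τ.Nh v (σ.Γ x) * τ.Nh v (σ.Γ z) + 2 * q.γ * τ.μ z v + 2 * q.γ * τ.μ x v) by
        linarith)) 2).trans ?_
    set a := τ.Nh v (σ.Γ x)
    set b := τ.Nh v (σ.Γ z)
    nlinarith [sq_nonneg (a ^ 2 - b ^ 2), sq_nonneg (a * b - 2 * q.γ * τ.μ z v),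
      sq_nonneg (a * b - 2 * q.γ * τ.μ x v), sq_nonneg (a * b), sq_nonneg (q.γ * τ.μ z v),
      sq_nonneg (q.γ * τ.μ z v - q.γ * τ.μ x v), sq_nonneg (q.γ * τ.μ x v)]
  refine (sum_le_sum a).trans ((sum_le_sum_of_subset_of_nonneg sub fun v _ _ => by
    positivity).trans ?_)
  simp only [sum_add_distrib, ← mul_sum]
  nlinarith [g.Γ3 x hx, g.Γ3 z hz, hq.νγ, mul_le_mul_of_nonneg_left (add_le_add (h.u1 z) (h.u1 x))
    (sq_nonneg q.γ), hq.n0, hq.n1]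

end Fy

theorem re_le (c w : ℂ) (hc : ‖c‖ ≤ 1) : |(c * w).re| ≤ ‖w‖ :=
  (Complex.abs_re_le_norm _).trans (by rw [norm_mul]; exact mul_le_of_le_one_left (norm_nonneg _) hc)

theorem t_pp : S_PP := by
  intro ι _ _ q σ τ hq h g x hx z hz c hc
  refine ⟨fun v b => -(c * (sgn b * Fy.fo σ τ v x z)).re, fun v hv b => ?_, ?_, ?_⟩
  · have hv' := mem_of_mem_erase (mem_of_mem_erase hv)
    have xv := (ne_of_mem_erase (mem_of_mem_erase hv)).symm
    have zv := (ne_of_mem_erase hv).symm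
    have a1 := h.near hq g hv' hx hz zv
    have a2 := h.near hq g hv' hz hx xv
    have a3 := (abs_le.1 (re_le c (sgn b * (bf (τ.B v) (σ.Γ x) (τ.Pn v z) +
      bf (τ.B v) (σ.Γ z) (τ.Pn v x))) hc)).1
    rw [norm_mul, norm_sgn, one_mul] at a3
    have a4 := (le_abs_self _).trans ((re_le c _ hc).trans (h.r1 v hv' b (σ.G x) (σ.G z)))
    rw [h.Γ_step' hv', mul_add, mul_sub, mul_sub, Complex.add_re, Complex.sub_re, Complex.sub_re]
    simp only [Co.step, mem_erase, ne_eq, xv, zv, hx, hz, not_false_eq_true, and_self, if_true]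
    rw [h.sH z x] at a2
    have k1 := mul_nonneg hq.κ0 (h.K0 x v)
    have k2 := mul_nonneg hq.κ0 (h.K0 z v)
    nlinarith [norm_add_le (bf (τ.B v) (σ.Γ x) (τ.Pn v z)) (bf (τ.B v) (σ.Γ z) (τ.Pn v x)),
      mul_nonneg hq.h0 (sq_nonneg (τ.Nh v (σ.G x) - τ.Nh v (σ.G z))), mul_nonneg k1 (h.H0 x z),
      mul_nonneg k2 (h.H0 x z), mul_nonneg k1 hq.m0.le, mul_nonneg k2 hq.m0.le]
  · exact (sum_eq_zero fun v _ => by simp [sgn]).le
  · have a : ∀ v b, (-(c * (sgn b * Fy.fo σ τ v x z)).re) ^ 2 ≤ ‖Fy.fo σ τ v x z‖ ^ 2 := fun v b => by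
      have := pow_le_pow_left₀ (abs_nonneg _) (re_le c (sgn b * Fy.fo σ τ v x z) hc) 2
      rwa [norm_mul, norm_sgn, one_mul, sq_abs, ← neg_sq] at this
    refine (sum_le_sum fun v _ => add_le_add (a v true) (a v false)).trans ?_
    rw [sum_add_distrib]
    have a1 := h.fo_sum hq g (h.RO hx) (h.RO hz)
    have a2 := mul_le_mul_of_nonneg_left (hq.div_le (c := 100) (k := 8) (m := 21) (by norm_num)
      (by omega)) (sq_nonneg q.m1)
    have a3 := hq.nJ_le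
    rw [div_le_iff₀ (pow_pos hq.m0 2)] at a3
    rw [mul_one_div] at a2
    refine le_trans ?_ a2
    rw [div_eq_mul_one_div 100]
    linarith

theorem split_abs {w a b : ℝ} (ha : 0 ≤ a) (hb : 0 ≤ b) (h : |w| ≤ a + b) :
    ∃ u, |w - u| ≤ a ∧ |u| ≤ b := by
  obtain ⟨h1, h2⟩ := abs_le.1 h
  refine ⟨max (-b) (min b w), ?_, ?_⟩ <;> rw [abs_le] <;> constructor <;>
    rcases le_total b w with e | e <;> rcases le_total (-b) w with e' | e' <;>
    simp [e, e', show -b ≤ b by linarith] <;> linarith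

theorem t_pa : S_PA := by
  intro ι _ _ q σ τ hq h x hx t ht
  have η0 := hq.η0
  have k : ∀ v ∈ σ.rem.erase x, ∃ u, |t * ((bf (τ.B v) (σ.al x) (σ.al x)).im / q.η) - u| ≤
      q.κ * σ.Kk x v ∧ |u| ≤ τ.μ x v := fun v hv => by
    refine split_abs (mul_nonneg hq.κ0 (h.K0 x v)) (h.u0 x v) ?_
    have := h.ia v (mem_of_mem_erase hv) x (mem_erase.2 ⟨(ne_of_mem_erase hv).symm, hx⟩)
    rw [abs_mul, abs_div, abs_of_pos η0]
    refine (mul_le_of_le_one_left (by positivity) ht).trans ?_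
    rw [div_le_iff₀ η0]; linarith
  choose! u u1 u2 using k
  refine ⟨fun v b => if b then -u v else u v, fun v hv b => ?_, ?_, ?_⟩
  · have := abs_le.1 (u1 v hv)
    cases b <;> simp [Co.step, sgn, add_div, sub_div, mul_add, mul_sub] <;> linarith
  · simp
  · have a : ∀ v ∈ σ.rem.erase x, u v ^ 2 ≤ τ.μ x v ^ 2 := fun v hv => by
      rw [← sq_abs]; exact pow_le_pow_left₀ (abs_nonneg _) (u2 v hv) 2
    have a1 := (sum_le_sum a).trans ((sum_le_sum_of_subset_of_nonneg (erase_subset x σ.rem)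
      fun v _ _ => sq_nonneg (τ.μ x v)).trans ((h.u1 x).trans hq.ν1))
    have a2 := hq.div_le (c := 2) (k := 20) (m := 100) (by norm_num) (by omega)
    simp only [if_true, Bool.false_eq_true, if_false, neg_sq, sum_add_distrib]
    rw [div_eq_mul_one_div 2] at a2
    linarith

end Pool.Agent.P.MP_d0f69c_mp.XS.Pre
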