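import Pool.Agent.P.MP_d0f69c_mp.XS.PIfT
import Pool.Agent.P.MP_d0f69c_mp.XS.FFx

/-!
The facts about a state of the preparatory flow follow from the bounds of the monitors and the
comparison of the forms.
-/

set_option autoImplicit false
set_option linter.dupNamespace false

open Finset Real
open scoped Matrix

namespace Pool.Agent.P.MP_d0f69c_mp.XS.Pre

namespace PFXA

section generic

variable {ι : Type} [Fintype ι] [DecidableEq ι]

omit [Fintype ι] in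
/-- what the row functional gives -/
theorem zf_aux {σ : Co ι} {m : ℝ} {x : ι} (hm : 0 < m) (hK : ∀ x y, 0 ≤ σ.Kk x y)
    (hd : 0 ≤ σ.dh x) (h : σ.Zf m x ≤ 995 / 1000) :
    ∑ z ∈ σ.X, ‖σ.G x z‖ ^ 2 ≤ 2000 ∧ (x ∈ σ.rem → ‖σ.Γ x x‖ ≤ 2000 * m) := by
  have t0 : ∀ z, (if z ∈ σ.X then 1 else 0) / 2000 ≤ σ.th z := fun z => by
    have a1 : 0 ≤ σ.kr z := sum_nonneg fun _ _ => hK _ _
    have a2 : 0 ≤ σ.ir z := by unfold Co.ir; split_ifs <;> norm_num
    unfold Co.th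
    linarith
  have t1 : ∀ z, 0 ≤ σ.th z := fun z => le_trans (by split_ifs <;> norm_num) (t0 z)
  have s1 : (∑ z ∈ σ.X, ‖σ.G x z‖ ^ 2) / 2000 ≤ ∑ z ∈ σ.Op ∪ σ.X, σ.th z * ‖σ.G x z‖ ^ 2 := by
    refine le_trans ?_ (sum_le_sum_of_subset_of_nonneg subset_union_right fun z _ _ =>
      mul_nonneg (t1 z) (sq_nonneg _))
    rw [sum_div]
    refine sum_le_sum fun z hz => ?_
    have := mul_le_mul_of_nonneg_right (t0 z) (sq_nonneg ‖σ.G x z‖)
    rw [if_pos hz] at this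
    linarith
  have s0 : 0 ≤ ∑ z ∈ σ.X, ‖σ.G x z‖ ^ 2 := sum_nonneg fun _ _ => sq_nonneg _
  unfold Co.Zf at h
  refine ⟨?_, fun hx => ?_⟩
  · have : (0 : ℝ) ≤ if x ∈ σ.rem ∪ σ.Sg then √(‖σ.Γ x x‖ ^ 2 + m ^ 2) / m else 0 := by
      split_ifs <;> positivity
    linarith
  · rw [if_pos (mem_union_left _ hx)] at h
    have a1 : √(‖σ.Γ x x‖ ^ 2 + m ^ 2) / m ≤ 2000 := by linarith
    rw [div_le_iff₀ hm] at a1
    exact (le_sqrt_of_sq_le (le_add_of_nonneg_right (sq_nonneg _))).trans a1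

omit [Fintype ι] in
/-- what the monitor of the fourth powers gives -/
theorem q4_aux {σ : Co ι} {q : Nq} (hq : q.OK) {S : Finset ι} {x : ι}
    (h : σ.q4 q S q.n x ≤ q.n / 20) : σ.N4 q.κ x ≤ 25 * q.n := by
  unfold Co.q4 at h
  have hn := hq.n0
  have hP : 0 < q.P := lt_of_lt_of_le (by norm_num) hq.P9
  have h1 : 0 ≤ ∑ y ∈ S, ‖σ.Γ x y‖ ^ 4 := sum_nonneg fun _ _ => by positivity
  have h3 : √(q.n * (σ.N4 q.κ x + q.n / q.P ^ 12)) ≤ 5 * q.n := by linarith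
  rw [sqrt_le_left (by positivity)] at h3
  have h4 : 0 ≤ q.n / q.P ^ 12 := by positivity
  refine le_of_mul_le_mul_left ?_ hn
  nlinarith [mul_nonneg hn.le h4]

theorem two_aux (a b : ℝ) : (a + b) ^ 2 ≤ 6 / 5 * a ^ 2 + 6 * b ^ 2 := by
  nlinarith [sq_nonneg (a - 5 * b)]

theorem four_aux (a b : ℝ) : (a + b) ^ 4 ≤ 15 / 8 * a ^ 4 + 150 * b ^ 4 := by
  have h1 : (a + b) ^ 2 ≤ 5 / 4 * a ^ 2 + 5 * b ^ 2 := by nlinarith [sq_nonneg (a - 4 * b)]
  have h2 := pow_le_pow_left₀ (sq_nonneg _) h1 2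
  have h3 := two_aux (5 / 4 * a ^ 2) (5 * b ^ 2)
  nlinarith

omit [Fintype ι] [DecidableEq ι] in
/-- fourth powers of a row that has hardly moved -/
theorem k4_aux {O T : Finset ι} {f g : ι → ℂ} {t n : ℝ} (hT : T ⊆ O) (t1 : t ≤ 1 / 10 ^ 4)
    (tn : t ≤ n) (hf : ∑ y ∈ O, ‖f y - g y‖ ≤ t) (hg : ∑ y ∈ O, ‖g y‖ ^ 4 ≤ n) :
    ∑ y ∈ T, ‖f y‖ ^ 4 ≤ 2 * n := by
  have t0 : 0 ≤ t := (sum_nonneg fun _ _ => norm_nonneg _).trans hf
  have a1 : ∀ y ∈ O, ‖f y‖ ^ 4 ≤ 15 / 8 * ‖g y‖ ^ 4 + 150 * t * ‖f y - g y‖ := fun y hy => by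
    have b0 := norm_nonneg (f y - g y)
    have b1 : ‖f y - g y‖ ≤ t :=
      (single_le_sum (f := fun y => ‖f y - g y‖) (fun _ _ => norm_nonneg _) hy).trans hf
    have b2 : ‖f y - g y‖ ^ 3 ≤ t :=
      (pow_le_of_le_one b0 (by linarith) (by norm_num)).trans b1
    have b3 := mul_le_mul_of_nonneg_right b2 b0
    have b4 := pow_le_pow_left₀ (norm_nonneg _) (norm_le_insert' (f y) (g y)) 4
    have b5 := four_aux ‖g y‖ ‖f y - g y‖
    nlinarith
  have a2 := sum_le_sum a1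
  rw [sum_add_distrib, ← mul_sum, ← mul_sum] at a2
  have a3 := sum_le_sum_of_subset_of_nonneg (f := fun y => ‖f y‖ ^ 4) hT fun _ _ _ => by positivity
  have a4 := mul_le_mul_of_nonneg_left hf t0
  nlinarith

end generic

variable {d M : ℕ} [NeZero M] {E : PEnv d M} {q : PPar d M}

section numbers

variable (h : PFN E q)
include h

theorem δ0 : 0 ≤ q.δN := by
  have := h.nq.m0
  unfold PPar.δN
  split_ifs
  exacts [mul_nonneg (by positivity) this.le, le_rfl]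

theorem c1 : 1 ≤ 1 + 1000 * q.kap * q.ρ ^ 3 := by
  have a1 : 0 ≤ q.kap := h.nq.κ0
  have a2 : 0 ≤ q.ρ := zero_le_one.trans h.ρ1
  exact le_add_of_nonneg_right (by positivity)

theorem H12 (z : Tor d M) : q.H1 z + 10 ^ 4 * q.hb ≤ q.H2 z := by
  have := le_mul_of_one_le_left (add_nonneg (h.H0 z) (δ0 h)) (c1 h)
  unfold PPar.H2 PPar.H1
  linarith

theorem H20 (z : Tor d M) : 0 ≤ q.H2 z := by
  have a1 := H12 h z
  have a2 : 0 ≤ q.H1 z := add_nonneg (h.H0 z) (δ0 h)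
  have a3 : 0 ≤ q.hb := h.nq.h0
  linarith

theorem H2e (x y : Tor d M) : q.H2 (x - y) = q.H2 (y - x) := by
  rw [← neg_sub y x, PPar.H2, PPar.H2, PPar.H1, PPar.H1, h.He]

theorem H2ρ (x : Tor d M) {u v : Tor d M} (huv : u = v ∨ q.Kk (v - u) ≠ 0) :
    q.H2 (x - u) ≤ q.ρ * q.H2 (x - v) := by
  rcases huv with rfl | a
  · exact le_mul_of_one_le_left (H20 h _) h.ρ1
  have a1 := h.Hρ (x - v) _ a
  rw [sub_add_sub_cancel] at a1
  have a2 := le_mul_of_one_le_left (δ0 h) h.ρ1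
  have a3 := le_mul_of_one_le_left (show 0 ≤ q.hb from h.nq.h0) h.ρ1
  have a4 := mul_le_mul_of_nonneg_left (add_le_add a1 a2) (zero_le_one.trans (c1 h))
  unfold PPar.H2 PPar.H1
  linarith

theorem H2ρ2 (x : Tor d M) {u v y : Tor d M} (h1 : u = v ∨ q.Kk (v - u) ≠ 0)
    (h2 : v = y ∨ q.Kk (y - v) ≠ 0) : q.H2 (x - u) ≤ q.ρ ^ 2 * q.H2 (x - y) :=
  (H2ρ h x h1).trans ((mul_le_mul_of_nonneg_left (H2ρ h x h2)
    (zero_le_one.trans h.ρ1)).trans_eq (by ring))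

theorem t6 : exp (-(q.P : ℝ) ^ 7 / 4) ≤ exp (-(q.P : ℝ) ^ 6) := by
  have a1 := h.hq.P9 h.hE
  have a2 := mul_le_mul_of_nonneg_left a1 (pow_nonneg (h.hq.Ppos h.hE).le 6)
  have a3 := pow_nonneg (h.hq.Ppos h.hE).le 6
  refine exp_le_exp.2 ?_
  rw [pow_succ _ 6]
  linarith

theorem tP : exp (-(q.P : ℝ) ^ 7 / 4) ≤ 1 / (q.P : ℝ) ^ 5 ∧ 1 / (q.P : ℝ) ^ 5 ≤ 1 / 10 ^ 4 := by
  have a0 := h.hq.Ppos h.hE
  have a1 : q.hb ≤ E.η / (q.P : ℝ) ^ 100 := h.nq.h1
  have a2 : E.η / (q.P : ℝ) ^ 100 ≤ 1 / (q.P : ℝ) ^ 5 := div_le_div₀ zero_le_one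
    (h.hE.η1.trans (by norm_num)) (by positivity) (h.hq.pow_le h.hE (by norm_num))
  have a3 : 0 < q.m1 := h.nq.m0
  have a4 := h.k2
  have a5 : q.eps ≤ 1 / 10 ^ 12 := h.nq.ε1
  have a6 : 100 / (q.P : ℝ) ^ 5 = 100 * (1 / (q.P : ℝ) ^ 5) := by ring
  exact ⟨by linarith [t6 h, h.m0, h.hm], by linarith⟩

theorem K1 (x : Tor d M) : ∑ y, q.Kk (x - y) ≤ 1 :=
  (Equiv.sum_comp (Equiv.subLeft x) q.Kk).trans_le h.K1

theorem gt_row (x : Tor d M) :
    ∑ y ∈ univ.erase x, E.gt (x - y) ^ 2 ≤ (√q.n4 / (q.P : ℝ) ^ 15) ^ 2 := by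
  have a1 : 0 < q.n4 := h.nq.n0
  rw [div_pow, sq_sqrt a1.le, ← pow_mul]
  exact (sum_le_univ_sum_of_nonneg fun _ => sq_nonneg _).trans
    ((Equiv.sum_comp (Equiv.subLeft x) fun z => E.gt z ^ 2).trans_le h.g0)

end numbers

end PFXA

open PFXA in
theorem t_pfx (h1 : S_PR) (h2 : S_PDEC) (h3 : S_PFAR) (h4 : S_PWD) (h5 : S_PSM) (h6 : S_PCI) :
    S_PFX := by
  intro d M _ E q S c Z Sg H X hX ω dh B hU
  have N := H.toPFN
  have hE := H.hE
  have nq := H.nq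
  have hη := hE.η0
  have sym := H.G_symm X ω
  have sa : ∀ x y, Ax E S ω X x y = Ax E S ω X y x := fun x y =>
    congrFun (congrFun (H.smk.kok.al_T _ _) y) x
  have sΓ : ∀ x y, E.Γ S X ω x y = E.Γ S X ω y x := fun x y => by rw [Γ_eq, Γ_eq, sym, sa]
  have dec := h2 d M E q S c Z Sg H X hX ω B.nrm
  have far := h3 d M E q S c Z Sg H X hX ω dec
  obtain ⟨t1, t2⟩ := tP N
  have t3 := (t6 N).trans H.m0
  have t4 := (t6 N).trans H.n0
  set t := exp (-(q.P : ℝ) ^ 7 / 4) with ht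
  have m0 : 0 < q.m1 := nq.m0
  have n1 : q.n4 ≤ q.nO := nq.n1
  have n0 : 0 < q.n4 := nq.n0
  have κ0 : 0 ≤ q.kap := nq.κ0
  have cs : ∀ x ∈ S.O \ X, x ∈ Rw E q S c \ X ∨ x ∈ S.O \ Rw E q S c := fun x hx => by
    by_cases a : x ∈ Rw E q S c
    exacts [Or.inl (mem_sdiff.2 ⟨a, (mem_sdiff.1 hx).2⟩), Or.inr (mem_sdiff.2 ⟨(mem_sdiff.1 hx).1, a⟩)]
  have of : ∀ x ∈ S.O \ Rw E q S c, ∀ y ∈ S.O, ‖E.Γ S X ω x y‖ ≤ q.H2 (x - y) := fun x hx y hy => by
    have a1 := (single_le_sum (f := fun y => ‖E.Γ S X ω x y - E.Γ0 S x y‖)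
      (fun _ _ => norm_nonneg _) hy).trans (far x hx).1
    have a2 : ‖E.Γ0 S x y‖ ≤ q.H1 (x - y) := H.inv.amp x (mem_sdiff.1 hx).1 y hy
    linarith [norm_le_insert' (E.Γ S X ω x y) (E.Γ0 S x y), H12 N (x - y), H.hm]
  have amp : ∀ x ∈ S.O \ X, ∀ y ∈ S.O \ X, ‖E.Γ S X ω x y‖ ≤ q.H2 (x - y) := fun x hx y hy =>
    (cs x hx).elim (fun a => (cs y hy).elim (B.pr x a y) fun b => by
      rw [sΓ, H2e N]; exact of y b x (mem_sdiff.1 hx).1) fun a => of x a y (mem_sdiff.1 hy).1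
  have sup : ∀ x ∈ S.O \ X, ∀ y ∈ S.O \ X, ‖E.Γ S X ω x y‖ ≤ q.gam := fun x hx y hy => by
    linarith [amp x hx y hy, H.H3 (x - y), H20 N (x - y)]
  have aa : ∀ x ∈ S.O \ X, |E.a S X ω x - E.a0 S x| ≤ q.kap + 1 / (q.P : ℝ) ^ 5 := fun x hx =>
    (cs x hx).elim (B.aa x) fun a => by linarith [(far x a).2.1]
  obtain ⟨w1, w2, w3, w4, w5⟩ := h4 d M E q S c Z Sg H X hX ω fun x hx => by
    have a1 := amp x hx x hx
    rw [sub_self] at a1
    linarith [H.H2, H20 N 0]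
  obtain ⟨r, K, κ, ν1, ν, st⟩ := H.st
  have Xg := hX.trans H.Zg
  obtain ⟨D, D2, mu, stat⟩ := st.stat X Xg ω
  obtain ⟨s1, s2, s3, s4, s5⟩ := h5 d M E q S c Z Sg H r K κ ν1 ν st X hX ω D D2 mu stat
  have rR : Z \ X ⊆ Rw E q S c \ X := sdiff_subset_sdiff (subset_union_left.trans H.TR) le_rfl
  have RO : Rw E q S c \ X ⊆ S.O \ X := sdiff_subset_sdiff inter_subset_left le_rfl
  have rO := rR.trans RO
  have rg : ∀ v ∈ Z \ X, v ∈ S.good := fun v hv => H.Zg (mem_sdiff.1 hv).1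
  have zf := fun x (hx : x ∈ Rw E q S c \ X) =>
    zf_aux (σ := coS E q S c Z Sg X ω dh) m0 (fun _ _ => H.K0 _) (B.d0 x) (B.zz x hx)
  have nx : ∀ v b, Wx E S (Function.update ω v b) (insert v X) =
      Ww (E.ker S) ((S.O \ X).erase v) (Function.update (mix X ω (om S)) v b) := fun v b => by
    rw [Wx, sdiff_insert, mix_insert]
  obtain ⟨τ, fu, eD, eD2, eβ, nxt⟩ := h1 (Tor d M) (nqOf E q) (coS E q S c Z Sg X ω dh) r K D D2 mu
    κ ν1 ν (E.ker S) (cr E.H) (mix X ω (om S)) nq stat st.imb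
    (by ext a b; exact congrArg Complex.ofReal (hE.symm b a)) (H.unit X Xg ω)
    (fun v hv b => by
      have := H.unit (insert v X) (insert_subset (rg v hv) Xg) (Function.update ω v b)
      rwa [nx] at this)
    (fun _ _ => rfl) (fun _ _ => rfl) rR RO (fun _ _ => H.K0 _) (K1 N)
    (fun v hv u hu => st.n1 v (rg v hv) u
      (union_subset sdiff_subset (hX.trans H.ZO) hu))
    (fun v hv u hu => st.n2 v (rg v hv) u (mem_sdiff.1 hu).1) st.ν0
    (le_trans (by linarith [sq_nonneg κ]) st.k2) H.hm (fun v hv => (zf v (rR hv)).2 hv) sup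
    fun v _ u hu u' hu' a a' => by
      have b1 := H2ρ2 N u a' (a.imp Eq.symm fun a => by rwa [← neg_sub, H.Ke])
      rw [sub_self] at b1
      have b2 := mul_le_mul_of_nonneg_left ((amp u hu u' hu').trans b1) κ0
      rw [← mul_assoc] at b2
      exact b2.trans H.H1
  obtain ⟨c0, pch⟩ := h6 d M E.toEnv (Kw (E.a0 S) (E.G S X ω)) (S.O \ X) S.omg _ hE
    (fun x y => by rw [Kw, Kw, sym x y]; ring) hU (by norm_num) le_rfl
    (fun x hx => mem_sdiff.2 ⟨S.omg_sub hx, fun hn => disjoint_left.1 H.inv.go (Xg hn) hx⟩) H.cov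
  have a2 : ∀ x ∈ S.O \ X, 99 / 100 ≤ E.a0 S x := fun x hx => by
    linarith [(abs_le.1 (H.a0 (mem_sdiff.1 hx).1)).1]
  have eZ : X ∪ Z \ X = Z := union_sdiff_of_subset hX
  refine ⟨τ, fun dh' B' => ?_, fun v hv b x y => ?_, fun v hv b x y => ?_, fun φ => ?_⟩
  · exact
    { sG := sym, sa := sa, sB := fu.sB, sR := fu.sR
      sK := fun x y => by
        show q.Kk (x - y) = q.Kk (y - x)
        rw [← neg_sub y x, H.Ke]
      sH := fun x y => congrArg (q.ρ ^ 2 * ·) (H2e N x y)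
      rR := rR
      gR := fun x hx => mem_sdiff.2 ⟨H.TR (mem_union_right _ hx), fun a =>
        disjoint_left.1 H.disj (hX a) hx⟩
      RO := RO
      rs := H.disj.mono_left sdiff_subset
      OX := sdiff_disjoint
      Bv := fun v => self_bl v _
      K0 := fun _ _ => H.K0 _
      Kd := fun x => by
        show q.Kk (x - x) = 0
        rw [sub_self, H.Kd]
      K1 := K1 N
      KB := fun u v a => mem_bl.2 ((H.KD _ a).trans
        ((H.hq.l_le_li hE 2).trans (H.hq.li_le_D hE 2)))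
      BR := fun v hv x hx => by
        obtain ⟨b1, b2⟩ := mem_inter.1 hx
        refine mem_sdiff.2 ⟨mem_inter.2 ⟨(mem_sdiff.1 b2).1, ?_⟩, (mem_sdiff.1 b2).2⟩
        have b3 := mem_bl.1 (mem_inter.1 (H.hZ (mem_sdiff.1 hv).1)).2
        have b4 : nm (x - v) ≤ q.D E.η 2 := mem_bl.1 b1
        have b5 := nm_tri x v c
        have b6 := Par.OK.D_le_A (q := q.toPar) hE
        rw [mem_bl]; omega
      H0 := fun x y => mul_nonneg (sq_nonneg _) (H20 N _)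
      H1 := fun x _ => by
        show q.kap * (q.ρ ^ 2 * q.H2 (x - x)) ≤ q.m1 / 200
        rw [sub_self, ← mul_assoc]
        linarith [H.H1]
      a1 := fun x hx => (H.a0 (mem_sdiff.1 hx).1).trans (by norm_num)
      d0 := B'.d0
      D0 := fu.D0, DO := fu.DO, D1 := fu.D1, E0 := fu.E0, EO := fu.EO, E1 := fu.E1, E2 := fu.E2
      hn := fu.hn, n1 := fu.n1, n2 := fu.n2, b0 := fu.b0, b1 := fu.b1, b2 := fu.b2, r1 := fu.r1
      r2 := fu.r2, p1 := fu.p1, p2 := fu.p2, u0 := fu.u0, u1 := fu.u1, u2 := fu.u2, ia := fu.ia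
      dg := fun v hv => w3 v (rO hv)
      ga := s1
      oa := s3
      op := w1
      row := fun x hx => (w2 x hx).trans (by norm_num)
      rowΓ := fun x hx => by
        have b1 := sum_le_sum (s := S.O \ X) fun y _ => (pow_le_pow_left₀ (norm_nonneg _)
          (norm_sub_le (E.G S X ω x y) (Ax E S ω X x y)) 2).trans (two_aux _ _)
        rw [sum_add_distrib, ← mul_sum, ← mul_sum] at b1
        refine le_trans b1 ?_
        linarith [w2 x hx, s2 x hx]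
      dd := fun u hu => (cs u hu).elim (fun a => (zf u a).1) fun a =>
        (far u a).2.2.trans (by norm_num)
      deg := fun v hv => by rw [eβ]; exact w5 dec aa v hv
      zz := B'.zz
      sup := sup
      lev := fun v _ x hx y _ u hu a b => (amp x (RO hx) u hu).trans (H2ρ2 N x b (Or.inr a))
      k4 := fun x hx => (cs x hx).elim (fun a => by
        have b1 := B'.lJ x a
        have b2 : √(q.nO * q.n4) ≤ q.nO := sqrt_le_iff.2 ⟨by linarith, by nlinarith⟩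
        have b3 := sqrt_nonneg (q.nO * ((coS E q S c Z Sg X ω dh').N4 (nqOf E q).κ x +
          (nqOf E q).n / (nqOf E q).P ^ 12))
        unfold Co.q4 at b1
        show ∑ y ∈ S.O \ X, ‖(coS E q S c Z Sg X ω dh').Γ x y‖ ^ 4 ≤ 2 * q.nO
        linarith) fun a => k4_aux sdiff_subset (t1.trans t2) (t4.trans n1) (far x a).1
          (H.inv.lJ x (mem_sdiff.1 hx).1)
      n4 := fun x hx => q4_aux nq (B'.l4 x hx)
      pc := fun f l hl hf hs => by
        rw [mul_div_assoc]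
        refine FFxA.pc_aux pch le_rfl (subset_univ _) (by positivity) (fun x y => hE.ref.g0 _)
          (fun x _ => gt_row N x) (fun x hx y hy => ?_) hl hf hs
        refine mul_le_mul_of_nonneg_right ?_ (sq_nonneg _)
        linarith [mul_le_mul (a2 x hx) (a2 y hy) (by norm_num) (le_trans (by norm_num) (a2 x hx))]
      nrm := by
        show OpLe (X ∪ Z \ X) _ _
        rw [eZ]; exact B.nrm
      ward := by
        show ∀ u, nS _ (ap (X ∪ Z \ X) _ u) ≤ _ * nS (X ∪ Z \ X) u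
        rw [eZ]; exact w4 B.nrm
      far := by
        refine le_trans (le_of_eq (sum_congr rfl fun v _ => sum_congr rfl fun y _ => ?_)) (s5 dec)
        simp only [Au.Nh, eD]
        rfl }
  · rw [G_eq, nx]; exact (nxt v hv b x y).1
  · rw [Ax, sdiff_insert, mix_insert]; exact (nxt v hv b x y).2
  · refine le_trans ?_ (s4 φ)
    refine le_trans (sum_le_sum fun v _ => sum_le_sum fun u _ =>
      mul_le_mul_of_nonneg_right (eD2 v u) (sq_nonneg _)) ?_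
    exact sum_le_univ_sum_of_nonneg fun v => sum_nonneg fun u _ =>
      mul_nonneg (stat.far.nn v u) (sq_nonneg _)

end Pool.Agent.P.MP_d0f69c_mp.XS.Pre
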