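import Pool.Agent.P.MP_d0f69c_mp.XS.PIfG

/-!
Closeness of the global flow and the proxies, and the envelope of one closing.
-/

set_option autoImplicit false

open Finset Real
open scoped Matrix

namespace Pool.Agent.P.MP_d0f69c_mp.XS.Pre

namespace PG2

variable {d M : ℕ} [NeZero M] {E : PEnv d M} {q : PPar d M} {S : St (Tor d M)}
  {J : Finset (Tor d M)} {ω : Tor d M → Bool} {κ : Tor d M → ℕ}

theorem wt (h : PGH E q S J ω κ) {x y u : Tor d M} {α : ℝ}
    (hα : α ≤ (nm (x - u) : ℝ) / (2 * q.li E.η 2)) :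
    α - (nm (x - y) : ℝ) / (2 * q.li E.η 2) ≤ (2 * nm (y - u) : ℝ) / q.l := by
  have l1 : (1 : ℝ) ≤ q.l := by exact_mod_cast h.hq.l_one h.hE
  have l2 : (q.l : ℝ) ≤ q.li E.η 2 := by exact_mod_cast h.hq.l_le_li h.hE 2
  have t : (nm (x - u) : ℝ) ≤ nm (x - y) + nm (y - u) := by exact_mod_cast nm_tri x y u
  have n0 : (0 : ℝ) ≤ nm (y - u) := Nat.cast_nonneg _
  have a : (nm (x - u) : ℝ) / (2 * q.li E.η 2) ≤
      nm (x - y) / (2 * q.li E.η 2) + nm (y - u) / (2 * q.li E.η 2) := by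
    rw [← add_div]; exact div_le_div_of_nonneg_right t (by linarith)
  have b : (nm (y - u) : ℝ) / (2 * q.li E.η 2) ≤ (2 * nm (y - u) : ℝ) / q.l :=
    div_le_div₀ (by linarith) (by linarith) (by linarith) (by linarith)
  linarith

theorem row (h : PGH E q S J ω κ) (x : Tor d M) (α : ℝ) :
    ∑ y, q.Bi 2 * exp (-(nm (x - y) : ℝ) / q.li E.η 2) *
      exp (-(α - (nm (x - y) : ℝ) / (2 * q.li E.η 2))) ≤
      q.Bi 2 * exp (2 * (q.P : ℝ) ^ 2) * exp (-α) := by
  have B0 : 0 ≤ q.Bi 2 := zero_le_one.trans (h.hq.Bi_one 2)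
  have l1 : (1 : ℝ) ≤ q.li E.η 2 := by exact_mod_cast h.hq.li_one h.hE 2
  refine le_trans (le_of_eq ?_) (mul_le_mul_of_nonneg_right (mul_le_mul_of_nonneg_left
    (h.hq.sum_exp h.hE t_far (show 2 ≤ 3 by norm_num) x) B0) (exp_pos _).le)
  rw [mul_sum, sum_mul]
  refine sum_congr rfl fun y _ => ?_
  rw [mul_assoc, mul_assoc, ← exp_add, ← exp_add, nm_comm y x]
  congr 2
  field_simp
  ring

theorem num (h : PGH E q S J ω κ) :
    3 * (q.Bi 2 * exp (2 * (q.P : ℝ) ^ 2)) ^ 2 ≤ exp ((q.P : ℝ) ^ 6) ^ 2 := by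
  have B0 : 0 ≤ q.Bi 2 := zero_le_one.trans (h.hq.Bi_one 2)
  have a := h.hq.Bi_le (le_refl 3)
  rw [Par.OK.Bi_succ] at a
  have b : 2 * exp (2 * (q.P : ℝ) ^ 2) ≤ exp (20 * (q.P : ℝ) ^ 3) := by
    have c : (2 : ℝ) ≤ exp 1 := by linarith [add_one_le_exp 1]
    refine (mul_le_mul_of_nonneg_right c (exp_pos _).le).trans ?_
    rw [← exp_add, exp_le_exp]
    have := h.hq.pow_le h.hE (show 2 ≤ 3 by norm_num)
    have := h.hq.pow_le h.hE (show 0 ≤ 3 by norm_num)
    rw [pow_zero] at this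
    linarith
  have c : 2 * (q.Bi 2 * exp (2 * (q.P : ℝ) ^ 2)) ≤ exp ((q.P : ℝ) ^ 6) :=
    le_trans (by rw [mul_left_comm]; exact mul_le_mul_of_nonneg_left b B0) a
  have e : 0 ≤ q.Bi 2 * exp (2 * (q.P : ℝ) ^ 2) := by positivity
  nlinarith [pow_le_pow_left₀ (by positivity) c 2]

/-- two states that agree near `x` and `z` -/
theorem core (h : PGH E q S J ω κ) {Λ X X' : Finset (Tor d M)} (hX : X ⊆ S.good)
    (hX' : X' ⊆ S.good) (e : ∀ u ∈ Λ, u ∈ X ↔ u ∈ X')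
    (g : Dec (E.G S X ω) S.O (q.Bi 2) (q.li E.η 2))
    (g' : Dec (E.G S X' ω) S.O (q.Bi 2) (q.li E.η 2)) {x z : Tor d M} (hx : x ∈ S.O)
    (hz : z ∈ S.O) {α β : ℝ} (hα : ∀ u ∉ Λ, α ≤ (nm (x - u) : ℝ) / (2 * q.li E.η 2))
    (hβ : ∀ u ∉ Λ, β ≤ (nm (z - u) : ℝ) / (2 * q.li E.η 2)) :
    ‖E.G S X' ω x z - E.G S X ω x z‖ ≤
      exp ((q.P : ℝ) ^ 6) * exp (-α) * (exp ((q.P : ℝ) ^ 6) * exp (-β)) := by
  have B0 : 0 ≤ q.Bi 2 := zero_le_one.trans (h.hq.Bi_one 2)
  set D := Wx E S ω X' - Wx E S ω X with hD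
  have e1 : cr E.H + Wx E S ω X' = cr E.H + Wx E S ω X + D := by rw [hD]; abel
  have e2 := inv_add_eq (h.unit X hX) (e1 ▸ h.unit X' hX')
  rw [← e1, ← G_eq, ← G_eq] at e2
  have hw : WL (fun x y => (2 * nm (x - y) : ℝ) / q.l) Λ D 3 :=
    (h.smk.lWw (agr e)).mono (by norm_num)
  have k : ∀ y w, ‖D y w‖ ≤ 3 * (exp (-(α - (nm (x - y) : ℝ) / (2 * q.li E.η 2))) *
      exp (-(β - (nm (z - w) : ℝ) / (2 * q.li E.η 2)))) := fun y w => by
    rw [← exp_add, ← neg_add]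
    refine hw.entry h.smk.pm fun u hu => add_le_add (wt h (hα u hu)) ?_
    rw [nm_comm u w]
    exact wt h (hβ u hu)
  have e3 : E.G S X' ω x z - E.G S X ω x z =
      -∑ w, ∑ y, E.G S X ω x y * D y w * E.G S X' ω w z := by
    conv_lhs => rw [e2]
    rw [Matrix.sub_apply, sub_sub_cancel_left, Matrix.mul_apply]
    simp only [Matrix.mul_apply, sum_mul]
  rw [e3, norm_neg]
  calc _ ≤ ∑ w, ∑ y, 3 * ((q.Bi 2 * exp (-(nm (x - y) : ℝ) / q.li E.η 2) *
          exp (-(α - (nm (x - y) : ℝ) / (2 * q.li E.η 2)))) *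
        (q.Bi 2 * exp (-(nm (z - w) : ℝ) / q.li E.η 2) *
          exp (-(β - (nm (z - w) : ℝ) / (2 * q.li E.η 2))))) := by
        refine (norm_sum_le _ _).trans (sum_le_sum fun w _ =>
          (norm_sum_le _ _).trans (sum_le_sum fun y _ => ?_))
        rw [norm_mul, norm_mul, h.G_symm X' w z]
        refine (mul_le_mul (mul_le_mul (g x hx y) (k y w) (norm_nonneg _) (by positivity))
          (g' z hz w) (norm_nonneg _) (by positivity)).trans_eq ?_
        ring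
    _ ≤ 3 * ((q.Bi 2 * exp (2 * (q.P : ℝ) ^ 2) * exp (-α)) *
        (q.Bi 2 * exp (2 * (q.P : ℝ) ^ 2) * exp (-β))) := by
        simp only [← mul_sum, ← sum_mul]
        exact mul_le_mul_of_nonneg_left (mul_le_mul (row h x α) (row h z β)
          (sum_nonneg fun _ _ => by positivity) (by positivity)) (by norm_num)
    _ = 3 * (q.Bi 2 * exp (2 * (q.P : ℝ) ^ 2)) ^ 2 * (exp (-α) * exp (-β)) := by ring
    _ ≤ exp ((q.P : ℝ) ^ 6) ^ 2 * (exp (-α) * exp (-β)) :=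
        mul_le_mul_of_nonneg_right (num h) (by positivity)
    _ = _ := by ring

theorem agp (p : Tor d M) (t : ℕ) : ∀ u ∈ bl p (5 * q.A E.η d),
    u ∈ pre κ (Zq E q S J p) t ↔ u ∈ pre κ (Zg S J) t := fun u hu => by
  rw [pre_inter, mem_inter, and_iff_left hu]

theorem dist (h : PGH E q S J ω κ) {p x u : Tor d M} (hx : nm (x - p) ≤ 4 * q.A E.η d)
    (hu : u ∉ bl p (5 * q.A E.η d)) : (q.P : ℝ) ^ 8 * q.li E.η 2 ≤ nm (x - u) := by
  have a := Par.OK.D_le_A (q := q.toPar) h.hE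
  have b := nm_tri u x p
  rw [mem_bl] at hu
  rw [nm_comm u x] at b
  have c : q.D E.η 2 ≤ nm (x - u) := by omega
  exact_mod_cast c

end PG2

open PG2 in
theorem t_pg2 : S_PG2 := fun d M _ E q S J ω κ h g => by
  have l1 : (1 : ℝ) ≤ q.l := by exact_mod_cast h.hq.l_one h.hE
  have l2 : (q.l : ℝ) ≤ q.li E.η 2 := by exact_mod_cast h.hq.l_le_li h.hE 2
  have hP := h.hq.Ppos h.hE
  refine ⟨fun p t x hx z hz hp => ?_, fun p t x z hp => ?_, fun v hv x hx y hy => ?_⟩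
  · refine (core h ((pre_sub t).trans (Zq_sub p)) ((pre_sub t).trans (Zg_sub S J)) (agp p t)
      (g.decp p t) (g.dec t) hx hz (α := (q.P : ℝ) ^ 8 / 2) (β := 0) (fun u hu => ?_)
      fun u _ => by positivity).trans ?_
    · rw [div_le_div_iff₀ (by norm_num) (by linarith)]
      linarith [dist h hp hu]
    · simp only [← exp_add, exp_le_exp]
      linarith [h.hq.pow_lt h.hE (show 7 < 8 by norm_num) (c := 5) (by norm_num),
        h.hq.pow_le h.hE (show 6 ≤ 7 by norm_num)]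
  · have a := ((h.smk.lal (agr (S := S) (ω := ω) (agp (S := S) (κ := κ) (J := J) p t))).mono
      (c' := 1) (by norm_num)).entry h.smk.pm (x := x) (y := z) (s := (q.P : ℝ) ^ 7)
        fun u hu => le_add_of_le_of_nonneg (by
          rw [le_div_iff₀ (by linarith)]
          have b := dist h hp hu
          have c := mul_le_mul (h.hq.pow_le h.hE (show 7 ≤ 8 by norm_num)) l2 (by linarith)
            (by positivity)
          have n0 : (0 : ℝ) ≤ nm (x - u) := Nat.cast_nonneg _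
          linarith) (by positivity)
    rwa [one_mul] at a
  · have e := pre_succ h.inj hv
    have a := core h (Λ := univ.erase v) ((pre_sub (κ v)).trans (Zg_sub S J))
      ((pre_sub (κ v + 1)).trans (Zg_sub S J))
      (fun u hu => by rw [e, mem_insert, or_iff_right (mem_erase.1 hu).1])
      (g.dec _) (g.dec _) hx hy (α := (nm (x - v) : ℝ) / (2 * q.li E.η 2))
      (β := (nm (y - v) : ℝ) / (2 * q.li E.η 2))
      (fun u hu => by rw [show u = v by simpa using hu])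
      fun u hu => by rw [show u = v by simpa using hu]
    rw [e] at a
    simpa only [ew, neg_div] using a

end Pool.Agent.P.MP_d0f69c_mp.XS.Pre
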