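import Pool.Agent.P.MP_d0f69c_mp.XS.PIfG
import Pool.Agent.P.MP_d0f69c_mp.XS.G2a

/-!
Gluing in the preparation stage: forms, near pairs.
-/

set_option autoImplicit false

open Finset Real

namespace Pool.Agent.P.MP_d0f69c_mp.XS.Pre

namespace PG3x

section gen

variable {T : Type}

theorem lin_le {S B : Finset T} (hS : S ⊆ B) {k k' F φ : T → ℝ} {ε c : ℝ} (hε : 0 ≤ ε)
    (h : ∀ x ∈ S, |k x - k' x| ≤ ε) (hφ : ∀ x ∈ B, φ x = F x - c) {v : T} (hv : v ∈ B) :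
    |∑ x ∈ S, k x * (F x - F v) ^ 2 - ∑ x ∈ S, k' x * (φ x - φ v) ^ 2| ≤
      ε * ∑ x ∈ B, (F x - F v) ^ 2 := by
  rw [← sum_sub_distrib, mul_sum]
  refine (abs_sum_le_sum_abs _ _).trans ((sum_le_sum fun x hx => ?_).trans
    (sum_le_sum_of_subset_of_nonneg hS fun x _ _ => by positivity))
  rw [hφ x (hS hx), hφ v hv, sub_sub_sub_cancel_right, ← sub_mul, abs_mul, abs_sq]
  exact mul_le_mul_of_nonneg_right (h x hx) (sq_nonneg _)

theorem abs_lin {S : Finset T} {k g : T → ℝ} {m : ℝ} (h : ∀ x ∈ S, |k x| ≤ m) :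
    |∑ x ∈ S, k x * g x| ≤ m * ∑ x ∈ S, |g x| := by
  rw [mul_sum]
  refine (abs_sum_le_sum_abs _ _).trans (sum_le_sum fun x hx => ?_)
  rw [abs_mul]
  exact mul_le_mul_of_nonneg_right (h x hx) (abs_nonneg _)

theorem sq_le {S B : Finset T} (hS : S ⊆ B) {k k' F φ : T → ℝ} {ε m c : ℝ} (hε : 0 ≤ ε)
    (hm : 0 ≤ m) (h : ∀ x ∈ S, |k x - k' x| ≤ ε) (h1 : ∀ x ∈ S, |k x + k' x| ≤ m)
    (hφ : ∀ x ∈ B, φ x = F x - c) {v : T} (hv : v ∈ B) :
    |(∑ x ∈ S, k x * (F v - F x)) ^ 2 - (∑ x ∈ S, k' x * (φ v - φ x)) ^ 2| ≤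
      m * ε * B.card * ∑ x ∈ B, (F x - F v) ^ 2 := by
  have e : ∑ x ∈ S, k' x * (φ v - φ x) = ∑ x ∈ S, k' x * (F v - F x) :=
    sum_congr rfl fun x hx => by rw [hφ x (hS hx), hφ v hv, sub_sub_sub_cancel_right]
  have c1 : (∑ x ∈ S, |F v - F x|) ^ 2 ≤ B.card * ∑ x ∈ B, (F x - F v) ^ 2 := by
    refine le_trans (pow_le_pow_left₀ (sum_nonneg fun _ _ => abs_nonneg _)
      (sum_le_sum_of_subset_of_nonneg hS fun x _ _ => abs_nonneg _) 2)
      (sq_sum_le_card_mul_sum_sq.trans_eq ?_)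
    congr 1
    exact sum_congr rfl fun x _ => by rw [sq_abs]; ring
  rw [e, sq_sub_sq, abs_mul, ← sum_add_distrib, ← sum_sub_distrib]
  simp only [← add_mul, ← sub_mul]
  have t0 : 0 ≤ ∑ x ∈ S, |F v - F x| := sum_nonneg fun _ _ => abs_nonneg _
  calc _ ≤ (m * ∑ x ∈ S, |F v - F x|) * (ε * ∑ x ∈ S, |F v - F x|) :=
        mul_le_mul (abs_lin h1) (abs_lin h) (abs_nonneg _) (mul_nonneg hm t0)
    _ = m * ε * (∑ x ∈ S, |F v - F x|) ^ 2 := by ring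
    _ ≤ m * ε * (B.card * ∑ x ∈ B, (F x - F v) ^ 2) :=
        mul_le_mul_of_nonneg_left c1 (mul_nonneg hm hε)
    _ = _ := by ring

theorem comb {a a' b b' c c' r e1 e2 e3 : ℝ} (τ : Bool) (ha : |a - a'| ≤ e1) (hb : |b - b'| ≤ e2)
    (hc : |c - c'| ≤ e3) :
    sr τ * (a - b) - (if τ then 0 else 4 * c) - r ≤
      sr τ * (a' - b') - (if τ then 0 else 4 * c') - r + (e1 + e2 + 4 * e3) := by
  have a1 := abs_le.1 ha
  have b1 := abs_le.1 hb
  have c1 := abs_le.1 hc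
  cases τ <;> simp only [sr, if_true, if_false, Bool.false_eq_true] <;> linarith

end gen

variable {d M : ℕ} [NeZero M] {E : PEnv d M} {q : PPar d M} {S : St (Tor d M)}
  {J : Finset (Tor d M)} {ω : Tor d M → Bool} {κ : Tor d M → ℕ}

theorem l_le (h : PGH E q S J ω κ) : q.l ≤ q.D E.η 2 :=
  (h.hq.l_le_li h.hE 2).trans (h.hq.li_le_D h.hE 2)

theorem wt_inter (h : PGH E q S J ω κ) (τ : Bool) (R : Finset (Tor d M)) {p u : Tor d M}
    (hu : nm (u - p) ≤ 4 * q.A E.η d) :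
    wt E q S τ (R ∩ bl p (5 * q.A E.η d)) u = wt E q S τ R u := by
  have l1 := l_le h
  have l2 : q.D E.η 2 ≤ q.A E.η d := Par.OK.D_le_A h.hE
  have e1 : u ∈ R ∩ bl p (5 * q.A E.η d) ↔ u ∈ R :=
    ⟨fun a => (mem_inter.1 a).1, fun a => mem_inter.2 ⟨a, mem_bl.2 (by omega)⟩⟩
  have e2 : ∑ v ∈ R ∩ bl p (5 * q.A E.η d), q.Kk (u - v) = ∑ v ∈ R, q.Kk (u - v) :=
    sum_subset inter_subset_left fun v hv hn => by
      by_contra a
      have b := h.KD _ a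
      have c := nm_tri v u p
      rw [nm_comm v u] at c
      exact hn (mem_inter.2 ⟨hv, mem_bl.2 (by omega)⟩)
  simp only [wt, e1, e2]

theorem G_le (h : PGH E q S J ω κ) {G : Matrix (Tor d M) (Tor d M) ℂ}
    (g : Dec G S.O (q.Bi 2) (q.li E.η 2)) {x : Tor d M} (hx : x ∈ S.O) (y : Tor d M) :
    ‖G x y‖ ≤ exp ((q.P : ℝ) ^ 6) :=
  (g x hx y).trans ((mul_le_of_le_one_right (zero_le_one.trans (h.hq.Bi_one 2)) (exp_le_one_iff.2
    (div_nonpos_of_nonpos_of_nonneg (neg_nonpos.2 (Nat.cast_nonneg _)) (Nat.cast_nonneg _)))).trans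
      (h.hq.Bi_le (by norm_num)))

theorem Kt_le (h : PGH E q S J ω κ) (τ : Bool) {Z X : Finset (Tor d M)}
    (g : Dec (E.G S X ω) S.O (q.Bi 2) (q.li E.η 2)) {x y : Tor d M} (hx : x ∈ S.O) (hy : y ∈ S.O) :
    |Kt E q S τ Z X ω x y| ≤ 4 * exp ((q.P : ℝ) ^ 6) ^ 2 := by
  have a := h.wt_le τ (Z \ X) hx
  have b := h.wt_le τ (Z \ X) hy
  have a0 : 0 ≤ wt E q S τ (Z \ X) x := by linarith [a.1]
  have b0 : 0 ≤ wt E q S τ (Z \ X) y := by linarith [b.1]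
  rw [Kt, Kw, abs_of_nonneg (by positivity)]
  exact G2.kk_le a0 a.2 b0 b.2 (G_le h g hx y)

theorem Kt_diff (h : PGH E q S J ω κ) (g : PGD E q S J ω κ) (c : PGC E q S J ω κ) (τ : Bool)
    (p : Tor d M) (t : ℕ) {x y : Tor d M} (hx : x ∈ S.O) (hy : y ∈ S.O)
    (hxp : nm (x - p) ≤ 4 * q.A E.η d) (hyp : nm (y - p) ≤ 4 * q.A E.η d) :
    |Kt E q S τ (Zg S J) (pre κ (Zg S J) t) ω x y -
      Kt E q S τ (Zq E q S J p) (pre κ (Zq E q S J p) t) ω x y| ≤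
      8 * exp ((q.P : ℝ) ^ 6) * exp (-(q.P : ℝ) ^ 7 / 2) := by
  have e : Zq E q S J p \ pre κ (Zq E q S J p) t =
      (Zg S J \ pre κ (Zg S J) t) ∩ bl p (5 * q.A E.η d) := by
    ext z; simp only [mem_sdiff, mem_pre, mem_inter]; tauto
  have a := h.wt_le τ (Zg S J \ pre κ (Zg S J) t) hx
  have b := h.wt_le τ (Zg S J \ pre κ (Zg S J) t) hy
  rw [Kt, Kt, Kw, Kw, e, wt_inter h τ _ hxp, wt_inter h τ _ hyp]
  exact G2.kk_diff (by linarith [a.1]) a.2 (by linarith [b.1]) b.2 (G_le h (g.dec t) hx y)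
    (G_le h (g.decp p t) hx y) (c.cls p t x hx y hy hxp)

theorem num (h : PGH E q S J ω κ) {V : ℝ} (V1 : 1 ≤ V) (hV : V ≤ exp ((q.P : ℝ) ^ 2)) {B ε : ℝ}
    (hB : B = exp ((q.P : ℝ) ^ 6)) (hε : ε = 8 * B * exp (-(q.P : ℝ) ^ 7 / 2)) :
    2 * (ε + ε) * V + ε + 4 * ((4 * B ^ 2 + 4 * B ^ 2) * ε * V) ≤ exp (-(q.P : ℝ) ^ 7 / 5) := by
  have hs := h.scl
  have B1 : 296 ≤ B := by
    have := add_one_le_exp ((q.P : ℝ) ^ 6)
    have := hs.pow_lt (show 0 < 6 by norm_num) (c := 296) (by norm_num)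
    rw [hB]; linarith
  have ε0 : 0 ≤ ε := by rw [hε]; positivity
  have B2 : 1 ≤ B ^ 2 := by nlinarith
  have V2 : V ≤ B := hB ▸ hV.trans (exp_le_exp.2 (hs.pow_le (by norm_num)))
  calc _ ≤ 37 * (B ^ 2 * ε * V) := by
        have a : ε * V ≤ B ^ 2 * ε * V := by
          rw [mul_assoc]; exact le_mul_of_one_le_left (by positivity) B2
        have b : ε ≤ ε * V := le_mul_of_one_le_right ε0 V1
        linarith
    _ = 296 * V * B ^ 3 * exp (-(q.P : ℝ) ^ 7 / 2) := by rw [hε]; ring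
    _ ≤ B * B * B ^ 3 * exp (-(q.P : ℝ) ^ 7 / 2) := by gcongr
    _ ≤ _ := by
      rw [hB, ← exp_nat_mul, ← exp_add, ← exp_add, ← exp_add, exp_le_exp]
      push_cast
      linarith [hs.pow_lt (show 6 < 7 by norm_num) (c := 20) (by norm_num),
        pow_pos hs.P0 6]

end PG3x

open PG3x in
theorem t_pg3 : S_PG3 := by
  intro d M _ E q S J ω κ h g c τ F
  have hDA : q.D E.η 2 ≤ q.A E.η d := Par.OK.D_le_A h.hE
  have hP := h.scl.P0
  refine h.scl.near_form (Zg S J) _ F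
    (fun p v φ => Y5P E q S τ (Zq E q S J p) (pre κ (Zq E q S J p) (κ v)) ω v φ)
    (fun p φ hφ => ?_) fun p v hv φ c0 hφ => ?_
  · change ∑ v ∈ Zg S J ∩ bl p (q.A E.η d), _ ≤ _
    have hb : bl p (q.A E.η d) ⊆ bl p (5 * q.A E.η d) := ball_mono p (by omega)
    rcases h.flow p with h3 | h3
    · rw [eq_empty_of_forall_notMem (s := Zg S J ∩ _) fun v hv =>
        (mem_sdiff.1 (mem_inter.1 hv).1).2 (h3 (hb (mem_inter.1 hv).2)), sum_empty]
      have := NF_nonneg h.hE.ref.p0 φ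
      rw [Nm]
      positivity
    have h4 := h3.y5 τ φ hφ
    rwa [inter_assoc, inter_eq_right.2 hb] at h4
  change v ∈ Zg S J ∩ bl p (q.A E.η d) at hv
  have vZ := (mem_inter.1 hv).1
  have vp := mem_bl.1 (mem_inter.1 hv).2
  have vq : v ∈ Zq E q S J p := mem_inter.2 ⟨vZ, mem_bl.2 (by omega)⟩
  have vO : v ∈ S.O := mem_union_left _ (mem_union_left _ (Zg_sub S J vZ))
  have vB := self_bl v (q.D E.η 2)
  have near : ∀ x ∈ bl v (q.D E.η 2), nm (x - p) ≤ 4 * q.A E.η d := fun x hx => by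
    have := nm_tri x v p
    have := mem_bl.1 hx
    omega
  have eS : Sv E q S (pre κ (Zq E q S J p) (κ v)) v = Sv E q S (Xv S J κ v) v := by
    ext z
    simp only [Sv, mem_erase, mem_inter, mem_sdiff, mem_pre]
    refine and_congr_right fun _ => and_congr_left fun hz => and_congr_right fun _ => ?_
    have : z ∈ bl p (5 * q.A E.η d) := mem_bl.2 ((near z hz).trans (by omega))
    tauto
  have sB : Sv E q S (Xv S J κ v) v ⊆ bl v (q.D E.η 2) :=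
    (erase_subset _ _).trans inter_subset_right
  have sO : ∀ x ∈ Sv E q S (Xv S J κ v) v, x ∈ S.O := fun x hx =>
    (mem_sdiff.1 (mem_inter.1 (mem_of_mem_erase hx)).1).1
  have eK : ∑ x, q.Kk (x - v) * (φ x - φ v) ^ 2 = ∑ x, q.Kk (x - v) * (F x - F v) ^ 2 :=
    sum_congr rfl fun x _ => by
      by_cases a : q.Kk (x - v) = 0
      · rw [a, zero_mul, zero_mul]
      rw [hφ x (mem_bl.2 ((h.KD _ a).trans (l_le h))), hφ v vB, sub_sub_sub_cancel_right]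
  have k := fun t x (hx : x ∈ Sv E q S (Xv S J κ v) v) y hy hyp =>
    Kt_diff h g c τ p t (y := y) (sO x hx) hy (near x (sB hx)) hyp
  have ε0 : 0 ≤ 8 * exp ((q.P : ℝ) ^ 6) * exp (-(q.P : ℝ) ^ 7 / 2) := by positivity
  simp only [Y5P]
  rw [eS, eK, ← pre_succ h.inj vZ, ← pre_succ h.inj vq]
  refine (comb τ (G4x.En_diff sB (add_nonneg ε0 ε0) (fun x hx y hy => ?_) hφ v)
    (lin_le sB ε0 (fun x hx => k (κ v) x hx v vO (near v vB)) hφ vB)
    (sq_le sB ε0 (m := 4 * exp ((q.P : ℝ) ^ 6) ^ 2 + 4 * exp ((q.P : ℝ) ^ 6) ^ 2) (by positivity)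
      (fun x hx => k (κ v) x hx v vO (near v vB))
      (fun x hx => (abs_add_le _ _).trans (add_le_add (Kt_le h τ (g.dec _) (sO x hx) vO)
        (Kt_le h τ (g.decp p _) (sO x hx) vO))) hφ vB)).trans (add_le_add_right ?_ _)
  · rw [sub_sub_sub_comm]
    exact (abs_sub _ _).trans (add_le_add (k _ x hx y (sO y hy) (near y (sB hy)))
      (k _ x hx y (sO y hy) (near y (sB hy))))
  have V1 : (1 : ℝ) ≤ (bl v (q.D E.η 2)).card := by exact_mod_cast card_pos.2 ⟨v, vB⟩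
  have hV : ((bl v (q.D E.η 2)).card : ℝ) ≤ exp ((q.P : ℝ) ^ 2) := by
    rw [card_ball]; exact h.scl.vol
  refine le_trans (le_of_eq ?_) (mul_le_mul_of_nonneg_right (num h V1 hV rfl rfl)
    (sum_nonneg fun x _ => sq_nonneg (F x - F v)))
  ring

end Pool.Agent.P.MP_d0f69c_mp.XS.Pre
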