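import Pool.Agent.P.MP_d0f69c_mp.XS.PIfG

/-!
Gluing in the preparation stage: entries and fourth powers at the end of the closing phase.
-/

set_option autoImplicit false

open Finset Real

namespace Pool.Agent.P.MP_d0f69c_mp.XS.Pre

namespace PG7x

theorem four {a δ : ℝ} (ha : 0 ≤ a) (hδ : 0 ≤ δ) (a1 : a ≤ 1) (d1 : δ ≤ 1) :
    (a + δ) ^ 4 ≤ a ^ 4 + 15 * δ := by
  have e : (a + δ) ^ 4 = a ^ 4 + δ * (4 * a ^ 3 + 6 * (a ^ 2 * δ) + 4 * (a * δ ^ 2) + δ ^ 3) := by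
    ring
  have h1 : a ^ 3 ≤ 1 := pow_le_one₀ ha a1
  have h2 : a ^ 2 * δ ≤ 1 := mul_le_one₀ (pow_le_one₀ ha a1) hδ d1
  have h3 : a * δ ^ 2 ≤ 1 := mul_le_one₀ a1 (sq_nonneg _) (pow_le_one₀ hδ d1)
  have h4 : δ ^ 3 ≤ 1 := pow_le_one₀ hδ d1
  rw [e, mul_comm 15 δ]
  exact add_le_add le_rfl (mul_le_mul_of_nonneg_left (by linarith) hδ)

variable {d M : ℕ} [NeZero M] {E : PEnv d M} {q : PPar d M} {S : St (Tor d M)}
  {J : Finset (Tor d M)} {ω : Tor d M → Bool} {κ : Tor d M → ℕ}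

theorem c_le (h : PGH E q S J ω κ) {c : ℝ} (hc : c ≤ 10 ^ 9) : c ≤ exp ((q.P : ℝ) ^ 6) := by
  have := h.scl.pow_lt (a := 0) (b := 6) (by norm_num) hc
  linarith [add_one_le_exp ((q.P : ℝ) ^ 6)]

theorem num (h : PGH E q S J ω κ) {a b : ℝ} (hb : 0 ≤ b) (h1 : a ≤ exp ((q.P : ℝ) ^ 6))
    (h2 : b ≤ exp ((q.P : ℝ) ^ 6)) :
    a * b * exp (-(q.P : ℝ) ^ 7 / 2) ≤ exp (-(q.P : ℝ) ^ 6) := by
  refine le_trans (mul_le_mul_of_nonneg_right (mul_le_mul h1 h2 hb (exp_pos _).le)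
    (exp_pos _).le) ?_
  rw [← exp_add, ← exp_add, exp_le_exp]
  linarith [h.scl.pow_lt (show 6 < 7 by norm_num) (c := 6) (by norm_num)]

theorem num1 (h : PGH E q S J ω κ) {a : ℝ} (h1 : a ≤ 10 ^ 9) :
    a * exp (-(q.P : ℝ) ^ 7 / 2) ≤ exp (-(q.P : ℝ) ^ 6) := by
  simpa using num h zero_le_one (c_le h h1) (c_le h (c := 1) (by norm_num))

theorem half (h : PGH E q S J ω κ) : exp (-(q.P : ℝ) ^ 7) ≤ exp (-(q.P : ℝ) ^ 7 / 2) :=
  exp_le_exp.2 (by linarith [pow_pos h.scl.P0 7])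

theorem six (h : PGH E q S J ω κ) : exp (-(q.P : ℝ) ^ 6) ≤ 1 :=
  exp_le_one_iff.2 (by linarith [pow_pos h.scl.P0 6])

theorem ala (c : PGC E q S J ω κ) (x y : Tor d M) :
    ‖Ax E S ω (Zg S J) x y - Ax E S ω (Zq E q S J x) x y‖ ≤ exp (-(q.P : ℝ) ^ 7) := by
  simpa only [pre_end] using c.cla x (univ.sup κ + 1) x y (by rw [nm_self]; exact Nat.zero_le _)

theorem close (h : PGH E q S J ω κ) (c : PGC E q S J ω κ) {x y : Tor d M} (hx : x ∈ S.O)
    (hy : y ∈ S.O) : ‖E.Γ S (Zg S J) ω x y‖ ≤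
      ‖E.Γ S (Zq E q S J x) ω x y‖ + 2 * exp (-(q.P : ℝ) ^ 7 / 2) := by
  have a : ‖E.G S (Zg S J) ω x y - E.G S (Zq E q S J x) ω x y‖ ≤ exp (-(q.P : ℝ) ^ 7 / 2) := by
    simpa only [pre_end] using
      c.cls x (univ.sup κ + 1) x hx y hy (by rw [nm_self]; exact Nat.zero_le _)
  have b := (ala c x y).trans (half h)
  have e : E.Γ S (Zg S J) ω x y = E.Γ S (Zq E q S J x) ω x y +
      ((E.G S (Zg S J) ω x y - E.G S (Zq E q S J x) ω x y) -
        (Ax E S ω (Zg S J) x y - Ax E S ω (Zq E q S J x) x y)) := by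
    rw [Γ_eq, Γ_eq]; ring
  rw [e]
  exact (norm_add_le _ _).trans (add_le_add le_rfl ((norm_sub_le _ _).trans (by linarith)))

theorem far (h : PGH E q S J ω κ) (g : PGD E q S J ω κ) {x y : Tor d M} (hx : x ∈ S.O)
    (hy : y ∉ bl x (q.D E.η 2)) :
    ‖E.Γ S (Zg S J) ω x y‖ ≤ 2 * Scl.fw q.P (q.li E.η 2) (q.D E.η 2) (x - y) := by
  have a : ‖E.G S (Zg S J) ω x y‖ ≤ q.Bi 2 * exp (-(nm (x - y) : ℝ) / q.li E.η 2) := by
    simpa only [pre_end] using g.dec (univ.sup κ + 1) x hx y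
  have b := (h.smk.wal (S.O \ Zg S J) (mix (Zg S J) ω (om S))).entry h.smk.pm x y
  have l0 : (1 : ℝ) ≤ q.l := by exact_mod_cast h.hq.l_one h.hE
  have l1 : (q.l : ℝ) ≤ q.li E.η 2 := by exact_mod_cast h.hq.l_le_li h.hE 2
  have n0 : (0 : ℝ) ≤ nm (x - y) := Nat.cast_nonneg _
  have a1 : -(nm (x - y) : ℝ) / q.li E.η 2 ≤ -(nm (x - y) : ℝ) / (2 * q.li E.η 2) := by
    rw [neg_div, neg_div, neg_le_neg_iff]
    exact div_le_div_of_nonneg_left n0 (by linarith) (by linarith)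
  have b1 : -((2 * nm (x - y) : ℝ) / q.l) ≤ -(nm (x - y) : ℝ) / (2 * q.li E.η 2) := by
    rw [neg_div, neg_le_neg_iff]
    exact div_le_div₀ (by linarith) (by linarith) (by linarith) (by linarith)
  rw [mem_bl, nm_comm, not_le] at hy
  rw [Scl.fw, if_pos hy, ew, Γ_eq, two_mul]
  exact (norm_sub_le _ _).trans (add_le_add
    (a.trans (mul_le_mul (h.hq.Bi_le (by norm_num)) (exp_le_exp.2 a1) (exp_pos _).le
      (exp_pos _).le))
    (b.trans (mul_le_mul (c_le h (by norm_num)) (exp_le_exp.2 b1) (exp_pos _).le (exp_pos _).le)))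

theorem fws (h : PGH E q S J ω κ) (x : Tor d M) (T : Finset (Tor d M)) :
    ∑ y ∈ T, Scl.fw q.P (q.li E.η 2) (q.D E.η 2) (x - y) ≤ exp (-(q.P : ℝ) ^ 7 / 2) :=
  (sum_le_sum_of_subset_of_nonneg (subset_univ _) fun _ _ _ => Scl.fw0 _).trans
    (((Equiv.subLeft x).sum_comp _).trans_le (h.scl.fw_sum'.trans (half h)))

theorem far1 (h : PGH E q S J ω κ) (g : PGD E q S J ω κ) {x y : Tor d M} (hx : x ∈ S.O)
    (hy : y ∉ bl x (q.D E.η 2)) : ‖E.Γ S (Zg S J) ω x y‖ ≤ exp (-(q.P : ℝ) ^ 6) := by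
  have a := fws h x {y}
  rw [sum_singleton] at a
  linarith [far h g hx hy, num1 h (a := 2) (by norm_num)]

theorem sum4 (h : PGH E q S J ω κ) (g : PGD E q S J ω κ) (c : PGC E q S J ω κ) {x : Tor d M}
    (hx : x ∈ S.O) {T : Finset (Tor d M)} (hT : T ⊆ S.O) {b : ℝ} (b1 : b ≤ 1)
    (hb : ∑ y ∈ T ∩ bl x (q.D E.η 2), ‖E.Γ S (Zq E q S J x) ω x y‖ ^ 4 ≤ b) :
    ∑ y ∈ T, ‖E.Γ S (Zg S J) ω x y‖ ^ 4 ≤ b + q.n4 / 2000 := by
  have e0 := exp_pos (-(q.P : ℝ) ^ 7 / 2)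
  have d1 : 2 * exp (-(q.P : ℝ) ^ 7 / 2) ≤ 1 := (num1 h (by norm_num)).trans (six h)
  have near : ∑ y ∈ T ∩ bl x (q.D E.η 2), ‖E.Γ S (Zg S J) ω x y‖ ^ 4 ≤
      b + exp ((q.P : ℝ) ^ 2) * (15 * (2 * exp (-(q.P : ℝ) ^ 7 / 2))) := by
    refine (sum_le_sum (g := fun y => ‖E.Γ S (Zq E q S J x) ω x y‖ ^ 4 +
      15 * (2 * exp (-(q.P : ℝ) ^ 7 / 2))) fun y hy => ?_).trans ?_
    · have a : ‖E.Γ S (Zq E q S J x) ω x y‖ ^ 4 ≤ 1 :=
        (single_le_sum (f := fun y => ‖E.Γ S (Zq E q S J x) ω x y‖ ^ 4)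
          (fun _ _ => by positivity) hy).trans (hb.trans b1)
      exact (pow_le_pow_left₀ (norm_nonneg _) (close h c hx (hT (mem_inter.1 hy).1)) 4).trans
        (four (norm_nonneg _) (by positivity)
          ((pow_le_one_iff_of_nonneg (norm_nonneg _) (by norm_num)).1 a) d1)
    · rw [sum_add_distrib, sum_const, nsmul_eq_mul]
      refine add_le_add hb (mul_le_mul_of_nonneg_right (le_trans ?_ h.scl.vol) (by positivity))
      exact Nat.cast_le.2 ((card_le_card inter_subset_right).trans (card_ball x _).le)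
  have fa : ∑ y ∈ T \ bl x (q.D E.η 2), ‖E.Γ S (Zg S J) ω x y‖ ^ 4 ≤
      2 * exp (-(q.P : ℝ) ^ 7 / 2) := by
    refine (sum_le_sum fun y hy => (pow_le_of_le_one (norm_nonneg _)
      ((far1 h g hx (mem_sdiff.1 hy).2).trans (six h)) (by norm_num)).trans
        (far h g hx (mem_sdiff.1 hy).2)).trans ?_
    rw [← mul_sum]
    exact mul_le_mul_of_nonneg_left (fws h x _) (by norm_num)
  have n1 := num h (a := 120000) (exp_pos ((q.P : ℝ) ^ 2)).le (c_le h (by norm_num))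
    (exp_le_exp.2 (h.scl.pow_le (by norm_num)))
  have n2 := num1 h (a := 8000) (by norm_num)
  rw [← sum_inter_add_sum_sdiff T (bl x (q.D E.η 2))]
  linarith [h.n0]

theorem m0 (h : PGH E q S J ω κ) : 0 ≤ q.m1 := (exp_pos _).le.trans h.m0

theorem H12 (h : PGH E q S J ω κ) (z : Tor d M) : 0 ≤ q.H1 z ∧ q.H1 z ≤ q.H2 z := by
  have a : 0 ≤ q.H1 z := add_nonneg (h.H0 z) (by
    rw [PPar.δN]
    split_ifs
    exacts [mul_nonneg (by positivity) (m0 h), le_rfl])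
  have b : 0 ≤ 1000 * q.kap * q.ρ ^ 3 * q.H1 z :=
    mul_nonneg (mul_nonneg (mul_nonneg (by norm_num) h.k0) (pow_nonneg h.ρ0 3)) a
  have c := (exp_pos _).le.trans h.h0
  rw [PPar.H2]
  exact ⟨a, by linarith⟩

theorem mem_Rw (h : PGH E q S J ω κ) {x y : Tor d M} (hy : y ∈ S.O \ Zg S J)
    (hb : y ∈ bl x (q.D E.η 2)) : y ∈ Rw E q S x \ Zq E q S J x := by
  have l2 : q.D E.η 2 ≤ q.A E.η d := Par.OK.D_le_A h.hE
  rw [mem_bl] at hb
  exact mem_sdiff.2 ⟨mem_inter.2 ⟨(mem_sdiff.1 hy).1, mem_bl.2 (by omega)⟩,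
    fun a => (mem_sdiff.1 hy).2 (mem_inter.1 a).1⟩

theorem sig_O (h : PGH E q S J ω κ) : S.sig \ J ⊆ S.O := fun _ hx =>
  mem_union_left _ (mem_union_left _ (h.sel.sg (mem_sdiff.1 hx).1))

end PG7x

open PG7x in
theorem t_pg7 : S_PG7 := by
  intro d M _ E q S J ω κ h g c
  have d2 := num1 h (a := 2) (by norm_num)
  refine ⟨fun x hx => ?_, fun x hx y hy => ?_, fun x hx => ?_⟩
  · have f := h.flow' (p := x) (mem_sdiff.1 hx).2 (by rw [nm_self]; exact Nat.zero_le _)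
    have a := f.mis (univ.sup κ + 1) x (by
      rw [pre_end]
      exact mem_sdiff.2 ⟨mem_union_right _ (mem_inter.2 ⟨hx, self_bl _ _⟩), fun a =>
        (mem_sdiff.1 (mem_sdiff.1 (mem_inter.1 a).1).1).2 (mem_sdiff.1 hx).1⟩)
    rw [pre_end] at a
    linarith [close h c (sig_O h hx) (sig_O h hx), h.m0, m0 h]
  · have hx1 := (mem_sdiff.1 hx).1
    have hy1 := (mem_sdiff.1 hy).1
    by_cases hb : y ∈ bl x (q.D E.η 2)
    · have a : ‖E.Γ S (Zq E q S J x) ω x y‖ ≤ q.H2 (x - y) := by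
        rcases h.flow x with f | f
        · rw [Zq_empty f, Γ_empty]
          exact (h.inv.amp x hx1 y hy1).trans (H12 h _).2
        · have a := f.amp (univ.sup κ + 1) x (by rw [pre_end]; exact mem_Rw h hx (self_bl _ _)) y
            (by rw [pre_end]; exact mem_Rw h hy hb)
          rwa [pre_end] at a
      linarith [close h c hx1 hy1, h.h0]
    · linarith [far1 h g hx1 hb, h.h0, (H12 h (x - y)).1, (H12 h (x - y)).2]
  · have P0 := h.scl.P0
    have p5 : 1 / (q.P : ℝ) ^ 5 ≤ q.da := le_add_of_nonneg_left (mul_nonneg (by norm_num) h.k0)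
    have a : |E.a S (Zq E q S J x) ω x - E.a0 S x| ≤ q.da := by
      rcases h.flow x with f | f
      · rw [Zq_empty f, a_empty, sub_self, abs_zero]
        exact le_trans (by positivity) p5
      · exact f.aa x (mem_Rw h hx (self_bl _ _))
    have η0 : 0 < E.η := h.hE.η0
    have b : |E.a S (Zg S J) ω x - E.a S (Zq E q S J x) ω x| ≤ 1 / (q.P : ℝ) ^ 5 := by
      rw [a_eq, a_eq, ← sub_div, ← Complex.sub_im, abs_div, abs_of_pos η0, div_eq_mul_one_div,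
        le_div_iff₀ (by positivity)]
      have a1 := ((Complex.abs_im_le_norm _).trans (ala c x x)).trans (half h)
      have a2 : 1 / E.η ≤ exp ((q.P : ℝ) ^ 6) :=
        (h.hq.inv_η h.hE).trans (exp_le_exp.2 (by simpa using h.scl.pow_le (a := 1) (by norm_num)))
      have a3 : (q.P : ℝ) ^ 5 ≤ exp ((q.P : ℝ) ^ 6) := by
        linarith [add_one_le_exp ((q.P : ℝ) ^ 6), h.scl.pow_le (show 5 ≤ 6 by norm_num)]
      refine le_trans ?_ ((num h (by positivity) a2 a3).trans (six h))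
      rw [mul_assoc, mul_comm]
      exact mul_le_mul_of_nonneg_left a1 (by positivity)
    linarith [abs_sub_le (E.a S (Zg S J) ω x) (E.a S (Zq E q S J x) ω x) (E.a0 S x)]

open PG7x in
theorem t_pg8 : S_PG8 := by
  intro d M _ E q S J ω κ h g c x hx
  have hx1 := (mem_sdiff.1 hx).1
  have n0 : 0 ≤ q.n4 := (exp_pos _).le.trans h.n0
  have n1 := h.n1
  have n2 := h.n2
  have l2 : q.D E.η 2 ≤ q.A E.η d := Par.OK.D_le_A h.hE
  have hb : bl x (q.D E.η 2) ⊆ bl x (5 * q.A E.η d) := fun y hy => by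
    rw [mem_bl] at hy ⊢
    omega
  constructor
  · refine (sum4 h g c hx1 (sig_O h) (b := q.n4 / 16) (by linarith) ?_).trans (by linarith)
    rcases h.flow x with f | f
    · rw [sum_eq_zero fun y hy => ((mem_sdiff.1 (mem_inter.1 hy).1).2
        (f (hb (mem_inter.1 hy).2))).elim]
      positivity
    · exact (sum_le_sum_of_subset_of_nonneg (inter_subset_inter_left hb)
        fun _ _ _ => by positivity).trans (f.l4 x (mem_Rw h hx (self_bl _ _)))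
  · have s1 : √(q.nO * q.n4) ≤ 1 := sqrt_le_one.2 (by nlinarith)
    have s0 := sqrt_nonneg (q.nO * q.n4)
    refine (sum4 h g c hx1 sdiff_subset (b := q.nO + √(q.nO * q.n4) / 50 + q.n4 / 500)
      (by linarith) ?_).trans (by linarith)
    rcases h.flow x with f | f
    · rw [Zq_empty f, Γ_empty]
      have a : ∑ y ∈ S.O, ‖E.Γ0 S x y‖ ^ 4 ≤ q.nO := h.inv.lJ x hx1
      refine (sum_le_sum_of_subset_of_nonneg (inter_subset_left.trans sdiff_subset)
        fun _ _ _ => by positivity).trans (a.trans (by linarith))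
    · exact (sum_le_sum_of_subset_of_nonneg (fun y hy => mem_Rw h (mem_inter.1 hy).1
        (mem_inter.1 hy).2) fun _ _ _ => by positivity).trans (f.lJ x (mem_Rw h hx (self_bl _ _)))

end Pool.Agent.P.MP_d0f69c_mp.XS.Pre
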