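import Pool.Agent.P.MP_d0f69c_mp.XS.PIfA

/-!
Monitors of forms along histories.
-/

set_option autoImplicit false
set_option linter.dupNamespace false

open Finset Real
open scoped Matrix

namespace Pool.Agent.P.MP_d0f69c_mp.XS.Pre

namespace PGFA

variable {ι : Type}

theorem sb_zero : SB (0 : (ι → ℝ) → (ι → ℝ) → ℝ) :=
  ⟨fun _ _ => rfl, fun _ _ _ _ => by simp⟩

theorem sb_add {X Y : (ι → ℝ) → (ι → ℝ) → ℝ} (hX : SB X) (hY : SB Y) : SB (X + Y) :=
  ⟨fun u w => by simp only [Pi.add_apply, hX.1 u w, hY.1 u w], fun c u v w => by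
    simp only [Pi.add_apply, hX.2 c u v w, hY.2 c u v w]; ring⟩

theorem sb_smul {X : (ι → ℝ) → (ι → ℝ) → ℝ} (l : ℝ) (hX : SB X) : SB (l • X) :=
  ⟨fun u w => by simp only [Pi.smul_apply, hX.1 u w], fun c u v w => by
    simp only [Pi.smul_apply, hX.2 c u v w, smul_eq_mul]; ring⟩

theorem sb_at_zero {X : (ι → ℝ) → (ι → ℝ) → ℝ} (hX : SB X) : X 0 0 = 0 := by
  have h := hX.2 1 0 0 0
  rw [smul_zero, add_zero] at h
  linarith

end PGFA

open PGFA in
theorem t_gf (h : S_POT) : S_GF := by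
  classical
  intro ι _ _ Z Z' B F N y r δ Q L n1 n2 hr hL hQ hδ hq hY
  obtain ⟨Φ, p0, p1, p2, p3⟩ := h ι N B n1 n2
  choose! Y hY1 hY2 using hY
  let inc : List (ι × Bool) → ι → Bool → (ι → ℝ) → (ι → ℝ) → ℝ := fun h v b =>
    if (hs h ⊆ Z ∧ F h) ∧ v ∈ (Z \ hs h) ∩ Z' then Y h v b else 0
  have sbi : ∀ h v b, SB (inc h v b) := fun h v b => by
    dsimp only [inc]
    split_ifs with a
    exacts [(hY1 h a.1.1 a.1.2 v a.2 b).1, sb_zero]
  have cons : ∀ v b h, Sh inc ((v, b) :: h) = Sh inc h + inc h v b := fun _ _ _ => rfl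
  have sb : ∀ h, SB (Sh inc h) := fun h => by
    induction h with
    | nil => exact sb_zero
    | cons z h ih => exact sb_add ih (sbi _ _ _)
  have cmp : ∀ h φ, hs h ⊆ Z → Bef F h →
      Sh (fun h v b => if v ∈ Z' then y h v b φ else 0) h ≤ Sh inc h φ φ := fun h φ => by
    induction h with
    | nil => exact fun _ _ => le_rfl
    | cons z h ih =>
      intro a b
      have a1 : hs h ⊆ Z := (hs_mono (List.suffix_cons z h)).trans a
      have a2 : z.1 ∈ Z := a (by rw [hs_cons]; exact mem_insert_self _ _)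
      refine add_le_add (ih a1 b.tail) ?_
      dsimp only [inc]
      by_cases c : z.1 ∈ Z'
      · have e : z.1 ∈ (Z \ hs h) ∩ Z' := mem_inter.2 ⟨mem_sdiff.2 ⟨a2, b.head.1⟩, c⟩
        rw [if_pos c, if_pos ⟨⟨a1, b.head.2⟩, e⟩]
        exact (hY1 h a1 b.head.2 _ e _).2 φ
      · rw [if_neg c, if_neg fun e => c (mem_inter.1 e.2).2]
        exact le_rfl
  have l0 : 0 ≤ L / r := div_nonneg hL hr.le
  have e0 := exp_pos (-L)
  refine ⟨fun h => exp (-L) * Φ ((L / r) • Sh inc h),
    fun h => mul_nonneg e0.le (p1 _ (sb_smul _ (sb h))), le_of_eq ?_, fun h hZ hF => ?_,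
    fun h hZ hlt hb φ hφ => (cmp h φ hZ hb).trans ?_⟩
  · have z0 : Sh inc [] = 0 := rfl
    simp only [z0, smul_zero, p0]
    ring
  · have key := p3 (ι × Bool) (((Z \ hs h) ∩ Z') ×ˢ univ) ((L / r) • Sh inc h)
      (fun z => (L / r) • Y h z.1 z.2) (L / r * δ) ((L / r) ^ 2 * Q) (sb_smul _ (sb h))
      (fun z hz => sb_smul _ (hY1 h hZ hF _ (mem_product.1 hz).1 _).1) (by positivity) hq
      (fun φ => ?_) fun φ => ?_
    · have h2 := p1 _ (sb_smul (L / r) (sb h))
      have h3 : ∑ v ∈ Z \ hs h, ((Φ ((L / r) • Sh inc ((v, true) :: h)) +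
          Φ ((L / r) • Sh inc ((v, false) :: h))) / 2 - Φ ((L / r) • Sh inc h)) ≤
          Φ ((L / r) • Sh inc h) := by
        have h4 := mul_le_mul_of_nonneg_right (add_le_add hδ hq) h2
        have h5 := sum_coins ((Z \ hs h) ∩ Z')
          (fun z => Φ ((L / r) • Sh inc h + (L / r) • Y h z.1 z.2)) (Φ ((L / r) • Sh inc h))
        refine le_trans (le_of_eq ?_) (h5.trans_le (by linarith))
        rw [← sum_subset (inter_subset_left (s₁ := Z \ hs h) (s₂ := Z')) fun v _ hn => ?_]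
        · refine sum_congr rfl fun v hv => ?_
          have e : ∀ b, inc h v b = Y h v b := fun b => if_pos ⟨⟨hZ, hF⟩, hv⟩
          rw [cons, cons, e, e, smul_add, smul_add]
        · have e : ∀ b, inc h v b = 0 := fun b => if_neg fun a => hn a.2
          rw [cons, cons, e, e, add_zero]
          ring
      refine le_trans (le_of_eq ?_) (mul_le_mul_of_nonneg_left h3 e0.le)
      rw [mul_sum]
      exact sum_congr rfl fun _ _ => by ring
    · simp only [Pi.smul_apply, smul_eq_mul]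
      rw [← mul_sum, mul_assoc]
      exact mul_le_mul_of_nonneg_left (hY2 h hZ hF φ).1 l0
    · obtain ⟨w, w0, w1, w2⟩ := (hY2 h hZ hF φ).2
      refine ⟨fun z => (L / r) ^ 2 * w z, fun z => mul_nonneg (sq_nonneg _) (w0 z), ?_,
        fun z hz ψ => ?_⟩
      · rw [← mul_sum, mul_assoc]
        exact mul_le_mul_of_nonneg_left w1 (sq_nonneg _)
      · simp only [Pi.smul_apply, smul_eq_mul]
        rw [mul_pow, mul_assoc]
        exact mul_le_mul_of_nonneg_left (w2 z hz ψ) (sq_nonneg _)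
  · rcases hL.eq_or_lt with rfl | hL'
    · simp only [neg_zero, exp_zero, zero_div, zero_smul, one_mul, p0, Nat.cast_lt_one,
        card_eq_zero] at hlt
      have : φ = 0 := funext fun x => hφ x (by simp [hlt])
      rw [this, sb_at_zero (sb h), sb_at_zero n1, mul_zero]
    · have a3 : Φ ((L / r) • Sh inc h) < exp L := by
        have a4 : exp (-L) * exp L = 1 := by rw [← exp_add]; simp
        exact lt_of_mul_lt_mul_left (hlt.trans_eq a4.symm) e0.le
      have b1 := p2 _ _ (sb_smul _ (sb h)) a3 φ hφ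
      simp only [Pi.smul_apply, smul_eq_mul] at b1
      have e : L * N φ φ = L / r * (r * N φ φ) := by field_simp
      rw [e] at b1
      exact le_of_mul_le_mul_left b1 (div_pos hL' hr)

end Pool.Agent.P.MP_d0f69c_mp.XS.Pre
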