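import Pool.Agent.P.MP_d0f69c_mp.XS.PIfA

/-!
The generic monitor of kernels.
-/

set_option autoImplicit false

open Finset Real
open scoped Matrix

namespace Pool.Agent.P.MP_d0f69c_mp.XS.Pre

namespace PGOA

variable {ι : Type}

theorem opLe_smul {I : Finset ι} {X : ι → ι → ℂ} {l r : ℝ} (hl : 0 < l)
    (h : OpLe I ((l : ℂ) • X) (l * r)) : OpLe I X r := fun u => by
  have e : ap I ((l : ℂ) • X) u = (l : ℂ) • ap I X u := funext fun x => by
    simp only [ap, Pi.smul_apply, smul_eq_mul, mul_sum, mul_assoc]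
  have h1 := h u
  rw [e, nS_smul, Complex.norm_real, Real.norm_of_nonneg hl.le, mul_assoc] at h1
  exact le_of_mul_le_mul_left h1 hl

theorem sqrt_add {a b c d : ℝ} (ha : 0 ≤ a) (hb : 0 ≤ b) (hc : 0 ≤ c) (hd : 0 ≤ d) :
    √a * √b + √c * √d ≤ √(a + c) * √(b + d) := by
  rw [← sqrt_mul (add_nonneg ha hc)]
  refine le_sqrt_of_sq_le ?_
  nlinarith [sq_nonneg (√a * √d - √c * √b), sq_sqrt ha, sq_sqrt hb, sq_sqrt hc, sq_sqrt hd,
    mul_pow (√a) (√d) 2, mul_pow (√c) (√b) 2, mul_pow (√a) (√b) 2, mul_pow (√c) (√d) 2]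

/-- a bound of the bilinear form gives a bound of the operator norm -/
theorem opLe_bil {B : Finset ι} {R : ι → ι → ℂ} {c : ℝ} (hc : 0 ≤ c)
    (h : ∀ u u' : ι → ℂ, ‖∑ x ∈ B, ∑ z ∈ B, u x * R x z * u' z‖ ≤ c * (nS B u * nS B u')) :
    OpLe B R c := fun u => by
  have a := h (fun x => (starRingEnd ℂ) (ap B R u x)) u
  have e : ∑ x ∈ B, ∑ z ∈ B, (starRingEnd ℂ) (ap B R u x) * R x z * u z =
      ((nS B (ap B R u) ^ 2 : ℝ) : ℂ) := by
    rw [nS_sq]
    push_cast
    refine sum_congr rfl fun x _ => ?_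
    simp only [mul_assoc, ← mul_sum]
    exact (Complex.conj_mul' _)
  have e2 : nS B (fun x => (starRingEnd ℂ) (ap B R u x)) = nS B (ap B R u) := by
    simp only [nS, Complex.norm_conj]
  rw [e, e2, Complex.norm_real, Real.norm_of_nonneg (sq_nonneg _)] at a
  rcases (nS_nonneg B (ap B R u)).eq_or_lt with z | z
  · rw [← z]; exact mul_nonneg hc (nS_nonneg _ _)
  · exact le_of_mul_le_mul_left (by nlinarith) z

theorem Sh_sym {f : List (ι × Bool) → ι → Bool → ι → ι → ℂ}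
    (hf : ∀ h v b x y, f h v b x y = f h v b y x) (h : List (ι × Bool)) (x y : ι) :
    Sh f h x y = Sh f h y x := by
  induction h with
  | nil => rfl
  | cons z h ih => simp only [Sh, Pi.add_apply, ih, hf _ _ _ x y]

theorem Sh_nonneg {f : List (ι × Bool) → ι → Bool → ℝ} (hf : ∀ h v b, 0 ≤ f h v b)
    (h : List (ι × Bool)) : 0 ≤ Sh f h := by
  induction h with
  | nil => exact le_rfl
  | cons z h ih => exact add_nonneg ih (hf _ _ _)

/-- the remainders add up -/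
theorem rem [DecidableEq ι] {Z B : Finset ι} {F : List (ι × Bool) → Prop}
    {y f : List (ι × Bool) → ι → Bool → ι → ι → ℂ} {e : ι → List (ι × Bool) → ι → Bool → ℝ}
    (e0 : ∀ x h v b, 0 ≤ e x h v b)
    (hr : ∀ h, hs h ⊆ Z → F h → ∀ v ∈ Z \ hs h, ∀ b, ∀ u u' : ι → ℂ,
      ‖∑ x ∈ B, ∑ z ∈ B, u x * (y h v b x z - f h v b x z) * u' z‖ ≤
        √(∑ x ∈ B, e x h v b * ‖u x‖ ^ 2) * √(∑ x ∈ B, e x h v b * ‖u' x‖ ^ 2))
    (u u' : ι → ℂ) (h : List (ι × Bool)) (hZ : hs h ⊆ Z) (hb : Bef F h) :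
    ‖∑ x ∈ B, ∑ z ∈ B, u x * (Sh y h x z - Sh f h x z) * u' z‖ ≤
      √(∑ x ∈ B, Sh (e x) h * ‖u x‖ ^ 2) * √(∑ x ∈ B, Sh (e x) h * ‖u' x‖ ^ 2) := by
  induction h with
  | nil => simp [Sh]
  | cons w h ih =>
    have hZ' : hs h ⊆ Z := (hs_mono (List.suffix_cons w h)).trans hZ
    have a1 := ih hZ' hb.tail
    have a2 := hr h hZ' hb.head.2 w.1 (mem_sdiff.2
      ⟨hZ (by rw [hs_cons]; exact mem_insert_self _ _), hb.head.1⟩) w.2 u u'
    have e1 : ∑ x ∈ B, ∑ z ∈ B, u x * (Sh y (w :: h) x z - Sh f (w :: h) x z) * u' z =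
        ∑ x ∈ B, ∑ z ∈ B, u x * (Sh y h x z - Sh f h x z) * u' z +
          ∑ x ∈ B, ∑ z ∈ B, u x * (y h w.1 w.2 x z - f h w.1 w.2 x z) * u' z := by
      simp only [Sh, Pi.add_apply, ← sum_add_distrib]
      exact sum_congr rfl fun x _ => sum_congr rfl fun z _ => by ring
    have p1 : ∀ p : ι → ℂ, 0 ≤ ∑ x ∈ B, Sh (e x) h * ‖p x‖ ^ 2 := fun p =>
      sum_nonneg fun x _ => mul_nonneg (Sh_nonneg (e0 x) h) (sq_nonneg _)
    have p2 : ∀ p : ι → ℂ, 0 ≤ ∑ x ∈ B, e x h w.1 w.2 * ‖p x‖ ^ 2 := fun p =>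
      sum_nonneg fun x _ => mul_nonneg (e0 _ _ _ _) (sq_nonneg _)
    rw [e1]
    refine ((norm_add_le _ _).trans (add_le_add a1 a2)).trans
      ((sqrt_add (p1 u) (p1 u') (p2 u) (p2 u')).trans_eq ?_)
    simp only [Sh, add_mul, sum_add_distrib]

end PGOA

open PGOA in
theorem t_go (h2 : S_POTC) : S_GO := by
  classical
  intro ι _ _ Z Z' B F y e r δ Q L r0 L0 δ0 Q0 hδ hQ e0 hY
  rcases L0.eq_or_lt with L1 | L1
  · refine ⟨fun _ => 4 * B.card, fun _ => by positivity, by simp [← L1], fun h _ _ => by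
      simp, fun h _ b _ c c0 _ u => ?_⟩
    have : B = ∅ := by
      by_contra k
      have : (1 : ℝ) ≤ B.card := by exact_mod_cast card_pos.2 (nonempty_iff_ne_empty.2 k)
      linarith
    simp [this, nS]
  obtain ⟨Φ, p0, p1, p2, p3⟩ := h2 ι B
  choose! Yc hc using hY
  set f : List (ι × Bool) → ι → Bool → ι → ι → ℂ := fun h v b =>
    if (hs h ⊆ Z ∧ F h) ∧ v ∈ (Z \ hs h) ∩ Z' then Yc h v b else 0 with hf
  have fs : ∀ h v b x z, f h v b x z = f h v b z x := fun h v b x z => by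
    simp only [hf]
    split_ifs with k
    exacts [((hc h k.1.1 k.1.2).1 v k.2 b).1 x z, rfl]
  obtain ⟨l, hl⟩ : ∃ l : ℝ, l = L / r := ⟨_, rfl⟩
  have l0 : 0 < l := by rw [hl]; positivity
  rw [← hl] at hδ hQ
  have sy : ∀ h x z, ((l : ℂ) • Sh f h) x z = ((l : ℂ) • Sh f h) z x := fun h x z => by
    simp only [Pi.smul_apply, Sh_sym fs h x z]
  have x0 := exp_pos (-L)
  refine ⟨fun h => exp (-L) * Φ ((l : ℂ) • Sh f h),
    fun h => mul_nonneg x0.le (p1 _ (sy h)), ?_, fun h a b => ?_, fun h a b hb c c0 hE => ?_⟩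
  · simp only [Sh, smul_zero, p0]
    exact le_of_eq (mul_comm _ _)
  · have m6 := (hc h a b).2
    have eq : ∀ z ∈ ((Z \ hs h) ∩ Z') ×ˢ (univ : Finset Bool), ∀ x w,
        ((l : ℂ) • f h z.1 z.2) x w = l * Yc h z.1 z.2 x w := fun z hz x w => by
      simp only [hf, if_pos (And.intro (And.intro a b) (mem_product.1 hz).1), Pi.smul_apply,
        smul_eq_mul]
    have key := p3 _ (((Z \ hs h) ∩ Z') ×ˢ (univ : Finset Bool)) ((l : ℂ) • Sh f h)
      (fun z => (l : ℂ) • f h z.1 z.2) (l * δ) (l ^ 2 * Q) (sy h)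
      (fun z _ x w => by simp only [Pi.smul_apply, fs _ _ _ x w]) (by positivity)
      (by positivity) hQ (fun u => by
        have e : ∑ z ∈ ((Z \ hs h) ∩ Z') ×ˢ (univ : Finset Bool), ∑ x ∈ B, ∑ w ∈ B,
            u x * ((l : ℂ) • f h z.1 z.2) x w * u w =
            l * ∑ z ∈ ((Z \ hs h) ∩ Z') ×ˢ (univ : Finset Bool), ∑ x ∈ B, ∑ w ∈ B,
              u x * Yc h z.1 z.2 x w * u w := by
          simp only [mul_sum]
          exact sum_congr rfl fun z hz => sum_congr rfl fun x _ => sum_congr rfl fun w _ => by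
            rw [eq z hz]; ring
        rw [e, norm_mul, Complex.norm_real, Real.norm_of_nonneg l0.le, mul_assoc]
        exact mul_le_mul_of_nonneg_left (m6 u).1 l0.le) (fun u => by
        have e : ∑ z ∈ ((Z \ hs h) ∩ Z') ×ˢ (univ : Finset Bool), ∑ x ∈ B,
            ‖∑ w ∈ B, ((l : ℂ) • f h z.1 z.2) x w * u w‖ ^ 2 =
            l ^ 2 * ∑ z ∈ ((Z \ hs h) ∩ Z') ×ˢ (univ : Finset Bool), ∑ x ∈ B,
              ‖∑ w ∈ B, Yc h z.1 z.2 x w * u w‖ ^ 2 := by
          simp only [mul_sum]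
          refine sum_congr rfl fun z hz => sum_congr rfl fun x _ => ?_
          simp only [eq z hz, mul_assoc]
          rw [← mul_sum, norm_mul, mul_pow, Complex.norm_real, Real.norm_of_nonneg l0.le]
        rw [e, mul_assoc]
        exact mul_le_mul_of_nonneg_left (m6 u).2 (sq_nonneg l))
    rw [← sum_subset (inter_subset_left (s₂ := Z')) fun v hv hn => by
      simp only [Sh, hf, hn, and_false, if_false, add_zero]
      ring,
      sum_coins _ fun z => exp (-L) * Φ ((l : ℂ) • Sh f (z :: h))]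
    simp only [Sh, smul_add, ← mul_sub, ← mul_sum]
    have n0 := p1 _ (sy h)
    have n2 := key.trans (mul_le_mul_of_nonneg_right (add_le_add hδ hQ) n0)
    have n3 := mul_le_mul_of_nonneg_left n2 x0.le
    linarith
  · have k : Φ ((l : ℂ) • Sh f h) < exp L := by
      have e : exp (-L) * exp L = 1 := by rw [← exp_add]; simp
      exact lt_of_mul_lt_mul_left (b.trans_eq e.symm) x0.le
    have o1 : OpLe B (Sh f h) (2 * r) := by
      refine opLe_smul l0 ?_
      have e : l * (2 * r) = 2 * L := by rw [hl]; field_simp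
      rw [e]
      exact p2 _ _ (sy h) L0 k
    have o2 : OpLe B (fun x z => Sh (fun h v b => if v ∈ Z' then y h v b else 0) h x z -
        Sh f h x z) c := opLe_bil c0 fun u u' => by
      refine (rem (Z := Z) (F := F) (e := fun x h v _ => if v ∈ Z' then e h v x else 0)
        (fun x h v _ => by split_ifs; exacts [e0 _ _ _, le_rfl])
        (fun h a b v hv s u u' => ?_) u u' h a hb).trans ?_
      · by_cases k : v ∈ Z'
        · have hv' := mem_inter.2 ⟨hv, k⟩
          simp only [hf, if_pos k, if_pos (And.intro (And.intro a b) hv')]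
          exact ((hc h a b).1 v hv' s).2 u u'
        · simp [hf, k]
      · have t : ∀ p : ι → ℂ, √(∑ x ∈ B, Sh (fun h v _ => if v ∈ Z' then e h v x else 0) h *
            ‖p x‖ ^ 2) ≤ √c * nS B p := fun p => by
          rw [nS, ← sqrt_mul c0, mul_sum]
          exact sqrt_le_sqrt (sum_le_sum fun x hx =>
            mul_le_mul_of_nonneg_right (hE x hx) (sq_nonneg _))
        refine (mul_le_mul (t u) (t u') (sqrt_nonneg _)
          (mul_nonneg (sqrt_nonneg _) (nS_nonneg _ _))).trans_eq ?_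
        rw [mul_mul_mul_comm, mul_self_sqrt c0]
    exact (o1.add o2).congr fun x _ z _ => by simp

end Pool.Agent.P.MP_d0f69c_mp.XS.Pre
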