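import Pool.Agent.P.MP_d0f69c_mp.XS.PIfA

open Finset Real

namespace Pool.Agent.P.MP_d0f69c_mp.XS.Pre

theorem t_gs : S_GS := by
  intro ι _ Z A F val bud r δ Q L hr hL h1 h2 H
  have l0 : 0 ≤ L / r := div_nonneg hL hr.le
  refine HasMon.off A (fun h => exp (L / r * (val h - ∑ v ∈ hs h, bud v - val [] - r)))
    (fun _ => (exp_pos _).le) (le_of_eq ?_) (fun h a b c => ?_) fun h _ _ c => ?_
  · rw [hs_nil, sum_empty]
    congr 1
    field_simp
    ring
  · obtain ⟨y, y1, y2, y3⟩ := H h a b c
    set Φ := exp (L / r * (val h - ∑ v ∈ hs h, bud v - val [] - r)) with hΦ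
    have p0 : 0 < Φ := exp_pos _
    have k : ∀ v ∈ (Z \ hs h) \ A, ∀ b, y v b ^ 2 ≤ Q →
        exp (L / r * (val ((v, b) :: h) - ∑ w ∈ hs ((v, b) :: h), bud w - val [] - r)) ≤
          Φ * (1 + L / r * y v b + (L / r) ^ 2 * y v b ^ 2) := fun v hv b hq => by
      have a1 : |L / r * y v b| ≤ 1 := by
        rw [← sq_le_one_iff_abs_le_one, mul_pow]
        exact (mul_le_mul_of_nonneg_left hq (sq_nonneg _)).trans h2
      have a2 := (abs_le.1 (abs_exp_sub_one_sub_id_le a1)).2
      rw [hs_cons, sum_insert (mem_sdiff.1 (mem_sdiff.1 hv).1).2]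
      refine le_trans (exp_le_exp.2 ?_) ((exp_add _ (L / r * y v b)).le.trans
        (mul_le_mul_of_nonneg_left (by rw [← mul_pow]; linarith) p0.le))
      rw [← mul_add]
      exact mul_le_mul_of_nonneg_left (by linarith [y1 v hv b]) l0
    refine (sum_le_sum (g := fun v => Φ / 2 * (L / r * (y v true + y v false) +
      (L / r) ^ 2 * (y v true ^ 2 + y v false ^ 2))) fun v hv => ?_).trans ?_
    · have a1 := (single_le_sum (f := fun v => y v true ^ 2 + y v false ^ 2)
        (fun _ _ => by positivity) hv).trans y3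
      have a2 := k v hv true (by linarith [sq_nonneg (y v false)])
      have a3 := k v hv false (by linarith [sq_nonneg (y v true)])
      linarith
    · rw [← mul_sum, sum_add_distrib, ← mul_sum, ← mul_sum]
      have a1 := mul_le_mul_of_nonneg_left y2 l0
      have a2 := mul_le_mul_of_nonneg_left y3 (sq_nonneg (L / r))
      nlinarith
  · rw [exp_lt_one_iff] at c
    by_contra h3
    exact absurd c (not_lt.2 (mul_nonneg l0 (by linarith [not_le.1 h3])))

end Pool.Agent.P.MP_d0f69c_mp.XS.Pre
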