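import Pool.Agent.P.MP_d0f69c_mp.XS.PIfA

/-!
Histories that follow the keys, with the coins read off the history.
-/

set_option autoImplicit false
set_option linter.dupNamespace false

open Finset Real

namespace Pool.Agent.P.MP_d0f69c_mp.XS.Pre

theorem t_phi : S_PHI := by
  intro ι _ _ κ Z ω hκ t
  induction t with
  | zero =>
    refine ⟨[], ?_, ?_, ?_, bef_nil _, ?_, ?_, ?_⟩
    · simp [pre_zero]
    · simp
    · simp
    · intro x hx
      rw [pre_zero] at hx
      simp at hx
    · intro z h' a
      simp at a
    · intro V _ f _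
      rw [pre_zero, sum_empty]; rfl
  | succ t ih =>
    obtain ⟨h, h1, h2, h3, h4, h5, h6, h7⟩ := ih
    by_cases hv : ∃ v ∈ Z, κ v = t
    · obtain ⟨v, hv, rfl⟩ := hv
      have e : hs h = pre κ Z (κ v) := h1
      have hoh : ∀ x ∈ insert v (pre κ Z (κ v)), oh ((v, ω v) :: h) x = ω x := by
        intro x hx
        show Function.update (oh h) v (ω v) x = ω x
        by_cases hxv : x = v
        · rw [hxv, Function.update_self]
        · rw [Function.update_of_ne hxv]
          exact h5 x ((mem_insert.1 hx).resolve_left hxv)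
      refine ⟨(v, ω v) :: h, ?_, ?_, ?_, ?_, ?_, ?_, ?_⟩
      · rw [List.map_cons, List.toFinset_cons, h1, pre_succ hκ hv]
      · rw [List.map_cons, List.pairwise_cons]
        refine ⟨fun y hy => ?_, h2⟩
        have : y ∈ pre κ Z (κ v) := by rw [← h1]; exact List.mem_toFinset.2 hy
        exact (mem_pre.1 this).2
      · intro w hw
        rcases List.mem_cons.1 hw with a | a
        · rw [a]
        · exact h3 w a
      · refine h4.cons ?_ trivial
        rw [e]
        exact not_mem_pre v
      · rw [pre_succ hκ hv]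
        exact hoh
      · intro z h' a
        rw [pre_succ hκ hv]
        rcases List.suffix_cons_iff.1 a with a | a
        · obtain ⟨rfl, rfl⟩ := List.cons.inj a
          exact ⟨mem_insert_self _ _, e⟩
        · exact ⟨mem_insert_of_mem (h6 z h' a).1, (h6 z h' a).2⟩
      · intro V _ f hf
        rw [pre_succ hκ hv, sum_insert (not_mem_pre v), ← h7 V f hf, add_comm]
        show Sh (fun h v b => f (hs h) (oh ((v, b) :: h)) v) h +
          f (hs h) (oh ((v, ω v) :: h)) v = _
        rw [e, hf _ _ ω v hoh]
    · have e := pre_succ' (κ := κ) (Z := Z) (t := t) fun v a b => hv ⟨v, a, b⟩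
      rw [e]
      exact ⟨h, h1, h2, h3, h4, h5, h6, h7⟩

end Pool.Agent.P.MP_d0f69c_mp.XS.Pre
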