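import Pool.Agent.P.MP_d0f69c_mp.XS.PL4E

/-!
The monitor of the fourth powers in the preparatory flow.
-/

set_option autoImplicit false

open Finset Real

namespace Pool.Agent.P.MP_d0f69c_mp.XS.Pre

variable {ι : Type} [Fintype ι]

/-- the form of a matrix as a linear functional of the second slot -/
noncomputable def bfl (B : Matrix ι ι ℂ) (φ : ι → ℂ) : (ι → ℂ) →ₗ[ℂ] ℂ where
  toFun := bf B φ
  map_add' := bf_addr B φ
  map_smul' c ζ := by simp only [bf, Matrix.mulVec_smul, dotProduct_smul, RingHom.id_apply]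

variable [DecidableEq ι]

/-- the data of the row `x` -/
noncomputable def mkD (q : Nq) (σ : Co ι) (τ : Au ι) (x : ι) (S : Finset ι) (ns : ℝ) : D4 ι where
  P := q.P
  Λ := 2 / q.η
  n := q.n
  nC := ns
  nJ := q.nJ
  κ := q.κ
  ν := 2 * q.ν
  hb := q.hb
  γ := q.γ
  g0 := √q.n / q.P ^ 15
  O := σ.Op
  Z := σ.rem
  C := S
  x := x
  G := σ.G
  al := σ.al
  E := fun v u => τ.D v u + if u = v then 51 / 50 else 0
  K := σ.Kk
  mu := fun v => 103 / 100 * τ.μ x v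
  e := fun v => 103 / 100 * (q.κ * σ.Kk x v)
  a := fun v => bfl (τ.B v) (σ.Γ x)
  u := fun v => ((103 / 100 * (q.κ * σ.Kk x v) + 103 / 100 * τ.μ x v : ℝ) : ℂ)⁻¹ •
    bfl (τ.B v) (σ.al x)
  h := fun v b => -bfl (τ.R v b) (σ.G x)

variable {q : Nq} {σ : Co ι} {τ : Au ι} {x v : ι} {S : Finset ι} {ns : ℝ}

theorem Fy.Ms_eq (h : Fy q σ τ) (hv : v ∈ σ.rem) (φ : ι → ℂ) :
    (mkD q σ τ x S ns).Ms v φ = τ.Nh v φ ^ 2 := by
  rw [Au.Nh, no_sq fun u => add_nonneg (h.D0 v u) (by split_ifs <;> norm_num)]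
  refine sum_subset (subset_univ _) fun u _ hu => ?_
  rw [mkD]
  simp only [h.DO v u hu, if_neg fun e : u = v => hu (e ▸ h.RO (h.rR hv)), add_zero, zero_mul]

theorem Fy.al_le (h : Fy q σ τ) (hx : x ∈ σ.Op) (hv : v ∈ σ.rem.erase x) (ψ : ι → ℂ) :
    ‖bf (τ.B v) (σ.al x) ψ‖ ≤
      (103 / 100 * (q.κ * σ.Kk x v) + 103 / 100 * τ.μ x v) * τ.Nh v ψ := by
  obtain ⟨v1, v2⟩ := mem_erase.1 hv
  have a1 := (h.hn v v2).add (τ.Pn v x) (σ.al x - τ.Pn v x)
  rw [add_sub_cancel] at a1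
  have a2 := h.p1 v v2 x (mem_union_left _ hx) v1.symm
  have a3 := h.p2 v v2 x (mem_union_left _ hx) v1.symm
  have a4 := (h.hn v v2).nn (σ.al x)
  exact (h.b0 v v2 _ _).trans (mul_le_mul (by linarith) (h.n2 v v2 ψ) ((h.hn v v2).nn _)
    (by linarith))

theorem Fy.d4 (h : Fy q σ τ) (hq : q.OK) (g : Fz q σ τ) (hx : x ∈ σ.Rw) (hS : S ⊆ σ.Op)
    (n1 : q.n ≤ ns) (n2 : ns ≤ q.nJ) (h4 : ∑ y ∈ S, ‖σ.Γ x y‖ ^ 4 ≤ 2 * ns) :
    (mkD q σ τ x S ns).OK := by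
  have P1 : 1 ≤ q.P := le_trans (by norm_num) hq.P9
  have P0 : 0 < q.P := one_pos.trans_le P1
  have η0 := hq.η0
  have n0 := hq.n0
  have κ0 := hq.κ0
  have κ1 : q.κ ≤ 1 / 10 ^ 12 := hq.κ1.trans hq.ε1
  have xO := h.RO hx
  have K1 : ∀ y z, σ.Kk y z ≤ 1 := fun y z =>
    (single_le_sum (fun z _ => h.K0 y z) (mem_univ z)).trans (h.K1 y)
  have sup : ∀ y ∈ σ.Op, ∀ w ∈ σ.Op, ‖σ.G y w‖ ^ 2 ≤ 1 / 10 ^ 10 := fun y hy w hw => by
    have a1 := norm_add_le (σ.Γ y w) (σ.al y w)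
    rw [Co.Γ, sub_add_cancel, ← Co.Γ] at a1
    exact (pow_le_pow_left₀ (norm_nonneg _) (b := 1 / 10 ^ 5) (by
      linarith [h.sup y hy w hw, h.ga y hy w hw, hq.g1, hq.ε1]) 2).trans_eq (by norm_num)
  refine
    { P9 := hq.P9, Λ1 := ?_, n0 := n0, nC := n1, nJ := n2, nP := hq.n2, JΛ := ?_, κ0 := κ0
      κ1 := κ1.trans (by norm_num), ν1 := ?_, hb4 := ?_, γ4 := ?_
      g00 := div_nonneg (sqrt_nonneg _) (pow_pos P0 _).le, g02 := ?_, ZO := h.rR.trans h.RO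
      CO := hS, xO := xO, sG := h.sG, sa := h.sa
      E0 := fun v u => add_nonneg (h.D0 v u) (by split_ifs <;> norm_num)
      Er := fun v hv => ?_, Ec := fun w hw => ?_, K0 := h.K0, sK := h.sK
      Kr := fun y => (sum_le_sum_of_subset_of_nonneg (subset_univ _) fun z _ _ => h.K0 y z).trans
        (h.K1 y)
      mu2 := ?_, e0 := fun v => mul_nonneg (by norm_num) (mul_nonneg κ0 (h.K0 _ _))
      e1 := fun v => ?_, ha := fun v hv ξ => ?_, hu := fun v hv ξ => ?_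
      hh := fun v hv b ξ => ?_, row := fun y hy => (h.row y hy).trans (by norm_num), sup := sup
      opG := h.op, opa := h.oa, amp := fun w hw => ?_
      k4 := fun y hy => (h.k4 y hy).trans ?_, c4 := h4.trans ?_, N4 := h.n4 x hx
      pc := fun f l l0 f0 hf => ?_ }
  · exact (le_div_iff₀ η0).2 (by linarith [hq.η1])
  · have a := L4.sm hq.P9 0 200 100 (c := 4) (by norm_num) (by norm_num) zero_le_one
    have b := mul_le_mul_of_nonneg_right hq.n3 (sq_nonneg (2 / q.η))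
    have e : q.η ^ 2 / q.P ^ 200 * (2 / q.η) ^ 2 = 4 * q.P ^ 0 * (1 / q.P ^ 200) := by
      field_simp; norm_num
    exact b.trans (e.trans_le a)
  · have a := L4.sm hq.P9 0 100 40 (c := 2) (by norm_num) (by norm_num) zero_le_one
    rw [pow_zero, mul_one] at a
    exact (mul_le_mul_of_nonneg_left hq.ν1 zero_le_two).trans a
  · have a := L4.sm hq.P9 0 100 40 (c := 4) (by norm_num) (by norm_num) n0.le
    have b := mul_le_mul_of_nonneg_right ((le_div_iff₀ (pow_pos P0 _)).2 hq.h3)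
      (sq_nonneg (2 / q.η))
    have e : q.η ^ 2 * q.n / q.P ^ 100 * (2 / q.η) ^ 2 = 4 * q.P ^ 0 * (q.n / q.P ^ 100) := by
      field_simp; norm_num
    exact b.trans (e.trans_le a)
  · exact ((le_div_iff₀ (pow_pos P0 _)).2 hq.g2).trans (div_le_div_of_nonneg_left n0.le
      (pow_pos P0 _) (pow_le_pow_right₀ P1 (by norm_num)))
  · exact le_of_eq (by simp only [mkD]; rw [div_pow, sq_sqrt n0.le, ← pow_mul])
  · have v2 := mem_of_mem_erase hv
    have a := (sum_le_sum_of_subset_of_nonneg (subset_univ σ.Op) fun u _ _ => h.D0 v u).trans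
      (g.Dr v v2)
    have b := pow_le_pow_left₀ hq.ε0.le hq.ε1 2
    simp only [mkD, sum_add_distrib, sum_ite_eq', if_pos (h.RO (h.rR v2))]
    linarith
  · refine (sum_le_sum_of_subset_of_nonneg (erase_subset x σ.rem) fun v _ _ =>
      add_nonneg (h.D0 v w) (by split_ifs <;> norm_num)).trans ((sum_le_sum fun v hv =>
        add_le_add_left (h.D1 v hv w) _).trans ?_)
    simp only [mkD, D4.th, th4, sum_add_distrib, ← mul_sum, sum_ite_eq, h.sK _ w]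
    have a := mul_le_mul_of_nonneg_right κ1 (mul_nonneg κ0 (sum_nonneg fun v (_ : v ∈ σ.rem) =>
      h.K0 w v))
    have b := pow_le_pow_left₀ κ0 κ1 2
    have c := mul_nonneg κ0 (sum_nonneg fun v (_ : v ∈ σ.rem) => h.K0 w v)
    split_ifs <;> linarith [h.E2 w, hq.ν0]
  · have a := (sum_le_sum_of_subset_of_nonneg (erase_subset x σ.rem) fun v _ _ =>
      sq_nonneg (τ.μ x v)).trans (h.u1 x)
    simp only [mkD, D4.A, mul_pow, ← mul_sum]
    linarith [hq.ν0]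
  · have := mul_le_mul κ1 (K1 x v) (h.K0 _ _) (by norm_num)
    simp only [mkD]
    linarith
  · have v2 := mem_of_mem_erase hv
    rw [D4.F, h.Ms_eq v2, h.Ms_eq v2]
    have a1 := norm_add_le (τ.β v * (σ.Γ x v * ξ v)) (bf (τ.B v) (σ.Γ x) ξ - τ.β v * (σ.Γ x v * ξ v))
    rw [add_sub_cancel, norm_mul, norm_mul] at a1
    have a2 := norm_add_le 1 (τ.β v - 1)
    rw [add_sub_cancel, norm_one] at a2
    have a3 := mul_le_mul_of_nonneg_right (show ‖τ.β v‖ ≤ 51 / 50 by linarith [h.b2 v v2, hq.ε1])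
      (mul_nonneg (norm_nonneg (σ.Γ x v)) (norm_nonneg (ξ v)))
    have a4 := pow_le_pow_left₀ (norm_nonneg _) (a1.trans (add_le_add a3 (h.b1 v v2 _ _))) 2
    refine a4.trans (le_trans ?_ (le_mul_of_one_le_left (by positivity) (by norm_num)))
    change _ ≤ τ.Nh v (σ.Γ x) ^ 2 * _
    rw [g.sq, g.sq]
    nlinarith [sq_nonneg (‖σ.Γ x v‖ * no (τ.D v) ξ - no (τ.D v) (σ.Γ x) * ‖ξ v‖)]
  · rw [h.Ms_eq (mem_of_mem_erase hv)]
    refine (pow_le_pow_left₀ (norm_nonneg _) ?_ 2).trans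
      (le_mul_of_one_le_left (sq_nonneg _) (by norm_num))
    have c0 : 0 ≤ 103 / 100 * (q.κ * σ.Kk x v) + 103 / 100 * τ.μ x v := by
      have := h.K0 x v; have := h.u0 x v; positivity
    change ‖(_ : ℂ)⁻¹ * bf (τ.B v) (σ.al x) ξ‖ ≤ _
    rw [norm_mul, norm_inv, Complex.norm_of_nonneg c0]
    exact inv_mul_le_of_le_mul₀ c0 (no_nonneg _ _) (h.al_le xO hv ξ)
  · have v2 := mem_of_mem_erase hv
    rw [D4.X, h.Ms_eq v2, h.Ms_eq v2, ← mul_pow, ← mul_pow]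
    exact pow_le_pow_left₀ (norm_nonneg _) ((norm_neg _).trans_le (h.r1 v v2 b _ _)) 2
  · exact (pow_le_pow_left₀ (norm_nonneg _) (h.sup x xO w hw) 2).trans
      (le_mul_of_one_le_left (sq_nonneg _) (by norm_num))
  · exact mul_le_mul_of_nonneg_right (by norm_num) (n0.le.trans hq.n1)
  · exact mul_le_mul_of_nonneg_right (by norm_num) (n0.le.trans n1)
  · have a1 := h.pc f l l0 f0 hf
    have a2 : ∑ y ∈ σ.Op, ∑ w ∈ σ.Op, f y * ‖σ.G y w‖ ^ 2 * f w ≤ ∑ y ∈ σ.Op,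
        (1 / 10 ^ 10 * f y ^ 2 + ∑ w ∈ σ.Op.erase y, f y * ‖σ.G y w‖ ^ 2 * f w) :=
      sum_le_sum fun y hy => by
        rw [← add_sum_erase _ _ hy]
        linarith [mul_le_mul_of_nonneg_right (sup y hy y hy) (sq_nonneg (f y))]
    rw [sum_add_distrib, ← mul_sum] at a2
    have a3 := sum_nonneg fun y (_ : y ∈ σ.Op) => sq_nonneg (f y)
    simp only [mkD, ← mul_div_assoc]
    linarith

theorem t_pl : S_PL := by
  intro ι _ _ q σ τ hq h g x hx S hS ns n1 n2 h4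
  have H := h.d4 hq g hx hS n1 n2 h4
  refine ⟨_, fun v hv b => ?_, H.inc⟩
  have a1 := H.step hv b
  have a2 := mul_le_mul_of_nonneg_right hq.n4 (h.K0 x v)
  have a3 := mul_nonneg hq.n0.le (h.K0 x v)
  have e : (fun y => (mkD q σ τ x S ns).Γ x y - (mkD q σ τ x S ns).δ v b y - sgn b *
      ((mkD q σ τ x S ns).e v * (mkD q σ τ x S ns).u v ((mkD q σ τ x S ns).Γ y))) =
      (σ.step τ v b).Γ x := by
    funext y
    set c := 103 / 100 * (q.κ * σ.Kk x v) + 103 / 100 * τ.μ x v with hc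
    have b1 : (c : ℂ) * ((c : ℂ)⁻¹ * bf (τ.B v) (σ.al x) (σ.Γ y)) = bf (τ.B v) (σ.al x) (σ.Γ y) := by
      by_cases c0 : c = 0
      · have := h.al_le (h.RO hx) hv (σ.Γ y)
        rw [← hc, c0, zero_mul, norm_le_zero_iff] at this
        rw [this, mul_zero, mul_zero]
      · exact mul_inv_cancel_left₀ (Complex.ofReal_ne_zero.2 c0) _
    have b2 : ∀ z, σ.Γ z = σ.G z - σ.al z := fun _ => rfl
    change σ.Γ x y - (sgn b * bf (τ.B v) (σ.Γ x) (σ.G y) + sgn b * (((103 / 100 * τ.μ x v : ℝ) : ℂ) *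
      ((c : ℂ)⁻¹ * bf (τ.B v) (σ.al x) (σ.Γ y))) + -bf (τ.R v b) (σ.G x) (σ.G y)) - sgn b *
      (((103 / 100 * (q.κ * σ.Kk x v) : ℝ) : ℂ) * ((c : ℂ)⁻¹ * bf (τ.B v) (σ.al x) (σ.Γ y))) = _
    rw [hc, Complex.ofReal_add, add_mul, ← Complex.ofReal_add, ← hc] at b1
    simp only [Co.step, Co.Γ, Au.T, bf_sub, bf_smul]
    rw [b2 x, bf_subl]
    rw [b2 y, bf_subr] at b1 ⊢
    linear_combination (-sgn b) * b1
  simp only [show (mkD q σ τ x S ns).x = x from rfl] at a1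
  rw [e] at a1
  refine le_trans a1 (add_le_add le_rfl ?_)
  simp only [mkD]
  linarith

end Pool.Agent.P.MP_d0f69c_mp.XS.Pre
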