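import Pool.Agent.P.MP_d0f69c_mp.XS.PWard2

/-!
Consequences of the identity of Ward: norms, rows, and a supersolution on isolated sites.
-/

set_option autoImplicit false

open Finset Matrix Function

namespace Pool.Agent.P.MP_d0f69c_mp.XS.Pre

variable {ι : Type} [Fintype ι] [DecidableEq ι]

/-- the form of `Lam` -/
noncomputable def Qw (A : Matrix ι ι ℂ) (Y : Finset ι) (ϖ : ι → Bool) (ξ ζ : ι → ℂ) : ℂ :=
  ∑ x ∈ Y, ∑ y ∈ Y, ξ x * Lam A Y ϖ x y * ζ y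

/-- `-Im Ww` is the diagonal matrix `η a` up to `ε η` -/
def LamW (A : Matrix ι ι ℂ) (Y : Finset ι) (ϖ : ι → Bool) (η : ℝ) (a : ι → ℝ) (ε : ℝ) : Prop :=
  OpLe Y (fun x y => ((-(Ww A Y ϖ x y).im - if x = y then η * a x else 0 : ℝ) : ℂ)) (ε * η)

variable {r : ι → ι → ℝ} {K D D2 mu : Matrix ι ι ℝ} {κ ν1 ν β η ε c : ℝ} {A X G : Matrix ι ι ℂ}
  {Y : Finset ι} {ϖ : ι → Bool} {a : ι → ℝ}

theorem KOK.ward0 (h : KOK A) (hX : Xᴴ = X) (g : ι → ℂ) :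
    (star ((X + Ww A Y ϖ) *ᵥ g) ⬝ᵥ g).im = (Qw A Y ϖ (star g) g).re := by
  have e2 : star ((X + Ww A Y ϖ) *ᵥ g) ⬝ᵥ g = star g ⬝ᵥ (X + Ww A Y ϖ)ᴴ *ᵥ g := by
    rw [star_mulVec, ← dotProduct_mulVec]
  have e3 : (starRingEnd ℂ) (star ((X + Ww A Y ϖ) *ᵥ g) ⬝ᵥ g) = star g ⬝ᵥ (X + Ww A Y ϖ) *ᵥ g := by
    rw [← Complex.star_def, ← star_dotProduct_star, star_star]
  have e4 := Complex.sub_conj (star ((X + Ww A Y ϖ) *ᵥ g) ⬝ᵥ g)
  rw [e3] at e4
  nth_rewrite 1 [e2] at e4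
  rw [← dotProduct_sub, ← sub_mulVec, conjTranspose_add, hX, add_sub_add_left_eq_sub] at e4
  have e5 : Qw A Y ϖ (star g) g = ∑ x, ∑ y, star (g x) * ((-(Ww A Y ϖ x y).im : ℝ) : ℂ) * g y := by
    rw [← sum_subset (subset_univ Y) fun x _ hx => sum_eq_zero fun y _ => by
      simp [h.im_off Y ϖ (Or.inl hx)]]
    exact sum_congr rfl fun x _ => sum_subset (subset_univ Y) fun y _ hy => by
      simp [Lam, h.im_off Y ϖ (Or.inr hy)]
  rw [← Complex.ofReal_re (Complex.im _), e5]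
  refine congrArg _ (mul_left_cancel₀ (mul_ne_zero two_ne_zero Complex.I_ne_zero) ?_)
  simp only [dotProduct, mulVec, H_sub (h.Ww_T Y ϖ), Pi.star_apply] at e4 ⊢
  rw [mul_sum]
  refine Eq.trans (by push_cast; ring) (e4.symm.trans (sum_congr rfl fun x _ => ?_))
  rw [mul_sum, mul_sum]
  exact sum_congr rfl fun y _ => by ring

theorem KOK.ward1 (h : KOK A) (hX : Xᴴ = X) (hu : IsUnit (X + Ww A Y ϖ).det)
    (hG : G = (X + Ww A Y ϖ)⁻¹) (u : ι → ℂ) :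
    (star u ⬝ᵥ G *ᵥ u).im = (Qw A Y ϖ (star (G *ᵥ u)) (G *ᵥ u)).re := by
  rw [← h.ward0 hX, mulVec_mulVec, hG, mul_nonsing_inv _ hu, one_mulVec]

theorem LamW.mono {ε' : ℝ} {a' : ι → ℝ} (h : LamW A Y ϖ η a ε) (η0 : 0 ≤ η) {δ : ℝ} (δ0 : 0 ≤ δ)
    (ha : ∀ x ∈ Y, |a' x - a x| ≤ δ) (hε : ε + δ ≤ ε') : LamW A Y ϖ η a' ε' :=
  ((OpLe.add h (OpLe.diag (a := fun x => ((η * (a x - a' x) : ℝ) : ℂ)) (mul_nonneg δ0 η0)
    fun x hx => by
      rw [Complex.norm_real, Real.norm_eq_abs, abs_mul, abs_of_nonneg η0, abs_sub_comm, mul_comm]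
      exact mul_le_mul_of_nonneg_right (ha x hx) η0)).mono (by nlinarith)).congr fun x _ y _ => by
    by_cases e : x = y <;> simp [e]; ring

theorem Stat.lamW (h : Stat r K κ ν1 ν A Y ϖ D D2 mu) (hβ : ImB A β) (η0 : 0 < η)
    (hε : β * (5 / 2 * √ν1 + 7 / 2 * κ ^ 2) ≤ ε * η) :
    LamW A Y ϖ η (fun x => (al A Y ϖ x x).im / η) ε :=
  ((h.lam_diag hβ).mono hε).congr fun x _ y _ => by rw [mul_div_cancel₀ _ η0.ne']

namespace LamW

variable (h : LamW A Y ϖ η a ε)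
include h

theorem dg {y : ι} (hy : y ∈ Y) : |-(Ww A Y ϖ y y).im - η * a y| ≤ ε * η := by
  have := (le_nS _ hy).trans (OpLe.col h hy)
  rwa [Complex.norm_real, Real.norm_eq_abs, if_pos rfl] at this

theorem form (g : ι → ℂ) :
    |(Qw A Y ϖ (star g) g).re - η * ∑ y ∈ Y, a y * ‖g y‖ ^ 2| ≤ ε * η * nS Y g ^ 2 := by
  have a1 := (nS_cs Y (star g) _).trans (mul_le_mul_of_nonneg_left (h g) (nS_nonneg _ _))
  rw [show nS Y (star g) = nS Y g by simp [nS]] at a1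
  refine le_trans ?_ (a1.trans_eq (by ring))
  rw [← Complex.ofReal_re (η * _), ← Complex.sub_re]
  refine (Complex.abs_re_le_norm _).trans_eq (congrArg _ ?_)
  push_cast
  rw [Qw, mul_sum, ← sum_sub_distrib]
  refine sum_congr rfl fun x hx => ?_
  simp only [ap, apply_ite ((↑) : ℝ → ℂ), sub_mul, ite_mul, sum_sub_distrib, mul_sub, mul_sum, Lam,
    Complex.ofReal_zero, zero_mul, sum_ite_eq, if_pos hx, mul_assoc]
  push_cast
  rw [← Complex.conj_mul', Pi.star_apply, Complex.star_def]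
  ring

theorem low (η0 : 0 ≤ η) (ha : ∀ y ∈ Y, c + ε ≤ a y) (g : ι → ℂ) :
    c * η * nS Y g ^ 2 ≤ (Qw A Y ϖ (star g) g).re := by
  have a1 := (abs_le.1 (h.form g)).1
  have a2 : (c + ε) * nS Y g ^ 2 ≤ ∑ y ∈ Y, a y * ‖g y‖ ^ 2 := by
    rw [nS_sq, mul_sum]
    exact sum_le_sum fun y hy => mul_le_mul_of_nonneg_right (ha y hy) (sq_nonneg _)
  nlinarith [mul_le_mul_of_nonneg_left a2 η0]

/-- a vector in the kernel vanishes on the open set -/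
theorem ker (k : KOK A) (hX : Xᴴ = X) (η0 : 0 < η) (ha : ∀ y ∈ Y, ε < a y) {g : ι → ℂ}
    (hg : (X + Ww A Y ϖ) *ᵥ g = 0) {y : ι} (hy : y ∈ Y) : g y = 0 := by
  have a1 := (abs_le.1 (h.form g)).1
  rw [← k.ward0 hX, hg, star_zero, zero_dotProduct, Complex.zero_im, nS_sq] at a1
  have a2 : ∑ y ∈ Y, (a y - ε) * ‖g y‖ ^ 2 ≤ 0 := by
    simp only [sub_mul, sum_sub_distrib, ← mul_sum]
    exact le_of_mul_le_mul_left (by linarith) η0
  have a3 := (single_le_sum (f := fun y => (a y - ε) * ‖g y‖ ^ 2) (fun y hy =>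
    mul_nonneg (sub_pos.2 (ha y hy)).le (sq_nonneg _)) hy).trans a2
  exact norm_eq_zero.1 (pow_eq_zero_iff two_ne_zero |>.1 (le_antisymm
    (le_of_mul_le_mul_left (by simpa using a3) (sub_pos.2 (ha y hy))) (sq_nonneg _)))

variable (k : KOK A) (hX : Xᴴ = X) (hu : IsUnit (X + Ww A Y ϖ).det) (hG : G = (X + Ww A Y ϖ)⁻¹)
include k hX hu hG

/-- the identity of Ward with diagonal weights -/
theorem ward (u : ι → ℂ) : |(star u ⬝ᵥ G *ᵥ u).im - η * ∑ y ∈ Y, a y * ‖(G *ᵥ u) y‖ ^ 2| ≤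
    ε * η * nS Y (G *ᵥ u) ^ 2 := by
  rw [k.ward1 hX hu hG]; exact h.form _

/-- the same for one column -/
theorem col (x : ι) : |(G x x).im - η * ∑ y ∈ Y, a y * ‖G y x‖ ^ 2| ≤
    ε * η * ∑ y ∈ Y, ‖G y x‖ ^ 2 := by
  simpa [nS_sq] using h.ward k hX hu hG (Pi.single x 1)

theorem mass (η0 : 0 ≤ η) (ha : ∀ y ∈ Y, c + ε ≤ a y) (x : ι) :
    c * η * ∑ y ∈ Y, ‖G y x‖ ^ 2 ≤ (G x x).im := by
  have := h.low η0 ha (G *ᵥ Pi.single x 1)
  rw [← k.ward1 hX hu hG] at this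
  simpa [nS_sq] using this

/-- from any set to the open set -/
theorem out (η0 : 0 ≤ η) (ha : ∀ y ∈ Y, c + ε ≤ a y) (S : Finset ι) (u : ι → ℂ) :
    c * η * nS Y (ap S G u) ^ 2 ≤ nS S u * nS S (ap S G u) := by
  have e : G *ᵥ cut S u = ap S G u := funext fun x => by simp [mulVec, dotProduct, cut, ap]
  have := h.low η0 ha (G *ᵥ cut S u)
  rw [← k.ward1 hX hu hG, e] at this
  refine this.trans ((Complex.im_le_norm _).trans ?_)
  have a1 := nS_cs S (star u) (ap S G u)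
  rw [show nS S (star u) = nS S u by simp [nS]] at a1
  refine le_trans (le_of_eq (congrArg _ ?_)) a1
  simp [dotProduct, cut, apply_ite star]

theorem out' (ha : ∀ y ∈ Y, c + ε ≤ a y) (η0 : 0 < η) (c0 : 0 < c) {S : Finset ι} {Λ Λ' : ℝ}
    (hS : OpLe S G Λ) (h0 : 0 ≤ Λ') (hΛ : Λ ≤ c * η * Λ' ^ 2) (u : ι → ℂ) :
    nS Y (ap S G u) ≤ Λ' * nS S u := by
  have a1 := (h.out k hX hu hG η0.le ha S u).trans (mul_le_mul_of_nonneg_left ((hS.mono hΛ) u)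
    (nS_nonneg _ _))
  refine le_of_sq_le_sq (le_of_mul_le_mul_left (a1.trans_eq (by ring)) (mul_pos c0 η0))
    (mul_nonneg h0 (nS_nonneg _ _))

theorem op (ha : ∀ y ∈ Y, c + ε ≤ a y) (η0 : 0 < η) (c0 : 0 < c) : OpLe Y G (1 / (c * η)) :=
  fun u => by
    have a1 := h.out k hX hu hG η0.le ha Y u
    rw [one_div_mul_eq_div, le_div_iff₀ (mul_pos c0 η0)]
    rcases (nS_nonneg Y (ap Y G u)).eq_or_lt with e | e
    · rw [← e, zero_mul]; exact nS_nonneg _ _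
    · exact le_of_mul_le_mul_right (by linarith) e

end LamW

namespace Stat

variable (h : Stat r K κ ν1 ν A Y ϖ D D2 mu)
include h

theorem S_cm {v : ι} (hv : v ∈ Y) :
    ‖(1 - A * Ss A Y ϖ) v v - cmn A Y ϖ v‖ ≤ 51 / 50 * ∑ u, D v u := by
  have k := h.dok.toKOK
  have e1 : 1 - A * Ss A Y ϖ = EY Y ϖ fun w => Vs w * Tt A w := by
    simp only [k.V_Tt]; rw [EY_sub, EY_const, ← mul_EY]; rfl
  have a1 : ∀ u, ‖cut Y (fun u => (1 - A * Ss A Y ϖ) u v) u‖ ≤ 101 / 100 := fun u => by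
    rw [cut]
    split_ifs with hu
    swap
    · norm_num
    rw [e1, EY_apply]
    simp only [Vs, diagonal_mul]
    refine (norm_EY' _).trans ?_
    simp only [norm_mul, norm_sgn, one_mul]
    by_cases e : u = v
    · exact eY_le fun w _ => e ▸ (h.dok.T_le w u).2
    · have b := h.alD u hu v hv e
      rw [Nv, Real.sq_sqrt (Phi_nonneg ..), h.dok.Phi_al] at b
      simp only [DOK.T_off k _ e]
      exact le_of_sq_le_sq (((eY_sq _).trans b).trans (by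
        linarith [h.D_le v u, h.row v, h.m1])) (by norm_num)
  have a2 := h.col_le hv a1
  have e2 : ∑ u, cut Y (fun u => (1 - A * Ss A Y ϖ) u v) u * Dt A Y ϖ v u v = 1 := by
    have := k.Dt_q Y ϖ v v
    rw [if_pos rfl, Matrix.mul_apply] at this
    refine Eq.trans (sum_congr rfl fun u _ => ?_) this
    rw [cut, ← transpose_apply (Dt A Y ϖ v) v u, k.Dt_T]
    split_ifs with hu
    exacts [mul_comm _ _, by rw [(k.Dt_off Y ϖ hv hu v).2, zero_mul, zero_mul]]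
  rw [e2, cut, if_pos hv] at a2
  have cn := h.dok.cm_ne Y ϖ v
  rw [show (1 - A * Ss A Y ϖ) v v - cmn A Y ϖ v =
    -(cmn A Y ϖ v * (1 - (1 - A * Ss A Y ϖ) v v / cmn A Y ϖ v)) by field_simp; ring, norm_neg,
    norm_mul]
  nlinarith [mul_le_mul (h.cm_lo v).2 a2 (norm_nonneg _) (by norm_num), h.d0 v]

/-- the strength of the lead is close to the imaginary part of the kernel, in every state -/
theorem im_near (hβ : ImB A β) {x : ι} (hx : x ∈ Y) {δ : ℝ}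
    (hI : ‖((1 - Aᴴ * Ss Aᴴ Y ϖ) * (Aᴴ - A) * (1 - Ss A Y ϖ * A) - (Aᴴ - A)) x x‖ ≤ 2 * δ) :
    |(al A Y ϖ x x).im - (A x x).im| ≤ δ + 6 / 5 * β * (κ ^ 2 + ν1) := by
  have k := h.dok.toKOK
  have b0 := hβ.b0 x
  have a1 := h.cross hβ hx
  have a2 : ‖Lam A Y ϖ x x * (‖al A Y ϖ x x‖ ^ 2 : ℝ)‖ ≤ 27 / 25 * β * κ ^ 2 := by
    rw [norm_mul, Lam, Complex.norm_real, Complex.norm_real, Real.norm_eq_abs, abs_neg,
      Real.norm_of_nonneg (sq_nonneg _)]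
    exact mul_le_mul (h.lam_dg hβ x) (pow_le_pow_left₀ (norm_nonneg _) (h.dok.al_dg Y ϖ x) 2)
      (sq_nonneg _) (by positivity)
  have a3 : ‖Imm A Y ϖ x x - (A x x).im‖ ≤ δ := by
    have e : Imm A Y ϖ x x - (A x x).im = Complex.I / 2 *
        ((1 - Aᴴ * Ss Aᴴ Y ϖ) * (Aᴴ - A) * (1 - Ss A Y ϖ * A) - (Aᴴ - A)) x x := by
      rw [Matrix.sub_apply _ (Aᴴ - A), H_sub k.symm, Imm, Matrix.smul_apply, smul_eq_mul]
      push_cast
      linear_combination -((A x x).im : ℂ) * Complex.I_mul_I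
    rw [e, norm_mul, norm_div, Complex.norm_I, Complex.norm_two]
    linarith
  have a4 := (norm_add_le _ _).trans (add_le_add a3 ((norm_add_le _ _).trans (add_le_add a1 a2)))
  rw [sub_add_cancel, sub_add_eq_add_sub, ← k.im_al, ← Complex.ofReal_sub, Complex.norm_real] at a4
  refine a4.trans ?_
  linarith [mul_le_mul_of_nonneg_left (h.row x) b0, mul_nonneg b0 (sq_nonneg κ)]

/-- the lower bound that sees only the isolated sites -/
theorem low_iso (hβ : ImB A β) (hw : LamW A Y ϖ η a ε) (η0 : 0 ≤ η) (ha : ∀ y ∈ Y, c + ε ≤ a y)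
    (hc : 9 / 4 * β * √ν ≤ c * η) {I : Finset ι} (hI : I ⊆ Y) (iso : ∀ v ∈ I, ∀ u ∈ Y, K v u = 0)
    (g : ι → ℂ) : ∑ y ∈ I, -(Ww A Y ϖ y y).im * ‖g y‖ ^ 2 - 9 / 2 * β * √ν * nS I g ^ 2 ≤
      (Qw A Y ϖ (star g) g).re := by
  have k := h.dok.toKOK
  have o := fun ξ ζ => h.lam_off hβ h.m0 (by linarith [h.m1, h.m2])
    (fun u hu => h.iso_row (iso u hu)) (h.iso_col iso) ξ (cut I ζ) fun y hy => if_neg hy
  set g' : ι → ℂ := g - cut I g with hg'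
  have n1 : ∀ ζ, nS Y (cut I ζ) = nS I ζ := fun ζ =>
    (nS_ite ζ).trans (by rw [inter_eq_right.2 hI])
  have n2 : ∀ S (ζ : ι → ℂ), nS S (star ζ) = nS S ζ := fun S ζ => by simp [nS]
  have n3 : nS Y g ≤ nS I g + nS Y g' := by
    have := nS_add Y (cut I g) g'
    rwa [n1, hg', add_sub_cancel] at this
  have a1 := o (star g) g
  have a2 := o g' (star g)
  have a3 := hw.low η0 ha g'
  simp only [n1, n2] at a1 a2
  have sy : ∀ x y, Lam A Y ϖ x y = Lam A Y ϖ y x := fun x y => by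
    rw [Lam, Lam, ← transpose_apply (Ww A Y ϖ), k.Ww_T]
  have e : Qw A Y ϖ (star g) g = (∑ y ∈ I, -(Ww A Y ϖ y y).im * ‖g y‖ ^ 2 : ℝ) +
      ∑ x ∈ Y, ∑ y ∈ Y.erase x, star g x * Lam A Y ϖ x y * cut I g y +
      ∑ x ∈ Y, ∑ y ∈ Y.erase x, g' x * Lam A Y ϖ x y * cut I (star g) y +
      Qw A Y ϖ (star g') g' := by
    have e1 : ((∑ y ∈ I, -(Ww A Y ϖ y y).im * ‖g y‖ ^ 2 : ℝ) : ℂ) =
        ∑ x ∈ Y, star g x * Lam A Y ϖ x x * cut I g x := by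
      rw [← sum_subset hI fun x _ hx => by simp [cut, hx], Complex.ofReal_sum]
      refine sum_congr rfl fun x hx => ?_
      rw [cut, if_pos hx, Lam, Pi.star_apply, Complex.star_def]
      push_cast
      rw [← Complex.conj_mul']; ring
    have e2 : ∑ x ∈ Y, ∑ y ∈ Y.erase x, g' x * Lam A Y ϖ x y * cut I (star g) y =
        ∑ x ∈ Y, ∑ y ∈ Y, cut I (star g) x * Lam A Y ϖ x y * g' y := by
      rw [sum_comm (s := Y) (t := Y)]
      refine sum_congr rfl fun x hx => ?_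
      rw [← add_sum_erase _ _ hx, show cut I (star g) x * Lam A Y ϖ x x * g' x = 0 by
        by_cases c : x ∈ I <;> simp [hg', cut, c], zero_add]
      exact sum_congr rfl fun y _ => by rw [sy]; ring
    rw [e1, e2, ← sum_add_distrib, sum_congr rfl fun x hx =>
      add_sum_erase Y (fun y => star g x * Lam A Y ϖ x y * cut I g y) hx]
    simp only [Qw, ← sum_add_distrib]
    refine sum_congr rfl fun x _ => sum_congr rfl fun y _ => ?_
    by_cases c : x ∈ I <;> by_cases c' : y ∈ I <;> simp [hg', cut, c, c']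
  rw [e, Complex.add_re, Complex.add_re, Complex.add_re, Complex.ofReal_re]
  have b1 := (abs_le.1 ((Complex.abs_re_le_norm _).trans a1)).1
  have b2 := (abs_le.1 ((Complex.abs_re_le_norm _).trans a2)).1
  rcases isEmpty_or_nonempty ι with i | ⟨⟨y⟩⟩
  · simp [nS, Qw, eq_empty_of_isEmpty Y, eq_empty_of_isEmpty I]
  have δ0 : 0 ≤ 9 / 4 * β * √ν := by have := hβ.b0 y; positivity
  have b3 := mul_le_mul_of_nonneg_left (mul_le_mul_of_nonneg_right n3 (nS_nonneg I g)) δ0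
  have b4 := mul_le_mul_of_nonneg_right hc (sq_nonneg (nS Y g'))
  nlinarith [mul_nonneg δ0 (sq_nonneg (nS I g - nS Y g'))]

/-- the supersolution on isolated sites -/
theorem n3 (hβ : ImB A β) (hX : Xᴴ = X) (hX' : Xᵀ = X) (hu : IsUnit (X + Ww A Y ϖ).det)
    (hG : G = (X + Ww A Y ϖ)⁻¹) (η0 : 0 < η) (hε : β * (5 / 2 * √ν1 + 7 / 2 * κ ^ 2) ≤ η / 100)
    (ha : ∀ y ∈ Y, |(al A Y ϖ y y).im - η| ≤ η / 100) {g : Finset ι} (hg : g ⊆ Y)
    (iso : ∀ v ∈ g, ∀ u ∈ Y, K v u = 0) {m : ℝ} (hm : ∀ x ∈ g, ‖G x x - al A Y ϖ x x‖ ≤ m)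
    (m1 : m ≤ η / 100) :
    (∀ y ∈ Y, 49 / 50 ≤ -(Ww A Y ϖ y y).im / η ∧ -(Ww A Y ϖ y y).im / η ≤ 51 / 50) ∧
      ∀ x ∈ g, ∑ y ∈ g.erase x, ‖G x y‖ ^ 2 * (-(Ww A Y ϖ y y).im / η) ≤
        (1 + (2 * m + 6 * β * √ν) / η) *
          (‖(1 - A * Ss A Y ϖ) x x‖ ^ 2 * (-(Ww A Y ϖ x x).im / η)) := by
  have k := h.dok.toKOK
  have hw := h.lamW (ε := 1 / 100) hβ η0 (by linarith)
  have a0 : ∀ y ∈ Y, 49 / 50 + 1 / 100 ≤ (al A Y ϖ y y).im / η := fun y hy => by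
    rw [le_div_iff₀ η0]; linarith [(abs_le.1 (ha y hy)).1]
  have l0 : ∀ y ∈ Y, 49 / 50 * η ≤ -(Ww A Y ϖ y y).im ∧ -(Ww A Y ϖ y y).im ≤ 51 / 50 * η :=
    fun y hy => by
      have a := abs_le.1 (hw.dg hy)
      have b := abs_le.1 (ha y hy)
      rw [mul_div_cancel₀ _ η0.ne'] at a
      constructor <;> linarith [a.1, a.2, b.1, b.2]
  refine ⟨fun y hy => ⟨(le_div_iff₀ η0).2 (l0 y hy).1, (div_le_iff₀ η0).2 (l0 y hy).2⟩,
    fun x hx => ?_⟩
  have xY := hg hx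
  have b0 := hβ.b0 x
  have s0 := Real.sqrt_nonneg ν
  have s1 := mul_le_mul_of_nonneg_left (Real.sqrt_le_sqrt h.m2) b0
  have s2 : β * √ν ≤ η / 250 := by nlinarith [mul_nonneg b0 (sq_nonneg κ)]
  have s3 : ν ≤ 1 / 31 * √ν := by
    have : √ν ≤ 1 / 31 := Real.sqrt_le_iff.2 ⟨by norm_num, by linarith [h.m1, h.m2]⟩
    nlinarith [Real.mul_self_sqrt h.m0]
  have sy : ∀ y, G x y = G y x := fun y => by
    rw [hG, ← transpose_apply (X + Ww A Y ϖ)⁻¹, transpose_nonsing_inv, transpose_add, hX', k.Ww_T]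
  have a1 := h.low_iso hβ hw η0.le a0 (by linarith) hg iso (G *ᵥ Pi.single x 1)
  have a2 := hw.mass k hX hu hG η0.le a0 x
  rw [← k.ward1 hX hu hG] at a1
  simp only [mulVec_single_one, col_apply, nS_sq, Pi.star_single, star_one, single_dotProduct,
    one_mul] at a1
  have m0 := (norm_nonneg _).trans (hm x hx)
  have a3 : (G x x).im ≤ (al A Y ϖ x x).im + m := by
    have := (Complex.im_le_norm _).trans (hm x hx)
    rw [Complex.sub_im] at this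
    linarith
  have a4 : ∑ y ∈ g, ‖G y x‖ ^ 2 ≤ 21 / 20 := by
    refine (sum_le_sum_of_subset_of_nonneg hg fun _ _ _ => sq_nonneg _).trans
      (le_of_mul_le_mul_left ?_ η0)
    linarith [(abs_le.1 (ha x xY)).2]
  have a5 := (abs_le.1 (h.ratio hβ xY)).2
  have d1 := h.iso_row (iso x hx)
  have d0 := h.d0 x
  obtain ⟨l1, l2⟩ := l0 x xY
  obtain ⟨c1, c2⟩ := h.cm_lo x
  have a6 := abs_le.1 ((abs_norm_sub_norm_le _ _).trans (h.S_cm xY))
  have a7 := h.dok.al_dg Y ϖ x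
  have e1 := h.dok.e1
  have a8 : η ≤ 1 / 50 := by
    linarith [(abs_le.1 (ha x xY)).1, Complex.im_le_norm (al A Y ϖ x x)]
  have a9 : ‖al A Y ϖ x x‖ ^ 2 - m / 50 ≤ ‖G x x‖ ^ 2 := by
    have := abs_le.1 ((abs_norm_sub_norm_le _ _).trans (hm x hx))
    nlinarith [norm_nonneg (G x x), norm_nonneg (al A Y ϖ x x), sq_nonneg
      (‖G x x‖ - ‖al A Y ϖ x x‖)]
  have n1 : ν ≤ 1 / 1000 := h.m2.trans h.m1
  have b1 : ‖cmn A Y ϖ x‖ ^ 2 - 21 / 10 * ν ≤ ‖(1 - A * Ss A Y ϖ) x x‖ ^ 2 := by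
    nlinarith [a6.1, a6.2, h.m0]
  have b2 : 99 / 100 ≤ ‖(1 - A * Ss A Y ϖ) x x‖ ^ 2 := by nlinarith [a6.1, h.m0]
  have l3 := (neg_le_abs _).trans (h.lam_dg hβ x)
  set l := -(Ww A Y ϖ x x).im with hl
  have l4 : 0 ≤ l := by linarith
  have b3 := mul_le_mul_of_nonneg_left a9 l4
  have b4 := mul_le_mul_of_nonneg_left b1 l4
  have b5 := mul_le_mul l1 b2 (by norm_num) l4
  have b6 := mul_le_mul_of_nonneg_left a4 (mul_nonneg b0 s0)
  have b7 := mul_le_mul_of_nonneg_left (d1.trans s3) b0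
  have b8 := mul_le_mul l3 s3 h.m0 (by positivity)
  have b9 := mul_le_mul_of_nonneg_right (l2.trans (show _ ≤ 1 by linarith)) m0
  rw [← add_sum_erase _ _ hx] at a1
  have f : ∑ y ∈ g.erase x, -(Ww A Y ϖ y y).im * ‖G y x‖ ^ 2 ≤
      l * ‖(1 - A * Ss A Y ϖ) x x‖ ^ 2 + 97 / 100 * (2 * m + 6 * β * √ν) := by
    rw [show (Ww A Y ϖ x x).im = -l by rw [hl, neg_neg]] at a5
    linarith [mul_nonneg b0 s0]
  have f1 : 97 / 100 * (2 * m + 6 * β * √ν) ≤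
      (2 * m + 6 * β * √ν) / η * (l * ‖(1 - A * Ss A Y ϖ) x x‖ ^ 2) := by
    rw [div_mul_eq_mul_div _ η, le_div_iff₀ η0]
    linarith [mul_le_mul_of_nonneg_left b5 (show 0 ≤ 2 * m + 6 * β * √ν by positivity),
      mul_nonneg (show 0 ≤ 2 * m + 6 * β * √ν by positivity) η0.le]
  simp only [sy, ← mul_div_assoc, ← sum_div]
  simp only [mul_comm (‖_‖ ^ 2)]
  exact div_le_div_of_nonneg_right (by linarith) η0.le

end Stat

end Pool.Agent.P.MP_d0f69c_mp.XS.Pre
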