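import Pool.Agent.P.MP_d0f69c_mp.XS.PNw5
import Pool.Agent.P.MP_d0f69c_mp.XS.PBas
import Pool.Agent.P.MP_d0f69c_mp.XS.PWard3

/-!
The Newton step of the preparation stage.
-/

set_option autoImplicit false

open Finset Real Matrix

namespace Pool.Agent.P.MP_d0f69c_mp.XS.Pre

variable {d M : ℕ} [NeZero M] {E : PEnv d M} {q : PPar d M} {S : St (Tor d M)}

/-- good sites are isolated if the near kernel is switched off -/
theorem stat_iso (hq : q.OK E) (nw : q.nw = true) (h : PInv E q.b0 S) {W : Tor d M → ℂ}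
    (hW : ∀ x, ‖W x‖ ≤ E.sM) : ∃ (K : Matrix (Tor d M) (Tor d M) ℝ) (κ ν1 ν : ℝ)
      (D D2 mu : Matrix (Tor d M) (Tor d M) ℝ), Stat (fun x y => (n1 (x - y) : ℝ) / q.L) K κ ν1 ν
        (E.A0 + diagonal W) S.O (om S) D D2 mu ∧ ν ≤ (1 / (q.P : ℝ) ^ 50) ^ 2 ∧
        √ν1 + κ ^ 2 ≤ 1 / 10 ^ 16 ∧ ∀ v ∈ S.good, ∀ u ∈ S.O, K v u = 0 := by
  obtain ⟨K, κ, ν1, ν, D, D2, mu, s, -, κ0, a, b, c⟩ := hq.st W hW S.O (om S)
  refine ⟨K, κ, ν1, ν, D, D2, mu, s, ?_, by linarith [hq.e1], fun v hv u hu => ?_⟩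
  · rw [_root_.one_div_pow, ← pow_mul]
    linarith [hq.ν1, s.m0]
  · refine (c v u (or_iff_not_imp_left.2 (h.iso v hv u hu))).resolve_right fun e => ?_
    linarith [e.1, hq.nk nw]

theorem pnh_of (hE : E.OK) (hq : q.OK E) (nw : q.nw = true) (h : PInv E q.b0 S) :
    PNH E q S (1 / (q.P : ℝ) ^ 50) q.L := by
  have hP := hq.par.Ppos hE.env
  have P1 := hq.par.Pone hE.env
  have η0 := hE.env.η0
  have m0 := hq.m0
  have n0 : 0 < q.n4 := (exp_pos _).trans_le hq.n0
  have δ : q.δN = (q.P : ℝ) ^ 4 * q.m1 := by rw [PPar.δN, if_pos nw]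
  have δ0 : 0 ≤ q.δN := by rw [δ]; positivity
  have hW : ∀ x, ‖S.W x‖ ≤ E.sM := fun x =>
    (h.sg x).trans ((le_add_of_nonneg_right δ0).trans hq.s1)
  have L0 : (0 : ℝ) < q.L := by linarith [hE.La, hq.L1]
  have k2 : 100 * (1 / (q.P : ℝ) ^ 50) ≤ 1 / (q.P : ℝ) ^ 2 := by
    rw [mul_one_div, div_le_div_iff₀ (by positivity) (by positivity), one_mul]
    exact hq.par.pow_lt hE.env (by norm_num) (by norm_num)
  have k3 : 1 / (q.P : ℝ) ^ 2 ≤ 1 := by
    rw [div_le_one (by positivity)]; exact one_le_pow₀ P1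
  have m1 : 10 ^ 4 * q.m1 ≤ E.η * (1 / (q.P : ℝ) ^ 50) := by
    rw [mul_one_div]
    exact (hq.h2.trans hq.h1).trans (div_le_div_of_nonneg_left η0.le (by positivity)
      (hq.par.pow_le hE.env (by norm_num)))
  refine ⟨hE.env, hq.par, nw, h, Bas.unit hE hq hW _ _, (Bas.op hE hq hW _ _).mono
    (div_le_div_of_nonneg_right (by norm_num) η0.le),
    fun x _ => ((hE.good _ hW).a1 _ _ x).trans (by norm_num), fun W w => ?_, ?_,
    by exact_mod_cast L0, ?_, m0.le, ?_, n0, ?_, hq.n2.trans (mul_le_mul_of_nonneg_right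
      (hq.par.pow_le hE.env (by norm_num)) n0.le), ?_⟩
  · have w' : ∀ x, ‖W x‖ ≤ E.sM := fun x => (w x).trans hq.s1
    obtain ⟨K, κ, ν1, ν, D, D2, mu, s, a, -, c⟩ := stat_iso hq nw h w'
    refine ⟨D2, s.nm (Bas.smk hE hq w') S.good_sub c a (by positivity) (by linarith), fun u =>
      le_trans (sum_le_sum fun v _ => mul_le_mul_of_nonneg_left (exp_le_exp.2 ?_) (s.far.nn v u))
        ((s.far.col u).trans a)⟩
    exact div_le_div_of_nonneg_right (by exact_mod_cast N1.nm_le _) L0.le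
  · obtain ⟨K, κ, ν1, ν, D, D2, mu, s, a, b, c⟩ := stat_iso hq nw h hW
    have e := mul_le_mul_of_nonneg_left b η0.le
    have f := mul_le_mul_of_nonneg_left (k2.trans k3) η0.le
    obtain ⟨a1, a2⟩ := s.n3 (m := 3000 * q.m1) (hE.good _ hW).imb (cr_herm hE.env.symm)
      (cr_T hE.env.symm) (Bas.unit hE hq hW _ _) rfl η0
      (by linarith [mul_nonneg η0.le (sqrt_nonneg ν1), mul_nonneg η0.le (sq_nonneg κ)])
      (fun y _ => by
        have := (hE.good _ hW).a1 S.O (om S) y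
        rw [aP, div_sub_one η0.ne', abs_div, abs_of_pos η0, div_le_iff₀ η0] at this
        linarith) S.good_sub c (fun x hx => by
        have : ‖E.Γ0 S x x‖ ≤ if q.nw then 3000 * q.m1 else q.m1 := h.mis x hx
        rwa [if_pos nw] at this) (by linarith)
    refine ⟨_, fun x hx => ⟨le_trans (by norm_num) (a1 x (S.good_sub hx)).1,
      (a1 x (S.good_sub hx)).2.trans (by norm_num)⟩, fun x hx => (a2 x hx).trans
        (mul_le_mul_of_nonneg_right (add_le_add le_rfl ?_) (mul_nonneg (sq_nonneg _)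
          (le_trans (by norm_num) (a1 x (S.good_sub hx)).1)))⟩
    have g := mul_le_mul_of_nonneg_left (sqrt_le_iff.2 ⟨by positivity, a⟩) η0.le
    have g' := mul_le_mul_of_nonneg_left k2 η0.le
    have g0 : 0 ≤ E.η * (1 / (q.P : ℝ) ^ 50) := by positivity
    rw [div_le_iff₀ η0, ← one_div_mul_one_div]
    linarith
  · have a : d * q.L ≤ q.P := (Nat.le_self_pow two_ne_zero _).trans hq.L3
    have b : (d : ℝ) * q.L ≤ q.P := by exact_mod_cast a
    have c := hq.par.pow_lt hE.env (a := 4) (b := 50) (c := 3) (by norm_num) (by norm_num)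
    have e := mul_le_mul_of_nonneg_right (by linarith : 1 + 2 * (d : ℝ) * q.L ≤ 3 * q.P)
      (pow_pos hP 3).le
    rw [one_div_mul_eq_div, div_le_div_iff₀ (by positivity) (by positivity)]
    linarith
  · have a := (le_div_iff₀ (by positivity)).1 (hq.h2.trans hq.h1)
    have b := mul_le_mul_of_nonneg_left (hq.par.pow_le hE.env (a := 10) (b := 100) (by norm_num))
      m0.le
    have c : 0 ≤ q.m1 * (q.P : ℝ) ^ 10 := by positivity
    linarith
  · have a := pow_le_pow_left₀ m0.le (by linarith [hq.h2] : q.m1 ≤ q.hb) 4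
    have b := mul_le_mul a (hq.par.pow_le hE.env (a := 36) (b := 100) (by norm_num))
      (by positivity) ((pow_nonneg m0.le 4).trans a)
    rw [δ]
    linarith [hq.h3]
  · have a := hq.Hη2
    have b := mul_le_mul hq.e1 hE.env.η1 η0.le (by norm_num)
    rw [PPar.H2, PPar.H1, hq.nk nw] at a
    linarith [hq.h2]

theorem t_pnewton (hM : S_PMONO) : S_PNEWTON := fun d M _ E q hE hq S h => by
  cases nw : q.nw
  · have δ : q.δN = 0 := by rw [PPar.δN, nw]; rfl
    have n0 : 0 < q.n4 := (exp_pos _).trans_le hq.n0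
    have hP := hq.par.Ppos hE.env
    exact ⟨S.W, hM d M E q.b0 _ S hE h (le_add_of_nonneg_right (by positivity))
      (le_of_eq (by rw [PPar.b0, nw]; rfl)) (fun z => le_add_of_nonneg_right δ.ge)
      (half_le_self n0.le) (sub_le_self _ (by positivity))
      ((Par.OK.Bi_zero q.toPar).symm.trans_le (hq.par.Bi_mono zero_le_one)) (hq.par.l_one hE.env)
      (hq.par.l_le_li hE.env 1) (le_add_of_nonneg_right δ.ge) le_rfl le_rfl subset_rfl⟩
  · obtain ⟨W', -, a, -⟩ := (pnh_of hE hq nw h).main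
    exact ⟨W', a⟩

end Pool.Agent.P.MP_d0f69c_mp.XS.Pre
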