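import Pool.Agent.P.MP_d0f69c_mp.XS.PWard1

/-!
The imaginary parts of the effective potential and of the dressed kernel.
-/

set_option autoImplicit false

open Finset Matrix Function

namespace Pool.Agent.P.MP_d0f69c_mp.XS.Pre

variable {ι : Type} [Fintype ι] [DecidableEq ι]

/-- minus the imaginary part of the effective potential -/
noncomputable def Lam (A : Matrix ι ι ℂ) (Y : Finset ι) (ϖ : ι → Bool) : Matrix ι ι ℂ :=
  fun x y => ((-(Ww A Y ϖ x y).im : ℝ) : ℂ)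

/-- the imaginary part of the kernel in the frame of the mean -/
noncomputable def Imm (A : Matrix ι ι ℂ) (Y : Finset ι) (ϖ : ι → Bool) : Matrix ι ι ℂ :=
  (Complex.I / 2) • ((1 - Aᴴ * Ss Aᴴ Y ϖ) * (Aᴴ - A) * (1 - Ss A Y ϖ * A))

omit [DecidableEq ι] in
theorem no_star (E : ι → ℝ) (ξ : ι → ℂ) : no E (star ξ) = no E ξ := by simp [no]

omit [DecidableEq ι] in
theorem bf_msum (S : Finset ι) (L : ι → Matrix ι ι ℂ) (ξ ζ : ι → ℂ) :
    bf (∑ v ∈ S, L v) ξ ζ = ∑ v ∈ S, bf (L v) ξ ζ := by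
  simp only [bf, sum_mulVec, dotProduct_sum]

variable {r : ι → ι → ℝ} {K D D2 mu : Matrix ι ι ℝ} {κ ν1 ν β : ℝ} {A : Matrix ι ι ℂ}
  {Y : Finset ι} {ϖ : ι → Bool}

theorem ImB.b0 (hβ : ImB A β) (x : ι) : 0 ≤ β := by
  linarith [(norm_nonneg _).trans (hβ (fun _ => true) (fun _ => true) x x)]

theorem ImB.imm (hβ : ImB A β) (h : KOK A) (Y : Finset ι) (ϖ : ι → Bool) (x y : ι) :
    ‖Imm A Y ϖ x y‖ ≤ β := by
  have := mid_le h h.conj Y ϖ fun w w' => hβ w w' x y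
  rw [Imm, Matrix.smul_apply, norm_smul, norm_div, Complex.norm_I, Complex.norm_two]
  linarith

theorem KOK.im_al (h : KOK A) (Y : Finset ι) (ϖ : ι → Bool) (x y : ι) :
    ((al A Y ϖ x y).im : ℂ) = Imm A Y ϖ x y +
      bf (Lam A Y ϖ) (star fun u => al A Y ϖ u x) fun u => al A Y ϖ u y := by
  have e := congrFun (congrFun (s3_al h h.conj (add_sub_cancel A Aᴴ).symm Y ϖ) x) y
  have e1 : (Ww A Y ϖ)ᴴ - Ww A Y ϖ = (2 * Complex.I) • Lam A Y ϖ := by
    ext u v; exact H_sub (h.Ww_T Y ϖ) u v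
  rw [al_H, h.Ww_H, H_sub (h.al_T Y ϖ), e1, Matrix.mul_smul, Matrix.smul_mul, Matrix.sub_apply,
    Matrix.smul_apply, bf_mul _ (Lam A Y ϖ), smul_eq_mul] at e
  rw [Imm, Matrix.smul_apply, smul_eq_mul]
  push_cast at e
  rw [show (al A Y ϖ)ᴴ x = star fun u => al A Y ϖ u x from rfl] at e
  linear_combination Complex.I / 2 * e + (((al A Y ϖ x y).im : ℂ) -
    bf (Lam A Y ϖ) (star fun u => al A Y ϖ u x) fun u => al A Y ϖ u y) * Complex.I_mul_I

theorem ImB.al_le (hβ : ImB A β) (h : KOK A) (Y : Finset ι) (ϖ : ι → Bool) (x y : ι) :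
    |(al A Y ϖ x y).im| ≤ β := by
  have e : (al A Y ϖ)ᴴ - al A Y ϖ = EY Y ϖ fun w => alw Aᴴ w - alw A w := by
    rw [← al_H, KOK.al_avg, KOK.al_avg, ← EY_sub]; rfl
  have a : ‖((al A Y ϖ)ᴴ - al A Y ϖ) x y‖ ≤ 2 * β := by
    rw [e, EY_apply]
    refine (norm_EY' _).trans (eY_le fun w _ => ?_)
    rw [alw_diff (h.conj.unit w) (h.unit w), show Vs w * Tt Aᴴ w * (Aᴴ - A) * (Tt A w * Vs w) =
      Vs w * (Tt Aᴴ w * (Aᴴ - A) * Tt A w) * Vs w by simp only [Matrix.mul_assoc], Vs, mul_diagonal,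
      diagonal_mul, norm_mul, norm_mul, norm_sgn, norm_sgn, one_mul, mul_one]
    exact hβ w w x y
  rw [H_sub (h.al_T Y ϖ), norm_mul, norm_mul, Complex.norm_I, Complex.norm_two, Complex.norm_real,
    Real.norm_eq_abs, abs_neg] at a
  linarith

theorem DOK.al_dg {e : ℝ} (h : DOK A e) (Y : Finset ι) (ϖ : ι → Bool) (x : ι) :
    ‖al A Y ϖ x x‖ ≤ e := by
  rw [KOK.al_avg, EY_apply]
  exact (norm_EY' _).trans (eY_le fun w _ => h.dg w x)

theorem DOK.cm_norm {e : ℝ} (h : DOK A e) (Y : Finset ι) (ϖ : ι → Bool) (v : ι) :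
    |‖cmn A Y ϖ v‖ - 1| ≤ 50 / 49 * e ^ 2 := by
  have := abs_norm_sub_norm_le (cmn A Y ϖ v) 1
  rw [norm_one, norm_sub_rev] at this
  exact this.trans (h.cm_le Y ϖ v)

/-- the jump of the imaginary part of the dressed kernel -/
theorem ImB.jump {e : ℝ} (hβ : ImB A β) (h : DOK A e) {v : ι} (hv : v ∈ Y) (x y : ι) :
    |((al A Y ϖ * Dt A Y ϖ v * al A Y ϖ) x y).im| ≤
      50 / 49 * β * (Nv A Y ϖ v (al A Y ϖ x) + Nv A Y ϖ v (al A Y ϖ y)) := by
  have k := h.toKOK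
  have a := s4 k k.conj (add_sub_cancel A Aᴴ).symm h.den h.conj.den ϖ hv hβ x y
  have s : (al A Y ϖ * Dt A Y ϖ v * al A Y ϖ)ᵀ = al A Y ϖ * Dt A Y ϖ v * al A Y ϖ := by
    rw [transpose_mul, transpose_mul, k.al_T, k.Dt_T, Matrix.mul_assoc]
  have g : ∀ {A : Matrix ι ι ℂ}, KOK A → ∀ x, (av fun z => ‖(A * Tt A (mix Y z ϖ)) x v‖) ≤
      √(Phi A Y ϖ v (al A Y ϖ x)) := fun {A} k x => by
    simp only [Phi_eq, k.Fv_al]
    exact Real.le_sqrt_of_sq_le (eY_sq (Y := Y) (ϖ := ϖ) fun w => ‖(A * Tt A w) x v‖)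
  have g1 := g k.conj x
  rw [k.Phi_H, show star (al Aᴴ Y ϖ x) = al A Y ϖ x from funext fun u => by
    rw [Pi.star_apply, al_H, conjTranspose_apply, star_star, ← transpose_apply (al A Y ϖ) x u,
      k.al_T]] at g1
  rw [al_H, Dt_H, ← conjTranspose_mul, ← conjTranspose_mul, ← Matrix.mul_assoc, H_sub s, norm_mul,
    norm_mul, Complex.norm_I, Complex.norm_two, Complex.norm_real, Real.norm_eq_abs, abs_neg] at a
  have := mul_le_mul_of_nonneg_left (add_le_add g1 (g k y)) (hβ.b0 x)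
  unfold Nv
  linarith

namespace Stat

variable (h : Stat r K κ ν1 ν A Y ϖ D D2 mu)
include h

theorem D0 (v u : ι) : 0 ≤ D v u := h.tot.nn v u
theorem dcol (u : ι) : ∑ v, D v u ≤ ν1 := h.tot.col' h.pm u
theorem dcol' (u : ι) : ∑ v, D v u ≤ 1 / 500 := (h.dcol u).trans (by linarith [h.m1])
theorem Dsy (v u : ι) : D v u = D u v := congrFun (congrFun h.sy u) v
theorem d0 (v : ι) : 0 ≤ ∑ u, D v u := sum_nonneg fun u _ => h.D0 v u
theorem D_le (v u : ι) : D v u ≤ ∑ u, D v u := single_le_sum (fun u _ => h.D0 v u) (mem_univ u)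
theorem colrow (v : ι) : ∑ u, D u v = ∑ u, D v u := sum_congr rfl fun u _ => h.Dsy u v

theorem pieces (hβ : ImB A β) (y : ι) : ∃ C : ι → Matrix ι ι ℂ, Lam A Y ϖ = ∑ v ∈ Y, C v ∧
    C y = (Dt A Y ϖ y)ᴴ * Imm A Y ϖ * Dt A Y ϖ y ∧ ∀ v ∈ Y, Maj (C v) (DH D v) (21 / 20 * β) := by
  have k := h.dok.toKOK
  obtain ⟨L, a1, a2, a3⟩ := t_two ι A Aᴴ (Aᴴ - A) κ Y ϖ y (fun _ => 2 * β) h.dok h.dok.conj
    (add_sub_cancel A Aᴴ).symm fun v _ w w' => hβ w w' v v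
  refine ⟨fun v => (Complex.I / 2) • L v, ?_, ?_, fun v hv ξ ζ => ?_⟩
  · ext x z
    have e := congrFun (congrFun a1 x) z
    rw [k.Ww_H, H_sub (k.Ww_T Y ϖ), Matrix.neg_apply] at e
    rw [← smul_sum, Matrix.smul_apply, smul_eq_mul, Lam]
    linear_combination -Complex.I / 2 * e + ((-(Ww A Y ϖ x z).im : ℝ) : ℂ) * Complex.I_mul_I
  · simp only [a2, Imm, Dt_H, Matrix.mul_smul, Matrix.smul_mul]
  · have b1 := a3 v hv ξ ζ
    have b2 := (h.sn v hv).le (star ξ)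
    rw [no_star, Nv, ← k.Phi_H] at b2
    have b3 := mul_le_mul_of_nonneg_left (mul_le_mul b2 ((h.sn v hv).le ζ) (Nv_nn ..)
      (no_nonneg _ _)) (hβ.b0 v)
    rw [bf, smul_mulVec, dotProduct_smul, norm_smul, norm_div, Complex.norm_I, Complex.norm_two]
    rw [bf, Nv] at b1
    linarith

/-- the column of the jump at its centre against a bounded vector -/
theorem col_le {y : ι} (hy : y ∈ Y) {ξ : ι → ℂ} {s : ℝ} (hs : ∀ u, ‖ξ u‖ ≤ s) :
    ‖∑ u, ξ u * Dt A Y ϖ y u y - ξ y / cmn A Y ϖ y‖ ≤ s * ∑ u, D y u := by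
  have a := h.perp y hy ξ (Pi.single y 1)
  have s0 := (norm_nonneg _).trans (hs y)
  have d0 := h.d0 y
  have b : no (D y) ξ ≤ s * √(∑ u, D y u) := no_le (by positivity) (by
    rw [mul_pow, Real.sq_sqrt d0, mul_sum]
    exact sum_le_sum fun u _ => (mul_le_mul_of_nonneg_left
      (pow_le_pow_left₀ (norm_nonneg _) (hs u) 2) (h.D0 y u)).trans_eq (mul_comm _ _))
  rw [no_single, Pi.single_eq_same, mul_one, bf, mulVec_single_one, inv_mul_eq_div] at a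
  refine a.trans ((mul_le_mul b (Real.sqrt_le_sqrt (h.D_le y y)) (Real.sqrt_nonneg _)
    (by positivity)).trans_eq ?_)
  rw [mul_assoc, Real.mul_self_sqrt d0]

theorem cm_lo (v : ι) : 8999 / 9000 ≤ ‖cmn A Y ϖ v‖ ∧ ‖cmn A Y ϖ v‖ ≤ 9001 / 9000 := by
  have := abs_le.1 ((h.dok.cm_norm Y ϖ v).trans (h.dok.e_sq v))
  constructor <;> linarith [this.1, this.2]

/-- the diagonal of `Lam` against the diagonal of `Imm` -/
theorem lam_imm (hβ : ImB A β) {y : ι} (hy : y ∈ Y) :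
    ‖Lam A Y ϖ y y * (‖cmn A Y ϖ y‖ ^ 2 : ℝ) - Imm A Y ϖ y y‖ ≤ 31 / 10 * β * ∑ u, D y u := by
  obtain ⟨C, a1, a2, a3⟩ := h.pieces hβ y
  have b0 := hβ.b0 y
  have d0 := h.d0 y
  have d1 := (h.row y).trans h.m1
  obtain ⟨c1, c2⟩ := h.cm_lo y
  have cn := h.dok.cm_ne Y ϖ y
  have s := pcs_side a3 (by positivity) h.D0 y
  rw [h.colrow] at s
  have t1 : ∀ u, ‖(Imm A Y ϖ * Dt A Y ϖ y) u y - Imm A Y ϖ u y / cmn A Y ϖ y‖ ≤ β * ∑ u, D y u :=
    fun u => h.col_le hy (hβ.imm h.dok.toKOK Y ϖ u)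
  have t2 : ∀ u, ‖star ((Imm A Y ϖ * Dt A Y ϖ y) u y)‖ ≤ 501 / 500 * β := fun u => by
    have e1 := norm_le_insert' ((Imm A Y ϖ * Dt A Y ϖ y) u y) (Imm A Y ϖ u y / cmn A Y ϖ y)
    have e2 : ‖Imm A Y ϖ u y / cmn A Y ϖ y‖ ≤ 1001 / 1000 * β := by
      rw [norm_div, div_le_iff₀ (by linarith)]
      nlinarith [hβ.imm h.dok.toKOK Y ϖ u y]
    rw [norm_star]
    nlinarith [t1 u]
  have t3 := h.col_le hy t2
  have e1 : Lam A Y ϖ y y * (‖cmn A Y ϖ y‖ ^ 2 : ℝ) - Imm A Y ϖ y y = (‖cmn A Y ϖ y‖ ^ 2 : ℝ) *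
      (star (∑ u, star ((Imm A Y ϖ * Dt A Y ϖ y) u y) * Dt A Y ϖ y u y -
        star ((Imm A Y ϖ * Dt A Y ϖ y) y y) / cmn A Y ϖ y) + ∑ w ∈ Y.erase y, C w y y) +
      cmn A Y ϖ y * ((Imm A Y ϖ * Dt A Y ϖ y) y y - Imm A Y ϖ y y / cmn A Y ϖ y) := by
    have e2 : C y y y = star (∑ u, star ((Imm A Y ϖ * Dt A Y ϖ y) u y) * Dt A Y ϖ y u y) := by
      rw [a2, Matrix.mul_assoc, Matrix.mul_apply, star_sum]
      exact sum_congr rfl fun u _ => by rw [star_mul', star_star, conjTranspose_apply, mul_comm]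
    have cn' : star (cmn A Y ϖ y) ≠ 0 := star_ne_zero.2 cn
    have e3 : ((‖cmn A Y ϖ y‖ ^ 2 : ℝ) : ℂ) = cmn A Y ϖ y * star (cmn A Y ϖ y) := by
      rw [Complex.star_def, Complex.mul_conj']; push_cast; rfl
    rw [a1, Matrix.sum_apply, ← add_sum_erase _ _ hy, e2, star_sub, star_div₀, star_star, e3]
    field_simp
    ring
  rw [e1]
  refine (norm_add_le _ _).trans ?_
  rw [norm_mul, norm_mul, Complex.norm_real, Real.norm_of_nonneg (sq_nonneg _)]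
  have p := mul_nonneg b0 d0
  have u1 := mul_le_mul (pow_le_pow_left₀ (norm_nonneg _) c2 2) ((norm_add_le _ _).trans
    (add_le_add ((norm_star _).trans_le t3) s)) (norm_nonneg _) (by norm_num)
  have u2 := mul_le_mul c2 (t1 y) (norm_nonneg _) (by norm_num)
  linarith

theorem DH_off {w u : ι} (hw : w ∈ Y) (hu : u ∉ Y) : DH D w u = 0 := by
  rw [DH, if_neg (ne_of_mem_of_not_mem hw hu).symm, add_zero]
  by_contra c
  exact hu (h.supp w u c).2

/-- the dressed part of the imaginary part of the dressed kernel -/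
theorem cross (hβ : ImB A β) {y : ι} (hy : y ∈ Y) :
    ‖bf (Lam A Y ϖ) (star fun u => al A Y ϖ u y) (fun u => al A Y ϖ u y) -
      Lam A Y ϖ y y * (‖al A Y ϖ y y‖ ^ 2 : ℝ)‖ ≤ 6 / 5 * β * ∑ u, D y u := by
  obtain ⟨C, a1, -, a3⟩ := h.pieces hβ y
  have b0 := hβ.b0 y
  have d0 := h.d0 y
  have F := pcs_majF a3 (by positivity) h.D0 h.dcol' Y
  set α : ι → ℂ := fun u => if u = y then 0 else al A Y ϖ u y with hα
  have s1 : ∀ u ∈ Y, ‖α u‖ ^ 2 ≤ D y u := fun u hu => by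
    simp only [hα]
    split_ifs with c
    · simpa using h.D0 y u
    · exact (pow_le_pow_left₀ (norm_nonneg _) (h.al0 u y) 2).trans (h.alD u hu y hy c)
  have n1 : no (DH D y) α ≤ ∑ u, D y u := no_le d0 (by
    rw [sq (∑ u, D y u), sum_mul]
    refine sum_le_sum fun u _ => ?_
    by_cases c : u = y
    · simpa [hα, c] using mul_nonneg (h.D0 y y) d0
    by_cases c' : u ∈ Y
    · rw [DH, if_neg c, add_zero]
      exact mul_le_mul_of_nonneg_left ((s1 u c').trans (h.D_le y u)) (h.D0 y u)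
    · rw [h.DH_off hy c', zero_mul]; exact mul_nonneg (h.D0 y u) d0)
  have n2 : ∑ w ∈ Y, no (DH D w) α ^ 2 ≤ 46 / 45 * ∑ u, D y u := by
    simp only [no_sq (F.nn _)]
    rw [sum_comm, mul_sum]
    refine sum_le_sum fun u _ => ?_
    rw [← sum_mul]
    by_cases c : u ∈ Y
    · exact mul_le_mul (F.col u c) (s1 u c) (sq_nonneg _) (by norm_num)
    · rw [sum_eq_zero fun w hw => h.DH_off hw c, zero_mul]; linarith [h.D0 y u]
  have n3 : ∑ w ∈ Y, no (DH D w) (Pi.single y 1) * no (DH D w) α ≤ 21 / 10 * ∑ u, D y u := by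
    have m1 : no (DH D y) (Pi.single y 1) ≤ 51 / 50 := by
      rw [no_single]
      exact Real.sqrt_le_iff.2 ⟨by norm_num, (single_le_sum (fun w _ => F.nn w y) hy).trans
        ((F.col y hy).trans (by norm_num))⟩
    have m2 : ∑ w ∈ Y.erase y, no (DH D w) (Pi.single y 1) * no (DH D w) α ≤
        ∑ w ∈ Y.erase y, (D y w + no (DH D w) α ^ 2) / 2 := sum_le_sum fun w hw => by
      rw [no_single, DH, if_neg (ne_of_mem_erase hw).symm, add_zero, h.Dsy w y]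
      nlinarith [sq_nonneg (√(D y w) - no (DH D w) α), Real.sq_sqrt (h.D0 y w)]
    have m3 : ∑ w ∈ Y.erase y, D y w ≤ ∑ u, D y u :=
      sum_le_sum_of_subset_of_nonneg (subset_univ _) fun u _ _ => h.D0 y u
    have m4 := (sum_le_sum_of_subset_of_nonneg (erase_subset y Y)
      fun w _ _ => sq_nonneg (no (DH D w) α)).trans n2
    have m5 := mul_le_mul m1 n1 (no_nonneg _ _) (by norm_num)
    rw [← sum_div, sum_add_distrib] at m2
    rw [← add_sum_erase _ _ hy]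
    linarith
  have g : ∀ ξ ζ, ‖bf (Lam A Y ϖ) ξ ζ‖ ≤ 21 / 20 * β * ∑ w ∈ Y, no (DH D w) ξ * no (DH D w) ζ :=
    fun ξ ζ => by
      rw [a1, bf_msum, mul_sum]
      exact (norm_sum_le _ _).trans (sum_le_sum fun w hw => (a3 w hw ξ ζ).trans_eq (mul_assoc ..))
  have g1 := g (star α) α
  have g2 := g (Pi.single y 1) α
  have g3 := g (star α) (Pi.single y 1)
  simp only [no_star, ← sq, mul_comm (no _ α)] at g1 g3
  have e0 : (fun u => al A Y ϖ u y) = α + al A Y ϖ y y • (Pi.single y 1 : ι → ℂ) := funext fun u => by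
    by_cases c : u = y <;> simp [hα, c]
  have e1 : bf (Lam A Y ϖ) (star fun u => al A Y ϖ u y) (fun u => al A Y ϖ u y) -
      Lam A Y ϖ y y * (‖al A Y ϖ y y‖ ^ 2 : ℝ) = bf (Lam A Y ϖ) (star α) α +
      (star (al A Y ϖ y y) * bf (Lam A Y ϖ) (Pi.single y 1) α +
        al A Y ϖ y y * bf (Lam A Y ϖ) (star α) (Pi.single y 1)) := by
    rw [e0, ← bf_single (Lam A Y ϖ) y y, star_add, star_smul, Pi.star_single, star_one]
    simp only [bf, mulVec_add, mulVec_smul, add_dotProduct, dotProduct_add, smul_dotProduct,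
      dotProduct_smul, smul_eq_mul, Complex.star_def]
    push_cast
    rw [← Complex.mul_conj']
    ring
  have k := (h.dok.al_dg Y ϖ y).trans h.dok.e1
  have q := mul_le_mul_of_nonneg_left n3 (show 0 ≤ 21 / 20 * β by positivity)
  have q1 := g1.trans (mul_le_mul_of_nonneg_left n2 (by positivity))
  have q2 := mul_le_mul k (g2.trans q) (norm_nonneg _) (by norm_num)
  have q3 := mul_le_mul k (g3.trans q) (norm_nonneg _) (by norm_num)
  rw [e1]
  refine (norm_add_le _ _).trans ((add_le_add le_rfl (norm_add_le _ _)).trans ?_)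
  rw [norm_mul, norm_mul, norm_star]
  nlinarith [mul_nonneg b0 d0]

/-- the ratio of the imaginary parts on the diagonal -/
theorem ratio (hβ : ImB A β) {y : ι} (hy : y ∈ Y) : |(al A Y ϖ y y).im + (Ww A Y ϖ y y).im *
    (‖cmn A Y ϖ y‖ ^ 2 + ‖al A Y ϖ y y‖ ^ 2)| ≤ 43 / 10 * β * ∑ u, D y u := by
  have a := (norm_sub_le _ _).trans (add_le_add (h.cross hβ hy) (h.lam_imm hβ hy))
  rw [← Real.norm_eq_abs, ← Complex.norm_real]
  refine le_trans (le_of_eq (congrArg _ ?_)) (a.trans_eq (by ring))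
  rw [Complex.ofReal_add, h.dok.toKOK.im_al, Lam]
  push_cast; ring

theorem lam_op (hβ : ImB A β) (X : Finset ι) : OpLe X (Lam A Y ϖ) (27 / 25 * β) := by
  obtain _ | ⟨⟨y⟩⟩ := isEmpty_or_nonempty ι
  · intro u; simp [nS, eq_empty_of_isEmpty X]
  obtain ⟨C, a1, -, a3⟩ := h.pieces hβ y
  have b0 := hβ.b0 y
  exact ((pcs_majF a3 (by positivity) h.D0 h.dcol' X).op.mono (by linarith)).congr fun x _ z _ => by
    rw [a1, Matrix.sum_apply]

theorem lam_dg (hβ : ImB A β) (y : ι) : |(Ww A Y ϖ y y).im| ≤ 27 / 25 * β := by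
  have := (le_nS _ (mem_univ y)).trans ((h.lam_op hβ univ).col (mem_univ y))
  rwa [Lam, Complex.norm_real, Real.norm_eq_abs, abs_neg] at this

theorem lam_al (hβ : ImB A β) {y : ι} (hy : y ∈ Y) :
    |(al A Y ϖ y y).im + (Ww A Y ϖ y y).im| ≤ β * (43 / 10 * ∑ u, D y u + 7 / 2 * κ ^ 2) := by
  have a := h.ratio hβ hy
  have a1 := abs_le.1 (h.dok.cm_norm Y ϖ y)
  have a2 := pow_le_pow_left₀ (norm_nonneg _) (h.dok.al_dg Y ϖ y) 2
  obtain ⟨c1, c2⟩ := h.cm_lo y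
  have a3 : |1 - (‖cmn A Y ϖ y‖ ^ 2 + ‖al A Y ϖ y y‖ ^ 2)| ≤ 31 / 10 * κ ^ 2 := by
    rw [abs_le]
    constructor <;> nlinarith [sq_nonneg κ, sq_nonneg ‖al A Y ϖ y y‖]
  have b0 := hβ.b0 y
  have a4 := mul_le_mul (h.lam_dg hβ y) a3 (abs_nonneg _) (by positivity)
  rw [← abs_mul] at a4
  refine le_trans (le_of_eq (congrArg _ (by ring))) ((abs_add_le _ _).trans
    ((add_le_add a a4).trans ?_))
  nlinarith [mul_nonneg b0 (sq_nonneg κ)]

/-- the part of `Lam` off the diagonal against a vector that lives on `I` -/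
theorem lam_off (hβ : ImB A β) {I : Finset ι} {ν' : ℝ} (ν0 : 0 ≤ ν') (ν2 : ν' ≤ 1 / 500)
    (h1 : ∀ u ∈ I, ∑ v, D u v ≤ ν') (h2 : ∀ u, ∑ v ∈ I, D v u ≤ ν') (ξ ζ : ι → ℂ)
    (hζ : ∀ y ∉ I, ζ y = 0) : ‖∑ x ∈ Y, ∑ y ∈ Y.erase x, ξ x * Lam A Y ϖ x y * ζ y‖ ≤
      9 / 4 * β * √ν' * (nS Y ξ * nS Y ζ) := by
  obtain _ | ⟨⟨y⟩⟩ := isEmpty_or_nonempty ι
  · simp [nS, eq_empty_of_isEmpty Y]
  obtain ⟨C, a1, -, a3⟩ := h.pieces hβ y
  have b0 := hβ.b0 y
  have := pcs_off a3 (by positivity) h.D0 h.dcol' ν0 ν2 (fun u hu => (h.colrow u).trans_le (h1 u hu))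
    h2 ξ ζ hζ
  simp only [← Matrix.sum_apply, ← a1] at this
  have x0 := nS_nonneg Y ξ
  have z0 := nS_nonneg Y ζ
  have p : 0 ≤ β * √ν' * (nS Y ξ * nS Y ζ) := by positivity
  linarith

theorem iso_col {I : Finset ι} (hI : ∀ v ∈ I, ∀ u ∈ Y, K v u = 0) (u : ι) : ∑ v ∈ I, D v u ≤ ν :=
  (sum_le_sum fun v hv => h.iso (hI v hv) u).trans ((sum_le_sum_of_subset_of_nonneg (subset_univ I)
    fun v _ _ => h.far.nn v u).trans (h.far.col' h.pm u))

theorem lam_diag (hβ : ImB A β) :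
    OpLe Y (fun x y => ((-(Ww A Y ϖ x y).im - if x = y then (al A Y ϖ x x).im else 0 : ℝ) : ℂ))
      (β * (5 / 2 * √ν1 + 7 / 2 * κ ^ 2)) := fun ζ => by
  rcases Y.eq_empty_or_nonempty with e | ⟨y, -⟩
  · simp [nS, e]
  have b0 := hβ.b0 y
  have n0 := h.m0.trans h.m2
  have z0 := nS_nonneg Y ζ
  refine nS_dual (by positivity) fun ξ => ?_
  have a1 := h.lam_off hβ (I := univ) n0 (by linarith [h.m1]) (fun u _ => h.row u) h.dcol ξ ζ
    fun y hy => absurd (mem_univ y) hy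
  have r2 : √ν1 ≤ 1 / 31 := Real.sqrt_le_iff.2 ⟨by norm_num, by linarith [h.m1]⟩
  have r3 : ν1 ≤ 1 / 31 * √ν1 := by nlinarith [Real.mul_self_sqrt n0, Real.sqrt_nonneg ν1]
  have a2 : ‖∑ x ∈ Y, ξ x * ((-(Ww A Y ϖ x x).im - (al A Y ϖ x x).im : ℝ) : ℂ) * ζ x‖ ≤
      β * (1 / 7 * √ν1 + 7 / 2 * κ ^ 2) * (nS Y ξ * nS Y ζ) := by
    refine (norm_sum_le _ _).trans ((sum_le_sum (g := fun x => β * (1 / 7 * √ν1 + 7 / 2 * κ ^ 2) *
      (‖ξ x‖ * ‖ζ x‖)) fun x hx => ?_).trans ?_)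
    · rw [norm_mul, norm_mul, mul_right_comm, mul_comm, Complex.norm_real, Real.norm_eq_abs,
        ← neg_add', abs_neg, add_comm]
      refine mul_le_mul_of_nonneg_right ((h.lam_al hβ hx).trans (mul_le_mul_of_nonneg_left ?_ b0))
        (by positivity)
      linarith [h.row x, Real.sqrt_nonneg ν1]
    · rw [← mul_sum]
      exact mul_le_mul_of_nonneg_left (nS_cs' _ _ _) (by positivity)
  have x0 := nS_nonneg Y ξ
  have p : 0 ≤ β * √ν1 * (nS Y ξ * nS Y ζ) := by positivity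
  refine le_trans (le_of_eq (congrArg _ ?_)) ((norm_add_le _ _).trans
    ((add_le_add a1 a2).trans (by linarith)))
  rw [← sum_add_distrib]
  refine sum_congr rfl fun x hx => ?_
  rw [ap, ← add_sum_erase _ _ hx, if_pos rfl, mul_add, add_comm, mul_assoc, mul_sum]
  congr 1
  exact sum_congr rfl fun y hy => by
    rw [if_neg (ne_of_mem_erase hy).symm, sub_zero, mul_assoc, Lam]

end Stat

theorem t_imw : S_IMW := fun ι _ _ r K κ ν1 ν A Y ϖ D D2 mu β h hβ => by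
  refine ⟨?_, fun x y => ?_, fun y hy => (h.ratio hβ hy).trans ?_, fun u => ?_,
    fun I _ hI ξ ζ hζ => ?_, fun v hv x => ?_⟩
  · obtain _ | ⟨⟨y⟩⟩ := isEmpty_or_nonempty ι
    · exact ⟨0, fun x => isEmptyElim x, fun x => isEmptyElim x⟩
    obtain ⟨C, a1, -, a3⟩ := h.pieces hβ y
    exact ⟨C, fun x z => (congrFun (congrFun a1 x) z).trans (Matrix.sum_apply ..), a3⟩
  · linarith [hβ.al_le h.dok.toKOK Y ϖ x y, hβ.b0 x]
  · nlinarith [mul_nonneg (hβ.b0 y) (h.d0 y)]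
  · rcases Y.eq_empty_or_nonempty with e | ⟨y, -⟩
    · simp [nS, e]
    refine ((h.lam_diag hβ).mono ?_) u
    nlinarith [mul_nonneg (hβ.b0 y) (Real.sqrt_nonneg ν1), mul_nonneg (hβ.b0 y) (sq_nonneg κ)]
  · rcases Y.eq_empty_or_nonempty with e | ⟨y, -⟩
    · simp [nS, e]
    have := h.lam_off hβ h.m0 (by linarith [h.m1, h.m2]) (fun u hu => h.iso_row (hI u hu))
      (h.iso_col hI) ξ ζ hζ
    simp only [Lam, Complex.ofReal_neg, mul_neg, neg_mul, sum_neg_distrib, norm_neg] at this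
    have b0 := hβ.b0 y
    have x0 := nS_nonneg Y ξ
    have z0 := nS_nonneg Y ζ
    refine this.trans ?_
    gcongr
    norm_num
  · refine (hβ.jump h.dok hv x x).trans ?_
    nlinarith [mul_nonneg (hβ.b0 x) (Nv_nn A Y ϖ v (al A Y ϖ x))]

end Pool.Agent.P.MP_d0f69c_mp.XS.Pre
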