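import Pool.Agent.P.MP_d0f69c_mp.XS.PFP
import Pool.Agent.P.MP_d0f69c_mp.XS.PWard2
import Pool.Agent.P.MP_d0f69c_mp.XS.PIfT

/-!
The data of the next steps of the preparatory flow, from the static majorants.
-/

set_option autoImplicit false

open Finset Real Function
open scoped Matrix

namespace Pool.Agent.P.MP_d0f69c_mp.XS.Pre

variable {ι : Type} [Fintype ι] [DecidableEq ι]

theorem Fv_sum (A : Matrix ι ι ℂ) (Y : Finset ι) (ϖ : ι → Bool) (v : ι) (S : Finset ι) (c : ι → ℂ)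
    (φ : ι → ι → ℂ) (w : ι → Bool) :
    Fv A Y ϖ v (∑ y ∈ S, c y • φ y) w = ∑ y ∈ S, c y * Fv A Y ϖ v (φ y) w := by
  simp only [Fv, Finset.sum_apply, Pi.smul_apply, smul_eq_mul, sum_mul, mul_sum, mul_assoc]
  rw [sum_comm]

theorem hn_Nv (A : Matrix ι ι ℂ) (Y : Finset ι) (ϖ : ι → Bool) (v : ι) : HN (Nv A Y ϖ v) where
  nn := Nv_nn A Y ϖ v
  add := Nv_add A Y ϖ v
  smul := Nv_smul A Y ϖ v
  op := fun S M r φ h => by
    simp only [Nv_sq, ← eY_sum, ← eY_mul, Fv_sum]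
    refine eY_mono fun w _ => ?_
    have := pow_le_pow_left₀ (nS_nonneg _ _) (h fun y => Fv A Y ϖ v (φ y) w) 2
    rwa [mul_pow, nS_sq, nS_sq] at this

theorem KOK.le_Nv {A : Matrix ι ι ℂ} (h : KOK A) (Y : Finset ι) (ϖ : ι → Bool) (v : ι) (ξ : ι → ℂ) :
    ‖ξ v‖ ≤ Nv A Y ϖ v ξ := by
  rw [← h.Fv_odd Y ϖ v ξ]
  refine (norm_EY' _).trans (le_of_sq_le_sq ((eY_sq _).trans_eq ?_) (Nv_nn ..))
  simp only [Nv_sq, norm_mul, norm_sgn, one_mul]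

/-- the data of the next steps -/
noncomputable def auOf (X A : Matrix ι ι ℂ) (Y : Finset ι) (ϖ : ι → Bool) (D D2 mu : Matrix ι ι ℝ)
    (Kk : ι → ι → ℝ) (κ c : ℝ) : Au ι where
  B := Dt A Y ϖ
  R := fun v b => sgn b • Dt A Y ϖ v -
    Tm (X + Ww A Y ϖ) (Ww A (Y.erase v) (update ϖ v b) - Ww A Y ϖ)
  β := fun v => (cmn A Y ϖ v)⁻¹
  D := D
  D2 := fun v u => if u ∈ Y then D2 v u else 0
  μ := fun x v => c * mu x v
  Pn := fun v x => ((κ * Kk x v / (κ * Kk x v + c * mu x v) : ℝ) : ℂ) • al A Y ϖ x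
  N := Nv A Y ϖ

/-- the state `σ` comes from the kernel `A` -/
structure Lk (q : Nq) (σ : Co ι) (r : ι → ι → ℝ) (K : Matrix ι ι ℝ) (κ ν1 ν β c : ℝ)
    (X A : Matrix ι ι ℂ) (ϖ : ι → Bool) (D D2 mu : Matrix ι ι ℝ) : Prop where
  st : Stat r K κ ν1 ν A σ.Op ϖ D D2 mu
  im : ImB A β
  sX : Xᵀ = X
  u1 : IsUnit (X + Ww A σ.Op ϖ).det
  u2 : ∀ v ∈ σ.rem, ∀ b, IsUnit (X + Ww A (σ.Op.erase v) (update ϖ v b)).det
  hG : σ.G = (X + Ww A σ.Op ϖ)⁻¹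
  ha : σ.al = al A σ.Op ϖ
  c1 : 1 ≤ c
  c2 : 21 / 10 * β ≤ c * q.η
  k1 : ∀ v ∈ σ.rem, ∀ u ∈ σ.Op ∪ σ.X, c * κ * K u v ≤ q.κ * σ.Kk u v
  k2 : ∀ v ∈ σ.rem, ∀ u ∈ σ.Op, κ ^ 2 * K v u ≤ q.κ ^ 2 * σ.Kk v u
  n1 : c ^ 2 * ν ≤ q.ν
  e1 : 2 * κ ^ 2 ≤ q.ε
  hb : 5000 * q.m1 ≤ q.hb
  rR : σ.rem ⊆ σ.Rw
  RO : σ.Rw ⊆ σ.Op
  K0 : ∀ x y, 0 ≤ σ.Kk x y
  K1 : ∀ x, ∑ y, σ.Kk x y ≤ 1
  mis : ∀ v ∈ σ.rem, ‖σ.Γ v v‖ ≤ 2000 * q.m1
  sup : ∀ x ∈ σ.Op, ∀ y ∈ σ.Op, ‖σ.Γ x y‖ ≤ q.γ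
  lv : ∀ v ∈ σ.rem, ∀ u ∈ σ.Op, ∀ u' ∈ σ.Op, u = v ∨ σ.Kk v u ≠ 0 → u' = v ∨ σ.Kk v u' ≠ 0 →
    q.κ * ‖σ.Γ u u'‖ ≤ q.m1 / 500

variable {q : Nq} {σ : Co ι} {r : ι → ι → ℝ} {K D D2 mu : Matrix ι ι ℝ} {κ ν1 ν β c : ℝ}
  {X A : Matrix ι ι ℂ} {ϖ : ι → Bool} {v : ι}

/-- the seminorm of a vector that is small near `v` -/
theorem Stat.no_far {Y : Finset ι} (h : Stat r K κ ν1 ν A Y ϖ D D2 mu) (hv : v ∈ Y) {φ : ι → ℂ}
    {s a b : ℝ} (s0 : 0 < s) (ha : ∀ u ∈ Y, r v u < s → ‖φ u‖ ^ 2 ≤ a)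
    (hb : ∑ u ∈ Y, ‖φ u‖ ^ 2 ≤ b) : no (DH D v) φ ^ 2 ≤ 11 / 10 * a + ν1 * exp (-s) * b := by
  have a1 := ha v hv (by rwa [h.pm.1 v])
  have a0 := (sq_nonneg _).trans a1
  have n0 : 0 ≤ ν1 * exp (-s) := mul_nonneg (h.m0.trans h.m2) (exp_pos _).le
  have a2 : ∑ u, D v u * ‖φ u‖ ^ 2 ≤ ∑ u, (D v u * a + if u ∈ Y then ν1 * exp (-s) * ‖φ u‖ ^ 2
      else 0) := sum_le_sum fun u _ => by
    by_cases e : D v u = 0
    · rw [e, zero_mul, zero_mul, zero_add]; split_ifs <;> positivity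
    have hu := (h.supp v u e).2
    rw [if_pos hu]
    rcases lt_or_ge (r v u) s with e' | e'
    · exact le_add_of_le_of_nonneg (mul_le_mul_of_nonneg_left (ha u hu e') (h.D0 v u))
        (by positivity)
    · exact le_add_of_nonneg_of_le (mul_nonneg (h.D0 v u) a0) (mul_le_mul_of_nonneg_right
        ((h.tot.entry v u).trans (mul_le_mul_of_nonneg_left (exp_le_exp.2 (neg_le_neg e'))
          (h.m0.trans h.m2))) (sq_nonneg _))
  rw [sum_add_distrib, ← sum_mul, sum_ite_mem, univ_inter, ← mul_sum] at a2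
  rw [no_sq (h.sn v hv).D0]
  simp only [DH, add_mul, sum_add_distrib, ite_mul, zero_mul, sum_ite_eq', mem_univ, if_true]
  nlinarith [mul_le_mul_of_nonneg_right ((h.row v).trans h.m1) a0,
    mul_le_mul_of_nonneg_left hb n0]

namespace Lk

variable (h : Lk q σ r K κ ν1 ν β c X A ϖ D D2 mu)
include h

theorem ν_le : ν ≤ q.ν := (le_mul_of_one_le_left h.st.m0 (one_le_pow₀ h.c1)).trans h.n1

theorem D1 (hv : v ∈ σ.rem) (u : ι) : D v u ≤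
    q.κ ^ 2 * (σ.Kk v u + if u = v then 1 else 0) + if u ∈ σ.Op then D2 v u else 0 := by
  by_cases e : D v u = 0
  · have := h.K0 v u
    have := h.st.far.nn v u
    rw [e]; split_ifs <;> positivity
  have hu := (h.st.supp v u e).2
  rw [if_pos hu]
  split_ifs with e'
  · have a := sum_le_sum (h.k2 v hv)
    have b := (sum_le_sum_of_subset_of_nonneg (subset_univ σ.Op) fun y _ _ => h.K0 v y).trans
      (h.K1 v)
    rw [← mul_sum, ← mul_sum] at a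
    rw [e']
    nlinarith [h.st.diag v, mul_le_mul_of_nonneg_left b (sq_nonneg q.κ),
      mul_nonneg (sq_nonneg q.κ) (h.K0 v v)]
  · linarith [h.st.near v u e', h.k2 v hv u hu]

/-- near and far bound against the side weights -/
theorem D_sum (hv : v ∈ σ.rem) {F : ι → ℝ} {s t : ℝ} (F0 : ∀ u, 0 ≤ F u)
    (hs : ∀ u ∈ σ.Op, F u ≤ s) (ht : ∀ u ∈ σ.Op, u = v ∨ σ.Kk v u ≠ 0 → q.κ ^ 2 * F u ≤ t) :
    ∑ u, D v u * F u ≤ 2 * t + q.ν * s := by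
  have vO := h.RO (h.rR hv)
  have t0 := (mul_nonneg (sq_nonneg _) (F0 v)).trans (ht v vO (.inl rfl))
  have s0 := (F0 v).trans (hs v vO)
  have a : ∀ u, D v u * F u ≤ (σ.Kk v u + if u = v then 1 else 0) * t + D2 v u * s := fun u => by
    have k0 : 0 ≤ σ.Kk v u + if u = v then 1 else 0 :=
      add_nonneg (h.K0 v u) (by split_ifs <;> norm_num)
    by_cases e : D v u = 0
    · rw [e, zero_mul]; exact add_nonneg (mul_nonneg k0 t0) (mul_nonneg (h.st.far.nn v u) s0)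
    have hu := (h.st.supp v u e).2
    have b := mul_le_mul_of_nonneg_right (h.D1 hv u) (F0 u)
    rw [if_pos hu] at b
    have b1 := mul_le_mul_of_nonneg_left (hs u hu) (h.st.far.nn v u)
    by_cases e' : u = v ∨ σ.Kk v u ≠ 0
    · nlinarith [mul_le_mul_of_nonneg_left (ht u hu e') k0]
    · rw [not_or, not_not] at e'
      rw [e'.2, if_neg e'.1] at b ⊢
      linarith
  refine (sum_le_sum fun u _ => a u).trans ?_
  simp only [sum_add_distrib, ← sum_mul, sum_ite_eq', mem_univ, if_true]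
  nlinarith [mul_le_mul_of_nonneg_right (h.K1 v) t0,
    mul_le_mul_of_nonneg_right ((h.st.far.row' h.st.pm v).trans h.ν_le) s0]

theorem jump (hq : q.OK) (hv : v ∈ σ.Op) : Jump (Dt A σ.Op ϖ v) (cmn A σ.Op ϖ v)⁻¹ (D v)
    (fun u => D v u + if u = v then 1 else 0) v :=
  ⟨h.st.D0 v, fun _ => rfl, by
    linarith [norm_sub_norm_le (cmn A σ.Op ϖ v)⁻¹ 1, norm_one (α := ℂ), h.st.b1 v, h.e1, hq.ε1],
    fun ξ ζ => by rw [← mul_assoc]; exact h.st.perp v hv ξ ζ⟩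

omit h in
theorem T_eq (v : ι) (b : Bool) : (auOf X A σ.Op ϖ D D2 mu σ.Kk q.κ c).T v b =
    Tm (X + Ww A σ.Op ϖ) (Ww A (σ.Op.erase v) (update ϖ v b) - Ww A σ.Op ϖ) :=
  sub_sub_cancel _ _

theorem u2' (hv : v ∈ σ.rem) (b : Bool) :
    IsUnit (X + Ww A σ.Op ϖ + (Ww A (σ.Op.erase v) (update ϖ v b) - Ww A σ.Op ϖ)).det := by
  rw [add_add_sub_cancel]; exact h.u2 v hv b

theorem sM (Y : Finset ι) (w : ι → Bool) : (X + Ww A Y w)ᵀ = X + Ww A Y w := by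
  rw [Matrix.transpose_add, h.sX, h.st.dok.Ww_T]

theorem sG (x y : ι) : σ.G x y = σ.G y x := by
  have : ((X + Ww A σ.Op ϖ)⁻¹)ᵀ = (X + Ww A σ.Op ϖ)⁻¹ := by
    rw [Matrix.transpose_nonsing_inv, h.sM]
  rw [h.hG]
  exact congrFun (congrFun this y) x

theorem sa (x y : ι) : σ.al x y = σ.al y x := by
  rw [h.ha, ← h.st.dok.al_T, Matrix.transpose_apply, h.st.dok.al_T]

/-- the Green function after the closing of `v` -/
theorem G_step (hv : v ∈ σ.rem) (b : Bool) (x y : ι) :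
    (X + Ww A (σ.Op.erase v) (update ϖ v b))⁻¹ x y =
      σ.G x y - bf ((auOf X A σ.Op ϖ D D2 mu σ.Kk q.κ c).T v b) (σ.G x) (σ.G y) := by
  have := inv_add_Tm h.u1 (h.u2' hv b)
  rw [add_add_sub_cancel] at this
  rw [this, T_eq, Matrix.sub_apply, bf_mul, ← h.hG]
  simp only [h.sG _ y]

/-- the dressed kernel after the closing of `v` -/
theorem al_step (hv : v ∈ σ.Op) (b : Bool) (x y : ι) : al A (σ.Op.erase v) (update ϖ v b) x y =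
    σ.al x y - sgn b * bf ((auOf X A σ.Op ϖ D D2 mu σ.Kk q.κ c).B v) (σ.al x) (σ.al y) := by
  rw [h.st.dok.al_step _ _ hv, Matrix.sub_apply, Matrix.smul_apply, bf_mul, ← h.ha, smul_eq_mul]
  simp only [h.sa _ y]
  rfl

/-- the second order part of the step -/
theorem rest (hq : q.OK) (hv : v ∈ σ.rem) (b : Bool) (φ ψ : ι → ℂ) :
    ‖bf ((auOf X A σ.Op ϖ D D2 mu σ.Kk q.κ c).R v b) φ ψ‖ ≤
      q.hb * no (DH D v) φ * no (DH D v) ψ ∧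
    ‖bf ((auOf X A σ.Op ϖ D D2 mu σ.Kk q.κ c).R v b) φ φ‖ ≤
      (1 + 3 * q.ε) * ‖σ.Γ v v‖ * ‖φ v‖ ^ 2 + q.m1 / 100 * no (DH D v) φ ^ 2 := by
  have vO := h.RO (h.rR hv)
  have m0 := hq.m0
  have J := h.jump hq vO
  have eΓ : (X + Ww A σ.Op ϖ)⁻¹ - al A σ.Op ϖ = σ.Γ := by rw [← h.hG, ← h.ha]; rfl
  have hT := Tm_eq h.u1 (h.u2' hv b) (h.st.dok.Ww_step σ.Op ϖ vO b)
  rw [eΓ] at hT
  have κ2 : q.κ ^ 2 ≤ 1 / 10 ^ 6 := by nlinarith [hq.κ0, hq.κ1, hq.ε1]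
  have ν2 : q.ν ≤ 1 / 10 ^ 6 := by nlinarith [hq.ν2, hq.ε0, hq.ε1]
  have n1 : q.ν * q.γ ^ 2 ≤ q.m1 ^ 2 / 10 ^ 9 := by
    have a : q.P ≤ q.P ^ 21 := le_self_pow₀ hq.one_le (by norm_num)
    nlinarith [hq.νγ, hq.m1, mul_le_mul_of_nonneg_right (hq.P9.trans a) (hq.n0.le.trans hq.n1)]
  have s1 : ∀ u ∈ σ.Op, ∀ w ∈ σ.Op, ‖σ.Γ u w‖ ^ 2 ≤ q.γ ^ 2 := fun u hu w hw =>
    pow_le_pow_left₀ (norm_nonneg _) (h.sup u hu w hw) 2
  have s2 : ∀ u ∈ σ.Op, u = v ∨ σ.Kk v u ≠ 0 → ∀ w ∈ σ.Op, w = v ∨ σ.Kk v w ≠ 0 →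
      q.κ ^ 2 * ‖σ.Γ u w‖ ^ 2 ≤ (q.m1 / 500) ^ 2 := fun u hu e w hw e' => by
    rw [← mul_pow]
    exact pow_le_pow_left₀ (mul_nonneg hq.κ0 (norm_nonneg _)) (h.lv v hv u hu w hw e e') 2
  have s3 : ∀ u ∈ σ.Op, u = v ∨ σ.Kk v u ≠ 0 →
      no (D v) (σ.Γ u) ^ 2 ≤ 2 * (q.m1 / 500) ^ 2 + q.ν * q.γ ^ 2 := fun u hu e =>
    (no_sq J.D0 _).trans_le (h.D_sum hv (fun _ => sq_nonneg _) (s1 u hu) (s2 u hu e))
  have s4 := h.D_sum hv (F := fun u => no (fun u => D v u + if u = v then 1 else 0) (σ.Γ u) ^ 2)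
    (s := 2 * q.γ ^ 2) (t := (q.m1 / 500) ^ 2 + 1 / 10 ^ 6 * (2 * (q.m1 / 500) ^ 2 + q.ν * q.γ ^ 2))
    (fun _ => sq_nonneg _) (fun u hu => by
      have := h.D_sum hv (fun _ => sq_nonneg _) (s1 u hu) fun w hw _ =>
        mul_le_mul κ2 (s1 u hu w hw) (sq_nonneg _) (by norm_num)
      rw [J.sq, no_sq J.D0]
      nlinarith [s1 u hu v vO, mul_le_mul_of_nonneg_right ν2 (sq_nonneg q.γ)]) fun u hu e => by
      rw [J.sq, mul_add]
      exact add_le_add (s2 u hu e v vO (.inl rfl))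
        (mul_le_mul κ2 (s3 u hu e) (sq_nonneg _) (by norm_num))
  have m2 : q.m1 ≤ 1 / 10 ^ 20 := by nlinarith [h.hb, hq.h2, hq.ε0, hq.ε1, hq.η0, hq.η1]
  obtain ⟨a1, a2⟩ := J.step (Γ := σ.Γ) (o := q.m1 / 300) (m := 2000 * q.m1) (g := 2001 * q.m1)
    (by positivity) (by positivity) (by linarith)
    (le_of_sq_le_sq ((s3 v vO (.inl rfl)).trans (by nlinarith)) (by positivity))
    (s4.trans (by nlinarith)) (h.mis v hv) (by nlinarith) (by rw [sq, sgn_sq]) hT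
  have e : ∀ φ ψ, ‖bf ((auOf X A σ.Op ϖ D D2 mu σ.Kk q.κ c).R v b) φ ψ‖ =
      ‖bf (Tm (X + Ww A σ.Op ϖ) (Ww A (σ.Op.erase v) (update ϖ v b) - Ww A σ.Op ϖ) -
        sgn b • Dt A σ.Op ϖ v) φ ψ‖ := fun φ ψ => by
    simp only [auOf, bf_sub]; rw [norm_sub_rev]
  have l1 : ∀ φ, no (fun u => D v u + if u = v then 1 else 0) φ ≤ no (DH D v) φ :=
    no_mono fun u => by unfold DH; split_ifs <;> norm_num
  have l0 := no_nonneg (fun u => D v u + if u = v then 1 else 0)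
  rw [e, e]
  refine ⟨(a1 φ ψ).trans (mul_le_mul (mul_le_mul (by linarith [h.hb]) (l1 φ) (l0 φ) hq.h0) (l1 ψ)
    (l0 ψ) (mul_nonneg hq.h0 (no_nonneg _ _))), ?_⟩
  have a3 := (norm_le_add_norm_add _ _).trans (add_le_add (a2 φ φ) le_rfl)
  have a4 : ‖(cmn A σ.Op ϖ v)⁻¹‖ ^ 2 ≤ 1 + 3 * q.ε := by
    have : ‖(cmn A σ.Op ϖ v)⁻¹‖ ≤ 1 + q.ε := by
      nlinarith [norm_sub_norm_le (cmn A σ.Op ϖ v)⁻¹ 1, norm_one (α := ℂ), h.st.b1 v, h.e1]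
    nlinarith [norm_nonneg (cmn A σ.Op ϖ v)⁻¹, hq.ε0, hq.ε1]
  rw [norm_mul, norm_mul, norm_mul, norm_pow, ← sq] at a3
  have a5 := mul_le_mul_of_nonneg_right (mul_le_mul_of_nonneg_right a4 (norm_nonneg (σ.Γ v v)))
    (sq_nonneg ‖φ v‖)
  have a6 := mul_le_mul_of_nonneg_left (pow_le_pow_left₀ (l0 φ) (l1 φ) 2) m0.le
  have a7 := mul_le_mul_of_nonneg_left (mul_le_mul_of_nonneg_right (J.le2 φ) (l0 φ)) m0.le
  have a8 := mul_le_mul_of_nonneg_right m2 (mul_nonneg m0.le (mul_nonneg (l0 φ) (l0 φ)))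
  nlinarith [mul_nonneg m0.le (mul_nonneg (l0 φ) (l0 φ))]

/-- the facts of a state -/
theorem fu (hq : q.OK) : Fu q σ (auOf X A σ.Op ϖ D D2 mu σ.Kk q.κ c) := by
  have c0 : 0 ≤ c := zero_le_one.trans h.c1
  have m0 : ∀ x v, 0 ≤ c * mu x v := fun x v => mul_nonneg c0 (h.st.mu0 x v)
  have k0 : ∀ x v, 0 ≤ q.κ * σ.Kk x v := fun x v => mul_nonneg hq.κ0 (h.K0 x v)
  have n0 : ∀ v ∈ σ.rem, ∀ x ∈ σ.Op ∪ σ.X, x ≠ v →
      c * Nv A σ.Op ϖ v (al A σ.Op ϖ x) ≤ q.κ * σ.Kk x v + c * mu x v := fun v hv x hx e => by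
    linarith [mul_le_mul_of_nonneg_left (h.st.alN x v e) c0, h.k1 v hv x hx]
  have n1 : ∀ v ∈ σ.rem, ∀ x ∈ σ.Op ∪ σ.X, x ≠ v → ∀ a b : ℝ, 0 ≤ a →
      b = q.κ * σ.Kk x v + c * mu x v →
      Nv A σ.Op ϖ v (((a / b : ℝ) : ℂ) • al A σ.Op ϖ x) ≤ a := fun v hv x hx e a b a0 hb => by
    have b0 : 0 ≤ b := hb ▸ add_nonneg (k0 x v) (m0 x v)
    rw [Nv_smul, Complex.norm_real, Real.norm_of_nonneg (by positivity), div_mul_eq_mul_div]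
    exact div_le_of_le_mul₀ b0 a0 (mul_le_mul_of_nonneg_left (((le_mul_of_one_le_left (Nv_nn ..)
      h.c1).trans (n0 v hv x hx e)).trans hb.ge) a0)
  have u : ∀ (s : Finset ι) (f : ι → ℝ), ∑ y, f y ^ 2 ≤ ν → ∑ y ∈ s, (c * f y) ^ 2 ≤ q.ν :=
    fun s f hf => by
    simp only [mul_pow, ← mul_sum]
    exact (mul_le_mul_of_nonneg_left ((sum_le_sum_of_subset_of_nonneg (subset_univ s)
      fun _ _ _ => sq_nonneg _).trans hf) (sq_nonneg c)).trans h.n1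
  have f1 : ∀ v u, (if u ∈ σ.Op then D2 v u else 0) ≤ D2 v u := fun v u => by
    split_ifs; exacts [le_rfl, h.st.far.nn v u]
  exact {
    sB := fun v _ => h.st.dok.Dt_T _ _ v
    sR := fun v _ b => by
      simp only [auOf]
      rw [Matrix.transpose_sub, Matrix.transpose_smul, h.st.dok.Dt_T, Tm_symm (h.sM _ _)
        (by rw [Matrix.transpose_sub, h.st.dok.Ww_T, h.st.dok.Ww_T])]
    D0 := h.st.D0
    DO := fun v u hu => by_contra fun e => hu (h.st.supp v u e).2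
    D1 := fun v hv => h.D1 hv
    E0 := fun v u => by simp only [auOf]; split_ifs; exacts [h.st.far.nn v u, le_rfl]
    EO := fun v u hu => if_neg hu
    E1 := fun v _ => (sum_le_sum fun u _ => f1 v u).trans ((h.st.far.row' h.st.pm v).trans h.ν_le)
    E2 := fun u => (sum_le_sum fun v _ => f1 v u).trans ((sum_le_sum_of_subset_of_nonneg
      (subset_univ _) fun v _ _ => h.st.far.nn v u).trans ((h.st.far.col' h.st.pm u).trans h.ν_le))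
    hn := fun v _ => hn_Nv A _ ϖ v
    n1 := fun v _ => h.st.dok.le_Nv _ ϖ v
    n2 := fun v hv => (h.st.sn v (h.RO (h.rR hv))).le
    b0 := fun v hv => (h.st.majN (h.RO (h.rR hv))).mono (h.st.sn v (h.RO (h.rR hv))) (by norm_num)
    b1 := fun v hv => (h.jump hq (h.RO (h.rR hv))).maj
    b2 := fun v _ => (h.st.b1 v).trans h.e1
    r1 := fun v hv b φ ψ => (h.rest hq hv b φ ψ).1
    r2 := fun v hv b φ => (h.rest hq hv b φ φ).2
    p1 := fun v hv x hx e => n1 v hv x hx e _ _ (k0 x v) rfl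
    p2 := fun v hv x hx e => by
      simp only [auOf, h.ha]
      rcases (add_nonneg (k0 x v) (m0 x v)).eq_or_lt with e0 | e0
      · rw [← e0, div_zero, Complex.ofReal_zero, zero_smul, sub_zero]
        linarith [(le_mul_of_one_le_left (Nv_nn ..) h.c1).trans (n0 v hv x hx e), m0 x v]
      · refine le_of_eq_of_le (congrArg _ ?_) (n1 v hv x hx e _ _ (m0 x v) rfl)
        rw [sub_eq_iff_eq_add, ← add_smul, ← Complex.ofReal_add, ← add_div, add_comm,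
          div_self e0.ne', Complex.ofReal_one, one_smul]
    u0 := m0
    u1 := fun x => u _ _ (h.st.mu2.row' h.st.pm x)
    u2 := fun v _ => u _ (fun x => mu x v) (h.st.mu2.col' h.st.pm v)
    ia := fun v hv x hx => by
      have a := h.im.jump (ϖ := ϖ) h.st.dok (h.RO (h.rR hv)) x x
      have b := mul_le_mul_of_nonneg_left (n0 v hv x (mem_union_left _ (h.RO (mem_of_mem_erase hx)))
        (ne_of_mem_erase hx)) hq.η0.le
      rw [bf_mul, ← h.ha] at a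
      simp only [h.sa _ x] at a
      rw [← h.ha] at b
      refine a.trans (le_trans ?_ b)
      nlinarith [mul_le_mul_of_nonneg_right h.c2 (Nv_nn A σ.Op ϖ v (σ.al x)),
        mul_nonneg (h.im.b0 x) (Nv_nn A σ.Op ϖ v (σ.al x))] }

end Lk

theorem t_pr : S_PR := by
  intro ι _ _ q σ r K D D2 mu κ ν1 ν A X ϖ hq st im sX u1 u2 hG ha rR RO K0 K1 k1 k2 n1 e1 hb mis
    sup lv
  have h : Lk q σ r K κ ν1 ν _ 10 X A ϖ D D2 mu := ⟨st, im, sX, u1, u2, funext₂ hG, funext₂ ha,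
    by norm_num, by linarith [hq.η0], k1, k2, by linarith, e1, hb, rR, RO, K0, K1, mis, sup,
    fun v hv u hu w hw e e' => (lv v hv u hu w hw e e').trans (by linarith [hq.m0])⟩
  refine ⟨_, h.fu hq, fun _ _ => rfl, fun v u => ?_, fun _ => rfl, fun v hv b x y =>
    ⟨h.G_step hv b x y, h.al_step (RO (rR hv)) b x y⟩⟩
  simp only [auOf]
  split_ifs
  exacts [le_rfl, st.far.nn v u]

end Pool.Agent.P.MP_d0f69c_mp.XS.Pre
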