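import Pool.Agent.P.MP_d0f69c_mp.XS.Pr

/-!
Sequences of random steps with located events.
-/

set_option autoImplicit false

open Finset Real

namespace Pool.Agent.P.MP_d0f69c_mp.XS

section generic

variable {ι κ σ : Type} [Fintype ι] [DecidableEq ι] [Fintype κ]

/-- A random step on the states `σ`: `U` is the set of unrevealed sites, `loc` the set of the
places of the events, `Q` a relation between states and site variables that is preserved, and new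
events at a family of places in `sep` have joint probability at most `w` to the size of the
family. -/
structure LocStep (U loc : σ → Finset ι) (sep : Finset ι → Prop) (Q : σ → (ι → κ) → Prop) {A : Type}
    [Fintype A] (run : σ → (ι → κ) → A → σ) (Pre Post : σ → Prop) (w : ℝ) : Prop where
  sub : ∀ S ϖ α, U (run S ϖ α) ⊆ U S
  causal : ∀ S ϖ α ϖ', (∀ y ∉ U (run S ϖ α), ϖ' y = ϖ y) → run S ϖ' α = run S ϖ α
  post : ∀ S ϖ α, Pre S → Post (run S ϖ α)
  cons : ∀ S ϖ α, Pre S → Q S ϖ → Q (run S ϖ α) ϖ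
  w0 : 0 ≤ w
  eb : ∀ S, Pre S → ∀ (ϖ : ι → κ) (I : Finset ι), sep I →
    pr (fun z : (ι → κ) × A => ∀ x ∈ I,
      x ∈ loc (run S (mix (U S) z.1 ϖ) z.2) ∧ x ∉ loc S) ≤ w ^ I.card

variable {U loc : σ → Finset ι} {sep : Finset ι → Prop} {Q : σ → (ι → κ) → Prop}
  {A B : Type} [Fintype A] [Fintype B] {f : σ → (ι → κ) → A → σ} {g : σ → (ι → κ) → B → σ}
  {Pre Pre' Mid Post Post' : σ → Prop} {w w' : ℝ}

theorem LocStep.mono (h : LocStep U loc sep Q f Pre Post w) (h1 : ∀ S, Pre' S → Pre S)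
    (h2 : ∀ S, Post S → Post' S) (h3 : w ≤ w') : LocStep U loc sep Q f Pre' Post' w' :=
  ⟨h.sub, h.causal, fun S ϖ α a => h2 _ (h.post S ϖ α (h1 S a)),
    fun S ϖ α a => h.cons S ϖ α (h1 S a), h.w0.trans h3,
    fun S a ϖ I b => (h.eb S (h1 S a) ϖ I b).trans (pow_le_pow_left₀ h.w0 h3 _)⟩

/-- a deterministic step without new events -/
theorem LocStep.det (F : σ → σ) (h1 : ∀ S, U (F S) ⊆ U S) (h2 : ∀ S, Pre S → Post (F S))
    (h3 : ∀ S ϖ, Pre S → Q S ϖ → Q (F S) ϖ) (h4 : ∀ S, Pre S → loc (F S) ⊆ loc S) :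
    LocStep U loc sep Q (fun S _ (_ : Unit) => F S) Pre Post 0 :=
  ⟨fun S _ _ => h1 S, fun _ _ _ _ _ => rfl, fun S _ _ => h2 S, fun S ϖ _ => h3 S ϖ, le_rfl,
    fun S a ϖ I _ => by
      rcases I.eq_empty_or_nonempty with rfl | ⟨x, hx⟩
      · simpa using pr_le_one _
      · rw [pr_false fun z hz => (hz x hx).2 (h4 S a (hz x hx).1)]
        positivity⟩

theorem LocStep.comp [Nonempty κ] (hs : ∀ I J, J ⊆ I → sep I → sep J) (h : LocStep U loc sep Q f Pre Mid w)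
    (h' : LocStep U loc sep Q g Mid Post w') :
    LocStep U loc sep Q (fun S ϖ (a : A × B) => g (f S ϖ a.1) ϖ a.2) Pre Post (w + w') where
  sub := fun S ϖ a => (h'.sub _ ϖ a.2).trans (h.sub S ϖ a.1)
  causal := fun S ϖ a ϖ' e => by
    rw [h.causal S ϖ a.1 ϖ' fun y hy => e y fun c => hy (h'.sub _ _ _ c)]
    exact h'.causal _ _ _ ϖ' e
  post := fun S ϖ a hS => h'.post _ ϖ a.2 (h.post S ϖ a.1 hS)
  cons := fun S ϖ a hS c => h'.cons _ ϖ a.2 (h.post S ϖ a.1 hS) (h.cons S ϖ a.1 hS c)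
  w0 := add_nonneg h.w0 h'.w0
  eb := fun S hS ϖ I hI => by
    classical
    rw [← prod_const, prod_add]
    refine le_trans (pr_mono (B := fun z : (ι → κ) × (A × B) => ∃ J ∈ I.powerset,
      (∀ x ∈ J, x ∈ loc (f S (mix (U S) z.1 ϖ) z.2.1) ∧ x ∉ loc S) ∧ ∀ x ∈ I \ J,
        x ∈ loc (g (f S (mix (U S) z.1 ϖ) z.2.1) (mix (U S) z.1 ϖ) z.2.2) ∧
          x ∉ loc (f S (mix (U S) z.1 ϖ) z.2.1)) fun z hz => ?_)
      ((pr_ex _ _).trans (sum_le_sum fun J hJ => ?_))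
    · refine ⟨I.filter fun x => x ∈ loc (f S (mix (U S) z.1 ϖ) z.2.1),
        mem_powerset.2 (filter_subset _ _), fun x hx => ?_, fun x hx => ?_⟩
      · exact ⟨(mem_filter.1 hx).2, (hz x (mem_filter.1 hx).1).2⟩
      · exact ⟨(hz x (mem_sdiff.1 hx).1).1,
          fun c => (mem_sdiff.1 hx).2 (mem_filter.2 ⟨(mem_sdiff.1 hx).1, c⟩)⟩
    rw [prod_const, prod_const, mul_comm]
    refine le_trans ?_ (mul_le_mul_of_nonneg_left (h.eb S hS ϖ J (hs _ _ (mem_powerset.1 hJ) hI))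
      (pow_nonneg h'.w0 _))
    let e : A × ((ι → κ) × B) ≃ (ι → κ) × (A × B) :=
      ⟨fun z => (z.2.1, z.1, z.2.2), fun z => (z.2.1, z.1, z.2.2), fun _ => rfl, fun _ => rfl⟩
    rw [← pr_equiv e, pr_prod, pr_prod' (β := A), ← av_mul]
    refine av_mono fun α => ?_
    have key : ∀ ξ ξ' : ι → κ, (∀ y ∉ U (f S (mix (U S) ξ ϖ) α), ξ' y = ξ y) →
        f S (mix (U S) ξ' ϖ) α = f S (mix (U S) ξ ϖ) α := fun ξ ξ' hξ =>
      h.causal S _ α _ fun y hy => by simp only [mix, hξ y hy]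
    rw [pr_stop (fun ξ => U (f S (mix (U S) ξ ϖ) α)) fun ξ ξ' hξ => by rw [key ξ ξ' hξ],
      pr_eq_av (fun ξ : ι → κ => ∀ x ∈ J, x ∈ loc (f S (mix (U S) ξ ϖ) α) ∧ x ∉ loc S), ← av_mul]
    refine av_mono fun ξ => ?_
    have k1 : ∀ v, f S (mix (U S) (mix (U (f S (mix (U S) ξ ϖ) α)) v ξ) ϖ) α =
        f S (mix (U S) ξ ϖ) α := fun v => key ξ _ fun y hy => by simp only [mix, hy, if_false]
    split_ifs with c
    · rw [mul_one]
      refine le_trans (pr_mono fun z hz => ?_)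
        (h'.eb _ (h.post S (mix (U S) ξ ϖ) α hS) (mix (U S) ξ ϖ) (I \ J) (hs _ _ sdiff_subset hI))
      have h2 := hz.2
      simp only [e, Equiv.coe_fn_mk, k1] at h2
      rwa [mix_mix (h.sub S _ α)] at h2
    · rw [mul_zero]
      refine (pr_false fun z hz => c ?_).le
      have h2 := hz.1
      simpa only [e, Equiv.coe_fn_mk, k1] using h2

/-- iteration -/
theorem LocStep.seq [Nonempty κ] (hs : ∀ I J, J ⊆ I → sep I → sep J) (P : ℕ → σ → Prop) (v : ℕ → ℝ)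
    (T : ℕ) (h : ∀ t < T, ∃ (A : Type) (_ : Fintype A) (_ : Nonempty A) (f : σ → (ι → κ) → A → σ),
      LocStep U loc sep Q f (P t) (P (t + 1)) (v t)) :
    ∃ (A : Type) (_ : Fintype A) (_ : Nonempty A) (f : σ → (ι → κ) → A → σ),
      LocStep U loc sep Q f (P 0) (P T) (∑ t ∈ range T, v t) := by
  induction T with
  | zero =>
    exact ⟨Unit, inferInstance, inferInstance, _, by
      simpa using LocStep.det id (fun _ => Subset.rfl) (fun _ a => a) (fun _ _ _ a => a)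
        fun _ _ => Subset.rfl⟩
  | succ T ih =>
    obtain ⟨A, _, _, f, a⟩ := ih fun t ht => h t (by omega)
    obtain ⟨B, _, _, g, b⟩ := h T (by omega)
    exact ⟨A × B, inferInstance, inferInstance, _, sum_range_succ v T ▸ a.comp hs b⟩

end generic

variable {d M : ℕ} [NeZero M]

/-- the places of the events -/
def St.loc {ι : Type} [DecidableEq ι] (S : St ι) : Finset ι := S.ev.image fun ℓ => ℓ.2.2

theorem St.mem_loc {ι : Type} [DecidableEq ι] {S : St ι} {x : ι} :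
    x ∈ S.loc ↔ ∃ ℓ ∈ S.ev, ℓ.2.2 = x := mem_image

omit [NeZero M] in
theorem Sep.sub {r : ℕ} (I J : Finset (Tor d M)) (h : J ⊆ I) (hI : Sep I r) : Sep J r :=
  fun x hx y hy => hI x (h hx) y (h hy)

/-- a stage with one type of events is a step with located events -/
theorem LocStep.ofStage {E : Env d M} {st : Stage (Tor d M) E.N} {Pre Post : St (Tor d M) → Prop}
    {Q : St (Tor d M) → Cfg (Tor d M) E.N → Prop} {s r R : ℕ} {i : Fin 5} {a : ℝ} (h1 : st.Causal)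
    (h2 : st.Tag s {i}) (h3 : ∀ S ϖ α, Pre S → Post (st.run S ϖ α))
    (h4 : ∀ S ϖ α, Pre S → Q S ϖ → Q (st.run S ϖ α) ϖ) (h5 : EB E st Pre s i r a) (hr : r ≤ R) :
    LocStep St.U St.loc (fun I => Sep I (2 * R)) Q st.run Pre Post (exp (-a)) :=
  ⟨fun S ϖ α => (h1 S ϖ α).1, fun S ϖ α => (h1 S ϖ α).2, h3, h4, (exp_pos _).le,
    fun S hS ϖ I hI => by
      refine le_trans (pr_mono fun z hz x hx => ?_)
        (h5 S hS ϖ I fun x hx y hy c => lt_of_le_of_lt (by omega) (hI x hx y hy c))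
      obtain ⟨ℓ, b1, rfl⟩ := St.mem_loc.1 (hz x hx).1
      have b2 : ℓ ∉ S.ev := fun c => (hz _ hx).2 (St.mem_loc.2 ⟨ℓ, c, rfl⟩)
      obtain ⟨b3, b4⟩ := (h2 _ _ _).2 ℓ b1 b2
      rw [← b3, ← mem_singleton.1 b4]
      exact ⟨b1, b2⟩⟩

/-- all events become events of the initial stage -/
def St.relab {ι : Type} [DecidableEq ι] (S : St ι) : St ι :=
  { S with ev := S.loc.image fun x => (0, 4, x) }

/-- a step that starts from a state without events and ends in the invariant of round `0` is an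
initial stage -/
theorem LocStep.init {E : Env d M} {sc : Sched} {A : Type} [Fintype A]
    {f : St (Tor d M) → Cfg (Tor d M) E.N → A → St (Tor d M)} {Pre Post : St (Tor d M) → Prop}
    {Q : St (Tor d M) → Cfg (Tor d M) E.N → Prop} {w : ℝ}
    (h : LocStep St.U St.loc (fun I => Sep I (2 * sc.r0)) Q f Pre Post w) (hw : w ≤ exp (-sc.a0))
    {S0 : St (Tor d M)} (h0 : Pre S0) (hU : S0.U = univ) (he : S0.ev = ∅) (hQ : ∀ ϖ, Q S0 ϖ)
    (hc : ∀ S ϖ, Post S → Q S ϖ → Cons E S ϖ)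
    (hP : ∀ S, Post S → Inv E ((sc.q 0).bPre E.η) S ∧
      (Cover E S.omg → ∀ x ∈ S.junk, ∃ y ∈ S.loc, nm (y - x) ≤ sc.r0) ∧
      ∀ o ∈ E.Ω, o ∉ S.omg → ∃ y ∈ S.loc, nm (y - o) ≤ sc.r0) :
    Init E sc A fun ϖ τ => (f S0 ϖ τ).relab where
  causal := fun ϖ τ ϖ' e => by rw [h.causal S0 ϖ τ ϖ' e]
  inv := fun ϖ τ => by
    have a := (hP _ (h.post S0 ϖ τ h0)).1
    exact ⟨a.go, a.gj, a.oj, a.oΩ, a.gΩ, a.phys, a.opn, a.cls, a.oW, a.mis, a.ampA, a.ampB, a.lA,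
      a.lB, a.ul, a.rr, a.gs, a.dec, a.cov⟩
  cons := fun ϖ τ => hc (f S0 ϖ τ) ϖ (h.post S0 ϖ τ h0) (h.cons S0 ϖ τ h0 (hQ ϖ))
  tag := fun ϖ τ ℓ hℓ => by
    obtain ⟨x, -, rfl⟩ := mem_image.1 hℓ
    exact ⟨rfl, rfl⟩
  eb := fun I hI => by
    rcases isEmpty_or_nonempty (Cfg (Tor d M) E.N) with c | ⟨⟨ϖ⟩⟩
    · rw [pr_false fun z _ => c.elim z.1]
      positivity
    refine le_trans (pr_mono fun z hz x hx => ⟨?_, ?_⟩)
      ((h.eb S0 h0 ϖ I hI).trans (pow_le_pow_left₀ h.w0 hw _))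
    · obtain ⟨y, a, b⟩ := mem_image.1 (hz x hx)
      have e : mix S0.U z.1 ϖ = z.1 := funext fun y => if_pos (hU ▸ mem_univ y)
      have e2 : y = x := (Prod.ext_iff.1 (Prod.ext_iff.1 b).2).2
      rw [e, ← e2]
      exact a
    · simp [St.loc, he]
  junk := fun ϖ τ c x hx => by
    obtain ⟨y, a, b⟩ := (hP _ (h.post S0 ϖ τ h0)).2.1 c x hx
    exact ⟨(0, 4, y), mem_image_of_mem _ a, b⟩
  omg := fun ϖ τ o a b => by
    obtain ⟨y, a, b⟩ := (hP _ (h.post S0 ϖ τ h0)).2.2 o a b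
    exact ⟨(0, 4, y), mem_image_of_mem _ a, b⟩

end Pool.Agent.P.MP_d0f69c_mp.XS
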