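import Pool.Agent.P.MP_d0f69c_mp.XS.PTop
import Pool.Agent.P.MP_d0f69c_mp.XS.PSeq

/-!
The preparation stage along a schedule.
-/

set_option autoImplicit false

open Finset Real
open scoped Matrix

namespace Pool.Agent.P.MP_d0f69c_mp.XS.Pre

namespace PRun

variable {d M : ℕ} [NeZero M] {E : PEnv d M}

/-- the junk lies near the places of the events -/
def Nr (R : ℕ) (S : St (Tor d M)) : Prop := ∀ x ∈ S.junk, ∃ y ∈ S.loc, nm (y - x) ≤ R

/-- a step of the preparation stage -/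
def Stp (E : PEnv d M) (r0 : ℕ) (Pre Post : St (Tor d M) → Prop) (w : ℝ) : Prop :=
  ∃ (A : Type) (_ : Fintype A) (_ : Nonempty A)
    (f : St (Tor d M) → Cfg (Tor d M) E.N → A → St (Tor d M)),
    LocStep St.U St.loc (fun I => Sep I (2 * r0)) PCons f Pre Post w

variable {r0 R : ℕ} {Pre Mid Post : St (Tor d M) → Prop} {w w' : ℝ}

theorem Stp.comp (hE : E.OK) (h : Stp E r0 Pre Mid w) (h' : Stp E r0 Mid Post w') :
    Stp E r0 Pre Post (w + w') := by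
  have : Nonempty (Fin E.N) := ⟨⟨0, Nat.pos_of_ne_zero hE.env.N0⟩⟩
  obtain ⟨A, _, _, f, a⟩ := h
  obtain ⟨B, _, _, g, b⟩ := h'
  exact ⟨A × B, inferInstance, inferInstance, _, a.comp Sep.sub b⟩

theorem Stp.spec {q : PPar d M} {s r : ℕ} {st : Stage (Tor d M) E.N} {i : Fin 5}
    (h : PSpec E q s st Pre Post i r) (h1 : q.rad E.η ≤ r0) (h2 : r ≤ R) :
    Stp E r0 (fun S => Pre S ∧ Nr R S) (fun S => Post S ∧ Nr R S) (exp (-(q.P : ℝ) ^ 3)) :=
  ⟨st.A, inferInstance, inferInstance, st.run, LocStep.ofStage h.causal h.tag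
    (fun S ϖ α a => ⟨h.post S ϖ α a.1, fun x hx => by
      rcases h.junk S ϖ α a.1 x hx with c | ⟨ℓ, c, e⟩
      · obtain ⟨y, b1, b2⟩ := a.2 x c
        exact ⟨y, image_subset_image (h.tag S ϖ α).1 b1, b2⟩
      · exact ⟨_, St.mem_loc.2 ⟨ℓ, c, rfl⟩, e.trans h2⟩⟩)
    (fun S ϖ α a => h.cons S ϖ α a.1) (fun S a => h.eb S a.1) h1⟩

theorem Stp.det (h : ∀ S, Pre S → ∃ S', Post S' ∧ S'.U ⊆ S.U ∧ S'.O = S.O ∧ S'.sp = S.sp ∧
    S'.ev = S.ev) : Stp E r0 Pre Post 0 := by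
  classical
  choose! F a1 a2 a3 a4 a5 using h
  refine ⟨Unit, inferInstance, inferInstance, _, LocStep.det (fun S => if Pre S then F S else S)
    (fun S => ?_) (fun S a => ?_) (fun S ϖ a c x hx => ?_) fun S a => ?_⟩
  · split_ifs with a
    exacts [a2 S a, Subset.rfl]
  · rw [if_pos a]; exact a1 S a
  · rw [if_pos a] at hx ⊢
    rw [om, a4 S a]
    exact c x (a3 S a ▸ hx)
  · rw [if_pos a, St.loc, a5 S a]; exact Subset.rfl

open Classical in
theorem Nr.freeze {S : St (Tor d M)} (h : Nr R S) {nb : Finset (Tor d M)} {l : ℕ}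
    (hl : ∀ z ∈ nb, nm z ≤ l) :
    Nr (R + l) (S.freeze (univ.filter fun x => ∃ y ∈ S.junk, x - y ∈ nb)) := fun x hx => by
  rcases mem_union.1 hx with c | c
  · exact (h x c).imp fun y a => ⟨a.1, a.2.trans (Nat.le_add_right _ _)⟩
  · obtain ⟨y, a1, a2⟩ := (mem_filter.1 (mem_inter.1 c).2).2
    obtain ⟨z, b1, b2⟩ := h y a1
    exact ⟨z, b1, (nm_tri z y x).trans (add_le_add b2 (nm_comm y x ▸ hl _ a2))⟩

omit [NeZero M] in
theorem Nr.mono {S : St (Tor d M)} {R' : ℕ} (h : Nr R S) (e : R ≤ R') : Nr R' S := fun x hx =>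
  (h x hx).imp fun _ a => ⟨a.1, a.2.trans e⟩

theorem fr (S : St (Tor d M)) (J : Finset (Tor d M)) : (S.freeze J).U ⊆ S.U ∧
    (S.freeze J).O = S.O ∧ (S.freeze J).sp = S.sp ∧ (S.freeze J).ev = S.ev :=
  ⟨union_subset_union_left sdiff_subset, MonoA.freeze_O S J, rfl, rfl⟩

theorem of_iso {b : PB d M} {I : Finset (Tor d M)} {S : St (Tor d M)}
    (h : PInv E { b with iso := I } S) (e : b.iso = I) : PInv E b S := by
  subst e
  exact h

/-- one round, up to the isolation -/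
theorem round (h1 : S_PNEWTON) (h2 : S_PSELECT) (h3 : S_PCLOSE) (hE : E.OK) {q q' : PPar d M}
    (hq : q.OK E) (hn : q.Next E.η q') (s : ℕ) (hr : q.rad E.η ≤ r0) (hR : q.D E.η 3 ≤ R) :
    Stp E r0 (fun S => PInv E q.b0 S ∧ Nr R S)
      (fun S => PInv E { q'.b0 with iso := q.iso } S ∧ Nr R S) (2 * exp (-(q.P : ℝ) ^ 3)) := by
  obtain ⟨s2, a2⟩ := h2 d M E q hE hq s
  obtain ⟨s3, a3⟩ := h3 d M E q hE hq s
  have b1 : Stp E r0 (fun S => PInv E q.b0 S ∧ Nr R S)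
      (fun S => PInv E (q.b1 E.η) S ∧ Nr R S) 0 := Stp.det fun S a => by
    obtain ⟨W, c⟩ := h1 d M E q hE hq S a.1
    exact ⟨_, ⟨c, a.2⟩, Subset.rfl, rfl, rfl, rfl⟩
  obtain ⟨A, _, _, f, c⟩ := (b1.comp hE (Stp.spec a2 hr
    ((hq.par.D_mono hE.env (by norm_num)).trans hR))).comp hE (Stp.spec a3 hr hR)
  exact ⟨A, inferInstance, inferInstance, f, c.mono (fun _ a => a) (fun S a => ⟨t_pmono d M E _ _ S
    hE a.1 hn.θ hn.mis hn.H hn.n hn.nJ hn.B (hq.par.li_one hE.env 2) hn.l hn.sg hn.l1 hn.l2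
    Subset.rfl, a.2⟩) (le_of_eq (by ring))⟩

end PRun

open PRun in
theorem t_prun (h1 : S_PNEWTON) (h2 : S_PSELECT) (h3 : S_PCLOSE) (h4 : S_PCONV) : S_PRUN := by
  classical
  intro d M _ E q T1 T bd r0 a0 hE H h0
  have : Nonempty (Fin E.N) := ⟨⟨0, Nat.pos_of_ne_zero hE.env.N0⟩⟩
  set D := (q T).D E.η 3 with hD
  have lD : ∀ s ≤ T, (q s).l ≤ D := fun s hs => (((H.ok s hs).par.l_le_li hE.env 3).trans
    ((H.ok s hs).par.li_le_D hE.env 3)).trans (H.rad s hs).2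
  let R : ℕ → ℕ := fun s => if s < T1 then D else if s < T then D + D else D + D + D
  have iso : ∀ s ≤ T, ∀ (I : Finset (Tor d M)) (S : St (Tor d M)),
      PInv E { (q s).b0 with iso := I } S → _ := fun s hs I S a =>
    (t_piso d M E _ S hE a (H.ok s hs).par.θ0 ((H.ok s hs).par.θ_le.trans (by norm_num))).2 (by
      have := one_le_pow₀ (n := 3) ((H.ok s hs).par.Pone hE.env)
      rw [(H.ok s hs).Lv]; linarith)
  obtain ⟨A, _, _, f, c⟩ := LocStep.seq (U := St.U) (loc := St.loc) (Q := PCons (N := E.N))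
    (sep := fun I => Sep I (2 * r0)) Sep.sub (fun s S => PInv E (q s).b0 S ∧ Nr (R s) S)
    (fun s => 2 * exp (-((q s).P : ℝ) ^ 3)) T fun s hs => by
    have T1T := H.T1T
    have a := round (R := R s) h1 h2 h3 hE (H.ok s hs.le) (H.nx s hs) s (H.rad s hs.le).1
      ((H.rad s hs.le).2.trans (by simp only [R]; split_ifs <;> omega))
    rw [← add_zero (2 * exp _)]
    refine a.comp hE (Stp.det fun S b => ?_)
    by_cases c1 : s + 1 = T1
    · refine ⟨_, ⟨?_, (b.2.freeze fun z hz => ((H.ok _ hs).b1 z hz).trans (lD _ hs)).mono ?_⟩,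
        fr S _⟩
      · exact of_iso ((iso _ hs _ S b.1).1 (show (q (s + 1)).l1 < 1 from c1 ▸ H.l1))
          (H.i1 (s + 1) c1.ge (by omega))
      · simp only [R]; split_ifs <;> omega
    by_cases c2 : s + 1 = T
    · refine ⟨_, ⟨?_, (b.2.freeze fun z hz => ((H.ok _ hs).b2 z hz).trans (lD _ hs)).mono ?_⟩,
        fr S _⟩
      · exact of_iso ((iso _ hs _ S b.1).2 (show (q (s + 1)).l2 < 1 from c2 ▸ H.l2))
          (show (q (s + 1)).iso = _ from c2 ▸ H.last.iso)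
      · simp only [R]; split_ifs <;> omega
    refine ⟨S, ⟨?_, b.2.mono ?_⟩, Subset.rfl, rfl, rfl, rfl⟩
    · have e : (q s).iso = (q (s + 1)).iso := by
        by_cases c3 : s < T1
        · rw [H.i0 s c3, H.i0 _ (by omega)]
        · rw [H.i1 s (by omega) hs, H.i1 _ (by omega) (by omega)]
      exact of_iso b.1 e.symm
    · simp only [R]; split_ifs <;> omega
  choose! F f1 f2 f3 f4 f5 f6 using fun S => h4 d M E (q T) hE (H.ok T le_rfl) bd S H.last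
  have p0 : PInv E (q 0).b0 (St0 E) ∧ Nr (R 0) (St0 E) :=
    ⟨h0, fun x hx => absurd hx (notMem_empty x)⟩
  have p1 := fun ϖ τ => c.post (St0 E) ϖ τ p0
  have hU : (St0 E).U = univ := sdiff_union_of_subset (subset_univ _)
  have nr : ∀ ϖ τ x, (∃ y ∈ (f (St0 E) ϖ τ).junk, nm (y - x) ≤ (q T).D E.η 0) →
      ∃ ℓ ∈ (F (f (St0 E) ϖ τ)).relab.ev, nm (ℓ.2.2 - x) ≤ r0 := fun ϖ τ x ⟨y, a1, a2⟩ => by
    obtain ⟨z, b1, b2⟩ := (p1 ϖ τ).2 y a1
    refine ⟨(0, 4, z), mem_image_of_mem _ (by rwa [St.loc, f2 _ (p1 ϖ τ).1]), ?_⟩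
    have e1 := nm_tri z y x
    have e2 := (H.ok T le_rfl).par.D_mono hE.env (show 0 ≤ 3 by norm_num)
    have e3 := (H.rad T le_rfl).1
    have e4 : R T ≤ D + D + D := by simp only [R]; split_ifs <;> omega
    rw [Par.rad] at e3
    show nm (z - x) ≤ r0
    omega
  refine ⟨A, inferInstance, inferInstance, fun ϖ τ => (F (f (St0 E) ϖ τ)).relab,
    fun ϖ τ ϖ' e => ?_, fun ϖ τ => (f3 _ (p1 ϖ τ).1).congr rfl rfl rfl rfl rfl,
    fun ϖ τ => f4 _ (p1 ϖ τ).1 ϖ (c.cons _ ϖ τ p0 fun x hx => absurd ?_ hx), fun ϖ τ ℓ hℓ => ?_,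
    fun I hI => ?_, fun ϖ τ a x hx => nr ϖ τ x (f5 _ (p1 ϖ τ).1 a x hx),
    fun ϖ τ o a b => nr ϖ τ o (f6 _ (p1 ϖ τ).1 o a b)⟩
  · rw [c.causal _ ϖ τ ϖ' fun y hy => e y fun a => hy (f1 _ (p1 ϖ τ).1 a)]
  · exact mem_union_left _ (show x ∈ (St0 E).U from hU ▸ mem_univ x)
  · obtain ⟨x, -, rfl⟩ := mem_image.1 hℓ
    exact ⟨rfl, rfl⟩
  · refine le_trans (pr_mono fun z hz x hx => ⟨?_, ?_⟩)
      ((c.eb _ p0 (fun _ => (true, Classical.arbitrary _)) I hI).trans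
        (pow_le_pow_left₀ c.w0 H.a0 _))
    · obtain ⟨y, a, b⟩ := mem_image.1 (hz x hx)
      have e : mix (St0 E).U z.1 (fun _ => (true, Classical.arbitrary _)) = z.1 :=
        funext fun y => if_pos (hU ▸ mem_univ y)
      have e2 : y = x := (Prod.ext_iff.1 (Prod.ext_iff.1 b).2).2
      rw [e, ← e2]
      rwa [St.loc, f2 _ (p1 _ _).1] at a
    · simp [St.loc, St0]

end Pool.Agent.P.MP_d0f69c_mp.XS.Pre
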