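import Pool.Agent.P.MP_d0f69c_mp.XS.PIfT

/-!
The start of the preparatory flow.
-/

set_option autoImplicit false
set_option linter.dupNamespace false

open Finset Real
open scoped Matrix

namespace Pool.Agent.P.MP_d0f69c_mp.XS.Pre

namespace PSTA

variable {ι : Type} [Fintype ι] [DecidableEq ι]

/-- the row functional when nothing is closed -/
theorem zf (σ : Co ι) {m : ℝ} (m0 : 0 < m) (x : ι) (T : Finset ι) (hX : σ.X = ∅) (hd : σ.dh x = 0)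
    (K0 : ∀ x y, 0 ≤ σ.Kk x y) (K1 : ∀ x, ∑ y, σ.Kk x y ≤ 1) (rO : σ.rem ⊆ σ.Op) (TO : T ⊆ σ.Op)
    (rT : Disjoint σ.rem T) (keep : 1 / 100 ≤ ∑ z ∈ T, ‖σ.G x z‖ ^ 2)
    (row : ∑ z ∈ σ.Op, ‖σ.G x z‖ ^ 2 ≤ 1 + 1 / 10 ^ 6)
    (mis : x ∈ σ.rem ∪ σ.Sg → ‖σ.Γ x x‖ ≤ m) : σ.Zf m x ≤ 993 / 1000 := by
  have a1 : ∑ z ∈ σ.Op, σ.th z * ‖σ.G x z‖ ^ 2 ≤
      ∑ z ∈ σ.Op, ((if z ∈ σ.rem then ‖σ.G x z‖ ^ 2 else 0) + ‖σ.G x z‖ ^ 2 / 2000) :=
    sum_le_sum fun z _ => by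
      have b1 : σ.kr z ≤ 1 := (sum_le_univ_sum_of_nonneg fun v => K0 z v).trans (K1 z)
      have b2 := mul_le_mul_of_nonneg_right b1 (sq_nonneg ‖σ.G x z‖)
      rw [Co.th, Co.ir, hX, if_neg (notMem_empty z)]
      split_ifs <;> linarith
  rw [sum_add_distrib, ← sum_div, sum_ite_mem, inter_eq_right.2 rO] at a1
  have a2 : ∑ z ∈ σ.rem, ‖σ.G x z‖ ^ 2 + ∑ z ∈ T, ‖σ.G x z‖ ^ 2 ≤ ∑ z ∈ σ.Op, ‖σ.G x z‖ ^ 2 := by
    rw [← sum_union rT]
    exact sum_le_sum_of_subset_of_nonneg (union_subset rO TO) fun _ _ _ => sq_nonneg _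
  have a3 : (if x ∈ σ.rem ∪ σ.Sg then √(‖σ.Γ x x‖ ^ 2 + m ^ 2) / m else 0) ≤ 2 := by
    split_ifs with e
    · rw [div_le_iff₀ m0]
      have := mis e
      exact sqrt_le_iff.2 ⟨by linarith, by nlinarith [norm_nonneg (σ.Γ x x)]⟩
    · norm_num
  rw [Co.Zf, hX, union_empty, hd]
  linarith

end PSTA

theorem t_pst (h4 : S_PWD) (h5 : S_NMB) : S_PST := by
  intro d M _ E q S c Z Sg H N au sb pos hN
  have eG : ∀ x y, ((syOf E q S c Z Sg N au).co []).Γ x y = E.Γ0 S x y := fun x y =>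
    congrFun (congrFun (Γ_empty (E := E) (S := S) (ω := fun _ => true)) x) y
  have RO : ∀ x ∈ Rw E q S c, x ∈ S.O := fun x hx => (mem_inter.1 hx).1
  have Sgs : Sg ⊆ S.sig := H.hSg.trans inter_subset_left
  have K1 : ∀ x, ∑ y, q.Kk (x - y) ≤ 1 := fun x =>
    ((Equiv.subLeft x).sum_comp q.Kk).trans_le H.K1
  have k0 : 0 ≤ q.kap := H.nq.κ0
  have h0 : 0 ≤ q.hb := H.nq.h0
  have m0 : 0 < q.m1 := H.nq.m0
  have r0 : 0 ≤ q.ρ := zero_le_one.trans H.ρ1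
  have H1 : ∀ z, 0 ≤ q.H1 z := fun z => add_nonneg (H.H0 z) (by
    rw [PPar.δN]
    split_ifs
    exacts [by positivity, le_rfl])
  have H12 : ∀ z, q.H1 z ≤ q.H2 z := fun z => by
    have := mul_nonneg (show 0 ≤ 1000 * q.kap * q.ρ ^ 3 by positivity) (H1 z)
    rw [PPar.H2]
    linarith
  obtain ⟨op, row, -⟩ := h4 d M E q S c Z Sg H ∅ (empty_subset _) (fun _ => true) fun x hx => by
    rw [sdiff_empty] at hx
    have a : _ ≤ q.H1 (x - x) := H.inv.amp x hx x hx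
    have b := mul_pos H.nq.ε0 H.nq.η0
    rw [sub_self] at a
    rw [Γ_empty]
    change 0 < q.eps * E.η at b
    linarith [H12 0, H.H2]
  refine ⟨H.nq, fun x y => H.K0 _, K1,
    fun x y => mul_nonneg (sq_nonneg _) ((H1 _).trans (H12 _)), H.ZO,
    Sgs.trans (H.sel.sg.trans S.good_sub), H.disj, sb, pos, fun ξ ψ l l0 hl => ?_, fun φ => ?_,
    fun x hx => ?_, fun x hx => ?_, fun x hx => ?_, fun x hx => ?_, ?_⟩
  · exact ((h5 d M E.toEnv H.hE).2.2 ξ ψ l l0 hl).trans_eq (congrArg _ (hN ψ).symm)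
  · refine (H.KC φ).trans (le_trans ?_ (congrArg _ (hN φ)).ge)
    exact mul_le_mul H.C2 (le_add_of_nonneg_right (by positivity)) (NF_nonneg H.hE.ref.p0 φ)
      (Nat.cast_nonneg _)
  · refine PSTA.zf _ m0 x ((S.O \ (S.good \ S.sig)).erase x) rfl rfl (fun x y => H.K0 _) K1
      (sdiff_subset_sdiff H.ZO le_rfl) (fun z hz => mem_sdiff.2
        ⟨(mem_sdiff.1 (mem_of_mem_erase hz)).1, notMem_empty z⟩)
      (disjoint_left.2 fun z a b => (mem_sdiff.1 (mem_of_mem_erase b)).2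
        (mem_inter.1 (H.hZ (mem_sdiff.1 a).1)).1) ?_
      (row x (mem_sdiff.2 ⟨RO x hx, notMem_empty x⟩)) fun e => ?_
    · have a := H.sel.keep x (RO x hx)
      rwa [← G_empty (ω := fun _ => true)] at a
    · rw [eG]
      exact H.inv.mis x ((mem_union.1 e).elim (fun a => H.Zg (mem_sdiff.1 a).1)
        fun a => H.sel.sg (Sgs a))
  · simp only [eG]
    exact (sum_le_sum_of_subset_of_nonneg Sgs fun _ _ _ => by positivity).trans
      (H.sel.l4 x (RO x hx))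
  · simp only [eG]
    exact (sum_le_sum_of_subset_of_nonneg H.Zg fun _ _ _ => by positivity).trans
      (H.inv.l4 x (RO x hx))
  · simp only [eG]
    exact H.inv.lJ x (RO x hx)
  · exact op.sub (by rw [sdiff_empty]; exact H.ZO)

end Pool.Agent.P.MP_d0f69c_mp.XS.Pre
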