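import Pool.Agent.P.MP_d0f69c_mp.XS.PLev

/-!
The selection for a Green function `G = al + Γ`.
-/

set_option autoImplicit false

open Finset Real

namespace Pool.Agent.P.MP_d0f69c_mp.XS.Pre

variable {ι : Type} [DecidableEq ι]

/-- the data of the selection that belong to the kernel `Γ` -/
noncomputable def sdG (Gd O Om : Finset ι) (B N1 N2 : ι → Finset ι) (L l1 l2 n : ℝ)
    (Γ : ι → ι → ℂ) : SD ι :=
  ⟨Gd, O, Om, B, N1, N2, L, l1, l2, fun x => ∑ z ∈ (O \ Gd).erase x, ‖Γ x z‖ ^ 2,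
    fun x z => ‖Γ x z‖ ^ 2, fun x z => ‖Γ x z‖ ^ 4, 19 / 20, n⟩

/-- the hypotheses of the selection; `a` is the cost of a failure -/
structure SelH (Gd O Om : Finset ι) (B N1 N2 : ι → Finset ι) (L l1 l2 n γ a : ℝ)
    (G al : ι → ι → ℂ) : Prop where
  gO : Gd ⊆ O
  self : ∀ x, x ∈ B x
  s1 : ∀ x y, x ∈ N1 y → y ∈ N1 x
  s2 : ∀ x y, x ∈ N2 y → y ∈ N2 x
  b1 : ∀ x, N1 x ⊆ B x
  b2 : ∀ x, N2 x ⊆ B x
  one : ∀ x, ∀ o ∈ Om, ∀ o' ∈ Om, ∀ y ∈ B x, ∀ y' ∈ B x, y ∈ B o → y' ∈ B o' → o = o'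
  lev1 : Lev N1 L l1 Gd Om
  lev2 : Lev N2 L l2 Gd Om
  a1 : 12 ≤ a
  aL : 50 * a ≤ L
  n0 : 0 < n
  nL : 10 ^ 7 * a * (2 * L + 1) ^ 2 * n ≤ 1
  γ0 : 0 < γ
  γn : 10 ^ 5 * a * γ ^ 4 ≤ n
  mass : ∀ x ∈ O, 99 / 100 ≤ ∑ y ∈ O.erase x, ‖G x y‖ ^ 2
  al2 : ∀ x ∈ O, ∑ y ∈ O.erase x, ‖al x y‖ ^ 2 ≤ 1 / 10 ^ 6
  amp : ∀ x ∈ O, ∀ y ∈ Gd ∩ B x, ‖G x y - al x y‖ ≤ γ
  l4 : ∀ x ∈ O, ∑ y ∈ Gd.erase x, ‖G x y - al x y‖ ^ 4 ≤ n
  t2 : ∀ x ∈ O, ∑ y ∈ Gd \ B x, ‖G x y - al x y‖ ^ 2 ≤ 1 / 100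
  t4 : ∀ x ∈ O, ∑ y ∈ Gd \ B x, ‖G x y - al x y‖ ^ 4 ≤ n / 400

omit [DecidableEq ι] in
theorem sq_split (s : Finset ι) (f g : ι → ℂ) : ∑ y ∈ s, ‖f y‖ ^ 2 ≤
    101 / 100 * ∑ y ∈ s, ‖f y - g y‖ ^ 2 + 101 * ∑ y ∈ s, ‖g y‖ ^ 2 := by
  rw [mul_sum, mul_sum, ← sum_add_distrib]
  refine sum_le_sum fun y _ => ?_
  have h := norm_add_le (f y - g y) (g y)
  rw [sub_add_cancel] at h
  nlinarith [pow_le_pow_left₀ (norm_nonneg _) h 2, sq_nonneg (‖f y - g y‖ - 100 * ‖g y‖)]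

namespace SelH

variable {Gd O Om : Finset ι} {B N1 N2 : ι → Finset ι} {L l1 l2 n γ a : ℝ} {G al : ι → ι → ℂ}

theorem ok (h : SelH Gd O Om B N1 N2 L l1 l2 n γ a G al) :
    (sdG Gd O Om B N1 N2 L l1 l2 n fun x y => G x y - al x y).OK n (γ ^ 4 * n) := by
  have a1 := h.a1
  have aL := h.aL
  have n0 := h.n0
  have γ0 := h.γ0
  have s : ∀ x, (Gd ∩ B x).erase x ⊆ Gd.erase x := fun x => erase_subset_erase _ inter_subset_left
  have u : ∀ x ∈ O, ∑ y ∈ (Gd ∩ B x).erase x, ‖G x y - al x y‖ ^ 4 ≤ n := fun x hx =>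
    (sum_le_sum_of_subset_of_nonneg (s x) fun _ _ _ => by positivity).trans (h.l4 x hx)
  refine ⟨h.self, h.s1, h.s2, h.b1, h.b2, h.one, show 1 ≤ L by linarith, h.lev1, h.lev2, n0,
    by positivity, show (0 : ℝ) ≤ 19 / 20 by norm_num, n0.le,
    fun x _ => sum_nonneg fun _ _ => sq_nonneg _, fun _ _ => sq_nonneg _,
    fun x y => show 0 ≤ ‖G x y - al x y‖ ^ 4 by positivity, fun x hx => ?_,
    fun x hx => by simpa only [sdG, ← pow_mul] using u x hx, ?_, u, fun x hx => ?_⟩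
  · change (19 / 20 : ℝ) ≤ ∑ z ∈ (O \ Gd).erase x, ‖G x z - al x z‖ ^ 2 +
      ∑ z ∈ (Gd ∩ B x).erase x, ‖G x z - al x z‖ ^ 2
    have b1 := sq_split (O.erase x) (G x) (al x)
    have b2 : ∑ z ∈ O.erase x, ‖G x z - al x z‖ ^ 2 ≤ ∑ z ∈ (O \ Gd).erase x, ‖G x z - al x z‖ ^ 2 +
        (∑ z ∈ (Gd ∩ B x).erase x, ‖G x z - al x z‖ ^ 2 + ∑ z ∈ Gd \ B x, ‖G x z - al x z‖ ^ 2) := by
      have e : ∀ s t : Finset ι, ∑ z ∈ s ∪ t, ‖G x z - al x z‖ ^ 2 ≤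
          ∑ z ∈ s, ‖G x z - al x z‖ ^ 2 + ∑ z ∈ t, ‖G x z - al x z‖ ^ 2 := fun s t => by
        rw [← sum_union_inter]
        exact le_add_of_nonneg_right (sum_nonneg fun _ _ => sq_nonneg _)
      refine le_trans (sum_le_sum_of_subset_of_nonneg (fun y hy => ?_) fun _ _ _ => sq_nonneg _)
        ((e _ _).trans (add_le_add le_rfl (e _ _)))
      simp only [mem_union, mem_erase, mem_sdiff, mem_inter] at hy ⊢
      by_cases c1 : y ∈ Gd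
      · by_cases c2 : y ∈ B x
        exacts [.inr (.inl ⟨hy.1, c1, c2⟩), .inr (.inr ⟨c1, c2⟩)]
      · exact .inl ⟨hy.1, hy.2, c1⟩
    linarith [h.mass x hx, h.al2 x hx, h.t2 x hx]
  · change 800 * L * n ≤ (19 / 20) ^ 2
    have b1 : 1000 * L ≤ 10 ^ 7 * a * (2 * L + 1) ^ 2 := by
      have : L ≤ (2 * L + 1) ^ 2 := by nlinarith
      nlinarith
    linarith [mul_le_mul_of_nonneg_right b1 n0.le, h.nL]
  · refine le_trans (sum_le_sum fun y hy => ?_) ((mul_sum _ _ _).ge.trans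
      (mul_le_mul_of_nonneg_left (u x hx) (by positivity)))
    rw [sq]
    exact mul_le_mul_of_nonneg_right (pow_le_pow_left₀ (norm_nonneg _)
      (h.amp x hx y (mem_of_mem_erase hy)) 4) (show 0 ≤ ‖G x y - al x y‖ ^ 4 by positivity)

variable [Fintype ι]

/-- failures are rare -/
theorem rare (h : SelH Gd O Om B N1 N2 L l1 l2 n γ a G al) (x : ι) :
    pr ((sdG Gd O Om B N1 N2 L l1 l2 n fun x y => G x y - al x y).Fail x) ≤ exp (-a) := by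
  have a1 := h.a1
  have aL := h.aL
  have n0 := h.n0
  have γ0 := h.γ0
  refine (h.ok.rare x).trans ?_
  change 2 * exp (-L / 40) + exp (-(n / 128) ^ 2 / (2 * (γ ^ 4 * n))) +
    exp (-(19 / 20 / 1000) ^ 2 / (2 * ((2 * L + 1) ^ 2 * n))) ≤ _
  have b1 : exp (-L / 40) ≤ exp (-(5 / 4 * a)) := exp_le_exp.2 (by linarith)
  have b2 : exp (-(n / 128) ^ 2 / (2 * (γ ^ 4 * n))) ≤ exp (-(5 / 4 * a)) := exp_le_exp.2 (by
    rw [div_le_iff₀ (by positivity)]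
    nlinarith [mul_le_mul_of_nonneg_right h.γn n0.le, mul_pos n0 n0])
  have b3 : exp (-(19 / 20 / 1000) ^ 2 / (2 * ((2 * L + 1) ^ 2 * n))) ≤ exp (-(5 / 4 * a)) :=
    exp_le_exp.2 (by
      have : 0 < 2 * L + 1 := by linarith
      rw [div_le_iff₀ (by positivity)]
      linarith [h.nL])
  have b4 : exp (-a) = exp (a / 4) * exp (-(5 / 4 * a)) := by rw [← exp_add]; congr 1; ring
  have b5 : 4 ≤ exp (a / 4) := by linarith [add_one_le_exp (a / 4)]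
  nlinarith [exp_pos (-(5 / 4 * a))]

/-- the fourth moment on the survivors -/
theorem thin (h : SelH Gd O Om B N1 N2 L l1 l2 n γ a G al) (w : ι → Fin 64) {x : ι} (hx : x ∈ O) :
    ∑ y ∈ (sdG Gd O Om B N1 N2 L l1 l2 n fun x y => G x y - al x y).sig w,
      ‖G x y - al x y‖ ^ 4 ≤ n / 32 := by
  have b := h.ok.thin w hx
  have s : (sdG Gd O Om B N1 N2 L l1 l2 n fun x y => G x y - al x y).sig w ⊆ Gd :=
    SD.sig_sub.trans sdiff_subset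
  change ∑ y ∈ (_ ∩ B x).erase x, ‖G x y - al x y‖ ^ 4 ≤ n / 40 at b
  generalize (sdG Gd O Om B N1 N2 L l1 l2 n fun x y => G x y - al x y).sig w = S at b s
  have b1 := (sum_le_sum_of_subset_of_nonneg (f := fun y => ‖G x y - al x y‖ ^ 4)
    (sdiff_subset_sdiff s subset_rfl) fun _ _ _ => by positivity).trans (h.t4 x hx)
  have b2 : γ ^ 4 ≤ n / 400 := by nlinarith [h.γn, h.a1, pow_pos h.γ0 4]
  rw [← sum_inter_add_sum_sdiff S (B x)]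
  by_cases c : x ∈ S ∩ B x
  · rw [← add_sum_erase _ _ c]
    have := pow_le_pow_left₀ (norm_nonneg _) (h.amp x hx x (inter_subset_inter_right s c)) 4
    linarith [h.n0]
  · rw [erase_eq_of_notMem c] at b
    linarith [h.n0]

/-- the mass on the sites that stay open -/
theorem keep (h : SelH Gd O Om B N1 N2 L l1 l2 n γ a G al) (w : ι → Fin 64) {x : ι} (hx : x ∈ O) :
    1 / 100 ≤ ∑ y ∈ (O \ ((Gd \ (sdG Gd O Om B N1 N2 L l1 l2 n fun x y => G x y - al x y).frz w) \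
      (sdG Gd O Om B N1 N2 L l1 l2 n fun x y => G x y - al x y).sig w)).erase x, ‖G x y‖ ^ 2 := by
  have b := h.ok.keep w hx
  have s : (sdG Gd O Om B N1 N2 L l1 l2 n fun x y => G x y - al x y).sig w ⊆ Gd :=
    SD.sig_sub.trans sdiff_subset
  change (19 / 20 : ℝ) / 85 ≤ ∑ z ∈ (O \ Gd).erase x, ‖G x z - al x z‖ ^ 2 +
    ∑ z ∈ ((_ ∪ Gd ∩ _) ∩ B x).erase x, ‖G x z - al x z‖ ^ 2 at b
  generalize (sdG Gd O Om B N1 N2 L l1 l2 n fun x y => G x y - al x y).sig w = S at b s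
  generalize (sdG Gd O Om B N1 N2 L l1 l2 n fun x y => G x y - al x y).frz w = F at b
  have g : ∀ y ∈ ((S ∪ Gd ∩ F) ∩ B x).erase x, y ∈ Gd ∧ (y ∈ S ∨ y ∈ F) := fun y hy =>
    (mem_union.1 (mem_inter.1 (mem_of_mem_erase hy)).1).elim (fun c => ⟨s c, .inl c⟩)
      fun c => ⟨(mem_inter.1 c).1, .inr (mem_inter.1 c).2⟩
  rw [← sum_union (disjoint_left.2 fun y h1 h2 =>
    (mem_sdiff.1 (mem_of_mem_erase h1)).2 (g y h2).1)] at b
  have b1 := b.trans (sum_le_sum_of_subset_of_nonneg (t := (O \ ((Gd \ F) \ S)).erase x)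
    (fun y hy => ?_) fun _ _ _ => sq_nonneg _)
  · have b2 := sq_split ((O \ ((Gd \ F) \ S)).erase x) (fun y => G x y - al x y) fun y => -al x y
    simp only [sub_neg_eq_add, sub_add_cancel, norm_neg] at b2
    have b3 := (sum_le_sum_of_subset_of_nonneg (f := fun y => ‖al x y‖ ^ 2)
      (erase_subset_erase x (sdiff_subset (t := (Gd \ F) \ S))) fun _ _ _ => sq_nonneg _).trans
      (h.al2 x hx)
    linarith
  · rcases mem_union.1 hy with c | c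
    · exact mem_erase.2 ⟨(mem_erase.1 c).1, mem_sdiff.2 ⟨(mem_sdiff.1 (mem_of_mem_erase c)).1,
        fun e => (mem_sdiff.1 (mem_of_mem_erase c)).2 (mem_sdiff.1 (mem_sdiff.1 e).1).1⟩⟩
    · exact mem_erase.2 ⟨(mem_erase.1 c).1, mem_sdiff.2 ⟨h.gO (g y c).1, fun e => (g y c).2.elim
        (mem_sdiff.1 e).2 (mem_sdiff.1 (mem_sdiff.1 e).1).2⟩⟩

end SelH

end Pool.Agent.P.MP_d0f69c_mp.XS.Pre
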