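import Pool.Agent.P.MP_d0f69c_mp.XS.PIf
import Pool.Agent.P.MP_d0f69c_mp.XS.PSelG
import Pool.Agent.P.MP_d0f69c_mp.XS.Class
import Pool.Agent.P.MP_d0f69c_mp.XS.Far
import Pool.Agent.P.MP_d0f69c_mp.XS.Loci
import Pool.Agent.P.MP_d0f69c_mp.XS.Mono

/-!
The selection step of a round of the preparation stage.
-/

set_option autoImplicit false

open Finset Real
open scoped Matrix

namespace Pool.Agent.P.MP_d0f69c_mp.XS.Pre

variable {d M : ℕ} [NeZero M]

/-- freezing preserves the invariant -/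
theorem PSl.freeze {E : PEnv d M} {b : PB d M} {S : St (Tor d M)} (h : PInv E b S) (h0 : 0 ≤ b.θ)
    (h1 : b.θ ≤ 1) (J : Finset (Tor d M)) : PInv E b (S.freeze J) := by
  have hO := MonoA.freeze_O S J
  have hs : S.good \ J ⊆ S.good := sdiff_subset
  have e1 : E.Γ0 (S.freeze J) = E.Γ0 S := by rw [PEnv.Γ0, hO]; rfl
  have e2 : E.G0 (S.freeze J) = E.G0 S := by rw [PEnv.G0, hO]; rfl
  have e3 : E.a0 (S.freeze J) = E.a0 S := by rw [PEnv.a0, hO]; rfl
  constructor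
  case go => exact h.go.mono_left hs
  case gj => exact disjoint_union_right.2 ⟨h.gj.mono_left hs, disjoint_left.2 fun x a b =>
    (mem_sdiff.1 a).2 (mem_inter.1 b).2⟩
  case oj => exact disjoint_union_right.2 ⟨h.oj, h.go.symm.mono_right inter_subset_left⟩
  case mis => rw [e1]; exact fun x hx => h.mis x (hs hx)
  case l4 =>
    rw [hO, e1]
    exact fun x hx => (sum_le_sum_of_subset_of_nonneg hs fun _ _ _ => by positivity).trans
      (h.l4 x hx)
  case rr => rw [e2]; exact h.rr.compress h0 h1 hs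
  case oΩ => exact h.oΩ
  case sg => exact h.sg
  case lev1 => exact h.lev1.mono hs Subset.rfl le_rfl
  case lev2 => exact h.lev2.mono hs Subset.rfl le_rfl
  case iso => rw [hO]; exact fun v hv => h.iso v (hs hv)
  all_goals
    simp only [hO, e1, e2, e3]
    obtain ⟨⟩ := h
    assumption

/-- what the selection uses -/
structure PSH (E : PEnv d M) (q : PPar d M) : Prop where
  hE : E.toEnv.OK
  hq : q.toPar.OK E.toEnv
  fin : q.fin = false
  cov : Cover E.toEnv E.Ω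
  s1 : ∀ z ∈ E.nb1, -z ∈ E.nb1 ∧ nm z ≤ q.l
  s2 : ∀ z ∈ E.nb2, -z ∈ E.nb2 ∧ nm z ≤ q.l
  aL : 50 * (q.P : ℝ) ^ 3 ≤ E.Lv
  n0 : exp (-(q.P : ℝ) ^ 6) ≤ q.n4
  nL : 10 ^ 7 * (q.P : ℝ) ^ 3 * (2 * E.Lv + 1) ^ 2 * q.n4 ≤ 1
  γ0 : 0 < q.gam
  γn : 10 ^ 5 * (q.P : ℝ) ^ 3 * q.gam ^ 4 ≤ q.n4
  H1 : ∀ z, q.H1 z ≤ q.gam
  smk : ∀ S, PInv E (q.b1 E.η) S → SmK (fun x y => (2 * nm (x - y) : ℝ) / q.l) (E.ker S) (1 / 100)
  a1 : ∀ S, PInv E (q.b1 E.η) S → ∀ x ∈ S.O, |E.a0 S x - 1| ≤ 1 / 10 ^ 6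
  al2 : ∀ S, PInv E (q.b1 E.η) S → ∀ x ∈ S.O,
    ∑ y ∈ S.O.erase x, ‖al (E.ker S) S.O (om S) x y‖ ^ 2 ≤ 1 / 10 ^ 6

namespace PSl

variable (E : PEnv d M) (q : PPar d M) (S : St (Tor d M))

/-- the data of the selection -/
noncomputable def sd : SD (Tor d M) :=
  sdG S.good S.O S.omg (fun x => bl x (q.D E.η 1)) (Nb E.nb1) (Nb E.nb2) E.Lv q.l1 q.l2 q.n4
    fun x y => E.G0 S x y - al (E.ker S) S.O (om S) x y

open Classical in
/-- the state after the selection -/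
noncomputable def out (s : ℕ) (w : Tor d M → Fin 64) : St (Tor d M) :=
  { S.freeze ((sd E q S).frz w) with
    sig := (sd E q S).sig w
    ev := S.ev ∪ (univ.filter fun x => (sd E q S).Fail x w).image fun x => (s, 0, x) }

variable {E q S}

theorem mem_ev {s : ℕ} {w : Tor d M → Fin 64} {ℓ : Lab (Tor d M)} : ℓ ∈ (out E q S s w).ev ↔
    ℓ ∈ S.ev ∨ ∃ x, (sd E q S).Fail x w ∧ (s, 0, x) = ℓ := by
  simp only [out, mem_union, mem_image, mem_filter, mem_univ, true_and]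

theorem out_O {s : ℕ} {w : Tor d M → Fin 64} : (out E q S s w).O = S.O := MonoA.freeze_O S _

theorem nb_symm {nb : Finset (Tor d M)} {l : ℕ} (h : ∀ z ∈ nb, -z ∈ nb ∧ nm z ≤ l) (x y : Tor d M)
    (a : x ∈ Nb nb y) : y ∈ Nb nb x := by
  simp only [Nb, mem_filter, mem_univ, true_and] at a ⊢
  simpa using (h _ a).1

theorem selH (h : PSH E q) (hI : PInv E (q.b1 E.η) S) :
    SelH S.good S.O S.omg (fun x => bl x (q.D E.η 1)) (Nb E.nb1) (Nb E.nb2) E.Lv q.l1 q.l2 q.n4 q.gam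
      ((q.P : ℝ) ^ 3) (E.G0 S) (al (E.ker S) S.O (om S)) := by
  have hE := h.hE
  have hq := h.hq
  have P9 := hq.P9 hE
  have P1 := hq.Pone hE
  have k := h.smk S hI
  have gO : S.good ⊆ S.O := fun x hx => mem_union_left _ (mem_union_left _ hx)
  have lD : q.l ≤ q.D E.η 1 := (hq.l_le_li hE 1).trans (hq.li_le_D hE 1)
  have nb : ∀ {nb : Finset (Tor d M)}, (∀ z ∈ nb, -z ∈ nb ∧ nm z ≤ q.l) →
      ∀ x, Nb nb x ⊆ bl x (q.D E.η 1) := fun g x y hy =>
    mem_bl.2 ((g _ (mem_filter.1 hy).2).2.trans lD)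
  have hF := ((t_far d M E.toEnv q.toPar hE hq).2 1 (by norm_num)).1
  have t1 : ∀ x ∈ S.O, ∑ y ∈ S.good \ bl x (q.D E.η 1),
      ‖E.G0 S x y - al (E.ker S) S.O (om S) x y‖ ≤ 2 * q.τ := fun x hx => by
    have g : ∀ y ∈ S.good \ bl x (q.D E.η 1), q.D E.η 1 < nm (x - y) := fun y hy => by
      rw [nm_comm]; exact not_le.1 fun c => (mem_sdiff.1 hy).2 (mem_bl.2 c)
    have a1 := ClassA.far_sum (hq.li_one hE 1) hI.dec (exp_pos _).le (hq.Bi_le (by norm_num)) hF hx g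
    have a2 := ClassA.far_sum (G := al (E.ker S) S.O (om S)) (O := S.O) (B := 1) (hq.li_one hE 1)
      (fun x _ z => ((k.wal S.O (om S)).entry k.pm x z).trans (mul_le_mul (by norm_num)
        (exp_le_exp.2 ?_) (exp_pos _).le zero_le_one)) (exp_pos _).le
      (one_le_exp (by positivity)) hF hx g
    · refine (sum_le_sum fun y _ => norm_sub_le _ _).trans ?_
      rw [sum_add_distrib]; linarith
    · have b0 : (0 : ℝ) ≤ nm (x - z) := Nat.cast_nonneg _
      rw [neg_div, neg_le_neg_iff]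
      exact div_le_div₀ (by linarith) (by linarith) (by exact_mod_cast hq.l_one hE)
        (by exact_mod_cast hq.l_le_li hE 1)
  have t2 : 1000 * q.τ ≤ exp (-(q.P : ℝ) ^ 6) := by
    have a1 := hq.τ_mul hE (c := 1) (c' := 1) (by norm_num)
    have a2 : (1000 : ℝ) ≤ exp (1 * (q.P : ℝ) ^ 6) := by
      linarith [add_one_le_exp (1 * (q.P : ℝ) ^ 6), le_self_pow₀ P1 (n := 6) (by norm_num)]
    rw [one_mul ((q.P : ℝ) ^ 6)] at a1 a2
    linarith [mul_le_mul_of_nonneg_left a2 (Par.OK.τpos q.toPar).le]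
  have t3 : exp (-(q.P : ℝ) ^ 6) ≤ 1 := exp_le_one_iff.2 (neg_nonpos.2 (by positivity))
  have t4 : ∀ x ∈ S.O, ∀ j : ℕ, ∑ y ∈ S.good \ bl x (q.D E.η 1),
      ‖E.G0 S x y - al (E.ker S) S.O (om S) x y‖ ^ (j + 1) ≤ 2 * q.τ := fun x hx j =>
    (sum_le_sum fun y hy => pow_le_of_le_one (norm_nonneg _) ((single_le_sum
      (f := fun y => ‖E.G0 S x y - al (E.ker S) S.O (om S) x y‖) (fun _ _ => norm_nonneg _) hy).trans
        ((t1 x hx).trans (by linarith))) (Nat.succ_ne_zero j)).trans (t1 x hx)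
  refine ⟨gO, fun x => self_bl x _, nb_symm h.s1, nb_symm h.s2, nb h.s1, nb h.s2,
    fun x o ho o' ho' y hy y' hy' a b => ?_, hI.lev1, hI.lev2,
    le_trans (by linarith) (le_self_pow₀ P1 three_ne_zero), h.aL, (exp_pos _).trans_le h.n0, h.nL,
    h.γ0, h.γn, fun x hx => ?_, h.al2 S hI,
    fun x hx y hy => (hI.amp x hx y (gO (mem_inter.1 hy).1)).trans (h.H1 _), fun x hx =>
      (sum_le_sum_of_subset_of_nonneg (erase_subset _ _) fun _ _ _ => by positivity).trans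
        (hI.l4 x hx), fun x hx => (t4 x hx 1).trans (by linarith),
    fun x hx => (t4 x hx 3).trans (by linarith [h.n0, Par.OK.τpos q.toPar])⟩
  · by_contra e
    have a1 := hE.sep o (hI.oΩ ▸ ho) o' (hI.oΩ ▸ ho') e
    have a2 := (hq.vj h.fin).2
    have a3 := hq.D_mono hE (i := 1) (j := 3) (by norm_num)
    have a4 := hq.D_one hE 1
    have a5 := nm_tri o y o'
    have a6 := nm_tri y x o'
    have a7 := nm_tri x y' o'
    rw [mem_bl] at hy hy' a b
    rw [nm_comm] at a hy'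
    omega
  · have hs : ∀ x y, E.G0 S x y = E.G0 S y x := fun x y => by
      have e : (cr E.H + Ww (E.ker S) S.O (om S))ᵀ = cr E.H + Ww (E.ker S) S.O (om S) := by
        rw [Matrix.transpose_add, k.kok.Ww_T]
        congr 1
        ext a b
        simp only [cr, Matrix.transpose_apply, hE.symm a b]
      have e' := Matrix.transpose_nonsing_inv (cr E.H + Ww (E.ker S) S.O (om S))
      rw [e] at e'
      exact congrFun (congrFun e' y) x
    obtain ⟨c, hp⟩ := t_pci d M E.toEnv _ S.O S.omg _ hE (fun x y => by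
      simp only [Kw, hs x y]; ring) hI.ul (add_nonneg hq.θ0 (by positivity))
      ((hq.θ_add hE (c := 1) (by norm_num)).trans (by norm_num))
      (fun x hx => mem_union_left _ (mem_union_right _ hx)) (hI.oΩ ▸ h.cov)
    have a1 := (hp.deg hx).1.trans (sum_le_sum (g := fun y => 1001 / 1000 * ‖E.G0 S x y‖ ^ 2)
      fun y hy => mul_le_mul_of_nonneg_right (by
        have b1 := abs_le.1 (h.a1 S hI x hx)
        have b2 := abs_le.1 (h.a1 S hI y (mem_of_mem_erase hy))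
        nlinarith [b1.1, b1.2, b2.1, b2.2]) (sq_nonneg _))
    rw [← mul_sum] at a1
    linarith

end PSl

open PSl in
theorem psel_of {E : PEnv d M} {q : PPar d M} (s : ℕ) (h : PSH E q) :
    ∃ st : Stage (Tor d M) E.N, PSpec E q s st (PInv E (q.b1 E.η))
      (fun S => PInv E (q.b1 E.η) S ∧ PSel E q S) 0 (q.D E.η 1) := by
  have hE := h.hE
  have hq := h.hq
  refine ⟨⟨Tor d M → Fin 64, inferInstance, inferInstance, fun S _ w => out E q S s w⟩,
    fun S ϖ w => ⟨union_subset_union_left sdiff_subset, fun _ _ => rfl⟩,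
    fun S ϖ w => ⟨subset_union_left, fun ℓ hl hn => ?_⟩, fun S ϖ w hI => ?_,
    fun S ϖ w _ hc x hx => hc x fun g => hx (out_O.symm.subset g), fun S hI ϖ I hs => ?_,
    fun S ϖ w _ x hx => ?_⟩
  · obtain ⟨x, -, rfl⟩ := (mem_ev.1 hl).resolve_left hn
    exact ⟨rfl, mem_singleton_self _⟩
  · have H := selH h hI
    have e1 : E.Γ0 (out E q S s w) = E.Γ0 S := by rw [PEnv.Γ0, out_O]; rfl
    have e2 : E.G0 (out E q S s w) = E.G0 S := by rw [PEnv.G0, out_O]; rfl
    refine ⟨{ PSl.freeze hI (add_nonneg hq.θ0 (by positivity))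
      ((hq.θ_add hE (c := 1) (by norm_num)).trans (by norm_num)) ((sd E q S).frz w) with },
      SD.sig_sub, ?_, ?_, H.ok.out1 w, H.ok.out2 w⟩
    · rw [out_O, e2]
      exact fun x hx => H.keep w hx
    · rw [out_O, e1]
      exact fun x hx => (H.thin w hx).trans (by linarith [H.n0])
  · have : Nonempty (Fin E.N) := ⟨⟨0, Nat.pos_of_ne_zero hE.N0⟩⟩
    have H := selH h hI
    have a1 : 2 * (2 * q.D E.η 1) ≤ 2 * q.rad E.η := by
      have := hq.D_mono hE (i := 1) (j := 3) (by norm_num)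
      unfold Par.rad
      omega
    calc _ ≤ pr (fun z : Cfg (Tor d M) E.N × (Tor d M → Fin 64) =>
          ∀ x ∈ I, (sd E q S).Fail x z.2) := pr_mono fun z hz x hx => by
            obtain ⟨y, hy, e⟩ := (mem_ev.1 (hz x hx).1).resolve_left (hz x hx).2
            obtain rfl : y = x := congrArg (fun ℓ => ℓ.2.2) e
            exact hy
      _ = pr (fun w : Tor d M → Fin 64 => ∀ x ∈ I, (sd E q S).Fail x w) :=
          pr_snd fun w : Tor d M → Fin 64 => ∀ x ∈ I, (sd E q S).Fail x w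
      _ ≤ _ := H.ok.joint H.rare (R := fun x => bl x (2 * q.D E.η 1)) (fun x y hy z hz => by
          have b1 := mem_bl.1 hy
          have b2 := mem_bl.1 hz
          have b3 := nm_tri z y x
          exact mem_bl.2 (by omega)) fun x hx y hy hn => hs.disj a1 hx hy hn
  · refine (mem_union.1 hx).imp id fun g => ?_
    obtain ⟨y, hy, hn⟩ := SD.mem_frz.1 (mem_inter.1 g).2
    exact ⟨(s, 0, y), mem_ev.2 (Or.inr ⟨y, hy, rfl⟩), (nm_comm _ _).trans_le (mem_bl.1 hn)⟩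

theorem PPar.OK.psh {E : PEnv d M} {q : PPar d M} (h : q.OK E) (hE : E.OK) : PSH E q := by
  have P9 := h.par.P9 hE.env
  have P1 := h.par.Pone hE.env
  have P0 := h.par.Ppos hE.env
  have k0 := h.k0
  have ρ1 := h.ρ1
  have hb : 0 < q.hb := by linarith [h.h2, h.m0]
  have H1 : ∀ z, 0 ≤ q.H1 z := fun z => add_nonneg (h.H0 z) (by
    have := h.m0; rw [PPar.δN]; split_ifs <;> positivity)
  have H2 : ∀ z, q.H1 z ≤ q.gam - q.hb := fun z => by
    have := mul_nonneg (by positivity : 0 ≤ 1000 * q.kap * q.ρ ^ 3) (H1 z)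
    have := h.Hg z
    rw [PPar.H2] at this
    linarith
  have W : ∀ S, PInv E (q.b1 E.η) S → ∀ x, ‖S.W x‖ ≤ E.sM := fun S hI x => (hI.sg x).trans h.s1
  refine ⟨hE.env, h.par, h.fin, hE.cov, fun z hz => ⟨hE.s1 z hz, h.b1 z hz⟩,
    fun z hz => ⟨hE.s2 z hz, h.b2 z hz⟩, h.Lv.ge, (exp_le_exp.2 (neg_le_neg
      (le_self_pow₀ P1 (by norm_num)))).trans h.n0, ?_, by linarith [H1 0, H2 0], ?_,
    fun z => by linarith [H2 z], fun S hI => ?_,
    fun S hI x _ => ((hE.good _ (W S hI)).a1 _ _ x).trans (by norm_num), fun S hI x hx => ?_⟩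
  · have a1 : q.n4 ≤ 1 / (q.P : ℝ) ^ 200 := h.n1.trans (h.n3.trans (div_le_div_of_nonneg_right
      (pow_le_one₀ hE.env.η0.le (hE.env.η1.trans (by norm_num))) (by positivity)))
    have a2 : 2 * E.Lv + 1 ≤ (q.P : ℝ) ^ 4 := by
      have := h.par.pow_lt hE.env (a := 3) (b := 4) (c := 101) (by norm_num) (by norm_num)
      rw [h.Lv]; linarith [one_le_pow₀ (n := 3) P1]
    have a3 := h.par.pow_lt hE.env (a := 11) (b := 200) (c := 10 ^ 7) (by norm_num) (by norm_num)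
    have a4 : 0 ≤ 2 * E.Lv + 1 := by rw [h.Lv]; positivity
    calc _ ≤ 10 ^ 7 * (q.P : ℝ) ^ 3 * ((q.P : ℝ) ^ 4) ^ 2 * (1 / (q.P : ℝ) ^ 200) := by
          have := (exp_pos _).le.trans h.n0
          gcongr
      _ = 10 ^ 7 * (q.P : ℝ) ^ 11 / (q.P : ℝ) ^ 200 := by ring
      _ ≤ 1 := (div_le_one (by positivity)).2 a3
  · have a3 := h.par.pow_lt hE.env (a := 3) (b := 200) (c := 10 ^ 5) (by norm_num) (by norm_num)
    linarith [mul_le_mul_of_nonneg_right a3 (by positivity : 0 ≤ q.gam ^ 4), h.g1]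
  · have k := (hE.good _ (W S hI)).smk
    have l1 : (1 : ℝ) ≤ q.l := by exact_mod_cast h.par.l_one hE.env
    have l2 : 2 * (q.L : ℝ) ≤ q.l := by
      exact_mod_cast (Nat.mul_le_mul_right _ (Nat.le_mul_of_pos_right 2 hE.env.d1)).trans h.L2
    refine ⟨⟨fun x => by rw [nm_self]; simp, fun x y => by rw [nm_comm], fun x y z => ?_⟩, k.symm,
      k.wn.weak fun x y => ?_, k.a0, k.a1⟩
    · have : (nm (x - z) : ℝ) ≤ nm (x - y) + nm (y - z) := by exact_mod_cast nm_tri x y z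
      rw [← add_div]
      exact div_le_div_of_nonneg_right (by linarith) (by linarith)
    · have a1 : (nm (x - y) : ℝ) ≤ Pre.n1 (x - y) := by
        exact_mod_cast tn_le.2 fun i => single_le_sum (f := fun i => ((x - y) i).valMinAbs.natAbs)
          (fun _ _ => Nat.zero_le _) (mem_univ i)
      rw [div_le_div_iff₀ (by linarith) (by linarith [hE.La])]
      nlinarith [mul_le_mul a1 (show 2 * E.La ≤ q.l by linarith [h.L1]) (by linarith [hE.La])
        (Nat.cast_nonneg _)]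
  · obtain ⟨K, κ, ν1, ν, D, D2, mu, s, -, -, -, e, -⟩ := h.st _ (W S hI) S.O (om S)
    have a1 : ν1 ≤ (1 / 10 ^ 3) ^ 2 := (sqrt_le_left (by norm_num)).1
      (by nlinarith [h.e1, sq_nonneg κ])
    refine (sum_le_sum fun y hy => (pow_le_pow_left₀ (norm_nonneg _) (s.al0 x y) 2).trans
      (s.alD x hx y (mem_of_mem_erase hy) (ne_of_mem_erase hy).symm)).trans
      ((sum_le_sum_of_subset_of_nonneg (subset_univ _) fun y _ _ => s.tot.nn y x).trans
        ((s.tot.col' s.pm x).trans (a1.trans_eq (by norm_num))))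

theorem t_pselect : S_PSELECT := fun d M _ E q hE hq s => by
  obtain ⟨st, h⟩ := psel_of s (hq.psh hE)
  exact ⟨st, h.causal, h.tag, h.post, h.cons, h.eb, fun S ϖ α a x hx => (h.junk S ϖ α a x hx).imp id
    fun ⟨ℓ, b, c⟩ => ⟨ℓ, b, c.trans (hq.par.D_mono hE.env (by norm_num))⟩⟩

end Pool.Agent.P.MP_d0f69c_mp.XS.Pre
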