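import Pool.Agent.P.MP_d0f69c_mp.XS.PIfT
import Pool.Agent.P.MP_d0f69c_mp.XS.PG5

/-!
The comparison of the forms along a history of the preparatory flow.
-/

set_option autoImplicit false
set_option linter.dupNamespace false

open Finset Real
open scoped Matrix

namespace Pool.Agent.P.MP_d0f69c_mp.XS.Pre

namespace PULHA

section generic

variable {ι : Type} [DecidableEq ι]

theorem sh_le (c : ℝ) (f g : List (ι × Bool) → ι → Bool → ℝ) (e : ι → ℝ) :
    ∀ h : List (ι × Bool), Bef (fun _ => True) h →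
      (∀ z h', z :: h' <:+ h → c * f h' z.1 z.2 ≤ g h' z.1 z.2 + e z.1) →
      c * Sh f h ≤ Sh g h + ∑ v ∈ hs h, e v
  | [], _, _ => by simp [Sh, hs]
  | z :: h, a, b => by
    have h1 := sh_le c f g e h a.tail fun z' h' c => b z' h' (c.trans (List.suffix_cons _ _))
    have h2 := b z h List.suffix_rfl
    rw [hs_cons, sum_insert a.head.1, Sh, Sh]
    linarith

/-- backward harmonic extension for nonnegative weights -/
theorem harm (O : Finset ι) (K : List (ι × Bool) → ι → ι → ℝ) (S : List (ι × Bool) → ι → Finset ι)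
    (hS : ∀ h v, S h v ⊆ (O \ hs h).erase v) : ∀ h : List (ι × Bool), Bef (fun _ => True) h →
      (∀ z h', z :: h' <:+ h → ∀ x ∈ S h' z.1, 0 ≤ K h' x z.1) →
      ∀ f : ι → ℝ, ∃ g : ι → ℝ, (∀ x ∉ hs h, g x = f x) ∧
        ∀ z h', z :: h' <:+ h → ∑ x ∈ S h' z.1, K h' x z.1 * (g z.1 - g x) = 0
  | [], _, _, f => ⟨f, fun _ _ => rfl, fun z h' a => by simp at a⟩
  | z :: h, hB, h0, f => by
    obtain ⟨g, g1, g2⟩ := harm O K S hS h hB.tail
      (fun w h' a => h0 w h' (a.trans (List.suffix_cons z h)))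
      (Function.update f z.1 ((∑ x ∈ S h z.1, K h x z.1 * f x) / ∑ x ∈ S h z.1, K h x z.1))
    have g3 : ∀ x, x ≠ z.1 → x ∉ hs h → g x = f x := fun x a b => by
      rw [g1 x b, Function.update_of_ne a]
    refine ⟨g, fun x hx => ?_, fun w h' a => ?_⟩
    · rw [hs_cons, mem_insert, not_or] at hx
      exact g3 x hx.1 hx.2
    rcases List.suffix_cons_iff.1 a with e | e
    swap
    · exact g2 w h' e
    obtain ⟨rfl, rfl⟩ := List.cons.inj e
    by_cases b : ∑ x ∈ S h' w.1, K h' x w.1 = 0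
    · exact sum_eq_zero fun x hx => by
        rw [(sum_eq_zero_iff_of_nonneg (h0 w h' List.suffix_rfl)).1 b x hx, zero_mul]
    have c : ∑ x ∈ S h' w.1, K h' x w.1 * g x = ∑ x ∈ S h' w.1, K h' x w.1 * f x :=
      sum_congr rfl fun x hx => by
        have d := mem_erase.1 (hS h' w.1 hx)
        rw [g3 x d.1 (mem_sdiff.1 d.2).2]
    simp only [mul_sub, sum_sub_distrib, ← sum_mul]
    rw [c, g1 _ hB.head.1, Function.update_self, mul_div_cancel₀ _ b, sub_self]

end generic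

variable {d M : ℕ} [NeZero M] {E : PEnv d M} {q : PPar d M} {S : St (Tor d M)} {c : Tor d M}
  {Z Sg : Finset (Tor d M)}

theorem sur (h : PFN E q) (rem : Finset (Tor d M)) (u : Tor d M) :
    0 ≤ q.sig * ((if u ∈ rem then 1 else 0) + (∑ v ∈ rem, q.Kk (u - v)) / 2000) ∧
      q.sig * ((if u ∈ rem then 1 else 0) + (∑ v ∈ rem, q.Kk (u - v)) / 2000) ≤
        2001 / 2000 * q.sig := by
  have a0 : 0 ≤ ∑ v ∈ rem, q.Kk (u - v) := sum_nonneg fun _ _ => h.K0 _
  have a1 : ∑ v ∈ rem, q.Kk (u - v) ≤ 1 :=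
    (sum_le_sum_of_subset_of_nonneg (subset_univ _) fun _ _ _ => h.K0 _).trans
      (((Equiv.subLeft u).sum_comp q.Kk).trans_le h.K1)
  have s0 : 0 ≤ q.sig := mul_nonneg (by norm_num) h.nq.ε0.le
  rw [mul_comm (2001 / 2000)]
  exact ⟨mul_nonneg s0 (by split_ifs <;> linarith),
    mul_le_mul_of_nonneg_left (by split_ifs <;> linarith) s0⟩

theorem sig_le (h : PFN E q) : q.sig ≤ 1 / 10 ^ 7 := by
  have : q.eps ≤ 1 / 10 ^ 12 := h.nq.ε1
  rw [PPar.sig]; linarith

theorem wt_b (h : PFH E q S c Z Sg) (τ : Bool) (rem : Finset (Tor d M)) {u : Tor d M}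
    (hu : u ∈ S.O) : 0 ≤ wt E q S τ rem u ∧ 0 ≤ sr τ * (wt E q S τ rem u - E.a0 S u) ∧
      |wt E q S τ rem u - E.a0 S u| ≤ 2001 / 2000 * q.sig * E.a0 S u := by
  obtain ⟨a, b⟩ := sur h.toPFN rem u
  have c := sig_le h.toPFN
  have e : 0 ≤ E.a0 S u := by linarith [(abs_le.1 (h.a0 hu)).1]
  have f := mul_nonneg e a
  have g := mul_le_mul_of_nonneg_left b e
  have k := mul_le_mul_of_nonneg_left c e
  rw [wt, mul_assoc (sr τ), abs_le]
  cases τ <;> simp only [sr, Bool.false_eq_true, if_false, if_true] <;>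
    refine ⟨?_, ?_, ?_, ?_⟩ <;> linarith

theorem y5_shift (h : PFN E q) (τ : Bool) (X : Finset (Tor d M)) (ω : Tor d M → Bool)
    (v : Tor d M) {F φ : Tor d M → ℝ} {k : ℝ} (e : ∀ x ∈ bl v (q.D E.η 2), φ x = F x - k) :
    Y5P E q S τ Z X ω v φ = Y5P E q S τ Z X ω v F := by
  have e0 : φ v = F v - k := e v (mem_bl.2 ((nm_self v).trans_le (Nat.zero_le _)))
  have e1 : ∀ x ∈ Sv E q S X v, φ x = F x - k := fun x hx =>
    e x (mem_inter.1 (mem_of_mem_erase hx)).2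
  have e2 : ∀ K, En (Sv E q S X v) K φ = En (Sv E q S X v) K F := fun K => by
    unfold En
    congr 1
    exact sum_congr rfl fun x hx => sum_congr rfl fun y hy => by
      rw [e1 x hx, e1 y hy, sub_sub_sub_cancel_right]
  have e3 : ∀ x, q.Kk (x - v) * (φ x - φ v) ^ 2 = q.Kk (x - v) * (F x - F v) ^ 2 := fun x => by
    by_cases a : q.Kk (x - v) = 0
    · rw [a, zero_mul, zero_mul]
    · rw [e0, e x (mem_bl.2 ((h.KD _ a).trans ((h.hq.l_le_li h.hE 2).trans
        (h.hq.li_le_D h.hE 2)))), sub_sub_sub_cancel_right]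
  have e4 : ∑ x ∈ Sv E q S X v, Kt E q S τ Z X ω x v * (φ x - φ v) ^ 2 =
      ∑ x ∈ Sv E q S X v, Kt E q S τ Z X ω x v * (F x - F v) ^ 2 :=
    sum_congr rfl fun x hx => by rw [e1 x hx, e0, sub_sub_sub_cancel_right]
  have e5 : ∑ x ∈ Sv E q S X v, Kt E q S τ Z X ω x v * (φ v - φ x) =
      ∑ x ∈ Sv E q S X v, Kt E q S τ Z X ω x v * (F v - F x) :=
    sum_congr rfl fun x hx => by rw [e1 x hx, e0, sub_sub_sub_cancel_right]
  unfold Y5P
  rw [e2, e4, e5]
  simp only [e3]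

end PULHA

open PULHA in
theorem t_pulh (h1 : S_PCH) (h2 : S_PFF) (h3 : S_LOCI) : S_PULH := by
  intro d M _ E q S c Z Sg H h hB hZ hD hY
  have hE := H.hE
  have hq := H.hq
  have hp := hE.ref.p0
  have hP := hq.Ppos hE
  have hA := Par.OK.D_le_A (q := q.toPar) hE
  have hD1 := hq.D_one hE 2
  have hd := hE.d1
  have e0 : 0 < q.eps := H.nq.ε0
  obtain ⟨κ, k0, k1, k2⟩ := h2 d M E q S c Z Sg H
  have K0 : ∀ τ X ω, ∀ x ∈ S.O, ∀ y ∈ S.O, 0 ≤ Kt E q S τ Z X ω x y := fun τ X ω x hx y hy =>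
    mul_nonneg (mul_nonneg (wt_b H τ _ hx).1 (wt_b H τ _ hy).1) (sq_nonneg _)
  have zZ : ∀ z h', z :: h' <:+ h → z.1 ∈ Z := fun z h' a =>
    hZ (hs_mono a (by rw [hs_cons]; exact mem_insert_self _ _))
  have chg : ∀ (τ : Bool) (F : Tor d M → ℝ), (τ = false → ∀ z h', z :: h' <:+ h →
      ∑ x ∈ Sv E q S (hs h') z.1, Kt E q S τ Z (hs h') (oh h') x z.1 * (F z.1 - F x) = 0) →
      sr τ * (En (S.O \ hs h) (Kt E q S τ Z (hs h) (oh h)) F -
        En S.O (Kw (wt E q S τ Z) (E.G0 S)) F) ≤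
        (30 * q.eps * q.C0 + 3 * (1 / (q.P : ℝ) ^ 3)) * NF E.p F := by
    intro τ F hF
    have t := (h1 _ S.O (fun h => Kt E q S τ Z (hs h) (oh h)) h (fun h x y => by
      simp only [Kt, Kw, H.G_symm (hs h) (oh h) x y, mul_comm (wt E q S τ _ x)]) hB
      (hZ.trans H.ZO)).1 F
    have e1 : Kt E q S τ Z (hs []) (oh []) = Kw (wt E q S τ Z) (E.G0 S) := by
      rw [Kt, show hs ([] : List (Tor d M × Bool)) = ∅ from rfl, sdiff_empty, G_empty]
    rw [e1] at t
    obtain ⟨c', l1, l2⟩ := (h3 d M E.toEnv q.P (6 * q.A E.η d) F hE hq.P1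
      ((hq.l0_le_D hE 2).trans (by omega))).2 {c} fun x hx y hy a =>
        absurd ((mem_singleton.1 hx).trans (mem_singleton.1 hy).symm) a
    rw [sum_singleton] at l2
    have l3 := mem_bl.1 (l1 c)
    set φ := loc (tn d M) (d * (6 * q.A E.η d) + 6 * q.A E.η d) (6 * q.A E.η d) F (c' c) with hφ
    have b1 := hY τ φ fun x hx => loc_out F fun a => hx (mem_bl.2 (by
      have a1 := mem_bl.1 a
      have a2 := nm_tri x (c' c) c
      have a3 : q.A E.η d ≤ d * q.A E.η d := Nat.le_mul_of_pos_left _ hd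
      have a4 : d * (6 * q.A E.η d) = 6 * (d * q.A E.η d) := by ring
      have a5 : 24 * d * q.A E.η d = 24 * (d * q.A E.η d) := by ring
      omega))
    rw [t, add_sub_cancel_left]
    refine (sh_le (sr τ) _ (fun h v b => Y5P E q S τ Z (hs h) (oh ((v, b) :: h)) v φ)
      (fun v => 30 * q.eps * ∑ x, q.Kk (x - v) * (F x - F v) ^ 2 +
        ∑ k, κ k * (F (v + k) - F v) ^ 2) h hB fun z h' a => ?_).trans ?_
    · obtain ⟨v, b⟩ := z
      have a1 : h' <:+ h := (List.suffix_cons _ _).trans a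
      have a2 : v ∉ hs h' := (hB _ _ a).1
      have a3 : v ∈ Z := zZ _ _ a
      have a4 : E.G S (hs h') (oh h') = E.G S (hs h') (oh ((v, b) :: h')) := G_congr fun x hx => by
        rw [oh, Function.update_of_ne (ne_of_mem_of_not_mem hx a2)]
      have a5 : Kt E q S τ Z (hs h') (oh h') = Kt E q S τ Z (hs h') (oh ((v, b) :: h')) := by
        rw [Kt, Kt, a4]
      have a6 := k2 (hs h') ((hs_mono a1).trans hZ) v (mem_sdiff.2 ⟨a3, a2⟩) (oh ((v, b) :: h')) τ F
        (by have := hD h' a1; rwa [DecX, a4] at this) (by have := hD _ a; rwa [hs_cons] at this)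
      have a7 := mem_bl.1 (mem_inter.1 (H.hZ a3)).2
      have a8 : τ = false → ∑ x ∈ Sv E q S (hs h') v,
          Kt E q S τ Z (hs h') (oh ((v, b) :: h')) x v * (F v - F x) = 0 := fun e => by
        rw [← a5]; exact hF e (v, b) h' a
      have a9 : 0 ≤ ∑ x ∈ (S.O \ hs h').erase v \ Sv E q S (hs h') v,
          Kt E q S τ Z (hs h') (oh ((v, b) :: h')) x v * (F x - F v) ^ 2 := sum_nonneg fun x hx =>
        mul_nonneg (K0 _ _ _ x (mem_sdiff.1 (mem_of_mem_erase (mem_sdiff.1 hx).1)).1 v (H.ZO a3))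
          (sq_nonneg _)
      dsimp only
      rw [y5_shift H.toPFN τ _ _ v fun x hx => loc_in (by omega) F (mem_bl.2 (by
        have c1 := mem_bl.1 hx
        have c2 := nm_tri x v c
        have c3 := nm_tri x c (c' c)
        rw [nm_comm c] at c3
        omega)), hs_cons, a5, ← sum_sdiff (PG5.Sv_sub (E := E) (q := q) (hs h') v), Y5P]
      obtain ⟨c1, c2⟩ := abs_le.1 (le_sub_iff_add_le.2 a6)
      rw [Pi.sub_def] at c1 c2 ⊢
      simp only [Pi.sub_def] at c1 c2 ⊢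
      cases τ
      · rw [a8 rfl]
        simp only [sr, Bool.false_eq_true, if_false]
        linarith
      · simp only [sr, if_true]
        linarith
    have b2 : ∑ v ∈ hs h, ∑ x, q.Kk (x - v) * (F x - F v) ^ 2 ≤ q.C0 * NF E.p F :=
      (sum_le_sum_of_subset_of_nonneg (subset_univ _) fun v _ _ => sum_nonneg fun x _ =>
        mul_nonneg (H.K0 _) (sq_nonneg _)).trans (H.KC F)
    have b3 : ∑ v ∈ hs h, ∑ k, κ k * (F (v + k) - F v) ^ 2 ≤ 2 / (q.P : ℝ) ^ 3 * NF E.p F :=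
      (sum_le_sum_of_subset_of_nonneg (subset_univ _) fun v _ _ =>
        sum_nonneg fun k _ => mul_nonneg (k0 k) (sq_nonneg _)).trans (k1 F)
    have b4 := NF_nonneg hp F
    have b5 := mul_le_mul_of_nonneg_left b2 (by positivity : 0 ≤ 30 * q.eps)
    have b6 : Nm E.p φ / (q.P : ℝ) ^ 4 ≤ 1 / (q.P : ℝ) ^ 3 * NF E.p F := by
      rw [div_le_iff₀ (by positivity)]
      refine l2.trans ?_
      have e : 1 / (q.P : ℝ) ^ 3 * NF E.p F * (q.P : ℝ) ^ 4 = q.P * NF E.p F := by field_simp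
      rw [e]
      exact mul_le_mul_of_nonneg_right (by linarith) b4
    rw [sum_add_distrib, ← mul_sum]
    rw [show 2 / (q.P : ℝ) ^ 3 = 2 * (1 / (q.P : ℝ) ^ 3) by ring] at b3
    linarith
  have s0 : 0 ≤ q.sig := mul_nonneg (by norm_num) e0.le
  have s1 := sig_le H.toPFN
  have t1 : (q.b1 E.η).θ ≤ 1 / 10 ^ 7 := hq.θ_add hE (c := 1) (by norm_num)
  have t0 : 0 ≤ (q.b1 E.η).θ := add_nonneg hq.θ0 (by positivity)
  have t2 : 7 * q.sig + (30 * q.eps * q.C0 + 3 * (1 / (q.P : ℝ) ^ 3)) ≤ 1 / 10 ^ 7 := by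
    have a := H.cost
    have b := mul_le_mul_of_nonneg_left H.C1 e0.le
    have c : 0 < 1 / (q.P : ℝ) ^ 3 := by positivity
    rw [PPar.cost, show 10 / (q.P : ℝ) ^ 3 = 10 * (1 / (q.P : ℝ) ^ 3) by ring] at a
    rw [PPar.sig]
    linarith
  have u : ∀ τ, UL E.p (Kw (wt E q S τ Z) (E.G0 S)) S.O ((q.b1 E.η).θ + 7 * q.sig) := fun τ =>
    PG5.ul_mono hp (PG5.ul_wt hp H.inv.ul t0 (s := 2001 / 2000 * q.sig) (by positivity)
      (by linarith) (fun x hx => by linarith [(abs_le.1 (H.a0 hx)).1])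
      fun x hx => (wt_b H τ Z hx).2.2) (by nlinarith)
  refine ⟨fun F => ?_, fun f => ?_⟩
  · have a := chg true F (by simp)
    have b := PG5.en_wt (O := S.O \ hs h) (c := 1) (c' := 1) (w := E.a0 S)
      (a := wt E q S true (Z \ hs h)) (E.G S (hs h) (oh h)) F fun x hx => by
        have := (wt_b H true (Z \ hs h) (mem_sdiff.1 hx).1).2.1
        simp only [sr, if_true] at this
        exact ⟨by linarith [(abs_le.1 (H.a0 (mem_sdiff.1 hx).1)).1], by linarith⟩
    have c := mul_le_mul_of_nonneg_right (add_le_add t1 t2) (NF_nonneg hp F)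
    simp only [sr, if_true, Kt] at a
    linarith [(u true).1 F]
  obtain ⟨g, g1, g2⟩ := harm S.O (fun h => Kt E q S false Z (hs h) (oh h))
    (fun h v => Sv E q S (hs h) v) (fun h v => PG5.Sv_sub _ _) h hB (fun z h' a x hx =>
      K0 _ _ _ x (mem_sdiff.1 (mem_of_mem_erase (PG5.Sv_sub _ _ hx))).1 _ (H.ZO (zZ _ _ a))) f
  obtain ⟨F, a1, a2⟩ := (u false).2 g
  have e : ∀ x ∈ S.O \ hs h, F x = f x := fun x hx =>
    (a1 x (mem_sdiff.1 hx).1).trans (g1 x (mem_sdiff.1 hx).2)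
  have a := chg false F fun _ z h' a => (sum_congr rfl fun x hx => by
    rw [a1 _ (H.ZO (zZ _ _ a)),
      a1 x (mem_sdiff.1 (mem_of_mem_erase (PG5.Sv_sub _ _ hx))).1]).trans (g2 z h' a)
  have b := PG5.en_wt (O := S.O \ hs h) (c := 1) (c' := 1) (a := E.a0 S)
    (w := wt E q S false (Z \ hs h)) (E.G S (hs h) (oh h)) f fun x hx => by
      obtain ⟨c1, c2, -⟩ := wt_b H false (Z \ hs h) (mem_sdiff.1 hx).1
      simp only [sr, Bool.false_eq_true, if_false] at c2
      exact ⟨by linarith, by linarith⟩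
  have c := mul_le_mul_of_nonneg_right (add_le_add t1 t2) (NF_nonneg hp F)
  simp only [sr, Bool.false_eq_true, if_false, Kt] at a
  rw [En_congr _ e, En_congr _ a1] at a
  exact ⟨F, e, by linarith⟩

end Pool.Agent.P.MP_d0f69c_mp.XS.Pre
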