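import Pool.Agent.P.MP_d0f69c_mp.XS.PIfT
import Pool.Agent.P.MP_d0f69c_mp.XS.PWard3

/-!
Consequences of the identity of Ward along the preparatory flow.
-/

set_option autoImplicit false
set_option linter.dupNamespace false

open Finset Real
open scoped Matrix

namespace Pool.Agent.P.MP_d0f69c_mp.XS.Pre

namespace PWDA

variable {d M : ℕ} [NeZero M] {E : PEnv d M} {q : PPar d M} {S : St (Tor d M)} {c : Tor d M}
  {Z Sg : Finset (Tor d M)}

theorem herm (h : PFH E q S c Z Sg) : (cr E.H)ᴴ = cr E.H := by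
  ext a b
  rw [Matrix.conjTranspose_apply, cr, cr, Complex.star_def, Complex.conj_ofReal, h.hE.symm]

theorem far (h : PFH E q S c Z Sg) {G : Matrix (Tor d M) (Tor d M) ℂ}
    (hD : Dec G S.O (q.Bi 2) (q.li E.η 2)) {Y : Finset (Tor d M)} (hY : Y ⊆ S.O) (v : Tor d M)
    (h2 : ∀ y ∈ Y, ‖G y v‖ ≤ 2) :
    ∑ y ∈ Y \ bl v (q.D E.η 2), E.a0 S y * ‖G y v‖ ^ 2 ≤ q.eps / 25 := by
  have s := h.toPFN.scl
  have l0 : (0 : ℝ) < (q.li E.η 2 : ℕ) := by exact_mod_cast h.hq.li_one h.hE 2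
  have a1 : ∀ y ∈ Y \ bl v (q.D E.η 2), E.a0 S y * ‖G y v‖ ^ 2 ≤
      4 * Scl.fw q.P (q.li E.η 2) (q.D E.η 2) (y - v) := fun y hy => by
    obtain ⟨y1, y2⟩ := mem_sdiff.1 hy
    have hf : q.D E.η 2 < nm (y - v) := not_le.1 fun a => y2 (mem_bl.2 a)
    have g3 : ‖G y v‖ ≤ ew q.P (q.li E.η 2) (y - v) := by
      refine (hD y (hY y1) v).trans (mul_le_mul (h.hq.Bi_le (by norm_num)) (exp_le_exp.2 ?_)
        (exp_pos _).le (exp_pos _).le)
      rw [neg_div, neg_div, neg_le_neg_iff]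
      exact div_le_div_of_nonneg_left (Nat.cast_nonneg _) l0 (by linarith)
    have b := abs_le.1 (h.a0 (hY y1))
    have g4 := mul_le_mul (h2 y y1) g3 (norm_nonneg _) (by norm_num)
    rw [Scl.fw, if_pos hf]
    nlinarith [b.1, b.2, mul_nonneg (norm_nonneg (G y v)) (norm_nonneg (G y v))]
  have a2 : ∑ y, 4 * Scl.fw q.P (q.li E.η 2) (q.D E.η 2) (y - v) ≤ 4 * exp (-(q.P : ℝ) ^ 7) := by
    rw [← mul_sum]
    exact mul_le_mul_of_nonneg_left (((Equiv.subRight v).sum_comp (Scl.fw (d := d) (M := M) q.P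
      (q.li E.η 2) (q.D E.η 2))).trans_le s.fw_sum') (by norm_num)
  have p5 : (0 : ℝ) < (q.P : ℝ) ^ 5 := pow_pos s.P0 _
  have a3 : exp (-(q.P : ℝ) ^ 7) ≤ 1 / (q.P : ℝ) ^ 5 := by
    rw [exp_neg, one_div]
    exact inv_anti₀ p5 ((s.pow_le (show 5 ≤ 7 by norm_num)).trans
      (by linarith [add_one_le_exp ((q.P : ℝ) ^ 7)]))
  have a4 := h.k2
  rw [show 100 / (q.P : ℝ) ^ 5 = 100 * (1 / (q.P : ℝ) ^ 5) by ring] at a4
  refine ((sum_le_sum a1).trans ((sum_le_univ_sum_of_nonneg fun y =>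
    mul_nonneg (by norm_num) (Scl.fw0 _)).trans a2)).trans (by linarith)

theorem fin {b T a ε : ℝ} (e0 : 0 < ε) (e1 : ε ≤ 1 / 10 ^ 12) (hb : |b - 1| ≤ ε / 500)
    (ha : |a - 1| ≤ 1 / 10 ^ 8) (hT : |T - a| ≤ ε / 5) : |b ^ 2 * T - a| ≤ ε := by
  obtain ⟨b1, b2⟩ := abs_le.1 hb
  obtain ⟨a1, a2⟩ := abs_le.1 ha
  obtain ⟨t1, t2⟩ := abs_le.1 hT
  have c1 : b ^ 2 - 1 ≤ ε / 200 := by nlinarith
  have c2 : -(ε / 200) ≤ b ^ 2 - 1 := by nlinarith
  have T0 : 0 ≤ T := by linarith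
  have T2 : T ≤ 2 := by linarith
  have c3 := mul_le_mul_of_nonneg_right c1 T0
  have c4 := mul_le_mul_of_nonneg_right c2 T0
  have c5 := mul_le_mul_of_nonneg_left T2 e0.le
  rw [abs_le]
  constructor <;> linarith

end PWDA

open PWDA in
theorem t_pwd : S_PWD := by
  intro d M _ E q S c Z Sg h X hX ω hΓ
  have Xg : X ⊆ S.good := hX.trans h.Zg
  obtain ⟨r, K, κ, ν1, ν, st⟩ := h.st
  obtain ⟨D, D2, mu, sa⟩ := st.stat X Xg ω
  have η0 := h.hE.η0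
  have η1 := h.hE.η1
  have e0 : 0 < q.eps := h.nq.ε0
  have e1 : q.eps ≤ 1 / 10 ^ 12 := h.nq.ε1
  have k := sa.dok.toKOK
  have hu := h.unit X Xg ω
  have hG := G_eq (E := E) (S := S) (ω := ω) X
  have hH := herm h
  have w : LamW (E.ker S) (S.O \ X) (mix X ω (om S)) E.η (E.a S X ω) (q.eps / 40) :=
    sa.lamW st.imb η0 (by
      nlinarith [mul_le_mul_of_nonneg_left st.k2 η0.le, mul_le_mul_of_nonneg_left st.k3 η0.le])
  have a1 := fun x hx => abs_le.1 (h.a1 X Xg ω x hx)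
  have εη : q.eps * E.η ≤ 1 / 10 ^ 12 * E.η := mul_le_mul_of_nonneg_right e1 η0.le
  have im : ∀ x ∈ S.O \ X, |(E.G S X ω x x).im - E.η * E.a S X ω x| ≤ q.eps * E.η / 50 :=
    fun x hx => by
      rw [a_eq, mul_div_cancel₀ _ η0.ne', ← Complex.sub_im, ← Γ_eq]
      exact (Complex.abs_im_le_norm _).trans (hΓ x hx)
  have mass : ∀ x ∈ S.O \ X, ∑ y ∈ S.O \ X, ‖E.G S X ω y x‖ ^ 2 ≤ 1 + 1 / 10 ^ 6 := fun x hx => by
    have b1 := w.mass (c := 1 - 2 / 10 ^ 8) k hH hu hG η0.le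
      (fun y hy => by linarith [(a1 y hy).1]) x
    have b2 := (abs_le.1 (im x hx)).2
    have b3 := mul_le_mul_of_nonneg_left (a1 x hx).2 η0.le
    have b4 : E.η * ((1 - 2 / 10 ^ 8) * ∑ y ∈ S.O \ X, ‖E.G S X ω y x‖ ^ 2) ≤
        E.η * (1 + 2 / 10 ^ 8) := by linarith
    linarith [le_of_mul_le_mul_left b4 η0]
  have dg : ∀ x ∈ S.O \ X, ‖E.G S X ω x x‖ ≤ κ + q.eps * E.η / 50 := fun x hx => by
    rw [← add_sub_cancel (Ax E S ω X x x) (E.G S X ω x x), ← Γ_eq]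
    exact (norm_add_le _ _).trans (add_le_add ((sa.al0 x x).trans (sa.al1 x)) (hΓ x hx))
  have half : ∀ y ∈ S.O \ X, 1 / 2 + q.eps / 40 ≤ E.a S X ω y := fun y hy => by
    linarith [(a1 y hy).1]
  refine ⟨?_, fun x hx => ?_, fun x hx => (dg x hx).trans (by linarith [st.k1]), fun hZ u => ?_,
    fun hD haa v hv => ?_⟩
  · exact (w.op k hH hu hG half η0 (by norm_num)).mono (le_of_eq (by field_simp))
  · simp only [h.G_symm X ω x]
    exact mass x hx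
  · have P0 := h.hq.Ppos h.hE
    refine w.out' k hH hu hG half η0 (by norm_num) hZ (by positivity) ?_ u
    rw [show 1 / 2 * E.η * ((q.P : ℝ) ^ 21 / E.η) ^ 2 = (q.P : ℝ) ^ 42 / 2 / E.η by field_simp]
    refine div_le_div_of_nonneg_right ?_ η0.le
    linarith [h.hq.pow_lt h.hE (show 40 < 42 by norm_num) (show (2 : ℝ) ≤ 10 ^ 9 by norm_num)]
  · have vY : v ∈ S.O \ X := mem_sdiff.2 ⟨h.ZO (mem_sdiff.1 hv).1, (mem_sdiff.1 hv).2⟩
    have P0 := h.hq.Ppos h.hE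
    have k0 : 0 ≤ q.kap := h.nq.κ0
    have k2 := h.k2
    rw [show 100 / (q.P : ℝ) ^ 5 = 100 * (1 / (q.P : ℝ) ^ 5) by ring] at k2
    have δ : q.kap + 1 / (q.P : ℝ) ^ 5 ≤ q.eps / 50 := by linarith [h.k1]
    have w' : LamW (E.ker S) (S.O \ X) (mix X ω (om S)) E.η (E.a0 S) (q.eps / 20) :=
      w.mono η0.le (δ := q.eps / 50) (by positivity)
        (fun x hx => (abs_sub_comm _ _).trans_le ((haa x hx).trans δ)) (by linarith)
    have b1 := abs_le.1 ((w'.col k hH hu hG v).trans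
      (mul_le_mul_of_nonneg_left (mass v vY) (by positivity)))
    have b2 := abs_le.1 (im v vY)
    have b3 := abs_le.1 ((haa v vY).trans δ)
    have b4 := mul_le_mul_of_nonneg_left b3.1 η0.le
    have b5 := mul_le_mul_of_nonneg_left b3.2 η0.le
    have b6 : |∑ y ∈ S.O \ X, E.a0 S y * ‖E.G S X ω y v‖ ^ 2 - E.a0 S v| ≤ q.eps / 10 := by
      have p := mul_pos e0 η0
      rw [abs_le]
      constructor <;> refine le_of_mul_le_mul_left ?_ η0 <;> linarith [b1.1, b1.2, b2.1, b2.2]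
    have f0 : ∀ y ∈ S.O \ X, 0 ≤ E.a0 S y * ‖E.G S X ω y v‖ ^ 2 := fun y hy =>
      mul_nonneg (by linarith [(abs_le.1 (h.a0 (mem_sdiff.1 hy).1)).1]) (sq_nonneg _)
    have c1 := far h hD sdiff_subset v fun y hy => le_of_sq_le_sq
      (((single_le_sum (f := fun y => ‖E.G S X ω y v‖ ^ 2) (fun _ _ => sq_nonneg _) hy).trans
        (mass v vY)).trans (by norm_num)) (by norm_num)
    have c2 : 0 ≤ ∑ y ∈ (S.O \ X) \ bl v (q.D E.η 2), E.a0 S y * ‖E.G S X ω y v‖ ^ 2 :=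
      sum_nonneg fun y hy => f0 y (mem_sdiff.1 hy).1
    have av := h.a0 (mem_sdiff.1 vY).1
    have c3 : E.a0 S v * ‖E.G S X ω v v‖ ^ 2 ≤ q.eps / 100 := by
      have g1 := pow_le_pow_left₀ (norm_nonneg _) (dg v vY) 2
      have g2 : q.eps * E.η / 50 ≤ 1 / 10 ^ 6 * q.eps := by nlinarith
      have g3 : 0 ≤ q.eps * E.η / 50 := by positivity
      have g4 : (q.eps * E.η / 50) ^ 2 ≤ 1 / 10 ^ 6 * q.eps := by nlinarith
      have g5 : ‖E.G S X ω v v‖ ^ 2 ≤ q.eps / 200 := by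
        nlinarith [st.k2, sq_nonneg (κ - q.eps * E.η / 50)]
      nlinarith [(abs_le.1 av).2, sq_nonneg ‖E.G S X ω v v‖]
    have c4 := sum_inter_add_sum_sdiff (S.O \ X) (bl v (q.D E.η 2))
      fun y => E.a0 S y * ‖E.G S X ω y v‖ ^ 2
    rw [← add_sum_erase _ _ (mem_inter.2 ⟨vY, self_bl v _⟩)] at c4
    refine fin e0 e1 ?_ av ?_
    · refine le_trans ?_ ((sa.b1 v).trans (by linarith [st.k2]))
      simpa using abs_norm_sub_norm_le (cmn (E.ker S) (S.O \ X) (mix X ω (om S)) v)⁻¹ 1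
    · rw [Sv, abs_le]
      constructor <;> linarith [(abs_le.1 b6).1, (abs_le.1 b6).2, f0 v vY]

end Pool.Agent.P.MP_d0f69c_mp.XS.Pre
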