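import Pool.Agent.P.MP_d0f69c_mp.XS.PZa

/-!
The row functional of the preparatory flow: one step.
-/

set_option autoImplicit false

open Finset Real
open scoped Matrix ComplexConjugate

namespace Pool.Agent.P.MP_d0f69c_mp.XS.Pre

namespace PZ

variable {ι : Type} [Fintype ι] [DecidableEq ι] {q : Nq} {σ : Co ι} {τ : Au ι} {v x : ι}

theorem noD (h : Fy q σ τ) (hv : v ∈ σ.rem) (φ : ι → ℂ) : no (τ.D v) φ ^ 2 ≤
    q.κ ^ 2 * (∑ u ∈ σ.Op, σ.Kk u v * ‖φ u‖ ^ 2 + ‖φ v‖ ^ 2) + ∑ u ∈ σ.Op, τ.D2 v u * ‖φ u‖ ^ 2 := by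
  rw [no_sq (h.D0 v), ← sum_subset (subset_univ σ.Op) fun u _ hu => by rw [h.DO v u hu, zero_mul]]
  refine (sum_le_sum fun u _ => mul_le_mul_of_nonneg_right (h.D1 v hv u) (sq_nonneg _)).trans_eq ?_
  simp only [add_mul, mul_assoc, sum_add_distrib, ← mul_sum, ite_mul, one_mul, zero_mul, sum_ite_eq',
    if_pos (h.RO (h.rR hv)), h.sK v]

/-- the quadratic term -/
theorem quad (hq : q.OK) (h : Fy q σ τ) (g : Fz q σ τ) (hv : v ∈ σ.rem) (b : Bool) {w : ι → ℝ}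
    (w0 : ∀ z, 0 ≤ w z) (hw : ∀ z, w z ≤ σ.th z) (ξ : ι → ℂ) :
    ∑ z ∈ σ.Op ∪ σ.X, w z * ‖bf (τ.T v b) ξ (σ.G z)‖ ^ 2 ≤
      10011 / 10000 * ‖ξ v‖ ^ 2 * ∑ z ∈ σ.Op ∪ σ.X, w z * ‖σ.G v z‖ ^ 2 + τ.Nh v ξ ^ 2 / 10 ^ 9 := by
  have ε0 := hq.ε0
  have ε1 := hq.ε1
  have β1 : ‖τ.β v‖ ≤ 1 + 1 / 10 ^ 12 := by
    linarith [norm_sub_norm_le (τ.β v) 1, norm_one (α := ℂ), h.b2 v hv]
  have a : ∀ z, ‖bf (τ.T v b) ξ (σ.G z)‖ ^ 2 ≤ 10011 / 10000 * ‖ξ v‖ ^ 2 * ‖σ.G v z‖ ^ 2 +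
      2002 * (no (τ.D v) ξ ^ 2 * no (τ.D v) (σ.G z) ^ 2 +
        q.hb ^ 2 * τ.Nh v ξ ^ 2 * τ.Nh v (σ.G z) ^ 2) := fun z => by
    have b1 := norm_add_le (τ.β v * (ξ v * σ.G z v))
      (bf (τ.B v) ξ (σ.G z) - τ.β v * (ξ v * σ.G z v))
    rw [add_sub_cancel, norm_mul, norm_mul, h.sG z v] at b1
    have b2 := norm_sub_le (sgn b * bf (τ.B v) ξ (σ.G z)) (bf (τ.R v b) ξ (σ.G z))
    rw [norm_mul, norm_sgn, one_mul, ← bf_smul, ← bf_sub] at b2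
    have b3 := h.b1 v hv ξ (σ.G z)
    rw [h.sG z v] at b3
    have b4 := mul_le_mul_of_nonneg_right β1 (mul_nonneg (norm_nonneg (ξ v)) (norm_nonneg (σ.G v z)))
    refine (pow_le_pow_left₀ (norm_nonneg _) (show _ ≤ (1 + 1 / 10 ^ 12) * (‖ξ v‖ * ‖σ.G v z‖) +
      (no (τ.D v) ξ * no (τ.D v) (σ.G z) + q.hb * τ.Nh v ξ * τ.Nh v (σ.G z)) from
        b2.trans (by linarith [h.r1 v hv b ξ (σ.G z)])) 2).trans ?_
    rw [mul_assoc _ (_ ^ 2), ← mul_pow, ← mul_pow, ← mul_pow, ← mul_pow]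
    set A := ‖ξ v‖ * ‖σ.G v z‖
    set B := no (τ.D v) ξ * no (τ.D v) (σ.G z)
    set C := q.hb * τ.Nh v ξ * τ.Nh v (σ.G z)
    nlinarith [sq_nonneg ((1 + 1 / 10 ^ 12) * A - 1000 * (B + C)), sq_nonneg (B - C), sq_nonneg A]
  refine (sum_le_sum fun z _ => mul_le_mul_of_nonneg_left (a z) (w0 z)).trans ?_
  have a1 := th_sum h g hw (fun _ => sq_nonneg _) (g.cO v hv) (g.cX v hv)
  have a2 := th_sum h g hw (fun _ => sq_nonneg _) (g.nO v hv) (g.nX v hv)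
  have a3 : no (τ.D v) ξ ^ 2 ≤ τ.Nh v ξ ^ 2 := by rw [g.sq]; nlinarith [sq_nonneg ‖ξ v‖]
  have a4 : q.hb ^ 2 ≤ q.ε ^ 2 :=
    pow_le_pow_left₀ hq.h0 (hq.h2.trans (mul_le_of_le_one_right ε0.le (by linarith [hq.η1]))) 2
  have a5 : q.ε ^ 2 ≤ 1 / 10 ^ 24 := by nlinarith
  have a6 := mul_le_mul a3 (a1.trans (show _ ≤ 1 / 10 ^ 22 by linarith))
    (sum_nonneg fun z _ => mul_nonneg (w0 z) (sq_nonneg _)) (sq_nonneg _)
  have a7 := mul_le_mul (mul_le_mul_of_nonneg_right (a4.trans a5) (sq_nonneg (τ.Nh v ξ))) a2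
    (sum_nonneg fun z _ => mul_nonneg (w0 z) (sq_nonneg _)) (by positivity)
  have e : ∀ (c : ℝ) (f : ι → ℝ), ∑ z ∈ σ.Op ∪ σ.X, w z * (c * f z) =
      c * ∑ z ∈ σ.Op ∪ σ.X, w z * f z := fun c f => by
    rw [mul_sum]; exact sum_congr rfl fun z _ => by ring
  simp only [mul_add (w _), sum_add_distrib, e]
  nlinarith [sq_nonneg (τ.Nh v ξ)]

/-- the mismatch term -/
theorem mis (hq : q.OK) (h : Fy q σ τ) (g : Fz q σ τ) (hx : x ∈ σ.Rw) : ∃ c : ℂ, ‖c‖ ≤ 1 ∧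
    ∀ v ∈ σ.rem.erase x, ∀ b, (if x ∈ (σ.step τ v b).rem ∪ (σ.step τ v b).Sg then
        √(‖(σ.step τ v b).Γ x x‖ ^ 2 + q.m1 ^ 2) / q.m1 else 0) ≤
      (if x ∈ σ.rem ∪ σ.Sg then √(‖σ.Γ x x‖ ^ 2 + q.m1 ^ 2) / q.m1 else 0) -
        (c * (sgn b * Fy.fo σ τ v x x)).re / q.m1 + σ.Kk x v / 50 +
        10011 / 10000 * ‖σ.G x v‖ ^ 2 * (√(‖σ.Γ v v‖ ^ 2 + q.m1 ^ 2) / q.m1) +
        τ.Nh v (σ.G x) ^ 2 / 50 + 2 * ‖Fy.fo σ τ v x x‖ ^ 2 / q.m1 ^ 2 := by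
  have m0 := hq.m0
  have e0 : ∀ v ∈ σ.rem.erase x, ∀ b,
      x ∈ (σ.step τ v b).rem ∪ (σ.step τ v b).Sg ↔ x ∈ σ.rem ∪ σ.Sg := fun v hv b => by
    simp [Co.step, (ne_of_mem_erase hv).symm]
  by_cases hg : x ∈ σ.rem ∪ σ.Sg
  swap
  · refine ⟨0, by simp, fun v hv b => ?_⟩
    have := h.K0 x v
    simp only [e0 v hv, hg, if_false, zero_mul, Complex.zero_re, zero_div, sub_zero, zero_add]
    positivity
  obtain ⟨c, c1, hc⟩ := M3.root (σ.Γ x x) m0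
  refine ⟨c, c1, fun v hv b => ?_⟩
  have hv' := mem_of_mem_erase hv
  have xv := (ne_of_mem_erase hv).symm
  have K0 := h.K0 x v
  have K1 : σ.Kk x v ≤ 1 := (single_le_sum (fun y _ => h.K0 x y) (mem_univ v)).trans (h.K1 x)
  set f := Fy.fo σ τ v x x
  set n := bf (τ.B v) (σ.Γ x) (τ.Pn v x) with hn
  set ρ := bf (τ.R v b) (σ.G x) (σ.G x) with hρ
  have n1 : ‖n‖ ≤ 6 / 1000 * q.m1 * σ.Kk x v :=
    (h.near hq g hv' hx hx xv).trans (mul_le_mul_of_nonneg_right (by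
      nlinarith [h.H1 x hg, mul_le_mul_of_nonneg_right (hq.κ1.trans hq.ε1) m0.le]) K0)
  have r1 := h.r2 v hv' b (σ.G x)
  have g1 : ‖σ.G x v‖ ^ 2 ≤ τ.Nh v (σ.G x) ^ 2 := by
    rw [g.sq]; nlinarith [sq_nonneg ‖σ.G x v‖, sq_nonneg (no (τ.D v) (σ.G x))]
  have g2 : τ.Nh v (σ.G x) ^ 2 ≤ 1 / 10 ^ 22 := by
    have := (g.gs v hv' x (mem_erase.2 ⟨xv, h.RO hx⟩)).2
    nlinarith [(g.hh v).nn (σ.G x), hq.ε1, hq.ε0]
  have s1 : ‖σ.Γ v v‖ ≤ √(‖σ.Γ v v‖ ^ 2 + q.m1 ^ 2) := le_sqrt_of_sq_le (by nlinarith)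
  have r2 : ‖ρ‖ ≤ 10011 / 10000 * ‖σ.G x v‖ ^ 2 * √(‖σ.Γ v v‖ ^ 2 + q.m1 ^ 2) +
      q.m1 / 100 * τ.Nh v (σ.G x) ^ 2 := by
    have := mul_le_mul (show 1 + 3 * q.ε ≤ 10011 / 10000 by linarith [hq.ε1]) s1 (norm_nonneg _)
      (by norm_num)
    nlinarith [mul_le_mul_of_nonneg_right this (sq_nonneg ‖σ.G x v‖)]
  have r3 : ‖ρ‖ ≤ 3000 * q.m1 * τ.Nh v (σ.G x) ^ 2 := by
    have := mul_le_mul (mul_le_mul (show 1 + 3 * q.ε ≤ 11 / 10 by linarith [hq.ε1])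
      (g.mis v (mem_union_left _ hv')) (norm_nonneg _) (by norm_num)) g1 (sq_nonneg _)
      (by positivity)
    nlinarith [mul_nonneg m0.le (sq_nonneg (τ.Nh v (σ.G x)))]
  have e1 : (σ.step τ v b).Γ x x = σ.Γ x x - (sgn b * f + (sgn b * (n + n) - ρ)) := by
    rw [h.Γ_step' hv']; ring
  have a1 := hc (sgn b * f + (sgn b * (n + n) - ρ))
  have a2 : ‖sgn b * (n + n) - ρ‖ ≤ 2 * ‖n‖ + ‖ρ‖ := (norm_sub_le _ _).trans (by
    rw [norm_mul, norm_sgn, one_mul]; linarith [norm_add_le n n])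
  have a3 := (abs_le.1 ((re_le c _ c1).trans a2)).1
  have a4 : ‖sgn b * f + (sgn b * (n + n) - ρ)‖ ≤ ‖f‖ + (2 * ‖n‖ + ‖ρ‖) :=
    (norm_add_le _ _).trans (by rw [norm_mul, norm_sgn, one_mul]; linarith)
  have a5 : ‖sgn b * f + (sgn b * (n + n) - ρ)‖ ^ 2 ≤
      4 * ‖f‖ ^ 2 + q.m1 ^ 2 * (σ.Kk x v / 100 + τ.Nh v (σ.G x) ^ 2 / 100) := by
    have b1 := pow_le_pow_left₀ (norm_nonneg _) n1 2
    have b2 := pow_le_pow_left₀ (norm_nonneg _) r3 2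
    have b3 := mul_le_mul_of_nonneg_left K1 (mul_nonneg (sq_nonneg q.m1) K0)
    have b4 := mul_le_mul_of_nonneg_left g2
      (mul_nonneg (sq_nonneg q.m1) (sq_nonneg (τ.Nh v (σ.G x))))
    nlinarith [pow_le_pow_left₀ (norm_nonneg _) a4 2, sq_nonneg (‖f‖ - 2 * ‖n‖),
      sq_nonneg (‖f‖ - ‖ρ‖), sq_nonneg (2 * ‖n‖ - ‖ρ‖), sq_nonneg ‖f‖,
      mul_nonneg (sq_nonneg q.m1) K0, mul_nonneg (sq_nonneg q.m1) (sq_nonneg (τ.Nh v (σ.G x)))]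
  have a6 := div_le_div_of_nonneg_right a5 (show 0 ≤ 2 * q.m1 by positivity)
  rw [mul_comm _ c, mul_add c, Complex.add_re] at a1
  rw [if_pos ((e0 v hv b).2 hg), if_pos hg, e1, div_le_iff₀ m0]
  have e2 : (4 * ‖f‖ ^ 2 + q.m1 ^ 2 * (σ.Kk x v / 100 + τ.Nh v (σ.G x) ^ 2 / 100)) / (2 * q.m1) =
      2 * ‖f‖ ^ 2 / q.m1 ^ 2 * q.m1 + q.m1 * (σ.Kk x v / 200 + τ.Nh v (σ.G x) ^ 2 / 200) := by
    field_simp; ring
  simp only [add_mul, sub_mul, mul_assoc _ (_ / q.m1) q.m1, div_mul_cancel₀ _ m0.ne']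
  nlinarith [mul_nonneg m0.le K0, mul_nonneg m0.le (sq_nonneg (τ.Nh v (σ.G x)))]

/-- the drift allowance -/
noncomputable def dr (q : Nq) (σ : Co ι) (τ : Au ι) (x v : ι) : ℝ :=
  2 * q.hb * (τ.Nh v (σ.G x) * τ.Nh v (eta σ (fun z => σ.th z - wv σ v z) x)) +
    ∑ u ∈ σ.Op, τ.D2 v u * ‖σ.G x u‖ ^ 2 + ‖Fy.fo σ τ v x x‖ ^ 2 / q.m1 ^ 2

/-- the martingale part -/
noncomputable def od (q : Nq) (σ : Co ι) (τ : Au ι) (x : ι) (c : ℂ) (v : ι) : ℝ :=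
  2 * (bf (τ.B v) (σ.Pf τ v x) (eta σ (fun z => σ.th z - wv σ v z) x)).re +
    (c * Fy.fo σ τ v x x).re / q.m1 / 2000

theorem incr (hq : q.OK) (h : Fy q σ τ) (g : Fz q σ τ) (hx : x ∈ σ.Rw) : ∃ c : ℂ, ‖c‖ ≤ 1 ∧
    ∀ v ∈ σ.rem.erase x, ∀ b, (σ.step τ v b).Zf q.m1 x ≤ σ.Zf q.m1 x +
      (-((sgn b).re * od q σ τ x c v) + dr q σ τ x v) + σ.Kk x v / 10 ^ 4 := by
  obtain ⟨c, c1, hc⟩ := mis hq h g hx
  refine ⟨c, c1, fun v hv b => ?_⟩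
  have hv' := mem_of_mem_erase hv
  have xv := (ne_of_mem_erase hv).symm
  have vO := h.RO (h.rR hv')
  have a1 := hc v hv b
  have hw : ∀ z, σ.th z - wv σ v z ≤ σ.th z := fun z => sub_le_self _ (wv0 h v z)
  have a2 := quad hq h g hv' b (th0' h hv') hw (σ.G x)
  have a3 := mul_le_mul_of_nonneg_left (zs h (h.rR hv') hw) (sq_nonneg ‖σ.G x v‖)
  rw [if_pos (mem_union_left _ hv')] at a3
  have a4 := expand (σ.Op ∪ σ.X) (fun z => σ.th z - wv σ v z) (τ.T v b) (σ.G x) (σ.G x) σ.G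
  have a5 : 1999 / 2000 * ‖σ.G x v‖ ^ 2 + (∑ u ∈ σ.Op, σ.Kk u v * ‖σ.G x u‖ ^ 2) / 2000 ≤
      ∑ z ∈ σ.Op ∪ σ.X, wv σ v z * ‖σ.G x z‖ ^ 2 := by
    refine le_trans (le_of_eq ?_) (sum_le_sum_of_subset_of_nonneg subset_union_left
      fun z _ _ => mul_nonneg (wv0 h v z) (sq_nonneg _))
    simp only [wv, add_mul, sum_add_distrib, ite_mul, zero_mul, sum_ite_eq', if_pos vO, sum_div,
      div_mul_eq_mul_div]
  set η := eta σ (fun z => σ.th z - wv σ v z) x with hη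
  have a6 : (bf (τ.T v b) (σ.G x) η).re = (sgn b).re * (bf (τ.B v) (σ.Pf τ v x) η).re +
      (sgn b * bf (τ.B v) (τ.Pn v x) η).re - (bf (τ.R v b) (σ.G x) η).re := by
    rw [Au.T, bf_sub, bf_smul, Co.Pf, bf_subl]
    cases b <;> simp [sgn]
    ring
  have a7 : ‖bf (τ.B v) (τ.Pn v x) η‖ ≤ 103 / 100 * (q.κ * σ.Kk x v) * 2 :=
    (h.b0 v hv' _ _).trans (mul_le_mul (mul_le_mul_of_nonneg_left
      (h.p1 v hv' x (mem_union_left _ (h.RO hx)) xv) (by norm_num))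
      ((h.n2 v hv' _).trans (eta_sup hq h g hv' hx)) ((h.hn v hv').nn _)
      (mul_nonneg (by norm_num) (mul_nonneg hq.κ0 (h.K0 x v))))
  have a8 := (abs_le.1 ((re_le (sgn b) _ (norm_sgn b).le).trans a7)).1
  have a9 := (le_abs_self _).trans ((Complex.abs_re_le_norm _).trans (h.r1 v hv' b (σ.G x) η))
  have b1 := noD h hv' (σ.G x)
  have b2 := g.sq v (σ.G x)
  have b3 : (c * (sgn b * Fy.fo σ τ v x x)).re = (sgn b).re * (c * Fy.fo σ τ v x x).re := by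
    cases b <;> simp [sgn]
  have b4 : 0 ≤ ∑ u ∈ σ.Op, σ.Kk u v * ‖σ.G x u‖ ^ 2 :=
    sum_nonneg fun u _ => mul_nonneg (h.K0 u v) (sq_nonneg _)
  have b5 : q.κ ^ 2 ≤ 1 / 10 ^ 6 := by nlinarith [hq.κ0, hq.κ1, hq.ε1]
  have b6 := mul_le_mul_of_nonneg_right b5 (add_nonneg b4 (sq_nonneg ‖σ.G x v‖))
  have b7 := mul_le_mul_of_nonneg_right (hq.κ1.trans hq.ε1) (h.K0 x v)
  have b8 : 0 ≤ ‖Fy.fo σ τ v x x‖ ^ 2 / q.m1 ^ 2 := by positivity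
  have e1 : (σ.step τ v b).Op ∪ (σ.step τ v b).X = σ.Op ∪ σ.X := by
    simp only [Co.step, union_insert, ← insert_union, insert_erase vO]
  have e2 : (σ.step τ v b).dh x = σ.dh x + τ.Nh v (σ.G x) ^ 2 := by simp [Co.step, xv, hx]
  have e3 : ∀ z, (σ.step τ v b).G x z = σ.G x z - bf (τ.T v b) (σ.G x) (σ.G z) := fun _ => rfl
  rw [b3, mul_div_assoc, mul_div_assoc] at a1
  simp only [Co.Zf, e1, e2, e3, th_step h hv', a4, od, dr, ← hη]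
  rw [show ∑ z ∈ σ.Op ∪ σ.X, ((σ.th z - wv σ v z : ℝ) * conj (σ.G x z) : ℂ) • σ.G z = η from rfl, a6]
  simp only [sub_mul, sum_sub_distrib] at a2 a3 ⊢
  nlinarith [sq_nonneg ‖σ.G x v‖, sq_nonneg (no (τ.D v) (σ.G x)), h.K0 x v]

theorem dr0 (hq : q.OK) (h : Fy q σ τ) (g : Fz q σ τ) (x v : ι) : 0 ≤ dr q σ τ x v := by
  have := hq.h0
  have := (g.hh v).nn (σ.G x)
  have := (g.hh v).nn (eta σ (fun z => σ.th z - wv σ v z) x)
  have := sum_nonneg fun u (_ : u ∈ σ.Op) => mul_nonneg (h.E0 v u) (sq_nonneg ‖σ.G x u‖)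
  unfold dr
  positivity

theorem fo_sum (hq : q.OK) (h : Fy q σ τ) (g : Fz q σ τ) (hx : x ∈ σ.Rw) :
    ∑ v ∈ σ.rem.erase x, ‖Fy.fo σ τ v x x‖ ^ 2 / q.m1 ^ 2 ≤ 1 / q.P ^ 20 := by
  have a := h.fo_sum hq g (h.RO hx) (h.RO hx)
  rw [erase_idem] at a
  have a1 := div_le_div_of_nonneg_right a (sq_nonneg q.m1)
  have a2 := hq.div_le (c := 50) (k := 20) (m := 21) (by norm_num) (by omega)
  rw [mul_div_assoc] at a1
  rw [div_eq_mul_one_div 50] at a2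
  rw [← sum_div]
  linarith [hq.nJ_le]

theorem dr_sum (hq : q.OK) (h : Fy q σ τ) (g : Fz q σ τ) (hx : x ∈ σ.Rw) :
    ∑ v ∈ σ.rem.erase x, dr q σ τ x v ≤ 1 / q.P ^ 19 := by
  have P0 : 0 < q.P := one_pos.trans_le hq.one_le
  have η0 := hq.η0
  have xO := h.RO hx
  have a1 : ∑ v ∈ σ.rem.erase x, τ.Nh v (σ.G x) * τ.Nh v (eta σ (fun z => σ.th z - wv σ v z) x) ≤
      4 * (q.P ^ 21 / q.η) := by
    refine (sum_le_sum_of_subset_of_nonneg (erase_subset _ _) fun v _ _ =>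
      mul_nonneg ((g.hh v).nn _) ((g.hh v).nn _)).trans (le_of_sq_le_sq
        ((sum_mul_sq_le_sq_mul_sq _ _ _).trans ((mul_le_mul ((g.sv _).trans
          (mul_le_mul_of_nonneg_left (h.row x xO) (by norm_num))) (eta_sum hq h g hx)
          (sum_nonneg fun _ _ => sq_nonneg _) (by norm_num)).trans ?_)) (by positivity))
    nlinarith [sq_nonneg (q.P ^ 21 / q.η)]
  have a2 : ∑ v ∈ σ.rem.erase x, ∑ u ∈ σ.Op, τ.D2 v u * ‖σ.G x u‖ ^ 2 ≤ q.ν * (11 / 10) := by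
    refine (sum_le_sum_of_subset_of_nonneg (erase_subset _ _) fun v _ _ => sum_nonneg fun u _ =>
      mul_nonneg (h.E0 v u) (sq_nonneg _)).trans ?_
    rw [sum_comm]
    refine le_trans (sum_le_sum fun u _ => ?_) ((mul_sum _ _ _).symm.trans_le
      (mul_le_mul_of_nonneg_left (h.row x xO) hq.ν0))
    rw [← sum_mul]
    exact mul_le_mul_of_nonneg_right (h.E2 u) (sq_nonneg _)
  have a3 := mul_le_mul (mul_le_mul_of_nonneg_left hq.h1 zero_le_two) a1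
    (sum_nonneg fun v _ => mul_nonneg ((g.hh v).nn _) ((g.hh v).nn _)) (by positivity)
  have e : 2 * (q.η / q.P ^ 100) * (4 * (q.P ^ 21 / q.η)) = 8 / q.P ^ 79 := by field_simp; norm_num
  have a4 := hq.div_le (c := 8) (k := 20) (m := 79) (by norm_num) (by omega)
  have a5 := hq.div_le (c := 11 / 10) (k := 20) (m := 100) (by norm_num) (by omega)
  have a6 := hq.div_le (c := 3) (k := 19) (m := 20) (by norm_num) (by omega)
  rw [div_eq_mul_one_div] at a5 a6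
  simp only [dr, sum_add_distrib, ← mul_sum]
  linarith [fo_sum hq h g hx, hq.ν1]

theorem od_sum (hq : q.OK) (h : Fy q σ τ) (g : Fz q σ τ) (hx : x ∈ σ.Rw) {c : ℂ} (c1 : ‖c‖ ≤ 1) :
    ∑ v ∈ σ.rem.erase x, od q σ τ x c v ^ 2 ≤ 1 / q.P ^ 19 := by
  have P0 : 0 < q.P := one_pos.trans_le hq.one_le
  have η0 := hq.η0
  have m0 := hq.m0
  set K := q.P ^ 121 / q.η ^ 2 with hK
  have K0 : 0 < K := by positivity
  have a : ∀ v ∈ σ.rem.erase x, od q σ τ x c v ^ 2 ≤ 10 * K * τ.Nh v (σ.Γ x) ^ 4 +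
      40 / K * τ.Nh v (eta σ (fun z => σ.th z - wv σ v z) x) ^ 2 + 80 * τ.μ x v ^ 2 +
        ‖Fy.fo σ τ v x x‖ ^ 2 / q.m1 ^ 2 := fun v hv => by
    have hv' := mem_of_mem_erase hv
    have b1 := eta_sup hq h g hv' hx
    set η := eta σ (fun z => σ.th z - wv σ v z) x
    have b0 := (g.hh v).nn η
    have b2 : |(bf (τ.B v) (σ.Pf τ v x) η).re| ≤
        103 / 100 * (τ.Nh v (σ.Γ x) + τ.μ x v) * τ.Nh v η :=
      (Complex.abs_re_le_norm _).trans ((h.b0 v hv' _ _).trans (mul_le_mul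
        (mul_le_mul_of_nonneg_left (g.f1 v hv' x (mem_union_left _ (h.RO hx))
          (ne_of_mem_erase hv).symm).1 (by norm_num))
        (h.n2 v hv' _) ((h.hn v hv').nn _)
        (mul_nonneg (by norm_num) (add_nonneg ((g.hh v).nn _) (h.u0 x v)))))
    have b3 := pow_le_pow_left₀ (abs_nonneg _) b2 2
    have b4 := div_le_div_of_nonneg_right (pow_le_pow_left₀ (abs_nonneg _)
      (re_le c (Fy.fo σ τ v x x) c1) 2) (sq_nonneg q.m1)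
    rw [sq_abs] at b3 b4
    rw [← div_pow] at b4
    have b5 : τ.Nh v η ^ 2 ≤ 4 := by nlinarith
    have b6 : 2 * (τ.Nh v (σ.Γ x) * τ.Nh v η) ^ 2 ≤
        K * τ.Nh v (σ.Γ x) ^ 4 + 4 / K * τ.Nh v η ^ 2 := by
      have d1 := mul_le_mul_of_nonneg_right b5 (div_nonneg (sq_nonneg (τ.Nh v η)) K0.le)
      have d2 := div_nonneg (sq_nonneg (K * τ.Nh v (σ.Γ x) ^ 2 - τ.Nh v η ^ 2)) K0.le
      have d3 : (K * τ.Nh v (σ.Γ x) ^ 2 - τ.Nh v η ^ 2) ^ 2 / K = K * τ.Nh v (σ.Γ x) ^ 4 -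
          2 * (τ.Nh v (σ.Γ x) * τ.Nh v η) ^ 2 + τ.Nh v η ^ 2 * (τ.Nh v η ^ 2 / K) := by
        field_simp; ring
      rw [div_mul_eq_mul_div 4, mul_div_assoc 4]
      linarith
    have b7 := mul_le_mul_of_nonneg_left b5 (sq_nonneg (τ.μ x v))
    rw [od, show 40 / K = 10 * (4 / K) by ring]
    nlinarith [sq_nonneg (2 * (bf (τ.B v) (σ.Pf τ v x) η).re - (c * Fy.fo σ τ v x x).re / q.m1 / 2000),
      sq_nonneg (τ.Nh v (σ.Γ x) * τ.Nh v η - τ.μ x v * τ.Nh v η), sq_nonneg (τ.μ x v * τ.Nh v η),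
      sq_nonneg (τ.Nh v (σ.Γ x) * τ.Nh v η), sq_nonneg ((c * Fy.fo σ τ v x x).re / q.m1)]
  refine (sum_le_sum a).trans ?_
  have s : ∀ f : ι → ℝ, (∀ v, 0 ≤ f v) → ∑ v ∈ σ.rem.erase x, f v ≤ ∑ v ∈ σ.rem, f v :=
    fun f f0 => sum_le_sum_of_subset_of_nonneg (erase_subset _ _) fun v _ _ => f0 v
  have a1 := mul_le_mul_of_nonneg_left ((s _ fun v => by positivity).trans ((g.Γ3 x (h.RO hx)).trans
    (mul_le_mul_of_nonneg_left hq.n3 (by norm_num)))) (show 0 ≤ 10 * K by positivity)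
  have a2 := mul_le_mul_of_nonneg_left ((s _ fun v => sq_nonneg _).trans (eta_sum hq h g hx))
    (show 0 ≤ 40 / K by positivity)
  have a3 := (s _ fun v => sq_nonneg _).trans ((h.u1 x).trans hq.ν1)
  have e1 : 10 * K * (3 * (q.η ^ 2 / q.P ^ 200)) = 30 / q.P ^ 79 := by
    rw [hK]; field_simp; norm_num
  have e2 : 40 / K * (10 * (q.P ^ 21 / q.η) ^ 2) = 400 / q.P ^ 79 := by
    rw [hK]; field_simp; norm_num
  have a4 := hq.div_le (c := 30) (k := 20) (m := 79) (by norm_num) (by omega)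
  have a5 := hq.div_le (c := 400) (k := 20) (m := 79) (by norm_num) (by omega)
  have a6 := hq.div_le (c := 80) (k := 20) (m := 100) (by norm_num) (by omega)
  have a7 := hq.div_le (c := 4) (k := 19) (m := 20) (by norm_num) (by omega)
  rw [div_eq_mul_one_div] at a6 a7
  simp only [sum_add_distrib, ← mul_sum]
  linarith [fo_sum hq h g hx]

end PZ

theorem t_pz : S_PZ := by
  intro ι _ _ q σ τ hq h g x hx
  have P0 : 0 < q.P := one_pos.trans_le hq.one_le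
  obtain ⟨c, c1, hc⟩ := PZ.incr hq h g hx
  have a1 := PZ.dr_sum hq h g hx
  have a2 := hq.div_le (c := 2) (k := 4) (m := 19) (by norm_num) (by omega)
  have a3 := hq.div_le (c := 4) (k := 8) (m := 19) (by norm_num) (by omega)
  rw [div_eq_mul_one_div] at a2 a3
  refine ⟨_, hc, ?_, ?_⟩
  · refine le_trans (le_of_eq ?_) ((mul_le_mul_of_nonneg_left a1 zero_le_two).trans a2)
    rw [mul_sum]
    exact sum_congr rfl fun v _ => by simp [sgn]; ring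
  · have a4 : ∑ v ∈ σ.rem.erase x, PZ.dr q σ τ x v ^ 2 ≤ ∑ v ∈ σ.rem.erase x, PZ.dr q σ τ x v :=
      sum_le_sum fun v hv => by
        have b1 := (single_le_sum (fun v _ => PZ.dr0 hq h g x v) hv).trans (a1.trans
          (div_le_one_of_le₀ (one_le_pow₀ hq.one_le) (by positivity)))
        nlinarith [PZ.dr0 hq h g x v]
    refine le_trans (le_of_eq (b := 2 * ∑ v ∈ σ.rem.erase x, PZ.od q σ τ x c v ^ 2 +
      2 * ∑ v ∈ σ.rem.erase x, PZ.dr q σ τ x v ^ 2) ?_) (by linarith [PZ.od_sum hq h g hx c1])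
    rw [mul_sum, mul_sum, ← sum_add_distrib]
    exact sum_congr rfl fun v _ => by simp [sgn]; ring

end Pool.Agent.P.MP_d0f69c_mp.XS.Pre
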