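import Pool.Agent.P.MP_d0f69c_mp.XS.All
import Pool.Agent.P.MP_d0f69c_mp.XS.PA1
import Pool.Agent.P.MP_d0f69c_mp.XS.PA4
import Pool.Agent.P.MP_d0f69c_mp.XS.PA5
import Pool.Agent.P.MP_d0f69c_mp.XS.PA6
import Pool.Agent.P.MP_d0f69c_mp.XS.PD
import Pool.Agent.P.MP_d0f69c_mp.XS.PZ
import Pool.Agent.P.MP_d0f69c_mp.XS.PFP
import Pool.Agent.P.MP_d0f69c_mp.XS.PL
import Pool.Agent.P.MP_d0f69c_mp.XS.P4
import Pool.Agent.P.MP_d0f69c_mp.XS.PF5A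
import Pool.Agent.P.MP_d0f69c_mp.XS.PF5B
import Pool.Agent.P.MP_d0f69c_mp.XS.P6A
import Pool.Agent.P.MP_d0f69c_mp.XS.P6B
import Pool.Agent.P.MP_d0f69c_mp.XS.PGS
import Pool.Agent.P.MP_d0f69c_mp.XS.PGF
import Pool.Agent.P.MP_d0f69c_mp.XS.PGO
import Pool.Agent.P.MP_d0f69c_mp.XS.PFL
import Pool.Agent.P.MP_d0f69c_mp.XS.PFX
import Pool.Agent.P.MP_d0f69c_mp.XS.PST
import Pool.Agent.P.MP_d0f69c_mp.XS.PWD
import Pool.Agent.P.MP_d0f69c_mp.XS.PSM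
import Pool.Agent.P.MP_d0f69c_mp.XS.PFAR
import Pool.Agent.P.MP_d0f69c_mp.XS.PFF
import Pool.Agent.P.MP_d0f69c_mp.XS.PCH
import Pool.Agent.P.MP_d0f69c_mp.XS.PBr
import Pool.Agent.P.MP_d0f69c_mp.XS.PBas
import Pool.Agent.P.MP_d0f69c_mp.XS.PSel
import Pool.Agent.P.MP_d0f69c_mp.XS.PG1
import Pool.Agent.P.MP_d0f69c_mp.XS.PG2
import Pool.Agent.P.MP_d0f69c_mp.XS.PG3
import Pool.Agent.P.MP_d0f69c_mp.XS.PG4
import Pool.Agent.P.MP_d0f69c_mp.XS.PG6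
import Pool.Agent.P.MP_d0f69c_mp.XS.PRun
import Pool.Agent.P.MP_d0f69c_mp.XS.PDEC
import Pool.Agent.P.MP_d0f69c_mp.XS.PHI
import Pool.Agent.P.MP_d0f69c_mp.XS.PR
import Pool.Agent.P.MP_d0f69c_mp.XS.PULH
import Pool.Agent.P.MP_d0f69c_mp.XS.PG7
import Pool.Agent.P.MP_d0f69c_mp.XS.PNw6

/-!
The steps of the preparation stage, collected.
-/

set_option autoImplicit false

namespace Pool.Agent.P.MP_d0f69c_mp.XS.Pre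

theorem a_pflow : S_PFLOW :=
  t_pflow (t_pfl (t_pa1 t_gs t_pd t_pz t_pp t_pa t_pl) (t_pa4 (t_go t_potc) t_pd t_p4)
    (t_pa5 (t_gf t_pot) t_pd t_p5a t_p5b) (t_pa6 (t_go t_potc) t_pd t_p6a t_p6b) t_pdec
    (t_pulh t_pch t_pff t_loci) (t_pfx t_pr t_pdec t_pfar t_pwd t_psm t_pci) (t_pst t_pwd t_nmb)
    t_phi t_nmb (t_ph t_indep))

theorem a_pglue : S_PGLUE := pglue_of t_pbas t_pg1 t_pg2 t_pg3 t_pg4 t_pg6 t_pg7 t_pg8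

theorem a_prun (h : S_PCONV) : S_PRUN :=
  t_prun (t_pnewton t_pmono) t_pselect (t_pclose a_pflow a_pglue) h

end Pool.Agent.P.MP_d0f69c_mp.XS.Pre
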