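import Pool.Agent.P.MP_d0f69c_mp.XS.PDefs
import Pool.Agent.P.MP_d0f69c_mp.XS.Close
import Pool.Agent.P.MP_d0f69c_mp.XS.Cell
import Pool.Agent.P.MP_d0f69c_mp.XS.Indep

/-!
The closing phase of a round of the preparation stage.
-/

set_option autoImplicit false

open Finset Real

namespace Pool.Agent.P.MP_d0f69c_mp.XS.Pre

namespace PClose

open CloseA

variable {d M : ℕ} [NeZero M]

theorem pflow_congr {E : PEnv d M} {q : PPar d M} {S : St (Tor d M)} {c : Tor d M}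
    {Z Sg : Finset (Tor d M)} {ω ω' : Tor d M → Bool} {κ κ' : Tor d M → ℕ}
    (h : ∀ x ∈ Z, ω' x = ω x ∧ κ' x = κ x) (f : PFlow E q S c Z Sg ω κ) :
    PFlow E q S c Z Sg ω' κ' := by
  have h1 : ∀ t, pre κ' Z t = pre κ Z t := fun t =>
    filter_congr fun x hx => by rw [(h x hx).2]
  have h2 : ∀ X ⊆ Z, mix X ω' (om S) = mix X ω (om S) := fun X hX => funext fun x => by
    unfold mix
    split_ifs with g
    · rw [(h x (hX g)).1]
    · rfl
  have hG : ∀ X ⊆ Z, E.G S X ω' = E.G S X ω := fun X hX => by rw [PEnv.G, h2 X hX]; rfl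
  have hΓ : ∀ X ⊆ Z, E.Γ S X ω' = E.Γ S X ω := fun X hX => by rw [PEnv.Γ, h2 X hX]; rfl
  have ha : E.a S Z ω' = E.a S Z ω := by rw [PEnv.a, h2 Z subset_rfl]; rfl
  have h3 : ∀ t, E.G S (pre κ Z t) ω' = E.G S (pre κ Z t) ω := fun t => hG _ (filter_subset _ _)
  have h4 : ∀ t, E.Γ S (pre κ Z t) ω' = E.Γ S (pre κ Z t) ω := fun t => hΓ _ (filter_subset _ _)
  have h5 := hΓ Z subset_rfl
  have h6 : ∀ v ∈ Z, ∀ t, E.G S (insert v (pre κ Z t)) ω' = E.G S (insert v (pre κ Z t)) ω :=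
    fun v hv t => hG _ (insert_subset hv (filter_subset _ _))
  refine ⟨?_, ?_, ?_, ?_, ?_, ?_, fun τ φ hφ => ?_, ?_⟩
  · simpa only [h1, h3] using f.nrm
  · simpa only [h1, h4] using f.mis
  · simpa only [h1, h4] using f.amp
  · simpa only [h5] using f.l4
  · simpa only [h5] using f.lJ
  · simpa only [ha] using f.aa
  · refine le_trans (le_of_eq (sum_congr rfl fun v hv => ?_)) (f.y5 τ φ hφ)
    simp only [Y5P, Kt, h1, h3, h6 v (mem_inter.1 hv).1, (h v (mem_inter.1 hv).1).2]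
  · convert f.y6 using 3 with x y
    refine sum_congr rfl fun v hv => ?_
    simp only [Y6P, dAP, h1, h3, h6 v (mem_inter.1 hv).1, (h v (mem_inter.1 hv).1).2]

variable (E : PEnv d M) (q : PPar d M) (cl : Tor d M → ℕ × (Fin d → ℕ)) (S : St (Tor d M))
  (ω : Tor d M → Bool) (κ : Tor d M → ℕ)

/-- one of the flows near `p` fails -/
def Bad (p : Tor d M) : Prop := ∃ C ∈ ((bl p (5 * q.A E.η d)).image cl).powerset,
  ¬ PFlow E q S p (Zg S (Jof cl C) ∩ bl p (5 * q.A E.η d))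
    ((S.sig \ Jof cl C) ∩ bl p (5 * q.A E.η d)) ω κ

open Classical in
/-- the cells that are frozen -/
noncomputable def Cs : Finset (ℕ × (Fin d → ℕ)) :=
  (univ.filter (Bad E q cl S ω κ)).biUnion fun p => (bl p (5 * q.A E.η d)).image cl

open Classical in
/-- the state after the closing phase -/
noncomputable def out (s : ℕ) : St (Tor d M) :=
  { pclose S (Jof cl (Cs E q cl S ω κ)) ω with
    ev := S.ev ∪ (univ.filter (Bad E q cl S ω κ)).image fun p => (s, 1, p) }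

open Classical in
/-- the closing phase -/
noncomputable def stg (s K : ℕ) : Stage (Tor d M) E.N where
  A := Tor d M → Fin (K + 1)
  fA := inferInstance
  nA := inferInstance
  run S v a := if PInv E (q.b1 E.η) S ∧ PSel E q S then out E q cl S (mask S v) (ky a) s else S

variable {E q cl S ω κ}

theorem mem_J {x : Tor d M} : x ∈ Jof cl (Cs E q cl S ω κ) ↔
    ∃ p, Bad E q cl S ω κ p ∧ ∃ y ∈ bl p (5 * q.A E.η d), cl y = cl x := by
  simp only [Jof, Cs, mem_filter, mem_univ, true_and, mem_biUnion, mem_image]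

theorem mem_ev {s : ℕ} {ℓ : Lab (Tor d M)} : ℓ ∈ (out E q cl S ω κ s).ev ↔
    ℓ ∈ S.ev ∨ ∃ p, Bad E q cl S ω κ p ∧ (s, 1, p) = ℓ := by
  simp only [out, mem_union, mem_image, mem_filter, mem_univ, true_and]

theorem Bad.congr {ω' : Tor d M → Bool} {κ' : Tor d M → ℕ} {p : Tor d M}
    (h : ∀ x ∈ S.good \ S.sig, x ∈ bl p (5 * q.A E.η d) → ω x = ω' x ∧ κ x = κ' x)
    (b : Bad E q cl S ω κ p) : Bad E q cl S ω' κ' p := by
  obtain ⟨C, hC, f⟩ := b
  exact ⟨C, hC, fun g => f (pflow_congr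
    (fun x hx => h x (mem_sdiff.1 (mem_inter.1 hx).1).1 (mem_inter.1 hx).2) g)⟩

/-- every ball is frozen or its flow succeeds -/
theorem cover (p : Tor d M) : bl p (5 * q.A E.η d) ⊆ Jof cl (Cs E q cl S ω κ) ∨
    PFlow E q S p (Zg S (Jof cl (Cs E q cl S ω κ)) ∩ bl p (5 * q.A E.η d))
      ((S.sig \ Jof cl (Cs E q cl S ω κ)) ∩ bl p (5 * q.A E.η d)) ω κ := by
  by_cases g : Bad E q cl S ω κ p
  · exact Or.inl fun x hx => mem_J.2 ⟨p, g, x, hx, rfl⟩
  · right
    have key : ∀ X : Finset (Tor d M), (X \ Jof cl (Cs E q cl S ω κ)) ∩ bl p (5 * q.A E.η d) =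
        (X \ Jof cl (Cs E q cl S ω κ ∩ (bl p (5 * q.A E.η d)).image cl)) ∩
          bl p (5 * q.A E.η d) := fun X => by
      ext x
      simp only [mem_inter, mem_sdiff, Jof, mem_filter, mem_univ, true_and]
      exact and_congr_left fun hx => by rw [and_iff_left (mem_image_of_mem cl hx)]
    rw [Zg, key, key]
    by_contra f
    exact g ⟨_, mem_powerset.2 inter_subset_right, f⟩

theorem pr_bad (hE : E.toEnv.OK) (hq : q.toPar.OK E.toEnv) (p : Tor d M)
    (h1 : ∀ Z Sg : Finset (Tor d M), Z ⊆ (S.good \ S.sig) ∩ bl p (5 * q.A E.η d) →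
      Sg ⊆ S.sig ∩ bl p (5 * q.A E.η d) →
      pr (fun z : (Tor d M → Bool) × (Tor d M → Fin (⌈exp (3 * (q.P : ℝ) ^ 3)⌉₊ + 1)) =>
        ¬ PFlow E q S p Z Sg z.1 (ky z.2)) ≤ exp (-2 * (q.P : ℝ) ^ 3))
    (hc : ((bl p (5 * q.A E.η d)).image cl).card ≤ d + 1) :
    pr (fun z : (Tor d M → Bool) × (Tor d M → Fin (⌈exp (3 * (q.P : ℝ) ^ 3)⌉₊ + 1)) =>
      Bad E q cl S z.1 (ky z.2) p) ≤ exp (-(q.P : ℝ) ^ 3) := by
  refine (pr_ex_le _ _ fun C _ => h1 _ _
    (inter_subset_inter_right sdiff_subset) (inter_subset_inter_right sdiff_subset)).trans ?_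
  rw [card_powerset, show -(q.P : ℝ) ^ 3 = (q.P : ℝ) ^ 3 + -2 * (q.P : ℝ) ^ 3 by ring, exp_add]
  refine mul_le_mul_of_nonneg_right ?_ (exp_pos _).le
  generalize ((bl p (5 * q.A E.η d)).image cl).card = n at hc
  have a1 : (n : ℝ) ≤ q.P := by
    have := hq.Pd' hE
    have := hE.d1
    exact_mod_cast (by nlinarith : n ≤ q.P)
  have a4 := hq.pow_le hE (show 1 ≤ 3 by norm_num)
  push_cast
  calc (2 : ℝ) ^ n ≤ exp 1 ^ n :=
        pow_le_pow_left₀ (by norm_num) (by linarith [add_one_le_exp 1]) n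
    _ = exp n := exp_one_pow n
    _ ≤ _ := exp_le_exp.2 (by linarith)

end PClose

variable {d M : ℕ} [NeZero M]

/-- the invariant does not look at the events -/
theorem PInv.ev {E : PEnv d M} {b : PB d M} {S : St (Tor d M)} (h : PInv E b S)
    (e : Finset (Lab (Tor d M))) : PInv E b { S with ev := e } := { h with }

open CloseA PClose in
theorem pclose_of {E : PEnv d M} {q : PPar d M} (s : ℕ) (hE : E.toEnv.OK) (hq : q.toPar.OK E.toEnv)
    (h1 : ∀ S, PInv E (q.b1 E.η) S → PSel E q S → ∀ (p : Tor d M) (Z Sg : Finset (Tor d M)),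
      Z ⊆ (S.good \ S.sig) ∩ bl p (5 * q.A E.η d) → Sg ⊆ S.sig ∩ bl p (5 * q.A E.η d) →
      pr (fun z : (Tor d M → Bool) × (Tor d M → Fin (⌈exp (3 * (q.P : ℝ) ^ 3)⌉₊ + 1)) =>
        ¬ PFlow E q S p Z Sg z.1 (ky z.2)) ≤ exp (-2 * (q.P : ℝ) ^ 3))
    (h2 : ∀ S J ω κ, PInv E (q.b1 E.η) S → PSel E q S → Function.Injective κ →
      (∀ p, bl p (5 * q.A E.η d) ⊆ J ∨ PFlow E q S p (Zg S J ∩ bl p (5 * q.A E.η d))
        ((S.sig \ J) ∩ bl p (5 * q.A E.η d)) ω κ) → PInv E (q.b2 E.η) (pclose S J ω)) :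
    ∃ st : Stage (Tor d M) E.N, PSpec E q s st (fun S => PInv E (q.b1 E.η) S ∧ PSel E q S)
      (PInv E (q.b2 E.η)) 1 (q.D E.η 3) := by
  classical
  obtain ⟨cl, c1, c2⟩ := t_cell d M (5 * q.A E.η d)
  have : Nonempty (Fin E.N) := ⟨⟨0, Nat.pos_of_ne_zero hE.N0⟩⟩
  let st := PClose.stg E q cl s ⌈exp (3 * (q.P : ℝ) ^ 3)⌉₊
  have hp : ∀ S v a, PInv E (q.b1 E.η) S ∧ PSel E q S →
      st.run S v a = PClose.out E q cl S (mask S v) (ky a) s := fun _ _ _ h => if_pos h
  have hn : ∀ S v a, ¬ (PInv E (q.b1 E.η) S ∧ PSel E q S) → st.run S v a = S :=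
    fun _ _ _ h => if_neg h
  refine ⟨st, fun S v a => ?_, fun S v a => ?_, fun S v a h => ?_, fun S v a h hc x hx => ?_,
    fun S h v I hI => ?_, fun S v a h x hx => ?_⟩
  · by_cases h : PInv E (q.b1 E.η) S ∧ PSel E q S
    · rw [hp S v a h]
      refine ⟨union_subset_union_left (sdiff_subset.trans h.2.sg), fun v' hv => ?_⟩
      rw [hp S v' a h]
      congr 1
      funext x
      unfold mask
      split_ifs with g
      · rw [hv x fun g' => (mem_union.1 g').elim (fun e => (mem_sdiff.1 g).2 (mem_sdiff.1 e).1)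
          fun e => disjoint_left.1 h.1.go (mem_sdiff.1 g).1 e]
      · rfl
    · rw [hn S v a h]
      exact ⟨Subset.rfl, fun v' _ => hn S v' a h⟩
  · by_cases h : PInv E (q.b1 E.η) S ∧ PSel E q S
    · rw [hp S v a h]
      refine ⟨fun ℓ g => PClose.mem_ev.2 (Or.inl g), fun ℓ g g' => ?_⟩
      obtain ⟨p, -, rfl⟩ := (PClose.mem_ev.1 g).resolve_left g'
      exact ⟨rfl, mem_singleton_self _⟩
    · rw [hn S v a h]
      exact ⟨Subset.rfl, fun ℓ g g' => absurd g g'⟩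
  · rw [hp S v a h]
    exact (h2 S _ _ _ h.1 h.2 (ky_inj _) cover).ev _
  · rw [hp S v a h] at hx ⊢
    simp only [PClose.out, pclose, St.O, mem_union, mem_sdiff, mem_inter] at hx
    by_cases g : x ∈ Zg S (Jof cl (PClose.Cs E q cl S (mask S v) (ky a)))
    · have e : mask S v x = (v x).1 := if_pos (mem_sdiff.1 g).1
      rw [← e]
      simp [om, PClose.out, pclose, g]
    · refine Eq.trans (by simp [om, PClose.out, pclose, g]) (hc x ?_)
      simp only [St.O, Zg, mem_union, mem_sdiff] at g ⊢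
      tauto
  · refine (pr_mono (B := fun z => ∀ x ∈ I,
      PClose.Bad E q cl S (fun y => (z.1 y).1) (ky z.2) x) fun z hz x hx => ?_).trans ?_
    · obtain ⟨g, g'⟩ := hz x hx
      rw [hp S _ _ h] at g
      obtain ⟨p, b, e⟩ := (PClose.mem_ev.1 g).resolve_left g'
      obtain rfl : p = x := congrArg (fun ℓ => ℓ.2.2) e
      refine b.congr fun y hy _ => ⟨?_, rfl⟩
      rw [mask, if_pos hy, mix,
        if_pos (show y ∈ S.U from mem_union_left _ (mem_sdiff.1 hy).1)]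
    · exact pr_all t_indep I (fun x => bl x (5 * q.A E.η d))
        (fun w a => PClose.Bad E q cl S w (ky a))
        (fun x hx y hy e => hI.disj (by
          have := hq.A_grow' hE
          unfold Par.rad
          omega) hx hy e)
        (fun x w a w' a' e b => b.congr fun y _ hy => by simp only [ky, e y hy, and_self])
        fun x => PClose.pr_bad hE hq x (h1 S h.1 h.2 x) (c1 x)
  · rw [hp S v a h] at hx ⊢
    refine (mem_union.1 hx).imp id fun g => ?_
    obtain ⟨p, b, y, hy, e⟩ := PClose.mem_J.1 (mem_inter.1 g).2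
    refine ⟨(s, 1, p), PClose.mem_ev.2 (Or.inr ⟨p, b, rfl⟩), ?_⟩
    have a1 := nm_tri p y x
    have a2 := c2 y x e
    have a3 := mem_bl.1 hy
    have a4 := (hq.D_one hE 2).trans (Par.OK.D_le_A hE)
    have a5 := hq.A_grow hE
    have a6 := hE.d1
    rw [nm_comm] at a3
    show nm (p - x) ≤ _
    generalize q.A E.η d = A at *
    nlinarith [Nat.le_mul_of_pos_left A a6, Nat.le_mul_of_pos_right d a4]

end Pool.Agent.P.MP_d0f69c_mp.XS.Pre
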