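import Pool.Agent.P.MP_d0f69c_mp.XS.Pr

/-!
The covariance on the cube as a sum over the coordinates, with two copies of the signs.
-/

set_option autoImplicit false

open Finset Function

namespace Pool.Agent.P.MP_d0f69c_mp.XS.Pre

/-- uniform average with values in a complex vector space -/
noncomputable def cav {α R : Type} [Fintype α] [AddCommMonoid R] [Module ℂ R] (F : α → R) : R :=
  (Fintype.card α : ℂ)⁻¹ • ∑ a, F a

/-- half of the difference of the two values at the coordinate `w` -/
noncomputable def Dc {ι R : Type} [DecidableEq ι] [AddCommGroup R] [Module ℂ R] (w : ι)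
    (F : (ι → Bool) → R) (s : ι → Bool) : R :=
  (2 : ℂ)⁻¹ • (F (update s w true) - F (update s w false))

section module

variable {α β R R' : Type} [Fintype α] [Fintype β] [AddCommGroup R] [Module ℂ R]
  [AddCommGroup R'] [Module ℂ R']

theorem cav_map (f : R →ₗ[ℂ] R') (F : α → R) : f (cav F) = cav fun a => f (F a) := by
  simp [cav, map_sum]

theorem cav_add (F G : α → R) : cav (fun a => F a + G a) = cav F + cav G := by
  simp [cav, sum_add_distrib]

theorem cav_sub (F G : α → R) : cav (fun a => F a - G a) = cav F - cav G := by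
  simp [cav, sum_sub_distrib, smul_sub]

theorem cav_sum {κ : Type} (S : Finset κ) (F : κ → α → R) :
    cav (fun a => ∑ k ∈ S, F k a) = ∑ k ∈ S, cav (F k) := by
  simp only [cav, ← smul_sum]; rw [sum_comm]

theorem cav_const [Nonempty α] (c : R) : cav (fun _ : α => c) = c := by
  have : (Fintype.card α : ℂ) ≠ 0 := by exact_mod_cast Fintype.card_ne_zero
  rw [cav, sum_const, card_univ, ← Nat.cast_smul_eq_nsmul ℂ, smul_smul, inv_mul_cancel₀ this,
    one_smul]

theorem cav_prod (F : α × β → R) : cav F = cav fun a => cav fun b => F (a, b) := by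
  simp only [cav, Fintype.sum_prod_type, Fintype.card_prod, ← smul_sum, smul_smul, Nat.cast_mul,
    mul_inv]

theorem norm_cav_le (F : α → ℂ) : ‖cav F‖ ≤ av fun a => ‖F a‖ := by
  rw [cav, av, norm_smul, norm_inv, Complex.norm_natCast, div_eq_inv_mul]
  exact mul_le_mul_of_nonneg_left (norm_sum_le _ _) (by positivity)

theorem cav_ofReal (f : α → ℝ) : cav (fun a => (f a : ℂ)) = (av f : ℝ) := by
  simp [cav, av, div_eq_inv_mul]

end module

/-- the inequality of Cauchy and Schwarz for averages -/
theorem av_mul_le {α : Type} [Fintype α] (f g : α → ℝ) :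
    av (fun a => f a * g a) ≤ √(av fun a => f a ^ 2) * √(av fun a => g a ^ 2) := by
  rw [← Real.sqrt_mul (av_nonneg fun _ => sq_nonneg _)]
  refine Real.le_sqrt_of_sq_le ?_
  simp only [av]
  rw [div_pow, div_mul_div_comm, ← sq]
  exact div_le_div_of_nonneg_right (sum_mul_sq_le_sq_mul_sq _ _ _) (by positivity)

variable {ι : Type} [Fintype ι] [DecidableEq ι]

theorem sum_half {R : Type} [AddCommGroup R] [Module ℂ R] (w : ι) (φ : (ι → Bool) → R) :
    ∑ s, φ s = ∑ s, (2 : ℂ)⁻¹ • (φ (update s w true) + φ (update s w false)) := by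
  have i : Involutive fun s : ι → Bool => update s w (!s w) := fun s => by simp
  have e : ∀ s : ι → Bool, φ (update s w true) + φ (update s w false) =
      φ s + φ (update s w (!s w)) := fun s => by
    cases h : s w
    · rw [← h, update_eq_self, h, add_comm]; rfl
    · rw [← h, update_eq_self, h]; rfl
  simp only [e]
  rw [← smul_sum, sum_add_distrib, i.bijective.sum_comp φ, ← two_smul ℂ, smul_smul,
    inv_mul_cancel₀ two_ne_zero, one_smul]

/-- a hybrid of two independent copies has the uniform law -/
theorem av_mix (B : Finset ι) (f : (ι → Bool) → ℝ) :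
    av (fun p : (ι → Bool) × (ι → Bool) => f (mix B p.1 p.2)) = av f := by
  rw [av_prod', ← av_stop (fun _ => B) (fun _ _ _ => rfl) f]

variable {R : Type} [Ring R] [Algebra ℂ R]

theorem cov_step {A : Finset ι} {w : ι} (hw : w ∉ A) (F G : (ι → Bool) → R) :
    ∑ s, ∑ s', F s * G (mix (insert w A) s s') =
      ∑ s, ∑ s', F s * G (mix A s s') + ∑ s, ∑ s', Dc w F s * Dc w G (mix A s s') := by
  have m1 : ∀ (s s' : ι → Bool) b, mix A (update s w b) s' = mix A s s' := fun s s' b =>
    funext fun y => by
      by_cases h : y ∈ A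
      · simp [mix, h, update_of_ne (ne_of_mem_of_not_mem h hw)]
      · simp [mix, h]
  have m2 : ∀ (s s' : ι → Bool) b, mix A s (update s' w b) = update (mix A s s') w b :=
    fun s s' b => funext fun y => by
      by_cases h : y = w
      · subst h; simp [mix, hw]
      · simp [mix, update_of_ne h]
  have m3 : ∀ s s' : ι → Bool, mix (insert w A) s s' = update (mix A s s') w (s w) :=
    fun s s' => funext fun y => by
      by_cases h : y = w
      · subst h; simp [mix]
      · simp [mix, h]
  have h1 : ∀ s, ∑ s', F s * G (mix A s s') = ∑ s', (2 : ℂ)⁻¹ •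
      (F s * G (update (mix A s s') w true) + F s * G (update (mix A s s') w false)) := fun s => by
    rw [sum_half w]; simp only [m2]
  simp only [m3, h1]
  rw [← sum_add_distrib]
  simp only [← sum_add_distrib]
  rw [sum_comm, sum_comm (s := univ) (t := univ) (f := fun s s' => _ + _)]
  refine sum_congr rfl fun s' _ => ?_
  rw [sum_half w, sum_half w (fun s => _ + _)]
  refine sum_congr rfl fun s _ => ?_
  simp only [m1, Dc, update_self, update_idem, smul_mul_smul_comm, mul_sub, sub_mul]
  module

/-- the covariance is a sum over the coordinates; the coordinate `y` comes first -/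
theorem cov_sum (y : ι) : ∃ B : ι → Finset ι, B y = ∅ ∧
    ∀ (R : Type) [Ring R] [Algebra ℂ R] (F G : (ι → Bool) → R),
      cav (fun s => F s * G s) - cav F * cav G =
        ∑ w, cav fun p : (ι → Bool) × (ι → Bool) => Dc w F p.1 * Dc w G (mix (B w) p.1 p.2) := by
  have key : ∀ A : Finset ι, y ∉ A → ∃ B : ι → Finset ι, B y = ∅ ∧
      ∀ (R : Type) [Ring R] [Algebra ℂ R] (F G : (ι → Bool) → R),
        ∑ s, ∑ s', F s * G (mix (insert y A) s s') = ∑ s, ∑ s', F s * G s' +
          ∑ w ∈ insert y A, ∑ s, ∑ s', Dc w F s * Dc w G (mix (B w) s s') := by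
    intro A
    induction A using Finset.induction_on with
    | empty =>
      refine fun h => ⟨fun _ => ∅, rfl, fun R _ _ F G => ?_⟩
      rw [cov_step h, insert_empty_eq, sum_singleton]
      rfl
    | insert w A hw ih =>
      intro h
      have hy : w ≠ y := fun e => h (e ▸ mem_insert_self _ _)
      obtain ⟨B, hB, ih⟩ := ih fun c => h (mem_insert_of_mem c)
      have hw' : w ∉ insert y A := by simp [hy, hw]
      refine ⟨update B w (insert y A), by rw [update_of_ne hy.symm, hB], fun R _ _ F G => ?_⟩
      rw [insert_comm, cov_step hw', ih, sum_insert hw', update_self, add_assoc, add_right_inj,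
        add_comm, add_right_inj]
      exact sum_congr rfl fun u hu => by rw [update_of_ne (ne_of_mem_of_not_mem hu hw')]
  obtain ⟨B, hB, h⟩ := key (univ.erase y) (notMem_erase _ _)
  refine ⟨B, hB, fun R _ _ F G => ?_⟩
  have hc : (Fintype.card (ι → Bool) : ℂ) ≠ 0 := by exact_mod_cast Fintype.card_ne_zero
  have e : ∀ s s' : ι → Bool, mix univ s s' = s := fun s s' => funext fun y => if_pos (mem_univ y)
  have h1 := h R F G
  rw [insert_erase (mem_univ y)] at h1
  simp only [e, sum_const, card_univ, ← Nat.cast_smul_eq_nsmul ℂ, ← smul_sum] at h1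
  simp only [cav, Fintype.sum_prod_type, Fintype.card_prod, ← smul_sum, Nat.cast_mul, mul_inv,
    smul_mul_smul_comm, sum_mul_sum]
  rw [← sub_eq_iff_eq_add'] at h1
  rw [← h1, smul_sub, smul_smul, inv_mul_cancel_right₀ hc]

/-- the first piece factorises -/
theorem cov_first (F G : (ι → Bool) → R) :
    cav (fun p : (ι → Bool) × (ι → Bool) => F p.1 * G (mix ∅ p.1 p.2)) = cav F * cav G := by
  simp only [cav, Fintype.sum_prod_type, Fintype.card_prod, Nat.cast_mul, mul_inv,
    smul_mul_smul_comm, sum_mul_sum]
  rfl

/-- the odd part of an average -/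
theorem cav_sgn {R : Type} [AddCommGroup R] [Module ℂ R] (w : ι) (F : (ι → Bool) → R) :
    cav (fun s => sgn (s w) • F s) = cav (Dc w F) := by
  unfold cav
  rw [sum_half w]
  simp only [update_self, sgn, Dc, if_true, Bool.false_eq_true, if_false, one_smul, neg_smul,
    sub_eq_add_neg]

end Pool.Agent.P.MP_d0f69c_mp.XS.Pre
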