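import Pool.Agent.P.MP_d0f69c_mp.XS.CT

/-!
Decay of the solution of `v + k v = g` from local lower bounds, for a general kernel `k`.
-/

set_option autoImplicit false

open Finset Real

namespace Pool.Agent.P.MP_d0f69c_mp.XS.Pre

variable {d M : ℕ} [NeZero M]

omit [NeZero M] in
theorem cw_mul_le {l ρ : ℕ} (hl : 0 < l) (hρ : 2 * l ≤ ρ) (z x : Tor d M) {a B : ℝ} (hB : 0 ≤ B)
    (h : a ≤ B * exp (-(nm (x - z) : ℝ) / l)) :
    cw ρ z x * a ≤ B * exp (-(nm (x - z) : ℝ) / (2 * l)) := by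
  have hl' : (0 : ℝ) < l := by exact_mod_cast hl
  have h1 : (nm (x - z) : ℝ) / ρ ≤ nm (x - z) / (2 * l) :=
    div_le_div_of_nonneg_left (Nat.cast_nonneg _) (by positivity) (by exact_mod_cast hρ)
  refine (mul_le_mul_of_nonneg_left h (cw_pos _ _ _).le).trans
    ((mul_le_mul_of_nonneg_right (exp_le_exp.2 h1) (by positivity)).trans_eq ?_)
  rw [mul_left_comm, ← exp_add]
  congr 2
  field_simp
  ring

omit [NeZero M] in
/-- decay of a product of two kernels -/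
theorem dec_mul {G Δ : Tor d M → Tor d M → ℂ} {X : Finset (Tor d M)} {B c V : ℝ} {l : ℕ}
    (hl : 0 < l) (hB : 0 ≤ B) (hc : 0 ≤ c) {x w : Tor d M}
    (hG : ∀ y ∈ X, ‖G x y‖ ≤ B * exp (-(nm (x - y) : ℝ) / l))
    (hΔ : ∀ y ∈ X, ‖Δ y w‖ ≤ c * exp (-(nm (y - w) : ℝ) / l))
    (hV : ∑ y ∈ X, exp (-(nm (y - x) : ℝ) / (2 * l)) ≤ V) :
    ‖∑ y ∈ X, G x y * Δ y w‖ ≤ B * c * V * exp (-(nm (x - w) : ℝ) / (2 * l : ℕ)) := by
  have hl' : (0 : ℝ) < l := by exact_mod_cast hl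
  refine (norm_sum_le _ _).trans (le_trans ?_ (mul_le_mul_of_nonneg_right
    (mul_le_mul_of_nonneg_left hV (mul_nonneg hB hc)) (exp_pos _).le))
  rw [mul_sum, sum_mul]
  refine sum_le_sum fun y hy => ?_
  rw [norm_mul]
  refine (mul_le_mul (hG y hy) (hΔ y hy) (norm_nonneg _) (by positivity)).trans ?_
  rw [mul_mul_mul_comm, mul_assoc (B * c), ← exp_add, ← exp_add]
  refine mul_le_mul_of_nonneg_left (exp_le_exp.2 ?_) (mul_nonneg hB hc)
  have a : (nm (x - w) : ℝ) ≤ nm (x - y) + nm (y - w) := by exact_mod_cast nm_tri x y w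
  have b : (0 : ℝ) ≤ nm (y - w) := Nat.cast_nonneg _
  rw [nm_comm y x]
  push_cast
  rw [← add_div, ← add_div, div_le_div_iff₀ hl' (by positivity)]
  nlinarith

/-- pointwise decay of the solution -/
theorem ct_ker {O X : Finset (Tor d M)} {k : Matrix (Tor d M) (Tor d M) ℂ} {v g : Tor d M → ℂ}
    {l ρ R s : ℕ} {Λ κ Bk B τ V Γ : ℝ} (z : Tor d M) (l0 : 0 < l) (lρ : 2 * l ≤ ρ) (R0 : 0 < R)
    (Rs : R ≤ s) (sρ : s ≤ ρ) (ds : d * s ≤ ρ) (hX : X ⊆ O) (hΛ : 0 ≤ Λ) (hκ : 0 ≤ κ)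
    (hBk : 0 ≤ Bk) (hB : 0 ≤ B) (hv : ∀ x ∈ O, v x + ap X k v x = g x) (hk : OpLe X k κ)
    (hrow : ∀ x ∈ O, nS X (k x) ≤ κ) (hD : Dec k O Bk l) (hfar : Far d M Bk l R τ)
    (hg : ∀ x ∈ O, ‖g x‖ ≤ B * exp (-(nm (x - z) : ℝ) / l))
    (hV : ∑ x ∈ X, exp (-(nm (x - z) : ℝ) / (2 * l)) ≤ V)
    (hl : ∀ (p : Tor d M) (u : Tor d M → ℂ), (∀ x ∉ X ∩ bl p (ρ + s), u x = 0) →
      nS X u ≤ Λ * nS X (u + ap X k u))
    (hΓ0 : 0 ≤ Γ) (hΓ : 6 * Λ ^ 2 * exp 8 * exp 2 ≤ Γ ^ 2)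
    (hs : Γ ^ 2 * ((3 * (R / s) * (κ + τ) + τ) ^ 2 + τ ^ 2) ≤ 1) {x : Tor d M} (hx : x ∈ O) :
    ‖v x‖ ≤ B * (1 + (3 * κ + τ) * Γ * V) * exp (-(nm (x - z) : ℝ) / ρ) := by
  have ρ0 : (0 : ℝ) < ρ := by exact_mod_cast R0.trans_le (Rs.trans sρ)
  have f0 := fk_nonneg (d := d) (M := M) hBk l R
  have τ0 : 0 ≤ τ := by simpa using hfar.row hBk ∅ z
  let kf : Tor d M → Tor d M → ℂ := fun a b => if R < nm (a - b) then k a b else 0
  let kn : Tor d M → Tor d M → ℂ := fun a b => k a b - kf a b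
  have ek : kn + kf = k := by funext a b; simp [kn]
  have kb : ∀ a ∈ O, ∀ b, exp (nm (a - b) / ρ) * ‖kf a b‖ ≤ fk Bk l R a b := fun a ha b => by
    simp only [kf]
    split_ifs with h
    · exact hD.fk le_rfl l0 lρ ha h
    · simpa using f0 a b
  have sch : ∀ Y : Tor d M → Tor d M → ℂ,
      (∀ a ∈ X, ∀ b ∈ X, ‖Y a b‖ ≤ exp (nm (a - b) / ρ) * ‖kf a b‖) → OpLe X Y τ :=
    fun Y hY => OpLe.schur (fun a ha b hb => (hY a ha b hb).trans (kb a (hX ha) b)) τ0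
      (fun a _ => hfar.row hBk X a) fun b _ => by
        simp only [fk_symm _ _ _ _ b]; exact hfar.row hBk X b
  have hf : OpLe X kf τ := sch _ fun a _ b _ =>
    le_mul_of_one_le_left (norm_nonneg _) (one_le_exp (by positivity))
  have hw : OpLe X (fun a b => cw ρ z a * kf a b * (cw ρ z b : ℂ)⁻¹) τ :=
    sch _ fun a _ b _ => by
      rw [norm_mul, norm_mul, norm_inv, Complex.norm_real, Complex.norm_real,
        Real.norm_of_nonneg (cw_pos _ _ _).le, Real.norm_of_nonneg (cw_pos _ _ _).le,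
        mul_inv_le_iff₀ (cw_pos _ _ _), mul_right_comm]
      exact mul_le_mul_of_nonneg_right (cw_le ρ z a b) (norm_nonneg _)
  have core := ct_core (v := v) (g := g) z R0 Rs sρ ds hΛ (add_nonneg hκ τ0) τ0
    (fun a ha => by rw [ek]; exact hv a (hX ha)) (hk.diff hf) (fun a b h => by
      by_contra h'
      exact h (by simp only [kf, if_pos (not_le.1 h'), sub_self])) hf hw
    (fun p u h => by rw [ek]; exact hl p u h) hΓ0 hΓ hs
  have g1 : nS X (fun a => cw ρ z a * g a) ≤ B * V := by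
    refine (nS_le_sum _ _).trans (le_trans ?_ (mul_le_mul_of_nonneg_left hV hB))
    rw [mul_sum]
    refine sum_le_sum fun a ha => ?_
    rw [norm_mul, Complex.norm_real, Real.norm_of_nonneg (cw_pos _ _ _).le]
    exact cw_mul_le l0 lρ z a hB (hg a (hX ha))
  have g2 : nS X (fun y => exp (nm (x - y) / ρ) * k x y) ≤ 3 * κ + τ := by
    have e : ∀ y ∈ X, ((exp (nm (x - y) / ρ) : ℝ) : ℂ) * k x y =
        ((fun y => ((exp (nm (x - y) / ρ) : ℝ) : ℂ) * kn x y) +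
        fun y => ((exp (nm (x - y) / ρ) : ℝ) : ℂ) * kf x y) y :=
      fun y _ => by simp only [Pi.add_apply, kn]; ring
    rw [nS_congr e]
    refine (nS_add _ _ _).trans (add_le_add ((nS_le_mul (w := k x) (by norm_num) fun y _ => ?_).trans
      (mul_le_mul_of_nonneg_left (hrow x hx) (by norm_num))) ((nS_le_sum _ _).trans
      ((sum_le_sum fun y _ => ?_).trans (hfar.row hBk X x))))
    · simp only [kn, kf]
      split_ifs with h
      · simp
      · rw [sub_zero, norm_mul, Complex.norm_real, Real.norm_of_nonneg (exp_pos _).le]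
        refine mul_le_mul_of_nonneg_right ((exp_le_exp.2 ?_).trans exp_one_lt_three.le)
          (norm_nonneg _)
        rw [div_le_one ρ0]
        exact_mod_cast (not_lt.1 h).trans (Rs.trans sρ)
    · rw [norm_mul, Complex.norm_real, Real.norm_of_nonneg (exp_pos _).le]
      exact kb x hx y
  have g3 : cw ρ z x * ‖ap X k v x‖ ≤ (3 * κ + τ) * (Γ * (B * V)) := by
    refine le_trans ?_ ((nS_cs' X _ _).trans (mul_le_mul g2 (core.trans
      (mul_le_mul_of_nonneg_left g1 hΓ0)) (nS_nonneg _ _) (by positivity)))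
    refine (mul_le_mul_of_nonneg_left (norm_sum_le _ _) (cw_pos _ _ _).le).trans ?_
    rw [mul_sum]
    refine sum_le_sum fun y hy => ?_
    simp only [norm_mul, Complex.norm_real, Real.norm_of_nonneg (exp_pos _).le,
      Real.norm_of_nonneg (cw_pos _ _ _).le]
    have := mul_le_mul_of_nonneg_right (cw_le ρ z x y)
      (mul_nonneg (norm_nonneg (k x y)) (norm_nonneg (v y)))
    linarith
  have g4 : cw ρ z x * ‖g x‖ ≤ B := (cw_mul_le l0 lρ z x hB (hg x hx)).trans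
    (mul_le_of_le_one_right hB (exp_le_one_iff.2
      (div_nonpos_of_nonpos_of_nonneg (neg_nonpos.2 (Nat.cast_nonneg _)) (by positivity))))
  rw [neg_div, exp_neg, ← div_eq_mul_inv, le_div_iff₀ (exp_pos _), mul_comm,
    eq_sub_of_add_eq (hv x hx)]
  refine (mul_le_mul_of_nonneg_left (norm_sub_le _ _) (exp_pos _).le).trans ?_
  rw [mul_add]
  exact (add_le_add g4 g3).trans_eq (by ring)

end Pool.Agent.P.MP_d0f69c_mp.XS.Pre
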