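import Pool.Agent.P.MP_d0f69c_mp.XS.PNw2
import Pool.Agent.P.MP_d0f69c_mp.XS.PIfS

/-!
Conversion to diagonal leads: estimates for general matrices.
-/

set_option autoImplicit false

open Finset Real Matrix

namespace Pool.Agent.P.MP_d0f69c_mp.XS.Pre

variable {ι : Type} [Fintype ι] [DecidableEq ι] {O T Om : Finset ι} {G G' Δ : ι → ι → ℂ}
  {η δ s Λ g τ : ℝ}

/-- the inequality of Ward -/
def Wd (O : Finset ι) (G : ι → ι → ℂ) (η : ℝ) : Prop :=
  ∀ T ⊆ O, ∀ u : ι → ℂ, η / 2 * nS O (ap T G u) ^ 2 ≤ |(∑ x ∈ T, star (u x) * ap T G u x).im|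

omit [Fintype ι] [DecidableEq ι] in
theorem Wd.op (h : Wd O G η) (η0 : 0 < η) : OpLe O G (2 / η) := fun u => by
  have a := (h O Subset.rfl u).trans ((Complex.abs_im_le_norm _).trans (nS_cs O _ _))
  rw [show nS O (fun x => star (u x)) = nS O u by simp [nS]] at a
  rw [div_mul_eq_mul_div, le_div_iff₀ η0]
  rcases (nS_nonneg O (ap O G u)).eq_or_lt with e | e
  · rw [← e, zero_mul]; exact mul_nonneg zero_le_two (nS_nonneg _ _)
  · exact le_of_mul_le_mul_right (by linarith) e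

omit [Fintype ι] in
theorem Wd.cols (h : Wd O G η) (η0 : 0 < η) (hT : T ⊆ O) (h1 : ∀ x ∈ T, |(G x x).im| ≤ 2 * η)
    (h2 : OpLe T (fun x y => if x = y then 0 else G x y) η) (u : ι → ℂ) :
    nS O (ap T G u) ≤ 3 * nS T u := by
  have e : ∑ x ∈ T, star (u x) * ap T G u x = ∑ x ∈ T, (‖u x‖ ^ 2 : ℝ) * G x x +
      ∑ x ∈ T, star (u x) * ap T (fun x y => if x = y then 0 else G x y) u x := by
    rw [← sum_add_distrib]
    refine sum_congr rfl fun x hx => ?_
    rw [ap, ap, ← add_sum_erase _ _ hx, ← add_sum_erase _ _ hx, if_pos rfl, zero_mul, zero_add,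
      sum_congr rfl (f := fun y => (if x = y then 0 else G x y) * u y) fun y hy => by
        rw [if_neg (ne_of_mem_erase hy).symm]]
    push_cast
    rw [← Complex.conj_mul', mul_add]
    simp only [Complex.star_def]
    ring
  have a := h T hT u
  have a1 := ((Complex.abs_im_le_norm _).trans (nS_cs T (fun x => star (u x)) _)).trans
    (mul_le_mul_of_nonneg_left (h2 u) (nS_nonneg _ _))
  have a2 : |(∑ x ∈ T, (‖u x‖ ^ 2 : ℝ) * G x x).im| ≤ 2 * η * nS T u ^ 2 := by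
    rw [Complex.im_sum, nS_sq, mul_sum]
    refine (abs_sum_le_sum_abs _ _).trans (sum_le_sum fun x hx => ?_)
    rw [Complex.im_ofReal_mul, abs_mul, abs_of_nonneg (sq_nonneg _), mul_comm]
    exact mul_le_mul_of_nonneg_right (h1 x hx) (sq_nonneg _)
  rw [show nS T (fun x => star (u x)) = nS T u by simp [nS]] at a1
  rw [e, Complex.add_im] at a
  refine le_of_sq_le_sq (le_of_mul_le_mul_left ?_ η0) (mul_nonneg (by norm_num) (nS_nonneg _ _))
  linarith [abs_add_le (∑ x ∈ T, (‖u x‖ ^ 2 : ℝ) * G x x).im (∑ x ∈ T, star (u x) *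
    ap T (fun x y => if x = y then 0 else G x y) u x).im, mul_nonneg η0.le (sq_nonneg (nS T u))]

omit [Fintype ι] in
theorem Wd.row (h : Wd O G η) (η0 : 0 < η) (hs : ∀ x y, G x y = G y x) {x : ι} (hx : x ∈ O)
    (h1 : |(G x x).im| ≤ 2 * η) : nS O (G x) ≤ 3 := by
  have := h.cols η0 (singleton_subset_iff.2 hx) (by simpa using h1) (fun u => by
    simpa [nS, ap] using mul_nonneg η0.le (norm_nonneg _)) fun _ => 1
  simpa [nS, ap, hs x] using this

omit [Fintype ι] [DecidableEq ι] in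
theorem PrtM.app (h : PrtM O G G' Δ δ s) (u : ι → ℂ) :
    ap O G' u = ap O G u - ap O G' (ap O Δ (ap O G u)) := funext fun x => by
  have e : ∀ y, G' x y = G x y - ∑ z ∈ O, G' x z * ap O Δ (G y) z := fun y => by
    rw [h.sym' x y, h.id y x, h.sym y x, ap_swap h.symD]
  rw [Pi.sub_apply, ap, sum_congr rfl fun y _ => by rw [e y, sub_mul], sum_sub_distrib]
  congr 1
  simp only [ap, sum_mul, mul_sum]
  rw [sum_comm]
  refine sum_congr rfl fun z _ => ?_
  rw [sum_comm]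
  exact sum_congr rfl fun w _ => sum_congr rfl fun y _ => by rw [h.sym y w]; ring

omit [Fintype ι] [DecidableEq ι] in
theorem PrtM.opG (h : PrtM O G G' Δ δ s) (hG : OpLe O G Λ) :
    OpLe O G' (4 / 3 * Λ) := fun u => by
  have a := nS_sub O (ap O G u) (ap O G' (ap O Δ (ap O G u)))
  rw [← h.app] at a
  have b := mul_le_mul h.s1 (hG u) (nS_nonneg _ _) (by norm_num)
  linarith [h.op' (ap O G u), hG u]

omit [Fintype ι] in
/-- the row of an isolated site is rescaled -/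
theorem PrtM.iso (h : PrtM O G G' Δ δ s) (hG : OpLe O G' Λ) (Λ0 : 0 ≤ Λ) (hT : T ⊆ O) {x : ι}
    (hx : x ∈ O \ T) {c : ℂ} (τ0 : 0 ≤ τ) (hg : nS O (G x) ≤ g)
    (hΔ : OpLe O (fun z w => (if w ∈ T then 0 else Δ z w) - if z = w then
      if z = x then c else 0 else 0) τ) :
    nS O (fun y => G' x y * (1 + c * G x x) - G x y) ≤ Λ * τ * g + s * nS T (G x) := by
  have a1 := (hG _).trans (mul_le_mul_of_nonneg_left ((hΔ (G x)).trans
    (mul_le_mul_of_nonneg_left hg τ0)) Λ0)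
  have a2 := h.op' fun w => if w ∈ T then G x w else 0
  rw [nS_ite, inter_eq_right.2 hT] at a2
  refine le_trans (nS_le_nS fun y _ => le_of_eq ?_) ((nS_add _ _ _).trans
    ((add_le_add a1 a2).trans_eq (by ring)))
  rw [← ap_add', ← norm_neg, mul_add, mul_one, add_sub_right_comm, h.id x y, sub_sub_cancel_left,
    ← h.id x y, ap_swap h.symD, h.sym' x y]
  have e : G' y x * (c * G x x) = ∑ z ∈ O, G' y z * if z = x then c * G x z else 0 := by
    simp [(mem_sdiff.1 hx).1]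
  rw [e, neg_add, neg_neg, ← sub_eq_add_neg, ← sum_sub_distrib, ap]
  refine congrArg _ (sum_congr rfl fun z hz => ?_)
  rw [← mul_sub, Pi.add_apply, ap, ap, ap, ← sum_add_distrib]
  have e2 : (if z = x then c * G x z else 0) =
      ∑ w ∈ O, (if z = w then if z = x then c else 0 else 0) * G x w := by simp [hz]
  rw [e2, ← sum_sub_distrib]
  refine congrArg _ (sum_congr rfl fun w _ => ?_)
  by_cases b : w ∈ T
  · simp only [b, if_true]; ring
  · simp only [b, if_false]; ring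

/-- one row of a kernel with small sums -/
theorem maj_row {k : ι → ι → ℝ} {B : Matrix ι ι ℂ} (w : ι) (k0 : ∀ y, 0 ≤ k w y)
    (k1 : ∑ y, k w y ≤ τ) (hB : ∀ y, ‖B w y‖ ≤ k w y) {D : ι → ℝ} (D0 : ∀ u, 0 ≤ D u)
    (D1 : 1 ≤ D w) (D2 : ∀ u, k w u ≤ D u) :
    Maj (of fun x y => if x = w then B w y else 0) D √τ := fun ξ ζ => by
  have e : bf (of fun x y => if x = w then B w y else 0) ξ ζ = ξ w * ∑ y, B w y * ζ y := by
    simp [bf_eq, mul_sum, mul_assoc]
  have a : ‖ξ w‖ ≤ no D ξ := le_of_sq_le_sq (by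
    rw [no_sq D0]
    exact (le_mul_of_one_le_left (sq_nonneg _) D1).trans (single_le_sum
      (f := fun u => D u * ‖ξ u‖ ^ 2) (fun u _ => mul_nonneg (D0 u) (sq_nonneg _)) (mem_univ w)))
    (no_nonneg _ _)
  have τ0 := (sum_nonneg fun y _ => k0 y).trans k1
  rw [e, norm_mul, mul_comm √τ, mul_assoc]
  refine mul_le_mul a ((norm_sum_le _ _).trans (le_of_sq_le_sq ?_
    (mul_nonneg (sqrt_nonneg _) (no_nonneg _ _)))) (norm_nonneg _) (no_nonneg _ _)
  rw [mul_pow, sq_sqrt τ0, no_sq D0]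
  refine (sum_sq_le_sum_mul_sum_of_sq_le_mul univ (fun y _ => k0 y) (g := fun y => D y * ‖ζ y‖ ^ 2)
    (fun y _ => mul_nonneg (D0 y) (sq_nonneg _)) fun y _ => ?_).trans
    (mul_le_mul_of_nonneg_right k1 (sum_nonneg fun y _ => mul_nonneg (D0 y) (sq_nonneg _)))
  rw [norm_mul, mul_pow, ← mul_assoc, sq]
  exact mul_le_mul_of_nonneg_right (mul_le_mul (hB y) ((hB y).trans (D2 y)) (norm_nonneg _) (k0 y))
    (sq_nonneg _)

omit [DecidableEq ι] in
theorem Maj.weak {B : Matrix ι ι ℂ} {D D' : ι → ℝ} {c : ℝ} (h : Maj B D c) (hc : 0 ≤ c)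
    (hD : ∀ u, D u ≤ D' u) : Maj B D' c := fun ξ ζ => by
  have a : ∀ θ, no D θ ≤ no D' θ := fun θ => sqrt_le_sqrt (sum_le_sum fun u _ =>
    mul_le_mul_of_nonneg_right (hD u) (sq_nonneg _))
  exact (h ξ ζ).trans (mul_le_mul (mul_le_mul_of_nonneg_left (a ξ) hc) (a ζ) (no_nonneg _ _)
    (mul_nonneg hc (no_nonneg _ _)))

omit [DecidableEq ι] in
theorem Maj.plus {B B' : Matrix ι ι ℂ} {D : ι → ℝ} {c c' : ℝ} (h : Maj B D c) (h' : Maj B' D c') :
    Maj (B + B') D (c + c') := fun ξ ζ => by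
  rw [bf, add_mulVec, dotProduct_add, add_mul, add_mul]
  exact (norm_add_le _ _).trans (add_le_add (h ξ ζ) (h' ξ ζ))

omit [Fintype ι] in
/-- the retarded-retarded matrix -/
theorem PrtM.disc (h : PrtM O G G' Δ δ s) (hT : T ⊆ O) (hg : ∀ x ∈ T, nS O (G x) ≤ g)
    {c : ι → ℂ} {ε θ : ℝ} (ε0 : 0 ≤ ε) (hc : ∀ x ∈ T, ‖c x - 1‖ ≤ ε) (θ0 : 0 ≤ θ) (θ1 : θ ≤ 1 / 4)
    (h1 : ε + 3 * s * g ^ 2 ≤ 1 / 4) (hD : Disc T (fun x y => if x = y then 1 else -G x y ^ 2) θ) :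
    Disc T (fun x y => if x = y then c x else -G' x y ^ 2) (θ + (ε + 3 * s * g ^ 2)) := by
  have s0 := h.s0
  have r : ∀ x ∈ T, ∑ y ∈ T, ‖G' x y ^ 2 - G x y ^ 2‖ ≤ 3 * s * g ^ 2 := fun x hx =>
    (sum_le_sum_of_subset_of_nonneg hT fun _ _ _ => norm_nonneg _).trans (h.sq_row (hg x hx))
  have a := (OpLe.diag ε0 hc).add (OpLe.schur (Y := fun x y => if x = y then 0 else
    G x y ^ 2 - G' x y ^ 2) (fun x _ y _ => by
      split_ifs
      exacts [by rw [norm_zero]; exact norm_nonneg _, (norm_sub_rev _ _).le]) (by positivity) r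
    fun y hy => by simpa only [h.sym _ y, h.sym' _ y] using r y hy)
  convert hD.pert θ0 θ1 (by positivity) h1 a using 1
  funext x y
  by_cases e : x = y <;> simp [e]
  ring

theorem inv_sq_le {z : ℂ} (h : ‖z‖ ≤ 1 / 10) : ‖1 / (1 - z ^ 2) ^ 2 - 1‖ ≤ 3 * ‖z‖ ^ 2 := by
  have a : ‖z ^ 2‖ ≤ 1 / 100 := by rw [norm_pow]; nlinarith [norm_nonneg z]
  have b : 99 / 100 ≤ ‖1 - z ^ 2‖ := by linarith [norm_sub_norm_le 1 (z ^ 2), norm_one (α := ℂ)]
  have n : 1 - z ^ 2 ≠ 0 := norm_pos_iff.1 (by linarith)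
  rw [show 1 / (1 - z ^ 2) ^ 2 - 1 = z ^ 2 * (2 - z ^ 2) / (1 - z ^ 2) ^ 2 by field_simp; ring,
    norm_div, norm_mul, norm_pow (1 - z ^ 2), div_le_iff₀ (by positivity), ← norm_pow z]
  have c := norm_sub_le 2 (z ^ 2)
  rw [Complex.norm_two] at c
  nlinarith [norm_nonneg (z ^ 2), mul_le_mul_of_nonneg_left c (norm_nonneg (z ^ 2)),
    mul_le_mul_of_nonneg_left (pow_le_pow_left₀ (by norm_num) b 2) (norm_nonneg (z ^ 2))]

end Pool.Agent.P.MP_d0f69c_mp.XS.Pre
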