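import Pool.Agent.P.MP_d0f69c_mp.XS.PNw2
import Pool.Agent.P.MP_d0f69c_mp.XS.PIfS
import Pool.Agent.P.MP_d0f69c_mp.XS.PShift

/-!
A diagonal change of the kernel: the response of the other quantities.
-/

set_option autoImplicit false

open Finset Real Matrix Function

namespace Pool.Agent.P.MP_d0f69c_mp.XS.Pre

theorem four_le {α : Type} (S : Finset α) (a b : α → ℂ) {t : ℝ} (t0 : 0 < t) (t1 : t ≤ 1 / 4) :
    ∑ y ∈ S, ‖b y‖ ^ 4 ≤ (1 + 4 * t) * ∑ y ∈ S, ‖a y‖ ^ 4 + 8 / t ^ 3 * ∑ y ∈ S, ‖b y - a y‖ ^ 4 := by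
  have two : ∀ x y : ℝ, (x + y) ^ 2 ≤ (1 + t) * x ^ 2 + (1 + 1 / t) * y ^ 2 := fun x y => by
    have : 0 ≤ (t * x - y) ^ 2 / t := by positivity
    have e : (1 + t) * x ^ 2 + (1 + 1 / t) * y ^ 2 - (x + y) ^ 2 = (t * x - y) ^ 2 / t := by
      field_simp; ring
    linarith
  have c1 : (1 + t) ^ 3 ≤ 1 + 4 * t := by nlinarith [mul_pos t0 t0]
  have c2 : (1 + 1 / t) ^ 3 ≤ 8 / t ^ 3 := by
    rw [show 8 / t ^ 3 = (2 * (1 / t)) ^ 3 by field_simp; norm_num]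
    exact pow_le_pow_left₀ (by positivity) (by linarith [one_le_one_div t0 (by linarith)]) 3
  rw [mul_sum, mul_sum, ← sum_add_distrib]
  refine sum_le_sum fun y _ => ?_
  have h1 := pow_le_pow_left₀ (norm_nonneg _) (norm_le_insert' (b y) (a y)) 2
  have h2 := pow_le_pow_left₀ (sq_nonneg _) (h1.trans (two _ _)) 2
  have h3 := h2.trans (two _ _)
  have h4 := mul_le_mul_of_nonneg_right c1 (pow_nonneg (norm_nonneg (a y)) 4)
  have h5 := mul_le_mul_of_nonneg_right c2 (pow_nonneg (norm_nonneg (b y - a y)) 4)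
  linarith

theorem four_sub {α : Type} (S : Finset α) (a b : α → ℂ) {c : ℝ} (h : nS S b ≤ c) :
    ∑ y ∈ S, ‖a y - b y‖ ^ 4 ≤ 8 * (∑ y ∈ S, ‖a y‖ ^ 4 + c ^ 4) := by
  have c0 := (nS_nonneg _ _).trans h
  have h1 : ∑ y ∈ S, ‖b y‖ ^ 4 ≤ c ^ 4 := by
    have := mul_le_mul_of_nonneg_left ((nS_le_iff c0).1 h) (sq_nonneg c)
    rw [mul_sum] at this
    refine (sum_le_sum fun y hy => ?_).trans (this.trans_eq (by ring))
    exact le_trans (le_of_eq (by ring)) (mul_le_mul_of_nonneg_right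
      (pow_le_pow_left₀ (norm_nonneg _) ((le_nS b hy).trans h) 2) (sq_nonneg ‖b y‖))
  refine le_trans ?_ (mul_le_mul_of_nonneg_left (add_le_add le_rfl h1) (by norm_num))
  rw [← sum_add_distrib, mul_sum]
  refine sum_le_sum fun y _ => (pow_le_pow_left₀ (norm_nonneg _) (norm_sub_le _ _) 4).trans ?_
  exact (add_pow_le (norm_nonneg _) (norm_nonneg _) 4).trans_eq (by norm_num)

variable {ι : Type} [Fintype ι] [DecidableEq ι] {A A' : Matrix ι ι ℂ} {Y g : Finset ι}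
  {ϖ : ι → Bool} {ε : ι → ℂ} {r : ι → ι → ℝ} {D D' : ι → ι → ℝ} {κ δ : ℝ}

/-- isolated sites see only the far majorant -/
theorem Stat.nm {r' : ι → ι → ℝ} {K D D2 mu : Matrix ι ι ℝ} {k ν1 ν : ℝ}
    (h : Stat r' K k ν1 ν A Y ϖ D D2 mu) (hs : SmK r A (1 / 100)) (hg : g ⊆ Y)
    (hi : ∀ v ∈ g, ∀ u ∈ Y, K v u = 0) (hν : ν ≤ κ ^ 2) (κ0 : 0 ≤ κ) (κ1 : κ ≤ 1 / 100) :
    NM r A Y g ϖ D2 κ := by
  refine ⟨hs, hg, h.far.nn, fun v hv ξ => ?_, fun v hv u hu e => ?_,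
    fun v _ => (h.far.row' h.pm v).trans hν, fun u => ((sum_le_sum_of_subset_of_nonneg
      (subset_univ g) fun v _ _ => h.far.nn v u).trans (h.far.col' h.pm u)).trans hν,
    fun w x => (h.dok.dg w x).trans h.dok.e1, κ0, κ1⟩
  · have s := h.sn v (hg hv)
    have a := pow_le_pow_left₀ (s.nn ξ) (s.le ξ) 2
    rw [Nv, sq_sqrt (Phi_nonneg _ _ _ _ _), no_sq s.D0] at a
    simp only [DH, add_mul, sum_add_distrib, ite_mul, zero_mul, sum_ite_eq', mem_univ,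
      if_true] at a
    have b := sum_le_sum (s := univ) fun u _ =>
      mul_le_mul_of_nonneg_right (h.iso (hi v hv) u) (sq_nonneg ‖ξ u‖)
    linarith
  · have a := (h.alD u hu v (hg hv) e).trans (h.iso (hi v hv) u)
    rwa [Nv, sq_sqrt (Phi_nonneg _ _ _ _ _), h.dok.Phi_al] at a

namespace NM

/-- the perturbation setting -/
theorem prt (h : NM r A Y g ϖ D κ) (h' : NM r A' Y g ϖ D' κ) (hb : A' = A + diagonal ε)
    (h0 : ∀ y ∉ g, ε y = 0) (δ0 : 0 ≤ δ) (hε : ∀ y, ‖ε y‖ ≤ δ) {X G G' : Matrix ι ι ℂ} {Λ : ℝ}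
    (sX : Xᵀ = X) (hU : IsUnit (X + Ww A Y ϖ).det) (eG : G = (X + Ww A Y ϖ)⁻¹)
    (eG' : G' = (X + Ww A' Y ϖ)⁻¹) (Λ0 : 0 ≤ Λ) (hΛ : OpLe Y G Λ) (hs : 8 * (Λ * δ) ≤ 1) :
    IsUnit (X + Ww A' Y ϖ).det ∧
      PrtM Y G G' (Ww A' Y ϖ - Ww A Y ϖ) (2 * δ) (8 / 3 * (Λ * δ)) := by
  have k := h.smk.kok
  have k' := h'.smk.kok
  have e : X + Ww A' Y ϖ = X + Ww A Y ϖ + (Ww A' Y ϖ - Ww A Y ϖ) := by abel
  have sD : (Ww A' Y ϖ - Ww A Y ϖ)ᵀ = Ww A' Y ϖ - Ww A Y ϖ := by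
    rw [transpose_sub, k.Ww_T, k'.Ww_T]
  have o := h.W_op' h' hb h0 δ0 hε
  have op : ∀ u, nS Y (ap Y G (ap Y (Ww A' Y ϖ - Ww A Y ϖ) u)) ≤ 2 * (Λ * δ) * nS Y u := fun u =>
    (hΛ _).trans ((mul_le_mul_of_nonneg_left (o u) Λ0).trans_eq (by ring))
  have U := unit_small eG hU (fun x hx y => Ww_off k k' hx y) (fun x hx y => by
    rw [← sD, transpose_apply, Ww_off k k' hx]) (by linarith) op
  have := prtM_inv eG (eG'.trans (by rw [e])) (by rw [transpose_add, sX, k.Ww_T]) sD hU U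
    (fun x hx y => Ww_off k k' hx y) (by positivity) o (by positivity) (by linarith) op
  rw [show 4 / 3 * (2 * (Λ * δ)) = 8 / 3 * (Λ * δ) by ring] at this
  exact ⟨e ▸ U, this⟩

end NM

theorem PrtM.opLe' {X : Finset ι} {G G' Δ : ι → ι → ℂ} {δ s Λ : ℝ} (h : PrtM X G G' Δ δ s)
    (hΛ : OpLe X G Λ) (Λ0 : 0 ≤ Λ) : OpLe X G' (2 * Λ) := fun u => by
  have e : ap X G' u = ap X G u - ap X G' (ap X Δ (ap X G u)) := funext fun x => by
    have e1 : ∑ y ∈ X, (∑ z ∈ X, G y z * ap X Δ (G' x) z) * u y =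
        ap X G' (ap X Δ (ap X G u)) x := by
      rw [ap, ap_swap h.symD (G' x)]
      simp only [ap, sum_mul]
      rw [sum_comm]
      exact sum_congr rfl fun z _ => sum_congr rfl fun y _ => by rw [h.sym y z]; ring
    rw [Pi.sub_apply, ← e1, ap, ap, ← sum_sub_distrib]
    exact sum_congr rfl fun y _ => by rw [h.sym' x y, h.id y x, h.sym y x, sub_mul]
  have a := nS_sub X (ap X G u) (ap X G' (ap X Δ (ap X G u)))
  rw [← e] at a
  have b := (h.op' (ap X G u)).trans (mul_le_mul h.s1 (hΛ u) (nS_nonneg _ _) (by norm_num))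
  linarith [hΛ u, mul_nonneg Λ0 (nS_nonneg X u)]

/-- the commutator term -/
theorem NM.cm {d M : ℕ} [NeZero M] {A A' : Matrix (Tor d M) (Tor d M) ℂ} {Y g : Finset (Tor d M)}
    {ϖ : Tor d M → Bool} {ε : Tor d M → ℂ} {r D D' : Tor d M → Tor d M → ℝ} {κ δ s Λ ρ C l : ℝ}
    {L : ℕ} (h : NM r A Y g ϖ D κ) (h' : NM r A' Y g ϖ D' κ) (hb : A' = A + diagonal ε)
    (h0 : ∀ y ∉ g, ε y = 0) (δ0 : 0 ≤ δ) (hε : ∀ y, ‖ε y‖ ≤ δ) {G G' : Tor d M → Tor d M → ℂ}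
    (hP : PrtM Y G G' (Ww A' Y ϖ - Ww A Y ϖ) (2 * δ) s) (hΛ : OpLe Y G Λ) (Λ0 : 0 ≤ Λ)
    (ρ0 : 0 ≤ ρ) (hρ : ∀ x ∈ Y, nS Y (G x) ≤ ρ) (hd : 1 ≤ d) (hL : 0 < L) (hl : 1 ≤ l)
    (w : ∀ u, ∑ v, D v u * exp (nm (v - u) / L) ≤ κ ^ 2)
    (w' : ∀ u, ∑ v, D' v u * exp (nm (v - u) / L) ≤ κ ^ 2) {F : Tor d M → ℝ} (C0 : 0 ≤ C)
    (hF : ∀ z, ∑ x, (F (x + z) - F x) ^ 2 ≤ C * (1 + (nm z : ℝ) ^ 2 / l ^ 2)) :
    cmN Y G G' (Ww A' Y ϖ - Ww A Y ϖ) F ≤ 1000 * (Λ * δ) * ρ * (κ * (1 + 2 * d * L)) * √C := by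
  have κ0 := h.κ0
  have a := shift_ker hd hL (by linarith) (by positivity : 0 ≤ 2 * κ ^ 2) hF
    (k := fun v u => if v ∈ g then D v u + D' v u else 0)
    (fun v u => by split_ifs; exacts [add_nonneg (h.nn v u) (h'.nn v u), le_rfl])
    (fun v => by
      by_cases c : v ∈ g
      · simp only [c, if_true, sum_add_distrib]; linarith [h.row v c, h'.row v c]
      · simp only [c, if_false, sum_const_zero]; positivity)
    fun u => by
      refine le_trans (sum_le_sum fun v _ => ?_) (?_ : ∑ v, (D v u * exp (nm (v - u) / L) +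
        D' v u * exp (nm (v - u) / L)) ≤ _)
      · rw [← add_mul]
        refine mul_le_mul_of_nonneg_right ?_ (exp_pos _).le
        split_ifs; exacts [le_rfl, add_nonneg (h.nn v u) (h'.nn v u)]
      · rw [sum_add_distrib]; linarith [w u, w' u]
  have b : ∑ v ∈ g, ∑ u ∈ Y, ((if v = u then 51 / 50 else 0) + D v u + D' v u) * (F u - F v) ^ 2 ≤
      (57 * (κ * (1 + 2 * d * L)) * √C) ^ 2 := by
    refine le_trans ?_ (a.trans ?_)
    · rw [← sum_filter_add_sum_filter_not univ (· ∈ g), filter_mem_eq_inter, univ_inter]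
      refine le_add_of_le_of_nonneg (sum_le_sum fun v hv => ?_) (sum_nonneg fun v hv =>
        sum_nonneg fun u _ => by rw [if_neg (mem_filter.1 hv).2, zero_mul])
      simp only [if_pos hv]
      refine le_trans (sum_le_sum fun u _ => le_of_eq ?_) (sum_le_sum_of_subset_of_nonneg
        (subset_univ Y) fun u _ _ => mul_nonneg (add_nonneg (h.nn v u) (h'.nn v u)) (sq_nonneg _))
      split_ifs with c
      · rw [c]; ring
      · ring
    · have c : 1 + ((d * (2 * L) : ℕ) : ℝ) ^ 2 / l ^ 2 ≤ (1 + 2 * d * L) ^ 2 := by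
        have := div_le_self (sq_nonneg ((d * (2 * L) : ℕ) : ℝ)) (one_le_pow₀ (n := 2) hl)
        push_cast at this ⊢
        nlinarith [mul_nonneg (Nat.cast_nonneg (α := ℝ) d) (Nat.cast_nonneg (α := ℝ) L)]
      refine (mul_le_mul_of_nonneg_left c (by positivity)).trans ?_
      rw [mul_pow, mul_pow, mul_pow, sq_sqrt C0]
      nlinarith [mul_nonneg (mul_nonneg (sq_nonneg κ) C0) (sq_nonneg (1 + 2 * (d : ℝ) * L))]
  have c := (h.majF h' δ0 hε).tr.tr.cm_le (Δ := fun x y => -(Ww A' Y ϖ - Ww A Y ϖ) x y) hP.sym hP.sym'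
    (fun x _ y _ _ => by rw [h.W_eq h' hb h0, neg_neg]; rfl) (hΛ.mono (by linarith))
    (hP.opLe' hΛ Λ0) (by positivity) (by positivity : 0 ≤ 4 / 3 * ρ)
    (fun u hu => (hρ u hu).trans (by linarith)) (fun u hu => hP.row' (hρ u hu)) F F (sq_nonneg _) b
  rw [sqrt_sq (by positivity)] at c
  have s2 : √2 ≤ 3 / 2 := sqrt_le_iff.2 ⟨by norm_num, by norm_num⟩
  refine le_trans (le_of_eq ?_) (c.trans ?_)
  · simp only [cmN, nS, ap, mul_neg, neg_mul, sum_neg_distrib, norm_neg]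
  · have := mul_le_mul_of_nonneg_left s2
      (by positivity : 0 ≤ Λ * δ * ρ * (κ * (1 + 2 * d * L)) * √C)
    have p : 0 ≤ Λ * δ * ρ * (κ * (1 + 2 * d * L)) * √C := by positivity
    linarith

end Pool.Agent.P.MP_d0f69c_mp.XS.Pre
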