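import Pool.Agent.P.MP_d0f69c_mp.XS.PPrt
import Pool.Agent.P.MP_d0f69c_mp.XS.PAlg2
import Pool.Agent.P.MP_d0f69c_mp.XS.PCt

/-!
Sums of majorised matrices: operator norms and commutators.
-/

set_option autoImplicit false

open Finset Real Matrix

namespace Pool.Agent.P.MP_d0f69c_mp.XS.Pre

variable {ι : Type}

/-- duality -/
theorem nS_dual {X : Finset ι} {v : ι → ℂ} {C : ℝ} (hC : 0 ≤ C)
    (h : ∀ ξ : ι → ℂ, ‖∑ x ∈ X, ξ x * v x‖ ≤ C * nS X ξ) : nS X v ≤ C := by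
  have e : ((nS X v ^ 2 : ℝ) : ℂ) = ∑ x ∈ X, star v x * v x := by
    rw [nS_sq]
    push_cast
    exact sum_congr rfl fun x _ => by rw [← Complex.conj_mul']; rfl
  have h1 := h (star v)
  rw [← e, Complex.norm_real, Real.norm_of_nonneg (sq_nonneg _),
    show nS X (star v) = nS X v by simp [nS]] at h1
  rcases (nS_nonneg X v).eq_or_lt with h2 | h2
  · rw [← h2]; exact hC
  · exact le_of_mul_le_mul_right (by linarith) h2

variable [Fintype ι] [DecidableEq ι]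

/-- extension by zero -/
def cut (X : Finset ι) (u : ι → ℂ) (x : ι) : ℂ := if x ∈ X then u x else 0

theorem bf_cut (X : Finset ι) (L : Matrix ι ι ℂ) (ξ ζ : ι → ℂ) :
    bf L (cut X ξ) (cut X ζ) = ∑ x ∈ X, ξ x * ap X L ζ x := by
  simp [bf, dotProduct, mulVec, cut, ap]

theorem no_cut {D : ι → ℝ} (hD : ∀ u, 0 ≤ D u) (X : Finset ι) (ξ : ι → ℂ) :
    no D (cut X ξ) ^ 2 = ∑ u ∈ X, D u * ‖ξ u‖ ^ 2 := by
  rw [no_sq hD, ← sum_filter_add_sum_filter_not univ (· ∈ X), sum_eq_zero (s := filter (· ∉ X) _)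
    fun u hu => by simp [cut, (mem_filter.1 hu).2], add_zero, filter_mem_eq_inter, univ_inter]
  exact sum_congr rfl fun u hu => by rw [cut, if_pos hu]

omit [DecidableEq ι] in
theorem Maj.tr {B : Matrix ι ι ℂ} {D : ι → ℝ} {c : ℝ} (h : Maj B D c) : Maj Bᵀ D c := fun ξ ζ => by
  have e : bf Bᵀ ξ ζ = bf B ζ ξ := by
    rw [bf_eq, bf_eq, sum_comm]
    exact sum_congr rfl fun _ _ => sum_congr rfl fun _ _ => by rw [transpose_apply]; ring
  rw [e, mul_right_comm]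
  exact h ζ ξ

variable {X I : Finset ι} {L : ι → Matrix ι ι ℂ} {D : ι → ι → ℝ} {c h : ℝ}

/-- a family of majorised matrices -/
structure MajF (X I : Finset ι) (L : ι → Matrix ι ι ℂ) (D : ι → ι → ℝ) (c h : ℝ) : Prop where
  maj : ∀ w ∈ I, Maj (L w) (D w) c
  nn : ∀ w u, 0 ≤ D w u
  col : ∀ u ∈ X, ∑ w ∈ I, D w u ≤ h
  c0 : 0 ≤ c
  h0 : 0 ≤ h

namespace MajF

theorem tr (H : MajF X I L D c h) : MajF X I (fun w => (L w)ᵀ) D c h :=
  ⟨fun w hw => (H.maj w hw).tr, H.nn, H.col, H.c0, H.h0⟩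

theorem bil (H : MajF X I L D c h) (ξ ζ : ι → ι → ℂ) {p q : ℝ} (p0 : 0 ≤ p) (q0 : 0 ≤ q)
    (hp : ∑ w ∈ I, ∑ u ∈ X, D w u * ‖ξ w u‖ ^ 2 ≤ p ^ 2)
    (hq : ∑ w ∈ I, ∑ u ∈ X, D w u * ‖ζ w u‖ ^ 2 ≤ q ^ 2) :
    ‖∑ w ∈ I, ∑ x ∈ X, ξ w x * ap X (L w) (ζ w) x‖ ≤ c * p * q := by
  simp only [← bf_cut, ← no_cut (H.nn _)] at hp hq ⊢
  refine (norm_sum_le _ _).trans ((sum_le_sum fun w hw => H.maj w hw _ _).trans ?_)
  simp only [mul_assoc, ← mul_sum]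
  refine mul_le_mul_of_nonneg_left (le_of_sq_le_sq ?_ (mul_nonneg p0 q0)) H.c0
  rw [mul_pow]
  exact (sum_mul_sq_le_sq_mul_sq I _ _).trans
    (mul_le_mul hp hq (sum_nonneg fun _ _ => sq_nonneg _) (sq_nonneg _))

omit [Fintype ι] [DecidableEq ι] in
theorem wsum {ν : ℝ} {E : ι → ι → ℝ} (hE : ∀ u ∈ X, ∑ w ∈ I, E w u ≤ ν) (hν : 0 ≤ ν)
    (ξ : ι → ℂ) : ∑ w ∈ I, ∑ u ∈ X, E w u * ‖ξ u‖ ^ 2 ≤ (√ν * nS X ξ) ^ 2 := by
  rw [sum_comm, mul_pow, sq_sqrt hν, nS_sq, mul_sum]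
  exact sum_le_sum fun u hu => by
    rw [← sum_mul]; exact mul_le_mul_of_nonneg_right (hE u hu) (sq_nonneg _)

/-- vector form -/
theorem vec (H : MajF X I L D c h) (ζ : ι → ι → ℂ) {q : ℝ} (q0 : 0 ≤ q)
    (hq : ∑ w ∈ I, ∑ u ∈ X, D w u * ‖ζ w u‖ ^ 2 ≤ q ^ 2) :
    nS X (fun x => ∑ w ∈ I, ap X (L w) (ζ w) x) ≤ c * √h * q := by
  have c0 := H.c0
  refine nS_dual (by positivity) fun ξ => ?_
  have := H.bil (fun _ => ξ) ζ (mul_nonneg (sqrt_nonneg h) (nS_nonneg X ξ)) q0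
    (wsum H.col H.h0 ξ) hq
  simp only [mul_sum]
  rw [sum_comm]
  exact this.trans_eq (by ring)

theorem op (H : MajF X I L D c h) : OpLe X (fun x y => ∑ w ∈ I, L w x y) (c * h) := fun u => by
  have := H.vec (fun _ => u) (mul_nonneg (sqrt_nonneg h) (nS_nonneg X u)) (wsum H.col H.h0 u)
  rw [mul_assoc, ← mul_assoc √h, mul_self_sqrt H.h0, ← mul_assoc] at this
  refine le_trans (le_of_eq (nS_congr fun x _ => ?_)) this
  simp only [ap, sum_mul]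
  exact sum_comm

/-- without the central diagonal entries the sum is as small as the off-centre weights -/
theorem off (H : MajF X I L D c h) {ν : ℝ} (hν : 0 ≤ ν)
    (hD : ∀ u ∈ X, ∑ w ∈ I, (if w = u then 0 else D w u) ≤ ν) :
    OpLe X (fun x y => ∑ w ∈ I, L w x y - if x = y ∧ x ∈ I then L x x x else 0)
      (2 * (c * √h * √ν)) := fun ζ => by
  have c0 := H.c0
  have z0 := nS_nonneg X ζ
  refine nS_dual (by positivity) fun ξ => ?_
  have x0 := nS_nonneg X ξ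
  have a : ∀ θ : ι → ℂ, ∑ w ∈ I, ∑ u ∈ X, D w u * ‖if w = u then 0 else θ u‖ ^ 2 ≤
      (√ν * nS X θ) ^ 2 := fun θ => le_trans (le_of_eq (sum_congr rfl fun w _ =>
        sum_congr rfl fun u _ => by split_ifs <;> simp)) (wsum hD hν θ)
  have b : ∑ w ∈ I, ∑ u ∈ X, D w u * ‖if w = u then ξ u else 0‖ ^ 2 ≤ (√h * nS X ξ) ^ 2 :=
    le_trans (sum_le_sum fun w _ => sum_le_sum fun u _ => mul_le_mul_of_nonneg_left (by
      split_ifs <;> simp) (H.nn w u)) (wsum H.col H.h0 ξ)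
  have h1 := H.bil _ (fun _ => ζ) (by positivity) (by positivity) (a ξ) (wsum H.col H.h0 ζ)
  have h2 := H.bil _ _ (by positivity) (by positivity) b (a ζ)
  refine le_trans (le_of_eq (congrArg _ ?_)) ((norm_add_le _ _).trans
    ((add_le_add h1 h2).trans_eq (by ring)))
  simp only [← sum_add_distrib]
  rw [sum_comm (s := I)]
  refine sum_congr rfl fun x hx => ?_
  simp only [ap, mul_sum, ← sum_add_distrib]
  rw [sum_comm (s := I)]
  refine sum_congr rfl fun y _ => ?_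
  have e : (if x = y ∧ x ∈ I then L x x x else 0) = ∑ w ∈ I, if w = x ∧ w = y then L w x y else 0 := by
    by_cases e : x = y
    · subst e; simp
    · rw [if_neg fun g => e g.1, sum_eq_zero fun w _ => if_neg fun g => e (g.1.symm.trans g.2)]
  rw [e, ← sum_sub_distrib, sum_mul, mul_sum]
  refine sum_congr rfl fun w _ => ?_
  by_cases e1 : w = x <;> by_cases e2 : w = y
  · rw [if_pos ⟨e1, e2⟩, if_pos e1, if_pos e1, if_pos e2]; ring
  · rw [if_neg fun g => e2 g.2, if_pos e1, if_pos e1, if_neg e2]; ring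
  all_goals rw [if_neg fun g => e1 g.1, if_neg e1, if_neg e1]; ring

/-- one half of the commutator -/
theorem half (H : MajF X I L D c h) {P Q : ι → ι → ℂ} {Λ g E : ℝ} (hP : OpLe X P Λ) (Λ0 : 0 ≤ Λ)
    (g0 : 0 ≤ g) (hQ : ∀ u ∈ X, nS X (fun y => Q y u) ≤ g) (f m : ι → ℝ) (E0 : 0 ≤ E)
    (hE : ∑ w ∈ I, ∑ u ∈ X, D w u * (f u - m w) ^ 2 ≤ E) :
    nS (X ×ˢ X) (fun p => ap X P (fun x => ∑ w ∈ I,
      ap X (L w) (fun u => ((f u : ℂ) - m w) * Q p.1 u) x) p.2) ≤ Λ * (c * √h) * (g * √E) := by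
  have c0 := H.c0
  have q0 : ∀ y, 0 ≤ ∑ w ∈ I, ∑ u ∈ X, D w u * ‖((f u : ℂ) - m w) * Q y u‖ ^ 2 := fun y =>
    sum_nonneg fun w _ => sum_nonneg fun u _ => mul_nonneg (H.nn w u) (sq_nonneg _)
  rw [nS_le_iff (by positivity), sum_product]
  refine (sum_le_sum fun y _ => ?_).trans (?_ : ∑ y ∈ X, (Λ * (c * √h)) ^ 2 *
    ∑ w ∈ I, ∑ u ∈ X, D w u * ‖((f u : ℂ) - m w) * Q y u‖ ^ 2 ≤ _)
  · have := pow_le_pow_left₀ (nS_nonneg _ _) ((hP _).trans (mul_le_mul_of_nonneg_left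
      (H.vec (fun w u => ((f u : ℂ) - m w) * Q y u) (sqrt_nonneg _) (sq_sqrt (q0 y)).ge) Λ0)) 2
    rwa [nS_sq, ← mul_assoc, mul_pow, sq_sqrt (q0 y)] at this
  rw [← mul_sum, mul_pow _ (g * √E), mul_pow g, sq_sqrt E0]
  refine mul_le_mul_of_nonneg_left (le_trans ?_ (mul_le_mul_of_nonneg_left hE (sq_nonneg g)))
    (sq_nonneg _)
  rw [sum_comm, mul_sum]
  refine sum_le_sum fun w _ => ?_
  rw [sum_comm, mul_sum]
  refine sum_le_sum fun u hu => ?_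
  have := mul_le_mul_of_nonneg_left ((nS_le_iff g0).1 (hQ u hu))
    (mul_nonneg (H.nn w u) (sq_nonneg (f u - m w)))
  rw [mul_sum] at this
  refine le_trans (le_of_eq (sum_congr rfl fun y _ => ?_)) (this.trans_eq (by ring))
  rw [norm_mul, ← Complex.ofReal_sub, Complex.norm_real, mul_pow, Real.norm_eq_abs, sq_abs]
  ring

/-- the commutator term of the perturbation lemma -/
theorem cm_le (H : MajF X I L D c h) {G G' Δ : ι → ι → ℂ} {Λ g E : ℝ} (sG : ∀ x y, G x y = G y x)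
    (sG' : ∀ x y, G' x y = G' y x) (hΔ : ∀ x ∈ X, ∀ y ∈ X, x ≠ y → Δ x y = ∑ w ∈ I, L w x y)
    (hG : OpLe X G Λ) (hG' : OpLe X G' Λ) (Λ0 : 0 ≤ Λ) (g0 : 0 ≤ g) (r : ∀ u ∈ X, nS X (G u) ≤ g)
    (r' : ∀ u ∈ X, nS X (G' u) ≤ g) (f m : ι → ℝ) (E0 : 0 ≤ E)
    (hE : ∑ w ∈ I, ∑ u ∈ X, D w u * (f u - m w) ^ 2 ≤ E) :
    cmN X G G' Δ f ≤ 2 * (Λ * (c * √h) * (g * √E)) := by
  have h1 := H.tr.half hG' Λ0 g0 (Q := G) (fun u hu => by simpa only [sG _ u] using r u hu) f m E0 hE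
  have h2 := H.half hG Λ0 g0 (Q := G') (fun u hu => by simpa only [sG' _ u] using r' u hu) f m E0 hE
  rw [← Prt.hs_swap fun y => ap X G fun x => ∑ w ∈ I,
    ap X (L w) (fun u => ((f u : ℂ) - m w) * G' y u) x] at h2
  refine le_trans (le_of_eq (nS_congr fun p _ => ?_)) ((nS_sub _ _ _).trans
    ((add_le_add h1 h2).trans_eq (by ring)))
  have e1 : ap X G' (fun x => ∑ w ∈ I, ap X (L w)ᵀ (fun u => ((f u : ℂ) - m w) * G p.1 u) x) p.2 =
      ∑ z ∈ X, ∑ u ∈ X, ∑ w ∈ I, G' p.2 u * (L w z u * (((f z : ℂ) - m w) * G p.1 z)) := by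
    simp only [ap, mul_sum, transpose_apply]
    rw [sum_comm (s := X) (t := X)]
    exact sum_congr rfl fun _ _ => sum_comm
  have e2 : ap X G (fun x => ∑ w ∈ I, ap X (L w) (fun u => ((f u : ℂ) - m w) * G' p.2 u) x) p.1 =
      ∑ z ∈ X, ∑ u ∈ X, ∑ w ∈ I, G p.1 z * (L w z u * (((f u : ℂ) - m w) * G' p.2 u)) := by
    simp only [ap, mul_sum]
    exact sum_congr rfl fun _ _ => sum_comm
  rw [Pi.sub_apply, e1, e2, ← sum_sub_distrib, ap]
  refine sum_congr rfl fun z hz => ?_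
  rw [← sum_sub_distrib, ap, mul_sum]
  refine sum_congr rfl fun u hu => ?_
  rw [← sum_sub_distrib]
  by_cases e : z = u
  · subst e; simp only [sub_self, zero_mul, mul_zero]
    exact (sum_eq_zero fun w _ => by ring).symm
  rw [hΔ z hz u hu e, mul_sum, sum_mul, mul_sum]
  exact sum_congr rfl fun w _ => by ring

end MajF

/-- the perturbation setting from two inverse matrices -/
theorem prtM_inv {A Δ G G' : Matrix ι ι ℂ} {δ s : ℝ} (eG : G = A⁻¹) (eG' : G' = (A + Δ)⁻¹)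
    (sA : Aᵀ = A) (sD : Δᵀ = Δ) (hA : IsUnit A.det)
    (hA' : IsUnit (A + Δ).det) (h0 : ∀ x ∉ X, ∀ y, Δ x y = 0) (δ0 : 0 ≤ δ) (hD : OpLe X Δ δ)
    (s0 : 0 ≤ s) (s1 : s ≤ 1 / 4) (h : ∀ u, nS X (ap X G (ap X Δ u)) ≤ s * nS X u) :
    PrtM X G G' Δ δ (4 / 3 * s) := by
  have y1 : ∀ x y, G x y = G y x := fun x y => by
    conv_lhs => rw [eG, ← sA, ← transpose_nonsing_inv, transpose_apply, ← eG]
  have y2 : ∀ x y, G' x y = G' y x := fun x y => by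
    conv_lhs => rw [eG', ← sA, ← sD, ← transpose_add, ← transpose_nonsing_inv, transpose_apply,
      ← eG']
  have y3 : ∀ x y, Δ x y = Δ y x := fun x y => by conv_lhs => rw [← sD, transpose_apply]
  have id : ∀ x y, G' x y = G x y - ∑ z ∈ X, G x z * ap X Δ (G' y) z :=
    fun x y => by
      conv_lhs => rw [eG', inv_add_eq hA hA', ← eG, ← eG', Matrix.mul_assoc, Matrix.sub_apply,
        Matrix.mul_apply]
      congr 1
      rw [← sum_subset (subset_univ X) fun z _ hz => by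
        rw [Matrix.mul_apply, sum_eq_zero fun w _ => by rw [h0 z hz, zero_mul], mul_zero]]
      refine sum_congr rfl fun z _ => congrArg _ ?_
      rw [Matrix.mul_apply, ap, ← sum_subset (subset_univ X) fun w _ hw => by
        rw [y3, h0 w hw, zero_mul]]
      exact sum_congr rfl fun w _ => by rw [y2 w y]
  refine ⟨y1, y2, y3, id, δ0, hD, by positivity, fun u => (h u).trans
    (mul_le_mul_of_nonneg_right (by linarith) (nS_nonneg _ _)), fun u => ?_, by linarith⟩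
  set v := ap X G' (ap X Δ u) with hv
  have e : v = ap X G (ap X Δ u) - ap X G (ap X Δ v) := funext fun x => by
    rw [Pi.sub_apply, hv]
    generalize ap X Δ u = t
    have e : ∑ y ∈ X, (∑ z ∈ X, G x z * ap X Δ (G' y) z) * t y = ap X G (ap X Δ (ap X G' t)) x := by
      simp only [ap, sum_mul, mul_sum]
      rw [sum_comm]
      refine sum_congr rfl fun z _ => ?_
      rw [sum_comm]
      exact sum_congr rfl fun w _ => sum_congr rfl fun y _ => by rw [y2 y w]; ring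
    rw [← e, ap, ap, ← sum_sub_distrib]
    exact sum_congr rfl fun y _ => by rw [id x y, sub_mul]
  have h1 := nS_sub X (ap X G (ap X Δ u)) (ap X G (ap X Δ v))
  rw [← e] at h1
  have h2 := mul_le_mul_of_nonneg_right s1 (nS_nonneg X v)
  linarith [h u, h v]

/-- decay after a matrix change of the potential, from local bounds -/
theorem dec_mat {d M : ℕ} [NeZero M] {O X : Finset (Tor d M)}
    {G G' Δ : Matrix (Tor d M) (Tor d M) ℂ} {l ρ R s : ℕ} {Λ κ B c τ V Γ : ℝ} (l0 : 0 < l)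
    (lρ : 4 * l ≤ ρ) (R0 : 0 < R) (Rs : R ≤ s) (sρ : s ≤ ρ) (ds : d * s ≤ ρ) (hX : X ⊆ O)
    (hΛ : 0 ≤ Λ) (hκ : 0 ≤ κ) (hB : 0 ≤ B) (hc : 0 ≤ c)
    (id : ∀ x ∈ O, ∀ y, G' x y = G x y - ap X G (ap X Δ fun w => G' w y) x)
    (hk : ∀ u, nS X (ap X G (ap X Δ u)) ≤ κ * nS X u)
    (hrow : ∀ x ∈ O, nS X (fun w => ∑ y ∈ X, G x y * Δ y w) ≤ κ) (hD : Dec G O B l)
    (hΔ : ∀ y ∈ X, ∀ w, ‖Δ y w‖ ≤ c * exp (-(nm (y - w) : ℝ) / l))
    (hV : ∀ z, ∑ x ∈ X, exp (-(nm (x - z) : ℝ) / (2 * (2 * l : ℕ))) ≤ V)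
    (hfar : Far d M (B * c * V) (2 * l) R τ)
    (hl : ∀ (p : Tor d M) (u : Tor d M → ℂ), (∀ x ∉ X ∩ bl p (ρ + s), u x = 0) →
      nS X u ≤ Λ * nS X (u + ap X G (ap X Δ u)))
    (hΓ0 : 0 ≤ Γ) (hΓ : 6 * Λ ^ 2 * exp 8 * exp 2 ≤ Γ ^ 2)
    (hs : Γ ^ 2 * ((3 * (R / s) * (κ + τ) + τ) ^ 2 + τ ^ 2) ≤ 1) :
    Dec G' O (B * (1 + (3 * κ + τ) * Γ * V)) ρ := fun x hx z => by
  have l1 : (0 : ℝ) < l := by exact_mod_cast l0
  have e : ∀ u, ap X (of fun x w => ∑ y ∈ X, G x y * Δ y w) u = ap X G (ap X Δ u) := fun u =>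
    funext fun x => by
      simp only [ap, of_apply, sum_mul, mul_sum, mul_assoc]
      exact sum_comm
  have w : ∀ (a : ℕ) {p q : ℝ}, 0 < p → p ≤ q → exp (-(a : ℝ) / p) ≤ exp (-(a : ℝ) / q) :=
    fun a p q hp hq => by
      rw [neg_div, neg_div]
      exact exp_le_exp.2 (neg_le_neg (div_le_div_of_nonneg_left (Nat.cast_nonneg _) hp hq))
  have V0 := (sum_nonneg fun _ _ => (exp_pos _).le).trans (hV z)
  refine ct_ker (k := of fun x w => ∑ y ∈ X, G x y * Δ y w) (v := fun w => G' w z)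
    (g := fun w => G w z) (l := 2 * l) z (by omega) (by omega) R0 Rs sρ ds hX hΛ hκ (by positivity)
    hB (fun y hy => by rw [e, id y hy z, sub_add_cancel]) (fun u => by rw [e]; exact hk u) hrow
    (fun y hy v => dec_mul l0 hB hc (fun u _ => hD y hy u) (fun u hu => hΔ u hu v)
      ((sum_le_sum fun u _ => w _ (by positivity) (by push_cast; linarith)).trans (hV y))) hfar
    (fun y hy => (hD y hy z).trans (mul_le_mul_of_nonneg_left (w _ l1 (by push_cast; linarith)) hB))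
    (hV z) (fun p u hu => by rw [e]; exact hl p u hu) hΓ0 hΓ hs hx

/-- the local bound is automatic for a small change -/
theorem loc_small {G Δ : ι → ι → ℂ} {κ : ℝ} (hk : ∀ u, nS X (ap X G (ap X Δ u)) ≤ κ * nS X u)
    (h : κ ≤ 1 / 2) (u : ι → ℂ) : nS X u ≤ 2 * nS X (u + ap X G (ap X Δ u)) := by
  have h1 := nS_sub X (u + ap X G (ap X Δ u)) (ap X G (ap X Δ u))
  rw [add_sub_cancel_right] at h1
  linarith [hk u, mul_le_mul_of_nonneg_right h (nS_nonneg X u)]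

end Pool.Agent.P.MP_d0f69c_mp.XS.Pre
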