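import Pool.Agent.P.MP_d0f69c_mp.XS.PIfS
import Pool.Agent.P.MP_d0f69c_mp.XS.PPrt2

/-!
Two kernels with a bound that depends on the centre, the identity of Ward, and sums of pieces.
-/

set_option autoImplicit false

open Finset Matrix Function

namespace Pool.Agent.P.MP_d0f69c_mp.XS.Pre

variable {ι : Type} [Fintype ι] [DecidableEq ι] {A A' b : Matrix ι ι ℂ}

theorem DOK.den {e : ℝ} (h : DOK A e) : Den A (50 / 49) := fun w v => by
  have a := h.cc_le w v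
  have n := norm_pos_iff.2 (h.cc_ne w v)
  rwa [cc, norm_inv, inv_eq_one_div, div_le_iff₀ n] at a

theorem DOK.conj {e : ℝ} (h : DOK A e) : DOK Aᴴ e :=
  ⟨h.toKOK.conj, h.e1, fun w x => by
    have : Aᴴ - Aᴴ * Tt Aᴴ w * Aᴴ = (A - A * Tt A w * A)ᴴ := by
      simp only [Tt_H, conjTranspose_sub, conjTranspose_mul, Matrix.mul_assoc]
    rw [this, conjTranspose_apply, norm_star]
    exact h.dg w x⟩

theorem s3c (h : KOK A) (h' : KOK A') (hb : A' = A + b) {c : ℝ} {bb : ι → ℝ} (hc : Den A c)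
    (hc' : Den A' c) (Y : Finset ι) (ϖ : ι → Bool) (y : ι)
    (hbb : ∀ v ∈ Y, ∀ w w', ‖(Tt A' w' * b * Tt A w) v v‖ ≤ bb v) :
    ∃ L : ι → Matrix ι ι ℂ, Ww A' Y ϖ - Ww A Y ϖ = -∑ v ∈ Y, L v ∧
      L y = Dt A' Y ϖ y * ((1 - A' * Ss A' Y ϖ) * b * (1 - Ss A Y ϖ * A)) * Dt A Y ϖ y ∧
      ∀ v ∈ Y, ∀ ξ ξ' : ι → ℂ,
        ‖ξ ⬝ᵥ L v *ᵥ ξ'‖ ≤ c ^ 2 * bb v * (√(Phi A' Y ϖ v ξ) * √(Phi A Y ϖ v ξ')) := by
  obtain ⟨B, hB, hcov⟩ := cov_sum y
  set P := (1 - Ss A' Y ϖ * A')⁻¹ with hP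
  set Q := (1 - A * Ss A Y ϖ)⁻¹ with hQ
  set F : (ι → Bool) → Matrix ι ι ℂ := fun z => Tt A' (mix Y z ϖ) * b with hF
  set G : (ι → Bool) → Matrix ι ι ℂ := fun z => Tt A (mix Y z ϖ) with hG
  set pc : ι → Matrix ι ι ℂ := fun v => cav fun p : (ι → Bool) × (ι → Bool) =>
    Dc v F p.1 * Dc v G (mix (B v) p.1 p.2) with hpc
  have dF : ∀ v ∈ Y, ∀ z, Dc v F z = Dc v (Tt A') (mix Y z ϖ) * b := fun v hv z => by
    simp only [Dc, hF, mix_upd hv, Matrix.smul_mul, Matrix.sub_mul]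
  have dG : ∀ v ∈ Y, ∀ z, Dc v G z = Dc v (Tt A) (mix Y z ϖ) := fun v hv z => by
    simp only [Dc, hG, mix_upd hv]
  have h0 : ∀ v ∉ Y, pc v = 0 := fun v hv => by
    simp only [hpc, Dc, hG, mix_upd' hv, sub_self, smul_zero, Matrix.mul_zero, cav_const]
  have e1 : Ss A Y ϖ - Ss A' Y ϖ = Ss A' Y ϖ * b * Ss A Y ϖ + ∑ v ∈ Y, pc v := by
    have e2 : cav F = Ss A' Y ϖ * b := by rw [Ss, EY_mul]; rfl
    have e3 : cav (fun z => F z * G z) = Ss A Y ϖ - Ss A' Y ϖ := by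
      rw [Ss, Ss, ← EY_sub]
      simp only [Tt_sub h h' hb]
      rfl
    have e4 := hcov _ F G
    rw [e2, e3, ← sum_subset (subset_univ Y) fun v _ hv => h0 v hv] at e4
    exact sub_eq_iff_eq_add'.1 e4
  have e5 := two_kernel hb (h.q' Y ϖ) (h'.q Y ϖ) (h.q Y ϖ) e1
  have c0 : 0 ≤ c := (norm_nonneg _).trans (hc.le ϖ y)
  have key : ∀ v ∈ Y, ∀ ξ ξ' : ι → ℂ, ‖ξ ⬝ᵥ (P * pc v * Q) *ᵥ ξ'‖ ≤
      c ^ 2 * bb v * (√(Phi A' Y ϖ v ξ) * √(Phi A Y ϖ v ξ')) := fun v hv ξ ξ' => by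
    have b0 : 0 ≤ bb v := (norm_nonneg _).trans (hbb v hv ϖ ϖ)
    let f : Matrix ι ι ℂ →ₗ[ℂ] ℂ :=
      { toFun := fun X => ξ ⬝ᵥ (P * X * Q) *ᵥ ξ'
        map_add' := fun X X' => by
          simp only [Matrix.mul_add, Matrix.add_mul, add_mulVec, dotProduct_add]
        map_smul' := fun a X => by
          simp only [Matrix.mul_smul, Matrix.smul_mul, smul_mulVec, dotProduct_smul,
            RingHom.id_apply] }
    have e6 := cav_map f fun p : (ι → Bool) × (ι → Bool) =>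
      Dc v F p.1 * Dc v G (mix (B v) p.1 p.2)
    refine (congrArg norm e6).trans_le ((norm_cav_le _).trans ?_)
    set u' : (ι → Bool) → ℝ := fun z => ‖∑ x, ξ x * psi A' Y ϖ v (mix Y z ϖ) x‖
    set u : (ι → Bool) → ℝ := fun z => ‖∑ x, ξ' x * psi A Y ϖ v (mix Y z ϖ) x‖
    refine (av_mono (g := fun p => c ^ 2 * bb v * (u' p.1 * u (mix (B v) p.1 p.2)))
      fun p => ?_).trans ?_
    · change ‖ξ ⬝ᵥ (P * _ * Q) *ᵥ ξ'‖ ≤ _
      rw [dF v hv, dG v hv, h.Dc_Tt hc, h'.Dc_Tt hc', quad_rank, norm_mul, norm_mul, norm_mul,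
        norm_mul, sq]
      simp only [hQ, h.psi_row]
      exact mul_le_mul_of_nonneg_right (mul_le_mul (mul_le_mul (hc'.le _ _) (hc.le _ _)
        (norm_nonneg _) c0) (hbb v hv _ _) (norm_nonneg _) (by positivity)) (by positivity)
    · rw [av_mul]
      refine mul_le_mul_of_nonneg_left ((av_mul_le _ _).trans (le_of_eq ?_)) (by positivity)
      rw [av_fst fun z => u' z ^ 2, av_mix (B v) fun z => u z ^ 2]
      rfl
  by_cases hy : y ∈ Y
  · refine ⟨fun v => P * pc v * Q, ?_, ?_, key⟩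
    · rw [← Matrix.sum_mul, ← Matrix.mul_sum]; exact e5
    · have e7 : pc y = Dd A' Y ϖ y * b * Dd A Y ϖ y := by
        simp only [hpc, hB]
        rw [cov_first, ← cav_sgn, ← cav_sgn, Dd, Dd, EY_mul]
        simp only [EY_cav, hF, hG, mix, if_pos hy, Matrix.smul_mul]
      simp only [e7, Dt, Matrix.mul_assoc]
      rw [← Matrix.mul_assoc (1 - A' * Ss A' Y ϖ)⁻¹, nonsing_inv_mul _ (h'.q' Y ϖ), Matrix.one_mul,
        ← Matrix.mul_assoc (1 - Ss A Y ϖ * A), mul_nonsing_inv _ (h.q Y ϖ), Matrix.one_mul]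
  · refine ⟨update (fun v => P * pc v * Q) y _, ?_, update_self .., fun v hv => ?_⟩
    · rw [sum_congr rfl fun v hv => update_of_ne (ne_of_mem_of_not_mem hv hy) _ _,
        ← Matrix.sum_mul, ← Matrix.mul_sum]
      exact e5
    · rw [update_of_ne (ne_of_mem_of_not_mem hv hy)]; exact key v hv

theorem t_two : S_TWO := fun ι _ _ A A' b e Y ϖ y bb h h' hb hbb => by
  obtain ⟨L, a1, a2, a3⟩ := s3c h.toKOK h'.toKOK hb h.den h'.den Y ϖ y hbb
  refine ⟨L, a1, a2, fun v hv ξ ζ => (a3 v hv ξ ζ).trans ?_⟩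
  have b0 : 0 ≤ bb v := (norm_nonneg _).trans (hbb v hv ϖ ϖ)
  unfold Nv
  gcongr
  norm_num

/-- the middle factor is an average -/
theorem mid_le (h : KOK A) (h' : KOK A') {bb : ℝ} (Y : Finset ι) (ϖ : ι → Bool) {x y : ι}
    (hbb : ∀ w w', ‖(Tt A' w' * b * Tt A w) x y‖ ≤ bb) :
    ‖((1 - A' * Ss A' Y ϖ) * b * (1 - Ss A Y ϖ * A)) x y‖ ≤ bb := by
  have e1 : 1 - A' * Ss A' Y ϖ = EY Y ϖ fun w => Vs w * Tt A' w := by
    simp only [h'.V_Tt]; rw [EY_sub, EY_const, ← mul_EY]; rfl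
  have e2 : 1 - Ss A Y ϖ * A = EY Y ϖ fun w => Tt A w * Vs w := by
    simp only [h.Tt_V]; rw [EY_sub, EY_const, ← EY_mul]; rfl
  rw [e1, e2, EY_mul, EY_mul, EY_apply]
  refine (norm_EY' _).trans (eY_le fun w' _ => ?_)
  rw [mul_EY, EY_apply]
  refine (norm_EY' _).trans (eY_le fun w _ => ?_)
  rw [show Vs w' * Tt A' w' * b * (Tt A w * Vs w) = Vs w' * (Tt A' w' * b * Tt A w) * Vs w by
    simp only [Matrix.mul_assoc], Vs, Vs, mul_diagonal, diagonal_mul, norm_mul, norm_mul, norm_sgn,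
    norm_sgn, one_mul, mul_one]
  exact hbb w w'

omit [Fintype ι] [DecidableEq ι] in
theorem H_sub {M : Matrix ι ι ℂ} (h : Mᵀ = M) (x y : ι) :
    (Mᴴ - M) x y = 2 * Complex.I * ((-(M x y).im : ℝ) : ℂ) := by
  rw [Matrix.sub_apply, conjTranspose_apply, ← transpose_apply M x y, h, ← neg_sub,
    Complex.star_def, Complex.sub_conj]
  push_cast; ring

theorem KOK.im_off (h : KOK A) (Y : Finset ι) (ϖ : ι → Bool) {x y : ι} (c : x ∉ Y ∨ y ∉ Y) :
    (Ww A Y ϖ x y).im = 0 := by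
  rcases c with c | c
  · rw [h.Ww_row Y ϖ c]; split_ifs <;> simp [sgn_im]
  · rw [h.Ww_col Y ϖ c]; split_ifs <;> simp [sgn_im]

theorem t_ward : S_WARD := fun ι _ _ A X Y ϖ h hX hu u => by
  set g := (X + Ww A Y ϖ)⁻¹ *ᵥ u with hg
  have e1 : u = (X + Ww A Y ϖ) *ᵥ g := by rw [hg, mulVec_mulVec, mul_nonsing_inv _ hu, one_mulVec]
  have e2 : star u ⬝ᵥ g = star g ⬝ᵥ (X + Ww A Y ϖ)ᴴ *ᵥ g := by
    conv_lhs => rw [e1, star_mulVec, ← dotProduct_mulVec]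
  have e3 : (starRingEnd ℂ) (star u ⬝ᵥ g) = star g ⬝ᵥ (X + Ww A Y ϖ) *ᵥ g := by
    rw [← e1, ← Complex.star_def, ← star_dotProduct_star, star_star]
  have e4 := Complex.sub_conj (star u ⬝ᵥ g)
  rw [e3] at e4
  nth_rewrite 1 [e2] at e4
  rw [← dotProduct_sub, ← sub_mulVec, conjTranspose_add, hX, add_sub_add_left_eq_sub] at e4
  refine mul_left_cancel₀ (mul_ne_zero two_ne_zero Complex.I_ne_zero) ?_
  have e5 : ∑ x ∈ Y, ∑ y ∈ Y, star (g x) * ((-(Ww A Y ϖ x y).im : ℝ) : ℂ) * g y =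
      ∑ x, ∑ y, star (g x) * ((-(Ww A Y ϖ x y).im : ℝ) : ℂ) * g y := by
    rw [← sum_subset (subset_univ Y) fun x _ hx => sum_eq_zero fun y _ => by
      simp [h.im_off Y ϖ (Or.inl hx)]]
    exact sum_congr rfl fun x _ => sum_subset (subset_univ Y) fun y _ hy => by
      simp [h.im_off Y ϖ (Or.inr hy)]
  rw [e5]
  simp only [dotProduct, mulVec, H_sub (h.Ww_T Y ϖ), Pi.star_apply] at e4 ⊢
  rw [mul_sum]
  refine Eq.trans (by push_cast; ring) (e4.symm.trans (sum_congr rfl fun x _ => ?_))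
  rw [mul_sum, mul_sum]
  exact sum_congr rfl fun y _ => by ring

section pieces

variable {Y : Finset ι} {L : ι → Matrix ι ι ℂ} {D : Matrix ι ι ℝ} {c ν : ℝ}

omit [Fintype ι] in
theorem DH_nn (D0 : ∀ v u, 0 ≤ D v u) (v u : ι) : 0 ≤ DH D v u :=
  add_nonneg (D0 v u) (by split_ifs <;> norm_num)

theorem no_single (E : ι → ℝ) (x : ι) : no E (Pi.single x 1) = √(E x) := by
  rw [no, sum_eq_single x (fun u _ hu => by simp [Pi.single_eq_of_ne hu]) (by simp)]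
  simp

theorem bf_single (B : Matrix ι ι ℂ) (x y : ι) : bf B (Pi.single x 1) (Pi.single y 1) = B x y := by
  simp [bf]

theorem Maj.dg {B : Matrix ι ι ℂ} {E : ι → ℝ} (h : Maj B E c) (hE : ∀ u, 0 ≤ E u) (x : ι) :
    ‖B x x‖ ≤ c * E x := by
  have := h (Pi.single x 1) (Pi.single x 1)
  rwa [bf_single, no_single, mul_assoc, Real.mul_self_sqrt (hE x)] at this

theorem pcs_majF (H : ∀ v ∈ Y, Maj (L v) (DH D v) c) (c0 : 0 ≤ c) (D0 : ∀ v u, 0 ≤ D v u)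
    (hD : ∀ u, ∑ v, D v u ≤ 1 / 500) (X : Finset ι) : MajF X Y L (DH D) c (46 / 45) := by
  refine ⟨H, DH_nn D0, fun u _ => ?_, c0, by norm_num⟩
  have a := (sum_le_sum_of_subset_of_nonneg (subset_univ Y) fun v _ _ => D0 v u).trans (hD u)
  have : ∑ w ∈ Y, (if u = w then 51 / 50 else 0 : ℝ) ≤ 51 / 50 := by
    rw [sum_ite_eq]; split_ifs <;> norm_num
  simp only [DH, sum_add_distrib]
  linarith

/-- the pieces with another centre contribute little to a diagonal entry -/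
theorem pcs_side (H : ∀ v ∈ Y, Maj (L v) (DH D v) c) (c0 : 0 ≤ c) (D0 : ∀ v u, 0 ≤ D v u) (x : ι) :
    ‖∑ w ∈ Y.erase x, L w x x‖ ≤ c * ∑ w, D w x := by
  refine (norm_sum_le _ _).trans ((sum_le_sum (g := fun w => c * D w x) fun w hw => ?_).trans ?_)
  · have := (H w (mem_of_mem_erase hw)).dg (DH_nn D0 w) x
    rwa [DH, if_neg (ne_of_mem_erase hw).symm, add_zero] at this
  · rw [← mul_sum]
    exact mul_le_mul_of_nonneg_left (sum_le_sum_of_subset_of_nonneg (subset_univ _)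
      fun v _ _ => D0 v x) c0

/-- the part off the diagonal against a vector that lives on `I` -/
theorem pcs_off (H : ∀ v ∈ Y, Maj (L v) (DH D v) c) (c0 : 0 ≤ c) (D0 : ∀ v u, 0 ≤ D v u)
    (hD : ∀ u, ∑ v, D v u ≤ 1 / 500) {I : Finset ι} (ν0 : 0 ≤ ν) (ν1 : ν ≤ 1 / 500)
    (h1 : ∀ u ∈ I, ∑ v, D v u ≤ ν) (h2 : ∀ u, ∑ v ∈ I, D v u ≤ ν) (ξ ζ : ι → ℂ)
    (hζ : ∀ y ∉ I, ζ y = 0) :
    ‖∑ x ∈ Y, ∑ y ∈ Y.erase x, ξ x * (∑ v ∈ Y, L v x y) * ζ y‖ ≤
      21 / 10 * c * √ν * (nS Y ξ * nS Y ζ) := by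
  have F := pcs_majF H c0 D0 hD Y
  have x0 := nS_nonneg Y ξ
  have z0 := nS_nonneg Y ζ
  have s0 := Real.sqrt_nonneg ν
  have a1 : ∑ w ∈ Y, ∑ u ∈ Y, DH D w u * ‖if w = u then 0 else ζ u‖ ^ 2 ≤ (√ν * nS Y ζ) ^ 2 := by
    refine le_trans (sum_le_sum fun w _ => sum_le_sum fun u _ => ?_)
      (MajF.wsum (E := fun w u => if u ∈ I then D w u else 0) (fun u _ => ?_) ν0 ζ)
    · by_cases e : w = u
      · have := D0 w u
        rw [if_pos e]; split_ifs <;> simp; positivity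
      · rw [if_neg e, DH, if_neg (Ne.symm e), add_zero]
        split_ifs with c
        exacts [le_rfl, by simp [hζ u c]]
    · split_ifs with c
      · exact (sum_le_sum_of_subset_of_nonneg (subset_univ Y) fun v _ _ => D0 v u).trans (h1 u c)
      · simpa using ν0
  have a2 : ∑ w ∈ Y, ∑ u ∈ Y, DH D w u * ‖if w ≠ u ∧ w ∈ I then ξ u else 0‖ ^ 2 ≤
      (√ν * nS Y ξ) ^ 2 := by
    refine le_trans (sum_le_sum fun w _ => sum_le_sum fun u _ => ?_)
      (MajF.wsum (E := fun w u => if w ∈ I then D w u else 0) (fun u _ => ?_) ν0 ξ)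
    · by_cases e : w ≠ u ∧ w ∈ I
      · rw [if_pos e, if_pos e.2, DH, if_neg e.1.symm, add_zero]
      · have := D0 w u
        rw [if_neg e]; split_ifs <;> simp; positivity
    · rw [sum_ite_mem]
      exact (sum_le_sum_of_subset_of_nonneg inter_subset_right fun v _ _ => D0 v u).trans (h2 u)
  have a3 : ∑ w ∈ Y, ∑ u ∈ Y, DH D w u * ‖if w = u then ζ u else 0‖ ^ 2 ≤
      (√(46 / 45) * nS Y ζ) ^ 2 :=
    le_trans (sum_le_sum fun w _ => sum_le_sum fun u _ => mul_le_mul_of_nonneg_left (by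
      split_ifs <;> simp) (F.nn w u)) (MajF.wsum F.col F.h0 ζ)
  have b1 := F.bil (fun _ => ξ) _ (by positivity) (by positivity) (MajF.wsum F.col F.h0 ξ) a1
  have b2 := F.bil _ _ (by positivity) (by positivity) a2 a3
  have b3 : ‖∑ x ∈ Y, ξ x * (∑ w ∈ Y.erase x, L w x x) * ζ x‖ ≤ c * ν * (nS Y ξ * nS Y ζ) := by
    refine (norm_sum_le _ _).trans ((sum_le_sum (g := fun x => c * ν * (‖ξ x‖ * ‖ζ x‖))
      fun x _ => ?_).trans ?_)
    · by_cases e : x ∈ I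
      · rw [norm_mul, norm_mul, mul_right_comm, mul_comm]
        exact mul_le_mul_of_nonneg_right ((pcs_side H c0 D0 x).trans
          (mul_le_mul_of_nonneg_left (h1 x e) c0)) (by positivity)
      · simp [hζ x e]
    · rw [← mul_sum]
      exact mul_le_mul_of_nonneg_left (nS_cs' _ _ _) (by positivity)
  have e : ∑ x ∈ Y, ∑ y ∈ Y.erase x, ξ x * (∑ v ∈ Y, L v x y) * ζ y =
      ∑ w ∈ Y, ∑ x ∈ Y, ξ x * ap Y (L w) (fun u => if w = u then 0 else ζ u) x +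
      ∑ w ∈ Y, ∑ x ∈ Y, (if w ≠ x ∧ w ∈ I then ξ x else 0) *
        ap Y (L w) (fun u => if w = u then ζ u else 0) x -
      ∑ x ∈ Y, ξ x * (∑ w ∈ Y.erase x, L w x x) * ζ x := by
    rw [← sum_add_distrib]
    simp only [← sum_add_distrib]
    rw [sum_comm (s := Y) (t := Y), ← sum_sub_distrib]
    refine sum_congr rfl fun x hx => ?_
    have e1 : ∑ y ∈ Y.erase x, ξ x * (∑ v ∈ Y, L v x y) * ζ y =
        ∑ w ∈ Y, ∑ y ∈ Y, if x = y then 0 else ξ x * L w x y * ζ y := by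
      rw [sum_comm, ← add_sum_erase _ _ hx]
      simp only [if_true, sum_const_zero, zero_add, mul_sum, sum_mul]
      exact sum_congr rfl fun y hy => by simp only [if_neg (ne_of_mem_erase hy).symm]
    have e2 : ξ x * (∑ w ∈ Y.erase x, L w x x) * ζ x =
        ∑ w ∈ Y, ∑ y ∈ Y, if x = y then if w = x then 0 else ξ x * L w x y * ζ y else 0 := by
      simp only [sum_ite_eq, if_pos hx]
      rw [← add_sum_erase _ _ hx, if_pos rfl, zero_add, mul_sum, sum_mul]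
      exact sum_congr rfl fun w hw => by rw [if_neg (ne_of_mem_erase hw)]
    rw [e1, e2, ← sum_sub_distrib]
    refine sum_congr rfl fun w _ => ?_
    simp only [ap, mul_sum, ← sum_add_distrib, ← sum_sub_distrib]
    refine sum_congr rfl fun y _ => ?_
    by_cases c1 : y ∈ I
    · by_cases c2 : w = y <;> by_cases c3 : x = y
      · simp [c2, c3]
      · simp [c2, c3, c1, Ne.symm c3, mul_assoc]
      · simp [c2, c3, mul_assoc]
      · simp [c2, c3, mul_assoc]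
    · simp [hζ y c1]
  have r1 : √(46 / 45) ≤ 506 / 500 := Real.sqrt_le_iff.2 (by norm_num)
  have r2 : √ν ≤ 1 / 20 := Real.sqrt_le_iff.2 ⟨by norm_num, by linarith⟩
  have r3 := Real.mul_self_sqrt ν0
  have p : 0 ≤ c * √ν * (nS Y ξ * nS Y ζ) := by positivity
  rw [e]
  refine (norm_sub_le _ _).trans ((add_le_add ((norm_add_le _ _).trans (add_le_add b1 b2)) b3).trans ?_)
  nth_rewrite 3 [← r3]
  nlinarith [mul_le_mul_of_nonneg_right r1 p, mul_le_mul_of_nonneg_right r2 p]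

end pieces

end Pool.Agent.P.MP_d0f69c_mp.XS.Pre
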