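import Pool.Agent.P.MP_d0f69c_mp.XS.PCv1
import Pool.Agent.P.MP_d0f69c_mp.XS.PNw3
import Pool.Agent.P.MP_d0f69c_mp.XS.PWard1

/-!
Conversion to diagonal leads: the new matrix as a perturbation of the old one.
-/

set_option autoImplicit false

open Finset Real Matrix

namespace Pool.Agent.P.MP_d0f69c_mp.XS.Pre

variable {ι : Type} [Fintype ι] [DecidableEq ι]

omit [Fintype ι] in
/-- the diagonal entry of an isolated site changes in second order -/
theorem PrtM.iso2 {O T : Finset ι} {G G' Δ : ι → ι → ℂ} {δ s g τ t e : ℝ} (h : PrtM O G G' Δ δ s)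
    (hT : T ⊆ O) {x : ι} (τ0 : 0 ≤ τ) (hg : nS O (G x) ≤ g) (ht : nS T (G x) ≤ t)
    (he : nS O (G' x - G x) ≤ e) (hΔ : OpLe O (fun z w => if w ∈ T then 0 else Δ z w) τ) :
    ‖G' x x - G x x‖ ≤ g * (τ * (4 / 3 * g)) + (t + e) * (δ * t + τ * g) := by
  have g0 := (nS_nonneg _ _).trans hg
  have sp : ∀ u, ap O Δ u = ap O Δ (fun w => if w ∈ T then u w else 0) +
      ap O (fun z w => if w ∈ T then 0 else Δ z w) u := fun u => funext fun z => by
    simp only [ap, Pi.add_apply, ← sum_add_distrib]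
    exact sum_congr rfl fun w _ => by split_ifs <;> simp
  have n : ∀ u, nS O (fun w => if w ∈ T then u w else 0) = nS T u := fun u => by
    rw [nS_ite, inter_eq_right.2 hT]
  have a1 := (nS_cs O (G x) _).trans (mul_le_mul hg ((hΔ (G' x)).trans
    (mul_le_mul_of_nonneg_left (h.row' hg) τ0)) (nS_nonneg _ _) g0)
  have a2 : nS O (ap O Δ (G x)) ≤ δ * t + τ * g := by
    rw [sp]
    exact (nS_add _ _ _).trans (add_le_add ((h.le _).trans (mul_le_mul_of_nonneg_left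
      ((n _).trans_le ht) h.δ0)) ((hΔ _).trans (mul_le_mul_of_nonneg_left hg τ0)))
  have a3 : nS O (fun w => if w ∈ T then G' x w else 0) ≤ t + e := by
    have := nS_add T (G x) (G' x - G x)
    rw [add_sub_cancel] at this
    linarith [n (G' x), nS_mono hT (G' x - G x)]
  have a4 := (nS_cs O _ _).trans (mul_le_mul a3 a2 (nS_nonneg _ _) ((nS_nonneg _ _).trans a3))
  rw [← ap_swap h.symD] at a4
  rw [h.id x x, sub_sub_cancel_left, norm_neg, sp (G' x)]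
  simp only [Pi.add_apply, mul_add, sum_add_distrib]
  linarith [norm_add_le (∑ z ∈ O, G x z * ap O Δ (fun w => if w ∈ T then G' x w else 0) z)
    (∑ z ∈ O, G x z * ap O (fun z w => if w ∈ T then 0 else Δ z w) (G' x) z)]

/-- the data of the conversion -/
structure Cv (ι : Type) where
  X : Matrix ι ι ℝ
  Z : Matrix ι ι ℂ
  σ : ℂ
  Gd : Finset ι
  Om : Finset ι
  J : Finset ι
  nr : ι → Finset ι

namespace Cv

variable (c : Cv ι)

def O : Finset ι := c.Gd ∪ c.Om ∪ c.J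
/-- the block on the junk -/
def Zj : Matrix ι ι ℝ := fun x y => if x ∈ c.J ∧ y ∈ c.J ∧ x ∈ c.nr y then (c.Z x y).re else 0
/-- the new leads -/
noncomputable def W (x : ι) : ℂ :=
  if x ∈ c.Om then c.σ else if x ∈ c.J then (c.Z x x).im * Complex.I else c.Z x x
noncomputable def G : Matrix ι ι ℂ := (cr c.X + c.Z)⁻¹
noncomputable def G' : Matrix ι ι ℂ := NW.GG (c.X + c.Zj) c.W
noncomputable def Δ : Matrix ι ι ℂ := NW.MM (c.X + c.Zj) c.W - (cr c.X + c.Z)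

/-- the hypotheses -/
structure OK (k : ι → ι → ℝ) (η τ ε : ℝ) : Prop where
  go : Disjoint c.Gd c.Om
  gj : Disjoint c.Gd c.J
  oj : Disjoint c.Om c.J
  sX : c.Xᵀ = c.X
  sZ : c.Zᵀ = c.Z
  un : IsUnit (cr c.X + c.Z).det
  off : ∀ x ∉ c.O, ∀ y, x ≠ y → c.Z x y = 0
  n1 : ∀ x, x ∈ c.nr x
  n2 : ∀ x y, x ∈ c.nr y ↔ y ∈ c.nr x
  k0 : ∀ x y, 0 ≤ k x y
  ks : ∀ x y, k x y = k y x
  k1 : ∀ x, ∑ y, k x y ≤ τ
  far : ∀ x y, x ∉ c.nr y → ‖c.Z x y‖ ≤ k x y
  iso : ∀ x ∈ c.Gd ∪ c.Om, ∀ y ∈ c.O, x ≠ y → x ∉ c.nr y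
  im : OpLe c.O (fun x y => if x = y then 0 else (c.Z x y).im) (ε * η)
  dg : ∀ x ∈ c.Om, ‖c.σ - c.Z x x‖ ≤ ε
  wd : Wd c.O c.G η
  gi : ∀ x ∈ c.O, |(c.G x x).im| ≤ 2 * η
  oo : OpLe c.Om (fun x y => if x = y then 0 else c.G x y) η
  η0 : 0 < η
  η1 : η ≤ 1
  τ0 : 0 ≤ τ
  τ1 : τ ≤ ε * η
  ε1 : ε ≤ 1 / 1000

variable {c} {k : ι → ι → ℝ} {η τ ε t : ℝ} {x y : ι}

omit [Fintype ι] in
theorem I_sub : c.Gd ∪ c.Om ⊆ c.O := subset_union_left

omit [Fintype ι] in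
theorem Om_sub : c.Om ⊆ c.O := subset_union_right.trans I_sub

omit [Fintype ι] in
theorem T_sub (x : ι) : c.J ∪ c.Om.erase x ⊆ c.O :=
  union_subset subset_union_right ((erase_subset _ _).trans Om_sub)

omit [Fintype ι] in
theorem Δ_eq (x y : ι) : c.Δ x y = c.Zj x y + (if x = y then c.W x else 0) - c.Z x y := by
  simp only [Δ, NW.MM, cr, Matrix.sub_apply, Matrix.add_apply]
  push_cast
  ring

namespace OK

variable (h : c.OK k η τ ε)
include h

theorem ε0 : 0 ≤ ε := nonneg_of_mul_nonneg_left (h.τ0.trans h.τ1) h.η0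

theorem Zs (x y : ι) : c.Z x y = c.Z y x := congrFun (congrFun h.sZ y) x

theorem Zj_T : c.Zjᵀ = c.Zj := by
  ext x y
  simp only [transpose_apply, Zj, h.n2 x, h.Zs x, and_left_comm]

theorem N_T : (cr c.X + c.Z)ᵀ = cr c.X + c.Z := by
  rw [transpose_add, h.sZ]
  congr 1
  ext x y
  exact congrArg Complex.ofReal (congrFun (congrFun h.sX x) y)

theorem Δ_T : c.Δᵀ = c.Δ := by
  ext x y
  rw [transpose_apply, Δ_eq, Δ_eq, h.Zs y, ← transpose_apply c.Zj, h.Zj_T]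
  by_cases e : x = y
  · rw [e]
  · rw [if_neg e, if_neg (Ne.symm e)]

theorem Δ_off (hx : x ∉ c.O) (y : ι) : c.Δ x y = 0 := by
  have a : x ∉ c.J := fun e => hx (mem_union_right _ e)
  have b : x ∉ c.Om := fun e => hx (I_sub (mem_union_right _ e))
  by_cases e : x = y
  · subst e; simp [Δ_eq, Zj, W, a, b]
  · simp [Δ_eq, Zj, a, e, h.off x hx y e]

theorem Δ_diag (x : ι) : c.Δ x x = if x ∈ c.Om then c.σ - c.Z x x else 0 := by
  by_cases a : x ∈ c.Om
  · simp [Δ_eq, Zj, W, a, disjoint_left.1 h.oj a]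
  · by_cases b : x ∈ c.J <;> simp [Δ_eq, Zj, W, a, b, h.n1]

theorem Δ_far (e : x ∉ c.nr y) : c.Δ x y = -c.Z x y := by
  have : x ≠ y := fun b => e (b ▸ h.n1 x)
  simp [Δ_eq, Zj, e, this]

theorem Δ_ne (hx : x ∈ c.O) (hy : y ∈ c.O) (e : x ≠ y) : c.Δ x y =
    -Complex.I * (c.Z x y).im - if x ∈ c.nr y then 0 else ((c.Z x y).re : ℂ) := by
  have z := Complex.re_add_im (c.Z x y)
  split_ifs with a
  · have b : ∀ {x y}, x ∈ c.O → y ∈ c.O → x ≠ y → x ∈ c.nr y → x ∈ c.J := fun hx hy e a =>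
      (mem_union.1 hx).resolve_left fun i => h.iso _ i _ hy e a
    rw [Δ_eq, Zj, if_pos ⟨b hx hy e a, b hy hx e.symm ((h.n2 x y).1 a), a⟩, if_neg e]
    linear_combination z
  · rw [h.Δ_far a]
    linear_combination z

theorem sch {Y : ι → ι → ℂ} {S : Finset ι} (hY : ∀ x ∈ S, ∀ y ∈ S, ‖Y x y‖ ≤ k x y) : OpLe S Y τ := by
  have r : ∀ x, ∑ y ∈ S, k x y ≤ τ := fun x =>
    (sum_le_univ_sum_of_nonneg fun y => h.k0 x y).trans (h.k1 x)
  exact OpLe.schur hY h.τ0 (fun x _ => r x) fun y _ => by simpa only [h.ks _ y] using r y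

theorem re_le (x y : ι) : ‖if x ∈ c.nr y then 0 else ((c.Z x y).re : ℂ)‖ ≤ k x y := by
  split_ifs with a
  · simpa using h.k0 x y
  · exact (Complex.norm_real _).trans_le ((Complex.abs_re_le_norm _).trans (h.far x y a))

theorem op_off : OpLe c.O (fun x y => if x = y then 0 else c.Δ x y) (2 * (ε * η)) := by
  have a := (h.im.left (a := fun _ => -Complex.I) zero_le_one (by simp)).diff
    (h.sch fun x _ y _ => h.re_le x y)
  refine (a.mono (by linarith [h.τ1])).congr fun x hx y hy => ?_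
  by_cases e : x = y
  · simp [e, h.n1]
  · simp only [if_neg e, h.Δ_ne hx hy e]

theorem Δ_dg (x : ι) : ‖c.Δ x x‖ ≤ ε := by
  rw [h.Δ_diag]
  split_ifs with a
  exacts [h.dg x a, by simpa using h.ε0]

theorem op_Δ : OpLe c.O c.Δ (3 * ε) := by
  refine ((h.op_off.add (OpLe.diag h.ε0 fun x _ => h.Δ_dg x)).mono
    (by nlinarith [h.η1, h.ε0])).congr fun x _ y _ => ?_
  by_cases e : x = y <;> simp [e]

theorem GΔ (u : ι → ℂ) : nS c.O (ap c.O c.G (ap c.O c.Δ u)) ≤ 7 * ε * nS c.O u := by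
  have η0 := h.η0
  have e : ap c.O c.Δ u = ap c.O (fun x y => if x = y then 0 else c.Δ x y) u +
      ap c.O (fun x y => if x = y then c.Δ x x else 0) u := by
    rw [← ap_add]
    refine funext fun x => sum_congr rfl fun y _ => ?_
    by_cases e : x = y <;> simp [e]
  have e2 : ap c.O c.G (ap c.O (fun x y => if x = y then c.Δ x x else 0) u) =
      ap c.Om c.G fun y => c.Δ y y * u y := by
    rw [← ap_ite Om_sub c.G]
    refine funext fun x => sum_congr rfl fun y hy => congrArg _ ?_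
    by_cases a : y ∈ c.Om <;> simp [ap, hy, a, h.Δ_diag]
  have a1 := (h.wd.op η0 _).trans (mul_le_mul_of_nonneg_left (h.op_off u) (by positivity))
  have a2 := (h.wd.cols η0 Om_sub (fun x hx => h.gi x (Om_sub hx)) h.oo _).trans
    (mul_le_mul_of_nonneg_left ((nS_le_mul (u := fun y => c.Δ y y * u y) (w := u) h.ε0
      fun x _ => by rw [norm_mul]; exact mul_le_mul_of_nonneg_right (h.Δ_dg x) (norm_nonneg _)).trans
      (mul_le_mul_of_nonneg_left (nS_mono Om_sub u) h.ε0)) (by norm_num))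
  rw [e, ap_add' _ c.G, e2]
  refine (nS_add _ _ _).trans ((add_le_add a1 a2).trans_eq ?_)
  field_simp
  ring

theorem unit : IsUnit (NW.MM (c.X + c.Zj) c.W).det := by
  have := unit_small (G := c.G) rfl h.un (fun x hx y => h.Δ_off hx y)
    (fun x hx y => by rw [← transpose_apply c.Δ, h.Δ_T, h.Δ_off hx]) (by linarith [h.ε1]) h.GΔ
  rwa [Δ, add_sub_cancel] at this

theorem prt : PrtM c.O c.G c.G' c.Δ (3 * ε) (4 / 3 * (7 * ε)) := by
  have := h.ε0
  have e : cr c.X + c.Z + c.Δ = NW.MM (c.X + c.Zj) c.W := add_sub_cancel _ _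
  exact prtM_inv rfl (by rw [e]; rfl) h.N_T h.Δ_T h.un (e ▸ h.unit) (fun x hx y => h.Δ_off hx y)
    (by positivity) h.op_Δ (by positivity) (by linarith [h.ε1]) h.GΔ

theorem row (hx : x ∈ c.O) : nS c.O (c.G x) ≤ 3 := h.wd.row h.η0 h.prt.sym hx (h.gi x hx)

theorem op' : OpLe c.O c.G' (3 / η) :=
  (h.prt.opG (h.wd.op h.η0)).mono (by
    rw [← mul_div_assoc]; exact div_le_div_of_nonneg_right (by norm_num) h.η0.le)

theorem op_iso (hx : x ∈ c.Gd ∪ c.Om) : OpLe c.O (fun z w => (if w ∈ c.J ∪ c.Om.erase x then 0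
    else c.Δ z w) - if z = w then if z = x then c.Δ x x else 0 else 0) τ := by
  have xT : x ∉ c.J := disjoint_left.1 (disjoint_union_left.2 ⟨h.gj, h.oj⟩) hx
  refine h.sch fun z hz w hw => ?_
  by_cases b : w ∈ c.J ∪ c.Om.erase x
  · have : w ≠ x := fun e => by simp [e, xT] at b
    by_cases e : z = w <;> simpa [b, e, this] using h.k0 _ _
  have wI : w ∈ c.Gd ∪ c.Om := (mem_union.1 hw).resolve_right fun a => b (mem_union_left _ a)
  rw [if_neg b]
  by_cases e : z = w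
  · subst e
    by_cases e : z = x
    · simpa [e] using h.k0 _ _
    · have : z ∉ c.Om := fun a => b (mem_union_right _ (mem_erase.2 ⟨e, a⟩))
      simpa [e, h.Δ_diag, this] using h.k0 _ _
  · have a := mt (h.n2 z w).1 (h.iso w wI z hz (Ne.symm e))
    rw [if_neg e, sub_zero, h.Δ_far a, norm_neg]
    exact h.far z w a

/-- rows of isolated sites -/
theorem rowI (hx : x ∈ c.Gd ∪ c.Om) (ht : nS (c.J ∪ c.Om.erase x) (c.G x) ≤ t)
    (τ2 : 100 * τ ≤ η * t) :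
    nS c.O (fun y => c.G' x y * (1 + c.Δ x x * c.G x x) - c.G x y) ≤ t / 10 := by
  have xT : x ∉ c.J := disjoint_left.1 (disjoint_union_left.2 ⟨h.gj, h.oj⟩) hx
  have η0 := h.η0
  have a := h.prt.iso h.op' (by positivity) (T_sub x) (mem_sdiff.2 ⟨I_sub hx, by simp [xT]⟩) h.τ0
    (h.row (I_sub hx)) (h.op_iso hx)
  have b : 3 / η * τ * 3 ≤ 9 / 100 * t := by
    rw [div_mul_eq_mul_div, div_mul_eq_mul_div, div_le_iff₀ η0]; linarith
  have := mul_le_mul (show 4 / 3 * (7 * ε) ≤ 1 / 100 by linarith [h.ε1]) ht (nS_nonneg _ _)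
    (by norm_num)
  linarith

theorem Δ_gd (hx : x ∈ c.Gd) : c.Δ x x = 0 := by rw [h.Δ_diag, if_neg (disjoint_left.1 h.go hx)]

theorem rowG (hx : x ∈ c.Gd) (ht : nS (c.J ∪ c.Om.erase x) (c.G x) ≤ t) (τ2 : 100 * τ ≤ η * t) :
    nS c.O (c.G' x - c.G x) ≤ t / 10 := by
  have := h.rowI (mem_union_left _ hx) ht τ2
  simp only [h.Δ_gd hx, zero_mul, add_zero, mul_one] at this
  exact this

theorem mis (hx : x ∈ c.Gd) (ht : nS (c.J ∪ c.Om.erase x) (c.G x) ≤ t) (τ2 : 100 * τ ≤ η * t)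
    (τ3 : 100 * τ ≤ t ^ 2) (t1 : t ≤ 1) : ‖c.G' x x - c.G x x‖ ≤ t ^ 2 := by
  have t0 := (nS_nonneg _ _).trans ht
  have a := h.prt.iso2 (T_sub x) h.τ0 (h.row (I_sub (mem_union_left _ hx))) ht (h.rowG hx ht τ2)
    (by simpa [h.Δ_gd hx] using h.op_iso (mem_union_left _ hx))
  nlinarith [mul_le_mul_of_nonneg_right h.ε1 (sq_nonneg t), mul_le_mul_of_nonneg_left t1 h.τ0]

theorem four (hx : x ∈ c.Gd ∪ c.Om) (ht : nS (c.J ∪ c.Om.erase x) (c.G x) ≤ t)
    (τ2 : 100 * τ ≤ η * t) {S : Finset ι} (hS : S ⊆ c.O) {Γ : ι → ℂ}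
    (hΓ : nS S (c.G x - Γ) ≤ t / 10) :
    ∑ y ∈ S, ‖c.G' x y‖ ^ 4 ≤ 128 * ∑ y ∈ S, ‖Γ y‖ ^ 4 + t ^ 4 := by
  have a := nS_sub S (fun y => c.G x y - c.G' x y * (1 + c.Δ x x * c.G x x)) (c.G x - Γ)
  have a1 : nS S (fun y => c.G x y - c.G' x y * (1 + c.Δ x x * c.G x x)) ≤ t / 10 :=
    (nS_le_nS fun y _ => (norm_sub_rev _ _).le).trans ((nS_mono hS _).trans (h.rowI hx ht τ2))
  have a2 := four_sub S Γ _ (a.trans (add_le_add a1 hΓ))
  have a3 : ‖c.Δ x x * c.G x x‖ ≤ 1 / 2 := by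
    rw [norm_mul]
    linarith [mul_le_mul ((h.Δ_dg x).trans h.ε1) ((le_nS _ (I_sub hx)).trans (h.row (I_sub hx)))
      (norm_nonneg _) (by norm_num)]
  have a4 : 1 / 2 ≤ ‖1 + c.Δ x x * c.G x x‖ := by
    linarith [norm_sub_le (1 + c.Δ x x * c.G x x) (c.Δ x x * c.G x x), norm_one (α := ℂ),
      congrArg norm (add_sub_cancel_right 1 (c.Δ x x * c.G x x))]
  refine le_trans ?_ ((mul_le_mul_of_nonneg_left a2 (by norm_num : (0 : ℝ) ≤ 16)).trans
    (by nlinarith [pow_nonneg ((nS_nonneg _ _).trans ht) 4]))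
  rw [mul_sum]
  refine sum_le_sum fun y _ => ?_
  simp only [Pi.sub_apply, sub_sub_sub_cancel_left, sub_sub_cancel, norm_mul, mul_pow]
  nlinarith [mul_le_mul_of_nonneg_left (pow_le_pow_left₀ (by norm_num) a4 4)
    (pow_nonneg (norm_nonneg (c.G' x y)) 4)]

/-- the commutator term -/
theorem cm {L : ι → Matrix ι ι ℂ} {D : Matrix ι ι ℝ} {β N : ℝ}
    (hL : ∀ x y, ((-(c.Z x y).im : ℝ) : ℂ) = ∑ v ∈ c.O, L v x y)
    (hM : ∀ v ∈ c.O, Maj (L v) (DH D v) β) (β0 : 0 ≤ β) (β1 : β + √τ ≤ 10 * η)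
    (D0 : ∀ v u, 0 ≤ D v u) (D1 : ∀ u, ∑ v, D v u ≤ 1 / 500) (f : ι → ℝ) (N0 : 0 ≤ N)
    (hE : ∑ v, ∑ u, (D v u + k v u) * (f u - f v) ^ 2 ≤ ε ^ 2 * N) :
    cmN c.O c.G c.G' c.Δ f ≤ 360 * ε * √N := by
  have η0 := h.η0
  have ε0 := h.ε0
  have p0 : ∀ v u, 0 ≤ DH D v u + k v u := fun v u => add_nonneg (DH_nn D0 v u) (h.k0 v u)
  have F : MajF c.O c.O (fun w => Complex.I • L w + (-1 : ℂ) • of fun x y => if x = w then
      (of fun x y => if x ∈ c.nr y then 0 else ((c.Z x y).re : ℂ)) w y else 0)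
      (fun v u => DH D v u + k v u) (β + √τ) 2 := by
    refine ⟨fun w hw => (((hM w hw).weak β0 fun u => le_add_of_nonneg_right (h.k0 w u)).smul
      (by simp)).plus ((maj_row w (h.k0 w) (h.k1 w) (h.re_le w) (p0 w) ?_
      fun u => le_add_of_nonneg_left (DH_nn D0 w u)).smul (by simp)), p0, fun u hu => ?_,
      by positivity, zero_le_two⟩
    · rw [DH, if_pos rfl]; linarith [D0 w w, h.k0 w w]
    · have a := (sum_le_univ_sum_of_nonneg (s := c.O) fun v => h.k0 u v).trans (h.k1 u)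
      rw [sum_add_distrib]
      simp only [h.ks _ u]
      nlinarith [(pcs_majF hM β0 D0 D1 c.O).col u hu, h.τ1, h.ε1, h.η1]
  have a := F.cm_le (Λ := 3 / η) (g := 4) h.prt.sym h.prt.sym' (Δ := c.Δ) (fun x hx y hy e => by
      simp only [h.Δ_ne hx hy e, Matrix.add_apply, Matrix.smul_apply, smul_eq_mul, sum_add_distrib,
        ← mul_sum, ← hL, of_apply, sum_ite_eq, if_pos hx]
      push_cast
      ring)
    ((h.wd.op η0).mono (by gcongr; norm_num)) h.op' (by positivity) (by norm_num)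
    (fun u hu => (h.row hu).trans (by norm_num))
    (fun u hu => (h.prt.row' (h.row hu)).trans (by norm_num)) f f (by positivity)
    (le_trans ((sum_le_sum fun v _ => sum_le_univ_sum_of_nonneg fun u =>
      mul_nonneg (p0 v u) (sq_nonneg _)).trans (sum_le_univ_sum_of_nonneg fun v =>
        sum_nonneg fun u _ => mul_nonneg (p0 v u) (sq_nonneg _)))
      (le_of_eq_of_le (sum_congr rfl fun v _ => sum_congr rfl fun u _ => by
        by_cases e : u = v <;> simp [DH, e]) hE))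
  rw [sqrt_mul (sq_nonneg ε), sqrt_sq ε0] at a
  have b : √2 ≤ 3 / 2 := sqrt_le_iff.2 ⟨by norm_num, by norm_num⟩
  refine a.trans (le_trans (show _ ≤ 2 * (3 / η * (10 * η * (3 / 2)) * (4 * (ε * √N))) by gcongr)
    (le_of_eq ?_))
  field_simp
  ring

end OK

end Cv

end Pool.Agent.P.MP_d0f69c_mp.XS.Pre
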