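import Pool.Agent.P.MP_d0f69c_mp.XS.PCv2
import Pool.Agent.P.MP_d0f69c_mp.XS.PWard3
import Pool.Agent.P.MP_d0f69c_mp.XS.PDefs
import Pool.Agent.P.MP_d0f69c_mp.XS.PCtm

/-!
Conversion to diagonal leads on the torus: the data.
-/

set_option autoImplicit false

open Finset Real Matrix

namespace Pool.Agent.P.MP_d0f69c_mp.XS.Pre

variable {d M : ℕ} [NeZero M]

/-- the sites near the junk -/
noncomputable def nearJ (S : St (Tor d M)) (D : ℕ) : Finset (Tor d M) :=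
  univ.filter fun x => ∃ y ∈ S.junk, nm (x - y) ≤ D

/-- the effective potential of a state -/
noncomputable abbrev PEnv.Z (E : PEnv d M) (S : St (Tor d M)) : Matrix (Tor d M) (Tor d M) ℂ :=
  Ww (E.ker S) S.O (om S)

/-- the data of the conversion -/
noncomputable def cvD (E : PEnv d M) (S : St (Tor d M)) (R : Finset (Tor d M)) (D : ℕ) :
    Cv (Tor d M) :=
  ⟨E.H, E.Z S, E.σ, S.good, S.omg \ nearJ S D, S.junk ∪ S.omg ∩ nearJ S D, Nb R⟩

/-- what the conversion uses -/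
structure CvH (E : PEnv d M) (q : Par) (b : PB d M) (S : St (Tor d M)) (R : Finset (Tor d M))
    (k : Tor d M → Tor d M → ℝ) (τ e t : ℝ) : Prop where
  hE : E.toEnv.OK
  hq : q.OK E.toEnv
  fin : q.fin = false
  inv : PInv E b S
  smk : SmK (fun x y => (2 * nm (x - y) : ℝ) / q.l) (E.ker S) (1 / 100)
  unit : IsUnit (cr E.H + E.Z S).det
  lam : LamW (E.ker S) S.O (om S) E.η (E.a0 S) e
  a1 : ∀ x ∈ S.O, |E.a0 S x - 1| ≤ 1 / 10 ^ 12
  z1 : ∀ x ∈ S.O, ‖E.Z S x x‖ ≤ e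
  aφ : ∀ x ∈ S.good, ‖al (E.ker S) S.O (om S) x x - phi (E.Z S x x)‖ ≤ t ^ 2
  maj : ∃ (L : Tor d M → Matrix (Tor d M) (Tor d M) ℂ) (D : Matrix (Tor d M) (Tor d M) ℝ),
    (∀ x y, ((-(E.Z S x y).im : ℝ) : ℂ) = ∑ v ∈ S.O, L v x y) ∧
    (∀ v ∈ S.O, Maj (L v) (DH D v) (9 * E.η)) ∧ (∀ v u, 0 ≤ D v u) ∧ (∀ u, ∑ v, D v u ≤ 1 / 500) ∧
    ∀ F : Tor d M → ℝ, ∑ v, ∑ u, D v u * (F u - F v) ^ 2 ≤ e ^ 2 * NF E.p F
  σ : E.σ = -(E.η * Complex.I)
  η1 : E.η ≤ e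
  e1 : e ≤ 1 / 10 ^ 6
  R0 : 0 ∈ R
  Rs : ∀ z ∈ R, -z ∈ R
  R1 : ∀ z ∈ R, nm z ≤ E.rH
  iso : R ⊆ b.iso
  k0 : ∀ x y, 0 ≤ k x y
  ks : ∀ x y, k x y = k y x
  k1 : ∀ x, ∑ y, k x y ≤ τ
  kZ : ∀ x y, x - y ∉ R → ‖E.Z S x y‖ ≤ k x y
  ka : ∀ x y, x - y ∉ R → ‖al (E.ker S) S.O (om S) x y‖ ≤ k x y
  ke : ∀ F : Tor d M → ℝ, ∑ v, ∑ u, k v u * (F u - F v) ^ 2 ≤ e ^ 2 * NF E.p F
  dec : Dec (E.G0 S) S.O q.B q.l
  τ1 : 100 * τ ≤ t ^ 2
  τ2 : 100 * τ ≤ E.η * t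
  τ3 : τ ≤ E.η ^ 2
  t0 : exp (-(q.P : ℝ)) ≤ t
  t1 : t ≤ 1 / 100
  H0 : b.H 0 ≤ E.η / 2
  H1 : ∀ z, b.H z ≤ t / 2

theorem cvD_O (E : PEnv d M) (S : St (Tor d M)) (R : Finset (Tor d M)) (D : ℕ) :
    (cvD E S R D).O = S.O := by
  ext x
  simp only [cvD, Cv.O, St.O, mem_union, mem_sdiff, mem_inter]
  tauto

omit [NeZero M] in
theorem dec_fk {G : Matrix (Tor d M) (Tor d M) ℂ} {O : Finset (Tor d M)} {B B' : ℝ} {l D : ℕ}
    (h : Dec G O B l) (hB : B ≤ B') (hl : 0 < l) {x y : Tor d M} (hx : x ∈ O)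
    (hD : D < nm (x - y)) : ‖G x y‖ ≤ fk B' l D x y :=
  (le_mul_of_one_le_left (norm_nonneg _) (one_le_exp (by positivity))).trans
    (h.fk hB hl le_rfl hx hD)

namespace CvH

variable {E : PEnv d M} {q : Par} {b : PB d M} {S : St (Tor d M)} {R : Finset (Tor d M)}
  {k : Tor d M → Tor d M → ℝ} {τ e t : ℝ} (h : CvH E q b S R k τ e t) {x y : Tor d M}
include h

theorem tpos : 0 < t := (exp_pos _).trans_le h.t0

theorem ksum (T : Finset (Tor d M)) (x : Tor d M) : ∑ y ∈ T, k x y ≤ τ :=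
  (sum_le_univ_sum_of_nonneg (h.k0 x)).trans (h.k1 x)

theorem τ0 : 0 ≤ τ := by simpa using h.ksum ∅ 0

theorem e0 : 0 ≤ e := h.hE.η0.le.trans h.η1

theorem σ1 : ‖E.σ‖ ≤ e := by simpa [h.σ, abs_of_pos h.hE.η0] using h.η1

theorem qτ : 100 * q.τ ≤ t ∧ q.τ ≤ E.η := by
  have a := h.hq.τ_le_pow h.hE (c := 2) (by norm_num)
  have b := (h.hq.η1.trans h.hE.η1)
  constructor <;> nlinarith [h.t0, exp_pos (-(q.P : ℝ)), h.hq.η1]

theorem RD {z : Tor d M} (hz : z ∈ R) : nm z ≤ q.D E.η 0 :=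
  (h.R1 z hz).trans (h.hq.l1.trans ((h.hq.l_le_li h.hE 0).trans (h.hq.li_le_D h.hE 0)))

theorem Dρ : 2 * q.D E.η 0 < E.ρ1 := by
  have := (h.hq.vj h.fin).2
  have := h.hq.D_mono h.hE (show 0 ≤ 3 by norm_num)
  have := h.hq.D_one h.hE 0
  omega

theorem al_far (hx : x - y ∉ R) : ‖al (E.ker S) S.O (om S) x y‖ ≤ τ :=
  (h.ka x y hx).trans (by simpa using h.ksum {y} x)

theorem sep (hx : x ∈ S.omg) (hy : y ∈ S.omg) (e : x ≠ y) : 2 * q.D E.η 0 < nm (x - y) :=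
  h.Dρ.trans_le (h.hE.sep x (h.inv.oΩ ▸ hx) y (h.inv.oΩ ▸ hy) e)

theorem isol (hx : x ∈ S.good ∪ S.omg \ nearJ S (q.D E.η 0)) (hy : y ∈ S.O) (e : x ≠ y) :
    x - y ∉ R := fun n => by
  have := h.RD n
  rcases mem_union.1 hx with c | c
  · exact h.inv.iso x c y hy e.symm (h.iso (neg_sub x y ▸ h.Rs _ n))
  obtain ⟨c1, c2⟩ := mem_sdiff.1 c
  rcases mem_union.1 hy with g | g
  · rcases mem_union.1 g with g | g
    · exact h.inv.iso y g x (mem_union_left _ (mem_union_right _ c1)) e (h.iso n)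
    · have := h.sep c1 g e
      omega
  · exact c2 (mem_filter.2 ⟨mem_univ _, y, g, this⟩)

theorem G_far (hx : x ∈ S.O) (hy : q.D E.η 0 < nm (x - y)) :
    ‖E.G0 S x y‖ ≤ fk (exp ((q.P : ℝ) ^ 6)) q.l (q.D E.η 0) x y :=
  dec_fk h.dec (Par.OK.Bi_zero q ▸ h.hq.Bi_le (Nat.zero_le 3)) (h.hq.l_one h.hE) hx hy

theorem G_sum (T : Finset (Tor d M)) (x : Tor d M) :
    ∑ y ∈ T, fk (exp ((q.P : ℝ) ^ 6)) q.l (q.D E.η 0) x y ≤ q.τ :=
  Far.row (Par.OK.li_zero q E.η ▸ ((t_far d M _ q h.hE h.hq).2 0 (by norm_num)).1) (exp_pos _).le T x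

theorem wd : Wd S.O (E.G0 S) E.η := fun T _ u => by
  have e : E.G0 S *ᵥ cut T u = ap T (E.G0 S) u :=
    funext fun x => by simp [mulVec, dotProduct, cut, ap]
  have := h.lam.low (c := 1 / 2) h.hE.η0.le
    (fun y hy => by linarith [(abs_le.1 (h.a1 y hy)).1, h.e1]) (E.G0 S *ᵥ cut T u)
  rw [← h.smk.kok.ward1 (X := cr E.H) (G := E.G0 S) (by ext x y; simp [cr, h.hE.symm x y]) h.unit rfl,
    e] at this
  refine le_trans (by linarith) (this.trans ((le_abs_self _).trans_eq ?_))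
  simp [dotProduct, cut, apply_ite star]

theorem lead (hx : x ∈ S.O) : |-(E.Z S x x).im / E.η - E.a0 S x| ≤ e := by
  have η0 := h.hE.η0
  rw [div_sub' η0.ne', abs_div, abs_of_pos η0, div_le_iff₀ η0]
  exact h.lam.dg hx

omit h in
theorem G_eq (x y : Tor d M) : E.G0 S x y = E.Γ0 S x y + al (E.ker S) S.O (om S) x y :=
  (sub_add_cancel _ _).symm

theorem ok : (cvD E S R (q.D E.η 0)).OK k E.η τ (2 * e) := by
  have η0 := h.hE.η0
  have η1 := h.hE.η1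
  have K := h.smk.kok
  have e0 := h.e0
  have τ0 := h.τ0
  have sO : S.omg ⊆ S.O := subset_union_right.trans subset_union_left
  refine ⟨h.inv.go.mono_right sdiff_subset,
    disjoint_union_right.2 ⟨h.inv.gj, h.inv.go.mono_right inter_subset_left⟩,
    disjoint_union_right.2 ⟨h.inv.oj.mono_left sdiff_subset,
      disjoint_sdiff_self_left.mono_right inter_subset_right⟩,
    by ext x y; exact h.hE.symm y x, K.Ww_T _ _, h.unit, fun x hx y e => ?_,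
    fun x => by simp [cvD, Nb, h.R0], fun x y => by
      simpa [cvD, Nb] using ⟨fun a => neg_sub x y ▸ h.Rs _ a, fun a => neg_sub y x ▸ h.Rs _ a⟩,
    h.k0, h.ks, h.k1, fun x y a => h.kZ x y (by simpa [cvD, Nb] using a), fun x hx y hy e a => ?_,
    ?_, fun x hx => ?_, ?_, fun x hx => ?_,
    ?_, η0, by linarith, τ0, ?_, by linarith [h.e1]⟩
  · rw [cvD_O] at hx
    exact (K.Ww_row _ _ hx y).trans (if_neg e.symm)
  · rw [cvD_O] at hy
    exact h.isol hx hy e (mem_filter.1 a).2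
  · rw [cvD_O]
    refine (((OpLe.diag (mul_nonneg e0 η0.le) (a := fun x => ((-(E.Z S x x).im - E.η * E.a0 S x : ℝ) : ℂ))
      fun x hx => by rw [Complex.norm_real]; exact h.lam.dg hx).diff h.lam).mono
      (by linarith)).congr fun x _ y _ => ?_
    by_cases e : x = y <;> simp [e, cvD]
  · exact (norm_sub_le _ _).trans ((add_le_add h.σ1 (h.z1 x (sO (mem_sdiff.1 hx).1))).trans_eq
      (two_mul e).symm)
  · rw [cvD_O]; exact h.wd
  · rw [cvD_O] at hx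
    have a := (Complex.abs_im_le_norm _).trans ((h.inv.amp x hx x hx).trans ((sub_self x).symm ▸ h.H0))
    have c := h.a1 x hx
    rw [PEnv.a0, aP, div_sub_one η0.ne', abs_div, abs_of_pos η0, div_le_iff₀ η0] at c
    change |(E.G0 S x x).im| ≤ _
    rw [G_eq, Complex.add_im, abs_le]
    constructor <;> linarith [abs_le.1 a, abs_le.1 c]
  · refine OpLe.schur (d := fk (exp ((q.P : ℝ) ^ 6)) q.l (q.D E.η 0)) (fun x hx y hy => ?_) η0.le
      (fun x _ => (h.G_sum _ x).trans h.qτ.2) fun y _ => by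
        simp only [fk_symm _ _ _ _ y]; exact (h.G_sum _ y).trans h.qτ.2
    split_ifs with e
    · simpa using fk_nonneg (exp_pos _).le _ _ _ _
    · have := h.sep (mem_sdiff.1 hx).1 (mem_sdiff.1 hy).1 e
      exact h.G_far (sO (mem_sdiff.1 hx).1) (by omega)
  · nlinarith [h.τ3, h.η1]

/-- rows away from the junk are small on the changed sites -/
theorem small (hx : x ∈ S.good ∪ S.omg) (hn : x ∉ nearJ S (q.D E.η 0)) :
    nS ((cvD E S R (q.D E.η 0)).J ∪ (cvD E S R (q.D E.η 0)).Om.erase x) (E.G0 S x) ≤ t := by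
  have t0 := h.tpos
  have xO : x ∈ S.O := mem_union_left _ hx
  have xI : x ∈ S.good ∪ S.omg \ nearJ S (q.D E.η 0) :=
    mem_union.2 ((mem_union.1 hx).imp id fun a => mem_sdiff.2 ⟨a, hn⟩)
  set T := (cvD E S R (q.D E.η 0)).J ∪ (cvD E S R (q.D E.η 0)).Om.erase x
  have a : ∀ y ∈ T ∩ bl x (q.D E.η 0), y ∈ S.omg ∧ x ≠ y := fun y hy => by
    obtain ⟨a, c⟩ := mem_inter.1 hy
    rcases mem_union.1 a with a | a
    · rcases mem_union.1 a with a | a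
      · exact absurd (mem_filter.2 ⟨mem_univ _, y, a, nm_comm x y ▸ mem_bl.1 c⟩) hn
      · exact ⟨(mem_inter.1 a).1, fun e => hn (e ▸ (mem_inter.1 a).2)⟩
    · exact ⟨(mem_sdiff.1 (mem_erase.1 a).2).1, (mem_erase.1 a).1.symm⟩
  have c : #(T ∩ bl x (q.D E.η 0)) ≤ 1 := card_le_one.2 fun y hy z hz => by
    by_contra e
    have := h.sep (a y hy).1 (a z hz).1 e
    have := nm_tri y x z
    have := mem_bl.1 (mem_inter.1 hy).2
    have := mem_bl.1 (mem_inter.1 hz).2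
    have := nm_comm x z
    omega
  have f := sum_le_card_nsmul (T ∩ bl x (q.D E.η 0)) (fun y => ‖E.G0 S x y‖) (t / 2 + τ)
    fun y hy => by
      have yO : y ∈ S.O := mem_union_left _ (mem_union_right _ (a y hy).1)
      rw [G_eq]
      exact (norm_add_le _ _).trans (add_le_add ((h.inv.amp x xO y yO).trans (h.H1 _))
        (h.al_far (h.isol xI yO (a y hy).2)))
  have g := (sum_le_sum fun y hy => h.G_far xO (y := y) (not_le.1 fun n =>
    (mem_sdiff.1 hy).2 (mem_bl.2 (nm_comm x y ▸ n)))).trans (h.G_sum (T \ bl x (q.D E.η 0)) x)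
  refine (nS_le_sum _ _).trans ?_
  rw [← sum_inter_add_sum_sdiff T (bl x (q.D E.η 0))]
  rw [nsmul_eq_mul] at f
  have := mul_le_of_le_one_left (show 0 ≤ t / 2 + τ by linarith [h.τ0]) (Nat.cast_le_one.2 c)
  nlinarith [h.τ1, h.t1, h.qτ.1]

end CvH

end Pool.Agent.P.MP_d0f69c_mp.XS.Pre
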