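import Pool.Agent.P.MP_d0f69c_mp.XS.PCv3

/-!
Conversion to diagonal leads on the torus: the invariant of the main process.
-/

set_option autoImplicit false

open Finset Real Matrix

namespace Pool.Agent.P.MP_d0f69c_mp.XS.Pre

variable {d M : ℕ} [NeZero M]

open Classical in
/-- the good sites that are kept -/
noncomputable def cvT (E : PEnv d M) (S : St (Tor d M)) (D : ℕ) : Finset (Tor d M) :=
  if Cover E.toEnv (S.omg \ nearJ S D) then S.good \ nearJ S D else ∅

/-- the converted state -/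
noncomputable def conv (E : PEnv d M) (S : St (Tor d M)) (R : Finset (Tor d M)) (D : ℕ) :
    St (Tor d M) :=
  ⟨E.H + (cvD E S R D).Zj, (cvD E S R D).W, cvT E S D, S.omg \ nearJ S D,
    S.O \ (cvT E S D ∪ S.omg \ nearJ S D), ∅, ∅, S.ev⟩

/-- the numbers after the conversion -/
noncomputable def bdC (η : ℝ) (q : Par) (b : PB d M) (e t gs : ℝ) : Bd :=
  ⟨b.θ + (10 ^ 5 * e + 1 / 10 ^ 8), 2 * t ^ 2 + b.mis, t ^ 2 / 2, 0, 128 * b.n + t ^ 4, 0, gs,
    q.Bi 1, q.li η 1, false, false⟩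

theorem cvT_sub (E : PEnv d M) (S : St (Tor d M)) (D : ℕ) : cvT E S D ⊆ S.good \ nearJ S D := by
  unfold cvT; split_ifs; exacts [Subset.rfl, empty_subset _]

theorem conv_U (E : PEnv d M) (S : St (Tor d M)) (R : Finset (Tor d M)) (D : ℕ) :
    (conv E S R D).U ⊆ S.U \ nearJ S D :=
  (union_subset_union_left (cvT_sub E S D)).trans (union_sdiff_distrib S.good S.omg _).ge

theorem conv_O (E : PEnv d M) (S : St (Tor d M)) (R : Finset (Tor d M)) (D : ℕ) :
    (conv E S R D).O = S.O :=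
  union_sdiff_of_subset ((conv_U E S R D).trans (sdiff_subset.trans subset_union_left))

theorem real_op {ι : Type} [Fintype ι] {A : Matrix ι ι ℝ} {r : ℝ} (hr : 0 ≤ r)
    (h : OpLe univ (cr A) r) (u : ι → ℝ) : ∑ x, (A *ᵥ u) x ^ 2 ≤ r ^ 2 * ∑ x, u x ^ 2 := by
  have e : ∀ x, ap univ (cr A) (fun y => (u y : ℂ)) x = ((A *ᵥ u) x : ℝ) := fun x => by
    simp [mulVec, dotProduct, cr, ap]
  have := (nS_le_iff (mul_nonneg hr (nS_nonneg _ _))).1 (h fun y => (u y : ℂ))
  simpa only [mul_pow, nS_sq, e, Complex.norm_real, Real.norm_eq_abs, sq_abs] using this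

namespace CvH

variable {E : PEnv d M} {q : Par} {b : PB d M} {S : St (Tor d M)} {R : Finset (Tor d M)}
  {k : Tor d M → Tor d M → ℝ} {τ e t : ℝ} (h : CvH E q b S R k τ e t) {x y : Tor d M}
include h

theorem W_le (hx : x ∈ S.O) : ‖(cvD E S R (q.D E.η 0)).W x‖ ≤ e ∧
    |aw E.η (cvD E S R (q.D E.η 0)).W x - E.a0 S x| ≤ e + 1 / 10 ^ 12 ∧
    |aw E.η (cvD E S R (q.D E.η 0)).W x - 1| ≤ e + 1 / 10 ^ 12 := by
  have a := abs_le.1 (h.a1 x hx)
  have c := abs_le.1 (h.lead hx)
  have f : -E.σ.im / E.η = 1 := by simp [h.σ, h.hE.η0.ne']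
  have e0 := h.e0
  have g := h.z1 x hx
  have w : (cvD E S R (q.D E.η 0)).W x = E.σ ∨ (cvD E S R (q.D E.η 0)).W x = (E.Z S x x).im *
      Complex.I ∨ (cvD E S R (q.D E.η 0)).W x = E.Z S x x := by
    unfold Cv.W; split_ifs; exacts [.inl rfl, .inr (.inl rfl), .inr (.inr rfl)]
  rcases w with w | w | w <;> simp only [aw, w, abs_le]
  · exact ⟨h.σ1, ⟨by linarith, by linarith⟩, by linarith, by linarith⟩
  · refine ⟨by simpa using (Complex.abs_im_le_norm _).trans g, ?_⟩
    rw [Complex.mul_I_im, Complex.ofReal_re]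
    exact ⟨⟨by linarith, by linarith⟩, by linarith, by linarith⟩
  · exact ⟨g, ⟨by linarith, by linarith⟩, by linarith, by linarith⟩

theorem W_off (hx : x ∉ S.O) : (cvD E S R (q.D E.η 0)).W x = sgn (om S x) := by
  rw [← cvD_O E S R (q.D E.η 0)] at hx
  rw [Cv.W, if_neg fun a => hx (Cv.Om_sub a), if_neg fun a => hx (mem_union_right _ a)]
  exact (h.smk.kok.Ww_row _ _ (cvD_O E S R _ ▸ hx) x).trans (if_pos rfl)

theorem W_gd (hx : x ∈ S.good) : (cvD E S R (q.D E.η 0)).W x = E.Z S x x := by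
  rw [Cv.W, if_neg (disjoint_left.1 h.ok.go hx), if_neg (disjoint_left.1 h.ok.gj hx)]
  rfl

theorem op_Y : OpLe univ (cr (1 + (cvD E S R (q.D E.η 0)).Zj)) (1 / E.η) := by
  have e0 := h.e0
  have e1 := h.e1
  set c := cvD E S R (q.D E.η 0)
  have a : OpLe univ c.Δ (3 * (2 * e)) := fun u => by
    have z : ∀ x, ap univ c.Δ u x = ap c.O c.Δ u x := fun x => (sum_subset (subset_univ _)
      fun y _ hy => by rw [h.ok.prt.symD, h.ok.Δ_off hy, zero_mul]).symm
    exact ((nS_congr fun x _ => z x).trans (nS_supp (subset_univ c.O) fun x _ hx =>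
      sum_eq_zero fun y _ => by rw [h.ok.Δ_off hx, zero_mul])).trans_le ((h.ok.op_Δ u).trans
        (mul_le_mul_of_nonneg_left (nS_mono (subset_univ _) _) (by positivity)))
  have w : OpLe univ (fun x y => if x = y then 1 - c.W x else 0) 2 := OpLe.diag zero_le_two
    fun x _ => (norm_sub_le _ _).trans (by
      by_cases n : x ∈ S.O
      · linarith [(h.W_le n).1, norm_one (α := ℂ)]
      · rw [h.W_off n, norm_sgn, norm_one]; norm_num)
  refine (((a.add w).add ((h.smk.wWw S.O (om S)).opLe h.smk.pm)).mono ?_).congr fun x _ y _ => ?_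
  · rw [le_one_div (by positivity) h.hE.η0]
    exact h.hE.η1.trans (one_div_le_one_div_of_le (by positivity) (by linarith))
  · change _ = c.Δ x y + (if x = y then 1 - c.W x else 0) + c.Z x y
    rw [Cv.Δ_eq]
    by_cases n : x = y <;> simp [cr, n]
    ring

theorem phys : Phys E.toEnv (conv E S R (q.D E.η 0)).H (conv E S R (q.D E.η 0)).junk := by
  have η0 := h.hE.η0
  have T : (1 + (cvD E S R (q.D E.η 0)).Zj)ᵀ = 1 + (cvD E S R (q.D E.η 0)).Zj := by
    rw [transpose_add, transpose_one, h.ok.Zj_T]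
  have a : ∀ u : Tor d M → ℝ, ∑ x, ((1 : Matrix (Tor d M) (Tor d M) ℝ) *ᵥ u) x ^ 2 ≤
      (1 / E.η) ^ 2 * ∑ x, u x ^ 2 := fun u => by
      rw [one_mulVec]
      exact le_mul_of_one_le_left (by positivity)
        (one_le_pow₀ (one_le_one_div η0 (h.hE.η1.trans (by norm_num))))
  have b1 : Blk (conv E S R (q.D E.η 0)).junk E.rH (1 / E.η) 1 := ⟨fun x y _ => one_apply,
    fun x y n => by
      obtain rfl : x = y := by_contra fun c => n (one_apply_ne c)
      rw [nm_self]; exact Nat.zero_le _, a, by rw [transpose_one]; exact a⟩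
  have J : (cvD E S R (q.D E.η 0)).J ⊆ (conv E S R (q.D E.η 0)).junk := fun x hx =>
    mem_sdiff.2 ⟨cvD_O E S R _ ▸ mem_union_right _ hx, fun c => disjoint_left.1
      (disjoint_union_left.2 ⟨h.ok.gj, h.ok.oj⟩)
      (union_subset_union_left ((cvT_sub E S _).trans sdiff_subset) c) hx⟩
  refine ⟨1, 1, _, b1, b1, ⟨fun x y n => ?_, fun x y n => ?_, real_op (by positivity) h.op_Y,
    by rw [T]; exact real_op (by positivity) h.op_Y⟩, Matrix.mul_one _, T, by simp [conv]⟩
  · rw [Matrix.add_apply, Cv.Zj, if_neg fun c => n.elim (· (J c.1)) (· (J c.2.1)), add_zero, one_apply]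
  · by_contra c
    refine n ?_
    rw [Matrix.add_apply, Cv.Zj, if_neg fun g => c (h.R1 _ (by simpa [cvD, Nb] using g.2.2)), add_zero,
      one_apply_ne fun g => c (by rw [g, nm_self]; exact Nat.zero_le _)]

theorem ul (θ1 : b.θ ≤ 1) : UL E.p (Kk E.η (cvD E S R (q.D E.η 0)).W (cvD E S R (q.D E.η 0)).G')
    S.O (b.θ + (10 ^ 5 * e + 1 / 10 ^ 8)) := by
  obtain ⟨L, D, a1, a2, a3, a4, a5⟩ := h.maj
  have e0 := h.e0
  have e1 := h.e1
  have η0 := h.hE.η0
  refine ul_chg h.inv.ul fun F => ?_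
  have N0 := NF_nonneg h.hE.ref.p0 F
  have s : √τ ≤ E.η := sqrt_le_iff.2 ⟨η0.le, h.τ3⟩
  have c := h.ok.cm (L := L) (D := D) (by rw [cvD_O]; exact a1) (by rw [cvD_O]; exact a2)
    (by positivity) (by linarith) a3 a4 F N0 (by
      simp only [add_mul, sum_add_distrib]
      linarith [a5 F, h.ke F, mul_nonneg (sq_nonneg e) N0])
  have p := h.ok.prt
  rw [cvD_O] at c p
  exact (p.en F (fun x hx => by constructor <;> linarith [abs_le.1 (h.a1 x hx)])
    (fun x hx => by constructor <;> linarith [abs_le.1 (h.W_le hx).2.2])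
    (fun x hx => (h.W_le hx).2.1) (by positivity) (by positivity) (by linarith)
    ((h.inv.ul.1 F).trans (mul_le_mul_of_nonneg_right (by linarith) N0)) c).trans
    (mul_le_mul_of_nonneg_right (by linarith) N0)

theorem dec' : Dec (cvD E S R (q.D E.η 0)).G' S.O (q.Bi 1) (q.li E.η 1) := by
  have η0 := h.hE.η0
  have e1 := h.e1
  have p := h.ok.prt
  have o := h.ok.op_Δ
  have g := h.ok.GΔ
  rw [cvD_O] at o p g
  refine ct_mat h.hE h.hq (i := 0) (by norm_num) Subset.rfl p.sym (fun x _ y => ?_)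
    ((h.wd.op η0).mono (by gcongr; norm_num)) (by rw [Par.OK.Bi_zero, Par.OK.li_zero]; exact h.dec)
    (o.mono (by linarith)) (fun y hy w => ?_) fun _ u _ => (loc_small g (by linarith) u).trans
      (mul_le_mul_of_nonneg_right ?_ (nS_nonneg _ _))
  · rw [p.id, show (fun w => (cvD E S R (q.D E.η 0)).G' w y) = _ from funext fun w => p.sym' w y]
    rfl
  · by_cases n : y = w
    · subst n
      rw [nm_self]
      exact (h.ok.Δ_dg y).trans (by norm_num; linarith)
    by_cases n' : w ∈ S.O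
    swap
    · rw [p.symD, h.ok.Δ_off (by rwa [cvD_O]), norm_zero]
      positivity
    rw [Par.OK.li_zero, neg_div, h.ok.Δ_ne (by rwa [cvD_O]) (by rwa [cvD_O]) n]
    refine le_trans ?_ (((h.smk.wWw S.O (om S)).entry h.smk.pm y w).trans
      (mul_le_mul_of_nonneg_right (by norm_num) (exp_pos _).le))
    split_ifs
    · simpa [cvD] using Complex.abs_im_le_norm _
    · rw [← norm_neg, neg_sub, neg_mul, sub_neg_eq_add, mul_comm, Complex.re_add_im]; rfl
  · rw [le_div_iff₀ η0]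
    linarith [h.hE.η1, one_le_pow₀ (n := 40) (h.hq.Pone h.hE)]

theorem conv_inv (θ0 : 0 ≤ b.θ) (θ1 : b.θ ≤ 1 / 4) {gs : ℝ}
    (hg : ∑ z, E.gt z ^ 2 ≤ gs) :
    Inv E.toEnv (bdC E.η q b e t gs) (conv E S R (q.D E.η 0)) := by
  have e0 := h.e0
  have e1 := h.e1
  have t0 := h.tpos
  have τ0 := h.τ0
  have o := h.ok
  have t1 := h.t1
  have τ2 := h.τ2
  have τ3 : τ ≤ t / 100 := by nlinarith [h.τ1]
  have sT := cvT_sub E S (q.D E.η 0)
  have sU := conv_U E S R (q.D E.η 0)
  have sG : cvT E S (q.D E.η 0) ⊆ S.good := sT.trans sdiff_subset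
  have sO : S.good ⊆ S.O := subset_union_left.trans subset_union_left
  have sm := fun x (hx : x ∈ (conv E S R (q.D E.η 0)).U) =>
    h.small (mem_sdiff.1 (sU hx)).1 (mem_sdiff.1 (sU hx)).2
  have sI : (conv E S R (q.D E.η 0)).U ⊆ S.good ∪ S.omg \ nearJ S (q.D E.η 0) :=
    union_subset_union_left sG
  have sI' : S.good ∪ S.omg \ nearJ S (q.D E.η 0) ⊆ S.O :=
    (Cv.I_sub (c := cvD E S R _)).trans (cvD_O E S R _).le
  refine ⟨o.go.mono_left sG, disjoint_sdiff.mono_left subset_union_left,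
    disjoint_sdiff.mono_left subset_union_right, h.inv.oΩ ▸ sdiff_subset,
    h.inv.oΩ ▸ h.inv.go.mono_left sG, h.phys, fun x hx => ?_, fun x hx => ?_, fun x hx => if_pos hx,
    fun x hx => ?_, fun x hx y hy n => ?_, fun c => by simp [bdC] at c, fun x hx => ?_,
    fun c => by simp [bdC] at c, ?_, ?_, fun y hy => le_trans ?_ hg, ?_, ?_⟩
  · have := h.W_le (conv_O E S R _ ▸ hx)
    exact ⟨this.1.trans (by simp only [bdC]; linarith), this.2.2.trans (by simp only [bdC]; linarith)⟩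
  · have := h.W_off (conv_O E S R _ ▸ hx)
    change (cvD E S R (q.D E.η 0)).W x = 1 ∨ (cvD E S R (q.D E.η 0)).W x = -1 ∨ _
    cases g : om S x <;> simp [this, g, sgn]
  · have a := o.mis (sG hx) (sm x (mem_union_left _ hx)) τ2 h.τ1 (by linarith)
    change ‖(cvD E S R (q.D E.η 0)).G' x x - phi ((cvD E S R (q.D E.η 0)).W x)‖ ≤ _
    rw [h.W_gd (sG hx)]
    refine (norm_sub_le_norm_sub_add_norm_sub _ (E.G0 S x x) _).trans ((add_le_add a
      ((norm_sub_le_norm_sub_add_norm_sub _ _ _).trans (add_le_add (h.inv.mis x (sG hx))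
        (h.aφ x (sG hx))))).trans_eq (by simp only [bdC]; ring))
  · have xO := sI' (sI hx)
    have a := (le_nS _ (cvD_O E S R _ ▸ xO)).trans (o.rowG (sG hy) (sm y (mem_union_left _ hy)) τ2)
    have f := (norm_add_le _ _).trans (add_le_add ((h.inv.amp x xO y (sO (sG hy))).trans (h.H1 _))
      (h.al_far (h.isol (sI hx) (sO (sG hy)) n)))
    rw [Pi.sub_apply, o.prt.sym', o.prt.sym] at a
    rw [← G_eq] at f
    have g := (norm_le_norm_add_norm_sub' _ _).trans (add_le_add f a)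
    exact (pow_le_pow_left₀ (norm_nonneg _) (g.trans (show _ ≤ 61 / 100 * t by linarith)) 2).trans
      (by simp only [bdC]; nlinarith)
  · refine (o.four (sI hx) (sm x hx) τ2 (Γ := E.Γ0 S x) (S := (cvT E S (q.D E.η 0)).erase x)
      (cvD_O E S R _ ▸ (erase_subset _ _).trans (sG.trans sO)) ?_).trans ?_
    · refine (nS_le_sum _ _).trans ((sum_le_sum fun y hy => ?_).trans
        ((h.ksum _ x).trans (by linarith)))
      exact (congrArg _ (sub_sub_cancel _ _)).trans_le
        (h.ka _ _ (h.isol (sI hx) (sO (sG (mem_erase.1 hy).2)) (mem_erase.1 hy).1.symm))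
    · have := (sum_le_sum_of_subset_of_nonneg ((erase_subset x _).trans sG) fun _ _ _ =>
        by positivity).trans (h.inv.l4 x (sI' (sI hx)))
      simp only [bdC]
      linarith
  · rw [conv_O]; exact h.ul (by linarith)
  · refine (o.prt.disc (cvD_O E S R _ ▸ sG.trans sO)
      (fun x hx => o.row (cvD_O E S R _ ▸ sO (sG hx))) e0 (fun x hx => ?_) θ0 θ1 (by linarith)
      (h.inv.rr.compress θ0 (by linarith) sG)).mono (by simp only [bdC]; linarith)
    have a := (h.W_le (sO (sG hx))).1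
    exact (inv_sq_le (a.trans (by linarith))).trans (by
      nlinarith [pow_le_pow_left₀ (norm_nonneg _) a 2])
  · exact (sum_le_univ_sum_of_nonneg fun _ => sq_nonneg _).trans_eq
      ((Equiv.subLeft y).sum_comp fun z => E.gt z ^ 2)
  · rw [conv_O]; exact h.dec'
  · change cvT E S _ = ∅ ∨ Cover E.toEnv (S.omg \ _)
    unfold cvT
    split_ifs with c
    exacts [Or.inr c, Or.inl rfl]

theorem conv_cons {ϖ : Cfg (Tor d M) E.N} (hc : PCons S ϖ) :
    Cons E.toEnv (conv E S R (q.D E.η 0)) ϖ := fun x hx => by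
  rw [conv_O] at hx
  refine (h.W_off hx).trans ?_
  rw [hc x hx, Wt, if_neg fun a => hx (mem_union_left _ (mem_union_right _ (h.inv.oΩ ▸ a))), sgn]

end CvH

end Pool.Agent.P.MP_d0f69c_mp.XS.Pre
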