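import Pool.Agent.P.MP_d0f69c_mp.XS.PIfF

/-!
Consequences of the facts about a state of the preparatory flow.
-/

set_option autoImplicit false
set_option linter.dupNamespace false
set_option linter.unusedSectionVars false

open Finset Real

namespace Pool.Agent.P.MP_d0f69c_mp.XS.Pre

namespace PDA

variable {ι : Type} [Fintype ι] [DecidableEq ι]

theorem hn_no {D : ι → ℝ} (hD : ∀ u, 0 ≤ D u) : HN (no D) where
  nn := no_nonneg D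
  add := no_add hD
  smul c φ := by
    rw [no_eq hD, no_eq hD, ← nS_smul]
    exact nS_congr fun u _ => by simp only [Pi.smul_apply, smul_eq_mul]; ring
  op S A r φ h := by
    simp only [no_sq hD, mul_sum]
    rw [sum_comm, sum_comm (s := S)]
    refine sum_le_sum fun u _ => ?_
    have h1 := pow_le_pow_left₀ (nS_nonneg _ _) (h fun y => φ y u) 2
    rw [mul_pow, nS_sq, nS_sq] at h1
    have h2 := mul_le_mul_of_nonneg_left h1 (hD u)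
    simp only [mul_sum] at h2
    refine le_of_eq_of_le ?_ (h2.trans_eq ?_)
    · exact sum_congr rfl fun x _ => by simp [ap, Finset.sum_apply]
    · exact sum_congr rfl fun x _ => by ring

theorem hn_sum {N : (ι → ℂ) → ℝ} (h : HN N) (S : Finset ι) (c : ι → ℂ) (φ : ι → ι → ℂ) :
    N (∑ y ∈ S, c y • φ y) ≤ ∑ y ∈ S, ‖c y‖ * N (φ y) := by
  induction S using Finset.induction_on with
  | empty => simpa using (h.smul 0 0).le
  | insert a S ha ih =>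
    rw [sum_insert ha, sum_insert ha]
    refine (h.add _ _).trans ?_
    rw [h.smul]
    linarith

theorem hn_sub {N : (ι → ℂ) → ℝ} (h : HN N) (φ ψ : ι → ℂ) : N (φ - ψ) ≤ N φ + N ψ := by
  have h1 := h.add φ ((-1 : ℂ) • ψ)
  rw [h.smul] at h1
  simpa [sub_eq_add_neg] using h1

theorem col_le {R O : Finset ι} {w : ι → ι → ℝ} {f : ι → ℝ} {c : ℝ}
    (h0 : ∀ v ∈ R, ∀ u ∉ O, w v u = 0) (hc : ∀ u, ∑ v ∈ R, w v u ≤ c) (hf : ∀ u, 0 ≤ f u) :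
    ∑ v ∈ R, ∑ u, w v u * f u ≤ c * ∑ u ∈ O, f u := by
  rw [sum_comm, mul_sum, ← sum_subset (subset_univ O) fun u _ hu =>
    sum_eq_zero fun v hv => by rw [h0 v hv u hu, zero_mul]]
  refine sum_le_sum fun u _ => ?_
  rw [← sum_mul]
  exact mul_le_mul_of_nonneg_right (hc u) (hf u)

theorem row_le {S O : Finset ι} {w : ι → ℝ} {f : ι → ι → ℝ} {c M : ℝ} (hw : ∀ u, 0 ≤ w u)
    (h0 : ∀ u ∉ O, w u = 0) (hc : ∑ u, w u ≤ c) (hM : 0 ≤ M)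
    (hf : ∀ u ∈ O, ∑ z ∈ S, f z u ≤ M) : ∑ z ∈ S, ∑ u, w u * f z u ≤ c * M := by
  rw [sum_comm]
  refine le_trans (sum_le_sum fun u _ => ?_)
    ((sum_mul univ w M).symm.trans_le (mul_le_mul_of_nonneg_right hc hM))
  rw [← mul_sum]
  by_cases hu : u ∈ O
  · exact mul_le_mul_of_nonneg_left (hf u hu) (hw u)
  · simp [h0 u hu]

theorem no_four {D : ι → ℝ} (hD : ∀ u, 0 ≤ D u) {c : ℝ} (hc : ∑ u, D u ≤ c) (φ : ι → ℂ) :
    no D φ ^ 4 ≤ c * ∑ u, D u * ‖φ u‖ ^ 4 := by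
  have h1 : no D φ ^ 4 = (∑ u, D u * ‖φ u‖ ^ 2) ^ 2 := by rw [← no_sq hD]; ring
  have h2 := sum_sq_le_sum_mul_sum_of_sq_le_mul univ (r := fun u => D u * ‖φ u‖ ^ 2) (f := D)
    (g := fun u => D u * ‖φ u‖ ^ 4) (fun u _ => hD u)
    (fun u _ => mul_nonneg (hD u) (by positivity)) (fun u _ => le_of_eq (by ring))
  rw [h1]
  exact h2.trans (mul_le_mul_of_nonneg_right hc
    (sum_nonneg fun u _ => mul_nonneg (hD u) (by positivity)))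

/-- the weights of the crude seminorm -/
noncomputable def Dh (τ : Au ι) (v u : ι) : ℝ := τ.D v u + if u = v then 51 / 50 else 0

theorem Nh_eq (τ : Au ι) (v : ι) : τ.Nh v = no (Dh τ v) := rfl

variable {q : Nq} {σ : Co ι} {τ : Au ι} (ok : q.OK) (F : Fy q σ τ)

section
include F

theorem Dh0 (v u : ι) : 0 ≤ Dh τ v u := add_nonneg (F.D0 v u) (by split_ifs <;> norm_num)

theorem rO {v : ι} (hv : v ∈ σ.rem) : v ∈ σ.Op := F.RO (F.rR hv)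

theorem DhO {v : ι} (hv : v ∈ σ.rem) (u : ι) (hu : u ∉ σ.Op) : Dh τ v u = 0 := by
  have : u ≠ v := fun e => hu (e ▸ rO F hv)
  simp [Dh, F.DO v u hu, this]

theorem sq (v : ι) (φ : ι → ℂ) : τ.Nh v φ ^ 2 = 51 / 50 * ‖φ v‖ ^ 2 + no (τ.D v) φ ^ 2 := by
  rw [Nh_eq, no_sq (Dh0 F v), no_sq (F.D0 v), add_comm]
  simp [Dh, add_mul, sum_add_distrib]

theorem kr (u : ι) : 0 ≤ σ.kr u ∧ σ.kr u ≤ 1 :=
  ⟨sum_nonneg fun v _ => F.K0 u v,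
    (sum_le_sum_of_subset_of_nonneg (subset_univ _) fun v _ _ => F.K0 u v).trans (F.K1 u)⟩

theorem K_le (x y : ι) : σ.Kk x y ≤ 1 :=
  (single_le_sum (fun v _ => F.K0 x v) (mem_univ y)).trans (F.K1 x)

theorem K_sq (x y : ι) : σ.Kk x y ^ 2 ≤ σ.Kk x y := by nlinarith [F.K0 x y, K_le F x y]

theorem sΓ (x y : ι) : σ.Γ x y = σ.Γ y x := by rw [Co.Γ, Co.Γ, F.sG, F.sa]

end

theorem κ_sq (ok : q.OK) : q.κ ^ 2 ≤ q.ε ^ 2 := pow_le_pow_left₀ ok.κ0 ok.κ1 2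

theorem ε_sq (ok : q.OK) : q.ε ^ 2 ≤ 1 / 10 ^ 20 := by nlinarith [ok.ε0, ok.ε1]

include ok F

theorem Dr (v : ι) (hv : v ∈ σ.rem) : ∑ u, τ.D v u ≤ 3 * q.ε ^ 2 := by
  refine (sum_le_sum fun u _ => F.D1 v hv u).trans ?_
  rw [sum_add_distrib, ← mul_sum, sum_add_distrib, sum_ite_eq', if_pos (mem_univ v)]
  nlinarith [F.K1 v, F.E1 v hv, ok.ν2, κ_sq ok, sq_nonneg q.κ]

theorem ind_le (u : ι) (c : ℝ) (hc : 0 ≤ c) : ∑ v ∈ σ.rem, (if u = v then c else 0) ≤ c := by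
  rw [sum_ite_eq]; split_ifs <;> simp [hc]

theorem Dc (u : ι) : ∑ v ∈ σ.rem, τ.D v u ≤ 3 * q.ε ^ 2 := by
  refine (sum_le_sum fun v hv => F.D1 v hv u).trans ?_
  rw [sum_add_distrib, ← mul_sum, sum_add_distrib]
  have h1 : ∑ v ∈ σ.rem, σ.Kk v u ≤ 1 := by
    rw [sum_congr rfl fun v _ => F.sK v u]; exact (kr F u).2
  nlinarith [ind_le ok F u 1 zero_le_one, F.E2 u, ok.ν2, κ_sq ok, sq_nonneg q.κ]

theorem Dhr (v : ι) (hv : v ∈ σ.rem) : ∑ u, Dh τ v u ≤ 103 / 100 := by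
  simp only [Dh, sum_add_distrib, sum_ite_eq', if_pos (mem_univ v)]
  linarith [Dr ok F v hv, ε_sq ok]

theorem Dhc (u : ι) : ∑ v ∈ σ.rem, Dh τ v u ≤ 103 / 100 := by
  simp only [Dh, sum_add_distrib]
  linarith [Dc ok F u, ε_sq ok, ind_le ok F u (51 / 50) (by norm_num)]

theorem sv (φ : ι → ℂ) : ∑ v ∈ σ.rem, τ.Nh v φ ^ 2 ≤ 21 / 20 * ∑ u ∈ σ.Op, ‖φ u‖ ^ 2 := by
  simp only [Nh_eq, no_sq (Dh0 F _)]
  exact col_le (fun v hv => DhO F hv) (fun u => (Dhc ok F u).trans (by norm_num))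
    fun u => sq_nonneg _

omit ok in
theorem colO (u : ι) (hu : u ∈ σ.Op) : ∑ z ∈ σ.Op, ‖σ.G z u‖ ^ 2 ≤ 11 / 10 := by
  rw [sum_congr rfl fun z _ => by rw [F.sG z u]]; exact F.row u hu

omit ok in
theorem colX (u : ι) (hu : u ∈ σ.Op) : ∑ z ∈ σ.X, ‖σ.G z u‖ ^ 2 ≤ 2000 := by
  rw [sum_congr rfl fun z _ => by rw [F.sG z u]]; exact F.dd u hu

theorem cO (v : ι) (hv : v ∈ σ.rem) : ∑ z ∈ σ.Op, no (τ.D v) (σ.G z) ^ 2 ≤ 4 * q.ε ^ 2 := by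
  simp only [no_sq (F.D0 v)]
  refine (row_le (F.D0 v) (F.DO v) (Dr ok F v hv) (by norm_num) (colO F)).trans ?_
  nlinarith [sq_nonneg q.ε]

theorem cX (v : ι) (hv : v ∈ σ.rem) : ∑ z ∈ σ.X, no (τ.D v) (σ.G z) ^ 2 ≤ 10 ^ 4 * q.ε ^ 2 := by
  simp only [no_sq (F.D0 v)]
  refine (row_le (F.D0 v) (F.DO v) (Dr ok F v hv) (by norm_num) (colX F)).trans ?_
  nlinarith [sq_nonneg q.ε]

theorem nO (v : ι) (hv : v ∈ σ.rem) : ∑ z ∈ σ.Op, τ.Nh v (σ.G z) ^ 2 ≤ 6 / 5 := by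
  simp only [Nh_eq, no_sq (Dh0 F v)]
  exact (row_le (Dh0 F v) (DhO F hv) (Dhr ok F v hv) (by norm_num) (colO F)).trans (by norm_num)

theorem nX (v : ι) (hv : v ∈ σ.rem) : ∑ z ∈ σ.X, τ.Nh v (σ.G z) ^ 2 ≤ 2100 := by
  simp only [Nh_eq, no_sq (Dh0 F v)]
  exact (row_le (Dh0 F v) (DhO F hv) (Dhr ok F v hv) (by norm_num) (colX F)).trans (by norm_num)

theorem cO1 {v x : ι} (hv : v ∈ σ.rem) (hx : x ∈ σ.Op) : no (τ.D v) (σ.G x) ^ 2 ≤ 4 * q.ε ^ 2 :=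
  (single_le_sum (f := fun z => no (τ.D v) (σ.G z) ^ 2) (fun _ _ => sq_nonneg _) hx).trans
    (cO ok F v hv)

theorem vv (v : ι) (hv : v ∈ σ.rem) : τ.Nh v (σ.G v) ≤ 1 / 10 ^ 5 := by
  refine le_of_sq_le_sq ?_ (by norm_num)
  rw [sq F]
  nlinarith [cO1 ok F hv (rO F hv), ε_sq ok, pow_le_pow_left₀ (norm_nonneg _) (F.dg v hv) 2]

theorem us (v : ι) (hv : v ∈ σ.rem) (x : ι) : τ.μ x v ≤ q.ε :=
  le_of_sq_le_sq (((single_le_sum (f := fun x => τ.μ x v ^ 2) (fun _ _ => sq_nonneg _)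
    (mem_univ x)).trans (F.u2 v hv)).trans ok.ν2) ok.ε0.le

theorem gs (v : ι) (hv : v ∈ σ.rem) (x : ι) (hx : x ∈ σ.Op.erase v) :
    ‖σ.G x v‖ ≤ 3 * q.ε ∧ τ.Nh v (σ.G x) ≤ 4 * q.ε := by
  obtain ⟨hxv, hx⟩ := mem_erase.1 hx
  have h1 : ‖σ.G x v‖ ≤ 3 * q.ε := by
    have a1 := (F.hn v hv).add (σ.al x - τ.Pn v x) (τ.Pn v x)
    rw [sub_add_cancel] at a1
    have a2 := norm_add_le (σ.Γ x v) (σ.al x v)
    rw [Co.Γ, sub_add_cancel, ← Co.Γ] at a2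
    have a3 := mul_le_mul ok.κ1 (K_le F x v) (F.K0 x v) ok.ε0.le
    linarith [F.n1 v hv (σ.al x), F.p1 v hv x (mem_union_left _ hx) hxv,
      F.p2 v hv x (mem_union_left _ hx) hxv, us ok F v hv x,
      F.sup x hx v (rO F hv), ok.g1]
  refine ⟨h1, le_of_sq_le_sq ?_ (by linarith [ok.ε0])⟩
  rw [sq F]
  nlinarith [cO1 ok F hv hx, pow_le_pow_left₀ (norm_nonneg _) h1 2, sq_nonneg q.ε]

theorem Γ1 (v : ι) (hv : v ∈ σ.rem) (x : ι) (hx : x ∈ σ.Op) : τ.Nh v (σ.Γ x) ≤ 2 * q.γ := by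
  refine no_le (by linarith [ok.g0]) ?_
  have := row_le (S := {x}) (f := fun z u => ‖σ.Γ z u‖ ^ 2) (Dh0 F v) (DhO F hv) (Dhr ok F v hv)
    (sq_nonneg q.γ) fun u hu => by
      rw [sum_singleton]; exact pow_le_pow_left₀ (norm_nonneg _) (F.sup x hx u hu) 2
  rw [sum_singleton] at this
  exact this.trans (by nlinarith [sq_nonneg q.γ])

theorem Γ2 (v : ι) (hv : v ∈ σ.rem) : ∑ y ∈ σ.Op, τ.Nh v (σ.Γ y) ^ 4 ≤ 3 * q.nJ := by
  have h0 : 0 ≤ q.nJ := ok.n0.le.trans ok.n1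
  refine (sum_le_sum fun y _ => no_four (Dh0 F v) (Dhr ok F v hv) (σ.Γ y)).trans ?_
  rw [← mul_sum]
  have := row_le (S := σ.Op) (f := fun z u => ‖σ.Γ z u‖ ^ 4) (Dh0 F v) (DhO F hv) (Dhr ok F v hv)
    (M := 2 * q.nJ) (by linarith) fun u hu => by
      rw [sum_congr rfl fun z _ => by rw [sΓ F z u]]; exact F.k4 u hu
  linarith

theorem Γ3 (y : ι) (hy : y ∈ σ.Op) : ∑ v ∈ σ.rem, τ.Nh v (σ.Γ y) ^ 4 ≤ 3 * q.nJ := by
  have h0 : 0 ≤ q.nJ := ok.n0.le.trans ok.n1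
  refine (sum_le_sum fun v hv => no_four (Dh0 F v) (Dhr ok F v hv) (σ.Γ y)).trans ?_
  rw [← mul_sum]
  have := col_le (f := fun u => ‖σ.Γ y u‖ ^ 4) (fun v hv => DhO F hv) (Dhc ok F)
    fun u => by positivity
  linarith [F.k4 y hy]

omit F in
theorem νγ : q.ν * q.γ ^ 2 ≤ (q.m1 / 10) ^ 2 := by
  have hP : 1 ≤ q.P := le_trans (by norm_num) ok.P9
  have h1 : q.ν * q.γ ^ 2 ≤ q.n := (le_mul_of_one_le_right (mul_nonneg ok.ν0 (sq_nonneg _))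
    (one_le_pow₀ hP)).trans ok.g3
  have h2 : 100 ≤ q.P ^ 21 := le_trans (le_trans (by norm_num) ok.P9) (le_self_pow₀ hP (by norm_num))
  have h3 := mul_le_mul_of_nonneg_right h2 (ok.n0.le.trans ok.n1)
  nlinarith [ok.m1, ok.n1]

theorem Γ4 (v : ι) (hv : v ∈ σ.rem) (x : ι) (hx : x ∈ σ.Rw) (y : ι) (hy : y ∈ σ.Rw)
    (hK : σ.Kk y v ≠ 0) : τ.Nh v (σ.Γ x) ≤ 11 / 10 * σ.H x y + q.m1 / 10 := by
  have H0 := F.H0 x y
  have m0 := ok.m0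
  refine no_le (by positivity) ?_
  have h1 : ∀ u, Dh τ v u * ‖σ.Γ x u‖ ^ 2 ≤ (q.κ ^ 2 * (σ.Kk v u + if u = v then 1 else 0) +
      if u = v then 51 / 50 else 0) * σ.H x y ^ 2 + τ.D2 v u * q.γ ^ 2 := fun u => by
    have a0 : 0 ≤ q.κ ^ 2 * (σ.Kk v u + if u = v then 1 else 0) + if u = v then 51 / 50 else 0 := by
      have := F.K0 v u
      split_ifs <;> positivity
    have a1 := F.E0 v u
    by_cases hu : u ∈ σ.Op
    · have a2 := mul_le_mul_of_nonneg_left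
        (pow_le_pow_left₀ (norm_nonneg _) (F.sup x (F.RO hx) u hu) 2) a1
      have a3 := mul_le_mul_of_nonneg_right (F.D1 v hv u) (sq_nonneg ‖σ.Γ x u‖)
      by_cases hc : u = v ∨ σ.Kk v u ≠ 0
      · have a4 := mul_le_mul_of_nonneg_left
          (pow_le_pow_left₀ (norm_nonneg _) (F.lev v hv x hx y hy u hu hK hc) 2) a0
        rw [Dh]
        linarith
      · rw [not_or, not_not] at hc
        simp only [Dh, hc.1, hc.2, if_false] at a3 ⊢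
        linarith
    · rw [DhO F hv u hu, zero_mul]
      positivity
  refine (sum_le_sum fun u _ => h1 u).trans ?_
  rw [sum_add_distrib, ← sum_mul, ← sum_mul, sum_add_distrib, ← mul_sum, sum_add_distrib,
    sum_ite_eq', sum_ite_eq', if_pos (mem_univ v), if_pos (mem_univ v)]
  have b1 : q.κ ^ 2 * (∑ u, σ.Kk v u + 1) + 51 / 50 ≤ 121 / 100 := by
    nlinarith [F.K1 v, κ_sq ok, ε_sq ok, sq_nonneg q.κ]
  have b2 := mul_le_mul_of_nonneg_right b1 (sq_nonneg (σ.H x y))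
  have b3 := mul_le_mul_of_nonneg_right (F.E1 v hv) (sq_nonneg q.γ)
  nlinarith [νγ ok, mul_nonneg H0 m0.le]

end PDA

end Pool.Agent.P.MP_d0f69c_mp.XS.Pre
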