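import Pool.Agent.P.MP_d0f69c_mp.XS.PF5A0

/-!
The increment of the form in one step: the main term and the sum.
-/

set_option autoImplicit false

open Finset Real
open scoped Matrix

namespace Pool.Agent.P.MP_d0f69c_mp.XS.Pre.P5A

variable {ι : Type} [Fintype ι] [DecidableEq ι] {q : Nq} {σ : Co ι} {τ : Au ι} {v : ι}

section

variable (hq : q.OK) (h : Fy q σ τ) (z : Fz q σ τ) (hv : v ∈ σ.rem) (φ : ι → ℝ)

include hq h z hv in
/-- the change of one conductance -/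
theorem point (b : Bool) {t : ℝ} (ht : t = 1 ∨ t = -1) {x y : ι} (hx : x ∈ σ.Sv v) (hy : y ∈ σ.Sv v) :
    t * ((σ.step τ v b).Kw (t * (10 ^ 5 * q.ε)) x y - σ.Kw (t * (10 ^ 5 * q.ε)) x y) ≤
      t * σ.k5 τ (t * (10 ^ 5 * q.ε)) v b x y + t * nk σ τ (t * (10 ^ 5 * q.ε)) v b x y -
      49 * q.ε * ((σ.Kk x v + σ.Kk y v) * ‖σ.G x y‖ ^ 2) +
      t * ‖τ.β v‖ ^ 2 * ((σ.step τ v b).w (t * (10 ^ 5 * q.ε)) x * ‖σ.G x v‖ ^ 2 *
        ((σ.step τ v b).w (t * (10 ^ 5 * q.ε)) y * ‖σ.G y v‖ ^ 2)) +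
      3 * (‖σ.G x v‖ * no (τ.D v) (σ.G x) * (‖σ.G y v‖ * no (τ.D v) (σ.G y))) +
      3 * (no (τ.D v) (σ.G x) ^ 2 * no (τ.D v) (σ.G y) ^ 2) +
      4 * q.hb * (τ.Nh v (σ.G x) ^ 2 * τ.Nh v (σ.G y) ^ 2) := by
  have e0 := hq.ε0
  have t2 : t * t = 1 := by rcases ht with e | e <;> simp [e]
  have t1 : |t| = 1 := by rcases ht with e | e <;> simp [e]
  have hs : |t * (10 ^ 5 * q.ε)| ≤ 1 / 10 ^ 7 := by
    rw [abs_mul, t1, one_mul, abs_of_pos (by positivity)]; linarith [hq.ε1]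
  set s := t * (10 ^ 5 * q.ε) with hs'
  obtain ⟨a1, a2⟩ := w_bd' h z hv b hs hx
  obtain ⟨a3, a4⟩ := w_bd' h z hv b hs hy
  have a5 := (w_bd h z hs (SO hx).1).1
  have a6 := (abs_le.1 (h.a1 x (SO hx).1)).1
  have a7 := (abs_le.1 (h.a1 y (SO hy).1)).1
  have w1 := w_step (τ := τ) hv b s (SO hx).2
  have w2 := w_step (τ := τ) hv b s (SO hy).2
  set c := bf (τ.T v b) (σ.G x) (σ.G y) with hc
  have c1 : c = sgn b * bf (τ.B v) (σ.G x) (σ.G y) - bf (τ.R v b) (σ.G x) (σ.G y) := by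
    rw [hc, Au.T, bf_sub, bf_smul]
  have e1 : (σ.step τ v b).Kw s x y = (σ.step τ v b).w s x * (σ.step τ v b).w s y * ‖σ.G x y‖ ^ 2 +
      σ.k5 τ s v b x y + nk σ τ s v b x y + (σ.step τ v b).w s x * (σ.step τ v b).w s y * ‖c‖ ^ 2 := by
    have : ‖σ.G x y - c‖ ^ 2 = ‖σ.G x y‖ ^ 2 - 2 * ((starRingEnd ℂ) (σ.G x y) * c).re + ‖c‖ ^ 2 := by
      simp only [Complex.sq_norm, Complex.normSq_apply, Complex.mul_re, Complex.conj_re,
        Complex.conj_im, Complex.sub_re, Complex.sub_im]; ring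
    rw [Co.Kw, show (σ.step τ v b).G x y = σ.G x y - c from rfl, this, Co.k5, nk, c1]
    simp only [mul_sub, Complex.sub_re]; ring
  have e2 : t * (((σ.step τ v b).w s x * (σ.step τ v b).w s y - σ.w s x * σ.w s y)) ≤
      -(49 * q.ε * (σ.Kk x v + σ.Kk y v)) := by
    have : t * (((σ.step τ v b).w s x * (σ.step τ v b).w s y - σ.w s x * σ.w s y)) =
        -(50 * (q.ε * σ.Kk x v * (σ.a x * (σ.step τ v b).w s y) +
          q.ε * σ.Kk y v * (σ.a y * σ.w s x))) := by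
      rw [w1, show σ.w s y = (σ.step τ v b).w s y + s * σ.a y * σ.Kk y v / 2000 by rw [w2]; ring, hs']
      linear_combination -(50 * (q.ε * σ.Kk x v * (σ.a x * (σ.step τ v b).w s y) +
          q.ε * σ.Kk y v * (σ.a y * σ.w s x))) * t2
    have b1 : 49 / 50 ≤ σ.a x * (σ.step τ v b).w s y := by nlinarith
    have b2 : 49 / 50 ≤ σ.a y * σ.w s x := by nlinarith
    rw [this]
    linarith [mul_le_mul_of_nonneg_left b1 (mul_nonneg e0.le (h.K0 x v)),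
      mul_le_mul_of_nonneg_left b2 (mul_nonneg e0.le (h.K0 y v))]
  have g1 : ∀ u, ‖σ.G u v‖ ≤ τ.Nh v (σ.G u) := fun u => (h.n1 v hv _).trans (h.n2 v hv _)
  have β1 : ‖τ.β v‖ ≤ 1001 / 1000 := by
    have := norm_le_insert' (τ.β v) 1
    rw [norm_one] at this
    linarith [h.b2 v hv, hq.ε1]
  have hb1 : q.hb ≤ 1 / 10 := hq.h2.trans (by nlinarith [hq.ε1, hq.η1, hq.η0])
  set P := no (τ.D v) (σ.G x) * no (τ.D v) (σ.G y) with hP
  set N := τ.Nh v (σ.G x) * τ.Nh v (σ.G y) with hN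
  set g := ‖σ.G x v‖ * ‖σ.G y v‖ with hg
  have g0 : 0 ≤ g := by positivity
  have g2 : g ≤ N := mul_le_mul (g1 x) (g1 y) (norm_nonneg _) ((z.hh v).nn _)
  have P0 : 0 ≤ P := mul_nonneg (no_nonneg _ _) (no_nonneg _ _)
  have c2 : |‖c‖ - ‖τ.β v‖ * g| ≤ P + q.hb * N := by
    rw [show ‖τ.β v‖ * g = ‖sgn b * (τ.β v * (σ.G x v * σ.G y v))‖ by
      rw [norm_mul, norm_sgn, one_mul, norm_mul, norm_mul]]
    refine (abs_norm_sub_norm_le _ _).trans ?_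
    rw [c1, sub_right_comm, ← mul_sub]
    refine (norm_sub_le _ _).trans (add_le_add ?_ ((h.r1 v hv b _ _).trans_eq (mul_assoc _ _ _)))
    rw [norm_mul, norm_sgn, one_mul]
    exact h.b1 v hv _ _
  have c3 : |‖c‖ ^ 2 - (‖τ.β v‖ * g) ^ 2| ≤ 5 / 2 * (g * P) + 5 / 2 * P ^ 2 + 3 * q.hb * N ^ 2 := by
    have b1 := mul_le_mul_of_nonneg_right β1 g0
    have b2 : ‖c‖ + ‖τ.β v‖ * g ≤ 2 * (1001 / 1000 * g) + (P + q.hb * N) := by
      linarith [(abs_le.1 c2).2]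
    have b3 := mul_nonneg hq.h0 (g0.trans g2)
    rw [sq_sub_sq, abs_mul, abs_of_nonneg (by positivity)]
    refine (mul_le_mul b2 c2 (abs_nonneg _) (by positivity)).trans ?_
    nlinarith [mul_le_mul_of_nonneg_left g2 b3, sq_nonneg (P - q.hb * N), mul_nonneg g0 P0,
      mul_le_mul_of_nonneg_right hb1 (mul_nonneg b3 (g0.trans g2)), sq_nonneg P]
  have c4 : t * (‖c‖ ^ 2 - (‖τ.β v‖ * g) ^ 2) ≤
      5 / 2 * (g * P) + 5 / 2 * P ^ 2 + 3 * q.hb * N ^ 2 :=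
    (le_abs_self _).trans ((abs_mul _ _).trans_le (by rw [t1, one_mul]; exact c3))
  have c5 := mul_le_mul_of_nonneg_left c4 (mul_nonneg (by linarith : 0 ≤ (σ.step τ v b).w s x)
    (by linarith : 0 ≤ (σ.step τ v b).w s y))
  have c6 := mul_le_mul_of_nonneg_right (mul_le_mul a2 a4 (by linarith) (by norm_num))
    ((abs_nonneg _).trans c3)
  have c7 := mul_le_mul_of_nonneg_right e2 (sq_nonneg ‖σ.G x y‖)
  have c8 := mul_nonneg hq.h0 (sq_nonneg N)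
  rw [e1, Co.Kw, ← mul_pow, ← mul_pow, ← hP, ← hN, mul_mul_mul_comm ‖σ.G x v‖, ← hP, ← hg,
    mul_mul_mul_comm ((σ.step τ v b).w s x), ← mul_pow, ← hg]
  linarith [mul_nonneg g0 P0, sq_nonneg P]

include hq h z hv in
/-- the surcharge beats the error of the degree -/
theorem deg_le (b : Bool) {t : ℝ} (ht : t = 1 ∨ t = -1) :
    t * (‖τ.β v‖ ^ 2 * ∑ x ∈ σ.Sv v, (σ.step τ v b).w (t * (10 ^ 5 * q.ε)) x * ‖σ.G x v‖ ^ 2 -
      σ.w (t * (10 ^ 5 * q.ε)) v) ≤ -(460 * q.ε) := by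
  have e0 := hq.ε0
  have t2 : t * t = 1 := by rcases ht with e | e <;> simp [e]
  have t1 : |t| = 1 := by rcases ht with e | e <;> simp [e]
  set A := ∑ x ∈ σ.Sv v, σ.a x * (σ.ir x + (σ.kr x - σ.Kk x v) / 2000) * ‖σ.G x v‖ ^ 2 with hA
  have e1 : ∑ x ∈ σ.Sv v, (σ.step τ v b).w (t * (10 ^ 5 * q.ε)) x * ‖σ.G x v‖ ^ 2 =
      ∑ x ∈ σ.Sv v, σ.a x * ‖σ.G x v‖ ^ 2 + t * (10 ^ 5 * q.ε) * A := by
    rw [hA, mul_sum, ← sum_add_distrib]
    exact sum_congr rfl fun x hx => by rw [w_step hv b _ (SO hx).2, Co.w]; ring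
  have t0 : ∀ u, 0 ≤ σ.th u * ‖σ.G v u‖ ^ 2 := fun u => mul_nonneg (by
    have : (0 : ℝ) ≤ if u ∈ σ.X then 1 else 0 := by split_ifs <;> norm_num
    rw [Co.th]; linarith [(ir01 (σ := σ) u).1, (z.kr u).1]) (sq_nonneg _)
  have a1 : ∑ x ∈ σ.Sv v, σ.th x * ‖σ.G v x‖ ^ 2 ≤ 995 / 1000 := by
    refine ((sub_O t0).trans (sum_le_sum_of_subset_of_nonneg subset_union_left
      fun u _ _ => t0 u)).trans (le_trans (le_add_of_nonneg_right ?_) (h.zz v (h.rR hv)))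
    have := h.d0 v
    have := hq.m0
    split_ifs <;> positivity
  have a2 : A ≤ 10001 / 10000 * ∑ x ∈ σ.Sv v, σ.th x * ‖σ.G v x‖ ^ 2 := by
    rw [hA, mul_sum]
    refine sum_le_sum fun x hx => ?_
    have b1 : (0 : ℝ) ≤ if x ∈ σ.X then 1 else 0 := by split_ifs <;> norm_num
    rw [h.sG v x, ← mul_assoc]
    refine mul_le_mul_of_nonneg_right (mul_le_mul (by linarith [(abs_le.1 (h.a1 x (SO hx).1)).2])
      (by rw [Co.th]; linarith [h.K0 x v]) ?_ (by norm_num)) (sq_nonneg _)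
    linarith [(ir01 (σ := σ) x).1, K_le h hv x]
  have β1 : ‖τ.β v‖ ^ 2 ≤ 10001 / 10000 := by
    have := norm_le_insert' (τ.β v) 1
    rw [norm_one] at this
    nlinarith [h.b2 v hv, hq.ε1, norm_nonneg (τ.β v)]
  have a3 : ‖τ.β v‖ ^ 2 * A ≤ 9953 / 10000 :=
    (mul_le_mul_of_nonneg_left (a2.trans (mul_le_mul_of_nonneg_left a1 (by norm_num)))
      (sq_nonneg _)).trans (by linarith)
  have a4 : t * (‖τ.β v‖ ^ 2 * ∑ x ∈ σ.Sv v, σ.a x * ‖σ.G x v‖ ^ 2 - σ.a v) ≤ q.ε :=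
    (le_abs_self _).trans ((abs_mul _ _).trans_le (by rw [t1, one_mul]; exact h.deg v hv))
  have a5 : 99999 / 100000 ≤ σ.a v * (1 + σ.kr v / 2000) := by
    nlinarith [(abs_le.1 (h.a1 v (h.RO (h.rR hv)))).1, (z.kr v).1]
  rw [e1, Co.w, Co.ir, if_pos hv, show t * (‖τ.β v‖ ^ 2 * (∑ x ∈ σ.Sv v, σ.a x * ‖σ.G x v‖ ^ 2 +
    t * (10 ^ 5 * q.ε) * A) - σ.a v * (1 + t * (10 ^ 5 * q.ε) * (1 + σ.kr v / 2000))) =
    t * (‖τ.β v‖ ^ 2 * ∑ x ∈ σ.Sv v, σ.a x * ‖σ.G x v‖ ^ 2 - σ.a v) + t * t * (10 ^ 5 * q.ε) *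
      (‖τ.β v‖ ^ 2 * A - σ.a v * (1 + σ.kr v / 2000)) by ring, t2]
  nlinarith

include hq h z hv in
/-- the mesh against the star -/
theorem main_le (b : Bool) {t : ℝ} (ht : t = 1 ∨ t = -1) :
    t * ‖τ.β v‖ ^ 2 * En (σ.Sv v) (fun x y =>
      (σ.step τ v b).w (t * (10 ^ 5 * q.ε)) x * ‖σ.G x v‖ ^ 2 *
        ((σ.step τ v b).w (t * (10 ^ 5 * q.ε)) y * ‖σ.G y v‖ ^ 2)) φ -
      t * ∑ x ∈ σ.Sv v, σ.Kw (t * (10 ^ 5 * q.ε)) x v * (φ x - φ v) ^ 2 -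
      2 * (1 - t) * (∑ x ∈ σ.Sv v, σ.Kw (t * (10 ^ 5 * q.ε)) x v * (φ v - φ x)) ^ 2 ≤
      -(400 * q.ε * Fc σ v φ (φ v) v) := by
  have e0 := hq.ε0
  have d := deg_le hq h z hv b ht
  have hs : |t * (10 ^ 5 * q.ε)| ≤ 1 / 10 ^ 7 := by
    rw [abs_mul, show |t| = 1 by rcases ht with e | e <;> simp [e], one_mul,
      abs_of_pos (by positivity)]; linarith [hq.ε1]
  have w1 := fun x (hx : x ∈ σ.Sv v) => w_step (τ := τ) hv b (t * (10 ^ 5 * q.ε)) (SO hx).2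
  have k1 : ∀ x ∈ σ.Sv v, 0 ≤ σ.a x * σ.Kk x v ∧ σ.a x * σ.Kk x v ≤ 51 / 50 := fun x hx => by
    obtain ⟨b1, b2⟩ := abs_le.1 (h.a1 x (SO hx).1)
    have b3 := (K_le h hv x).trans (z.kr x).2
    have b4 := h.K0 x v
    constructor <;> nlinarith
  set s := t * (10 ^ 5 * q.ε) with hs'
  set M := ∑ x ∈ σ.Sv v, σ.w s x * ‖σ.G x v‖ ^ 2 * (φ x - φ v) ^ 2 with hM
  set M' := ∑ x ∈ σ.Sv v, (σ.step τ v b).w s x * ‖σ.G x v‖ ^ 2 * (φ x - φ v) ^ 2 with hM'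
  set L := ∑ x ∈ σ.Sv v, σ.w s x * ‖σ.G x v‖ ^ 2 * (φ x - φ v) with hL
  set L' := ∑ x ∈ σ.Sv v, (σ.step τ v b).w s x * ‖σ.G x v‖ ^ 2 * (φ x - φ v) with hL'
  have e1 : ∑ x ∈ σ.Sv v, σ.Kw s x v * (φ x - φ v) ^ 2 = σ.w s v * M := by
    rw [hM, mul_sum]; exact sum_congr rfl fun x _ => by rw [Co.Kw]; ring
  have e2 : ∑ x ∈ σ.Sv v, σ.Kw s x v * (φ v - φ x) = -(σ.w s v * L) := by
    rw [hL, mul_sum, ← sum_neg_distrib]; exact sum_congr rfl fun x _ => by rw [Co.Kw]; ring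
  have a1 : 9999 / 10000 * Fc σ v φ (φ v) v ≤ M := by
    rw [Fc, mul_sum]
    exact sum_le_sum fun x hx => by
      rw [mul_assoc]; exact mul_le_mul_of_nonneg_right (w_bd h z hs (SO hx).1).1 (by positivity)
  have a2 : t * (M' - M) ≤ 0 := by
    rw [hM, hM', ← sum_sub_distrib, mul_sum]
    refine sum_nonpos fun x hx => ?_
    rw [w1 x hx, hs']
    have := mul_nonneg (mul_nonneg (mul_self_nonneg t) e0.le) (mul_nonneg (k1 x hx).1
      (mul_nonneg (sq_nonneg ‖σ.G x v‖) (sq_nonneg (φ x - φ v))))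
    nlinarith
  have X0 : 0 ≤ ‖τ.β v‖ ^ 2 * ∑ x ∈ σ.Sv v, (σ.step τ v b).w s x * ‖σ.G x v‖ ^ 2 :=
    mul_nonneg (sq_nonneg _) (sum_nonneg fun x hx => mul_nonneg
      (by linarith [(w_bd' h z hv b hs hx).1]) (sq_nonneg _))
  have f0 := Fc0 (σ := σ) (v := v) φ (φ v) v
  have a3 := mul_le_mul_of_nonneg_right d (le_trans (by positivity) a1)
  have a4 := mul_nonpos_of_nonneg_of_nonpos X0 a2
  have a5 := mul_le_mul_of_nonneg_left a1 e0.le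
  rw [En_mesh _ _ _ (φ v), e1, e2, ← hM', ← hL']
  rcases ht with e | e
  · subst e
    nlinarith [mul_nonneg (sq_nonneg ‖τ.β v‖) (sq_nonneg L'), mul_nonneg e0.le f0]
  · have b1 : (L' - L) ^ 2 ≤ q.ε * Fc σ v φ (φ v) v := by
      have c1 : L' - L = ∑ x ∈ σ.Sv v, 50 * q.ε * (σ.a x * σ.Kk x v) * ‖σ.G x v‖ *
          (‖σ.G x v‖ * (φ x - φ v)) := by
        rw [hL, hL', ← sum_sub_distrib]
        exact sum_congr rfl fun x hx => by rw [w1 x hx, hs', e]; ring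
      have c2 : ∑ x ∈ σ.Sv v, (50 * q.ε * (σ.a x * σ.Kk x v) * ‖σ.G x v‖) ^ 2 ≤ q.ε := by
        refine (sum_le_sum (g := fun x => (51 * q.ε) ^ 2 * ‖σ.G x v‖ ^ 2) fun x hx => ?_).trans ?_
        · rw [mul_pow]
          refine mul_le_mul_of_nonneg_right (pow_le_pow_left₀ (mul_nonneg (by positivity)
            (k1 x hx).1) ?_ 2) (sq_nonneg _)
          nlinarith [(k1 x hx).2]
        · rw [← mul_sum]
          refine (mul_le_mul_of_nonneg_left (rowS h (h.RO (h.rR hv))) (sq_nonneg _)).trans ?_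
          nlinarith [hq.ε1]
      rw [c1]
      refine (sum_mul_sq_le_sq_mul_sq _ _ _).trans ?_
      simp only [mul_pow _ (φ _ - φ v)]
      exact mul_le_mul_of_nonneg_right c2 f0
    have β1 : ‖τ.β v‖ ^ 2 ≤ 3 / 2 := by
      have := norm_le_insert' (τ.β v) 1
      rw [norm_one] at this
      nlinarith [h.b2 v hv, hq.ε1, norm_nonneg (τ.β v)]
    have b2 := mul_le_mul_of_nonneg_right β1 (sq_nonneg L')
    have b3 : 3 / 4 * L ^ 2 ≤ (σ.w s v * L) ^ 2 := by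
      rw [mul_pow]
      refine mul_le_mul_of_nonneg_right ?_ (sq_nonneg _)
      nlinarith [(w_bd h z hs (h.RO (h.rR hv))).1]
    subst e
    nlinarith [sq_nonneg (L' - 2 * L), mul_nonneg e0.le f0]

end

theorem _root_.Pool.Agent.P.MP_d0f69c_mp.XS.Pre.t_p5a : S_P5A := by
  intro ι _ _ q σ τ hq h z t ht v hv b φ
  have e0 := hq.ε0
  have t1 : |t| = 1 := by rcases ht with e | e <;> simp [e]
  have hs : |t * (10 ^ 5 * q.ε)| ≤ 1 / 10 ^ 7 := by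
    rw [abs_mul, t1, one_mul, abs_of_pos (by positivity)]; linarith [hq.ε1]
  have a1 := En_mono (fun x hx y hy => point hq h z hv b ht hx hy) φ
  have a2 := main_le hq h z hv φ b ht
  have a3 : t * En (σ.Sv v) (nk σ τ (t * (10 ^ 5 * q.ε)) v b) φ ≤ _ :=
    (le_abs_self _).trans (((abs_mul _ _).trans (by rw [t1, one_mul])).trans_le
      (nk_le hq h z hv φ b hs))
  have a4 := DF_le hq h hv φ
  have e1 : En (σ.Sv v) (fun x y => (σ.Kk x v + σ.Kk y v) * ‖σ.G x y‖ ^ 2) φ = Us σ v φ := by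
    simp only [En, add_mul, sum_add_distrib, Us, Fc, mul_sum]
    rw [sum_comm (f := fun x y => σ.Kk y v * ‖σ.G x y‖ ^ 2 * (φ x - φ y) ^ 2)]
    simp only [← sum_add_distrib, sum_div]
    exact sum_congr rfl fun x _ => sum_congr rfl fun y _ => by rw [h.sG x y]; ring
  have u0 := Us0 (v := v) h φ
  have f0 := Fc0 (σ := σ) (v := v) φ (φ v) v
  have d0 := DF0 (v := v) h φ
  have n0 := Nr0 (v := v) h φ
  have cO := (sub_O (v := v) (f := fun x => no (τ.D v) (σ.G x) ^ 2) fun _ => sq_nonneg _).trans (z.cO v hv)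
  have nO := (sub_O (v := v) (f := fun x => τ.Nh v (σ.G x) ^ 2) fun _ => sq_nonneg _).trans (z.nO v hv)
  have b1 := En_prod (σ.Sv v) (fun x => ‖σ.G x v‖ * no (τ.D v) (σ.G x)) φ (φ v)
  have b2 := En_prod (σ.Sv v) (fun x => no (τ.D v) (σ.G x) ^ 2) φ (φ v)
  have b3 := En_prod (σ.Sv v) (fun x => τ.Nh v (σ.G x) ^ 2) φ (φ v)
  rw [sum_P h] at b2
  rw [sum_N h z] at b3
  have c1 : ∑ x ∈ σ.Sv v, ‖σ.G x v‖ * no (τ.D v) (σ.G x) ≤ 21 / 10 * q.ε :=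
    (abs_le_of_sq_le_sq' ((sum_mul_sq_le_sq_mul_sq _ _ _).trans ((mul_le_mul
      (rowS h (h.RO (h.rR hv))) cO (sum_nonneg fun _ _ => sq_nonneg _) (by norm_num)).trans
        (by nlinarith [sq_nonneg q.ε]))) (by positivity)).2
  have c2 : ∑ x ∈ σ.Sv v, ‖σ.G x v‖ * no (τ.D v) (σ.G x) * (φ x - φ v) ^ 2 ≤
      (Fc σ v φ (φ v) v + DF σ τ v φ) / 2 := by
    rw [← sum_P h, Fc, ← sum_add_distrib, sum_div]
    exact sum_le_sum fun x _ => by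
      nlinarith [mul_nonneg (sq_nonneg (‖σ.G x v‖ - no (τ.D v) (σ.G x))) (sq_nonneg (φ x - φ v))]
  have b4 := b1.trans (mul_le_mul c1 c2 (sum_nonneg fun x _ => mul_nonneg (mul_nonneg
    (norm_nonneg _) (no_nonneg _ _)) (sq_nonneg _)) (by positivity))
  have b5 := b2.trans ((mul_le_mul_of_nonneg_right cO d0).trans (mul_le_mul_of_nonneg_right
    (show 4 * q.ε ^ 2 ≤ q.ε / 10 by nlinarith [hq.ε1]) d0))
  have b6 := (mul_le_mul_of_nonneg_left (b3.trans (mul_le_mul_of_nonneg_right nO (by positivity)))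
    hq.h0).trans (mul_le_mul_of_nonneg_right (show q.hb ≤ q.ε / 100 from
      hq.h2.trans (by nlinarith [hq.η1])) (by positivity))
  have q0 : 0 ≤ σ.Q5 τ v φ φ := sum_nonneg fun u _ => mul_nonneg (h.E0 v u)
    (sum_nonneg fun x _ => mul_nonneg (sq_nonneg _) (mul_self_nonneg _))
  have b7 : 10 * q.ε * DF σ τ v φ ≤ q.ε * (2 * Us σ v φ + 11 / 5 * Nr σ v φ + Fc σ v φ (φ v) v) +
      σ.Q5 τ v φ φ := by
    have := mul_le_mul_of_nonneg_left a4 (show 0 ≤ 10 * q.ε by positivity)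
    have c3 := mul_le_mul_of_nonneg_right (show 10 * q.ε * q.ε ^ 2 ≤ q.ε by
      nlinarith [hq.ε1, mul_pos e0 e0]) (show 0 ≤ 2 * Us σ v φ + 11 / 5 * Nr σ v φ +
        Fc σ v φ (φ v) v by positivity)
    nlinarith [mul_le_mul_of_nonneg_right hq.ε1 q0]
  have lin : ∀ (c : ℝ) (k : ι → ι → ℝ), En (σ.Sv v) (fun x y => c * k x y) φ =
      c * En (σ.Sv v) k φ := fun c k => by simp only [En, mul_assoc, ← mul_sum, mul_div_assoc]
  have ad : ∀ k k' : ι → ι → ℝ, En (σ.Sv v) (fun x y => k x y + k' x y) φ =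
      En (σ.Sv v) k φ + En (σ.Sv v) k' φ := fun k k' => by
    simp only [En, add_mul, sum_add_distrib, add_div]
  have su : ∀ k k' : ι → ι → ℝ, En (σ.Sv v) (fun x y => k x y - k' x y) φ =
      En (σ.Sv v) k φ - En (σ.Sv v) k' φ := fun k k' => by
    simp only [En, sub_mul, sum_sub_distrib, sub_div]
  rw [ad, ad, ad, ad, su, ad, lin, lin, lin, lin, lin, lin, lin, lin, e1] at a1
  have e2 : Eb (σ.Sv v) (σ.k5 τ (t * (10 ^ 5 * q.ε)) v b) φ φ =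
      En (σ.Sv v) (σ.k5 τ (t * (10 ^ 5 * q.ε)) v b) φ := by simp only [Eb, En, sq]
  rw [y5, Co.Y5, e2, ← Nr]
  have e3 : En (σ.Sv v) ((σ.step τ v b).Kw (t * (10 ^ 5 * q.ε)) - σ.Kw (t * (10 ^ 5 * q.ε))) φ =
    En (σ.Sv v) (fun x y => (σ.step τ v b).Kw (t * (10 ^ 5 * q.ε)) x y -
      σ.Kw (t * (10 ^ 5 * q.ε)) x y) φ := rfl
  rw [e3]
  nlinarith [mul_nonneg e0.le u0, mul_nonneg e0.le f0, mul_nonneg e0.le d0, mul_nonneg e0.le n0]

end Pool.Agent.P.MP_d0f69c_mp.XS.Pre.P5A
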