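import Pool.Agent.P.MP_d0f69c_mp.XS.PIfF
import Pool.Agent.P.MP_d0f69c_mp.XS.PMon0

/-!
The increment of the form in one step is majorised by its noise and the far form.
-/

set_option autoImplicit false

open Finset Real
open scoped Matrix

namespace Pool.Agent.P.MP_d0f69c_mp.XS.Pre.P5A

variable {ι : Type}

theorem En_mesh (S : Finset ι) (k φ : ι → ℝ) (c : ℝ) : En S (fun x y => k x * k y) φ =
    (∑ x ∈ S, k x) * ∑ x ∈ S, k x * (φ x - c) ^ 2 - (∑ x ∈ S, k x * (φ x - c)) ^ 2 := by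
  have e : ∀ x y, k x * k y * (φ x - φ y) ^ 2 = k x * (φ x - c) ^ 2 * k y +
      k x * (k y * (φ y - c) ^ 2) - 2 * (k x * (φ x - c) * (k y * (φ y - c))) := fun x y => by ring
  simp only [En, e, sum_sub_distrib, sum_add_distrib, ← mul_sum, ← sum_mul]
  ring

theorem En_prod (S : Finset ι) (k φ : ι → ℝ) (c : ℝ) : En S (fun x y => k x * k y) φ ≤
    (∑ x ∈ S, k x) * ∑ x ∈ S, k x * (φ x - c) ^ 2 := by
  rw [En_mesh S k φ c]; exact sub_le_self _ (sq_nonneg _)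

theorem En_mono {S : Finset ι} {k k' : ι → ι → ℝ} (h : ∀ x ∈ S, ∀ y ∈ S, k x y ≤ k' x y)
    (φ : ι → ℝ) : En S k φ ≤ En S k' φ :=
  div_le_div_of_nonneg_right (sum_le_sum fun x hx => sum_le_sum fun y hy =>
    mul_le_mul_of_nonneg_right (h x hx y hy) (sq_nonneg _)) zero_le_two

variable [Fintype ι] [DecidableEq ι] {q : Nq} {σ : Co ι} {τ : Au ι} {v : ι}

/-- the star of `u` in the neighbourhood of `v`, measured from `c` -/
noncomputable def Fc (σ : Co ι) (v : ι) (φ : ι → ℝ) (c : ℝ) (u : ι) : ℝ :=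
  ∑ x ∈ σ.Sv v, ‖σ.G x u‖ ^ 2 * (φ x - c) ^ 2

/-- the stars seen through the majorant -/
noncomputable def DF (σ : Co ι) (τ : Au ι) (v : ι) (φ : ι → ℝ) : ℝ :=
  ∑ u, τ.D v u * Fc σ v φ (φ v) u

/-- the stars seen through the near kernel -/
noncomputable def Us (σ : Co ι) (v : ι) (φ : ι → ℝ) : ℝ :=
  ∑ x ∈ σ.Sv v, σ.Kk x v * Fc σ v φ (φ x) x

/-- the near form -/
noncomputable def Nr (σ : Co ι) (v : ι) (φ : ι → ℝ) : ℝ :=
  ∑ x ∈ σ.Sv v, σ.Kk x v * (φ x - φ v) ^ 2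

omit [Fintype ι] in
theorem Fc0 (φ : ι → ℝ) (c : ℝ) (u : ι) : 0 ≤ Fc σ v φ c u := sum_nonneg fun _ _ => by positivity

omit [Fintype ι] in
theorem SO {x : ι} (hx : x ∈ σ.Sv v) : x ∈ σ.Op ∧ x ≠ v :=
  ⟨(mem_inter.1 (mem_of_mem_erase hx)).1, ne_of_mem_erase hx⟩

omit [Fintype ι] in
theorem sub_O {f : ι → ℝ} (h : ∀ x, 0 ≤ f x) : ∑ x ∈ σ.Sv v, f x ≤ ∑ x ∈ σ.Op, f x :=
  sum_le_sum_of_subset_of_nonneg (fun _ hx => (SO hx).1) fun x _ _ => h x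

section

variable (hq : q.OK) (h : Fy q σ τ) (z : Fz q σ τ) (hv : v ∈ σ.rem) (φ : ι → ℝ)

include h in
theorem rowS {u : ι} (hu : u ∈ σ.Op) : ∑ x ∈ σ.Sv v, ‖σ.G x u‖ ^ 2 ≤ 11 / 10 := by
  simp only [h.sG _ u]
  exact (sub_O fun _ => sq_nonneg _).trans (h.row u hu)

include h in
theorem KS : ∑ x ∈ σ.Sv v, σ.Kk x v ≤ 1 := by
  simp only [h.sK _ v]
  exact (sum_le_sum_of_subset_of_nonneg (subset_univ _) fun x _ _ => h.K0 v x).trans (h.K1 v)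

include h in
theorem Fc_shift (c c' : ℝ) {u : ι} (hu : u ∈ σ.Op) :
    Fc σ v φ c u ≤ 2 * Fc σ v φ c' u + 11 / 5 * (c - c') ^ 2 := by
  have a := mul_le_mul_of_nonneg_right (rowS (v := v) h hu) (sq_nonneg (c - c'))
  refine (sum_le_sum (g := fun x => 2 * (‖σ.G x u‖ ^ 2 * (φ x - c') ^ 2) +
    2 * (‖σ.G x u‖ ^ 2 * (c - c') ^ 2)) fun x _ => ?_).trans ?_
  · nlinarith [mul_nonneg (sq_nonneg ‖σ.G x u‖) (sq_nonneg (φ x - c' + (c - c')))]
  · rw [sum_add_distrib, ← mul_sum, ← mul_sum, ← sum_mul, Fc]; linarith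

include h in
theorem Us0 : 0 ≤ Us σ v φ := sum_nonneg fun _ _ => mul_nonneg (h.K0 _ _) (Fc0 _ _ _)

include h in
theorem Nr0 : 0 ≤ Nr σ v φ := sum_nonneg fun _ _ => mul_nonneg (h.K0 _ _) (sq_nonneg _)

include h in
theorem DF0 : 0 ≤ DF σ τ v φ := sum_nonneg fun _ _ => mul_nonneg (h.D0 _ _) (Fc0 _ _ _)

include hq h hv in
theorem DF_le : DF σ τ v φ ≤ q.ε ^ 2 * (2 * Us σ v φ + 11 / 5 * Nr σ v φ + Fc σ v φ (φ v) v) +
    σ.Q5 τ v φ φ := by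
  have k2 : q.κ ^ 2 ≤ q.ε ^ 2 := pow_le_pow_left₀ hq.κ0 hq.κ1 2
  have e1 : σ.Q5 τ v φ φ = ∑ u, τ.D2 v u * Fc σ v φ (φ v) u := by simp only [Co.Q5, Fc, sq]
  have a1 : ∑ u, (if u ∈ σ.Sv v then σ.Kk u v else 0) * Fc σ v φ (φ v) u ≤
      2 * Us σ v φ + 11 / 5 * Nr σ v φ := by
    simp only [ite_mul, zero_mul, sum_ite_mem, univ_inter, Us, Nr, mul_sum, ← sum_add_distrib]
    refine sum_le_sum fun u hu => ?_
    nlinarith [mul_le_mul_of_nonneg_left (Fc_shift (v := v) h φ (φ v) (φ u) (SO hu).1) (h.K0 u v)]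
  have a2 : ∀ u, τ.D v u ≤ q.ε ^ 2 * ((if u ∈ σ.Sv v then σ.Kk u v else 0) +
      if u = v then 1 else 0) + τ.D2 v u := fun u => by
    have b0 : (0 : ℝ) ≤ if u = v then 1 else 0 := by split_ifs <;> norm_num
    by_cases c : u ∈ σ.Op
    · have : σ.Kk v u = if u ∈ σ.Sv v then σ.Kk u v else 0 := by
        rw [h.sK v u]
        split_ifs with c'
        · rfl
        · by_contra c0
          exact c' (mem_erase.2 ⟨fun e => c0 (e ▸ h.Kd u), mem_inter.2 ⟨c, h.KB u v c0⟩⟩)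
      rw [← this]
      exact (h.D1 v hv u).trans (add_le_add (mul_le_mul_of_nonneg_right k2
        (add_nonneg (h.K0 _ _) b0)) le_rfl)
    · rw [h.DO v u c, if_neg fun e => c (SO e).1]
      exact add_nonneg (by positivity) (h.E0 v u)
  refine (sum_le_sum fun u _ => mul_le_mul_of_nonneg_right (a2 u) (Fc0 _ _ _)).trans ?_
  simp only [add_mul, mul_assoc, sum_add_distrib, ← mul_sum, ← e1]
  simp only [ite_mul (_ = v), one_mul, zero_mul, sum_ite_eq', mem_univ, if_true]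
  exact add_le_add (mul_le_mul_of_nonneg_left (add_le_add a1 le_rfl) (sq_nonneg _)) le_rfl

include h in
theorem sum_P : ∑ x ∈ σ.Sv v, no (τ.D v) (σ.G x) ^ 2 * (φ x - φ v) ^ 2 = DF σ τ v φ := by
  simp only [no_sq (h.D0 v), sum_mul, DF, Fc, mul_sum, mul_assoc]
  exact sum_comm

include h z in
theorem sum_N : ∑ x ∈ σ.Sv v, τ.Nh v (σ.G x) ^ 2 * (φ x - φ v) ^ 2 =
    51 / 50 * Fc σ v φ (φ v) v + DF σ τ v φ := by
  simp only [z.sq, add_mul, sum_add_distrib, sum_P h, mul_assoc, ← mul_sum, Fc]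

include h z hv in
/-- a superposition of rows -/
theorem Nh_mix (hq : q.OK) (x : ι) {m : ι → ℂ}
    (hm : ∀ y ∈ σ.Sv v, ‖m y‖ ≤ 1001 / 1000 * (‖σ.G y x‖ * (φ y - φ x) ^ 2)) :
    τ.Nh v (fun u => ∑ y ∈ σ.Sv v, m y * σ.G y u) ≤ 51 / 100 * Fc σ v φ (φ x) x +
      (51 / 50 * Fc σ v φ (φ v) v + DF σ τ v φ + 23 / 20 * (φ x - φ v) ^ 2) := by
  have vO := h.RO (h.rR hv)
  have a1 : ∀ u ∈ σ.Op, ‖∑ y ∈ σ.Sv v, m y * σ.G y u‖ ^ 2 ≤ 51 / 50 * Fc σ v φ (φ x) x *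
      (2 * Fc σ v φ (φ v) u + 11 / 5 * (φ x - φ v) ^ 2) := fun u hu => by
    have b1 : ‖∑ y ∈ σ.Sv v, m y * σ.G y u‖ ≤ 1001 / 1000 *
        ∑ y ∈ σ.Sv v, ‖σ.G y x‖ * |φ y - φ x| * (‖σ.G y u‖ * |φ y - φ x|) := by
      rw [mul_sum]
      refine (norm_sum_le _ _).trans (sum_le_sum fun y hy => ?_)
      rw [norm_mul]
      refine (mul_le_mul_of_nonneg_right (hm y hy) (norm_nonneg _)).trans_eq ?_
      rw [← sq_abs (φ y - φ x)]; ring
    have b2 := sum_mul_sq_le_sq_mul_sq (σ.Sv v) (fun y => ‖σ.G y x‖ * |φ y - φ x|)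
      fun y => ‖σ.G y u‖ * |φ y - φ x|
    simp only [mul_pow, sq_abs] at b2
    have b3 := mul_le_mul_of_nonneg_left (Fc_shift (v := v) h φ (φ x) (φ v) hu)
      (Fc0 (σ := σ) (v := v) φ (φ x) x)
    have b4 := mul_nonneg (Fc0 (σ := σ) (v := v) φ (φ x) x) (Fc0 (σ := σ) (v := v) φ (φ x) u)
    refine (pow_le_pow_left₀ (norm_nonneg _) b1 2).trans ?_
    simp only [Fc] at *
    nlinarith
  have f0 := Fc0 (σ := σ) (v := v) φ (φ x) x
  have f1 := Fc0 (σ := σ) (v := v) φ (φ v) v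
  have f2 := DF0 (v := v) h φ
  have a2 : no (τ.D v) (fun u => ∑ y ∈ σ.Sv v, m y * σ.G y u) ^ 2 ≤ 51 / 50 * Fc σ v φ (φ x) x *
      (2 * DF σ τ v φ + 11 / 5 * (φ x - φ v) ^ 2 * ∑ u, τ.D v u) := by
    rw [no_sq (h.D0 v), DF, mul_sum, mul_sum, ← sum_add_distrib, mul_sum]
    refine sum_le_sum fun u _ => ?_
    by_cases c : u ∈ σ.Op
    · exact (mul_le_mul_of_nonneg_left (a1 u c) (h.D0 v u)).trans_eq (by ring)
    · simp [h.DO v u c]
  have a3 : ∑ u, τ.D v u ≤ 1 / 1000 := (z.Dr v hv).trans (by nlinarith [hq.ε0, hq.ε1])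
  have a4 := mul_le_mul_of_nonneg_left a3 (mul_nonneg f0 (sq_nonneg (φ x - φ v)))
  have a5 := mul_nonneg f0 (sq_nonneg (φ x - φ v))
  refine abs_le_of_sq_le_sq' ?_ (by positivity) |>.2
  rw [z.sq]
  nlinarith [a1 v vO, sq_nonneg (51 / 100 * Fc σ v φ (φ x) x -
    (51 / 50 * Fc σ v φ (φ v) v + DF σ τ v φ + 23 / 20 * (φ x - φ v) ^ 2))]

include hv in
theorem w_step (b : Bool) (s : ℝ) {x : ι} (hx : x ≠ v) :
    (σ.step τ v b).w s x = σ.w s x - s * σ.a x * σ.Kk x v / 2000 := by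
  simp only [Co.w, Co.ir, Co.kr, Co.step, mem_erase, hx, ne_eq, not_false_eq_true, true_and]
  rw [← add_sum_erase _ _ hv]; ring

include h hv in
theorem K_le (x : ι) : σ.Kk x v ≤ σ.kr x := single_le_sum (f := σ.Kk x) (fun _ _ => h.K0 x _) hv

omit [Fintype ι] in
theorem ir01 (x : ι) : 0 ≤ σ.ir x ∧ σ.ir x ≤ 1 := by unfold Co.ir; split_ifs <;> norm_num

theorem w_aux {a s θ : ℝ} (ha : |a - 1| ≤ 1 / 10 ^ 7) (hs : |s| ≤ 1 / 10 ^ 7) (h0 : 0 ≤ θ)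
    (h1 : θ ≤ 2) : 9999 / 10000 ≤ a * (1 + s * θ) ∧ a * (1 + s * θ) ≤ 10001 / 10000 := by
  obtain ⟨a1, a2⟩ := abs_le.1 ha
  obtain ⟨s1, s2⟩ := abs_le.1 hs
  have b1 : -(2 / 10 ^ 7) ≤ s * θ := by nlinarith
  have b2 : s * θ ≤ 2 / 10 ^ 7 := by nlinarith
  constructor <;> nlinarith

include h z in
theorem w_bd {s : ℝ} (hs : |s| ≤ 1 / 10 ^ 7) {x : ι} (hx : x ∈ σ.Op) :
    9999 / 10000 ≤ σ.w s x ∧ σ.w s x ≤ 10001 / 10000 :=
  w_aux (h.a1 x hx) hs (by linarith [(ir01 (σ := σ) x).1, (z.kr x).1])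
    (by linarith [(ir01 (σ := σ) x).2, (z.kr x).2])

include h z hv in
theorem w_bd' (b : Bool) {s : ℝ} (hs : |s| ≤ 1 / 10 ^ 7) {x : ι} (hx : x ∈ σ.Sv v) :
    9999 / 10000 ≤ (σ.step τ v b).w s x ∧ (σ.step τ v b).w s x ≤ 10001 / 10000 := by
  rw [w_step hv b s (SO hx).2, show σ.w s x - s * σ.a x * σ.Kk x v / 2000 =
    σ.a x * (1 + s * (σ.ir x + (σ.kr x - σ.Kk x v) / 2000)) by rw [Co.w]; ring]
  exact w_aux (h.a1 x (SO hx).1) hs (by linarith [(ir01 (σ := σ) x).1, K_le h hv x])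
    (by linarith [(ir01 (σ := σ) x).2, (z.kr x).2, h.K0 x v])

/-- the odd near part -/
noncomputable def nk (σ : Co ι) (τ : Au ι) (s : ℝ) (v : ι) (b : Bool) (x y : ι) : ℝ :=
  -2 * ((σ.step τ v b).w s x * (σ.step τ v b).w s y) * ((starRingEnd ℂ) (σ.G x y) * (sgn b *
    (bf (τ.B v) (σ.G x) (σ.G y) - bf (τ.B v) (σ.Pf τ v x) (σ.Pf τ v y)))).re

include hq h z hv in
theorem nk_le (b : Bool) {s : ℝ} (hs : |s| ≤ 1 / 10 ^ 7) : |En (σ.Sv v) (nk σ τ s v b) φ| ≤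
    q.ε * (2 * Us σ v φ + 3 * Fc σ v φ (φ v) v + 3 * DF σ τ v φ + 3 * Nr σ v φ) := by
  set m : ι → ι → ℂ := fun x y => (((σ.step τ v b).w s x * (σ.step τ v b).w s y *
    (φ x - φ y) ^ 2 : ℝ) : ℂ) * (starRingEnd ℂ) (σ.G x y) with hm
  have sy : ∀ x y, m x y = m y x := fun x y => by
    simp only [hm, h.sG x y]; congr 2; ring
  have sB := bf_comm (B := τ.B v) fun x y => congrFun (congrFun (h.sB v hv) y) x
  have mb : ∀ x ∈ σ.Sv v, ∀ y ∈ σ.Sv v, ‖m x y‖ ≤ 1001 / 1000 * (‖σ.G y x‖ * (φ y - φ x) ^ 2) :=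
    fun x hx y hy => by
      obtain ⟨a1, a2⟩ := w_bd' h z hv b hs hx
      obtain ⟨a3, a4⟩ := w_bd' h z hv b hs hy
      have a5 := mul_le_mul a2 a4 (by linarith) (by norm_num)
      rw [hm, norm_mul, Complex.norm_conj, Complex.norm_real, Real.norm_of_nonneg (mul_nonneg
        (mul_nonneg (by linarith) (by linarith)) (sq_nonneg _)), h.sG x y, sub_sq_comm (φ x)]
      nlinarith [mul_nonneg (norm_nonneg (σ.G y x)) (sq_nonneg (φ y - φ x))]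
  have e1 : En (σ.Sv v) (nk σ τ s v b) φ = -(sgn b * (2 * ∑ x ∈ σ.Sv v, ∑ y ∈ σ.Sv v,
      m x y * bf (τ.B v) (τ.Pn v x) (σ.G y) - ∑ x ∈ σ.Sv v, ∑ y ∈ σ.Sv v,
        m x y * bf (τ.B v) (τ.Pn v x) (τ.Pn v y))).re := by
    have e2 : ∑ x ∈ σ.Sv v, ∑ y ∈ σ.Sv v, m x y * bf (τ.B v) (σ.G x) (τ.Pn v y) =
        ∑ x ∈ σ.Sv v, ∑ y ∈ σ.Sv v, m x y * bf (τ.B v) (τ.Pn v x) (σ.G y) := by
      rw [sum_comm]
      exact sum_congr rfl fun x _ => sum_congr rfl fun y _ => by rw [sy, sB]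
    rw [two_mul]
    nth_rewrite 1 [← e2]
    simp only [← sum_add_distrib, ← sum_sub_distrib, mul_sum, Complex.re_sum, ← sum_neg_distrib,
      En, sum_div]
    refine sum_congr rfl fun x _ => sum_congr rfl fun y _ => ?_
    simp only [nk, Co.Pf, bf_subl, bf_subr, hm, ← mul_add, ← mul_sub]
    rw [mul_left_comm (sgn b), mul_assoc ((_ : ℝ) : ℂ), Complex.re_ofReal_mul]
    rw [show ∀ p1 p2 p3 p4 : ℂ, p1 - (p1 - p2 - (p3 - p4)) = p3 + p2 - p4 from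
      fun _ _ _ _ => by ring]
    ring
  have u0 := Us0 (v := v) h φ
  have f0 := Fc0 (σ := σ) (v := v) φ (φ v) v
  have d0 := DF0 (v := v) h φ
  have n0 := Nr0 (v := v) h φ
  have a1 : ‖∑ x ∈ σ.Sv v, ∑ y ∈ σ.Sv v, m x y * bf (τ.B v) (τ.Pn v x) (σ.G y)‖ ≤
      103 / 100 * q.ε * (51 / 100 * Us σ v φ + (51 / 50 * Fc σ v φ (φ v) v + DF σ τ v φ) +
        23 / 20 * Nr σ v φ) := by
    refine (norm_sum_le _ _).trans ((sum_le_sum (g := fun x => 103 / 100 * (q.ε * σ.Kk x v) *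
      (51 / 100 * Fc σ v φ (φ x) x + (51 / 50 * Fc σ v φ (φ v) v + DF σ τ v φ +
        23 / 20 * (φ x - φ v) ^ 2))) fun x hx => ?_).trans ?_)
    · rw [bf_sum]
      have := mul_nonneg hq.ε0.le (h.K0 x v)
      exact (h.b0 v hv _ _).trans (mul_le_mul (mul_le_mul_of_nonneg_left ((h.p1 v hv x
        (mem_union_left _ (SO hx).1) (SO hx).2).trans (mul_le_mul_of_nonneg_right hq.κ1 (h.K0 x v))) (by norm_num))
        ((h.n2 v hv _).trans (Nh_mix h z hv φ hq x (mb x hx))) ((h.hn v hv).nn _) (by positivity))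
    · have b1 := mul_le_mul_of_nonneg_right (KS (v := v) h)
        (show 0 ≤ 51 / 50 * Fc σ v φ (φ v) v + DF σ τ v φ by positivity)
      refine le_of_eq_of_le ?_ (mul_le_mul_of_nonneg_left (add_le_add (add_le_add le_rfl
        (b1.trans_eq (one_mul _))) le_rfl) (by have := hq.ε0; positivity))
      simp only [Us, Nr, mul_sum, sum_mul, ← sum_add_distrib]
      exact sum_congr rfl fun x _ => by ring
  have a2 : ‖∑ x ∈ σ.Sv v, ∑ y ∈ σ.Sv v, m x y * bf (τ.B v) (τ.Pn v x) (τ.Pn v y)‖ ≤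
      4 * q.ε ^ 2 * Nr σ v φ := by
    have b1 := (En_prod (σ.Sv v) (fun x => σ.Kk x v) φ (φ v)).trans
      (mul_le_mul_of_nonneg_right (KS (v := v) h) n0)
    refine ((norm_sum_le _ _).trans (sum_le_sum (g := fun x => ∑ y ∈ σ.Sv v, 2 * q.ε ^ 2 *
      (σ.Kk x v * σ.Kk y v * (φ x - φ y) ^ 2)) fun x hx => (norm_sum_le _ _).trans
        (sum_le_sum fun y hy => ?_))).trans ?_
    · have c1 := (h.p1 v hv x (mem_union_left _ (SO hx).1) (SO hx).2).trans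
        (mul_le_mul_of_nonneg_right hq.κ1 (h.K0 x v))
      have c2 := (h.p1 v hv y (mem_union_left _ (SO hy).1) (SO hy).2).trans
        (mul_le_mul_of_nonneg_right hq.κ1 (h.K0 y v))
      have c0 := mul_nonneg hq.ε0.le (h.K0 x v)
      have c3 := (h.b0 v hv _ _).trans (mul_le_mul (mul_le_mul_of_nonneg_left c1 (by norm_num)) c2
        ((h.hn v hv).nn _) (by positivity))
      have c4 : ‖σ.G y x‖ ≤ 11 / 10 := (abs_le_of_sq_le_sq' ((single_le_sum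
        (f := fun y => ‖σ.G y x‖ ^ 2) (fun _ _ => sq_nonneg _) hy).trans
          ((rowS h (SO hx).1).trans (by norm_num))) (by norm_num)).2
      have c5 := (mb x hx y hy).trans (mul_le_mul_of_nonneg_left
        (mul_le_mul_of_nonneg_right c4 (sq_nonneg _)) (by norm_num))
      rw [norm_mul, sub_sq_comm (φ x)]
      refine (mul_le_mul c5 c3 (norm_nonneg _) (by positivity)).trans ?_
      nlinarith [mul_nonneg (mul_nonneg c0 (mul_nonneg hq.ε0.le (h.K0 y v))) (sq_nonneg (φ y - φ x))]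
    · simp only [← mul_sum, Nr]
      rw [En] at b1
      nlinarith [mul_le_mul_of_nonneg_left b1 (sq_nonneg q.ε)]
  rw [e1, abs_neg]
  refine (Complex.abs_re_le_norm _).trans ?_
  rw [norm_mul, norm_sgn, one_mul]
  refine (norm_sub_le _ _).trans ?_
  rw [norm_mul, Complex.norm_two]
  have e0 := hq.ε0.le
  nlinarith [mul_nonneg e0 u0, mul_nonneg e0 f0, mul_nonneg e0 d0, mul_nonneg e0 n0,
    mul_le_mul_of_nonneg_right hq.ε1 (mul_nonneg e0 n0)]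

end

end Pool.Agent.P.MP_d0f69c_mp.XS.Pre.P5A
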