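import Pool.Agent.P.MP_d0f69c_mp.XS.PIfF
import Pool.Agent.P.MP_d0f69c_mp.XS.PMon0
import Pool.Agent.P.MP_d0f69c_mp.XS.FM5

/-!
The commutator sums behind the noise of the form in the preparatory flow.
-/

set_option autoImplicit false
set_option linter.dupNamespace false
set_option linter.unusedSectionVars false

open Finset Real
open scoped Matrix

namespace Pool.Agent.P.MP_d0f69c_mp.XS.Pre

variable {ι : Type} [Fintype ι] [DecidableEq ι]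

namespace HN

variable {N : (ι → ℂ) → ℝ} (h : HN N)
include h

theorem zero' : N 0 = 0 := by simpa using h.smul 0 0

theorem sub' (φ ψ : ι → ℂ) : N (φ - ψ) ≤ N φ + N ψ := by
  have h1 := h.smul (-1) ψ
  rw [neg_one_smul, norm_neg, norm_one, one_mul] at h1
  rw [sub_eq_add_neg, ← h1]
  exact h.add _ _

theorem sum' (S : Finset ι) (c : ι → ℂ) (V : ι → ι → ℂ) :
    N (∑ y ∈ S, c y • V y) ≤ ∑ y ∈ S, ‖c y‖ * N (V y) := by
  induction S using Finset.induction_on with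
  | empty => simp [h.zero']
  | insert y S hy ih =>
    rw [sum_insert hy, sum_insert hy, ← h.smul]
    exact (h.add _ _).trans (add_le_add le_rfl ih)

end HN

namespace F5B

variable {q : Nq} {σ : Co ι} {τ : Au ι} {s : ℝ}

/-- the weights after the closing of `v` -/
noncomputable def wv (σ : Co ι) (s : ℝ) (v x : ι) : ℝ :=
  σ.a x * (1 + s * ((if x ∈ σ.rem.erase v then 1 else 0) + (∑ u ∈ σ.rem.erase v, σ.Kk x u) / 2000))

theorem step_w (v : ι) (b : Bool) : (σ.step τ v b).w s = wv σ s v := rfl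

theorem wb {a i k : ℝ} (ha : |a - 1| ≤ 1 / 10 ^ 7) (hs : |s| ≤ 1 / 10 ^ 7) (i0 : 0 ≤ i) (i1 : i ≤ 1)
    (k0 : 0 ≤ k) (k1 : k ≤ 1) : |a * (1 + s * (i + k / 2000))| ≤ 101 / 100 := by
  have h1 : |s * (i + k / 2000)| ≤ 1 / 10 ^ 7 * 2 := by
    rw [abs_mul]
    exact mul_le_mul hs (abs_le.2 ⟨by linarith, by linarith⟩) (abs_nonneg _) (by norm_num)
  have h2 : |a| ≤ 1 + 1 / 10 ^ 7 := by
    have := abs_le.1 ha
    exact abs_le.2 ⟨by linarith, by linarith⟩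
  have h3 : |1 + s * (i + k / 2000)| ≤ 1 + 1 / 10 ^ 7 * 2 := by
    have := abs_le.1 h1
    exact abs_le.2 ⟨by linarith, by linarith⟩
  rw [abs_mul]
  exact (mul_le_mul h2 h3 (abs_nonneg _) (by norm_num)).trans (by norm_num)

theorem Ksum (h : Fy q σ τ) (S : Finset ι) (x : ι) : ∑ u ∈ S, σ.Kk x u ≤ 1 :=
  (sum_le_sum_of_subset_of_nonneg (subset_univ _) fun u _ _ => h.K0 x u).trans (h.K1 x)

theorem wv_le (h : Fy q σ τ) (hs : |s| ≤ 1 / 10 ^ 7) (v : ι) {x : ι} (hx : x ∈ σ.Op) :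
    |wv σ s v x| ≤ 101 / 100 :=
  wb (h.a1 x hx) hs (by split_ifs <;> norm_num) (by split_ifs <;> norm_num)
    (sum_nonneg fun u _ => h.K0 x u) (Ksum h _ x)

theorem w_le (h : Fy q σ τ) (hs : |s| ≤ 1 / 10 ^ 7) {x : ι} (hx : x ∈ σ.Op) :
    |σ.w s x| ≤ 101 / 100 :=
  wb (h.a1 x hx) hs (by unfold Co.ir; split_ifs <;> norm_num) (by unfold Co.ir; split_ifs <;> norm_num)
    (sum_nonneg fun u _ => h.K0 x u) (Ksum h _ x)

theorem wv_sub (h : Fy q σ τ) (hs : |s| ≤ 1 / 10 ^ 7) {v y : ι} (hv : v ∈ σ.rem) (hy : y ∈ σ.Sv v) :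
    |wv σ s v y - σ.w s y| ≤ 101 / 100 * σ.Kk y v := by
  have h1 := (mem_erase.1 hy).1
  have e : wv σ s v y - σ.w s y = -(σ.a y * s / 2000) * σ.Kk y v := by
    unfold wv Co.w Co.ir Co.kr
    rw [← add_sum_erase _ _ hv]
    simp only [mem_erase, h1, ne_eq, not_false_eq_true, true_and]
    ring
  have h2 := abs_le.1 (h.a1 y (mem_inter.1 (mem_erase.1 hy).2).1)
  rw [e, abs_mul, abs_neg, abs_of_nonneg (h.K0 y v), abs_div, abs_mul]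
  refine mul_le_mul_of_nonneg_right ?_ (h.K0 y v)
  have := mul_le_mul (show |σ.a y| ≤ 2 from abs_le.2 ⟨by linarith, by linarith⟩) hs (abs_nonneg _)
    (by norm_num)
  rw [abs_of_pos (by norm_num : (0 : ℝ) < 2000)]
  linarith

/-- the row of the commutator -/
noncomputable def hc (σ : Co ι) (w φ : ι → ℝ) (x y : ι) : ℂ :=
  ((w y * (φ x - φ y) : ℝ) : ℂ) * (starRingEnd ℂ) (σ.G x y)

/-- its majorant -/
noncomputable def ee (σ : Co ι) (φ : ι → ℝ) (x y : ι) : ℝ := 101 / 100 * (|φ x - φ y| * ‖σ.G x y‖)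

theorem ee0 (φ : ι → ℝ) (x y : ι) : 0 ≤ ee σ φ x y := by unfold ee; positivity

theorem hc_le {w : ι → ℝ} {y : ι} {c : ℝ} (hw : |w y| ≤ 101 / 100 * c) (φ : ι → ℝ) (x : ι) :
    ‖hc σ w φ x y‖ ≤ c * ee σ φ x y := by
  simp only [hc, ee, norm_mul, Complex.norm_real, Real.norm_eq_abs, Complex.norm_conj]
  nlinarith [mul_le_mul_of_nonneg_right hw (show 0 ≤ |φ x - φ y| * ‖σ.G x y‖ by positivity)]

/-- the inner sum -/
noncomputable def SV (σ : Co ι) (s : ℝ) (φ : ι → ℝ) (V : ι → ι → ℂ) (v x : ι) : ι → ℂ :=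
  ∑ y ∈ σ.Sv v, hc σ (wv σ s v) φ x y • V y

/-- the energy seen from `x` -/
noncomputable def sx (σ : Co ι) (φ : ι → ℝ) (x : ι) : ℝ := ∑ y ∈ σ.Op, ee σ φ x y ^ 2

theorem sx0 (φ : ι → ℝ) (x : ι) : 0 ≤ sx σ φ x := sum_nonneg fun _ _ => sq_nonneg _

theorem Sv_sub (v : ι) : σ.Sv v ⊆ σ.Op.erase v := erase_subset_erase _ inter_subset_left

theorem Sv_op (v : ι) : σ.Sv v ⊆ σ.Op := (Sv_sub v).trans (erase_subset _ _)

theorem hc1 (h : Fy q σ τ) (hs : |s| ≤ 1 / 10 ^ 7) (φ : ι → ℝ) (v x : ι) {y : ι} (hy : y ∈ σ.Sv v) :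
    ‖hc σ (wv σ s v) φ x y‖ ≤ ee σ φ x y :=
  (hc_le (c := 1) ((wv_le h hs v (Sv_op v hy)).trans_eq (mul_one _).symm) φ x).trans_eq (one_mul _)

theorem E1_le (h : Fy q σ τ) (φ : ι → ℝ) :
    ∑ x ∈ σ.Op, ∑ y ∈ σ.Op, ‖σ.G x y‖ ^ 2 * (φ x - φ y) ^ 2 ≤
      201 / 100 * En σ.Op (fun x y => σ.a x * σ.a y * ‖σ.G x y‖ ^ 2) φ := by
  unfold En
  rw [mul_div_assoc', le_div_iff₀ (by norm_num), sum_mul, mul_sum]
  refine sum_le_sum fun x hx => ?_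
  rw [sum_mul, mul_sum]
  refine sum_le_sum fun y hy => ?_
  have hx' := abs_le.1 (h.a1 x hx)
  have hy' := abs_le.1 (h.a1 y hy)
  have h1 : 2 ≤ 201 / 100 * (σ.a x * σ.a y) := by nlinarith
  have h2 : 0 ≤ ‖σ.G x y‖ ^ 2 * (φ x - φ y) ^ 2 := by positivity
  nlinarith [mul_le_mul_of_nonneg_right h1 h2]

theorem sx_sum (φ : ι → ℝ) : ∑ x ∈ σ.Op, sx σ φ x =
    (101 / 100) ^ 2 * ∑ x ∈ σ.Op, ∑ y ∈ σ.Op, ‖σ.G x y‖ ^ 2 * (φ x - φ y) ^ 2 := by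
  simp only [sx, ee, mul_sum, mul_pow, sq_abs]
  exact sum_congr rfl fun _ _ => sum_congr rfl fun _ _ => by ring

theorem A1G (h : Fy q σ τ) (z : Fz q σ τ) (hs : |s| ≤ 1 / 10 ^ 7) (φ : ι → ℝ) (x : ι) :
    ∑ v ∈ σ.rem, τ.Nh v (SV σ s φ σ.G v x) ^ 2 ≤ 40 / q.η ^ 2 * sx σ φ x := by
  refine z.vec (fun v => hc σ (wv σ s v) φ x) (hc σ (σ.w s) φ x) (ee σ φ x) (fun v hv y hy => ?_)
    fun y hy => (hc_le (c := 1) ((w_le h hs hy).trans_eq (mul_one _).symm) φ x).trans_eq (one_mul _)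
  have e : hc σ (wv σ s v) φ x y - hc σ (σ.w s) φ x y = hc σ (wv σ s v - σ.w s) φ x y := by
    simp only [hc, Pi.sub_apply]; push_cast; ring
  rw [e]
  exact hc_le (w := wv σ s v - σ.w s) (wv_sub h hs hv hy) φ x

theorem A1P (hq : q.OK) (h : Fy q σ τ) (z : Fz q σ τ) (hs : |s| ≤ 1 / 10 ^ 7) (φ : ι → ℝ) (x : ι) :
    ∑ v ∈ σ.rem, τ.N v (SV σ s φ (σ.Pf τ v) v x) ^ 2 ≤ 81 / q.η ^ 2 * sx σ φ x := by
  have κ1 : q.κ ≤ 1 / 10 ^ 12 := hq.κ1.trans hq.ε1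
  have h1 : ∀ v ∈ σ.rem, τ.N v (SV σ s φ (σ.Pf τ v) v x) ^ 2 ≤
      2 * τ.Nh v (SV σ s φ σ.G v x) ^ 2 + ∑ y ∈ σ.Op, σ.Kk y v * ee σ φ x y ^ 2 := fun v hv => by
    have e : SV σ s φ (σ.Pf τ v) v x = SV σ s φ σ.G v x - SV σ s φ (τ.Pn v) v x := by
      simp only [SV, Co.Pf, smul_sub, sum_sub_distrib]
    have a1 : τ.N v (SV σ s φ (τ.Pn v) v x) ≤ q.κ * ∑ y ∈ σ.Sv v, σ.Kk y v * ee σ φ x y := by
      refine ((h.hn v hv).sum' _ _ _).trans ?_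
      rw [mul_sum]
      exact sum_le_sum fun y hy => (mul_le_mul (hc1 h hs φ v x hy)
        (h.p1 v hv y (mem_union_left _ (Sv_op v hy)) (mem_erase.1 hy).1) ((h.hn v hv).nn _)
        (ee0 φ x y)).trans_eq (by ring)
    have a2 : (∑ y ∈ σ.Sv v, σ.Kk y v * ee σ φ x y) ^ 2 ≤ ∑ y ∈ σ.Op, σ.Kk y v * ee σ φ x y ^ 2 := by
      refine (sum_sq_le_sum_mul_sum_of_sq_le_mul (σ.Sv v) (f := fun y => σ.Kk y v)
        (g := fun y => σ.Kk y v * ee σ φ x y ^ 2) (fun y _ => h.K0 y v)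
        (fun y _ => mul_nonneg (h.K0 y v) (sq_nonneg _)) fun y _ => le_of_eq (by ring)).trans ?_
      refine (mul_le_of_le_one_left (sum_nonneg fun y _ => mul_nonneg (h.K0 y v) (sq_nonneg _))
        ?_).trans (sum_le_sum_of_subset_of_nonneg (Sv_op v) fun y _ _ =>
          mul_nonneg (h.K0 y v) (sq_nonneg _))
      simp only [fun y => h.sK y v]
      exact Ksum h _ v
    have a3 := ((h.hn v hv).sub' (SV σ s φ σ.G v x) (SV σ s φ (τ.Pn v) v x)).trans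
      (add_le_add (h.n2 v hv _) a1)
    rw [← e] at a3
    have a4 := pow_le_pow_left₀ ((h.hn v hv).nn _) a3 2
    set T := ∑ y ∈ σ.Sv v, σ.Kk y v * ee σ φ x y
    have a5 : 2 * (q.κ * T) ^ 2 ≤ T ^ 2 := by
      rw [mul_pow, ← mul_assoc]
      exact mul_le_of_le_one_left (sq_nonneg _) (by nlinarith [hq.κ0])
    nlinarith [sq_nonneg (τ.Nh v (SV σ s φ σ.G v x) - q.κ * T)]
  refine (sum_le_sum h1).trans ?_
  rw [sum_add_distrib, ← mul_sum, sum_comm]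
  have h2 : ∑ y ∈ σ.Op, ∑ v ∈ σ.rem, σ.Kk y v * ee σ φ x y ^ 2 ≤ sx σ φ x :=
    sum_le_sum fun y _ => by
      rw [← sum_mul]; exact mul_le_of_le_one_left (sq_nonneg _) (Ksum h _ y)
  have h3 : 1 ≤ 1 / q.η ^ 2 := by
    rw [le_div_iff₀ (pow_pos hq.η0 2), one_mul]
    exact pow_le_one₀ hq.η0.le (hq.η1.trans (by norm_num))
  have h4 := mul_le_mul_of_nonneg_right h3 (sx0 (σ := σ) φ x)
  have h5 := A1G h z hs φ x
  have e1 : 40 / q.η ^ 2 * sx σ φ x = 40 * (1 / q.η ^ 2 * sx σ φ x) := by ring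
  have e2 : 81 / q.η ^ 2 * sx σ φ x = 81 * (1 / q.η ^ 2 * sx σ φ x) := by ring
  linarith

theorem supP (h : Fy q σ τ) (z : Fz q σ τ) (hs : |s| ≤ 1 / 10 ^ 7) (φ : ι → ℝ) {v : ι}
    (hv : v ∈ σ.rem) (x : ι) : τ.N v (SV σ s φ (σ.Pf τ v) v x) ^ 2 ≤ 5 / 2 * sx σ φ x := by
  have a1 := ((h.hn v hv).sum' (σ.Sv v) (hc σ (wv σ s v) φ x) (σ.Pf τ v)).trans
    (sum_le_sum fun y hy => mul_le_mul_of_nonneg_right (hc1 h hs φ v x hy) ((h.hn v hv).nn _))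
  refine (pow_le_pow_left₀ ((h.hn v hv).nn _) a1 2).trans
    ((sum_mul_sq_le_sq_mul_sq _ _ _).trans ?_)
  rw [mul_comm]
  exact mul_le_mul ((sum_le_sum_of_subset_of_nonneg (Sv_sub v) fun _ _ _ => sq_nonneg _).trans
    (z.f2 v hv)) (sum_le_sum_of_subset_of_nonneg (Sv_op v) fun _ _ _ => sq_nonneg _)
    (sum_nonneg fun _ _ => sq_nonneg _) (by norm_num)

/-- heavy and light rows -/
theorem A2P (hq : q.OK) (h : Fy q σ τ) (z : Fz q σ τ) (hs : |s| ≤ 1 / 10 ^ 7) (φ : ι → ℝ) {x : ι}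
    (hx : x ∈ σ.Op) :
    ∑ v ∈ σ.rem.erase x, τ.N v (σ.Pf τ v x) ^ 2 * τ.N v (SV σ s φ (σ.Pf τ v) v x) ^ 2 ≤
      182 / q.P ^ 100 * sx σ φ x := by
  have hP : 0 < q.P := lt_of_lt_of_le (by norm_num) hq.P9
  have hη := hq.η0
  set m := q.η ^ 2 / q.P ^ 100 with hm
  have m0 : 0 < m := by positivity
  have s0 := sx0 (σ := σ) φ x
  have h1 : ∀ v ∈ σ.rem.erase x,
      τ.N v (σ.Pf τ v x) ^ 2 * τ.N v (SV σ s φ (σ.Pf τ v) v x) ^ 2 ≤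
        2 * m * τ.N v (SV σ s φ (σ.Pf τ v) v x) ^ 2 +
          5 * sx σ φ x * (τ.Nh v (σ.Γ x) ^ 4 / m + τ.μ x v ^ 2) := fun v hv => by
    obtain ⟨a, hv⟩ := mem_erase.1 hv
    have a1 := pow_le_pow_left₀ ((h.hn v hv).nn _) (z.f1 v hv x (mem_union_left _ hx) a.symm).1 2
    have a2 : τ.Nh v (σ.Γ x) ^ 2 ≤ m + τ.Nh v (σ.Γ x) ^ 4 / m := by
      have : 0 ≤ (τ.Nh v (σ.Γ x) ^ 2 - m) ^ 2 / m := by positivity
      have e : (τ.Nh v (σ.Γ x) ^ 2 - m) ^ 2 / m =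
          τ.Nh v (σ.Γ x) ^ 4 / m - 2 * τ.Nh v (σ.Γ x) ^ 2 + m := by field_simp; ring
      linarith [sq_nonneg (τ.Nh v (σ.Γ x))]
    have a3 : τ.N v (σ.Pf τ v x) ^ 2 ≤ 2 * m + 2 * (τ.Nh v (σ.Γ x) ^ 4 / m + τ.μ x v ^ 2) := by
      nlinarith [sq_nonneg (τ.Nh v (σ.Γ x) - τ.μ x v)]
    have a4 := mul_le_mul_of_nonneg_right a3 (sq_nonneg (τ.N v (SV σ s φ (σ.Pf τ v) v x)))
    have a5 := mul_le_mul_of_nonneg_left (supP h z hs φ hv x)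
      (show 0 ≤ τ.Nh v (σ.Γ x) ^ 4 / m + τ.μ x v ^ 2 by positivity)
    linarith
  refine (sum_le_sum h1).trans ((sum_le_sum_of_subset_of_nonneg (erase_subset x σ.rem)
    fun v _ _ => by positivity).trans ?_)
  rw [sum_add_distrib, ← mul_sum, ← mul_sum, sum_add_distrib, ← sum_div]
  have h2 : 2 * m * ∑ v ∈ σ.rem, τ.N v (SV σ s φ (σ.Pf τ v) v x) ^ 2 ≤
      162 * (1 / q.P ^ 100 * sx σ φ x) :=
    (mul_le_mul_of_nonneg_left (A1P hq h z hs φ x) (by positivity)).trans_eq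
      (by rw [hm]; field_simp; ring)
  have h3 : (∑ v ∈ σ.rem, τ.Nh v (σ.Γ x) ^ 4) / m ≤ 3 * (1 / q.P ^ 100) := by
    rw [div_le_iff₀ m0]
    refine (z.Γ3 x hx).trans ((mul_le_mul_of_nonneg_left hq.n3 (by norm_num)).trans_eq ?_)
    rw [hm]; field_simp
  have h4 := mul_le_mul_of_nonneg_left (add_le_add h3 ((h.u1 x).trans hq.ν1))
    (show 0 ≤ 5 * sx σ φ x by positivity)
  have e : 182 / q.P ^ 100 * sx σ φ x = 182 * (1 / q.P ^ 100 * sx σ φ x) := by ring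
  linarith

/-- the form of a majorant -/
noncomputable def QD (σ : Co ι) (D : ι → ι → ℝ) (v : ι) (φ ψ : ι → ℝ) : ℝ :=
  ∑ u, D v u * ∑ x ∈ σ.Sv v, ‖σ.G x u‖ ^ 2 * ((φ x - φ v) * (ψ x - ψ v))

theorem QD0 {D : ι → ι → ℝ} (D0 : ∀ v u, 0 ≤ D v u) (v : ι) (φ : ι → ℝ) : 0 ≤ QD σ D v φ φ :=
  sum_nonneg fun u _ => mul_nonneg (D0 v u) (sum_nonneg fun _ _ =>
    mul_nonneg (sq_nonneg _) (mul_self_nonneg _))

theorem QD_eq (D : ι → ι → ℝ) (v : ι) (φ ψ : ι → ℝ) : QD σ D v φ ψ =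
    ∑ x ∈ σ.Sv v, (∑ u, D v u * ‖σ.G x u‖ ^ 2) * ((φ x - φ v) * (ψ x - ψ v)) := by
  simp only [QD, mul_sum, sum_mul, mul_assoc]
  exact sum_comm

theorem QD_cs {D : ι → ι → ℝ} (D0 : ∀ v u, 0 ≤ D v u) (v : ι) (φ ψ : ι → ℝ) :
    QD σ D v φ ψ ^ 2 ≤ QD σ D v φ φ * QD σ D v ψ ψ := by
  have r0 : ∀ x, 0 ≤ ∑ u, D v u * ‖σ.G x u‖ ^ 2 := fun x =>
    sum_nonneg fun u _ => mul_nonneg (D0 v u) (sq_nonneg _)
  simp only [QD_eq]
  exact sum_sq_le_sum_mul_sum_of_sq_le_mul _ (fun x _ => mul_nonneg (r0 x) (mul_self_nonneg _))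
    (fun x _ => mul_nonneg (r0 x) (mul_self_nonneg _)) fun x _ => le_of_eq (by ring)

theorem QD_sum (h : Fy q σ τ) {D : ι → ι → ℝ} {c : ℝ} (D0 : ∀ v u, 0 ≤ D v u)
    (DO : ∀ v ∈ σ.rem, ∀ u ∉ σ.Op, D v u = 0) (Dc : ∀ u, ∑ v ∈ σ.rem, D v u ≤ c) (φ : ι → ℝ) :
    ∑ v ∈ σ.rem, QD σ D v φ φ ≤
      2 * c * ∑ x ∈ σ.Op, ∑ y ∈ σ.Op, ‖σ.G x y‖ ^ 2 * (φ x - φ y) ^ 2 +
        11 / 5 * ∑ v ∈ σ.rem, ∑ u, D v u * (φ u - φ v) ^ 2 := by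
  set F : ι → ℝ := fun u => ∑ x ∈ σ.Op, ‖σ.G u x‖ ^ 2 * (φ u - φ x) ^ 2 with hF
  have F0 : ∀ u, 0 ≤ F u := fun u => sum_nonneg fun _ _ => by positivity
  have h1 : ∀ v ∈ σ.rem, QD σ D v φ φ ≤
      2 * ∑ u ∈ σ.Op, D v u * F u + 11 / 5 * ∑ u, D v u * (φ u - φ v) ^ 2 := fun v hv => by
    rw [sum_subset (subset_univ σ.Op) fun u _ hu => by rw [DO v hv u hu, zero_mul], mul_sum,
      mul_sum, ← sum_add_distrib]
    refine sum_le_sum fun u _ => ?_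
    by_cases hu : u ∈ σ.Op
    · have a1 : ∑ x ∈ σ.Sv v, ‖σ.G x u‖ ^ 2 * ((φ x - φ v) * (φ x - φ v)) ≤
          2 * F u + 11 / 5 * (φ u - φ v) ^ 2 := by
        refine (sum_le_sum_of_subset_of_nonneg (Sv_op v) fun _ _ _ =>
          mul_nonneg (sq_nonneg _) (mul_self_nonneg _)).trans ((sum_le_sum
            (g := fun x => 2 * (‖σ.G u x‖ ^ 2 * (φ u - φ x) ^ 2) +
              2 * (φ u - φ v) ^ 2 * ‖σ.G u x‖ ^ 2) fun x _ => ?_).trans ?_)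
        · rw [h.sG x u]
          nlinarith [mul_nonneg (sq_nonneg ‖σ.G u x‖) (sq_nonneg ((φ u - φ x) + (φ u - φ v)))]
        · rw [sum_add_distrib, ← mul_sum, ← mul_sum]
          linarith [mul_le_mul_of_nonneg_left (h.row u hu) (sq_nonneg (φ u - φ v))]
      linarith [mul_le_mul_of_nonneg_left a1 (D0 v u)]
    · simp [DO v hv u hu]
  refine (sum_le_sum h1).trans ?_
  have h2 : ∑ v ∈ σ.rem, ∑ u ∈ σ.Op, D v u * F u ≤ c * ∑ u ∈ σ.Op, F u := by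
    rw [sum_comm, mul_sum]
    exact sum_le_sum fun u _ => by rw [← sum_mul]; exact mul_le_mul_of_nonneg_right (Dc u) (F0 u)
  rw [sum_add_distrib, ← mul_sum, ← mul_sum]
  linarith

end F5B

end Pool.Agent.P.MP_d0f69c_mp.XS.Pre
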