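import Pool.Agent.P.MP_d0f69c_mp.XS.PIfT
import Pool.Agent.P.MP_d0f69c_mp.XS.PShift

/-!
Small quantities that come from the majorants.
-/

set_option autoImplicit false

open Finset Real
open scoped Matrix

namespace Pool.Agent.P.MP_d0f69c_mp.XS.Pre

theorem t_psm : S_PSM := by
  intro d M _ E q S c Z Sg h r K κ ν1 ν hp X _ ω D D2 mu hs
  have hE := h.hE
  have hq := h.hq
  have sc := h.scl
  have n0 : 0 ≤ ν1 := hs.m0.trans hs.m2
  have e1 : q.eps ≤ 1 / 10 ^ 12 := h.nq.ε1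
  have n1 : ν1 ≤ (1 / 10 ^ 8) ^ 2 := by
    rw [← Real.sq_sqrt n0]
    exact pow_le_pow_left₀ (sqrt_nonneg _) (by linarith [hp.k3]) 2
  have a1 : ∀ x, ‖Ax E S ω X x x‖ ≤ 1 / 10 ^ 8 := fun x =>
    (hs.al0 x x).trans ((hs.al1 x).trans hp.k1)
  have a2 : ∀ x ∈ S.O \ X, ∀ y ∈ S.O \ X, x ≠ y → ‖Ax E S ω X x y‖ ^ 2 ≤ D y x :=
    fun x hx y hy e => (pow_le_pow_left₀ (norm_nonneg _) (hs.al0 x y) 2).trans (hs.alD x hx y hy e)
  refine ⟨fun x hx y hy => ?_, fun x hx => ?_, ?_, fun φ => ?_, fun hd => ?_⟩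
  · by_cases e : x = y
    · subst e
      exact (a1 x).trans (by norm_num)
    · refine le_trans (le_of_sq_le_sq ((a2 x hx y hy e).trans (le_trans ?_ ((hs.row y).trans n1)))
        (by norm_num)) (by norm_num)
      exact single_le_sum (fun u _ => hs.tot.nn y u) (mem_univ x)
  · rw [← add_sum_erase _ _ hx]
    have b1 := pow_le_pow_left₀ (norm_nonneg _) (a1 x) 2
    have b2 : ∑ y ∈ (S.O \ X).erase x, ‖Ax E S ω X x y‖ ^ 2 ≤ ν1 :=
      ((sum_le_sum fun y hy => a2 x hx y (mem_of_mem_erase hy) (ne_of_mem_erase hy).symm).trans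
        (sum_le_univ_sum_of_nonneg fun y => hs.tot.nn y x)).trans (hs.tot.col' hs.pm x)
    linarith
  · exact (((h.smk.wal _ _).opLe h.smk.pm).sub (subset_univ _)).mono (by norm_num)
  · have hN := NF_nonneg hE.ref.p0 φ
    have l0 : (0 : ℝ) < E.l0 := by exact_mod_cast hE.ref.l1
    have b := shift_ker hE.d1 h.L0 (C := E.CS * NF E.p φ) l0 hs.m0 (F := φ)
      (fun z => (hE.ref.shift z φ).trans_eq (by ring)) hs.far.nn (hs.far.row' hs.pm)
      fun u => (sum_le_sum fun v _ => mul_le_mul_of_nonneg_left (exp_le_exp.2 (hp.rL v u))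
        (hs.far.nn v u)).trans (hs.far.col u)
    have c1 := hE.ref.c1
    have b1 : ν ≤ q.nu := by linarith [hp.ν0, hs.m0]
    have b2 : NF E.p φ ≤ Nm E.p φ := le_add_of_nonneg_right (by positivity)
    calc _ = ∑ v, ∑ u, D2 v u * (φ v - φ u) ^ 2 :=
        sum_congr rfl fun v _ => sum_congr rfl fun u _ => by ring
      _ ≤ _ := b
      _ = 1600 * ν * E.CS * (1 + ((d * (2 * q.L) : ℕ) : ℝ) ^ 2 / (E.l0 : ℝ) ^ 2) * NF E.p φ := by
        ring
      _ ≤ 1 / (q.P : ℝ) ^ 20 * Nm E.p φ :=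
        mul_le_mul (le_trans (by gcongr) h.L2) b2 hN (by positivity)
      _ = _ := by ring
  · have L0 : (0 : ℝ) < q.L := by exact_mod_cast h.L0
    have L1 : (q.L : ℝ) ≤ q.li E.η 2 := by exact_mod_cast h.L1.trans (hq.l_le_li hE 2)
    have l0 := L0.trans_le L1
    have D0 : ∀ v u, 0 ≤ DH D v u := fun v u =>
      add_nonneg (hs.tot.nn v u) (by split_ifs <;> norm_num)
    have t1 : 2 * exp (-(q.P : ℝ) ^ 7) ≤ 1 := by
      rw [exp_neg, ← div_eq_mul_inv, div_le_one (exp_pos _)]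
      linarith [add_one_le_exp ((q.P : ℝ) ^ 7), one_le_pow₀ (n := 7) (hq.Pone hE)]
    have key : ∀ v, ∀ y ∈ (S.O \ X) \ bl v (q.D E.η 2), no (DH D v) (E.G S X ω y) ^ 2 ≤
        Scl.fw q.P (q.li E.η 2) (q.D E.η 2) (y - v) := by
      intro v y hy
      obtain ⟨h1, h2⟩ := mem_sdiff.1 hy
      have f1 := (single_le_sum (fun z _ => Scl.fw0 z) (mem_univ (y - v))).trans sc.fw_sum'
      have f0 := Scl.fw0 (P := q.P) (l := q.li E.η 2) (D := q.D E.η 2) (y - v)
      have g : ∀ u, ‖E.G S X ω y u‖ ^ 2 ≤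
          exp (r v u) * Scl.fw q.P (q.li E.η 2) (q.D E.η 2) (y - v) ^ 2 := fun u => by
        refine (pow_le_pow_left₀ (norm_nonneg _) ((hd y (mem_sdiff.1 h1).1 u).trans
          (mul_le_mul_of_nonneg_right (hq.Bi_le (by norm_num)) (exp_pos _).le)) 2).trans ?_
        rw [Scl.fw, if_pos (not_le.1 fun a => h2 (mem_bl.2 a)), ew]
        simp only [← exp_add, ← exp_nat_mul, exp_le_exp]
        have i1 : (nm (y - v) : ℝ) ≤ nm (y - u) + nm (v - u) := by
          rw [nm_comm v]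
          exact_mod_cast nm_tri y u v
        have i2 := (div_le_div_of_nonneg_left (Nat.cast_nonneg (nm (v - u))) L0 L1).trans (hp.rL v u)
        have i3 := div_le_div_of_nonneg_right i1 l0.le
        have i4 : (0 : ℝ) ≤ nm (y - u) / q.li E.η 2 := by positivity
        have i5 : -(nm (y - v) : ℝ) / (2 * q.li E.η 2) = -(nm (y - v) / q.li E.η 2) / 2 := by ring
        rw [add_div] at i3
        rw [i5, neg_div]
        push_cast
        linarith
      have g2 : ∑ u, DH D v u * exp (r v u) ≤ 2 := by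
        simp only [DH, add_mul, sum_add_distrib, ite_mul, zero_mul, sum_ite_eq', mem_univ, if_true,
          hs.pm.zero, exp_zero]
        linarith [hs.tot.row v]
      rw [no_sq (D0 v)]
      refine (sum_le_sum fun u _ => mul_le_mul_of_nonneg_left (g u) (D0 v u)).trans ?_
      simp only [← mul_assoc, ← sum_mul]
      nlinarith [mul_le_mul_of_nonneg_right g2 (sq_nonneg
        (Scl.fw q.P (q.li E.η 2) (q.D E.η 2) (y - v))), mul_le_mul_of_nonneg_left f1 f0]
    have hc : (#(Z \ X) : ℝ) ≤ exp ((q.P : ℝ) ^ 2) := by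
      refine le_trans (Nat.cast_le.2 ?_) (t_far d M _ _ hE hq).1
      have := hq.A_grow' hE
      exact (card_le_card (sdiff_subset.trans (h.hZ.trans (inter_subset_right.trans
        (ball_mono c (by omega)))))).trans_eq (card_ball _ _)
    refine (sum_le_card_nsmul _ _ (exp (-(q.P : ℝ) ^ 7)) fun v _ => ?_).trans ?_
    · refine ((sum_le_sum (key v)).trans (sum_le_univ_sum_of_nonneg fun _ => Scl.fw0 _)).trans
        (le_trans (le_of_eq ?_) sc.fw_sum')
      exact Equiv.sum_comp (Equiv.subRight v) _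
    · rw [nsmul_eq_mul]
      refine (mul_le_mul_of_nonneg_right hc (exp_pos _).le).trans ?_
      rw [← exp_add, exp_le_one_iff]
      linarith [hq.pow_le hE (show 2 ≤ 7 by norm_num)]

end Pool.Agent.P.MP_d0f69c_mp.XS.Pre
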