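import Pool.Agent.P.MP_d0f69c_mp.XS.Flow
import Pool.Agent.P.MP_d0f69c_mp.XS.PFL
import Pool.Agent.P.MP_d0f69c_mp.XS.PD
import Pool.Agent.P.MP_d0f69c_mp.XS.PFP
import Pool.Agent.P.MP_d0f69c_mp.XS.PZ
import Pool.Agent.P.MP_d0f69c_mp.XS.PL
import Pool.Agent.P.MP_d0f69c_mp.XS.P4
import Pool.Agent.P.MP_d0f69c_mp.XS.PF5A
import Pool.Agent.P.MP_d0f69c_mp.XS.PF5B
import Pool.Agent.P.MP_d0f69c_mp.XS.P6A
import Pool.Agent.P.MP_d0f69c_mp.XS.P6B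
import Pool.Agent.P.MP_d0f69c_mp.XS.PGS
import Pool.Agent.P.MP_d0f69c_mp.XS.PGF
import Pool.Agent.P.MP_d0f69c_mp.XS.PGO
import Pool.Agent.P.MP_d0f69c_mp.XS.PCH
import Pool.Agent.P.MP_d0f69c_mp.XS.PHI
import Pool.Agent.P.MP_d0f69c_mp.XS.PA1
import Pool.Agent.P.MP_d0f69c_mp.XS.PA4
import Pool.Agent.P.MP_d0f69c_mp.XS.PA5
import Pool.Agent.P.MP_d0f69c_mp.XS.PA6
import Pool.Agent.P.MP_d0f69c_mp.XS.PST
import Pool.Agent.P.MP_d0f69c_mp.XS.PWD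
import Pool.Agent.P.MP_d0f69c_mp.XS.PULH
import Pool.Agent.P.MP_d0f69c_mp.XS.PDEC
import Pool.Agent.P.MP_d0f69c_mp.XS.PFAR
import Pool.Agent.P.MP_d0f69c_mp.XS.PFF
import Pool.Agent.P.MP_d0f69c_mp.XS.PSM
import Pool.Agent.P.MP_d0f69c_mp.XS.PR
import Pool.Agent.P.MP_d0f69c_mp.XS.PFX
import Pool.Agent.P.MP_d0f69c_mp.XS.PBr

/-!
The preparatory flow of one finite system succeeds with high probability.
-/

namespace Pool.Agent.P.MP_d0f69c_mp.XS.Pre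

theorem all_pflow : S_PFLOW :=
  t_pflow <| t_pfl (t_pa1 t_gs t_pd t_pz t_pp t_pa t_pl) (t_pa4 (t_go t_potc) t_pd t_p4)
    (t_pa5 (t_gf t_pot) t_pd t_p5a t_p5b) (t_pa6 (t_go t_potc) t_pd t_p6a t_p6b) t_pdec
    (t_pulh t_pch t_pff t_loci) (t_pfx t_pr t_pdec t_pfar t_pwd t_psm t_pci) (t_pst t_pwd t_nmb)
    t_phi t_nmb (t_ph t_indep)

end Pool.Agent.P.MP_d0f69c_mp.XS.Pre
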