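import Pool.Agent.P.MP_d0f69c_mp.XS.PIfG

/-!
Gluing block of the preparation stage: the retarded-retarded matrix at the end.
-/

set_option autoImplicit false

open Finset Real
open scoped Matrix

namespace Pool.Agent.P.MP_d0f69c_mp.XS.Pre

namespace PG6A

section generic

variable {ι : Type} [Fintype ι] [DecidableEq ι]

/-- a chain of Schur complements of matrices with unit diagonal -/
theorem chain {κ : ι → ℕ} {T Z : Finset ι} (hκ : Function.Injective κ) (hZ : Z ⊆ T)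
    (A : Finset ι → ι → ι → ℂ) (hA : ∀ X v, A X v v = 1) (t : ℕ) :
    RS T (A ∅) (T \ pre κ Z t) (A (pre κ Z t)) fun x y => ∑ v ∈ pre κ Z t,
      if x ∈ (T \ pre κ Z (κ v)).erase v ∧ y ∈ (T \ pre κ Z (κ v)).erase v then
        A (insert v (pre κ Z (κ v))) x y -
          (A (pre κ Z (κ v)) x y - A (pre κ Z (κ v)) x v * A (pre κ Z (κ v)) v y) else 0 := by
  induction t with
  | zero =>
    simp only [pre_zero, sdiff_empty, sum_empty]
    exact (t_fs ι).2.2.2.1 T _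
  | succ t ih =>
    by_cases hv : ∃ v ∈ Z, κ v = t
    swap
    · rwa [pre_succ' (κ := κ) (Z := Z) (t := t) fun v a b => hv ⟨v, a, b⟩]
    obtain ⟨v, hv, rfl⟩ := hv
    have vT : v ∈ T \ pre κ Z (κ v) := mem_sdiff.2 ⟨hZ hv, not_mem_pre v⟩
    have s := (t_step ι).2 _ (A (pre κ Z (κ v))) (A (pre κ Z (κ v + 1))) v vT (by
      rw [hA]; exact one_ne_zero)
    have r := (t_fs ι).2.2.2.2.1 _ _ _ _ _ _ _ _ ih s
    have eT : T \ pre κ Z (κ v + 1) = (T \ pre κ Z (κ v)).erase v := by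
      rw [pre_succ hκ hv, sdiff_insert]
    rw [eT]
    refine (congrArg (RS T (A ∅) _ _) ?_).mp r
    funext x y
    rw [Pi.add_apply, Pi.add_apply, pre_succ hκ hv, sum_insert (not_mem_pre v), add_comm]
    congr 1
    simp only [mem_erase, hA, div_one]
    by_cases h1 : x ≠ v <;> by_cases h2 : y ≠ v <;> simp [h1, h2]

omit [Fintype ι] [DecidableEq ι] in
theorem csq {a b : ℂ} {B δ : ℝ} (ha : ‖a‖ ≤ B) (hb : ‖b‖ ≤ B) (h : ‖a - b‖ ≤ δ) :
    ‖a ^ 2 - b ^ 2‖ ≤ 2 * B * δ := by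
  rw [sq_sub_sq, norm_mul]
  exact mul_le_mul ((norm_add_le a b).trans (by linarith)) h (norm_nonneg _)
    (by linarith [norm_nonneg a])

/-- new matrix minus the Schur complement of the old one -/
noncomputable def dd (G G' : Matrix ι ι ℂ) (v x y : ι) : ℂ :=
  Am0 G' x y - (Am0 G x y - Am0 G x v * Am0 G v y)

omit [Fintype ι] in
theorem dd_eq (G G' : Matrix ι ι ℂ) {v x y : ι} (hx : x ≠ v) (hy : y ≠ v) :
    dd G G' v x y = (if x = y then 0 else G x y ^ 2 - G' x y ^ 2) + G x v ^ 2 * G v y ^ 2 := by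
  simp only [dd, Am0, if_neg hx, if_neg hy.symm]
  split_ifs <;> ring

omit [Fintype ι] in
theorem far1 {G G' : Matrix ι ι ℂ} {v x y : ι} {B a b : ℝ} (hx : x ≠ v) (hy : y ≠ v) (hB : 1 ≤ B)
    (h1 : ‖G x y‖ ≤ B) (h2 : ‖G' x y‖ ≤ B) (h3 : ‖G' x y - G x y‖ ≤ a * b) (h4 : ‖G x v‖ ≤ B)
    (h5 : ‖G x v‖ ≤ a) (h6 : ‖G v y‖ ≤ B) (h7 : ‖G v y‖ ≤ b) :
    ‖dd G G' v x y‖ ≤ 3 * B ^ 2 * (a * b) := by
  have a0 : 0 ≤ a := (norm_nonneg _).trans h5
  have b0 : 0 ≤ b := (norm_nonneg _).trans h7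
  have p : 0 ≤ a * b := mul_nonneg a0 b0
  have k1 := csq h1 h2 ((norm_sub_rev _ _).trans_le h3)
  have k2 : ‖G x v ^ 2 * G v y ^ 2‖ ≤ B * a * (B * b) := by
    rw [norm_mul, norm_pow, norm_pow, sq, sq]
    exact mul_le_mul (mul_le_mul h4 h5 (norm_nonneg _) (by linarith))
      (mul_le_mul h6 h7 (norm_nonneg _) (by linarith)) (by positivity) (by positivity)
  have k3 : B * (a * b) ≤ B ^ 2 * (a * b) := mul_le_mul_of_nonneg_right (by nlinarith) p
  have k4 : 0 ≤ B * (a * b) := by positivity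
  rw [dd_eq G G' hx hy]
  refine (norm_add_le _ _).trans ?_
  split_ifs
  · rw [norm_zero]; nlinarith
  · nlinarith

omit [Fintype ι] in
theorem near1 {G G' H H' : Matrix ι ι ℂ} {v x y : ι} {B δ : ℝ} (hx : x ≠ v) (hy : y ≠ v)
    (hB : 1 ≤ B) (g1 : ‖G x y‖ ≤ B) (g2 : ‖G' x y‖ ≤ B) (g3 : ‖G x v‖ ≤ B) (g4 : ‖G v y‖ ≤ B)
    (h1 : ‖H x y‖ ≤ B) (h2 : ‖H' x y‖ ≤ B) (h3 : ‖H x v‖ ≤ B) (h4 : ‖H v y‖ ≤ B)
    (c1 : ‖G x y - H x y‖ ≤ δ) (c2 : ‖G' x y - H' x y‖ ≤ δ) (c3 : ‖G x v - H x v‖ ≤ δ)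
    (c4 : ‖G v y - H v y‖ ≤ δ) : ‖dd G G' v x y - dd H H' v x y‖ ≤ 8 * B ^ 3 * δ := by
  have δ0 : 0 ≤ δ := (norm_nonneg _).trans c1
  have k1 := csq g1 h1 c1
  have k2 := csq g2 h2 c2
  have k3 := csq g3 h3 c3
  have k4 := csq g4 h4 c4
  have b1 : ‖G x v ^ 2‖ ≤ B ^ 2 := by
    rw [norm_pow]; exact pow_le_pow_left₀ (norm_nonneg _) g3 2
  have b2 : ‖H v y ^ 2‖ ≤ B ^ 2 := by
    rw [norm_pow]; exact pow_le_pow_left₀ (norm_nonneg _) h4 2
  have k5 : ‖G x v ^ 2 * (G v y ^ 2 - H v y ^ 2) + (G x v ^ 2 - H x v ^ 2) * H v y ^ 2‖ ≤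
      B ^ 2 * (2 * B * δ) + 2 * B * δ * B ^ 2 := by
    refine (norm_add_le _ _).trans ?_
    rw [norm_mul, norm_mul]
    exact add_le_add (mul_le_mul b1 k4 (norm_nonneg _) (by positivity))
      (mul_le_mul k3 b2 (norm_nonneg _) (by positivity))
  have k6 : B * δ ≤ B ^ 3 * δ := mul_le_mul_of_nonneg_right (le_self_pow₀ hB (by norm_num)) δ0
  have k7 : 0 ≤ B * δ := by positivity
  have e : dd G G' v x y - dd H H' v x y =
      (if x = y then 0 else (G x y ^ 2 - H x y ^ 2) - (G' x y ^ 2 - H' x y ^ 2)) +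
        (G x v ^ 2 * (G v y ^ 2 - H v y ^ 2) + (G x v ^ 2 - H x v ^ 2) * H v y ^ 2) := by
    rw [dd_eq G G' hx hy, dd_eq H H' hx hy]
    split_ifs <;> ring
  rw [e]
  refine (norm_add_le _ _).trans ?_
  split_ifs
  · rw [norm_zero]; nlinarith
  · nlinarith [norm_sub_le (G x y ^ 2 - H x y ^ 2) (G' x y ^ 2 - H' x y ^ 2)]

end generic

variable {d M : ℕ} [NeZero M]

theorem dec_ew {G : Matrix (Tor d M) (Tor d M) ℂ} {O : Finset (Tor d M)} {B P : ℝ} {l : ℕ}
    (h : Dec G O B l) (hB : B ≤ exp (P ^ 6)) (hl : 1 ≤ l) {x : Tor d M} (hx : x ∈ O)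
    (z : Tor d M) : ‖G x z‖ ≤ ew P l (x - z) := by
  refine (h x hx z).trans (mul_le_mul hB (exp_le_exp.2 ?_) (exp_pos _).le (exp_pos _).le)
  have : (1 : ℝ) ≤ l := by exact_mod_cast hl
  rw [neg_div, neg_div, neg_le_neg_iff]
  exact div_le_div_of_nonneg_left (Nat.cast_nonneg _) (by linarith) (by linarith)

end PG6A

open PG6A in
theorem t_pg6 : S_PG6 := by
  intro d M _ E q S J ω κ h gd gc
  have hE := h.hE
  have hq := h.hq
  have sc := h.scl
  have hP := hq.Ppos hE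
  have hP9 := hq.P9 hE
  have DA : q.D E.η 2 ≤ q.A E.η d := Par.OK.D_le_A hE
  have eA : d * q.D E.η 2 = q.A E.η d := rfl
  set B := exp ((q.P : ℝ) ^ 6) with hB
  have B8 : 8 ≤ B := by
    have := hq.pow_lt hE (a := 0) (b := 6) (c := 8) (by norm_num) (by norm_num)
    linarith [add_one_le_exp ((q.P : ℝ) ^ 6)]
  have hBi : q.Bi 2 ≤ B := hq.Bi_le (by norm_num)
  have l1 := hq.li_one hE 2
  have bd : ∀ {G : Matrix (Tor d M) (Tor d M) ℂ}, Dec G S.O (q.Bi 2) (q.li E.η 2) →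
      ∀ {x}, x ∈ S.O → ∀ z, ‖G x z‖ ≤ B := fun a x hx z =>
    (dec_ew a hBi l1 hx z).trans (ew_le _ _ _)
  set T := S.good \ J with hT
  have TO : ∀ {x}, x ∈ T → x ∈ S.O := fun hx => S.good_sub (mem_sdiff.1 hx).1
  have ZT : Zg S J ⊆ T := sdiff_subset_sdiff sdiff_subset subset_rfl
  set Y : Tor d M → Tor d M → Tor d M → ℂ := fun v x y =>
    if x ∈ (T \ Xv S J κ v).erase v ∧ y ∈ (T \ Xv S J κ v).erase v then
      dAP E S (Xv S J κ v) ω v x y else 0 with hY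
  have c := chain (T := T) (Z := Zg S J) h.inj ZT (fun X => Am0 (E.G S X ω))
    (fun X v => if_pos rfl) (univ.sup κ + 1)
  have c1 : T \ Zg S J = S.sig \ J := by
    ext x
    have u := @h.sel.sg x
    simp only [hT, Zg, mem_sdiff]
    tauto
  simp only [pre_end, c1, G_empty] at c
  have far := sc.far_rr T (Zg S J) Y fun v hv x hx y hy => by
    have e0 := mul_pos (ew_pos q.P (q.li E.η 2) (x - v)) (ew_pos q.P (q.li E.η 2) (y - v))
    simp only [hY]
    split_ifs with a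
    swap
    · rw [norm_zero]; positivity
    have d0 := gd.dec (κ v)
    have d1 := gd.dec (κ v + 1)
    rw [pre_succ h.inj hv] at d1
    have vO := TO (ZT hv)
    refine (far1 (mem_erase.1 a.1).1 (mem_erase.1 a.2).1 (by linarith : 1 ≤ B) (bd d0 (TO hx) y)
      (bd d1 (TO hx) y) (gc.stp v hv x (TO hx) y (TO hy)) (bd d0 (TO hx) v)
      (dec_ew d0 hBi l1 (TO hx) v) (bd d0 vO y)
      ((congrArg norm (h.G_symm _ v y)).trans_le (dec_ew d0 hBi l1 (TO hy) v))).trans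
      (mul_le_mul_of_nonneg_right ?_ e0.le)
    have e3 : exp (3 * (q.P : ℝ) ^ 6) = B * B ^ 2 := by
      rw [hB, ← pow_succ', ← exp_nat_mul]; norm_num
    rw [e3]
    exact mul_le_mul_of_nonneg_right (by linarith) (sq_nonneg _)
  have r0 : 0 ≤ q.r6 := add_nonneg (mul_nonneg (by norm_num) h.e0) (by positivity)
  have near := sc.near_rr T (Zg S J) Y (fun p v x y => Y6P E q S
    (Zq E q S J p ∪ (S.sig \ J) ∩ bl p (5 * q.A E.η d)) (pre κ (Zq E q S J p) (κ v)) ω v x y) r0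
    (fun p v x y a => if_neg fun b => a ⟨(mem_inter.1 (mem_of_mem_erase b.1)).2,
      (mem_inter.1 (mem_of_mem_erase b.2)).2⟩) (fun p => ?_) fun p v hv x hx y hy => ?_
  · have t0 := hq.θ0
    have t1 := hq.θ_add hE (c := 1) (by norm_num)
    have p3 : 0 < 1 / (q.P : ℝ) ^ 3 := by positivity
    have p4 : 1 / (q.P : ℝ) ^ 4 ≤ 1 / (q.P : ℝ) ^ 3 :=
      one_div_le_one_div_of_le (by positivity) (hq.pow_le hE (by norm_num))
    have e2 : 2 / (q.P : ℝ) ^ 3 = 2 * (1 / (q.P : ℝ) ^ 3) := by ring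
    have r1 : q.r6 ≤ 1 / 100 := by rw [PPar.r6]; linarith [h.e1]
    have rr : Disc S.good (Am0 (E.G0 S)) (q.θ + 1 / (q.P : ℝ) ^ 3) := h.inv.rr
    refine ((t_fs _).2.2.2.2.2 _ _ _ _ _ _ _ c
      (rr.compress (by linarith) (by linarith) sdiff_subset) (by linarith) (by linarith)
      (by linarith) (by linarith) ((far.add near).congr fun x _ y _ => ?_)).mono (by linarith)
    rw [Pi.add_apply, Pi.add_apply, ← sum_add_distrib]
    refine sum_congr rfl fun v _ => ?_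
    change Y v x y = _
    split_ifs
    exacts [(zero_add _).symm, (add_zero _).symm]
  · rw [eA]
    rcases h.flow p with a | a
    · have e : Zg S J ∩ bl p (q.A E.η d) = ∅ := eq_empty_of_forall_notMem fun v hv =>
        (mem_sdiff.1 (mem_inter.1 hv).1).2 (a (ball_mono p (by omega) (mem_inter.1 hv).2))
      intro u
      have e2 : ∀ F : Tor d M → Tor d M → Tor d M → ℂ,
          ap univ (fun x y => ∑ v ∈ Zg S J ∩ bl p (q.A E.η d), F v x y) u = (0 : ℂ) • u :=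
        fun F => funext fun x => by simp [e, ap]
      rw [e2, nS_smul, norm_zero]
      exact mul_le_mul_of_nonneg_right r0 (nS_nonneg _ _)
    · have eZ : Zq E q S J p ∩ bl p (q.A E.η d) = Zg S J ∩ bl p (q.A E.η d) := by
        rw [inter_assoc, inter_eq_right.2 (ball_mono p (by omega))]
      rw [← eZ]
      exact a.y6
  · rw [eA] at hv
    obtain ⟨vZ, vp⟩ := mem_inter.1 hv
    have vp := mem_bl.1 vp
    have nr : ∀ z, z ∈ bl v (q.D E.η 2) → nm (z - p) ≤ 2 * q.A E.η d := fun z hz => by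
      have h1 := mem_bl.1 hz
      have h3 := nm_tri z v p
      omega
    have e : ∀ z ∈ bl v (q.D E.η 2), z ∈ (((Zq E q S J p ∪ (S.sig \ J) ∩ bl p (5 * q.A E.η d)) \
        pre κ (Zq E q S J p) (κ v)) ∩ bl v (q.D E.η 2)).erase v ↔
        z ∈ (T \ Xv S J κ v).erase v := fun z hz => by
      have h1 : z ∈ bl p (5 * q.A E.η d) := mem_bl.2 (by have := nr z hz; omega)
      have h2 : z ∈ S.sig → z ∈ S.good := fun hz => h.sel.sg hz
      simp only [hT, Zg, pre_inter, mem_erase, mem_inter, mem_sdiff, mem_union, h1, hz]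
      tauto
    simp only [hY, Y6P, e x (mem_inter.1 hx).2, e y (mem_inter.1 hy).2]
    split_ifs with a
    swap
    · rw [sub_self, norm_zero]; exact (exp_pos _).le
    have vq : v ∈ Zq E q S J p := mem_inter.2 ⟨vZ, mem_bl.2 (by omega)⟩
    have xO := TO (mem_inter.1 hx).1
    have yO := TO (mem_inter.1 hy).1
    have vO := TO (ZT vZ)
    have xp : nm (x - p) ≤ 4 * q.A E.η d := by have := nr x (mem_inter.1 hx).2; omega
    have d0 := gd.dec (κ v)
    have d1 := gd.dec (κ v + 1)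
    have d2 := gd.decp p (κ v)
    have d3 := gd.decp p (κ v + 1)
    have c2 := gc.cls p (κ v + 1) x xO y yO xp
    rw [pre_succ h.inj vZ] at d1 c2
    rw [pre_succ h.inj vq] at d3 c2
    refine (near1 (mem_erase.1 a.1).1 (mem_erase.1 a.2).1 (by linarith : 1 ≤ B) (bd d0 xO y)
      (bd d1 xO y) (bd d0 xO v) (bd d0 vO y) (bd d2 xO y) (bd d3 xO y) (bd d2 xO v) (bd d2 vO y)
      (gc.cls p (κ v) x xO y yO xp) c2 (gc.cls p (κ v) x xO v vO xp)
      (gc.cls p (κ v) v vO y yO (by omega))).trans ?_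
    calc _ ≤ B * B ^ 3 * exp (-(q.P : ℝ) ^ 7 / 2) := by gcongr
      _ ≤ _ := by
        rw [hB, ← exp_nat_mul, ← exp_add, ← exp_add, exp_le_exp]
        have := hq.pow_lt hE (a := 6) (b := 7) (c := 40) (by norm_num) (by norm_num)
        push_cast
        linarith [pow_pos hP 7]

end Pool.Agent.P.MP_d0f69c_mp.XS.Pre
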