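import Pool.Agent.P.MP_d0f69c_mp.XS.PG5

/-!
The local flows of the preparation stage glue.
-/

set_option autoImplicit false

open Finset Real
open scoped Matrix

namespace Pool.Agent.P.MP_d0f69c_mp.XS.Pre

variable {d M : ℕ} [NeZero M] {E : PEnv d M} {q : PPar d M} {S : St (Tor d M)}
  {J : Finset (Tor d M)} {ω : Tor d M → Bool} {κ : Tor d M → ℕ}

omit [NeZero M] in
theorem pclose_O (sg : S.sig ⊆ S.good) (go : Disjoint S.good S.omg) (gj : Disjoint S.good S.junk) :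
    (pclose S J ω).O = S.O \ Zg S J := by
  ext x
  have c1 := @sg x
  have c2 : x ∈ S.good → x ∉ S.omg := fun a => disjoint_left.1 go a
  have c3 : x ∈ S.good → x ∉ S.junk := fun a => disjoint_left.1 gj a
  simp only [St.O, pclose, Zg, mem_union, mem_sdiff, mem_inter]
  tauto

omit [NeZero M] in
theorem pclose_om : om (pclose S J ω) = mix (Zg S J) ω (om S) := by
  funext x
  by_cases c : x ∈ Zg S J <;> simp [om, pclose, mix, c]

theorem pglue (h1 : S_PG1) (h2 : S_PG2) (h3 : S_PG3) (h4 : S_PG4) (h6 : S_PG6) (h7 : S_PG7)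
    (h8 : S_PG8) (H : PGH E q S J ω κ) : PInv E (q.b2 E.η) (pclose S J ω) := by
  have gd := h1 d M E q S J ω κ H
  have gc := h2 d M E q S J ω κ H gd
  obtain ⟨a1, a2, a3⟩ := h7 d M E q S J ω κ H gd gc
  have a4 := h8 d M E q S J ω κ H gd gc
  have h := H.inv
  have hs := H.sel
  have hO : (pclose S J ω).O = S.O \ Zg S J := pclose_O hs.sg h.go h.gj
  have eG : E.G0 (pclose S J ω) = E.G S (Zg S J) ω := by rw [PEnv.G0, hO, pclose_om]; rfl
  have eΓ : E.Γ0 (pclose S J ω) = E.Γ S (Zg S J) ω := by rw [PEnv.Γ0, hO, pclose_om]; rfl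
  have ea : E.a0 (pclose S J ω) = E.a S (Zg S J) ω := by rw [PEnv.a0, hO, pclose_om]; rfl
  have sg : S.sig \ J ⊆ S.good := sdiff_subset.trans hs.sg
  have hP := H.hq.Ppos H.hE
  have e0 := H.e0
  have e1 := H.e1
  have eC : q.eps ≤ q.eps * q.C0 := le_mul_of_one_le_right e0 H.C1
  have p0 : 0 < 1 / (q.P : ℝ) ^ 3 := by positivity
  have p4 : 1 / (q.P : ℝ) ^ 4 ≤ 1 / (q.P : ℝ) ^ 3 :=
    one_div_le_one_div_of_le (by positivity) (H.hq.pow_le H.hE (by norm_num))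
  have p5 : 1 / (q.P : ℝ) ^ 5 ≤ 1 / (q.P : ℝ) ^ 3 / 100 := by
    rw [div_div]
    exact one_div_le_one_div_of_le (by positivity)
      (mul_comm _ (100 : ℝ) ▸ H.hq.pow_lt H.hE (by norm_num) (by norm_num))
  have t1 : q.θ + 1 / (q.P : ℝ) ^ 3 ≤ 1 / 10 ^ 7 := H.hq.θ_add H.hE (c := 1) (by norm_num)
  have t0 := H.hq.θ0
  have da : q.da ≤ 1000 * q.eps + 1 / (q.P : ℝ) ^ 3 / 100 := by rw [PPar.da]; linarith [H.k1]
  have d0 : 0 ≤ q.da := add_nonneg (mul_nonneg (by norm_num) H.k0) (by positivity)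
  have b1 : (q.b1 E.η).θ = q.θ + 1 / (q.P : ℝ) ^ 3 := rfl
  have b2 : (q.b2 E.η).θ = q.θ + 1 / (q.P : ℝ) ^ 3 +
      (10 ^ 7 * (q.eps * q.C0) + 10 * (1 / (q.P : ℝ) ^ 3)) := by
    simp only [PPar.b2, PPar.cost]; ring
  refine ⟨h.go.mono_left sg, ?_, ?_, h.oΩ, h.sg, eΓ ▸ a1, ?_, ?_, ?_, ?_, ?_, ?_,
    hs.lev1.mono sdiff_subset subset_rfl le_rfl, hs.lev2.mono sdiff_subset subset_rfl le_rfl,
    fun v hv u hu => h.iso v (sg hv) u (mem_sdiff.1 (hO ▸ hu)).1⟩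
  · refine disjoint_union_right.2 ⟨h.gj.mono_left sg, ?_⟩
    exact disjoint_left.2 fun x hx hx' => (mem_sdiff.1 hx).2 (mem_inter.1 hx').2
  · exact disjoint_union_right.2 ⟨h.oj, h.go.symm.mono_right inter_subset_left⟩
  · rw [hO, eΓ]; exact a2
  · rw [hO, eΓ]; exact fun x hx => (a4 x hx).1
  · rw [hO, eΓ]; exact fun x hx => (a4 x hx).2
  · have a5 : ∀ x ∈ S.O \ Zg S J, 1 / 2 ≤ E.a0 S x := fun x hx => by
      linarith [(abs_le.1 (H.a1 x (mem_sdiff.1 hx).1)).1]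
    have s0 : q.sig = 10 ^ 5 * q.eps := rfl
    have f4 : 4 / (q.P : ℝ) ^ 3 = 4 * (1 / (q.P : ℝ) ^ 3) := by ring
    rw [hO, eG, ea]
    refine PG5.ul_mono H.hE.ref.p0 (PG5.ul_wt H.hE.ref.p0 (PG5.ul_end H h3 h4 gd gc)
      (s := 4 * q.da) (by rw [b1, s0, f4]; linarith) (by linarith) (by linarith)
      (fun x hx => by linarith [a5 x hx]) fun x hx => (a3 x hx).trans (by nlinarith [a5 x hx])) ?_
    have c1 := mul_le_mul_of_nonneg_right (by linarith : q.da ≤ 1 / 1000) (e0.trans eC)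
    have c2 := mul_le_mul_of_nonneg_left (by linarith :
      1 + (q.θ + 1 / (q.P : ℝ) ^ 3 + 7 * (10 ^ 5 * q.eps) + 4 * (1 / (q.P : ℝ) ^ 3)) ≤ 2) d0
    rw [b1, b2, s0, f4]
    linarith
  · rw [eG]
    refine (h6 d M E q S J ω κ H gd gc).mono ?_
    rw [b2, PPar.r6, show 2 / (q.P : ℝ) ^ 3 = 2 * (1 / (q.P : ℝ) ^ 3) by ring]
    linarith
  · have c := gd.dec (univ.sup κ + 1)
    rw [pre_end] at c
    rw [hO, eG]
    exact fun x hx => c x (mem_sdiff.1 hx).1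

end Pool.Agent.P.MP_d0f69c_mp.XS.Pre
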