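import Pool.Agent.P.MP_d0f69c_mp.XS.PH
import Pool.Agent.P.MP_d0f69c_mp.XS.Indep

/-!
Closing along a common clock: timed histories.
-/

set_option autoImplicit false

open Finset Real

namespace Pool.Agent.P.MP_d0f69c_mp.XS.Pre

variable {ι : Type} [DecidableEq ι]

/-- timed histories: one entry for each level, the latest level first -/
abbrev TH (ι : Type) := List (Option (ι × Bool))

/-- the sites closed in a history -/
def sites : TH ι → Finset ι
  | [] => ∅
  | none :: h => sites h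
  | some z :: h => insert z.1 (sites h)

/-- the closed sites are distinct elements of `Z` -/
def Val (Z : Finset ι) : TH ι → Prop
  | [] => True
  | none :: h => Val Z h
  | some z :: h => z.1 ∈ Z \ sites h ∧ Val Z h

/-- the history follows the levels `w` and the coins `ω`, from the level `a` on -/
def HistF (Z : Finset ι) (ω : ι → Bool) (w : ι → ℕ) (a : ℕ) : TH ι → Prop
  | [] => True
  | none :: h => (∀ v ∈ Z, w v ≠ a + h.length) ∧ HistF Z ω w a h
  | some z :: h => (z.1 ∈ Z ∧ w z.1 = a + h.length ∧ z.2 = ω z.1) ∧ HistF Z ω w a h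

/-- the history follows the levels `w` and the coins `ω` -/
abbrev Hist (Z : Finset ι) (ω : ι → Bool) (w : ι → ℕ) (h : TH ι) : Prop := HistF Z ω w 0 h

/-- a potential on timed histories that grows in the mean by the factor `β` on each level as long
as `OK` holds -/
def S_PHT : Prop :=
  ∀ (ι : Type) [Fintype ι] [DecidableEq ι] (K K0 : ℕ) [NeZero K] (Z : Finset ι) (OK : TH ι → Prop)
    (Ψ : TH ι → ℝ) (β : ℝ), K0 ≤ K → 1 ≤ β → (∀ h, 0 ≤ Ψ h) → (∀ h, ¬ OK h → 1 ≤ Ψ h) →
    (∀ h : TH ι, h.length < K0 → Val Z h → OK h →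
      Ψ (none :: h) + (∑ v ∈ Z \ sites h, ((Ψ (some (v, true) :: h) + Ψ (some (v, false) :: h)) / 2 -
        Ψ (none :: h))) / ((K : ℝ) - h.length) ≤ β * Ψ h) →
    pr (fun z : (ι → Bool) × (ι → Fin K) => ¬ Set.InjOn z.2 Z ∨
      ∃ h : TH ι, h.length ≤ K0 ∧ Hist Z z.1 (fun x => z.2 x) h ∧ ¬ OK h) ≤
      Ψ [] * β ^ K0 + (Z.card : ℝ) ^ 2 / K

variable {Z : Finset ι} {ω : ι → Bool} {w : ι → ℕ} {a : ℕ}

omit [DecidableEq ι] in
/-- histories of every length exist -/
theorem exists_hist (Z : Finset ι) (ω : ι → Bool) (w : ι → ℕ) (t : ℕ) :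
    ∃ h : TH ι, h.length = t ∧ Hist Z ω w h := by
  induction t with
  | zero => exact ⟨[], rfl, trivial⟩
  | succ t ih =>
    obtain ⟨h, rfl, h2⟩ := ih
    by_cases c : ∃ v ∈ Z, w v = h.length
    · obtain ⟨v, v1, v2⟩ := c
      exact ⟨some (v, ω v) :: h, rfl, ⟨v1, by simpa using v2, rfl⟩, h2⟩
    · exact ⟨none :: h, rfl, fun v hv e => c ⟨v, hv, by simpa using e⟩, h2⟩

omit [DecidableEq ι] in
theorem HistF.tail {e : Option (ι × Bool)} {h : TH ι} (H : HistF Z ω w a (e :: h)) :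
    HistF Z ω w a h := by cases e <;> exact H.2

/-- the closed sites of a history are the sites below the present level -/
theorem Hist.sites_eq (hw : Set.InjOn w Z) : ∀ {h : TH ι}, Hist Z ω w h →
    sites h = pre w Z h.length
  | [], _ => by simp [sites, pre]
  | none :: h, H => by
    rw [sites, Hist.sites_eq hw H.2]
    ext x
    simp only [pre, mem_filter, List.length_cons, Nat.lt_succ_iff_lt_or_eq]
    exact ⟨fun c => ⟨c.1, Or.inl c.2⟩, fun c => ⟨c.1, c.2.resolve_right (by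
      simpa using H.1 x c.1)⟩⟩
  | some z :: h, H => by
    rw [sites, Hist.sites_eq hw H.2]
    obtain ⟨⟨z1, z2, -⟩, -⟩ := H
    rw [zero_add] at z2
    ext x
    simp only [pre, mem_insert, mem_filter, List.length_cons, Nat.lt_succ_iff_lt_or_eq]
    exact ⟨fun c => c.elim (fun e => e ▸ ⟨z1, Or.inr z2⟩) fun c => ⟨c.1, Or.inl c.2⟩,
      fun c => c.2.elim (fun e => Or.inr ⟨c.1, e⟩) fun e => Or.inl (hw c.1 z1 (e.trans z2.symm))⟩

theorem Hist.val (hw : Set.InjOn w Z) : ∀ {h : TH ι}, Hist Z ω w h → Val Z h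
  | [], _ => trivial
  | none :: h, H => Hist.val hw (h := h) H.2
  | some z :: h, H => ⟨mem_sdiff.2 ⟨H.1.1, by
      rw [Hist.sites_eq hw H.2, pre, mem_filter, H.1.2.1]; simp⟩, Hist.val hw H.2⟩

namespace PHTA

theorem sites_app (e : Option (ι × Bool)) : ∀ l : TH ι, sites (l ++ [e]) = sites l ∪ sites [e]
  | [] => by simp [sites]
  | none :: l => sites_app e l
  | some z :: l => by
    rw [List.cons_append, sites, sites, sites_app e l, insert_union]

theorem val_none : ∀ {l : TH ι}, Val Z l → Val Z (l ++ [none])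
  | [], _ => trivial
  | none :: l, H => val_none (l := l) H
  | some _ :: l, H => ⟨by rw [List.append_eq, sites_app]; simpa [sites] using H.1, val_none H.2⟩

theorem sd_some (z : ι × Bool) (l : TH ι) : Z \ sites (l ++ [some z]) = Z.erase z.1 \ sites l := by
  ext x
  simp only [sites_app, sites, mem_sdiff, mem_union, mem_insert, notMem_empty, mem_erase]
  tauto

theorem val_some {z : ι × Bool} (hz : z.1 ∈ Z) : ∀ {l : TH ι}, Val (Z.erase z.1) l →
    Val Z (l ++ [some z])
  | [], _ => ⟨by simpa [sites] using hz, trivial⟩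
  | none :: l, H => val_some hz (l := l) H
  | some _ :: l, H => ⟨by rw [List.append_eq, sd_some]; exact H.1, val_some hz H.2⟩

omit [DecidableEq ι] in
/-- the oldest entry of a history -/
theorem hist_app {Z' : Finset ι} (e : Option (ι × Bool)) (hZ : Z' ⊆ Z)
    (h2 : ∀ x ∈ Z, x ∉ Z' → w x = a) : ∀ {l : TH ι}, HistF Z ω w a (l ++ [e]) →
    HistF Z' ω w (a + 1) l ∧ HistF Z ω w a [e]
  | [], H => ⟨trivial, H⟩
  | none :: l, H => ⟨⟨fun v hv c => H.1 v (hZ hv) (by simp [c]; omega),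
      (hist_app e hZ h2 H.2).1⟩, (hist_app e hZ h2 H.2).2⟩
  | some z :: l, H => by
    have c : w z.1 = a + 1 + l.length := by have := H.1.2.1; simp at this; omega
    exact ⟨⟨⟨by_contra fun n => by have := h2 _ H.1.1 n; omega, c, H.1.2.2⟩,
      (hist_app e hZ h2 H.2).1⟩, (hist_app e hZ h2 H.2).2⟩

omit [DecidableEq ι] in
theorem hist_dep {ω' : ι → Bool} {w' : ι → ℕ} (h1 : ∀ x ∈ Z, ω x = ω' x) (h2 : ∀ x ∈ Z, w x = w' x) :
    ∀ {l : TH ι}, HistF Z ω w a l → HistF Z ω' w' a l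
  | [], _ => trivial
  | none :: _, H => ⟨fun v hv => h2 v hv ▸ H.1 v hv, hist_dep h1 h2 H.2⟩
  | some _ :: _, H => ⟨⟨H.1.1, h2 _ H.1.1 ▸ H.1.2.1, h1 _ H.1.1 ▸ H.1.2.2⟩, hist_dep h1 h2 H.2⟩

variable [Fintype ι] {K : ℕ} [NeZero K]

/-- the event of the induction -/
def Ev (Z : Finset ι) (OK : TH ι → Prop) (a s : ℕ) (ξ : ι → Bool × Fin K) : Prop :=
  (∀ x ∈ Z, ∀ y ∈ Z, (ξ x).2 = (ξ y).2 → x = y) ∧ (∀ x ∈ Z, a ≤ (ξ x).2) ∧
    ∃ h : TH ι, h.length ≤ s ∧ HistF Z (fun x => (ξ x).1) (fun x => (ξ x).2) a h ∧ ¬ OK h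

omit [Fintype ι] [DecidableEq ι] [NeZero K] in
theorem Ev.dep {OK : TH ι → Prop} {s : ℕ} (ξ ξ' : ι → Bool × Fin K) (e : ∀ x ∈ Z, ξ x = ξ' x)
    (H : Ev Z OK a s ξ) : Ev Z OK a s ξ' := by
  obtain ⟨h1, h2, l, h3, h4, h5⟩ := H
  exact ⟨fun x hx y hy c => h1 x hx y hy (by rw [e x hx, e y hy, c]), fun x hx => e x hx ▸ h2 x hx,
    l, h3, hist_dep (fun x hx => by rw [e x hx]) (fun x hx => by rw [e x hx]) h4, h5⟩

/-- one level: nothing happens or one site is closed -/
theorem level {B B0 : (ι → Bool × Fin K) → Prop} {B1 : ι × Bool → (ι → Bool × Fin K) → Prop}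
    {m : ℕ} {c0 : ℝ} {c : ι × Bool → ℝ}
    (hB : ∀ ξ, B ξ → B0 ξ ∨ ∃ z ∈ Z ×ˢ (univ : Finset Bool),
      ((ξ z.1).1 = z.2 ∧ (ξ z.1).2.val = a) ∧ B1 z ξ)
    (hd : ∀ z ξ ξ', (∀ x ∈ Z.erase z.1, ξ x = ξ' x) → B1 z ξ → B1 z ξ')
    (h0 : pr B0 ≤ c0 * (m.descFactorial Z.card / K ^ Z.card))
    (h1 : ∀ z, z.1 ∈ Z → pr (B1 z) ≤
      c z * (m.descFactorial (Z.erase z.1).card / K ^ (Z.erase z.1).card)) :
    pr B ≤ (c0 + (∑ v ∈ Z, ((c (v, true) + c (v, false)) / 2 - c0)) / (m + 1)) *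
      ((m + 1).descFactorial Z.card / K ^ Z.card) := by
  have hK : (0 : ℝ) < K := by exact_mod_cast NeZero.pos K
  refine (pr_mono hB).trans ((pr_or _ _).trans ((add_le_add h0 ((pr_ex _ _).trans
    (sum_le_sum (g := fun z => c z / 2 / (m + 1) * ((m + 1).descFactorial Z.card / K ^ Z.card))
      fun z hz => ?_))).trans_eq ?_))
  · have z1 := (mem_product.1 hz).1
    rw [PHA.ind2 t_indep z.1 _ (notMem_erase z.1 Z) (fun k : Bool × Fin K => k.1 = z.2 ∧ k.2.val = a)
      _ (hd z)]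
    refine (mul_le_mul (PHA.pt z.2 a) (h1 z z1) (pr_nonneg _) (by positivity)).trans_eq ?_
    rw [← card_erase_add_one z1, Nat.succ_descFactorial_succ]
    push_cast
    field_simp
    ring
  · have e : ((m + 1 : ℝ) - Z.card) * (m + 1).descFactorial Z.card =
        (m + 1) * m.descFactorial Z.card := by
      rcases le_or_gt Z.card (m + 1) with c | c
      · exact_mod_cast congrArg (Nat.cast (R := ℝ)) (Nat.succ_descFactorial m Z.card)
      · rw [Nat.descFactorial_of_lt c, Nat.descFactorial_of_lt (by omega)]; simp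
    rw [← sum_mul, ← sum_div, sum_product, sum_sub_distrib, sum_const, nsmul_eq_mul]
    simp only [Fintype.sum_bool, ← add_div]
    field_simp
    linear_combination -c0 * e

theorem main {β : ℝ} (hβ : 1 ≤ β) (m : ℕ) : ∀ (a s : ℕ) (Z : Finset ι) (OK : TH ι → Prop)
    (Ψ : TH ι → ℝ), a + m = K → s ≤ m → (∀ h, 0 ≤ Ψ h) → (∀ h, ¬ OK h → 1 ≤ Ψ h) →
    (∀ h : TH ι, h.length < s → Val Z h → OK h →
      Ψ (none :: h) + (∑ v ∈ Z \ sites h, ((Ψ (some (v, true) :: h) + Ψ (some (v, false) :: h)) / 2 -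
        Ψ (none :: h))) / ((m : ℝ) - h.length) ≤ β * Ψ h) →
    pr (Ev (K := K) Z OK a s) ≤ Ψ [] * β ^ s * (m.descFactorial Z.card / K ^ Z.card) := by
  have low : ∀ {OK : TH ι → Prop} {Ψ : TH ι → ℝ} (s : ℕ), (∀ h, ¬ OK h → 1 ≤ Ψ h) → ¬ OK [] →
      1 ≤ Ψ [] * β ^ s := fun s h1 c => one_le_mul_of_one_le_of_one_le (h1 _ c) (one_le_pow₀ hβ)
  induction m with
  | zero =>
    intro a s Z OK Ψ ha hs h0 h1 _
    by_cases c : OK [] ∨ Z.Nonempty
    · rw [pr_false]
      · have := h0 []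
        positivity
      · rintro ξ ⟨-, h2, l, h3, -, h5⟩
        rcases c with c | ⟨x, hx⟩
        · obtain rfl : l = [] := List.length_eq_zero_iff.1 (by omega)
          exact h5 c
        · have := h2 x hx
          have := (ξ x).2.2
          omega
    · rw [not_or, not_nonempty_iff_eq_empty] at c
      rw [c.2]
      simpa using (pr_le_one _).trans (low s h1 c.1)
  | succ m ih =>
    intro a s Z OK Ψ ha hs h0 h1 h2
    have up : ∀ {OK' : TH ι → Prop} {s' : ℕ} {ξ : ι → Bool × Fin K} {v : ι}, Ev Z OK a s ξ →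
        v ∈ Z → (ξ v).2.val = a → ∀ l : TH ι, l.length ≤ s' →
        HistF (Z.erase v) (fun x => (ξ x).1) (fun x => (ξ x).2) (a + 1) l → ¬ OK' l →
        Ev (Z.erase v) OK' (a + 1) s' ξ := fun {_ _ ξ v} H hv e l l1 l2 l3 =>
      ⟨fun x hx y hy => H.1 x (mem_of_mem_erase hx) y (mem_of_mem_erase hy), fun x hx =>
        (H.2.1 x (mem_of_mem_erase hx)).lt_of_ne fun c => (mem_erase.1 hx).1
          (H.1 x (mem_of_mem_erase hx) v hv (Fin.ext (c.symm.trans e.symm))), l, l1, l2, l3⟩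
    by_cases c : OK []
    · rcases s with _ | s
      · rw [pr_false]
        · have := h0 []
          positivity
        · rintro ξ ⟨-, -, l, h3, -, h5⟩
          obtain rfl : l = [] := List.length_eq_zero_iff.1 (by omega)
          exact h5 c
      have k : ∀ l : TH ι, ∀ e, ((m + 1 : ℕ) : ℝ) - (l ++ [e]).length = m - l.length :=
        fun l e => by simp
      refine (level (a := a) (m := m) (B0 := Ev Z (fun l => OK (l ++ [none])) (a + 1) s)
        (B1 := fun z => Ev (Z.erase z.1) (fun l => OK (l ++ [some z])) (a + 1) s)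
        (c0 := Ψ [none] * β ^ s) (c := fun z => Ψ [some z] * β ^ s) (fun ξ H => ?_)
        (fun z => Ev.dep) ?_ fun z hz => ?_).trans (mul_le_mul_of_nonneg_right ?_ (by positivity))
      · obtain ⟨l, h3, h4, h5⟩ := H.2.2
        obtain rfl | ⟨l, e, rfl⟩ := l.eq_nil_or_concat'
        · exact absurd c h5
        have h6 : l.length ≤ s := by simpa using h3
        rcases e with _ | z
        · obtain ⟨h7, h8⟩ := hist_app none Subset.rfl (fun x a b => absurd a b) h4
          exact Or.inl ⟨H.1, fun x hx => (H.2.1 x hx).lt_of_ne fun e =>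
            h8.1 x hx (by simpa using e.symm), l, h6, h7, h5⟩
        · obtain ⟨⟨z1, z2, z3⟩, -⟩ := (hist_app _ Subset.rfl (fun x a b => absurd a b) h4).2
          have z4 : (ξ z.1).2.val = a := by simpa using z2
          refine Or.inr ⟨z, by simpa using z1, ⟨z3.symm, z4⟩, up H z1 z4 l h6
            (hist_app _ (erase_subset _ _) (fun x a b => ?_) h4).1 h5⟩
          obtain rfl : x = z.1 := by_contra fun n => b (mem_erase.2 ⟨n, a⟩)
          exact z4
      · refine ih (a + 1) s Z _ (fun l => Ψ (l ++ [none])) (by omega) (by omega) (fun _ => h0 _)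
          (fun _ => h1 _) fun l l1 l2 l3 => ?_
        have := h2 (l ++ [none]) (by simpa using l1) (val_none l2) l3
        rwa [k, sites_app, show sites ([none] : TH ι) = ∅ from rfl, union_empty] at this
      · refine ih (a + 1) s _ _ (fun l => Ψ (l ++ [some z])) (by omega) (by omega) (fun _ => h0 _)
          (fun _ => h1 _) fun l l1 l2 l3 => ?_
        have := h2 (l ++ [some z]) (by simpa using l1) (val_some hz l2) l3
        rwa [k, sd_some] at this
      · have := mul_le_mul_of_nonneg_right (h2 [] (by simp) trivial c) (by positivity : 0 ≤ β ^ s)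
        simp only [sites, sdiff_empty, List.length_nil, Nat.cast_zero, sub_zero, Nat.cast_succ]
          at this
        refine le_trans (le_of_eq ?_) (this.trans_eq (by ring))
        rw [add_mul, div_mul_eq_mul_div, sum_mul]
        congr 2
        exact sum_congr rfl fun v _ => by ring
    · have one : ∀ Z : Finset ι, pr (Ev (K := K) Z (fun _ => False) (a + 1) 0) ≤
          1 * (m.descFactorial Z.card / K ^ Z.card) := fun Z => by
        simpa using ih (a + 1) 0 Z (fun _ => False) (fun _ => 1) (by omega) (Nat.zero_le _)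
          (fun _ => zero_le_one) (fun _ _ => le_rfl) fun _ l1 => absurd l1 (Nat.not_lt_zero _)
      refine (level (a := a) (m := m) (B0 := Ev Z (fun _ => False) (a + 1) 0)
        (B1 := fun z => Ev (Z.erase z.1) (fun _ => False) (a + 1) 0) (c0 := 1) (c := fun _ => 1)
        (fun ξ H => ?_) (fun z => Ev.dep) (one Z) fun z _ => one _).trans
        (mul_le_mul_of_nonneg_right (by simpa using low s h1 c) (by positivity))
      by_cases e : ∃ v ∈ Z, (ξ v).2.val = a
      · obtain ⟨v, v1, v2⟩ := e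
        exact Or.inr ⟨(v, (ξ v).1), by simpa using v1, ⟨rfl, v2⟩,
          up H v1 v2 [] le_rfl trivial not_false⟩
      · exact Or.inl ⟨H.1, fun x hx => (H.2.1 x hx).lt_of_ne fun c => e ⟨x, hx, c.symm⟩, [], le_rfl,
          trivial, not_false⟩

end PHTA

open PHTA in
theorem t_pht : S_PHT := by
  intro ι _ _ K K0 _ Z OK Ψ β hK0 hβ h0 h1 h2
  have hK : (0 : ℝ) < K := by exact_mod_cast NeZero.pos K
  rw [← pr_pair]
  refine (pr_mono (B := fun ξ => Ev Z OK 0 K0 ξ ∨ ∃ p ∈ Z.offDiag, (ξ p.1).2 = (ξ p.2).2) ?_).trans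
    ((pr_or _ _).trans (add_le_add ((main hβ K 0 K0 Z OK Ψ (zero_add K) hK0 h0 h1 h2).trans ?_)
      ((pr_ex_le _ _ fun p hp => PHA.tie t_indep (mem_offDiag.1 hp).2.2).trans ?_)))
  · intro ξ H
    refine or_iff_not_imp_right.2 fun hn => ?_
    have k5 : ∀ x ∈ Z, ∀ y ∈ Z, (ξ x).2 = (ξ y).2 → x = y := fun x hx y hy e =>
      by_contra fun c => hn ⟨(x, y), mem_offDiag.2 ⟨hx, hy, c⟩, e⟩
    exact ⟨k5, fun _ _ => Nat.zero_le _, H.resolve_left fun c => c fun x hx y hy => k5 x hx y hy⟩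
  · refine mul_le_of_le_one_right (mul_nonneg (h0 _) (by positivity))
      (div_le_one_of_le₀ ?_ (by positivity))
    exact_mod_cast Nat.descFactorial_le_pow K Z.card
  · rw [mul_one_div]
    refine div_le_div_of_nonneg_right ?_ hK.le
    rw [offDiag_card, sq]
    exact_mod_cast Nat.sub_le _ _

end Pool.Agent.P.MP_d0f69c_mp.XS.Pre
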