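import Pool.Agent.P.MP_d0f69c_mp.XS.PIfF

/-!
Interfaces inside the block of the preparatory flow: monitors on histories, on an arbitrary finite
set.
-/

set_option autoImplicit false
set_option linter.dupNamespace false

open Finset Real
open scoped Matrix

namespace Pool.Agent.P.MP_d0f69c_mp.XS.Pre

section generic

variable {ι : Type} [DecidableEq ι]

/-- the coins of a history -/
def oh : List (ι × Bool) → ι → Bool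
  | [] => fun _ => true
  | z :: h => Function.update (oh h) z.1 z.2

/-- a sum along a history; the term sees the history before the closing -/
noncomputable def Sh {V : Type} [AddCommMonoid V] (f : List (ι × Bool) → ι → Bool → V) :
    List (ι × Bool) → V
  | [] => 0
  | z :: h => Sh f h + f h z.1 z.2

/-- no site is closed twice and `F` holds before every step -/
def Bef (F : List (ι × Bool) → Prop) (h : List (ι × Bool)) : Prop :=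
  ∀ z h', z :: h' <:+ h → z.1 ∉ hs h' ∧ F h'

theorem Bef.tail {F : List (ι × Bool) → Prop} {z : ι × Bool} {h : List (ι × Bool)}
    (a : Bef F (z :: h)) : Bef F h := fun w h' b => a w h' (b.trans (List.suffix_cons z h))

theorem Bef.head {F : List (ι × Bool) → Prop} {z : ι × Bool} {h : List (ι × Bool)}
    (a : Bef F (z :: h)) : z.1 ∉ hs h ∧ F h := a z h List.suffix_rfl

theorem bef_nil (F : List (ι × Bool) → Prop) : Bef F [] := fun _ _ a => by simp at a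

theorem Bef.cons {F : List (ι × Bool) → Prop} {z : ι × Bool} {h : List (ι × Bool)} (a : Bef F h)
    (b : z.1 ∉ hs h) (c : F h) : Bef F (z :: h) := fun w h' e => by
  rcases List.suffix_cons_iff.1 e with e | e
  · obtain ⟨rfl, rfl⟩ := List.cons.inj e
    exact ⟨b, c⟩
  · exact a w h' e

end generic

/-- scalar monitors -/
def S_GS : Prop :=
  ∀ (ι : Type) [DecidableEq ι] (Z A : Finset ι) (F : List (ι × Bool) → Prop)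
    (val : List (ι × Bool) → ℝ) (bud : ι → ℝ) (r δ Q L : ℝ), 0 < r → 0 ≤ L → L / r * δ ≤ 1 →
    (L / r) ^ 2 * Q ≤ 1 →
    (∀ h, hs h ⊆ Z → F h → Disjoint A (hs h) → ∃ y : ι → Bool → ℝ,
      (∀ v ∈ (Z \ hs h) \ A, ∀ b, val ((v, b) :: h) ≤ val h + y v b + bud v) ∧
      ∑ v ∈ (Z \ hs h) \ A, (y v true + y v false) ≤ δ ∧
      ∑ v ∈ (Z \ hs h) \ A, (y v true ^ 2 + y v false ^ 2) ≤ Q) →
    HasMon Z F (fun h => Disjoint A (hs h) → val h ≤ val [] + r + ∑ v ∈ hs h, bud v) (exp (-L))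

/-- monitors of forms -/
def S_GF : Prop :=
  ∀ (ι : Type) [Fintype ι] [DecidableEq ι] (Z Z' B : Finset ι) (F : List (ι × Bool) → Prop)
    (N : (ι → ℝ) → (ι → ℝ) → ℝ) (y : List (ι × Bool) → ι → Bool → (ι → ℝ) → ℝ) (r δ Q L : ℝ),
    SB N → (∀ φ, φ ≠ 0 → 0 < N φ φ) → 0 < r → 0 ≤ L → 0 ≤ Q → L / r * δ ≤ 1 →
    (L / r) ^ 2 * Q ≤ 1 →
    (∀ h, hs h ⊆ Z → F h → ∃ Y : ι → Bool → (ι → ℝ) → (ι → ℝ) → ℝ,
      (∀ v ∈ (Z \ hs h) ∩ Z', ∀ b, SB (Y v b) ∧ ∀ φ, y h v b φ ≤ Y v b φ φ) ∧ ∀ φ,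
      ∑ z ∈ ((Z \ hs h) ∩ Z') ×ˢ (univ : Finset Bool), Y z.1 z.2 φ φ ≤ δ * N φ φ ∧
      ∃ w : ι × Bool → ℝ, (∀ z, 0 ≤ w z) ∧
        ∑ z ∈ ((Z \ hs h) ∩ Z') ×ˢ (univ : Finset Bool), w z ≤ Q * N φ φ ∧
        ∀ z ∈ ((Z \ hs h) ∩ Z') ×ˢ (univ : Finset Bool), ∀ ψ,
          Y z.1 z.2 φ ψ ^ 2 ≤ w z * N ψ ψ) →
    HasMon Z F (fun h => Bef F h → ∀ φ : ι → ℝ, (∀ x ∉ B, φ x = 0) →
      Sh (fun h v b => if v ∈ Z' then y h v b φ else 0) h ≤ r * N φ φ) (B.card * exp (-L))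

/-- monitors of kernels -/
def S_GO : Prop :=
  ∀ (ι : Type) [Fintype ι] [DecidableEq ι] (Z Z' B : Finset ι) (F : List (ι × Bool) → Prop)
    (y : List (ι × Bool) → ι → Bool → ι → ι → ℂ) (e : List (ι × Bool) → ι → ι → ℝ) (r δ Q L : ℝ),
    0 < r → 0 ≤ L → 0 ≤ δ → 0 ≤ Q → L / r * δ ≤ 1 → (L / r) ^ 2 * Q ≤ 1 →
    (∀ h v x, 0 ≤ e h v x) →
    (∀ h, hs h ⊆ Z → F h → ∃ Y : ι → Bool → ι → ι → ℂ,
      (∀ v ∈ (Z \ hs h) ∩ Z', ∀ b, (∀ x z, Y v b x z = Y v b z x) ∧ ∀ u u' : ι → ℂ,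
        ‖∑ x ∈ B, ∑ z ∈ B, u x * (y h v b x z - Y v b x z) * u' z‖ ≤
          √(∑ x ∈ B, e h v x * ‖u x‖ ^ 2) * √(∑ x ∈ B, e h v x * ‖u' x‖ ^ 2)) ∧ ∀ u : ι → ℝ,
      ‖∑ w ∈ ((Z \ hs h) ∩ Z') ×ˢ (univ : Finset Bool), ∑ x ∈ B, ∑ z ∈ B,
        u x * Y w.1 w.2 x z * u z‖ ≤ δ * ∑ x ∈ B, u x ^ 2 ∧
      ∑ w ∈ ((Z \ hs h) ∩ Z') ×ˢ (univ : Finset Bool), ∑ x ∈ B,
        ‖∑ z ∈ B, Y w.1 w.2 x z * u z‖ ^ 2 ≤ Q * ∑ x ∈ B, u x ^ 2) →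
    HasMon Z F (fun h => Bef F h → ∀ c : ℝ, 0 ≤ c →
      (∀ x ∈ B, Sh (fun h v _ => if v ∈ Z' then e h v x else 0) h ≤ c) →
      OpLe B (Sh (fun h v b => if v ∈ Z' then y h v b else 0) h) (2 * r + c))
      (4 * B.card * exp (-L))

/-- the chain of the energies along a history, and the harmonic extension -/
def S_PCH : Prop :=
  ∀ (ι : Type) [Fintype ι] [DecidableEq ι] (O : Finset ι) (K : List (ι × Bool) → ι → ι → ℝ)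
    (h : List (ι × Bool)), (∀ h x y, K h x y = K h y x) → Bef (fun _ => True) h → hs h ⊆ O →
    (∀ F, En (O \ hs h) (K h) F = En O (K []) F + Sh (fun h v b =>
      En ((O \ hs h).erase v) (K ((v, b) :: h) - K h) F -
        ∑ x ∈ (O \ hs h).erase v, K h x v * (F x - F v) ^ 2) h) ∧
    ∀ S : List (ι × Bool) → ι → Finset ι, (∀ h v, S h v ⊆ (O \ hs h).erase v) →
      (∀ z h', z :: h' <:+ h → ∑ x ∈ S h' z.1, K h' x z.1 ≠ 0) →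
      ∀ f : ι → ℝ, ∃ g : ι → ℝ, (∀ x ∉ hs h, g x = f x) ∧
        ∀ z h', z :: h' <:+ h → ∑ x ∈ S h' z.1, K h' x z.1 * (g z.1 - g x) = 0

/-- histories that follow the keys -/
def S_PHI : Prop :=
  ∀ (ι : Type) [Fintype ι] [DecidableEq ι] (κ : ι → ℕ) (Z : Finset ι) (ω : ι → Bool),
    Function.Injective κ → ∀ t : ℕ, ∃ h : List (ι × Bool), (h.map Prod.fst).toFinset = pre κ Z t ∧
      (h.map Prod.fst).Pairwise (fun x y => κ y < κ x) ∧ (∀ w ∈ h, w.2 = ω w.1) ∧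
      Bef (fun _ => True) h ∧ (∀ x ∈ pre κ Z t, oh h x = ω x) ∧
      (∀ z h', z :: h' <:+ h → z.1 ∈ pre κ Z t ∧ hs h' = pre κ Z (κ z.1)) ∧
      ∀ (V : Type) [AddCommMonoid V] (f : Finset ι → (ι → Bool) → ι → V),
        (∀ X ω ω' v, (∀ x ∈ insert v X, ω x = ω' x) → f X ω v = f X ω' v) →
        Sh (fun h v b => f (hs h) (oh ((v, b) :: h)) v) h =
          ∑ v ∈ pre κ Z t, f (pre κ Z (κ v)) ω v

/-- a system: fixed data, and the matrices and step data after every history -/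
structure Sy (ι : Type) where
  a : ι → ℝ
  Kk : ι → ι → ℝ
  H : ι → ι → ℝ
  O : Finset ι
  Rw : Finset ι
  Z : Finset ι
  Sg : Finset ι
  Bl : ι → Finset ι
  N : (ι → ℝ) → (ι → ℝ) → ℝ
  G : List (ι × Bool) → ι → ι → ℂ
  al : List (ι × Bool) → ι → ι → ℂ
  au : List (ι × Bool) → Au ι

namespace Sy

variable {ι : Type} [Fintype ι] [DecidableEq ι] (Y : Sy ι)

/-- the mass that has been closed -/
noncomputable def dh (x : ι) : List (ι × Bool) → ℝ :=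
  Sh fun h v _ => if x ∈ (Y.Rw \ hs h).erase v then (Y.au h).Nh v (Y.G h x) ^ 2 else 0

/-- the state after a history -/
noncomputable def co (h : List (ι × Bool)) : Co ι :=
  ⟨Y.G h, Y.al h, fun x => Y.dh x h, Y.a, Y.Kk, Y.H, Y.O \ hs h, Y.Rw \ hs h, Y.Z \ hs h, Y.Sg,
    hs h, Y.Bl⟩

/-- the facts after a history without a trip -/
structure Fa (q : Nq) (h : List (ι × Bool)) : Prop where
  fy : Fy q (Y.co h) (Y.au h)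
  sG : ∀ v ∈ Y.Z \ hs h, ∀ b x y, Y.G ((v, b) :: h) x y =
    Y.G h x y - bf ((Y.au h).T v b) (Y.G h x) (Y.G h y)
  sa : ∀ v ∈ Y.Z \ hs h, ∀ b x y, Y.al ((v, b) :: h) x y =
    Y.al h x y - sgn b * bf ((Y.au h).B v) (Y.al h x) (Y.al h y)
  g4 : ∀ x ∈ Y.Rw \ hs h, ∑ y ∈ Y.Sg, ‖(Y.co h).Γ x y‖ ^ 4 ≤ 2 * q.n
  up : ∀ φ, En (Y.O \ hs h) (fun x y => Y.a x * Y.a y * ‖Y.G h x y‖ ^ 2) φ ≤ 2 * Y.N φ φ
  sh : ∀ φ : ι → ℝ, ∑ v ∈ Y.Z \ hs h, ∑ u, (Y.au h).D2 v u * (φ u - φ v) ^ 2 ≤ Y.N φ φ / q.P ^ 20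

theorem Fa.step {Y : Sy ι} {q : Nq} {h : List (ι × Bool)} (a : Y.Fa q h) {v : ι}
    (hv : v ∈ Y.Z \ hs h) (b : Bool) : Y.co ((v, b) :: h) = (Y.co h).step (Y.au h) v b := by
  simp only [co, Co.step, sdiff_hs_cons, Co.mk.injEq, true_and, and_true]
  exact ⟨funext₂ (a.sG v hv b), funext₂ (a.sa v hv b), rfl, hs_cons _ _⟩

/-- what is known at the start -/
structure St0 (q : Nq) : Prop where
  ok : q.OK
  K0 : ∀ x y, 0 ≤ Y.Kk x y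
  K1 : ∀ x, ∑ y, Y.Kk x y ≤ 1
  H0 : ∀ x y, 0 ≤ Y.H x y
  ZO : Y.Z ⊆ Y.O
  gO : Y.Sg ⊆ Y.O
  Zg : Disjoint Y.Z Y.Sg
  sb : SB Y.N
  pos : ∀ φ, φ ≠ 0 → 0 < Y.N φ φ
  dual : ∀ (ξ ψ : ι → ℝ) (l : ℝ), 0 ≤ l → ∑ x, ξ x ^ 2 ≤ l ^ 2 →
    (∑ x, ξ x * ψ x) ^ 2 ≤ 2 * (l ^ 2 + q.η * l * ∑ x, |ξ x|) * Y.N ψ ψ
  sh : ∀ φ : ι → ℝ, ∑ v, ∑ u, Y.Kk u v * (φ u - φ v) ^ 2 ≤ q.P * Y.N φ φ
  zz : ∀ x ∈ Y.Rw, (Y.co []).Zf q.m1 x ≤ 993 / 1000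
  l1 : ∀ x ∈ Y.Rw, ∑ y ∈ Y.Sg, ‖(Y.co []).Γ x y‖ ^ 4 ≤ q.n / 30
  l2 : ∀ x ∈ Y.Rw, ∑ y ∈ Y.Z, ‖(Y.co []).Γ x y‖ ^ 4 ≤ q.n
  l3 : ∀ x ∈ Y.Rw, ∑ y ∈ Y.O, ‖(Y.co []).Γ x y‖ ^ 4 ≤ q.nJ
  op : OpLe Y.Z (Y.G []) (2 / q.η)

/-- the bounds of the scalar monitors -/
structure Bs (q : Nq) (h : List (ι × Bool)) : Prop where
  pr : ∀ x ∈ Y.Rw \ hs h, ∀ z ∈ Y.Rw \ hs h, ‖(Y.co h).Γ x z - (Y.co []).Γ x z‖ ≤
    2 * (q.m1 + 4 * q.κ * (Y.H x z + q.m1) + 2000 * q.hb)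
  aa : ∀ x ∈ Y.Rw \ hs h, |(Y.al h x x).im / q.η - (Y.al [] x x).im / q.η| ≤ q.κ + 1 / q.P ^ 5
  zz : ∀ x ∈ Y.Rw \ hs h, (Y.co h).Zf q.m1 x ≤ 995 / 1000
  l4 : ∀ x ∈ Y.Rw \ hs h, (Y.co h).q4 q Y.Sg q.n x ≤ q.n / 20
  lJ : ∀ x ∈ Y.Rw \ hs h,
    (Y.co h).q4 q (Y.O \ hs h) q.nJ x ≤ q.nJ + √(q.nJ * q.n) / 50 + q.n / 500

/-- the increment of the form with the sign `t` -/
noncomputable def y5 (q : Nq) (t : ℝ) (φ : ι → ℝ) (h : List (ι × Bool)) (v : ι) (b : Bool) : ℝ :=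
  Pre.y5 t q.ε ((Y.co h).Sv v) ((Y.co h).Kw (t * (10 ^ 5 * q.ε)))
    ((Y.co ((v, b) :: h)).Kw (t * (10 ^ 5 * q.ε))) Y.Kk v φ

/-- the bound of the monitor of the forms, for the closings in `Z'` and functions on `B` -/
def B5 (q : Nq) (Z' B : Finset ι) (h : List (ι × Bool)) : Prop :=
  ∀ t : ℝ, t = 1 ∨ t = -1 → ∀ φ : ι → ℝ, (∀ x ∉ B, φ x = 0) →
    Sh (fun h v b => if v ∈ Z' then Y.y5 q t φ h v b else 0) h ≤ Y.N φ φ / q.P ^ 4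

/-- the bound of the monitor of the retarded-retarded matrix -/
def B6 (q : Nq) (Z' : Finset ι) (h : List (ι × Bool)) : Prop :=
  OpLe univ (Sh (fun h v b => if v ∈ Z' then
    y6 ((Y.co h).Tv v) (Y.G h) (Y.G ((v, b) :: h)) v else 0) h) (10 ^ 5 * q.ε + 1 / q.P ^ 4)

end Sy

/-- a statement about all systems -/
def AllY (X : ∀ (ι : Type) [Fintype ι] [DecidableEq ι], Nq → Sy ι → Prop) : Prop :=
  ∀ (ι : Type) [Fintype ι] [DecidableEq ι] (q : Nq) (Y : Sy ι), Y.St0 q → X ι q Y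

def S_PA1 : Prop := AllY fun _ _ _ q Y =>
  HasMon Y.Z (Y.Fa q) (Y.Bs q) ((4 * Y.Rw.card ^ 2 + 5 * Y.Rw.card) * exp (-(3 * q.P ^ 3)))

def S_PA4 : Prop := AllY fun _ _ _ q Y =>
  HasMon Y.Z (Y.Fa q) (fun h => Bef (Y.Fa q) h → OpLe Y.Z (Y.G h) (q.P ^ 40 / q.η))
    (4 * Y.Z.card * exp (-(3 * q.P ^ 3)))

def S_PA5 : Prop := AllY fun ι _ _ q Y => ∀ Z' B : Finset ι,
  HasMon Y.Z (Y.Fa q) (fun h => Bef (Y.Fa q) h → Y.B5 q Z' B h)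
    (2 * B.card * exp (-(3 * q.P ^ 3)))

def S_PA6 : Prop := AllY fun ι _ _ q Y => ∀ Z' : Finset ι,
  HasMon Y.Z (Y.Fa q) (fun h => Bef (Y.Fa q) h → (∀ x ∈ Y.Rw \ hs h, Y.dh x h ≤ 2000) →
    Y.B6 q Z' h) (4 * (Y.Z ∪ Y.Sg).card * exp (-(3 * q.P ^ 3)))

end Pool.Agent.P.MP_d0f69c_mp.XS.Pre
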