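import Pool.Agent.P.MP_d0f69c_mp.XS.IfAsm
import Pool.Agent.P.MP_d0f69c_mp.XS.PAlg2

/-!
Interfaces inside the block of the preparatory flow: one step on an arbitrary finite set.
-/

set_option autoImplicit false
set_option linter.dupNamespace false

open Finset Real
open scoped Matrix

namespace Pool.Agent.P.MP_d0f69c_mp.XS.Pre

/-- the numbers of the flow -/
structure Nq where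
  P : ℝ
  η : ℝ
  κ : ℝ
  ε : ℝ
  ν : ℝ
  hb : ℝ
  n : ℝ
  nJ : ℝ
  γ : ℝ
  m1 : ℝ

structure Nq.OK (q : Nq) : Prop where
  P9 : 10 ^ 9 ≤ q.P
  η0 : 0 < q.η
  η1 : q.η ≤ 1 / 10 ^ 8
  κ0 : 0 ≤ q.κ
  κ1 : q.κ ≤ q.ε
  ε0 : 0 < q.ε
  ε1 : q.ε ≤ 1 / 10 ^ 12
  ν0 : 0 ≤ q.ν
  ν1 : q.ν ≤ 1 / q.P ^ 100
  ν2 : q.ν ≤ q.ε ^ 2
  h0 : 0 ≤ q.hb
  h1 : q.hb ≤ q.η / q.P ^ 100
  h2 : q.hb ≤ q.ε * q.η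
  h3 : q.hb ^ 4 * q.P ^ 100 ≤ q.η ^ 2 * q.n
  n0 : 0 < q.n
  n1 : q.n ≤ q.nJ
  n2 : q.nJ ≤ q.P ^ 2 * q.n
  n3 : q.nJ ≤ q.η ^ 2 / q.P ^ 200
  n4 : q.κ * q.nJ ≤ q.n / 10 ^ 9
  g0 : 0 ≤ q.γ
  g1 : q.γ ≤ q.ε
  g2 : q.γ ^ 4 * q.P ^ 200 ≤ q.n
  g3 : q.ν * q.γ ^ 2 * q.P ^ 20 ≤ q.n
  m0 : 0 < q.m1
  m1 : q.P ^ 21 * q.nJ ≤ q.m1 ^ 2

/-- a state of the flow: `Op` open sites, `Rw` monitored rows, `rem` sites that remain to be closed,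
`Sg` survivors, `X` closed sites, `Bl v` neighbourhood of `v`, `Kk` fixed near kernel, `H` levels -/
structure Co (ι : Type) where
  G : ι → ι → ℂ
  al : ι → ι → ℂ
  dh : ι → ℝ
  a : ι → ℝ
  Kk : ι → ι → ℝ
  H : ι → ι → ℝ
  Op : Finset ι
  Rw : Finset ι
  rem : Finset ι
  Sg : Finset ι
  X : Finset ι
  Bl : ι → Finset ι

/-- the data of the possible next steps -/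
structure Au (ι : Type) where
  B : ι → Matrix ι ι ℂ
  R : ι → Bool → Matrix ι ι ℂ
  β : ι → ℂ
  D : ι → ι → ℝ
  D2 : ι → ι → ℝ
  μ : ι → ι → ℝ
  Pn : ι → ι → ι → ℂ
  N : ι → (ι → ℂ) → ℝ

section generic

variable {ι : Type} [Fintype ι] [DecidableEq ι]

/-- a seminorm that comes from a scalar product -/
structure HN (N : (ι → ℂ) → ℝ) : Prop where
  nn : ∀ φ, 0 ≤ N φ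
  add : ∀ φ ψ, N (φ + ψ) ≤ N φ + N ψ
  smul : ∀ (c : ℂ) φ, N (c • φ) = ‖c‖ * N φ
  op : ∀ (S : Finset ι) (A : ι → ι → ℂ) (r : ℝ) (φ : ι → ι → ℂ), OpLe S A r →
    ∑ x ∈ S, N (∑ y ∈ S, A x y • φ y) ^ 2 ≤ r ^ 2 * ∑ y ∈ S, N (φ y) ^ 2

/-- the crude seminorm of `v` -/
noncomputable def Au.Nh (τ : Au ι) (v : ι) (φ : ι → ℂ) : ℝ :=
  no (fun u => τ.D v u + if u = v then 51 / 50 else 0) φ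

/-- the scattering matrix of the step -/
noncomputable def Au.T (τ : Au ι) (v : ι) (b : Bool) : Matrix ι ι ℂ := sgn b • τ.B v - τ.R v b

namespace Co

variable (σ : Co ι)

/-- the far part of the matrix -/
noncomputable def Γ (x y : ι) : ℂ := σ.G x y - σ.al x y

/-- the row of `x` without its part near `v` -/
noncomputable def Pf (τ : Au ι) (v x : ι) : ι → ℂ := σ.G x - τ.Pn v x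

/-- the state after the closing of `v` with the coin `b` -/
noncomputable def step (τ : Au ι) (v : ι) (b : Bool) : Co ι :=
  { σ with
    G := fun x y => σ.G x y - bf (τ.T v b) (σ.G x) (σ.G y)
    al := fun x y => σ.al x y - sgn b * bf (τ.B v) (σ.al x) (σ.al y)
    dh := fun x => σ.dh x + if x ∈ σ.Rw.erase v then τ.Nh v (σ.G x) ^ 2 else 0
    Op := σ.Op.erase v
    Rw := σ.Rw.erase v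
    rem := σ.rem.erase v
    X := insert v σ.X }

/-- the remaining sites seen through the near kernel -/
noncomputable def kr (u : ι) : ℝ := ∑ v ∈ σ.rem, σ.Kk u v

/-- indicator of the remaining sites -/
noncomputable def ir (u : ι) : ℝ := if u ∈ σ.rem then 1 else 0

/-- weights of the row functional -/
noncomputable def th (z : ι) : ℝ := σ.ir z + ((if z ∈ σ.X then 1 else 0) + σ.kr z) / 2000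

/-- the row functional -/
noncomputable def Zf (m : ℝ) (x : ι) : ℝ :=
  ∑ z ∈ σ.Op ∪ σ.X, σ.th z * ‖σ.G x z‖ ^ 2 +
    (σ.dh x + if x ∈ σ.rem ∪ σ.Sg then √(‖σ.Γ x x‖ ^ 2 + m ^ 2) / m else 0) / 2000

/-- fourth powers on and near the remaining sites -/
noncomputable def N4 (κ : ℝ) (x : ι) : ℝ := ∑ y ∈ σ.Op, (σ.ir y + κ * σ.kr y) * ‖σ.Γ x y‖ ^ 4

/-- the monitor of the fourth powers on the columns `S` -/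
noncomputable def q4 (q : Nq) (S : Finset ι) (ns : ℝ) (x : ι) : ℝ :=
  ∑ y ∈ S, ‖σ.Γ x y‖ ^ 4 + √(ns * (σ.N4 q.κ x + q.n / q.P ^ 12)) / 100

/-- lead strengths with the surcharge `s` -/
noncomputable def w (s : ℝ) (x : ι) : ℝ := σ.a x * (1 + s * (σ.ir x + σ.kr x / 2000))

/-- conductances with the surcharge `s` -/
noncomputable def Kw (s : ℝ) (x y : ι) : ℝ := σ.w s x * σ.w s y * ‖σ.G x y‖ ^ 2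

/-- the open neighbours of `v` -/
def Sv (v : ι) : Finset ι := (σ.Op ∩ σ.Bl v).erase v

/-- the good neighbours of `v` -/
def Tv (v : ι) : Finset ι := ((σ.rem ∪ σ.Sg) ∩ σ.Bl v).erase v

end Co

/-- the increment of a form when `v` is closed, on the set `S`, with the sign `t`, without the part
that is paid by the near kernel `k` -/
noncomputable def y5 (t ε : ℝ) (S : Finset ι) (K K' k : ι → ι → ℝ) (v : ι) (φ : ι → ℝ) : ℝ :=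
  t * (En S (K' - K) φ - ∑ x ∈ S, K x v * (φ x - φ v) ^ 2) -
    2 * (1 - t) * (∑ x ∈ S, K x v * (φ v - φ x)) ^ 2 - 30 * ε * ∑ x ∈ S, k x v * (φ x - φ v) ^ 2

/-- the retarded-retarded matrix with unit diagonal -/
noncomputable def A0 (G : ι → ι → ℂ) (x y : ι) : ℂ := if x = y then 1 else -G x y ^ 2

/-- new matrix minus the Schur complement of the old one, on the set `T` -/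
noncomputable def y6 (T : Finset ι) (G G' : ι → ι → ℂ) (v x y : ι) : ℂ :=
  if x ∈ T ∧ y ∈ T then A0 G' x y - (A0 G x y - A0 G x v * A0 G v y) else 0

/-- what is known about a state in which no monitor has tripped -/
structure Fy (q : Nq) (σ : Co ι) (τ : Au ι) : Prop where
  sG : ∀ x y, σ.G x y = σ.G y x
  sa : ∀ x y, σ.al x y = σ.al y x
  sB : ∀ v ∈ σ.rem, (τ.B v)ᵀ = τ.B v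
  sR : ∀ v ∈ σ.rem, ∀ b, (τ.R v b)ᵀ = τ.R v b
  sK : ∀ x y, σ.Kk x y = σ.Kk y x
  sH : ∀ x y, σ.H x y = σ.H y x
  rR : σ.rem ⊆ σ.Rw
  gR : σ.Sg ⊆ σ.Rw
  RO : σ.Rw ⊆ σ.Op
  rs : Disjoint σ.rem σ.Sg
  OX : Disjoint σ.Op σ.X
  Bv : ∀ v, v ∈ σ.Bl v
  K0 : ∀ x y, 0 ≤ σ.Kk x y
  Kd : ∀ x, σ.Kk x x = 0
  K1 : ∀ x, ∑ y, σ.Kk x y ≤ 1
  KB : ∀ u v, σ.Kk u v ≠ 0 → u ∈ σ.Bl v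
  BR : ∀ v ∈ σ.rem, σ.Bl v ∩ σ.Op ⊆ σ.Rw
  H0 : ∀ x y, 0 ≤ σ.H x y
  H1 : ∀ x ∈ σ.rem ∪ σ.Sg, q.κ * σ.H x x ≤ q.m1 / 200
  a1 : ∀ x ∈ σ.Op, |σ.a x - 1| ≤ 1 / 10 ^ 7
  d0 : ∀ x, 0 ≤ σ.dh x
  D0 : ∀ v u, 0 ≤ τ.D v u
  DO : ∀ v, ∀ u ∉ σ.Op, τ.D v u = 0
  D1 : ∀ v ∈ σ.rem, ∀ u, τ.D v u ≤ q.κ ^ 2 * (σ.Kk v u + if u = v then 1 else 0) + τ.D2 v u
  E0 : ∀ v u, 0 ≤ τ.D2 v u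
  EO : ∀ v, ∀ u ∉ σ.Op, τ.D2 v u = 0
  E1 : ∀ v ∈ σ.rem, ∑ u, τ.D2 v u ≤ q.ν
  E2 : ∀ u, ∑ v ∈ σ.rem, τ.D2 v u ≤ q.ν
  hn : ∀ v ∈ σ.rem, HN (τ.N v)
  n1 : ∀ v ∈ σ.rem, ∀ φ, ‖φ v‖ ≤ τ.N v φ
  n2 : ∀ v ∈ σ.rem, ∀ φ, τ.N v φ ≤ τ.Nh v φ
  b0 : ∀ v ∈ σ.rem, ∀ φ ψ, ‖bf (τ.B v) φ ψ‖ ≤ 103 / 100 * τ.N v φ * τ.N v ψ
  b1 : ∀ v ∈ σ.rem, ∀ φ ψ,
    ‖bf (τ.B v) φ ψ - τ.β v * (φ v * ψ v)‖ ≤ no (τ.D v) φ * no (τ.D v) ψ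
  b2 : ∀ v ∈ σ.rem, ‖τ.β v - 1‖ ≤ q.ε
  r1 : ∀ v ∈ σ.rem, ∀ b φ ψ, ‖bf (τ.R v b) φ ψ‖ ≤ q.hb * τ.Nh v φ * τ.Nh v ψ
  r2 : ∀ v ∈ σ.rem, ∀ b φ, ‖bf (τ.R v b) φ φ‖ ≤
    (1 + 3 * q.ε) * ‖σ.Γ v v‖ * ‖φ v‖ ^ 2 + q.m1 / 100 * τ.Nh v φ ^ 2
  p1 : ∀ v ∈ σ.rem, ∀ x ∈ σ.Op ∪ σ.X, x ≠ v → τ.N v (τ.Pn v x) ≤ q.κ * σ.Kk x v
  p2 : ∀ v ∈ σ.rem, ∀ x ∈ σ.Op ∪ σ.X, x ≠ v → τ.N v (σ.al x - τ.Pn v x) ≤ τ.μ x v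
  u0 : ∀ x v, 0 ≤ τ.μ x v
  u1 : ∀ x, ∑ v ∈ σ.rem, τ.μ x v ^ 2 ≤ q.ν
  u2 : ∀ v ∈ σ.rem, ∑ x, τ.μ x v ^ 2 ≤ q.ν
  ia : ∀ v ∈ σ.rem, ∀ x ∈ σ.Rw.erase v,
    |(bf (τ.B v) (σ.al x) (σ.al x)).im| ≤ q.η * (q.κ * σ.Kk x v + τ.μ x v)
  dg : ∀ v ∈ σ.rem, ‖σ.G v v‖ ≤ 1 / 10 ^ 6
  ga : ∀ x ∈ σ.Op, ∀ y ∈ σ.Op, ‖σ.al x y‖ ≤ 1 / 10 ^ 7
  oa : OpLe σ.Op σ.al 1
  op : OpLe σ.Op σ.G (2 / q.η)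
  row : ∀ x ∈ σ.Op, ∑ y ∈ σ.Op, ‖σ.G x y‖ ^ 2 ≤ 11 / 10
  rowΓ : ∀ x ∈ σ.Op, ∑ y ∈ σ.Op, ‖σ.Γ x y‖ ^ 2 ≤ 3 / 2
  dd : ∀ u ∈ σ.Op, ∑ z ∈ σ.X, ‖σ.G u z‖ ^ 2 ≤ 2000
  deg : ∀ v ∈ σ.rem, |‖τ.β v‖ ^ 2 * ∑ x ∈ σ.Sv v, σ.a x * ‖σ.G x v‖ ^ 2 - σ.a v| ≤ q.ε
  zz : ∀ x ∈ σ.Rw, σ.Zf q.m1 x ≤ 995 / 1000
  sup : ∀ x ∈ σ.Op, ∀ y ∈ σ.Op, ‖σ.Γ x y‖ ≤ q.γ
  lev : ∀ v ∈ σ.rem, ∀ x ∈ σ.Rw, ∀ y ∈ σ.Rw, ∀ u ∈ σ.Op, σ.Kk y v ≠ 0 → u = v ∨ σ.Kk v u ≠ 0 →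
    ‖σ.Γ x u‖ ≤ σ.H x y
  k4 : ∀ x ∈ σ.Op, ∑ y ∈ σ.Op, ‖σ.Γ x y‖ ^ 4 ≤ 2 * q.nJ
  n4 : ∀ x ∈ σ.Rw, σ.N4 q.κ x ≤ 25 * q.n
  pc : ∀ (f : ι → ℝ) (l : ℝ), 0 ≤ l → (∀ x, 0 ≤ f x) → ∑ x ∈ σ.Op, f x ^ 2 ≤ l ^ 2 →
    ∑ x ∈ σ.Op, ∑ y ∈ σ.Op.erase x, f x * ‖σ.G x y‖ ^ 2 * f y ≤
      (∑ x ∈ σ.Op, f x ^ 2) / 10 ^ 5 + 3 * √q.n / q.P ^ 15 * l * ∑ x ∈ σ.Op, f x
  nrm : OpLe (σ.X ∪ σ.rem) σ.G (q.P ^ 40 / q.η)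
  ward : ∀ u : ι → ℂ, nS σ.Op (ap (σ.X ∪ σ.rem) σ.G u) ≤ q.P ^ 21 / q.η * nS (σ.X ∪ σ.rem) u
  far : ∑ v ∈ σ.rem, ∑ y ∈ σ.Op \ σ.Bl v, τ.Nh v (σ.G y) ^ 2 ≤ 1

/-- consequences of the facts -/
structure Fz (q : Nq) (σ : Co ι) (τ : Au ι) : Prop where
  hh : ∀ v, HN (τ.Nh v)
  hd : ∀ v, HN (no (τ.D v))
  sq : ∀ v φ, τ.Nh v φ ^ 2 = 51 / 50 * ‖φ v‖ ^ 2 + no (τ.D v) φ ^ 2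
  kr : ∀ u, 0 ≤ σ.kr u ∧ σ.kr u ≤ 1
  Dr : ∀ v ∈ σ.rem, ∑ u, τ.D v u ≤ 3 * q.ε ^ 2
  Dc : ∀ u, ∑ v ∈ σ.rem, τ.D v u ≤ 3 * q.ε ^ 2
  sv : ∀ φ, ∑ v ∈ σ.rem, τ.Nh v φ ^ 2 ≤ 21 / 20 * ∑ u ∈ σ.Op, ‖φ u‖ ^ 2
  cO : ∀ v ∈ σ.rem, ∑ z ∈ σ.Op, no (τ.D v) (σ.G z) ^ 2 ≤ 4 * q.ε ^ 2
  cX : ∀ v ∈ σ.rem, ∑ z ∈ σ.X, no (τ.D v) (σ.G z) ^ 2 ≤ 10 ^ 4 * q.ε ^ 2
  nO : ∀ v ∈ σ.rem, ∑ z ∈ σ.Op, τ.Nh v (σ.G z) ^ 2 ≤ 6 / 5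
  nX : ∀ v ∈ σ.rem, ∑ z ∈ σ.X, τ.Nh v (σ.G z) ^ 2 ≤ 2100
  vv : ∀ v ∈ σ.rem, τ.Nh v (σ.G v) ≤ 1 / 10 ^ 5
  gs : ∀ v ∈ σ.rem, ∀ x ∈ σ.Op.erase v, ‖σ.G x v‖ ≤ 3 * q.ε ∧ τ.Nh v (σ.G x) ≤ 4 * q.ε
  us : ∀ v ∈ σ.rem, ∀ x, τ.μ x v ≤ q.ε
  Γ1 : ∀ v ∈ σ.rem, ∀ x ∈ σ.Op, τ.Nh v (σ.Γ x) ≤ 2 * q.γ
  Γ2 : ∀ v ∈ σ.rem, ∑ y ∈ σ.Op, τ.Nh v (σ.Γ y) ^ 4 ≤ 3 * q.nJ
  Γ3 : ∀ y ∈ σ.Op, ∑ v ∈ σ.rem, τ.Nh v (σ.Γ y) ^ 4 ≤ 3 * q.nJ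
  Γ4 : ∀ v ∈ σ.rem, ∀ x ∈ σ.Rw, ∀ y ∈ σ.Rw, σ.Kk y v ≠ 0 →
    τ.Nh v (σ.Γ x) ≤ 11 / 10 * σ.H x y + q.m1 / 10
  f1 : ∀ v ∈ σ.rem, ∀ x ∈ σ.Op ∪ σ.X, x ≠ v → τ.N v (σ.Pf τ v x) ≤ τ.Nh v (σ.Γ x) + τ.μ x v ∧
    τ.N v (σ.Pf τ v x) ≤ τ.Nh v (σ.G x) + q.κ * σ.Kk x v
  f2 : ∀ v ∈ σ.rem, ∑ x ∈ σ.Op.erase v, τ.N v (σ.Pf τ v x) ^ 2 ≤ 5 / 2
  f3 : ∀ x ∈ σ.Op, ∑ v ∈ σ.rem.erase x, τ.N v (σ.Pf τ v x) ^ 2 ≤ 5 / 2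
  mis : ∀ x ∈ σ.rem ∪ σ.Sg, ‖σ.Γ x x‖ ≤ 2000 * q.m1
  dh : ∀ x ∈ σ.Rw, σ.dh x ≤ 2000
  vec : ∀ (h : ι → ι → ℂ) (g : ι → ℂ) (e : ι → ℝ),
    (∀ v ∈ σ.rem, ∀ y ∈ σ.Sv v, ‖h v y - g y‖ ≤ σ.Kk y v * e y) → (∀ y ∈ σ.Op, ‖g y‖ ≤ e y) →
    ∑ v ∈ σ.rem, τ.Nh v (∑ y ∈ σ.Sv v, h v y • σ.G y) ^ 2 ≤ 40 / q.η ^ 2 * ∑ y ∈ σ.Op, e y ^ 2

/-- drift and variation of scalar increments -/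
def Inc (S : Finset ι) (y : ι → Bool → ℝ) (δ Q : ℝ) : Prop :=
  ∑ v ∈ S, (y v true + y v false) ≤ δ ∧ ∑ v ∈ S, (y v true ^ 2 + y v false ^ 2) ≤ Q

end generic

/-- a statement about all states without a trip -/
def AllS (X : ∀ (ι : Type) [Fintype ι] [DecidableEq ι], Nq → Co ι → Au ι → Prop) : Prop :=
  ∀ (ι : Type) [Fintype ι] [DecidableEq ι] (q : Nq) (σ : Co ι) (τ : Au ι), q.OK → Fy q σ τ →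
    X ι q σ τ

def S_PD : Prop := AllS fun _ _ _ q σ τ => Fz q σ τ

/-- the row functional -/
def S_PZ : Prop := AllS fun ι _ _ q σ τ => Fz q σ τ → ∀ x ∈ σ.Rw, ∃ y : ι → Bool → ℝ,
  (∀ v ∈ σ.rem.erase x, ∀ b,
    (σ.step τ v b).Zf q.m1 x ≤ σ.Zf q.m1 x + y v b + σ.Kk x v / 10 ^ 4) ∧
  Inc (σ.rem.erase x) y (1 / q.P ^ 4) (1 / q.P ^ 8)

/-- entries -/
def S_PP : Prop := AllS fun ι _ _ q σ τ => Fz q σ τ → ∀ x ∈ σ.Rw, ∀ z ∈ σ.Rw, ∀ c : ℂ, ‖c‖ ≤ 1 →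
  ∃ y : ι → Bool → ℝ, (∀ v ∈ (σ.rem.erase x).erase z, ∀ b,
    (c * (σ.step τ v b).Γ x z).re - q.hb / 2 * ((σ.step τ v b).dh x + (σ.step τ v b).dh z) ≤
      (c * σ.Γ x z).re - q.hb / 2 * (σ.dh x + σ.dh z) + y v b +
        2 * q.κ * (σ.H x z + q.m1) * (σ.Kk x v + σ.Kk z v)) ∧
  Inc ((σ.rem.erase x).erase z) y 0 (q.m1 ^ 2 / q.P ^ 8)

/-- lead strengths -/
def S_PA : Prop := AllS fun ι _ _ q σ τ => ∀ x ∈ σ.Rw, ∀ t : ℝ, |t| ≤ 1 → ∃ y : ι → Bool → ℝ,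
  (∀ v ∈ σ.rem.erase x, ∀ b, t * (((σ.step τ v b).al x x).im / q.η) ≤
    t * ((σ.al x x).im / q.η) + y v b + q.κ * σ.Kk x v) ∧
  Inc (σ.rem.erase x) y 0 (1 / q.P ^ 20)

/-- fourth powers -/
def S_PL : Prop := AllS fun ι _ _ q σ τ => Fz q σ τ → ∀ x ∈ σ.Rw, ∀ S ⊆ σ.Op, ∀ ns : ℝ,
  q.n ≤ ns → ns ≤ q.nJ → ∑ y ∈ S, ‖σ.Γ x y‖ ^ 4 ≤ 2 * ns → ∃ y : ι → Bool → ℝ,
  (∀ v ∈ σ.rem.erase x, ∀ b,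
    (σ.step τ v b).q4 q (S.erase v) ns x ≤ σ.q4 q S ns x + y v b + q.n * σ.Kk x v / 10 ^ 6) ∧
  Inc (σ.rem.erase x) y (q.n / q.P ^ 4) (q.n ^ 2 / q.P ^ 8)

/-- the block of the matrix on the closed and remaining sites -/
def S_P4 : Prop := AllS fun ι _ _ q σ τ => Fz q σ τ → ∀ u : ι → ℝ,
  ‖∑ z ∈ σ.rem ×ˢ (univ : Finset Bool), ∑ x ∈ σ.X ∪ σ.rem, ∑ y ∈ σ.X ∪ σ.rem,
    u x * bf (τ.T z.1 z.2) (σ.G x) (σ.G y) * u y‖ ≤ 1 / q.η * ∑ x ∈ σ.X ∪ σ.rem, u x ^ 2 ∧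
  ∑ z ∈ σ.rem ×ˢ (univ : Finset Bool), ∑ x ∈ σ.X ∪ σ.rem,
    ‖∑ y ∈ σ.X ∪ σ.rem, bf (τ.T z.1 z.2) (σ.G x) (σ.G y) * u y‖ ^ 2 ≤
      q.P ^ 43 / q.η ^ 2 * ∑ x ∈ σ.X ∪ σ.rem, u x ^ 2

section generic

variable {ι : Type} [Fintype ι] [DecidableEq ι]

/-- the kernel of the noise of the form -/
noncomputable def Co.k5 (σ : Co ι) (τ : Au ι) (s : ℝ) (v : ι) (b : Bool) (x y : ι) : ℝ :=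
  2 * ((σ.step τ v b).w s x * (σ.step τ v b).w s y) * ((starRingEnd ℂ) (σ.G x y) *
    (bf (τ.R v b) (σ.G x) (σ.G y) - sgn b * bf (τ.B v) (σ.Pf τ v x) (σ.Pf τ v y))).re

/-- the form of the far part of the majorant -/
noncomputable def Co.Q5 (σ : Co ι) (τ : Au ι) (v : ι) (φ ψ : ι → ℝ) : ℝ :=
  ∑ u, τ.D2 v u * ∑ x ∈ σ.Sv v, ‖σ.G x u‖ ^ 2 * ((φ x - φ v) * (ψ x - ψ v))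

/-- the majorant of the increment of the form -/
noncomputable def Co.Y5 (σ : Co ι) (τ : Au ι) (t s : ℝ) (v : ι) (b : Bool) (φ ψ : ι → ℝ) : ℝ :=
  t * Eb (σ.Sv v) (σ.k5 τ s v b) φ ψ + σ.Q5 τ v φ ψ

/-- the odd far part of the noise of the retarded-retarded matrix -/
noncomputable def Co.o6 (σ : Co ι) (τ : Au ι) (v x y : ι) : ℂ :=
  if x ∈ σ.Tv v ∧ y ∈ σ.Tv v ∧ x ≠ y then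
    2 * σ.G x y * bf (τ.B v) (σ.Pf τ v x) (σ.Pf τ v y) else 0

end generic

/-- the increment of the form is majorised -/
def S_P5A : Prop := AllS fun ι _ _ q σ τ => Fz q σ τ → ∀ t : ℝ, t = 1 ∨ t = -1 →
  ∀ v ∈ σ.rem, ∀ (b : Bool) (φ : ι → ℝ),
    y5 t q.ε (σ.Sv v) (σ.Kw (t * (10 ^ 5 * q.ε))) ((σ.step τ v b).Kw (t * (10 ^ 5 * q.ε))) σ.Kk v φ ≤
      σ.Y5 τ t (t * (10 ^ 5 * q.ε)) v b φ φ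

/-- drift and variation of the majorant -/
def S_P5B : Prop := AllS fun ι _ _ q σ τ => Fz q σ τ →
  ∀ (N : (ι → ℝ) → ℝ) (Z' : Finset ι) (t s : ℝ), |t| ≤ 1 → |s| ≤ 1 / 10 ^ 7 → Z' ⊆ σ.rem →
    (∀ φ, En σ.Op (fun x y => σ.a x * σ.a y * ‖σ.G x y‖ ^ 2) φ ≤ 2 * N φ) →
    (∀ (ξ ψ : ι → ℝ) (l : ℝ), 0 ≤ l → ∑ x, ξ x ^ 2 ≤ l ^ 2 →
      (∑ x, ξ x * ψ x) ^ 2 ≤ 2 * (l ^ 2 + q.η * l * ∑ x, |ξ x|) * N ψ) →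
    (∀ φ : ι → ℝ, ∑ v ∈ σ.rem, ∑ u, σ.Kk u v * (φ u - φ v) ^ 2 ≤ q.P * N φ) →
    (∀ φ : ι → ℝ, ∑ v ∈ σ.rem, ∑ u, τ.D2 v u * (φ u - φ v) ^ 2 ≤ N φ / q.P ^ 20) →
    (∀ v ∈ Z', ∀ b, SB (σ.Y5 τ t s v b)) ∧ ∀ φ : ι → ℝ,
    ∑ z ∈ Z' ×ˢ (univ : Finset Bool), σ.Y5 τ t s z.1 z.2 φ φ ≤ 1 / q.P ^ 8 * N φ ∧
    ∃ w : ι × Bool → ℝ, (∀ z, 0 ≤ w z) ∧
      ∑ z ∈ Z' ×ˢ (univ : Finset Bool), w z ≤ 1 / q.P ^ 15 * N φ ∧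
      ∀ z ∈ Z' ×ˢ (univ : Finset Bool), ∀ ψ, σ.Y5 τ t s z.1 z.2 φ ψ ^ 2 ≤ w z * N ψ

/-- the noise of the retarded-retarded matrix without its odd far part -/
def S_P6A : Prop := AllS fun ι _ _ q σ τ => Fz q σ τ → ∀ v ∈ σ.rem, ∀ (b : Bool) (u u' : ι → ℂ),
  ‖∑ x, ∑ y, u x * (y6 (σ.Tv v) σ.G (σ.step τ v b).G v x y - sgn b * σ.o6 τ v x y) * u' y‖ ≤
    √(∑ x ∈ σ.Tv v, 30 * q.ε * (τ.Nh v (σ.G x) ^ 2 + σ.Kk x v) * ‖u x‖ ^ 2) *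
      √(∑ x ∈ σ.Tv v, 30 * q.ε * (τ.Nh v (σ.G x) ^ 2 + σ.Kk x v) * ‖u' x‖ ^ 2)

/-- variation of the odd far part -/
def S_P6B : Prop := AllS fun ι _ _ q σ τ => Fz q σ τ →
  (∀ v ∈ σ.rem, ∀ x y, σ.o6 τ v x y = σ.o6 τ v y x) ∧ ∀ u : ι → ℝ,
    ∑ v ∈ σ.rem, ∑ x, ‖∑ y, σ.o6 τ v x y * u y‖ ^ 2 ≤ 1 / q.P ^ 16 * ∑ x, u x ^ 2

end Pool.Agent.P.MP_d0f69c_mp.XS.Pre
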