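import Pool.Agent.P.MP_d0f69c_mp.XS.M2B
import Pool.Agent.P.MP_d0f69c_mp.XS.PMon0
import Pool.Agent.P.MP_d0f69c_mp.XS.PPrt2

/-!
The monitor of the fourth powers for jumps with side channels: elementary estimates.
-/

set_option autoImplicit false

open Finset Real

namespace Pool.Agent.P.MP_d0f69c_mp.XS.Pre

namespace L4

variable {ι : Type}

theorem pow4 (α β : ℂ) : ‖α - β‖ ^ 4 ≤ ‖α‖ ^ 4 - 4 * (‖α‖ ^ 2 * ((starRingEnd ℂ) α * β).re) +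
    (8 * (‖α‖ ^ 2 * ‖β‖ ^ 2) + 3 * (‖β‖ ^ 2) ^ 2) := by
  set r := ((starRingEnd ℂ) α * β).re with hr
  have e1 : ‖α - β‖ ^ 2 = ‖α‖ ^ 2 - 2 * r + ‖β‖ ^ 2 := by
    simp only [hr, Complex.sq_norm, Complex.normSq_apply, Complex.sub_re, Complex.sub_im,
      Complex.mul_re, Complex.conj_re, Complex.conj_im]; ring
  have e2 : |r| ≤ ‖α‖ * ‖β‖ := by
    have := Complex.abs_re_le_norm ((starRingEnd ℂ) α * β)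
    rwa [norm_mul, Complex.norm_conj] at this
  have e3 : r ^ 2 ≤ ‖α‖ ^ 2 * ‖β‖ ^ 2 := by
    have := pow_le_pow_left₀ (abs_nonneg _) e2 2
    rwa [sq_abs, mul_pow] at this
  rw [show ‖α - β‖ ^ 4 = (‖α - β‖ ^ 2) ^ 2 by ring, e1]
  nlinarith [sq_nonneg (r + ‖β‖ ^ 2)]

theorem pow4_lo (α β : ℂ) : 3 / 4 * ‖α‖ ^ 4 - 1000 * (‖β‖ ^ 2) ^ 2 ≤ ‖α - β‖ ^ 4 := by
  have h := norm_add_le (α - β) β
  rw [sub_add_cancel] at h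
  have h1 : ‖α‖ ^ 2 ≤ 11 / 10 * ‖α - β‖ ^ 2 + 11 * ‖β‖ ^ 2 := by
    nlinarith [pow_le_pow_left₀ (norm_nonneg _) h 2, sq_nonneg (‖α - β‖ - 10 * ‖β‖)]
  nlinarith [pow_le_pow_left₀ (sq_nonneg _) h1 2, sq_nonneg (‖α - β‖ ^ 2 - 100 * ‖β‖ ^ 2),
    sq_nonneg (‖α - β‖ ^ 2), sq_nonneg (‖β‖ ^ 2)]

theorem pow4_hi (α β : ℂ) : ‖α - β‖ ^ 4 ≤ 8 * (‖α‖ ^ 4 + (‖β‖ ^ 2) ^ 2) := by
  have h1 : ‖α - β‖ ^ 2 ≤ 2 * (‖α‖ ^ 2 + ‖β‖ ^ 2) := by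
    nlinarith [pow_le_pow_left₀ (norm_nonneg _) (norm_sub_le α β) 2, sq_nonneg (‖α‖ - ‖β‖)]
  nlinarith [pow_le_pow_left₀ (sq_nonneg _) h1 2, sq_nonneg (‖α‖ ^ 2 - ‖β‖ ^ 2)]

theorem sq3 (a b c : ℂ) : ‖a + b + c‖ ^ 2 ≤ 2 * ‖a‖ ^ 2 + 4 * ‖b‖ ^ 2 + 4 * ‖c‖ ^ 2 := by
  nlinarith [pow_le_pow_left₀ (norm_nonneg _) (norm_add₃_le (a := a) (b := b) (c := c)) 2,
    sq_nonneg (‖a‖ - ‖b‖ - ‖c‖), sq_nonneg (‖b‖ - ‖c‖)]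

theorem sq2 (a b : ℂ) : ‖a + b‖ ^ 2 ≤ 2 * ‖a‖ ^ 2 + 2 * ‖b‖ ^ 2 := by
  nlinarith [pow_le_pow_left₀ (norm_nonneg _) (norm_add_le a b) 2, sq_nonneg (‖a‖ - ‖b‖)]

theorem sq2' (a b : ℂ) : ‖a - b‖ ^ 2 ≤ 2 * ‖a‖ ^ 2 + 2 * ‖b‖ ^ 2 := by
  simpa [sub_eq_add_neg] using sq2 a (-b)

theorem cs {O : Finset ι} {k : ι → ℝ} {r : ℝ} (k0 : ∀ u, 0 ≤ k u) (hr : ∑ u ∈ O, k u ≤ r)
    (f : ι → ℝ) : (∑ u ∈ O, k u * f u) ^ 2 ≤ r * ∑ u ∈ O, k u * f u ^ 2 :=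
  (sum_sq_le_sum_mul_sum_of_sq_le_mul O (fun u _ => k0 u)
    (fun u _ => mul_nonneg (k0 u) (sq_nonneg _)) fun u _ => le_of_eq (by ring)).trans
    (mul_le_mul_of_nonneg_right hr (sum_nonneg fun u _ => mul_nonneg (k0 u) (sq_nonneg _)))

/-- the term that is paid by the budget -/
theorem near {O C : Finset ι} {w : ι → ℝ} {g u : ι → ℂ} {s : ℂ} {e J nC ε : ℝ} (hs : ‖s‖ ≤ 1)
    (e0 : 0 ≤ e) (e1 : e ≤ 1 / 10) (w0 : ∀ y ∈ O, 0 ≤ w y) (n0 : 0 ≤ nC) (nJ : nC ≤ J) (ε0 : 0 ≤ ε)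
    (h1 : ∑ y ∈ C, ‖g y‖ ^ 4 ≤ 32 * J) (h2 : ∑ y ∈ C, (‖u y‖ ^ 2) ^ 2 ≤ 4 * J)
    (h3 : ∑ y ∈ O, w y * ‖g y‖ ^ 4 ≤ 225 * J) (h4 : ∑ y ∈ O, w y * (‖u y‖ ^ 2) ^ 2 ≤ 9 * J) :
    ∑ y ∈ C, ‖g y - s * (e * u y)‖ ^ 4 +
        √(nC * (∑ y ∈ O, w y * ‖g y - s * (e * u y)‖ ^ 4 + ε)) / 100 ≤
      ∑ y ∈ C, ‖g y‖ ^ 4 + √(nC * (∑ y ∈ O, w y * ‖g y‖ ^ 4 + ε)) / 100 + 200 * e * J := by
  have J0 := n0.trans nJ
  have a1 : ∀ y, ‖g y - s * (e * u y)‖ ^ 4 ≤ ((1 + e) * ‖g y‖ ^ 2 + 2 * e * ‖u y‖ ^ 2) ^ 2 := by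
    intro y
    have b1 : ‖g y - s * (e * u y)‖ ≤ ‖g y‖ + e * ‖u y‖ := (norm_sub_le _ _).trans (by
      rw [norm_mul, norm_mul, Complex.norm_of_nonneg e0]
      linarith [mul_le_of_le_one_left (mul_nonneg e0 (norm_nonneg (u y))) hs])
    rw [show ‖g y - s * (e * u y)‖ ^ 4 = (‖g y - s * (e * u y)‖ ^ 2) ^ 2 by ring]
    refine pow_le_pow_left₀ (sq_nonneg _) ((pow_le_pow_left₀ (norm_nonneg _) b1 2).trans ?_) 2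
    nlinarith [mul_nonneg e0 (sq_nonneg (‖g y‖ - ‖u y‖)),
      mul_nonneg (mul_nonneg e0 (sub_nonneg.2 e1)) (sq_nonneg ‖u y‖), mul_nonneg e0 (sq_nonneg ‖u y‖)]
  have a2 : ∑ y ∈ C, ‖g y - s * (e * u y)‖ ^ 4 ≤ ∑ y ∈ C, ‖g y‖ ^ 4 + 148 * e * J := by
    refine (sum_le_sum (g := fun y => ‖g y‖ ^ 4 + (4 * e * ‖g y‖ ^ 4 + 5 * e * (‖u y‖ ^ 2) ^ 2))
      fun y _ => (a1 y).trans ?_).trans ?_
    · rw [show ‖g y‖ ^ 4 = (‖g y‖ ^ 2) ^ 2 by ring]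
      generalize ‖g y‖ ^ 2 = a
      generalize ‖u y‖ ^ 2 = b
      have b1 := mul_nonneg (mul_nonneg e0 (show 0 ≤ 1 + e by linarith)) (sq_nonneg ((1 + e) * a - 2 * b))
      have b2 := mul_nonneg (mul_nonneg e0 (sub_nonneg.2 e1)) (sq_nonneg a)
      have b3 := mul_nonneg (mul_nonneg e0 (sub_nonneg.2 e1)) (sq_nonneg b)
      have b4 : 0 ≤ e * ((1 + e) * a - 2 * b) ^ 2 := mul_nonneg e0 (sq_nonneg _)
      have b5 := mul_nonneg (mul_nonneg e0 (mul_nonneg e0 (sub_nonneg.2 e1))) (sq_nonneg a)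
      nlinarith [mul_nonneg e0 (sq_nonneg a), mul_nonneg e0 (sq_nonneg b)]
    · rw [sum_add_distrib, sum_add_distrib, ← mul_sum, ← mul_sum]
      nlinarith [mul_le_mul_of_nonneg_left h1 e0, mul_le_mul_of_nonneg_left h2 e0]
  set N := ∑ y ∈ O, w y * ‖g y‖ ^ 4 with hN
  set U := ∑ y ∈ O, w y * (‖u y‖ ^ 2) ^ 2 with hU
  have N0 : 0 ≤ N := sum_nonneg fun y hy => mul_nonneg (w0 y hy) (by positivity)
  have U0 : 0 ≤ U := sum_nonneg fun y hy => mul_nonneg (w0 y hy) (by positivity)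
  have a3 : ∑ y ∈ O, w y * (‖g y‖ ^ 2 * ‖u y‖ ^ 2) ≤ √N * √U := by
    rw [← sqrt_mul N0]
    exact le_sqrt_of_sq_le (sum_sq_le_sum_mul_sum_of_sq_le_mul O
      (fun y hy => mul_nonneg (w0 y hy) (by positivity))
      (fun y hy => mul_nonneg (w0 y hy) (by positivity)) fun y _ => le_of_eq (by ring))
  have a4 : ∑ y ∈ O, w y * ‖g y - s * (e * u y)‖ ^ 4 ≤ ((1 + e) * √N + 2 * e * √U) ^ 2 := by
    refine (sum_le_sum (g := fun y => (1 + e) ^ 2 * (w y * ‖g y‖ ^ 4) + 4 * e * (1 + e) *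
      (w y * (‖g y‖ ^ 2 * ‖u y‖ ^ 2)) + 4 * e ^ 2 * (w y * (‖u y‖ ^ 2) ^ 2)) fun y hy =>
        (mul_le_mul_of_nonneg_left (a1 y) (w0 y hy)).trans_eq (by ring)).trans ?_
    rw [sum_add_distrib, sum_add_distrib, ← mul_sum, ← mul_sum, ← mul_sum, ← hN, ← hU]
    have := mul_le_mul_of_nonneg_left a3 (show 0 ≤ 4 * e * (1 + e) by positivity)
    nlinarith [sq_sqrt N0, sq_sqrt U0]
  have b1 : √N ≤ 15 * √J := sqrt_le_iff.2 ⟨by positivity, by rw [mul_pow, sq_sqrt J0]; linarith⟩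
  have b2 : √U ≤ 3 * √J := sqrt_le_iff.2 ⟨by positivity, by rw [mul_pow, sq_sqrt J0]; linarith⟩
  have b3 : √N ≤ √(N + ε) := sqrt_le_sqrt (by linarith)
  have b4 : √(∑ y ∈ O, w y * ‖g y - s * (e * u y)‖ ^ 4 + ε) ≤ √(N + ε) + 21 * e * √J := by
    have c1 : (1 + e) * √N + 2 * e * √U ≤ √N + 21 * e * √J := by
      nlinarith [mul_le_mul_of_nonneg_left b1 e0, mul_le_mul_of_nonneg_left b2 e0]
    have c2 := pow_le_pow_left₀ (by positivity) c1 2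
    refine sqrt_le_iff.2 ⟨by positivity, ?_⟩
    have c3 := mul_le_mul_of_nonneg_left b3 (show 0 ≤ 21 * e * √J by positivity)
    nlinarith [sq_sqrt N0, sq_sqrt (add_nonneg N0 ε0)]
  have b5 : √nC * √J ≤ J := (mul_le_mul_of_nonneg_right (sqrt_le_sqrt nJ) (sqrt_nonneg _)).trans_eq
    (mul_self_sqrt J0)
  rw [sqrt_mul n0, sqrt_mul n0]
  have b6 := mul_le_mul_of_nonneg_left b4 (sqrt_nonneg nC)
  nlinarith [mul_le_mul_of_nonneg_left b5 e0, mul_nonneg e0 J0]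

theorem sm {P c z : ℝ} (hP : 10 ^ 9 ≤ P) (a b k : ℕ) (hc : c ≤ 10 ^ 9) (h : a + k < b) (z0 : 0 ≤ z) :
    c * P ^ a * (z / P ^ b) ≤ z / P ^ k :=
  calc _ = c * (P ^ a / P ^ b) * z := by ring
    _ ≤ 1 / P ^ k * z := mul_le_mul_of_nonneg_right (M2A.dv hP hc h) z0
    _ = _ := by ring

end L4

variable {ι : Type} [DecidableEq ι]

/-- weights of the sites that remain to be closed and of their neighbours -/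
noncomputable def th4 (κ : ℝ) (K : ι → ι → ℝ) (A : Finset ι) (y : ι) : ℝ :=
  (if y ∈ A then 1 else 0) + κ * ∑ v ∈ A, K y v

/-- the monitor of the fourth powers of the row `g` on the columns `C` -/
noncomputable def q4 (P n nC κ : ℝ) (K : ι → ι → ℝ) (g : ι → ℂ) (O A C : Finset ι) : ℝ :=
  ∑ y ∈ C, ‖g y‖ ^ 4 + √(nC * (∑ y ∈ O, th4 κ K A y * ‖g y‖ ^ 4 + n / P ^ 12)) / 100

end Pool.Agent.P.MP_d0f69c_mp.XS.Pre
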