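import Pool.Agent.P.MP_d0f69c_mp.XS.PL4A

/-!
The monitor of the fourth powers for jumps with side channels: data and static estimates.
-/

set_option autoImplicit false
set_option linter.dupNamespace false

open Finset Real

namespace Pool.Agent.P.MP_d0f69c_mp.XS.Pre

/-- the data of one row at one time -/
structure D4 (ι : Type) where
  (P Λ n nC nJ κ ν hb γ g0 : ℝ)
  (O Z C : Finset ι)
  x : ι
  (G al : ι → ι → ℂ)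
  (E K : ι → ι → ℝ)
  (mu e : ι → ℝ)
  (a u : ι → (ι → ℂ) →ₗ[ℂ] ℂ)
  h : ι → Bool → (ι → ℂ) →ₗ[ℂ] ℂ

namespace D4

variable {ι : Type} [DecidableEq ι] (d : D4 ι)

def A : Finset ι := d.Z.erase d.x
noncomputable def Γ (y : ι) : ι → ℂ := d.G y - d.al y
noncomputable def Ms (v : ι) (ξ : ι → ℂ) : ℝ := ∑ w ∈ d.O, d.E v w * ‖ξ w‖ ^ 2
noncomputable def th : ι → ℝ := th4 d.κ d.K d.Z
noncomputable def N : ℝ := ∑ y ∈ d.O, d.th y * ‖d.Γ d.x y‖ ^ 4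
noncomputable def N' : ℝ := d.N + d.n / d.P ^ 12
noncomputable def s : ℝ := √(d.nC * d.N')
noncomputable def lam : ℝ := d.nC / (200 * d.s)
noncomputable def ρ (y : ι) : ℝ := (if y ∈ d.C then 1 else 0) + d.lam * d.th y
noncomputable def R : ℝ := 1 + 2 * d.lam
noncomputable def σ : ℝ := d.γ ^ 2 + d.hb ^ 2
noncomputable def F (v : ι) : ℝ := d.Ms v (d.Γ d.x)
noncomputable def X (v : ι) : ℝ := d.Ms v (d.G d.x)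
noncomputable def f1 (w : ι) : ℝ := ∑ v ∈ d.A, d.E v w * d.F v
noncomputable def τ (v : ι) : ℝ := 21 / 10 * d.F v + 4 * d.hb ^ 2 * d.X v
noncomputable def μ (v : ι) : ℝ := 21 / 5 * d.mu v ^ 2
noncomputable def dl (v : ι) (b : Bool) (ξ ζ : ι → ℂ) : ℂ :=
  sgn b * d.a v ξ + sgn b * (d.mu v * d.u v ζ) + d.h v b ξ

structure OK : Prop where
  P9 : 10 ^ 9 ≤ d.P
  Λ1 : 1 ≤ d.Λ
  n0 : 0 < d.n
  nC : d.n ≤ d.nC
  nJ : d.nC ≤ d.nJ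
  nP : d.nJ ≤ d.P ^ 2 * d.n
  JΛ : d.nJ * d.Λ ^ 2 ≤ 1 / d.P ^ 100
  κ0 : 0 ≤ d.κ
  κ1 : d.κ ≤ 1 / 1000
  ν1 : d.ν ≤ 1 / d.P ^ 40
  hb4 : d.hb ^ 4 * d.Λ ^ 2 ≤ d.n / d.P ^ 40
  γ4 : d.γ ^ 4 ≤ d.n / d.P ^ 20
  g00 : 0 ≤ d.g0
  g02 : d.g0 ^ 2 ≤ d.n / d.P ^ 30
  ZO : d.Z ⊆ d.O
  CO : d.C ⊆ d.O
  xO : d.x ∈ d.O
  sG : ∀ y z, d.G y z = d.G z y
  sa : ∀ y z, d.al y z = d.al z y
  E0 : ∀ v w, 0 ≤ d.E v w
  Er : ∀ v ∈ d.A, ∑ w ∈ d.O, d.E v w ≤ 21 / 20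
  Ec : ∀ w ∈ d.O, ∑ v ∈ d.A, d.E v w ≤ 21 / 20 * d.th w + d.ν
  K0 : ∀ y z, 0 ≤ d.K y z
  sK : ∀ y z, d.K y z = d.K z y
  Kr : ∀ y, ∑ v ∈ d.O, d.K y v ≤ 1
  mu2 : ∑ v ∈ d.A, d.mu v ^ 2 ≤ d.ν
  e0 : ∀ v, 0 ≤ d.e v
  e1 : ∀ v, d.e v ≤ 1 / 10
  ha : ∀ v ∈ d.A, ∀ ξ, ‖d.a v ξ‖ ^ 2 ≤ 21 / 20 * (d.F v * d.Ms v ξ)
  hu : ∀ v ∈ d.A, ∀ ξ, ‖d.u v ξ‖ ^ 2 ≤ 21 / 20 * d.Ms v ξ
  hh : ∀ v ∈ d.A, ∀ b ξ, ‖d.h v b ξ‖ ^ 2 ≤ d.hb ^ 2 * d.X v * d.Ms v ξ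
  row : ∀ y ∈ d.O, ∑ w ∈ d.O, ‖d.G y w‖ ^ 2 ≤ 2
  sup : ∀ y ∈ d.O, ∀ w ∈ d.O, ‖d.G y w‖ ^ 2 ≤ 1 / 10 ^ 10
  opG : OpLe d.O d.G d.Λ
  opa : OpLe d.O d.al 1
  amp : ∀ w ∈ d.O, ‖d.Γ d.x w‖ ^ 2 ≤ 9 * d.γ ^ 2
  k4 : ∀ y ∈ d.O, ∑ w ∈ d.O, ‖d.Γ y w‖ ^ 4 ≤ 3 * d.nJ
  c4 : ∑ y ∈ d.C, ‖d.Γ d.x y‖ ^ 4 ≤ 3 * d.nC
  N4 : d.N ≤ 25 * d.n
  pc : ∀ (f : ι → ℝ) (l : ℝ), 0 ≤ l → (∀ y, 0 ≤ f y) → ∑ y ∈ d.O, f y ^ 2 ≤ l ^ 2 →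
    ∑ y ∈ d.O, ∑ w ∈ d.O, f y * ‖d.G y w‖ ^ 2 * f w ≤
      2 / 10 ^ 5 * ∑ y ∈ d.O, f y ^ 2 + 3 * d.g0 * l * ∑ y ∈ d.O, f y

theorem swap (c : ι → ℝ) (ξ : ι → ℂ) : ∑ v ∈ d.A, c v * d.Ms v ξ =
    ∑ w ∈ d.O, (∑ v ∈ d.A, d.E v w * c v) * ‖ξ w‖ ^ 2 := by
  simp only [Ms, mul_sum, sum_mul]
  rw [sum_comm]
  exact sum_congr rfl fun _ _ => sum_congr rfl fun _ _ => by ring

omit [DecidableEq ι] in
theorem dl_sum (v : ι) (b : Bool) (c : ι → ℂ) : ∑ y ∈ d.O, c y * d.dl v b (d.G y) (d.Γ y) =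
    d.dl v b (∑ y ∈ d.O, c y • d.G y) (∑ y ∈ d.O, c y • d.Γ y) := by
  simp only [dl, map_sum, map_smul, smul_eq_mul, mul_sum, ← sum_add_distrib]
  exact sum_congr rfl fun _ _ => by ring

namespace OK

variable {d} (h : d.OK)
include h

theorem AO : d.A ⊆ d.O := (erase_subset _ _).trans h.ZO
theorem P1 : 1 ≤ d.P := le_trans (by norm_num) h.P9
theorem P0 : 0 < d.P := one_pos.trans_le h.P1
theorem C0 : 0 < d.nC := h.n0.trans_le h.nC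
theorem J0 : 0 < d.nJ := h.C0.trans_le h.nJ
theorem ν0 : 0 ≤ d.ν := (sum_nonneg fun _ _ => sq_nonneg _).trans h.mu2
theorem ε0 : 0 < d.n / d.P ^ 12 := div_pos h.n0 (pow_pos h.P0 _)

theorem div_le (k : ℕ) : d.n / d.P ^ k ≤ d.n := div_le_self h.n0.le (one_le_pow₀ h.P1)

theorem ν2 : d.ν ≤ 1 / 1000 := by
  have := L4.sm h.P9 0 40 0 (c := 1000) (by norm_num) (by norm_num) zero_le_one
  rw [pow_zero, div_one] at this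
  linarith [h.ν1]

theorem sΓ (y z : ι) : d.Γ y z = d.Γ z y := by simp only [Γ, Pi.sub_apply, h.sG y, h.sa y]

theorem σ2 : d.σ ^ 2 ≤ 4 * (d.n / d.P ^ 20) := by
  have a1 := le_mul_of_one_le_right (by positivity : 0 ≤ d.hb ^ 4) (one_le_pow₀ (n := 2) h.Λ1)
  have a2 : d.n / d.P ^ 40 ≤ d.n / d.P ^ 20 := div_le_div_of_nonneg_left h.n0.le (pow_pos h.P0 _)
    (pow_le_pow_right₀ h.P1 (by norm_num))
  rw [σ]
  nlinarith [h.γ4, h.hb4, sq_nonneg (d.γ ^ 2 - d.hb ^ 2)]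

theorem th0 (y : ι) : 0 ≤ d.th y := add_nonneg (by split_ifs <;> norm_num)
  (mul_nonneg h.κ0 (sum_nonneg fun _ _ => h.K0 _ _))

theorem th1 (y : ι) : d.th y ≤ 1001 / 1000 := by
  have a1 := mul_le_mul h.κ1 ((sum_le_sum_of_subset_of_nonneg h.ZO fun _ _ _ => h.K0 y _).trans
    (h.Kr y)) (sum_nonneg fun _ _ => h.K0 _ _) (by norm_num)
  rw [th, th4]
  split_ifs <;> linarith

theorem N0 : 0 ≤ d.N := sum_nonneg fun y _ => mul_nonneg (h.th0 y) (by positivity)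
theorem N1 : 0 < d.N' := add_pos_of_nonneg_of_pos h.N0 h.ε0
theorem N2 : d.N' ≤ 26 * d.n := by rw [N']; linarith [h.N4, h.div_le 12]
theorem s0 : 0 < d.s := sqrt_pos.2 (mul_pos h.C0 h.N1)
theorem s2 : d.s ^ 2 = d.nC * d.N' := sq_sqrt (mul_pos h.C0 h.N1).le
theorem l0 : 0 < d.lam := div_pos h.C0 (by linarith [h.s0])

theorem shi : d.s ≤ 6 * d.nC := by
  refine le_of_sq_le_sq ?_ (by linarith [h.C0])
  rw [h.s2]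
  nlinarith [h.C0, h.N2, h.nC]

theorem slo : d.nC ≤ d.P ^ 7 * d.s := by
  have := h.P0
  have := h.s0
  refine le_of_sq_le_sq ?_ (by positivity)
  have e : (d.P ^ 7) ^ 2 * (d.n / d.P ^ 12) = d.P ^ 2 * d.n := by field_simp
  have a : 0 ≤ (d.P ^ 7) ^ 2 * d.N := mul_nonneg (sq_nonneg _) h.N0
  rw [mul_pow, h.s2, N', mul_left_comm, sq]
  exact mul_le_mul_of_nonneg_left (by linarith [h.nJ, h.nP]) h.C0.le

theorem l1 : d.lam ≤ d.P ^ 7 / 200 := by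
  rw [lam, div_le_div_iff₀ (by linarith [h.s0]) (by norm_num)]
  linarith [h.slo]

theorem lN : d.lam * d.N' = d.s / 200 := by
  have := h.s0
  rw [lam, div_mul_eq_mul_div, ← h.s2]; field_simp

theorem ls : d.lam * d.s = d.nC / 200 := by
  have := h.s0
  rw [lam]; field_simp

theorem R0 : 0 ≤ d.R := by rw [R]; linarith [h.l0]

theorem R1 : d.R ≤ d.P ^ 7 := by
  have : (2 : ℝ) ≤ d.P ^ 7 := le_trans (by norm_num) (h.P9.trans (le_self_pow₀ h.P1 (by norm_num)))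
  rw [R]; linarith [h.l1]

theorem RN : d.R * d.N' ≤ 601 / 100 * d.s := by
  have a : d.N' ≤ 6 * d.s := le_of_mul_le_mul_left (by rw [← h.s2]; nlinarith [h.shi, h.s0]) h.C0
  rw [R]; linarith [h.lN]

theorem ρ0 (y : ι) : 0 ≤ d.ρ y :=
  add_nonneg (by split_ifs <;> norm_num) (mul_nonneg h.l0.le (h.th0 y))

theorem ρ1 (y : ι) : d.ρ y ≤ d.R := by
  have := mul_le_mul_of_nonneg_left (h.th1 y) h.l0.le
  rw [ρ, R]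
  split_ifs <;> linarith [h.l0]

theorem ρs (f : ι → ℝ) : ∑ y ∈ d.O, d.ρ y * f y =
    ∑ y ∈ d.C, f y + d.lam * ∑ y ∈ d.O, d.th y * f y := by
  simp only [ρ, add_mul, sum_add_distrib, ite_mul, one_mul, zero_mul, sum_ite_mem,
    inter_eq_right.2 h.CO, mul_sum, mul_assoc]

theorem ρ2 : ∑ y ∈ d.O, (d.ρ y * ‖d.Γ d.x y‖ ^ 2) ^ 2 ≤ 7 * d.nC := by
  refine (sum_le_sum (g := fun y => 2 * ((if y ∈ d.C then 1 else 0) * ‖d.Γ d.x y‖ ^ 4) +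
    4 * d.lam ^ 2 * (d.th y * ‖d.Γ d.x y‖ ^ 4)) fun y _ => ?_).trans ?_
  · have a1 := mul_le_mul_of_nonneg_left (h.th1 y) (mul_nonneg (sq_nonneg d.lam) (h.th0 y))
    have a2 : d.ρ y ^ 2 ≤ 2 * (if y ∈ d.C then 1 else 0) + 4 * d.lam ^ 2 * d.th y := by
      have := mul_nonneg (sq_nonneg d.lam) (h.th0 y)
      rw [ρ]
      split_ifs <;> nlinarith [sq_nonneg (1 - d.lam * d.th y)]
    have := mul_le_mul_of_nonneg_right a2 (by positivity : 0 ≤ ‖d.Γ d.x y‖ ^ 4)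
    linarith
  · simp only [sum_add_distrib, ← mul_sum, ite_mul, one_mul, zero_mul, sum_ite_mem,
      inter_eq_right.2 h.CO]
    have a1 : d.lam ^ 2 * d.N' = d.nC / 40000 := by
      rw [sq, mul_assoc, h.lN]; linarith [h.ls]
    have a2 := mul_nonneg (sq_nonneg d.lam) h.ε0.le
    have a3 : ∑ y ∈ d.O, d.th y * ‖d.Γ d.x y‖ ^ 4 = d.N := rfl
    rw [N'] at a1
    rw [a3]
    linarith [h.c4, h.C0]

theorem Ms0 (v : ι) (ξ : ι → ℂ) : 0 ≤ d.Ms v ξ :=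
  sum_nonneg fun _ _ => mul_nonneg (h.E0 _ _) (sq_nonneg _)

theorem Ms_sup {v : ι} (hv : v ∈ d.A) {ξ : ι → ℂ} {c : ℝ} (hc : ∀ w ∈ d.O, ‖ξ w‖ ^ 2 ≤ c) :
    d.Ms v ξ ≤ 21 / 20 * c :=
  (sum_le_sum fun w hw => mul_le_mul_of_nonneg_left (hc w hw) (h.E0 v w)).trans
    ((sum_mul _ _ _).symm.trans_le (mul_le_mul_of_nonneg_right (h.Er v hv)
      ((sq_nonneg _).trans (hc _ h.xO))))

theorem Ec' {w : ι} (hw : w ∈ d.O) : ∑ v ∈ d.A, d.E v w ≤ 53 / 50 := by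
  linarith [h.Ec w hw, h.th1 w, h.ν2]

theorem Ms_col (ξ : ι → ℂ) : ∑ v ∈ d.A, d.Ms v ξ ≤ 53 / 50 * ∑ w ∈ d.O, ‖ξ w‖ ^ 2 := by
  have := d.swap (fun _ => 1) ξ
  simp only [one_mul, mul_one] at this
  rw [this, mul_sum]
  exact sum_le_sum fun w hw => mul_le_mul_of_nonneg_right (h.Ec' hw) (sq_nonneg _)

theorem wsum {v : ι} (hv : v ∈ d.A) {f : ι → ι → ℝ} {c : ℝ} (c0 : 0 ≤ c)
    (hc : ∀ w ∈ d.O, ∑ y ∈ d.O, f y w ≤ c) : ∑ y ∈ d.O, ∑ w ∈ d.O, d.E v w * f y w ≤ 21 / 20 * c := by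
  rw [sum_comm]
  exact (sum_le_sum fun w hw => (mul_sum _ _ _).symm.trans_le (mul_le_mul_of_nonneg_left (hc w hw)
    (h.E0 v w))).trans ((sum_mul _ _ _).symm.trans_le (mul_le_mul_of_nonneg_right (h.Er v hv) c0))

theorem Ms_sq {v : ι} (hv : v ∈ d.A) {L : ι → ι → ℂ} {c : ℝ} (c0 : 0 ≤ c)
    (hc : ∀ w ∈ d.O, ∑ y ∈ d.O, (‖L y w‖ ^ 2) ^ 2 ≤ c) :
    ∑ y ∈ d.O, d.Ms v (L y) ^ 2 ≤ 441 / 400 * c := by
  refine (sum_le_sum fun y _ => L4.cs (h.E0 v) (h.Er v hv) _).trans ?_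
  rw [← mul_sum]
  linarith [h.wsum hv c0 hc]

theorem S0 {v : ι} (hv : v ∈ d.A) : ∑ y ∈ d.O, d.Ms v (d.G y) ≤ 21 / 10 := by
  have := h.wsum hv zero_le_two (f := fun y w => ‖d.G y w‖ ^ 2) fun w hw => by
    simpa only [h.sG _ w] using h.row w hw
  exact this.trans_eq (by norm_num)

theorem S3 {v : ι} (hv : v ∈ d.A) : ∑ y ∈ d.O, d.Ms v (d.G y) ^ 2 ≤ 3 / 10 ^ 10 := by
  refine (h.Ms_sq hv (c := 1 / 10 ^ 10 * 2) (by norm_num) fun w hw => ?_).trans (by norm_num)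
  refine le_trans (sum_le_sum fun y hy => ?_) ((mul_sum _ _ _).symm.trans_le
    (mul_le_mul_of_nonneg_left (h.row w hw) (by norm_num)))
  rw [sq, h.sG w]
  exact mul_le_mul_of_nonneg_right (h.sup y hy w hw) (sq_nonneg _)

theorem S4 {v : ι} (hv : v ∈ d.A) : ∑ y ∈ d.O, d.Ms v (d.Γ y) ^ 2 ≤ 7 / 2 * d.nJ := by
  refine (h.Ms_sq hv (c := 3 * d.nJ) (by linarith [h.J0]) fun w hw => ?_).trans
    (by linarith [h.J0])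
  simpa only [h.sΓ _ w, ← pow_mul] using h.k4 w hw

theorem F2 : ∑ v ∈ d.A, d.F v ^ 2 ≤ 441 / 400 * d.N' := by
  refine (sum_le_sum fun v hv => L4.cs (h.E0 v) (h.Er v hv) _).trans ?_
  rw [← mul_sum, sum_comm]
  have a1 : ∑ w ∈ d.O, ∑ v ∈ d.A, d.E v w * (‖d.Γ d.x w‖ ^ 2) ^ 2 ≤ 21 / 20 * d.N + d.ν * (3 * d.nJ) := by
    refine le_trans (sum_le_sum (g := fun w => 21 / 20 * (d.th w * ‖d.Γ d.x w‖ ^ 4) +
      d.ν * ‖d.Γ d.x w‖ ^ 4) fun w hw => ?_) ?_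
    · rw [← sum_mul]
      exact (mul_le_mul_of_nonneg_right (h.Ec w hw) (sq_nonneg _)).trans_eq (by ring)
    · rw [sum_add_distrib, ← mul_sum, ← mul_sum]
      exact add_le_add le_rfl (mul_le_mul_of_nonneg_left (h.k4 _ h.xO) h.ν0)
  have a2 := mul_le_mul h.ν1 h.nP h.J0.le (div_nonneg zero_le_one (pow_pos h.P0 _).le)
  have a3 := L4.sm h.P9 2 40 12 (c := 3) (by norm_num) (by norm_num) h.n0.le
  have a4 : 1 / d.P ^ 40 * (d.P ^ 2 * d.n) = d.P ^ 2 * (d.n / d.P ^ 40) := by ring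
  rw [N']
  linarith [h.ε0]

theorem F0 (v : ι) : 0 ≤ d.F v := h.Ms0 _ _
theorem X0 (v : ι) : 0 ≤ d.X v := h.Ms0 _ _
theorem f0 (w : ι) : 0 ≤ d.f1 w := sum_nonneg fun v _ => mul_nonneg (h.E0 _ _) (h.F0 v)
theorem τ0 (v : ι) : 0 ≤ d.τ v := by have := h.F0 v; have := h.X0 v; rw [τ]; positivity
omit h [DecidableEq ι] in
theorem μ0 (v : ι) : 0 ≤ d.μ v := by rw [μ]; positivity

theorem f2 : ∑ w ∈ d.O, d.f1 w ^ 2 ≤ 5 / 4 * d.N' := by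
  refine (sum_le_sum fun w hw => L4.cs (fun v => h.E0 v w) (h.Ec' hw) _).trans ?_
  rw [← mul_sum, sum_comm]
  have a1 : ∑ v ∈ d.A, ∑ w ∈ d.O, d.E v w * d.F v ^ 2 ≤ ∑ v ∈ d.A, 21 / 20 * d.F v ^ 2 :=
    sum_le_sum fun v hv => (sum_mul _ _ _).symm.trans_le
      (mul_le_mul_of_nonneg_right (h.Er v hv) (sq_nonneg _))
  rw [← mul_sum] at a1
  linarith [h.F2, h.N1]

theorem g2 : ∑ w ∈ d.O, ‖d.Γ d.x w‖ ^ 2 ≤ 6 := by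
  have a1 := M2A.opsq' h.opa (singleton_subset_iff.2 h.xO) fun _ => 1
  simp only [sum_singleton, mul_one, norm_one, one_pow, h.sa _ d.x] at a1
  refine (sum_le_sum fun w _ => L4.sq2' (d.G d.x w) (d.al d.x w)).trans ?_
  rw [sum_add_distrib, ← mul_sum, ← mul_sum]
  linarith [h.row _ h.xO]

theorem f3 : ∑ w ∈ d.O, d.f1 w ≤ 7 := by
  have a1 : ∑ w ∈ d.O, d.f1 w ≤ ∑ v ∈ d.A, 21 / 20 * d.F v := by
    unfold f1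
    rw [sum_comm]
    exact sum_le_sum fun v hv => (sum_mul _ _ _).symm.trans_le
      (mul_le_mul_of_nonneg_right (h.Er v hv) (h.F0 v))
  rw [← mul_sum] at a1
  have a2 : ∑ v ∈ d.A, d.F v ≤ _ := h.Ms_col _
  linarith [h.g2]

theorem Xs : ∑ v ∈ d.A, d.X v ≤ 53 / 25 := by
  have a2 : ∑ v ∈ d.A, d.X v ≤ _ := h.Ms_col _
  linarith [h.row _ h.xO]

theorem F1 {v : ι} (hv : v ∈ d.A) : d.F v ≤ 21 / 20 * (9 * d.γ ^ 2) := h.Ms_sup hv h.amp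
theorem X1 {v : ι} (hv : v ∈ d.A) : d.X v ≤ 21 / 20 * (1 / 10 ^ 10) := h.Ms_sup hv (h.sup _ h.xO)

theorem τ1 {v : ι} (hv : v ∈ d.A) : d.τ v ≤ 20 * d.σ := by
  have := mul_le_mul_of_nonneg_left (h.X1 hv) (sq_nonneg d.hb)
  rw [τ, σ]
  nlinarith [h.F1 hv, sq_nonneg d.γ, sq_nonneg d.hb]

theorem μs : ∑ v ∈ d.A, d.μ v ≤ 21 / 5 * d.ν := by
  simp only [μ, ← mul_sum]; linarith [h.mu2]

theorem μ1 {v : ι} (hv : v ∈ d.A) : d.μ v ≤ 21 / 5 * d.ν :=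
  (single_le_sum (fun v _ => μ0 v) hv).trans h.μs

theorem dl_sq {v : ι} (hv : v ∈ d.A) (b : Bool) (ξ ζ : ι → ℂ) :
    ‖d.dl v b ξ ζ‖ ^ 2 ≤ d.τ v * d.Ms v ξ + d.μ v * d.Ms v ζ := by
  refine (L4.sq3 _ _ _).trans ?_
  simp only [norm_mul, norm_sgn, one_mul, mul_pow, Complex.norm_real, Real.norm_eq_abs, sq_abs]
  have := mul_le_mul_of_nonneg_left (h.hu v hv ζ) (sq_nonneg (d.mu v))
  rw [τ, μ]
  linarith [h.ha v hv ξ, h.hh v hv b ξ]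

end OK

end D4

end Pool.Agent.P.MP_d0f69c_mp.XS.Pre
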