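import Pool.Agent.P.MP_d0f69c_mp.XS.PL4B

/-!
The monitor of the fourth powers for jumps with side channels: the terms of second order.
-/

set_option autoImplicit false

open Finset Real

namespace Pool.Agent.P.MP_d0f69c_mp.XS.Pre

namespace D4

variable {ι : Type} [DecidableEq ι] (d : D4 ι)

noncomputable def S1 (v : ι) : ℝ := ∑ y ∈ d.O, d.ρ y * ‖d.Γ d.x y‖ ^ 2 * d.Ms v (d.G y)
noncomputable def dd (v y : ι) : ℝ := d.τ v * d.Ms v (d.G y) + d.μ v * d.Ms v (d.Γ y)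
noncomputable def Q (v : ι) : ℝ :=
  ∑ y ∈ d.O, d.ρ y * (8 * (‖d.Γ d.x y‖ ^ 2 * d.dd v y) + 1003 * d.dd v y ^ 2)

namespace OK

variable {d} (h : d.OK)
include h

/-- the main part of the drift, by the positivity lemma -/
theorem main : ∑ v ∈ d.A, d.F v * d.S1 v ≤ 33 / 200000 * d.s + d.n / d.P ^ 6 := by
  have P0 := h.P0
  have n0 := h.n0
  have s0 := h.s0
  have C0 := h.C0
  obtain ⟨β, β0, β2⟩ : ∃ β : ℝ, 0 < β ∧ β ^ 2 = d.s / d.nC :=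
    ⟨√(d.s / d.nC), sqrt_pos.2 (by positivity), sq_sqrt (by positivity)⟩
  have b1 : β ≤ 3 := by
    refine le_of_sq_le_sq ?_ (by norm_num)
    rw [β2, div_le_iff₀ C0]
    linarith [h.shi]
  have b2 : 1 / β ≤ d.P ^ 7 := by
    refine le_of_sq_le_sq ?_ (by positivity)
    rw [div_pow, β2, one_pow, one_div_div, div_le_iff₀ s0]
    exact h.slo.trans (mul_le_mul_of_nonneg_right (le_self_pow₀ (one_le_pow₀ h.P1) two_ne_zero) s0.le)
  set p : ι → ℝ := fun y => 1 / β * d.f1 y with hp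
  set r : ι → ℝ := fun y => β * (d.ρ y * ‖d.Γ d.x y‖ ^ 2) with hr
  have p0 : ∀ y, 0 ≤ p y := fun y => mul_nonneg (by positivity) (h.f0 y)
  have r0 : ∀ y, 0 ≤ r y := fun y => mul_nonneg β0.le (mul_nonneg (h.ρ0 y) (sq_nonneg _))
  have a1 : ∑ y ∈ d.O, (p y + r y) ^ 2 ≤ 33 / 2 * d.s := by
    refine (sum_le_sum (g := fun y => 2 * (d.nC / d.s * d.f1 y ^ 2) +
      2 * (d.s / d.nC * (d.ρ y * ‖d.Γ d.x y‖ ^ 2) ^ 2)) fun y _ => ?_).trans ?_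
    · have e1 : p y ^ 2 = d.nC / d.s * d.f1 y ^ 2 := by
        simp only [hp]; rw [mul_pow, div_pow, β2, one_pow, one_div_div]
      have e2 : r y ^ 2 = d.s / d.nC * (d.ρ y * ‖d.Γ d.x y‖ ^ 2) ^ 2 := by
        simp only [hr]; rw [mul_pow, β2]
      rw [← e1, ← e2]
      nlinarith [sq_nonneg (p y - r y)]
    · rw [sum_add_distrib, ← mul_sum, ← mul_sum, ← mul_sum, ← mul_sum]
      have c1 := mul_le_mul_of_nonneg_left h.f2 (by positivity : 0 ≤ d.nC / d.s)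
      have c2 := mul_le_mul_of_nonneg_left h.ρ2 (by positivity : 0 ≤ d.s / d.nC)
      have c3 : d.nC / d.s * (5 / 4 * d.N') = 5 / 4 * d.s := by
        rw [mul_left_comm, div_mul_eq_mul_div d.nC, ← h.s2]; field_simp
      have c4 : d.s / d.nC * (7 * d.nC) = 7 * d.s := by field_simp
      linarith
  have a2 : ∑ y ∈ d.O, (p y + r y) ≤ 25 * d.P ^ 7 := by
    have c1 := mul_le_mul b2 h.f3 (sum_nonneg fun y _ => h.f0 y) (by positivity)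
    have c2 : ∑ y ∈ d.O, d.ρ y * ‖d.Γ d.x y‖ ^ 2 ≤ d.P ^ 7 * 6 :=
      (sum_le_sum fun y _ => mul_le_mul_of_nonneg_right ((h.ρ1 y).trans h.R1) (sq_nonneg _)).trans
        ((mul_sum _ _ _).symm.trans_le (mul_le_mul_of_nonneg_left h.g2 (by positivity)))
    have c3 := mul_le_mul b1 c2 (sum_nonneg fun y _ => mul_nonneg (h.ρ0 y) (sq_nonneg _))
      (by norm_num)
    simp only [sum_add_distrib, hp, hr, ← mul_sum]
    linarith
  have a3 := h.pc (fun y => p y + r y) (√(121 * d.P ^ 2 * d.n)) (sqrt_nonneg _)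
    (fun y => add_nonneg (p0 y) (r0 y)) (by
      rw [sq_sqrt (by positivity)]; linarith [h.shi, h.nJ, h.nP])
  have a4 : d.g0 * √(121 * d.P ^ 2 * d.n) ≤ 11 * d.P * (d.n / d.P ^ 15) := by
    refine le_of_sq_le_sq ?_ (by positivity)
    rw [mul_pow, sq_sqrt (by positivity)]
    exact (mul_le_mul_of_nonneg_right h.g02 (by positivity)).trans_eq (by field_simp; norm_num)
  have a5 := mul_le_mul a4 a2 (sum_nonneg fun y _ => add_nonneg (p0 y) (r0 y)) (by positivity)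
  have a6 := L4.sm h.P9 8 15 6 (c := 825) (by norm_num) (by norm_num) n0.le
  have a7 : ∑ v ∈ d.A, d.F v * d.S1 v = ∑ y ∈ d.O, ∑ w ∈ d.O, r y * ‖d.G y w‖ ^ 2 * p w := by
    simp only [S1, mul_sum]
    rw [sum_comm]
    refine sum_congr rfl fun y _ => ?_
    simp only [mul_left_comm (d.F _), ← mul_sum]
    rw [d.swap, mul_sum]
    refine sum_congr rfl fun w _ => ?_
    simp only [hp, hr, f1]
    field_simp
  have a8 : ∑ y ∈ d.O, ∑ w ∈ d.O, p y * ‖d.G y w‖ ^ 2 * r w =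
      ∑ y ∈ d.O, ∑ w ∈ d.O, r y * ‖d.G y w‖ ^ 2 * p w := by
    rw [sum_comm]
    exact sum_congr rfl fun y _ => sum_congr rfl fun w _ => by rw [h.sG w]; ring
  have a9 : ∑ y ∈ d.O, ∑ w ∈ d.O, p y * ‖d.G y w‖ ^ 2 * r w +
      ∑ y ∈ d.O, ∑ w ∈ d.O, r y * ‖d.G y w‖ ^ 2 * p w ≤
      ∑ y ∈ d.O, ∑ w ∈ d.O, (p y + r y) * ‖d.G y w‖ ^ 2 * (p w + r w) := by
    simp only [← sum_add_distrib]
    refine sum_le_sum fun y _ => sum_le_sum fun w _ => ?_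
    nlinarith [mul_nonneg (mul_nonneg (p0 y) (sq_nonneg ‖d.G y w‖)) (p0 w),
      mul_nonneg (mul_nonneg (r0 y) (sq_nonneg ‖d.G y w‖)) (r0 w)]
  have a10 : 0 ≤ d.n / d.P ^ 6 := by positivity
  rw [a7]
  nlinarith

omit h [DecidableEq ι] in
theorem σ0 : 0 ≤ d.σ := by rw [σ]; positivity

theorem S10 (v : ι) : 0 ≤ d.S1 v :=
  sum_nonneg fun y _ => mul_nonneg (mul_nonneg (h.ρ0 y) (sq_nonneg _)) (h.Ms0 _ _)

theorem S11 {v : ι} (hv : v ∈ d.A) : d.S1 v ≤ 19 * (d.R * d.σ) := by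
  have R0 := h.R0
  refine (sum_le_sum fun y hy => mul_le_mul_of_nonneg_right (mul_le_mul (h.ρ1 y) (h.amp y hy)
    (sq_nonneg _) R0) (h.Ms0 _ _)).trans ((mul_sum _ _ _).symm.trans_le
      ((mul_le_mul_of_nonneg_left (h.S0 hv) (by positivity)).trans ?_))
  rw [σ]
  nlinarith [mul_nonneg R0 (sq_nonneg d.γ), mul_nonneg R0 (sq_nonneg d.hb)]

theorem dd0 (v y : ι) : 0 ≤ d.dd v y :=
  add_nonneg (mul_nonneg (h.τ0 v) (h.Ms0 _ _)) (mul_nonneg (μ0 v) (h.Ms0 _ _))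

theorem dd2 {v : ι} (hv : v ∈ d.A) : ∑ y ∈ d.O, d.dd v y ^ 2 ≤
    6 / 10 ^ 10 * d.τ v ^ 2 + 7 * (d.μ v ^ 2 * d.nJ) := by
  refine (sum_le_sum (g := fun y => 2 * d.τ v ^ 2 * d.Ms v (d.G y) ^ 2 +
    2 * d.μ v ^ 2 * d.Ms v (d.Γ y) ^ 2) fun y _ => ?_).trans ?_
  · rw [dd]; nlinarith [sq_nonneg (d.τ v * d.Ms v (d.G y) - d.μ v * d.Ms v (d.Γ y))]
  · rw [sum_add_distrib, ← mul_sum, ← mul_sum]
    linarith [mul_le_mul_of_nonneg_left (h.S3 hv) (sq_nonneg (d.τ v)),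
      mul_le_mul_of_nonneg_left (h.S4 hv) (sq_nonneg (d.μ v))]

theorem Q0 (v : ι) : 0 ≤ d.Q v :=
  sum_nonneg fun y _ => mul_nonneg (h.ρ0 y) (by have := h.dd0 v y; positivity)

theorem Q1 {v : ι} (hv : v ∈ d.A) : d.Q v ≤ 8 * (d.τ v * d.S1 v) + 7 / 10 ^ 7 * (d.R * d.τ v ^ 2) +
    100 * (d.R * d.nJ * d.μ v) := by
  have R0 := h.R0
  have m0 := μ0 (d := d) v
  refine (sum_le_sum (g := fun y => 8 * d.τ v * (d.ρ y * ‖d.Γ d.x y‖ ^ 2 * d.Ms v (d.G y)) +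
    4 * (d.R * d.μ v) * (‖d.Γ d.x y‖ ^ 4 + d.Ms v (d.Γ y) ^ 2) + 1003 * d.R * d.dd v y ^ 2)
      fun y _ => ?_).trans ?_
  · have a1 := mul_le_mul_of_nonneg_right (h.ρ1 y) (sq_nonneg (d.dd v y))
    have a2 := mul_le_mul_of_nonneg_right (h.ρ1 y) (mul_nonneg m0
      (mul_nonneg (sq_nonneg ‖d.Γ d.x y‖) (h.Ms0 v (d.Γ y))))
    have a3 := mul_nonneg (mul_nonneg R0 m0) (sq_nonneg (‖d.Γ d.x y‖ ^ 2 - d.Ms v (d.Γ y)))
    have e : d.ρ y * (‖d.Γ d.x y‖ ^ 2 * d.dd v y) = d.τ v * (d.ρ y * ‖d.Γ d.x y‖ ^ 2 *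
      d.Ms v (d.G y)) + d.ρ y * (d.μ v * (‖d.Γ d.x y‖ ^ 2 * d.Ms v (d.Γ y))) := by rw [dd]; ring
    linarith
  · simp only [sum_add_distrib, ← mul_sum]
    have a1 := mul_le_mul_of_nonneg_left (add_le_add (h.k4 _ h.xO) (h.S4 hv)) (mul_nonneg R0 m0)
    have a2 := mul_le_mul_of_nonneg_left (h.dd2 hv) R0
    have a3 := mul_le_mul_of_nonneg_left ((h.μ1 hv).trans (mul_le_mul_of_nonneg_left h.ν2
      (by norm_num))) (mul_nonneg (mul_nonneg R0 h.J0.le) m0)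
    have a4 := mul_nonneg R0 (sq_nonneg (d.τ v))
    have a5 := mul_nonneg (mul_nonneg R0 h.J0.le) m0
    rw [S1]
    linarith

theorem t1 : 10 ^ 4 * (d.R * d.σ ^ 2) ≤ d.n / d.P ^ 12 := by
  have a1 := mul_le_mul h.R1 h.σ2 (sq_nonneg _) (pow_pos h.P0 _).le
  linarith [L4.sm h.P9 7 20 12 (c := 40000) (by norm_num) (by norm_num) h.n0.le]

theorem t2 : 1000 * (d.R * d.nJ * d.ν) ≤ d.n / d.P ^ 12 := by
  have P0 := h.P0
  have n0 := h.n0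
  have a1 := mul_le_mul (mul_le_mul h.R1 h.nP h.J0.le (by positivity)) h.ν1 h.ν0 (by positivity)
  have e : d.P ^ 7 * (d.P ^ 2 * d.n) * (1 / d.P ^ 40) = d.P ^ 9 * (d.n / d.P ^ 40) := by ring
  linarith [L4.sm h.P9 9 40 12 (c := 1000) (by norm_num) (by norm_num) h.n0.le]

theorem Q2 {v : ι} (hv : v ∈ d.A) : d.Q v ≤ d.n / d.P ^ 12 := by
  have a1 := mul_le_mul (h.τ1 hv) (h.S11 hv) (h.S10 v) (by linarith [σ0 (d := d)])
  have a2 := mul_le_mul_of_nonneg_left (pow_le_pow_left₀ (h.τ0 v) (h.τ1 hv) 2) h.R0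
  have a3 := mul_le_mul_of_nonneg_left (h.μ1 hv) (mul_nonneg h.R0 h.J0.le)
  have a4 := mul_nonneg h.R0 (sq_nonneg d.σ)
  linarith [h.Q1 hv, h.t1, h.t2]

theorem Q3 : ∑ v ∈ d.A, d.Q v ≤ 3 / 1000 * d.s + 18 * (d.n / d.P ^ 6) := by
  have R0 := h.R0
  have σ0 := σ0 (d := d)
  have b0 : d.hb ^ 2 ≤ d.σ := le_add_of_nonneg_left (sq_nonneg _)
  refine (sum_le_sum (g := fun v => 84 / 5 * (d.F v * d.S1 v) + 7 / 10 ^ 6 * d.R * d.F v ^ 2 +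
    609 * (d.R * d.σ ^ 2) * d.X v + 100 * (d.R * d.nJ) * d.μ v) fun v hv => ?_).trans ?_
  · have X0 := h.X0 v
    have a1 := mul_le_mul (mul_le_mul_of_nonneg_right b0 X0) (h.S11 hv) (h.S10 v) (by positivity)
    have a2 : (d.hb ^ 2 * d.X v) ^ 2 ≤ d.σ ^ 2 * d.X v := by
      rw [mul_pow]
      exact mul_le_mul (pow_le_pow_left₀ (sq_nonneg _) b0 2) (by nlinarith [h.X1 hv]) (sq_nonneg _)
        (sq_nonneg _)
    have a3 : d.τ v ^ 2 ≤ 10 * d.F v ^ 2 + 32 * (d.σ ^ 2 * d.X v) := by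
      rw [τ]; nlinarith [sq_nonneg (21 / 10 * d.F v - 4 * d.hb ^ 2 * d.X v), sq_nonneg (d.F v)]
    have a4 := mul_le_mul_of_nonneg_left a3 R0
    have a5 : 0 ≤ d.R * d.σ ^ 2 * d.X v := by positivity
    have e : d.τ v * d.S1 v = 21 / 10 * (d.F v * d.S1 v) + 4 * (d.hb ^ 2 * d.X v * d.S1 v) := by
      rw [τ]; ring
    linarith [h.Q1 hv]
  · simp only [sum_add_distrib, ← mul_sum]
    have a1 := mul_le_mul_of_nonneg_left h.F2 R0
    have a2 := mul_le_mul_of_nonneg_left h.Xs (mul_nonneg R0 (sq_nonneg d.σ))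
    have a3 := mul_le_mul_of_nonneg_left h.μs (mul_nonneg R0 h.J0.le)
    have a4 : d.n / d.P ^ 12 ≤ d.n / d.P ^ 6 := div_le_div_of_nonneg_left h.n0.le (pow_pos h.P0 _)
      (pow_le_pow_right₀ h.P1 (by norm_num))
    linarith [h.main, h.RN, h.t1, h.t2, h.s0, h.ε0]

end OK

end D4

end Pool.Agent.P.MP_d0f69c_mp.XS.Pre
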