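import Pool.Agent.P.MP_d0f69c_mp.XS.PL4C

/-!
The monitor of the fourth powers for jumps with side channels: the linear term and one step.
-/

set_option autoImplicit false

open Finset Real

namespace Pool.Agent.P.MP_d0f69c_mp.XS.Pre

namespace D4

variable {ι : Type} [DecidableEq ι] (d : D4 ι)

noncomputable def w (y : ι) : ℂ :=
  ((d.ρ y * ‖d.Γ d.x y‖ ^ 2 : ℝ) : ℂ) * (starRingEnd ℂ) (d.Γ d.x y)
noncomputable def δ (v : ι) (b : Bool) (y : ι) : ℂ := d.dl v b (d.G y) (d.Γ y)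
noncomputable def L (v : ι) (b : Bool) : ℝ := -4 * (∑ y ∈ d.O, d.w y * d.δ v b y).re
noncomputable def kv (v y : ι) : ℝ := (if y = v then 1 else 0) + d.κ * d.K y v
noncomputable def Rm (v : ι) : ℝ := 3 / 4 * d.lam * ∑ y ∈ d.O, d.kv v y * ‖d.Γ d.x y‖ ^ 4
noncomputable def Y (v : ι) (b : Bool) : ℝ := d.L v b + d.Q v - d.Rm v

omit [DecidableEq ι] in
theorem vs {M : ι → ι → ℂ} (hM : ∀ y z, M y z = M z y) (S : Finset ι) (c : ι → ℂ) (z : ι) :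
    (∑ y ∈ S, c y • M y) z = ∑ y ∈ S, M z y * c y := by
  simp only [Finset.sum_apply, Pi.smul_apply, smul_eq_mul]
  exact sum_congr rfl fun y _ => by rw [hM y z, mul_comm]

theorem amgm (p g b : ℝ) : p * (g * b) ≤ p ^ 2 + g ^ 4 + (b ^ 2) ^ 2 := by
  nlinarith [sq_nonneg (2 * p - g * b), sq_nonneg (g ^ 2 - b ^ 2), sq_nonneg (g ^ 2),
    sq_nonneg (b ^ 2)]

namespace OK

variable {d} (h : d.OK)
include h

theorem nw (y : ι) : ‖d.w y‖ = d.ρ y * ‖d.Γ d.x y‖ ^ 2 * ‖d.Γ d.x y‖ := by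
  rw [w, norm_mul, Complex.norm_conj, Complex.norm_of_nonneg (mul_nonneg (h.ρ0 y) (sq_nonneg _))]

theorem w1 (y : ι) : ‖d.w y‖ ≤ d.P ^ 7 * ‖d.Γ d.x y‖ ^ 3 := by
  rw [h.nw, mul_assoc, ← pow_succ]
  exact mul_le_mul_of_nonneg_right ((h.ρ1 y).trans h.R1) (by positivity)

theorem w2 : ∑ y ∈ d.O, ‖d.w y‖ ^ 2 ≤ 63 * d.σ * d.nC := by
  refine (sum_le_sum (g := fun y => 9 * d.σ * (d.ρ y * ‖d.Γ d.x y‖ ^ 2) ^ 2) fun y hy => ?_).trans ?_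
  · rw [h.nw, mul_pow, mul_comm]
    refine mul_le_mul_of_nonneg_right ((h.amp y hy).trans ?_) (sq_nonneg _)
    rw [σ]; linarith [sq_nonneg d.hb]
  · rw [← mul_sum]
    linarith [mul_le_mul_of_nonneg_left h.ρ2 (σ0 (d := d))]

theorem opΓ : OpLe d.O d.Γ (2 * d.Λ) := fun u => by
  have e : ap d.O d.Γ u = ap d.O d.G u - ap d.O d.al u := by
    funext y; simp only [ap, Γ, Pi.sub_apply, sub_mul, sum_sub_distrib]
  rw [e]
  nlinarith [nS_sub d.O (ap d.O d.G u) (ap d.O d.al u), h.opG u, h.opa u, h.Λ1, nS_nonneg d.O u]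

theorem v1 : ∑ u ∈ d.O, d.f1 u * ‖∑ y ∈ d.O, d.Γ u y * d.w y‖ ^ 2 ≤ d.n ^ 2 / d.P ^ 10 := by
  have P0 := h.P0
  have J0 := h.J0
  have n0 := h.n0
  set α : ι → ℂ := fun u => (√(d.f1 u + ‖d.Γ d.x u‖ ^ 2) : ℝ) with hα
  have a1 : ∀ u, ‖α u‖ ^ 2 = d.f1 u + ‖d.Γ d.x u‖ ^ 2 := fun u => by
    simp only [hα]
    rw [Complex.norm_of_nonneg (sqrt_nonneg _), sq_sqrt (add_nonneg (h.f0 u) (sq_nonneg _))]
  have a2 : ∑ u ∈ d.O, ‖α u‖ ^ 4 ≤ 71 * d.nJ := by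
    refine (sum_le_sum (g := fun u => 2 * d.f1 u ^ 2 + 2 * ‖d.Γ d.x u‖ ^ 4) fun u _ => ?_).trans ?_
    · rw [show ‖α u‖ ^ 4 = (‖α u‖ ^ 2) ^ 2 by ring, a1]
      nlinarith [sq_nonneg (d.f1 u - ‖d.Γ d.x u‖ ^ 2)]
    · rw [sum_add_distrib, ← mul_sum, ← mul_sum]
      linarith [h.f2, h.N2, h.k4 _ h.xO, h.nC, h.nJ]
  have a3 := M2A.qv (α := α) Subset.rfl Subset.rfl h.sΓ h.opΓ (N := 71 * d.nJ)
    (fun v hv => (h.k4 v hv).trans (by linarith)) a2 a2 (R := d.P ^ 7) (by positivity) (w := d.w)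
    (fun y => (h.w1 y).trans (mul_le_mul_of_nonneg_left (pow_le_pow_left₀ (norm_nonneg _)
      (le_of_sq_le_sq (by rw [a1]; linarith [h.f0 y]) (norm_nonneg _)) 3) (by positivity)))
    (m := d.nJ * d.P ^ 30) (by positivity)
  refine (sum_le_sum fun u _ => mul_le_mul_of_nonneg_right (by
    rw [a1]; linarith [sq_nonneg ‖d.Γ d.x u‖]) (sq_nonneg _)).trans (a3.trans ?_)
  have e : (d.P ^ 7) ^ 2 * (10 * (71 * d.nJ) ^ 3 / (d.nJ * d.P ^ 30) +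
      2 * (2 * d.Λ) ^ 2 * (d.nJ * d.P ^ 30) ^ 2 * (71 * d.nJ)) =
      d.nJ ^ 2 * (3579110 * d.P ^ 14 / d.P ^ 30 + 568 * d.P ^ 74 * (d.nJ * d.Λ ^ 2)) := by
    field_simp; ring
  have b1 := mul_le_mul (pow_le_pow_left₀ J0.le h.nP 2) (add_le_add_right
    (mul_le_mul_of_nonneg_left h.JΛ (by positivity : 0 ≤ 568 * d.P ^ 74))
    (3579110 * d.P ^ 14 / d.P ^ 30)) (by positivity) (by positivity)
  have b2 := L4.sm h.P9 18 30 10 (c := 2 * 3579110) (by norm_num) (by norm_num) (sq_nonneg d.n)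
  have b3 := L4.sm h.P9 78 100 10 (c := 2 * 568) (by norm_num) (by norm_num) (sq_nonneg d.n)
  have e2 : (d.P ^ 2 * d.n) ^ 2 * (3579110 * d.P ^ 14 / d.P ^ 30 + 568 * d.P ^ 74 * (1 / d.P ^ 100)) =
      3579110 * d.P ^ 18 * (d.n ^ 2 / d.P ^ 30) + 568 * d.P ^ 78 * (d.n ^ 2 / d.P ^ 100) := by ring
  rw [e]
  linarith

theorem v2 {u : ι} (hu : u ∈ d.O) : ‖∑ y ∈ d.O, d.Γ u y * d.w y‖ ^ 2 ≤ (d.P ^ 7 * (6 * d.nJ)) ^ 2 := by
  have P0 := h.P0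
  refine pow_le_pow_left₀ (norm_nonneg _) ((norm_sum_le _ _).trans ((sum_le_sum (g := fun y =>
    d.P ^ 7 * (‖d.Γ d.x y‖ ^ 4 + ‖d.Γ u y‖ ^ 4)) fun y _ => ?_).trans ?_)) 2
  · rw [norm_mul, mul_comm]
    refine (mul_le_mul_of_nonneg_right (h.w1 y) (norm_nonneg _)).trans ?_
    rw [mul_assoc]
    exact mul_le_mul_of_nonneg_left (by
      simpa using M2A.young (norm_nonneg (d.Γ d.x y)) (norm_nonneg (d.Γ u y)) one_pos) (by positivity)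
  · rw [← mul_sum, sum_add_distrib]
    exact mul_le_mul_of_nonneg_left (by linarith [h.k4 _ h.xO, h.k4 u hu]) (by positivity)

theorem v3 {u : ι} (hu : u ∈ d.O) : ‖∑ y ∈ d.O, d.G u y * d.w y‖ ^ 2 ≤ 2 * (63 * d.σ * d.nC) := by
  refine (pow_le_pow_left₀ (norm_nonneg _) (nS_cs _ _ _) 2).trans ?_
  rw [mul_pow, nS_sq, nS_sq]
  exact mul_le_mul (h.row u hu) h.w2 (sum_nonneg fun _ _ => sq_nonneg _) zero_le_two

/-- variation of the linear term -/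
theorem Lv (b : Bool) : ∑ v ∈ d.A, d.L v b ^ 2 ≤ 100 * (d.n ^ 2 / d.P ^ 10) := by
  have P0 := h.P0
  have σ0 := σ0 (d := d)
  have C0 := h.C0
  set Gw := ∑ y ∈ d.O, d.w y • d.G y with hG
  set Γw := ∑ y ∈ d.O, d.w y • d.Γ y with hΓ
  set aw := ∑ y ∈ d.O, d.w y • d.al y with ha
  have e1 : ∀ z, Gw z = Γw z + aw z := fun z => by
    simp only [hG, hΓ, ha, Γ, smul_sub, sum_sub_distrib, Pi.sub_apply, sub_add_cancel]
  have a1 : ∑ v ∈ d.A, d.F v * d.Ms v Γw ≤ d.n ^ 2 / d.P ^ 10 := by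
    rw [d.swap]
    simpa only [hΓ, vs h.sΓ, f1] using h.v1
  have a2 : ∑ v ∈ d.A, d.Ms v aw ≤ 53 / 50 * (63 * d.σ * d.nC) := by
    refine (h.Ms_col _).trans (mul_le_mul_of_nonneg_left ?_ (by norm_num))
    simp only [ha, vs h.sa]
    linarith [M2A.opsq h.opa d.w, h.w2]
  refine (sum_le_sum (g := fun v => 68 * (d.F v * d.Ms v Γw) + 640 * d.σ * d.Ms v aw +
    8500 * (d.σ ^ 2 * d.nC) * d.X v + 17 * (d.P ^ 7 * (6 * d.nJ)) ^ 2 * d.μ v)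
      fun v hv => ?_).trans ?_
  · have b1 := pow_le_pow_left₀ (abs_nonneg _) (Complex.abs_re_le_norm (d.dl v b Gw Γw)) 2
    have b2 := h.dl_sq hv b Gw Γw
    have b3 : d.Ms v Gw ≤ 2 * d.Ms v Γw + 2 * d.Ms v aw := by
      simp only [Ms, mul_sum, ← sum_add_distrib]
      exact sum_le_sum fun z _ => by
        rw [e1]; linarith [mul_le_mul_of_nonneg_left (L4.sq2 (Γw z) (aw z)) (h.E0 v z)]
    have b4 := mul_le_mul_of_nonneg_left b3 (h.F0 v)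
    have b5 : d.F v * d.Ms v aw ≤ 19 / 2 * d.σ * d.Ms v aw := mul_le_mul_of_nonneg_right
      ((h.F1 hv).trans (by rw [σ]; nlinarith [sq_nonneg d.γ, sq_nonneg d.hb])) (h.Ms0 _ _)
    have b6 := mul_le_mul (mul_le_mul_of_nonneg_right (show d.hb ^ 2 ≤ d.σ from
      le_add_of_nonneg_left (sq_nonneg _)) (h.X0 v)) (h.Ms_sup hv (ξ := Gw) fun z hz => by
        simpa only [hG, vs h.sG] using h.v3 hz) (h.Ms0 _ _) (mul_nonneg σ0 (h.X0 v))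
    have b7 := mul_le_mul_of_nonneg_left (h.Ms_sup hv (ξ := Γw) fun z hz => by
      simpa only [hΓ, vs h.sΓ] using h.v2 hz) (μ0 (d := d) v)
    have b8 := mul_nonneg (h.F0 v) (h.Ms0 v Γw)
    have b9 := mul_nonneg σ0 (h.Ms0 v aw)
    have c1 := mul_nonneg (mul_nonneg (sq_nonneg d.σ) C0.le) (h.X0 v)
    have c2 := mul_nonneg (sq_nonneg (d.P ^ 7 * (6 * d.nJ))) (μ0 (d := d) v)
    rw [sq_abs] at b1
    rw [τ] at b2
    simp only [L, δ]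
    rw [d.dl_sum, ← hG, ← hΓ, mul_pow]
    linarith
  · simp only [sum_add_distrib, ← mul_sum]
    have b1 := mul_le_mul_of_nonneg_left a2 σ0
    have b2 := mul_le_mul_of_nonneg_left h.Xs (mul_nonneg (sq_nonneg d.σ) C0.le)
    have b3 := mul_le_mul (pow_le_pow_left₀ (by have := h.J0; positivity) (mul_le_mul_of_nonneg_left
      (mul_le_mul_of_nonneg_left h.nP (by norm_num : (0 : ℝ) ≤ 6)) (by positivity : 0 ≤ d.P ^ 7)) 2)
      (h.μs.trans (mul_le_mul_of_nonneg_left h.ν1 (by norm_num))) (sum_nonneg fun v _ => μ0 v)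
      (sq_nonneg _)
    have b4 := mul_le_mul h.σ2 (h.nJ.trans h.nP) C0.le (by have := h.n0; positivity)
    have b5 := L4.sm h.P9 2 20 10 (c := 250000) (by norm_num) (by norm_num) (sq_nonneg d.n)
    have b6 := L4.sm h.P9 18 40 10 (c := 3000) (by norm_num) (by norm_num) (sq_nonneg d.n)
    have e2 : 4 * (d.n / d.P ^ 20) * (d.P ^ 2 * d.n) = 4 * d.P ^ 2 * (d.n ^ 2 / d.P ^ 20) := by ring
    have e3 : (d.P ^ 7 * (6 * (d.P ^ 2 * d.n))) ^ 2 * (21 / 5 * (1 / d.P ^ 40)) =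
      756 / 5 * d.P ^ 18 * (d.n ^ 2 / d.P ^ 40) := by ring
    have c1 : 0 ≤ d.P ^ 18 * (d.n ^ 2 / d.P ^ 40) := by positivity
    have c2 : 0 ≤ d.σ ^ 2 * d.nC := by positivity
    have c3 : 0 ≤ d.n ^ 2 / d.P ^ 10 := by positivity
    have c4 : 0 ≤ d.P ^ 2 * (d.n ^ 2 / d.P ^ 20) := by positivity
    linarith

theorem B1 (b : Bool) (ξ : ι → ℂ) :
    ‖∑ v ∈ d.A, d.h v b ξ‖ ^ 2 ≤ 9 / 4 * d.hb ^ 2 * ∑ w ∈ d.O, ‖ξ w‖ ^ 2 := by
  refine (pow_le_pow_left₀ (norm_nonneg _) (norm_sum_le _ _) 2).trans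
    ((sum_sq_le_sum_mul_sum_of_sq_le_mul _ (fun v _ => mul_nonneg (sq_nonneg _) (h.X0 v))
      (fun v _ => h.Ms0 v ξ) fun v hv => h.hh v hv b ξ).trans ?_)
  rw [← mul_sum]
  have a1 := mul_le_mul (mul_le_mul_of_nonneg_left h.Xs (sq_nonneg d.hb)) (h.Ms_col ξ)
    (sum_nonneg fun v _ => h.Ms0 v ξ) (by positivity)
  have a2 : 0 ≤ d.hb ^ 2 * ∑ w ∈ d.O, ‖ξ w‖ ^ 2 := by positivity
  linarith

theorem B2 (b : Bool) : ∑ y ∈ d.O, (‖∑ v ∈ d.A, d.h v b (d.G y)‖ ^ 2) ^ 2 ≤ 11 * (d.n / d.P ^ 40) := by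
  have Λ0 := zero_le_one.trans h.Λ1
  have a1 : nS d.O (fun y => ∑ v ∈ d.A, d.h v b (d.G y)) ≤ 3 / 2 * |d.hb| * d.Λ := by
    refine nS_dual (by positivity) fun ξ => le_of_sq_le_sq ?_ (mul_nonneg (by positivity)
      (nS_nonneg _ _))
    have e : ∑ y ∈ d.O, ξ y * ∑ v ∈ d.A, d.h v b (d.G y) =
        ∑ v ∈ d.A, d.h v b (∑ y ∈ d.O, ξ y • d.G y) := by
      simp only [map_sum, map_smul, smul_eq_mul, mul_sum]
      exact sum_comm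
    rw [e]
    refine (h.B1 b _).trans ?_
    simp only [vs h.sG, mul_pow, sq_abs, nS_sq]
    linarith [mul_le_mul_of_nonneg_left (M2A.opsq h.opG ξ) (sq_nonneg d.hb)]
  have a2 := pow_le_pow_left₀ (nS_nonneg _ _) a1 2
  rw [nS_sq, mul_pow, mul_pow, sq_abs] at a2
  refine (sum_le_sum (g := fun y => 9 / 2 * d.hb ^ 2 * ‖∑ v ∈ d.A, d.h v b (d.G y)‖ ^ 2)
    fun y hy => ?_).trans ?_
  · rw [sq]
    refine mul_le_mul_of_nonneg_right ((h.B1 b _).trans ?_) (sq_nonneg _)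
    linarith [mul_le_mul_of_nonneg_left (h.row y hy) (sq_nonneg d.hb)]
  · rw [← mul_sum]
    have : 0 ≤ d.hb ^ 4 * d.Λ ^ 2 := by positivity
    linarith [mul_le_mul_of_nonneg_left a2 (sq_nonneg d.hb), h.hb4]

theorem B3 (b : Bool) : ‖∑ y ∈ d.O, d.w y * ∑ v ∈ d.A, d.h v b (d.G y)‖ ≤ 11 * (d.n / d.P ^ 6) := by
  have P0 := h.P0
  refine (norm_sum_le _ _).trans (le_of_mul_le_mul_left ?_ (pow_pos P0 8))
  rw [mul_sum]
  refine (sum_le_sum (g := fun y => (d.ρ y * ‖d.Γ d.x y‖ ^ 2) ^ 2 + ‖d.Γ d.x y‖ ^ 4 +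
    d.P ^ 32 * (‖∑ v ∈ d.A, d.h v b (d.G y)‖ ^ 2) ^ 2) fun y _ => ?_).trans ?_
  · rw [norm_mul, h.nw]
    linarith [amgm (d.ρ y * ‖d.Γ d.x y‖ ^ 2) ‖d.Γ d.x y‖ (d.P ^ 8 * ‖∑ v ∈ d.A, d.h v b (d.G y)‖)]
  · rw [sum_add_distrib, sum_add_distrib, ← mul_sum]
    have a1 := mul_le_mul_of_nonneg_left (h.B2 b) (by positivity : 0 ≤ d.P ^ 32)
    have a2 := L4.sm h.P9 32 40 0 (c := 11) (by norm_num) (by norm_num) h.n0.le
    have a3 := le_mul_of_one_le_left h.n0.le (one_le_pow₀ (n := 2) h.P1)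
    have e : d.P ^ 8 * (11 * (d.n / d.P ^ 6)) = 11 * (d.P ^ 2 * d.n) := by field_simp
    rw [pow_zero, div_one] at a2
    linarith [h.ρ2, h.k4 _ h.xO, h.nJ, h.nP]

/-- drift of the linear term -/
theorem Ld : ∑ v ∈ d.A, (d.L v true + d.L v false) ≤ 88 * (d.n / d.P ^ 6) := by
  have e : ∑ v ∈ d.A, (d.L v true + d.L v false) =
      -4 * (∑ y ∈ d.O, d.w y * ∑ v ∈ d.A, d.h v true (d.G y)).re +
      -4 * (∑ y ∈ d.O, d.w y * ∑ v ∈ d.A, d.h v false (d.G y)).re := by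
    simp only [L, ← mul_add, ← Complex.add_re, ← sum_add_distrib, ← mul_sum, ← Complex.re_sum]
    simp only [mul_sum]
    rw [sum_comm]
    congr 2
    refine sum_congr rfl fun y _ => sum_congr rfl fun v _ => ?_
    simp only [δ, dl, sgn, if_true, Bool.false_eq_true, if_false]
    ring
  linarith [(abs_le.1 ((Complex.abs_re_le_norm _).trans (h.B3 true))).1,
    (abs_le.1 ((Complex.abs_re_le_norm _).trans (h.B3 false))).1]

end OK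

end D4

end Pool.Agent.P.MP_d0f69c_mp.XS.Pre
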