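import Pool.Agent.P.MP_d0f69c_mp.XS.PL4D
import Pool.Agent.P.MP_d0f69c_mp.XS.PIfF

/-!
The monitor of the fourth powers for jumps with side channels: one step, drift and variation.
-/

set_option autoImplicit false

open Finset Real

namespace Pool.Agent.P.MP_d0f69c_mp.XS.Pre

namespace D4

variable {ι : Type} [DecidableEq ι] (d : D4 ι)

theorem th_erase {v : ι} (hv : v ∈ d.Z) (y : ι) :
    th4 d.κ d.K (d.Z.erase v) y = d.th y - d.kv v y := by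
  rw [th, th4, th4, kv, ← add_sum_erase _ _ hv]
  by_cases e : y = v
  · rw [e, if_neg (notMem_erase _ _), if_pos hv, if_pos rfl]; ring
  · simp only [mem_erase, ne_eq, e, not_false_eq_true, true_and, if_false]; ring

theorem sum_kv (y : ι) : ∑ v ∈ d.A, d.kv v y = th4 d.κ d.K d.A y := by
  simp only [kv, th4, sum_add_distrib, sum_ite_eq, mul_sum]

namespace OK

variable {d} (h : d.OK)
include h

theorem kv0 (v y : ι) : 0 ≤ d.kv v y :=
  add_nonneg (by split_ifs <;> norm_num) (mul_nonneg h.κ0 (h.K0 _ _))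

theorem thA (y : ι) : d.th y - d.kv d.x y ≤ th4 d.κ d.K d.A y ∧ th4 d.κ d.K d.A y ≤ d.th y := by
  have := h.kv0 d.x y
  by_cases e : d.x ∈ d.Z
  · rw [A, d.th_erase e]; constructor <;> linarith
  · rw [A, erase_eq_of_notMem e, th]; constructor <;> linarith

theorem kv4 (v : ι) : ∑ y ∈ d.O, d.kv v y * ‖d.Γ d.x y‖ ^ 4 ≤ 162 * (d.n / d.P ^ 20) := by
  have a1 : ∑ y ∈ d.O, d.kv v y ≤ 2 := by
    simp only [kv, sum_add_distrib, sum_ite_eq', ← mul_sum, h.sK _ v]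
    have := mul_le_mul h.κ1 (h.Kr v) (sum_nonneg fun _ _ => h.K0 _ _) (by norm_num)
    split_ifs <;> linarith
  refine (sum_le_sum (g := fun y => d.kv v y * (9 * d.γ ^ 2) ^ 2) fun y hy =>
    mul_le_mul_of_nonneg_left ((by ring : _ = (‖d.Γ d.x y‖ ^ 2) ^ 2).trans_le
      (pow_le_pow_left₀ (sq_nonneg _) (h.amp y hy) 2)) (h.kv0 v y)).trans ?_
  rw [← sum_mul]
  linarith [mul_le_mul_of_nonneg_right a1 (sq_nonneg (9 * d.γ ^ 2)), h.γ4]

theorem Rm0 (v : ι) : 0 ≤ d.Rm v := mul_nonneg (by linarith [h.l0])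
  (sum_nonneg fun y _ => mul_nonneg (h.kv0 v y) (by positivity))

theorem lk : 200 * (d.lam * (d.n / d.P ^ 20)) ≤ d.n / d.P ^ 12 := by
  have := mul_le_mul_of_nonneg_right h.l1 (div_pos h.n0 (pow_pos h.P0 20)).le
  linarith [L4.sm h.P9 7 20 12 (c := 1) (by norm_num) (by norm_num) h.n0.le]

theorem Rm1 (v : ι) : d.Rm v ≤ d.n / d.P ^ 12 := by
  have := mul_le_mul_of_nonneg_left (h.kv4 v) h.l0.le
  rw [Rm]; linarith [h.lk, h.ε0]

theorem Rms : 3 / 800 * d.s - d.n / d.P ^ 5 ≤ ∑ v ∈ d.A, d.Rm v ∧ ∑ v ∈ d.A, d.Rm v ≤ d.nC := by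
  have P0 := h.P0
  have e : ∑ v ∈ d.A, d.Rm v = 3 / 4 * (d.lam * ∑ y ∈ d.O, th4 d.κ d.K d.A y * ‖d.Γ d.x y‖ ^ 4) := by
    simp only [Rm, ← mul_sum]
    rw [sum_comm, mul_assoc]
    simp only [← sum_mul, d.sum_kv]
  have a1 : d.N - 162 * (d.n / d.P ^ 20) ≤ ∑ y ∈ d.O, th4 d.κ d.K d.A y * ‖d.Γ d.x y‖ ^ 4 := by
    refine le_trans ?_ (sum_le_sum fun y _ => mul_le_mul_of_nonneg_right (h.thA y).1 (by positivity))
    simp only [sub_mul, sum_sub_distrib]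
    exact sub_le_sub le_rfl (h.kv4 _)
  have a2 : ∑ y ∈ d.O, th4 d.κ d.K d.A y * ‖d.Γ d.x y‖ ^ 4 ≤ d.N :=
    sum_le_sum fun y _ => mul_le_mul_of_nonneg_right (h.thA y).2 (by positivity)
  have a3 := mul_le_mul_of_nonneg_left a1 h.l0.le
  have a4 := mul_le_mul_of_nonneg_left a2 h.l0.le
  have a5 := h.lN
  have a6 := mul_le_mul_of_nonneg_right h.l1 h.ε0.le
  have a7 := mul_pos h.l0 h.ε0
  have a8 : d.P ^ 7 / 200 * (d.n / d.P ^ 12) = d.n / d.P ^ 5 / 200 := by field_simp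
  have a9 := L4.sm h.P9 0 12 5 (c := 2) (by norm_num) (by norm_num) h.n0.le
  rw [N'] at a5
  rw [e]
  constructor <;> linarith [h.lk, h.shi, h.ε0, h.C0]

theorem inc : Inc d.A d.Y (d.n / d.P ^ 4) (d.n ^ 2 / d.P ^ 8) := by
  have P0 := h.P0
  have n0 := h.n0
  constructor
  · have e : ∑ v ∈ d.A, (d.Y v true + d.Y v false) = ∑ v ∈ d.A, (d.L v true + d.L v false) +
        2 * ∑ v ∈ d.A, d.Q v - 2 * ∑ v ∈ d.A, d.Rm v := by
      simp only [Y, mul_sum, ← sum_add_distrib, ← sum_sub_distrib]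
      exact sum_congr rfl fun _ _ => by ring
    have a1 := L4.sm h.P9 0 6 4 (c := 248) (by norm_num) (by norm_num) n0.le
    have a2 := L4.sm h.P9 0 5 4 (c := 4) (by norm_num) (by norm_num) n0.le
    rw [e]
    linarith [h.Ld, h.Q3, h.Rms.1, h.s0]
  · have a1 : ∀ b, ∑ v ∈ d.A, d.Y v b ^ 2 ≤ 250 * (d.n ^ 2 / d.P ^ 10) := fun b => by
      refine (sum_le_sum (g := fun v => 2 * d.L v b ^ 2 + 2 * (d.n / d.P ^ 12) * d.Q v +
        2 * (d.n / d.P ^ 12) * d.Rm v) fun v hv => ?_).trans ?_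
      · have b1 := mul_le_mul_of_nonneg_right (h.Q2 hv) (h.Q0 v)
        have b2 := mul_le_mul_of_nonneg_right (h.Rm1 v) (h.Rm0 v)
        rw [Y]
        nlinarith [sq_nonneg (d.L v b - (d.Q v - d.Rm v)), mul_nonneg (h.Q0 v) (h.Rm0 v)]
      · simp only [sum_add_distrib, ← mul_sum]
        have b1 : ∑ v ∈ d.A, d.Q v + ∑ v ∈ d.A, d.Rm v ≤ 20 * (d.P ^ 2 * d.n) := by
          linarith [h.Q3, h.Rms.2, h.shi, h.div_le 6, h.nC, h.nJ, h.nP]
        have b2 := mul_le_mul_of_nonneg_left b1 h.ε0.le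
        have e : d.n / d.P ^ 12 * (20 * (d.P ^ 2 * d.n)) = 20 * (d.n ^ 2 / d.P ^ 10) := by field_simp
        have b3 : 0 ≤ d.n ^ 2 / d.P ^ 10 := by positivity
        linarith [h.Lv b]
    rw [sum_add_distrib]
    linarith [a1 true, a1 false,
      L4.sm h.P9 0 10 8 (c := 500) (by norm_num) (by norm_num) (sq_nonneg d.n)]

theorem δ4 {v : ι} (hv : v ∈ d.A) (b : Bool) : ∑ y ∈ d.O, (‖d.δ v b y‖ ^ 2) ^ 2 ≤ d.n := by
  refine (sum_le_sum fun y _ => pow_le_pow_left₀ (sq_nonneg _) (h.dl_sq hv b _ _) 2).trans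
    ((h.dd2 hv).trans ?_)
  have R1 : 1 ≤ d.R := by rw [R]; linarith [h.l0]
  have a1 := pow_le_pow_left₀ (h.τ0 v) (h.τ1 hv) 2
  have a2 := le_mul_of_one_le_left (sq_nonneg d.σ) R1
  have a3 := mul_le_mul_of_nonneg_right (mul_le_mul ((h.μ1 hv).trans (mul_le_mul_of_nonneg_left
    h.ν2 (by norm_num))) (h.μ1 hv) (μ0 v) (by norm_num)) h.J0.le
  have a4 := le_mul_of_one_le_left (mul_nonneg h.J0.le h.ν0) R1
  have a5 := mul_nonneg h.J0.le h.ν0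
  linarith [h.t1, h.t2, h.div_le 12, sq_nonneg d.σ, h.n0]

/-- one step -/
theorem step {v : ι} (hv : v ∈ d.A) (b : Bool) :
    q4 d.P d.n d.nC d.κ d.K (fun y => d.Γ d.x y - d.δ v b y - sgn b * (d.e v * d.u v (d.Γ y)))
      (d.O.erase v) (d.Z.erase v) (d.C.erase v) ≤
    q4 d.P d.n d.nC d.κ d.K (d.Γ d.x) d.O d.Z d.C + d.Y v b + 200 * d.e v * d.nJ := by
  have vZ := mem_of_mem_erase hv
  have C0 := h.C0
  have s0 := h.s0
  have l0 := h.l0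
  have w0 : ∀ y, 0 ≤ d.th y - d.kv v y := fun y => by
    rw [← d.th_erase vZ, th4]
    exact add_nonneg (by split_ifs <;> norm_num) (mul_nonneg h.κ0 (sum_nonneg fun _ _ => h.K0 _ _))
  have w1 : ∀ y, d.th y - d.kv v y ≤ d.th y := fun y => sub_le_self _ (h.kv0 v y)
  have sub : ∀ f : ι → ℝ, (∀ y, 0 ≤ f y) → ∑ y ∈ d.C, f y ≤ ∑ y ∈ d.O, f y := fun f hf =>
    sum_le_sum_of_subset_of_nonneg h.CO fun y _ _ => hf y
  have u4 : ∑ y ∈ d.O, (‖d.u v (d.Γ y)‖ ^ 2) ^ 2 ≤ 4 * d.nJ := by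
    refine (sum_le_sum fun y _ => pow_le_pow_left₀ (sq_nonneg _) (h.hu v hv _) 2).trans ?_
    simp only [mul_pow, ← mul_sum]
    linarith [h.S4 hv, h.J0]
  have a1 := L4.near (O := d.O) (C := d.C) (w := fun y => d.th y - d.kv v y)
    (g := fun y => d.Γ d.x y - d.δ v b y) (u := fun y => d.u v (d.Γ y)) (norm_sgn b).le (h.e0 v)
    (h.e1 v) (fun y _ => w0 y) C0.le h.nJ h.ε0.le
    ((sum_le_sum fun y _ => L4.pow4_hi _ _).trans (by
      rw [← mul_sum, sum_add_distrib]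
      linarith [h.c4, h.δ4 hv b, sub (fun y => (‖d.δ v b y‖ ^ 2) ^ 2) fun _ => sq_nonneg _, h.nC,
        h.nJ]))
    ((sub _ fun _ => sq_nonneg _).trans u4)
    ((sum_le_sum (g := fun y => 8 * (d.th y * ‖d.Γ d.x y‖ ^ 4) + 16 * (‖d.δ v b y‖ ^ 2) ^ 2)
      fun y _ => by
        linarith [mul_le_mul (w1 y) (L4.pow4_hi (d.Γ d.x y) (d.δ v b y)) (by positivity) (h.th0 y),
          mul_le_mul_of_nonneg_right (h.th1 y) (sq_nonneg (‖d.δ v b y‖ ^ 2)),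
          sq_nonneg (‖d.δ v b y‖ ^ 2)]).trans (by
      rw [sum_add_distrib, ← mul_sum, ← mul_sum]
      linarith [h.δ4 hv b, h.nC, h.nJ, h.n0, show ∑ y ∈ d.O, d.th y * ‖d.Γ d.x y‖ ^ 4 ≤ _ from h.N4]))
    ((sum_le_sum (g := fun y => 2 * (‖d.u v (d.Γ y)‖ ^ 2) ^ 2) fun y _ =>
      mul_le_mul_of_nonneg_right (by linarith [w1 y, h.th1 y]) (sq_nonneg _)).trans (by
        rw [← mul_sum]; linarith [h.J0]))
  have a2 := M2A.sqrt_tan (s := d.s) (a := d.nC * (∑ y ∈ d.O, (d.th y - d.kv v y) *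
    ‖d.Γ d.x y - d.δ v b y‖ ^ 4 + d.n / d.P ^ 12)) (mul_nonneg C0.le (add_nonneg (sum_nonneg
      fun y _ => mul_nonneg (w0 y) (by positivity)) h.ε0.le)) s0
  rw [h.s2, N', ← mul_sub, add_sub_add_right_eq_sub] at a2
  have a3 : ∀ t, d.nC * t / (2 * d.s) = 100 * (d.lam * t) := fun t => by rw [lam]; field_simp; ring
  rw [a3] at a2
  have a4 : ∑ y ∈ d.O, (d.ρ y * ‖d.Γ d.x y - d.δ v b y‖ ^ 4 -
      d.lam * (d.kv v y * ‖d.Γ d.x y - d.δ v b y‖ ^ 4)) ≤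
      ∑ y ∈ d.O, d.ρ y * ‖d.Γ d.x y‖ ^ 4 + d.Y v b := by
    simp only [Y, L, Q, Rm, Complex.re_sum, mul_sum, ← sum_add_distrib, ← sum_sub_distrib]
    refine sum_le_sum fun y _ => ?_
    have b1 := mul_le_mul_of_nonneg_left (L4.pow4 (d.Γ d.x y) (d.δ v b y)) (h.ρ0 y)
    have b2 := mul_le_mul_of_nonneg_left (L4.pow4_lo (d.Γ d.x y) (d.δ v b y))
      (mul_nonneg l0.le (h.kv0 v y))
    have b3 : d.lam * d.kv v y ≤ d.ρ y := (mul_le_mul_of_nonneg_left (sub_nonneg.1 (w0 y))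
      l0.le).trans (le_add_of_nonneg_left (by split_ifs <;> norm_num))
    have b4 := mul_le_mul_of_nonneg_right b3 (sq_nonneg (‖d.δ v b y‖ ^ 2))
    have b5 : ‖d.δ v b y‖ ^ 2 ≤ d.dd v y := h.dl_sq hv b _ _
    have b6 := mul_le_mul_of_nonneg_left (mul_le_mul_of_nonneg_left b5 (sq_nonneg ‖d.Γ d.x y‖))
      (h.ρ0 y)
    have b7 := mul_le_mul_of_nonneg_left (pow_le_pow_left₀ (sq_nonneg _) b5 2) (h.ρ0 y)
    rw [w, mul_assoc _ ((starRingEnd ℂ) _), Complex.re_ofReal_mul]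
    linarith
  rw [sum_sub_distrib, h.ρs, h.ρs, ← mul_sum] at a4
  simp only [sub_mul, sum_sub_distrib] at a1 a2
  have a5 : q4 d.P d.n d.nC d.κ d.K (d.Γ d.x) d.O d.Z d.C =
    ∑ y ∈ d.C, ‖d.Γ d.x y‖ ^ 4 + d.s / 100 := rfl
  have a6 : ∑ y ∈ d.O, d.th y * ‖d.Γ d.x y‖ ^ 4 = d.N := rfl
  rw [a6] at a4
  rw [a5, q4]
  refine le_trans (add_le_add (sum_le_sum_of_subset_of_nonneg (erase_subset _ _)
    fun _ _ _ => by positivity) (div_le_div_of_nonneg_right (sqrt_le_sqrt (mul_le_mul_of_nonneg_left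
      (add_le_add_left ?_ _) C0.le)) (by norm_num))) (a1.trans (by linarith))
  simp only [d.th_erase vZ, ← sum_sub_distrib, ← sub_mul]
  exact sum_le_sum_of_subset_of_nonneg (erase_subset _ _) fun y _ _ =>
    mul_nonneg (w0 y) (by positivity)

end OK

end D4

end Pool.Agent.P.MP_d0f69c_mp.XS.Pre
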