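import Pool.Agent.P.MP_d0f69c_mp.XS.PAlg1
import Pool.Agent.P.MP_d0f69c_mp.XS.PCov

/-!
Comparison of the effective potentials of two kernels.
-/

set_option autoImplicit false

open Finset Matrix Function

namespace Pool.Agent.P.MP_d0f69c_mp.XS.Pre

variable {ι : Type} [Fintype ι] [DecidableEq ι] {A A' b : Matrix ι ι ℂ}

theorem EY_cav {V : Type} [AddCommGroup V] [Module ℂ V] (Y : Finset ι) (ϖ : ι → Bool)
    (F : (ι → Bool) → V) : EY Y ϖ F = cav fun z => F (mix Y z ϖ) := rfl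

omit [Fintype ι] in
theorem mix_upd {Y : Finset ι} {v : ι} (hv : v ∈ Y) (z ϖ : ι → Bool) (c : Bool) :
    mix Y (update z v c) ϖ = update (mix Y z ϖ) v c := funext fun x => by
  by_cases h : x = v
  · simp [h, mix, hv]
  · simp [h, mix]

omit [Fintype ι] in
theorem mix_upd' {Y : Finset ι} {v : ι} (hv : v ∉ Y) (z ϖ : ι → Bool) (c : Bool) :
    mix Y (update z v c) ϖ = mix Y z ϖ := funext fun x => by
  by_cases h : x ∈ Y
  · simp [mix, h, update_of_ne (ne_of_mem_of_not_mem h hv)]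
  · simp [h, mix]

/-- the denominators of the flips are bounded below -/
def Den (A : Matrix ι ι ℂ) (c : ℝ) : Prop :=
  ∀ w v, 1 ≤ c * ‖2 * sgn (w v) * Tt A w v v - 1‖

theorem Den.ne {c : ℝ} (h : Den A c) (w : ι → Bool) (v : ι) :
    2 * sgn (w v) * Tt A w v v - 1 ≠ 0 := fun e => by
  have := h w v
  rw [e, norm_zero, mul_zero] at this
  linarith

theorem Den.le {c : ℝ} (h : Den A c) (w : ι → Bool) (v : ι) :
    ‖(2 * sgn (w v) * Tt A w v v - 1)⁻¹‖ ≤ c := by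
  rw [norm_inv, inv_eq_one_div, div_le_iff₀ (norm_pos_iff.2 (h.ne w v))]
  exact h w v

/-- the derivative of the scattering matrix has rank one -/
theorem KOK.Dc_Tt (h : KOK A) {c : ℝ} (hc : Den A c) (w : ι → Bool) (v : ι) :
    Dc v (Tt A) w = (2 * sgn (w v) * Tt A w v v - 1)⁻¹ •
      vecMulVec (fun x => Tt A w x v) fun y => Tt A w v y := by
  have e : Vs w + A + single v v (-2 * sgn (w v)) = Vs (update w v (!w v)) + A := by
    rw [Vs_flip]; abel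
  have h1 := inv_rank_one (v := v) (t := -2 * sgn (w v)) (h.unit w) (e ▸ h.unit _)
  rw [e] at h1
  have h2 : Dc v (Tt A) w = ((2 : ℂ)⁻¹ * sgn (w v)) • (Tt A w - Tt A (update w v (!w v))) := by
    unfold Dc
    cases hw : w v
    · rw [← hw, update_eq_self, hw]
      simp only [sgn, Bool.not_false, Bool.false_eq_true, if_false]; module
    · conv_lhs => rw [← hw, update_eq_self]
      simp only [sgn, Bool.not_true, if_true, mul_one]
  ext x y
  have h3 := congrFun (congrFun h1 x) y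
  simp only [Matrix.smul_apply, smul_eq_mul, of_apply] at h3
  rw [h2, Matrix.smul_apply, Matrix.smul_apply, smul_eq_mul, smul_eq_mul, vecMulVec_apply,
    eq_inv_mul_iff_mul_eq₀ (hc.ne w v)]
  unfold Tt
  linear_combination (-(2 : ℂ)⁻¹ * sgn (w v)) * h3 +
    ((Vs w + A)⁻¹ x v * (Vs w + A)⁻¹ v y) * sgn_sq (w v)

theorem Tt_sub (h : KOK A) (h' : KOK A') (hb : A' = A + b) (w : ι → Bool) :
    Tt A w - Tt A' w = Tt A' w * b * Tt A w := by
  have e : b = (Vs w + A') - (Vs w + A) := by rw [hb]; abel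
  rw [e, Matrix.mul_sub, Matrix.sub_mul, Tt, Tt, nonsing_inv_mul _ (h'.unit w), Matrix.one_mul,
    Matrix.mul_assoc, mul_nonsing_inv _ (h.unit w), Matrix.mul_one]

theorem KOK.psi_row (h : KOK A) (Y : Finset ι) (ϖ w : ι → Bool) (v x : ι) :
    (Tt A w * (1 - A * Ss A Y ϖ)⁻¹) v x = psi A Y ϖ v w x := by
  rw [psi, ← transpose_apply ((1 - Ss A Y ϖ * A)⁻¹ * Tt A w), transpose_mul,
    transpose_nonsing_inv, q_T h.symm (h.Ss_T Y ϖ), h.Tt_T]

omit [DecidableEq ι] in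
theorem quad_rank (P T' b T Q : Matrix ι ι ℂ) (v : ι) (c c' : ℂ) (ξ ξ' : ι → ℂ) :
    ξ ⬝ᵥ (P * ((c' • vecMulVec (fun x => T' x v) fun y => T' v y) * b *
        (c • vecMulVec (fun x => T x v) fun y => T v y)) * Q) *ᵥ ξ' =
      c' * c * (T' * b * T) v v * ((∑ x, ξ x * (P * T') x v) * ∑ x, ξ' x * (T * Q) v x) := by
  have e1 : (T' * b * T) v v = ((fun y => T' v y) ᵥ* b) ⬝ᵥ fun x => T x v := by
    simp only [Matrix.mul_apply, vecMul, dotProduct]
  have e2 : ∑ x, ξ x * (P * T') x v = ξ ⬝ᵥ P *ᵥ fun x => T' x v := by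
    simp only [Matrix.mul_apply, mulVec, dotProduct]
  have e3 : ∑ x, ξ' x * (T * Q) v x = ((fun y => T v y) ᵥ* Q) ⬝ᵥ ξ' := by
    simp only [Matrix.mul_apply, vecMul, dotProduct, mul_comm]
  rw [e1, e2, e3]
  simp only [Matrix.smul_mul, Matrix.mul_smul, vecMulVec_mul, mul_vecMulVec, smul_mulVec,
    vecMulVec_mulVec, mulVec_smul, dotProduct_smul, smul_eq_mul, op_smul_eq_mul]
  ring

omit [DecidableEq ι] in
theorem ent_rank (P T Q : Matrix ι ι ℂ) (v : ι) (c : ℂ) (x y : ι) :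
    (P * (c • vecMulVec (fun x => T x v) fun y => T v y) * Q) x y =
      c * (P * T) x v * (T * Q) v y := by
  rw [Matrix.mul_smul, Matrix.smul_mul, mul_vecMulVec, vecMulVec_mul, Matrix.smul_apply,
    vecMulVec_apply, smul_eq_mul, mul_assoc]
  rfl

/-- the mean square of the channel vector of `v` against `ξ` -/
noncomputable def Phi (A : Matrix ι ι ℂ) (Y : Finset ι) (ϖ : ι → Bool) (v : ι) (ξ : ι → ℂ) : ℝ :=
  av fun z => ‖∑ x, ξ x * psi A Y ϖ v (mix Y z ϖ) x‖ ^ 2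

theorem Phi_nonneg (A : Matrix ι ι ℂ) (Y : Finset ι) (ϖ : ι → Bool) (v : ι) (ξ : ι → ℂ) :
    0 ≤ Phi A Y ϖ v ξ := av_nonneg fun _ => sq_nonneg _

/-- the difference of the effective potentials is a sum of pieces centred at the unrevealed sites;
the piece of the chosen site `y` is explicit -/
theorem s3 (h : KOK A) (h' : KOK A') (hb : A' = A + b) {c bb : ℝ} (hc : Den A c) (hc' : Den A' c)
    (Y : Finset ι) (ϖ : ι → Bool) (y : ι)
    (hbb : ∀ v ∈ Y, ∀ w w', ‖(Tt A' w' * b * Tt A w) v v‖ ≤ bb) :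
    ∃ L : ι → Matrix ι ι ℂ, Ww A' Y ϖ - Ww A Y ϖ = -∑ v ∈ Y, L v ∧
      L y = Dt A' Y ϖ y * ((1 - A' * Ss A' Y ϖ) * b * (1 - Ss A Y ϖ * A)) * Dt A Y ϖ y ∧
      ∀ v ∈ Y, ∀ ξ ξ' : ι → ℂ,
        ‖ξ ⬝ᵥ L v *ᵥ ξ'‖ ≤ c ^ 2 * bb * (√(Phi A' Y ϖ v ξ) * √(Phi A Y ϖ v ξ')) := by
  obtain ⟨B, hB, hcov⟩ := cov_sum y
  set P := (1 - Ss A' Y ϖ * A')⁻¹ with hP
  set Q := (1 - A * Ss A Y ϖ)⁻¹ with hQ
  set F : (ι → Bool) → Matrix ι ι ℂ := fun z => Tt A' (mix Y z ϖ) * b with hF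
  set G : (ι → Bool) → Matrix ι ι ℂ := fun z => Tt A (mix Y z ϖ) with hG
  set pc : ι → Matrix ι ι ℂ := fun v => cav fun p : (ι → Bool) × (ι → Bool) =>
    Dc v F p.1 * Dc v G (mix (B v) p.1 p.2) with hpc
  have dF : ∀ v ∈ Y, ∀ z, Dc v F z = Dc v (Tt A') (mix Y z ϖ) * b := fun v hv z => by
    simp only [Dc, hF, mix_upd hv, Matrix.smul_mul, Matrix.sub_mul]
  have dG : ∀ v ∈ Y, ∀ z, Dc v G z = Dc v (Tt A) (mix Y z ϖ) := fun v hv z => by
    simp only [Dc, hG, mix_upd hv]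
  have h0 : ∀ v ∉ Y, pc v = 0 := fun v hv => by
    simp only [hpc, Dc, hG, mix_upd' hv, sub_self, smul_zero, Matrix.mul_zero, cav_const]
  have e1 : Ss A Y ϖ - Ss A' Y ϖ = Ss A' Y ϖ * b * Ss A Y ϖ + ∑ v ∈ Y, pc v := by
    have e2 : cav F = Ss A' Y ϖ * b := by rw [Ss, EY_mul]; rfl
    have e3 : cav (fun z => F z * G z) = Ss A Y ϖ - Ss A' Y ϖ := by
      rw [Ss, Ss, ← EY_sub]
      simp only [Tt_sub h h' hb]
      rfl
    have e4 := hcov _ F G
    rw [e2, e3, ← sum_subset (subset_univ Y) fun v _ hv => h0 v hv] at e4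
    exact sub_eq_iff_eq_add'.1 e4
  have e5 := two_kernel hb (h.q' Y ϖ) (h'.q Y ϖ) (h.q Y ϖ) e1
  have c0 : 0 ≤ c := (norm_nonneg _).trans (hc.le ϖ y)
  have key : ∀ v ∈ Y, ∀ ξ ξ' : ι → ℂ, ‖ξ ⬝ᵥ (P * pc v * Q) *ᵥ ξ'‖ ≤
      c ^ 2 * bb * (√(Phi A' Y ϖ v ξ) * √(Phi A Y ϖ v ξ')) := fun v hv ξ ξ' => by
    have b0 : 0 ≤ bb := (norm_nonneg _).trans (hbb v hv ϖ ϖ)
    let f : Matrix ι ι ℂ →ₗ[ℂ] ℂ :=
      { toFun := fun X => ξ ⬝ᵥ (P * X * Q) *ᵥ ξ'
        map_add' := fun X X' => by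
          simp only [Matrix.mul_add, Matrix.add_mul, add_mulVec, dotProduct_add]
        map_smul' := fun a X => by
          simp only [Matrix.mul_smul, Matrix.smul_mul, smul_mulVec, dotProduct_smul,
            RingHom.id_apply] }
    have e6 := cav_map f fun p : (ι → Bool) × (ι → Bool) =>
      Dc v F p.1 * Dc v G (mix (B v) p.1 p.2)
    refine (congrArg norm e6).trans_le ((norm_cav_le _).trans ?_)
    set u' : (ι → Bool) → ℝ := fun z => ‖∑ x, ξ x * psi A' Y ϖ v (mix Y z ϖ) x‖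
    set u : (ι → Bool) → ℝ := fun z => ‖∑ x, ξ' x * psi A Y ϖ v (mix Y z ϖ) x‖
    refine (av_mono (g := fun p => c ^ 2 * bb * (u' p.1 * u (mix (B v) p.1 p.2)))
      fun p => ?_).trans ?_
    · change ‖ξ ⬝ᵥ (P * _ * Q) *ᵥ ξ'‖ ≤ _
      rw [dF v hv, dG v hv, h.Dc_Tt hc, h'.Dc_Tt hc', quad_rank, norm_mul, norm_mul, norm_mul,
        norm_mul, sq]
      simp only [hQ, h.psi_row]
      exact mul_le_mul_of_nonneg_right (mul_le_mul (mul_le_mul (hc'.le _ _) (hc.le _ _)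
        (norm_nonneg _) c0) (hbb v hv _ _) (norm_nonneg _) (by positivity)) (by positivity)
    · rw [av_mul]
      refine mul_le_mul_of_nonneg_left ((av_mul_le _ _).trans (le_of_eq ?_)) (by positivity)
      rw [av_fst fun z => u' z ^ 2, av_mix (B v) fun z => u z ^ 2]
      rfl
  by_cases hy : y ∈ Y
  · refine ⟨fun v => P * pc v * Q, ?_, ?_, key⟩
    · rw [← Matrix.sum_mul, ← Matrix.mul_sum]; exact e5
    · have e7 : pc y = Dd A' Y ϖ y * b * Dd A Y ϖ y := by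
        simp only [hpc, hB]
        rw [cov_first, ← cav_sgn, ← cav_sgn, Dd, Dd, EY_mul]
        simp only [EY_cav, hF, hG, mix, if_pos hy, Matrix.smul_mul]
      simp only [e7, Dt, Matrix.mul_assoc]
      rw [← Matrix.mul_assoc (1 - A' * Ss A' Y ϖ)⁻¹, nonsing_inv_mul _ (h'.q' Y ϖ), Matrix.one_mul,
        ← Matrix.mul_assoc (1 - Ss A Y ϖ * A), mul_nonsing_inv _ (h.q Y ϖ), Matrix.one_mul]
  · refine ⟨update (fun v => P * pc v * Q) y _, ?_, update_self .., fun v hv => ?_⟩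
    · rw [sum_congr rfl fun v hv => update_of_ne (ne_of_mem_of_not_mem hv hy) _ _,
        ← Matrix.sum_mul, ← Matrix.mul_sum]
      exact e5
    · rw [update_of_ne (ne_of_mem_of_not_mem hv hy)]; exact key v hv

/-- the change of the dressed kernel -/
theorem s3_al (h : KOK A) (h' : KOK A') (hb : A' = A + b) (Y : Finset ι) (ϖ : ι → Bool) :
    al A' Y ϖ - al A Y ϖ = (1 - A' * Ss A' Y ϖ) * b * (1 - Ss A Y ϖ * A) -
      al A' Y ϖ * (Ww A' Y ϖ - Ww A Y ϖ) * al A Y ϖ :=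
  two_kernel_al hb (h.q Y ϖ) (h'.q Y ϖ) (h.q' Y ϖ)

theorem KOK.al_Dt_al (h : KOK A) (Y : Finset ι) (ϖ : ι → Bool) (v : ι) :
    al A Y ϖ * Dt A Y ϖ v * al A Y ϖ = A * Dd A Y ϖ v * A := by
  have e : al A Y ϖ * Dt A Y ϖ v * al A Y ϖ = (al A Y ϖ * (1 - Ss A Y ϖ * A)⁻¹) * Dd A Y ϖ v *
      ((1 - A * Ss A Y ϖ)⁻¹ * al A Y ϖ) := by simp only [Dt, Matrix.mul_assoc]
  rw [e, al, al_inv (h.q Y ϖ), inv_al (h.q' Y ϖ)]

/-- comparison of the jumps of the dressed kernels -/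
theorem s4 (h : KOK A) (h' : KOK A') (hb : A' = A + b) {c bb : ℝ} (hc : Den A c) (hc' : Den A' c)
    {Y : Finset ι} (ϖ : ι → Bool) {v : ι} (hv : v ∈ Y)
    (hbb : ∀ w w' x y, ‖(Tt A' w' * b * Tt A w) x y‖ ≤ bb) (x y : ι) :
    ‖(al A' Y ϖ * Dt A' Y ϖ v * al A' Y ϖ - al A Y ϖ * Dt A Y ϖ v * al A Y ϖ) x y‖ ≤
      c * bb * (av (fun z => ‖(A' * Tt A' (mix Y z ϖ)) x v‖) +
        av fun z => ‖(A * Tt A (mix Y z ϖ)) y v‖) := by
  have c0 : 0 ≤ c := (norm_nonneg _).trans (hc.le ϖ v)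
  set R' : (ι → Bool) → Matrix ι ι ℂ := fun w => 1 - A' * Tt A' w with hR'
  set R : (ι → Bool) → Matrix ι ι ℂ := fun w => 1 - Tt A w * A with hR
  have e0 : EY Y ϖ (fun w => sgn (w v) • b) = 0 := by
    rw [EY_half hv]; simp [sgn_not, EY_const]
  have e1 : ∀ w, A' * Tt A' w * A' - A * Tt A w * A = b - R' w * b * R w := fun w => by
    have := Tt_sub h h' hb w
    have e : A' * Tt A' w * A' - A * Tt A w * A - (b - R' w * b * R w) =
        -(A' * (Tt A w - Tt A' w - Tt A' w * b * Tt A w) * A) := by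
      simp only [hR, hR', hb]; noncomm_ring
    rw [this, sub_self, Matrix.mul_zero, Matrix.zero_mul, neg_zero] at e
    exact sub_eq_zero.1 e
  have e2 : al A' Y ϖ * Dt A' Y ϖ v * al A' Y ϖ - al A Y ϖ * Dt A Y ϖ v * al A Y ϖ =
      -cav fun z => Dc v (fun w => R' w * b * R w) (mix Y z ϖ) := by
    rw [h.al_Dt_al, h'.al_Dt_al, Dd, Dd, mul_EY, mul_EY, EY_mul, EY_mul, ← EY_sub]
    simp only [Matrix.mul_smul, Matrix.smul_mul, ← smul_sub, e1]
    simp only [smul_sub]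
    rw [EY_sub, e0, zero_sub, EY_cav, neg_inj]
    have := cav_sgn v fun z => R' (mix Y z ϖ) * b * R (mix Y z ϖ)
    simp only [mix, if_pos hv]
    refine this.trans (congrArg cav (funext fun z => ?_))
    simp only [Dc, mix_upd hv]
  have e3 : ∀ w, Dc v (fun w => R' w * b * R w) w =
      -(A' * Dc v (Tt A') w * b * R (update w v true)) -
        R' (update w v false) * b * (Dc v (Tt A) w * A) := fun w => by
    simp only [Dc, hR, hR', Matrix.mul_smul, Matrix.smul_mul, ← smul_neg, ← smul_sub]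
    congr 1
    noncomm_ring
  have nV : ∀ (w : ι → Bool) u, ‖sgn (w u)‖ = 1 := fun w u => norm_sgn _
  have e4 : ∀ w, ‖Dc v (fun w => R' w * b * R w) w x y‖ ≤
      c * bb * (‖(A' * Tt A' w) x v‖ + ‖(A * Tt A w) y v‖) := fun w => by
    have a1 : (A' * Dc v (Tt A') w * b * R (update w v true)) x y =
        (2 * sgn (w v) * Tt A' w v v - 1)⁻¹ * ((Tt A' w * b * Tt A (update w v true)) v y *
          sgn (update w v true y)) * (A' * Tt A' w) x v := by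
      rw [h'.Dc_Tt hc', ← mul_diagonal (fun x => sgn (update w v true x)),
        Matrix.mul_assoc (Tt A' w * b), ← Vs, h.Tt_V, Matrix.mul_assoc _ b, ent_rank,
        Matrix.mul_assoc _ b, mul_right_comm]
    have a2 : (R' (update w v false) * b * (Dc v (Tt A) w * A)) x y =
        (2 * sgn (w v) * Tt A w v v - 1)⁻¹ * (sgn (update w v false x) *
          (Tt A' (update w v false) * b * Tt A w) x v) * (A * Tt A w) y v := by
      have t : (A * Tt A w) y v = (Tt A w * A) v y := by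
        rw [← transpose_apply (Tt A w * A), transpose_mul, h.symm, h.Tt_T]
      rw [h.Dc_Tt hc, t, ← diagonal_mul (fun x => sgn (update w v false x)), ← Matrix.mul_assoc,
        ← Matrix.mul_assoc, ← Matrix.mul_assoc, ← Vs, h'.V_Tt, ent_rank]
    rw [e3, Matrix.sub_apply, Matrix.neg_apply, a1, a2, mul_add]
    refine (norm_sub_le _ _).trans (add_le_add ?_ ?_)
    · rw [norm_neg, norm_mul, norm_mul, norm_mul, nV, mul_one]
      exact mul_le_mul_of_nonneg_right (mul_le_mul (hc'.le _ _) (hbb _ _ _ _) (norm_nonneg _) c0)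
        (norm_nonneg _)
    · rw [norm_mul, norm_mul, norm_mul, nV, one_mul]
      exact mul_le_mul_of_nonneg_right (mul_le_mul (hc.le _ _) (hbb _ _ _ _) (norm_nonneg _) c0)
        (norm_nonneg _)
  rw [e2, Matrix.neg_apply, norm_neg]
  have e5 := cav_map (Matrix.entryLinearMap ℂ ℂ x y)
    fun z => Dc v (fun w => R' w * b * R w) (mix Y z ϖ)
  refine (congrArg norm e5).trans_le ((norm_cav_le _).trans ((av_mono fun z => e4 _).trans ?_))
  rw [av_mul, av_add]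

/-! ### the conjugate kernel -/

theorem EY_H (Y : Finset ι) (ϖ : ι → Bool) (F : (ι → Bool) → Matrix ι ι ℂ) :
    (EY Y ϖ F)ᴴ = EY Y ϖ fun w => (F w)ᴴ := by
  simp [EY, conjTranspose_smul, conjTranspose_sum]

theorem star_sgn (c : Bool) : star (sgn c) = sgn c := by cases c <;> simp [sgn]

omit [Fintype ι] in
theorem Vs_H (w : ι → Bool) : (Vs w)ᴴ = Vs w := by
  rw [Vs, diagonal_conjTranspose]; congr 1; funext x; exact star_sgn _

theorem Tt_H (A : Matrix ι ι ℂ) (w : ι → Bool) : Tt Aᴴ w = (Tt A w)ᴴ := by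
  rw [Tt, Tt, conjTranspose_nonsing_inv, conjTranspose_add, Vs_H]

theorem Ss_H (A : Matrix ι ι ℂ) (Y : Finset ι) (ϖ : ι → Bool) : Ss Aᴴ Y ϖ = (Ss A Y ϖ)ᴴ := by
  rw [Ss, Ss, EY_H]; simp only [← Tt_H]

theorem q_H (A : Matrix ι ι ℂ) (Y : Finset ι) (ϖ : ι → Bool) :
    1 - Ss Aᴴ Y ϖ * Aᴴ = (1 - A * Ss A Y ϖ)ᴴ := by
  rw [Ss_H, conjTranspose_sub, conjTranspose_one, conjTranspose_mul]

theorem q_H' (A : Matrix ι ι ℂ) (Y : Finset ι) (ϖ : ι → Bool) :
    1 - Aᴴ * Ss Aᴴ Y ϖ = (1 - Ss A Y ϖ * A)ᴴ := by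
  rw [Ss_H, conjTranspose_sub, conjTranspose_one, conjTranspose_mul]

theorem al_H (A : Matrix ι ι ℂ) (Y : Finset ι) (ϖ : ι → Bool) : al Aᴴ Y ϖ = (al A Y ϖ)ᴴ := by
  simp only [al, Ss_H, conjTranspose_sub, conjTranspose_mul, Matrix.mul_assoc]

theorem Dt_H (A : Matrix ι ι ℂ) (Y : Finset ι) (ϖ : ι → Bool) (v : ι) :
    Dt Aᴴ Y ϖ v = (Dt A Y ϖ v)ᴴ := by
  rw [Dt, Dt, q_H, q_H', conjTranspose_mul, conjTranspose_mul, conjTranspose_nonsing_inv,
    conjTranspose_nonsing_inv, Matrix.mul_assoc, Dd, Dd, EY_H]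
  simp only [conjTranspose_smul, star_sgn, Tt_H]

theorem KOK.conj (h : KOK A) : KOK Aᴴ where
  symm := by
    ext x y
    exact congrArg star (congrFun (congrFun h.symm y) x)
  unit := fun w => by
    rw [← Vs_H, ← conjTranspose_add, det_conjTranspose]; exact (h.unit w).star
  q := fun Y ϖ => by rw [q_H, det_conjTranspose]; exact (h.q' Y ϖ).star

theorem KOK.Ww_H (h : KOK A) (Y : Finset ι) (ϖ : ι → Bool) : Ww Aᴴ Y ϖ = (Ww A Y ϖ)ᴴ := by
  rw [Ww, Ww, W_eq (h.q Y ϖ) (h.q' Y ϖ), q_H, conjTranspose_mul, conjTranspose_nonsing_inv, Ss_H]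

theorem KOK.psi_H (h : KOK A) (Y : Finset ι) (ϖ w : ι → Bool) (v x : ι) :
    psi Aᴴ Y ϖ v w x = star (psi A Y ϖ v w x) := by
  rw [← h.psi_row, ← conjTranspose_apply, conjTranspose_mul, conjTranspose_nonsing_inv, psi, q_H,
    Tt_H]

theorem KOK.Phi_H (h : KOK A) (Y : Finset ι) (ϖ : ι → Bool) (v : ι) (ξ : ι → ℂ) :
    Phi Aᴴ Y ϖ v ξ = Phi A Y ϖ v (star ξ) := by
  unfold Phi
  refine congrArg av (funext fun z => ?_)
  rw [← norm_star, star_sum]
  simp only [h.psi_H, star_mul', star_star, Pi.star_apply]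

theorem Den.conj {c : ℝ} (h : Den A c) : Den Aᴴ c := fun w v => by
  have := h w v
  rw [← norm_star] at this
  simpa [Tt_H, conjTranspose_apply, star_sgn] using this

end Pool.Agent.P.MP_d0f69c_mp.XS.Pre
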