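import Pool.Agent.P.MP_d0f69c_mp.XS.PAlg2
import Pool.Agent.P.MP_d0f69c_mp.XS.PS3
import Pool.Agent.P.MP_d0f69c_mp.XS.ChaosB

/-!
The recursion for the mean square amplitudes of the channels.
-/

set_option autoImplicit false

open Finset Function
open scoped Matrix

namespace Pool.Agent.P.MP_d0f69c_mp.XS.Pre

variable {ι : Type} [Fintype ι] [DecidableEq ι]

/-- real average over the signs on `Y` -/
noncomputable def eY (Y : Finset ι) (ϖ : ι → Bool) (f : (ι → Bool) → ℝ) : ℝ :=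
  av fun z => f (mix Y z ϖ)

section eY

variable {Y : Finset ι} {ϖ : ι → Bool} {f g : (ι → Bool) → ℝ}

theorem eY_mono (h : ∀ w, (∀ x ∉ Y, w x = ϖ x) → f w ≤ g w) : eY Y ϖ f ≤ eY Y ϖ g :=
  av_mono fun _ => h _ fun _ hx => if_neg hx

theorem eY_nonneg (h : ∀ w, 0 ≤ f w) : 0 ≤ eY Y ϖ f := av_nonneg fun _ => h _

theorem eY_add (f g : (ι → Bool) → ℝ) : eY Y ϖ (fun w => f w + g w) = eY Y ϖ f + eY Y ϖ g :=
  av_add _ _

theorem eY_mul (c : ℝ) (f : (ι → Bool) → ℝ) : eY Y ϖ (fun w => c * f w) = c * eY Y ϖ f :=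
  av_mul _ _

theorem eY_const (c : ℝ) : eY Y ϖ (fun _ => c) = c := av_const c

theorem eY_sum {κ : Type} (s : Finset κ) (f : κ → (ι → Bool) → ℝ) :
    eY Y ϖ (fun w => ∑ i ∈ s, f i w) = ∑ i ∈ s, eY Y ϖ (f i) := av_sum s _

theorem eY_le {c : ℝ} (h : ∀ w, (∀ x ∉ Y, w x = ϖ x) → f w ≤ c) : eY Y ϖ f ≤ c :=
  (eY_mono h).trans_eq (eY_const c)

theorem eY_coe (f : (ι → Bool) → ℝ) : EY Y ϖ (fun w => (f w : ℂ)) = (eY Y ϖ f : ℝ) := EY_real f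

theorem norm_EY' (F : (ι → Bool) → ℂ) : ‖EY Y ϖ F‖ ≤ eY Y ϖ fun w => ‖F w‖ := norm_EY F

theorem eY_cs (f g : (ι → Bool) → ℝ) : eY Y ϖ (fun w => f w * g w) ≤
    √(eY Y ϖ fun w => f w ^ 2) * √(eY Y ϖ fun w => g w ^ 2) := by
  rw [← Real.sqrt_mul (eY_nonneg fun w => sq_nonneg _)]
  refine Real.le_sqrt_of_sq_le ?_
  simp only [eY, av, div_pow, div_mul_div_comm, ← sq]
  exact div_le_div_of_nonneg_right (sum_mul_sq_le_sq_mul_sq _ _ _) (sq_nonneg _)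

theorem eY_sq (f : (ι → Bool) → ℝ) : eY Y ϖ f ^ 2 ≤ eY Y ϖ fun w => f w ^ 2 := by
  have h1 := eY_nonneg (Y := Y) (ϖ := ϖ) (f := fun w => (f w - eY Y ϖ f) ^ 2) fun w => sq_nonneg _
  have e : ∀ w, (f w - eY Y ϖ f) ^ 2 = f w ^ 2 + (-2 * eY Y ϖ f * f w + eY Y ϖ f ^ 2) :=
    fun w => by ring
  simp only [e, eY_add, eY_mul, eY_const] at h1
  linarith

/-- the mean over `Y` is the mean of the two conditional means -/
theorem eY_split {v : ι} (hv : v ∈ Y) (f : (ι → Bool) → ℝ) : 2 * eY Y ϖ f =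
    eY (Y.erase v) (update ϖ v true) f + eY (Y.erase v) (update ϖ v false) f := by
  have h1 := EY_step (ϖ := ϖ) hv true fun w => (f w : ℂ)
  have h2 := EY_step (ϖ := ϖ) hv false fun w => (f w : ℂ)
  rw [eY_coe, eY_coe] at h1 h2
  have : ((2 * eY Y ϖ f : ℝ) : ℂ) = (eY (Y.erase v) (update ϖ v true) f +
      eY (Y.erase v) (update ϖ v false) f : ℝ) := by
    push_cast
    rw [h1, h2]; simp [sgn]; ring
  exact_mod_cast this

theorem es_Y (Y : Finset ι) (ϖ : ι → Bool) (F : (ι → Bool) → ℂ) :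
    eY Y ϖ (fun w => ‖F w‖ ^ 2) ≤ ‖EY Y ϖ F‖ ^ 2 +
      ∑ u ∈ Y, eY Y ϖ fun w => ‖(F w - F (update w u (!w u))) / 2‖ ^ 2 := by
  have := Ch.es2_mix Y F ϖ
  rwa [show (Ch.mn fun s => F (mix Y s ϖ)) = EY Y ϖ F by
    rw [Ch.mn, EY, smul_eq_mul, div_eq_inv_mul]] at this

/-- decoupling by a majorant that holds with high probability -/
theorem eY_dec {b p k m : ℝ} (hp : pr (fun z => b < f (mix Y z ϖ)) ≤ p) (f0 : ∀ w, 0 ≤ f w)
    (hk : ∀ w, f w ≤ k) (g0 : ∀ w, 0 ≤ g w) (hm : ∀ w, g w ≤ m) :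
    eY Y ϖ (fun w => f w ^ 2 * g w) ≤ b ^ 2 * eY Y ϖ g + p * k ^ 2 * m := by
  classical
  have m0 : 0 ≤ k ^ 2 * m := mul_nonneg (sq_nonneg _) ((g0 ϖ).trans (hm ϖ))
  have e : ∀ w, f w ^ 2 * g w ≤ b ^ 2 * g w + k ^ 2 * m * if b < f w then 1 else 0 := fun w => by
    have a := mul_nonneg (sq_nonneg b) (g0 w)
    split_ifs with hw
    · have := mul_le_mul (pow_le_pow_left₀ (f0 w) (hk w) 2) (hm w) (g0 w) (sq_nonneg _)
      linarith
    · have := mul_le_mul_of_nonneg_right (pow_le_pow_left₀ (f0 w) (not_lt.1 hw) 2) (g0 w)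
      linarith
  refine (eY_mono fun w _ => e w).trans ?_
  rw [eY_add, eY_mul, eY_mul, mul_assoc p, mul_comm p]
  rw [pr_eq_av] at hp
  refine add_le_add le_rfl (mul_le_mul_of_nonneg_left (le_of_eq_of_le ?_ hp) m0)
  unfold eY
  congr

end eY

theorem Phi_eq (A : Matrix ι ι ℂ) (Y : Finset ι) (ϖ : ι → Bool) (v : ι) (ξ : ι → ℂ) :
    Phi A Y ϖ v ξ = eY Y ϖ fun w => ‖Fv A Y ϖ v ξ w‖ ^ 2 := rfl

/-- small diagonal of the dressed kernel of every configuration -/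
structure DOK (A : Matrix ι ι ℂ) (e : ℝ) : Prop extends KOK A where
  e1 : e ≤ 1 / 100
  dg : ∀ w x, ‖(A - A * Tt A w * A) x x‖ ≤ e

namespace DOK

variable {A : Matrix ι ι ℂ} {e : ℝ} (h : DOK A e) (Y : Finset ι) (ϖ : ι → Bool)
include h

theorem e0 (x : ι) : 0 ≤ e := (norm_nonneg _).trans (h.dg (fun _ => true) x)

theorem sT (w : ι → Bool) (v : ι) :
    sgn (w v) * Tt A w v v = 1 - sgn (w v) * (A - A * Tt A w * A) v v := by
  rw [h.Tt_app w v v, if_pos rfl]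
  linear_combination (1 - sgn (w v) * (A - A * Tt A w * A) v v) * sgn_sq (w v)

theorem sa_le (w : ι → Bool) (v : ι) : ‖sgn (w v) * (A - A * Tt A w * A) v v‖ ≤ e := by
  rw [norm_mul, norm_sgn, one_mul]; exact h.dg w v

theorem T_le (w : ι → Bool) (v : ι) : 99 / 100 ≤ ‖Tt A w v v‖ ∧ ‖Tt A w v v‖ ≤ 101 / 100 := by
  have e1 : ‖Tt A w v v‖ = ‖1 - sgn (w v) * (A - A * Tt A w * A) v v‖ := by
    rw [← h.sT, norm_mul, norm_sgn, one_mul]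
  have a1 := norm_sub_norm_le 1 (sgn (w v) * (A - A * Tt A w * A) v v)
  have a2 := norm_sub_le 1 (sgn (w v) * (A - A * Tt A w * A) v v)
  rw [norm_one] at a1 a2
  have := h.sa_le w v
  have := h.e1
  constructor <;> linarith

theorem cc_le (w : ι → Bool) (v : ι) : ‖cc A v w‖ ≤ 50 / 49 := by
  have a1 := norm_sub_norm_le 1 (2 * (sgn (w v) * (A - A * Tt A w * A) v v))
  rw [norm_one, norm_mul, Complex.norm_two] at a1
  rw [cc, mul_assoc, h.sT, norm_inv, show 2 * (1 - sgn (w v) * (A - A * Tt A w * A) v v) - 1 =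
    1 - 2 * (sgn (w v) * (A - A * Tt A w * A) v v) by ring]
  have := h.sa_le w v
  have := h.e1
  rw [inv_le_comm₀ (by linarith) (by norm_num)]
  linarith

omit h in
theorem T_off (h : KOK A) (w : ι → Bool) {u v : ι} (huv : u ≠ v) :
    ‖Tt A w u v‖ = ‖(A - A * Tt A w * A) u v‖ := by
  rw [h.Tt_app w u v, if_neg huv, zero_sub, norm_neg, norm_mul, norm_mul, norm_sgn, norm_sgn,
    one_mul, mul_one]

theorem bf_le {v : ι} (hv : v ∈ Y) (ξ ζ : ι → ℂ) :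
    ‖bf (Dt A Y ϖ v) ξ ζ‖ ≤ 50 / 49 * (√(Phi A Y ϖ v ξ) * √(Phi A Y ϖ v ζ)) := by
  rw [h.bf_Dt Y ϖ hv]
  refine (norm_EY' _).trans ((eY_mono (g := fun w => 50 / 49 *
    (‖Fv A Y ϖ v ξ w‖ * ‖Fv A Y ϖ v ζ w‖)) fun w _ => ?_).trans ?_)
  · rw [norm_mul, norm_mul]
    exact mul_le_mul_of_nonneg_right (h.cc_le w v) (by positivity)
  · rw [eY_mul]
    exact mul_le_mul_of_nonneg_left (eY_cs _ _) (by norm_num)

theorem Phi_al (v x : ι) : Phi A Y ϖ v (al A Y ϖ x) =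
    eY Y ϖ fun w => ‖(A - A * Tt A w * A) x v‖ ^ 2 := by
  simp only [Phi_eq, h.Fv_al, h.A_Tt, norm_mul, norm_sgn, mul_one]

/-- the mean of the amplitude is small -/
theorem z_le {v : ι} (hv : v ∈ Y) (ξ : ι → ℂ) :
    ‖∑ x, ξ x * Ww A Y ϖ x v‖ ≤ 50 / 49 * e * √(Phi A Y ϖ v ξ) := by
  have e1 : ∑ x, ξ x * Ww A Y ϖ x v = -bf (Dt A Y ϖ v) ξ (al A Y ϖ v) := by
    rw [bf, dotProduct, ← sum_neg_distrib]
    refine sum_congr rfl fun x _ => ?_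
    rw [← mul_neg, ← neg_neg (Ww A Y ϖ x v), ← h.Dt_al Y ϖ hv, Matrix.mul_apply]
    congr 2
    exact sum_congr rfl fun y _ => by rw [← h.al_T, Matrix.transpose_apply, h.al_T]
  have e2 : √(Phi A Y ϖ v (al A Y ϖ v)) ≤ e := Real.sqrt_le_iff.2 ⟨h.e0 v, by
    rw [h.Phi_al]; exact eY_le fun w _ => pow_le_pow_left₀ (norm_nonneg _) (h.dg w v) 2⟩
  rw [e1, norm_neg]
  refine (h.bf_le Y ϖ hv _ _).trans ?_
  rw [mul_assoc, mul_comm e]
  gcongr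

theorem dF_le (ξ : ι → ℂ) {v u : ι} (huv : u ≠ v) (w : ι → Bool) :
    ‖(Fv A Y ϖ v ξ w - Fv A Y ϖ v ξ (update w u (!w u))) / 2‖ ^ 2 ≤
      21 / 20 * (‖(A - A * Tt A w * A) u v‖ ^ 2 * ‖Fv A Y ϖ u ξ w‖ ^ 2) := by
  rw [h.Fv_flip, show ∀ a b c : ℂ, 2 * a * b * c / 2 = a * (b * c) from fun a b c => by ring,
    norm_mul, norm_sgn, one_mul, norm_mul, norm_mul, T_off h.toKOK w huv, mul_pow, mul_pow,
    mul_comm (‖Fv A Y ϖ u ξ w‖ ^ 2)]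
  refine mul_le_mul_of_nonneg_right ((pow_le_pow_left₀ (norm_nonneg _) (h.cc_le w u) 2).trans
    (by norm_num)) (by positivity)

/-- the recursion -/
theorem rec1 {v : ι} (hv : v ∈ Y) (ξ : ι → ℂ) : Phi A Y ϖ v ξ ≤ 1001 / 1000 * ‖ξ v‖ ^ 2 +
    11 / 10 * ∑ u ∈ Y.erase v,
      eY Y ϖ fun w => ‖(A - A * Tt A w * A) u v‖ ^ 2 * ‖Fv A Y ϖ u ξ w‖ ^ 2 := by
  have a : ∀ b, eY (Y.erase v) (update ϖ v b) (fun w => ‖Fv A Y ϖ v ξ w‖ ^ 2) ≤
      ‖∑ x, ξ x * Ww A Y ϖ x v + sgn b * ξ v‖ ^ 2 + ∑ u ∈ Y.erase v, 21 / 20 *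
        eY (Y.erase v) (update ϖ v b) fun w =>
          ‖(A - A * Tt A w * A) u v‖ ^ 2 * ‖Fv A Y ϖ u ξ w‖ ^ 2 := fun b => by
    refine (es_Y _ _ _).trans (add_le_add (by rw [h.Fv_cond Y ϖ hv]) (sum_le_sum fun u hu => ?_))
    rw [← eY_mul]
    exact eY_mono fun w _ => h.dF_le Y ϖ ξ (ne_of_mem_erase hu) w
  have a1 := add_le_add (a true) (a false)
  have a2 := Ch.par (∑ x, ξ x * Ww A Y ϖ x v) (ξ v)
  have a3 := pow_le_pow_left₀ (norm_nonneg _) (h.z_le Y ϖ hv ξ) 2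
  rw [← eY_split hv, add_add_add_comm, ← sum_add_distrib] at a1
  simp only [← mul_add, ← eY_split hv, ← mul_sum, sgn, if_true, Bool.false_eq_true, if_false,
    one_mul, neg_mul, ← sub_eq_add_neg] at a1
  rw [mul_pow, Real.sq_sqrt (Phi_nonneg _ _ _ _ _)] at a3
  have a4 : (50 / 49 * e) ^ 2 ≤ 1 / 5000 := by have := h.e0 v; have := h.e1; nlinarith
  have a5 := mul_le_mul_of_nonneg_right a4 (Phi_nonneg A Y ϖ v ξ)
  have a6 : 0 ≤ ∑ u ∈ Y.erase v,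
      eY Y ϖ fun w => ‖(A - A * Tt A w * A) u v‖ ^ 2 * ‖Fv A Y ϖ u ξ w‖ ^ 2 :=
    sum_nonneg fun u _ => eY_nonneg fun w => by positivity
  have a7 := sq_nonneg ‖ξ v‖
  simp only [Phi_eq] at *
  linarith

/-- the weight of the covariance form -/
theorem om_le (w : ι → Bool) (v : ι) : ‖1 - cc A v w * Tt A w v v ^ 2‖ ≤ 50 / 49 * e ^ 2 := by
  have e1 : 1 - cc A v w * Tt A w v v ^ 2 =
      -(cc A v w * (sgn (w v) * (A - A * Tt A w * A) v v) ^ 2) := by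
    have h1 := h.sT w v
    have h2 : cc A v w * (2 * sgn (w v) * Tt A w v v - 1) = 1 := inv_mul_cancel₀ (h.cc_ne w v)
    linear_combination -h2 + cc A v w * Tt A w v v ^ 2 * sgn_sq (w v) +
      cc A v w * (1 - sgn (w v) * Tt A w v v + sgn (w v) * (A - A * Tt A w * A) v v) * h1
  rw [e1, norm_neg, norm_mul, norm_pow]
  exact mul_le_mul (h.cc_le w v) (pow_le_pow_left₀ (norm_nonneg _) (h.sa_le w v) 2) (by positivity)
    (by norm_num)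

/-- the normalised amplitude does not depend on the sign at `v` -/
theorem chi_flip (v : ι) (ξ : ι → ℂ) (w : ι → Bool) :
    Fv A Y ϖ v ξ w / Tt A w v v =
      Fv A Y ϖ v ξ (update w v (!w v)) / Tt A (update w v (!w v)) v v := by
  have n : ∀ w, Tt A w v v ≠ 0 := fun w => norm_pos_iff.1 (by linarith [(h.T_le w v).1])
  rw [div_eq_div_iff (n _) (n _)]
  linear_combination Tt A w v v * h.Fv_flip Y ϖ v v ξ w - Fv A Y ϖ v ξ w * h.flip w v v v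

theorem dchi_le (ξ : ι → ℂ) {v u : ι} (huv : u ≠ v) (w : ι → Bool) :
    ‖(Fv A Y ϖ v ξ w / Tt A w v v - Fv A Y ϖ v ξ (update w u (!w u)) /
      Tt A (update w u (!w u)) v v) / 2‖ ^ 2 ≤
      9 / 4 * (‖(A - A * Tt A w * A) u v‖ ^ 2 * ‖Fv A Y ϖ u ξ w‖ ^ 2) +
        9 / 4 * (‖(A - A * Tt A w * A) u v‖ ^ 4 * ‖Fv A Y ϖ v ξ w‖ ^ 2) := by
  have n : ∀ w, Tt A w v v ≠ 0 := fun w => norm_pos_iff.1 (by linarith [(h.T_le w v).1])
  have e1 : (Fv A Y ϖ v ξ w / Tt A w v v - Fv A Y ϖ v ξ (update w u (!w u)) /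
      Tt A (update w u (!w u)) v v) / 2 = sgn (w u) * cc A u w * Tt A w u v *
        (Fv A Y ϖ u ξ w - Fv A Y ϖ v ξ w * Tt A w u v / Tt A w v v) /
          Tt A (update w u (!w u)) v v := by
    have h1 := h.Fv_flip Y ϖ v u ξ w
    have h2 := h.flip w u v v
    rw [h.Tt_symm w v u] at h2
    have n1 := n w
    have n2 := n (update w u (!w u))
    field_simp
    linear_combination Tt A w v v * h1 - Fv A Y ϖ v ξ w * h2
  have a1 := norm_sub_le (Fv A Y ϖ u ξ w) (Fv A Y ϖ v ξ w * Tt A w u v / Tt A w v v)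
  rw [norm_div, norm_mul] at a1
  rw [e1, norm_div, norm_mul, norm_mul, norm_mul, norm_sgn, one_mul, ← T_off h.toKOK w huv]
  have a2 := (h.T_le w v).1
  have a3 := (h.T_le (update w u (!w u)) v).1
  have a4 := h.cc_le w u
  set a := ‖Tt A w u v‖
  set f := ‖Fv A Y ϖ u ξ w‖
  set g := ‖Fv A Y ϖ v ξ w‖
  have a0 : 0 ≤ a := norm_nonneg _
  have f0 : 0 ≤ f := norm_nonneg _
  have g0 : 0 ≤ g := norm_nonneg _
  have b1 : g * a / ‖Tt A w v v‖ ≤ g * a / (99 / 100) := by gcongr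
  refine (pow_le_pow_left₀ (by positivity) (show _ ≤ 50 / 49 * a * (f + g * a / (99 / 100)) /
    (99 / 100) by gcongr; linarith) 2).trans ?_
  nlinarith [sq_nonneg (a * f - a * a * g), sq_nonneg (a * f), sq_nonneg (a * a * g)]

end DOK

/-- the mean weight of the main channel -/
noncomputable def cmn (A : Matrix ι ι ℂ) (Y : Finset ι) (ϖ : ι → Bool) (v : ι) : ℂ :=
  EY Y ϖ fun w => cc A v w * Tt A w v v ^ 2

/-- mean square amplitude in the side channels of `v` -/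
noncomputable def Pp (A : Matrix ι ι ℂ) (Y : Finset ι) (ϖ : ι → Bool) (v : ι) (ξ : ι → ℂ) : ℝ :=
  eY Y ϖ fun w => ‖Fv A Y ϖ v ξ w / Tt A w v v - ξ v / cmn A Y ϖ v‖ ^ 2

theorem Pp_nonneg (A : Matrix ι ι ℂ) (Y : Finset ι) (ϖ : ι → Bool) (v : ι) (ξ : ι → ℂ) :
    0 ≤ Pp A Y ϖ v ξ := eY_nonneg fun _ => sq_nonneg _

namespace DOK

variable {A : Matrix ι ι ℂ} {e : ℝ} (h : DOK A e) (Y : Finset ι) (ϖ : ι → Bool)
include h

theorem cm_le (v : ι) : ‖1 - cmn A Y ϖ v‖ ≤ 50 / 49 * e ^ 2 := by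
  rw [cmn, ← EY_const (Y := Y) (ϖ := ϖ) (1 : ℂ), ← EY_sub]
  exact (norm_EY' _).trans (eY_le fun w _ => h.om_le w v)

theorem e_sq (v : ι) : 50 / 49 * e ^ 2 ≤ 1 / 9000 := by have := h.e0 v; have := h.e1; nlinarith

theorem cm_ne (v : ι) : cmn A Y ϖ v ≠ 0 := fun e0 => by
  have := (h.cm_le Y ϖ v).trans (h.e_sq v)
  rw [e0, sub_zero, norm_one] at this
  linarith

theorem chi_mean {v : ι} (hv : v ∈ Y) (ξ : ι → ℂ) : (EY Y ϖ fun w => cc A v w * Tt A w v v ^ 2 *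
    (Fv A Y ϖ v ξ w / Tt A w v v - ξ v / cmn A Y ϖ v)) = 0 := by
  have n : ∀ w, Tt A w v v ≠ 0 := fun w => norm_pos_iff.1 (by linarith [(h.T_le w v).1])
  rw [EY_congr (G := fun w => cc A v w * Tt A w v v * Fv A Y ϖ v ξ w -
    (ξ v / cmn A Y ϖ v) • (cc A v w * Tt A w v v ^ 2)) fun w _ => by
      have := n w; rw [smul_eq_mul]; field_simp, EY_sub, EY_smul, h.Fv_cc Y ϖ hv, smul_eq_mul]
  exact sub_eq_zero.2 (div_mul_cancel₀ _ (h.cm_ne Y ϖ v)).symm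

/-- the jump is the main channel plus a covariance -/
theorem perp_le {v : ι} (hv : v ∈ Y) (ξ ζ : ι → ℂ) :
    ‖bf (Dt A Y ϖ v) ξ ζ - ξ v * ζ v / cmn A Y ϖ v‖ ≤
      1001 / 1000 * (√(Pp A Y ϖ v ξ) * √(Pp A Y ϖ v ζ)) := by
  have n : ∀ w, Tt A w v v ≠ 0 := fun w => norm_pos_iff.1 (by linarith [(h.T_le w v).1])
  have c0 := h.cm_ne Y ϖ v
  have e1 : bf (Dt A Y ϖ v) ξ ζ - ξ v * ζ v / cmn A Y ϖ v = EY Y ϖ fun w =>
      cc A v w * Tt A w v v ^ 2 * ((Fv A Y ϖ v ξ w / Tt A w v v - ξ v / cmn A Y ϖ v) *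
        (Fv A Y ϖ v ζ w / Tt A w v v - ζ v / cmn A Y ϖ v)) := by
    rw [EY_congr (G := fun w => cc A v w * (Fv A Y ϖ v ξ w * Fv A Y ϖ v ζ w) -
      (ζ v / cmn A Y ϖ v) • (cc A v w * Tt A w v v * Fv A Y ϖ v ξ w) -
      (ξ v / cmn A Y ϖ v) • (cc A v w * Tt A w v v ^ 2 *
        (Fv A Y ϖ v ζ w / Tt A w v v - ζ v / cmn A Y ϖ v))) fun w _ => by
        have := n w; simp only [smul_eq_mul]; field_simp,
      EY_sub, EY_sub, EY_smul, EY_smul, h.chi_mean Y ϖ hv, h.Fv_cc Y ϖ hv, h.bf_Dt Y ϖ hv]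
    simp only [smul_eq_mul]; ring
  rw [e1]
  refine (norm_EY' _).trans ((eY_mono (g := fun w => 1001 / 1000 *
    (‖Fv A Y ϖ v ξ w / Tt A w v v - ξ v / cmn A Y ϖ v‖ *
      ‖Fv A Y ϖ v ζ w / Tt A w v v - ζ v / cmn A Y ϖ v‖)) fun w _ => ?_).trans ?_)
  · rw [norm_mul _ (_ * _), norm_mul (_ - _)]
    refine mul_le_mul_of_nonneg_right ?_ (by positivity)
    have := norm_sub_norm_le (cc A v w * Tt A w v v ^ 2) 1
    rw [norm_one, norm_sub_rev] at this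
    linarith [h.om_le w v, h.e_sq v]
  · rw [eY_mul]
    exact mul_le_mul_of_nonneg_left (eY_cs _ _) (by norm_num)

/-- the side channels through the channels of the other sites -/
theorem rec2 {v : ι} (hv : v ∈ Y) (ξ : ι → ℂ) : Pp A Y ϖ v ξ ≤ 23 / 10 * ∑ u ∈ Y.erase v,
    ((eY Y ϖ fun w => ‖(A - A * Tt A w * A) u v‖ ^ 2 * ‖Fv A Y ϖ u ξ w‖ ^ 2) +
      eY Y ϖ fun w => ‖(A - A * Tt A w * A) u v‖ ^ 4 * ‖Fv A Y ϖ v ξ w‖ ^ 2) := by
  set X := fun w => Fv A Y ϖ v ξ w / Tt A w v v - ξ v / cmn A Y ϖ v with hX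
  have a1 := es_Y Y ϖ X
  have a2 : ‖EY Y ϖ X‖ ≤ 1 / 9000 * eY Y ϖ fun w => ‖X w‖ := by
    rw [← sub_zero (EY Y ϖ X), ← h.chi_mean Y ϖ hv ξ, ← EY_sub, ← eY_mul]
    refine (norm_EY' _).trans (eY_mono fun w _ => ?_)
    rw [← one_sub_mul, norm_mul]
    exact mul_le_mul_of_nonneg_right ((h.om_le w v).trans (h.e_sq v)) (norm_nonneg _)
  have a3 := pow_le_pow_left₀ (norm_nonneg _) a2 2
  have a4 := eY_sq (Y := Y) (ϖ := ϖ) fun w => ‖X w‖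
  rw [← add_sum_erase _ _ hv] at a1
  have a5 : (eY Y ϖ fun w => ‖(X w - X (update w v (!w v))) / 2‖ ^ 2) ≤ 0 :=
    eY_le fun w _ => by simp only [hX, ← h.chi_flip Y ϖ v ξ w]; simp
  have a6 := sum_le_sum (s := Y.erase v)
    (f := fun u => eY Y ϖ fun w => ‖(X w - X (update w u (!w u))) / 2‖ ^ 2)
    (g := fun u => 9 / 4 * ((eY Y ϖ fun w => ‖(A - A * Tt A w * A) u v‖ ^ 2 * ‖Fv A Y ϖ u ξ w‖ ^ 2) +
      eY Y ϖ fun w => ‖(A - A * Tt A w * A) u v‖ ^ 4 * ‖Fv A Y ϖ v ξ w‖ ^ 2)) fun u hu => by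
    rw [← eY_add, ← eY_mul]
    refine eY_mono fun w _ => ?_
    simp only [hX, sub_sub_sub_cancel_right, mul_add]
    exact h.dchi_le Y ϖ ξ (ne_of_mem_erase hu) w
  rw [← mul_sum] at a6
  have a7 := Pp_nonneg A Y ϖ v ξ
  have a8 := (sum_nonneg fun u _ => eY_nonneg fun w => sq_nonneg _).trans a6
  rw [mul_pow] at a3
  unfold Pp at *
  linarith

end DOK

end Pool.Agent.P.MP_d0f69c_mp.XS.Pre
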