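import Pool.Agent.P.MP_d0f69c_mp.XS.PKer
import Pool.Agent.P.MP_d0f69c_mp.XS.PAlg1

/-!
Near and far part of the dressed kernel of one configuration.
-/

set_option autoImplicit false

open Finset Real Matrix

namespace Pool.Agent.P.MP_d0f69c_mp.XS.Pre

variable {ι : Type} [Fintype ι] [DecidableEq ι]

/-- the dressed kernel of one configuration -/
noncomputable def alw (A : Matrix ι ι ℂ) (w : ι → Bool) : Matrix ι ι ℂ := A - A * Tt A w * A

/-- a real kernel as a complex one -/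
def cr (a : Matrix ι ι ℝ) : Matrix ι ι ℂ := fun x y => (a x y : ℂ)

/-- the moduli of the entries -/
def ab (a : Matrix ι ι ℝ) : Matrix ι ι ℝ := fun x y => |a x y|

/-- the kernel without its diagonal -/
def off (a : Matrix ι ι ℝ) : Matrix ι ι ℝ := fun x y => if x = y then 0 else a x y

variable {A A' : Matrix ι ι ℂ} {w : ι → Bool} {c : ℝ}

theorem opLe_V (h : OpLe univ A c) (hc : 0 ≤ c) (w : ι → Bool) : OpLe univ (A * Vs w) c := by
  have := h.right hc (a := fun x => sgn (w x)) zero_le_one fun x _ => (norm_sgn _).le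
  rw [mul_one] at this
  exact this.congr fun x _ y _ => by rw [Vs, mul_diagonal]

theorem unit_V (h : OpLe univ A c) (h0 : 0 ≤ c) (hc : c < 1) (w : ι → Bool) :
    IsUnit (Vs w + A).det := by
  have e : Vs w + A = (1 + A * Vs w) * Vs w := by
    rw [Matrix.add_mul, Matrix.one_mul, Matrix.mul_assoc, Vs_mul, Matrix.mul_one]
  rw [e, det_mul]
  exact (unit_of_opLe (opLe_V h h0 w) hc).mul (Matrix.isUnit_det_of_left_inverse (Vs_mul w))

theorem VT_eq (hu : IsUnit (Vs w + A).det) : Vs w * Tt A w = 1 - A * Tt A w := by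
  rw [← mul_nonsing_inv _ hu, Tt, Matrix.add_mul]; abel

theorem TV_eq (hu : IsUnit (Vs w + A).det) : Tt A w * Vs w = 1 - Tt A w * A := by
  rw [← nonsing_inv_mul _ hu, Tt, Matrix.mul_add]; abel

theorem R_right (hu : IsUnit (Vs w + A).det) : (1 + A * Vs w) * (Vs w * Tt A w) = 1 := by
  rw [Matrix.add_mul, Matrix.one_mul, Matrix.mul_assoc, ← Matrix.mul_assoc (Vs w), Vs_mul,
    Matrix.one_mul, VT_eq hu]; abel

theorem R_eq (hu : IsUnit (Vs w + A).det) : (1 + A * Vs w)⁻¹ = Vs w * Tt A w :=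
  inv_eq_right_inv (R_right hu)

theorem alw_R (hu : IsUnit (Vs w + A).det) : alw A w = Vs w * Tt A w * A := by
  rw [VT_eq hu, Matrix.sub_mul, Matrix.one_mul, alw]

theorem alw_Q (hu : IsUnit (Vs w + A).det) : alw A w = A * (Tt A w * Vs w) := by
  rw [TV_eq hu, Matrix.mul_sub, Matrix.mul_one, alw, Matrix.mul_assoc]

theorem R_alw (hu : IsUnit (Vs w + A).det) : Vs w * Tt A w = 1 - alw A w * Vs w := by
  rw [alw_Q hu, Matrix.mul_assoc, Matrix.mul_assoc, Vs_mul, Matrix.mul_one, VT_eq hu]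

theorem Q_alw (hu : IsUnit (Vs w + A).det) : Tt A w * Vs w = 1 - Vs w * alw A w := by
  rw [alw_R hu, ← Matrix.mul_assoc, ← Matrix.mul_assoc, Vs_mul, Matrix.one_mul, TV_eq hu]

theorem T_alw (hu : IsUnit (Vs w + A).det) : Tt A w = Vs w - Vs w * alw A w * Vs w := by
  rw [Matrix.mul_assoc, ← Matrix.mul_one (Vs w), Matrix.mul_assoc, ← Matrix.mul_sub,
    Matrix.one_mul, Matrix.mul_one, ← R_alw hu, ← Matrix.mul_assoc, Vs_mul, Matrix.one_mul]

/-- two kernels, possibly two configurations are treated elsewhere -/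
theorem alw_diff (hu : IsUnit (Vs w + A).det) (hu' : IsUnit (Vs w + A').det) :
    alw A w - alw A' w = Vs w * Tt A w * (A - A') * (Tt A' w * Vs w) := by
  have e1 : Vs w * Tt A w * A * (Tt A' w * Vs w) = alw A w - alw A w * Vs w * alw A' w := by
    rw [← alw_R hu, Q_alw hu', Matrix.mul_sub, Matrix.mul_one, Matrix.mul_assoc]
  have e2 : Vs w * Tt A w * A' * (Tt A' w * Vs w) = alw A' w - alw A w * Vs w * alw A' w := by
    rw [Matrix.mul_assoc _ A', ← alw_Q hu', R_alw hu, Matrix.sub_mul, Matrix.one_mul]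
  rw [Matrix.mul_sub, Matrix.sub_mul, e1, e2]; abel

theorem alw_T (hs : Aᵀ = A) (w : ι → Bool) : (alw A w)ᵀ = alw A w := by
  rw [alw, transpose_sub, transpose_mul, transpose_mul, Tt, transpose_nonsing_inv, transpose_add,
    Vs_T, hs, Matrix.mul_assoc]

theorem opLe_R (h : OpLe univ A c) (h0 : 0 ≤ c) (hc : c < 1) (w : ι → Bool) :
    OpLe univ (Vs w * Tt A w) (1 / (1 - c)) :=
  opLe_of_left (opLe_V h h0 w) hc (R_right (unit_V h h0 hc w))

theorem wn_alw {r : ι → ι → ℝ} (h : WN r A c) (hr : PM r) (h0 : 0 ≤ c) (hc : c < 1) (w : ι → Bool) :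
    WN r (alw A w) (c / (1 - c)) := by
  have hu := unit_V (h.opLe hr) h0 hc w
  have h1 : WN r (A * Vs w) c := by
    simpa [Vs] using h.mul (WN.diag (v := fun x => sgn (w x)) zero_le_one fun x => (norm_sgn _).le) h0
  have h2 := (h1.of_left hc (R_right hu)).mul h (one_div_nonneg.2 (by linarith))
  rw [alw_R hu]
  exact h2.mono (le_of_eq (by ring))

section near

variable {a : Matrix ι ι ℝ} {e : ℝ}

omit [DecidableEq ι] in
theorem opLe_cr (h : KW (fun _ _ => 0) (ab a) e) (h0 : 0 ≤ e) : OpLe univ (cr a) e :=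
  h.opLe pm_zero h0 fun x y => by simp [cr, ab]

theorem Q_le (h : KW (fun _ _ => 0) (ab a) e) (h0 : 0 ≤ e) (he : e < 1) (w : ι → Bool) (z v : ι) :
    ‖(Tt (cr a) w * Vs w) z v‖ ≤ res (ab a) z v := by
  have hu := unit_V (opLe_cr h h0) h0 he w
  have := res_cmp h pm_zero he (f := fun z => ‖(Tt (cr a) w * Vs w) z v‖)
    (u := fun z => if z = v then 1 else 0) (fun z => by
      conv_lhs => rw [Q_alw hu, alw_Q hu]
      rw [Matrix.sub_apply, Vs, diagonal_mul, ← Vs, Matrix.mul_apply]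
      refine (norm_sub_le _ _).trans (add_le_add (le_of_eq ?_) ?_)
      · rw [one_apply]; split_ifs <;> simp
      · rw [norm_mul, norm_sgn, one_mul]
        exact (norm_sum_le _ _).trans (le_of_eq (sum_congr rfl fun y _ => by simp [cr, ab]))) z
  simpa using this

theorem alw_le (h : KW (fun _ _ => 0) (ab a) e) (h0 : 0 ≤ e) (he : e < 1) (w : ι → Bool) (u v : ι) :
    ‖alw (cr a) w u v‖ ≤ (ab a * res (ab a)) u v := by
  rw [alw_Q (unit_V (opLe_cr h h0) h0 he w), Matrix.mul_apply, Matrix.mul_apply]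
  refine (norm_sum_le _ _).trans (sum_le_sum fun z _ => ?_)
  rw [norm_mul]
  exact mul_le_mul (by simp [cr, ab]) (Q_le h h0 he w z v) (norm_nonneg _) (abs_nonneg _)

/-- the sum of all powers is a finite sum and a small tail -/
theorem res_tail {k : Matrix ι ι ℝ} {r : ι → ι → ℝ} (h : KW r k e) (hr : PM r) (h0 : 0 ≤ e)
    (he : e < 1) (j : ℕ) : ∃ D : Matrix ι ι ℝ, KW r D (e ^ (j + 1) / (1 - e)) ∧
      ∀ x y, (k * res k) x y ≤ geo k j x y + D x y := by
  obtain ⟨D, h1, h2⟩ := res_split h hr he h (KW.zero le_rfl) he h0 (fun x y => by simp) j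
  refine ⟨D, by simpa using h1, fun x y => ?_⟩
  have := h2 x y
  rw [res_eq h hr he, Matrix.add_apply] at this
  linarith

theorem geo_le {k : Matrix ι ι ℝ} {r : ι → ι → ℝ} (h : KW r k e) (hr : PM r) (he : e < 1) (j : ℕ)
    (x y : ι) : geo k j x y ≤ (k * res k) x y := by
  induction j generalizing x y with
  | zero => exact (h.mul (res_kw h hr he) hr).nn x y
  | succ j ih =>
    rw [geo_succ]
    conv_rhs => rw [res_eq h hr he, Matrix.mul_add, Matrix.mul_one]
    exact add_le_add le_rfl (sum_le_sum fun z _ => mul_le_mul_of_nonneg_left (ih z y) (h.nn x z))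

/-- the part of the geometric sum off the diagonal is small in mean square -/
theorem off_sq {k : Matrix ι ι ℝ} {n : ℝ} (h : KW (fun _ _ => 0) k e) (h0 : 0 ≤ e) (he : e ≤ 1 / 10)
    (hn : ∀ y, ∑ x, off k x y ^ 2 ≤ n) (y : ι) : ∑ x, off (k * res k) x y ^ 2 ≤ 3 * n := by
  have e1 : e < 1 := by linarith
  set S := k * res k with hS
  have hk := h.mul (res_kw h pm_zero e1) pm_zero
  have d : S y y ≤ 1 / 9 := (hk.entry' pm_zero y y).trans (by
    rw [mul_one_div, div_le_iff₀ (by linarith)]; linarith)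
  have a : ∀ x, off S x y ≤ 10 / 9 * off k x y + ∑ z, k x z * off S z y := fun x => by
    have p : 0 ≤ ∑ z, k x z * off S z y := sum_nonneg fun z _ => mul_nonneg (h.nn _ _) (by
      unfold off; split_ifs; exacts [le_rfl, hk.nn _ _])
    by_cases e : x = y
    · simpa [off, e] using p
    have e2 : S x y = k x y + ∑ z, k x z * S z y := by
      conv_lhs => rw [hS, res_eq h pm_zero e1, Matrix.mul_add, Matrix.mul_one]
      rfl
    have e3 : ∑ z, k x z * S z y = k x y * S y y + ∑ z, k x z * off S z y := by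
      rw [← add_sum_erase _ _ (mem_univ y), ← add_sum_erase _ (fun z => k x z * off S z y)
        (mem_univ y), off, if_pos rfl, mul_zero, zero_add]
      congr 1
      exact sum_congr rfl fun z hz => by rw [off, if_neg (mem_erase.1 hz).1]
    rw [off, off, if_neg e, if_neg e, e2, e3]
    nlinarith [h.nn x y]
  have b := h.schur pm_zero fun z => off S z y
  have s : ∑ x, off S x y ^ 2 ≤ ∑ x, (2 * (10 / 9) ^ 2 * off k x y ^ 2 +
      2 * (∑ z, k x z * off S z y) ^ 2) := sum_le_sum fun x _ => by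
    have p : 0 ≤ off S x y := by unfold off; split_ifs; exacts [le_rfl, hk.nn _ _]
    nlinarith [pow_le_pow_left₀ p (a x) 2, sq_nonneg (10 / 9 * off k x y - ∑ z, k x z * off S z y)]
  rw [sum_add_distrib, ← mul_sum, ← mul_sum] at s
  have q : 0 ≤ ∑ x, off S x y ^ 2 := sum_nonneg fun _ _ => sq_nonneg _
  have q' : 0 ≤ ∑ x, off k x y ^ 2 := sum_nonneg fun _ _ => sq_nonneg _
  have : e ^ 2 * ∑ x, off S x y ^ 2 ≤ 1 / 100 * ∑ x, off S x y ^ 2 :=
    mul_le_mul_of_nonneg_right (by nlinarith) q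
  linarith [hn y]

/-- the far part as a superposition -/
theorem diff_col (hA : OpLe univ A (1 / 100)) (h : KW (fun _ _ => 0) (ab a) e) (h0 : 0 ≤ e)
    (he : e < 1) (w : ι → Bool) (u v : ι) : ‖alw A w u v - alw (cr a) w u v‖ ≤
      ∑ z, res (ab a) z v * ‖((Vs w * Tt A w) *ᵥ fun x => A x z - a x z) u‖ := by
  rw [← Matrix.sub_apply, alw_diff (unit_V hA (by norm_num) (by norm_num) w)
    (unit_V (opLe_cr h h0) h0 he w), Matrix.mul_apply]
  refine (norm_sum_le _ _).trans (sum_le_sum fun z _ => ?_)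
  rw [norm_mul, mul_comm]
  exact mul_le_mul_of_nonneg_right (Q_le h h0 he w z v) (norm_nonneg _)

omit [DecidableEq ι] in
theorem sq_mix {k : ι → ℝ} {f : ι → ι → ℝ} {s m : ℝ} (S : Finset ι) (hk : ∀ z, 0 ≤ k z)
    (hs : ∑ z, k z ≤ s) (hm : 0 ≤ m) (hf : ∀ z, ∑ u ∈ S, f z u ^ 2 ≤ m) :
    ∑ u ∈ S, (∑ z, k z * f z u) ^ 2 ≤ s ^ 2 * m := by
  have s0 := (sum_nonneg fun z _ => hk z).trans hs
  have a : ∀ u, (∑ z, k z * f z u) ^ 2 ≤ s * ∑ z, k z * f z u ^ 2 := fun u =>
    (sum_sq_le_sum_mul_sum_of_sq_le_mul univ (fun z _ => hk z)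
      (fun z _ => mul_nonneg (hk z) (sq_nonneg (f z u))) fun z _ => le_of_eq (by ring)).trans
      (mul_le_mul_of_nonneg_right hs (sum_nonneg fun z _ => mul_nonneg (hk z) (sq_nonneg _)))
  refine (sum_le_sum fun u _ => a u).trans ?_
  rw [← mul_sum, sum_comm, sq s, mul_assoc]
  refine mul_le_mul_of_nonneg_left ?_ s0
  simp only [← mul_sum]
  refine (sum_le_sum fun z _ => mul_le_mul_of_nonneg_left (hf z) (hk z)).trans ?_
  rw [← sum_mul]
  exact mul_le_mul_of_nonneg_right hs hm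

theorem R_vec (hA : OpLe univ A (1 / 100)) (w : ι → Bool) (p : ι → ℂ) :
    ∑ u, ‖((Vs w * Tt A w) *ᵥ p) u‖ ^ 2 ≤ (100 / 99) ^ 2 * ∑ u, ‖p u‖ ^ 2 := by
  have := opLe_R hA (by norm_num) (by norm_num) w p
  rw [nS_le_iff (mul_nonneg (by norm_num) (nS_nonneg _ _)), mul_pow, nS_sq] at this
  exact this.trans (le_of_eq (by norm_num))

/-- the far part has small columns in every configuration -/
theorem diff_sq {ν : ℝ} (hA : OpLe univ A (1 / 100)) (h : KW (fun _ _ => 0) (ab a) e) (h0 : 0 ≤ e)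
    (he : e ≤ 1 / 100) (hν : ∀ z, ∑ x, ‖A x z - a x z‖ ^ 2 ≤ ν) (w : ι → Bool) (v : ι) :
    ∑ u, ‖alw A w u v - alw (cr a) w u v‖ ^ 2 ≤ 2 * ν := by
  have e1 : e < 1 := by linarith
  have hR := res_kw h pm_zero e1
  have ν0 : 0 ≤ ν := (sum_nonneg fun _ _ => sq_nonneg _).trans (hν v)
  have := sq_mix (k := fun z => res (ab a) z v)
    (f := fun z u => ‖((Vs w * Tt A w) *ᵥ fun x => A x z - a x z) u‖) (s := 100 / 99)
    (m := (100 / 99) ^ 2 * ν) univ (fun z => hR.nn z v) ((hR.col' pm_zero v).trans (by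
      rw [div_le_iff₀ (by linarith)]; linarith)) (by positivity) fun z =>
      (R_vec hA w _).trans (mul_le_mul_of_nonneg_left (hν z) (by positivity))
  refine ((sum_le_sum fun u _ => pow_le_pow_left₀ (norm_nonneg _) (diff_col hA h h0 e1 w u v)
    2).trans this).trans ?_
  linarith

end near

end Pool.Agent.P.MP_d0f69c_mp.XS.Pre
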