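import Pool.Agent.P.MP_d0f69c_mp.XS.PMaj1
import Pool.Agent.P.MP_d0f69c_mp.XS.PS0
import Pool.Agent.P.MP_d0f69c_mp.XS.PS1

/-!
The diagonal majorant of the channels.
-/

set_option autoImplicit false

open Finset Function Real
open scoped Matrix

namespace Pool.Agent.P.MP_d0f69c_mp.XS.Pre

variable {ι : Type} [Fintype ι] [DecidableEq ι]

/-- exponential kernel -/
noncomputable def Ek (r : ι → ι → ℝ) : Matrix ι ι ℝ := fun x y => exp (-2 * r x y)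

/-- restriction to different points of `Y` -/
def ctY (Y : Finset ι) (k : Matrix ι ι ℝ) : Matrix ι ι ℝ :=
  fun x y => if x ∈ Y ∧ y ∈ Y ∧ x ≠ y then k x y else 0

/-- squares of the entries -/
def sqk (b : Matrix ι ι ℝ) : Matrix ι ι ℝ := fun x y => b x y ^ 2

/-- the kernel of the recursion -/
noncomputable def kb (Y : Finset ι) (b : Matrix ι ι ℝ) : Matrix ι ι ℝ := (11 / 10 : ℝ) • ctY Y (sqk b)

/-- the kernel of the rare configurations -/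
noncomputable def kt (r : ι → ι → ℝ) (p V : ℝ) : Matrix ι ι ℝ := (p / 1800) • (Ek r * Ek r + V • Ek r)

/-- the majorant -/
noncomputable def Dm (r : ι → ι → ℝ) (Y : Finset ι) (b : Matrix ι ι ℝ) (p V : ℝ) : Matrix ι ι ℝ :=
  ctY Y ((1001 / 1000 : ℝ) • (kb Y b * res (kb Y b)) + res (kb Y b) * kt r p V +
    (res (kb Y b) * kt r p V)ᵀ)

/-- the hypotheses: `b` majorises the dressed kernel up to probability `p` -/
structure MH (r r' : ι → ι → ℝ) (A : Matrix ι ι ℂ) (a e : ℝ) (Y : Finset ι) (ϖ : ι → Bool)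
    (b : Matrix ι ι ℝ) (p V n t : ℝ) : Prop where
  smk : SmK r A a
  a1 : a ≤ 1 / 100
  e1 : e ≤ 1 / 100
  dg : ∀ w x, ‖alw A w x x‖ ≤ e
  sy : bᵀ = b
  hb : ∀ u ∈ Y, ∀ v ∈ Y, u ≠ v → pr (fun z => b u v < ‖alw A (mix Y z ϖ) u v‖) ≤ p
  pm : PM r'
  hE : KW r' (Ek r) V
  hn : KW r' (ctY Y (sqk b)) n
  n0 : 0 ≤ n
  n1 : n ≤ 1 / 100
  p0 : 0 ≤ p
  ht : p * V ^ 2 ≤ 900 * t
  t1 : t ≤ 1 / 100

omit [Fintype ι] in
theorem ctY_le {Y : Finset ι} {k : Matrix ι ι ℝ} (h : ∀ x y, 0 ≤ k x y) (x y : ι) :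
    0 ≤ ctY Y k x y ∧ ctY Y k x y ≤ k x y := by
  unfold ctY; split_ifs
  exacts [⟨h x y, le_rfl⟩, ⟨le_rfl, h x y⟩]

omit [Fintype ι] in
theorem ctY_T {Y : Finset ι} {k : Matrix ι ι ℝ} (h : kᵀ = k) : (ctY Y k)ᵀ = ctY Y k := by
  ext x y
  have := congrFun (congrFun h x) y
  simp only [Matrix.transpose_apply, ctY] at this ⊢
  rw [this]
  exact if_congr (by tauto) rfl rfl

theorem sum_ctY {Y : Finset ι} {v : ι} (hv : v ∈ Y) (k : Matrix ι ι ℝ) (f : ι → ℝ) :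
    ∑ u, ctY Y k v u * f u = ∑ u ∈ Y.erase v, k v u * f u := by
  rw [← sum_subset (subset_univ (Y.erase v)) fun u _ hu => by
    rw [ctY, if_neg fun e => hu (mem_erase.2 ⟨e.2.2.symm, e.2.1⟩), zero_mul]]
  exact sum_congr rfl fun u hu => by
    rw [ctY, if_pos ⟨hv, mem_of_mem_erase hu, (ne_of_mem_erase hu).symm⟩]

theorem KOK.Fv_cut {A : Matrix ι ι ℂ} (h : KOK A) {Y : Finset ι} {ϖ w : ι → Bool} {v : ι}
    (hv : v ∈ Y) (hw : ∀ y ∉ Y, w y = ϖ y) (ξ : ι → ℂ) :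
    Fv A Y ϖ v (fun x => if x ∈ Y then ξ x else 0) w = Fv A Y ϖ v ξ w :=
  sum_congr rfl fun x _ => by
    by_cases hx : x ∈ Y
    · simp only [hx, if_true]
    · simp only [h.psi_off Y ϖ hw hv hx, mul_zero]

theorem eY_congr {Y : Finset ι} {ϖ : ι → Bool} {f g : (ι → Bool) → ℝ}
    (h : ∀ w, (∀ x ∉ Y, w x = ϖ x) → f w = g w) :
    eY Y ϖ f = eY Y ϖ g :=
  congrArg av (funext fun _ => h _ fun _ hx => if_neg hx)

namespace MH

variable {r r' : ι → ι → ℝ} {A : Matrix ι ι ℂ} {a e : ℝ} {Y : Finset ι} {ϖ : ι → Bool}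
  {b : Matrix ι ι ℝ} {p V n t : ℝ} (h : MH r r' A a e Y ϖ b p V n t)
include h

theorem dok : DOK A e := ⟨h.smk.kok, h.e1, h.dg⟩
theorem t0 : 0 ≤ t := by nlinarith [h.ht, mul_nonneg h.p0 (sq_nonneg V)]
theorem kw_b : KW r' (kb Y b) (11 / 10 * n) := h.hn.smul (by norm_num)
theorem c1 : 11 / 10 * n < 1 := by linarith [h.n1]

theorem kw_R : KW r' (res (kb Y b)) (51 / 50) := (res_kw h.kw_b h.pm h.c1).le (by
  rw [div_le_iff₀ (by linarith [h.c1])]; linarith [h.n1])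

theorem kw_t (x : ι) : KW r' (kt r p V) t :=
  (((h.hE.mul h.hE h.pm).add (h.hE.smul (h.hE.c0 x))).smul (by have := h.p0; positivity)).le
    (by nlinarith [h.ht])

theorem kw_bR : KW r' (kb Y b * res (kb Y b)) (9 / 8 * n) :=
  (h.kw_b.mul h.kw_R h.pm).le (by linarith [h.n0])

theorem kw_Rt (x : ι) : KW r' (res (kb Y b) * kt r p V) (51 / 50 * t) := h.kw_R.mul (h.kw_t x) h.pm

theorem kw_D0 (x : ι) : KW r' ((1001 / 1000 : ℝ) • (kb Y b * res (kb Y b)) +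
    res (kb Y b) * kt r p V + (res (kb Y b) * kt r p V)ᵀ) (6 / 5 * n + 3 * t) :=
  (((h.kw_bR.smul (by norm_num)).add (h.kw_Rt x)).add ((h.kw_Rt x).transpose h.pm)).le
    (by linarith [h.n0, h.t0])

theorem kw_D : KW r' (Dm r Y b p V) (6 / 5 * n + 3 * t) := by
  obtain _ | _ := isEmpty_or_nonempty ι
  · exact ⟨fun x => isEmptyElim x, fun x => isEmptyElim x, fun x => isEmptyElim x⟩
  have g := h.kw_D0 (Classical.arbitrary ι)
  exact g.mono (fun x y => (ctY_le g.nn x y).1) (fun x y => (ctY_le g.nn x y).2) le_rfl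

theorem D_nn (x y : ι) : 0 ≤ Dm r Y b p V x y := h.kw_D.nn x y

theorem kb_T : (kb Y b)ᵀ = kb Y b := by
  rw [kb, Matrix.transpose_smul, ctY_T]
  ext x y
  exact congrArg (· ^ 2) (congrFun (congrFun h.sy x) y)

theorem D_T : (Dm r Y b p V)ᵀ = Dm r Y b p V := ctY_T (by
  have e1 : kb Y b * res (kb Y b) = res (kb Y b) * kb Y b :=
    add_left_cancel ((res_eq h.kw_b h.pm h.c1).symm.trans (res_eq' h.kw_b h.pm h.c1))
  rw [Matrix.transpose_add, Matrix.transpose_add, Matrix.transpose_transpose, Matrix.transpose_smul,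
    Matrix.transpose_mul, res_symm h.kb_T, h.kb_T, ← e1]
  abel)

omit h in
theorem D_supp {x y : ι} (e0 : Dm r Y b p V x y ≠ 0) : x ∈ Y ∧ y ∈ Y ∧ x ≠ y := by
  by_contra c
  exact e0 (if_neg c)

theorem alw_le (w : ι → Bool) (u v : ι) : ‖alw A w u v‖ ≤ exp (-r u v) / 50 :=
  ((h.smk.wals w).entry h.smk.pm u v).trans (by have := exp_pos (-r u v); nlinarith [h.a1])

theorem Fv_le (v : ι) (ξ : ι → ℂ) (w : ι → Bool) :
    ‖Fv A Y ϖ v ξ w‖ ^ 2 ≤ 11 / 10 * ∑ y, Ek r v y * ‖ξ y‖ ^ 2 := by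
  have a1 := ((h.smk.wq Y ϖ).mul (h.smk.wTt w) h.smk.c0).col h.smk.pm v
  have a2 := nS_cs univ (fun x => (exp (-r x v) : ℝ) * ξ x)
    fun x => (exp (r x v) : ℝ) * ((1 - Ss A Y ϖ * A)⁻¹ * Tt A w) x v
  have e1 : Fv A Y ϖ v ξ w = ∑ x, (exp (-r x v) : ℝ) * ξ x *
      ((exp (r x v) : ℝ) * ((1 - Ss A Y ϖ * A)⁻¹ * Tt A w) x v) := sum_congr rfl fun x _ => by
    rw [mul_mul_mul_comm, ← Complex.ofReal_mul, ← exp_add, neg_add_cancel, exp_zero,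
      Complex.ofReal_one, one_mul]; rfl
  have e2 : nS univ (fun x => (exp (-r x v) : ℝ) * ξ x) ^ 2 = ∑ y, Ek r v y * ‖ξ y‖ ^ 2 := by
    rw [nS_sq]
    refine sum_congr rfl fun y _ => ?_
    rw [norm_mul, mul_pow, Complex.norm_real, Real.norm_of_nonneg (exp_pos _).le, ← exp_nat_mul,
      Ek, h.smk.pm.symm v y]
    congr 2; push_cast; ring
  have a3 : (1 + 2 * a) * (1 + 2 * a) ≤ 10404 / 10000 := by nlinarith [h.a1, h.smk.a0]
  rw [e1, ← e2]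
  refine (pow_le_pow_left₀ (norm_nonneg _) (a2.trans (mul_le_mul_of_nonneg_left (a1.trans a3)
    (nS_nonneg _ _))) 2).trans ?_
  nlinarith [sq_nonneg (nS univ fun x => (exp (-r x v) : ℝ) * ξ x)]

theorem dec {u v : ι} (hu : u ∈ Y) (hv : v ∈ Y) (huv : u ≠ v) {g : (ι → Bool) → ℝ} {m : ℝ}
    (g0 : ∀ w, 0 ≤ g w) (hm : ∀ w, g w ≤ m) : (eY Y ϖ fun w => ‖alw A w u v‖ ^ 2 * g w) ≤
      b v u ^ 2 * eY Y ϖ g + p / 2500 * Ek r v u * m := by
  refine (eY_dec (f := fun w => ‖alw A w u v‖) (h.hb u hu v hv huv) (fun _ => norm_nonneg _)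
    (fun w => h.alw_le w u v) g0 hm).trans (le_of_eq ?_)
  rw [div_pow, ← exp_nat_mul, Ek, h.smk.pm.symm v u, show b u v = b v u from
    congrFun (congrFun h.sy v) u, show ((2 : ℕ) : ℝ) * -r u v = -2 * r u v by push_cast; ring]
  ring

theorem sum_dec {v : ι} (hv : v ∈ Y) (ξ : ι → ℂ) : 11 / 10 * ∑ u ∈ Y.erase v,
    (eY Y ϖ fun w => ‖alw A w u v‖ ^ 2 * ‖Fv A Y ϖ u ξ w‖ ^ 2) ≤
      ∑ u, kb Y b v u * (if u ∈ Y then Phi A Y ϖ u ξ else 0) +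
        p / 1800 * ∑ y, (Ek r * Ek r) v y * ‖ξ y‖ ^ 2 := by
  have a1 := sum_le_sum (s := Y.erase v) fun u hu => h.dec (mem_of_mem_erase hu) hv
    (ne_of_mem_erase hu) (fun w => sq_nonneg ‖Fv A Y ϖ u ξ w‖) (h.Fv_le u ξ)
  have a2 : ∑ u, kb Y b v u * (if u ∈ Y then Phi A Y ϖ u ξ else 0) =
      11 / 10 * ∑ u ∈ Y.erase v, b v u ^ 2 * eY Y ϖ fun w => ‖Fv A Y ϖ u ξ w‖ ^ 2 := by
    simp only [kb, Matrix.smul_apply, smul_eq_mul, mul_assoc, ← mul_sum, sum_ctY hv]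
    exact congrArg _ (sum_congr rfl fun u hu => by rw [if_pos (mem_of_mem_erase hu)]; rfl)
  have a3 : ∑ u ∈ Y.erase v, Ek r v u * ∑ y, Ek r u y * ‖ξ y‖ ^ 2 ≤
      ∑ y, (Ek r * Ek r) v y * ‖ξ y‖ ^ 2 := by
    simp only [Matrix.mul_apply, sum_mul, mul_assoc]
    rw [sum_comm]
    simp only [← mul_sum]
    exact sum_le_sum_of_subset_of_nonneg (subset_univ _) fun u _ _ => mul_nonneg (h.hE.nn _ _)
      (sum_nonneg fun y _ => mul_nonneg (h.hE.nn _ _) (sq_nonneg _))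
  have a4 : 0 ≤ p * ∑ y, (Ek r * Ek r) v y * ‖ξ y‖ ^ 2 := mul_nonneg h.p0
    (sum_nonneg fun y _ => mul_nonneg ((h.hE.mul h.hE h.pm).nn _ _) (sq_nonneg _))
  have a5 := mul_le_mul_of_nonneg_left a3 h.p0
  simp only [sum_add_distrib, mul_assoc, mul_left_comm (Ek r v _) (11 / 10), ← mul_sum] at a1
  rw [a2]
  linarith

omit [DecidableEq ι] h in
theorem kt_eq (v : ι) (f : ι → ℝ) : ∑ y, kt r p V v y * f y =
    p / 1800 * ∑ y, (Ek r * Ek r) v y * f y + p / 1800 * V * ∑ y, Ek r v y * f y := by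
  simp only [kt, Matrix.smul_apply, Matrix.add_apply, smul_eq_mul, mul_sum, ← sum_add_distrib]
  exact sum_congr rfl fun y _ => by ring

theorem Ek_nn (v : ι) (ξ : ι → ℂ) : 0 ≤ p / 1800 * V * ∑ y, Ek r v y * ‖ξ y‖ ^ 2 :=
  mul_nonneg (mul_nonneg (by have := h.p0; positivity) (h.hE.c0 v))
    (sum_nonneg fun y _ => mul_nonneg (h.hE.nn _ _) (sq_nonneg _))

theorem phi0 (ξ : ι → ℂ) (v : ι) : (if v ∈ Y then Phi A Y ϖ v ξ else 0) ≤
    ∑ u, res (kb Y b) v u * (1001 / 1000 * ‖ξ u‖ ^ 2 + ∑ y, kt r p V u y * ‖ξ y‖ ^ 2) := by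
  refine res_cmp h.kw_b h.pm h.c1 (f := fun v => if v ∈ Y then Phi A Y ϖ v ξ else 0) (fun v => ?_) v
  split_ifs with hv
  · have a1 := h.dok.rec1 Y ϖ hv ξ
    have a2 := h.sum_dec hv ξ
    have a3 := h.Ek_nn v ξ
    rw [kt_eq]
    simp only [alw] at a2
    linarith
  · refine add_nonneg (add_nonneg (by positivity) (sum_nonneg fun y _ =>
      mul_nonneg ((h.kw_t v).nn _ _) (sq_nonneg _))) (sum_nonneg fun y _ =>
        mul_nonneg (h.kw_b.nn _ _) ?_)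
    split_ifs
    exacts [Phi_nonneg _ _ _ _ _, le_rfl]

theorem kb_le (v u : ι) : kb Y b v u + ctY Y (kt r p V) v u ≤ Dm r Y b p V v u := by
  by_cases c : v ∈ Y ∧ u ∈ Y ∧ v ≠ u
  · have b2 : kb Y b v u ≤ (kb Y b * res (kb Y b)) v u := by
      rw [res_eq h.kw_b h.pm h.c1, Matrix.mul_add, Matrix.mul_one, Matrix.add_apply]
      exact le_add_of_nonneg_right ((h.kw_b.mul h.kw_bR h.pm).nn v u)
    have b3 : kt r p V v u ≤ (res (kb Y b) * kt r p V) v u := by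
      rw [res_eq h.kw_b h.pm h.c1, Matrix.add_mul, Matrix.one_mul, Matrix.add_apply]
      exact le_add_of_nonneg_right ((h.kw_bR.mul (h.kw_t v) h.pm).nn v u)
    have b4 := (h.kw_Rt v).nn u v
    have b5 := h.kw_b.nn v u
    simp only [Dm, ctY, if_pos c, Matrix.add_apply, Matrix.smul_apply, smul_eq_mul,
      Matrix.transpose_apply]
    linarith
  · simp only [kb, Dm, ctY, Matrix.smul_apply, if_neg c, smul_zero, add_zero, le_refl]

theorem kb_le' (v u : ι) : kb Y b v u ≤ Dm r Y b p V v u :=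
  (le_add_of_nonneg_right (ctY_le (h.kw_t v).nn v u).1).trans (h.kb_le v u)

/-- the dressed kernel is below the majorant -/
theorem alw_sq {u v : ι} (hu : u ∈ Y) (hv : v ∈ Y) (huv : u ≠ v) :
    (eY Y ϖ fun w => ‖alw A w u v‖ ^ 2) ≤ Dm r Y b p V v u := by
  have a1 := h.dec hu hv huv (g := fun _ => 1) (fun _ => zero_le_one) fun _ => le_rfl
  have a2 := h.kb_le v u
  have a3 : Ek r v u ≤ (Ek r * Ek r) v u := by
    refine le_trans (le_of_eq ?_) (single_le_sum (f := fun z => Ek r v z * Ek r z u)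
      (fun z _ => mul_nonneg (h.hE.nn _ _) (h.hE.nn _ _)) (mem_univ u))
    simp [Ek, h.smk.pm.zero]
  have a4 := mul_le_mul_of_nonneg_left a3 h.p0
  have a5 := mul_nonneg h.p0 (mul_nonneg (h.hE.c0 v) (h.hE.nn v u))
  have a6 := mul_nonneg h.p0 (h.hE.nn v u)
  simp only [mul_one, eY_const] at a1
  simp only [kb, kt, ctY, sqk, if_pos (And.intro hv (And.intro hu huv.symm)), Matrix.add_apply,
    Matrix.smul_apply, smul_eq_mul] at a2
  nlinarith [sq_nonneg (b v u)]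

/-- everything beyond the main term, for vectors that live on `Y` -/
theorem rest {v : ι} (hv : v ∈ Y) {ξ : ι → ℂ} (hξ : ∀ x ∉ Y, ξ x = 0) :
    ∑ u, (kb Y b * res (kb Y b)) v u * (1001 / 1000 * ‖ξ u‖ ^ 2) +
      ∑ u, res (kb Y b) v u * ∑ y, kt r p V u y * ‖ξ y‖ ^ 2 ≤
      ∑ u, Dm r Y b p V v u * ‖ξ u‖ ^ 2 +
        (6 / 5 * n * ∑ u, Dm r Y b p V v u + 51 / 50 * t) * ‖ξ v‖ ^ 2 := by
  have e1 : ∑ u, res (kb Y b) v u * ∑ y, kt r p V u y * ‖ξ y‖ ^ 2 =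
      ∑ y, (res (kb Y b) * kt r p V) v y * ‖ξ y‖ ^ 2 := by
    simp only [Matrix.mul_apply, sum_mul, mul_sum, mul_assoc]; exact sum_comm
  have a1 : (kb Y b * res (kb Y b)) v v ≤ 9 / 8 * n * ∑ u, Dm r Y b p V v u := by
    rw [Matrix.mul_apply, mul_sum]
    refine sum_le_sum fun u _ => ?_
    by_cases c : v ∈ Y ∧ u ∈ Y ∧ v ≠ u
    · have b1 : res (kb Y b) u v ≤ 9 / 8 * n := by
        rw [res_eq h.kw_b h.pm h.c1, Matrix.add_apply, Matrix.one_apply_ne c.2.2.symm, zero_add]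
        exact h.kw_bR.entry' h.pm u v
      rw [mul_comm]
      exact mul_le_mul b1 (h.kb_le' v u) (h.kw_b.nn v u) (by linarith [h.n0])
    · have : kb Y b v u = 0 := by simp only [kb, ctY, Matrix.smul_apply, if_neg c, smul_zero]
      rw [this, zero_mul]
      exact mul_nonneg (by linarith [h.n0]) (h.D_nn v u)
  have a2 := (h.kw_Rt v).entry' h.pm v v
  have a3 : 0 ≤ n * ∑ u, Dm r Y b p V v u := mul_nonneg h.n0 (sum_nonneg fun u _ => h.D_nn v u)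
  rw [e1, ← sum_add_distrib, ← add_sum_erase _ _ (mem_univ v), add_comm]
  refine add_le_add (le_trans (sum_le_sum fun u hu => ?_) (sum_le_sum_of_subset_of_nonneg
    (subset_univ (univ.erase v)) fun u _ _ => mul_nonneg (h.D_nn v u) (sq_nonneg _))) ?_
  · by_cases c : u ∈ Y
    · have b4 := mul_nonneg ((h.kw_Rt v).nn u v) (sq_nonneg ‖ξ u‖)
      simp only [Dm, ctY, if_pos (And.intro hv (And.intro c (ne_of_mem_erase hu).symm)),
        Matrix.add_apply, Matrix.smul_apply, smul_eq_mul, Matrix.transpose_apply]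
      linarith
    · simp [hξ u c]
  · nlinarith [sq_nonneg ‖ξ v‖]

omit h in
theorem D_cut (v : ι) (ξ : ι → ℂ) : ∑ u, Dm r Y b p V v u * ‖if u ∈ Y then ξ u else 0‖ ^ 2 =
    ∑ u, Dm r Y b p V v u * ‖ξ u‖ ^ 2 := sum_congr rfl fun u _ => by
  by_cases c : u ∈ Y
  · rw [if_pos c]
  · rw [show Dm r Y b p V v u = 0 from if_neg fun e0 => c e0.2.1, zero_mul, zero_mul]

theorem d_le (v : ι) : ∑ u, Dm r Y b p V v u ≤ 21 / 500 :=
  (h.kw_D.row' h.pm v).trans (by linarith [h.n1, h.t1])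

/-- the majorant of the full channel -/
theorem phi_le {v : ι} (hv : v ∈ Y) (ξ : ι → ℂ) :
    Phi A Y ϖ v ξ ≤ 51 / 50 * ‖ξ v‖ ^ 2 + ∑ u, Dm r Y b p V v u * ‖ξ u‖ ^ 2 := by
  have e1 : Phi A Y ϖ v ξ = Phi A Y ϖ v fun x => if x ∈ Y then ξ x else 0 := by
    rw [Phi_eq, Phi_eq]
    exact eY_congr fun w hw => by rw [h.smk.kok.Fv_cut hv hw]
  have a1 := h.phi0 (fun x => if x ∈ Y then ξ x else 0) v
  have a2 := h.rest hv (ξ := fun x => if x ∈ Y then ξ x else 0) fun x hx => if_neg hx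
  rw [if_pos hv, ← e1] at a1
  simp only [mul_add, sum_add_distrib] at a1
  nth_rewrite 1 [res_eq h.kw_b h.pm h.c1] at a1
  simp only [Matrix.add_apply, add_mul, sum_add_distrib, Matrix.one_apply, ite_mul, one_mul,
    zero_mul, sum_ite_eq, mem_univ, if_true] at a1
  rw [D_cut, if_pos hv] at a2
  rw [if_pos hv] at a1
  have a3 := mul_le_mul h.n1 (h.d_le v) (sum_nonneg fun u _ => h.D_nn v u) (by norm_num)
  nlinarith [sq_nonneg ‖ξ v‖, h.t1]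

/-- the majorant of the side channels -/
theorem perp_le {n1 : ℝ} (hn1 : ∀ w u v, u ≠ v → ‖alw A w u v‖ ^ 2 ≤ n1) (n0 : 0 ≤ n1)
    (n2 : n1 ≤ 1) {v : ι} (hv : v ∈ Y) (ξ : ι → ℂ) :
    Pp A Y ϖ v ξ ≤ 5 / 2 * ∑ u, Dm r Y b p V v u * ‖ξ u‖ ^ 2 +
      (3 * (n + n1) * ∑ u, Dm r Y b p V v u + 3 * t) * ‖ξ v‖ ^ 2 := by
  wlog hξ : ∀ x ∉ Y, ξ x = 0 generalizing ξ
  · have := this (fun x => if x ∈ Y then ξ x else 0) fun x hx => if_neg hx
    rw [D_cut, if_pos hv] at this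
    refine le_of_eq_of_le ?_ this
    unfold Pp
    exact eY_congr fun w hw => by simp only [h.smk.kok.Fv_cut hv hw, if_pos hv]
  have a1 := h.dok.rec2 Y ϖ hv ξ
  have a2 := h.sum_dec hv ξ
  have a3 := h.rest hv hξ
  have a4 : ∑ u, kb Y b v u * (if u ∈ Y then Phi A Y ϖ u ξ else 0) ≤
      ∑ u, (kb Y b * res (kb Y b)) v u *
        (1001 / 1000 * ‖ξ u‖ ^ 2 + ∑ y, kt r p V u y * ‖ξ y‖ ^ 2) := by
    refine (sum_le_sum fun u _ => mul_le_mul_of_nonneg_left (h.phi0 ξ u) (h.kw_b.nn v u)).trans_eq ?_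
    simp only [Matrix.mul_apply, sum_mul, mul_assoc]
    rw [sum_comm]
    simp only [← mul_sum]
  have a5 : ∑ u, res (kb Y b) v u * ∑ y, kt r p V u y * ‖ξ y‖ ^ 2 = ∑ y, kt r p V v y * ‖ξ y‖ ^ 2 +
      ∑ u, (kb Y b * res (kb Y b)) v u * ∑ y, kt r p V u y * ‖ξ y‖ ^ 2 := by
    nth_rewrite 1 [res_eq h.kw_b h.pm h.c1]
    simp only [Matrix.add_apply, add_mul, sum_add_distrib, Matrix.one_apply, ite_mul, one_mul,
      zero_mul, sum_ite_eq, mem_univ, if_true]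
  have a6 := sum_le_sum (s := Y.erase v)
    (f := fun u => eY Y ϖ fun w => ‖alw A w u v‖ ^ 4 * ‖Fv A Y ϖ v ξ w‖ ^ 2)
    (g := fun u => n1 * (Dm r Y b p V v u * Phi A Y ϖ v ξ) +
      p / 1800 * (∑ y, Ek r v y * ‖ξ y‖ ^ 2) * Ek r v u) fun u hu => by
    have b1 := h.dec (mem_of_mem_erase hu) hv (ne_of_mem_erase hu)
      (fun w => sq_nonneg ‖Fv A Y ϖ v ξ w‖) (h.Fv_le v ξ)
    have b2 := h.kb_le' v u
    simp only [kb, ctY, sqk, if_pos (And.intro hv (And.intro (mem_of_mem_erase hu)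
      (ne_of_mem_erase hu).symm)), Matrix.smul_apply, smul_eq_mul] at b2
    have b3 := mul_le_mul_of_nonneg_right (show b v u ^ 2 ≤ Dm r Y b p V v u by
      nlinarith [sq_nonneg (b v u)]) (Phi_nonneg A Y ϖ v ξ)
    have b4 : 0 ≤ p * (∑ y, Ek r v y * ‖ξ y‖ ^ 2) * Ek r v u := mul_nonneg (mul_nonneg h.p0
      (sum_nonneg fun y _ => mul_nonneg (h.hE.nn _ _) (sq_nonneg _))) (h.hE.nn _ _)
    refine (eY_mono (g := fun w => n1 * (‖alw A w u v‖ ^ 2 * ‖Fv A Y ϖ v ξ w‖ ^ 2))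
      fun w _ => ?_).trans ?_
    · rw [← mul_assoc, show (4 : ℕ) = 2 + 2 from rfl, pow_add]
      gcongr
      exact hn1 w u v (ne_of_mem_erase hu)
    · rw [eY_mul]
      rw [← Phi_eq] at b1
      nlinarith [mul_le_mul_of_nonneg_left b1 n0, mul_le_mul_of_nonneg_left b3 n0,
        mul_le_mul_of_nonneg_right n2 b4]
  have s0 : 0 ≤ ∑ y, Ek r v y * ‖ξ y‖ ^ 2 :=
    sum_nonneg fun y _ => mul_nonneg (h.hE.nn _ _) (sq_nonneg _)
  have a7 : ∑ u ∈ Y.erase v, Ek r v u ≤ V := (sum_le_sum_of_subset_of_nonneg (subset_univ _)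
    fun u _ _ => h.hE.nn v u).trans (h.hE.row' h.pm v)
  have a8 : ∑ u ∈ Y.erase v, Dm r Y b p V v u ≤ ∑ u, Dm r Y b p V v u :=
    sum_le_sum_of_subset_of_nonneg (subset_univ _) fun u _ _ => h.D_nn v u
  have d0 : 0 ≤ ∑ u, Dm r Y b p V v u := sum_nonneg fun u _ => h.D_nn v u
  have f0 : 0 ≤ ∑ u, Dm r Y b p V v u * ‖ξ u‖ ^ 2 :=
    sum_nonneg fun u _ => mul_nonneg (h.D_nn v u) (sq_nonneg _)
  have b1 := mul_le_mul_of_nonneg_left a7 (mul_nonneg (show 0 ≤ p / 1800 by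
    have := h.p0; positivity) s0)
  have b2 := mul_le_mul_of_nonneg_left (mul_le_mul a8 (h.phi_le hv ξ) (Phi_nonneg _ _ _ _ _) d0) n0
  have b3 := mul_le_mul_of_nonneg_right (mul_le_mul n2 (h.d_le v) d0 zero_le_one) f0
  have b4 : 0 ≤ p * ∑ y, (Ek r * Ek r) v y * ‖ξ y‖ ^ 2 := mul_nonneg h.p0
    (sum_nonneg fun y _ => mul_nonneg ((h.hE.mul h.hE h.pm).nn _ _) (sq_nonneg _))
  have b5 : 0 ≤ ∑ u, kb Y b v u * (if u ∈ Y then Phi A Y ϖ u ξ else 0) := sum_nonneg fun u _ =>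
    mul_nonneg (h.kw_b.nn _ _) (by split_ifs; exacts [Phi_nonneg _ _ _ _ _, le_rfl])
  have b6 := mul_nonneg (mul_nonneg h.n0 d0) (sq_nonneg ‖ξ v‖)
  have b7 := mul_nonneg (mul_nonneg n0 d0) (sq_nonneg ‖ξ v‖)
  have b8 := mul_nonneg h.t0 (sq_nonneg ‖ξ v‖)
  rw [a5, kt_eq] at a3
  simp only [sum_add_distrib, ← mul_sum, ← sum_mul, alw] at a1 a2 a6
  simp only [mul_add, sum_add_distrib] at a4
  nlinarith

end MH

end Pool.Agent.P.MP_d0f69c_mp.XS.Pre
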