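import Pool.Agent.P.MP_d0f69c_mp.XS.PMaj2

/-!
The seminorm of a channel, the bootstrap with this seminorm, near and far parts of the majorant,
and the diagonal entries of the jump and of the effective potential.
-/

set_option autoImplicit false

open Finset Function Real
open scoped Matrix

namespace Pool.Agent.P.MP_d0f69c_mp.XS.Pre

variable {ι : Type} [Fintype ι]

/-- `B` is majorised by the functional `N` -/
def MajN (B : Matrix ι ι ℂ) (N : (ι → ℂ) → ℝ) (c : ℝ) : Prop :=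
  ∀ ξ ζ, ‖bf B ξ ζ‖ ≤ c * N ξ * N ζ

/-- a subadditive functional below the weights `D` -/
structure SN (N : (ι → ℂ) → ℝ) (D : ι → ℝ) : Prop where
  nn : ∀ ξ, 0 ≤ N ξ
  sub : ∀ ξ ζ, N (ξ - ζ) ≤ N ξ + N ζ
  D0 : ∀ u, 0 ≤ D u
  le : ∀ ξ, N ξ ≤ no D ξ

section MajN

variable {B Γ T : Matrix ι ι ℂ} {N : (ι → ℂ) → ℝ} {D : ι → ℝ} {c g : ℝ}

theorem MajN.mono {c' : ℝ} (h : MajN B N c) (s : SN N D) (hc : c ≤ c') : MajN B N c' :=
  fun ξ ζ => (h ξ ζ).trans (by have := s.nn ξ; have := s.nn ζ; gcongr)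

theorem MajN.maj (h : MajN B N c) (s : SN N D) (hc : 0 ≤ c) : Maj B D c := fun ξ ζ =>
  (h ξ ζ).trans (mul_le_mul (mul_le_mul_of_nonneg_left (s.le ξ) hc) (s.le ζ) (s.nn ζ)
    (mul_nonneg hc (no_nonneg _ _)))

theorem MajN.smul (h : MajN B N c) {s : ℂ} (hs : ‖s‖ ≤ 1) : MajN (s • B) N c := fun ξ ζ => by
  rw [bf, Matrix.smul_mulVec, dotProduct_smul, norm_smul]
  exact (mul_le_of_le_one_left (norm_nonneg _) hs).trans (h ξ ζ)

theorem SN.hs (s : SN N D) (h : ∑ u, D u * no D (Γ u) ^ 2 ≤ g ^ 2) : ∑ u, D u * N (Γ u) ^ 2 ≤ g ^ 2 :=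
  (sum_le_sum fun u _ => mul_le_mul_of_nonneg_left (pow_le_pow_left₀ (s.nn _) (s.le _) 2)
    (s.D0 u)).trans h

theorem MajN.rows (h : MajN B N c) (s : SN N D) (hc : 0 ≤ c) (hg : 0 ≤ g)
    (hΓ : ∑ u, D u * N (Γ u) ^ 2 ≤ g ^ 2) (ζ : ι → ℂ) : N (Γ *ᵥ (B *ᵥ ζ)) ≤ c * g * N ζ := by
  have := s.nn ζ
  refine (s.le _).trans (no_le (by positivity) ?_)
  calc _ ≤ ∑ u, D u * (c * N (Γ u) * N ζ) ^ 2 := sum_le_sum fun u _ =>
        mul_le_mul_of_nonneg_left (pow_le_pow_left₀ (norm_nonneg _) (h (Γ u) ζ) 2) (s.D0 u)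
    _ = (c * N ζ) ^ 2 * ∑ u, D u * N (Γ u) ^ 2 := by
        rw [mul_sum]; exact sum_congr rfl fun u _ => by ring
    _ ≤ (c * N ζ) ^ 2 * g ^ 2 := by gcongr
    _ = _ := by ring

/-- the bootstrap for `T = B - B Γ T` -/
theorem MajN.boot (h : MajN B N c) (s : SN N D) (hc : 0 ≤ c) (hg : 0 ≤ g)
    (hΓ : ∑ u, D u * N (Γ u) ^ 2 ≤ g ^ 2) (hs : c * g ≤ 1 / 2) (hT : T = B - B * Γ * T) :
    MajN (T - B) N (2 * c ^ 2 * g) ∧ MajN (T - B + B * Γ * B) N (2 * c ^ 3 * g ^ 2) := by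
  have h1 : MajN (T - B) N (2 * c ^ 2 * g) := fun ξ ζ => by
    have e1 : T *ᵥ ζ = B *ᵥ (ζ - Γ *ᵥ (T *ᵥ ζ)) := by
      conv_lhs => rw [hT]
      rw [Matrix.sub_mulVec, Matrix.mulVec_sub, Matrix.mulVec_mulVec, Matrix.mulVec_mulVec]
    have e2 := h.rows s hc hg hΓ (ζ - Γ *ᵥ (T *ᵥ ζ))
    rw [← e1] at e2
    have e3 := s.sub ζ (Γ *ᵥ (T *ᵥ ζ))
    have e4 := h ξ (Γ *ᵥ (T *ᵥ ζ))
    have e5 : bf (T - B) ξ ζ = -bf B ξ (Γ *ᵥ (T *ᵥ ζ)) := by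
      have : T - B = -(B * Γ * T) := by rw [sub_eq_iff_eq_add']; exact hT.trans (sub_eq_add_neg _ _)
      rw [bf, bf, this, Matrix.neg_mulVec, dotProduct_neg, Matrix.mulVec_mulVec,
        Matrix.mulVec_mulVec]
    rw [e5, norm_neg]
    have a0 := s.nn ξ
    have a1 := s.nn ζ
    have a2 := s.nn (Γ *ᵥ (T *ᵥ ζ))
    have a3 : N (Γ *ᵥ (T *ᵥ ζ)) ≤ 2 * (c * g) * N ζ := by
      have := mul_le_mul_of_nonneg_left e3 (mul_nonneg hc hg)
      nlinarith [mul_le_mul_of_nonneg_right hs a2]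
    exact e4.trans ((mul_le_mul_of_nonneg_left a3 (mul_nonneg hc a0)).trans_eq (by ring))
  refine ⟨h1, fun ξ ζ => ?_⟩
  have e : T - B + B * Γ * B = -(B * Γ * (T - B)) := by
    rw [Matrix.mul_sub, neg_sub]
    conv_lhs => rw [hT]
    abel
  rw [bf, e, Matrix.neg_mulVec, dotProduct_neg, norm_neg, ← Matrix.mulVec_mulVec,
    ← Matrix.mulVec_mulVec]
  refine (h ξ _).trans ((mul_le_mul_of_nonneg_left (h1.rows s (by positivity) hg hΓ ζ)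
    (mul_nonneg hc (s.nn ξ))).trans_eq (by ring))

end MajN

variable [DecidableEq ι]

/-- the seminorm of the channel of `v` -/
noncomputable def Nv (A : Matrix ι ι ℂ) (Y : Finset ι) (ϖ : ι → Bool) (v : ι) (ξ : ι → ℂ) : ℝ :=
  √(Phi A Y ϖ v ξ)

section Nv

variable (A : Matrix ι ι ℂ) (Y : Finset ι) (ϖ : ι → Bool) (v : ι)

theorem Nv_nn (ξ : ι → ℂ) : 0 ≤ Nv A Y ϖ v ξ := sqrt_nonneg _

theorem Nv_sq (ξ : ι → ℂ) : Nv A Y ϖ v ξ ^ 2 = eY Y ϖ fun w => ‖Fv A Y ϖ v ξ w‖ ^ 2 :=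
  sq_sqrt (Phi_nonneg _ _ _ _ _)

theorem Nv_add (ξ ζ : ι → ℂ) : Nv A Y ϖ v (ξ + ζ) ≤ Nv A Y ϖ v ξ + Nv A Y ϖ v ζ := by
  refine sqrt_le_iff.2 ⟨add_nonneg (Nv_nn ..) (Nv_nn ..), ?_⟩
  have a := eY_cs (Y := Y) (ϖ := ϖ) (fun w => ‖Fv A Y ϖ v ξ w‖) fun w => ‖Fv A Y ϖ v ζ w‖
  rw [add_sq, Nv_sq, Nv_sq, Phi_eq]
  refine (eY_mono (g := fun w => ‖Fv A Y ϖ v ξ w‖ ^ 2 + 2 * (‖Fv A Y ϖ v ξ w‖ *
    ‖Fv A Y ϖ v ζ w‖) + ‖Fv A Y ϖ v ζ w‖ ^ 2) fun w _ => ?_).trans ?_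
  · rw [show Fv A Y ϖ v (ξ + ζ) w = Fv A Y ϖ v ξ w + Fv A Y ϖ v ζ w by
      simp only [Fv, Pi.add_apply, add_mul, sum_add_distrib]]
    exact (pow_le_pow_left₀ (norm_nonneg _) (norm_add_le _ _) 2).trans_eq (by ring)
  · rw [eY_add, eY_add, eY_mul, mul_assoc]
    exact add_le_add (add_le_add le_rfl (mul_le_mul_of_nonneg_left a zero_le_two)) le_rfl

theorem Nv_smul (c : ℂ) (ξ : ι → ℂ) : Nv A Y ϖ v (c • ξ) = ‖c‖ * Nv A Y ϖ v ξ := by
  have e : ∀ w, ‖Fv A Y ϖ v (c • ξ) w‖ ^ 2 = ‖c‖ ^ 2 * ‖Fv A Y ϖ v ξ w‖ ^ 2 := fun w => by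
    simp only [Fv, Pi.smul_apply, smul_eq_mul, mul_assoc, ← mul_sum, norm_mul, mul_pow]
  simp only [Nv, Phi_eq, e, eY_mul]
  rw [sqrt_mul (sq_nonneg _), sqrt_sq (norm_nonneg _)]

theorem Nv_sub (ξ ζ : ι → ℂ) : Nv A Y ϖ v (ξ - ζ) ≤ Nv A Y ϖ v ξ + Nv A Y ϖ v ζ := by
  have := Nv_add A Y ϖ v ξ ((-1 : ℂ) • ζ)
  rwa [Nv_smul, norm_neg, norm_one, one_mul, neg_one_smul, ← sub_eq_add_neg] at this

theorem Nv_sum {κ : Type} (s : Finset κ) (f : κ → ι → ℂ) :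
    Nv A Y ϖ v (∑ i ∈ s, f i) ≤ ∑ i ∈ s, Nv A Y ϖ v (f i) := by
  classical
  induction s using Finset.induction_on with
  | empty => simpa using (Nv_smul A Y ϖ v 0 0).le
  | insert i s hi ih =>
    rw [sum_insert hi, sum_insert hi]
    exact (Nv_add ..).trans (add_le_add le_rfl ih)

end Nv

theorem DOK.majN {A : Matrix ι ι ℂ} {e : ℝ} (h : DOK A e) {Y : Finset ι} (ϖ : ι → Bool) {v : ι}
    (hv : v ∈ Y) : MajN (Dt A Y ϖ v) (Nv A Y ϖ v) (50 / 49) := fun ξ ζ =>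
  (h.bf_le Y ϖ hv ξ ζ).trans_eq (mul_assoc _ _ _).symm

/-- the majorant with its main term -/
noncomputable def Dh (r : ι → ι → ℝ) (Y : Finset ι) (b : Matrix ι ι ℝ) (p V : ℝ) (v u : ι) : ℝ :=
  (if u = v then 51 / 50 else 0) + Dm r Y b p V v u

omit [DecidableEq ι] in
theorem no_cs {D D' : ι → ℝ} (h : ∀ u, 0 ≤ D u) (h' : ∀ u, 0 ≤ D' u) (ξ ζ : ι → ℂ) :
    no D ξ * no D ζ + no D' ξ * no D' ζ ≤ no (D + D') ξ * no (D + D') ζ := by
  have e : ∀ ξ, no (D + D') ξ ^ 2 = no D ξ ^ 2 + no D' ξ ^ 2 := fun ξ => by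
    rw [no_sq h, no_sq h', no_sq (D := D + D') fun u => add_nonneg (h u) (h' u), ← sum_add_distrib]
    exact sum_congr rfl fun u _ => add_mul _ _ _
  refine abs_le_of_sq_le_sq' ?_ (mul_nonneg (no_nonneg _ _) (no_nonneg _ _)) |>.2
  rw [mul_pow, e, e]
  nlinarith [sq_nonneg (no D ξ * no D' ζ - no D' ξ * no D ζ)]

theorem no_one {c : ℝ} (v : ι) (ξ : ι → ℂ) : no (fun u => if u = v then c else 0) ξ = √c * ‖ξ v‖ := by
  simp only [no, ite_mul, zero_mul, sum_ite_eq', mem_univ, if_true]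
  rw [sqrt_mul' _ (sq_nonneg _), sqrt_sq (norm_nonneg _)]

theorem bf_one (B : Matrix ι ι ℂ) (v : ι) (ξ : ι → ℂ) : bf B (Pi.single v 1) ξ = ∑ u, B v u * ξ u := by
  rw [bf, single_dotProduct, one_mul]; rfl

namespace MH

variable {r r' : ι → ι → ℝ} {A : Matrix ι ι ℂ} {a e : ℝ} {Y : Finset ι} {ϖ : ι → Bool}
  {b : Matrix ι ι ℝ} {p V n t : ℝ} (h : MH r r' A a e Y ϖ b p V n t)
include h

theorem sn {v : ι} (hv : v ∈ Y) : SN (Nv A Y ϖ v) (Dh r Y b p V v) :=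
  ⟨Nv_nn A Y ϖ v, Nv_sub A Y ϖ v, fun u => add_nonneg (by split_ifs <;> norm_num) (h.D_nn v u),
    fun ξ => sqrt_le_sqrt ((h.phi_le hv ξ).trans_eq (by
      simp only [Dh, add_mul, sum_add_distrib, ite_mul, zero_mul, sum_ite_eq', mem_univ, if_true]))⟩

theorem majN {v : ι} (hv : v ∈ Y) : MajN (Dt A Y ϖ v) (Nv A Y ϖ v) (50 / 49) := h.dok.majN ϖ hv

theorem Nv_al (v x : ι) : Nv A Y ϖ v (al A Y ϖ x) = √(eY Y ϖ fun w => ‖alw A w x v‖ ^ 2) := by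
  rw [Nv, h.dok.Phi_al]; rfl

theorem Nv_al_le {v x : ι} (hv : v ∈ Y) (hx : x ∈ Y) (hxv : x ≠ v) :
    Nv A Y ϖ v (al A Y ϖ x) ≤ √(Dm r Y b p V v x) :=
  (h.Nv_al v x).trans_le (sqrt_le_sqrt (h.alw_sq hx hv hxv))

theorem Nv_al_self (v : ι) : Nv A Y ϖ v (al A Y ϖ v) ≤ e :=
  (h.Nv_al v v).trans_le (sqrt_le_iff.2 ⟨h.dok.e0 v,
    eY_le fun w _ => pow_le_pow_left₀ (norm_nonneg _) (h.dg w v) 2⟩)

theorem al_sq {u v : ι} (hu : u ∈ Y) (hv : v ∈ Y) (huv : u ≠ v) :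
    ‖al A Y ϖ u v‖ ^ 2 ≤ Dm r Y b p V v u := by
  rw [KOK.al_avg, EY_apply]
  exact ((pow_le_pow_left₀ (norm_nonneg _) (norm_EY' _) 2).trans (eY_sq _)).trans (h.alw_sq hu hv huv)

theorem al_self (v : ι) : ‖al A Y ϖ v v‖ ≤ e := by
  rw [KOK.al_avg, EY_apply]
  exact (norm_EY' _).trans (eY_le fun w _ => h.dg w v)

theorem d0 (v : ι) : 0 ≤ ∑ u, Dm r Y b p V v u := sum_nonneg fun u _ => h.D_nn v u

theorem D_le (v u : ι) : Dm r Y b p V v u ≤ ∑ u, Dm r Y b p V v u :=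
  single_le_sum (fun u _ => h.D_nn v u) (mem_univ u)

omit h in
theorem D_self (v : ι) : Dm r Y b p V v v = 0 := if_neg fun c => c.2.2 rfl

theorem Nv_one {v : ι} (hv : v ∈ Y) : Nv A Y ϖ v (Pi.single v 1) ≤ 101 / 100 := by
  refine sqrt_le_iff.2 ⟨by norm_num, (h.phi_le hv _).trans ?_⟩
  rw [sum_eq_zero fun u _ => ?_, Pi.single_eq_same, norm_one]
  · norm_num
  · by_cases c : u = v
    · rw [c, D_self, zero_mul]
    · simp [Pi.single_eq_of_ne c]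

/-- the column of the effective potential off the diagonal -/
theorem W_col {v : ι} (hv : v ∈ Y) :
    ∑ u ∈ univ.erase v, ‖Ww A Y ϖ u v‖ ^ 2 ≤ (50 / 49 * e) ^ 2 * ∑ u, Dm r Y b p V v u := by
  set s := ∑ u ∈ univ.erase v, ‖Ww A Y ϖ u v‖ ^ 2 with hs
  have s0 : 0 ≤ s := sum_nonneg fun _ _ => sq_nonneg _
  have a1 := h.dok.z_le Y ϖ hv fun u => if u = v then 0 else (starRingEnd ℂ) (Ww A Y ϖ u v)
  have a2 := h.phi_le hv fun u => if u = v then 0 else (starRingEnd ℂ) (Ww A Y ϖ u v)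
  have e1 : ∑ x, (if x = v then 0 else (starRingEnd ℂ) (Ww A Y ϖ x v)) * Ww A Y ϖ x v = (s : ℝ) := by
    rw [← add_sum_erase _ _ (mem_univ v), if_pos rfl, zero_mul, zero_add, hs, Complex.ofReal_sum]
    refine sum_congr rfl fun x hx => ?_
    rw [if_neg (ne_of_mem_erase hx), Complex.conj_mul', Complex.ofReal_pow]
  have a3 : ∑ u, Dm r Y b p V v u * ‖if u = v then 0 else (starRingEnd ℂ) (Ww A Y ϖ u v)‖ ^ 2 ≤
      (∑ u, Dm r Y b p V v u) * s := by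
    rw [sum_mul]
    refine sum_le_sum fun u _ => mul_le_mul_of_nonneg_left ?_ (h.D_nn v u)
    split_ifs with c
    · simpa using s0
    · rw [Complex.norm_conj]
      exact single_le_sum (f := fun u => ‖Ww A Y ϖ u v‖ ^ 2) (fun _ _ => sq_nonneg _)
        (mem_erase.2 ⟨c, mem_univ u⟩)
  rw [e1, Complex.norm_real, Real.norm_of_nonneg s0] at a1
  rw [if_pos rfl, norm_zero] at a2
  have a4 := pow_le_pow_left₀ s0 a1 2
  rw [mul_pow, sq_sqrt (Phi_nonneg _ _ _ _ _)] at a4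
  have a5 := mul_le_mul_of_nonneg_left (a2.trans (add_le_add le_rfl a3)) (sq_nonneg (50 / 49 * e))
  rcases s0.eq_or_lt with c | c
  · rw [← c]; exact mul_nonneg (sq_nonneg _) (h.d0 v)
  · exact le_of_mul_le_mul_right (by nlinarith) c

/-- `z = -β α` -/
theorem z_beta {v : ι} (hv : v ∈ Y) :
    ‖Ww A Y ϖ v v + Dt A Y ϖ v v v * al A Y ϖ v v‖ ≤ 26 / 25 * ∑ u, Dm r Y b p V v u := by
  have a1 := h.majN hv (Pi.single v 1) fun u => if u = v then 0 else al A Y ϖ u v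
  have e1 : Ww A Y ϖ v v + Dt A Y ϖ v v v * al A Y ϖ v v =
      -∑ u, Dt A Y ϖ v v u * if u = v then 0 else al A Y ϖ u v := by
    rw [← neg_neg (Ww A Y ϖ v v), ← h.smk.kok.Dt_al Y ϖ hv, Matrix.mul_apply,
      ← add_sum_erase _ _ (mem_univ v), ← add_sum_erase univ _ (mem_univ v), if_pos rfl,
      sum_congr rfl (g := fun u => Dt A Y ϖ v v u * if u = v then 0 else al A Y ϖ u v)
        fun u hu => by rw [if_neg (ne_of_mem_erase hu)]]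
    ring
  have a2 : Nv A Y ϖ v (fun u => if u = v then 0 else al A Y ϖ u v) ≤ ∑ u, Dm r Y b p V v u := by
    refine sqrt_le_iff.2 ⟨h.d0 v, (h.phi_le hv _).trans ?_⟩
    rw [if_pos rfl, norm_zero, zero_pow two_ne_zero, mul_zero, zero_add, sq, sum_mul]
    refine sum_le_sum fun u _ => ?_
    by_cases c : Dm r Y b p V v u = 0
    · rw [c, zero_mul, zero_mul]
    · obtain ⟨-, c1, c2⟩ := D_supp c
      rw [if_neg c2.symm]
      exact mul_le_mul_of_nonneg_left ((h.al_sq c1 hv c2.symm).trans (h.D_le v u)) (h.D_nn v u)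
  rw [bf_one] at a1
  rw [e1, norm_neg]
  refine a1.trans ((mul_le_mul (mul_le_mul_of_nonneg_left (h.Nv_one hv) (by norm_num)) a2
    (Nv_nn ..) (by norm_num)).trans ?_)
  linarith [h.d0 v]

/-- `β = 1 - z ^ 2` -/
theorem beta_z {v : ι} (hv : v ∈ Y) :
    ‖Dt A Y ϖ v v v - (1 - Ww A Y ϖ v v ^ 2)‖ ≤ 11 / 10 * e * ∑ u, Dm r Y b p V v u := by
  have k := h.smk.kok
  have a1 := h.majN hv (Pi.single v 1) (∑ u ∈ univ.erase v, Ww A Y ϖ u v • al A Y ϖ u)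
  have e1 : Dt A Y ϖ v v v - (1 - Ww A Y ϖ v v ^ 2) =
      ∑ x, Dt A Y ϖ v v x * (∑ u ∈ univ.erase v, Ww A Y ϖ u v • al A Y ϖ u) x := by
    have e2 := k.Dt_q Y ϖ v v
    rw [if_pos rfl, ← al_W (k.q Y ϖ), Matrix.mul_sub, Matrix.mul_one, ← Matrix.mul_assoc,
      Matrix.sub_apply, Matrix.mul_apply, ← add_sum_erase _ _ (mem_univ v)] at e2
    have e3 := k.Dt_al Y ϖ hv v
    have e4 : ∑ x, Dt A Y ϖ v v x * (∑ u ∈ univ.erase v, Ww A Y ϖ u v • al A Y ϖ u) x =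
        ∑ u ∈ univ.erase v, (Dt A Y ϖ v * al A Y ϖ) v u * Ww A Y ϖ u v := by
      simp only [Finset.sum_apply, Pi.smul_apply, smul_eq_mul, mul_sum, Matrix.mul_apply, sum_mul]
      rw [sum_comm]
      refine sum_congr rfl fun u _ => sum_congr rfl fun x _ => ?_
      rw [show al A Y ϖ u x = al A Y ϖ x u from congrFun (congrFun (k.al_T Y ϖ) x) u]; ring
    rw [e4]
    simp only [al, Ww] at e2 e3 ⊢
    linear_combination e2 + ((1 - Ss A Y ϖ * A)⁻¹ * Ss A Y ϖ) v v * e3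
  have d0 := h.d0 v
  have e0 := h.dok.e0 v
  have a2 : Nv A Y ϖ v (∑ u ∈ univ.erase v, Ww A Y ϖ u v • al A Y ϖ u) ≤
      50 / 49 * e * ∑ u, Dm r Y b p V v u := by
    refine (Nv_sum ..).trans ((sum_le_sum (g := fun u => ‖Ww A Y ϖ u v‖ * √(Dm r Y b p V v u))
      fun u hu => ?_).trans (abs_le_of_sq_le_sq' ((sum_mul_sq_le_sq_mul_sq _ _ _).trans ?_)
        (by positivity)).2)
    · rw [Nv_smul]
      by_cases c : u ∈ Y
      · exact mul_le_mul_of_nonneg_left (h.Nv_al_le hv c (ne_of_mem_erase hu)) (norm_nonneg _)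
      · rw [k.Ww_row Y ϖ c, if_neg (ne_of_mem_erase hu).symm, norm_zero, zero_mul, zero_mul]
    · simp only [sq_sqrt (h.D_nn v _)]
      refine (mul_le_mul (h.W_col hv) (sum_le_sum_of_subset_of_nonneg (subset_univ _)
        fun u _ _ => h.D_nn v u) (sum_nonneg fun u _ => h.D_nn v u) (by positivity)).trans_eq ?_
      ring
  rw [bf_one] at a1
  rw [e1]
  refine a1.trans ((mul_le_mul (mul_le_mul_of_nonneg_left (h.Nv_one hv) (by norm_num)) a2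
    (Nv_nn ..) (by norm_num)).trans ?_)
  nlinarith [mul_nonneg e0 d0]

theorem z_le {v : ι} (hv : v ∈ Y) : ‖Ww A Y ϖ v v‖ ≤ 26 / 25 * e := by
  have a1 := h.dok.z_le Y ϖ hv (Pi.single v 1)
  simp only [Pi.single_apply, ite_mul, one_mul, zero_mul, sum_ite_eq', mem_univ, if_true] at a1
  have e0 := h.dok.e0 v
  have a2 := mul_le_mul_of_nonneg_left (h.Nv_one hv) (show 0 ≤ 50 / 49 * e by positivity)
  exact a1.trans (a2.trans (by linarith))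

/-- the dressed kernel is tuned to the effective potential -/
theorem al_phi {v : ι} (hv : v ∈ Y) :
    ‖al A Y ϖ v v - phi (Ww A Y ϖ v v)‖ ≤ 21 / 20 * ∑ u, Dm r Y b p V v u := by
  have a1 := h.z_beta hv
  have a2 := h.beta_z hv
  have a3 := h.z_le hv
  have a4 := h.al_self v
  have d0 := h.d0 v
  have e0 := h.dok.e0 v
  have e1 := h.e1
  set z := Ww A Y ϖ v v
  have b1 : 999 / 1000 ≤ ‖z ^ 2 - 1‖ := by
    have := norm_sub_norm_le 1 (z ^ 2)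
    rw [norm_one, norm_sub_rev, norm_pow] at this
    nlinarith [norm_nonneg z]
  have b2 : z ^ 2 - 1 ≠ 0 := norm_pos_iff.1 (by linarith)
  have e2 : al A Y ϖ v v - phi z = ((Dt A Y ϖ v v v - (1 - z ^ 2)) * al A Y ϖ v v -
      (z + Dt A Y ϖ v v v * al A Y ϖ v v)) / (z ^ 2 - 1) := by
    rw [phi]; field_simp; ring
  rw [e2, norm_div, div_le_iff₀ (by linarith)]
  refine (norm_sub_le _ _).trans ?_
  rw [norm_mul]
  have b3 := mul_le_mul a2 (a4.trans e1) (norm_nonneg _) (by positivity)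
  nlinarith [mul_le_mul_of_nonneg_right e1 d0, mul_le_mul_of_nonneg_left b1 d0]

/-- near and far part of the majorant -/
theorem split {b1 b2 : Matrix ι ι ℝ} {c1 c2 : ℝ} (b0 : ∀ x y, 0 ≤ b x y)
    (hb : ∀ x y, b x y ≤ b1 x y + b2 x y) (h1 : KW r' (ctY univ (sqk b1)) c1)
    (h2 : KW r' (ctY Y (sqk b2)) c2) (c0 : 0 ≤ c1) (hc : c1 ≤ 1 / 100) (c0' : 0 ≤ c2) (j : ℕ) :
    ∃ D2 : Matrix ι ι ℝ, KW r' D2 (3 * c2 + 2 * (11 / 5 * c1) ^ (j + 1) + 3 * t) ∧ ∀ x y,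
      Dm r Y b p V x y ≤ 1001 / 1000 * geo ((11 / 5 : ℝ) • ctY univ (sqk b1)) j x y + D2 x y := by
  cases isEmpty_or_nonempty ι
  · exact ⟨0, ⟨fun x => isEmptyElim x, fun x => isEmptyElim x, fun x => isEmptyElim x⟩,
      fun x => isEmptyElim x⟩
  have g1 := h1.smul (a := 11 / 5) (by norm_num)
  obtain ⟨D, d1, d2⟩ := res_split h.kw_b h.pm h.c1 g1 (h2.smul (a := 11 / 5) (by norm_num))
    (by linarith) (by linarith) (fun x y => by
      simp only [kb, ctY, sqk, Matrix.smul_apply, smul_eq_mul, mem_univ, true_and]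
      by_cases c : x ∈ Y ∧ y ∈ Y ∧ x ≠ y
      · rw [if_pos c, if_pos c, if_pos c.2.2]
        nlinarith [pow_le_pow_left₀ (b0 x y) (hb x y) 2, sq_nonneg (b1 x y - b2 x y)]
      · rw [if_neg c, if_neg c]
        have : 0 ≤ if x ≠ y then b1 x y ^ 2 else 0 := by split_ifs <;> positivity
        linarith) j
  have g2 := h.kw_Rt (Classical.arbitrary ι)
  have g3 := geo_kw g1 h.pm (by linarith) (by linarith) j
  refine ⟨(1001 / 1000 : ℝ) • D + res (kb Y b) * kt r p V + (res (kb Y b) * kt r p V)ᵀ,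
    (((d1.smul (by norm_num)).add g2).add (g2.transpose h.pm)).le ?_, fun x y => ?_⟩
  · have e1 : 11 / 5 * c2 / (1 - 11 / 5 * c1) ≤ 5 / 2 * c2 := by
      rw [div_le_iff₀ (by linarith)]; nlinarith
    have e0 : 0 ≤ (11 / 5 * c1) ^ (j + 1) := by positivity
    have e2 : (11 / 5 * c2 / (1 - 11 / 5 * c1) + (11 / 5 * c1) ^ (j + 1)) / (1 - 11 / 10 * n) ≤
        51 / 50 * (5 / 2 * c2 + (11 / 5 * c1) ^ (j + 1)) := by
      rw [div_le_iff₀ (by linarith [h.c1])]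
      nlinarith [h.n1, mul_le_mul_of_nonneg_left h.n1 c0', mul_le_mul_of_nonneg_left h.n1 e0]
    linarith [h.t0]
  · have a1 := d2 x y
    have a2 := g2.nn x y
    have a3 := g2.nn y x
    have a4 := g3.nn x y
    have a5 := d1.nn x y
    rw [res_eq h.kw_b h.pm h.c1, Matrix.add_apply] at a1
    simp only [Dm, ctY, Matrix.add_apply, Matrix.smul_apply, smul_eq_mul, Matrix.transpose_apply]
      at *
    split_ifs <;> linarith


end MH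

end Pool.Agent.P.MP_d0f69c_mp.XS.Pre
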