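import Pool.Agent.P.MP_d0f69c_mp.XS.Mark
import Pool.Agent.P.MP_d0f69c_mp.XS.Mcd
import Pool.Agent.P.MP_d0f69c_mp.XS.Indep
import Pool.Agent.P.MP_d0f69c_mp.XS.PH

/-!
Tails of sums over marked points that pass a local test.
-/

set_option autoImplicit false

open Finset Real

namespace Pool.Agent.P.MP_d0f69c_mp.XS.Pre

variable {ι : Type} [Fintype ι] [DecidableEq ι] {K : ℕ} [NeZero K]

omit [DecidableEq ι] in
theorem sq_sum {A : Finset ι} {c : ι → ℝ} {v r : ℝ} (hr : 0 ≤ r) (hv : ∑ y ∈ A, c y ^ 2 ≤ v)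
    (D : ι → ι → Prop) [DecidableRel D] (h1 : ∀ x, (#{y ∈ A | D x y} : ℝ) ≤ r)
    (h2 : ∀ y ∈ A, (#{x | D x y} : ℝ) ≤ r) : ∑ x, (∑ y ∈ A with D x y, c y) ^ 2 ≤ r ^ 2 * v := by
  calc _ ≤ ∑ x, r * ∑ y ∈ A with D x y, c y ^ 2 := sum_le_sum fun x _ =>
        sq_sum_le_card_mul_sum_sq.trans (mul_le_mul_of_nonneg_right (h1 x)
          (sum_nonneg fun _ _ => sq_nonneg _))
    _ ≤ r * (r * v) := by
        rw [← mul_sum]
        refine mul_le_mul_of_nonneg_left ?_ hr
        simp only [sum_filter]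
        rw [sum_comm]
        refine le_trans (sum_le_sum fun y hy => ?_) ((mul_sum A _ r).ge.trans
          (mul_le_mul_of_nonneg_left hv hr))
        rw [← sum_filter, sum_const, nsmul_eq_mul]
        exact mul_le_mul_of_nonneg_right (h2 y hy) (sq_nonneg _)
    _ = _ := by ring

/-- upper tail for a sum over the marked points -/
theorem mark_up (A : Finset ι) {c : ι → ℝ} {N v t : ℝ} (ht : 0 ≤ t) (hv : 0 < v)
    (hc : ∀ y ∈ A, 0 ≤ c y) (hN : ∑ y ∈ A, c y ≤ N) (h2 : ∑ y ∈ A, c y ^ 2 ≤ v) :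
    pr (fun w : ι → Fin K => N / K + t ≤ ∑ y ∈ A with w y = 0, c y) ≤ exp (-t ^ 2 / (2 * v)) := by
  refine le_trans (pr_mono fun w hw => ?_) (t_mcd ι (Fin K) (fun w => ∑ y ∈ A with w y = 0, c y)
    (fun x => ∑ y ∈ A with x = y, c y) t v ht hv ?_ fun w x k => ?_)
  · refine le_trans (add_le_add_left ?_ t) hw
    rw [MarkA.av_marked A c fun y w => w y = 0]
    simp only [MarkA.p1]
    rw [← sum_mul, div_eq_mul_inv]
    exact mul_le_mul_of_nonneg_right hN (by positivity)
  · simpa only [one_pow, one_mul] using sq_sum zero_le_one h2 (fun x y => x = y)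
      (fun x => Nat.cast_le_one.2 (card_le_one.2 fun a ha b hb =>
        (mem_filter.1 ha).2.symm.trans (mem_filter.1 hb).2))
      fun y _ => Nat.cast_le_one.2 (card_le_one.2 fun a ha b hb =>
        (mem_filter.1 ha).2.trans (mem_filter.1 hb).2.symm)
  · exact MarkA.diff hc _ _ _ fun y hy => by rw [Function.update_of_ne (Ne.symm hy)]

/-- upper tail for the number of marked points -/
theorem mark_cnt (A : Finset ι) {l t : ℝ} (ht : 0 ≤ t) (hl : 0 < l) (hA : (A.card : ℝ) ≤ l) :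
    pr (fun w : ι → Fin K => l / K + t ≤ #{y ∈ A | w y = 0}) ≤ exp (-t ^ 2 / (2 * l)) := by
  simpa using mark_up (K := K) A (c := fun _ => 1) ht hl (fun _ _ => zero_le_one)
    (by simpa using hA) (by simpa using hA)

/-- the inequality of Markov for a sum over the marked points -/
theorem mark_mkv (A : Finset ι) {c : ι → ℝ} {N t : ℝ} (ht : 0 < t) (hc : ∀ y ∈ A, 0 ≤ c y)
    (hN : ∑ y ∈ A, c y ≤ N) :
    pr (fun w : ι → Fin K => t ≤ ∑ y ∈ A with w y = 0, c y) ≤ N / (K * t) := by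
  have K0 : (0 : ℝ) < K := Nat.cast_pos.2 (NeZero.pos K)
  refine (pr_le_av (f := fun w => t⁻¹ * ∑ y ∈ A with w y = 0, c y) (fun w => mul_nonneg
    (by positivity) (sum_nonneg fun y hy => hc y (mem_filter.1 hy).1)) fun w hw => ?_).trans ?_
  · rwa [← div_eq_inv_mul, one_le_div ht]
  · rw [av_mul, MarkA.av_marked A c fun y w => w y = 0]
    simp only [MarkA.p1]
    rw [← sum_mul]
    exact (mul_le_mul_of_nonneg_left (mul_le_mul_of_nonneg_right hN (by positivity))
      (by positivity)).trans_eq (by field_simp)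

/-- more than a quarter of the bound is marked with probability at most `4 / K` -/
theorem mark_quarter (A : Finset ι) {l : ℝ} (hA : (A.card : ℝ) ≤ l) :
    pr (fun w : ι → Fin K => l / 4 < #{y ∈ A | w y = 0}) ≤ 4 / K := by
  rcases ((Nat.cast_nonneg _).trans hA).eq_or_lt with rfl | hl
  · rw [pr_false fun w hw => ?_]
    · positivity
    · have : (#{y ∈ A | w y = 0} : ℝ) ≤ A.card := by exact_mod_cast card_filter_le _ _
      linarith
  · refine (pr_mono fun w hw => ?_).trans ((mark_mkv (K := K) A (c := fun _ => 1) (t := l / 4)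
      (by positivity) (fun _ _ => zero_le_one) (by simpa using hA)).trans_eq (by field_simp))
    simpa using hw.le

/-- lower tail for a sum over the marked points that pass the test `B`, which looks at the marks
in `nb y` only and fails with probability at most `ε` -/
theorem mark_low (A : Finset ι) (nb : ι → Finset ι) (B : ι → (ι → Fin K) → Prop)
    [∀ w, DecidablePred fun y => B y w] {c : ι → ℝ} {Δ ε v t : ℝ} (ht : 0 ≤ t) (hv : 0 < v)
    (hΔ : 0 ≤ Δ) (hc : ∀ y ∈ A, 0 ≤ c y) (h2 : ∑ y ∈ A, c y ^ 2 ≤ v) (h0 : ∀ y ∈ A, y ∉ nb y)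
    (h1 : ∀ y ∈ A, ((nb y).card : ℝ) ≤ Δ) (h3 : ∀ z, (#{y ∈ A | z ∈ nb y} : ℝ) ≤ Δ)
    (hB : ∀ y ∈ A, ∀ w w', (∀ z ∈ nb y, w z = w' z) → B y w → B y w')
    (hε : ∀ y ∈ A, pr (fun w => ¬ B y w) ≤ ε) :
    pr (fun w : ι → Fin K => ∑ y ∈ A with (w y = 0 ∧ B y w), c y ≤
      (1 - ε) * (∑ y ∈ A, c y) / K - t) ≤ exp (-t ^ 2 / (2 * ((Δ + 1) ^ 2 * v))) := by
  have K0 : (0 : ℝ) < K := Nat.cast_pos.2 (NeZero.pos K)
  have hb : ∀ (x : ι) (s u : Finset ι), s ⊆ insert x u → (u.card : ℝ) ≤ Δ → (s.card : ℝ) ≤ Δ + 1 :=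
    fun x s u hx hu => le_trans
      (by exact_mod_cast (card_le_card hx).trans (card_insert_le _ _)) (add_le_add_left hu 1)
  refine le_trans (pr_mono fun w hw => ?_) (t_mcd ι (Fin K)
    (fun w => -1 * ∑ y ∈ A with (w y = 0 ∧ B y w), c y)
    (fun x => ∑ y ∈ A with (x = y ∨ x ∈ nb y), c y) t _ ht (by positivity)
    (sq_sum (by positivity) h2 (fun x y => x = y ∨ x ∈ nb y)
      (fun x => hb x _ _ (fun y hy => mem_insert.2 ((mem_filter.1 hy).2.imp Eq.symm fun a =>
        mem_filter.2 ⟨(mem_filter.1 hy).1, a⟩)) (h3 x))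
      fun y hy => hb y _ _ (fun x hx => mem_insert.2 (mem_filter.1 hx).2) (h1 y hy)) fun w x k => ?_)
  · rw [av_mul, MarkA.av_marked A c fun y w => w y = 0 ∧ B y w]
    have a1 : (1 - ε) * (∑ y ∈ A, c y) / K ≤
        ∑ y ∈ A, c y * pr fun w : ι → Fin K => w y = 0 ∧ B y w := by
      rw [mul_sum, sum_div]
      refine sum_le_sum fun y hy => le_trans (le_of_eq (by ring))
        (mul_le_mul_of_nonneg_left (b := (K : ℝ)⁻¹ * (1 - ε)) ?_ (hc y hy))
      rw [PHA.ind2 t_indep y (nb y) (h0 y hy) (fun k : Fin K => k = 0) _ (hB y hy),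
        show pr (fun k : Fin K => k = 0) = (K : ℝ)⁻¹ by simp [pr, filter_eq']]
      have := hε y hy
      rw [pr_not] at this
      exact mul_le_mul_of_nonneg_left (by linarith) (by positivity)
    linarith
  · rw [← mul_sub, abs_mul, abs_neg, abs_one, one_mul]
    simp only [sum_filter, ← sum_sub_distrib]
    refine (abs_sum_le_sum_abs _ _).trans (sum_le_sum fun y hy => ?_)
    have c0 := hc y hy
    by_cases hD : x = y ∨ x ∈ nb y
    · rw [if_pos hD, abs_le]
      split_ifs <;> constructor <;> linarith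
    · rw [if_neg hD, not_or] at *
      have e : ∀ z ∈ nb y, Function.update w x k z = w z := fun z hz =>
        Function.update_of_ne (ne_of_mem_of_not_mem hz hD.2) _ _
      rw [Function.update_of_ne (Ne.symm hD.1), if_congr (and_congr_right' ⟨hB y hy _ _ e,
        hB y hy _ _ fun z hz => (e z hz).symm⟩) rfl rfl, sub_self, abs_zero]

end Pool.Agent.P.MP_d0f69c_mp.XS.Pre
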