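import Pool.Agent.P.MP_d0f69c_mp.XS.PPrt2
import Pool.Agent.P.MP_d0f69c_mp.XS.PMaj2

/-!
A diagonal change of the kernel: the response of the effective potential.
-/

set_option autoImplicit false

open Finset Real Matrix Function

namespace Pool.Agent.P.MP_d0f69c_mp.XS.Pre

variable {ι : Type} [Fintype ι] [DecidableEq ι]

/-- covariance of the channel vectors of two kernels -/
noncomputable def Lc (A' A : Matrix ι ι ℂ) (Y : Finset ι) (ϖ : ι → Bool) (y : ι) :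
    Matrix ι ι ℂ := fun x x' =>
  (EY Y ϖ fun w => psi A' Y ϖ y w x * psi A Y ϖ y w x') - Ww A' Y ϖ x y * Ww A Y ϖ x' y

variable {A A' : Matrix ι ι ℂ} {Y : Finset ι} {ϖ : ι → Bool} {ε : ι → ℂ}

theorem EY_cmul (c : ℂ) (F : (ι → Bool) → ℂ) : EY Y ϖ (fun w => c * F w) = c * EY Y ϖ F :=
  EY_smul c F

theorem Ww_diag (h : KOK A) (h' : KOK A') (hb : A' = A + diagonal ε) (x x' : ι) :
    (Ww A' Y ϖ - Ww A Y ϖ) x x' = -∑ y, ε y * Lc A' A Y ϖ y x x' := by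
  have e1 : Ss A Y ϖ - Ss A' Y ϖ = Ss A' Y ϖ * diagonal ε * Ss A Y ϖ +
      ((EY Y ϖ fun w => Tt A' w * diagonal ε * Tt A w) - Ss A' Y ϖ * diagonal ε * Ss A Y ϖ) := by
    rw [add_sub_cancel, Ss, Ss, ← EY_sub]
    simp only [Tt_sub h h' hb]
  have e2 := two_kernel hb (h.q' Y ϖ) (h'.q Y ϖ) (h.q Y ϖ) e1
  have e3 : (1 - Ss A' Y ϖ * A')⁻¹ * (Ss A' Y ϖ * diagonal ε * Ss A Y ϖ) * (1 - A * Ss A Y ϖ)⁻¹ =
      Ww A' Y ϖ * diagonal ε * Ww A Y ϖ := by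
    rw [Ww, Ww, W_eq (h.q Y ϖ) (h.q' Y ϖ)]; simp only [Matrix.mul_assoc]
  rw [Ww, Ww, e2, Matrix.mul_sub, Matrix.sub_mul, e3, mul_EY, EY_mul, Matrix.neg_apply,
    Matrix.sub_apply, EY_apply, Matrix.mul_apply]
  simp only [Lc, mul_sub (ε _), sum_sub_distrib, ← EY_cmul, ← EY_sum]
  refine congrArg _ (congrArg₂ _ (EY_congr fun w _ => ?_) (sum_congr rfl fun y _ => ?_))
  · rw [show (1 - Ss A' Y ϖ * A')⁻¹ * (Tt A' w * diagonal ε * Tt A w) * (1 - A * Ss A Y ϖ)⁻¹ =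
      (1 - Ss A' Y ϖ * A')⁻¹ * Tt A' w * diagonal ε * (Tt A w * (1 - A * Ss A Y ϖ)⁻¹) by
        simp only [Matrix.mul_assoc], Matrix.mul_apply]
    exact sum_congr rfl fun y _ => by rw [mul_diagonal, h.psi_row, psi, psi]; ring
  · rw [mul_diagonal, ← transpose_apply (Ww A Y ϖ) x' y, h.Ww_T]; ring

theorem bf_Lc (y : ι) (ξ ζ : ι → ℂ) : bf (Lc A' A Y ϖ y) ξ ζ =
    (EY Y ϖ fun w => Fv A' Y ϖ y ξ w * Fv A Y ϖ y ζ w) -
      EY Y ϖ (Fv A' Y ϖ y ξ) * EY Y ϖ (Fv A Y ϖ y ζ) := by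
  rw [KOK.Fv_mean, KOK.Fv_mean]
  simp only [bf_eq, Lc, Fv, sum_mul_sum, EY_sum, ← sum_sub_distrib]
  refine sum_congr rfl fun x _ => sum_congr rfl fun x' _ => ?_
  rw [EY_congr (F := fun w => ξ x * psi A' Y ϖ y w x * (ζ x' * psi A Y ϖ y w x'))
    (G := fun w => (ξ x * ζ x') • (psi A' Y ϖ y w x * psi A Y ϖ y w x'))
    fun w _ => by rw [smul_eq_mul]; ring, EY_smul, smul_eq_mul]
  ring

theorem EY_mul_le (F G : (ι → Bool) → ℂ) : ‖EY Y ϖ fun w => F w * G w‖ ≤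
    √(eY Y ϖ fun w => ‖F w‖ ^ 2) * √(eY Y ϖ fun w => ‖G w‖ ^ 2) :=
  (norm_EY' _).trans (by simp only [norm_mul]; exact eY_cs _ _)

theorem EY_le (F : (ι → Bool) → ℂ) : ‖EY Y ϖ F‖ ≤ √(eY Y ϖ fun w => ‖F w‖ ^ 2) :=
  (norm_EY' _).trans (le_sqrt_of_sq_le (eY_sq _))

theorem Lc_le (y : ι) (ξ ζ : ι → ℂ) :
    ‖bf (Lc A' A Y ϖ y) ξ ζ‖ ≤ 2 * (√(Phi A' Y ϖ y ξ) * √(Phi A Y ϖ y ζ)) := by
  rw [bf_Lc, two_mul]
  refine (norm_sub_le _ _).trans (add_le_add (EY_mul_le _ _) ?_)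
  rw [norm_mul]
  exact mul_le_mul (EY_le _) (EY_le _) (norm_nonneg _) (sqrt_nonneg _)

/-- the amplitude is its mean given the sign at `v`, up to the other channels -/
theorem DOK.vres {e : ℝ} (h : DOK A e) {v : ι} (hv : v ∈ Y) (ξ : ι → ℂ) :
    (eY Y ϖ fun w => ‖Fv A Y ϖ v ξ w - ∑ x, ξ x * Ww A Y ϖ x v - sgn (w v) * ξ v‖ ^ 2) ≤
      21 / 20 * ∑ u ∈ Y.erase v, eY Y ϖ fun w => ‖alw A w u v‖ ^ 2 * ‖Fv A Y ϖ u ξ w‖ ^ 2 := by
  have a : ∀ b, eY (Y.erase v) (update ϖ v b)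
      (fun w => ‖Fv A Y ϖ v ξ w - ∑ x, ξ x * Ww A Y ϖ x v - sgn (w v) * ξ v‖ ^ 2) ≤
      ∑ u ∈ Y.erase v, 21 / 20 * eY (Y.erase v) (update ϖ v b) fun w =>
        ‖alw A w u v‖ ^ 2 * ‖Fv A Y ϖ u ξ w‖ ^ 2 := fun b => by
    refine (es_Y _ _ _).trans (add_le_of_nonpos_left (le_of_eq ?_) |>.trans
      (sum_le_sum fun u hu => ?_))
    · rw [EY_congr (G := fun w => Fv A Y ϖ v ξ w - (∑ x, ξ x * Ww A Y ϖ x v + sgn b * ξ v))
        fun w hw => by rw [hw v (notMem_erase v Y), update_self, sub_sub], EY_sub, EY_const,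
        h.Fv_cond Y ϖ hv, sub_self, norm_zero, sq, mul_zero]
    · rw [← eY_mul]
      refine eY_mono fun w _ => le_trans (le_of_eq ?_) (h.dF_le Y ϖ ξ (ne_of_mem_erase hu) w)
      rw [update_of_ne (ne_of_mem_erase hu).symm]
      congr 3
      ring
  have a1 := add_le_add (a true) (a false)
  rw [← eY_split hv, ← sum_add_distrib] at a1
  simp only [← mul_add, ← eY_split hv, ← mul_sum] at a1
  linarith

theorem Fv_single (v u : ι) (w : ι → Bool) : Fv A Y ϖ u (Pi.single v 1) w = psi A Y ϖ u w v := by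
  simp [Fv, Pi.single_apply]

/-- the central entry of the covariance -/
theorem Lc_diag (h : KOK A) (h' : KOK A') {v : ι} (hv : v ∈ Y) : Lc A' A Y ϖ v v v - 1 =
    EY Y ϖ fun w => (psi A' Y ϖ v w v - Ww A' Y ϖ v v - sgn (w v)) *
      (psi A Y ϖ v w v - Ww A Y ϖ v v - sgn (w v)) := by
  have e0 : EY Y ϖ (fun w => sgn (w v)) = 0 := by
    rw [EY_half hv]; simp [sgn_not, EY_const]
  have m : ∀ {B : Matrix ι ι ℂ}, KOK B → (EY Y ϖ fun w => psi B Y ϖ v w v) = Ww B Y ϖ v v ∧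
      (EY Y ϖ fun w => sgn (w v) * psi B Y ϖ v w v) = 1 := fun {B} g => by
    have a := KOK.Fv_mean (A := B) Y ϖ v (Pi.single v 1)
    have b := g.Fv_odd Y ϖ v (Pi.single v 1)
    simp only [Fv_single, Pi.single_eq_same] at b
    rw [show Fv _ Y ϖ v (Pi.single v 1) = fun w => psi _ Y ϖ v w v from
      funext (Fv_single v v)] at a
    exact ⟨by simpa [Pi.single_apply] using a, b⟩
  rw [EY_congr (G := fun w => psi A' Y ϖ v w v * psi A Y ϖ v w v -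
      Ww A Y ϖ v v * psi A' Y ϖ v w v - sgn (w v) * psi A' Y ϖ v w v -
      Ww A' Y ϖ v v * psi A Y ϖ v w v - sgn (w v) * psi A Y ϖ v w v +
      (Ww A' Y ϖ v v + Ww A Y ϖ v v) * sgn (w v) + (Ww A' Y ϖ v v * Ww A Y ϖ v v + 1))
    fun w _ => by linear_combination sgn_sq (w v)]
  simp only [EY_add, EY_sub, EY_cmul, EY_const, e0, (m h).1, (m h).2, (m h').1, (m h').2, Lc]
  ring

/-- what the Newton step uses of the majorant; the set `g` is isolated -/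
structure NM (r : ι → ι → ℝ) (A : Matrix ι ι ℂ) (Y g : Finset ι) (ϖ : ι → Bool)
    (D : ι → ι → ℝ) (κ : ℝ) : Prop where
  smk : SmK r A (1 / 100)
  gY : g ⊆ Y
  nn : ∀ v u, 0 ≤ D v u
  phi : ∀ v ∈ g, ∀ ξ, Phi A Y ϖ v ξ ≤ 51 / 50 * ‖ξ v‖ ^ 2 + ∑ u, D v u * ‖ξ u‖ ^ 2
  alw : ∀ v ∈ g, ∀ u ∈ Y, u ≠ v → (eY Y ϖ fun w => ‖alw A w u v‖ ^ 2) ≤ D v u
  row : ∀ v ∈ g, ∑ u, D v u ≤ κ ^ 2
  col : ∀ u, ∑ v ∈ g, D v u ≤ κ ^ 2
  dg : ∀ w x, ‖Pre.alw A w x x‖ ≤ 1 / 100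
  κ0 : 0 ≤ κ
  κ1 : κ ≤ 1 / 100

namespace NM

variable {r : ι → ι → ℝ} {g : Finset ι} {D D' : ι → ι → ℝ} {κ δ : ℝ}

theorem dok (h : NM r A Y g ϖ D κ) : DOK A (1 / 100) := ⟨h.smk.kok, le_rfl, h.dg⟩

theorem res (h : NM r A Y g ϖ D κ) {v : ι} (hv : v ∈ g) :
    (eY Y ϖ fun w => ‖psi A Y ϖ v w v - Ww A Y ϖ v v - sgn (w v)‖ ^ 2) ≤ 6 / 5 * κ ^ 2 := by
  have a := h.dok.vres (ϖ := ϖ) (h.gY hv) (Pi.single v 1)
  simp only [Fv_single, Pi.single_apply, ite_mul, one_mul, zero_mul, sum_ite_eq', mem_univ, if_true,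
    mul_one] at a
  have b : ∑ u ∈ Y.erase v, (eY Y ϖ fun w => ‖Pre.alw A w u v‖ ^ 2 * ‖psi A Y ϖ u w v‖ ^ 2) ≤
      ∑ u ∈ Y.erase v, 11 / 10 * D v u := sum_le_sum fun u hu => by
    refine le_trans ?_ (mul_le_mul_of_nonneg_left (h.alw v hv u (mem_of_mem_erase hu)
      (ne_of_mem_erase hu)) (by norm_num))
    rw [← eY_mul]
    refine eY_mono fun w _ => ?_
    have c := (h.smk.psi_le Y ϖ u w v).trans (mul_le_of_le_one_right (sq_nonneg _)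
      (exp_le_one_iff.2 (neg_nonpos.2 (h.smk.pm.nonneg _ _))))
    rw [mul_comm]
    exact mul_le_mul_of_nonneg_right ((pow_le_pow_left₀ (norm_nonneg _) c 2).trans (by norm_num))
      (sq_nonneg _)
  rw [← mul_sum] at b
  have c := (sum_le_sum_of_subset_of_nonneg (subset_univ (Y.erase v))
    fun u _ _ => h.nn v u).trans (h.row v hv)
  linarith [sq_nonneg κ]

theorem Lc_one (h : NM r A Y g ϖ D κ) (h' : NM r A' Y g ϖ D' κ) {v : ι} (hv : v ∈ g) :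
    ‖Lc A' A Y ϖ v v v - 1‖ ≤ 6 / 5 * κ ^ 2 := by
  rw [Lc_diag h.smk.kok h'.smk.kok (h.gY hv)]
  refine (EY_mul_le _ _).trans ((mul_le_mul (sqrt_le_sqrt (h'.res hv)) (sqrt_le_sqrt (h.res hv))
    (sqrt_nonneg _) (sqrt_nonneg _)).trans_eq (mul_self_sqrt (by positivity)))

theorem majF (h : NM r A Y g ϖ D κ) (h' : NM r A' Y g ϖ D' κ) (δ0 : 0 ≤ δ) (hε : ∀ y, ‖ε y‖ ≤ δ) :
    MajF Y g (fun v => ε v • Lc A' A Y ϖ v)
      (fun v u => (if v = u then 51 / 50 else 0) + D v u + D' v u) (2 * δ) 2 := by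
  have i0 : ∀ v u : ι, (0 : ℝ) ≤ if v = u then 51 / 50 else 0 := fun v u => by
    split_ifs <;> norm_num
  refine ⟨fun v hv ξ ζ => ?_, fun v u => add_nonneg (add_nonneg (i0 v u) (h.nn v u)) (h'.nn v u),
    fun u _ => ?_, by positivity, zero_le_two⟩
  · have e : ∀ θ : ι → ℂ, ∑ u, ((if v = u then 51 / 50 else 0) + D v u + D' v u) * ‖θ u‖ ^ 2 =
        51 / 50 * ‖θ v‖ ^ 2 + ∑ u, D v u * ‖θ u‖ ^ 2 + ∑ u, D' v u * ‖θ u‖ ^ 2 := fun θ => by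
      simp [add_mul, sum_add_distrib]
    have p : ∀ (E : ι → ι → ℝ) (θ : ι → ℂ), (∀ v u, 0 ≤ E v u) → 0 ≤ ∑ u, E v u * ‖θ u‖ ^ 2 :=
      fun E θ hE => sum_nonneg fun u _ => mul_nonneg (hE v u) (sq_nonneg _)
    rw [bf, smul_mulVec, dotProduct_smul, norm_smul, mul_comm 2, mul_assoc, mul_assoc]
    refine mul_le_mul (hε v) ((Lc_le v ξ ζ).trans
      (mul_le_mul_of_nonneg_left (mul_le_mul (sqrt_le_sqrt ?_) (sqrt_le_sqrt ?_) (sqrt_nonneg _)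
        (no_nonneg _ _)) zero_le_two)) (norm_nonneg _) δ0
    · rw [e]; linarith [h'.phi v hv ξ, p D ξ h.nn]
    · rw [e]; linarith [h.phi v hv ζ, p D' ζ h'.nn]
  · simp only [sum_add_distrib, sum_ite_eq']
    have := h.col u
    have := h'.col u
    have := pow_le_pow_left₀ h.κ0 h.κ1 2
    split_ifs <;> linarith

theorem W_eq (h : NM r A Y g ϖ D κ) (h' : NM r A' Y g ϖ D' κ) (hb : A' = A + diagonal ε)
    (h0 : ∀ y ∉ g, ε y = 0) (x x' : ι) :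
    (Ww A' Y ϖ - Ww A Y ϖ) x x' = -∑ v ∈ g, (ε v • Lc A' A Y ϖ v) x x' := by
  rw [Ww_diag h.smk.kok h'.smk.kok hb, ← sum_subset (subset_univ g) fun y _ hy => by
    rw [h0 y hy, zero_mul]]
  rfl

/-- the potential moves by minus the diagonal change, up to a relative error -/
theorem W_op (h : NM r A Y g ϖ D κ) (h' : NM r A' Y g ϖ D' κ) (hb : A' = A + diagonal ε)
    (h0 : ∀ y ∉ g, ε y = 0) (δ0 : 0 ≤ δ) (hε : ∀ y, ‖ε y‖ ≤ δ) :
    OpLe Y (Ww A' Y ϖ - Ww A Y ϖ + diagonal ε) (9 * δ * κ) := by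
  have κ0 := h.κ0
  have a1 := (h.majF h' δ0 hε).off (ν := 2 * κ ^ 2) (by positivity) fun u _ => by
    refine le_trans (sum_le_sum fun w _ => ?_) (?_ : ∑ w ∈ g, (D w u + D' w u) ≤ _)
    · split_ifs
      exacts [add_nonneg (h.nn w u) (h'.nn w u), by rw [zero_add]]
    · rw [sum_add_distrib]; linarith [h.col u, h'.col u]
  rw [mul_assoc (2 * δ), ← sqrt_mul zero_le_two, show 2 * (2 * κ ^ 2) = (2 * κ) ^ 2 by ring,
    sqrt_sq (by positivity)] at a1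
  have a2 := OpLe.diag (S := Y) (a := fun x => if x ∈ g then ε x * (1 - Lc A' A Y ϖ x x x) else 0)
    (r := δ * κ) (by positivity) fun x _ => by
      split_ifs with hx
      · rw [norm_mul, norm_sub_rev]
        exact mul_le_mul (hε x) ((h.Lc_one h' hx).trans (by nlinarith [h.κ1])) (norm_nonneg _) δ0
      · rw [norm_zero]; positivity
  refine ((a2.diff a1).mono (le_of_eq (by ring))).congr fun x _ y _ => ?_
  rw [Matrix.add_apply, h.W_eq h' hb h0, diagonal_apply]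
  by_cases e : x = y
  · subst e
    by_cases hx : x ∈ g
    · simp only [hx, if_true, and_self, Matrix.smul_apply, smul_eq_mul]; ring
    · simp [hx, h0 x hx]
  · simp [e]

theorem W_op' (h : NM r A Y g ϖ D κ) (h' : NM r A' Y g ϖ D' κ) (hb : A' = A + diagonal ε)
    (h0 : ∀ y ∉ g, ε y = 0) (δ0 : 0 ≤ δ) (hε : ∀ y, ‖ε y‖ ≤ δ) :
    OpLe Y (Ww A' Y ϖ - Ww A Y ϖ) (2 * δ) :=
  (((h.W_op h' hb h0 δ0 hε).diff (OpLe.diag δ0 fun x _ => hε x)).mono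
    (by nlinarith [h.κ1])).congr fun x _ y _ => by
      rw [Matrix.add_apply, diagonal_apply, add_sub_cancel_right]

end NM

end Pool.Agent.P.MP_d0f69c_mp.XS.Pre
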