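import Pool.Agent.P.MP_d0f69c_mp.XS.PNw1

/-!
A diagonal change of the kernel: the response of the mismatch, and the linear system.
-/

set_option autoImplicit false

open Finset Real Matrix Function

namespace Pool.Agent.P.MP_d0f69c_mp.XS.Pre

variable {ι : Type} [Fintype ι] [DecidableEq ι]

/-- a small change keeps the matrix invertible -/
theorem unit_small {N Δ G : Matrix ι ι ℂ} {X : Finset ι} {s : ℝ} (eG : G = N⁻¹) (hN : IsUnit N.det)
    (h0 : ∀ x ∉ X, ∀ y, Δ x y = 0) (h1 : ∀ x ∉ X, ∀ y, Δ y x = 0) (s1 : s < 1)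
    (h : ∀ u, nS X (ap X G (ap X Δ u)) ≤ s * nS X u) : IsUnit (N + Δ).det := by
  rw [isUnit_iff_ne_zero]
  intro e
  obtain ⟨u, hu, e0⟩ := Matrix.exists_mulVec_eq_zero_iff.2 e
  have e1 : u = (-1 : ℂ) • ap X G (ap X Δ u) := by
    have := congrArg (G *ᵥ ·) e0
    simp only [add_mulVec, mulVec_add, mulVec_mulVec, mulVec_zero] at this
    rw [eG, nonsing_inv_mul _ hN, one_mulVec, ← eG, ← mulVec_mulVec] at this
    rw [neg_one_smul]
    refine (eq_neg_of_add_eq_zero_left this).trans (congrArg _ (funext fun x => ?_))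
    rw [mulVec, dotProduct, ap, ← sum_subset (subset_univ X) fun z _ hz => by
      rw [mulVec, dotProduct, sum_eq_zero fun w _ => by rw [h0 z hz, zero_mul], mul_zero]]
    refine sum_congr rfl fun z _ => congrArg _ ?_
    rw [mulVec, dotProduct, ap, ← sum_subset (subset_univ X) fun w _ hw => by
      rw [h1 w hw, zero_mul]]
  have h2 := h u
  have h3 := congrArg (nS X) e1
  rw [nS_smul, norm_neg, norm_one, one_mul] at h3
  have h4 : ∀ x ∈ X, u x = 0 := fun x hx => nS_eq_zero (by nlinarith [nS_nonneg X u]) hx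
  refine hu (e1.trans (funext fun x => ?_))
  rw [show ap X Δ u = 0 from funext fun z => sum_eq_zero fun w hw => by rw [h4 w hw, mul_zero]]
  simp [ap]

variable {A A' : Matrix ι ι ℂ} {Y g : Finset ι} {ϖ : ι → Bool} {ε : ι → ℂ} {r : ι → ι → ℝ}
  {D D' : ι → ι → ℝ} {κ δ : ℝ}

theorem Ww_off (h : KOK A) (h' : KOK A') {x : ι} (hx : x ∉ Y) (y : ι) :
    (Ww A' Y ϖ - Ww A Y ϖ) x y = 0 := by
  rw [Matrix.sub_apply, h.Ww_row _ _ hx, h'.Ww_row _ _ hx, sub_self]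

theorem KOK.S_eq (h : KOK A) : 1 - A * Ss A Y ϖ = EY Y ϖ fun w => Vs w * Tt A w := by
  simp only [h.V_Tt]
  rw [EY_sub, EY_const, ← mul_EY]; rfl

theorem SmK.S_sub {a : ℝ} (h : SmK r A a) (h' : SmK r A' a) (hb : A' = A + diagonal ε) (δ0 : 0 ≤ δ)
    (hε : ∀ y, ‖ε y‖ ≤ δ) :
    WN r ((1 - A' * Ss A' Y ϖ) - (1 - A * Ss A Y ϖ)) ((1 + 2 * a) ^ 2 * δ) := by
  rw [h.kok.S_eq, h'.kok.S_eq, ← EY_sub]
  refine WN.ey (fun w => ?_) Y ϖ
  rw [← Matrix.mul_sub, ← neg_sub, Tt_sub h.kok h'.kok hb]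
  have := h.c0
  exact ((wn_Vs w).mul (((h'.wTt w).mul (WN.diag δ0 hε) h.c0).mul (h.wTt w) (by positivity)).neg
    zero_le_one).mono (le_of_eq (by ring))

theorem SmK.al_sub {a : ℝ} (h : SmK r A a) (h' : SmK r A' a) (hb : A' = A + diagonal ε) (δ0 : 0 ≤ δ)
    (hε : ∀ y, ‖ε y‖ ≤ δ) : WN r (al A' Y ϖ - al A Y ϖ) ((1 + 2 * a) ^ 2 * δ) := by
  rw [KOK.al_avg, KOK.al_avg, ← EY_sub]
  refine WN.ey (fun w => ?_) Y ϖ
  have e := alw_diff (h'.unit w) (h.unit w)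
  rw [alw, alw, hb, add_sub_cancel_left, ← hb] at e
  rw [e]
  have := h.c0
  exact ((((wn_Vs w).mul (h'.wTt w) zero_le_one).mul (WN.diag δ0 hε) (by positivity)).mul
    ((h.wTt w).mul (wn_Vs w) h.c0) (by positivity)).mono (le_of_eq (by ring))

theorem WN.ent {c : ℝ} (h : WN r A c) (hr : PM r) (x y : ι) : ‖A x y‖ ≤ c :=
  (le_nS _ (mem_univ x)).trans ((h.opLe hr).col (mem_univ y))

theorem SmK.S_one {a : ℝ} (h : SmK r A a) (x : ι) : ‖(1 - A * Ss A Y ϖ) x x - 1‖ ≤ 4 / 3 * a := by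
  have := (h.SA Y ϖ).ent h.pm x x
  rwa [← q_T h.symm (h.kok.Ss_T Y ϖ), transpose_apply, Matrix.sub_apply, one_apply_eq,
    sub_sub_cancel_left]

namespace NM

theorem S_off (h : NM r A Y g ϖ D κ) {x y : ι} (hx : x ∈ Y) (hy : y ∈ g) (e : x ≠ y) :
    ‖(1 - A * Ss A Y ϖ) x y‖ ^ 2 ≤ D y x := by
  rw [h.smk.kok.S_eq, EY_apply]
  refine (pow_le_pow_left₀ (norm_nonneg _) (norm_EY' _) 2).trans ((eY_sq _).trans
    (le_trans (le_of_eq (eY_congr fun w _ => ?_)) (h.alw y hy x hx e)))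
  rw [Vs, diagonal_mul, norm_mul, norm_sgn, one_mul, DOK.T_off h.smk.kok w e]; rfl

theorem al_off (h : NM r A Y g ϖ D κ) {x y : ι} (hx : x ∈ Y) (hy : y ∈ g) (e : x ≠ y) :
    ‖al A Y ϖ x y‖ ^ 2 ≤ D y x := by
  rw [KOK.al_avg, EY_apply]
  exact (pow_le_pow_left₀ (norm_nonneg _) (norm_EY' _) 2).trans ((eY_sq _).trans
    (h.alw y hy x hx e))

omit [Fintype ι] in
/-- the sum over the other points of `g` -/
theorem side {p q : ι → ℂ} {E E' : ι → ℝ} {x : ι} (hx : x ∈ g) (δ0 : 0 ≤ δ) (κ0 : 0 ≤ κ)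
    (hε : ∀ y, ‖ε y‖ ≤ δ) (E0 : 0 ≤ E x) (E0' : 0 ≤ E' x)
    (hp : ∀ y ∈ g, x ≠ y → ‖p y‖ ^ 2 ≤ E y) (hq : ∀ y ∈ g, x ≠ y → ‖q y‖ ^ 2 ≤ E' y)
    (hE : ∑ y ∈ g, E y ≤ κ ^ 2) (hE' : ∑ y ∈ g, E' y ≤ κ ^ 2) :
    ‖∑ y ∈ g, p y * ε y * q y - p x * ε x * q x‖ ≤ δ * κ ^ 2 := by
  rw [← add_sum_erase _ _ hx] at hE hE' ⊢
  rw [add_sub_cancel_left]
  have a : ∀ {p : ι → ℂ} {E : ι → ℝ}, 0 ≤ E x → (∀ y ∈ g, x ≠ y → ‖p y‖ ^ 2 ≤ E y) →
      E x + ∑ y ∈ g.erase x, E y ≤ κ ^ 2 → nS (g.erase x) p ≤ κ := fun a b c =>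
    (nS_le_iff κ0).2 ((sum_le_sum fun y hy =>
      b y (mem_of_mem_erase hy) (ne_of_mem_erase hy).symm).trans (by linarith))
  have b := mul_le_mul_of_nonneg_left ((nS_cs' _ p q).trans (mul_le_mul (a E0 hp hE) (a E0' hq hE')
    (nS_nonneg _ _) κ0)) δ0
  rw [mul_sum, ← sq] at b
  refine (norm_sum_le _ _).trans (le_trans (sum_le_sum fun y _ => ?_) b)
  rw [norm_mul, norm_mul, mul_right_comm, mul_comm]
  exact mul_le_mul_of_nonneg_right (hε y) (by positivity)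

/-- a quadratic form of the change of the potential -/
theorem quad (h : NM r A Y g ϖ D κ) (h' : NM r A' Y g ϖ D' κ) (hb : A' = A + diagonal ε)
    (h0 : ∀ y ∉ g, ε y = 0) (δ0 : 0 ≤ δ) (hε : ∀ y, ‖ε y‖ ≤ δ) {p q : ι → ℂ} {a b : ℝ}
    (hp : nS Y p ≤ a) (hq : nS Y q ≤ b) :
    ‖∑ z ∈ Y, p z * ap Y (Ww A' Y ϖ - Ww A Y ϖ) q z + ∑ y ∈ g, p y * ε y * q y‖ ≤
      9 * δ * κ * a * b := by
  have κ0 := h.κ0
  have := (nS_cs Y p _).trans (mul_le_mul hp ((h.W_op h' hb h0 δ0 hε q).trans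
    (mul_le_mul_of_nonneg_left hq (by positivity))) (nS_nonneg _ _) ((nS_nonneg _ _).trans hp))
  refine le_trans (le_of_eq (congrArg _ ?_)) (this.trans_eq (by ring))
  rw [sum_subset h.gY fun y _ hy => by rw [h0 y hy, mul_zero, zero_mul], ← sum_add_distrib]
  refine sum_congr rfl fun z hz => ?_
  simp only [ap, Matrix.add_apply, add_mul, sum_add_distrib, mul_add, diagonal_apply, ite_mul,
    zero_mul, sum_ite_eq, hz, if_true, mul_assoc]

/-- the response of the dressed kernel -/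
theorem al_diag (h : NM r A Y g ϖ D κ) (h' : NM r A' Y g ϖ D' κ) (hb : A' = A + diagonal ε)
    (h0 : ∀ y ∉ g, ε y = 0) (δ0 : 0 ≤ δ) (hε : ∀ y, ‖ε y‖ ≤ δ) {x : ι} (hx : x ∈ g) :
    ‖al A' Y ϖ x x - al A Y ϖ x x - ((1 - A * Ss A Y ϖ) x x ^ 2 + al A Y ϖ x x ^ 2) * ε x‖ ≤
      δ * (κ / 10 + 2 * δ) := by
  have k := h.smk.kok
  have k' := h'.smk.kok
  have xY := h.gY hx
  have κ0 := h.κ0
  have sy : ∀ u v, al A Y ϖ u v = al A Y ϖ v u := fun u v => by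
    rw [← transpose_apply (al A Y ϖ), k.al_T]
  have e1 := congrFun (congrFun (s3_al k k' hb Y ϖ) x) x
  have e2 : ((1 - A' * Ss A' Y ϖ) * diagonal ε * (1 - Ss A Y ϖ * A)) x x =
      ∑ y ∈ g, (1 - A' * Ss A' Y ϖ) x y * ε y * (1 - A * Ss A Y ϖ) x y := by
    rw [Matrix.mul_apply, ← sum_subset (subset_univ g) fun y _ hy => by
      rw [mul_diagonal, h0 y hy, mul_zero, zero_mul]]
    exact sum_congr rfl fun y _ => by
      rw [mul_diagonal, ← q_T k.symm (k.Ss_T Y ϖ), transpose_apply]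
  have e3 : (al A' Y ϖ * (Ww A' Y ϖ - Ww A Y ϖ) * al A Y ϖ) x x =
      ∑ z ∈ Y, al A' Y ϖ x z * ap Y (Ww A' Y ϖ - Ww A Y ϖ) (al A Y ϖ x) z := by
    rw [Matrix.mul_assoc, Matrix.mul_apply, ← sum_subset (subset_univ Y) fun z _ hz => by
      rw [Matrix.mul_apply, sum_eq_zero fun w _ => by rw [Ww_off k k' hz, zero_mul], mul_zero]]
    refine sum_congr rfl fun z _ => congrArg _ ?_
    rw [Matrix.mul_apply, ap, ← sum_subset (subset_univ Y) fun w _ hw => by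
      rw [← transpose_apply (Ww A' Y ϖ - Ww A Y ϖ), transpose_sub, k.Ww_T, k'.Ww_T, Ww_off k k' hw,
        zero_mul]]
    exact sum_congr rfl fun w _ => by rw [sy w x]
  have rw1 : ∀ {B : Matrix ι ι ℂ}, SmK r B (1 / 100) → nS Y (al B Y ϖ x) ≤ 1 / 50 := fun {B} f =>
    (nS_mono (subset_univ Y) _).trans ((((f.wal Y ϖ).tr f.pm (by norm_num)).opLe f.pm).col
      (mem_univ x) |>.trans_eq (by norm_num))
  have a1 := h.quad h' hb h0 δ0 hε (rw1 h'.smk) (rw1 h.smk)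
  have a2 := side (E := fun y => D' y x) (E' := fun y => D y x) hx δ0 κ0 hε (h'.nn x x) (h.nn x x)
    (fun y hy => h'.S_off xY hy)
    (fun y hy => h.S_off xY hy) (h'.col x) (h.col x)
  have a3 := side (E := fun y => D' y x) (E' := fun y => D y x) hx δ0 κ0 hε (h'.nn x x) (h.nn x x)
    (fun y hy => h'.al_off xY hy)
    (fun y hy => h.al_off xY hy) (h'.col x) (h.col x)
  have a4 := (h.smk.S_sub (Y := Y) (ϖ := ϖ) h'.smk hb δ0 hε).ent h.smk.pm x x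
  have a5 := (h.smk.al_sub (Y := Y) (ϖ := ϖ) h'.smk hb δ0 hε).ent h.smk.pm x x
  have a6 := (h.smk.wal Y ϖ).ent h.smk.pm x x
  have a7 := (norm_le_insert' _ 1).trans (add_le_add (norm_one (α := ℂ)).le
    (h.smk.S_one (Y := Y) (ϖ := ϖ) x))
  rw [Matrix.sub_apply] at a4 a5
  rw [Matrix.sub_apply, Matrix.sub_apply, e2, e3] at e1
  have b4 := mul_le_mul (mul_le_mul a4 (hε x) (norm_nonneg _) (by positivity)) a7 (norm_nonneg _)
    (by positivity)
  have b5 := mul_le_mul (mul_le_mul a5 (hε x) (norm_nonneg _) (by positivity)) a6 (norm_nonneg _)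
    (by positivity)
  rw [← norm_mul, ← norm_mul] at b4 b5
  have b6 := (norm_sub_le _ _).trans (add_le_add ((norm_add_le _ _).trans (add_le_add
    ((norm_add_le _ _).trans (add_le_add a2 a3)) ((norm_add_le _ _).trans (add_le_add b4 b5)))) a1)
  refine le_trans (le_of_eq (congrArg _ ?_)) (b6.trans ?_)
  · linear_combination e1
  · nlinarith [mul_nonneg δ0 κ0, mul_le_mul_of_nonneg_left h.κ1 (mul_nonneg δ0 κ0), sq_nonneg δ]

/-- the mismatch after the change -/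
theorem mis (h : NM r A Y g ϖ D κ) (h' : NM r A' Y g ϖ D' κ) (hb : A' = A + diagonal ε)
    (h0 : ∀ y ∉ g, ε y = 0) (δ0 : 0 ≤ δ) (hε : ∀ y, ‖ε y‖ ≤ δ) {G G' : ι → ι → ℂ} {s ρ m : ℝ}
    (hP : PrtM Y G G' (Ww A' Y ϖ - Ww A Y ϖ) (2 * δ) s) {x : ι} (hx : x ∈ g)
    (hρ : nS Y (G x) ≤ ρ) (hm : ‖G x x - al A Y ϖ x x‖ ≤ m) (m1 : m ≤ 1 / 2)
    (he : (1 - A * Ss A Y ϖ) x x ^ 2 * ε x =
      G x x - al A Y ϖ x x + ∑ y ∈ g.erase x, G x y ^ 2 * ε y) :
    ‖G' x x - al A' Y ϖ x x‖ ≤ δ * (ρ ^ 2 * (2 * s + 9 * κ) + κ / 10 + 2 * δ + m) := by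
  have a1 := hP.second hρ hρ
  have a2 := h.quad h' hb h0 δ0 hε hρ hρ
  have a3 := h.al_diag h' hb h0 δ0 hε hx
  have a4 := (h.smk.wal Y ϖ).ent h.smk.pm x x
  have a5 : ‖G x x + al A Y ϖ x x‖ ≤ 1 := by
    rw [show G x x + al A Y ϖ x x = G x x - al A Y ϖ x x + (al A Y ϖ x x + al A Y ϖ x x) by ring]
    linarith [norm_add_le (G x x - al A Y ϖ x x) (al A Y ϖ x x + al A Y ϖ x x),
      norm_add_le (al A Y ϖ x x) (al A Y ϖ x x)]
  have m0 := (norm_nonneg _).trans hm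
  have a6 := mul_le_mul (mul_le_mul hm a5 (norm_nonneg _) m0) (hε x) (norm_nonneg _) (by positivity)
  rw [← norm_mul, ← norm_mul] at a6
  rw [← add_sum_erase _ _ hx, sum_congr rfl fun y _ => show G x y * ε y * G x y = G x y ^ 2 * ε y by
    ring] at a2
  have b := (norm_add_le _ _).trans (add_le_add ((norm_sub_le _ _).trans (add_le_add
    ((norm_sub_le _ _).trans (add_le_add a1 a2)) a3)) a6)
  refine le_trans (le_of_eq (congrArg _ ?_)) (b.trans_eq (by ring))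
  linear_combination -he

end NM

/-- the linear system -/
theorem corr {d M : ℕ} [NeZero M] {g : Finset (Tor d M)} {G : Matrix (Tor d M) (Tor d M) ℂ}
    {σ γ : Tor d M → ℂ} {a : Tor d M → ℝ} {l R j : ℕ} {B τ e m : ℝ} (l0 : 0 < l) (hB : 0 ≤ B)
    (hσ : ∀ x ∈ g, ‖σ x - 1‖ ≤ 1 / 50) (ha : ∀ x ∈ g, 1 / 2 ≤ a x ∧ a x ≤ 2) (e0 : 0 ≤ e)
    (hrow : ∀ x ∈ g, ∑ y ∈ g.erase x, ‖G x y‖ ^ 2 * a y ≤ (1 + e) * (‖σ x‖ ^ 2 * a x))
    (hop : OpLe g (fun x y => if x = y then 0 else G x y ^ 2) (1 / 10)) (hD : Dec G g B l)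
    (hfar : Far d M B l R τ) (hv : (vl d M (j * R) : ℝ) ≤ (5 ^ j / 2) ^ 2) (he : (1 + e) ^ j ≤ 2)
    (τ1 : τ ≤ 1 / 50) (hτ : 64 * j * τ ≤ 1) (hm : ∀ x ∈ g, ‖γ x‖ ≤ m) (m0 : 0 ≤ m) :
    ∃ u : Tor d M → ℂ, (∀ x ∉ g, u x = 0) ∧
      (∀ x ∈ g, σ x ^ 2 * u x = γ x + ∑ y ∈ g.erase x, G x y ^ 2 * u y) ∧
      ∀ x, ‖u x‖ ≤ 64 * j * m := by
  have s1 : ∀ x ∈ g, 49 / 50 ≤ ‖σ x‖ := fun x hx => by
    have := norm_sub_norm_le 1 (σ x)
    rw [norm_one, norm_sub_rev] at this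
    linarith [hσ x hx]
  have s0 : ∀ x ∈ g, σ x ≠ 0 := fun x hx => norm_pos_iff.1 (by linarith [s1 x hx])
  have s2 : ∀ x ∈ g, ‖(σ x ^ 2)⁻¹‖ ≤ 11 / 10 := fun x hx => by
    rw [norm_inv, norm_pow, inv_le_comm₀ (by nlinarith [s1 x hx]) (by norm_num)]
    nlinarith [s1 x hx]
  let k : Tor d M → Tor d M → ℂ := fun x y => (σ x ^ 2)⁻¹ * if x = y then 0 else G x y ^ 2
  have ok : OpLe g k (11 / 10 * (1 / 10)) := hop.left (by norm_num) s2
  have ek : ∀ v, ∀ x ∈ g, ap g (fun x y => (if x = y then 1 else 0) - k x y) v x =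
      v x - ap g k v x := fun v x hx => by simp [ap, sub_mul, sum_sub_distrib, hx]
  obtain ⟨u, u0, u1⟩ := exists_sol (X := g) (A := fun x y => (if x = y then 1 else 0) - k x y)
    (fun v => by
      rw [nS_congr (w := ap g k v) fun x hx => by rw [Pi.sub_apply, ek v x hx, sub_sub_cancel]]
      linarith [ok v, nS_nonneg g v]) fun x => (σ x ^ 2)⁻¹ * γ x
  have f0 := fk_nonneg (d := d) (M := M) hB l R
  have τ0 : 0 ≤ τ := by simpa using hfar.row hB ∅ 0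
  let kf : Tor d M → Tor d M → ℂ := fun y z => if R < nm (y - z) then k y z else 0
  have kb : ∀ y ∈ g, ∀ z, ‖kf y z‖ ≤ 2 * fk B l R y z := fun y hy z => by
    simp only [kf, k]
    split_ifs with h1 h2
    · simpa using f0 y z
    · have a2 := (le_mul_of_one_le_left (norm_nonneg _) (one_le_exp (by positivity))).trans
        (hD.fk le_rfl l0 le_rfl hy h1)
      have a3 := hfar.row hB {z} y
      rw [sum_singleton] at a3
      rw [norm_mul, norm_pow (G y z)]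
      exact mul_le_mul ((s2 y hy).trans (by norm_num)) (by nlinarith [norm_nonneg (G y z)])
        (sq_nonneg _) zero_le_two
    · simpa using f0 y z
  have kr : ∀ y, ∑ z ∈ g, 2 * fk B l R y z ≤ 2 * τ := fun y => by
    rw [← mul_sum]; linarith [hfar.row hB g y]
  have of : OpLe g kf (2 * τ) := OpLe.schur (fun y hy z _ => kb y hy z) (by positivity)
    (fun y _ => kr y) fun z _ => by simp only [fk_symm _ _ _ _ z]; exact kr z
  refine ⟨u, u0, fun x hx => ?_, fun x => ?_⟩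
  · have := u1 x hx
    rw [ek u x hx, sub_eq_iff_eq_add] at this
    have n := s0 x hx
    rw [this, ap, ← add_sum_erase _ _ hx, mul_add, mul_add, mul_sum]
    simp only [k, if_true, mul_zero, zero_mul, zero_add]
    congr 1
    · field_simp
    · exact sum_congr rfl fun y hy => by rw [if_neg (ne_of_mem_erase hy).symm]; field_simp
  by_cases hx : x ∈ g
  swap
  · rw [u0 x hx, norm_zero]; positivity
  refine (sup_bound (X := g) (k := fun y z => k y z - kf y z) (kf := kf) (a := a) (u := u)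
    (r := fun x => (σ x ^ 2)⁻¹ * γ x) (R := R) (j := j) (ε := e) (c := 2 * m) (t := 2 * τ) ha e0
    (fun y hy => ?_) ((ok.diff of).mono (by linarith)) (fun y z e => ?_) hv he
    (fun y hy => (sum_le_sum fun z _ => kb y hy z).trans (kr y)) (by linarith) (fun y hy => ?_)
    (fun y hy => ?_) x hx).trans_eq (by ring)
  · have p : 0 < ‖σ y‖ ^ 2 := by nlinarith [s1 y hy]
    have := mul_le_mul_of_nonneg_left (hrow y hy) (inv_pos.2 p).le
    rw [mul_left_comm, inv_mul_cancel_left₀ p.ne', mul_sum] at this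
    rw [← add_sum_erase _ _ hy]
    refine (add_le_of_nonpos_left (by simp [kf, k])).trans (le_trans (sum_le_sum fun z hz => ?_) this)
    rw [← mul_assoc]
    refine mul_le_mul_of_nonneg_right ?_ (by linarith [(ha z (mem_of_mem_erase hz)).1])
    simp only [kf, k, if_neg (ne_of_mem_erase hz).symm]
    split_ifs
    · rw [sub_self, norm_zero]; positivity
    · rw [sub_zero, norm_mul, norm_inv, norm_pow, norm_pow]
  · by_contra h'
    exact e (by simp only [kf, if_pos (not_le.1 h'), sub_self])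
  · rw [← u1 y hy, ek u y hy]
    simp only [ap, sub_mul, sum_sub_distrib]
    ring
  · rw [norm_mul]
    exact mul_le_mul ((s2 y hy).trans (by norm_num)) (hm y hy) (norm_nonneg _) zero_le_two

end Pool.Agent.P.MP_d0f69c_mp.XS.Pre
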