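import Pool.Agent.P.MP_d0f69c_mp.XS.PNw3
import Pool.Agent.P.MP_d0f69c_mp.XS.PCtm
import Pool.Agent.P.MP_d0f69c_mp.XS.PDefs
import Pool.Agent.P.MP_d0f69c_mp.XS.Loci

/-!
The Newton step of the preparation stage.
-/

set_option autoImplicit false

open Finset Real Matrix

namespace Pool.Agent.P.MP_d0f69c_mp.XS.Pre

variable {d M : ℕ} [NeZero M] {E : PEnv d M} {q : PPar d M} {S : St (Tor d M)}

theorem cr_T {ι : Type} {X : Matrix ι ι ℝ} (hX : ∀ x y, X x y = X y x) : (cr X)ᵀ = cr X := by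
  ext x y
  exact congrArg (fun t : ℝ => (t : ℂ)) (hX y x)

theorem GP_sym {ι : Type} [Fintype ι] [DecidableEq ι] {X : Matrix ι ι ℝ} {A : Matrix ι ι ℂ}
    (hX : ∀ x y, X x y = X y x) (h : KOK A) (Y : Finset ι) (w : ι → Bool) (x y : ι) :
    GP X A Y w x y = GP X A Y w y x := by
  rw [← transpose_apply (GP X A Y w), GP, transpose_nonsing_inv, transpose_add, cr_T hX, h.Ww_T]

/-- rows of open sites -/
theorem row_off (hE : Env.OK E.toEnv) {G : Matrix (Tor d M) (Tor d M) ℂ} {a : Tor d M → ℝ}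
    {O : Finset (Tor d M)} {θ : ℝ} (sy : ∀ x y, G x y = G y x) (ha : ∀ x ∈ O, 1 / 2 ≤ a x)
    (h : UL E.p (Kw a G) O θ) (hθ : θ ≤ 1 / 2) {x : Tor d M} (hx : x ∈ O) :
    ∑ y ∈ O.erase x, ‖G x y‖ ^ 2 ≤ 8 := by
  have h1 := h.1 (Pi.single x 1)
  rw [En_single (fun x y => by rw [Kw, Kw, sy x y, mul_comm (a x)]) hx] at h1
  have h2 := mul_le_mul (by linarith : 1 + θ ≤ 3 / 2) (LociA.single hE x)
    (NF_nonneg hE.ref.p0 _) (by norm_num)
  have h3 : ∑ y ∈ O.erase x, ‖G x y‖ ^ 2 ≤ 4 * ∑ y ∈ O.erase x, Kw a G x y := by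
    rw [mul_sum]
    refine sum_le_sum fun y hy => ?_
    have := mul_le_mul (ha x hx) (ha y (mem_of_mem_erase hy)) (by norm_num) (by linarith [ha x hx])
    have := mul_le_mul_of_nonneg_right this (sq_nonneg ‖G x y‖)
    rw [Kw]
    linarith
  linarith

/-- what the Newton step uses -/
structure PNH (E : PEnv d M) (q : PPar d M) (S : St (Tor d M)) (κ : ℝ) (L : ℕ) : Prop where
  hE : E.toEnv.OK
  hq : q.toPar.OK E.toEnv
  nw : q.nw = true
  inv : PInv E q.b0 S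
  unit : IsUnit (cr E.H + Ww (E.ker S) S.O (om S)).det
  op : OpLe S.O (E.G0 S) (10 / E.η)
  a1 : ∀ x ∈ S.O, |E.a0 S x - 1| ≤ 1 / 4
  maj : ∀ W : Tor d M → ℂ, (∀ x, ‖W x‖ ≤ q.sg + q.δN) → ∃ D : Tor d M → Tor d M → ℝ,
    NM (fun x y => (2 * nm (x - y) : ℝ) / q.l) (E.A0 + diagonal W) S.O S.good (om S) D κ ∧
      ∀ u, ∑ v, D v u * exp (nm (v - u) / L) ≤ κ ^ 2
  sup : ∃ a : Tor d M → ℝ, (∀ x ∈ S.good, 1 / 2 ≤ a x ∧ a x ≤ 2) ∧ ∀ x ∈ S.good,
    ∑ y ∈ S.good.erase x, ‖E.G0 S x y‖ ^ 2 * a y ≤ (1 + 1 / (2 * (q.P : ℝ) ^ 2)) *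
      (‖(1 - E.ker S * Ss (E.ker S) S.O (om S)) x x‖ ^ 2 * a x)
  L0 : 0 < L
  k1 : κ * (1 + 2 * d * L) ≤ 1 / (q.P : ℝ) ^ 3
  m0 : 0 ≤ q.m1
  m1 : q.m1 * (q.P : ℝ) ^ 10 ≤ E.η
  n0 : 0 < q.n4
  n1 : q.δN ^ 4 * (q.P : ℝ) ^ 20 ≤ q.n4 * E.η ^ 2
  n2 : q.nO ≤ (q.P : ℝ) ^ 3 * q.n4
  H0 : q.H 0 ≤ 1 / 2

namespace PNH

variable {κ : ℝ} {L : ℕ} (h : PNH E q S κ L)
include h

theorem δ_eq : q.δN = (q.P : ℝ) ^ 4 * q.m1 := by rw [PPar.δN, if_pos h.nw]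

theorem maj0 : ∃ D : Tor d M → Tor d M → ℝ,
    NM (fun x y => (2 * nm (x - y) : ℝ) / q.l) (E.ker S) S.O S.good (om S) D κ ∧
      ∀ u, ∑ v, D v u * exp (nm (v - u) / L) ≤ κ ^ 2 :=
  h.maj S.W fun x => (h.inv.sg x).trans (le_add_of_nonneg_right (by
    have := h.m0; rw [h.δ_eq]; positivity))

theorem corr : ∃ u : Tor d M → ℂ, (∀ x ∉ S.good, u x = 0) ∧
    (∀ x ∈ S.good, (1 - E.ker S * Ss (E.ker S) S.O (om S)) x x ^ 2 * u x =
      E.Γ0 S x x + ∑ y ∈ S.good.erase x, E.G0 S x y ^ 2 * u y) ∧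
    ∀ x, ‖u x‖ ≤ 192000 * (q.P : ℝ) ^ 2 * q.m1 := by
  have hE := h.hE
  have hq := h.hq
  have hP := hq.Ppos hE
  have m0 := h.m0
  have θ0 : 0 ≤ q.θ := hq.θ0
  have θ1 : q.θ ≤ 1 / 10 ^ 7 := hq.θ_le
  obtain ⟨D, n, -⟩ := h.maj0
  obtain ⟨a, a1, a2⟩ := h.sup
  obtain ⟨hv, hfar⟩ := t_far d M E.toEnv q.toPar hE hq
  have τ1 : q.τ ≤ 1 / (q.P : ℝ) ^ 3 := (hq.τ_le hE (by norm_num)).trans
    (div_le_div_of_nonneg_right (hE.η1.trans (by norm_num)) (by positivity))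
  have τ0 := Par.OK.τpos q.toPar
  have τ2 : 64 * (q.P : ℝ) ^ 2 * q.τ ≤ 1 := by
    rw [le_div_iff₀ (by positivity)] at τ1
    have := mul_le_mul_of_nonneg_left (hq.pow_lt hE (a := 2) (b := 3) (c := 64) (by norm_num)
      (by norm_num)) τ0.le
    linarith
  obtain ⟨u, u0, u1, u2⟩ := Pre.corr (G := E.G0 S) (γ := fun x => E.Γ0 S x x) (j := q.P ^ 2)
    (m := 3000 * q.m1) (σ := fun x => (1 - E.ker S * Ss (E.ker S) S.O (om S)) x x)
    (hq.li_one hE 0) (exp_pos _).le (fun x _ => (n.smk.S_one x).trans (by norm_num)) a1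
    (by positivity) a2 (fun v => by
      have := h.inv.rr.norm θ0 v
      rw [nS_congr (w := ap S.good (fun x y => if x = y then 0 else E.G0 S x y ^ 2) v)
        fun x hx => by
          rw [Pi.sub_apply, ap, ap, ← add_sum_erase _ _ hx, ← add_sum_erase _ _ hx, Am0, if_pos rfl,
            if_pos rfl, one_mul, zero_mul, zero_add, sub_add_cancel_left, ← sum_neg_distrib]
          exact sum_congr rfl fun y hy => by
            rw [Am0, if_neg (ne_of_mem_erase hy).symm, if_neg (ne_of_mem_erase hy).symm]; ring]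
        at this
      change (1 - q.θ) * _ ≤ 2 * q.θ * _ at this
      nlinarith [nS_nonneg S.good v,
        nS_nonneg S.good (ap S.good (fun x y => if x = y then 0 else E.G0 S x y ^ 2) v)])
    (fun x hx z => (h.inv.dec x (S.good_sub hx) z).trans (by
      rw [Par.OK.li_zero]
      exact mul_le_mul_of_nonneg_right ((Par.OK.Bi_zero q.toPar).symm.trans_le
        (hq.Bi_le (by norm_num))) (exp_pos _).le))
    (hfar 0 (by norm_num)).1
    (by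
      have a1 : q.P ^ 2 * q.D E.η 0 ≤ 100 * q.D E.η 3 := by
        have b1 := hq.D_grow' hE (i := 0) (j := 3) (by norm_num)
        have b2 : q.P ^ 2 * q.D E.η 0 ≤ q.P ^ 60 * q.D E.η 0 := Nat.mul_le_mul_right _
          (Nat.pow_le_pow_right (by have := hq.P9' hE; omega) (by norm_num))
        omega
      refine (Nat.cast_le.2 (vol_mono a1)).trans (hv.trans ?_)
      have a2 : exp ((q.P : ℝ) ^ 2) ≤ 3 ^ (q.P ^ 2) := by
        rw [← Nat.cast_pow, ← mul_one ((q.P ^ 2 : ℕ) : ℝ), exp_nat_mul]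
        exact pow_le_pow_left₀ (exp_pos _).le exp_one_lt_three.le _
      have a3 : (5 : ℝ) ≤ 5 ^ (q.P ^ 2) :=
        le_self_pow₀ (by norm_num) (pow_ne_zero _ (by have := hq.P9' hE; omega))
      have a4 : (3 : ℝ) ^ (q.P ^ 2) ≤ 5 ^ (q.P ^ 2) := pow_le_pow_left₀ (by norm_num) (by norm_num) _
      nlinarith)
    (by
      refine (pow_le_pow_left₀ (by positivity) ((add_comm _ _).trans_le (add_one_le_exp _)) _).trans
        (le_of_sq_le_sq ?_ zero_le_two)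
      rw [← exp_nat_mul, ← exp_nat_mul, show ((2 : ℕ) : ℝ) * ((q.P ^ 2 : ℕ) *
        (1 / (2 * (q.P : ℝ) ^ 2))) = 1 by push_cast; field_simp]
      exact exp_one_lt_three.le.trans (by norm_num))
    (by nlinarith [mul_le_mul_of_nonneg_right (one_le_pow₀ (n := 2) (hq.Pone hE)) τ0.le])
    (by push_cast; exact τ2) (fun x hx => by
      have : ‖E.Γ0 S x x‖ ≤ if q.nw then 3000 * q.m1 else q.m1 := h.inv.mis x hx
      rwa [if_pos h.nw] at this) (by positivity)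
  exact ⟨u, u0, u1, fun x => (u2 x).trans_eq (by push_cast; ring)⟩

end PNH

end Pool.Agent.P.MP_d0f69c_mp.XS.Pre
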