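import Pool.Agent.P.MP_d0f69c_mp.XS.PNw4

/-!
The Newton step of the preparation stage: the new invariant.
-/

set_option autoImplicit false

open Finset Real Matrix

namespace Pool.Agent.P.MP_d0f69c_mp.XS.Pre

variable {d M : ℕ} [NeZero M] {E : PEnv d M} {q : PPar d M} {S : St (Tor d M)}

/-- the numbers -/
structure PNn (η θ P m n nO δN κ δ t ε : ℝ) : Prop where
  η0 : 0 < η
  η1 : η ≤ 1
  θ0 : 0 ≤ θ
  θ1 : θ ≤ 1 / 10 ^ 7
  δ0 : 0 ≤ δ
  δ1 : 100 * δ ≤ δN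
  t0 : 0 ≤ t
  tη : t * η = 10 * δ
  δt : 10 * δ ≤ t
  t1 : 1000 * t ≤ ε
  t5 : t ≤ 1 / P ^ 5
  ε0 : 0 < ε
  ε2 : 10 ^ 9 * ε ≤ 1
  ε1 : 10 ^ 9 * (P ^ 2 * ε) ≤ 1
  κ0 : 0 ≤ κ
  k2 : κ ≤ ε
  m2 : 3000 * m ≤ δ
  m3 : δ * (100 * ε) ≤ m
  l4 : 8 * ((4 / 3 * (2 * δ * 3 * 3) * (8 / 3 * t * 3)) ^ 2 + (2 * δ) ^ 4) ≤ n / P ^ 20
  l5 : n / P ^ 20 ≤ n / 10 ^ 9
  l6 : 8 / (ε / 1000) ^ 3 * (n / P ^ 20) ≤ n / 200
  l7 : ε * nO ≤ n
  n0 : 0 < n

theorem PNH.num {κ : ℝ} {L : ℕ} (h : PNH E q S κ L) (κ0 : 0 ≤ κ) :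
    PNn E.η q.θ q.P q.m1 q.n4 q.nO q.δN κ (192000 * (q.P : ℝ) ^ 2 * q.m1)
      (10 / E.η * (192000 * (q.P : ℝ) ^ 2 * q.m1)) (1 / (q.P : ℝ) ^ 3) := by
  have hE := h.hE
  have hq := h.hq
  have hP := hq.Ppos hE
  have P9 := hq.P9 hE
  have P2 := one_le_pow₀ (n := 2) (hq.Pone hE)
  have η0 : 0 < E.η := hE.η0
  have η1 : E.η ≤ 1 := hE.η1.trans (by norm_num)
  have m0 := h.m0
  have n0 := h.n0
  have δ1 : 100 * (192000 * (q.P : ℝ) ^ 2 * q.m1) ≤ q.δN := by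
    have := mul_le_mul_of_nonneg_right (hq.pow_lt hE (a := 2) (b := 4) (c := 19200000)
      (by norm_num) (by norm_num)) m0
    rw [h.δ_eq]; linarith
  have t5 : 10 / E.η * (192000 * (q.P : ℝ) ^ 2 * q.m1) ≤ 1 / (q.P : ℝ) ^ 5 := by
    have a := mul_le_mul_of_nonneg_right (hq.pow_lt hE (a := 7) (b := 10) (c := 1920000)
      (by norm_num) (by norm_num)) m0
    rw [div_mul_eq_mul_div, div_le_div_iff₀ η0 (by positivity)]
    linarith [h.m1]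
  have ε1 : 10 ^ 9 * ((q.P : ℝ) ^ 2 * (1 / (q.P : ℝ) ^ 3)) ≤ 1 := by
    rw [mul_one_div, ← mul_div_assoc, div_le_one (by positivity)]
    exact hq.pow_lt hE (by norm_num) le_rfl
  have m2 : 3000 * q.m1 ≤ 192000 * (q.P : ℝ) ^ 2 * q.m1 :=
    mul_le_mul_of_nonneg_right (by linarith) m0
  have m3 : 192000 * (q.P : ℝ) ^ 2 * q.m1 * (100 * (1 / (q.P : ℝ) ^ 3)) ≤ q.m1 := by
    have b := mul_le_mul_of_nonneg_right ε1 m0
    have c : 0 ≤ (q.P : ℝ) ^ 2 * (1 / (q.P : ℝ) ^ 3) * q.m1 := by positivity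
    linarith
  have δ0 : 0 ≤ 192000 * (q.P : ℝ) ^ 2 * q.m1 := by positivity
  generalize 192000 * (q.P : ℝ) ^ 2 * q.m1 = δ at *
  have tη : 10 / E.η * δ * E.η = 10 * δ := by field_simp
  have t0 : 0 ≤ 10 / E.η * δ := by positivity
  generalize 10 / E.η * δ = t at *
  refine ⟨η0, η1, hq.θ0, hq.θ_le, δ0, δ1, t0, tη, tη ▸ mul_le_of_le_one_right t0 η1, ?_, t5,
    by positivity, le_trans (mul_le_mul_of_nonneg_left (le_mul_of_one_le_left (by positivity) P2)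
      (by norm_num)) ε1, ε1, κ0,
    (le_mul_of_one_le_right κ0 (le_add_of_nonneg_right (by positivity))).trans h.k1, m2, m3, ?_,
    div_le_div_of_nonneg_left n0.le (by norm_num)
      (P9.trans (le_self_pow₀ (hq.Pone hE) (by norm_num))), ?_, ?_, n0⟩
  · refine (mul_le_mul_of_nonneg_left t5 (by norm_num)).trans ?_
    rw [mul_one_div, div_le_div_iff₀ (by positivity) (by positivity), one_mul]
    exact hq.pow_lt hE (by norm_num) (by norm_num)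
  · have c := (mul_le_mul_of_nonneg_right (pow_le_pow_left₀ (by positivity) δ1 4)
      (by positivity)).trans h.n1
    have e : δ ^ 4 * E.η ^ 2 ≤ δ ^ 4 :=
      mul_le_of_le_one_right (by positivity) (pow_le_one₀ η0.le η1)
    have f : 8 * ((4 / 3 * (2 * δ * 3 * 3) * (8 / 3 * t * 3)) ^ 2 + (2 * δ) ^ 4) * E.η ^ 2 =
        8 * (192 ^ 2 * δ ^ 2 * (t * E.η) ^ 2 + 16 * (δ ^ 4 * E.η ^ 2)) := by ring
    rw [le_div_iff₀ (by positivity), ← mul_le_mul_iff_left₀ (pow_pos η0 2), mul_right_comm, f, tη]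
    refine le_trans (mul_le_mul_of_nonneg_right ?_ (by positivity)) c
    linarith [pow_nonneg δ0 4]
  · have f := mul_le_mul_of_nonneg_left (hq.pow_lt hE (a := 1) (b := 11) (c := 1600)
      (by norm_num) (by norm_num)) n0.le
    have g := mul_le_mul_of_nonneg_left (hq.pow_le hE (a := 2) (b := 11) (by norm_num)) n0.le
    have f' := mul_le_mul_of_nonneg_left (mul_le_mul_of_nonneg_left P9 hP.le) n0.le
    have f'' := mul_le_mul_of_nonneg_left P9 n0.le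
    rw [show 8 / (1 / (q.P : ℝ) ^ 3 / 1000) ^ 3 * (q.n4 / (q.P : ℝ) ^ 20) =
      8 * 10 ^ 9 * q.n4 / (q.P : ℝ) ^ 11 by field_simp; norm_num,
      div_le_div_iff₀ (by positivity) (by norm_num)]
    linarith
  · rw [one_div_mul_eq_div, div_le_iff₀' (by positivity)]
    exact h.n2

/-- the setting after the correction `u` is chosen -/
structure PNS (E : PEnv d M) (q : PPar d M) (S : St (Tor d M)) (u : Tor d M → ℂ)
    (D D' : Tor d M → Tor d M → ℝ) (A : Matrix (Tor d M) (Tor d M) ℂ) (κ δ t ε : ℝ) : Prop where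
  hE : E.toEnv.OK
  inv : PInv E q.b0 S
  nw : q.nw = true
  H0 : q.H 0 ≤ 1 / 2
  a1 : ∀ x ∈ S.O, |E.a0 S x - 1| ≤ 1 / 4
  num : PNn E.η q.θ q.P q.m1 q.n4 q.nO q.δN κ δ t ε
  u0 : ∀ x ∉ S.good, u x = 0
  u2 : ∀ x, ‖u x‖ ≤ δ
  n : NM (fun x y => (2 * nm (x - y) : ℝ) / q.l) (E.ker S) S.O S.good (om S) D κ
  n' : NM (fun x y => (2 * nm (x - y) : ℝ) / q.l) A S.O S.good (om S) D' κ
  hb : A = E.ker S + diagonal u
  p : PrtM S.O (E.G0 S) (GP E.H A S.O (om S)) (Ww A S.O (om S) - Ww (E.ker S) S.O (om S))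
    (2 * δ) (8 / 3 * t)

namespace PNS

variable {u : Tor d M → ℂ} {D D' : Tor d M → Tor d M → ℝ} {A : Matrix (Tor d M) (Tor d M) ℂ}
  {κ δ t ε : ℝ} (h : PNS E q S u D D' A κ δ t ε)
include h

theorem wa : WN (fun x y => (2 * nm (x - y) : ℝ) / q.l)
    (al A S.O (om S) - al (E.ker S) S.O (om S)) (2 * δ) :=
  (h.n.smk.al_sub h.n'.smk h.hb h.num.δ0 h.u2).mono (by linarith [h.num.δ0])

omit h in
theorem eΓ (x y : Tor d M) : Gm E.H A S.O (om S) x y - E.Γ0 S x y =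
    GP E.H A S.O (om S) x y - E.G0 S x y - (al A S.O (om S) - al (E.ker S) S.O (om S)) x y := by
  simp only [PEnv.Γ0, PEnv.G0, Gm, Matrix.sub_apply]
  exact sub_sub_sub_comm _ _ _ _

theorem aa (x : Tor d M) : |aP E.η A S.O (om S) x - E.a0 S x| ≤ t := by
  have a := (Complex.abs_im_le_norm _).trans (h.wa.ent h.n.smk.pm x x)
  rw [Matrix.sub_apply, Complex.sub_im] at a
  rw [PEnv.a0, aP, aP, ← sub_div, abs_div, abs_of_pos h.num.η0, div_le_iff₀ h.num.η0, h.num.tη]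
  linarith [h.num.δ0]

theorem a2 (x : Tor d M) (hx : x ∈ S.O) : 1 / 2 ≤ E.a0 S x ∧ E.a0 S x ≤ 2 := by
  have := abs_le.1 (h.a1 x hx)
  constructor <;> linarith [this.1, this.2]

theorem a3 (x : Tor d M) (hx : x ∈ S.O) :
    0 ≤ aP E.η A S.O (om S) x ∧ aP E.η A S.O (om S) x ≤ 2 := by
  have a := abs_le.1 (h.a1 x hx)
  have b := abs_le.1 (h.aa x)
  constructor <;> linarith [a.1, a.2, b.1, b.2, h.num.t1, h.num.ε2]

theorem row (x : Tor d M) (hx : x ∈ S.O) : nS S.O (E.G0 S x) ≤ 3 := by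
  have a := row_off h.hE h.p.sym (fun x hx => (h.a2 x hx).1) h.inv.ul
    (h.num.θ1.trans (by norm_num)) hx
  have b : ‖E.G0 S x x - al (E.ker S) S.O (om S) x x‖ ≤ q.H (x - x) := h.inv.amp x hx x hx
  have c := (h.n.smk.wal S.O (om S)).ent h.n.smk.pm x x
  rw [sub_self] at b
  have e := pow_le_pow_left₀ (norm_nonneg _) (show ‖E.G0 S x x‖ ≤ 1 by
    linarith [norm_sub_norm_le (E.G0 S x x) (al (E.ker S) S.O (om S) x x), h.H0]) 2
  rw [nS_le_iff (by norm_num), ← add_sum_erase _ _ hx]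
  linarith

theorem dl4 (x : Tor d M) (hx : x ∈ S.O) :
    ∑ y ∈ S.O, ‖Gm E.H A S.O (om S) x y - E.Γ0 S x y‖ ^ 4 ≤ q.n4 / (q.P : ℝ) ^ 20 := by
  have pm := h.n.smk.pm
  have a := h.p.four (h.row x hx) subset_rfl h.row
  have b := four_sub S.O (fun y => GP E.H A S.O (om S) x y - E.G0 S x y) _
    ((nS_mono (subset_univ _) _).trans (((h.wa.tr pm (by linarith [h.num.δ0])).opLe pm).col
      (mem_univ x)))
  simp only [eΓ]
  exact (b.trans (mul_le_mul_of_nonneg_left (add_le_add a le_rfl) (by norm_num))).trans h.num.l4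

theorem mis (u1 : ∀ x ∈ S.good, (1 - E.ker S * Ss (E.ker S) S.O (om S)) x x ^ 2 * u x =
      E.Γ0 S x x + ∑ y ∈ S.good.erase x, E.G0 S x y ^ 2 * u y) (x : Tor d M) (hx : x ∈ S.good) :
    ‖Gm E.H A S.O (om S) x x‖ ≤ q.m1 := by
  have N := h.num
  have m : ‖E.Γ0 S x x‖ ≤ if q.nw then 3000 * q.m1 else q.m1 := h.inv.mis x hx
  rw [if_pos h.nw] at m
  refine (h.n.mis h.n' h.hb h.u0 N.δ0 h.u2 h.p hx (h.row x (S.good_sub hx)) m
    (by linarith [N.m2, N.δt, N.t1, N.ε2]) (u1 x hx)).trans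
    ((mul_le_mul_of_nonneg_left ?_ N.δ0).trans N.m3)
  linarith [N.m2, N.δt, N.t1, N.k2, N.ε0]

theorem amp (x : Tor d M) (hx : x ∈ S.O) (y : Tor d M) (hy : y ∈ S.O) :
    ‖Gm E.H A S.O (om S) x y‖ ≤ q.H (x - y) + q.δN := by
  have a := norm_sub_le (GP E.H A S.O (om S) x y - E.G0 S x y)
    ((al A S.O (om S) - al (E.ker S) S.O (om S)) x y)
  rw [← eΓ] at a
  have b : ‖E.Γ0 S x y‖ ≤ q.H (x - y) := h.inv.amp x hx y hy
  linarith [norm_sub_norm_le (Gm E.H A S.O (om S) x y) (E.Γ0 S x y),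
    h.p.sup (h.row x hx) (h.row y hy), h.wa.ent h.n.smk.pm x y, h.num.δ1, h.num.δ0]

theorem l4 (x : Tor d M) (hx : x ∈ S.O) : ∑ y ∈ S.good, ‖Gm E.H A S.O (om S) x y‖ ^ 4 ≤ q.n4 := by
  have a := four_le S.good (E.Γ0 S x) (Gm E.H A S.O (om S) x) (t := 1 / 8) (by norm_num)
    (by norm_num)
  have b : ∑ y ∈ S.good, ‖E.Γ0 S x y‖ ^ 4 ≤ q.n4 / 2 := h.inv.l4 x hx
  have c := ((sum_le_sum_of_subset_of_nonneg S.good_sub fun _ _ _ => by positivity).trans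
    (h.dl4 x hx)).trans h.num.l5
  linarith [h.num.n0]

theorem lJ (x : Tor d M) (hx : x ∈ S.O) : ∑ y ∈ S.O, ‖Gm E.H A S.O (om S) x y‖ ^ 4 ≤ q.nO := by
  have N := h.num
  have ε0 := N.ε0
  have a := four_le S.O (E.Γ0 S x) (Gm E.H A S.O (om S) x) (t := ε / 1000) (by positivity)
    (by linarith [N.ε2])
  have b : ∑ y ∈ S.O, ‖E.Γ0 S x y‖ ^ 4 ≤ q.nO - q.n4 / 100 := h.inv.lJ x hx
  have c := (mul_le_mul_of_nonneg_left (h.dl4 x hx) (by positivity)).trans N.l6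
  have f := (mul_le_mul_of_nonneg_left (b.trans (by linarith [N.n0] : _ ≤ q.nO)) ε0.le).trans N.l7
  linarith [N.n0]

theorem ul {L : ℕ} (L0 : 0 < L) (k1 : κ * (1 + 2 * d * L) ≤ ε) (op : OpLe S.O (E.G0 S) (10 / E.η))
    (CS : E.CS ≤ ((q.P : ℝ) ^ 2) ^ 2) (w : ∀ u, ∑ v, D v u * exp (nm (v - u) / L) ≤ κ ^ 2)
    (w' : ∀ u, ∑ v, D' v u * exp (nm (v - u) / L) ≤ κ ^ 2) :
    UL E.p (Kw (aP E.η A S.O (om S)) (GP E.H A S.O (om S))) S.O (q.θ + ε) := by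
  have N := h.num
  have hE := h.hE
  have η0 := N.η0
  have t0 := N.t0
  have ε0 := N.ε0
  refine ul_chg h.inv.ul fun F => ?_
  have N0 := NF_nonneg hE.ref.p0 F
  have c1 := hE.ref.c1
  have a := h.n.cm h.n' h.hb h.u0 N.δ0 h.u2 h.p op (by positivity) (by norm_num) h.row hE.d1 L0
    (l := E.l0) (by exact_mod_cast hE.ref.l1) w w' (C := E.CS * NF E.p F) (by positivity)
    fun z => (hE.ref.shift z F).trans_eq (by ring)
  rw [show 10 / E.η * δ = t by rw [div_mul_eq_mul_div, ← N.tη, mul_div_cancel_right₀ _ η0.ne']]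
    at a
  have b : √(E.CS * NF E.p F) ≤ (q.P : ℝ) ^ 2 * √(NF E.p F) := by
    rw [sqrt_mul (by linarith)]
    exact mul_le_mul_of_nonneg_right (sqrt_le_iff.2 ⟨by positivity, CS⟩) (sqrt_nonneg _)
  have c := mul_le_mul (mul_le_mul_of_nonneg_left k1 (by positivity : 0 ≤ 1000 * t * 3)) b
    (sqrt_nonneg _) (by positivity)
  have e := mul_le_mul_of_nonneg_right N.ε1 (mul_nonneg t0 (sqrt_nonneg (NF E.p F)))
  have f : 0 ≤ (q.P : ℝ) ^ 2 * ε * (t * √(NF E.p F)) := by positivity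
  have g := h.p.en (κ := t) F h.a2 h.a3 (fun x _ => h.aa x) t0 t0 (by linarith [N.t1, N.ε2])
    ((h.inv.ul.1 F).trans (mul_le_mul_of_nonneg_right
      (by change 1 + q.θ ≤ 2; linarith [N.θ1]) N0)) (by linarith)
  exact g.trans (mul_le_mul_of_nonneg_right (by linarith [N.t1]) N0)

theorem rr : Disc S.good (Am0 (GP E.H A S.O (om S))) (q.θ + ε) := by
  have N := h.num
  have op : OpLe S.good (fun x y => Am0 (GP E.H A S.O (om S)) x y - Am0 (E.G0 S) x y) ε := by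
    have r : ∀ x ∈ S.good, ∑ y ∈ S.good, ‖GP E.H A S.O (om S) x y ^ 2 - E.G0 S x y ^ 2‖ ≤ ε :=
      fun x hx => (sum_le_sum_of_subset_of_nonneg S.good_sub fun _ _ _ => norm_nonneg _).trans
        ((h.p.sq_row (h.row x (S.good_sub hx))).trans (by linarith [N.t1, N.t0]))
    refine OpLe.schur (fun x _ y _ => ?_) N.ε0.le r fun y hy => by
      simp only [h.p.sym _ y, h.p.sym' _ y]; exact r y hy
    simp only [Am0]
    split_ifs
    · simp
    · rw [neg_sub_neg, norm_sub_rev]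
  have := h.inv.rr.pert N.θ0 (N.θ1.trans (by norm_num)) N.ε0.le (by linarith [N.ε2]) op
  rw [show (Am0 (E.G0 S) + fun x y => Am0 (GP E.H A S.O (om S)) x y - Am0 (E.G0 S) x y) =
    Am0 (GP E.H A S.O (om S)) by funext x y; simp] at this
  exact this

theorem dec (hq : q.toPar.OK E.toEnv) (op : OpLe S.O (E.G0 S) (10 / E.η)) :
    Dec (GP E.H A S.O (om S)) S.O (q.Bi 1) (q.li E.η 1) := by
  have N := h.num
  have pm := h.n.smk.pm
  refine ct_mat (Δ := Ww A S.O (om S) - Ww (E.ker S) S.O (om S)) h.hE hq (i := 0)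
    (by norm_num) subset_rfl h.p.sym
    (fun x _ y => by rw [h.p.id x y, funext fun w => h.p.sym' w y]; rfl)
    op (by rw [Par.OK.Bi_zero, Par.OK.li_zero]; exact h.inv.dec)
    (h.p.le.mono (by linarith [N.δt, N.t1, N.ε2]))
    (fun y _ z => ?_) fun _ v _ => (loc_small h.p.op (by linarith [N.t1, N.ε2]) v).trans
      (mul_le_mul_of_nonneg_right ?_ (nS_nonneg _ _))
  · rw [Par.OK.li_zero, neg_div]
    exact (((h.n'.smk.wWw S.O (om S)).sub (h.n.smk.wWw S.O (om S))).entry pm y z).trans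
      (mul_le_mul_of_nonneg_right (by norm_num) (exp_pos _).le)
  · rw [le_div_iff₀ N.η0]
    linarith [one_le_pow₀ (n := 40) (hq.Pone h.hE), N.η1]

end PNS

theorem PNH.main {κ : ℝ} {L : ℕ} (h : PNH E q S κ L) : ∃ W' : Tor d M → ℂ,
    (∀ x ∉ S.good, W' x = S.W x) ∧ PInv E (q.b1 E.η) { S with W := W' } ∧
    ∀ x, |E.a0 { S with W := W' } x - E.a0 S x| ≤ 1 / (q.P : ℝ) ^ 5 := by
  have i := h.inv
  obtain ⟨u, u0, u1, u2⟩ := h.corr
  obtain ⟨D, n, w⟩ := h.maj0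
  have N := h.num n.κ0
  have sg : ∀ x, ‖S.W x + u x‖ ≤ q.sg + q.δN := fun x => (norm_add_le _ _).trans
    (add_le_add (i.sg x) ((u2 x).trans (by linarith [N.δ1, N.δ0])))
  obtain ⟨D', n', w'⟩ := h.maj (fun x => S.W x + u x) sg
  have hb : E.A0 + diagonal (fun x => S.W x + u x) = E.ker S + diagonal u := by
    rw [PEnv.ker, add_assoc, diagonal_add]
  have η0 := N.η0
  have cs : E.CS ≤ ((q.P : ℝ) ^ 2) ^ 2 := by
    have a := le_self_pow₀ h.hE.ref.c1 two_ne_zero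
    have b := le_self_pow₀ (h.hq.Pone h.hE) (n := 4) (by norm_num)
    linarith [h.hq.CS_le h.hE, h.hE.ref.c1]
  have s : PNS E q S u D D' _ κ _ _ _ := ⟨h.hE, i, h.nw, h.H0, h.a1, N, u0, u2, n, n', hb,
    (n.prt n' hb u0 N.δ0 u2 (cr_T h.hE.symm) h.unit rfl rfl (by positivity) h.op
      (by linarith [N.t1, N.ε2, N.ε0])).2⟩
  exact ⟨fun x => S.W x + u x, fun x hx => by simp only [u0 x hx, add_zero], ⟨i.go, i.gj, i.oj, i.oΩ, sg,
    s.mis u1, s.amp, s.l4, s.lJ, s.ul h.L0 h.k1 h.op cs w w', s.rr,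
    s.dec h.hq h.op, i.lev1, i.lev2, i.iso⟩, fun x => (s.aa x).trans N.t5⟩

end Pool.Agent.P.MP_d0f69c_mp.XS.Pre
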