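import Pool.Agent.P.MP_d0f69c_mp.XS.PIfF

/-!
One step of the preparatory flow: the entries.
-/

set_option autoImplicit false
set_option linter.dupNamespace false

open Finset Real
open scoped Matrix

namespace Pool.Agent.P.MP_d0f69c_mp.XS.Pre

namespace PPA

variable {ι : Type} [Fintype ι] [DecidableEq ι] {q : Nq} {σ : Co ι} {τ : Au ι}

/-- the odd far part of the increment -/
noncomputable def od (σ : Co ι) (τ : Au ι) (x z v : ι) : ℂ :=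
  bf (τ.B v) (σ.Γ x) (σ.Pf τ v z) + bf (τ.B v) (σ.al x - τ.Pn v x) (σ.Γ z)

theorem step_eq (x z v : ι) (b : Bool) : (σ.step τ v b).Γ x z = σ.Γ x z - sgn b * od σ τ x z v -
    sgn b * (bf (τ.B v) (σ.Γ x) (τ.Pn v z) + bf (τ.B v) (τ.Pn v x) (σ.Γ z)) +
    bf (τ.R v b) (σ.G x) (σ.G z) := by
  have e : ∀ u, σ.Γ u = σ.G u - σ.al u := fun _ => rfl
  change σ.G x z - bf (τ.T v b) (σ.G x) (σ.G z) -
    (σ.al x z - sgn b * bf (τ.B v) (σ.al x) (σ.al z)) = σ.G x z - σ.al x z - _ - _ + _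
  simp only [od, e, Co.Pf, Au.T, bf, Matrix.sub_mulVec, Matrix.smul_mulVec, Matrix.mulVec_sub,
    dotProduct_sub, sub_dotProduct, dotProduct_smul, smul_eq_mul]
  ring

theorem re_le {c : ℂ} (hc : ‖c‖ ≤ 1) (w : ℂ) : |(c * w).re| ≤ ‖w‖ :=
  (Complex.abs_re_le_norm _).trans (by
    rw [norm_mul]; exact mul_le_of_le_one_left (norm_nonneg _) hc)

theorem near (hq : q.OK) (hy : Fy q σ τ) (hz : Fz q σ τ) {x z v : ι} (hx : x ∈ σ.Rw)
    (hz' : z ∈ σ.Rw) (hv : v ∈ σ.rem) (hzv : z ≠ v) :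
    103 / 100 * τ.N v (σ.Γ x) * τ.N v (τ.Pn v z) ≤ 2 * q.κ * (σ.H x z + q.m1) * σ.Kk z v := by
  have h1 := hy.p1 v hv z hzv
  have h2 := (hy.hn v hv).nn (σ.Γ x)
  have h3 := hy.H0 x z
  have h4 := hq.m0
  have h5 := mul_nonneg hq.κ0 (hy.K0 z v)
  refine (mul_le_mul_of_nonneg_left h1 (by positivity)).trans ?_
  by_cases h : σ.Kk z v = 0
  · simp [h]
  have h6 := (hy.n2 v hv _).trans (hz.Γ4 v hv x hx z hz' h)
  nlinarith [mul_le_mul_of_nonneg_right (show 103 / 100 * τ.N v (σ.Γ x) ≤ 2 * (σ.H x z + q.m1) by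
    linarith) h5]

theorem od_le (hy : Fy q σ τ) (hz : Fz q σ τ) {x z v : ι} (hx : x ∈ σ.Rw)
    (hz' : z ∈ σ.Rw) (hv : v ∈ σ.rem) (hxv : x ≠ v) (hzv : z ≠ v) :
    ‖od σ τ x z v‖ ^ 2 ≤ 2 * (τ.Nh v (σ.Γ x) ^ 4 + τ.Nh v (σ.Γ z) ^ 4) +
      16 * q.γ ^ 2 * (τ.μ x v ^ 2 + τ.μ z v ^ 2) := by
  have n0 := (hy.hn v hv).nn
  have a0 := (hz.hh v).nn (σ.Γ x)
  have b0 := (hz.hh v).nn (σ.Γ z)
  have m0 := hy.u0 x v
  have m1 := hy.u0 z v
  have h1 : ‖od σ τ x z v‖ ≤ 103 / 100 * τ.Nh v (σ.Γ x) * (τ.Nh v (σ.Γ z) + τ.μ z v) +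
      103 / 100 * τ.μ x v * τ.Nh v (σ.Γ z) := by
    refine (norm_add_le _ _).trans (add_le_add ((hy.b0 v hv _ _).trans ?_)
      ((hy.b0 v hv _ _).trans ?_))
    · exact mul_le_mul (mul_le_mul_of_nonneg_left (hy.n2 v hv _) (by norm_num))
        (hz.f1 v hv z hzv).1 (n0 _) (by positivity)
    · exact mul_le_mul (mul_le_mul_of_nonneg_left (hy.p2 v hv x hxv) (by norm_num))
        (hy.n2 v hv _) (n0 _) (by positivity)
  have h2 := mul_le_mul_of_nonneg_right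
    (pow_le_pow_left₀ a0 (hz.Γ1 v hv x (hy.RO hx)) 2) (sq_nonneg (τ.μ z v))
  have h3 := mul_le_mul_of_nonneg_right
    (pow_le_pow_left₀ b0 (hz.Γ1 v hv z (hy.RO hz')) 2) (sq_nonneg (τ.μ x v))
  refine (pow_le_pow_left₀ (norm_nonneg _) h1 2).trans ?_
  generalize τ.Nh v (σ.Γ x) = a at *
  generalize τ.Nh v (σ.Γ z) = b at *
  generalize τ.μ x v = m at *
  generalize τ.μ z v = m' at *
  nlinarith [sq_nonneg (a * b - a * m'), sq_nonneg (a * b - m * b), sq_nonneg (a * m' - m * b),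
    sq_nonneg (a ^ 2 - b ^ 2), sq_nonneg (a * b), sq_nonneg (a * m'), sq_nonneg (m * b)]

end PPA

open PPA in
theorem t_pp : S_PP := by
  intro ι _ _ q σ τ hq hy hz x hx z hz' c hc
  have hS : (σ.rem.erase x).erase z ⊆ σ.rem := (erase_subset _ _).trans (erase_subset _ _)
  have hs : ∀ b, ‖c * sgn b‖ ≤ 1 := fun b => by rwa [norm_mul, norm_sgn, mul_one]
  have hv : ∀ v ∈ (σ.rem.erase x).erase z, x ≠ v ∧ z ≠ v := fun v h =>
    ⟨(ne_of_mem_erase (mem_of_mem_erase h)).symm, (ne_of_mem_erase h).symm⟩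
  refine ⟨fun v b => -(c * sgn b * od σ τ x z v).re, fun v h b => ?_,
    (sum_eq_zero fun v _ => by simp [sgn]).le, ?_⟩
  · obtain ⟨h1, h2⟩ := hv v h
    have h3 := hS h
    have e : ∀ u ∈ σ.Rw, u ≠ v → (σ.step τ v b).dh u = σ.dh u + τ.Nh v (σ.G u) ^ 2 :=
      fun u a a' => congrArg (σ.dh u + ·) (if_pos (mem_erase.2 ⟨a', a⟩))
    have h4 := (abs_le.1 ((re_le (hs b) _).trans ((norm_add_le _ _).trans (add_le_add
      (hy.b0 v h3 (σ.Γ x) (τ.Pn v z)) (hy.b0 v h3 (τ.Pn v x) (σ.Γ z)))))).1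
    have h5 := near hq hy hz hx hz' h3 h2
    have h6 := near hq hy hz hz' hx h3 h1
    have h7 := (abs_le.1 ((re_le hc _).trans (hy.r1 v h3 b (σ.G x) (σ.G z)))).2
    have h8 := mul_nonneg hq.h0 (sq_nonneg (τ.Nh v (σ.G x) - τ.Nh v (σ.G z)))
    rw [hy.sH z x] at h6
    rw [e x hx h1, e z hz' h2, step_eq, mul_add c, mul_sub c, mul_sub c, ← mul_assoc c,
      ← mul_assoc c, Complex.add_re, Complex.sub_re, Complex.sub_re]
    linarith
  have h1 : ∑ v ∈ (σ.rem.erase x).erase z, ((-(c * sgn true * od σ τ x z v).re) ^ 2 +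
      (-(c * sgn false * od σ τ x z v).re) ^ 2) ≤ ∑ v ∈ σ.rem, 2 * (2 * (τ.Nh v (σ.Γ x) ^ 4 +
        τ.Nh v (σ.Γ z) ^ 4) + 16 * q.γ ^ 2 * (τ.μ x v ^ 2 + τ.μ z v ^ 2)) := by
    refine (sum_le_sum fun v h => ?_).trans
      (sum_le_sum_of_subset_of_nonneg hS fun _ _ _ => by positivity)
    have h2 := od_le hy hz hx hz' (hS h) (hv v h).1 (hv v h).2
    have h3 := fun b => pow_le_pow_left₀ (abs_nonneg _) (re_le (hs b) (od σ τ x z v)) 2
    simp only [sq_abs] at h3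
    rw [neg_sq, neg_sq]
    linarith [h3 true, h3 false]
  refine h1.trans ?_
  simp only [← mul_sum, sum_add_distrib]
  have h2 := hz.Γ3 x (hy.RO hx)
  have h3 := hz.Γ3 z (hy.RO hz')
  have h4 := mul_le_mul_of_nonneg_left (add_le_add (hy.u1 x) (hy.u1 z)) (sq_nonneg q.γ)
  have P1 : 1 ≤ q.P := le_trans (by norm_num) hq.P9
  have h5 : q.ν * q.γ ^ 2 ≤ q.nJ := (le_mul_of_one_le_right (mul_nonneg hq.ν0 (sq_nonneg _))
    (one_le_pow₀ P1)).trans (hq.g3.trans hq.n1)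
  have h6 : 100 * q.P ^ 8 ≤ q.P ^ 21 := (mul_le_mul_of_nonneg_right
    (le_trans (by norm_num) hq.P9) (by positivity)).trans
    ((pow_succ' _ _).symm.le.trans (pow_le_pow_right₀ P1 (by norm_num)))
  have h7 : 100 * q.nJ ≤ q.m1 ^ 2 / q.P ^ 8 := by
    rw [le_div_iff₀ (by positivity)]
    nlinarith [mul_le_mul_of_nonneg_right h6 (hq.n0.le.trans hq.n1), hq.m1]
  linarith [hq.n0.le.trans hq.n1]

end Pool.Agent.P.MP_d0f69c_mp.XS.Pre
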