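import Pool.Agent.P.MP_d0f69c_mp.XS.Nw1
import Pool.Agent.P.MP_d0f69c_mp.XS.Pr

/-!
Exponentially weighted operator norms.
-/

set_option autoImplicit false

open Finset Real

namespace Pool.Agent.P.MP_d0f69c_mp.XS.Pre

variable {ι : Type} [Fintype ι]

/-- conjugation by an exponential weight -/
noncomputable def cj (ρ : ι → ℝ) (A : Matrix ι ι ℂ) : Matrix ι ι ℂ :=
  fun x y => (exp (ρ x - ρ y) : ℝ) * A x y

/-- weighted operator norm bound, for all weights that are Lipschitz for `r` -/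
def WN (r : ι → ι → ℝ) (A : Matrix ι ι ℂ) (c : ℝ) : Prop :=
  ∀ ρ : ι → ℝ, (∀ x y, ρ x - ρ y ≤ r x y) → OpLe univ (cj ρ A) c

/-- a pseudo-metric -/
structure PM (r : ι → ι → ℝ) : Prop where
  zero : ∀ x, r x x = 0
  symm : ∀ x y, r x y = r y x
  tri : ∀ x y z, r x z ≤ r x y + r y z

omit [Fintype ι] in
theorem PM.nonneg {r : ι → ι → ℝ} (h : PM r) (x y : ι) : 0 ≤ r x y := by
  have := h.tri x y x
  rw [h.zero, h.symm y x] at this
  linarith

theorem pm_nm (d M : ℕ) {L : ℝ} (hL : 0 ≤ L) : PM fun x y : Tor d M => (nm (x - y) : ℝ) / L :=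
  ⟨fun x => by rw [nm_self]; simp, fun x y => by rw [nm_comm], fun x y z => by
    rw [← add_div]
    exact div_le_div_of_nonneg_right (by exact_mod_cast nm_tri x y z) hL⟩

theorem ap_mul (A B : Matrix ι ι ℂ) (u : ι → ℂ) : ap univ (A * B) u = ap univ A (ap univ B u) :=
  funext fun x => by
    simp only [ap, Matrix.mul_apply, sum_mul, mul_sum, mul_assoc]
    exact sum_comm

theorem opLe_mul {A B : Matrix ι ι ℂ} {a b : ℝ} (h : OpLe univ A a) (h' : OpLe univ B b)
    (ha : 0 ≤ a) : OpLe univ (A * B) (a * b) := fun u => by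
  rw [ap_mul, mul_assoc]
  exact (h _).trans (mul_le_mul_of_nonneg_left (h' u) ha)

theorem opLe_tr {S : Finset ι} {A : ι → ι → ℂ} {a : ℝ} (h : OpLe S A a) (ha : 0 ≤ a) :
    OpLe S (fun x y => A y x) a := fun u => by
  set w := ap S (fun x y => A y x) u with hw
  have e : ((nS S w ^ 2 : ℝ) : ℂ) = ∑ y ∈ S, u y * ap S A (star w) y := by
    rw [nS_sq]
    push_cast
    simp only [ap, mul_sum]
    rw [sum_comm]
    refine sum_congr rfl fun x _ => ?_
    rw [← Complex.mul_conj', hw, ap, sum_mul]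
    exact sum_congr rfl fun y _ => by simp only [Pi.star_apply, Complex.star_def, ap]; ring
  have h1 : nS S w ^ 2 ≤ nS S u * (a * nS S w) := by
    have := nS_cs S u (ap S A (star w))
    rw [← e, Complex.norm_real, Real.norm_of_nonneg (sq_nonneg _)] at this
    refine this.trans (mul_le_mul_of_nonneg_left ((h _).trans_eq ?_) (nS_nonneg _ _))
    simp [nS]
  rcases (nS_nonneg S w).eq_or_lt with h2 | h2
  · rw [← h2]; exact mul_nonneg ha (nS_nonneg _ _)
  · exact le_of_mul_le_mul_right (by linarith) h2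

theorem opLe_sum {α : Type} (s : Finset α) {S : Finset ι} {A : α → ι → ι → ℂ} {a : α → ℝ}
    (h : ∀ i ∈ s, OpLe S (A i) (a i)) : OpLe S (fun x y => ∑ i ∈ s, A i x y) (∑ i ∈ s, a i) := by
  classical
  induction s using Finset.induction_on with
  | empty => intro u; simp [nS, ap]
  | insert i s hi ih =>
    rw [sum_insert hi]
    exact ((h i (mem_insert_self _ _)).add (ih fun j hj => h j (mem_insert_of_mem hj))).congr
      fun x _ y _ => by simp [sum_insert hi]

theorem cj_mul (ρ : ι → ℝ) (A B : Matrix ι ι ℂ) : cj ρ (A * B) = cj ρ A * cj ρ B := by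
  ext x y
  simp only [cj, Matrix.mul_apply, mul_sum]
  refine sum_congr rfl fun z _ => ?_
  rw [← sub_add_sub_cancel (ρ x) (ρ z), exp_add]
  push_cast
  ring

omit [Fintype ι] in
theorem cj_add (ρ : ι → ℝ) (A B : Matrix ι ι ℂ) : cj ρ (A + B) = cj ρ A + cj ρ B := by
  ext x y; simp [cj, mul_add]

omit [Fintype ι] in
theorem cj_diag [DecidableEq ι] (ρ : ι → ℝ) (a : ι → ℂ) :
    cj ρ (Matrix.diagonal a) = Matrix.diagonal a := by
  ext x y
  by_cases h : x = y
  · subst h; simp [cj]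
  · simp [cj, h]

omit [Fintype ι] in
theorem cj_one [DecidableEq ι] (ρ : ι → ℝ) : cj ρ (1 : Matrix ι ι ℂ) = 1 := cj_diag ρ _

theorem ap_one [DecidableEq ι] (u : ι → ℂ) : ap univ (1 : Matrix ι ι ℂ) u = u := funext fun x => by
  simp [ap, Matrix.one_apply]

theorem unit_of_opLe [DecidableEq ι] {A : Matrix ι ι ℂ} {c : ℝ} (h : OpLe univ A c) (hc : c < 1) :
    IsUnit (1 + A).det := by
  rw [isUnit_iff_ne_zero]
  intro e
  obtain ⟨u, hu, h0⟩ := Matrix.exists_mulVec_eq_zero_iff.2 e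
  have h1 := h u
  have e1 : ap univ A u = (-1 : ℂ) • u := by
    rw [Matrix.add_mulVec, Matrix.one_mulVec] at h0
    rw [neg_one_smul]
    exact eq_neg_of_add_eq_zero_right h0
  rw [e1, nS_smul, norm_neg, norm_one] at h1
  exact hu (funext fun x => nS_eq_zero (by nlinarith [nS_nonneg univ u]) (mem_univ x))

theorem opLe_of_left [DecidableEq ι] {A B : Matrix ι ι ℂ} {c : ℝ} (h : OpLe univ A c) (hc : c < 1)
    (e : (1 + A) * B = 1) : OpLe univ B (1 / (1 - c)) := fun u => by
  have h1 := ap_mul (1 + A) B u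
  rw [e, ap_one] at h1
  replace h1 := h1.trans (ap_add univ (1 : Matrix ι ι ℂ) A _)
  rw [ap_one] at h1
  have h2 := nS_sub univ (ap univ B u + ap univ A (ap univ B u)) (ap univ A (ap univ B u))
  rw [add_sub_cancel_right, ← h1] at h2
  rw [div_mul_eq_mul_div, le_div_iff₀ (by linarith)]
  linarith [h (ap univ B u)]

namespace WN

variable {r : ι → ι → ℝ} {A B : Matrix ι ι ℂ} {a b : ℝ}

theorem mono (h : WN r A a) (hab : a ≤ b) : WN r A b := fun ρ hρ => (h ρ hρ).mono hab

theorem weak (h : WN r A a) {r' : ι → ι → ℝ} (hr : ∀ x y, r' x y ≤ r x y) : WN r' A a :=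
  fun ρ hρ => h ρ fun x y => (hρ x y).trans (hr x y)

theorem opLe (h : WN r A a) (hr : PM r) : OpLe univ A a :=
  (h 0 fun x y => by simpa using hr.nonneg x y).congr fun x _ y _ => by simp [cj]

theorem add (h : WN r A a) (h' : WN r B b) : WN r (A + B) (a + b) := fun ρ hρ => by
  rw [cj_add]; exact (h ρ hρ).add (h' ρ hρ)

theorem smul (h : WN r A a) (c : ℂ) : WN r (c • A) (‖c‖ * a) := fun ρ hρ =>
  ((h ρ hρ).left (a := fun _ => c) (norm_nonneg c) fun _ _ => le_rfl).congr fun x _ y _ => by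
    simp [cj, mul_left_comm]

theorem neg (h : WN r A a) : WN r (-A) a := by simpa using h.smul (-1)

theorem sub (h : WN r A a) (h' : WN r B b) : WN r (A - B) (a + b) := by
  rw [sub_eq_add_neg]; exact h.add h'.neg

theorem mul (h : WN r A a) (h' : WN r B b) (ha : 0 ≤ a) : WN r (A * B) (a * b) := fun ρ hρ => by
  rw [cj_mul]; exact opLe_mul (h ρ hρ) (h' ρ hρ) ha

theorem diag [DecidableEq ι] {v : ι → ℂ} (ha : 0 ≤ a) (h : ∀ x, ‖v x‖ ≤ a) :
    WN r (Matrix.diagonal v) a := fun ρ _ => by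
  rw [cj_diag]; exact OpLe.diag ha fun x _ => h x

theorem one [DecidableEq ι] : WN r (1 : Matrix ι ι ℂ) 1 := diag zero_le_one fun _ => by simp

theorem tr (h : WN r A a) (hr : PM r) (ha : 0 ≤ a) : WN r A.transpose a := fun ρ hρ =>
  (opLe_tr (h (fun x => -ρ x) fun x y => by rw [hr.symm]; linarith [hρ y x]) ha).congr
    fun x _ y _ => by simp only [cj, Matrix.transpose_apply]; ring_nf

theorem sum {α : Type} (s : Finset α) {A : α → Matrix ι ι ℂ} {a : α → ℝ}
    (h : ∀ i ∈ s, WN r (A i) (a i)) : WN r (∑ i ∈ s, A i) (∑ i ∈ s, a i) := fun ρ hρ =>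
  (opLe_sum s fun i hi => h i hi ρ hρ).congr fun x _ y _ => by
    simp only [cj, Matrix.sum_apply, mul_sum]

/-- uniform averages -/
theorem av {α : Type} [Fintype α] [Nonempty α] {A : α → Matrix ι ι ℂ} (h : ∀ i, WN r (A i) a) :
    WN r ((Fintype.card α : ℂ)⁻¹ • ∑ i, A i) a := by
  have := (sum univ fun i _ => h i).smul (Fintype.card α : ℂ)⁻¹
  have c : (Fintype.card α : ℝ) ≠ 0 := by exact_mod_cast Fintype.card_ne_zero
  simpa [← mul_assoc, inv_mul_cancel₀ c] using this

theorem unit [DecidableEq ι] (h : WN r A a) (hr : PM r) (ha : a < 1) : IsUnit (1 + A).det :=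
  unit_of_opLe (h.opLe hr) ha

theorem of_left [DecidableEq ι] (h : WN r A a) (ha : a < 1) (e : (1 + A) * B = 1) :
    WN r B (1 / (1 - a)) := fun ρ hρ =>
  opLe_of_left (h ρ hρ) ha (by rw [← cj_one ρ, ← cj_add, ← cj_mul, e])

theorem inv [DecidableEq ι] (h : WN r A a) (hr : PM r) (ha : a < 1) :
    WN r (1 + A)⁻¹ (1 / (1 - a)) := h.of_left ha (Matrix.mul_nonsing_inv _ (h.unit hr ha))

/-- weighted columns -/
theorem col [DecidableEq ι] (h : WN r A a) (hr : PM r) (y : ι) :
    nS univ (fun x => (exp (r x y) : ℝ) * A x y) ≤ a := by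
  have := (h (fun x => r x y) fun x z => by linarith [hr.tri x z y]).col (mem_univ y)
  simpa only [cj, hr.zero, sub_zero] using this

theorem entry [DecidableEq ι] (h : WN r A a) (hr : PM r) (x y : ι) :
    ‖A x y‖ ≤ a * exp (-r x y) := by
  have := (le_nS _ (mem_univ x)).trans (h.col hr y)
  rw [norm_mul, Complex.norm_real, Real.norm_of_nonneg (exp_pos _).le] at this
  rwa [exp_neg, ← div_eq_mul_inv, le_div_iff₀ (exp_pos _), mul_comm]

/-- a kernel of short range -/
theorem of_range (hr : PM r) (h : OpLe univ A a) (ha : 0 ≤ a) {ε : ℝ} (hε : 0 < ε)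
    (hA : ∀ x y, A x y ≠ 0 → r x y ≤ ε) : WN r A (exp (2 * ε) * a) := fun ρ hρ => by
  let j : ι → ℤ := fun x => ⌊ρ x / ε⌋
  have hj : ∀ x y, A x y ≠ 0 → |j x - j y| ≤ 1 := fun x y e => by
    have b : ∀ s t : ℝ, s - t ≤ ε → ⌊s / ε⌋ ≤ ⌊t / ε⌋ + 1 := fun s t hs => by
      rw [← Int.floor_add_one]
      refine Int.floor_mono ?_
      rw [div_add_one hε.ne']
      exact div_le_div_of_nonneg_right (by linarith) hε.le
    have b1 := b (ρ x) (ρ y) ((hρ x y).trans (hA x y e))
    have b2 := b (ρ y) (ρ x) ((hρ y x).trans (hr.symm x y ▸ hA x y e))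
    rw [abs_le]; constructor <;> simp only [j] <;> omega
  have h1 := h.comm_int ha j fun x _ y _ => hj x y
  have h2 := h1.comm_int ha j fun x _ y _ e => hj x y (right_ne_zero_of_mul e)
  have s0 : 0 ≤ sinh ε := sinh_nonneg_iff.2 hε.le
  have c0 : 0 ≤ cosh ε - 1 := sub_nonneg.2 (one_le_cosh ε)
  have h3 := (h.add (h1.left (a := fun _ => (sinh ε : ℝ)) s0 fun _ _ => by
    rw [Complex.norm_real, Real.norm_of_nonneg s0])).add
    (h2.left (a := fun _ => ((cosh ε - 1 : ℝ) : ℂ)) c0 fun _ _ => by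
      rw [Complex.norm_real, Real.norm_of_nonneg c0])
  have f1 : ∀ x, ε * Int.fract (ρ x / ε) ≤ ε := fun x =>
    mul_le_of_le_one_right hε.le (Int.fract_lt_one _).le
  have f0 : ∀ x, 0 ≤ ε * Int.fract (ρ x / ε) := fun x => mul_nonneg hε.le (Int.fract_nonneg _)
  have h4 := (h3.left (a := fun x => (exp (ε * Int.fract (ρ x / ε)) : ℝ)) (exp_pos ε).le
    fun x _ => by
      rw [Complex.norm_real, Real.norm_of_nonneg (exp_pos _).le]; exact exp_le_exp.2 (f1 x)).right
    (by positivity) (a := fun x => (exp (-(ε * Int.fract (ρ x / ε))) : ℝ)) zero_le_one fun x _ => by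
      rw [Complex.norm_real, Real.norm_of_nonneg (exp_pos _).le]
      exact exp_le_one_iff.2 (neg_nonpos.2 (f0 x))
  refine (h4.mono ?_).congr fun x _ y _ => ?_
  · have e : a + sinh ε * a + (cosh ε - 1) * a = exp ε * a := by rw [← cosh_add_sinh]; ring
    rw [e, mul_one, ← mul_assoc, ← exp_add]
    exact mul_le_mul_of_nonneg_right (exp_le_exp.2 (by linarith)) ha
  by_cases e : A x y = 0
  · simp [cj, e]
  have e1 : ∀ z, ρ z = ε * j z + ε * Int.fract (ρ z / ε) := fun z => by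
    rw [← mul_add, Int.floor_add_fract, mul_div_cancel₀ _ hε.ne']
  have e2 : exp (ρ x - ρ y) = exp (ε * Int.fract (ρ x / ε)) * exp (ε * ((j x - j y : ℤ) : ℝ)) *
      exp (-(ε * Int.fract (ρ y / ε))) := by
    rw [← exp_add, ← exp_add]
    congr 1
    conv_lhs => rw [e1 x, e1 y]
    push_cast
    ring
  have e3 : exp (ε * ((j x - j y : ℤ) : ℝ)) = 1 + sinh ε * ((j x - j y : ℤ) : ℝ) +
      (cosh ε - 1) * ((j x - j y : ℤ) : ℝ) ^ 2 := by
    have := abs_le.1 (hj x y e)
    generalize j x - j y = t at *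
    obtain rfl | rfl | rfl : t = -1 ∨ t = 0 ∨ t = 1 := by omega
    · simp [← cosh_sub_sinh]; ring
    · simp
    · simp [← cosh_add_sinh]; ring
  rw [cj, e2, e3]
  simp only [Pi.add_apply]
  push_cast
  ring

/-- locality: a diagonal factor that lives where the weights are large -/
theorem loc [DecidableEq ι] (h : WN r A a) (h' : WN r B b) (hr : PM r) (ha : 0 ≤ a) {v : ι → ℂ}
    {c s : ℝ} (hc : 0 ≤ c) {x y : ι} (hv : ∀ z, ‖v z‖ ≤ c)
    (hs : ∀ z, v z ≠ 0 → s ≤ r x z + r z y) :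
    ‖(A * Matrix.diagonal v * B) x y‖ ≤ a * c * b * exp (-s) := by
  have h1 := (h.tr hr ha).col hr x
  have h2 := h'.col hr y
  have h3 := (nS_cs' univ _ _).trans (mul_le_mul h1 h2 (nS_nonneg _ _) ha)
  have h4 := mul_le_mul_of_nonneg_left h3 (mul_nonneg hc (exp_pos (-s)).le)
  rw [Matrix.mul_apply]
  refine (norm_sum_le _ _).trans (le_trans ?_ (h4.trans_eq (by ring)))
  rw [mul_sum]
  refine sum_le_sum fun z _ => ?_
  by_cases e : v z = 0
  · rw [Matrix.mul_diagonal, e, mul_zero, zero_mul, norm_zero]; positivity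
  have b1 : 1 ≤ exp (-s) * (exp (r z x) * exp (r z y)) := by
    rw [← exp_add, ← exp_add, hr.symm z x]
    exact one_le_exp (by linarith [hs z e])
  simp only [Matrix.mul_diagonal, norm_mul, Complex.norm_real, Real.norm_of_nonneg (exp_pos _).le,
    Matrix.transpose_apply]
  have b2 := mul_le_mul (hv z) b1 zero_le_one hc
  have b3 := mul_le_mul_of_nonneg_right b2 (mul_nonneg (norm_nonneg (A x z)) (norm_nonneg (B z y)))
  linarith

end WN

end Pool.Agent.P.MP_d0f69c_mp.XS.Pre
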