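import Pool.Agent.P.MP_d0f69c_mp.XS.Nw2
import Pool.Agent.P.MP_d0f69c_mp.XS.PWn

/-!
Perturbation estimates for a small symmetric matrix change.
-/

set_option autoImplicit false

open Finset Real

namespace Pool.Agent.P.MP_d0f69c_mp.XS.Pre

variable {ι : Type}

/-- the setting: `G' = G - G Δ G'` with a small symmetric `Δ` on `X` -/
structure PrtM (X : Finset ι) (G G' Δ : ι → ι → ℂ) (δ s : ℝ) : Prop where
  sym : ∀ x y, G x y = G y x
  sym' : ∀ x y, G' x y = G' y x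
  symD : ∀ x y, Δ x y = Δ y x
  id : ∀ x y, G' x y = G x y - ∑ z ∈ X, G x z * ap X Δ (G' y) z
  δ0 : 0 ≤ δ
  le : OpLe X Δ δ
  s0 : 0 ≤ s
  op : ∀ u, nS X (ap X G (ap X Δ u)) ≤ s * nS X u
  op' : ∀ u, nS X (ap X G' (ap X Δ u)) ≤ s * nS X u
  s1 : s ≤ 1 / 3

/-- Hilbert-Schmidt norm of `G [Δ, f] G'` -/
noncomputable def cmN (X : Finset ι) (G G' Δ : ι → ι → ℂ) (f : ι → ℝ) : ℝ :=
  nS (X ×ˢ X) fun p => ap X G (ap X (fun z w => ((f z : ℂ) - f w) * Δ z w) (G' p.2)) p.1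

theorem ap_swap {X : Finset ι} {Δ : ι → ι → ℂ} (h : ∀ x y, Δ x y = Δ y x) (u v : ι → ℂ) :
    ∑ z ∈ X, u z * ap X Δ v z = ∑ z ∈ X, v z * ap X Δ u z := by
  simp only [ap, mul_sum]
  rw [sum_comm]
  exact sum_congr rfl fun z _ => sum_congr rfl fun w _ => by rw [h w z]; ring

namespace PrtM

variable {X : Finset ι} {G G' Δ : ι → ι → ℂ} {δ s g g' : ℝ}

theorem row (h : PrtM X G G' Δ δ s) {x : ι} (hx : nS X (G x) ≤ g) : nS X (G' x - G x) ≤ s * g := by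
  refine le_trans (nS_le_nS fun y _ => le_of_eq ?_)
    ((h.op' (G x)).trans (mul_le_mul_of_nonneg_left hx h.s0))
  rw [Pi.sub_apply, h.id x y, sub_sub_cancel_left, norm_neg, ap_swap h.symD]
  rfl

theorem row' (h : PrtM X G G' Δ δ s) {x : ι} (hx : nS X (G x) ≤ g) : nS X (G' x) ≤ 4 / 3 * g := by
  have := nS_add X (G x) (G' x - G x)
  rw [add_sub_cancel] at this
  linarith [h.row hx, mul_le_mul_of_nonneg_right h.s1 ((nS_nonneg _ _).trans hx)]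

theorem sup (h : PrtM X G G' Δ δ s) {x y : ι} (hx : nS X (G x) ≤ g) (hy : nS X (G y) ≤ g') :
    ‖G' x y - G x y‖ ≤ 4 / 3 * (δ * g * g') := by
  rw [h.id x y, sub_sub_cancel_left, norm_neg]
  exact (nS_cs X _ _).trans ((mul_le_mul hx ((h.le _).trans (mul_le_mul_of_nonneg_left (h.row' hy)
    h.δ0)) (nS_nonneg _ _) ((nS_nonneg _ _).trans hx)).trans_eq (by ring))

/-- the second order remainder -/
theorem second (h : PrtM X G G' Δ δ s) {x y : ι} (hx : nS X (G x) ≤ g) (hy : nS X (G y) ≤ g') :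
    ‖G' x y - G x y + ∑ z ∈ X, G x z * ap X Δ (G y) z‖ ≤ δ * s * g * g' := by
  have e : G' x y - G x y + ∑ z ∈ X, G x z * ap X Δ (G y) z =
      -∑ z ∈ X, G x z * ap X Δ (G' y - G y) z := by
    rw [h.id x y, sub_sub_cancel_left, ← sub_eq_neg_add, ← sum_sub_distrib, ← sum_neg_distrib]
    refine sum_congr rfl fun z _ => ?_
    simp only [ap, Pi.sub_apply, mul_sub, sum_sub_distrib]
    ring
  rw [e, norm_neg]
  exact (nS_cs X _ _).trans ((mul_le_mul hx ((h.le _).trans (mul_le_mul_of_nonneg_left (h.row hy)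
    h.δ0)) (nS_nonneg _ _) ((nS_nonneg _ _).trans hx)).trans_eq (by ring))

/-- fourth powers of the change of a row -/
theorem four (h : PrtM X G G' Δ δ s) {x : ι} (hx : nS X (G x) ≤ g) {S : Finset ι} (hS : S ⊆ X)
    (hX : ∀ y ∈ S, nS X (G y) ≤ g') :
    ∑ y ∈ S, ‖G' x y - G x y‖ ^ 4 ≤ (4 / 3 * (δ * g * g') * (s * g)) ^ 2 := by
  have h1 := pow_le_pow_left₀ (nS_nonneg _ _) ((nS_mono hS _).trans (h.row hx)) 2
  have h2 := mul_le_mul_of_nonneg_left h1 (sq_nonneg (4 / 3 * (δ * g * g')))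
  rw [nS_sq, mul_sum] at h2
  refine le_trans (sum_le_sum fun y hy => ?_) (h2.trans_eq (by ring))
  have := mul_le_mul_of_nonneg_right (pow_le_pow_left₀ (norm_nonneg _) (h.sup hx (hX y hy)) 2)
    (sq_nonneg ‖G' x y - G x y‖)
  rw [Pi.sub_apply]
  linarith

theorem sq_row (h : PrtM X G G' Δ δ s) {x : ι} (hx : nS X (G x) ≤ g) :
    ∑ y ∈ X, ‖G' x y ^ 2 - G x y ^ 2‖ ≤ 3 * s * g ^ 2 := by
  have g0 := (nS_nonneg _ _).trans hx
  have h1 := (nS_cs' X (G' x - G x) (G' x + G x)).trans (mul_le_mul (h.row hx)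
    ((nS_add _ _ _).trans (add_le_add (h.row' hx) hx)) (nS_nonneg _ _) (mul_nonneg h.s0 g0))
  refine le_trans (le_of_eq (sum_congr rfl fun y _ => ?_)) (h1.trans ?_)
  · rw [← norm_mul, Pi.sub_apply, Pi.add_apply]
    congr 1
    ring
  · linarith [mul_nonneg h.s0 (sq_nonneg g)]

theorem hs (h : PrtM X G G' Δ δ s) (f : ι → ℝ) :
    nS (X ×ˢ X) (fun p => (G' p.1 p.2 - G p.1 p.2) * ((f p.1 : ℂ) - f p.2)) ≤
      3 * s * nS (X ×ˢ X) (fun p => G p.1 p.2 * ((f p.1 : ℂ) - f p.2)) + 3 / 2 * cmN X G G' Δ f := by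
  have h1 := Prt.hs_row (X := X) (C := fun x y => G x y * ((f x : ℂ) - f y))
    (A := fun x => ap X G' (ap X Δ fun y => G x y * ((f x : ℂ) - f y))) (fun x _ => h.op' _) h.s0
  have h2 := Prt.hs_row (X := X) (C := fun y x => G' x y * ((f x : ℂ) - f y))
    (A := fun y => ap X G (ap X Δ fun x => G' x y * ((f x : ℂ) - f y))) (fun x _ => h.op _) h.s0
  rw [← Prt.hs_swap fun y => ap X G (ap X Δ fun x => G' x y * ((f x : ℂ) - f y)),
    ← Prt.hs_swap fun y x => G' x y * ((f x : ℂ) - f y)] at h2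
  have h3 := (nS_add _ _ _).trans (add_le_add ((nS_add _ _ _).trans (add_le_add h1 h2))
    (le_refl (cmN X G G' Δ f)))
  have h4 := nS_add (X ×ˢ X) (fun p => G p.1 p.2 * ((f p.1 : ℂ) - f p.2))
    fun p => (G' p.1 p.2 - G p.1 p.2) * ((f p.1 : ℂ) - f p.2)
  rw [nS_congr (w := fun p => G' p.1 p.2 * ((f p.1 : ℂ) - f p.2)) fun p _ => by
    simp only [Pi.add_apply]; ring] at h4
  have h5 := le_trans (nS_le_nS (u := fun p : ι × ι => (G' p.1 p.2 - G p.1 p.2) *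
      ((f p.1 : ℂ) - f p.2)) fun p _ => le_of_eq (by
    rw [h.id p.1 p.2, sub_sub_cancel_left, neg_mul, norm_neg, Pi.add_apply, Pi.add_apply,
      show ∀ v, ap X G' (ap X Δ v) p.2 = ∑ z ∈ X, v z * ap X Δ (G' p.2) z from
        fun v => ap_swap h.symD (G' p.2) v]
    simp only [ap, mul_sum, sum_mul, ← sum_add_distrib]
    exact congrArg _ (sum_congr rfl fun z _ => sum_congr rfl fun w _ => by
      rw [h.sym' w p.2]; ring))) h3
  have h6 := mul_le_mul_of_nonneg_left h4 h.s0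
  have h7 := mul_le_mul_of_nonneg_right h.s1 (nS_nonneg (X ×ˢ X)
    fun p => (G' p.1 p.2 - G p.1 p.2) * ((f p.1 : ℂ) - f p.2))
  linarith

end PrtM

/-- change of a Dirichlet form from the change of the commutator -/
theorem en_chg {X : Finset ι} {G G' : ι → ι → ℂ} {a a' : ι → ℝ} {σ ε N : ℝ} (f : ι → ℝ)
    (ha : ∀ x ∈ X, 1 / 2 ≤ a x ∧ a x ≤ 2) (ha' : ∀ x ∈ X, 0 ≤ a' x ∧ a' x ≤ 2)
    (haa : ∀ x ∈ X, |a' x - a x| ≤ σ) (σ0 : 0 ≤ σ) (ε0 : 0 ≤ ε) (ε1 : ε ≤ 6)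
    (hN : En X (fun x y => a x * a y * ‖G x y‖ ^ 2) f ≤ 2 * N)
    (hD : nS (X ×ˢ X) (fun p => (G' p.1 p.2 - G p.1 p.2) * ((f p.1 : ℂ) - f p.2)) ≤ ε * √N) :
    |En X (fun x y => a' x * a' y * ‖G' x y‖ ^ 2) f - En X (fun x y => a x * a y * ‖G x y‖ ^ 2) f|
      ≤ (32 * σ + 28 * ε) * N := by
  set C : ι × ι → ℂ := fun p => G p.1 p.2 * ((f p.1 : ℂ) - f p.2) with hC
  set D : ι × ι → ℂ := fun p => (G' p.1 p.2 - G p.1 p.2) * ((f p.1 : ℂ) - f p.2) with hDd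
  have e : ∀ (b : ι → ℝ) (F : ι → ι → ℂ), En X (fun x y => b x * b y * ‖F x y‖ ^ 2) f =
      (∑ p ∈ X ×ˢ X, b p.1 * b p.2 * ‖F p.1 p.2 * ((f p.1 : ℂ) - f p.2)‖ ^ 2) / 2 := fun b F => by
    rw [En, sum_product]
    congr 1
    refine sum_congr rfl fun x _ => sum_congr rfl fun y _ => ?_
    rw [norm_mul, ← Complex.ofReal_sub, Complex.norm_real, mul_pow, Real.norm_eq_abs, sq_abs]
    ring
  rw [e] at hN
  rw [e, e, ← sub_div, ← sum_sub_distrib, abs_div, abs_two, div_le_iff₀ two_pos]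
  refine (abs_sum_le_sum_abs _ _).trans ?_
  have h2 : ∀ p ∈ X ×ˢ X, |a' p.1 * a' p.2 * ‖G' p.1 p.2 * ((f p.1 : ℂ) - f p.2)‖ ^ 2 -
      a p.1 * a p.2 * ‖C p‖ ^ 2| ≤
      4 * σ * ‖C p‖ ^ 2 + 8 * (‖C p‖ * ‖D p‖) + 4 * ‖D p‖ ^ 2 := fun p hp => by
    obtain ⟨hx, hy⟩ := mem_product.1 hp
    have e1 : G' p.1 p.2 * ((f p.1 : ℂ) - f p.2) = C p + D p := by simp only [hC, hDd]; ring
    have a1 := norm_add_le (C p) (D p)
    have a2 := norm_sub_le (C p + D p) (D p)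
    rw [add_sub_cancel_right] at a2
    have a3 : |a' p.1 * a' p.2 - a p.1 * a p.2| ≤ 4 * σ := by
      rw [show a' p.1 * a' p.2 - a p.1 * a p.2 = (a' p.1 - a p.1) * a' p.2 +
        a p.1 * (a' p.2 - a p.2) by ring]
      refine (abs_add_le _ _).trans ?_
      rw [abs_mul, abs_mul, abs_of_nonneg (ha' _ hy).1,
        abs_of_nonneg (by linarith [(ha _ hx).1] : 0 ≤ a p.1)]
      have b1 := mul_le_mul (haa _ hx) (ha' _ hy).2 (ha' _ hy).1 σ0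
      have b2 := mul_le_mul (ha _ hx).2 (haa _ hy) (abs_nonneg _) zero_le_two
      linarith
    have a4 : a' p.1 * a' p.2 ≤ 4 :=
      (mul_le_mul (ha' _ hx).2 (ha' _ hy).2 (ha' _ hy).1 zero_le_two).trans_eq (by norm_num)
    have a5 := mul_nonneg (ha' _ hx).1 (ha' _ hy).1
    have a6 : |‖C p + D p‖ ^ 2 - ‖C p‖ ^ 2| ≤ 2 * (‖C p‖ * ‖D p‖) + ‖D p‖ ^ 2 := by
      have n1 := norm_nonneg (C p)
      have n2 := norm_nonneg (D p)
      have n3 := norm_nonneg (C p + D p)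
      rw [abs_le]; constructor <;> nlinarith
    rw [e1, show a' p.1 * a' p.2 * ‖C p + D p‖ ^ 2 - a p.1 * a p.2 * ‖C p‖ ^ 2 =
      (a' p.1 * a' p.2 - a p.1 * a p.2) * ‖C p‖ ^ 2 +
        a' p.1 * a' p.2 * (‖C p + D p‖ ^ 2 - ‖C p‖ ^ 2) by ring]
    refine (abs_add_le _ _).trans ?_
    rw [abs_mul, abs_mul (a' p.1 * a' p.2), abs_of_nonneg (sq_nonneg ‖C p‖), abs_of_nonneg a5]
    have b1 := mul_le_mul_of_nonneg_right a3 (sq_nonneg ‖C p‖)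
    have b2 := mul_le_mul a4 a6 (abs_nonneg _) (by norm_num)
    linarith
  refine (sum_le_sum h2).trans ?_
  have h3 : nS (X ×ˢ X) C ^ 2 ≤ 4 * ∑ p ∈ X ×ˢ X, a p.1 * a p.2 * ‖C p‖ ^ 2 := by
    rw [nS_sq, mul_sum]
    refine sum_le_sum fun p hp => ?_
    obtain ⟨hx, hy⟩ := mem_product.1 hp
    have := mul_le_mul (ha _ hx).1 (ha _ hy).1 (by norm_num) (by linarith [(ha _ hx).1])
    nlinarith [sq_nonneg ‖C p‖]
  change (∑ p ∈ X ×ˢ X, a p.1 * a p.2 * ‖C p‖ ^ 2) / 2 ≤ _ at hN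
  have n1 := nS_nonneg (X ×ˢ X) C
  have n2 := nS_nonneg (X ×ˢ X) D
  have N0 : 0 ≤ N := by linarith [sq_nonneg (nS (X ×ˢ X) C)]
  have q := sq_sqrt N0
  have h4 : nS (X ×ˢ X) C ≤ 4 * √N := le_of_sq_le_sq (by rw [mul_pow, q]; linarith) (by positivity)
  have h5 := (nS_cs' (X ×ˢ X) C D).trans (mul_le_mul h4 hD n2 (by positivity))
  have h6 := pow_le_pow_left₀ n2 hD 2
  have h7 := mul_le_mul_of_nonneg_left (pow_le_pow_left₀ n1 h4 2) σ0
  have h8 := mul_le_mul_of_nonneg_right ε1 (mul_nonneg ε0 N0)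
  rw [mul_pow, q] at h6 h7
  rw [sum_add_distrib, sum_add_distrib, ← mul_sum, ← mul_sum, ← mul_sum, ← nS_sq, ← nS_sq]
  rw [mul_mul_mul_comm, ← sq, q] at h5
  linarith

theorem PrtM.en {X : Finset ι} {G G' Δ : ι → ι → ℂ} {δ s σ κ N : ℝ} (h : PrtM X G G' Δ δ s)
    {a a' : ι → ℝ} (f : ι → ℝ) (ha : ∀ x ∈ X, 1 / 2 ≤ a x ∧ a x ≤ 2)
    (ha' : ∀ x ∈ X, 0 ≤ a' x ∧ a' x ≤ 2) (haa : ∀ x ∈ X, |a' x - a x| ≤ σ) (σ0 : 0 ≤ σ)
    (κ0 : 0 ≤ κ) (κ1 : κ ≤ 1) (hN : En X (fun x y => a x * a y * ‖G x y‖ ^ 2) f ≤ 2 * N)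
    (hc : cmN X G G' Δ f ≤ κ * √N) :
    |En X (fun x y => a' x * a' y * ‖G' x y‖ ^ 2) f - En X (fun x y => a x * a y * ‖G x y‖ ^ 2) f|
      ≤ (32 * σ + 336 * s + 42 * κ) * N := by
  have s0 := h.s0
  have h1 : nS (X ×ˢ X) (fun p => G p.1 p.2 * ((f p.1 : ℂ) - f p.2)) ^ 2 ≤ 16 * N := by
    rw [En, ← sum_product' (f := fun x y => a x * a y * ‖G x y‖ ^ 2 * (f x - f y) ^ 2)] at hN
    refine le_trans ?_ (by linarith : 4 * ∑ p ∈ X ×ˢ X, a p.1 * a p.2 * ‖G p.1 p.2‖ ^ 2 *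
      (f p.1 - f p.2) ^ 2 ≤ _)
    rw [nS_sq, mul_sum]
    refine sum_le_sum fun p hp => ?_
    obtain ⟨hx, hy⟩ := mem_product.1 hp
    have := mul_le_mul_of_nonneg_right (mul_le_mul (ha _ hx).1 (ha _ hy).1 (by norm_num)
      (by linarith [(ha _ hx).1])) (mul_nonneg (sq_nonneg ‖G p.1 p.2‖) (sq_nonneg (f p.1 - f p.2)))
    rw [norm_mul, ← Complex.ofReal_sub, Complex.norm_real, mul_pow, Real.norm_eq_abs, sq_abs]
    linarith
  have N0 : 0 ≤ N := by linarith [sq_nonneg (nS (X ×ˢ X) fun p => G p.1 p.2 * ((f p.1 : ℂ) - f p.2))]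
  have h2 := mul_le_mul_of_nonneg_left (le_of_sq_le_sq (h1.trans_eq (by
    rw [mul_pow, sq_sqrt N0]; norm_num)) (by positivity : 0 ≤ 4 * √N)) (by positivity : 0 ≤ 3 * s)
  exact (en_chg (ε := 12 * s + 3 / 2 * κ) f ha ha' haa σ0 (by positivity) (by linarith [h.s1]) hN
    (by linarith [h.hs f])).trans_eq (by ring)

/-- the comparison with the reference form after a change with a small relative error -/
theorem ul_chg {d M : ℕ} [NeZero M] {p : Tor d M → ℝ} {K K' : Tor d M → Tor d M → ℝ}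
    {O : Finset (Tor d M)} {θ ε : ℝ} (h : UL p K O θ)
    (he : ∀ F, |En O K' F - En O K F| ≤ ε * NF p F) : UL p K' O (θ + ε) := by
  refine ⟨fun F => by linarith [(abs_le.1 (he F)).2, h.1 F], fun f => ?_⟩
  obtain ⟨F, c1, c2⟩ := h.2 f
  have c3 := (abs_le.1 (he F)).1
  rw [En_congr _ c1, En_congr _ c1] at c3
  exact ⟨F, c1, by linarith⟩

end Pool.Agent.P.MP_d0f69c_mp.XS.Pre
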