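import Pool.Agent.P.MP_d0f69c_mp.XS.Num

/-!
The schedule of the preparation stage, part 1: the numbers.
-/

set_option autoImplicit false
set_option maxRecDepth 8000
set_option linter.dupNamespace false
set_option linter.unusedSectionVars false

open Finset Real

namespace Pool.Agent.P.MP_d0f69c_mp.XS.Pre

/-- the constants: the dimension is `y ^ 8` -/
structure Cn where
  y : ℕ
  k : ℕ
  k' : ℕ
  C : ℝ
  η : ℝ
  l1 : ℕ

namespace Cn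

variable (c : Cn)

def P : ℕ := c.y ^ 400
def lam : ℕ := Nat.clog 2 c.y
def T1 : ℕ := (8 * c.k + 800) * c.lam
def T : ℕ := 40 * c.y ^ 8 * c.lam + c.T1 + 1
noncomputable def G : ℝ := (c.y : ℝ) ^ (192 * c.k + 19200)
noncomputable def g (s : ℕ) : ℝ := 4096 ^ (c.T1 - s)
noncomputable def m (s : ℕ) : ℝ := c.η / ((c.P : ℝ) ^ 230 * c.g s)
noncomputable def n4 (s : ℕ) : ℝ := c.m s ^ 2 / (c.P : ℝ) ^ 24
noncomputable def nO (s : ℕ) : ℝ := c.n4 s * (1 + (s - c.T1 : ℕ)) ^ 2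
noncomputable def kap (s : ℕ) : ℝ := if s < c.T1 then 30 * c.C / (c.y : ℝ) ^ 8 else 0
noncomputable def eps (s : ℕ) : ℝ :=
  if s < c.T1 then 10 ^ 6 * c.C / (c.y : ℝ) ^ 8 else 10 ^ 6 * c.C / (c.y : ℝ) ^ 12
noncomputable def nu (s : ℕ) : ℝ :=
  if s < c.T1 then 1 / ((c.P : ℝ) ^ 506 * c.G ^ 2) else 1 / (c.P : ℝ) ^ 506
noncomputable def H0 (s : ℕ) : ℝ := c.m s * (10 ^ 6 + (s - c.T1 : ℕ) * (c.P : ℝ) ^ 5)
noncomputable def γ (s : ℕ) : ℝ := c.η * (c.y : ℝ) ^ 24 * (1 + s)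
noncomputable def θ (s : ℕ) : ℝ := c.C / (c.y : ℝ) ^ 8 +
  (min s c.T1 : ℕ) * (3 * 10 ^ 16 * c.C / (c.y : ℝ) ^ 8) + s * (3 * 10 ^ 16 * c.C / (c.y : ℝ) ^ 12)
noncomputable def sg (s : ℕ) : ℝ := s * ((c.P : ℝ) ^ 4 * (c.η / (c.P : ℝ) ^ 230))
noncomputable def B (s : ℕ) : ℝ := 1 / c.η ^ 2 * exp (20 * (c.P : ℝ) ^ 3) ^ (2 * s)
noncomputable def l (s : ℕ) : ℕ := (c.P ^ 60 * ⌈1 / c.η⌉₊ ^ 2) ^ (2 * s) * (c.l1 + 2 * c.y ^ 72)

structure OK : Prop where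
  C1 : 1 ≤ c.C
  y1 : 10 ^ 30 * c.C ≤ c.y
  y2 : 10 ^ 6 * (c.k + 1000) ≤ c.y
  y3 : c.k' ≤ c.y
  η0 : exp (-(c.y : ℝ) ^ 8) ≤ c.η
  η1 : c.η ≤ 1 / (c.G ^ 2 * (c.P : ℝ) ^ 1060)
  l1 : (c.l1 : ℝ) ≤ 1 / c.η ^ 3

theorem P_eq : (c.P : ℝ) = (c.y : ℝ) ^ 400 := by simp [P]

theorem g_one (s : ℕ) : 1 ≤ c.g s := one_le_pow₀ (by norm_num)

theorem g_late {s : ℕ} (h : c.T1 ≤ s) : c.g s = 1 := by simp [g, Nat.sub_eq_zero_of_le h]

theorem g_early {s : ℕ} (h : s < c.T1) : c.g s = 4096 * c.g (s + 1) := by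
  rw [g, g, ← pow_succ', show c.T1 - (s + 1) + 1 = c.T1 - s by omega]

namespace OK

variable {c} (h : c.OK)
include h

theorem x30 : (10 : ℝ) ^ 30 ≤ c.y := le_trans (by linarith [h.C1]) h.y1

theorem y30 : 10 ^ 30 ≤ c.y := by exact_mod_cast h.x30

theorem x1 : (1 : ℝ) ≤ c.y := le_trans (by norm_num) h.x30

theorem x0 : (0 : ℝ) < c.y := one_pos.trans_le h.x1

theorem pw {a b : ℕ} (e : a ≤ b) : (c.y : ℝ) ^ a ≤ (c.y : ℝ) ^ b := pow_le_pow_right₀ h.x1 e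

theorem pwn {a b : ℕ} (e : a ≤ b) : c.y ^ a ≤ c.y ^ b :=
  Nat.pow_le_pow_right (by have := h.y30; omega) e

/-- a constant is absorbed by one power -/
theorem pc {a b : ℕ} (e : a < b) {t : ℝ} (ht : t ≤ 10 ^ 30 * c.C) :
    t * (c.y : ℝ) ^ a ≤ (c.y : ℝ) ^ b := by
  refine le_trans ?_ (h.pw e)
  rw [pow_succ']
  exact mul_le_mul_of_nonneg_right (ht.trans h.y1) (pow_pos h.x0 a).le

theorem pc' {a b : ℕ} (e : a < b) {t : ℝ} (ht : t ≤ 10 ^ 30) :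
    t * (c.y : ℝ) ^ a ≤ (c.y : ℝ) ^ b := h.pc e (ht.trans (by linarith [h.C1]))

theorem pcn {a b t : ℕ} (e : a < b) (ht : t ≤ 10 ^ 30) : t * c.y ^ a ≤ c.y ^ b := by
  exact_mod_cast h.pc' (t := t) e (by exact_mod_cast ht)

theorem P30 : (10 : ℝ) ^ 30 ≤ c.P := by
  rw [P_eq]; simpa using h.pc' (a := 0) (b := 400) (by norm_num) le_rfl

theorem P1 : (1 : ℝ) ≤ c.P := le_trans (by norm_num) h.P30

theorem P0 : (0 : ℝ) < c.P := one_pos.trans_le h.P1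

theorem pP {a b : ℕ} (e : a ≤ b) : (c.P : ℝ) ^ a ≤ (c.P : ℝ) ^ b := pow_le_pow_right₀ h.P1 e

theorem pPc {a b : ℕ} (e : a < b) {t : ℝ} (ht : t ≤ 10 ^ 30) :
    t * (c.P : ℝ) ^ a ≤ (c.P : ℝ) ^ b := by
  refine le_trans ?_ (h.pP e)
  rw [pow_succ']
  exact mul_le_mul_of_nonneg_right (ht.trans h.P30) (pow_pos h.P0 a).le

theorem ηpos : 0 < c.η := (exp_pos _).trans_le h.η0

theorem G1 : 1 ≤ c.G := one_le_pow₀ h.x1

theorem ηP : c.η ≤ 1 / (c.P : ℝ) ^ 1060 := h.η1.trans (one_div_le_one_div_of_le (pow_pos h.P0 _)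
  (le_mul_of_one_le_left (pow_pos h.P0 _).le (one_le_pow₀ h.G1)))

theorem ηP' : c.η * (c.P : ℝ) ^ 1060 ≤ 1 := (le_div_iff₀ (pow_pos h.P0 _)).1 h.ηP

theorem η_one : c.η ≤ 1 := h.ηP.trans ((div_le_one (pow_pos h.P0 _)).2 (one_le_pow₀ h.P1))

theorem lam1 : c.y ≤ 2 ^ c.lam := Nat.le_pow_clog one_lt_two _

theorem lam2 : 2 ^ c.lam ≤ c.y ^ 2 := by
  have y := h.y30
  have a := Nat.pow_pred_clog_lt_self one_lt_two (show 1 < c.y by omega)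
  have b : 0 < c.lam := Nat.clog_pos one_lt_two (by omega)
  rw [show c.lam = c.lam.pred + 1 from (Nat.succ_pred_eq_of_pos b).symm, pow_succ]
  unfold lam
  nlinarith

theorem lam3 : c.lam ≤ c.y := (Nat.clog_le_iff_le_pow one_lt_two).2 Nat.lt_two_pow_self.le

theorem lam0 : 0 < c.lam := Nat.clog_pos one_lt_two (by have := h.y30; omega)

theorem T10 : 0 < c.T1 := Nat.mul_pos (by omega) h.lam0

theorem T1le : c.T1 ≤ c.y ^ 2 := by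
  rw [T1, sq]
  exact Nat.mul_le_mul (by have := h.y2; omega) h.lam3

omit h in
theorem T1T : c.T1 < c.T := by unfold T; omega

theorem Tle : c.T + 2 ≤ c.y ^ 10 := by
  have a := Nat.mul_le_mul_left (40 * c.y ^ 8) h.lam3
  have b := h.T1le.trans (h.pwn (show 2 ≤ 9 by norm_num))
  have e := h.pcn (a := 9) (b := 10) (t := 44) (by norm_num) (by norm_num)
  have f := h.pwn (show 0 ≤ 9 by norm_num)
  rw [show 40 * c.y ^ 8 * c.y = 40 * c.y ^ 9 by ring] at a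
  rw [pow_zero] at f
  unfold T
  omega

theorem sle {s : ℕ} (hs : s ≤ c.T + 1) : 1 + (s : ℝ) ≤ (c.y : ℝ) ^ 10 := by
  have := h.Tle
  exact_mod_cast (show 1 + s ≤ c.y ^ 10 by omega)

theorem sP {s : ℕ} (hs : s ≤ c.T + 1) : 1 + (s : ℝ) ≤ c.P :=
  (h.sle hs).trans (by rw [P_eq]; exact h.pw (by norm_num))

theorem gG (s : ℕ) : c.g s ≤ c.G := by
  have a : (4096 : ℕ) ^ c.T1 ≤ c.y ^ (192 * c.k + 19200) := calc
    _ = (2 ^ c.lam) ^ (96 * c.k + 9600) := by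
      rw [show (4096 : ℕ) = 2 ^ 12 by norm_num, ← pow_mul, ← pow_mul,
        show 12 * c.T1 = c.lam * (96 * c.k + 9600) by unfold T1; ring]
    _ ≤ (c.y ^ 2) ^ (96 * c.k + 9600) := Nat.pow_le_pow_left h.lam2 _
    _ = _ := by rw [← pow_mul, show 2 * (96 * c.k + 9600) = 192 * c.k + 19200 by ring]
  exact (pow_le_pow_right₀ (by norm_num) (Nat.sub_le _ _)).trans (by unfold G; exact_mod_cast a)

theorem four1 : c.y ^ (16 * c.k + 1600) ≤ 4 ^ c.T1 := calc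
  _ ≤ (2 ^ c.lam) ^ (16 * c.k + 1600) := Nat.pow_le_pow_left h.lam1 _
  _ = _ := by
    rw [show (4 : ℕ) = 2 ^ 2 by norm_num, ← pow_mul, ← pow_mul,
      show 2 * c.T1 = c.lam * (16 * c.k + 1600) by unfold T1; ring]

theorem four2 : c.y ^ (80 * c.y ^ 8) * 4 ≤ 4 ^ c.T := calc
  _ ≤ (2 ^ c.lam) ^ (80 * c.y ^ 8) * 4 := Nat.mul_le_mul_right _ (Nat.pow_le_pow_left h.lam1 _)
  _ = 4 ^ (40 * c.y ^ 8 * c.lam + 1) := by
    rw [pow_succ 4, ← pow_mul, show c.lam * (80 * c.y ^ 8) = 2 * (40 * c.y ^ 8 * c.lam) by ring,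
      pow_mul 2 2]
    rfl
  _ ≤ _ := Nat.pow_le_pow_right (by norm_num) (by unfold T; omega)

omit h in
theorem pexp (a : ℕ) : (c.y : ℝ) ^ a ≤ exp (a * c.y) := by
  rw [exp_nat_mul]
  exact pow_le_pow_left₀ (Nat.cast_nonneg _) (by linarith [add_one_le_exp (c.y : ℝ)]) a

theorem mpos (s : ℕ) : 0 < c.m s := by
  have := h.ηpos; have := h.P0; have := c.g_one s
  unfold m; positivity

theorem mle (s : ℕ) : c.m s ≤ c.η / (c.P : ℝ) ^ 230 :=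
  div_le_div_of_nonneg_left h.ηpos.le (pow_pos h.P0 _)
    (le_mul_of_one_le_right (pow_pos h.P0 _).le (c.g_one s))

theorem mle' (s : ℕ) : c.m s * (c.P : ℝ) ^ 230 ≤ c.η := (le_div_iff₀ (pow_pos h.P0 _)).1 (h.mle s)

theorem mge (s : ℕ) : c.η / ((c.P : ℝ) ^ 230 * c.G) ≤ c.m s :=
  div_le_div_of_nonneg_left h.ηpos.le (mul_pos (pow_pos h.P0 _) (one_pos.trans_le (c.g_one s)))
    (mul_le_mul_of_nonneg_left (h.gG s) (pow_pos h.P0 _).le)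

theorem m_early {s : ℕ} (e : s < c.T1) : c.m (s + 1) = 4096 * c.m s := by
  have := h.P0; have := c.g_one (s + 1)
  rw [m, m, c.g_early e]; field_simp

omit h in
theorem m_late {s : ℕ} (e : c.T1 ≤ s) : c.m (s + 1) = c.m s := by
  rw [m, m, c.g_late e, c.g_late (e.trans (Nat.le_succ s))]

omit h in
theorem m_late' {s : ℕ} (e : c.T1 ≤ s) : c.m s = c.η / (c.P : ℝ) ^ 230 := by
  rw [m, c.g_late e, mul_one]

theorem npos (s : ℕ) : 0 < c.n4 s := div_pos (pow_pos (h.mpos s) 2) (pow_pos h.P0 _)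

theorem n_eq (s : ℕ) : c.n4 s * (c.P : ℝ) ^ 24 = c.m s ^ 2 := div_mul_cancel₀ _ (pow_pos h.P0 _).ne'

theorem nge (s : ℕ) : c.η ^ 2 / (c.G ^ 2 * (c.P : ℝ) ^ 484) ≤ c.n4 s := by
  have := h.P0; have := h.G1; have := h.ηpos
  refine le_trans (le_of_eq ?_) (div_le_div_of_nonneg_right
    (pow_le_pow_left₀ (by positivity) (h.mge s) 2) (pow_pos h.P0 _).le)
  field_simp

theorem nle (s : ℕ) : c.n4 s * (c.P : ℝ) ^ 484 ≤ c.η ^ 2 := calc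
  _ = (c.m s * (c.P : ℝ) ^ 230) ^ 2 := by rw [mul_pow, ← h.n_eq]; ring
  _ ≤ _ := pow_le_pow_left₀ (mul_pos (h.mpos s) (pow_pos h.P0 _)).le (h.mle' s) 2

theorem nexp (s : ℕ) : exp (-(4 * (c.y : ℝ) ^ 8)) ≤ c.n4 s := by
  refine le_trans ?_ (h.nge s)
  have a : c.G ^ 2 * (c.P : ℝ) ^ 484 ≤ exp (2 * (c.y : ℝ) ^ 8) := by
    rw [G, P_eq, ← pow_mul, ← pow_mul, ← pow_add]
    refine (pexp _).trans (exp_le_exp.2 ?_)
    have b : (((192 * c.k + 19200) * 2 + 400 * 484 : ℕ) : ℝ) ≤ c.y := by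
      have : (10 : ℝ) ^ 6 * (c.k + 1000) ≤ c.y := by exact_mod_cast h.y2
      push_cast
      linarith [Nat.cast_nonneg (α := ℝ) c.k]
    have e := h.pw (show 2 ≤ 8 by norm_num)
    nlinarith [h.x0]
  rw [le_div_iff₀ (by have := h.P0; have := h.G1; positivity)]
  refine (mul_le_mul_of_nonneg_left a (exp_pos _).le).trans (le_trans (le_of_eq ?_)
    (pow_le_pow_left₀ (exp_pos _).le h.η0 2))
  rw [← exp_add, ← exp_nat_mul]; congr 1; push_cast; ring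

theorem nO1 (s : ℕ) : c.n4 s ≤ c.nO s :=
  le_mul_of_one_le_right (h.npos s).le (one_le_pow₀ (le_add_of_nonneg_right (Nat.cast_nonneg _)))

theorem nO2 {s : ℕ} (hs : s ≤ c.T) : c.nO s ≤ (c.P : ℝ) ^ 2 * c.n4 s := by
  rw [mul_comm]
  exact mul_le_mul_of_nonneg_left (pow_le_pow_left₀ (by positivity) (h.sP (by omega)) 2)
    (h.npos s).le

theorem kap0 (s : ℕ) : 0 ≤ c.kap s := by
  have := h.C1; have := h.x0
  unfold kap; split_ifs; exacts [by positivity, le_rfl]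

theorem kapy (s : ℕ) : c.kap s * (c.y : ℝ) ^ 3 ≤ 1 / (c.y : ℝ) ^ 4 / 10 ^ 20 := by
  have x0 := h.x0
  unfold kap; split_ifs
  · rw [div_mul_eq_mul_div, div_div, div_le_div_iff₀ (by positivity) (by positivity)]
    have := h.pc (a := 7) (b := 8) (t := 30 * 10 ^ 20 * c.C) (by norm_num) (by linarith [h.C1])
    linarith
  · rw [zero_mul]; positivity

theorem kap3 (s : ℕ) : c.kap s * (c.y : ℝ) ^ 3 ≤ 1 / 10 ^ 20 :=
  (h.kapy s).trans (div_le_div_of_nonneg_right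
    ((div_le_one (pow_pos h.x0 _)).2 (one_le_pow₀ h.x1)) (by norm_num))

theorem epsl (s : ℕ) : 10 ^ 6 * c.C / (c.y : ℝ) ^ 12 ≤ c.eps s := by
  unfold eps; split_ifs
  · exact div_le_div_of_nonneg_left (by linarith [h.C1]) (pow_pos h.x0 _) (h.pw (by norm_num))
  · exact le_rfl

theorem epsu (s : ℕ) : c.eps s ≤ 10 ^ 6 * c.C / (c.y : ℝ) ^ 8 := by
  unfold eps; split_ifs
  · exact le_rfl
  · exact div_le_div_of_nonneg_left (by linarith [h.C1]) (pow_pos h.x0 _) (h.pw (by norm_num))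

theorem P3 : 1 / (c.P : ℝ) ^ 3 ≤ c.C / (c.y : ℝ) ^ 12 := by
  rw [P_eq, ← pow_mul]
  exact div_le_div₀ (by linarith [h.C1]) h.C1 (pow_pos h.x0 _) (h.pw (by norm_num))

theorem P4 : 1 / (c.P : ℝ) ^ 4 ≤ c.C / (c.y : ℝ) ^ 12 :=
  (one_div_le_one_div_of_le (pow_pos h.P0 _) (h.pP (by norm_num))).trans h.P3

theorem Cy {a : ℕ} (e : 1 ≤ a) : c.C / (c.y : ℝ) ^ a ≤ 1 / 10 ^ 30 := by
  rw [div_le_div_iff₀ (pow_pos h.x0 _) (by norm_num)]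
  have := h.pc (a := 0) (b := a) (t := 10 ^ 30 * c.C) e le_rfl
  linarith

theorem θstep (s : ℕ) : c.θ s + 1 / (c.P : ℝ) ^ 3 +
    (10 ^ 7 * 2000 * c.eps s + 10 / (c.P : ℝ) ^ 3) ≤ c.θ (s + 1) := by
  have a := h.P3
  have b : 0 ≤ c.C / (c.y : ℝ) ^ 12 := le_trans (by have := h.P0; positivity) a
  have e : ∀ t u : ℝ, t * c.C / u = t * (c.C / u) := fun t u => mul_div_assoc _ _ _
  rw [show 10 / (c.P : ℝ) ^ 3 = 10 * (1 / (c.P : ℝ) ^ 3) by ring]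
  simp only [θ, eps, e]
  split_ifs with s1
  · have b' : 0 ≤ c.C / (c.y : ℝ) ^ 8 := by have := h.C1; have := h.x0; positivity
    rw [min_eq_left s1.le, min_eq_left s1]; push_cast; linarith
  · rw [min_eq_right (not_lt.1 s1), min_eq_right (by omega)]; push_cast; linarith

theorem θ0 (s : ℕ) : 0 ≤ c.θ s := by
  have := h.C1; have := h.x0
  unfold θ; positivity

theorem θle {s : ℕ} (hs : s ≤ c.T + 1) : c.θ s ≤ 1 / 10 ^ 10 := by
  have x0 := h.x0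
  have C0 : 0 ≤ c.C := by linarith [h.C1]
  have a1 : ((min s c.T1 : ℕ) : ℝ) ≤ (c.y : ℝ) ^ 2 := by
    exact_mod_cast (min_le_right _ _).trans h.T1le
  have a2 : (s : ℝ) ≤ (c.y : ℝ) ^ 10 := by linarith [h.sle hs]
  have b1 := mul_le_mul_of_nonneg_right a1 (show 0 ≤ 3 * 10 ^ 16 * c.C / (c.y : ℝ) ^ 8 by positivity)
  have b2 := mul_le_mul_of_nonneg_right a2 (show 0 ≤ 3 * 10 ^ 16 * c.C / (c.y : ℝ) ^ 12 by positivity)
  have e1 : (c.y : ℝ) ^ 2 * (3 * 10 ^ 16 * c.C / (c.y : ℝ) ^ 8) =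
      3 * 10 ^ 16 * (c.C / (c.y : ℝ) ^ 6) := by field_simp
  have e2 : (c.y : ℝ) ^ 10 * (3 * 10 ^ 16 * c.C / (c.y : ℝ) ^ 12) =
      3 * 10 ^ 16 * (c.C / (c.y : ℝ) ^ 2) := by field_simp
  have := h.Cy (a := 8) (by norm_num)
  have := h.Cy (a := 6) (by norm_num)
  have := h.Cy (a := 2) (by norm_num)
  unfold θ
  linarith

end OK

end Cn

end Pool.Agent.P.MP_d0f69c_mp.XS.Pre
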