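import Pool.Agent.P.MP_d0f69c_mp.XS.Num

/-!
The schedule, part 1: the epochs.
-/

set_option autoImplicit false

open Finset Real

namespace Pool.Agent.P.MP_d0f69c_mp.XS

/-- ends of the epochs -/
def aa (U : ℕ) : ℕ → ℕ
  | 0 => U
  | j + 1 => aa U j * (1 + (aa U j).sqrt.sqrt)

/-- starts of the epochs -/
def us (U : ℕ) : ℕ → ℕ
  | 0 => 0
  | j + 1 => aa U j

/-- the epoch of a round -/
noncomputable def ep (U s : ℕ) : ℕ := sInf {j | s < aa U j}

/-- the size condition on the first scale -/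
structure Big (d U : ℕ) : Prop where
  u : 10 ^ 9 ≤ U
  lg : ∀ x : ℝ, U ≤ x → (2 * (10 ^ 9 * (d + 3) ^ 2) * log x) ^ 5 ≤ x

theorem big_ev (d : ℕ) : ∀ᶠ U : ℕ in Filter.atTop, Big d U := by
  have h := (isLittleO_pow_log_id_atTop (n := 5)).bound
    (show (0 : ℝ) < 1 / (2 * (10 ^ 9 * (d + 3) ^ 2)) ^ 5 by positivity)
  obtain ⟨x0, hx⟩ := Filter.eventually_atTop.1 h
  filter_upwards [Filter.eventually_ge_atTop (10 ^ 9), Filter.eventually_ge_atTop ⌈x0⌉₊]
    with U h1 h2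
  refine ⟨h1, fun x h3 => ?_⟩
  have h4 := (le_abs_self _).trans (hx x ((Nat.ceil_le.1 h2).trans h3))
  rw [id, norm_of_nonneg ((Nat.cast_nonneg U).trans h3), one_div, ← div_eq_inv_mul,
    le_div_iff₀' (by positivity)] at h4
  rwa [mul_pow]

theorem step_facts {a : ℕ} (h : 10 ^ 9 ≤ a) : 3 * a ≤ a * (1 + a.sqrt.sqrt) ∧
    a ^ 5 ≤ (a * (1 + a.sqrt.sqrt)) ^ 4 ∧ 8 * (a * (1 + a.sqrt.sqrt)) ^ 2 ≤ a ^ 3 := by
  have h1 := Nat.sqrt_le' a
  have h2 := Nat.sqrt_le' a.sqrt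
  have h3 := Nat.lt_succ_sqrt' a
  have h4 := Nat.lt_succ_sqrt' a.sqrt
  generalize a.sqrt.sqrt = t at *
  generalize a.sqrt = s at *
  have h5 : a ≤ (1 + t) ^ 4 := calc
    a ≤ (s + 1) ^ 2 := h3.le
    _ ≤ ((t + 1) ^ 2) ^ 2 := Nat.pow_le_pow_left h4 2
    _ = _ := by ring
  have h6 : 10 ≤ t := by
    by_contra c
    have := Nat.pow_le_pow_left (show 1 + t ≤ 10 by omega) 4
    omega
  have h7 : 8 * (1 + t) ^ 2 ≤ a := calc
    _ ≤ (t ^ 2) ^ 2 := by nlinarith [Nat.mul_le_mul h6 h6, Nat.mul_le_mul_left (t ^ 2) (Nat.mul_le_mul h6 h6)]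
    _ ≤ s ^ 2 := Nat.pow_le_pow_left h2 2
    _ ≤ a := h1
  refine ⟨by nlinarith, ?_, ?_⟩
  · calc _ = a ^ 4 * a := by ring
      _ ≤ a ^ 4 * (1 + t) ^ 4 := Nat.mul_le_mul_left _ h5
      _ = _ := by ring
  · calc _ = a ^ 2 * (8 * (1 + t) ^ 2) := by ring
      _ ≤ a ^ 2 * a := Nat.mul_le_mul_left _ h7
      _ = _ := by ring

variable {d U : ℕ}

theorem aa_le (U j : ℕ) : aa U j ≤ aa U (j + 1) := Nat.le_mul_of_pos_right _ (by omega)

theorem aa_mono (U : ℕ) : Monotone (aa U) := monotone_nat_of_le_succ (aa_le U)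

theorem le_aa (U j : ℕ) : U ≤ aa U j := aa_mono U (Nat.zero_le j)

theorem us_le (U j : ℕ) : us U j ≤ aa U j := by
  cases j
  exacts [Nat.zero_le _, aa_le U _]

theorem us_mono (U : ℕ) : Monotone (us U) := monotone_nat_of_le_succ (us_le U)

namespace Big

variable (h : Big d U)
include h

theorem a9 (j : ℕ) : 10 ^ 9 ≤ aa U j := h.u.trans (le_aa U j)

theorem a9' (j : ℕ) : (10 : ℝ) ^ 9 ≤ aa U j := by exact_mod_cast h.a9 j

theorem us3 (j : ℕ) : 3 * us U j ≤ aa U j := by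
  cases j
  exacts [Nat.zero_le _, (step_facts (h.a9 _)).1]

theorem cube (j : ℕ) : 8 * aa U (j + 1) ^ 2 ≤ aa U j ^ 3 := (step_facts (h.a9 _)).2.2

theorem sq_le (j : ℕ) : aa U (j + 1) ≤ aa U j ^ 2 := by
  have h1 := h.cube j
  have h2 := Nat.pow_le_pow_right (show 0 < aa U j by have := h.a9 j; omega) (show 3 ≤ 4 by omega)
  exact (Nat.pow_le_pow_iff_left two_ne_zero).1 (by rw [← pow_mul]; norm_num; omega)

theorem idx (j : ℕ) : j + U ≤ aa U j := by
  induction j with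
  | zero => simp [aa]
  | succ j ih =>
    have := h.us3 (j + 1)
    have := h.a9 j
    simp only [us] at *
    omega

theorem ep_le {s j : ℕ} : ep U s ≤ j ↔ s < aa U j :=
  ⟨fun e => (Nat.sInf_mem (s := {j | s < aa U j})
    ⟨s, show s < aa U s by have := h.idx s; have := h.u; omega⟩).trans_le (aa_mono U e),
    fun e => Nat.sInf_le e⟩

theorem lt_aa (s : ℕ) : s < aa U (ep U s) := h.ep_le.1 le_rfl

theorem le_ep {s j : ℕ} : j ≤ ep U s ↔ us U j ≤ s := by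
  cases j
  · simp [us]
  · rw [Nat.succ_le_iff, ← not_le, h.ep_le, not_lt, us]

theorem us_ep (s : ℕ) : us U (ep U s) ≤ s := h.le_ep.1 le_rfl

theorem ep_eq {s j : ℕ} (h1 : us U j ≤ s) (h2 : s < aa U j) : ep U s = j :=
  le_antisymm (h.ep_le.2 h2) (h.le_ep.2 h1)

theorem us_lt (j : ℕ) : us U j < aa U j := by
  have := h.us3 j
  have := h.a9 j
  omega

theorem ep_us (j : ℕ) : ep U (us U j) = j := h.ep_eq le_rfl (h.us_lt j)

theorem ep_mono {s t : ℕ} (e : s ≤ t) : ep U s ≤ ep U t := h.le_ep.2 ((h.us_ep s).trans e)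

/-- the master inequality -/
theorem master (j : ℕ) : 10 ^ 9 * (d + 3) ^ 2 * (us U j + 1) * log (aa U j) ≤ aa U j := by
  have h1 := h.lg (aa U j) (by exact_mod_cast le_aa U j)
  have h2 : (us U j + 1) ^ 5 ≤ 32 * aa U j ^ 4 := by
    cases j
    · have := pow_pos (show 0 < aa U 0 by have := h.a9 0; omega) 4
      simp only [us]
      omega
    · rename_i j
      have h3 := (step_facts (h.a9 j)).2.1
      have h4 := Nat.pow_le_pow_left (show aa U j + 1 ≤ 2 * aa U j by have := h.a9 j; omega) 5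
      rw [mul_pow] at h4
      simp only [us, aa]
      omega
  have h3 : ((us U j : ℝ) + 1) ^ 5 ≤ 32 * (aa U j : ℝ) ^ 4 := by exact_mod_cast h2
  have h4 : 0 ≤ log (aa U j) := log_natCast_nonneg _
  refine le_of_pow_le_pow_left₀ (n := 5) (by norm_num) (Nat.cast_nonneg _) ?_
  calc _ = (2 * (10 ^ 9 * (d + 3) ^ 2) * log (aa U j)) ^ 5 * ((us U j : ℝ) + 1) ^ 5 / 32 := by ring
    _ ≤ aa U j * (32 * (aa U j : ℝ) ^ 4) / 32 := by gcongr
    _ = _ := by ring

/-- powers of the scale are small exponentials -/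
theorem pw (j n : ℕ) {c : ℝ} (hc : 0 ≤ c) (hn : n ≤ c * (10 ^ 9 * (d + 3) ^ 2 * (us U j + 1))) :
    (aa U j : ℝ) ^ n ≤ exp (c * aa U j) := by
  have h0 := h.a9' j
  have h4 : 0 ≤ log (aa U j) := log_natCast_nonneg _
  rw [← exp_log (show (0 : ℝ) < aa U j by linarith), ← exp_nat_mul, exp_log (by linarith),
    exp_le_exp]
  refine (mul_le_mul_of_nonneg_right hn h4).trans ?_
  rw [mul_assoc]
  exact mul_le_mul_of_nonneg_left (h.master j) hc

theorem pw' (j n : ℕ) {c : ℝ} (hc : 0 ≤ c) (hn : n ≤ c * (10 ^ 9 * (d + 3) ^ 2)) :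
    (aa U j : ℝ) ^ n ≤ exp (c * aa U j) :=
  h.pw j n hc (hn.trans (mul_le_mul_of_nonneg_left
    (le_mul_of_one_le_right (by positivity) (by simp)) hc))

theorem pw1 (j n : ℕ) {c : ℝ} (hc : 0 ≤ c) (hn : n ≤ c * 10 ^ 9) :
    (aa U j : ℝ) ^ n ≤ exp (c * aa U j) :=
  h.pw' j n hc (hn.trans (mul_le_mul_of_nonneg_left (le_mul_of_one_le_right (by positivity)
    (one_le_pow₀ (by linarith [Nat.cast_nonneg (α := ℝ) d]))) hc))

theorem d_le : d ≤ U := by
  have h1 := h.master 0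
  have h2 : (1 : ℝ) ≤ log (aa U 0) := by
    rw [le_log_iff_exp_le (by linarith [h.a9' 0])]
    linarith [exp_one_lt_d9, h.a9' 0]
  have h3 : (0 : ℝ) ≤ d := Nat.cast_nonneg d
  simp only [us, aa] at h1 h2
  have : (d : ℝ) ≤ U := by nlinarith [mul_le_mul_of_nonneg_left h2 (sq_nonneg (d + 3 : ℝ))]
  exact_mod_cast this

end Big

/-- the small parameter of round `s` -/
noncomputable def es (U s : ℕ) : ℝ := exp (-(log 2 * s / 200)) / (U : ℝ) ^ 4

theorem es_pow (U s : ℕ) : es U s ^ 200 = 1 / (2 ^ s * (U : ℝ) ^ 800) := by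
  rw [es, div_pow, ← exp_nat_mul, ← pow_mul, show ((200 : ℕ) : ℝ) * -(log 2 * s / 200) =
    -(s * log 2) by push_cast; ring, exp_neg, exp_nat_mul, exp_log two_pos]
  field_simp

theorem es_le {U : ℕ} (hU : 1 ≤ U) (s : ℕ) : es U s ≤ exp (-(s / 400)) := by
  refine (div_le_self (exp_pos _).le (one_le_pow₀ (by exact_mod_cast hU))).trans ?_
  rw [exp_le_exp]
  nlinarith [log_two_gt_d9, Nat.cast_nonneg (α := ℝ) s]

/-- radius of the influence of the epochs before `j` -/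
def rr (U j : ℕ) : ℕ := 60 * us U j ^ (8000 * (us U j + 2))

/-- the parameters of round `s` -/
noncomputable def pq (U k M s : ℕ) : Par where
  P := aa U (ep U s)
  e := es U s
  μJ := 16 * es U (us U (ep U s)) ^ 200
  θ := 1 / 10 ^ 7 - 4 / (s + U)
  ζ := 3 / 4 - 4 / (s + U)
  B := exp (60 * (s + 1) * (aa U (ep U s) : ℝ) ^ 3)
  l := aa U (ep U s) ^ (8000 * (s + 1)) * if k ≤ ep U s then M else 1
  start := decide (s = us U (ep U s))
  fin := decide (k ≤ ep U s)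
  last := decide (s + 1 = aa U k)

/-- the schedule -/
noncomputable def sch (U k M : ℕ) : Sched where
  q := pq U k M
  k := k
  u := us U
  r := rr U
  J := fun j => aa U j / 3
  α := fun j => (aa U j : ℝ) ^ 2
  r0 := 0
  a0 := 5 * (U : ℝ) ^ 2

end Pool.Agent.P.MP_d0f69c_mp.XS
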