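import Pool.Agent.P.MP_d0f69c_mp.XS.PSch1
import Pool.Agent.P.MP_d0f69c_mp.XS.Sch1

/-!
The schedule of the preparation stage, part 2: lengths and levels.
-/

set_option autoImplicit false
set_option maxRecDepth 8000
set_option linter.dupNamespace false
set_option linter.unusedSectionVars false

open Finset Real

namespace Pool.Agent.P.MP_d0f69c_mp.XS.Pre.Cn

variable (c : Cn)

noncomputable def Lg : ℕ := c.P ^ 60 * ⌈1 / c.η⌉₊ ^ 2
noncomputable def D3 (s : ℕ) : ℕ := c.P ^ 8 * (c.Lg ^ 3 * c.l s)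
noncomputable def δ (s : ℕ) : ℝ := if c.T1 ≤ s then (c.P : ℝ) ^ 4 * c.m s else 0
/-- the level at distance class `j` -/
noncomputable def Hj (s j : ℕ) : ℝ := min (c.γ s) (c.H0 s * (c.y : ℝ) ^ j)
noncomputable def H2 (s j : ℕ) : ℝ :=
  (1 + 1000 * c.kap s * (c.y : ℝ) ^ 3) * (c.Hj s j + c.δ s) + 10 ^ 4 * (10 ^ 4 * c.m s)

theorem l_succ (s : ℕ) : c.l (s + 1) = c.Lg ^ 2 * c.l s := by
  rw [l, l, Lg, ← mul_assoc, ← pow_add, show 2 * (s + 1) = 2 + 2 * s by ring]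

theorem B_succ (s : ℕ) : c.B (s + 1) = c.B s * exp (20 * (c.P : ℝ) ^ 3) ^ 2 := by
  rw [B, B, mul_assoc, ← pow_add, show 2 * (s + 1) = 2 * s + 2 by ring]

namespace OK

variable {c} (h : c.OK)
include h

theorem x8 : (10 : ℝ) ^ 30 ≤ (c.y : ℝ) ^ 8 := by
  simpa using h.pc' (a := 0) (b := 8) (by norm_num) le_rfl

theorem Pexp {a : ℕ} (e : a ≤ 10 ^ 6) : (c.P : ℝ) ^ a ≤ exp ((c.y : ℝ) ^ 8) := by
  rw [P_eq, ← pow_mul]
  refine (pexp _).trans (exp_le_exp.2 ?_)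
  have b : (a : ℝ) ≤ 10 ^ 6 := by exact_mod_cast e
  have := h.pc' (a := 1) (b := 8) (t := 400 * a) (by norm_num) (by linarith)
  push_cast
  linarith

theorem inv_le : 1 / c.η ≤ exp ((c.y : ℝ) ^ 8) := by
  have := one_div_le_one_div_of_le (exp_pos _) h.η0
  rwa [exp_neg, one_div (exp _)⁻¹, inv_inv] at this

theorem inv_pow (a : ℕ) : 1 / c.η ^ a ≤ exp (a * (c.y : ℝ) ^ 8) := by
  rw [exp_nat_mul, ← one_div_pow]
  exact pow_le_pow_left₀ (one_div_pos.2 h.ηpos).le h.inv_le a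

theorem ec {t : ℝ} (ht : t ≤ 10 ^ 30) : t ≤ exp ((c.y : ℝ) ^ 8) := by
  linarith [add_one_le_exp ((c.y : ℝ) ^ 8), h.x8]

theorem Lg1 : 1 ≤ c.Lg := Nat.mul_pos (pow_pos (by exact_mod_cast h.P0) _)
  (pow_pos (Nat.ceil_pos.2 (one_div_pos.2 h.ηpos)) 2)

theorem Lg_le : (c.Lg : ℝ) ≤ exp (5 * (c.y : ℝ) ^ 8) := by
  have a : (⌈1 / c.η⌉₊ : ℝ) ≤ exp ((c.y : ℝ) ^ 8) ^ 2 := by
    have := Nat.ceil_lt_add_one (one_div_pos.2 h.ηpos).le
    nlinarith [h.inv_le, h.ec (t := 2) (by norm_num)]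
  calc (c.Lg : ℝ) = (c.P : ℝ) ^ 60 * (⌈1 / c.η⌉₊ : ℝ) ^ 2 := by simp [Lg]
    _ ≤ exp ((c.y : ℝ) ^ 8) * (exp ((c.y : ℝ) ^ 8) ^ 2) ^ 2 := by
      gcongr; exact h.Pexp (by norm_num)
    _ = _ := by rw [← pow_mul, ← pow_succ', ← exp_nat_mul]; norm_num

theorem l_lo (s : ℕ) : c.l1 + 2 * c.y ^ 72 ≤ c.l s :=
  Nat.le_mul_of_pos_left _ (pow_pos h.Lg1 _)

theorem l_mono {s t : ℕ} (e : s ≤ t) : c.l s ≤ c.l t :=
  Nat.mul_le_mul_right _ (Nat.pow_le_pow_right h.Lg1 (by omega))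

theorem l1e : (c.l1 : ℝ) ≤ exp (3 * (c.y : ℝ) ^ 8) := h.l1.trans (by simpa using h.inv_pow 3)

theorem D3_le {s : ℕ} (hs : s ≤ c.T) : 200 * (c.D3 s : ℝ) + 1 ≤ exp ((c.y : ℝ) ^ 19) := by
  have x0 := h.x0
  have a : ((c.l1 + 2 * c.y ^ 72 : ℕ) : ℝ) ≤ exp ((c.y : ℝ) ^ 8) ^ 4 := by
    have b := h.l1e
    have e := (h.pc' (a := 72) (b := 400) (t := 2) (by norm_num) (by norm_num)).trans
      (c.P_eq.ge.trans (by simpa using h.Pexp (a := 1) (by norm_num)))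
    have f := h.ec (t := 2) (by norm_num)
    rw [show (3 : ℝ) = (3 : ℕ) by norm_num, exp_nat_mul] at b
    push_cast
    nlinarith [pow_le_pow_left₀ (by norm_num) f 2, pow_le_pow_left₀ (by norm_num) f 3]
  have b : (c.D3 s : ℝ) ≤ exp ((c.y : ℝ) ^ 8) * (exp (5 * (c.y : ℝ) ^ 8) ^ 3 *
      (exp (5 * (c.y : ℝ) ^ 8) ^ (2 * s) * exp ((c.y : ℝ) ^ 8) ^ 4)) := by
    rw [D3, l, ← Lg, Nat.cast_mul, Nat.cast_mul, Nat.cast_mul, Nat.cast_pow, Nat.cast_pow,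
      Nat.cast_pow]
    gcongr
    exacts [h.Pexp (by norm_num), h.Lg_le, h.Lg_le]
  simp only [← exp_nat_mul, ← exp_add] at b
  have e := mul_le_mul_of_nonneg_right (h.sle (s := s) (by omega)) (pow_pos x0 8).le
  have f := h.pc' (a := 18) (b := 19) (t := 21) (by norm_num) (by norm_num)
  have g := h.pw (show 8 ≤ 18 by norm_num)
  have k : (c.D3 s : ℝ) ≤ exp (20 * (c.y : ℝ) ^ 18) := b.trans (exp_le_exp.2 (by
    push_cast
    nlinarith [mul_nonneg (Nat.cast_nonneg (α := ℝ) s) (pow_pos x0 8).le]))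
  have k1 : 1 ≤ exp (20 * (c.y : ℝ) ^ 18) := one_le_exp (by positivity)
  calc _ ≤ 201 * exp (20 * (c.y : ℝ) ^ 18) := by linarith
    _ ≤ exp ((c.y : ℝ) ^ 8) * exp (20 * (c.y : ℝ) ^ 18) := by
      gcongr; exact h.ec (by norm_num)
    _ ≤ _ := by rw [← exp_add]; exact exp_le_exp.2 (by linarith)

theorem Ub {a : ℕ} {t : ℝ} (e : t ≤ a) : exp t ≤ (c.P : ℝ) ^ a := by
  refine (exp_le_exp.2 e).trans ?_
  rw [← mul_one (a : ℝ), exp_nat_mul]
  exact pow_le_pow_left₀ (exp_pos _).le (by linarith [exp_one_lt_d9, h.P30]) a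

theorem D3_U {s : ℕ} (hs : s ≤ c.T) : 200 * c.D3 s + 1 ≤ c.P ^ c.y ^ 24 := by
  exact_mod_cast (h.D3_le hs).trans (h.Ub (a := c.y ^ 24) (by
    push_cast; exact h.pw (by norm_num)))

theorem D3_vol {s : ℕ} (hs : s ≤ c.T) :
    (200 * (c.D3 s : ℝ) + 1) ^ (c.y ^ 8 + 2) ≤ exp ((c.P : ℝ) ^ 2) := by
  refine (pow_le_pow_left₀ (by positivity) (h.D3_le hs) _).trans ?_
  rw [← exp_nat_mul, P_eq, ← pow_mul]
  have a := h.pc' (a := 27) (b := 800) (t := 3) (by norm_num) (by norm_num)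
  have b := h.pw (show 19 ≤ 27 by norm_num)
  refine exp_le_exp.2 ?_
  push_cast
  linarith

theorem B1 (s : ℕ) : 1 ≤ c.B s := one_le_mul_of_one_le_of_one_le
  (one_le_one_div (pow_pos h.ηpos 2) (pow_le_one₀ h.ηpos.le h.η_one))
  (one_le_pow₀ (one_le_exp (by positivity)))

theorem B3 {s : ℕ} (hs : s ≤ c.T) : c.B s * exp (20 * (c.P : ℝ) ^ 3) ^ 3 ≤
    exp (60 * (c.y : ℝ) ^ 24 * (c.P : ℝ) ^ 3) := by
  refine (mul_le_mul_of_nonneg_right (mul_le_mul_of_nonneg_right (h.inv_pow 2) (by positivity))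
    (by positivity)).trans ?_
  simp only [← exp_nat_mul, ← exp_add]
  have a := (h.sle (s := s) (by omega)).trans (h.pw (show 10 ≤ 23 by norm_num))
  have b := h.pc' (a := 23) (b := 24) (t := 2) (by norm_num) (by norm_num)
  have e : (c.y : ℝ) ^ 8 ≤ (c.P : ℝ) ^ 3 := by rw [P_eq, ← pow_mul]; exact h.pw (by norm_num)
  have f := pow_pos h.P0 3
  refine exp_le_exp.2 ?_
  push_cast
  nlinarith [mul_nonneg (Nat.cast_nonneg (α := ℝ) s) f.le]

theorem yP {a : ℕ} (e : a < 400) {t : ℝ} (ht : t ≤ 10 ^ 30) : t * (c.y : ℝ) ^ a ≤ c.P :=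
  (h.pc' e ht).trans c.P_eq.ge

theorem B6 {s : ℕ} (hs : s ≤ c.T) : c.B s * exp (20 * (c.P : ℝ) ^ 3) ^ 3 ≤ exp ((c.P : ℝ) ^ 6) := by
  refine (h.B3 hs).trans (exp_le_exp.2 ?_)
  have a := mul_le_mul_of_nonneg_right (h.yP (a := 24) (t := 60) (by norm_num) (by norm_num))
    (pow_pos h.P0 3).le
  have := h.pP (show 4 ≤ 6 by norm_num)
  linarith

theorem ηexp {a : ℕ} (e : a ≤ 10 ^ 6) : exp (-(2 * (c.y : ℝ) ^ 8)) ≤ c.η / (c.P : ℝ) ^ a := by
  rw [le_div_iff₀ (pow_pos h.P0 _)]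
  refine (mul_le_mul_of_nonneg_left (h.Pexp e) (exp_pos _).le).trans (le_trans (le_of_eq ?_) h.η0)
  rw [← exp_add]; congr 1; ring

theorem expP {t : ℝ} (ht : t ≤ 10 ^ 30) : exp (-(c.P : ℝ)) ≤ exp (-(t * (c.y : ℝ) ^ 8)) :=
  exp_le_exp.2 (neg_le_neg (h.yP (by norm_num) ht))

/-! ### the levels -/

theorem γ0 (s : ℕ) : c.η ≤ c.γ s := by
  have := h.ηpos
  rw [γ, mul_assoc]
  exact le_mul_of_one_le_right this.le (one_le_mul_of_one_le_of_one_le (one_le_pow₀ h.x1)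
    (le_add_of_nonneg_right (Nat.cast_nonneg _)))

theorem H0l (s : ℕ) : 10 ^ 6 * c.m s ≤ c.H0 s := by
  have := h.mpos s; have := h.P0
  rw [H0, mul_add, mul_comm]
  exact le_add_of_nonneg_right (by positivity)

theorem H0u {s : ℕ} (hs : s ≤ c.T) : c.H0 s ≤ c.m s * (2 * (c.P : ℝ) ^ 6) := by
  refine mul_le_mul_of_nonneg_left ?_ (h.mpos s).le
  have a : ((s - c.T1 : ℕ) : ℝ) ≤ c.P := by linarith [h.sP (s := s - c.T1) (by omega)]
  have b := h.pPc (a := 0) (b := 6) (t := 10 ^ 6) (by norm_num) (by norm_num)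
  nlinarith [pow_pos h.P0 5]

theorem Hj0 (s j : ℕ) : 0 ≤ c.Hj s j := le_min (h.ηpos.le.trans (h.γ0 s))
  (mul_nonneg (le_trans (by have := h.mpos s; positivity) (h.H0l s)) (pow_pos h.x0 _).le)

theorem Hj_step (s : ℕ) {j j' : ℕ} (e : j' ≤ j + 1) : c.Hj s j' ≤ c.y * c.Hj s j := by
  rw [Hj, Hj, mul_min_of_nonneg _ _ h.x0.le]
  refine min_le_min (le_mul_of_one_le_left (h.ηpos.le.trans (h.γ0 s)) h.x1) ?_
  rw [mul_left_comm, ← pow_succ']
  exact mul_le_mul_of_nonneg_left (h.pw e) (le_trans (by have := h.mpos s; positivity) (h.H0l s))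

theorem δ0 (s : ℕ) : 0 ≤ c.δ s := by
  have := h.mpos s
  unfold δ; split_ifs; exacts [by positivity, le_rfl]

theorem δle (s : ℕ) : c.δ s ≤ (c.P : ℝ) ^ 4 * c.m s := by
  have := h.mpos s
  unfold δ; split_ifs; exacts [le_rfl, by positivity]

/-- small multiples of `m` -/
theorem mP (s : ℕ) {a : ℕ} (e : a < 230) {t : ℝ} (ht : t ≤ 10 ^ 30) :
    t * (c.P : ℝ) ^ a * c.m s ≤ c.η :=
  (mul_le_mul_of_nonneg_right (h.pPc e ht) (h.mpos s).le).trans ((mul_comm _ _).trans_le (h.mle' s))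

theorem H2le (s j : ℕ) : c.H2 s j ≤ 2 * c.Hj s j + 3 * (c.P : ℝ) ^ 4 * c.m s := by
  have a := mul_le_mul_of_nonneg_right (h.kap3 s) (add_nonneg (h.Hj0 s j) (h.δ0 s))
  have b := mul_le_mul_of_nonneg_right (h.pPc (a := 0) (b := 4) (t := 10 ^ 8) (by norm_num)
    (by norm_num)) (h.mpos s).le
  unfold H2
  linarith [h.δle s, h.Hj0 s j, h.δ0 s]

theorem H2g {s : ℕ} (hs : s ≤ c.T) (j : ℕ) : 2 * (c.H2 s j + 10 ^ 4 * c.m s) ≤ c.η * c.P := by
  have a : c.Hj s j ≤ c.η * (c.y : ℝ) ^ 24 * (c.y : ℝ) ^ 10 := (min_le_left _ _).trans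
    (mul_le_mul_of_nonneg_left (h.sle (by omega)) (mul_pos h.ηpos (pow_pos h.x0 _)).le)
  have b := mul_le_mul_of_nonneg_left (h.yP (a := 34) (t := 8) (by norm_num) (by norm_num))
    h.ηpos.le
  have e := h.mP s (a := 4) (t := 6) (by norm_num) (by norm_num)
  have f := h.mP s (a := 0) (t := 2 * 10 ^ 4) (by norm_num) (by norm_num)
  have g := mul_le_mul_of_nonneg_left h.P30 h.ηpos.le
  linarith [h.H2le s j, h.ηpos]

theorem epsP (s : ℕ) : 1 / (c.P : ℝ) ^ 4 ≤ c.eps s := by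
  have := h.epsl s
  rw [mul_div_assoc] at this
  linarith [h.P4, show 0 ≤ 1 / (c.P : ℝ) ^ 4 by positivity]

theorem H2η {s : ℕ} (hs : s ≤ c.T) : c.H2 s 0 + 10 ^ 4 * c.m s ≤ c.eps s * c.η / 100 := by
  have a : c.Hj s 0 ≤ c.m s * (2 * (c.P : ℝ) ^ 6) :=
    (min_le_right _ _).trans (by rw [pow_zero, mul_one]; exact h.H0u hs)
  have b := mul_le_mul_of_nonneg_right (h.pP (show 4 ≤ 6 by norm_num)) (h.mpos s).le
  have e := mul_le_mul_of_nonneg_right (h.pPc (a := 0) (b := 6) (t := 10 ^ 4) (by norm_num)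
    (by norm_num)) (h.mpos s).le
  have f : 800 * (c.P : ℝ) ^ 6 * c.m s ≤ 1 / (c.P : ℝ) ^ 4 * c.η := by
    rw [one_div, ← div_eq_inv_mul, le_div_iff₀ (pow_pos h.P0 _)]
    linarith [h.mP s (a := 10) (t := 800) (by norm_num) (by norm_num)]
  linarith [h.H2le s 0, mul_le_mul_of_nonneg_right (h.epsP s) h.ηpos.le]

theorem H20 (s j : ℕ) : 0 ≤ c.H2 s j := by
  have := h.kap0 s; have := h.Hj0 s j; have := h.δ0 s; have := h.mpos s
  unfold H2; positivity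

theorem H2h (s : ℕ) : c.kap s * (c.y : ℝ) ^ 3 * c.H2 s 0 ≤ c.m s / 10 ^ 4 := by
  have m0 := h.mpos s
  by_cases e : s < c.T1
  · have a : c.Hj s 0 ≤ 10 ^ 6 * c.m s := (min_le_right _ _).trans (by
      simp [H0, Nat.sub_eq_zero_of_le e.le, mul_comm])
    have b : c.H2 s 0 ≤ 10 ^ 9 * c.m s := by
      have := mul_le_mul_of_nonneg_right (h.kap3 s) (h.Hj0 s 0)
      rw [H2, δ, if_neg e.not_ge]
      linarith [h.Hj0 s 0]
    nlinarith [mul_le_mul (h.kap3 s) b (h.H20 s 0) (by norm_num)]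
  · rw [kap, if_neg e, zero_mul, zero_mul]; positivity

theorem H2n (s j : ℕ) : c.H2 s j + 10 ^ 4 * c.m s ≤ c.Hj (s + 1) j := by
  have m0 := h.mpos s
  have y1 : 1 ≤ (c.y : ℝ) ^ j := one_le_pow₀ h.x1
  have g1 : c.γ (s + 1) = c.γ s + c.η * (c.y : ℝ) ^ 24 := by simp only [γ]; push_cast; ring
  have g2 : c.η ≤ c.η * (c.y : ℝ) ^ 24 := le_mul_of_one_le_right h.ηpos.le (one_le_pow₀ h.x1)
  have a1 : c.Hj s j ≤ c.γ s := min_le_left _ _
  have a2 : c.Hj s j ≤ c.H0 s * (c.y : ℝ) ^ j := min_le_right _ _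
  have f := h.mP s (a := 0) (t := 10 ^ 9) (by norm_num) (by norm_num)
  have my := mul_le_mul_of_nonneg_left y1 m0.le
  by_cases e : s < c.T1
  · have k1 := mul_le_mul_of_nonneg_right (h.kap3 s) (h.Hj0 s j)
    rw [H2, δ, if_neg e.not_ge]
    refine le_min ?_ ?_
    · have b : c.γ s ≤ c.η * (c.y : ℝ) ^ 24 * (c.y : ℝ) ^ 4 := by
        refine mul_le_mul_of_nonneg_left ?_ (h.ηpos.le.trans g2)
        have : 1 + s ≤ c.y ^ 2 := by have := h.T1le; omega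
        exact le_trans (by exact_mod_cast this) (h.pw (show 2 ≤ 4 by norm_num))
      have k := mul_le_mul (h.kapy s) (a1.trans b) (h.Hj0 s j) (by positivity)
      rw [show 1 / (c.y : ℝ) ^ 4 / 10 ^ 20 * (c.η * (c.y : ℝ) ^ 24 * (c.y : ℝ) ^ 4) =
        c.η * (c.y : ℝ) ^ 24 / 10 ^ 20 by have := h.x0; field_simp] at k
      linarith [h.ηpos]
    · simp only [H0, Nat.sub_eq_zero_of_le e.le, Nat.sub_eq_zero_of_le (Nat.succ_le_of_lt e),
        h.m_early e, Nat.cast_zero, zero_mul, add_zero] at a2 ⊢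
      linarith [h.Hj0 s j]
  · have e' := not_lt.1 e
    rw [H2, δ, if_pos e', kap, if_neg e]
    refine le_min (by linarith [h.mP s (a := 4) (t := 2) (by norm_num) (by norm_num), h.ηpos]) ?_
    have b : c.H0 (s + 1) = c.H0 s + c.m s * (c.P : ℝ) ^ 5 := by
      rw [H0, H0, m_late e', show s + 1 - c.T1 = s - c.T1 + 1 by omega]; push_cast; ring
    have k1 := mul_le_mul_of_nonneg_left (h.pPc (a := 4) (b := 5) (t := 2) (by norm_num)
      (by norm_num)) m0.le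
    have k2 := mul_le_mul_of_nonneg_left (h.pPc (a := 0) (b := 5) (t := 10 ^ 9) (by norm_num)
      (by norm_num)) m0.le
    have k3 := mul_le_mul_of_nonneg_left y1 (mul_pos m0 (pow_pos h.P0 5)).le
    rw [b]
    linarith

theorem m_mono (s : ℕ) : c.m s ≤ c.m (s + 1) := by
  by_cases e : s < c.T1
  · linarith [h.m_early e, h.mpos s]
  · exact (m_late (not_lt.1 e)).ge

theorem n_mono (s : ℕ) : c.n4 s ≤ c.n4 (s + 1) := div_le_div_of_nonneg_right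
  (pow_le_pow_left₀ (h.mpos s).le (h.m_mono s) 2) (pow_pos h.P0 _).le

theorem nOn (s : ℕ) : c.nO s + √(c.nO s * c.n4 s) / 50 + c.n4 s / 400 ≤
    c.nO (s + 1) - c.n4 (s + 1) / 100 := by
  have n0 := h.npos s
  have a : √(c.nO s * c.n4 s) = c.n4 s * (1 + (s - c.T1 : ℕ)) := by
    rw [sqrt_eq_iff_mul_self_eq (mul_nonneg (n0.le.trans (h.nO1 s)) n0.le) (by positivity), nO]
    ring
  rw [a, nO, nO]
  by_cases e : s < c.T1
  · have b : c.n4 (s + 1) = 4096 ^ 2 * c.n4 s := by rw [n4, n4, h.m_early e]; ring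
    simp only [Nat.sub_eq_zero_of_le e.le, Nat.sub_eq_zero_of_le (Nat.succ_le_of_lt e), b,
      Nat.cast_zero]
    linarith
  · have e' := not_lt.1 e
    rw [show c.n4 (s + 1) = c.n4 s by rw [n4, n4, m_late e'],
      show s + 1 - c.T1 = s - c.T1 + 1 by omega]
    push_cast
    nlinarith [mul_nonneg n0.le (Nat.cast_nonneg (α := ℝ) (s - c.T1))]

theorem sgn (s : ℕ) : c.sg s + c.δ s ≤ c.sg (s + 1) := by
  have := mul_le_mul_of_nonneg_left (h.mle s) (pow_pos h.P0 4).le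
  simp only [sg]; push_cast
  linarith [h.δle s]

theorem sgu {s : ℕ} (hs : s ≤ c.T + 1) : c.sg s ≤ c.η / (c.y : ℝ) ^ 8 := by
  have P0 := h.P0
  have a : (s : ℝ) ≤ c.P := by linarith [h.sP hs]
  refine (mul_le_mul_of_nonneg_right a (by have := h.ηpos; positivity)).trans ?_
  rw [show (c.P : ℝ) * ((c.P : ℝ) ^ 4 * (c.η / (c.P : ℝ) ^ 230)) = c.η / (c.P : ℝ) ^ 225 by
    field_simp]
  exact div_le_div_of_nonneg_left h.ηpos.le (pow_pos h.x0 _) (by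
    rw [P_eq, ← pow_mul]; exact h.pw (by norm_num))

theorem big : Big ((c.y ^ 8 + 3) * (c.y ^ 8) ^ 3) c.P := by
  refine ⟨by exact_mod_cast le_trans (show (10 : ℝ) ^ 9 ≤ _ by norm_num) h.P30, fun x hx => ?_⟩
  obtain ⟨z, z0, rfl⟩ : ∃ z : ℝ, 0 ≤ z ∧ z ^ 50 = x := ⟨_, rpow_nonneg (h.P0.le.trans hx) _,
    rpow_inv_natCast_pow (h.P0.le.trans hx) (by norm_num)⟩
  have a : (c.y : ℝ) ^ 8 ≤ z := le_of_pow_le_pow_left₀ (n := 50) (by norm_num) z0 (by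
    rwa [← pow_mul, ← c.P_eq])
  have b := h.x8
  have e : log z ≤ z := (log_le_sub_one_of_pos (by linarith)).trans (by linarith)
  have f : 0 ≤ log z := log_nonneg (by linarith)
  rw [log_pow, show 50 = 10 * 5 from rfl, pow_mul]
  push_cast
  generalize (c.y : ℝ) ^ 8 = u at *
  have g : (u + 3) * u ^ 3 + 3 ≤ 2 * z ^ 4 := by
    have := pow_le_pow_left₀ (by linarith) a 4
    nlinarith [one_le_pow₀ (n := 3) (show 1 ≤ u by linarith)]
  refine pow_le_pow_left₀ (by positivity) ?_ 5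
  calc _ ≤ 2 * (10 ^ 9 * (2 * z ^ 4) ^ 2) * (50 * z) := by gcongr
    _ = 4 * 10 ^ 11 * z ^ 9 := by ring
    _ ≤ z * z ^ 9 := by gcongr; linarith
    _ = _ := by ring

end OK

end Pool.Agent.P.MP_d0f69c_mp.XS.Pre.Cn
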