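import Pool.Agent.P.MP_d0f69c_mp.XS.PSch2
import Pool.Agent.P.MP_d0f69c_mp.XS.PIf
import Pool.Agent.P.MP_d0f69c_mp.XS.PStat2
import Pool.Agent.P.MP_d0f69c_mp.XS.RefSb

/-!
The schedule of the preparation stage, part 3: the parameters of the rounds are admissible.
-/

set_option autoImplicit false
set_option maxRecDepth 8000
set_option linter.dupNamespace false
set_option linter.unusedSectionVars false

open Finset Real
open scoped Matrix

namespace Pool.Agent.P.MP_d0f69c_mp.XS.Pre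

variable {d M : ℕ} [NeZero M]

/-- the distance class -/
def cls (k : ℕ) (z : Tor d M) : ℕ := (n1 z + k) / (k + 1)

/-- the near kernel seen from the origin -/
noncomputable def Kq (l : Lv) (a : Matrix (Tor d M) (Tor d M) ℝ) (z : Tor d M) : ℝ := Kn l a 0 z

/-- the parameters of round `s` -/
noncomputable def qq (E : PEnv d M) (c : Cn) (K : Tor d M → ℝ) (s : ℕ) : PPar d M where
  P := c.P
  e := (c.η / (c.P : ℝ) ^ 201) ^ ((200 : ℕ) : ℝ)⁻¹
  μJ := c.η / (c.P : ℝ) ^ 200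
  θ := c.θ s
  ζ := 1 / 2
  B := c.B s
  l := c.l s
  start := false
  fin := false
  last := false
  nw := decide (c.T1 ≤ s)
  kap := c.kap s
  eps := c.eps s
  nu := c.nu s
  hb := 10 ^ 4 * c.m s
  n4 := c.n4 s
  nO := c.nO s
  gam := c.η * c.P
  m1 := c.m s
  ρ := c.y
  C0 := 2000
  H := fun z => c.Hj s (cls c.k' z)
  Kk := fun z => if s < c.T1 then K z else 0
  L := d ^ 7
  sg := c.sg s
  l1 := 4 ^ c.T1 / 2 / 4 ^ s
  l2 := 4 ^ c.T / 2 / 4 ^ s
  iso := if s < c.T1 then ∅ else if s < c.T then E.nb1 else E.nb2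

/-- what the reference provides -/
structure Hy (E : PEnv d M) (c : Cn) (l l' : Lv) (a a' : Matrix (Tor d M) (Tor d M) ℝ) : Prop where
  ok : c.OK
  hd : d = c.y ^ 8
  env : E.toEnv.OK
  η : E.η = c.η
  CS : E.CS ≤ (d : ℝ) ^ 10
  l0 : E.l0 ≤ c.l1
  rH : E.rH = d ^ 9
  ρ : c.P ^ c.y ^ 24 ≤ E.ρ1
  gt : ∑ x, E.gt x ^ 2 ≤ c.η ^ 2 / (c.G ^ 2 * (c.P : ℝ) ^ 1060)
  sh : ∀ (h : Tor d M) (F : Tor d M → ℝ), ∑ x, (F (x + h) - F x) ^ 2 ≤
    1000 * (1 + (nm h : ℝ) ^ 2 / ((d : ℝ) ^ 8) ^ 2) * NF E.p F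
  nb1 : ∀ z, z ∈ E.nb1 ↔ n1 z ≤ c.k
  nb2 : E.nb2 = bl 0 (d ^ 9)
  hLv : E.Lv = 50 * (c.P : ℝ) ^ 3
  La : E.La = (d : ℝ) ^ 4
  sM : E.sM = c.η / d
  b : LvB d c.C 25301 c.k l
  b' : LvB d c.C (48 * c.k + 30101) c.k' l'
  tr : ∀ x y z, a' (x + z) (y + z) = a' x y
  ker : ∀ ε : Tor d M → ℂ, (∀ x, ‖ε x‖ ≤ c.η / d) →
    Ker (fun x y => n1 (x - y)) l a (E.A0 + Matrix.diagonal ε) ∧
    Ker (fun x y => n1 (x - y)) l' a' (E.A0 + Matrix.diagonal ε)

variable {E : PEnv d M} {c : Cn} {l l' : Lv} {a a' : Matrix (Tor d M) (Tor d M) ℝ}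
  {K : Tor d M → ℝ}

theorem qδ (s : ℕ) : (qq E c K s).δN = c.δ s := by simp [PPar.δN, qq, Cn.δ]

theorem qH2 (s : ℕ) (z : Tor d M) : (qq E c K s).H2 z = c.H2 s (cls c.k' z) := by
  rw [PPar.H2, PPar.H1, qδ]; rfl

omit [NeZero M] in
theorem cls0 (k : ℕ) : cls k (0 : Tor d M) = 0 := by simp [cls, Rf.n1_zero]

theorem LvB.static {C : ℝ} {j k : ℕ} (b : LvB d C j k l) (ok : c.OK) (hd : d = c.y ^ 8)
    (hC : C = c.C) (o : l.OK) : 0 < l.κ ∧ 10 * l.κ ≤ 30 * c.C / (c.y : ℝ) ^ 8 ∧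
      10 ^ 4 * (√l.ν1 + l.κ ^ 2) ≤ 10 ^ 6 * c.C / (c.y : ℝ) ^ 12 ∧
      ∀ t, t * (c.y : ℝ) ^ 8 = (d : ℝ) ^ j → 100 * l.ν2 ≤ 1 / t := by
  have x0 := ok.x0
  have C1 := ok.C1
  have e1 := b.e
  have e2 := b.n0
  have dr : (d : ℝ) = (c.y : ℝ) ^ 8 := by rw [hd, Nat.cast_pow]
  rw [hC, dr] at e1 e2
  refine ⟨by have := o.e0; unfold Lv.κ; positivity, by rw [mul_div_assoc, Lv.κ]; linarith, ?_,
    fun t ht => ?_⟩
  · have k1 : √l.ν1 ≤ 40 * (c.C / (c.y : ℝ) ^ 12) := by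
      refine sqrt_le_iff.2 ⟨by positivity, (mul_le_mul_of_nonneg_left e2 (by norm_num)).trans ?_⟩
      rw [mul_pow, div_pow, ← pow_mul, ← pow_mul, ← mul_div_assoc, ← mul_div_assoc]
      exact div_le_div_of_nonneg_right (by nlinarith) (by positivity)
    have k2 : l.e ^ 2 ≤ c.C / (c.y : ℝ) ^ 12 := by
      refine (pow_le_pow_left₀ o.e0.le e1 2).trans ?_
      rw [show (c.C / (c.y : ℝ) ^ 8) ^ 2 = c.C / (c.y : ℝ) ^ 4 * (c.C / (c.y : ℝ) ^ 12) by
        field_simp]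
      exact mul_le_of_le_one_left (by positivity) ((ok.Cy (by norm_num)).trans (by norm_num))
    rw [mul_div_assoc, Lv.κ]
    linarith [show 0 ≤ c.C / (c.y : ℝ) ^ 12 by positivity]
  · have t0 : 0 < t := (mul_pos_iff_of_pos_right (pow_pos x0 8)).1 (by rw [ht, dr]; positivity)
    have := b.ν
    rw [← ht, ← div_div, le_div_iff₀ (by positivity)] at this
    have n0 : 0 ≤ l.ν := (pow_pos o.e0 _).le.trans o.hT
    unfold Lv.ν2
    nlinarith [ok.x8]

namespace Hy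

variable (h : Hy E c l l' a a')
include h

theorem dr : (d : ℝ) = (c.y : ℝ) ^ 8 := by rw [h.hd, Nat.cast_pow]

theorem dp (n : ℕ) : (d : ℝ) ^ n = (c.y : ℝ) ^ (8 * n) := by rw [h.dr, pow_mul]

theorem dn (n : ℕ) : d ^ n = c.y ^ (8 * n) := by rw [h.hd, pow_mul]

theorem k0 : Ker (fun x y => n1 (x - y)) l a (E.A0 + Matrix.diagonal 0) ∧
    Ker (fun x y => n1 (x - y)) l' a' (E.A0 + Matrix.diagonal 0) :=
  h.ker 0 fun _ => by have := h.ok.ηpos; simp only [Pi.zero_apply, norm_zero]; positivity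

theorem Ktr (v u : Tor d M) : Kn l' a' v u = Kq l' a' (u - v) := by
  have := (t_kn _ _ _ _ h.k0.2.geo).2.2.2.2 (Equiv.addRight v) (fun x y => h.tr x y v) 0 (u - v)
  simpa [Kq] using this

theorem Krg {z : Tor d M} (e : Kq l' a' z ≠ 0) : n1 z ≤ c.k' := by
  have : n1 (0 - z) ≤ c.k' := ((t_kn _ _ _ _ h.k0.2.geo).2.2.2.1 0 z e).trans h.b'.ks
  rwa [zero_sub, Rf.n1_neg] at this

theorem kl (s : ℕ) : c.k ≤ d ^ 9 ∧ c.k' ≤ d ^ 7 ∧ 2 * d ^ 9 ≤ c.l s := by
  have y := h.ok.y2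
  have a := h.ok.pwn (show 1 ≤ 8 * 9 by norm_num)
  have b := h.ok.pwn (show 1 ≤ 8 * 7 by norm_num)
  have := h.ok.y3
  have := h.ok.l_lo s
  rw [h.dn, h.dn]
  rw [pow_one] at a b
  norm_num at *
  omega

theorem D3 (s : ℕ) : (qq E c K s).D E.η 3 = c.D3 s := by rw [h.η]; rfl

theorem qμ (s : ℕ) : (qq E c K s).μ = c.η / (c.P : ℝ) ^ 201 :=
  rpow_inv_natCast_pow (div_pos h.ok.ηpos (pow_pos h.ok.P0 _)).le (by norm_num)

theorem gtP {n : ℕ} (e : n ≤ 1060) : ∑ x, E.gt x ^ 2 ≤ c.η ^ 2 / (c.G ^ 2 * (c.P : ℝ) ^ n) :=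
  h.gt.trans (div_le_div_of_nonneg_left (sq_nonneg _) (mul_pos (pow_pos (one_pos.trans_le h.ok.G1) _)
    (pow_pos h.ok.P0 _)) (mul_le_mul_of_nonneg_left (h.ok.pP e) (sq_nonneg _)))

theorem par {s : ℕ} (hs : s ≤ c.T) : (qq E c K s).toPar.OK E.toEnv := by
  have o := h.ok
  have P0 := o.P0
  have η0 := o.ηpos
  have d1 := o.D3_U hs
  have k := h.kl s
  refine ⟨?_, rpow_pos_of_pos (by positivity) _, ?_, by rw [h.η]; rfl, ?_, ?_, o.θ0 s, ?_, le_rfl,
    ?_, o.B1 s, o.B6 hs, h.l0.trans (le_trans (by omega) (o.l_lo s)), h.rH.trans_le (by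
      show _ ≤ c.l s; omega), fun e => by simp [qq] at e, fun _ => ⟨?_, ?_⟩, ?_,
    fun e => by simp [qq] at e⟩
  · have a := pow_le_pow_left₀ (zero_le_one.trans h.env.ref.c1) h.CS 2
    refine (mul_le_mul_of_nonneg_left a (by positivity)).trans ?_
    rw [← pow_mul, mul_assoc, ← pow_add, h.dp]
    exact o.yP (by norm_num) (by norm_num)
  · rw [h.qμ, ← mul_div_assoc]
    refine (div_le_div_iff₀ (by positivity) (by show 0 < (c.P : ℝ) ^ 200; positivity)).2 ?_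
    have := mul_le_mul_of_nonneg_left (o.pPc (a := 200) (b := 201) (t := 16) (by norm_num)
      (by norm_num)) η0.le
    show 16 * c.η * (c.P : ℝ) ^ 200 ≤ c.η * (c.P : ℝ) ^ 201
    linarith
  · rw [h.qμ]
    exact (o.expP (by norm_num)).trans (o.ηexp (by norm_num))
  · rw [h.η]
    simpa [qq] using (o.expP (by norm_num)).trans (o.ηexp (a := 0) (by norm_num))
  · have : 1 / (c.P : ℝ) ^ 2 ≤ 1 / 10 ^ 8 := one_div_le_one_div_of_le (by norm_num) (by
      simpa using o.pPc (a := 0) (b := 2) (t := 10 ^ 8) (by norm_num) (by norm_num))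
    show c.θ s + 1 / (c.P : ℝ) ^ 2 ≤ _
    linarith [o.θle (s := s) (by omega)]
  · have : 1 / (c.P : ℝ) ^ 2 ≤ 1 / 4 := one_div_le_one_div_of_le (by norm_num) (by
      simpa using o.pPc (a := 0) (b := 2) (t := 4) (by norm_num) (by norm_num))
    show 1 / 2 + 1 / (c.P : ℝ) ^ 2 ≤ _
    linarith
  · rw [h.D3]
    exact (congrArg (fun n => (200 * (c.D3 s : ℝ) + 1) ^ (n + 2)) h.hd).trans_le (o.D3_vol hs)
  · rw [h.D3]
    exact le_trans (by omega) h.ρ
  · refine (sum_le_univ_sum_of_nonneg fun _ => sq_nonneg _).trans ((h.gtP (n := 407)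
      (by norm_num)).trans ?_)
    rw [h.qμ, div_pow, div_div, ← pow_mul]
    refine div_le_div_of_nonneg_left (sq_nonneg _) (by show 0 < _ * (c.P : ℝ) ^ 5; positivity) ?_
    show _ * (c.P : ℝ) ^ 5 ≤ _
    rw [← pow_add]
    exact le_mul_of_one_le_left (by positivity) (one_le_pow₀ o.G1)

theorem su {s : ℕ} (ε : Tor d M → ℂ) (hε : ∀ x, ‖ε x‖ ≤ E.sM) :
    (qq E c (Kq l' a') s).StU (E.A0 + Matrix.diagonal ε) := by
  obtain ⟨k1, k2⟩ := h.ker ε (h.sM ▸ hε)
  by_cases e : s < c.T1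
  · obtain ⟨a1, a2, a3, a4⟩ := h.b'.static h.ok h.hd rfl k2.geo.ok
    refine ⟨Kn l' a', l'.κ, l'.ν1, l'.ν2, (t_kn _ _ _ _ k2.geo).1, a1, ?_, a3.trans (h.ok.epsl s),
      fun v u _ => Or.inr ⟨?_, ?_⟩, fun Y w => ?_⟩
    · simp only [qq, Cn.nu, if_pos e]
      refine a4 _ ?_
      rw [h.dp, Cn.G, c.P_eq, ← pow_mul, ← pow_mul, ← pow_add, ← pow_add,
        show 400 * 506 + (192 * c.k + 19200) * 2 + 8 = 8 * (48 * c.k + 30101) by ring]
    · simpa only [qq, Cn.kap, if_pos e] using a2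
    · simp only [qq, if_pos e, h.Ktr v u, le_rfl]
    · have := t_stat _ _ _ _ _ k2 Y w
      rwa [h.b'.L] at this
  · obtain ⟨a1, -, a3, a4⟩ := h.b.static h.ok h.hd rfl k1.geo.ok
    obtain ⟨c1, c2, -, c3, -⟩ := t_kn _ _ _ _ k1.geo
    refine ⟨Kn l a, l.κ, l.ν1, l.ν2, c1, a1, ?_, a3.trans (h.ok.epsl s),
      fun v u hu => Or.inl ?_, fun Y w => ?_⟩
    · simp only [qq, Cn.nu, if_neg e]
      refine a4 _ ?_
      rw [h.dp, c.P_eq, ← pow_mul, ← pow_add]
    · rcases hu with rfl | hu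
      · exact c2 u
      by_contra n
      have r : n1 (u - v) ≤ c.k := by
        rw [← Rf.n1_neg, neg_sub]; exact (c3 v u n).trans h.b.ks
      simp only [qq, if_neg e] at hu
      split_ifs at hu
      · exact hu ((h.nb1 _).2 r)
      · exact hu (h.nb2 ▸ mem_bl.2 (by
          rw [sub_zero]; exact (Rf.nm_le_n1 _).trans (r.trans (h.kl 0).1)))
    · have := t_stat _ _ _ _ _ k1 Y w
      rwa [h.b.L] at this

theorem KC (F : Tor d M → ℝ) :
    ∑ v, ∑ x, Kq l' a' (x - v) * (F x - F v) ^ 2 ≤ 2000 * NF E.p F := by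
  obtain ⟨-, -, kw, -⟩ := t_kn _ _ _ _ h.k0.2.geo
  have n0 := NF_nonneg h.env.ref.p0 F
  have e : ∀ v, ∑ x, Kq l' a' (x - v) * (F x - F v) ^ 2 =
      ∑ z, Kq l' a' z * (F (v + z) - F v) ^ 2 := fun v =>
    (Equiv.sum_comp (Equiv.addLeft v) _).symm.trans (by simp)
  simp only [e]
  rw [sum_comm]
  refine (sum_le_sum (g := fun z => Kq l' a' z * (2000 * NF E.p F)) fun z _ => ?_).trans ?_
  · rw [← mul_sum]
    by_cases z0 : Kq l' a' z = 0
    · rw [z0, zero_mul, zero_mul]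
    refine mul_le_mul_of_nonneg_left ((h.sh z F).trans (mul_le_mul_of_nonneg_right ?_ n0))
      (kw.nn _ _)
    have a : nm z ≤ d ^ 8 := (Rf.nm_le_n1 z).trans ((h.Krg z0).trans ((h.kl 0).2.1.trans
      (Nat.pow_le_pow_right h.env.d1 (by norm_num))))
    have b : (nm z : ℝ) ^ 2 / ((d : ℝ) ^ 8) ^ 2 ≤ 1 := div_le_one_of_le₀
      (pow_le_pow_left₀ (Nat.cast_nonneg _) (by exact_mod_cast a) 2) (sq_nonneg _)
    linarith
  · rw [← sum_mul]
    exact mul_le_of_le_one_left (by positivity) (by simpa [Kq] using kw.row 0)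

theorem qok {s : ℕ} (hs : s ≤ c.T) : (qq E c (Kq l' a') s).OK E := by
  have o := h.ok
  have P0 := o.P0
  have η0 := o.ηpos
  have m0 := o.mpos s
  have n0 := o.npos s
  have G0 := one_pos.trans_le o.G1
  have k := h.kl s
  have d1 : (1 : ℝ) ≤ d := by exact_mod_cast h.env.d1
  obtain ⟨ks, kd, kw, -⟩ := t_kn _ _ _ _ h.k0.2.geo
  have nf := fun F => NF_nonneg h.env.ref.p0 F
  have gm := o.H2g hs
  refine
    { par := h.par hs, fin := rfl, k0 := o.kap0 s, ke := ?_, e1 := ?_, nk := fun e => ?_, ν1 := ?_,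
      h1 := ?_, h2 := le_rfl, h3 := ?_, n0 := (o.expP (by norm_num)).trans (o.nexp s),
      n1 := o.nO1 s, n2 := o.nO2 hs, n3 := ?_, n4 := ?_, g1 := ?_, g2 := ?_, m0 := m0, m1 := ?_,
      gt := ?_, ρ1 := o.x1, ρ2 := (o.kap3 s).trans (by norm_num), H0 := fun z => o.Hj0 s _,
      He := fun z => by simp only [qq, cls, Rf.n1_neg], Hk := fun z w e => ?_, Hg := fun z => ?_,
      Hη := ?_, Hh := ?_, C1 := by norm_num [qq], C2 := le_trans (by norm_num [qq]) o.P30,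
      θ := (o.θstep s).trans ((o.θle (by omega)).trans (by norm_num)), K0 := fun z => ?_,
      Ks := fun z => ?_, Kd := by simp [qq, Kq, kd], K1 := ?_, Kr := fun z e => ?_, KC := fun F => ?_,
      L1 := ?_, L2 := ?_, L3 := ?_, sh := fun z F => (h.sh z F).trans ?_, b1 := fun z e => ?_,
      b2 := fun z e => ?_, Lv := h.hLv, s0 := ?_, s1 := ?_, st := fun ε e => (h.su ε e).st,
      su := h.su, ν0 := ?_, Hg2 := fun z => ?_, Hη2 := ?_, Hh2 := ?_ }
  all_goals try simp only [qH2, qδ, cls0, h.η]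
  all_goals simp only [qq] at *
  · have := o.P4
    have b : c.C / (c.y : ℝ) ^ 12 ≤ c.C / (c.y : ℝ) ^ 8 :=
      div_le_div_of_nonneg_left (by linarith [o.C1]) (pow_pos o.x0 _) (o.pw (by norm_num))
    have e := o.epsP s
    have : 0 ≤ 1 / (c.P : ℝ) ^ 4 := by positivity
    unfold Cn.kap Cn.eps at *
    split_ifs at * <;> simp only [mul_div_assoc] at * <;> linarith
  · have := o.epsu s
    rw [mul_div_assoc] at this
    linarith [o.Cy (a := 8) (by norm_num)]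
  · exact if_neg (of_decide_eq_true e).not_gt
  · unfold Cn.nu
    split_ifs
    · exact one_div_le_one_div_of_le (by positivity) ((o.pP (by norm_num)).trans
        (le_mul_of_one_le_right (by positivity) (one_le_pow₀ o.G1)))
    · exact one_div_le_one_div_of_le (by positivity) (o.pP (by norm_num))
  · rw [le_div_iff₀ (by positivity)]
    linarith [o.mP s (a := 100) (t := 10 ^ 4) (by norm_num) (by norm_num)]
  · have := pow_le_pow_left₀ (by positivity) (o.mP s (a := 62) (t := 10 ^ 8) (by norm_num)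
      (by norm_num)) 2
    calc _ = (10 ^ 8 * (c.P : ℝ) ^ 62 * c.m s) ^ 2 * c.n4 s := by rw [Cn.n4]; field_simp
      _ ≤ _ := mul_le_mul_of_nonneg_right this n0.le
  · rw [le_div_iff₀ (by positivity)]
    have := mul_le_mul_of_nonneg_left (o.pP (show 202 ≤ 484 by norm_num)) n0.le
    linarith [o.nle s, mul_le_mul_of_nonneg_right (o.nO2 hs) (pow_pos P0 200).le]
  · by_cases e : s < c.T1
    · have := (le_mul_of_one_le_right (o.kap0 s) (one_le_pow₀ o.x1)).trans (o.kap3 s)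
      simp only [Cn.nO, Nat.sub_eq_zero_of_le e.le, Nat.cast_zero]
      nlinarith
    · rw [Cn.kap, if_neg e, zero_mul]; positivity
  · refine le_trans ?_ (o.nge s)
    rw [le_div_iff₀ (by positivity)]
    have a := (le_div_iff₀ (by positivity)).1 o.η1
    have b : c.η * (c.G ^ 2 * (c.P : ℝ) ^ 688) ≤ 1 := le_trans (by gcongr; exacts [o.P1, by norm_num]) a
    have e := mul_le_mul_of_nonneg_left b (pow_pos η0 3).le
    have f := mul_le_mul_of_nonneg_left o.η_one (pow_pos η0 2).le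
    linarith
  · unfold Cn.nu
    split_ifs with e
    · refine le_trans (le_of_eq ?_) (o.nge s)
      field_simp
    · rw [Cn.n4, Cn.OK.m_late' (not_lt.1 e)]
      exact le_of_eq (by field_simp)
  · have := mul_le_mul_of_nonneg_right (o.pP (show 23 ≤ 24 by norm_num)) n0.le
    linarith [o.n_eq s, mul_le_mul_of_nonneg_left (o.nO2 hs) (pow_pos P0 21).le]
  · refine (h.gtP (n := 514) (by norm_num)).trans (le_trans (le_of_eq ?_)
      (div_le_div_of_nonneg_right (o.nge s) (by positivity)))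
    field_simp
  · refine o.Hj_step s ?_
    have := (Rf.n1_add z w).trans (Nat.add_le_add_left (h.Krg (ite_ne_right_iff.1 e).2) _)
    rw [cls, cls, ← Nat.add_div_right _ (Nat.succ_pos _)]
    exact Nat.div_le_div_right (by omega)
  · linarith [gm (cls c.k' z), o.H20 s (cls c.k' z)]
  · linarith [o.H2η hs, o.H20 s 0]
  · linarith [o.H2h s]
  · split_ifs; exacts [kw.nn _ _, le_rfl]
  · split_ifs
    · rw [← zero_sub, ← h.Ktr, ← Matrix.transpose_apply (Kn l' a'), ks, Kq]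
    · rfl
  · split_ifs
    · simpa [Kq] using kw.row 0
    · simp
  · exact (Rf.nm_le_n1 z).trans ((h.Krg (ite_ne_right_iff.1 e).2).trans k.2.1)
  · split_ifs
    · exact h.KC F
    · simpa using nf F
  · rw [h.La, Nat.cast_pow]; exact pow_le_pow_right₀ d1 (by norm_num)
  · have := Nat.pow_le_pow_right h.env.d1 (show 7 + 1 ≤ 9 by norm_num)
    rw [mul_assoc, ← pow_succ']
    omega
  · rw [← pow_succ', ← pow_mul, h.dn]; exact o.pwn (by norm_num)
  · rw [Nat.cast_pow, ← pow_succ']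
    exact mul_le_mul_of_nonneg_right (mul_le_mul_of_nonneg_right (by norm_num) (by positivity))
      (nf F)
  · have := (Rf.nm_le_n1 z).trans ((h.nb1 z).1 e)
    omega
  · have := mem_bl.1 (h.nb2 ▸ e)
    rw [sub_zero] at this
    omega
  · unfold Cn.sg; positivity
  · rw [h.sM, h.dr]; exact (o.sgn s).trans (o.sgu (by omega))
  · unfold Cn.nu; split_ifs <;> positivity
  · linarith [gm (cls c.k' z)]
  · linarith [o.H2η hs]
  · exact (mul_le_mul_of_nonneg_right (mul_le_mul_of_nonneg_left (o.pw (by norm_num)) (o.kap0 s))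
      (o.H20 s 0)).trans (o.H2h s)

end Hy

end Pool.Agent.P.MP_d0f69c_mp.XS.Pre
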