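import Pool.Agent.P.MP_d0f69c_mp.XS.RefSb
import Pool.Agent.P.MP_d0f69c_mp.XS.PN1

/-!
Tails, counts and the profile of the levels for the schedule of the preparation stage.
-/

set_option autoImplicit false

open Finset Real

namespace Pool.Agent.P.MP_d0f69c_mp.XS.Pre

namespace ScT

variable {d M : ℕ}

/-- the profile of the levels -/
noncomputable def Hp (h0 top ρ : ℝ) (k : ℕ) (z : Tor d M) : ℝ := min top (h0 * ρ ^ (n1 z / k))

variable {h0 top ρ : ℝ} {k : ℕ}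

theorem Hp_nn (a : 0 ≤ h0) (b : 0 ≤ top) (c : 0 ≤ ρ) (z : Tor d M) : 0 ≤ Hp h0 top ρ k z :=
  le_min b (by positivity)

theorem Hp_neg (z : Tor d M) : Hp h0 top ρ k (-z) = Hp h0 top ρ k z := by rw [Hp, N1.neg, Hp]

theorem Hp_le (z : Tor d M) : Hp h0 top ρ k z ≤ top := min_le_left _ _

theorem Hp_zero : Hp h0 top ρ k (0 : Tor d M) ≤ h0 :=
  (min_le_right _ _).trans_eq (by rw [N1.zero, Nat.zero_div, pow_zero, mul_one])

theorem le_Hp (a : 0 ≤ h0) (b : h0 ≤ top) (c : 1 ≤ ρ) (z : Tor d M) : h0 ≤ Hp h0 top ρ k z :=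
  le_min b (le_mul_of_one_le_right a (one_le_pow₀ c))

theorem Hp_add (a : 0 ≤ h0) (b : 0 ≤ top) (c : 1 ≤ ρ) (hk : 0 < k) (z : Tor d M) {u : Tor d M}
    (hu : n1 u ≤ k) : Hp h0 top ρ k (z + u) ≤ ρ * Hp h0 top ρ k z := by
  have c0 := zero_le_one.trans c
  rw [Hp, Hp, mul_min_of_nonneg _ _ c0]
  refine min_le_min (le_mul_of_one_le_left b c) ?_
  rw [mul_left_comm, ← pow_succ', ← Nat.add_div_right _ hk]
  exact mul_le_mul_of_nonneg_left (pow_le_pow_right₀ c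
    (Nat.div_le_div_right ((N1.add z u).trans (by omega)))) a

/-- the same for an affine image of the profile -/
theorem Hp_add' (a : 0 ≤ h0) (b : 0 ≤ top) (c : 1 ≤ ρ) (hk : 0 < k) {s t : ℝ} (s0 : 0 ≤ s)
    (t0 : 0 ≤ t) (z : Tor d M) {u : Tor d M} (hu : n1 u ≤ k) :
    s * Hp h0 top ρ k (z + u) + t ≤ ρ * (s * Hp h0 top ρ k z + t) := by
  linarith [mul_le_mul_of_nonneg_left (Hp_add a b c hk z hu) s0, le_mul_of_one_le_left t0 c]

/-- the profile dominates what is small nearby and bounded everywhere -/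
theorem dom_Hp (a : 0 ≤ h0) (c : 1 ≤ ρ) {k2 : ℕ} (ht : top ≤ h0 * ρ ^ (k2 / k)) {g : ℝ}
    {z : Tor d M} (h1 : n1 z ≤ k2 → g ≤ h0) (h2 : g ≤ top) : g ≤ Hp h0 top ρ k z := by
  refine le_min h2 ?_
  rcases le_total (n1 z) k2 with e | e
  · exact (h1 e).trans (le_mul_of_one_le_right a (one_le_pow₀ c))
  · exact h2.trans (ht.trans (mul_le_mul_of_nonneg_left
      (pow_le_pow_right₀ c (Nat.div_le_div_right e)) a))

/-- after `T` rounds the level `x` is below one -/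
theorem quarter {x : ℝ} {T : ℕ} (h : x ≤ 2 ^ T) (hT : 0 < T) : x / 4 ^ T < 1 := by
  rw [div_lt_one (by positivity)]
  exact h.trans_lt (pow_lt_pow_left₀ (by norm_num) (by norm_num) hT.ne')

theorem le_two_pow (x k : ℕ) : x ^ k ≤ 2 ^ (k * (Nat.log 2 x + 1)) := by
  rw [mul_comm, pow_mul]
  exact Nat.pow_le_pow_left (Nat.lt_pow_succ_log_self one_lt_two x).le k

theorem pow_log (c x k : ℕ) (hx : x ≠ 0) (m : ℕ) (hc : c ≤ 2 ^ m) :
    c ^ (k * (Nat.log 2 x + 1)) ≤ (2 * x) ^ (m * k) := by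
  refine (Nat.pow_le_pow_left hc _).trans ?_
  rw [← pow_mul, ← mul_assoc, mul_comm, pow_mul, pow_succ']
  exact Nat.pow_le_pow_left (Nat.mul_le_mul_left 2 (Nat.pow_log_le_self 2 hx)) _

variable [NeZero M]

theorem card_bl (x : Tor d M) (r : ℕ) : #(bl x r) ≤ (2 * r + 1) ^ d := by
  refine le_trans ?_ (vol_tn_le (M := M) r)
  exact card_le_card_of_injOn (· - x) (fun z hz => mem_coe.2 (mem_ball.2 (by
    simpa using mem_bl.1 hz))) fun _ _ _ _ => sub_left_injective.eq_iff.1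

theorem tail2 (hd : 1 ≤ d) {z : Tor d M} (hz : z ∉ bl 0 (d ^ 9)) :
    exp (-(n1 z : ℝ) / (d ^ 7 : ℕ)) ≤ exp (-(d : ℝ) ^ 2) := by
  have d0 : (0 : ℝ) < d := by exact_mod_cast hd
  have a : ((d ^ 9 : ℕ) : ℝ) ≤ n1 z := by
    rw [mem_bl, sub_zero, not_le] at hz
    exact_mod_cast hz.le.trans (N1.nm_le z)
  push_cast at a ⊢
  rw [exp_le_exp, div_le_iff₀ (by positivity)]
  linarith

theorem tail1 (hd : 4 ≤ d) :
    ∑ z with z ∉ bl (0 : Tor d M) (d ^ 9), exp (-(n1 z : ℝ) / (d : ℝ) ^ 4) ≤ exp (-(d : ℝ) ^ 2) := by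
  have d4 : (4 : ℝ) ≤ d := by exact_mod_cast hd
  have d0 : (0 : ℝ) < d := by linarith
  have a1 := Rf.sum_exp_n1 (c := 2 * (d : ℝ) ^ 4) (by positivity) (0 : Tor d M)
  have a2 : (2 * (2 * (d : ℝ) ^ 4 + 1)) ^ d ≤ exp (6 * d) ^ d := by
    refine pow_le_pow_left₀ (by positivity) ?_ d
    have b1 : (d : ℝ) ^ 6 ≤ exp (6 * d) := by
      rw [show 6 * (d : ℝ) = (6 : ℕ) * d by norm_num, exp_nat_mul]
      exact pow_le_pow_left₀ d0.le (by linarith [add_one_le_exp (d : ℝ)]) 6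
    have b2 : (1 : ℝ) ≤ d ^ 4 := one_le_pow₀ (by linarith)
    nlinarith [mul_le_mul_of_nonneg_right (pow_le_pow_left₀ (by norm_num) d4 2) (pow_pos d0 4).le]
  refine le_trans ?_ ((mul_le_mul_of_nonneg_left (a1.trans a2)
    (exp_pos (-((d : ℝ) ^ 5 / 2))).le).trans ?_)
  · rw [mul_sum]
    refine (sum_le_sum fun z hz => ?_).trans (sum_le_sum_of_subset_of_nonneg (filter_subset _ _)
      fun _ _ _ => by positivity)
    have a : ((d ^ 9 : ℕ) : ℝ) ≤ n1 z := by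
      have := (mem_filter.1 hz).2
      rw [mem_bl, sub_zero, not_le] at this
      exact_mod_cast this.le.trans (N1.nm_le z)
    push_cast at a
    rw [← exp_add, exp_le_exp, sub_zero, div_le_iff₀ (by positivity)]
    have e : (-((d : ℝ) ^ 5 / 2) + -(n1 z / (2 * (d : ℝ) ^ 4))) * d ^ 4 = -(d ^ 9 / 2) - n1 z / 2 := by
      field_simp; ring
    linarith
  · rw [← exp_nat_mul, ← exp_add, exp_le_exp]
    nlinarith [mul_le_mul_of_nonneg_right (pow_le_pow_left₀ (by norm_num) d4 3) (sq_nonneg (d : ℝ))]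

end ScT

end Pool.Agent.P.MP_d0f69c_mp.XS.Pre
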