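import Pool.Agent.P.MP_d0f69c_mp.XS.PIf
import Pool.Agent.P.MP_d0f69c_mp.XS.PGlue
import Pool.Agent.P.MP_d0f69c_mp.XS.PClose
import Pool.Agent.P.MP_d0f69c_mp.XS.PPrt2

/-!
Monotonicity, freezing, gluing and closing in the preparation stage.
-/

set_option autoImplicit false

open Finset Real
open scoped Matrix

namespace Pool.Agent.P.MP_d0f69c_mp.XS.Pre

theorem t_pmono : S_PMONO := by
  intro d M _ E b b' S hE h h1 h2 h3 h4 h5 h6 h7 h8 h9 h10 h11 h12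
  refine ⟨h.go, h.gj, h.oj, h.oΩ, fun x => (h.sg x).trans h9, fun x hx => (h.mis x hx).trans h2,
    fun x hx y hy => (h.amp x hx y hy).trans (h3 _), fun x hx => (h.l4 x hx).trans h4,
    fun x hx => (h.lJ x hx).trans h5, PG5.ul_mono hE.env.ref.p0 h.ul h1, h.rr.mono h1,
    fun x hx z => (h.dec x hx z).trans ?_, h.lev1.mono subset_rfl subset_rfl h10,
    h.lev2.mono subset_rfl subset_rfl h11, fun v hv u hu e c => h.iso v hv u hu e (h12 c)⟩
  have B0 : 0 ≤ b.B := nonneg_of_mul_nonneg_left ((norm_nonneg _).trans (h.dec x hx z)) (exp_pos _)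
  refine mul_le_mul h6 (exp_le_exp.2 ?_) (exp_pos _).le (B0.trans h6)
  rw [neg_div, neg_div, neg_le_neg_iff]
  exact div_le_div_of_nonneg_left (Nat.cast_nonneg _) (by exact_mod_cast h7) (by exact_mod_cast h8)

variable {d M : ℕ} [NeZero M] {E : PEnv d M} {q : PPar d M} {S : St (Tor d M)}

theorem PInv.freeze {b : PB d M} (h : PInv E b S) (h0 : 0 ≤ b.θ) (h1 : b.θ ≤ 1)
    (J : Finset (Tor d M)) : PInv E b (S.freeze J) := by
  have hO := MonoA.freeze_O S J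
  have eG : E.G0 (S.freeze J) = E.G0 S := by rw [PEnv.G0, hO]; rfl
  have eΓ : E.Γ0 (S.freeze J) = E.Γ0 S := by rw [PEnv.Γ0, hO]; rfl
  have ea : E.a0 (S.freeze J) = E.a0 S := by rw [PEnv.a0, hO]; rfl
  have sg : (S.freeze J).good ⊆ S.good := sdiff_subset
  refine ⟨h.go.mono_left sg, ?_, ?_, h.oΩ, h.sg, ?_, ?_, ?_, ?_, ?_, ?_, ?_,
    h.lev1.mono sg subset_rfl le_rfl, h.lev2.mono sg subset_rfl le_rfl, ?_⟩
  · refine disjoint_union_right.2 ⟨h.gj.mono_left sg, ?_⟩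
    exact disjoint_left.2 fun x hx hx' => (mem_sdiff.1 hx).2 (mem_inter.1 hx').2
  · exact disjoint_union_right.2 ⟨h.oj, h.go.symm.mono_right inter_subset_left⟩
  · rw [eΓ]; exact fun x hx => h.mis x (sg hx)
  · rw [hO, eΓ]; exact h.amp
  · rw [hO, eΓ]
    exact fun x hx => (sum_le_sum_of_subset_of_nonneg sg fun _ _ _ => by positivity).trans
      (h.l4 x hx)
  · rw [hO, eΓ]; exact h.lJ
  · rw [hO, eG, ea]; exact h.ul
  · rw [eG]; exact h.rr.compress h0 h1 sg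
  · rw [hO, eG]; exact h.dec
  · rw [hO]; exact fun v hv => h.iso v (sg hv)

open Classical in
theorem iso_of {nb : Finset (Tor d M)} {L l : ℝ} (hs : ∀ z ∈ nb, -z ∈ nb) (hL : 4 ≤ L) (hl : l < 1)
    (h : Lev (Nb nb) L l S.good S.omg) :
    ∀ v ∈ (S.freeze (univ.filter fun x => ∃ y ∈ S.junk, x - y ∈ nb)).good,
      ∀ u ∈ (S.freeze (univ.filter fun x => ∃ y ∈ S.junk, x - y ∈ nb)).O, u ≠ v → u - v ∉ nb := by
  intro v hv u hu e c
  obtain ⟨a, b⟩ := mem_sdiff.1 hv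
  have c' : v - u ∈ nb := neg_sub u v ▸ hs _ c
  rw [MonoA.freeze_O] at hu
  rcases mem_union.1 hu with hu | hu
  · rcases mem_union.1 hu with hu | hu
    · exact e (h.iso hl hu a (mem_filter.2 ⟨mem_univ _, c⟩))
    · exact disjoint_left.1 (h.om (by linarith) u hu) a (mem_filter.2 ⟨mem_univ _, c'⟩)
  · exact b (mem_filter.2 ⟨mem_univ _, u, hu, c'⟩)

theorem t_piso : S_PISO := fun _ _ _ _ _ _ hE h h0 h1 =>
  ⟨h.freeze h0 h1, fun hL => ⟨fun a => { h.freeze h0 h1 _ with iso := iso_of hE.s1 hL a h.lev1 },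
    fun a => { h.freeze h0 h1 _ with iso := iso_of hE.s2 hL a h.lev2 }⟩⟩

theorem smk_of (hq : q.OK E) (hE : E.OK) {ε : Tor d M → ℂ} (h : ∀ x, ‖ε x‖ ≤ E.sM) :
    SmK (fun x y => (2 * nm (x - y) : ℝ) / q.l) (E.A0 + Matrix.diagonal ε) (1 / 100) := by
  have a := (hE.good ε h).smk
  have l0 : (0 : ℝ) < q.l := by exact_mod_cast hq.par.l_one hE.env
  have l1 : 2 * E.La ≤ q.l := by
    have b : 2 * q.L ≤ q.l := le_trans (Nat.mul_le_mul_right _ (Nat.le_mul_of_pos_right _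
      hE.env.d1)) hq.L2
    have c : 2 * (q.L : ℝ) ≤ q.l := by exact_mod_cast b
    linarith [hq.L1]
  refine ⟨?_, a.symm, a.wn.weak fun x y => ?_, a.a0, a.a1⟩
  · have := pm_nm d M (L := q.l / 2) (by positivity)
    simpa only [div_div_eq_mul_div, mul_comm _ (2 : ℝ)] using this
  · have b : (nm (x - y) : ℝ) ≤ n1 (x - y) := by
      exact_mod_cast tn_le.2 fun i => single_le_sum
        (f := fun i => ((x - y) i).valMinAbs.natAbs) (fun _ _ => Nat.zero_le _) (mem_univ i)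
    rw [div_le_div_iff₀ l0 (by linarith [hE.La])]
    nlinarith [mul_le_mul b l1 (by linarith [hE.La]) (Nat.cast_nonneg _)]

theorem pgh (hB : S_PBAS) (hE : E.OK) (hq : q.OK E) {J : Finset (Tor d M)} {ω : Tor d M → Bool}
    {κ : Tor d M → ℕ} (h : PInv E (q.b1 E.η) S) (hs : PSel E q S) (hκ : Function.Injective κ)
    (hf : ∀ p, bl p (5 * q.A E.η d) ⊆ J ∨ PFlow E q S p (Zg S J ∩ bl p (5 * q.A E.η d))
      ((S.sig \ J) ∩ bl p (5 * q.A E.η d)) ω κ) : PGH E q S J ω κ := by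
  have hW : ∀ x, ‖S.W x‖ ≤ E.sM := fun x => (h.sg x).trans hq.s1
  have hP := hq.par.Ppos hE.env
  have P1 := hq.par.Pone hE.env
  have η0 := hE.env.η0
  have p4 : 0 < 1 / (q.P : ℝ) ^ 4 := by positivity
  have n0 : exp (-(q.P : ℝ) ^ 6) ≤ exp (-(q.P : ℝ)) :=
    exp_le_exp.2 (neg_le_neg (le_self_pow₀ P1 (by norm_num)))
  have m0 : exp (-(q.P : ℝ) ^ 6) ≤ q.m1 := by
    refine le_of_sq_le_sq (le_trans ?_ hq.m1) hq.m0.le
    have a := (exp_pos _).le.trans (hq.n0.trans hq.n1)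
    refine le_trans ?_ ((hq.n0.trans hq.n1).trans (le_mul_of_one_le_left a (one_le_pow₀ P1)))
    rw [sq]
    exact (mul_le_of_le_one_left (exp_pos _).le (exp_le_one_iff.2 (neg_nonpos.2
      (by positivity)))).trans n0
  refine ⟨hE.env, hq.par, hq.fin, h, hs, hκ, hf, smk_of hq hE hW,
    fun X _ => (hB d M E q hE hq _ _ _ hW).1, fun X _ T u => ?_, fun x _ => ((hE.good _ hW).a1 _ _ x).trans (by norm_num), hq.K0, hq.K1,
    fun z hz => (hq.Kr z hz).trans (le_trans (Nat.le_mul_of_pos_left _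
      (Nat.mul_pos two_pos hE.env.d1)) hq.L2), hq.KC, hq.k0, by linarith [hq.ke, hq.k0], hq.e1,
    hq.C1, zero_le_one.trans hq.ρ1, hq.H0, m0, by linarith [hq.h2, hq.m0], n0.trans hq.n0, hq.n1,
    hq.n3.trans ((div_le_self (sq_nonneg _) (one_le_pow₀ P1)).trans
      (by nlinarith [hE.env.η1]))⟩
  have a := (abs_le.1 ((hB d M E q hE hq S.W (S.O \ X) (mix X ω (om S)) hW).2.2.2 (cut T u))).1
  have e : GP E.H (E.A0 + Matrix.diagonal S.W) (S.O \ X) (mix X ω (om S)) *ᵥ cut T u =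
      ap T (E.G S X ω) u := funext fun x => by
    simp only [Matrix.mulVec, dotProduct, cut, mul_ite, mul_zero, sum_ite_mem, univ_inter]
    rfl
  rw [e] at a
  have b : (star (cut T u) ⬝ᵥ ap T (E.G S X ω) u).im ≤ nS T u * nS T (ap T (E.G S X ω) u) := by
    have c : star (cut T u) ⬝ᵥ ap T (E.G S X ω) u =
        ∑ x ∈ T, star (u x) * ap T (E.G S X ω) u x := by
      simp only [dotProduct, Pi.star_apply, cut, apply_ite star, star_zero, ite_mul, zero_mul,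
        sum_ite_mem, univ_inter]
    rw [c, ← show nS T (fun x => star (u x)) = nS T u by simp [nS]]
    exact ((le_abs_self _).trans (Complex.abs_im_le_norm _)).trans (nS_cs T _ _)
  have c : ∑ y ∈ S.O \ X, 1 / 2 * ‖ap T (E.G S X ω) u y‖ ^ 2 ≤ ∑ y ∈ S.O \ X,
      aP E.η (E.A0 + Matrix.diagonal S.W) (S.O \ X) (mix X ω (om S)) y *
        ‖ap T (E.G S X ω) u y‖ ^ 2 := sum_le_sum fun y _ => mul_le_mul_of_nonneg_right
    (by linarith [(abs_le.1 ((hE.good _ hW).a1 (S.O \ X) (mix X ω (om S)) y)).1]) (sq_nonneg _)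
  rw [← mul_sum] at c
  rw [nS_sq]
  have s0 : 0 ≤ E.η * ∑ y ∈ S.O \ X, ‖ap T (E.G S X ω) u y‖ ^ 2 := by positivity
  nlinarith [mul_le_mul_of_nonneg_left c η0.le, mul_le_mul_of_nonneg_right hq.e1 s0]

theorem pglue_of (hB : S_PBAS) (h1 : S_PG1) (h2 : S_PG2) (h3 : S_PG3) (h4 : S_PG4) (h6 : S_PG6)
    (h7 : S_PG7) (h8 : S_PG8) : S_PGLUE := fun _ _ _ _ _ hE hq _ _ _ _ h hs hκ hf =>
  pglue h1 h2 h3 h4 h6 h7 h8 (pgh hB hE hq h hs hκ hf)

theorem t_pclose (h1 : S_PFLOW) (h2 : S_PGLUE) : S_PCLOSE := fun d M _ E q hE hq s =>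
  pclose_of s hE.env hq.par (fun S a b p Z Sg => h1 d M E q hE hq S p Z Sg a b)
    (h2 d M E q hE hq)

end Pool.Agent.P.MP_d0f69c_mp.XS.Pre
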