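import Pool.Agent.P.MP_d0f69c_mp.XS.PWard2

/-!
Two kernels with majorants: the change of the effective potential and of the dressed kernel.
-/

set_option autoImplicit false

open Finset Matrix Function

namespace Pool.Agent.P.MP_d0f69c_mp.XS.Pre

variable {ι : Type} [Fintype ι] [DecidableEq ι] {r r' : ι → ι → ℝ}
  {K D D2 mu K' D' D2' mu' : Matrix ι ι ℝ} {κ ν1 ν ν' s : ℝ} {A A' b : Matrix ι ι ℂ}
  {Y : Finset ι} {ϖ : ι → Bool}

namespace Stat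

theorem al_col (h : Stat r K κ ν1 ν A Y ϖ D D2 mu) {y : ι} (hy : y ∈ Y) :
    nS Y (fun u => al A Y ϖ u y) ^ 2 ≤ κ ^ 2 + ∑ u, D y u := by
  rw [nS_sq, ← add_sum_erase _ _ hy]
  exact add_le_add (pow_le_pow_left₀ (norm_nonneg _) (h.dok.al_dg Y ϖ y) 2)
    ((sum_le_sum fun u hu => (pow_le_pow_left₀ (norm_nonneg _) (h.al0 u y) 2).trans
      (h.alD u (mem_of_mem_erase hu) y hy (ne_of_mem_erase hu))).trans
        (sum_le_univ_sum_of_nonneg (h.D0 y)))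

variable (h : Stat r K κ ν1 ν A Y ϖ D D2 mu) (h' : Stat r' K' κ ν1 ν' A' Y ϖ D' D2' mu')
include h h'

theorem D0₂ (v u : ι) : 0 ≤ (D + D') v u := add_nonneg (h.D0 v u) (h'.D0 v u)

theorem dcol₂ (u : ι) : ∑ v, (D + D') v u ≤ 2 * ν1 := by
  simp only [Matrix.add_apply, sum_add_distrib]
  linarith [h.dcol u, h'.dcol u]

theorem dcol₂' (u : ι) : ∑ v, (D + D') v u ≤ 1 / 500 := (h.dcol₂ h' u).trans (by linarith [h.m1])

/-- between the two jumps a bounded matrix keeps its central entry -/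
theorem mid_dg {J : Matrix ι ι ℂ} (hJ : ∀ x y, ‖J x y‖ ≤ s) {y : ι} (hy : y ∈ Y) :
    ‖(Dt A' Y ϖ y * J * Dt A Y ϖ y) y y - J y y‖ ≤
      s * (∑ u, D y u + 501 / 500 * ∑ u, D' y u + 41 / 10 * κ ^ 2) := by
  have s0 := (norm_nonneg _).trans (hJ y y)
  have d1 := (h.row y).trans h.m1
  have t1 : ∀ u, ‖(J * Dt A Y ϖ y) u y - J u y / cmn A Y ϖ y‖ ≤ s * ∑ u, D y u :=
    fun u => h.col_le hy (hJ u)
  have t2 : ∀ u, ‖(J * Dt A Y ϖ y) u y‖ ≤ 501 / 500 * s := fun u => by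
    have e1 := norm_le_insert' ((J * Dt A Y ϖ y) u y) (J u y / cmn A Y ϖ y)
    have e2 : ‖J u y / cmn A Y ϖ y‖ ≤ 1001 / 1000 * s := by
      rw [norm_div, div_le_iff₀ (by linarith [(h.cm_lo y).1])]
      nlinarith [hJ u y, (h.cm_lo y).1]
    nlinarith [t1 u]
  have t3 := h'.col_le hy t2
  have t4 := mul_le_mul (t2 y) (h'.b1 y) (norm_nonneg _) (by positivity)
  have t5 := mul_le_mul (hJ y y) (h.b1 y) (norm_nonneg _) s0
  rw [← norm_mul] at t4 t5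
  have e : (Dt A' Y ϖ y * J * Dt A Y ϖ y) y y = ∑ u, (J * Dt A Y ϖ y) u y * Dt A' Y ϖ y u y := by
    rw [Matrix.mul_assoc, Matrix.mul_apply]
    exact sum_congr rfl fun u _ => by
      rw [mul_comm, ← transpose_apply (Dt A' Y ϖ y) u y, h'.dok.toKOK.Dt_T]
  refine le_trans (le_of_eq (congrArg _ (by rw [e]; ring))) ((norm_add_le _ _).trans
    ((add_le_add ((norm_add_le _ _).trans (add_le_add t3 t4)) ((norm_add_le _ _).trans
      (add_le_add (t1 y) t5))).trans ?_))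
  nlinarith [mul_nonneg s0 (sq_nonneg κ)]

variable (hb : A' = A + b) (hs : ∀ w w' x y, ‖(Tt A' w' * b * Tt A w) x y‖ ≤ s)
include hb hs

theorem two (y : ι) : ∃ L : ι → Matrix ι ι ℂ, Ww A' Y ϖ - Ww A Y ϖ = -∑ v ∈ Y, L v ∧
    L y = Dt A' Y ϖ y * ((1 - A' * Ss A' Y ϖ) * b * (1 - Ss A Y ϖ * A)) * Dt A Y ϖ y ∧
    ∀ v ∈ Y, Maj (L v) (DH (D + D') v) (21 / 20 * s) := by
  obtain ⟨L, a1, a2, a3⟩ := t_two ι A A' b κ Y ϖ y (fun _ => s) h.dok h'.dok hb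
    fun v _ w w' => hs w w' v v
  refine ⟨L, a1, a2, fun v hv ξ ζ => (a3 v hv ξ ζ).trans ?_⟩
  have s0 := (norm_nonneg _).trans (hs ϖ ϖ y y)
  rw [mul_assoc (21 / 20 * s)]
  exact mul_le_mul_of_nonneg_left (mul_le_mul (((h'.sn v hv).le ξ).trans (no_mono (fun u =>
    add_le_add (le_add_of_nonneg_left (h.D0 v u)) le_rfl) ξ)) (((h.sn v hv).le ζ).trans
      (no_mono (fun u => add_le_add (le_add_of_nonneg_right (h'.D0 v u)) le_rfl) ζ)) (Nv_nn ..)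
        (no_nonneg _ _)) (by positivity)

theorem two_op (X : Finset ι) : OpLe X (Ww A' Y ϖ - Ww A Y ϖ) (27 / 25 * s) := fun u => by
  rcases X.eq_empty_or_nonempty with e | ⟨y, -⟩
  · simp [nS, e]
  obtain ⟨L, a1, -, a3⟩ := h.two h' hb hs y
  have s0 := (norm_nonneg _).trans (hs ϖ ϖ y y)
  have := (pcs_majF a3 (by positivity) (h.D0₂ h') (h.dcol₂' h') X).op.mono
    (show _ ≤ 27 / 25 * s by linarith) u
  refine le_trans (le_of_eq ?_) this
  rw [a1]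
  simp [nS, ap, Matrix.sum_apply]

theorem two_off : OpLe Y (fun x y => if x = y then 0 else (Ww A' Y ϖ - Ww A Y ϖ) x y)
    (16 / 5 * s * √ν1) := fun ζ => by
  rcases Y.eq_empty_or_nonempty with e | ⟨y, -⟩
  · simp [nS, e]
  obtain ⟨L, a1, -, a3⟩ := h.two h' hb hs y
  have s0 := (norm_nonneg _).trans (hs ϖ ϖ y y)
  have n0 := h.m0.trans h.m2
  have z0 := nS_nonneg Y ζ
  refine nS_dual (by positivity) fun ξ => ?_
  have a4 := pcs_off a3 (by positivity) (h.D0₂ h') (h.dcol₂' h') (I := univ) (ν := 2 * ν1)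
    (by positivity) (by linarith [h.m1]) (fun u _ => h.dcol₂ h' u) (h.dcol₂ h') ξ ζ
    fun y hy => absurd (mem_univ y) hy
  have r1 : √(2 * ν1) ≤ 3 / 2 * (24 / 25) * √ν1 := Real.sqrt_le_iff.2 ⟨by positivity, by
    rw [mul_pow, Real.sq_sqrt n0]; linarith⟩
  have x0 := nS_nonneg Y ξ
  have a5 := mul_le_mul_of_nonneg_right r1 (show 0 ≤ s * (nS Y ξ * nS Y ζ) by positivity)
  have p : 0 ≤ √ν1 * (s * (nS Y ξ * nS Y ζ)) := by positivity
  rw [← norm_neg] at a4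
  refine le_trans (le_of_eq (congrArg _ ?_)) (a4.trans (by linarith))
  rw [← sum_neg_distrib]
  refine sum_congr rfl fun x hx => ?_
  rw [ap, ← add_sum_erase _ _ hx, if_pos rfl, zero_mul, zero_add, mul_sum, ← sum_neg_distrib]
  exact sum_congr rfl fun y hy => by
    rw [if_neg (ne_of_mem_erase hy).symm, a1, Matrix.neg_apply, Matrix.sum_apply]; ring

theorem two_dg {y : ι} (hy : y ∈ Y) : ‖(Ww A' Y ϖ - Ww A Y ϖ) y y +
    ((1 - A' * Ss A' Y ϖ) * b * (1 - Ss A Y ϖ * A)) y y‖ ≤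
      s * (21 / 10 * (∑ u, D y u + ∑ u, D' y u) + 41 / 10 * κ ^ 2) := by
  obtain ⟨L, a1, a2, a3⟩ := h.two h' hb hs y
  have s0 := (norm_nonneg _).trans (hs ϖ ϖ y y)
  have a4 := pcs_side a3 (by positivity) (h.D0₂ h') y
  have a5 := h.mid_dg h' (fun x y => mid_le h.dok.toKOK h'.dok.toKOK Y ϖ fun w w' => hs w w' x y) hy
  simp only [Matrix.add_apply, sum_add_distrib, h.colrow, h'.colrow] at a4
  rw [← a2] at a5
  rw [← norm_neg, a1, Matrix.neg_apply, Matrix.sum_apply, ← add_sum_erase _ _ hy]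
  refine le_trans (le_of_eq (congrArg _ (by ring))) ((norm_add_le _ _).trans
    ((add_le_add a5 a4).trans ?_))
  linarith [mul_nonneg s0 (h.d0 y), mul_nonneg s0 (h'.d0 y)]

theorem two_al {x y : ι} (hx : x ∈ Y) (hy : y ∈ Y) : ‖(al A' Y ϖ - al A Y ϖ) x y -
    ((1 - A' * Ss A' Y ϖ) * b * (1 - Ss A Y ϖ * A)) x y‖ ≤ 27 / 25 * s * (κ ^ 2 + ν1) := by
  have k := h.dok.toKOK
  have k' := h'.dok.toKOK
  have s0 := (norm_nonneg _).trans (hs ϖ ϖ y y)
  have a1 := (nS_cs Y (fun u => al A' Y ϖ u x) _).trans (mul_le_mul_of_nonneg_left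
    (h.two_op h' hb hs Y fun u => al A Y ϖ u y) (nS_nonneg _ _))
  have a2 : nS Y (fun u => al A' Y ϖ u x) * nS Y (fun u => al A Y ϖ u y) ≤ κ ^ 2 + ν1 := by
    nlinarith [h.al_col hy, h'.al_col hx, h.row y, h'.row x,
      sq_nonneg (nS Y (fun u => al A' Y ϖ u x) - nS Y fun u => al A Y ϖ u y)]
  have z : ∀ u ∉ Y, ∀ v, (Ww A' Y ϖ - Ww A Y ϖ) u v = 0 ∧ (Ww A' Y ϖ - Ww A Y ϖ) v u = 0 :=
    fun u hu v => by
      rw [Matrix.sub_apply, Matrix.sub_apply, k.Ww_row _ _ hu, k'.Ww_row _ _ hu, k.Ww_col _ _ hu,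
        k'.Ww_col _ _ hu, sub_self, and_self]
  rw [s3_al k k' hb, Matrix.sub_apply, sub_sub_cancel_left, norm_neg, bf_mul, bf_eq]
  refine le_trans (le_of_eq (congrArg _ ?_)) (a1.trans (by
    linarith [mul_le_mul_of_nonneg_left a2 s0]))
  rw [← sum_subset (subset_univ Y) fun u _ hu => sum_eq_zero fun v _ => by
    rw [(z u hu v).1, mul_zero, zero_mul]]
  refine sum_congr rfl fun u _ => ?_
  rw [← sum_subset (subset_univ Y) fun v _ hv => by rw [(z v hv u).2, mul_zero, zero_mul],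
    ← transpose_apply (al A' Y ϖ) u x, k'.al_T]
  simp only [ap, mul_sum, mul_assoc]

end Stat

end Pool.Agent.P.MP_d0f69c_mp.XS.Pre
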