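import Pool.Agent.P.MP_d0f69c_mp.XS.PFP
import Pool.Agent.P.MP_d0f69c_mp.XS.M3

/-!
The row functional of the preparatory flow: weights and the vector in the linear term.
-/

set_option autoImplicit false

open Finset Real
open scoped Matrix ComplexConjugate

namespace Pool.Agent.P.MP_d0f69c_mp.XS.Pre.PZ

variable {ι : Type} [Fintype ι] [DecidableEq ι] {q : Nq} {σ : Co ι} {τ : Au ι} {v x : ι}

theorem hn_sum {N : (ι → ℂ) → ℝ} (h : HN N) (s : Finset ι) (c : ι → ℂ) (φ : ι → ι → ℂ) :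
    N (∑ z ∈ s, c z • φ z) ≤ ∑ z ∈ s, ‖c z‖ * N (φ z) := by
  induction s using Finset.induction_on with
  | empty => simpa using (h.smul 0 0).le
  | insert a s ha ih =>
    rw [sum_insert ha, sum_insert ha, ← h.smul]
    exact (h.add _ _).trans (add_le_add le_rfl ih)

theorem hn_cs {N : (ι → ℂ) → ℝ} (h : HN N) (s : Finset ι) {w : ι → ℝ} (w0 : ∀ z, 0 ≤ w z)
    (g : ι → ℂ) (φ : ι → ι → ℂ) : N (∑ z ∈ s, (w z * conj (g z) : ℂ) • φ z) ^ 2 ≤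
      (∑ z ∈ s, w z * ‖g z‖ ^ 2) * ∑ z ∈ s, w z * N (φ z) ^ 2 :=
  (pow_le_pow_left₀ (h.nn _) (hn_sum h s _ φ) 2).trans (sum_sq_le_sum_mul_sum_of_sq_le_mul s
    (fun z _ => mul_nonneg (w0 z) (sq_nonneg _)) (fun z _ => mul_nonneg (w0 z) (sq_nonneg _))
    fun z _ => le_of_eq (by
      rw [norm_mul, Complex.norm_conj, Complex.norm_real, Real.norm_of_nonneg (w0 z)]; ring))

omit [DecidableEq ι] in
theorem expand (S : Finset ι) (w : ι → ℝ) (T : Matrix ι ι ℂ) (ξ α : ι → ℂ) (φ : ι → ι → ℂ) :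
    ∑ z ∈ S, w z * ‖α z - bf T ξ (φ z)‖ ^ 2 = ∑ z ∈ S, w z * ‖α z‖ ^ 2 -
      2 * (bf T ξ (∑ z ∈ S, (w z * conj (α z) : ℂ) • φ z)).re +
        ∑ z ∈ S, w z * ‖bf T ξ (φ z)‖ ^ 2 := by
  have e : ∑ z ∈ S, (w z * conj (α z) : ℂ) • φ z = fun u => ∑ z ∈ S, w z * conj (α z) * φ z u := by
    funext u; simp only [Finset.sum_apply, Pi.smul_apply, smul_eq_mul]
  have e1 := M3.expand S w α (fun z => bf T ξ (φ z)) 1
  simp only [one_mul, norm_one, one_pow] at e1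
  rw [e1, e, ← bf_sum]
  simp only [mul_assoc, mul_comm (conj (α _))]

/-- the weight that is lost when `v` is closed -/
noncomputable def wv (σ : Co ι) (v z : ι) : ℝ :=
  (if z = v then 1999 / 2000 else 0) + σ.Kk z v / 2000

theorem th_step (h : Fy q σ τ) (hv : v ∈ σ.rem) (b : Bool) (z : ι) :
    (σ.step τ v b).th z = σ.th z - wv σ v z := by
  have vX : v ∉ σ.X := disjoint_left.1 h.OX (h.RO (h.rR hv))
  simp only [Co.th, Co.ir, Co.kr, Co.step, wv, ← add_sum_erase _ _ hv, mem_erase, mem_insert]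
  by_cases e : z = v
  · simp [e, hv, vX]; ring
  · simp [e]; ring

theorem th0 (h : Fy q σ τ) (z : ι) : 0 ≤ σ.th z := by
  have := sum_nonneg fun v (_ : v ∈ σ.rem) => h.K0 z v
  unfold Co.th Co.ir Co.kr
  split_ifs <;> positivity

theorem th0' (h : Fy q σ τ) (hv : v ∈ σ.rem) (z : ι) : 0 ≤ σ.th z - wv σ v z := by
  have := sum_nonneg fun u (_ : u ∈ σ.rem.erase v) => h.K0 z u
  rw [← th_step h hv true]
  unfold Co.th Co.ir Co.kr
  split_ifs <;> positivity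

theorem wv0 (h : Fy q σ τ) (v z : ι) : 0 ≤ wv σ v z := by
  have := h.K0 z v
  unfold wv
  split_ifs <;> positivity

theorem wv_sum (z : ι) : ∑ v ∈ σ.rem, wv σ v z ≤ σ.th z := by
  simp only [wv, sum_add_distrib, sum_ite_eq, ← sum_div, Co.th, Co.ir, Co.kr]
  split_ifs <;> linarith

theorem th_le (h : Fy q σ τ) (g : Fz q σ τ) (z : ι) :
    (z ∈ σ.Op → σ.th z ≤ 2001 / 2000) ∧ (z ∈ σ.X → σ.th z ≤ 1 / 1000) := by
  have := (g.kr z).2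
  unfold Co.th Co.ir
  refine ⟨fun hz => ?_, fun hz => ?_⟩
  · rw [if_neg (disjoint_left.1 h.OX hz)]; split_ifs <;> linarith
  · rw [if_neg fun e => disjoint_left.1 h.OX (h.RO (h.rR e)) hz, if_pos hz]; linarith

theorem th_sum (h : Fy q σ τ) (g : Fz q σ τ) {w f : ι → ℝ} (hw : ∀ z, w z ≤ σ.th z)
    (f0 : ∀ z, 0 ≤ f z) {a b : ℝ} (ha : ∑ z ∈ σ.Op, f z ≤ a) (hb : ∑ z ∈ σ.X, f z ≤ b) :
    ∑ z ∈ σ.Op ∪ σ.X, w z * f z ≤ 2001 / 2000 * a + b / 1000 := by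
  have a1 := sum_le_sum (s := σ.Op) fun z hz =>
    mul_le_mul_of_nonneg_right ((hw z).trans ((th_le h g z).1 hz)) (f0 z)
  have a2 := sum_le_sum (s := σ.X) fun z hz =>
    mul_le_mul_of_nonneg_right ((hw z).trans ((th_le h g z).2 hz)) (f0 z)
  rw [← mul_sum] at a1 a2
  rw [sum_union h.OX]
  linarith

theorem zs (h : Fy q σ τ) (hx : x ∈ σ.Rw) {w : ι → ℝ} (hw : ∀ z, w z ≤ σ.th z) :
    ∑ z ∈ σ.Op ∪ σ.X, w z * ‖σ.G x z‖ ^ 2 +
      (if x ∈ σ.rem ∪ σ.Sg then √(‖σ.Γ x x‖ ^ 2 + q.m1 ^ 2) / q.m1 else 0) / 2000 ≤ 995 / 1000 := by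
  have a := h.zz x hx
  have b := sum_le_sum (s := σ.Op ∪ σ.X) fun z _ =>
    mul_le_mul_of_nonneg_right (hw z) (sq_nonneg ‖σ.G x z‖)
  unfold Co.Zf at a
  linarith [h.d0 x]

theorem zs' (hq : q.OK) (h : Fy q σ τ) (hx : x ∈ σ.Rw) {w : ι → ℝ} (hw : ∀ z, w z ≤ σ.th z) :
    ∑ z ∈ σ.Op ∪ σ.X, w z * ‖σ.G x z‖ ^ 2 ≤ 1 := by
  have a := zs h hx hw
  have := hq.m0
  have : 0 ≤ if x ∈ σ.rem ∪ σ.Sg then √(‖σ.Γ x x‖ ^ 2 + q.m1 ^ 2) / q.m1 else 0 := by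
    split_ifs <;> positivity
  linarith

/-- the vector in the linear term, for the weights `w` -/
noncomputable def eta (σ : Co ι) (w : ι → ℝ) (x : ι) : ι → ℂ :=
  ∑ z ∈ σ.Op ∪ σ.X, (w z * conj (σ.G x z) : ℂ) • σ.G z

theorem eta_le (h : Fy q σ τ) (g : Fz q σ τ) (hv : v ∈ σ.rem) {w : ι → ℝ} (w0 : ∀ z, 0 ≤ w z)
    (hw : ∀ z, w z ≤ σ.th z) (x : ι) :
    τ.Nh v (eta σ w x) ^ 2 ≤ 4 * ∑ z ∈ σ.Op ∪ σ.X, w z * ‖σ.G x z‖ ^ 2 := by
  refine (hn_cs (g.hh v) _ w0 _ _).trans ?_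
  rw [mul_comm 4]
  exact mul_le_mul_of_nonneg_left ((th_sum h g hw (fun _ => sq_nonneg _) (g.nO v hv)
    (g.nX v hv)).trans (by norm_num)) (sum_nonneg fun z _ => mul_nonneg (w0 z) (sq_nonneg _))

theorem eta_sup (hq : q.OK) (h : Fy q σ τ) (g : Fz q σ τ) (hv : v ∈ σ.rem) (hx : x ∈ σ.Rw) :
    τ.Nh v (eta σ (fun z => σ.th z - wv σ v z) x) ≤ 2 := by
  have hw : ∀ z, σ.th z - wv σ v z ≤ σ.th z := fun z => sub_le_self _ (wv0 h v z)
  exact le_of_sq_le_sq ((eta_le h g hv (th0' h hv) hw x).trans (by linarith [zs' hq h hx hw]))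
    zero_le_two

theorem eta0 (hq : q.OK) (h : Fy q σ τ) (g : Fz q σ τ) (hx : x ∈ σ.Rw) :
    ∑ u ∈ σ.Op, ‖eta σ σ.th x u‖ ^ 2 ≤ (2 * q.P ^ 21 / q.η) ^ 2 := by
  have η0 := hq.η0
  have P0 : 0 < q.P := one_pos.trans_le hq.one_le
  set f : ι → ℂ := fun z => σ.th z * conj (σ.G x z) with hf
  have rO : σ.rem ⊆ σ.Op := h.rR.trans h.RO
  have f1 : ∀ S ⊆ σ.Op ∪ σ.X, ∑ z ∈ S, ‖f z‖ ^ 2 ≤ (11 / 10) ^ 2 := fun S hS => by
    refine (sum_le_sum_of_subset_of_nonneg hS fun _ _ _ => sq_nonneg _).trans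
      ((sum_le_sum (g := fun z => 2001 / 2000 * (σ.th z * ‖σ.G x z‖ ^ 2)) fun z hz => ?_).trans ?_)
    · have a : σ.th z ≤ 2001 / 2000 := (mem_union.1 hz).elim (th_le h g z).1 fun e =>
        ((th_le h g z).2 e).trans (by norm_num)
      rw [hf, norm_mul, Complex.norm_conj, Complex.norm_real, Real.norm_of_nonneg (th0 h z)]
      nlinarith [mul_le_mul_of_nonneg_right a (mul_nonneg (th0 h z) (sq_nonneg ‖σ.G x z‖))]
    · rw [← mul_sum]; linarith [zs' hq h hx (w := σ.th) fun _ => le_rfl]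
  have e : σ.Op ∪ σ.X = (σ.X ∪ σ.rem) ∪ (σ.Op \ σ.rem) := by
    rw [union_assoc, union_sdiff_of_subset rO, union_comm]
  have dj : Disjoint (σ.X ∪ σ.rem) (σ.Op \ σ.rem) :=
    disjoint_union_left.2 ⟨h.OX.symm.mono_right sdiff_subset, disjoint_sdiff⟩
  have e1 : eta σ σ.th x = fun u => ap (σ.X ∪ σ.rem) σ.G f u + ∑ z ∈ σ.Op \ σ.rem, σ.G u z * f z := by
    funext u
    simp only [eta, ap, Finset.sum_apply, Pi.smul_apply, smul_eq_mul, e, sum_union dj, h.sG u,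
      mul_comm (σ.G _ u), hf]
  have a1 : nS σ.Op (ap (σ.X ∪ σ.rem) σ.G f) ≤ q.P ^ 21 / q.η * (11 / 10) :=
    (h.ward f).trans (mul_le_mul_of_nonneg_left (sqrt_le_iff.2 ⟨by norm_num,
      f1 _ (e ▸ subset_union_left)⟩) (by positivity))
  have a2 : nS σ.Op (fun u => ∑ z ∈ σ.Op \ σ.rem, σ.G u z * f z) ≤ 2 / q.η * (11 / 10) :=
    sqrt_le_iff.2 ⟨by positivity, (M3.op_sq h.op sdiff_subset Subset.rfl f).trans (by
      rw [mul_pow]
      exact mul_le_mul_of_nonneg_left (f1 _ (e ▸ subset_union_right)) (sq_nonneg _))⟩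
  rw [← nS_sq, e1]
  refine pow_le_pow_left₀ (nS_nonneg _ _) ((nS_add _ _ _).trans ((add_le_add a1 a2).trans ?_)) 2
  have a3 : q.P ≤ q.P ^ 21 := le_self_pow₀ hq.one_le (by norm_num)
  rw [← add_mul, ← add_div, div_mul_eq_mul_div]
  exact div_le_div_of_nonneg_right (by linarith [hq.P9]) η0.le

theorem eta_sum (hq : q.OK) (h : Fy q σ τ) (g : Fz q σ τ) (hx : x ∈ σ.Rw) :
    ∑ v ∈ σ.rem, τ.Nh v (eta σ (fun z => σ.th z - wv σ v z) x) ^ 2 ≤ 10 * (q.P ^ 21 / q.η) ^ 2 := by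
  have a : ∀ v ∈ σ.rem, τ.Nh v (eta σ (fun z => σ.th z - wv σ v z) x) ^ 2 ≤
      2 * τ.Nh v (eta σ σ.th x) ^ 2 + 8 * ∑ z ∈ σ.Op ∪ σ.X, wv σ v z * ‖σ.G x z‖ ^ 2 :=
    fun v hv => by
    have e : eta σ (fun z => σ.th z - wv σ v z) x = eta σ σ.th x + (-1 : ℂ) • eta σ (wv σ v) x := by
      simp only [eta, neg_smul, one_smul, ← sub_eq_add_neg, ← sum_sub_distrib, ← sub_smul, ← sub_mul,
        Complex.ofReal_sub]
    have b1 := (g.hh v).add (eta σ σ.th x) ((-1 : ℂ) • eta σ (wv σ v) x)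
    rw [(g.hh v).smul, norm_neg, norm_one, one_mul, ← e] at b1
    have b2 := eta_le h g hv (wv0 h v) (fun z => sub_nonneg.1 (th0' h hv z)) x
    nlinarith [pow_le_pow_left₀ ((g.hh v).nn _) b1 2,
      sq_nonneg (τ.Nh v (eta σ σ.th x) - τ.Nh v (eta σ (wv σ v) x))]
  refine (sum_le_sum a).trans ?_
  rw [sum_add_distrib, ← mul_sum, ← mul_sum, sum_comm]
  simp only [← sum_mul]
  have a1 := zs' hq h hx (w := fun z => ∑ v ∈ σ.rem, wv σ v z) wv_sum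
  have a2 := (g.sv _).trans (mul_le_mul_of_nonneg_left (eta0 hq h g hx) (by norm_num))
  have a3 : q.P ≤ q.P ^ 21 / q.η := by
    rw [le_div_iff₀ hq.η0]
    exact (mul_le_of_le_one_right (by linarith [hq.one_le]) (by linarith [hq.η1])).trans
      (le_self_pow₀ hq.one_le (by norm_num))
  rw [mul_div_assoc] at a2
  nlinarith [hq.P9]

end Pool.Agent.P.MP_d0f69c_mp.XS.Pre.PZ
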