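import Pool.Agent.P.MP_d0f69c_mp.XS.In4
import Pool.Agent.P.MP_d0f69c_mp.XS.Pr

/-!
Reference estimates at unit coupling, part 1: exponential moments on the torus.
-/

set_option autoImplicit false

open Finset Real
open scoped ComplexConjugate

namespace Pool.Agent.P.MP_d0f69c_mp.XS.Ref

variable {d M : ℕ} [NeZero M]

/-- the standard character -/
noncomputable abbrev ec (t : ZMod M) : ℂ := ZMod.stdAddChar t

/-- a shifted cosine -/
noncomputable def vr (α : ℂ) (t : ZMod M) : ℝ := 2 * (α * ec t).re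

/-- a shifted sine -/
noncomputable def ui (α : ℂ) (t : ZMod M) : ℝ := 2 * (α * ec t).im

theorem ui_eq (α : ℂ) (t : ZMod M) : ui α t = vr (-Complex.I * α) t := by
  simp [ui, vr, mul_assoc]

theorem vr_sq_add (α : ℂ) (t : ZMod M) : vr α t ^ 2 + ui α t ^ 2 = 4 * ‖α‖ ^ 2 := by
  have : ‖α * ec t‖ ^ 2 = ‖α‖ ^ 2 := by rw [norm_mul, norm_e, mul_one]
  rw [← this, Complex.sq_norm, Complex.normSq_apply, vr, ui]
  ring

theorem abs_vr (α : ℂ) (t : ZMod M) : |vr α t| ≤ 2 * ‖α‖ :=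
  abs_le_of_sq_le_sq' (by nlinarith [vr_sq_add α t, sq_nonneg (ui α t)]) (by positivity) |> abs_le.2

theorem abs_ui (α : ℂ) (t : ZMod M) : |ui α t| ≤ 2 * ‖α‖ :=
  abs_le_of_sq_le_sq' (by nlinarith [vr_sq_add α t, sq_nonneg (vr α t)]) (by positivity) |> abs_le.2

theorem sum_vr (α : ℂ) {a : ZMod M} (ha : a ≠ 0) : ∑ t, vr α (t * a) = 0 := by
  simp only [vr, ← mul_sum, ← Complex.re_sum, AddChar.sum_mulShift _ (ZMod.isPrimitive_stdAddChar M),
    if_neg ha]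
  simp

omit [NeZero M] in
theorem cast_ne (hM : 3 ≤ M) {n : ℕ} (h0 : 0 < n) (h2 : n ≤ 2) : (n : ZMod M) ≠ 0 := fun e => by
  have := Nat.le_of_dvd h0 ((ZMod.natCast_eq_zero_iff n M).1 e)
  omega

theorem av_vr (hM : 3 ≤ M) (α : ℂ) : av (vr (M := M) α) = 0 := by
  have := sum_vr α (cast_ne hM one_pos one_le_two)
  simp only [Nat.cast_one, mul_one] at this
  simp [av, this]

theorem av_vr_sq (hM : 3 ≤ M) (α : ℂ) : av (fun t : ZMod M => vr α t ^ 2) = 2 * ‖α‖ ^ 2 := by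
  have h1 := sum_vr (α ^ 2) (cast_ne hM two_pos le_rfl)
  have h2 : ∀ t : ZMod M, vr α t ^ 2 = vr (α ^ 2) (t * ((2 : ℕ) : ZMod M)) + 2 * ‖α‖ ^ 2 := fun t => by
    have := vr_sq_add α t
    have e : α ^ 2 * ec (t * ((2 : ℕ) : ZMod M)) = (α * ec t) * (α * ec t) := by
      rw [Nat.cast_ofNat, mul_two, ec, AddChar.map_add_eq_mul]
      ring
    rw [vr, ui] at this
    rw [vr, vr, e, Complex.mul_re (α * ec t)]
    linarith
  simp only [h2, av_add, av_const]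
  simp only [av, h1, zero_div, zero_add]

theorem av_abs_le {κ : Type} [Fintype κ] [Nonempty κ] {f : κ → ℝ} {c : ℝ} (h : ∀ x, |f x| ≤ c) :
    |av f| ≤ c := by
  refine abs_le.2 ⟨?_, av_le fun x => (abs_le.1 (h x)).2⟩
  rw [← av_const (α := κ) (-c)]
  exact av_mono fun x => (abs_le.1 (h x)).1

theorem av_sub {κ : Type} [Fintype κ] (f g : κ → ℝ) : av (fun x => f x - g x) = av f - av g := by
  simp [av, sum_sub_distrib, sub_div]

theorem exp_cube {x : ℝ} (h : |x| ≤ 1) : |exp x - (1 + x + x ^ 2 / 2)| ≤ |x| ^ 3 / 4 := by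
  have := exp_bound h (n := 3) (by norm_num)
  simp only [sum_range_succ, range_zero, sum_empty, Nat.factorial] at this
  norm_num at this
  nlinarith [pow_nonneg (abs_nonneg x) 3]

/-- the exponential moment of a shifted cosine -/
theorem mgf (hM : 3 ≤ M) {l : ℝ} {α : ℂ} (h : |l| * ‖α‖ ≤ 1 / 2) :
    |av (fun t : ZMod M => exp (l * vr α t)) - (1 + l ^ 2 * ‖α‖ ^ 2)| ≤ 2 * (|l| * ‖α‖) ^ 3 := by
  have e : av (fun t : ZMod M => 1 + l * vr α t + l ^ 2 / 2 * vr α t ^ 2) = 1 + l ^ 2 * ‖α‖ ^ 2 := by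
    rw [av_add, av_add, av_const, av_mul, av_mul, av_vr hM, av_vr_sq hM]
    ring
  rw [← e, ← av_sub]
  refine av_abs_le fun t => ?_
  have h1 : |l * vr α t| ≤ 2 * (|l| * ‖α‖) := by
    rw [abs_mul]
    nlinarith [abs_vr α t, abs_nonneg l]
  have h2 := exp_cube (h1.trans (by linarith))
  have h3 := pow_le_pow_left₀ (abs_nonneg _) h1 3
  rw [show 1 + l * vr α t + l ^ 2 / 2 * vr α t ^ 2 = 1 + l * vr α t + (l * vr α t) ^ 2 / 2 by ring]
  linarith

theorem mgf_le (hM : 3 ≤ M) {l : ℝ} {α : ℂ} (h : |l| * ‖α‖ ≤ 1 / 2) :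
    av (fun t : ZMod M => exp (l * vr α t)) ≤ exp (l ^ 2 * ‖α‖ ^ 2 + 2 * (|l| * ‖α‖) ^ 3) := by
  linarith [(abs_le.1 (mgf hM h)).2, add_one_le_exp (l ^ 2 * ‖α‖ ^ 2 + 2 * (|l| * ‖α‖) ^ 3)]

theorem av_pi {ι κ : Type} [Fintype ι] [DecidableEq ι] [Fintype κ] (f : ι → κ → ℝ) :
    av (fun q : ι → κ => ∏ j, f j (q j)) = ∏ j, av (f j) := by
  simp only [av, prod_div_distrib, prod_const, card_univ, Fintype.card_fun, Nat.cast_pow]
  rw [prod_univ_sum, Fintype.piFinset_univ]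

theorem av_exp_sum {ι κ : Type} [Fintype ι] [DecidableEq ι] [Fintype κ] (f : ι → κ → ℝ) :
    av (fun q : ι → κ => exp (∑ j, f j (q j))) = ∏ j, av fun t => exp (f j t) := by
  simp only [exp_sum]
  exact av_pi fun j t => exp (f j t)

theorem av_exp_le {ι κ : Type} [Fintype ι] [DecidableEq ι] [Fintype κ] {f : ι → κ → ℝ} {c : ι → ℝ}
    (h : ∀ j, av (fun t => exp (f j t)) ≤ exp (c j)) :
    av (fun q : ι → κ => exp (∑ j, f j (q j))) ≤ exp (∑ j, c j) := by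
  rw [av_exp_sum, exp_sum]
  exact prod_le_prod (fun j _ => av_nonneg fun _ => (exp_pos _).le) fun j _ => h j

/-- Chernoff bound -/
theorem pr_le_exp {κ : Type} [Fintype κ] {A : κ → Prop} {f : κ → ℝ} {x c : ℝ}
    (h : ∀ q, A q → x ≤ f q) (hc : av (fun q => exp (f q)) ≤ c) : pr A ≤ exp (-x) * c := by
  refine (pr_le_av (f := fun q => exp (-x) * exp (f q)) (fun _ => by positivity) fun q hq => ?_).trans ?_
  · rw [← exp_add]
    exact one_le_exp (by linarith [h q hq])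
  · rw [av_mul]
    exact mul_le_mul_of_nonneg_left hc (exp_pos _).le

/-- sum of the shifted cosines -/
noncomputable def vv (α : Fin d → ℂ) (q : Tor d M) : ℝ := ∑ j, vr (α j) (q j)

/-- the mean of the squared gradient -/
noncomputable def sq2 (α : Fin d → ℂ) : ℝ := 2 * ∑ j, ‖α j‖ ^ 2

theorem tail_vv (hM : 3 ≤ M) {α : Fin d → ℂ} (hα : ∀ j, ‖α j‖ ≤ 1) {l : ℝ} (l0 : 0 ≤ l)
    (l1 : l ≤ 1 / 2) (x : ℝ) :
    pr (fun q : Tor d M => x ≤ vv α q) ≤ exp (-(l * x) + l ^ 2 * sq2 α / 2 + 2 * l ^ 3 * d) := by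
  have h1 := av_exp_le (f := fun j (t : ZMod M) => l * vr (α j) t)
    (c := fun j => l ^ 2 * ‖α j‖ ^ 2 + 2 * l ^ 3) fun j => by
      have h1 : |l| * ‖α j‖ ≤ l := by
        rw [abs_of_nonneg l0]
        exact mul_le_of_le_one_right l0 (hα j)
      refine (mgf_le hM (h1.trans l1)).trans (exp_le_exp.2 ?_)
      linarith [pow_le_pow_left₀ (by positivity) h1 3]
  refine (pr_le_exp (x := l * x) (fun q hq => ?_) h1).trans (le_of_eq ?_)
  · rw [← mul_sum]
    exact mul_le_mul_of_nonneg_left hq l0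
  · rw [← exp_add, sum_add_distrib, ← mul_sum, sq2]
    simp only [sum_const, card_univ, Fintype.card_fin, nsmul_eq_mul]
    ring_nf

theorem ui_mgf (hM : 3 ≤ M) {α : ℂ} (hα : ‖α‖ ≤ 1) :
    av (fun t : ZMod M => exp (-(ui α t ^ 2 / 8))) ≤ exp (-(3 / 16 * ‖α‖ ^ 2)) := by
  have e : av (fun t : ZMod M => 1 + -(3 / 32) * ui α t ^ 2) = 1 - 3 / 16 * ‖α‖ ^ 2 := by
    simp only [ui_eq]
    rw [av_add, av_const, av_mul, av_vr_sq hM]
    simp
    ring
  refine (av_mono fun t => ?_).trans (e.le.trans (by linarith [add_one_le_exp (-(3 / 16 * ‖α‖ ^ 2))]))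
  have h1 : ui α t ^ 2 ≤ 4 := by
    nlinarith [vr_sq_add α t, sq_nonneg (vr α t), norm_nonneg α]
  have h2 := sq_nonneg (ui α t)
  generalize ui α t ^ 2 = y at *
  have h3 := quadratic_le_exp_of_nonneg (show 0 ≤ y / 8 by linarith)
  have h4 := mul_le_mul_of_nonneg_left h3 (show 0 ≤ 1 + -(3 / 32) * y by linarith)
  rw [exp_neg, inv_le_iff_one_le_mul₀ (exp_pos _)]
  nlinarith [mul_nonneg h2 (sub_nonneg.2 h1), mul_nonneg h2 (mul_nonneg h2 (sub_nonneg.2 h1))]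

/-- the gradient is rarely small -/
theorem grad_small (hM : 3 ≤ M) {α : Fin d → ℂ} (hα : ∀ j, ‖α j‖ ≤ 1) :
    pr (fun q : Tor d M => ∑ j, ui (α j) (q j) ^ 2 ≤ sq2 α / 2) ≤ exp (-(sq2 α / 32)) := by
  have h1 := av_exp_le (f := fun j (t : ZMod M) => -(ui (α j) t ^ 2 / 8))
    (c := fun j => -(3 / 16 * ‖α j‖ ^ 2)) fun j => ui_mgf hM (hα j)
  refine (pr_le_exp (x := -(sq2 α / 16)) (fun q hq => ?_) h1).trans (le_of_eq ?_)
  · rw [sum_neg_distrib, ← sum_div]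
    linarith
  · rw [← exp_add, sum_neg_distrib, ← mul_sum, sq2]
    ring_nf

/-- the partition function of one coordinate -/
noncomputable def Zt (M : ℕ) [NeZero M] (θ : ℝ) : ℝ := av fun t : ZMod M => exp (θ * vr 1 t)

theorem Zt_bound (hM : 3 ≤ M) {θ : ℝ} (h0 : 0 ≤ θ) (h1 : θ ≤ 1 / 2) :
    |Zt M θ - (1 + θ ^ 2)| ≤ 2 * θ ^ 3 := by
  simpa [Zt, abs_of_nonneg h0] using mgf hM (l := θ) (α := 1) (by simpa [abs_of_nonneg h0] using h1)

theorem vr_shift (k t : ZMod M) : vr (ec (-k)) t = vr 1 (t - k) := by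
  simp only [vr, ec, one_mul, sub_eq_neg_add, AddChar.map_add_eq_mul]

theorem vr_add (α β : ℂ) (t : ZMod M) : vr (α + β) t = vr α t + vr β t := by
  simp only [vr, add_mul, Complex.add_re]
  ring

theorem vr_smul (c : ℝ) (α : ℂ) (t : ZMod M) : vr (c * α) t = c * vr α t := by
  simp only [vr, mul_assoc, Complex.re_ofReal_mul]
  ring

/-- the amplitudes of an interpolation between two shifted shells -/
noncomputable def am (s : ℝ) (k : Tor d M) (j : Fin d) : ℂ := s * 1 + (1 - s : ℝ) * ec (-k j)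

theorem am_le {s : ℝ} (h0 : 0 ≤ s) (h1 : s ≤ 1) (k : Tor d M) (j : Fin d) : ‖am s k j‖ ≤ 1 := by
  refine (norm_add_le _ _).trans ?_
  simp only [norm_mul, norm_e, Complex.norm_real, mul_one]
  rw [norm_of_nonneg h0, norm_of_nonneg (sub_nonneg.2 h1)]
  linarith

theorem vr_am (s : ℝ) (k : Tor d M) (j : Fin d) (t : ZMod M) :
    vr (am s k j) t = s * vr 1 t + (1 - s) * vr 1 (t - k j) := by
  rw [am, vr_add, vr_smul, vr_smul, vr_shift]

theorem tilt_am {s : ℝ} (h0 : 0 ≤ s) (h1 : s ≤ 1) (θ : ℝ) (k : Tor d M) :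
    av (fun q : Tor d M => exp (θ * vv (am s k) q)) ≤ Zt M θ ^ d := by
  simp only [vv, mul_sum]
  rw [av_exp_sum fun j t => θ * vr (am s k j) t]
  refine (prod_le_prod (g := fun _ => Zt M θ) (fun j _ => av_nonneg fun _ => (exp_pos _).le)
    fun j _ => ?_).trans (by simp)
  have e : av (fun t : ZMod M => s * exp (θ * vr 1 t) + (1 - s) * exp (θ * vr 1 (t - k j))) =
      Zt M θ := by
    rw [av_add, av_mul, av_mul, show av (fun t : ZMod M => exp (θ * vr 1 (t - k j))) = Zt M θ from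
      av_equiv (Equiv.subRight (k j)) fun t => exp (θ * vr 1 t), Zt]
    ring
  refine (av_mono fun t => ?_).trans e.le
  have := convexOn_exp.2 (Set.mem_univ (θ * vr 1 t)) (Set.mem_univ (θ * vr 1 (t - k j))) h0
    (sub_nonneg.2 h1) (add_sub_cancel _ _)
  simp only [smul_eq_mul] at this
  rw [vr_am]
  refine le_trans (le_of_eq ?_) this
  congr 1
  ring

/-- the partition function of four momenta on the shell -/
theorem four_le (hM : 3 ≤ M) {θ : ℝ} (h0 : 0 ≤ θ) (h1 : θ ≤ 1 / 4) :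
    av (fun z : ZMod M × ZMod M × ZMod M => exp (θ * (vr 1 z.1 + vr 1 z.2.1 + vr 1 z.2.2 +
      vr 1 (z.1 + z.2.1 - z.2.2)))) ≤ exp (4 * θ ^ 2 + 40 * θ ^ 3) := by
  let ρ : ZMod M → ℝ := fun k => av fun a : ZMod M => exp (θ * vr (1 + ec (-k)) a)
  have r : ∀ k a : ZMod M, vr (1 + ec (-k)) a = vr 1 a + vr 1 (k - a) := fun k a => by
    rw [vr_add, vr_shift, ← neg_sub k a]
    simp only [vr, ec, one_mul, ← conj_e, Complex.conj_re]
  have n : ∀ k : ZMod M, ‖1 + ec (-k)‖ ^ 2 = 2 + vr 1 k := fun k => by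
    have := norm_e k
    rw [ec, ← conj_e, ← map_one conj, ← map_add, Complex.norm_conj, Complex.sq_norm,
      Complex.normSq_add, Complex.normSq_eq_norm_sq (ZMod.stdAddChar k), this]
    simp [vr]
    ring
  have r2 : ∀ k, ρ k * ρ k ≤ exp (4 * θ ^ 2 + 32 * θ ^ 3) * exp (2 * θ ^ 2 * vr 1 k) := fun k => by
    have h2 : |θ| * ‖1 + ec (-k)‖ ≤ 2 * θ := by
      have := norm_add_le (1 : ℂ) (ec (-k))
      rw [norm_one, norm_e] at this
      rw [abs_of_nonneg h0]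
      nlinarith
    have h3 := mgf_le hM (h2.trans (by linarith))
    refine (mul_self_le_mul_self (av_nonneg fun _ => (exp_pos _).le) h3).trans ?_
    rw [← exp_add, ← exp_add, exp_le_exp, n]
    nlinarith [pow_le_pow_left₀ (by positivity) h2 3]
  have e : av (fun z : ZMod M × ZMod M × ZMod M => exp (θ * (vr 1 z.1 + vr 1 z.2.1 + vr 1 z.2.2 +
      vr 1 (z.1 + z.2.1 - z.2.2)))) = av fun k => ρ k * ρ k := by
    let φ : ZMod M × ZMod M × ZMod M ≃ ZMod M × ZMod M × ZMod M :=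
      ⟨fun z => (z.2.1, z.1 - z.2.1, z.2.2), fun z => (z.1 + z.2.1, z.1, z.2.2),
        fun z => by simp, fun z => by simp⟩
    rw [← av_equiv φ, av_prod]
    congr 1
    funext k
    rw [av_prod]
    simp only [ρ, φ, Equiv.coe_fn_mk, add_sub_cancel, r]
    rw [mul_comm, ← av_mul]
    congr 1
    funext a
    rw [mul_comm, ← av_mul]
    congr 1
    funext c
    rw [← exp_add]
    ring_nf
  rw [e]
  refine (av_mono r2).trans ?_
  rw [av_mul]
  have h2 : |2 * θ ^ 2| * ‖(1 : ℂ)‖ = 2 * θ ^ 2 := by simp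
  have h3 := mgf_le hM (h2.trans_le (by nlinarith))
  refine (mul_le_mul_of_nonneg_left h3 (exp_pos _).le).trans ?_
  rw [← exp_add, exp_le_exp, h2, norm_one]
  have h4 := pow_nonneg h0 3
  have h5 : θ ^ 3 * θ ≤ θ ^ 3 * (1 / 4) := mul_le_mul_of_nonneg_left h1 h4
  have h6 : θ ^ 3 * θ ^ 3 ≤ θ ^ 3 * (1 / 4) ^ 3 := by gcongr
  nlinarith

end Pool.Agent.P.MP_d0f69c_mp.XS.Ref
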