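import Pool.Agent.P.MP_d0f69c_mp.XS.RefC
import Pool.Agent.P.MP_d0f69c_mp.XS.Ref1

/-!
Reference block: the retarded-retarded bubble is small at every momentum.
-/

set_option autoImplicit false

open Finset Real

namespace Pool.Agent.P.MP_d0f69c_mp.XS.Rf

variable {d M : ℕ} [NeZero M] {θ η ω b K : ℝ} {ζ : Tor d M → ℂ} {w : Fin d → ℂ}

/-- the relations between the numbers -/
structure NumH (d M : ℕ) [NeZero M] (θ b η K : ℝ) : Prop where
  d1 : 1 ≤ d
  θ0 : 0 < θ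
  θ1 : θ ≤ 1 / 10 ^ 4
  b1 : 19 / 10 * θ * d ≤ b
  b2 : b ≤ d
  η0 : exp (-(3 / 2 * θ ^ 2 * d)) ≤ η
  K1 : 1 ≤ K
  big : 10 ^ 4 * K * d ^ 2 ≤ exp (θ ^ 2 * d / 5)
  tilt : Ref.Zt M θ ^ d * exp (-(θ * (b - 2))) ≤ K * η

theorem cw_eq (v : ℂ) (a : ZMod M) : cw v a = Ref.vr v a := by rw [cw, Ref.vr, mul_comm v]

theorem Rw_eq (w : Fin d → ℂ) (q : Tor d M) : Rw w q = Ref.vv w q := by
  simp only [Rw, Ref.vv, cw_eq]

theorem NumH.b4 (h : NumH d M θ b η K) : 10 ^ 4 ≤ b := by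
  have d1 : (1 : ℝ) ≤ d := by exact_mod_cast h.d1
  have a : 1 ≤ θ ^ 2 * d / 5 := by
    by_contra c
    have c1 := (exp_le_exp.2 (not_le.1 c).le).trans exp_one_lt_d9.le
    nlinarith [h.big, mul_le_mul h.K1 (one_le_pow₀ (n := 2) d1) zero_le_one (by linarith [h.K1])]
  nlinarith [h.b1, mul_le_mul_of_nonneg_right h.θ1 (mul_nonneg h.θ0.le (by linarith : (0 : ℝ) ≤ d))]

theorem NumH.small (h : NumH d M θ b η K) : exp (-(θ ^ 2 * d / 5)) ≤ 1 / (10 ^ 4 * K * b ^ 2) := by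
  have := h.b4
  have := h.K1
  rw [exp_neg, ← one_div]
  refine one_div_le_one_div_of_le (by positivity) (le_trans ?_ h.big)
  gcongr
  exact h.b2

theorem NumH.small' (h : NumH d M θ b η K) : exp (-(θ ^ 2 * d / 5)) ≤ 1 / (10 ^ 4 * b) := by
  have := h.b4
  have := h.K1
  refine h.small.trans (one_div_le_one_div_of_le (by positivity) ?_)
  nlinarith [mul_le_mul_of_nonneg_right h.K1 (sq_nonneg b)]

theorem NumH.eta_sq (h : NumH d M θ b η K) {x : ℝ} (hx : x + 16 / 5 * θ ^ 2 * d ≤ 0) :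
    exp x ≤ η ^ 2 * exp (-(θ ^ 2 * d / 5)) := by
  refine le_trans ?_ (mul_le_mul_of_nonneg_right (pow_le_pow_left₀ (exp_pos _).le h.η0 2)
    (exp_pos _).le)
  rw [← exp_nat_mul, ← exp_add, exp_le_exp]
  push_cast
  linarith

theorem NumH.bad (h : NumH d M θ b η K) :
    exp (-(d : ℝ) / 512) ≤ η ^ 2 * exp (-(θ ^ 2 * d / 5)) :=
  h.eta_sq (by
    have d0 : (0 : ℝ) ≤ d := Nat.cast_nonneg d
    nlinarith [mul_le_mul_of_nonneg_right (pow_le_pow_left₀ h.θ0.le h.θ1 2) d0])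

theorem NumH.bad' (h : NumH d M θ b η K) : exp (-(d : ℝ) / 512) ≤ η ^ 2 :=
  h.bad.trans (mul_le_of_le_one_right (sq_nonneg _) (exp_le_one_iff.2 (neg_nonpos.2
    (by positivity))))

theorem NumH.half (h : NumH d M θ b η K) (h3 : 3 ≤ M) (h1 : ∀ j, ‖w j‖ ≤ 1) :
    pr (fun q : Tor d M => b / 2 ≤ Rw w q) ≤ exp (-(θ ^ 2 * d / 5)) := by
  have θ0 := h.θ0
  refine (chern h3 h1 (l := θ / 2) (by linarith) (by linarith [h.θ1]) _).trans (exp_le_exp.2 ?_)
  have a : ∑ j, ‖w j‖ ^ 2 ≤ d := (sum_le_card_nsmul _ _ 1 fun j _ =>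
    pow_le_one₀ (norm_nonneg _) (h1 j)).trans_eq (by simp)
  have a2 : 0 ≤ θ ^ 2 * d := by positivity
  nlinarith [mul_le_mul_of_nonneg_left a (sq_nonneg (θ / 2)), mul_le_mul_of_nonneg_left h.b1 θ0.le,
    mul_le_mul_of_nonneg_right h.θ1 a2]

theorem SyH.re_ge (h : SyH η ω ζ) (q : Tor d M) : b - Rw w q - 1 ≤ (Yw b w ζ q).re := by
  rw [Yw_re]
  linarith [(abs_le.1 ((Complex.abs_re_le_norm _).trans (h.nrm q))).1]

theorem inv_le_of_re {z : ℂ} {c : ℝ} (hc : 0 < c) (h : c ≤ z.re) : ‖z⁻¹‖ ≤ c⁻¹ := by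
  rw [norm_inv]
  exact inv_anti₀ hc (h.trans (Complex.re_le_norm z))

theorem le_split' (a : ℝ) {m : ℝ} (hm : 0 < m) : a ≤ m + m⁻¹ * a ^ 2 := by
  rw [← sub_le_iff_le_add', le_inv_mul_iff₀ hm]
  nlinarith [sq_nonneg (a - m), sq_nonneg a, sq_nonneg m]

/-- the mean square of the inverse symbol -/
theorem SyH.sq_av (h : SyH η ω ζ) (hn : NumH d M θ b η K) (h1 : ∀ j, ‖w j‖ ≤ 1)
    (h2 : (d : ℝ) / 4 ≤ ∑ j, ‖w j‖ ^ 2) (h3 : pr (fun q : Tor d M => b - 2 ≤ Rw w q) ≤ K * η) :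
    av (fun q => ‖(Yw b w ζ q)⁻¹‖ ^ 2) ≤ 1000 * K := by
  have := (div_le_iff₀ h.η0).2 h3
  linarith [h.cnt1 (b := b) h1 h2 hn.bad', hn.K1]

/-- the mean modulus of the inverse symbol -/
theorem SyH.abs_av (h : SyH η ω ζ) (hn : NumH d M θ b η K) (h1 : ∀ j, ‖w j‖ ≤ 1)
    (h2 : av (fun q => ‖(Yw b w ζ q)⁻¹‖ ^ 2) ≤ 1000 * K) :
    av (fun q => ‖(Yw b w ζ q)⁻¹‖) ≤ 6 / b := by
  have b4 := hn.b4
  have K1 := hn.K1
  have x0 : 0 < 1000 * K * b := by positivity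
  have k : av (fun q => ‖(Yw b w ζ q)⁻¹‖ - (1000 * K * b)⁻¹ * ‖(Yw b w ζ q)⁻¹‖ ^ 2) ≤
      1000 * K * b * pr (fun q : Tor d M => b / 2 ≤ Rw w q) + 4 / b := by
    refine av_le_pr _ (fun q _ => ?_) fun q c => ?_
    · have := le_split' ‖(Yw b w ζ q)⁻¹‖ x0
      linarith [show 0 ≤ 4 / b by positivity]
    · have := inv_le_of_re (c := b / 4) (by linarith)
        (le_trans (by linarith) (h.re_ge (b := b) (w := w) q))
      rw [inv_div] at this
      linarith [show 0 ≤ (1000 * K * b)⁻¹ * ‖(Yw b w ζ q)⁻¹‖ ^ 2 by positivity]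
  rw [McdA.av_sub, av_mul] at k
  have k1 := mul_le_mul_of_nonneg_left h2 (inv_pos.2 x0).le
  have k2 := mul_le_mul_of_nonneg_left ((hn.half h.M3 h1).trans hn.small) x0.le
  have e1 : (1000 * K * b)⁻¹ * (1000 * K) = 1 / b := by field_simp
  have e2 : 1000 * K * b * (1 / (10 ^ 4 * K * b ^ 2)) = 1 / 10 * (1 / b) := by field_simp; norm_num
  have e3 : 0 < 1 / b := by positivity
  rw [div_eq_mul_one_div 4] at k
  rw [div_eq_mul_one_div]
  linarith

theorem SyH.rr0 (h : SyH η ω ζ) (hn : NumH d M θ b η K) (h1 : ∀ j, ‖w j‖ ≤ 1)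
    (h3 : pr (fun q : Tor d M => b - 2 ≤ Rw w q) ≤ K * η) :
    ‖avc fun q => (Yw b w ζ q)⁻¹ ^ 2‖ ≤ 70 / b + 8000 * ω * K := by
  have b4 := hn.b4
  have K1 := hn.K1
  have η0 := h.η0
  have w0 := h.ω0
  have t0 := tau_pos h.M3
  have e3 : 0 < 1 / b := by positivity
  have s1 : exp (-(θ ^ 2 * d / 5)) ≤ 1 / 10 ^ 4 * (1 / b) := by
    rw [div_mul_div_comm, one_mul]
    exact hn.small'
  rw [div_eq_mul_one_div]
  rcases le_total ((d : ℝ) / 4) (∑ j, ‖w j‖ ^ 2) with h2 | h2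
  · have k1 := h.sq_av hn h1 h2 h3
    have k2 := h.abs_av hn h1 k1
    have k := ibp h.M3 h.hd h1 h2 (fun q => (Yw b w ζ q)⁻¹) (fun q => (Yw b w ζ q)⁻¹ ^ 2)
      (fun q => 72 * tau M / η ^ 3 + ω * ‖(Yw b w ζ q)⁻¹‖ ^ 2) (Γ := (2 / η) ^ 2)
      (fun q => by
        rw [norm_pow]
        exact pow_le_pow_left₀ (norm_nonneg _) (h.inv_le q) 2)
      fun q j => by
        have c1 := h.step (b := b) (w := w) q j
        have c2 := h.step' (b := b) h1 q j
        have c3 := h.inv_le (b := b) (w := w) q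
        have c4 := h.inv_le (b := b) (w := w) (q + Pi.single j 1)
        have c5 := h.ne (b := b) (w := w) q
        have c6 := h.ne (b := b) (w := w) (q + Pi.single j 1)
        generalize Yw b w ζ (q + Pi.single j 1) = y at *
        generalize Yw b w ζ q = x at *
        generalize (tau M : ℂ) * cw (rot M (w j)) (q j) = u at *
        have e : y⁻¹ - x⁻¹ - u * x⁻¹ ^ 2 =
            (y - x) * (y - x) * (x⁻¹ * x⁻¹ * y⁻¹) - (y - x + u) * x⁻¹ ^ 2 := by
          field_simp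
          ring
        rw [e]
        refine (norm_sub_le _ _).trans ?_
        simp only [norm_mul, norm_pow]
        calc _ ≤ 3 * tau M * (3 * tau M) * (2 / η * (2 / η) * (2 / η)) +
              ω * tau M * ‖x⁻¹‖ ^ 2 := by gcongr
          _ = _ := by ring
    rw [av_add, av_const, av_mul] at k
    have k3 : tau M / η ^ 3 ≤ 1 / 100 * (1 / b) := by
      rw [div_mul_div_comm, div_le_div_iff₀ (by positivity) (by positivity)]
      nlinarith [h.mesh, mul_le_mul_of_nonneg_right hn.b2 t0.le]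
    have k4 : (2 / η) ^ 2 * exp (-(d : ℝ) / 512) ≤ 4 * exp (-(θ ^ 2 * d / 5)) :=
      (mul_le_mul_of_nonneg_left hn.bad (by positivity)).trans_eq (by field_simp; norm_num)
    rw [div_eq_mul_one_div] at k2
    rw [mul_div_assoc] at k
    nlinarith [mul_le_mul_of_nonneg_left k1 w0]
  · have θ0 := hn.θ0
    have θ1 := hn.θ1
    have a2 : 0 ≤ θ ^ 2 * d := by positivity
    have k1 : pr (fun q : Tor d M => b - 2 ≤ Rw w q) ≤ 3 * (η ^ 2 * exp (-(θ ^ 2 * d / 5))) := by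
      refine (chern h.M3 h1 (l := 4 * θ) (by linarith) (by linarith) _).trans (le_trans ?_
        (mul_le_mul exp_one_lt_three.le (hn.eta_sq (x := -(16 / 5 * θ ^ 2 * d)) (by linarith))
          (exp_pos _).le (by norm_num)))
      rw [← exp_add, exp_le_exp]
      nlinarith [mul_le_mul_of_nonneg_left h2 (sq_nonneg (4 * θ)),
        mul_le_mul_of_nonneg_left hn.b1 θ0.le, mul_le_mul_of_nonneg_right θ1 a2]
    have k2 : av (fun q => ‖(Yw b w ζ q)⁻¹ ^ 2‖ - if b / 2 ≤ Rw w q then 1 else 0) ≤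
        (2 / η) ^ 2 * pr (fun q : Tor d M => b - 2 ≤ Rw w q) + 4 / b := by
      have c0 : 0 ≤ 4 / b := by positivity
      refine av_le_pr _ (fun q _ => ?_) fun q c => ?_ <;> rw [norm_pow]
      · have := pow_le_pow_left₀ (norm_nonneg _) (h.inv_le (b := b) (w := w) q) 2
        split_ifs <;> linarith
      · split_ifs with c1
        · have := inv_le_of_re one_pos (le_trans (by linarith) (h.re_ge (b := b) (w := w) q))
          have := pow_le_one₀ (n := 2) (norm_nonneg _) (this.trans_eq inv_one)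
          linarith
        · have := inv_le_of_re (c := b / 4) (by linarith)
            (le_trans (by linarith) (h.re_ge (b := b) (w := w) q))
          rw [inv_div] at this
          have c2 : 4 / b ≤ 1 := (div_le_one (by linarith)).2 (by linarith)
          nlinarith [norm_nonneg (Yw b w ζ q)⁻¹]
    have k3 := (hn.half h.M3 h1).trans s1
    have k4 : (2 / η) ^ 2 * pr (fun q : Tor d M => b - 2 ≤ Rw w q) ≤
        12 * exp (-(θ ^ 2 * d / 5)) :=
      (mul_le_mul_of_nonneg_left k1 (by positivity)).trans_eq (by field_simp; norm_num)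
    have k5 := pr_eq_av fun q : Tor d M => b / 2 ≤ Rw w q
    rw [McdA.av_sub, div_eq_mul_one_div 4] at k2
    have k6 := norm_avc_le fun q => (Yw b w ζ q)⁻¹ ^ 2
    have k7 : (av fun q : Tor d M => if b / 2 ≤ Rw w q then (1 : ℝ) else 0) =
        pr fun q : Tor d M => b / 2 ≤ Rw w q := by
      rw [k5]
    nlinarith [mul_nonneg w0 (show 0 ≤ K by linarith)]

theorem NumH.tail (h : NumH d M θ b η K) {s : ℝ} (s0 : 0 ≤ s) (s1 : s ≤ 1) (k : Tor d M) :
    pr (fun q : Tor d M => b - 2 ≤ Rw (Ref.am s k) q) ≤ K * η :=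
  (Ref.pr_le_exp (fun q hq => mul_le_mul_of_nonneg_left (Rw_eq _ q ▸ hq) h.θ0.le)
    (Ref.tilt_am s0 s1 θ k)).trans ((mul_comm _ _).trans_le h.tilt)

theorem am_one (k : Tor d M) : Ref.am 1 k = fun _ => 1 := by
  funext j
  simp [Ref.am]

/-- the mean square of the inverse symbol, unit amplitudes -/
theorem SyH.sq_av1 (h : SyH η ω ζ) (hn : NumH d M θ b η K) :
    av (fun q => ‖(Yw b (fun _ => 1) ζ q)⁻¹‖ ^ 2) ≤ 1000 * K :=
  h.sq_av hn (by simp) (by simp; linarith [Nat.cast_nonneg (α := ℝ) d])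
    (am_one (0 : Tor d M) ▸ hn.tail zero_le_one le_rfl 0)

theorem SyH.mix (h : SyH η ω ζ) {s : ℝ} (s0 : 0 ≤ s) (s1 : s ≤ 1) (k : Tor d M) :
    SyH η ω fun q => s * ζ q + (1 - s : ℝ) * ζ (q - k) := by
  have n : ∀ (x y : ℂ) (c : ℝ), ‖x‖ ≤ c → ‖y‖ ≤ c → ‖s * x + (1 - s : ℝ) * y‖ ≤ c :=
    fun x y c a1 a2 => by
      refine (norm_add_le _ _).trans ?_
      rw [norm_mul, norm_mul, Complex.norm_real, Complex.norm_real, norm_of_nonneg s0,
        norm_of_nonneg (sub_nonneg.2 s1)]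
      nlinarith
  refine ⟨h.M3, h.hd, h.η0, h.η1, h.ω1, h.mesh, fun q => ?_, fun q => n _ _ _ (h.nrm _) (h.nrm _),
    fun q j a => le_trans (le_of_eq ?_) (n _ _ _ (h.lip q j a) (h.lip (q - k) j a))⟩
  · rw [Complex.add_im, Complex.im_ofReal_mul, Complex.im_ofReal_mul]
    nlinarith [h.im q, h.im (q - k)]
  · rw [add_sub_right_comm]
    congr 1
    ring

/-- the retarded-retarded bubble -/
theorem SyH.rr (h : SyH η ω ζ) (hn : NumH d M θ b η K) (k : Tor d M) :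
    ‖avc fun q => (Yw b (fun _ => 1) ζ q)⁻¹ * (Yw b (fun _ => 1) ζ (q - k))⁻¹‖ ≤
      70 / b + 8000 * ω * K := by
  set Y := Yw b (fun _ => 1) ζ with hY
  have e : ∀ (s : ℝ) q, Yw b (Ref.am s k) (fun q => s * ζ q + (1 - s : ℝ) * ζ (q - k)) q =
      s * Y q + (1 - s) * Y (q - k) := fun s q => by
    simp only [hY, Yw, Rw, cw_eq, Ref.vr_am, sum_add_distrib, ← mul_sum, Pi.sub_apply]
    push_cast
    ring
  have k1 := norm_image_sub_le_of_norm_deriv_le_segment_01'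
    (f := fun s : ℝ => avc fun q => s * ((Y (q - k))⁻¹ * (s * Y q + (1 - s) * Y (q - k))⁻¹))
    (f' := fun s : ℝ => avc fun q => (s * Y q + (1 - s) * Y (q - k))⁻¹ ^ 2)
    (C := 70 / b + 8000 * ω * K) (fun s hs => ?_) fun s hs => ?_
  · simpa [avc, mul_comm] using k1
  · refine (HasDerivAt.div_const (HasDerivAt.fun_sum fun q _ => ?_) _).hasDerivWithinAt
    have c1 := (h.mix hs.1 hs.2 k).ne (b := b) (w := Ref.am s k) q
    have c2 : Y (q - k) ≠ 0 := h.ne _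
    rw [e] at c1
    have c3 : HasDerivAt (fun z : ℂ => z * ((Y (q - k))⁻¹ * (z * Y q + (1 - z) * Y (q - k))⁻¹))
        ((s * Y q + (1 - s) * Y (q - k))⁻¹ ^ 2) s := by
      refine ((hasDerivAt_id (s : ℂ)).mul (((((hasDerivAt_id (s : ℂ)).mul_const (Y q)).add
        (((hasDerivAt_id (s : ℂ)).const_sub 1).mul_const (Y (q - k)))).inv c1).const_mul
          (Y (q - k))⁻¹)).congr_deriv ?_
      simp only [id, Pi.add_apply, Pi.inv_apply]
      field_simp
      ring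
    exact c3.comp_ofReal
  · simp only [← e]
    exact (h.mix hs.1 hs.2.le k).rr0 hn (Ref.am_le hs.1 hs.2.le k) (hn.tail hs.1 hs.2.le k)

end Pool.Agent.P.MP_d0f69c_mp.XS.Rf
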