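import Pool.Agent.P.MP_d0f69c_mp.XS.RefD
import Pool.Agent.P.MP_d0f69c_mp.XS.RefR

/-!
Reference block: the choice of the shell.
-/

set_option autoImplicit false

open Finset Real

namespace Pool.Agent.P.MP_d0f69c_mp.XS.Rf

open Ref

variable {d M : ℕ} [NeZero M] {θ : ℝ}

/-- the tilted mass of the shell -/
noncomputable def Nt (d M : ℕ) [NeZero M] (θ b : ℝ) : ℝ := Zt M θ ^ d * exp (-(θ * (b - 2)))

theorem Zt_pos (θ : ℝ) : 0 < Zt M θ := lt_of_lt_of_le (exp_pos (-(|θ| * 2))) (by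
  rw [← av_const (α := ZMod M) (exp _)]
  refine av_mono fun t => exp_le_exp.2 (neg_le_of_abs_le ?_)
  rw [abs_mul]
  exact mul_le_mul_of_nonneg_left (by simpa using abs_vr 1 t) (abs_nonneg _))

theorem Nt_pos (θ b : ℝ) : 0 < Nt d M θ b := mul_pos (pow_pos (Zt_pos θ) _) (exp_pos _)

theorem av_tilt (θ : ℝ) : av (fun q : Tor d M => exp (θ * R1 q)) = Zt M θ ^ d := by
  simp only [R1_eq, vv, mul_sum]
  rw [av_exp_sum fun _ t => θ * vr 1 t]
  simp [Zt]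

theorem Zt_le (hM : 3 ≤ M) (h0 : 0 ≤ θ) (h1 : θ ≤ 1 / 2) :
    Zt M θ ^ d ≤ exp ((θ ^ 2 + 2 * θ ^ 3) * d) := by
  rw [mul_comm, exp_nat_mul]
  refine pow_le_pow_left₀ (Zt_pos θ).le ?_ _
  linarith [(abs_le.1 (Zt_bound hM h0 h1)).2, add_one_le_exp (θ ^ 2 + 2 * θ ^ 3)]

theorem le_Zt (hM : 3 ≤ M) (h0 : 0 ≤ θ) (h1 : θ ≤ 1 / 4) :
    exp ((θ ^ 2 - 3 * θ ^ 3) * d) ≤ Zt M θ ^ d := by
  rw [mul_comm, exp_nat_mul]
  refine pow_le_pow_left₀ (exp_pos _).le ?_ _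
  have a0 : 0 ≤ θ ^ 2 - 3 * θ ^ 3 := by nlinarith [sq_nonneg θ]
  have a1 : θ ^ 2 - 3 * θ ^ 3 ≤ θ ^ 2 := by nlinarith [pow_nonneg h0 3]
  have a2 := abs_exp_sub_one_sub_id_le (x := θ ^ 2 - 3 * θ ^ 3)
    (by rw [abs_of_nonneg a0]; nlinarith)
  nlinarith [(abs_le.1 (Zt_bound hM h0 (by linarith))).1, (abs_le.1 a2).2,
    pow_le_pow_left₀ a0 a1 2, pow_nonneg h0 3]

theorem Nt_le (hM : 3 ≤ M) (h0 : 0 < θ) (h1 : θ ≤ 1 / 10 ^ 4) (hd : 1500 ≤ θ ^ 2 * d) {b : ℝ}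
    (hb : 19 / 10 * θ * d ≤ b) : Nt d M θ b ≤ exp (-(4 / 5 * θ ^ 2 * d)) := by
  refine (mul_le_mul_of_nonneg_right (Zt_le hM h0.le (by linarith)) (exp_pos _).le).trans ?_
  rw [← exp_add, exp_le_exp]
  nlinarith [mul_le_mul_of_nonneg_left hb h0.le, mul_le_mul_of_nonneg_right h1 (show 0 ≤ θ ^ 2 * d by linarith)]

theorem le_Nt (hM : 3 ≤ M) (h0 : 0 < θ) (h1 : θ ≤ 1 / 10 ^ 4) {b : ℝ}
    (hb : b ≤ 21 / 10 * θ * d) : exp (-(6 / 5 * θ ^ 2 * d)) ≤ Nt d M θ b := by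
  refine le_trans ?_ (mul_le_mul_of_nonneg_right (le_Zt hM h0.le (by linarith)) (exp_pos _).le)
  rw [← exp_add, exp_le_exp]
  nlinarith [mul_le_mul_of_nonneg_left hb h0.le,
    mul_le_mul_of_nonneg_right h1 (show 0 ≤ θ ^ 2 * d by positivity)]

/-- a level that carries a fair share of the tilted mass -/
theorem window (hM : 3 ≤ M) (h0 : 0 < θ) (h1 : θ ≤ 1 / 10 ^ 4) (hd : 1500 ≤ θ ^ 2 * d) :
    ∃ b : ℝ, 19 / 10 * θ * d ≤ b ∧ b ≤ 21 / 10 * θ * d ∧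
      Nt d M θ b ≤ θ * d * pr fun q : Tor d M => b + 1 ≤ R1 q := by
  classical
  by_contra hc
  push Not at hc
  set x : ℝ := 19 / 10 * θ * d with hx
  set n := ⌊θ * d / 5⌋₊ with hn
  have d0 : (0 : ℝ) ≤ d := Nat.cast_nonneg d
  have t0 : 0 ≤ θ * d := by positivity
  have t1 : 1500 * 10 ^ 4 ≤ θ * d := by nlinarith
  have n1 : (n : ℝ) ≤ θ * d / 5 := Nat.floor_le (by positivity)
  have n2 : θ * d / 5 < n + 1 := Nat.lt_floor_add_one _
  have Z0 : 0 < Zt M θ ^ d := pow_pos (Zt_pos θ) _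
  have k : ∀ r : ℝ, exp (θ * r) ≤ exp (θ / 20 * (x + 1)) * exp (19 / 20 * θ * r) +
      exp (-(θ / 20 * (x + n + 1))) * exp (21 / 20 * θ * r) +
      ∑ i ∈ range n, exp (θ * (x + i + 2)) * if x + i + 1 ≤ r then 1 else 0 := fun r => by
    have p1 := mul_pos (exp_pos (θ / 20 * (x + 1))) (exp_pos (19 / 20 * θ * r))
    have p2 := mul_pos (exp_pos (-(θ / 20 * (x + n + 1)))) (exp_pos (21 / 20 * θ * r))
    have p3 : ∀ i ∈ range n, 0 ≤ exp (θ * (x + i + 2)) * if x + i + 1 ≤ r then (1 : ℝ) else 0 :=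
      fun i _ => by positivity
    rcases le_total r (x + 1) with c | c
    · have : exp (θ * r) ≤ exp (θ / 20 * (x + 1)) * exp (19 / 20 * θ * r) := by
        rw [← exp_add, exp_le_exp]
        nlinarith
      linarith [sum_nonneg p3]
    rcases le_or_gt (x + n + 1) r with c' | c'
    · have : exp (θ * r) ≤ exp (-(θ / 20 * (x + n + 1))) * exp (21 / 20 * θ * r) := by
        rw [← exp_add, exp_le_exp]
        nlinarith
      linarith [sum_nonneg p3]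
    have i1 := Nat.floor_le (sub_nonneg.2 c)
    have i2 := Nat.lt_floor_add_one (r - (x + 1))
    have := single_le_sum p3 (mem_range.2 ((Nat.floor_lt (sub_nonneg.2 c)).2 (by linarith)))
    rw [if_pos (by linarith), mul_one] at this
    have : exp (θ * r) ≤ exp (θ * (x + ⌊r - (x + 1)⌋₊ + 2)) := exp_le_exp.2 (by nlinarith)
    linarith
  have k1 := av_mono fun q : Tor d M => k (R1 q)
  rw [av_add, av_add, av_mul, av_mul, av_sum, av_tilt, av_tilt, av_tilt] at k1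
  simp only [av_mul, ← pr_eq_av] at k1
  have e3 : exp (-2 : ℝ) ≤ 1 / 4 := by
    rw [exp_neg, one_div]
    exact inv_anti₀ (by norm_num) (by linarith [quadratic_le_exp_of_nonneg (zero_le_two (α := ℝ))])
  have c3 := mul_le_mul_of_nonneg_right h1 (show 0 ≤ θ ^ 2 * d by linarith)
  have lo := le_Zt (d := d) hM h0.le (by linarith)
  have w : ∀ {l y : ℝ}, 0 ≤ l → l ≤ 1 / 2 → y + (l ^ 2 + 2 * l ^ 3) * d ≤ -2 + (θ ^ 2 - 3 * θ ^ 3) * d →
      exp y * Zt M l ^ d ≤ 1 / 4 * Zt M θ ^ d := fun l0 l1 h => by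
    refine (mul_le_mul_of_nonneg_left (Zt_le hM l0 l1) (exp_pos _).le).trans
      (le_trans ?_ (mul_le_mul e3 lo (exp_pos _).le (by norm_num)))
    rwa [← exp_add, ← exp_add, exp_le_exp]
  have w1 := w (l := 19 / 20 * θ) (y := θ / 20 * (x + 1)) (by positivity) (by linarith) (by nlinarith)
  have w2 := w (l := 21 / 20 * θ) (y := -(θ / 20 * (x + n + 1))) (by positivity) (by linarith)
    (by nlinarith)
  have w3 : ∑ i ∈ range n, exp (θ * (x + i + 2)) * pr (fun q : Tor d M => x + i + 1 ≤ R1 q) ≤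
      n * (2 * Zt M θ ^ d / (θ * d)) := by
    refine (sum_le_card_nsmul _ _ _ fun i hi => ?_).trans_eq (by rw [card_range, nsmul_eq_mul])
    have i1 : (i : ℝ) ≤ n := by exact_mod_cast (mem_range.1 hi).le
    have := hc (x + i) (by linarith [Nat.cast_nonneg (α := ℝ) i]) (by linarith)
    rw [le_div_iff₀ (by linarith), mul_assoc, mul_comm (pr _)]
    refine (mul_le_mul_of_nonneg_left this.le (exp_pos _).le).trans ?_
    rw [Nt, mul_left_comm, ← exp_add, mul_comm]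
    refine mul_le_mul_of_nonneg_right ?_ Z0.le
    have a := abs_exp_sub_one_le (x := θ * (x + i + 2) + -(θ * (x + i - 2))) (by
      rw [abs_le]; constructor <;> linarith)
    have a2 : |θ * (x + i + 2) + -(θ * (x + i - 2))| ≤ 1 / 2 := by
      rw [abs_le]; constructor <;> linarith
    linarith [(abs_le.1 a).2]
  have w4 : n * (2 * Zt M θ ^ d / (θ * d)) ≤ 2 / 5 * Zt M θ ^ d := by
    rw [mul_div_assoc', div_le_iff₀ (by linarith)]
    nlinarith
  linarith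

end Pool.Agent.P.MP_d0f69c_mp.XS.Rf
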