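import Pool.Agent.P.MP_d0f69c_mp.XS.In6
import Pool.Agent.P.MP_d0f69c_mp.XS.Defs

/-!
Reference block: the reference network of a kernel with a small gap.
-/

set_option autoImplicit false

open Complex Finset
open scoped ComplexConjugate

namespace Pool.Agent.P.MP_d0f69c_mp.XS.Rf

variable {d M : ℕ} [NeZero M] {p : (Fin d → ZMod M) → ℝ} {l L : ℝ}

/-- the hypotheses on the kernel -/
structure RefG (p : (Fin d → ZMod M) → ℝ) (l L : ℝ) : Prop where
  hd : 5 ≤ d
  nonneg : ∀ h, 0 ≤ p h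
  even : ∀ h, p (-h) = p h
  mass : ∑ h, p h ≤ 2
  lpos : 0 < l
  mom : ∑ h, p h * (tn d M h : ℝ) ^ 2 ≤ l ^ 2
  L1 : L ≤ 1 / 21
  LM : 1 ≤ L * M
  sym : ∀ k i, L ≤ rh (k i) → 1 / 100 ≤ DD p k

theorem RefG.DD_nonneg (h : RefG p l L) (k : Fin d → ZMod M) : 0 ≤ DD p k :=
  sum_nonneg fun x _ => mul_nonneg (h.nonneg x) (by
    linarith [(re_le_norm _).trans (norm_ch k x).le])

theorem RefG.ft_eq (h : RefG p l L) (k : Fin d → ZMod M) :
    ft (fun x => (p x : ℂ)) k = (∑ x, p x - DD p k : ℝ) := by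
  have e : conj (ft (fun x => (p x : ℂ)) k) = ft (fun x => (p x : ℂ)) k := by
    simp only [ft, map_sum, map_mul, conj_ofReal, conj_ch]
    rw [← Equiv.sum_comp (Equiv.neg _)]
    simp only [Equiv.neg_apply, h.even, neg_neg]
  rw [← conj_eq_iff_re.1 e, ft, re_sum, DD, ← sum_sub_distrib]
  congr 1
  refine sum_congr rfl fun x _ => ?_
  rw [re_ofReal_mul, ← conj_ch, conj_re]
  ring

theorem RefG.Lpos (h : RefG p l L) : 0 < L := by
  by_contra c
  nlinarith [h.LM, M_pos M]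

theorem RefG.sym1 (h : RefG p l L) {k : Fin d → ZMod M} (hk : L ≤ tn d M k / M) :
    1 / 100 ≤ DD p k := by
  obtain ⟨i, e⟩ := exists_rh h.hd k
  exact h.sym k i (e ▸ hk)

theorem RefG.sym2 (h : RefG p l L) {k : Fin d → ZMod M} (hk : tn d M k / M ≤ L) :
    ((tn d M k : ℝ) / M) ^ 2 ≤ 400 * L ^ 2 * DD p k := by
  obtain ⟨i, e⟩ := exists_rh h.hd k
  rw [← e] at hk ⊢
  have D0 := h.DD_nonneg k
  rcases (rh_nonneg (k i)).eq_or_lt with r0 | r0
  · rw [← r0]
    simpa using by positivity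
  set n := ⌈L / rh (k i)⌉₊ with hn
  have n1 : L ≤ n * rh (k i) := (div_le_iff₀ r0).1 (Nat.le_ceil _)
  have n2 : n * rh (k i) ≤ 2 * L := by
    have := Nat.ceil_lt_add_one (div_pos h.Lpos r0).le
    rw [← hn, div_add_one r0.ne', lt_div_iff₀ r0] at this
    linarith
  have n3 : rh ((n • k) i) = n * rh (k i) := by
    have a := ZMod.valMinAbs_spec ((n • k) i) (n * (k i).valMinAbs)
    have b : |((n * (k i).valMinAbs : ℤ) : ℝ)| / M = n * rh (k i) := by
      push_cast
      rw [abs_mul, Nat.abs_cast, mul_div_assoc, rh]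
    have c : |((n * (k i).valMinAbs : ℤ) : ℝ)| * 2 < M := by
      rw [div_eq_iff (M_pos M).ne'] at b
      nlinarith [h.L1, M_pos M]
    have c' : |n * (k i).valMinAbs| * 2 < M := by exact_mod_cast c
    have c1 := neg_abs_le (n * (k i).valMinAbs)
    have c2 := le_abs_self (n * (k i).valMinAbs)
    rw [rh, a.2 ⟨by simp, by linarith, by linarith⟩, b]
  have n4 := h.sym (n • k) i (n3 ▸ n1)
  have n5 : DD p (n • k) ≤ n ^ 2 * DD p k := by
    rw [DD, DD, mul_sum]
    refine sum_le_sum fun x _ => ?_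
    have := pow_le_pow_left₀ (norm_nonneg _) (norm_pow_sub n (norm_ch k x)) 2
    rw [← ch_nsmul, mul_pow, norm_ch_sq, norm_ch_sq] at this
    nlinarith [mul_le_mul_of_nonneg_left this (h.nonneg x)]
  have n6 := mul_le_mul_of_nonneg_right (pow_le_pow_left₀ (by positivity) n2 2) D0
  nlinarith [mul_le_mul_of_nonneg_right (n4.trans n5) (sq_nonneg (rh (k i)))]

theorem RefG.shift (h : RefG p l L) (F : (Fin d → ZMod M) → ℝ) (a : Fin d → ZMod M) :
    ∑ x, (F (x + a) - F x) ^ 2 ≤ 400 * (1 + (8 * d * L * tn d M a) ^ 2) * NF p F := by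
  have e := shift_sq (fun x => (F x : ℂ)) a
  simp only [← ofReal_sub, norm_real, Real.norm_eq_abs, sq_abs] at e
  rw [e, NF_ft, mul_div_assoc', mul_sum]
  refine div_le_div_of_nonneg_right (sum_le_sum fun k _ => ?_) (vol_pos d M).le
  rw [← mul_assoc]
  refine mul_le_mul_of_nonneg_right ?_ (sq_nonneg _)
  have D0 := h.DD_nonneg k
  rcases le_total L (tn d M k / M) with c | c
  · have := (norm_sub_le (ch k a) 1).trans_eq (by rw [norm_ch, norm_one])
    nlinarith [h.sym1 c, mul_nonneg D0 (sq_nonneg (8 * d * L * tn d M a)), norm_nonneg (ch k a - 1)]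
  · have h1 := (norm_ch_sub k a (rh_le_tn k) (b := tn d M a) fun i => by
      simpa using (Nat.cast_le (α := ℝ)).2 (le_tn a i)).trans
      (show _ ≤ (d : ℝ) * (2 * 4 * (tn d M k / M) * tn d M a) by gcongr; exact Real.pi_le_four)
    have h2 := pow_le_pow_left₀ (norm_nonneg _) h1 2
    nlinarith [mul_le_mul_of_nonneg_left (h.sym2 c) (sq_nonneg (8 * d * tn d M a : ℝ))]

theorem RefG.den (h : RefG p l L) (k : Fin d → ZMod M) : 0 < DD p k + 1 / (M : ℝ) ^ 2 := by
  have := h.DD_nonneg k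
  have := M_pos M
  positivity

theorem RefG.gt_nonneg (h : RefG p l L) (x : Fin d → ZMod M) : 0 ≤ gt p x := by
  have e : ∀ x, (∑ h, p h + 1 / (M : ℝ) ^ 2) * gt p x = p x + ∑ y, p (x - y) * gt p y := fun x => by
    have a := conv_ift (ft fun x => (p x : ℂ)) (fun y => gt p y) x
    simp only [ift_ft, funext (gt_eq p), ft_ift] at a
    have b := ift_ft (fun x => (p x : ℂ)) x
    refine ofReal_injective ?_
    rw [ofReal_add, ofReal_mul, ofReal_sum univ fun y => p (x - y) * gt p y]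
    simp only [ofReal_mul (p _)]
    rw [a, ← b, gt_eq]
    simp only [ift, mul_div_assoc', ← add_div, mul_sum, ← sum_add_distrib, h.ft_eq]
    congr 1
    refine sum_congr rfl fun k _ => ?_
    rw [← mul_assoc, ← add_mul, ← ofReal_mul, ← ofReal_mul, ← ofReal_add, uu]
    congr 2
    have := (h.den k).ne'
    generalize 1 / (M : ℝ) ^ 2 = κ at this ⊢
    field_simp
    ring
  obtain ⟨x0, -, m⟩ := exists_min_image univ (gt p) univ_nonempty
  refine le_trans ?_ (m x (mem_univ x))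
  have a : (∑ h, p h) * gt p x0 ≤ ∑ y, p (x0 - y) * gt p y := by
    rw [← Equiv.sum_comp (Equiv.subLeft x0), sum_mul]
    exact sum_le_sum fun y _ => mul_le_mul_of_nonneg_left (m y (mem_univ y)) (h.nonneg _)
  have b : 0 < 1 / (M : ℝ) ^ 2 := by
    have := M_pos M
    positivity
  exact nonneg_of_mul_nonneg_right (a := 1 / (M : ℝ) ^ 2) (by linarith [e x0, h.nonneg x0]) b

theorem RefG.var (h : RefG p l L) (hp : 0 < ∑ h, p h) :
    Var (fun F => NF p F + 1 / (M : ℝ) ^ 2 * ∑ x, F x ^ 2) (fun x y => gt p (x - y))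
      (∑ h, p h + 1 / (M : ℝ) ^ 2) := fun z F => by
  have V0 := vol_pos d M
  have c0 : 0 < ∑ h, p h + 1 / (M : ℝ) ^ 2 := by positivity
  have s : ∀ u : (Fin d → ZMod M) → ℝ,
      ∑ x, u x ^ 2 = (∑ k, ‖ft (fun x => (u x : ℂ)) k‖ ^ 2) / (M : ℝ) ^ d := fun u => by
    simp only [← pars_ft, norm_real, Real.norm_eq_abs, sq_abs]
  have a : ∑ x, z x * F x = (∑ k, (ft (fun x => (z x : ℂ)) k *
      conj (ft (fun x => (F x : ℂ)) k)).re) / (M : ℝ) ^ d := by
    have := congrArg re (pars (ft fun x => (z x : ℂ)) fun x => (F x : ℂ))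
    rw [← ofReal_natCast, ← ofReal_pow, div_ofReal_re, re_sum, re_sum] at this
    simpa only [ift_ft, conj_ofReal, ← ofReal_mul, ofReal_re] using this
  have b : ∑ x, ∑ y, z x * gt p (x - y) * z y = (∑ k, ((∑ h, p h + 1 / (M : ℝ) ^ 2) * uu p k - 1) *
      ‖ft (fun x => (z x : ℂ)) k‖ ^ 2) / (M : ℝ) ^ d := by
    have := pars (fun k => ((∑ h, p h + 1 / (M : ℝ) ^ 2) * uu p k - 1 : ℝ) *
      ft (fun x => (z x : ℂ)) k) fun x => (z x : ℂ)
    simp only [← conv_ift, ← gt_eq, mul_assoc, mul_conj', conj_ofReal] at this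
    simp only [mul_assoc, ← mul_sum, mul_comm (z _) (∑ y, _)]
    exact_mod_cast this
  beta_reduce
  rw [a, b, s z, s F, NF_ft, mul_div_assoc', mul_div_assoc', ← add_div, ← add_div, div_right_comm,
    ← sub_div, mul_sum, mul_sum, ← sum_add_distrib, ← sum_add_distrib, sum_div, ← sum_sub_distrib]
  refine div_le_div_of_nonneg_right (sum_le_sum fun k _ => ?_) V0.le
  have D0 := h.den k
  have r := (re_le_norm (ft (fun x => (z x : ℂ)) k * conj (ft (fun x => (F x : ℂ)) k))).trans_eq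
    (by rw [norm_mul, norm_conj])
  rw [← one_add_mul, add_sub_cancel, mul_assoc, mul_div_cancel_left₀ _ c0.ne', ← add_mul, uu]
  generalize DD p k + 1 / (M : ℝ) ^ 2 = D at D0 ⊢
  generalize ‖ft (fun x => (z x : ℂ)) k‖ = A at r ⊢
  generalize ‖ft (fun x => (F x : ℂ)) k‖ = B at r ⊢
  have : 0 ≤ D⁻¹ * (A - D * B) ^ 2 := by positivity
  have e : D⁻¹ * (A - D * B) ^ 2 = D⁻¹ * A ^ 2 - 2 * (A * B) + D * B ^ 2 := by
    field_simp
    ring
  linarith

theorem RefG.low (h : RefG p l L) {a : ℝ} (a0 : 0 ≤ a) (a1 : a ≤ 9 / 4) :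
    (∑ k with (tn d M k : ℝ) / M < L, uu p k ^ a) / (M : ℝ) ^ d ≤
      10 ^ 8 * (21 * L) ^ d + (M : ℝ) ^ (-(1 / 2) : ℝ) := by
  have M0 := M_pos M
  have M1 : (1 : ℝ) ≤ M := by exact_mod_cast NeZero.one_le
  have V0 := vol_pos d M
  have L0 := h.Lpos
  have d5 : (5 : ℝ) ≤ d := by exact_mod_cast h.hd
  have k1 : ∀ k : Fin d → ZMod M, (tn d M k : ℝ) / M < L → uu p k ^ a ≤
      10 ^ 8 * (L ^ (9 / 10 : ℝ)) ^ d * ∏ j, wt L (k j) +
        if k = 0 then (M : ℝ) ^ (-(1 / 2) : ℝ) * (M : ℝ) ^ d else 0 := fun k hk => by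
    have u0 : 0 ≤ uu p k := (inv_pos.2 (h.den k)).le
    have w0 : 0 ≤ ∏ j, wt L (k j) := prod_nonneg fun j _ => wt_nonneg _ _
    split_ifs with k0
    · refine le_add_of_nonneg_of_le (by positivity) ?_
      have : uu p k ≤ M ^ (2 : ℝ) := by
        rw [uu, Real.rpow_two]
        exact inv_le_of_inv_le₀ (by positivity) (by simpa using h.DD_nonneg k)
      refine (Real.rpow_le_rpow u0 this a0).trans ?_
      rw [← Real.rpow_mul M0.le, ← Real.rpow_natCast, ← Real.rpow_add M0]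
      exact Real.rpow_le_rpow_of_exponent_le M1 (by linarith)
    · set ρ : ℝ := tn d M k / M with hρ
      have r1 : 1 / M ≤ ρ := div_le_div_of_nonneg_right
        (by exact_mod_cast Nat.pos_of_ne_zero (mt tn_eq_zero k0)) M0.le
      have r0 : 0 < ρ := lt_of_lt_of_le (by positivity) r1
      have r2 : 1 ≤ L / ρ := (one_le_div r0).2 hk.le
      have u1 : uu p k ≤ 400 * (L / ρ) ^ (2 : ℝ) := by
        rw [uu, Real.rpow_two]
        refine inv_le_of_inv_le₀ (by positivity) (le_add_of_le_of_nonneg ?_ (by positivity))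
        rw [div_pow, mul_div_assoc', inv_div, div_le_iff₀' (by positivity)]
        exact h.sym2 hk.le
      rw [add_zero]
      refine (Real.rpow_le_rpow u0 u1 a0).trans ?_
      rw [Real.mul_rpow (by norm_num) (by positivity), ← Real.rpow_mul (by positivity), mul_assoc]
      refine mul_le_mul ((Real.rpow_le_rpow_of_exponent_le (z := (3 : ℕ)) (by norm_num)
        (by push_cast; linarith)).trans (by norm_num)) ?_ (by positivity) (by norm_num)
      refine (Real.rpow_le_rpow_of_exponent_le (z := 9 / 10 * d) r2 (by linarith)).trans ?_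
      rw [Real.rpow_mul_natCast (by positivity), Real.div_rpow L0.le r0.le, div_eq_mul_inv, mul_pow,
        ← Real.rpow_neg r0.le]
      refine mul_le_mul_of_nonneg_left (le_trans (by simp) (prod_le_prod
        (f := fun _ => ρ ^ (-(9 / 10) : ℝ)) (fun _ _ => by positivity) fun j _ => ?_))
        (by positivity)
      rw [wt, if_pos ((rh_le_tn k j).trans hk.le)]
      exact Real.rpow_le_rpow_of_nonpos (by positivity) (max_le (rh_le_tn k j) r1) (by norm_num)
  refine (div_le_div_of_nonneg_right ((sum_le_sum fun k hk => k1 k (mem_filter.1 hk).2).trans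
    (sum_le_sum_of_subset_of_nonneg (filter_subset _ _) fun k _ _ => ?_)) V0.le).trans ?_
  · have w0 : 0 ≤ ∏ j, wt L (k j) := prod_nonneg fun j _ => wt_nonneg _ _
    positivity
  · rw [sum_add_distrib, ← mul_sum, add_div, mul_div_assoc, sum_ite_eq', if_pos (mem_univ _),
      mul_div_cancel_right₀ _ V0.ne']
    refine add_le_add ((mul_le_mul_of_nonneg_left (sum_prod_wt h.LM) (by positivity)).trans
      (le_of_eq ?_)) le_rfl
    rw [mul_assoc, ← mul_pow, mul_left_comm (L ^ _), ← Real.rpow_add L0]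
    norm_num

theorem RefG.uu_le (h : RefG p l L) {k : Fin d → ZMod M} (hk : ¬ (tn d M k : ℝ) / M < L) :
    uu p k ≤ 100 :=
  inv_le_of_inv_le₀ (by norm_num) (le_add_of_le_of_nonneg (by simpa using h.sym1 (not_lt.1 hk))
    (by positivity))

theorem RefG.gt_sq (h : RefG p l L) : ∑ x, gt p x ^ 2 ≤
    10 ^ 4 * ∑ x, p x ^ 2 + 4 * (10 ^ 8 * (21 * L) ^ d + (M : ℝ) ^ (-(1 / 2) : ℝ)) := by
  have V0 := vol_pos d M
  have e : ∑ x, gt p x ^ 2 = (∑ k, (‖ft (fun x => (p x : ℂ)) k‖ * uu p k) ^ 2) / (M : ℝ) ^ d := by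
    have := pars_sq fun k => (((∑ h, p h + 1 / (M : ℝ) ^ 2) * uu p k - 1 : ℝ) : ℂ)
    simp only [← gt_eq, norm_real, Real.norm_eq_abs, sq_abs] at this
    simp only [this, h.ft_eq, norm_real, Real.norm_eq_abs, mul_pow, sq_abs]
    congr 1
    refine sum_congr rfl fun k _ => ?_
    rw [← mul_pow, uu]
    have := (h.den k).ne'
    generalize 1 / (M : ℝ) ^ 2 = κ at this ⊢
    field_simp
    ring
  have e2 := pars_ft fun x => (p x : ℂ)
  simp only [norm_real, Real.norm_eq_abs, sq_abs] at e2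
  rw [e, e2, ← sum_filter_add_sum_filter_not univ fun k => (tn d M k : ℝ) / M < L, add_div,
    add_comm]
  refine add_le_add ?_ (le_trans ?_ (mul_le_mul_of_nonneg_left
    (h.low zero_le_two (by norm_num)) (by norm_num)))
  · rw [mul_div_assoc', mul_sum]
    refine div_le_div_of_nonneg_right ((sum_le_sum fun k hk => ?_).trans
      (sum_le_sum_of_subset_of_nonneg (filter_subset _ _) fun k _ _ => by positivity)) V0.le
    have := pow_le_pow_left₀ (inv_pos.2 (h.den k)).le (h.uu_le (mem_filter.1 hk).2) 2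
    rw [mul_pow, mul_comm]
    exact mul_le_mul_of_nonneg_right (this.trans (by norm_num)) (sq_nonneg _)
  · rw [mul_div_assoc', mul_sum]
    refine div_le_div_of_nonneg_right (sum_le_sum fun k _ => ?_) V0.le
    rw [mul_pow, Real.rpow_two]
    refine mul_le_mul_of_nonneg_right ?_ (sq_nonneg _)
    have : ‖ft (fun x => (p x : ℂ)) k‖ ≤ 2 := (norm_sum_le _ _).trans (le_trans (le_of_eq
      (sum_congr rfl fun x _ => by simp [abs_of_nonneg (h.nonneg x)])) h.mass)
    nlinarith [norm_nonneg (ft (fun x => (p x : ℂ)) k)]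

theorem RefG.tail (h : RefG p l L) {D : ℕ} (hD : 0 < D) :
    ∑ x with D ≤ tn d M x, gt p x ^ 2 ≤ 10 ^ 10 * d * (l / D) ^ (1 / 4 : ℝ) := by
  have V0 := vol_pos d M
  have M0 := M_pos M
  have M1 : (1 : ℝ) ≤ M := by exact_mod_cast NeZero.one_le
  have D0 : (0 : ℝ) < D := by exact_mod_cast hD
  have l0 := h.lpos
  have L0 := h.Lpos
  have u0 : ∀ k, 0 < uu p k := fun k => inv_pos.2 (h.den k)
  have s1 : (∑ k, uu p k ^ (9 / 4 : ℝ)) / (M : ℝ) ^ d ≤ 2 * 10 ^ 8 := by
    rw [← sum_filter_add_sum_filter_not univ fun k => (tn d M k : ℝ) / M < L, add_div]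
    have a := h.low (a := 9 / 4) (by norm_num) le_rfl
    have b : (21 * L) ^ d ≤ 1 := pow_le_one₀ (by positivity) (by linarith [h.L1])
    have c := Real.rpow_le_one_of_one_le_of_nonpos M1 (z := -(1 / 2)) (by norm_num)
    have e : (∑ k with ¬ (tn d M k : ℝ) / M < L, uu p k ^ (9 / 4 : ℝ)) / (M : ℝ) ^ d ≤ 10 ^ 6 := by
      rw [div_le_iff₀' V0]
      refine (sum_le_card_nsmul _ _ (10 ^ 6) fun k hk => ?_).trans ?_
      · refine (Real.rpow_le_rpow (u0 k).le (h.uu_le (mem_filter.1 hk).2) (by norm_num)).trans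
          ((Real.rpow_le_rpow_of_exponent_le (z := (3 : ℕ)) (by norm_num) (by norm_num)).trans ?_)
        norm_num
      · rw [nsmul_eq_mul]
        gcongr
        exact_mod_cast (card_le_univ _).trans (by simp [ZMod.card])
    linarith
  have s2 : ∑ x, p x * tn d M x ≤ 2 * l := by
    refine le_of_mul_le_mul_left ?_ l0
    have : l * ∑ x, p x * tn d M x ≤ (∑ x, p x * (tn d M x : ℝ) ^ 2 + l ^ 2 * ∑ x, p x) / 2 := by
      rw [mul_sum, mul_sum, ← sum_add_distrib, sum_div]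
      refine sum_le_sum fun x _ => ?_
      nlinarith [mul_nonneg (h.nonneg x) (sq_nonneg (tn d M x - l))]
    nlinarith [h.mom, mul_le_mul_of_nonneg_left h.mass (sq_nonneg l)]
  set n := ⌈(M : ℝ) / D⌉₊ with hn
  have n0 : (0 : ℝ) < n := lt_of_lt_of_le (by positivity) (Nat.le_ceil _)
  have s3 : ∀ i, ∀ j ∈ range n, ∑ x, ‖ZMod.stdAddChar (x i) ^ j - 1‖ ^ 2 * gt p x ^ 2 ≤
      10 ^ 10 * (l / D) ^ (1 / 4 : ℝ) := fun i j hj => by
    have j1 : (j : ℝ) / M ≤ 1 / D := by
      have := (Nat.lt_ceil.1 (mem_range.1 hj)).le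
      rwa [div_le_iff₀ M0, one_div_mul_eq_div]
    set a : Fin d → ZMod M := j • Pi.single i 1 with ha
    have c1 : ∀ x, ch a x = ZMod.stdAddChar (x i) ^ j := fun x => by
      rw [ha, ch_nsmul, ch_comm, ch_single, mul_one]
    have c2 : ∀ k, |DD p k - DD p (k - a)| ≤ 16 * (l / D) := fun k => by
      rw [DD, DD, ← sum_sub_distrib]
      refine (abs_sum_le_sum_abs _ _).trans ((sum_le_sum (g := fun x => 8 / D * (p x * tn d M x))
        fun x _ => ?_).trans ?_)
      · have e : ch k x = ch a x * ch (k - a) x := by rw [← ch_add', add_sub_cancel]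
        rw [← mul_sub, sub_sub_sub_cancel_left, abs_mul, abs_of_nonneg (h.nonneg x), ← sub_re,
          mul_left_comm]
        refine mul_le_mul_of_nonneg_left ((abs_re_le_norm _).trans ?_) (h.nonneg x)
        rw [e, ← one_sub_mul, norm_mul, norm_ch, mul_one, norm_sub_rev, c1]
        have e1 := norm_e_mul (x i) 1
        simp only [Int.cast_one, mul_one, abs_one] at e1
        have := rh_nonneg (x i)
        calc _ ≤ (j : ℝ) * (2 * 4 * (tn d M x / M)) := (norm_pow_sub j (norm_e _)).trans (by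
              gcongr
              exact e1.trans (by gcongr; exacts [Real.pi_le_four, rh_le_tn x i]))
          _ = 8 * (j / M) * tn d M x := by ring
          _ ≤ 8 * (1 / D) * tn d M x := by gcongr
          _ = _ := by ring
      · rw [← mul_sum]
        exact (mul_le_mul_of_nonneg_left s2 (by positivity)).trans (le_of_eq (by ring))
    have c3 := pars_sq fun k => (((∑ h, p h + 1 / (M : ℝ) ^ 2) * uu p (k - a) - 1 : ℝ) : ℂ) -
      ((∑ h, p h + 1 / (M : ℝ) ^ 2) * uu p k - 1 : ℝ)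
    simp only [ift_shift (fun k => (((∑ h, p h + 1 / (M : ℝ) ^ 2) * uu p k - 1 : ℝ) : ℂ)),
      ← gt_eq] at c3
    simp only [c1, norm_mul, mul_pow, ← ofReal_sub, norm_real, Real.norm_eq_abs, sq_abs,
      sub_sub_sub_cancel_right, ← mul_sub] at c3
    have c4 : (∑ h, p h + 1 / (M : ℝ) ^ 2) ^ 2 ≤ 3 ^ 2 := by
      have := sum_nonneg fun x (_ : x ∈ univ) => h.nonneg x
      have : 1 / (M : ℝ) ^ 2 ≤ 1 := by
        rw [div_le_one (by positivity)]
        exact one_le_pow₀ M1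
      exact pow_le_pow_left₀ (by positivity) (by linarith [h.mass]) 2
    have c5 : (16 * (l / D)) ^ (1 / 4 : ℝ) = 2 * (l / D) ^ (1 / 4 : ℝ) := by
      rw [Real.mul_rpow (by norm_num) (by positivity), show (16 : ℝ) = 2 ^ (4 : ℝ) by norm_num,
        ← Real.rpow_mul (by norm_num)]
      norm_num
    have c6 := Equiv.sum_comp (Equiv.subRight a) fun k => uu p k ^ (9 / 4 : ℝ)
    simp only [Equiv.subRight_apply] at c6
    rw [c3]
    refine (div_le_div_of_nonneg_right (sum_le_sum fun k _ => mul_le_mul c4 (interp (u0 k)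
      (u0 (k - a)) (β := 16 * (l / D)) (by positivity) ?_) (sq_nonneg _) (by norm_num))
      V0.le).trans ?_
    · rw [uu, uu, inv_sub_inv (h.den _).ne' (h.den _).ne', add_sub_add_right_eq_sub, abs_div,
        abs_of_pos (mul_pos (h.den _) (h.den _)), div_eq_mul_inv, mul_inv_rev]
      exact mul_le_mul_of_nonneg_right (c2 k) (mul_pos (u0 _) (u0 _)).le
    · rw [← mul_sum, ← mul_sum, sum_add_distrib, c6, c5, mul_div_assoc, mul_div_assoc, add_div]
      nlinarith [mul_le_mul_of_nonneg_left s1 (Real.rpow_nonneg (div_pos l0 D0).le (1 / 4)),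
        Real.rpow_nonneg (div_pos l0 D0).le (1 / 4)]
  refine le_of_mul_le_mul_left ?_ n0
  have s4 := sum_le_card_nsmul _ _ _ fun i (_ : i ∈ univ) => sum_le_card_nsmul _ _ _ (s3 i)
  simp only [card_univ, Fintype.card_fin, card_range, nsmul_eq_mul] at s4
  rw [sum_congr rfl fun i _ => sum_comm, sum_comm] at s4
  simp only [← sum_mul] at s4
  rw [mul_sum]
  refine le_trans ((sum_le_sum fun x hx => ?_).trans (sum_le_sum_of_subset_of_nonneg
    (filter_subset _ _) fun x _ _ => by positivity)) (s4.trans (le_of_eq (by ring)))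
  obtain ⟨i, e⟩ := exists_rh h.hd x
  refine mul_le_mul_of_nonneg_right ((dirichlet (x i) ?_).trans (single_le_sum
    (f := fun i => ∑ j ∈ range n, ‖ZMod.stdAddChar (x i) ^ j - 1‖ ^ 2)
    (fun _ _ => by positivity) (mem_univ i))) (sq_nonneg _)
  have : (D : ℝ) ≤ tn d M x := by exact_mod_cast (mem_filter.1 hx).2
  calc (1 : ℝ) = D / M * (M / D) := by field_simp
    _ ≤ _ := by
      rw [e]
      gcongr
      exact Nat.le_ceil _

/-- the properties of the reference form -/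
theorem RefG.ok (h : RefG p l L) {γ : ℝ} (l1 : 1 ≤ l) (l2 : 1 ≤ 16 * d * L * l) (h0 : p 0 ≤ 1 / 10 ^ 9)
    (h1 : |∑ x, p x - 1| ≤ 1 / 10 ^ 9) (hM : 10 ^ 5 ≤ M)
    (h2 : 10 ^ 4 * ∑ x, p x ^ 2 + 4 * (10 ^ 8 * (21 * L) ^ d + (M : ℝ) ^ (-(1 / 2) : ℝ)) ≤ γ ^ 2) :
    RefOK p (gt p) ⌈l⌉₊ (400 * (16 * d * L * l) ^ 2) γ ∧
      ∀ D : ℕ, 0 < D → ∑ x with D < nm x, gt p x ^ 2 ≤
        10 ^ 10 * d * ((⌈l⌉₊ : ℝ) / D) ^ (1 / 4 : ℝ) := by
  obtain ⟨m1, m2⟩ := abs_le.1 h1
  have c1 : l ≤ ⌈l⌉₊ := Nat.le_ceil _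
  have c2 : (⌈l⌉₊ : ℝ) ≤ 2 * l := by linarith [Nat.ceil_lt_add_one h.lpos.le]
  have c3 : 1 ≤ (16 * d * L * l) ^ 2 := one_le_pow₀ l2
  have L0 := h.Lpos
  refine ⟨⟨h.nonneg, h.even, h.gt_nonneg, gt_neg _, ?_,
    ⟨_, ?_, fun z F => (h.var (by linarith) z F).trans_eq (by simp only [Nm]; ring)⟩,
    h.gt_sq.trans h2, fun a F => (h.shift F a).trans ?_, h.mom.trans ?_,
    Nat.ceil_pos.2 h.lpos, by linarith⟩, fun D hD => ?_⟩
  · rw [sum_erase_eq_sub (mem_univ _), abs_le]
    constructor <;> linarith [h.nonneg 0]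
  · have b : (10 : ℝ) ^ 5 ≤ M := by exact_mod_cast hM
    have b5 := one_div_le_one_div_of_le (by norm_num) (pow_le_pow_left₀ (by norm_num) b 2)
    have b6 : 0 ≤ 1 / (M : ℝ) ^ 2 := by positivity
    rw [abs_le]
    constructor <;> linarith
  · refine mul_le_mul_of_nonneg_right ?_ (NF_nonneg h.nonneg F)
    have b2 : 8 * d * L * tn d M a ≤ 16 * d * L * l * (tn d M a / ⌈l⌉₊) := by
      rw [← mul_div_assoc, le_div_iff₀ (by linarith)]
      exact (mul_le_mul_of_nonneg_left c2 (by positivity)).trans (le_of_eq (by ring))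
    have b3 := pow_le_pow_left₀ (by positivity) b2 2
    rw [mul_pow (16 * d * L * l), div_pow] at b3
    nlinarith
  · nlinarith [mul_le_mul_of_nonneg_right c3 (sq_nonneg (⌈l⌉₊ : ℝ))]
  · refine le_trans (sum_le_sum_of_subset_of_nonneg (fun x hx => ?_) fun _ _ _ => sq_nonneg _)
      ((h.tail hD).trans ?_)
    · exact mem_filter.2 ⟨mem_univ _, (mem_filter.1 hx).2.le⟩
    · gcongr

end Pool.Agent.P.MP_d0f69c_mp.XS.Rf
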