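import Pool.Agent.P.MP_d0f69c_mp.XS.RefR
import Pool.Agent.P.MP_d0f69c_mp.XS.RefN

/-!
Reference block: the gap of the reference form.
-/

set_option autoImplicit false

open Finset Real
open scoped ComplexConjugate

namespace Pool.Agent.P.MP_d0f69c_mp.XS.Rf

variable {d M : ℕ} [NeZero M] {θ η ω b K x : ℝ} {ζ g : Tor d M → ℂ}

theorem card_tor : (Fintype.card (Tor d M) : ℝ) = (M : ℝ) ^ d := by simp [ZMod.card]

theorem sum_p (g : Tor d M → ℂ) : ∑ h, ‖ift g h‖ ^ 2 = av fun q => ‖g q‖ ^ 2 := by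
  rw [pars_sq, av, card_tor]

theorem DD_eq (g : Tor d M → ℂ) (k : Tor d M) : DD (fun h => ‖ift g h‖ ^ 2) k =
    av (fun q => ‖g q‖ ^ 2) - av fun q => (g (q - k) * conj (g q)).re := by
  have e := pars (fun q => g (q - k) - g q) (ift g)
  simp only [ift_shift, ft_ift, mul_assoc, Complex.mul_conj', sub_mul] at e
  have e2 := congrArg Complex.re e
  rw [← Complex.ofReal_natCast, ← Complex.ofReal_pow, Complex.div_ofReal_re, Complex.re_sum,
    Complex.re_sum] at e2
  simp only [← Complex.ofReal_pow, Complex.sub_re, Complex.re_mul_ofReal, one_mul,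
    Complex.ofReal_re, sum_sub_distrib, sub_div] at e2
  simp only [DD, av, card_tor, mul_comm (‖ift g _‖ ^ 2), sub_mul, one_mul, sum_sub_distrib]
  linarith

theorem DD_inv (τ : Tor d M ≃+ Tor d M) (h : ∀ q, g (τ q) = g q) (k : Tor d M) :
    DD (fun h => ‖ift g h‖ ^ 2) (τ k) = DD (fun h => ‖ift g h‖ ^ 2) k := by
  rw [DD_eq, DD_eq, ← av_equiv τ.toEquiv fun q => (g (q - τ k) * conj (g q)).re]
  simp only [AddEquiv.toEquiv_eq_coe, EquivLike.coe_coe, ← map_sub, h]

theorem DD_sub {p : Tor d M → ℝ} (hp : ∀ h, 0 ≤ p h) (k l : Tor d M) :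
    DD p (k - l) ≤ 2 * DD p k + 2 * DD p l := by
  simp only [DD, mul_sum, ← sum_add_distrib]
  refine sum_le_sum fun h _ => ?_
  have e : ch k h = ch (k - l) h * ch l h := by rw [← ch_add', sub_add_cancel]
  have a : ‖ch (k - l) h - 1‖ ≤ ‖ch k h - 1‖ + ‖ch l h - 1‖ := by
    refine le_trans (le_of_eq ?_) (norm_sub_le _ _)
    rw [sub_sub_sub_cancel_right, e, ← sub_one_mul, norm_mul, norm_ch, mul_one]
  have a1 := pow_le_pow_left₀ (norm_nonneg _) a 2
  have a2 : 1 - (ch (k - l) h).re ≤ 2 * (1 - (ch k h).re) + 2 * (1 - (ch l h).re) := by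
    nlinarith [norm_ch_sq (k - l) h, norm_ch_sq k h, norm_ch_sq l h,
      sq_nonneg (‖ch k h - 1‖ - ‖ch l h - 1‖)]
  nlinarith [mul_le_mul_of_nonneg_left a2 (hp h)]

/-- permutation of the coordinates -/
def pm (σ : Equiv.Perm (Fin d)) : Tor d M ≃+ Tor d M where
  toFun q := fun i => q (σ i)
  invFun q := fun i => q (σ.symm i)
  left_inv q := by simp
  right_inv q := by simp
  map_add' _ _ := rfl

/-- reflection of one coordinate -/
def rf (j : Fin d) : Tor d M ≃+ Tor d M where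
  toFun q := Function.update q j (-q j)
  invFun q := Function.update q j (-q j)
  left_inv q := by simp
  right_inv q := by simp
  map_add' q q' := by
    funext i
    by_cases h : i = j <;> simp [h, add_comm]

/-- invariance under the symmetries of the cube -/
def Oct (g : Tor d M → ℂ) : Prop :=
  (∀ (σ : Equiv.Perm (Fin d)) q, g (fun i => q (σ i)) = g q) ∧
    ∀ j q, g (Function.update q j (-q j)) = g q

/-- the hypotheses of the gap -/
structure GapH (η ω b x : ℝ) (ζ g : Tor d M → ℂ) : Prop where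
  sy : SyH η ω ζ
  oct : Oct g
  x0 : 0 < x
  x1 : 30 * d * x ≤ 1
  b2 : 2 ≤ b
  tail : av (fun q => if x < |(Yw b (fun _ => 1) ζ q).re| then ‖g q‖ ^ 2 else 0) ≤
    av (fun q => ‖g q‖ ^ 2) / 10 ^ 5
  sup : ∀ q, ‖g q‖ ^ 2 * exp (-(d : ℝ) / 512) ≤ av (fun q => ‖g q‖ ^ 2) / 10 ^ 5

theorem GapH.core (h : GapH η ω b x ζ g) (k : Tor d M) (A : Tor d M → Prop)
    (hA : ∀ q, |(Yw b (fun _ => 1) ζ q).re| ≤ x → |(Yw b (fun _ => 1) ζ (q - k)).re| ≤ x → ¬ A q)
    [DecidablePred A] : av (fun q => if A q then ‖g q‖ ^ 2 else 0) / 2 -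
      av (fun q => ‖g q‖ ^ 2) / 180 ≤ DD (fun h => ‖ift g h‖ ^ 2) k := by
  set o : Tor d M → ℝ := fun q => if x < |(Yw b (fun _ => 1) ζ q).re| then ‖g q‖ ^ 2 else 0 with ho
  have k1 : av (fun q => (g (q - k) * conj (g q)).re) ≤ av fun q =>
      101 / 200 * ‖g q‖ ^ 2 + 1 / 2 * ‖g (q + -k)‖ ^ 2 + 1 / 2 * o q + 50 * o (q + -k) -
        1 / 2 * if A q then ‖g q‖ ^ 2 else 0 := av_mono fun q => by
    refine (Complex.re_le_norm _).trans ?_
    rw [norm_mul, Complex.norm_conj, ← sub_eq_add_neg]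
    have c := hA q
    have a1 := sq_nonneg (‖g (q - k)‖ - ‖g q‖)
    have a2 := sq_nonneg (100 * ‖g (q - k)‖ - ‖g q‖)
    have a3 := sq_nonneg ‖g q‖
    have a4 := sq_nonneg ‖g (q - k)‖
    simp only [ho]
    split_ifs with c1 c2 c3 c4 c5 c6 c7
    any_goals nlinarith
    exact absurd c7 (c (not_lt.1 c1) (not_lt.1 c5))
  rw [McdA.av_sub, av_add, av_add, av_add, av_mul, av_mul, av_mul, av_mul, av_mul, av_shift _ o,
    av_shift _ fun q => ‖g q‖ ^ 2] at k1
  rw [DD_eq]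
  linarith [h.tail, av_nonneg fun q => sq_nonneg ‖g q‖]

theorem exists_perm {i j i' j' : Fin d} (h : i ≠ j) (h' : i' ≠ j') :
    ∃ σ : Equiv.Perm (Fin d), σ i = i' ∧ σ j = j' := by
  refine ⟨Equiv.swap i i' * Equiv.swap j (Equiv.swap i i' j'), ?_, by simp⟩
  rw [Equiv.Perm.mul_apply, Equiv.swap_apply_of_ne_of_ne h, Equiv.swap_apply_left]
  intro c
  exact h' (by simpa using congrArg (Equiv.swap i i') c)

theorem GapH.pair (h : GapH η ω b x ζ g) {v : ℂ} (hv : ‖v‖ = 1) {i j : Fin d} (hij : i ≠ j) :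
    av (fun q => ‖g q‖ ^ 2) / 10 ≤
      av fun q : Tor d M => if 1 / 2 ≤ |cw v (q i) + cw v (q j)| then ‖g q‖ ^ 2 else 0 := by
  have d0 : (128 : ℝ) ≤ d := by exact_mod_cast h.sy.hd
  have c2 : ∀ a : ZMod M, |cw v a| ≤ 2 := fun a => by simpa [hv] using abs_cw v a
  set F := av fun q => ‖g q‖ ^ 2 with hF
  have F0 : 0 ≤ F := av_nonneg fun q => sq_nonneg _
  set m := av fun q : Tor d M => (cw v (q i) + cw v (q j)) ^ 2 * ‖g q‖ ^ 2 with hm
  have k1 : ∀ z ∈ (univ : Finset (Fin d)).offDiag,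
      av (fun q : Tor d M => (cw v (q z.1) + cw v (q z.2)) ^ 2 * ‖g q‖ ^ 2) ≤ m := fun z hz => by
    obtain ⟨σ, a1, a2⟩ := exists_perm hij (mem_offDiag.1 hz).2.2
    rw [hm, ← av_equiv (pm σ).toEquiv fun q : Tor d M => (cw v (q i) + cw v (q j)) ^ 2 * ‖g q‖ ^ 2,
      ← a1, ← a2]
    refine av_mono fun q => le_of_eq ?_
    rw [← h.oct.1 σ q]
    rfl
  have k2 := sum_le_card_nsmul _ _ _ k1
  rw [← av_sum, offDiag_card, card_univ, Fintype.card_fin, nsmul_eq_mul,
    Nat.cast_sub (Nat.le_mul_self d), Nat.cast_mul] at k2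
  have k3 : av (fun q => (2 * d ^ 2 - 16 * d) * ‖g q‖ ^ 2 - ∑ z ∈ (univ : Finset (Fin d)).offDiag,
      (cw v (q z.1) + cw v (q z.2)) ^ 2 * ‖g q‖ ^ 2) ≤ (2 * d ^ 2 - 16 * d) *
        (F / 10 ^ 5 / exp (-(d : ℝ) / 512)) *
          pr (fun q : Tor d M => ∑ j, cw (v / 2) (q j) ^ 2 < d / 4) + 0 := by
    refine av_le_pr _ (fun q _ => ?_) fun q c => ?_
    · rw [add_zero]
      exact (sub_le_self _ (sum_nonneg fun _ _ => by positivity)).trans
        (mul_le_mul_of_nonneg_left ((le_div_iff₀ (exp_pos _)).2 (h.sup q)) (by nlinarith))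
    · rw [← sum_mul, sub_nonpos]
      refine mul_le_mul_of_nonneg_right ?_ (sq_nonneg _)
      have e1 : ∀ a : ZMod M, cw (v / 2) a ^ 2 = cw v a ^ 2 / 4 := fun a => by
        simp only [cw, ← mul_div_assoc, Complex.div_ofNat_re]
        ring
      simp only [e1, ← sum_div] at c
      have e2 := sum_union (f := fun z : Fin d × Fin d => (cw v (q z.1) + cw v (q z.2)) ^ 2)
        (disjoint_diag_offDiag (univ : Finset (Fin d)))
      rw [diag_union_offDiag, sum_diag, sum_product] at e2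
      simp only [add_sq, sum_add_distrib, sum_const, card_univ, Fintype.card_fin, nsmul_eq_mul,
        mul_assoc, ← mul_sum, ← sum_mul] at e2
      have e3 : ∑ j, cw v (q j) ^ 2 ≤ d * 4 := (sum_le_card_nsmul _ _ 4 fun j _ => by
        nlinarith [abs_le.1 (c2 (q j))]).trans_eq (by simp)
      simp only [← sq] at e2
      simp only [add_sq, sum_add_distrib, mul_assoc, ← mul_sum]
      nlinarith [sq_nonneg (∑ j, cw v (q j))]
  have k4 := pr_bad h.sy.M3 (by have := h.sy.hd; omega) (w := fun _ : Fin d => v / 2)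
    (fun _ => by norm_num [hv]) (by simp [hv]; linarith)
  have k5 := mul_le_mul_of_nonneg_left k4 (div_nonneg (div_nonneg F0
    (show (0 : ℝ) ≤ 10 ^ 5 by norm_num)) (exp_pos (-(d : ℝ) / 512)).le)
  rw [div_mul_cancel₀ _ (exp_pos _).ne'] at k5
  rw [McdA.av_sub, av_mul, mul_assoc, add_zero] at k3
  have k6 := k3.trans (mul_le_mul_of_nonneg_left k5 (by nlinarith))
  have k7 : m ≤ av fun q : Tor d M => 1 / 4 * ‖g q‖ ^ 2 +
      16 * if 1 / 2 ≤ |cw v (q i) + cw v (q j)| then ‖g q‖ ^ 2 else 0 := av_mono fun q => by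
    have a1 := (abs_add_le _ _).trans (add_le_add (c2 (q i)) (c2 (q j)))
    have a2 := sq_nonneg ‖g q‖
    rw [← sq_abs]
    split_ifs with c
    · nlinarith [mul_le_mul_of_nonneg_right (pow_le_pow_left₀ (abs_nonneg _) a1 2) a2]
    · nlinarith [mul_le_mul_of_nonneg_right (pow_le_pow_left₀ (abs_nonneg _) (not_le.1 c).le 2) a2]
  rw [av_add, av_mul, av_mul] at k7
  have k8 : 37 / 20 * F ≤ m := by
    refine le_of_mul_le_mul_left ?_ (show (0 : ℝ) < d * d - d by nlinarith)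
    nlinarith [mul_nonneg F0 (mul_nonneg (show (0 : ℝ) ≤ d by linarith) (sub_nonneg.2 d0))]
  linarith

theorem cw_sub (k a : ZMod M) : cw 1 a - cw 1 (a - k) = cw (1 - ZMod.stdAddChar (-k)) a := by
  simp only [cw, sub_eq_add_neg a, AddChar.map_add_eq_mul, mul_sub, Complex.sub_re, mul_one]

theorem cw_add (k a : ZMod M) : cw 1 a + cw 1 (a - k) = cw (1 + ZMod.stdAddChar (-k)) a := by
  simp only [cw, sub_eq_add_neg a, AddChar.map_add_eq_mul, mul_add, Complex.add_re, mul_one]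

theorem norm_e_neg (a : ZMod M) (c : ℝ) :
    ‖ZMod.stdAddChar (-a) - c‖ = ‖ZMod.stdAddChar a - c‖ := by
  rw [← conj_e, ← Complex.norm_conj (_ - _), map_sub, Complex.conj_conj, Complex.conj_ofReal]

theorem GapH.two (h : GapH η ω b x ζ g) {i j : Fin d} (hij : i ≠ j) {a : ZMod M}
    (ha : 5 * x ≤ ‖ZMod.stdAddChar a - 1‖) :
    av (fun q => ‖g q‖ ^ 2) * (2 / 45) ≤
      DD (fun h => ‖ift g h‖ ^ 2) (Pi.single i a + Pi.single j a) := by
  have n1 := norm_e_neg a 1
  rw [Complex.ofReal_one] at n1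
  set n := ‖ZMod.stdAddChar a - 1‖ with hn
  have n0 : 0 < n := by linarith [h.x0]
  have hv : ‖(1 - ZMod.stdAddChar (-a)) / n‖ = 1 := by
    rw [norm_div, norm_sub_rev, n1, Complex.norm_real, norm_of_nonneg n0.le, div_self n0.ne']
  refine le_trans (by linarith [h.pair hv hij]) (h.core _ (fun q => 1 / 2 ≤
    |cw ((1 - ZMod.stdAddChar (-a)) / n) (q i) + cw ((1 - ZMod.stdAddChar (-a)) / n) (q j)|)
    fun q c1 c2 c => ?_)
  have e1 : Rw (fun _ => 1) q - Rw (fun _ => 1) (q - (Pi.single i a + Pi.single j a)) =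
      n * (cw ((1 - ZMod.stdAddChar (-a)) / n) (q i) + cw ((1 - ZMod.stdAddChar (-a)) / n) (q j)) := by
    rw [Rw, Rw, ← sum_sub_distrib, sum_eq_add i j hij (fun l _ hl => by simp [hl.1, hl.2])
      (by simp) (by simp)]
    simp only [Pi.sub_apply, Pi.add_apply, Pi.single_eq_same, Pi.single_eq_of_ne hij,
      Pi.single_eq_of_ne hij.symm, add_zero, zero_add, cw_sub]
    simp only [cw, ← mul_div_assoc, Complex.div_ofReal_re]
    field_simp
  have e2 := h.sy.lip q i (-a)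
  have e3 := h.sy.lip (q + Pi.single i (-a)) j (-a)
  have e4 : q + Pi.single i (-a) + Pi.single j (-a) = q - (Pi.single i a + Pi.single j a) := by
    rw [Pi.single_neg, Pi.single_neg]
    abel
  rw [n1] at e2 e3
  rw [e4] at e3
  have e5 := abs_le.1 ((Complex.abs_re_le_norm _).trans e2)
  have e6 := abs_le.1 ((Complex.abs_re_le_norm _).trans e3)
  have e7 := mul_le_mul_of_nonneg_left c n0.le
  have e9 := congrArg abs e1
  rw [abs_mul, abs_of_pos n0] at e9
  rw [← e9] at e7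
  rw [Complex.sub_re] at e5 e6
  rw [Yw_re, abs_le] at c1 c2
  have e8 := mul_le_mul_of_nonneg_right h.sy.ω1 n0.le
  rcases le_abs.1 e7 with c | c <;> linarith

/-- the gap -/
theorem GapH.gap (h : GapH η ω b x ζ g) (k : Tor d M) (i : Fin d) (hk : 3 * x ≤ rh (k i)) :
    av (fun q => ‖g q‖ ^ 2) / 90 ≤ DD (fun h => ‖ift g h‖ ^ 2) k := by
  have p0 : ∀ h, 0 ≤ ‖ift g h‖ ^ 2 := fun _ => sq_nonneg _
  have x0 := h.x0
  have F0 : 0 ≤ av fun q => ‖g q‖ ^ 2 := av_nonneg fun q => sq_nonneg _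
  by_cases c1 : ∃ j l, j ≠ l ∧ 5 * x ≤ ‖ZMod.stdAddChar (k j - k l) - 1‖
  · obtain ⟨j, l, a1, a2⟩ := c1
    have a3 := DD_sub p0 k (pm (Equiv.swap j l) k)
    have e : k - pm (Equiv.swap j l) k = rf l (Pi.single j (k j - k l) + Pi.single l (k j - k l)) := by
      funext r
      by_cases b1 : r = l
      · simp [pm, rf, b1, a1.symm]
      · by_cases b2 : r = j
        · simp [pm, rf, b2, a1]
        · simp [pm, rf, b1, b2, Equiv.swap_apply_of_ne_of_ne b2 b1]
    rw [e, DD_inv _ (h.oct.2 l), DD_inv _ (h.oct.1 _)] at a3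
    linarith [h.two a1 a2]
  by_cases c2 : ∃ j l, j ≠ l ∧ 5 * x ≤ ‖ZMod.stdAddChar (k j + k l) - 1‖
  · obtain ⟨j, l, a1, a2⟩ := c2
    have a3 := DD_sub p0 k (rf j (rf l (pm (Equiv.swap j l) k)))
    have e : k - rf j (rf l (pm (Equiv.swap j l) k)) =
        Pi.single j (k j + k l) + Pi.single l (k j + k l) := by
      funext r
      by_cases b1 : r = l
      · simp [pm, rf, b1, a1.symm, add_comm]
      · by_cases b2 : r = j
        · simp [pm, rf, b2, a1]
        · simp [pm, rf, b1, b2, Equiv.swap_apply_of_ne_of_ne b2 b1]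
    rw [e, DD_inv _ (h.oct.2 j), DD_inv _ (h.oct.2 l), DD_inv _ (h.oct.1 _)] at a3
    linarith [h.two a1 a2]
  push Not at c1 c2
  have : Nontrivial (Fin d) := Fin.nontrivial_iff_two_le.2 (by have := h.sy.hd; omega)
  obtain ⟨j, hj⟩ := exists_ne i
  have a1 : ∀ l, ‖ZMod.stdAddChar (k l) - ZMod.stdAddChar (k i)‖ ≤ 5 * x := fun l => by
    by_cases c : l = i
    · rw [c, sub_self, norm_zero]
      positivity
    · have e : ZMod.stdAddChar (k l) = ZMod.stdAddChar (k l - k i) * ZMod.stdAddChar (k i) := by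
        rw [← AddChar.map_add_eq_mul, sub_add_cancel]
      rw [e, ← sub_one_mul, norm_mul, norm_e, mul_one]
      exact (c1 l i c).le
  have a2 : ‖ZMod.stdAddChar (k i) - 1‖ * ‖ZMod.stdAddChar (k i) + 1‖ ≤ 10 * x := by
    have e : (ZMod.stdAddChar (k i) - 1) * (ZMod.stdAddChar (k i) + 1) =
        (ZMod.stdAddChar (k j + k i) - 1) -
          (ZMod.stdAddChar (k j) - ZMod.stdAddChar (k i)) * ZMod.stdAddChar (k i) := by
      rw [AddChar.map_add_eq_mul]
      ring
    rw [← norm_mul, e]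
    refine (norm_sub_le _ _).trans ?_
    rw [norm_mul, norm_e, mul_one]
    linarith [a1 j, c2 j i hj]
  have a3 : 12 * x ≤ ‖ZMod.stdAddChar (k i) - 1‖ := by
    have := norm_e_add (τ := -1) (Or.inr rfl) (k i)
    rw [Complex.ofReal_neg, Complex.ofReal_one, ← sub_eq_add_neg] at this
    linarith [al_ge1 (k i)]
  have a4 : ‖ZMod.stdAddChar (k i) + 1‖ ≤ 10 * x := by
    have := norm_sub_le (ZMod.stdAddChar (k i) + 1) (ZMod.stdAddChar (k i) - 1)
    rw [add_sub_sub_cancel, one_add_one_eq_two, Complex.norm_two] at this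
    rcases le_total 1 ‖ZMod.stdAddChar (k i) - 1‖ with c | c <;>
      nlinarith [norm_nonneg (ZMod.stdAddChar (k i) + 1)]
  refine le_trans ?_ (h.core k (fun _ => True) fun q b1 b2 _ => ?_)
  · simp only [if_true]
    linarith
  have a5 : Rw (fun _ => 1) q + Rw (fun _ => 1) (q - k) ≤ d * (30 * x) := by
    rw [Rw, Rw, ← sum_add_distrib]
    refine (sum_le_card_nsmul _ _ (30 * x) fun l _ => ?_).trans_eq (by simp)
    rw [Pi.sub_apply, cw_add]
    have e := norm_e_neg (k l) (-1)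
    rw [Complex.ofReal_neg, Complex.ofReal_one, sub_neg_eq_add, sub_neg_eq_add, add_comm] at e
    have e2 := norm_add_le (ZMod.stdAddChar (k l) - ZMod.stdAddChar (k i))
      (ZMod.stdAddChar (k i) + 1)
    rw [← add_assoc, sub_add_cancel] at e2
    linarith [(abs_le.1 (abs_cw (1 + ZMod.stdAddChar (-k l)) (q l))).2, a1 l]
  have d0 : (128 : ℝ) ≤ d := by exact_mod_cast h.sy.hd
  nlinarith [h.sy.re_ge (b := b) (w := fun _ => 1) q, h.sy.re_ge (b := b) (w := fun _ => 1) (q - k),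
    (abs_le.1 b1).2, (abs_le.1 b2).2, h.b2, h.x1]

/-- the mass of the inverse symbol away from the shell -/
theorem SyH.off (h : SyH η ω ζ) (hn : NumH d M θ b η K) (hx : η ≤ x) :
    av (fun q => if x < |(Yw b (fun _ => 1) ζ q).re| then ‖(Yw b (fun _ => 1) ζ q)⁻¹‖ ^ 2 else 0) ≤
      228 * K * η / x + 300 / b := by
  have η0 := h.η0
  have x0 := η0.trans_le hx
  have b4 := hn.b4
  have t0 := tau_pos h.M3
  have e3 : 0 < x / b := by positivity
  have s1 : x * exp (-(θ ^ 2 * d / 5)) ≤ 1 / 10 ^ 4 * (x / b) :=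
    (mul_le_mul_of_nonneg_left hn.small' x0.le).trans_eq (by field_simp)
  have k := h.wcount (b := b) (w := fun _ => 1) (by simp)
    (by simp; linarith [Nat.cast_nonneg (α := ℝ) d]) (atan_deriv x0) (atan_lip x0) (by positivity)
    (Γ := 1 / x) (fun y => ⟨by positivity, by
      rw [div_le_div_iff₀ (by positivity) x0]; nlinarith [sq_nonneg y]⟩)
    (Φ := fun _ => 1) (B := 1) (fun _ => ⟨zero_le_one, le_rfl⟩) fun _ _ => by simpa using t0.le
  simp only [one_mul, av_const, mul_one] at k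
  have k1 : av (fun q => |π / 2 - arctan ((Yw b (fun _ => 1) ζ q).re / x)| -
      x * if b / 2 ≤ Rw (fun _ => 1) q then 1 else 0) ≤
      π * pr (fun q : Tor d M => b - 2 ≤ Rw (fun _ => 1) q) + 4 * (x / b) := by
    refine av_le_pr _ (fun q _ => ?_) fun q c => ?_ <;> rw [abs_of_pos (atan_pos _).1]
    · have := (atan_pos ((Yw b (fun _ => 1) ζ q).re / x)).2
      split_ifs <;> linarith
    · have c1 := h.re_ge (b := b) (w := fun _ => 1) q
      have c2 := atan_le x0 (show 0 < (Yw b (fun _ => 1) ζ q).re by linarith)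
      split_ifs with c3
      · linarith [div_le_self x0.le (show 1 ≤ (Yw b (fun _ => 1) ζ q).re by linarith)]
      · have := div_le_div_of_nonneg_left x0.le (show 0 < b / 4 by linarith)
          (show _ ≤ (Yw b (fun _ => 1) ζ q).re by linarith)
        rw [div_div_eq_mul_div, mul_div_right_comm] at this
        linarith
  rw [McdA.av_sub, av_mul, show (av fun q : Tor d M => if b / 2 ≤ Rw (fun _ => 1) q then (1 : ℝ)
    else 0) = pr fun q : Tor d M => b / 2 ≤ Rw (fun _ => 1) q by rw [pr_eq_av]] at k1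
  have k2 := mul_le_mul_of_nonneg_left (hn.half h.M3 (w := fun _ => 1) (by simp)) x0.le
  have k3 : tau M * (1 / x ^ 2) ≤ 1 / 100 * (x / b) := by
    rw [mul_one_div, div_mul_div_comm, div_le_div_iff₀ (by positivity) (by positivity)]
    nlinarith [h.mesh, mul_le_mul_of_nonneg_right hn.b2 t0.le, pow_le_pow_left₀ η0.le hx 3]
  have k4 : 1 / x * exp (-(d : ℝ) / 512) ≤ x * exp (-(θ ^ 2 * d / 5)) := by
    rw [one_div_mul_eq_div, div_le_iff₀ x0]
    nlinarith [hn.bad, mul_le_mul_of_nonneg_right (pow_le_pow_left₀ η0.le hx 2)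
      (exp_pos (-(θ ^ 2 * d / 5))).le]
  have k5 : pr (fun q : Tor d M => b - 2 ≤ Rw (fun _ => 1) q) ≤ K * η :=
    am_one (0 : Tor d M) ▸ hn.tail zero_le_one le_rfl 0
  have k6 := mul_le_mul pi_lt_d2.le k5 (pr_nonneg _) (by norm_num)
  refine le_trans (av_mono (g := fun q => 2 / x * (x / ((Yw b (fun _ => 1) ζ q).re ^ 2 + x ^ 2)))
    fun q => ?_) ?_
  · split_ifs with c
    · have c1 := Complex.abs_re_le_norm (Yw b (fun _ => 1) ζ q)
      rw [norm_inv, inv_pow, div_mul_div_cancel₀ x0.ne', ← one_div,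
        div_le_div_iff₀ (pow_pos (norm_pos_iff.2 (h.ne q)) 2) (by positivity), ← sq_abs (_ : ℂ).re]
      nlinarith [abs_nonneg (Yw b (fun _ => 1) ζ q).re]
    · positivity
  · rw [av_mul, div_mul_eq_mul_div, div_le_iff₀ x0, add_mul, div_mul_cancel₀ _ x0.ne',
      div_mul_eq_mul_div, mul_div_assoc]
    nlinarith [mul_pos (show 0 < K by linarith [hn.K1]) η0]

/-- the gap for a symbol that is dominated by the inverse symbol -/
theorem SyH.gap (h : SyH η ω ζ) (hn : NumH d M θ b η K) (ho : Oct g)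
    (hg : ∀ q, ‖g q‖ ≤ 4 * ‖(Yw b (fun _ => 1) ζ q)⁻¹‖) (hF : 9 / 10 ≤ av fun q => ‖g q‖ ^ 2)
    (hb : 10 ^ 9 ≤ b) (hx : 30 * d * (10 ^ 9 * K * η) ≤ 1) (k : Tor d M) (i : Fin d)
    (hk : 3 * (10 ^ 9 * K * η) ≤ rh (k i)) : 1 / 100 ≤ DD (fun h => ‖ift g h‖ ^ 2) k := by
  have η0 := h.η0
  have K1 := hn.K1
  have g2 : ∀ q, ‖g q‖ ^ 2 ≤ 16 * ‖(Yw b (fun _ => 1) ζ q)⁻¹‖ ^ 2 := fun q => by
    nlinarith [hg q, norm_nonneg (g q)]
  refine le_trans (by linarith) (GapH.gap (b := b)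
    ⟨h, ho, by positivity, hx, by linarith, ?_, fun q => ?_⟩ k i hk)
  · have a := h.off hn (x := 10 ^ 9 * K * η) (by nlinarith)
    have e : 228 * K * η / (10 ^ 9 * K * η) = 228 / 10 ^ 9 := by field_simp
    have e2 : 300 / b ≤ 300 / 10 ^ 9 := by gcongr
    refine le_trans (av_mono fun q => ?_) ((av_mul 16 _).trans_le
      ((mul_le_mul_of_nonneg_left a (by norm_num)).trans (by linarith)))
    split_ifs
    exacts [g2 q, by norm_num]
  · have a := (g2 q).trans (mul_le_mul_of_nonneg_left (pow_le_pow_left₀ (norm_nonneg _)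
      (h.inv_le (b := b) (w := fun _ => 1) q) 2) (by norm_num))
    have a2 := mul_le_mul a hn.bad (exp_pos _).le (by positivity)
    have e : 16 * (2 / η) ^ 2 * (η ^ 2 * exp (-(θ ^ 2 * d / 5))) = 64 * exp (-(θ ^ 2 * d / 5)) := by
      field_simp
      norm_num
    have e2 : 1 / (10 ^ 4 * b) ≤ 1 / (10 ^ 4 * 10 ^ 9) := by gcongr
    linarith [hn.small']

end Pool.Agent.P.MP_d0f69c_mp.XS.Rf
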