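import Pool.Agent.P.MP_d0f69c_mp.XS.Ref3
import Pool.Agent.P.MP_d0f69c_mp.XS.RefG
import Pool.Agent.P.MP_d0f69c_mp.XS.PAlg1

/-!
Reference block: what the fixed point argument needs from the averaged scattering matrix.
-/

set_option autoImplicit false

open Finset Real

namespace Pool.Agent.P.MP_d0f69c_mp.XS.Rf

variable {d M : ℕ} [NeZero M]

/-- the kernel with the correction `g` -/
noncomputable def Ac (b : ℝ) (g : Tor d M → ℂ) : Matrix (Tor d M) (Tor d M) ℂ :=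
  Matrix.circulant (A0 d M b + g)

/-- the effective potential when nothing is revealed, as a function of the difference -/
noncomputable def Zk (b : ℝ) (g : Tor d M → ℂ) (h : Tor d M) : ℂ :=
  Pre.Ww (Ac b g) univ (fun _ => true) h 0

/-- the dressed kernel when nothing is revealed, as a function of the difference -/
noncomputable def ak (b : ℝ) (g : Tor d M → ℂ) (h : Tor d M) : ℂ :=
  Pre.al (Ac b g) univ (fun _ => true) h 0

/-- the admissible corrections -/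
structure Cls (B : Finset (Tor d M)) (γ : ℝ) (g : Tor d M → ℂ) : Prop where
  supp : ∀ x ∉ B, g x = 0
  le : ∀ x, ‖g x‖ ≤ γ
  oct : Oct g

/-- the static estimates for the maps `Z` (effective potential) and `a` (dressed kernel) -/
structure StatH (B : Finset (Tor d M)) (b γ ε κ ω L : ℝ)
    (Z a : (Tor d M → ℂ) → Tor d M → ℂ) : Prop where
  oB : Oct fun x => if x ∈ B then 1 else 0
  zB : 0 ∈ B
  oZ : ∀ g, Cls B γ g → Oct (Z g)
  oa : ∀ g, Cls B γ g → Oct (a g)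
  cZ : ∀ g, Cls B γ g → Z (star g) = star (Z g)
  ca : ∀ g, Cls B γ g → a (star g) = star (a g)
  Z0 : ∀ g, Cls B γ g → ‖Z g 0‖ ≤ ε
  l1 : ∀ g, Cls B γ g → ∑ h, ‖Z g h‖ * (nm h * exp (nm h / L)) ≤ ω
  dZ : ∀ g g' t, Cls B γ g → Cls B γ g' → (∀ x, ‖g x - g' x‖ ≤ t) →
    ∀ q, ‖ft (Z g) q - Z g 0 - (ft (Z g') q - Z g' 0)‖ ≤ κ * t
  d0 : ∀ g g' t, Cls B γ g → Cls B γ g' → (∀ x, ‖g x - g' x‖ ≤ t) →
    ‖g 0 + Z g 0 - (g' 0 + Z g' 0)‖ ≤ ε * t
  da : ∀ g g' t, Cls B γ g → Cls B γ g' → (∀ x, ‖g x - g' x‖ ≤ t) →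
    ∀ x, ‖g x - a g x - (g' x - a g' x)‖ ≤ ε * t
  id : ∀ g, Cls B γ g → ∀ q, ft (a g) q = (1 - ft (a g) q * ft (Z g) q) * (As b q + ft g q)
  asup : ∀ g, Cls B γ g → ∀ q, ‖ft (a g) q‖ ≤ 1 / 50
  a2 : ∀ g, Cls B γ g → ∑ x, ‖a g x‖ ^ 2 * (1 + nm x) ^ 2 ≤ ε ^ 2

/-- a fixed point that depends on a parameter can be tuned -/
theorem fix_par {X : Type} [MetricSpace X] [CompleteSpace X] {s : Set X} (hs : IsClosed s)
    {x0 : X} (h0 : x0 ∈ s) {Φ : ℝ → X → X} {f : X → ℝ} {u v C : ℝ} (uv : u ≤ v)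
    (h1 : ∀ t ∈ Set.Icc u v, ∀ x ∈ s, Φ t x ∈ s)
    (h2 : ∀ t ∈ Set.Icc u v, ∀ x ∈ s, ∀ y ∈ s, dist (Φ t x) (Φ t y) ≤ 1 / 2 * dist x y)
    (h3 : ∀ t ∈ Set.Icc u v, ∀ t' ∈ Set.Icc u v, ∀ x ∈ s, dist (Φ t x) (Φ t' x) ≤ C * |t - t'|)
    (h4 : ∀ x ∈ s, ∀ y ∈ s, |f x - f y| ≤ 2 * dist x y)
    (h5 : ∀ x ∈ s, Φ u x = x → u ≤ f x) (h6 : ∀ x ∈ s, Φ v x = x → f x ≤ v) :
    ∃ t ∈ Set.Icc u v, ∃ x ∈ s, Φ t x = x ∧ f x = t := by
  have k : ∀ t : Set.Icc u v, ∃ x ∈ s, Φ t x = x := fun t => by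
    have m : Set.MapsTo (Φ t) s s := fun x hx => h1 t t.2 x hx
    obtain ⟨x, a1, a2, -⟩ := ContractingWith.exists_fixedPoint' hs.isComplete m (K := 1 / 2)
      ⟨by norm_num, LipschitzWith.of_dist_le_mul fun x y => by
        simpa [Subtype.dist_eq] using h2 t t.2 x x.2 y y.2⟩ h0 (edist_ne_top _ _)
    exact ⟨x, a1, a2⟩
  choose x xs xf using k
  have l : ∀ t t' : Set.Icc u v, dist (f (x t)) (f (x t')) ≤ 4 * |C| * dist t t' := fun t t' => by
    have a := dist_triangle (Φ t (x t)) (Φ t (x t')) (Φ t' (x t'))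
    rw [xf, xf] at a
    have a2 := h2 t t.2 _ (xs t) _ (xs t')
    rw [xf] at a2
    have a3 := (h3 t t.2 t' t'.2 _ (xs t')).trans
      (mul_le_mul_of_nonneg_right (le_abs_self C) (abs_nonneg _))
    rw [xf] at a3
    rw [Real.dist_eq, Subtype.dist_eq, Real.dist_eq]
    linarith [h4 _ (xs t) _ (xs t')]
  have c : Continuous fun t : Set.Icc u v => f (x t) :=
    (LipschitzWith.of_dist_le_mul (K := ⟨4 * |C|, by positivity⟩) l).continuous
  have : PreconnectedSpace (Set.Icc u v) := Subtype.preconnectedSpace isPreconnected_Icc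
  obtain ⟨t, ht⟩ := intermediate_value_univ₂ (a := ⟨v, Set.right_mem_Icc.2 uv⟩)
    (b := ⟨u, Set.left_mem_Icc.2 uv⟩) c continuous_subtype_val
    (h6 _ (xs _) (xf ⟨v, _⟩)) (h5 _ (xs _) (xf ⟨u, _⟩))
  exact ⟨t, t.2, x t, xs t, xf t, ht⟩

omit [NeZero M] in
theorem Oct.neg {g : Tor d M → ℂ} (h : Oct g) (q : Tor d M) : g (-q) = g q := by
  have k : ∀ s : Finset (Fin d), g (fun i => if i ∈ s then -q i else q i) = g q := fun s => by
    induction s using Finset.induction_on with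
    | empty => simp
    | insert j s hj ih =>
      rw [← ih, ← h.2 j]
      congr 1
      funext i
      by_cases c : i = j
      · simp [c, hj]
      · simp [c]
  rw [← k univ]
  congr 1
  funext i
  simp

theorem ch_pm (σ : Equiv.Perm (Fin d)) (k x : Tor d M) :
    ch (fun i => k (σ i)) (fun i => x (σ i)) = ch k x := by
  rw [ch, ch, Equiv.sum_comp σ fun i => k i * x i]

theorem ch_rf (j : Fin d) (k x : Tor d M) :
    ch (Function.update k j (-k j)) (Function.update x j (-x j)) = ch k x := by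
  rw [ch, ch]
  congr 1
  refine sum_congr rfl fun i _ => ?_
  by_cases c : i = j <;> simp [c]

theorem Oct.ift {F : Tor d M → ℂ} (h : Oct F) : Oct (ift F) := by
  refine ⟨fun σ x => ?_, fun j x => ?_⟩
  · rw [XS.ift, XS.ift, ← Equiv.sum_comp (pm σ).toEquiv]
    exact congrArg (· / _) (sum_congr rfl fun k _ => congrArg₂ (· * ·) (h.1 σ k) (ch_pm σ k x))
  · rw [XS.ift, XS.ift, ← Equiv.sum_comp (rf j).toEquiv]
    exact congrArg (· / _) (sum_congr rfl fun k _ => congrArg₂ (· * ·) (h.2 j k) (ch_rf j k x))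

theorem ft_eq (u : Tor d M → ℂ) (k : Tor d M) : ft u k = (M : ℂ) ^ d * ift u (-k) := by
  rw [ft, ift, mul_div_cancel₀ _ (vol_ne d M)]
  simp only [ch_comm _ (-k), ch_neg]

theorem Oct.ft {u : Tor d M → ℂ} (h : Oct u) : Oct (ft u) := by
  have e : ∀ k, XS.ft u k = (M : ℂ) ^ d * XS.ift u k := fun k => by rw [ft_eq, h.ift.neg]
  exact ⟨fun σ x => by rw [e, e, h.ift.1], fun j x => by rw [e, e, h.ift.2]⟩

omit [NeZero M] in
theorem Oct.map₂ {u v : Tor d M → ℂ} (h : Oct u) (h' : Oct v) (f : ℂ → ℂ → ℂ) :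
    Oct fun q => f (u q) (v q) :=
  ⟨fun σ q => by simp only [h.1, h'.1], fun j q => by simp only [h.2, h'.2]⟩

theorem oct_R1 : Oct fun q : Tor d M => (R1 q : ℂ) := by
  refine ⟨fun σ q => congrArg _ (Equiv.sum_comp σ fun i => cw 1 (q i)), fun j q =>
    congrArg _ (sum_congr rfl fun i _ => ?_)⟩
  by_cases c : i = j
  · simp [c, cw, ← conj_e]
  · simp [c]

theorem Oct.ft_star {u : Tor d M → ℂ} (h : Oct u) (q : Tor d M) :
    XS.ft (star u) q = star (XS.ft u q) := by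
  rw [← h.ft.neg q]
  simp [XS.ft, conj_ch, ch_neg]

theorem Oct.ift_star {u : Tor d M → ℂ} (h : Oct u) (x : Tor d M) :
    XS.ift (star u) x = star (XS.ift u x) := by
  refine Eq.trans ?_ (conj_ift u x).symm
  simp only [h.neg]
  rfl

end Pool.Agent.P.MP_d0f69c_mp.XS.Rf
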