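import Pool.Agent.P.MP_d0f69c_mp.XS.RefD
import Pool.Agent.P.MP_d0f69c_mp.XS.PS1

/-!
Reference block: norm, decay, near part and symmetries of the bare kernel.
-/

set_option autoImplicit false

open Finset Real Matrix
open scoped ComplexConjugate

namespace Pool.Agent.P.MP_d0f69c_mp.XS.Rf

open Pre

variable {d M : ℕ} [NeZero M]

theorem s2_mem {b : ℝ} (hb : |b| ≤ 2 * d) (q : Tor d M) : 0 ≤ s2 b q ∧ s2 b q ≤ 1 :=
  ⟨pow_nonneg (Qs_mem hb q).1 _, pow_le_one₀ (Qs_mem hb q).1 (Qs_mem hb q).2⟩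

theorem nn_le (d : ℕ) : (nn d : ℝ) ≤ d ^ 2 / 2500 := by
  have := Nat.cast_div_le (α := ℝ) (m := d ^ 2) (n := 2500)
  push_cast at this
  exact this

theorem nn_ge (hd : 100 ≤ d) : (d : ℝ) ^ 2 / 5000 ≤ nn d := by
  have h : d ^ 2 ≤ 5000 * nn d := by
    have : 100 ^ 2 ≤ d ^ 2 := Nat.pow_le_pow_left hd 2
    unfold nn
    omega
  have : (d : ℝ) ^ 2 ≤ 5000 * nn d := by exact_mod_cast h
  linarith

theorem nn_div (d : ℕ) : (nn d : ℝ) / (4 * d) ^ 2 ≤ 1 / 40000 :=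
  div_le_of_le_mul₀ (by positivity) (by norm_num) (by linarith [nn_le d])

/-- the bare kernel is small -/
theorem As_le {b : ℝ} (hb : |b| ≤ 2 * d) (q : Tor d M) : |As b q| ≤ 1 / 200 := by
  have h1 : ∑ i ∈ range (nn d), Qs b q ^ i ≤ nn d :=
    (sum_le_card_nsmul _ _ 1 fun i _ => pow_le_one₀ (Qs_mem hb q).1 (Qs_mem hb q).2).trans (by simp)
  have h2 : As b q ^ 2 = (1 - s2 b q) * ((∑ i ∈ range (nn d), Qs b q ^ i) / (4 * d) ^ 2) := by
    rw [← Xs_As, sq]
    nth_rewrite 1 [As]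
    ring
  have h3 := (div_le_div_of_nonneg_right h1 (sq_nonneg (4 * d : ℝ))).trans (nn_div d)
  have h4 := s2_mem hb q
  have h5 := mul_le_mul (show 1 - s2 b q ≤ 1 by linarith [h4.1]) h3
    (div_nonneg (sum_nonneg fun i _ => pow_nonneg (Qs_mem hb q).1 _) (sq_nonneg _)) zero_le_one
  exact abs_le_of_sq_le_sq (by linarith) (by norm_num)

/-! ### the adjacency matrix -/

/-- the adjacency matrix of the torus -/
noncomputable def Ad (d M : ℕ) : Matrix (Tor d M) (Tor d M) ℝ := fun a b =>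
  ∑ i : Fin d, ((if b = a + Pi.single i 1 then 1 else 0) + if b = a - Pi.single i 1 then 1 else 0)

omit [NeZero M] in
theorem Ad_eq (x y : Tor d M) : Ad d M x y = (if x = y then 2 * (d : ℝ) else 0) - Lap d M x y := by
  simp only [Ad, Lap, sum_sub_distrib, sum_add_distrib, sum_const, card_univ, Fintype.card_fin,
    nsmul_eq_mul, eq_comm (a := x)]
  split_ifs <;> ring

omit [NeZero M] in
theorem Ad_symm (x y : Tor d M) : Ad d M x y = Ad d M y x := by
  rw [Ad_eq, Ad_eq, Lap_symm, if_congr eq_comm rfl rfl]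

theorem Ad_kw : KW (fun _ _ => 0) (Ad d M) (2 * d) := by
  have h : ∀ x, ∑ y, Ad d M x y ≤ 2 * d := fun x => by
    simp only [Ad]
    rw [sum_comm]
    simp [sum_add_distrib, two_mul]
  exact kw_zero_iff.2 ⟨fun x y => sum_nonneg fun i _ => by positivity, h,
    fun y => by simpa only [Ad_symm _ y] using h y⟩

omit [NeZero M] in
theorem Ad_ne {x y : Tor d M} (h : Ad d M x y ≠ 0) :
    ∃ i, y = x + Pi.single i 1 ∨ x = y + Pi.single i 1 := by
  obtain ⟨i, -, hi⟩ := exists_ne_zero_of_sum_ne_zero h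
  refine ⟨i, by_contra fun c => hi ?_⟩
  rw [not_or] at c
  rw [if_neg c.1, if_neg fun e => c.2 (by rw [e, sub_add_cancel]), add_zero]

/-- symbols to matrices -/
noncomputable def smH (d M : ℕ) [NeZero M] : (Tor d M → ℂ) →+* Matrix (Tor d M) (Tor d M) ℂ where
  toFun := sm
  map_one' := sm_one
  map_mul' F G := (sm_mul F G).symm
  map_zero' := by simpa using sm_sub (d := d) (M := M) 0 0 |>.symm
  map_add' F G := (sm_add F G).symm

theorem sm_R1 : sm (fun q : Tor d M => (R1 q : ℂ)) = cr (Ad d M) := by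
  have e : (fun q : Tor d M => (R1 q : ℂ)) = (2 * d : ℂ) • 1 - fun q => (eps q : ℂ) :=
    funext fun q => by simp [eps_eq]
  rw [e, ← sm_sub, ← sm_smul, sm_one, ← sm_Lap]
  ext x y
  simp only [cr, Ad_eq, Matrix.sub_apply, Matrix.smul_apply, one_apply, map_apply]
  split_ifs <;> simp

section pert

variable {ι : Type} [Fintype ι] [DecidableEq ι]

/-- conjugation with a weight -/
noncomputable def cjH (ρ : ι → ℝ) : Matrix ι ι ℂ →+* Matrix ι ι ℂ where
  toFun := cj ρ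
  map_one' := cj_one ρ
  map_mul' := cj_mul ρ
  map_zero' := by ext x y; simp [cj]
  map_add' := cj_add ρ

/-- the filter polynomial -/
noncomputable def Pq (c : ℂ) (n : ℕ) (X : Matrix ι ι ℂ) : Matrix ι ι ℂ :=
  c • (X * ∑ i ∈ range n, (1 - c • (X * X)) ^ i)

theorem cj_Pq (ρ : ι → ℝ) (c : ℂ) (n : ℕ) (X : Matrix ι ι ℂ) : cj ρ (Pq c n X) = Pq c n (cj ρ X) := by
  have h : ∀ Y : Matrix ι ι ℂ, cjH ρ (c • Y) = c • cjH ρ Y := fun Y => by
    ext x y
    simp [cjH, cj, mul_left_comm]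
  change cjH ρ _ = Pq c n (cjH ρ X)
  simp only [Pq, h, map_mul, map_sum, map_pow, map_sub, map_one]

omit [DecidableEq ι] in
theorem w0 {A : Matrix ι ι ℂ} {a : ℝ} (h : OpLe univ A a) : WN (fun _ _ => 0) A a := fun ρ hρ =>
  h.congr fun x _ y _ => by
    have : ρ x - ρ y = 0 := by linarith [hρ x y, hρ y x]
    simp [cj, this]

theorem pert {X X' : Matrix ι ι ℂ} {c : ℂ} {B ε a : ℝ} (n : ℕ) (hB : 0 ≤ B) (hε : 0 ≤ ε)
    (hX : WN (fun _ _ => 0) X B) (hQ : WN (fun _ _ => 0) (1 - c • (X * X)) 1)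
    (hE : WN (fun _ _ => 0) (X' - X) ε) (hA : WN (fun _ _ => 0) (Pq c n X) a) :
    WN (fun _ _ => 0) (Pq c n X') (a + ‖c‖ * n * (ε * (1 + ‖c‖ * (ε * (2 * B + ε))) ^ n +
      B * ((1 + ‖c‖ * (ε * (2 * B + ε))) ^ n - 1))) := by
  set κ := ‖c‖ * (ε * (2 * B + ε)) with hκ
  have κ0 : 0 ≤ κ := by positivity
  set Q := 1 - c • (X * X) with hQe
  set Q' := 1 - c • (X' * X') with hQ'
  have h1 : WN (fun _ _ => 0) (Q' - Q) κ := by
    have := ((((hX.mul hE hB).add (hE.mul hX hε)).add (hE.mul hE hε)).smul c).neg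
    rw [show Q' - Q = -(c • (X * (X' - X) + (X' - X) * X + (X' - X) * (X' - X))) by
      rw [hQe, hQ', sub_sub_sub_cancel_left, ← smul_sub, ← smul_neg]; congr 1; noncomm_ring]
    exact this.mono (le_of_eq (by rw [hκ]; ring))
  have h2 : ∀ i, WN (fun _ _ => 0) (Q ^ i) 1 ∧
      WN (fun _ _ => 0) (Q' ^ i - Q ^ i) ((1 + κ) ^ i - 1) := fun i => by
    induction i with
    | zero =>
      refine ⟨by simpa using WN.one, ?_⟩
      simpa using (WN.one (r := fun _ _ : ι => (0 : ℝ))).smul 0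
    | succ i ih =>
      have t0 : 0 ≤ (1 + κ) ^ i - 1 := sub_nonneg.2 (one_le_pow₀ (by linarith))
      refine ⟨by simpa [pow_succ] using ih.1.mul hQ zero_le_one, ?_⟩
      have := ((ih.2.mul hQ t0).add (ih.2.mul h1 t0)).add (ih.1.mul h1 zero_le_one)
      rw [show Q' ^ (i + 1) - Q ^ (i + 1) =
        (Q' ^ i - Q ^ i) * Q + (Q' ^ i - Q ^ i) * (Q' - Q) + Q ^ i * (Q' - Q) by
          rw [pow_succ, pow_succ]; noncomm_ring]
      exact this.mono (le_of_eq (by ring))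
  have h3 : ∀ i ∈ range n, (1 + κ) ^ i ≤ (1 + κ) ^ n := fun i hi =>
    pow_le_pow_right₀ (by linarith) (mem_range.1 hi).le
  have h4 := WN.sum (range n) (A := fun i => Q' ^ i) (a := fun _ => (1 + κ) ^ n) fun i hi => by
    have := (h2 i).1.add (h2 i).2
    rw [add_sub_cancel, add_sub_cancel] at this
    exact this.mono (h3 i hi)
  have h5 := WN.sum (range n) (A := fun i => Q' ^ i - Q ^ i) (a := fun _ => (1 + κ) ^ n - 1)
    fun i hi => (h2 i).2.mono (by linarith [h3 i hi])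
  have h6 := hA.add (((hE.mul h4 hε).add (hX.mul h5 hB)).smul c)
  rw [show Pq c n X' = Pq c n X + c • ((X' - X) * ∑ i ∈ range n, Q' ^ i +
      X * ∑ i ∈ range n, (Q' ^ i - Q ^ i)) by
    rw [Pq, Pq, ← smul_add, sum_sub_distrib, ← hQe, ← hQ']; congr 1; noncomm_ring]
  refine h6.mono (le_of_eq ?_)
  simp only [sum_const, card_range, nsmul_eq_mul]
  ring

end pert

theorem sm_Xs (b : ℝ) : sm (fun q : Tor d M => (Xs b q : ℂ)) = (b : ℂ) • 1 - cr (Ad d M) := by
  rw [← sm_R1, ← sm_one, sm_smul, sm_sub]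
  exact congrArg sm (funext fun q => by simp [Xs])

theorem sm_Qs (b : ℝ) : sm (fun q : Tor d M => (Qs b q : ℂ)) = 1 - (((4 * d : ℝ) ^ 2)⁻¹ : ℝ) •
    (sm (fun q : Tor d M => (Xs b q : ℂ)) * sm fun q : Tor d M => (Xs b q : ℂ)) := by
  rw [sm_mul, ← sm_one, ← Complex.coe_smul, sm_smul, sm_sub]
  exact congrArg sm (funext fun q => by simp [Qs]; ring)

theorem sm_As (b : ℝ) : circulant (A0 d M b) =
    Pq (((4 * d : ℝ) ^ 2)⁻¹ : ℝ) (nn d) (sm fun q : Tor d M => (Xs b q : ℂ)) := by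
  rw [Pq, Complex.coe_smul, Complex.coe_smul, ← sm_Qs, ← Complex.coe_smul]
  change smH d M _ = _ • (smH d M _ * ∑ i ∈ range (nn d), smH d M _ ^ i)
  simp only [← map_pow, ← map_sum, ← map_mul]
  refine (congrArg sm (funext fun q => ?_)).trans (sm_smul _ _).symm
  simp [As]
  ring

/-- weighted norm of the bare kernel -/
theorem A0_wn (hd : 1 ≤ d) {b : ℝ} (hb : |b| ≤ 2 * d) {r : Tor d M → Tor d M → ℝ}
    (h1 : ∀ x j, r x (x + Pi.single j 1) ≤ 1 / d ^ 4)
    (h2 : ∀ x j, r (x + Pi.single j 1) x ≤ 1 / d ^ 4) : WN r (circulant (A0 d M b)) (1 / 150) := by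
  intro ρ hρ
  have d1 : (1 : ℝ) ≤ d := by exact_mod_cast hd
  have hX : OpLe univ (sm fun q : Tor d M => (Xs b q : ℂ)) (4 * d) := opLe_sm fun q => by
    rw [Complex.norm_real, norm_eq_abs, Xs]
    linarith [abs_sub b (R1 q), abs_R1 q]
  have hQ : OpLe univ (sm fun q : Tor d M => (Qs b q : ℂ)) 1 := opLe_sm fun q => by
    rw [Complex.norm_real, norm_of_nonneg (Qs_mem hb q).1]; exact (Qs_mem hb q).2
  have hA : OpLe univ (circulant (A0 d M b)) (1 / 200) := opLe_sm fun q => by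
    rw [Complex.norm_real, norm_eq_abs]; exact As_le hb q
  have δ1 : 1 / (d : ℝ) ^ 4 ≤ 1 := div_le_one_of_le₀ (one_le_pow₀ d1) (by positivity)
  have hE : OpLe univ (cj ρ (sm fun q : Tor d M => (Xs b q : ℂ)) - sm fun q => (Xs b q : ℂ))
      (2 * (1 / d ^ 4) * (2 * d)) :=
    (Ad_kw.smul (a := 2 * (1 / d ^ 4)) (by positivity)).opLe pm_zero (by positivity) fun x y => by
      have e : cj ρ (sm fun q : Tor d M => (Xs b q : ℂ)) x y - sm (fun q => (Xs b q : ℂ)) x y =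
          -((exp (ρ x - ρ y) - 1) * Ad d M x y : ℝ) := by
        simp only [sm_Xs, cj, cr, Matrix.sub_apply, Matrix.smul_apply, one_apply]
        split_ifs with h
        · simp [h]
        · push_cast; simp; ring
      change ‖cj ρ _ x y - sm _ x y‖ ≤ _
      rw [e, norm_neg, Complex.norm_real, norm_mul, norm_of_nonneg (Ad_kw.nn x y),
        Matrix.smul_apply, smul_eq_mul]
      by_cases h0 : Ad d M x y = 0
      · simp [h0]
      have h3 : |ρ x - ρ y| ≤ 1 / d ^ 4 := by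
        obtain ⟨i, rfl | rfl⟩ := Ad_ne h0
        · exact abs_le.2 ⟨by linarith [hρ (x + Pi.single i 1) x, h2 x i], (hρ _ _).trans (h1 x i)⟩
        · exact abs_le.2 ⟨by linarith [hρ y (y + Pi.single i 1), h1 y i], (hρ _ _).trans (h2 y i)⟩
      exact mul_le_mul_of_nonneg_right ((abs_exp_sub_one_le (h3.trans δ1)).trans (by linarith))
        (Ad_kw.nn x y)
  rw [sm_Qs, ← Complex.coe_smul] at hQ
  rw [sm_As] at hA ⊢
  rw [cj_Pq]
  refine ((pert (nn d) (by positivity) (by positivity) (w0 hX) (w0 hQ) (w0 hE) (w0 hA)).opLe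
    pm_zero).mono ?_
  rw [Complex.norm_real, norm_of_nonneg (by positivity)]
  set ε : ℝ := 2 * (1 / d ^ 4) * (2 * d) with hε
  have e0 : 0 ≤ ε := by positivity
  have e1 : ε * d ^ 3 = 4 := by rw [hε]; field_simp; ring
  have e2 : ε * d ≤ 4 := by
    rw [← e1]
    exact mul_le_mul_of_nonneg_left (le_self_pow₀ d1 (by norm_num)) e0
  have e3 : ε ≤ 4 := (le_mul_of_one_le_right e0 d1).trans e2
  have c1 : ((4 * d : ℝ) ^ 2)⁻¹ * nn d ≤ 1 / 40000 := by rw [← div_eq_inv_mul]; exact nn_div d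
  set κ := ((4 * d : ℝ) ^ 2)⁻¹ * (ε * (2 * (4 * d) + ε)) with hκ
  have k0 : 0 ≤ nn d * κ := by positivity
  have e4 : ε * (2 * (4 * d) + ε) * d ≤ 48 := by
    have : ε * d * d ≤ 4 := by
      rw [← e1, mul_assoc]
      exact mul_le_mul_of_nonneg_left (by nlinarith) e0
    nlinarith
  have k1 : nn d * κ * d ≤ 1 / 40000 * 48 := by
    rw [show nn d * κ * d = ((4 * d : ℝ) ^ 2)⁻¹ * nn d * (ε * (2 * (4 * d) + ε) * d) by
      rw [hκ]; ring]
    exact mul_le_mul c1 e4 (by positivity) (by norm_num)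
  have k2 : nn d * κ ≤ 1 / 40000 * 48 := (le_mul_of_one_le_right k0 d1).trans k1
  have t1 : (1 + κ) ^ nn d ≤ exp (nn d * κ) := by
    rw [exp_nat_mul]
    exact pow_le_pow_left₀ (by positivity) (by linarith [add_one_le_exp κ]) _
  have t2 := (abs_le.1 (abs_exp_sub_one_le (x := nn d * κ) (by rw [abs_of_nonneg k0]; linarith))).2
  rw [abs_of_nonneg k0] at t2
  have t3 : ε * (1 + κ) ^ nn d ≤ 4 * 2 := mul_le_mul e3 (by linarith) (by positivity) (by norm_num)
  have t4 : 4 * d * ((1 + κ) ^ nn d - 1) ≤ 4 * d * (2 * (nn d * κ)) :=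
    mul_le_mul_of_nonneg_left (by linarith) (by positivity)
  have t5 := mul_le_mul c1 (show ε * (1 + κ) ^ nn d + 4 * d * ((1 + κ) ^ nn d - 1) ≤ 9 by linarith)
    (add_nonneg (by positivity) (mul_nonneg (by positivity)
      (sub_nonneg.2 (one_le_pow₀ (le_add_of_nonneg_right (by positivity)))))) (by norm_num)
  linarith

/-! ### symmetries -/

theorem ift_inv {F : Tor d M → ℂ} {e : Tor d M → Tor d M} (he : Function.Bijective e)
    {x x' : Tor d M} (hF : ∀ k, F (e k) = F k) (h : ∀ k, ch (e k) x' = ch k x) :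
    ift F x' = ift F x := by
  simp only [ift]
  rw [← he.sum_comp]
  simp only [hF, h]

theorem ift_perm (f : ℝ → ℂ) (σ : Equiv.Perm (Fin d)) (x : Tor d M) :
    ift (fun q => f (R1 q)) (fun i => x (σ i)) = ift (fun q => f (R1 q)) x := by
  refine ift_inv (e := fun k i => k (σ i)) σ.bijective.comp_right (fun k => congrArg f ?_) fun k => ?_
  · exact Equiv.sum_comp σ fun i => cw 1 (k i)
  · rw [ch, ch, ← Equiv.sum_comp σ fun i => k i * x i]

theorem ift_refl (f : ℝ → ℂ) (i : Fin d) (x : Tor d M) :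
    ift (fun q => f (R1 q)) (Function.update x i (-x i)) = ift (fun q => f (R1 q)) x := by
  refine ift_inv (e := fun k => Function.update k i (-k i))
    (Function.Involutive.bijective fun k => by simp) (fun k => congrArg f ?_) fun k => ?_
  · refine sum_congr rfl fun j _ => ?_
    by_cases h : j = i
    · simp [h, cw, ← conj_e]
    · simp [h]
  · rw [ch, ch]
    congr 1
    refine sum_congr rfl fun j _ => ?_
    by_cases h : j = i
    · simp [h]
    · simp [h]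

theorem ift_even (f : ℝ → ℂ) (x : Tor d M) :
    ift (fun q => f (R1 q)) (-x) = ift (fun q => f (R1 q)) x := by
  simp only [ift_neg, R1_neg]

theorem ift_conj (f : ℝ → ℝ) (x : Tor d M) :
    conj (ift (fun q => (f (R1 q) : ℂ)) x) = ift (fun q => (f (R1 q) : ℂ)) x := by
  rw [← ift_even fun t => (f t : ℂ)]
  simp only [ift, map_div₀, map_sum, map_mul, conj_ch, Complex.conj_ofReal, map_pow, map_natCast,
    neg_neg]
  exact (ift_even (fun t => (f t : ℂ)) x).symm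

theorem A0_perm (b : ℝ) (σ : Equiv.Perm (Fin d)) (x : Tor d M) :
    A0 d M b (fun i => x (σ i)) = A0 d M b x :=
  ift_perm (fun t => ((b - t) / (4 * d) ^ 2 *
    ∑ i ∈ range (nn d), (1 - (b - t) ^ 2 / (4 * d) ^ 2) ^ i : ℝ)) σ x

theorem A0_refl (b : ℝ) (i : Fin d) (x : Tor d M) :
    A0 d M b (Function.update x i (-x i)) = A0 d M b x :=
  ift_refl (fun t => ((b - t) / (4 * d) ^ 2 *
    ∑ i ∈ range (nn d), (1 - (b - t) ^ 2 / (4 * d) ^ 2) ^ i : ℝ)) i x

theorem A0_neg (b : ℝ) (x : Tor d M) : A0 d M b (-x) = A0 d M b x :=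
  ift_even (fun t => ((b - t) / (4 * d) ^ 2 *
    ∑ i ∈ range (nn d), (1 - (b - t) ^ 2 / (4 * d) ^ 2) ^ i : ℝ)) x

theorem A0_conj (b : ℝ) (x : Tor d M) : conj (A0 d M b x) = A0 d M b x :=
  ift_conj (fun t => (b - t) / (4 * d) ^ 2 *
    ∑ i ∈ range (nn d), (1 - (b - t) ^ 2 / (4 * d) ^ 2) ^ i) x

theorem A0_im (b : ℝ) (x : Tor d M) : (A0 d M b x).im = 0 := Complex.conj_eq_iff_im.1 (A0_conj b x)

/-! ### the near part -/

/-- the near part as a real matrix -/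
noncomputable def aR (d M : ℕ) [NeZero M] (b : ℝ) (j : ℕ) : Matrix (Tor d M) (Tor d M) ℝ :=
  fun x y => (a1 d M b j (x - y)).re

theorem circ_a1 (b : ℝ) (j : ℕ) : circulant (a1 d M b j) =
    cr (∑ i ∈ range (j + 1), (b ^ (i + 1))⁻¹ • Ad d M ^ i) := by
  have e : (fun q : Tor d M => (a1s b j q : ℂ)) =
      ∑ i ∈ range (j + 1), (((b ^ (i + 1))⁻¹ : ℝ) : ℂ) • (fun q => (R1 q : ℂ)) ^ i :=
    funext fun q => by simp [a1s, div_eq_inv_mul]
  change smH d M _ = Complex.ofRealHom.mapMatrix _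
  rw [e, map_sum, map_sum]
  refine sum_congr rfl fun i _ => ?_
  refine (sm_smul _ _).symm.trans ?_
  have h := map_pow (smH d M) (fun q => (R1 q : ℂ)) i
  have h' := map_pow (Complex.ofRealHom.mapMatrix (m := Tor d M)) (Ad d M) i
  change sm _ = sm _ ^ i at h
  change cr _ = cr _ ^ i at h'
  rw [h, sm_R1, ← h']
  ext x y
  simp [cr]

theorem aR_eq (b : ℝ) (j : ℕ) : aR d M b j = ∑ i ∈ range (j + 1), (b ^ (i + 1))⁻¹ • Ad d M ^ i := by
  ext x y
  exact congrArg Complex.re (congrFun (congrFun (circ_a1 b j) x) y)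

theorem cr_aR (b : ℝ) (j : ℕ) : cr (aR d M b j) = circulant (a1 d M b j) := by rw [aR_eq, circ_a1]

theorem a1_perm (b : ℝ) (j : ℕ) (σ : Equiv.Perm (Fin d)) (x : Tor d M) :
    a1 d M b j (fun i => x (σ i)) = a1 d M b j x :=
  ift_perm (fun t => (∑ i ∈ range (j + 1), t ^ i / b ^ (i + 1) : ℝ)) σ x

theorem a1_refl (b : ℝ) (j : ℕ) (i : Fin d) (x : Tor d M) :
    a1 d M b j (Function.update x i (-x i)) = a1 d M b j x :=
  ift_refl (fun t => (∑ i ∈ range (j + 1), t ^ i / b ^ (i + 1) : ℝ)) i x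

theorem a1_neg (b : ℝ) (j : ℕ) (x : Tor d M) : a1 d M b j (-x) = a1 d M b j x :=
  ift_even (fun t => (∑ i ∈ range (j + 1), t ^ i / b ^ (i + 1) : ℝ)) x

theorem aR_T (b : ℝ) (j : ℕ) : (aR d M b j)ᵀ = aR d M b j := by
  ext x y
  rw [transpose_apply, aR, aR, ← a1_neg, neg_sub]

theorem aR_kw {b : ℝ} (hb : 0 ≤ b) (j : ℕ) : KW (fun _ _ => 0) (aR d M b j)
    (∑ i ∈ range (j + 1), (b ^ (i + 1))⁻¹ * (2 * d) ^ i) := by
  rw [aR_eq]
  induction j + 1 with
  | zero => simpa using KW.zero le_rfl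
  | succ n ih =>
    rw [sum_range_succ, sum_range_succ]
    exact ih.add ((Ad_kw.pow pm_zero n).smul (by positivity))

theorem a1_range (b : ℝ) (j : ℕ) {ρ : Tor d M → ℕ} (h0 : ρ 0 = 0)
    (h1 : ∀ x i, ρ (x + Pi.single i 1) ≤ ρ x + 1) (h2 : ∀ x i, ρ (x - Pi.single i 1) ≤ ρ x + 1)
    {h : Tor d M} (hh : a1 d M b j h ≠ 0) : ρ h ≤ j := by
  have k : ∀ i x, (Ad d M ^ i) x 0 ≠ 0 → ρ x ≤ i := fun i => by
    induction i with
    | zero =>
      intro x hx
      by_cases e : x = 0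
      · rw [e, h0]
      · simp [e] at hx
    | succ i ih =>
      intro x hx
      rw [pow_succ', mul_apply] at hx
      obtain ⟨z, -, hz⟩ := exists_ne_zero_of_sum_ne_zero hx
      have := ih z (right_ne_zero_of_mul hz)
      obtain ⟨l, e | e⟩ := Ad_ne (left_ne_zero_of_mul hz)
      · have := h2 z l
        rw [e, add_sub_cancel_right, ← e] at this
        omega
      · have := h1 z l
        rw [← e] at this
        omega
  rw [← sub_zero h, ← circulant_apply (a1 d M b j), circ_a1, cr, Complex.ofReal_ne_zero,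
    Matrix.sum_apply] at hh
  obtain ⟨i, hi, e⟩ := exists_ne_zero_of_sum_ne_zero hh
  exact (k i h (right_ne_zero_of_mul e)).trans (Nat.le_of_lt_succ (mem_range.1 hi))

/-- moments of the symbol of the adjacency matrix -/
theorem mom_R1 (hd : 4 ≤ d) (hM : 3 ≤ M) (n : ℕ) :
    av (fun q : Tor d M => R1 q ^ (2 * n)) ≤ (2 * n).factorial * (2 * exp 2) * d ^ n := by
  have d4 : (4 : ℝ) ≤ d := by exact_mod_cast hd
  obtain ⟨l, l0, hl⟩ : ∃ l : ℝ, 0 ≤ l ∧ l ^ 2 * d = 1 :=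
    ⟨√(1 / d), sqrt_nonneg _, by rw [sq_sqrt (by positivity)]; field_simp⟩
  have l1 : l ≤ 1 / 2 := by nlinarith
  have h : ∀ s : ℝ, |s| = l → av (fun q : Tor d M => exp (s * R1 q)) ≤ exp 2 := fun s hs => by
    have h1 := Ref.av_exp_le (f := fun (_ : Fin d) (t : ZMod M) => s * Ref.vr 1 t) fun _ =>
      Ref.mgf_le hM (l := s) (α := 1) (by rw [hs, norm_one, mul_one]; exact l1)
    simp only [R1_eq, Ref.vv, mul_sum]
    refine h1.trans (exp_le_exp.2 ?_)
    rw [sum_const, card_univ, Fintype.card_fin, nsmul_eq_mul, norm_one, ← sq_abs s, hs]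
    nlinarith
  have e : ∀ q : Tor d M, R1 q ^ (2 * n) ≤
      (2 * n).factorial * d ^ n * (exp (l * R1 q) + exp (-l * R1 q)) := fun q => by
    have h1 := pow_div_factorial_le_exp _ (abs_nonneg (l * R1 q)) (2 * n)
    have h2 : exp |l * R1 q| ≤ exp (l * R1 q) + exp (-l * R1 q) := by
      rw [neg_mul]
      rcases abs_choice (l * R1 q) with e | e <;> rw [e] <;>
        linarith [exp_pos (l * R1 q), exp_pos (-(l * R1 q))]
    rw [div_le_iff₀ (by positivity), pow_mul, sq_abs] at h1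
    have h3 : R1 q ^ (2 * n) = d ^ n * ((l * R1 q) ^ 2) ^ n := by
      rw [← mul_pow, pow_mul]
      congr 1
      linear_combination -R1 q ^ 2 * hl
    rw [h3, mul_comm (_ : ℝ) (d ^ n), mul_assoc]
    refine mul_le_mul_of_nonneg_left (h1.trans ?_) (by positivity)
    rw [mul_comm]
    exact mul_le_mul_of_nonneg_left h2 (by positivity)
  refine (av_mono e).trans ?_
  rw [av_mul, av_add, mul_right_comm _ (2 * exp 2)]
  exact mul_le_mul_of_nonneg_left (by
    linarith [h l (abs_of_nonneg l0), h (-l) (by rw [abs_neg, abs_of_nonneg l0])]) (by positivity)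

omit [NeZero M] in
theorem pow_div {β b : ℝ} (hβ : 0 < β) (hd : 1 ≤ d) (hb : β * d ≤ b) {n k m : ℕ} (h : n + k ≤ m) :
    (d : ℝ) ^ n / b ^ m ≤ (β ^ m)⁻¹ / d ^ k := by
  have d1 : (1 : ℝ) ≤ d := by exact_mod_cast hd
  have h1 : (β * d) ^ m ≤ b ^ m := pow_le_pow_left₀ (by positivity) hb m
  have h2 : (d : ℝ) ^ (n + k) ≤ d ^ m := pow_le_pow_right₀ d1 h
  refine (div_le_div_of_nonneg_left (by positivity) (by positivity) h1).trans ?_
  rw [mul_pow, div_le_div_iff₀ (by positivity) (by positivity), ← pow_add, ← mul_assoc,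
    inv_mul_cancel₀ (by positivity), one_mul]
  exact h2

theorem mom_div {β b : ℝ} (hβ : 0 < β) (hd : 4 ≤ d) (hM : 3 ≤ M) (hb : β * d ≤ b) {n k m : ℕ}
    (h : n + k ≤ m) : av (fun q : Tor d M => (b ^ m)⁻¹ * R1 q ^ (2 * n)) ≤
      (2 * n).factorial * (2 * exp 2) * (β ^ m)⁻¹ / d ^ k := by
  have b0 : 0 ≤ b := le_trans (by positivity) hb
  rw [av_mul, mul_div_assoc]
  refine (mul_le_mul_of_nonneg_left (mom_R1 hd hM n) (by positivity)).trans ?_
  rw [mul_left_comm, ← div_eq_inv_mul]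
  exact mul_le_mul_of_nonneg_left (pow_div hβ (by omega) hb h) (by positivity)

omit [NeZero M] in
theorem l1_le {β b : ℝ} (hβ : 0 < β) (hd : 1 ≤ d) (hb : β * d ≤ b) (j : ℕ) :
    ∑ i ∈ range (j + 1), (b ^ (i + 1))⁻¹ * (2 * d) ^ i ≤
      (∑ i ∈ range (j + 1), 2 ^ i * (β ^ (i + 1))⁻¹) / d := by
  rw [sum_div]
  refine sum_le_sum fun i _ => ?_
  have := pow_div hβ hd hb (n := i) (k := 1) le_rfl
  rw [pow_one] at this
  rw [mul_pow, mul_left_comm, ← div_eq_inv_mul, mul_div_assoc]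
  exact mul_le_mul_of_nonneg_left this (by positivity)

theorem off_le {β b : ℝ} (hβ : 0 < β) (hd : 4 ≤ d) (hM : 3 ≤ M) (hb : β * d ≤ b) (j : ℕ)
    (y : Tor d M) : ∑ x, off (ab (aR d M b j)) x y ^ 2 ≤ (j * ∑ i ∈ range j,
      (2 * (i + 1)).factorial * (2 * exp 2) * (β ^ (2 * (i + 2)))⁻¹) / d ^ 3 := by
  have h1 : ∀ x, off (ab (aR d M b j)) x y ^ 2 ≤
      ‖ift (fun q => ((a1s b j q - b⁻¹ : ℝ) : ℂ)) (x - y)‖ ^ 2 := fun x => by
    by_cases e : x = y
    · simp [off, e]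
    · have : (fun q : Tor d M => ((a1s b j q - b⁻¹ : ℝ) : ℂ)) =
          (fun q => (a1s b j q : ℂ)) - ((b⁻¹ : ℝ) : ℂ) • 1 := funext fun q => by simp
      rw [← sm_apply, this, ← sm_sub, ← sm_smul, sm_one, Matrix.sub_apply, Matrix.smul_apply,
        one_apply_ne e, smul_zero, sub_zero, off, if_neg e, ab]
      exact pow_le_pow_left₀ (abs_nonneg _) (Complex.abs_re_le_norm _) 2
  refine (sum_le_sum fun x _ => h1 x).trans ?_
  rw [← Equiv.sum_comp (Equiv.addRight y)]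
  simp only [Equiv.coe_addRight, add_sub_cancel_right]
  rw [pars_av]
  refine (av_mono (g := fun q => j * ∑ i ∈ range j, (b ^ (2 * (i + 2)))⁻¹ * R1 q ^ (2 * (i + 1)))
    fun q => ?_).trans ?_
  · rw [Complex.norm_real, norm_eq_abs, sq_abs, a1s, sum_range_succ', pow_zero, zero_add, pow_one,
      one_div, add_sub_cancel_right]
    refine sq_sum_le_card_mul_sum_sq.trans_eq ?_
    rw [card_range]
    exact congrArg _ (sum_congr rfl fun i _ => by ring)
  · rw [av_mul, av_sum, mul_div_assoc, sum_div]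
    exact mul_le_mul_of_nonneg_left (sum_le_sum fun i _ => mom_div hβ hd hM hb (by omega))
      (Nat.cast_nonneg _)

theorem far_pt {β b : ℝ} (hβ : 0 < β) (hd : 100 ≤ d) (hb : β * d ≤ b) (hb' : b ≤ d) (j m : ℕ)
    (q : Tor d M) : (As b q - a1s b j q) ^ 2 ≤ 8 * ((b ^ (2 * (j + 2)))⁻¹ * R1 q ^ (2 * (j + 1))) +
      (1 + ∑ i ∈ range (j + 1), 2 ^ i * (β ^ (i + 1))⁻¹) ^ 2 * 4 ^ m *
        ((b ^ (2 * m))⁻¹ * R1 q ^ (2 * m)) + 8 * exp (-(β ^ 2 / 320000 * d ^ 2)) / b ^ 2 := by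
  have d1 : (100 : ℝ) ≤ d := by exact_mod_cast hd
  have b0 : 0 < b := lt_of_lt_of_le (by positivity) hb
  have hb2 : |b| ≤ 2 * d := by rw [abs_of_pos b0]; linarith
  have p1 : ∀ k n, 0 ≤ (b ^ k)⁻¹ * R1 q ^ (2 * n) := fun k n => by rw [pow_mul]; positivity
  set C := ∑ i ∈ range (j + 1), 2 ^ i * (β ^ (i + 1))⁻¹ with hC
  have C0 : 0 ≤ C := by positivity
  by_cases h : |R1 q| ≤ b / 2
  · have hX : b / 2 ≤ Xs b q := by rw [Xs]; linarith [(abs_le.1 h).2]
    have e1 : Xs b q * a1s b j q = 1 - (R1 q / b) ^ (j + 1) := by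
      rw [← mul_neg_geom_sum, a1s, mul_sum, mul_sum]
      refine sum_congr rfl fun i _ => ?_
      rw [Xs, div_pow]
      field_simp
      ring
    have e2 : Xs b q * (As b q - a1s b j q) = (R1 q / b) ^ (j + 1) - s2 b q := by
      rw [mul_sub, Xs_As, e1]; ring
    have s1 : s2 b q ≤ exp (-(β ^ 2 / 320000 * d ^ 2)) := by
      refine (pow_le_pow_left₀ (Qs_mem hb2 q).1 (one_sub_le_exp_neg _) _).trans ?_
      rw [← exp_nat_mul, exp_le_exp, mul_neg, neg_le_neg_iff]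
      have a : β ^ 2 / 64 ≤ Xs b q ^ 2 / (4 * d) ^ 2 := by
        rw [le_div_iff₀ (by positivity)]
        have := pow_le_pow_left₀ (by positivity) (show β * d / 2 ≤ Xs b q by linarith) 2
        linarith
      linarith [mul_le_mul (nn_ge hd) a (by positivity) (Nat.cast_nonneg _)]
    have s0 := s2_mem hb2 q
    have e3 : (b / 2) ^ 2 * (As b q - a1s b j q) ^ 2 ≤ 2 * ((R1 q / b) ^ (j + 1)) ^ 2 +
        2 * exp (-(β ^ 2 / 320000 * d ^ 2)) := by
      refine (mul_le_mul_of_nonneg_right (pow_le_pow_left₀ (by positivity) hX 2)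
        (sq_nonneg _)).trans ?_
      rw [← mul_pow, e2]
      nlinarith [sq_nonneg ((R1 q / b) ^ (j + 1) + s2 b q)]
    have e4 : (As b q - a1s b j q) ^ 2 ≤ 8 * ((b ^ (2 * (j + 2)))⁻¹ * R1 q ^ (2 * (j + 1))) +
        8 * exp (-(β ^ 2 / 320000 * d ^ 2)) / b ^ 2 := by
      refine le_of_mul_le_mul_left (e3.trans_eq ?_) (show 0 < (b / 2) ^ 2 by positivity)
      rw [div_pow (R1 q)]
      field_simp
      ring
    have := mul_nonneg (show 0 ≤ (1 + C) ^ 2 * 4 ^ m by positivity) (p1 (2 * m) m)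
    linarith
  · have a1 : |a1s b j q| ≤ C := by
      refine (abs_sum_le_sum_abs _ _).trans (le_trans (sum_le_sum fun i _ => ?_)
        ((l1_le hβ (by omega) hb j).trans (div_le_self C0 (by linarith))))
      rw [abs_div, abs_pow, abs_of_pos (pow_pos b0 _), div_eq_inv_mul]
      exact mul_le_mul_of_nonneg_left (pow_le_pow_left₀ (abs_nonneg _) (abs_R1 q) i) (by positivity)
    have a2 : (As b q - a1s b j q) ^ 2 ≤ (1 + C) ^ 2 := by
      rw [← sq_abs]
      exact pow_le_pow_left₀ (abs_nonneg _) (by linarith [abs_sub (As b q) (a1s b j q), As_le hb2 q]) 2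
    have a3 : 1 ≤ 4 ^ m * ((b ^ (2 * m))⁻¹ * R1 q ^ (2 * m)) := by
      rw [pow_mul, pow_mul, ← inv_pow, ← mul_pow, ← mul_pow]
      refine one_le_pow₀ ?_
      rw [← div_eq_inv_mul, ← mul_div_assoc, one_le_div (by positivity), ← sq_abs (R1 q)]
      nlinarith [not_le.1 h]
    have a4 := mul_le_mul_of_nonneg_left a3 (sq_nonneg (1 + C))
    have a5 := p1 (2 * (j + 2)) (j + 1)
    have a6 : 0 ≤ 8 * exp (-(β ^ 2 / 320000 * d ^ 2)) / b ^ 2 := by positivity
    linarith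

theorem far_le {β : ℝ} (hβ : 0 < β) (j : ℕ) : ∃ C : ℝ, 0 ≤ C ∧ ∀ (d M : ℕ) [NeZero M] (b : ℝ),
    100 ≤ d → 3 ≤ M → β * d ≤ b → b ≤ d → ∀ z : Tor d M,
      ∑ x, ‖A0 d M b (x - z) - aR d M b j x z‖ ^ 2 ≤ C / d ^ (j + 3) := by
  refine ⟨8 * ((2 * (j + 1)).factorial * (2 * exp 2) * (β ^ (2 * (j + 2)))⁻¹) +
    (1 + ∑ i ∈ range (j + 1), 2 ^ i * (β ^ (i + 1))⁻¹) ^ 2 * 4 ^ (j + 3) *
      ((2 * (j + 3)).factorial * (2 * exp 2) * (β ^ (2 * (j + 3)))⁻¹) +
    8 * ((j + 3).factorial / (β ^ 2 / 320000) ^ (j + 3)) * (β ^ 2)⁻¹, by positivity,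
    fun d M _ b hd hM hb hb' z => ?_⟩
  have d1 : (100 : ℝ) ≤ d := by exact_mod_cast hd
  have e : ∀ x, A0 d M b (x - z) - aR d M b j x z =
      ift (fun q => ((As b q - a1s b j q : ℝ) : ℂ)) (x - z) := fun x => by
    have : (fun q : Tor d M => ((As b q - a1s b j q : ℝ) : ℂ)) =
        (fun q => (As b q : ℂ)) - fun q => (a1s b j q : ℂ) := funext fun q => by simp
    rw [← sm_apply, this, ← sm_sub, Matrix.sub_apply]
    exact congrArg _ (congrFun (congrFun (cr_aR b j) x) z)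
  simp only [e]
  rw [← Equiv.sum_comp (Equiv.addRight z)]
  simp only [Equiv.coe_addRight, add_sub_cancel_right]
  rw [pars_av]
  simp only [Complex.norm_real, norm_eq_abs, sq_abs]
  refine (av_mono (far_pt hβ hd hb hb' j (j + 3))).trans ?_
  rw [av_add, av_add, av_mul 8, av_mul (_ * 4 ^ (j + 3)), av_const, add_div, add_div,
    mul_div_assoc 8 _ ((d : ℝ) ^ (j + 3)), mul_div_assoc (_ * 4 ^ (j + 3))]
  have m1 := mom_div hβ (by omega) hM hb (show j + 1 + (j + 3) ≤ 2 * (j + 2) by omega)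
  have m2 := mom_div hβ (by omega) hM hb (show j + 3 + (j + 3) ≤ 2 * (j + 3) by omega)
  refine add_le_add (add_le_add (mul_le_mul_of_nonneg_left m1 (by norm_num))
    (mul_le_mul_of_nonneg_left m2 (by positivity))) ?_
  have h1 := pow_div_factorial_le_exp (β ^ 2 / 320000 * d ^ 2) (by positivity) (j + 3)
  have h2 : exp (-(β ^ 2 / 320000 * d ^ 2)) ≤
      (j + 3).factorial / (β ^ 2 / 320000) ^ (j + 3) / d ^ (j + 3) := by
    rw [exp_neg, div_div, ← mul_pow, ← inv_div (_ ^ (j + 3))]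
    refine inv_anti₀ (by positivity) (le_trans ?_ h1)
    gcongr
    nlinarith
  have h3 : (b ^ 2)⁻¹ ≤ (β ^ 2)⁻¹ :=
    inv_anti₀ (by positivity) (pow_le_pow_left₀ hβ.le (by nlinarith) 2)
  refine le_trans (le_of_eq (by ring)) ((mul_le_mul_of_nonneg_left (mul_le_mul h2 h3
    (by positivity) (by positivity)) (show (0 : ℝ) ≤ 8 by norm_num)).trans_eq (by ring))

/-- the near part of the bare kernel -/
theorem near {β : ℝ} (hβ : 0 < β) (j : ℕ) : ∃ C : ℝ, 0 ≤ C ∧ ∀ (d M : ℕ) [NeZero M] (b : ℝ),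
    100 ≤ d → 3 ≤ M → β * d ≤ b → b ≤ d →
      cr (aR d M b j) = circulant (a1 d M b j) ∧ (aR d M b j)ᵀ = aR d M b j ∧
      (∀ x y, 0 ≤ aR d M b j x y) ∧ KW (fun _ _ => 0) (ab (aR d M b j)) (C / d) ∧
      (∀ y, ∑ x, off (ab (aR d M b j)) x y ^ 2 ≤ C / d ^ 3) ∧
      ∀ z, ∑ x, ‖A0 d M b (x - z) - aR d M b j x z‖ ^ 2 ≤ C / d ^ (j + 3) := by
  obtain ⟨C, C0, hC⟩ := far_le hβ j
  set C1 := ∑ i ∈ range (j + 1), 2 ^ i * (β ^ (i + 1))⁻¹ with h1
  set C2 := j * ∑ i ∈ range j, (2 * (i + 1)).factorial * (2 * exp 2) * (β ^ (2 * (i + 2)))⁻¹ with h2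
  have c1 : 0 ≤ C1 := by positivity
  have c2 : 0 ≤ C2 := by positivity
  refine ⟨C + C1 + C2, by positivity, fun d M _ b hd hM hb hb' => ?_⟩
  have hk := aR_kw (d := d) (M := M) (le_trans (by positivity) hb) j
  refine ⟨cr_aR b j, aR_T b j, hk.nn, hk.mono (fun _ _ => abs_nonneg _)
    (fun x y => (abs_of_nonneg (hk.nn x y)).le) ((l1_le hβ (by omega) hb j).trans ?_),
    fun y => (off_le hβ (by omega) hM hb j y).trans ?_, fun z => (hC d M b hd hM hb hb' z).trans ?_⟩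
  all_goals exact div_le_div_of_nonneg_right (by linarith) (by positivity)

end Pool.Agent.P.MP_d0f69c_mp.XS.Rf
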