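import Pool.Agent.P.MP_d0f69c_mp.XS.Ref4
import Pool.Agent.P.MP_d0f69c_mp.XS.RefK

/-!
Reference block: the self-consistent correction of the kernel.
-/

set_option autoImplicit false

open Finset Real

namespace Pool.Agent.P.MP_d0f69c_mp.XS.Rf

variable {d M : ℕ} [NeZero M] {B : Finset (Tor d M)} {θ b γ ε κ ω L η η' K t : ℝ}
  {Z a : (Tor d M → ℂ) → Tor d M → ℂ} {g g' ζ ζ' : Tor d M → ℂ} {c : ℂ}

/-- the perturbation of the symbol -/
noncomputable def ze (Z : (Tor d M → ℂ) → Tor d M → ℂ) (g : Tor d M → ℂ) (c : ℂ) (q : Tor d M) : ℂ :=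
  c + (ft (Z g) q - Z g 0)

theorem ift_sub (F G x) : ift (d := d) (M := M) F x - ift G x = ift (fun q => F q - G q) x := by
  simp [ift, sub_mul, sum_sub_distrib, sub_div]

theorem norm_sub_star (w : ℂ) : ‖w - star w‖ = 2 * |w.im| := by
  rw [Complex.star_def, Complex.sub_conj]
  simp

omit [NeZero M] in
theorem Cls.star (h : Cls B γ g) : Cls B γ (star g) :=
  ⟨fun x hx => by simp [h.supp x hx], fun x => by simpa using h.le x,
    h.oct.map₂ h.oct fun u _ => Star.star u⟩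

omit [NeZero M] in
theorem Cls.zero (B : Finset (Tor d M)) (h : 0 ≤ γ) : Cls B γ 0 :=
  ⟨fun _ _ => rfl, fun _ => by simpa, fun _ _ => rfl, fun _ _ => rfl⟩

theorem e_mul_le (u v : ZMod M) :
    ‖ZMod.stdAddChar (u * v) - 1‖ ≤ v.valMinAbs.natAbs * ‖ZMod.stdAddChar u - 1‖ := by
  have k := norm_pow_sub v.valMinAbs.natAbs (norm_e u)
  rw [← AddChar.map_nsmul_eq_pow, nsmul_eq_mul, ZMod.natCast_natAbs_valMinAbs] at k
  split_ifs at k
  · rwa [mul_comm u]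
  · have := norm_e_neg (v * u) 1
    rw [Complex.ofReal_one] at this
    rwa [neg_mul, this, mul_comm v] at k

theorem StatH.mom (h : StatH B b γ ε κ ω L Z a) (hL : 0 ≤ L) (hg : Cls B γ g) :
    ∑ x, ‖Z g x‖ * nm x ≤ ω :=
  (sum_le_sum fun x _ => mul_le_mul_of_nonneg_left (le_mul_of_one_le_right (Nat.cast_nonneg _)
    (one_le_exp (by positivity))) (norm_nonneg _)).trans (h.l1 g hg)

theorem StatH.off (h : StatH B b γ ε κ ω L Z a) (hL : 0 ≤ L) (hg : Cls B γ g) (q : Tor d M) :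
    ‖ft (Z g) q - Z g 0‖ ≤ ω := by
  rw [ft, ← add_sum_erase _ _ (mem_univ 0), neg_zero, ch_zero, mul_one, add_sub_cancel_left]
  refine (norm_sum_le _ _).trans (le_trans ((sum_le_sum fun x hx => ?_).trans
    (sum_le_univ_sum_of_nonneg fun x => by positivity)) (h.mom hL hg))
  rw [norm_mul, norm_ch]
  exact mul_le_mul_of_nonneg_left (by
    exact_mod_cast Nat.pos_of_ne_zero (mt tn_eq_zero (ne_of_mem_erase hx))) (norm_nonneg _)

theorem StatH.lip (h : StatH B b γ ε κ ω L Z a) (hL : 0 ≤ L) (hg : Cls B γ g) (q : Tor d M)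
    (j : Fin d) (u : ZMod M) :
    ‖ze Z g c (q + Pi.single j u) - ze Z g c q‖ ≤ ω * ‖ZMod.stdAddChar u - 1‖ := by
  rw [ze, ze, add_sub_add_left_eq_sub, sub_sub_sub_cancel_right, ft, ft, ← sum_sub_distrib]
  refine (norm_sum_le _ _).trans (le_trans (le_of_le_of_eq (sum_le_sum fun x _ => ?_)
    (sum_mul _ _ _).symm) (mul_le_mul_of_nonneg_right (h.mom hL hg) (norm_nonneg _)))
  rw [ch_add', ← mul_sub, ← mul_sub_one, norm_mul, norm_mul, norm_ch, one_mul, mul_assoc, ch_comm,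
    ch_single, mul_comm _ u]
  refine mul_le_mul_of_nonneg_left ((e_mul_le _ _).trans
    (mul_le_mul_of_nonneg_right ?_ (norm_nonneg _))) (norm_nonneg _)
  rw [Pi.neg_apply, ZMod.natAbs_valMinAbs_neg]
  exact_mod_cast le_tn x j

omit [NeZero M] in
theorem two_im (ht : ∀ x, |(g x).im| ≤ t) (x : Tor d M) : ‖g x - star g x‖ ≤ 2 * t := by
  rw [Pi.star_apply, norm_sub_star]
  linarith [ht x]

theorem StatH.im_Z (h : StatH B b γ ε κ ω L Z a) (hg : Cls B γ g) (ht : ∀ x, |(g x).im| ≤ t)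
    (q : Tor d M) : |(ft (Z g) q - Z g 0).im| ≤ κ * t := by
  have := h.dZ g _ _ hg hg.star (two_im ht) q
  rw [h.cZ g hg, (h.oZ g hg).ft_star, Pi.star_apply, ← star_sub, norm_sub_star] at this
  linarith

theorem StatH.im_a (h : StatH B b γ ε κ ω L Z a) (hg : Cls B γ g) (ht : ∀ x, |(g x).im| ≤ t)
    (x : Tor d M) : |(g x - a g x).im| ≤ ε * t := by
  have := h.da g _ _ hg hg.star (two_im ht) x
  rw [h.ca g hg, Pi.star_apply, Pi.star_apply, ← star_sub, norm_sub_star] at this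
  linarith

theorem StatH.im_0 (h : StatH B b γ ε κ ω L Z a) (hg : Cls B γ g) (ht : ∀ x, |(g x).im| ≤ t) :
    |(g 0 + Z g 0).im| ≤ ε * t := by
  have := h.d0 g _ _ hg hg.star (two_im ht)
  rw [h.cZ g hg, Pi.star_apply, Pi.star_apply, ← star_add, norm_sub_star] at this
  linarith

theorem StatH.oct_ze (h : StatH B b γ ε κ ω L Z a) (hg : Cls B γ g) : Oct (ze Z g c) :=
  (h.oZ g hg).ft.map₂ (h.oZ g hg).ft fun u _ => c + (u - Z g 0)

theorem Oct.Gs (h : Oct ζ) : Oct (Gs b ζ) := by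
  have := oct_R1.map₂ h fun u v => (b - u + v)⁻¹
  simp only [← Complex.ofReal_sub] at this
  exact this

theorem diffG (h : SyH η ω ζ) (hn : NumH d M θ b η K) (h' : SyH η' ω ζ') (hn' : NumH d M θ b η' K)
    (ht : ∀ q, ‖ζ q - ζ' q‖ ≤ t) (x : Tor d M) :
    ‖ift (Gs b ζ) x - ift (Gs b ζ') x‖ ≤ 1000 * K * t := by
  have t0 : 0 ≤ t := (norm_nonneg _).trans (ht 0)
  rw [ift_sub]
  refine (norm_ift_le _ _).trans ((av_mono (g := fun q => t / 2 * ‖Gs b ζ q‖ ^ 2 +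
    t / 2 * ‖Gs b ζ' q‖ ^ 2) fun q => ?_).trans ?_)
  · rw [inv_sub_inv' (h.ne q) (h'.ne q), norm_mul, norm_mul, Yw, Yw, add_sub_add_left_eq_sub,
      norm_sub_rev, mul_right_comm]
    refine (mul_le_mul_of_nonneg_left (ht q) (by positivity)).trans ?_
    unfold Gs Yw
    nlinarith [mul_nonneg t0 (sq_nonneg (‖((b - Rw (fun _ => 1) q : ℝ) + ζ q)⁻¹‖ -
      ‖((b - Rw (fun _ => 1) q : ℝ) + ζ' q)⁻¹‖))]
  · rw [av_add, av_mul, av_mul]
    nlinarith [h.sq_av1 hn, h'.sq_av1 hn']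

theorem im_Gs (q : Tor d M) : (Gs b ζ q).im = ‖Gs b ζ q‖ ^ 2 * -(ζ q).im := by
  rw [Complex.inv_im, Yw_im, norm_inv, inv_pow, Complex.sq_norm]
  ring

theorem im_G0 : (ift (Gs b ζ) 0).im = av fun q => ‖Gs b ζ q‖ ^ 2 * -(ζ q).im := by
  simp only [← im_Gs, ift, ch_zero, mul_one, av, ← Complex.im_sum, Fintype.card_fun, ZMod.card,
    Fintype.card_fin]
  exact_mod_cast Complex.div_ofReal_im _ ((M : ℝ) ^ d)

theorem im_G (h : SyH η ω ζ) (ho : Oct ζ) (x : Tor d M) :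
    |(ift (Gs b ζ) x).im| ≤ (ift (Gs b ζ) 0).im := by
  have k := norm_ift_le (fun q => Gs b ζ q - star (Gs b ζ) q) x
  rw [← ift_sub, ho.Gs.ift_star, norm_sub_star] at k
  simp only [Pi.star_apply, norm_sub_star, av_mul] at k
  rw [im_G0]
  refine (le_of_mul_le_mul_left k two_pos).trans (av_mono fun q => ?_)
  rw [im_Gs, abs_of_nonneg (mul_nonneg (sq_nonneg _) (by linarith [h.im q, h.η0]))]

theorem StatH.ident (h : StatH B b γ ε κ ω L Z a) (hg : Cls B γ g) (q : Tor d M)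
    (n : Yw b (fun _ => 1) (ze Z g c) q ≠ 0) : Gs b (ze Z g c) q - ft (a g) q =
      Gs b (ze Z g c) q * (1 - ft (a g) q * ft (Z g) q) *
        (s2 b q - Xs b q * ft g q - (c - Z g 0) * (As b q + ft g q)) := by
  have e1 := h.id g hg q
  have e2 : (Xs b q : ℂ) * As b q = 1 - s2 b q := by exact_mod_cast Xs_As b q
  have e3 : Gs b (ze Z g c) q * (Xs b q + (c + (ft (Z g) q - Z g 0))) = 1 := inv_mul_cancel₀ n
  linear_combination ft (a g) q * e3 - (Gs b (ze Z g c) q * (1 - ft (a g) q * ft (Z g) q)) * e2 -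
    (Gs b (ze Z g c) q * (Xs b q + (c - Z g 0))) * e1

theorem StatH.S_le (h : StatH B b γ ε κ ω L Z a) (hL : 0 ≤ L) (hg : Cls B γ g) (h1 : ε + ω ≤ 1)
    (q : Tor d M) : ‖1 - ft (a g) q * ft (Z g) q‖ ≤ 2 := by
  have a1 := norm_le_insert' (ft (Z g) q) (Z g 0)
  refine (norm_sub_le _ _).trans ?_
  rw [norm_one, norm_mul]
  nlinarith [h.asup g hg q, h.off hL hg q, h.Z0 g hg, norm_nonneg (ft (Z g) q)]

/-- the numbers of the fixed point argument -/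
structure FpN (d M : ℕ) [NeZero M] (θ b γ ε κ ω L : ℝ) : Prop where
  M3 : 3 ≤ M
  hd : 1000 ≤ d
  θ0 : 0 < θ
  θ1 : θ ≤ 1 / 10 ^ 4
  b1 : 19 / 10 * θ * d ≤ b
  b2 : b ≤ d
  win : Nt d M θ b ≤ θ * d * pr fun q : Tor d M => b + 1 ≤ R1 q
  lo : exp (-(3 / 2 * θ ^ 2 * d)) ≤ Nt d M θ b / (40 * d)
  up : 10 ^ 4 * Nt d M θ b ≤ 1 / 100
  big : 10 ^ 4 * (40 * d) * d ^ 2 ≤ exp (θ ^ 2 * d / 5)
  mesh : d * tau M ≤ (Nt d M θ b / (40 * d)) ^ 3 / 100
  γ0 : 800 * d * Nt d M θ b ≤ γ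
  ε0 : 0 ≤ ε
  ε1 : ε ≤ 1 / 100
  κ0 : 0 ≤ κ
  κ1 : 10 ^ 6 * d * κ ≤ 1
  ω1 : ω ≤ 1 / 100
  L0 : 0 ≤ L

theorem FpN.num (n : FpN d M θ b γ ε κ ω L) (h : Nt d M θ b / (40 * d) ≤ η) :
    NumH d M θ b η (40 * d) := by
  have d0 : (1000 : ℝ) ≤ d := by exact_mod_cast n.hd
  exact ⟨by linarith [n.hd], n.θ0, n.θ1, n.b1, n.b2, n.lo.trans h, by linarith, n.big,
    (div_le_iff₀' (by linarith)).1 h⟩

theorem FpN.sy (n : FpN d M θ b γ ε κ ω L) (h : StatH B b γ ε κ ω L Z a) (hg : Cls B γ g)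
    (ht : ∀ x, |(g x).im| ≤ 9000 * Nt d M θ b) (h1 : Nt d M θ b / (40 * d) ≤ η) (h2 : η ≤ 1)
    (c1 : ‖c‖ ≤ 1 / 2) (c2 : c.im = -η) :
    SyH η ω (ze Z g c) ∧ ∀ q, -2 * η ≤ (ze Z g c q).im := by
  have d0 : (1000 : ℝ) ≤ d := by exact_mod_cast n.hd
  have N0 := Nt_pos (d := d) (M := M) θ b
  have k : ∀ q, |(ft (Z g) q - Z g 0).im| ≤ η / 2 := fun q => (h.im_Z hg ht q).trans (by
    rw [div_le_iff₀ (by linarith)] at h1
    nlinarith [mul_le_mul_of_nonneg_left h1 n.κ0, n.κ1, n.κ0,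
      mul_le_mul_of_nonneg_left n.κ1 (show 0 ≤ η by nlinarith)])
  have η0 : 0 < η := lt_of_lt_of_le (by positivity) h1
  refine ⟨⟨n.M3, by linarith [n.hd], η0, h2, n.ω1, n.mesh.trans (by gcongr), fun q => ?_,
    fun q => (norm_add_le _ _).trans (by linarith [h.off n.L0 hg q, n.ω1]), h.lip n.L0 hg⟩,
    fun q => ?_⟩ <;> rw [ze, Complex.add_im, c2] <;> linarith [abs_le.1 (k q)]

theorem FpN.start (n : FpN d M θ b γ ε κ ω L) (h : StatH B b γ ε κ ω L Z a) (hg : Cls B γ 0)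
    (s : SyH η ω (ze Z 0 c)) (h1 : Nt d M θ b / (40 * d) ≤ η) (h2 : η ≤ 10 ^ 4 * Nt d M θ b)
    (hc : ‖c - Z 0 0‖ ≤ η) (x : Tor d M) : ‖ift (Gs b (ze Z 0 c)) x - a 0 x‖ ≤ γ / 2 := by
  have d0 : (1000 : ℝ) ≤ d := by exact_mod_cast n.hd
  have hn := n.num h1
  have hb : |b| ≤ 2 * d := by rw [abs_of_pos (by linarith [hn.b4])]; linarith [n.b2]
  rw [← ift_ft (a 0) x, ift_sub]
  refine (norm_ift_le _ _).trans ((av_mono (g := fun q => 2 * (s2 b q * ‖Gs b (ze Z 0 c) q‖) +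
    η * ‖Gs b (ze Z 0 c) q‖) fun q => ?_).trans ?_)
  · have e : ft (0 : Tor d M → ℂ) q = 0 := by simp [ft]
    rw [h.ident hg q (s.ne q), e, mul_zero, sub_zero, add_zero, norm_mul, norm_mul, mul_assoc]
    have a1 := norm_sub_le (s2 b q : ℂ) ((c - Z 0 0) * As b q)
    rw [norm_mul, Complex.norm_real, Complex.norm_real, Real.norm_of_nonneg
      (s2_le (by linarith [n.hd]) hb n.θ0.le (by linarith [n.θ1]) q).1] at a1
    have a2 := mul_le_mul hc (As_le hb q) (abs_nonneg _) s.η0.le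
    have a3 := mul_le_mul (h.S_le n.L0 hg (by linarith [n.ε1, n.ω1]) q)
      (a1.trans (add_le_add le_rfl a2)) (norm_nonneg _) zero_le_two
    nlinarith [mul_le_mul_of_nonneg_left a3 (norm_nonneg (Gs b (ze Z 0 c) q)),
      mul_nonneg s.η0.le (norm_nonneg (Gs b (ze Z 0 c) q))]
  · rw [av_add, av_mul, av_mul]
    have a1 := (s.abs_av hn (by simp) (s.sq_av1 hn)).trans
      (div_le_one_of_le₀ (by linarith [hn.b4]) (by linarith [hn.b4]))
    nlinarith [s.gam hn, n.γ0, mul_le_mul_of_nonneg_left a1 s.η0.le, Nt_pos (d := d) (M := M) θ b]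

end Pool.Agent.P.MP_d0f69c_mp.XS.Rf
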