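import Pool.Agent.P.MP_d0f69c_mp.XS.Ref5

/-!
Reference block: existence of the self-consistent correction.
-/

set_option autoImplicit false

open Finset Real

namespace Pool.Agent.P.MP_d0f69c_mp.XS.Rf

variable {d M : ℕ} [NeZero M] {B : Finset (Tor d M)} {θ b γ ε κ ω L : ℝ}
  {Z a : (Tor d M → ℂ) → Tor d M → ℂ}

/-- the result -/
structure Fix (B : Finset (Tor d M)) (θ b γ ε κ η : ℝ) (Z a : (Tor d M → ℂ) → Tor d M → ℂ)
    (g : Tor d M → ℂ) : Prop where
  η0 : Nt d M θ b / (40 * d) ≤ η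
  η1 : η ≤ 10 ^ 4 * Nt d M θ b
  cls : Cls B γ g
  Zi : (Z g 0).im = -η
  zero : ∀ x ∈ B, ift (Gs b (ze Z g (Z 0 0 - η * Complex.I))) x = a g x
  sup : ∀ x, ‖ift (Gs b (ze Z g (Z 0 0 - η * Complex.I))) x - a g x‖ ≤ 2 * γ
  gi : ∀ x, |(g x).im| ≤ 3 * η
  ai : |(a g 0).im - η| ≤ 6 * ε * η
  F : |av (fun q => ‖Gs b (ze Z g (Z 0 0 - η * Complex.I)) q‖ ^ 2) - 1| ≤ 7 * ε + 7 * κ
  gi2 : ∀ x, |(g x).im| ≤ 21 / 10 * η

theorem FpN.fix (n : FpN d M θ b γ ε κ ω L) (h : StatH B b γ ε κ ω L Z a) :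
    ∃ η g, Fix B θ b γ ε κ η Z a g := by
  classical
  set N := Nt d M θ b with hN
  have d0 : (1000 : ℝ) ≤ d := by exact_mod_cast n.hd
  have N0 : 0 < N := Nt_pos θ b
  have γ0 : 0 ≤ γ := le_trans (by positivity) n.γ0
  have ε0 := n.ε0
  have ε1 := n.ε1
  have z := Cls.zero B γ0
  have zr : (Z 0 0).im = 0 := by
    have := congrFun (h.cZ 0 z) 0
    rw [star_zero] at this
    exact Complex.conj_eq_iff_im.1 this.symm
  let s : Set (Tor d M → ℂ) := {g | Cls B γ g ∧ ∀ x, |(g x).im| ≤ 9000 * N}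
  have z' : 0 ∈ s := ⟨z, fun _ => by simp [N0.le]⟩
  let G : ℝ → (Tor d M → ℂ) → Tor d M → ℂ := fun η g => ift (Gs b (ze Z g (Z 0 0 - η * Complex.I)))
  let Φ : ℝ → (Tor d M → ℂ) → Tor d M → ℂ := fun η g x =>
    (if x ∈ B then 1 else 0) * (G η g x + (g x - a g x))
  have sy : ∀ η ∈ Set.Icc (N / (40 * d)) (10 ^ 4 * N), ∀ g ∈ s, _ := fun η hη g hg =>
    n.sy (c := Z 0 0 - η * Complex.I) h hg.1 hg.2 hη.1 (by linarith [hη.2, n.up])
      ((norm_sub_le _ _).trans (by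
        rw [norm_mul, Complex.norm_I, Complex.norm_real,
          Real.norm_of_nonneg (le_trans (by positivity) hη.1)]
        linarith [h.Z0 0 z, hη.2, n.up])) (by simp [zr])
  have ind : ∀ (x : Tor d M) (w : ℂ), ‖(if x ∈ B then 1 else 0) * w‖ ≤ ‖w‖ := fun x w => by
    split_ifs <;> simp
  have ct : ∀ η ∈ Set.Icc (N / (40 * d)) (10 ^ 4 * N), ∀ g ∈ s, ∀ g' ∈ s, ∀ t,
      (∀ x, ‖g x - g' x‖ ≤ t) → ∀ x,
      ‖G η g x + (g x - a g x) - (G η g' x + (g' x - a g' x))‖ ≤ 1 / 2 * t :=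
    fun η hη g hg g' hg' t ht x => by
      have t0 : 0 ≤ t := (norm_nonneg _).trans (ht 0)
      have a1 := diffG (sy η hη g hg).1 (n.num hη.1) (sy η hη g' hg').1 (n.num hη.1) (t := κ * t)
        (fun q => by rw [ze, ze, add_sub_add_left_eq_sub]; exact h.dZ g g' t hg.1 hg'.1 ht q) x
      rw [add_sub_add_comm]
      refine (norm_add_le _ _).trans ((add_le_add a1 (h.da g g' t hg.1 hg'.1 ht x)).trans ?_)
      nlinarith [mul_le_mul_of_nonneg_right n.κ1 t0]
  have bd : ∀ η ∈ Set.Icc (N / (40 * d)) (10 ^ 4 * N), ∀ g ∈ s, ∀ x,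
      ‖G η g x + (g x - a g x)‖ ≤ γ := fun η hη g hg x => by
    have a1 := ct η hη g hg 0 z' γ (by simpa using hg.1.le) x
    have a2 := n.start h z (sy η hη 0 z').1 hη.1 hη.2 (by
      simp [abs_of_nonneg (sy η hη 0 z').1.η0.le]) x
    rw [Pi.zero_apply, zero_sub, ← sub_eq_add_neg (G η 0 x)] at a1
    exact (norm_le_insert' _ _).trans (by linarith)
  have key : ∀ η ∈ Set.Icc (N / (40 * d)) (10 ^ 4 * N), ∀ g ∈ s, Φ η g = g →
      (∀ x ∈ B, G η g x = a g x) ∧ (∀ x, |(g x).im| ≤ 2 * (G η g 0).im) ∧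
        |(G η g 0).im + (Z g 0).im| ≤ 4 * ε * (G η g 0).im := fun η hη g hg e => by
    have a1 : ∀ x ∈ B, G η g x = a g x := fun x hx => by
      have := congrFun e x
      simp only [Φ, if_pos hx] at this
      linear_combination this
    obtain ⟨y, -, hy⟩ := exists_max_image univ (fun x => |(g x).im|) univ_nonempty
    have a2 := im_G (b := b) (sy η hη g hg).1 (h.oct_ze hg.1) y
    have a3 : |(g y).im| ≤ 2 * (G η g 0).im := by
      by_cases c : y ∈ B
      · have a4 := h.im_a hg.1 (fun x => hy x (mem_univ x)) y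
        rw [← a1 y c, Complex.sub_im] at a4
        nlinarith [abs_sub_abs_le_abs_sub (g y).im (G η g y).im, abs_nonneg (g y).im]
      · rw [hg.1.supp y c]
        simpa using (abs_nonneg _).trans a2
    have a4 : ∀ x, |(g x).im| ≤ 2 * (G η g 0).im := fun x => (hy x (mem_univ x)).trans a3
    have a5 := abs_le.1 (h.im_a hg.1 a4 0)
    have a6 := abs_le.1 (h.im_0 hg.1 a4)
    rw [← a1 0 h.zB, Complex.sub_im] at a5
    rw [Complex.add_im] at a6
    exact ⟨a1, a4, abs_le.2 ⟨by linarith, by linarith⟩⟩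
  refine (fix_par (s := s) (x0 := 0) (Φ := Φ) (f := fun g => -(Z g 0).im)
    (u := N / (40 * d)) (v := 10 ^ 4 * N) (C := 1000 * (40 * d)) ?_ z'
    ((div_le_self N0.le (by linarith)).trans (by linarith)) (fun η hη g hg => ⟨⟨fun x hx => ?_,
      fun x => (ind _ _).trans (bd η hη g hg x), h.oB.map₂ ((h.oct_ze hg.1).Gs.ift.map₂
        (hg.1.oct.map₂ (h.oa g hg.1) (· - ·)) (· + ·)) (· * ·)⟩, fun x => ?_⟩)
    (fun η hη g hg g' hg' => (dist_pi_le_iff (by positivity)).2 fun x => ?_)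
    (fun η hη η' hη' g hg => (dist_pi_le_iff (by positivity)).2 fun x => ?_)
    (fun g hg g' hg' => ?_) (fun g hg e => ?_) fun g hg e => ?_).elim
    fun η ⟨hη, g, hg, e1, e2⟩ => ?_
  rotate_right
  · obtain ⟨a1, a2, a3⟩ := key η hη g hg e1
    have η0 := (sy η hη g hg).1.η0
    have e3 : (Z g 0).im = -η := by linarith
    rw [e3, abs_le] at a3
    have a4 : (G η g 0).im ≤ 3 / 2 * η := by nlinarith
    have a5 : ∀ x, |(g x).im| ≤ 3 * η := fun x => by linarith [a2 x]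
    have a6 : |(G η g 0).im - η| ≤ 6 * ε * η := abs_le.2 ⟨by nlinarith, by nlinarith⟩
    refine ⟨η, g, hη.1, hη.2, hg.1, e3, a1, fun x => ?_, a5, a1 0 h.zB ▸ a6, ?_,
      fun x => by nlinarith [a2 x]⟩
    · rw [show ift _ x - a g x = G η g x + (g x - a g x) - g x by simp only [G]; ring]
      exact (norm_sub_le _ _).trans (by linarith [bd η hη g hg x, hg.1.le x])
    · set F := av fun q => ‖Gs b (ze Z g (Z 0 0 - η * Complex.I)) q‖ ^ 2 with hF
      have k : ∀ q, |(ze Z g (Z 0 0 - η * Complex.I) q).im + η| ≤ κ * (3 * η) := fun q => by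
        simpa [ze, zr] using h.im_Z hg.1 a5 q
      have k1 : (η - κ * (3 * η)) * F ≤ (G η g 0).im := by
        rw [im_G0, ← av_mul]
        exact av_mono fun q => by
          nlinarith [abs_le.1 (k q), sq_nonneg ‖Gs b (ze Z g (Z 0 0 - η * Complex.I)) q‖]
      have k2 : (G η g 0).im ≤ (η + κ * (3 * η)) * F := by
        rw [im_G0, ← av_mul]
        exact av_mono fun q => by
          nlinarith [abs_le.1 (k q), sq_nonneg ‖Gs b (ze Z g (Z 0 0 - η * Complex.I)) q‖]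
      have κ2 : κ ≤ 1 / 1000 := by nlinarith [n.κ1, n.κ0]
      have κ0 := n.κ0
      rw [abs_le] at a6
      have k3 : (1 - 3 * κ) * F ≤ 1 + 6 * ε := le_of_mul_le_mul_left (by linarith) η0
      have k4 : 1 - 6 * ε ≤ (1 + 3 * κ) * F := le_of_mul_le_mul_left (by linarith) η0
      have k5 : F ≤ 2 := by nlinarith
      rw [abs_le]
      constructor <;> nlinarith
  · have e : s = (⋂ x ∉ B, {g | g x = 0}) ∩ (⋂ x, {g | ‖g x‖ ≤ γ}) ∩
        (⋂ σ : Equiv.Perm (Fin d), ⋂ q, {g | g (fun i => q (σ i)) = g q}) ∩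
        (⋂ j, ⋂ q, {g | g (Function.update q j (-q j)) = g q}) ∩
        ⋂ x, {g | |(g x).im| ≤ 9000 * N} := by
      ext g
      simp only [s, Set.mem_ofPred_eq, Set.mem_inter_iff, Set.mem_iInter]
      exact ⟨fun k => ⟨⟨⟨⟨k.1.1, k.1.2⟩, k.1.3.1⟩, k.1.3.2⟩, k.2⟩,
        fun k => ⟨⟨k.1.1.1.1, k.1.1.1.2, k.1.1.2, k.1.2⟩, k.2⟩⟩
    rw [e]
    exact ((((isClosed_iInter fun x => isClosed_iInter fun _ => isClosed_eq (by fun_prop)
      (by fun_prop)).inter (isClosed_iInter fun x => isClosed_le (by fun_prop) (by fun_prop))).inter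
      (isClosed_iInter fun σ => isClosed_iInter fun q => isClosed_eq (by fun_prop) (by fun_prop))).inter
      (isClosed_iInter fun j => isClosed_iInter fun q => isClosed_eq (by fun_prop) (by fun_prop))).inter
      (isClosed_iInter fun x => isClosed_le (by fun_prop) (by fun_prop))
  · simp only [Φ, if_neg hx, zero_mul]
  · obtain ⟨s1, s2⟩ := sy η hη g hg
    have a1 := im_G (b := b) s1 (h.oct_ze hg.1) x
    have a2 := s1.sq_up (n.num hη.1)
    have a3 : (G η g 0).im ≤ 2 * η * av fun q => ‖Gs b (ze Z g (Z 0 0 - η * Complex.I)) q‖ ^ 2 := by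
      rw [im_G0, ← av_mul]
      exact av_mono fun q => by
        nlinarith [s2 q, sq_nonneg ‖Gs b (ze Z g (Z 0 0 - η * Complex.I)) q‖]
    have a4 := mul_le_mul_of_nonneg_left a2 s1.η0.le
    rw [mul_add, mul_div_cancel₀ _ s1.η0.ne'] at a4
    have a5 := h.im_a hg.1 hg.2 x
    simp only [Φ]
    split_ifs
    · rw [one_mul, Complex.add_im]
      refine (abs_add_le _ _).trans ?_
      nlinarith [hη.2]
    · simp [N0.le]
  · rw [dist_eq_norm, ← mul_sub]
    exact (ind _ _).trans (ct η hη g hg g' hg' _ (fun x => dist_eq_norm (g x) (g' x) ▸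
      dist_le_pi_dist g g' x) x)
  · rw [dist_eq_norm, ← mul_sub, add_sub_add_right_eq_sub]
    refine (ind _ _).trans (diffG (sy η hη g hg).1 (n.num hη.1) (sy η' hη' g hg).1 (n.num hη'.1)
      (fun q => le_of_eq ?_) x)
    rw [ze, ze, add_sub_add_right_eq_sub, sub_sub_sub_cancel_left, ← sub_mul, norm_mul,
      Complex.norm_I, mul_one, ← Complex.ofReal_sub, Complex.norm_real, Real.norm_eq_abs, abs_sub_comm]
  · have a0 : ∀ x, ‖g x - g' x‖ ≤ dist g g' := fun x => dist_eq_norm (g x) (g' x) ▸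
      dist_le_pi_dist g g' x
    have a1 := h.d0 g g' _ hg.1 hg'.1 a0
    rw [add_sub_add_comm] at a1
    rw [neg_sub_neg, abs_sub_comm, ← Complex.sub_im]
    refine (Complex.abs_im_le_norm _).trans ((norm_le_add_norm_add' (g 0 - g' 0) _).trans ?_)
    nlinarith [a0 0, dist_nonneg (x := g) (y := g')]
  · have hη := Set.left_mem_Icc.2 ((div_le_self N0.le (show 1 ≤ 40 * (d : ℝ) by linarith)).trans
      (show N ≤ 10 ^ 4 * N by linarith))
    obtain ⟨s1, s2⟩ := sy _ hη g hg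
    have a1 := abs_le.1 (key _ hη g hg e).2.2
    have a2 := s1.low (b := b) s2 (by linarith [(n.num hη.1).b4])
    have a3 : N / (40 * d) / 2 * av (fun q => ‖Gs b (ze Z g (Z 0 0 - (N / (40 * d) : ℝ) *
        Complex.I)) q‖ ^ 2) ≤ (G (N / (40 * d)) g 0).im := by
      rw [im_G0, ← av_mul]
      exact av_mono fun q => by
        rw [mul_comm]
        exact mul_le_mul_of_nonneg_left (by linarith [s1.im q]) (sq_nonneg _)
    have a4 : 3 ≤ b * pr (fun q : Tor d M => b + 1 ≤ R1 q) / (24 * d * (N / (40 * d))) := by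
      rw [show 24 * d * (N / (40 * d)) = 3 / 5 * N by field_simp; norm_num, le_div_iff₀ (by positivity)]
      nlinarith [n.win, mul_le_mul_of_nonneg_right n.b1 (pr_nonneg fun q : Tor d M => b + 1 ≤ R1 q)]
    have a5 : 1 / (12 * (d : ℝ)) ≤ 1 / 10 := one_div_le_one_div_of_le (by norm_num) (by linarith)
    have a6 := mul_le_mul_of_nonneg_left ((sub_le_sub a4 a5).trans a2) s1.η0.le
    have a0 : 0 ≤ (G _ g 0).im := (abs_nonneg _).trans (im_G (b := b) s1 (h.oct_ze hg.1) 0)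
    linarith [s1.η0, mul_le_mul_of_nonneg_right ε1 a0]
  · have hη := Set.right_mem_Icc.2 ((div_le_self N0.le (show 1 ≤ 40 * (d : ℝ) by linarith)).trans
      (show N ≤ 10 ^ 4 * N by linarith))
    obtain ⟨s1, s2⟩ := sy _ hη g hg
    have a1 := abs_le.1 (key _ hη g hg e).2.2
    have a2 := s1.sq_up (n.num hη.1)
    rw [← hN, show 1000 * N / (10 ^ 4 * N) = 1 / 10 by field_simp; norm_num] at a2
    have a3 : (G (10 ^ 4 * N) g 0).im ≤ 2 * (10 ^ 4 * N) *
        av fun q => ‖Gs b (ze Z g (Z 0 0 - (10 ^ 4 * N : ℝ) * Complex.I)) q‖ ^ 2 := by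
      rw [im_G0, ← av_mul]
      exact av_mono fun q => by
        rw [mul_comm]
        exact mul_le_mul_of_nonneg_right (by linarith [s2 q]) (sq_nonneg _)
    have a0 : 0 ≤ (G _ g 0).im := (abs_nonneg _).trans (im_G (b := b) s1 (h.oct_ze hg.1) 0)
    have a4 := a3.trans (mul_le_mul_of_nonneg_left a2 (by positivity))
    have a5 := mul_le_mul_of_nonneg_right ε1 a0
    generalize (G (10 ^ 4 * N) g 0).im = y at *
    linarith

end Pool.Agent.P.MP_d0f69c_mp.XS.Rf
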