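import Pool.Agent.P.MP_d0f69c_mp.XS.RefSa
import Pool.Agent.P.MP_d0f69c_mp.XS.PTwo
import Pool.Agent.P.MP_d0f69c_mp.XS.PStat2

/-!
Reference block: the static estimates for the fixed point.
-/

set_option autoImplicit false

open Finset Real Matrix

namespace Pool.Agent.P.MP_d0f69c_mp.XS.Rf

open Pre

/-- the majorant against a growing weight -/
theorem wsum {ι : Type} [Fintype ι] [DecidableEq ι] {ρ : ι → ι → ℕ} {l : Lv}
    {a D D2 mu : Matrix ι ι ℝ} {A : Matrix ι ι ℂ} {Y : Finset ι} {ϖ : ι → Bool} (g : Geo ρ l a)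
    (h : Stat (fun x y => (ρ x y : ℝ) / l.L) (Kn l a) l.κ l.ν1 l.ν2 A Y ϖ D D2 mu)
    (hν : l.ν * (1 + l.L) ^ 2 ≤ l.n0) (v : ι) :
    ∑ u ∈ univ.erase v, D v u * ((1 + ρ v u) * exp (ρ v u / (4 * l.L))) ^ 2 ≤
      33000 * (1 + l.ks) ^ 2 * l.n0 := by
  have L0 : (0 : ℝ) < l.L := g.ok.La0.trans_le g.ok.LaL
  have n0 : 0 ≤ l.n0 := by linarith [g.ok.ν1, g.ν0]
  have k1 : (1 : ℝ) ≤ (1 + l.ks) ^ 2 := one_le_pow₀ (le_add_of_nonneg_right (Nat.cast_nonneg _))
  have a1 := mul_le_mul_of_nonneg_left (h.tot.row v) (sq_nonneg (1 + (l.ks : ℝ)))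
  have a2 := mul_le_mul_of_nonneg_left (h.far.row v) (sq_nonneg (4 * (1 + (l.L : ℝ))))
  rw [mul_sum] at a1 a2
  refine le_trans ((sum_le_sum fun u hu => ?_).trans (sum_le_univ_sum_of_nonneg fun u => add_nonneg
    (mul_nonneg (sq_nonneg _) (mul_nonneg (h.D0 v u) (exp_pos _).le))
    (mul_nonneg (sq_nonneg _) (mul_nonneg (h.far.nn v u) (exp_pos _).le))))
    (sum_add_distrib.trans_le ((add_le_add a1 a2).trans ?_))
  · have p0 : (0 : ℝ) ≤ ρ v u := Nat.cast_nonneg _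
    have x0 : 0 ≤ (ρ v u : ℝ) / (2 * l.L) := by positivity
    have e1 : exp (ρ v u / (4 * l.L)) ^ 2 = exp (ρ v u / (2 * l.L)) := by
      rw [← exp_nat_mul]; congr 1; push_cast; field_simp; ring
    have e2 : exp ((ρ v u : ℝ) / l.L) = exp (ρ v u / (2 * l.L)) * exp (ρ v u / (2 * l.L)) := by
      rw [← exp_add]; congr 1; field_simp; norm_num
    have b1 := one_le_exp x0
    have b2 := h.D0 v u
    have b3 := h.far.nn v u
    rw [mul_pow, e1, e2]
    by_cases c : ρ v u ≤ l.ks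
    · refine le_add_of_le_of_nonneg ?_ (by positivity)
      have : (ρ v u : ℝ) ≤ l.ks := by exact_mod_cast c
      rw [mul_left_comm]
      gcongr
      exact le_mul_of_one_le_right (exp_pos _).le b1
    · refine le_add_of_nonneg_of_le (by positivity) ?_
      have b4 := h.near v u (ne_of_mem_erase hu)
      rw [show Kn l a v u = 0 from by_contra fun e => c ((t_kn _ ρ l a g).2.2.2.1 v u e), mul_zero,
        zero_add] at b4
      have b5 := mul_le_mul_of_nonneg_left (pow_div_factorial_le_exp _ x0 2) (sq_nonneg (l.L : ℝ))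
      rw [show (l.L : ℝ) ^ 2 * ((ρ v u / (2 * l.L)) ^ 2 / ((2 : ℕ).factorial : ℕ)) =
        (ρ v u : ℝ) ^ 2 / 8 by simp only [Nat.factorial]; push_cast; field_simp; norm_num] at b5
      have b6 : (1 + (ρ v u : ℝ)) ^ 2 ≤ (4 * (1 + l.L)) ^ 2 * exp (ρ v u / (2 * l.L)) := by
        nlinarith [sq_nonneg (1 - (ρ v u : ℝ)), mul_nonneg L0.le (exp_pos (ρ v u / (2 * l.L))).le]
      rw [mul_left_comm _ (D2 v u), ← mul_assoc ((4 * _) ^ 2)]
      gcongr
  · rw [Lv.ν1, Lv.ν2]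
    nlinarith [mul_le_mul_of_nonneg_right k1 n0]

variable {d M : ℕ} [NeZero M] {B : Finset (Tor d M)} {b γ t : ℝ} {g g' : Tor d M → ℂ}

theorem Ac_sub (b : ℝ) (g g' : Tor d M → ℂ) : Ac b g = Ac b g' + circulant (g - g') := by
  rw [Ac, Ac, ← circulant_add, add_assoc, add_sub_cancel]

theorem spa (h : Cls B γ g) (h' : Cls B γ g') (ht : ∀ x, ‖g x - g' x‖ ≤ t) :
    Spa #B t (circulant (g - g')) := by
  have s : ∀ x, (g - g') x ≠ 0 → x ∈ B := fun x e => by_contra fun c => e (by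
    rw [Pi.sub_apply, h.supp x c, h'.supp x c, sub_self])
  exact ⟨fun x y => ht _, fun x => Nat.cast_le.2 (card_le_card_of_injOn (fun y => x - y)
      (fun y hy => s _ (mem_filter.1 hy).2) fun _ _ _ _ => sub_right_injective.eq_iff.1),
    fun y => Nat.cast_le.2 (card_le_card_of_injOn (fun x => x - y)
      (fun x hx => s _ (mem_filter.1 hx).2) fun _ _ _ _ => sub_left_injective.eq_iff.1)⟩

/-- the static input of the fixed point -/
theorem statH {ρ : Tor d M → ℕ} {l l' : Lv} {a a' : Matrix (Tor d M) (Tor d M) ℝ}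
    (oB : Oct fun x => if x ∈ B then 1 else 0) (zB : 0 ∈ B) (hρ : ∀ x, nm x ≤ ρ x)
    (hK : ∀ g, Cls B γ g → Ker (fun x y => ρ (x - y)) l a (Ac b g))
    (hK' : ∀ g, Cls B γ g → Ker (fun x y => ρ (x - y)) l' a' (Ac b g))
    (h1 : 200 * #B * l'.ν ≤ 1) (h2 : 2 * #B * l'.ν ≤ l'.e ^ 2) (hν : l.ν * (1 + l.L) ^ 2 ≤ l.n0) :
    StatH B b γ (182 * (l.e + l'.e) * (1 + l.ks)) (127 * √l.n0) (560 * l.e * √l.n0 * (1 + l.ks))
      (4 * l.L) (Zk b) (ak b) := by
  have S := fun g hg => t_stat _ _ l a _ (hK g hg) univ fun _ => true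
  have I := fun g g' t (hg : Cls B γ g) (hg' : Cls B γ g') (ht : ∀ x, ‖g x - g' x‖ ≤ t) =>
    t_imb _ _ l' a' _ _ _ _ t (hK' g' hg') (hK' g hg) (spa hg hg' ht) h1
  have k0 : (0 : ℝ) ≤ l.ks := Nat.cast_nonneg _
  have z : nm (0 : Tor d M) = 0 := by simp [tn]
  have δ : ∀ g, Cls B γ g → ∀ t, 0 ≤ t → 3 * (l'.κ + √(2 * #B * l'.ν)) * t + 6 * l.e * t ≤
      182 * (l.e + l'.e) * (1 + l.ks) * t := fun g hg t t0 => by
    have e0 := (hK g hg).geo.ok.e0
    have e0' := (hK' g hg).geo.ok.e0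
    have := sqrt_le_iff.2 ⟨e0'.le, h2⟩
    rw [← add_mul, Lv.κ]
    exact mul_le_mul_of_nonneg_right (by nlinarith) t0
  have ν : ∀ g, Cls B γ g → l.ν1 ≤ l.e ∧ l.κ ^ 2 ≤ l.e / 100 := fun g hg => by
    have o := (hK g hg).geo.ok
    rw [Lv.ν1, Lv.κ]
    constructor <;> nlinarith [o.e0, o.e1, o.n1]
  have w : ∀ g, Cls B γ g → ∀ x : Tor d M, (nm x : ℝ) ≤ ρ (0 - x) := fun g hg x => by
    have := (hK g hg).geo.pm.symm 0 x
    rw [this, sub_zero]; exact_mod_cast hρ x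
  refine ⟨oB, zB, fun g hg => oct_Zk hg.oct, fun g hg => oct_ak hg.oct,
    fun g hg => Zk_star hg.oct (hK g hg).smk.kok, fun g hg => ak_star hg.oct (hK g hg).smk.kok,
    fun g hg => ?_, fun g hg => ?_, fun g g' t hg hg' ht q => ?_, fun g g' t hg hg' ht => ?_,
    fun g g' t hg hg' ht x => ?_, fun g hg => ak_id (hK g hg).smk.kok,
    fun g hg => ak_sup (hK g hg).smk, fun g hg => ?_⟩
  · obtain ⟨D, D2, mu, h⟩ := S g hg
    have e0 := (hK g hg).geo.ok.e0
    have e0' := (hK' g hg).geo.ok.e0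
    refine (h.z1 0 (mem_univ _)).trans ?_
    rw [Lv.κ]; nlinarith
  · obtain ⟨D, D2, mu, h⟩ := S g hg
    have o := (hK g hg).geo
    have e0 := o.ok.e0
    have L0 : (0 : ℝ) < l.L := o.ok.La0.trans_le o.ok.LaL
    have n0 : 0 ≤ l.n0 := by linarith [o.ok.ν1, o.ν0]
    choose c c1 c2 using fun x => Complex.exists_norm_mul_eq_self (Zk b g x)
    set ξ : Tor d M → ℂ := fun x => (nm x * exp (nm x / (4 * l.L)) : ℝ) * star (c x) with hξ
    have a1 := h.dok.z_le univ (fun _ => true) (mem_univ 0) ξ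
    have a2 : no (DH D 0) ξ ≤ 182 * (1 + l.ks) * √l.n0 := no_le (by positivity) (by
      rw [← add_sum_erase _ _ (mem_univ 0), mul_pow, sq_sqrt n0]
      refine (add_le_of_nonpos_left (by simp [hξ, z])).trans (((sum_le_sum fun u hu => ?_).trans
        (wsum o h hν 0)).trans (by nlinarith [mul_nonneg (sq_nonneg (1 + (l.ks : ℝ))) n0]))
      rw [DH, if_neg (ne_of_mem_erase hu), add_zero, hξ, norm_mul, norm_star, c1, mul_one,
        Complex.norm_real, Real.norm_of_nonneg (by positivity)]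
      have := h.D0 0 u
      have := w g hg u
      gcongr
      linarith)
    have a3 := mul_le_mul_of_nonneg_left (((h.sn 0 (mem_univ _)).le ξ).trans a2)
      (show 0 ≤ 50 / 49 * l.κ by rw [Lv.κ]; positivity)
    have e : ∑ x, ξ x * Ww (Ac b g) univ (fun _ => true) x 0 =
        (∑ h, ‖Zk b g h‖ * (nm h * exp (nm h / (4 * l.L))) : ℝ) := by
      rw [Complex.ofReal_sum]
      refine sum_congr rfl fun x _ => ?_
      have := Complex.conj_mul' (c x)
      rw [c1, Complex.ofReal_one, one_pow] at this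
      rw [hξ, ← Zk, Complex.ofReal_mul ‖_‖]
      simp only [Complex.star_def]
      linear_combination -((nm x * exp (nm x / (4 * l.L)) : ℝ) : ℂ) *
        ((starRingEnd ℂ) (c x) * c2 x - (‖Zk b g x‖ : ℂ) * this)
    rw [e, Complex.norm_real] at a1
    refine (le_abs_self _).trans (a1.trans (a3.trans ?_))
    rw [Lv.κ]
    nlinarith [show 0 ≤ l.e * √l.n0 * (1 + l.ks) by positivity]
  · obtain ⟨D, D2, mu, h⟩ := S g hg
    obtain ⟨D', D2', mu', h'⟩ := S g' hg'
    have a1 := h'.two_off h (Ac_sub b g g') (I g g' t hg hg' ht).1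
    have t0 := (norm_nonneg _).trans (ht 0)
    have a2 : √l.ν1 ≤ 127 / 4 * √l.n0 := sqrt_le_iff.2 ⟨by positivity, by
      have n0 : 0 ≤ l.n0 := by linarith [(hK g hg).geo.ok.ν1, (hK g hg).geo.ν0]
      rw [mul_pow, sq_sqrt n0, Lv.ν1]; linarith⟩
    have a3 := norm_le_of_opLe (F := ft fun x => if x = 0 then 0 else Zk b g x - Zk b g' x)
      (a1.congr fun x _ y _ => by
        rw [← circ_eq, circulant_apply, Ww_circ, Ww_circ]; simp only [sub_eq_zero]; rfl) q
    refine le_trans (le_of_eq (congrArg _ ?_)) (a3.trans (by nlinarith))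
    simp only [ft]
    rw [← add_sum_erase _ _ (mem_univ 0), ← add_sum_erase _ _ (mem_univ 0),
      ← add_sum_erase univ _ (mem_univ 0), neg_zero, ch_zero, if_pos rfl,
      sum_congr rfl (f := fun x => (if x = 0 then 0 else Zk b g x - Zk b g' x) * ch q (-x))
        fun x hx => by rw [if_neg (ne_of_mem_erase hx), sub_mul], sum_sub_distrib]
    ring
  · obtain ⟨D, D2, mu, h⟩ := S g hg
    obtain ⟨D', D2', mu', h'⟩ := S g' hg'
    have a1 := h'.two_dg h (Ac_sub b g g') (I g g' t hg hg' ht).1 (mem_univ 0)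
    have a2 := (I g g' t hg hg' ht).2 univ (fun _ => true) 0 0
    have t0 := (norm_nonneg _).trans (ht 0)
    have a3 := mul_le_mul_of_nonneg_left (add_le_add ((h.row 0).trans (ν g hg).1)
      ((h'.row 0).trans (ν g hg).1)) t0
    refine le_trans (le_of_eq (congrArg _ ?_)) ((norm_sub_le _ _).trans ((add_le_add a1 a2).trans
      (le_trans ?_ (δ g hg t t0))))
    · simp only [Matrix.sub_apply, circulant_apply, sub_self, Pi.sub_apply, Zk]; ring
    · linarith [mul_le_mul_of_nonneg_left (ν g hg).2 t0, mul_nonneg (hK g hg).geo.ok.e0.le t0]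
  · obtain ⟨D, D2, mu, h⟩ := S g hg
    obtain ⟨D', D2', mu', h'⟩ := S g' hg'
    have a1 := h'.two_al h (Ac_sub b g g') (I g g' t hg hg' ht).1 (mem_univ x) (mem_univ 0)
    have a2 := (I g g' t hg hg' ht).2 univ (fun _ => true) x 0
    have t0 := (norm_nonneg _).trans (ht 0)
    rw [← norm_neg]
    refine le_trans (le_of_eq (congrArg _ ?_)) ((norm_add_le _ _).trans ((add_le_add a1 a2).trans
      (le_trans ?_ (δ g hg t t0))))
    · simp only [Matrix.sub_apply, circulant_apply, sub_zero, Pi.sub_apply, ak]; ring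
    · linarith [mul_le_mul_of_nonneg_left (ν g hg).2 t0, mul_nonneg (hK g hg).geo.ok.e0.le t0,
        mul_le_mul_of_nonneg_left (ν g hg).1 t0]
  · obtain ⟨D, D2, mu, h⟩ := S g hg
    have o := (hK g hg).geo
    have e0 := o.ok.e0
    have e0' := (hK' g hg).geo.ok.e0
    have k1 : (1 : ℝ) ≤ (1 + l.ks) ^ 2 := one_le_pow₀ (by linarith)
    have a1 := pow_le_pow_left₀ (norm_nonneg _) (h.dok.al_dg univ (fun _ => true) 0) 2
    have a2 : ∑ x ∈ univ.erase 0, ‖ak b g x‖ ^ 2 * (1 + nm x) ^ 2 ≤ _ :=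
      (sum_le_sum fun u hu => mul_le_mul ((pow_le_pow_left₀ (norm_nonneg _) (h.al0 u 0) 2).trans
        (h.alD u (mem_univ _) 0 (mem_univ _) (ne_of_mem_erase hu))) (pow_le_pow_left₀
          (by positivity) ((add_le_add le_rfl (w g hg u)).trans (le_mul_of_one_le_right
            (by positivity) (one_le_exp (by positivity)))) 2) (sq_nonneg _) (h.D0 0 u)).trans
        (wsum o h hν 0)
    rw [← add_sum_erase _ _ (mem_univ 0), z]
    rw [Lv.κ] at a1
    have a3 := mul_le_mul_of_nonneg_left o.ok.n1 (sq_nonneg (1 + (l.ks : ℝ)))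
    have a4 := mul_le_mul_of_nonneg_left k1 (sq_nonneg l.e)
    have a5 : (182 * l.e * (1 + l.ks)) ^ 2 ≤ (182 * (l.e + l'.e) * (1 + l.ks)) ^ 2 := by
      gcongr; linarith
    simp only [ak, Nat.cast_zero] at a2 ⊢
    linarith [sq_nonneg l.e]

end Pool.Agent.P.MP_d0f69c_mp.XS.Rf
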