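import Pool.Agent.P.MP_d0f69c_mp.XS.Ref8
import Pool.Agent.P.MP_d0f69c_mp.XS.RefSc

/-!
Reference block: the tuned reference exists in high dimension.
-/

set_option autoImplicit false

open Finset Real Matrix Filter

namespace Pool.Agent.P.MP_d0f69c_mp.XS.Rf

open Pre

theorem Nt_ev (a : ℝ) (n : ℕ) : ∀ᶠ d : ℕ in atTop, ∀ (M : ℕ) [NeZero M] (b : ℝ), Win d M b →
    a * d ^ n * Nt d M th b ≤ 1 := by
  have := th0
  filter_upwards [dim_ev 0, ev_pow n a (c := 4 / 5 * th ^ 2) (by positivity)] with d h h1 M _ b w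
  refine (mul_le_mul h1 (w.up h (w.M3 h)) (Nt_pos _ _).le (exp_pos _).le).trans_eq ?_
  rw [← exp_add, add_neg_cancel, exp_zero]

theorem ker_win (k : ℕ) {j : ℕ} (hj : 1 ≤ j) : ∃ C : ℝ, 1 ≤ C ∧ ∀ᶠ d : ℕ in atTop,
    ∀ (M : ℕ) [NeZero M] (b : ℝ), Win d M b → ∀ g, Cls (B1 d M k) (800 * d * Nt d M th b) g →
      Ker (fun x y => n1 (x - y)) (lv C d j) (aR d M b j) (Ac b g) := by
  obtain ⟨C, C1, h⟩ := ker_of (β := 19 / 10 * th) (by linarith [th0]) hj
  refine ⟨C, C1, ?_⟩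
  filter_upwards [h, dim_ev k, Nt_ev (2400 * 3 ^ k) (k + 1 + (j + 3)), eventually_ge_atTop (k + 1)]
    with d h hd h1 h2 M _ b w g hg
  have d0 := hd.d0
  have := (h M b (w.M3 hd) w.b1 (w.b2.trans (by rw [th]; linarith))).2 _ _ 0 g 0 hg
    (fun x hx => (mem_B1.1 hx).trans (le_trans (by omega) (Nat.le_self_pow (by norm_num) d))) (by
      rw [le_div_iff₀ (by positivity)]
      refine le_trans ?_ (h1 M b w)
      have := mul_le_mul_of_nonneg_right (hd.B (M := M))
        (show 0 ≤ d * Nt d M th b * d ^ (j + 3) from by have := Nt_pos (d := d) (M := M) th b; positivity)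
      rw [mul_pow] at this
      rw [pow_add _ (k + 1), pow_succ (d : ℝ) k]
      linarith) (by simp) (by positivity)
  rwa [show diagonal (0 : Tor d M → ℂ) = 0 from diagonal_zero, add_zero] at this

/-- the tuned reference -/
theorem partA (k : ℕ) : ∃ C : ℝ, 1 ≤ C ∧ ∀ᶠ d : ℕ in atTop, ∀ (M : ℕ) [NeZero M] (b : ℝ),
    Win d M b → ∃ (ε κ ω L η : ℝ) (g : Tor d M → ℂ), 1 / d ≤ ε ∧ ε ≤ C / d ∧ κ ≤ C / d ∧
      ω ≤ C / d ^ 2 ∧ L = 4 * d ^ 7 ∧ 0 < η ∧
      SmK (fun x y => (n1 (x - y) : ℝ) / d ^ 4) (Ac b g) (1 / 100) ∧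
      ∀ u, 40000 * d * |u| ≤ ε * η →
        FnH (B1 d M k) th b (800 * d * Nt d M th b) ε κ ω L η u (Zk b) (ak b) g := by
  obtain ⟨C, C1, h⟩ := ker_win k (j := 15) (by norm_num)
  obtain ⟨C', C1', h'⟩ := ker_win k (j := k + 1) (by omega)
  refine ⟨10 ^ 7 * C * (C + C'), by nlinarith, ?_⟩
  filter_upwards [h, h', dim_ev k, ev_ge (1800 * 3 ^ k * C' ^ (k + 4)), ev_ge (36 * C ^ 18),
    ev_ge (10 ^ 19 * C * (C + C')), ev_ge (10 ^ 17 * C)] with d h h' hd h1 h2 h3 h4 M _ b w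
  have d0 := hd.d0
  have d1 : (1 : ℝ) ≤ d := by linarith
  have ν' : 200 * #(B1 d M k) * (lv C' d (k + 1)).ν ≤ 1 / d ^ 2 := by
    simp only [lv]
    refine (mul_le_mul_of_nonneg_right (mul_le_mul_of_nonneg_left hd.B (by norm_num))
      (by positivity)).trans ?_
    rw [div_pow, mul_pow, ← mul_div_assoc, ← mul_div_assoc, div_le_div_iff₀ (by positivity) (by positivity)]
    calc _ = 1800 * 3 ^ k * C' ^ (k + 4) * (d : ℝ) ^ (k + 2) := by ring
      _ ≤ d * d ^ (k + 3) := by gcongr; omega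
      _ = _ := by ring
  have d2 : 1 / (d : ℝ) ^ 2 ≤ 1 := div_le_one_of_le₀ (one_le_pow₀ d1) (by positivity)
  have st := statH (ρ := n1) (B := B1 d M k) (by simpa [mem_B1] using oct_n1 fun n => if n ≤ k then 1 else 0)
    (by simp [mem_B1, n1_zero]) nm_le_n1 (h M b w) (h' M b w) (ν'.trans d2) (by
      have : 1 / (d : ℝ) ^ 2 ≤ (C' / d) ^ 2 := by rw [div_pow]; gcongr; nlinarith
      have : 0 ≤ #(B1 d M k) * (lv C' d (k + 1)).ν := by simp only [lv]; positivity
      simp only [lv] at *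
      linarith) (by
      simp only [lv]
      rw [div_pow, ← mul_div_assoc, div_mul_eq_mul_div, div_le_div_iff₀ (by positivity) (by positivity)]
      push_cast
      calc _ ≤ 9 * C ^ 18 * (d ^ 7 + d ^ 7 : ℝ) ^ 2 * d ^ 3 := by gcongr; exact one_le_pow₀ d1
        _ = 36 * C ^ 18 * d ^ 17 := by ring
        _ ≤ C * d * d ^ 17 := mul_le_mul_of_nonneg_right (by nlinarith) (by positivity)
        _ = _ := by ring)
  have s0 := sqrt_nonneg (C / d ^ 3)
  have s1 : √(C / d ^ 3) ≤ C / d := sqrt_le_iff.2 ⟨by positivity, by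
    rw [div_pow]
    exact div_le_div₀ (by positivity) (by nlinarith) (by positivity) (pow_le_pow_right₀ d1 (by norm_num))⟩
  have s2 : √(C / d ^ 3) ≤ 1 / (127 * 10 ^ 6 * d) := sqrt_le_iff.2 ⟨by positivity, by
    rw [div_pow, div_le_div_iff₀ (by positivity) (by positivity)]
    nlinarith [mul_le_mul_of_nonneg_right h4 (sq_nonneg (d : ℝ))]⟩
  simp only [lv, Lv.ks] at st
  push_cast at st
  have e1 : 182 * (C / d + C' / d) * (1 + 4860) ≤ 10 ^ 7 * C * (C + C') / d := by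
    rw [← add_div, ← mul_div_assoc, div_mul_eq_mul_div]
    exact div_le_div_of_nonneg_right (by nlinarith) (by linarith)
  have e2 : 560 * (C / d) * √(C / d ^ 3) * (1 + 4860) ≤ 10 ^ 7 * C * (C + C') / d ^ 2 := by
    calc _ ≤ 560 * (C / d) * (C / d) * (1 + 4860) := by gcongr
      _ = 560 * 4861 * C * C / d ^ 2 := by ring
      _ ≤ _ := div_le_div_of_nonneg_right (by nlinarith) (by positivity)
  have e3 : 10 ^ 7 * C * (C + C') / d ≤ 1 / 10 ^ 12 := by rw [div_le_iff₀ (by linarith)]; linarith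
  obtain ⟨η, g, η0, hg⟩ := w.fnh hd (by positivity) (e1.trans e3) (by positivity) (by
      rw [le_div_iff₀ (by positivity)] at s2
      linarith) (e2.trans ((div_le_div_of_nonneg_left (by positivity) (by linarith)
        (le_self_pow₀ d1 two_ne_zero)).trans (by linarith))) (by positivity) st
  refine ⟨_, _, _, _, η, g, ?_, e1, ?_, e2, rfl, η0,
    (h M b w g (hg 0 (by rw [abs_zero, mul_zero]; positivity)).fx.cls).smk, hg⟩
  · rw [← add_div, ← mul_div_assoc, div_mul_eq_mul_div]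
    exact div_le_div_of_nonneg_right (by nlinarith) (by linarith)
  · refine (mul_le_mul_of_nonneg_left s1 (by norm_num)).trans ?_
    rw [← mul_div_assoc]
    exact div_le_div_of_nonneg_right (by nlinarith) (by linarith)

end Pool.Agent.P.MP_d0f69c_mp.XS.Rf
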