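import Pool.Agent.P.MP_d0f69c_mp.XS.RefI

/-!
Reference block: averages of the inverse symbol.
-/

set_option autoImplicit false

open Finset Real

namespace Pool.Agent.P.MP_d0f69c_mp.XS.Rf

variable {d M : ℕ} [NeZero M] {η ω b : ℝ} {ζ : Tor d M → ℂ} {w : Fin d → ℂ}

/-- the hypotheses on the perturbation of the symbol, and on the mesh -/
structure SyH (η ω : ℝ) (ζ : Tor d M → ℂ) : Prop where
  M3 : 3 ≤ M
  hd : 128 ≤ d
  η0 : 0 < η
  η1 : η ≤ 1
  ω1 : ω ≤ 1 / 100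
  mesh : d * tau M ≤ η ^ 3 / 100
  im : ∀ q, (ζ q).im ≤ -η / 2
  nrm : ∀ q, ‖ζ q‖ ≤ 1
  lip : ∀ (q : Tor d M) (j : Fin d) (a : ZMod M),
    ‖ζ (q + Pi.single j a) - ζ q‖ ≤ ω * ‖ZMod.stdAddChar a - 1‖

/-- the symbol -/
noncomputable def Yw (b : ℝ) (w : Fin d → ℂ) (ζ : Tor d M → ℂ) (q : Tor d M) : ℂ :=
  (b - Rw w q : ℝ) + ζ q

theorem Yw_re (q : Tor d M) : (Yw b w ζ q).re = b - Rw w q + (ζ q).re := by simp [Yw]

theorem Yw_im (q : Tor d M) : (Yw b w ζ q).im = (ζ q).im := by simp [Yw]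

theorem SyH.tau_le (h : SyH η ω ζ) : tau M ≤ η ^ 3 / 100 := by
  have : (128 : ℝ) ≤ d := by exact_mod_cast h.hd
  nlinarith [h.mesh, tau_pos h.M3]

theorem SyH.tau_le' (h : SyH η ω ζ) : tau M ≤ 1 / 100 :=
  h.tau_le.trans (by linarith [pow_le_one₀ (n := 3) h.η0.le h.η1])

theorem SyH.ω0 (h : SyH η ω ζ) : 0 ≤ ω :=
  nonneg_of_mul_nonneg_left ((norm_nonneg _).trans (h.lip 0 ⟨0, by have := h.hd; omega⟩ 1))
    (tau_pos h.M3)

theorem SyH.step (h : SyH η ω ζ) (q : Tor d M) (j : Fin d) :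
    ‖Yw b w ζ (q + Pi.single j 1) - Yw b w ζ q + tau M * cw (rot M (w j)) (q j)‖ ≤ ω * tau M := by
  refine le_trans (le_of_eq ?_) (h.lip q j 1)
  rw [← Complex.ofReal_mul, ← Rw_succ h.M3]
  simp only [Yw]
  congr 1
  push_cast
  ring

theorem SyH.step' (h : SyH η ω ζ) (h1 : ∀ j, ‖w j‖ ≤ 1) (q : Tor d M) (j : Fin d) :
    ‖Yw b w ζ (q + Pi.single j 1) - Yw b w ζ q‖ ≤ 3 * tau M := by
  have t0 := tau_pos h.M3
  have a := abs_cw (rot M (w j)) (q j)
  rw [norm_rot h.M3] at a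
  refine (norm_le_add_norm_add _ _).trans ((add_le_add (h.step q j) le_rfl).trans ?_)
  rw [norm_mul, Complex.norm_real, Complex.norm_real, Real.norm_of_nonneg t0.le, Real.norm_eq_abs]
  nlinarith [h1 j, h.ω1]

theorem SyH.sq_le (h : SyH η ω ζ) (q : Tor d M) :
    (Yw b w ζ q).re ^ 2 + η ^ 2 ≤ 4 * ‖Yw b w ζ q‖ ^ 2 := by
  rw [Complex.sq_norm, Complex.normSq_apply, Yw_im]
  nlinarith [h.im q, h.η0, sq_nonneg (Yw b w ζ q).re]

theorem SyH.ne (h : SyH η ω ζ) (q : Tor d M) : Yw b w ζ q ≠ 0 := fun c => by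
  have := Yw_im (b := b) (w := w) (ζ := ζ) q
  rw [c, Complex.zero_im] at this
  linarith [h.im q, h.η0]

theorem SyH.inv_le (h : SyH η ω ζ) (q : Tor d M) : ‖(Yw b w ζ q)⁻¹‖ ≤ 2 / η := by
  rw [norm_inv, ← inv_div]
  refine inv_anti₀ (by linarith [h.η0]) (le_trans ?_ (Complex.abs_im_le_norm _))
  rw [Yw_im]
  linarith [h.im q, neg_le_abs (ζ q).im]

theorem av_le_pr {α : Type} [Fintype α] [Nonempty α] (A : α → Prop) {f : α → ℝ} {a c : ℝ}
    (h1 : ∀ x, A x → f x ≤ a + c) (h2 : ∀ x, ¬ A x → f x ≤ c) : av f ≤ a * pr A + c := by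
  rw [pr_eq_av, ← av_mul]
  refine le_trans ?_ (add_le_add le_rfl (av_const (α := α) c).le)
  rw [← av_add]
  refine av_mono fun x => ?_
  split_ifs with h
  · simpa using h1 x h
  · simpa using h2 x h

theorem taylor {φ ψ : ℝ → ℝ} {L : ℝ} (h1 : ∀ x, HasDerivAt φ (-ψ x) x)
    (h2 : ∀ x y, |ψ x - ψ y| ≤ L * |x - y|) (hL : 0 ≤ L) (x y : ℝ) :
    |φ y - φ x + ψ x * (y - x)| ≤ L * |y - x| * |y - x| := by
  have := Convex.norm_image_sub_le_of_norm_hasDerivWithin_le (f := fun z => φ z + ψ x * z)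
    (f' := fun z => -ψ z + ψ x * 1) (C := L * |y - x|) (s := Set.uIcc x y)
    (fun z _ => ((h1 z).add ((hasDerivAt_id z).const_mul _)).hasDerivWithinAt)
    (fun z hz => by
      rw [mul_one, neg_add_eq_sub, Real.norm_eq_abs, abs_sub_comm]
      exact (h2 z x).trans (mul_le_mul_of_nonneg_left (Set.abs_sub_left_of_mem_uIcc hz) hL))
    (convex_uIcc x y) Set.left_mem_uIcc Set.right_mem_uIcc
  rw [Real.norm_eq_abs, Real.norm_eq_abs] at this
  refine le_trans (le_of_eq ?_) this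
  congr 1
  ring

theorem SyH.dphi (h : SyH η ω ζ) (h1 : ∀ j, ‖w j‖ ≤ 1) {φ ψ : ℝ → ℝ} {L : ℝ}
    (a1 : ∀ x, HasDerivAt φ (-ψ x) x) (a2 : ∀ x y, |ψ x - ψ y| ≤ L * |x - y|) (hL : 0 ≤ L)
    (q : Tor d M) (j : Fin d) :
    |φ (Yw b w ζ (q + Pi.single j 1)).re - φ (Yw b w ζ q).re +
      ψ (Yw b w ζ q).re * ((Yw b w ζ (q + Pi.single j 1)).re - (Yw b w ζ q).re)| ≤
        9 * tau M ^ 2 * L ∧
      |(Yw b w ζ (q + Pi.single j 1)).re - (Yw b w ζ q).re| ≤ 3 * tau M := by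
  have a3 := (Complex.abs_re_le_norm _).trans (h.step' (b := b) h1 q j)
  rw [Complex.sub_re] at a3
  refine ⟨(taylor a1 a2 hL _ _).trans ?_, a3⟩
  have := tau_pos h.M3
  calc _ ≤ L * (3 * tau M) * (3 * tau M) := by gcongr
    _ = _ := by ring

/-- a weighted count -/
theorem SyH.wcount (h : SyH η ω ζ) (h1 : ∀ j, ‖w j‖ ≤ 1) (h2 : (d : ℝ) / 4 ≤ ∑ j, ‖w j‖ ^ 2)
    {φ ψ : ℝ → ℝ} {L Γ : ℝ} (a1 : ∀ x, HasDerivAt φ (-ψ x) x)
    (a2 : ∀ x y, |ψ x - ψ y| ≤ L * |x - y|) (hL : 0 ≤ L) (a3 : ∀ x, 0 ≤ ψ x ∧ ψ x ≤ Γ)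
    {Φ : Tor d M → ℝ} {B : ℝ} (b1 : ∀ q, 0 ≤ Φ q ∧ Φ q ≤ B)
    (b2 : ∀ q j, |Φ (q + Pi.single j 1) - Φ q| ≤ tau M * Φ q) :
    av (fun q => Φ q * ψ (Yw b w ζ q).re) ≤ 36 * av (fun q => Φ q * |φ (Yw b w ζ q).re|) +
      288 * tau M * L * av Φ + 2 * (B * Γ * exp (-(d : ℝ) / 512)) := by
  have t0 := tau_pos h.M3
  have t1 := h.tau_le'
  have w0 := h.ω0
  have k := ibp h.M3 h.hd h1 h2 (fun q => (Φ q * φ (Yw b w ζ q).re : ℝ))
    (fun q => (Φ q * ψ (Yw b w ζ q).re : ℝ))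
    (fun q => 18 * tau M * L * Φ q + (2 * (ω + tau M) * (Φ q * ψ (Yw b w ζ q).re) +
      Φ q * |φ (Yw b w ζ q).re|)) (Γ := B * Γ)
    (fun q => by
      rw [Complex.norm_real, Real.norm_of_nonneg (mul_nonneg (b1 q).1 (a3 _).1)]
      exact mul_le_mul (b1 q).2 (a3 _).2 (a3 _).1 ((b1 q).1.trans (b1 q).2))
    fun q j => by
      rw [← Complex.ofReal_mul, ← Complex.ofReal_mul, ← Complex.ofReal_sub, ← Complex.ofReal_sub,
        Complex.norm_real, Real.norm_eq_abs]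
      have c1 := (h.dphi (b := b) h1 a1 a2 hL q j).1
      have c2 := (Complex.abs_re_le_norm _).trans (h.step (b := b) (w := w) q j)
      rw [← Complex.ofReal_mul, Complex.add_re, Complex.sub_re, Complex.ofReal_re] at c2
      have c3 := abs_cw (rot M (w j)) (q j)
      rw [norm_rot h.M3] at c3
      have c4 := b2 q j
      have c5 := (b1 q).1
      have c6 := (b1 (q + Pi.single j 1)).1
      have c7 := (a3 (Yw b w ζ q).re).1
      have c8 : |cw (rot M (w j)) (q j)| ≤ 2 := by linarith [h1 j]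
      generalize Φ (q + Pi.single j 1) = F' at *
      generalize Φ q = F at *
      generalize (Yw b w ζ (q + Pi.single j 1)).re = y at *
      generalize (Yw b w ζ q).re = x at *
      generalize cw (rot M (w j)) (q j) = u at *
      have c9 : F' ≤ 2 * F := by nlinarith [(abs_le.1 c4).2]
      have e : F' * φ y - F * φ x - tau M * u * (F * ψ x) = F' * (φ y - φ x + ψ x * (y - x)) -
          F' * (ψ x * (y - x + tau M * u)) + (F' - F) * (tau M * u * ψ x) + (F' - F) * φ x := by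
        ring
      rw [e]
      refine (abs_add_le _ _).trans ((add_le_add ((abs_add_le _ _).trans
        (add_le_add (abs_sub _ _) le_rfl)) le_rfl).trans ?_)
      simp only [abs_mul, abs_of_nonneg c6, abs_of_nonneg c7, abs_of_pos t0]
      calc _ ≤ 2 * F * (9 * tau M ^ 2 * L) + 2 * F * (ψ x * (ω * tau M)) +
            tau M * F * (tau M * 2 * ψ x) + tau M * F * |φ x| := by gcongr
        _ = _ := by ring
  have p0 : 0 ≤ av fun q => Φ q * ψ (Yw b w ζ q).re :=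
    av_nonneg fun q => mul_nonneg (b1 q).1 (a3 _).1
  rw [avc_real, Complex.norm_real, Real.norm_of_nonneg p0, av_add, av_add, av_mul, av_mul] at k
  simp only [Complex.norm_real, Real.norm_eq_abs, abs_mul, abs_of_nonneg (b1 _).1] at k
  nlinarith [mul_le_mul_of_nonneg_right (show ω + tau M ≤ 1 / 50 by linarith [h.ω1]) p0]

theorem atan_deriv (hη : 0 < η) (x : ℝ) :
    HasDerivAt (fun x => π / 2 - arctan (x / η)) (-(η / (x ^ 2 + η ^ 2))) x := by
  have := ((hasDerivAt_arctan (x / η)).comp x ((hasDerivAt_id x).div_const η)).const_sub (π / 2)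
  refine this.congr_deriv ?_
  field_simp
  ring

theorem atan_lip (hη : 0 < η) (x y : ℝ) :
    |η / (x ^ 2 + η ^ 2) - η / (y ^ 2 + η ^ 2)| ≤ 1 / η ^ 2 * |x - y| := by
  have e : η / (x ^ 2 + η ^ 2) - η / (y ^ 2 + η ^ 2) =
      η * (x + y) / ((x ^ 2 + η ^ 2) * (y ^ 2 + η ^ 2)) * (y - x) := by
    field_simp
    ring
  rw [e, abs_mul, abs_sub_comm]
  refine mul_le_mul_of_nonneg_right ?_ (abs_nonneg _)
  rw [abs_div, abs_of_pos (by positivity : 0 < (x ^ 2 + η ^ 2) * (y ^ 2 + η ^ 2)),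
    div_le_div_iff₀ (by positivity) (by positivity), abs_mul, abs_of_pos hη]
  have a1 : η * |x + y| ≤ (x ^ 2 + y ^ 2) / 2 + η ^ 2 := by
    nlinarith [abs_add_le x y, sq_nonneg (|x| - η), sq_nonneg (|y| - η), sq_abs x, sq_abs y]
  nlinarith [mul_le_mul_of_nonneg_right a1 (sq_nonneg η), mul_nonneg (sq_nonneg x) (sq_nonneg y),
    mul_nonneg (sq_nonneg x) (sq_nonneg η), mul_nonneg (sq_nonneg y) (sq_nonneg η)]

theorem atan_pos (x : ℝ) : 0 < π / 2 - arctan x ∧ π / 2 - arctan x < π := by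
  constructor <;> linarith [arctan_lt_pi_div_two x, neg_pi_div_two_lt_arctan x]

theorem atan_le (hη : 0 < η) {x : ℝ} (hx : 0 < x) : π / 2 - arctan (x / η) ≤ η / x := by
  rw [← arctan_inv_of_pos (div_pos hx hη), inv_div]
  have := le_tan (arctan_nonneg.2 (div_pos hη hx).le) (arctan_lt_pi_div_two _)
  rwa [tan_arctan] at this

/-- upper bound of the mean square -/
theorem SyH.cnt1 (h : SyH η ω ζ) (h1 : ∀ j, ‖w j‖ ≤ 1) (h2 : (d : ℝ) / 4 ≤ ∑ j, ‖w j‖ ^ 2)
    (he : exp (-(d : ℝ) / 512) ≤ η ^ 2) :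
    av (fun q => ‖(Yw b w ζ q)⁻¹‖ ^ 2) ≤
      500 * (pr (fun q : Tor d M => b - 2 ≤ Rw w q) / η + 1) := by
  have η0 := h.η0
  have k := h.wcount (b := b) h1 h2 (atan_deriv η0) (atan_lip η0) (by positivity) (Γ := 1 / η)
    (fun x => ⟨by positivity, by
      rw [div_le_div_iff₀ (by positivity) η0]; nlinarith [sq_nonneg x]⟩)
    (Φ := fun _ => 1) (B := 1) (fun _ => ⟨zero_le_one, le_rfl⟩)
    fun _ _ => by simpa using (tau_pos h.M3).le
  simp only [one_mul, av_const, mul_one] at k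
  have k1 : av (fun q => |π / 2 - arctan ((Yw b w ζ q).re / η)|) ≤
      π * pr (fun q : Tor d M => b - 2 ≤ Rw w q) + η := by
    refine av_le_pr _ (fun q _ => ?_) fun q c => ?_ <;> rw [abs_of_pos (atan_pos _).1]
    · linarith [(atan_pos ((Yw b w ζ q).re / η)).2]
    · have c1 : 1 ≤ (Yw b w ζ q).re := by
        rw [Yw_re]
        linarith [(abs_le.1 ((Complex.abs_re_le_norm _).trans (h.nrm q))).1]
      exact (atan_le η0 (by linarith)).trans (div_le_self η0.le c1)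
  have k2 : av (fun q => ‖(Yw b w ζ q)⁻¹‖ ^ 2) ≤
      4 / η * av fun q => η / ((Yw b w ζ q).re ^ 2 + η ^ 2) := by
    rw [← av_mul]
    refine av_mono fun q => ?_
    rw [norm_inv, inv_pow, div_mul_div_cancel₀ η0.ne', ← one_div,
      div_le_div_iff₀ (pow_pos (norm_pos_iff.2 (h.ne q)) 2) (by positivity), one_mul]
    exact h.sq_le q
  have k3 : tau M * (1 / η ^ 2) ≤ η / 100 := by
    rw [mul_one_div, div_le_iff₀ (by positivity)]
    linarith [h.tau_le]
  have k4 : 1 / η * exp (-(d : ℝ) / 512) ≤ η := by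
    rw [one_div_mul_eq_div, div_le_iff₀ η0]
    linarith
  have p0 := pr_nonneg fun q : Tor d M => b - 2 ≤ Rw w q
  refine k2.trans ?_
  rw [div_mul_eq_mul_div, div_add_one η0.ne', mul_div_assoc']
  refine div_le_div_of_nonneg_right ?_ η0.le
  nlinarith [mul_le_mul_of_nonneg_right pi_lt_d2.le p0]

/-- weighted mean of the modulus -/
theorem SyH.cnt2 (h : SyH η ω ζ) (h1 : ∀ j, ‖w j‖ ≤ 1) (h2 : (d : ℝ) / 4 ≤ ∑ j, ‖w j‖ ^ 2)
    {D : ℝ} (D1 : 1 ≤ D) (D2 : |b| + 2 * d + 1 ≤ η * exp D / 4) {Φ : Tor d M → ℝ} {B : ℝ}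
    (b1 : ∀ q, 0 ≤ Φ q ∧ Φ q ≤ B) (b2 : ∀ q j, |Φ (q + Pi.single j 1) - Φ q| ≤ tau M * Φ q) :
    av (fun q => Φ q * ‖(Yw b w ζ q)⁻¹‖) ≤
      80 * D * av Φ + 4 * B * exp (-(d : ℝ) / 512) / η := by
  have η0 := h.η0
  have s0 : ∀ x : ℝ, η ≤ √(x ^ 2 + η ^ 2) := fun x => le_sqrt_of_sq_le (by nlinarith [sq_nonneg x])
  have k := h.wcount (b := b) h1 h2 (φ := fun x => -arsinh (x / η))
    (ψ := fun x => (√(x ^ 2 + η ^ 2))⁻¹) (L := 1 / η ^ 2) (Γ := η⁻¹)
    (fun x => by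
      have := ((hasDerivAt_arsinh (x / η)).comp x ((hasDerivAt_id x).div_const η)).neg
      refine this.congr_deriv ?_
      have e : x ^ 2 + η ^ 2 = η ^ 2 * (1 + (x / η) ^ 2) := by field_simp; ring
      rw [e, sqrt_mul (sq_nonneg η), sqrt_sq η0.le, mul_inv, one_div, mul_comm])
    (fun x y => by
      have a := abs_norm_sub_norm_le (y + η * Complex.I) (x + η * Complex.I)
      rw [add_sub_add_right_eq_sub, ← Complex.ofReal_sub, Complex.norm_real, Real.norm_eq_abs,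
        Complex.norm_add_mul_I, Complex.norm_add_mul_I, abs_sub_comm y] at a
      have a1 := s0 x
      have a2 := s0 y
      rw [inv_sub_inv (by linarith) (by linarith), abs_div, abs_of_pos (mul_pos (by linarith)
        (by linarith) : 0 < √(x ^ 2 + η ^ 2) * √(y ^ 2 + η ^ 2)), one_div_mul_eq_div, sq η]
      rw [sq η] at a a1 a2
      gcongr)
    (by positivity) (fun x => ⟨by positivity, inv_anti₀ η0 (s0 x)⟩) b1 b2
  have k1 : av (fun q => Φ q * |-arsinh ((Yw b w ζ q).re / η)|) ≤ D * av Φ := by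
    rw [← av_mul]
    refine av_mono fun q => ?_
    rw [mul_comm]
    refine mul_le_mul_of_nonneg_right ?_ (b1 q).1
    have c1 : |Rw w q| ≤ 2 * d := (abs_sum_le_sum_abs _ _).trans
      ((sum_le_card_nsmul _ _ 2 fun j _ => by linarith [abs_cw (w j) (q j), h1 j]).trans_eq
        (by simp [mul_comm]))
    have c2 : |(Yw b w ζ q).re / η| ≤ sinh D := by
      rw [abs_div, abs_of_pos η0, div_le_iff₀ η0, Yw_re, sinh_eq]
      have c3 := abs_add_le (b - Rw w q) (ζ q).re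
      have c4 : exp (-D) ≤ exp D / 2 := by
        have := add_one_le_exp D
        have := exp_le_one_iff.2 (show -D ≤ 0 by linarith)
        linarith
      nlinarith [abs_sub b (Rw w q), (Complex.abs_re_le_norm _).trans (h.nrm q)]
    rw [abs_neg, abs_le, ← arsinh_sinh D, ← arsinh_neg]
    exact ⟨arsinh_le_arsinh.2 (abs_le.1 c2).1, arsinh_le_arsinh.2 (abs_le.1 c2).2⟩
  have k2 : av (fun q => Φ q * ‖(Yw b w ζ q)⁻¹‖) ≤
      2 * av fun q => Φ q * (√((Yw b w ζ q).re ^ 2 + η ^ 2))⁻¹ := by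
    rw [← av_mul]
    refine av_mono fun q => ?_
    rw [mul_left_comm]
    refine mul_le_mul_of_nonneg_left ?_ (b1 q).1
    rw [norm_inv, ← div_eq_mul_inv, ← one_div, div_le_div_iff₀ (norm_pos_iff.2 (h.ne q))
      (η0.trans_le (s0 _)), one_mul]
    exact sqrt_le_iff.2 ⟨by positivity, by linarith [h.sq_le (b := b) (w := w) q]⟩
  have k3 : tau M * (1 / η ^ 2) ≤ 1 / 100 := by
    rw [mul_one_div, div_le_iff₀ (by positivity)]
    nlinarith [h.tau_le, h.η1, sq_nonneg η]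
  have p0 : 0 ≤ av Φ := av_nonneg fun q => (b1 q).1
  rw [div_eq_mul_inv]
  nlinarith [mul_le_mul_of_nonneg_right k3 p0, mul_le_mul_of_nonneg_right D1 p0]

/-- lower bound of the mean square -/
theorem SyH.low (h : SyH η ω ζ) (hi : ∀ q, -2 * η ≤ (ζ q).im) (hb : 1 ≤ b) :
    b * pr (fun q : Tor d M => b + 1 ≤ Rw (fun _ => 1) q) / (24 * d * η) - 1 / (12 * d) ≤
      av fun q => ‖(Yw b (fun _ => 1) ζ q)⁻¹‖ ^ 2 := by
  have η0 := h.η0
  have t0 := tau_pos h.M3
  have d0 : (128 : ℝ) ≤ d := by exact_mod_cast h.hd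
  have t1 : (tau M : ℂ) ≠ 0 := by exact_mod_cast t0.ne'
  have t2 : ZMod.stdAddChar (1 : ZMod M) - 1 ≠ 0 := norm_pos_iff.1 t0
  set v : ℂ := -(ZMod.stdAddChar (1 : ZMod M) * (tau M / (ZMod.stdAddChar (1 : ZMod M) - 1)))
    with hv
  have v1 : ‖v‖ = 1 := by
    rw [hv, norm_neg, norm_mul, norm_e, one_mul, norm_div, Complex.norm_real,
      Real.norm_of_nonneg t0.le]
    exact div_self t0.ne'
  have v2 : ∀ a : ZMod M, cw v a - cw v (a + 1) = tau M * cw 1 (a + 1) := fun a => by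
    have e : rot M v = -ZMod.stdAddChar (1 : ZMod M) := by
      rw [rot, hv]
      field_simp
    rw [← neg_sub, cw_succ h.M3, e, cw, cw, AddChar.map_add_eq_mul, mul_one, mul_neg,
      Complex.neg_re]
    ring
  set t : Tor d M → ℝ := fun q => (Yw b (fun _ => 1) ζ q).re with ht
  set f : Tor d M → ℝ := fun q => π / 2 - arctan (t q / η) with hf
  set ψ : Tor d M → ℝ := fun q => η / (t q ^ 2 + η ^ 2) with hψ
  have k1 : ∀ j, tau M * av (fun q => cw 1 (q j) * f q) ≤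
      tau M * (6 * av ψ + 18 * tau M / η ^ 2) := fun j => by
    have e : tau M * av (fun q => cw 1 (q j) * f q) =
        av fun q => cw v (q j) * (f (q + Pi.single j 1) - f q) := by
      rw [← av_shift (Pi.single j 1), ← av_mul]
      simp only [mul_sub, McdA.av_sub]
      rw [← av_shift (Pi.single j 1) fun q => cw v (q j) * f q, ← McdA.av_sub]
      simp only [← sub_mul, Pi.add_apply, Pi.single_eq_same, v2, mul_assoc]
    rw [e]
    refine le_trans (av_mono (g := fun q => tau M * (6 * ψ q + 18 * tau M / η ^ 2))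
      fun q => (le_abs_self _).trans ?_) (by rw [av_mul, av_add, av_mul, av_const])
    obtain ⟨c1, c2⟩ := h.dphi (b := b) (w := fun _ => 1) (fun _ => by simp) (atan_deriv η0)
      (atan_lip η0) (by positivity) q j
    have c3 := abs_cw v (q j)
    have c4 : 0 ≤ ψ q := by positivity
    have c5 := (abs_sub _ _).trans (add_le_add c1 ((abs_mul _ _).trans_le
      (mul_le_mul (abs_of_nonneg c4).le c2 (abs_nonneg _) c4)))
    rw [add_sub_cancel_right] at c5
    rw [v1] at c3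
    rw [abs_mul]
    exact (mul_le_mul c3 c5 (abs_nonneg _) (by norm_num)).trans_eq (by ring)
  have k2 : av (fun q => Rw (fun _ => 1) q * f q) ≤ d * (6 * av ψ + 18 * tau M / η ^ 2) := by
    simp only [Rw, sum_mul, av_sum]
    exact (sum_le_card_nsmul _ _ _ fun j _ => le_of_mul_le_mul_left (k1 j) t0).trans_eq
      (by rw [card_univ, Fintype.card_fin, nsmul_eq_mul])
  have k3 : b * pr (fun q : Tor d M => b + 1 ≤ Rw (fun _ => 1) q) - η ≤
      av fun q => Rw (fun _ => 1) q * f q := by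
    suffices c : av (fun q => -1 * (Rw (fun _ => 1) q * f q)) ≤
        -b * pr (fun q : Tor d M => b + 1 ≤ Rw (fun _ => 1) q) + η by
      rw [av_mul] at c
      linarith
    refine av_le_pr _ (fun q c => ?_) fun q c => ?_ <;>
      have c1 := abs_le.1 ((Complex.abs_re_le_norm _).trans (h.nrm q)) <;>
      have c2 : t q = _ := Yw_re q <;> have c3 : 0 < f q := (atan_pos _).1
    · have c4 := arctan_le_zero.2 (div_nonpos_of_nonpos_of_nonneg (show t q ≤ 0 by linarith) η0.le)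
      have c5 : 1 ≤ f q := by simp only [hf]; linarith [pi_gt_three]
      nlinarith
    · rcases le_or_gt 0 (Rw (fun _ => 1) q) with c4 | c4
      · nlinarith
      · have c5 : f q ≤ η / t q := atan_le η0 (by linarith)
        rw [le_div_iff₀ (by linarith)] at c5
        nlinarith
  have k4 : 1 / (4 * η) * av ψ ≤ av fun q => ‖(Yw b (fun _ => 1) ζ q)⁻¹‖ ^ 2 := by
    rw [← av_mul]
    refine av_mono fun q => ?_
    rw [norm_inv, inv_pow, hψ, div_mul_div_comm, ← one_div,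
      div_le_div_iff₀ (by positivity) (pow_pos (norm_pos_iff.2 (h.ne q)) 2), Complex.sq_norm,
      Complex.normSq_apply, Yw_im]
    have c1 : (ζ q).im * (ζ q).im ≤ 4 * η ^ 2 := by nlinarith [hi q, h.im q]
    nlinarith [mul_le_mul_of_nonneg_left c1 η0.le, mul_nonneg η0.le (sq_nonneg (t q))]
  have k5 : d * (18 * tau M / η ^ 2) ≤ η := by
    rw [mul_div_assoc', div_le_iff₀ (by positivity)]
    nlinarith [h.mesh, pow_pos η0 3]
  refine le_trans ?_ k4
  rw [sub_le_iff_le_add, div_le_iff₀ (by positivity)]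
  have e : (1 / (4 * η) * av ψ + 1 / (12 * d)) * (24 * d * η) = d * (6 * av ψ) + 2 * η := by
    field_simp
    ring
  rw [e]
  linarith

/-- exponential moments give tails -/
theorem chern0 (w : Fin d → ℂ) {l : ℝ} (hl : 0 ≤ l) (x : ℝ) :
    pr (fun q : Tor d M => x ≤ Rw w q) ≤
      (∏ j, av fun a : ZMod M => exp (l * cw (w j) a)) * exp (-(l * x)) := by
  rw [← av_prod_pi, mul_comm, ← av_mul]
  refine pr_le_av (fun q => by positivity) fun q hq => ?_
  rw [← exp_sum, ← mul_sum, ← exp_add]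
  exact one_le_exp (by unfold Rw at hq; nlinarith)

theorem mgf_le (h : 3 ≤ M) {v : ℂ} (hv : ‖v‖ ≤ 1) {l : ℝ} (l0 : 0 ≤ l) (l1 : l ≤ 1 / 2) :
    av (fun a : ZMod M => exp (l * cw v a)) ≤ exp (l ^ 2 * ‖v‖ ^ 2 + 8 * l ^ 3) := by
  have k : ∀ a : ZMod M, exp (l * cw v a) ≤ 1 + 8 * l ^ 3 + (l * cw v a + l ^ 2 / 2 * cw v a ^ 2) :=
    fun a => by
      have c1 : |l * cw v a| ≤ 2 * l := by
        rw [abs_mul, abs_of_nonneg l0]
        nlinarith [abs_cw v a]
      have c2 := (abs_le.1 (Real.exp_bound (c1.trans (by linarith)) (n := 3) (by norm_num))).2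
      have c3 := pow_le_pow_left₀ (abs_nonneg _) c1 3
      simp only [sum_range_succ, range_zero, sum_empty, Nat.factorial] at c2
      norm_num at c2 c3
      nlinarith [pow_nonneg l0 3]
  refine (av_mono k).trans (le_trans (le_of_eq ?_) (add_one_le_exp _))
  rw [av_add, av_const, av_add, av_mul, av_mul, av_cw h, av_cw_sq h]
  ring

theorem chern (h : 3 ≤ M) (h1 : ∀ j, ‖w j‖ ≤ 1) {l : ℝ} (l0 : 0 ≤ l) (l1 : l ≤ 1 / 2) (x : ℝ) :
    pr (fun q : Tor d M => x ≤ Rw w q) ≤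
      exp (l ^ 2 * ∑ j, ‖w j‖ ^ 2 + 8 * l ^ 3 * d - l * x) := by
  refine (chern0 w l0 x).trans (le_trans (mul_le_mul_of_nonneg_right (prod_le_prod
    (fun j _ => av_nonneg fun _ => (exp_pos _).le) fun j _ => mgf_le h (h1 j) l0 l1)
    (exp_pos _).le) (le_of_eq ?_))
  rw [← exp_sum, ← exp_add, sum_add_distrib, ← mul_sum]
  simp [mul_comm, sub_eq_add_neg]

end Pool.Agent.P.MP_d0f69c_mp.XS.Rf
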