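import Pool.Agent.P.MP_d0f69c_mp.XS.RefC
import Pool.Agent.P.MP_d0f69c_mp.XS.Ref1
import Pool.Agent.P.MP_d0f69c_mp.XS.PWn

/-!
Reference block: the symbols of the bare kernel, and translation invariant matrices.
-/

set_option autoImplicit false

open Finset Real Matrix
open scoped ComplexConjugate

namespace Pool.Agent.P.MP_d0f69c_mp.XS.Rf

variable {d M : ℕ} [NeZero M]

/-- the symbol of the adjacency matrix -/
noncomputable abbrev R1 (q : Tor d M) : ℝ := Rw (fun _ => 1) q

/-- distance from the shell -/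
noncomputable def Xs (b : ℝ) (q : Tor d M) : ℝ := b - R1 q

noncomputable def Qs (b : ℝ) (q : Tor d M) : ℝ := 1 - Xs b q ^ 2 / (4 * d) ^ 2

/-- the degree of the filter -/
def nn (d : ℕ) : ℕ := d ^ 2 / 2500

/-- the filter that keeps the shell -/
noncomputable def s2 (b : ℝ) (q : Tor d M) : ℝ := Qs b q ^ nn d

/-- the symbol of the bare kernel -/
noncomputable def As (b : ℝ) (q : Tor d M) : ℝ :=
  Xs b q / (4 * d) ^ 2 * ∑ i ∈ range (nn d), Qs b q ^ i

/-- the symbol of its near part of level `j` -/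
noncomputable def a1s (b : ℝ) (j : ℕ) (q : Tor d M) : ℝ := ∑ i ∈ range (j + 1), R1 q ^ i / b ^ (i + 1)

/-- the matrix with the symbol `F` -/
noncomputable def sm (F : Tor d M → ℂ) : Matrix (Tor d M) (Tor d M) ℂ := circulant (ift F)

/-- the bare kernel -/
noncomputable def A0 (d M : ℕ) [NeZero M] (b : ℝ) : Tor d M → ℂ := ift fun q => As b q

/-- its near part of level `j` -/
noncomputable def a1 (d M : ℕ) [NeZero M] (b : ℝ) (j : ℕ) : Tor d M → ℂ := ift fun q => a1s b j q

theorem eps_eq (q : Tor d M) : eps q = 2 * d - R1 q := by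
  simp [eps, Rw, cw, mul_comm]

theorem R1_eq (q : Tor d M) : R1 q = Ref.vv (fun _ => 1) q := by
  simp [Rw, cw, Ref.vv, Ref.vr]

theorem abs_R1 (q : Tor d M) : |R1 q| ≤ 2 * d := by
  have := eps_mem q
  rw [eps_eq] at this
  exact abs_le.2 ⟨by linarith [this.2], by linarith [this.1]⟩

theorem R1_neg (q : Tor d M) : R1 (-q) = R1 q := by
  have := eps_neg q
  rw [eps_eq, eps_eq] at this
  linarith

theorem Xs_As (b : ℝ) (q : Tor d M) : Xs b q * As b q = 1 - s2 b q := by
  rw [s2, ← mul_neg_geom_sum, As, Qs]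
  ring

theorem Qs_mem {b : ℝ} (hb : |b| ≤ 2 * d) (q : Tor d M) : 0 ≤ Qs b q ∧ Qs b q ≤ 1 := by
  refine ⟨sub_nonneg.2 (div_le_one_of_le₀ ?_ (by positivity)), sub_le_self _ (by positivity)⟩
  have := abs_le.1 (abs_R1 q)
  have := abs_le.1 hb
  exact sq_le_sq' (by rw [Xs]; linarith) (by rw [Xs]; linarith)

theorem sm_apply (F : Tor d M → ℂ) (x y : Tor d M) : sm F x y = ift F (x - y) := rfl

theorem circ_eq (g : Tor d M → ℂ) : circulant g = sm (ft g) := by
  rw [sm, funext (ift_ft g)]

theorem sm_mul (F G : Tor d M → ℂ) : sm F * sm G = sm (F * G) := by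
  ext x y
  have := conv_ift F (ift G) (x - y)
  simp only [ft_ift] at this
  rw [mul_apply, sm_apply, show F * G = fun k => F k * G k from rfl, ← this,
    ← Equiv.sum_comp (Equiv.addRight y)]
  simp only [sm_apply, Equiv.coe_addRight, add_sub_cancel_right, sub_sub, add_comm y]

theorem sm_add (F G : Tor d M → ℂ) : sm F + sm G = sm (F + G) := by
  ext x y
  simp [sm_apply, ift, add_mul, sum_add_distrib, add_div]

theorem sm_smul (c : ℂ) (F : Tor d M → ℂ) : c • sm F = sm (c • F) := by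
  ext x y
  simp [sm_apply, ift, mul_assoc, ← mul_sum, mul_div_assoc]

theorem sm_sub (F G : Tor d M → ℂ) : sm F - sm G = sm (F - G) := by
  ext x y
  simp [sm_apply, ift, sub_mul, sum_sub_distrib, sub_div]

theorem sm_one : sm (1 : Tor d M → ℂ) = 1 := by
  ext x y
  have e := sum_ch (x - y)
  simp only [sub_eq_zero] at e
  simp only [sm_apply, ift, Pi.one_apply, one_mul, e, one_apply, ite_div, div_self (vol_ne d M),
    zero_div]

theorem sm_inv {F : Tor d M → ℂ} (h : ∀ q, F q ≠ 0) : (sm F)⁻¹ = sm fun q => (F q)⁻¹ :=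
  inv_eq_right_inv (by
    rw [sm_mul, ← sm_one]
    exact congrArg sm (funext fun q => mul_inv_cancel₀ (h q)))

theorem sm_unit {F : Tor d M → ℂ} (h : ∀ q, F q ≠ 0) : IsUnit (sm F).det :=
  isUnit_det_of_right_inverse (B := sm fun q => (F q)⁻¹) (by
    rw [sm_mul, ← sm_one]
    exact congrArg sm (funext fun q => mul_inv_cancel₀ (h q)))

theorem sm_inj {F G : Tor d M → ℂ} (h : sm F = sm G) : F = G := by
  rw [← funext (ft_ift F), ← funext (ft_ift G), circulant_injective h]

theorem sm_Lap : (Lap d M).map (fun t : ℝ => (t : ℂ)) = sm fun q => eps q := by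
  ext a y
  have := Lap_ift (fun _ => 1) a y
  simp only [mul_one] at this
  rw [sm_apply, ← this]
  change _ = ∑ b, _ * sm 1 b y
  simp [sm_one, one_apply]

theorem ap_sm (F u : Tor d M → ℂ) : ap univ (sm F) u = ift fun k => F k * ft u k :=
  funext fun x => conv_ift F u x

theorem norm_ift_le (F : Tor d M → ℂ) (x : Tor d M) : ‖ift F x‖ ≤ av fun q => ‖F q‖ := by
  rw [ift, av, norm_div, norm_pow, Complex.norm_natCast]
  simp only [Fintype.card_fun, ZMod.card, Fintype.card_fin, Nat.cast_pow]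
  exact div_le_div_of_nonneg_right ((norm_sum_le _ _).trans_eq (by simp [norm_ch])) (by positivity)

theorem pars_av (F : Tor d M → ℂ) : ∑ x, ‖ift F x‖ ^ 2 = av fun q => ‖F q‖ ^ 2 := by
  simp [pars_sq, av]

/-- the operator norm is bounded by the supremum of the symbol -/
theorem opLe_sm {F : Tor d M → ℂ} {c : ℝ} (h : ∀ q, ‖F q‖ ≤ c) : OpLe univ (sm F) c := fun u => by
  have c0 : 0 ≤ c := (norm_nonneg _).trans (h 0)
  rw [ap_sm, nS, nS, ← sqrt_sq c0, ← sqrt_mul (sq_nonneg c), pars_av, ← funext (ift_ft u),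
    pars_av, ← av_mul, funext (ift_ft u)]
  refine sqrt_le_sqrt (av_mono fun q => ?_)
  rw [norm_mul, mul_pow]
  gcongr
  exact h q

/-- and conversely -/
theorem norm_le_of_opLe {F : Tor d M → ℂ} {c : ℝ} (h : OpLe univ (sm F) c) (q : Tor d M) :
    ‖F q‖ ≤ c := by
  classical
  have := h (ift (Pi.single q 1))
  rw [ap_sm, nS, nS, pars_sq, pars_sq, sum_eq_single q (fun k _ c => by simp [ft_ift, c])
    (by simp), sum_eq_single q (fun k _ c => by simp [c]) (by simp), ft_ift] at this
  simp only [Pi.single_eq_same, mul_one, norm_one, one_pow] at this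
  rw [div_eq_mul_one_div, sqrt_mul (sq_nonneg _), sqrt_sq (norm_nonneg _)] at this
  exact le_of_mul_le_mul_right this (sqrt_pos.2 (one_div_pos.2 (vol_pos d M)))

end Pool.Agent.P.MP_d0f69c_mp.XS.Rf
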