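import Pool.Agent.P.MP_d0f69c_mp.XS.Mcd
import Pool.Agent.P.MP_d0f69c_mp.XS.In4

/-!
Reference block: summation by parts on the dual torus.
-/

set_option autoImplicit false

open Finset Real

namespace Pool.Agent.P.MP_d0f69c_mp.XS.Rf

variable {d M : ℕ} [NeZero M]

/-- the mesh -/
noncomputable def tau (M : ℕ) [NeZero M] : ℝ := ‖ZMod.stdAddChar (1 : ZMod M) - 1‖

/-- a cosine with complex amplitude -/
noncomputable def cw (w : ℂ) (a : ZMod M) : ℝ := 2 * (ZMod.stdAddChar a * w).re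

/-- a sum of cosines -/
noncomputable def Rw (w : Fin d → ℂ) (q : Tor d M) : ℝ := ∑ j, cw (w j) (q j)

/-- the amplitude of the difference quotient -/
noncomputable def rot (M : ℕ) [NeZero M] (w : ℂ) : ℂ :=
  (ZMod.stdAddChar (1 : ZMod M) - 1) / tau M * w

/-- complex average -/
noncomputable def avc {α : Type} [Fintype α] (f : α → ℂ) : ℂ := (∑ x, f x) / Fintype.card α

theorem norm_avc_le {α : Type} [Fintype α] (f : α → ℂ) : ‖avc f‖ ≤ av fun x => ‖f x‖ := by
  rw [avc, av, norm_div, Complex.norm_natCast]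
  exact div_le_div_of_nonneg_right (norm_sum_le _ _) (Nat.cast_nonneg _)

theorem avc_real {α : Type} [Fintype α] (f : α → ℝ) : avc (fun x => (f x : ℂ)) = (av f : ℝ) := by
  simp [avc, av]

theorem tau_pos (h : 3 ≤ M) : 0 < tau M := by
  refine norm_pos_iff.2 (sub_ne_zero.2 fun c => ?_)
  have : Fact (1 < M) := ⟨by omega⟩
  exact one_ne_zero (ZMod.injective_stdAddChar (c.trans (AddChar.map_zero_eq_one _).symm))

theorem norm_rot (h : 3 ≤ M) (w : ℂ) : ‖rot M w‖ = ‖w‖ := by
  have := tau_pos h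
  rw [rot, norm_mul, norm_div, Complex.norm_real, Real.norm_of_nonneg this.le]
  change tau M / tau M * _ = _
  rw [div_self this.ne', one_mul]

theorem cw_succ (h : 3 ≤ M) (w : ℂ) (a : ZMod M) :
    cw w (a + 1) - cw w a = tau M * cw (rot M w) a := by
  have h1 : (tau M : ℂ) ≠ 0 := by exact_mod_cast (tau_pos h).ne'
  have e : ZMod.stdAddChar (a + 1) * w - ZMod.stdAddChar a * w =
      tau M * (ZMod.stdAddChar a * rot M w) := by
    rw [AddChar.map_add_eq_mul, rot]
    field_simp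
  have := congrArg Complex.re e
  rw [Complex.sub_re, Complex.re_ofReal_mul] at this
  unfold cw
  linear_combination 2 * this

theorem abs_cw (w : ℂ) (a : ZMod M) : |cw w a| ≤ 2 * ‖w‖ := by
  rw [cw, abs_mul, abs_two]
  exact mul_le_mul_of_nonneg_left ((Complex.abs_re_le_norm _).trans
    (by rw [norm_mul, norm_e, one_mul])) zero_le_two

theorem sum_e {c : ZMod M} (hc : c ≠ 0) : ∑ a : ZMod M, ZMod.stdAddChar (a * c) = 0 := by
  rw [AddChar.sum_mulShift _ (ZMod.isPrimitive_stdAddChar M), if_neg hc, Nat.cast_zero]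

theorem av_cw (h : 3 ≤ M) (w : ℂ) : av (fun a : ZMod M => cw w a) = 0 := by
  have : Fact (1 < M) := ⟨by omega⟩
  have e := sum_e (M := M) one_ne_zero
  simp only [mul_one] at e
  simp [av, cw, ← mul_sum, ← Complex.re_sum, ← sum_mul, e, -Complex.mul_re]

theorem av_cw_sq (h : 3 ≤ M) (w : ℂ) : av (fun a : ZMod M => cw w a ^ 2) = 2 * ‖w‖ ^ 2 := by
  have h2 : (2 : ZMod M) ≠ 0 := fun c => by
    have := Nat.le_of_dvd two_pos ((ZMod.natCast_eq_zero_iff 2 M).1 (by exact_mod_cast c))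
    omega
  have e : ∀ a : ZMod M, cw w a ^ 2 = 2 * ‖w‖ ^ 2 + 2 * (ZMod.stdAddChar (a * 2) * w ^ 2).re :=
    fun a => by
      have e1 : ‖w‖ ^ 2 = Complex.normSq (ZMod.stdAddChar a * w) := by
        rw [Complex.normSq_eq_norm_sq, norm_mul, norm_e, one_mul]
      rw [e1, mul_two a, AddChar.map_add_eq_mul, ← sq, ← mul_pow, cw]
      generalize ZMod.stdAddChar a * w = z
      simp [Complex.normSq_apply, sq]
      ring
  simp only [e, av_add, av_const, av_mul]
  simp [av, ← Complex.re_sum, ← sum_mul, sum_e h2, -Complex.mul_re]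

theorem av_prod_pi {κ : Type} [Fintype κ] (f : Fin d → κ → ℝ) :
    av (fun q : Fin d → κ => ∏ j, f j (q j)) = ∏ j, av (f j) := by
  simp only [av, prod_div_distrib, prod_univ_sum, Fintype.piFinset_univ]
  simp

theorem av_coord {κ : Type} [Fintype κ] [Nonempty κ] (j : Fin d) (f : κ → ℝ) :
    av (fun q : Fin d → κ => f (q j)) = av f := by
  have h := av_prod_pi (d := d) fun i a => if i = j then f a else 1
  simp only [prod_ite_eq', mem_univ, if_true] at h
  rw [h, prod_eq_single j (fun i _ c => by simp [c, av_const]) (by simp)]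
  simp

theorem av_shift (k : Tor d M) (f : Tor d M → ℝ) : av (fun q => f (q + k)) = av f :=
  av_equiv (Equiv.addRight k) f

/-- a sum of squares of cosines is rarely small -/
theorem pr_bad (h : 3 ≤ M) (hd : 0 < d) {w : Fin d → ℂ} (h1 : ∀ j, ‖w j‖ ≤ 1)
    (h2 : (d : ℝ) / 4 ≤ ∑ j, ‖w j‖ ^ 2) :
    pr (fun q : Tor d M => ∑ j, cw (w j) (q j) ^ 2 < d / 4) ≤ exp (-(d : ℝ) / 512) := by
  have d0 : (0 : ℝ) < d := by exact_mod_cast hd
  have b : ∀ j (a : ZMod M), cw (w j) a ^ 2 ≤ 4 := fun j a => by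
    have := abs_le.1 ((abs_cw (w j) a).trans (show _ ≤ 2 by linarith [h1 j]))
    nlinarith
  have h3 := t_mcd (Fin d) (ZMod M) (fun q => -1 * ∑ j, cw (w j) (q j) ^ 2) (fun _ => 4) (d / 4)
    (16 * d) (by positivity) (by positivity) (by simp; linarith) fun q x k => by
      rw [← mul_sub, ← sum_sub_distrib, sum_eq_single x (fun j _ c => by simp [c]) (by simp)]
      simp only [Function.update_self]
      rw [abs_le]
      constructor <;> nlinarith [b x k, b x (q x), sq_nonneg (cw (w x) k), sq_nonneg (cw (w x) (q x))]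
  refine (pr_mono fun q hq => ?_).trans (h3.trans (le_of_eq ?_))
  · rw [av_mul, av_sum]
    simp only [fun j => av_coord j fun a : ZMod M => cw (w j) a ^ 2, av_cw_sq h, ← mul_sum]
    linarith
  · congr 1
    field_simp
    ring

theorem Rw_succ (h : 3 ≤ M) (w : Fin d → ℂ) (q : Tor d M) (j : Fin d) :
    Rw w (q + Pi.single j 1) - Rw w q = tau M * cw (rot M (w j)) (q j) := by
  rw [Rw, Rw, ← sum_sub_distrib, sum_eq_single j (fun i _ c => by simp [c]) (by simp)]
  simpa using cw_succ h (w j) (q j)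

/-- summation by parts -/
theorem ibp (h : 3 ≤ M) (hd : 128 ≤ d) {w : Fin d → ℂ} (h1 : ∀ j, ‖w j‖ ≤ 1)
    (h2 : (d : ℝ) / 4 ≤ ∑ j, ‖w j‖ ^ 2) (f g : Tor d M → ℂ) (r : Tor d M → ℝ) {Γ : ℝ}
    (hg : ∀ q, ‖g q‖ ≤ Γ)
    (hf : ∀ q j, ‖f (q + Pi.single j 1) - f q - tau M * cw (rot M (w j)) (q j) * g q‖ ≤
      tau M * r q) :
    ‖avc g‖ ≤ 10 * av (fun q => ‖f q‖) + 8 * av r + Γ * exp (-(d : ℝ) / 512) := by
  classical
  have t0 := tau_pos h
  have d0 : (128 : ℝ) ≤ d := by exact_mod_cast hd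
  set u : Fin d → ZMod M → ℝ := fun j => cw (rot M (w j)) with hu
  have u2 : ∀ j a, |u j a| ≤ 2 := fun j a =>
    (abs_cw _ a).trans (by rw [norm_rot h]; linarith [h1 j])
  have u3 : ∀ j a, |u j (a + 1) - u j a| ≤ tau M * 2 := fun j a => by
    rw [hu, cw_succ h, abs_mul, abs_of_pos t0]
    exact mul_le_mul_of_nonneg_left ((abs_cw _ a).trans
      (by rw [norm_rot h, norm_rot h]; linarith [h1 j])) t0.le
  set m : Tor d M → ℝ := fun q => max (∑ j, u j (q j) ^ 2) (d / 4) with hm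
  have m0 : ∀ q, (d : ℝ) / 4 ≤ m q := fun q => le_max_right _ _
  have m1 : ∀ q, 0 < m q := fun q => lt_of_lt_of_le (by positivity) (m0 q)
  have m2 : ∀ q, (m q)⁻¹ ≤ 4 / d := fun q => by
    simpa using inv_anti₀ (by positivity) (m0 q)
  set b : Fin d → Tor d M → ℝ := fun j q => u j (q j) * (m q)⁻¹ with hb
  have b1 : ∀ j q, |b j q| ≤ 8 / d := fun j q => by
    rw [hb, abs_mul, abs_of_pos (inv_pos.2 (m1 q))]
    exact (mul_le_mul (u2 _ _) (m2 q) (inv_pos.2 (m1 q)).le zero_le_two).trans_eq (by ring)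
  have b2 : ∀ j q, |b j q - b j (q + Pi.single j 1)| ≤ 10 * tau M / d := fun j q => by
    set q' := q + Pi.single j 1 with hq
    have e0 : q' j = q j + 1 := by simp [hq]
    have a1 := u3 j (q j)
    have a2 : |m q' - m q| ≤ tau M * 2 * 4 := by
      refine (abs_max_sub_max_le_abs _ _ _).trans ?_
      rw [← sum_sub_distrib, sum_eq_single j (fun i _ c => by simp [hq, c]) (by simp), e0,
        sq_sub_sq, abs_mul, mul_comm]
      exact mul_le_mul a1 ((abs_add_le _ _).trans (by linarith [u2 j (q j), u2 j (q j + 1)]))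
        (abs_nonneg _) (by positivity)
    have e : b j q - b j q' = -(u j (q j + 1) - u j (q j)) * (m q')⁻¹ +
        u j (q j) * ((m q' - m q) * ((m q)⁻¹ * (m q')⁻¹)) := by
      have := (m1 q).ne'
      have := (m1 q').ne'
      simp only [hb, e0]
      field_simp
      ring
    have i1 := inv_pos.2 (m1 q)
    have i2 := inv_pos.2 (m1 q')
    rw [e]
    refine (abs_add_le _ _).trans ?_
    rw [abs_mul, abs_mul, abs_mul, abs_neg, abs_of_pos i2, abs_of_pos (mul_pos i1 i2)]
    calc _ ≤ tau M * 2 * (4 / d) + 2 * (tau M * 2 * 4 * (4 / d * (4 / d))) := by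
          gcongr
          exacts [m2 _, u2 _ _, m2 _, m2 _]
      _ = (8 + 256 / d) * tau M / d := by ring
      _ ≤ _ := by
          gcongr
          have : 256 / (d : ℝ) ≤ 2 := by rw [div_le_iff₀ (by linarith)]; linarith
          linarith
  have r0 : ∀ q, 0 ≤ r q := fun q =>
    nonneg_of_mul_nonneg_right ((norm_nonneg _).trans (hf q ⟨0, by omega⟩)) t0 
  have k1 : ∀ j, ‖∑ q, (tau M * (b j q * u j (q j)) : ℝ) * g q‖ ≤
      10 * tau M / d * ∑ q, ‖f q‖ + 8 / d * (tau M * ∑ q, r q) := fun j => by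
    have e1 := Equiv.sum_comp (Equiv.addRight (Pi.single j 1 : Tor d M)) fun q => (b j q : ℂ) * f q
    have e2 := Equiv.sum_comp (Equiv.addRight (Pi.single j 1 : Tor d M)) fun q => ‖f q‖
    simp only [Equiv.coe_addRight] at e1 e2
    have e3 : ∑ q, (tau M * (b j q * u j (q j)) : ℝ) * g q =
        ∑ q, ((b j q - b j (q + Pi.single j 1) : ℝ) * f (q + Pi.single j 1) -
          b j q * (f (q + Pi.single j 1) - f q - tau M * u j (q j) * g q)) := by
      simp only [Complex.ofReal_sub, sub_mul, mul_sub, sum_sub_distrib, e1]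
      simp only [Complex.ofReal_mul, mul_assoc, mul_left_comm]
      ring
    rw [e3, ← e2, mul_sum, mul_sum, mul_sum, ← sum_add_distrib]
    refine (norm_sum_le _ _).trans (sum_le_sum fun q _ => (norm_sub_le _ _).trans ?_)
    rw [norm_mul, norm_mul, Complex.norm_real, Complex.norm_real]
    exact add_le_add (mul_le_mul_of_nonneg_right (b2 j q) (norm_nonneg _))
      (mul_le_mul (b1 j q) (hf q j) (norm_nonneg _) (by positivity))
  set σ : Tor d M → ℝ := fun q => (∑ j, u j (q j) ^ 2) * (m q)⁻¹ with hσ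
  have k2 : ‖∑ q, (σ q : ℂ) * g q‖ ≤ 10 * ∑ q, ‖f q‖ + 8 * ∑ q, r q := by
    refine le_of_mul_le_mul_left ?_ t0
    have e : (tau M : ℂ) * ∑ q, (σ q : ℂ) * g q =
        ∑ j, ∑ q, (tau M * (b j q * u j (q j)) : ℝ) * g q := by
      rw [sum_comm, mul_sum]
      refine sum_congr rfl fun q _ => ?_
      rw [← sum_mul, ← Complex.ofReal_sum, ← mul_sum, ← mul_assoc, ← Complex.ofReal_mul, hσ]
      simp only [sum_mul, hb, sq, mul_right_comm]
    have e' := congrArg norm e
    rw [norm_mul, Complex.norm_real, Real.norm_of_nonneg t0.le] at e'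
    rw [e']
    refine ((norm_sum_le _ _).trans (sum_le_sum fun j _ => k1 j)).trans_eq ?_
    simp only [sum_const, card_univ, Fintype.card_fin, nsmul_eq_mul]
    field_simp
  have k3 : ‖avc fun q => (σ q : ℂ) * g q‖ ≤ 10 * av (fun q => ‖f q‖) + 8 * av r := by
    rw [avc, av, av, norm_div, Complex.norm_natCast, mul_div_assoc', mul_div_assoc', ← add_div]
    exact div_le_div_of_nonneg_right k2 (Nat.cast_nonneg _)
  have e : avc g = avc (fun q => (σ q : ℂ) * g q) + avc fun q => (1 - σ q : ℝ) * g q := by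
    simp only [avc, ← add_div, ← sum_add_distrib, ← add_mul]
    simp
  have G0 : 0 ≤ Γ := (norm_nonneg _).trans (hg 0)
  rw [e]
  refine (norm_add_le _ _).trans (add_le_add k3 ((norm_avc_le _).trans (le_trans ?_
    (mul_le_mul_of_nonneg_left (pr_bad h (by omega) (w := fun j => rot M (w j))
      (fun j => by rw [norm_rot h]; exact h1 j) (by simpa only [norm_rot h] using h2)) G0))))
  rw [pr_eq_av, ← av_mul]
  refine av_mono fun q => ?_
  rw [norm_mul, Complex.norm_real, mul_comm]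
  refine mul_le_mul (hg q) ?_ (norm_nonneg _) G0
  split_ifs with c
  · have s0 : 0 ≤ σ q := mul_nonneg (sum_nonneg fun _ _ => sq_nonneg _) (inv_pos.2 (m1 q)).le
    have s1 : σ q ≤ 1 := mul_inv_le_one_of_le₀ (le_max_left _ _) (m1 q).le
    exact abs_le.2 ⟨by linarith, by linarith⟩
  · have : m q = ∑ j, u j (q j) ^ 2 := max_eq_left (not_lt.1 c)
    rw [hσ]
    simp only [← this, mul_inv_cancel₀ (m1 q).ne', sub_self, norm_zero, le_rfl]

end Pool.Agent.P.MP_d0f69c_mp.XS.Rf
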