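import Pool.Agent.P.MP_d0f69c_mp.XS.Ref5
import Pool.Agent.P.MP_d0f69c_mp.XS.PS3
import Pool.Agent.P.MP_d0f69c_mp.XS.PS0

/-!
Reference block: symmetries of the averaged scattering matrix.
-/

set_option autoImplicit false

open Finset Real Matrix

namespace Pool.Agent.P.MP_d0f69c_mp.XS.Rf

open Pre

section generic

variable {ι : Type} [Fintype ι] [DecidableEq ι] {A : Matrix ι ι ℂ} {e : ι ≃ ι}

theorem Ss_univ (A : Matrix ι ι ℂ) (w w' : ι → Bool) : Ss A univ w = Ss A univ w' :=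
  EY_fix (fun x hx => absurd (mem_univ x) hx) _

theorem Ww_univ (A : Matrix ι ι ℂ) (w w' : ι → Bool) : Ww A univ w = Ww A univ w' := by
  rw [Ww, Ww, Ss_univ A w w']

theorem al_univ (A : Matrix ι ι ℂ) (w w' : ι → Bool) : Pre.al A univ w = Pre.al A univ w' := by
  rw [Pre.al, Pre.al, Ss_univ A w w']

theorem Ss_sub (h : A.submatrix e e = A) (w : ι → Bool) :
    (Ss A univ w).submatrix e e = Ss A univ w := by
  have k : ∀ z : ι → Bool, (Tt A z).submatrix e e = Tt A (z ∘ e) := fun z => by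
    rw [Tt, Tt, ← inv_submatrix_equiv, submatrix_add, Pi.add_apply, Pi.add_apply, h, Vs,
      submatrix_diagonal_equiv]
    rfl
  have m : ∀ z : ι → Bool, mix univ z w = z := fun z => funext fun x => by simp [mix]
  ext x y
  simp only [Ss, EY, m, submatrix_apply, Matrix.smul_apply, Matrix.sum_apply]
  rw [← Equiv.sum_comp (Equiv.arrowCongr e.symm (Equiv.refl Bool)) fun z => Tt A z x y]
  exact congrArg _ (sum_congr rfl fun z _ => congrFun (congrFun (k z) x) y)

theorem Ww_sub (h : A.submatrix e e = A) (w : ι → Bool) (x y : ι) :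
    Ww A univ w (e x) (e y) = Ww A univ w x y := by
  rw [← submatrix_apply (Ww A univ w) e e, Ww, ← submatrix_mul_equiv _ _ e e e,
    ← inv_submatrix_equiv, submatrix_sub, Pi.sub_apply, Pi.sub_apply, submatrix_one_equiv,
    ← submatrix_mul_equiv _ _ e e e, Ss_sub h, h]

theorem al_sub (h : A.submatrix e e = A) (w : ι → Bool) (x y : ι) :
    Pre.al A univ w (e x) (e y) = Pre.al A univ w x y := by
  rw [← submatrix_apply (Pre.al A univ w) e e, Pre.al, submatrix_sub, Pi.sub_apply, Pi.sub_apply,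
    ← submatrix_mul_equiv _ _ e e e, ← submatrix_mul_equiv _ _ e e e, Ss_sub h, h]

theorem al_ZA (h : KOK A) (Y : Finset ι) (w : ι → Bool) :
    Pre.al A Y w = (1 - Pre.al A Y w * Ww A Y w) * A := by
  rw [Ww, ← Matrix.mul_assoc, Pre.al, al_inv (h.q Y w), Matrix.sub_mul, Matrix.one_mul]

end generic

variable {d M : ℕ} [NeZero M] {B : Finset (Tor d M)} {b γ : ℝ} {g : Tor d M → ℂ}

theorem Ac_add (t : Tor d M) :
    (Ac b g).submatrix (Equiv.addRight t) (Equiv.addRight t) = Ac b g := by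
  ext x y
  simp [Ac, circulant_apply]

theorem Ww_circ (b : ℝ) (g : Tor d M → ℂ) (w : Tor d M → Bool) :
    Ww (Ac b g) univ w = circulant (Zk b g) := by
  ext x y
  rw [circulant_apply, Zk, Ww_univ _ w fun _ => true, ← Ww_sub (Ac_add y) _ (x - y) 0]
  simp

theorem al_circ (b : ℝ) (g : Tor d M → ℂ) (w : Tor d M → Bool) :
    Pre.al (Ac b g) univ w = circulant (ak b g) := by
  ext x y
  rw [circulant_apply, ak, al_univ _ w fun _ => true, ← al_sub (Ac_add y) _ (x - y) 0]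
  simp

theorem oct_A0 (b : ℝ) : Oct (A0 d M b) := ⟨A0_perm b, A0_refl b⟩

theorem Ac_hom (τ : Tor d M ≃+ Tor d M) (h : ∀ x, (A0 d M b + g) (τ x) = (A0 d M b + g) x) :
    (Ac b g).submatrix τ.toEquiv τ.toEquiv = Ac b g := by
  ext x y
  exact (congrArg (A0 d M b + g) (map_sub τ x y).symm).trans (h _)

theorem oct_of (h : Oct g) {F : Matrix (Tor d M) (Tor d M) ℂ}
    (hF : ∀ e : Tor d M ≃ Tor d M, (Ac b g).submatrix e e = Ac b g → ∀ x y, F (e x) (e y) = F x y) :
    Oct fun x => F x 0 := by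
  have o := (oct_A0 b).map₂ h (· + ·)
  exact ⟨fun σ x => (congrArg (F _) (map_zero (pm σ)).symm).trans (hF _ (Ac_hom (pm σ) (o.1 σ)) x 0),
    fun j x => (congrArg (F _) (map_zero (rf j)).symm).trans (hF _ (Ac_hom (rf j) (o.2 j)) x 0)⟩

theorem oct_Zk (h : Oct g) : Oct (Zk b g) := oct_of h fun _ he => Ww_sub he _

theorem oct_ak (h : Oct g) : Oct (ak b g) := oct_of h fun _ he => al_sub he _

theorem Ac_T (h : Oct g) : (Ac b g)ᵀ = Ac b g := by
  ext x y
  simp only [Ac, transpose_apply, circulant_apply, Pi.add_apply]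
  rw [← neg_sub x y, A0_neg, h.neg]

theorem Ac_H (h : Oct g) : (Ac b g)ᴴ = Ac b (star g) := by
  ext x y
  simp only [Ac, conjTranspose_apply, circulant_apply, Pi.add_apply, Pi.star_apply, star_add]
  rw [← neg_sub x y, A0_neg, h.neg]
  exact congrArg (· + _) (A0_conj b _)

theorem Zk_star (h : Oct g) (k : KOK (Ac b g)) : Zk b (star g) = star (Zk b g) := funext fun x => by
  rw [Zk, ← Ac_H h, k.Ww_H, conjTranspose_apply, ← k.Ww_T, transpose_apply]
  rfl

theorem ak_star (h : Oct g) (k : KOK (Ac b g)) : ak b (star g) = star (ak b g) := funext fun x => by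
  rw [ak, ← Ac_H h, al_H, conjTranspose_apply, ← k.al_T, transpose_apply]
  rfl

theorem Ac_sm (b : ℝ) (g : Tor d M → ℂ) : Ac b g = sm fun q => As b q + ft g q := by
  rw [Ac, circulant_add, circ_eq g]
  exact sm_add _ _

theorem ak_id (k : KOK (Ac b g)) (q : Tor d M) :
    ft (ak b g) q = (1 - ft (ak b g) q * ft (Zk b g) q) * (As b q + ft g q) := by
  have := al_ZA k univ fun _ => true
  rw [al_circ, Ww_circ, circ_eq, circ_eq, Ac_sm, sm_mul, ← sm_one, sm_sub, sm_mul] at this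
  exact congrFun (sm_inj this) q

theorem ak_sup {r : Tor d M → Tor d M → ℝ} (k : SmK r (Ac b g) (1 / 100)) (q : Tor d M) :
    ‖ft (ak b g) q‖ ≤ 1 / 50 := by
  have := (k.wal univ fun _ => true).opLe k.pm
  rw [al_circ, circ_eq] at this
  exact (norm_le_of_opLe this q).trans (by norm_num)

/-- the Green function of the initial state -/
theorem GP_eq {η E : ℝ} (hi : (Zk b g 0).im = -η) (h0 : (Zk b 0 (0 : Tor d M)).im = 0)
    (hn : ∀ q, Yw b (fun _ => 1) (ze (Zk b) g (Zk b 0 (0 : Tor d M) - η * Complex.I +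
      (2 * d - b + (Zk b g 0).re - (Zk b 0 (0 : Tor d M)).re - E : ℝ))) q ≠ 0) (w : Tor d M → Bool) :
    cr (Hn (Lap d M) 1 E) + Ww (Ac b g) univ w = sm (Yw b (fun _ => 1) (ze (Zk b) g
      (Zk b 0 (0 : Tor d M) - η * Complex.I + (2 * d - b + (Zk b g 0).re - (Zk b 0 (0 : Tor d M)).re - E : ℝ)))) ∧
    (cr (Hn (Lap d M) 1 E) + Ww (Ac b g) univ w)⁻¹ = circulant (ift (Gs b (ze (Zk b) g
      (Zk b 0 (0 : Tor d M) - η * Complex.I + (2 * d - b + (Zk b g 0).re - (Zk b 0 (0 : Tor d M)).re - E : ℝ))))) := by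
  have e1 : cr (Hn (Lap d M) 1 E) = (Lap d M).map (fun t : ℝ => (t : ℂ)) - (E : ℂ) • 1 := by
    ext x y
    by_cases c : x = y <;> simp [cr, Hn, c]
  have e2 : cr (Hn (Lap d M) 1 E) + Ww (Ac b g) univ w = sm (Yw b (fun _ => 1) (ze (Zk b) g
      (Zk b 0 (0 : Tor d M) - η * Complex.I +
        (2 * d - b + (Zk b g 0).re - (Zk b 0 (0 : Tor d M)).re - E : ℝ)))) := by
    rw [e1, sm_Lap, Ww_circ, circ_eq, ← sm_one, sm_smul, sm_sub, sm_add]
    congr 1
    funext q
    apply Complex.ext <;> simp [Yw, ze, eps_eq, hi, h0]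
    ring
  exact ⟨e2, by rw [e2, sm_inv hn]; rfl⟩

end Pool.Agent.P.MP_d0f69c_mp.XS.Rf
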