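import Pool.Agent.P.MP_d0f69c_mp.XS.RefD
import Pool.Agent.P.MP_d0f69c_mp.XS.RefG

/-!
Reference block: decay and second moment of the reference Green function.
-/

set_option autoImplicit false

open Finset Real
open scoped ComplexConjugate

namespace Pool.Agent.P.MP_d0f69c_mp.XS.Pre

variable {ι : Type} [Fintype ι] {r : ι → ι → ℝ} {A G : Matrix ι ι ℂ} {c g t : ℝ}

/-- small weights change a kernel by a small operator -/
theorem WN.slope (h : WN r A c) (hr : PM r) (hc : 0 ≤ c) {ρ : ι → ℝ}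
    (hρ : ∀ x y, ρ x - ρ y ≤ r x y) (t0 : 0 ≤ t) (t1 : t < 1) :
    OpLe univ (cj (fun x => t * ρ x) A - A) (2 * c * t) := fun u => by
  set w := ap univ (cj (fun x => t * ρ x) A - A) u with hw
  let f : ℂ → ℂ := fun z => ∑ x, conj (w x) * ∑ y, Complex.exp (z * (ρ x - ρ y : ℝ)) * A x y * u y
  have hb : ∀ z : ℂ, ‖z‖ < 1 → ‖f z‖ ≤ nS univ w * (c * nS univ u) := fun z hz => by
    have z1 := abs_le.1 ((Complex.abs_re_le_norm z).trans hz.le)
    have a := ((h (fun x => z.re * ρ x) fun x y => by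
      have b1 := hρ x y
      have b2 := hρ y x
      rw [hr.symm] at b2
      rcases le_total 0 z.re with e | e <;> nlinarith [hr.nonneg x y]).left
      (a := fun x => Complex.exp ((z.im * ρ x : ℝ) * Complex.I)) zero_le_one
      fun x _ => (Complex.norm_exp_ofReal_mul_I _).le).right (by positivity)
      (a := fun x => Complex.exp ((-(z.im * ρ x) : ℝ) * Complex.I)) zero_le_one
      (fun x _ => (Complex.norm_exp_ofReal_mul_I _).le) u
    rw [one_mul, mul_one] at a
    refine (nS_cs univ _ _).trans (mul_le_mul (by simp [nS]) (le_of_eq_of_le (nS_congr fun x _ =>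
      sum_congr rfl fun y _ => ?_) a) (nS_nonneg _ _) (nS_nonneg _ _))
    have e : z * (ρ x - ρ y : ℝ) = (z.im * ρ x : ℝ) * Complex.I + (z.re * ρ x - z.re * ρ y : ℝ) +
        (-(z.im * ρ y) : ℝ) * Complex.I := by
      conv_lhs => rw [← Complex.re_add_im z]
      push_cast
      ring
    simp only [cj]
    rw [e, Complex.exp_add, Complex.exp_add, Complex.ofReal_exp]
    ring
  have s := Complex.dist_le_div_mul_dist_of_mapsTo_ball (f := f) (c := 0) (R₁ := 1)
    (R₂ := 2 * (nS univ w * (c * nS univ u))) (by fun_prop) (fun z hz => by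
      rw [Metric.mem_closedBall, dist_eq_norm]
      linarith [norm_sub_le (f z) (f 0), hb z (by simpa using hz), hb 0 (by simp)])
    (z := t) (by simpa [abs_of_nonneg t0] using t1)
  have e : f t - f 0 = (nS univ w ^ 2 : ℝ) := by
    rw [nS_sq, ← sum_sub_distrib]
    push_cast
    refine sum_congr rfl fun x _ => ?_
    rw [← Complex.conj_mul', ← mul_sub, ← sum_sub_distrib, hw]
    refine congrArg _ (sum_congr rfl fun y _ => ?_)
    simp only [cj, Matrix.sub_apply, ← mul_sub, Complex.ofReal_exp]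
    push_cast
    simp [sub_mul]
  rw [dist_eq_norm, e, Complex.norm_real, Real.norm_of_nonneg (sq_nonneg _), div_one,
    dist_zero_right, Complex.norm_real, Real.norm_of_nonneg t0] at s
  rcases (nS_nonneg univ w).eq_or_lt with h2 | h2
  · rw [← h2]; exact mul_nonneg (by positivity) (nS_nonneg _ _)
  · exact le_of_mul_le_mul_left (by linarith) h2

/-- the estimate of Combes and Thomas -/
theorem WN.inv_of [DecidableEq ι] (h : WN r A c) (hr : PM r) (hc : 0 ≤ c) (e : G * A = 1)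
    (hG : OpLe univ G g) (g0 : 0 ≤ g) (t0 : 0 < t) (t1 : t < 1) (hs : 4 * c * t * g ≤ 1) :
    WN (fun x y => t * r x y) G (2 * g) := fun ρ hρ => by
  have a := h.slope hr hc (ρ := fun x => ρ x / t) (fun x y => by
    rw [← sub_div, div_le_iff₀' t0]; exact hρ x y) t0.le t1
  simp only [mul_div_cancel₀ _ t0.ne'] at a
  have a1 := (opLe_mul hG a g0).mono (s := 1 / 2) (by linarith)
  have e1 : (1 + G * (cj ρ A - A)) * cj ρ G = G := by
    rw [mul_sub, e, add_sub_cancel, mul_assoc, ← cj_mul, mul_eq_one_comm.1 e, cj_one, mul_one]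
  have u := unit_of_opLe a1 (by norm_num)
  have a2 := opLe_mul (opLe_of_left a1 (by norm_num) (Matrix.mul_nonsing_inv _ u)) hG (by norm_num)
  have e2 : cj ρ G = (1 + G * (cj ρ A - A))⁻¹ * G :=
    (Matrix.nonsing_inv_mul_cancel_left _ _ u).symm.trans (congrArg _ e1)
  rw [e2]
  exact a2.mono (le_of_eq (by ring))

end Pool.Agent.P.MP_d0f69c_mp.XS.Pre

namespace Pool.Agent.P.MP_d0f69c_mp.XS.Rf

open Pre

variable {d M : ℕ} [NeZero M] {η ω b c La l : ℝ} {ζ a : Tor d M → ℂ}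

omit [NeZero M] in
theorem Lap_rng {x y : Tor d M} (h : Lap d M x y ≠ 0) : nm (x - y) ≤ 1 := by
  by_contra c
  have h1 : x ≠ y := fun e => c (by rw [e, nm_self]; omega)
  have h2 : ∀ i, y ≠ x + Pi.single i 1 := fun i e => c (by
    rw [e, nm_comm, add_sub_cancel_left]; exact tn_single i)
  have h3 : ∀ i, y ≠ x - Pi.single i 1 := fun i e => c (by
    rw [e, sub_sub_cancel]; exact tn_single i)
  simp [Lap, h1.symm, h2, h3] at h

theorem sm_XL (b : ℝ) : sm (fun q : Tor d M => (Xs b q : ℂ)) =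
    (Lap d M).map (fun t : ℝ => (t : ℂ)) + ((b - 2 * d : ℝ) : ℂ) • 1 := by
  rw [sm_Lap, ← sm_one, sm_smul, sm_add]
  congr 1
  funext q
  simp [Xs, eps_eq]

theorem wn_Xs (hb : |b| ≤ 2 * d) (hL : 1 ≤ La) :
    WN (fun x y : Tor d M => (nm (x - y) : ℝ) / La) (sm fun q => (Xs b q : ℂ)) (32 * d) := by
  refine (WN.of_range (pm_nm d M (by linarith)) (opLe_sm (c := 4 * d) fun q => ?_) (by positivity)
    one_pos fun x y e => ?_).mono ?_
  · rw [Complex.norm_real, Xs]
    linarith [abs_sub b (R1 q), abs_R1 q, Real.norm_eq_abs (b - R1 q)]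
  · rw [div_le_one (by linarith)]
    refine le_trans ?_ hL
    by_cases e1 : x = y
    · rw [e1, nm_self]; simp
    · exact_mod_cast Lap_rng fun e2 => e (by simp [sm_XL, e1, e2])
  · have := exp_one_lt_d9
    rw [two_mul, exp_add]
    nlinarith [Nat.cast_nonneg (α := ℝ) d, mul_le_mul this.le this.le (exp_pos 1).le (by norm_num)]

/-- weighted bound for the inverse symbol -/
theorem SyH.wn (h : SyH η ω ζ) (hb : |b| ≤ 2 * d) (hL : 1 ≤ La) (hc : c ≤ d)
    (hz : WN (fun x y : Tor d M => (nm (x - y) : ℝ) / La) (sm ζ) c) (hl : 264 * d * La / η ≤ l) :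
    WN (fun x y : Tor d M => (nm (x - y) : ℝ) / l) (sm fun q => (Yw b (fun _ => 1) ζ q)⁻¹)
      (4 / η) := by
  have d0 : (128 : ℝ) ≤ d := by exact_mod_cast h.hd
  have η0 := h.η0
  have a := (wn_Xs hb hL).add (hz.mono hc)
  rw [sm_add] at a
  refine ((a.inv_of (pm_nm d M (by linarith)) (by positivity) (t := η / (264 * d)) ?_
    (opLe_sm h.inv_le) (by positivity) (by positivity) ?_ (le_of_eq ?_)).weak fun x y => ?_).mono
    (le_of_eq (by ring))
  · rw [sm_mul, ← sm_one]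
    exact congrArg _ (funext fun q => inv_mul_cancel₀ (h.ne q))
  · rw [div_lt_one (by positivity)]
    linarith [h.η1]
  · field_simp
    norm_num
  · refine (div_le_div_of_nonneg_left (Nat.cast_nonneg _) (by positivity) hl).trans_eq ?_
    field_simp

theorem dec_of_wn {G : Matrix (Tor d M) (Tor d M) ℂ} {l : ℕ}
    (h : WN (fun x y : Tor d M => (nm (x - y) : ℝ) / l) G c) (O : Finset (Tor d M)) :
    Dec G O c l := fun x _ z => by
  rw [neg_div]
  exact h.entry (pm_nm d M (Nat.cast_nonneg _)) x z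

/-- decay of the reference Green function -/
theorem SyH.dec (h : SyH η ω ζ) (hb : |b| ≤ 2 * d) (hL : 1 ≤ La) (hc : c ≤ d)
    (hz : WN (fun x y : Tor d M => (nm (x - y) : ℝ) / La) (sm ζ) c) {l : ℕ}
    (hl : 264 * d * La / η ≤ l) (O : Finset (Tor d M)) :
    Dec (sm fun q => (Yw b (fun _ => 1) ζ q)⁻¹) O (4 / η) l := dec_of_wn (h.wn hb hL hc hz hl) O

theorem rh_le_e (k : ZMod M) : 4 * rh k ≤ ‖ZMod.stdAddChar k - 1‖ := by
  have := norm_e_add (.inr rfl) k
  rw [Complex.ofReal_neg, Complex.ofReal_one, ← sub_eq_add_neg] at this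
  linarith [al_ge1 k]

theorem tau_mesh (M : ℕ) [NeZero M] : tau M ≤ 7 / M := by
  have := norm_e_mul (1 : ZMod M) 1
  have e : rh (1 : ZMod M) ≤ 1 / M := div_le_div_of_nonneg_right (by
    have := natAbs_vma_le (1 : ZMod M) 1 (by simp)
    rw [← Int.cast_abs, Int.abs_eq_natAbs]
    exact_mod_cast this) (M_pos M).le
  simp only [Int.cast_one, mul_one, abs_one] at this
  refine this.trans ((mul_le_mul (show 2 * π ≤ 7 by linarith [pi_lt_d2]) e (rh_nonneg _)
    (by norm_num)).trans_eq (by ring))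

/-- second moment of a kernel from the increments of its symbol -/
theorem mom_le (hd : 5 ≤ d) (g : Tor d M → ℂ) : ∑ h, ‖ift g h‖ ^ 2 * (nm h : ℝ) ^ 2 ≤
    M ^ 2 / 16 * ∑ j, av fun q => ‖g (q + Pi.single j 1) - g q‖ ^ 2 := by
  have e : ∀ j, av (fun q => ‖g (q + Pi.single j 1) - g q‖ ^ 2) =
      ∑ h, ‖ZMod.stdAddChar (-h j) - 1‖ ^ 2 * ‖ift g h‖ ^ 2 := fun j => by
    have := sum_p fun q => g (q - -Pi.single j 1) - g q
    simp only [ift_shift, norm_mul, mul_pow, ch_neg, ch_comm (Pi.single j 1), ch_single,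
      mul_one] at this
    simp only [sub_neg_eq_add] at this
    exact this.symm
  simp only [e]
  rw [sum_comm, mul_sum]
  refine sum_le_sum fun h _ => ?_
  rw [← sum_mul, ← mul_assoc, mul_comm]
  refine mul_le_mul_of_nonneg_right ?_ (sq_nonneg _)
  obtain ⟨i, hi⟩ := exists_rh hd (-h)
  have a := rh_le_e (-h i)
  rw [← Pi.neg_apply, hi, (tn_NG d M).neg] at a
  refine le_trans ?_ (mul_le_mul_of_nonneg_left ((pow_le_pow_left₀ (by positivity) a 2).trans
    (single_le_sum (f := fun j => ‖ZMod.stdAddChar (-h j) - 1‖ ^ 2) (fun _ _ => sq_nonneg _)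
      (mem_univ i))) (by positivity))
  have := M_pos M
  exact le_of_eq (by field_simp; norm_num)

theorem SyH.mom (h : SyH η ω ζ) : ∑ x, ‖ift (fun q => (Yw b (fun _ => 1) ζ q)⁻¹) x‖ ^ 2 *
    (nm x : ℝ) ^ 2 ≤ 111 * d / η ^ 2 * av fun q => ‖(Yw b (fun _ => 1) ζ q)⁻¹‖ ^ 2 := by
  have η0 := h.η0
  have M0 := M_pos M
  refine (mom_le (by linarith [h.hd]) _).trans ((mul_le_mul_of_nonneg_left (sum_le_card_nsmul _ _
    ((3 * (7 / M) * (2 / η)) ^ 2 * av fun q => ‖(Yw b (fun _ => 1) ζ q)⁻¹‖ ^ 2) fun j _ => ?_)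
    (by positivity)).trans ?_)
  · rw [← av_mul]
    refine av_mono fun q => ?_
    rw [← mul_pow, inv_sub_inv' (h.ne _) (h.ne _), norm_mul, norm_mul, norm_sub_rev, mul_comm ‖_⁻¹‖]
    gcongr
    · exact (h.step' (by simp) q j).trans (by linarith [tau_mesh M])
    · exact h.inv_le _
  · rw [card_univ, Fintype.card_fin, nsmul_eq_mul, ← mul_assoc, ← mul_assoc]
    refine mul_le_mul_of_nonneg_right ?_ (av_nonneg fun _ => sq_nonneg _)
    field_simp
    nlinarith [Nat.cast_nonneg (α := ℝ) d]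

theorem mom_wn (hL : 0 < La) (h : WN (fun x y : Tor d M => (nm (x - y) : ℝ) / La) (sm a) c) :
    ∑ x, ‖ift a x‖ ^ 2 * (nm x : ℝ) ^ 2 ≤ (La * c) ^ 2 := by
  have k := pow_le_pow_left₀ (nS_nonneg _ _) (h.col (pm_nm d M hL.le) 0) 2
  rw [mul_pow]
  refine le_trans ?_ (mul_le_mul_of_nonneg_left k (sq_nonneg _))
  rw [nS_sq, mul_sum]
  refine sum_le_sum fun x _ => ?_
  rw [sm_apply, sub_zero, norm_mul, Complex.norm_real, Real.norm_of_nonneg (exp_pos _).le,
    ← mul_pow, ← mul_pow, ← mul_assoc, mul_comm]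
  gcongr
  rw [← div_le_iff₀' hL]
  linarith [add_one_le_exp ((nm x : ℝ) / La)]

/-- second moment of the reference kernel -/
theorem SyH.mom_sub (h : SyH η ω ζ) (hL : 0 < La)
    (ha : WN (fun x y : Tor d M => (nm (x - y) : ℝ) / La) (sm a) c) :
    ∑ x, ‖ift (fun q => (Yw b (fun _ => 1) ζ q)⁻¹ - a q) x‖ ^ 2 * (nm x : ℝ) ^ 2 ≤
      222 * d / η ^ 2 * av (fun q => ‖(Yw b (fun _ => 1) ζ q)⁻¹‖ ^ 2) + 2 * (La * c) ^ 2 := by
  have k := add_le_add (mul_le_mul_of_nonneg_left (h.mom (b := b)) zero_le_two)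
    (mul_le_mul_of_nonneg_left (mom_wn hL ha) zero_le_two)
  refine le_trans ?_ (k.trans_eq (by ring))
  rw [mul_sum, mul_sum, ← sum_add_distrib]
  refine sum_le_sum fun x _ => ?_
  have e : ift (fun q => (Yw b (fun _ => 1) ζ q)⁻¹ - a q) x =
      ift (fun q => (Yw b (fun _ => 1) ζ q)⁻¹) x - ift a x := by
    simp only [ift, sub_mul, sum_sub_distrib, sub_div]
  rw [e, ← mul_assoc, ← mul_assoc, ← add_mul]
  refine mul_le_mul_of_nonneg_right ((pow_le_pow_left₀ (norm_nonneg _) (norm_sub_le _ _) 2).trans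
    ?_) (sq_nonneg _)
  nlinarith [sq_nonneg (‖ift (fun q => (Yw b (fun _ => 1) ζ q)⁻¹) x‖ - ‖ift a x‖)]

theorem norm_e_vma (s t : ZMod M) :
    ‖ZMod.stdAddChar (s * t) - 1‖ ≤ s.valMinAbs.natAbs * ‖ZMod.stdAddChar t - 1‖ := by
  have k := norm_pow_sub s.valMinAbs.natAbs (norm_e t)
  rw [← AddChar.map_nsmul_eq_pow, nsmul_eq_mul] at k
  rcases Int.natAbs_eq s.valMinAbs with e | e
  · rwa [← Int.cast_natCast, ← e, ZMod.coe_valMinAbs] at k
  · have e1 : (s.valMinAbs.natAbs : ZMod M) = -s := by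
      rw [← Int.cast_natCast, ← neg_eq_iff_eq_neg.2 e, Int.cast_neg, ZMod.coe_valMinAbs]
    rw [e1, neg_mul, ← conj_e] at k
    refine le_trans (le_of_eq ?_) k
    rw [← Complex.norm_conj, map_sub, map_one]

/-- increments of a symbol from the first moment of its kernel -/
theorem lip_of_mom (h : ∑ x, ‖ift ζ x‖ * nm x ≤ ω) (q : Tor d M) (j : Fin d) (t : ZMod M) :
    ‖ζ (q + Pi.single j t) - ζ q‖ ≤ ω * ‖ZMod.stdAddChar t - 1‖ := by
  rw [← ft_ift ζ q, ← ft_ift ζ (q + _), ft, ft, ← sum_sub_distrib]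
  refine (norm_sum_le _ _).trans (le_trans ?_ (mul_le_mul_of_nonneg_right h (norm_nonneg _)))
  rw [sum_mul]
  refine sum_le_sum fun x _ => ?_
  rw [ch_add', ← mul_sub, ← mul_sub_one, norm_mul, norm_mul, norm_ch, one_mul, mul_assoc,
    ch_comm, ch_single]
  refine mul_le_mul_of_nonneg_left ((norm_e_vma _ _).trans ?_) (norm_nonneg _)
  gcongr
  exact (le_tn (-x) j).trans_eq ((tn_NG d M).neg x)

end Pool.Agent.P.MP_d0f69c_mp.XS.Rf
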