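import Pool.Agent.P.MP_d0f69c_mp.XS.Sch1

/-!
The schedule, part 2: the parameters of every round are admissible.
-/

set_option autoImplicit false
set_option maxRecDepth 8000

open Finset Real

namespace Pool.Agent.P.MP_d0f69c_mp.XS

theorem exp_half (n : ℕ) : exp (1 / 2 * n) ≤ 2 ^ n := by
  rw [← exp_log (show (0 : ℝ) < 2 ^ n by positivity), log_pow, exp_le_exp]
  nlinarith [log_two_gt_d9, Nat.cast_nonneg (α := ℝ) n]

theorem two_pow_exp (n : ℕ) : (2 : ℝ) ^ n ≤ exp (7 / 10 * n) := by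
  rw [← exp_log (show (0 : ℝ) < 2 ^ n by positivity), log_pow, exp_le_exp]
  nlinarith [log_two_lt_d9, Nat.cast_nonneg (α := ℝ) n]

theorem root4 {x y : ℝ} (hx : 0 ≤ x) (hy : 0 ≤ y) (h : x ≤ y ^ 4) : x ^ (1 / 4 : ℝ) ≤ y := by
  refine (rpow_le_rpow hx h (by norm_num)).trans_eq ?_
  rw [← rpow_natCast, ← rpow_mul hy]
  norm_num

variable {d M : ℕ} [NeZero M]

/-- what the schedule needs from the data -/
structure EH (E : Env d M) (U k : ℕ) : Prop where
  big : Big d U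
  P1 : 10 ^ 9 * (d : ℝ) ^ 2 * E.CS ^ 2 ≤ U
  η0 : 1 / (U : ℝ) ^ 550 ≤ E.η
  η1 : E.η ≤ 1
  l0 : E.l0 ≤ U ^ 1100
  rH : E.rH ≤ U ^ 1100
  tail : ∀ D : ℕ, 0 < D →
    ∑ x with D < nm x, E.gt x ^ 2 ≤ 20000 * d * ((E.l0 : ℝ) / D) ^ (1 / 4 : ℝ)
  k1 : 1 ≤ k
  ρ1 : E.ρ1 = 10 * rr U k
  ρs : E.ρs = E.ρ1 ^ 2
  hM : M = E.ρ1 ^ (d + 3)
  Ω : E.Ω = Om d M E.ρ1

omit [NeZero M] in
theorem pq_μ (U k s : ℕ) : (pq U k M s).μ = 1 / (2 ^ s * (U : ℝ) ^ 800) := es_pow U s

omit [NeZero M] in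
theorem pq_Bi (U k s : ℕ) : (pq U k M s).Bi 3 = exp (60 * (s + 2) * (aa U (ep U s) : ℝ) ^ 3) := by
  simp only [Par.Bi, pq]
  rw [← exp_nat_mul, ← exp_add]
  congr 1
  push_cast
  ring

theorem Big.rr_le {U : ℕ} (h : Big d U) (j : ℕ) : 10 * rr U j ≤ aa U j ^ (8000 * (us U j + 2) + 1) := by
  rw [rr, pow_succ', ← mul_assoc]
  exact Nat.mul_le_mul (by have := h.a9 j; omega) (Nat.pow_le_pow_left (us_le U j) _)

namespace EH

variable {E : Env d M} {U k : ℕ} (h : EH E U k)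
include h

theorem u9 : (10 : ℝ) ^ 9 ≤ U := by exact_mod_cast h.big.u

theorem ηpos : 0 < E.η := lt_of_lt_of_le (by have := h.u9; positivity) h.η0

theorem Lg1 (s : ℕ) : 1 ≤ (pq U k M s).Lg E.η :=
  Nat.mul_pos (pow_pos (by have := h.big.a9 (ep U s); simp only [pq]; omega) _)
    (pow_pos (Nat.ceil_pos.2 (one_div_pos.2 h.ηpos)) _)

theorem Lg_le (s : ℕ) : (pq U k M s).Lg E.η ≤ aa U (ep U s) ^ 1160 := by
  have h1 : ⌈1 / E.η⌉₊ ≤ U ^ 550 := Nat.ceil_le.2 (by
    have := h.u9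
    push_cast
    exact (one_div_le h.ηpos (by positivity)).2 h.η0)
  refine (Nat.mul_le_mul_left _ (Nat.pow_le_pow_left
    (h1.trans (Nat.pow_le_pow_left (le_aa U (ep U s)) _)) 2)).trans (le_of_eq ?_)
  simp only [pq]
  ring

omit h in
theorem le_l (s : ℕ) : aa U (ep U s) ^ (8000 * (s + 1)) ≤ (pq U k M s).l :=
  Nat.le_mul_of_pos_right _ (by
    split_ifs
    exacts [NeZero.pos M, one_pos])

theorem le_D (s i : ℕ) : aa U (ep U s) ^ (8000 * (s + 1) + 8) ≤ (pq U k M s).D E.η i := by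
  rw [pow_add, mul_comm]
  exact Nat.mul_le_mul_left _ ((le_l s).trans (Nat.le_mul_of_pos_left _ (pow_pos (h.Lg1 s) _)))

theorem D_le {s : ℕ} (hs : ep U s < k) (i : ℕ) :
    (pq U k M s).D E.η i ≤ aa U (ep U s) ^ (8000 * (s + 1) + 1160 * i + 8) := by
  refine (Nat.mul_le_mul_left _ (Nat.mul_le_mul_right _
    (Nat.pow_le_pow_left (h.Lg_le s) i))).trans (le_of_eq ?_)
  simp only [pq, if_neg hs.not_ge]
  ring

theorem D_rr {s j : ℕ} (hs : ep U s < k) (hj : ep U s ≤ j) :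
    60 * (pq U k M s).D E.η 3 ≤ rr U (j + 1) := by
  have h1 := h.big.ep_le.1 hj
  refine Nat.mul_le_mul_left _ ((h.D_le hs 3).trans ((Nat.pow_le_pow_left (aa_mono U hj) _).trans
    (Nat.pow_le_pow_right (by omega) ?_)))
  simp only [us]
  omega

theorem M_pow : (M : ℝ) ^ d ≤ exp (1 / 2 * aa U k) := by
  have h1 : M ^ d ≤ aa U k ^ ((8000 * (us U k + 2) + 1) * (d + 3) * d) := by
    rw [pow_mul, pow_mul, h.hM, h.ρ1]
    exact Nat.pow_le_pow_left (Nat.pow_le_pow_left (h.big.rr_le k) _) _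
  refine le_trans (by exact_mod_cast h1) (h.big.pw k _ (by norm_num) ?_)
  have h2 : (0 : ℝ) ≤ us U k := Nat.cast_nonneg _
  have h3 : (0 : ℝ) ≤ d := Nat.cast_nonneg _
  push_cast
  calc _ ≤ (10 ^ 8 * (us U k + 1)) * (d + 3) * (d + 3 : ℝ) := by
        gcongr <;> linarith
    _ ≤ _ := by nlinarith [mul_nonneg (sq_nonneg (d + 3 : ℝ)) (add_nonneg h2 zero_le_one)]

theorem J2 (j : ℕ) : 16 * (1 / (2 ^ us U j * (U : ℝ) ^ 800)) ≤ E.η / (aa U j : ℝ) ^ 200 := by
  have u9 := h.u9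
  have a9 := h.big.a9' j
  have h1 : (aa U j : ℝ) ^ 200 ≤ 2 ^ us U j * (U : ℝ) ^ 200 := by
    cases j
    · simp [us, aa]
    · rename_i j
      have h2 : (aa U (j + 1) : ℝ) ≤ (aa U j : ℝ) ^ 2 := by exact_mod_cast h.big.sq_le j
      refine (pow_le_pow_left₀ (by positivity) h2 _).trans ?_
      rw [← pow_mul]
      exact ((h.big.pw1 j _ (c := 1 / 2) (by norm_num) (by norm_num)).trans (exp_half _)).trans
        (le_mul_of_one_le_right (by positivity) (one_le_pow₀ (by linarith)))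
  have h2 : 16 ≤ (U : ℝ) ^ 50 := le_trans (by linarith) (le_self_pow₀ (by linarith) (by norm_num))
  refine le_trans ?_ (div_le_div_of_nonneg_right h.η0 (by positivity))
  rw [mul_one_div, div_div, div_le_div_iff₀ (by positivity) (by positivity)]
  calc _ ≤ (U : ℝ) ^ 50 * ((U : ℝ) ^ 550 * (2 ^ us U j * (U : ℝ) ^ 200)) := by gcongr
    _ = _ := by ring

theorem step (s : ℕ) : 1 / (aa U (ep U s) : ℝ) ^ 2 + 4 / ((s + 1 : ℕ) + U) ≤ 4 / (s + U) := by
  have u9 := h.u9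
  have h1 : (U : ℝ) ≤ aa U (ep U s) := by exact_mod_cast le_aa U _
  have h2 : (s + 1 : ℝ) ≤ aa U (ep U s) := by exact_mod_cast h.big.lt_aa s
  have h3 : (0 : ℝ) ≤ s := Nat.cast_nonneg s
  have h4 : (0 : ℝ) < aa U (ep U s) := by linarith
  push_cast
  rw [← le_sub_iff_add_le, div_sub_div _ _ (by positivity) (by positivity),
    div_le_div_iff₀ (by positivity) (by positivity)]
  nlinarith [mul_le_mul (show (s + U : ℝ) ≤ 2 * aa U (ep U s) by linarith)
    (show (s + 1 + U : ℝ) ≤ 2 * aa U (ep U s) by linarith) (by positivity) (by positivity)]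

theorem ok (s : ℕ) : (pq U k M s).OK E := by
  have u9 := h.u9
  have p1 : (U : ℝ) ≤ aa U (ep U s) := by exact_mod_cast le_aa U _
  have p2 : (s + 1 : ℝ) ≤ aa U (ep U s) := by exact_mod_cast h.big.lt_aa s
  have p3 := h.big.a9 (ep U s)
  have p4 := h.big.lt_aa s
  have s0 : (0 : ℝ) ≤ s := Nat.cast_nonneg s
  have d0 : (0 : ℝ) ≤ d := Nat.cast_nonneg d
  have st := h.step s
  have q1 : (0 : ℝ) ≤ 4 / ((s + 1 : ℕ) + U) := by positivity
  have q2 : 4 / (s + U : ℝ) ≤ 1 / 10 ^ 7 := by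
    rw [div_le_iff₀ (by positivity)]
    linarith
  have q3 : (U : ℝ) ^ 800 ≤ exp (1 / 4 * aa U (ep U s)) :=
    (pow_le_pow_left₀ (by positivity) p1 _).trans (h.big.pw1 _ _ (by norm_num) (by norm_num))
  have l1 : aa U (ep U s) ^ 1100 ≤ (pq U k M s).l :=
    (Nat.pow_le_pow_right (by omega) (show 1100 ≤ 8000 * (s + 1) by omega)).trans (le_l s)
  refine ⟨h.P1.trans p1, div_pos (exp_pos _) (by positivity), ?_, ?_, ?_, ?_, sub_nonneg.2 q2, ?_,
    ?_, ?_, one_le_exp (by positivity), ?_,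
    h.l0.trans ((Nat.pow_le_pow_left (le_aa U _) _).trans l1),
    h.rH.trans ((Nat.pow_le_pow_left (le_aa U _) _).trans l1), fun e => ?_, fun e => ?_, ?_, fun e => ?_⟩
  · simp only [pq, Par.μ, es_pow]
    gcongr
    exacts [one_le_two, h.big.us_ep s]
  · simp only [pq, es_pow]
    exact h.J2 _
  · rw [pq_μ, exp_neg, one_div]
    refine inv_anti₀ (by positivity) ((mul_le_mul (two_pow_exp s) q3 (by positivity)
      (by positivity)).trans ?_)
    rw [← exp_add, exp_le_exp]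
    simp only [pq]
    linarith
  · refine le_trans ?_ h.η0
    rw [exp_neg, one_div]
    refine inv_anti₀ (by positivity) ((pow_le_pow_right₀ (by linarith) (by norm_num)).trans
      (q3.trans ?_))
    rw [exp_le_exp]
    simp only [pq]
    linarith
  · simp only [pq]
    linarith
  · simp only [pq]
    linarith
  · simp only [pq]
    linarith
  · rw [pq_Bi, exp_le_exp, show ((pq U k M s).P : ℝ) ^ 6 =
      (aa U (ep U s) : ℝ) ^ 3 * (aa U (ep U s) : ℝ) ^ 3 by simp only [pq]; ring]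
    gcongr
    nlinarith [mul_le_mul p2 (show (1000 : ℝ) ≤ (aa U (ep U s) : ℝ) ^ 2 by nlinarith)
      (by norm_num) (by positivity)]
  · have e1 : k ≤ ep U s := by simpa [pq] using e
    have e2 : (aa U k : ℝ) ≤ aa U (ep U s) := by exact_mod_cast aa_mono U e1
    refine ⟨?_, h.M_pow.trans (exp_le_exp.2 ?_)⟩
    · simp only [pq, if_pos e1]
      exact Nat.le_mul_of_pos_left _ (pow_pos (by omega) _)
    · simp only [pq]
      nlinarith
  · have e1 : ep U s < k := by simpa [pq] using e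
    constructor
    · have h1 : (200 * (pq U k M s).D E.η 3 + 1) ^ (d + 2) ≤
          aa U (ep U s) ^ (8000 * (aa U (ep U s) + 1) * (d + 2)) := by
        rw [pow_mul]
        refine Nat.pow_le_pow_left (le_trans ?_ (Nat.pow_le_pow_right (by omega)
          (show 8000 * (s + 1) + 1160 * 3 + 8 + 1 ≤ _ by omega))) _
        have h2 := h.D_le e1 3
        have h3 := Nat.one_le_pow (8000 * (s + 1) + 1160 * 3 + 8) (aa U (ep U s)) (by omega)
        rw [pow_succ]
        nlinarith [Nat.mul_le_mul_left (aa U (ep U s) ^ (8000 * (s + 1) + 1160 * 3 + 8)) p3]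
      refine le_trans (by exact_mod_cast h1) ((h.big.pw' _ _ (c := aa U (ep U s))
        (by positivity) ?_).trans (by simp [pq, sq]))
      push_cast
      calc _ ≤ 8000 * (2 * aa U (ep U s)) * (d + 3 : ℝ) ^ 2 := by
            gcongr <;> nlinarith
        _ ≤ _ := by nlinarith [mul_nonneg (sq_nonneg (d + 3 : ℝ)) (Nat.cast_nonneg (aa U (ep U s)))]
    · obtain ⟨j, rfl⟩ : ∃ j, k = j + 1 := ⟨k - 1, by omega⟩
      have := h.D_rr e1 (Nat.lt_succ_iff.1 e1)
      rw [h.ρ1]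
      omega
  · have D1 := h.le_D s 1
    have D0 : 0 < (pq U k M s).D E.η 1 := (pow_pos (by omega) _).trans_le D1
    have h1 : E.l0 * ((2 ^ s * U ^ 800) ^ 2 * aa U (ep U s) ^ 7) ^ 4 ≤ (pq U k M s).D E.η 1 := calc
      _ = E.l0 * (256 ^ s * U ^ 6400 * aa U (ep U s) ^ 28) := by
        rw [show 256 = 2 ^ 8 by norm_num, ← pow_mul]
        ring
      _ ≤ aa U (ep U s) ^ 1100 * (aa U (ep U s) ^ s * aa U (ep U s) ^ 6400 * aa U (ep U s) ^ 28) := by
        gcongr
        exacts [h.l0.trans (Nat.pow_le_pow_left (le_aa U _) _), by omega, le_aa U _]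
      _ = aa U (ep U s) ^ (s + 7528) := by ring
      _ ≤ _ := (Nat.pow_le_pow_right (by omega) (by omega)).trans D1
    have h2 : ((E.l0 : ℝ) / (pq U k M s).D E.η 1) ^ (1 / 4 : ℝ) ≤
        1 / ((2 ^ s * (U : ℝ) ^ 800) ^ 2 * (aa U (ep U s) : ℝ) ^ 7) := by
      have : (0 : ℝ) < aa U (ep U s) := by linarith
      have : (0 : ℝ) < U := by linarith
      refine root4 (by positivity) (by positivity) ?_
      rw [one_div_pow, div_le_div_iff₀ (Nat.cast_pos.2 D0) (by positivity), one_mul]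
      exact_mod_cast h1
    have h3 : (d : ℝ) ≤ U := by exact_mod_cast h.big.d_le
    refine (h.tail _ D0).trans ((mul_le_mul (show 20000 * (d : ℝ) ≤ (aa U (ep U s) : ℝ) ^ 2 by
      nlinarith) h2 (by positivity) (by positivity)).trans (le_of_eq ?_))
    rw [pq_μ]
    simp only [pq]
    field_simp
  · have e1 : s + 1 = aa U k := by simpa [pq] using e
    have h1 := h.M_pow.trans (exp_half _)
    have h2 : 200 ≤ (U : ℝ) ^ 800 := le_trans (by linarith) (le_self_pow₀ (by linarith) (by norm_num))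
    rw [← e1, pow_succ] at h1
    rw [pq_μ, mul_one_div, div_le_iff₀ (by positivity)]
    nlinarith [mul_le_mul_of_nonneg_left h2 (show (0 : ℝ) ≤ 2 ^ s by positivity)]

theorem next {s : ℕ} (hs : s + 1 < aa U k) : (pq U k M s).Next E.η (pq U k M (s + 1)) := by
  have ok := h.ok s
  have m1 : ep U s ≤ ep U (s + 1) := h.big.ep_mono (Nat.le_succ s)
  have m2 := aa_mono U m1
  have p3 := h.big.a9 (ep U s)
  have p4 := h.big.lt_aa s
  have st := h.step s
  have μ1 : (pq U k M (s + 1)).μ = (pq U k M s).μ / 2 := by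
    simp only [pq_μ]
    ring
  refine ⟨μ1, m2, ?_, ?_, ?_, ?_, fun e => ?_, fun e => ?_⟩
  · simp only [pq]
    linarith
  · rw [pq_Bi]
    simp only [pq]
    rw [show ((s + 1 : ℕ) : ℝ) + 1 = s + 2 by push_cast; ring]
    gcongr
  · refine (Nat.mul_le_mul_right _ (Nat.pow_le_pow_left (h.Lg_le s) 3)).trans ?_
    have e1 : ∀ a n m : ℕ, (a ^ 1160) ^ 3 * (a ^ n * m) = a ^ (n + 3480) * m := fun a n m => by ring
    simp only [pq, e1]
    refine Nat.mul_le_mul ((Nat.pow_le_pow_left m2 _).trans (Nat.pow_le_pow_right (by omega)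
      (by omega))) ?_
    split_ifs with a b
    exacts [le_rfl, absurd (a.trans m1) b, NeZero.pos M, le_rfl]
  · have m3 : (pq U k M (s + 1)).P ≤ (pq U k M s).P ^ 2 :=
      (aa_mono U (h.big.ep_le.2 (by
        have := h.big.us3 (ep U s + 1)
        simp only [us] at this
        omega))).trans (h.big.sq_le _)
    have m4 : ((pq U k M (s + 1)).P : ℝ) ^ 10 ≤ ((pq U k M s).P : ℝ) ^ 20 := by
      exact_mod_cast (Nat.pow_le_pow_left m3 10).trans_eq (by ring)
    have m5 : (0 : ℝ) < (pq U k M (s + 1)).P := lt_of_lt_of_le (by norm_num) (h.big.a9' _)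
    have m6 : (10 : ℝ) ^ 9 ≤ (pq U k M s).P := h.big.a9' _
    have η0 := h.ηpos
    have η1 := h.η1
    rw [Par.misIn, μ1, le_div_iff₀ (by positivity)]
    generalize pq U k M s = q at *
    have μ0 := ok.μpos
    have e0 := ok.e0
    have P1 : (1 : ℝ) ≤ q.P := by linarith
    have a1 : 82 * q.μ * (q.P : ℝ) ^ 59 ≤ √(E.η * (q.μ / 2)) := by
      refine le_sqrt_of_sq_le ?_
      have b1 := (le_div_iff₀ (by positivity)).1 (ok.μ_le.trans ok.J2)
      have b2 : 2 * 82 ^ 2 * (q.P : ℝ) ^ 118 ≤ (q.P : ℝ) ^ 200 := calc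
        _ ≤ q.P * (q.P : ℝ) ^ 118 := by gcongr; linarith
        _ = (q.P : ℝ) ^ 119 := by ring
        _ ≤ _ := pow_le_pow_right₀ P1 (by norm_num)
      calc _ = q.μ * (2 * 82 ^ 2 * (q.P : ℝ) ^ 118) * (q.μ / 2) := by ring
        _ ≤ q.μ * (q.P : ℝ) ^ 200 * (q.μ / 2) := by gcongr
        _ ≤ _ := by gcongr
    have a2 : q.late E.η → 20 * q.e ^ 120 * (q.P : ℝ) ^ 20 ≤ √(E.η * (q.μ / 2)) := fun hl => by
      refine le_sqrt_of_sq_le ?_
      have b1 := (le_div_iff₀ (by positivity)).1 hl.2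
      have b2 : (800 : ℝ) ≤ (q.P : ℝ) ^ 20 := le_trans (by linarith) (le_self_pow₀ P1 (by norm_num))
      have b3 : 800 * q.e ≤ 1 := by nlinarith
      calc _ = 800 * q.e * q.e ^ 37 * (q.e * (q.P : ℝ) ^ 20) * (q.e * (q.P : ℝ) ^ 20) *
            (q.e ^ 200 / 2) := by ring
        _ ≤ 1 * 1 * 1 * E.η * (q.e ^ 200 / 2) := by
          gcongr
          exacts [pow_le_one₀ e0.le (by linarith), b1.trans η1]
        _ = _ := by rw [Par.μ]; ring
    refine (mul_le_mul_of_nonneg_left m4 (by unfold Par.misOut; split_ifs <;> positivity)).trans ?_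
    unfold Par.misOut
    split_ifs with c
    · linarith [a2 c]
    · linarith [sqrt_nonneg (E.η * (q.μ / 2))]
  · have e1 : s + 1 ≠ us U (ep U (s + 1)) := by simpa [pq] using e
    have e2 : ep U (s + 1) = ep U s :=
      le_antisymm (h.big.le_ep.2 (by have := h.big.us_ep (s + 1); omega)) m1
    simp only [pq, e2, true_and, and_true]
    linarith
  · have e1 : s + 1 = us U (ep U (s + 1)) := by simpa [pq] using e
    have e2 := us_mono U (h.big.ep_le.2 hs)
    simp only [pq, decide_eq_false_iff_not, h.big.le_ep]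
    omega

end EH

end Pool.Agent.P.MP_d0f69c_mp.XS
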