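import Pool.Agent.P.MP_d0f69c_mp.XS.Sch2

/-!
The schedule, part 3: the schedule is admissible.
-/

set_option autoImplicit false
set_option maxRecDepth 8000

open Finset Real

namespace Pool.Agent.P.MP_d0f69c_mp.XS

theorem exp_small {y c : ℝ} (j : ℕ) (hc : 0 < c) (h : j + c ≤ y) : exp (-y) ≤ (1 / 2) ^ j / c := by
  have h1 : (2 : ℝ) ^ j * c ≤ exp y := by
    refine (mul_le_mul (two_pow_exp j) (show c ≤ exp c by linarith [add_one_le_exp c]) hc.le
      (exp_pos _).le).trans ?_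
    rw [← exp_add, exp_le_exp]
    linarith [Nat.cast_nonneg (α := ℝ) j]
  rw [exp_neg, one_div_pow, div_div, one_div]
  exact inv_anti₀ (by positivity) h1

variable {d M : ℕ} [NeZero M]

namespace EH

variable {E : Env d M} {U k : ℕ} (h : EH E U k)
include h

theorem ρ_ge : U ≤ E.ρ1 := by
  obtain ⟨j, rfl⟩ : ∃ j, k = j + 1 := ⟨k - 1, by have := h.k1; omega⟩
  have := (le_aa U j).trans (Nat.le_self_pow (show 8000 * (aa U j + 2) ≠ 0 by omega) (aa U j))
  rw [h.ρ1, rr, us]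
  omega

theorem vl_rr (j : ℕ) : (vl d M (rr U (j + 1)) : ℝ) ≤ exp ((aa U j : ℝ) ^ 2 / 2) := by
  have a9 := h.big.a9 j
  have a9' := h.big.a9' j
  have h1 : vl d M (rr U (j + 1)) ≤ aa U j ^ ((8000 * (aa U j + 2) + 1) * d) := by
    rw [pow_mul]
    refine (vol_tn_le _).trans (Nat.pow_le_pow_left ?_ _)
    have := Nat.one_le_pow (8000 * (aa U j + 2)) (aa U j) (by omega)
    rw [rr, us, pow_succ]
    nlinarith [Nat.mul_le_mul_left (aa U j ^ (8000 * (aa U j + 2))) a9]
  refine le_trans (by exact_mod_cast h1) ((h.big.pw' j _ (c := aa U j / 2) (by positivity)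
    ?_).trans_eq (by ring_nf))
  have d0 : (0 : ℝ) ≤ d := Nat.cast_nonneg d
  push_cast
  calc _ ≤ (10 ^ 4 * aa U j) * (d + 3 : ℝ) ^ 2 := by
        gcongr <;> nlinarith
    _ ≤ _ := by nlinarith [mul_nonneg (sq_nonneg (d + 3 : ℝ)) (Nat.cast_nonneg (aa U j))]

theorem sum_ep (j : ℕ) : 8 * ∑ s ∈ Ico (us U j) (aa U j), exp (-((pq U k M s).P : ℝ) ^ 3 / 5) ≤
    exp (aa U j - (aa U j : ℝ) ^ 3 / 5) := by
  have a9 := h.big.a9' j
  have h1 := h.big.pw1 j 2 (c := 1) zero_le_one (by norm_num)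
  rw [sum_congr rfl (g := fun _ => exp (-(aa U j : ℝ) ^ 3 / 5)) fun s hs => by
    simp only [pq, h.big.ep_eq (mem_Ico.1 hs).1 (mem_Ico.1 hs).2], sum_const, Nat.card_Ico,
    nsmul_eq_mul, sub_eq_add_neg, exp_add, ← mul_assoc, neg_div]
  gcongr
  have : ((aa U j - us U j : ℕ) : ℝ) ≤ aa U j := by exact_mod_cast Nat.sub_le _ _
  rw [one_mul] at h1
  nlinarith

theorem win {j s : ℕ} (hj : j < k) (h1 : aa U j / 2 ≤ s) (h2 : s < aa U j) :
    (pq U k M s).late E.η ∧
      5 * rr U j + (pq U k M (us U j)).D E.η 0 ≤ (pq U k M s).D E.η 1 ∧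
      ((aa U j / 3 : ℕ) : ℝ) * (vl d M (5 * rr U j + (pq U k M (us U j)).D E.η 0) : ℝ) ≤
        1 / (pq U k M s).e := by
  have a9 := h.big.a9 j
  have a9' := h.big.a9' j
  have u3 := h.big.us3 j
  have u9 := h.u9
  have e1 := h.big.ep_eq (show us U j ≤ s by omega) h2
  have e2 : es U s ≤ (exp (1 / 1000 * aa U j))⁻¹ := by
    refine (es_le (by have := h.big.u; omega) s).trans ?_
    have : (aa U j : ℝ) ≤ 2 * s + 1 := by exact_mod_cast (show aa U j ≤ 2 * s + 1 by omega)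
    rw [← exp_neg, exp_le_exp]
    linarith
  have e3 : 5 * rr U j + (pq U k M (us U j)).D E.η 0 ≤ aa U j ^ (8000 * (us U j + 2) + 2) := by
    have b1 := h.big.rr_le j
    have b2 := h.D_le (s := us U j) (by rwa [h.big.ep_us]) 0
    rw [h.big.ep_us] at b2
    have b3 := b2.trans (Nat.pow_le_pow_right (by omega)
      (show _ ≤ 8000 * (us U j + 2) + 1 by omega))
    rw [pow_succ]
    nlinarith [Nat.mul_le_mul_left (aa U j ^ (8000 * (us U j + 2) + 1)) a9]
  refine ⟨⟨by simpa [pq, e1] using hj, ?_⟩, e3.trans (le_trans ?_ (h.le_D s 1)), ?_⟩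
  · simp only [pq, e1]
    refine e2.trans (le_trans ?_ (div_le_div_of_nonneg_right h.η0 (by positivity)))
    rw [div_div, one_div (_ * _)]
    refine inv_anti₀ (by positivity) (le_trans ?_ (h.big.pw1 j (550 + 20) (c := 1 / 1000)
      (by norm_num) (by norm_num)))
    rw [pow_add]
    gcongr
    exact le_aa U j
  · rw [e1]
    exact Nat.pow_le_pow_right (by omega) (by omega)
  · have b1 : aa U j / 3 * vl d M (5 * rr U j + (pq U k M (us U j)).D E.η 0) ≤
        aa U j ^ ((8000 * (us U j + 2) + 2 + 1) * d + 1) := by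
      rw [pow_succ', pow_mul]
      refine Nat.mul_le_mul (Nat.div_le_self _ _) ((vol_tn_le _).trans (Nat.pow_le_pow_left ?_ _))
      have := Nat.one_le_pow (8000 * (us U j + 2) + 2) (aa U j) (by omega)
      rw [pow_succ]
      nlinarith [Nat.mul_le_mul_left (aa U j ^ (8000 * (us U j + 2) + 2)) a9]
    refine le_trans (by exact_mod_cast b1) ((h.big.pw j _ (c := 1 / 1000) (by norm_num) ?_).trans ?_)
    · have d0 : (0 : ℝ) ≤ d := Nat.cast_nonneg d
      have u0 : (0 : ℝ) ≤ us U j := Nat.cast_nonneg _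
      push_cast
      nlinarith [mul_nonneg u0 d0, mul_nonneg (add_nonneg u0 zero_le_one) (sq_nonneg (d : ℝ))]
    · rw [one_div (pq U k M s).e]
      exact (le_inv_comm₀ (exp_pos _) (h.ok s).e0).2 e2

theorem sched : (sch U k M).OK E := by
  have ρ9 := h.big.u.trans h.ρ_ge
  have k9 := h.big.a9' k
  have Mp := h.M_pow
  refine ⟨rfl, fun j _ => h.big.us_lt j, fun s _ => h.ok s, fun s hs => h.next hs, fun s hs => ?_,
    fun s _ => by simpa [sch, pq] using h.big.le_ep, ?_, h.k1, Nat.zero_le _, fun j _ => ?_,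
    fun j hj s hs => ?_, fun j hj => ⟨aa U j / 2, ?_, ?_, fun s h1 h2 => h.win hj h1 ?_⟩, ?_,
    fun j _ => ?_, ?_, ?_, ?_, h.ρ1.ge, (dvd_pow_self _ (by omega)).trans (dvd_of_eq h.hM.symm), h.ρs.ge, ?_, h.Ω, ?_⟩
  · simp only [sch, pq, decide_eq_true_eq]
    exact ⟨fun e => ⟨_, h.big.ep_le.2 hs, e⟩, fun ⟨j, _, e⟩ => by rw [e, h.big.ep_us]⟩
  · have := h.big.a9 k
    simp only [sch, pq, us, decide_eq_true_eq]
    omega
  · have := h.big.us_lt j
    refine (h.big.rr_le j).trans ((Nat.pow_le_pow_right (by omega)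
      (show _ ≤ 8000 * (aa U j + 2) by omega)).trans (Nat.le_mul_of_pos_left _ (by norm_num)))
  · have h1 := h.big.ep_le.2 hs
    have := h.D_rr (h1.trans_lt hj) h1
    simp only [sch, Par.rad]
    omega
  · have := h.big.us3 j
    have := h.big.a9 j
    simp only [sch]
    omega
  · have := h.big.a9 j
    simp only [sch, us]
    omega
  · have := h.big.a9 j
    simp only [sch] at h2
    omega
  · have : vl d M 0 ≤ 1 := (vol_tn_le 0).trans (by simp)
    simp only [sch, rr, us, aa]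
    rw [zero_pow (by norm_num), mul_zero, show -(5 * (U : ℝ) ^ 2) / 5 = -(U : ℝ) ^ 2 by ring]
    exact mul_le_of_le_one_left (exp_pos _).le (by exact_mod_cast this)
  · have a9 := h.big.a9' j
    have h1 := h.vl_rr j
    have h2 := h.sum_ep j
    have h3 : 8 * (aa U (j + 1) : ℝ) ^ 2 ≤ (aa U j : ℝ) ^ 3 := by exact_mod_cast h.big.cube j
    have h4 : (aa U j : ℝ) ≤ 3 * ((aa U j / 3 + 1 : ℕ) : ℝ) := by
      exact_mod_cast (show aa U j ≤ 3 * (aa U j / 3 + 1) by omega)
    have h5 := mul_le_mul h1 h2 (by positivity) (by positivity)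
    have h6 : (vl d M (rr U (j + 1)) * exp (-(aa U j : ℝ) ^ 2)) ^ (aa U j / 3 + 1) ≤
        exp (-(aa U j : ℝ) ^ 3 / 6) := by
      refine (pow_le_pow_left₀ (by positivity) (mul_le_mul_of_nonneg_right h1 (exp_pos _).le)
        _).trans ?_
      rw [← exp_add, ← exp_nat_mul, exp_le_exp]
      nlinarith [mul_le_mul_of_nonneg_right h4 (sq_nonneg (aa U j : ℝ))]
    have h7 : (10 : ℝ) ^ 9 * (aa U j : ℝ) ^ 2 ≤ (aa U j : ℝ) ^ 3 := by nlinarith
    have h8 : (10 : ℝ) ^ 9 * aa U j ≤ (aa U j : ℝ) ^ 2 := by nlinarith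
    have h9 : exp (-(aa U j : ℝ) ^ 3 / 6) ≤ exp (-(aa U (j + 1) : ℝ) ^ 2) / 2 := by
      have := exp_small (y := (aa U j : ℝ) ^ 3 / 24) (c := 2) 0 two_pos (by push_cast; linarith)
      calc _ ≤ exp (-(aa U (j + 1) : ℝ) ^ 2 + -((aa U j : ℝ) ^ 3 / 24)) :=
            exp_le_exp.2 (by linarith)
        _ ≤ _ := by
          rw [exp_add, div_eq_mul_one_div (exp _)]
          gcongr
          simpa using this
    have h10 : exp ((aa U j : ℝ) ^ 2 / 2) * exp (aa U j - (aa U j : ℝ) ^ 3 / 5) ≤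
        exp (-(aa U (j + 1) : ℝ) ^ 2) := by
      rw [← exp_add, exp_le_exp]
      linarith
    simp only [sch, show us U (j + 1) = aa U j from rfl]
    linarith
  · refine (mul_le_mul_of_nonneg_right Mp (exp_pos _).le).trans ?_
    have := exp_small (y := (aa U k : ℝ) ^ 2 - 1 / 2 * aa U k) (c := 10) 0 (by norm_num)
      (by push_cast; nlinarith)
    rw [← exp_add]
    simpa [sch, add_comm, sub_eq_add_neg] using this
  · have h1 := mul_le_mul Mp (h.sum_ep k) (by positivity) (by positivity)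
    have h2 := exp_small (y := -(1 / 2 * aa U k + (aa U k - (aa U k : ℝ) ^ 3 / 5))) (c := 10) 0
      (by norm_num) (by
        push_cast
        nlinarith [mul_le_mul k9 (show 100 ≤ (aa U k : ℝ) ^ 2 by nlinarith) (by norm_num)
          (by positivity), mul_le_mul_of_nonneg_left (show 100 ≤ (aa U k : ℝ) ^ 2 by nlinarith)
            (show (0 : ℝ) ≤ aa U k by positivity)])
    rw [← exp_add] at h1
    rw [neg_neg, pow_zero] at h2
    simp only [sch, show us U (k + 1) = aa U k from rfl]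
    linarith [exp_pos (1 / 2 * aa U k + (aa U k - (aa U k : ℝ) ^ 3 / 5))]
  · refine (sum_le_sum (g := fun j => (1 / 2 : ℝ) ^ j / 20) fun j _ => ?_).trans ?_
    · have a9 := h.big.a9' j
      have h1 : (j : ℝ) ≤ aa U j := by exact_mod_cast (Nat.le_add_right j U).trans (h.big.idx j)
      have h2 : (aa U j : ℝ) ≤ aa U (j + 1) := by exact_mod_cast aa_le U j
      have h3 := exp_small (y := (aa U j : ℝ) ^ 2 / 2) (c := 40) j (by norm_num) (by nlinarith)
      have h4 := exp_small (y := (aa U (j + 1) : ℝ) ^ 2) (c := 40) j (by norm_num) (by nlinarith)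
      have h5 := mul_le_mul_of_nonneg_right (h.vl_rr j) (exp_pos (-(aa U j : ℝ) ^ 2)).le
      rw [← exp_add, show (aa U j : ℝ) ^ 2 / 2 + -(aa U j : ℝ) ^ 2 = -((aa U j : ℝ) ^ 2 / 2) by
        ring] at h5
      simp only [sch]
      linarith
    · rw [← sum_div]
      linarith [sum_geometric_two_le (sch U k M).k]
  · refine le_trans ?_ ((Nat.pow_le_pow_right (by omega) (Nat.le_add_left 3 d)).trans h.hM.ge)
    rw [pow_succ' _ 2]
    exact Nat.mul_le_mul_right _ (by omega)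
  · have r9 : (10 : ℝ) ^ 9 ≤ E.ρ1 := by exact_mod_cast ρ9
    have h1 := h.big.lg E.ρ1 (by exact_mod_cast h.ρ_ge)
    have h2 : (1 : ℝ) ≤ log E.ρ1 := by
      rw [le_log_iff_exp_le (by linarith)]
      linarith [exp_one_lt_d9]
    have d0 : (0 : ℝ) ≤ d := Nat.cast_nonneg d
    have h3 := mul_le_mul_of_nonneg_left h2 (sq_nonneg (d + 3 : ℝ))
    have h4 := (le_self_pow₀ (by nlinarith) (by norm_num)).trans h1
    have h5 : (M : ℝ) ^ d ≤ 2 ^ E.ρ1 := by
      refine le_trans ?_ (exp_half _)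
      nth_rw 1 [h.hM]
      rw [Nat.cast_pow, ← pow_mul, ← exp_log (show (0 : ℝ) < E.ρ1 by linarith), ← exp_nat_mul,
        exp_log (by linarith), exp_le_exp]
      push_cast
      nlinarith [mul_nonneg d0 (zero_le_one.trans h2)]
    obtain ⟨m, e⟩ : ∃ m, E.ρ1 = m + 3 := ⟨E.ρ1 - 3, by omega⟩
    rw [e] at h5 ⊢
    refine (mul_le_mul_of_nonneg_right h5 (by positivity)).trans ?_
    have := pow_le_one₀ (n := m) (show (0 : ℝ) ≤ 2 * (1 / 10) by norm_num) (by norm_num)
    rw [show m + 3 - 1 = m + 2 by omega, pow_add, pow_add]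
    rw [mul_pow] at this
    linarith

end EH

end Pool.Agent.P.MP_d0f69c_mp.XS
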