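import Pool.Agent.P.MP_d0f69c_mp.XS.Sch3
import Pool.Agent.P.MP_d0f69c_mp.XS.In7
import Pool.Agent.P.MP_d0f69c_mp.XS.Pr

/-!
The schedule, part 4: the data and the initial state at small coupling.
-/

set_option autoImplicit false
set_option maxRecDepth 8000
set_option maxHeartbeats 400000

open Finset Real
open scoped Matrix

namespace Pool.Agent.P.MP_d0f69c_mp.XS

variable {d M : ℕ} [NeZero M]

theorem Om_sep {ρ : ℕ} (h : ρ ∣ M) {x y : Tor d M} (hx : x ∈ Om d M ρ) (hy : y ∈ Om d M ρ)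
    (hn : x ≠ y) : ρ ≤ nm (x - y) := by
  obtain ⟨i, hi⟩ := Function.ne_iff.1 hn
  have h1 := Int.natCast_dvd_natCast.2 ((mem_filter.1 hx).2 i)
  have h2 := Int.natCast_dvd_natCast.2 ((mem_filter.1 hy).2 i)
  have h3 : (M : ℤ) ∣ (x i - y i).valMinAbs - ((x i).val - (y i).val) :=
    (ZMod.intCast_eq_intCast_iff_dvd_sub _ _ _).1 (by simp)
  have h4 := (dvd_sub_left (dvd_sub h1 h2)).1 ((Int.natCast_dvd_natCast.2 h).trans h3)
  exact (Nat.le_of_dvd (Int.natAbs_pos.2 (by simpa [sub_eq_zero] using hi))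
    (Int.natCast_dvd.1 h4)).trans (le_tn (x - y) i)

theorem Om_cov {ρ : ℕ} (h : ρ ∣ M) (h0 : 0 < ρ) (x : Tor d M) :
    ∃ o ∈ Om d M ρ, nm (x - o) ≤ ρ := by
  refine ⟨_, (mem_Om h fun i => ((x i).val : ℤ) - (x i).val % ρ).2 fun i => Int.dvd_self_sub_emod,
    tn_le.2 fun i => (natAbs_vma_le _ (((x i).val : ℤ) % ρ) (by simp)).trans ?_⟩
  have := Nat.mod_lt (x i).val h0
  rw [← Int.natCast_mod, Int.natAbs_natCast]
  omega

omit [NeZero M] in
theorem Hn_rng {lam Eg : ℝ} {x y : Tor d M} (h : Hn (Lap d M) lam Eg x y ≠ 0) : nm (x - y) ≤ 1 := by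
  by_contra c
  have h1 : x ≠ y := fun e => c (by rw [e, nm_self]; omega)
  have h2 : ∀ i, y ≠ x + Pi.single i 1 := fun i e => c (by
    rw [e, nm_comm, add_sub_cancel_left]; exact tn_single i)
  have h3 : ∀ i, y ≠ x - Pi.single i 1 := fun i e => c (by
    rw [e, sub_sub_cancel]; exact tn_single i)
  simp [Hn, Lap, h1, h1.symm, h2, h3] at h

theorem Hn_row {lam : ℝ} (hl : 0 < lam) (Eg : ℝ) (x : Tor d M) :
    ∑ y, |Hn (Lap d M) lam Eg x y| ≤ (4 * d + |Eg|) / lam := by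
  simp only [Hn, abs_div, abs_of_pos hl, ← sum_div]
  gcongr
  refine (sum_le_sum (g := fun y => ∑ i : Fin d, ((if y = x then (2 : ℝ) else 0) +
    (if y = x + Pi.single i 1 then 1 else 0) + (if y = x - Pi.single i 1 then 1 else 0)) +
    if x = y then |Eg| else 0) fun y _ => ?_).trans (le_of_eq ?_)
  · refine (abs_sub _ _).trans (add_le_add ((abs_sum_le_sum_abs _ _).trans
      (sum_le_sum fun i _ => ?_)) (by split_ifs <;> simp))
    split_ifs <;> norm_num
  · rw [sum_add_distrib, sum_comm]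
    simp [sum_add_distrib]
    ring

/-- the data at small coupling -/
noncomputable def envA (d M : ℕ) [NeZero M] (C lam Eg : ℝ) (σ : ℂ) (N ρ : ℕ) : Env d M where
  H := Hn (Lap d M) lam Eg
  Ω := Om d M ρ
  σ := σ
  N := N
  η := -σ.im
  p := fun h => ‖NW.GG (Hn (Lap d M) lam Eg) (fun _ => σ) h 0‖ ^ 2
  gt := gt fun h => ‖NW.GG (Hn (Lap d M) lam Eg) (fun _ => σ) h 0‖ ^ 2
  l0 := ⌈C / lam ^ 2⌉₊
  CS := 8 * (16 * d * C ^ 2) ^ 2
  γ0 := -σ.im
  rH := 1
  ρ1 := ρ
  ρs := ρ ^ 2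

/-- the relation between the coupling and the first scale -/
structure SmA (d : ℕ) (C lam : ℝ) (U : ℕ) : Prop where
  hd : 5 ≤ d
  C1 : 1 ≤ C
  l0 : 0 < lam
  big : Big d U
  P1 : 10 ^ 9 * 10 ^ d * (8 * (16 * d * C ^ 2) ^ 2) ^ 2 ≤ U
  lo : lam ≤ 1 / (U : ℝ) ^ 500
  hi : 1 / (U : ℝ) ^ 520 ≤ lam

namespace SmA

variable {C lam Eg : ℝ} {σ : ℂ} {U N k : ℕ} (h : SmA d C lam U)
include h

omit [NeZero M] in
theorem K1 : C ≤ 16 * d * C ^ 2 := by
  have : (5 : ℝ) ≤ d := by exact_mod_cast h.hd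
  nlinarith [h.C1]

omit [NeZero M] in
theorem CS_le : 10 ^ 9 * 10 ^ d * (8 * (16 * d * C ^ 2) ^ 2) ≤ U := by
  refine le_trans ?_ h.P1
  gcongr
  exact le_self_pow₀ (by nlinarith [h.K1, h.C1]) two_ne_zero

omit [NeZero M] in
theorem C_le : C ≤ U := by
  nlinarith [h.CS_le, h.K1, h.C1, mul_le_mul_of_nonneg_right
    (one_le_pow₀ (n := d) (show (1 : ℝ) ≤ 10 by norm_num)) (sq_nonneg (16 * d * C ^ 2))]

omit [NeZero M] in
theorem le_pw {a b c : ℕ} (e : a + c ≤ 500 * b) : C ^ a * lam ^ b ≤ 1 / (U : ℝ) ^ c := by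
  have u9 : (10 : ℝ) ^ 9 ≤ U := by exact_mod_cast h.big.u
  refine (mul_le_mul (pow_le_pow_left₀ (by linarith [h.C1]) h.C_le a)
    (pow_le_pow_left₀ h.l0.le h.lo b) (pow_nonneg h.l0.le _) (by positivity)).trans ?_
  rw [one_div_pow, mul_one_div, div_le_div_iff₀ (by positivity) (by positivity), ← pow_add,
    ← pow_mul, one_mul]
  exact pow_le_pow_right₀ (by linarith) e

omit [NeZero M] in
theorem small {a b : ℕ} (e : a + 1 ≤ 500 * b) : C ^ a * lam ^ b ≤ 1 / 10 ^ 9 :=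
  (h.le_pw e).trans (one_div_le_one_div_of_le (by norm_num) (by exact_mod_cast (by
    simpa using h.big.u)))

theorem eh (hI : InitH C lam σ (NW.GG (Hn (Lap d M) lam Eg) fun _ => σ)) (hk : 1 ≤ k)
    (hM : M = (10 * rr U k) ^ (d + 3)) : EH (envA d M C lam Eg σ N (10 * rr U k)) U k := by
  have u9 : (10 : ℝ) ^ 9 ≤ U := by exact_mod_cast h.big.u
  have l0 := h.l0
  have C1 := h.C1
  have s1 := h.small (a := 1) (b := 1) (by norm_num)
  refine ⟨h.big, le_trans ?_ h.P1, le_trans ?_ hI.im, ?_, Nat.ceil_le.2 ?_,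
    Nat.one_le_pow _ _ (by have := h.big.u; omega), fun D hD => ?_, hk, rfl, rfl, hM, rfl⟩
  · have : d ^ 2 ≤ 10 ^ d := (Nat.pow_le_pow_left d.lt_two_pow_self.le 2).trans (by
      rw [← pow_mul, mul_comm, pow_mul]
      exact Nat.pow_le_pow_left (by norm_num) d)
    simp only [envA]
    gcongr
    exact_mod_cast this
  · refine le_trans ?_ (div_le_div₀ l0.le h.hi (by linarith) h.C_le)
    rw [div_div, ← pow_succ]
    exact one_div_le_one_div_of_le (by positivity) (pow_le_pow_right₀ (by linarith) (by norm_num))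
  · refine (neg_le_abs _).trans ((Complex.abs_im_le_norm _).trans (hI.norm.trans ?_))
    linarith
  · refine (div_le_div₀ (by positivity) h.C_le (by positivity)
      (pow_le_pow_left₀ (by positivity) h.hi 2)).trans ?_
    rw [one_div_pow, div_div_eq_mul_div, div_one, ← pow_mul, ← pow_succ', Nat.cast_pow]
    exact pow_le_pow_right₀ (by linarith) (by norm_num)
  · refine le_trans (sum_le_sum_of_subset_of_nonneg (fun x hx => ?_) fun _ _ _ => sq_nonneg _)
      ((hI.ref.tail hD).trans ?_)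
    · exact mem_filter.2 ⟨mem_univ _, (mem_filter.1 hx).2.le⟩
    · gcongr
      exact Nat.le_ceil _

theorem ok (hI : InitH C lam σ (NW.GG (Hn (Lap d M) lam Eg) fun _ => σ)) (hk : 1 ≤ k)
    (hM : M = (10 * rr U k) ^ (d + 3)) (hE : |Eg| ≤ C + 1) (hN : N ≠ 0)
    (ha : Adm (Hn (Lap d M) lam Eg) σ N) : (envA d M C lam Eg σ N (10 * rr U k)).OK := by
  have e := h.eh (N := N) hI hk hM
  have sc := e.sched
  have u9 : (10 : ℝ) ^ 9 ≤ U := by exact_mod_cast h.big.u
  have l0 := h.l0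
  have C1 := h.C1
  have K1 := h.K1
  have d5 : (5 : ℝ) ≤ d := by exact_mod_cast h.hd
  have s1 := h.small (a := 1) (b := 1) (by norm_num)
  rw [pow_one, pow_one] at s1
  have η0 : 0 < -σ.im := e.ηpos
  have η1 : -σ.im ≤ C * lam := (neg_le_abs _).trans ((Complex.abs_im_le_norm _).trans hI.norm)
  obtain ⟨m1, m2⟩ := abs_le.1 hI.mass
  have ρU : (U : ℝ) ≤ (10 * rr U k : ℕ) := by exact_mod_cast e.ρ_ge
  have c1 : C / lam ^ 2 ≤ ⌈C / lam ^ 2⌉₊ := Nat.le_ceil _
  have c0 : 0 < C / lam ^ 2 := by positivity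
  refine ⟨by have := h.hd; omega, Hn_symm Lap_symm _ _, fun x y => Hn_rng, fun x => ?_, ha, hN,
    hI.norm.trans (by linarith), η0,
    η1.trans (by linarith), ⟨hI.ref.nonneg, hI.ref.even, hI.ref.gt_nonneg, gt_neg _, ?_,
    ⟨_, ?_, fun z F => (hI.ref.var (by linarith) z F).trans_eq (by simp only [Nm, envA]; ring)⟩,
    hI.gam.trans ?_, fun a F => (hI.ref.shift F a).trans ?_, hI.ref.mom.trans ?_,
    Nat.ceil_pos.2 c0, ?_⟩, η0.le, le_rfl, fun x hx y hy => Om_sep sc.ρd hx hy, ?_⟩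
  · refine (Hn_row l0 Eg x).trans (le_trans ?_ (one_div_le_one_div_of_le (pow_pos η0 3)
      (pow_le_pow_left₀ η0.le η1 3)))
    have dU : (d : ℝ) ≤ U := by exact_mod_cast h.big.d_le
    have b := (le_div_iff₀ (by positivity)).1 (h.le_pw (a := 3) (b := 2) (c := 2) (by norm_num))
    rw [div_le_div_iff₀ l0 (by positivity)]
    calc _ = lam * (C ^ 3 * lam ^ 2 * (4 * d + |Eg|)) := by ring
      _ ≤ lam * (C ^ 3 * lam ^ 2 * (U : ℝ) ^ 2) := by
        gcongr
        nlinarith [h.C_le]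
      _ ≤ _ := by nlinarith
  · have b := pow_le_pow_left₀ (norm_nonneg _) (hI.amp 0 0) 2
    simp only [envA]
    rw [sum_erase_eq_sub (mem_univ _), abs_le]
    constructor <;> nlinarith [mul_pos (one_pos.trans_le C1) l0,
      sq_nonneg ‖NW.GG (Hn (Lap d M) lam Eg) (fun _ => σ) 0 0‖]
  · have b : (10 : ℝ) ^ 9 ≤ (M : ℝ) ^ 2 := by
      have b1 : 10 ^ 9 ≤ M := by
        have b2 := sc.ρM
        have b3 := Nat.le_self_pow two_ne_zero (envA d M C lam Eg σ N (10 * rr U k)).ρ1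
        have b4 := h.big.u.trans e.ρ_ge
        omega
      exact_mod_cast b1.trans (Nat.le_self_pow two_ne_zero M)
    have b5 := one_div_le_one_div_of_le (by norm_num) b
    have b6 : 0 ≤ 1 / (M : ℝ) ^ 2 := by positivity
    rw [abs_le]
    constructor <;> linarith
  · refine le_trans ?_ (pow_le_pow_left₀ (by positivity) hI.im 2)
    rw [div_pow, le_div_iff₀ (by positivity)]
    nlinarith [mul_le_mul_of_nonneg_right (h.small (a := 3) (b := 2) (by norm_num)) (sq_nonneg lam)]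
  · refine mul_le_mul_of_nonneg_right ?_ (NF_nonneg hI.ref.nonneg F)
    have b1 : (⌈C / lam ^ 2⌉₊ : ℝ) ≤ 2 * (C / lam ^ 2) := by
      have b2 : 1 ≤ C / lam ^ 2 := by
        rw [le_div_iff₀ (by positivity)]
        linarith [h.small (a := 0) (b := 2) (by norm_num)]
      linarith [Nat.ceil_lt_add_one c0.le]
    have b2 : 8 * d * (C * lam ^ 2) * tn d M a ≤ 16 * d * C ^ 2 * (tn d M a / ⌈C / lam ^ 2⌉₊) := by
      rw [← mul_div_assoc, le_div_iff₀ (by linarith)]
      refine (mul_le_mul_of_nonneg_left b1 (by positivity)).trans (le_of_eq ?_)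
      field_simp
      ring
    have b3 := pow_le_pow_left₀ (by positivity) b2 2
    rw [mul_pow (16 * d * C ^ 2), div_pow] at b3
    simp only [envA]
    nlinarith
  · simp only [envA]
    nlinarith [mul_le_mul_of_nonneg_right (show 1 ≤ (16 * d * C ^ 2) ^ 2 by nlinarith)
      (sq_nonneg (⌈C / lam ^ 2⌉₊ : ℝ))]
  · simp only [envA]
    nlinarith
  · have b := h.CS_le.trans ρU
    simp only [envA]
    generalize 10 * rr U k = ρ at *
    have b1 : (vl d M (ρ ^ 2) : ℝ) ≤ 10 ^ d * (ρ : ℝ) ^ (2 * d) := by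
      have : 0 < ρ ^ 2 := pow_pos (by exact_mod_cast (show (0 : ℝ) < ρ by linarith)) 2
      rw [pow_mul, ← mul_pow]
      exact_mod_cast (vol_tn_le _).trans (Nat.pow_le_pow_left (by omega) d)
    have b2 : 1 ≤ (ρ : ℝ) ^ 4 := one_le_pow₀ (by linarith)
    nth_rw 2 [hM]
    push_cast
    calc _ ≤ 10 ^ 10 * (10 ^ d * (ρ : ℝ) ^ (2 * d)) * (8 * (16 * d * C ^ 2) ^ 2) *
          (2 * (ρ : ℝ) ^ 4) := by
          gcongr
          linarith
      _ = 20 * (10 ^ 9 * 10 ^ d * (8 * (16 * d * C ^ 2) ^ 2)) * (ρ : ℝ) ^ (2 * d + 4) := by ring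
      _ ≤ ρ * ρ * (ρ : ℝ) ^ (2 * d + 4) := by
          gcongr
          linarith
      _ = _ := by ring

end SmA

/-- the initial state -/
noncomputable def st0 (E : Env d M) : St (Tor d M) :=
  ⟨E.H, fun _ => E.σ, univ \ E.Ω, E.Ω, ∅, ∅, ∅, ∅⟩

theorem st0_O (E : Env d M) : (st0 E).O = univ := by simp [st0, St.O]

theorem init_of {E : Env d M} {sc : Sched} (h : Inv E ((sc.q 0).bPre E.η) (st0 E)) :
    Init E sc Unit fun _ _ => st0 E := by
  refine ⟨fun _ _ _ _ => rfl, fun _ _ => h, fun _ _ x hx => absurd (st0_O E ▸ mem_univ x) hx,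
    fun _ _ ℓ hl => by simp [st0] at hl, fun I _ => ?_, fun _ _ _ x hx => by simp [st0] at hx,
    fun _ _ o ho e => absurd ho e⟩
  rcases I.eq_empty_or_nonempty with rfl | ⟨x, hx⟩
  · simpa using pr_le_one _
  · rw [pr_false fun z e => by simpa [st0] using e x hx]
    positivity

theorem disc0 {G : Matrix (Tor d M) (Tor d M) ℂ} {σ : ℂ} {t : ℝ} (t1 : t ≤ 1 / 10)
    (h1 : ‖σ‖ ≤ t) (h2 : ∀ x, ‖G x x‖ ≤ t)
    (h3 : ∀ u : Tor d M → ℂ, ∑ x, ‖∑ y, G x y ^ 2 * u y‖ ^ 2 ≤ t ^ 2 * ∑ x, ‖u x‖ ^ 2) :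
    Disc univ (Am (fun _ => σ) G) (3 * t) := by
  have t0 := (norm_nonneg _).trans h1
  refine disc_of_norm (by linarith) (by linarith) fun u => ?_
  have s2 : ‖σ ^ 2‖ ≤ t / 10 := by
    rw [norm_pow]
    nlinarith [norm_nonneg σ]
  have s3 : 1 / 2 ≤ ‖(1 - σ ^ 2) ^ 2‖ := by
    have := norm_sub_norm_le 1 (σ ^ 2)
    rw [norm_one] at this
    rw [norm_pow]
    nlinarith
  have s4 : ‖1 - 1 / (1 - σ ^ 2) ^ 2‖ ≤ t := by
    rw [one_sub_div (norm_pos_iff.1 (by linarith)), norm_div, div_le_iff₀ (by linarith),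
      show (1 - σ ^ 2) ^ 2 - 1 = σ ^ 2 * (σ ^ 2 - 2) by ring, norm_mul]
    have := norm_sub_le (σ ^ 2) 2
    rw [Complex.norm_two] at this
    nlinarith [norm_nonneg (σ ^ 2), mul_le_mul_of_nonneg_left s3 t0]
  have e : u - ap univ (Am (fun _ => σ) G) u = (fun x => (1 - 1 / (1 - σ ^ 2) ^ 2 - G x x ^ 2) * u x)
      + fun x => ∑ y, G x y ^ 2 * u y := funext fun x => by
    simp only [ap, Pi.sub_apply, Pi.add_apply, ← add_sum_erase _ _ (mem_univ x)]
    rw [sum_congr rfl (g := fun y => -(G x y ^ 2 * u y)) fun y hy => by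
      rw [Am, if_neg (mem_erase.1 hy).1.symm, neg_mul], sum_neg_distrib, Am, if_pos rfl]
    ring
  rw [e]
  refine (nS_add _ _ _).trans ((add_le_add (b := 2 * t * nS univ u) (d := t * nS univ u) ?_ ?_).trans
    (le_of_eq (by ring)))
  · refine le_of_sq_le_sq ?_ (mul_nonneg (by linarith) (nS_nonneg _ _))
    rw [mul_pow, nS_sq, nS_sq, mul_sum]
    refine sum_le_sum fun x _ => ?_
    rw [norm_mul, mul_pow]
    gcongr
    refine (norm_sub_le _ _).trans ?_
    rw [norm_pow]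
    nlinarith [h2 x, norm_nonneg (G x x)]
  · refine le_of_sq_le_sq ?_ (mul_nonneg t0 (nS_nonneg _ _))
    rw [mul_pow, nS_sq, nS_sq]
    exact h3 u

theorem SmA.inv {C lam Eg : ℝ} {σ : ℂ} {U N k : ℕ} (h : SmA d C lam U)
    (hI : InitH C lam σ (NW.GG (Hn (Lap d M) lam Eg) fun _ => σ)) (hk : 1 ≤ k)
    (hM : M = (10 * rr U k) ^ (d + 3)) : Inv (envA d M C lam Eg σ N (10 * rr U k))
      ((pq U k M 0).bPre (-σ.im)) (st0 (envA d M C lam Eg σ N (10 * rr U k))) := by
  have e := h.eh (N := N) hI hk hM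
  have u9 : (10 : ℝ) ^ 9 ≤ U := by exact_mod_cast h.big.u
  have u1 : (1 : ℝ) ≤ U := by linarith
  have l0 := h.l0
  have C1 := h.C1
  have s1 := h.small (a := 1) (b := 1) (by norm_num)
  rw [pow_one, pow_one] at s1
  have η0 : 0 < -σ.im := e.ηpos
  have e0 : ep U 0 = 0 := h.big.ep_us 0
  have e1 : (pq U k M 0).start = true := by simp [pq, e0, us]
  have e2 : (pq U k M 0).P = U := by simp [pq, e0, aa]
  have e3 : (pq U k M 0).μ = 1 / (U : ℝ) ^ 800 := by simp [pq_μ]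
  have e4 : 3 * (C * lam) ≤ (pq U k M 0).θ := by
    have : 4 / (U : ℝ) ≤ 4 / 10 ^ 9 := by gcongr
    simp only [pq, Nat.cast_zero, zero_add]
    linarith
  have e5 : C * lam ^ 4 ≤ (1 / (U : ℝ) ^ 800) ^ 2 := by
    rw [one_div_pow, ← pow_mul]
    simpa only [pow_one] using h.le_pw (a := 1) (b := 4) (by norm_num)
  have cl := mul_pos (one_pos.trans_le C1) l0
  have aw1 : ∀ x : Tor d M, aw (-σ.im) (fun _ => σ) x = 1 := fun x => div_self η0.ne'
  have bk : Blk ∅ 1 (1 / -σ.im) (1 : Matrix (Tor d M) (Tor d M) ℝ) := by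
    have b := one_le_one_div η0 e.η1
    refine ⟨fun x y _ => Matrix.one_apply, fun x y c => ?_, fun x => ?_, fun x => ?_⟩
    · obtain rfl : x = y := by_contra fun c' => c (Matrix.one_apply_ne c')
      rw [nm_self]
      omega
    all_goals
      simpa only [Matrix.transpose_one, Matrix.one_mulVec] using
        le_mul_of_one_le_left (sum_nonneg fun y _ => sq_nonneg (x y)) (one_le_pow₀ b)
  have en : ∀ F, En univ (Kk (-σ.im) (fun _ => σ) (NW.GG (Hn (Lap d M) lam Eg) fun _ => σ)) F =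
      NF (envA d M C lam Eg σ N (10 * rr U k)).p F := fun F => by
    simp only [En, NF, Kk, aw1, one_mul, envA, ← hI.trans]
  have nf := NF_nonneg hI.ref.nonneg
  rw [Par.bPre, if_pos e1]
  refine ⟨sdiff_disjoint, disjoint_empty_right _, disjoint_empty_right _, Subset.rfl, sdiff_disjoint,
    ⟨1, 1, 1, bk, bk, bk, by simp, by simp, by simp [st0]⟩,
    fun x _ => ⟨hI.norm.trans (show _ ≤ (pq U k M 0).θ by linarith), ?_⟩,
    fun x hx => absurd (by rw [st0_O]; exact mem_univ x) hx, fun _ _ => rfl,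
    fun x _ => (hI.tune x).trans ?_,
    fun x _ y _ _ => (pow_le_pow_left₀ (norm_nonneg _) (hI.amp x y) 2).trans ?_,
    fun c => by simp at c, fun x _ => ?_, fun c => by simp at c, ?_, ?_, fun y _ => ?_,
    fun x _ z => (hI.dec x z).trans ?_, Or.inr fun x => ?_⟩
  · exact (congrArg (fun t => |t - 1|) (aw1 x)).trans_le (show _ ≤ (pq U k M 0).θ by
      simp only [sub_self, abs_zero]; linarith)
  · simp only [Par.bIn, Par.misIn, e2, e3]
    rw [le_div_iff₀ (by positivity)]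
    refine le_sqrt_of_sq_le (le_trans ?_ (mul_le_mul_of_nonneg_right e.η0 (by positivity)))
    have b := h.le_pw (a := 2) (b := 4) (c := 550 + 800 + 20) (by norm_num)
    rw [pow_add _ _ 20, ← div_div, le_div_iff₀ (by positivity), pow_add, ← one_div_mul_one_div] at b
    exact le_trans (le_of_eq (by ring)) b
  · simp only [Par.bIn, e3]
    rw [mul_pow, div_div]
    refine (h.le_pw (c := 800 + 1) (by norm_num)).trans (one_div_le_one_div_of_le (by positivity) ?_)
    rw [pow_add, pow_one]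
    exact mul_le_mul_of_nonneg_left (by linarith) (by positivity)
  · refine (sum_le_sum_of_subset_of_nonneg (subset_univ _) fun _ _ _ => by positivity).trans
      ((hI.l4 x).trans (e5.trans ?_))
    have b : 2 ≤ (U : ℝ) ^ 20 := le_trans (by linarith) (le_self_pow₀ u1 (by norm_num))
    simp only [Par.bIn, Par.n, e2, e3]
    nlinarith [mul_le_mul_of_nonneg_right b (sq_nonneg (1 / (U : ℝ) ^ 800))]
  · rw [st0_O]
    have θ0 : 0 ≤ (pq U k M 0).θ := by linarith
    refine ⟨fun F => (en F).trans_le ?_, fun f => ⟨f, fun _ _ => rfl, le_trans ?_ (en f).ge⟩⟩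
    · exact le_mul_of_one_le_left (nf F) (le_add_of_nonneg_right θ0)
    · exact mul_le_of_le_one_left (nf f) (sub_le_self _ θ0)
  · exact ((disc0 (by linarith) hI.norm (fun x => hI.amp x x) hI.rr).compress (by linarith)
      (by linarith) (subset_univ _)).mono e4
  · refine (sum_le_sum_of_subset_of_nonneg (subset_univ _) fun _ _ _ => sq_nonneg _).trans ?_
    have b := Equiv.sum_comp (Equiv.subLeft y) fun x =>
      (envA d M C lam Eg σ N (10 * rr U k)).gt x ^ 2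
    simp only [Equiv.subLeft_apply] at b
    rw [b]
    refine hI.gam.trans ?_
    simpa only [Par.bIn, e3] using e5
  · have b1 : C / lam ^ 2 ≤ (pq U k M 0).l := (Nat.le_ceil _).trans (Nat.cast_le.2 (e.ok 0).l0)
    have b2 : 3 ≤ (pq U k M 0).B := by
      have := one_le_pow₀ (n := 3) u1
      simp only [pq, e0, aa]
      exact le_trans (by push_cast; linarith) (add_one_le_exp _)
    simp only [Par.bIn, neg_div]
    gcongr
  · obtain ⟨o, h1, h2⟩ := Om_cov e.sched.ρd (by have := h.big.u.trans e.ρ_ge; omega) x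
    exact ⟨o, h1, h2.trans (Nat.le_self_pow two_ne_zero _)⟩

end Pool.Agent.P.MP_d0f69c_mp.XS
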