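import Pool.Agent.P.MP_d0f69c_mp.XS.Sch5

/-!
The schedule with a free exponent, part 1: the parameters of every round are admissible.
-/

set_option autoImplicit false
set_option maxRecDepth 8000

open Finset Real

namespace Pool.Agent.P.MP_d0f69c_mp.XS

/-- radius of the influence of the epochs before `j` -/
def rrB (U b j : ℕ) : ℕ := 60 * max (us U j) U ^ (10000 * b * (us U j + 2))

/-- the parameters of round `s` -/
noncomputable def pqB (U b : ℕ) (f : ℝ) (k M s : ℕ) : Par where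
  P := aa U (ep U s)
  e := f * es U s
  μJ := 16 * (f * es U (us U (ep U s))) ^ 200
  θ := 1 / 10 ^ 7 - 4 / (s + U)
  ζ := 3 / 4 - 4 / (s + U)
  B := exp (60 * b * (s + 1) * (aa U (ep U s) : ℝ) ^ 3)
  l := aa U (ep U s) ^ (10000 * b * (s + 1)) * if k ≤ ep U s then M else 1
  start := decide (s = us U (ep U s))
  fin := decide (k ≤ ep U s)
  last := decide (s + 1 = aa U k)

/-- the schedule -/
noncomputable def schB (U b : ℕ) (f : ℝ) (k M : ℕ) : Sched where
  q := pqB U b f k M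
  k := k
  u := us U
  r := rrB U b
  J := fun j => aa U j / 3
  α := fun j => (aa U j : ℝ) ^ 2
  r0 := U ^ (20000 * b)
  a0 := 10 * (U : ℝ) ^ 2

variable {d M : ℕ} [NeZero M]

/-- what the schedule needs from the data -/
structure EHB (E : Env d M) (U b : ℕ) (f : ℝ) (k : ℕ) : Prop where
  big : Big ((d + 3) * b) U
  b1 : 1 ≤ b
  P1 : 10 ^ 9 * (d : ℝ) ^ 2 * E.CS ^ 2 ≤ U
  f0 : 1 / (U : ℝ) ^ b ≤ f
  f1 : f ≤ 1
  η0 : f ^ 200 / (U : ℝ) ^ 550 ≤ E.η
  η1 : E.η ≤ 1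
  l0 : E.l0 ≤ U ^ (1100 * b)
  rH : E.rH ≤ U ^ (1100 * b)
  tail : ∀ D : ℕ, 0 < D →
    ∑ x with D < nm x, E.gt x ^ 2 ≤ U * ((E.l0 : ℝ) / D) ^ (1 / 4 : ℝ)
  k1 : 1 ≤ k
  ρ1 : E.ρ1 = 10 * rrB U b k
  ρs : E.ρs = E.ρ1 ^ 2
  hM : M = E.ρ1 ^ (d + 3)
  Ω : E.Ω = Om d M E.ρ1

omit [NeZero M] in
theorem pqB_μ (U b : ℕ) (f : ℝ) (k s : ℕ) :
    (pqB U b f k M s).μ = f ^ 200 / (2 ^ s * (U : ℝ) ^ 800) := by
  simp only [Par.μ, pqB, mul_pow, es_pow, mul_one_div]

omit [NeZero M] in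
theorem pqB_Bi (U b : ℕ) (f : ℝ) (k s : ℕ) :
    (pqB U b f k M s).Bi 3 = exp (60 * (b * (s + 1) + 1) * (aa U (ep U s) : ℝ) ^ 3) := by
  simp only [Par.Bi, pqB]
  rw [← exp_nat_mul, ← exp_add]
  congr 1
  push_cast
  ring

theorem Big.rrB_le {D U : ℕ} (h : Big D U) (b j : ℕ) :
    10 * rrB U b j ≤ aa U j ^ (10000 * b * (us U j + 2) + 1) := by
  rw [rrB, pow_succ', ← mul_assoc]
  exact Nat.mul_le_mul (by have := h.a9 j; omega)
    (Nat.pow_le_pow_left (max_le (us_le U j) (le_aa U j)) _)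

theorem rrB_succ (U b j : ℕ) : rrB U b (j + 1) = 60 * aa U j ^ (10000 * b * (aa U j + 2)) := by
  rw [rrB, us, max_eq_left (le_aa U j)]

theorem le_lB (U b : ℕ) (f : ℝ) (k s : ℕ) :
    aa U (ep U s) ^ (10000 * b * (s + 1)) ≤ (pqB U b f k M s).l :=
  Nat.le_mul_of_pos_right _ (by
    split_ifs
    exacts [NeZero.pos M, one_pos])

namespace EHB

variable {E : Env d M} {U b k : ℕ} {f : ℝ} (h : EHB E U b f k)
include h

theorem u9 : (10 : ℝ) ^ 9 ≤ U := by exact_mod_cast h.big.u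

theorem fpos : 0 < f := lt_of_lt_of_le (by have := h.u9; positivity) h.f0

theorem ηpos : 0 < E.η := lt_of_lt_of_le (by have := h.u9; have := h.fpos; positivity) h.η0

theorem bU : (d + 3) * b ≤ U := h.big.d_le

/-- powers of the scale are small exponentials -/
theorem pw (j n : ℕ) {c : ℝ} (hc : 0 ≤ c)
    (hn : n ≤ c * (10 ^ 9 * (d + 3) ^ 2 * b * (us U j + 1))) : (aa U j : ℝ) ^ n ≤ exp (c * aa U j) := by
  refine h.big.pw j n hc (hn.trans ?_)
  have b1 : (1 : ℝ) ≤ b := by exact_mod_cast h.b1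
  push_cast
  rw [mul_assoc (10 ^ 9 : ℝ)]
  gcongr
  nlinarith [mul_nonneg (sq_nonneg (d + 3 : ℝ)) (mul_nonneg (zero_le_one.trans b1) (sub_nonneg.2 b1)),
    mul_nonneg (add_nonneg (Nat.cast_nonneg (α := ℝ) d) (zero_le_three)) (zero_le_one.trans b1)]

theorem pw' (j n : ℕ) {c : ℝ} (hc : 0 ≤ c) (hn : n ≤ c * (10 ^ 9 * (d + 3) ^ 2 * b)) :
    (aa U j : ℝ) ^ n ≤ exp (c * aa U j) :=
  h.pw j n hc (hn.trans (mul_le_mul_of_nonneg_left
    (le_mul_of_one_le_right (by positivity) (by simp)) hc))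

theorem pw1 (j n : ℕ) {c : ℝ} (hc : 0 ≤ c) (hn : n ≤ c * (10 ^ 9 * b)) :
    (aa U j : ℝ) ^ n ≤ exp (c * aa U j) :=
  h.pw' j n hc (hn.trans (mul_le_mul_of_nonneg_left (mul_le_mul_of_nonneg_right
    (le_mul_of_one_le_right (by positivity)
    (one_le_pow₀ (by linarith [Nat.cast_nonneg (α := ℝ) d]))) (Nat.cast_nonneg _)) hc))

theorem f_ge : 1 / (U : ℝ) ^ (200 * b) ≤ f ^ 200 := by
  rw [mul_comm, pow_mul, ← one_div_pow]
  exact pow_le_pow_left₀ (by positivity) h.f0 _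

theorem η_ge : 1 / (U : ℝ) ^ (750 * b) ≤ E.η := by
  have u9 := h.u9
  refine le_trans ?_ ((div_le_div_of_nonneg_right h.f_ge (by positivity)).trans h.η0)
  rw [div_div, ← pow_add]
  exact one_div_le_one_div_of_le (by positivity)
    (pow_le_pow_right₀ (by linarith) (by have := h.b1; omega))

theorem Lg1 (s : ℕ) : 1 ≤ (pqB U b f k M s).Lg E.η :=
  Nat.mul_pos (pow_pos (by have := h.big.a9 (ep U s); simp only [pqB]; omega) _)
    (pow_pos (Nat.ceil_pos.2 (one_div_pos.2 h.ηpos)) _)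

theorem Lg_le (s : ℕ) : (pqB U b f k M s).Lg E.η ≤ aa U (ep U s) ^ (1560 * b) := by
  have h1 : ⌈1 / E.η⌉₊ ≤ U ^ (750 * b) := Nat.ceil_le.2 (by
    have := h.u9
    push_cast
    exact (one_div_le h.ηpos (by positivity)).2 h.η_ge)
  refine (Nat.mul_le_mul_left _ (Nat.pow_le_pow_left
    (h1.trans (Nat.pow_le_pow_left (le_aa U (ep U s)) _)) 2)).trans ?_
  simp only [pqB]
  rw [← pow_mul, ← pow_add]
  exact Nat.pow_le_pow_right (by have := h.big.a9 (ep U s); omega) (by have := h.b1; omega)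

theorem le_D (s i : ℕ) :
    aa U (ep U s) ^ (10000 * b * (s + 1) + 8) ≤ (pqB U b f k M s).D E.η i := by
  rw [pow_add, mul_comm]
  exact Nat.mul_le_mul_left _ ((le_lB U b f k s).trans
    (Nat.le_mul_of_pos_left _ (pow_pos (h.Lg1 s) _)))

theorem D_le {s : ℕ} (hs : ep U s < k) (i : ℕ) :
    (pqB U b f k M s).D E.η i ≤ aa U (ep U s) ^ (10000 * b * (s + 1) + 1560 * b * i + 8) := by
  refine (Nat.mul_le_mul_left _ (Nat.mul_le_mul_right _
    (Nat.pow_le_pow_left (h.Lg_le s) i))).trans (le_of_eq ?_)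
  simp only [pqB, if_neg hs.not_ge]
  ring

theorem D3_le {s j : ℕ} (hj : ep U s ≤ j) :
    10000 * b * (s + 1) + 1560 * b * 3 + 8 + 1 ≤ 10000 * b * (aa U j + 1) := by
  have := Nat.mul_le_mul_left (10000 * b) (h.big.ep_le.1 hj)
  have := h.b1
  rw [Nat.succ_eq_add_one] at *
  rw [mul_add _ (aa U j)]
  omega

theorem D_rr {s j : ℕ} (hs : ep U s < k) (hj : ep U s ≤ j) :
    60 * (pqB U b f k M s).D E.η 3 ≤ rrB U b (j + 1) := by
  have h1 := h.big.a9 j
  rw [rrB_succ]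
  refine Nat.mul_le_mul_left _ ((h.D_le hs 3).trans ((Nat.pow_le_pow_left (aa_mono U hj) _).trans
    (Nat.pow_le_pow_right (by omega) ?_)))
  exact (Nat.le_succ _).trans ((h.D3_le hj).trans (Nat.mul_le_mul_left _ (by omega)))

theorem M_pow : (M : ℝ) ^ d ≤ exp (1 / 2 * aa U k) := by
  have h1 : M ^ d ≤ aa U k ^ ((10000 * b * (us U k + 2) + 1) * (d + 3) * d) := by
    rw [pow_mul, pow_mul, h.hM, h.ρ1]
    exact Nat.pow_le_pow_left (Nat.pow_le_pow_left (h.big.rrB_le b k) _) _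
  refine le_trans (by exact_mod_cast h1) (h.pw k _ (by norm_num) ?_)
  have h2 : (0 : ℝ) ≤ us U k := Nat.cast_nonneg _
  have h3 : (0 : ℝ) ≤ d := Nat.cast_nonneg _
  have b1 : (1 : ℝ) ≤ b := by exact_mod_cast h.b1
  have h4 := mul_nonneg (zero_le_one.trans b1) h2
  push_cast
  calc _ ≤ (10 ^ 8 * (b * (us U k + 1))) * (d + 3) * (d + 3 : ℝ) := by
        gcongr <;> linarith
    _ ≤ _ := by nlinarith [mul_nonneg (sq_nonneg (d + 3 : ℝ)) (add_nonneg h4 (zero_le_one.trans b1))]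

theorem J2 (j : ℕ) :
    16 * (f ^ 200 / (2 ^ us U j * (U : ℝ) ^ 800)) ≤ E.η / (aa U j : ℝ) ^ 200 := by
  have u9 := h.u9
  have a9 := h.big.a9' j
  have f0 := h.fpos
  have h1 : (aa U j : ℝ) ^ 200 ≤ 2 ^ us U j * (U : ℝ) ^ 200 := by
    cases j
    · simp [us, aa]
    · rename_i j
      have h2 : (aa U (j + 1) : ℝ) ≤ (aa U j : ℝ) ^ 2 := by exact_mod_cast h.big.sq_le j
      refine (pow_le_pow_left₀ (by positivity) h2 _).trans ?_
      rw [← pow_mul]
      exact ((h.big.pw1 j _ (c := 1 / 2) (by norm_num) (by norm_num)).trans (exp_half _)).trans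
        (le_mul_of_one_le_right (by positivity) (one_le_pow₀ (by linarith)))
  have h2 : 16 ≤ (U : ℝ) ^ 50 := le_trans (by linarith) (le_self_pow₀ (by linarith) (by norm_num))
  refine le_trans ?_ (div_le_div_of_nonneg_right h.η0 (by positivity))
  rw [← mul_div_assoc, div_div, div_le_div_iff₀ (by positivity) (by positivity)]
  calc _ ≤ (U : ℝ) ^ 50 * f ^ 200 * ((U : ℝ) ^ 550 * (2 ^ us U j * (U : ℝ) ^ 200)) := by gcongr
    _ = _ := by ring

theorem step (s : ℕ) : 1 / (aa U (ep U s) : ℝ) ^ 2 + 4 / ((s + 1 : ℕ) + U) ≤ 4 / (s + U) := by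
  have u9 := h.u9
  have h1 : (U : ℝ) ≤ aa U (ep U s) := by exact_mod_cast le_aa U _
  have h2 : (s + 1 : ℝ) ≤ aa U (ep U s) := by exact_mod_cast h.big.lt_aa s
  have h3 : (0 : ℝ) ≤ s := Nat.cast_nonneg s
  have h4 : (0 : ℝ) < aa U (ep U s) := by linarith
  push_cast
  rw [← le_sub_iff_add_le, div_sub_div _ _ (by positivity) (by positivity),
    div_le_div_iff₀ (by positivity) (by positivity)]
  nlinarith [mul_le_mul (show (s + U : ℝ) ≤ 2 * aa U (ep U s) by linarith)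
    (show (s + 1 + U : ℝ) ≤ 2 * aa U (ep U s) by linarith) (by positivity) (by positivity)]

theorem tail' (s : ℕ) : ∑ x with (pqB U b f k M s).D E.η 1 < nm x, E.gt x ^ 2 ≤
    (pqB U b f k M s).μ ^ 2 / ((pqB U b f k M s).P : ℝ) ^ 5 := by
  have u9 := h.u9
  have b1 := h.b1
  have p1 : (U : ℝ) ≤ aa U (ep U s) := by exact_mod_cast le_aa U _
  have p3 := h.big.a9 (ep U s)
  have D1 := h.le_D s 1
  have D0 : 0 < (pqB U b f k M s).D E.η 1 := (pow_pos (by omega) _).trans_le D1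
  have h1 : E.l0 * ((U ^ (200 * b) * (2 ^ s * U ^ 800)) ^ 2 * aa U (ep U s) ^ 6) ^ 4 ≤
      (pqB U b f k M s).D E.η 1 := calc
    _ = E.l0 * (256 ^ s * U ^ (1600 * b + 6400) * aa U (ep U s) ^ 24) := by
      rw [show 256 = 2 ^ 8 by norm_num, ← pow_mul]
      ring
    _ ≤ aa U (ep U s) ^ (1100 * b) * (aa U (ep U s) ^ s * aa U (ep U s) ^ (1600 * b + 6400) *
        aa U (ep U s) ^ 24) := by
      gcongr
      exacts [h.l0.trans (Nat.pow_le_pow_left (le_aa U _) _), by omega, le_aa U _]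
    _ = aa U (ep U s) ^ (s + 2700 * b + 6424) := by ring
    _ ≤ _ := (Nat.pow_le_pow_right (by omega) (by nlinarith)).trans D1
  have u0 : (0 : ℝ) < U := by linarith
  have a0 : (0 : ℝ) < aa U (ep U s) := by linarith
  have h2 : ((E.l0 : ℝ) / (pqB U b f k M s).D E.η 1) ^ (1 / 4 : ℝ) ≤
      1 / (((U : ℝ) ^ (200 * b) * (2 ^ s * (U : ℝ) ^ 800)) ^ 2 * (aa U (ep U s) : ℝ) ^ 6) := by
    refine root4 (by positivity) (by positivity) ?_
    rw [one_div_pow, div_le_div_iff₀ (Nat.cast_pos.2 D0) (by positivity), one_mul]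
    exact_mod_cast h1
  refine (h.tail _ D0).trans ((mul_le_mul p1 h2 (by positivity) (by positivity)).trans ?_)
  rw [pqB_μ]
  calc _ = (1 / (U : ℝ) ^ (200 * b) / (2 ^ s * (U : ℝ) ^ 800)) ^ 2 / (aa U (ep U s) : ℝ) ^ 5 := by
        field_simp
    _ ≤ _ := by
      simp only [pqB]
      gcongr
      exact h.f_ge

theorem ok (s : ℕ) : (pqB U b f k M s).OK E := by
  have u9 := h.u9
  have p1 : (U : ℝ) ≤ aa U (ep U s) := by exact_mod_cast le_aa U _
  have p2 : (s + 1 : ℝ) ≤ aa U (ep U s) := by exact_mod_cast h.big.lt_aa s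
  have p3 := h.big.a9 (ep U s)
  have p4 := h.big.lt_aa s
  have s0 : (0 : ℝ) ≤ s := Nat.cast_nonneg s
  have d0 : (0 : ℝ) ≤ d := Nat.cast_nonneg d
  have b1 : (1 : ℝ) ≤ b := by exact_mod_cast h.b1
  have b2 : (d + 3 : ℝ) * b ≤ U := by exact_mod_cast h.bU
  have f0 := h.fpos
  have st := h.step s
  have q1 : (0 : ℝ) ≤ 4 / ((s + 1 : ℕ) + U) := by positivity
  have q2 : 4 / (s + U : ℝ) ≤ 1 / 10 ^ 7 := by
    rw [div_le_iff₀ (by positivity)]
    linarith
  have q3 : (U : ℝ) ^ (200 * b + 800) ≤ exp (1 / 4 * aa U (ep U s)) :=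
    (pow_le_pow_left₀ (by positivity) p1 _).trans (h.pw1 _ _ (by norm_num) (by push_cast; linarith))
  have l1 : U ^ (1100 * b) ≤ (pqB U b f k M s).l := (Nat.pow_le_pow_left (le_aa U _) _).trans
    ((Nat.pow_le_pow_right (by omega) (by nlinarith)).trans (le_lB U b f k s))
  have m1 : exp (-(aa U (ep U s) : ℝ)) ≤ (pqB U b f k M s).μ := by
    rw [pqB_μ]
    refine le_trans ?_ (div_le_div_of_nonneg_right h.f_ge (by positivity))
    rw [exp_neg, div_div, one_div, mul_left_comm, ← pow_add]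
    refine inv_anti₀ (by positivity) ((mul_le_mul (two_pow_exp s) q3 (by positivity)
      (by positivity)).trans ?_)
    rw [← exp_add, exp_le_exp]
    linarith
  have j1 : 16 * (pqB U b f k M s).μ ≤ (pqB U b f k M s).μJ := by
    simp only [pqB, Par.μ, mul_pow, es_pow]
    gcongr
    exacts [one_le_two, h.big.us_ep s]
  have j2 : (pqB U b f k M s).μJ ≤ E.η / ((pqB U b f k M s).P : ℝ) ^ 200 := by
    simp only [pqB, mul_pow, es_pow, mul_one_div]
    exact h.J2 _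
  refine ⟨h.P1.trans p1, mul_pos f0 (div_pos (exp_pos _) (by positivity)), j1, j2, m1, ?_,
    sub_nonneg.2 q2, ?_, ?_, ?_, one_le_exp (by positivity), ?_, h.l0.trans l1, h.rH.trans l1,
    fun e => ?_, fun e => ?_, h.tail' s, fun e => ?_⟩
  · have := (exp_pos _).trans_le m1
    exact m1.trans (le_trans (by linarith) (j2.trans (div_le_self h.ηpos.le
      (one_le_pow₀ (by simp only [pqB]; linarith)))))
  · simp only [pqB]
    linarith
  · simp only [pqB]
    linarith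
  · simp only [pqB]
    linarith
  · rw [pqB_Bi, exp_le_exp, show ((pqB U b f k M s).P : ℝ) ^ 6 =
      (aa U (ep U s) : ℝ) ^ 3 * (aa U (ep U s) : ℝ) ^ 3 by simp only [pqB]; ring]
    gcongr
    have b3 : (b : ℝ) ≤ aa U (ep U s) := by nlinarith
    nlinarith [mul_le_mul b3 p2 (by positivity) (by positivity), mul_le_mul_of_nonneg_right
      (show (1000 : ℝ) ≤ aa U (ep U s) by linarith) (sq_nonneg (aa U (ep U s) : ℝ))]
  · have e1 : k ≤ ep U s := of_decide_eq_true e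
    have e2 : (aa U k : ℝ) ≤ aa U (ep U s) := by exact_mod_cast aa_mono U e1
    refine ⟨?_, h.M_pow.trans (exp_le_exp.2 ?_)⟩
    · simp only [pqB, if_pos e1]
      exact Nat.le_mul_of_pos_left _ (pow_pos (by omega) _)
    · simp only [pqB]
      nlinarith
  · have e1 : ep U s < k := not_le.1 (of_decide_eq_false e)
    constructor
    · have h1 : (200 * (pqB U b f k M s).D E.η 3 + 1) ^ (d + 2) ≤
          aa U (ep U s) ^ (10000 * b * (aa U (ep U s) + 1) * (d + 2)) := by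
        rw [pow_mul]
        refine Nat.pow_le_pow_left (le_trans ?_ (Nat.pow_le_pow_right (by omega)
          (h.D3_le le_rfl))) _
        have h2 := h.D_le e1 3
        have h3 := Nat.one_le_pow (10000 * b * (s + 1) + 1560 * b * 3 + 8) (aa U (ep U s)) (by omega)
        rw [pow_succ]
        nlinarith [Nat.mul_le_mul_left (aa U (ep U s) ^ (10000 * b * (s + 1) + 1560 * b * 3 + 8)) p3]
      refine le_trans (by exact_mod_cast h1) ((h.pw' _ _ (c := aa U (ep U s))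
        (by positivity) ?_).trans (by simp [pqB, sq]))
      push_cast
      calc _ ≤ 10000 * b * (2 * aa U (ep U s)) * (d + 3 : ℝ) ^ 2 := by
            gcongr <;> nlinarith
        _ ≤ _ := by nlinarith [mul_nonneg (mul_nonneg (sq_nonneg (d + 3 : ℝ))
          (Nat.cast_nonneg (aa U (ep U s)))) (zero_le_one.trans b1)]
    · obtain ⟨j, rfl⟩ : ∃ j, k = j + 1 := ⟨k - 1, by omega⟩
      have := h.D_rr e1 (Nat.lt_succ_iff.1 e1)
      rw [h.ρ1]
      omega
  · have e1 : s + 1 = aa U k := of_decide_eq_true e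
    have h1 := h.M_pow.trans (exp_half _)
    have h2 : 200 ≤ (U : ℝ) ^ 800 := le_trans (by linarith) (le_self_pow₀ (by linarith) (by norm_num))
    have h3 := mul_le_of_le_one_right (show (0 : ℝ) ≤ (M : ℝ) ^ d by positivity)
      (pow_le_one₀ (n := 200) f0.le h.f1)
    rw [← e1, pow_succ] at h1
    rw [pqB_μ, ← mul_div_assoc, div_le_iff₀ (by positivity)]
    nlinarith [mul_le_mul_of_nonneg_left h2 (show (0 : ℝ) ≤ 2 ^ s by positivity)]

end EHB

end Pool.Agent.P.MP_d0f69c_mp.XS
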