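import Pool.Agent.P.MP_d0f69c_mp.XS.SchB1

/-!
The schedule with a free exponent, part 2: the schedule is admissible.
-/

set_option autoImplicit false
set_option maxRecDepth 8000

open Finset Real

namespace Pool.Agent.P.MP_d0f69c_mp.XS

variable {d M : ℕ} [NeZero M]

namespace EHB

variable {E : Env d M} {U b k : ℕ} {f : ℝ} (h : EHB E U b f k)
include h

theorem next {s : ℕ} (hs : s + 1 < aa U k) : (pqB U b f k M s).Next E.η (pqB U b f k M (s + 1)) := by
  have ok := h.ok s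
  have m1 : ep U s ≤ ep U (s + 1) := h.big.ep_mono (Nat.le_succ s)
  have m2 := aa_mono U m1
  have p3 := h.big.a9 (ep U s)
  have p4 := h.big.lt_aa s
  have st := h.step s
  have μ1 : (pqB U b f k M (s + 1)).μ = (pqB U b f k M s).μ / 2 := by
    simp only [pqB_μ]
    ring
  refine ⟨μ1, m2, ?_, ?_, ?_, ?_, fun e => ?_, fun e => ?_⟩
  · simp only [pqB]
    linarith
  · rw [pqB_Bi]
    simp only [pqB]
    have b1 : (1 : ℝ) ≤ b := by exact_mod_cast h.b1
    push_cast
    rw [mul_assoc (60 : ℝ) b, mul_add (b : ℝ) (s + 1), mul_one]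
    gcongr
  · refine (Nat.mul_le_mul_right _ (Nat.pow_le_pow_left (h.Lg_le s) 3)).trans ?_
    have e1 : ∀ a n m : ℕ, (a ^ (1560 * b)) ^ 3 * (a ^ n * m) = a ^ (n + 4680 * b) * m :=
      fun a n m => by ring
    simp only [pqB, e1]
    refine Nat.mul_le_mul ((Nat.pow_le_pow_left m2 _).trans (Nat.pow_le_pow_right (by omega)
      (by rw [mul_add _ (s + 1)]; omega))) ?_
    split_ifs with a c
    exacts [le_rfl, absurd (a.trans m1) c, NeZero.pos M, le_rfl]
  · have m3 : (pqB U b f k M (s + 1)).P ≤ (pqB U b f k M s).P ^ 2 :=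
      (aa_mono U (h.big.ep_le.2 (by
        have := h.big.us3 (ep U s + 1)
        simp only [us] at this
        omega))).trans (h.big.sq_le _)
    have m4 : ((pqB U b f k M (s + 1)).P : ℝ) ^ 10 ≤ ((pqB U b f k M s).P : ℝ) ^ 20 := by
      exact_mod_cast (Nat.pow_le_pow_left m3 10).trans_eq (by ring)
    have m5 : (0 : ℝ) < (pqB U b f k M (s + 1)).P := lt_of_lt_of_le (by norm_num) (h.big.a9' _)
    have m6 : (10 : ℝ) ^ 9 ≤ (pqB U b f k M s).P := h.big.a9' _
    have η0 := h.ηpos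
    have η1 := h.η1
    rw [Par.misIn, μ1, le_div_iff₀ (by positivity)]
    generalize pqB U b f k M s = q at *
    have μ0 := ok.μpos
    have e0 := ok.e0
    have P1 : (1 : ℝ) ≤ q.P := by linarith
    have a1 : 82 * q.μ * (q.P : ℝ) ^ 59 ≤ √(E.η * (q.μ / 2)) := by
      refine le_sqrt_of_sq_le ?_
      have b1 := (le_div_iff₀ (by positivity)).1 (ok.μ_le.trans ok.J2)
      have b2 : 2 * 82 ^ 2 * (q.P : ℝ) ^ 118 ≤ (q.P : ℝ) ^ 200 := calc
        _ ≤ q.P * (q.P : ℝ) ^ 118 := by gcongr; linarith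
        _ = (q.P : ℝ) ^ 119 := by ring
        _ ≤ _ := pow_le_pow_right₀ P1 (by norm_num)
      calc _ = q.μ * (2 * 82 ^ 2 * (q.P : ℝ) ^ 118) * (q.μ / 2) := by ring
        _ ≤ q.μ * (q.P : ℝ) ^ 200 * (q.μ / 2) := by gcongr
        _ ≤ _ := by gcongr
    have a2 : q.late E.η → 20 * q.e ^ 120 * (q.P : ℝ) ^ 20 ≤ √(E.η * (q.μ / 2)) := fun hl => by
      refine le_sqrt_of_sq_le ?_
      have b1 := (le_div_iff₀ (by positivity)).1 hl.2
      have b2 : (800 : ℝ) ≤ (q.P : ℝ) ^ 20 := le_trans (by linarith) (le_self_pow₀ P1 (by norm_num))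
      have b3 : 800 * q.e ≤ 1 := by nlinarith
      calc _ = 800 * q.e * q.e ^ 37 * (q.e * (q.P : ℝ) ^ 20) * (q.e * (q.P : ℝ) ^ 20) *
            (q.e ^ 200 / 2) := by ring
        _ ≤ 1 * 1 * 1 * E.η * (q.e ^ 200 / 2) := by
          gcongr
          exacts [pow_le_one₀ e0.le (by linarith), b1.trans η1]
        _ = _ := by rw [Par.μ]; ring
    refine (mul_le_mul_of_nonneg_left m4 (by unfold Par.misOut; split_ifs <;> positivity)).trans ?_
    unfold Par.misOut
    split_ifs with c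
    · linarith [a2 c]
    · linarith [sqrt_nonneg (E.η * (q.μ / 2))]
  · have e1 : s + 1 ≠ us U (ep U (s + 1)) := by simpa [pqB] using e
    have e2 : ep U (s + 1) = ep U s :=
      le_antisymm (h.big.le_ep.2 (by have := h.big.us_ep (s + 1); omega)) m1
    simp only [pqB, e2, true_and, and_true]
    linarith
  · have e1 : s + 1 = us U (ep U (s + 1)) := by simpa [pqB] using e
    have e2 := us_mono U (h.big.ep_le.2 hs)
    simp only [pqB, decide_eq_false_iff_not, h.big.le_ep]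
    omega

theorem ρ_ge : U ≤ E.ρ1 := by
  obtain ⟨j, rfl⟩ : ∃ j, k = j + 1 := ⟨k - 1, by have := h.k1; omega⟩
  have := (le_aa U j).trans (Nat.le_self_pow (show 10000 * b * (aa U j + 2) ≠ 0 by
    have := h.b1; positivity) (aa U j))
  rw [h.ρ1, rrB_succ]
  omega

theorem vl_rr (j : ℕ) : (vl d M (rrB U b (j + 1)) : ℝ) ≤ exp ((aa U j : ℝ) ^ 2 / 2) := by
  have a9 := h.big.a9 j
  have a9' := h.big.a9' j
  have h1 : vl d M (rrB U b (j + 1)) ≤ aa U j ^ ((10000 * b * (aa U j + 2) + 1) * d) := by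
    rw [pow_mul]
    refine (vol_tn_le _).trans (Nat.pow_le_pow_left ?_ _)
    have := Nat.one_le_pow (10000 * b * (aa U j + 2)) (aa U j) (by omega)
    rw [rrB_succ, pow_succ]
    nlinarith [Nat.mul_le_mul_left (aa U j ^ (10000 * b * (aa U j + 2))) a9]
  refine le_trans (by exact_mod_cast h1) ((h.pw' j _ (c := aa U j / 2) (by positivity)
    ?_).trans_eq (by ring_nf))
  have d0 : (0 : ℝ) ≤ d := Nat.cast_nonneg d
  push_cast
  have b1 : (1 : ℝ) ≤ b := by exact_mod_cast h.b1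
  have b2 := mul_le_mul_of_nonneg_left a9' (zero_le_one.trans b1)
  calc _ ≤ (10 ^ 5 * (b * aa U j)) * (d + 3 : ℝ) ^ 2 := by
        gcongr <;> nlinarith
    _ ≤ _ := by nlinarith [mul_nonneg (sq_nonneg (d + 3 : ℝ)) (mul_nonneg (zero_le_one.trans b1)
      (Nat.cast_nonneg (aa U j)))]

theorem sum_ep (j : ℕ) : 8 * ∑ s ∈ Ico (us U j) (aa U j), exp (-((pqB U b f k M s).P : ℝ) ^ 3 / 5) ≤
    exp (aa U j - (aa U j : ℝ) ^ 3 / 5) := by
  have a9 := h.big.a9' j
  have h1 := h.big.pw1 j 2 (c := 1) zero_le_one (by norm_num)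
  rw [sum_congr rfl (g := fun _ => exp (-(aa U j : ℝ) ^ 3 / 5)) fun s hs => by
    simp only [pqB, h.big.ep_eq (mem_Ico.1 hs).1 (mem_Ico.1 hs).2], sum_const, Nat.card_Ico,
    nsmul_eq_mul, sub_eq_add_neg, exp_add, ← mul_assoc, neg_div]
  gcongr
  have : ((aa U j - us U j : ℕ) : ℝ) ≤ aa U j := by exact_mod_cast Nat.sub_le _ _
  rw [one_mul] at h1
  nlinarith

theorem win {j s : ℕ} (hj : j < k) (h1 : aa U j / 2 ≤ s) (h2 : s < aa U j) :
    (pqB U b f k M s).late E.η ∧
      5 * rrB U b j + (pqB U b f k M (us U j)).D E.η 0 ≤ (pqB U b f k M s).D E.η 1 ∧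
      ((aa U j / 3 : ℕ) : ℝ) * (vl d M (5 * rrB U b j + (pqB U b f k M (us U j)).D E.η 0) : ℝ) ≤
        1 / (pqB U b f k M s).e := by
  have a9 := h.big.a9 j
  have a9' := h.big.a9' j
  have u3 := h.big.us3 j
  have u9 := h.u9
  have e1 := h.big.ep_eq (show us U j ≤ s by omega) h2
  have c1 : (1 : ℝ) ≤ b := by exact_mod_cast h.b1
  have c2 := Nat.mul_le_mul_left (10000 * b) (show us U j + 2 ≤ s + 1 by omega)
  have e2 : f * es U s ≤ (exp (1 / 1000 * aa U j))⁻¹ := by
    refine (mul_le_of_le_one_left (by unfold es; positivity) h.f1).trans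
      ((es_le (by have := h.big.u; omega) s).trans ?_)
    have : (aa U j : ℝ) ≤ 2 * s + 1 := by exact_mod_cast (show aa U j ≤ 2 * s + 1 by omega)
    rw [← exp_neg, exp_le_exp]
    linarith
  have e3 : 5 * rrB U b j + (pqB U b f k M (us U j)).D E.η 0 ≤ aa U j ^ (10000 * b * (us U j + 2) + 2) := by
    have b1 := h.big.rrB_le b j
    have b2 := h.D_le (s := us U j) (by rwa [h.big.ep_us]) 0
    rw [h.big.ep_us] at b2
    have b3 := b2.trans (Nat.pow_le_pow_right (by omega)
      (show _ ≤ 10000 * b * (us U j + 2) + 1 by have := h.b1; simp only [mul_add]; omega))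
    rw [pow_succ]
    nlinarith [Nat.mul_le_mul_left (aa U j ^ (10000 * b * (us U j + 2) + 1)) a9]
  refine ⟨⟨by simpa [pqB, e1] using hj, ?_⟩, e3.trans (le_trans ?_ (h.le_D s 1)), ?_⟩
  · simp only [pqB, e1]
    refine e2.trans (le_trans ?_ (div_le_div_of_nonneg_right h.η_ge (by positivity)))
    rw [div_div, one_div (_ * _)]
    refine inv_anti₀ (by positivity) (le_trans ?_ (h.pw1 j (750 * b + 20) (c := 1 / 1000)
      (by norm_num) (by push_cast; linarith)))
    rw [pow_add]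
    gcongr
    exact le_aa U j
  · rw [e1]
    exact Nat.pow_le_pow_right (by omega) (by omega)
  · have b1 : aa U j / 3 * vl d M (5 * rrB U b j + (pqB U b f k M (us U j)).D E.η 0) ≤
        aa U j ^ ((10000 * b * (us U j + 2) + 2 + 1) * d + 1) := by
      rw [pow_succ', pow_mul]
      refine Nat.mul_le_mul (Nat.div_le_self _ _) ((vol_tn_le _).trans (Nat.pow_le_pow_left ?_ _))
      have := Nat.one_le_pow (10000 * b * (us U j + 2) + 2) (aa U j) (by omega)
      rw [pow_succ]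
      nlinarith [Nat.mul_le_mul_left (aa U j ^ (10000 * b * (us U j + 2) + 2)) a9]
    refine le_trans (by exact_mod_cast b1) ((h.pw j _ (c := 1 / 1000) (by norm_num) ?_).trans ?_)
    · have d0 : (0 : ℝ) ≤ d := Nat.cast_nonneg d
      have u0 : (0 : ℝ) ≤ us U j := Nat.cast_nonneg _
      push_cast
      have u1 := mul_nonneg (zero_le_one.trans c1) u0
      nlinarith [mul_nonneg u1 d0, mul_nonneg (add_nonneg u1 (zero_le_one.trans c1))
        (sq_nonneg (d : ℝ)), mul_le_mul_of_nonneg_left c1 d0]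
    · rw [one_div (pqB U b f k M s).e]
      exact (le_inv_comm₀ (exp_pos _) (h.ok s).e0).2 e2

theorem sched : (schB U b f k M).OK E := by
  have ρ9 := h.big.u.trans h.ρ_ge
  have k9 := h.big.a9' k
  have Mp := h.M_pow
  refine ⟨rfl, fun j _ => h.big.us_lt j, fun s _ => h.ok s, fun s hs => h.next hs, fun s hs => ?_,
    fun s _ => by simpa [schB, pqB] using h.big.le_ep, ?_, h.k1, ?_, fun j _ => ?_,
    fun j hj s hs => ?_, fun j hj => ⟨aa U j / 2, ?_, ?_, fun s h1 h2 => h.win hj h1 ?_⟩, ?_,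
    fun j _ => ?_, ?_, ?_, ?_, h.ρ1.ge, (dvd_pow_self _ (by omega)).trans (dvd_of_eq h.hM.symm), h.ρs.ge, ?_, h.Ω, ?_⟩
  · simp only [schB, pqB, decide_eq_true_eq]
    exact ⟨fun e => ⟨_, h.big.ep_le.2 hs, e⟩, fun ⟨j, _, e⟩ => by rw [e, h.big.ep_us]⟩
  · have := h.big.a9 k
    simp only [schB, pqB, us, decide_eq_true_eq]
    omega
  · simp only [schB, rrB, us, Nat.zero_max]
    rw [show 10000 * b * (0 + 2) = 20000 * b by ring]
    omega
  · have h1 := h.big.us_lt j
    have h2 := Nat.mul_le_mul_left (10000 * b) (show us U j + 2 + 1 ≤ aa U j + 2 by omega)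
    have h3 := h.b1
    simp only [schB, rrB_succ]
    rw [mul_add _ _ 1] at h2
    exact (h.big.rrB_le b j).trans ((Nat.pow_le_pow_right (by omega) (by omega)).trans
      (Nat.le_mul_of_pos_left _ (by norm_num)))
  · have h1 := h.big.ep_le.2 hs
    have := h.D_rr (h1.trans_lt hj) h1
    simp only [schB, Par.rad]
    omega
  · have := h.big.us3 j
    have := h.big.a9 j
    simp only [schB]
    omega
  · have := h.big.a9 j
    simp only [schB, us]
    omega
  · have := h.big.a9 j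
    simp only [schB] at h2
    omega
  · have h1 : vl d M (rrB U b 0) ≤ aa U 0 ^ ((10000 * b * (us U 0 + 2) + 1) * d) := by
      have h2 := h.big.rrB_le b 0
      have h3 : 0 < rrB U b 0 := Nat.mul_pos (by norm_num) (pow_pos (by
        have := h.big.u; omega) _)
      rw [pow_mul]
      exact (vol_tn_le _).trans (Nat.pow_le_pow_left (by omega) _)
    have d0 : (0 : ℝ) ≤ d := Nat.cast_nonneg d
    have b1 : (1 : ℝ) ≤ b := by exact_mod_cast h.b1
    have h2 := le_trans (a := (vl d M (rrB U b 0) : ℝ)) (by exact_mod_cast h1)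
      (h.pw' 0 _ (c := 1) zero_le_one (by
      simp only [us]
      push_cast
      nlinarith [mul_nonneg (zero_le_one.trans b1) (sq_nonneg (d : ℝ)),
        mul_le_mul_of_nonneg_left b1 d0]) : (aa U 0 : ℝ) ^ ((10000 * b * (us U 0 + 2) + 1) * d) ≤ _)
    refine (mul_le_mul_of_nonneg_right h2 (exp_pos _).le).trans ?_
    rw [← exp_add, exp_le_exp]
    simp only [schB, aa]
    nlinarith [h.u9]
  · have a9 := h.big.a9' j
    have h1 := h.vl_rr j
    have h2 := h.sum_ep j
    have h3 : 8 * (aa U (j + 1) : ℝ) ^ 2 ≤ (aa U j : ℝ) ^ 3 := by exact_mod_cast h.big.cube j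
    have h4 : (aa U j : ℝ) ≤ 3 * ((aa U j / 3 + 1 : ℕ) : ℝ) := by
      exact_mod_cast (show aa U j ≤ 3 * (aa U j / 3 + 1) by omega)
    have h5 := mul_le_mul h1 h2 (by positivity) (by positivity)
    have h6 : (vl d M (rrB U b (j + 1)) * exp (-(aa U j : ℝ) ^ 2)) ^ (aa U j / 3 + 1) ≤
        exp (-(aa U j : ℝ) ^ 3 / 6) := by
      refine (pow_le_pow_left₀ (by positivity) (mul_le_mul_of_nonneg_right h1 (exp_pos _).le)
        _).trans ?_
      rw [← exp_add, ← exp_nat_mul, exp_le_exp]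
      nlinarith [mul_le_mul_of_nonneg_right h4 (sq_nonneg (aa U j : ℝ))]
    have h7 : (10 : ℝ) ^ 9 * (aa U j : ℝ) ^ 2 ≤ (aa U j : ℝ) ^ 3 := by nlinarith
    have h8 : (10 : ℝ) ^ 9 * aa U j ≤ (aa U j : ℝ) ^ 2 := by nlinarith
    have h9 : exp (-(aa U j : ℝ) ^ 3 / 6) ≤ exp (-(aa U (j + 1) : ℝ) ^ 2) / 2 := by
      have := exp_small (y := (aa U j : ℝ) ^ 3 / 24) (c := 2) 0 two_pos (by push_cast; linarith)
      calc _ ≤ exp (-(aa U (j + 1) : ℝ) ^ 2 + -((aa U j : ℝ) ^ 3 / 24)) :=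
            exp_le_exp.2 (by linarith)
        _ ≤ _ := by
          rw [exp_add, div_eq_mul_one_div (exp _)]
          gcongr
          simpa using this
    have h10 : exp ((aa U j : ℝ) ^ 2 / 2) * exp (aa U j - (aa U j : ℝ) ^ 3 / 5) ≤
        exp (-(aa U (j + 1) : ℝ) ^ 2) := by
      rw [← exp_add, exp_le_exp]
      linarith
    simp only [schB, show us U (j + 1) = aa U j from rfl]
    linarith
  · refine (mul_le_mul_of_nonneg_right Mp (exp_pos _).le).trans ?_
    have := exp_small (y := (aa U k : ℝ) ^ 2 - 1 / 2 * aa U k) (c := 10) 0 (by norm_num)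
      (by push_cast; nlinarith)
    rw [← exp_add]
    simpa [schB, add_comm, sub_eq_add_neg] using this
  · have h1 := mul_le_mul Mp (h.sum_ep k) (by positivity) (by positivity)
    have h2 := exp_small (y := -(1 / 2 * aa U k + (aa U k - (aa U k : ℝ) ^ 3 / 5))) (c := 10) 0
      (by norm_num) (by
        push_cast
        nlinarith [mul_le_mul k9 (show 100 ≤ (aa U k : ℝ) ^ 2 by nlinarith) (by norm_num)
          (by positivity), mul_le_mul_of_nonneg_left (show 100 ≤ (aa U k : ℝ) ^ 2 by nlinarith)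
            (show (0 : ℝ) ≤ aa U k by positivity)])
    rw [← exp_add] at h1
    rw [neg_neg, pow_zero] at h2
    simp only [schB, show us U (k + 1) = aa U k from rfl]
    linarith [exp_pos (1 / 2 * aa U k + (aa U k - (aa U k : ℝ) ^ 3 / 5))]
  · refine (sum_le_sum (g := fun j => (1 / 2 : ℝ) ^ j / 20) fun j _ => ?_).trans ?_
    · have a9 := h.big.a9' j
      have h1 : (j : ℝ) ≤ aa U j := by exact_mod_cast (Nat.le_add_right j U).trans (h.big.idx j)
      have h2 : (aa U j : ℝ) ≤ aa U (j + 1) := by exact_mod_cast aa_le U j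
      have h3 := exp_small (y := (aa U j : ℝ) ^ 2 / 2) (c := 40) j (by norm_num) (by nlinarith)
      have h4 := exp_small (y := (aa U (j + 1) : ℝ) ^ 2) (c := 40) j (by norm_num) (by nlinarith)
      have h5 := mul_le_mul_of_nonneg_right (h.vl_rr j) (exp_pos (-(aa U j : ℝ) ^ 2)).le
      rw [← exp_add, show (aa U j : ℝ) ^ 2 / 2 + -(aa U j : ℝ) ^ 2 = -((aa U j : ℝ) ^ 2 / 2) by
        ring] at h5
      simp only [schB]
      linarith
    · rw [← sum_div]
      linarith [sum_geometric_two_le (schB U b f k M).k]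
  · refine le_trans ?_ ((Nat.pow_le_pow_right (by omega) (Nat.le_add_left 3 d)).trans h.hM.ge)
    rw [pow_succ' _ 2]
    exact Nat.mul_le_mul_right _ (by omega)
  · have r9 : (10 : ℝ) ^ 9 ≤ E.ρ1 := by exact_mod_cast ρ9
    have h1 := h.big.lg E.ρ1 (by exact_mod_cast h.ρ_ge)
    have h2 : (1 : ℝ) ≤ log E.ρ1 := by
      rw [le_log_iff_exp_le (by linarith)]
      linarith [exp_one_lt_d9]
    have d0 : (0 : ℝ) ≤ d := Nat.cast_nonneg d
    have b1 : (1 : ℝ) ≤ b := by exact_mod_cast h.b1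
    have b2 : (d + 3 : ℝ) ^ 2 ≤ (((d + 3) * b : ℕ) + 3 : ℝ) ^ 2 := by
      push_cast
      gcongr
      nlinarith
    have h3 := mul_le_mul b2 h2 zero_le_one (sq_nonneg _)
    have h4 := (le_self_pow₀ (by nlinarith) (by norm_num)).trans h1
    have h6 := mul_le_mul_of_nonneg_right b2 (zero_le_one.trans h2)
    have h5 : (M : ℝ) ^ d ≤ 2 ^ E.ρ1 := by
      refine le_trans ?_ (exp_half _)
      nth_rw 1 [h.hM]
      rw [Nat.cast_pow, ← pow_mul, ← exp_log (show (0 : ℝ) < E.ρ1 by linarith), ← exp_nat_mul,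
        exp_log (by linarith), exp_le_exp]
      push_cast
      nlinarith [mul_nonneg d0 (zero_le_one.trans h2)]
    obtain ⟨m, e⟩ : ∃ m, E.ρ1 = m + 3 := ⟨E.ρ1 - 3, by omega⟩
    rw [e] at h5 ⊢
    refine (mul_le_mul_of_nonneg_right h5 (by positivity)).trans ?_
    have := pow_le_one₀ (n := m) (show (0 : ℝ) ≤ 2 * (1 / 10) by norm_num) (by norm_num)
    rw [show m + 3 - 1 = m + 2 by omega, pow_add, pow_add]
    rw [mul_pow] at this
    linarith

end EHB

end Pool.Agent.P.MP_d0f69c_mp.XS
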