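import Pool.Agent.P.MP_d0f69c_mp.XS.IfSel
import Pool.Agent.P.MP_d0f69c_mp.XS.Mono

/-!
The survivors of the selection have the required properties.
-/

set_option autoImplicit false

open Finset Real

namespace Pool.Agent.P.MP_d0f69c_mp.XS

namespace SelDA

variable {d M : ℕ} [NeZero M] {E : Env d M} {q : Par} {S : St (Tor d M)} {s : ℕ}
  {w : Tor d M → Fin q.Km}

theorem mem_frz {y : Tor d M} :
    y ∈ frz E q S w ↔ ∃ x, Fail E q S x w ∧ nm (x - y) ≤ q.D E.η 1 := by simp [frz]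

theorem not_fail {y : Tor d M} (h : y ∉ frz E q S w) : ¬ Fail E q S y w := fun hf =>
  h (mem_frz.2 ⟨y, hf, by rw [nm_self]; exact Nat.zero_le _⟩)

theorem mem_sig {y : Tor d M} : y ∈ (selS E q S s w).sig ↔
    (y ∈ cand E q S ∧ w y = 0 ∧ ∀ z ∈ nbr E q S y, w z ≠ 0) ∧ y ∉ frz E q S w := by
  simp only [selS, mem_sdiff, mem_filter]

theorem mem_good {y : Tor d M} :
    y ∈ (selS E q S s w).good ↔ y ∈ S.good ∧ y ∉ frz E q S w := mem_sdiff

theorem mem_cand {y : Tor d M} : y ∈ cand E q S ↔ y ∈ S.good ∧ q.last = false ∧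
    (q.fin = false → ∀ x ∈ S.omg, ‖S.G x y‖ ^ 2 ≤ q.μ / 8) ∧
    ∀ b ∈ spc E q S, ‖S.G b y‖ ^ 2 ≤ q.e ^ 190 / 4 := by simp only [cand, mem_filter]

theorem mem_nbr {y z : Tor d M} : z ∈ nbr E q S y ↔ (z ≠ y ∧ z ∈ S.good) ∧ y ∈ S.good ∧
    (q.μ / 8 < ‖S.G y z‖ ^ 2 ∨ q.μ ^ 2 / (q.P : ℝ) ^ 4 < E.gt (y - z) ^ 2) := by
  simp only [nbr, mem_filter, mem_erase]

theorem mem_spc {b : Tor d M} : b ∈ spc E q S ↔ b ∈ S.junk ∧ q.late E.η ∧
    ((S.junk ∩ bl b (4 * q.D E.η 1)).card : ℝ) ≤ 1 / q.e := by simp only [spc, mem_filter]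

theorem cst (hq : q.OK E) (hE : E.OK) {b : ℕ} (hb : 0 < b) {c : ℝ} (hc : c ≤ 10 ^ 9) :
    c ≤ (q.P : ℝ) ^ b := by simpa using hq.pow_lt hE hb hc

theorem sel_O : (selS E q S s w).O = S.O := MonoA.freeze_O S _

theorem sel_G : (selS E q S s w).G = S.G := rfl

theorem sel_rowA (f : Bool) : (selS E q S s w).rowA f ⊆ S.rowA f := MonoA.freeze_rowA S _ f

theorem μr_le (hq : q.OK E) (x : Tor d M) : μr q S x ≤ μr q (selS E q S s w) x := by
  by_cases h : x ∈ (selS E q S s w).rowA q.fin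
  · simp only [μr, h, sel_rowA _ h, if_true, le_refl]
  · simp only [μr, h, if_false]; exact hq.μr_le S x

/-- a sum over a set is bounded by its near part and the far tail -/
theorem split {A B : Finset (Tor d M)} {x : Tor d M} {D : ℕ} {f : Tor d M → ℝ} (hf : ∀ y, 0 ≤ f y)
    (h : ∀ y ∈ A, nm (y - x) ≤ D → y ∈ B) :
    ∑ y ∈ A, f y ≤ ∑ y ∈ B, f y + ∑ y with D < nm (y - x), f y := by
  rw [← sum_filter_add_sum_filter_not A fun y => nm (y - x) ≤ D]
  refine add_le_add (sum_le_sum_of_subset_of_nonneg (fun y hy => ?_) fun y _ _ => hf y)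
    (sum_le_sum_of_subset_of_nonneg (fun y hy => ?_) fun y _ _ => hf y)
  · exact h y (mem_filter.1 hy).1 (mem_filter.1 hy).2
  · exact mem_filter.2 ⟨mem_univ _, not_le.1 (mem_filter.1 hy).2⟩

end SelDA

open SelDA

theorem t_seld (hF : S_SELF) : S_SELD := by
  intro d M _ E q S s w hE hq hI
  have hμ := hq.μpos
  have hP := hq.Ppos hE
  refine ⟨fun y hy => ?_, fun b hb => ?_, fun x hx y hy hxy => ?_, fun x hx y hy => ?_,
    fun x hx => ?_, fun x hx => ?_, fun y hy => ?_, fun hl => ?_⟩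
  · exact mem_good.2 ⟨(mem_cand.1 (mem_sig.1 hy).1.1).1, (mem_sig.1 hy).2⟩
  · exact mem_union_left _ (mem_spc.1 hb).1
  · obtain ⟨h1, h2⟩ := mem_sdiff.1 hx
    obtain ⟨⟨y1, y2, -⟩, -⟩ := mem_sig.1 hy
    by_cases hg : x ∈ (selS E q S s w).good
    · have h3 : x ∈ (selS E q S s w).sig := by
        by_contra h4
        exact h2 (mem_sdiff.2 ⟨hg, h4⟩)
      have h5 : y ∉ nbr E q S x := fun h6 => (mem_sig.1 h3).1.2.2 y h6 y2
      by_contra h6
      exact h5 (mem_nbr.2 ⟨⟨hxy.symm, (mem_cand.1 y1).1⟩, (mem_good.1 hg).1,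
        Or.inl (not_le.1 h6)⟩)
    · cases hf : q.fin
      · rw [hf] at h1
        exact (mem_cand.1 y1).2.2.1 hf x ((mem_union.1 h1).resolve_left hg)
      · rw [hf] at h1
        exact absurd h1 hg
  · exact (mem_cand.1 (mem_sig.1 hy).1.1).2.2.2 x hx
  · rw [sel_O] at hx
    rw [sel_G]
    have h1 := (hF d M E q S hE hq hI x hx).2
    have h2 : μr q S x ^ 2 ≤ μr q (selS E q S s w) x ^ 2 :=
      pow_le_pow_left₀ (hq.μr_pos S x).le (μr_le hq x) 2
    have h3 : q.μ ^ 2 ≤ μr q S x ^ 2 := pow_le_pow_left₀ hμ.le (hq.μ_le_μr S x) 2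
    have h4 : 2 * μr q S x ^ 2 ≤ (q.P : ℝ) ^ 20 * μr q S x ^ 2 :=
      mul_le_mul_of_nonneg_right (cst hq hE (by norm_num) (by norm_num)) (sq_nonneg _)
    have h5 := mul_le_mul_of_nonneg_left h2 (by positivity : (0 : ℝ) ≤ (q.P : ℝ) ^ 20)
    have h6 := sq_nonneg (μr q S x)
    by_cases hf : Fail E q S x w
    · have h7 := split (A := (selS E q S s w).sig.erase x) (B := ∅) (x := x) (D := q.D E.η 1)
        (f := fun y => ‖S.G x y‖ ^ 4) (fun y => by positivity) fun y hy hn =>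
          absurd (mem_frz.2 ⟨x, hf, by rwa [nm_comm]⟩) (mem_sig.1 (mem_of_mem_erase hy)).2
      rw [sum_empty] at h7
      linarith
    · have h8 : ¬ Fl1 E q S x w := fun h => hf ⟨hx, Or.inl h⟩
      have h7 := split (A := (selS E q S s w).sig.erase x)
        (B := ((S.good ∩ bl x (q.D E.η 1)).erase x).filter fun y => w y = 0) (x := x)
        (D := q.D E.η 1) (f := fun y => ‖S.G x y‖ ^ 4) (fun y => by positivity) fun y hy hn => by
          obtain ⟨a1, a2⟩ := mem_erase.1 hy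
          obtain ⟨⟨y1, y2, -⟩, -⟩ := mem_sig.1 a2
          exact mem_filter.2 ⟨mem_erase.2 ⟨a1, mem_inter.2 ⟨(mem_cand.1 y1).1, mem_bl.2 hn⟩⟩, y2⟩
      have h9 := not_le.1 h8
      linarith
  · obtain ⟨h1, h2⟩ := mem_good.1 hx
    have hO : x ∈ S.O := mem_union_left _ (mem_union_left _ h1)
    have h3 : ¬ Fl2 E q S x w := fun h => not_fail h2 ⟨hO, Or.inr ⟨h1, Or.inl h⟩⟩
    refine (not_le.1 h3).le.trans ?_
    rw [sel_G, sel_O, ← sum_union]
    · refine sum_le_sum_of_subset_of_nonneg (fun z hz => ?_) fun z hz _ => ?_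
      · rcases mem_union.1 hz with h4 | h4
        · have h5 : z ∉ S.good := fun h6 => (mem_union.1 h4).elim (disjoint_left.1 hI.go h6)
            (disjoint_left.1 hI.gj h6)
          refine mem_erase.2 ⟨fun h => h5 (h ▸ h1), mem_sdiff.2 ⟨?_, fun h =>
            h5 (mem_good.1 (mem_sdiff.1 h).1).1⟩⟩
          rcases mem_union.1 h4 with h6 | h6
          exacts [mem_union_left _ (mem_union_right _ h6), mem_union_right _ h6]
        · obtain ⟨a1, a2⟩ := mem_filter.1 h4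
          obtain ⟨a3, a4⟩ := mem_erase.1 a1
          have a5 := (mem_inter.1 a4).1
          exact mem_erase.2 ⟨a3, mem_sdiff.2 ⟨mem_union_left _ (mem_union_left _ (mem_cand.1 a5).1),
            fun h => (mem_sdiff.1 h).2 (mem_sig.2 ⟨⟨a5, a2⟩, (mem_good.1 (mem_sdiff.1 h).1).2⟩)⟩⟩
      · have h4 := (abs_le.1 (hI.opn z (mem_sdiff.1 (mem_of_mem_erase hz)).1).2).1
        have h5 : (q.b1 E.η).θ ≤ 1 / 10 ^ 7 := hq.θ_add hE (c := 1) (by norm_num)
        exact mul_nonneg (by change 0 ≤ aw E.η S.W z; linarith) (sq_nonneg _)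
    · refine disjoint_left.2 fun z h4 h5 => ?_
      have h6 := (mem_cand.1 (mem_inter.1 (mem_of_mem_erase (mem_filter.1 h5).1)).1).1
      exact (mem_union.1 h4).elim (disjoint_left.1 hI.go h6) (disjoint_left.1 hI.gj h6)
  · obtain ⟨⟨y1, -, y3⟩, y4⟩ := mem_sig.1 hy
    have h1 := (mem_cand.1 y1).1
    have hO : y ∈ S.O := mem_union_left _ (mem_union_left _ h1)
    have h3 : ¬ Fl3 E q S y w := fun h => not_fail y4 ⟨hO, Or.inr ⟨h1, Or.inr h⟩⟩
    have h7 := split (A := (selS E q S s w).sig.erase y)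
      (B := ((S.good ∩ bl y (q.D E.η 1)).erase y \ nbr E q S y).filter fun v => w v = 0) (x := y)
      (D := q.D E.η 1) (f := fun v => E.gt (y - v) ^ 2) (fun v => sq_nonneg _) fun v hv hn => by
        obtain ⟨a1, a2⟩ := mem_erase.1 hv
        obtain ⟨⟨v1, v2, -⟩, -⟩ := mem_sig.1 a2
        exact mem_filter.2 ⟨mem_sdiff.2 ⟨mem_erase.2 ⟨a1, mem_inter.2 ⟨(mem_cand.1 v1).1,
          mem_bl.2 hn⟩⟩, fun h => y3 v h v2⟩, v2⟩
    have h8 : ∑ v with q.D E.η 1 < nm (v - y), E.gt (y - v) ^ 2 =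
        ∑ x with q.D E.η 1 < nm x, E.gt x ^ 2 :=
      sum_equiv (Equiv.subLeft y) (fun v => by simp [nm_comm v y]) fun v _ => rfl
    have h9 : q.μ ^ 2 / (q.P : ℝ) ^ 5 ≤ q.μ ^ 2 / 20 :=
      div_le_div_of_nonneg_left (sq_nonneg _) (by norm_num)
        (cst hq hE (by norm_num) (by norm_num))
    have h10 := hq.tail
    have h11 := not_le.1 h3
    linarith
  · refine eq_empty_of_forall_notMem fun y hy => ?_
    have := (mem_cand.1 (mem_sig.1 hy).1.1).2.1
    rw [hl] at this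
    exact Bool.noConfusion this

end Pool.Agent.P.MP_d0f69c_mp.XS
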