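import Pool.Agent.P.MP_d0f69c_mp.XS.SelD

/-!
The selection step as a random stage.
-/

set_option autoImplicit false

open Finset Real

namespace Pool.Agent.P.MP_d0f69c_mp.XS

namespace SelectA

open SelDA

variable {d M : ℕ} [NeZero M] {E : Env d M} {q : Par} {S : St (Tor d M)} {s : ℕ}

theorem mem_ev {w : Tor d M → Fin q.Km} {ℓ : Lab (Tor d M)} : ℓ ∈ (selS E q S s w).ev ↔
    ℓ ∈ S.ev ∨ ∃ x, Fail E q S x w ∧ (s, 0, x) = ℓ := by
  simp only [selS, mem_union, mem_image, mem_filter, mem_univ, true_and]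

/-- a failure depends on the marks nearby only -/
theorem fail_loc (hn : ∀ y, nbr E q S y ⊆ bl y (q.D E.η 1)) {x : Tor d M}
    {w w' : Tor d M → Fin q.Km} (h : ∀ y ∈ bl x (2 * q.D E.η 1), w y = w' y)
    (hf : Fail E q S x w) : Fail E q S x w' := by
  have h1 : ∀ y ∈ bl x (q.D E.η 1), w y = w' y := fun y hy =>
    h y (mem_bl.2 ((mem_bl.1 hy).trans (by omega)))
  have h2 : ∀ y ∈ bl x (q.D E.η 1), ∀ z ∈ nbr E q S y, w z = w' z := fun y hy z hz => by
    have a1 := mem_bl.1 hy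
    have a2 := mem_bl.1 (hn y hz)
    have a3 := nm_tri z y x
    exact h z (mem_bl.2 (by omega))
  refine ⟨hf.1, hf.2.imp (fun a => ?_) fun a => ⟨a.1, a.2.imp (fun b => ?_) fun b => ?_⟩⟩
  · unfold Fl1 at a ⊢
    rwa [filter_congr fun y hy => by rw [← h1 y (mem_inter.1 (mem_of_mem_erase hy)).2]]
  · unfold Fl2 at b ⊢
    rwa [filter_congr (q := fun z => w z = 0 ∧ ∀ y ∈ nbr E q S z, w y ≠ 0) fun y hy => by
      have c := (mem_inter.1 (mem_of_mem_erase hy)).2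
      rw [← h1 y c]
      exact and_congr_right fun _ => forall₂_congr fun z hz => by rw [h2 y c z hz]]
  · unfold Fl3 at b ⊢
    rwa [filter_congr fun y hy => by
      rw [← h1 y (mem_inter.1 (mem_of_mem_erase (mem_sdiff.1 hy).1)).2]]

/-- the stage -/
noncomputable def stg (E : Env d M) (q : Par) (s : ℕ) : Stage (Tor d M) E.N :=
  ⟨Tor d M → Fin q.Km, inferInstance, inferInstance, fun S _ w => selS E q S s w⟩

end SelectA

open SelectA SelDA

theorem t_select (h1 : S_INDEP) (h2 : S_FREEZE) (h3 : S_SELN) (h4 : S_SELP) (h5 : S_SELD) :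
    S_SELECT := by
  intro d M _ E q s hE hq
  have hμ := hq.μpos
  have hP := hq.Ppos hE
  refine ⟨stg E q s, ⟨fun S ϖ α => ⟨?_, fun _ _ => rfl⟩, fun S ϖ α => ⟨subset_union_left, ?_⟩,
    fun S ϖ α hI => ⟨?_, h5 d M E q S s α hE hq hI⟩, fun S ϖ α _ hc x hx => ?_,
    fun S ϖ α _ => ⟨sdiff_subset, Subset.rfl, sel_O.subset⟩, fun i hi _ S hI ϖ I hs => ?_,
    fun S ϖ α c _ _ hc hn => ?_, fun S ϖ α _ _ x hx => ?_, fun S ϖ α _ _ o ho hn => absurd ho hn⟩,
    fun S ϖ α _ => ⟨rfl, subset_union_left, fun hl b hb hc => mem_spc.2 ⟨hb, hl, hc⟩⟩⟩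
  · exact union_subset_union_left sdiff_subset
  · intro ℓ hl hn
    obtain ⟨x, -, rfl⟩ := (mem_ev.1 hl).resolve_left hn
    exact ⟨rfl, mem_singleton_self _⟩
  · have a1 : (q.b1 E.η).θ ≤ 1 / 10 ^ 7 := hq.θ_add hE (c := 1) (by norm_num)
    have a2 : 0 ≤ (q.b1 E.η).θ := add_nonneg hq.θ0 (by positivity)
    have a3 : (1 / 2 : ℝ) ^ 2 ≤ (q.ζ + 1 / (q.P : ℝ) ^ 3) ^ 2 :=
      pow_le_pow_left₀ (by norm_num) (hq.ζ0.trans (le_add_of_nonneg_right (by positivity))) 2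
    have a4 := mul_le_mul_of_nonneg_right a3 hq.μJpos.le
    have a5 := hq.J1
    have a6 := hq.n_le
    refine (h2 d M E _ S (frz E q S α) hI a2 (by linarith) ?_ ?_).congr rfl rfl rfl rfl rfl
    · change 3 / 5 * q.μ ≤ (q.ζ + 1 / (q.P : ℝ) ^ 3) ^ 2 * q.μJ
      linarith
    · change 3 / 5 * q.n ≤ 3 / 5 * q.nJ
      linarith
  · exact hc x fun h => hx (sel_O.symm.subset h)
  · obtain rfl := mem_singleton.1 hi
    have : Nonempty (Fin E.N) := ⟨⟨0, Nat.pos_of_ne_zero hE.N0⟩⟩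
    have a1 : 2 * (2 * q.D E.η 1) ≤ 2 * q.rad E.η := by
      have := hq.D_mono hE (i := 1) (j := 3) (by norm_num)
      unfold Par.rad
      omega
    calc _ ≤ pr (fun z : Cfg (Tor d M) E.N × (Tor d M → Fin q.Km) => ∀ x ∈ I, Fail E q S x z.2) :=
          pr_mono fun z hz x hx => by
            obtain ⟨y, hy, e⟩ := (mem_ev.1 (hz x hx).1).resolve_left (hz x hx).2
            obtain rfl : y = x := congrArg (fun ℓ => ℓ.2.2) e
            exact hy
      _ = pr (fun w : Tor d M → Fin q.Km => ∀ x ∈ I, Fail E q S x w) :=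
          pr_snd fun w : Tor d M → Fin q.Km => ∀ x ∈ I, Fail E q S x w
      _ = ∏ x ∈ I, pr (Fail E q S x) :=
          h1 _ _ _ I (fun x => bl x (2 * q.D E.η 1)) (Fail E q S)
            (fun x hx y hy hn => hs.disj a1 hx hy hn)
            fun x _ w w' h => fail_loc (h3 d M E q S hE hq hI).2.2 h
      _ ≤ ∏ _x ∈ I, exp (-(q.P : ℝ) ^ 3) :=
          prod_le_prod (fun x _ => pr_nonneg _) fun x _ => h4 d M E q S hE hq hI x
      _ = _ := prod_const _
  · obtain ⟨x, -, e⟩ := (mem_ev.1 hc).resolve_left hn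
    exact absurd (congrArg (fun ℓ => ℓ.2.1) e) (by simp)
  · refine (mem_union.1 hx).imp id fun h => ?_
    obtain ⟨y, hy, hn⟩ := mem_frz.1 (mem_inter.1 h).2
    exact ⟨(s, 0, y), mem_ev.2 (Or.inr ⟨y, hy, rfl⟩), rfl, by simp,
      hn.trans (hq.D_mono hE (by norm_num))⟩

end Pool.Agent.P.MP_d0f69c_mp.XS
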